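import Mathlib

set_option autoImplicit false

/-!
# Right-invariant preorders with levels

`δ` is a homomorphism from the group `G` to `ZMod 3`.  A `Pre δ` is a total preorder on `G` such that
right multiplication preserves the order of two elements of the same degree.
-/

namespace Pool.Agent.K7.H31.SA

variable {G : Type*} [Group G]

/-- A total preorder on `G`; right multiplication preserves the order of elements of equal degree. -/
structure Pre (δ : G → ZMod 3) where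
  le : G → G → Prop
  total : ∀ u v, le u v ∨ le v u
  trans : ∀ {u v w}, le u v → le v w → le u w
  mul : ∀ {u v} (w), δ u = δ v → le u v → le (u * w) (v * w)

/-- Rewriting rules which follow from `(P * f⁻¹) ^ 3 = 1`. -/
def Cube (P f : G) : Prop :=
  (∀ r, P * (f⁻¹ * (P * r)) = f * (P⁻¹ * (f * r))) ∧ P * (f⁻¹ * P) = f * (P⁻¹ * f) ∧
  (∀ r, f⁻¹ * (P * (f⁻¹ * r)) = P⁻¹ * (f * (P⁻¹ * r))) ∧ f⁻¹ * (P * f⁻¹) = P⁻¹ * (f * P⁻¹) ∧
  (∀ r, f * (P⁻¹ * (f * (P⁻¹ * r))) = P * (f⁻¹ * r)) ∧ f * (P⁻¹ * (f * P⁻¹)) = P * f⁻¹ ∧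
  (∀ r, P⁻¹ * (f * (P⁻¹ * (f * r))) = f⁻¹ * (P * r)) ∧ P⁻¹ * (f * (P⁻¹ * f)) = f⁻¹ * P

theorem Cube.of {P f : G} (h : (P * f⁻¹) ^ 3 = 1) : Cube P f := by
  have h1 : P * f⁻¹ * P = f * P⁻¹ * f := by
    have h2 : P * f⁻¹ * P * (f⁻¹ * P * f⁻¹) = 1 := by
      rw [← h]; simp only [pow_succ, pow_zero, one_mul, mul_assoc]
    calc P * f⁻¹ * P = (f⁻¹ * P * f⁻¹)⁻¹ := eq_inv_of_mul_eq_one_left h2
      _ = f * P⁻¹ * f := by group
  have h3 : f⁻¹ * P * f⁻¹ = P⁻¹ * f * P⁻¹ := by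
    calc f⁻¹ * P * f⁻¹ = (f * P⁻¹ * f)⁻¹ := by group
      _ = (P * f⁻¹ * P)⁻¹ := by rw [h1]
      _ = P⁻¹ * f * P⁻¹ := by group
  have h5 : f * P⁻¹ * f * P⁻¹ = P * f⁻¹ := by rw [← h1]; group
  have h7 : P⁻¹ * f * P⁻¹ * f = f⁻¹ * P := by rw [← h3]; group
  refine ⟨fun r => ?_, ?_, fun r => ?_, ?_, fun r => ?_, ?_, fun r => ?_, ?_⟩
  · simpa only [mul_assoc] using congrArg (· * r) h1
  · simpa only [mul_assoc] using h1
  · simpa only [mul_assoc] using congrArg (· * r) h3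
  · simpa only [mul_assoc] using h3
  · simpa only [mul_assoc] using congrArg (· * r) h5
  · simpa only [mul_assoc] using h5
  · simpa only [mul_assoc] using congrArg (· * r) h7
  · simpa only [mul_assoc] using h7

/-- Rewriting rules which follow from `a ^ 3 = 1`. -/
def Ord3 (a : G) : Prop :=
  (∀ r, a * (a * r) = a⁻¹ * r) ∧ a * a = a⁻¹ ∧ (∀ r, a⁻¹ * (a⁻¹ * r) = a * r) ∧ a⁻¹ * a⁻¹ = a

theorem Ord3.of {a : G} (h : a ^ 3 = 1) : Ord3 a := by
  have h1 : a * a = a⁻¹ := by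
    rw [eq_inv_iff_mul_eq_one, ← h]; simp only [pow_succ, pow_zero, one_mul, mul_assoc]
  have h2 : a⁻¹ * a⁻¹ = a := by
    have h3 := congrArg (·⁻¹) h1
    simpa using h3
  refine ⟨fun r => ?_, h1, fun r => ?_, h2⟩
  · rw [← mul_assoc, h1]
  · rw [← mul_assoc, h2]

section
variable {δ : G → ZMod 3} (hδ : ∀ u v, δ (u * v) = δ u + δ v)
include hδ

theorem δone : δ 1 = 0 := by
  have h := hδ 1 1
  rw [mul_one] at h
  exact left_eq_add.1 h

theorem δinv (u : G) : δ u⁻¹ = - δ u := by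
  have h := hδ u⁻¹ u
  rw [inv_mul_cancel, δone hδ] at h
  exact eq_neg_of_add_eq_zero_left h.symm

end

namespace Pre

variable {δ : G → ZMod 3} (o : Pre δ)

/-- the strict part -/
def lt (u v : G) : Prop := ¬ o.le v u

theorem le_of_not {u v : G} (h : ¬ o.lt v u) : o.le u v := not_not.1 h

theorem le_of_lt {u v : G} (h : o.lt u v) : o.le u v := (o.total u v).resolve_right h

theorem refl (u : G) : o.le u u := (o.total u u).elim id id

theorem irr {u : G} (h : o.lt u u) : False := h (o.refl u)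

theorem asym {u v : G} (h : o.lt u v) (h' : o.lt v u) : False := h (o.le_of_lt h')

theorem tri {u v w : G} (h : o.lt u w) (h1 : ¬ o.lt u v) (h2 : ¬ o.lt v w) : False :=
  h (o.trans (o.le_of_not h2) (o.le_of_not h1))

theorem eqv {u v : G} (h : u = v) (h1 : o.lt u v) : False := by subst h; exact o.irr h1

theorem cv (hδ : ∀ u v, δ (u * v) = δ u + δ v) {u v : G} (w : G) {wa wb : G} (hd : δ u = δ v)
    (h1 : u * w = wa) (h2 : v * w = wb) : o.lt u v ↔ o.lt wa wb := by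
  subst h1; subst h2
  unfold lt
  rw [not_iff_not]
  constructor
  · exact o.mul w hd.symm
  · intro h
    have h3 : δ (v * w) = δ (u * w) := by rw [hδ, hδ, hd]
    have h4 := o.mul w⁻¹ h3 h
    simpa [mul_assoc] using h4

/-- the dual preorder -/
def dual : Pre δ where
  le u v := o.le v u
  total u v := o.total v u
  trans h h' := o.trans h' h
  mul w hd h := o.mul w hd.symm h

/-- the translate of the preorder -/
def shift (hδ : ∀ u v, δ (u * v) = δ u + δ v) (z : G) : Pre δ where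
  le u v := o.le (z * u) (z * v)
  total u v := o.total _ _
  trans h h' := o.trans h h'
  mul w hd h := by
    rw [← mul_assoc, ← mul_assoc]
    exact o.mul w (by rw [hδ, hδ, hd]) h

theorem dual_lt {u v : G} : o.dual.lt u v ↔ o.lt v u := Iff.rfl

theorem shift_lt (hδ : ∀ u v, δ (u * v) = δ u + δ v) {z u v : G} :
    (o.shift hδ z).lt u v ↔ o.lt (z * u) (z * v) := Iff.rfl

end Pre

/-- The rule for a pair of corners `a`, `b` and the two faces `u`, `v`: if `b` moves the point `z` at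
least as far as `a`, and `b⁻¹` as well, then `v` moves it at most as far as `u`; strictly less if
both hypotheses are strict; and the dual. -/
structure Rule {δ : G → ZMod 3} (o : Pre δ) (a b u v : G) : Prop where
  w1 : ∀ z, ¬ o.lt (z * b) (z * a) → ¬ o.lt (z * b⁻¹) (z * a⁻¹) → ¬ o.lt (z * u) (z * v)
  s1 : ∀ z, o.lt (z * a) (z * b) → o.lt (z * a⁻¹) (z * b⁻¹) → o.lt (z * v) (z * u)
  w2 : ∀ z, ¬ o.lt (z * a) (z * b) → ¬ o.lt (z * a⁻¹) (z * b⁻¹) → ¬ o.lt (z * v) (z * u)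
  s2 : ∀ z, o.lt (z * b) (z * a) → o.lt (z * b⁻¹) (z * a⁻¹) → o.lt (z * u) (z * v)

namespace Rule

variable {δ : G → ZMod 3} {o : Pre δ} {a b u v : G}

theorem dual (h : Rule o a b u v) : Rule o.dual a b u v := ⟨h.w2, h.s2, h.w1, h.s1⟩

theorem shift (hδ : ∀ u v, δ (u * v) = δ u + δ v) (h : Rule o a b u v) (z : G) :
    Rule (o.shift hδ z) a b u v := by
  refine ⟨fun y => ?_, fun y => ?_, fun y => ?_, fun y => ?_⟩ <;>
    simp only [Pre.shift_lt, ← mul_assoc]
  exacts [h.w1 (z * y), h.s1 (z * y), h.w2 (z * y), h.s2 (z * y)]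

theorem symm (h : Rule o a b u v) : Rule o b a v u := ⟨h.w2, h.s2, h.w1, h.s1⟩

theorem inv (h : Rule o a b u v) : Rule o a⁻¹ b⁻¹ u v := by
  refine ⟨fun z h1 h2 => ?_, fun z h1 h2 => ?_, fun z h1 h2 => ?_, fun z h1 h2 => ?_⟩ <;>
    rw [inv_inv, inv_inv] at h2
  exacts [h.w1 z h2 h1, h.s1 z h2 h1, h.w2 z h2 h1, h.s2 z h2 h1]


end Rule

end Pool.Agent.K7.H31.SA
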