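import Pool.Agent.K7.H31.SA.Rules

set_option autoImplicit false
set_option maxRecDepth 100000
set_option linter.all false

/-!
# Generated order arguments
-/

namespace Pool.Agent.K7.H31.SA

theorem close_AA_prop {A1 A2 A3 A4 A5 A6 A7 A8 A9 A10 A11 A12 A13 A14 A15 A16 A17 A18 A19 A20 : Prop}
    (c0 : ¬ A15 → ¬ A19 → A2 → False)
    (c1 : ¬ A18 → A19 → ¬ A6 → False)
    (c2 : ¬ A1 → A9 → ¬ A13 → False)
    (c3 : ¬ A11 → ¬ A9 → A5 → False)
    (c4 : ¬ A20 → A17 → ¬ A10 → False)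
    (c5 : ¬ A15 → ¬ A16 → A10 → False)
    (c6 : ¬ A4 → A7 → ¬ A12 → False)
    (c7 : A1 → A4 → False)
    (c8 : A1 → ¬ A2 → ¬ A7 → False)
    (c9 : A2 → A6 → False)
    (c10 : A3 → A12 → False)
    (c11 : A3 → ¬ A2 → ¬ A8 → False)
    (c12 : A4 → ¬ A5 → ¬ A12 → False)
    (c13 : A5 → A13 → False)
    (c14 : A8 → ¬ A7 → ¬ A5 → False)
    (c15 : A11 → ¬ A9 → ¬ A2 → False)
    (c16 : A14 → A15 → False)
    (c17 : A14 → ¬ A3 → ¬ A17 → False)
    (c18 : A16 → ¬ A15 → ¬ A3 → False)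
    (c19 : A18 → A20 → False)
    (c20 : A6 → ¬ A18 → ¬ A10 → False)
    (c21 : A19 → ¬ A20 → ¬ A12 → False)
    (c22 : A20 → ¬ A19 → ¬ A3 → False)
    (u0 : A14)
    : False := by
  have q1 : ¬ A15 := fun h => c16 u0 h
  rcases Classical.em A3 with q2 | q2
  · have q3 : ¬ A12 := fun h => c10 q2 h
    rcases Classical.em A2 with q4 | q4
    · have q5 : A19 := Classical.byContradiction fun h => c0 q1 h q4
      have q6 : ¬ A6 := fun h => c9 q4 h
      have q7 : A18 := Classical.byContradiction fun h => c1 h q5 q6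
      have q8 : ¬ A20 := fun h => c19 q7 h
      exact c21 q5 q8 q3
    · have q9 : A8 := Classical.byContradiction fun h => c11 q2 q4 h
      rcases Classical.em A5 with q10 | q10
      · have q11 : ¬ A13 := fun h => c13 q10 h
        rcases Classical.em A1 with q12 | q12
        · have q13 : ¬ A4 := fun h => c7 q12 h
          have q14 : ¬ A7 := fun h => c6 q13 h q3
          exact c8 q12 q4 q14
        · have q15 : ¬ A9 := fun h => c2 q12 h q11
          have q16 : A11 := Classical.byContradiction fun h => c3 h q15 q10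
          exact c15 q16 q15 q4
      · have q17 : ¬ A4 := fun h => c12 h q10 q3
        have q18 : ¬ A7 := fun h => c6 q17 h q3
        exact c14 q9 q18 q10
  · have q19 : A17 := Classical.byContradiction fun h => c17 u0 q2 h
    have q20 : ¬ A16 := fun h => c18 h q1 q2
    have q21 : ¬ A10 := fun h => c5 q1 q20 h
    have q22 : A20 := Classical.byContradiction fun h => c4 h q19 q21
    have q23 : ¬ A18 := fun h => c19 h q22
    have q24 : ¬ A6 := fun h => c20 h q23 q21
    have q25 : ¬ A19 := fun h => c1 q23 h q24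
    exact c22 q22 q25 q2

theorem close_AA_k0 {G : Type*} [Group G] {δ : G → ZMod 3} (hδ : ∀ u v, δ (u * v) = δ u + δ v) (o : Pre δ)
    {P Q f0 f1 : G} {e : ZMod 3} (h3 : 3 * e = 0)
    (D : δ P = e ∧ δ Q = -e ∧ δ f0 = 0 ∧ δ f1 = 0)
    (C : Cube P f0 ∧ Cube P f1 ∧ Cube Q f0 ∧ Cube Q f1) :
    (o.lt (f1 * P⁻¹) (f0 * P⁻¹) ↔ o.lt (1 * (f1 * P⁻¹)) (1 * (f0 * P⁻¹))) ∧
    (o.lt (Q * f1⁻¹) (f0 * P⁻¹) ↔ o.lt (1 * (Q * f1⁻¹)) (1 * (f0 * P⁻¹))) ∧
    (o.lt (P * f0⁻¹) (f0 * Q⁻¹) ↔ o.lt (1 * (f0 * P⁻¹)⁻¹) (1 * (Q * f0⁻¹)⁻¹)) ∧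
    (o.lt (Q * f0⁻¹) (Q * f1⁻¹) ↔ o.lt (1 * (Q * f0⁻¹)) (1 * (Q * f1⁻¹))) ∧
    (o.lt (f0 * Q⁻¹) (P * f0⁻¹) ↔ o.lt (1 * (Q * f0⁻¹)⁻¹) (1 * (f0 * P⁻¹)⁻¹)) ∧
    (o.lt (P * f0⁻¹) (P * f1⁻¹) ↔ o.lt (1 * (P * f0⁻¹)) (1 * (P * f1⁻¹))) ∧
    (o.lt (f1 * Q⁻¹) (P * f0⁻¹) ↔ o.lt (1 * (f1 * Q⁻¹)) (1 * (P * f0⁻¹))) ∧
    (o.lt (Q * f1⁻¹) (f1 * P⁻¹) ↔ o.lt (1 * (f1 * Q⁻¹)⁻¹) (1 * (P * f1⁻¹)⁻¹)) ∧
    (o.lt (f1 * Q⁻¹) (f0 * Q⁻¹) ↔ o.lt (1 * (f1 * Q⁻¹)) (1 * (f0 * Q⁻¹))) ∧
    (o.lt (f1 * P⁻¹) (Q * f1⁻¹) ↔ o.lt (1 * (P * f1⁻¹)⁻¹) (1 * (f1 * Q⁻¹)⁻¹)) ∧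
    (o.lt (Q * f1⁻¹) (Q * f0⁻¹) ↔ o.lt (1 * (Q * f1⁻¹)) (1 * (Q * f0⁻¹))) ∧
    (o.lt (Q * f0⁻¹) (f1 * P⁻¹) ↔ o.lt (1 * (Q * f0⁻¹)) (1 * (f1 * P⁻¹))) ∧
    (o.lt (f1 * Q⁻¹) (P * f1⁻¹) ↔ o.lt (1 * (Q * f1⁻¹)⁻¹) (1 * (f1 * P⁻¹)⁻¹)) ∧
    (o.lt (f1 * P⁻¹) (Q * f0⁻¹) ↔ o.lt (1 * (f1 * P⁻¹)) (1 * (Q * f0⁻¹))) ∧
    (o.lt (P * f1⁻¹) (P * f0⁻¹) ↔ o.lt (1 * (P * f1⁻¹)) (1 * (P * f0⁻¹))) ∧
    (o.lt (f0 * Q⁻¹) (P * f1⁻¹) ↔ o.lt (1 * (f0 * Q⁻¹)) (1 * (P * f1⁻¹))) ∧
    (o.lt (Q * f0⁻¹) (f0 * P⁻¹) ↔ o.lt (1 * (f0 * Q⁻¹)⁻¹) (1 * (P * f0⁻¹)⁻¹)) ∧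
    (o.lt (P * f0⁻¹) (P * f1⁻¹) ↔ o.lt (P * f0⁻¹) (P * f1⁻¹)) ∧
    (o.lt (P * f1⁻¹) (P * f0⁻¹) ↔ o.lt (P * f1⁻¹) (P * f0⁻¹)) ∧
    (o.lt (P * f0⁻¹) (f0 * Q⁻¹) ↔ o.lt (P * f0⁻¹) (f0 * Q⁻¹)) := by
  have C' := C
  obtain ⟨C0, C1, C2, C3⟩ := C'
  simp only [Cube] at C C0 C1 C2 C3
  exact ⟨o.cv hδ (1) (by simp only [hδ, δinv hδ, δone hδ, D] <;> linear_combination (0) * h3) (by first | (simp only [mul_assoc, mul_inv_rev, inv_inv, mul_inv_cancel_left, inv_mul_cancel_left, mul_inv_cancel, inv_mul_cancel, mul_one, one_mul, inv_one]; done) | simp only [mul_assoc, mul_inv_rev, inv_inv, mul_inv_cancel_left, inv_mul_cancel_left, mul_inv_cancel, inv_mul_cancel, mul_one, one_mul, inv_one, C]) (by first | (simp only [mul_assoc, mul_inv_rev, inv_inv, mul_inv_cancel_left, inv_mul_cancel_left, mul_inv_cancel, inv_mul_cancel, mul_one, one_mul, inv_one]; done) | simp only [mul_assoc, mul_inv_rev, inv_inv, mul_inv_cancel_left, inv_mul_cancel_left, mul_inv_cancel,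 inv_mul_cancel, mul_one, one_mul, inv_one, C]),
    o.cv hδ (1) (by simp only [hδ, δinv hδ, δone hδ, D] <;> linear_combination (0) * h3) (by first | (simp only [mul_assoc, mul_inv_rev, inv_inv, mul_inv_cancel_left, inv_mul_cancel_left, mul_inv_cancel, inv_mul_cancel, mul_one, one_mul, inv_one]; done) | simp only [mul_assoc, mul_inv_rev, inv_inv, mul_inv_cancel_left, inv_mul_cancel_left, mul_inv_cancel, inv_mul_cancel, mul_one, one_mul, inv_one, C]) (by first | (simp only [mul_assoc, mul_inv_rev, inv_inv, mul_inv_cancel_left, inv_mul_cancel_left, mul_inv_cancel, inv_mul_cancel, mul_one, one_mul, inv_one]; done) | simp only [mul_assoc, mul_inv_rev, inv_inv, mul_inv_cancel_left, inv_mul_cancel_left, mul_inv_cancel, inv_mul_cancel, mul_one, one_mul, inv_one, C]),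
    o.cv hδ (1) (by simp only [hδ, δinv hδ, δone hδ, D] <;> linear_combination (0) * h3) (by first | (simp only [mul_assoc, mul_inv_rev, inv_inv, mul_inv_cancel_left, inv_mul_cancel_left, mul_inv_cancel, inv_mul_cancel, mul_one, one_mul, inv_one]; done) | simp only [mul_assoc, mul_inv_rev, inv_inv, mul_inv_cancel_left, inv_mul_cancel_left, mul_inv_cancel, inv_mul_cancel, mul_one, one_mul, inv_one, C]) (by first | (simp only [mul_assoc, mul_inv_rev, inv_inv, mul_inv_cancel_left, inv_mul_cancel_left, mul_inv_cancel, inv_mul_cancel, mul_one, one_mul, inv_one]; done) | simp only [mul_assoc, mul_inv_rev, inv_inv, mul_inv_cancel_left, inv_mul_cancel_left, mul_inv_cancel, inv_mul_cancel, mul_one, one_mul, inv_one, C]),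
    o.cv hδ (1) (by simp only [hδ, δinv hδ, δone hδ, D] <;> linear_combination (0) * h3) (by first | (simp only [mul_assoc, mul_inv_rev, inv_inv, mul_inv_cancel_left, inv_mul_cancel_left, mul_inv_cancel, inv_mul_cancel, mul_one, one_mul, inv_one]; done) | simp only [mul_assoc, mul_inv_rev, inv_inv, mul_inv_cancel_left, inv_mul_cancel_left, mul_inv_cancel, inv_mul_cancel, mul_one, one_mul, inv_one, C]) (by first | (simp only [mul_assoc, mul_inv_rev, inv_inv, mul_inv_cancel_left, inv_mul_cancel_left, mul_inv_cancel, inv_mul_cancel, mul_one, one_mul, inv_one]; done) | simp only [mul_assoc, mul_inv_rev, inv_inv, mul_inv_cancel_left, inv_mul_cancel_left, mul_inv_cancel, inv_mul_cancel, mul_one, one_mul, inv_one, C]),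
    o.cv hδ (1) (by simp only [hδ, δinv hδ, δone hδ, D] <;> linear_combination (0) * h3) (by first | (simp only [mul_assoc, mul_inv_rev, inv_inv, mul_inv_cancel_left, inv_mul_cancel_left, mul_inv_cancel, inv_mul_cancel, mul_one, one_mul, inv_one]; done) | simp only [mul_assoc, mul_inv_rev, inv_inv, mul_inv_cancel_left, inv_mul_cancel_left, mul_inv_cancel, inv_mul_cancel, mul_one, one_mul, inv_one, C]) (by first | (simp only [mul_assoc, mul_inv_rev, inv_inv, mul_inv_cancel_left, inv_mul_cancel_left, mul_inv_cancel, inv_mul_cancel, mul_one, one_mul, inv_one]; done) | simp only [mul_assoc, mul_inv_rev, inv_inv, mul_inv_cancel_left, inv_mul_cancel_left, mul_inv_cancel, inv_mul_cancel, mul_one, one_mul, inv_one, C]),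
    o.cv hδ (1) (by simp only [hδ, δinv hδ, δone hδ, D] <;> linear_combination (0) * h3) (by first | (simp only [mul_assoc, mul_inv_rev, inv_inv, mul_inv_cancel_left, inv_mul_cancel_left, mul_inv_cancel, inv_mul_cancel, mul_one, one_mul, inv_one]; done) | simp only [mul_assoc, mul_inv_rev, inv_inv, mul_inv_cancel_left, inv_mul_cancel_left, mul_inv_cancel, inv_mul_cancel, mul_one, one_mul, inv_one, C]) (by first | (simp only [mul_assoc, mul_inv_rev, inv_inv, mul_inv_cancel_left, inv_mul_cancel_left, mul_inv_cancel, inv_mul_cancel, mul_one, one_mul, inv_one]; done) | simp only [mul_assoc, mul_inv_rev, inv_inv, mul_inv_cancel_left, inv_mul_cancel_left, mul_inv_cancel, inv_mul_cancel, mul_one, one_mul, inv_one, C]),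
    o.cv hδ (1) (by simp only [hδ, δinv hδ, δone hδ, D] <;> linear_combination (0) * h3) (by first | (simp only [mul_assoc, mul_inv_rev, inv_inv, mul_inv_cancel_left, inv_mul_cancel_left, mul_inv_cancel, inv_mul_cancel, mul_one, one_mul, inv_one]; done) | simp only [mul_assoc, mul_inv_rev, inv_inv, mul_inv_cancel_left, inv_mul_cancel_left, mul_inv_cancel, inv_mul_cancel, mul_one, one_mul, inv_one, C]) (by first | (simp only [mul_assoc, mul_inv_rev, inv_inv, mul_inv_cancel_left, inv_mul_cancel_left, mul_inv_cancel, inv_mul_cancel, mul_one, one_mul, inv_one]; done) | simp only [mul_assoc, mul_inv_rev, inv_inv, mul_inv_cancel_left, inv_mul_cancel_left, mul_inv_cancel, inv_mul_cancel, mul_one, one_mul, inv_one, C]),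
    o.cv hδ (1) (by simp only [hδ, δinv hδ, δone hδ, D] <;> linear_combination (0) * h3) (by first | (simp only [mul_assoc, mul_inv_rev, inv_inv, mul_inv_cancel_left, inv_mul_cancel_left, mul_inv_cancel, inv_mul_cancel, mul_one, one_mul, inv_one]; done) | simp only [mul_assoc, mul_inv_rev, inv_inv, mul_inv_cancel_left, inv_mul_cancel_left, mul_inv_cancel, inv_mul_cancel, mul_one, one_mul, inv_one, C]) (by first | (simp only [mul_assoc, mul_inv_rev, inv_inv, mul_inv_cancel_left, inv_mul_cancel_left, mul_inv_cancel, inv_mul_cancel, mul_one, one_mul, inv_one]; done) | simp only [mul_assoc, mul_inv_rev, inv_inv, mul_inv_cancel_left, inv_mul_cancel_left, mul_inv_cancel, inv_mul_cancel, mul_one, one_mul, inv_one, C]),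
    o.cv hδ (1) (by simp only [hδ, δinv hδ, δone hδ, D] <;> linear_combination (0) * h3) (by first | (simp only [mul_assoc, mul_inv_rev, inv_inv, mul_inv_cancel_left, inv_mul_cancel_left, mul_inv_cancel, inv_mul_cancel, mul_one, one_mul, inv_one]; done) | simp only [mul_assoc, mul_inv_rev, inv_inv, mul_inv_cancel_left, inv_mul_cancel_left, mul_inv_cancel, inv_mul_cancel, mul_one, one_mul, inv_one, C]) (by first | (simp only [mul_assoc, mul_inv_rev, inv_inv, mul_inv_cancel_left, inv_mul_cancel_left, mul_inv_cancel, inv_mul_cancel, mul_one, one_mul, inv_one]; done) | simp only [mul_assoc, mul_inv_rev, inv_inv, mul_inv_cancel_left, inv_mul_cancel_left, mul_inv_cancel, inv_mul_cancel, mul_one, one_mul, inv_one, C]),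
    o.cv hδ (1) (by simp only [hδ, δinv hδ, δone hδ, D] <;> linear_combination (0) * h3) (by first | (simp only [mul_assoc, mul_inv_rev, inv_inv, mul_inv_cancel_left, inv_mul_cancel_left, mul_inv_cancel, inv_mul_cancel, mul_one, one_mul, inv_one]; done) | simp only [mul_assoc, mul_inv_rev, inv_inv, mul_inv_cancel_left, inv_mul_cancel_left, mul_inv_cancel, inv_mul_cancel, mul_one, one_mul, inv_one, C]) (by first | (simp only [mul_assoc, mul_inv_rev, inv_inv, mul_inv_cancel_left, inv_mul_cancel_left, mul_inv_cancel, inv_mul_cancel, mul_one, one_mul, inv_one]; done) | simp only [mul_assoc, mul_inv_rev, inv_inv, mul_inv_cancel_left, inv_mul_cancel_left, mul_inv_cancel, inv_mul_cancel, mul_one, one_mul, inv_one, C]),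
    o.cv hδ (1) (by simp only [hδ, δinv hδ, δone hδ, D] <;> linear_combination (0) * h3) (by first | (simp only [mul_assoc, mul_inv_rev, inv_inv, mul_inv_cancel_left, inv_mul_cancel_left, mul_inv_cancel, inv_mul_cancel, mul_one, one_mul, inv_one]; done) | simp only [mul_assoc, mul_inv_rev, inv_inv, mul_inv_cancel_left, inv_mul_cancel_left, mul_inv_cancel, inv_mul_cancel, mul_one, one_mul, inv_one, C]) (by first | (simp only [mul_assoc, mul_inv_rev, inv_inv, mul_inv_cancel_left, inv_mul_cancel_left, mul_inv_cancel, inv_mul_cancel, mul_one, one_mul, inv_one]; done) | simp only [mul_assoc, mul_inv_rev, inv_inv, mul_inv_cancel_left, inv_mul_cancel_left, mul_inv_cancel, inv_mul_cancel, mul_one, one_mul, inv_one, C]),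
    o.cv hδ (1) (by simp only [hδ, δinv hδ, δone hδ, D] <;> linear_combination (0) * h3) (by first | (simp only [mul_assoc, mul_inv_rev, inv_inv, mul_inv_cancel_left, inv_mul_cancel_left, mul_inv_cancel, inv_mul_cancel, mul_one, one_mul, inv_one]; done) | simp only [mul_assoc, mul_inv_rev, inv_inv, mul_inv_cancel_left, inv_mul_cancel_left, mul_inv_cancel, inv_mul_cancel, mul_one, one_mul, inv_one, C]) (by first | (simp only [mul_assoc, mul_inv_rev, inv_inv, mul_inv_cancel_left, inv_mul_cancel_left, mul_inv_cancel, inv_mul_cancel, mul_one, one_mul, inv_one]; done) | simp only [mul_assoc, mul_inv_rev, inv_inv, mul_inv_cancel_left, inv_mul_cancel_left, mul_inv_cancel, inv_mul_cancel, mul_one, one_mul, inv_one, C]),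
    o.cv hδ (1) (by simp only [hδ, δinv hδ, δone hδ, D] <;> linear_combination (0) * h3) (by first | (simp only [mul_assoc, mul_inv_rev, inv_inv, mul_inv_cancel_left, inv_mul_cancel_left, mul_inv_cancel, inv_mul_cancel, mul_one, one_mul, inv_one]; done) | simp only [mul_assoc, mul_inv_rev, inv_inv, mul_inv_cancel_left, inv_mul_cancel_left, mul_inv_cancel, inv_mul_cancel, mul_one, one_mul, inv_one, C]) (by first | (simp only [mul_assoc, mul_inv_rev, inv_inv, mul_inv_cancel_left, inv_mul_cancel_left, mul_inv_cancel, inv_mul_cancel, mul_one, one_mul, inv_one]; done) | simp only [mul_assoc, mul_inv_rev, inv_inv, mul_inv_cancel_left, inv_mul_cancel_left, mul_inv_cancel, inv_mul_cancel, mul_one, one_mul, inv_one, C]),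
    o.cv hδ (1) (by simp only [hδ, δinv hδ, δone hδ, D] <;> linear_combination (0) * h3) (by first | (simp only [mul_assoc, mul_inv_rev, inv_inv, mul_inv_cancel_left, inv_mul_cancel_left, mul_inv_cancel, inv_mul_cancel, mul_one, one_mul, inv_one]; done) | simp only [mul_assoc, mul_inv_rev, inv_inv, mul_inv_cancel_left, inv_mul_cancel_left, mul_inv_cancel, inv_mul_cancel, mul_one, one_mul, inv_one, C]) (by first | (simp only [mul_assoc, mul_inv_rev, inv_inv, mul_inv_cancel_left, inv_mul_cancel_left, mul_inv_cancel, inv_mul_cancel, mul_one, one_mul, inv_one]; done) | simp only [mul_assoc, mul_inv_rev, inv_inv, mul_inv_cancel_left, inv_mul_cancel_left, mul_inv_cancel, inv_mul_cancel, mul_one, one_mul, inv_one, C]),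
    o.cv hδ (1) (by simp only [hδ, δinv hδ, δone hδ, D] <;> linear_combination (0) * h3) (by first | (simp only [mul_assoc, mul_inv_rev, inv_inv, mul_inv_cancel_left, inv_mul_cancel_left, mul_inv_cancel, inv_mul_cancel, mul_one, one_mul, inv_one]; done) | simp only [mul_assoc, mul_inv_rev, inv_inv, mul_inv_cancel_left, inv_mul_cancel_left, mul_inv_cancel, inv_mul_cancel, mul_one, one_mul, inv_one, C]) (by first | (simp only [mul_assoc, mul_inv_rev, inv_inv, mul_inv_cancel_left, inv_mul_cancel_left, mul_inv_cancel, inv_mul_cancel, mul_one, one_mul, inv_one]; done) | simp only [mul_assoc, mul_inv_rev, inv_inv, mul_inv_cancel_left, inv_mul_cancel_left, mul_inv_cancel, inv_mul_cancel, mul_one, one_mul, inv_one, C]),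
    o.cv hδ (1) (by simp only [hδ, δinv hδ, δone hδ, D] <;> linear_combination (0) * h3) (by first | (simp only [mul_assoc, mul_inv_rev, inv_inv, mul_inv_cancel_left, inv_mul_cancel_left, mul_inv_cancel, inv_mul_cancel, mul_one, one_mul, inv_one]; done) | simp only [mul_assoc, mul_inv_rev, inv_inv, mul_inv_cancel_left, inv_mul_cancel_left, mul_inv_cancel, inv_mul_cancel, mul_one, one_mul, inv_one, C]) (by first | (simp only [mul_assoc, mul_inv_rev, inv_inv, mul_inv_cancel_left, inv_mul_cancel_left, mul_inv_cancel, inv_mul_cancel, mul_one, one_mul, inv_one]; done) | simp only [mul_assoc, mul_inv_rev, inv_inv, mul_inv_cancel_left, inv_mul_cancel_left, mul_inv_cancel, inv_mul_cancel, mul_one, one_mul, inv_one, C]),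
    o.cv hδ (1) (by simp only [hδ, δinv hδ, δone hδ, D] <;> linear_combination (0) * h3) (by first | (simp only [mul_assoc, mul_inv_rev, inv_inv, mul_inv_cancel_left, inv_mul_cancel_left, mul_inv_cancel, inv_mul_cancel, mul_one, one_mul, inv_one]; done) | simp only [mul_assoc, mul_inv_rev, inv_inv, mul_inv_cancel_left, inv_mul_cancel_left, mul_inv_cancel, inv_mul_cancel, mul_one, one_mul, inv_one, C]) (by first | (simp only [mul_assoc, mul_inv_rev, inv_inv, mul_inv_cancel_left, inv_mul_cancel_left, mul_inv_cancel, inv_mul_cancel, mul_one, one_mul, inv_one]; done) | simp only [mul_assoc, mul_inv_rev, inv_inv, mul_inv_cancel_left, inv_mul_cancel_left, mul_inv_cancel, inv_mul_cancel, mul_one, one_mul, inv_one, C]),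
    o.cv hδ (1) (by simp only [hδ, δinv hδ, δone hδ, D] <;> linear_combination (0) * h3) (by first | (simp only [mul_assoc, mul_inv_rev, inv_inv, mul_inv_cancel_left, inv_mul_cancel_left, mul_inv_cancel, inv_mul_cancel, mul_one, one_mul, inv_one]; done) | simp only [mul_assoc, mul_inv_rev, inv_inv, mul_inv_cancel_left, inv_mul_cancel_left, mul_inv_cancel, inv_mul_cancel, mul_one, one_mul, inv_one, C]) (by first | (simp only [mul_assoc, mul_inv_rev, inv_inv, mul_inv_cancel_left, inv_mul_cancel_left, mul_inv_cancel, inv_mul_cancel, mul_one, one_mul, inv_one]; done) | simp only [mul_assoc, mul_inv_rev, inv_inv, mul_inv_cancel_left, inv_mul_cancel_left, mul_inv_cancel, inv_mul_cancel, mul_one, one_mul, inv_one, C]),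
    o.cv hδ (1) (by simp only [hδ, δinv hδ, δone hδ, D] <;> linear_combination (0) * h3) (by first | (simp only [mul_assoc, mul_inv_rev, inv_inv, mul_inv_cancel_left, inv_mul_cancel_left, mul_inv_cancel, inv_mul_cancel, mul_one, one_mul, inv_one]; done) | simp only [mul_assoc, mul_inv_rev, inv_inv, mul_inv_cancel_left, inv_mul_cancel_left, mul_inv_cancel, inv_mul_cancel, mul_one, one_mul, inv_one, C]) (by first | (simp only [mul_assoc, mul_inv_rev, inv_inv, mul_inv_cancel_left, inv_mul_cancel_left, mul_inv_cancel, inv_mul_cancel, mul_one, one_mul, inv_one]; done) | simp only [mul_assoc, mul_inv_rev, inv_inv, mul_inv_cancel_left, inv_mul_cancel_left, mul_inv_cancel, inv_mul_cancel, mul_one, one_mul, inv_one, C]),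
    o.cv hδ (1) (by simp only [hδ, δinv hδ, δone hδ, D] <;> linear_combination (0) * h3) (by first | (simp only [mul_assoc, mul_inv_rev, inv_inv, mul_inv_cancel_left, inv_mul_cancel_left, mul_inv_cancel, inv_mul_cancel, mul_one, one_mul, inv_one]; done) | simp only [mul_assoc, mul_inv_rev, inv_inv, mul_inv_cancel_left, inv_mul_cancel_left, mul_inv_cancel, inv_mul_cancel, mul_one, one_mul, inv_one, C]) (by first | (simp only [mul_assoc, mul_inv_rev, inv_inv, mul_inv_cancel_left, inv_mul_cancel_left, mul_inv_cancel, inv_mul_cancel, mul_one, one_mul, inv_one]; done) | simp only [mul_assoc, mul_inv_rev, inv_inv, mul_inv_cancel_left, inv_mul_cancel_left, mul_inv_cancel, inv_mul_cancel, mul_one, one_mul, inv_one, C])⟩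

theorem close_AA_k1 {G : Type*} [Group G] {δ : G → ZMod 3} (hδ : ∀ u v, δ (u * v) = δ u + δ v) (o : Pre δ)
    {P Q f0 f1 : G} {e : ZMod 3} (h3 : 3 * e = 0)
    (D : δ P = e ∧ δ Q = -e ∧ δ f0 = 0 ∧ δ f1 = 0)
    (C : Cube P f0 ∧ Cube P f1 ∧ Cube Q f0 ∧ Cube Q f1) :
    (o.lt (f0 * Q⁻¹) (P * f1⁻¹) ↔ o.lt (f0 * Q⁻¹) (P * f1⁻¹)) ∧
    (o.lt (f0 * Q⁻¹) (P * f0⁻¹) ↔ o.lt (f0 * Q⁻¹) (P * f0⁻¹)) ∧
    (o.lt (P * f0⁻¹) (Q * P⁻¹) ↔ o.lt (P * f0⁻¹) (Q * P⁻¹)) ∧
    (o.lt (Q * f0⁻¹) (f0 * P⁻¹) ↔ o.lt (Q * P⁻¹) (P * f0⁻¹)) ∧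
    (o.lt (f0 * Q⁻¹) (Q * P⁻¹) ↔ o.lt (f0 * Q⁻¹) (Q * P⁻¹)) ∧
    (o.lt (f1 * P⁻¹) (Q * f1⁻¹) ↔ o.lt (P * f1⁻¹) (Q * P⁻¹)) ∧
    (o.lt (Q * f1⁻¹) (f1 * P⁻¹) ↔ o.lt (Q * P⁻¹) (P * f1⁻¹)) ∧
    (o.lt (f1 * Q⁻¹) (f0 * Q⁻¹) ↔ o.lt (f1 * Q⁻¹) (f0 * Q⁻¹)) ∧
    (o.lt (f1 * Q⁻¹) (P * f0⁻¹) ↔ o.lt (f1 * Q⁻¹) (P * f0⁻¹)) ∧
    (o.lt (f0 * P⁻¹) (f1 * P⁻¹) ↔ o.lt (f0 * P⁻¹) (f1 * P⁻¹)) ∧
    (o.lt (f1 * P⁻¹) (f0 * P⁻¹) ↔ o.lt (f1 * P⁻¹) (f0 * P⁻¹)) ∧
    (o.lt (P * f0⁻¹) (Q * P⁻¹) ↔ o.lt (f0 * P⁻¹) (Q * f0⁻¹)) ∧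
    (o.lt (Q * f0⁻¹) (f1 * P⁻¹) ↔ o.lt (Q * f0⁻¹) (f1 * P⁻¹)) ∧
    (o.lt (f1 * P⁻¹) (Q * f0⁻¹) ↔ o.lt (f1 * P⁻¹) (Q * f0⁻¹)) ∧
    (o.lt (Q * f0⁻¹) (Q * f1⁻¹) ↔ o.lt (Q * f0⁻¹) (Q * f1⁻¹)) ∧
    (o.lt (Q * f1⁻¹) (Q * f0⁻¹) ↔ o.lt (Q * f1⁻¹) (Q * f0⁻¹)) ∧
    (o.lt (f0 * Q⁻¹) (P * f0⁻¹) ↔ o.lt (Q * f0⁻¹) (P * Q⁻¹)) ∧
    (o.lt (f1 * Q⁻¹) (P * f1⁻¹) ↔ o.lt (Q * f1⁻¹) (P * Q⁻¹)) ∧
    (o.lt (Q * f1⁻¹) (f0 * P⁻¹) ↔ o.lt (Q * f1⁻¹) (f0 * P⁻¹)) ∧
    (o.lt (Q * f0⁻¹) (f0 * P⁻¹) ↔ o.lt (Q * f0⁻¹) (f0 * P⁻¹)) := by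
  have C' := C
  obtain ⟨C0, C1, C2, C3⟩ := C'
  simp only [Cube] at C C0 C1 C2 C3
  exact ⟨o.cv hδ (1) (by simp only [hδ, δinv hδ, δone hδ, D] <;> linear_combination (0) * h3) (by first | (simp only [mul_assoc, mul_inv_rev, inv_inv, mul_inv_cancel_left, inv_mul_cancel_left, mul_inv_cancel, inv_mul_cancel, mul_one, one_mul, inv_one]; done) | simp only [mul_assoc, mul_inv_rev, inv_inv, mul_inv_cancel_left, inv_mul_cancel_left, mul_inv_cancel, inv_mul_cancel, mul_one, one_mul, inv_one, C]) (by first | (simp only [mul_assoc, mul_inv_rev, inv_inv, mul_inv_cancel_left, inv_mul_cancel_left, mul_inv_cancel, inv_mul_cancel, mul_one, one_mul, inv_one]; done) | simp only [mul_assoc, mul_inv_rev, inv_inv, mul_inv_cancel_left, inv_mul_cancel_left, mul_inv_cancel, inv_mul_cancel, mul_one, one_mul, inv_one, C]),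
    o.cv hδ (1) (by simp only [hδ, δinv hδ, δone hδ, D] <;> linear_combination (0) * h3) (by first | (simp only [mul_assoc, mul_inv_rev, inv_inv, mul_inv_cancel_left, inv_mul_cancel_left, mul_inv_cancel, inv_mul_cancel, mul_one, one_mul, inv_one]; done) | simp only [mul_assoc, mul_inv_rev, inv_inv, mul_inv_cancel_left, inv_mul_cancel_left, mul_inv_cancel, inv_mul_cancel, mul_one, one_mul, inv_one, C]) (by first | (simp only [mul_assoc, mul_inv_rev, inv_inv, mul_inv_cancel_left, inv_mul_cancel_left, mul_inv_cancel, inv_mul_cancel, mul_one, one_mul, inv_one]; done) | simp only [mul_assoc, mul_inv_rev, inv_inv, mul_inv_cancel_left, inv_mul_cancel_left, mul_inv_cancel, inv_mul_cancel, mul_one, one_mul, inv_one, C]),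
    o.cv hδ (1) (by simp only [hδ, δinv hδ, δone hδ, D] <;> linear_combination (1) * h3) (by first | (simp only [mul_assoc, mul_inv_rev, inv_inv, mul_inv_cancel_left, inv_mul_cancel_left, mul_inv_cancel, inv_mul_cancel, mul_one, one_mul, inv_one]; done) | simp only [mul_assoc, mul_inv_rev, inv_inv, mul_inv_cancel_left, inv_mul_cancel_left, mul_inv_cancel, inv_mul_cancel, mul_one, one_mul, inv_one, C]) (by first | (simp only [mul_assoc, mul_inv_rev, inv_inv, mul_inv_cancel_left, inv_mul_cancel_left, mul_inv_cancel, inv_mul_cancel, mul_one, one_mul, inv_one]; done) | simp only [mul_assoc, mul_inv_rev, inv_inv, mul_inv_cancel_left, inv_mul_cancel_left, mul_inv_cancel, inv_mul_cancel, mul_one, one_mul, inv_one, C]),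
    o.cv hδ (f0 * P⁻¹) (by simp only [hδ, δinv hδ, δone hδ, D] <;> linear_combination (0) * h3) (by first | (simp only [mul_assoc, mul_inv_rev, inv_inv, mul_inv_cancel_left, inv_mul_cancel_left, mul_inv_cancel, inv_mul_cancel, mul_one, one_mul, inv_one]; done) | simp only [mul_assoc, mul_inv_rev, inv_inv, mul_inv_cancel_left, inv_mul_cancel_left, mul_inv_cancel, inv_mul_cancel, mul_one, one_mul, inv_one, C]) (by first | (simp only [mul_assoc, mul_inv_rev, inv_inv, mul_inv_cancel_left, inv_mul_cancel_left, mul_inv_cancel, inv_mul_cancel, mul_one, one_mul, inv_one, C0]; done) | simp only [mul_assoc, mul_inv_rev, inv_inv, mul_inv_cancel_left, inv_mul_cancel_left, mul_inv_cancel, inv_mul_cancel, mul_one, one_mul, inv_one, C]),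
    o.cv hδ (1) (by simp only [hδ, δinv hδ, δone hδ, D] <;> linear_combination (1) * h3) (by first | (simp only [mul_assoc, mul_inv_rev, inv_inv, mul_inv_cancel_left, inv_mul_cancel_left, mul_inv_cancel, inv_mul_cancel, mul_one, one_mul, inv_one]; done) | simp only [mul_assoc, mul_inv_rev, inv_inv, mul_inv_cancel_left, inv_mul_cancel_left, mul_inv_cancel, inv_mul_cancel, mul_one, one_mul, inv_one, C]) (by first | (simp only [mul_assoc, mul_inv_rev, inv_inv, mul_inv_cancel_left, inv_mul_cancel_left, mul_inv_cancel, inv_mul_cancel, mul_one, one_mul, inv_one]; done) | simp only [mul_assoc, mul_inv_rev, inv_inv, mul_inv_cancel_left, inv_mul_cancel_left, mul_inv_cancel, inv_mul_cancel, mul_one, one_mul, inv_one, C]),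
    o.cv hδ (P * (f1⁻¹ * (P * f1⁻¹))) (by simp only [hδ, δinv hδ, δone hδ, D] <;> linear_combination (0) * h3) (by first | (simp only [mul_assoc, mul_inv_rev, inv_inv, mul_inv_cancel_left, inv_mul_cancel_left, mul_inv_cancel, inv_mul_cancel, mul_one, one_mul, inv_one]; done) | simp only [mul_assoc, mul_inv_rev, inv_inv, mul_inv_cancel_left, inv_mul_cancel_left, mul_inv_cancel, inv_mul_cancel, mul_one, one_mul, inv_one, C]) (by first | (simp only [mul_assoc, mul_inv_rev, inv_inv, mul_inv_cancel_left, inv_mul_cancel_left, mul_inv_cancel, inv_mul_cancel, mul_one, one_mul, inv_one, C1]; done) | simp only [mul_assoc, mul_inv_rev, inv_inv, mul_inv_cancel_left, inv_mul_cancel_left, mul_inv_cancel, inv_mul_cancel, mul_one, one_mul, inv_one, C]),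
    o.cv hδ (f1 * P⁻¹) (by simp only [hδ, δinv hδ, δone hδ, D] <;> linear_combination (0) * h3) (by first | (simp only [mul_assoc, mul_inv_rev, inv_inv, mul_inv_cancel_left, inv_mul_cancel_left, mul_inv_cancel, inv_mul_cancel, mul_one, one_mul, inv_one]; done) | simp only [mul_assoc, mul_inv_rev, inv_inv, mul_inv_cancel_left, inv_mul_cancel_left, mul_inv_cancel, inv_mul_cancel, mul_one, one_mul, inv_one, C]) (by first | (simp only [mul_assoc, mul_inv_rev, inv_inv, mul_inv_cancel_left, inv_mul_cancel_left, mul_inv_cancel, inv_mul_cancel, mul_one, one_mul, inv_one, C1]; done) | simp only [mul_assoc, mul_inv_rev, inv_inv, mul_inv_cancel_left, inv_mul_cancel_left, mul_inv_cancel, inv_mul_cancel, mul_one, one_mul, inv_one, C]),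
    o.cv hδ (1) (by simp only [hδ, δinv hδ, δone hδ, D] <;> linear_combination (0) * h3) (by first | (simp only [mul_assoc, mul_inv_rev, inv_inv, mul_inv_cancel_left, inv_mul_cancel_left, mul_inv_cancel, inv_mul_cancel, mul_one, one_mul, inv_one]; done) | simp only [mul_assoc, mul_inv_rev, inv_inv, mul_inv_cancel_left, inv_mul_cancel_left, mul_inv_cancel, inv_mul_cancel, mul_one, one_mul, inv_one, C]) (by first | (simp only [mul_assoc, mul_inv_rev, inv_inv, mul_inv_cancel_left, inv_mul_cancel_left, mul_inv_cancel, inv_mul_cancel, mul_one, one_mul, inv_one]; done) | simp only [mul_assoc, mul_inv_rev, inv_inv, mul_inv_cancel_left, inv_mul_cancel_left, mul_inv_cancel, inv_mul_cancel, mul_one, one_mul, inv_one, C]),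
    o.cv hδ (1) (by simp only [hδ, δinv hδ, δone hδ, D] <;> linear_combination (0) * h3) (by first | (simp only [mul_assoc, mul_inv_rev, inv_inv, mul_inv_cancel_left, inv_mul_cancel_left, mul_inv_cancel, inv_mul_cancel, mul_one, one_mul, inv_one]; done) | simp only [mul_assoc, mul_inv_rev, inv_inv, mul_inv_cancel_left, inv_mul_cancel_left, mul_inv_cancel, inv_mul_cancel, mul_one, one_mul, inv_one, C]) (by first | (simp only [mul_assoc, mul_inv_rev, inv_inv, mul_inv_cancel_left, inv_mul_cancel_left, mul_inv_cancel, inv_mul_cancel, mul_one, one_mul, inv_one]; done) | simp only [mul_assoc, mul_inv_rev, inv_inv, mul_inv_cancel_left, inv_mul_cancel_left, mul_inv_cancel, inv_mul_cancel, mul_one, one_mul, inv_one, C]),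
    o.cv hδ (1) (by simp only [hδ, δinv hδ, δone hδ, D] <;> linear_combination (0) * h3) (by first | (simp only [mul_assoc, mul_inv_rev, inv_inv, mul_inv_cancel_left, inv_mul_cancel_left, mul_inv_cancel, inv_mul_cancel, mul_one, one_mul, inv_one]; done) | simp only [mul_assoc, mul_inv_rev, inv_inv, mul_inv_cancel_left, inv_mul_cancel_left, mul_inv_cancel, inv_mul_cancel, mul_one, one_mul, inv_one, C]) (by first | (simp only [mul_assoc, mul_inv_rev, inv_inv, mul_inv_cancel_left, inv_mul_cancel_left, mul_inv_cancel, inv_mul_cancel, mul_one, one_mul, inv_one]; done) | simp only [mul_assoc, mul_inv_rev, inv_inv, mul_inv_cancel_left, inv_mul_cancel_left, mul_inv_cancel, inv_mul_cancel, mul_one, one_mul, inv_one, C]),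
    o.cv hδ (1) (by simp only [hδ, δinv hδ, δone hδ, D] <;> linear_combination (0) * h3) (by first | (simp only [mul_assoc, mul_inv_rev, inv_inv, mul_inv_cancel_left, inv_mul_cancel_left, mul_inv_cancel, inv_mul_cancel, mul_one, one_mul, inv_one]; done) | simp only [mul_assoc, mul_inv_rev, inv_inv, mul_inv_cancel_left, inv_mul_cancel_left, mul_inv_cancel, inv_mul_cancel, mul_one, one_mul, inv_one, C]) (by first | (simp only [mul_assoc, mul_inv_rev, inv_inv, mul_inv_cancel_left, inv_mul_cancel_left, mul_inv_cancel, inv_mul_cancel, mul_one, one_mul, inv_one]; done) | simp only [mul_assoc, mul_inv_rev, inv_inv, mul_inv_cancel_left, inv_mul_cancel_left, mul_inv_cancel, inv_mul_cancel, mul_one, one_mul, inv_one, C]),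
    o.cv hδ (f0 * (P⁻¹ * (f0 * P⁻¹))) (by simp only [hδ, δinv hδ, δone hδ, D] <;> linear_combination (1) * h3) (by first | (simp only [mul_assoc, mul_inv_rev, inv_inv, mul_inv_cancel_left, inv_mul_cancel_left, mul_inv_cancel, inv_mul_cancel, mul_one, one_mul, inv_one]; done) | simp only [mul_assoc, mul_inv_rev, inv_inv, mul_inv_cancel_left, inv_mul_cancel_left, mul_inv_cancel, inv_mul_cancel, mul_one, one_mul, inv_one, C]) (by first | (simp only [mul_assoc, mul_inv_rev, inv_inv, mul_inv_cancel_left, inv_mul_cancel_left, mul_inv_cancel, inv_mul_cancel, mul_one, one_mul, inv_one, C0]; done) | simp only [mul_assoc, mul_inv_rev, inv_inv, mul_inv_cancel_left, inv_mul_cancel_left, mul_inv_cancel, inv_mul_cancel, mul_one, one_mul, inv_one, C]),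
    o.cv hδ (1) (by simp only [hδ, δinv hδ, δone hδ, D] <;> linear_combination (0) * h3) (by first | (simp only [mul_assoc, mul_inv_rev, inv_inv, mul_inv_cancel_left, inv_mul_cancel_left, mul_inv_cancel, inv_mul_cancel, mul_one, one_mul, inv_one]; done) | simp only [mul_assoc, mul_inv_rev, inv_inv, mul_inv_cancel_left, inv_mul_cancel_left, mul_inv_cancel, inv_mul_cancel, mul_one, one_mul, inv_one, C]) (by first | (simp only [mul_assoc, mul_inv_rev, inv_inv, mul_inv_cancel_left, inv_mul_cancel_left, mul_inv_cancel, inv_mul_cancel, mul_one, one_mul, inv_one]; done) | simp only [mul_assoc, mul_inv_rev, inv_inv, mul_inv_cancel_left, inv_mul_cancel_left, mul_inv_cancel, inv_mul_cancel, mul_one, one_mul, inv_one, C]),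
    o.cv hδ (1) (by simp only [hδ, δinv hδ, δone hδ, D] <;> linear_combination (0) * h3) (by first | (simp only [mul_assoc, mul_inv_rev, inv_inv, mul_inv_cancel_left, inv_mul_cancel_left, mul_inv_cancel, inv_mul_cancel, mul_one, one_mul, inv_one]; done) | simp only [mul_assoc, mul_inv_rev, inv_inv, mul_inv_cancel_left, inv_mul_cancel_left, mul_inv_cancel, inv_mul_cancel, mul_one, one_mul, inv_one, C]) (by first | (simp only [mul_assoc, mul_inv_rev, inv_inv, mul_inv_cancel_left, inv_mul_cancel_left, mul_inv_cancel, inv_mul_cancel, mul_one, one_mul, inv_one]; done) | simp only [mul_assoc, mul_inv_rev, inv_inv, mul_inv_cancel_left, inv_mul_cancel_left, mul_inv_cancel, inv_mul_cancel, mul_one, one_mul, inv_one, C]),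
    o.cv hδ (1) (by simp only [hδ, δinv hδ, δone hδ, D] <;> linear_combination (0) * h3) (by first | (simp only [mul_assoc, mul_inv_rev, inv_inv, mul_inv_cancel_left, inv_mul_cancel_left, mul_inv_cancel, inv_mul_cancel, mul_one, one_mul, inv_one]; done) | simp only [mul_assoc, mul_inv_rev, inv_inv, mul_inv_cancel_left, inv_mul_cancel_left, mul_inv_cancel, inv_mul_cancel, mul_one, one_mul, inv_one, C]) (by first | (simp only [mul_assoc, mul_inv_rev, inv_inv, mul_inv_cancel_left, inv_mul_cancel_left, mul_inv_cancel, inv_mul_cancel, mul_one, one_mul, inv_one]; done) | simp only [mul_assoc, mul_inv_rev, inv_inv, mul_inv_cancel_left, inv_mul_cancel_left, mul_inv_cancel, inv_mul_cancel, mul_one, one_mul, inv_one, C]),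
    o.cv hδ (1) (by simp only [hδ, δinv hδ, δone hδ, D] <;> linear_combination (0) * h3) (by first | (simp only [mul_assoc, mul_inv_rev, inv_inv, mul_inv_cancel_left, inv_mul_cancel_left, mul_inv_cancel, inv_mul_cancel, mul_one, one_mul, inv_one]; done) | simp only [mul_assoc, mul_inv_rev, inv_inv, mul_inv_cancel_left, inv_mul_cancel_left, mul_inv_cancel, inv_mul_cancel, mul_one, one_mul, inv_one, C]) (by first | (simp only [mul_assoc, mul_inv_rev, inv_inv, mul_inv_cancel_left, inv_mul_cancel_left, mul_inv_cancel, inv_mul_cancel, mul_one, one_mul, inv_one]; done) | simp only [mul_assoc, mul_inv_rev, inv_inv, mul_inv_cancel_left, inv_mul_cancel_left, mul_inv_cancel, inv_mul_cancel, mul_one, one_mul, inv_one, C]),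
    o.cv hδ (Q * (f0⁻¹ * (Q * f0⁻¹))) (by simp only [hδ, δinv hδ, δone hδ, D] <;> linear_combination (0) * h3) (by first | (simp only [mul_assoc, mul_inv_rev, inv_inv, mul_inv_cancel_left, inv_mul_cancel_left, mul_inv_cancel, inv_mul_cancel, mul_one, one_mul, inv_one]; done) | simp only [mul_assoc, mul_inv_rev, inv_inv, mul_inv_cancel_left, inv_mul_cancel_left, mul_inv_cancel, inv_mul_cancel, mul_one, one_mul, inv_one, C]) (by first | (simp only [mul_assoc, mul_inv_rev, inv_inv, mul_inv_cancel_left, inv_mul_cancel_left, mul_inv_cancel, inv_mul_cancel, mul_one, one_mul, inv_one, C2]; done) | simp only [mul_assoc, mul_inv_rev, inv_inv, mul_inv_cancel_left, inv_mul_cancel_left, mul_inv_cancel, inv_mul_cancel, mul_one, one_mul, inv_one, C]),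
    o.cv hδ (Q * (f1⁻¹ * (Q * f1⁻¹))) (by simp only [hδ, δinv hδ, δone hδ, D] <;> linear_combination (0) * h3) (by first | (simp only [mul_assoc, mul_inv_rev, inv_inv, mul_inv_cancel_left, inv_mul_cancel_left, mul_inv_cancel, inv_mul_cancel, mul_one, one_mul, inv_one]; done) | simp only [mul_assoc, mul_inv_rev, inv_inv, mul_inv_cancel_left, inv_mul_cancel_left, mul_inv_cancel, inv_mul_cancel, mul_one, one_mul, inv_one, C]) (by first | (simp only [mul_assoc, mul_inv_rev, inv_inv, mul_inv_cancel_left, inv_mul_cancel_left, mul_inv_cancel, inv_mul_cancel, mul_one, one_mul, inv_one, C3]; done) | simp only [mul_assoc, mul_inv_rev, inv_inv, mul_inv_cancel_left, inv_mul_cancel_left, mul_inv_cancel, inv_mul_cancel, mul_one, one_mul, inv_one, C]),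
    o.cv hδ (1) (by simp only [hδ, δinv hδ, δone hδ, D] <;> linear_combination (0) * h3) (by first | (simp only [mul_assoc, mul_inv_rev, inv_inv, mul_inv_cancel_left, inv_mul_cancel_left, mul_inv_cancel, inv_mul_cancel, mul_one, one_mul, inv_one]; done) | simp only [mul_assoc, mul_inv_rev, inv_inv, mul_inv_cancel_left, inv_mul_cancel_left, mul_inv_cancel, inv_mul_cancel, mul_one, one_mul, inv_one, C]) (by first | (simp only [mul_assoc, mul_inv_rev, inv_inv, mul_inv_cancel_left, inv_mul_cancel_left, mul_inv_cancel, inv_mul_cancel, mul_one, one_mul, inv_one]; done) | simp only [mul_assoc, mul_inv_rev, inv_inv, mul_inv_cancel_left, inv_mul_cancel_left, mul_inv_cancel, inv_mul_cancel, mul_one, one_mul, inv_one, C]),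
    o.cv hδ (1) (by simp only [hδ, δinv hδ, δone hδ, D] <;> linear_combination (0) * h3) (by first | (simp only [mul_assoc, mul_inv_rev, inv_inv, mul_inv_cancel_left, inv_mul_cancel_left, mul_inv_cancel, inv_mul_cancel, mul_one, one_mul, inv_one]; done) | simp only [mul_assoc, mul_inv_rev, inv_inv, mul_inv_cancel_left, inv_mul_cancel_left, mul_inv_cancel, inv_mul_cancel, mul_one, one_mul, inv_one, C]) (by first | (simp only [mul_assoc, mul_inv_rev, inv_inv, mul_inv_cancel_left, inv_mul_cancel_left, mul_inv_cancel, inv_mul_cancel, mul_one, one_mul, inv_one]; done) | simp only [mul_assoc, mul_inv_rev, inv_inv, mul_inv_cancel_left, inv_mul_cancel_left, mul_inv_cancel, inv_mul_cancel, mul_one, one_mul, inv_one, C])⟩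

theorem close_AA_k2 {G : Type*} [Group G] {δ : G → ZMod 3} (hδ : ∀ u v, δ (u * v) = δ u + δ v) (o : Pre δ)
    {P Q f0 f1 : G} {e : ZMod 3} (h3 : 3 * e = 0)
    (D : δ P = e ∧ δ Q = -e ∧ δ f0 = 0 ∧ δ f1 = 0)
    (C : Cube P f0 ∧ Cube P f1 ∧ Cube Q f0 ∧ Cube Q f1) :
    (o.lt (f0 * P⁻¹) (f1 * P⁻¹) ↔ o.lt (f0) (f1)) := by
  have C' := C
  obtain ⟨C0, C1, C2, C3⟩ := C'
  simp only [Cube] at C C0 C1 C2 C3
  exact o.cv hδ (P) (by simp only [hδ, δinv hδ, δone hδ, D] <;> linear_combination (0) * h3) (by first | (simp only [mul_assoc, mul_inv_rev, inv_inv, mul_inv_cancel_left, inv_mul_cancel_left, mul_inv_cancel, inv_mul_cancel, mul_one, one_mul, inv_one]; done) | simp only [mul_assoc, mul_inv_rev, inv_inv, mul_inv_cancel_left, inv_mul_cancel_left, mul_inv_cancel, inv_mul_cancel, mul_one, one_mul, inv_one, C]) (by first | (simp only [mul_assoc, mul_inv_rev, inv_inv, mul_inv_cancel_left, inv_mul_cancel_left, mul_inv_cancel, inv_mul_cancel, mul_one, one_mul,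 inv_one]; done) | simp only [mul_assoc, mul_inv_rev, inv_inv, mul_inv_cancel_left, inv_mul_cancel_left, mul_inv_cancel, inv_mul_cancel, mul_one, one_mul, inv_one, C])

theorem close_AA {G : Type*} [Group G] {δ : G → ZMod 3} (hδ : ∀ u v, δ (u * v) = δ u + δ v) (o : Pre δ)
    {P Q f0 f1 : G} {e : ZMod 3} (h3 : 3 * e = 0)
    (D : δ P = e ∧ δ Q = -e ∧ δ f0 = 0 ∧ δ f1 = 0)
    (C : Cube P f0 ∧ Cube P f1 ∧ Cube Q f0 ∧ Cube Q f1)
    (N0 : RA o P Q f0 f1)
    (N1 : RA o P Q f1 f0)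
    (g0 : o.lt f0 f1) : False := by
  obtain ⟨k0, k1, k2, k3, k4, k5, k6, k7, k8, k9, k10, k11, k12, k13, k14, k15, k16, k17, k18, k19⟩ := close_AA_k0 hδ o h3 D C
  obtain ⟨k20, k21, k22, k23, k24, k25, k26, k27, k28, k29, k30, k31, k32, k33, k34, k35, k36, k37, k38, k39⟩ := close_AA_k1 hδ o h3 D C
  have k40 := close_AA_k2 hδ o h3 D C
  exact close_AA_prop
    (fun b0 b1 b2 => N0.rd.r1 1 (fun h => b0 (k0.2 h)) (fun h => b1 (k1.2 h)) (k2.1 b2))
    (fun b0 b1 b2 => N0.r.r0 1 (fun h => b0 (k3.2 h)) (k1.1 b1) (fun h => b2 (k4.2 h)))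
    (fun b0 b1 b2 => N0.d.r0 1 (fun h => b0 (k5.2 h)) (k6.1 b1) (fun h => b2 (k7.2 h)))
    (fun b0 b1 b2 => N0.i.r1 1 (fun h => b0 (k8.2 h)) (fun h => b1 (k6.2 h)) (k9.1 b2))
    (fun b0 b1 b2 => N1.r.r0 1 (fun h => b0 (k10.2 h)) (k11.1 b1) (fun h => b2 (k12.2 h)))
    (fun b0 b1 b2 => N1.r.r1 1 (fun h => b0 (k0.2 h)) (fun h => b1 (k13.2 h)) (k12.1 b2))
    (fun b0 b1 b2 => N1.d.r0 1 (fun h => b0 (k14.2 h)) (k15.1 b1) (fun h => b2 (k16.2 h)))
    (fun b0 b1 => o.asym (k17.1 b0) (k18.1 b1))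
    (fun b0 b1 b2 => o.tri (k17.1 b0) (fun h => b1 (k19.2 h)) (fun h => b2 (k20.2 h)))
    (fun b0 b1 => o.asym (k19.1 b0) (k21.1 b1))
    (fun b0 b1 => o.asym (k22.1 b0) (k23.1 b1))
    (fun b0 b1 b2 => o.tri (k22.1 b0) (fun h => b1 (k19.2 h)) (fun h => b2 (k24.2 h)))
    (fun b0 b1 b2 => o.tri (k18.1 b0) (fun h => b1 (k25.2 h)) (fun h => b2 (k23.2 h)))
    (fun b0 b1 => o.asym (k25.1 b0) (k26.1 b1))
    (fun b0 b1 b2 => o.tri (k24.1 b0) (fun h => b1 (k20.2 h)) (fun h => b2 (k25.2 h)))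
    (fun b0 b1 b2 => o.tri (k27.1 b0) (fun h => b1 (k28.2 h)) (fun h => b2 (k19.2 h)))
    (fun b0 b1 => o.asym (k29.1 b0) (k30.1 b1))
    (fun b0 b1 b2 => o.tri (k29.1 b0) (fun h => b1 (k31.2 h)) (fun h => b2 (k32.2 h)))
    (fun b0 b1 b2 => o.tri (k33.1 b0) (fun h => b1 (k30.2 h)) (fun h => b2 (k31.2 h)))
    (fun b0 b1 => o.asym (k34.1 b0) (k35.1 b1))
    (fun b0 b1 b2 => o.tri (k36.1 b0) (fun h => b1 (k34.2 h)) (fun h => b2 (k37.2 h)))
    (fun b0 b1 b2 => o.tri (k38.1 b0) (fun h => b1 (k35.2 h)) (fun h => b2 (k39.2 h)))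
    (fun b0 b1 b2 => o.tri (k35.1 b0) (fun h => b1 (k38.2 h)) (fun h => b2 (k31.2 h)))
    (k40.2 g0)

theorem close_AB_prop {A1 A2 A3 A4 A5 A6 A7 A8 A9 A10 A11 A12 A13 A14 A15 A16 A17 A18 A19 : Prop}
    (c0 : ¬ A15 → ¬ A18 → A2 → False)
    (c1 : ¬ A17 → A18 → ¬ A8 → False)
    (c2 : ¬ A19 → A14 → ¬ A2 → False)
    (c3 : ¬ A5 → A3 → ¬ A7 → False)
    (c4 : ¬ A1 → A9 → ¬ A12 → False)
    (c5 : ¬ A6 → ¬ A2 → A1 → ¬ A15 → False)
    (c6 : ¬ A17 → A16 → ¬ A3 → ¬ A15 → False)
    (c7 : ¬ A4 → ¬ A7 → A17 → ¬ A15 → False)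
    (c8 : A2 → A8 → False)
    (c9 : A3 → A9 → False)
    (c10 : A4 → A11 → False)
    (c11 : A5 → ¬ A6 → ¬ A9 → False)
    (c12 : A10 → ¬ A9 → ¬ A1 → False)
    (c13 : A12 → ¬ A11 → ¬ A1 → False)
    (c14 : A13 → A15 → False)
    (c15 : A13 → ¬ A4 → ¬ A16 → False)
    (c16 : A4 → ¬ A14 → ¬ A19 → False)
    (c17 : A14 → A18 → False)
    (c18 : A7 → ¬ A15 → ¬ A14 → False)
    (c19 : A17 → A19 → False)
    (c20 : A19 → ¬ A10 → ¬ A2 → False)
    (c21 : A6 → ¬ A2 → ¬ A17 → False)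
    (u0 : A13)
    : False := by
  have q1 : ¬ A15 := fun h => c14 u0 h
  rcases Classical.em A2 with q2 | q2
  · have q3 : A18 := Classical.byContradiction fun h => c0 q1 h q2
    have q4 : ¬ A8 := fun h => c8 q2 h
    have q5 : A17 := Classical.byContradiction fun h => c1 h q3 q4
    have q6 : ¬ A14 := fun h => c17 h q3
    have q7 : ¬ A7 := fun h => c18 h q1 q6
    have q8 : A4 := Classical.byContradiction fun h => c7 h q7 q5 q1
    have q9 : ¬ A11 := fun h => c10 q8 h
    have q10 : A19 := Classical.byContradiction fun h => c16 q8 q6 h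
    exact c19 q5 q10
  · rcases Classical.em A14 with q11 | q11
    · have q12 : A19 := Classical.byContradiction fun h => c2 h q11 q2
      have q13 : ¬ A18 := fun h => c17 q11 h
      have q14 : ¬ A17 := fun h => c19 h q12
      have q15 : A10 := Classical.byContradiction fun h => c20 q12 h q2
      have q16 : ¬ A6 := fun h => c21 h q2 q14
      have q17 : ¬ A1 := fun h => c5 q16 q2 h q1
      have q18 : A9 := Classical.byContradiction fun h => c12 q15 h q17
      have q19 : A12 := Classical.byContradiction fun h => c4 q17 q18 h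
      have q20 : ¬ A3 := fun h => c9 h q18
      have q21 : ¬ A16 := fun h => c6 q14 h q20 q1
      have q22 : A11 := Classical.byContradiction fun h => c13 q19 h q17
      have q23 : ¬ A4 := fun h => c10 h q22
      exact c15 u0 q23 q21
    · have q24 : ¬ A7 := fun h => c18 h q1 q11
      rcases Classical.em A4 with q25 | q25
      · have q26 : ¬ A11 := fun h => c10 q25 h
        have q27 : A19 := Classical.byContradiction fun h => c16 q25 q11 h
        have q28 : ¬ A17 := fun h => c19 h q27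
        have q29 : A10 := Classical.byContradiction fun h => c20 q27 h q2
        have q30 : ¬ A6 := fun h => c21 h q2 q28
        have q31 : ¬ A1 := fun h => c5 q30 q2 h q1
        have q32 : A9 := Classical.byContradiction fun h => c12 q29 h q31
        have q33 : A12 := Classical.byContradiction fun h => c4 q31 q32 h
        exact c13 q33 q26 q31
      · have q34 : ¬ A17 := fun h => c7 q25 q24 h q1
        have q35 : A16 := Classical.byContradiction fun h => c15 u0 q25 h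
        have q36 : A3 := Classical.byContradiction fun h => c6 q34 q35 h q1
        have q37 : A5 := Classical.byContradiction fun h => c3 h q36 q24
        have q38 : ¬ A9 := fun h => c9 q36 h
        have q39 : A6 := Classical.byContradiction fun h => c11 q37 h q38
        exact c21 q39 q2 q34

theorem close_AB_k0 {G : Type*} [Group G] {δ : G → ZMod 3} (hδ : ∀ u v, δ (u * v) = δ u + δ v) (o : Pre δ)
    {P Q f0 f1 : G} {e : ZMod 3} (h3 : 3 * e = 0)
    (D : δ P = e ∧ δ Q = -e ∧ δ f0 = 0 ∧ δ f1 = 0)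
    (C : Cube P f0 ∧ Cube P f1 ∧ Cube Q f0 ∧ Cube Q f1) :
    (o.lt (f1 * P⁻¹) (f0 * P⁻¹) ↔ o.lt (1 * (f1 * P⁻¹)) (1 * (f0 * P⁻¹))) ∧
    (o.lt (Q * f1⁻¹) (f0 * P⁻¹) ↔ o.lt (1 * (Q * f1⁻¹)) (1 * (f0 * P⁻¹))) ∧
    (o.lt (P * f0⁻¹) (f0 * Q⁻¹) ↔ o.lt (1 * (f0 * P⁻¹)⁻¹) (1 * (Q * f0⁻¹)⁻¹)) ∧
    (o.lt (Q * f0⁻¹) (Q * f1⁻¹) ↔ o.lt (1 * (Q * f0⁻¹)) (1 * (Q * f1⁻¹))) ∧
    (o.lt (f0 * Q⁻¹) (P * f0⁻¹) ↔ o.lt (1 * (Q * f0⁻¹)⁻¹) (1 * (f0 * P⁻¹)⁻¹)) ∧
    (o.lt (Q * f1⁻¹) (Q * f0⁻¹) ↔ o.lt (1 * (Q * f1⁻¹)) (1 * (Q * f0⁻¹))) ∧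
    (o.lt (f0 * P⁻¹) (Q * f1⁻¹) ↔ o.lt (1 * (f0 * P⁻¹)) (1 * (Q * f1⁻¹))) ∧
    (o.lt (P * f1⁻¹) (P * f0⁻¹) ↔ o.lt (1 * (P * f1⁻¹)) (1 * (P * f0⁻¹))) ∧
    (o.lt (P * f0⁻¹) (f1 * Q⁻¹) ↔ o.lt (1 * (P * f0⁻¹)) (1 * (f1 * Q⁻¹))) ∧
    (o.lt (f1 * P⁻¹) (Q * f1⁻¹) ↔ o.lt (1 * (P * f1⁻¹)⁻¹) (1 * (f1 * Q⁻¹)⁻¹)) ∧
    (o.lt (P * f0⁻¹) (P * f1⁻¹) ↔ o.lt (1 * (P * f0⁻¹)) (1 * (P * f1⁻¹))) ∧
    (o.lt (f1 * Q⁻¹) (P * f0⁻¹) ↔ o.lt (1 * (f1 * Q⁻¹)) (1 * (P * f0⁻¹))) ∧
    (o.lt (Q * f1⁻¹) (f1 * P⁻¹) ↔ o.lt (1 * (f1 * Q⁻¹)⁻¹) (1 * (P * f1⁻¹)⁻¹)) ∧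
    (o.lt (P * f1⁻¹) (f1 * Q⁻¹) ↔ o.lt (1 * (P * f1⁻¹)) (1 * (f1 * Q⁻¹))) ∧
    (o.lt (P * f0⁻¹) (f0 * Q⁻¹) ↔ o.lt (1 * (P * f0⁻¹)) (1 * (f0 * Q⁻¹))) ∧
    (o.lt (f1 * P⁻¹) (f0 * P⁻¹) ↔ o.lt (1 * f1) (1 * f0)) ∧
    (o.lt (Q * f0⁻¹) (f1 * P⁻¹) ↔ o.lt (1 * (Q * f0⁻¹)) (1 * (f1 * P⁻¹))) ∧
    (o.lt (P * f0⁻¹) (f1 * Q⁻¹) ↔ o.lt (1 * (f0 * P⁻¹)⁻¹) (1 * (Q * f1⁻¹)⁻¹)) ∧
    (o.lt (f0 * P⁻¹) (Q * f0⁻¹) ↔ o.lt (1 * (f0 * P⁻¹)) (1 * (Q * f0⁻¹))) ∧
    (o.lt (f1 * P⁻¹) (Q * f1⁻¹) ↔ o.lt (1 * (f1 * P⁻¹)) (1 * (Q * f1⁻¹))) := by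
  have C' := C
  obtain ⟨C0, C1, C2, C3⟩ := C'
  simp only [Cube] at C C0 C1 C2 C3
  exact ⟨o.cv hδ (1) (by simp only [hδ, δinv hδ, δone hδ, D] <;> linear_combination (0) * h3) (by first | (simp only [mul_assoc, mul_inv_rev, inv_inv, mul_inv_cancel_left, inv_mul_cancel_left, mul_inv_cancel, inv_mul_cancel, mul_one, one_mul, inv_one]; done) | simp only [mul_assoc, mul_inv_rev, inv_inv, mul_inv_cancel_left, inv_mul_cancel_left, mul_inv_cancel, inv_mul_cancel, mul_one, one_mul, inv_one, C]) (by first | (simp only [mul_assoc, mul_inv_rev, inv_inv, mul_inv_cancel_left, inv_mul_cancel_left, mul_inv_cancel, inv_mul_cancel, mul_one, one_mul, inv_one]; done) | simp only [mul_assoc, mul_inv_rev, inv_inv, mul_inv_cancel_left, inv_mul_cancel_left, mul_inv_cancel, inv_mul_cancel, mul_one, one_mul, inv_one, C]),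
    o.cv hδ (1) (by simp only [hδ, δinv hδ, δone hδ, D] <;> linear_combination (0) * h3) (by first | (simp only [mul_assoc, mul_inv_rev, inv_inv, mul_inv_cancel_left, inv_mul_cancel_left, mul_inv_cancel, inv_mul_cancel, mul_one, one_mul, inv_one]; done) | simp only [mul_assoc, mul_inv_rev, inv_inv, mul_inv_cancel_left, inv_mul_cancel_left, mul_inv_cancel, inv_mul_cancel, mul_one, one_mul, inv_one, C]) (by first | (simp only [mul_assoc, mul_inv_rev, inv_inv, mul_inv_cancel_left, inv_mul_cancel_left, mul_inv_cancel, inv_mul_cancel, mul_one, one_mul, inv_one]; done) | simp only [mul_assoc, mul_inv_rev, inv_inv, mul_inv_cancel_left, inv_mul_cancel_left, mul_inv_cancel, inv_mul_cancel, mul_one, one_mul, inv_one, C]),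
    o.cv hδ (1) (by simp only [hδ, δinv hδ, δone hδ, D] <;> linear_combination (0) * h3) (by first | (simp only [mul_assoc, mul_inv_rev, inv_inv, mul_inv_cancel_left, inv_mul_cancel_left, mul_inv_cancel, inv_mul_cancel, mul_one, one_mul, inv_one]; done) | simp only [mul_assoc, mul_inv_rev, inv_inv, mul_inv_cancel_left, inv_mul_cancel_left, mul_inv_cancel, inv_mul_cancel, mul_one, one_mul, inv_one, C]) (by first | (simp only [mul_assoc, mul_inv_rev, inv_inv, mul_inv_cancel_left, inv_mul_cancel_left, mul_inv_cancel, inv_mul_cancel, mul_one, one_mul, inv_one]; done) | simp only [mul_assoc, mul_inv_rev, inv_inv, mul_inv_cancel_left, inv_mul_cancel_left, mul_inv_cancel, inv_mul_cancel, mul_one, one_mul, inv_one, C]),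
    o.cv hδ (1) (by simp only [hδ, δinv hδ, δone hδ, D] <;> linear_combination (0) * h3) (by first | (simp only [mul_assoc, mul_inv_rev, inv_inv, mul_inv_cancel_left, inv_mul_cancel_left, mul_inv_cancel, inv_mul_cancel, mul_one, one_mul, inv_one]; done) | simp only [mul_assoc, mul_inv_rev, inv_inv, mul_inv_cancel_left, inv_mul_cancel_left, mul_inv_cancel, inv_mul_cancel, mul_one, one_mul, inv_one, C]) (by first | (simp only [mul_assoc, mul_inv_rev, inv_inv, mul_inv_cancel_left, inv_mul_cancel_left, mul_inv_cancel, inv_mul_cancel, mul_one, one_mul, inv_one]; done) | simp only [mul_assoc, mul_inv_rev, inv_inv, mul_inv_cancel_left, inv_mul_cancel_left, mul_inv_cancel, inv_mul_cancel, mul_one, one_mul, inv_one, C]),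
    o.cv hδ (1) (by simp only [hδ, δinv hδ, δone hδ, D] <;> linear_combination (0) * h3) (by first | (simp only [mul_assoc, mul_inv_rev, inv_inv, mul_inv_cancel_left, inv_mul_cancel_left, mul_inv_cancel, inv_mul_cancel, mul_one, one_mul, inv_one]; done) | simp only [mul_assoc, mul_inv_rev, inv_inv, mul_inv_cancel_left, inv_mul_cancel_left, mul_inv_cancel, inv_mul_cancel, mul_one, one_mul, inv_one, C]) (by first | (simp only [mul_assoc, mul_inv_rev, inv_inv, mul_inv_cancel_left, inv_mul_cancel_left, mul_inv_cancel, inv_mul_cancel, mul_one, one_mul, inv_one]; done) | simp only [mul_assoc, mul_inv_rev, inv_inv, mul_inv_cancel_left, inv_mul_cancel_left, mul_inv_cancel, inv_mul_cancel, mul_one, one_mul, inv_one, C]),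
    o.cv hδ (1) (by simp only [hδ, δinv hδ, δone hδ, D] <;> linear_combination (0) * h3) (by first | (simp only [mul_assoc, mul_inv_rev, inv_inv, mul_inv_cancel_left, inv_mul_cancel_left, mul_inv_cancel, inv_mul_cancel, mul_one, one_mul, inv_one]; done) | simp only [mul_assoc, mul_inv_rev, inv_inv, mul_inv_cancel_left, inv_mul_cancel_left, mul_inv_cancel, inv_mul_cancel, mul_one, one_mul, inv_one, C]) (by first | (simp only [mul_assoc, mul_inv_rev, inv_inv, mul_inv_cancel_left, inv_mul_cancel_left, mul_inv_cancel, inv_mul_cancel, mul_one, one_mul, inv_one]; done) | simp only [mul_assoc, mul_inv_rev, inv_inv, mul_inv_cancel_left, inv_mul_cancel_left, mul_inv_cancel, inv_mul_cancel, mul_one, one_mul, inv_one, C]),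
    o.cv hδ (1) (by simp only [hδ, δinv hδ, δone hδ, D] <;> linear_combination (0) * h3) (by first | (simp only [mul_assoc, mul_inv_rev, inv_inv, mul_inv_cancel_left, inv_mul_cancel_left, mul_inv_cancel, inv_mul_cancel, mul_one, one_mul, inv_one]; done) | simp only [mul_assoc, mul_inv_rev, inv_inv, mul_inv_cancel_left, inv_mul_cancel_left, mul_inv_cancel, inv_mul_cancel, mul_one, one_mul, inv_one, C]) (by first | (simp only [mul_assoc, mul_inv_rev, inv_inv, mul_inv_cancel_left, inv_mul_cancel_left, mul_inv_cancel, inv_mul_cancel, mul_one, one_mul, inv_one]; done) | simp only [mul_assoc, mul_inv_rev, inv_inv, mul_inv_cancel_left, inv_mul_cancel_left, mul_inv_cancel, inv_mul_cancel, mul_one, one_mul, inv_one, C]),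
    o.cv hδ (1) (by simp only [hδ, δinv hδ, δone hδ, D] <;> linear_combination (0) * h3) (by first | (simp only [mul_assoc, mul_inv_rev, inv_inv, mul_inv_cancel_left, inv_mul_cancel_left, mul_inv_cancel, inv_mul_cancel, mul_one, one_mul, inv_one]; done) | simp only [mul_assoc, mul_inv_rev, inv_inv, mul_inv_cancel_left, inv_mul_cancel_left, mul_inv_cancel, inv_mul_cancel, mul_one, one_mul, inv_one, C]) (by first | (simp only [mul_assoc, mul_inv_rev, inv_inv, mul_inv_cancel_left, inv_mul_cancel_left, mul_inv_cancel, inv_mul_cancel, mul_one, one_mul, inv_one]; done) | simp only [mul_assoc, mul_inv_rev, inv_inv, mul_inv_cancel_left, inv_mul_cancel_left, mul_inv_cancel, inv_mul_cancel, mul_one, one_mul, inv_one, C]),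
    o.cv hδ (1) (by simp only [hδ, δinv hδ, δone hδ, D] <;> linear_combination (0) * h3) (by first | (simp only [mul_assoc, mul_inv_rev, inv_inv, mul_inv_cancel_left, inv_mul_cancel_left, mul_inv_cancel, inv_mul_cancel, mul_one, one_mul, inv_one]; done) | simp only [mul_assoc, mul_inv_rev, inv_inv, mul_inv_cancel_left, inv_mul_cancel_left, mul_inv_cancel, inv_mul_cancel, mul_one, one_mul, inv_one, C]) (by first | (simp only [mul_assoc, mul_inv_rev, inv_inv, mul_inv_cancel_left, inv_mul_cancel_left, mul_inv_cancel, inv_mul_cancel, mul_one, one_mul, inv_one]; done) | simp only [mul_assoc, mul_inv_rev, inv_inv, mul_inv_cancel_left, inv_mul_cancel_left, mul_inv_cancel, inv_mul_cancel, mul_one, one_mul, inv_one, C]),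
    o.cv hδ (1) (by simp only [hδ, δinv hδ, δone hδ, D] <;> linear_combination (0) * h3) (by first | (simp only [mul_assoc, mul_inv_rev, inv_inv, mul_inv_cancel_left, inv_mul_cancel_left, mul_inv_cancel, inv_mul_cancel, mul_one, one_mul, inv_one]; done) | simp only [mul_assoc, mul_inv_rev, inv_inv, mul_inv_cancel_left, inv_mul_cancel_left, mul_inv_cancel, inv_mul_cancel, mul_one, one_mul, inv_one, C]) (by first | (simp only [mul_assoc, mul_inv_rev, inv_inv, mul_inv_cancel_left, inv_mul_cancel_left, mul_inv_cancel, inv_mul_cancel, mul_one, one_mul, inv_one]; done) | simp only [mul_assoc, mul_inv_rev, inv_inv, mul_inv_cancel_left, inv_mul_cancel_left, mul_inv_cancel, inv_mul_cancel, mul_one, one_mul, inv_one, C]),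
    o.cv hδ (1) (by simp only [hδ, δinv hδ, δone hδ, D] <;> linear_combination (0) * h3) (by first | (simp only [mul_assoc, mul_inv_rev, inv_inv, mul_inv_cancel_left, inv_mul_cancel_left, mul_inv_cancel, inv_mul_cancel, mul_one, one_mul, inv_one]; done) | simp only [mul_assoc, mul_inv_rev, inv_inv, mul_inv_cancel_left, inv_mul_cancel_left, mul_inv_cancel, inv_mul_cancel, mul_one, one_mul, inv_one, C]) (by first | (simp only [mul_assoc, mul_inv_rev, inv_inv, mul_inv_cancel_left, inv_mul_cancel_left, mul_inv_cancel, inv_mul_cancel, mul_one, one_mul, inv_one]; done) | simp only [mul_assoc, mul_inv_rev, inv_inv, mul_inv_cancel_left, inv_mul_cancel_left, mul_inv_cancel, inv_mul_cancel, mul_one, one_mul, inv_one, C]),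
    o.cv hδ (1) (by simp only [hδ, δinv hδ, δone hδ, D] <;> linear_combination (0) * h3) (by first | (simp only [mul_assoc, mul_inv_rev, inv_inv, mul_inv_cancel_left, inv_mul_cancel_left, mul_inv_cancel, inv_mul_cancel, mul_one, one_mul, inv_one]; done) | simp only [mul_assoc, mul_inv_rev, inv_inv, mul_inv_cancel_left, inv_mul_cancel_left, mul_inv_cancel, inv_mul_cancel, mul_one, one_mul, inv_one, C]) (by first | (simp only [mul_assoc, mul_inv_rev, inv_inv, mul_inv_cancel_left, inv_mul_cancel_left, mul_inv_cancel, inv_mul_cancel, mul_one, one_mul, inv_one]; done) | simp only [mul_assoc, mul_inv_rev, inv_inv, mul_inv_cancel_left, inv_mul_cancel_left, mul_inv_cancel, inv_mul_cancel, mul_one, one_mul, inv_one, C]),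
    o.cv hδ (1) (by simp only [hδ, δinv hδ, δone hδ, D] <;> linear_combination (0) * h3) (by first | (simp only [mul_assoc, mul_inv_rev, inv_inv, mul_inv_cancel_left, inv_mul_cancel_left, mul_inv_cancel, inv_mul_cancel, mul_one, one_mul, inv_one]; done) | simp only [mul_assoc, mul_inv_rev, inv_inv, mul_inv_cancel_left, inv_mul_cancel_left, mul_inv_cancel, inv_mul_cancel, mul_one, one_mul, inv_one, C]) (by first | (simp only [mul_assoc, mul_inv_rev, inv_inv, mul_inv_cancel_left, inv_mul_cancel_left, mul_inv_cancel, inv_mul_cancel, mul_one, one_mul, inv_one]; done) | simp only [mul_assoc, mul_inv_rev, inv_inv, mul_inv_cancel_left, inv_mul_cancel_left, mul_inv_cancel, inv_mul_cancel, mul_one, one_mul, inv_one, C]),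
    o.cv hδ (1) (by simp only [hδ, δinv hδ, δone hδ, D] <;> linear_combination (0) * h3) (by first | (simp only [mul_assoc, mul_inv_rev, inv_inv, mul_inv_cancel_left, inv_mul_cancel_left, mul_inv_cancel, inv_mul_cancel, mul_one, one_mul, inv_one]; done) | simp only [mul_assoc, mul_inv_rev, inv_inv, mul_inv_cancel_left, inv_mul_cancel_left, mul_inv_cancel, inv_mul_cancel, mul_one, one_mul, inv_one, C]) (by first | (simp only [mul_assoc, mul_inv_rev, inv_inv, mul_inv_cancel_left, inv_mul_cancel_left, mul_inv_cancel, inv_mul_cancel, mul_one, one_mul, inv_one]; done) | simp only [mul_assoc, mul_inv_rev, inv_inv, mul_inv_cancel_left, inv_mul_cancel_left, mul_inv_cancel, inv_mul_cancel, mul_one, one_mul, inv_one, C]),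
    o.cv hδ (1) (by simp only [hδ, δinv hδ, δone hδ, D] <;> linear_combination (0) * h3) (by first | (simp only [mul_assoc, mul_inv_rev, inv_inv, mul_inv_cancel_left, inv_mul_cancel_left, mul_inv_cancel, inv_mul_cancel, mul_one, one_mul, inv_one]; done) | simp only [mul_assoc, mul_inv_rev, inv_inv, mul_inv_cancel_left, inv_mul_cancel_left, mul_inv_cancel, inv_mul_cancel, mul_one, one_mul, inv_one, C]) (by first | (simp only [mul_assoc, mul_inv_rev, inv_inv, mul_inv_cancel_left, inv_mul_cancel_left, mul_inv_cancel, inv_mul_cancel, mul_one, one_mul, inv_one]; done) | simp only [mul_assoc, mul_inv_rev, inv_inv, mul_inv_cancel_left, inv_mul_cancel_left, mul_inv_cancel, inv_mul_cancel, mul_one, one_mul, inv_one, C]),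
    o.cv hδ (P) (by simp only [hδ, δinv hδ, δone hδ, D] <;> linear_combination (0) * h3) (by first | (simp only [mul_assoc, mul_inv_rev, inv_inv, mul_inv_cancel_left, inv_mul_cancel_left, mul_inv_cancel, inv_mul_cancel, mul_one, one_mul, inv_one]; done) | simp only [mul_assoc, mul_inv_rev, inv_inv, mul_inv_cancel_left, inv_mul_cancel_left, mul_inv_cancel, inv_mul_cancel, mul_one, one_mul, inv_one, C]) (by first | (simp only [mul_assoc, mul_inv_rev, inv_inv, mul_inv_cancel_left, inv_mul_cancel_left, mul_inv_cancel, inv_mul_cancel, mul_one, one_mul, inv_one]; done) | simp only [mul_assoc, mul_inv_rev, inv_inv, mul_inv_cancel_left, inv_mul_cancel_left, mul_inv_cancel, inv_mul_cancel, mul_one, one_mul, inv_one, C]),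
    o.cv hδ (1) (by simp only [hδ, δinv hδ, δone hδ, D] <;> linear_combination (0) * h3) (by first | (simp only [mul_assoc, mul_inv_rev, inv_inv, mul_inv_cancel_left, inv_mul_cancel_left, mul_inv_cancel, inv_mul_cancel, mul_one, one_mul, inv_one]; done) | simp only [mul_assoc, mul_inv_rev, inv_inv, mul_inv_cancel_left, inv_mul_cancel_left, mul_inv_cancel, inv_mul_cancel, mul_one, one_mul, inv_one, C]) (by first | (simp only [mul_assoc, mul_inv_rev, inv_inv, mul_inv_cancel_left, inv_mul_cancel_left, mul_inv_cancel, inv_mul_cancel, mul_one, one_mul, inv_one]; done) | simp only [mul_assoc, mul_inv_rev, inv_inv, mul_inv_cancel_left, inv_mul_cancel_left, mul_inv_cancel, inv_mul_cancel, mul_one, one_mul, inv_one, C]),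
    o.cv hδ (1) (by simp only [hδ, δinv hδ, δone hδ, D] <;> linear_combination (0) * h3) (by first | (simp only [mul_assoc, mul_inv_rev, inv_inv, mul_inv_cancel_left, inv_mul_cancel_left, mul_inv_cancel, inv_mul_cancel, mul_one, one_mul, inv_one]; done) | simp only [mul_assoc, mul_inv_rev, inv_inv, mul_inv_cancel_left, inv_mul_cancel_left, mul_inv_cancel, inv_mul_cancel, mul_one, one_mul, inv_one, C]) (by first | (simp only [mul_assoc, mul_inv_rev, inv_inv, mul_inv_cancel_left, inv_mul_cancel_left, mul_inv_cancel, inv_mul_cancel, mul_one, one_mul, inv_one]; done) | simp only [mul_assoc, mul_inv_rev, inv_inv, mul_inv_cancel_left, inv_mul_cancel_left, mul_inv_cancel, inv_mul_cancel, mul_one, one_mul, inv_one, C]),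
    o.cv hδ (1) (by simp only [hδ, δinv hδ, δone hδ, D] <;> linear_combination (0) * h3) (by first | (simp only [mul_assoc, mul_inv_rev, inv_inv, mul_inv_cancel_left, inv_mul_cancel_left, mul_inv_cancel, inv_mul_cancel, mul_one, one_mul, inv_one]; done) | simp only [mul_assoc, mul_inv_rev, inv_inv, mul_inv_cancel_left, inv_mul_cancel_left, mul_inv_cancel, inv_mul_cancel, mul_one, one_mul, inv_one, C]) (by first | (simp only [mul_assoc, mul_inv_rev, inv_inv, mul_inv_cancel_left, inv_mul_cancel_left, mul_inv_cancel, inv_mul_cancel, mul_one, one_mul, inv_one]; done) | simp only [mul_assoc, mul_inv_rev, inv_inv, mul_inv_cancel_left, inv_mul_cancel_left, mul_inv_cancel, inv_mul_cancel, mul_one, one_mul, inv_one, C]),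
    o.cv hδ (1) (by simp only [hδ, δinv hδ, δone hδ, D] <;> linear_combination (0) * h3) (by first | (simp only [mul_assoc, mul_inv_rev, inv_inv, mul_inv_cancel_left, inv_mul_cancel_left, mul_inv_cancel, inv_mul_cancel, mul_one, one_mul, inv_one]; done) | simp only [mul_assoc, mul_inv_rev, inv_inv, mul_inv_cancel_left, inv_mul_cancel_left, mul_inv_cancel, inv_mul_cancel, mul_one, one_mul, inv_one, C]) (by first | (simp only [mul_assoc, mul_inv_rev, inv_inv, mul_inv_cancel_left, inv_mul_cancel_left, mul_inv_cancel, inv_mul_cancel, mul_one, one_mul, inv_one]; done) | simp only [mul_assoc, mul_inv_rev, inv_inv, mul_inv_cancel_left, inv_mul_cancel_left, mul_inv_cancel, inv_mul_cancel, mul_one, one_mul, inv_one, C])⟩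

theorem close_AB_k1 {G : Type*} [Group G] {δ : G → ZMod 3} (hδ : ∀ u v, δ (u * v) = δ u + δ v) (o : Pre δ)
    {P Q f0 f1 : G} {e : ZMod 3} (h3 : 3 * e = 0)
    (D : δ P = e ∧ δ Q = -e ∧ δ f0 = 0 ∧ δ f1 = 0)
    (C : Cube P f0 ∧ Cube P f1 ∧ Cube Q f0 ∧ Cube Q f1) :
    (o.lt (P * f0⁻¹) (f0 * Q⁻¹) ↔ o.lt (P * f0⁻¹) (f0 * Q⁻¹)) ∧
    (o.lt (f0 * Q⁻¹) (P * f0⁻¹) ↔ o.lt (f0 * Q⁻¹) (P * f0⁻¹)) ∧
    (o.lt (P * f0⁻¹) (f1 * Q⁻¹) ↔ o.lt (P * f0⁻¹) (f1 * Q⁻¹)) ∧
    (o.lt (f1 * Q⁻¹) (P * f0⁻¹) ↔ o.lt (f1 * Q⁻¹) (P * f0⁻¹)) ∧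
    (o.lt (f0 * P⁻¹) (Q * f0⁻¹) ↔ o.lt (P * f0⁻¹) (Q * P⁻¹)) ∧
    (o.lt (Q * P⁻¹) (P * f0⁻¹) ↔ o.lt (Q * P⁻¹) (P * f0⁻¹)) ∧
    (o.lt (P * f1⁻¹) (P * f0⁻¹) ↔ o.lt (P * f1⁻¹) (P * f0⁻¹)) ∧
    (o.lt (P * f1⁻¹) (f1 * Q⁻¹) ↔ o.lt (P * f1⁻¹) (f1 * Q⁻¹)) ∧
    (o.lt (f1 * Q⁻¹) (P * f1⁻¹) ↔ o.lt (f1 * Q⁻¹) (P * f1⁻¹)) ∧
    (o.lt (P * f0⁻¹) (P * f1⁻¹) ↔ o.lt (P * f0⁻¹) (P * f1⁻¹)) ∧
    (o.lt (Q * f1⁻¹) (f1 * P⁻¹) ↔ o.lt (Q * P⁻¹) (P * f1⁻¹)) ∧
    (o.lt (f0 * P⁻¹) (f1 * P⁻¹) ↔ o.lt (f0 * P⁻¹) (f1 * P⁻¹)) ∧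
    (o.lt (f1 * P⁻¹) (f0 * P⁻¹) ↔ o.lt (f1 * P⁻¹) (f0 * P⁻¹)) ∧
    (o.lt (f0 * P⁻¹) (Q * f0⁻¹) ↔ o.lt (f0 * P⁻¹) (Q * f0⁻¹)) ∧
    (o.lt (Q * f0⁻¹) (f1 * P⁻¹) ↔ o.lt (Q * f0⁻¹) (f1 * P⁻¹)) ∧
    (o.lt (f0 * P⁻¹) (Q * f1⁻¹) ↔ o.lt (f0 * P⁻¹) (Q * f1⁻¹)) ∧
    (o.lt (Q * f1⁻¹) (Q * f0⁻¹) ↔ o.lt (Q * f1⁻¹) (Q * f0⁻¹)) ∧
    (o.lt (Q * f1⁻¹) (f0 * P⁻¹) ↔ o.lt (Q * f1⁻¹) (f0 * P⁻¹)) ∧
    (o.lt (f1 * P⁻¹) (Q * f1⁻¹) ↔ o.lt (f1 * P⁻¹) (Q * f1⁻¹)) ∧
    (o.lt (Q * f0⁻¹) (Q * f1⁻¹) ↔ o.lt (Q * f0⁻¹) (Q * f1⁻¹)) := by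
  have C' := C
  obtain ⟨C0, C1, C2, C3⟩ := C'
  simp only [Cube] at C C0 C1 C2 C3
  exact ⟨o.cv hδ (1) (by simp only [hδ, δinv hδ, δone hδ, D] <;> linear_combination (0) * h3) (by first | (simp only [mul_assoc, mul_inv_rev, inv_inv, mul_inv_cancel_left, inv_mul_cancel_left, mul_inv_cancel, inv_mul_cancel, mul_one, one_mul, inv_one]; done) | simp only [mul_assoc, mul_inv_rev, inv_inv, mul_inv_cancel_left, inv_mul_cancel_left, mul_inv_cancel, inv_mul_cancel, mul_one, one_mul, inv_one, C]) (by first | (simp only [mul_assoc, mul_inv_rev, inv_inv, mul_inv_cancel_left, inv_mul_cancel_left, mul_inv_cancel, inv_mul_cancel, mul_one, one_mul, inv_one]; done) | simp only [mul_assoc, mul_inv_rev, inv_inv, mul_inv_cancel_left, inv_mul_cancel_left, mul_inv_cancel, inv_mul_cancel, mul_one, one_mul, inv_one, C]),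
    o.cv hδ (1) (by simp only [hδ, δinv hδ, δone hδ, D] <;> linear_combination (0) * h3) (by first | (simp only [mul_assoc, mul_inv_rev, inv_inv, mul_inv_cancel_left, inv_mul_cancel_left, mul_inv_cancel, inv_mul_cancel, mul_one, one_mul, inv_one]; done) | simp only [mul_assoc, mul_inv_rev, inv_inv, mul_inv_cancel_left, inv_mul_cancel_left, mul_inv_cancel, inv_mul_cancel, mul_one, one_mul, inv_one, C]) (by first | (simp only [mul_assoc, mul_inv_rev, inv_inv, mul_inv_cancel_left, inv_mul_cancel_left, mul_inv_cancel, inv_mul_cancel, mul_one, one_mul, inv_one]; done) | simp only [mul_assoc, mul_inv_rev, inv_inv, mul_inv_cancel_left, inv_mul_cancel_left, mul_inv_cancel, inv_mul_cancel, mul_one, one_mul, inv_one, C]),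
    o.cv hδ (1) (by simp only [hδ, δinv hδ, δone hδ, D] <;> linear_combination (0) * h3) (by first | (simp only [mul_assoc, mul_inv_rev, inv_inv, mul_inv_cancel_left, inv_mul_cancel_left, mul_inv_cancel, inv_mul_cancel, mul_one, one_mul, inv_one]; done) | simp only [mul_assoc, mul_inv_rev, inv_inv, mul_inv_cancel_left, inv_mul_cancel_left, mul_inv_cancel, inv_mul_cancel, mul_one, one_mul, inv_one, C]) (by first | (simp only [mul_assoc, mul_inv_rev, inv_inv, mul_inv_cancel_left, inv_mul_cancel_left, mul_inv_cancel, inv_mul_cancel, mul_one, one_mul, inv_one]; done) | simp only [mul_assoc, mul_inv_rev, inv_inv, mul_inv_cancel_left, inv_mul_cancel_left, mul_inv_cancel, inv_mul_cancel, mul_one, one_mul, inv_one, C]),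
    o.cv hδ (1) (by simp only [hδ, δinv hδ, δone hδ, D] <;> linear_combination (0) * h3) (by first | (simp only [mul_assoc, mul_inv_rev, inv_inv, mul_inv_cancel_left, inv_mul_cancel_left, mul_inv_cancel, inv_mul_cancel, mul_one, one_mul, inv_one]; done) | simp only [mul_assoc, mul_inv_rev, inv_inv, mul_inv_cancel_left, inv_mul_cancel_left, mul_inv_cancel, inv_mul_cancel, mul_one, one_mul, inv_one, C]) (by first | (simp only [mul_assoc, mul_inv_rev, inv_inv, mul_inv_cancel_left, inv_mul_cancel_left, mul_inv_cancel, inv_mul_cancel, mul_one, one_mul, inv_one]; done) | simp only [mul_assoc, mul_inv_rev, inv_inv, mul_inv_cancel_left, inv_mul_cancel_left, mul_inv_cancel, inv_mul_cancel, mul_one, one_mul, inv_one, C]),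
    o.cv hδ (P * (f0⁻¹ * (P * f0⁻¹))) (by simp only [hδ, δinv hδ, δone hδ, D] <;> linear_combination (0) * h3) (by first | (simp only [mul_assoc, mul_inv_rev, inv_inv, mul_inv_cancel_left, inv_mul_cancel_left, mul_inv_cancel, inv_mul_cancel, mul_one, one_mul, inv_one]; done) | simp only [mul_assoc, mul_inv_rev, inv_inv, mul_inv_cancel_left, inv_mul_cancel_left, mul_inv_cancel, inv_mul_cancel, mul_one, one_mul, inv_one, C]) (by first | (simp only [mul_assoc, mul_inv_rev, inv_inv, mul_inv_cancel_left, inv_mul_cancel_left, mul_inv_cancel, inv_mul_cancel, mul_one, one_mul, inv_one, C0]; done) | simp only [mul_assoc, mul_inv_rev, inv_inv, mul_inv_cancel_left, inv_mul_cancel_left, mul_inv_cancel, inv_mul_cancel, mul_one, one_mul, inv_one, C]),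
    o.cv hδ (1) (by simp only [hδ, δinv hδ, δone hδ, D] <;> linear_combination (-1) * h3) (by first | (simp only [mul_assoc, mul_inv_rev, inv_inv, mul_inv_cancel_left, inv_mul_cancel_left, mul_inv_cancel, inv_mul_cancel, mul_one, one_mul, inv_one]; done) | simp only [mul_assoc, mul_inv_rev, inv_inv, mul_inv_cancel_left, inv_mul_cancel_left, mul_inv_cancel, inv_mul_cancel, mul_one, one_mul, inv_one, C]) (by first | (simp only [mul_assoc, mul_inv_rev, inv_inv, mul_inv_cancel_left, inv_mul_cancel_left, mul_inv_cancel, inv_mul_cancel, mul_one, one_mul, inv_one]; done) | simp only [mul_assoc, mul_inv_rev, inv_inv, mul_inv_cancel_left, inv_mul_cancel_left, mul_inv_cancel, inv_mul_cancel, mul_one, one_mul, inv_one, C]),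
    o.cv hδ (1) (by simp only [hδ, δinv hδ, δone hδ, D] <;> linear_combination (0) * h3) (by first | (simp only [mul_assoc, mul_inv_rev, inv_inv, mul_inv_cancel_left, inv_mul_cancel_left, mul_inv_cancel, inv_mul_cancel, mul_one, one_mul, inv_one]; done) | simp only [mul_assoc, mul_inv_rev, inv_inv, mul_inv_cancel_left, inv_mul_cancel_left, mul_inv_cancel, inv_mul_cancel, mul_one, one_mul, inv_one, C]) (by first | (simp only [mul_assoc, mul_inv_rev, inv_inv, mul_inv_cancel_left, inv_mul_cancel_left, mul_inv_cancel, inv_mul_cancel, mul_one, one_mul, inv_one]; done) | simp only [mul_assoc, mul_inv_rev, inv_inv, mul_inv_cancel_left, inv_mul_cancel_left, mul_inv_cancel, inv_mul_cancel, mul_one, one_mul, inv_one, C]),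
    o.cv hδ (1) (by simp only [hδ, δinv hδ, δone hδ, D] <;> linear_combination (0) * h3) (by first | (simp only [mul_assoc, mul_inv_rev, inv_inv, mul_inv_cancel_left, inv_mul_cancel_left, mul_inv_cancel, inv_mul_cancel, mul_one, one_mul, inv_one]; done) | simp only [mul_assoc, mul_inv_rev, inv_inv, mul_inv_cancel_left, inv_mul_cancel_left, mul_inv_cancel, inv_mul_cancel, mul_one, one_mul, inv_one, C]) (by first | (simp only [mul_assoc, mul_inv_rev, inv_inv, mul_inv_cancel_left, inv_mul_cancel_left, mul_inv_cancel, inv_mul_cancel, mul_one, one_mul, inv_one]; done) | simp only [mul_assoc, mul_inv_rev, inv_inv, mul_inv_cancel_left, inv_mul_cancel_left, mul_inv_cancel, inv_mul_cancel, mul_one, one_mul, inv_one, C]),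
    o.cv hδ (1) (by simp only [hδ, δinv hδ, δone hδ, D] <;> linear_combination (0) * h3) (by first | (simp only [mul_assoc, mul_inv_rev, inv_inv, mul_inv_cancel_left, inv_mul_cancel_left, mul_inv_cancel, inv_mul_cancel, mul_one, one_mul, inv_one]; done) | simp only [mul_assoc, mul_inv_rev, inv_inv, mul_inv_cancel_left, inv_mul_cancel_left, mul_inv_cancel, inv_mul_cancel, mul_one, one_mul, inv_one, C]) (by first | (simp only [mul_assoc, mul_inv_rev, inv_inv, mul_inv_cancel_left, inv_mul_cancel_left, mul_inv_cancel, inv_mul_cancel, mul_one, one_mul, inv_one]; done) | simp only [mul_assoc, mul_inv_rev, inv_inv, mul_inv_cancel_left, inv_mul_cancel_left, mul_inv_cancel, inv_mul_cancel, mul_one, one_mul, inv_one, C]),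
    o.cv hδ (1) (by simp only [hδ, δinv hδ, δone hδ, D] <;> linear_combination (0) * h3) (by first | (simp only [mul_assoc, mul_inv_rev, inv_inv, mul_inv_cancel_left, inv_mul_cancel_left, mul_inv_cancel, inv_mul_cancel, mul_one, one_mul, inv_one]; done) | simp only [mul_assoc, mul_inv_rev, inv_inv, mul_inv_cancel_left, inv_mul_cancel_left, mul_inv_cancel, inv_mul_cancel, mul_one, one_mul, inv_one, C]) (by first | (simp only [mul_assoc, mul_inv_rev, inv_inv, mul_inv_cancel_left, inv_mul_cancel_left, mul_inv_cancel, inv_mul_cancel, mul_one, one_mul, inv_one]; done) | simp only [mul_assoc, mul_inv_rev, inv_inv, mul_inv_cancel_left, inv_mul_cancel_left, mul_inv_cancel, inv_mul_cancel, mul_one, one_mul, inv_one, C]),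
    o.cv hδ (f1 * P⁻¹) (by simp only [hδ, δinv hδ, δone hδ, D] <;> linear_combination (0) * h3) (by first | (simp only [mul_assoc, mul_inv_rev, inv_inv, mul_inv_cancel_left, inv_mul_cancel_left, mul_inv_cancel, inv_mul_cancel, mul_one, one_mul, inv_one]; done) | simp only [mul_assoc, mul_inv_rev, inv_inv, mul_inv_cancel_left, inv_mul_cancel_left, mul_inv_cancel, inv_mul_cancel, mul_one, one_mul, inv_one, C]) (by first | (simp only [mul_assoc, mul_inv_rev, inv_inv, mul_inv_cancel_left, inv_mul_cancel_left, mul_inv_cancel, inv_mul_cancel, mul_one, one_mul, inv_one, C1]; done) | simp only [mul_assoc, mul_inv_rev, inv_inv, mul_inv_cancel_left, inv_mul_cancel_left, mul_inv_cancel, inv_mul_cancel, mul_one, one_mul, inv_one, C]),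
    o.cv hδ (1) (by simp only [hδ, δinv hδ, δone hδ, D] <;> linear_combination (0) * h3) (by first | (simp only [mul_assoc, mul_inv_rev, inv_inv, mul_inv_cancel_left, inv_mul_cancel_left, mul_inv_cancel, inv_mul_cancel, mul_one, one_mul, inv_one]; done) | simp only [mul_assoc, mul_inv_rev, inv_inv, mul_inv_cancel_left, inv_mul_cancel_left, mul_inv_cancel, inv_mul_cancel, mul_one, one_mul, inv_one, C]) (by first | (simp only [mul_assoc, mul_inv_rev, inv_inv, mul_inv_cancel_left, inv_mul_cancel_left, mul_inv_cancel, inv_mul_cancel, mul_one, one_mul, inv_one]; done) | simp only [mul_assoc, mul_inv_rev, inv_inv, mul_inv_cancel_left, inv_mul_cancel_left, mul_inv_cancel, inv_mul_cancel, mul_one, one_mul, inv_one, C]),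
    o.cv hδ (1) (by simp only [hδ, δinv hδ, δone hδ, D] <;> linear_combination (0) * h3) (by first | (simp only [mul_assoc, mul_inv_rev, inv_inv, mul_inv_cancel_left, inv_mul_cancel_left, mul_inv_cancel, inv_mul_cancel, mul_one, one_mul, inv_one]; done) | simp only [mul_assoc, mul_inv_rev, inv_inv, mul_inv_cancel_left, inv_mul_cancel_left, mul_inv_cancel, inv_mul_cancel, mul_one, one_mul, inv_one, C]) (by first | (simp only [mul_assoc, mul_inv_rev, inv_inv, mul_inv_cancel_left, inv_mul_cancel_left, mul_inv_cancel, inv_mul_cancel, mul_one, one_mul, inv_one]; done) | simp only [mul_assoc, mul_inv_rev, inv_inv, mul_inv_cancel_left, inv_mul_cancel_left, mul_inv_cancel, inv_mul_cancel, mul_one, one_mul, inv_one, C]),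
    o.cv hδ (1) (by simp only [hδ, δinv hδ, δone hδ, D] <;> linear_combination (0) * h3) (by first | (simp only [mul_assoc, mul_inv_rev, inv_inv, mul_inv_cancel_left, inv_mul_cancel_left, mul_inv_cancel, inv_mul_cancel, mul_one, one_mul, inv_one]; done) | simp only [mul_assoc, mul_inv_rev, inv_inv, mul_inv_cancel_left, inv_mul_cancel_left, mul_inv_cancel, inv_mul_cancel, mul_one, one_mul, inv_one, C]) (by first | (simp only [mul_assoc, mul_inv_rev, inv_inv, mul_inv_cancel_left, inv_mul_cancel_left, mul_inv_cancel, inv_mul_cancel, mul_one, one_mul, inv_one]; done) | simp only [mul_assoc, mul_inv_rev, inv_inv, mul_inv_cancel_left, inv_mul_cancel_left, mul_inv_cancel, inv_mul_cancel, mul_one, one_mul, inv_one, C]),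
    o.cv hδ (1) (by simp only [hδ, δinv hδ, δone hδ, D] <;> linear_combination (0) * h3) (by first | (simp only [mul_assoc, mul_inv_rev, inv_inv, mul_inv_cancel_left, inv_mul_cancel_left, mul_inv_cancel, inv_mul_cancel, mul_one, one_mul, inv_one]; done) | simp only [mul_assoc, mul_inv_rev, inv_inv, mul_inv_cancel_left, inv_mul_cancel_left, mul_inv_cancel, inv_mul_cancel, mul_one, one_mul, inv_one, C]) (by first | (simp only [mul_assoc, mul_inv_rev, inv_inv, mul_inv_cancel_left, inv_mul_cancel_left, mul_inv_cancel, inv_mul_cancel, mul_one, one_mul, inv_one]; done) | simp only [mul_assoc, mul_inv_rev, inv_inv, mul_inv_cancel_left, inv_mul_cancel_left, mul_inv_cancel, inv_mul_cancel, mul_one, one_mul, inv_one, C]),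
    o.cv hδ (1) (by simp only [hδ, δinv hδ, δone hδ, D] <;> linear_combination (0) * h3) (by first | (simp only [mul_assoc, mul_inv_rev, inv_inv, mul_inv_cancel_left, inv_mul_cancel_left, mul_inv_cancel, inv_mul_cancel, mul_one, one_mul, inv_one]; done) | simp only [mul_assoc, mul_inv_rev, inv_inv, mul_inv_cancel_left, inv_mul_cancel_left, mul_inv_cancel, inv_mul_cancel, mul_one, one_mul, inv_one, C]) (by first | (simp only [mul_assoc, mul_inv_rev, inv_inv, mul_inv_cancel_left, inv_mul_cancel_left, mul_inv_cancel, inv_mul_cancel, mul_one, one_mul, inv_one]; done) | simp only [mul_assoc, mul_inv_rev, inv_inv, mul_inv_cancel_left, inv_mul_cancel_left, mul_inv_cancel, inv_mul_cancel, mul_one, one_mul, inv_one, C]),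
    o.cv hδ (1) (by simp only [hδ, δinv hδ, δone hδ, D] <;> linear_combination (0) * h3) (by first | (simp only [mul_assoc, mul_inv_rev, inv_inv, mul_inv_cancel_left, inv_mul_cancel_left, mul_inv_cancel, inv_mul_cancel, mul_one, one_mul, inv_one]; done) | simp only [mul_assoc, mul_inv_rev, inv_inv, mul_inv_cancel_left, inv_mul_cancel_left, mul_inv_cancel, inv_mul_cancel, mul_one, one_mul, inv_one, C]) (by first | (simp only [mul_assoc, mul_inv_rev, inv_inv, mul_inv_cancel_left, inv_mul_cancel_left, mul_inv_cancel, inv_mul_cancel, mul_one, one_mul, inv_one]; done) | simp only [mul_assoc, mul_inv_rev, inv_inv, mul_inv_cancel_left, inv_mul_cancel_left, mul_inv_cancel, inv_mul_cancel, mul_one, one_mul, inv_one, C]),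
    o.cv hδ (1) (by simp only [hδ, δinv hδ, δone hδ, D] <;> linear_combination (0) * h3) (by first | (simp only [mul_assoc, mul_inv_rev, inv_inv, mul_inv_cancel_left, inv_mul_cancel_left, mul_inv_cancel, inv_mul_cancel, mul_one, one_mul, inv_one]; done) | simp only [mul_assoc, mul_inv_rev, inv_inv, mul_inv_cancel_left, inv_mul_cancel_left, mul_inv_cancel, inv_mul_cancel, mul_one, one_mul, inv_one, C]) (by first | (simp only [mul_assoc, mul_inv_rev, inv_inv, mul_inv_cancel_left, inv_mul_cancel_left, mul_inv_cancel, inv_mul_cancel, mul_one, one_mul, inv_one]; done) | simp only [mul_assoc, mul_inv_rev, inv_inv, mul_inv_cancel_left, inv_mul_cancel_left, mul_inv_cancel, inv_mul_cancel, mul_one, one_mul, inv_one, C]),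
    o.cv hδ (1) (by simp only [hδ, δinv hδ, δone hδ, D] <;> linear_combination (0) * h3) (by first | (simp only [mul_assoc, mul_inv_rev, inv_inv, mul_inv_cancel_left, inv_mul_cancel_left, mul_inv_cancel, inv_mul_cancel, mul_one, one_mul, inv_one]; done) | simp only [mul_assoc, mul_inv_rev, inv_inv, mul_inv_cancel_left, inv_mul_cancel_left, mul_inv_cancel, inv_mul_cancel, mul_one, one_mul, inv_one, C]) (by first | (simp only [mul_assoc, mul_inv_rev, inv_inv, mul_inv_cancel_left, inv_mul_cancel_left, mul_inv_cancel, inv_mul_cancel, mul_one, one_mul, inv_one]; done) | simp only [mul_assoc, mul_inv_rev, inv_inv, mul_inv_cancel_left, inv_mul_cancel_left, mul_inv_cancel, inv_mul_cancel, mul_one, one_mul, inv_one, C]),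
    o.cv hδ (1) (by simp only [hδ, δinv hδ, δone hδ, D] <;> linear_combination (0) * h3) (by first | (simp only [mul_assoc, mul_inv_rev, inv_inv, mul_inv_cancel_left, inv_mul_cancel_left, mul_inv_cancel, inv_mul_cancel, mul_one, one_mul, inv_one]; done) | simp only [mul_assoc, mul_inv_rev, inv_inv, mul_inv_cancel_left, inv_mul_cancel_left, mul_inv_cancel, inv_mul_cancel, mul_one, one_mul, inv_one, C]) (by first | (simp only [mul_assoc, mul_inv_rev, inv_inv, mul_inv_cancel_left, inv_mul_cancel_left, mul_inv_cancel, inv_mul_cancel, mul_one, one_mul, inv_one]; done) | simp only [mul_assoc, mul_inv_rev, inv_inv, mul_inv_cancel_left, inv_mul_cancel_left, mul_inv_cancel, inv_mul_cancel, mul_one, one_mul, inv_one, C])⟩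

theorem close_AB_k2 {G : Type*} [Group G] {δ : G → ZMod 3} (hδ : ∀ u v, δ (u * v) = δ u + δ v) (o : Pre δ)
    {P Q f0 f1 : G} {e : ZMod 3} (h3 : 3 * e = 0)
    (D : δ P = e ∧ δ Q = -e ∧ δ f0 = 0 ∧ δ f1 = 0)
    (C : Cube P f0 ∧ Cube P f1 ∧ Cube Q f0 ∧ Cube Q f1) :
    (o.lt (f1 * Q⁻¹) (P * f1⁻¹) ↔ o.lt (Q * f1⁻¹) (P * Q⁻¹)) ∧
    (o.lt (P * f0⁻¹) (f0 * Q⁻¹) ↔ o.lt (P * Q⁻¹) (Q * f0⁻¹)) ∧
    (o.lt (P * f1⁻¹) (f1 * Q⁻¹) ↔ o.lt (P * Q⁻¹) (Q * f1⁻¹)) ∧
    (o.lt (f0 * P⁻¹) (f1 * P⁻¹) ↔ o.lt (f0) (f1)) := by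
  have C' := C
  obtain ⟨C0, C1, C2, C3⟩ := C'
  simp only [Cube] at C C0 C1 C2 C3
  exact ⟨o.cv hδ (Q * (f1⁻¹ * (Q * f1⁻¹))) (by simp only [hδ, δinv hδ, δone hδ, D] <;> linear_combination (0) * h3) (by first | (simp only [mul_assoc, mul_inv_rev, inv_inv, mul_inv_cancel_left, inv_mul_cancel_left, mul_inv_cancel, inv_mul_cancel, mul_one, one_mul, inv_one]; done) | simp only [mul_assoc, mul_inv_rev, inv_inv, mul_inv_cancel_left, inv_mul_cancel_left, mul_inv_cancel, inv_mul_cancel, mul_one, one_mul, inv_one, C]) (by first | (simp only [mul_assoc, mul_inv_rev, inv_inv, mul_inv_cancel_left, inv_mul_cancel_left, mul_inv_cancel, inv_mul_cancel, mul_one, one_mul, inv_one, C3]; done) | simp only [mul_assoc, mul_inv_rev, inv_inv, mul_inv_cancel_left, inv_mul_cancel_left, mul_inv_cancel, inv_mul_cancel, mul_one, one_mul, inv_one, C]),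
    o.cv hδ (f0 * Q⁻¹) (by simp only [hδ, δinv hδ, δone hδ, D] <;> linear_combination (0) * h3) (by first | (simp only [mul_assoc, mul_inv_rev, inv_inv, mul_inv_cancel_left, inv_mul_cancel_left, mul_inv_cancel, inv_mul_cancel, mul_one, one_mul, inv_one]; done) | simp only [mul_assoc, mul_inv_rev, inv_inv, mul_inv_cancel_left, inv_mul_cancel_left, mul_inv_cancel, inv_mul_cancel, mul_one, one_mul, inv_one, C]) (by first | (simp only [mul_assoc, mul_inv_rev, inv_inv, mul_inv_cancel_left, inv_mul_cancel_left, mul_inv_cancel, inv_mul_cancel, mul_one, one_mul, inv_one, C2]; done) | simp only [mul_assoc, mul_inv_rev, inv_inv, mul_inv_cancel_left, inv_mul_cancel_left, mul_inv_cancel, inv_mul_cancel, mul_one, one_mul, inv_one, C]),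
    o.cv hδ (f1 * Q⁻¹) (by simp only [hδ, δinv hδ, δone hδ, D] <;> linear_combination (0) * h3) (by first | (simp only [mul_assoc, mul_inv_rev, inv_inv, mul_inv_cancel_left, inv_mul_cancel_left, mul_inv_cancel, inv_mul_cancel, mul_one, one_mul, inv_one]; done) | simp only [mul_assoc, mul_inv_rev, inv_inv, mul_inv_cancel_left, inv_mul_cancel_left, mul_inv_cancel, inv_mul_cancel, mul_one, one_mul, inv_one, C]) (by first | (simp only [mul_assoc, mul_inv_rev, inv_inv, mul_inv_cancel_left, inv_mul_cancel_left, mul_inv_cancel, inv_mul_cancel, mul_one, one_mul, inv_one, C3]; done) | simp only [mul_assoc, mul_inv_rev, inv_inv, mul_inv_cancel_left, inv_mul_cancel_left, mul_inv_cancel, inv_mul_cancel, mul_one, one_mul, inv_one, C]),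
    o.cv hδ (P) (by simp only [hδ, δinv hδ, δone hδ, D] <;> linear_combination (0) * h3) (by first | (simp only [mul_assoc, mul_inv_rev, inv_inv, mul_inv_cancel_left, inv_mul_cancel_left, mul_inv_cancel, inv_mul_cancel, mul_one, one_mul, inv_one]; done) | simp only [mul_assoc, mul_inv_rev, inv_inv, mul_inv_cancel_left, inv_mul_cancel_left, mul_inv_cancel, inv_mul_cancel, mul_one, one_mul, inv_one, C]) (by first | (simp only [mul_assoc, mul_inv_rev, inv_inv, mul_inv_cancel_left, inv_mul_cancel_left, mul_inv_cancel, inv_mul_cancel, mul_one, one_mul, inv_one]; done) | simp only [mul_assoc, mul_inv_rev, inv_inv, mul_inv_cancel_left, inv_mul_cancel_left, mul_inv_cancel, inv_mul_cancel, mul_one, one_mul, inv_one, C])⟩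

theorem close_AB {G : Type*} [Group G] {δ : G → ZMod 3} (hδ : ∀ u v, δ (u * v) = δ u + δ v) (o : Pre δ)
    {P Q f0 f1 : G} {e : ZMod 3} (h3 : 3 * e = 0)
    (D : δ P = e ∧ δ Q = -e ∧ δ f0 = 0 ∧ δ f1 = 0)
    (C : Cube P f0 ∧ Cube P f1 ∧ Cube Q f0 ∧ Cube Q f1)
    (N0 : RA o P Q f0 f1)
    (N1 : RB o P Q f1 f0)
    (g0 : o.lt f0 f1) : False := by
  obtain ⟨k0, k1, k2, k3, k4, k5, k6, k7, k8, k9, k10, k11, k12, k13, k14, k15, k16, k17, k18, k19⟩ := close_AB_k0 hδ o h3 D C
  obtain ⟨k20, k21, k22, k23, k24, k25, k26, k27, k28, k29, k30, k31, k32, k33, k34, k35, k36, k37, k38, k39⟩ := close_AB_k1 hδ o h3 D C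
  obtain ⟨k40, k41, k42, k43⟩ := close_AB_k2 hδ o h3 D C
  exact close_AB_prop
    (fun b0 b1 b2 => N0.rd.r1 1 (fun h => b0 (k0.2 h)) (fun h => b1 (k1.2 h)) (k2.1 b2))
    (fun b0 b1 b2 => N0.r.r0 1 (fun h => b0 (k3.2 h)) (k1.1 b1) (fun h => b2 (k4.2 h)))
    (fun b0 b1 b2 => N0.rd.r0 1 (fun h => b0 (k5.2 h)) (k6.1 b1) (fun h => b2 (k2.2 h)))
    (fun b0 b1 b2 => N0.i.r0 1 (fun h => b0 (k7.2 h)) (k8.1 b1) (fun h => b2 (k9.2 h)))
    (fun b0 b1 b2 => N0.d.r0 1 (fun h => b0 (k10.2 h)) (k11.1 b1) (fun h => b2 (k12.2 h)))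
    (fun b0 b1 b2 b3 => N1.d.r0 1 (fun h => b0 (k13.2 h)) (fun h => b1 (k14.2 h)) (k10.1 b2) (fun h => b3 (k15.2 h)))
    (fun b0 b1 b2 b3 => N1.r.r1 1 (fun h => b0 (k3.2 h)) (k16.1 b1) (fun h => b2 (k17.2 h)) (fun h => b3 (k15.2 h)))
    (fun b0 b1 b2 b3 => N1.r.r0 1 (fun h => b0 (k18.2 h)) (fun h => b1 (k19.2 h)) (k3.1 b2) (fun h => b3 (k15.2 h)))
    (fun b0 b1 => o.asym (k20.1 b0) (k21.1 b1))
    (fun b0 b1 => o.asym (k22.1 b0) (k23.1 b1))
    (fun b0 b1 => o.asym (k24.1 b0) (k25.1 b1))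
    (fun b0 b1 b2 => o.tri (k26.1 b0) (fun h => b1 (k27.2 h)) (fun h => b2 (k23.2 h)))
    (fun b0 b1 b2 => o.tri (k28.1 b0) (fun h => b1 (k23.2 h)) (fun h => b2 (k29.2 h)))
    (fun b0 b1 b2 => o.tri (k30.1 b0) (fun h => b1 (k25.2 h)) (fun h => b2 (k29.2 h)))
    (fun b0 b1 => o.asym (k31.1 b0) (k32.1 b1))
    (fun b0 b1 b2 => o.tri (k31.1 b0) (fun h => b1 (k33.2 h)) (fun h => b2 (k34.2 h)))
    (fun b0 b1 b2 => o.tri (k33.1 b0) (fun h => b1 (k35.2 h)) (fun h => b2 (k36.2 h)))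
    (fun b0 b1 => o.asym (k35.1 b0) (k37.1 b1))
    (fun b0 b1 b2 => o.tri (k38.1 b0) (fun h => b1 (k32.2 h)) (fun h => b2 (k35.2 h)))
    (fun b0 b1 => o.asym (k39.1 b0) (k36.1 b1))
    (fun b0 b1 b2 => o.tri (k36.1 b0) (fun h => b1 (k40.2 h)) (fun h => b2 (k41.2 h)))
    (fun b0 b1 b2 => o.tri (k42.1 b0) (fun h => b1 (k41.2 h)) (fun h => b2 (k39.2 h)))
    (k43.2 g0)

theorem close_AC_prop {A1 A2 A3 A4 A5 A6 A7 A8 A9 A10 A11 A12 A13 A14 A15 A16 A17 A18 A19 A20 : Prop}
    (c0 : ¬ A16 → ¬ A19 → A2 → False)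
    (c1 : ¬ A18 → A19 → ¬ A7 → False)
    (c2 : ¬ A20 → A15 → ¬ A2 → False)
    (c3 : ¬ A5 → A3 → ¬ A6 → False)
    (c4 : ¬ A1 → A9 → ¬ A13 → False)
    (c5 : ¬ A11 → ¬ A9 → A6 → False)
    (c6 : A14 → ¬ A15 → ¬ A1 → False)
    (c7 : ¬ A5 → A8 → ¬ A3 → ¬ A16 → False)
    (c8 : ¬ A20 → A17 → ¬ A15 → ¬ A16 → False)
    (c9 : A1 → A5 → False)
    (c10 : A1 → ¬ A2 → ¬ A8 → False)
    (c11 : A3 → A9 → False)
    (c12 : A4 → A12 → False)
    (c13 : A6 → A13 → False)
    (c14 : A7 → ¬ A8 → ¬ A5 → False)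
    (c15 : A10 → ¬ A9 → ¬ A1 → False)
    (c16 : A11 → ¬ A9 → ¬ A2 → False)
    (c17 : A13 → ¬ A12 → ¬ A1 → False)
    (c18 : A14 → A16 → False)
    (c19 : A15 → A19 → False)
    (c20 : A18 → A20 → False)
    (c21 : A19 → ¬ A13 → ¬ A16 → False)
    (c22 : A13 → ¬ A20 → ¬ A17 → False)
    (c23 : A20 → ¬ A19 → ¬ A4 → False)
    (c24 : A20 → ¬ A10 → ¬ A2 → False)
    (u0 : A14)
    : False := by
  have q1 : ¬ A16 := fun h => c18 u0 h
  rcases Classical.em A19 with q2 | q2
  · have q3 : ¬ A15 := fun h => c19 h q2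
    have q4 : A1 := Classical.byContradiction fun h => c6 u0 q3 h
    have q5 : ¬ A5 := fun h => c9 q4 h
    have q6 : A13 := Classical.byContradiction fun h => c21 q2 h q1
    have q7 : ¬ A6 := fun h => c13 h q6
    have q8 : ¬ A3 := fun h => c3 q5 h q7
    have q9 : ¬ A8 := fun h => c7 q5 h q8 q1
    have q10 : A2 := Classical.byContradiction fun h => c10 q4 h q9
    have q11 : ¬ A7 := fun h => c14 h q9 q5
    have q12 : A18 := Classical.byContradiction fun h => c1 h q2 q11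
    have q13 : ¬ A20 := fun h => c20 q12 h
    have q14 : ¬ A17 := fun h => c8 q13 h q3 q1
    exact c22 q6 q13 q14
  · have q15 : ¬ A2 := fun h => c0 q1 q2 h
    rcases Classical.em A20 with q16 | q16
    · have q17 : ¬ A18 := fun h => c20 h q16
      have q18 : A4 := Classical.byContradiction fun h => c23 q16 q2 h
      have q19 : ¬ A12 := fun h => c12 q18 h
      have q20 : A10 := Classical.byContradiction fun h => c24 q16 h q15
      rcases Classical.em A1 with q21 | q21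
      · have q22 : ¬ A5 := fun h => c9 q21 h
        have q23 : A8 := Classical.byContradiction fun h => c10 q21 q15 h
        have q24 : A3 := Classical.byContradiction fun h => c7 q22 q23 h q1
        have q25 : A6 := Classical.byContradiction fun h => c3 q22 q24 h
        have q26 : ¬ A9 := fun h => c11 q24 h
        have q27 : A11 := Classical.byContradiction fun h => c5 h q26 q25
        exact c16 q27 q26 q15
      · have q28 : A15 := Classical.byContradiction fun h => c6 u0 h q21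
        have q29 : A9 := Classical.byContradiction fun h => c15 q20 h q21
        have q30 : A13 := Classical.byContradiction fun h => c4 q21 q29 h
        exact c17 q30 q19 q21
    · have q31 : ¬ A15 := fun h => c2 q16 h q15
      have q32 : A1 := Classical.byContradiction fun h => c6 u0 q31 h
      have q33 : ¬ A17 := fun h => c8 q16 h q31 q1
      have q34 : ¬ A5 := fun h => c9 q32 h
      have q35 : A8 := Classical.byContradiction fun h => c10 q32 q15 h
      have q36 : A3 := Classical.byContradiction fun h => c7 q34 q35 h q1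
      have q37 : A6 := Classical.byContradiction fun h => c3 q34 q36 h
      have q38 : ¬ A9 := fun h => c11 q36 h
      have q39 : A11 := Classical.byContradiction fun h => c5 h q38 q37
      exact c16 q39 q38 q15

theorem close_AC_k0 {G : Type*} [Group G] {δ : G → ZMod 3} (hδ : ∀ u v, δ (u * v) = δ u + δ v) (o : Pre δ)
    {P Q f0 f1 : G} {e : ZMod 3} (h3 : 3 * e = 0)
    (D : δ P = e ∧ δ Q = -e ∧ δ f0 = 0 ∧ δ f1 = 0)
    (C : Cube P f0 ∧ Cube P f1 ∧ Cube Q f0 ∧ Cube Q f1) :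
    (o.lt (f1 * P⁻¹) (f0 * P⁻¹) ↔ o.lt (1 * (f1 * P⁻¹)) (1 * (f0 * P⁻¹))) ∧
    (o.lt (Q * f1⁻¹) (f0 * P⁻¹) ↔ o.lt (1 * (Q * f1⁻¹)) (1 * (f0 * P⁻¹))) ∧
    (o.lt (P * f0⁻¹) (f0 * Q⁻¹) ↔ o.lt (1 * (f0 * P⁻¹)⁻¹) (1 * (Q * f0⁻¹)⁻¹)) ∧
    (o.lt (Q * f0⁻¹) (Q * f1⁻¹) ↔ o.lt (1 * (Q * f0⁻¹)) (1 * (Q * f1⁻¹))) ∧
    (o.lt (f0 * Q⁻¹) (P * f0⁻¹) ↔ o.lt (1 * (Q * f0⁻¹)⁻¹) (1 * (f0 * P⁻¹)⁻¹)) ∧
    (o.lt (Q * f1⁻¹) (Q * f0⁻¹) ↔ o.lt (1 * (Q * f1⁻¹)) (1 * (Q * f0⁻¹))) ∧
    (o.lt (f0 * P⁻¹) (Q * f1⁻¹) ↔ o.lt (1 * (f0 * P⁻¹)) (1 * (Q * f1⁻¹))) ∧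
    (o.lt (P * f1⁻¹) (P * f0⁻¹) ↔ o.lt (1 * (P * f1⁻¹)) (1 * (P * f0⁻¹))) ∧
    (o.lt (P * f0⁻¹) (f1 * Q⁻¹) ↔ o.lt (1 * (P * f0⁻¹)) (1 * (f1 * Q⁻¹))) ∧
    (o.lt (f1 * P⁻¹) (Q * f1⁻¹) ↔ o.lt (1 * (P * f1⁻¹)⁻¹) (1 * (f1 * Q⁻¹)⁻¹)) ∧
    (o.lt (P * f0⁻¹) (P * f1⁻¹) ↔ o.lt (1 * (P * f0⁻¹)) (1 * (P * f1⁻¹))) ∧
    (o.lt (f1 * Q⁻¹) (P * f0⁻¹) ↔ o.lt (1 * (f1 * Q⁻¹)) (1 * (P * f0⁻¹))) ∧
    (o.lt (Q * f1⁻¹) (f1 * P⁻¹) ↔ o.lt (1 * (f1 * Q⁻¹)⁻¹) (1 * (P * f1⁻¹)⁻¹)) ∧
    (o.lt (f1 * Q⁻¹) (f0 * Q⁻¹) ↔ o.lt (1 * (f1 * Q⁻¹)) (1 * (f0 * Q⁻¹))) ∧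
    (o.lt (f0 * P⁻¹) (f1 * P⁻¹) ↔ o.lt (1 * (f0 * P⁻¹)) (1 * (f1 * P⁻¹))) ∧
    (o.lt (P * f0⁻¹) (P * f1⁻¹) ↔ o.lt (1 * (f0 * P⁻¹)⁻¹) (1 * (f1 * P⁻¹)⁻¹)) ∧
    (o.lt (f0 * Q⁻¹) (P * f1⁻¹) ↔ o.lt (1 * (f0 * Q⁻¹)) (1 * (P * f1⁻¹))) ∧
    (o.lt (f1 * P⁻¹) (f0 * P⁻¹) ↔ o.lt (1 * f1) (1 * f0)) ∧
    (o.lt (Q * f0⁻¹) (f1 * P⁻¹) ↔ o.lt (1 * (Q * f0⁻¹)) (1 * (f1 * P⁻¹))) ∧
    (o.lt (P * f0⁻¹) (P * f1⁻¹) ↔ o.lt (P * f0⁻¹) (P * f1⁻¹)) := by
  have C' := C
  obtain ⟨C0, C1, C2, C3⟩ := C'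
  simp only [Cube] at C C0 C1 C2 C3
  exact ⟨o.cv hδ (1) (by simp only [hδ, δinv hδ, δone hδ, D] <;> linear_combination (0) * h3) (by first | (simp only [mul_assoc, mul_inv_rev, inv_inv, mul_inv_cancel_left, inv_mul_cancel_left, mul_inv_cancel, inv_mul_cancel, mul_one, one_mul, inv_one]; done) | simp only [mul_assoc, mul_inv_rev, inv_inv, mul_inv_cancel_left, inv_mul_cancel_left, mul_inv_cancel, inv_mul_cancel, mul_one, one_mul, inv_one, C]) (by first | (simp only [mul_assoc, mul_inv_rev, inv_inv, mul_inv_cancel_left, inv_mul_cancel_left, mul_inv_cancel, inv_mul_cancel, mul_one, one_mul, inv_one]; done) | simp only [mul_assoc, mul_inv_rev, inv_inv, mul_inv_cancel_left, inv_mul_cancel_left, mul_inv_cancel, inv_mul_cancel, mul_one, one_mul, inv_one, C]),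
    o.cv hδ (1) (by simp only [hδ, δinv hδ, δone hδ, D] <;> linear_combination (0) * h3) (by first | (simp only [mul_assoc, mul_inv_rev, inv_inv, mul_inv_cancel_left, inv_mul_cancel_left, mul_inv_cancel, inv_mul_cancel, mul_one, one_mul, inv_one]; done) | simp only [mul_assoc, mul_inv_rev, inv_inv, mul_inv_cancel_left, inv_mul_cancel_left, mul_inv_cancel, inv_mul_cancel, mul_one, one_mul, inv_one, C]) (by first | (simp only [mul_assoc, mul_inv_rev, inv_inv, mul_inv_cancel_left, inv_mul_cancel_left, mul_inv_cancel, inv_mul_cancel, mul_one, one_mul, inv_one]; done) | simp only [mul_assoc, mul_inv_rev, inv_inv, mul_inv_cancel_left, inv_mul_cancel_left, mul_inv_cancel, inv_mul_cancel, mul_one, one_mul, inv_one, C]),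
    o.cv hδ (1) (by simp only [hδ, δinv hδ, δone hδ, D] <;> linear_combination (0) * h3) (by first | (simp only [mul_assoc, mul_inv_rev, inv_inv, mul_inv_cancel_left, inv_mul_cancel_left, mul_inv_cancel, inv_mul_cancel, mul_one, one_mul, inv_one]; done) | simp only [mul_assoc, mul_inv_rev, inv_inv, mul_inv_cancel_left, inv_mul_cancel_left, mul_inv_cancel, inv_mul_cancel, mul_one, one_mul, inv_one, C]) (by first | (simp only [mul_assoc, mul_inv_rev, inv_inv, mul_inv_cancel_left, inv_mul_cancel_left, mul_inv_cancel, inv_mul_cancel, mul_one, one_mul, inv_one]; done) | simp only [mul_assoc, mul_inv_rev, inv_inv, mul_inv_cancel_left, inv_mul_cancel_left, mul_inv_cancel, inv_mul_cancel, mul_one, one_mul, inv_one, C]),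
    o.cv hδ (1) (by simp only [hδ, δinv hδ, δone hδ, D] <;> linear_combination (0) * h3) (by first | (simp only [mul_assoc, mul_inv_rev, inv_inv, mul_inv_cancel_left, inv_mul_cancel_left, mul_inv_cancel, inv_mul_cancel, mul_one, one_mul, inv_one]; done) | simp only [mul_assoc, mul_inv_rev, inv_inv, mul_inv_cancel_left, inv_mul_cancel_left, mul_inv_cancel, inv_mul_cancel, mul_one, one_mul, inv_one, C]) (by first | (simp only [mul_assoc, mul_inv_rev, inv_inv, mul_inv_cancel_left, inv_mul_cancel_left, mul_inv_cancel, inv_mul_cancel, mul_one, one_mul, inv_one]; done) | simp only [mul_assoc, mul_inv_rev, inv_inv, mul_inv_cancel_left, inv_mul_cancel_left, mul_inv_cancel, inv_mul_cancel, mul_one, one_mul, inv_one, C]),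
    o.cv hδ (1) (by simp only [hδ, δinv hδ, δone hδ, D] <;> linear_combination (0) * h3) (by first | (simp only [mul_assoc, mul_inv_rev, inv_inv, mul_inv_cancel_left, inv_mul_cancel_left, mul_inv_cancel, inv_mul_cancel, mul_one, one_mul, inv_one]; done) | simp only [mul_assoc, mul_inv_rev, inv_inv, mul_inv_cancel_left, inv_mul_cancel_left, mul_inv_cancel, inv_mul_cancel, mul_one, one_mul, inv_one, C]) (by first | (simp only [mul_assoc, mul_inv_rev, inv_inv, mul_inv_cancel_left, inv_mul_cancel_left, mul_inv_cancel, inv_mul_cancel, mul_one, one_mul, inv_one]; done) | simp only [mul_assoc, mul_inv_rev, inv_inv, mul_inv_cancel_left, inv_mul_cancel_left, mul_inv_cancel, inv_mul_cancel, mul_one, one_mul, inv_one, C]),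
    o.cv hδ (1) (by simp only [hδ, δinv hδ, δone hδ, D] <;> linear_combination (0) * h3) (by first | (simp only [mul_assoc, mul_inv_rev, inv_inv, mul_inv_cancel_left, inv_mul_cancel_left, mul_inv_cancel, inv_mul_cancel, mul_one, one_mul, inv_one]; done) | simp only [mul_assoc, mul_inv_rev, inv_inv, mul_inv_cancel_left, inv_mul_cancel_left, mul_inv_cancel, inv_mul_cancel, mul_one, one_mul, inv_one, C]) (by first | (simp only [mul_assoc, mul_inv_rev, inv_inv, mul_inv_cancel_left, inv_mul_cancel_left, mul_inv_cancel, inv_mul_cancel, mul_one, one_mul, inv_one]; done) | simp only [mul_assoc, mul_inv_rev, inv_inv, mul_inv_cancel_left, inv_mul_cancel_left, mul_inv_cancel, inv_mul_cancel, mul_one, one_mul, inv_one, C]),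
    o.cv hδ (1) (by simp only [hδ, δinv hδ, δone hδ, D] <;> linear_combination (0) * h3) (by first | (simp only [mul_assoc, mul_inv_rev, inv_inv, mul_inv_cancel_left, inv_mul_cancel_left, mul_inv_cancel, inv_mul_cancel, mul_one, one_mul, inv_one]; done) | simp only [mul_assoc, mul_inv_rev, inv_inv, mul_inv_cancel_left, inv_mul_cancel_left, mul_inv_cancel, inv_mul_cancel, mul_one, one_mul, inv_one, C]) (by first | (simp only [mul_assoc, mul_inv_rev, inv_inv, mul_inv_cancel_left, inv_mul_cancel_left, mul_inv_cancel, inv_mul_cancel, mul_one, one_mul, inv_one]; done) | simp only [mul_assoc, mul_inv_rev, inv_inv, mul_inv_cancel_left, inv_mul_cancel_left, mul_inv_cancel, inv_mul_cancel, mul_one, one_mul, inv_one, C]),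
    o.cv hδ (1) (by simp only [hδ, δinv hδ, δone hδ, D] <;> linear_combination (0) * h3) (by first | (simp only [mul_assoc, mul_inv_rev, inv_inv, mul_inv_cancel_left, inv_mul_cancel_left, mul_inv_cancel, inv_mul_cancel, mul_one, one_mul, inv_one]; done) | simp only [mul_assoc, mul_inv_rev, inv_inv, mul_inv_cancel_left, inv_mul_cancel_left, mul_inv_cancel, inv_mul_cancel, mul_one, one_mul, inv_one, C]) (by first | (simp only [mul_assoc, mul_inv_rev, inv_inv, mul_inv_cancel_left, inv_mul_cancel_left, mul_inv_cancel, inv_mul_cancel, mul_one, one_mul, inv_one]; done) | simp only [mul_assoc, mul_inv_rev, inv_inv, mul_inv_cancel_left, inv_mul_cancel_left, mul_inv_cancel, inv_mul_cancel, mul_one, one_mul, inv_one, C]),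
    o.cv hδ (1) (by simp only [hδ, δinv hδ, δone hδ, D] <;> linear_combination (0) * h3) (by first | (simp only [mul_assoc, mul_inv_rev, inv_inv, mul_inv_cancel_left, inv_mul_cancel_left, mul_inv_cancel, inv_mul_cancel, mul_one, one_mul, inv_one]; done) | simp only [mul_assoc, mul_inv_rev, inv_inv, mul_inv_cancel_left, inv_mul_cancel_left, mul_inv_cancel, inv_mul_cancel, mul_one, one_mul, inv_one, C]) (by first | (simp only [mul_assoc, mul_inv_rev, inv_inv, mul_inv_cancel_left, inv_mul_cancel_left, mul_inv_cancel, inv_mul_cancel, mul_one, one_mul, inv_one]; done) | simp only [mul_assoc, mul_inv_rev, inv_inv, mul_inv_cancel_left, inv_mul_cancel_left, mul_inv_cancel, inv_mul_cancel, mul_one, one_mul, inv_one, C]),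
    o.cv hδ (1) (by simp only [hδ, δinv hδ, δone hδ, D] <;> linear_combination (0) * h3) (by first | (simp only [mul_assoc, mul_inv_rev, inv_inv, mul_inv_cancel_left, inv_mul_cancel_left, mul_inv_cancel, inv_mul_cancel, mul_one, one_mul, inv_one]; done) | simp only [mul_assoc, mul_inv_rev, inv_inv, mul_inv_cancel_left, inv_mul_cancel_left, mul_inv_cancel, inv_mul_cancel, mul_one, one_mul, inv_one, C]) (by first | (simp only [mul_assoc, mul_inv_rev, inv_inv, mul_inv_cancel_left, inv_mul_cancel_left, mul_inv_cancel, inv_mul_cancel, mul_one, one_mul, inv_one]; done) | simp only [mul_assoc, mul_inv_rev, inv_inv, mul_inv_cancel_left, inv_mul_cancel_left, mul_inv_cancel, inv_mul_cancel, mul_one, one_mul, inv_one, C]),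
    o.cv hδ (1) (by simp only [hδ, δinv hδ, δone hδ, D] <;> linear_combination (0) * h3) (by first | (simp only [mul_assoc, mul_inv_rev, inv_inv, mul_inv_cancel_left, inv_mul_cancel_left, mul_inv_cancel, inv_mul_cancel, mul_one, one_mul, inv_one]; done) | simp only [mul_assoc, mul_inv_rev, inv_inv, mul_inv_cancel_left, inv_mul_cancel_left, mul_inv_cancel, inv_mul_cancel, mul_one, one_mul, inv_one, C]) (by first | (simp only [mul_assoc, mul_inv_rev, inv_inv, mul_inv_cancel_left, inv_mul_cancel_left, mul_inv_cancel, inv_mul_cancel, mul_one, one_mul, inv_one]; done) | simp only [mul_assoc, mul_inv_rev, inv_inv, mul_inv_cancel_left, inv_mul_cancel_left, mul_inv_cancel, inv_mul_cancel, mul_one, one_mul, inv_one, C]),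
    o.cv hδ (1) (by simp only [hδ, δinv hδ, δone hδ, D] <;> linear_combination (0) * h3) (by first | (simp only [mul_assoc, mul_inv_rev, inv_inv, mul_inv_cancel_left, inv_mul_cancel_left, mul_inv_cancel, inv_mul_cancel, mul_one, one_mul, inv_one]; done) | simp only [mul_assoc, mul_inv_rev, inv_inv, mul_inv_cancel_left, inv_mul_cancel_left, mul_inv_cancel, inv_mul_cancel, mul_one, one_mul, inv_one, C]) (by first | (simp only [mul_assoc, mul_inv_rev, inv_inv, mul_inv_cancel_left, inv_mul_cancel_left, mul_inv_cancel, inv_mul_cancel, mul_one, one_mul, inv_one]; done) | simp only [mul_assoc, mul_inv_rev, inv_inv, mul_inv_cancel_left, inv_mul_cancel_left, mul_inv_cancel, inv_mul_cancel, mul_one, one_mul, inv_one, C]),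
    o.cv hδ (1) (by simp only [hδ, δinv hδ, δone hδ, D] <;> linear_combination (0) * h3) (by first | (simp only [mul_assoc, mul_inv_rev, inv_inv, mul_inv_cancel_left, inv_mul_cancel_left, mul_inv_cancel, inv_mul_cancel, mul_one, one_mul, inv_one]; done) | simp only [mul_assoc, mul_inv_rev, inv_inv, mul_inv_cancel_left, inv_mul_cancel_left, mul_inv_cancel, inv_mul_cancel, mul_one, one_mul, inv_one, C]) (by first | (simp only [mul_assoc, mul_inv_rev, inv_inv, mul_inv_cancel_left, inv_mul_cancel_left, mul_inv_cancel, inv_mul_cancel, mul_one, one_mul, inv_one]; done) | simp only [mul_assoc, mul_inv_rev, inv_inv, mul_inv_cancel_left, inv_mul_cancel_left, mul_inv_cancel, inv_mul_cancel, mul_one, one_mul, inv_one, C]),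
    o.cv hδ (1) (by simp only [hδ, δinv hδ, δone hδ, D] <;> linear_combination (0) * h3) (by first | (simp only [mul_assoc, mul_inv_rev, inv_inv, mul_inv_cancel_left, inv_mul_cancel_left, mul_inv_cancel, inv_mul_cancel, mul_one, one_mul, inv_one]; done) | simp only [mul_assoc, mul_inv_rev, inv_inv, mul_inv_cancel_left, inv_mul_cancel_left, mul_inv_cancel, inv_mul_cancel, mul_one, one_mul, inv_one, C]) (by first | (simp only [mul_assoc, mul_inv_rev, inv_inv, mul_inv_cancel_left, inv_mul_cancel_left, mul_inv_cancel, inv_mul_cancel, mul_one, one_mul, inv_one]; done) | simp only [mul_assoc, mul_inv_rev, inv_inv, mul_inv_cancel_left, inv_mul_cancel_left, mul_inv_cancel, inv_mul_cancel, mul_one, one_mul, inv_one, C]),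
    o.cv hδ (1) (by simp only [hδ, δinv hδ, δone hδ, D] <;> linear_combination (0) * h3) (by first | (simp only [mul_assoc, mul_inv_rev, inv_inv, mul_inv_cancel_left, inv_mul_cancel_left, mul_inv_cancel, inv_mul_cancel, mul_one, one_mul, inv_one]; done) | simp only [mul_assoc, mul_inv_rev, inv_inv, mul_inv_cancel_left, inv_mul_cancel_left, mul_inv_cancel, inv_mul_cancel, mul_one, one_mul, inv_one, C]) (by first | (simp only [mul_assoc, mul_inv_rev, inv_inv, mul_inv_cancel_left, inv_mul_cancel_left, mul_inv_cancel, inv_mul_cancel, mul_one, one_mul, inv_one]; done) | simp only [mul_assoc, mul_inv_rev, inv_inv, mul_inv_cancel_left, inv_mul_cancel_left, mul_inv_cancel, inv_mul_cancel, mul_one, one_mul, inv_one, C]),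
    o.cv hδ (1) (by simp only [hδ, δinv hδ, δone hδ, D] <;> linear_combination (0) * h3) (by first | (simp only [mul_assoc, mul_inv_rev, inv_inv, mul_inv_cancel_left, inv_mul_cancel_left, mul_inv_cancel, inv_mul_cancel, mul_one, one_mul, inv_one]; done) | simp only [mul_assoc, mul_inv_rev, inv_inv, mul_inv_cancel_left, inv_mul_cancel_left, mul_inv_cancel, inv_mul_cancel, mul_one, one_mul, inv_one, C]) (by first | (simp only [mul_assoc, mul_inv_rev, inv_inv, mul_inv_cancel_left, inv_mul_cancel_left, mul_inv_cancel, inv_mul_cancel, mul_one, one_mul, inv_one]; done) | simp only [mul_assoc, mul_inv_rev, inv_inv, mul_inv_cancel_left, inv_mul_cancel_left, mul_inv_cancel, inv_mul_cancel, mul_one, one_mul, inv_one, C]),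
    o.cv hδ (1) (by simp only [hδ, δinv hδ, δone hδ, D] <;> linear_combination (0) * h3) (by first | (simp only [mul_assoc, mul_inv_rev, inv_inv, mul_inv_cancel_left, inv_mul_cancel_left, mul_inv_cancel, inv_mul_cancel, mul_one, one_mul, inv_one]; done) | simp only [mul_assoc, mul_inv_rev, inv_inv, mul_inv_cancel_left, inv_mul_cancel_left, mul_inv_cancel, inv_mul_cancel, mul_one, one_mul, inv_one, C]) (by first | (simp only [mul_assoc, mul_inv_rev, inv_inv, mul_inv_cancel_left, inv_mul_cancel_left, mul_inv_cancel, inv_mul_cancel, mul_one, one_mul, inv_one]; done) | simp only [mul_assoc, mul_inv_rev, inv_inv, mul_inv_cancel_left, inv_mul_cancel_left, mul_inv_cancel, inv_mul_cancel, mul_one, one_mul, inv_one, C]),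
    o.cv hδ (P) (by simp only [hδ, δinv hδ, δone hδ, D] <;> linear_combination (0) * h3) (by first | (simp only [mul_assoc, mul_inv_rev, inv_inv, mul_inv_cancel_left, inv_mul_cancel_left, mul_inv_cancel, inv_mul_cancel, mul_one, one_mul, inv_one]; done) | simp only [mul_assoc, mul_inv_rev, inv_inv, mul_inv_cancel_left, inv_mul_cancel_left, mul_inv_cancel, inv_mul_cancel, mul_one, one_mul, inv_one, C]) (by first | (simp only [mul_assoc, mul_inv_rev, inv_inv, mul_inv_cancel_left, inv_mul_cancel_left, mul_inv_cancel, inv_mul_cancel, mul_one, one_mul, inv_one]; done) | simp only [mul_assoc, mul_inv_rev, inv_inv, mul_inv_cancel_left, inv_mul_cancel_left, mul_inv_cancel, inv_mul_cancel, mul_one, one_mul, inv_one, C]),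
    o.cv hδ (1) (by simp only [hδ, δinv hδ, δone hδ, D] <;> linear_combination (0) * h3) (by first | (simp only [mul_assoc, mul_inv_rev, inv_inv, mul_inv_cancel_left, inv_mul_cancel_left, mul_inv_cancel, inv_mul_cancel, mul_one, one_mul, inv_one]; done) | simp only [mul_assoc, mul_inv_rev, inv_inv, mul_inv_cancel_left, inv_mul_cancel_left, mul_inv_cancel, inv_mul_cancel, mul_one, one_mul, inv_one, C]) (by first | (simp only [mul_assoc, mul_inv_rev, inv_inv, mul_inv_cancel_left, inv_mul_cancel_left, mul_inv_cancel, inv_mul_cancel, mul_one, one_mul, inv_one]; done) | simp only [mul_assoc, mul_inv_rev, inv_inv, mul_inv_cancel_left, inv_mul_cancel_left, mul_inv_cancel, inv_mul_cancel, mul_one, one_mul, inv_one, C]),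
    o.cv hδ (1) (by simp only [hδ, δinv hδ, δone hδ, D] <;> linear_combination (0) * h3) (by first | (simp only [mul_assoc, mul_inv_rev, inv_inv, mul_inv_cancel_left, inv_mul_cancel_left, mul_inv_cancel, inv_mul_cancel, mul_one, one_mul, inv_one]; done) | simp only [mul_assoc, mul_inv_rev, inv_inv, mul_inv_cancel_left, inv_mul_cancel_left, mul_inv_cancel, inv_mul_cancel, mul_one, one_mul, inv_one, C]) (by first | (simp only [mul_assoc, mul_inv_rev, inv_inv, mul_inv_cancel_left, inv_mul_cancel_left, mul_inv_cancel, inv_mul_cancel, mul_one, one_mul, inv_one]; done) | simp only [mul_assoc, mul_inv_rev, inv_inv, mul_inv_cancel_left, inv_mul_cancel_left, mul_inv_cancel, inv_mul_cancel, mul_one, one_mul, inv_one, C])⟩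

theorem close_AC_k1 {G : Type*} [Group G] {δ : G → ZMod 3} (hδ : ∀ u v, δ (u * v) = δ u + δ v) (o : Pre δ)
    {P Q f0 f1 : G} {e : ZMod 3} (h3 : 3 * e = 0)
    (D : δ P = e ∧ δ Q = -e ∧ δ f0 = 0 ∧ δ f1 = 0)
    (C : Cube P f0 ∧ Cube P f1 ∧ Cube Q f0 ∧ Cube Q f1) :
    (o.lt (P * f1⁻¹) (P * f0⁻¹) ↔ o.lt (P * f1⁻¹) (P * f0⁻¹)) ∧
    (o.lt (P * f0⁻¹) (f0 * Q⁻¹) ↔ o.lt (P * f0⁻¹) (f0 * Q⁻¹)) ∧
    (o.lt (f0 * Q⁻¹) (P * f1⁻¹) ↔ o.lt (f0 * Q⁻¹) (P * f1⁻¹)) ∧
    (o.lt (P * f0⁻¹) (f1 * Q⁻¹) ↔ o.lt (P * f0⁻¹) (f1 * Q⁻¹)) ∧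
    (o.lt (f1 * Q⁻¹) (P * f0⁻¹) ↔ o.lt (f1 * Q⁻¹) (P * f0⁻¹)) ∧
    (o.lt (P * f0⁻¹) (Q * P⁻¹) ↔ o.lt (P * f0⁻¹) (Q * P⁻¹)) ∧
    (o.lt (Q * P⁻¹) (P * f0⁻¹) ↔ o.lt (Q * P⁻¹) (P * f0⁻¹)) ∧
    (o.lt (f1 * P⁻¹) (Q * f1⁻¹) ↔ o.lt (P * f1⁻¹) (Q * P⁻¹)) ∧
    (o.lt (Q * f1⁻¹) (f1 * P⁻¹) ↔ o.lt (Q * P⁻¹) (P * f1⁻¹)) ∧
    (o.lt (f0 * Q⁻¹) (P * f0⁻¹) ↔ o.lt (f0 * Q⁻¹) (P * f0⁻¹)) ∧
    (o.lt (f1 * Q⁻¹) (P * f1⁻¹) ↔ o.lt (f1 * Q⁻¹) (P * f1⁻¹)) ∧
    (o.lt (f1 * Q⁻¹) (f0 * Q⁻¹) ↔ o.lt (f1 * Q⁻¹) (f0 * Q⁻¹)) ∧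
    (o.lt (f0 * P⁻¹) (f1 * P⁻¹) ↔ o.lt (f0 * P⁻¹) (f1 * P⁻¹)) ∧
    (o.lt (f1 * P⁻¹) (f0 * P⁻¹) ↔ o.lt (f1 * P⁻¹) (f0 * P⁻¹)) ∧
    (o.lt (f0 * P⁻¹) (Q * f1⁻¹) ↔ o.lt (f0 * P⁻¹) (Q * f1⁻¹)) ∧
    (o.lt (Q * f1⁻¹) (f0 * P⁻¹) ↔ o.lt (Q * f1⁻¹) (f0 * P⁻¹)) ∧
    (o.lt (Q * f0⁻¹) (Q * f1⁻¹) ↔ o.lt (Q * f0⁻¹) (Q * f1⁻¹)) ∧
    (o.lt (Q * f1⁻¹) (Q * f0⁻¹) ↔ o.lt (Q * f1⁻¹) (Q * f0⁻¹)) ∧
    (o.lt (Q * f1⁻¹) (f1 * P⁻¹) ↔ o.lt (Q * f1⁻¹) (f1 * P⁻¹)) ∧
    (o.lt (Q * f0⁻¹) (f1 * P⁻¹) ↔ o.lt (Q * f0⁻¹) (f1 * P⁻¹)) := by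
  have C' := C
  obtain ⟨C0, C1, C2, C3⟩ := C'
  simp only [Cube] at C C0 C1 C2 C3
  exact ⟨o.cv hδ (1) (by simp only [hδ, δinv hδ, δone hδ, D] <;> linear_combination (0) * h3) (by first | (simp only [mul_assoc, mul_inv_rev, inv_inv, mul_inv_cancel_left, inv_mul_cancel_left, mul_inv_cancel, inv_mul_cancel, mul_one, one_mul, inv_one]; done) | simp only [mul_assoc, mul_inv_rev, inv_inv, mul_inv_cancel_left, inv_mul_cancel_left, mul_inv_cancel, inv_mul_cancel, mul_one, one_mul, inv_one, C]) (by first | (simp only [mul_assoc, mul_inv_rev, inv_inv, mul_inv_cancel_left, inv_mul_cancel_left, mul_inv_cancel, inv_mul_cancel, mul_one, one_mul, inv_one]; done) | simp only [mul_assoc, mul_inv_rev, inv_inv, mul_inv_cancel_left, inv_mul_cancel_left, mul_inv_cancel, inv_mul_cancel, mul_one, one_mul, inv_one, C]),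
    o.cv hδ (1) (by simp only [hδ, δinv hδ, δone hδ, D] <;> linear_combination (0) * h3) (by first | (simp only [mul_assoc, mul_inv_rev, inv_inv, mul_inv_cancel_left, inv_mul_cancel_left, mul_inv_cancel, inv_mul_cancel, mul_one, one_mul, inv_one]; done) | simp only [mul_assoc, mul_inv_rev, inv_inv, mul_inv_cancel_left, inv_mul_cancel_left, mul_inv_cancel, inv_mul_cancel, mul_one, one_mul, inv_one, C]) (by first | (simp only [mul_assoc, mul_inv_rev, inv_inv, mul_inv_cancel_left, inv_mul_cancel_left, mul_inv_cancel, inv_mul_cancel, mul_one, one_mul, inv_one]; done) | simp only [mul_assoc, mul_inv_rev, inv_inv, mul_inv_cancel_left, inv_mul_cancel_left, mul_inv_cancel, inv_mul_cancel, mul_one, one_mul, inv_one, C]),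
    o.cv hδ (1) (by simp only [hδ, δinv hδ, δone hδ, D] <;> linear_combination (0) * h3) (by first | (simp only [mul_assoc, mul_inv_rev, inv_inv, mul_inv_cancel_left, inv_mul_cancel_left, mul_inv_cancel, inv_mul_cancel, mul_one, one_mul, inv_one]; done) | simp only [mul_assoc, mul_inv_rev, inv_inv, mul_inv_cancel_left, inv_mul_cancel_left, mul_inv_cancel, inv_mul_cancel, mul_one, one_mul, inv_one, C]) (by first | (simp only [mul_assoc, mul_inv_rev, inv_inv, mul_inv_cancel_left, inv_mul_cancel_left, mul_inv_cancel, inv_mul_cancel, mul_one, one_mul, inv_one]; done) | simp only [mul_assoc, mul_inv_rev, inv_inv, mul_inv_cancel_left, inv_mul_cancel_left, mul_inv_cancel, inv_mul_cancel, mul_one, one_mul, inv_one, C]),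
    o.cv hδ (1) (by simp only [hδ, δinv hδ, δone hδ, D] <;> linear_combination (0) * h3) (by first | (simp only [mul_assoc, mul_inv_rev, inv_inv, mul_inv_cancel_left, inv_mul_cancel_left, mul_inv_cancel, inv_mul_cancel, mul_one, one_mul, inv_one]; done) | simp only [mul_assoc, mul_inv_rev, inv_inv, mul_inv_cancel_left, inv_mul_cancel_left, mul_inv_cancel, inv_mul_cancel, mul_one, one_mul, inv_one, C]) (by first | (simp only [mul_assoc, mul_inv_rev, inv_inv, mul_inv_cancel_left, inv_mul_cancel_left, mul_inv_cancel, inv_mul_cancel, mul_one, one_mul, inv_one]; done) | simp only [mul_assoc, mul_inv_rev, inv_inv, mul_inv_cancel_left, inv_mul_cancel_left, mul_inv_cancel, inv_mul_cancel, mul_one, one_mul, inv_one, C]),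
    o.cv hδ (1) (by simp only [hδ, δinv hδ, δone hδ, D] <;> linear_combination (0) * h3) (by first | (simp only [mul_assoc, mul_inv_rev, inv_inv, mul_inv_cancel_left, inv_mul_cancel_left, mul_inv_cancel, inv_mul_cancel, mul_one, one_mul, inv_one]; done) | simp only [mul_assoc, mul_inv_rev, inv_inv, mul_inv_cancel_left, inv_mul_cancel_left, mul_inv_cancel, inv_mul_cancel, mul_one, one_mul, inv_one, C]) (by first | (simp only [mul_assoc, mul_inv_rev, inv_inv, mul_inv_cancel_left, inv_mul_cancel_left, mul_inv_cancel, inv_mul_cancel, mul_one, one_mul, inv_one]; done) | simp only [mul_assoc, mul_inv_rev, inv_inv, mul_inv_cancel_left, inv_mul_cancel_left, mul_inv_cancel, inv_mul_cancel, mul_one, one_mul, inv_one, C]),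
    o.cv hδ (1) (by simp only [hδ, δinv hδ, δone hδ, D] <;> linear_combination (1) * h3) (by first | (simp only [mul_assoc, mul_inv_rev, inv_inv, mul_inv_cancel_left, inv_mul_cancel_left, mul_inv_cancel, inv_mul_cancel, mul_one, one_mul, inv_one]; done) | simp only [mul_assoc, mul_inv_rev, inv_inv, mul_inv_cancel_left, inv_mul_cancel_left, mul_inv_cancel, inv_mul_cancel, mul_one, one_mul, inv_one, C]) (by first | (simp only [mul_assoc, mul_inv_rev, inv_inv, mul_inv_cancel_left, inv_mul_cancel_left, mul_inv_cancel, inv_mul_cancel, mul_one, one_mul, inv_one]; done) | simp only [mul_assoc, mul_inv_rev, inv_inv, mul_inv_cancel_left, inv_mul_cancel_left, mul_inv_cancel, inv_mul_cancel, mul_one, one_mul, inv_one, C]),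
    o.cv hδ (1) (by simp only [hδ, δinv hδ, δone hδ, D] <;> linear_combination (-1) * h3) (by first | (simp only [mul_assoc, mul_inv_rev, inv_inv, mul_inv_cancel_left, inv_mul_cancel_left, mul_inv_cancel, inv_mul_cancel, mul_one, one_mul, inv_one]; done) | simp only [mul_assoc, mul_inv_rev, inv_inv, mul_inv_cancel_left, inv_mul_cancel_left, mul_inv_cancel, inv_mul_cancel, mul_one, one_mul, inv_one, C]) (by first | (simp only [mul_assoc, mul_inv_rev, inv_inv, mul_inv_cancel_left, inv_mul_cancel_left, mul_inv_cancel, inv_mul_cancel, mul_one, one_mul, inv_one]; done) | simp only [mul_assoc, mul_inv_rev, inv_inv, mul_inv_cancel_left, inv_mul_cancel_left, mul_inv_cancel, inv_mul_cancel, mul_one, one_mul, inv_one, C]),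
    o.cv hδ (P * (f1⁻¹ * (P * f1⁻¹))) (by simp only [hδ, δinv hδ, δone hδ, D] <;> linear_combination (0) * h3) (by first | (simp only [mul_assoc, mul_inv_rev, inv_inv, mul_inv_cancel_left, inv_mul_cancel_left, mul_inv_cancel, inv_mul_cancel, mul_one, one_mul, inv_one]; done) | simp only [mul_assoc, mul_inv_rev, inv_inv, mul_inv_cancel_left, inv_mul_cancel_left, mul_inv_cancel, inv_mul_cancel, mul_one, one_mul, inv_one, C]) (by first | (simp only [mul_assoc, mul_inv_rev, inv_inv, mul_inv_cancel_left, inv_mul_cancel_left, mul_inv_cancel, inv_mul_cancel, mul_one, one_mul, inv_one, C1]; done) | simp only [mul_assoc, mul_inv_rev, inv_inv, mul_inv_cancel_left, inv_mul_cancel_left, mul_inv_cancel, inv_mul_cancel, mul_one, one_mul, inv_one, C]),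
    o.cv hδ (f1 * P⁻¹) (by simp only [hδ, δinv hδ, δone hδ, D] <;> linear_combination (0) * h3) (by first | (simp only [mul_assoc, mul_inv_rev, inv_inv, mul_inv_cancel_left, inv_mul_cancel_left, mul_inv_cancel, inv_mul_cancel, mul_one, one_mul, inv_one]; done) | simp only [mul_assoc, mul_inv_rev, inv_inv, mul_inv_cancel_left, inv_mul_cancel_left, mul_inv_cancel, inv_mul_cancel, mul_one, one_mul, inv_one, C]) (by first | (simp only [mul_assoc, mul_inv_rev, inv_inv, mul_inv_cancel_left, inv_mul_cancel_left, mul_inv_cancel, inv_mul_cancel, mul_one, one_mul, inv_one, C1]; done) | simp only [mul_assoc, mul_inv_rev, inv_inv, mul_inv_cancel_left, inv_mul_cancel_left, mul_inv_cancel, inv_mul_cancel, mul_one, one_mul, inv_one, C]),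
    o.cv hδ (1) (by simp only [hδ, δinv hδ, δone hδ, D] <;> linear_combination (0) * h3) (by first | (simp only [mul_assoc, mul_inv_rev, inv_inv, mul_inv_cancel_left, inv_mul_cancel_left, mul_inv_cancel, inv_mul_cancel, mul_one, one_mul, inv_one]; done) | simp only [mul_assoc, mul_inv_rev, inv_inv, mul_inv_cancel_left, inv_mul_cancel_left, mul_inv_cancel, inv_mul_cancel, mul_one, one_mul, inv_one, C]) (by first | (simp only [mul_assoc, mul_inv_rev, inv_inv, mul_inv_cancel_left, inv_mul_cancel_left, mul_inv_cancel, inv_mul_cancel, mul_one, one_mul, inv_one]; done) | simp only [mul_assoc, mul_inv_rev, inv_inv, mul_inv_cancel_left, inv_mul_cancel_left, mul_inv_cancel, inv_mul_cancel, mul_one, one_mul, inv_one, C]),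
    o.cv hδ (1) (by simp only [hδ, δinv hδ, δone hδ, D] <;> linear_combination (0) * h3) (by first | (simp only [mul_assoc, mul_inv_rev, inv_inv, mul_inv_cancel_left, inv_mul_cancel_left, mul_inv_cancel, inv_mul_cancel, mul_one, one_mul, inv_one]; done) | simp only [mul_assoc, mul_inv_rev, inv_inv, mul_inv_cancel_left, inv_mul_cancel_left, mul_inv_cancel, inv_mul_cancel, mul_one, one_mul, inv_one, C]) (by first | (simp only [mul_assoc, mul_inv_rev, inv_inv, mul_inv_cancel_left, inv_mul_cancel_left, mul_inv_cancel, inv_mul_cancel, mul_one, one_mul, inv_one]; done) | simp only [mul_assoc, mul_inv_rev, inv_inv, mul_inv_cancel_left, inv_mul_cancel_left, mul_inv_cancel, inv_mul_cancel, mul_one, one_mul, inv_one, C]),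
    o.cv hδ (1) (by simp only [hδ, δinv hδ, δone hδ, D] <;> linear_combination (0) * h3) (by first | (simp only [mul_assoc, mul_inv_rev, inv_inv, mul_inv_cancel_left, inv_mul_cancel_left, mul_inv_cancel, inv_mul_cancel, mul_one, one_mul, inv_one]; done) | simp only [mul_assoc, mul_inv_rev, inv_inv, mul_inv_cancel_left, inv_mul_cancel_left, mul_inv_cancel, inv_mul_cancel, mul_one, one_mul, inv_one, C]) (by first | (simp only [mul_assoc, mul_inv_rev, inv_inv, mul_inv_cancel_left, inv_mul_cancel_left, mul_inv_cancel, inv_mul_cancel, mul_one, one_mul, inv_one]; done) | simp only [mul_assoc, mul_inv_rev, inv_inv, mul_inv_cancel_left, inv_mul_cancel_left, mul_inv_cancel, inv_mul_cancel, mul_one, one_mul, inv_one, C]),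
    o.cv hδ (1) (by simp only [hδ, δinv hδ, δone hδ, D] <;> linear_combination (0) * h3) (by first | (simp only [mul_assoc, mul_inv_rev, inv_inv, mul_inv_cancel_left, inv_mul_cancel_left, mul_inv_cancel, inv_mul_cancel, mul_one, one_mul, inv_one]; done) | simp only [mul_assoc, mul_inv_rev, inv_inv, mul_inv_cancel_left, inv_mul_cancel_left, mul_inv_cancel, inv_mul_cancel, mul_one, one_mul, inv_one, C]) (by first | (simp only [mul_assoc, mul_inv_rev, inv_inv, mul_inv_cancel_left, inv_mul_cancel_left, mul_inv_cancel, inv_mul_cancel, mul_one, one_mul, inv_one]; done) | simp only [mul_assoc, mul_inv_rev, inv_inv, mul_inv_cancel_left, inv_mul_cancel_left, mul_inv_cancel, inv_mul_cancel, mul_one, one_mul, inv_one, C]),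
    o.cv hδ (1) (by simp only [hδ, δinv hδ, δone hδ, D] <;> linear_combination (0) * h3) (by first | (simp only [mul_assoc, mul_inv_rev, inv_inv, mul_inv_cancel_left, inv_mul_cancel_left, mul_inv_cancel, inv_mul_cancel, mul_one, one_mul, inv_one]; done) | simp only [mul_assoc, mul_inv_rev, inv_inv, mul_inv_cancel_left, inv_mul_cancel_left, mul_inv_cancel, inv_mul_cancel, mul_one, one_mul, inv_one, C]) (by first | (simp only [mul_assoc, mul_inv_rev, inv_inv, mul_inv_cancel_left, inv_mul_cancel_left, mul_inv_cancel, inv_mul_cancel, mul_one, one_mul, inv_one]; done) | simp only [mul_assoc, mul_inv_rev, inv_inv, mul_inv_cancel_left, inv_mul_cancel_left, mul_inv_cancel, inv_mul_cancel, mul_one, one_mul, inv_one, C]),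
    o.cv hδ (1) (by simp only [hδ, δinv hδ, δone hδ, D] <;> linear_combination (0) * h3) (by first | (simp only [mul_assoc, mul_inv_rev, inv_inv, mul_inv_cancel_left, inv_mul_cancel_left, mul_inv_cancel, inv_mul_cancel, mul_one, one_mul, inv_one]; done) | simp only [mul_assoc, mul_inv_rev, inv_inv, mul_inv_cancel_left, inv_mul_cancel_left, mul_inv_cancel, inv_mul_cancel, mul_one, one_mul, inv_one, C]) (by first | (simp only [mul_assoc, mul_inv_rev, inv_inv, mul_inv_cancel_left, inv_mul_cancel_left, mul_inv_cancel, inv_mul_cancel, mul_one, one_mul, inv_one]; done) | simp only [mul_assoc, mul_inv_rev, inv_inv, mul_inv_cancel_left, inv_mul_cancel_left, mul_inv_cancel, inv_mul_cancel, mul_one, one_mul, inv_one, C]),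
    o.cv hδ (1) (by simp only [hδ, δinv hδ, δone hδ, D] <;> linear_combination (0) * h3) (by first | (simp only [mul_assoc, mul_inv_rev, inv_inv, mul_inv_cancel_left, inv_mul_cancel_left, mul_inv_cancel, inv_mul_cancel, mul_one, one_mul, inv_one]; done) | simp only [mul_assoc, mul_inv_rev, inv_inv, mul_inv_cancel_left, inv_mul_cancel_left, mul_inv_cancel, inv_mul_cancel, mul_one, one_mul, inv_one, C]) (by first | (simp only [mul_assoc, mul_inv_rev, inv_inv, mul_inv_cancel_left, inv_mul_cancel_left, mul_inv_cancel, inv_mul_cancel, mul_one, one_mul, inv_one]; done) | simp only [mul_assoc, mul_inv_rev, inv_inv, mul_inv_cancel_left, inv_mul_cancel_left, mul_inv_cancel, inv_mul_cancel, mul_one, one_mul, inv_one, C]),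
    o.cv hδ (1) (by simp only [hδ, δinv hδ, δone hδ, D] <;> linear_combination (0) * h3) (by first | (simp only [mul_assoc, mul_inv_rev, inv_inv, mul_inv_cancel_left, inv_mul_cancel_left, mul_inv_cancel, inv_mul_cancel, mul_one, one_mul, inv_one]; done) | simp only [mul_assoc, mul_inv_rev, inv_inv, mul_inv_cancel_left, inv_mul_cancel_left, mul_inv_cancel, inv_mul_cancel, mul_one, one_mul, inv_one, C]) (by first | (simp only [mul_assoc, mul_inv_rev, inv_inv, mul_inv_cancel_left, inv_mul_cancel_left, mul_inv_cancel, inv_mul_cancel, mul_one, one_mul, inv_one]; done) | simp only [mul_assoc, mul_inv_rev, inv_inv, mul_inv_cancel_left, inv_mul_cancel_left, mul_inv_cancel, inv_mul_cancel, mul_one, one_mul, inv_one, C]),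
    o.cv hδ (1) (by simp only [hδ, δinv hδ, δone hδ, D] <;> linear_combination (0) * h3) (by first | (simp only [mul_assoc, mul_inv_rev, inv_inv, mul_inv_cancel_left, inv_mul_cancel_left, mul_inv_cancel, inv_mul_cancel, mul_one, one_mul, inv_one]; done) | simp only [mul_assoc, mul_inv_rev, inv_inv, mul_inv_cancel_left, inv_mul_cancel_left, mul_inv_cancel, inv_mul_cancel, mul_one, one_mul, inv_one, C]) (by first | (simp only [mul_assoc, mul_inv_rev, inv_inv, mul_inv_cancel_left, inv_mul_cancel_left, mul_inv_cancel, inv_mul_cancel, mul_one, one_mul, inv_one]; done) | simp only [mul_assoc, mul_inv_rev, inv_inv, mul_inv_cancel_left, inv_mul_cancel_left, mul_inv_cancel, inv_mul_cancel, mul_one, one_mul, inv_one, C]),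
    o.cv hδ (1) (by simp only [hδ, δinv hδ, δone hδ, D] <;> linear_combination (0) * h3) (by first | (simp only [mul_assoc, mul_inv_rev, inv_inv, mul_inv_cancel_left, inv_mul_cancel_left, mul_inv_cancel, inv_mul_cancel, mul_one, one_mul, inv_one]; done) | simp only [mul_assoc, mul_inv_rev, inv_inv, mul_inv_cancel_left, inv_mul_cancel_left, mul_inv_cancel, inv_mul_cancel, mul_one, one_mul, inv_one, C]) (by first | (simp only [mul_assoc, mul_inv_rev, inv_inv, mul_inv_cancel_left, inv_mul_cancel_left, mul_inv_cancel, inv_mul_cancel, mul_one, one_mul, inv_one]; done) | simp only [mul_assoc, mul_inv_rev, inv_inv, mul_inv_cancel_left, inv_mul_cancel_left, mul_inv_cancel, inv_mul_cancel, mul_one, one_mul, inv_one, C]),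
    o.cv hδ (1) (by simp only [hδ, δinv hδ, δone hδ, D] <;> linear_combination (0) * h3) (by first | (simp only [mul_assoc, mul_inv_rev, inv_inv, mul_inv_cancel_left, inv_mul_cancel_left, mul_inv_cancel, inv_mul_cancel, mul_one, one_mul, inv_one]; done) | simp only [mul_assoc, mul_inv_rev, inv_inv, mul_inv_cancel_left, inv_mul_cancel_left, mul_inv_cancel, inv_mul_cancel, mul_one, one_mul, inv_one, C]) (by first | (simp only [mul_assoc, mul_inv_rev, inv_inv, mul_inv_cancel_left, inv_mul_cancel_left, mul_inv_cancel, inv_mul_cancel, mul_one, one_mul, inv_one]; done) | simp only [mul_assoc, mul_inv_rev, inv_inv, mul_inv_cancel_left, inv_mul_cancel_left, mul_inv_cancel, inv_mul_cancel, mul_one, one_mul, inv_one, C])⟩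

theorem close_AC_k2 {G : Type*} [Group G] {δ : G → ZMod 3} (hδ : ∀ u v, δ (u * v) = δ u + δ v) (o : Pre δ)
    {P Q f0 f1 : G} {e : ZMod 3} (h3 : 3 * e = 0)
    (D : δ P = e ∧ δ Q = -e ∧ δ f0 = 0 ∧ δ f1 = 0)
    (C : Cube P f0 ∧ Cube P f1 ∧ Cube Q f0 ∧ Cube Q f1) :
    (o.lt (P * f0⁻¹) (Q * P⁻¹) ↔ o.lt (f0 * P⁻¹) (Q * f0⁻¹)) ∧
    (o.lt (f1 * Q⁻¹) (P * f1⁻¹) ↔ o.lt (Q * f1⁻¹) (P * Q⁻¹)) ∧
    (o.lt (P * f0⁻¹) (f0 * Q⁻¹) ↔ o.lt (P * Q⁻¹) (Q * f0⁻¹)) ∧
    (o.lt (f0 * P⁻¹) (f1 * P⁻¹) ↔ o.lt (f0) (f1)) := by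
  have C' := C
  obtain ⟨C0, C1, C2, C3⟩ := C'
  simp only [Cube] at C C0 C1 C2 C3
  exact ⟨o.cv hδ (f0 * (P⁻¹ * (f0 * P⁻¹))) (by simp only [hδ, δinv hδ, δone hδ, D] <;> linear_combination (1) * h3) (by first | (simp only [mul_assoc, mul_inv_rev, inv_inv, mul_inv_cancel_left, inv_mul_cancel_left, mul_inv_cancel, inv_mul_cancel, mul_one, one_mul, inv_one]; done) | simp only [mul_assoc, mul_inv_rev, inv_inv, mul_inv_cancel_left, inv_mul_cancel_left, mul_inv_cancel, inv_mul_cancel, mul_one, one_mul, inv_one, C]) (by first | (simp only [mul_assoc, mul_inv_rev, inv_inv, mul_inv_cancel_left, inv_mul_cancel_left, mul_inv_cancel, inv_mul_cancel, mul_one, one_mul, inv_one, C0]; done) | simp only [mul_assoc, mul_inv_rev, inv_inv, mul_inv_cancel_left, inv_mul_cancel_left, mul_inv_cancel, inv_mul_cancel, mul_one, one_mul, inv_one, C]),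
    o.cv hδ (Q * (f1⁻¹ * (Q * f1⁻¹))) (by simp only [hδ, δinv hδ, δone hδ, D] <;> linear_combination (0) * h3) (by first | (simp only [mul_assoc, mul_inv_rev, inv_inv, mul_inv_cancel_left, inv_mul_cancel_left, mul_inv_cancel, inv_mul_cancel, mul_one, one_mul, inv_one]; done) | simp only [mul_assoc, mul_inv_rev, inv_inv, mul_inv_cancel_left, inv_mul_cancel_left, mul_inv_cancel, inv_mul_cancel, mul_one, one_mul, inv_one, C]) (by first | (simp only [mul_assoc, mul_inv_rev, inv_inv, mul_inv_cancel_left, inv_mul_cancel_left, mul_inv_cancel, inv_mul_cancel, mul_one, one_mul, inv_one, C3]; done) | simp only [mul_assoc, mul_inv_rev, inv_inv, mul_inv_cancel_left, inv_mul_cancel_left, mul_inv_cancel, inv_mul_cancel, mul_one, one_mul, inv_one, C]),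
    o.cv hδ (f0 * Q⁻¹) (by simp only [hδ, δinv hδ, δone hδ, D] <;> linear_combination (0) * h3) (by first | (simp only [mul_assoc, mul_inv_rev, inv_inv, mul_inv_cancel_left, inv_mul_cancel_left, mul_inv_cancel, inv_mul_cancel, mul_one, one_mul, inv_one]; done) | simp only [mul_assoc, mul_inv_rev, inv_inv, mul_inv_cancel_left, inv_mul_cancel_left, mul_inv_cancel, inv_mul_cancel, mul_one, one_mul, inv_one, C]) (by first | (simp only [mul_assoc, mul_inv_rev, inv_inv, mul_inv_cancel_left, inv_mul_cancel_left, mul_inv_cancel, inv_mul_cancel, mul_one, one_mul, inv_one, C2]; done) | simp only [mul_assoc, mul_inv_rev, inv_inv, mul_inv_cancel_left, inv_mul_cancel_left, mul_inv_cancel, inv_mul_cancel, mul_one, one_mul, inv_one, C]),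
    o.cv hδ (P) (by simp only [hδ, δinv hδ, δone hδ, D] <;> linear_combination (0) * h3) (by first | (simp only [mul_assoc, mul_inv_rev, inv_inv, mul_inv_cancel_left, inv_mul_cancel_left, mul_inv_cancel, inv_mul_cancel, mul_one, one_mul, inv_one]; done) | simp only [mul_assoc, mul_inv_rev, inv_inv, mul_inv_cancel_left, inv_mul_cancel_left, mul_inv_cancel, inv_mul_cancel, mul_one, one_mul, inv_one, C]) (by first | (simp only [mul_assoc, mul_inv_rev, inv_inv, mul_inv_cancel_left, inv_mul_cancel_left, mul_inv_cancel, inv_mul_cancel, mul_one, one_mul, inv_one]; done) | simp only [mul_assoc, mul_inv_rev, inv_inv, mul_inv_cancel_left, inv_mul_cancel_left, mul_inv_cancel, inv_mul_cancel, mul_one, one_mul, inv_one, C])⟩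

theorem close_AC {G : Type*} [Group G] {δ : G → ZMod 3} (hδ : ∀ u v, δ (u * v) = δ u + δ v) (o : Pre δ)
    {P Q f0 f1 : G} {e : ZMod 3} (h3 : 3 * e = 0)
    (D : δ P = e ∧ δ Q = -e ∧ δ f0 = 0 ∧ δ f1 = 0)
    (C : Cube P f0 ∧ Cube P f1 ∧ Cube Q f0 ∧ Cube Q f1)
    (N0 : RA o P Q f0 f1)
    (N1 : RC o P Q f1 f0)
    (g0 : o.lt f0 f1) : False := by
  obtain ⟨k0, k1, k2, k3, k4, k5, k6, k7, k8, k9, k10, k11, k12, k13, k14, k15, k16, k17, k18, k19⟩ := close_AC_k0 hδ o h3 D C
  obtain ⟨k20, k21, k22, k23, k24, k25, k26, k27, k28, k29, k30, k31, k32, k33, k34, k35, k36, k37, k38, k39⟩ := close_AC_k1 hδ o h3 D C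
  obtain ⟨k40, k41, k42, k43⟩ := close_AC_k2 hδ o h3 D C
  exact close_AC_prop
    (fun b0 b1 b2 => N0.rd.r1 1 (fun h => b0 (k0.2 h)) (fun h => b1 (k1.2 h)) (k2.1 b2))
    (fun b0 b1 b2 => N0.r.r0 1 (fun h => b0 (k3.2 h)) (k1.1 b1) (fun h => b2 (k4.2 h)))
    (fun b0 b1 b2 => N0.rd.r0 1 (fun h => b0 (k5.2 h)) (k6.1 b1) (fun h => b2 (k2.2 h)))
    (fun b0 b1 b2 => N0.i.r0 1 (fun h => b0 (k7.2 h)) (k8.1 b1) (fun h => b2 (k9.2 h)))
    (fun b0 b1 b2 => N0.d.r0 1 (fun h => b0 (k10.2 h)) (k11.1 b1) (fun h => b2 (k12.2 h)))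
    (fun b0 b1 b2 => N0.i.r1 1 (fun h => b0 (k13.2 h)) (fun h => b1 (k11.2 h)) (k9.1 b2))
    (fun b0 b1 b2 => N1.r.r0 1 (k14.1 b0) (fun h => b1 (k6.2 h)) (fun h => b2 (k15.2 h)))
    (fun b0 b1 b2 b3 => N1.d.r2 1 (fun h => b0 (k7.2 h)) (k16.1 b1) (fun h => b2 (k8.2 h)) (fun h => b3 (k17.2 h)))
    (fun b0 b1 b2 b3 => N1.r.r2 1 (fun h => b0 (k5.2 h)) (k18.1 b1) (fun h => b2 (k6.2 h)) (fun h => b3 (k17.2 h)))
    (fun b0 b1 => o.asym (k19.1 b0) (k20.1 b1))
    (fun b0 b1 b2 => o.tri (k19.1 b0) (fun h => b1 (k21.2 h)) (fun h => b2 (k22.2 h)))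
    (fun b0 b1 => o.asym (k23.1 b0) (k24.1 b1))
    (fun b0 b1 => o.asym (k25.1 b0) (k26.1 b1))
    (fun b0 b1 => o.asym (k27.1 b0) (k28.1 b1))
    (fun b0 b1 b2 => o.tri (k29.1 b0) (fun h => b1 (k22.2 h)) (fun h => b2 (k20.2 h)))
    (fun b0 b1 b2 => o.tri (k30.1 b0) (fun h => b1 (k24.2 h)) (fun h => b2 (k19.2 h)))
    (fun b0 b1 b2 => o.tri (k31.1 b0) (fun h => b1 (k24.2 h)) (fun h => b2 (k21.2 h)))
    (fun b0 b1 b2 => o.tri (k28.1 b0) (fun h => b1 (k26.2 h)) (fun h => b2 (k19.2 h)))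
    (fun b0 b1 => o.asym (k32.1 b0) (k33.1 b1))
    (fun b0 b1 => o.asym (k34.1 b0) (k35.1 b1))
    (fun b0 b1 => o.asym (k36.1 b0) (k37.1 b1))
    (fun b0 b1 b2 => o.tri (k35.1 b0) (fun h => b1 (k38.2 h)) (fun h => b2 (k33.2 h)))
    (fun b0 b1 b2 => o.tri (k38.1 b0) (fun h => b1 (k37.2 h)) (fun h => b2 (k39.2 h)))
    (fun b0 b1 b2 => o.tri (k37.1 b0) (fun h => b1 (k35.2 h)) (fun h => b2 (k40.2 h)))
    (fun b0 b1 b2 => o.tri (k37.1 b0) (fun h => b1 (k41.2 h)) (fun h => b2 (k42.2 h)))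
    (k43.2 g0)

theorem close_EE_prop {A1 A2 A3 A4 A5 A6 A7 A8 A9 A10 A11 A12 : Prop}
    (c0 : A2 → ¬ A3 → False)
    (c1 : ¬ A4 → A5 → ¬ A8 → False)
    (c2 : A3 → ¬ A2 → False)
    (c3 : ¬ A6 → A1 → ¬ A12 → False)
    (c4 : ¬ A1 → ¬ A11 → A7 → False)
    (c5 : A7 → ¬ A10 → False)
    (c6 : ¬ A3 → A5 → ¬ A8 → False)
    (c7 : ¬ A2 → A1 → ¬ A12 → False)
    (c8 : ¬ A5 → ¬ A9 → A10 → False)
    (c9 : A2 → A4 → False)
    (c10 : A3 → A6 → False)
    (c11 : A7 → A8 → False)
    (c12 : A9 → A11 → False)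
    (c13 : A10 → A12 → False)
    (u0 : A7)
    : False := by
  have q1 : A10 := Classical.byContradiction fun h => c5 u0 h
  have q2 : ¬ A8 := fun h => c11 u0 h
  have q3 : ¬ A12 := fun h => c13 q1 h
  rcases Classical.em A2 with q4 | q4
  · have q5 : A3 := Classical.byContradiction fun h => c0 q4 h
    have q6 : ¬ A4 := fun h => c9 q4 h
    have q7 : ¬ A5 := fun h => c1 q6 h q2
    have q8 : A9 := Classical.byContradiction fun h => c8 q7 h q1
    have q9 : ¬ A6 := fun h => c10 q5 h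
    have q10 : ¬ A1 := fun h => c3 q9 h q3
    have q11 : A11 := Classical.byContradiction fun h => c4 q10 h u0
    exact c12 q8 q11
  · have q12 : ¬ A3 := fun h => c2 h q4
    have q13 : ¬ A5 := fun h => c6 q12 h q2
    have q14 : ¬ A1 := fun h => c7 q4 h q3
    have q15 : A11 := Classical.byContradiction fun h => c4 q14 h u0
    have q16 : A9 := Classical.byContradiction fun h => c8 q13 h q1
    exact c12 q16 q15

theorem close_EE_k0 {G : Type*} [Group G] {δ : G → ZMod 3} (hδ : ∀ u v, δ (u * v) = δ u + δ v) (o : Pre δ)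
    {P Q f0 f1 : G} {e : ZMod 3} (h3 : 3 * e = 0)
    (D : δ P = e ∧ δ Q = e ∧ δ f0 = 0 ∧ δ f1 = 0)
    (C : Cube P f0 ∧ Cube P f1 ∧ Cube Q f0 ∧ Cube Q f1) :
    (o.lt (P * f0⁻¹) (Q * f0⁻¹) ↔ o.lt (1 * (P * f0⁻¹)) (1 * (Q * f0⁻¹))) ∧
    (o.lt (P * f1⁻¹) (Q * f1⁻¹) ↔ o.lt (1 * (P * f1⁻¹)) (1 * (Q * f1⁻¹))) ∧
    (o.lt (Q * f0⁻¹) (P * f0⁻¹) ↔ o.lt (1 * (Q * f0⁻¹)) (1 * (P * f0⁻¹))) ∧
    (o.lt (Q * f0⁻¹) (Q * f1⁻¹) ↔ o.lt (1 * (Q * f0⁻¹)) (1 * (Q * f1⁻¹))) ∧
    (o.lt (f1 * P⁻¹) (f0 * P⁻¹) ↔ o.lt (1 * (P * f1⁻¹)⁻¹) (1 * (P * f0⁻¹)⁻¹)) ∧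
    (o.lt (Q * f1⁻¹) (P * f1⁻¹) ↔ o.lt (1 * (Q * f1⁻¹)) (1 * (P * f1⁻¹))) ∧
    (o.lt (P * f0⁻¹) (P * f1⁻¹) ↔ o.lt (1 * (P * f0⁻¹)) (1 * (P * f1⁻¹))) ∧
    (o.lt (f1 * Q⁻¹) (f0 * Q⁻¹) ↔ o.lt (1 * (Q * f1⁻¹)⁻¹) (1 * (Q * f0⁻¹)⁻¹)) ∧
    (o.lt (f1 * Q⁻¹) (f1 * P⁻¹) ↔ o.lt (1 * (Q * f1⁻¹)⁻¹) (1 * (P * f1⁻¹)⁻¹)) ∧
    (o.lt (f0 * P⁻¹) (f1 * P⁻¹) ↔ o.lt (1 * (P * f0⁻¹)⁻¹) (1 * (P * f1⁻¹)⁻¹)) ∧
    (o.lt (f0 * Q⁻¹) (f1 * Q⁻¹) ↔ o.lt (1 * (Q * f0⁻¹)⁻¹) (1 * (Q * f1⁻¹)⁻¹)) ∧
    (o.lt (f1 * P⁻¹) (f1 * Q⁻¹) ↔ o.lt (1 * (P * f1⁻¹)⁻¹) (1 * (Q * f1⁻¹)⁻¹)) ∧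
    (o.lt (P * f0⁻¹) (Q * f0⁻¹) ↔ o.lt (P * f0⁻¹) (Q * f0⁻¹)) ∧
    (o.lt (Q * f0⁻¹) (P * f0⁻¹) ↔ o.lt (Q * f0⁻¹) (P * f0⁻¹)) ∧
    (o.lt (P * f1⁻¹) (Q * f1⁻¹) ↔ o.lt (P * f1⁻¹) (Q * f1⁻¹)) ∧
    (o.lt (Q * f1⁻¹) (P * f1⁻¹) ↔ o.lt (Q * f1⁻¹) (P * f1⁻¹)) ∧
    (o.lt (f0 * P⁻¹) (f1 * P⁻¹) ↔ o.lt (f0 * P⁻¹) (f1 * P⁻¹)) ∧
    (o.lt (f1 * P⁻¹) (f0 * P⁻¹) ↔ o.lt (f1 * P⁻¹) (f0 * P⁻¹)) ∧
    (o.lt (f1 * P⁻¹) (f1 * Q⁻¹) ↔ o.lt (f1 * P⁻¹) (f1 * Q⁻¹)) ∧
    (o.lt (f1 * Q⁻¹) (f1 * P⁻¹) ↔ o.lt (f1 * Q⁻¹) (f1 * P⁻¹)) := by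
  have C' := C
  obtain ⟨C0, C1, C2, C3⟩ := C'
  simp only [Cube] at C C0 C1 C2 C3
  exact ⟨o.cv hδ (1) (by simp only [hδ, δinv hδ, δone hδ, D] <;> linear_combination (0) * h3) (by first | (simp only [mul_assoc, mul_inv_rev, inv_inv, mul_inv_cancel_left, inv_mul_cancel_left, mul_inv_cancel, inv_mul_cancel, mul_one, one_mul, inv_one]; done) | simp only [mul_assoc, mul_inv_rev, inv_inv, mul_inv_cancel_left, inv_mul_cancel_left, mul_inv_cancel, inv_mul_cancel, mul_one, one_mul, inv_one, C]) (by first | (simp only [mul_assoc, mul_inv_rev, inv_inv, mul_inv_cancel_left, inv_mul_cancel_left, mul_inv_cancel, inv_mul_cancel, mul_one, one_mul, inv_one]; done) | simp only [mul_assoc, mul_inv_rev, inv_inv, mul_inv_cancel_left, inv_mul_cancel_left, mul_inv_cancel, inv_mul_cancel, mul_one, one_mul, inv_one, C]),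
    o.cv hδ (1) (by simp only [hδ, δinv hδ, δone hδ, D] <;> linear_combination (0) * h3) (by first | (simp only [mul_assoc, mul_inv_rev, inv_inv, mul_inv_cancel_left, inv_mul_cancel_left, mul_inv_cancel, inv_mul_cancel, mul_one, one_mul, inv_one]; done) | simp only [mul_assoc, mul_inv_rev, inv_inv, mul_inv_cancel_left, inv_mul_cancel_left, mul_inv_cancel, inv_mul_cancel, mul_one, one_mul, inv_one, C]) (by first | (simp only [mul_assoc, mul_inv_rev, inv_inv, mul_inv_cancel_left, inv_mul_cancel_left, mul_inv_cancel, inv_mul_cancel, mul_one, one_mul, inv_one]; done) | simp only [mul_assoc, mul_inv_rev, inv_inv, mul_inv_cancel_left, inv_mul_cancel_left, mul_inv_cancel, inv_mul_cancel, mul_one, one_mul, inv_one, C]),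
    o.cv hδ (1) (by simp only [hδ, δinv hδ, δone hδ, D] <;> linear_combination (0) * h3) (by first | (simp only [mul_assoc, mul_inv_rev, inv_inv, mul_inv_cancel_left, inv_mul_cancel_left, mul_inv_cancel, inv_mul_cancel, mul_one, one_mul, inv_one]; done) | simp only [mul_assoc, mul_inv_rev, inv_inv, mul_inv_cancel_left, inv_mul_cancel_left, mul_inv_cancel, inv_mul_cancel, mul_one, one_mul, inv_one, C]) (by first | (simp only [mul_assoc, mul_inv_rev, inv_inv, mul_inv_cancel_left, inv_mul_cancel_left, mul_inv_cancel, inv_mul_cancel, mul_one, one_mul, inv_one]; done) | simp only [mul_assoc, mul_inv_rev, inv_inv, mul_inv_cancel_left, inv_mul_cancel_left, mul_inv_cancel, inv_mul_cancel, mul_one, one_mul, inv_one, C]),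
    o.cv hδ (1) (by simp only [hδ, δinv hδ, δone hδ, D] <;> linear_combination (0) * h3) (by first | (simp only [mul_assoc, mul_inv_rev, inv_inv, mul_inv_cancel_left, inv_mul_cancel_left, mul_inv_cancel, inv_mul_cancel, mul_one, one_mul, inv_one]; done) | simp only [mul_assoc, mul_inv_rev, inv_inv, mul_inv_cancel_left, inv_mul_cancel_left, mul_inv_cancel, inv_mul_cancel, mul_one, one_mul, inv_one, C]) (by first | (simp only [mul_assoc, mul_inv_rev, inv_inv, mul_inv_cancel_left, inv_mul_cancel_left, mul_inv_cancel, inv_mul_cancel, mul_one, one_mul, inv_one]; done) | simp only [mul_assoc, mul_inv_rev, inv_inv, mul_inv_cancel_left, inv_mul_cancel_left, mul_inv_cancel, inv_mul_cancel, mul_one, one_mul, inv_one, C]),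
    o.cv hδ (1) (by simp only [hδ, δinv hδ, δone hδ, D] <;> linear_combination (0) * h3) (by first | (simp only [mul_assoc, mul_inv_rev, inv_inv, mul_inv_cancel_left, inv_mul_cancel_left, mul_inv_cancel, inv_mul_cancel, mul_one, one_mul, inv_one]; done) | simp only [mul_assoc, mul_inv_rev, inv_inv, mul_inv_cancel_left, inv_mul_cancel_left, mul_inv_cancel, inv_mul_cancel, mul_one, one_mul, inv_one, C]) (by first | (simp only [mul_assoc, mul_inv_rev, inv_inv, mul_inv_cancel_left, inv_mul_cancel_left, mul_inv_cancel, inv_mul_cancel, mul_one, one_mul, inv_one]; done) | simp only [mul_assoc, mul_inv_rev, inv_inv, mul_inv_cancel_left, inv_mul_cancel_left, mul_inv_cancel, inv_mul_cancel, mul_one, one_mul, inv_one, C]),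
    o.cv hδ (1) (by simp only [hδ, δinv hδ, δone hδ, D] <;> linear_combination (0) * h3) (by first | (simp only [mul_assoc, mul_inv_rev, inv_inv, mul_inv_cancel_left, inv_mul_cancel_left, mul_inv_cancel, inv_mul_cancel, mul_one, one_mul, inv_one]; done) | simp only [mul_assoc, mul_inv_rev, inv_inv, mul_inv_cancel_left, inv_mul_cancel_left, mul_inv_cancel, inv_mul_cancel, mul_one, one_mul, inv_one, C]) (by first | (simp only [mul_assoc, mul_inv_rev, inv_inv, mul_inv_cancel_left, inv_mul_cancel_left, mul_inv_cancel, inv_mul_cancel, mul_one, one_mul, inv_one]; done) | simp only [mul_assoc, mul_inv_rev, inv_inv, mul_inv_cancel_left, inv_mul_cancel_left, mul_inv_cancel, inv_mul_cancel, mul_one, one_mul, inv_one, C]),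
    o.cv hδ (1) (by simp only [hδ, δinv hδ, δone hδ, D] <;> linear_combination (0) * h3) (by first | (simp only [mul_assoc, mul_inv_rev, inv_inv, mul_inv_cancel_left, inv_mul_cancel_left, mul_inv_cancel, inv_mul_cancel, mul_one, one_mul, inv_one]; done) | simp only [mul_assoc, mul_inv_rev, inv_inv, mul_inv_cancel_left, inv_mul_cancel_left, mul_inv_cancel, inv_mul_cancel, mul_one, one_mul, inv_one, C]) (by first | (simp only [mul_assoc, mul_inv_rev, inv_inv, mul_inv_cancel_left, inv_mul_cancel_left, mul_inv_cancel, inv_mul_cancel, mul_one, one_mul, inv_one]; done) | simp only [mul_assoc, mul_inv_rev, inv_inv, mul_inv_cancel_left, inv_mul_cancel_left, mul_inv_cancel, inv_mul_cancel, mul_one, one_mul, inv_one, C]),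
    o.cv hδ (1) (by simp only [hδ, δinv hδ, δone hδ, D] <;> linear_combination (0) * h3) (by first | (simp only [mul_assoc, mul_inv_rev, inv_inv, mul_inv_cancel_left, inv_mul_cancel_left, mul_inv_cancel, inv_mul_cancel, mul_one, one_mul, inv_one]; done) | simp only [mul_assoc, mul_inv_rev, inv_inv, mul_inv_cancel_left, inv_mul_cancel_left, mul_inv_cancel, inv_mul_cancel, mul_one, one_mul, inv_one, C]) (by first | (simp only [mul_assoc, mul_inv_rev, inv_inv, mul_inv_cancel_left, inv_mul_cancel_left, mul_inv_cancel, inv_mul_cancel, mul_one, one_mul, inv_one]; done) | simp only [mul_assoc, mul_inv_rev, inv_inv, mul_inv_cancel_left, inv_mul_cancel_left, mul_inv_cancel, inv_mul_cancel, mul_one, one_mul, inv_one, C]),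
    o.cv hδ (1) (by simp only [hδ, δinv hδ, δone hδ, D] <;> linear_combination (0) * h3) (by first | (simp only [mul_assoc, mul_inv_rev, inv_inv, mul_inv_cancel_left, inv_mul_cancel_left, mul_inv_cancel, inv_mul_cancel, mul_one, one_mul, inv_one]; done) | simp only [mul_assoc, mul_inv_rev, inv_inv, mul_inv_cancel_left, inv_mul_cancel_left, mul_inv_cancel, inv_mul_cancel, mul_one, one_mul, inv_one, C]) (by first | (simp only [mul_assoc, mul_inv_rev, inv_inv, mul_inv_cancel_left, inv_mul_cancel_left, mul_inv_cancel, inv_mul_cancel, mul_one, one_mul, inv_one]; done) | simp only [mul_assoc, mul_inv_rev, inv_inv, mul_inv_cancel_left, inv_mul_cancel_left, mul_inv_cancel, inv_mul_cancel, mul_one, one_mul, inv_one, C]),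
    o.cv hδ (1) (by simp only [hδ, δinv hδ, δone hδ, D] <;> linear_combination (0) * h3) (by first | (simp only [mul_assoc, mul_inv_rev, inv_inv, mul_inv_cancel_left, inv_mul_cancel_left, mul_inv_cancel, inv_mul_cancel, mul_one, one_mul, inv_one]; done) | simp only [mul_assoc, mul_inv_rev, inv_inv, mul_inv_cancel_left, inv_mul_cancel_left, mul_inv_cancel, inv_mul_cancel, mul_one, one_mul, inv_one, C]) (by first | (simp only [mul_assoc, mul_inv_rev, inv_inv, mul_inv_cancel_left, inv_mul_cancel_left, mul_inv_cancel, inv_mul_cancel, mul_one, one_mul, inv_one]; done) | simp only [mul_assoc, mul_inv_rev, inv_inv, mul_inv_cancel_left, inv_mul_cancel_left, mul_inv_cancel, inv_mul_cancel, mul_one, one_mul, inv_one, C]),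
    o.cv hδ (1) (by simp only [hδ, δinv hδ, δone hδ, D] <;> linear_combination (0) * h3) (by first | (simp only [mul_assoc, mul_inv_rev, inv_inv, mul_inv_cancel_left, inv_mul_cancel_left, mul_inv_cancel, inv_mul_cancel, mul_one, one_mul, inv_one]; done) | simp only [mul_assoc, mul_inv_rev, inv_inv, mul_inv_cancel_left, inv_mul_cancel_left, mul_inv_cancel, inv_mul_cancel, mul_one, one_mul, inv_one, C]) (by first | (simp only [mul_assoc, mul_inv_rev, inv_inv, mul_inv_cancel_left, inv_mul_cancel_left, mul_inv_cancel, inv_mul_cancel, mul_one, one_mul, inv_one]; done) | simp only [mul_assoc, mul_inv_rev, inv_inv, mul_inv_cancel_left, inv_mul_cancel_left, mul_inv_cancel, inv_mul_cancel, mul_one, one_mul, inv_one, C]),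
    o.cv hδ (1) (by simp only [hδ, δinv hδ, δone hδ, D] <;> linear_combination (0) * h3) (by first | (simp only [mul_assoc, mul_inv_rev, inv_inv, mul_inv_cancel_left, inv_mul_cancel_left, mul_inv_cancel, inv_mul_cancel, mul_one, one_mul, inv_one]; done) | simp only [mul_assoc, mul_inv_rev, inv_inv, mul_inv_cancel_left, inv_mul_cancel_left, mul_inv_cancel, inv_mul_cancel, mul_one, one_mul, inv_one, C]) (by first | (simp only [mul_assoc, mul_inv_rev, inv_inv, mul_inv_cancel_left, inv_mul_cancel_left, mul_inv_cancel, inv_mul_cancel, mul_one, one_mul, inv_one]; done) | simp only [mul_assoc, mul_inv_rev, inv_inv, mul_inv_cancel_left, inv_mul_cancel_left, mul_inv_cancel, inv_mul_cancel, mul_one, one_mul, inv_one, C]),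
    o.cv hδ (1) (by simp only [hδ, δinv hδ, δone hδ, D] <;> linear_combination (0) * h3) (by first | (simp only [mul_assoc, mul_inv_rev, inv_inv, mul_inv_cancel_left, inv_mul_cancel_left, mul_inv_cancel, inv_mul_cancel, mul_one, one_mul, inv_one]; done) | simp only [mul_assoc, mul_inv_rev, inv_inv, mul_inv_cancel_left, inv_mul_cancel_left, mul_inv_cancel, inv_mul_cancel, mul_one, one_mul, inv_one, C]) (by first | (simp only [mul_assoc, mul_inv_rev, inv_inv, mul_inv_cancel_left, inv_mul_cancel_left, mul_inv_cancel, inv_mul_cancel, mul_one, one_mul, inv_one]; done) | simp only [mul_assoc, mul_inv_rev, inv_inv, mul_inv_cancel_left, inv_mul_cancel_left, mul_inv_cancel, inv_mul_cancel, mul_one, one_mul, inv_one, C]),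
    o.cv hδ (1) (by simp only [hδ, δinv hδ, δone hδ, D] <;> linear_combination (0) * h3) (by first | (simp only [mul_assoc, mul_inv_rev, inv_inv, mul_inv_cancel_left, inv_mul_cancel_left, mul_inv_cancel, inv_mul_cancel, mul_one, one_mul, inv_one]; done) | simp only [mul_assoc, mul_inv_rev, inv_inv, mul_inv_cancel_left, inv_mul_cancel_left, mul_inv_cancel, inv_mul_cancel, mul_one, one_mul, inv_one, C]) (by first | (simp only [mul_assoc, mul_inv_rev, inv_inv, mul_inv_cancel_left, inv_mul_cancel_left, mul_inv_cancel, inv_mul_cancel, mul_one, one_mul, inv_one]; done) | simp only [mul_assoc, mul_inv_rev, inv_inv, mul_inv_cancel_left, inv_mul_cancel_left, mul_inv_cancel, inv_mul_cancel, mul_one, one_mul, inv_one, C]),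
    o.cv hδ (1) (by simp only [hδ, δinv hδ, δone hδ, D] <;> linear_combination (0) * h3) (by first | (simp only [mul_assoc, mul_inv_rev, inv_inv, mul_inv_cancel_left, inv_mul_cancel_left, mul_inv_cancel, inv_mul_cancel, mul_one, one_mul, inv_one]; done) | simp only [mul_assoc, mul_inv_rev, inv_inv, mul_inv_cancel_left, inv_mul_cancel_left, mul_inv_cancel, inv_mul_cancel, mul_one, one_mul, inv_one, C]) (by first | (simp only [mul_assoc, mul_inv_rev, inv_inv, mul_inv_cancel_left, inv_mul_cancel_left, mul_inv_cancel, inv_mul_cancel, mul_one, one_mul, inv_one]; done) | simp only [mul_assoc, mul_inv_rev, inv_inv, mul_inv_cancel_left, inv_mul_cancel_left, mul_inv_cancel, inv_mul_cancel, mul_one, one_mul, inv_one, C]),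
    o.cv hδ (1) (by simp only [hδ, δinv hδ, δone hδ, D] <;> linear_combination (0) * h3) (by first | (simp only [mul_assoc, mul_inv_rev, inv_inv, mul_inv_cancel_left, inv_mul_cancel_left, mul_inv_cancel, inv_mul_cancel, mul_one, one_mul, inv_one]; done) | simp only [mul_assoc, mul_inv_rev, inv_inv, mul_inv_cancel_left, inv_mul_cancel_left, mul_inv_cancel, inv_mul_cancel, mul_one, one_mul, inv_one, C]) (by first | (simp only [mul_assoc, mul_inv_rev, inv_inv, mul_inv_cancel_left, inv_mul_cancel_left, mul_inv_cancel, inv_mul_cancel, mul_one, one_mul, inv_one]; done) | simp only [mul_assoc, mul_inv_rev, inv_inv, mul_inv_cancel_left, inv_mul_cancel_left, mul_inv_cancel, inv_mul_cancel, mul_one, one_mul, inv_one, C]),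
    o.cv hδ (1) (by simp only [hδ, δinv hδ, δone hδ, D] <;> linear_combination (0) * h3) (by first | (simp only [mul_assoc, mul_inv_rev, inv_inv, mul_inv_cancel_left, inv_mul_cancel_left, mul_inv_cancel, inv_mul_cancel, mul_one, one_mul, inv_one]; done) | simp only [mul_assoc, mul_inv_rev, inv_inv, mul_inv_cancel_left, inv_mul_cancel_left, mul_inv_cancel, inv_mul_cancel, mul_one, one_mul, inv_one, C]) (by first | (simp only [mul_assoc, mul_inv_rev, inv_inv, mul_inv_cancel_left, inv_mul_cancel_left, mul_inv_cancel, inv_mul_cancel, mul_one, one_mul, inv_one]; done) | simp only [mul_assoc, mul_inv_rev, inv_inv, mul_inv_cancel_left, inv_mul_cancel_left, mul_inv_cancel, inv_mul_cancel, mul_one, one_mul, inv_one, C]),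
    o.cv hδ (1) (by simp only [hδ, δinv hδ, δone hδ, D] <;> linear_combination (0) * h3) (by first | (simp only [mul_assoc, mul_inv_rev, inv_inv, mul_inv_cancel_left, inv_mul_cancel_left, mul_inv_cancel, inv_mul_cancel, mul_one, one_mul, inv_one]; done) | simp only [mul_assoc, mul_inv_rev, inv_inv, mul_inv_cancel_left, inv_mul_cancel_left, mul_inv_cancel, inv_mul_cancel, mul_one, one_mul, inv_one, C]) (by first | (simp only [mul_assoc, mul_inv_rev, inv_inv, mul_inv_cancel_left, inv_mul_cancel_left, mul_inv_cancel, inv_mul_cancel, mul_one, one_mul, inv_one]; done) | simp only [mul_assoc, mul_inv_rev, inv_inv, mul_inv_cancel_left, inv_mul_cancel_left, mul_inv_cancel, inv_mul_cancel, mul_one, one_mul, inv_one, C]),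
    o.cv hδ (1) (by simp only [hδ, δinv hδ, δone hδ, D] <;> linear_combination (0) * h3) (by first | (simp only [mul_assoc, mul_inv_rev, inv_inv, mul_inv_cancel_left, inv_mul_cancel_left, mul_inv_cancel, inv_mul_cancel, mul_one, one_mul, inv_one]; done) | simp only [mul_assoc, mul_inv_rev, inv_inv, mul_inv_cancel_left, inv_mul_cancel_left, mul_inv_cancel, inv_mul_cancel, mul_one, one_mul, inv_one, C]) (by first | (simp only [mul_assoc, mul_inv_rev, inv_inv, mul_inv_cancel_left, inv_mul_cancel_left, mul_inv_cancel, inv_mul_cancel, mul_one, one_mul, inv_one]; done) | simp only [mul_assoc, mul_inv_rev, inv_inv, mul_inv_cancel_left, inv_mul_cancel_left, mul_inv_cancel, inv_mul_cancel, mul_one, one_mul, inv_one, C]),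
    o.cv hδ (1) (by simp only [hδ, δinv hδ, δone hδ, D] <;> linear_combination (0) * h3) (by first | (simp only [mul_assoc, mul_inv_rev, inv_inv, mul_inv_cancel_left, inv_mul_cancel_left, mul_inv_cancel, inv_mul_cancel, mul_one, one_mul, inv_one]; done) | simp only [mul_assoc, mul_inv_rev, inv_inv, mul_inv_cancel_left, inv_mul_cancel_left, mul_inv_cancel, inv_mul_cancel, mul_one, one_mul, inv_one, C]) (by first | (simp only [mul_assoc, mul_inv_rev, inv_inv, mul_inv_cancel_left, inv_mul_cancel_left, mul_inv_cancel, inv_mul_cancel, mul_one, one_mul, inv_one]; done) | simp only [mul_assoc, mul_inv_rev, inv_inv, mul_inv_cancel_left, inv_mul_cancel_left, mul_inv_cancel, inv_mul_cancel, mul_one, one_mul, inv_one, C])⟩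

theorem close_EE_k1 {G : Type*} [Group G] {δ : G → ZMod 3} (hδ : ∀ u v, δ (u * v) = δ u + δ v) (o : Pre δ)
    {P Q f0 f1 : G} {e : ZMod 3} (h3 : 3 * e = 0)
    (D : δ P = e ∧ δ Q = e ∧ δ f0 = 0 ∧ δ f1 = 0)
    (C : Cube P f0 ∧ Cube P f1 ∧ Cube Q f0 ∧ Cube Q f1) :
    (o.lt (f0 * Q⁻¹) (f1 * Q⁻¹) ↔ o.lt (f0 * Q⁻¹) (f1 * Q⁻¹)) ∧
    (o.lt (f1 * Q⁻¹) (f0 * Q⁻¹) ↔ o.lt (f1 * Q⁻¹) (f0 * Q⁻¹)) ∧
    (o.lt (f0 * P⁻¹) (f1 * P⁻¹) ↔ o.lt (f0) (f1)) := by
  have C' := C
  obtain ⟨C0, C1, C2, C3⟩ := C'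
  simp only [Cube] at C C0 C1 C2 C3
  exact ⟨o.cv hδ (1) (by simp only [hδ, δinv hδ, δone hδ, D] <;> linear_combination (0) * h3) (by first | (simp only [mul_assoc, mul_inv_rev, inv_inv, mul_inv_cancel_left, inv_mul_cancel_left, mul_inv_cancel, inv_mul_cancel, mul_one, one_mul, inv_one]; done) | simp only [mul_assoc, mul_inv_rev, inv_inv, mul_inv_cancel_left, inv_mul_cancel_left, mul_inv_cancel, inv_mul_cancel, mul_one, one_mul, inv_one, C]) (by first | (simp only [mul_assoc, mul_inv_rev, inv_inv, mul_inv_cancel_left, inv_mul_cancel_left, mul_inv_cancel, inv_mul_cancel, mul_one, one_mul, inv_one]; done) | simp only [mul_assoc, mul_inv_rev, inv_inv, mul_inv_cancel_left, inv_mul_cancel_left, mul_inv_cancel, inv_mul_cancel, mul_one, one_mul, inv_one, C]),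
    o.cv hδ (1) (by simp only [hδ, δinv hδ, δone hδ, D] <;> linear_combination (0) * h3) (by first | (simp only [mul_assoc, mul_inv_rev, inv_inv, mul_inv_cancel_left, inv_mul_cancel_left, mul_inv_cancel, inv_mul_cancel, mul_one, one_mul, inv_one]; done) | simp only [mul_assoc, mul_inv_rev, inv_inv, mul_inv_cancel_left, inv_mul_cancel_left, mul_inv_cancel, inv_mul_cancel, mul_one, one_mul, inv_one, C]) (by first | (simp only [mul_assoc, mul_inv_rev, inv_inv, mul_inv_cancel_left, inv_mul_cancel_left, mul_inv_cancel, inv_mul_cancel, mul_one, one_mul, inv_one]; done) | simp only [mul_assoc, mul_inv_rev, inv_inv, mul_inv_cancel_left, inv_mul_cancel_left, mul_inv_cancel, inv_mul_cancel, mul_one, one_mul, inv_one, C]),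
    o.cv hδ (P) (by simp only [hδ, δinv hδ, δone hδ, D] <;> linear_combination (0) * h3) (by first | (simp only [mul_assoc, mul_inv_rev, inv_inv, mul_inv_cancel_left, inv_mul_cancel_left, mul_inv_cancel, inv_mul_cancel, mul_one, one_mul, inv_one]; done) | simp only [mul_assoc, mul_inv_rev, inv_inv, mul_inv_cancel_left, inv_mul_cancel_left, mul_inv_cancel, inv_mul_cancel, mul_one, one_mul, inv_one, C]) (by first | (simp only [mul_assoc, mul_inv_rev, inv_inv, mul_inv_cancel_left, inv_mul_cancel_left, mul_inv_cancel, inv_mul_cancel, mul_one, one_mul, inv_one]; done) | simp only [mul_assoc, mul_inv_rev, inv_inv, mul_inv_cancel_left, inv_mul_cancel_left, mul_inv_cancel, inv_mul_cancel, mul_one, one_mul, inv_one, C])⟩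

theorem close_EE {G : Type*} [Group G] {δ : G → ZMod 3} (hδ : ∀ u v, δ (u * v) = δ u + δ v) (o : Pre δ)
    {P Q f0 f1 : G} {e : ZMod 3} (h3 : 3 * e = 0)
    (D : δ P = e ∧ δ Q = e ∧ δ f0 = 0 ∧ δ f1 = 0)
    (C : Cube P f0 ∧ Cube P f1 ∧ Cube Q f0 ∧ Cube Q f1)
    (N0 : RE o P Q f0 f1)
    (N1 : RE o P Q f1 f0)
    (g0 : o.lt f0 f1) : False := by
  obtain ⟨k0, k1, k2, k3, k4, k5, k6, k7, k8, k9, k10, k11, k12, k13, k14, k15, k16, k17, k18, k19⟩ := close_EE_k0 hδ o h3 D C
  obtain ⟨k20, k21, k22⟩ := close_EE_k1 hδ o h3 D C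
  simp only [Cube] at C
  exact close_EE_prop
    (fun b0 b1 => b1 (k1.2 ((o.cv hδ (f0 * f1⁻¹) (by simp only [hδ, δinv hδ, δone hδ, D] <;> linear_combination (0) * h3) (by simp only [mul_assoc, mul_inv_rev, inv_inv, mul_inv_cancel_left, inv_mul_cancel_left, mul_inv_cancel, inv_mul_cancel, mul_one, one_mul, inv_one, C]) (by simp only [mul_assoc, mul_inv_rev, inv_inv, mul_inv_cancel_left, inv_mul_cancel_left, mul_inv_cancel, inv_mul_cancel, mul_one, one_mul, inv_one, C]) : o.lt (1 * (P * f0⁻¹)) (1 * (Q * f0⁻¹)) ↔ o.lt (1 * (P * f1⁻¹)) (1 * (Q * f1⁻¹))).1 (k0.1 b0))))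
    (fun b0 b1 b2 => N0.i.r1 1 (fun h => b0 (k2.2 h)) (k3.1 b1) (fun h => b2 (k4.2 h)))
    (fun b0 b1 => b1 (k0.2 ((o.cv hδ (f1 * f0⁻¹) (by simp only [hδ, δinv hδ, δone hδ, D] <;> linear_combination (0) * h3) (by simp only [mul_assoc, mul_inv_rev, inv_inv, mul_inv_cancel_left, inv_mul_cancel_left, mul_inv_cancel, inv_mul_cancel, mul_one, one_mul, inv_one, C]) (by simp only [mul_assoc, mul_inv_rev, inv_inv, mul_inv_cancel_left, inv_mul_cancel_left, mul_inv_cancel, inv_mul_cancel, mul_one, one_mul, inv_one, C]) : o.lt (1 * (P * f1⁻¹)) (1 * (Q * f1⁻¹)) ↔ o.lt (1 * (P * f0⁻¹)) (1 * (Q * f0⁻¹))).1 (k1.1 b0))))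
    (fun b0 b1 b2 => N0.rd.r1 1 (fun h => b0 (k5.2 h)) (k6.1 b1) (fun h => b2 (k7.2 h)))
    (fun b0 b1 b2 => N0.i.r2 1 (fun h => b0 (k6.2 h)) (fun h => b1 (k8.2 h)) (k9.1 b2))
    (fun b0 b1 => b1 (k10.2 ((o.cv hδ (P * Q⁻¹) (by simp only [hδ, δinv hδ, δone hδ, D] <;> linear_combination (0) * h3) (by simp only [mul_assoc, mul_inv_rev, inv_inv, mul_inv_cancel_left, inv_mul_cancel_left, mul_inv_cancel, inv_mul_cancel, mul_one, one_mul, inv_one, C]) (by simp only [mul_assoc, mul_inv_rev, inv_inv, mul_inv_cancel_left, inv_mul_cancel_left, mul_inv_cancel, inv_mul_cancel, mul_one, one_mul, inv_one, C]) : o.lt (1 * (P * f0⁻¹)⁻¹) (1 * (P * f1⁻¹)⁻¹) ↔ o.lt (1 * (Q * f0⁻¹)⁻¹) (1 * (Q * f1⁻¹)⁻¹)).1 (k9.1 b0))))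
    (fun b0 b1 b2 => N1.d.r1 1 (fun h => b0 (k1.2 h)) (k3.1 b1) (fun h => b2 (k4.2 h)))
    (fun b0 b1 b2 => N1.r.r1 1 (fun h => b0 (k0.2 h)) (k6.1 b1) (fun h => b2 (k7.2 h)))
    (fun b0 b1 b2 => N1.r.r2 1 (fun h => b0 (k3.2 h)) (fun h => b1 (k11.2 h)) (k10.1 b2))
    (fun b0 b1 => o.asym (k12.1 b0) (k13.1 b1))
    (fun b0 b1 => o.asym (k14.1 b0) (k15.1 b1))
    (fun b0 b1 => o.asym (k16.1 b0) (k17.1 b1))
    (fun b0 b1 => o.asym (k18.1 b0) (k19.1 b1))
    (fun b0 b1 => o.asym (k20.1 b0) (k21.1 b1))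
    (k22.2 g0)

end Pool.Agent.K7.H31.SA
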