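import Pool.Agent.K7.H31.SA.Rules

set_option autoImplicit false
set_option maxRecDepth 100000
set_option linter.all false

/-!
# Generated order arguments
-/

namespace Pool.Agent.K7.H31.SA

theorem close_AAAAA_prop {A1 A2 A3 A4 A5 A6 A7 A8 A9 A10 A11 A12 A13 A14 A15 A16 A17 A18 A19 A20 A21 A22 A23 A24 A25 A26 A27 A28 A29 A30 A31 A32 A33 A34 A35 A36 A37 A38 A39 A40 A41 A42 A43 A44 A45 A46 A47 A48 A49 A50 A51 A52 A53 A54 A55 A56 A57 A58 A59 A60 A61 A62 A63 A64 A65 A66 A67 A68 A69 A70 A71 A72 A73 A74 A75 A76 A77 A78 A79 A80 A81 A82 A83 A84 A85 A86 A87 A88 A89 A90 A91 A92 A93 A94 A95 A96 A97 A98 A99 A100 A101 A102 A103 A104 A105 A106 A107 A108 A109 A110 A111 A112 A113 A114 A115 A116 A117 A118 A119 A120 A121 A122 A123 A124 A125 A126 A127 A128 A129 A130 A131 A132 A133 A134 A135 A136 A137 A138 A139 A140 A141 A142 A143 A144 A145 A146 A147 A148 A149 A150 A151 A152 A153 A154 A155 A156 A157 A158 A159 A160 A161 A162 A163 A164 A165 A166 A167 A168 A169 A170 A171 A172 A173 A174 A175 A176 A177 A178 A179 A180 A181 A182 A183 A184 A185 A186 A187 A188 A189 A190 A191 A192 A193 A194 A195 A196 A197 A198 A199 A200 A201 A202 A203 A204 A205 A206 A207 A208 A209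 A210 A211 A212 A213 A214 A215 A216 A217 A218 A219 A220 A221 A222 A223 A224 A225 A226 A227 A228 A229 A230 A231 A232 A233 A234 A235 A236 A237 A238 A239 A240 A241 A242 : Prop}
    (c0 : ¬ A241 → A121 → ¬ A90 → False)
    (c1 : ¬ A1 → A99 → ¬ A232 → False)
    (c2 : ¬ A86 → A3 → ¬ A234 → False)
    (c3 : ¬ A12 → ¬ A3 → A232 → False)
    (c4 : ¬ A25 → ¬ A36 → A14 → False)
    (c5 : ¬ A159 → A36 → ¬ A122 → False)
    (c6 : ¬ A233 → A31 → ¬ A38 → False)
    (c7 : ¬ A231 → A137 → ¬ A26 → False)
    (c8 : ¬ A136 → ¬ A137 → A38 → False)
    (c9 : ¬ A25 → ¬ A31 → A26 → False)
    (c10 : ¬ A27 → ¬ A28 → A32 → False)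
    (c11 : ¬ A64 → A28 → ¬ A17 → False)
    (c12 : ¬ A51 → ¬ A63 → A17 → False)
    (c13 : ¬ A41 → A63 → ¬ A32 → False)
    (c14 : ¬ A171 → A59 → ¬ A69 → False)
    (c15 : ¬ A44 → A196 → ¬ A48 → False)
    (c16 : ¬ A27 → ¬ A196 → A69 → False)
    (c17 : ¬ A51 → ¬ A59 → A48 → False)
    (c18 : ¬ A55 → ¬ A56 → A60 → False)
    (c19 : ¬ A208 → A56 → ¬ A20 → False)
    (c20 : ¬ A46 → A128 → ¬ A220 → False)
    (c21 : ¬ A76 → A47 → ¬ A78 → False)
    (c22 : ¬ A83 → ¬ A128 → A78 → False)
    (c23 : ¬ A79 → ¬ A81 → A130 → False)
    (c24 : ¬ A242 → A81 → ¬ A23 → False)
    (c25 : ¬ A71 → A131 → ¬ A109 → False)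
    (c26 : ¬ A8 → A73 → ¬ A9 → False)
    (c27 : ¬ A21 → ¬ A131 → A9 → False)
    (c28 : ¬ A86 → ¬ A99 → A10 → False)
    (c29 : ¬ A88 → A11 → ¬ A87 → False)
    (c30 : ¬ A86 → ¬ A102 → A87 → False)
    (c31 : ¬ A104 → ¬ A110 → A89 → False)
    (c32 : ¬ A100 → A110 → ¬ A101 → False)
    (c33 : ¬ A114 → A107 → ¬ A111 → False)
    (c34 : ¬ A112 → ¬ A113 → A116 → False)
    (c35 : ¬ A119 → A113 → ¬ A115 → False)
    (c36 : ¬ A118 → A95 → ¬ A90 → False)
    (c37 : ¬ A25 → A139 → ¬ A30 → False)
    (c38 : ¬ A140 → ¬ A139 → A16 → False)
    (c39 : ¬ A149 → A147 → ¬ A148 → False)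
    (c40 : ¬ A151 → ¬ A150 → A35 → False)
    (c41 : ¬ A51 → A150 → ¬ A152 → False)
    (c42 : ¬ A155 → A144 → ¬ A40 → False)
    (c43 : ¬ A146 → ¬ A135 → A158 → False)
    (c44 : ¬ A142 → A135 → ¬ A143 → False)
    (c45 : ¬ A162 → A170 → ¬ A126 → False)
    (c46 : ¬ A173 → ¬ A177 → A165 → False)
    (c47 : ¬ A168 → A177 → ¬ A169 → False)
    (c48 : ¬ A52 → A172 → ¬ A20 → False)
    (c49 : ¬ A53 → A181 → ¬ A127 → False)
    (c50 : ¬ A46 → ¬ A54 → A127 → False)
    (c51 : ¬ A178 → ¬ A179 → A182 → False)
    (c52 : ¬ A166 → A179 → ¬ A180 → False)
    (c53 : ¬ A183 → A194 → ¬ A199 → False)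
    (c54 : ¬ A193 → ¬ A185 → A199 → False)
    (c55 : ¬ A238 → A239 → ¬ A67 → False)
    (c56 : ¬ A51 → A197 → ¬ A57 → False)
    (c57 : ¬ A52 → ¬ A197 → A19 → False)
    (c58 : ¬ A202 → ¬ A190 → A200 → False)
    (c59 : ¬ A183 → A190 → ¬ A186 → False)
    (c60 : ¬ A205 → ¬ A204 → A62 → False)
    (c61 : ¬ A83 → A204 → ¬ A203 → False)
    (c62 : ¬ A207 → A187 → ¬ A65 → False)
    (c63 : ¬ A211 → ¬ A218 → A210 → False)
    (c64 : ¬ A216 → A218 → ¬ A217 → False)
    (c65 : ¬ A224 → A214 → ¬ A221 → False)
    (c66 : ¬ A222 → ¬ A223 → A226 → False)
    (c67 : ¬ A230 → A223 → ¬ A225 → False)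
    (c68 : ¬ A85 → A228 → ¬ A23 → False)
    (c69 : ¬ A229 → A97 → ¬ A130 → False)
    (c70 : ¬ A8 → ¬ A131 → A22 → False)
    (c71 : ¬ A132 → A131 → ¬ A98 → False)
    (c72 : A86 → A1 → False)
    (c73 : A86 → ¬ A99 → ¬ A14 → False)
    (c74 : A90 → A2 → False)
    (c75 : A99 → A3 → False)
    (c76 : A103 → ¬ A86 → ¬ A231 → False)
    (c77 : A42 → ¬ A96 → ¬ A47 → False)
    (c78 : A58 → ¬ A99 → ¬ A50 → False)
    (c79 : A71 → A8 → False)
    (c80 : A71 → ¬ A109 → ¬ A78 → False)
    (c81 : A96 → ¬ A99 → ¬ A80 → False)
    (c82 : A109 → A9 → False)
    (c83 : A109 → ¬ A86 → ¬ A232 → False)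
    (c84 : A1 → ¬ A122 → ¬ A3 → False)
    (c85 : A1 → ¬ A232 → ¬ A9 → False)
    (c86 : A122 → A14 → False)
    (c87 : A122 → ¬ A1 → ¬ A99 → False)
    (c88 : A231 → A233 → False)
    (c89 : A231 → ¬ A232 → ¬ A26 → False)
    (c90 : A31 → A137 → False)
    (c91 : A43 → A163 → False)
    (c92 : A43 → ¬ A31 → ¬ A45 → False)
    (c93 : A72 → ¬ A232 → ¬ A78 → False)
    (c94 : A232 → A234 → False)
    (c95 : A2 → ¬ A73 → ¬ A8 → False)
    (c96 : A120 → A12 → False)
    (c97 : A120 → ¬ A2 → ¬ A99 → False)
    (c98 : A24 → A15 → False)
    (c99 : A73 → A131 → False)
    (c100 : A79 → A21 → False)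
    (c101 : A25 → ¬ A14 → ¬ A31 → False)
    (c102 : A25 → ¬ A12 → ¬ A24 → False)
    (c103 : A74 → ¬ A14 → ¬ A72 → False)
    (c104 : A4 → ¬ A38 → ¬ A9 → False)
    (c105 : A233 → ¬ A32 → ¬ A137 → False)
    (c106 : A32 → A17 → False)
    (c107 : A44 → ¬ A233 → ¬ A43 → False)
    (c108 : A44 → ¬ A59 → ¬ A20 → False)
    (c109 : A44 → ¬ A123 → ¬ A47 → False)
    (c110 : A44 → ¬ A38 → ¬ A48 → False)
    (c111 : A59 → A196 → False)
    (c112 : A123 → ¬ A32 → ¬ A82 → False)
    (c113 : A38 → A26 → False)
    (c114 : A38 → ¬ A233 → ¬ A232 → False)
    (c115 : A5 → ¬ A17 → ¬ A4 → False)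
    (c116 : A15 → ¬ A152 → ¬ A235 → False)
    (c117 : A136 → ¬ A137 → ¬ A122 → False)
    (c118 : A17 → ¬ A137 → ¬ A231 → False)
    (c119 : A45 → ¬ A82 → ¬ A47 → False)
    (c120 : A45 → ¬ A152 → ¬ A48 → False)
    (c121 : A51 → A27 → False)
    (c122 : A51 → ¬ A17 → ¬ A59 → False)
    (c123 : A75 → ¬ A137 → ¬ A72 → False)
    (c124 : A82 → ¬ A45 → ¬ A128 → False)
    (c125 : A152 → ¬ A137 → ¬ A232 → False)
    (c126 : A6 → ¬ A163 → ¬ A1 → False)
    (c127 : A124 → ¬ A60 → ¬ A18 → False)
    (c128 : A124 → ¬ A69 → ¬ A235 → False)
    (c129 : A167 → ¬ A69 → ¬ A236 → False)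
    (c130 : A171 → ¬ A76 → ¬ A219 → False)
    (c131 : A33 → ¬ A128 → ¬ A29 → False)
    (c132 : A60 → A20 → False)
    (c133 : A76 → A46 → False)
    (c134 : A128 → ¬ A124 → ¬ A79 → False)
    (c135 : A69 → A48 → False)
    (c136 : A69 → ¬ A33 → ¬ A152 → False)
    (c137 : A7 → ¬ A196 → ¬ A4 → False)
    (c138 : A18 → ¬ A27 → ¬ A15 → False)
    (c139 : A18 → ¬ A77 → ¬ A131 → False)
    (c140 : A188 → ¬ A203 → ¬ A236 → False)
    (c141 : A27 → ¬ A196 → ¬ A32 → False)
    (c142 : A77 → ¬ A203 → ¬ A78 → False)
    (c143 : A83 → A55 → False)
    (c144 : A83 → ¬ A18 → ¬ A79 → False)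
    (c145 : A83 → ¬ A20 → ¬ A128 → False)
    (c146 : A83 → ¬ A203 → ¬ A237 → False)
    (c147 : A203 → ¬ A196 → ¬ A38 → False)
    (c148 : A8 → ¬ A131 → ¬ A2 → False)
    (c149 : A8 → ¬ A46 → ¬ A6 → False)
    (c150 : A8 → ¬ A220 → ¬ A9 → False)
    (c151 : A219 → ¬ A8 → ¬ A103 → False)
    (c152 : A219 → ¬ A61 → ¬ A196 → False)
    (c153 : A34 → ¬ A131 → ¬ A24 → False)
    (c154 : A46 → ¬ A130 → ¬ A47 → False)
    (c155 : A46 → ¬ A220 → ¬ A48 → False)
    (c156 : A61 → ¬ A131 → ¬ A49 → False)
    (c157 : A130 → A23 → False)
    (c158 : A130 → ¬ A46 → ¬ A128 → False)
    (c159 : A220 → A78 → False)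
    (c160 : A220 → ¬ A46 → ¬ A69 → False)
    (c161 : A21 → ¬ A23 → ¬ A131 → False)
    (c162 : A55 → ¬ A47 → ¬ A60 → False)
    (c163 : A9 → ¬ A234 → ¬ A1 → False)
    (c164 : A234 → ¬ A35 → ¬ A137 → False)
    (c165 : A235 → ¬ A9 → ¬ A90 → False)
    (c166 : A235 → ¬ A78 → ¬ A131 → False)
    (c167 : A236 → ¬ A9 → ¬ A99 → False)
    (c168 : A26 → ¬ A62 → ¬ A196 → False)
    (c169 : A48 → ¬ A78 → ¬ A46 → False)
    (c170 : A62 → ¬ A9 → ¬ A58 → False)
    (c171 : A62 → ¬ A48 → ¬ A60 → False)
    (c172 : A237 → ¬ A236 → ¬ A80 → False)
    (c173 : A120 → ¬ A121 → ¬ A234 → False)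
    (c174 : A49 → ¬ A129 → ¬ A56 → False)
    (c175 : A79 → ¬ A109 → ¬ A81 → False)
    (c176 : A129 → ¬ A10 → ¬ A130 → False)
    (c177 : A10 → A91 → False)
    (c178 : A25 → ¬ A36 → ¬ A26 → False)
    (c179 : A50 → ¬ A13 → ¬ A57 → False)
    (c180 : A80 → ¬ A13 → ¬ A98 → False)
    (c181 : A13 → ¬ A36 → ¬ A17 → False)
    (c182 : A2 → ¬ A81 → ¬ A22 → False)
    (c183 : A241 → ¬ A14 → ¬ A90 → False)
    (c184 : A51 → ¬ A63 → ¬ A48 → False)
    (c185 : A82 → ¬ A63 → ¬ A84 → False)
    (c186 : A159 → ¬ A17 → ¬ A122 → False)
    (c187 : A64 → ¬ A17 → ¬ A60 → False)
    (c188 : A191 → ¬ A18 → ¬ A109 → False)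
    (c189 : A27 → ¬ A69 → ¬ A28 → False)
    (c190 : A19 → ¬ A188 → ¬ A13 → False)
    (c191 : A41 → ¬ A28 → ¬ A38 → False)
    (c192 : A41 → ¬ A20 → ¬ A32 → False)
    (c193 : A84 → ¬ A20 → ¬ A98 → False)
    (c194 : A208 → ¬ A20 → ¬ A130 → False)
    (c195 : A20 → ¬ A28 → ¬ A16 → False)
    (c196 : A20 → ¬ A41 → ¬ A17 → False)
    (c197 : A29 → ¬ A22 → ¬ A30 → False)
    (c198 : A55 → ¬ A220 → ¬ A56 → False)
    (c199 : A242 → ¬ A23 → ¬ A90 → False)
    (c200 : A23 → ¬ A56 → ¬ A19 → False)
    (c201 : A91 → ¬ A30 → ¬ A15 → False)
    (c202 : A30 → ¬ A60 → ¬ A28 → False)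
    (c203 : A32 → ¬ A30 → ¬ A38 → False)
    (c204 : A57 → ¬ A130 → ¬ A56 → False)
    (c205 : A98 → ¬ A90 → ¬ A81 → False)
    (c206 : A98 → ¬ A30 → ¬ A82 → False)
    (c207 : A88 → ¬ A86 → ¬ A12 → False)
    (c208 : A140 → A141 → False)
    (c209 : A11 → A102 → False)
    (c210 : A52 → ¬ A27 → ¬ A44 → False)
    (c211 : A46 → ¬ A229 → ¬ A55 → False)
    (c212 : A229 → ¬ A46 → ¬ A83 → False)
    (c213 : A85 → A229 → False)
    (c214 : A118 → ¬ A71 → ¬ A21 → False)
    (c215 : A53 → ¬ A83 → ¬ A46 → False)
    (c216 : A1 → ¬ A91 → ¬ A11 → False)
    (c217 : A106 → ¬ A107 → ¬ A116 → False)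
    (c218 : A108 → ¬ A107 → ¬ A117 → False)
    (c219 : A105 → A92 → False)
    (c220 : A114 → ¬ A111 → ¬ A92 → False)
    (c221 : A115 → ¬ A114 → ¬ A107 → False)
    (c222 : A117 → ¬ A42 → ¬ A95 → False)
    (c223 : A93 → ¬ A92 → ¬ A106 → False)
    (c224 : A94 → ¬ A92 → ¬ A108 → False)
    (c225 : A100 → ¬ A99 → ¬ A5 → False)
    (c226 : A101 → ¬ A99 → ¬ A9 → False)
    (c227 : A104 → ¬ A105 → ¬ A110 → False)
    (c228 : A111 → ¬ A42 → ¬ A7 → False)
    (c229 : A112 → ¬ A113 → ¬ A94 → False)
    (c230 : A58 → ¬ A93 → ¬ A42 → False)
    (c231 : A119 → ¬ A96 → ¬ A7 → False)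
    (c232 : A109 → ¬ A89 → ¬ A99 → False)
    (c233 : A138 → ¬ A139 → ¬ A141 → False)
    (c234 : A142 → ¬ A82 → ¬ A24 → False)
    (c235 : A145 → ¬ A147 → ¬ A138 → False)
    (c236 : A149 → ¬ A148 → ¬ A37 → False)
    (c237 : A155 → ¬ A153 → ¬ A40 → False)
    (c238 : A157 → ¬ A158 → ¬ A144 → False)
    (c239 : A143 → ¬ A144 → ¬ A155 → False)
    (c240 : A39 → ¬ A40 → ¬ A157 → False)
    (c241 : A146 → A156 → False)
    (c242 : A146 → ¬ A145 → ¬ A135 → False)
    (c243 : A148 → ¬ A137 → ¬ A25 → False)
    (c244 : A37 → ¬ A135 → ¬ A156 → False)
    (c245 : A151 → A154 → False)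
    (c246 : A151 → ¬ A150 → ¬ A39 → False)
    (c247 : A153 → ¬ A154 → ¬ A150 → False)
    (c248 : A40 → ¬ A82 → ¬ A34 → False)
    (c249 : A162 → ¬ A160 → ¬ A126 → False)
    (c250 : A164 → ¬ A165 → ¬ A170 → False)
    (c251 : A169 → ¬ A170 → ¬ A162 → False)
    (c252 : A175 → ¬ A176 → ¬ A170 → False)
    (c253 : A176 → ¬ A172 → ¬ A43 → False)
    (c254 : A174 → ¬ A175 → ¬ A160 → False)
    (c255 : A54 → ¬ A19 → ¬ A46 → False)
    (c256 : A76 → ¬ A181 → ¬ A19 → False)
    (c257 : A125 → ¬ A126 → ¬ A164 → False)
    (c258 : A160 → ¬ A161 → ¬ A179 → False)
    (c259 : A161 → A178 → False)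
    (c260 : A166 → ¬ A124 → ¬ A47 → False)
    (c261 : A126 → ¬ A167 → ¬ A43 → False)
    (c262 : A168 → ¬ A167 → ¬ A45 → False)
    (c263 : A173 → ¬ A174 → ¬ A177 → False)
    (c264 : A48 → ¬ A47 → ¬ A182 → False)
    (c265 : A178 → ¬ A179 → ¬ A125 → False)
    (c266 : A180 → ¬ A69 → ¬ A47 → False)
    (c267 : A183 → ¬ A18 → ¬ A50 → False)
    (c268 : A184 → A66 → False)
    (c269 : A185 → ¬ A184 → ¬ A193 → False)
    (c270 : A66 → ¬ A193 → ¬ A194 → False)
    (c271 : A192 → ¬ A191 → ¬ A50 → False)
    (c272 : A193 → A195 → False)
    (c273 : A193 → ¬ A192 → ¬ A189 → False)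
    (c274 : A67 → ¬ A195 → ¬ A192 → False)
    (c275 : A198 → A68 → False)
    (c276 : A52 → ¬ A68 → ¬ A197 → False)
    (c277 : A238 → A240 → False)
    (c278 : A201 → ¬ A198 → ¬ A239 → False)
    (c279 : A189 → ¬ A198 → ¬ A240 → False)
    (c280 : A206 → A70 → False)
    (c281 : A186 → ¬ A184 → ¬ A65 → False)
    (c282 : A207 → ¬ A206 → ¬ A65 → False)
    (c283 : A66 → ¬ A65 → ¬ A200 → False)
    (c284 : A70 → ¬ A66 → ¬ A187 → False)
    (c285 : A202 → ¬ A201 → ¬ A190 → False)
    (c286 : A65 → ¬ A18 → ¬ A58 → False)
    (c287 : A205 → ¬ A204 → ¬ A70 → False)
    (c288 : A213 → ¬ A214 → ¬ A226 → False)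
    (c289 : A215 → ¬ A214 → ¬ A227 → False)
    (c290 : A212 → ¬ A213 → ¬ A221 → False)
    (c291 : A224 → ¬ A221 → ¬ A133 → False)
    (c292 : A225 → ¬ A224 → ¬ A214 → False)
    (c293 : A227 → ¬ A219 → ¬ A97 → False)
    (c294 : A22 → ¬ A85 → ¬ A228 → False)
    (c295 : A134 → ¬ A133 → ¬ A215 → False)
    (c296 : A209 → A211 → False)
    (c297 : A211 → ¬ A212 → ¬ A218 → False)
    (c298 : A216 → ¬ A131 → ¬ A74 → False)
    (c299 : A217 → ¬ A131 → ¬ A78 → False)
    (c300 : A133 → ¬ A218 → ¬ A209 → False)
    (c301 : A221 → ¬ A219 → ¬ A75 → False)
    (c302 : A222 → ¬ A223 → ¬ A134 → False)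
    (c303 : A230 → ¬ A61 → ¬ A75 → False)
    (c304 : A132 → ¬ A130 → ¬ A73 → False)
    (c305 : A220 → ¬ A210 → ¬ A131 → False)
    (u0 : A120)
    : False := by
  have q1 : ¬ A12 := fun h => c96 u0 h
  rcases Classical.em A99 with q2 | q2
  · have q3 : ¬ A3 := fun h => c75 q2 h
    have q4 : ¬ A232 := fun h => c3 q1 q3 h
    have q5 : A1 := Classical.byContradiction fun h => c1 h q2 q4
    have q6 : ¬ A86 := fun h => c72 h q5
    have q7 : ¬ A109 := fun h => c83 h q6 q4
    have q8 : A122 := Classical.byContradiction fun h => c84 q5 h q3
    have q9 : A9 := Classical.byContradiction fun h => c85 q5 q4 h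
    have q10 : ¬ A14 := fun h => c86 q8 h
    have q11 : ¬ A88 := fun h => c207 h q6 q1
    rcases Classical.em A131 with q12 | q12
    · have q13 : A71 := Classical.byContradiction fun h => c25 h q12 q7
      have q14 : ¬ A8 := fun h => c79 q13 h
      have q15 : A78 := Classical.byContradiction fun h => c80 q13 q7 h
      have q16 : ¬ A73 := fun h => c99 h q12
      have q17 : ¬ A2 := fun h => c95 h q16 q14
      have q18 : ¬ A220 := fun h => c159 h q15
      rcases Classical.em A46 with q19 | q19
      · have q20 : ¬ A76 := fun h => c133 h q19
        have q21 : A48 := Classical.byContradiction fun h => c155 q19 q18 h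
        have q22 : ¬ A69 := fun h => c135 h q21
        rcases Classical.em A47 with q23 | q23
        · rcases Classical.em A137 with q24 | q24
          · have q25 : ¬ A31 := fun h => c90 h q24
            have q26 : ¬ A25 := fun h => c101 h q10 q25
            have q27 : ¬ A26 := fun h => c9 q26 q25 h
            have q28 : A231 := Classical.byContradiction fun h => c7 h q24 q27
            exact c89 q28 q4 q27
          · have q29 : ¬ A152 := fun h => c125 h q24 q4
            rcases Classical.em A17 with q30 | q30
            · have q31 : ¬ A32 := fun h => c106 h q30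
              have q32 : ¬ A233 := fun h => c105 h q31 q24
              have q33 : ¬ A38 := fun h => c114 h q32 q4
              have q34 : ¬ A31 := fun h => c6 q32 h q33
              have q35 : ¬ A25 := fun h => c101 h q10 q34
              have q36 : ¬ A26 := fun h => c9 q35 q34 h
              have q37 : ¬ A231 := fun h => c89 h q4 q36
              exact c118 q30 q24 q37
            · rcases Classical.em A20 with q38 | q38
              · have q39 : ¬ A60 := fun h => c132 h q38
                have q40 : ¬ A64 := fun h => c187 h q30 q39
                have q41 : ¬ A28 := fun h => c11 q40 h q30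
                have q42 : ¬ A27 := fun h => c189 h q22 q41
                have q43 : ¬ A32 := fun h => c10 q42 q41 h
                have q44 : ¬ A233 := fun h => c105 h q43 q24
                have q45 : ¬ A38 := fun h => c114 h q44 q4
                have q46 : ¬ A31 := fun h => c6 q44 h q45
                have q47 : ¬ A25 := fun h => c101 h q10 q46
                have q48 : ¬ A26 := fun h => c9 q47 q46 h
                have q49 : ¬ A231 := fun h => c89 h q4 q48
                have q50 : ¬ A103 := fun h => c76 h q6 q49
                have q51 : ¬ A219 := fun h => c151 h q14 q50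
                have q52 : ¬ A171 := fun h => c130 h q20 q51
                have q53 : ¬ A59 := fun h => c14 q52 h q22
                have q54 : A51 := Classical.byContradiction fun h => c17 h q53 q21
                exact c122 q54 q30 q53
              · rcases Classical.em A59 with q55 | q55
                · have q56 : A171 := Classical.byContradiction fun h => c14 h q55 q22
                  have q57 : ¬ A196 := fun h => c111 q55 h
                  have q58 : A219 := Classical.byContradiction fun h => c130 q56 q20 h
                  have q59 : A103 := Classical.byContradiction fun h => c151 q58 q14 h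
                  have q60 : A231 := Classical.byContradiction fun h => c76 q59 q6 h
                  have q61 : ¬ A233 := fun h => c88 q60 h
                  have q62 : A26 := Classical.byContradiction fun h => c89 q60 q4 h
                  have q63 : ¬ A38 := fun h => c113 h q62
                  have q64 : ¬ A31 := fun h => c6 q61 h q63
                  have q65 : A25 := Classical.byContradiction fun h => c9 h q64 q62
                  exact c101 q65 q10 q64
                · have q66 : A51 := Classical.byContradiction fun h => c17 h q55 q21
                  exact c122 q66 q30 q55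
        · have q67 : A130 := Classical.byContradiction fun h => c154 q19 h q23
          have q68 : ¬ A23 := fun h => c157 q67 h
          have q69 : A182 := Classical.byContradiction fun h => c264 q21 q23 h
          have q70 : ¬ A180 := fun h => c266 h q22 q23
          rcases Classical.em A55 with q71 | q71
          · have q72 : ¬ A83 := fun h => c143 h q71
            have q73 : A128 := Classical.byContradiction fun h => c22 q72 h q15
            have q74 : A60 := Classical.byContradiction fun h => c162 q71 q23 h
            have q75 : ¬ A20 := fun h => c132 q74 h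
            have q76 : A56 := Classical.byContradiction fun h => c198 q71 q18 h
            have q77 : A208 := Classical.byContradiction fun h => c19 h q76 q75
            rcases Classical.em A59 with q78 | q78
            · have q79 : A171 := Classical.byContradiction fun h => c14 h q78 q22
              have q80 : ¬ A196 := fun h => c111 q78 h
              have q81 : A219 := Classical.byContradiction fun h => c130 q79 q20 h
              have q82 : A103 := Classical.byContradiction fun h => c151 q81 q14 h
              have q83 : A231 := Classical.byContradiction fun h => c76 q82 q6 h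
              have q84 : ¬ A233 := fun h => c88 q83 h
              have q85 : A26 := Classical.byContradiction fun h => c89 q83 q4 h
              have q86 : ¬ A38 := fun h => c113 h q85
              have q87 : ¬ A31 := fun h => c6 q84 h q86
              have q88 : A25 := Classical.byContradiction fun h => c9 h q87 q85
              exact c101 q88 q10 q87
            · have q89 : A51 := Classical.byContradiction fun h => c17 h q78 q21
              have q90 : ¬ A44 := fun h => c108 h q78 q75
              have q91 : ¬ A27 := fun h => c121 q89 h
              have q92 : A17 := Classical.byContradiction fun h => c122 q89 h q78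
              have q93 : ¬ A32 := fun h => c106 h q92
              have q94 : ¬ A41 := fun h => c192 h q75 q93
              have q95 : ¬ A63 := fun h => c13 q94 h q93
              have q96 : ¬ A52 := fun h => c210 h q91 q90
              have q97 : ¬ A172 := fun h => c48 q96 h q75
              rcases Classical.em A137 with q98 | q98
              · have q99 : ¬ A31 := fun h => c90 h q98
                have q100 : ¬ A25 := fun h => c101 h q10 q99
                have q101 : ¬ A26 := fun h => c9 q100 q99 h
                have q102 : A231 := Classical.byContradiction fun h => c7 h q98 q101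
                exact c89 q102 q4 q101
              · have q103 : ¬ A233 := fun h => c105 h q93 q98
                have q104 : ¬ A38 := fun h => c114 h q103 q4
                have q105 : ¬ A31 := fun h => c6 q103 h q104
                have q106 : ¬ A25 := fun h => c101 h q10 q105
                have q107 : ¬ A26 := fun h => c9 q106 q105 h
                have q108 : ¬ A231 := fun h => c89 h q4 q107
                exact c118 q92 q98 q108
          · have q109 : A229 := Classical.byContradiction fun h => c211 q19 h q71
            have q110 : ¬ A85 := fun h => c213 h q109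
            have q111 : ¬ A228 := fun h => c68 q110 h q68
            have q112 : ¬ A22 := fun h => c294 h q110 q111
            rcases Classical.em A137 with q113 | q113
            · have q114 : ¬ A31 := fun h => c90 h q113
              have q115 : ¬ A25 := fun h => c101 h q10 q114
              have q116 : ¬ A26 := fun h => c9 q115 q114 h
              have q117 : A231 := Classical.byContradiction fun h => c7 h q113 q116
              exact c89 q117 q4 q116
            · have q118 : ¬ A152 := fun h => c125 h q113 q4
              rcases Classical.em A17 with q119 | q119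
              · have q120 : ¬ A32 := fun h => c106 h q119
                have q121 : ¬ A233 := fun h => c105 h q120 q113
                have q122 : ¬ A38 := fun h => c114 h q121 q4
                have q123 : ¬ A31 := fun h => c6 q121 h q122
                have q124 : ¬ A25 := fun h => c101 h q10 q123
                have q125 : ¬ A26 := fun h => c9 q124 q123 h
                have q126 : ¬ A231 := fun h => c89 h q4 q125
                exact c118 q119 q113 q126
              · rcases Classical.em A20 with q127 | q127
                · have q128 : ¬ A60 := fun h => c132 h q127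
                  have q129 : ¬ A64 := fun h => c187 h q119 q128
                  have q130 : ¬ A28 := fun h => c11 q129 h q119
                  have q131 : ¬ A27 := fun h => c189 h q22 q130
                  have q132 : ¬ A32 := fun h => c10 q131 q130 h
                  have q133 : ¬ A233 := fun h => c105 h q132 q113
                  have q134 : ¬ A38 := fun h => c114 h q133 q4
                  have q135 : ¬ A31 := fun h => c6 q133 h q134
                  have q136 : ¬ A25 := fun h => c101 h q10 q135
                  have q137 : ¬ A26 := fun h => c9 q136 q135 h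
                  have q138 : ¬ A231 := fun h => c89 h q4 q137
                  have q139 : ¬ A103 := fun h => c76 h q6 q138
                  have q140 : ¬ A219 := fun h => c151 h q14 q139
                  have q141 : ¬ A171 := fun h => c130 h q20 q140
                  have q142 : ¬ A59 := fun h => c14 q141 h q22
                  have q143 : A51 := Classical.byContradiction fun h => c17 h q142 q21
                  exact c122 q143 q119 q142
                · rcases Classical.em A59 with q144 | q144
                  · have q145 : A171 := Classical.byContradiction fun h => c14 h q144 q22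
                    have q146 : ¬ A196 := fun h => c111 q144 h
                    have q147 : A219 := Classical.byContradiction fun h => c130 q145 q20 h
                    have q148 : A103 := Classical.byContradiction fun h => c151 q147 q14 h
                    have q149 : A231 := Classical.byContradiction fun h => c76 q148 q6 h
                    have q150 : ¬ A233 := fun h => c88 q149 h
                    have q151 : A26 := Classical.byContradiction fun h => c89 q149 q4 h
                    have q152 : ¬ A38 := fun h => c113 h q151
                    have q153 : ¬ A31 := fun h => c6 q150 h q152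
                    have q154 : A25 := Classical.byContradiction fun h => c9 h q153 q151
                    exact c101 q154 q10 q153
                  · have q155 : A51 := Classical.byContradiction fun h => c17 h q144 q21
                    exact c122 q155 q119 q144
      · have q156 : ¬ A128 := fun h => c20 q19 h q18
        have q157 : A83 := Classical.byContradiction fun h => c22 h q156 q15
        have q158 : ¬ A55 := fun h => c143 q157 h
        have q159 : A20 := Classical.byContradiction fun h => c145 q157 h q156
        have q160 : ¬ A60 := fun h => c132 h q159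
        have q161 : ¬ A130 := fun h => c158 h q19 q156
        have q162 : ¬ A132 := fun h => c304 h q161 q16
        have q163 : A98 := Classical.byContradiction fun h => c71 q162 q12 h
        rcases Classical.em A17 with q164 | q164
        · have q165 : ¬ A32 := fun h => c106 h q164
          rcases Classical.em A137 with q166 | q166
          · have q167 : ¬ A31 := fun h => c90 h q166
            have q168 : ¬ A25 := fun h => c101 h q10 q167
            have q169 : ¬ A26 := fun h => c9 q168 q167 h
            have q170 : A231 := Classical.byContradiction fun h => c7 h q166 q169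
            exact c89 q170 q4 q169
          · have q171 : ¬ A233 := fun h => c105 h q165 q166
            have q172 : ¬ A38 := fun h => c114 h q171 q4
            have q173 : ¬ A31 := fun h => c6 q171 h q172
            have q174 : ¬ A25 := fun h => c101 h q10 q173
            have q175 : ¬ A26 := fun h => c9 q174 q173 h
            have q176 : ¬ A231 := fun h => c89 h q4 q175
            exact c118 q164 q166 q176
        · have q177 : ¬ A64 := fun h => c187 h q164 q160
          have q178 : ¬ A28 := fun h => c11 q177 h q164
          have q179 : A16 := Classical.byContradiction fun h => c195 q159 q178 h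
          have q180 : A41 := Classical.byContradiction fun h => c196 q159 h q164
          have q181 : A38 := Classical.byContradiction fun h => c191 q180 q178 h
          have q182 : ¬ A26 := fun h => c113 q181 h
          have q183 : ¬ A231 := fun h => c89 h q4 q182
          have q184 : ¬ A137 := fun h => c7 q183 h q182
          have q185 : A136 := Classical.byContradiction fun h => c8 h q184 q181
          have q186 : ¬ A103 := fun h => c76 h q6 q183
          have q187 : A233 := Classical.byContradiction fun h => c114 q181 h q4
          have q188 : A32 := Classical.byContradiction fun h => c105 q187 h q184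
          have q189 : A27 := Classical.byContradiction fun h => c10 h q178 q188
          have q190 : ¬ A51 := fun h => c121 h q189
          have q191 : ¬ A152 := fun h => c125 h q184 q4
          have q192 : ¬ A150 := fun h => c41 q190 h q191
          have q193 : ¬ A219 := fun h => c151 h q14 q186
          have q194 : A69 := Classical.byContradiction fun h => c189 q189 h q178
          have q195 : ¬ A48 := fun h => c135 q194 h
          have q196 : ¬ A45 := fun h => c120 h q191 q195
          have q197 : ¬ A82 := fun h => c124 h q196 q156
          have q198 : A33 := Classical.byContradiction fun h => c136 q194 h q191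
          have q199 : A29 := Classical.byContradiction fun h => c131 q198 q156 h
          have q200 : ¬ A62 := fun h => c171 h q195 q160
          have q201 : ¬ A30 := fun h => c202 h q160 q178
          exact c206 q163 q201 q197
    · have q202 : A21 := Classical.byContradiction fun h => c27 h q12 q9
      have q203 : ¬ A79 := fun h => c100 h q202
      have q204 : A23 := Classical.byContradiction fun h => c161 q202 h q12
      have q205 : ¬ A130 := fun h => c157 h q204
      rcases Classical.em A78 with q206 | q206
      · have q207 : ¬ A220 := fun h => c159 h q206
        rcases Classical.em A46 with q208 | q208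
        · have q209 : ¬ A76 := fun h => c133 h q208
          have q210 : A47 := Classical.byContradiction fun h => c154 q208 q205 h
          have q211 : A48 := Classical.byContradiction fun h => c155 q208 q207 h
          have q212 : ¬ A69 := fun h => c135 h q211
          rcases Classical.em A20 with q213 | q213
          · have q214 : ¬ A60 := fun h => c132 h q213
            rcases Classical.em A17 with q215 | q215
            · have q216 : ¬ A32 := fun h => c106 h q215
              rcases Classical.em A137 with q217 | q217
              · have q218 : ¬ A31 := fun h => c90 h q217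
                have q219 : ¬ A25 := fun h => c101 h q10 q218
                have q220 : ¬ A26 := fun h => c9 q219 q218 h
                have q221 : A231 := Classical.byContradiction fun h => c7 h q217 q220
                exact c89 q221 q4 q220
              · have q222 : ¬ A233 := fun h => c105 h q216 q217
                have q223 : ¬ A38 := fun h => c114 h q222 q4
                have q224 : ¬ A31 := fun h => c6 q222 h q223
                have q225 : ¬ A25 := fun h => c101 h q10 q224
                have q226 : ¬ A26 := fun h => c9 q225 q224 h
                have q227 : ¬ A231 := fun h => c89 h q4 q226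
                exact c118 q215 q217 q227
            · have q228 : ¬ A64 := fun h => c187 h q215 q214
              have q229 : ¬ A28 := fun h => c11 q228 h q215
              have q230 : ¬ A27 := fun h => c189 h q212 q229
              have q231 : ¬ A32 := fun h => c10 q230 q229 h
              have q232 : A16 := Classical.byContradiction fun h => c195 q213 q229 h
              have q233 : A41 := Classical.byContradiction fun h => c196 q213 h q215
              have q234 : A38 := Classical.byContradiction fun h => c191 q233 q229 h
              have q235 : ¬ A26 := fun h => c113 q234 h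
              have q236 : ¬ A231 := fun h => c89 h q4 q235
              have q237 : ¬ A137 := fun h => c7 q236 h q235
              have q238 : A136 := Classical.byContradiction fun h => c8 h q237 q234
              have q239 : ¬ A103 := fun h => c76 h q6 q236
              have q240 : ¬ A233 := fun h => c105 h q231 q237
              exact c114 q234 q240 q4
          · have q241 : ¬ A208 := fun h => c194 h q213 q205
            have q242 : ¬ A56 := fun h => c19 q241 h q213
            have q243 : ¬ A55 := fun h => c198 h q207 q242
            have q244 : ¬ A60 := fun h => c18 q243 q242 h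
            have q245 : A19 := Classical.byContradiction fun h => c200 q204 q242 h
            have q246 : ¬ A57 := fun h => c204 h q205 q242
            have q247 : A229 := Classical.byContradiction fun h => c211 q208 h q243
            have q248 : ¬ A85 := fun h => c213 h q247
            rcases Classical.em A18 with q249 | q249
            · have q250 : A77 := Classical.byContradiction fun h => c139 q249 h q12
              rcases Classical.em A59 with q251 | q251
              · have q252 : A171 := Classical.byContradiction fun h => c14 h q251 q212
                have q253 : ¬ A196 := fun h => c111 q251 h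
                have q254 : A219 := Classical.byContradiction fun h => c130 q252 q209 h
                have q255 : A61 := Classical.byContradiction fun h => c152 q254 h q253
                have q256 : A49 := Classical.byContradiction fun h => c156 q255 q12 h
                have q257 : A129 := Classical.byContradiction fun h => c174 q256 h q242
                have q258 : A10 := Classical.byContradiction fun h => c176 q257 h q205
                have q259 : ¬ A91 := fun h => c177 q258 h
                have q260 : A11 := Classical.byContradiction fun h => c216 q5 q259 h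
                have q261 : A87 := Classical.byContradiction fun h => c29 q11 q260 h
                have q262 : A102 := Classical.byContradiction fun h => c30 q6 h q261
                exact c209 q260 q262
              · have q263 : A51 := Classical.byContradiction fun h => c17 h q251 q211
                have q264 : ¬ A44 := fun h => c108 h q251 q213
                have q265 : ¬ A27 := fun h => c121 q263 h
                have q266 : A17 := Classical.byContradiction fun h => c122 q263 h q251
                have q267 : ¬ A32 := fun h => c106 h q266
                have q268 : A15 := Classical.byContradiction fun h => c138 q249 q265 h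
                have q269 : ¬ A24 := fun h => c98 h q268
                have q270 : ¬ A25 := fun h => c102 h q1 q269
                have q271 : ¬ A34 := fun h => c153 h q12 q269
                have q272 : ¬ A41 := fun h => c192 h q213 q267
                have q273 : ¬ A63 := fun h => c13 q272 h q267
                have q274 : ¬ A52 := fun h => c210 h q265 q264
                have q275 : ¬ A172 := fun h => c48 q274 h q213
                have q276 : A197 := Classical.byContradiction fun h => c57 q274 h q245
                rcases Classical.em A137 with q277 | q277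
                · have q278 : ¬ A31 := fun h => c90 h q277
                  have q279 : ¬ A26 := fun h => c9 q270 q278 h
                  have q280 : A231 := Classical.byContradiction fun h => c7 h q277 q279
                  exact c89 q280 q4 q279
                · have q281 : ¬ A233 := fun h => c105 h q267 q277
                  have q282 : ¬ A38 := fun h => c114 h q281 q4
                  have q283 : ¬ A31 := fun h => c6 q281 h q282
                  have q284 : ¬ A26 := fun h => c9 q270 q283 h
                  have q285 : ¬ A231 := fun h => c89 h q4 q284
                  exact c118 q266 q277 q285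
            · have q286 : ¬ A124 := fun h => c127 h q244 q249
              have q287 : ¬ A128 := fun h => c134 h q286 q203
              have q288 : A83 := Classical.byContradiction fun h => c22 h q287 q206
              exact c144 q288 q249 q203
        · have q289 : ¬ A128 := fun h => c20 q208 h q207
          have q290 : A83 := Classical.byContradiction fun h => c22 h q289 q206
          have q291 : ¬ A55 := fun h => c143 q290 h
          have q292 : A18 := Classical.byContradiction fun h => c144 q290 h q203
          have q293 : A77 := Classical.byContradiction fun h => c139 q292 h q12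
          have q294 : A20 := Classical.byContradiction fun h => c145 q290 h q289
          have q295 : ¬ A60 := fun h => c132 h q294
          rcases Classical.em A17 with q296 | q296
          · have q297 : ¬ A32 := fun h => c106 h q296
            rcases Classical.em A137 with q298 | q298
            · have q299 : ¬ A31 := fun h => c90 h q298
              have q300 : ¬ A25 := fun h => c101 h q10 q299
              have q301 : ¬ A26 := fun h => c9 q300 q299 h
              have q302 : A231 := Classical.byContradiction fun h => c7 h q298 q301
              exact c89 q302 q4 q301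
            · have q303 : ¬ A233 := fun h => c105 h q297 q298
              have q304 : ¬ A38 := fun h => c114 h q303 q4
              have q305 : ¬ A31 := fun h => c6 q303 h q304
              have q306 : ¬ A25 := fun h => c101 h q10 q305
              have q307 : ¬ A26 := fun h => c9 q306 q305 h
              have q308 : ¬ A231 := fun h => c89 h q4 q307
              exact c118 q296 q298 q308
          · have q309 : ¬ A64 := fun h => c187 h q296 q295
            have q310 : ¬ A28 := fun h => c11 q309 h q296
            have q311 : A16 := Classical.byContradiction fun h => c195 q294 q310 h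
            have q312 : A41 := Classical.byContradiction fun h => c196 q294 h q296
            have q313 : A38 := Classical.byContradiction fun h => c191 q312 q310 h
            have q314 : ¬ A26 := fun h => c113 q313 h
            have q315 : ¬ A231 := fun h => c89 h q4 q314
            have q316 : ¬ A137 := fun h => c7 q315 h q314
            have q317 : A136 := Classical.byContradiction fun h => c8 h q316 q313
            have q318 : ¬ A103 := fun h => c76 h q6 q315
            have q319 : A233 := Classical.byContradiction fun h => c114 q313 h q4
            have q320 : A32 := Classical.byContradiction fun h => c105 q319 h q316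
            have q321 : A27 := Classical.byContradiction fun h => c10 h q310 q320
            have q322 : ¬ A51 := fun h => c121 h q321
            have q323 : ¬ A152 := fun h => c125 h q316 q4
            have q324 : ¬ A150 := fun h => c41 q322 h q323
            have q325 : A69 := Classical.byContradiction fun h => c189 q321 h q310
            have q326 : ¬ A48 := fun h => c135 q325 h
            have q327 : ¬ A45 := fun h => c120 h q323 q326
            have q328 : ¬ A82 := fun h => c124 h q327 q289
            have q329 : A33 := Classical.byContradiction fun h => c136 q325 h q323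
            have q330 : A29 := Classical.byContradiction fun h => c131 q329 q289 h
            have q331 : ¬ A62 := fun h => c171 h q326 q295
            have q332 : ¬ A30 := fun h => c202 h q295 q310
            have q333 : A22 := Classical.byContradiction fun h => c197 q330 h q332
            have q334 : A8 := Classical.byContradiction fun h => c70 h q12 q333
            have q335 : ¬ A71 := fun h => c79 h q334
            have q336 : A2 := Classical.byContradiction fun h => c148 q334 q12 h
            have q337 : ¬ A90 := fun h => c74 h q336
            have q338 : A6 := Classical.byContradiction fun h => c149 q334 q208 h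
            have q339 : ¬ A241 := fun h => c183 h q10 q337
            have q340 : ¬ A121 := fun h => c0 q339 h q337
            have q341 : A234 := Classical.byContradiction fun h => c173 u0 q340 h
            have q342 : A35 := Classical.byContradiction fun h => c164 q341 h q316
            have q343 : A151 := Classical.byContradiction fun h => c40 h q324 q342
            have q344 : ¬ A98 := fun h => c206 h q332 q328
            have q345 : ¬ A154 := fun h => c245 q343 h
            have q346 : A39 := Classical.byContradiction fun h => c246 q343 q324 h
            have q347 : ¬ A153 := fun h => c247 h q345 q324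
            rcases Classical.em A25 with q348 | q348
            · have q349 : A31 := Classical.byContradiction fun h => c101 q348 q10 h
              have q350 : A24 := Classical.byContradiction fun h => c102 q348 q1 h
              have q351 : ¬ A15 := fun h => c98 q350 h
              have q352 : A36 := Classical.byContradiction fun h => c178 q348 h q314
              have q353 : ¬ A91 := fun h => c201 h q332 q351
              have q354 : A11 := Classical.byContradiction fun h => c216 q5 q353 h
              have q355 : A87 := Classical.byContradiction fun h => c29 q11 q354 h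
              have q356 : A102 := Classical.byContradiction fun h => c30 q6 h q355
              exact c209 q354 q356
            · have q357 : ¬ A139 := fun h => c37 q348 h q332
              have q358 : A140 := Classical.byContradiction fun h => c38 h q357 q311
              have q359 : ¬ A141 := fun h => c208 q358 h
              have q360 : ¬ A138 := fun h => c233 h q357 q359
              have q361 : ¬ A148 := fun h => c243 h q316 q348
              rcases Classical.em A40 with q362 | q362
              · have q363 : A34 := Classical.byContradiction fun h => c248 q362 q328 h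
                have q364 : A24 := Classical.byContradiction fun h => c153 q363 q12 h
                have q365 : ¬ A15 := fun h => c98 q364 h
                have q366 : ¬ A91 := fun h => c201 h q332 q365
                have q367 : A11 := Classical.byContradiction fun h => c216 q5 q366 h
                have q368 : A87 := Classical.byContradiction fun h => c29 q11 q367 h
                have q369 : A102 := Classical.byContradiction fun h => c30 q6 h q368
                exact c209 q367 q369
              · have q370 : ¬ A155 := fun h => c237 h q347 q362
                have q371 : ¬ A144 := fun h => c42 q370 h q362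
                have q372 : ¬ A143 := fun h => c239 h q371 q370
                have q373 : A157 := Classical.byContradiction fun h => c240 q346 q362 h
                have q374 : A158 := Classical.byContradiction fun h => c238 q373 h q371
                rcases Classical.em A11 with q375 | q375
                · have q376 : A87 := Classical.byContradiction fun h => c29 q11 q375 h
                  have q377 : A102 := Classical.byContradiction fun h => c30 q6 h q376
                  exact c209 q375 q377
                · have q378 : A91 := Classical.byContradiction fun h => c216 q5 h q375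
                  have q379 : ¬ A10 := fun h => c177 h q378
                  have q380 : ¬ A129 := fun h => c176 h q379 q205
                  have q381 : A15 := Classical.byContradiction fun h => c201 q378 q332 h
                  have q382 : ¬ A24 := fun h => c98 h q381
                  have q383 : A235 := Classical.byContradiction fun h => c116 q381 q323 h
                  have q384 : ¬ A34 := fun h => c153 h q12 q382
                  have q385 : ¬ A142 := fun h => c234 h q328 q382
                  have q386 : ¬ A135 := fun h => c44 q385 h q372
                  have q387 : A146 := Classical.byContradiction fun h => c43 h q386 q374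
                  have q388 : ¬ A156 := fun h => c241 q387 h
                  have q389 : A145 := Classical.byContradiction fun h => c242 q387 h q386
                  have q390 : A147 := Classical.byContradiction fun h => c235 q389 h q360
                  have q391 : A149 := Classical.byContradiction fun h => c39 h q390 q361
                  have q392 : A37 := Classical.byContradiction fun h => c236 q391 q361 h
                  exact c244 q392 q386 q388
      · have q393 : ¬ A71 := fun h => c80 h q7 q206
        have q394 : ¬ A72 := fun h => c93 h q4 q206
        have q395 : ¬ A74 := fun h => c103 h q10 q394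
        have q396 : ¬ A235 := fun h => c166 h q206 q12
        have q397 : ¬ A216 := fun h => c298 h q12 q395
        have q398 : ¬ A217 := fun h => c299 h q12 q206
        have q399 : ¬ A218 := fun h => c64 q397 h q398
        rcases Classical.em A46 with q400 | q400
        · have q401 : ¬ A76 := fun h => c133 h q400
          have q402 : ¬ A47 := fun h => c21 q401 h q206
          exact c154 q400 q205 q402
        · have q403 : ¬ A48 := fun h => c169 h q206 q400
          rcases Classical.em A83 with q404 | q404
          · have q405 : ¬ A55 := fun h => c143 q404 h
            have q406 : A18 := Classical.byContradiction fun h => c144 q404 h q203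
            have q407 : A77 := Classical.byContradiction fun h => c139 q406 h q12
            have q408 : A203 := Classical.byContradiction fun h => c142 q407 h q206
            rcases Classical.em A20 with q409 | q409
            · have q410 : ¬ A60 := fun h => c132 h q409
              have q411 : ¬ A62 := fun h => c171 h q403 q410
              rcases Classical.em A38 with q412 | q412
              · have q413 : ¬ A26 := fun h => c113 q412 h
                have q414 : ¬ A231 := fun h => c89 h q4 q413
                have q415 : ¬ A137 := fun h => c7 q414 h q413
                have q416 : A136 := Classical.byContradiction fun h => c8 h q415 q412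
                have q417 : ¬ A103 := fun h => c76 h q6 q414
                have q418 : A233 := Classical.byContradiction fun h => c114 q412 h q4
                have q419 : A32 := Classical.byContradiction fun h => c105 q418 h q415
                have q420 : ¬ A17 := fun h => c106 q419 h
                have q421 : ¬ A75 := fun h => c123 h q415 q394
                have q422 : ¬ A152 := fun h => c125 h q415 q4
                have q423 : ¬ A15 := fun h => c116 h q422 q396
                have q424 : ¬ A45 := fun h => c120 h q422 q403
                have q425 : A27 := Classical.byContradiction fun h => c138 q406 h q423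
                have q426 : ¬ A51 := fun h => c121 h q425
                have q427 : ¬ A150 := fun h => c41 q426 h q422
                have q428 : ¬ A64 := fun h => c187 h q420 q410
                have q429 : ¬ A28 := fun h => c11 q428 h q420
                have q430 : A69 := Classical.byContradiction fun h => c189 q425 h q429
                have q431 : A33 := Classical.byContradiction fun h => c136 q430 h q422
                have q432 : A16 := Classical.byContradiction fun h => c195 q409 q429 h
                have q433 : A41 := Classical.byContradiction fun h => c196 q409 h q420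
                have q434 : ¬ A30 := fun h => c202 h q410 q429
                have q435 : ¬ A91 := fun h => c201 h q434 q423
                have q436 : A11 := Classical.byContradiction fun h => c216 q5 q435 h
                have q437 : A87 := Classical.byContradiction fun h => c29 q11 q436 h
                have q438 : A102 := Classical.byContradiction fun h => c30 q6 h q437
                exact c209 q436 q438
              · have q439 : ¬ A44 := fun h => c110 h q412 q403
                have q440 : ¬ A196 := fun h => c15 q439 h q403
                exact c147 q408 q440 q412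
            · have q441 : A128 := Classical.byContradiction fun h => c145 q404 q409 h
              have q442 : A220 := Classical.byContradiction fun h => c20 q400 q441 h
              have q443 : A124 := Classical.byContradiction fun h => c134 q441 h q203
              have q444 : A69 := Classical.byContradiction fun h => c128 q443 h q396
              have q445 : ¬ A208 := fun h => c194 h q409 q205
              have q446 : ¬ A56 := fun h => c19 q445 h q409
              have q447 : ¬ A60 := fun h => c18 q405 q446 h
              have q448 : ¬ A62 := fun h => c171 h q403 q447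
              have q449 : A19 := Classical.byContradiction fun h => c200 q204 q446 h
              have q450 : ¬ A57 := fun h => c204 h q205 q446
              have q451 : A210 := Classical.byContradiction fun h => c305 q442 h q12
              have q452 : A211 := Classical.byContradiction fun h => c63 h q399 q451
              have q453 : ¬ A209 := fun h => c296 h q452
              have q454 : A212 := Classical.byContradiction fun h => c297 q452 h q399
              have q455 : ¬ A133 := fun h => c300 h q399 q453
              rcases Classical.em A196 with q456 | q456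
              · have q457 : A44 := Classical.byContradiction fun h => c15 h q456 q403
                have q458 : A59 := Classical.byContradiction fun h => c108 q457 h q409
                exact c111 q458 q456
              · have q459 : A27 := Classical.byContradiction fun h => c16 h q456 q444
                have q460 : ¬ A51 := fun h => c121 h q459
                have q461 : ¬ A197 := fun h => c56 q460 h q450
                have q462 : A52 := Classical.byContradiction fun h => c57 h q461 q449
                have q463 : A32 := Classical.byContradiction fun h => c141 q459 q456 h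
                have q464 : ¬ A17 := fun h => c106 q463 h
                have q465 : A38 := Classical.byContradiction fun h => c147 q408 q456 h
                have q466 : ¬ A26 := fun h => c113 q465 h
                have q467 : ¬ A231 := fun h => c89 h q4 q466
                have q468 : ¬ A137 := fun h => c7 q467 h q466
                have q469 : A136 := Classical.byContradiction fun h => c8 h q468 q465
                have q470 : ¬ A103 := fun h => c76 h q6 q467
                have q471 : A233 := Classical.byContradiction fun h => c114 q465 h q4
                have q472 : ¬ A75 := fun h => c123 h q468 q394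
                have q473 : ¬ A152 := fun h => c125 h q468 q4
                have q474 : ¬ A150 := fun h => c41 q460 h q473
                have q475 : ¬ A15 := fun h => c116 h q473 q396
                have q476 : ¬ A45 := fun h => c120 h q473 q403
                have q477 : A33 := Classical.byContradiction fun h => c136 q444 h q473
                have q478 : ¬ A64 := fun h => c187 h q464 q447
                have q479 : ¬ A28 := fun h => c11 q478 h q464
                have q480 : ¬ A30 := fun h => c202 h q447 q479
                have q481 : ¬ A91 := fun h => c201 h q480 q475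
                have q482 : A11 := Classical.byContradiction fun h => c216 q5 q481 h
                have q483 : A87 := Classical.byContradiction fun h => c29 q11 q482 h
                have q484 : A102 := Classical.byContradiction fun h => c30 q6 h q483
                exact c209 q482 q484
          · have q485 : ¬ A229 := fun h => c212 h q400 q404
            have q486 : ¬ A97 := fun h => c69 q485 h q205
            have q487 : ¬ A53 := fun h => c215 h q404 q400
            rcases Classical.em A137 with q488 | q488
            · have q489 : ¬ A31 := fun h => c90 h q488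
              have q490 : ¬ A25 := fun h => c101 h q10 q489
              have q491 : ¬ A26 := fun h => c9 q490 q489 h
              have q492 : A231 := Classical.byContradiction fun h => c7 h q488 q491
              exact c89 q492 q4 q491
            · have q493 : ¬ A75 := fun h => c123 h q488 q394
              have q494 : ¬ A152 := fun h => c125 h q488 q4
              have q495 : ¬ A15 := fun h => c116 h q494 q396
              have q496 : ¬ A45 := fun h => c120 h q494 q403
              rcases Classical.em A38 with q497 | q497
              · have q498 : A136 := Classical.byContradiction fun h => c8 h q488 q497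
                have q499 : ¬ A26 := fun h => c113 q497 h
                have q500 : ¬ A231 := fun h => c89 h q4 q499
                have q501 : ¬ A103 := fun h => c76 h q6 q500
                have q502 : A233 := Classical.byContradiction fun h => c114 q497 h q4
                have q503 : A32 := Classical.byContradiction fun h => c105 q502 h q488
                have q504 : ¬ A17 := fun h => c106 q503 h
                rcases Classical.em A20 with q505 | q505
                · have q506 : ¬ A60 := fun h => c132 h q505
                  have q507 : ¬ A62 := fun h => c171 h q403 q506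
                  have q508 : ¬ A64 := fun h => c187 h q504 q506
                  have q509 : ¬ A28 := fun h => c11 q508 h q504
                  have q510 : A27 := Classical.byContradiction fun h => c10 h q509 q503
                  have q511 : ¬ A51 := fun h => c121 h q510
                  have q512 : ¬ A150 := fun h => c41 q511 h q494
                  have q513 : A69 := Classical.byContradiction fun h => c189 q510 h q509
                  have q514 : A33 := Classical.byContradiction fun h => c136 q513 h q494
                  have q515 : A16 := Classical.byContradiction fun h => c195 q505 q509 h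
                  have q516 : A41 := Classical.byContradiction fun h => c196 q505 h q504
                  have q517 : ¬ A30 := fun h => c202 h q506 q509
                  have q518 : ¬ A91 := fun h => c201 h q517 q495
                  have q519 : A11 := Classical.byContradiction fun h => c216 q5 q518 h
                  have q520 : A87 := Classical.byContradiction fun h => c29 q11 q519 h
                  have q521 : A102 := Classical.byContradiction fun h => c30 q6 h q520
                  exact c209 q519 q521
                · have q522 : ¬ A208 := fun h => c194 h q505 q205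
                  have q523 : ¬ A56 := fun h => c19 q522 h q505
                  have q524 : A19 := Classical.byContradiction fun h => c200 q204 q523 h
                  have q525 : ¬ A57 := fun h => c204 h q205 q523
                  rcases Classical.em A51 with q526 | q526
                  · have q527 : ¬ A27 := fun h => c121 q526 h
                    have q528 : A28 := Classical.byContradiction fun h => c10 q527 h q503
                    have q529 : A64 := Classical.byContradiction fun h => c11 h q528 q504
                    have q530 : A59 := Classical.byContradiction fun h => c122 q526 q504 h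
                    have q531 : ¬ A196 := fun h => c111 q530 h
                    have q532 : ¬ A69 := fun h => c16 q527 q531 h
                    have q533 : A171 := Classical.byContradiction fun h => c14 h q530 q532
                    have q534 : ¬ A124 := fun h => c128 h q532 q396
                    have q535 : ¬ A128 := fun h => c134 h q534 q203
                    have q536 : ¬ A82 := fun h => c124 h q496 q535
                    have q537 : ¬ A18 := fun h => c138 h q527 q495
                    have q538 : ¬ A220 := fun h => c160 h q400 q532
                    have q539 : A63 := Classical.byContradiction fun h => c184 q526 h q403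
                    have q540 : A60 := Classical.byContradiction fun h => c187 q529 q504 h
                    have q541 : A55 := Classical.byContradiction fun h => c18 h q523 q540
                    exact c198 q541 q538 q523
                  · have q542 : ¬ A150 := fun h => c41 q526 h q494
                    have q543 : ¬ A197 := fun h => c56 q526 h q525
                    have q544 : A52 := Classical.byContradiction fun h => c57 h q543 q524
                    have q545 : A68 := Classical.byContradiction fun h => c276 q544 h q543
                    have q546 : ¬ A198 := fun h => c275 h q545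
                    rcases Classical.em A69 with q547 | q547
                    · have q548 : A33 := Classical.byContradiction fun h => c136 q547 h q494
                      rcases Classical.em A8 with q549 | q549
                      · have q550 : A2 := Classical.byContradiction fun h => c148 q549 q12 h
                        have q551 : ¬ A90 := fun h => c74 h q550
                        have q552 : A6 := Classical.byContradiction fun h => c149 q549 q400 h
                        have q553 : ¬ A241 := fun h => c183 h q10 q551
                        have q554 : ¬ A121 := fun h => c0 q553 h q551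
                        have q555 : A234 := Classical.byContradiction fun h => c173 u0 q554 h
                        have q556 : A35 := Classical.byContradiction fun h => c164 q555 h q488
                        have q557 : A151 := Classical.byContradiction fun h => c40 h q542 q556
                        have q558 : ¬ A154 := fun h => c245 q557 h
                        have q559 : A39 := Classical.byContradiction fun h => c246 q557 q542 h
                        have q560 : ¬ A153 := fun h => c247 h q558 q542
                        rcases Classical.em A25 with q561 | q561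
                        · have q562 : A31 := Classical.byContradiction fun h => c101 q561 q10 h
                          have q563 : A24 := Classical.byContradiction fun h => c102 q561 q1 h
                          have q564 : A36 := Classical.byContradiction fun h => c178 q561 h q499
                          rcases Classical.em A18 with q565 | q565
                          · have q566 : A27 := Classical.byContradiction fun h => c138 q565 h q495
                            have q567 : A77 := Classical.byContradiction fun h => c139 q565 h q12
                            have q568 : A203 := Classical.byContradiction fun h => c142 q567 h q206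
                            rcases Classical.em A128 with q569 | q569
                            · have q570 : A220 := Classical.byContradiction fun h => c20 q400 q569 h
                              have q571 : A124 := Classical.byContradiction fun h => c134 q569 h q203
                              have q572 : A210 := Classical.byContradiction fun h => c305 q570 h q12
                              have q573 : A211 := Classical.byContradiction fun h => c63 h q399 q572
                              have q574 : ¬ A209 := fun h => c296 h q573
                              have q575 : A212 := Classical.byContradiction fun h => c297 q573 h q399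
                              have q576 : ¬ A133 := fun h => c300 h q399 q574
                              rcases Classical.em A60 with q577 | q577
                              · have q578 : A55 := Classical.byContradiction fun h => c18 h q523 q577
                                rcases Classical.em A221 with q579 | q579
                                · have q580 : A219 := Classical.byContradiction fun h => c301 q579 h q493
                                  rcases Classical.em A196 with q581 | q581
                                  · have q582 : A44 := Classical.byContradiction fun h => c15 h q581 q403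
                                    have q583 : A59 := Classical.byContradiction fun h => c108 q582 h q505
                                    exact c111 q583 q581
                                  · have q584 : A61 := Classical.byContradiction fun h => c152 q580 h q581
                                    have q585 : A49 := Classical.byContradiction fun h => c156 q584 q12 h
                                    have q586 : A129 := Classical.byContradiction fun h => c174 q585 h q523
                                    have q587 : A10 := Classical.byContradiction fun h => c176 q586 h q205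
                                    have q588 : ¬ A91 := fun h => c177 q587 h
                                    have q589 : A11 := Classical.byContradiction fun h => c216 q5 q588 h
                                    have q590 : A87 := Classical.byContradiction fun h => c29 q11 q589 h
                                    have q591 : A102 := Classical.byContradiction fun h => c30 q6 h q590
                                    exact c209 q589 q591
                                · have q592 : A213 := Classical.byContradiction fun h => c290 q575 h q579
                                  have q593 : ¬ A224 := fun h => c291 h q579 q576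
                                  have q594 : ¬ A214 := fun h => c65 q593 h q579
                                  have q595 : A226 := Classical.byContradiction fun h => c288 q592 q594 h
                                  have q596 : ¬ A225 := fun h => c292 h q593 q594
                                  rcases Classical.em A11 with q597 | q597
                                  · have q598 : A87 := Classical.byContradiction fun h => c29 q11 q597 h
                                    have q599 : A102 := Classical.byContradiction fun h => c30 q6 h q598
                                    exact c209 q597 q599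
                                  · have q600 : A91 := Classical.byContradiction fun h => c216 q5 h q597
                                    have q601 : ¬ A10 := fun h => c177 h q600
                                    have q602 : ¬ A129 := fun h => c176 h q601 q205
                                    have q603 : ¬ A49 := fun h => c174 h q602 q523
                                    have q604 : ¬ A61 := fun h => c156 h q12 q603
                                    have q605 : A30 := Classical.byContradiction fun h => c201 q600 h q495
                                    have q606 : ¬ A230 := fun h => c303 h q604 q493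
                                    have q607 : ¬ A223 := fun h => c67 q606 h q596
                                    have q608 : A222 := Classical.byContradiction fun h => c66 h q607 q595
                                    have q609 : A134 := Classical.byContradiction fun h => c302 q608 q607 h
                                    have q610 : A215 := Classical.byContradiction fun h => c295 q609 q576 h
                                    have q611 : A227 := Classical.byContradiction fun h => c289 q610 q594 h
                                    have q612 : A219 := Classical.byContradiction fun h => c293 q611 h q486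
                                    have q613 : A196 := Classical.byContradiction fun h => c152 q612 q604 h
                                    have q614 : A44 := Classical.byContradiction fun h => c15 h q613 q403
                                    have q615 : A59 := Classical.byContradiction fun h => c108 q614 h q505
                                    exact c111 q615 q613
                              · have q616 : ¬ A62 := fun h => c171 h q403 q577
                                have q617 : ¬ A64 := fun h => c187 h q504 q577
                                have q618 : ¬ A28 := fun h => c11 q617 h q504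
                                have q619 : ¬ A30 := fun h => c202 h q577 q618
                                have q620 : ¬ A91 := fun h => c201 h q619 q495
                                have q621 : A11 := Classical.byContradiction fun h => c216 q5 q620 h
                                have q622 : A87 := Classical.byContradiction fun h => c29 q11 q621 h
                                have q623 : A102 := Classical.byContradiction fun h => c30 q6 h q622
                                exact c209 q621 q623
                            · have q624 : ¬ A82 := fun h => c124 h q496 q569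
                              have q625 : A29 := Classical.byContradiction fun h => c131 q548 q569 h
                              rcases Classical.em A60 with q626 | q626
                              · have q627 : A55 := Classical.byContradiction fun h => c18 h q523 q626
                                have q628 : A220 := Classical.byContradiction fun h => c198 q627 h q523
                                have q629 : A210 := Classical.byContradiction fun h => c305 q628 h q12
                                have q630 : A211 := Classical.byContradiction fun h => c63 h q399 q629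
                                have q631 : ¬ A209 := fun h => c296 h q630
                                have q632 : A212 := Classical.byContradiction fun h => c297 q630 h q399
                                have q633 : ¬ A133 := fun h => c300 h q399 q631
                                rcases Classical.em A40 with q634 | q634
                                · have q635 : A34 := Classical.byContradiction fun h => c248 q634 q624 h
                                  rcases Classical.em A98 with q636 | q636
                                  · have q637 : A81 := Classical.byContradiction fun h => c205 q636 q551 h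
                                    have q638 : A30 := Classical.byContradiction fun h => c206 q636 h q624
                                    rcases Classical.em A221 with q639 | q639
                                    · have q640 : A219 := Classical.byContradiction fun h => c301 q639 h q493
                                      rcases Classical.em A196 with q641 | q641
                                      · have q642 : A44 := Classical.byContradiction fun h => c15 h q641 q403
                                        have q643 : A59 := Classical.byContradiction fun h => c108 q642 h q505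
                                        exact c111 q643 q641
                                      · have q644 : A61 := Classical.byContradiction fun h => c152 q640 h q641
                                        have q645 : A49 := Classical.byContradiction fun h => c156 q644 q12 h
                                        have q646 : A129 := Classical.byContradiction fun h => c174 q645 h q523
                                        have q647 : A10 := Classical.byContradiction fun h => c176 q646 h q205
                                        have q648 : ¬ A91 := fun h => c177 q647 h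
                                        have q649 : A11 := Classical.byContradiction fun h => c216 q5 q648 h
                                        have q650 : A87 := Classical.byContradiction fun h => c29 q11 q649 h
                                        have q651 : A102 := Classical.byContradiction fun h => c30 q6 h q650
                                        exact c209 q649 q651
                                    · have q652 : A213 := Classical.byContradiction fun h => c290 q632 h q639
                                      have q653 : ¬ A224 := fun h => c291 h q639 q633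
                                      have q654 : ¬ A214 := fun h => c65 q653 h q639
                                      have q655 : A226 := Classical.byContradiction fun h => c288 q652 q654 h
                                      have q656 : ¬ A225 := fun h => c292 h q653 q654
                                      rcases Classical.em A11 with q657 | q657
                                      · have q658 : A87 := Classical.byContradiction fun h => c29 q11 q657 h
                                        have q659 : A102 := Classical.byContradiction fun h => c30 q6 h q658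
                                        exact c209 q657 q659
                                      · have q660 : A91 := Classical.byContradiction fun h => c216 q5 h q657
                                        have q661 : ¬ A10 := fun h => c177 h q660
                                        have q662 : ¬ A129 := fun h => c176 h q661 q205
                                        have q663 : ¬ A49 := fun h => c174 h q662 q523
                                        have q664 : ¬ A61 := fun h => c156 h q12 q663
                                        have q665 : ¬ A230 := fun h => c303 h q664 q493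
                                        have q666 : ¬ A223 := fun h => c67 q665 h q656
                                        have q667 : A222 := Classical.byContradiction fun h => c66 h q666 q655
                                        have q668 : A134 := Classical.byContradiction fun h => c302 q667 q666 h
                                        have q669 : A215 := Classical.byContradiction fun h => c295 q668 q633 h
                                        have q670 : A227 := Classical.byContradiction fun h => c289 q669 q654 h
                                        have q671 : A219 := Classical.byContradiction fun h => c293 q670 h q486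
                                        have q672 : A196 := Classical.byContradiction fun h => c152 q671 q664 h
                                        have q673 : A44 := Classical.byContradiction fun h => c15 h q672 q403
                                        have q674 : A59 := Classical.byContradiction fun h => c108 q673 h q505
                                        exact c111 q674 q672
                                  · have q675 : ¬ A84 := fun h => c193 h q505 q636
                                    rcases Classical.em A221 with q676 | q676
                                    · have q677 : A219 := Classical.byContradiction fun h => c301 q676 h q493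
                                      rcases Classical.em A196 with q678 | q678
                                      · have q679 : A44 := Classical.byContradiction fun h => c15 h q678 q403
                                        have q680 : A59 := Classical.byContradiction fun h => c108 q679 h q505
                                        exact c111 q680 q678
                                      · have q681 : A61 := Classical.byContradiction fun h => c152 q677 h q678
                                        have q682 : A49 := Classical.byContradiction fun h => c156 q681 q12 h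
                                        have q683 : A129 := Classical.byContradiction fun h => c174 q682 h q523
                                        have q684 : A10 := Classical.byContradiction fun h => c176 q683 h q205
                                        have q685 : ¬ A91 := fun h => c177 q684 h
                                        have q686 : A11 := Classical.byContradiction fun h => c216 q5 q685 h
                                        have q687 : A87 := Classical.byContradiction fun h => c29 q11 q686 h
                                        have q688 : A102 := Classical.byContradiction fun h => c30 q6 h q687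
                                        exact c209 q686 q688
                                    · have q689 : A213 := Classical.byContradiction fun h => c290 q632 h q676
                                      have q690 : ¬ A224 := fun h => c291 h q676 q633
                                      have q691 : ¬ A214 := fun h => c65 q690 h q676
                                      have q692 : A226 := Classical.byContradiction fun h => c288 q689 q691 h
                                      have q693 : ¬ A225 := fun h => c292 h q690 q691
                                      rcases Classical.em A11 with q694 | q694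
                                      · have q695 : A87 := Classical.byContradiction fun h => c29 q11 q694 h
                                        have q696 : A102 := Classical.byContradiction fun h => c30 q6 h q695
                                        exact c209 q694 q696
                                      · have q697 : A91 := Classical.byContradiction fun h => c216 q5 h q694
                                        have q698 : ¬ A10 := fun h => c177 h q697
                                        have q699 : ¬ A129 := fun h => c176 h q698 q205
                                        have q700 : ¬ A49 := fun h => c174 h q699 q523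
                                        have q701 : ¬ A61 := fun h => c156 h q12 q700
                                        have q702 : A30 := Classical.byContradiction fun h => c201 q697 h q495
                                        have q703 : ¬ A230 := fun h => c303 h q701 q493
                                        have q704 : ¬ A223 := fun h => c67 q703 h q693
                                        have q705 : A222 := Classical.byContradiction fun h => c66 h q704 q692
                                        have q706 : A134 := Classical.byContradiction fun h => c302 q705 q704 h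
                                        have q707 : A215 := Classical.byContradiction fun h => c295 q706 q633 h
                                        have q708 : A227 := Classical.byContradiction fun h => c289 q707 q691 h
                                        have q709 : A219 := Classical.byContradiction fun h => c293 q708 h q486
                                        have q710 : A196 := Classical.byContradiction fun h => c152 q709 q701 h
                                        have q711 : A44 := Classical.byContradiction fun h => c15 h q710 q403
                                        have q712 : A59 := Classical.byContradiction fun h => c108 q711 h q505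
                                        exact c111 q712 q710
                                · have q713 : ¬ A155 := fun h => c237 h q560 q634
                                  have q714 : ¬ A144 := fun h => c42 q713 h q634
                                  have q715 : ¬ A143 := fun h => c239 h q714 q713
                                  have q716 : A157 := Classical.byContradiction fun h => c240 q559 q634 h
                                  have q717 : A158 := Classical.byContradiction fun h => c238 q716 h q714
                                  rcases Classical.em A98 with q718 | q718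
                                  · have q719 : A81 := Classical.byContradiction fun h => c205 q718 q551 h
                                    have q720 : A30 := Classical.byContradiction fun h => c206 q718 h q624
                                    rcases Classical.em A221 with q721 | q721
                                    · have q722 : A219 := Classical.byContradiction fun h => c301 q721 h q493
                                      rcases Classical.em A196 with q723 | q723
                                      · have q724 : A44 := Classical.byContradiction fun h => c15 h q723 q403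
                                        have q725 : A59 := Classical.byContradiction fun h => c108 q724 h q505
                                        exact c111 q725 q723
                                      · have q726 : A61 := Classical.byContradiction fun h => c152 q722 h q723
                                        have q727 : A49 := Classical.byContradiction fun h => c156 q726 q12 h
                                        have q728 : A129 := Classical.byContradiction fun h => c174 q727 h q523
                                        have q729 : A10 := Classical.byContradiction fun h => c176 q728 h q205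
                                        have q730 : ¬ A91 := fun h => c177 q729 h
                                        have q731 : A11 := Classical.byContradiction fun h => c216 q5 q730 h
                                        have q732 : A87 := Classical.byContradiction fun h => c29 q11 q731 h
                                        have q733 : A102 := Classical.byContradiction fun h => c30 q6 h q732
                                        exact c209 q731 q733
                                    · have q734 : A213 := Classical.byContradiction fun h => c290 q632 h q721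
                                      have q735 : ¬ A224 := fun h => c291 h q721 q633
                                      have q736 : ¬ A214 := fun h => c65 q735 h q721
                                      have q737 : A226 := Classical.byContradiction fun h => c288 q734 q736 h
                                      have q738 : ¬ A225 := fun h => c292 h q735 q736
                                      rcases Classical.em A11 with q739 | q739
                                      · have q740 : A87 := Classical.byContradiction fun h => c29 q11 q739 h
                                        have q741 : A102 := Classical.byContradiction fun h => c30 q6 h q740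
                                        exact c209 q739 q741
                                      · have q742 : A91 := Classical.byContradiction fun h => c216 q5 h q739
                                        have q743 : ¬ A10 := fun h => c177 h q742
                                        have q744 : ¬ A129 := fun h => c176 h q743 q205
                                        have q745 : ¬ A49 := fun h => c174 h q744 q523
                                        have q746 : ¬ A61 := fun h => c156 h q12 q745
                                        have q747 : ¬ A230 := fun h => c303 h q746 q493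
                                        have q748 : ¬ A223 := fun h => c67 q747 h q738
                                        have q749 : A222 := Classical.byContradiction fun h => c66 h q748 q737
                                        have q750 : A134 := Classical.byContradiction fun h => c302 q749 q748 h
                                        have q751 : A215 := Classical.byContradiction fun h => c295 q750 q633 h
                                        have q752 : A227 := Classical.byContradiction fun h => c289 q751 q736 h
                                        have q753 : A219 := Classical.byContradiction fun h => c293 q752 h q486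
                                        have q754 : A196 := Classical.byContradiction fun h => c152 q753 q746 h
                                        have q755 : A44 := Classical.byContradiction fun h => c15 h q754 q403
                                        have q756 : A59 := Classical.byContradiction fun h => c108 q755 h q505
                                        exact c111 q756 q754
                                  · have q757 : ¬ A84 := fun h => c193 h q505 q718
                                    rcases Classical.em A221 with q758 | q758
                                    · have q759 : A219 := Classical.byContradiction fun h => c301 q758 h q493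
                                      rcases Classical.em A196 with q760 | q760
                                      · have q761 : A44 := Classical.byContradiction fun h => c15 h q760 q403
                                        have q762 : A59 := Classical.byContradiction fun h => c108 q761 h q505
                                        exact c111 q762 q760
                                      · have q763 : A61 := Classical.byContradiction fun h => c152 q759 h q760
                                        have q764 : A49 := Classical.byContradiction fun h => c156 q763 q12 h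
                                        have q765 : A129 := Classical.byContradiction fun h => c174 q764 h q523
                                        have q766 : A10 := Classical.byContradiction fun h => c176 q765 h q205
                                        have q767 : ¬ A91 := fun h => c177 q766 h
                                        have q768 : A11 := Classical.byContradiction fun h => c216 q5 q767 h
                                        have q769 : A87 := Classical.byContradiction fun h => c29 q11 q768 h
                                        have q770 : A102 := Classical.byContradiction fun h => c30 q6 h q769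
                                        exact c209 q768 q770
                                    · have q771 : A213 := Classical.byContradiction fun h => c290 q632 h q758
                                      have q772 : ¬ A224 := fun h => c291 h q758 q633
                                      have q773 : ¬ A214 := fun h => c65 q772 h q758
                                      have q774 : A226 := Classical.byContradiction fun h => c288 q771 q773 h
                                      have q775 : ¬ A225 := fun h => c292 h q772 q773
                                      rcases Classical.em A11 with q776 | q776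
                                      · have q777 : A87 := Classical.byContradiction fun h => c29 q11 q776 h
                                        have q778 : A102 := Classical.byContradiction fun h => c30 q6 h q777
                                        exact c209 q776 q778
                                      · have q779 : A91 := Classical.byContradiction fun h => c216 q5 h q776
                                        have q780 : ¬ A10 := fun h => c177 h q779
                                        have q781 : ¬ A129 := fun h => c176 h q780 q205
                                        have q782 : ¬ A49 := fun h => c174 h q781 q523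
                                        have q783 : ¬ A61 := fun h => c156 h q12 q782
                                        have q784 : A30 := Classical.byContradiction fun h => c201 q779 h q495
                                        have q785 : ¬ A230 := fun h => c303 h q783 q493
                                        have q786 : ¬ A223 := fun h => c67 q785 h q775
                                        have q787 : A222 := Classical.byContradiction fun h => c66 h q786 q774
                                        have q788 : A134 := Classical.byContradiction fun h => c302 q787 q786 h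
                                        have q789 : A215 := Classical.byContradiction fun h => c295 q788 q633 h
                                        have q790 : A227 := Classical.byContradiction fun h => c289 q789 q773 h
                                        have q791 : A219 := Classical.byContradiction fun h => c293 q790 h q486
                                        have q792 : A196 := Classical.byContradiction fun h => c152 q791 q783 h
                                        have q793 : A44 := Classical.byContradiction fun h => c15 h q792 q403
                                        have q794 : A59 := Classical.byContradiction fun h => c108 q793 h q505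
                                        exact c111 q794 q792
                              · have q795 : ¬ A62 := fun h => c171 h q403 q626
                                have q796 : ¬ A64 := fun h => c187 h q504 q626
                                have q797 : ¬ A28 := fun h => c11 q796 h q504
                                have q798 : ¬ A30 := fun h => c202 h q626 q797
                                have q799 : A22 := Classical.byContradiction fun h => c197 q625 h q798
                                have q800 : ¬ A91 := fun h => c201 h q798 q495
                                have q801 : ¬ A98 := fun h => c206 h q798 q624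
                                have q802 : ¬ A84 := fun h => c193 h q505 q801
                                have q803 : A11 := Classical.byContradiction fun h => c216 q5 q800 h
                                have q804 : A87 := Classical.byContradiction fun h => c29 q11 q803 h
                                have q805 : A102 := Classical.byContradiction fun h => c30 q6 h q804
                                exact c209 q803 q805
                          · have q806 : ¬ A191 := fun h => c188 h q565 q7
                            rcases Classical.em A60 with q807 | q807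
                            · have q808 : A55 := Classical.byContradiction fun h => c18 h q523 q807
                              have q809 : A220 := Classical.byContradiction fun h => c198 q808 h q523
                              have q810 : A210 := Classical.byContradiction fun h => c305 q809 h q12
                              have q811 : A211 := Classical.byContradiction fun h => c63 h q399 q810
                              have q812 : ¬ A209 := fun h => c296 h q811
                              have q813 : A212 := Classical.byContradiction fun h => c297 q811 h q399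
                              have q814 : ¬ A133 := fun h => c300 h q399 q812
                              rcases Classical.em A196 with q815 | q815
                              · have q816 : A44 := Classical.byContradiction fun h => c15 h q815 q403
                                have q817 : A59 := Classical.byContradiction fun h => c108 q816 h q505
                                exact c111 q817 q815
                              · have q818 : A27 := Classical.byContradiction fun h => c16 h q815 q547
                                rcases Classical.em A219 with q819 | q819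
                                · have q820 : A61 := Classical.byContradiction fun h => c152 q819 h q815
                                  have q821 : A49 := Classical.byContradiction fun h => c156 q820 q12 h
                                  have q822 : A129 := Classical.byContradiction fun h => c174 q821 h q523
                                  have q823 : A10 := Classical.byContradiction fun h => c176 q822 h q205
                                  have q824 : ¬ A91 := fun h => c177 q823 h
                                  have q825 : A11 := Classical.byContradiction fun h => c216 q5 q824 h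
                                  have q826 : A87 := Classical.byContradiction fun h => c29 q11 q825 h
                                  have q827 : A102 := Classical.byContradiction fun h => c30 q6 h q826
                                  exact c209 q825 q827
                                · have q828 : ¬ A227 := fun h => c293 h q819 q486
                                  have q829 : ¬ A221 := fun h => c301 h q819 q493
                                  have q830 : A213 := Classical.byContradiction fun h => c290 q813 h q829
                                  have q831 : ¬ A224 := fun h => c291 h q829 q814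
                                  have q832 : ¬ A214 := fun h => c65 q831 h q829
                                  have q833 : A226 := Classical.byContradiction fun h => c288 q830 q832 h
                                  have q834 : ¬ A215 := fun h => c289 h q832 q828
                                  have q835 : ¬ A225 := fun h => c292 h q831 q832
                                  have q836 : ¬ A134 := fun h => c295 h q814 q834
                                  rcases Classical.em A11 with q837 | q837
                                  · have q838 : A87 := Classical.byContradiction fun h => c29 q11 q837 h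
                                    have q839 : A102 := Classical.byContradiction fun h => c30 q6 h q838
                                    exact c209 q837 q839
                                  · have q840 : A91 := Classical.byContradiction fun h => c216 q5 h q837
                                    have q841 : ¬ A10 := fun h => c177 h q840
                                    have q842 : ¬ A129 := fun h => c176 h q841 q205
                                    have q843 : ¬ A49 := fun h => c174 h q842 q523
                                    have q844 : ¬ A61 := fun h => c156 h q12 q843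
                                    have q845 : A30 := Classical.byContradiction fun h => c201 q840 h q495
                                    have q846 : ¬ A230 := fun h => c303 h q844 q493
                                    have q847 : ¬ A223 := fun h => c67 q846 h q835
                                    have q848 : A222 := Classical.byContradiction fun h => c66 h q847 q833
                                    exact c302 q848 q847 q836
                            · have q849 : ¬ A124 := fun h => c127 h q807 q565
                              have q850 : ¬ A128 := fun h => c134 h q849 q203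
                              have q851 : ¬ A82 := fun h => c124 h q496 q850
                              have q852 : A29 := Classical.byContradiction fun h => c131 q548 q850 h
                              have q853 : ¬ A62 := fun h => c171 h q403 q807
                              have q854 : ¬ A64 := fun h => c187 h q504 q807
                              have q855 : ¬ A28 := fun h => c11 q854 h q504
                              have q856 : A27 := Classical.byContradiction fun h => c10 h q855 q503
                              have q857 : ¬ A30 := fun h => c202 h q807 q855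
                              have q858 : A22 := Classical.byContradiction fun h => c197 q852 h q857
                              have q859 : ¬ A91 := fun h => c201 h q857 q495
                              have q860 : ¬ A98 := fun h => c206 h q857 q851
                              have q861 : ¬ A84 := fun h => c193 h q505 q860
                              have q862 : A11 := Classical.byContradiction fun h => c216 q5 q859 h
                              have q863 : A87 := Classical.byContradiction fun h => c29 q11 q862 h
                              have q864 : A102 := Classical.byContradiction fun h => c30 q6 h q863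
                              exact c209 q862 q864
                        · have q865 : ¬ A148 := fun h => c243 h q488 q561
                          rcases Classical.em A18 with q866 | q866
                          · have q867 : A27 := Classical.byContradiction fun h => c138 q866 h q495
                            have q868 : A77 := Classical.byContradiction fun h => c139 q866 h q12
                            have q869 : A203 := Classical.byContradiction fun h => c142 q868 h q206
                            rcases Classical.em A128 with q870 | q870
                            · have q871 : A220 := Classical.byContradiction fun h => c20 q400 q870 h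
                              have q872 : A124 := Classical.byContradiction fun h => c134 q870 h q203
                              have q873 : A210 := Classical.byContradiction fun h => c305 q871 h q12
                              have q874 : A211 := Classical.byContradiction fun h => c63 h q399 q873
                              have q875 : ¬ A209 := fun h => c296 h q874
                              have q876 : A212 := Classical.byContradiction fun h => c297 q874 h q399
                              have q877 : ¬ A133 := fun h => c300 h q399 q875
                              rcases Classical.em A60 with q878 | q878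
                              · have q879 : A55 := Classical.byContradiction fun h => c18 h q523 q878
                                rcases Classical.em A13 with q880 | q880
                                · have q881 : A36 := Classical.byContradiction fun h => c181 q880 h q504
                                  rcases Classical.em A221 with q882 | q882
                                  · have q883 : A219 := Classical.byContradiction fun h => c301 q882 h q493
                                    rcases Classical.em A196 with q884 | q884
                                    · have q885 : A44 := Classical.byContradiction fun h => c15 h q884 q403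
                                      have q886 : A59 := Classical.byContradiction fun h => c108 q885 h q505
                                      exact c111 q886 q884
                                    · have q887 : A61 := Classical.byContradiction fun h => c152 q883 h q884
                                      have q888 : A49 := Classical.byContradiction fun h => c156 q887 q12 h
                                      have q889 : A129 := Classical.byContradiction fun h => c174 q888 h q523
                                      have q890 : A10 := Classical.byContradiction fun h => c176 q889 h q205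
                                      have q891 : ¬ A91 := fun h => c177 q890 h
                                      have q892 : A11 := Classical.byContradiction fun h => c216 q5 q891 h
                                      have q893 : A87 := Classical.byContradiction fun h => c29 q11 q892 h
                                      have q894 : A102 := Classical.byContradiction fun h => c30 q6 h q893
                                      exact c209 q892 q894
                                  · have q895 : A213 := Classical.byContradiction fun h => c290 q876 h q882
                                    have q896 : ¬ A224 := fun h => c291 h q882 q877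
                                    have q897 : ¬ A214 := fun h => c65 q896 h q882
                                    have q898 : A226 := Classical.byContradiction fun h => c288 q895 q897 h
                                    have q899 : ¬ A225 := fun h => c292 h q896 q897
                                    rcases Classical.em A11 with q900 | q900
                                    · have q901 : A87 := Classical.byContradiction fun h => c29 q11 q900 h
                                      have q902 : A102 := Classical.byContradiction fun h => c30 q6 h q901
                                      exact c209 q900 q902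
                                    · have q903 : A91 := Classical.byContradiction fun h => c216 q5 h q900
                                      have q904 : ¬ A10 := fun h => c177 h q903
                                      have q905 : ¬ A129 := fun h => c176 h q904 q205
                                      have q906 : ¬ A49 := fun h => c174 h q905 q523
                                      have q907 : ¬ A61 := fun h => c156 h q12 q906
                                      have q908 : A30 := Classical.byContradiction fun h => c201 q903 h q495
                                      have q909 : ¬ A230 := fun h => c303 h q907 q493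
                                      have q910 : ¬ A223 := fun h => c67 q909 h q899
                                      have q911 : A222 := Classical.byContradiction fun h => c66 h q910 q898
                                      have q912 : A134 := Classical.byContradiction fun h => c302 q911 q910 h
                                      have q913 : A215 := Classical.byContradiction fun h => c295 q912 q877 h
                                      have q914 : A227 := Classical.byContradiction fun h => c289 q913 q897 h
                                      have q915 : A219 := Classical.byContradiction fun h => c293 q914 h q486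
                                      have q916 : A196 := Classical.byContradiction fun h => c152 q915 q907 h
                                      have q917 : A44 := Classical.byContradiction fun h => c15 h q916 q403
                                      have q918 : A59 := Classical.byContradiction fun h => c108 q917 h q505
                                      exact c111 q918 q916
                                · have q919 : ¬ A50 := fun h => c179 h q880 q525
                                  have q920 : A188 := Classical.byContradiction fun h => c190 q524 h q880
                                  rcases Classical.em A98 with q921 | q921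
                                  · have q922 : A81 := Classical.byContradiction fun h => c205 q921 q551 h
                                    rcases Classical.em A30 with q923 | q923
                                    · rcases Classical.em A221 with q924 | q924
                                      · have q925 : A219 := Classical.byContradiction fun h => c301 q924 h q493
                                        rcases Classical.em A196 with q926 | q926
                                        · have q927 : A44 := Classical.byContradiction fun h => c15 h q926 q403
                                          have q928 : A59 := Classical.byContradiction fun h => c108 q927 h q505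
                                          exact c111 q928 q926
                                        · have q929 : A61 := Classical.byContradiction fun h => c152 q925 h q926
                                          have q930 : A49 := Classical.byContradiction fun h => c156 q929 q12 h
                                          have q931 : A129 := Classical.byContradiction fun h => c174 q930 h q523
                                          have q932 : A10 := Classical.byContradiction fun h => c176 q931 h q205
                                          have q933 : ¬ A91 := fun h => c177 q932 h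
                                          have q934 : A11 := Classical.byContradiction fun h => c216 q5 q933 h
                                          have q935 : A87 := Classical.byContradiction fun h => c29 q11 q934 h
                                          have q936 : A102 := Classical.byContradiction fun h => c30 q6 h q935
                                          exact c209 q934 q936
                                      · have q937 : A213 := Classical.byContradiction fun h => c290 q876 h q924
                                        have q938 : ¬ A224 := fun h => c291 h q924 q877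
                                        have q939 : ¬ A214 := fun h => c65 q938 h q924
                                        have q940 : A226 := Classical.byContradiction fun h => c288 q937 q939 h
                                        have q941 : ¬ A225 := fun h => c292 h q938 q939
                                        rcases Classical.em A11 with q942 | q942
                                        · have q943 : A87 := Classical.byContradiction fun h => c29 q11 q942 h
                                          have q944 : A102 := Classical.byContradiction fun h => c30 q6 h q943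
                                          exact c209 q942 q944
                                        · have q945 : A91 := Classical.byContradiction fun h => c216 q5 h q942
                                          have q946 : ¬ A10 := fun h => c177 h q945
                                          have q947 : ¬ A129 := fun h => c176 h q946 q205
                                          have q948 : ¬ A49 := fun h => c174 h q947 q523
                                          have q949 : ¬ A61 := fun h => c156 h q12 q948
                                          have q950 : ¬ A230 := fun h => c303 h q949 q493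
                                          have q951 : ¬ A223 := fun h => c67 q950 h q941
                                          have q952 : A222 := Classical.byContradiction fun h => c66 h q951 q940
                                          have q953 : A134 := Classical.byContradiction fun h => c302 q952 q951 h
                                          have q954 : A215 := Classical.byContradiction fun h => c295 q953 q877 h
                                          have q955 : A227 := Classical.byContradiction fun h => c289 q954 q939 h
                                          have q956 : A219 := Classical.byContradiction fun h => c293 q955 h q486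
                                          have q957 : A196 := Classical.byContradiction fun h => c152 q956 q949 h
                                          have q958 : A44 := Classical.byContradiction fun h => c15 h q957 q403
                                          have q959 : A59 := Classical.byContradiction fun h => c108 q958 h q505
                                          exact c111 q959 q957
                                    · have q960 : ¬ A139 := fun h => c37 q561 h q923
                                      have q961 : ¬ A91 := fun h => c201 h q923 q495
                                      have q962 : A82 := Classical.byContradiction fun h => c206 q921 q923 h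
                                      have q963 : A11 := Classical.byContradiction fun h => c216 q5 q961 h
                                      have q964 : A87 := Classical.byContradiction fun h => c29 q11 q963 h
                                      have q965 : A102 := Classical.byContradiction fun h => c30 q6 h q964
                                      exact c209 q963 q965
                                  · have q966 : ¬ A80 := fun h => c180 h q880 q921
                                    have q967 : ¬ A84 := fun h => c193 h q505 q921
                                    rcases Classical.em A221 with q968 | q968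
                                    · have q969 : A219 := Classical.byContradiction fun h => c301 q968 h q493
                                      rcases Classical.em A196 with q970 | q970
                                      · have q971 : A44 := Classical.byContradiction fun h => c15 h q970 q403
                                        have q972 : A59 := Classical.byContradiction fun h => c108 q971 h q505
                                        exact c111 q972 q970
                                      · have q973 : A61 := Classical.byContradiction fun h => c152 q969 h q970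
                                        have q974 : A49 := Classical.byContradiction fun h => c156 q973 q12 h
                                        have q975 : A129 := Classical.byContradiction fun h => c174 q974 h q523
                                        have q976 : A10 := Classical.byContradiction fun h => c176 q975 h q205
                                        have q977 : ¬ A91 := fun h => c177 q976 h
                                        have q978 : A11 := Classical.byContradiction fun h => c216 q5 q977 h
                                        have q979 : A87 := Classical.byContradiction fun h => c29 q11 q978 h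
                                        have q980 : A102 := Classical.byContradiction fun h => c30 q6 h q979
                                        exact c209 q978 q980
                                    · have q981 : A213 := Classical.byContradiction fun h => c290 q876 h q968
                                      have q982 : ¬ A224 := fun h => c291 h q968 q877
                                      have q983 : ¬ A214 := fun h => c65 q982 h q968
                                      have q984 : A226 := Classical.byContradiction fun h => c288 q981 q983 h
                                      have q985 : ¬ A225 := fun h => c292 h q982 q983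
                                      rcases Classical.em A11 with q986 | q986
                                      · have q987 : A87 := Classical.byContradiction fun h => c29 q11 q986 h
                                        have q988 : A102 := Classical.byContradiction fun h => c30 q6 h q987
                                        exact c209 q986 q988
                                      · have q989 : A91 := Classical.byContradiction fun h => c216 q5 h q986
                                        have q990 : ¬ A10 := fun h => c177 h q989
                                        have q991 : ¬ A129 := fun h => c176 h q990 q205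
                                        have q992 : ¬ A49 := fun h => c174 h q991 q523
                                        have q993 : ¬ A61 := fun h => c156 h q12 q992
                                        have q994 : A30 := Classical.byContradiction fun h => c201 q989 h q495
                                        have q995 : ¬ A230 := fun h => c303 h q993 q493
                                        have q996 : ¬ A223 := fun h => c67 q995 h q985
                                        have q997 : A222 := Classical.byContradiction fun h => c66 h q996 q984
                                        have q998 : A134 := Classical.byContradiction fun h => c302 q997 q996 h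
                                        have q999 : A215 := Classical.byContradiction fun h => c295 q998 q877 h
                                        have q1000 : A227 := Classical.byContradiction fun h => c289 q999 q983 h
                                        have q1001 : A219 := Classical.byContradiction fun h => c293 q1000 h q486
                                        have q1002 : A196 := Classical.byContradiction fun h => c152 q1001 q993 h
                                        have q1003 : A44 := Classical.byContradiction fun h => c15 h q1002 q403
                                        have q1004 : A59 := Classical.byContradiction fun h => c108 q1003 h q505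
                                        exact c111 q1004 q1002
                              · have q1005 : ¬ A62 := fun h => c171 h q403 q878
                                have q1006 : ¬ A64 := fun h => c187 h q504 q878
                                have q1007 : ¬ A28 := fun h => c11 q1006 h q504
                                have q1008 : ¬ A30 := fun h => c202 h q878 q1007
                                have q1009 : ¬ A139 := fun h => c37 q561 h q1008
                                have q1010 : ¬ A91 := fun h => c201 h q1008 q495
                                have q1011 : A11 := Classical.byContradiction fun h => c216 q5 q1010 h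
                                have q1012 : A87 := Classical.byContradiction fun h => c29 q11 q1011 h
                                have q1013 : A102 := Classical.byContradiction fun h => c30 q6 h q1012
                                exact c209 q1011 q1013
                            · have q1014 : ¬ A82 := fun h => c124 h q496 q870
                              have q1015 : A29 := Classical.byContradiction fun h => c131 q548 q870 h
                              rcases Classical.em A30 with q1016 | q1016
                              · rcases Classical.em A60 with q1017 | q1017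
                                · have q1018 : A55 := Classical.byContradiction fun h => c18 h q523 q1017
                                  have q1019 : A220 := Classical.byContradiction fun h => c198 q1018 h q523
                                  have q1020 : A210 := Classical.byContradiction fun h => c305 q1019 h q12
                                  have q1021 : A211 := Classical.byContradiction fun h => c63 h q399 q1020
                                  have q1022 : ¬ A209 := fun h => c296 h q1021
                                  have q1023 : A212 := Classical.byContradiction fun h => c297 q1021 h q399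
                                  have q1024 : ¬ A133 := fun h => c300 h q399 q1022
                                  rcases Classical.em A13 with q1025 | q1025
                                  · have q1026 : A36 := Classical.byContradiction fun h => c181 q1025 h q504
                                    rcases Classical.em A40 with q1027 | q1027
                                    · have q1028 : A34 := Classical.byContradiction fun h => c248 q1027 q1014 h
                                      have q1029 : A24 := Classical.byContradiction fun h => c153 q1028 q12 h
                                      rcases Classical.em A221 with q1030 | q1030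
                                      · have q1031 : A219 := Classical.byContradiction fun h => c301 q1030 h q493
                                        rcases Classical.em A196 with q1032 | q1032
                                        · have q1033 : A44 := Classical.byContradiction fun h => c15 h q1032 q403
                                          have q1034 : A59 := Classical.byContradiction fun h => c108 q1033 h q505
                                          exact c111 q1034 q1032
                                        · have q1035 : A61 := Classical.byContradiction fun h => c152 q1031 h q1032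
                                          have q1036 : A49 := Classical.byContradiction fun h => c156 q1035 q12 h
                                          have q1037 : A129 := Classical.byContradiction fun h => c174 q1036 h q523
                                          have q1038 : A10 := Classical.byContradiction fun h => c176 q1037 h q205
                                          have q1039 : ¬ A91 := fun h => c177 q1038 h
                                          have q1040 : A11 := Classical.byContradiction fun h => c216 q5 q1039 h
                                          have q1041 : A87 := Classical.byContradiction fun h => c29 q11 q1040 h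
                                          have q1042 : A102 := Classical.byContradiction fun h => c30 q6 h q1041
                                          exact c209 q1040 q1042
                                      · have q1043 : A213 := Classical.byContradiction fun h => c290 q1023 h q1030
                                        have q1044 : ¬ A224 := fun h => c291 h q1030 q1024
                                        have q1045 : ¬ A214 := fun h => c65 q1044 h q1030
                                        have q1046 : A226 := Classical.byContradiction fun h => c288 q1043 q1045 h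
                                        have q1047 : ¬ A225 := fun h => c292 h q1044 q1045
                                        rcases Classical.em A11 with q1048 | q1048
                                        · have q1049 : A87 := Classical.byContradiction fun h => c29 q11 q1048 h
                                          have q1050 : A102 := Classical.byContradiction fun h => c30 q6 h q1049
                                          exact c209 q1048 q1050
                                        · have q1051 : A91 := Classical.byContradiction fun h => c216 q5 h q1048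
                                          have q1052 : ¬ A10 := fun h => c177 h q1051
                                          have q1053 : ¬ A129 := fun h => c176 h q1052 q205
                                          have q1054 : ¬ A49 := fun h => c174 h q1053 q523
                                          have q1055 : ¬ A61 := fun h => c156 h q12 q1054
                                          have q1056 : ¬ A230 := fun h => c303 h q1055 q493
                                          have q1057 : ¬ A223 := fun h => c67 q1056 h q1047
                                          have q1058 : A222 := Classical.byContradiction fun h => c66 h q1057 q1046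
                                          have q1059 : A134 := Classical.byContradiction fun h => c302 q1058 q1057 h
                                          have q1060 : A215 := Classical.byContradiction fun h => c295 q1059 q1024 h
                                          have q1061 : A227 := Classical.byContradiction fun h => c289 q1060 q1045 h
                                          have q1062 : A219 := Classical.byContradiction fun h => c293 q1061 h q486
                                          have q1063 : A196 := Classical.byContradiction fun h => c152 q1062 q1055 h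
                                          have q1064 : A44 := Classical.byContradiction fun h => c15 h q1063 q403
                                          have q1065 : A59 := Classical.byContradiction fun h => c108 q1064 h q505
                                          exact c111 q1065 q1063
                                    · have q1066 : ¬ A155 := fun h => c237 h q560 q1027
                                      have q1067 : ¬ A144 := fun h => c42 q1066 h q1027
                                      have q1068 : ¬ A143 := fun h => c239 h q1067 q1066
                                      have q1069 : A157 := Classical.byContradiction fun h => c240 q559 q1027 h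
                                      have q1070 : A158 := Classical.byContradiction fun h => c238 q1069 h q1067
                                      rcases Classical.em A221 with q1071 | q1071
                                      · have q1072 : A219 := Classical.byContradiction fun h => c301 q1071 h q493
                                        rcases Classical.em A196 with q1073 | q1073
                                        · have q1074 : A44 := Classical.byContradiction fun h => c15 h q1073 q403
                                          have q1075 : A59 := Classical.byContradiction fun h => c108 q1074 h q505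
                                          exact c111 q1075 q1073
                                        · have q1076 : A61 := Classical.byContradiction fun h => c152 q1072 h q1073
                                          have q1077 : A49 := Classical.byContradiction fun h => c156 q1076 q12 h
                                          have q1078 : A129 := Classical.byContradiction fun h => c174 q1077 h q523
                                          have q1079 : A10 := Classical.byContradiction fun h => c176 q1078 h q205
                                          have q1080 : ¬ A91 := fun h => c177 q1079 h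
                                          have q1081 : A11 := Classical.byContradiction fun h => c216 q5 q1080 h
                                          have q1082 : A87 := Classical.byContradiction fun h => c29 q11 q1081 h
                                          have q1083 : A102 := Classical.byContradiction fun h => c30 q6 h q1082
                                          exact c209 q1081 q1083
                                      · have q1084 : A213 := Classical.byContradiction fun h => c290 q1023 h q1071
                                        have q1085 : ¬ A224 := fun h => c291 h q1071 q1024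
                                        have q1086 : ¬ A214 := fun h => c65 q1085 h q1071
                                        have q1087 : A226 := Classical.byContradiction fun h => c288 q1084 q1086 h
                                        have q1088 : ¬ A225 := fun h => c292 h q1085 q1086
                                        rcases Classical.em A11 with q1089 | q1089
                                        · have q1090 : A87 := Classical.byContradiction fun h => c29 q11 q1089 h
                                          have q1091 : A102 := Classical.byContradiction fun h => c30 q6 h q1090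
                                          exact c209 q1089 q1091
                                        · have q1092 : A91 := Classical.byContradiction fun h => c216 q5 h q1089
                                          have q1093 : ¬ A10 := fun h => c177 h q1092
                                          have q1094 : ¬ A129 := fun h => c176 h q1093 q205
                                          have q1095 : ¬ A49 := fun h => c174 h q1094 q523
                                          have q1096 : ¬ A61 := fun h => c156 h q12 q1095
                                          have q1097 : ¬ A230 := fun h => c303 h q1096 q493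
                                          have q1098 : ¬ A223 := fun h => c67 q1097 h q1088
                                          have q1099 : A222 := Classical.byContradiction fun h => c66 h q1098 q1087
                                          have q1100 : A134 := Classical.byContradiction fun h => c302 q1099 q1098 h
                                          have q1101 : A215 := Classical.byContradiction fun h => c295 q1100 q1024 h
                                          have q1102 : A227 := Classical.byContradiction fun h => c289 q1101 q1086 h
                                          have q1103 : A219 := Classical.byContradiction fun h => c293 q1102 h q486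
                                          have q1104 : A196 := Classical.byContradiction fun h => c152 q1103 q1096 h
                                          have q1105 : A44 := Classical.byContradiction fun h => c15 h q1104 q403
                                          have q1106 : A59 := Classical.byContradiction fun h => c108 q1105 h q505
                                          exact c111 q1106 q1104
                                  · have q1107 : ¬ A50 := fun h => c179 h q1025 q525
                                    have q1108 : A188 := Classical.byContradiction fun h => c190 q524 h q1025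
                                    rcases Classical.em A40 with q1109 | q1109
                                    · have q1110 : A34 := Classical.byContradiction fun h => c248 q1109 q1014 h
                                      have q1111 : A24 := Classical.byContradiction fun h => c153 q1110 q12 h
                                      rcases Classical.em A221 with q1112 | q1112
                                      · have q1113 : A219 := Classical.byContradiction fun h => c301 q1112 h q493
                                        rcases Classical.em A196 with q1114 | q1114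
                                        · have q1115 : A44 := Classical.byContradiction fun h => c15 h q1114 q403
                                          have q1116 : A59 := Classical.byContradiction fun h => c108 q1115 h q505
                                          exact c111 q1116 q1114
                                        · have q1117 : A61 := Classical.byContradiction fun h => c152 q1113 h q1114
                                          have q1118 : A49 := Classical.byContradiction fun h => c156 q1117 q12 h
                                          have q1119 : A129 := Classical.byContradiction fun h => c174 q1118 h q523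
                                          have q1120 : A10 := Classical.byContradiction fun h => c176 q1119 h q205
                                          have q1121 : ¬ A91 := fun h => c177 q1120 h
                                          have q1122 : A11 := Classical.byContradiction fun h => c216 q5 q1121 h
                                          have q1123 : A87 := Classical.byContradiction fun h => c29 q11 q1122 h
                                          have q1124 : A102 := Classical.byContradiction fun h => c30 q6 h q1123
                                          exact c209 q1122 q1124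
                                      · have q1125 : A213 := Classical.byContradiction fun h => c290 q1023 h q1112
                                        have q1126 : ¬ A224 := fun h => c291 h q1112 q1024
                                        have q1127 : ¬ A214 := fun h => c65 q1126 h q1112
                                        have q1128 : A226 := Classical.byContradiction fun h => c288 q1125 q1127 h
                                        have q1129 : ¬ A225 := fun h => c292 h q1126 q1127
                                        rcases Classical.em A11 with q1130 | q1130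
                                        · have q1131 : A87 := Classical.byContradiction fun h => c29 q11 q1130 h
                                          have q1132 : A102 := Classical.byContradiction fun h => c30 q6 h q1131
                                          exact c209 q1130 q1132
                                        · have q1133 : A91 := Classical.byContradiction fun h => c216 q5 h q1130
                                          have q1134 : ¬ A10 := fun h => c177 h q1133
                                          have q1135 : ¬ A129 := fun h => c176 h q1134 q205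
                                          have q1136 : ¬ A49 := fun h => c174 h q1135 q523
                                          have q1137 : ¬ A61 := fun h => c156 h q12 q1136
                                          have q1138 : ¬ A230 := fun h => c303 h q1137 q493
                                          have q1139 : ¬ A223 := fun h => c67 q1138 h q1129
                                          have q1140 : A222 := Classical.byContradiction fun h => c66 h q1139 q1128
                                          have q1141 : A134 := Classical.byContradiction fun h => c302 q1140 q1139 h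
                                          have q1142 : A215 := Classical.byContradiction fun h => c295 q1141 q1024 h
                                          have q1143 : A227 := Classical.byContradiction fun h => c289 q1142 q1127 h
                                          have q1144 : A219 := Classical.byContradiction fun h => c293 q1143 h q486
                                          have q1145 : A196 := Classical.byContradiction fun h => c152 q1144 q1137 h
                                          have q1146 : A44 := Classical.byContradiction fun h => c15 h q1145 q403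
                                          have q1147 : A59 := Classical.byContradiction fun h => c108 q1146 h q505
                                          exact c111 q1147 q1145
                                    · have q1148 : ¬ A155 := fun h => c237 h q560 q1109
                                      have q1149 : ¬ A144 := fun h => c42 q1148 h q1109
                                      have q1150 : ¬ A143 := fun h => c239 h q1149 q1148
                                      have q1151 : A157 := Classical.byContradiction fun h => c240 q559 q1109 h
                                      have q1152 : A158 := Classical.byContradiction fun h => c238 q1151 h q1149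
                                      rcases Classical.em A221 with q1153 | q1153
                                      · have q1154 : A219 := Classical.byContradiction fun h => c301 q1153 h q493
                                        rcases Classical.em A196 with q1155 | q1155
                                        · have q1156 : A44 := Classical.byContradiction fun h => c15 h q1155 q403
                                          have q1157 : A59 := Classical.byContradiction fun h => c108 q1156 h q505
                                          exact c111 q1157 q1155
                                        · have q1158 : A61 := Classical.byContradiction fun h => c152 q1154 h q1155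
                                          have q1159 : A49 := Classical.byContradiction fun h => c156 q1158 q12 h
                                          have q1160 : A129 := Classical.byContradiction fun h => c174 q1159 h q523
                                          have q1161 : A10 := Classical.byContradiction fun h => c176 q1160 h q205
                                          have q1162 : ¬ A91 := fun h => c177 q1161 h
                                          have q1163 : A11 := Classical.byContradiction fun h => c216 q5 q1162 h
                                          have q1164 : A87 := Classical.byContradiction fun h => c29 q11 q1163 h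
                                          have q1165 : A102 := Classical.byContradiction fun h => c30 q6 h q1164
                                          exact c209 q1163 q1165
                                      · have q1166 : A213 := Classical.byContradiction fun h => c290 q1023 h q1153
                                        have q1167 : ¬ A224 := fun h => c291 h q1153 q1024
                                        have q1168 : ¬ A214 := fun h => c65 q1167 h q1153
                                        have q1169 : A226 := Classical.byContradiction fun h => c288 q1166 q1168 h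
                                        have q1170 : ¬ A225 := fun h => c292 h q1167 q1168
                                        rcases Classical.em A11 with q1171 | q1171
                                        · have q1172 : A87 := Classical.byContradiction fun h => c29 q11 q1171 h
                                          have q1173 : A102 := Classical.byContradiction fun h => c30 q6 h q1172
                                          exact c209 q1171 q1173
                                        · have q1174 : A91 := Classical.byContradiction fun h => c216 q5 h q1171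
                                          have q1175 : ¬ A10 := fun h => c177 h q1174
                                          have q1176 : ¬ A129 := fun h => c176 h q1175 q205
                                          have q1177 : ¬ A49 := fun h => c174 h q1176 q523
                                          have q1178 : ¬ A61 := fun h => c156 h q12 q1177
                                          have q1179 : ¬ A230 := fun h => c303 h q1178 q493
                                          have q1180 : ¬ A223 := fun h => c67 q1179 h q1170
                                          have q1181 : A222 := Classical.byContradiction fun h => c66 h q1180 q1169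
                                          have q1182 : A134 := Classical.byContradiction fun h => c302 q1181 q1180 h
                                          have q1183 : A215 := Classical.byContradiction fun h => c295 q1182 q1024 h
                                          have q1184 : A227 := Classical.byContradiction fun h => c289 q1183 q1168 h
                                          have q1185 : A219 := Classical.byContradiction fun h => c293 q1184 h q486
                                          have q1186 : A196 := Classical.byContradiction fun h => c152 q1185 q1178 h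
                                          have q1187 : A44 := Classical.byContradiction fun h => c15 h q1186 q403
                                          have q1188 : A59 := Classical.byContradiction fun h => c108 q1187 h q505
                                          exact c111 q1188 q1186
                                · have q1189 : ¬ A62 := fun h => c171 h q403 q1017
                                  have q1190 : ¬ A64 := fun h => c187 h q504 q1017
                                  have q1191 : ¬ A28 := fun h => c11 q1190 h q504
                                  exact c202 q1016 q1017 q1191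
                              · have q1192 : ¬ A139 := fun h => c37 q561 h q1016
                                have q1193 : A22 := Classical.byContradiction fun h => c197 q1015 h q1016
                                have q1194 : ¬ A91 := fun h => c201 h q1016 q495
                                have q1195 : ¬ A98 := fun h => c206 h q1016 q1014
                                have q1196 : ¬ A84 := fun h => c193 h q505 q1195
                                have q1197 : A11 := Classical.byContradiction fun h => c216 q5 q1194 h
                                have q1198 : A87 := Classical.byContradiction fun h => c29 q11 q1197 h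
                                have q1199 : A102 := Classical.byContradiction fun h => c30 q6 h q1198
                                exact c209 q1197 q1199
                          · have q1200 : ¬ A191 := fun h => c188 h q866 q7
                            rcases Classical.em A60 with q1201 | q1201
                            · have q1202 : A55 := Classical.byContradiction fun h => c18 h q523 q1201
                              have q1203 : A220 := Classical.byContradiction fun h => c198 q1202 h q523
                              have q1204 : A210 := Classical.byContradiction fun h => c305 q1203 h q12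
                              have q1205 : A211 := Classical.byContradiction fun h => c63 h q399 q1204
                              have q1206 : ¬ A209 := fun h => c296 h q1205
                              have q1207 : A212 := Classical.byContradiction fun h => c297 q1205 h q399
                              have q1208 : ¬ A133 := fun h => c300 h q399 q1206
                              rcases Classical.em A196 with q1209 | q1209
                              · have q1210 : A44 := Classical.byContradiction fun h => c15 h q1209 q403
                                have q1211 : A59 := Classical.byContradiction fun h => c108 q1210 h q505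
                                exact c111 q1211 q1209
                              · have q1212 : A27 := Classical.byContradiction fun h => c16 h q1209 q547
                                rcases Classical.em A13 with q1213 | q1213
                                · have q1214 : A36 := Classical.byContradiction fun h => c181 q1213 h q504
                                  rcases Classical.em A219 with q1215 | q1215
                                  · have q1216 : A61 := Classical.byContradiction fun h => c152 q1215 h q1209
                                    have q1217 : A49 := Classical.byContradiction fun h => c156 q1216 q12 h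
                                    have q1218 : A129 := Classical.byContradiction fun h => c174 q1217 h q523
                                    have q1219 : A10 := Classical.byContradiction fun h => c176 q1218 h q205
                                    have q1220 : ¬ A91 := fun h => c177 q1219 h
                                    have q1221 : A11 := Classical.byContradiction fun h => c216 q5 q1220 h
                                    have q1222 : A87 := Classical.byContradiction fun h => c29 q11 q1221 h
                                    have q1223 : A102 := Classical.byContradiction fun h => c30 q6 h q1222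
                                    exact c209 q1221 q1223
                                  · have q1224 : ¬ A227 := fun h => c293 h q1215 q486
                                    have q1225 : ¬ A221 := fun h => c301 h q1215 q493
                                    have q1226 : A213 := Classical.byContradiction fun h => c290 q1207 h q1225
                                    have q1227 : ¬ A224 := fun h => c291 h q1225 q1208
                                    have q1228 : ¬ A214 := fun h => c65 q1227 h q1225
                                    have q1229 : A226 := Classical.byContradiction fun h => c288 q1226 q1228 h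
                                    have q1230 : ¬ A215 := fun h => c289 h q1228 q1224
                                    have q1231 : ¬ A225 := fun h => c292 h q1227 q1228
                                    have q1232 : ¬ A134 := fun h => c295 h q1208 q1230
                                    rcases Classical.em A11 with q1233 | q1233
                                    · have q1234 : A87 := Classical.byContradiction fun h => c29 q11 q1233 h
                                      have q1235 : A102 := Classical.byContradiction fun h => c30 q6 h q1234
                                      exact c209 q1233 q1235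
                                    · have q1236 : A91 := Classical.byContradiction fun h => c216 q5 h q1233
                                      have q1237 : ¬ A10 := fun h => c177 h q1236
                                      have q1238 : ¬ A129 := fun h => c176 h q1237 q205
                                      have q1239 : ¬ A49 := fun h => c174 h q1238 q523
                                      have q1240 : ¬ A61 := fun h => c156 h q12 q1239
                                      have q1241 : A30 := Classical.byContradiction fun h => c201 q1236 h q495
                                      have q1242 : ¬ A230 := fun h => c303 h q1240 q493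
                                      have q1243 : ¬ A223 := fun h => c67 q1242 h q1231
                                      have q1244 : A222 := Classical.byContradiction fun h => c66 h q1243 q1229
                                      exact c302 q1244 q1243 q1232
                                · have q1245 : ¬ A50 := fun h => c179 h q1213 q525
                                  have q1246 : A188 := Classical.byContradiction fun h => c190 q524 h q1213
                                  have q1247 : ¬ A183 := fun h => c267 h q866 q1245
                                  have q1248 : ¬ A192 := fun h => c271 h q1200 q1245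
                                  rcases Classical.em A98 with q1249 | q1249
                                  · have q1250 : A81 := Classical.byContradiction fun h => c205 q1249 q551 h
                                    rcases Classical.em A30 with q1251 | q1251
                                    · rcases Classical.em A219 with q1252 | q1252
                                      · have q1253 : A61 := Classical.byContradiction fun h => c152 q1252 h q1209
                                        have q1254 : A49 := Classical.byContradiction fun h => c156 q1253 q12 h
                                        have q1255 : A129 := Classical.byContradiction fun h => c174 q1254 h q523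
                                        have q1256 : A10 := Classical.byContradiction fun h => c176 q1255 h q205
                                        have q1257 : ¬ A91 := fun h => c177 q1256 h
                                        have q1258 : A11 := Classical.byContradiction fun h => c216 q5 q1257 h
                                        have q1259 : A87 := Classical.byContradiction fun h => c29 q11 q1258 h
                                        have q1260 : A102 := Classical.byContradiction fun h => c30 q6 h q1259
                                        exact c209 q1258 q1260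
                                      · have q1261 : ¬ A227 := fun h => c293 h q1252 q486
                                        have q1262 : ¬ A221 := fun h => c301 h q1252 q493
                                        have q1263 : A213 := Classical.byContradiction fun h => c290 q1207 h q1262
                                        have q1264 : ¬ A224 := fun h => c291 h q1262 q1208
                                        have q1265 : ¬ A214 := fun h => c65 q1264 h q1262
                                        have q1266 : A226 := Classical.byContradiction fun h => c288 q1263 q1265 h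
                                        have q1267 : ¬ A215 := fun h => c289 h q1265 q1261
                                        have q1268 : ¬ A225 := fun h => c292 h q1264 q1265
                                        have q1269 : ¬ A134 := fun h => c295 h q1208 q1267
                                        rcases Classical.em A11 with q1270 | q1270
                                        · have q1271 : A87 := Classical.byContradiction fun h => c29 q11 q1270 h
                                          have q1272 : A102 := Classical.byContradiction fun h => c30 q6 h q1271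
                                          exact c209 q1270 q1272
                                        · have q1273 : A91 := Classical.byContradiction fun h => c216 q5 h q1270
                                          have q1274 : ¬ A10 := fun h => c177 h q1273
                                          have q1275 : ¬ A129 := fun h => c176 h q1274 q205
                                          have q1276 : ¬ A49 := fun h => c174 h q1275 q523
                                          have q1277 : ¬ A61 := fun h => c156 h q12 q1276
                                          have q1278 : ¬ A230 := fun h => c303 h q1277 q493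
                                          have q1279 : ¬ A223 := fun h => c67 q1278 h q1268
                                          have q1280 : A222 := Classical.byContradiction fun h => c66 h q1279 q1266
                                          exact c302 q1280 q1279 q1269
                                    · have q1281 : ¬ A139 := fun h => c37 q561 h q1251
                                      have q1282 : ¬ A91 := fun h => c201 h q1251 q495
                                      have q1283 : A82 := Classical.byContradiction fun h => c206 q1249 q1251 h
                                      have q1284 : A128 := Classical.byContradiction fun h => c124 q1283 q496 h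
                                      have q1285 : A124 := Classical.byContradiction fun h => c134 q1284 h q203
                                      have q1286 : A11 := Classical.byContradiction fun h => c216 q5 q1282 h
                                      have q1287 : A87 := Classical.byContradiction fun h => c29 q11 q1286 h
                                      have q1288 : A102 := Classical.byContradiction fun h => c30 q6 h q1287
                                      exact c209 q1286 q1288
                                  · have q1289 : ¬ A80 := fun h => c180 h q1213 q1249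
                                    have q1290 : ¬ A84 := fun h => c193 h q505 q1249
                                    rcases Classical.em A219 with q1291 | q1291
                                    · have q1292 : A61 := Classical.byContradiction fun h => c152 q1291 h q1209
                                      have q1293 : A49 := Classical.byContradiction fun h => c156 q1292 q12 h
                                      have q1294 : A129 := Classical.byContradiction fun h => c174 q1293 h q523
                                      have q1295 : A10 := Classical.byContradiction fun h => c176 q1294 h q205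
                                      have q1296 : ¬ A91 := fun h => c177 q1295 h
                                      have q1297 : A11 := Classical.byContradiction fun h => c216 q5 q1296 h
                                      have q1298 : A87 := Classical.byContradiction fun h => c29 q11 q1297 h
                                      have q1299 : A102 := Classical.byContradiction fun h => c30 q6 h q1298
                                      exact c209 q1297 q1299
                                    · have q1300 : ¬ A227 := fun h => c293 h q1291 q486
                                      have q1301 : ¬ A221 := fun h => c301 h q1291 q493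
                                      have q1302 : A213 := Classical.byContradiction fun h => c290 q1207 h q1301
                                      have q1303 : ¬ A224 := fun h => c291 h q1301 q1208
                                      have q1304 : ¬ A214 := fun h => c65 q1303 h q1301
                                      have q1305 : A226 := Classical.byContradiction fun h => c288 q1302 q1304 h
                                      have q1306 : ¬ A215 := fun h => c289 h q1304 q1300
                                      have q1307 : ¬ A225 := fun h => c292 h q1303 q1304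
                                      have q1308 : ¬ A134 := fun h => c295 h q1208 q1306
                                      rcases Classical.em A11 with q1309 | q1309
                                      · have q1310 : A87 := Classical.byContradiction fun h => c29 q11 q1309 h
                                        have q1311 : A102 := Classical.byContradiction fun h => c30 q6 h q1310
                                        exact c209 q1309 q1311
                                      · have q1312 : A91 := Classical.byContradiction fun h => c216 q5 h q1309
                                        have q1313 : ¬ A10 := fun h => c177 h q1312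
                                        have q1314 : ¬ A129 := fun h => c176 h q1313 q205
                                        have q1315 : ¬ A49 := fun h => c174 h q1314 q523
                                        have q1316 : ¬ A61 := fun h => c156 h q12 q1315
                                        have q1317 : A30 := Classical.byContradiction fun h => c201 q1312 h q495
                                        have q1318 : ¬ A230 := fun h => c303 h q1316 q493
                                        have q1319 : ¬ A223 := fun h => c67 q1318 h q1307
                                        have q1320 : A222 := Classical.byContradiction fun h => c66 h q1319 q1305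
                                        exact c302 q1320 q1319 q1308
                            · have q1321 : ¬ A124 := fun h => c127 h q1201 q866
                              have q1322 : ¬ A128 := fun h => c134 h q1321 q203
                              have q1323 : ¬ A82 := fun h => c124 h q496 q1322
                              have q1324 : A29 := Classical.byContradiction fun h => c131 q548 q1322 h
                              have q1325 : ¬ A62 := fun h => c171 h q403 q1201
                              have q1326 : ¬ A64 := fun h => c187 h q504 q1201
                              have q1327 : ¬ A28 := fun h => c11 q1326 h q504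
                              have q1328 : A27 := Classical.byContradiction fun h => c10 h q1327 q503
                              have q1329 : ¬ A30 := fun h => c202 h q1201 q1327
                              have q1330 : ¬ A139 := fun h => c37 q561 h q1329
                              have q1331 : A22 := Classical.byContradiction fun h => c197 q1324 h q1329
                              have q1332 : ¬ A91 := fun h => c201 h q1329 q495
                              have q1333 : ¬ A98 := fun h => c206 h q1329 q1323
                              have q1334 : ¬ A84 := fun h => c193 h q505 q1333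
                              have q1335 : A11 := Classical.byContradiction fun h => c216 q5 q1332 h
                              have q1336 : A87 := Classical.byContradiction fun h => c29 q11 q1335 h
                              have q1337 : A102 := Classical.byContradiction fun h => c30 q6 h q1336
                              exact c209 q1335 q1337
                      · have q1338 : ¬ A22 := fun h => c70 q549 q12 h
                        have q1339 : ¬ A219 := fun h => c151 h q549 q501
                        have q1340 : ¬ A227 := fun h => c293 h q1339 q486
                        have q1341 : ¬ A221 := fun h => c301 h q1339 q493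
                        rcases Classical.em A25 with q1342 | q1342
                        · have q1343 : A31 := Classical.byContradiction fun h => c101 q1342 q10 h
                          have q1344 : A24 := Classical.byContradiction fun h => c102 q1342 q1 h
                          have q1345 : A36 := Classical.byContradiction fun h => c178 q1342 h q499
                          rcases Classical.em A18 with q1346 | q1346
                          · have q1347 : A27 := Classical.byContradiction fun h => c138 q1346 h q495
                            have q1348 : A77 := Classical.byContradiction fun h => c139 q1346 h q12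
                            have q1349 : A203 := Classical.byContradiction fun h => c142 q1348 h q206
                            rcases Classical.em A128 with q1350 | q1350
                            · have q1351 : A220 := Classical.byContradiction fun h => c20 q400 q1350 h
                              have q1352 : A124 := Classical.byContradiction fun h => c134 q1350 h q203
                              have q1353 : A210 := Classical.byContradiction fun h => c305 q1351 h q12
                              have q1354 : A211 := Classical.byContradiction fun h => c63 h q399 q1353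
                              have q1355 : ¬ A209 := fun h => c296 h q1354
                              have q1356 : A212 := Classical.byContradiction fun h => c297 q1354 h q399
                              have q1357 : A213 := Classical.byContradiction fun h => c290 q1356 h q1341
                              have q1358 : ¬ A133 := fun h => c300 h q399 q1355
                              have q1359 : ¬ A224 := fun h => c291 h q1341 q1358
                              have q1360 : ¬ A214 := fun h => c65 q1359 h q1341
                              have q1361 : A226 := Classical.byContradiction fun h => c288 q1357 q1360 h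
                              have q1362 : ¬ A215 := fun h => c289 h q1360 q1340
                              have q1363 : ¬ A225 := fun h => c292 h q1359 q1360
                              have q1364 : ¬ A134 := fun h => c295 h q1358 q1362
                              rcases Classical.em A60 with q1365 | q1365
                              · have q1366 : A55 := Classical.byContradiction fun h => c18 h q523 q1365
                                rcases Classical.em A2 with q1367 | q1367
                                · have q1368 : ¬ A90 := fun h => c74 h q1367
                                  have q1369 : A73 := Classical.byContradiction fun h => c95 q1367 h q549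
                                  have q1370 : A81 := Classical.byContradiction fun h => c182 q1367 h q1338
                                  have q1371 : ¬ A241 := fun h => c183 h q10 q1368
                                  have q1372 : ¬ A121 := fun h => c0 q1371 h q1368
                                  have q1373 : A234 := Classical.byContradiction fun h => c173 u0 q1372 h
                                  have q1374 : A35 := Classical.byContradiction fun h => c164 q1373 h q488
                                  have q1375 : A151 := Classical.byContradiction fun h => c40 h q542 q1374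
                                  have q1376 : ¬ A154 := fun h => c245 q1375 h
                                  have q1377 : A39 := Classical.byContradiction fun h => c246 q1375 q542 h
                                  have q1378 : ¬ A153 := fun h => c247 h q1376 q542
                                  rcases Classical.em A11 with q1379 | q1379
                                  · have q1380 : A87 := Classical.byContradiction fun h => c29 q11 q1379 h
                                    have q1381 : A102 := Classical.byContradiction fun h => c30 q6 h q1380
                                    exact c209 q1379 q1381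
                                  · have q1382 : A91 := Classical.byContradiction fun h => c216 q5 h q1379
                                    have q1383 : ¬ A10 := fun h => c177 h q1382
                                    have q1384 : ¬ A129 := fun h => c176 h q1383 q205
                                    have q1385 : ¬ A49 := fun h => c174 h q1384 q523
                                    have q1386 : ¬ A61 := fun h => c156 h q12 q1385
                                    have q1387 : A30 := Classical.byContradiction fun h => c201 q1382 h q495
                                    have q1388 : ¬ A230 := fun h => c303 h q1386 q493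
                                    have q1389 : ¬ A223 := fun h => c67 q1388 h q1363
                                    have q1390 : A222 := Classical.byContradiction fun h => c66 h q1389 q1361
                                    exact c302 q1390 q1389 q1364
                                · rcases Classical.em A11 with q1391 | q1391
                                  · have q1392 : A87 := Classical.byContradiction fun h => c29 q11 q1391 h
                                    have q1393 : A102 := Classical.byContradiction fun h => c30 q6 h q1392
                                    exact c209 q1391 q1393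
                                  · have q1394 : A91 := Classical.byContradiction fun h => c216 q5 h q1391
                                    have q1395 : ¬ A10 := fun h => c177 h q1394
                                    have q1396 : ¬ A129 := fun h => c176 h q1395 q205
                                    have q1397 : ¬ A49 := fun h => c174 h q1396 q523
                                    have q1398 : ¬ A61 := fun h => c156 h q12 q1397
                                    have q1399 : A30 := Classical.byContradiction fun h => c201 q1394 h q495
                                    have q1400 : ¬ A230 := fun h => c303 h q1398 q493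
                                    have q1401 : ¬ A223 := fun h => c67 q1400 h q1363
                                    have q1402 : A222 := Classical.byContradiction fun h => c66 h q1401 q1361
                                    exact c302 q1402 q1401 q1364
                              · have q1403 : ¬ A62 := fun h => c171 h q403 q1365
                                have q1404 : ¬ A64 := fun h => c187 h q504 q1365
                                have q1405 : ¬ A28 := fun h => c11 q1404 h q504
                                have q1406 : ¬ A30 := fun h => c202 h q1365 q1405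
                                have q1407 : ¬ A29 := fun h => c197 h q1338 q1406
                                have q1408 : ¬ A91 := fun h => c201 h q1406 q495
                                have q1409 : A11 := Classical.byContradiction fun h => c216 q5 q1408 h
                                have q1410 : A87 := Classical.byContradiction fun h => c29 q11 q1409 h
                                have q1411 : A102 := Classical.byContradiction fun h => c30 q6 h q1410
                                exact c209 q1409 q1411
                            · have q1412 : ¬ A82 := fun h => c124 h q496 q1350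
                              have q1413 : A29 := Classical.byContradiction fun h => c131 q548 q1350 h
                              have q1414 : A30 := Classical.byContradiction fun h => c197 q1413 q1338 h
                              rcases Classical.em A60 with q1415 | q1415
                              · have q1416 : A55 := Classical.byContradiction fun h => c18 h q523 q1415
                                have q1417 : A220 := Classical.byContradiction fun h => c198 q1416 h q523
                                have q1418 : A210 := Classical.byContradiction fun h => c305 q1417 h q12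
                                have q1419 : A211 := Classical.byContradiction fun h => c63 h q399 q1418
                                have q1420 : ¬ A209 := fun h => c296 h q1419
                                have q1421 : A212 := Classical.byContradiction fun h => c297 q1419 h q399
                                have q1422 : A213 := Classical.byContradiction fun h => c290 q1421 h q1341
                                have q1423 : ¬ A133 := fun h => c300 h q399 q1420
                                have q1424 : ¬ A224 := fun h => c291 h q1341 q1423
                                have q1425 : ¬ A214 := fun h => c65 q1424 h q1341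
                                have q1426 : A226 := Classical.byContradiction fun h => c288 q1422 q1425 h
                                have q1427 : ¬ A215 := fun h => c289 h q1425 q1340
                                have q1428 : ¬ A225 := fun h => c292 h q1424 q1425
                                have q1429 : ¬ A134 := fun h => c295 h q1423 q1427
                                rcases Classical.em A2 with q1430 | q1430
                                · have q1431 : ¬ A90 := fun h => c74 h q1430
                                  have q1432 : A73 := Classical.byContradiction fun h => c95 q1430 h q549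
                                  have q1433 : A81 := Classical.byContradiction fun h => c182 q1430 h q1338
                                  have q1434 : ¬ A241 := fun h => c183 h q10 q1431
                                  have q1435 : ¬ A121 := fun h => c0 q1434 h q1431
                                  have q1436 : A234 := Classical.byContradiction fun h => c173 u0 q1435 h
                                  have q1437 : A35 := Classical.byContradiction fun h => c164 q1436 h q488
                                  have q1438 : A151 := Classical.byContradiction fun h => c40 h q542 q1437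
                                  have q1439 : ¬ A154 := fun h => c245 q1438 h
                                  have q1440 : A39 := Classical.byContradiction fun h => c246 q1438 q542 h
                                  have q1441 : ¬ A153 := fun h => c247 h q1439 q542
                                  rcases Classical.em A40 with q1442 | q1442
                                  · have q1443 : A34 := Classical.byContradiction fun h => c248 q1442 q1412 h
                                    rcases Classical.em A11 with q1444 | q1444
                                    · have q1445 : A87 := Classical.byContradiction fun h => c29 q11 q1444 h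
                                      have q1446 : A102 := Classical.byContradiction fun h => c30 q6 h q1445
                                      exact c209 q1444 q1446
                                    · have q1447 : A91 := Classical.byContradiction fun h => c216 q5 h q1444
                                      have q1448 : ¬ A10 := fun h => c177 h q1447
                                      have q1449 : ¬ A129 := fun h => c176 h q1448 q205
                                      have q1450 : ¬ A49 := fun h => c174 h q1449 q523
                                      have q1451 : ¬ A61 := fun h => c156 h q12 q1450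
                                      have q1452 : ¬ A230 := fun h => c303 h q1451 q493
                                      have q1453 : ¬ A223 := fun h => c67 q1452 h q1428
                                      have q1454 : A222 := Classical.byContradiction fun h => c66 h q1453 q1426
                                      exact c302 q1454 q1453 q1429
                                  · have q1455 : ¬ A155 := fun h => c237 h q1441 q1442
                                    have q1456 : ¬ A144 := fun h => c42 q1455 h q1442
                                    have q1457 : ¬ A143 := fun h => c239 h q1456 q1455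
                                    have q1458 : A157 := Classical.byContradiction fun h => c240 q1440 q1442 h
                                    have q1459 : A158 := Classical.byContradiction fun h => c238 q1458 h q1456
                                    rcases Classical.em A11 with q1460 | q1460
                                    · have q1461 : A87 := Classical.byContradiction fun h => c29 q11 q1460 h
                                      have q1462 : A102 := Classical.byContradiction fun h => c30 q6 h q1461
                                      exact c209 q1460 q1462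
                                    · have q1463 : A91 := Classical.byContradiction fun h => c216 q5 h q1460
                                      have q1464 : ¬ A10 := fun h => c177 h q1463
                                      have q1465 : ¬ A129 := fun h => c176 h q1464 q205
                                      have q1466 : ¬ A49 := fun h => c174 h q1465 q523
                                      have q1467 : ¬ A61 := fun h => c156 h q12 q1466
                                      have q1468 : ¬ A230 := fun h => c303 h q1467 q493
                                      have q1469 : ¬ A223 := fun h => c67 q1468 h q1428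
                                      have q1470 : A222 := Classical.byContradiction fun h => c66 h q1469 q1426
                                      exact c302 q1470 q1469 q1429
                                · rcases Classical.em A11 with q1471 | q1471
                                  · have q1472 : A87 := Classical.byContradiction fun h => c29 q11 q1471 h
                                    have q1473 : A102 := Classical.byContradiction fun h => c30 q6 h q1472
                                    exact c209 q1471 q1473
                                  · have q1474 : A91 := Classical.byContradiction fun h => c216 q5 h q1471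
                                    have q1475 : ¬ A10 := fun h => c177 h q1474
                                    have q1476 : ¬ A129 := fun h => c176 h q1475 q205
                                    have q1477 : ¬ A49 := fun h => c174 h q1476 q523
                                    have q1478 : ¬ A61 := fun h => c156 h q12 q1477
                                    have q1479 : ¬ A230 := fun h => c303 h q1478 q493
                                    have q1480 : ¬ A223 := fun h => c67 q1479 h q1428
                                    have q1481 : A222 := Classical.byContradiction fun h => c66 h q1480 q1426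
                                    exact c302 q1481 q1480 q1429
                              · have q1482 : ¬ A62 := fun h => c171 h q403 q1415
                                have q1483 : ¬ A64 := fun h => c187 h q504 q1415
                                have q1484 : ¬ A28 := fun h => c11 q1483 h q504
                                exact c202 q1414 q1415 q1484
                          · have q1485 : ¬ A191 := fun h => c188 h q1346 q7
                            rcases Classical.em A60 with q1486 | q1486
                            · have q1487 : A55 := Classical.byContradiction fun h => c18 h q523 q1486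
                              have q1488 : A220 := Classical.byContradiction fun h => c198 q1487 h q523
                              have q1489 : A210 := Classical.byContradiction fun h => c305 q1488 h q12
                              have q1490 : A211 := Classical.byContradiction fun h => c63 h q399 q1489
                              have q1491 : ¬ A209 := fun h => c296 h q1490
                              have q1492 : A212 := Classical.byContradiction fun h => c297 q1490 h q399
                              have q1493 : A213 := Classical.byContradiction fun h => c290 q1492 h q1341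
                              have q1494 : ¬ A133 := fun h => c300 h q399 q1491
                              have q1495 : ¬ A224 := fun h => c291 h q1341 q1494
                              have q1496 : ¬ A214 := fun h => c65 q1495 h q1341
                              have q1497 : A226 := Classical.byContradiction fun h => c288 q1493 q1496 h
                              have q1498 : ¬ A215 := fun h => c289 h q1496 q1340
                              have q1499 : ¬ A225 := fun h => c292 h q1495 q1496
                              have q1500 : ¬ A134 := fun h => c295 h q1494 q1498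
                              rcases Classical.em A44 with q1501 | q1501
                              · have q1502 : A59 := Classical.byContradiction fun h => c108 q1501 h q505
                                have q1503 : ¬ A196 := fun h => c111 q1502 h
                                have q1504 : A27 := Classical.byContradiction fun h => c16 h q1503 q547
                                rcases Classical.em A2 with q1505 | q1505
                                · have q1506 : ¬ A90 := fun h => c74 h q1505
                                  have q1507 : A73 := Classical.byContradiction fun h => c95 q1505 h q549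
                                  have q1508 : A81 := Classical.byContradiction fun h => c182 q1505 h q1338
                                  have q1509 : ¬ A241 := fun h => c183 h q10 q1506
                                  have q1510 : ¬ A121 := fun h => c0 q1509 h q1506
                                  have q1511 : A234 := Classical.byContradiction fun h => c173 u0 q1510 h
                                  have q1512 : A35 := Classical.byContradiction fun h => c164 q1511 h q488
                                  have q1513 : A151 := Classical.byContradiction fun h => c40 h q542 q1512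
                                  have q1514 : ¬ A154 := fun h => c245 q1513 h
                                  have q1515 : A39 := Classical.byContradiction fun h => c246 q1513 q542 h
                                  have q1516 : ¬ A153 := fun h => c247 h q1514 q542
                                  rcases Classical.em A11 with q1517 | q1517
                                  · have q1518 : A87 := Classical.byContradiction fun h => c29 q11 q1517 h
                                    have q1519 : A102 := Classical.byContradiction fun h => c30 q6 h q1518
                                    exact c209 q1517 q1519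
                                  · have q1520 : A91 := Classical.byContradiction fun h => c216 q5 h q1517
                                    have q1521 : ¬ A10 := fun h => c177 h q1520
                                    have q1522 : ¬ A129 := fun h => c176 h q1521 q205
                                    have q1523 : ¬ A49 := fun h => c174 h q1522 q523
                                    have q1524 : ¬ A61 := fun h => c156 h q12 q1523
                                    have q1525 : A30 := Classical.byContradiction fun h => c201 q1520 h q495
                                    have q1526 : ¬ A230 := fun h => c303 h q1524 q493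
                                    have q1527 : ¬ A223 := fun h => c67 q1526 h q1499
                                    have q1528 : A222 := Classical.byContradiction fun h => c66 h q1527 q1497
                                    exact c302 q1528 q1527 q1500
                                · rcases Classical.em A11 with q1529 | q1529
                                  · have q1530 : A87 := Classical.byContradiction fun h => c29 q11 q1529 h
                                    have q1531 : A102 := Classical.byContradiction fun h => c30 q6 h q1530
                                    exact c209 q1529 q1531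
                                  · have q1532 : A91 := Classical.byContradiction fun h => c216 q5 h q1529
                                    have q1533 : ¬ A10 := fun h => c177 h q1532
                                    have q1534 : ¬ A129 := fun h => c176 h q1533 q205
                                    have q1535 : ¬ A49 := fun h => c174 h q1534 q523
                                    have q1536 : ¬ A61 := fun h => c156 h q12 q1535
                                    have q1537 : A30 := Classical.byContradiction fun h => c201 q1532 h q495
                                    have q1538 : ¬ A230 := fun h => c303 h q1536 q493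
                                    have q1539 : ¬ A223 := fun h => c67 q1538 h q1499
                                    have q1540 : A222 := Classical.byContradiction fun h => c66 h q1539 q1497
                                    exact c302 q1540 q1539 q1500
                              · have q1541 : ¬ A196 := fun h => c15 q1501 h q403
                                have q1542 : A27 := Classical.byContradiction fun h => c16 h q1541 q547
                                rcases Classical.em A2 with q1543 | q1543
                                · have q1544 : ¬ A90 := fun h => c74 h q1543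
                                  have q1545 : A73 := Classical.byContradiction fun h => c95 q1543 h q549
                                  have q1546 : A81 := Classical.byContradiction fun h => c182 q1543 h q1338
                                  have q1547 : ¬ A241 := fun h => c183 h q10 q1544
                                  have q1548 : ¬ A121 := fun h => c0 q1547 h q1544
                                  have q1549 : A234 := Classical.byContradiction fun h => c173 u0 q1548 h
                                  have q1550 : A35 := Classical.byContradiction fun h => c164 q1549 h q488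
                                  have q1551 : A151 := Classical.byContradiction fun h => c40 h q542 q1550
                                  have q1552 : ¬ A154 := fun h => c245 q1551 h
                                  have q1553 : A39 := Classical.byContradiction fun h => c246 q1551 q542 h
                                  have q1554 : ¬ A153 := fun h => c247 h q1552 q542
                                  rcases Classical.em A11 with q1555 | q1555
                                  · have q1556 : A87 := Classical.byContradiction fun h => c29 q11 q1555 h
                                    have q1557 : A102 := Classical.byContradiction fun h => c30 q6 h q1556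
                                    exact c209 q1555 q1557
                                  · have q1558 : A91 := Classical.byContradiction fun h => c216 q5 h q1555
                                    have q1559 : ¬ A10 := fun h => c177 h q1558
                                    have q1560 : ¬ A129 := fun h => c176 h q1559 q205
                                    have q1561 : ¬ A49 := fun h => c174 h q1560 q523
                                    have q1562 : ¬ A61 := fun h => c156 h q12 q1561
                                    have q1563 : A30 := Classical.byContradiction fun h => c201 q1558 h q495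
                                    have q1564 : ¬ A230 := fun h => c303 h q1562 q493
                                    have q1565 : ¬ A223 := fun h => c67 q1564 h q1499
                                    have q1566 : A222 := Classical.byContradiction fun h => c66 h q1565 q1497
                                    exact c302 q1566 q1565 q1500
                                · rcases Classical.em A11 with q1567 | q1567
                                  · have q1568 : A87 := Classical.byContradiction fun h => c29 q11 q1567 h
                                    have q1569 : A102 := Classical.byContradiction fun h => c30 q6 h q1568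
                                    exact c209 q1567 q1569
                                  · have q1570 : A91 := Classical.byContradiction fun h => c216 q5 h q1567
                                    have q1571 : ¬ A10 := fun h => c177 h q1570
                                    have q1572 : ¬ A129 := fun h => c176 h q1571 q205
                                    have q1573 : ¬ A49 := fun h => c174 h q1572 q523
                                    have q1574 : ¬ A61 := fun h => c156 h q12 q1573
                                    have q1575 : A30 := Classical.byContradiction fun h => c201 q1570 h q495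
                                    have q1576 : ¬ A230 := fun h => c303 h q1574 q493
                                    have q1577 : ¬ A223 := fun h => c67 q1576 h q1499
                                    have q1578 : A222 := Classical.byContradiction fun h => c66 h q1577 q1497
                                    exact c302 q1578 q1577 q1500
                            · have q1579 : ¬ A124 := fun h => c127 h q1486 q1346
                              have q1580 : ¬ A128 := fun h => c134 h q1579 q203
                              have q1581 : ¬ A82 := fun h => c124 h q496 q1580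
                              have q1582 : A29 := Classical.byContradiction fun h => c131 q548 q1580 h
                              have q1583 : ¬ A62 := fun h => c171 h q403 q1486
                              have q1584 : ¬ A64 := fun h => c187 h q504 q1486
                              have q1585 : ¬ A28 := fun h => c11 q1584 h q504
                              have q1586 : A27 := Classical.byContradiction fun h => c10 h q1585 q503
                              have q1587 : A30 := Classical.byContradiction fun h => c197 q1582 q1338 h
                              exact c202 q1587 q1486 q1585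
                        · have q1588 : ¬ A148 := fun h => c243 h q488 q1342
                          rcases Classical.em A18 with q1589 | q1589
                          · have q1590 : A27 := Classical.byContradiction fun h => c138 q1589 h q495
                            have q1591 : A77 := Classical.byContradiction fun h => c139 q1589 h q12
                            have q1592 : A203 := Classical.byContradiction fun h => c142 q1591 h q206
                            rcases Classical.em A128 with q1593 | q1593
                            · have q1594 : A220 := Classical.byContradiction fun h => c20 q400 q1593 h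
                              have q1595 : A124 := Classical.byContradiction fun h => c134 q1593 h q203
                              have q1596 : A210 := Classical.byContradiction fun h => c305 q1594 h q12
                              have q1597 : A211 := Classical.byContradiction fun h => c63 h q399 q1596
                              have q1598 : ¬ A209 := fun h => c296 h q1597
                              have q1599 : A212 := Classical.byContradiction fun h => c297 q1597 h q399
                              have q1600 : A213 := Classical.byContradiction fun h => c290 q1599 h q1341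
                              have q1601 : ¬ A133 := fun h => c300 h q399 q1598
                              have q1602 : ¬ A224 := fun h => c291 h q1341 q1601
                              have q1603 : ¬ A214 := fun h => c65 q1602 h q1341
                              have q1604 : A226 := Classical.byContradiction fun h => c288 q1600 q1603 h
                              have q1605 : ¬ A215 := fun h => c289 h q1603 q1340
                              have q1606 : ¬ A225 := fun h => c292 h q1602 q1603
                              have q1607 : ¬ A134 := fun h => c295 h q1601 q1605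
                              rcases Classical.em A30 with q1608 | q1608
                              · rcases Classical.em A60 with q1609 | q1609
                                · have q1610 : A55 := Classical.byContradiction fun h => c18 h q523 q1609
                                  rcases Classical.em A13 with q1611 | q1611
                                  · have q1612 : A36 := Classical.byContradiction fun h => c181 q1611 h q504
                                    rcases Classical.em A2 with q1613 | q1613
                                    · have q1614 : ¬ A90 := fun h => c74 h q1613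
                                      have q1615 : A73 := Classical.byContradiction fun h => c95 q1613 h q549
                                      have q1616 : A81 := Classical.byContradiction fun h => c182 q1613 h q1338
                                      have q1617 : ¬ A241 := fun h => c183 h q10 q1614
                                      have q1618 : ¬ A121 := fun h => c0 q1617 h q1614
                                      have q1619 : A234 := Classical.byContradiction fun h => c173 u0 q1618 h
                                      have q1620 : A35 := Classical.byContradiction fun h => c164 q1619 h q488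
                                      have q1621 : A151 := Classical.byContradiction fun h => c40 h q542 q1620
                                      have q1622 : ¬ A154 := fun h => c245 q1621 h
                                      have q1623 : A39 := Classical.byContradiction fun h => c246 q1621 q542 h
                                      have q1624 : ¬ A153 := fun h => c247 h q1622 q542
                                      rcases Classical.em A11 with q1625 | q1625
                                      · have q1626 : A87 := Classical.byContradiction fun h => c29 q11 q1625 h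
                                        have q1627 : A102 := Classical.byContradiction fun h => c30 q6 h q1626
                                        exact c209 q1625 q1627
                                      · have q1628 : A91 := Classical.byContradiction fun h => c216 q5 h q1625
                                        have q1629 : ¬ A10 := fun h => c177 h q1628
                                        have q1630 : ¬ A129 := fun h => c176 h q1629 q205
                                        have q1631 : ¬ A49 := fun h => c174 h q1630 q523
                                        have q1632 : ¬ A61 := fun h => c156 h q12 q1631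
                                        have q1633 : ¬ A230 := fun h => c303 h q1632 q493
                                        have q1634 : ¬ A223 := fun h => c67 q1633 h q1606
                                        have q1635 : A222 := Classical.byContradiction fun h => c66 h q1634 q1604
                                        exact c302 q1635 q1634 q1607
                                    · rcases Classical.em A11 with q1636 | q1636
                                      · have q1637 : A87 := Classical.byContradiction fun h => c29 q11 q1636 h
                                        have q1638 : A102 := Classical.byContradiction fun h => c30 q6 h q1637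
                                        exact c209 q1636 q1638
                                      · have q1639 : A91 := Classical.byContradiction fun h => c216 q5 h q1636
                                        have q1640 : ¬ A10 := fun h => c177 h q1639
                                        have q1641 : ¬ A129 := fun h => c176 h q1640 q205
                                        have q1642 : ¬ A49 := fun h => c174 h q1641 q523
                                        have q1643 : ¬ A61 := fun h => c156 h q12 q1642
                                        have q1644 : ¬ A230 := fun h => c303 h q1643 q493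
                                        have q1645 : ¬ A223 := fun h => c67 q1644 h q1606
                                        have q1646 : A222 := Classical.byContradiction fun h => c66 h q1645 q1604
                                        exact c302 q1646 q1645 q1607
                                  · have q1647 : ¬ A50 := fun h => c179 h q1611 q525
                                    have q1648 : A188 := Classical.byContradiction fun h => c190 q524 h q1611
                                    rcases Classical.em A2 with q1649 | q1649
                                    · have q1650 : ¬ A90 := fun h => c74 h q1649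
                                      have q1651 : A73 := Classical.byContradiction fun h => c95 q1649 h q549
                                      have q1652 : A81 := Classical.byContradiction fun h => c182 q1649 h q1338
                                      have q1653 : ¬ A241 := fun h => c183 h q10 q1650
                                      have q1654 : ¬ A121 := fun h => c0 q1653 h q1650
                                      have q1655 : A234 := Classical.byContradiction fun h => c173 u0 q1654 h
                                      have q1656 : A35 := Classical.byContradiction fun h => c164 q1655 h q488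
                                      have q1657 : A151 := Classical.byContradiction fun h => c40 h q542 q1656
                                      have q1658 : ¬ A154 := fun h => c245 q1657 h
                                      have q1659 : A39 := Classical.byContradiction fun h => c246 q1657 q542 h
                                      have q1660 : ¬ A153 := fun h => c247 h q1658 q542
                                      rcases Classical.em A11 with q1661 | q1661
                                      · have q1662 : A87 := Classical.byContradiction fun h => c29 q11 q1661 h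
                                        have q1663 : A102 := Classical.byContradiction fun h => c30 q6 h q1662
                                        exact c209 q1661 q1663
                                      · have q1664 : A91 := Classical.byContradiction fun h => c216 q5 h q1661
                                        have q1665 : ¬ A10 := fun h => c177 h q1664
                                        have q1666 : ¬ A129 := fun h => c176 h q1665 q205
                                        have q1667 : ¬ A49 := fun h => c174 h q1666 q523
                                        have q1668 : ¬ A61 := fun h => c156 h q12 q1667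
                                        have q1669 : ¬ A230 := fun h => c303 h q1668 q493
                                        have q1670 : ¬ A223 := fun h => c67 q1669 h q1606
                                        have q1671 : A222 := Classical.byContradiction fun h => c66 h q1670 q1604
                                        exact c302 q1671 q1670 q1607
                                    · rcases Classical.em A11 with q1672 | q1672
                                      · have q1673 : A87 := Classical.byContradiction fun h => c29 q11 q1672 h
                                        have q1674 : A102 := Classical.byContradiction fun h => c30 q6 h q1673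
                                        exact c209 q1672 q1674
                                      · have q1675 : A91 := Classical.byContradiction fun h => c216 q5 h q1672
                                        have q1676 : ¬ A10 := fun h => c177 h q1675
                                        have q1677 : ¬ A129 := fun h => c176 h q1676 q205
                                        have q1678 : ¬ A49 := fun h => c174 h q1677 q523
                                        have q1679 : ¬ A61 := fun h => c156 h q12 q1678
                                        have q1680 : ¬ A230 := fun h => c303 h q1679 q493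
                                        have q1681 : ¬ A223 := fun h => c67 q1680 h q1606
                                        have q1682 : A222 := Classical.byContradiction fun h => c66 h q1681 q1604
                                        exact c302 q1682 q1681 q1607
                                · have q1683 : ¬ A62 := fun h => c171 h q403 q1609
                                  have q1684 : ¬ A64 := fun h => c187 h q504 q1609
                                  have q1685 : ¬ A28 := fun h => c11 q1684 h q504
                                  exact c202 q1608 q1609 q1685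
                              · have q1686 : ¬ A139 := fun h => c37 q1342 h q1608
                                have q1687 : ¬ A29 := fun h => c197 h q1338 q1608
                                have q1688 : ¬ A91 := fun h => c201 h q1608 q495
                                have q1689 : A11 := Classical.byContradiction fun h => c216 q5 q1688 h
                                have q1690 : A87 := Classical.byContradiction fun h => c29 q11 q1689 h
                                have q1691 : A102 := Classical.byContradiction fun h => c30 q6 h q1690
                                exact c209 q1689 q1691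
                            · have q1692 : ¬ A82 := fun h => c124 h q496 q1593
                              have q1693 : A29 := Classical.byContradiction fun h => c131 q548 q1593 h
                              have q1694 : A30 := Classical.byContradiction fun h => c197 q1693 q1338 h
                              rcases Classical.em A60 with q1695 | q1695
                              · have q1696 : A55 := Classical.byContradiction fun h => c18 h q523 q1695
                                have q1697 : A220 := Classical.byContradiction fun h => c198 q1696 h q523
                                have q1698 : A210 := Classical.byContradiction fun h => c305 q1697 h q12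
                                have q1699 : A211 := Classical.byContradiction fun h => c63 h q399 q1698
                                have q1700 : ¬ A209 := fun h => c296 h q1699
                                have q1701 : A212 := Classical.byContradiction fun h => c297 q1699 h q399
                                have q1702 : A213 := Classical.byContradiction fun h => c290 q1701 h q1341
                                have q1703 : ¬ A133 := fun h => c300 h q399 q1700
                                have q1704 : ¬ A224 := fun h => c291 h q1341 q1703
                                have q1705 : ¬ A214 := fun h => c65 q1704 h q1341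
                                have q1706 : A226 := Classical.byContradiction fun h => c288 q1702 q1705 h
                                have q1707 : ¬ A215 := fun h => c289 h q1705 q1340
                                have q1708 : ¬ A225 := fun h => c292 h q1704 q1705
                                have q1709 : ¬ A134 := fun h => c295 h q1703 q1707
                                rcases Classical.em A13 with q1710 | q1710
                                · have q1711 : A36 := Classical.byContradiction fun h => c181 q1710 h q504
                                  rcases Classical.em A2 with q1712 | q1712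
                                  · have q1713 : ¬ A90 := fun h => c74 h q1712
                                    have q1714 : A73 := Classical.byContradiction fun h => c95 q1712 h q549
                                    have q1715 : A81 := Classical.byContradiction fun h => c182 q1712 h q1338
                                    have q1716 : ¬ A241 := fun h => c183 h q10 q1713
                                    have q1717 : ¬ A121 := fun h => c0 q1716 h q1713
                                    have q1718 : A234 := Classical.byContradiction fun h => c173 u0 q1717 h
                                    have q1719 : A35 := Classical.byContradiction fun h => c164 q1718 h q488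
                                    have q1720 : A151 := Classical.byContradiction fun h => c40 h q542 q1719
                                    have q1721 : ¬ A154 := fun h => c245 q1720 h
                                    have q1722 : A39 := Classical.byContradiction fun h => c246 q1720 q542 h
                                    have q1723 : ¬ A153 := fun h => c247 h q1721 q542
                                    rcases Classical.em A40 with q1724 | q1724
                                    · have q1725 : A34 := Classical.byContradiction fun h => c248 q1724 q1692 h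
                                      have q1726 : A24 := Classical.byContradiction fun h => c153 q1725 q12 h
                                      rcases Classical.em A11 with q1727 | q1727
                                      · have q1728 : A87 := Classical.byContradiction fun h => c29 q11 q1727 h
                                        have q1729 : A102 := Classical.byContradiction fun h => c30 q6 h q1728
                                        exact c209 q1727 q1729
                                      · have q1730 : A91 := Classical.byContradiction fun h => c216 q5 h q1727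
                                        have q1731 : ¬ A10 := fun h => c177 h q1730
                                        have q1732 : ¬ A129 := fun h => c176 h q1731 q205
                                        have q1733 : ¬ A49 := fun h => c174 h q1732 q523
                                        have q1734 : ¬ A61 := fun h => c156 h q12 q1733
                                        have q1735 : ¬ A230 := fun h => c303 h q1734 q493
                                        have q1736 : ¬ A223 := fun h => c67 q1735 h q1708
                                        have q1737 : A222 := Classical.byContradiction fun h => c66 h q1736 q1706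
                                        exact c302 q1737 q1736 q1709
                                    · have q1738 : ¬ A155 := fun h => c237 h q1723 q1724
                                      have q1739 : ¬ A144 := fun h => c42 q1738 h q1724
                                      have q1740 : ¬ A143 := fun h => c239 h q1739 q1738
                                      have q1741 : A157 := Classical.byContradiction fun h => c240 q1722 q1724 h
                                      have q1742 : A158 := Classical.byContradiction fun h => c238 q1741 h q1739
                                      rcases Classical.em A11 with q1743 | q1743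
                                      · have q1744 : A87 := Classical.byContradiction fun h => c29 q11 q1743 h
                                        have q1745 : A102 := Classical.byContradiction fun h => c30 q6 h q1744
                                        exact c209 q1743 q1745
                                      · have q1746 : A91 := Classical.byContradiction fun h => c216 q5 h q1743
                                        have q1747 : ¬ A10 := fun h => c177 h q1746
                                        have q1748 : ¬ A129 := fun h => c176 h q1747 q205
                                        have q1749 : ¬ A49 := fun h => c174 h q1748 q523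
                                        have q1750 : ¬ A61 := fun h => c156 h q12 q1749
                                        have q1751 : ¬ A230 := fun h => c303 h q1750 q493
                                        have q1752 : ¬ A223 := fun h => c67 q1751 h q1708
                                        have q1753 : A222 := Classical.byContradiction fun h => c66 h q1752 q1706
                                        exact c302 q1753 q1752 q1709
                                  · rcases Classical.em A11 with q1754 | q1754
                                    · have q1755 : A87 := Classical.byContradiction fun h => c29 q11 q1754 h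
                                      have q1756 : A102 := Classical.byContradiction fun h => c30 q6 h q1755
                                      exact c209 q1754 q1756
                                    · have q1757 : A91 := Classical.byContradiction fun h => c216 q5 h q1754
                                      have q1758 : ¬ A10 := fun h => c177 h q1757
                                      have q1759 : ¬ A129 := fun h => c176 h q1758 q205
                                      have q1760 : ¬ A49 := fun h => c174 h q1759 q523
                                      have q1761 : ¬ A61 := fun h => c156 h q12 q1760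
                                      have q1762 : ¬ A230 := fun h => c303 h q1761 q493
                                      have q1763 : ¬ A223 := fun h => c67 q1762 h q1708
                                      have q1764 : A222 := Classical.byContradiction fun h => c66 h q1763 q1706
                                      exact c302 q1764 q1763 q1709
                                · have q1765 : ¬ A50 := fun h => c179 h q1710 q525
                                  have q1766 : A188 := Classical.byContradiction fun h => c190 q524 h q1710
                                  rcases Classical.em A2 with q1767 | q1767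
                                  · have q1768 : ¬ A90 := fun h => c74 h q1767
                                    have q1769 : A73 := Classical.byContradiction fun h => c95 q1767 h q549
                                    have q1770 : A81 := Classical.byContradiction fun h => c182 q1767 h q1338
                                    have q1771 : ¬ A241 := fun h => c183 h q10 q1768
                                    have q1772 : ¬ A121 := fun h => c0 q1771 h q1768
                                    have q1773 : A234 := Classical.byContradiction fun h => c173 u0 q1772 h
                                    have q1774 : A35 := Classical.byContradiction fun h => c164 q1773 h q488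
                                    have q1775 : A151 := Classical.byContradiction fun h => c40 h q542 q1774
                                    have q1776 : ¬ A154 := fun h => c245 q1775 h
                                    have q1777 : A39 := Classical.byContradiction fun h => c246 q1775 q542 h
                                    have q1778 : ¬ A153 := fun h => c247 h q1776 q542
                                    rcases Classical.em A40 with q1779 | q1779
                                    · have q1780 : A34 := Classical.byContradiction fun h => c248 q1779 q1692 h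
                                      have q1781 : A24 := Classical.byContradiction fun h => c153 q1780 q12 h
                                      rcases Classical.em A11 with q1782 | q1782
                                      · have q1783 : A87 := Classical.byContradiction fun h => c29 q11 q1782 h
                                        have q1784 : A102 := Classical.byContradiction fun h => c30 q6 h q1783
                                        exact c209 q1782 q1784
                                      · have q1785 : A91 := Classical.byContradiction fun h => c216 q5 h q1782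
                                        have q1786 : ¬ A10 := fun h => c177 h q1785
                                        have q1787 : ¬ A129 := fun h => c176 h q1786 q205
                                        have q1788 : ¬ A49 := fun h => c174 h q1787 q523
                                        have q1789 : ¬ A61 := fun h => c156 h q12 q1788
                                        have q1790 : ¬ A230 := fun h => c303 h q1789 q493
                                        have q1791 : ¬ A223 := fun h => c67 q1790 h q1708
                                        have q1792 : A222 := Classical.byContradiction fun h => c66 h q1791 q1706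
                                        exact c302 q1792 q1791 q1709
                                    · have q1793 : ¬ A155 := fun h => c237 h q1778 q1779
                                      have q1794 : ¬ A144 := fun h => c42 q1793 h q1779
                                      have q1795 : ¬ A143 := fun h => c239 h q1794 q1793
                                      have q1796 : A157 := Classical.byContradiction fun h => c240 q1777 q1779 h
                                      have q1797 : A158 := Classical.byContradiction fun h => c238 q1796 h q1794
                                      rcases Classical.em A11 with q1798 | q1798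
                                      · have q1799 : A87 := Classical.byContradiction fun h => c29 q11 q1798 h
                                        have q1800 : A102 := Classical.byContradiction fun h => c30 q6 h q1799
                                        exact c209 q1798 q1800
                                      · have q1801 : A91 := Classical.byContradiction fun h => c216 q5 h q1798
                                        have q1802 : ¬ A10 := fun h => c177 h q1801
                                        have q1803 : ¬ A129 := fun h => c176 h q1802 q205
                                        have q1804 : ¬ A49 := fun h => c174 h q1803 q523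
                                        have q1805 : ¬ A61 := fun h => c156 h q12 q1804
                                        have q1806 : ¬ A230 := fun h => c303 h q1805 q493
                                        have q1807 : ¬ A223 := fun h => c67 q1806 h q1708
                                        have q1808 : A222 := Classical.byContradiction fun h => c66 h q1807 q1706
                                        exact c302 q1808 q1807 q1709
                                  · rcases Classical.em A11 with q1809 | q1809
                                    · have q1810 : A87 := Classical.byContradiction fun h => c29 q11 q1809 h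
                                      have q1811 : A102 := Classical.byContradiction fun h => c30 q6 h q1810
                                      exact c209 q1809 q1811
                                    · have q1812 : A91 := Classical.byContradiction fun h => c216 q5 h q1809
                                      have q1813 : ¬ A10 := fun h => c177 h q1812
                                      have q1814 : ¬ A129 := fun h => c176 h q1813 q205
                                      have q1815 : ¬ A49 := fun h => c174 h q1814 q523
                                      have q1816 : ¬ A61 := fun h => c156 h q12 q1815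
                                      have q1817 : ¬ A230 := fun h => c303 h q1816 q493
                                      have q1818 : ¬ A223 := fun h => c67 q1817 h q1708
                                      have q1819 : A222 := Classical.byContradiction fun h => c66 h q1818 q1706
                                      exact c302 q1819 q1818 q1709
                              · have q1820 : ¬ A62 := fun h => c171 h q403 q1695
                                have q1821 : ¬ A64 := fun h => c187 h q504 q1695
                                have q1822 : ¬ A28 := fun h => c11 q1821 h q504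
                                exact c202 q1694 q1695 q1822
                          · have q1823 : ¬ A191 := fun h => c188 h q1589 q7
                            rcases Classical.em A60 with q1824 | q1824
                            · have q1825 : A55 := Classical.byContradiction fun h => c18 h q523 q1824
                              have q1826 : A220 := Classical.byContradiction fun h => c198 q1825 h q523
                              have q1827 : A210 := Classical.byContradiction fun h => c305 q1826 h q12
                              have q1828 : A211 := Classical.byContradiction fun h => c63 h q399 q1827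
                              have q1829 : ¬ A209 := fun h => c296 h q1828
                              have q1830 : A212 := Classical.byContradiction fun h => c297 q1828 h q399
                              have q1831 : A213 := Classical.byContradiction fun h => c290 q1830 h q1341
                              have q1832 : ¬ A133 := fun h => c300 h q399 q1829
                              have q1833 : ¬ A224 := fun h => c291 h q1341 q1832
                              have q1834 : ¬ A214 := fun h => c65 q1833 h q1341
                              have q1835 : A226 := Classical.byContradiction fun h => c288 q1831 q1834 h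
                              have q1836 : ¬ A215 := fun h => c289 h q1834 q1340
                              have q1837 : ¬ A225 := fun h => c292 h q1833 q1834
                              have q1838 : ¬ A134 := fun h => c295 h q1832 q1836
                              rcases Classical.em A13 with q1839 | q1839
                              · have q1840 : A36 := Classical.byContradiction fun h => c181 q1839 h q504
                                rcases Classical.em A30 with q1841 | q1841
                                · rcases Classical.em A44 with q1842 | q1842
                                  · have q1843 : A59 := Classical.byContradiction fun h => c108 q1842 h q505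
                                    have q1844 : ¬ A196 := fun h => c111 q1843 h
                                    have q1845 : A27 := Classical.byContradiction fun h => c16 h q1844 q547
                                    rcases Classical.em A2 with q1846 | q1846
                                    · have q1847 : ¬ A90 := fun h => c74 h q1846
                                      have q1848 : A73 := Classical.byContradiction fun h => c95 q1846 h q549
                                      have q1849 : A81 := Classical.byContradiction fun h => c182 q1846 h q1338
                                      have q1850 : ¬ A241 := fun h => c183 h q10 q1847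
                                      have q1851 : ¬ A121 := fun h => c0 q1850 h q1847
                                      have q1852 : A234 := Classical.byContradiction fun h => c173 u0 q1851 h
                                      have q1853 : A35 := Classical.byContradiction fun h => c164 q1852 h q488
                                      have q1854 : A151 := Classical.byContradiction fun h => c40 h q542 q1853
                                      have q1855 : ¬ A154 := fun h => c245 q1854 h
                                      have q1856 : A39 := Classical.byContradiction fun h => c246 q1854 q542 h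
                                      have q1857 : ¬ A153 := fun h => c247 h q1855 q542
                                      rcases Classical.em A11 with q1858 | q1858
                                      · have q1859 : A87 := Classical.byContradiction fun h => c29 q11 q1858 h
                                        have q1860 : A102 := Classical.byContradiction fun h => c30 q6 h q1859
                                        exact c209 q1858 q1860
                                      · have q1861 : A91 := Classical.byContradiction fun h => c216 q5 h q1858
                                        have q1862 : ¬ A10 := fun h => c177 h q1861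
                                        have q1863 : ¬ A129 := fun h => c176 h q1862 q205
                                        have q1864 : ¬ A49 := fun h => c174 h q1863 q523
                                        have q1865 : ¬ A61 := fun h => c156 h q12 q1864
                                        have q1866 : ¬ A230 := fun h => c303 h q1865 q493
                                        have q1867 : ¬ A223 := fun h => c67 q1866 h q1837
                                        have q1868 : A222 := Classical.byContradiction fun h => c66 h q1867 q1835
                                        exact c302 q1868 q1867 q1838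
                                    · rcases Classical.em A11 with q1869 | q1869
                                      · have q1870 : A87 := Classical.byContradiction fun h => c29 q11 q1869 h
                                        have q1871 : A102 := Classical.byContradiction fun h => c30 q6 h q1870
                                        exact c209 q1869 q1871
                                      · have q1872 : A91 := Classical.byContradiction fun h => c216 q5 h q1869
                                        have q1873 : ¬ A10 := fun h => c177 h q1872
                                        have q1874 : ¬ A129 := fun h => c176 h q1873 q205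
                                        have q1875 : ¬ A49 := fun h => c174 h q1874 q523
                                        have q1876 : ¬ A61 := fun h => c156 h q12 q1875
                                        have q1877 : ¬ A230 := fun h => c303 h q1876 q493
                                        have q1878 : ¬ A223 := fun h => c67 q1877 h q1837
                                        have q1879 : A222 := Classical.byContradiction fun h => c66 h q1878 q1835
                                        exact c302 q1879 q1878 q1838
                                  · have q1880 : ¬ A196 := fun h => c15 q1842 h q403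
                                    have q1881 : A27 := Classical.byContradiction fun h => c16 h q1880 q547
                                    rcases Classical.em A2 with q1882 | q1882
                                    · have q1883 : ¬ A90 := fun h => c74 h q1882
                                      have q1884 : A73 := Classical.byContradiction fun h => c95 q1882 h q549
                                      have q1885 : A81 := Classical.byContradiction fun h => c182 q1882 h q1338
                                      have q1886 : ¬ A241 := fun h => c183 h q10 q1883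
                                      have q1887 : ¬ A121 := fun h => c0 q1886 h q1883
                                      have q1888 : A234 := Classical.byContradiction fun h => c173 u0 q1887 h
                                      have q1889 : A35 := Classical.byContradiction fun h => c164 q1888 h q488
                                      have q1890 : A151 := Classical.byContradiction fun h => c40 h q542 q1889
                                      have q1891 : ¬ A154 := fun h => c245 q1890 h
                                      have q1892 : A39 := Classical.byContradiction fun h => c246 q1890 q542 h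
                                      have q1893 : ¬ A153 := fun h => c247 h q1891 q542
                                      rcases Classical.em A11 with q1894 | q1894
                                      · have q1895 : A87 := Classical.byContradiction fun h => c29 q11 q1894 h
                                        have q1896 : A102 := Classical.byContradiction fun h => c30 q6 h q1895
                                        exact c209 q1894 q1896
                                      · have q1897 : A91 := Classical.byContradiction fun h => c216 q5 h q1894
                                        have q1898 : ¬ A10 := fun h => c177 h q1897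
                                        have q1899 : ¬ A129 := fun h => c176 h q1898 q205
                                        have q1900 : ¬ A49 := fun h => c174 h q1899 q523
                                        have q1901 : ¬ A61 := fun h => c156 h q12 q1900
                                        have q1902 : ¬ A230 := fun h => c303 h q1901 q493
                                        have q1903 : ¬ A223 := fun h => c67 q1902 h q1837
                                        have q1904 : A222 := Classical.byContradiction fun h => c66 h q1903 q1835
                                        exact c302 q1904 q1903 q1838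
                                    · rcases Classical.em A11 with q1905 | q1905
                                      · have q1906 : A87 := Classical.byContradiction fun h => c29 q11 q1905 h
                                        have q1907 : A102 := Classical.byContradiction fun h => c30 q6 h q1906
                                        exact c209 q1905 q1907
                                      · have q1908 : A91 := Classical.byContradiction fun h => c216 q5 h q1905
                                        have q1909 : ¬ A10 := fun h => c177 h q1908
                                        have q1910 : ¬ A129 := fun h => c176 h q1909 q205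
                                        have q1911 : ¬ A49 := fun h => c174 h q1910 q523
                                        have q1912 : ¬ A61 := fun h => c156 h q12 q1911
                                        have q1913 : ¬ A230 := fun h => c303 h q1912 q493
                                        have q1914 : ¬ A223 := fun h => c67 q1913 h q1837
                                        have q1915 : A222 := Classical.byContradiction fun h => c66 h q1914 q1835
                                        exact c302 q1915 q1914 q1838
                                · have q1916 : ¬ A139 := fun h => c37 q1342 h q1841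
                                  have q1917 : ¬ A29 := fun h => c197 h q1338 q1841
                                  have q1918 : A128 := Classical.byContradiction fun h => c131 q548 h q1917
                                  have q1919 : A124 := Classical.byContradiction fun h => c134 q1918 h q203
                                  have q1920 : ¬ A91 := fun h => c201 h q1841 q495
                                  have q1921 : A11 := Classical.byContradiction fun h => c216 q5 q1920 h
                                  have q1922 : A87 := Classical.byContradiction fun h => c29 q11 q1921 h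
                                  have q1923 : A102 := Classical.byContradiction fun h => c30 q6 h q1922
                                  exact c209 q1921 q1923
                              · have q1924 : ¬ A50 := fun h => c179 h q1839 q525
                                have q1925 : A188 := Classical.byContradiction fun h => c190 q524 h q1839
                                have q1926 : ¬ A183 := fun h => c267 h q1589 q1924
                                have q1927 : ¬ A192 := fun h => c271 h q1823 q1924
                                rcases Classical.em A30 with q1928 | q1928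
                                · rcases Classical.em A44 with q1929 | q1929
                                  · have q1930 : A59 := Classical.byContradiction fun h => c108 q1929 h q505
                                    have q1931 : ¬ A196 := fun h => c111 q1930 h
                                    have q1932 : A27 := Classical.byContradiction fun h => c16 h q1931 q547
                                    rcases Classical.em A2 with q1933 | q1933
                                    · have q1934 : ¬ A90 := fun h => c74 h q1933
                                      have q1935 : A73 := Classical.byContradiction fun h => c95 q1933 h q549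
                                      have q1936 : A81 := Classical.byContradiction fun h => c182 q1933 h q1338
                                      have q1937 : ¬ A241 := fun h => c183 h q10 q1934
                                      have q1938 : ¬ A121 := fun h => c0 q1937 h q1934
                                      have q1939 : A234 := Classical.byContradiction fun h => c173 u0 q1938 h
                                      have q1940 : A35 := Classical.byContradiction fun h => c164 q1939 h q488
                                      have q1941 : A151 := Classical.byContradiction fun h => c40 h q542 q1940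
                                      have q1942 : ¬ A154 := fun h => c245 q1941 h
                                      have q1943 : A39 := Classical.byContradiction fun h => c246 q1941 q542 h
                                      have q1944 : ¬ A153 := fun h => c247 h q1942 q542
                                      rcases Classical.em A11 with q1945 | q1945
                                      · have q1946 : A87 := Classical.byContradiction fun h => c29 q11 q1945 h
                                        have q1947 : A102 := Classical.byContradiction fun h => c30 q6 h q1946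
                                        exact c209 q1945 q1947
                                      · have q1948 : A91 := Classical.byContradiction fun h => c216 q5 h q1945
                                        have q1949 : ¬ A10 := fun h => c177 h q1948
                                        have q1950 : ¬ A129 := fun h => c176 h q1949 q205
                                        have q1951 : ¬ A49 := fun h => c174 h q1950 q523
                                        have q1952 : ¬ A61 := fun h => c156 h q12 q1951
                                        have q1953 : ¬ A230 := fun h => c303 h q1952 q493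
                                        have q1954 : ¬ A223 := fun h => c67 q1953 h q1837
                                        have q1955 : A222 := Classical.byContradiction fun h => c66 h q1954 q1835
                                        exact c302 q1955 q1954 q1838
                                    · rcases Classical.em A11 with q1956 | q1956
                                      · have q1957 : A87 := Classical.byContradiction fun h => c29 q11 q1956 h
                                        have q1958 : A102 := Classical.byContradiction fun h => c30 q6 h q1957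
                                        exact c209 q1956 q1958
                                      · have q1959 : A91 := Classical.byContradiction fun h => c216 q5 h q1956
                                        have q1960 : ¬ A10 := fun h => c177 h q1959
                                        have q1961 : ¬ A129 := fun h => c176 h q1960 q205
                                        have q1962 : ¬ A49 := fun h => c174 h q1961 q523
                                        have q1963 : ¬ A61 := fun h => c156 h q12 q1962
                                        have q1964 : ¬ A230 := fun h => c303 h q1963 q493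
                                        have q1965 : ¬ A223 := fun h => c67 q1964 h q1837
                                        have q1966 : A222 := Classical.byContradiction fun h => c66 h q1965 q1835
                                        exact c302 q1966 q1965 q1838
                                  · have q1967 : ¬ A196 := fun h => c15 q1929 h q403
                                    have q1968 : A27 := Classical.byContradiction fun h => c16 h q1967 q547
                                    rcases Classical.em A2 with q1969 | q1969
                                    · have q1970 : ¬ A90 := fun h => c74 h q1969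
                                      have q1971 : A73 := Classical.byContradiction fun h => c95 q1969 h q549
                                      have q1972 : A81 := Classical.byContradiction fun h => c182 q1969 h q1338
                                      have q1973 : ¬ A241 := fun h => c183 h q10 q1970
                                      have q1974 : ¬ A121 := fun h => c0 q1973 h q1970
                                      have q1975 : A234 := Classical.byContradiction fun h => c173 u0 q1974 h
                                      have q1976 : A35 := Classical.byContradiction fun h => c164 q1975 h q488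
                                      have q1977 : A151 := Classical.byContradiction fun h => c40 h q542 q1976
                                      have q1978 : ¬ A154 := fun h => c245 q1977 h
                                      have q1979 : A39 := Classical.byContradiction fun h => c246 q1977 q542 h
                                      have q1980 : ¬ A153 := fun h => c247 h q1978 q542
                                      rcases Classical.em A11 with q1981 | q1981
                                      · have q1982 : A87 := Classical.byContradiction fun h => c29 q11 q1981 h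
                                        have q1983 : A102 := Classical.byContradiction fun h => c30 q6 h q1982
                                        exact c209 q1981 q1983
                                      · have q1984 : A91 := Classical.byContradiction fun h => c216 q5 h q1981
                                        have q1985 : ¬ A10 := fun h => c177 h q1984
                                        have q1986 : ¬ A129 := fun h => c176 h q1985 q205
                                        have q1987 : ¬ A49 := fun h => c174 h q1986 q523
                                        have q1988 : ¬ A61 := fun h => c156 h q12 q1987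
                                        have q1989 : ¬ A230 := fun h => c303 h q1988 q493
                                        have q1990 : ¬ A223 := fun h => c67 q1989 h q1837
                                        have q1991 : A222 := Classical.byContradiction fun h => c66 h q1990 q1835
                                        exact c302 q1991 q1990 q1838
                                    · rcases Classical.em A11 with q1992 | q1992
                                      · have q1993 : A87 := Classical.byContradiction fun h => c29 q11 q1992 h
                                        have q1994 : A102 := Classical.byContradiction fun h => c30 q6 h q1993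
                                        exact c209 q1992 q1994
                                      · have q1995 : A91 := Classical.byContradiction fun h => c216 q5 h q1992
                                        have q1996 : ¬ A10 := fun h => c177 h q1995
                                        have q1997 : ¬ A129 := fun h => c176 h q1996 q205
                                        have q1998 : ¬ A49 := fun h => c174 h q1997 q523
                                        have q1999 : ¬ A61 := fun h => c156 h q12 q1998
                                        have q2000 : ¬ A230 := fun h => c303 h q1999 q493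
                                        have q2001 : ¬ A223 := fun h => c67 q2000 h q1837
                                        have q2002 : A222 := Classical.byContradiction fun h => c66 h q2001 q1835
                                        exact c302 q2002 q2001 q1838
                                · have q2003 : ¬ A139 := fun h => c37 q1342 h q1928
                                  have q2004 : ¬ A29 := fun h => c197 h q1338 q1928
                                  have q2005 : A128 := Classical.byContradiction fun h => c131 q548 h q2004
                                  have q2006 : A124 := Classical.byContradiction fun h => c134 q2005 h q203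
                                  have q2007 : ¬ A91 := fun h => c201 h q1928 q495
                                  have q2008 : A11 := Classical.byContradiction fun h => c216 q5 q2007 h
                                  have q2009 : A87 := Classical.byContradiction fun h => c29 q11 q2008 h
                                  have q2010 : A102 := Classical.byContradiction fun h => c30 q6 h q2009
                                  exact c209 q2008 q2010
                            · have q2011 : ¬ A124 := fun h => c127 h q1824 q1589
                              have q2012 : ¬ A128 := fun h => c134 h q2011 q203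
                              have q2013 : ¬ A82 := fun h => c124 h q496 q2012
                              have q2014 : A29 := Classical.byContradiction fun h => c131 q548 q2012 h
                              have q2015 : ¬ A62 := fun h => c171 h q403 q1824
                              have q2016 : ¬ A64 := fun h => c187 h q504 q1824
                              have q2017 : ¬ A28 := fun h => c11 q2016 h q504
                              have q2018 : A27 := Classical.byContradiction fun h => c10 h q2017 q503
                              have q2019 : A30 := Classical.byContradiction fun h => c197 q2014 q1338 h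
                              exact c202 q2019 q1824 q2017
                    · have q2020 : ¬ A124 := fun h => c128 h q547 q396
                      have q2021 : ¬ A128 := fun h => c134 h q2020 q203
                      have q2022 : ¬ A82 := fun h => c124 h q496 q2021
                      have q2023 : ¬ A220 := fun h => c160 h q400 q547
                      have q2024 : ¬ A55 := fun h => c198 h q2023 q523
                      have q2025 : ¬ A60 := fun h => c18 q2024 q523 h
                      have q2026 : ¬ A62 := fun h => c171 h q403 q2025
                      have q2027 : ¬ A64 := fun h => c187 h q504 q2025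
                      have q2028 : ¬ A28 := fun h => c11 q2027 h q504
                      have q2029 : A27 := Classical.byContradiction fun h => c10 h q2028 q503
                      exact c189 q2029 q547 q2028
              · have q2030 : ¬ A44 := fun h => c110 h q497 q403
                have q2031 : ¬ A196 := fun h => c15 q2030 h q403
                have q2032 : ¬ A203 := fun h => c147 h q2031 q497
                have q2033 : ¬ A204 := fun h => c61 q404 h q2032
                have q2034 : ¬ A77 := fun h => c142 h q2032 q206
                have q2035 : ¬ A18 := fun h => c139 h q2034 q12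
                have q2036 : ¬ A191 := fun h => c188 h q2035 q7
                rcases Classical.em A32 with q2037 | q2037
                · have q2038 : ¬ A17 := fun h => c106 q2037 h
                  have q2039 : A30 := Classical.byContradiction fun h => c203 q2037 h q497
                  rcases Classical.em A60 with q2040 | q2040
                  · have q2041 : ¬ A20 := fun h => c132 q2040 h
                    have q2042 : ¬ A208 := fun h => c194 h q2041 q205
                    have q2043 : ¬ A56 := fun h => c19 q2042 h q2041
                    have q2044 : A55 := Classical.byContradiction fun h => c18 h q2043 q2040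
                    have q2045 : A220 := Classical.byContradiction fun h => c198 q2044 h q2043
                    have q2046 : A69 := Classical.byContradiction fun h => c160 q2045 q400 h
                    have q2047 : A27 := Classical.byContradiction fun h => c16 h q2031 q2046
                    have q2048 : ¬ A51 := fun h => c121 h q2047
                    have q2049 : ¬ A150 := fun h => c41 q2048 h q494
                    have q2050 : A33 := Classical.byContradiction fun h => c136 q2046 h q494
                    have q2051 : A19 := Classical.byContradiction fun h => c200 q204 q2043 h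
                    have q2052 : ¬ A57 := fun h => c204 h q205 q2043
                    have q2053 : ¬ A197 := fun h => c56 q2048 h q2052
                    have q2054 : A52 := Classical.byContradiction fun h => c57 h q2053 q2051
                    have q2055 : A68 := Classical.byContradiction fun h => c276 q2054 h q2053
                    have q2056 : ¬ A198 := fun h => c275 h q2055
                    have q2057 : A210 := Classical.byContradiction fun h => c305 q2045 h q12
                    have q2058 : A211 := Classical.byContradiction fun h => c63 h q399 q2057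
                    have q2059 : ¬ A209 := fun h => c296 h q2058
                    have q2060 : A212 := Classical.byContradiction fun h => c297 q2058 h q399
                    have q2061 : ¬ A133 := fun h => c300 h q399 q2059
                    rcases Classical.em A8 with q2062 | q2062
                    · have q2063 : A2 := Classical.byContradiction fun h => c148 q2062 q12 h
                      have q2064 : ¬ A90 := fun h => c74 h q2063
                      have q2065 : A6 := Classical.byContradiction fun h => c149 q2062 q400 h
                      have q2066 : ¬ A241 := fun h => c183 h q10 q2064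
                      have q2067 : ¬ A121 := fun h => c0 q2066 h q2064
                      have q2068 : A234 := Classical.byContradiction fun h => c173 u0 q2067 h
                      have q2069 : A35 := Classical.byContradiction fun h => c164 q2068 h q488
                      have q2070 : A151 := Classical.byContradiction fun h => c40 h q2049 q2069
                      have q2071 : ¬ A154 := fun h => c245 q2070 h
                      have q2072 : A39 := Classical.byContradiction fun h => c246 q2070 q2049 h
                      have q2073 : ¬ A153 := fun h => c247 h q2071 q2049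
                      rcases Classical.em A25 with q2074 | q2074
                      · have q2075 : A31 := Classical.byContradiction fun h => c101 q2074 q10 h
                        have q2076 : A233 := Classical.byContradiction fun h => c6 h q2075 q497
                        have q2077 : ¬ A231 := fun h => c88 h q2076
                        have q2078 : ¬ A103 := fun h => c76 h q6 q2077
                        have q2079 : A24 := Classical.byContradiction fun h => c102 q2074 q1 h
                        rcases Classical.em A13 with q2080 | q2080
                        · have q2081 : A36 := Classical.byContradiction fun h => c181 q2080 h q2038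
                          rcases Classical.em A219 with q2082 | q2082
                          · have q2083 : A61 := Classical.byContradiction fun h => c152 q2082 h q2031
                            have q2084 : A49 := Classical.byContradiction fun h => c156 q2083 q12 h
                            have q2085 : A129 := Classical.byContradiction fun h => c174 q2084 h q2043
                            have q2086 : A10 := Classical.byContradiction fun h => c176 q2085 h q205
                            have q2087 : ¬ A91 := fun h => c177 q2086 h
                            have q2088 : A11 := Classical.byContradiction fun h => c216 q5 q2087 h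
                            have q2089 : A87 := Classical.byContradiction fun h => c29 q11 q2088 h
                            have q2090 : A102 := Classical.byContradiction fun h => c30 q6 h q2089
                            exact c209 q2088 q2090
                          · have q2091 : ¬ A227 := fun h => c293 h q2082 q486
                            have q2092 : ¬ A221 := fun h => c301 h q2082 q493
                            have q2093 : A213 := Classical.byContradiction fun h => c290 q2060 h q2092
                            have q2094 : ¬ A224 := fun h => c291 h q2092 q2061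
                            have q2095 : ¬ A214 := fun h => c65 q2094 h q2092
                            have q2096 : A226 := Classical.byContradiction fun h => c288 q2093 q2095 h
                            have q2097 : ¬ A215 := fun h => c289 h q2095 q2091
                            have q2098 : ¬ A225 := fun h => c292 h q2094 q2095
                            have q2099 : ¬ A134 := fun h => c295 h q2061 q2097
                            rcases Classical.em A11 with q2100 | q2100
                            · have q2101 : A87 := Classical.byContradiction fun h => c29 q11 q2100 h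
                              have q2102 : A102 := Classical.byContradiction fun h => c30 q6 h q2101
                              exact c209 q2100 q2102
                            · have q2103 : A91 := Classical.byContradiction fun h => c216 q5 h q2100
                              have q2104 : ¬ A10 := fun h => c177 h q2103
                              have q2105 : ¬ A129 := fun h => c176 h q2104 q205
                              have q2106 : ¬ A49 := fun h => c174 h q2105 q2043
                              have q2107 : ¬ A61 := fun h => c156 h q12 q2106
                              have q2108 : ¬ A230 := fun h => c303 h q2107 q493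
                              have q2109 : ¬ A223 := fun h => c67 q2108 h q2098
                              have q2110 : A222 := Classical.byContradiction fun h => c66 h q2109 q2096
                              exact c302 q2110 q2109 q2099
                        · have q2111 : ¬ A50 := fun h => c179 h q2080 q2052
                          have q2112 : A188 := Classical.byContradiction fun h => c190 q2051 h q2080
                          have q2113 : A236 := Classical.byContradiction fun h => c140 q2112 q2032 h
                          have q2114 : ¬ A183 := fun h => c267 h q2035 q2111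
                          have q2115 : ¬ A192 := fun h => c271 h q2036 q2111
                          rcases Classical.em A219 with q2116 | q2116
                          · have q2117 : A61 := Classical.byContradiction fun h => c152 q2116 h q2031
                            have q2118 : A49 := Classical.byContradiction fun h => c156 q2117 q12 h
                            have q2119 : A129 := Classical.byContradiction fun h => c174 q2118 h q2043
                            have q2120 : A10 := Classical.byContradiction fun h => c176 q2119 h q205
                            have q2121 : ¬ A91 := fun h => c177 q2120 h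
                            have q2122 : A11 := Classical.byContradiction fun h => c216 q5 q2121 h
                            have q2123 : A87 := Classical.byContradiction fun h => c29 q11 q2122 h
                            have q2124 : A102 := Classical.byContradiction fun h => c30 q6 h q2123
                            exact c209 q2122 q2124
                          · have q2125 : ¬ A227 := fun h => c293 h q2116 q486
                            have q2126 : ¬ A221 := fun h => c301 h q2116 q493
                            have q2127 : A213 := Classical.byContradiction fun h => c290 q2060 h q2126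
                            have q2128 : ¬ A224 := fun h => c291 h q2126 q2061
                            have q2129 : ¬ A214 := fun h => c65 q2128 h q2126
                            have q2130 : A226 := Classical.byContradiction fun h => c288 q2127 q2129 h
                            have q2131 : ¬ A215 := fun h => c289 h q2129 q2125
                            have q2132 : ¬ A225 := fun h => c292 h q2128 q2129
                            have q2133 : ¬ A134 := fun h => c295 h q2061 q2131
                            rcases Classical.em A11 with q2134 | q2134
                            · have q2135 : A87 := Classical.byContradiction fun h => c29 q11 q2134 h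
                              have q2136 : A102 := Classical.byContradiction fun h => c30 q6 h q2135
                              exact c209 q2134 q2136
                            · have q2137 : A91 := Classical.byContradiction fun h => c216 q5 h q2134
                              have q2138 : ¬ A10 := fun h => c177 h q2137
                              have q2139 : ¬ A129 := fun h => c176 h q2138 q205
                              have q2140 : ¬ A49 := fun h => c174 h q2139 q2043
                              have q2141 : ¬ A61 := fun h => c156 h q12 q2140
                              have q2142 : ¬ A230 := fun h => c303 h q2141 q493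
                              have q2143 : ¬ A223 := fun h => c67 q2142 h q2132
                              have q2144 : A222 := Classical.byContradiction fun h => c66 h q2143 q2130
                              exact c302 q2144 q2143 q2133
                      · have q2145 : ¬ A148 := fun h => c243 h q488 q2074
                        rcases Classical.em A13 with q2146 | q2146
                        · have q2147 : A36 := Classical.byContradiction fun h => c181 q2146 h q2038
                          rcases Classical.em A219 with q2148 | q2148
                          · have q2149 : A61 := Classical.byContradiction fun h => c152 q2148 h q2031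
                            have q2150 : A49 := Classical.byContradiction fun h => c156 q2149 q12 h
                            have q2151 : A129 := Classical.byContradiction fun h => c174 q2150 h q2043
                            have q2152 : A10 := Classical.byContradiction fun h => c176 q2151 h q205
                            have q2153 : ¬ A91 := fun h => c177 q2152 h
                            have q2154 : A11 := Classical.byContradiction fun h => c216 q5 q2153 h
                            have q2155 : A87 := Classical.byContradiction fun h => c29 q11 q2154 h
                            have q2156 : A102 := Classical.byContradiction fun h => c30 q6 h q2155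
                            exact c209 q2154 q2156
                          · have q2157 : ¬ A227 := fun h => c293 h q2148 q486
                            have q2158 : ¬ A221 := fun h => c301 h q2148 q493
                            have q2159 : A213 := Classical.byContradiction fun h => c290 q2060 h q2158
                            have q2160 : ¬ A224 := fun h => c291 h q2158 q2061
                            have q2161 : ¬ A214 := fun h => c65 q2160 h q2158
                            have q2162 : A226 := Classical.byContradiction fun h => c288 q2159 q2161 h
                            have q2163 : ¬ A215 := fun h => c289 h q2161 q2157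
                            have q2164 : ¬ A225 := fun h => c292 h q2160 q2161
                            have q2165 : ¬ A134 := fun h => c295 h q2061 q2163
                            rcases Classical.em A11 with q2166 | q2166
                            · have q2167 : A87 := Classical.byContradiction fun h => c29 q11 q2166 h
                              have q2168 : A102 := Classical.byContradiction fun h => c30 q6 h q2167
                              exact c209 q2166 q2168
                            · have q2169 : A91 := Classical.byContradiction fun h => c216 q5 h q2166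
                              have q2170 : ¬ A10 := fun h => c177 h q2169
                              have q2171 : ¬ A129 := fun h => c176 h q2170 q205
                              have q2172 : ¬ A49 := fun h => c174 h q2171 q2043
                              have q2173 : ¬ A61 := fun h => c156 h q12 q2172
                              have q2174 : ¬ A230 := fun h => c303 h q2173 q493
                              have q2175 : ¬ A223 := fun h => c67 q2174 h q2164
                              have q2176 : A222 := Classical.byContradiction fun h => c66 h q2175 q2162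
                              exact c302 q2176 q2175 q2165
                        · have q2177 : ¬ A50 := fun h => c179 h q2146 q2052
                          have q2178 : A188 := Classical.byContradiction fun h => c190 q2051 h q2146
                          have q2179 : A236 := Classical.byContradiction fun h => c140 q2178 q2032 h
                          have q2180 : ¬ A183 := fun h => c267 h q2035 q2177
                          have q2181 : ¬ A192 := fun h => c271 h q2036 q2177
                          rcases Classical.em A219 with q2182 | q2182
                          · have q2183 : A61 := Classical.byContradiction fun h => c152 q2182 h q2031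
                            have q2184 : A49 := Classical.byContradiction fun h => c156 q2183 q12 h
                            have q2185 : A129 := Classical.byContradiction fun h => c174 q2184 h q2043
                            have q2186 : A10 := Classical.byContradiction fun h => c176 q2185 h q205
                            have q2187 : ¬ A91 := fun h => c177 q2186 h
                            have q2188 : A11 := Classical.byContradiction fun h => c216 q5 q2187 h
                            have q2189 : A87 := Classical.byContradiction fun h => c29 q11 q2188 h
                            have q2190 : A102 := Classical.byContradiction fun h => c30 q6 h q2189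
                            exact c209 q2188 q2190
                          · have q2191 : ¬ A227 := fun h => c293 h q2182 q486
                            have q2192 : ¬ A221 := fun h => c301 h q2182 q493
                            have q2193 : A213 := Classical.byContradiction fun h => c290 q2060 h q2192
                            have q2194 : ¬ A224 := fun h => c291 h q2192 q2061
                            have q2195 : ¬ A214 := fun h => c65 q2194 h q2192
                            have q2196 : A226 := Classical.byContradiction fun h => c288 q2193 q2195 h
                            have q2197 : ¬ A215 := fun h => c289 h q2195 q2191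
                            have q2198 : ¬ A225 := fun h => c292 h q2194 q2195
                            have q2199 : ¬ A134 := fun h => c295 h q2061 q2197
                            rcases Classical.em A11 with q2200 | q2200
                            · have q2201 : A87 := Classical.byContradiction fun h => c29 q11 q2200 h
                              have q2202 : A102 := Classical.byContradiction fun h => c30 q6 h q2201
                              exact c209 q2200 q2202
                            · have q2203 : A91 := Classical.byContradiction fun h => c216 q5 h q2200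
                              have q2204 : ¬ A10 := fun h => c177 h q2203
                              have q2205 : ¬ A129 := fun h => c176 h q2204 q205
                              have q2206 : ¬ A49 := fun h => c174 h q2205 q2043
                              have q2207 : ¬ A61 := fun h => c156 h q12 q2206
                              have q2208 : ¬ A230 := fun h => c303 h q2207 q493
                              have q2209 : ¬ A223 := fun h => c67 q2208 h q2198
                              have q2210 : A222 := Classical.byContradiction fun h => c66 h q2209 q2196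
                              exact c302 q2210 q2209 q2199
                    · have q2211 : ¬ A22 := fun h => c70 q2062 q12 h
                      rcases Classical.em A219 with q2212 | q2212
                      · have q2213 : A103 := Classical.byContradiction fun h => c151 q2212 q2062 h
                        have q2214 : A231 := Classical.byContradiction fun h => c76 q2213 q6 h
                        have q2215 : ¬ A233 := fun h => c88 q2214 h
                        have q2216 : ¬ A31 := fun h => c6 q2215 h q497
                        have q2217 : A26 := Classical.byContradiction fun h => c89 q2214 q4 h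
                        have q2218 : A25 := Classical.byContradiction fun h => c9 h q2216 q2217
                        exact c101 q2218 q10 q2216
                      · have q2219 : ¬ A227 := fun h => c293 h q2212 q486
                        have q2220 : ¬ A221 := fun h => c301 h q2212 q493
                        have q2221 : A213 := Classical.byContradiction fun h => c290 q2060 h q2220
                        have q2222 : ¬ A224 := fun h => c291 h q2220 q2061
                        have q2223 : ¬ A214 := fun h => c65 q2222 h q2220
                        have q2224 : A226 := Classical.byContradiction fun h => c288 q2221 q2223 h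
                        have q2225 : ¬ A215 := fun h => c289 h q2223 q2219
                        have q2226 : ¬ A225 := fun h => c292 h q2222 q2223
                        have q2227 : ¬ A134 := fun h => c295 h q2061 q2225
                        rcases Classical.em A25 with q2228 | q2228
                        · have q2229 : A31 := Classical.byContradiction fun h => c101 q2228 q10 h
                          have q2230 : A233 := Classical.byContradiction fun h => c6 h q2229 q497
                          have q2231 : ¬ A231 := fun h => c88 h q2230
                          have q2232 : ¬ A103 := fun h => c76 h q6 q2231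
                          have q2233 : A24 := Classical.byContradiction fun h => c102 q2228 q1 h
                          rcases Classical.em A13 with q2234 | q2234
                          · have q2235 : A36 := Classical.byContradiction fun h => c181 q2234 h q2038
                            rcases Classical.em A2 with q2236 | q2236
                            · have q2237 : ¬ A90 := fun h => c74 h q2236
                              have q2238 : A73 := Classical.byContradiction fun h => c95 q2236 h q2062
                              have q2239 : A81 := Classical.byContradiction fun h => c182 q2236 h q2211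
                              have q2240 : ¬ A241 := fun h => c183 h q10 q2237
                              have q2241 : ¬ A121 := fun h => c0 q2240 h q2237
                              have q2242 : A234 := Classical.byContradiction fun h => c173 u0 q2241 h
                              have q2243 : A35 := Classical.byContradiction fun h => c164 q2242 h q488
                              have q2244 : A151 := Classical.byContradiction fun h => c40 h q2049 q2243
                              have q2245 : ¬ A154 := fun h => c245 q2244 h
                              have q2246 : A39 := Classical.byContradiction fun h => c246 q2244 q2049 h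
                              have q2247 : ¬ A153 := fun h => c247 h q2245 q2049
                              rcases Classical.em A11 with q2248 | q2248
                              · have q2249 : A87 := Classical.byContradiction fun h => c29 q11 q2248 h
                                have q2250 : A102 := Classical.byContradiction fun h => c30 q6 h q2249
                                exact c209 q2248 q2250
                              · have q2251 : A91 := Classical.byContradiction fun h => c216 q5 h q2248
                                have q2252 : ¬ A10 := fun h => c177 h q2251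
                                have q2253 : ¬ A129 := fun h => c176 h q2252 q205
                                have q2254 : ¬ A49 := fun h => c174 h q2253 q2043
                                have q2255 : ¬ A61 := fun h => c156 h q12 q2254
                                have q2256 : ¬ A230 := fun h => c303 h q2255 q493
                                have q2257 : ¬ A223 := fun h => c67 q2256 h q2226
                                have q2258 : A222 := Classical.byContradiction fun h => c66 h q2257 q2224
                                exact c302 q2258 q2257 q2227
                            · rcases Classical.em A11 with q2259 | q2259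
                              · have q2260 : A87 := Classical.byContradiction fun h => c29 q11 q2259 h
                                have q2261 : A102 := Classical.byContradiction fun h => c30 q6 h q2260
                                exact c209 q2259 q2261
                              · have q2262 : A91 := Classical.byContradiction fun h => c216 q5 h q2259
                                have q2263 : ¬ A10 := fun h => c177 h q2262
                                have q2264 : ¬ A129 := fun h => c176 h q2263 q205
                                have q2265 : ¬ A49 := fun h => c174 h q2264 q2043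
                                have q2266 : ¬ A61 := fun h => c156 h q12 q2265
                                have q2267 : ¬ A230 := fun h => c303 h q2266 q493
                                have q2268 : ¬ A223 := fun h => c67 q2267 h q2226
                                have q2269 : A222 := Classical.byContradiction fun h => c66 h q2268 q2224
                                exact c302 q2269 q2268 q2227
                          · have q2270 : ¬ A50 := fun h => c179 h q2234 q2052
                            have q2271 : A188 := Classical.byContradiction fun h => c190 q2051 h q2234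
                            have q2272 : A236 := Classical.byContradiction fun h => c140 q2271 q2032 h
                            have q2273 : ¬ A183 := fun h => c267 h q2035 q2270
                            have q2274 : ¬ A192 := fun h => c271 h q2036 q2270
                            rcases Classical.em A2 with q2275 | q2275
                            · have q2276 : ¬ A90 := fun h => c74 h q2275
                              have q2277 : A73 := Classical.byContradiction fun h => c95 q2275 h q2062
                              have q2278 : A81 := Classical.byContradiction fun h => c182 q2275 h q2211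
                              have q2279 : ¬ A241 := fun h => c183 h q10 q2276
                              have q2280 : ¬ A121 := fun h => c0 q2279 h q2276
                              have q2281 : A234 := Classical.byContradiction fun h => c173 u0 q2280 h
                              have q2282 : A35 := Classical.byContradiction fun h => c164 q2281 h q488
                              have q2283 : A151 := Classical.byContradiction fun h => c40 h q2049 q2282
                              have q2284 : ¬ A154 := fun h => c245 q2283 h
                              have q2285 : A39 := Classical.byContradiction fun h => c246 q2283 q2049 h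
                              have q2286 : ¬ A153 := fun h => c247 h q2284 q2049
                              rcases Classical.em A11 with q2287 | q2287
                              · have q2288 : A87 := Classical.byContradiction fun h => c29 q11 q2287 h
                                have q2289 : A102 := Classical.byContradiction fun h => c30 q6 h q2288
                                exact c209 q2287 q2289
                              · have q2290 : A91 := Classical.byContradiction fun h => c216 q5 h q2287
                                have q2291 : ¬ A10 := fun h => c177 h q2290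
                                have q2292 : ¬ A129 := fun h => c176 h q2291 q205
                                have q2293 : ¬ A49 := fun h => c174 h q2292 q2043
                                have q2294 : ¬ A61 := fun h => c156 h q12 q2293
                                have q2295 : ¬ A230 := fun h => c303 h q2294 q493
                                have q2296 : ¬ A223 := fun h => c67 q2295 h q2226
                                have q2297 : A222 := Classical.byContradiction fun h => c66 h q2296 q2224
                                exact c302 q2297 q2296 q2227
                            · rcases Classical.em A11 with q2298 | q2298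
                              · have q2299 : A87 := Classical.byContradiction fun h => c29 q11 q2298 h
                                have q2300 : A102 := Classical.byContradiction fun h => c30 q6 h q2299
                                exact c209 q2298 q2300
                              · have q2301 : A91 := Classical.byContradiction fun h => c216 q5 h q2298
                                have q2302 : ¬ A10 := fun h => c177 h q2301
                                have q2303 : ¬ A129 := fun h => c176 h q2302 q205
                                have q2304 : ¬ A49 := fun h => c174 h q2303 q2043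
                                have q2305 : ¬ A61 := fun h => c156 h q12 q2304
                                have q2306 : ¬ A230 := fun h => c303 h q2305 q493
                                have q2307 : ¬ A223 := fun h => c67 q2306 h q2226
                                have q2308 : A222 := Classical.byContradiction fun h => c66 h q2307 q2224
                                exact c302 q2308 q2307 q2227
                        · have q2309 : ¬ A148 := fun h => c243 h q488 q2228
                          rcases Classical.em A13 with q2310 | q2310
                          · have q2311 : A36 := Classical.byContradiction fun h => c181 q2310 h q2038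
                            rcases Classical.em A2 with q2312 | q2312
                            · have q2313 : ¬ A90 := fun h => c74 h q2312
                              have q2314 : A73 := Classical.byContradiction fun h => c95 q2312 h q2062
                              have q2315 : A81 := Classical.byContradiction fun h => c182 q2312 h q2211
                              have q2316 : ¬ A241 := fun h => c183 h q10 q2313
                              have q2317 : ¬ A121 := fun h => c0 q2316 h q2313
                              have q2318 : A234 := Classical.byContradiction fun h => c173 u0 q2317 h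
                              have q2319 : A35 := Classical.byContradiction fun h => c164 q2318 h q488
                              have q2320 : A151 := Classical.byContradiction fun h => c40 h q2049 q2319
                              have q2321 : ¬ A154 := fun h => c245 q2320 h
                              have q2322 : A39 := Classical.byContradiction fun h => c246 q2320 q2049 h
                              have q2323 : ¬ A153 := fun h => c247 h q2321 q2049
                              rcases Classical.em A11 with q2324 | q2324
                              · have q2325 : A87 := Classical.byContradiction fun h => c29 q11 q2324 h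
                                have q2326 : A102 := Classical.byContradiction fun h => c30 q6 h q2325
                                exact c209 q2324 q2326
                              · have q2327 : A91 := Classical.byContradiction fun h => c216 q5 h q2324
                                have q2328 : ¬ A10 := fun h => c177 h q2327
                                have q2329 : ¬ A129 := fun h => c176 h q2328 q205
                                have q2330 : ¬ A49 := fun h => c174 h q2329 q2043
                                have q2331 : ¬ A61 := fun h => c156 h q12 q2330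
                                have q2332 : ¬ A230 := fun h => c303 h q2331 q493
                                have q2333 : ¬ A223 := fun h => c67 q2332 h q2226
                                have q2334 : A222 := Classical.byContradiction fun h => c66 h q2333 q2224
                                exact c302 q2334 q2333 q2227
                            · rcases Classical.em A11 with q2335 | q2335
                              · have q2336 : A87 := Classical.byContradiction fun h => c29 q11 q2335 h
                                have q2337 : A102 := Classical.byContradiction fun h => c30 q6 h q2336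
                                exact c209 q2335 q2337
                              · have q2338 : A91 := Classical.byContradiction fun h => c216 q5 h q2335
                                have q2339 : ¬ A10 := fun h => c177 h q2338
                                have q2340 : ¬ A129 := fun h => c176 h q2339 q205
                                have q2341 : ¬ A49 := fun h => c174 h q2340 q2043
                                have q2342 : ¬ A61 := fun h => c156 h q12 q2341
                                have q2343 : ¬ A230 := fun h => c303 h q2342 q493
                                have q2344 : ¬ A223 := fun h => c67 q2343 h q2226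
                                have q2345 : A222 := Classical.byContradiction fun h => c66 h q2344 q2224
                                exact c302 q2345 q2344 q2227
                          · have q2346 : ¬ A50 := fun h => c179 h q2310 q2052
                            have q2347 : A188 := Classical.byContradiction fun h => c190 q2051 h q2310
                            have q2348 : A236 := Classical.byContradiction fun h => c140 q2347 q2032 h
                            have q2349 : ¬ A183 := fun h => c267 h q2035 q2346
                            have q2350 : ¬ A192 := fun h => c271 h q2036 q2346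
                            rcases Classical.em A2 with q2351 | q2351
                            · have q2352 : ¬ A90 := fun h => c74 h q2351
                              have q2353 : A73 := Classical.byContradiction fun h => c95 q2351 h q2062
                              have q2354 : A81 := Classical.byContradiction fun h => c182 q2351 h q2211
                              have q2355 : ¬ A241 := fun h => c183 h q10 q2352
                              have q2356 : ¬ A121 := fun h => c0 q2355 h q2352
                              have q2357 : A234 := Classical.byContradiction fun h => c173 u0 q2356 h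
                              have q2358 : A35 := Classical.byContradiction fun h => c164 q2357 h q488
                              have q2359 : A151 := Classical.byContradiction fun h => c40 h q2049 q2358
                              have q2360 : ¬ A154 := fun h => c245 q2359 h
                              have q2361 : A39 := Classical.byContradiction fun h => c246 q2359 q2049 h
                              have q2362 : ¬ A153 := fun h => c247 h q2360 q2049
                              rcases Classical.em A11 with q2363 | q2363
                              · have q2364 : A87 := Classical.byContradiction fun h => c29 q11 q2363 h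
                                have q2365 : A102 := Classical.byContradiction fun h => c30 q6 h q2364
                                exact c209 q2363 q2365
                              · have q2366 : A91 := Classical.byContradiction fun h => c216 q5 h q2363
                                have q2367 : ¬ A10 := fun h => c177 h q2366
                                have q2368 : ¬ A129 := fun h => c176 h q2367 q205
                                have q2369 : ¬ A49 := fun h => c174 h q2368 q2043
                                have q2370 : ¬ A61 := fun h => c156 h q12 q2369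
                                have q2371 : ¬ A230 := fun h => c303 h q2370 q493
                                have q2372 : ¬ A223 := fun h => c67 q2371 h q2226
                                have q2373 : A222 := Classical.byContradiction fun h => c66 h q2372 q2224
                                exact c302 q2373 q2372 q2227
                            · rcases Classical.em A11 with q2374 | q2374
                              · have q2375 : A87 := Classical.byContradiction fun h => c29 q11 q2374 h
                                have q2376 : A102 := Classical.byContradiction fun h => c30 q6 h q2375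
                                exact c209 q2374 q2376
                              · have q2377 : A91 := Classical.byContradiction fun h => c216 q5 h q2374
                                have q2378 : ¬ A10 := fun h => c177 h q2377
                                have q2379 : ¬ A129 := fun h => c176 h q2378 q205
                                have q2380 : ¬ A49 := fun h => c174 h q2379 q2043
                                have q2381 : ¬ A61 := fun h => c156 h q12 q2380
                                have q2382 : ¬ A230 := fun h => c303 h q2381 q493
                                have q2383 : ¬ A223 := fun h => c67 q2382 h q2226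
                                have q2384 : A222 := Classical.byContradiction fun h => c66 h q2383 q2224
                                exact c302 q2384 q2383 q2227
                  · have q2385 : ¬ A124 := fun h => c127 h q2040 q2035
                    have q2386 : ¬ A128 := fun h => c134 h q2385 q203
                    have q2387 : ¬ A82 := fun h => c124 h q496 q2386
                    have q2388 : ¬ A62 := fun h => c171 h q403 q2040
                    have q2389 : ¬ A26 := fun h => c168 h q2388 q2031
                    have q2390 : ¬ A231 := fun h => c89 h q4 q2389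
                    have q2391 : ¬ A103 := fun h => c76 h q6 q2390
                    have q2392 : ¬ A64 := fun h => c187 h q2038 q2040
                    have q2393 : ¬ A28 := fun h => c11 q2392 h q2038
                    exact c202 q2039 q2040 q2393
                · have q2394 : ¬ A233 := fun h => c105 h q2037 q488
                  have q2395 : ¬ A31 := fun h => c6 q2394 h q497
                  have q2396 : ¬ A43 := fun h => c92 h q2395 q496
                  have q2397 : ¬ A25 := fun h => c101 h q10 q2395
                  have q2398 : ¬ A26 := fun h => c9 q2397 q2395 h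
                  have q2399 : ¬ A231 := fun h => c89 h q4 q2398
                  have q2400 : ¬ A103 := fun h => c76 h q6 q2399
                  have q2401 : ¬ A17 := fun h => c118 h q488 q2399
                  have q2402 : ¬ A27 := fun h => c141 h q2031 q2037
                  have q2403 : ¬ A69 := fun h => c16 q2402 q2031 h
                  have q2404 : ¬ A124 := fun h => c128 h q2403 q396
                  have q2405 : ¬ A128 := fun h => c134 h q2404 q203
                  have q2406 : ¬ A82 := fun h => c124 h q496 q2405
                  have q2407 : ¬ A123 := fun h => c112 h q2037 q2406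
                  have q2408 : ¬ A220 := fun h => c160 h q400 q2403
                  have q2409 : ¬ A52 := fun h => c210 h q2402 q2030
                  have q2410 : ¬ A148 := fun h => c243 h q488 q2397
                  rcases Classical.em A20 with q2411 | q2411
                  · have q2412 : ¬ A60 := fun h => c132 h q2411
                    have q2413 : ¬ A62 := fun h => c171 h q403 q2412
                    have q2414 : ¬ A64 := fun h => c187 h q2401 q2412
                    have q2415 : ¬ A28 := fun h => c11 q2414 h q2401
                    have q2416 : ¬ A41 := fun h => c191 h q2415 q497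
                    exact c196 q2411 q2416 q2401
                  · have q2417 : ¬ A172 := fun h => c48 q2409 h q2411
                    have q2418 : ¬ A41 := fun h => c192 h q2411 q2037
                    have q2419 : ¬ A63 := fun h => c13 q2418 h q2037
                    have q2420 : ¬ A51 := fun h => c184 h q2419 q403
                    have q2421 : ¬ A150 := fun h => c41 q2420 h q494
                    have q2422 : ¬ A208 := fun h => c194 h q2411 q205
                    have q2423 : ¬ A56 := fun h => c19 q2422 h q2411
                    have q2424 : ¬ A55 := fun h => c198 h q2408 q2423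
                    have q2425 : ¬ A60 := fun h => c18 q2424 q2423 h
                    have q2426 : ¬ A62 := fun h => c171 h q403 q2425
                    have q2427 : ¬ A64 := fun h => c187 h q2401 q2425
                    have q2428 : ¬ A28 := fun h => c11 q2427 h q2401
                    have q2429 : A19 := Classical.byContradiction fun h => c200 q204 q2423 h
                    have q2430 : A197 := Classical.byContradiction fun h => c57 q2409 h q2429
                    have q2431 : A57 := Classical.byContradiction fun h => c56 q2420 q2430 h
                    exact c204 q2431 q205 q2423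
  · have q2432 : A2 := Classical.byContradiction fun h => c97 u0 h q2
    have q2433 : ¬ A90 := fun h => c74 h q2432
    rcases Classical.em A9 with q2434 | q2434
    · have q2435 : ¬ A109 := fun h => c82 h q2434
      rcases Classical.em A131 with q2436 | q2436
      · have q2437 : A71 := Classical.byContradiction fun h => c25 h q2436 q2435
        have q2438 : ¬ A8 := fun h => c79 q2437 h
        have q2439 : A78 := Classical.byContradiction fun h => c80 q2437 q2435 h
        have q2440 : A73 := Classical.byContradiction fun h => c95 q2432 h q2438
        exact c99 q2440 q2436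
      · have q2441 : A21 := Classical.byContradiction fun h => c27 h q2436 q2434
        have q2442 : ¬ A79 := fun h => c100 h q2441
        have q2443 : A23 := Classical.byContradiction fun h => c161 q2441 h q2436
        have q2444 : ¬ A130 := fun h => c157 h q2443
        rcases Classical.em A78 with q2445 | q2445
        · have q2446 : ¬ A220 := fun h => c159 h q2445
          rcases Classical.em A46 with q2447 | q2447
          · have q2448 : ¬ A76 := fun h => c133 h q2447
            have q2449 : A47 := Classical.byContradiction fun h => c154 q2447 q2444 h
            have q2450 : A48 := Classical.byContradiction fun h => c155 q2447 q2446 h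
            have q2451 : ¬ A69 := fun h => c135 h q2450
            rcases Classical.em A86 with q2452 | q2452
            · have q2453 : ¬ A1 := fun h => c72 q2452 h
              have q2454 : A14 := Classical.byContradiction fun h => c73 q2452 q2 h
              have q2455 : ¬ A122 := fun h => c86 h q2454
              have q2456 : A234 := Classical.byContradiction fun h => c163 q2434 h q2453
              have q2457 : ¬ A232 := fun h => c94 h q2456
              rcases Classical.em A137 with q2458 | q2458
              · have q2459 : ¬ A31 := fun h => c90 h q2458
                rcases Classical.em A20 with q2460 | q2460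
                · have q2461 : ¬ A60 := fun h => c132 h q2460
                  rcases Classical.em A17 with q2462 | q2462
                  · have q2463 : ¬ A32 := fun h => c106 h q2462
                    rcases Classical.em A18 with q2464 | q2464
                    · have q2465 : A77 := Classical.byContradiction fun h => c139 q2464 h q2436
                      rcases Classical.em A26 with q2466 | q2466
                      · have q2467 : A25 := Classical.byContradiction fun h => c9 h q2459 q2466
                        have q2468 : A24 := Classical.byContradiction fun h => c102 q2467 q1 h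
                        have q2469 : ¬ A15 := fun h => c98 q2468 h
                        have q2470 : ¬ A38 := fun h => c113 h q2466
                        have q2471 : A27 := Classical.byContradiction fun h => c138 q2464 h q2469
                        have q2472 : ¬ A51 := fun h => c121 h q2471
                        have q2473 : A63 := Classical.byContradiction fun h => c12 q2472 h q2462
                        have q2474 : A41 := Classical.byContradiction fun h => c13 h q2473 q2463
                        have q2475 : A59 := Classical.byContradiction fun h => c17 q2472 h q2450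
                        have q2476 : A171 := Classical.byContradiction fun h => c14 h q2475 q2451
                        have q2477 : ¬ A196 := fun h => c111 q2475 h
                        exact c141 q2471 q2477 q2463
                      · have q2478 : A231 := Classical.byContradiction fun h => c7 h q2458 q2466
                        exact c89 q2478 q2457 q2466
                    · have q2479 : ¬ A124 := fun h => c127 h q2461 q2464
                      have q2480 : ¬ A128 := fun h => c134 h q2479 q2442
                      have q2481 : A83 := Classical.byContradiction fun h => c22 h q2480 q2445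
                      exact c144 q2481 q2464 q2442
                  · have q2482 : ¬ A159 := fun h => c186 h q2462 q2455
                    have q2483 : ¬ A36 := fun h => c5 q2482 h q2455
                    have q2484 : A25 := Classical.byContradiction fun h => c4 h q2483 q2454
                    have q2485 : A24 := Classical.byContradiction fun h => c102 q2484 q1 h
                    have q2486 : ¬ A15 := fun h => c98 q2485 h
                    have q2487 : A26 := Classical.byContradiction fun h => c178 q2484 q2483 h
                    have q2488 : ¬ A38 := fun h => c113 h q2487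
                    have q2489 : ¬ A13 := fun h => c181 h q2483 q2462
                    have q2490 : ¬ A64 := fun h => c187 h q2462 q2461
                    have q2491 : ¬ A28 := fun h => c11 q2490 h q2462
                    have q2492 : ¬ A27 := fun h => c189 h q2451 q2491
                    have q2493 : ¬ A32 := fun h => c10 q2492 q2491 h
                    have q2494 : ¬ A18 := fun h => c138 h q2492 q2486
                    have q2495 : ¬ A124 := fun h => c127 h q2461 q2494
                    have q2496 : ¬ A128 := fun h => c134 h q2495 q2442
                    have q2497 : A83 := Classical.byContradiction fun h => c22 h q2496 q2445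
                    exact c144 q2497 q2494 q2442
                · have q2498 : ¬ A208 := fun h => c194 h q2460 q2444
                  have q2499 : ¬ A56 := fun h => c19 q2498 h q2460
                  have q2500 : ¬ A55 := fun h => c198 h q2446 q2499
                  have q2501 : ¬ A60 := fun h => c18 q2500 q2499 h
                  have q2502 : A19 := Classical.byContradiction fun h => c200 q2443 q2499 h
                  have q2503 : ¬ A57 := fun h => c204 h q2444 q2499
                  have q2504 : A229 := Classical.byContradiction fun h => c211 q2447 h q2500
                  have q2505 : ¬ A85 := fun h => c213 h q2504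
                  rcases Classical.em A18 with q2506 | q2506
                  · have q2507 : A77 := Classical.byContradiction fun h => c139 q2506 h q2436
                    rcases Classical.em A17 with q2508 | q2508
                    · have q2509 : ¬ A32 := fun h => c106 h q2508
                      have q2510 : ¬ A41 := fun h => c192 h q2460 q2509
                      have q2511 : ¬ A63 := fun h => c13 q2510 h q2509
                      have q2512 : A51 := Classical.byContradiction fun h => c12 h q2511 q2508
                      have q2513 : ¬ A27 := fun h => c121 q2512 h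
                      have q2514 : A15 := Classical.byContradiction fun h => c138 q2506 q2513 h
                      have q2515 : ¬ A24 := fun h => c98 h q2514
                      have q2516 : ¬ A25 := fun h => c102 h q1 q2515
                      have q2517 : A36 := Classical.byContradiction fun h => c4 q2516 h q2454
                      have q2518 : A159 := Classical.byContradiction fun h => c5 h q2517 q2455
                      have q2519 : ¬ A26 := fun h => c9 q2516 q2459 h
                      have q2520 : A231 := Classical.byContradiction fun h => c7 h q2458 q2519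
                      exact c89 q2520 q2457 q2519
                    · have q2521 : ¬ A159 := fun h => c186 h q2508 q2455
                      have q2522 : ¬ A36 := fun h => c5 q2521 h q2455
                      have q2523 : A25 := Classical.byContradiction fun h => c4 h q2522 q2454
                      have q2524 : A24 := Classical.byContradiction fun h => c102 q2523 q1 h
                      have q2525 : ¬ A15 := fun h => c98 q2524 h
                      have q2526 : A27 := Classical.byContradiction fun h => c138 q2506 h q2525
                      have q2527 : ¬ A51 := fun h => c121 h q2526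
                      have q2528 : A59 := Classical.byContradiction fun h => c17 q2527 h q2450
                      have q2529 : A171 := Classical.byContradiction fun h => c14 h q2528 q2451
                      have q2530 : ¬ A197 := fun h => c56 q2527 h q2503
                      have q2531 : A52 := Classical.byContradiction fun h => c57 h q2530 q2502
                      have q2532 : ¬ A196 := fun h => c111 q2528 h
                      have q2533 : A219 := Classical.byContradiction fun h => c130 q2529 q2448 h
                      have q2534 : A32 := Classical.byContradiction fun h => c141 q2526 q2532 h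
                      have q2535 : A61 := Classical.byContradiction fun h => c152 q2533 h q2532
                      have q2536 : A49 := Classical.byContradiction fun h => c156 q2535 q2436 h
                      have q2537 : A129 := Classical.byContradiction fun h => c174 q2536 h q2499
                      have q2538 : A10 := Classical.byContradiction fun h => c176 q2537 h q2444
                      have q2539 : ¬ A91 := fun h => c177 q2538 h
                      have q2540 : A26 := Classical.byContradiction fun h => c178 q2523 q2522 h
                      have q2541 : ¬ A38 := fun h => c113 h q2540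
                      have q2542 : ¬ A203 := fun h => c147 h q2532 q2541
                      have q2543 : A62 := Classical.byContradiction fun h => c168 q2540 h q2532
                      have q2544 : ¬ A13 := fun h => c181 h q2522 q2508
                      have q2545 : ¬ A50 := fun h => c179 h q2544 q2503
                      have q2546 : ¬ A58 := fun h => c78 h q2 q2545
                      have q2547 : ¬ A64 := fun h => c187 h q2508 q2501
                      have q2548 : ¬ A28 := fun h => c11 q2547 h q2508
                      exact c189 q2526 q2451 q2548
                  · have q2549 : ¬ A124 := fun h => c127 h q2501 q2506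
                    have q2550 : ¬ A128 := fun h => c134 h q2549 q2442
                    have q2551 : A83 := Classical.byContradiction fun h => c22 h q2550 q2445
                    exact c144 q2551 q2506 q2442
              · have q2552 : ¬ A136 := fun h => c117 h q2458 q2455
                have q2553 : ¬ A38 := fun h => c8 q2552 q2458 h
                have q2554 : ¬ A152 := fun h => c125 h q2458 q2457
                have q2555 : A35 := Classical.byContradiction fun h => c164 q2456 h q2458
                rcases Classical.em A17 with q2556 | q2556
                · have q2557 : ¬ A32 := fun h => c106 h q2556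
                  have q2558 : ¬ A233 := fun h => c105 h q2557 q2458
                  have q2559 : ¬ A31 := fun h => c6 q2558 h q2553
                  have q2560 : A231 := Classical.byContradiction fun h => c118 q2556 q2458 h
                  have q2561 : A26 := Classical.byContradiction fun h => c89 q2560 q2457 h
                  have q2562 : A25 := Classical.byContradiction fun h => c9 h q2559 q2561
                  have q2563 : A24 := Classical.byContradiction fun h => c102 q2562 q1 h
                  have q2564 : ¬ A15 := fun h => c98 q2563 h
                  rcases Classical.em A18 with q2565 | q2565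
                  · have q2566 : A27 := Classical.byContradiction fun h => c138 q2565 h q2564
                    have q2567 : ¬ A51 := fun h => c121 h q2566
                    have q2568 : A63 := Classical.byContradiction fun h => c12 q2567 h q2556
                    have q2569 : A41 := Classical.byContradiction fun h => c13 h q2568 q2557
                    have q2570 : A59 := Classical.byContradiction fun h => c17 q2567 h q2450
                    have q2571 : A171 := Classical.byContradiction fun h => c14 h q2570 q2451
                    have q2572 : ¬ A150 := fun h => c41 q2567 h q2554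
                    have q2573 : A151 := Classical.byContradiction fun h => c40 h q2572 q2555
                    have q2574 : ¬ A196 := fun h => c111 q2570 h
                    exact c141 q2566 q2574 q2557
                  · have q2575 : ¬ A83 := fun h => c144 h q2565 q2442
                    have q2576 : A128 := Classical.byContradiction fun h => c22 q2575 h q2445
                    have q2577 : A124 := Classical.byContradiction fun h => c134 q2576 h q2442
                    have q2578 : A60 := Classical.byContradiction fun h => c127 q2577 h q2565
                    have q2579 : A235 := Classical.byContradiction fun h => c128 q2577 q2451 h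
                    have q2580 : ¬ A20 := fun h => c132 q2578 h
                    have q2581 : ¬ A191 := fun h => c188 h q2565 q2435
                    have q2582 : ¬ A41 := fun h => c192 h q2580 q2557
                    have q2583 : ¬ A63 := fun h => c13 q2582 h q2557
                    have q2584 : A51 := Classical.byContradiction fun h => c12 h q2583 q2556
                    have q2585 : ¬ A27 := fun h => c121 q2584 h
                    have q2586 : ¬ A208 := fun h => c194 h q2580 q2444
                    have q2587 : ¬ A56 := fun h => c19 q2586 h q2580
                    have q2588 : A55 := Classical.byContradiction fun h => c18 h q2587 q2578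
                    exact c198 q2588 q2446 q2587
                · have q2589 : ¬ A159 := fun h => c186 h q2556 q2455
                  have q2590 : ¬ A36 := fun h => c5 q2589 h q2455
                  have q2591 : A25 := Classical.byContradiction fun h => c4 h q2590 q2454
                  have q2592 : A24 := Classical.byContradiction fun h => c102 q2591 q1 h
                  have q2593 : ¬ A15 := fun h => c98 q2592 h
                  have q2594 : A26 := Classical.byContradiction fun h => c178 q2591 q2590 h
                  have q2595 : ¬ A13 := fun h => c181 h q2590 q2556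
                  rcases Classical.em A20 with q2596 | q2596
                  · have q2597 : ¬ A60 := fun h => c132 h q2596
                    have q2598 : ¬ A64 := fun h => c187 h q2556 q2597
                    have q2599 : ¬ A28 := fun h => c11 q2598 h q2556
                    have q2600 : ¬ A27 := fun h => c189 h q2451 q2599
                    have q2601 : ¬ A32 := fun h => c10 q2600 q2599 h
                    have q2602 : ¬ A233 := fun h => c105 h q2601 q2458
                    have q2603 : ¬ A31 := fun h => c6 q2602 h q2553
                    have q2604 : ¬ A18 := fun h => c138 h q2600 q2593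
                    have q2605 : ¬ A124 := fun h => c127 h q2597 q2604
                    have q2606 : ¬ A128 := fun h => c134 h q2605 q2442
                    have q2607 : A83 := Classical.byContradiction fun h => c22 h q2606 q2445
                    exact c144 q2607 q2604 q2442
                  · have q2608 : ¬ A208 := fun h => c194 h q2596 q2444
                    have q2609 : ¬ A56 := fun h => c19 q2608 h q2596
                    have q2610 : ¬ A55 := fun h => c198 h q2446 q2609
                    have q2611 : ¬ A60 := fun h => c18 q2610 q2609 h
                    have q2612 : ¬ A64 := fun h => c187 h q2556 q2611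
                    have q2613 : ¬ A28 := fun h => c11 q2612 h q2556
                    have q2614 : ¬ A27 := fun h => c189 h q2451 q2613
                    have q2615 : ¬ A32 := fun h => c10 q2614 q2613 h
                    have q2616 : ¬ A233 := fun h => c105 h q2615 q2458
                    have q2617 : ¬ A31 := fun h => c6 q2616 h q2553
                    have q2618 : ¬ A18 := fun h => c138 h q2614 q2593
                    have q2619 : ¬ A124 := fun h => c127 h q2611 q2618
                    have q2620 : ¬ A128 := fun h => c134 h q2619 q2442
                    have q2621 : A83 := Classical.byContradiction fun h => c22 h q2620 q2445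
                    exact c144 q2621 q2618 q2442
            · have q2622 : ¬ A10 := fun h => c28 q2452 q2 h
              have q2623 : ¬ A129 := fun h => c176 h q2622 q2444
              have q2624 : ¬ A88 := fun h => c207 h q2452 q1
              rcases Classical.em A20 with q2625 | q2625
              · have q2626 : ¬ A60 := fun h => c132 h q2625
                rcases Classical.em A17 with q2627 | q2627
                · have q2628 : ¬ A32 := fun h => c106 h q2627
                  rcases Classical.em A137 with q2629 | q2629
                  · have q2630 : ¬ A31 := fun h => c90 h q2629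
                    rcases Classical.em A18 with q2631 | q2631
                    · have q2632 : A77 := Classical.byContradiction fun h => c139 q2631 h q2436
                      rcases Classical.em A27 with q2633 | q2633
                      · have q2634 : ¬ A51 := fun h => c121 h q2633
                        have q2635 : A63 := Classical.byContradiction fun h => c12 q2634 h q2627
                        have q2636 : A41 := Classical.byContradiction fun h => c13 h q2635 q2628
                        have q2637 : A59 := Classical.byContradiction fun h => c17 q2634 h q2450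
                        have q2638 : A171 := Classical.byContradiction fun h => c14 h q2637 q2451
                        have q2639 : ¬ A196 := fun h => c111 q2637 h
                        exact c141 q2633 q2639 q2628
                      · have q2640 : A15 := Classical.byContradiction fun h => c138 q2631 q2633 h
                        have q2641 : ¬ A24 := fun h => c98 h q2640
                        have q2642 : ¬ A25 := fun h => c102 h q1 q2641
                        have q2643 : ¬ A26 := fun h => c9 q2642 q2630 h
                        have q2644 : A231 := Classical.byContradiction fun h => c7 h q2629 q2643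
                        have q2645 : ¬ A233 := fun h => c88 q2644 h
                        have q2646 : A232 := Classical.byContradiction fun h => c89 q2644 h q2643
                        have q2647 : A3 := Classical.byContradiction fun h => c3 q1 h q2646
                        have q2648 : A234 := Classical.byContradiction fun h => c2 q2452 q2647 h
                        exact c94 q2646 q2648
                    · have q2649 : ¬ A124 := fun h => c127 h q2626 q2631
                      have q2650 : ¬ A128 := fun h => c134 h q2649 q2442
                      have q2651 : A83 := Classical.byContradiction fun h => c22 h q2650 q2445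
                      exact c144 q2651 q2631 q2442
                  · have q2652 : ¬ A233 := fun h => c105 h q2628 q2629
                    have q2653 : A231 := Classical.byContradiction fun h => c118 q2627 q2629 h
                    rcases Classical.em A18 with q2654 | q2654
                    · have q2655 : A77 := Classical.byContradiction fun h => c139 q2654 h q2436
                      rcases Classical.em A232 with q2656 | q2656
                      · have q2657 : A3 := Classical.byContradiction fun h => c3 q1 h q2656
                        have q2658 : A234 := Classical.byContradiction fun h => c2 q2452 q2657 h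
                        exact c94 q2656 q2658
                      · have q2659 : A26 := Classical.byContradiction fun h => c89 q2653 q2656 h
                        have q2660 : ¬ A38 := fun h => c113 h q2659
                        have q2661 : ¬ A31 := fun h => c6 q2652 h q2660
                        have q2662 : A25 := Classical.byContradiction fun h => c9 h q2661 q2659
                        have q2663 : A14 := Classical.byContradiction fun h => c101 q2662 h q2661
                        have q2664 : ¬ A122 := fun h => c86 h q2663
                        have q2665 : A24 := Classical.byContradiction fun h => c102 q2662 q1 h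
                        have q2666 : ¬ A15 := fun h => c98 q2665 h
                        have q2667 : ¬ A136 := fun h => c117 h q2629 q2664
                        have q2668 : ¬ A152 := fun h => c125 h q2629 q2656
                        have q2669 : A27 := Classical.byContradiction fun h => c138 q2654 h q2666
                        have q2670 : ¬ A51 := fun h => c121 h q2669
                        have q2671 : A63 := Classical.byContradiction fun h => c12 q2670 h q2627
                        have q2672 : A41 := Classical.byContradiction fun h => c13 h q2671 q2628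
                        have q2673 : A59 := Classical.byContradiction fun h => c17 q2670 h q2450
                        have q2674 : A171 := Classical.byContradiction fun h => c14 h q2673 q2451
                        have q2675 : ¬ A150 := fun h => c41 q2670 h q2668
                        have q2676 : ¬ A196 := fun h => c111 q2673 h
                        exact c141 q2669 q2676 q2628
                    · have q2677 : ¬ A124 := fun h => c127 h q2626 q2654
                      have q2678 : ¬ A128 := fun h => c134 h q2677 q2442
                      have q2679 : A83 := Classical.byContradiction fun h => c22 h q2678 q2445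
                      exact c144 q2679 q2654 q2442
                · have q2680 : ¬ A64 := fun h => c187 h q2627 q2626
                  have q2681 : ¬ A28 := fun h => c11 q2680 h q2627
                  have q2682 : ¬ A27 := fun h => c189 h q2451 q2681
                  have q2683 : ¬ A32 := fun h => c10 q2682 q2681 h
                  have q2684 : A16 := Classical.byContradiction fun h => c195 q2625 q2681 h
                  have q2685 : A41 := Classical.byContradiction fun h => c196 q2625 h q2627
                  have q2686 : A38 := Classical.byContradiction fun h => c191 q2685 q2681 h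
                  have q2687 : ¬ A26 := fun h => c113 q2686 h
                  have q2688 : ¬ A30 := fun h => c202 h q2626 q2681
                  rcases Classical.em A18 with q2689 | q2689
                  · have q2690 : A15 := Classical.byContradiction fun h => c138 q2689 q2682 h
                    have q2691 : ¬ A24 := fun h => c98 h q2690
                    have q2692 : ¬ A25 := fun h => c102 h q1 q2691
                    have q2693 : ¬ A139 := fun h => c37 q2692 h q2688
                    have q2694 : A140 := Classical.byContradiction fun h => c38 h q2693 q2684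
                    have q2695 : A77 := Classical.byContradiction fun h => c139 q2689 h q2436
                    have q2696 : ¬ A34 := fun h => c153 h q2436 q2691
                    have q2697 : ¬ A141 := fun h => c208 q2694 h
                    have q2698 : ¬ A138 := fun h => c233 h q2693 q2697
                    rcases Classical.em A137 with q2699 | q2699
                    · have q2700 : A231 := Classical.byContradiction fun h => c7 h q2699 q2687
                      have q2701 : ¬ A233 := fun h => c88 q2700 h
                      have q2702 : A232 := Classical.byContradiction fun h => c89 q2700 h q2687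
                      have q2703 : A3 := Classical.byContradiction fun h => c3 q1 h q2702
                      have q2704 : A234 := Classical.byContradiction fun h => c2 q2452 q2703 h
                      exact c94 q2702 q2704
                    · have q2705 : A136 := Classical.byContradiction fun h => c8 h q2699 q2686
                      have q2706 : ¬ A233 := fun h => c105 h q2683 q2699
                      have q2707 : A232 := Classical.byContradiction fun h => c114 q2686 q2706 h
                      have q2708 : A3 := Classical.byContradiction fun h => c3 q1 h q2707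
                      have q2709 : A234 := Classical.byContradiction fun h => c2 q2452 q2708 h
                      exact c94 q2707 q2709
                  · have q2710 : ¬ A124 := fun h => c127 h q2626 q2689
                    have q2711 : ¬ A128 := fun h => c134 h q2710 q2442
                    have q2712 : A83 := Classical.byContradiction fun h => c22 h q2711 q2445
                    exact c144 q2712 q2689 q2442
              · have q2713 : ¬ A208 := fun h => c194 h q2625 q2444
                have q2714 : ¬ A56 := fun h => c19 q2713 h q2625
                have q2715 : ¬ A49 := fun h => c174 h q2623 q2714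
                have q2716 : ¬ A61 := fun h => c156 h q2436 q2715
                have q2717 : ¬ A55 := fun h => c198 h q2446 q2714
                have q2718 : ¬ A60 := fun h => c18 q2717 q2714 h
                have q2719 : A19 := Classical.byContradiction fun h => c200 q2443 q2714 h
                have q2720 : ¬ A57 := fun h => c204 h q2444 q2714
                have q2721 : A229 := Classical.byContradiction fun h => c211 q2447 h q2717
                have q2722 : ¬ A85 := fun h => c213 h q2721
                rcases Classical.em A18 with q2723 | q2723
                · have q2724 : A77 := Classical.byContradiction fun h => c139 q2723 h q2436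
                  rcases Classical.em A17 with q2725 | q2725
                  · have q2726 : ¬ A32 := fun h => c106 h q2725
                    have q2727 : ¬ A41 := fun h => c192 h q2625 q2726
                    have q2728 : ¬ A63 := fun h => c13 q2727 h q2726
                    have q2729 : A51 := Classical.byContradiction fun h => c12 h q2728 q2725
                    have q2730 : ¬ A27 := fun h => c121 q2729 h
                    have q2731 : A15 := Classical.byContradiction fun h => c138 q2723 q2730 h
                    have q2732 : ¬ A24 := fun h => c98 h q2731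
                    have q2733 : ¬ A25 := fun h => c102 h q1 q2732
                    have q2734 : ¬ A34 := fun h => c153 h q2436 q2732
                    rcases Classical.em A137 with q2735 | q2735
                    · have q2736 : ¬ A31 := fun h => c90 h q2735
                      have q2737 : ¬ A26 := fun h => c9 q2733 q2736 h
                      have q2738 : A231 := Classical.byContradiction fun h => c7 h q2735 q2737
                      have q2739 : ¬ A233 := fun h => c88 q2738 h
                      have q2740 : A232 := Classical.byContradiction fun h => c89 q2738 h q2737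
                      have q2741 : A3 := Classical.byContradiction fun h => c3 q1 h q2740
                      have q2742 : A234 := Classical.byContradiction fun h => c2 q2452 q2741 h
                      exact c94 q2740 q2742
                    · have q2743 : ¬ A233 := fun h => c105 h q2726 q2735
                      have q2744 : A231 := Classical.byContradiction fun h => c118 q2725 q2735 h
                      have q2745 : ¬ A148 := fun h => c243 h q2735 q2733
                      rcases Classical.em A232 with q2746 | q2746
                      · have q2747 : A3 := Classical.byContradiction fun h => c3 q1 h q2746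
                        have q2748 : A234 := Classical.byContradiction fun h => c2 q2452 q2747 h
                        exact c94 q2746 q2748
                      · have q2749 : A26 := Classical.byContradiction fun h => c89 q2744 q2746 h
                        have q2750 : A31 := Classical.byContradiction fun h => c9 q2733 h q2749
                        have q2751 : A38 := Classical.byContradiction fun h => c6 q2743 q2750 h
                        exact c113 q2751 q2749
                  · have q2752 : ¬ A64 := fun h => c187 h q2725 q2718
                    have q2753 : ¬ A28 := fun h => c11 q2752 h q2725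
                    have q2754 : ¬ A27 := fun h => c189 h q2451 q2753
                    have q2755 : ¬ A32 := fun h => c10 q2754 q2753 h
                    have q2756 : A15 := Classical.byContradiction fun h => c138 q2723 q2754 h
                    have q2757 : ¬ A24 := fun h => c98 h q2756
                    have q2758 : ¬ A25 := fun h => c102 h q1 q2757
                    have q2759 : ¬ A34 := fun h => c153 h q2436 q2757
                    have q2760 : ¬ A41 := fun h => c192 h q2625 q2755
                    have q2761 : ¬ A63 := fun h => c13 q2760 h q2755
                    have q2762 : ¬ A30 := fun h => c202 h q2718 q2753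
                    have q2763 : ¬ A139 := fun h => c37 q2758 h q2762
                    rcases Classical.em A82 with q2764 | q2764
                    · have q2765 : A84 := Classical.byContradiction fun h => c185 q2764 q2761 h
                      have q2766 : A98 := Classical.byContradiction fun h => c193 q2765 q2625 h
                      have q2767 : A81 := Classical.byContradiction fun h => c205 q2766 q2433 h
                      rcases Classical.em A59 with q2768 | q2768
                      · have q2769 : A171 := Classical.byContradiction fun h => c14 h q2768 q2451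
                        have q2770 : ¬ A196 := fun h => c111 q2768 h
                        have q2771 : A219 := Classical.byContradiction fun h => c130 q2769 q2448 h
                        exact c152 q2771 q2716 q2770
                      · have q2772 : A51 := Classical.byContradiction fun h => c17 h q2768 q2450
                        exact c122 q2772 q2725 q2768
                    · have q2773 : ¬ A123 := fun h => c112 h q2755 q2764
                      have q2774 : ¬ A98 := fun h => c206 h q2762 q2764
                      have q2775 : ¬ A84 := fun h => c193 h q2625 q2774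
                      have q2776 : ¬ A142 := fun h => c234 h q2764 q2757
                      have q2777 : ¬ A40 := fun h => c248 h q2764 q2759
                      rcases Classical.em A59 with q2778 | q2778
                      · have q2779 : A171 := Classical.byContradiction fun h => c14 h q2778 q2451
                        have q2780 : ¬ A196 := fun h => c111 q2778 h
                        have q2781 : A219 := Classical.byContradiction fun h => c130 q2779 q2448 h
                        exact c152 q2781 q2716 q2780
                      · have q2782 : A51 := Classical.byContradiction fun h => c17 h q2778 q2450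
                        exact c122 q2782 q2725 q2778
                · have q2783 : ¬ A124 := fun h => c127 h q2718 q2723
                  have q2784 : ¬ A128 := fun h => c134 h q2783 q2442
                  have q2785 : A83 := Classical.byContradiction fun h => c22 h q2784 q2445
                  exact c144 q2785 q2723 q2442
          · have q2786 : ¬ A128 := fun h => c20 q2447 h q2446
            have q2787 : A83 := Classical.byContradiction fun h => c22 h q2786 q2445
            have q2788 : ¬ A55 := fun h => c143 q2787 h
            have q2789 : A18 := Classical.byContradiction fun h => c144 q2787 h q2442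
            have q2790 : A77 := Classical.byContradiction fun h => c139 q2789 h q2436
            have q2791 : A20 := Classical.byContradiction fun h => c145 q2787 h q2786
            have q2792 : ¬ A60 := fun h => c132 h q2791
            rcases Classical.em A17 with q2793 | q2793
            · have q2794 : ¬ A32 := fun h => c106 h q2793
              rcases Classical.em A137 with q2795 | q2795
              · have q2796 : ¬ A31 := fun h => c90 h q2795
                rcases Classical.em A86 with q2797 | q2797
                · have q2798 : ¬ A1 := fun h => c72 q2797 h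
                  have q2799 : A14 := Classical.byContradiction fun h => c73 q2797 q2 h
                  have q2800 : ¬ A122 := fun h => c86 h q2799
                  have q2801 : A234 := Classical.byContradiction fun h => c163 q2434 h q2798
                  have q2802 : ¬ A232 := fun h => c94 h q2801
                  rcases Classical.em A26 with q2803 | q2803
                  · have q2804 : A25 := Classical.byContradiction fun h => c9 h q2796 q2803
                    have q2805 : A24 := Classical.byContradiction fun h => c102 q2804 q1 h
                    have q2806 : ¬ A15 := fun h => c98 q2805 h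
                    have q2807 : ¬ A38 := fun h => c113 h q2803
                    have q2808 : A27 := Classical.byContradiction fun h => c138 q2789 h q2806
                    have q2809 : ¬ A51 := fun h => c121 h q2808
                    have q2810 : A63 := Classical.byContradiction fun h => c12 q2809 h q2793
                    have q2811 : A41 := Classical.byContradiction fun h => c13 h q2810 q2794
                    have q2812 : A196 := Classical.byContradiction fun h => c141 q2808 h q2794
                    have q2813 : ¬ A59 := fun h => c111 h q2812
                    have q2814 : ¬ A48 := fun h => c17 q2809 q2813 h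
                    have q2815 : A44 := Classical.byContradiction fun h => c15 h q2812 q2814
                    exact c110 q2815 q2807 q2814
                  · have q2816 : A231 := Classical.byContradiction fun h => c7 h q2795 q2803
                    exact c89 q2816 q2802 q2803
                · have q2817 : ¬ A10 := fun h => c28 q2797 q2 h
                  have q2818 : ¬ A129 := fun h => c176 h q2817 q2444
                  have q2819 : ¬ A88 := fun h => c207 h q2797 q1
                  rcases Classical.em A8 with q2820 | q2820
                  · have q2821 : ¬ A71 := fun h => c79 h q2820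
                    have q2822 : A6 := Classical.byContradiction fun h => c149 q2820 q2447 h
                    rcases Classical.em A25 with q2823 | q2823
                    · have q2824 : A14 := Classical.byContradiction fun h => c101 q2823 h q2796
                      have q2825 : ¬ A122 := fun h => c86 h q2824
                      have q2826 : A24 := Classical.byContradiction fun h => c102 q2823 q1 h
                      have q2827 : ¬ A15 := fun h => c98 q2826 h
                      have q2828 : A27 := Classical.byContradiction fun h => c138 q2789 h q2827
                      have q2829 : ¬ A51 := fun h => c121 h q2828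
                      have q2830 : A63 := Classical.byContradiction fun h => c12 q2829 h q2793
                      have q2831 : A41 := Classical.byContradiction fun h => c13 h q2830 q2794
                      have q2832 : A196 := Classical.byContradiction fun h => c141 q2828 h q2794
                      have q2833 : ¬ A59 := fun h => c111 h q2832
                      have q2834 : ¬ A48 := fun h => c17 q2829 q2833 h
                      have q2835 : A44 := Classical.byContradiction fun h => c15 h q2832 q2834
                      have q2836 : A38 := Classical.byContradiction fun h => c110 q2835 h q2834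
                      have q2837 : ¬ A26 := fun h => c113 q2836 h
                      have q2838 : A231 := Classical.byContradiction fun h => c7 h q2795 q2837
                      have q2839 : ¬ A233 := fun h => c88 q2838 h
                      have q2840 : A232 := Classical.byContradiction fun h => c89 q2838 h q2837
                      have q2841 : A3 := Classical.byContradiction fun h => c3 q1 h q2840
                      have q2842 : A234 := Classical.byContradiction fun h => c2 q2797 q2841 h
                      exact c94 q2840 q2842
                    · have q2843 : ¬ A26 := fun h => c9 q2823 q2796 h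
                      have q2844 : A231 := Classical.byContradiction fun h => c7 h q2795 q2843
                      have q2845 : ¬ A233 := fun h => c88 q2844 h
                      have q2846 : A232 := Classical.byContradiction fun h => c89 q2844 h q2843
                      have q2847 : A3 := Classical.byContradiction fun h => c3 q1 h q2846
                      have q2848 : A234 := Classical.byContradiction fun h => c2 q2797 q2847 h
                      exact c94 q2846 q2848
                  · have q2849 : ¬ A22 := fun h => c70 q2820 q2436 h
                    have q2850 : A73 := Classical.byContradiction fun h => c95 q2432 h q2820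
                    have q2851 : A81 := Classical.byContradiction fun h => c182 q2432 h q2849
                    rcases Classical.em A25 with q2852 | q2852
                    · have q2853 : A14 := Classical.byContradiction fun h => c101 q2852 h q2796
                      have q2854 : ¬ A122 := fun h => c86 h q2853
                      have q2855 : A24 := Classical.byContradiction fun h => c102 q2852 q1 h
                      have q2856 : ¬ A15 := fun h => c98 q2855 h
                      have q2857 : A27 := Classical.byContradiction fun h => c138 q2789 h q2856
                      have q2858 : ¬ A51 := fun h => c121 h q2857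
                      have q2859 : A63 := Classical.byContradiction fun h => c12 q2858 h q2793
                      have q2860 : A41 := Classical.byContradiction fun h => c13 h q2859 q2794
                      have q2861 : A196 := Classical.byContradiction fun h => c141 q2857 h q2794
                      have q2862 : ¬ A59 := fun h => c111 h q2861
                      have q2863 : ¬ A48 := fun h => c17 q2858 q2862 h
                      have q2864 : A44 := Classical.byContradiction fun h => c15 h q2861 q2863
                      have q2865 : A38 := Classical.byContradiction fun h => c110 q2864 h q2863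
                      have q2866 : ¬ A26 := fun h => c113 q2865 h
                      have q2867 : A231 := Classical.byContradiction fun h => c7 h q2795 q2866
                      have q2868 : ¬ A233 := fun h => c88 q2867 h
                      have q2869 : A232 := Classical.byContradiction fun h => c89 q2867 h q2866
                      have q2870 : A3 := Classical.byContradiction fun h => c3 q1 h q2869
                      have q2871 : A234 := Classical.byContradiction fun h => c2 q2797 q2870 h
                      exact c94 q2869 q2871
                    · have q2872 : ¬ A26 := fun h => c9 q2852 q2796 h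
                      have q2873 : A231 := Classical.byContradiction fun h => c7 h q2795 q2872
                      have q2874 : ¬ A233 := fun h => c88 q2873 h
                      have q2875 : A232 := Classical.byContradiction fun h => c89 q2873 h q2872
                      have q2876 : A3 := Classical.byContradiction fun h => c3 q1 h q2875
                      have q2877 : A234 := Classical.byContradiction fun h => c2 q2797 q2876 h
                      exact c94 q2875 q2877
              · have q2878 : ¬ A233 := fun h => c105 h q2794 q2795
                have q2879 : A231 := Classical.byContradiction fun h => c118 q2793 q2795 h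
                rcases Classical.em A38 with q2880 | q2880
                · have q2881 : A136 := Classical.byContradiction fun h => c8 h q2795 q2880
                  have q2882 : ¬ A26 := fun h => c113 q2880 h
                  have q2883 : A232 := Classical.byContradiction fun h => c89 q2879 h q2882
                  have q2884 : A3 := Classical.byContradiction fun h => c3 q1 h q2883
                  have q2885 : ¬ A234 := fun h => c94 q2883 h
                  have q2886 : A86 := Classical.byContradiction fun h => c2 h q2884 q2885
                  have q2887 : ¬ A1 := fun h => c72 q2886 h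
                  exact c163 q2434 q2885 q2887
                · have q2888 : ¬ A31 := fun h => c6 q2878 h q2880
                  rcases Classical.em A25 with q2889 | q2889
                  · have q2890 : A14 := Classical.byContradiction fun h => c101 q2889 h q2888
                    have q2891 : ¬ A122 := fun h => c86 h q2890
                    have q2892 : A24 := Classical.byContradiction fun h => c102 q2889 q1 h
                    have q2893 : ¬ A15 := fun h => c98 q2892 h
                    have q2894 : ¬ A136 := fun h => c117 h q2795 q2891
                    have q2895 : A27 := Classical.byContradiction fun h => c138 q2789 h q2893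
                    have q2896 : ¬ A51 := fun h => c121 h q2895
                    have q2897 : A63 := Classical.byContradiction fun h => c12 q2896 h q2793
                    have q2898 : A41 := Classical.byContradiction fun h => c13 h q2897 q2794
                    have q2899 : A196 := Classical.byContradiction fun h => c141 q2895 h q2794
                    have q2900 : ¬ A59 := fun h => c111 h q2899
                    have q2901 : ¬ A48 := fun h => c17 q2896 q2900 h
                    have q2902 : A44 := Classical.byContradiction fun h => c15 h q2899 q2901
                    exact c110 q2902 q2880 q2901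
                  · have q2903 : ¬ A26 := fun h => c9 q2889 q2888 h
                    have q2904 : A232 := Classical.byContradiction fun h => c89 q2879 h q2903
                    have q2905 : A3 := Classical.byContradiction fun h => c3 q1 h q2904
                    have q2906 : ¬ A234 := fun h => c94 q2904 h
                    have q2907 : A86 := Classical.byContradiction fun h => c2 h q2905 q2906
                    have q2908 : ¬ A1 := fun h => c72 q2907 h
                    exact c163 q2434 q2906 q2908
            · have q2909 : ¬ A64 := fun h => c187 h q2793 q2792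
              have q2910 : ¬ A28 := fun h => c11 q2909 h q2793
              have q2911 : A16 := Classical.byContradiction fun h => c195 q2791 q2910 h
              have q2912 : A41 := Classical.byContradiction fun h => c196 q2791 h q2793
              have q2913 : A38 := Classical.byContradiction fun h => c191 q2912 q2910 h
              have q2914 : ¬ A26 := fun h => c113 q2913 h
              have q2915 : ¬ A30 := fun h => c202 h q2792 q2910
              rcases Classical.em A27 with q2916 | q2916
              · have q2917 : ¬ A51 := fun h => c121 h q2916
                have q2918 : A69 := Classical.byContradiction fun h => c189 q2916 h q2910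
                have q2919 : ¬ A48 := fun h => c135 q2918 h
                have q2920 : ¬ A62 := fun h => c171 h q2919 q2792
                rcases Classical.em A86 with q2921 | q2921
                · have q2922 : ¬ A1 := fun h => c72 q2921 h
                  have q2923 : A14 := Classical.byContradiction fun h => c73 q2921 q2 h
                  have q2924 : ¬ A122 := fun h => c86 h q2923
                  have q2925 : A234 := Classical.byContradiction fun h => c163 q2434 h q2922
                  have q2926 : ¬ A232 := fun h => c94 h q2925
                  have q2927 : ¬ A231 := fun h => c89 h q2926 q2914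
                  have q2928 : ¬ A137 := fun h => c7 q2927 h q2914
                  have q2929 : A136 := Classical.byContradiction fun h => c8 h q2928 q2913
                  exact c117 q2929 q2928 q2924
                · have q2930 : ¬ A10 := fun h => c28 q2921 q2 h
                  have q2931 : ¬ A129 := fun h => c176 h q2930 q2444
                  have q2932 : ¬ A88 := fun h => c207 h q2921 q1
                  rcases Classical.em A137 with q2933 | q2933
                  · have q2934 : A231 := Classical.byContradiction fun h => c7 h q2933 q2914
                    have q2935 : ¬ A233 := fun h => c88 q2934 h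
                    have q2936 : A232 := Classical.byContradiction fun h => c89 q2934 h q2914
                    have q2937 : A3 := Classical.byContradiction fun h => c3 q1 h q2936
                    have q2938 : A234 := Classical.byContradiction fun h => c2 q2921 q2937 h
                    exact c94 q2936 q2938
                  · have q2939 : A136 := Classical.byContradiction fun h => c8 h q2933 q2913
                    have q2940 : A122 := Classical.byContradiction fun h => c117 q2939 q2933 h
                    have q2941 : ¬ A14 := fun h => c86 q2940 h
                    have q2942 : A1 := Classical.byContradiction fun h => c87 q2940 h q2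
                    have q2943 : ¬ A241 := fun h => c183 h q2941 q2433
                    have q2944 : ¬ A121 := fun h => c0 q2943 h q2433
                    have q2945 : A234 := Classical.byContradiction fun h => c173 u0 q2944 h
                    have q2946 : ¬ A232 := fun h => c94 h q2945
                    have q2947 : ¬ A231 := fun h => c89 h q2946 q2914
                    have q2948 : ¬ A103 := fun h => c76 h q2921 q2947
                    have q2949 : A233 := Classical.byContradiction fun h => c114 q2913 h q2946
                    have q2950 : A32 := Classical.byContradiction fun h => c105 q2949 h q2933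
                    have q2951 : ¬ A152 := fun h => c125 h q2933 q2946
                    have q2952 : ¬ A150 := fun h => c41 q2917 h q2951
                    have q2953 : ¬ A45 := fun h => c120 h q2951 q2919
                    have q2954 : ¬ A82 := fun h => c124 h q2953 q2786
                    have q2955 : A33 := Classical.byContradiction fun h => c136 q2918 h q2951
                    have q2956 : A29 := Classical.byContradiction fun h => c131 q2955 q2786 h
                    have q2957 : A35 := Classical.byContradiction fun h => c164 q2945 h q2933
                    have q2958 : A151 := Classical.byContradiction fun h => c40 h q2952 q2957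
                    have q2959 : A22 := Classical.byContradiction fun h => c197 q2956 h q2915
                    have q2960 : A8 := Classical.byContradiction fun h => c70 h q2436 q2959
                    have q2961 : ¬ A71 := fun h => c79 h q2960
                    have q2962 : A6 := Classical.byContradiction fun h => c149 q2960 q2447 h
                    have q2963 : ¬ A98 := fun h => c206 h q2915 q2954
                    have q2964 : ¬ A154 := fun h => c245 q2958 h
                    have q2965 : A39 := Classical.byContradiction fun h => c246 q2958 q2952 h
                    have q2966 : ¬ A153 := fun h => c247 h q2964 q2952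
                    rcases Classical.em A25 with q2967 | q2967
                    · have q2968 : A31 := Classical.byContradiction fun h => c101 q2967 q2941 h
                      have q2969 : A24 := Classical.byContradiction fun h => c102 q2967 q1 h
                      have q2970 : ¬ A15 := fun h => c98 q2969 h
                      have q2971 : A36 := Classical.byContradiction fun h => c178 q2967 h q2914
                      have q2972 : ¬ A91 := fun h => c201 h q2915 q2970
                      have q2973 : A11 := Classical.byContradiction fun h => c216 q2942 q2972 h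
                      have q2974 : A87 := Classical.byContradiction fun h => c29 q2932 q2973 h
                      have q2975 : A102 := Classical.byContradiction fun h => c30 q2921 h q2974
                      exact c209 q2973 q2975
                    · have q2976 : ¬ A139 := fun h => c37 q2967 h q2915
                      have q2977 : A140 := Classical.byContradiction fun h => c38 h q2976 q2911
                      have q2978 : ¬ A141 := fun h => c208 q2977 h
                      have q2979 : ¬ A138 := fun h => c233 h q2976 q2978
                      have q2980 : ¬ A148 := fun h => c243 h q2933 q2967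
                      rcases Classical.em A40 with q2981 | q2981
                      · have q2982 : A34 := Classical.byContradiction fun h => c248 q2981 q2954 h
                        have q2983 : A24 := Classical.byContradiction fun h => c153 q2982 q2436 h
                        have q2984 : ¬ A15 := fun h => c98 q2983 h
                        have q2985 : ¬ A91 := fun h => c201 h q2915 q2984
                        have q2986 : A11 := Classical.byContradiction fun h => c216 q2942 q2985 h
                        have q2987 : A87 := Classical.byContradiction fun h => c29 q2932 q2986 h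
                        have q2988 : A102 := Classical.byContradiction fun h => c30 q2921 h q2987
                        exact c209 q2986 q2988
                      · have q2989 : ¬ A155 := fun h => c237 h q2966 q2981
                        have q2990 : ¬ A144 := fun h => c42 q2989 h q2981
                        have q2991 : ¬ A143 := fun h => c239 h q2990 q2989
                        have q2992 : A157 := Classical.byContradiction fun h => c240 q2965 q2981 h
                        have q2993 : A158 := Classical.byContradiction fun h => c238 q2992 h q2990
                        rcases Classical.em A11 with q2994 | q2994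
                        · have q2995 : A87 := Classical.byContradiction fun h => c29 q2932 q2994 h
                          have q2996 : A102 := Classical.byContradiction fun h => c30 q2921 h q2995
                          exact c209 q2994 q2996
                        · have q2997 : A91 := Classical.byContradiction fun h => c216 q2942 h q2994
                          have q2998 : A15 := Classical.byContradiction fun h => c201 q2997 q2915 h
                          have q2999 : ¬ A24 := fun h => c98 h q2998
                          have q3000 : A235 := Classical.byContradiction fun h => c116 q2998 q2951 h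
                          have q3001 : ¬ A34 := fun h => c153 h q2436 q2999
                          have q3002 : ¬ A142 := fun h => c234 h q2954 q2999
                          have q3003 : ¬ A135 := fun h => c44 q3002 h q2991
                          have q3004 : A146 := Classical.byContradiction fun h => c43 h q3003 q2993
                          have q3005 : ¬ A156 := fun h => c241 q3004 h
                          have q3006 : A145 := Classical.byContradiction fun h => c242 q3004 h q3003
                          have q3007 : A147 := Classical.byContradiction fun h => c235 q3006 h q2979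
                          have q3008 : A149 := Classical.byContradiction fun h => c39 h q3007 q2980
                          have q3009 : A37 := Classical.byContradiction fun h => c236 q3008 q2980 h
                          exact c244 q3009 q3003 q3005
              · have q3010 : ¬ A32 := fun h => c10 q2916 q2910 h
                have q3011 : A15 := Classical.byContradiction fun h => c138 q2789 q2916 h
                have q3012 : ¬ A24 := fun h => c98 h q3011
                have q3013 : ¬ A25 := fun h => c102 h q1 q3012
                have q3014 : ¬ A139 := fun h => c37 q3013 h q2915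
                have q3015 : A140 := Classical.byContradiction fun h => c38 h q3014 q2911
                have q3016 : ¬ A34 := fun h => c153 h q2436 q3012
                have q3017 : ¬ A141 := fun h => c208 q3015 h
                have q3018 : ¬ A138 := fun h => c233 h q3014 q3017
                rcases Classical.em A137 with q3019 | q3019
                · have q3020 : A231 := Classical.byContradiction fun h => c7 h q3019 q2914
                  have q3021 : ¬ A233 := fun h => c88 q3020 h
                  have q3022 : A232 := Classical.byContradiction fun h => c89 q3020 h q2914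
                  have q3023 : A3 := Classical.byContradiction fun h => c3 q1 h q3022
                  have q3024 : ¬ A31 := fun h => c90 h q3019
                  have q3025 : ¬ A234 := fun h => c94 q3022 h
                  have q3026 : A86 := Classical.byContradiction fun h => c2 h q3023 q3025
                  have q3027 : ¬ A1 := fun h => c72 q3026 h
                  exact c163 q2434 q3025 q3027
                · have q3028 : A136 := Classical.byContradiction fun h => c8 h q3019 q2913
                  have q3029 : ¬ A233 := fun h => c105 h q3010 q3019
                  have q3030 : A232 := Classical.byContradiction fun h => c114 q2913 q3029 h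
                  have q3031 : A3 := Classical.byContradiction fun h => c3 q1 h q3030
                  have q3032 : ¬ A234 := fun h => c94 q3030 h
                  have q3033 : A86 := Classical.byContradiction fun h => c2 h q3031 q3032
                  have q3034 : ¬ A1 := fun h => c72 q3033 h
                  exact c163 q2434 q3032 q3034
        · have q3035 : ¬ A71 := fun h => c80 h q2435 q2445
          have q3036 : ¬ A235 := fun h => c166 h q2445 q2436
          have q3037 : ¬ A217 := fun h => c299 h q2436 q2445
          rcases Classical.em A46 with q3038 | q3038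
          · have q3039 : ¬ A76 := fun h => c133 h q3038
            have q3040 : ¬ A47 := fun h => c21 q3039 h q2445
            exact c154 q3038 q2444 q3040
          · have q3041 : ¬ A48 := fun h => c169 h q2445 q3038
            rcases Classical.em A83 with q3042 | q3042
            · have q3043 : ¬ A55 := fun h => c143 q3042 h
              have q3044 : A18 := Classical.byContradiction fun h => c144 q3042 h q2442
              have q3045 : A77 := Classical.byContradiction fun h => c139 q3044 h q2436
              have q3046 : A203 := Classical.byContradiction fun h => c142 q3045 h q2445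
              rcases Classical.em A20 with q3047 | q3047
              · have q3048 : ¬ A60 := fun h => c132 h q3047
                have q3049 : ¬ A62 := fun h => c171 h q3041 q3048
                rcases Classical.em A17 with q3050 | q3050
                · have q3051 : ¬ A32 := fun h => c106 h q3050
                  rcases Classical.em A196 with q3052 | q3052
                  · have q3053 : A44 := Classical.byContradiction fun h => c15 h q3052 q3041
                    have q3054 : A38 := Classical.byContradiction fun h => c110 q3053 h q3041
                    have q3055 : ¬ A59 := fun h => c111 h q3052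
                    have q3056 : ¬ A26 := fun h => c113 q3054 h
                    rcases Classical.em A137 with q3057 | q3057
                    · have q3058 : A231 := Classical.byContradiction fun h => c7 h q3057 q3056
                      have q3059 : ¬ A233 := fun h => c88 q3058 h
                      have q3060 : A232 := Classical.byContradiction fun h => c89 q3058 h q3056
                      have q3061 : A3 := Classical.byContradiction fun h => c3 q1 h q3060
                      have q3062 : ¬ A31 := fun h => c90 h q3057
                      have q3063 : ¬ A234 := fun h => c94 q3060 h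
                      have q3064 : A86 := Classical.byContradiction fun h => c2 h q3061 q3063
                      have q3065 : ¬ A1 := fun h => c72 q3064 h
                      exact c163 q2434 q3063 q3065
                    · have q3066 : A136 := Classical.byContradiction fun h => c8 h q3057 q3054
                      have q3067 : ¬ A233 := fun h => c105 h q3051 q3057
                      have q3068 : A43 := Classical.byContradiction fun h => c107 q3053 q3067 h
                      have q3069 : ¬ A163 := fun h => c91 q3068 h
                      have q3070 : A232 := Classical.byContradiction fun h => c114 q3054 q3067 h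
                      have q3071 : A3 := Classical.byContradiction fun h => c3 q1 h q3070
                      have q3072 : ¬ A234 := fun h => c94 q3070 h
                      have q3073 : A86 := Classical.byContradiction fun h => c2 h q3071 q3072
                      have q3074 : ¬ A1 := fun h => c72 q3073 h
                      exact c163 q2434 q3072 q3074
                  · have q3075 : ¬ A27 := fun h => c141 h q3052 q3051
                    have q3076 : ¬ A69 := fun h => c16 q3075 q3052 h
                    have q3077 : ¬ A124 := fun h => c128 h q3076 q3036
                    have q3078 : ¬ A128 := fun h => c134 h q3077 q2442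
                    have q3079 : A15 := Classical.byContradiction fun h => c138 q3044 q3075 h
                    have q3080 : ¬ A24 := fun h => c98 h q3079
                    have q3081 : ¬ A25 := fun h => c102 h q1 q3080
                    have q3082 : A152 := Classical.byContradiction fun h => c116 q3079 h q3036
                    have q3083 : A38 := Classical.byContradiction fun h => c147 q3046 q3052 h
                    have q3084 : ¬ A26 := fun h => c113 q3083 h
                    have q3085 : ¬ A34 := fun h => c153 h q2436 q3080
                    have q3086 : ¬ A220 := fun h => c160 h q3038 q3076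
                    rcases Classical.em A137 with q3087 | q3087
                    · have q3088 : A231 := Classical.byContradiction fun h => c7 h q3087 q3084
                      have q3089 : ¬ A233 := fun h => c88 q3088 h
                      have q3090 : A232 := Classical.byContradiction fun h => c89 q3088 h q3084
                      have q3091 : A3 := Classical.byContradiction fun h => c3 q1 h q3090
                      have q3092 : ¬ A31 := fun h => c90 h q3087
                      have q3093 : ¬ A234 := fun h => c94 q3090 h
                      have q3094 : A86 := Classical.byContradiction fun h => c2 h q3091 q3093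
                      have q3095 : ¬ A1 := fun h => c72 q3094 h
                      exact c163 q2434 q3093 q3095
                    · have q3096 : A136 := Classical.byContradiction fun h => c8 h q3087 q3083
                      have q3097 : ¬ A233 := fun h => c105 h q3051 q3087
                      have q3098 : A232 := Classical.byContradiction fun h => c114 q3083 q3097 h
                      have q3099 : A3 := Classical.byContradiction fun h => c3 q1 h q3098
                      have q3100 : ¬ A234 := fun h => c94 q3098 h
                      have q3101 : A86 := Classical.byContradiction fun h => c2 h q3099 q3100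
                      have q3102 : ¬ A1 := fun h => c72 q3101 h
                      exact c163 q2434 q3100 q3102
                · have q3103 : ¬ A64 := fun h => c187 h q3050 q3048
                  have q3104 : ¬ A28 := fun h => c11 q3103 h q3050
                  have q3105 : A16 := Classical.byContradiction fun h => c195 q3047 q3104 h
                  have q3106 : A41 := Classical.byContradiction fun h => c196 q3047 h q3050
                  have q3107 : A38 := Classical.byContradiction fun h => c191 q3106 q3104 h
                  have q3108 : ¬ A26 := fun h => c113 q3107 h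
                  have q3109 : ¬ A30 := fun h => c202 h q3048 q3104
                  rcases Classical.em A232 with q3110 | q3110
                  · have q3111 : A3 := Classical.byContradiction fun h => c3 q1 h q3110
                    have q3112 : ¬ A234 := fun h => c94 q3110 h
                    have q3113 : A86 := Classical.byContradiction fun h => c2 h q3111 q3112
                    have q3114 : ¬ A1 := fun h => c72 q3113 h
                    exact c163 q2434 q3112 q3114
                  · have q3115 : ¬ A231 := fun h => c89 h q3110 q3108
                    have q3116 : ¬ A137 := fun h => c7 q3115 h q3108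
                    have q3117 : A136 := Classical.byContradiction fun h => c8 h q3116 q3107
                    have q3118 : ¬ A72 := fun h => c93 h q3110 q2445
                    have q3119 : A233 := Classical.byContradiction fun h => c114 q3107 h q3110
                    have q3120 : A32 := Classical.byContradiction fun h => c105 q3119 h q3116
                    have q3121 : A27 := Classical.byContradiction fun h => c10 h q3104 q3120
                    have q3122 : A122 := Classical.byContradiction fun h => c117 q3117 q3116 h
                    have q3123 : ¬ A14 := fun h => c86 q3122 h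
                    have q3124 : ¬ A86 := fun h => c73 h q2 q3123
                    have q3125 : ¬ A10 := fun h => c28 q3124 q2 h
                    have q3126 : ¬ A103 := fun h => c76 h q3124 q3115
                    have q3127 : A1 := Classical.byContradiction fun h => c87 q3122 h q2
                    have q3128 : ¬ A74 := fun h => c103 h q3123 q3118
                    have q3129 : ¬ A51 := fun h => c121 h q3121
                    have q3130 : ¬ A75 := fun h => c123 h q3116 q3118
                    have q3131 : ¬ A152 := fun h => c125 h q3116 q3110
                    have q3132 : ¬ A150 := fun h => c41 q3129 h q3131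
                    have q3133 : ¬ A15 := fun h => c116 h q3131 q3036
                    have q3134 : ¬ A45 := fun h => c120 h q3131 q3041
                    have q3135 : ¬ A129 := fun h => c176 h q3125 q2444
                    have q3136 : ¬ A241 := fun h => c183 h q3123 q2433
                    have q3137 : ¬ A121 := fun h => c0 q3136 h q2433
                    have q3138 : A234 := Classical.byContradiction fun h => c173 u0 q3137 h
                    have q3139 : A35 := Classical.byContradiction fun h => c164 q3138 h q3116
                    have q3140 : A151 := Classical.byContradiction fun h => c40 h q3132 q3139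
                    have q3141 : A69 := Classical.byContradiction fun h => c189 q3121 h q3104
                    have q3142 : A33 := Classical.byContradiction fun h => c136 q3141 h q3131
                    have q3143 : ¬ A91 := fun h => c201 h q3109 q3133
                    have q3144 : ¬ A88 := fun h => c207 h q3124 q1
                    have q3145 : A11 := Classical.byContradiction fun h => c216 q3127 q3143 h
                    have q3146 : A87 := Classical.byContradiction fun h => c29 q3144 q3145 h
                    have q3147 : A102 := Classical.byContradiction fun h => c30 q3124 h q3146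
                    exact c209 q3145 q3147
              · have q3148 : A128 := Classical.byContradiction fun h => c145 q3042 q3047 h
                have q3149 : A220 := Classical.byContradiction fun h => c20 q3038 q3148 h
                have q3150 : A124 := Classical.byContradiction fun h => c134 q3148 h q2442
                have q3151 : A69 := Classical.byContradiction fun h => c128 q3150 h q3036
                have q3152 : ¬ A208 := fun h => c194 h q3047 q2444
                have q3153 : ¬ A56 := fun h => c19 q3152 h q3047
                have q3154 : ¬ A60 := fun h => c18 q3043 q3153 h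
                have q3155 : ¬ A62 := fun h => c171 h q3041 q3154
                have q3156 : A19 := Classical.byContradiction fun h => c200 q2443 q3153 h
                have q3157 : ¬ A57 := fun h => c204 h q2444 q3153
                have q3158 : A210 := Classical.byContradiction fun h => c305 q3149 h q2436
                rcases Classical.em A196 with q3159 | q3159
                · have q3160 : A44 := Classical.byContradiction fun h => c15 h q3159 q3041
                  have q3161 : A59 := Classical.byContradiction fun h => c108 q3160 h q3047
                  exact c111 q3161 q3159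
                · have q3162 : A27 := Classical.byContradiction fun h => c16 h q3159 q3151
                  have q3163 : ¬ A51 := fun h => c121 h q3162
                  have q3164 : ¬ A197 := fun h => c56 q3163 h q3157
                  have q3165 : A52 := Classical.byContradiction fun h => c57 h q3164 q3156
                  have q3166 : A32 := Classical.byContradiction fun h => c141 q3162 q3159 h
                  have q3167 : ¬ A17 := fun h => c106 q3166 h
                  have q3168 : A38 := Classical.byContradiction fun h => c147 q3046 q3159 h
                  have q3169 : ¬ A26 := fun h => c113 q3168 h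
                  have q3170 : ¬ A64 := fun h => c187 h q3167 q3154
                  have q3171 : ¬ A28 := fun h => c11 q3170 h q3167
                  have q3172 : ¬ A30 := fun h => c202 h q3154 q3171
                  have q3173 : A68 := Classical.byContradiction fun h => c276 q3165 h q3164
                  have q3174 : ¬ A198 := fun h => c275 h q3173
                  rcases Classical.em A232 with q3175 | q3175
                  · have q3176 : A3 := Classical.byContradiction fun h => c3 q1 h q3175
                    have q3177 : ¬ A234 := fun h => c94 q3175 h
                    have q3178 : A86 := Classical.byContradiction fun h => c2 h q3176 q3177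
                    have q3179 : ¬ A1 := fun h => c72 q3178 h
                    exact c163 q2434 q3177 q3179
                  · have q3180 : ¬ A231 := fun h => c89 h q3175 q3169
                    have q3181 : ¬ A137 := fun h => c7 q3180 h q3169
                    have q3182 : A136 := Classical.byContradiction fun h => c8 h q3181 q3168
                    have q3183 : ¬ A72 := fun h => c93 h q3175 q2445
                    have q3184 : A233 := Classical.byContradiction fun h => c114 q3168 h q3175
                    have q3185 : A122 := Classical.byContradiction fun h => c117 q3182 q3181 h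
                    have q3186 : ¬ A14 := fun h => c86 q3185 h
                    have q3187 : ¬ A86 := fun h => c73 h q2 q3186
                    have q3188 : ¬ A10 := fun h => c28 q3187 q2 h
                    have q3189 : ¬ A103 := fun h => c76 h q3187 q3180
                    have q3190 : A1 := Classical.byContradiction fun h => c87 q3185 h q2
                    have q3191 : ¬ A74 := fun h => c103 h q3186 q3183
                    have q3192 : ¬ A75 := fun h => c123 h q3181 q3183
                    have q3193 : ¬ A152 := fun h => c125 h q3181 q3175
                    have q3194 : ¬ A150 := fun h => c41 q3163 h q3193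
                    have q3195 : ¬ A15 := fun h => c116 h q3193 q3036
                    have q3196 : ¬ A45 := fun h => c120 h q3193 q3041
                    have q3197 : A33 := Classical.byContradiction fun h => c136 q3151 h q3193
                    have q3198 : ¬ A129 := fun h => c176 h q3188 q2444
                    have q3199 : ¬ A49 := fun h => c174 h q3198 q3153
                    have q3200 : ¬ A61 := fun h => c156 h q2436 q3199
                    have q3201 : ¬ A219 := fun h => c152 h q3200 q3159
                    have q3202 : ¬ A241 := fun h => c183 h q3186 q2433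
                    have q3203 : ¬ A121 := fun h => c0 q3202 h q2433
                    have q3204 : A234 := Classical.byContradiction fun h => c173 u0 q3203 h
                    have q3205 : A35 := Classical.byContradiction fun h => c164 q3204 h q3181
                    have q3206 : A151 := Classical.byContradiction fun h => c40 h q3194 q3205
                    have q3207 : ¬ A91 := fun h => c201 h q3172 q3195
                    have q3208 : ¬ A88 := fun h => c207 h q3187 q1
                    have q3209 : A11 := Classical.byContradiction fun h => c216 q3190 q3207 h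
                    have q3210 : A87 := Classical.byContradiction fun h => c29 q3208 q3209 h
                    have q3211 : A102 := Classical.byContradiction fun h => c30 q3187 h q3210
                    exact c209 q3209 q3211
            · have q3212 : ¬ A229 := fun h => c212 h q3038 q3042
              have q3213 : ¬ A97 := fun h => c69 q3212 h q2444
              have q3214 : ¬ A53 := fun h => c215 h q3042 q3038
              rcases Classical.em A86 with q3215 | q3215
              · have q3216 : ¬ A1 := fun h => c72 q3215 h
                have q3217 : A14 := Classical.byContradiction fun h => c73 q3215 q2 h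
                have q3218 : ¬ A122 := fun h => c86 h q3217
                have q3219 : A234 := Classical.byContradiction fun h => c163 q2434 h q3216
                have q3220 : ¬ A232 := fun h => c94 h q3219
                have q3221 : ¬ A72 := fun h => c93 h q3220 q2445
                rcases Classical.em A137 with q3222 | q3222
                · have q3223 : ¬ A31 := fun h => c90 h q3222
                  rcases Classical.em A26 with q3224 | q3224
                  · have q3225 : A25 := Classical.byContradiction fun h => c9 h q3223 q3224
                    have q3226 : A24 := Classical.byContradiction fun h => c102 q3225 q1 h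
                    have q3227 : ¬ A15 := fun h => c98 q3226 h
                    have q3228 : ¬ A38 := fun h => c113 h q3224
                    have q3229 : ¬ A44 := fun h => c110 h q3228 q3041
                    have q3230 : ¬ A196 := fun h => c15 q3229 h q3041
                    have q3231 : ¬ A203 := fun h => c147 h q3230 q3228
                    have q3232 : ¬ A204 := fun h => c61 q3042 h q3231
                    have q3233 : ¬ A77 := fun h => c142 h q3231 q2445
                    have q3234 : ¬ A18 := fun h => c139 h q3233 q2436
                    have q3235 : A62 := Classical.byContradiction fun h => c168 q3224 h q3230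
                    have q3236 : A205 := Classical.byContradiction fun h => c60 h q3232 q3235
                    have q3237 : A60 := Classical.byContradiction fun h => c171 q3235 q3041 h
                    have q3238 : ¬ A20 := fun h => c132 q3237 h
                    have q3239 : ¬ A191 := fun h => c188 h q3234 q2435
                    have q3240 : ¬ A208 := fun h => c194 h q3238 q2444
                    have q3241 : ¬ A56 := fun h => c19 q3240 h q3238
                    have q3242 : A55 := Classical.byContradiction fun h => c18 h q3241 q3237
                    have q3243 : A220 := Classical.byContradiction fun h => c198 q3242 h q3241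
                    have q3244 : A69 := Classical.byContradiction fun h => c160 q3243 q3038 h
                    have q3245 : A27 := Classical.byContradiction fun h => c16 h q3230 q3244
                    have q3246 : ¬ A51 := fun h => c121 h q3245
                    have q3247 : A32 := Classical.byContradiction fun h => c141 q3245 q3230 h
                    have q3248 : ¬ A17 := fun h => c106 q3247 h
                    have q3249 : ¬ A159 := fun h => c186 h q3248 q3218
                    have q3250 : ¬ A36 := fun h => c5 q3249 h q3218
                    have q3251 : ¬ A13 := fun h => c181 h q3250 q3248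
                    have q3252 : A19 := Classical.byContradiction fun h => c200 q2443 q3241 h
                    have q3253 : A188 := Classical.byContradiction fun h => c190 q3252 h q3251
                    have q3254 : A236 := Classical.byContradiction fun h => c140 q3253 q3231 h
                    have q3255 : A30 := Classical.byContradiction fun h => c203 q3247 h q3228
                    have q3256 : ¬ A57 := fun h => c204 h q2444 q3241
                    have q3257 : ¬ A197 := fun h => c56 q3246 h q3256
                    have q3258 : A52 := Classical.byContradiction fun h => c57 h q3257 q3252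
                    have q3259 : ¬ A50 := fun h => c179 h q3251 q3256
                    have q3260 : ¬ A58 := fun h => c78 h q2 q3259
                    have q3261 : ¬ A183 := fun h => c267 h q3234 q3259
                    have q3262 : ¬ A192 := fun h => c271 h q3239 q3259
                    have q3263 : A68 := Classical.byContradiction fun h => c276 q3258 h q3257
                    have q3264 : ¬ A198 := fun h => c275 h q3263
                    have q3265 : ¬ A65 := fun h => c286 h q3234 q3260
                    have q3266 : A70 := Classical.byContradiction fun h => c287 q3236 q3232 h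
                    have q3267 : ¬ A206 := fun h => c280 h q3266
                    have q3268 : ¬ A207 := fun h => c282 h q3267 q3265
                    have q3269 : ¬ A187 := fun h => c62 q3268 h q3265
                    have q3270 : A66 := Classical.byContradiction fun h => c284 q3266 h q3269
                    have q3271 : ¬ A184 := fun h => c268 h q3270
                    have q3272 : ¬ A186 := fun h => c281 h q3271 q3265
                    have q3273 : ¬ A190 := fun h => c59 q3261 h q3272
                    have q3274 : A200 := Classical.byContradiction fun h => c283 q3270 q3265 h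
                    have q3275 : A202 := Classical.byContradiction fun h => c58 h q3273 q3274
                    have q3276 : A201 := Classical.byContradiction fun h => c285 q3275 h q3273
                    have q3277 : A239 := Classical.byContradiction fun h => c278 q3276 q3264 h
                    have q3278 : A210 := Classical.byContradiction fun h => c305 q3243 h q2436
                    rcases Classical.em A193 with q3279 | q3279
                    · have q3280 : ¬ A195 := fun h => c272 q3279 h
                      have q3281 : A189 := Classical.byContradiction fun h => c273 q3279 q3262 h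
                      have q3282 : ¬ A67 := fun h => c274 h q3280 q3262
                      have q3283 : A238 := Classical.byContradiction fun h => c55 h q3277 q3282
                      have q3284 : ¬ A240 := fun h => c277 q3283 h
                      exact c279 q3281 q3264 q3284
                    · have q3285 : ¬ A185 := fun h => c269 h q3271 q3279
                      have q3286 : ¬ A199 := fun h => c54 q3279 q3285 h
                      have q3287 : ¬ A194 := fun h => c53 q3261 h q3286
                      exact c270 q3270 q3279 q3287
                  · have q3288 : A231 := Classical.byContradiction fun h => c7 h q3222 q3224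
                    exact c89 q3288 q3220 q3224
                · have q3289 : ¬ A136 := fun h => c117 h q3222 q3218
                  have q3290 : ¬ A38 := fun h => c8 q3289 q3222 h
                  have q3291 : ¬ A44 := fun h => c110 h q3290 q3041
                  have q3292 : ¬ A196 := fun h => c15 q3291 h q3041
                  have q3293 : ¬ A75 := fun h => c123 h q3222 q3221
                  have q3294 : ¬ A152 := fun h => c125 h q3222 q3220
                  have q3295 : ¬ A15 := fun h => c116 h q3294 q3036
                  have q3296 : ¬ A45 := fun h => c120 h q3294 q3041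
                  have q3297 : ¬ A203 := fun h => c147 h q3292 q3290
                  have q3298 : ¬ A204 := fun h => c61 q3042 h q3297
                  have q3299 : ¬ A77 := fun h => c142 h q3297 q2445
                  have q3300 : ¬ A18 := fun h => c139 h q3299 q2436
                  have q3301 : A35 := Classical.byContradiction fun h => c164 q3219 h q3222
                  have q3302 : ¬ A191 := fun h => c188 h q3300 q2435
                  rcases Classical.em A17 with q3303 | q3303
                  · have q3304 : ¬ A32 := fun h => c106 h q3303
                    have q3305 : ¬ A233 := fun h => c105 h q3304 q3222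
                    have q3306 : ¬ A31 := fun h => c6 q3305 h q3290
                    have q3307 : ¬ A43 := fun h => c92 h q3306 q3296
                    have q3308 : A231 := Classical.byContradiction fun h => c118 q3303 q3222 h
                    have q3309 : A26 := Classical.byContradiction fun h => c89 q3308 q3220 h
                    have q3310 : A25 := Classical.byContradiction fun h => c9 h q3306 q3309
                    have q3311 : A24 := Classical.byContradiction fun h => c102 q3310 q1 h
                    have q3312 : ¬ A27 := fun h => c141 h q3292 q3304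
                    have q3313 : ¬ A69 := fun h => c16 q3312 q3292 h
                    have q3314 : ¬ A124 := fun h => c128 h q3313 q3036
                    have q3315 : ¬ A128 := fun h => c134 h q3314 q2442
                    have q3316 : ¬ A82 := fun h => c124 h q3296 q3315
                    have q3317 : ¬ A123 := fun h => c112 h q3304 q3316
                    have q3318 : ¬ A220 := fun h => c160 h q3038 q3313
                    have q3319 : A62 := Classical.byContradiction fun h => c168 q3309 h q3292
                    have q3320 : A205 := Classical.byContradiction fun h => c60 h q3298 q3319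
                    have q3321 : A60 := Classical.byContradiction fun h => c171 q3319 q3041 h
                    have q3322 : ¬ A20 := fun h => c132 q3321 h
                    have q3323 : ¬ A41 := fun h => c192 h q3322 q3304
                    have q3324 : ¬ A63 := fun h => c13 q3323 h q3304
                    have q3325 : A51 := Classical.byContradiction fun h => c12 h q3324 q3303
                    exact c184 q3325 q3324 q3041
                  · have q3326 : ¬ A159 := fun h => c186 h q3303 q3218
                    have q3327 : ¬ A36 := fun h => c5 q3326 h q3218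
                    have q3328 : A25 := Classical.byContradiction fun h => c4 h q3327 q3217
                    have q3329 : A24 := Classical.byContradiction fun h => c102 q3328 q1 h
                    have q3330 : A26 := Classical.byContradiction fun h => c178 q3328 q3327 h
                    have q3331 : A62 := Classical.byContradiction fun h => c168 q3330 h q3292
                    have q3332 : A205 := Classical.byContradiction fun h => c60 h q3298 q3331
                    have q3333 : A60 := Classical.byContradiction fun h => c171 q3331 q3041 h
                    have q3334 : ¬ A20 := fun h => c132 q3333 h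
                    have q3335 : ¬ A13 := fun h => c181 h q3327 q3303
                    have q3336 : ¬ A208 := fun h => c194 h q3334 q2444
                    have q3337 : ¬ A56 := fun h => c19 q3336 h q3334
                    have q3338 : A55 := Classical.byContradiction fun h => c18 h q3337 q3333
                    have q3339 : A220 := Classical.byContradiction fun h => c198 q3338 h q3337
                    have q3340 : A69 := Classical.byContradiction fun h => c160 q3339 q3038 h
                    have q3341 : A27 := Classical.byContradiction fun h => c16 h q3292 q3340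
                    have q3342 : ¬ A51 := fun h => c121 h q3341
                    have q3343 : ¬ A150 := fun h => c41 q3342 h q3294
                    have q3344 : A151 := Classical.byContradiction fun h => c40 h q3343 q3301
                    have q3345 : A33 := Classical.byContradiction fun h => c136 q3340 h q3294
                    have q3346 : A32 := Classical.byContradiction fun h => c141 q3341 q3292 h
                    have q3347 : A19 := Classical.byContradiction fun h => c200 q2443 q3337 h
                    have q3348 : A188 := Classical.byContradiction fun h => c190 q3347 h q3335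
                    have q3349 : A236 := Classical.byContradiction fun h => c140 q3348 q3297 h
                    have q3350 : A30 := Classical.byContradiction fun h => c203 q3346 h q3290
                    have q3351 : ¬ A57 := fun h => c204 h q2444 q3337
                    have q3352 : ¬ A197 := fun h => c56 q3342 h q3351
                    have q3353 : A52 := Classical.byContradiction fun h => c57 h q3352 q3347
                    have q3354 : ¬ A50 := fun h => c179 h q3335 q3351
                    have q3355 : ¬ A58 := fun h => c78 h q2 q3354
                    have q3356 : ¬ A154 := fun h => c245 q3344 h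
                    have q3357 : A39 := Classical.byContradiction fun h => c246 q3344 q3343 h
                    have q3358 : ¬ A153 := fun h => c247 h q3356 q3343
                    have q3359 : ¬ A183 := fun h => c267 h q3300 q3354
                    have q3360 : ¬ A192 := fun h => c271 h q3302 q3354
                    have q3361 : A68 := Classical.byContradiction fun h => c276 q3353 h q3352
                    have q3362 : ¬ A198 := fun h => c275 h q3361
                    have q3363 : ¬ A65 := fun h => c286 h q3300 q3355
                    have q3364 : A70 := Classical.byContradiction fun h => c287 q3332 q3298 h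
                    have q3365 : ¬ A206 := fun h => c280 h q3364
                    have q3366 : ¬ A207 := fun h => c282 h q3365 q3363
                    have q3367 : ¬ A187 := fun h => c62 q3366 h q3363
                    have q3368 : A66 := Classical.byContradiction fun h => c284 q3364 h q3367
                    have q3369 : ¬ A184 := fun h => c268 h q3368
                    have q3370 : ¬ A186 := fun h => c281 h q3369 q3363
                    have q3371 : ¬ A190 := fun h => c59 q3359 h q3370
                    have q3372 : A200 := Classical.byContradiction fun h => c283 q3368 q3363 h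
                    have q3373 : A202 := Classical.byContradiction fun h => c58 h q3371 q3372
                    have q3374 : A201 := Classical.byContradiction fun h => c285 q3373 h q3371
                    have q3375 : A239 := Classical.byContradiction fun h => c278 q3374 q3362 h
                    have q3376 : A210 := Classical.byContradiction fun h => c305 q3339 h q2436
                    rcases Classical.em A193 with q3377 | q3377
                    · have q3378 : ¬ A195 := fun h => c272 q3377 h
                      have q3379 : A189 := Classical.byContradiction fun h => c273 q3377 q3360 h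
                      have q3380 : ¬ A67 := fun h => c274 h q3378 q3360
                      have q3381 : A238 := Classical.byContradiction fun h => c55 h q3375 q3380
                      have q3382 : ¬ A240 := fun h => c277 q3381 h
                      exact c279 q3379 q3362 q3382
                    · have q3383 : ¬ A185 := fun h => c269 h q3369 q3377
                      have q3384 : ¬ A199 := fun h => c54 q3377 q3383 h
                      have q3385 : ¬ A194 := fun h => c53 q3359 h q3384
                      exact c270 q3368 q3377 q3385
              · have q3386 : ¬ A10 := fun h => c28 q3215 q2 h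
                have q3387 : ¬ A129 := fun h => c176 h q3386 q2444
                have q3388 : ¬ A88 := fun h => c207 h q3215 q1
                rcases Classical.em A20 with q3389 | q3389
                · have q3390 : ¬ A60 := fun h => c132 h q3389
                  have q3391 : ¬ A62 := fun h => c171 h q3041 q3390
                  rcases Classical.em A17 with q3392 | q3392
                  · have q3393 : ¬ A32 := fun h => c106 h q3392
                    rcases Classical.em A137 with q3394 | q3394
                    · have q3395 : ¬ A31 := fun h => c90 h q3394
                      rcases Classical.em A196 with q3396 | q3396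
                      · have q3397 : A44 := Classical.byContradiction fun h => c15 h q3396 q3041
                        have q3398 : A38 := Classical.byContradiction fun h => c110 q3397 h q3041
                        have q3399 : ¬ A59 := fun h => c111 h q3396
                        have q3400 : ¬ A26 := fun h => c113 q3398 h
                        have q3401 : A231 := Classical.byContradiction fun h => c7 h q3394 q3400
                        have q3402 : ¬ A233 := fun h => c88 q3401 h
                        have q3403 : A232 := Classical.byContradiction fun h => c89 q3401 h q3400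
                        have q3404 : A3 := Classical.byContradiction fun h => c3 q1 h q3403
                        have q3405 : A234 := Classical.byContradiction fun h => c2 q3215 q3404 h
                        exact c94 q3403 q3405
                      · have q3406 : ¬ A27 := fun h => c141 h q3396 q3393
                        have q3407 : ¬ A69 := fun h => c16 q3406 q3396 h
                        have q3408 : ¬ A124 := fun h => c128 h q3407 q3036
                        have q3409 : ¬ A128 := fun h => c134 h q3408 q2442
                        have q3410 : ¬ A220 := fun h => c160 h q3038 q3407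
                        have q3411 : ¬ A26 := fun h => c168 h q3391 q3396
                        have q3412 : A231 := Classical.byContradiction fun h => c7 h q3394 q3411
                        have q3413 : ¬ A233 := fun h => c88 q3412 h
                        have q3414 : A232 := Classical.byContradiction fun h => c89 q3412 h q3411
                        have q3415 : A3 := Classical.byContradiction fun h => c3 q1 h q3414
                        have q3416 : A234 := Classical.byContradiction fun h => c2 q3215 q3415 h
                        exact c94 q3414 q3416
                    · have q3417 : ¬ A233 := fun h => c105 h q3393 q3394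
                      have q3418 : A231 := Classical.byContradiction fun h => c118 q3392 q3394 h
                      rcases Classical.em A232 with q3419 | q3419
                      · have q3420 : A3 := Classical.byContradiction fun h => c3 q1 h q3419
                        have q3421 : A234 := Classical.byContradiction fun h => c2 q3215 q3420 h
                        exact c94 q3419 q3421
                      · have q3422 : A26 := Classical.byContradiction fun h => c89 q3418 q3419 h
                        have q3423 : ¬ A72 := fun h => c93 h q3419 q2445
                        have q3424 : ¬ A38 := fun h => c113 h q3422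
                        have q3425 : ¬ A31 := fun h => c6 q3417 h q3424
                        have q3426 : A25 := Classical.byContradiction fun h => c9 h q3425 q3422
                        have q3427 : A14 := Classical.byContradiction fun h => c101 q3426 h q3425
                        have q3428 : ¬ A122 := fun h => c86 h q3427
                        have q3429 : A24 := Classical.byContradiction fun h => c102 q3426 q1 h
                        have q3430 : ¬ A15 := fun h => c98 q3429 h
                        have q3431 : ¬ A44 := fun h => c110 h q3424 q3041
                        have q3432 : ¬ A196 := fun h => c15 q3431 h q3041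
                        exact c168 q3422 q3391 q3432
                  · have q3433 : ¬ A64 := fun h => c187 h q3392 q3390
                    have q3434 : ¬ A28 := fun h => c11 q3433 h q3392
                    have q3435 : A16 := Classical.byContradiction fun h => c195 q3389 q3434 h
                    have q3436 : A41 := Classical.byContradiction fun h => c196 q3389 h q3392
                    have q3437 : A38 := Classical.byContradiction fun h => c191 q3436 q3434 h
                    have q3438 : ¬ A26 := fun h => c113 q3437 h
                    have q3439 : ¬ A30 := fun h => c202 h q3390 q3434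
                    rcases Classical.em A232 with q3440 | q3440
                    · have q3441 : A3 := Classical.byContradiction fun h => c3 q1 h q3440
                      have q3442 : A234 := Classical.byContradiction fun h => c2 q3215 q3441 h
                      exact c94 q3440 q3442
                    · have q3443 : ¬ A231 := fun h => c89 h q3440 q3438
                      have q3444 : ¬ A137 := fun h => c7 q3443 h q3438
                      have q3445 : A136 := Classical.byContradiction fun h => c8 h q3444 q3437
                      have q3446 : ¬ A103 := fun h => c76 h q3215 q3443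
                      have q3447 : ¬ A72 := fun h => c93 h q3440 q2445
                      have q3448 : A233 := Classical.byContradiction fun h => c114 q3437 h q3440
                      have q3449 : A32 := Classical.byContradiction fun h => c105 q3448 h q3444
                      have q3450 : A27 := Classical.byContradiction fun h => c10 h q3434 q3449
                      have q3451 : A122 := Classical.byContradiction fun h => c117 q3445 q3444 h
                      have q3452 : ¬ A14 := fun h => c86 q3451 h
                      have q3453 : A1 := Classical.byContradiction fun h => c87 q3451 h q2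
                      have q3454 : ¬ A74 := fun h => c103 h q3452 q3447
                      have q3455 : ¬ A51 := fun h => c121 h q3450
                      have q3456 : ¬ A75 := fun h => c123 h q3444 q3447
                      have q3457 : ¬ A152 := fun h => c125 h q3444 q3440
                      have q3458 : ¬ A150 := fun h => c41 q3455 h q3457
                      have q3459 : ¬ A15 := fun h => c116 h q3457 q3036
                      have q3460 : ¬ A45 := fun h => c120 h q3457 q3041
                      have q3461 : ¬ A241 := fun h => c183 h q3452 q2433
                      have q3462 : ¬ A121 := fun h => c0 q3461 h q2433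
                      have q3463 : A234 := Classical.byContradiction fun h => c173 u0 q3462 h
                      have q3464 : A35 := Classical.byContradiction fun h => c164 q3463 h q3444
                      have q3465 : A151 := Classical.byContradiction fun h => c40 h q3458 q3464
                      have q3466 : A69 := Classical.byContradiction fun h => c189 q3450 h q3434
                      have q3467 : A33 := Classical.byContradiction fun h => c136 q3466 h q3457
                      have q3468 : ¬ A91 := fun h => c201 h q3439 q3459
                      have q3469 : A11 := Classical.byContradiction fun h => c216 q3453 q3468 h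
                      have q3470 : A87 := Classical.byContradiction fun h => c29 q3388 q3469 h
                      have q3471 : A102 := Classical.byContradiction fun h => c30 q3215 h q3470
                      exact c209 q3469 q3471
                · have q3472 : ¬ A208 := fun h => c194 h q3389 q2444
                  have q3473 : ¬ A56 := fun h => c19 q3472 h q3389
                  have q3474 : ¬ A49 := fun h => c174 h q3387 q3473
                  have q3475 : ¬ A61 := fun h => c156 h q2436 q3474
                  have q3476 : A19 := Classical.byContradiction fun h => c200 q2443 q3473 h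
                  have q3477 : ¬ A57 := fun h => c204 h q2444 q3473
                  rcases Classical.em A196 with q3478 | q3478
                  · have q3479 : A44 := Classical.byContradiction fun h => c15 h q3478 q3041
                    have q3480 : A59 := Classical.byContradiction fun h => c108 q3479 h q3389
                    exact c111 q3480 q3478
                  · have q3481 : ¬ A219 := fun h => c152 h q3475 q3478
                    have q3482 : ¬ A227 := fun h => c293 h q3481 q3213
                    rcases Classical.em A32 with q3483 | q3483
                    · have q3484 : ¬ A17 := fun h => c106 q3483 h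
                      rcases Classical.em A38 with q3485 | q3485
                      · have q3486 : ¬ A26 := fun h => c113 q3485 h
                        rcases Classical.em A232 with q3487 | q3487
                        · have q3488 : A3 := Classical.byContradiction fun h => c3 q1 h q3487
                          have q3489 : A234 := Classical.byContradiction fun h => c2 q3215 q3488 h
                          exact c94 q3487 q3489
                        · have q3490 : ¬ A231 := fun h => c89 h q3487 q3486
                          have q3491 : ¬ A137 := fun h => c7 q3490 h q3486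
                          have q3492 : A136 := Classical.byContradiction fun h => c8 h q3491 q3485
                          have q3493 : ¬ A103 := fun h => c76 h q3215 q3490
                          have q3494 : ¬ A72 := fun h => c93 h q3487 q2445
                          have q3495 : A233 := Classical.byContradiction fun h => c114 q3485 h q3487
                          have q3496 : A122 := Classical.byContradiction fun h => c117 q3492 q3491 h
                          have q3497 : ¬ A14 := fun h => c86 q3496 h
                          have q3498 : A1 := Classical.byContradiction fun h => c87 q3496 h q2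
                          have q3499 : ¬ A74 := fun h => c103 h q3497 q3494
                          have q3500 : ¬ A75 := fun h => c123 h q3491 q3494
                          have q3501 : ¬ A152 := fun h => c125 h q3491 q3487
                          have q3502 : ¬ A15 := fun h => c116 h q3501 q3036
                          have q3503 : ¬ A45 := fun h => c120 h q3501 q3041
                          have q3504 : ¬ A241 := fun h => c183 h q3497 q2433
                          have q3505 : ¬ A121 := fun h => c0 q3504 h q2433
                          have q3506 : A234 := Classical.byContradiction fun h => c173 u0 q3505 h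
                          have q3507 : A35 := Classical.byContradiction fun h => c164 q3506 h q3491
                          have q3508 : ¬ A216 := fun h => c298 h q2436 q3499
                          have q3509 : ¬ A218 := fun h => c64 q3508 h q3037
                          have q3510 : ¬ A221 := fun h => c301 h q3481 q3500
                          have q3511 : ¬ A230 := fun h => c303 h q3475 q3500
                          rcases Classical.em A69 with q3512 | q3512
                          · have q3513 : A27 := Classical.byContradiction fun h => c16 h q3478 q3512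
                            have q3514 : ¬ A51 := fun h => c121 h q3513
                            have q3515 : ¬ A150 := fun h => c41 q3514 h q3501
                            have q3516 : A151 := Classical.byContradiction fun h => c40 h q3515 q3507
                            have q3517 : ¬ A197 := fun h => c56 q3514 h q3477
                            have q3518 : A52 := Classical.byContradiction fun h => c57 h q3517 q3476
                            have q3519 : A33 := Classical.byContradiction fun h => c136 q3512 h q3501
                            have q3520 : ¬ A154 := fun h => c245 q3516 h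
                            have q3521 : A39 := Classical.byContradiction fun h => c246 q3516 q3515 h
                            have q3522 : ¬ A153 := fun h => c247 h q3520 q3515
                            have q3523 : A68 := Classical.byContradiction fun h => c276 q3518 h q3517
                            have q3524 : ¬ A198 := fun h => c275 h q3523
                            rcases Classical.em A25 with q3525 | q3525
                            · have q3526 : A31 := Classical.byContradiction fun h => c101 q3525 q3497 h
                              have q3527 : A24 := Classical.byContradiction fun h => c102 q3525 q1 h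
                              have q3528 : A36 := Classical.byContradiction fun h => c178 q3525 h q3486
                              rcases Classical.em A60 with q3529 | q3529
                              · have q3530 : A55 := Classical.byContradiction fun h => c18 h q3473 q3529
                                have q3531 : A220 := Classical.byContradiction fun h => c198 q3530 h q3473
                                have q3532 : A210 := Classical.byContradiction fun h => c305 q3531 h q2436
                                have q3533 : A211 := Classical.byContradiction fun h => c63 h q3509 q3532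
                                have q3534 : ¬ A209 := fun h => c296 h q3533
                                have q3535 : A212 := Classical.byContradiction fun h => c297 q3533 h q3509
                                have q3536 : A213 := Classical.byContradiction fun h => c290 q3535 h q3510
                                have q3537 : ¬ A133 := fun h => c300 h q3509 q3534
                                have q3538 : ¬ A224 := fun h => c291 h q3510 q3537
                                have q3539 : ¬ A214 := fun h => c65 q3538 h q3510
                                have q3540 : A226 := Classical.byContradiction fun h => c288 q3536 q3539 h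
                                have q3541 : ¬ A215 := fun h => c289 h q3539 q3482
                                have q3542 : ¬ A225 := fun h => c292 h q3538 q3539
                                have q3543 : ¬ A223 := fun h => c67 q3511 h q3542
                                have q3544 : A222 := Classical.byContradiction fun h => c66 h q3543 q3540
                                have q3545 : ¬ A134 := fun h => c295 h q3537 q3541
                                exact c302 q3544 q3543 q3545
                              · have q3546 : ¬ A62 := fun h => c171 h q3041 q3529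
                                have q3547 : ¬ A64 := fun h => c187 h q3484 q3529
                                have q3548 : ¬ A28 := fun h => c11 q3547 h q3484
                                have q3549 : ¬ A30 := fun h => c202 h q3529 q3548
                                have q3550 : ¬ A91 := fun h => c201 h q3549 q3502
                                have q3551 : A11 := Classical.byContradiction fun h => c216 q3498 q3550 h
                                have q3552 : A87 := Classical.byContradiction fun h => c29 q3388 q3551 h
                                have q3553 : A102 := Classical.byContradiction fun h => c30 q3215 h q3552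
                                exact c209 q3551 q3553
                            · have q3554 : ¬ A148 := fun h => c243 h q3491 q3525
                              rcases Classical.em A60 with q3555 | q3555
                              · have q3556 : A55 := Classical.byContradiction fun h => c18 h q3473 q3555
                                have q3557 : A220 := Classical.byContradiction fun h => c198 q3556 h q3473
                                have q3558 : A210 := Classical.byContradiction fun h => c305 q3557 h q2436
                                have q3559 : A211 := Classical.byContradiction fun h => c63 h q3509 q3558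
                                have q3560 : ¬ A209 := fun h => c296 h q3559
                                have q3561 : A212 := Classical.byContradiction fun h => c297 q3559 h q3509
                                have q3562 : A213 := Classical.byContradiction fun h => c290 q3561 h q3510
                                have q3563 : ¬ A133 := fun h => c300 h q3509 q3560
                                have q3564 : ¬ A224 := fun h => c291 h q3510 q3563
                                have q3565 : ¬ A214 := fun h => c65 q3564 h q3510
                                have q3566 : A226 := Classical.byContradiction fun h => c288 q3562 q3565 h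
                                have q3567 : ¬ A215 := fun h => c289 h q3565 q3482
                                have q3568 : ¬ A225 := fun h => c292 h q3564 q3565
                                have q3569 : ¬ A223 := fun h => c67 q3511 h q3568
                                have q3570 : A222 := Classical.byContradiction fun h => c66 h q3569 q3566
                                have q3571 : ¬ A134 := fun h => c295 h q3563 q3567
                                exact c302 q3570 q3569 q3571
                              · have q3572 : ¬ A62 := fun h => c171 h q3041 q3555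
                                have q3573 : ¬ A64 := fun h => c187 h q3484 q3555
                                have q3574 : ¬ A28 := fun h => c11 q3573 h q3484
                                have q3575 : ¬ A30 := fun h => c202 h q3555 q3574
                                have q3576 : ¬ A139 := fun h => c37 q3525 h q3575
                                have q3577 : ¬ A91 := fun h => c201 h q3575 q3502
                                have q3578 : A11 := Classical.byContradiction fun h => c216 q3498 q3577 h
                                have q3579 : A87 := Classical.byContradiction fun h => c29 q3388 q3578 h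
                                have q3580 : A102 := Classical.byContradiction fun h => c30 q3215 h q3579
                                exact c209 q3578 q3580
                          · have q3581 : ¬ A124 := fun h => c128 h q3512 q3036
                            have q3582 : ¬ A128 := fun h => c134 h q3581 q2442
                            have q3583 : ¬ A82 := fun h => c124 h q3503 q3582
                            have q3584 : ¬ A220 := fun h => c160 h q3038 q3512
                            have q3585 : ¬ A55 := fun h => c198 h q3584 q3473
                            have q3586 : ¬ A60 := fun h => c18 q3585 q3473 h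
                            have q3587 : ¬ A62 := fun h => c171 h q3041 q3586
                            have q3588 : ¬ A64 := fun h => c187 h q3484 q3586
                            have q3589 : ¬ A28 := fun h => c11 q3588 h q3484
                            have q3590 : A27 := Classical.byContradiction fun h => c10 h q3589 q3483
                            exact c189 q3590 q3512 q3589
                      · have q3591 : ¬ A44 := fun h => c110 h q3485 q3041
                        have q3592 : ¬ A203 := fun h => c147 h q3478 q3485
                        have q3593 : ¬ A204 := fun h => c61 q3042 h q3592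
                        have q3594 : ¬ A77 := fun h => c142 h q3592 q2445
                        have q3595 : ¬ A18 := fun h => c139 h q3594 q2436
                        have q3596 : ¬ A191 := fun h => c188 h q3595 q2435
                        have q3597 : A30 := Classical.byContradiction fun h => c203 q3483 h q3485
                        rcases Classical.em A60 with q3598 | q3598
                        · have q3599 : A55 := Classical.byContradiction fun h => c18 h q3473 q3598
                          have q3600 : A220 := Classical.byContradiction fun h => c198 q3599 h q3473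
                          have q3601 : A69 := Classical.byContradiction fun h => c160 q3600 q3038 h
                          have q3602 : A27 := Classical.byContradiction fun h => c16 h q3478 q3601
                          have q3603 : ¬ A51 := fun h => c121 h q3602
                          have q3604 : ¬ A197 := fun h => c56 q3603 h q3477
                          have q3605 : A52 := Classical.byContradiction fun h => c57 h q3604 q3476
                          have q3606 : A68 := Classical.byContradiction fun h => c276 q3605 h q3604
                          have q3607 : ¬ A198 := fun h => c275 h q3606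
                          have q3608 : A210 := Classical.byContradiction fun h => c305 q3600 h q2436
                          rcases Classical.em A152 with q3609 | q3609
                          · rcases Classical.em A232 with q3610 | q3610
                            · have q3611 : A3 := Classical.byContradiction fun h => c3 q1 h q3610
                              have q3612 : A234 := Classical.byContradiction fun h => c2 q3215 q3611 h
                              exact c94 q3610 q3612
                            · have q3613 : ¬ A72 := fun h => c93 h q3610 q2445
                              have q3614 : A137 := Classical.byContradiction fun h => c125 q3609 h q3610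
                              have q3615 : ¬ A31 := fun h => c90 h q3614
                              rcases Classical.em A14 with q3616 | q3616
                              · have q3617 : ¬ A122 := fun h => c86 h q3616
                                have q3618 : ¬ A159 := fun h => c186 h q3484 q3617
                                have q3619 : ¬ A36 := fun h => c5 q3618 h q3617
                                have q3620 : A25 := Classical.byContradiction fun h => c4 h q3619 q3616
                                have q3621 : A24 := Classical.byContradiction fun h => c102 q3620 q1 h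
                                have q3622 : ¬ A15 := fun h => c98 q3621 h
                                have q3623 : A26 := Classical.byContradiction fun h => c178 q3620 q3619 h
                                have q3624 : A62 := Classical.byContradiction fun h => c168 q3623 h q3478
                                have q3625 : A205 := Classical.byContradiction fun h => c60 h q3593 q3624
                                have q3626 : ¬ A13 := fun h => c181 h q3619 q3484
                                have q3627 : ¬ A50 := fun h => c179 h q3626 q3477
                                have q3628 : ¬ A58 := fun h => c78 h q2 q3627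
                                have q3629 : A188 := Classical.byContradiction fun h => c190 q3476 h q3626
                                have q3630 : A236 := Classical.byContradiction fun h => c140 q3629 q3592 h
                                have q3631 : ¬ A183 := fun h => c267 h q3595 q3627
                                have q3632 : ¬ A192 := fun h => c271 h q3596 q3627
                                have q3633 : ¬ A65 := fun h => c286 h q3595 q3628
                                have q3634 : A70 := Classical.byContradiction fun h => c287 q3625 q3593 h
                                have q3635 : ¬ A206 := fun h => c280 h q3634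
                                have q3636 : ¬ A207 := fun h => c282 h q3635 q3633
                                have q3637 : ¬ A187 := fun h => c62 q3636 h q3633
                                have q3638 : A66 := Classical.byContradiction fun h => c284 q3634 h q3637
                                have q3639 : ¬ A184 := fun h => c268 h q3638
                                have q3640 : ¬ A186 := fun h => c281 h q3639 q3633
                                have q3641 : ¬ A190 := fun h => c59 q3631 h q3640
                                have q3642 : A200 := Classical.byContradiction fun h => c283 q3638 q3633 h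
                                have q3643 : A202 := Classical.byContradiction fun h => c58 h q3641 q3642
                                have q3644 : A201 := Classical.byContradiction fun h => c285 q3643 h q3641
                                have q3645 : A239 := Classical.byContradiction fun h => c278 q3644 q3607 h
                                rcases Classical.em A193 with q3646 | q3646
                                · have q3647 : ¬ A195 := fun h => c272 q3646 h
                                  have q3648 : A189 := Classical.byContradiction fun h => c273 q3646 q3632 h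
                                  have q3649 : ¬ A67 := fun h => c274 h q3647 q3632
                                  have q3650 : A238 := Classical.byContradiction fun h => c55 h q3645 q3649
                                  have q3651 : ¬ A240 := fun h => c277 q3650 h
                                  exact c279 q3648 q3607 q3651
                                · have q3652 : ¬ A185 := fun h => c269 h q3639 q3646
                                  have q3653 : ¬ A199 := fun h => c54 q3646 q3652 h
                                  have q3654 : ¬ A194 := fun h => c53 q3631 h q3653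
                                  exact c270 q3638 q3646 q3654
                              · have q3655 : ¬ A25 := fun h => c101 h q3616 q3615
                                have q3656 : ¬ A26 := fun h => c9 q3655 q3615 h
                                have q3657 : A231 := Classical.byContradiction fun h => c7 h q3614 q3656
                                exact c89 q3657 q3610 q3656
                          · have q3658 : ¬ A150 := fun h => c41 q3603 h q3609
                            have q3659 : ¬ A15 := fun h => c116 h q3609 q3036
                            have q3660 : ¬ A45 := fun h => c120 h q3609 q3041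
                            have q3661 : A33 := Classical.byContradiction fun h => c136 q3601 h q3609
                            rcases Classical.em A234 with q3662 | q3662
                            · have q3663 : ¬ A232 := fun h => c94 h q3662
                              have q3664 : ¬ A72 := fun h => c93 h q3663 q2445
                              rcases Classical.em A50 with q3665 | q3665
                              · have q3666 : A13 := Classical.byContradiction fun h => c179 q3665 h q3477
                                have q3667 : A36 := Classical.byContradiction fun h => c181 q3666 h q3484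
                                rcases Classical.em A122 with q3668 | q3668
                                · have q3669 : ¬ A14 := fun h => c86 q3668 h
                                  have q3670 : A1 := Classical.byContradiction fun h => c87 q3668 h q2
                                  have q3671 : ¬ A74 := fun h => c103 h q3669 q3664
                                  have q3672 : ¬ A241 := fun h => c183 h q3669 q2433
                                  have q3673 : ¬ A121 := fun h => c0 q3672 h q2433
                                  have q3674 : ¬ A216 := fun h => c298 h q2436 q3671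
                                  have q3675 : ¬ A218 := fun h => c64 q3674 h q3037
                                  have q3676 : A211 := Classical.byContradiction fun h => c63 h q3675 q3608
                                  have q3677 : ¬ A209 := fun h => c296 h q3676
                                  have q3678 : A212 := Classical.byContradiction fun h => c297 q3676 h q3675
                                  have q3679 : ¬ A133 := fun h => c300 h q3675 q3677
                                  rcases Classical.em A31 with q3680 | q3680
                                  · have q3681 : A233 := Classical.byContradiction fun h => c6 h q3680 q3485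
                                    have q3682 : ¬ A231 := fun h => c88 h q3681
                                    have q3683 : ¬ A103 := fun h => c76 h q3215 q3682
                                    have q3684 : ¬ A137 := fun h => c90 q3680 h
                                    have q3685 : ¬ A75 := fun h => c123 h q3684 q3664
                                    have q3686 : A35 := Classical.byContradiction fun h => c164 q3662 h q3684
                                    have q3687 : A151 := Classical.byContradiction fun h => c40 h q3658 q3686
                                    have q3688 : ¬ A154 := fun h => c245 q3687 h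
                                    have q3689 : A39 := Classical.byContradiction fun h => c246 q3687 q3658 h
                                    have q3690 : ¬ A153 := fun h => c247 h q3688 q3658
                                    have q3691 : ¬ A221 := fun h => c301 h q3481 q3685
                                    have q3692 : A213 := Classical.byContradiction fun h => c290 q3678 h q3691
                                    have q3693 : ¬ A224 := fun h => c291 h q3691 q3679
                                    have q3694 : ¬ A214 := fun h => c65 q3693 h q3691
                                    have q3695 : A226 := Classical.byContradiction fun h => c288 q3692 q3694 h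
                                    have q3696 : ¬ A215 := fun h => c289 h q3694 q3482
                                    have q3697 : ¬ A225 := fun h => c292 h q3693 q3694
                                    have q3698 : ¬ A134 := fun h => c295 h q3679 q3696
                                    have q3699 : ¬ A230 := fun h => c303 h q3475 q3685
                                    have q3700 : ¬ A223 := fun h => c67 q3699 h q3697
                                    have q3701 : A222 := Classical.byContradiction fun h => c66 h q3700 q3695
                                    exact c302 q3701 q3700 q3698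
                                  · have q3702 : ¬ A43 := fun h => c92 h q3680 q3660
                                    have q3703 : ¬ A25 := fun h => c101 h q3669 q3680
                                    have q3704 : ¬ A26 := fun h => c9 q3703 q3680 h
                                    have q3705 : ¬ A231 := fun h => c89 h q3663 q3704
                                    have q3706 : ¬ A137 := fun h => c7 q3705 h q3704
                                    have q3707 : ¬ A103 := fun h => c76 h q3215 q3705
                                    have q3708 : ¬ A75 := fun h => c123 h q3706 q3664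
                                    have q3709 : A35 := Classical.byContradiction fun h => c164 q3662 h q3706
                                    have q3710 : A151 := Classical.byContradiction fun h => c40 h q3658 q3709
                                    have q3711 : ¬ A148 := fun h => c243 h q3706 q3703
                                    have q3712 : ¬ A154 := fun h => c245 q3710 h
                                    have q3713 : A39 := Classical.byContradiction fun h => c246 q3710 q3658 h
                                    have q3714 : ¬ A153 := fun h => c247 h q3712 q3658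
                                    have q3715 : ¬ A221 := fun h => c301 h q3481 q3708
                                    have q3716 : A213 := Classical.byContradiction fun h => c290 q3678 h q3715
                                    have q3717 : ¬ A224 := fun h => c291 h q3715 q3679
                                    have q3718 : ¬ A214 := fun h => c65 q3717 h q3715
                                    have q3719 : A226 := Classical.byContradiction fun h => c288 q3716 q3718 h
                                    have q3720 : ¬ A215 := fun h => c289 h q3718 q3482
                                    have q3721 : ¬ A225 := fun h => c292 h q3717 q3718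
                                    have q3722 : ¬ A134 := fun h => c295 h q3679 q3720
                                    have q3723 : ¬ A230 := fun h => c303 h q3475 q3708
                                    have q3724 : ¬ A223 := fun h => c67 q3723 h q3721
                                    have q3725 : A222 := Classical.byContradiction fun h => c66 h q3724 q3719
                                    exact c302 q3725 q3724 q3722
                                · have q3726 : A159 := Classical.byContradiction fun h => c5 h q3667 q3668
                                  exact c186 q3726 q3484 q3668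
                              · have q3727 : ¬ A58 := fun h => c78 h q2 q3665
                                have q3728 : ¬ A183 := fun h => c267 h q3595 q3665
                                have q3729 : ¬ A192 := fun h => c271 h q3596 q3665
                                have q3730 : ¬ A65 := fun h => c286 h q3595 q3727
                                rcases Classical.em A122 with q3731 | q3731
                                · have q3732 : ¬ A14 := fun h => c86 q3731 h
                                  have q3733 : A1 := Classical.byContradiction fun h => c87 q3731 h q2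
                                  have q3734 : ¬ A74 := fun h => c103 h q3732 q3664
                                  have q3735 : ¬ A241 := fun h => c183 h q3732 q2433
                                  have q3736 : ¬ A121 := fun h => c0 q3735 h q2433
                                  have q3737 : ¬ A216 := fun h => c298 h q2436 q3734
                                  have q3738 : ¬ A218 := fun h => c64 q3737 h q3037
                                  have q3739 : A211 := Classical.byContradiction fun h => c63 h q3738 q3608
                                  have q3740 : ¬ A209 := fun h => c296 h q3739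
                                  have q3741 : A212 := Classical.byContradiction fun h => c297 q3739 h q3738
                                  have q3742 : ¬ A133 := fun h => c300 h q3738 q3740
                                  rcases Classical.em A31 with q3743 | q3743
                                  · have q3744 : A233 := Classical.byContradiction fun h => c6 h q3743 q3485
                                    have q3745 : ¬ A231 := fun h => c88 h q3744
                                    have q3746 : ¬ A103 := fun h => c76 h q3215 q3745
                                    have q3747 : ¬ A137 := fun h => c90 q3743 h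
                                    have q3748 : ¬ A75 := fun h => c123 h q3747 q3664
                                    have q3749 : A35 := Classical.byContradiction fun h => c164 q3662 h q3747
                                    have q3750 : A151 := Classical.byContradiction fun h => c40 h q3658 q3749
                                    have q3751 : ¬ A154 := fun h => c245 q3750 h
                                    have q3752 : A39 := Classical.byContradiction fun h => c246 q3750 q3658 h
                                    have q3753 : ¬ A153 := fun h => c247 h q3751 q3658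
                                    have q3754 : ¬ A221 := fun h => c301 h q3481 q3748
                                    have q3755 : A213 := Classical.byContradiction fun h => c290 q3741 h q3754
                                    have q3756 : ¬ A224 := fun h => c291 h q3754 q3742
                                    have q3757 : ¬ A214 := fun h => c65 q3756 h q3754
                                    have q3758 : A226 := Classical.byContradiction fun h => c288 q3755 q3757 h
                                    have q3759 : ¬ A215 := fun h => c289 h q3757 q3482
                                    have q3760 : ¬ A225 := fun h => c292 h q3756 q3757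
                                    have q3761 : ¬ A134 := fun h => c295 h q3742 q3759
                                    have q3762 : ¬ A230 := fun h => c303 h q3475 q3748
                                    have q3763 : ¬ A223 := fun h => c67 q3762 h q3760
                                    have q3764 : A222 := Classical.byContradiction fun h => c66 h q3763 q3758
                                    exact c302 q3764 q3763 q3761
                                  · have q3765 : ¬ A43 := fun h => c92 h q3743 q3660
                                    have q3766 : ¬ A25 := fun h => c101 h q3732 q3743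
                                    have q3767 : ¬ A26 := fun h => c9 q3766 q3743 h
                                    have q3768 : ¬ A231 := fun h => c89 h q3663 q3767
                                    have q3769 : ¬ A137 := fun h => c7 q3768 h q3767
                                    have q3770 : ¬ A103 := fun h => c76 h q3215 q3768
                                    have q3771 : ¬ A75 := fun h => c123 h q3769 q3664
                                    have q3772 : A35 := Classical.byContradiction fun h => c164 q3662 h q3769
                                    have q3773 : A151 := Classical.byContradiction fun h => c40 h q3658 q3772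
                                    have q3774 : ¬ A148 := fun h => c243 h q3769 q3766
                                    have q3775 : ¬ A154 := fun h => c245 q3773 h
                                    have q3776 : A39 := Classical.byContradiction fun h => c246 q3773 q3658 h
                                    have q3777 : ¬ A153 := fun h => c247 h q3775 q3658
                                    have q3778 : ¬ A221 := fun h => c301 h q3481 q3771
                                    have q3779 : A213 := Classical.byContradiction fun h => c290 q3741 h q3778
                                    have q3780 : ¬ A224 := fun h => c291 h q3778 q3742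
                                    have q3781 : ¬ A214 := fun h => c65 q3780 h q3778
                                    have q3782 : A226 := Classical.byContradiction fun h => c288 q3779 q3781 h
                                    have q3783 : ¬ A215 := fun h => c289 h q3781 q3482
                                    have q3784 : ¬ A225 := fun h => c292 h q3780 q3781
                                    have q3785 : ¬ A134 := fun h => c295 h q3742 q3783
                                    have q3786 : ¬ A230 := fun h => c303 h q3475 q3771
                                    have q3787 : ¬ A223 := fun h => c67 q3786 h q3784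
                                    have q3788 : A222 := Classical.byContradiction fun h => c66 h q3787 q3782
                                    exact c302 q3788 q3787 q3785
                                · have q3789 : ¬ A159 := fun h => c186 h q3484 q3731
                                  have q3790 : ¬ A36 := fun h => c5 q3789 h q3731
                                  have q3791 : ¬ A13 := fun h => c181 h q3790 q3484
                                  have q3792 : A188 := Classical.byContradiction fun h => c190 q3476 h q3791
                                  have q3793 : A236 := Classical.byContradiction fun h => c140 q3792 q3592 h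
                                  rcases Classical.em A137 with q3794 | q3794
                                  · have q3795 : ¬ A31 := fun h => c90 h q3794
                                    have q3796 : ¬ A43 := fun h => c92 h q3795 q3660
                                    rcases Classical.em A25 with q3797 | q3797
                                    · have q3798 : A14 := Classical.byContradiction fun h => c101 q3797 h q3795
                                      have q3799 : A24 := Classical.byContradiction fun h => c102 q3797 q1 h
                                      have q3800 : A26 := Classical.byContradiction fun h => c178 q3797 q3790 h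
                                      have q3801 : A62 := Classical.byContradiction fun h => c168 q3800 h q3478
                                      have q3802 : A205 := Classical.byContradiction fun h => c60 h q3593 q3801
                                      have q3803 : A70 := Classical.byContradiction fun h => c287 q3802 q3593 h
                                      have q3804 : ¬ A206 := fun h => c280 h q3803
                                      have q3805 : ¬ A207 := fun h => c282 h q3804 q3730
                                      have q3806 : ¬ A187 := fun h => c62 q3805 h q3730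
                                      have q3807 : A66 := Classical.byContradiction fun h => c284 q3803 h q3806
                                      have q3808 : ¬ A184 := fun h => c268 h q3807
                                      have q3809 : ¬ A186 := fun h => c281 h q3808 q3730
                                      have q3810 : ¬ A190 := fun h => c59 q3728 h q3809
                                      have q3811 : A200 := Classical.byContradiction fun h => c283 q3807 q3730 h
                                      have q3812 : A202 := Classical.byContradiction fun h => c58 h q3810 q3811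
                                      have q3813 : A201 := Classical.byContradiction fun h => c285 q3812 h q3810
                                      have q3814 : A239 := Classical.byContradiction fun h => c278 q3813 q3607 h
                                      rcases Classical.em A193 with q3815 | q3815
                                      · have q3816 : ¬ A195 := fun h => c272 q3815 h
                                        have q3817 : A189 := Classical.byContradiction fun h => c273 q3815 q3729 h
                                        have q3818 : ¬ A67 := fun h => c274 h q3816 q3729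
                                        have q3819 : A238 := Classical.byContradiction fun h => c55 h q3814 q3818
                                        have q3820 : ¬ A240 := fun h => c277 q3819 h
                                        exact c279 q3817 q3607 q3820
                                      · have q3821 : ¬ A185 := fun h => c269 h q3808 q3815
                                        have q3822 : ¬ A199 := fun h => c54 q3815 q3821 h
                                        have q3823 : ¬ A194 := fun h => c53 q3728 h q3822
                                        exact c270 q3807 q3815 q3823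
                                    · have q3824 : ¬ A14 := fun h => c4 q3797 q3790 h
                                      have q3825 : ¬ A26 := fun h => c9 q3797 q3795 h
                                      have q3826 : A231 := Classical.byContradiction fun h => c7 h q3794 q3825
                                      exact c89 q3826 q3663 q3825
                                  · have q3827 : ¬ A136 := fun h => c117 h q3794 q3731
                                    have q3828 : ¬ A75 := fun h => c123 h q3794 q3664
                                    have q3829 : A35 := Classical.byContradiction fun h => c164 q3662 h q3794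
                                    have q3830 : A151 := Classical.byContradiction fun h => c40 h q3658 q3829
                                    have q3831 : ¬ A154 := fun h => c245 q3830 h
                                    have q3832 : A39 := Classical.byContradiction fun h => c246 q3830 q3658 h
                                    have q3833 : ¬ A153 := fun h => c247 h q3831 q3658
                                    have q3834 : ¬ A221 := fun h => c301 h q3481 q3828
                                    have q3835 : ¬ A230 := fun h => c303 h q3475 q3828
                                    rcases Classical.em A25 with q3836 | q3836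
                                    · have q3837 : A24 := Classical.byContradiction fun h => c102 q3836 q1 h
                                      have q3838 : A26 := Classical.byContradiction fun h => c178 q3836 q3790 h
                                      have q3839 : A62 := Classical.byContradiction fun h => c168 q3838 h q3478
                                      have q3840 : A205 := Classical.byContradiction fun h => c60 h q3593 q3839
                                      have q3841 : A70 := Classical.byContradiction fun h => c287 q3840 q3593 h
                                      have q3842 : ¬ A206 := fun h => c280 h q3841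
                                      have q3843 : ¬ A207 := fun h => c282 h q3842 q3730
                                      have q3844 : ¬ A187 := fun h => c62 q3843 h q3730
                                      have q3845 : A66 := Classical.byContradiction fun h => c284 q3841 h q3844
                                      have q3846 : ¬ A184 := fun h => c268 h q3845
                                      have q3847 : ¬ A186 := fun h => c281 h q3846 q3730
                                      have q3848 : ¬ A190 := fun h => c59 q3728 h q3847
                                      have q3849 : A200 := Classical.byContradiction fun h => c283 q3845 q3730 h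
                                      have q3850 : A202 := Classical.byContradiction fun h => c58 h q3848 q3849
                                      have q3851 : A201 := Classical.byContradiction fun h => c285 q3850 h q3848
                                      have q3852 : A239 := Classical.byContradiction fun h => c278 q3851 q3607 h
                                      rcases Classical.em A193 with q3853 | q3853
                                      · have q3854 : ¬ A195 := fun h => c272 q3853 h
                                        have q3855 : A189 := Classical.byContradiction fun h => c273 q3853 q3729 h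
                                        have q3856 : ¬ A67 := fun h => c274 h q3854 q3729
                                        have q3857 : A238 := Classical.byContradiction fun h => c55 h q3852 q3856
                                        have q3858 : ¬ A240 := fun h => c277 q3857 h
                                        exact c279 q3855 q3607 q3858
                                      · have q3859 : ¬ A185 := fun h => c269 h q3846 q3853
                                        have q3860 : ¬ A199 := fun h => c54 q3853 q3859 h
                                        have q3861 : ¬ A194 := fun h => c53 q3728 h q3860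
                                        exact c270 q3845 q3853 q3861
                                    · have q3862 : ¬ A14 := fun h => c4 q3836 q3790 h
                                      have q3863 : ¬ A74 := fun h => c103 h q3862 q3664
                                      have q3864 : ¬ A241 := fun h => c183 h q3862 q2433
                                      have q3865 : ¬ A121 := fun h => c0 q3864 h q2433
                                      have q3866 : ¬ A148 := fun h => c243 h q3794 q3836
                                      have q3867 : ¬ A216 := fun h => c298 h q2436 q3863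
                                      have q3868 : ¬ A218 := fun h => c64 q3867 h q3037
                                      have q3869 : A211 := Classical.byContradiction fun h => c63 h q3868 q3608
                                      have q3870 : ¬ A209 := fun h => c296 h q3869
                                      have q3871 : A212 := Classical.byContradiction fun h => c297 q3869 h q3868
                                      have q3872 : A213 := Classical.byContradiction fun h => c290 q3871 h q3834
                                      have q3873 : ¬ A133 := fun h => c300 h q3868 q3870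
                                      have q3874 : ¬ A224 := fun h => c291 h q3834 q3873
                                      have q3875 : ¬ A214 := fun h => c65 q3874 h q3834
                                      have q3876 : A226 := Classical.byContradiction fun h => c288 q3872 q3875 h
                                      have q3877 : ¬ A215 := fun h => c289 h q3875 q3482
                                      have q3878 : ¬ A225 := fun h => c292 h q3874 q3875
                                      have q3879 : ¬ A223 := fun h => c67 q3835 h q3878
                                      have q3880 : A222 := Classical.byContradiction fun h => c66 h q3879 q3876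
                                      have q3881 : ¬ A134 := fun h => c295 h q3873 q3877
                                      exact c302 q3880 q3879 q3881
                            · have q3882 : ¬ A3 := fun h => c2 q3215 h q3662
                              have q3883 : ¬ A232 := fun h => c3 q1 q3882 h
                              have q3884 : ¬ A72 := fun h => c93 h q3883 q2445
                              have q3885 : A1 := Classical.byContradiction fun h => c163 q2434 q3662 h
                              have q3886 : A122 := Classical.byContradiction fun h => c84 q3885 h q3882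
                              have q3887 : ¬ A14 := fun h => c86 q3886 h
                              have q3888 : ¬ A74 := fun h => c103 h q3887 q3884
                              have q3889 : A121 := Classical.byContradiction fun h => c173 u0 h q3662
                              have q3890 : A241 := Classical.byContradiction fun h => c0 h q3889 q2433
                              exact c183 q3890 q3887 q2433
                        · have q3891 : ¬ A124 := fun h => c127 h q3598 q3595
                          have q3892 : ¬ A128 := fun h => c134 h q3891 q2442
                          have q3893 : ¬ A62 := fun h => c171 h q3041 q3598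
                          have q3894 : ¬ A26 := fun h => c168 h q3893 q3478
                          have q3895 : ¬ A64 := fun h => c187 h q3484 q3598
                          have q3896 : ¬ A28 := fun h => c11 q3895 h q3484
                          exact c202 q3597 q3598 q3896
                    · have q3897 : ¬ A27 := fun h => c141 h q3478 q3483
                      have q3898 : ¬ A69 := fun h => c16 q3897 q3478 h
                      have q3899 : ¬ A124 := fun h => c128 h q3898 q3036
                      have q3900 : ¬ A128 := fun h => c134 h q3899 q2442
                      have q3901 : ¬ A220 := fun h => c160 h q3038 q3898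
                      have q3902 : ¬ A41 := fun h => c192 h q3389 q3483
                      have q3903 : ¬ A63 := fun h => c13 q3902 h q3483
                      have q3904 : ¬ A51 := fun h => c184 h q3903 q3041
                      have q3905 : ¬ A17 := fun h => c12 q3904 q3903 h
                      have q3906 : ¬ A197 := fun h => c56 q3904 h q3477
                      have q3907 : A52 := Classical.byContradiction fun h => c57 h q3906 q3476
                      have q3908 : ¬ A55 := fun h => c198 h q3901 q3473
                      have q3909 : ¬ A60 := fun h => c18 q3908 q3473 h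
                      have q3910 : ¬ A62 := fun h => c171 h q3041 q3909
                      have q3911 : ¬ A26 := fun h => c168 h q3910 q3478
                      have q3912 : ¬ A64 := fun h => c187 h q3905 q3909
                      have q3913 : ¬ A28 := fun h => c11 q3912 h q3905
                      have q3914 : ¬ A30 := fun h => c202 h q3909 q3913
                      have q3915 : A44 := Classical.byContradiction fun h => c210 q3907 q3897 h
                      have q3916 : A59 := Classical.byContradiction fun h => c108 q3915 h q3389
                      have q3917 : A171 := Classical.byContradiction fun h => c14 h q3916 q3898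
                      have q3918 : A38 := Classical.byContradiction fun h => c110 q3915 h q3041
                      have q3919 : A76 := Classical.byContradiction fun h => c130 q3917 h q3481
                      have q3920 : A68 := Classical.byContradiction fun h => c276 q3907 h q3906
                      have q3921 : ¬ A198 := fun h => c275 h q3920
                      rcases Classical.em A137 with q3922 | q3922
                      · have q3923 : A231 := Classical.byContradiction fun h => c7 h q3922 q3911
                        have q3924 : ¬ A233 := fun h => c88 q3923 h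
                        have q3925 : A232 := Classical.byContradiction fun h => c89 q3923 h q3911
                        have q3926 : A3 := Classical.byContradiction fun h => c3 q1 h q3925
                        have q3927 : A234 := Classical.byContradiction fun h => c2 q3215 q3926 h
                        exact c94 q3925 q3927
                      · have q3928 : A136 := Classical.byContradiction fun h => c8 h q3922 q3918
                        have q3929 : ¬ A233 := fun h => c105 h q3483 q3922
                        have q3930 : A43 := Classical.byContradiction fun h => c107 q3915 q3929 h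
                        have q3931 : ¬ A163 := fun h => c91 q3930 h
                        have q3932 : A232 := Classical.byContradiction fun h => c114 q3918 q3929 h
                        have q3933 : A3 := Classical.byContradiction fun h => c3 q1 h q3932
                        have q3934 : A234 := Classical.byContradiction fun h => c2 q3215 q3933 h
                        exact c94 q3932 q3934
    · have q3935 : ¬ A235 := fun h => c165 h q2434 q2433
      have q3936 : ¬ A236 := fun h => c167 h q2434 q2
      have q3937 : ¬ A101 := fun h => c226 h q2 q2434
      rcases Classical.em A86 with q3938 | q3938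
      · have q3939 : ¬ A1 := fun h => c72 q3938 h
        have q3940 : A14 := Classical.byContradiction fun h => c73 q3938 q2 h
        have q3941 : ¬ A122 := fun h => c86 h q3940
        rcases Classical.em A8 with q3942 | q3942
        · have q3943 : ¬ A71 := fun h => c79 h q3942
          have q3944 : A220 := Classical.byContradiction fun h => c150 q3942 h q2434
          have q3945 : ¬ A78 := fun h => c159 q3944 h
          rcases Classical.em A46 with q3946 | q3946
          · have q3947 : ¬ A76 := fun h => c133 h q3946
            have q3948 : ¬ A47 := fun h => c21 q3947 h q3945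
            have q3949 : A130 := Classical.byContradiction fun h => c154 q3946 h q3948
            have q3950 : ¬ A23 := fun h => c157 q3949 h
            have q3951 : ¬ A242 := fun h => c199 h q3950 q2433
            have q3952 : ¬ A81 := fun h => c24 q3951 h q3950
            have q3953 : A79 := Classical.byContradiction fun h => c23 h q3952 q3949
            have q3954 : ¬ A21 := fun h => c100 q3953 h
            have q3955 : A109 := Classical.byContradiction fun h => c175 q3953 h q3952
            have q3956 : A22 := Classical.byContradiction fun h => c182 q2432 q3952 h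
            have q3957 : ¬ A98 := fun h => c205 h q2433 q3952
            have q3958 : ¬ A118 := fun h => c214 h q3943 q3954
            have q3959 : ¬ A95 := fun h => c36 q3958 h q2433
            have q3960 : A89 := Classical.byContradiction fun h => c232 q3955 h q2
            rcases Classical.em A69 with q3961 | q3961
            · have q3962 : ¬ A48 := fun h => c135 q3961 h
              rcases Classical.em A131 with q3963 | q3963
              · have q3964 : A132 := Classical.byContradiction fun h => c71 h q3963 q3957
                have q3965 : ¬ A73 := fun h => c99 h q3963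
                rcases Classical.em A38 with q3966 | q3966
                · have q3967 : ¬ A26 := fun h => c113 q3966 h
                  rcases Classical.em A137 with q3968 | q3968
                  · have q3969 : A231 := Classical.byContradiction fun h => c7 h q3968 q3967
                    have q3970 : ¬ A233 := fun h => c88 q3969 h
                    have q3971 : A232 := Classical.byContradiction fun h => c89 q3969 h q3967
                    have q3972 : A3 := Classical.byContradiction fun h => c3 q1 h q3971
                    have q3973 : ¬ A31 := fun h => c90 h q3968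
                    have q3974 : ¬ A234 := fun h => c94 q3971 h
                    have q3975 : A121 := Classical.byContradiction fun h => c173 u0 h q3974
                    have q3976 : A241 := Classical.byContradiction fun h => c0 h q3975 q2433
                    rcases Classical.em A17 with q3977 | q3977
                    · have q3978 : ¬ A32 := fun h => c106 h q3977
                      rcases Classical.em A20 with q3979 | q3979
                      · have q3980 : ¬ A60 := fun h => c132 h q3979
                        have q3981 : ¬ A55 := fun h => c162 h q3948 q3980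
                        have q3982 : ¬ A62 := fun h => c171 h q3962 q3980
                        have q3983 : A229 := Classical.byContradiction fun h => c211 q3946 h q3981
                        have q3984 : ¬ A85 := fun h => c213 h q3983
                        have q3985 : ¬ A228 := fun h => c68 q3984 h q3950
                        exact c294 q3956 q3984 q3985
                      · have q3986 : ¬ A41 := fun h => c192 h q3979 q3978
                        have q3987 : ¬ A63 := fun h => c13 q3986 h q3978
                        have q3988 : A51 := Classical.byContradiction fun h => c12 h q3987 q3977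
                        exact c184 q3988 q3987 q3962
                    · have q3989 : ¬ A159 := fun h => c186 h q3977 q3941
                      have q3990 : ¬ A36 := fun h => c5 q3989 h q3941
                      have q3991 : A25 := Classical.byContradiction fun h => c4 h q3990 q3940
                      exact c178 q3991 q3990 q3967
                  · have q3992 : A136 := Classical.byContradiction fun h => c8 h q3968 q3966
                    exact c117 q3992 q3968 q3941
                · have q3993 : ¬ A4 := fun h => c104 h q3966 q2434
                  have q3994 : ¬ A44 := fun h => c110 h q3966 q3962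
                  have q3995 : ¬ A196 := fun h => c15 q3994 h q3962
                  have q3996 : A27 := Classical.byContradiction fun h => c16 h q3995 q3961
                  have q3997 : ¬ A51 := fun h => c121 h q3996
                  have q3998 : ¬ A7 := fun h => c137 h q3995 q3993
                  have q3999 : A32 := Classical.byContradiction fun h => c141 q3996 q3995 h
                  have q4000 : ¬ A17 := fun h => c106 q3999 h
                  have q4001 : ¬ A5 := fun h => c115 h q4000 q3993
                  have q4002 : ¬ A203 := fun h => c147 h q3995 q3966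
                  have q4003 : ¬ A188 := fun h => c140 h q4002 q3936
                  have q4004 : ¬ A77 := fun h => c142 h q4002 q3945
                  have q4005 : ¬ A159 := fun h => c186 h q4000 q3941
                  have q4006 : ¬ A36 := fun h => c5 q4005 h q3941
                  have q4007 : A25 := Classical.byContradiction fun h => c4 h q4006 q3940
                  have q4008 : A24 := Classical.byContradiction fun h => c102 q4007 q1 h
                  have q4009 : ¬ A15 := fun h => c98 q4008 h
                  have q4010 : A26 := Classical.byContradiction fun h => c178 q4007 q4006 h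
                  have q4011 : A62 := Classical.byContradiction fun h => c168 q4010 h q3995
                  have q4012 : A58 := Classical.byContradiction fun h => c170 q4011 q2434 h
                  have q4013 : A50 := Classical.byContradiction fun h => c78 q4012 q2 h
                  have q4014 : A60 := Classical.byContradiction fun h => c171 q4011 q3962 h
                  have q4015 : ¬ A20 := fun h => c132 q4014 h
                  have q4016 : ¬ A13 := fun h => c181 h q4006 q4000
                  have q4017 : A57 := Classical.byContradiction fun h => c179 q4013 q4016 h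
                  have q4018 : ¬ A80 := fun h => c180 h q4016 q3957
                  have q4019 : ¬ A96 := fun h => c81 h q2 q4018
                  have q4020 : ¬ A42 := fun h => c77 h q4019 q3948
                  have q4021 : ¬ A237 := fun h => c172 h q3936 q4018
                  have q4022 : ¬ A83 := fun h => c146 h q4002 q4021
                  have q4023 : ¬ A204 := fun h => c61 q4022 h q4002
                  have q4024 : A205 := Classical.byContradiction fun h => c60 h q4023 q4011
                  have q4025 : ¬ A19 := fun h => c190 h q4003 q4016
                  have q4026 : ¬ A84 := fun h => c193 h q4015 q3957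
                  have q4027 : A30 := Classical.byContradiction fun h => c203 q3999 h q3966
                  have q4028 : ¬ A117 := fun h => c222 h q4020 q3959
                  have q4029 : ¬ A100 := fun h => c225 h q2 q4001
                  have q4030 : ¬ A110 := fun h => c32 q4029 h q3937
                  have q4031 : A104 := Classical.byContradiction fun h => c31 h q4030 q3960
                  have q4032 : A105 := Classical.byContradiction fun h => c227 q4031 h q4030
                  have q4033 : ¬ A92 := fun h => c219 q4032 h
                  have q4034 : ¬ A111 := fun h => c228 h q4020 q3998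
                  have q4035 : ¬ A114 := fun h => c220 h q4034 q4033
                  have q4036 : ¬ A107 := fun h => c33 q4035 h q4034
                  have q4037 : ¬ A108 := fun h => c218 h q4036 q4028
                  have q4038 : ¬ A115 := fun h => c221 h q4035 q4036
                  have q4039 : ¬ A94 := fun h => c224 h q4033 q4037
                  have q4040 : A93 := Classical.byContradiction fun h => c230 q4012 h q4020
                  have q4041 : A106 := Classical.byContradiction fun h => c223 q4040 q4033 h
                  have q4042 : A116 := Classical.byContradiction fun h => c217 q4041 q4036 h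
                  have q4043 : ¬ A119 := fun h => c231 h q4019 q3998
                  have q4044 : ¬ A113 := fun h => c35 q4043 h q4038
                  have q4045 : A112 := Classical.byContradiction fun h => c34 h q4044 q4042
                  exact c229 q4045 q4044 q4039
              · have q4046 : ¬ A217 := fun h => c299 h q3963 q3945
                have q4047 : A210 := Classical.byContradiction fun h => c305 q3944 h q3963
                rcases Classical.em A38 with q4048 | q4048
                · have q4049 : ¬ A26 := fun h => c113 q4048 h
                  rcases Classical.em A137 with q4050 | q4050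
                  · have q4051 : A231 := Classical.byContradiction fun h => c7 h q4050 q4049
                    have q4052 : ¬ A233 := fun h => c88 q4051 h
                    have q4053 : A232 := Classical.byContradiction fun h => c89 q4051 h q4049
                    have q4054 : A3 := Classical.byContradiction fun h => c3 q1 h q4053
                    have q4055 : ¬ A31 := fun h => c90 h q4050
                    have q4056 : ¬ A234 := fun h => c94 q4053 h
                    have q4057 : A121 := Classical.byContradiction fun h => c173 u0 h q4056
                    have q4058 : A241 := Classical.byContradiction fun h => c0 h q4057 q2433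
                    rcases Classical.em A17 with q4059 | q4059
                    · have q4060 : ¬ A32 := fun h => c106 h q4059
                      rcases Classical.em A20 with q4061 | q4061
                      · have q4062 : ¬ A60 := fun h => c132 h q4061
                        have q4063 : ¬ A55 := fun h => c162 h q3948 q4062
                        have q4064 : ¬ A62 := fun h => c171 h q3962 q4062
                        have q4065 : A229 := Classical.byContradiction fun h => c211 q3946 h q4063
                        have q4066 : ¬ A85 := fun h => c213 h q4065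
                        have q4067 : ¬ A228 := fun h => c68 q4066 h q3950
                        exact c294 q3956 q4066 q4067
                      · have q4068 : ¬ A41 := fun h => c192 h q4061 q4060
                        have q4069 : ¬ A63 := fun h => c13 q4068 h q4060
                        have q4070 : A51 := Classical.byContradiction fun h => c12 h q4069 q4059
                        exact c184 q4070 q4069 q3962
                    · have q4071 : ¬ A159 := fun h => c186 h q4059 q3941
                      have q4072 : ¬ A36 := fun h => c5 q4071 h q3941
                      have q4073 : A25 := Classical.byContradiction fun h => c4 h q4072 q3940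
                      exact c178 q4073 q4072 q4049
                  · have q4074 : A136 := Classical.byContradiction fun h => c8 h q4050 q4048
                    exact c117 q4074 q4050 q3941
                · have q4075 : ¬ A4 := fun h => c104 h q4048 q2434
                  have q4076 : ¬ A44 := fun h => c110 h q4048 q3962
                  have q4077 : ¬ A196 := fun h => c15 q4076 h q3962
                  have q4078 : A27 := Classical.byContradiction fun h => c16 h q4077 q3961
                  have q4079 : ¬ A51 := fun h => c121 h q4078
                  have q4080 : ¬ A7 := fun h => c137 h q4077 q4075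
                  have q4081 : A32 := Classical.byContradiction fun h => c141 q4078 q4077 h
                  have q4082 : ¬ A17 := fun h => c106 q4081 h
                  have q4083 : ¬ A5 := fun h => c115 h q4082 q4075
                  have q4084 : ¬ A203 := fun h => c147 h q4077 q4048
                  have q4085 : ¬ A188 := fun h => c140 h q4084 q3936
                  have q4086 : ¬ A77 := fun h => c142 h q4084 q3945
                  have q4087 : ¬ A18 := fun h => c139 h q4086 q3963
                  have q4088 : ¬ A159 := fun h => c186 h q4082 q3941
                  have q4089 : ¬ A36 := fun h => c5 q4088 h q3941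
                  have q4090 : A25 := Classical.byContradiction fun h => c4 h q4089 q3940
                  have q4091 : A24 := Classical.byContradiction fun h => c102 q4090 q1 h
                  have q4092 : ¬ A15 := fun h => c98 q4091 h
                  have q4093 : A26 := Classical.byContradiction fun h => c178 q4090 q4089 h
                  have q4094 : A62 := Classical.byContradiction fun h => c168 q4093 h q4077
                  have q4095 : A58 := Classical.byContradiction fun h => c170 q4094 q2434 h
                  have q4096 : A50 := Classical.byContradiction fun h => c78 q4095 q2 h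
                  have q4097 : A60 := Classical.byContradiction fun h => c171 q4094 q3962 h
                  have q4098 : ¬ A20 := fun h => c132 q4097 h
                  have q4099 : ¬ A13 := fun h => c181 h q4089 q4082
                  have q4100 : A57 := Classical.byContradiction fun h => c179 q4096 q4099 h
                  have q4101 : ¬ A80 := fun h => c180 h q4099 q3957
                  have q4102 : ¬ A96 := fun h => c81 h q2 q4101
                  have q4103 : ¬ A42 := fun h => c77 h q4102 q3948
                  have q4104 : ¬ A237 := fun h => c172 h q3936 q4101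
                  have q4105 : ¬ A83 := fun h => c146 h q4084 q4104
                  have q4106 : ¬ A204 := fun h => c61 q4105 h q4084
                  have q4107 : A205 := Classical.byContradiction fun h => c60 h q4106 q4094
                  have q4108 : ¬ A19 := fun h => c190 h q4085 q4099
                  have q4109 : ¬ A84 := fun h => c193 h q4098 q3957
                  have q4110 : A30 := Classical.byContradiction fun h => c203 q4081 h q4048
                  have q4111 : ¬ A117 := fun h => c222 h q4103 q3959
                  have q4112 : ¬ A100 := fun h => c225 h q2 q4083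
                  have q4113 : ¬ A110 := fun h => c32 q4112 h q3937
                  have q4114 : A104 := Classical.byContradiction fun h => c31 h q4113 q3960
                  have q4115 : A105 := Classical.byContradiction fun h => c227 q4114 h q4113
                  have q4116 : ¬ A92 := fun h => c219 q4115 h
                  have q4117 : ¬ A111 := fun h => c228 h q4103 q4080
                  have q4118 : ¬ A114 := fun h => c220 h q4117 q4116
                  have q4119 : ¬ A107 := fun h => c33 q4118 h q4117
                  have q4120 : ¬ A108 := fun h => c218 h q4119 q4111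
                  have q4121 : ¬ A115 := fun h => c221 h q4118 q4119
                  have q4122 : ¬ A94 := fun h => c224 h q4116 q4120
                  have q4123 : A93 := Classical.byContradiction fun h => c230 q4095 h q4103
                  have q4124 : A106 := Classical.byContradiction fun h => c223 q4123 q4116 h
                  have q4125 : A116 := Classical.byContradiction fun h => c217 q4124 q4119 h
                  have q4126 : ¬ A119 := fun h => c231 h q4102 q4080
                  have q4127 : ¬ A113 := fun h => c35 q4126 h q4121
                  have q4128 : A112 := Classical.byContradiction fun h => c34 h q4127 q4125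
                  exact c229 q4128 q4127 q4122
            · have q4129 : ¬ A124 := fun h => c128 h q3961 q3935
              have q4130 : ¬ A167 := fun h => c129 h q3961 q3936
              have q4131 : ¬ A166 := fun h => c260 h q4129 q3948
              have q4132 : ¬ A180 := fun h => c266 h q3961 q3948
              have q4133 : ¬ A179 := fun h => c52 q4131 h q4132
              rcases Classical.em A131 with q4134 | q4134
              · have q4135 : A132 := Classical.byContradiction fun h => c71 h q4134 q3957
                have q4136 : ¬ A73 := fun h => c99 h q4134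
                rcases Classical.em A17 with q4137 | q4137
                · have q4138 : ¬ A32 := fun h => c106 h q4137
                  rcases Classical.em A137 with q4139 | q4139
                  · have q4140 : ¬ A31 := fun h => c90 h q4139
                    rcases Classical.em A20 with q4141 | q4141
                    · have q4142 : ¬ A60 := fun h => c132 h q4141
                      have q4143 : ¬ A55 := fun h => c162 h q3948 q4142
                      have q4144 : A229 := Classical.byContradiction fun h => c211 q3946 h q4143
                      have q4145 : ¬ A85 := fun h => c213 h q4144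
                      have q4146 : ¬ A228 := fun h => c68 q4145 h q3950
                      exact c294 q3956 q4145 q4146
                    · have q4147 : ¬ A41 := fun h => c192 h q4141 q4138
                      have q4148 : ¬ A63 := fun h => c13 q4147 h q4138
                      have q4149 : A51 := Classical.byContradiction fun h => c12 h q4148 q4137
                      have q4150 : ¬ A27 := fun h => c121 q4149 h
                      have q4151 : A48 := Classical.byContradiction fun h => c184 q4149 q4148 h
                      have q4152 : ¬ A84 := fun h => c193 h q4141 q3957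
                      have q4153 : ¬ A82 := fun h => c185 h q4148 q4152
                      have q4154 : ¬ A123 := fun h => c112 h q4138 q4153
                      have q4155 : ¬ A44 := fun h => c109 h q4154 q3948
                      have q4156 : ¬ A45 := fun h => c119 h q4153 q3948
                      have q4157 : ¬ A43 := fun h => c92 h q4140 q4156
                      have q4158 : ¬ A52 := fun h => c210 h q4150 q4155
                      have q4159 : ¬ A172 := fun h => c48 q4158 h q4141
                      have q4160 : ¬ A176 := fun h => c253 h q4159 q4157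
                      have q4161 : ¬ A126 := fun h => c261 h q4130 q4157
                      have q4162 : ¬ A168 := fun h => c262 h q4130 q4156
                      have q4163 : A182 := Classical.byContradiction fun h => c264 q4151 q3948 h
                      have q4164 : A178 := Classical.byContradiction fun h => c51 h q4133 q4163
                      have q4165 : ¬ A161 := fun h => c259 h q4164
                      have q4166 : ¬ A160 := fun h => c258 h q4165 q4133
                      have q4167 : ¬ A162 := fun h => c249 h q4166 q4161
                      have q4168 : ¬ A170 := fun h => c45 q4167 h q4161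
                      have q4169 : ¬ A169 := fun h => c251 h q4168 q4167
                      have q4170 : ¬ A177 := fun h => c47 q4162 h q4169
                      have q4171 : ¬ A175 := fun h => c252 h q4160 q4168
                      have q4172 : ¬ A174 := fun h => c254 h q4171 q4166
                      have q4173 : ¬ A173 := fun h => c263 h q4172 q4170
                      have q4174 : ¬ A165 := fun h => c46 q4173 q4170 h
                      have q4175 : ¬ A164 := fun h => c250 h q4174 q4168
                      have q4176 : ¬ A125 := fun h => c257 h q4161 q4175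
                      exact c265 q4164 q4133 q4176
                  · have q4177 : ¬ A233 := fun h => c105 h q4138 q4139
                    have q4178 : ¬ A136 := fun h => c117 h q4139 q3941
                    have q4179 : ¬ A38 := fun h => c8 q4178 q4139 h
                    have q4180 : ¬ A31 := fun h => c6 q4177 h q4179
                    have q4181 : ¬ A4 := fun h => c104 h q4179 q2434
                    have q4182 : A231 := Classical.byContradiction fun h => c118 q4137 q4139 h
                    rcases Classical.em A196 with q4183 | q4183
                    · have q4184 : ¬ A59 := fun h => c111 h q4183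
                      rcases Classical.em A20 with q4185 | q4185
                      · have q4186 : ¬ A60 := fun h => c132 h q4185
                        have q4187 : ¬ A55 := fun h => c162 h q3948 q4186
                        have q4188 : A229 := Classical.byContradiction fun h => c211 q3946 h q4187
                        have q4189 : ¬ A85 := fun h => c213 h q4188
                        have q4190 : ¬ A228 := fun h => c68 q4189 h q3950
                        exact c294 q3956 q4189 q4190
                      · have q4191 : ¬ A44 := fun h => c108 h q4184 q4185
                        have q4192 : A48 := Classical.byContradiction fun h => c15 q4191 q4183 h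
                        have q4193 : A51 := Classical.byContradiction fun h => c17 h q4184 q4192
                        have q4194 : ¬ A27 := fun h => c121 q4193 h
                        have q4195 : ¬ A41 := fun h => c192 h q4185 q4138
                        have q4196 : ¬ A63 := fun h => c13 q4195 h q4138
                        have q4197 : ¬ A84 := fun h => c193 h q4185 q3957
                        have q4198 : ¬ A82 := fun h => c185 h q4196 q4197
                        have q4199 : ¬ A123 := fun h => c112 h q4138 q4198
                        have q4200 : ¬ A45 := fun h => c119 h q4198 q3948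
                        have q4201 : ¬ A43 := fun h => c92 h q4180 q4200
                        have q4202 : ¬ A52 := fun h => c210 h q4194 q4191
                        have q4203 : ¬ A172 := fun h => c48 q4202 h q4185
                        have q4204 : ¬ A176 := fun h => c253 h q4203 q4201
                        have q4205 : ¬ A126 := fun h => c261 h q4130 q4201
                        have q4206 : ¬ A168 := fun h => c262 h q4130 q4200
                        have q4207 : A182 := Classical.byContradiction fun h => c264 q4192 q3948 h
                        have q4208 : A178 := Classical.byContradiction fun h => c51 h q4133 q4207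
                        have q4209 : ¬ A161 := fun h => c259 h q4208
                        have q4210 : ¬ A160 := fun h => c258 h q4209 q4133
                        have q4211 : ¬ A162 := fun h => c249 h q4210 q4205
                        have q4212 : ¬ A170 := fun h => c45 q4211 h q4205
                        have q4213 : ¬ A169 := fun h => c251 h q4212 q4211
                        have q4214 : ¬ A177 := fun h => c47 q4206 h q4213
                        have q4215 : ¬ A175 := fun h => c252 h q4204 q4212
                        have q4216 : ¬ A174 := fun h => c254 h q4215 q4210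
                        have q4217 : ¬ A173 := fun h => c263 h q4216 q4214
                        have q4218 : ¬ A165 := fun h => c46 q4217 q4214 h
                        have q4219 : ¬ A164 := fun h => c250 h q4218 q4212
                        have q4220 : ¬ A125 := fun h => c257 h q4205 q4219
                        exact c265 q4208 q4133 q4220
                    · have q4221 : ¬ A7 := fun h => c137 h q4183 q4181
                      have q4222 : ¬ A27 := fun h => c141 h q4183 q4138
                      have q4223 : ¬ A203 := fun h => c147 h q4183 q4179
                      have q4224 : ¬ A188 := fun h => c140 h q4223 q3936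
                      have q4225 : ¬ A77 := fun h => c142 h q4223 q3945
                      rcases Classical.em A232 with q4226 | q4226
                      · have q4227 : A3 := Classical.byContradiction fun h => c3 q1 h q4226
                        have q4228 : ¬ A234 := fun h => c94 q4226 h
                        have q4229 : A121 := Classical.byContradiction fun h => c173 u0 h q4228
                        have q4230 : A241 := Classical.byContradiction fun h => c0 h q4229 q2433
                        rcases Classical.em A20 with q4231 | q4231
                        · have q4232 : ¬ A60 := fun h => c132 h q4231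
                          have q4233 : ¬ A55 := fun h => c162 h q3948 q4232
                          have q4234 : A229 := Classical.byContradiction fun h => c211 q3946 h q4233
                          have q4235 : ¬ A85 := fun h => c213 h q4234
                          have q4236 : ¬ A228 := fun h => c68 q4235 h q3950
                          exact c294 q3956 q4235 q4236
                        · have q4237 : ¬ A41 := fun h => c192 h q4231 q4138
                          have q4238 : ¬ A63 := fun h => c13 q4237 h q4138
                          have q4239 : A51 := Classical.byContradiction fun h => c12 h q4238 q4137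
                          have q4240 : A48 := Classical.byContradiction fun h => c184 q4239 q4238 h
                          have q4241 : ¬ A84 := fun h => c193 h q4231 q3957
                          have q4242 : ¬ A82 := fun h => c185 h q4238 q4241
                          have q4243 : ¬ A123 := fun h => c112 h q4138 q4242
                          have q4244 : ¬ A44 := fun h => c109 h q4243 q3948
                          have q4245 : ¬ A45 := fun h => c119 h q4242 q3948
                          have q4246 : ¬ A43 := fun h => c92 h q4180 q4245
                          have q4247 : ¬ A52 := fun h => c210 h q4222 q4244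
                          have q4248 : ¬ A172 := fun h => c48 q4247 h q4231
                          have q4249 : ¬ A176 := fun h => c253 h q4248 q4246
                          have q4250 : ¬ A126 := fun h => c261 h q4130 q4246
                          have q4251 : ¬ A168 := fun h => c262 h q4130 q4245
                          have q4252 : A182 := Classical.byContradiction fun h => c264 q4240 q3948 h
                          have q4253 : A178 := Classical.byContradiction fun h => c51 h q4133 q4252
                          have q4254 : ¬ A161 := fun h => c259 h q4253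
                          have q4255 : ¬ A160 := fun h => c258 h q4254 q4133
                          have q4256 : ¬ A162 := fun h => c249 h q4255 q4250
                          have q4257 : ¬ A170 := fun h => c45 q4256 h q4250
                          have q4258 : ¬ A169 := fun h => c251 h q4257 q4256
                          have q4259 : ¬ A177 := fun h => c47 q4251 h q4258
                          have q4260 : ¬ A175 := fun h => c252 h q4249 q4257
                          have q4261 : ¬ A174 := fun h => c254 h q4260 q4255
                          have q4262 : ¬ A173 := fun h => c263 h q4261 q4259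
                          have q4263 : ¬ A165 := fun h => c46 q4262 q4259 h
                          have q4264 : ¬ A164 := fun h => c250 h q4263 q4257
                          have q4265 : ¬ A125 := fun h => c257 h q4250 q4264
                          exact c265 q4253 q4133 q4265
                      · have q4266 : A26 := Classical.byContradiction fun h => c89 q4182 q4226 h
                        have q4267 : A25 := Classical.byContradiction fun h => c9 h q4180 q4266
                        have q4268 : ¬ A72 := fun h => c93 h q4226 q3945
                        have q4269 : A24 := Classical.byContradiction fun h => c102 q4267 q1 h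
                        have q4270 : ¬ A15 := fun h => c98 q4269 h
                        have q4271 : ¬ A75 := fun h => c123 h q4139 q4268
                        have q4272 : ¬ A152 := fun h => c125 h q4139 q4226
                        have q4273 : ¬ A18 := fun h => c138 h q4222 q4270
                        have q4274 : A62 := Classical.byContradiction fun h => c168 q4266 h q4183
                        have q4275 : A58 := Classical.byContradiction fun h => c170 q4274 q2434 h
                        have q4276 : A50 := Classical.byContradiction fun h => c78 q4275 q2 h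
                        rcases Classical.em A20 with q4277 | q4277
                        · have q4278 : ¬ A60 := fun h => c132 h q4277
                          have q4279 : ¬ A55 := fun h => c162 h q3948 q4278
                          have q4280 : A48 := Classical.byContradiction fun h => c171 q4274 h q4278
                          have q4281 : A229 := Classical.byContradiction fun h => c211 q3946 h q4279
                          have q4282 : ¬ A85 := fun h => c213 h q4281
                          have q4283 : ¬ A228 := fun h => c68 q4282 h q3950
                          exact c294 q3956 q4282 q4283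
                        · have q4284 : ¬ A41 := fun h => c192 h q4277 q4138
                          have q4285 : ¬ A63 := fun h => c13 q4284 h q4138
                          have q4286 : A51 := Classical.byContradiction fun h => c12 h q4285 q4137
                          have q4287 : A48 := Classical.byContradiction fun h => c184 q4286 q4285 h
                          have q4288 : ¬ A84 := fun h => c193 h q4277 q3957
                          have q4289 : ¬ A82 := fun h => c185 h q4285 q4288
                          have q4290 : ¬ A123 := fun h => c112 h q4138 q4289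
                          have q4291 : ¬ A44 := fun h => c109 h q4290 q3948
                          have q4292 : ¬ A45 := fun h => c119 h q4289 q3948
                          have q4293 : ¬ A43 := fun h => c92 h q4180 q4292
                          have q4294 : ¬ A52 := fun h => c210 h q4222 q4291
                          have q4295 : ¬ A172 := fun h => c48 q4294 h q4277
                          have q4296 : ¬ A176 := fun h => c253 h q4295 q4293
                          have q4297 : ¬ A126 := fun h => c261 h q4130 q4293
                          have q4298 : ¬ A168 := fun h => c262 h q4130 q4292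
                          have q4299 : A182 := Classical.byContradiction fun h => c264 q4287 q3948 h
                          have q4300 : A178 := Classical.byContradiction fun h => c51 h q4133 q4299
                          have q4301 : ¬ A161 := fun h => c259 h q4300
                          have q4302 : ¬ A160 := fun h => c258 h q4301 q4133
                          have q4303 : ¬ A162 := fun h => c249 h q4302 q4297
                          have q4304 : ¬ A170 := fun h => c45 q4303 h q4297
                          have q4305 : ¬ A169 := fun h => c251 h q4304 q4303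
                          have q4306 : ¬ A177 := fun h => c47 q4298 h q4305
                          have q4307 : ¬ A175 := fun h => c252 h q4296 q4304
                          have q4308 : ¬ A174 := fun h => c254 h q4307 q4302
                          have q4309 : ¬ A173 := fun h => c263 h q4308 q4306
                          have q4310 : ¬ A165 := fun h => c46 q4309 q4306 h
                          have q4311 : ¬ A164 := fun h => c250 h q4310 q4304
                          have q4312 : ¬ A125 := fun h => c257 h q4297 q4311
                          exact c265 q4300 q4133 q4312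
                · have q4313 : ¬ A159 := fun h => c186 h q4137 q3941
                  have q4314 : ¬ A36 := fun h => c5 q4313 h q3941
                  have q4315 : A25 := Classical.byContradiction fun h => c4 h q4314 q3940
                  have q4316 : A24 := Classical.byContradiction fun h => c102 q4315 q1 h
                  have q4317 : ¬ A15 := fun h => c98 q4316 h
                  have q4318 : A26 := Classical.byContradiction fun h => c178 q4315 q4314 h
                  have q4319 : ¬ A38 := fun h => c113 h q4318
                  have q4320 : ¬ A4 := fun h => c104 h q4319 q2434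
                  have q4321 : ¬ A5 := fun h => c115 h q4137 q4320
                  have q4322 : ¬ A13 := fun h => c181 h q4314 q4137
                  have q4323 : ¬ A80 := fun h => c180 h q4322 q3957
                  have q4324 : ¬ A96 := fun h => c81 h q2 q4323
                  have q4325 : ¬ A42 := fun h => c77 h q4324 q3948
                  have q4326 : ¬ A237 := fun h => c172 h q3936 q4323
                  have q4327 : ¬ A117 := fun h => c222 h q4325 q3959
                  have q4328 : ¬ A100 := fun h => c225 h q2 q4321
                  have q4329 : ¬ A110 := fun h => c32 q4328 h q3937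
                  have q4330 : A104 := Classical.byContradiction fun h => c31 h q4329 q3960
                  have q4331 : A105 := Classical.byContradiction fun h => c227 q4330 h q4329
                  have q4332 : ¬ A92 := fun h => c219 q4331 h
                  rcases Classical.em A20 with q4333 | q4333
                  · have q4334 : ¬ A60 := fun h => c132 h q4333
                    have q4335 : ¬ A55 := fun h => c162 h q3948 q4334
                    have q4336 : ¬ A64 := fun h => c187 h q4137 q4334
                    have q4337 : ¬ A28 := fun h => c11 q4336 h q4137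
                    have q4338 : ¬ A27 := fun h => c189 h q3961 q4337
                    have q4339 : ¬ A32 := fun h => c10 q4338 q4337 h
                    have q4340 : ¬ A18 := fun h => c138 h q4338 q4317
                    have q4341 : ¬ A41 := fun h => c191 h q4337 q4319
                    exact c196 q4333 q4341 q4137
                  · have q4342 : ¬ A84 := fun h => c193 h q4333 q3957
                    rcases Classical.em A196 with q4343 | q4343
                    · have q4344 : ¬ A59 := fun h => c111 h q4343
                      have q4345 : ¬ A44 := fun h => c108 h q4344 q4333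
                      have q4346 : A48 := Classical.byContradiction fun h => c15 q4345 q4343 h
                      have q4347 : A51 := Classical.byContradiction fun h => c17 h q4344 q4346
                      exact c122 q4347 q4137 q4344
                    · have q4348 : ¬ A7 := fun h => c137 h q4343 q4320
                      have q4349 : ¬ A203 := fun h => c147 h q4343 q4319
                      have q4350 : ¬ A188 := fun h => c140 h q4349 q3936
                      have q4351 : ¬ A77 := fun h => c142 h q4349 q3945
                      have q4352 : ¬ A83 := fun h => c146 h q4349 q4326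
                      have q4353 : ¬ A204 := fun h => c61 q4352 h q4349
                      have q4354 : A62 := Classical.byContradiction fun h => c168 q4318 h q4343
                      have q4355 : A205 := Classical.byContradiction fun h => c60 h q4353 q4354
                      have q4356 : A58 := Classical.byContradiction fun h => c170 q4354 q2434 h
                      have q4357 : A50 := Classical.byContradiction fun h => c78 q4356 q2 h
                      have q4358 : A57 := Classical.byContradiction fun h => c179 q4357 q4322 h
                      have q4359 : ¬ A19 := fun h => c190 h q4350 q4322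
                      have q4360 : ¬ A111 := fun h => c228 h q4325 q4348
                      have q4361 : ¬ A114 := fun h => c220 h q4360 q4332
                      have q4362 : ¬ A107 := fun h => c33 q4361 h q4360
                      have q4363 : ¬ A108 := fun h => c218 h q4362 q4327
                      have q4364 : ¬ A115 := fun h => c221 h q4361 q4362
                      have q4365 : ¬ A94 := fun h => c224 h q4332 q4363
                      have q4366 : A93 := Classical.byContradiction fun h => c230 q4356 h q4325
                      have q4367 : A106 := Classical.byContradiction fun h => c223 q4366 q4332 h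
                      have q4368 : A116 := Classical.byContradiction fun h => c217 q4367 q4362 h
                      have q4369 : ¬ A119 := fun h => c231 h q4324 q4348
                      have q4370 : ¬ A113 := fun h => c35 q4369 h q4364
                      have q4371 : A112 := Classical.byContradiction fun h => c34 h q4370 q4368
                      exact c229 q4371 q4370 q4365
              · have q4372 : ¬ A217 := fun h => c299 h q4134 q3945
                have q4373 : A210 := Classical.byContradiction fun h => c305 q3944 h q4134
                rcases Classical.em A17 with q4374 | q4374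
                · have q4375 : ¬ A32 := fun h => c106 h q4374
                  rcases Classical.em A137 with q4376 | q4376
                  · have q4377 : ¬ A31 := fun h => c90 h q4376
                    rcases Classical.em A20 with q4378 | q4378
                    · have q4379 : ¬ A60 := fun h => c132 h q4378
                      have q4380 : ¬ A55 := fun h => c162 h q3948 q4379
                      have q4381 : A229 := Classical.byContradiction fun h => c211 q3946 h q4380
                      have q4382 : ¬ A85 := fun h => c213 h q4381
                      have q4383 : ¬ A228 := fun h => c68 q4382 h q3950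
                      exact c294 q3956 q4382 q4383
                    · have q4384 : ¬ A41 := fun h => c192 h q4378 q4375
                      have q4385 : ¬ A63 := fun h => c13 q4384 h q4375
                      have q4386 : A51 := Classical.byContradiction fun h => c12 h q4385 q4374
                      have q4387 : ¬ A27 := fun h => c121 q4386 h
                      have q4388 : A48 := Classical.byContradiction fun h => c184 q4386 q4385 h
                      have q4389 : ¬ A84 := fun h => c193 h q4378 q3957
                      have q4390 : ¬ A82 := fun h => c185 h q4385 q4389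
                      have q4391 : ¬ A123 := fun h => c112 h q4375 q4390
                      have q4392 : ¬ A44 := fun h => c109 h q4391 q3948
                      have q4393 : ¬ A45 := fun h => c119 h q4390 q3948
                      have q4394 : ¬ A43 := fun h => c92 h q4377 q4393
                      have q4395 : ¬ A52 := fun h => c210 h q4387 q4392
                      have q4396 : ¬ A172 := fun h => c48 q4395 h q4378
                      have q4397 : ¬ A176 := fun h => c253 h q4396 q4394
                      have q4398 : ¬ A126 := fun h => c261 h q4130 q4394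
                      have q4399 : ¬ A168 := fun h => c262 h q4130 q4393
                      have q4400 : A182 := Classical.byContradiction fun h => c264 q4388 q3948 h
                      have q4401 : A178 := Classical.byContradiction fun h => c51 h q4133 q4400
                      have q4402 : ¬ A161 := fun h => c259 h q4401
                      have q4403 : ¬ A160 := fun h => c258 h q4402 q4133
                      have q4404 : ¬ A162 := fun h => c249 h q4403 q4398
                      have q4405 : ¬ A170 := fun h => c45 q4404 h q4398
                      have q4406 : ¬ A169 := fun h => c251 h q4405 q4404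
                      have q4407 : ¬ A177 := fun h => c47 q4399 h q4406
                      have q4408 : ¬ A175 := fun h => c252 h q4397 q4405
                      have q4409 : ¬ A174 := fun h => c254 h q4408 q4403
                      have q4410 : ¬ A173 := fun h => c263 h q4409 q4407
                      have q4411 : ¬ A165 := fun h => c46 q4410 q4407 h
                      have q4412 : ¬ A164 := fun h => c250 h q4411 q4405
                      have q4413 : ¬ A125 := fun h => c257 h q4398 q4412
                      exact c265 q4401 q4133 q4413
                  · have q4414 : ¬ A233 := fun h => c105 h q4375 q4376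
                    have q4415 : ¬ A136 := fun h => c117 h q4376 q3941
                    have q4416 : ¬ A38 := fun h => c8 q4415 q4376 h
                    have q4417 : ¬ A31 := fun h => c6 q4414 h q4416
                    have q4418 : ¬ A4 := fun h => c104 h q4416 q2434
                    have q4419 : A231 := Classical.byContradiction fun h => c118 q4374 q4376 h
                    rcases Classical.em A196 with q4420 | q4420
                    · have q4421 : ¬ A59 := fun h => c111 h q4420
                      rcases Classical.em A20 with q4422 | q4422
                      · have q4423 : ¬ A60 := fun h => c132 h q4422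
                        have q4424 : ¬ A55 := fun h => c162 h q3948 q4423
                        have q4425 : A229 := Classical.byContradiction fun h => c211 q3946 h q4424
                        have q4426 : ¬ A85 := fun h => c213 h q4425
                        have q4427 : ¬ A228 := fun h => c68 q4426 h q3950
                        exact c294 q3956 q4426 q4427
                      · have q4428 : ¬ A44 := fun h => c108 h q4421 q4422
                        have q4429 : A48 := Classical.byContradiction fun h => c15 q4428 q4420 h
                        have q4430 : A51 := Classical.byContradiction fun h => c17 h q4421 q4429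
                        have q4431 : ¬ A27 := fun h => c121 q4430 h
                        have q4432 : ¬ A41 := fun h => c192 h q4422 q4375
                        have q4433 : ¬ A63 := fun h => c13 q4432 h q4375
                        have q4434 : ¬ A84 := fun h => c193 h q4422 q3957
                        have q4435 : ¬ A82 := fun h => c185 h q4433 q4434
                        have q4436 : ¬ A123 := fun h => c112 h q4375 q4435
                        have q4437 : ¬ A45 := fun h => c119 h q4435 q3948
                        have q4438 : ¬ A43 := fun h => c92 h q4417 q4437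
                        have q4439 : ¬ A52 := fun h => c210 h q4431 q4428
                        have q4440 : ¬ A172 := fun h => c48 q4439 h q4422
                        have q4441 : ¬ A176 := fun h => c253 h q4440 q4438
                        have q4442 : ¬ A126 := fun h => c261 h q4130 q4438
                        have q4443 : ¬ A168 := fun h => c262 h q4130 q4437
                        have q4444 : A182 := Classical.byContradiction fun h => c264 q4429 q3948 h
                        have q4445 : A178 := Classical.byContradiction fun h => c51 h q4133 q4444
                        have q4446 : ¬ A161 := fun h => c259 h q4445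
                        have q4447 : ¬ A160 := fun h => c258 h q4446 q4133
                        have q4448 : ¬ A162 := fun h => c249 h q4447 q4442
                        have q4449 : ¬ A170 := fun h => c45 q4448 h q4442
                        have q4450 : ¬ A169 := fun h => c251 h q4449 q4448
                        have q4451 : ¬ A177 := fun h => c47 q4443 h q4450
                        have q4452 : ¬ A175 := fun h => c252 h q4441 q4449
                        have q4453 : ¬ A174 := fun h => c254 h q4452 q4447
                        have q4454 : ¬ A173 := fun h => c263 h q4453 q4451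
                        have q4455 : ¬ A165 := fun h => c46 q4454 q4451 h
                        have q4456 : ¬ A164 := fun h => c250 h q4455 q4449
                        have q4457 : ¬ A125 := fun h => c257 h q4442 q4456
                        exact c265 q4445 q4133 q4457
                    · have q4458 : ¬ A7 := fun h => c137 h q4420 q4418
                      have q4459 : ¬ A27 := fun h => c141 h q4420 q4375
                      have q4460 : ¬ A203 := fun h => c147 h q4420 q4416
                      have q4461 : ¬ A188 := fun h => c140 h q4460 q3936
                      have q4462 : ¬ A77 := fun h => c142 h q4460 q3945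
                      have q4463 : ¬ A18 := fun h => c139 h q4462 q4134
                      rcases Classical.em A232 with q4464 | q4464
                      · have q4465 : A3 := Classical.byContradiction fun h => c3 q1 h q4464
                        have q4466 : ¬ A234 := fun h => c94 q4464 h
                        have q4467 : A121 := Classical.byContradiction fun h => c173 u0 h q4466
                        have q4468 : A241 := Classical.byContradiction fun h => c0 h q4467 q2433
                        rcases Classical.em A20 with q4469 | q4469
                        · have q4470 : ¬ A60 := fun h => c132 h q4469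
                          have q4471 : ¬ A55 := fun h => c162 h q3948 q4470
                          have q4472 : A229 := Classical.byContradiction fun h => c211 q3946 h q4471
                          have q4473 : ¬ A85 := fun h => c213 h q4472
                          have q4474 : ¬ A228 := fun h => c68 q4473 h q3950
                          exact c294 q3956 q4473 q4474
                        · have q4475 : ¬ A41 := fun h => c192 h q4469 q4375
                          have q4476 : ¬ A63 := fun h => c13 q4475 h q4375
                          have q4477 : A51 := Classical.byContradiction fun h => c12 h q4476 q4374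
                          have q4478 : A48 := Classical.byContradiction fun h => c184 q4477 q4476 h
                          have q4479 : ¬ A84 := fun h => c193 h q4469 q3957
                          have q4480 : ¬ A82 := fun h => c185 h q4476 q4479
                          have q4481 : ¬ A123 := fun h => c112 h q4375 q4480
                          have q4482 : ¬ A44 := fun h => c109 h q4481 q3948
                          have q4483 : ¬ A45 := fun h => c119 h q4480 q3948
                          have q4484 : ¬ A43 := fun h => c92 h q4417 q4483
                          have q4485 : ¬ A52 := fun h => c210 h q4459 q4482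
                          have q4486 : ¬ A172 := fun h => c48 q4485 h q4469
                          have q4487 : ¬ A176 := fun h => c253 h q4486 q4484
                          have q4488 : ¬ A126 := fun h => c261 h q4130 q4484
                          have q4489 : ¬ A168 := fun h => c262 h q4130 q4483
                          have q4490 : A182 := Classical.byContradiction fun h => c264 q4478 q3948 h
                          have q4491 : A178 := Classical.byContradiction fun h => c51 h q4133 q4490
                          have q4492 : ¬ A161 := fun h => c259 h q4491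
                          have q4493 : ¬ A160 := fun h => c258 h q4492 q4133
                          have q4494 : ¬ A162 := fun h => c249 h q4493 q4488
                          have q4495 : ¬ A170 := fun h => c45 q4494 h q4488
                          have q4496 : ¬ A169 := fun h => c251 h q4495 q4494
                          have q4497 : ¬ A177 := fun h => c47 q4489 h q4496
                          have q4498 : ¬ A175 := fun h => c252 h q4487 q4495
                          have q4499 : ¬ A174 := fun h => c254 h q4498 q4493
                          have q4500 : ¬ A173 := fun h => c263 h q4499 q4497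
                          have q4501 : ¬ A165 := fun h => c46 q4500 q4497 h
                          have q4502 : ¬ A164 := fun h => c250 h q4501 q4495
                          have q4503 : ¬ A125 := fun h => c257 h q4488 q4502
                          exact c265 q4491 q4133 q4503
                      · have q4504 : A26 := Classical.byContradiction fun h => c89 q4419 q4464 h
                        have q4505 : A25 := Classical.byContradiction fun h => c9 h q4417 q4504
                        have q4506 : ¬ A72 := fun h => c93 h q4464 q3945
                        have q4507 : A24 := Classical.byContradiction fun h => c102 q4505 q1 h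
                        have q4508 : ¬ A15 := fun h => c98 q4507 h
                        have q4509 : ¬ A75 := fun h => c123 h q4376 q4506
                        have q4510 : ¬ A152 := fun h => c125 h q4376 q4464
                        have q4511 : A62 := Classical.byContradiction fun h => c168 q4504 h q4420
                        have q4512 : A58 := Classical.byContradiction fun h => c170 q4511 q2434 h
                        have q4513 : A50 := Classical.byContradiction fun h => c78 q4512 q2 h
                        rcases Classical.em A20 with q4514 | q4514
                        · have q4515 : ¬ A60 := fun h => c132 h q4514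
                          have q4516 : ¬ A55 := fun h => c162 h q3948 q4515
                          have q4517 : A48 := Classical.byContradiction fun h => c171 q4511 h q4515
                          have q4518 : A229 := Classical.byContradiction fun h => c211 q3946 h q4516
                          have q4519 : ¬ A85 := fun h => c213 h q4518
                          have q4520 : ¬ A228 := fun h => c68 q4519 h q3950
                          exact c294 q3956 q4519 q4520
                        · have q4521 : ¬ A41 := fun h => c192 h q4514 q4375
                          have q4522 : ¬ A63 := fun h => c13 q4521 h q4375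
                          have q4523 : A51 := Classical.byContradiction fun h => c12 h q4522 q4374
                          have q4524 : A48 := Classical.byContradiction fun h => c184 q4523 q4522 h
                          have q4525 : ¬ A84 := fun h => c193 h q4514 q3957
                          have q4526 : ¬ A82 := fun h => c185 h q4522 q4525
                          have q4527 : ¬ A123 := fun h => c112 h q4375 q4526
                          have q4528 : ¬ A44 := fun h => c109 h q4527 q3948
                          have q4529 : ¬ A45 := fun h => c119 h q4526 q3948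
                          have q4530 : ¬ A43 := fun h => c92 h q4417 q4529
                          have q4531 : ¬ A52 := fun h => c210 h q4459 q4528
                          have q4532 : ¬ A172 := fun h => c48 q4531 h q4514
                          have q4533 : ¬ A176 := fun h => c253 h q4532 q4530
                          have q4534 : ¬ A126 := fun h => c261 h q4130 q4530
                          have q4535 : ¬ A168 := fun h => c262 h q4130 q4529
                          have q4536 : A182 := Classical.byContradiction fun h => c264 q4524 q3948 h
                          have q4537 : A178 := Classical.byContradiction fun h => c51 h q4133 q4536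
                          have q4538 : ¬ A161 := fun h => c259 h q4537
                          have q4539 : ¬ A160 := fun h => c258 h q4538 q4133
                          have q4540 : ¬ A162 := fun h => c249 h q4539 q4534
                          have q4541 : ¬ A170 := fun h => c45 q4540 h q4534
                          have q4542 : ¬ A169 := fun h => c251 h q4541 q4540
                          have q4543 : ¬ A177 := fun h => c47 q4535 h q4542
                          have q4544 : ¬ A175 := fun h => c252 h q4533 q4541
                          have q4545 : ¬ A174 := fun h => c254 h q4544 q4539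
                          have q4546 : ¬ A173 := fun h => c263 h q4545 q4543
                          have q4547 : ¬ A165 := fun h => c46 q4546 q4543 h
                          have q4548 : ¬ A164 := fun h => c250 h q4547 q4541
                          have q4549 : ¬ A125 := fun h => c257 h q4534 q4548
                          exact c265 q4537 q4133 q4549
                · have q4550 : ¬ A159 := fun h => c186 h q4374 q3941
                  have q4551 : ¬ A36 := fun h => c5 q4550 h q3941
                  have q4552 : A25 := Classical.byContradiction fun h => c4 h q4551 q3940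
                  have q4553 : A24 := Classical.byContradiction fun h => c102 q4552 q1 h
                  have q4554 : ¬ A15 := fun h => c98 q4553 h
                  have q4555 : A26 := Classical.byContradiction fun h => c178 q4552 q4551 h
                  have q4556 : ¬ A38 := fun h => c113 h q4555
                  have q4557 : ¬ A4 := fun h => c104 h q4556 q2434
                  have q4558 : ¬ A5 := fun h => c115 h q4374 q4557
                  have q4559 : ¬ A13 := fun h => c181 h q4551 q4374
                  have q4560 : ¬ A80 := fun h => c180 h q4559 q3957
                  have q4561 : ¬ A96 := fun h => c81 h q2 q4560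
                  have q4562 : ¬ A42 := fun h => c77 h q4561 q3948
                  have q4563 : ¬ A237 := fun h => c172 h q3936 q4560
                  have q4564 : ¬ A117 := fun h => c222 h q4562 q3959
                  have q4565 : ¬ A100 := fun h => c225 h q2 q4558
                  have q4566 : ¬ A110 := fun h => c32 q4565 h q3937
                  have q4567 : A104 := Classical.byContradiction fun h => c31 h q4566 q3960
                  have q4568 : A105 := Classical.byContradiction fun h => c227 q4567 h q4566
                  have q4569 : ¬ A92 := fun h => c219 q4568 h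
                  rcases Classical.em A20 with q4570 | q4570
                  · have q4571 : ¬ A60 := fun h => c132 h q4570
                    have q4572 : ¬ A55 := fun h => c162 h q3948 q4571
                    have q4573 : ¬ A64 := fun h => c187 h q4374 q4571
                    have q4574 : ¬ A28 := fun h => c11 q4573 h q4374
                    have q4575 : ¬ A27 := fun h => c189 h q3961 q4574
                    have q4576 : ¬ A32 := fun h => c10 q4575 q4574 h
                    have q4577 : ¬ A18 := fun h => c138 h q4575 q4554
                    have q4578 : ¬ A41 := fun h => c191 h q4574 q4556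
                    exact c196 q4570 q4578 q4374
                  · have q4579 : ¬ A84 := fun h => c193 h q4570 q3957
                    rcases Classical.em A196 with q4580 | q4580
                    · have q4581 : ¬ A59 := fun h => c111 h q4580
                      have q4582 : ¬ A44 := fun h => c108 h q4581 q4570
                      have q4583 : A48 := Classical.byContradiction fun h => c15 q4582 q4580 h
                      have q4584 : A51 := Classical.byContradiction fun h => c17 h q4581 q4583
                      exact c122 q4584 q4374 q4581
                    · have q4585 : ¬ A7 := fun h => c137 h q4580 q4557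
                      have q4586 : ¬ A203 := fun h => c147 h q4580 q4556
                      have q4587 : ¬ A188 := fun h => c140 h q4586 q3936
                      have q4588 : ¬ A77 := fun h => c142 h q4586 q3945
                      have q4589 : ¬ A18 := fun h => c139 h q4588 q4134
                      have q4590 : ¬ A83 := fun h => c146 h q4586 q4563
                      have q4591 : ¬ A204 := fun h => c61 q4590 h q4586
                      have q4592 : A62 := Classical.byContradiction fun h => c168 q4555 h q4580
                      have q4593 : A205 := Classical.byContradiction fun h => c60 h q4591 q4592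
                      have q4594 : A58 := Classical.byContradiction fun h => c170 q4592 q2434 h
                      have q4595 : A50 := Classical.byContradiction fun h => c78 q4594 q2 h
                      have q4596 : A57 := Classical.byContradiction fun h => c179 q4595 q4559 h
                      have q4597 : ¬ A19 := fun h => c190 h q4587 q4559
                      have q4598 : ¬ A111 := fun h => c228 h q4562 q4585
                      have q4599 : ¬ A114 := fun h => c220 h q4598 q4569
                      have q4600 : ¬ A107 := fun h => c33 q4599 h q4598
                      have q4601 : ¬ A108 := fun h => c218 h q4600 q4564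
                      have q4602 : ¬ A115 := fun h => c221 h q4599 q4600
                      have q4603 : ¬ A94 := fun h => c224 h q4569 q4601
                      have q4604 : A93 := Classical.byContradiction fun h => c230 q4594 h q4562
                      have q4605 : A106 := Classical.byContradiction fun h => c223 q4604 q4569 h
                      have q4606 : A116 := Classical.byContradiction fun h => c217 q4605 q4600 h
                      have q4607 : ¬ A119 := fun h => c231 h q4561 q4585
                      have q4608 : ¬ A113 := fun h => c35 q4607 h q4602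
                      have q4609 : A112 := Classical.byContradiction fun h => c34 h q4608 q4606
                      exact c229 q4609 q4608 q4603
          · have q4610 : A6 := Classical.byContradiction fun h => c149 q3942 q3946 h
            have q4611 : A163 := Classical.byContradiction fun h => c126 q4610 h q3939
            have q4612 : ¬ A43 := fun h => c91 h q4611
            have q4613 : A69 := Classical.byContradiction fun h => c160 q3944 q3946 h
            have q4614 : ¬ A48 := fun h => c135 q4613 h
            rcases Classical.em A131 with q4615 | q4615
            · have q4616 : A109 := Classical.byContradiction fun h => c25 q3943 q4615 h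
              have q4617 : ¬ A73 := fun h => c99 h q4615
              have q4618 : A89 := Classical.byContradiction fun h => c232 q4616 h q2
              rcases Classical.em A38 with q4619 | q4619
              · have q4620 : ¬ A26 := fun h => c113 q4619 h
                rcases Classical.em A137 with q4621 | q4621
                · have q4622 : A231 := Classical.byContradiction fun h => c7 h q4621 q4620
                  have q4623 : ¬ A233 := fun h => c88 q4622 h
                  have q4624 : A232 := Classical.byContradiction fun h => c89 q4622 h q4620
                  have q4625 : A3 := Classical.byContradiction fun h => c3 q1 h q4624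
                  have q4626 : ¬ A31 := fun h => c90 h q4621
                  have q4627 : ¬ A234 := fun h => c94 q4624 h
                  have q4628 : ¬ A44 := fun h => c107 h q4623 q4612
                  have q4629 : ¬ A196 := fun h => c15 q4628 h q4614
                  have q4630 : A27 := Classical.byContradiction fun h => c16 h q4629 q4613
                  have q4631 : ¬ A51 := fun h => c121 h q4630
                  have q4632 : A32 := Classical.byContradiction fun h => c141 q4630 q4629 h
                  have q4633 : ¬ A17 := fun h => c106 q4632 h
                  have q4634 : A121 := Classical.byContradiction fun h => c173 u0 h q4627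
                  have q4635 : A241 := Classical.byContradiction fun h => c0 h q4634 q2433
                  have q4636 : ¬ A159 := fun h => c186 h q4633 q3941
                  have q4637 : ¬ A36 := fun h => c5 q4636 h q3941
                  have q4638 : A25 := Classical.byContradiction fun h => c4 h q4637 q3940
                  exact c178 q4638 q4637 q4620
                · have q4639 : A136 := Classical.byContradiction fun h => c8 h q4621 q4619
                  exact c117 q4639 q4621 q3941
              · have q4640 : ¬ A4 := fun h => c104 h q4619 q2434
                have q4641 : ¬ A44 := fun h => c110 h q4619 q4614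
                have q4642 : ¬ A196 := fun h => c15 q4641 h q4614
                have q4643 : A27 := Classical.byContradiction fun h => c16 h q4642 q4613
                have q4644 : ¬ A51 := fun h => c121 h q4643
                have q4645 : ¬ A7 := fun h => c137 h q4642 q4640
                have q4646 : A32 := Classical.byContradiction fun h => c141 q4643 q4642 h
                have q4647 : ¬ A17 := fun h => c106 q4646 h
                have q4648 : ¬ A5 := fun h => c115 h q4647 q4640
                have q4649 : ¬ A203 := fun h => c147 h q4642 q4619
                have q4650 : ¬ A188 := fun h => c140 h q4649 q3936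
                have q4651 : ¬ A77 := fun h => c142 h q4649 q3945
                have q4652 : ¬ A159 := fun h => c186 h q4647 q3941
                have q4653 : ¬ A36 := fun h => c5 q4652 h q3941
                have q4654 : A25 := Classical.byContradiction fun h => c4 h q4653 q3940
                have q4655 : A24 := Classical.byContradiction fun h => c102 q4654 q1 h
                have q4656 : ¬ A15 := fun h => c98 q4655 h
                have q4657 : A26 := Classical.byContradiction fun h => c178 q4654 q4653 h
                have q4658 : A62 := Classical.byContradiction fun h => c168 q4657 h q4642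
                have q4659 : A58 := Classical.byContradiction fun h => c170 q4658 q2434 h
                have q4660 : A50 := Classical.byContradiction fun h => c78 q4659 q2 h
                have q4661 : A60 := Classical.byContradiction fun h => c171 q4658 q4614 h
                have q4662 : ¬ A20 := fun h => c132 q4661 h
                have q4663 : ¬ A13 := fun h => c181 h q4653 q4647
                have q4664 : A57 := Classical.byContradiction fun h => c179 q4660 q4663 h
                have q4665 : ¬ A19 := fun h => c190 h q4650 q4663
                have q4666 : A30 := Classical.byContradiction fun h => c203 q4646 h q4619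
                have q4667 : ¬ A100 := fun h => c225 h q2 q4648
                have q4668 : ¬ A110 := fun h => c32 q4667 h q3937
                have q4669 : A104 := Classical.byContradiction fun h => c31 h q4668 q4618
                have q4670 : A105 := Classical.byContradiction fun h => c227 q4669 h q4668
                have q4671 : ¬ A92 := fun h => c219 q4670 h
                have q4672 : ¬ A54 := fun h => c255 h q4665 q3946
                have q4673 : ¬ A127 := fun h => c50 q3946 q4672 h
                rcases Classical.em A83 with q4674 | q4674
                · have q4675 : ¬ A55 := fun h => c143 q4674 h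
                  have q4676 : A56 := Classical.byContradiction fun h => c18 q4675 h q4661
                  have q4677 : A208 := Classical.byContradiction fun h => c19 h q4676 q4662
                  have q4678 : A128 := Classical.byContradiction fun h => c145 q4674 q4662 h
                  have q4679 : A237 := Classical.byContradiction fun h => c146 q4674 q4649 h
                  have q4680 : A80 := Classical.byContradiction fun h => c172 q4679 q3936 h
                  have q4681 : A98 := Classical.byContradiction fun h => c180 q4680 q4663 h
                  have q4682 : A130 := Classical.byContradiction fun h => c194 q4677 q4662 h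
                  have q4683 : ¬ A23 := fun h => c157 q4682 h
                  have q4684 : ¬ A242 := fun h => c199 h q4683 q2433
                  have q4685 : ¬ A81 := fun h => c24 q4684 h q4683
                  exact c205 q4681 q2433 q4685
                · have q4686 : ¬ A204 := fun h => c61 q4674 h q4649
                  have q4687 : A205 := Classical.byContradiction fun h => c60 h q4686 q4658
                  have q4688 : ¬ A229 := fun h => c212 h q3946 q4674
                  have q4689 : ¬ A53 := fun h => c215 h q4674 q3946
                  have q4690 : ¬ A181 := fun h => c49 q4689 h q4673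
                  have q4691 : ¬ A76 := fun h => c256 h q4690 q4665
                  have q4692 : ¬ A47 := fun h => c21 q4691 h q3945
                  have q4693 : A70 := Classical.byContradiction fun h => c287 q4687 q4686 h
                  have q4694 : ¬ A206 := fun h => c280 h q4693
                  rcases Classical.em A130 with q4695 | q4695
                  · have q4696 : ¬ A23 := fun h => c157 q4695 h
                    have q4697 : A128 := Classical.byContradiction fun h => c158 q4695 q3946 h
                    have q4698 : ¬ A242 := fun h => c199 h q4696 q2433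
                    have q4699 : ¬ A81 := fun h => c24 q4698 h q4696
                    have q4700 : A79 := Classical.byContradiction fun h => c23 h q4699 q4695
                    have q4701 : ¬ A21 := fun h => c100 q4700 h
                    have q4702 : A22 := Classical.byContradiction fun h => c182 q2432 q4699 h
                    have q4703 : ¬ A98 := fun h => c205 h q2433 q4699
                    have q4704 : A132 := Classical.byContradiction fun h => c71 h q4615 q4703
                    have q4705 : ¬ A80 := fun h => c180 h q4663 q4703
                    have q4706 : ¬ A96 := fun h => c81 h q2 q4705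
                    have q4707 : ¬ A42 := fun h => c77 h q4706 q4692
                    have q4708 : ¬ A237 := fun h => c172 h q3936 q4705
                    have q4709 : ¬ A84 := fun h => c193 h q4662 q4703
                    have q4710 : ¬ A118 := fun h => c214 h q3943 q4701
                    have q4711 : ¬ A95 := fun h => c36 q4710 h q2433
                    have q4712 : ¬ A117 := fun h => c222 h q4707 q4711
                    have q4713 : ¬ A111 := fun h => c228 h q4707 q4645
                    have q4714 : ¬ A114 := fun h => c220 h q4713 q4671
                    have q4715 : ¬ A107 := fun h => c33 q4714 h q4713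
                    have q4716 : ¬ A108 := fun h => c218 h q4715 q4712
                    have q4717 : ¬ A115 := fun h => c221 h q4714 q4715
                    have q4718 : ¬ A94 := fun h => c224 h q4671 q4716
                    have q4719 : A93 := Classical.byContradiction fun h => c230 q4659 h q4707
                    have q4720 : A106 := Classical.byContradiction fun h => c223 q4719 q4671 h
                    have q4721 : A116 := Classical.byContradiction fun h => c217 q4720 q4715 h
                    have q4722 : ¬ A119 := fun h => c231 h q4706 q4645
                    have q4723 : ¬ A113 := fun h => c35 q4722 h q4717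
                    have q4724 : A112 := Classical.byContradiction fun h => c34 h q4723 q4721
                    exact c229 q4724 q4723 q4718
                  · have q4725 : ¬ A97 := fun h => c69 q4688 h q4695
                    have q4726 : ¬ A208 := fun h => c194 h q4662 q4695
                    have q4727 : ¬ A56 := fun h => c19 q4726 h q4662
                    exact c204 q4664 q4695 q4727
            · have q4728 : ¬ A217 := fun h => c299 h q4615 q3945
              have q4729 : A210 := Classical.byContradiction fun h => c305 q3944 h q4615
              rcases Classical.em A38 with q4730 | q4730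
              · have q4731 : ¬ A26 := fun h => c113 q4730 h
                rcases Classical.em A137 with q4732 | q4732
                · have q4733 : A231 := Classical.byContradiction fun h => c7 h q4732 q4731
                  have q4734 : ¬ A233 := fun h => c88 q4733 h
                  have q4735 : A232 := Classical.byContradiction fun h => c89 q4733 h q4731
                  have q4736 : A3 := Classical.byContradiction fun h => c3 q1 h q4735
                  have q4737 : ¬ A31 := fun h => c90 h q4732
                  have q4738 : ¬ A234 := fun h => c94 q4735 h
                  have q4739 : ¬ A44 := fun h => c107 h q4734 q4612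
                  have q4740 : ¬ A196 := fun h => c15 q4739 h q4614
                  have q4741 : A27 := Classical.byContradiction fun h => c16 h q4740 q4613
                  have q4742 : ¬ A51 := fun h => c121 h q4741
                  have q4743 : A32 := Classical.byContradiction fun h => c141 q4741 q4740 h
                  have q4744 : ¬ A17 := fun h => c106 q4743 h
                  have q4745 : A121 := Classical.byContradiction fun h => c173 u0 h q4738
                  have q4746 : A241 := Classical.byContradiction fun h => c0 h q4745 q2433
                  have q4747 : ¬ A159 := fun h => c186 h q4744 q3941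
                  have q4748 : ¬ A36 := fun h => c5 q4747 h q3941
                  have q4749 : A25 := Classical.byContradiction fun h => c4 h q4748 q3940
                  exact c178 q4749 q4748 q4731
                · have q4750 : A136 := Classical.byContradiction fun h => c8 h q4732 q4730
                  exact c117 q4750 q4732 q3941
              · have q4751 : ¬ A4 := fun h => c104 h q4730 q2434
                have q4752 : ¬ A44 := fun h => c110 h q4730 q4614
                have q4753 : ¬ A196 := fun h => c15 q4752 h q4614
                have q4754 : A27 := Classical.byContradiction fun h => c16 h q4753 q4613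
                have q4755 : ¬ A51 := fun h => c121 h q4754
                have q4756 : ¬ A7 := fun h => c137 h q4753 q4751
                have q4757 : A32 := Classical.byContradiction fun h => c141 q4754 q4753 h
                have q4758 : ¬ A17 := fun h => c106 q4757 h
                have q4759 : ¬ A5 := fun h => c115 h q4758 q4751
                have q4760 : ¬ A203 := fun h => c147 h q4753 q4730
                have q4761 : ¬ A188 := fun h => c140 h q4760 q3936
                have q4762 : ¬ A77 := fun h => c142 h q4760 q3945
                have q4763 : ¬ A18 := fun h => c139 h q4762 q4615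
                have q4764 : ¬ A159 := fun h => c186 h q4758 q3941
                have q4765 : ¬ A36 := fun h => c5 q4764 h q3941
                have q4766 : A25 := Classical.byContradiction fun h => c4 h q4765 q3940
                have q4767 : A24 := Classical.byContradiction fun h => c102 q4766 q1 h
                have q4768 : ¬ A15 := fun h => c98 q4767 h
                have q4769 : A26 := Classical.byContradiction fun h => c178 q4766 q4765 h
                have q4770 : A62 := Classical.byContradiction fun h => c168 q4769 h q4753
                have q4771 : A58 := Classical.byContradiction fun h => c170 q4770 q2434 h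
                have q4772 : A50 := Classical.byContradiction fun h => c78 q4771 q2 h
                have q4773 : A60 := Classical.byContradiction fun h => c171 q4770 q4614 h
                have q4774 : ¬ A20 := fun h => c132 q4773 h
                have q4775 : ¬ A13 := fun h => c181 h q4765 q4758
                have q4776 : A57 := Classical.byContradiction fun h => c179 q4772 q4775 h
                have q4777 : ¬ A19 := fun h => c190 h q4761 q4775
                have q4778 : A30 := Classical.byContradiction fun h => c203 q4757 h q4730
                have q4779 : ¬ A100 := fun h => c225 h q2 q4759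
                have q4780 : ¬ A110 := fun h => c32 q4779 h q3937
                have q4781 : ¬ A54 := fun h => c255 h q4777 q3946
                have q4782 : ¬ A127 := fun h => c50 q3946 q4781 h
                rcases Classical.em A83 with q4783 | q4783
                · have q4784 : ¬ A55 := fun h => c143 q4783 h
                  have q4785 : A56 := Classical.byContradiction fun h => c18 q4784 h q4773
                  have q4786 : A208 := Classical.byContradiction fun h => c19 h q4785 q4774
                  have q4787 : A79 := Classical.byContradiction fun h => c144 q4783 q4763 h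
                  have q4788 : ¬ A21 := fun h => c100 q4787 h
                  have q4789 : A128 := Classical.byContradiction fun h => c145 q4783 q4774 h
                  have q4790 : A237 := Classical.byContradiction fun h => c146 q4783 q4760 h
                  have q4791 : A80 := Classical.byContradiction fun h => c172 q4790 q3936 h
                  have q4792 : A98 := Classical.byContradiction fun h => c180 q4791 q4775 h
                  have q4793 : A130 := Classical.byContradiction fun h => c194 q4786 q4774 h
                  have q4794 : ¬ A23 := fun h => c157 q4793 h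
                  have q4795 : ¬ A242 := fun h => c199 h q4794 q2433
                  have q4796 : ¬ A81 := fun h => c24 q4795 h q4794
                  exact c205 q4792 q2433 q4796
                · have q4797 : ¬ A204 := fun h => c61 q4783 h q4760
                  have q4798 : A205 := Classical.byContradiction fun h => c60 h q4797 q4770
                  have q4799 : ¬ A229 := fun h => c212 h q3946 q4783
                  have q4800 : ¬ A53 := fun h => c215 h q4783 q3946
                  have q4801 : ¬ A181 := fun h => c49 q4800 h q4782
                  have q4802 : ¬ A76 := fun h => c256 h q4801 q4777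
                  have q4803 : ¬ A47 := fun h => c21 q4802 h q3945
                  have q4804 : A70 := Classical.byContradiction fun h => c287 q4798 q4797 h
                  have q4805 : ¬ A206 := fun h => c280 h q4804
                  rcases Classical.em A130 with q4806 | q4806
                  · have q4807 : ¬ A23 := fun h => c157 q4806 h
                    have q4808 : A128 := Classical.byContradiction fun h => c158 q4806 q3946 h
                    have q4809 : ¬ A21 := fun h => c161 h q4807 q4615
                    have q4810 : ¬ A242 := fun h => c199 h q4807 q2433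
                    have q4811 : ¬ A81 := fun h => c24 q4810 h q4807
                    have q4812 : A79 := Classical.byContradiction fun h => c23 h q4811 q4806
                    have q4813 : A109 := Classical.byContradiction fun h => c175 q4812 h q4811
                    have q4814 : A22 := Classical.byContradiction fun h => c182 q2432 q4811 h
                    have q4815 : ¬ A98 := fun h => c205 h q2433 q4811
                    have q4816 : ¬ A80 := fun h => c180 h q4775 q4815
                    have q4817 : ¬ A96 := fun h => c81 h q2 q4816
                    have q4818 : ¬ A42 := fun h => c77 h q4817 q4803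
                    have q4819 : ¬ A237 := fun h => c172 h q3936 q4816
                    have q4820 : ¬ A84 := fun h => c193 h q4774 q4815
                    have q4821 : ¬ A118 := fun h => c214 h q3943 q4809
                    have q4822 : ¬ A95 := fun h => c36 q4821 h q2433
                    have q4823 : ¬ A117 := fun h => c222 h q4818 q4822
                    have q4824 : ¬ A111 := fun h => c228 h q4818 q4756
                    have q4825 : A93 := Classical.byContradiction fun h => c230 q4771 h q4818
                    have q4826 : ¬ A119 := fun h => c231 h q4817 q4756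
                    have q4827 : A89 := Classical.byContradiction fun h => c232 q4813 h q2
                    have q4828 : A104 := Classical.byContradiction fun h => c31 h q4780 q4827
                    have q4829 : A105 := Classical.byContradiction fun h => c227 q4828 h q4780
                    have q4830 : ¬ A92 := fun h => c219 q4829 h
                    have q4831 : ¬ A114 := fun h => c220 h q4824 q4830
                    have q4832 : ¬ A107 := fun h => c33 q4831 h q4824
                    have q4833 : ¬ A108 := fun h => c218 h q4832 q4823
                    have q4834 : ¬ A115 := fun h => c221 h q4831 q4832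
                    have q4835 : ¬ A113 := fun h => c35 q4826 h q4834
                    have q4836 : A106 := Classical.byContradiction fun h => c223 q4825 q4830 h
                    have q4837 : A116 := Classical.byContradiction fun h => c217 q4836 q4832 h
                    have q4838 : A112 := Classical.byContradiction fun h => c34 h q4835 q4837
                    have q4839 : ¬ A94 := fun h => c224 h q4830 q4833
                    exact c229 q4838 q4835 q4839
                  · have q4840 : ¬ A97 := fun h => c69 q4799 h q4806
                    have q4841 : ¬ A208 := fun h => c194 h q4774 q4806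
                    have q4842 : ¬ A56 := fun h => c19 q4841 h q4774
                    exact c204 q4776 q4806 q4842
        · have q4843 : ¬ A73 := fun h => c26 q3942 h q2434
          exact c95 q2432 q4843 q3942
      · have q4844 : ¬ A10 := fun h => c28 q3938 q2 h
        have q4845 : ¬ A88 := fun h => c207 h q3938 q1
        rcases Classical.em A232 with q4846 | q4846
        · have q4847 : A3 := Classical.byContradiction fun h => c3 q1 h q4846
          have q4848 : A234 := Classical.byContradiction fun h => c2 q3938 q4847 h
          exact c94 q4846 q4848
        · have q4849 : ¬ A109 := fun h => c83 h q3938 q4846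
          have q4850 : ¬ A1 := fun h => c85 h q4846 q2434
          have q4851 : ¬ A122 := fun h => c87 h q4850 q2
          rcases Classical.em A137 with q4852 | q4852
          · have q4853 : ¬ A31 := fun h => c90 h q4852
            rcases Classical.em A8 with q4854 | q4854
            · have q4855 : ¬ A71 := fun h => c79 h q4854
              have q4856 : ¬ A131 := fun h => c25 q4855 h q4849
              have q4857 : A220 := Classical.byContradiction fun h => c150 q4854 h q2434
              have q4858 : ¬ A78 := fun h => c159 q4857 h
              have q4859 : ¬ A72 := fun h => c93 h q4846 q4858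
              have q4860 : ¬ A217 := fun h => c299 h q4856 q4858
              have q4861 : A210 := Classical.byContradiction fun h => c305 q4857 h q4856
              rcases Classical.em A46 with q4862 | q4862
              · have q4863 : ¬ A76 := fun h => c133 h q4862
                have q4864 : ¬ A47 := fun h => c21 q4863 h q4858
                have q4865 : A130 := Classical.byContradiction fun h => c154 q4862 h q4864
                have q4866 : ¬ A23 := fun h => c157 q4865 h
                have q4867 : ¬ A21 := fun h => c161 h q4866 q4856
                have q4868 : ¬ A242 := fun h => c199 h q4866 q2433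
                have q4869 : ¬ A81 := fun h => c24 q4868 h q4866
                have q4870 : A79 := Classical.byContradiction fun h => c23 h q4869 q4865
                exact c175 q4870 q4849 q4869
              · have q4871 : A6 := Classical.byContradiction fun h => c149 q4854 q4862 h
                have q4872 : A163 := Classical.byContradiction fun h => c126 q4871 h q4850
                have q4873 : ¬ A43 := fun h => c91 h q4872
                have q4874 : A69 := Classical.byContradiction fun h => c160 q4857 q4862 h
                have q4875 : ¬ A48 := fun h => c135 q4874 h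
                rcases Classical.em A38 with q4876 | q4876
                · have q4877 : ¬ A26 := fun h => c113 q4876 h
                  have q4878 : A231 := Classical.byContradiction fun h => c7 h q4852 q4877
                  exact c89 q4878 q4846 q4877
                · have q4879 : ¬ A4 := fun h => c104 h q4876 q2434
                  have q4880 : ¬ A44 := fun h => c110 h q4876 q4875
                  have q4881 : ¬ A196 := fun h => c15 q4880 h q4875
                  have q4882 : A27 := Classical.byContradiction fun h => c16 h q4881 q4874
                  have q4883 : ¬ A51 := fun h => c121 h q4882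
                  have q4884 : ¬ A7 := fun h => c137 h q4881 q4879
                  have q4885 : A32 := Classical.byContradiction fun h => c141 q4882 q4881 h
                  have q4886 : ¬ A17 := fun h => c106 q4885 h
                  have q4887 : ¬ A5 := fun h => c115 h q4886 q4879
                  have q4888 : ¬ A203 := fun h => c147 h q4881 q4876
                  have q4889 : ¬ A188 := fun h => c140 h q4888 q3936
                  have q4890 : ¬ A77 := fun h => c142 h q4888 q4858
                  have q4891 : ¬ A18 := fun h => c139 h q4890 q4856
                  have q4892 : ¬ A159 := fun h => c186 h q4886 q4851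
                  have q4893 : ¬ A36 := fun h => c5 q4892 h q4851
                  have q4894 : ¬ A13 := fun h => c181 h q4893 q4886
                  have q4895 : ¬ A191 := fun h => c188 h q4891 q4849
                  have q4896 : ¬ A19 := fun h => c190 h q4889 q4894
                  have q4897 : A30 := Classical.byContradiction fun h => c203 q4885 h q4876
                  have q4898 : ¬ A100 := fun h => c225 h q2 q4887
                  have q4899 : ¬ A110 := fun h => c32 q4898 h q3937
                  have q4900 : ¬ A54 := fun h => c255 h q4896 q4862
                  have q4901 : ¬ A127 := fun h => c50 q4862 q4900 h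
                  rcases Classical.em A83 with q4902 | q4902
                  · have q4903 : ¬ A55 := fun h => c143 q4902 h
                    have q4904 : A79 := Classical.byContradiction fun h => c144 q4902 q4891 h
                    have q4905 : ¬ A21 := fun h => c100 q4904 h
                    have q4906 : A237 := Classical.byContradiction fun h => c146 q4902 q4888 h
                    have q4907 : A80 := Classical.byContradiction fun h => c172 q4906 q3936 h
                    have q4908 : A81 := Classical.byContradiction fun h => c175 q4904 q4849 h
                    have q4909 : A98 := Classical.byContradiction fun h => c180 q4907 q4894 h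
                    have q4910 : ¬ A118 := fun h => c214 h q4855 q4905
                    have q4911 : ¬ A95 := fun h => c36 q4910 h q2433
                    rcases Classical.em A60 with q4912 | q4912
                    · have q4913 : A56 := Classical.byContradiction fun h => c18 q4903 h q4912
                      have q4914 : ¬ A20 := fun h => c132 q4912 h
                      have q4915 : A208 := Classical.byContradiction fun h => c19 h q4913 q4914
                      have q4916 : A128 := Classical.byContradiction fun h => c145 q4902 q4914 h
                      have q4917 : A130 := Classical.byContradiction fun h => c194 q4915 q4914 h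
                      have q4918 : ¬ A23 := fun h => c157 q4917 h
                      have q4919 : A242 := Classical.byContradiction fun h => c24 h q4908 q4918
                      exact c199 q4919 q4918 q2433
                    · have q4920 : ¬ A124 := fun h => c127 h q4912 q4891
                      have q4921 : ¬ A62 := fun h => c171 h q4875 q4912
                      have q4922 : ¬ A26 := fun h => c168 h q4921 q4881
                      have q4923 : A231 := Classical.byContradiction fun h => c7 h q4852 q4922
                      exact c89 q4923 q4846 q4922
                  · have q4924 : ¬ A204 := fun h => c61 q4902 h q4888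
                    have q4925 : ¬ A229 := fun h => c212 h q4862 q4902
                    have q4926 : ¬ A53 := fun h => c215 h q4902 q4862
                    have q4927 : ¬ A181 := fun h => c49 q4926 h q4901
                    have q4928 : ¬ A76 := fun h => c256 h q4927 q4896
                    have q4929 : ¬ A47 := fun h => c21 q4928 h q4858
                    rcases Classical.em A60 with q4930 | q4930
                    · have q4931 : ¬ A20 := fun h => c132 q4930 h
                      rcases Classical.em A130 with q4932 | q4932
                      · have q4933 : ¬ A23 := fun h => c157 q4932 h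
                        have q4934 : A128 := Classical.byContradiction fun h => c158 q4932 q4862 h
                        have q4935 : ¬ A21 := fun h => c161 h q4933 q4856
                        have q4936 : ¬ A242 := fun h => c199 h q4933 q2433
                        have q4937 : ¬ A81 := fun h => c24 q4936 h q4933
                        have q4938 : A79 := Classical.byContradiction fun h => c23 h q4937 q4932
                        exact c175 q4938 q4849 q4937
                      · have q4939 : ¬ A97 := fun h => c69 q4925 h q4932
                        have q4940 : ¬ A129 := fun h => c176 h q4844 q4932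
                        have q4941 : ¬ A208 := fun h => c194 h q4931 q4932
                        have q4942 : ¬ A56 := fun h => c19 q4941 h q4931
                        have q4943 : A55 := Classical.byContradiction fun h => c18 h q4942 q4930
                        have q4944 : ¬ A49 := fun h => c174 h q4940 q4942
                        have q4945 : ¬ A61 := fun h => c156 h q4856 q4944
                        have q4946 : ¬ A219 := fun h => c152 h q4945 q4881
                        have q4947 : ¬ A171 := fun h => c130 h q4928 q4946
                        have q4948 : ¬ A23 := fun h => c200 h q4942 q4896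
                        have q4949 : ¬ A21 := fun h => c161 h q4948 q4856
                        have q4950 : ¬ A242 := fun h => c199 h q4948 q2433
                        have q4951 : ¬ A81 := fun h => c24 q4950 h q4948
                        have q4952 : ¬ A79 := fun h => c175 h q4849 q4951
                        have q4953 : A22 := Classical.byContradiction fun h => c182 q2432 q4951 h
                        have q4954 : ¬ A57 := fun h => c204 h q4932 q4942
                        have q4955 : ¬ A197 := fun h => c56 q4883 h q4954
                        have q4956 : ¬ A50 := fun h => c179 h q4894 q4954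
                        have q4957 : ¬ A58 := fun h => c78 h q2 q4956
                        have q4958 : ¬ A62 := fun h => c170 h q2434 q4957
                        have q4959 : ¬ A26 := fun h => c168 h q4958 q4881
                        have q4960 : A231 := Classical.byContradiction fun h => c7 h q4852 q4959
                        exact c89 q4960 q4846 q4959
                    · have q4961 : ¬ A124 := fun h => c127 h q4930 q4891
                      have q4962 : ¬ A55 := fun h => c162 h q4929 q4930
                      have q4963 : ¬ A62 := fun h => c171 h q4875 q4930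
                      have q4964 : ¬ A26 := fun h => c168 h q4963 q4881
                      have q4965 : A231 := Classical.byContradiction fun h => c7 h q4852 q4964
                      exact c89 q4965 q4846 q4964
            · have q4966 : ¬ A73 := fun h => c26 q4854 h q2434
              exact c95 q2432 q4966 q4854
          · have q4967 : ¬ A136 := fun h => c117 h q4852 q4851
            have q4968 : ¬ A38 := fun h => c8 q4967 q4852 h
            have q4969 : ¬ A4 := fun h => c104 h q4968 q2434
            have q4970 : ¬ A152 := fun h => c125 h q4852 q4846
            have q4971 : ¬ A15 := fun h => c116 h q4970 q3935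
            rcases Classical.em A17 with q4972 | q4972
            · have q4973 : ¬ A32 := fun h => c106 h q4972
              have q4974 : ¬ A233 := fun h => c105 h q4973 q4852
              have q4975 : ¬ A31 := fun h => c6 q4974 h q4968
              have q4976 : A231 := Classical.byContradiction fun h => c118 q4972 q4852 h
              have q4977 : A26 := Classical.byContradiction fun h => c89 q4976 q4846 h
              have q4978 : A25 := Classical.byContradiction fun h => c9 h q4975 q4977
              have q4979 : A14 := Classical.byContradiction fun h => c101 q4978 h q4975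
              have q4980 : A24 := Classical.byContradiction fun h => c102 q4978 q1 h
              rcases Classical.em A196 with q4981 | q4981
              · have q4982 : ¬ A59 := fun h => c111 h q4981
                rcases Classical.em A48 with q4983 | q4983
                · have q4984 : A51 := Classical.byContradiction fun h => c17 h q4982 q4983
                  have q4985 : ¬ A27 := fun h => c121 q4984 h
                  have q4986 : ¬ A69 := fun h => c135 h q4983
                  have q4987 : ¬ A124 := fun h => c128 h q4986 q3935
                  have q4988 : ¬ A167 := fun h => c129 h q4986 q3936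
                  have q4989 : ¬ A18 := fun h => c138 h q4985 q4971
                  have q4990 : ¬ A191 := fun h => c188 h q4989 q4849
                  rcases Classical.em A46 with q4991 | q4991
                  · have q4992 : ¬ A76 := fun h => c133 h q4991
                    rcases Classical.em A47 with q4993 | q4993
                    · have q4994 : A78 := Classical.byContradiction fun h => c21 q4992 q4993 h
                      have q4995 : ¬ A220 := fun h => c159 h q4994
                      have q4996 : ¬ A8 := fun h => c150 h q4995 q2434
                      have q4997 : ¬ A73 := fun h => c26 q4996 h q2434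
                      exact c95 q2432 q4997 q4996
                    · have q4998 : A130 := Classical.byContradiction fun h => c154 q4991 h q4993
                      have q4999 : ¬ A23 := fun h => c157 q4998 h
                      have q5000 : ¬ A242 := fun h => c199 h q4999 q2433
                      have q5001 : ¬ A81 := fun h => c24 q5000 h q4999
                      have q5002 : A79 := Classical.byContradiction fun h => c23 h q5001 q4998
                      exact c175 q5002 q4849 q5001
                  · have q5003 : ¬ A220 := fun h => c160 h q4991 q4986
                    have q5004 : ¬ A128 := fun h => c20 q4991 h q5003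
                    have q5005 : ¬ A8 := fun h => c150 h q5003 q2434
                    have q5006 : ¬ A73 := fun h => c26 q5005 h q2434
                    exact c95 q2432 q5006 q5005
                · have q5007 : A44 := Classical.byContradiction fun h => c15 h q4981 q4983
                  exact c110 q5007 q4968 q4983
              · have q5008 : ¬ A7 := fun h => c137 h q4981 q4969
                have q5009 : ¬ A27 := fun h => c141 h q4981 q4973
                have q5010 : ¬ A69 := fun h => c16 q5009 q4981 h
                have q5011 : ¬ A124 := fun h => c128 h q5010 q3935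
                have q5012 : ¬ A167 := fun h => c129 h q5010 q3936
                have q5013 : ¬ A18 := fun h => c138 h q5009 q4971
                have q5014 : ¬ A203 := fun h => c147 h q4981 q4968
                have q5015 : ¬ A188 := fun h => c140 h q5014 q3936
                have q5016 : A62 := Classical.byContradiction fun h => c168 q4977 h q4981
                have q5017 : A58 := Classical.byContradiction fun h => c170 q5016 q2434 h
                have q5018 : A50 := Classical.byContradiction fun h => c78 q5017 q2 h
                have q5019 : ¬ A191 := fun h => c188 h q5013 q4849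
                rcases Classical.em A46 with q5020 | q5020
                · have q5021 : ¬ A76 := fun h => c133 h q5020
                  rcases Classical.em A47 with q5022 | q5022
                  · have q5023 : A78 := Classical.byContradiction fun h => c21 q5021 q5022 h
                    have q5024 : ¬ A220 := fun h => c159 h q5023
                    have q5025 : ¬ A8 := fun h => c150 h q5024 q2434
                    have q5026 : ¬ A73 := fun h => c26 q5025 h q2434
                    exact c95 q2432 q5026 q5025
                  · have q5027 : A130 := Classical.byContradiction fun h => c154 q5020 h q5022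
                    have q5028 : ¬ A23 := fun h => c157 q5027 h
                    have q5029 : ¬ A242 := fun h => c199 h q5028 q2433
                    have q5030 : ¬ A81 := fun h => c24 q5029 h q5028
                    have q5031 : A79 := Classical.byContradiction fun h => c23 h q5030 q5027
                    exact c175 q5031 q4849 q5030
                · have q5032 : ¬ A220 := fun h => c160 h q5020 q5010
                  have q5033 : ¬ A128 := fun h => c20 q5020 h q5032
                  have q5034 : ¬ A8 := fun h => c150 h q5032 q2434
                  have q5035 : ¬ A73 := fun h => c26 q5034 h q2434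
                  exact c95 q2432 q5035 q5034
            · have q5036 : ¬ A5 := fun h => c115 h q4972 q4969
              have q5037 : ¬ A159 := fun h => c186 h q4972 q4851
              have q5038 : ¬ A36 := fun h => c5 q5037 h q4851
              have q5039 : ¬ A13 := fun h => c181 h q5038 q4972
              have q5040 : ¬ A100 := fun h => c225 h q2 q5036
              have q5041 : ¬ A110 := fun h => c32 q5040 h q3937
              rcases Classical.em A69 with q5042 | q5042
              · have q5043 : ¬ A48 := fun h => c135 q5042 h
                have q5044 : ¬ A44 := fun h => c110 h q4968 q5043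
                have q5045 : ¬ A196 := fun h => c15 q5044 h q5043
                have q5046 : A27 := Classical.byContradiction fun h => c16 h q5045 q5042
                have q5047 : ¬ A45 := fun h => c120 h q4970 q5043
                have q5048 : ¬ A51 := fun h => c121 h q5046
                have q5049 : ¬ A150 := fun h => c41 q5048 h q4970
                have q5050 : A33 := Classical.byContradiction fun h => c136 q5042 h q4970
                have q5051 : ¬ A7 := fun h => c137 h q5045 q4969
                have q5052 : A32 := Classical.byContradiction fun h => c141 q5046 q5045 h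
                have q5053 : ¬ A203 := fun h => c147 h q5045 q4968
                have q5054 : ¬ A188 := fun h => c140 h q5053 q3936
                have q5055 : ¬ A19 := fun h => c190 h q5054 q5039
                have q5056 : A30 := Classical.byContradiction fun h => c203 q5052 h q4968
                rcases Classical.em A46 with q5057 | q5057
                · have q5058 : ¬ A76 := fun h => c133 h q5057
                  have q5059 : A220 := Classical.byContradiction fun h => c155 q5057 h q5043
                  have q5060 : ¬ A78 := fun h => c159 q5059 h
                  have q5061 : ¬ A47 := fun h => c21 q5058 h q5060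
                  have q5062 : ¬ A71 := fun h => c80 h q4849 q5060
                  have q5063 : ¬ A131 := fun h => c25 q5062 h q4849
                  have q5064 : ¬ A72 := fun h => c93 h q4846 q5060
                  have q5065 : ¬ A75 := fun h => c123 h q4852 q5064
                  have q5066 : ¬ A77 := fun h => c142 h q5053 q5060
                  have q5067 : ¬ A18 := fun h => c139 h q5066 q5063
                  have q5068 : A130 := Classical.byContradiction fun h => c154 q5057 h q5061
                  have q5069 : ¬ A23 := fun h => c157 q5068 h
                  have q5070 : ¬ A21 := fun h => c161 h q5069 q5063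
                  have q5071 : ¬ A191 := fun h => c188 h q5067 q4849
                  have q5072 : ¬ A242 := fun h => c199 h q5069 q2433
                  have q5073 : ¬ A81 := fun h => c24 q5072 h q5069
                  have q5074 : A79 := Classical.byContradiction fun h => c23 h q5073 q5068
                  exact c175 q5074 q4849 q5073
                · have q5075 : ¬ A54 := fun h => c255 h q5055 q5057
                  have q5076 : ¬ A127 := fun h => c50 q5057 q5075 h
                  rcases Classical.em A83 with q5077 | q5077
                  · have q5078 : ¬ A55 := fun h => c143 q5077 h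
                    have q5079 : A237 := Classical.byContradiction fun h => c146 q5077 q5053 h
                    have q5080 : A80 := Classical.byContradiction fun h => c172 q5079 q3936 h
                    have q5081 : A98 := Classical.byContradiction fun h => c180 q5080 q5039 h
                    have q5082 : A81 := Classical.byContradiction fun h => c205 q5081 q2433 h
                    rcases Classical.em A8 with q5083 | q5083
                    · have q5084 : ¬ A71 := fun h => c79 h q5083
                      have q5085 : ¬ A131 := fun h => c25 q5084 h q4849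
                      have q5086 : A6 := Classical.byContradiction fun h => c149 q5083 q5057 h
                      have q5087 : A163 := Classical.byContradiction fun h => c126 q5086 h q4850
                      have q5088 : ¬ A43 := fun h => c91 h q5087
                      have q5089 : A220 := Classical.byContradiction fun h => c150 q5083 h q2434
                      have q5090 : ¬ A78 := fun h => c159 q5089 h
                      have q5091 : ¬ A72 := fun h => c93 h q4846 q5090
                      have q5092 : ¬ A75 := fun h => c123 h q4852 q5091
                      have q5093 : ¬ A77 := fun h => c142 h q5053 q5090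
                      have q5094 : ¬ A18 := fun h => c139 h q5093 q5085
                      have q5095 : A79 := Classical.byContradiction fun h => c144 q5077 q5094 h
                      have q5096 : ¬ A21 := fun h => c100 q5095 h
                      have q5097 : ¬ A191 := fun h => c188 h q5094 q4849
                      have q5098 : ¬ A118 := fun h => c214 h q5084 q5096
                      have q5099 : ¬ A95 := fun h => c36 q5098 h q2433
                      have q5100 : ¬ A217 := fun h => c299 h q5085 q5090
                      have q5101 : A210 := Classical.byContradiction fun h => c305 q5089 h q5085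
                      rcases Classical.em A60 with q5102 | q5102
                      · have q5103 : A56 := Classical.byContradiction fun h => c18 q5078 h q5102
                        have q5104 : ¬ A20 := fun h => c132 q5102 h
                        have q5105 : A208 := Classical.byContradiction fun h => c19 h q5103 q5104
                        have q5106 : A128 := Classical.byContradiction fun h => c145 q5077 q5104 h
                        have q5107 : A130 := Classical.byContradiction fun h => c194 q5105 q5104 h
                        have q5108 : ¬ A23 := fun h => c157 q5107 h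
                        have q5109 : A242 := Classical.byContradiction fun h => c24 h q5082 q5108
                        exact c199 q5109 q5108 q2433
                      · have q5110 : ¬ A124 := fun h => c127 h q5102 q5094
                        have q5111 : ¬ A62 := fun h => c171 h q5043 q5102
                        have q5112 : ¬ A26 := fun h => c168 h q5111 q5045
                        have q5113 : ¬ A231 := fun h => c89 h q4846 q5112
                        have q5114 : ¬ A103 := fun h => c76 h q3938 q5113
                        have q5115 : ¬ A25 := fun h => c178 h q5038 q5112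
                        have q5116 : ¬ A14 := fun h => c4 q5115 q5038 h
                        have q5117 : ¬ A74 := fun h => c103 h q5116 q5091
                        have q5118 : ¬ A241 := fun h => c183 h q5116 q2433
                        have q5119 : ¬ A121 := fun h => c0 q5118 h q2433
                        have q5120 : A234 := Classical.byContradiction fun h => c173 u0 q5119 h
                        have q5121 : A35 := Classical.byContradiction fun h => c164 q5120 h q4852
                        have q5122 : A151 := Classical.byContradiction fun h => c40 h q5049 q5121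
                        have q5123 : ¬ A64 := fun h => c187 h q4972 q5102
                        have q5124 : ¬ A28 := fun h => c11 q5123 h q4972
                        exact c202 q5056 q5102 q5124
                    · have q5125 : ¬ A73 := fun h => c26 q5083 h q2434
                      exact c95 q2432 q5125 q5083
                  · have q5126 : ¬ A204 := fun h => c61 q5077 h q5053
                    have q5127 : ¬ A229 := fun h => c212 h q5057 q5077
                    have q5128 : ¬ A53 := fun h => c215 h q5077 q5057
                    have q5129 : ¬ A181 := fun h => c49 q5128 h q5076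
                    have q5130 : ¬ A76 := fun h => c256 h q5129 q5055
                    rcases Classical.em A78 with q5131 | q5131
                    · have q5132 : A128 := Classical.byContradiction fun h => c22 q5077 h q5131
                      have q5133 : A220 := Classical.byContradiction fun h => c20 q5057 q5132 h
                      exact c159 q5133 q5131
                    · have q5134 : ¬ A47 := fun h => c21 q5130 h q5131
                      have q5135 : ¬ A71 := fun h => c80 h q4849 q5131
                      have q5136 : ¬ A131 := fun h => c25 q5135 h q4849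
                      have q5137 : ¬ A72 := fun h => c93 h q4846 q5131
                      have q5138 : ¬ A75 := fun h => c123 h q4852 q5137
                      have q5139 : ¬ A77 := fun h => c142 h q5053 q5131
                      have q5140 : ¬ A18 := fun h => c139 h q5139 q5136
                      have q5141 : ¬ A191 := fun h => c188 h q5140 q4849
                      have q5142 : ¬ A217 := fun h => c299 h q5136 q5131
                      rcases Classical.em A60 with q5143 | q5143
                      · have q5144 : ¬ A20 := fun h => c132 q5143 h
                        rcases Classical.em A130 with q5145 | q5145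
                        · have q5146 : ¬ A23 := fun h => c157 q5145 h
                          have q5147 : A128 := Classical.byContradiction fun h => c158 q5145 q5057 h
                          have q5148 : A220 := Classical.byContradiction fun h => c20 q5057 q5147 h
                          have q5149 : ¬ A21 := fun h => c161 h q5146 q5136
                          have q5150 : ¬ A242 := fun h => c199 h q5146 q2433
                          have q5151 : ¬ A81 := fun h => c24 q5150 h q5146
                          have q5152 : A79 := Classical.byContradiction fun h => c23 h q5151 q5145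
                          exact c175 q5152 q4849 q5151
                        · have q5153 : ¬ A97 := fun h => c69 q5127 h q5145
                          have q5154 : ¬ A129 := fun h => c176 h q4844 q5145
                          have q5155 : ¬ A208 := fun h => c194 h q5144 q5145
                          have q5156 : ¬ A56 := fun h => c19 q5155 h q5144
                          have q5157 : A55 := Classical.byContradiction fun h => c18 h q5156 q5143
                          have q5158 : ¬ A49 := fun h => c174 h q5154 q5156
                          have q5159 : ¬ A61 := fun h => c156 h q5136 q5158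
                          have q5160 : ¬ A219 := fun h => c152 h q5159 q5045
                          have q5161 : ¬ A171 := fun h => c130 h q5130 q5160
                          have q5162 : A220 := Classical.byContradiction fun h => c198 q5157 h q5156
                          have q5163 : ¬ A23 := fun h => c200 h q5156 q5055
                          have q5164 : ¬ A21 := fun h => c161 h q5163 q5136
                          have q5165 : ¬ A242 := fun h => c199 h q5163 q2433
                          have q5166 : ¬ A81 := fun h => c24 q5165 h q5163
                          have q5167 : ¬ A79 := fun h => c175 h q4849 q5166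
                          have q5168 : A22 := Classical.byContradiction fun h => c182 q2432 q5166 h
                          have q5169 : A8 := Classical.byContradiction fun h => c70 h q5136 q5168
                          have q5170 : A6 := Classical.byContradiction fun h => c149 q5169 q5057 h
                          have q5171 : A163 := Classical.byContradiction fun h => c126 q5170 h q4850
                          have q5172 : ¬ A43 := fun h => c91 h q5171
                          have q5173 : ¬ A57 := fun h => c204 h q5145 q5156
                          have q5174 : ¬ A197 := fun h => c56 q5048 h q5173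
                          have q5175 : ¬ A50 := fun h => c179 h q5039 q5173
                          have q5176 : ¬ A58 := fun h => c78 h q2 q5175
                          have q5177 : ¬ A62 := fun h => c170 h q2434 q5176
                          have q5178 : ¬ A26 := fun h => c168 h q5177 q5045
                          have q5179 : ¬ A231 := fun h => c89 h q4846 q5178
                          have q5180 : ¬ A103 := fun h => c76 h q3938 q5179
                          have q5181 : ¬ A25 := fun h => c178 h q5038 q5178
                          have q5182 : ¬ A14 := fun h => c4 q5181 q5038 h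
                          have q5183 : ¬ A74 := fun h => c103 h q5182 q5137
                          have q5184 : ¬ A241 := fun h => c183 h q5182 q2433
                          have q5185 : ¬ A121 := fun h => c0 q5184 h q2433
                          have q5186 : A234 := Classical.byContradiction fun h => c173 u0 q5185 h
                          have q5187 : A35 := Classical.byContradiction fun h => c164 q5186 h q4852
                          have q5188 : A151 := Classical.byContradiction fun h => c40 h q5049 q5187
                          have q5189 : ¬ A98 := fun h => c205 h q2433 q5166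
                          have q5190 : ¬ A80 := fun h => c180 h q5039 q5189
                          have q5191 : ¬ A96 := fun h => c81 h q2 q5190
                          have q5192 : ¬ A42 := fun h => c77 h q5191 q5134
                          have q5193 : ¬ A237 := fun h => c172 h q3936 q5190
                          have q5194 : ¬ A84 := fun h => c193 h q5144 q5189
                          have q5195 : ¬ A118 := fun h => c214 h q5135 q5164
                          have q5196 : ¬ A95 := fun h => c36 q5195 h q2433
                          have q5197 : ¬ A117 := fun h => c222 h q5192 q5196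
                          have q5198 : ¬ A111 := fun h => c228 h q5192 q5051
                          have q5199 : ¬ A119 := fun h => c231 h q5191 q5051
                          have q5200 : ¬ A148 := fun h => c243 h q4852 q5181
                          have q5201 : ¬ A154 := fun h => c245 q5188 h
                          have q5202 : A39 := Classical.byContradiction fun h => c246 q5188 q5049 h
                          have q5203 : ¬ A153 := fun h => c247 h q5201 q5049
                          have q5204 : ¬ A183 := fun h => c267 h q5140 q5175
                          have q5205 : ¬ A192 := fun h => c271 h q5141 q5175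
                          have q5206 : ¬ A65 := fun h => c286 h q5140 q5176
                          have q5207 : ¬ A227 := fun h => c293 h q5160 q5153
                          have q5208 : ¬ A216 := fun h => c298 h q5136 q5183
                          have q5209 : ¬ A218 := fun h => c64 q5208 h q5142
                          have q5210 : ¬ A221 := fun h => c301 h q5160 q5138
                          have q5211 : ¬ A230 := fun h => c303 h q5159 q5138
                          have q5212 : A210 := Classical.byContradiction fun h => c305 q5162 h q5136
                          have q5213 : A211 := Classical.byContradiction fun h => c63 h q5209 q5212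
                          have q5214 : ¬ A209 := fun h => c296 h q5213
                          have q5215 : A212 := Classical.byContradiction fun h => c297 q5213 h q5209
                          have q5216 : A213 := Classical.byContradiction fun h => c290 q5215 h q5210
                          have q5217 : ¬ A133 := fun h => c300 h q5209 q5214
                          have q5218 : ¬ A224 := fun h => c291 h q5210 q5217
                          have q5219 : ¬ A214 := fun h => c65 q5218 h q5210
                          have q5220 : A226 := Classical.byContradiction fun h => c288 q5216 q5219 h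
                          have q5221 : ¬ A215 := fun h => c289 h q5219 q5207
                          have q5222 : ¬ A225 := fun h => c292 h q5218 q5219
                          have q5223 : ¬ A223 := fun h => c67 q5211 h q5222
                          have q5224 : A222 := Classical.byContradiction fun h => c66 h q5223 q5220
                          have q5225 : ¬ A134 := fun h => c295 h q5217 q5221
                          exact c302 q5224 q5223 q5225
                      · have q5226 : ¬ A124 := fun h => c127 h q5143 q5140
                        have q5227 : ¬ A55 := fun h => c162 h q5134 q5143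
                        have q5228 : ¬ A62 := fun h => c171 h q5043 q5143
                        have q5229 : ¬ A26 := fun h => c168 h q5228 q5045
                        have q5230 : ¬ A231 := fun h => c89 h q4846 q5229
                        have q5231 : ¬ A103 := fun h => c76 h q3938 q5230
                        have q5232 : ¬ A25 := fun h => c178 h q5038 q5229
                        have q5233 : ¬ A14 := fun h => c4 q5232 q5038 h
                        have q5234 : ¬ A74 := fun h => c103 h q5233 q5137
                        have q5235 : ¬ A241 := fun h => c183 h q5233 q2433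
                        have q5236 : ¬ A121 := fun h => c0 q5235 h q2433
                        have q5237 : A234 := Classical.byContradiction fun h => c173 u0 q5236 h
                        have q5238 : A35 := Classical.byContradiction fun h => c164 q5237 h q4852
                        have q5239 : A151 := Classical.byContradiction fun h => c40 h q5049 q5238
                        have q5240 : ¬ A64 := fun h => c187 h q4972 q5143
                        have q5241 : ¬ A28 := fun h => c11 q5240 h q4972
                        exact c202 q5056 q5143 q5241
              · have q5242 : ¬ A124 := fun h => c128 h q5042 q3935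
                have q5243 : ¬ A167 := fun h => c129 h q5042 q3936
                rcases Classical.em A46 with q5244 | q5244
                · have q5245 : ¬ A76 := fun h => c133 h q5244
                  rcases Classical.em A47 with q5246 | q5246
                  · have q5247 : A78 := Classical.byContradiction fun h => c21 q5245 q5246 h
                    have q5248 : ¬ A220 := fun h => c159 h q5247
                    have q5249 : ¬ A8 := fun h => c150 h q5248 q2434
                    have q5250 : ¬ A73 := fun h => c26 q5249 h q2434
                    exact c95 q2432 q5250 q5249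
                  · have q5251 : A130 := Classical.byContradiction fun h => c154 q5244 h q5246
                    have q5252 : ¬ A23 := fun h => c157 q5251 h
                    have q5253 : ¬ A242 := fun h => c199 h q5252 q2433
                    have q5254 : ¬ A81 := fun h => c24 q5253 h q5252
                    have q5255 : A79 := Classical.byContradiction fun h => c23 h q5254 q5251
                    exact c175 q5255 q4849 q5254
                · have q5256 : ¬ A220 := fun h => c160 h q5244 q5042
                  have q5257 : ¬ A128 := fun h => c20 q5244 h q5256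
                  have q5258 : ¬ A8 := fun h => c150 h q5256 q2434
                  have q5259 : ¬ A73 := fun h => c26 q5258 h q2434
                  exact c95 q2432 q5259 q5258

theorem close_AAAAA_k0 {G : Type*} [Group G] {δ : G → ZMod 3} (hδ : ∀ u v, δ (u * v) = δ u + δ v) (o : Pre δ)
    {P Q f0 f1 f2 f3 f4 : G} {e : ZMod 3} (h3 : 3 * e = 0)
    (D : δ P = e ∧ δ Q = -e ∧ δ f0 = 0 ∧ δ f1 = 0 ∧ δ f2 = 0 ∧ δ f3 = 0 ∧ δ f4 = 0)
    (C : Cube P f0 ∧ Cube P f1 ∧ Cube Q f0 ∧ Cube Q f1 ∧ Cube P f2 ∧ Cube Q f2 ∧ Cube P f3 ∧ Cube Q f3 ∧ Cube P f4 ∧ Cube Q f4) :
    (o.lt (Q * f1⁻¹) (Q * f0⁻¹) ↔ o.lt (1 * (Q * f1⁻¹)) (1 * (Q * f0⁻¹))) ∧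
    (o.lt (f0 * P⁻¹) (Q * f1⁻¹) ↔ o.lt (1 * (f0 * P⁻¹)) (1 * (Q * f1⁻¹))) ∧
    (o.lt (P * f0⁻¹) (f0 * Q⁻¹) ↔ o.lt (1 * (f0 * P⁻¹)⁻¹) (1 * (Q * f0⁻¹)⁻¹)) ∧
    (o.lt (P * f1⁻¹) (P * f0⁻¹) ↔ o.lt (1 * (P * f1⁻¹)) (1 * (P * f0⁻¹))) ∧
    (o.lt (P * f0⁻¹) (f1 * Q⁻¹) ↔ o.lt (1 * (P * f0⁻¹)) (1 * (f1 * Q⁻¹))) ∧
    (o.lt (f1 * P⁻¹) (Q * f1⁻¹) ↔ o.lt (1 * (P * f1⁻¹)⁻¹) (1 * (f1 * Q⁻¹)⁻¹)) ∧
    (o.lt (P * f0⁻¹) (P * f1⁻¹) ↔ o.lt (1 * (P * f0⁻¹)) (1 * (P * f1⁻¹))) ∧
    (o.lt (f1 * Q⁻¹) (P * f0⁻¹) ↔ o.lt (1 * (f1 * Q⁻¹)) (1 * (P * f0⁻¹))) ∧
    (o.lt (Q * f1⁻¹) (f1 * P⁻¹) ↔ o.lt (1 * (f1 * Q⁻¹)⁻¹) (1 * (P * f1⁻¹)⁻¹)) ∧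
    (o.lt (f1 * Q⁻¹) (f0 * Q⁻¹) ↔ o.lt (1 * (f1 * Q⁻¹)) (1 * (f0 * Q⁻¹))) ∧
    (o.lt (f1 * P⁻¹) (f2 * P⁻¹) ↔ o.lt (1 * (f1 * P⁻¹)) (1 * (f2 * P⁻¹))) ∧
    (o.lt (f1 * P⁻¹) (Q * f2⁻¹) ↔ o.lt (1 * (f1 * P⁻¹)) (1 * (Q * f2⁻¹))) ∧
    (o.lt (f1 * Q⁻¹) (P * f1⁻¹) ↔ o.lt (1 * (Q * f1⁻¹)⁻¹) (1 * (f1 * P⁻¹)⁻¹)) ∧
    (o.lt (Q * f2⁻¹) (Q * f1⁻¹) ↔ o.lt (1 * (Q * f2⁻¹)) (1 * (Q * f1⁻¹))) ∧
    (o.lt (P * f1⁻¹) (f1 * Q⁻¹) ↔ o.lt (1 * (f1 * P⁻¹)⁻¹) (1 * (Q * f1⁻¹)⁻¹)) ∧
    (o.lt (P * f2⁻¹) (P * f1⁻¹) ↔ o.lt (1 * (P * f2⁻¹)) (1 * (P * f1⁻¹))) ∧
    (o.lt (P * f1⁻¹) (f2 * Q⁻¹) ↔ o.lt (1 * (P * f1⁻¹)) (1 * (f2 * Q⁻¹))) ∧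
    (o.lt (f2 * P⁻¹) (Q * f2⁻¹) ↔ o.lt (1 * (P * f2⁻¹)⁻¹) (1 * (f2 * Q⁻¹)⁻¹)) ∧
    (o.lt (P * f1⁻¹) (P * f2⁻¹) ↔ o.lt (1 * (P * f1⁻¹)) (1 * (P * f2⁻¹))) ∧
    (o.lt (f2 * Q⁻¹) (P * f1⁻¹) ↔ o.lt (1 * (f2 * Q⁻¹)) (1 * (P * f1⁻¹))) := by
  have C' := C
  obtain ⟨C0, C1, C2, C3, C4, C5, C6, C7, C8, C9⟩ := C'
  simp only [Cube] at C C0 C1 C2 C3 C4 C5 C6 C7 C8 C9
  exact ⟨o.cv hδ (1) (by simp only [hδ, δinv hδ, δone hδ, D] <;> linear_combination (0) * h3) (by first | (simp only [mul_assoc, mul_inv_rev, inv_inv, mul_inv_cancel_left, inv_mul_cancel_left, mul_inv_cancel, inv_mul_cancel, mul_one, one_mul, inv_one]; done) | simp only [mul_assoc, mul_inv_rev, inv_inv, mul_inv_cancel_left, inv_mul_cancel_left, mul_inv_cancel, inv_mul_cancel, mul_one, one_mul, inv_one, C]) (by first | (simp only [mul_assoc, mul_inv_rev, inv_inv, mul_inv_cancel_left, inv_mul_cancel_left, mul_inv_cancel, inv_mul_cancel, mul_one, one_mul, inv_one]; done) | simp only [mul_assoc, mul_inv_rev, inv_inv, mul_inv_cancel_left, inv_mul_cancel_left, mul_inv_cancel, inv_mul_cancel, mul_one, one_mul, inv_one, C]),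
    o.cv hδ (1) (by simp only [hδ, δinv hδ, δone hδ, D] <;> linear_combination (0) * h3) (by first | (simp only [mul_assoc, mul_inv_rev, inv_inv, mul_inv_cancel_left, inv_mul_cancel_left, mul_inv_cancel, inv_mul_cancel, mul_one, one_mul, inv_one]; done) | simp only [mul_assoc, mul_inv_rev, inv_inv, mul_inv_cancel_left, inv_mul_cancel_left, mul_inv_cancel, inv_mul_cancel, mul_one, one_mul, inv_one, C]) (by first | (simp only [mul_assoc, mul_inv_rev, inv_inv, mul_inv_cancel_left, inv_mul_cancel_left, mul_inv_cancel, inv_mul_cancel, mul_one, one_mul, inv_one]; done) | simp only [mul_assoc, mul_inv_rev, inv_inv, mul_inv_cancel_left, inv_mul_cancel_left, mul_inv_cancel, inv_mul_cancel, mul_one, one_mul, inv_one, C]),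
    o.cv hδ (1) (by simp only [hδ, δinv hδ, δone hδ, D] <;> linear_combination (0) * h3) (by first | (simp only [mul_assoc, mul_inv_rev, inv_inv, mul_inv_cancel_left, inv_mul_cancel_left, mul_inv_cancel, inv_mul_cancel, mul_one, one_mul, inv_one]; done) | simp only [mul_assoc, mul_inv_rev, inv_inv, mul_inv_cancel_left, inv_mul_cancel_left, mul_inv_cancel, inv_mul_cancel, mul_one, one_mul, inv_one, C]) (by first | (simp only [mul_assoc, mul_inv_rev, inv_inv, mul_inv_cancel_left, inv_mul_cancel_left, mul_inv_cancel, inv_mul_cancel, mul_one, one_mul, inv_one]; done) | simp only [mul_assoc, mul_inv_rev, inv_inv, mul_inv_cancel_left, inv_mul_cancel_left, mul_inv_cancel, inv_mul_cancel, mul_one, one_mul, inv_one, C]),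
    o.cv hδ (1) (by simp only [hδ, δinv hδ, δone hδ, D] <;> linear_combination (0) * h3) (by first | (simp only [mul_assoc, mul_inv_rev, inv_inv, mul_inv_cancel_left, inv_mul_cancel_left, mul_inv_cancel, inv_mul_cancel, mul_one, one_mul, inv_one]; done) | simp only [mul_assoc, mul_inv_rev, inv_inv, mul_inv_cancel_left, inv_mul_cancel_left, mul_inv_cancel, inv_mul_cancel, mul_one, one_mul, inv_one, C]) (by first | (simp only [mul_assoc, mul_inv_rev, inv_inv, mul_inv_cancel_left, inv_mul_cancel_left, mul_inv_cancel, inv_mul_cancel, mul_one, one_mul, inv_one]; done) | simp only [mul_assoc, mul_inv_rev, inv_inv, mul_inv_cancel_left, inv_mul_cancel_left, mul_inv_cancel, inv_mul_cancel, mul_one, one_mul, inv_one, C]),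
    o.cv hδ (1) (by simp only [hδ, δinv hδ, δone hδ, D] <;> linear_combination (0) * h3) (by first | (simp only [mul_assoc, mul_inv_rev, inv_inv, mul_inv_cancel_left, inv_mul_cancel_left, mul_inv_cancel, inv_mul_cancel, mul_one, one_mul, inv_one]; done) | simp only [mul_assoc, mul_inv_rev, inv_inv, mul_inv_cancel_left, inv_mul_cancel_left, mul_inv_cancel, inv_mul_cancel, mul_one, one_mul, inv_one, C]) (by first | (simp only [mul_assoc, mul_inv_rev, inv_inv, mul_inv_cancel_left, inv_mul_cancel_left, mul_inv_cancel, inv_mul_cancel, mul_one, one_mul, inv_one]; done) | simp only [mul_assoc, mul_inv_rev, inv_inv, mul_inv_cancel_left, inv_mul_cancel_left, mul_inv_cancel, inv_mul_cancel, mul_one, one_mul, inv_one, C]),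
    o.cv hδ (1) (by simp only [hδ, δinv hδ, δone hδ, D] <;> linear_combination (0) * h3) (by first | (simp only [mul_assoc, mul_inv_rev, inv_inv, mul_inv_cancel_left, inv_mul_cancel_left, mul_inv_cancel, inv_mul_cancel, mul_one, one_mul, inv_one]; done) | simp only [mul_assoc, mul_inv_rev, inv_inv, mul_inv_cancel_left, inv_mul_cancel_left, mul_inv_cancel, inv_mul_cancel, mul_one, one_mul, inv_one, C]) (by first | (simp only [mul_assoc, mul_inv_rev, inv_inv, mul_inv_cancel_left, inv_mul_cancel_left, mul_inv_cancel, inv_mul_cancel, mul_one, one_mul, inv_one]; done) | simp only [mul_assoc, mul_inv_rev, inv_inv, mul_inv_cancel_left, inv_mul_cancel_left, mul_inv_cancel, inv_mul_cancel, mul_one, one_mul, inv_one, C]),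
    o.cv hδ (1) (by simp only [hδ, δinv hδ, δone hδ, D] <;> linear_combination (0) * h3) (by first | (simp only [mul_assoc, mul_inv_rev, inv_inv, mul_inv_cancel_left, inv_mul_cancel_left, mul_inv_cancel, inv_mul_cancel, mul_one, one_mul, inv_one]; done) | simp only [mul_assoc, mul_inv_rev, inv_inv, mul_inv_cancel_left, inv_mul_cancel_left, mul_inv_cancel, inv_mul_cancel, mul_one, one_mul, inv_one, C]) (by first | (simp only [mul_assoc, mul_inv_rev, inv_inv, mul_inv_cancel_left, inv_mul_cancel_left, mul_inv_cancel, inv_mul_cancel, mul_one, one_mul, inv_one]; done) | simp only [mul_assoc, mul_inv_rev, inv_inv, mul_inv_cancel_left, inv_mul_cancel_left, mul_inv_cancel, inv_mul_cancel, mul_one, one_mul, inv_one, C]),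
    o.cv hδ (1) (by simp only [hδ, δinv hδ, δone hδ, D] <;> linear_combination (0) * h3) (by first | (simp only [mul_assoc, mul_inv_rev, inv_inv, mul_inv_cancel_left, inv_mul_cancel_left, mul_inv_cancel, inv_mul_cancel, mul_one, one_mul, inv_one]; done) | simp only [mul_assoc, mul_inv_rev, inv_inv, mul_inv_cancel_left, inv_mul_cancel_left, mul_inv_cancel, inv_mul_cancel, mul_one, one_mul, inv_one, C]) (by first | (simp only [mul_assoc, mul_inv_rev, inv_inv, mul_inv_cancel_left, inv_mul_cancel_left, mul_inv_cancel, inv_mul_cancel, mul_one, one_mul, inv_one]; done) | simp only [mul_assoc, mul_inv_rev, inv_inv, mul_inv_cancel_left, inv_mul_cancel_left, mul_inv_cancel, inv_mul_cancel, mul_one, one_mul, inv_one, C]),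
    o.cv hδ (1) (by simp only [hδ, δinv hδ, δone hδ, D] <;> linear_combination (0) * h3) (by first | (simp only [mul_assoc, mul_inv_rev, inv_inv, mul_inv_cancel_left, inv_mul_cancel_left, mul_inv_cancel, inv_mul_cancel, mul_one, one_mul, inv_one]; done) | simp only [mul_assoc, mul_inv_rev, inv_inv, mul_inv_cancel_left, inv_mul_cancel_left, mul_inv_cancel, inv_mul_cancel, mul_one, one_mul, inv_one, C]) (by first | (simp only [mul_assoc, mul_inv_rev, inv_inv, mul_inv_cancel_left, inv_mul_cancel_left, mul_inv_cancel, inv_mul_cancel, mul_one, one_mul, inv_one]; done) | simp only [mul_assoc, mul_inv_rev, inv_inv, mul_inv_cancel_left, inv_mul_cancel_left, mul_inv_cancel, inv_mul_cancel, mul_one, one_mul, inv_one, C]),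
    o.cv hδ (1) (by simp only [hδ, δinv hδ, δone hδ, D] <;> linear_combination (0) * h3) (by first | (simp only [mul_assoc, mul_inv_rev, inv_inv, mul_inv_cancel_left, inv_mul_cancel_left, mul_inv_cancel, inv_mul_cancel, mul_one, one_mul, inv_one]; done) | simp only [mul_assoc, mul_inv_rev, inv_inv, mul_inv_cancel_left, inv_mul_cancel_left, mul_inv_cancel, inv_mul_cancel, mul_one, one_mul, inv_one, C]) (by first | (simp only [mul_assoc, mul_inv_rev, inv_inv, mul_inv_cancel_left, inv_mul_cancel_left, mul_inv_cancel, inv_mul_cancel, mul_one, one_mul, inv_one]; done) | simp only [mul_assoc, mul_inv_rev, inv_inv, mul_inv_cancel_left, inv_mul_cancel_left, mul_inv_cancel, inv_mul_cancel, mul_one, one_mul, inv_one, C]),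
    o.cv hδ (1) (by simp only [hδ, δinv hδ, δone hδ, D] <;> linear_combination (0) * h3) (by first | (simp only [mul_assoc, mul_inv_rev, inv_inv, mul_inv_cancel_left, inv_mul_cancel_left, mul_inv_cancel, inv_mul_cancel, mul_one, one_mul, inv_one]; done) | simp only [mul_assoc, mul_inv_rev, inv_inv, mul_inv_cancel_left, inv_mul_cancel_left, mul_inv_cancel, inv_mul_cancel, mul_one, one_mul, inv_one, C]) (by first | (simp only [mul_assoc, mul_inv_rev, inv_inv, mul_inv_cancel_left, inv_mul_cancel_left, mul_inv_cancel, inv_mul_cancel, mul_one, one_mul, inv_one]; done) | simp only [mul_assoc, mul_inv_rev, inv_inv, mul_inv_cancel_left, inv_mul_cancel_left, mul_inv_cancel, inv_mul_cancel, mul_one, one_mul, inv_one, C]),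
    o.cv hδ (1) (by simp only [hδ, δinv hδ, δone hδ, D] <;> linear_combination (0) * h3) (by first | (simp only [mul_assoc, mul_inv_rev, inv_inv, mul_inv_cancel_left, inv_mul_cancel_left, mul_inv_cancel, inv_mul_cancel, mul_one, one_mul, inv_one]; done) | simp only [mul_assoc, mul_inv_rev, inv_inv, mul_inv_cancel_left, inv_mul_cancel_left, mul_inv_cancel, inv_mul_cancel, mul_one, one_mul, inv_one, C]) (by first | (simp only [mul_assoc, mul_inv_rev, inv_inv, mul_inv_cancel_left, inv_mul_cancel_left, mul_inv_cancel, inv_mul_cancel, mul_one, one_mul, inv_one]; done) | simp only [mul_assoc, mul_inv_rev, inv_inv, mul_inv_cancel_left, inv_mul_cancel_left, mul_inv_cancel, inv_mul_cancel, mul_one, one_mul, inv_one, C]),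
    o.cv hδ (1) (by simp only [hδ, δinv hδ, δone hδ, D] <;> linear_combination (0) * h3) (by first | (simp only [mul_assoc, mul_inv_rev, inv_inv, mul_inv_cancel_left, inv_mul_cancel_left, mul_inv_cancel, inv_mul_cancel, mul_one, one_mul, inv_one]; done) | simp only [mul_assoc, mul_inv_rev, inv_inv, mul_inv_cancel_left, inv_mul_cancel_left, mul_inv_cancel, inv_mul_cancel, mul_one, one_mul, inv_one, C]) (by first | (simp only [mul_assoc, mul_inv_rev, inv_inv, mul_inv_cancel_left, inv_mul_cancel_left, mul_inv_cancel, inv_mul_cancel, mul_one, one_mul, inv_one]; done) | simp only [mul_assoc, mul_inv_rev, inv_inv, mul_inv_cancel_left, inv_mul_cancel_left, mul_inv_cancel, inv_mul_cancel, mul_one, one_mul, inv_one, C]),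
    o.cv hδ (1) (by simp only [hδ, δinv hδ, δone hδ, D] <;> linear_combination (0) * h3) (by first | (simp only [mul_assoc, mul_inv_rev, inv_inv, mul_inv_cancel_left, inv_mul_cancel_left, mul_inv_cancel, inv_mul_cancel, mul_one, one_mul, inv_one]; done) | simp only [mul_assoc, mul_inv_rev, inv_inv, mul_inv_cancel_left, inv_mul_cancel_left, mul_inv_cancel, inv_mul_cancel, mul_one, one_mul, inv_one, C]) (by first | (simp only [mul_assoc, mul_inv_rev, inv_inv, mul_inv_cancel_left, inv_mul_cancel_left, mul_inv_cancel, inv_mul_cancel, mul_one, one_mul, inv_one]; done) | simp only [mul_assoc, mul_inv_rev, inv_inv, mul_inv_cancel_left, inv_mul_cancel_left, mul_inv_cancel, inv_mul_cancel, mul_one, one_mul, inv_one, C]),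
    o.cv hδ (1) (by simp only [hδ, δinv hδ, δone hδ, D] <;> linear_combination (0) * h3) (by first | (simp only [mul_assoc, mul_inv_rev, inv_inv, mul_inv_cancel_left, inv_mul_cancel_left, mul_inv_cancel, inv_mul_cancel, mul_one, one_mul, inv_one]; done) | simp only [mul_assoc, mul_inv_rev, inv_inv, mul_inv_cancel_left, inv_mul_cancel_left, mul_inv_cancel, inv_mul_cancel, mul_one, one_mul, inv_one, C]) (by first | (simp only [mul_assoc, mul_inv_rev, inv_inv, mul_inv_cancel_left, inv_mul_cancel_left, mul_inv_cancel, inv_mul_cancel, mul_one, one_mul, inv_one]; done) | simp only [mul_assoc, mul_inv_rev, inv_inv, mul_inv_cancel_left, inv_mul_cancel_left, mul_inv_cancel, inv_mul_cancel, mul_one, one_mul, inv_one, C]),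
    o.cv hδ (1) (by simp only [hδ, δinv hδ, δone hδ, D] <;> linear_combination (0) * h3) (by first | (simp only [mul_assoc, mul_inv_rev, inv_inv, mul_inv_cancel_left, inv_mul_cancel_left, mul_inv_cancel, inv_mul_cancel, mul_one, one_mul, inv_one]; done) | simp only [mul_assoc, mul_inv_rev, inv_inv, mul_inv_cancel_left, inv_mul_cancel_left, mul_inv_cancel, inv_mul_cancel, mul_one, one_mul, inv_one, C]) (by first | (simp only [mul_assoc, mul_inv_rev, inv_inv, mul_inv_cancel_left, inv_mul_cancel_left, mul_inv_cancel, inv_mul_cancel, mul_one, one_mul, inv_one]; done) | simp only [mul_assoc, mul_inv_rev, inv_inv, mul_inv_cancel_left, inv_mul_cancel_left, mul_inv_cancel, inv_mul_cancel, mul_one, one_mul, inv_one, C]),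
    o.cv hδ (1) (by simp only [hδ, δinv hδ, δone hδ, D] <;> linear_combination (0) * h3) (by first | (simp only [mul_assoc, mul_inv_rev, inv_inv, mul_inv_cancel_left, inv_mul_cancel_left, mul_inv_cancel, inv_mul_cancel, mul_one, one_mul, inv_one]; done) | simp only [mul_assoc, mul_inv_rev, inv_inv, mul_inv_cancel_left, inv_mul_cancel_left, mul_inv_cancel, inv_mul_cancel, mul_one, one_mul, inv_one, C]) (by first | (simp only [mul_assoc, mul_inv_rev, inv_inv, mul_inv_cancel_left, inv_mul_cancel_left, mul_inv_cancel, inv_mul_cancel, mul_one, one_mul, inv_one]; done) | simp only [mul_assoc, mul_inv_rev, inv_inv, mul_inv_cancel_left, inv_mul_cancel_left, mul_inv_cancel, inv_mul_cancel, mul_one, one_mul, inv_one, C]),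
    o.cv hδ (1) (by simp only [hδ, δinv hδ, δone hδ, D] <;> linear_combination (0) * h3) (by first | (simp only [mul_assoc, mul_inv_rev, inv_inv, mul_inv_cancel_left, inv_mul_cancel_left, mul_inv_cancel, inv_mul_cancel, mul_one, one_mul, inv_one]; done) | simp only [mul_assoc, mul_inv_rev, inv_inv, mul_inv_cancel_left, inv_mul_cancel_left, mul_inv_cancel, inv_mul_cancel, mul_one, one_mul, inv_one, C]) (by first | (simp only [mul_assoc, mul_inv_rev, inv_inv, mul_inv_cancel_left, inv_mul_cancel_left, mul_inv_cancel, inv_mul_cancel, mul_one, one_mul, inv_one]; done) | simp only [mul_assoc, mul_inv_rev, inv_inv, mul_inv_cancel_left, inv_mul_cancel_left, mul_inv_cancel, inv_mul_cancel, mul_one, one_mul, inv_one, C]),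
    o.cv hδ (1) (by simp only [hδ, δinv hδ, δone hδ, D] <;> linear_combination (0) * h3) (by first | (simp only [mul_assoc, mul_inv_rev, inv_inv, mul_inv_cancel_left, inv_mul_cancel_left, mul_inv_cancel, inv_mul_cancel, mul_one, one_mul, inv_one]; done) | simp only [mul_assoc, mul_inv_rev, inv_inv, mul_inv_cancel_left, inv_mul_cancel_left, mul_inv_cancel, inv_mul_cancel, mul_one, one_mul, inv_one, C]) (by first | (simp only [mul_assoc, mul_inv_rev, inv_inv, mul_inv_cancel_left, inv_mul_cancel_left, mul_inv_cancel, inv_mul_cancel, mul_one, one_mul, inv_one]; done) | simp only [mul_assoc, mul_inv_rev, inv_inv, mul_inv_cancel_left, inv_mul_cancel_left, mul_inv_cancel, inv_mul_cancel, mul_one, one_mul, inv_one, C]),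
    o.cv hδ (1) (by simp only [hδ, δinv hδ, δone hδ, D] <;> linear_combination (0) * h3) (by first | (simp only [mul_assoc, mul_inv_rev, inv_inv, mul_inv_cancel_left, inv_mul_cancel_left, mul_inv_cancel, inv_mul_cancel, mul_one, one_mul, inv_one]; done) | simp only [mul_assoc, mul_inv_rev, inv_inv, mul_inv_cancel_left, inv_mul_cancel_left, mul_inv_cancel, inv_mul_cancel, mul_one, one_mul, inv_one, C]) (by first | (simp only [mul_assoc, mul_inv_rev, inv_inv, mul_inv_cancel_left, inv_mul_cancel_left, mul_inv_cancel, inv_mul_cancel, mul_one, one_mul, inv_one]; done) | simp only [mul_assoc, mul_inv_rev, inv_inv, mul_inv_cancel_left, inv_mul_cancel_left, mul_inv_cancel, inv_mul_cancel, mul_one, one_mul, inv_one, C])⟩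

theorem close_AAAAA_k1 {G : Type*} [Group G] {δ : G → ZMod 3} (hδ : ∀ u v, δ (u * v) = δ u + δ v) (o : Pre δ)
    {P Q f0 f1 f2 f3 f4 : G} {e : ZMod 3} (h3 : 3 * e = 0)
    (D : δ P = e ∧ δ Q = -e ∧ δ f0 = 0 ∧ δ f1 = 0 ∧ δ f2 = 0 ∧ δ f3 = 0 ∧ δ f4 = 0)
    (C : Cube P f0 ∧ Cube P f1 ∧ Cube Q f0 ∧ Cube Q f1 ∧ Cube P f2 ∧ Cube Q f2 ∧ Cube P f3 ∧ Cube Q f3 ∧ Cube P f4 ∧ Cube Q f4) :
    (o.lt (Q * f2⁻¹) (f2 * P⁻¹) ↔ o.lt (1 * (f2 * Q⁻¹)⁻¹) (1 * (P * f2⁻¹)⁻¹)) ∧
    (o.lt (f2 * Q⁻¹) (f1 * Q⁻¹) ↔ o.lt (1 * (f2 * Q⁻¹)) (1 * (f1 * Q⁻¹))) ∧
    (o.lt (f1 * P⁻¹) (f2 * P⁻¹) ↔ o.lt (1 * (f1 * Q⁻¹)) (1 * (f2 * Q⁻¹))) ∧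
    (o.lt (f3 * P⁻¹) (f2 * P⁻¹) ↔ o.lt (1 * (f3 * P⁻¹)) (1 * (f2 * P⁻¹))) ∧
    (o.lt (Q * f3⁻¹) (f2 * P⁻¹) ↔ o.lt (1 * (Q * f3⁻¹)) (1 * (f2 * P⁻¹))) ∧
    (o.lt (P * f2⁻¹) (f2 * Q⁻¹) ↔ o.lt (1 * (f2 * P⁻¹)⁻¹) (1 * (Q * f2⁻¹)⁻¹)) ∧
    (o.lt (Q * f2⁻¹) (Q * f3⁻¹) ↔ o.lt (1 * (Q * f2⁻¹)) (1 * (Q * f3⁻¹))) ∧
    (o.lt (f2 * Q⁻¹) (P * f2⁻¹) ↔ o.lt (1 * (Q * f2⁻¹)⁻¹) (1 * (f2 * P⁻¹)⁻¹)) ∧
    (o.lt (f2 * P⁻¹) (f3 * P⁻¹) ↔ o.lt (1 * (f2 * P⁻¹)) (1 * (f3 * P⁻¹))) ∧
    (o.lt (f2 * P⁻¹) (Q * f3⁻¹) ↔ o.lt (1 * (f2 * P⁻¹)) (1 * (Q * f3⁻¹))) ∧
    (o.lt (Q * f3⁻¹) (Q * f2⁻¹) ↔ o.lt (1 * (Q * f3⁻¹)) (1 * (Q * f2⁻¹))) ∧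
    (o.lt (P * f3⁻¹) (P * f2⁻¹) ↔ o.lt (1 * (P * f3⁻¹)) (1 * (P * f2⁻¹))) ∧
    (o.lt (P * f2⁻¹) (f3 * Q⁻¹) ↔ o.lt (1 * (P * f2⁻¹)) (1 * (f3 * Q⁻¹))) ∧
    (o.lt (f3 * P⁻¹) (Q * f3⁻¹) ↔ o.lt (1 * (P * f3⁻¹)⁻¹) (1 * (f3 * Q⁻¹)⁻¹)) ∧
    (o.lt (P * f2⁻¹) (P * f3⁻¹) ↔ o.lt (1 * (P * f2⁻¹)) (1 * (P * f3⁻¹))) ∧
    (o.lt (f3 * Q⁻¹) (P * f2⁻¹) ↔ o.lt (1 * (f3 * Q⁻¹)) (1 * (P * f2⁻¹))) ∧
    (o.lt (Q * f3⁻¹) (f3 * P⁻¹) ↔ o.lt (1 * (f3 * Q⁻¹)⁻¹) (1 * (P * f3⁻¹)⁻¹)) ∧
    (o.lt (f3 * P⁻¹) (f2 * P⁻¹) ↔ o.lt (1 * (f3 * Q⁻¹)) (1 * (f2 * Q⁻¹))) ∧
    (o.lt (f2 * P⁻¹) (f3 * P⁻¹) ↔ o.lt (1 * (f2 * Q⁻¹)) (1 * (f3 * Q⁻¹))) ∧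
    (o.lt (f4 * P⁻¹) (f3 * P⁻¹) ↔ o.lt (1 * (f4 * P⁻¹)) (1 * (f3 * P⁻¹))) := by
  have C' := C
  obtain ⟨C0, C1, C2, C3, C4, C5, C6, C7, C8, C9⟩ := C'
  simp only [Cube] at C C0 C1 C2 C3 C4 C5 C6 C7 C8 C9
  exact ⟨o.cv hδ (1) (by simp only [hδ, δinv hδ, δone hδ, D] <;> linear_combination (0) * h3) (by first | (simp only [mul_assoc, mul_inv_rev, inv_inv, mul_inv_cancel_left, inv_mul_cancel_left, mul_inv_cancel, inv_mul_cancel, mul_one, one_mul, inv_one]; done) | simp only [mul_assoc, mul_inv_rev, inv_inv, mul_inv_cancel_left, inv_mul_cancel_left, mul_inv_cancel, inv_mul_cancel, mul_one, one_mul, inv_one, C]) (by first | (simp only [mul_assoc, mul_inv_rev, inv_inv, mul_inv_cancel_left, inv_mul_cancel_left, mul_inv_cancel, inv_mul_cancel, mul_one, one_mul, inv_one]; done) | simp only [mul_assoc, mul_inv_rev, inv_inv, mul_inv_cancel_left, inv_mul_cancel_left, mul_inv_cancel, inv_mul_cancel, mul_one, one_mul, inv_one, C]),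
    o.cv hδ (1) (by simp only [hδ, δinv hδ, δone hδ, D] <;> linear_combination (0) * h3) (by first | (simp only [mul_assoc, mul_inv_rev, inv_inv, mul_inv_cancel_left, inv_mul_cancel_left, mul_inv_cancel, inv_mul_cancel, mul_one, one_mul, inv_one]; done) | simp only [mul_assoc, mul_inv_rev, inv_inv, mul_inv_cancel_left, inv_mul_cancel_left, mul_inv_cancel, inv_mul_cancel, mul_one, one_mul, inv_one, C]) (by first | (simp only [mul_assoc, mul_inv_rev, inv_inv, mul_inv_cancel_left, inv_mul_cancel_left, mul_inv_cancel, inv_mul_cancel, mul_one, one_mul, inv_one]; done) | simp only [mul_assoc, mul_inv_rev, inv_inv, mul_inv_cancel_left, inv_mul_cancel_left, mul_inv_cancel, inv_mul_cancel, mul_one, one_mul, inv_one, C]),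
    o.cv hδ (P * Q⁻¹) (by simp only [hδ, δinv hδ, δone hδ, D] <;> linear_combination (0) * h3) (by first | (simp only [mul_assoc, mul_inv_rev, inv_inv, mul_inv_cancel_left, inv_mul_cancel_left, mul_inv_cancel, inv_mul_cancel, mul_one, one_mul, inv_one]; done) | simp only [mul_assoc, mul_inv_rev, inv_inv, mul_inv_cancel_left, inv_mul_cancel_left, mul_inv_cancel, inv_mul_cancel, mul_one, one_mul, inv_one, C]) (by first | (simp only [mul_assoc, mul_inv_rev, inv_inv, mul_inv_cancel_left, inv_mul_cancel_left, mul_inv_cancel, inv_mul_cancel, mul_one, one_mul, inv_one]; done) | simp only [mul_assoc, mul_inv_rev, inv_inv, mul_inv_cancel_left, inv_mul_cancel_left, mul_inv_cancel, inv_mul_cancel, mul_one, one_mul, inv_one, C]),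
    o.cv hδ (1) (by simp only [hδ, δinv hδ, δone hδ, D] <;> linear_combination (0) * h3) (by first | (simp only [mul_assoc, mul_inv_rev, inv_inv, mul_inv_cancel_left, inv_mul_cancel_left, mul_inv_cancel, inv_mul_cancel, mul_one, one_mul, inv_one]; done) | simp only [mul_assoc, mul_inv_rev, inv_inv, mul_inv_cancel_left, inv_mul_cancel_left, mul_inv_cancel, inv_mul_cancel, mul_one, one_mul, inv_one, C]) (by first | (simp only [mul_assoc, mul_inv_rev, inv_inv, mul_inv_cancel_left, inv_mul_cancel_left, mul_inv_cancel, inv_mul_cancel, mul_one, one_mul, inv_one]; done) | simp only [mul_assoc, mul_inv_rev, inv_inv, mul_inv_cancel_left, inv_mul_cancel_left, mul_inv_cancel, inv_mul_cancel, mul_one, one_mul, inv_one, C]),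
    o.cv hδ (1) (by simp only [hδ, δinv hδ, δone hδ, D] <;> linear_combination (0) * h3) (by first | (simp only [mul_assoc, mul_inv_rev, inv_inv, mul_inv_cancel_left, inv_mul_cancel_left, mul_inv_cancel, inv_mul_cancel, mul_one, one_mul, inv_one]; done) | simp only [mul_assoc, mul_inv_rev, inv_inv, mul_inv_cancel_left, inv_mul_cancel_left, mul_inv_cancel, inv_mul_cancel, mul_one, one_mul, inv_one, C]) (by first | (simp only [mul_assoc, mul_inv_rev, inv_inv, mul_inv_cancel_left, inv_mul_cancel_left, mul_inv_cancel, inv_mul_cancel, mul_one, one_mul, inv_one]; done) | simp only [mul_assoc, mul_inv_rev, inv_inv, mul_inv_cancel_left, inv_mul_cancel_left, mul_inv_cancel, inv_mul_cancel, mul_one, one_mul, inv_one, C]),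
    o.cv hδ (1) (by simp only [hδ, δinv hδ, δone hδ, D] <;> linear_combination (0) * h3) (by first | (simp only [mul_assoc, mul_inv_rev, inv_inv, mul_inv_cancel_left, inv_mul_cancel_left, mul_inv_cancel, inv_mul_cancel, mul_one, one_mul, inv_one]; done) | simp only [mul_assoc, mul_inv_rev, inv_inv, mul_inv_cancel_left, inv_mul_cancel_left, mul_inv_cancel, inv_mul_cancel, mul_one, one_mul, inv_one, C]) (by first | (simp only [mul_assoc, mul_inv_rev, inv_inv, mul_inv_cancel_left, inv_mul_cancel_left, mul_inv_cancel, inv_mul_cancel, mul_one, one_mul, inv_one]; done) | simp only [mul_assoc, mul_inv_rev, inv_inv, mul_inv_cancel_left, inv_mul_cancel_left, mul_inv_cancel, inv_mul_cancel, mul_one, one_mul, inv_one, C]),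
    o.cv hδ (1) (by simp only [hδ, δinv hδ, δone hδ, D] <;> linear_combination (0) * h3) (by first | (simp only [mul_assoc, mul_inv_rev, inv_inv, mul_inv_cancel_left, inv_mul_cancel_left, mul_inv_cancel, inv_mul_cancel, mul_one, one_mul, inv_one]; done) | simp only [mul_assoc, mul_inv_rev, inv_inv, mul_inv_cancel_left, inv_mul_cancel_left, mul_inv_cancel, inv_mul_cancel, mul_one, one_mul, inv_one, C]) (by first | (simp only [mul_assoc, mul_inv_rev, inv_inv, mul_inv_cancel_left, inv_mul_cancel_left, mul_inv_cancel, inv_mul_cancel, mul_one, one_mul, inv_one]; done) | simp only [mul_assoc, mul_inv_rev, inv_inv, mul_inv_cancel_left, inv_mul_cancel_left, mul_inv_cancel, inv_mul_cancel, mul_one, one_mul, inv_one, C]),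
    o.cv hδ (1) (by simp only [hδ, δinv hδ, δone hδ, D] <;> linear_combination (0) * h3) (by first | (simp only [mul_assoc, mul_inv_rev, inv_inv, mul_inv_cancel_left, inv_mul_cancel_left, mul_inv_cancel, inv_mul_cancel, mul_one, one_mul, inv_one]; done) | simp only [mul_assoc, mul_inv_rev, inv_inv, mul_inv_cancel_left, inv_mul_cancel_left, mul_inv_cancel, inv_mul_cancel, mul_one, one_mul, inv_one, C]) (by first | (simp only [mul_assoc, mul_inv_rev, inv_inv, mul_inv_cancel_left, inv_mul_cancel_left, mul_inv_cancel, inv_mul_cancel, mul_one, one_mul, inv_one]; done) | simp only [mul_assoc, mul_inv_rev, inv_inv, mul_inv_cancel_left, inv_mul_cancel_left, mul_inv_cancel, inv_mul_cancel, mul_one, one_mul, inv_one, C]),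
    o.cv hδ (1) (by simp only [hδ, δinv hδ, δone hδ, D] <;> linear_combination (0) * h3) (by first | (simp only [mul_assoc, mul_inv_rev, inv_inv, mul_inv_cancel_left, inv_mul_cancel_left, mul_inv_cancel, inv_mul_cancel, mul_one, one_mul, inv_one]; done) | simp only [mul_assoc, mul_inv_rev, inv_inv, mul_inv_cancel_left, inv_mul_cancel_left, mul_inv_cancel, inv_mul_cancel, mul_one, one_mul, inv_one, C]) (by first | (simp only [mul_assoc, mul_inv_rev, inv_inv, mul_inv_cancel_left, inv_mul_cancel_left, mul_inv_cancel, inv_mul_cancel, mul_one, one_mul, inv_one]; done) | simp only [mul_assoc, mul_inv_rev, inv_inv, mul_inv_cancel_left, inv_mul_cancel_left, mul_inv_cancel, inv_mul_cancel, mul_one, one_mul, inv_one, C]),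
    o.cv hδ (1) (by simp only [hδ, δinv hδ, δone hδ, D] <;> linear_combination (0) * h3) (by first | (simp only [mul_assoc, mul_inv_rev, inv_inv, mul_inv_cancel_left, inv_mul_cancel_left, mul_inv_cancel, inv_mul_cancel, mul_one, one_mul, inv_one]; done) | simp only [mul_assoc, mul_inv_rev, inv_inv, mul_inv_cancel_left, inv_mul_cancel_left, mul_inv_cancel, inv_mul_cancel, mul_one, one_mul, inv_one, C]) (by first | (simp only [mul_assoc, mul_inv_rev, inv_inv, mul_inv_cancel_left, inv_mul_cancel_left, mul_inv_cancel, inv_mul_cancel, mul_one, one_mul, inv_one]; done) | simp only [mul_assoc, mul_inv_rev, inv_inv, mul_inv_cancel_left, inv_mul_cancel_left, mul_inv_cancel, inv_mul_cancel, mul_one, one_mul, inv_one, C]),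
    o.cv hδ (1) (by simp only [hδ, δinv hδ, δone hδ, D] <;> linear_combination (0) * h3) (by first | (simp only [mul_assoc, mul_inv_rev, inv_inv, mul_inv_cancel_left, inv_mul_cancel_left, mul_inv_cancel, inv_mul_cancel, mul_one, one_mul, inv_one]; done) | simp only [mul_assoc, mul_inv_rev, inv_inv, mul_inv_cancel_left, inv_mul_cancel_left, mul_inv_cancel, inv_mul_cancel, mul_one, one_mul, inv_one, C]) (by first | (simp only [mul_assoc, mul_inv_rev, inv_inv, mul_inv_cancel_left, inv_mul_cancel_left, mul_inv_cancel, inv_mul_cancel, mul_one, one_mul, inv_one]; done) | simp only [mul_assoc, mul_inv_rev, inv_inv, mul_inv_cancel_left, inv_mul_cancel_left, mul_inv_cancel, inv_mul_cancel, mul_one, one_mul, inv_one, C]),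
    o.cv hδ (1) (by simp only [hδ, δinv hδ, δone hδ, D] <;> linear_combination (0) * h3) (by first | (simp only [mul_assoc, mul_inv_rev, inv_inv, mul_inv_cancel_left, inv_mul_cancel_left, mul_inv_cancel, inv_mul_cancel, mul_one, one_mul, inv_one]; done) | simp only [mul_assoc, mul_inv_rev, inv_inv, mul_inv_cancel_left, inv_mul_cancel_left, mul_inv_cancel, inv_mul_cancel, mul_one, one_mul, inv_one, C]) (by first | (simp only [mul_assoc, mul_inv_rev, inv_inv, mul_inv_cancel_left, inv_mul_cancel_left, mul_inv_cancel, inv_mul_cancel, mul_one, one_mul, inv_one]; done) | simp only [mul_assoc, mul_inv_rev, inv_inv, mul_inv_cancel_left, inv_mul_cancel_left, mul_inv_cancel, inv_mul_cancel, mul_one, one_mul, inv_one, C]),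
    o.cv hδ (1) (by simp only [hδ, δinv hδ, δone hδ, D] <;> linear_combination (0) * h3) (by first | (simp only [mul_assoc, mul_inv_rev, inv_inv, mul_inv_cancel_left, inv_mul_cancel_left, mul_inv_cancel, inv_mul_cancel, mul_one, one_mul, inv_one]; done) | simp only [mul_assoc, mul_inv_rev, inv_inv, mul_inv_cancel_left, inv_mul_cancel_left, mul_inv_cancel, inv_mul_cancel, mul_one, one_mul, inv_one, C]) (by first | (simp only [mul_assoc, mul_inv_rev, inv_inv, mul_inv_cancel_left, inv_mul_cancel_left, mul_inv_cancel, inv_mul_cancel, mul_one, one_mul, inv_one]; done) | simp only [mul_assoc, mul_inv_rev, inv_inv, mul_inv_cancel_left, inv_mul_cancel_left, mul_inv_cancel, inv_mul_cancel, mul_one, one_mul, inv_one, C]),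
    o.cv hδ (1) (by simp only [hδ, δinv hδ, δone hδ, D] <;> linear_combination (0) * h3) (by first | (simp only [mul_assoc, mul_inv_rev, inv_inv, mul_inv_cancel_left, inv_mul_cancel_left, mul_inv_cancel, inv_mul_cancel, mul_one, one_mul, inv_one]; done) | simp only [mul_assoc, mul_inv_rev, inv_inv, mul_inv_cancel_left, inv_mul_cancel_left, mul_inv_cancel, inv_mul_cancel, mul_one, one_mul, inv_one, C]) (by first | (simp only [mul_assoc, mul_inv_rev, inv_inv, mul_inv_cancel_left, inv_mul_cancel_left, mul_inv_cancel, inv_mul_cancel, mul_one, one_mul, inv_one]; done) | simp only [mul_assoc, mul_inv_rev, inv_inv, mul_inv_cancel_left, inv_mul_cancel_left, mul_inv_cancel, inv_mul_cancel, mul_one, one_mul, inv_one, C]),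
    o.cv hδ (1) (by simp only [hδ, δinv hδ, δone hδ, D] <;> linear_combination (0) * h3) (by first | (simp only [mul_assoc, mul_inv_rev, inv_inv, mul_inv_cancel_left, inv_mul_cancel_left, mul_inv_cancel, inv_mul_cancel, mul_one, one_mul, inv_one]; done) | simp only [mul_assoc, mul_inv_rev, inv_inv, mul_inv_cancel_left, inv_mul_cancel_left, mul_inv_cancel, inv_mul_cancel, mul_one, one_mul, inv_one, C]) (by first | (simp only [mul_assoc, mul_inv_rev, inv_inv, mul_inv_cancel_left, inv_mul_cancel_left, mul_inv_cancel, inv_mul_cancel, mul_one, one_mul, inv_one]; done) | simp only [mul_assoc, mul_inv_rev, inv_inv, mul_inv_cancel_left, inv_mul_cancel_left, mul_inv_cancel, inv_mul_cancel, mul_one, one_mul, inv_one, C]),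
    o.cv hδ (1) (by simp only [hδ, δinv hδ, δone hδ, D] <;> linear_combination (0) * h3) (by first | (simp only [mul_assoc, mul_inv_rev, inv_inv, mul_inv_cancel_left, inv_mul_cancel_left, mul_inv_cancel, inv_mul_cancel, mul_one, one_mul, inv_one]; done) | simp only [mul_assoc, mul_inv_rev, inv_inv, mul_inv_cancel_left, inv_mul_cancel_left, mul_inv_cancel, inv_mul_cancel, mul_one, one_mul, inv_one, C]) (by first | (simp only [mul_assoc, mul_inv_rev, inv_inv, mul_inv_cancel_left, inv_mul_cancel_left, mul_inv_cancel, inv_mul_cancel, mul_one, one_mul, inv_one]; done) | simp only [mul_assoc, mul_inv_rev, inv_inv, mul_inv_cancel_left, inv_mul_cancel_left, mul_inv_cancel, inv_mul_cancel, mul_one, one_mul, inv_one, C]),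
    o.cv hδ (1) (by simp only [hδ, δinv hδ, δone hδ, D] <;> linear_combination (0) * h3) (by first | (simp only [mul_assoc, mul_inv_rev, inv_inv, mul_inv_cancel_left, inv_mul_cancel_left, mul_inv_cancel, inv_mul_cancel, mul_one, one_mul, inv_one]; done) | simp only [mul_assoc, mul_inv_rev, inv_inv, mul_inv_cancel_left, inv_mul_cancel_left, mul_inv_cancel, inv_mul_cancel, mul_one, one_mul, inv_one, C]) (by first | (simp only [mul_assoc, mul_inv_rev, inv_inv, mul_inv_cancel_left, inv_mul_cancel_left, mul_inv_cancel, inv_mul_cancel, mul_one, one_mul, inv_one]; done) | simp only [mul_assoc, mul_inv_rev, inv_inv, mul_inv_cancel_left, inv_mul_cancel_left, mul_inv_cancel, inv_mul_cancel, mul_one, one_mul, inv_one, C]),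
    o.cv hδ (P * Q⁻¹) (by simp only [hδ, δinv hδ, δone hδ, D] <;> linear_combination (0) * h3) (by first | (simp only [mul_assoc, mul_inv_rev, inv_inv, mul_inv_cancel_left, inv_mul_cancel_left, mul_inv_cancel, inv_mul_cancel, mul_one, one_mul, inv_one]; done) | simp only [mul_assoc, mul_inv_rev, inv_inv, mul_inv_cancel_left, inv_mul_cancel_left, mul_inv_cancel, inv_mul_cancel, mul_one, one_mul, inv_one, C]) (by first | (simp only [mul_assoc, mul_inv_rev, inv_inv, mul_inv_cancel_left, inv_mul_cancel_left, mul_inv_cancel, inv_mul_cancel, mul_one, one_mul, inv_one]; done) | simp only [mul_assoc, mul_inv_rev, inv_inv, mul_inv_cancel_left, inv_mul_cancel_left, mul_inv_cancel, inv_mul_cancel, mul_one, one_mul, inv_one, C]),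
    o.cv hδ (P * Q⁻¹) (by simp only [hδ, δinv hδ, δone hδ, D] <;> linear_combination (0) * h3) (by first | (simp only [mul_assoc, mul_inv_rev, inv_inv, mul_inv_cancel_left, inv_mul_cancel_left, mul_inv_cancel, inv_mul_cancel, mul_one, one_mul, inv_one]; done) | simp only [mul_assoc, mul_inv_rev, inv_inv, mul_inv_cancel_left, inv_mul_cancel_left, mul_inv_cancel, inv_mul_cancel, mul_one, one_mul, inv_one, C]) (by first | (simp only [mul_assoc, mul_inv_rev, inv_inv, mul_inv_cancel_left, inv_mul_cancel_left, mul_inv_cancel, inv_mul_cancel, mul_one, one_mul, inv_one]; done) | simp only [mul_assoc, mul_inv_rev, inv_inv, mul_inv_cancel_left, inv_mul_cancel_left, mul_inv_cancel, inv_mul_cancel, mul_one, one_mul, inv_one, C]),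
    o.cv hδ (1) (by simp only [hδ, δinv hδ, δone hδ, D] <;> linear_combination (0) * h3) (by first | (simp only [mul_assoc, mul_inv_rev, inv_inv, mul_inv_cancel_left, inv_mul_cancel_left, mul_inv_cancel, inv_mul_cancel, mul_one, one_mul, inv_one]; done) | simp only [mul_assoc, mul_inv_rev, inv_inv, mul_inv_cancel_left, inv_mul_cancel_left, mul_inv_cancel, inv_mul_cancel, mul_one, one_mul, inv_one, C]) (by first | (simp only [mul_assoc, mul_inv_rev, inv_inv, mul_inv_cancel_left, inv_mul_cancel_left, mul_inv_cancel, inv_mul_cancel, mul_one, one_mul, inv_one]; done) | simp only [mul_assoc, mul_inv_rev, inv_inv, mul_inv_cancel_left, inv_mul_cancel_left, mul_inv_cancel, inv_mul_cancel, mul_one, one_mul, inv_one, C])⟩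

theorem close_AAAAA_k2 {G : Type*} [Group G] {δ : G → ZMod 3} (hδ : ∀ u v, δ (u * v) = δ u + δ v) (o : Pre δ)
    {P Q f0 f1 f2 f3 f4 : G} {e : ZMod 3} (h3 : 3 * e = 0)
    (D : δ P = e ∧ δ Q = -e ∧ δ f0 = 0 ∧ δ f1 = 0 ∧ δ f2 = 0 ∧ δ f3 = 0 ∧ δ f4 = 0)
    (C : Cube P f0 ∧ Cube P f1 ∧ Cube Q f0 ∧ Cube Q f1 ∧ Cube P f2 ∧ Cube Q f2 ∧ Cube P f3 ∧ Cube Q f3 ∧ Cube P f4 ∧ Cube Q f4) :
    (o.lt (Q * f4⁻¹) (f3 * P⁻¹) ↔ o.lt (1 * (Q * f4⁻¹)) (1 * (f3 * P⁻¹))) ∧
    (o.lt (P * f3⁻¹) (f3 * Q⁻¹) ↔ o.lt (1 * (f3 * P⁻¹)⁻¹) (1 * (Q * f3⁻¹)⁻¹)) ∧
    (o.lt (Q * f3⁻¹) (Q * f4⁻¹) ↔ o.lt (1 * (Q * f3⁻¹)) (1 * (Q * f4⁻¹))) ∧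
    (o.lt (f3 * Q⁻¹) (P * f3⁻¹) ↔ o.lt (1 * (Q * f3⁻¹)⁻¹) (1 * (f3 * P⁻¹)⁻¹)) ∧
    (o.lt (P * f4⁻¹) (P * f3⁻¹) ↔ o.lt (1 * (P * f4⁻¹)) (1 * (P * f3⁻¹))) ∧
    (o.lt (P * f3⁻¹) (f4 * Q⁻¹) ↔ o.lt (1 * (P * f3⁻¹)) (1 * (f4 * Q⁻¹))) ∧
    (o.lt (f4 * P⁻¹) (Q * f4⁻¹) ↔ o.lt (1 * (P * f4⁻¹)⁻¹) (1 * (f4 * Q⁻¹)⁻¹)) ∧
    (o.lt (P * f3⁻¹) (P * f4⁻¹) ↔ o.lt (1 * (P * f3⁻¹)) (1 * (P * f4⁻¹))) ∧
    (o.lt (f4 * Q⁻¹) (P * f3⁻¹) ↔ o.lt (1 * (f4 * Q⁻¹)) (1 * (P * f3⁻¹))) ∧
    (o.lt (Q * f4⁻¹) (f4 * P⁻¹) ↔ o.lt (1 * (f4 * Q⁻¹)⁻¹) (1 * (P * f4⁻¹)⁻¹)) ∧
    (o.lt (f3 * Q⁻¹) (f4 * Q⁻¹) ↔ o.lt (1 * (f3 * Q⁻¹)) (1 * (f4 * Q⁻¹))) ∧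
    (o.lt (f0 * P⁻¹) (f4 * P⁻¹) ↔ o.lt (1 * (f0 * P⁻¹)) (1 * (f4 * P⁻¹))) ∧
    (o.lt (Q * f0⁻¹) (f4 * P⁻¹) ↔ o.lt (1 * (Q * f0⁻¹)) (1 * (f4 * P⁻¹))) ∧
    (o.lt (P * f4⁻¹) (f4 * Q⁻¹) ↔ o.lt (1 * (f4 * P⁻¹)⁻¹) (1 * (Q * f4⁻¹)⁻¹)) ∧
    (o.lt (Q * f4⁻¹) (Q * f0⁻¹) ↔ o.lt (1 * (Q * f4⁻¹)) (1 * (Q * f0⁻¹))) ∧
    (o.lt (f4 * Q⁻¹) (P * f4⁻¹) ↔ o.lt (1 * (Q * f4⁻¹)⁻¹) (1 * (f4 * P⁻¹)⁻¹)) ∧
    (o.lt (P * f0⁻¹) (P * f4⁻¹) ↔ o.lt (1 * (P * f0⁻¹)) (1 * (P * f4⁻¹))) ∧
    (o.lt (P * f4⁻¹) (f0 * Q⁻¹) ↔ o.lt (1 * (P * f4⁻¹)) (1 * (f0 * Q⁻¹))) ∧
    (o.lt (f0 * P⁻¹) (Q * f0⁻¹) ↔ o.lt (1 * (P * f0⁻¹)⁻¹) (1 * (f0 * Q⁻¹)⁻¹)) ∧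
    (o.lt (P * f4⁻¹) (P * f0⁻¹) ↔ o.lt (1 * (P * f4⁻¹)) (1 * (P * f0⁻¹))) := by
  have C' := C
  obtain ⟨C0, C1, C2, C3, C4, C5, C6, C7, C8, C9⟩ := C'
  simp only [Cube] at C C0 C1 C2 C3 C4 C5 C6 C7 C8 C9
  exact ⟨o.cv hδ (1) (by simp only [hδ, δinv hδ, δone hδ, D] <;> linear_combination (0) * h3) (by first | (simp only [mul_assoc, mul_inv_rev, inv_inv, mul_inv_cancel_left, inv_mul_cancel_left, mul_inv_cancel, inv_mul_cancel, mul_one, one_mul, inv_one]; done) | simp only [mul_assoc, mul_inv_rev, inv_inv, mul_inv_cancel_left, inv_mul_cancel_left, mul_inv_cancel, inv_mul_cancel, mul_one, one_mul, inv_one, C]) (by first | (simp only [mul_assoc, mul_inv_rev, inv_inv, mul_inv_cancel_left, inv_mul_cancel_left, mul_inv_cancel, inv_mul_cancel, mul_one, one_mul, inv_one]; done) | simp only [mul_assoc, mul_inv_rev, inv_inv, mul_inv_cancel_left, inv_mul_cancel_left, mul_inv_cancel, inv_mul_cancel, mul_one, one_mul, inv_one, C]),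
    o.cv hδ (1) (by simp only [hδ, δinv hδ, δone hδ, D] <;> linear_combination (0) * h3) (by first | (simp only [mul_assoc, mul_inv_rev, inv_inv, mul_inv_cancel_left, inv_mul_cancel_left, mul_inv_cancel, inv_mul_cancel, mul_one, one_mul, inv_one]; done) | simp only [mul_assoc, mul_inv_rev, inv_inv, mul_inv_cancel_left, inv_mul_cancel_left, mul_inv_cancel, inv_mul_cancel, mul_one, one_mul, inv_one, C]) (by first | (simp only [mul_assoc, mul_inv_rev, inv_inv, mul_inv_cancel_left, inv_mul_cancel_left, mul_inv_cancel, inv_mul_cancel, mul_one, one_mul, inv_one]; done) | simp only [mul_assoc, mul_inv_rev, inv_inv, mul_inv_cancel_left, inv_mul_cancel_left, mul_inv_cancel, inv_mul_cancel, mul_one, one_mul, inv_one, C]),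
    o.cv hδ (1) (by simp only [hδ, δinv hδ, δone hδ, D] <;> linear_combination (0) * h3) (by first | (simp only [mul_assoc, mul_inv_rev, inv_inv, mul_inv_cancel_left, inv_mul_cancel_left, mul_inv_cancel, inv_mul_cancel, mul_one, one_mul, inv_one]; done) | simp only [mul_assoc, mul_inv_rev, inv_inv, mul_inv_cancel_left, inv_mul_cancel_left, mul_inv_cancel, inv_mul_cancel, mul_one, one_mul, inv_one, C]) (by first | (simp only [mul_assoc, mul_inv_rev, inv_inv, mul_inv_cancel_left, inv_mul_cancel_left, mul_inv_cancel, inv_mul_cancel, mul_one, one_mul, inv_one]; done) | simp only [mul_assoc, mul_inv_rev, inv_inv, mul_inv_cancel_left, inv_mul_cancel_left, mul_inv_cancel, inv_mul_cancel, mul_one, one_mul, inv_one, C]),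
    o.cv hδ (1) (by simp only [hδ, δinv hδ, δone hδ, D] <;> linear_combination (0) * h3) (by first | (simp only [mul_assoc, mul_inv_rev, inv_inv, mul_inv_cancel_left, inv_mul_cancel_left, mul_inv_cancel, inv_mul_cancel, mul_one, one_mul, inv_one]; done) | simp only [mul_assoc, mul_inv_rev, inv_inv, mul_inv_cancel_left, inv_mul_cancel_left, mul_inv_cancel, inv_mul_cancel, mul_one, one_mul, inv_one, C]) (by first | (simp only [mul_assoc, mul_inv_rev, inv_inv, mul_inv_cancel_left, inv_mul_cancel_left, mul_inv_cancel, inv_mul_cancel, mul_one, one_mul, inv_one]; done) | simp only [mul_assoc, mul_inv_rev, inv_inv, mul_inv_cancel_left, inv_mul_cancel_left, mul_inv_cancel, inv_mul_cancel, mul_one, one_mul, inv_one, C]),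
    o.cv hδ (1) (by simp only [hδ, δinv hδ, δone hδ, D] <;> linear_combination (0) * h3) (by first | (simp only [mul_assoc, mul_inv_rev, inv_inv, mul_inv_cancel_left, inv_mul_cancel_left, mul_inv_cancel, inv_mul_cancel, mul_one, one_mul, inv_one]; done) | simp only [mul_assoc, mul_inv_rev, inv_inv, mul_inv_cancel_left, inv_mul_cancel_left, mul_inv_cancel, inv_mul_cancel, mul_one, one_mul, inv_one, C]) (by first | (simp only [mul_assoc, mul_inv_rev, inv_inv, mul_inv_cancel_left, inv_mul_cancel_left, mul_inv_cancel, inv_mul_cancel, mul_one, one_mul, inv_one]; done) | simp only [mul_assoc, mul_inv_rev, inv_inv, mul_inv_cancel_left, inv_mul_cancel_left, mul_inv_cancel, inv_mul_cancel, mul_one, one_mul, inv_one, C]),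
    o.cv hδ (1) (by simp only [hδ, δinv hδ, δone hδ, D] <;> linear_combination (0) * h3) (by first | (simp only [mul_assoc, mul_inv_rev, inv_inv, mul_inv_cancel_left, inv_mul_cancel_left, mul_inv_cancel, inv_mul_cancel, mul_one, one_mul, inv_one]; done) | simp only [mul_assoc, mul_inv_rev, inv_inv, mul_inv_cancel_left, inv_mul_cancel_left, mul_inv_cancel, inv_mul_cancel, mul_one, one_mul, inv_one, C]) (by first | (simp only [mul_assoc, mul_inv_rev, inv_inv, mul_inv_cancel_left, inv_mul_cancel_left, mul_inv_cancel, inv_mul_cancel, mul_one, one_mul, inv_one]; done) | simp only [mul_assoc, mul_inv_rev, inv_inv, mul_inv_cancel_left, inv_mul_cancel_left, mul_inv_cancel, inv_mul_cancel, mul_one, one_mul, inv_one, C]),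
    o.cv hδ (1) (by simp only [hδ, δinv hδ, δone hδ, D] <;> linear_combination (0) * h3) (by first | (simp only [mul_assoc, mul_inv_rev, inv_inv, mul_inv_cancel_left, inv_mul_cancel_left, mul_inv_cancel, inv_mul_cancel, mul_one, one_mul, inv_one]; done) | simp only [mul_assoc, mul_inv_rev, inv_inv, mul_inv_cancel_left, inv_mul_cancel_left, mul_inv_cancel, inv_mul_cancel, mul_one, one_mul, inv_one, C]) (by first | (simp only [mul_assoc, mul_inv_rev, inv_inv, mul_inv_cancel_left, inv_mul_cancel_left, mul_inv_cancel, inv_mul_cancel, mul_one, one_mul, inv_one]; done) | simp only [mul_assoc, mul_inv_rev, inv_inv, mul_inv_cancel_left, inv_mul_cancel_left, mul_inv_cancel, inv_mul_cancel, mul_one, one_mul, inv_one, C]),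
    o.cv hδ (1) (by simp only [hδ, δinv hδ, δone hδ, D] <;> linear_combination (0) * h3) (by first | (simp only [mul_assoc, mul_inv_rev, inv_inv, mul_inv_cancel_left, inv_mul_cancel_left, mul_inv_cancel, inv_mul_cancel, mul_one, one_mul, inv_one]; done) | simp only [mul_assoc, mul_inv_rev, inv_inv, mul_inv_cancel_left, inv_mul_cancel_left, mul_inv_cancel, inv_mul_cancel, mul_one, one_mul, inv_one, C]) (by first | (simp only [mul_assoc, mul_inv_rev, inv_inv, mul_inv_cancel_left, inv_mul_cancel_left, mul_inv_cancel, inv_mul_cancel, mul_one, one_mul, inv_one]; done) | simp only [mul_assoc, mul_inv_rev, inv_inv, mul_inv_cancel_left, inv_mul_cancel_left, mul_inv_cancel, inv_mul_cancel, mul_one, one_mul, inv_one, C]),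
    o.cv hδ (1) (by simp only [hδ, δinv hδ, δone hδ, D] <;> linear_combination (0) * h3) (by first | (simp only [mul_assoc, mul_inv_rev, inv_inv, mul_inv_cancel_left, inv_mul_cancel_left, mul_inv_cancel, inv_mul_cancel, mul_one, one_mul, inv_one]; done) | simp only [mul_assoc, mul_inv_rev, inv_inv, mul_inv_cancel_left, inv_mul_cancel_left, mul_inv_cancel, inv_mul_cancel, mul_one, one_mul, inv_one, C]) (by first | (simp only [mul_assoc, mul_inv_rev, inv_inv, mul_inv_cancel_left, inv_mul_cancel_left, mul_inv_cancel, inv_mul_cancel, mul_one, one_mul, inv_one]; done) | simp only [mul_assoc, mul_inv_rev, inv_inv, mul_inv_cancel_left, inv_mul_cancel_left, mul_inv_cancel, inv_mul_cancel, mul_one, one_mul, inv_one, C]),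
    o.cv hδ (1) (by simp only [hδ, δinv hδ, δone hδ, D] <;> linear_combination (0) * h3) (by first | (simp only [mul_assoc, mul_inv_rev, inv_inv, mul_inv_cancel_left, inv_mul_cancel_left, mul_inv_cancel, inv_mul_cancel, mul_one, one_mul, inv_one]; done) | simp only [mul_assoc, mul_inv_rev, inv_inv, mul_inv_cancel_left, inv_mul_cancel_left, mul_inv_cancel, inv_mul_cancel, mul_one, one_mul, inv_one, C]) (by first | (simp only [mul_assoc, mul_inv_rev, inv_inv, mul_inv_cancel_left, inv_mul_cancel_left, mul_inv_cancel, inv_mul_cancel, mul_one, one_mul, inv_one]; done) | simp only [mul_assoc, mul_inv_rev, inv_inv, mul_inv_cancel_left, inv_mul_cancel_left, mul_inv_cancel, inv_mul_cancel, mul_one, one_mul, inv_one, C]),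
    o.cv hδ (1) (by simp only [hδ, δinv hδ, δone hδ, D] <;> linear_combination (0) * h3) (by first | (simp only [mul_assoc, mul_inv_rev, inv_inv, mul_inv_cancel_left, inv_mul_cancel_left, mul_inv_cancel, inv_mul_cancel, mul_one, one_mul, inv_one]; done) | simp only [mul_assoc, mul_inv_rev, inv_inv, mul_inv_cancel_left, inv_mul_cancel_left, mul_inv_cancel, inv_mul_cancel, mul_one, one_mul, inv_one, C]) (by first | (simp only [mul_assoc, mul_inv_rev, inv_inv, mul_inv_cancel_left, inv_mul_cancel_left, mul_inv_cancel, inv_mul_cancel, mul_one, one_mul, inv_one]; done) | simp only [mul_assoc, mul_inv_rev, inv_inv, mul_inv_cancel_left, inv_mul_cancel_left, mul_inv_cancel, inv_mul_cancel, mul_one, one_mul, inv_one, C]),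
    o.cv hδ (1) (by simp only [hδ, δinv hδ, δone hδ, D] <;> linear_combination (0) * h3) (by first | (simp only [mul_assoc, mul_inv_rev, inv_inv, mul_inv_cancel_left, inv_mul_cancel_left, mul_inv_cancel, inv_mul_cancel, mul_one, one_mul, inv_one]; done) | simp only [mul_assoc, mul_inv_rev, inv_inv, mul_inv_cancel_left, inv_mul_cancel_left, mul_inv_cancel, inv_mul_cancel, mul_one, one_mul, inv_one, C]) (by first | (simp only [mul_assoc, mul_inv_rev, inv_inv, mul_inv_cancel_left, inv_mul_cancel_left, mul_inv_cancel, inv_mul_cancel, mul_one, one_mul, inv_one]; done) | simp only [mul_assoc, mul_inv_rev, inv_inv, mul_inv_cancel_left, inv_mul_cancel_left, mul_inv_cancel, inv_mul_cancel, mul_one, one_mul, inv_one, C]),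
    o.cv hδ (1) (by simp only [hδ, δinv hδ, δone hδ, D] <;> linear_combination (0) * h3) (by first | (simp only [mul_assoc, mul_inv_rev, inv_inv, mul_inv_cancel_left, inv_mul_cancel_left, mul_inv_cancel, inv_mul_cancel, mul_one, one_mul, inv_one]; done) | simp only [mul_assoc, mul_inv_rev, inv_inv, mul_inv_cancel_left, inv_mul_cancel_left, mul_inv_cancel, inv_mul_cancel, mul_one, one_mul, inv_one, C]) (by first | (simp only [mul_assoc, mul_inv_rev, inv_inv, mul_inv_cancel_left, inv_mul_cancel_left, mul_inv_cancel, inv_mul_cancel, mul_one, one_mul, inv_one]; done) | simp only [mul_assoc, mul_inv_rev, inv_inv, mul_inv_cancel_left, inv_mul_cancel_left, mul_inv_cancel, inv_mul_cancel, mul_one, one_mul, inv_one, C]),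
    o.cv hδ (1) (by simp only [hδ, δinv hδ, δone hδ, D] <;> linear_combination (0) * h3) (by first | (simp only [mul_assoc, mul_inv_rev, inv_inv, mul_inv_cancel_left, inv_mul_cancel_left, mul_inv_cancel, inv_mul_cancel, mul_one, one_mul, inv_one]; done) | simp only [mul_assoc, mul_inv_rev, inv_inv, mul_inv_cancel_left, inv_mul_cancel_left, mul_inv_cancel, inv_mul_cancel, mul_one, one_mul, inv_one, C]) (by first | (simp only [mul_assoc, mul_inv_rev, inv_inv, mul_inv_cancel_left, inv_mul_cancel_left, mul_inv_cancel, inv_mul_cancel, mul_one, one_mul, inv_one]; done) | simp only [mul_assoc, mul_inv_rev, inv_inv, mul_inv_cancel_left, inv_mul_cancel_left, mul_inv_cancel, inv_mul_cancel, mul_one, one_mul, inv_one, C]),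
    o.cv hδ (1) (by simp only [hδ, δinv hδ, δone hδ, D] <;> linear_combination (0) * h3) (by first | (simp only [mul_assoc, mul_inv_rev, inv_inv, mul_inv_cancel_left, inv_mul_cancel_left, mul_inv_cancel, inv_mul_cancel, mul_one, one_mul, inv_one]; done) | simp only [mul_assoc, mul_inv_rev, inv_inv, mul_inv_cancel_left, inv_mul_cancel_left, mul_inv_cancel, inv_mul_cancel, mul_one, one_mul, inv_one, C]) (by first | (simp only [mul_assoc, mul_inv_rev, inv_inv, mul_inv_cancel_left, inv_mul_cancel_left, mul_inv_cancel, inv_mul_cancel, mul_one, one_mul, inv_one]; done) | simp only [mul_assoc, mul_inv_rev, inv_inv, mul_inv_cancel_left, inv_mul_cancel_left, mul_inv_cancel, inv_mul_cancel, mul_one, one_mul, inv_one, C]),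
    o.cv hδ (1) (by simp only [hδ, δinv hδ, δone hδ, D] <;> linear_combination (0) * h3) (by first | (simp only [mul_assoc, mul_inv_rev, inv_inv, mul_inv_cancel_left, inv_mul_cancel_left, mul_inv_cancel, inv_mul_cancel, mul_one, one_mul, inv_one]; done) | simp only [mul_assoc, mul_inv_rev, inv_inv, mul_inv_cancel_left, inv_mul_cancel_left, mul_inv_cancel, inv_mul_cancel, mul_one, one_mul, inv_one, C]) (by first | (simp only [mul_assoc, mul_inv_rev, inv_inv, mul_inv_cancel_left, inv_mul_cancel_left, mul_inv_cancel, inv_mul_cancel, mul_one, one_mul, inv_one]; done) | simp only [mul_assoc, mul_inv_rev, inv_inv, mul_inv_cancel_left, inv_mul_cancel_left, mul_inv_cancel, inv_mul_cancel, mul_one, one_mul, inv_one, C]),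
    o.cv hδ (1) (by simp only [hδ, δinv hδ, δone hδ, D] <;> linear_combination (0) * h3) (by first | (simp only [mul_assoc, mul_inv_rev, inv_inv, mul_inv_cancel_left, inv_mul_cancel_left, mul_inv_cancel, inv_mul_cancel, mul_one, one_mul, inv_one]; done) | simp only [mul_assoc, mul_inv_rev, inv_inv, mul_inv_cancel_left, inv_mul_cancel_left, mul_inv_cancel, inv_mul_cancel, mul_one, one_mul, inv_one, C]) (by first | (simp only [mul_assoc, mul_inv_rev, inv_inv, mul_inv_cancel_left, inv_mul_cancel_left, mul_inv_cancel, inv_mul_cancel, mul_one, one_mul, inv_one]; done) | simp only [mul_assoc, mul_inv_rev, inv_inv, mul_inv_cancel_left, inv_mul_cancel_left, mul_inv_cancel, inv_mul_cancel, mul_one, one_mul, inv_one, C]),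
    o.cv hδ (1) (by simp only [hδ, δinv hδ, δone hδ, D] <;> linear_combination (0) * h3) (by first | (simp only [mul_assoc, mul_inv_rev, inv_inv, mul_inv_cancel_left, inv_mul_cancel_left, mul_inv_cancel, inv_mul_cancel, mul_one, one_mul, inv_one]; done) | simp only [mul_assoc, mul_inv_rev, inv_inv, mul_inv_cancel_left, inv_mul_cancel_left, mul_inv_cancel, inv_mul_cancel, mul_one, one_mul, inv_one, C]) (by first | (simp only [mul_assoc, mul_inv_rev, inv_inv, mul_inv_cancel_left, inv_mul_cancel_left, mul_inv_cancel, inv_mul_cancel, mul_one, one_mul, inv_one]; done) | simp only [mul_assoc, mul_inv_rev, inv_inv, mul_inv_cancel_left, inv_mul_cancel_left, mul_inv_cancel, inv_mul_cancel, mul_one, one_mul, inv_one, C]),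
    o.cv hδ (1) (by simp only [hδ, δinv hδ, δone hδ, D] <;> linear_combination (0) * h3) (by first | (simp only [mul_assoc, mul_inv_rev, inv_inv, mul_inv_cancel_left, inv_mul_cancel_left, mul_inv_cancel, inv_mul_cancel, mul_one, one_mul, inv_one]; done) | simp only [mul_assoc, mul_inv_rev, inv_inv, mul_inv_cancel_left, inv_mul_cancel_left, mul_inv_cancel, inv_mul_cancel, mul_one, one_mul, inv_one, C]) (by first | (simp only [mul_assoc, mul_inv_rev, inv_inv, mul_inv_cancel_left, inv_mul_cancel_left, mul_inv_cancel, inv_mul_cancel, mul_one, one_mul, inv_one]; done) | simp only [mul_assoc, mul_inv_rev, inv_inv, mul_inv_cancel_left, inv_mul_cancel_left, mul_inv_cancel, inv_mul_cancel, mul_one, one_mul, inv_one, C]),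
    o.cv hδ (1) (by simp only [hδ, δinv hδ, δone hδ, D] <;> linear_combination (0) * h3) (by first | (simp only [mul_assoc, mul_inv_rev, inv_inv, mul_inv_cancel_left, inv_mul_cancel_left, mul_inv_cancel, inv_mul_cancel, mul_one, one_mul, inv_one]; done) | simp only [mul_assoc, mul_inv_rev, inv_inv, mul_inv_cancel_left, inv_mul_cancel_left, mul_inv_cancel, inv_mul_cancel, mul_one, one_mul, inv_one, C]) (by first | (simp only [mul_assoc, mul_inv_rev, inv_inv, mul_inv_cancel_left, inv_mul_cancel_left, mul_inv_cancel, inv_mul_cancel, mul_one, one_mul, inv_one]; done) | simp only [mul_assoc, mul_inv_rev, inv_inv, mul_inv_cancel_left, inv_mul_cancel_left, mul_inv_cancel, inv_mul_cancel, mul_one, one_mul, inv_one, C])⟩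

theorem close_AAAAA_k3 {G : Type*} [Group G] {δ : G → ZMod 3} (hδ : ∀ u v, δ (u * v) = δ u + δ v) (o : Pre δ)
    {P Q f0 f1 f2 f3 f4 : G} {e : ZMod 3} (h3 : 3 * e = 0)
    (D : δ P = e ∧ δ Q = -e ∧ δ f0 = 0 ∧ δ f1 = 0 ∧ δ f2 = 0 ∧ δ f3 = 0 ∧ δ f4 = 0)
    (C : Cube P f0 ∧ Cube P f1 ∧ Cube Q f0 ∧ Cube Q f1 ∧ Cube P f2 ∧ Cube Q f2 ∧ Cube P f3 ∧ Cube Q f3 ∧ Cube P f4 ∧ Cube Q f4) :
    (o.lt (f0 * Q⁻¹) (P * f4⁻¹) ↔ o.lt (1 * (f0 * Q⁻¹)) (1 * (P * f4⁻¹))) ∧
    (o.lt (Q * f0⁻¹) (f0 * P⁻¹) ↔ o.lt (1 * (f0 * Q⁻¹)⁻¹) (1 * (P * f0⁻¹)⁻¹)) ∧
    (o.lt (f4 * Q⁻¹) (f0 * Q⁻¹) ↔ o.lt (1 * (f4 * Q⁻¹)) (1 * (f0 * Q⁻¹))) ∧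
    (o.lt (P * f0⁻¹) (P * f1⁻¹) ↔ o.lt ((P * f0⁻¹) * (f1 * P⁻¹)) ((P * f0⁻¹) * (f0 * P⁻¹))) ∧
    (o.lt (P * f0⁻¹) (f1 * Q⁻¹) ↔ o.lt ((P * f0⁻¹) * (Q * f1⁻¹)) ((P * f0⁻¹) * (f0 * P⁻¹))) ∧
    (o.lt (f0 * P⁻¹) (P * Q⁻¹) ↔ o.lt ((P * f0⁻¹) * (f0 * P⁻¹)⁻¹) ((P * f0⁻¹) * (Q * f0⁻¹)⁻¹)) ∧
    (o.lt (f0 * (P⁻¹ * (f0 * f1⁻¹))) (f0 * P⁻¹) ↔ o.lt ((P * f0⁻¹) * (P * f1⁻¹)) ((P * f0⁻¹) * (P * f0⁻¹))) ∧
    (o.lt (f0 * P⁻¹) (P * (f0⁻¹ * (f1 * Q⁻¹))) ↔ o.lt ((P * f0⁻¹) * (P * f0⁻¹)) ((P * f0⁻¹) * (f1 * Q⁻¹))) ∧
    (o.lt (P * (f0⁻¹ * (f1 * P⁻¹))) (P * (f0⁻¹ * (Q * f1⁻¹))) ↔ o.lt ((P * f0⁻¹) * (P * f1⁻¹)⁻¹) ((P * f0⁻¹) * (f1 * Q⁻¹)⁻¹)) ∧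
    (o.lt (P * f0⁻¹) (P * f1⁻¹) ↔ o.lt ((P * f0⁻¹) * (f1 * Q⁻¹)) ((P * f0⁻¹) * (f0 * Q⁻¹))) ∧
    (o.lt (P * (f0⁻¹ * (f1 * Q⁻¹))) (f0 * P⁻¹) ↔ o.lt ((P * f0⁻¹) * (f1 * Q⁻¹)) ((P * f0⁻¹) * (P * f0⁻¹))) ∧
    (o.lt (P * (f0⁻¹ * (f2 * P⁻¹))) (P * (f0⁻¹ * (f1 * P⁻¹))) ↔ o.lt ((P * f0⁻¹) * (f2 * P⁻¹)) ((P * f0⁻¹) * (f1 * P⁻¹))) ∧
    (o.lt (P * (f0⁻¹ * (Q * f2⁻¹))) (P * (f0⁻¹ * (f1 * P⁻¹))) ↔ o.lt ((P * f0⁻¹) * (Q * f2⁻¹)) ((P * f0⁻¹) * (f1 * P⁻¹))) ∧
    (o.lt (f0 * (P⁻¹ * (f0 * f1⁻¹))) (P * (f0⁻¹ * (f1 * Q⁻¹))) ↔ o.lt ((P * f0⁻¹) * (f1 * P⁻¹)⁻¹) ((P * f0⁻¹) * (Q * f1⁻¹)⁻¹)) ∧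
    (o.lt (P * (f0⁻¹ * (Q * f1⁻¹))) (P * (f0⁻¹ * (Q * f2⁻¹))) ↔ o.lt ((P * f0⁻¹) * (Q * f1⁻¹)) ((P * f0⁻¹) * (Q * f2⁻¹))) ∧
    (o.lt (P * (f0⁻¹ * (f1 * Q⁻¹))) (f0 * (P⁻¹ * (f0 * f1⁻¹))) ↔ o.lt ((P * f0⁻¹) * (Q * f1⁻¹)⁻¹) ((P * f0⁻¹) * (f1 * P⁻¹)⁻¹)) ∧
    (o.lt (f0 * (P⁻¹ * (f0 * f3⁻¹))) (f0 * (P⁻¹ * (f0 * f2⁻¹))) ↔ o.lt ((P * f0⁻¹) * (P * f3⁻¹)) ((P * f0⁻¹) * (P * f2⁻¹))) ∧
    (o.lt (f0 * (P⁻¹ * (f0 * f2⁻¹))) (P * (f0⁻¹ * (f3 * Q⁻¹))) ↔ o.lt ((P * f0⁻¹) * (P * f2⁻¹)) ((P * f0⁻¹) * (f3 * Q⁻¹))) ∧
    (o.lt (P * (f0⁻¹ * (f3 * P⁻¹))) (P * (f0⁻¹ * (Q * f3⁻¹))) ↔ o.lt ((P * f0⁻¹) * (P * f3⁻¹)⁻¹) ((P * f0⁻¹) * (f3 * Q⁻¹)⁻¹)) ∧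
    (o.lt (P * (f0⁻¹ * (f3 * P⁻¹))) (P * (f0⁻¹ * (f4 * P⁻¹))) ↔ o.lt ((P * f0⁻¹) * (f3 * P⁻¹)) ((P * f0⁻¹) * (f4 * P⁻¹))) := by
  have C' := C
  obtain ⟨C0, C1, C2, C3, C4, C5, C6, C7, C8, C9⟩ := C'
  simp only [Cube] at C C0 C1 C2 C3 C4 C5 C6 C7 C8 C9
  exact ⟨o.cv hδ (1) (by simp only [hδ, δinv hδ, δone hδ, D] <;> linear_combination (0) * h3) (by first | (simp only [mul_assoc, mul_inv_rev, inv_inv, mul_inv_cancel_left, inv_mul_cancel_left, mul_inv_cancel, inv_mul_cancel, mul_one, one_mul, inv_one]; done) | simp only [mul_assoc, mul_inv_rev, inv_inv, mul_inv_cancel_left, inv_mul_cancel_left, mul_inv_cancel, inv_mul_cancel, mul_one, one_mul, inv_one, C]) (by first | (simp only [mul_assoc, mul_inv_rev, inv_inv, mul_inv_cancel_left, inv_mul_cancel_left, mul_inv_cancel, inv_mul_cancel, mul_one, one_mul, inv_one]; done) | simp only [mul_assoc, mul_inv_rev, inv_inv, mul_inv_cancel_left, inv_mul_cancel_left, mul_inv_cancel, inv_mul_cancel, mul_one, one_mul, inv_one, C]),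
    o.cv hδ (1) (by simp only [hδ, δinv hδ, δone hδ, D] <;> linear_combination (0) * h3) (by first | (simp only [mul_assoc, mul_inv_rev, inv_inv, mul_inv_cancel_left, inv_mul_cancel_left, mul_inv_cancel, inv_mul_cancel, mul_one, one_mul, inv_one]; done) | simp only [mul_assoc, mul_inv_rev, inv_inv, mul_inv_cancel_left, inv_mul_cancel_left, mul_inv_cancel, inv_mul_cancel, mul_one, one_mul, inv_one, C]) (by first | (simp only [mul_assoc, mul_inv_rev, inv_inv, mul_inv_cancel_left, inv_mul_cancel_left, mul_inv_cancel, inv_mul_cancel, mul_one, one_mul, inv_one]; done) | simp only [mul_assoc, mul_inv_rev, inv_inv, mul_inv_cancel_left, inv_mul_cancel_left, mul_inv_cancel, inv_mul_cancel, mul_one, one_mul, inv_one, C]),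
    o.cv hδ (1) (by simp only [hδ, δinv hδ, δone hδ, D] <;> linear_combination (0) * h3) (by first | (simp only [mul_assoc, mul_inv_rev, inv_inv, mul_inv_cancel_left, inv_mul_cancel_left, mul_inv_cancel, inv_mul_cancel, mul_one, one_mul, inv_one]; done) | simp only [mul_assoc, mul_inv_rev, inv_inv, mul_inv_cancel_left, inv_mul_cancel_left, mul_inv_cancel, inv_mul_cancel, mul_one, one_mul, inv_one, C]) (by first | (simp only [mul_assoc, mul_inv_rev, inv_inv, mul_inv_cancel_left, inv_mul_cancel_left, mul_inv_cancel, inv_mul_cancel, mul_one, one_mul, inv_one]; done) | simp only [mul_assoc, mul_inv_rev, inv_inv, mul_inv_cancel_left, inv_mul_cancel_left, mul_inv_cancel, inv_mul_cancel, mul_one, one_mul, inv_one, C]),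
    o.cv hδ (f1 * P⁻¹) (by simp only [hδ, δinv hδ, δone hδ, D] <;> linear_combination (0) * h3) (by first | (simp only [mul_assoc, mul_inv_rev, inv_inv, mul_inv_cancel_left, inv_mul_cancel_left, mul_inv_cancel, inv_mul_cancel, mul_one, one_mul, inv_one]; done) | simp only [mul_assoc, mul_inv_rev, inv_inv, mul_inv_cancel_left, inv_mul_cancel_left, mul_inv_cancel, inv_mul_cancel, mul_one, one_mul, inv_one, C]) (by first | (simp only [mul_assoc, mul_inv_rev, inv_inv, mul_inv_cancel_left, inv_mul_cancel_left, mul_inv_cancel, inv_mul_cancel, mul_one, one_mul, inv_one]; done) | simp only [mul_assoc, mul_inv_rev, inv_inv, mul_inv_cancel_left, inv_mul_cancel_left, mul_inv_cancel, inv_mul_cancel, mul_one, one_mul, inv_one, C]),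
    o.cv hδ (Q * f1⁻¹) (by simp only [hδ, δinv hδ, δone hδ, D] <;> linear_combination (0) * h3) (by first | (simp only [mul_assoc, mul_inv_rev, inv_inv, mul_inv_cancel_left, inv_mul_cancel_left, mul_inv_cancel, inv_mul_cancel, mul_one, one_mul, inv_one]; done) | simp only [mul_assoc, mul_inv_rev, inv_inv, mul_inv_cancel_left, inv_mul_cancel_left, mul_inv_cancel, inv_mul_cancel, mul_one, one_mul, inv_one, C]) (by first | (simp only [mul_assoc, mul_inv_rev, inv_inv, mul_inv_cancel_left, inv_mul_cancel_left, mul_inv_cancel, inv_mul_cancel, mul_one, one_mul, inv_one]; done) | simp only [mul_assoc, mul_inv_rev, inv_inv, mul_inv_cancel_left, inv_mul_cancel_left, mul_inv_cancel, inv_mul_cancel, mul_one, one_mul, inv_one, C]),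
    o.cv hδ (P * (f0⁻¹ * (P * (f0⁻¹ * (P * f0⁻¹))))) (by simp only [hδ, δinv hδ, δone hδ, D] <;> linear_combination (-1) * h3) (by first | (simp only [mul_assoc, mul_inv_rev, inv_inv, mul_inv_cancel_left, inv_mul_cancel_left, mul_inv_cancel, inv_mul_cancel, mul_one, one_mul, inv_one, C0]; done) | simp only [mul_assoc, mul_inv_rev, inv_inv, mul_inv_cancel_left, inv_mul_cancel_left, mul_inv_cancel, inv_mul_cancel, mul_one, one_mul, inv_one, C]) (by first | (simp only [mul_assoc, mul_inv_rev, inv_inv, mul_inv_cancel_left, inv_mul_cancel_left, mul_inv_cancel, inv_mul_cancel, mul_one, one_mul, inv_one, C0]; done) | simp only [mul_assoc, mul_inv_rev, inv_inv, mul_inv_cancel_left, inv_mul_cancel_left, mul_inv_cancel, inv_mul_cancel, mul_one, one_mul, inv_one, C]),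
    o.cv hδ (f1 * (f0⁻¹ * (P * (f0⁻¹ * (P * (f0⁻¹ * (P * f1⁻¹))))))) (by simp only [hδ, δinv hδ, δone hδ, D] <;> linear_combination (0) * h3) (by first | (simp only [mul_assoc, mul_inv_rev, inv_inv, mul_inv_cancel_left, inv_mul_cancel_left, mul_inv_cancel, inv_mul_cancel, mul_one, one_mul, inv_one, C0]; done) | simp only [mul_assoc, mul_inv_rev, inv_inv, mul_inv_cancel_left, inv_mul_cancel_left, mul_inv_cancel, inv_mul_cancel, mul_one, one_mul, inv_one, C]) (by first | (simp only [mul_assoc, mul_inv_rev, inv_inv, mul_inv_cancel_left, inv_mul_cancel_left, mul_inv_cancel, inv_mul_cancel, mul_one, one_mul, inv_one, C0]; done) | simp only [mul_assoc, mul_inv_rev, inv_inv, mul_inv_cancel_left, inv_mul_cancel_left, mul_inv_cancel, inv_mul_cancel, mul_one, one_mul, inv_one, C]),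
    o.cv hδ (P * (f0⁻¹ * (P * (f0⁻¹ * (P * f0⁻¹))))) (by simp only [hδ, δinv hδ, δone hδ, D] <;> linear_combination (-1) * h3) (by first | (simp only [mul_assoc, mul_inv_rev, inv_inv, mul_inv_cancel_left, inv_mul_cancel_left, mul_inv_cancel, inv_mul_cancel, mul_one, one_mul, inv_one, C0]; done) | simp only [mul_assoc, mul_inv_rev, inv_inv, mul_inv_cancel_left, inv_mul_cancel_left, mul_inv_cancel, inv_mul_cancel, mul_one, one_mul, inv_one, C]) (by first | (simp only [mul_assoc, mul_inv_rev, inv_inv, mul_inv_cancel_left, inv_mul_cancel_left, mul_inv_cancel, inv_mul_cancel, mul_one, one_mul, inv_one, C0]; done) | simp only [mul_assoc, mul_inv_rev, inv_inv, mul_inv_cancel_left, inv_mul_cancel_left, mul_inv_cancel, inv_mul_cancel, mul_one, one_mul, inv_one, C]),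
    o.cv hδ (1) (by simp only [hδ, δinv hδ, δone hδ, D] <;> linear_combination (0) * h3) (by first | (simp only [mul_assoc, mul_inv_rev, inv_inv, mul_inv_cancel_left, inv_mul_cancel_left, mul_inv_cancel, inv_mul_cancel, mul_one, one_mul, inv_one]; done) | simp only [mul_assoc, mul_inv_rev, inv_inv, mul_inv_cancel_left, inv_mul_cancel_left, mul_inv_cancel, inv_mul_cancel, mul_one, one_mul, inv_one, C]) (by first | (simp only [mul_assoc, mul_inv_rev, inv_inv, mul_inv_cancel_left, inv_mul_cancel_left, mul_inv_cancel, inv_mul_cancel, mul_one, one_mul, inv_one]; done) | simp only [mul_assoc, mul_inv_rev, inv_inv, mul_inv_cancel_left, inv_mul_cancel_left, mul_inv_cancel, inv_mul_cancel, mul_one, one_mul, inv_one, C]),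
    o.cv hδ (f1 * Q⁻¹) (by simp only [hδ, δinv hδ, δone hδ, D] <;> linear_combination (0) * h3) (by first | (simp only [mul_assoc, mul_inv_rev, inv_inv, mul_inv_cancel_left, inv_mul_cancel_left, mul_inv_cancel, inv_mul_cancel, mul_one, one_mul, inv_one]; done) | simp only [mul_assoc, mul_inv_rev, inv_inv, mul_inv_cancel_left, inv_mul_cancel_left, mul_inv_cancel, inv_mul_cancel, mul_one, one_mul, inv_one, C]) (by first | (simp only [mul_assoc, mul_inv_rev, inv_inv, mul_inv_cancel_left, inv_mul_cancel_left, mul_inv_cancel, inv_mul_cancel, mul_one, one_mul, inv_one]; done) | simp only [mul_assoc, mul_inv_rev, inv_inv, mul_inv_cancel_left, inv_mul_cancel_left, mul_inv_cancel, inv_mul_cancel, mul_one, one_mul, inv_one, C]),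
    o.cv hδ (1) (by simp only [hδ, δinv hδ, δone hδ, D] <;> linear_combination (1) * h3) (by first | (simp only [mul_assoc, mul_inv_rev, inv_inv, mul_inv_cancel_left, inv_mul_cancel_left, mul_inv_cancel, inv_mul_cancel, mul_one, one_mul, inv_one]; done) | simp only [mul_assoc, mul_inv_rev, inv_inv, mul_inv_cancel_left, inv_mul_cancel_left, mul_inv_cancel, inv_mul_cancel, mul_one, one_mul, inv_one, C]) (by first | (simp only [mul_assoc, mul_inv_rev, inv_inv, mul_inv_cancel_left, inv_mul_cancel_left, mul_inv_cancel, inv_mul_cancel, mul_one, one_mul, inv_one, C0]; done) | simp only [mul_assoc, mul_inv_rev, inv_inv, mul_inv_cancel_left, inv_mul_cancel_left, mul_inv_cancel, inv_mul_cancel, mul_one, one_mul, inv_one, C]),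
    o.cv hδ (1) (by simp only [hδ, δinv hδ, δone hδ, D] <;> linear_combination (0) * h3) (by first | (simp only [mul_assoc, mul_inv_rev, inv_inv, mul_inv_cancel_left, inv_mul_cancel_left, mul_inv_cancel, inv_mul_cancel, mul_one, one_mul, inv_one]; done) | simp only [mul_assoc, mul_inv_rev, inv_inv, mul_inv_cancel_left, inv_mul_cancel_left, mul_inv_cancel, inv_mul_cancel, mul_one, one_mul, inv_one, C]) (by first | (simp only [mul_assoc, mul_inv_rev, inv_inv, mul_inv_cancel_left, inv_mul_cancel_left, mul_inv_cancel, inv_mul_cancel, mul_one, one_mul, inv_one]; done) | simp only [mul_assoc, mul_inv_rev, inv_inv, mul_inv_cancel_left, inv_mul_cancel_left, mul_inv_cancel, inv_mul_cancel, mul_one, one_mul, inv_one, C]),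
    o.cv hδ (1) (by simp only [hδ, δinv hδ, δone hδ, D] <;> linear_combination (0) * h3) (by first | (simp only [mul_assoc, mul_inv_rev, inv_inv, mul_inv_cancel_left, inv_mul_cancel_left, mul_inv_cancel, inv_mul_cancel, mul_one, one_mul, inv_one]; done) | simp only [mul_assoc, mul_inv_rev, inv_inv, mul_inv_cancel_left, inv_mul_cancel_left, mul_inv_cancel, inv_mul_cancel, mul_one, one_mul, inv_one, C]) (by first | (simp only [mul_assoc, mul_inv_rev, inv_inv, mul_inv_cancel_left, inv_mul_cancel_left, mul_inv_cancel, inv_mul_cancel, mul_one, one_mul, inv_one]; done) | simp only [mul_assoc, mul_inv_rev, inv_inv, mul_inv_cancel_left, inv_mul_cancel_left, mul_inv_cancel, inv_mul_cancel, mul_one, one_mul, inv_one, C]),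
    o.cv hδ (f1 * (f0⁻¹ * (P * (f0⁻¹ * (P * (f0⁻¹ * (P * f1⁻¹))))))) (by simp only [hδ, δinv hδ, δone hδ, D] <;> linear_combination (-1) * h3) (by first | (simp only [mul_assoc, mul_inv_rev, inv_inv, mul_inv_cancel_left, inv_mul_cancel_left, mul_inv_cancel, inv_mul_cancel, mul_one, one_mul, inv_one, C0]; done) | simp only [mul_assoc, mul_inv_rev, inv_inv, mul_inv_cancel_left, inv_mul_cancel_left, mul_inv_cancel, inv_mul_cancel, mul_one, one_mul, inv_one, C]) (by first | (simp only [mul_assoc, mul_inv_rev, inv_inv, mul_inv_cancel_left, inv_mul_cancel_left, mul_inv_cancel, inv_mul_cancel, mul_one, one_mul, inv_one, C0]; done) | simp only [mul_assoc, mul_inv_rev, inv_inv, mul_inv_cancel_left, inv_mul_cancel_left, mul_inv_cancel, inv_mul_cancel, mul_one, one_mul, inv_one, C]),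
    o.cv hδ (1) (by simp only [hδ, δinv hδ, δone hδ, D] <;> linear_combination (0) * h3) (by first | (simp only [mul_assoc, mul_inv_rev, inv_inv, mul_inv_cancel_left, inv_mul_cancel_left, mul_inv_cancel, inv_mul_cancel, mul_one, one_mul, inv_one]; done) | simp only [mul_assoc, mul_inv_rev, inv_inv, mul_inv_cancel_left, inv_mul_cancel_left, mul_inv_cancel, inv_mul_cancel, mul_one, one_mul, inv_one, C]) (by first | (simp only [mul_assoc, mul_inv_rev, inv_inv, mul_inv_cancel_left, inv_mul_cancel_left, mul_inv_cancel, inv_mul_cancel, mul_one, one_mul, inv_one]; done) | simp only [mul_assoc, mul_inv_rev, inv_inv, mul_inv_cancel_left, inv_mul_cancel_left, mul_inv_cancel, inv_mul_cancel, mul_one, one_mul, inv_one, C]),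
    o.cv hδ (1) (by simp only [hδ, δinv hδ, δone hδ, D] <;> linear_combination (1) * h3) (by first | (simp only [mul_assoc, mul_inv_rev, inv_inv, mul_inv_cancel_left, inv_mul_cancel_left, mul_inv_cancel, inv_mul_cancel, mul_one, one_mul, inv_one]; done) | simp only [mul_assoc, mul_inv_rev, inv_inv, mul_inv_cancel_left, inv_mul_cancel_left, mul_inv_cancel, inv_mul_cancel, mul_one, one_mul, inv_one, C]) (by first | (simp only [mul_assoc, mul_inv_rev, inv_inv, mul_inv_cancel_left, inv_mul_cancel_left, mul_inv_cancel, inv_mul_cancel, mul_one, one_mul, inv_one, C0]; done) | simp only [mul_assoc, mul_inv_rev, inv_inv, mul_inv_cancel_left, inv_mul_cancel_left, mul_inv_cancel, inv_mul_cancel, mul_one, one_mul, inv_one, C]),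
    o.cv hδ (f3 * (f0⁻¹ * (P * (f0⁻¹ * (P * (f0⁻¹ * (P * f3⁻¹))))))) (by simp only [hδ, δinv hδ, δone hδ, D] <;> linear_combination (0) * h3) (by first | (simp only [mul_assoc, mul_inv_rev, inv_inv, mul_inv_cancel_left, inv_mul_cancel_left, mul_inv_cancel, inv_mul_cancel, mul_one, one_mul, inv_one, C0]; done) | simp only [mul_assoc, mul_inv_rev, inv_inv, mul_inv_cancel_left, inv_mul_cancel_left, mul_inv_cancel, inv_mul_cancel, mul_one, one_mul, inv_one, C]) (by first | (simp only [mul_assoc, mul_inv_rev, inv_inv, mul_inv_cancel_left, inv_mul_cancel_left, mul_inv_cancel, inv_mul_cancel, mul_one, one_mul, inv_one, C0]; done) | simp only [mul_assoc, mul_inv_rev, inv_inv, mul_inv_cancel_left, inv_mul_cancel_left, mul_inv_cancel, inv_mul_cancel, mul_one, one_mul, inv_one, C]),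
    o.cv hδ (f2 * (f0⁻¹ * (P * (f0⁻¹ * (P * (f0⁻¹ * (P * f2⁻¹))))))) (by simp only [hδ, δinv hδ, δone hδ, D] <;> linear_combination (-1) * h3) (by first | (simp only [mul_assoc, mul_inv_rev, inv_inv, mul_inv_cancel_left, inv_mul_cancel_left, mul_inv_cancel, inv_mul_cancel, mul_one, one_mul, inv_one, C0]; done) | simp only [mul_assoc, mul_inv_rev, inv_inv, mul_inv_cancel_left, inv_mul_cancel_left, mul_inv_cancel, inv_mul_cancel, mul_one, one_mul, inv_one, C]) (by first | (simp only [mul_assoc, mul_inv_rev, inv_inv, mul_inv_cancel_left, inv_mul_cancel_left, mul_inv_cancel, inv_mul_cancel, mul_one, one_mul, inv_one, C0]; done) | simp only [mul_assoc, mul_inv_rev, inv_inv, mul_inv_cancel_left, inv_mul_cancel_left, mul_inv_cancel, inv_mul_cancel, mul_one, one_mul, inv_one, C]),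
    o.cv hδ (1) (by simp only [hδ, δinv hδ, δone hδ, D] <;> linear_combination (0) * h3) (by first | (simp only [mul_assoc, mul_inv_rev, inv_inv, mul_inv_cancel_left, inv_mul_cancel_left, mul_inv_cancel, inv_mul_cancel, mul_one, one_mul, inv_one]; done) | simp only [mul_assoc, mul_inv_rev, inv_inv, mul_inv_cancel_left, inv_mul_cancel_left, mul_inv_cancel, inv_mul_cancel, mul_one, one_mul, inv_one, C]) (by first | (simp only [mul_assoc, mul_inv_rev, inv_inv, mul_inv_cancel_left, inv_mul_cancel_left, mul_inv_cancel, inv_mul_cancel, mul_one, one_mul, inv_one]; done) | simp only [mul_assoc, mul_inv_rev, inv_inv, mul_inv_cancel_left, inv_mul_cancel_left, mul_inv_cancel, inv_mul_cancel, mul_one, one_mul, inv_one, C]),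
    o.cv hδ (1) (by simp only [hδ, δinv hδ, δone hδ, D] <;> linear_combination (0) * h3) (by first | (simp only [mul_assoc, mul_inv_rev, inv_inv, mul_inv_cancel_left, inv_mul_cancel_left, mul_inv_cancel, inv_mul_cancel, mul_one, one_mul, inv_one]; done) | simp only [mul_assoc, mul_inv_rev, inv_inv, mul_inv_cancel_left, inv_mul_cancel_left, mul_inv_cancel, inv_mul_cancel, mul_one, one_mul, inv_one, C]) (by first | (simp only [mul_assoc, mul_inv_rev, inv_inv, mul_inv_cancel_left, inv_mul_cancel_left, mul_inv_cancel, inv_mul_cancel, mul_one, one_mul, inv_one]; done) | simp only [mul_assoc, mul_inv_rev, inv_inv, mul_inv_cancel_left, inv_mul_cancel_left, mul_inv_cancel, inv_mul_cancel, mul_one, one_mul, inv_one, C])⟩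

theorem close_AAAAA_k4 {G : Type*} [Group G] {δ : G → ZMod 3} (hδ : ∀ u v, δ (u * v) = δ u + δ v) (o : Pre δ)
    {P Q f0 f1 f2 f3 f4 : G} {e : ZMod 3} (h3 : 3 * e = 0)
    (D : δ P = e ∧ δ Q = -e ∧ δ f0 = 0 ∧ δ f1 = 0 ∧ δ f2 = 0 ∧ δ f3 = 0 ∧ δ f4 = 0)
    (C : Cube P f0 ∧ Cube P f1 ∧ Cube Q f0 ∧ Cube Q f1 ∧ Cube P f2 ∧ Cube Q f2 ∧ Cube P f3 ∧ Cube Q f3 ∧ Cube P f4 ∧ Cube Q f4) :
    (o.lt (P * (f0⁻¹ * (f3 * P⁻¹))) (P * (f0⁻¹ * (Q * f4⁻¹))) ↔ o.lt ((P * f0⁻¹) * (f3 * P⁻¹)) ((P * f0⁻¹) * (Q * f4⁻¹))) ∧
    (o.lt (P * (f0⁻¹ * (f3 * Q⁻¹))) (f0 * (P⁻¹ * (f0 * f3⁻¹))) ↔ o.lt ((P * f0⁻¹) * (Q * f3⁻¹)⁻¹) ((P * f0⁻¹) * (f3 * P⁻¹)⁻¹)) ∧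
    (o.lt (P * (f0⁻¹ * (Q * f4⁻¹))) (P * (f0⁻¹ * (Q * f3⁻¹))) ↔ o.lt ((P * f0⁻¹) * (Q * f4⁻¹)) ((P * f0⁻¹) * (Q * f3⁻¹))) ∧
    (o.lt (f0 * (P⁻¹ * (f0 * f3⁻¹))) (P * (f0⁻¹ * (f3 * Q⁻¹))) ↔ o.lt ((P * f0⁻¹) * (f3 * P⁻¹)⁻¹) ((P * f0⁻¹) * (Q * f3⁻¹)⁻¹)) ∧
    (o.lt (f0 * (P⁻¹ * (f0 * f4⁻¹))) (f0 * P⁻¹) ↔ o.lt ((P * f0⁻¹) * (P * f4⁻¹)) ((P * f0⁻¹) * (P * f0⁻¹))) ∧
    (o.lt (P * Q⁻¹) (f0 * (P⁻¹ * (f0 * f4⁻¹))) ↔ o.lt ((P * f0⁻¹) * (f0 * Q⁻¹)) ((P * f0⁻¹) * (P * f4⁻¹))) ∧
    (o.lt (P * f0⁻¹) (f0 * Q⁻¹) ↔ o.lt ((P * f0⁻¹) * (f0 * Q⁻¹)⁻¹) ((P * f0⁻¹) * (P * f0⁻¹)⁻¹)) ∧
    (o.lt (f1 * P⁻¹) (f2 * P⁻¹) ↔ o.lt ((f2 * P⁻¹) * (P * f2⁻¹)) ((f2 * P⁻¹) * (P * f1⁻¹))) ∧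
    (o.lt (f2 * f1⁻¹) (f2 * (P⁻¹ * (f2 * Q⁻¹))) ↔ o.lt ((f2 * P⁻¹) * (P * f1⁻¹)) ((f2 * P⁻¹) * (f2 * Q⁻¹))) ∧
    (o.lt (P * f2⁻¹) (f2 * (P⁻¹ * (Q * f2⁻¹))) ↔ o.lt ((f2 * P⁻¹) * (P * f2⁻¹)⁻¹) ((f2 * P⁻¹) * (f2 * Q⁻¹)⁻¹)) ∧
    (o.lt (f2 * (P⁻¹ * (f1 * Q⁻¹))) (f2 * (P⁻¹ * (f2 * Q⁻¹))) ↔ o.lt ((f2 * P⁻¹) * (f1 * Q⁻¹)) ((f2 * P⁻¹) * (f2 * Q⁻¹))) ∧
    (o.lt (f2 * (P⁻¹ * (Q * f2⁻¹))) (P * f2⁻¹) ↔ o.lt ((f2 * P⁻¹) * (f2 * Q⁻¹)⁻¹) ((f2 * P⁻¹) * (P * f2⁻¹)⁻¹)) ∧
    (o.lt (f2 * (Q⁻¹ * (P * f1⁻¹))) (f2 * (Q⁻¹ * (P * f0⁻¹))) ↔ o.lt ((f2 * Q⁻¹) * (P * f1⁻¹)) ((f2 * Q⁻¹) * (P * f0⁻¹))) ∧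
    (o.lt (f2 * (Q⁻¹ * (P * f0⁻¹))) (f2 * (Q⁻¹ * (f1 * Q⁻¹))) ↔ o.lt ((f2 * Q⁻¹) * (P * f0⁻¹)) ((f2 * Q⁻¹) * (f1 * Q⁻¹))) ∧
    (o.lt (f2 * (Q⁻¹ * (f1 * P⁻¹))) (f2 * f1⁻¹) ↔ o.lt ((f2 * Q⁻¹) * (P * f1⁻¹)⁻¹) ((f2 * Q⁻¹) * (f1 * Q⁻¹)⁻¹)) ∧
    (o.lt (f2 * (Q⁻¹ * (f2 * P⁻¹))) (f2 * (Q⁻¹ * (f3 * P⁻¹))) ↔ o.lt ((f2 * Q⁻¹) * (f2 * P⁻¹)) ((f2 * Q⁻¹) * (f3 * P⁻¹))) ∧
    (o.lt (f2 * (Q⁻¹ * (f2 * P⁻¹))) (f2 * f3⁻¹) ↔ o.lt ((f2 * Q⁻¹) * (f2 * P⁻¹)) ((f2 * Q⁻¹) * (Q * f3⁻¹))) ∧
    (o.lt (Q * f2⁻¹) (f2 * (Q⁻¹ * (P * f2⁻¹))) ↔ o.lt ((f2 * Q⁻¹) * (Q * f2⁻¹)⁻¹) ((f2 * Q⁻¹) * (f2 * P⁻¹)⁻¹)) ∧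
    (o.lt (f2 * P⁻¹) (f3 * P⁻¹) ↔ o.lt ((f2 * Q⁻¹) * (Q * f3⁻¹)) ((f2 * Q⁻¹) * (Q * f2⁻¹))) ∧
    (o.lt (f2 * (Q⁻¹ * (P * f2⁻¹))) (Q * f2⁻¹) ↔ o.lt ((f2 * Q⁻¹) * (f2 * P⁻¹)⁻¹) ((f2 * Q⁻¹) * (Q * f2⁻¹)⁻¹)) := by
  have C' := C
  obtain ⟨C0, C1, C2, C3, C4, C5, C6, C7, C8, C9⟩ := C'
  simp only [Cube] at C C0 C1 C2 C3 C4 C5 C6 C7 C8 C9
  exact ⟨o.cv hδ (1) (by simp only [hδ, δinv hδ, δone hδ, D] <;> linear_combination (0) * h3) (by first | (simp only [mul_assoc, mul_inv_rev, inv_inv, mul_inv_cancel_left, inv_mul_cancel_left, mul_inv_cancel, inv_mul_cancel, mul_one, one_mul, inv_one]; done) | simp only [mul_assoc, mul_inv_rev, inv_inv, mul_inv_cancel_left, inv_mul_cancel_left, mul_inv_cancel, inv_mul_cancel, mul_one, one_mul, inv_one, C]) (by first | (simp only [mul_assoc, mul_inv_rev, inv_inv, mul_inv_cancel_left, inv_mul_cancel_left, mul_inv_cancel, inv_mul_cancel, mul_one, one_mul, inv_one]; done) | simp only [mul_assoc, mul_inv_rev, inv_inv, mul_inv_cancel_left, inv_mul_cancel_left, mul_inv_cancel, inv_mul_cancel, mul_one, one_mul, inv_one, C]),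
    o.cv hδ (1) (by simp only [hδ, δinv hδ, δone hδ, D] <;> linear_combination (1) * h3) (by first | (simp only [mul_assoc, mul_inv_rev, inv_inv, mul_inv_cancel_left, inv_mul_cancel_left, mul_inv_cancel, inv_mul_cancel, mul_one, one_mul, inv_one]; done) | simp only [mul_assoc, mul_inv_rev, inv_inv, mul_inv_cancel_left, inv_mul_cancel_left, mul_inv_cancel, inv_mul_cancel, mul_one, one_mul, inv_one, C]) (by first | (simp only [mul_assoc, mul_inv_rev, inv_inv, mul_inv_cancel_left, inv_mul_cancel_left, mul_inv_cancel, inv_mul_cancel, mul_one, one_mul, inv_one, C0]; done) | simp only [mul_assoc, mul_inv_rev, inv_inv, mul_inv_cancel_left, inv_mul_cancel_left, mul_inv_cancel, inv_mul_cancel, mul_one, one_mul, inv_one, C]),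
    o.cv hδ (1) (by simp only [hδ, δinv hδ, δone hδ, D] <;> linear_combination (0) * h3) (by first | (simp only [mul_assoc, mul_inv_rev, inv_inv, mul_inv_cancel_left, inv_mul_cancel_left, mul_inv_cancel, inv_mul_cancel, mul_one, one_mul, inv_one]; done) | simp only [mul_assoc, mul_inv_rev, inv_inv, mul_inv_cancel_left, inv_mul_cancel_left, mul_inv_cancel, inv_mul_cancel, mul_one, one_mul, inv_one, C]) (by first | (simp only [mul_assoc, mul_inv_rev, inv_inv, mul_inv_cancel_left, inv_mul_cancel_left, mul_inv_cancel, inv_mul_cancel, mul_one, one_mul, inv_one]; done) | simp only [mul_assoc, mul_inv_rev, inv_inv, mul_inv_cancel_left, inv_mul_cancel_left, mul_inv_cancel, inv_mul_cancel, mul_one, one_mul, inv_one, C]),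
    o.cv hδ (f3 * (f0⁻¹ * (P * (f0⁻¹ * (P * (f0⁻¹ * (P * f3⁻¹))))))) (by simp only [hδ, δinv hδ, δone hδ, D] <;> linear_combination (-1) * h3) (by first | (simp only [mul_assoc, mul_inv_rev, inv_inv, mul_inv_cancel_left, inv_mul_cancel_left, mul_inv_cancel, inv_mul_cancel, mul_one, one_mul, inv_one, C0]; done) | simp only [mul_assoc, mul_inv_rev, inv_inv, mul_inv_cancel_left, inv_mul_cancel_left, mul_inv_cancel, inv_mul_cancel, mul_one, one_mul, inv_one, C]) (by first | (simp only [mul_assoc, mul_inv_rev, inv_inv, mul_inv_cancel_left, inv_mul_cancel_left, mul_inv_cancel, inv_mul_cancel, mul_one, one_mul, inv_one, C0]; done) | simp only [mul_assoc, mul_inv_rev, inv_inv, mul_inv_cancel_left, inv_mul_cancel_left, mul_inv_cancel, inv_mul_cancel, mul_one, one_mul, inv_one, C]),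
    o.cv hδ (f4 * (f0⁻¹ * (P * (f0⁻¹ * (P * (f0⁻¹ * (P * f4⁻¹))))))) (by simp only [hδ, δinv hδ, δone hδ, D] <;> linear_combination (0) * h3) (by first | (simp only [mul_assoc, mul_inv_rev, inv_inv, mul_inv_cancel_left, inv_mul_cancel_left, mul_inv_cancel, inv_mul_cancel, mul_one, one_mul, inv_one, C0]; done) | simp only [mul_assoc, mul_inv_rev, inv_inv, mul_inv_cancel_left, inv_mul_cancel_left, mul_inv_cancel, inv_mul_cancel, mul_one, one_mul, inv_one, C]) (by first | (simp only [mul_assoc, mul_inv_rev, inv_inv, mul_inv_cancel_left, inv_mul_cancel_left, mul_inv_cancel, inv_mul_cancel, mul_one, one_mul, inv_one, C0]; done) | simp only [mul_assoc, mul_inv_rev, inv_inv, mul_inv_cancel_left, inv_mul_cancel_left, mul_inv_cancel, inv_mul_cancel, mul_one, one_mul, inv_one, C]),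
    o.cv hδ (1) (by simp only [hδ, δinv hδ, δone hδ, D] <;> linear_combination (1) * h3) (by first | (simp only [mul_assoc, mul_inv_rev, inv_inv, mul_inv_cancel_left, inv_mul_cancel_left, mul_inv_cancel, inv_mul_cancel, mul_one, one_mul, inv_one]; done) | simp only [mul_assoc, mul_inv_rev, inv_inv, mul_inv_cancel_left, inv_mul_cancel_left, mul_inv_cancel, inv_mul_cancel, mul_one, one_mul, inv_one, C]) (by first | (simp only [mul_assoc, mul_inv_rev, inv_inv, mul_inv_cancel_left, inv_mul_cancel_left, mul_inv_cancel, inv_mul_cancel, mul_one, one_mul, inv_one, C0]; done) | simp only [mul_assoc, mul_inv_rev, inv_inv, mul_inv_cancel_left, inv_mul_cancel_left, mul_inv_cancel, inv_mul_cancel, mul_one, one_mul, inv_one, C]),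
    o.cv hδ (Q * f0⁻¹) (by simp only [hδ, δinv hδ, δone hδ, D] <;> linear_combination (0) * h3) (by first | (simp only [mul_assoc, mul_inv_rev, inv_inv, mul_inv_cancel_left, inv_mul_cancel_left, mul_inv_cancel, inv_mul_cancel, mul_one, one_mul, inv_one, C2]; done) | simp only [mul_assoc, mul_inv_rev, inv_inv, mul_inv_cancel_left, inv_mul_cancel_left, mul_inv_cancel, inv_mul_cancel, mul_one, one_mul, inv_one, C]) (by first | (simp only [mul_assoc, mul_inv_rev, inv_inv, mul_inv_cancel_left, inv_mul_cancel_left, mul_inv_cancel, inv_mul_cancel, mul_one, one_mul, inv_one]; done) | simp only [mul_assoc, mul_inv_rev, inv_inv, mul_inv_cancel_left, inv_mul_cancel_left, mul_inv_cancel, inv_mul_cancel, mul_one, one_mul, inv_one, C]),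
    o.cv hδ (P * f1⁻¹) (by simp only [hδ, δinv hδ, δone hδ, D] <;> linear_combination (0) * h3) (by first | (simp only [mul_assoc, mul_inv_rev, inv_inv, mul_inv_cancel_left, inv_mul_cancel_left, mul_inv_cancel, inv_mul_cancel, mul_one, one_mul, inv_one]; done) | simp only [mul_assoc, mul_inv_rev, inv_inv, mul_inv_cancel_left, inv_mul_cancel_left, mul_inv_cancel, inv_mul_cancel, mul_one, one_mul, inv_one, C]) (by first | (simp only [mul_assoc, mul_inv_rev, inv_inv, mul_inv_cancel_left, inv_mul_cancel_left, mul_inv_cancel, inv_mul_cancel, mul_one, one_mul, inv_one]; done) | simp only [mul_assoc, mul_inv_rev, inv_inv, mul_inv_cancel_left, inv_mul_cancel_left, mul_inv_cancel, inv_mul_cancel, mul_one, one_mul, inv_one, C]),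
    o.cv hδ (1) (by simp only [hδ, δinv hδ, δone hδ, D] <;> linear_combination (0) * h3) (by first | (simp only [mul_assoc, mul_inv_rev, inv_inv, mul_inv_cancel_left, inv_mul_cancel_left, mul_inv_cancel, inv_mul_cancel, mul_one, one_mul, inv_one]; done) | simp only [mul_assoc, mul_inv_rev, inv_inv, mul_inv_cancel_left, inv_mul_cancel_left, mul_inv_cancel, inv_mul_cancel, mul_one, one_mul, inv_one, C]) (by first | (simp only [mul_assoc, mul_inv_rev, inv_inv, mul_inv_cancel_left, inv_mul_cancel_left, mul_inv_cancel, inv_mul_cancel, mul_one, one_mul, inv_one]; done) | simp only [mul_assoc, mul_inv_rev, inv_inv, mul_inv_cancel_left, inv_mul_cancel_left, mul_inv_cancel, inv_mul_cancel, mul_one, one_mul, inv_one, C]),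
    o.cv hδ (f2 * (P⁻¹ * (f2 * (P⁻¹ * (f2 * P⁻¹))))) (by simp only [hδ, δinv hδ, δone hδ, D] <;> linear_combination (1) * h3) (by first | (simp only [mul_assoc, mul_inv_rev, inv_inv, mul_inv_cancel_left, inv_mul_cancel_left, mul_inv_cancel, inv_mul_cancel, mul_one, one_mul, inv_one, C4]; done) | simp only [mul_assoc, mul_inv_rev, inv_inv, mul_inv_cancel_left, inv_mul_cancel_left, mul_inv_cancel, inv_mul_cancel, mul_one, one_mul, inv_one, C]) (by first | (simp only [mul_assoc, mul_inv_rev, inv_inv, mul_inv_cancel_left, inv_mul_cancel_left, mul_inv_cancel, inv_mul_cancel, mul_one, one_mul, inv_one, C4]; done) | simp only [mul_assoc, mul_inv_rev, inv_inv, mul_inv_cancel_left, inv_mul_cancel_left, mul_inv_cancel, inv_mul_cancel, mul_one, one_mul, inv_one, C]),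
    o.cv hδ (1) (by simp only [hδ, δinv hδ, δone hδ, D] <;> linear_combination (0) * h3) (by first | (simp only [mul_assoc, mul_inv_rev, inv_inv, mul_inv_cancel_left, inv_mul_cancel_left, mul_inv_cancel, inv_mul_cancel, mul_one, one_mul, inv_one]; done) | simp only [mul_assoc, mul_inv_rev, inv_inv, mul_inv_cancel_left, inv_mul_cancel_left, mul_inv_cancel, inv_mul_cancel, mul_one, one_mul, inv_one, C]) (by first | (simp only [mul_assoc, mul_inv_rev, inv_inv, mul_inv_cancel_left, inv_mul_cancel_left, mul_inv_cancel, inv_mul_cancel, mul_one, one_mul, inv_one]; done) | simp only [mul_assoc, mul_inv_rev, inv_inv, mul_inv_cancel_left, inv_mul_cancel_left, mul_inv_cancel, inv_mul_cancel, mul_one, one_mul, inv_one, C]),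
    o.cv hδ (1) (by simp only [hδ, δinv hδ, δone hδ, D] <;> linear_combination (-1) * h3) (by first | (simp only [mul_assoc, mul_inv_rev, inv_inv, mul_inv_cancel_left, inv_mul_cancel_left, mul_inv_cancel, inv_mul_cancel, mul_one, one_mul, inv_one]; done) | simp only [mul_assoc, mul_inv_rev, inv_inv, mul_inv_cancel_left, inv_mul_cancel_left, mul_inv_cancel, inv_mul_cancel, mul_one, one_mul, inv_one, C]) (by first | (simp only [mul_assoc, mul_inv_rev, inv_inv, mul_inv_cancel_left, inv_mul_cancel_left, mul_inv_cancel, inv_mul_cancel, mul_one, one_mul, inv_one, C4]; done) | simp only [mul_assoc, mul_inv_rev, inv_inv, mul_inv_cancel_left, inv_mul_cancel_left, mul_inv_cancel, inv_mul_cancel, mul_one, one_mul, inv_one, C]),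
    o.cv hδ (1) (by simp only [hδ, δinv hδ, δone hδ, D] <;> linear_combination (0) * h3) (by first | (simp only [mul_assoc, mul_inv_rev, inv_inv, mul_inv_cancel_left, inv_mul_cancel_left, mul_inv_cancel, inv_mul_cancel, mul_one, one_mul, inv_one]; done) | simp only [mul_assoc, mul_inv_rev, inv_inv, mul_inv_cancel_left, inv_mul_cancel_left, mul_inv_cancel, inv_mul_cancel, mul_one, one_mul, inv_one, C]) (by first | (simp only [mul_assoc, mul_inv_rev, inv_inv, mul_inv_cancel_left, inv_mul_cancel_left, mul_inv_cancel, inv_mul_cancel, mul_one, one_mul, inv_one]; done) | simp only [mul_assoc, mul_inv_rev, inv_inv, mul_inv_cancel_left, inv_mul_cancel_left, mul_inv_cancel, inv_mul_cancel, mul_one, one_mul, inv_one, C]),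
    o.cv hδ (1) (by simp only [hδ, δinv hδ, δone hδ, D] <;> linear_combination (0) * h3) (by first | (simp only [mul_assoc, mul_inv_rev, inv_inv, mul_inv_cancel_left, inv_mul_cancel_left, mul_inv_cancel, inv_mul_cancel, mul_one, one_mul, inv_one]; done) | simp only [mul_assoc, mul_inv_rev, inv_inv, mul_inv_cancel_left, inv_mul_cancel_left, mul_inv_cancel, inv_mul_cancel, mul_one, one_mul, inv_one, C]) (by first | (simp only [mul_assoc, mul_inv_rev, inv_inv, mul_inv_cancel_left, inv_mul_cancel_left, mul_inv_cancel, inv_mul_cancel, mul_one, one_mul, inv_one]; done) | simp only [mul_assoc, mul_inv_rev, inv_inv, mul_inv_cancel_left, inv_mul_cancel_left, mul_inv_cancel, inv_mul_cancel, mul_one, one_mul, inv_one, C]),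
    o.cv hδ (1) (by simp only [hδ, δinv hδ, δone hδ, D] <;> linear_combination (0) * h3) (by first | (simp only [mul_assoc, mul_inv_rev, inv_inv, mul_inv_cancel_left, inv_mul_cancel_left, mul_inv_cancel, inv_mul_cancel, mul_one, one_mul, inv_one]; done) | simp only [mul_assoc, mul_inv_rev, inv_inv, mul_inv_cancel_left, inv_mul_cancel_left, mul_inv_cancel, inv_mul_cancel, mul_one, one_mul, inv_one, C]) (by first | (simp only [mul_assoc, mul_inv_rev, inv_inv, mul_inv_cancel_left, inv_mul_cancel_left, mul_inv_cancel, inv_mul_cancel, mul_one, one_mul, inv_one]; done) | simp only [mul_assoc, mul_inv_rev, inv_inv, mul_inv_cancel_left, inv_mul_cancel_left, mul_inv_cancel, inv_mul_cancel, mul_one, one_mul, inv_one, C]),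
    o.cv hδ (1) (by simp only [hδ, δinv hδ, δone hδ, D] <;> linear_combination (0) * h3) (by first | (simp only [mul_assoc, mul_inv_rev, inv_inv, mul_inv_cancel_left, inv_mul_cancel_left, mul_inv_cancel, inv_mul_cancel, mul_one, one_mul, inv_one]; done) | simp only [mul_assoc, mul_inv_rev, inv_inv, mul_inv_cancel_left, inv_mul_cancel_left, mul_inv_cancel, inv_mul_cancel, mul_one, one_mul, inv_one, C]) (by first | (simp only [mul_assoc, mul_inv_rev, inv_inv, mul_inv_cancel_left, inv_mul_cancel_left, mul_inv_cancel, inv_mul_cancel, mul_one, one_mul, inv_one]; done) | simp only [mul_assoc, mul_inv_rev, inv_inv, mul_inv_cancel_left, inv_mul_cancel_left, mul_inv_cancel, inv_mul_cancel, mul_one, one_mul, inv_one, C]),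
    o.cv hδ (1) (by simp only [hδ, δinv hδ, δone hδ, D] <;> linear_combination (0) * h3) (by first | (simp only [mul_assoc, mul_inv_rev, inv_inv, mul_inv_cancel_left, inv_mul_cancel_left, mul_inv_cancel, inv_mul_cancel, mul_one, one_mul, inv_one]; done) | simp only [mul_assoc, mul_inv_rev, inv_inv, mul_inv_cancel_left, inv_mul_cancel_left, mul_inv_cancel, inv_mul_cancel, mul_one, one_mul, inv_one, C]) (by first | (simp only [mul_assoc, mul_inv_rev, inv_inv, mul_inv_cancel_left, inv_mul_cancel_left, mul_inv_cancel, inv_mul_cancel, mul_one, one_mul, inv_one]; done) | simp only [mul_assoc, mul_inv_rev, inv_inv, mul_inv_cancel_left, inv_mul_cancel_left, mul_inv_cancel, inv_mul_cancel, mul_one, one_mul, inv_one, C]),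
    o.cv hδ (f2 * (Q⁻¹ * (f2 * (Q⁻¹ * (f2 * Q⁻¹))))) (by simp only [hδ, δinv hδ, δone hδ, D] <;> linear_combination (-1) * h3) (by first | (simp only [mul_assoc, mul_inv_rev, inv_inv, mul_inv_cancel_left, inv_mul_cancel_left, mul_inv_cancel, inv_mul_cancel, mul_one, one_mul, inv_one, C5]; done) | simp only [mul_assoc, mul_inv_rev, inv_inv, mul_inv_cancel_left, inv_mul_cancel_left, mul_inv_cancel, inv_mul_cancel, mul_one, one_mul, inv_one, C]) (by first | (simp only [mul_assoc, mul_inv_rev, inv_inv, mul_inv_cancel_left, inv_mul_cancel_left, mul_inv_cancel, inv_mul_cancel, mul_one, one_mul, inv_one, C5]; done) | simp only [mul_assoc, mul_inv_rev, inv_inv, mul_inv_cancel_left, inv_mul_cancel_left, mul_inv_cancel, inv_mul_cancel, mul_one, one_mul, inv_one, C]),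
    o.cv hδ (P * f3⁻¹) (by simp only [hδ, δinv hδ, δone hδ, D] <;> linear_combination (0) * h3) (by first | (simp only [mul_assoc, mul_inv_rev, inv_inv, mul_inv_cancel_left, inv_mul_cancel_left, mul_inv_cancel, inv_mul_cancel, mul_one, one_mul, inv_one]; done) | simp only [mul_assoc, mul_inv_rev, inv_inv, mul_inv_cancel_left, inv_mul_cancel_left, mul_inv_cancel, inv_mul_cancel, mul_one, one_mul, inv_one, C]) (by first | (simp only [mul_assoc, mul_inv_rev, inv_inv, mul_inv_cancel_left, inv_mul_cancel_left, mul_inv_cancel, inv_mul_cancel, mul_one, one_mul, inv_one]; done) | simp only [mul_assoc, mul_inv_rev, inv_inv, mul_inv_cancel_left, inv_mul_cancel_left, mul_inv_cancel, inv_mul_cancel, mul_one, one_mul, inv_one, C]),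
    o.cv hδ (1) (by simp only [hδ, δinv hδ, δone hδ, D] <;> linear_combination (1) * h3) (by first | (simp only [mul_assoc, mul_inv_rev, inv_inv, mul_inv_cancel_left, inv_mul_cancel_left, mul_inv_cancel, inv_mul_cancel, mul_one, one_mul, inv_one]; done) | simp only [mul_assoc, mul_inv_rev, inv_inv, mul_inv_cancel_left, inv_mul_cancel_left, mul_inv_cancel, inv_mul_cancel, mul_one, one_mul, inv_one, C]) (by first | (simp only [mul_assoc, mul_inv_rev, inv_inv, mul_inv_cancel_left, inv_mul_cancel_left, mul_inv_cancel, inv_mul_cancel, mul_one, one_mul, inv_one, C5]; done) | simp only [mul_assoc, mul_inv_rev, inv_inv, mul_inv_cancel_left, inv_mul_cancel_left, mul_inv_cancel, inv_mul_cancel, mul_one, one_mul, inv_one, C])⟩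

theorem close_AAAAA_k5 {G : Type*} [Group G] {δ : G → ZMod 3} (hδ : ∀ u v, δ (u * v) = δ u + δ v) (o : Pre δ)
    {P Q f0 f1 f2 f3 f4 : G} {e : ZMod 3} (h3 : 3 * e = 0)
    (D : δ P = e ∧ δ Q = -e ∧ δ f0 = 0 ∧ δ f1 = 0 ∧ δ f2 = 0 ∧ δ f3 = 0 ∧ δ f4 = 0)
    (C : Cube P f0 ∧ Cube P f1 ∧ Cube Q f0 ∧ Cube Q f1 ∧ Cube P f2 ∧ Cube Q f2 ∧ Cube P f3 ∧ Cube Q f3 ∧ Cube P f4 ∧ Cube Q f4) :
    (o.lt (f2 * (Q⁻¹ * (P * f3⁻¹))) (f2 * (Q⁻¹ * (P * f4⁻¹))) ↔ o.lt ((f2 * Q⁻¹) * (P * f3⁻¹)) ((f2 * Q⁻¹) * (P * f4⁻¹))) ∧
    (o.lt (f2 * (Q⁻¹ * (f4 * Q⁻¹))) (f2 * (Q⁻¹ * (P * f3⁻¹))) ↔ o.lt ((f2 * Q⁻¹) * (f4 * Q⁻¹)) ((f2 * Q⁻¹) * (P * f3⁻¹))) ∧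
    (o.lt (f2 * f4⁻¹) (f2 * (Q⁻¹ * (f4 * P⁻¹))) ↔ o.lt ((f2 * Q⁻¹) * (f4 * Q⁻¹)⁻¹) ((f2 * Q⁻¹) * (P * f4⁻¹)⁻¹)) ∧
    (o.lt (f2 * (Q⁻¹ * (f0 * P⁻¹))) (f2 * (Q⁻¹ * (f4 * P⁻¹))) ↔ o.lt ((f2 * Q⁻¹) * (f0 * P⁻¹)) ((f2 * Q⁻¹) * (f4 * P⁻¹))) ∧
    (o.lt (f2 * f0⁻¹) (f2 * (Q⁻¹ * (f4 * P⁻¹))) ↔ o.lt ((f2 * Q⁻¹) * (Q * f0⁻¹)) ((f2 * Q⁻¹) * (f4 * P⁻¹))) ∧
    (o.lt (f2 * (Q⁻¹ * (P * f4⁻¹))) (f2 * (Q⁻¹ * (f4 * Q⁻¹))) ↔ o.lt ((f2 * Q⁻¹) * (f4 * P⁻¹)⁻¹) ((f2 * Q⁻¹) * (Q * f4⁻¹)⁻¹)) ∧
    (o.lt (f2 * f4⁻¹) (f2 * f0⁻¹) ↔ o.lt ((f2 * Q⁻¹) * (Q * f4⁻¹)) ((f2 * Q⁻¹) * (Q * f0⁻¹))) ∧
    (o.lt (f2 * (Q⁻¹ * (f4 * Q⁻¹))) (f2 * (Q⁻¹ * (P * f4⁻¹))) ↔ o.lt ((f2 * Q⁻¹) * (Q * f4⁻¹)⁻¹) ((f2 * Q⁻¹) * (f4 * P⁻¹)⁻¹)) ∧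
    (o.lt (f3 * (P⁻¹ * (f3 * f0⁻¹))) (f3 * (P⁻¹ * (f3 * f1⁻¹))) ↔ o.lt ((P * f3⁻¹) * (P * f0⁻¹)) ((P * f3⁻¹) * (P * f1⁻¹))) ∧
    (o.lt (P * (f3⁻¹ * (f1 * Q⁻¹))) (f3 * (P⁻¹ * (f3 * f0⁻¹))) ↔ o.lt ((P * f3⁻¹) * (f1 * Q⁻¹)) ((P * f3⁻¹) * (P * f0⁻¹))) ∧
    (o.lt (P * (f3⁻¹ * (Q * f1⁻¹))) (P * (f3⁻¹ * (f1 * P⁻¹))) ↔ o.lt ((P * f3⁻¹) * (f1 * Q⁻¹)⁻¹) ((P * f3⁻¹) * (P * f1⁻¹)⁻¹)) ∧
    (o.lt (P * (f3⁻¹ * (f2 * P⁻¹))) (P * (f3⁻¹ * (f1 * P⁻¹))) ↔ o.lt ((P * f3⁻¹) * (f2 * P⁻¹)) ((P * f3⁻¹) * (f1 * P⁻¹))) ∧
    (o.lt (P * (f3⁻¹ * (Q * f2⁻¹))) (P * (f3⁻¹ * (f1 * P⁻¹))) ↔ o.lt ((P * f3⁻¹) * (Q * f2⁻¹)) ((P * f3⁻¹) * (f1 * P⁻¹))) ∧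
    (o.lt (f3 * (P⁻¹ * (f3 * f1⁻¹))) (P * (f3⁻¹ * (f1 * Q⁻¹))) ↔ o.lt ((P * f3⁻¹) * (f1 * P⁻¹)⁻¹) ((P * f3⁻¹) * (Q * f1⁻¹)⁻¹)) ∧
    (o.lt (P * (f3⁻¹ * (Q * f1⁻¹))) (P * (f3⁻¹ * (Q * f2⁻¹))) ↔ o.lt ((P * f3⁻¹) * (Q * f1⁻¹)) ((P * f3⁻¹) * (Q * f2⁻¹))) ∧
    (o.lt (P * (f3⁻¹ * (f1 * Q⁻¹))) (f3 * (P⁻¹ * (f3 * f1⁻¹))) ↔ o.lt ((P * f3⁻¹) * (Q * f1⁻¹)⁻¹) ((P * f3⁻¹) * (f1 * P⁻¹)⁻¹)) ∧
    (o.lt (f3 * P⁻¹) (f3 * (P⁻¹ * (f3 * f2⁻¹))) ↔ o.lt ((P * f3⁻¹) * (P * f3⁻¹)) ((P * f3⁻¹) * (P * f2⁻¹))) ∧
    (o.lt (f3 * (P⁻¹ * (f3 * f2⁻¹))) (P * Q⁻¹) ↔ o.lt ((P * f3⁻¹) * (P * f2⁻¹)) ((P * f3⁻¹) * (f3 * Q⁻¹))) ∧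
    (o.lt (f3 * Q⁻¹) (P * f3⁻¹) ↔ o.lt ((P * f3⁻¹) * (P * f3⁻¹)⁻¹) ((P * f3⁻¹) * (f3 * Q⁻¹)⁻¹)) ∧
    (o.lt (f3 * P⁻¹) (f3 * (P⁻¹ * (f3 * f4⁻¹))) ↔ o.lt ((P * f3⁻¹) * (P * f3⁻¹)) ((P * f3⁻¹) * (P * f4⁻¹))) := by
  have C' := C
  obtain ⟨C0, C1, C2, C3, C4, C5, C6, C7, C8, C9⟩ := C'
  simp only [Cube] at C C0 C1 C2 C3 C4 C5 C6 C7 C8 C9
  exact ⟨o.cv hδ (1) (by simp only [hδ, δinv hδ, δone hδ, D] <;> linear_combination (0) * h3) (by first | (simp only [mul_assoc, mul_inv_rev, inv_inv, mul_inv_cancel_left, inv_mul_cancel_left, mul_inv_cancel, inv_mul_cancel, mul_one, one_mul, inv_one]; done) | simp only [mul_assoc, mul_inv_rev, inv_inv, mul_inv_cancel_left, inv_mul_cancel_left, mul_inv_cancel, inv_mul_cancel, mul_one, one_mul, inv_one, C]) (by first | (simp only [mul_assoc, mul_inv_rev, inv_inv, mul_inv_cancel_left, inv_mul_cancel_left, mul_inv_cancel, inv_mul_cancel, mul_one, one_mul, inv_one]; done) | simp only [mul_assoc, mul_inv_rev, inv_inv, mul_inv_cancel_left, inv_mul_cancel_left, mul_inv_cancel, inv_mul_cancel, mul_one, one_mul, inv_one, C]),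
    o.cv hδ (1) (by simp only [hδ, δinv hδ, δone hδ, D] <;> linear_combination (0) * h3) (by first | (simp only [mul_assoc, mul_inv_rev, inv_inv, mul_inv_cancel_left, inv_mul_cancel_left, mul_inv_cancel, inv_mul_cancel, mul_one, one_mul, inv_one]; done) | simp only [mul_assoc, mul_inv_rev, inv_inv, mul_inv_cancel_left, inv_mul_cancel_left, mul_inv_cancel, inv_mul_cancel, mul_one, one_mul, inv_one, C]) (by first | (simp only [mul_assoc, mul_inv_rev, inv_inv, mul_inv_cancel_left, inv_mul_cancel_left, mul_inv_cancel, inv_mul_cancel, mul_one, one_mul, inv_one]; done) | simp only [mul_assoc, mul_inv_rev, inv_inv, mul_inv_cancel_left, inv_mul_cancel_left, mul_inv_cancel, inv_mul_cancel, mul_one, one_mul, inv_one, C]),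
    o.cv hδ (1) (by simp only [hδ, δinv hδ, δone hδ, D] <;> linear_combination (0) * h3) (by first | (simp only [mul_assoc, mul_inv_rev, inv_inv, mul_inv_cancel_left, inv_mul_cancel_left, mul_inv_cancel, inv_mul_cancel, mul_one, one_mul, inv_one]; done) | simp only [mul_assoc, mul_inv_rev, inv_inv, mul_inv_cancel_left, inv_mul_cancel_left, mul_inv_cancel, inv_mul_cancel, mul_one, one_mul, inv_one, C]) (by first | (simp only [mul_assoc, mul_inv_rev, inv_inv, mul_inv_cancel_left, inv_mul_cancel_left, mul_inv_cancel, inv_mul_cancel, mul_one, one_mul, inv_one]; done) | simp only [mul_assoc, mul_inv_rev, inv_inv, mul_inv_cancel_left, inv_mul_cancel_left, mul_inv_cancel, inv_mul_cancel, mul_one, one_mul, inv_one, C]),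
    o.cv hδ (1) (by simp only [hδ, δinv hδ, δone hδ, D] <;> linear_combination (0) * h3) (by first | (simp only [mul_assoc, mul_inv_rev, inv_inv, mul_inv_cancel_left, inv_mul_cancel_left, mul_inv_cancel, inv_mul_cancel, mul_one, one_mul, inv_one]; done) | simp only [mul_assoc, mul_inv_rev, inv_inv, mul_inv_cancel_left, inv_mul_cancel_left, mul_inv_cancel, inv_mul_cancel, mul_one, one_mul, inv_one, C]) (by first | (simp only [mul_assoc, mul_inv_rev, inv_inv, mul_inv_cancel_left, inv_mul_cancel_left, mul_inv_cancel, inv_mul_cancel, mul_one, one_mul, inv_one]; done) | simp only [mul_assoc, mul_inv_rev, inv_inv, mul_inv_cancel_left, inv_mul_cancel_left, mul_inv_cancel, inv_mul_cancel, mul_one, one_mul, inv_one, C]),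
    o.cv hδ (1) (by simp only [hδ, δinv hδ, δone hδ, D] <;> linear_combination (0) * h3) (by first | (simp only [mul_assoc, mul_inv_rev, inv_inv, mul_inv_cancel_left, inv_mul_cancel_left, mul_inv_cancel, inv_mul_cancel, mul_one, one_mul, inv_one]; done) | simp only [mul_assoc, mul_inv_rev, inv_inv, mul_inv_cancel_left, inv_mul_cancel_left, mul_inv_cancel, inv_mul_cancel, mul_one, one_mul, inv_one, C]) (by first | (simp only [mul_assoc, mul_inv_rev, inv_inv, mul_inv_cancel_left, inv_mul_cancel_left, mul_inv_cancel, inv_mul_cancel, mul_one, one_mul, inv_one]; done) | simp only [mul_assoc, mul_inv_rev, inv_inv, mul_inv_cancel_left, inv_mul_cancel_left, mul_inv_cancel, inv_mul_cancel, mul_one, one_mul, inv_one, C]),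
    o.cv hδ (1) (by simp only [hδ, δinv hδ, δone hδ, D] <;> linear_combination (0) * h3) (by first | (simp only [mul_assoc, mul_inv_rev, inv_inv, mul_inv_cancel_left, inv_mul_cancel_left, mul_inv_cancel, inv_mul_cancel, mul_one, one_mul, inv_one]; done) | simp only [mul_assoc, mul_inv_rev, inv_inv, mul_inv_cancel_left, inv_mul_cancel_left, mul_inv_cancel, inv_mul_cancel, mul_one, one_mul, inv_one, C]) (by first | (simp only [mul_assoc, mul_inv_rev, inv_inv, mul_inv_cancel_left, inv_mul_cancel_left, mul_inv_cancel, inv_mul_cancel, mul_one, one_mul, inv_one]; done) | simp only [mul_assoc, mul_inv_rev, inv_inv, mul_inv_cancel_left, inv_mul_cancel_left, mul_inv_cancel, inv_mul_cancel, mul_one, one_mul, inv_one, C]),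
    o.cv hδ (1) (by simp only [hδ, δinv hδ, δone hδ, D] <;> linear_combination (0) * h3) (by first | (simp only [mul_assoc, mul_inv_rev, inv_inv, mul_inv_cancel_left, inv_mul_cancel_left, mul_inv_cancel, inv_mul_cancel, mul_one, one_mul, inv_one]; done) | simp only [mul_assoc, mul_inv_rev, inv_inv, mul_inv_cancel_left, inv_mul_cancel_left, mul_inv_cancel, inv_mul_cancel, mul_one, one_mul, inv_one, C]) (by first | (simp only [mul_assoc, mul_inv_rev, inv_inv, mul_inv_cancel_left, inv_mul_cancel_left, mul_inv_cancel, inv_mul_cancel, mul_one, one_mul, inv_one]; done) | simp only [mul_assoc, mul_inv_rev, inv_inv, mul_inv_cancel_left, inv_mul_cancel_left, mul_inv_cancel, inv_mul_cancel, mul_one, one_mul, inv_one, C]),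
    o.cv hδ (1) (by simp only [hδ, δinv hδ, δone hδ, D] <;> linear_combination (0) * h3) (by first | (simp only [mul_assoc, mul_inv_rev, inv_inv, mul_inv_cancel_left, inv_mul_cancel_left, mul_inv_cancel, inv_mul_cancel, mul_one, one_mul, inv_one]; done) | simp only [mul_assoc, mul_inv_rev, inv_inv, mul_inv_cancel_left, inv_mul_cancel_left, mul_inv_cancel, inv_mul_cancel, mul_one, one_mul, inv_one, C]) (by first | (simp only [mul_assoc, mul_inv_rev, inv_inv, mul_inv_cancel_left, inv_mul_cancel_left, mul_inv_cancel, inv_mul_cancel, mul_one, one_mul, inv_one]; done) | simp only [mul_assoc, mul_inv_rev, inv_inv, mul_inv_cancel_left, inv_mul_cancel_left, mul_inv_cancel, inv_mul_cancel, mul_one, one_mul, inv_one, C]),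
    o.cv hδ (f0 * (f3⁻¹ * (P * (f3⁻¹ * (P * (f3⁻¹ * (P * f0⁻¹))))))) (by simp only [hδ, δinv hδ, δone hδ, D] <;> linear_combination (0) * h3) (by first | (simp only [mul_assoc, mul_inv_rev, inv_inv, mul_inv_cancel_left, inv_mul_cancel_left, mul_inv_cancel, inv_mul_cancel, mul_one, one_mul, inv_one, C6]; done) | simp only [mul_assoc, mul_inv_rev, inv_inv, mul_inv_cancel_left, inv_mul_cancel_left, mul_inv_cancel, inv_mul_cancel, mul_one, one_mul, inv_one, C]) (by first | (simp only [mul_assoc, mul_inv_rev, inv_inv, mul_inv_cancel_left, inv_mul_cancel_left, mul_inv_cancel, inv_mul_cancel, mul_one, one_mul, inv_one, C6]; done) | simp only [mul_assoc, mul_inv_rev, inv_inv, mul_inv_cancel_left, inv_mul_cancel_left, mul_inv_cancel, inv_mul_cancel, mul_one, one_mul, inv_one, C]),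
    o.cv hδ (1) (by simp only [hδ, δinv hδ, δone hδ, D] <;> linear_combination (1) * h3) (by first | (simp only [mul_assoc, mul_inv_rev, inv_inv, mul_inv_cancel_left, inv_mul_cancel_left, mul_inv_cancel, inv_mul_cancel, mul_one, one_mul, inv_one]; done) | simp only [mul_assoc, mul_inv_rev, inv_inv, mul_inv_cancel_left, inv_mul_cancel_left, mul_inv_cancel, inv_mul_cancel, mul_one, one_mul, inv_one, C]) (by first | (simp only [mul_assoc, mul_inv_rev, inv_inv, mul_inv_cancel_left, inv_mul_cancel_left, mul_inv_cancel, inv_mul_cancel, mul_one, one_mul, inv_one, C6]; done) | simp only [mul_assoc, mul_inv_rev, inv_inv, mul_inv_cancel_left, inv_mul_cancel_left, mul_inv_cancel, inv_mul_cancel, mul_one, one_mul, inv_one, C]),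
    o.cv hδ (1) (by simp only [hδ, δinv hδ, δone hδ, D] <;> linear_combination (0) * h3) (by first | (simp only [mul_assoc, mul_inv_rev, inv_inv, mul_inv_cancel_left, inv_mul_cancel_left, mul_inv_cancel, inv_mul_cancel, mul_one, one_mul, inv_one]; done) | simp only [mul_assoc, mul_inv_rev, inv_inv, mul_inv_cancel_left, inv_mul_cancel_left, mul_inv_cancel, inv_mul_cancel, mul_one, one_mul, inv_one, C]) (by first | (simp only [mul_assoc, mul_inv_rev, inv_inv, mul_inv_cancel_left, inv_mul_cancel_left, mul_inv_cancel, inv_mul_cancel, mul_one, one_mul, inv_one]; done) | simp only [mul_assoc, mul_inv_rev, inv_inv, mul_inv_cancel_left, inv_mul_cancel_left, mul_inv_cancel, inv_mul_cancel, mul_one, one_mul, inv_one, C]),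
    o.cv hδ (1) (by simp only [hδ, δinv hδ, δone hδ, D] <;> linear_combination (0) * h3) (by first | (simp only [mul_assoc, mul_inv_rev, inv_inv, mul_inv_cancel_left, inv_mul_cancel_left, mul_inv_cancel, inv_mul_cancel, mul_one, one_mul, inv_one]; done) | simp only [mul_assoc, mul_inv_rev, inv_inv, mul_inv_cancel_left, inv_mul_cancel_left, mul_inv_cancel, inv_mul_cancel, mul_one, one_mul, inv_one, C]) (by first | (simp only [mul_assoc, mul_inv_rev, inv_inv, mul_inv_cancel_left, inv_mul_cancel_left, mul_inv_cancel, inv_mul_cancel, mul_one, one_mul, inv_one]; done) | simp only [mul_assoc, mul_inv_rev, inv_inv, mul_inv_cancel_left, inv_mul_cancel_left, mul_inv_cancel, inv_mul_cancel, mul_one, one_mul, inv_one, C]),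
    o.cv hδ (1) (by simp only [hδ, δinv hδ, δone hδ, D] <;> linear_combination (0) * h3) (by first | (simp only [mul_assoc, mul_inv_rev, inv_inv, mul_inv_cancel_left, inv_mul_cancel_left, mul_inv_cancel, inv_mul_cancel, mul_one, one_mul, inv_one]; done) | simp only [mul_assoc, mul_inv_rev, inv_inv, mul_inv_cancel_left, inv_mul_cancel_left, mul_inv_cancel, inv_mul_cancel, mul_one, one_mul, inv_one, C]) (by first | (simp only [mul_assoc, mul_inv_rev, inv_inv, mul_inv_cancel_left, inv_mul_cancel_left, mul_inv_cancel, inv_mul_cancel, mul_one, one_mul, inv_one]; done) | simp only [mul_assoc, mul_inv_rev, inv_inv, mul_inv_cancel_left, inv_mul_cancel_left, mul_inv_cancel, inv_mul_cancel, mul_one, one_mul, inv_one, C]),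
    o.cv hδ (f1 * (f3⁻¹ * (P * (f3⁻¹ * (P * (f3⁻¹ * (P * f1⁻¹))))))) (by simp only [hδ, δinv hδ, δone hδ, D] <;> linear_combination (-1) * h3) (by first | (simp only [mul_assoc, mul_inv_rev, inv_inv, mul_inv_cancel_left, inv_mul_cancel_left, mul_inv_cancel, inv_mul_cancel, mul_one, one_mul, inv_one, C6]; done) | simp only [mul_assoc, mul_inv_rev, inv_inv, mul_inv_cancel_left, inv_mul_cancel_left, mul_inv_cancel, inv_mul_cancel, mul_one, one_mul, inv_one, C]) (by first | (simp only [mul_assoc, mul_inv_rev, inv_inv, mul_inv_cancel_left, inv_mul_cancel_left, mul_inv_cancel, inv_mul_cancel, mul_one, one_mul, inv_one, C6]; done) | simp only [mul_assoc, mul_inv_rev, inv_inv, mul_inv_cancel_left, inv_mul_cancel_left, mul_inv_cancel, inv_mul_cancel, mul_one, one_mul, inv_one, C]),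
    o.cv hδ (1) (by simp only [hδ, δinv hδ, δone hδ, D] <;> linear_combination (0) * h3) (by first | (simp only [mul_assoc, mul_inv_rev, inv_inv, mul_inv_cancel_left, inv_mul_cancel_left, mul_inv_cancel, inv_mul_cancel, mul_one, one_mul, inv_one]; done) | simp only [mul_assoc, mul_inv_rev, inv_inv, mul_inv_cancel_left, inv_mul_cancel_left, mul_inv_cancel, inv_mul_cancel, mul_one, one_mul, inv_one, C]) (by first | (simp only [mul_assoc, mul_inv_rev, inv_inv, mul_inv_cancel_left, inv_mul_cancel_left, mul_inv_cancel, inv_mul_cancel, mul_one, one_mul, inv_one]; done) | simp only [mul_assoc, mul_inv_rev, inv_inv, mul_inv_cancel_left, inv_mul_cancel_left, mul_inv_cancel, inv_mul_cancel, mul_one, one_mul, inv_one, C]),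
    o.cv hδ (1) (by simp only [hδ, δinv hδ, δone hδ, D] <;> linear_combination (1) * h3) (by first | (simp only [mul_assoc, mul_inv_rev, inv_inv, mul_inv_cancel_left, inv_mul_cancel_left, mul_inv_cancel, inv_mul_cancel, mul_one, one_mul, inv_one]; done) | simp only [mul_assoc, mul_inv_rev, inv_inv, mul_inv_cancel_left, inv_mul_cancel_left, mul_inv_cancel, inv_mul_cancel, mul_one, one_mul, inv_one, C]) (by first | (simp only [mul_assoc, mul_inv_rev, inv_inv, mul_inv_cancel_left, inv_mul_cancel_left, mul_inv_cancel, inv_mul_cancel, mul_one, one_mul, inv_one, C6]; done) | simp only [mul_assoc, mul_inv_rev, inv_inv, mul_inv_cancel_left, inv_mul_cancel_left, mul_inv_cancel, inv_mul_cancel, mul_one, one_mul, inv_one, C]),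
    o.cv hδ (P * (f3⁻¹ * (P * (f3⁻¹ * (P * f3⁻¹))))) (by simp only [hδ, δinv hδ, δone hδ, D] <;> linear_combination (0) * h3) (by first | (simp only [mul_assoc, mul_inv_rev, inv_inv, mul_inv_cancel_left, inv_mul_cancel_left, mul_inv_cancel, inv_mul_cancel, mul_one, one_mul, inv_one, C6]; done) | simp only [mul_assoc, mul_inv_rev, inv_inv, mul_inv_cancel_left, inv_mul_cancel_left, mul_inv_cancel, inv_mul_cancel, mul_one, one_mul, inv_one, C]) (by first | (simp only [mul_assoc, mul_inv_rev, inv_inv, mul_inv_cancel_left, inv_mul_cancel_left, mul_inv_cancel, inv_mul_cancel, mul_one, one_mul, inv_one, C6]; done) | simp only [mul_assoc, mul_inv_rev, inv_inv, mul_inv_cancel_left, inv_mul_cancel_left, mul_inv_cancel, inv_mul_cancel, mul_one, one_mul, inv_one, C]),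
    o.cv hδ (f2 * (f3⁻¹ * (P * (f3⁻¹ * (P * (f3⁻¹ * (P * f2⁻¹))))))) (by simp only [hδ, δinv hδ, δone hδ, D] <;> linear_combination (-1) * h3) (by first | (simp only [mul_assoc, mul_inv_rev, inv_inv, mul_inv_cancel_left, inv_mul_cancel_left, mul_inv_cancel, inv_mul_cancel, mul_one, one_mul, inv_one, C6]; done) | simp only [mul_assoc, mul_inv_rev, inv_inv, mul_inv_cancel_left, inv_mul_cancel_left, mul_inv_cancel, inv_mul_cancel, mul_one, one_mul, inv_one, C]) (by first | (simp only [mul_assoc, mul_inv_rev, inv_inv, mul_inv_cancel_left, inv_mul_cancel_left, mul_inv_cancel, inv_mul_cancel, mul_one, one_mul, inv_one, C6]; done) | simp only [mul_assoc, mul_inv_rev, inv_inv, mul_inv_cancel_left, inv_mul_cancel_left, mul_inv_cancel, inv_mul_cancel, mul_one, one_mul, inv_one, C]),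
    o.cv hδ (Q * f3⁻¹) (by simp only [hδ, δinv hδ, δone hδ, D] <;> linear_combination (0) * h3) (by first | (simp only [mul_assoc, mul_inv_rev, inv_inv, mul_inv_cancel_left, inv_mul_cancel_left, mul_inv_cancel, inv_mul_cancel, mul_one, one_mul, inv_one]; done) | simp only [mul_assoc, mul_inv_rev, inv_inv, mul_inv_cancel_left, inv_mul_cancel_left, mul_inv_cancel, inv_mul_cancel, mul_one, one_mul, inv_one, C]) (by first | (simp only [mul_assoc, mul_inv_rev, inv_inv, mul_inv_cancel_left, inv_mul_cancel_left, mul_inv_cancel, inv_mul_cancel, mul_one, one_mul, inv_one, C7]; done) | simp only [mul_assoc, mul_inv_rev, inv_inv, mul_inv_cancel_left, inv_mul_cancel_left, mul_inv_cancel, inv_mul_cancel, mul_one, one_mul, inv_one, C]),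
    o.cv hδ (P * (f3⁻¹ * (P * (f3⁻¹ * (P * f3⁻¹))))) (by simp only [hδ, δinv hδ, δone hδ, D] <;> linear_combination (0) * h3) (by first | (simp only [mul_assoc, mul_inv_rev, inv_inv, mul_inv_cancel_left, inv_mul_cancel_left, mul_inv_cancel, inv_mul_cancel, mul_one, one_mul, inv_one, C6]; done) | simp only [mul_assoc, mul_inv_rev, inv_inv, mul_inv_cancel_left, inv_mul_cancel_left, mul_inv_cancel, inv_mul_cancel, mul_one, one_mul, inv_one, C]) (by first | (simp only [mul_assoc, mul_inv_rev, inv_inv, mul_inv_cancel_left, inv_mul_cancel_left, mul_inv_cancel, inv_mul_cancel, mul_one, one_mul, inv_one, C6]; done) | simp only [mul_assoc, mul_inv_rev, inv_inv, mul_inv_cancel_left, inv_mul_cancel_left, mul_inv_cancel, inv_mul_cancel, mul_one, one_mul, inv_one, C])⟩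

theorem close_AAAAA_k6 {G : Type*} [Group G] {δ : G → ZMod 3} (hδ : ∀ u v, δ (u * v) = δ u + δ v) (o : Pre δ)
    {P Q f0 f1 f2 f3 f4 : G} {e : ZMod 3} (h3 : 3 * e = 0)
    (D : δ P = e ∧ δ Q = -e ∧ δ f0 = 0 ∧ δ f1 = 0 ∧ δ f2 = 0 ∧ δ f3 = 0 ∧ δ f4 = 0)
    (C : Cube P f0 ∧ Cube P f1 ∧ Cube Q f0 ∧ Cube Q f1 ∧ Cube P f2 ∧ Cube Q f2 ∧ Cube P f3 ∧ Cube Q f3 ∧ Cube P f4 ∧ Cube Q f4) :
    (o.lt (P * (f3⁻¹ * (f4 * Q⁻¹))) (f3 * P⁻¹) ↔ o.lt ((P * f3⁻¹) * (f4 * Q⁻¹)) ((P * f3⁻¹) * (P * f3⁻¹))) ∧
    (o.lt (P * (f3⁻¹ * (Q * f4⁻¹))) (P * (f3⁻¹ * (f4 * P⁻¹))) ↔ o.lt ((P * f3⁻¹) * (f4 * Q⁻¹)⁻¹) ((P * f3⁻¹) * (P * f4⁻¹)⁻¹)) ∧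
    (o.lt (P * f4⁻¹) (P * f3⁻¹) ↔ o.lt ((P * f3⁻¹) * (f3 * Q⁻¹)) ((P * f3⁻¹) * (f4 * Q⁻¹))) ∧
    (o.lt (f3 * P⁻¹) (P * (f3⁻¹ * (f4 * Q⁻¹))) ↔ o.lt ((P * f3⁻¹) * (P * f3⁻¹)) ((P * f3⁻¹) * (f4 * Q⁻¹))) ∧
    (o.lt (P * (f3⁻¹ * (f4 * P⁻¹))) (P * (f3⁻¹ * (f0 * P⁻¹))) ↔ o.lt ((P * f3⁻¹) * (f4 * P⁻¹)) ((P * f3⁻¹) * (f0 * P⁻¹))) ∧
    (o.lt (P * (f3⁻¹ * (f4 * P⁻¹))) (P * (f3⁻¹ * (Q * f0⁻¹))) ↔ o.lt ((P * f3⁻¹) * (f4 * P⁻¹)) ((P * f3⁻¹) * (Q * f0⁻¹))) ∧
    (o.lt (P * (f3⁻¹ * (f4 * Q⁻¹))) (f3 * (P⁻¹ * (f3 * f4⁻¹))) ↔ o.lt ((P * f3⁻¹) * (Q * f4⁻¹)⁻¹) ((P * f3⁻¹) * (f4 * P⁻¹)⁻¹)) ∧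
    (o.lt (P * (f3⁻¹ * (Q * f0⁻¹))) (P * (f3⁻¹ * (Q * f4⁻¹))) ↔ o.lt ((P * f3⁻¹) * (Q * f0⁻¹)) ((P * f3⁻¹) * (Q * f4⁻¹))) ∧
    (o.lt (f3 * (P⁻¹ * (f3 * f4⁻¹))) (P * (f3⁻¹ * (f4 * Q⁻¹))) ↔ o.lt ((P * f3⁻¹) * (f4 * P⁻¹)⁻¹) ((P * f3⁻¹) * (Q * f4⁻¹)⁻¹)) ∧
    (o.lt (f3 * f0⁻¹) (f3 * f1⁻¹) ↔ o.lt ((f3 * P⁻¹) * (P * f0⁻¹)) ((f3 * P⁻¹) * (P * f1⁻¹))) ∧
    (o.lt (f3 * (P⁻¹ * (f1 * Q⁻¹))) (f3 * f0⁻¹) ↔ o.lt ((f3 * P⁻¹) * (f1 * Q⁻¹)) ((f3 * P⁻¹) * (P * f0⁻¹))) ∧
    (o.lt (f3 * (P⁻¹ * (Q * f1⁻¹))) (f3 * (P⁻¹ * (f1 * P⁻¹))) ↔ o.lt ((f3 * P⁻¹) * (f1 * Q⁻¹)⁻¹) ((f3 * P⁻¹) * (P * f1⁻¹)⁻¹)) ∧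
    (o.lt (f3 * (P⁻¹ * (f0 * Q⁻¹))) (f3 * (P⁻¹ * (f1 * Q⁻¹))) ↔ o.lt ((f3 * P⁻¹) * (f0 * Q⁻¹)) ((f3 * P⁻¹) * (f1 * Q⁻¹))) ∧
    (o.lt (f3 * f0⁻¹) (f3 * (P⁻¹ * (f1 * Q⁻¹))) ↔ o.lt ((f3 * P⁻¹) * (P * f0⁻¹)) ((f3 * P⁻¹) * (f1 * Q⁻¹))) ∧
    (o.lt (f3 * (P⁻¹ * (Q * f1⁻¹))) (f3 * (P⁻¹ * (Q * f2⁻¹))) ↔ o.lt ((f3 * P⁻¹) * (Q * f1⁻¹)) ((f3 * P⁻¹) * (Q * f2⁻¹))) ∧
    (o.lt (f3 * (P⁻¹ * (Q * f2⁻¹))) (f3 * (P⁻¹ * (f1 * P⁻¹))) ↔ o.lt ((f3 * P⁻¹) * (Q * f2⁻¹)) ((f3 * P⁻¹) * (f1 * P⁻¹))) ∧
    (o.lt (f3 * (P⁻¹ * (f1 * Q⁻¹))) (f3 * f1⁻¹) ↔ o.lt ((f3 * P⁻¹) * (Q * f1⁻¹)⁻¹) ((f3 * P⁻¹) * (f1 * P⁻¹)⁻¹)) ∧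
    (o.lt (f2 * P⁻¹) (f3 * P⁻¹) ↔ o.lt ((f3 * P⁻¹) * (P * f3⁻¹)) ((f3 * P⁻¹) * (P * f2⁻¹))) ∧
    (o.lt (f3 * f2⁻¹) (f3 * (P⁻¹ * (f3 * Q⁻¹))) ↔ o.lt ((f3 * P⁻¹) * (P * f2⁻¹)) ((f3 * P⁻¹) * (f3 * Q⁻¹))) ∧
    (o.lt (P * f3⁻¹) (f3 * (P⁻¹ * (Q * f3⁻¹))) ↔ o.lt ((f3 * P⁻¹) * (P * f3⁻¹)⁻¹) ((f3 * P⁻¹) * (f3 * Q⁻¹)⁻¹)) := by
  have C' := C
  obtain ⟨C0, C1, C2, C3, C4, C5, C6, C7, C8, C9⟩ := C'
  simp only [Cube] at C C0 C1 C2 C3 C4 C5 C6 C7 C8 C9
  exact ⟨o.cv hδ (1) (by simp only [hδ, δinv hδ, δone hδ, D] <;> linear_combination (1) * h3) (by first | (simp only [mul_assoc, mul_inv_rev, inv_inv, mul_inv_cancel_left, inv_mul_cancel_left, mul_inv_cancel, inv_mul_cancel, mul_one, one_mul, inv_one]; done) | simp only [mul_assoc, mul_inv_rev, inv_inv, mul_inv_cancel_left, inv_mul_cancel_left, mul_inv_cancel, inv_mul_cancel, mul_one, one_mul, inv_one, C]) (by first | (simp only [mul_assoc, mul_inv_rev, inv_inv, mul_inv_cancel_left, inv_mul_cancel_left, mul_inv_cancel, inv_mul_cancel, mul_one, one_mul, inv_one, C6]; done) | simp only [mul_assoc, mul_inv_rev, inv_inv, mul_inv_cancel_left, inv_mul_cancel_left, mul_inv_cancel, inv_mul_cancel, mul_one,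 one_mul, inv_one, C]),
    o.cv hδ (1) (by simp only [hδ, δinv hδ, δone hδ, D] <;> linear_combination (0) * h3) (by first | (simp only [mul_assoc, mul_inv_rev, inv_inv, mul_inv_cancel_left, inv_mul_cancel_left, mul_inv_cancel, inv_mul_cancel, mul_one, one_mul, inv_one]; done) | simp only [mul_assoc, mul_inv_rev, inv_inv, mul_inv_cancel_left, inv_mul_cancel_left, mul_inv_cancel, inv_mul_cancel, mul_one, one_mul, inv_one, C]) (by first | (simp only [mul_assoc, mul_inv_rev, inv_inv, mul_inv_cancel_left, inv_mul_cancel_left, mul_inv_cancel, inv_mul_cancel, mul_one, one_mul, inv_one]; done) | simp only [mul_assoc, mul_inv_rev, inv_inv, mul_inv_cancel_left, inv_mul_cancel_left, mul_inv_cancel, inv_mul_cancel, mul_one, one_mul, inv_one, C]),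
    o.cv hδ (f4 * Q⁻¹) (by simp only [hδ, δinv hδ, δone hδ, D] <;> linear_combination (0) * h3) (by first | (simp only [mul_assoc, mul_inv_rev, inv_inv, mul_inv_cancel_left, inv_mul_cancel_left, mul_inv_cancel, inv_mul_cancel, mul_one, one_mul, inv_one]; done) | simp only [mul_assoc, mul_inv_rev, inv_inv, mul_inv_cancel_left, inv_mul_cancel_left, mul_inv_cancel, inv_mul_cancel, mul_one, one_mul, inv_one, C]) (by first | (simp only [mul_assoc, mul_inv_rev, inv_inv, mul_inv_cancel_left, inv_mul_cancel_left, mul_inv_cancel, inv_mul_cancel, mul_one, one_mul, inv_one]; done) | simp only [mul_assoc, mul_inv_rev, inv_inv, mul_inv_cancel_left, inv_mul_cancel_left, mul_inv_cancel, inv_mul_cancel, mul_one, one_mul, inv_one, C]),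
    o.cv hδ (P * (f3⁻¹ * (P * (f3⁻¹ * (P * f3⁻¹))))) (by simp only [hδ, δinv hδ, δone hδ, D] <;> linear_combination (-1) * h3) (by first | (simp only [mul_assoc, mul_inv_rev, inv_inv, mul_inv_cancel_left, inv_mul_cancel_left, mul_inv_cancel, inv_mul_cancel, mul_one, one_mul, inv_one, C6]; done) | simp only [mul_assoc, mul_inv_rev, inv_inv, mul_inv_cancel_left, inv_mul_cancel_left, mul_inv_cancel, inv_mul_cancel, mul_one, one_mul, inv_one, C]) (by first | (simp only [mul_assoc, mul_inv_rev, inv_inv, mul_inv_cancel_left, inv_mul_cancel_left, mul_inv_cancel, inv_mul_cancel, mul_one, one_mul, inv_one, C6]; done) | simp only [mul_assoc, mul_inv_rev, inv_inv, mul_inv_cancel_left, inv_mul_cancel_left, mul_inv_cancel, inv_mul_cancel, mul_one, one_mul, inv_one, C]),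
    o.cv hδ (1) (by simp only [hδ, δinv hδ, δone hδ, D] <;> linear_combination (0) * h3) (by first | (simp only [mul_assoc, mul_inv_rev, inv_inv, mul_inv_cancel_left, inv_mul_cancel_left, mul_inv_cancel, inv_mul_cancel, mul_one, one_mul, inv_one]; done) | simp only [mul_assoc, mul_inv_rev, inv_inv, mul_inv_cancel_left, inv_mul_cancel_left, mul_inv_cancel, inv_mul_cancel, mul_one, one_mul, inv_one, C]) (by first | (simp only [mul_assoc, mul_inv_rev, inv_inv, mul_inv_cancel_left, inv_mul_cancel_left, mul_inv_cancel, inv_mul_cancel, mul_one, one_mul, inv_one]; done) | simp only [mul_assoc, mul_inv_rev, inv_inv, mul_inv_cancel_left, inv_mul_cancel_left, mul_inv_cancel, inv_mul_cancel, mul_one, one_mul, inv_one, C]),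
    o.cv hδ (1) (by simp only [hδ, δinv hδ, δone hδ, D] <;> linear_combination (0) * h3) (by first | (simp only [mul_assoc, mul_inv_rev, inv_inv, mul_inv_cancel_left, inv_mul_cancel_left, mul_inv_cancel, inv_mul_cancel, mul_one, one_mul, inv_one]; done) | simp only [mul_assoc, mul_inv_rev, inv_inv, mul_inv_cancel_left, inv_mul_cancel_left, mul_inv_cancel, inv_mul_cancel, mul_one, one_mul, inv_one, C]) (by first | (simp only [mul_assoc, mul_inv_rev, inv_inv, mul_inv_cancel_left, inv_mul_cancel_left, mul_inv_cancel, inv_mul_cancel, mul_one, one_mul, inv_one]; done) | simp only [mul_assoc, mul_inv_rev, inv_inv, mul_inv_cancel_left, inv_mul_cancel_left, mul_inv_cancel, inv_mul_cancel, mul_one, one_mul, inv_one, C]),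
    o.cv hδ (1) (by simp only [hδ, δinv hδ, δone hδ, D] <;> linear_combination (1) * h3) (by first | (simp only [mul_assoc, mul_inv_rev, inv_inv, mul_inv_cancel_left, inv_mul_cancel_left, mul_inv_cancel, inv_mul_cancel, mul_one, one_mul, inv_one]; done) | simp only [mul_assoc, mul_inv_rev, inv_inv, mul_inv_cancel_left, inv_mul_cancel_left, mul_inv_cancel, inv_mul_cancel, mul_one, one_mul, inv_one, C]) (by first | (simp only [mul_assoc, mul_inv_rev, inv_inv, mul_inv_cancel_left, inv_mul_cancel_left, mul_inv_cancel, inv_mul_cancel, mul_one, one_mul, inv_one, C6]; done) | simp only [mul_assoc, mul_inv_rev, inv_inv, mul_inv_cancel_left, inv_mul_cancel_left, mul_inv_cancel, inv_mul_cancel, mul_one, one_mul, inv_one, C]),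
    o.cv hδ (1) (by simp only [hδ, δinv hδ, δone hδ, D] <;> linear_combination (0) * h3) (by first | (simp only [mul_assoc, mul_inv_rev, inv_inv, mul_inv_cancel_left, inv_mul_cancel_left, mul_inv_cancel, inv_mul_cancel, mul_one, one_mul, inv_one]; done) | simp only [mul_assoc, mul_inv_rev, inv_inv, mul_inv_cancel_left, inv_mul_cancel_left, mul_inv_cancel, inv_mul_cancel, mul_one, one_mul, inv_one, C]) (by first | (simp only [mul_assoc, mul_inv_rev, inv_inv, mul_inv_cancel_left, inv_mul_cancel_left, mul_inv_cancel, inv_mul_cancel, mul_one, one_mul, inv_one]; done) | simp only [mul_assoc, mul_inv_rev, inv_inv, mul_inv_cancel_left, inv_mul_cancel_left, mul_inv_cancel, inv_mul_cancel, mul_one, one_mul, inv_one, C]),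
    o.cv hδ (f4 * (f3⁻¹ * (P * (f3⁻¹ * (P * (f3⁻¹ * (P * f4⁻¹))))))) (by simp only [hδ, δinv hδ, δone hδ, D] <;> linear_combination (-1) * h3) (by first | (simp only [mul_assoc, mul_inv_rev, inv_inv, mul_inv_cancel_left, inv_mul_cancel_left, mul_inv_cancel, inv_mul_cancel, mul_one, one_mul, inv_one, C6]; done) | simp only [mul_assoc, mul_inv_rev, inv_inv, mul_inv_cancel_left, inv_mul_cancel_left, mul_inv_cancel, inv_mul_cancel, mul_one, one_mul, inv_one, C]) (by first | (simp only [mul_assoc, mul_inv_rev, inv_inv, mul_inv_cancel_left, inv_mul_cancel_left, mul_inv_cancel, inv_mul_cancel, mul_one, one_mul, inv_one, C6]; done) | simp only [mul_assoc, mul_inv_rev, inv_inv, mul_inv_cancel_left, inv_mul_cancel_left, mul_inv_cancel, inv_mul_cancel, mul_one, one_mul, inv_one, C]),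
    o.cv hδ (1) (by simp only [hδ, δinv hδ, δone hδ, D] <;> linear_combination (0) * h3) (by first | (simp only [mul_assoc, mul_inv_rev, inv_inv, mul_inv_cancel_left, inv_mul_cancel_left, mul_inv_cancel, inv_mul_cancel, mul_one, one_mul, inv_one]; done) | simp only [mul_assoc, mul_inv_rev, inv_inv, mul_inv_cancel_left, inv_mul_cancel_left, mul_inv_cancel, inv_mul_cancel, mul_one, one_mul, inv_one, C]) (by first | (simp only [mul_assoc, mul_inv_rev, inv_inv, mul_inv_cancel_left, inv_mul_cancel_left, mul_inv_cancel, inv_mul_cancel, mul_one, one_mul, inv_one]; done) | simp only [mul_assoc, mul_inv_rev, inv_inv, mul_inv_cancel_left, inv_mul_cancel_left, mul_inv_cancel, inv_mul_cancel, mul_one, one_mul, inv_one, C]),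
    o.cv hδ (1) (by simp only [hδ, δinv hδ, δone hδ, D] <;> linear_combination (0) * h3) (by first | (simp only [mul_assoc, mul_inv_rev, inv_inv, mul_inv_cancel_left, inv_mul_cancel_left, mul_inv_cancel, inv_mul_cancel, mul_one, one_mul, inv_one]; done) | simp only [mul_assoc, mul_inv_rev, inv_inv, mul_inv_cancel_left, inv_mul_cancel_left, mul_inv_cancel, inv_mul_cancel, mul_one, one_mul, inv_one, C]) (by first | (simp only [mul_assoc, mul_inv_rev, inv_inv, mul_inv_cancel_left, inv_mul_cancel_left, mul_inv_cancel, inv_mul_cancel, mul_one, one_mul, inv_one]; done) | simp only [mul_assoc, mul_inv_rev, inv_inv, mul_inv_cancel_left, inv_mul_cancel_left, mul_inv_cancel, inv_mul_cancel, mul_one, one_mul, inv_one, C]),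
    o.cv hδ (1) (by simp only [hδ, δinv hδ, δone hδ, D] <;> linear_combination (0) * h3) (by first | (simp only [mul_assoc, mul_inv_rev, inv_inv, mul_inv_cancel_left, inv_mul_cancel_left, mul_inv_cancel, inv_mul_cancel, mul_one, one_mul, inv_one]; done) | simp only [mul_assoc, mul_inv_rev, inv_inv, mul_inv_cancel_left, inv_mul_cancel_left, mul_inv_cancel, inv_mul_cancel, mul_one, one_mul, inv_one, C]) (by first | (simp only [mul_assoc, mul_inv_rev, inv_inv, mul_inv_cancel_left, inv_mul_cancel_left, mul_inv_cancel, inv_mul_cancel, mul_one, one_mul, inv_one]; done) | simp only [mul_assoc, mul_inv_rev, inv_inv, mul_inv_cancel_left, inv_mul_cancel_left, mul_inv_cancel, inv_mul_cancel, mul_one, one_mul, inv_one, C]),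
    o.cv hδ (1) (by simp only [hδ, δinv hδ, δone hδ, D] <;> linear_combination (0) * h3) (by first | (simp only [mul_assoc, mul_inv_rev, inv_inv, mul_inv_cancel_left, inv_mul_cancel_left, mul_inv_cancel, inv_mul_cancel, mul_one, one_mul, inv_one]; done) | simp only [mul_assoc, mul_inv_rev, inv_inv, mul_inv_cancel_left, inv_mul_cancel_left, mul_inv_cancel, inv_mul_cancel, mul_one, one_mul, inv_one, C]) (by first | (simp only [mul_assoc, mul_inv_rev, inv_inv, mul_inv_cancel_left, inv_mul_cancel_left, mul_inv_cancel, inv_mul_cancel, mul_one, one_mul, inv_one]; done) | simp only [mul_assoc, mul_inv_rev, inv_inv, mul_inv_cancel_left, inv_mul_cancel_left, mul_inv_cancel, inv_mul_cancel, mul_one, one_mul, inv_one, C]),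
    o.cv hδ (1) (by simp only [hδ, δinv hδ, δone hδ, D] <;> linear_combination (0) * h3) (by first | (simp only [mul_assoc, mul_inv_rev, inv_inv, mul_inv_cancel_left, inv_mul_cancel_left, mul_inv_cancel, inv_mul_cancel, mul_one, one_mul, inv_one]; done) | simp only [mul_assoc, mul_inv_rev, inv_inv, mul_inv_cancel_left, inv_mul_cancel_left, mul_inv_cancel, inv_mul_cancel, mul_one, one_mul, inv_one, C]) (by first | (simp only [mul_assoc, mul_inv_rev, inv_inv, mul_inv_cancel_left, inv_mul_cancel_left, mul_inv_cancel, inv_mul_cancel, mul_one, one_mul, inv_one]; done) | simp only [mul_assoc, mul_inv_rev, inv_inv, mul_inv_cancel_left, inv_mul_cancel_left, mul_inv_cancel, inv_mul_cancel, mul_one, one_mul, inv_one, C]),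
    o.cv hδ (1) (by simp only [hδ, δinv hδ, δone hδ, D] <;> linear_combination (0) * h3) (by first | (simp only [mul_assoc, mul_inv_rev, inv_inv, mul_inv_cancel_left, inv_mul_cancel_left, mul_inv_cancel, inv_mul_cancel, mul_one, one_mul, inv_one]; done) | simp only [mul_assoc, mul_inv_rev, inv_inv, mul_inv_cancel_left, inv_mul_cancel_left, mul_inv_cancel, inv_mul_cancel, mul_one, one_mul, inv_one, C]) (by first | (simp only [mul_assoc, mul_inv_rev, inv_inv, mul_inv_cancel_left, inv_mul_cancel_left, mul_inv_cancel, inv_mul_cancel, mul_one, one_mul, inv_one]; done) | simp only [mul_assoc, mul_inv_rev, inv_inv, mul_inv_cancel_left, inv_mul_cancel_left, mul_inv_cancel, inv_mul_cancel, mul_one, one_mul, inv_one, C]),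
    o.cv hδ (1) (by simp only [hδ, δinv hδ, δone hδ, D] <;> linear_combination (0) * h3) (by first | (simp only [mul_assoc, mul_inv_rev, inv_inv, mul_inv_cancel_left, inv_mul_cancel_left, mul_inv_cancel, inv_mul_cancel, mul_one, one_mul, inv_one]; done) | simp only [mul_assoc, mul_inv_rev, inv_inv, mul_inv_cancel_left, inv_mul_cancel_left, mul_inv_cancel, inv_mul_cancel, mul_one, one_mul, inv_one, C]) (by first | (simp only [mul_assoc, mul_inv_rev, inv_inv, mul_inv_cancel_left, inv_mul_cancel_left, mul_inv_cancel, inv_mul_cancel, mul_one, one_mul, inv_one]; done) | simp only [mul_assoc, mul_inv_rev, inv_inv, mul_inv_cancel_left, inv_mul_cancel_left, mul_inv_cancel, inv_mul_cancel, mul_one, one_mul, inv_one, C]),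
    o.cv hδ (1) (by simp only [hδ, δinv hδ, δone hδ, D] <;> linear_combination (0) * h3) (by first | (simp only [mul_assoc, mul_inv_rev, inv_inv, mul_inv_cancel_left, inv_mul_cancel_left, mul_inv_cancel, inv_mul_cancel, mul_one, one_mul, inv_one]; done) | simp only [mul_assoc, mul_inv_rev, inv_inv, mul_inv_cancel_left, inv_mul_cancel_left, mul_inv_cancel, inv_mul_cancel, mul_one, one_mul, inv_one, C]) (by first | (simp only [mul_assoc, mul_inv_rev, inv_inv, mul_inv_cancel_left, inv_mul_cancel_left, mul_inv_cancel, inv_mul_cancel, mul_one, one_mul, inv_one]; done) | simp only [mul_assoc, mul_inv_rev, inv_inv, mul_inv_cancel_left, inv_mul_cancel_left, mul_inv_cancel, inv_mul_cancel, mul_one, one_mul, inv_one, C]),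
    o.cv hδ (P * f2⁻¹) (by simp only [hδ, δinv hδ, δone hδ, D] <;> linear_combination (0) * h3) (by first | (simp only [mul_assoc, mul_inv_rev, inv_inv, mul_inv_cancel_left, inv_mul_cancel_left, mul_inv_cancel, inv_mul_cancel, mul_one, one_mul, inv_one]; done) | simp only [mul_assoc, mul_inv_rev, inv_inv, mul_inv_cancel_left, inv_mul_cancel_left, mul_inv_cancel, inv_mul_cancel, mul_one, one_mul, inv_one, C]) (by first | (simp only [mul_assoc, mul_inv_rev, inv_inv, mul_inv_cancel_left, inv_mul_cancel_left, mul_inv_cancel, inv_mul_cancel, mul_one, one_mul, inv_one]; done) | simp only [mul_assoc, mul_inv_rev, inv_inv, mul_inv_cancel_left, inv_mul_cancel_left, mul_inv_cancel, inv_mul_cancel, mul_one, one_mul, inv_one, C]),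
    o.cv hδ (1) (by simp only [hδ, δinv hδ, δone hδ, D] <;> linear_combination (0) * h3) (by first | (simp only [mul_assoc, mul_inv_rev, inv_inv, mul_inv_cancel_left, inv_mul_cancel_left, mul_inv_cancel, inv_mul_cancel, mul_one, one_mul, inv_one]; done) | simp only [mul_assoc, mul_inv_rev, inv_inv, mul_inv_cancel_left, inv_mul_cancel_left, mul_inv_cancel, inv_mul_cancel, mul_one, one_mul, inv_one, C]) (by first | (simp only [mul_assoc, mul_inv_rev, inv_inv, mul_inv_cancel_left, inv_mul_cancel_left, mul_inv_cancel, inv_mul_cancel, mul_one, one_mul, inv_one]; done) | simp only [mul_assoc, mul_inv_rev, inv_inv, mul_inv_cancel_left, inv_mul_cancel_left, mul_inv_cancel, inv_mul_cancel, mul_one, one_mul, inv_one, C]),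
    o.cv hδ (f3 * (P⁻¹ * (f3 * (P⁻¹ * (f3 * P⁻¹))))) (by simp only [hδ, δinv hδ, δone hδ, D] <;> linear_combination (1) * h3) (by first | (simp only [mul_assoc, mul_inv_rev, inv_inv, mul_inv_cancel_left, inv_mul_cancel_left, mul_inv_cancel, inv_mul_cancel, mul_one, one_mul, inv_one, C6]; done) | simp only [mul_assoc, mul_inv_rev, inv_inv, mul_inv_cancel_left, inv_mul_cancel_left, mul_inv_cancel, inv_mul_cancel, mul_one, one_mul, inv_one, C]) (by first | (simp only [mul_assoc, mul_inv_rev, inv_inv, mul_inv_cancel_left, inv_mul_cancel_left, mul_inv_cancel, inv_mul_cancel, mul_one, one_mul, inv_one, C6]; done) | simp only [mul_assoc, mul_inv_rev, inv_inv, mul_inv_cancel_left, inv_mul_cancel_left, mul_inv_cancel, inv_mul_cancel, mul_one, one_mul, inv_one, C])⟩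

theorem close_AAAAA_k7 {G : Type*} [Group G] {δ : G → ZMod 3} (hδ : ∀ u v, δ (u * v) = δ u + δ v) (o : Pre δ)
    {P Q f0 f1 f2 f3 f4 : G} {e : ZMod 3} (h3 : 3 * e = 0)
    (D : δ P = e ∧ δ Q = -e ∧ δ f0 = 0 ∧ δ f1 = 0 ∧ δ f2 = 0 ∧ δ f3 = 0 ∧ δ f4 = 0)
    (C : Cube P f0 ∧ Cube P f1 ∧ Cube Q f0 ∧ Cube Q f1 ∧ Cube P f2 ∧ Cube Q f2 ∧ Cube P f3 ∧ Cube Q f3 ∧ Cube P f4 ∧ Cube Q f4) :
    (o.lt (f3 * P⁻¹) (f3 * (P⁻¹ * (f3 * f2⁻¹))) ↔ o.lt ((f3 * P⁻¹) * (f2 * Q⁻¹)) ((f3 * P⁻¹) * (f3 * Q⁻¹))) ∧
    (o.lt (f3 * (P⁻¹ * (Q * f3⁻¹))) (P * f3⁻¹) ↔ o.lt ((f3 * P⁻¹) * (f3 * Q⁻¹)⁻¹) ((f3 * P⁻¹) * (P * f3⁻¹)⁻¹)) ∧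
    (o.lt (f3 * (Q⁻¹ * (f1 * P⁻¹))) (f3 * (Q⁻¹ * (f0 * P⁻¹))) ↔ o.lt ((f3 * Q⁻¹) * (f1 * P⁻¹)) ((f3 * Q⁻¹) * (f0 * P⁻¹))) ∧
    (o.lt (f3 * f1⁻¹) (f3 * (Q⁻¹ * (f0 * P⁻¹))) ↔ o.lt ((f3 * Q⁻¹) * (Q * f1⁻¹)) ((f3 * Q⁻¹) * (f0 * P⁻¹))) ∧
    (o.lt (f3 * (Q⁻¹ * (P * f0⁻¹))) (f3 * (Q⁻¹ * (f0 * Q⁻¹))) ↔ o.lt ((f3 * Q⁻¹) * (f0 * P⁻¹)⁻¹) ((f3 * Q⁻¹) * (Q * f0⁻¹)⁻¹)) ∧
    (o.lt (f3 * f0⁻¹) (f3 * f1⁻¹) ↔ o.lt ((f3 * Q⁻¹) * (Q * f0⁻¹)) ((f3 * Q⁻¹) * (Q * f1⁻¹))) ∧
    (o.lt (f3 * (Q⁻¹ * (f0 * Q⁻¹))) (f3 * (Q⁻¹ * (P * f0⁻¹))) ↔ o.lt ((f3 * Q⁻¹) * (Q * f0⁻¹)⁻¹) ((f3 * Q⁻¹) * (f0 * P⁻¹)⁻¹)) ∧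
    (o.lt (f3 * (Q⁻¹ * (f3 * P⁻¹))) (f3 * (Q⁻¹ * (f4 * P⁻¹))) ↔ o.lt ((f3 * Q⁻¹) * (f3 * P⁻¹)) ((f3 * Q⁻¹) * (f4 * P⁻¹))) ∧
    (o.lt (f3 * (Q⁻¹ * (f3 * P⁻¹))) (f3 * f4⁻¹) ↔ o.lt ((f3 * Q⁻¹) * (f3 * P⁻¹)) ((f3 * Q⁻¹) * (Q * f4⁻¹))) ∧
    (o.lt (Q * f3⁻¹) (f3 * (Q⁻¹ * (P * f3⁻¹))) ↔ o.lt ((f3 * Q⁻¹) * (Q * f3⁻¹)⁻¹) ((f3 * Q⁻¹) * (f3 * P⁻¹)⁻¹)) ∧
    (o.lt (f3 * Q⁻¹) (f4 * Q⁻¹) ↔ o.lt ((f3 * Q⁻¹) * (Q * f4⁻¹)) ((f3 * Q⁻¹) * (Q * f3⁻¹))) ∧
    (o.lt (f3 * (Q⁻¹ * (P * f3⁻¹))) (Q * f3⁻¹) ↔ o.lt ((f3 * Q⁻¹) * (f3 * P⁻¹)⁻¹) ((f3 * Q⁻¹) * (Q * f3⁻¹)⁻¹)) ∧
    (o.lt (f3 * (Q⁻¹ * (P * f4⁻¹))) (f3 * (Q⁻¹ * (P * f0⁻¹))) ↔ o.lt ((f3 * Q⁻¹) * (P * f4⁻¹)) ((f3 * Q⁻¹) * (P * f0⁻¹))) ∧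
    (o.lt (f3 * (Q⁻¹ * (f0 * Q⁻¹))) (f3 * (Q⁻¹ * (P * f4⁻¹))) ↔ o.lt ((f3 * Q⁻¹) * (f0 * Q⁻¹)) ((f3 * Q⁻¹) * (P * f4⁻¹))) ∧
    (o.lt (f3 * f0⁻¹) (f3 * (Q⁻¹ * (f0 * P⁻¹))) ↔ o.lt ((f3 * Q⁻¹) * (f0 * Q⁻¹)⁻¹) ((f3 * Q⁻¹) * (P * f0⁻¹)⁻¹)) ∧
    (o.lt (P * (f4⁻¹ * (f1 * P⁻¹))) (P * (f4⁻¹ * (f0 * P⁻¹))) ↔ o.lt ((P * f4⁻¹) * (f1 * P⁻¹)) ((P * f4⁻¹) * (f0 * P⁻¹))) ∧
    (o.lt (P * (f4⁻¹ * (Q * f1⁻¹))) (P * (f4⁻¹ * (f0 * P⁻¹))) ↔ o.lt ((P * f4⁻¹) * (Q * f1⁻¹)) ((P * f4⁻¹) * (f0 * P⁻¹))) ∧
    (o.lt (f4 * (P⁻¹ * (f4 * f0⁻¹))) (P * (f4⁻¹ * (f0 * Q⁻¹))) ↔ o.lt ((P * f4⁻¹) * (f0 * P⁻¹)⁻¹) ((P * f4⁻¹) * (Q * f0⁻¹)⁻¹)) ∧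
    (o.lt (P * (f4⁻¹ * (Q * f0⁻¹))) (P * (f4⁻¹ * (Q * f1⁻¹))) ↔ o.lt ((P * f4⁻¹) * (Q * f0⁻¹)) ((P * f4⁻¹) * (Q * f1⁻¹))) ∧
    (o.lt (P * (f4⁻¹ * (f0 * Q⁻¹))) (f4 * (P⁻¹ * (f4 * f0⁻¹))) ↔ o.lt ((P * f4⁻¹) * (Q * f0⁻¹)⁻¹) ((P * f4⁻¹) * (f0 * P⁻¹)⁻¹)) := by
  have C' := C
  obtain ⟨C0, C1, C2, C3, C4, C5, C6, C7, C8, C9⟩ := C'
  simp only [Cube] at C C0 C1 C2 C3 C4 C5 C6 C7 C8 C9
  exact ⟨o.cv hδ (f2 * Q⁻¹) (by simp only [hδ, δinv hδ, δone hδ, D] <;> linear_combination (0) * h3) (by first | (simp only [mul_assoc, mul_inv_rev, inv_inv, mul_inv_cancel_left, inv_mul_cancel_left, mul_inv_cancel, inv_mul_cancel, mul_one, one_mul, inv_one]; done) | simp only [mul_assoc, mul_inv_rev, inv_inv, mul_inv_cancel_left, inv_mul_cancel_left, mul_inv_cancel, inv_mul_cancel, mul_one, one_mul, inv_one, C]) (by first | (simp only [mul_assoc, mul_inv_rev, inv_inv, mul_inv_cancel_left, inv_mul_cancel_left, mul_inv_cancel, inv_mul_cancel, mul_one, one_mul, inv_one]; done) | simp only [mul_assoc, mul_inv_rev, inv_inv, mul_inv_cancel_left, inv_mul_cancel_left, mul_inv_cancel, inv_mul_cancel, mul_one, one_mul, inv_one, C]),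
    o.cv hδ (1) (by simp only [hδ, δinv hδ, δone hδ, D] <;> linear_combination (-1) * h3) (by first | (simp only [mul_assoc, mul_inv_rev, inv_inv, mul_inv_cancel_left, inv_mul_cancel_left, mul_inv_cancel, inv_mul_cancel, mul_one, one_mul, inv_one]; done) | simp only [mul_assoc, mul_inv_rev, inv_inv, mul_inv_cancel_left, inv_mul_cancel_left, mul_inv_cancel, inv_mul_cancel, mul_one, one_mul, inv_one, C]) (by first | (simp only [mul_assoc, mul_inv_rev, inv_inv, mul_inv_cancel_left, inv_mul_cancel_left, mul_inv_cancel, inv_mul_cancel, mul_one, one_mul, inv_one, C6]; done) | simp only [mul_assoc, mul_inv_rev, inv_inv, mul_inv_cancel_left, inv_mul_cancel_left, mul_inv_cancel, inv_mul_cancel, mul_one, one_mul, inv_one, C]),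
    o.cv hδ (1) (by simp only [hδ, δinv hδ, δone hδ, D] <;> linear_combination (0) * h3) (by first | (simp only [mul_assoc, mul_inv_rev, inv_inv, mul_inv_cancel_left, inv_mul_cancel_left, mul_inv_cancel, inv_mul_cancel, mul_one, one_mul, inv_one]; done) | simp only [mul_assoc, mul_inv_rev, inv_inv, mul_inv_cancel_left, inv_mul_cancel_left, mul_inv_cancel, inv_mul_cancel, mul_one, one_mul, inv_one, C]) (by first | (simp only [mul_assoc, mul_inv_rev, inv_inv, mul_inv_cancel_left, inv_mul_cancel_left, mul_inv_cancel, inv_mul_cancel, mul_one, one_mul, inv_one]; done) | simp only [mul_assoc, mul_inv_rev, inv_inv, mul_inv_cancel_left, inv_mul_cancel_left, mul_inv_cancel, inv_mul_cancel, mul_one, one_mul, inv_one, C]),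
    o.cv hδ (1) (by simp only [hδ, δinv hδ, δone hδ, D] <;> linear_combination (0) * h3) (by first | (simp only [mul_assoc, mul_inv_rev, inv_inv, mul_inv_cancel_left, inv_mul_cancel_left, mul_inv_cancel, inv_mul_cancel, mul_one, one_mul, inv_one]; done) | simp only [mul_assoc, mul_inv_rev, inv_inv, mul_inv_cancel_left, inv_mul_cancel_left, mul_inv_cancel, inv_mul_cancel, mul_one, one_mul, inv_one, C]) (by first | (simp only [mul_assoc, mul_inv_rev, inv_inv, mul_inv_cancel_left, inv_mul_cancel_left, mul_inv_cancel, inv_mul_cancel, mul_one, one_mul, inv_one]; done) | simp only [mul_assoc, mul_inv_rev, inv_inv, mul_inv_cancel_left, inv_mul_cancel_left, mul_inv_cancel, inv_mul_cancel, mul_one, one_mul, inv_one, C]),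
    o.cv hδ (1) (by simp only [hδ, δinv hδ, δone hδ, D] <;> linear_combination (0) * h3) (by first | (simp only [mul_assoc, mul_inv_rev, inv_inv, mul_inv_cancel_left, inv_mul_cancel_left, mul_inv_cancel, inv_mul_cancel, mul_one, one_mul, inv_one]; done) | simp only [mul_assoc, mul_inv_rev, inv_inv, mul_inv_cancel_left, inv_mul_cancel_left, mul_inv_cancel, inv_mul_cancel, mul_one, one_mul, inv_one, C]) (by first | (simp only [mul_assoc, mul_inv_rev, inv_inv, mul_inv_cancel_left, inv_mul_cancel_left, mul_inv_cancel, inv_mul_cancel, mul_one, one_mul, inv_one]; done) | simp only [mul_assoc, mul_inv_rev, inv_inv, mul_inv_cancel_left, inv_mul_cancel_left, mul_inv_cancel, inv_mul_cancel, mul_one, one_mul, inv_one, C]),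
    o.cv hδ (1) (by simp only [hδ, δinv hδ, δone hδ, D] <;> linear_combination (0) * h3) (by first | (simp only [mul_assoc, mul_inv_rev, inv_inv, mul_inv_cancel_left, inv_mul_cancel_left, mul_inv_cancel, inv_mul_cancel, mul_one, one_mul, inv_one]; done) | simp only [mul_assoc, mul_inv_rev, inv_inv, mul_inv_cancel_left, inv_mul_cancel_left, mul_inv_cancel, inv_mul_cancel, mul_one, one_mul, inv_one, C]) (by first | (simp only [mul_assoc, mul_inv_rev, inv_inv, mul_inv_cancel_left, inv_mul_cancel_left, mul_inv_cancel, inv_mul_cancel, mul_one, one_mul, inv_one]; done) | simp only [mul_assoc, mul_inv_rev, inv_inv, mul_inv_cancel_left, inv_mul_cancel_left, mul_inv_cancel, inv_mul_cancel, mul_one, one_mul, inv_one, C]),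
    o.cv hδ (1) (by simp only [hδ, δinv hδ, δone hδ, D] <;> linear_combination (0) * h3) (by first | (simp only [mul_assoc, mul_inv_rev, inv_inv, mul_inv_cancel_left, inv_mul_cancel_left, mul_inv_cancel, inv_mul_cancel, mul_one, one_mul, inv_one]; done) | simp only [mul_assoc, mul_inv_rev, inv_inv, mul_inv_cancel_left, inv_mul_cancel_left, mul_inv_cancel, inv_mul_cancel, mul_one, one_mul, inv_one, C]) (by first | (simp only [mul_assoc, mul_inv_rev, inv_inv, mul_inv_cancel_left, inv_mul_cancel_left, mul_inv_cancel, inv_mul_cancel, mul_one, one_mul, inv_one]; done) | simp only [mul_assoc, mul_inv_rev, inv_inv, mul_inv_cancel_left, inv_mul_cancel_left, mul_inv_cancel, inv_mul_cancel, mul_one, one_mul, inv_one, C]),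
    o.cv hδ (1) (by simp only [hδ, δinv hδ, δone hδ, D] <;> linear_combination (0) * h3) (by first | (simp only [mul_assoc, mul_inv_rev, inv_inv, mul_inv_cancel_left, inv_mul_cancel_left, mul_inv_cancel, inv_mul_cancel, mul_one, one_mul, inv_one]; done) | simp only [mul_assoc, mul_inv_rev, inv_inv, mul_inv_cancel_left, inv_mul_cancel_left, mul_inv_cancel, inv_mul_cancel, mul_one, one_mul, inv_one, C]) (by first | (simp only [mul_assoc, mul_inv_rev, inv_inv, mul_inv_cancel_left, inv_mul_cancel_left, mul_inv_cancel, inv_mul_cancel, mul_one, one_mul, inv_one]; done) | simp only [mul_assoc, mul_inv_rev, inv_inv, mul_inv_cancel_left, inv_mul_cancel_left, mul_inv_cancel, inv_mul_cancel, mul_one, one_mul, inv_one, C]),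
    o.cv hδ (1) (by simp only [hδ, δinv hδ, δone hδ, D] <;> linear_combination (0) * h3) (by first | (simp only [mul_assoc, mul_inv_rev, inv_inv, mul_inv_cancel_left, inv_mul_cancel_left, mul_inv_cancel, inv_mul_cancel, mul_one, one_mul, inv_one]; done) | simp only [mul_assoc, mul_inv_rev, inv_inv, mul_inv_cancel_left, inv_mul_cancel_left, mul_inv_cancel, inv_mul_cancel, mul_one, one_mul, inv_one, C]) (by first | (simp only [mul_assoc, mul_inv_rev, inv_inv, mul_inv_cancel_left, inv_mul_cancel_left, mul_inv_cancel, inv_mul_cancel, mul_one, one_mul, inv_one]; done) | simp only [mul_assoc, mul_inv_rev, inv_inv, mul_inv_cancel_left, inv_mul_cancel_left, mul_inv_cancel, inv_mul_cancel, mul_one, one_mul, inv_one, C]),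
    o.cv hδ (f3 * (Q⁻¹ * (f3 * (Q⁻¹ * (f3 * Q⁻¹))))) (by simp only [hδ, δinv hδ, δone hδ, D] <;> linear_combination (-1) * h3) (by first | (simp only [mul_assoc, mul_inv_rev, inv_inv, mul_inv_cancel_left, inv_mul_cancel_left, mul_inv_cancel, inv_mul_cancel, mul_one, one_mul, inv_one, C7]; done) | simp only [mul_assoc, mul_inv_rev, inv_inv, mul_inv_cancel_left, inv_mul_cancel_left, mul_inv_cancel, inv_mul_cancel, mul_one, one_mul, inv_one, C]) (by first | (simp only [mul_assoc, mul_inv_rev, inv_inv, mul_inv_cancel_left, inv_mul_cancel_left, mul_inv_cancel, inv_mul_cancel, mul_one, one_mul, inv_one, C7]; done) | simp only [mul_assoc, mul_inv_rev, inv_inv, mul_inv_cancel_left, inv_mul_cancel_left, mul_inv_cancel, inv_mul_cancel, mul_one, one_mul, inv_one, C]),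
    o.cv hδ (Q * f4⁻¹) (by simp only [hδ, δinv hδ, δone hδ, D] <;> linear_combination (0) * h3) (by first | (simp only [mul_assoc, mul_inv_rev, inv_inv, mul_inv_cancel_left, inv_mul_cancel_left, mul_inv_cancel, inv_mul_cancel, mul_one, one_mul, inv_one]; done) | simp only [mul_assoc, mul_inv_rev, inv_inv, mul_inv_cancel_left, inv_mul_cancel_left, mul_inv_cancel, inv_mul_cancel, mul_one, one_mul, inv_one, C]) (by first | (simp only [mul_assoc, mul_inv_rev, inv_inv, mul_inv_cancel_left, inv_mul_cancel_left, mul_inv_cancel, inv_mul_cancel, mul_one, one_mul, inv_one]; done) | simp only [mul_assoc, mul_inv_rev, inv_inv, mul_inv_cancel_left, inv_mul_cancel_left, mul_inv_cancel, inv_mul_cancel, mul_one, one_mul, inv_one, C]),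
    o.cv hδ (1) (by simp only [hδ, δinv hδ, δone hδ, D] <;> linear_combination (1) * h3) (by first | (simp only [mul_assoc, mul_inv_rev, inv_inv, mul_inv_cancel_left, inv_mul_cancel_left, mul_inv_cancel, inv_mul_cancel, mul_one, one_mul, inv_one]; done) | simp only [mul_assoc, mul_inv_rev, inv_inv, mul_inv_cancel_left, inv_mul_cancel_left, mul_inv_cancel, inv_mul_cancel, mul_one, one_mul, inv_one, C]) (by first | (simp only [mul_assoc, mul_inv_rev, inv_inv, mul_inv_cancel_left, inv_mul_cancel_left, mul_inv_cancel, inv_mul_cancel, mul_one, one_mul, inv_one, C7]; done) | simp only [mul_assoc, mul_inv_rev, inv_inv, mul_inv_cancel_left, inv_mul_cancel_left, mul_inv_cancel, inv_mul_cancel, mul_one, one_mul, inv_one, C]),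
    o.cv hδ (1) (by simp only [hδ, δinv hδ, δone hδ, D] <;> linear_combination (0) * h3) (by first | (simp only [mul_assoc, mul_inv_rev, inv_inv, mul_inv_cancel_left, inv_mul_cancel_left, mul_inv_cancel, inv_mul_cancel, mul_one, one_mul, inv_one]; done) | simp only [mul_assoc, mul_inv_rev, inv_inv, mul_inv_cancel_left, inv_mul_cancel_left, mul_inv_cancel, inv_mul_cancel, mul_one, one_mul, inv_one, C]) (by first | (simp only [mul_assoc, mul_inv_rev, inv_inv, mul_inv_cancel_left, inv_mul_cancel_left, mul_inv_cancel, inv_mul_cancel, mul_one, one_mul, inv_one]; done) | simp only [mul_assoc, mul_inv_rev, inv_inv, mul_inv_cancel_left, inv_mul_cancel_left, mul_inv_cancel, inv_mul_cancel, mul_one, one_mul, inv_one, C]),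
    o.cv hδ (1) (by simp only [hδ, δinv hδ, δone hδ, D] <;> linear_combination (0) * h3) (by first | (simp only [mul_assoc, mul_inv_rev, inv_inv, mul_inv_cancel_left, inv_mul_cancel_left, mul_inv_cancel, inv_mul_cancel, mul_one, one_mul, inv_one]; done) | simp only [mul_assoc, mul_inv_rev, inv_inv, mul_inv_cancel_left, inv_mul_cancel_left, mul_inv_cancel, inv_mul_cancel, mul_one, one_mul, inv_one, C]) (by first | (simp only [mul_assoc, mul_inv_rev, inv_inv, mul_inv_cancel_left, inv_mul_cancel_left, mul_inv_cancel, inv_mul_cancel, mul_one, one_mul, inv_one]; done) | simp only [mul_assoc, mul_inv_rev, inv_inv, mul_inv_cancel_left, inv_mul_cancel_left, mul_inv_cancel, inv_mul_cancel, mul_one, one_mul, inv_one, C]),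
    o.cv hδ (1) (by simp only [hδ, δinv hδ, δone hδ, D] <;> linear_combination (0) * h3) (by first | (simp only [mul_assoc, mul_inv_rev, inv_inv, mul_inv_cancel_left, inv_mul_cancel_left, mul_inv_cancel, inv_mul_cancel, mul_one, one_mul, inv_one]; done) | simp only [mul_assoc, mul_inv_rev, inv_inv, mul_inv_cancel_left, inv_mul_cancel_left, mul_inv_cancel, inv_mul_cancel, mul_one, one_mul, inv_one, C]) (by first | (simp only [mul_assoc, mul_inv_rev, inv_inv, mul_inv_cancel_left, inv_mul_cancel_left, mul_inv_cancel, inv_mul_cancel, mul_one, one_mul, inv_one]; done) | simp only [mul_assoc, mul_inv_rev, inv_inv, mul_inv_cancel_left, inv_mul_cancel_left, mul_inv_cancel, inv_mul_cancel, mul_one, one_mul, inv_one, C]),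
    o.cv hδ (1) (by simp only [hδ, δinv hδ, δone hδ, D] <;> linear_combination (0) * h3) (by first | (simp only [mul_assoc, mul_inv_rev, inv_inv, mul_inv_cancel_left, inv_mul_cancel_left, mul_inv_cancel, inv_mul_cancel, mul_one, one_mul, inv_one]; done) | simp only [mul_assoc, mul_inv_rev, inv_inv, mul_inv_cancel_left, inv_mul_cancel_left, mul_inv_cancel, inv_mul_cancel, mul_one, one_mul, inv_one, C]) (by first | (simp only [mul_assoc, mul_inv_rev, inv_inv, mul_inv_cancel_left, inv_mul_cancel_left, mul_inv_cancel, inv_mul_cancel, mul_one, one_mul, inv_one]; done) | simp only [mul_assoc, mul_inv_rev, inv_inv, mul_inv_cancel_left, inv_mul_cancel_left, mul_inv_cancel, inv_mul_cancel, mul_one, one_mul, inv_one, C]),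
    o.cv hδ (1) (by simp only [hδ, δinv hδ, δone hδ, D] <;> linear_combination (0) * h3) (by first | (simp only [mul_assoc, mul_inv_rev, inv_inv, mul_inv_cancel_left, inv_mul_cancel_left, mul_inv_cancel, inv_mul_cancel, mul_one, one_mul, inv_one]; done) | simp only [mul_assoc, mul_inv_rev, inv_inv, mul_inv_cancel_left, inv_mul_cancel_left, mul_inv_cancel, inv_mul_cancel, mul_one, one_mul, inv_one, C]) (by first | (simp only [mul_assoc, mul_inv_rev, inv_inv, mul_inv_cancel_left, inv_mul_cancel_left, mul_inv_cancel, inv_mul_cancel, mul_one, one_mul, inv_one]; done) | simp only [mul_assoc, mul_inv_rev, inv_inv, mul_inv_cancel_left, inv_mul_cancel_left, mul_inv_cancel, inv_mul_cancel, mul_one, one_mul, inv_one, C]),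
    o.cv hδ (f0 * (f4⁻¹ * (P * (f4⁻¹ * (P * (f4⁻¹ * (P * f0⁻¹))))))) (by simp only [hδ, δinv hδ, δone hδ, D] <;> linear_combination (-1) * h3) (by first | (simp only [mul_assoc, mul_inv_rev, inv_inv, mul_inv_cancel_left, inv_mul_cancel_left, mul_inv_cancel, inv_mul_cancel, mul_one, one_mul, inv_one, C8]; done) | simp only [mul_assoc, mul_inv_rev, inv_inv, mul_inv_cancel_left, inv_mul_cancel_left, mul_inv_cancel, inv_mul_cancel, mul_one, one_mul, inv_one, C]) (by first | (simp only [mul_assoc, mul_inv_rev, inv_inv, mul_inv_cancel_left, inv_mul_cancel_left, mul_inv_cancel, inv_mul_cancel, mul_one, one_mul, inv_one, C8]; done) | simp only [mul_assoc, mul_inv_rev, inv_inv, mul_inv_cancel_left, inv_mul_cancel_left, mul_inv_cancel, inv_mul_cancel, mul_one, one_mul, inv_one, C]),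
    o.cv hδ (1) (by simp only [hδ, δinv hδ, δone hδ, D] <;> linear_combination (0) * h3) (by first | (simp only [mul_assoc, mul_inv_rev, inv_inv, mul_inv_cancel_left, inv_mul_cancel_left, mul_inv_cancel, inv_mul_cancel, mul_one, one_mul, inv_one]; done) | simp only [mul_assoc, mul_inv_rev, inv_inv, mul_inv_cancel_left, inv_mul_cancel_left, mul_inv_cancel, inv_mul_cancel, mul_one, one_mul, inv_one, C]) (by first | (simp only [mul_assoc, mul_inv_rev, inv_inv, mul_inv_cancel_left, inv_mul_cancel_left, mul_inv_cancel, inv_mul_cancel, mul_one, one_mul, inv_one]; done) | simp only [mul_assoc, mul_inv_rev, inv_inv, mul_inv_cancel_left, inv_mul_cancel_left, mul_inv_cancel, inv_mul_cancel, mul_one, one_mul, inv_one, C]),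
    o.cv hδ (1) (by simp only [hδ, δinv hδ, δone hδ, D] <;> linear_combination (1) * h3) (by first | (simp only [mul_assoc, mul_inv_rev, inv_inv, mul_inv_cancel_left, inv_mul_cancel_left, mul_inv_cancel, inv_mul_cancel, mul_one, one_mul, inv_one]; done) | simp only [mul_assoc, mul_inv_rev, inv_inv, mul_inv_cancel_left, inv_mul_cancel_left, mul_inv_cancel, inv_mul_cancel, mul_one, one_mul, inv_one, C]) (by first | (simp only [mul_assoc, mul_inv_rev, inv_inv, mul_inv_cancel_left, inv_mul_cancel_left, mul_inv_cancel, inv_mul_cancel, mul_one, one_mul, inv_one, C8]; done) | simp only [mul_assoc, mul_inv_rev, inv_inv, mul_inv_cancel_left, inv_mul_cancel_left, mul_inv_cancel, inv_mul_cancel, mul_one, one_mul, inv_one, C])⟩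

theorem close_AAAAA_k8 {G : Type*} [Group G] {δ : G → ZMod 3} (hδ : ∀ u v, δ (u * v) = δ u + δ v) (o : Pre δ)
    {P Q f0 f1 f2 f3 f4 : G} {e : ZMod 3} (h3 : 3 * e = 0)
    (D : δ P = e ∧ δ Q = -e ∧ δ f0 = 0 ∧ δ f1 = 0 ∧ δ f2 = 0 ∧ δ f3 = 0 ∧ δ f4 = 0)
    (C : Cube P f0 ∧ Cube P f1 ∧ Cube Q f0 ∧ Cube Q f1 ∧ Cube P f2 ∧ Cube Q f2 ∧ Cube P f3 ∧ Cube Q f3 ∧ Cube P f4 ∧ Cube Q f4) :
    (o.lt (f4 * (P⁻¹ * (f4 * f2⁻¹))) (f4 * (P⁻¹ * (f4 * f1⁻¹))) ↔ o.lt ((P * f4⁻¹) * (P * f2⁻¹)) ((P * f4⁻¹) * (P * f1⁻¹))) ∧
    (o.lt (f4 * (P⁻¹ * (f4 * f1⁻¹))) (P * (f4⁻¹ * (f2 * Q⁻¹))) ↔ o.lt ((P * f4⁻¹) * (P * f1⁻¹)) ((P * f4⁻¹) * (f2 * Q⁻¹))) ∧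
    (o.lt (P * (f4⁻¹ * (f2 * P⁻¹))) (P * (f4⁻¹ * (Q * f2⁻¹))) ↔ o.lt ((P * f4⁻¹) * (P * f2⁻¹)⁻¹) ((P * f4⁻¹) * (f2 * Q⁻¹)⁻¹)) ∧
    (o.lt (P * (f4⁻¹ * (f2 * P⁻¹))) (P * (f4⁻¹ * (f3 * P⁻¹))) ↔ o.lt ((P * f4⁻¹) * (f2 * P⁻¹)) ((P * f4⁻¹) * (f3 * P⁻¹))) ∧
    (o.lt (P * (f4⁻¹ * (f2 * P⁻¹))) (P * (f4⁻¹ * (Q * f3⁻¹))) ↔ o.lt ((P * f4⁻¹) * (f2 * P⁻¹)) ((P * f4⁻¹) * (Q * f3⁻¹))) ∧
    (o.lt (P * (f4⁻¹ * (f2 * Q⁻¹))) (f4 * (P⁻¹ * (f4 * f2⁻¹))) ↔ o.lt ((P * f4⁻¹) * (Q * f2⁻¹)⁻¹) ((P * f4⁻¹) * (f2 * P⁻¹)⁻¹)) ∧
    (o.lt (P * (f4⁻¹ * (Q * f3⁻¹))) (P * (f4⁻¹ * (Q * f2⁻¹))) ↔ o.lt ((P * f4⁻¹) * (Q * f3⁻¹)) ((P * f4⁻¹) * (Q * f2⁻¹))) ∧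
    (o.lt (f4 * (P⁻¹ * (f4 * f2⁻¹))) (P * (f4⁻¹ * (f2 * Q⁻¹))) ↔ o.lt ((P * f4⁻¹) * (f2 * P⁻¹)⁻¹) ((P * f4⁻¹) * (Q * f2⁻¹)⁻¹)) ∧
    (o.lt (f4 * P⁻¹) (f4 * (P⁻¹ * (f4 * f3⁻¹))) ↔ o.lt ((P * f4⁻¹) * (P * f4⁻¹)) ((P * f4⁻¹) * (P * f3⁻¹))) ∧
    (o.lt (f4 * (P⁻¹ * (f4 * f3⁻¹))) (P * Q⁻¹) ↔ o.lt ((P * f4⁻¹) * (P * f3⁻¹)) ((P * f4⁻¹) * (f4 * Q⁻¹))) ∧
    (o.lt (f4 * Q⁻¹) (P * f4⁻¹) ↔ o.lt ((P * f4⁻¹) * (P * f4⁻¹)⁻¹) ((P * f4⁻¹) * (f4 * Q⁻¹)⁻¹)) ∧
    (o.lt (f4 * (P⁻¹ * (f4 * f3⁻¹))) (f4 * P⁻¹) ↔ o.lt ((P * f4⁻¹) * (P * f3⁻¹)) ((P * f4⁻¹) * (P * f4⁻¹))) ∧
    (o.lt (P * Q⁻¹) (f4 * (P⁻¹ * (f4 * f3⁻¹))) ↔ o.lt ((P * f4⁻¹) * (f4 * Q⁻¹)) ((P * f4⁻¹) * (P * f3⁻¹))) ∧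
    (o.lt (P * f4⁻¹) (f4 * Q⁻¹) ↔ o.lt ((P * f4⁻¹) * (f4 * Q⁻¹)⁻¹) ((P * f4⁻¹) * (P * f4⁻¹)⁻¹)) ∧
    (o.lt (P * f4⁻¹) (P * f0⁻¹) ↔ o.lt ((P * f4⁻¹) * (f0 * P⁻¹)) ((P * f4⁻¹) * (f4 * P⁻¹))) ∧
    (o.lt (P * f4⁻¹) (f0 * Q⁻¹) ↔ o.lt ((P * f4⁻¹) * (Q * f0⁻¹)) ((P * f4⁻¹) * (f4 * P⁻¹))) ∧
    (o.lt (f4 * P⁻¹) (P * Q⁻¹) ↔ o.lt ((P * f4⁻¹) * (f4 * P⁻¹)⁻¹) ((P * f4⁻¹) * (Q * f4⁻¹)⁻¹)) ∧
    (o.lt (P * (Q⁻¹ * (f4 * Q⁻¹))) (P * (f4⁻¹ * (Q * f0⁻¹))) ↔ o.lt ((P * f4⁻¹) * (Q * f4⁻¹)) ((P * f4⁻¹) * (Q * f0⁻¹))) ∧
    (o.lt (P * Q⁻¹) (f4 * P⁻¹) ↔ o.lt ((P * f4⁻¹) * (Q * f4⁻¹)⁻¹) ((P * f4⁻¹) * (f4 * P⁻¹)⁻¹)) ∧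
    (o.lt (P * f0⁻¹) (P * f1⁻¹) ↔ o.lt (P * f0⁻¹) (P * f1⁻¹)) := by
  have C' := C
  obtain ⟨C0, C1, C2, C3, C4, C5, C6, C7, C8, C9⟩ := C'
  simp only [Cube] at C C0 C1 C2 C3 C4 C5 C6 C7 C8 C9
  exact ⟨o.cv hδ (f2 * (f4⁻¹ * (P * (f4⁻¹ * (P * (f4⁻¹ * (P * f2⁻¹))))))) (by simp only [hδ, δinv hδ, δone hδ, D] <;> linear_combination (0) * h3) (by first | (simp only [mul_assoc, mul_inv_rev, inv_inv, mul_inv_cancel_left, inv_mul_cancel_left, mul_inv_cancel, inv_mul_cancel, mul_one, one_mul, inv_one, C8]; done) | simp only [mul_assoc, mul_inv_rev, inv_inv, mul_inv_cancel_left, inv_mul_cancel_left, mul_inv_cancel, inv_mul_cancel, mul_one, one_mul, inv_one, C]) (by first | (simp only [mul_assoc, mul_inv_rev, inv_inv, mul_inv_cancel_left, inv_mul_cancel_left, mul_inv_cancel, inv_mul_cancel, mul_one, one_mul, inv_one, C8]; done) | simp only [mul_assoc, mul_inv_rev, inv_inv, mul_inv_cancel_left, inv_mul_cancel_left, mul_inv_cancel, inv_mul_cancel, mul_one, one_mul, inv_one, C]),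
    o.cv hδ (f1 * (f4⁻¹ * (P * (f4⁻¹ * (P * (f4⁻¹ * (P * f1⁻¹))))))) (by simp only [hδ, δinv hδ, δone hδ, D] <;> linear_combination (-1) * h3) (by first | (simp only [mul_assoc, mul_inv_rev, inv_inv, mul_inv_cancel_left, inv_mul_cancel_left, mul_inv_cancel, inv_mul_cancel, mul_one, one_mul, inv_one, C8]; done) | simp only [mul_assoc, mul_inv_rev, inv_inv, mul_inv_cancel_left, inv_mul_cancel_left, mul_inv_cancel, inv_mul_cancel, mul_one, one_mul, inv_one, C]) (by first | (simp only [mul_assoc, mul_inv_rev, inv_inv, mul_inv_cancel_left, inv_mul_cancel_left, mul_inv_cancel, inv_mul_cancel, mul_one, one_mul, inv_one, C8]; done) | simp only [mul_assoc, mul_inv_rev, inv_inv, mul_inv_cancel_left, inv_mul_cancel_left, mul_inv_cancel, inv_mul_cancel, mul_one, one_mul, inv_one, C]),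
    o.cv hδ (1) (by simp only [hδ, δinv hδ, δone hδ, D] <;> linear_combination (0) * h3) (by first | (simp only [mul_assoc, mul_inv_rev, inv_inv, mul_inv_cancel_left, inv_mul_cancel_left, mul_inv_cancel, inv_mul_cancel, mul_one, one_mul, inv_one]; done) | simp only [mul_assoc, mul_inv_rev, inv_inv, mul_inv_cancel_left, inv_mul_cancel_left, mul_inv_cancel, inv_mul_cancel, mul_one, one_mul, inv_one, C]) (by first | (simp only [mul_assoc, mul_inv_rev, inv_inv, mul_inv_cancel_left, inv_mul_cancel_left, mul_inv_cancel, inv_mul_cancel, mul_one, one_mul, inv_one]; done) | simp only [mul_assoc, mul_inv_rev, inv_inv, mul_inv_cancel_left, inv_mul_cancel_left, mul_inv_cancel, inv_mul_cancel, mul_one, one_mul, inv_one, C]),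
    o.cv hδ (1) (by simp only [hδ, δinv hδ, δone hδ, D] <;> linear_combination (0) * h3) (by first | (simp only [mul_assoc, mul_inv_rev, inv_inv, mul_inv_cancel_left, inv_mul_cancel_left, mul_inv_cancel, inv_mul_cancel, mul_one, one_mul, inv_one]; done) | simp only [mul_assoc, mul_inv_rev, inv_inv, mul_inv_cancel_left, inv_mul_cancel_left, mul_inv_cancel, inv_mul_cancel, mul_one, one_mul, inv_one, C]) (by first | (simp only [mul_assoc, mul_inv_rev, inv_inv, mul_inv_cancel_left, inv_mul_cancel_left, mul_inv_cancel, inv_mul_cancel, mul_one, one_mul, inv_one]; done) | simp only [mul_assoc, mul_inv_rev, inv_inv, mul_inv_cancel_left, inv_mul_cancel_left, mul_inv_cancel, inv_mul_cancel, mul_one, one_mul, inv_one, C]),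
    o.cv hδ (1) (by simp only [hδ, δinv hδ, δone hδ, D] <;> linear_combination (0) * h3) (by first | (simp only [mul_assoc, mul_inv_rev, inv_inv, mul_inv_cancel_left, inv_mul_cancel_left, mul_inv_cancel, inv_mul_cancel, mul_one, one_mul, inv_one]; done) | simp only [mul_assoc, mul_inv_rev, inv_inv, mul_inv_cancel_left, inv_mul_cancel_left, mul_inv_cancel, inv_mul_cancel, mul_one, one_mul, inv_one, C]) (by first | (simp only [mul_assoc, mul_inv_rev, inv_inv, mul_inv_cancel_left, inv_mul_cancel_left, mul_inv_cancel, inv_mul_cancel, mul_one, one_mul, inv_one]; done) | simp only [mul_assoc, mul_inv_rev, inv_inv, mul_inv_cancel_left, inv_mul_cancel_left, mul_inv_cancel, inv_mul_cancel, mul_one, one_mul, inv_one, C]),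
    o.cv hδ (1) (by simp only [hδ, δinv hδ, δone hδ, D] <;> linear_combination (1) * h3) (by first | (simp only [mul_assoc, mul_inv_rev, inv_inv, mul_inv_cancel_left, inv_mul_cancel_left, mul_inv_cancel, inv_mul_cancel, mul_one, one_mul, inv_one]; done) | simp only [mul_assoc, mul_inv_rev, inv_inv, mul_inv_cancel_left, inv_mul_cancel_left, mul_inv_cancel, inv_mul_cancel, mul_one, one_mul, inv_one, C]) (by first | (simp only [mul_assoc, mul_inv_rev, inv_inv, mul_inv_cancel_left, inv_mul_cancel_left, mul_inv_cancel, inv_mul_cancel, mul_one, one_mul, inv_one, C8]; done) | simp only [mul_assoc, mul_inv_rev, inv_inv, mul_inv_cancel_left, inv_mul_cancel_left, mul_inv_cancel, inv_mul_cancel, mul_one, one_mul, inv_one, C]),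
    o.cv hδ (1) (by simp only [hδ, δinv hδ, δone hδ, D] <;> linear_combination (0) * h3) (by first | (simp only [mul_assoc, mul_inv_rev, inv_inv, mul_inv_cancel_left, inv_mul_cancel_left, mul_inv_cancel, inv_mul_cancel, mul_one, one_mul, inv_one]; done) | simp only [mul_assoc, mul_inv_rev, inv_inv, mul_inv_cancel_left, inv_mul_cancel_left, mul_inv_cancel, inv_mul_cancel, mul_one, one_mul, inv_one, C]) (by first | (simp only [mul_assoc, mul_inv_rev, inv_inv, mul_inv_cancel_left, inv_mul_cancel_left, mul_inv_cancel, inv_mul_cancel, mul_one, one_mul, inv_one]; done) | simp only [mul_assoc, mul_inv_rev, inv_inv, mul_inv_cancel_left, inv_mul_cancel_left, mul_inv_cancel, inv_mul_cancel, mul_one, one_mul, inv_one, C]),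
    o.cv hδ (f2 * (f4⁻¹ * (P * (f4⁻¹ * (P * (f4⁻¹ * (P * f2⁻¹))))))) (by simp only [hδ, δinv hδ, δone hδ, D] <;> linear_combination (-1) * h3) (by first | (simp only [mul_assoc, mul_inv_rev, inv_inv, mul_inv_cancel_left, inv_mul_cancel_left, mul_inv_cancel, inv_mul_cancel, mul_one, one_mul, inv_one, C8]; done) | simp only [mul_assoc, mul_inv_rev, inv_inv, mul_inv_cancel_left, inv_mul_cancel_left, mul_inv_cancel, inv_mul_cancel, mul_one, one_mul, inv_one, C]) (by first | (simp only [mul_assoc, mul_inv_rev, inv_inv, mul_inv_cancel_left, inv_mul_cancel_left, mul_inv_cancel, inv_mul_cancel, mul_one, one_mul, inv_one, C8]; done) | simp only [mul_assoc, mul_inv_rev, inv_inv, mul_inv_cancel_left, inv_mul_cancel_left, mul_inv_cancel, inv_mul_cancel, mul_one, one_mul, inv_one, C]),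
    o.cv hδ (P * (f4⁻¹ * (P * (f4⁻¹ * (P * f4⁻¹))))) (by simp only [hδ, δinv hδ, δone hδ, D] <;> linear_combination (0) * h3) (by first | (simp only [mul_assoc, mul_inv_rev, inv_inv, mul_inv_cancel_left, inv_mul_cancel_left, mul_inv_cancel, inv_mul_cancel, mul_one, one_mul, inv_one, C8]; done) | simp only [mul_assoc, mul_inv_rev, inv_inv, mul_inv_cancel_left, inv_mul_cancel_left, mul_inv_cancel, inv_mul_cancel, mul_one, one_mul, inv_one, C]) (by first | (simp only [mul_assoc, mul_inv_rev, inv_inv, mul_inv_cancel_left, inv_mul_cancel_left, mul_inv_cancel, inv_mul_cancel, mul_one, one_mul, inv_one, C8]; done) | simp only [mul_assoc, mul_inv_rev, inv_inv, mul_inv_cancel_left, inv_mul_cancel_left, mul_inv_cancel, inv_mul_cancel, mul_one, one_mul, inv_one, C]),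
    o.cv hδ (f3 * (f4⁻¹ * (P * (f4⁻¹ * (P * (f4⁻¹ * (P * f3⁻¹))))))) (by simp only [hδ, δinv hδ, δone hδ, D] <;> linear_combination (-1) * h3) (by first | (simp only [mul_assoc, mul_inv_rev, inv_inv, mul_inv_cancel_left, inv_mul_cancel_left, mul_inv_cancel, inv_mul_cancel, mul_one, one_mul, inv_one, C8]; done) | simp only [mul_assoc, mul_inv_rev, inv_inv, mul_inv_cancel_left, inv_mul_cancel_left, mul_inv_cancel, inv_mul_cancel, mul_one, one_mul, inv_one, C]) (by first | (simp only [mul_assoc, mul_inv_rev, inv_inv, mul_inv_cancel_left, inv_mul_cancel_left, mul_inv_cancel, inv_mul_cancel, mul_one, one_mul, inv_one, C8]; done) | simp only [mul_assoc, mul_inv_rev, inv_inv, mul_inv_cancel_left, inv_mul_cancel_left, mul_inv_cancel, inv_mul_cancel, mul_one, one_mul, inv_one, C]),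
    o.cv hδ (Q * f4⁻¹) (by simp only [hδ, δinv hδ, δone hδ, D] <;> linear_combination (0) * h3) (by first | (simp only [mul_assoc, mul_inv_rev, inv_inv, mul_inv_cancel_left, inv_mul_cancel_left, mul_inv_cancel, inv_mul_cancel, mul_one, one_mul, inv_one]; done) | simp only [mul_assoc, mul_inv_rev, inv_inv, mul_inv_cancel_left, inv_mul_cancel_left, mul_inv_cancel, inv_mul_cancel, mul_one, one_mul, inv_one, C]) (by first | (simp only [mul_assoc, mul_inv_rev, inv_inv, mul_inv_cancel_left, inv_mul_cancel_left, mul_inv_cancel, inv_mul_cancel, mul_one, one_mul, inv_one, C9]; done) | simp only [mul_assoc, mul_inv_rev, inv_inv, mul_inv_cancel_left, inv_mul_cancel_left, mul_inv_cancel, inv_mul_cancel, mul_one, one_mul, inv_one, C]),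
    o.cv hδ (f3 * (f4⁻¹ * (P * (f4⁻¹ * (P * (f4⁻¹ * (P * f3⁻¹))))))) (by simp only [hδ, δinv hδ, δone hδ, D] <;> linear_combination (0) * h3) (by first | (simp only [mul_assoc, mul_inv_rev, inv_inv, mul_inv_cancel_left, inv_mul_cancel_left, mul_inv_cancel, inv_mul_cancel, mul_one, one_mul, inv_one, C8]; done) | simp only [mul_assoc, mul_inv_rev, inv_inv, mul_inv_cancel_left, inv_mul_cancel_left, mul_inv_cancel, inv_mul_cancel, mul_one, one_mul, inv_one, C]) (by first | (simp only [mul_assoc, mul_inv_rev, inv_inv, mul_inv_cancel_left, inv_mul_cancel_left, mul_inv_cancel, inv_mul_cancel, mul_one, one_mul, inv_one, C8]; done) | simp only [mul_assoc, mul_inv_rev, inv_inv, mul_inv_cancel_left, inv_mul_cancel_left, mul_inv_cancel, inv_mul_cancel, mul_one, one_mul, inv_one, C]),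
    o.cv hδ (1) (by simp only [hδ, δinv hδ, δone hδ, D] <;> linear_combination (1) * h3) (by first | (simp only [mul_assoc, mul_inv_rev, inv_inv, mul_inv_cancel_left, inv_mul_cancel_left, mul_inv_cancel, inv_mul_cancel, mul_one, one_mul, inv_one]; done) | simp only [mul_assoc, mul_inv_rev, inv_inv, mul_inv_cancel_left, inv_mul_cancel_left, mul_inv_cancel, inv_mul_cancel, mul_one, one_mul, inv_one, C]) (by first | (simp only [mul_assoc, mul_inv_rev, inv_inv, mul_inv_cancel_left, inv_mul_cancel_left, mul_inv_cancel, inv_mul_cancel, mul_one, one_mul, inv_one, C8]; done) | simp only [mul_assoc, mul_inv_rev, inv_inv, mul_inv_cancel_left, inv_mul_cancel_left, mul_inv_cancel, inv_mul_cancel, mul_one, one_mul, inv_one, C]),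
    o.cv hδ (Q * f4⁻¹) (by simp only [hδ, δinv hδ, δone hδ, D] <;> linear_combination (0) * h3) (by first | (simp only [mul_assoc, mul_inv_rev, inv_inv, mul_inv_cancel_left, inv_mul_cancel_left, mul_inv_cancel, inv_mul_cancel, mul_one, one_mul, inv_one, C9]; done) | simp only [mul_assoc, mul_inv_rev, inv_inv, mul_inv_cancel_left, inv_mul_cancel_left, mul_inv_cancel, inv_mul_cancel, mul_one, one_mul, inv_one, C]) (by first | (simp only [mul_assoc, mul_inv_rev, inv_inv, mul_inv_cancel_left, inv_mul_cancel_left, mul_inv_cancel, inv_mul_cancel, mul_one, one_mul, inv_one]; done) | simp only [mul_assoc, mul_inv_rev, inv_inv, mul_inv_cancel_left, inv_mul_cancel_left, mul_inv_cancel, inv_mul_cancel, mul_one, one_mul, inv_one, C]),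
    o.cv hδ (f0 * P⁻¹) (by simp only [hδ, δinv hδ, δone hδ, D] <;> linear_combination (0) * h3) (by first | (simp only [mul_assoc, mul_inv_rev, inv_inv, mul_inv_cancel_left, inv_mul_cancel_left, mul_inv_cancel, inv_mul_cancel, mul_one, one_mul, inv_one]; done) | simp only [mul_assoc, mul_inv_rev, inv_inv, mul_inv_cancel_left, inv_mul_cancel_left, mul_inv_cancel, inv_mul_cancel, mul_one, one_mul, inv_one, C]) (by first | (simp only [mul_assoc, mul_inv_rev, inv_inv, mul_inv_cancel_left, inv_mul_cancel_left, mul_inv_cancel, inv_mul_cancel, mul_one, one_mul, inv_one]; done) | simp only [mul_assoc, mul_inv_rev, inv_inv, mul_inv_cancel_left, inv_mul_cancel_left, mul_inv_cancel, inv_mul_cancel, mul_one, one_mul, inv_one, C]),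
    o.cv hδ (Q * f0⁻¹) (by simp only [hδ, δinv hδ, δone hδ, D] <;> linear_combination (0) * h3) (by first | (simp only [mul_assoc, mul_inv_rev, inv_inv, mul_inv_cancel_left, inv_mul_cancel_left, mul_inv_cancel, inv_mul_cancel, mul_one, one_mul, inv_one]; done) | simp only [mul_assoc, mul_inv_rev, inv_inv, mul_inv_cancel_left, inv_mul_cancel_left, mul_inv_cancel, inv_mul_cancel, mul_one, one_mul, inv_one, C]) (by first | (simp only [mul_assoc, mul_inv_rev, inv_inv, mul_inv_cancel_left, inv_mul_cancel_left, mul_inv_cancel, inv_mul_cancel, mul_one, one_mul, inv_one]; done) | simp only [mul_assoc, mul_inv_rev, inv_inv, mul_inv_cancel_left, inv_mul_cancel_left, mul_inv_cancel, inv_mul_cancel, mul_one, one_mul, inv_one, C]),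
    o.cv hδ (P * (f4⁻¹ * (P * (f4⁻¹ * (P * f4⁻¹))))) (by simp only [hδ, δinv hδ, δone hδ, D] <;> linear_combination (-1) * h3) (by first | (simp only [mul_assoc, mul_inv_rev, inv_inv, mul_inv_cancel_left, inv_mul_cancel_left, mul_inv_cancel, inv_mul_cancel, mul_one, one_mul, inv_one, C8]; done) | simp only [mul_assoc, mul_inv_rev, inv_inv, mul_inv_cancel_left, inv_mul_cancel_left, mul_inv_cancel, inv_mul_cancel, mul_one, one_mul, inv_one, C]) (by first | (simp only [mul_assoc, mul_inv_rev, inv_inv, mul_inv_cancel_left, inv_mul_cancel_left, mul_inv_cancel, inv_mul_cancel, mul_one, one_mul, inv_one, C8]; done) | simp only [mul_assoc, mul_inv_rev, inv_inv, mul_inv_cancel_left, inv_mul_cancel_left, mul_inv_cancel, inv_mul_cancel, mul_one, one_mul, inv_one, C]),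
    o.cv hδ (Q * (f4⁻¹ * (Q * (f4⁻¹ * (Q * f4⁻¹))))) (by simp only [hδ, δinv hδ, δone hδ, D] <;> linear_combination (1) * h3) (by first | (simp only [mul_assoc, mul_inv_rev, inv_inv, mul_inv_cancel_left, inv_mul_cancel_left, mul_inv_cancel, inv_mul_cancel, mul_one, one_mul, inv_one, C9]; done) | simp only [mul_assoc, mul_inv_rev, inv_inv, mul_inv_cancel_left, inv_mul_cancel_left, mul_inv_cancel, inv_mul_cancel, mul_one, one_mul, inv_one, C]) (by first | (simp only [mul_assoc, mul_inv_rev, inv_inv, mul_inv_cancel_left, inv_mul_cancel_left, mul_inv_cancel, inv_mul_cancel, mul_one, one_mul, inv_one, C2, C9]; done) | simp only [mul_assoc, mul_inv_rev, inv_inv, mul_inv_cancel_left, inv_mul_cancel_left, mul_inv_cancel, inv_mul_cancel, mul_one, one_mul, inv_one, C]),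
    o.cv hδ (1) (by simp only [hδ, δinv hδ, δone hδ, D] <;> linear_combination (1) * h3) (by first | (simp only [mul_assoc, mul_inv_rev, inv_inv, mul_inv_cancel_left, inv_mul_cancel_left, mul_inv_cancel, inv_mul_cancel, mul_one, one_mul, inv_one]; done) | simp only [mul_assoc, mul_inv_rev, inv_inv, mul_inv_cancel_left, inv_mul_cancel_left, mul_inv_cancel, inv_mul_cancel, mul_one, one_mul, inv_one, C]) (by first | (simp only [mul_assoc, mul_inv_rev, inv_inv, mul_inv_cancel_left, inv_mul_cancel_left, mul_inv_cancel, inv_mul_cancel, mul_one, one_mul, inv_one, C8]; done) | simp only [mul_assoc, mul_inv_rev, inv_inv, mul_inv_cancel_left, inv_mul_cancel_left, mul_inv_cancel, inv_mul_cancel, mul_one, one_mul, inv_one, C]),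
    o.cv hδ (1) (by simp only [hδ, δinv hδ, δone hδ, D] <;> linear_combination (0) * h3) (by first | (simp only [mul_assoc, mul_inv_rev, inv_inv, mul_inv_cancel_left, inv_mul_cancel_left, mul_inv_cancel, inv_mul_cancel, mul_one, one_mul, inv_one]; done) | simp only [mul_assoc, mul_inv_rev, inv_inv, mul_inv_cancel_left, inv_mul_cancel_left, mul_inv_cancel, inv_mul_cancel, mul_one, one_mul, inv_one, C]) (by first | (simp only [mul_assoc, mul_inv_rev, inv_inv, mul_inv_cancel_left, inv_mul_cancel_left, mul_inv_cancel, inv_mul_cancel, mul_one, one_mul, inv_one]; done) | simp only [mul_assoc, mul_inv_rev, inv_inv, mul_inv_cancel_left, inv_mul_cancel_left, mul_inv_cancel, inv_mul_cancel, mul_one, one_mul, inv_one, C])⟩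

theorem close_AAAAA_k9 {G : Type*} [Group G] {δ : G → ZMod 3} (hδ : ∀ u v, δ (u * v) = δ u + δ v) (o : Pre δ)
    {P Q f0 f1 f2 f3 f4 : G} {e : ZMod 3} (h3 : 3 * e = 0)
    (D : δ P = e ∧ δ Q = -e ∧ δ f0 = 0 ∧ δ f1 = 0 ∧ δ f2 = 0 ∧ δ f3 = 0 ∧ δ f4 = 0)
    (C : Cube P f0 ∧ Cube P f1 ∧ Cube Q f0 ∧ Cube Q f1 ∧ Cube P f2 ∧ Cube Q f2 ∧ Cube P f3 ∧ Cube Q f3 ∧ Cube P f4 ∧ Cube Q f4) :
    (o.lt (P * f1⁻¹) (P * f0⁻¹) ↔ o.lt (P * f1⁻¹) (P * f0⁻¹)) ∧
    (o.lt (P * f0⁻¹) (f1 * Q⁻¹) ↔ o.lt (P * f0⁻¹) (f1 * Q⁻¹)) ∧
    (o.lt (f1 * Q⁻¹) (P * f1⁻¹) ↔ o.lt (f1 * Q⁻¹) (P * f1⁻¹)) ∧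
    (o.lt (P * f0⁻¹) (f0 * Q⁻¹) ↔ o.lt (P * f0⁻¹) (f0 * Q⁻¹)) ∧
    (o.lt (f0 * Q⁻¹) (P * f0⁻¹) ↔ o.lt (f0 * Q⁻¹) (P * f0⁻¹)) ∧
    (o.lt (f1 * Q⁻¹) (P * f0⁻¹) ↔ o.lt (f1 * Q⁻¹) (P * f0⁻¹)) ∧
    (o.lt (P * f0⁻¹) (P * f2⁻¹) ↔ o.lt (P * f0⁻¹) (P * f2⁻¹)) ∧
    (o.lt (P * f1⁻¹) (P * f2⁻¹) ↔ o.lt (P * f1⁻¹) (P * f2⁻¹)) ∧
    (o.lt (P * f0⁻¹) (P * f3⁻¹) ↔ o.lt (P * f0⁻¹) (P * f3⁻¹)) ∧
    (o.lt (P * f0⁻¹) (f4 * Q⁻¹) ↔ o.lt (P * f0⁻¹) (f4 * Q⁻¹)) ∧
    (o.lt (f4 * Q⁻¹) (P * f3⁻¹) ↔ o.lt (f4 * Q⁻¹) (P * f3⁻¹)) ∧
    (o.lt (P * f0⁻¹) (f3 * Q⁻¹) ↔ o.lt (P * f0⁻¹) (f3 * Q⁻¹)) ∧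
    (o.lt (f1 * Q⁻¹) (f3 * Q⁻¹) ↔ o.lt (f1 * Q⁻¹) (f3 * Q⁻¹)) ∧
    (o.lt (P * f0⁻¹) (P * f4⁻¹) ↔ o.lt (P * f0⁻¹) (P * f4⁻¹)) ∧
    (o.lt (P * f4⁻¹) (P * f0⁻¹) ↔ o.lt (P * f4⁻¹) (P * f0⁻¹)) ∧
    (o.lt (f0 * P⁻¹) (Q * f0⁻¹) ↔ o.lt (P * f0⁻¹) (Q * P⁻¹)) ∧
    (o.lt (Q * f4⁻¹) (f4 * P⁻¹) ↔ o.lt (Q * P⁻¹) (P * f4⁻¹)) ∧
    (o.lt (f1 * Q⁻¹) (f4 * Q⁻¹) ↔ o.lt (f1 * Q⁻¹) (f4 * Q⁻¹)) ∧
    (o.lt (Q * f0⁻¹) (f0 * P⁻¹) ↔ o.lt (Q * P⁻¹) (P * f0⁻¹)) ∧
    (o.lt (f1 * P⁻¹) (Q * f1⁻¹) ↔ o.lt (P * f1⁻¹) (Q * P⁻¹)) := by
  have C' := C
  obtain ⟨C0, C1, C2, C3, C4, C5, C6, C7, C8, C9⟩ := C'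
  simp only [Cube] at C C0 C1 C2 C3 C4 C5 C6 C7 C8 C9
  exact ⟨o.cv hδ (1) (by simp only [hδ, δinv hδ, δone hδ, D] <;> linear_combination (0) * h3) (by first | (simp only [mul_assoc, mul_inv_rev, inv_inv, mul_inv_cancel_left, inv_mul_cancel_left, mul_inv_cancel, inv_mul_cancel, mul_one, one_mul, inv_one]; done) | simp only [mul_assoc, mul_inv_rev, inv_inv, mul_inv_cancel_left, inv_mul_cancel_left, mul_inv_cancel, inv_mul_cancel, mul_one, one_mul, inv_one, C]) (by first | (simp only [mul_assoc, mul_inv_rev, inv_inv, mul_inv_cancel_left, inv_mul_cancel_left, mul_inv_cancel, inv_mul_cancel, mul_one, one_mul, inv_one]; done) | simp only [mul_assoc, mul_inv_rev, inv_inv, mul_inv_cancel_left, inv_mul_cancel_left, mul_inv_cancel, inv_mul_cancel, mul_one, one_mul, inv_one, C]),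
    o.cv hδ (1) (by simp only [hδ, δinv hδ, δone hδ, D] <;> linear_combination (0) * h3) (by first | (simp only [mul_assoc, mul_inv_rev, inv_inv, mul_inv_cancel_left, inv_mul_cancel_left, mul_inv_cancel, inv_mul_cancel, mul_one, one_mul, inv_one]; done) | simp only [mul_assoc, mul_inv_rev, inv_inv, mul_inv_cancel_left, inv_mul_cancel_left, mul_inv_cancel, inv_mul_cancel, mul_one, one_mul, inv_one, C]) (by first | (simp only [mul_assoc, mul_inv_rev, inv_inv, mul_inv_cancel_left, inv_mul_cancel_left, mul_inv_cancel, inv_mul_cancel, mul_one, one_mul, inv_one]; done) | simp only [mul_assoc, mul_inv_rev, inv_inv, mul_inv_cancel_left, inv_mul_cancel_left, mul_inv_cancel, inv_mul_cancel, mul_one, one_mul, inv_one, C]),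
    o.cv hδ (1) (by simp only [hδ, δinv hδ, δone hδ, D] <;> linear_combination (0) * h3) (by first | (simp only [mul_assoc, mul_inv_rev, inv_inv, mul_inv_cancel_left, inv_mul_cancel_left, mul_inv_cancel, inv_mul_cancel, mul_one, one_mul, inv_one]; done) | simp only [mul_assoc, mul_inv_rev, inv_inv, mul_inv_cancel_left, inv_mul_cancel_left, mul_inv_cancel, inv_mul_cancel, mul_one, one_mul, inv_one, C]) (by first | (simp only [mul_assoc, mul_inv_rev, inv_inv, mul_inv_cancel_left, inv_mul_cancel_left, mul_inv_cancel, inv_mul_cancel, mul_one, one_mul, inv_one]; done) | simp only [mul_assoc, mul_inv_rev, inv_inv, mul_inv_cancel_left, inv_mul_cancel_left, mul_inv_cancel, inv_mul_cancel, mul_one, one_mul, inv_one, C]),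
    o.cv hδ (1) (by simp only [hδ, δinv hδ, δone hδ, D] <;> linear_combination (0) * h3) (by first | (simp only [mul_assoc, mul_inv_rev, inv_inv, mul_inv_cancel_left, inv_mul_cancel_left, mul_inv_cancel, inv_mul_cancel, mul_one, one_mul, inv_one]; done) | simp only [mul_assoc, mul_inv_rev, inv_inv, mul_inv_cancel_left, inv_mul_cancel_left, mul_inv_cancel, inv_mul_cancel, mul_one, one_mul, inv_one, C]) (by first | (simp only [mul_assoc, mul_inv_rev, inv_inv, mul_inv_cancel_left, inv_mul_cancel_left, mul_inv_cancel, inv_mul_cancel, mul_one, one_mul, inv_one]; done) | simp only [mul_assoc, mul_inv_rev, inv_inv, mul_inv_cancel_left, inv_mul_cancel_left, mul_inv_cancel, inv_mul_cancel, mul_one, one_mul, inv_one, C]),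
    o.cv hδ (1) (by simp only [hδ, δinv hδ, δone hδ, D] <;> linear_combination (0) * h3) (by first | (simp only [mul_assoc, mul_inv_rev, inv_inv, mul_inv_cancel_left, inv_mul_cancel_left, mul_inv_cancel, inv_mul_cancel, mul_one, one_mul, inv_one]; done) | simp only [mul_assoc, mul_inv_rev, inv_inv, mul_inv_cancel_left, inv_mul_cancel_left, mul_inv_cancel, inv_mul_cancel, mul_one, one_mul, inv_one, C]) (by first | (simp only [mul_assoc, mul_inv_rev, inv_inv, mul_inv_cancel_left, inv_mul_cancel_left, mul_inv_cancel, inv_mul_cancel, mul_one, one_mul, inv_one]; done) | simp only [mul_assoc, mul_inv_rev, inv_inv, mul_inv_cancel_left, inv_mul_cancel_left, mul_inv_cancel, inv_mul_cancel, mul_one, one_mul, inv_one, C]),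
    o.cv hδ (1) (by simp only [hδ, δinv hδ, δone hδ, D] <;> linear_combination (0) * h3) (by first | (simp only [mul_assoc, mul_inv_rev, inv_inv, mul_inv_cancel_left, inv_mul_cancel_left, mul_inv_cancel, inv_mul_cancel, mul_one, one_mul, inv_one]; done) | simp only [mul_assoc, mul_inv_rev, inv_inv, mul_inv_cancel_left, inv_mul_cancel_left, mul_inv_cancel, inv_mul_cancel, mul_one, one_mul, inv_one, C]) (by first | (simp only [mul_assoc, mul_inv_rev, inv_inv, mul_inv_cancel_left, inv_mul_cancel_left, mul_inv_cancel, inv_mul_cancel, mul_one, one_mul, inv_one]; done) | simp only [mul_assoc, mul_inv_rev, inv_inv, mul_inv_cancel_left, inv_mul_cancel_left, mul_inv_cancel, inv_mul_cancel, mul_one, one_mul, inv_one, C]),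
    o.cv hδ (1) (by simp only [hδ, δinv hδ, δone hδ, D] <;> linear_combination (0) * h3) (by first | (simp only [mul_assoc, mul_inv_rev, inv_inv, mul_inv_cancel_left, inv_mul_cancel_left, mul_inv_cancel, inv_mul_cancel, mul_one, one_mul, inv_one]; done) | simp only [mul_assoc, mul_inv_rev, inv_inv, mul_inv_cancel_left, inv_mul_cancel_left, mul_inv_cancel, inv_mul_cancel, mul_one, one_mul, inv_one, C]) (by first | (simp only [mul_assoc, mul_inv_rev, inv_inv, mul_inv_cancel_left, inv_mul_cancel_left, mul_inv_cancel, inv_mul_cancel, mul_one, one_mul, inv_one]; done) | simp only [mul_assoc, mul_inv_rev, inv_inv, mul_inv_cancel_left, inv_mul_cancel_left, mul_inv_cancel, inv_mul_cancel, mul_one, one_mul, inv_one, C]),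
    o.cv hδ (1) (by simp only [hδ, δinv hδ, δone hδ, D] <;> linear_combination (0) * h3) (by first | (simp only [mul_assoc, mul_inv_rev, inv_inv, mul_inv_cancel_left, inv_mul_cancel_left, mul_inv_cancel, inv_mul_cancel, mul_one, one_mul, inv_one]; done) | simp only [mul_assoc, mul_inv_rev, inv_inv, mul_inv_cancel_left, inv_mul_cancel_left, mul_inv_cancel, inv_mul_cancel, mul_one, one_mul, inv_one, C]) (by first | (simp only [mul_assoc, mul_inv_rev, inv_inv, mul_inv_cancel_left, inv_mul_cancel_left, mul_inv_cancel, inv_mul_cancel, mul_one, one_mul, inv_one]; done) | simp only [mul_assoc, mul_inv_rev, inv_inv, mul_inv_cancel_left, inv_mul_cancel_left, mul_inv_cancel, inv_mul_cancel, mul_one, one_mul, inv_one, C]),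
    o.cv hδ (1) (by simp only [hδ, δinv hδ, δone hδ, D] <;> linear_combination (0) * h3) (by first | (simp only [mul_assoc, mul_inv_rev, inv_inv, mul_inv_cancel_left, inv_mul_cancel_left, mul_inv_cancel, inv_mul_cancel, mul_one, one_mul, inv_one]; done) | simp only [mul_assoc, mul_inv_rev, inv_inv, mul_inv_cancel_left, inv_mul_cancel_left, mul_inv_cancel, inv_mul_cancel, mul_one, one_mul, inv_one, C]) (by first | (simp only [mul_assoc, mul_inv_rev, inv_inv, mul_inv_cancel_left, inv_mul_cancel_left, mul_inv_cancel, inv_mul_cancel, mul_one, one_mul, inv_one]; done) | simp only [mul_assoc, mul_inv_rev, inv_inv, mul_inv_cancel_left, inv_mul_cancel_left, mul_inv_cancel, inv_mul_cancel, mul_one, one_mul, inv_one, C]),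
    o.cv hδ (1) (by simp only [hδ, δinv hδ, δone hδ, D] <;> linear_combination (0) * h3) (by first | (simp only [mul_assoc, mul_inv_rev, inv_inv, mul_inv_cancel_left, inv_mul_cancel_left, mul_inv_cancel, inv_mul_cancel, mul_one, one_mul, inv_one]; done) | simp only [mul_assoc, mul_inv_rev, inv_inv, mul_inv_cancel_left, inv_mul_cancel_left, mul_inv_cancel, inv_mul_cancel, mul_one, one_mul, inv_one, C]) (by first | (simp only [mul_assoc, mul_inv_rev, inv_inv, mul_inv_cancel_left, inv_mul_cancel_left, mul_inv_cancel, inv_mul_cancel, mul_one, one_mul, inv_one]; done) | simp only [mul_assoc, mul_inv_rev, inv_inv, mul_inv_cancel_left, inv_mul_cancel_left, mul_inv_cancel, inv_mul_cancel, mul_one, one_mul, inv_one, C]),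
    o.cv hδ (1) (by simp only [hδ, δinv hδ, δone hδ, D] <;> linear_combination (0) * h3) (by first | (simp only [mul_assoc, mul_inv_rev, inv_inv, mul_inv_cancel_left, inv_mul_cancel_left, mul_inv_cancel, inv_mul_cancel, mul_one, one_mul, inv_one]; done) | simp only [mul_assoc, mul_inv_rev, inv_inv, mul_inv_cancel_left, inv_mul_cancel_left, mul_inv_cancel, inv_mul_cancel, mul_one, one_mul, inv_one, C]) (by first | (simp only [mul_assoc, mul_inv_rev, inv_inv, mul_inv_cancel_left, inv_mul_cancel_left, mul_inv_cancel, inv_mul_cancel, mul_one, one_mul, inv_one]; done) | simp only [mul_assoc, mul_inv_rev, inv_inv, mul_inv_cancel_left, inv_mul_cancel_left, mul_inv_cancel, inv_mul_cancel, mul_one, one_mul, inv_one, C]),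
    o.cv hδ (1) (by simp only [hδ, δinv hδ, δone hδ, D] <;> linear_combination (0) * h3) (by first | (simp only [mul_assoc, mul_inv_rev, inv_inv, mul_inv_cancel_left, inv_mul_cancel_left, mul_inv_cancel, inv_mul_cancel, mul_one, one_mul, inv_one]; done) | simp only [mul_assoc, mul_inv_rev, inv_inv, mul_inv_cancel_left, inv_mul_cancel_left, mul_inv_cancel, inv_mul_cancel, mul_one, one_mul, inv_one, C]) (by first | (simp only [mul_assoc, mul_inv_rev, inv_inv, mul_inv_cancel_left, inv_mul_cancel_left, mul_inv_cancel, inv_mul_cancel, mul_one, one_mul, inv_one]; done) | simp only [mul_assoc, mul_inv_rev, inv_inv, mul_inv_cancel_left, inv_mul_cancel_left, mul_inv_cancel, inv_mul_cancel, mul_one, one_mul, inv_one, C]),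
    o.cv hδ (1) (by simp only [hδ, δinv hδ, δone hδ, D] <;> linear_combination (0) * h3) (by first | (simp only [mul_assoc, mul_inv_rev, inv_inv, mul_inv_cancel_left, inv_mul_cancel_left, mul_inv_cancel, inv_mul_cancel, mul_one, one_mul, inv_one]; done) | simp only [mul_assoc, mul_inv_rev, inv_inv, mul_inv_cancel_left, inv_mul_cancel_left, mul_inv_cancel, inv_mul_cancel, mul_one, one_mul, inv_one, C]) (by first | (simp only [mul_assoc, mul_inv_rev, inv_inv, mul_inv_cancel_left, inv_mul_cancel_left, mul_inv_cancel, inv_mul_cancel, mul_one, one_mul, inv_one]; done) | simp only [mul_assoc, mul_inv_rev, inv_inv, mul_inv_cancel_left, inv_mul_cancel_left, mul_inv_cancel, inv_mul_cancel, mul_one, one_mul, inv_one, C]),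
    o.cv hδ (1) (by simp only [hδ, δinv hδ, δone hδ, D] <;> linear_combination (0) * h3) (by first | (simp only [mul_assoc, mul_inv_rev, inv_inv, mul_inv_cancel_left, inv_mul_cancel_left, mul_inv_cancel, inv_mul_cancel, mul_one, one_mul, inv_one]; done) | simp only [mul_assoc, mul_inv_rev, inv_inv, mul_inv_cancel_left, inv_mul_cancel_left, mul_inv_cancel, inv_mul_cancel, mul_one, one_mul, inv_one, C]) (by first | (simp only [mul_assoc, mul_inv_rev, inv_inv, mul_inv_cancel_left, inv_mul_cancel_left, mul_inv_cancel, inv_mul_cancel, mul_one, one_mul, inv_one]; done) | simp only [mul_assoc, mul_inv_rev, inv_inv, mul_inv_cancel_left, inv_mul_cancel_left, mul_inv_cancel, inv_mul_cancel, mul_one, one_mul, inv_one, C]),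
    o.cv hδ (1) (by simp only [hδ, δinv hδ, δone hδ, D] <;> linear_combination (0) * h3) (by first | (simp only [mul_assoc, mul_inv_rev, inv_inv, mul_inv_cancel_left, inv_mul_cancel_left, mul_inv_cancel, inv_mul_cancel, mul_one, one_mul, inv_one]; done) | simp only [mul_assoc, mul_inv_rev, inv_inv, mul_inv_cancel_left, inv_mul_cancel_left, mul_inv_cancel, inv_mul_cancel, mul_one, one_mul, inv_one, C]) (by first | (simp only [mul_assoc, mul_inv_rev, inv_inv, mul_inv_cancel_left, inv_mul_cancel_left, mul_inv_cancel, inv_mul_cancel, mul_one, one_mul, inv_one]; done) | simp only [mul_assoc, mul_inv_rev, inv_inv, mul_inv_cancel_left, inv_mul_cancel_left, mul_inv_cancel, inv_mul_cancel, mul_one, one_mul, inv_one, C]),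
    o.cv hδ (P * (f0⁻¹ * (P * f0⁻¹))) (by simp only [hδ, δinv hδ, δone hδ, D] <;> linear_combination (0) * h3) (by first | (simp only [mul_assoc, mul_inv_rev, inv_inv, mul_inv_cancel_left, inv_mul_cancel_left, mul_inv_cancel, inv_mul_cancel, mul_one, one_mul, inv_one]; done) | simp only [mul_assoc, mul_inv_rev, inv_inv, mul_inv_cancel_left, inv_mul_cancel_left, mul_inv_cancel, inv_mul_cancel, mul_one, one_mul, inv_one, C]) (by first | (simp only [mul_assoc, mul_inv_rev, inv_inv, mul_inv_cancel_left, inv_mul_cancel_left, mul_inv_cancel, inv_mul_cancel, mul_one, one_mul, inv_one, C0]; done) | simp only [mul_assoc, mul_inv_rev, inv_inv, mul_inv_cancel_left, inv_mul_cancel_left, mul_inv_cancel, inv_mul_cancel, mul_one, one_mul, inv_one, C]),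
    o.cv hδ (f4 * P⁻¹) (by simp only [hδ, δinv hδ, δone hδ, D] <;> linear_combination (0) * h3) (by first | (simp only [mul_assoc, mul_inv_rev, inv_inv, mul_inv_cancel_left, inv_mul_cancel_left, mul_inv_cancel, inv_mul_cancel, mul_one, one_mul, inv_one]; done) | simp only [mul_assoc, mul_inv_rev, inv_inv, mul_inv_cancel_left, inv_mul_cancel_left, mul_inv_cancel, inv_mul_cancel, mul_one, one_mul, inv_one, C]) (by first | (simp only [mul_assoc, mul_inv_rev, inv_inv, mul_inv_cancel_left, inv_mul_cancel_left, mul_inv_cancel, inv_mul_cancel, mul_one, one_mul, inv_one, C8]; done) | simp only [mul_assoc, mul_inv_rev, inv_inv, mul_inv_cancel_left, inv_mul_cancel_left, mul_inv_cancel, inv_mul_cancel, mul_one, one_mul, inv_one, C]),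
    o.cv hδ (1) (by simp only [hδ, δinv hδ, δone hδ, D] <;> linear_combination (0) * h3) (by first | (simp only [mul_assoc, mul_inv_rev, inv_inv, mul_inv_cancel_left, inv_mul_cancel_left, mul_inv_cancel, inv_mul_cancel, mul_one, one_mul, inv_one]; done) | simp only [mul_assoc, mul_inv_rev, inv_inv, mul_inv_cancel_left, inv_mul_cancel_left, mul_inv_cancel, inv_mul_cancel, mul_one, one_mul, inv_one, C]) (by first | (simp only [mul_assoc, mul_inv_rev, inv_inv, mul_inv_cancel_left, inv_mul_cancel_left, mul_inv_cancel, inv_mul_cancel, mul_one, one_mul, inv_one]; done) | simp only [mul_assoc, mul_inv_rev, inv_inv, mul_inv_cancel_left, inv_mul_cancel_left, mul_inv_cancel, inv_mul_cancel, mul_one, one_mul, inv_one, C]),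
    o.cv hδ (f0 * P⁻¹) (by simp only [hδ, δinv hδ, δone hδ, D] <;> linear_combination (0) * h3) (by first | (simp only [mul_assoc, mul_inv_rev, inv_inv, mul_inv_cancel_left, inv_mul_cancel_left, mul_inv_cancel, inv_mul_cancel, mul_one, one_mul, inv_one]; done) | simp only [mul_assoc, mul_inv_rev, inv_inv, mul_inv_cancel_left, inv_mul_cancel_left, mul_inv_cancel, inv_mul_cancel, mul_one, one_mul, inv_one, C]) (by first | (simp only [mul_assoc, mul_inv_rev, inv_inv, mul_inv_cancel_left, inv_mul_cancel_left, mul_inv_cancel, inv_mul_cancel, mul_one, one_mul, inv_one, C0]; done) | simp only [mul_assoc, mul_inv_rev, inv_inv, mul_inv_cancel_left, inv_mul_cancel_left, mul_inv_cancel, inv_mul_cancel, mul_one, one_mul, inv_one, C]),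
    o.cv hδ (P * (f1⁻¹ * (P * f1⁻¹))) (by simp only [hδ, δinv hδ, δone hδ, D] <;> linear_combination (0) * h3) (by first | (simp only [mul_assoc, mul_inv_rev, inv_inv, mul_inv_cancel_left, inv_mul_cancel_left, mul_inv_cancel, inv_mul_cancel, mul_one, one_mul, inv_one]; done) | simp only [mul_assoc, mul_inv_rev, inv_inv, mul_inv_cancel_left, inv_mul_cancel_left, mul_inv_cancel, inv_mul_cancel, mul_one, one_mul, inv_one, C]) (by first | (simp only [mul_assoc, mul_inv_rev, inv_inv, mul_inv_cancel_left, inv_mul_cancel_left, mul_inv_cancel, inv_mul_cancel, mul_one, one_mul, inv_one, C1]; done) | simp only [mul_assoc, mul_inv_rev, inv_inv, mul_inv_cancel_left, inv_mul_cancel_left, mul_inv_cancel, inv_mul_cancel, mul_one, one_mul, inv_one, C])⟩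

theorem close_AAAAA_k10 {G : Type*} [Group G] {δ : G → ZMod 3} (hδ : ∀ u v, δ (u * v) = δ u + δ v) (o : Pre δ)
    {P Q f0 f1 f2 f3 f4 : G} {e : ZMod 3} (h3 : 3 * e = 0)
    (D : δ P = e ∧ δ Q = -e ∧ δ f0 = 0 ∧ δ f1 = 0 ∧ δ f2 = 0 ∧ δ f3 = 0 ∧ δ f4 = 0)
    (C : Cube P f0 ∧ Cube P f1 ∧ Cube Q f0 ∧ Cube Q f1 ∧ Cube P f2 ∧ Cube Q f2 ∧ Cube P f3 ∧ Cube Q f3 ∧ Cube P f4 ∧ Cube Q f4) :
    (o.lt (P * f1⁻¹) (f1 * Q⁻¹) ↔ o.lt (P * f1⁻¹) (f1 * Q⁻¹)) ∧
    (o.lt (P * f2⁻¹) (P * f1⁻¹) ↔ o.lt (P * f2⁻¹) (P * f1⁻¹)) ∧
    (o.lt (Q * f2⁻¹) (f2 * P⁻¹) ↔ o.lt (Q * P⁻¹) (P * f2⁻¹)) ∧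
    (o.lt (P * f1⁻¹) (f2 * Q⁻¹) ↔ o.lt (P * f1⁻¹) (f2 * Q⁻¹)) ∧
    (o.lt (f2 * Q⁻¹) (P * f1⁻¹) ↔ o.lt (f2 * Q⁻¹) (P * f1⁻¹)) ∧
    (o.lt (P * f1⁻¹) (P * f3⁻¹) ↔ o.lt (P * f1⁻¹) (P * f3⁻¹)) ∧
    (o.lt (P * f3⁻¹) (P * f1⁻¹) ↔ o.lt (P * f3⁻¹) (P * f1⁻¹)) ∧
    (o.lt (f2 * Q⁻¹) (P * f3⁻¹) ↔ o.lt (f2 * Q⁻¹) (P * f3⁻¹)) ∧
    (o.lt (P * f1⁻¹) (P * f4⁻¹) ↔ o.lt (P * f1⁻¹) (P * f4⁻¹)) ∧
    (o.lt (Q * f1⁻¹) (f1 * P⁻¹) ↔ o.lt (Q * P⁻¹) (P * f1⁻¹)) ∧
    (o.lt (f0 * Q⁻¹) (P * f4⁻¹) ↔ o.lt (f0 * Q⁻¹) (P * f4⁻¹)) ∧
    (o.lt (f0 * Q⁻¹) (f1 * Q⁻¹) ↔ o.lt (f0 * Q⁻¹) (f1 * Q⁻¹)) ∧
    (o.lt (f1 * Q⁻¹) (f0 * Q⁻¹) ↔ o.lt (f1 * Q⁻¹) (f0 * Q⁻¹)) ∧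
    (o.lt (f0 * Q⁻¹) (f2 * Q⁻¹) ↔ o.lt (f0 * Q⁻¹) (f2 * Q⁻¹)) ∧
    (o.lt (f2 * Q⁻¹) (f0 * Q⁻¹) ↔ o.lt (f2 * Q⁻¹) (f0 * Q⁻¹)) ∧
    (o.lt (P * f4⁻¹) (f0 * Q⁻¹) ↔ o.lt (P * f4⁻¹) (f0 * Q⁻¹)) ∧
    (o.lt (f0 * P⁻¹) (f4 * P⁻¹) ↔ o.lt (f0 * Q⁻¹) (f4 * Q⁻¹)) ∧
    (o.lt (f4 * Q⁻¹) (f0 * Q⁻¹) ↔ o.lt (f4 * Q⁻¹) (f0 * Q⁻¹)) ∧
    (o.lt (f1 * P⁻¹) (f2 * P⁻¹) ↔ o.lt (f1 * Q⁻¹) (f2 * Q⁻¹)) ∧
    (o.lt (f1 * Q⁻¹) (P * f4⁻¹) ↔ o.lt (f1 * Q⁻¹) (P * f4⁻¹)) := by
  have C' := C
  obtain ⟨C0, C1, C2, C3, C4, C5, C6, C7, C8, C9⟩ := C'
  simp only [Cube] at C C0 C1 C2 C3 C4 C5 C6 C7 C8 C9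
  exact ⟨o.cv hδ (1) (by simp only [hδ, δinv hδ, δone hδ, D] <;> linear_combination (0) * h3) (by first | (simp only [mul_assoc, mul_inv_rev, inv_inv, mul_inv_cancel_left, inv_mul_cancel_left, mul_inv_cancel, inv_mul_cancel, mul_one, one_mul, inv_one]; done) | simp only [mul_assoc, mul_inv_rev, inv_inv, mul_inv_cancel_left, inv_mul_cancel_left, mul_inv_cancel, inv_mul_cancel, mul_one, one_mul, inv_one, C]) (by first | (simp only [mul_assoc, mul_inv_rev, inv_inv, mul_inv_cancel_left, inv_mul_cancel_left, mul_inv_cancel, inv_mul_cancel, mul_one, one_mul, inv_one]; done) | simp only [mul_assoc, mul_inv_rev, inv_inv, mul_inv_cancel_left, inv_mul_cancel_left, mul_inv_cancel, inv_mul_cancel, mul_one, one_mul, inv_one, C]),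
    o.cv hδ (1) (by simp only [hδ, δinv hδ, δone hδ, D] <;> linear_combination (0) * h3) (by first | (simp only [mul_assoc, mul_inv_rev, inv_inv, mul_inv_cancel_left, inv_mul_cancel_left, mul_inv_cancel, inv_mul_cancel, mul_one, one_mul, inv_one]; done) | simp only [mul_assoc, mul_inv_rev, inv_inv, mul_inv_cancel_left, inv_mul_cancel_left, mul_inv_cancel, inv_mul_cancel, mul_one, one_mul, inv_one, C]) (by first | (simp only [mul_assoc, mul_inv_rev, inv_inv, mul_inv_cancel_left, inv_mul_cancel_left, mul_inv_cancel, inv_mul_cancel, mul_one, one_mul, inv_one]; done) | simp only [mul_assoc, mul_inv_rev, inv_inv, mul_inv_cancel_left, inv_mul_cancel_left, mul_inv_cancel, inv_mul_cancel, mul_one, one_mul, inv_one, C]),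
    o.cv hδ (f2 * P⁻¹) (by simp only [hδ, δinv hδ, δone hδ, D] <;> linear_combination (0) * h3) (by first | (simp only [mul_assoc, mul_inv_rev, inv_inv, mul_inv_cancel_left, inv_mul_cancel_left, mul_inv_cancel, inv_mul_cancel, mul_one, one_mul, inv_one]; done) | simp only [mul_assoc, mul_inv_rev, inv_inv, mul_inv_cancel_left, inv_mul_cancel_left, mul_inv_cancel, inv_mul_cancel, mul_one, one_mul, inv_one, C]) (by first | (simp only [mul_assoc, mul_inv_rev, inv_inv, mul_inv_cancel_left, inv_mul_cancel_left, mul_inv_cancel, inv_mul_cancel, mul_one, one_mul, inv_one, C4]; done) | simp only [mul_assoc, mul_inv_rev, inv_inv, mul_inv_cancel_left, inv_mul_cancel_left, mul_inv_cancel, inv_mul_cancel, mul_one, one_mul, inv_one, C]),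
    o.cv hδ (1) (by simp only [hδ, δinv hδ, δone hδ, D] <;> linear_combination (0) * h3) (by first | (simp only [mul_assoc, mul_inv_rev, inv_inv, mul_inv_cancel_left, inv_mul_cancel_left, mul_inv_cancel, inv_mul_cancel, mul_one, one_mul, inv_one]; done) | simp only [mul_assoc, mul_inv_rev, inv_inv, mul_inv_cancel_left, inv_mul_cancel_left, mul_inv_cancel, inv_mul_cancel, mul_one, one_mul, inv_one, C]) (by first | (simp only [mul_assoc, mul_inv_rev, inv_inv, mul_inv_cancel_left, inv_mul_cancel_left, mul_inv_cancel, inv_mul_cancel, mul_one, one_mul, inv_one]; done) | simp only [mul_assoc, mul_inv_rev, inv_inv, mul_inv_cancel_left, inv_mul_cancel_left, mul_inv_cancel, inv_mul_cancel, mul_one, one_mul, inv_one, C]),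
    o.cv hδ (1) (by simp only [hδ, δinv hδ, δone hδ, D] <;> linear_combination (0) * h3) (by first | (simp only [mul_assoc, mul_inv_rev, inv_inv, mul_inv_cancel_left, inv_mul_cancel_left, mul_inv_cancel, inv_mul_cancel, mul_one, one_mul, inv_one]; done) | simp only [mul_assoc, mul_inv_rev, inv_inv, mul_inv_cancel_left, inv_mul_cancel_left, mul_inv_cancel, inv_mul_cancel, mul_one, one_mul, inv_one, C]) (by first | (simp only [mul_assoc, mul_inv_rev, inv_inv, mul_inv_cancel_left, inv_mul_cancel_left, mul_inv_cancel, inv_mul_cancel, mul_one, one_mul, inv_one]; done) | simp only [mul_assoc, mul_inv_rev, inv_inv, mul_inv_cancel_left, inv_mul_cancel_left, mul_inv_cancel, inv_mul_cancel, mul_one, one_mul, inv_one, C]),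
    o.cv hδ (1) (by simp only [hδ, δinv hδ, δone hδ, D] <;> linear_combination (0) * h3) (by first | (simp only [mul_assoc, mul_inv_rev, inv_inv, mul_inv_cancel_left, inv_mul_cancel_left, mul_inv_cancel, inv_mul_cancel, mul_one, one_mul, inv_one]; done) | simp only [mul_assoc, mul_inv_rev, inv_inv, mul_inv_cancel_left, inv_mul_cancel_left, mul_inv_cancel, inv_mul_cancel, mul_one, one_mul, inv_one, C]) (by first | (simp only [mul_assoc, mul_inv_rev, inv_inv, mul_inv_cancel_left, inv_mul_cancel_left, mul_inv_cancel, inv_mul_cancel, mul_one, one_mul, inv_one]; done) | simp only [mul_assoc, mul_inv_rev, inv_inv, mul_inv_cancel_left, inv_mul_cancel_left, mul_inv_cancel, inv_mul_cancel, mul_one, one_mul, inv_one, C]),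
    o.cv hδ (1) (by simp only [hδ, δinv hδ, δone hδ, D] <;> linear_combination (0) * h3) (by first | (simp only [mul_assoc, mul_inv_rev, inv_inv, mul_inv_cancel_left, inv_mul_cancel_left, mul_inv_cancel, inv_mul_cancel, mul_one, one_mul, inv_one]; done) | simp only [mul_assoc, mul_inv_rev, inv_inv, mul_inv_cancel_left, inv_mul_cancel_left, mul_inv_cancel, inv_mul_cancel, mul_one, one_mul, inv_one, C]) (by first | (simp only [mul_assoc, mul_inv_rev, inv_inv, mul_inv_cancel_left, inv_mul_cancel_left, mul_inv_cancel, inv_mul_cancel, mul_one, one_mul, inv_one]; done) | simp only [mul_assoc, mul_inv_rev, inv_inv, mul_inv_cancel_left, inv_mul_cancel_left, mul_inv_cancel, inv_mul_cancel, mul_one, one_mul, inv_one, C]),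
    o.cv hδ (1) (by simp only [hδ, δinv hδ, δone hδ, D] <;> linear_combination (0) * h3) (by first | (simp only [mul_assoc, mul_inv_rev, inv_inv, mul_inv_cancel_left, inv_mul_cancel_left, mul_inv_cancel, inv_mul_cancel, mul_one, one_mul, inv_one]; done) | simp only [mul_assoc, mul_inv_rev, inv_inv, mul_inv_cancel_left, inv_mul_cancel_left, mul_inv_cancel, inv_mul_cancel, mul_one, one_mul, inv_one, C]) (by first | (simp only [mul_assoc, mul_inv_rev, inv_inv, mul_inv_cancel_left, inv_mul_cancel_left, mul_inv_cancel, inv_mul_cancel, mul_one, one_mul, inv_one]; done) | simp only [mul_assoc, mul_inv_rev, inv_inv, mul_inv_cancel_left, inv_mul_cancel_left, mul_inv_cancel, inv_mul_cancel, mul_one, one_mul, inv_one, C]),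
    o.cv hδ (1) (by simp only [hδ, δinv hδ, δone hδ, D] <;> linear_combination (0) * h3) (by first | (simp only [mul_assoc, mul_inv_rev, inv_inv, mul_inv_cancel_left, inv_mul_cancel_left, mul_inv_cancel, inv_mul_cancel, mul_one, one_mul, inv_one]; done) | simp only [mul_assoc, mul_inv_rev, inv_inv, mul_inv_cancel_left, inv_mul_cancel_left, mul_inv_cancel, inv_mul_cancel, mul_one, one_mul, inv_one, C]) (by first | (simp only [mul_assoc, mul_inv_rev, inv_inv, mul_inv_cancel_left, inv_mul_cancel_left, mul_inv_cancel, inv_mul_cancel, mul_one, one_mul, inv_one]; done) | simp only [mul_assoc, mul_inv_rev, inv_inv, mul_inv_cancel_left, inv_mul_cancel_left, mul_inv_cancel, inv_mul_cancel, mul_one, one_mul, inv_one, C]),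
    o.cv hδ (f1 * P⁻¹) (by simp only [hδ, δinv hδ, δone hδ, D] <;> linear_combination (0) * h3) (by first | (simp only [mul_assoc, mul_inv_rev, inv_inv, mul_inv_cancel_left, inv_mul_cancel_left, mul_inv_cancel, inv_mul_cancel, mul_one, one_mul, inv_one]; done) | simp only [mul_assoc, mul_inv_rev, inv_inv, mul_inv_cancel_left, inv_mul_cancel_left, mul_inv_cancel, inv_mul_cancel, mul_one, one_mul, inv_one, C]) (by first | (simp only [mul_assoc, mul_inv_rev, inv_inv, mul_inv_cancel_left, inv_mul_cancel_left, mul_inv_cancel, inv_mul_cancel, mul_one, one_mul, inv_one, C1]; done) | simp only [mul_assoc, mul_inv_rev, inv_inv, mul_inv_cancel_left, inv_mul_cancel_left, mul_inv_cancel, inv_mul_cancel, mul_one, one_mul, inv_one, C]),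
    o.cv hδ (1) (by simp only [hδ, δinv hδ, δone hδ, D] <;> linear_combination (0) * h3) (by first | (simp only [mul_assoc, mul_inv_rev, inv_inv, mul_inv_cancel_left, inv_mul_cancel_left, mul_inv_cancel, inv_mul_cancel, mul_one, one_mul, inv_one]; done) | simp only [mul_assoc, mul_inv_rev, inv_inv, mul_inv_cancel_left, inv_mul_cancel_left, mul_inv_cancel, inv_mul_cancel, mul_one, one_mul, inv_one, C]) (by first | (simp only [mul_assoc, mul_inv_rev, inv_inv, mul_inv_cancel_left, inv_mul_cancel_left, mul_inv_cancel, inv_mul_cancel, mul_one, one_mul, inv_one]; done) | simp only [mul_assoc, mul_inv_rev, inv_inv, mul_inv_cancel_left, inv_mul_cancel_left, mul_inv_cancel, inv_mul_cancel, mul_one, one_mul, inv_one, C]),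
    o.cv hδ (1) (by simp only [hδ, δinv hδ, δone hδ, D] <;> linear_combination (0) * h3) (by first | (simp only [mul_assoc, mul_inv_rev, inv_inv, mul_inv_cancel_left, inv_mul_cancel_left, mul_inv_cancel, inv_mul_cancel, mul_one, one_mul, inv_one]; done) | simp only [mul_assoc, mul_inv_rev, inv_inv, mul_inv_cancel_left, inv_mul_cancel_left, mul_inv_cancel, inv_mul_cancel, mul_one, one_mul, inv_one, C]) (by first | (simp only [mul_assoc, mul_inv_rev, inv_inv, mul_inv_cancel_left, inv_mul_cancel_left, mul_inv_cancel, inv_mul_cancel, mul_one, one_mul, inv_one]; done) | simp only [mul_assoc, mul_inv_rev, inv_inv, mul_inv_cancel_left, inv_mul_cancel_left, mul_inv_cancel, inv_mul_cancel, mul_one, one_mul, inv_one, C]),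
    o.cv hδ (1) (by simp only [hδ, δinv hδ, δone hδ, D] <;> linear_combination (0) * h3) (by first | (simp only [mul_assoc, mul_inv_rev, inv_inv, mul_inv_cancel_left, inv_mul_cancel_left, mul_inv_cancel, inv_mul_cancel, mul_one, one_mul, inv_one]; done) | simp only [mul_assoc, mul_inv_rev, inv_inv, mul_inv_cancel_left, inv_mul_cancel_left, mul_inv_cancel, inv_mul_cancel, mul_one, one_mul, inv_one, C]) (by first | (simp only [mul_assoc, mul_inv_rev, inv_inv, mul_inv_cancel_left, inv_mul_cancel_left, mul_inv_cancel, inv_mul_cancel, mul_one, one_mul, inv_one]; done) | simp only [mul_assoc, mul_inv_rev, inv_inv, mul_inv_cancel_left, inv_mul_cancel_left, mul_inv_cancel, inv_mul_cancel, mul_one, one_mul, inv_one, C]),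
    o.cv hδ (1) (by simp only [hδ, δinv hδ, δone hδ, D] <;> linear_combination (0) * h3) (by first | (simp only [mul_assoc, mul_inv_rev, inv_inv, mul_inv_cancel_left, inv_mul_cancel_left, mul_inv_cancel, inv_mul_cancel, mul_one, one_mul, inv_one]; done) | simp only [mul_assoc, mul_inv_rev, inv_inv, mul_inv_cancel_left, inv_mul_cancel_left, mul_inv_cancel, inv_mul_cancel, mul_one, one_mul, inv_one, C]) (by first | (simp only [mul_assoc, mul_inv_rev, inv_inv, mul_inv_cancel_left, inv_mul_cancel_left, mul_inv_cancel, inv_mul_cancel, mul_one, one_mul, inv_one]; done) | simp only [mul_assoc, mul_inv_rev, inv_inv, mul_inv_cancel_left, inv_mul_cancel_left, mul_inv_cancel, inv_mul_cancel, mul_one, one_mul, inv_one, C]),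
    o.cv hδ (1) (by simp only [hδ, δinv hδ, δone hδ, D] <;> linear_combination (0) * h3) (by first | (simp only [mul_assoc, mul_inv_rev, inv_inv, mul_inv_cancel_left, inv_mul_cancel_left, mul_inv_cancel, inv_mul_cancel, mul_one, one_mul, inv_one]; done) | simp only [mul_assoc, mul_inv_rev, inv_inv, mul_inv_cancel_left, inv_mul_cancel_left, mul_inv_cancel, inv_mul_cancel, mul_one, one_mul, inv_one, C]) (by first | (simp only [mul_assoc, mul_inv_rev, inv_inv, mul_inv_cancel_left, inv_mul_cancel_left, mul_inv_cancel, inv_mul_cancel, mul_one, one_mul, inv_one]; done) | simp only [mul_assoc, mul_inv_rev, inv_inv, mul_inv_cancel_left, inv_mul_cancel_left, mul_inv_cancel, inv_mul_cancel, mul_one, one_mul, inv_one, C]),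
    o.cv hδ (1) (by simp only [hδ, δinv hδ, δone hδ, D] <;> linear_combination (0) * h3) (by first | (simp only [mul_assoc, mul_inv_rev, inv_inv, mul_inv_cancel_left, inv_mul_cancel_left, mul_inv_cancel, inv_mul_cancel, mul_one, one_mul, inv_one]; done) | simp only [mul_assoc, mul_inv_rev, inv_inv, mul_inv_cancel_left, inv_mul_cancel_left, mul_inv_cancel, inv_mul_cancel, mul_one, one_mul, inv_one, C]) (by first | (simp only [mul_assoc, mul_inv_rev, inv_inv, mul_inv_cancel_left, inv_mul_cancel_left, mul_inv_cancel, inv_mul_cancel, mul_one, one_mul, inv_one]; done) | simp only [mul_assoc, mul_inv_rev, inv_inv, mul_inv_cancel_left, inv_mul_cancel_left, mul_inv_cancel, inv_mul_cancel, mul_one, one_mul, inv_one, C]),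
    o.cv hδ (P * Q⁻¹) (by simp only [hδ, δinv hδ, δone hδ, D] <;> linear_combination (0) * h3) (by first | (simp only [mul_assoc, mul_inv_rev, inv_inv, mul_inv_cancel_left, inv_mul_cancel_left, mul_inv_cancel, inv_mul_cancel, mul_one, one_mul, inv_one]; done) | simp only [mul_assoc, mul_inv_rev, inv_inv, mul_inv_cancel_left, inv_mul_cancel_left, mul_inv_cancel, inv_mul_cancel, mul_one, one_mul, inv_one, C]) (by first | (simp only [mul_assoc, mul_inv_rev, inv_inv, mul_inv_cancel_left, inv_mul_cancel_left, mul_inv_cancel, inv_mul_cancel, mul_one, one_mul, inv_one]; done) | simp only [mul_assoc, mul_inv_rev, inv_inv, mul_inv_cancel_left, inv_mul_cancel_left, mul_inv_cancel, inv_mul_cancel, mul_one, one_mul, inv_one, C]),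
    o.cv hδ (1) (by simp only [hδ, δinv hδ, δone hδ, D] <;> linear_combination (0) * h3) (by first | (simp only [mul_assoc, mul_inv_rev, inv_inv, mul_inv_cancel_left, inv_mul_cancel_left, mul_inv_cancel, inv_mul_cancel, mul_one, one_mul, inv_one]; done) | simp only [mul_assoc, mul_inv_rev, inv_inv, mul_inv_cancel_left, inv_mul_cancel_left, mul_inv_cancel, inv_mul_cancel, mul_one, one_mul, inv_one, C]) (by first | (simp only [mul_assoc, mul_inv_rev, inv_inv, mul_inv_cancel_left, inv_mul_cancel_left, mul_inv_cancel, inv_mul_cancel, mul_one, one_mul, inv_one]; done) | simp only [mul_assoc, mul_inv_rev, inv_inv, mul_inv_cancel_left, inv_mul_cancel_left, mul_inv_cancel, inv_mul_cancel, mul_one, one_mul, inv_one, C]),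
    o.cv hδ (P * Q⁻¹) (by simp only [hδ, δinv hδ, δone hδ, D] <;> linear_combination (0) * h3) (by first | (simp only [mul_assoc, mul_inv_rev, inv_inv, mul_inv_cancel_left, inv_mul_cancel_left, mul_inv_cancel, inv_mul_cancel, mul_one, one_mul, inv_one]; done) | simp only [mul_assoc, mul_inv_rev, inv_inv, mul_inv_cancel_left, inv_mul_cancel_left, mul_inv_cancel, inv_mul_cancel, mul_one, one_mul, inv_one, C]) (by first | (simp only [mul_assoc, mul_inv_rev, inv_inv, mul_inv_cancel_left, inv_mul_cancel_left, mul_inv_cancel, inv_mul_cancel, mul_one, one_mul, inv_one]; done) | simp only [mul_assoc, mul_inv_rev, inv_inv, mul_inv_cancel_left, inv_mul_cancel_left, mul_inv_cancel, inv_mul_cancel, mul_one, one_mul, inv_one, C]),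
    o.cv hδ (1) (by simp only [hδ, δinv hδ, δone hδ, D] <;> linear_combination (0) * h3) (by first | (simp only [mul_assoc, mul_inv_rev, inv_inv, mul_inv_cancel_left, inv_mul_cancel_left, mul_inv_cancel, inv_mul_cancel, mul_one, one_mul, inv_one]; done) | simp only [mul_assoc, mul_inv_rev, inv_inv, mul_inv_cancel_left, inv_mul_cancel_left, mul_inv_cancel, inv_mul_cancel, mul_one, one_mul, inv_one, C]) (by first | (simp only [mul_assoc, mul_inv_rev, inv_inv, mul_inv_cancel_left, inv_mul_cancel_left, mul_inv_cancel, inv_mul_cancel, mul_one, one_mul, inv_one]; done) | simp only [mul_assoc, mul_inv_rev, inv_inv, mul_inv_cancel_left, inv_mul_cancel_left, mul_inv_cancel, inv_mul_cancel, mul_one, one_mul, inv_one, C])⟩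

theorem close_AAAAA_k11 {G : Type*} [Group G] {δ : G → ZMod 3} (hδ : ∀ u v, δ (u * v) = δ u + δ v) (o : Pre δ)
    {P Q f0 f1 f2 f3 f4 : G} {e : ZMod 3} (h3 : 3 * e = 0)
    (D : δ P = e ∧ δ Q = -e ∧ δ f0 = 0 ∧ δ f1 = 0 ∧ δ f2 = 0 ∧ δ f3 = 0 ∧ δ f4 = 0)
    (C : Cube P f0 ∧ Cube P f1 ∧ Cube Q f0 ∧ Cube Q f1 ∧ Cube P f2 ∧ Cube Q f2 ∧ Cube P f3 ∧ Cube Q f3 ∧ Cube P f4 ∧ Cube Q f4) :
    (o.lt (P * f2⁻¹) (P * f0⁻¹) ↔ o.lt (P * f2⁻¹) (P * f0⁻¹)) ∧
    (o.lt (f2 * P⁻¹) (Q * f2⁻¹) ↔ o.lt (P * f2⁻¹) (Q * P⁻¹)) ∧
    (o.lt (P * f2⁻¹) (f2 * Q⁻¹) ↔ o.lt (P * f2⁻¹) (f2 * Q⁻¹)) ∧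
    (o.lt (f2 * Q⁻¹) (P * f2⁻¹) ↔ o.lt (f2 * Q⁻¹) (P * f2⁻¹)) ∧
    (o.lt (P * f2⁻¹) (P * f3⁻¹) ↔ o.lt (P * f2⁻¹) (P * f3⁻¹)) ∧
    (o.lt (P * f2⁻¹) (f3 * Q⁻¹) ↔ o.lt (P * f2⁻¹) (f3 * Q⁻¹)) ∧
    (o.lt (f3 * Q⁻¹) (P * f3⁻¹) ↔ o.lt (f3 * Q⁻¹) (P * f3⁻¹)) ∧
    (o.lt (P * f2⁻¹) (f4 * Q⁻¹) ↔ o.lt (P * f2⁻¹) (f4 * Q⁻¹)) ∧
    (o.lt (Q * f3⁻¹) (f3 * P⁻¹) ↔ o.lt (Q * P⁻¹) (P * f3⁻¹)) ∧
    (o.lt (f3 * Q⁻¹) (P * f2⁻¹) ↔ o.lt (f3 * Q⁻¹) (P * f2⁻¹)) ∧
    (o.lt (f2 * Q⁻¹) (f4 * Q⁻¹) ↔ o.lt (f2 * Q⁻¹) (f4 * Q⁻¹)) ∧
    (o.lt (f2 * Q⁻¹) (P * f0⁻¹) ↔ o.lt (f2 * Q⁻¹) (P * f0⁻¹)) ∧
    (o.lt (f2 * (Q⁻¹ * (P * f2⁻¹))) (Q * f2⁻¹) ↔ o.lt (f2 * Q⁻¹) (Q * P⁻¹)) ∧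
    (o.lt (Q * P⁻¹) (f0 * Q⁻¹) ↔ o.lt (Q * P⁻¹) (f0 * Q⁻¹)) ∧
    (o.lt (f2 * Q⁻¹) (f1 * Q⁻¹) ↔ o.lt (f2 * Q⁻¹) (f1 * Q⁻¹)) ∧
    (o.lt (f2 * P⁻¹) (f3 * P⁻¹) ↔ o.lt (f2 * Q⁻¹) (f3 * Q⁻¹)) ∧
    (o.lt (f3 * P⁻¹) (f2 * P⁻¹) ↔ o.lt (f3 * Q⁻¹) (f2 * Q⁻¹)) ∧
    (o.lt (f2 * Q⁻¹) (P * f4⁻¹) ↔ o.lt (f2 * Q⁻¹) (P * f4⁻¹)) ∧
    (o.lt (P * f3⁻¹) (f4 * Q⁻¹) ↔ o.lt (P * f3⁻¹) (f4 * Q⁻¹)) ∧
    (o.lt (P * f3⁻¹) (P * f0⁻¹) ↔ o.lt (P * f3⁻¹) (P * f0⁻¹)) := by
  have C' := C
  obtain ⟨C0, C1, C2, C3, C4, C5, C6, C7, C8, C9⟩ := C'
  simp only [Cube] at C C0 C1 C2 C3 C4 C5 C6 C7 C8 C9
  exact ⟨o.cv hδ (1) (by simp only [hδ, δinv hδ, δone hδ, D] <;> linear_combination (0) * h3) (by first | (simp only [mul_assoc, mul_inv_rev, inv_inv, mul_inv_cancel_left, inv_mul_cancel_left, mul_inv_cancel, inv_mul_cancel, mul_one, one_mul, inv_one]; done) | simp only [mul_assoc, mul_inv_rev, inv_inv, mul_inv_cancel_left, inv_mul_cancel_left, mul_inv_cancel, inv_mul_cancel, mul_one, one_mul, inv_one, C]) (by first | (simp only [mul_assoc, mul_inv_rev, inv_inv, mul_inv_cancel_left, inv_mul_cancel_left, mul_inv_cancel, inv_mul_cancel, mul_one, one_mul, inv_one]; done) |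 simp only [mul_assoc, mul_inv_rev, inv_inv, mul_inv_cancel_left, inv_mul_cancel_left, mul_inv_cancel, inv_mul_cancel, mul_one, one_mul, inv_one, C]),
    o.cv hδ (P * (f2⁻¹ * (P * f2⁻¹))) (by simp only [hδ, δinv hδ, δone hδ, D] <;> linear_combination (0) * h3) (by first | (simp only [mul_assoc, mul_inv_rev, inv_inv, mul_inv_cancel_left, inv_mul_cancel_left, mul_inv_cancel, inv_mul_cancel, mul_one, one_mul, inv_one]; done) | simp only [mul_assoc, mul_inv_rev, inv_inv, mul_inv_cancel_left, inv_mul_cancel_left, mul_inv_cancel, inv_mul_cancel, mul_one, one_mul, inv_one, C]) (by first | (simp only [mul_assoc, mul_inv_rev, inv_inv, mul_inv_cancel_left, inv_mul_cancel_left, mul_inv_cancel, inv_mul_cancel, mul_one, one_mul, inv_one, C4]; done) | simp only [mul_assoc, mul_inv_rev, inv_inv, mul_inv_cancel_left, inv_mul_cancel_left, mul_inv_cancel, inv_mul_cancel, mul_one, one_mul, inv_one, C]),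
    o.cv hδ (1) (by simp only [hδ, δinv hδ, δone hδ, D] <;> linear_combination (0) * h3) (by first | (simp only [mul_assoc, mul_inv_rev, inv_inv, mul_inv_cancel_left, inv_mul_cancel_left, mul_inv_cancel, inv_mul_cancel, mul_one, one_mul, inv_one]; done) | simp only [mul_assoc, mul_inv_rev, inv_inv, mul_inv_cancel_left, inv_mul_cancel_left, mul_inv_cancel, inv_mul_cancel, mul_one, one_mul, inv_one, C]) (by first | (simp only [mul_assoc, mul_inv_rev, inv_inv, mul_inv_cancel_left, inv_mul_cancel_left, mul_inv_cancel, inv_mul_cancel, mul_one, one_mul, inv_one]; done) | simp only [mul_assoc, mul_inv_rev, inv_inv, mul_inv_cancel_left, inv_mul_cancel_left, mul_inv_cancel, inv_mul_cancel, mul_one, one_mul, inv_one, C]),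
    o.cv hδ (1) (by simp only [hδ, δinv hδ, δone hδ, D] <;> linear_combination (0) * h3) (by first | (simp only [mul_assoc, mul_inv_rev, inv_inv, mul_inv_cancel_left, inv_mul_cancel_left, mul_inv_cancel, inv_mul_cancel, mul_one, one_mul, inv_one]; done) | simp only [mul_assoc, mul_inv_rev, inv_inv, mul_inv_cancel_left, inv_mul_cancel_left, mul_inv_cancel, inv_mul_cancel, mul_one, one_mul, inv_one, C]) (by first | (simp only [mul_assoc, mul_inv_rev, inv_inv, mul_inv_cancel_left, inv_mul_cancel_left, mul_inv_cancel, inv_mul_cancel, mul_one, one_mul, inv_one]; done) | simp only [mul_assoc, mul_inv_rev, inv_inv, mul_inv_cancel_left, inv_mul_cancel_left, mul_inv_cancel, inv_mul_cancel, mul_one, one_mul, inv_one, C]),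
    o.cv hδ (1) (by simp only [hδ, δinv hδ, δone hδ, D] <;> linear_combination (0) * h3) (by first | (simp only [mul_assoc, mul_inv_rev, inv_inv, mul_inv_cancel_left, inv_mul_cancel_left, mul_inv_cancel, inv_mul_cancel, mul_one, one_mul, inv_one]; done) | simp only [mul_assoc, mul_inv_rev, inv_inv, mul_inv_cancel_left, inv_mul_cancel_left, mul_inv_cancel, inv_mul_cancel, mul_one, one_mul, inv_one, C]) (by first | (simp only [mul_assoc, mul_inv_rev, inv_inv, mul_inv_cancel_left, inv_mul_cancel_left, mul_inv_cancel, inv_mul_cancel, mul_one, one_mul, inv_one]; done) | simp only [mul_assoc, mul_inv_rev, inv_inv, mul_inv_cancel_left, inv_mul_cancel_left, mul_inv_cancel, inv_mul_cancel, mul_one, one_mul, inv_one, C]),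
    o.cv hδ (1) (by simp only [hδ, δinv hδ, δone hδ, D] <;> linear_combination (0) * h3) (by first | (simp only [mul_assoc, mul_inv_rev, inv_inv, mul_inv_cancel_left, inv_mul_cancel_left, mul_inv_cancel, inv_mul_cancel, mul_one, one_mul, inv_one]; done) | simp only [mul_assoc, mul_inv_rev, inv_inv, mul_inv_cancel_left, inv_mul_cancel_left, mul_inv_cancel, inv_mul_cancel, mul_one, one_mul, inv_one, C]) (by first | (simp only [mul_assoc, mul_inv_rev, inv_inv, mul_inv_cancel_left, inv_mul_cancel_left, mul_inv_cancel, inv_mul_cancel, mul_one, one_mul, inv_one]; done) | simp only [mul_assoc, mul_inv_rev, inv_inv, mul_inv_cancel_left, inv_mul_cancel_left, mul_inv_cancel, inv_mul_cancel, mul_one, one_mul, inv_one, C]),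
    o.cv hδ (1) (by simp only [hδ, δinv hδ, δone hδ, D] <;> linear_combination (0) * h3) (by first | (simp only [mul_assoc, mul_inv_rev, inv_inv, mul_inv_cancel_left, inv_mul_cancel_left, mul_inv_cancel, inv_mul_cancel, mul_one, one_mul, inv_one]; done) | simp only [mul_assoc, mul_inv_rev, inv_inv, mul_inv_cancel_left, inv_mul_cancel_left, mul_inv_cancel, inv_mul_cancel, mul_one, one_mul, inv_one, C]) (by first | (simp only [mul_assoc, mul_inv_rev, inv_inv, mul_inv_cancel_left, inv_mul_cancel_left, mul_inv_cancel, inv_mul_cancel, mul_one, one_mul, inv_one]; done) | simp only [mul_assoc, mul_inv_rev, inv_inv, mul_inv_cancel_left, inv_mul_cancel_left, mul_inv_cancel, inv_mul_cancel, mul_one, one_mul, inv_one, C]),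
    o.cv hδ (1) (by simp only [hδ, δinv hδ, δone hδ, D] <;> linear_combination (0) * h3) (by first | (simp only [mul_assoc, mul_inv_rev, inv_inv, mul_inv_cancel_left, inv_mul_cancel_left, mul_inv_cancel, inv_mul_cancel, mul_one, one_mul, inv_one]; done) | simp only [mul_assoc, mul_inv_rev, inv_inv, mul_inv_cancel_left, inv_mul_cancel_left, mul_inv_cancel, inv_mul_cancel, mul_one, one_mul, inv_one, C]) (by first | (simp only [mul_assoc, mul_inv_rev, inv_inv, mul_inv_cancel_left, inv_mul_cancel_left, mul_inv_cancel, inv_mul_cancel, mul_one, one_mul, inv_one]; done) | simp only [mul_assoc, mul_inv_rev, inv_inv, mul_inv_cancel_left, inv_mul_cancel_left, mul_inv_cancel, inv_mul_cancel, mul_one, one_mul, inv_one, C]),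
    o.cv hδ (f3 * P⁻¹) (by simp only [hδ, δinv hδ, δone hδ, D] <;> linear_combination (0) * h3) (by first | (simp only [mul_assoc, mul_inv_rev, inv_inv, mul_inv_cancel_left, inv_mul_cancel_left, mul_inv_cancel, inv_mul_cancel, mul_one, one_mul, inv_one]; done) | simp only [mul_assoc, mul_inv_rev, inv_inv, mul_inv_cancel_left, inv_mul_cancel_left, mul_inv_cancel, inv_mul_cancel, mul_one, one_mul, inv_one, C]) (by first | (simp only [mul_assoc, mul_inv_rev, inv_inv, mul_inv_cancel_left, inv_mul_cancel_left, mul_inv_cancel, inv_mul_cancel, mul_one, one_mul, inv_one, C6]; done) | simp only [mul_assoc, mul_inv_rev, inv_inv, mul_inv_cancel_left, inv_mul_cancel_left, mul_inv_cancel, inv_mul_cancel, mul_one, one_mul, inv_one, C]),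
    o.cv hδ (1) (by simp only [hδ, δinv hδ, δone hδ, D] <;> linear_combination (0) * h3) (by first | (simp only [mul_assoc, mul_inv_rev, inv_inv, mul_inv_cancel_left, inv_mul_cancel_left, mul_inv_cancel, inv_mul_cancel, mul_one, one_mul, inv_one]; done) | simp only [mul_assoc, mul_inv_rev, inv_inv, mul_inv_cancel_left, inv_mul_cancel_left, mul_inv_cancel, inv_mul_cancel, mul_one, one_mul, inv_one, C]) (by first | (simp only [mul_assoc, mul_inv_rev, inv_inv, mul_inv_cancel_left, inv_mul_cancel_left, mul_inv_cancel, inv_mul_cancel, mul_one, one_mul, inv_one]; done) | simp only [mul_assoc, mul_inv_rev, inv_inv, mul_inv_cancel_left, inv_mul_cancel_left, mul_inv_cancel, inv_mul_cancel, mul_one, one_mul, inv_one, C]),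
    o.cv hδ (1) (by simp only [hδ, δinv hδ, δone hδ, D] <;> linear_combination (0) * h3) (by first | (simp only [mul_assoc, mul_inv_rev, inv_inv, mul_inv_cancel_left, inv_mul_cancel_left, mul_inv_cancel, inv_mul_cancel, mul_one, one_mul, inv_one]; done) | simp only [mul_assoc, mul_inv_rev, inv_inv, mul_inv_cancel_left, inv_mul_cancel_left, mul_inv_cancel, inv_mul_cancel, mul_one, one_mul, inv_one, C]) (by first | (simp only [mul_assoc, mul_inv_rev, inv_inv, mul_inv_cancel_left, inv_mul_cancel_left, mul_inv_cancel, inv_mul_cancel, mul_one, one_mul, inv_one]; done) | simp only [mul_assoc, mul_inv_rev, inv_inv, mul_inv_cancel_left, inv_mul_cancel_left, mul_inv_cancel, inv_mul_cancel, mul_one, one_mul, inv_one, C]),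
    o.cv hδ (1) (by simp only [hδ, δinv hδ, δone hδ, D] <;> linear_combination (0) * h3) (by first | (simp only [mul_assoc, mul_inv_rev, inv_inv, mul_inv_cancel_left, inv_mul_cancel_left, mul_inv_cancel, inv_mul_cancel, mul_one, one_mul, inv_one]; done) | simp only [mul_assoc, mul_inv_rev, inv_inv, mul_inv_cancel_left, inv_mul_cancel_left, mul_inv_cancel, inv_mul_cancel, mul_one, one_mul, inv_one, C]) (by first | (simp only [mul_assoc, mul_inv_rev, inv_inv, mul_inv_cancel_left, inv_mul_cancel_left, mul_inv_cancel, inv_mul_cancel, mul_one, one_mul, inv_one]; done) | simp only [mul_assoc, mul_inv_rev, inv_inv, mul_inv_cancel_left, inv_mul_cancel_left, mul_inv_cancel, inv_mul_cancel, mul_one, one_mul, inv_one, C]),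
    o.cv hδ (f2 * P⁻¹) (by simp only [hδ, δinv hδ, δone hδ, D] <;> linear_combination (1) * h3) (by first | (simp only [mul_assoc, mul_inv_rev, inv_inv, mul_inv_cancel_left, inv_mul_cancel_left, mul_inv_cancel, inv_mul_cancel, mul_one, one_mul, inv_one]; done) | simp only [mul_assoc, mul_inv_rev, inv_inv, mul_inv_cancel_left, inv_mul_cancel_left, mul_inv_cancel, inv_mul_cancel, mul_one, one_mul, inv_one, C]) (by first | (simp only [mul_assoc, mul_inv_rev, inv_inv, mul_inv_cancel_left, inv_mul_cancel_left, mul_inv_cancel, inv_mul_cancel, mul_one, one_mul, inv_one]; done) | simp only [mul_assoc, mul_inv_rev, inv_inv, mul_inv_cancel_left, inv_mul_cancel_left, mul_inv_cancel, inv_mul_cancel, mul_one, one_mul, inv_one, C]),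
    o.cv hδ (1) (by simp only [hδ, δinv hδ, δone hδ, D] <;> linear_combination (-1) * h3) (by first | (simp only [mul_assoc, mul_inv_rev, inv_inv, mul_inv_cancel_left, inv_mul_cancel_left, mul_inv_cancel, inv_mul_cancel, mul_one, one_mul, inv_one]; done) | simp only [mul_assoc, mul_inv_rev, inv_inv, mul_inv_cancel_left, inv_mul_cancel_left, mul_inv_cancel, inv_mul_cancel, mul_one, one_mul, inv_one, C]) (by first | (simp only [mul_assoc, mul_inv_rev, inv_inv, mul_inv_cancel_left, inv_mul_cancel_left, mul_inv_cancel, inv_mul_cancel, mul_one, one_mul, inv_one]; done) | simp only [mul_assoc, mul_inv_rev, inv_inv, mul_inv_cancel_left, inv_mul_cancel_left, mul_inv_cancel, inv_mul_cancel, mul_one, one_mul, inv_one, C]),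
    o.cv hδ (1) (by simp only [hδ, δinv hδ, δone hδ, D] <;> linear_combination (0) * h3) (by first | (simp only [mul_assoc, mul_inv_rev, inv_inv, mul_inv_cancel_left, inv_mul_cancel_left, mul_inv_cancel, inv_mul_cancel, mul_one, one_mul, inv_one]; done) | simp only [mul_assoc, mul_inv_rev, inv_inv, mul_inv_cancel_left, inv_mul_cancel_left, mul_inv_cancel, inv_mul_cancel, mul_one, one_mul, inv_one, C]) (by first | (simp only [mul_assoc, mul_inv_rev, inv_inv, mul_inv_cancel_left, inv_mul_cancel_left, mul_inv_cancel, inv_mul_cancel, mul_one, one_mul, inv_one]; done) | simp only [mul_assoc, mul_inv_rev, inv_inv, mul_inv_cancel_left, inv_mul_cancel_left, mul_inv_cancel, inv_mul_cancel, mul_one, one_mul, inv_one, C]),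
    o.cv hδ (P * Q⁻¹) (by simp only [hδ, δinv hδ, δone hδ, D] <;> linear_combination (0) * h3) (by first | (simp only [mul_assoc, mul_inv_rev, inv_inv, mul_inv_cancel_left, inv_mul_cancel_left, mul_inv_cancel, inv_mul_cancel, mul_one, one_mul, inv_one]; done) | simp only [mul_assoc, mul_inv_rev, inv_inv, mul_inv_cancel_left, inv_mul_cancel_left, mul_inv_cancel, inv_mul_cancel, mul_one, one_mul, inv_one, C]) (by first | (simp only [mul_assoc, mul_inv_rev, inv_inv, mul_inv_cancel_left, inv_mul_cancel_left, mul_inv_cancel, inv_mul_cancel, mul_one, one_mul, inv_one]; done) | simp only [mul_assoc, mul_inv_rev, inv_inv, mul_inv_cancel_left, inv_mul_cancel_left, mul_inv_cancel, inv_mul_cancel, mul_one, one_mul, inv_one, C]),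
    o.cv hδ (P * Q⁻¹) (by simp only [hδ, δinv hδ, δone hδ, D] <;> linear_combination (0) * h3) (by first | (simp only [mul_assoc, mul_inv_rev, inv_inv, mul_inv_cancel_left, inv_mul_cancel_left, mul_inv_cancel, inv_mul_cancel, mul_one, one_mul, inv_one]; done) | simp only [mul_assoc, mul_inv_rev, inv_inv, mul_inv_cancel_left, inv_mul_cancel_left, mul_inv_cancel, inv_mul_cancel, mul_one, one_mul, inv_one, C]) (by first | (simp only [mul_assoc, mul_inv_rev, inv_inv, mul_inv_cancel_left, inv_mul_cancel_left, mul_inv_cancel, inv_mul_cancel, mul_one, one_mul, inv_one]; done) | simp only [mul_assoc, mul_inv_rev, inv_inv, mul_inv_cancel_left, inv_mul_cancel_left, mul_inv_cancel, inv_mul_cancel, mul_one, one_mul, inv_one, C]),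
    o.cv hδ (1) (by simp only [hδ, δinv hδ, δone hδ, D] <;> linear_combination (0) * h3) (by first | (simp only [mul_assoc, mul_inv_rev, inv_inv, mul_inv_cancel_left, inv_mul_cancel_left, mul_inv_cancel, inv_mul_cancel, mul_one, one_mul, inv_one]; done) | simp only [mul_assoc, mul_inv_rev, inv_inv, mul_inv_cancel_left, inv_mul_cancel_left, mul_inv_cancel, inv_mul_cancel, mul_one, one_mul, inv_one, C]) (by first | (simp only [mul_assoc, mul_inv_rev, inv_inv, mul_inv_cancel_left, inv_mul_cancel_left, mul_inv_cancel, inv_mul_cancel, mul_one, one_mul, inv_one]; done) | simp only [mul_assoc, mul_inv_rev, inv_inv, mul_inv_cancel_left, inv_mul_cancel_left, mul_inv_cancel, inv_mul_cancel, mul_one, one_mul, inv_one, C]),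
    o.cv hδ (1) (by simp only [hδ, δinv hδ, δone hδ, D] <;> linear_combination (0) * h3) (by first | (simp only [mul_assoc, mul_inv_rev, inv_inv, mul_inv_cancel_left, inv_mul_cancel_left, mul_inv_cancel, inv_mul_cancel, mul_one, one_mul, inv_one]; done) | simp only [mul_assoc, mul_inv_rev, inv_inv, mul_inv_cancel_left, inv_mul_cancel_left, mul_inv_cancel, inv_mul_cancel, mul_one, one_mul, inv_one, C]) (by first | (simp only [mul_assoc, mul_inv_rev, inv_inv, mul_inv_cancel_left, inv_mul_cancel_left, mul_inv_cancel, inv_mul_cancel, mul_one, one_mul, inv_one]; done) | simp only [mul_assoc, mul_inv_rev, inv_inv, mul_inv_cancel_left, inv_mul_cancel_left, mul_inv_cancel, inv_mul_cancel, mul_one, one_mul, inv_one, C]),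
    o.cv hδ (1) (by simp only [hδ, δinv hδ, δone hδ, D] <;> linear_combination (0) * h3) (by first | (simp only [mul_assoc, mul_inv_rev, inv_inv, mul_inv_cancel_left, inv_mul_cancel_left, mul_inv_cancel, inv_mul_cancel, mul_one, one_mul, inv_one]; done) | simp only [mul_assoc, mul_inv_rev, inv_inv, mul_inv_cancel_left, inv_mul_cancel_left, mul_inv_cancel, inv_mul_cancel, mul_one, one_mul, inv_one, C]) (by first | (simp only [mul_assoc, mul_inv_rev, inv_inv, mul_inv_cancel_left, inv_mul_cancel_left, mul_inv_cancel, inv_mul_cancel, mul_one, one_mul, inv_one]; done) | simp only [mul_assoc, mul_inv_rev, inv_inv, mul_inv_cancel_left, inv_mul_cancel_left, mul_inv_cancel, inv_mul_cancel, mul_one, one_mul, inv_one, C])⟩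

theorem close_AAAAA_k12 {G : Type*} [Group G] {δ : G → ZMod 3} (hδ : ∀ u v, δ (u * v) = δ u + δ v) (o : Pre δ)
    {P Q f0 f1 f2 f3 f4 : G} {e : ZMod 3} (h3 : 3 * e = 0)
    (D : δ P = e ∧ δ Q = -e ∧ δ f0 = 0 ∧ δ f1 = 0 ∧ δ f2 = 0 ∧ δ f3 = 0 ∧ δ f4 = 0)
    (C : Cube P f0 ∧ Cube P f1 ∧ Cube Q f0 ∧ Cube Q f1 ∧ Cube P f2 ∧ Cube Q f2 ∧ Cube P f3 ∧ Cube Q f3 ∧ Cube P f4 ∧ Cube Q f4) :
    (o.lt (P * f3⁻¹) (f0 * Q⁻¹) ↔ o.lt (P * f3⁻¹) (f0 * Q⁻¹)) ∧
    (o.lt (P * f3⁻¹) (f3 * Q⁻¹) ↔ o.lt (P * f3⁻¹) (f3 * Q⁻¹)) ∧
    (o.lt (f3 * Q⁻¹) (f0 * Q⁻¹) ↔ o.lt (f3 * Q⁻¹) (f0 * Q⁻¹)) ∧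
    (o.lt (f3 * P⁻¹) (Q * f3⁻¹) ↔ o.lt (P * f3⁻¹) (Q * P⁻¹)) ∧
    (o.lt (P * f3⁻¹) (f1 * Q⁻¹) ↔ o.lt (P * f3⁻¹) (f1 * Q⁻¹)) ∧
    (o.lt (Q * P⁻¹) (f1 * Q⁻¹) ↔ o.lt (Q * P⁻¹) (f1 * Q⁻¹)) ∧
    (o.lt (P * f3⁻¹) (P * f2⁻¹) ↔ o.lt (P * f3⁻¹) (P * f2⁻¹)) ∧
    (o.lt (P * f3⁻¹) (P * f4⁻¹) ↔ o.lt (P * f3⁻¹) (P * f4⁻¹)) ∧
    (o.lt (P * f4⁻¹) (P * f2⁻¹) ↔ o.lt (P * f4⁻¹) (P * f2⁻¹)) ∧
    (o.lt (P * f3⁻¹) (f2 * Q⁻¹) ↔ o.lt (P * f3⁻¹) (f2 * Q⁻¹)) ∧
    (o.lt (f4 * Q⁻¹) (f2 * Q⁻¹) ↔ o.lt (f4 * Q⁻¹) (f2 * Q⁻¹)) ∧
    (o.lt (P * f4⁻¹) (P * f3⁻¹) ↔ o.lt (P * f4⁻¹) (P * f3⁻¹)) ∧
    (o.lt (f3 * Q⁻¹) (P * f0⁻¹) ↔ o.lt (f3 * Q⁻¹) (P * f0⁻¹)) ∧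
    (o.lt (f3 * Q⁻¹) (P * f4⁻¹) ↔ o.lt (f3 * Q⁻¹) (P * f4⁻¹)) ∧
    (o.lt (f3 * Q⁻¹) (f1 * Q⁻¹) ↔ o.lt (f3 * Q⁻¹) (f1 * Q⁻¹)) ∧
    (o.lt (f3 * (Q⁻¹ * (P * f3⁻¹))) (Q * f3⁻¹) ↔ o.lt (f3 * Q⁻¹) (Q * P⁻¹)) ∧
    (o.lt (f3 * Q⁻¹) (f4 * Q⁻¹) ↔ o.lt (f3 * Q⁻¹) (f4 * Q⁻¹)) ∧
    (o.lt (f4 * P⁻¹) (f3 * P⁻¹) ↔ o.lt (f4 * Q⁻¹) (f3 * Q⁻¹)) ∧
    (o.lt (Q * P⁻¹) (f4 * Q⁻¹) ↔ o.lt (Q * P⁻¹) (f4 * Q⁻¹)) ∧
    (o.lt (f4 * P⁻¹) (Q * f4⁻¹) ↔ o.lt (P * f4⁻¹) (Q * P⁻¹)) := by
  have C' := C
  obtain ⟨C0, C1, C2, C3, C4, C5, C6, C7, C8, C9⟩ := C'
  simp only [Cube] at C C0 C1 C2 C3 C4 C5 C6 C7 C8 C9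
  exact ⟨o.cv hδ (1) (by simp only [hδ, δinv hδ, δone hδ, D] <;> linear_combination (0) * h3) (by first | (simp only [mul_assoc, mul_inv_rev, inv_inv, mul_inv_cancel_left, inv_mul_cancel_left, mul_inv_cancel, inv_mul_cancel, mul_one, one_mul, inv_one]; done) | simp only [mul_assoc, mul_inv_rev, inv_inv, mul_inv_cancel_left, inv_mul_cancel_left, mul_inv_cancel, inv_mul_cancel, mul_one, one_mul, inv_one, C]) (by first | (simp only [mul_assoc, mul_inv_rev, inv_inv, mul_inv_cancel_left, inv_mul_cancel_left, mul_inv_cancel, inv_mul_cancel, mul_one, one_mul, inv_one]; done) | simp only [mul_assoc, mul_inv_rev, inv_inv, mul_inv_cancel_left, inv_mul_cancel_left, mul_inv_cancel, inv_mul_cancel, mul_one, one_mul, inv_one, C]),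
    o.cv hδ (1) (by simp only [hδ, δinv hδ, δone hδ, D] <;> linear_combination (0) * h3) (by first | (simp only [mul_assoc, mul_inv_rev, inv_inv, mul_inv_cancel_left, inv_mul_cancel_left, mul_inv_cancel, inv_mul_cancel, mul_one, one_mul, inv_one]; done) | simp only [mul_assoc, mul_inv_rev, inv_inv, mul_inv_cancel_left, inv_mul_cancel_left, mul_inv_cancel, inv_mul_cancel, mul_one, one_mul, inv_one, C]) (by first | (simp only [mul_assoc, mul_inv_rev, inv_inv, mul_inv_cancel_left, inv_mul_cancel_left, mul_inv_cancel, inv_mul_cancel, mul_one, one_mul, inv_one]; done) | simp only [mul_assoc, mul_inv_rev, inv_inv, mul_inv_cancel_left, inv_mul_cancel_left, mul_inv_cancel, inv_mul_cancel, mul_one, one_mul, inv_one, C]),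
    o.cv hδ (1) (by simp only [hδ, δinv hδ, δone hδ, D] <;> linear_combination (0) * h3) (by first | (simp only [mul_assoc, mul_inv_rev, inv_inv, mul_inv_cancel_left, inv_mul_cancel_left, mul_inv_cancel, inv_mul_cancel, mul_one, one_mul, inv_one]; done) | simp only [mul_assoc, mul_inv_rev, inv_inv, mul_inv_cancel_left, inv_mul_cancel_left, mul_inv_cancel, inv_mul_cancel, mul_one, one_mul, inv_one, C]) (by first | (simp only [mul_assoc, mul_inv_rev, inv_inv, mul_inv_cancel_left, inv_mul_cancel_left, mul_inv_cancel, inv_mul_cancel, mul_one, one_mul, inv_one]; done) | simp only [mul_assoc, mul_inv_rev, inv_inv, mul_inv_cancel_left, inv_mul_cancel_left, mul_inv_cancel, inv_mul_cancel, mul_one, one_mul, inv_one, C]),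
    o.cv hδ (P * (f3⁻¹ * (P * f3⁻¹))) (by simp only [hδ, δinv hδ, δone hδ, D] <;> linear_combination (0) * h3) (by first | (simp only [mul_assoc, mul_inv_rev, inv_inv, mul_inv_cancel_left, inv_mul_cancel_left, mul_inv_cancel, inv_mul_cancel, mul_one, one_mul, inv_one]; done) | simp only [mul_assoc, mul_inv_rev, inv_inv, mul_inv_cancel_left, inv_mul_cancel_left, mul_inv_cancel, inv_mul_cancel, mul_one, one_mul, inv_one, C]) (by first | (simp only [mul_assoc, mul_inv_rev, inv_inv, mul_inv_cancel_left, inv_mul_cancel_left, mul_inv_cancel, inv_mul_cancel, mul_one, one_mul, inv_one, C6]; done) | simp only [mul_assoc, mul_inv_rev, inv_inv, mul_inv_cancel_left, inv_mul_cancel_left, mul_inv_cancel, inv_mul_cancel, mul_one, one_mul, inv_one, C]),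
    o.cv hδ (1) (by simp only [hδ, δinv hδ, δone hδ, D] <;> linear_combination (0) * h3) (by first | (simp only [mul_assoc, mul_inv_rev, inv_inv, mul_inv_cancel_left, inv_mul_cancel_left, mul_inv_cancel, inv_mul_cancel, mul_one, one_mul, inv_one]; done) | simp only [mul_assoc, mul_inv_rev, inv_inv, mul_inv_cancel_left, inv_mul_cancel_left, mul_inv_cancel, inv_mul_cancel, mul_one, one_mul, inv_one, C]) (by first | (simp only [mul_assoc, mul_inv_rev, inv_inv, mul_inv_cancel_left, inv_mul_cancel_left, mul_inv_cancel, inv_mul_cancel, mul_one, one_mul, inv_one]; done) | simp only [mul_assoc, mul_inv_rev, inv_inv, mul_inv_cancel_left, inv_mul_cancel_left, mul_inv_cancel, inv_mul_cancel, mul_one, one_mul, inv_one, C]),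
    o.cv hδ (1) (by simp only [hδ, δinv hδ, δone hδ, D] <;> linear_combination (-1) * h3) (by first | (simp only [mul_assoc, mul_inv_rev, inv_inv, mul_inv_cancel_left, inv_mul_cancel_left, mul_inv_cancel, inv_mul_cancel, mul_one, one_mul, inv_one]; done) | simp only [mul_assoc, mul_inv_rev, inv_inv, mul_inv_cancel_left, inv_mul_cancel_left, mul_inv_cancel, inv_mul_cancel, mul_one, one_mul, inv_one, C]) (by first | (simp only [mul_assoc, mul_inv_rev, inv_inv, mul_inv_cancel_left, inv_mul_cancel_left, mul_inv_cancel, inv_mul_cancel, mul_one, one_mul, inv_one]; done) | simp only [mul_assoc, mul_inv_rev, inv_inv, mul_inv_cancel_left, inv_mul_cancel_left, mul_inv_cancel, inv_mul_cancel, mul_one, one_mul, inv_one, C]),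
    o.cv hδ (1) (by simp only [hδ, δinv hδ, δone hδ, D] <;> linear_combination (0) * h3) (by first | (simp only [mul_assoc, mul_inv_rev, inv_inv, mul_inv_cancel_left, inv_mul_cancel_left, mul_inv_cancel, inv_mul_cancel, mul_one, one_mul, inv_one]; done) | simp only [mul_assoc, mul_inv_rev, inv_inv, mul_inv_cancel_left, inv_mul_cancel_left, mul_inv_cancel, inv_mul_cancel, mul_one, one_mul, inv_one, C]) (by first | (simp only [mul_assoc, mul_inv_rev, inv_inv, mul_inv_cancel_left, inv_mul_cancel_left, mul_inv_cancel, inv_mul_cancel, mul_one, one_mul, inv_one]; done) | simp only [mul_assoc, mul_inv_rev, inv_inv, mul_inv_cancel_left, inv_mul_cancel_left, mul_inv_cancel, inv_mul_cancel, mul_one, one_mul, inv_one, C]),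
    o.cv hδ (1) (by simp only [hδ, δinv hδ, δone hδ, D] <;> linear_combination (0) * h3) (by first | (simp only [mul_assoc, mul_inv_rev, inv_inv, mul_inv_cancel_left, inv_mul_cancel_left, mul_inv_cancel, inv_mul_cancel, mul_one, one_mul, inv_one]; done) | simp only [mul_assoc, mul_inv_rev, inv_inv, mul_inv_cancel_left, inv_mul_cancel_left, mul_inv_cancel, inv_mul_cancel, mul_one, one_mul, inv_one, C]) (by first | (simp only [mul_assoc, mul_inv_rev, inv_inv, mul_inv_cancel_left, inv_mul_cancel_left, mul_inv_cancel, inv_mul_cancel, mul_one, one_mul, inv_one]; done) | simp only [mul_assoc, mul_inv_rev, inv_inv, mul_inv_cancel_left, inv_mul_cancel_left, mul_inv_cancel, inv_mul_cancel, mul_one, one_mul, inv_one, C]),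
    o.cv hδ (1) (by simp only [hδ, δinv hδ, δone hδ, D] <;> linear_combination (0) * h3) (by first | (simp only [mul_assoc, mul_inv_rev, inv_inv, mul_inv_cancel_left, inv_mul_cancel_left, mul_inv_cancel, inv_mul_cancel, mul_one, one_mul, inv_one]; done) | simp only [mul_assoc, mul_inv_rev, inv_inv, mul_inv_cancel_left, inv_mul_cancel_left, mul_inv_cancel, inv_mul_cancel, mul_one, one_mul, inv_one, C]) (by first | (simp only [mul_assoc, mul_inv_rev, inv_inv, mul_inv_cancel_left, inv_mul_cancel_left, mul_inv_cancel, inv_mul_cancel, mul_one, one_mul, inv_one]; done) | simp only [mul_assoc, mul_inv_rev, inv_inv, mul_inv_cancel_left, inv_mul_cancel_left, mul_inv_cancel, inv_mul_cancel, mul_one, one_mul, inv_one, C]),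
    o.cv hδ (1) (by simp only [hδ, δinv hδ, δone hδ, D] <;> linear_combination (0) * h3) (by first | (simp only [mul_assoc, mul_inv_rev, inv_inv, mul_inv_cancel_left, inv_mul_cancel_left, mul_inv_cancel, inv_mul_cancel, mul_one, one_mul, inv_one]; done) | simp only [mul_assoc, mul_inv_rev, inv_inv, mul_inv_cancel_left, inv_mul_cancel_left, mul_inv_cancel, inv_mul_cancel, mul_one, one_mul, inv_one, C]) (by first | (simp only [mul_assoc, mul_inv_rev, inv_inv, mul_inv_cancel_left, inv_mul_cancel_left, mul_inv_cancel, inv_mul_cancel, mul_one, one_mul, inv_one]; done) | simp only [mul_assoc, mul_inv_rev, inv_inv, mul_inv_cancel_left, inv_mul_cancel_left, mul_inv_cancel, inv_mul_cancel, mul_one, one_mul, inv_one, C]),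
    o.cv hδ (1) (by simp only [hδ, δinv hδ, δone hδ, D] <;> linear_combination (0) * h3) (by first | (simp only [mul_assoc, mul_inv_rev, inv_inv, mul_inv_cancel_left, inv_mul_cancel_left, mul_inv_cancel, inv_mul_cancel, mul_one, one_mul, inv_one]; done) | simp only [mul_assoc, mul_inv_rev, inv_inv, mul_inv_cancel_left, inv_mul_cancel_left, mul_inv_cancel, inv_mul_cancel, mul_one, one_mul, inv_one, C]) (by first | (simp only [mul_assoc, mul_inv_rev, inv_inv, mul_inv_cancel_left, inv_mul_cancel_left, mul_inv_cancel, inv_mul_cancel, mul_one, one_mul, inv_one]; done) | simp only [mul_assoc, mul_inv_rev, inv_inv, mul_inv_cancel_left, inv_mul_cancel_left, mul_inv_cancel, inv_mul_cancel, mul_one, one_mul, inv_one, C]),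
    o.cv hδ (1) (by simp only [hδ, δinv hδ, δone hδ, D] <;> linear_combination (0) * h3) (by first | (simp only [mul_assoc, mul_inv_rev, inv_inv, mul_inv_cancel_left, inv_mul_cancel_left, mul_inv_cancel, inv_mul_cancel, mul_one, one_mul, inv_one]; done) | simp only [mul_assoc, mul_inv_rev, inv_inv, mul_inv_cancel_left, inv_mul_cancel_left, mul_inv_cancel, inv_mul_cancel, mul_one, one_mul, inv_one, C]) (by first | (simp only [mul_assoc, mul_inv_rev, inv_inv, mul_inv_cancel_left, inv_mul_cancel_left, mul_inv_cancel, inv_mul_cancel, mul_one, one_mul, inv_one]; done) | simp only [mul_assoc, mul_inv_rev, inv_inv, mul_inv_cancel_left, inv_mul_cancel_left, mul_inv_cancel, inv_mul_cancel, mul_one, one_mul, inv_one, C]),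
    o.cv hδ (1) (by simp only [hδ, δinv hδ, δone hδ, D] <;> linear_combination (0) * h3) (by first | (simp only [mul_assoc, mul_inv_rev, inv_inv, mul_inv_cancel_left, inv_mul_cancel_left, mul_inv_cancel, inv_mul_cancel, mul_one, one_mul, inv_one]; done) | simp only [mul_assoc, mul_inv_rev, inv_inv, mul_inv_cancel_left, inv_mul_cancel_left, mul_inv_cancel, inv_mul_cancel, mul_one, one_mul, inv_one, C]) (by first | (simp only [mul_assoc, mul_inv_rev, inv_inv, mul_inv_cancel_left, inv_mul_cancel_left, mul_inv_cancel, inv_mul_cancel, mul_one, one_mul, inv_one]; done) | simp only [mul_assoc, mul_inv_rev, inv_inv, mul_inv_cancel_left, inv_mul_cancel_left, mul_inv_cancel, inv_mul_cancel, mul_one, one_mul, inv_one, C]),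
    o.cv hδ (1) (by simp only [hδ, δinv hδ, δone hδ, D] <;> linear_combination (0) * h3) (by first | (simp only [mul_assoc, mul_inv_rev, inv_inv, mul_inv_cancel_left, inv_mul_cancel_left, mul_inv_cancel, inv_mul_cancel, mul_one, one_mul, inv_one]; done) | simp only [mul_assoc, mul_inv_rev, inv_inv, mul_inv_cancel_left, inv_mul_cancel_left, mul_inv_cancel, inv_mul_cancel, mul_one, one_mul, inv_one, C]) (by first | (simp only [mul_assoc, mul_inv_rev, inv_inv, mul_inv_cancel_left, inv_mul_cancel_left, mul_inv_cancel, inv_mul_cancel, mul_one, one_mul, inv_one]; done) | simp only [mul_assoc, mul_inv_rev, inv_inv, mul_inv_cancel_left, inv_mul_cancel_left, mul_inv_cancel, inv_mul_cancel, mul_one, one_mul, inv_one, C]),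
    o.cv hδ (1) (by simp only [hδ, δinv hδ, δone hδ, D] <;> linear_combination (0) * h3) (by first | (simp only [mul_assoc, mul_inv_rev, inv_inv, mul_inv_cancel_left, inv_mul_cancel_left, mul_inv_cancel, inv_mul_cancel, mul_one, one_mul, inv_one]; done) | simp only [mul_assoc, mul_inv_rev, inv_inv, mul_inv_cancel_left, inv_mul_cancel_left, mul_inv_cancel, inv_mul_cancel, mul_one, one_mul, inv_one, C]) (by first | (simp only [mul_assoc, mul_inv_rev, inv_inv, mul_inv_cancel_left, inv_mul_cancel_left, mul_inv_cancel, inv_mul_cancel, mul_one, one_mul, inv_one]; done) | simp only [mul_assoc, mul_inv_rev, inv_inv, mul_inv_cancel_left, inv_mul_cancel_left, mul_inv_cancel, inv_mul_cancel, mul_one, one_mul, inv_one, C]),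
    o.cv hδ (f3 * P⁻¹) (by simp only [hδ, δinv hδ, δone hδ, D] <;> linear_combination (1) * h3) (by first | (simp only [mul_assoc, mul_inv_rev, inv_inv, mul_inv_cancel_left, inv_mul_cancel_left, mul_inv_cancel, inv_mul_cancel, mul_one, one_mul, inv_one]; done) | simp only [mul_assoc, mul_inv_rev, inv_inv, mul_inv_cancel_left, inv_mul_cancel_left, mul_inv_cancel, inv_mul_cancel, mul_one, one_mul, inv_one, C]) (by first | (simp only [mul_assoc, mul_inv_rev, inv_inv, mul_inv_cancel_left, inv_mul_cancel_left, mul_inv_cancel, inv_mul_cancel, mul_one, one_mul, inv_one]; done) | simp only [mul_assoc, mul_inv_rev, inv_inv, mul_inv_cancel_left, inv_mul_cancel_left, mul_inv_cancel, inv_mul_cancel, mul_one, one_mul, inv_one, C]),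
    o.cv hδ (1) (by simp only [hδ, δinv hδ, δone hδ, D] <;> linear_combination (0) * h3) (by first | (simp only [mul_assoc, mul_inv_rev, inv_inv, mul_inv_cancel_left, inv_mul_cancel_left, mul_inv_cancel, inv_mul_cancel, mul_one, one_mul, inv_one]; done) | simp only [mul_assoc, mul_inv_rev, inv_inv, mul_inv_cancel_left, inv_mul_cancel_left, mul_inv_cancel, inv_mul_cancel, mul_one, one_mul, inv_one, C]) (by first | (simp only [mul_assoc, mul_inv_rev, inv_inv, mul_inv_cancel_left, inv_mul_cancel_left, mul_inv_cancel, inv_mul_cancel, mul_one, one_mul, inv_one]; done) | simp only [mul_assoc, mul_inv_rev, inv_inv, mul_inv_cancel_left, inv_mul_cancel_left, mul_inv_cancel, inv_mul_cancel, mul_one, one_mul, inv_one, C]),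
    o.cv hδ (P * Q⁻¹) (by simp only [hδ, δinv hδ, δone hδ, D] <;> linear_combination (0) * h3) (by first | (simp only [mul_assoc, mul_inv_rev, inv_inv, mul_inv_cancel_left, inv_mul_cancel_left, mul_inv_cancel, inv_mul_cancel, mul_one, one_mul, inv_one]; done) | simp only [mul_assoc, mul_inv_rev, inv_inv, mul_inv_cancel_left, inv_mul_cancel_left, mul_inv_cancel, inv_mul_cancel, mul_one, one_mul, inv_one, C]) (by first | (simp only [mul_assoc, mul_inv_rev, inv_inv, mul_inv_cancel_left, inv_mul_cancel_left, mul_inv_cancel, inv_mul_cancel, mul_one, one_mul, inv_one]; done) | simp only [mul_assoc, mul_inv_rev, inv_inv, mul_inv_cancel_left, inv_mul_cancel_left, mul_inv_cancel, inv_mul_cancel, mul_one, one_mul, inv_one, C]),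
    o.cv hδ (1) (by simp only [hδ, δinv hδ, δone hδ, D] <;> linear_combination (-1) * h3) (by first | (simp only [mul_assoc, mul_inv_rev, inv_inv, mul_inv_cancel_left, inv_mul_cancel_left, mul_inv_cancel, inv_mul_cancel, mul_one, one_mul, inv_one]; done) | simp only [mul_assoc, mul_inv_rev, inv_inv, mul_inv_cancel_left, inv_mul_cancel_left, mul_inv_cancel, inv_mul_cancel, mul_one, one_mul, inv_one, C]) (by first | (simp only [mul_assoc, mul_inv_rev, inv_inv, mul_inv_cancel_left, inv_mul_cancel_left, mul_inv_cancel, inv_mul_cancel, mul_one, one_mul, inv_one]; done) | simp only [mul_assoc, mul_inv_rev, inv_inv, mul_inv_cancel_left, inv_mul_cancel_left, mul_inv_cancel, inv_mul_cancel, mul_one, one_mul, inv_one, C]),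
    o.cv hδ (P * (f4⁻¹ * (P * f4⁻¹))) (by simp only [hδ, δinv hδ, δone hδ, D] <;> linear_combination (0) * h3) (by first | (simp only [mul_assoc, mul_inv_rev, inv_inv, mul_inv_cancel_left, inv_mul_cancel_left, mul_inv_cancel, inv_mul_cancel, mul_one, one_mul, inv_one]; done) | simp only [mul_assoc, mul_inv_rev, inv_inv, mul_inv_cancel_left, inv_mul_cancel_left, mul_inv_cancel, inv_mul_cancel, mul_one, one_mul, inv_one, C]) (by first | (simp only [mul_assoc, mul_inv_rev, inv_inv, mul_inv_cancel_left, inv_mul_cancel_left, mul_inv_cancel, inv_mul_cancel, mul_one, one_mul, inv_one, C8]; done) | simp only [mul_assoc, mul_inv_rev, inv_inv, mul_inv_cancel_left, inv_mul_cancel_left, mul_inv_cancel, inv_mul_cancel, mul_one, one_mul, inv_one, C])⟩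

theorem close_AAAAA_k13 {G : Type*} [Group G] {δ : G → ZMod 3} (hδ : ∀ u v, δ (u * v) = δ u + δ v) (o : Pre δ)
    {P Q f0 f1 f2 f3 f4 : G} {e : ZMod 3} (h3 : 3 * e = 0)
    (D : δ P = e ∧ δ Q = -e ∧ δ f0 = 0 ∧ δ f1 = 0 ∧ δ f2 = 0 ∧ δ f3 = 0 ∧ δ f4 = 0)
    (C : Cube P f0 ∧ Cube P f1 ∧ Cube Q f0 ∧ Cube Q f1 ∧ Cube P f2 ∧ Cube Q f2 ∧ Cube P f3 ∧ Cube Q f3 ∧ Cube P f4 ∧ Cube Q f4) :
    (o.lt (P * f4⁻¹) (f3 * Q⁻¹) ↔ o.lt (P * f4⁻¹) (f3 * Q⁻¹)) ∧
    (o.lt (P * f4⁻¹) (f2 * Q⁻¹) ↔ o.lt (P * f4⁻¹) (f2 * Q⁻¹)) ∧
    (o.lt (P * f4⁻¹) (f4 * Q⁻¹) ↔ o.lt (P * f4⁻¹) (f4 * Q⁻¹)) ∧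
    (o.lt (f0 * Q⁻¹) (f3 * Q⁻¹) ↔ o.lt (f0 * Q⁻¹) (f3 * Q⁻¹)) ∧
    (o.lt (f4 * Q⁻¹) (P * f4⁻¹) ↔ o.lt (f4 * Q⁻¹) (P * f4⁻¹)) ∧
    (o.lt (Q * f2⁻¹) (f2 * (Q⁻¹ * (P * f2⁻¹))) ↔ o.lt (Q * P⁻¹) (f2 * Q⁻¹)) ∧
    (o.lt (Q * f3⁻¹) (f3 * (Q⁻¹ * (P * f3⁻¹))) ↔ o.lt (Q * P⁻¹) (f3 * Q⁻¹)) ∧
    (o.lt (f0 * Q⁻¹) (f1 * Q⁻¹) ↔ o.lt (f0 * P⁻¹) (f1 * P⁻¹)) ∧
    (o.lt (f0 * P⁻¹) (Q * f1⁻¹) ↔ o.lt (f0 * P⁻¹) (Q * f1⁻¹)) ∧
    (o.lt (Q * f1⁻¹) (f1 * P⁻¹) ↔ o.lt (Q * f1⁻¹) (f1 * P⁻¹)) ∧
    (o.lt (f0 * Q⁻¹) (f3 * Q⁻¹) ↔ o.lt (f0 * P⁻¹) (f3 * P⁻¹)) ∧
    (o.lt (f0 * P⁻¹) (Q * f4⁻¹) ↔ o.lt (f0 * P⁻¹) (Q * f4⁻¹)) ∧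
    (o.lt (Q * f4⁻¹) (f3 * P⁻¹) ↔ o.lt (Q * f4⁻¹) (f3 * P⁻¹)) ∧
    (o.lt (f0 * P⁻¹) (f4 * P⁻¹) ↔ o.lt (f0 * P⁻¹) (f4 * P⁻¹)) ∧
    (o.lt (f0 * P⁻¹) (Q * f0⁻¹) ↔ o.lt (f0 * P⁻¹) (Q * f0⁻¹)) ∧
    (o.lt (Q * f0⁻¹) (f4 * P⁻¹) ↔ o.lt (Q * f0⁻¹) (f4 * P⁻¹)) ∧
    (o.lt (f0 * P⁻¹) (P * Q⁻¹) ↔ o.lt (f0 * P⁻¹) (P * Q⁻¹)) ∧
    (o.lt (P * f4⁻¹) (f4 * Q⁻¹) ↔ o.lt (P * Q⁻¹) (Q * f4⁻¹)) ∧
    (o.lt (P * Q⁻¹) (f0 * P⁻¹) ↔ o.lt (P * Q⁻¹) (f0 * P⁻¹)) ∧
    (o.lt (f1 * P⁻¹) (f2 * P⁻¹) ↔ o.lt (f1 * P⁻¹) (f2 * P⁻¹)) := by
  have C' := C
  obtain ⟨C0, C1, C2, C3, C4, C5, C6, C7, C8, C9⟩ := C'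
  simp only [Cube] at C C0 C1 C2 C3 C4 C5 C6 C7 C8 C9
  exact ⟨o.cv hδ (1) (by simp only [hδ, δinv hδ, δone hδ, D] <;> linear_combination (0) * h3) (by first | (simp only [mul_assoc, mul_inv_rev, inv_inv, mul_inv_cancel_left, inv_mul_cancel_left, mul_inv_cancel, inv_mul_cancel, mul_one, one_mul, inv_one]; done) | simp only [mul_assoc, mul_inv_rev, inv_inv, mul_inv_cancel_left, inv_mul_cancel_left, mul_inv_cancel, inv_mul_cancel, mul_one, one_mul, inv_one, C]) (by first | (simp only [mul_assoc, mul_inv_rev, inv_inv, mul_inv_cancel_left, inv_mul_cancel_left, mul_inv_cancel, inv_mul_cancel, mul_one, one_mul, inv_one]; done) | simp only [mul_assoc, mul_inv_rev, inv_inv, mul_inv_cancel_left, inv_mul_cancel_left, mul_inv_cancel, inv_mul_cancel, mul_one, one_mul, inv_one, C]),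
    o.cv hδ (1) (by simp only [hδ, δinv hδ, δone hδ, D] <;> linear_combination (0) * h3) (by first | (simp only [mul_assoc, mul_inv_rev, inv_inv, mul_inv_cancel_left, inv_mul_cancel_left, mul_inv_cancel, inv_mul_cancel, mul_one, one_mul, inv_one]; done) | simp only [mul_assoc, mul_inv_rev, inv_inv, mul_inv_cancel_left, inv_mul_cancel_left, mul_inv_cancel, inv_mul_cancel, mul_one, one_mul, inv_one, C]) (by first | (simp only [mul_assoc, mul_inv_rev, inv_inv, mul_inv_cancel_left, inv_mul_cancel_left, mul_inv_cancel, inv_mul_cancel, mul_one, one_mul, inv_one]; done) | simp only [mul_assoc, mul_inv_rev, inv_inv, mul_inv_cancel_left, inv_mul_cancel_left, mul_inv_cancel, inv_mul_cancel, mul_one, one_mul, inv_one, C]),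
    o.cv hδ (1) (by simp only [hδ, δinv hδ, δone hδ, D] <;> linear_combination (0) * h3) (by first | (simp only [mul_assoc, mul_inv_rev, inv_inv, mul_inv_cancel_left, inv_mul_cancel_left, mul_inv_cancel, inv_mul_cancel, mul_one, one_mul, inv_one]; done) | simp only [mul_assoc, mul_inv_rev, inv_inv, mul_inv_cancel_left, inv_mul_cancel_left, mul_inv_cancel, inv_mul_cancel, mul_one, one_mul, inv_one, C]) (by first | (simp only [mul_assoc, mul_inv_rev, inv_inv, mul_inv_cancel_left, inv_mul_cancel_left, mul_inv_cancel, inv_mul_cancel, mul_one, one_mul, inv_one]; done) | simp only [mul_assoc, mul_inv_rev, inv_inv, mul_inv_cancel_left, inv_mul_cancel_left, mul_inv_cancel, inv_mul_cancel, mul_one, one_mul, inv_one, C]),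
    o.cv hδ (1) (by simp only [hδ, δinv hδ, δone hδ, D] <;> linear_combination (0) * h3) (by first | (simp only [mul_assoc, mul_inv_rev, inv_inv, mul_inv_cancel_left, inv_mul_cancel_left, mul_inv_cancel, inv_mul_cancel, mul_one, one_mul, inv_one]; done) | simp only [mul_assoc, mul_inv_rev, inv_inv, mul_inv_cancel_left, inv_mul_cancel_left, mul_inv_cancel, inv_mul_cancel, mul_one, one_mul, inv_one, C]) (by first | (simp only [mul_assoc, mul_inv_rev, inv_inv, mul_inv_cancel_left, inv_mul_cancel_left, mul_inv_cancel, inv_mul_cancel, mul_one, one_mul, inv_one]; done) | simp only [mul_assoc, mul_inv_rev, inv_inv, mul_inv_cancel_left, inv_mul_cancel_left, mul_inv_cancel, inv_mul_cancel, mul_one, one_mul, inv_one, C]),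
    o.cv hδ (1) (by simp only [hδ, δinv hδ, δone hδ, D] <;> linear_combination (0) * h3) (by first | (simp only [mul_assoc, mul_inv_rev, inv_inv, mul_inv_cancel_left, inv_mul_cancel_left, mul_inv_cancel, inv_mul_cancel, mul_one, one_mul, inv_one]; done) | simp only [mul_assoc, mul_inv_rev, inv_inv, mul_inv_cancel_left, inv_mul_cancel_left, mul_inv_cancel, inv_mul_cancel, mul_one, one_mul, inv_one, C]) (by first | (simp only [mul_assoc, mul_inv_rev, inv_inv, mul_inv_cancel_left, inv_mul_cancel_left, mul_inv_cancel, inv_mul_cancel, mul_one, one_mul, inv_one]; done) | simp only [mul_assoc, mul_inv_rev, inv_inv, mul_inv_cancel_left, inv_mul_cancel_left, mul_inv_cancel, inv_mul_cancel, mul_one, one_mul, inv_one, C]),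
    o.cv hδ (f2 * P⁻¹) (by simp only [hδ, δinv hδ, δone hδ, D] <;> linear_combination (-1) * h3) (by first | (simp only [mul_assoc, mul_inv_rev, inv_inv, mul_inv_cancel_left, inv_mul_cancel_left, mul_inv_cancel, inv_mul_cancel, mul_one, one_mul, inv_one]; done) | simp only [mul_assoc, mul_inv_rev, inv_inv, mul_inv_cancel_left, inv_mul_cancel_left, mul_inv_cancel, inv_mul_cancel, mul_one, one_mul, inv_one, C]) (by first | (simp only [mul_assoc, mul_inv_rev, inv_inv, mul_inv_cancel_left, inv_mul_cancel_left, mul_inv_cancel, inv_mul_cancel, mul_one, one_mul, inv_one]; done) | simp only [mul_assoc, mul_inv_rev, inv_inv, mul_inv_cancel_left, inv_mul_cancel_left, mul_inv_cancel, inv_mul_cancel, mul_one, one_mul, inv_one, C]),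
    o.cv hδ (f3 * P⁻¹) (by simp only [hδ, δinv hδ, δone hδ, D] <;> linear_combination (-1) * h3) (by first | (simp only [mul_assoc, mul_inv_rev, inv_inv, mul_inv_cancel_left, inv_mul_cancel_left, mul_inv_cancel, inv_mul_cancel, mul_one, one_mul, inv_one]; done) | simp only [mul_assoc, mul_inv_rev, inv_inv, mul_inv_cancel_left, inv_mul_cancel_left, mul_inv_cancel, inv_mul_cancel, mul_one, one_mul, inv_one, C]) (by first | (simp only [mul_assoc, mul_inv_rev, inv_inv, mul_inv_cancel_left, inv_mul_cancel_left, mul_inv_cancel, inv_mul_cancel, mul_one, one_mul, inv_one]; done) | simp only [mul_assoc, mul_inv_rev, inv_inv, mul_inv_cancel_left, inv_mul_cancel_left, mul_inv_cancel, inv_mul_cancel, mul_one, one_mul, inv_one, C]),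
    o.cv hδ (Q * P⁻¹) (by simp only [hδ, δinv hδ, δone hδ, D] <;> linear_combination (0) * h3) (by first | (simp only [mul_assoc, mul_inv_rev, inv_inv, mul_inv_cancel_left, inv_mul_cancel_left, mul_inv_cancel, inv_mul_cancel, mul_one, one_mul, inv_one]; done) | simp only [mul_assoc, mul_inv_rev, inv_inv, mul_inv_cancel_left, inv_mul_cancel_left, mul_inv_cancel, inv_mul_cancel, mul_one, one_mul, inv_one, C]) (by first | (simp only [mul_assoc, mul_inv_rev, inv_inv, mul_inv_cancel_left, inv_mul_cancel_left, mul_inv_cancel, inv_mul_cancel, mul_one, one_mul, inv_one]; done) | simp only [mul_assoc, mul_inv_rev, inv_inv, mul_inv_cancel_left, inv_mul_cancel_left, mul_inv_cancel, inv_mul_cancel, mul_one, one_mul, inv_one, C]),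
    o.cv hδ (1) (by simp only [hδ, δinv hδ, δone hδ, D] <;> linear_combination (0) * h3) (by first | (simp only [mul_assoc, mul_inv_rev, inv_inv, mul_inv_cancel_left, inv_mul_cancel_left, mul_inv_cancel, inv_mul_cancel, mul_one, one_mul, inv_one]; done) | simp only [mul_assoc, mul_inv_rev, inv_inv, mul_inv_cancel_left, inv_mul_cancel_left, mul_inv_cancel, inv_mul_cancel, mul_one, one_mul, inv_one, C]) (by first | (simp only [mul_assoc, mul_inv_rev, inv_inv, mul_inv_cancel_left, inv_mul_cancel_left, mul_inv_cancel, inv_mul_cancel, mul_one, one_mul, inv_one]; done) | simp only [mul_assoc, mul_inv_rev, inv_inv, mul_inv_cancel_left, inv_mul_cancel_left, mul_inv_cancel, inv_mul_cancel, mul_one, one_mul, inv_one, C]),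
    o.cv hδ (1) (by simp only [hδ, δinv hδ, δone hδ, D] <;> linear_combination (0) * h3) (by first | (simp only [mul_assoc, mul_inv_rev, inv_inv, mul_inv_cancel_left, inv_mul_cancel_left, mul_inv_cancel, inv_mul_cancel, mul_one, one_mul, inv_one]; done) | simp only [mul_assoc, mul_inv_rev, inv_inv, mul_inv_cancel_left, inv_mul_cancel_left, mul_inv_cancel, inv_mul_cancel, mul_one, one_mul, inv_one, C]) (by first | (simp only [mul_assoc, mul_inv_rev, inv_inv, mul_inv_cancel_left, inv_mul_cancel_left, mul_inv_cancel, inv_mul_cancel, mul_one, one_mul, inv_one]; done) | simp only [mul_assoc, mul_inv_rev, inv_inv, mul_inv_cancel_left, inv_mul_cancel_left, mul_inv_cancel, inv_mul_cancel, mul_one, one_mul, inv_one, C]),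
    o.cv hδ (Q * P⁻¹) (by simp only [hδ, δinv hδ, δone hδ, D] <;> linear_combination (0) * h3) (by first | (simp only [mul_assoc, mul_inv_rev, inv_inv, mul_inv_cancel_left, inv_mul_cancel_left, mul_inv_cancel, inv_mul_cancel, mul_one, one_mul, inv_one]; done) | simp only [mul_assoc, mul_inv_rev, inv_inv, mul_inv_cancel_left, inv_mul_cancel_left, mul_inv_cancel, inv_mul_cancel, mul_one, one_mul, inv_one, C]) (by first | (simp only [mul_assoc, mul_inv_rev, inv_inv, mul_inv_cancel_left, inv_mul_cancel_left, mul_inv_cancel, inv_mul_cancel, mul_one, one_mul, inv_one]; done) | simp only [mul_assoc, mul_inv_rev, inv_inv, mul_inv_cancel_left, inv_mul_cancel_left, mul_inv_cancel, inv_mul_cancel, mul_one, one_mul, inv_one, C]),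
    o.cv hδ (1) (by simp only [hδ, δinv hδ, δone hδ, D] <;> linear_combination (0) * h3) (by first | (simp only [mul_assoc, mul_inv_rev, inv_inv, mul_inv_cancel_left, inv_mul_cancel_left, mul_inv_cancel, inv_mul_cancel, mul_one, one_mul, inv_one]; done) | simp only [mul_assoc, mul_inv_rev, inv_inv, mul_inv_cancel_left, inv_mul_cancel_left, mul_inv_cancel, inv_mul_cancel, mul_one, one_mul, inv_one, C]) (by first | (simp only [mul_assoc, mul_inv_rev, inv_inv, mul_inv_cancel_left, inv_mul_cancel_left, mul_inv_cancel, inv_mul_cancel, mul_one, one_mul, inv_one]; done) | simp only [mul_assoc, mul_inv_rev, inv_inv, mul_inv_cancel_left, inv_mul_cancel_left, mul_inv_cancel, inv_mul_cancel, mul_one, one_mul, inv_one, C]),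
    o.cv hδ (1) (by simp only [hδ, δinv hδ, δone hδ, D] <;> linear_combination (0) * h3) (by first | (simp only [mul_assoc, mul_inv_rev, inv_inv, mul_inv_cancel_left, inv_mul_cancel_left, mul_inv_cancel, inv_mul_cancel, mul_one, one_mul, inv_one]; done) | simp only [mul_assoc, mul_inv_rev, inv_inv, mul_inv_cancel_left, inv_mul_cancel_left, mul_inv_cancel, inv_mul_cancel, mul_one, one_mul, inv_one, C]) (by first | (simp only [mul_assoc, mul_inv_rev, inv_inv, mul_inv_cancel_left, inv_mul_cancel_left, mul_inv_cancel, inv_mul_cancel, mul_one, one_mul, inv_one]; done) | simp only [mul_assoc, mul_inv_rev, inv_inv, mul_inv_cancel_left, inv_mul_cancel_left, mul_inv_cancel, inv_mul_cancel, mul_one, one_mul, inv_one, C]),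
    o.cv hδ (1) (by simp only [hδ, δinv hδ, δone hδ, D] <;> linear_combination (0) * h3) (by first | (simp only [mul_assoc, mul_inv_rev, inv_inv, mul_inv_cancel_left, inv_mul_cancel_left, mul_inv_cancel, inv_mul_cancel, mul_one, one_mul, inv_one]; done) | simp only [mul_assoc, mul_inv_rev, inv_inv, mul_inv_cancel_left, inv_mul_cancel_left, mul_inv_cancel, inv_mul_cancel, mul_one, one_mul, inv_one, C]) (by first | (simp only [mul_assoc, mul_inv_rev, inv_inv, mul_inv_cancel_left, inv_mul_cancel_left, mul_inv_cancel, inv_mul_cancel, mul_one, one_mul, inv_one]; done) | simp only [mul_assoc, mul_inv_rev, inv_inv, mul_inv_cancel_left, inv_mul_cancel_left, mul_inv_cancel, inv_mul_cancel, mul_one, one_mul, inv_one, C]),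
    o.cv hδ (1) (by simp only [hδ, δinv hδ, δone hδ, D] <;> linear_combination (0) * h3) (by first | (simp only [mul_assoc, mul_inv_rev, inv_inv, mul_inv_cancel_left, inv_mul_cancel_left, mul_inv_cancel, inv_mul_cancel, mul_one, one_mul, inv_one]; done) | simp only [mul_assoc, mul_inv_rev, inv_inv, mul_inv_cancel_left, inv_mul_cancel_left, mul_inv_cancel, inv_mul_cancel, mul_one, one_mul, inv_one, C]) (by first | (simp only [mul_assoc, mul_inv_rev, inv_inv, mul_inv_cancel_left, inv_mul_cancel_left, mul_inv_cancel, inv_mul_cancel, mul_one, one_mul, inv_one]; done) | simp only [mul_assoc, mul_inv_rev, inv_inv, mul_inv_cancel_left, inv_mul_cancel_left, mul_inv_cancel, inv_mul_cancel, mul_one, one_mul, inv_one, C]),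
    o.cv hδ (1) (by simp only [hδ, δinv hδ, δone hδ, D] <;> linear_combination (0) * h3) (by first | (simp only [mul_assoc, mul_inv_rev, inv_inv, mul_inv_cancel_left, inv_mul_cancel_left, mul_inv_cancel, inv_mul_cancel, mul_one, one_mul, inv_one]; done) | simp only [mul_assoc, mul_inv_rev, inv_inv, mul_inv_cancel_left, inv_mul_cancel_left, mul_inv_cancel, inv_mul_cancel, mul_one, one_mul, inv_one, C]) (by first | (simp only [mul_assoc, mul_inv_rev, inv_inv, mul_inv_cancel_left, inv_mul_cancel_left, mul_inv_cancel, inv_mul_cancel, mul_one, one_mul, inv_one]; done) | simp only [mul_assoc, mul_inv_rev, inv_inv, mul_inv_cancel_left, inv_mul_cancel_left, mul_inv_cancel, inv_mul_cancel, mul_one, one_mul, inv_one, C]),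
    o.cv hδ (1) (by simp only [hδ, δinv hδ, δone hδ, D] <;> linear_combination (-1) * h3) (by first | (simp only [mul_assoc, mul_inv_rev, inv_inv, mul_inv_cancel_left, inv_mul_cancel_left, mul_inv_cancel, inv_mul_cancel, mul_one, one_mul, inv_one]; done) | simp only [mul_assoc, mul_inv_rev, inv_inv, mul_inv_cancel_left, inv_mul_cancel_left, mul_inv_cancel, inv_mul_cancel, mul_one, one_mul, inv_one, C]) (by first | (simp only [mul_assoc, mul_inv_rev, inv_inv, mul_inv_cancel_left, inv_mul_cancel_left, mul_inv_cancel, inv_mul_cancel, mul_one, one_mul, inv_one]; done) | simp only [mul_assoc, mul_inv_rev, inv_inv, mul_inv_cancel_left, inv_mul_cancel_left, mul_inv_cancel, inv_mul_cancel, mul_one, one_mul, inv_one, C]),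
    o.cv hδ (f4 * Q⁻¹) (by simp only [hδ, δinv hδ, δone hδ, D] <;> linear_combination (0) * h3) (by first | (simp only [mul_assoc, mul_inv_rev, inv_inv, mul_inv_cancel_left, inv_mul_cancel_left, mul_inv_cancel, inv_mul_cancel, mul_one, one_mul, inv_one]; done) | simp only [mul_assoc, mul_inv_rev, inv_inv, mul_inv_cancel_left, inv_mul_cancel_left, mul_inv_cancel, inv_mul_cancel, mul_one, one_mul, inv_one, C]) (by first | (simp only [mul_assoc, mul_inv_rev, inv_inv, mul_inv_cancel_left, inv_mul_cancel_left, mul_inv_cancel, inv_mul_cancel, mul_one, one_mul, inv_one, C9]; done) | simp only [mul_assoc, mul_inv_rev, inv_inv, mul_inv_cancel_left, inv_mul_cancel_left, mul_inv_cancel, inv_mul_cancel, mul_one, one_mul, inv_one, C]),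
    o.cv hδ (1) (by simp only [hδ, δinv hδ, δone hδ, D] <;> linear_combination (1) * h3) (by first | (simp only [mul_assoc, mul_inv_rev, inv_inv, mul_inv_cancel_left, inv_mul_cancel_left, mul_inv_cancel, inv_mul_cancel, mul_one, one_mul, inv_one]; done) | simp only [mul_assoc, mul_inv_rev, inv_inv, mul_inv_cancel_left, inv_mul_cancel_left, mul_inv_cancel, inv_mul_cancel, mul_one, one_mul, inv_one, C]) (by first | (simp only [mul_assoc, mul_inv_rev, inv_inv, mul_inv_cancel_left, inv_mul_cancel_left, mul_inv_cancel, inv_mul_cancel, mul_one, one_mul, inv_one]; done) | simp only [mul_assoc, mul_inv_rev, inv_inv, mul_inv_cancel_left, inv_mul_cancel_left, mul_inv_cancel, inv_mul_cancel, mul_one, one_mul, inv_one, C]),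
    o.cv hδ (1) (by simp only [hδ, δinv hδ, δone hδ, D] <;> linear_combination (0) * h3) (by first | (simp only [mul_assoc, mul_inv_rev, inv_inv, mul_inv_cancel_left, inv_mul_cancel_left, mul_inv_cancel, inv_mul_cancel, mul_one, one_mul, inv_one]; done) | simp only [mul_assoc, mul_inv_rev, inv_inv, mul_inv_cancel_left, inv_mul_cancel_left, mul_inv_cancel, inv_mul_cancel, mul_one, one_mul, inv_one, C]) (by first | (simp only [mul_assoc, mul_inv_rev, inv_inv, mul_inv_cancel_left, inv_mul_cancel_left, mul_inv_cancel, inv_mul_cancel, mul_one, one_mul, inv_one]; done) | simp only [mul_assoc, mul_inv_rev, inv_inv, mul_inv_cancel_left, inv_mul_cancel_left, mul_inv_cancel, inv_mul_cancel, mul_one, one_mul, inv_one, C])⟩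

theorem close_AAAAA_k14 {G : Type*} [Group G] {δ : G → ZMod 3} (hδ : ∀ u v, δ (u * v) = δ u + δ v) (o : Pre δ)
    {P Q f0 f1 f2 f3 f4 : G} {e : ZMod 3} (h3 : 3 * e = 0)
    (D : δ P = e ∧ δ Q = -e ∧ δ f0 = 0 ∧ δ f1 = 0 ∧ δ f2 = 0 ∧ δ f3 = 0 ∧ δ f4 = 0)
    (C : Cube P f0 ∧ Cube P f1 ∧ Cube Q f0 ∧ Cube Q f1 ∧ Cube P f2 ∧ Cube Q f2 ∧ Cube P f3 ∧ Cube Q f3 ∧ Cube P f4 ∧ Cube Q f4) :
    (o.lt (f1 * P⁻¹) (Q * f2⁻¹) ↔ o.lt (f1 * P⁻¹) (Q * f2⁻¹)) ∧
    (o.lt (Q * f2⁻¹) (f2 * P⁻¹) ↔ o.lt (Q * f2⁻¹) (f2 * P⁻¹)) ∧
    (o.lt (f1 * Q⁻¹) (f3 * Q⁻¹) ↔ o.lt (f1 * P⁻¹) (f3 * P⁻¹)) ∧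
    (o.lt (f1 * P⁻¹) (P * Q⁻¹) ↔ o.lt (f1 * P⁻¹) (P * Q⁻¹)) ∧
    (o.lt (P * f3⁻¹) (f3 * (P⁻¹ * (Q * f3⁻¹))) ↔ o.lt (P * Q⁻¹) (f3 * P⁻¹)) ∧
    (o.lt (f1 * Q⁻¹) (f4 * Q⁻¹) ↔ o.lt (f1 * P⁻¹) (f4 * P⁻¹)) ∧
    (o.lt (P * Q⁻¹) (f4 * P⁻¹) ↔ o.lt (P * Q⁻¹) (f4 * P⁻¹)) ∧
    (o.lt (f2 * Q⁻¹) (P * f2⁻¹) ↔ o.lt (Q * f2⁻¹) (P * Q⁻¹)) ∧
    (o.lt (f0 * Q⁻¹) (P * f0⁻¹) ↔ o.lt (Q * f0⁻¹) (P * Q⁻¹)) ∧
    (o.lt (f4 * P⁻¹) (P * Q⁻¹) ↔ o.lt (f4 * P⁻¹) (P * Q⁻¹)) ∧
    (o.lt (Q * f1⁻¹) (Q * f0⁻¹) ↔ o.lt (Q * f1⁻¹) (Q * f0⁻¹)) ∧
    (o.lt (f1 * Q⁻¹) (P * f1⁻¹) ↔ o.lt (Q * f1⁻¹) (P * Q⁻¹)) ∧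
    (o.lt (P * f0⁻¹) (f0 * Q⁻¹) ↔ o.lt (P * Q⁻¹) (Q * f0⁻¹)) ∧
    (o.lt (f2 * P⁻¹) (f3 * P⁻¹) ↔ o.lt (f2 * P⁻¹) (f3 * P⁻¹)) ∧
    (o.lt (f2 * P⁻¹) (Q * f3⁻¹) ↔ o.lt (f2 * P⁻¹) (Q * f3⁻¹)) ∧
    (o.lt (Q * f3⁻¹) (f3 * P⁻¹) ↔ o.lt (Q * f3⁻¹) (f3 * P⁻¹)) ∧
    (o.lt (f2 * Q⁻¹) (f4 * Q⁻¹) ↔ o.lt (f2 * P⁻¹) (f4 * P⁻¹)) ∧
    (o.lt (Q * f3⁻¹) (f4 * P⁻¹) ↔ o.lt (Q * f3⁻¹) (f4 * P⁻¹)) ∧
    (o.lt (Q * f2⁻¹) (Q * f1⁻¹) ↔ o.lt (Q * f2⁻¹) (Q * f1⁻¹)) ∧
    (o.lt (P * f1⁻¹) (f1 * Q⁻¹) ↔ o.lt (P * Q⁻¹) (Q * f1⁻¹)) := by
  have C' := C
  obtain ⟨C0, C1, C2, C3, C4, C5, C6, C7, C8, C9⟩ := C'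
  simp only [Cube] at C C0 C1 C2 C3 C4 C5 C6 C7 C8 C9
  exact ⟨o.cv hδ (1) (by simp only [hδ, δinv hδ, δone hδ, D] <;> linear_combination (0) * h3) (by first | (simp only [mul_assoc, mul_inv_rev, inv_inv, mul_inv_cancel_left, inv_mul_cancel_left, mul_inv_cancel, inv_mul_cancel, mul_one, one_mul, inv_one]; done) | simp only [mul_assoc, mul_inv_rev, inv_inv, mul_inv_cancel_left, inv_mul_cancel_left, mul_inv_cancel, inv_mul_cancel, mul_one, one_mul, inv_one, C]) (by first | (simp only [mul_assoc, mul_inv_rev, inv_inv, mul_inv_cancel_left, inv_mul_cancel_left, mul_inv_cancel, inv_mul_cancel, mul_one, one_mul, inv_one]; done) | simp only [mul_assoc, mul_inv_rev, inv_inv, mul_inv_cancel_left, inv_mul_cancel_left, mul_inv_cancel, inv_mul_cancel, mul_one, one_mul, inv_one, C]),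
    o.cv hδ (1) (by simp only [hδ, δinv hδ, δone hδ, D] <;> linear_combination (0) * h3) (by first | (simp only [mul_assoc, mul_inv_rev, inv_inv, mul_inv_cancel_left, inv_mul_cancel_left, mul_inv_cancel, inv_mul_cancel, mul_one, one_mul, inv_one]; done) | simp only [mul_assoc, mul_inv_rev, inv_inv, mul_inv_cancel_left, inv_mul_cancel_left, mul_inv_cancel, inv_mul_cancel, mul_one, one_mul, inv_one, C]) (by first | (simp only [mul_assoc, mul_inv_rev, inv_inv, mul_inv_cancel_left, inv_mul_cancel_left, mul_inv_cancel, inv_mul_cancel, mul_one, one_mul, inv_one]; done) | simp only [mul_assoc, mul_inv_rev, inv_inv, mul_inv_cancel_left, inv_mul_cancel_left, mul_inv_cancel, inv_mul_cancel, mul_one, one_mul, inv_one, C]),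
    o.cv hδ (Q * P⁻¹) (by simp only [hδ, δinv hδ, δone hδ, D] <;> linear_combination (0) * h3) (by first | (simp only [mul_assoc, mul_inv_rev, inv_inv, mul_inv_cancel_left, inv_mul_cancel_left, mul_inv_cancel, inv_mul_cancel, mul_one, one_mul, inv_one]; done) | simp only [mul_assoc, mul_inv_rev, inv_inv, mul_inv_cancel_left, inv_mul_cancel_left, mul_inv_cancel, inv_mul_cancel, mul_one, one_mul, inv_one, C]) (by first | (simp only [mul_assoc, mul_inv_rev, inv_inv, mul_inv_cancel_left, inv_mul_cancel_left, mul_inv_cancel, inv_mul_cancel, mul_one, one_mul, inv_one]; done) | simp only [mul_assoc, mul_inv_rev, inv_inv, mul_inv_cancel_left, inv_mul_cancel_left, mul_inv_cancel, inv_mul_cancel, mul_one, one_mul, inv_one, C]),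
    o.cv hδ (1) (by simp only [hδ, δinv hδ, δone hδ, D] <;> linear_combination (-1) * h3) (by first | (simp only [mul_assoc, mul_inv_rev, inv_inv, mul_inv_cancel_left, inv_mul_cancel_left, mul_inv_cancel, inv_mul_cancel, mul_one, one_mul, inv_one]; done) | simp only [mul_assoc, mul_inv_rev, inv_inv, mul_inv_cancel_left, inv_mul_cancel_left, mul_inv_cancel, inv_mul_cancel, mul_one, one_mul, inv_one, C]) (by first | (simp only [mul_assoc, mul_inv_rev, inv_inv, mul_inv_cancel_left, inv_mul_cancel_left, mul_inv_cancel, inv_mul_cancel, mul_one, one_mul, inv_one]; done) | simp only [mul_assoc, mul_inv_rev, inv_inv, mul_inv_cancel_left, inv_mul_cancel_left, mul_inv_cancel, inv_mul_cancel, mul_one, one_mul, inv_one, C]),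
    o.cv hδ (f3 * Q⁻¹) (by simp only [hδ, δinv hδ, δone hδ, D] <;> linear_combination (1) * h3) (by first | (simp only [mul_assoc, mul_inv_rev, inv_inv, mul_inv_cancel_left, inv_mul_cancel_left, mul_inv_cancel, inv_mul_cancel, mul_one, one_mul, inv_one]; done) | simp only [mul_assoc, mul_inv_rev, inv_inv, mul_inv_cancel_left, inv_mul_cancel_left, mul_inv_cancel, inv_mul_cancel, mul_one, one_mul, inv_one, C]) (by first | (simp only [mul_assoc, mul_inv_rev, inv_inv, mul_inv_cancel_left, inv_mul_cancel_left, mul_inv_cancel, inv_mul_cancel, mul_one, one_mul, inv_one]; done) | simp only [mul_assoc, mul_inv_rev, inv_inv, mul_inv_cancel_left, inv_mul_cancel_left, mul_inv_cancel, inv_mul_cancel, mul_one, one_mul, inv_one, C]),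
    o.cv hδ (Q * P⁻¹) (by simp only [hδ, δinv hδ, δone hδ, D] <;> linear_combination (0) * h3) (by first | (simp only [mul_assoc, mul_inv_rev, inv_inv, mul_inv_cancel_left, inv_mul_cancel_left, mul_inv_cancel, inv_mul_cancel, mul_one, one_mul, inv_one]; done) | simp only [mul_assoc, mul_inv_rev, inv_inv, mul_inv_cancel_left, inv_mul_cancel_left, mul_inv_cancel, inv_mul_cancel, mul_one, one_mul, inv_one, C]) (by first | (simp only [mul_assoc, mul_inv_rev, inv_inv, mul_inv_cancel_left, inv_mul_cancel_left, mul_inv_cancel, inv_mul_cancel, mul_one, one_mul, inv_one]; done) | simp only [mul_assoc, mul_inv_rev, inv_inv, mul_inv_cancel_left, inv_mul_cancel_left, mul_inv_cancel, inv_mul_cancel, mul_one, one_mul, inv_one, C]),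
    o.cv hδ (1) (by simp only [hδ, δinv hδ, δone hδ, D] <;> linear_combination (1) * h3) (by first | (simp only [mul_assoc, mul_inv_rev, inv_inv, mul_inv_cancel_left, inv_mul_cancel_left, mul_inv_cancel, inv_mul_cancel, mul_one, one_mul, inv_one]; done) | simp only [mul_assoc, mul_inv_rev, inv_inv, mul_inv_cancel_left, inv_mul_cancel_left, mul_inv_cancel, inv_mul_cancel, mul_one, one_mul, inv_one, C]) (by first | (simp only [mul_assoc, mul_inv_rev, inv_inv, mul_inv_cancel_left, inv_mul_cancel_left, mul_inv_cancel, inv_mul_cancel, mul_one, one_mul, inv_one]; done) | simp only [mul_assoc, mul_inv_rev, inv_inv, mul_inv_cancel_left, inv_mul_cancel_left, mul_inv_cancel, inv_mul_cancel, mul_one, one_mul, inv_one, C]),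
    o.cv hδ (Q * (f2⁻¹ * (Q * f2⁻¹))) (by simp only [hδ, δinv hδ, δone hδ, D] <;> linear_combination (0) * h3) (by first | (simp only [mul_assoc, mul_inv_rev, inv_inv, mul_inv_cancel_left, inv_mul_cancel_left, mul_inv_cancel, inv_mul_cancel, mul_one, one_mul, inv_one]; done) | simp only [mul_assoc, mul_inv_rev, inv_inv, mul_inv_cancel_left, inv_mul_cancel_left, mul_inv_cancel, inv_mul_cancel, mul_one, one_mul, inv_one, C]) (by first | (simp only [mul_assoc, mul_inv_rev, inv_inv, mul_inv_cancel_left, inv_mul_cancel_left, mul_inv_cancel, inv_mul_cancel, mul_one, one_mul, inv_one, C5]; done) | simp only [mul_assoc, mul_inv_rev, inv_inv, mul_inv_cancel_left, inv_mul_cancel_left, mul_inv_cancel, inv_mul_cancel, mul_one, one_mul, inv_one, C]),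
    o.cv hδ (Q * (f0⁻¹ * (Q * f0⁻¹))) (by simp only [hδ, δinv hδ, δone hδ, D] <;> linear_combination (0) * h3) (by first | (simp only [mul_assoc, mul_inv_rev, inv_inv, mul_inv_cancel_left, inv_mul_cancel_left, mul_inv_cancel, inv_mul_cancel, mul_one, one_mul, inv_one]; done) | simp only [mul_assoc, mul_inv_rev, inv_inv, mul_inv_cancel_left, inv_mul_cancel_left, mul_inv_cancel, inv_mul_cancel, mul_one, one_mul, inv_one, C]) (by first | (simp only [mul_assoc, mul_inv_rev, inv_inv, mul_inv_cancel_left, inv_mul_cancel_left, mul_inv_cancel, inv_mul_cancel, mul_one, one_mul, inv_one, C2]; done) | simp only [mul_assoc, mul_inv_rev, inv_inv, mul_inv_cancel_left, inv_mul_cancel_left, mul_inv_cancel, inv_mul_cancel, mul_one, one_mul, inv_one, C]),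
    o.cv hδ (1) (by simp only [hδ, δinv hδ, δone hδ, D] <;> linear_combination (-1) * h3) (by first | (simp only [mul_assoc, mul_inv_rev, inv_inv, mul_inv_cancel_left, inv_mul_cancel_left, mul_inv_cancel, inv_mul_cancel, mul_one, one_mul, inv_one]; done) | simp only [mul_assoc, mul_inv_rev, inv_inv, mul_inv_cancel_left, inv_mul_cancel_left, mul_inv_cancel, inv_mul_cancel, mul_one, one_mul, inv_one, C]) (by first | (simp only [mul_assoc, mul_inv_rev, inv_inv, mul_inv_cancel_left, inv_mul_cancel_left, mul_inv_cancel, inv_mul_cancel, mul_one, one_mul, inv_one]; done) | simp only [mul_assoc, mul_inv_rev, inv_inv, mul_inv_cancel_left, inv_mul_cancel_left, mul_inv_cancel, inv_mul_cancel, mul_one, one_mul, inv_one, C]),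
    o.cv hδ (1) (by simp only [hδ, δinv hδ, δone hδ, D] <;> linear_combination (0) * h3) (by first | (simp only [mul_assoc, mul_inv_rev, inv_inv, mul_inv_cancel_left, inv_mul_cancel_left, mul_inv_cancel, inv_mul_cancel, mul_one, one_mul, inv_one]; done) | simp only [mul_assoc, mul_inv_rev, inv_inv, mul_inv_cancel_left, inv_mul_cancel_left, mul_inv_cancel, inv_mul_cancel, mul_one, one_mul, inv_one, C]) (by first | (simp only [mul_assoc, mul_inv_rev, inv_inv, mul_inv_cancel_left, inv_mul_cancel_left, mul_inv_cancel, inv_mul_cancel, mul_one, one_mul, inv_one]; done) | simp only [mul_assoc, mul_inv_rev, inv_inv, mul_inv_cancel_left, inv_mul_cancel_left, mul_inv_cancel, inv_mul_cancel, mul_one, one_mul, inv_one, C]),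
    o.cv hδ (Q * (f1⁻¹ * (Q * f1⁻¹))) (by simp only [hδ, δinv hδ, δone hδ, D] <;> linear_combination (0) * h3) (by first | (simp only [mul_assoc, mul_inv_rev, inv_inv, mul_inv_cancel_left, inv_mul_cancel_left, mul_inv_cancel, inv_mul_cancel, mul_one, one_mul, inv_one]; done) | simp only [mul_assoc, mul_inv_rev, inv_inv, mul_inv_cancel_left, inv_mul_cancel_left, mul_inv_cancel, inv_mul_cancel, mul_one, one_mul, inv_one, C]) (by first | (simp only [mul_assoc, mul_inv_rev, inv_inv, mul_inv_cancel_left, inv_mul_cancel_left, mul_inv_cancel, inv_mul_cancel, mul_one, one_mul, inv_one, C3]; done) | simp only [mul_assoc, mul_inv_rev, inv_inv, mul_inv_cancel_left, inv_mul_cancel_left, mul_inv_cancel, inv_mul_cancel, mul_one, one_mul, inv_one, C]),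
    o.cv hδ (f0 * Q⁻¹) (by simp only [hδ, δinv hδ, δone hδ, D] <;> linear_combination (0) * h3) (by first | (simp only [mul_assoc, mul_inv_rev, inv_inv, mul_inv_cancel_left, inv_mul_cancel_left, mul_inv_cancel, inv_mul_cancel, mul_one, one_mul, inv_one]; done) | simp only [mul_assoc, mul_inv_rev, inv_inv, mul_inv_cancel_left, inv_mul_cancel_left, mul_inv_cancel, inv_mul_cancel, mul_one, one_mul, inv_one, C]) (by first | (simp only [mul_assoc, mul_inv_rev, inv_inv, mul_inv_cancel_left, inv_mul_cancel_left, mul_inv_cancel, inv_mul_cancel, mul_one, one_mul, inv_one, C2]; done) | simp only [mul_assoc, mul_inv_rev, inv_inv, mul_inv_cancel_left, inv_mul_cancel_left, mul_inv_cancel, inv_mul_cancel, mul_one, one_mul, inv_one, C]),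
    o.cv hδ (1) (by simp only [hδ, δinv hδ, δone hδ, D] <;> linear_combination (0) * h3) (by first | (simp only [mul_assoc, mul_inv_rev, inv_inv, mul_inv_cancel_left, inv_mul_cancel_left, mul_inv_cancel, inv_mul_cancel, mul_one, one_mul, inv_one]; done) | simp only [mul_assoc, mul_inv_rev, inv_inv, mul_inv_cancel_left, inv_mul_cancel_left, mul_inv_cancel, inv_mul_cancel, mul_one, one_mul, inv_one, C]) (by first | (simp only [mul_assoc, mul_inv_rev, inv_inv, mul_inv_cancel_left, inv_mul_cancel_left, mul_inv_cancel, inv_mul_cancel, mul_one, one_mul, inv_one]; done) | simp only [mul_assoc, mul_inv_rev, inv_inv, mul_inv_cancel_left, inv_mul_cancel_left, mul_inv_cancel, inv_mul_cancel, mul_one, one_mul, inv_one, C]),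
    o.cv hδ (1) (by simp only [hδ, δinv hδ, δone hδ, D] <;> linear_combination (0) * h3) (by first | (simp only [mul_assoc, mul_inv_rev, inv_inv, mul_inv_cancel_left, inv_mul_cancel_left, mul_inv_cancel, inv_mul_cancel, mul_one, one_mul, inv_one]; done) | simp only [mul_assoc, mul_inv_rev, inv_inv, mul_inv_cancel_left, inv_mul_cancel_left, mul_inv_cancel, inv_mul_cancel, mul_one, one_mul, inv_one, C]) (by first | (simp only [mul_assoc, mul_inv_rev, inv_inv, mul_inv_cancel_left, inv_mul_cancel_left, mul_inv_cancel, inv_mul_cancel, mul_one, one_mul, inv_one]; done) | simp only [mul_assoc, mul_inv_rev, inv_inv, mul_inv_cancel_left, inv_mul_cancel_left, mul_inv_cancel, inv_mul_cancel, mul_one, one_mul, inv_one, C]),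
    o.cv hδ (1) (by simp only [hδ, δinv hδ, δone hδ, D] <;> linear_combination (0) * h3) (by first | (simp only [mul_assoc, mul_inv_rev, inv_inv, mul_inv_cancel_left, inv_mul_cancel_left, mul_inv_cancel, inv_mul_cancel, mul_one, one_mul, inv_one]; done) | simp only [mul_assoc, mul_inv_rev, inv_inv, mul_inv_cancel_left, inv_mul_cancel_left, mul_inv_cancel, inv_mul_cancel, mul_one, one_mul, inv_one, C]) (by first | (simp only [mul_assoc, mul_inv_rev, inv_inv, mul_inv_cancel_left, inv_mul_cancel_left, mul_inv_cancel, inv_mul_cancel, mul_one, one_mul, inv_one]; done) | simp only [mul_assoc, mul_inv_rev, inv_inv, mul_inv_cancel_left, inv_mul_cancel_left, mul_inv_cancel, inv_mul_cancel, mul_one, one_mul, inv_one, C]),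
    o.cv hδ (Q * P⁻¹) (by simp only [hδ, δinv hδ, δone hδ, D] <;> linear_combination (0) * h3) (by first | (simp only [mul_assoc, mul_inv_rev, inv_inv, mul_inv_cancel_left, inv_mul_cancel_left, mul_inv_cancel, inv_mul_cancel, mul_one, one_mul, inv_one]; done) | simp only [mul_assoc, mul_inv_rev, inv_inv, mul_inv_cancel_left, inv_mul_cancel_left, mul_inv_cancel, inv_mul_cancel, mul_one, one_mul, inv_one, C]) (by first | (simp only [mul_assoc, mul_inv_rev, inv_inv, mul_inv_cancel_left, inv_mul_cancel_left, mul_inv_cancel, inv_mul_cancel, mul_one, one_mul, inv_one]; done) | simp only [mul_assoc, mul_inv_rev, inv_inv, mul_inv_cancel_left, inv_mul_cancel_left, mul_inv_cancel, inv_mul_cancel, mul_one, one_mul, inv_one, C]),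
    o.cv hδ (1) (by simp only [hδ, δinv hδ, δone hδ, D] <;> linear_combination (0) * h3) (by first | (simp only [mul_assoc, mul_inv_rev, inv_inv, mul_inv_cancel_left, inv_mul_cancel_left, mul_inv_cancel, inv_mul_cancel, mul_one, one_mul, inv_one]; done) | simp only [mul_assoc, mul_inv_rev, inv_inv, mul_inv_cancel_left, inv_mul_cancel_left, mul_inv_cancel, inv_mul_cancel, mul_one, one_mul, inv_one, C]) (by first | (simp only [mul_assoc, mul_inv_rev, inv_inv, mul_inv_cancel_left, inv_mul_cancel_left, mul_inv_cancel, inv_mul_cancel, mul_one, one_mul, inv_one]; done) | simp only [mul_assoc, mul_inv_rev, inv_inv, mul_inv_cancel_left, inv_mul_cancel_left, mul_inv_cancel, inv_mul_cancel, mul_one, one_mul, inv_one, C]),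
    o.cv hδ (1) (by simp only [hδ, δinv hδ, δone hδ, D] <;> linear_combination (0) * h3) (by first | (simp only [mul_assoc, mul_inv_rev, inv_inv, mul_inv_cancel_left, inv_mul_cancel_left, mul_inv_cancel, inv_mul_cancel, mul_one, one_mul, inv_one]; done) | simp only [mul_assoc, mul_inv_rev, inv_inv, mul_inv_cancel_left, inv_mul_cancel_left, mul_inv_cancel, inv_mul_cancel, mul_one, one_mul, inv_one, C]) (by first | (simp only [mul_assoc, mul_inv_rev, inv_inv, mul_inv_cancel_left, inv_mul_cancel_left, mul_inv_cancel, inv_mul_cancel, mul_one, one_mul, inv_one]; done) | simp only [mul_assoc, mul_inv_rev, inv_inv, mul_inv_cancel_left, inv_mul_cancel_left, mul_inv_cancel, inv_mul_cancel, mul_one, one_mul, inv_one, C]),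
    o.cv hδ (f1 * Q⁻¹) (by simp only [hδ, δinv hδ, δone hδ, D] <;> linear_combination (0) * h3) (by first | (simp only [mul_assoc, mul_inv_rev, inv_inv, mul_inv_cancel_left, inv_mul_cancel_left, mul_inv_cancel, inv_mul_cancel, mul_one, one_mul, inv_one]; done) | simp only [mul_assoc, mul_inv_rev, inv_inv, mul_inv_cancel_left, inv_mul_cancel_left, mul_inv_cancel, inv_mul_cancel, mul_one, one_mul, inv_one, C]) (by first | (simp only [mul_assoc, mul_inv_rev, inv_inv, mul_inv_cancel_left, inv_mul_cancel_left, mul_inv_cancel, inv_mul_cancel, mul_one, one_mul, inv_one, C3]; done) | simp only [mul_assoc, mul_inv_rev, inv_inv, mul_inv_cancel_left, inv_mul_cancel_left, mul_inv_cancel, inv_mul_cancel, mul_one, one_mul, inv_one, C])⟩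

theorem close_AAAAA_k15 {G : Type*} [Group G] {δ : G → ZMod 3} (hδ : ∀ u v, δ (u * v) = δ u + δ v) (o : Pre δ)
    {P Q f0 f1 f2 f3 f4 : G} {e : ZMod 3} (h3 : 3 * e = 0)
    (D : δ P = e ∧ δ Q = -e ∧ δ f0 = 0 ∧ δ f1 = 0 ∧ δ f2 = 0 ∧ δ f3 = 0 ∧ δ f4 = 0)
    (C : Cube P f0 ∧ Cube P f1 ∧ Cube Q f0 ∧ Cube Q f1 ∧ Cube P f2 ∧ Cube Q f2 ∧ Cube P f3 ∧ Cube Q f3 ∧ Cube P f4 ∧ Cube Q f4) :
    (o.lt (Q * f2⁻¹) (Q * f3⁻¹) ↔ o.lt (Q * f2⁻¹) (Q * f3⁻¹)) ∧
    (o.lt (P * f3⁻¹) (f3 * Q⁻¹) ↔ o.lt (P * Q⁻¹) (Q * f3⁻¹)) ∧
    (o.lt (f3 * P⁻¹) (Q * f0⁻¹) ↔ o.lt (f3 * P⁻¹) (Q * f0⁻¹)) ∧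
    (o.lt (f3 * Q⁻¹) (f0 * Q⁻¹) ↔ o.lt (f3 * P⁻¹) (f0 * P⁻¹)) ∧
    (o.lt (f3 * P⁻¹) (f2 * P⁻¹) ↔ o.lt (f3 * P⁻¹) (f2 * P⁻¹)) ∧
    (o.lt (f3 * P⁻¹) (Q * f3⁻¹) ↔ o.lt (f3 * P⁻¹) (Q * f3⁻¹)) ∧
    (o.lt (Q * f3⁻¹) (f2 * P⁻¹) ↔ o.lt (Q * f3⁻¹) (f2 * P⁻¹)) ∧
    (o.lt (f3 * (P⁻¹ * (Q * f3⁻¹))) (P * f3⁻¹) ↔ o.lt (f3 * P⁻¹) (P * Q⁻¹)) ∧
    (o.lt (f3 * Q⁻¹) (f1 * Q⁻¹) ↔ o.lt (f3 * P⁻¹) (f1 * P⁻¹)) ∧
    (o.lt (Q * f3⁻¹) (Q * f2⁻¹) ↔ o.lt (Q * f3⁻¹) (Q * f2⁻¹)) ∧
    (o.lt (f2 * P⁻¹) (Q * f2⁻¹) ↔ o.lt (f2 * P⁻¹) (Q * f2⁻¹)) ∧
    (o.lt (f3 * Q⁻¹) (P * f3⁻¹) ↔ o.lt (Q * f3⁻¹) (P * Q⁻¹)) ∧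
    (o.lt (P * f2⁻¹) (f2 * Q⁻¹) ↔ o.lt (P * Q⁻¹) (Q * f2⁻¹)) ∧
    (o.lt (Q * f3⁻¹) (Q * f4⁻¹) ↔ o.lt (Q * f3⁻¹) (Q * f4⁻¹)) ∧
    (o.lt (f2 * (P⁻¹ * (Q * f2⁻¹))) (P * f2⁻¹) ↔ o.lt (f2 * P⁻¹) (P * Q⁻¹)) ∧
    (o.lt (f4 * Q⁻¹) (f2 * Q⁻¹) ↔ o.lt (f4 * P⁻¹) (f2 * P⁻¹)) ∧
    (o.lt (P * f2⁻¹) (f2 * (P⁻¹ * (Q * f2⁻¹))) ↔ o.lt (P * Q⁻¹) (f2 * P⁻¹)) ∧
    (o.lt (f4 * P⁻¹) (f3 * P⁻¹) ↔ o.lt (f4 * P⁻¹) (f3 * P⁻¹)) ∧
    (o.lt (f4 * P⁻¹) (Q * f4⁻¹) ↔ o.lt (f4 * P⁻¹) (Q * f4⁻¹)) ∧
    (o.lt (Q * f4⁻¹) (Q * f0⁻¹) ↔ o.lt (Q * f4⁻¹) (Q * f0⁻¹)) := by
  have C' := C
  obtain ⟨C0, C1, C2, C3, C4, C5, C6, C7, C8, C9⟩ := C'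
  simp only [Cube] at C C0 C1 C2 C3 C4 C5 C6 C7 C8 C9
  exact ⟨o.cv hδ (1) (by simp only [hδ, δinv hδ, δone hδ, D] <;> linear_combination (0) * h3) (by first | (simp only [mul_assoc, mul_inv_rev, inv_inv, mul_inv_cancel_left, inv_mul_cancel_left, mul_inv_cancel, inv_mul_cancel, mul_one, one_mul, inv_one]; done) | simp only [mul_assoc, mul_inv_rev, inv_inv, mul_inv_cancel_left, inv_mul_cancel_left, mul_inv_cancel, inv_mul_cancel, mul_one, one_mul, inv_one, C]) (by first | (simp only [mul_assoc, mul_inv_rev, inv_inv, mul_inv_cancel_left, inv_mul_cancel_left, mul_inv_cancel, inv_mul_cancel, mul_one, one_mul, inv_one]; done) | simp only [mul_assoc, mul_inv_rev, inv_inv, mul_inv_cancel_left, inv_mul_cancel_left, mul_inv_cancel, inv_mul_cancel, mul_one, one_mul, inv_one, C]),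
    o.cv hδ (f3 * Q⁻¹) (by simp only [hδ, δinv hδ, δone hδ, D] <;> linear_combination (0) * h3) (by first | (simp only [mul_assoc, mul_inv_rev, inv_inv, mul_inv_cancel_left, inv_mul_cancel_left, mul_inv_cancel, inv_mul_cancel, mul_one, one_mul, inv_one]; done) | simp only [mul_assoc, mul_inv_rev, inv_inv, mul_inv_cancel_left, inv_mul_cancel_left, mul_inv_cancel, inv_mul_cancel, mul_one, one_mul, inv_one, C]) (by first | (simp only [mul_assoc, mul_inv_rev, inv_inv, mul_inv_cancel_left, inv_mul_cancel_left, mul_inv_cancel, inv_mul_cancel, mul_one, one_mul, inv_one, C7]; done) | simp only [mul_assoc, mul_inv_rev, inv_inv, mul_inv_cancel_left, inv_mul_cancel_left, mul_inv_cancel, inv_mul_cancel, mul_one, one_mul, inv_one, C]),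
    o.cv hδ (1) (by simp only [hδ, δinv hδ, δone hδ, D] <;> linear_combination (0) * h3) (by first | (simp only [mul_assoc, mul_inv_rev, inv_inv, mul_inv_cancel_left, inv_mul_cancel_left, mul_inv_cancel, inv_mul_cancel, mul_one, one_mul, inv_one]; done) | simp only [mul_assoc, mul_inv_rev, inv_inv, mul_inv_cancel_left, inv_mul_cancel_left, mul_inv_cancel, inv_mul_cancel, mul_one, one_mul, inv_one, C]) (by first | (simp only [mul_assoc, mul_inv_rev, inv_inv, mul_inv_cancel_left, inv_mul_cancel_left, mul_inv_cancel, inv_mul_cancel, mul_one, one_mul, inv_one]; done) | simp only [mul_assoc, mul_inv_rev, inv_inv, mul_inv_cancel_left, inv_mul_cancel_left, mul_inv_cancel, inv_mul_cancel, mul_one, one_mul, inv_one, C]),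
    o.cv hδ (Q * P⁻¹) (by simp only [hδ, δinv hδ, δone hδ, D] <;> linear_combination (0) * h3) (by first | (simp only [mul_assoc, mul_inv_rev, inv_inv, mul_inv_cancel_left, inv_mul_cancel_left, mul_inv_cancel, inv_mul_cancel, mul_one, one_mul, inv_one]; done) | simp only [mul_assoc, mul_inv_rev, inv_inv, mul_inv_cancel_left, inv_mul_cancel_left, mul_inv_cancel, inv_mul_cancel, mul_one, one_mul, inv_one, C]) (by first | (simp only [mul_assoc, mul_inv_rev, inv_inv, mul_inv_cancel_left, inv_mul_cancel_left, mul_inv_cancel, inv_mul_cancel, mul_one, one_mul, inv_one]; done) | simp only [mul_assoc, mul_inv_rev, inv_inv, mul_inv_cancel_left, inv_mul_cancel_left, mul_inv_cancel, inv_mul_cancel, mul_one, one_mul, inv_one, C]),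
    o.cv hδ (1) (by simp only [hδ, δinv hδ, δone hδ, D] <;> linear_combination (0) * h3) (by first | (simp only [mul_assoc, mul_inv_rev, inv_inv, mul_inv_cancel_left, inv_mul_cancel_left, mul_inv_cancel, inv_mul_cancel, mul_one, one_mul, inv_one]; done) | simp only [mul_assoc, mul_inv_rev, inv_inv, mul_inv_cancel_left, inv_mul_cancel_left, mul_inv_cancel, inv_mul_cancel, mul_one, one_mul, inv_one, C]) (by first | (simp only [mul_assoc, mul_inv_rev, inv_inv, mul_inv_cancel_left, inv_mul_cancel_left, mul_inv_cancel, inv_mul_cancel, mul_one, one_mul, inv_one]; done) | simp only [mul_assoc, mul_inv_rev, inv_inv, mul_inv_cancel_left, inv_mul_cancel_left, mul_inv_cancel, inv_mul_cancel, mul_one, one_mul, inv_one, C]),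
    o.cv hδ (1) (by simp only [hδ, δinv hδ, δone hδ, D] <;> linear_combination (0) * h3) (by first | (simp only [mul_assoc, mul_inv_rev, inv_inv, mul_inv_cancel_left, inv_mul_cancel_left, mul_inv_cancel, inv_mul_cancel, mul_one, one_mul, inv_one]; done) | simp only [mul_assoc, mul_inv_rev, inv_inv, mul_inv_cancel_left, inv_mul_cancel_left, mul_inv_cancel, inv_mul_cancel, mul_one, one_mul, inv_one, C]) (by first | (simp only [mul_assoc, mul_inv_rev, inv_inv, mul_inv_cancel_left, inv_mul_cancel_left, mul_inv_cancel, inv_mul_cancel, mul_one, one_mul, inv_one]; done) | simp only [mul_assoc, mul_inv_rev, inv_inv, mul_inv_cancel_left, inv_mul_cancel_left, mul_inv_cancel, inv_mul_cancel, mul_one, one_mul, inv_one, C]),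
    o.cv hδ (1) (by simp only [hδ, δinv hδ, δone hδ, D] <;> linear_combination (0) * h3) (by first | (simp only [mul_assoc, mul_inv_rev, inv_inv, mul_inv_cancel_left, inv_mul_cancel_left, mul_inv_cancel, inv_mul_cancel, mul_one, one_mul, inv_one]; done) | simp only [mul_assoc, mul_inv_rev, inv_inv, mul_inv_cancel_left, inv_mul_cancel_left, mul_inv_cancel, inv_mul_cancel, mul_one, one_mul, inv_one, C]) (by first | (simp only [mul_assoc, mul_inv_rev, inv_inv, mul_inv_cancel_left, inv_mul_cancel_left, mul_inv_cancel, inv_mul_cancel, mul_one, one_mul, inv_one]; done) | simp only [mul_assoc, mul_inv_rev, inv_inv, mul_inv_cancel_left, inv_mul_cancel_left, mul_inv_cancel, inv_mul_cancel, mul_one, one_mul, inv_one, C]),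
    o.cv hδ (f3 * Q⁻¹) (by simp only [hδ, δinv hδ, δone hδ, D] <;> linear_combination (-1) * h3) (by first | (simp only [mul_assoc, mul_inv_rev, inv_inv, mul_inv_cancel_left, inv_mul_cancel_left, mul_inv_cancel, inv_mul_cancel, mul_one, one_mul, inv_one]; done) | simp only [mul_assoc, mul_inv_rev, inv_inv, mul_inv_cancel_left, inv_mul_cancel_left, mul_inv_cancel, inv_mul_cancel, mul_one, one_mul, inv_one, C]) (by first | (simp only [mul_assoc, mul_inv_rev, inv_inv, mul_inv_cancel_left, inv_mul_cancel_left, mul_inv_cancel, inv_mul_cancel, mul_one, one_mul, inv_one]; done) | simp only [mul_assoc, mul_inv_rev, inv_inv, mul_inv_cancel_left, inv_mul_cancel_left, mul_inv_cancel, inv_mul_cancel, mul_one, one_mul, inv_one, C]),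
    o.cv hδ (Q * P⁻¹) (by simp only [hδ, δinv hδ, δone hδ, D] <;> linear_combination (0) * h3) (by first | (simp only [mul_assoc, mul_inv_rev, inv_inv, mul_inv_cancel_left, inv_mul_cancel_left, mul_inv_cancel, inv_mul_cancel, mul_one, one_mul, inv_one]; done) | simp only [mul_assoc, mul_inv_rev, inv_inv, mul_inv_cancel_left, inv_mul_cancel_left, mul_inv_cancel, inv_mul_cancel, mul_one, one_mul, inv_one, C]) (by first | (simp only [mul_assoc, mul_inv_rev, inv_inv, mul_inv_cancel_left, inv_mul_cancel_left, mul_inv_cancel, inv_mul_cancel, mul_one, one_mul, inv_one]; done) | simp only [mul_assoc, mul_inv_rev, inv_inv, mul_inv_cancel_left, inv_mul_cancel_left, mul_inv_cancel, inv_mul_cancel, mul_one, one_mul, inv_one, C]),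
    o.cv hδ (1) (by simp only [hδ, δinv hδ, δone hδ, D] <;> linear_combination (0) * h3) (by first | (simp only [mul_assoc, mul_inv_rev, inv_inv, mul_inv_cancel_left, inv_mul_cancel_left, mul_inv_cancel, inv_mul_cancel, mul_one, one_mul, inv_one]; done) | simp only [mul_assoc, mul_inv_rev, inv_inv, mul_inv_cancel_left, inv_mul_cancel_left, mul_inv_cancel, inv_mul_cancel, mul_one, one_mul, inv_one, C]) (by first | (simp only [mul_assoc, mul_inv_rev, inv_inv, mul_inv_cancel_left, inv_mul_cancel_left, mul_inv_cancel, inv_mul_cancel, mul_one, one_mul, inv_one]; done) | simp only [mul_assoc, mul_inv_rev, inv_inv, mul_inv_cancel_left, inv_mul_cancel_left, mul_inv_cancel, inv_mul_cancel, mul_one, one_mul, inv_one, C]),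
    o.cv hδ (1) (by simp only [hδ, δinv hδ, δone hδ, D] <;> linear_combination (0) * h3) (by first | (simp only [mul_assoc, mul_inv_rev, inv_inv, mul_inv_cancel_left, inv_mul_cancel_left, mul_inv_cancel, inv_mul_cancel, mul_one, one_mul, inv_one]; done) | simp only [mul_assoc, mul_inv_rev, inv_inv, mul_inv_cancel_left, inv_mul_cancel_left, mul_inv_cancel, inv_mul_cancel, mul_one, one_mul, inv_one, C]) (by first | (simp only [mul_assoc, mul_inv_rev, inv_inv, mul_inv_cancel_left, inv_mul_cancel_left, mul_inv_cancel, inv_mul_cancel, mul_one, one_mul, inv_one]; done) | simp only [mul_assoc, mul_inv_rev, inv_inv, mul_inv_cancel_left, inv_mul_cancel_left, mul_inv_cancel, inv_mul_cancel, mul_one, one_mul, inv_one, C]),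
    o.cv hδ (Q * (f3⁻¹ * (Q * f3⁻¹))) (by simp only [hδ, δinv hδ, δone hδ, D] <;> linear_combination (0) * h3) (by first | (simp only [mul_assoc, mul_inv_rev, inv_inv, mul_inv_cancel_left, inv_mul_cancel_left, mul_inv_cancel, inv_mul_cancel, mul_one, one_mul, inv_one]; done) | simp only [mul_assoc, mul_inv_rev, inv_inv, mul_inv_cancel_left, inv_mul_cancel_left, mul_inv_cancel, inv_mul_cancel, mul_one, one_mul, inv_one, C]) (by first | (simp only [mul_assoc, mul_inv_rev, inv_inv, mul_inv_cancel_left, inv_mul_cancel_left, mul_inv_cancel, inv_mul_cancel, mul_one, one_mul, inv_one, C7]; done) | simp only [mul_assoc, mul_inv_rev, inv_inv, mul_inv_cancel_left, inv_mul_cancel_left, mul_inv_cancel, inv_mul_cancel, mul_one, one_mul, inv_one, C]),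
    o.cv hδ (f2 * Q⁻¹) (by simp only [hδ, δinv hδ, δone hδ, D] <;> linear_combination (0) * h3) (by first | (simp only [mul_assoc, mul_inv_rev, inv_inv, mul_inv_cancel_left, inv_mul_cancel_left, mul_inv_cancel, inv_mul_cancel, mul_one, one_mul, inv_one]; done) | simp only [mul_assoc, mul_inv_rev, inv_inv, mul_inv_cancel_left, inv_mul_cancel_left, mul_inv_cancel, inv_mul_cancel, mul_one, one_mul, inv_one, C]) (by first | (simp only [mul_assoc, mul_inv_rev, inv_inv, mul_inv_cancel_left, inv_mul_cancel_left, mul_inv_cancel, inv_mul_cancel, mul_one, one_mul, inv_one, C5]; done) | simp only [mul_assoc, mul_inv_rev, inv_inv, mul_inv_cancel_left, inv_mul_cancel_left, mul_inv_cancel, inv_mul_cancel, mul_one, one_mul, inv_one, C]),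
    o.cv hδ (1) (by simp only [hδ, δinv hδ, δone hδ, D] <;> linear_combination (0) * h3) (by first | (simp only [mul_assoc, mul_inv_rev, inv_inv, mul_inv_cancel_left, inv_mul_cancel_left, mul_inv_cancel, inv_mul_cancel, mul_one, one_mul, inv_one]; done) | simp only [mul_assoc, mul_inv_rev, inv_inv, mul_inv_cancel_left, inv_mul_cancel_left, mul_inv_cancel, inv_mul_cancel, mul_one, one_mul, inv_one, C]) (by first | (simp only [mul_assoc, mul_inv_rev, inv_inv, mul_inv_cancel_left, inv_mul_cancel_left, mul_inv_cancel, inv_mul_cancel, mul_one, one_mul, inv_one]; done) | simp only [mul_assoc, mul_inv_rev, inv_inv, mul_inv_cancel_left, inv_mul_cancel_left, mul_inv_cancel, inv_mul_cancel, mul_one, one_mul, inv_one, C]),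
    o.cv hδ (f2 * Q⁻¹) (by simp only [hδ, δinv hδ, δone hδ, D] <;> linear_combination (-1) * h3) (by first | (simp only [mul_assoc, mul_inv_rev, inv_inv, mul_inv_cancel_left, inv_mul_cancel_left, mul_inv_cancel, inv_mul_cancel, mul_one, one_mul, inv_one]; done) | simp only [mul_assoc, mul_inv_rev, inv_inv, mul_inv_cancel_left, inv_mul_cancel_left, mul_inv_cancel, inv_mul_cancel, mul_one, one_mul, inv_one, C]) (by first | (simp only [mul_assoc, mul_inv_rev, inv_inv, mul_inv_cancel_left, inv_mul_cancel_left, mul_inv_cancel, inv_mul_cancel, mul_one, one_mul, inv_one]; done) | simp only [mul_assoc, mul_inv_rev, inv_inv, mul_inv_cancel_left, inv_mul_cancel_left, mul_inv_cancel, inv_mul_cancel, mul_one, one_mul, inv_one, C]),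
    o.cv hδ (Q * P⁻¹) (by simp only [hδ, δinv hδ, δone hδ, D] <;> linear_combination (0) * h3) (by first | (simp only [mul_assoc, mul_inv_rev, inv_inv, mul_inv_cancel_left, inv_mul_cancel_left, mul_inv_cancel, inv_mul_cancel, mul_one, one_mul, inv_one]; done) | simp only [mul_assoc, mul_inv_rev, inv_inv, mul_inv_cancel_left, inv_mul_cancel_left, mul_inv_cancel, inv_mul_cancel, mul_one, one_mul, inv_one, C]) (by first | (simp only [mul_assoc, mul_inv_rev, inv_inv, mul_inv_cancel_left, inv_mul_cancel_left, mul_inv_cancel, inv_mul_cancel, mul_one, one_mul, inv_one]; done) | simp only [mul_assoc, mul_inv_rev, inv_inv, mul_inv_cancel_left, inv_mul_cancel_left, mul_inv_cancel, inv_mul_cancel, mul_one, one_mul, inv_one, C]),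
    o.cv hδ (f2 * Q⁻¹) (by simp only [hδ, δinv hδ, δone hδ, D] <;> linear_combination (1) * h3) (by first | (simp only [mul_assoc, mul_inv_rev, inv_inv, mul_inv_cancel_left, inv_mul_cancel_left, mul_inv_cancel, inv_mul_cancel, mul_one, one_mul, inv_one]; done) | simp only [mul_assoc, mul_inv_rev, inv_inv, mul_inv_cancel_left, inv_mul_cancel_left, mul_inv_cancel, inv_mul_cancel, mul_one, one_mul, inv_one, C]) (by first | (simp only [mul_assoc, mul_inv_rev, inv_inv, mul_inv_cancel_left, inv_mul_cancel_left, mul_inv_cancel, inv_mul_cancel, mul_one, one_mul, inv_one]; done) | simp only [mul_assoc, mul_inv_rev, inv_inv, mul_inv_cancel_left, inv_mul_cancel_left, mul_inv_cancel, inv_mul_cancel, mul_one, one_mul, inv_one, C]),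
    o.cv hδ (1) (by simp only [hδ, δinv hδ, δone hδ, D] <;> linear_combination (0) * h3) (by first | (simp only [mul_assoc, mul_inv_rev, inv_inv, mul_inv_cancel_left, inv_mul_cancel_left, mul_inv_cancel, inv_mul_cancel, mul_one, one_mul, inv_one]; done) | simp only [mul_assoc, mul_inv_rev, inv_inv, mul_inv_cancel_left, inv_mul_cancel_left, mul_inv_cancel, inv_mul_cancel, mul_one, one_mul, inv_one, C]) (by first | (simp only [mul_assoc, mul_inv_rev, inv_inv, mul_inv_cancel_left, inv_mul_cancel_left, mul_inv_cancel, inv_mul_cancel, mul_one, one_mul, inv_one]; done) | simp only [mul_assoc, mul_inv_rev, inv_inv, mul_inv_cancel_left, inv_mul_cancel_left, mul_inv_cancel, inv_mul_cancel, mul_one, one_mul, inv_one, C]),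
    o.cv hδ (1) (by simp only [hδ, δinv hδ, δone hδ, D] <;> linear_combination (0) * h3) (by first | (simp only [mul_assoc, mul_inv_rev, inv_inv, mul_inv_cancel_left, inv_mul_cancel_left, mul_inv_cancel, inv_mul_cancel, mul_one, one_mul, inv_one]; done) | simp only [mul_assoc, mul_inv_rev, inv_inv, mul_inv_cancel_left, inv_mul_cancel_left, mul_inv_cancel, inv_mul_cancel, mul_one, one_mul, inv_one, C]) (by first | (simp only [mul_assoc, mul_inv_rev, inv_inv, mul_inv_cancel_left, inv_mul_cancel_left, mul_inv_cancel, inv_mul_cancel, mul_one, one_mul, inv_one]; done) | simp only [mul_assoc, mul_inv_rev, inv_inv, mul_inv_cancel_left, inv_mul_cancel_left, mul_inv_cancel, inv_mul_cancel, mul_one, one_mul, inv_one, C]),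
    o.cv hδ (1) (by simp only [hδ, δinv hδ, δone hδ, D] <;> linear_combination (0) * h3) (by first | (simp only [mul_assoc, mul_inv_rev, inv_inv, mul_inv_cancel_left, inv_mul_cancel_left, mul_inv_cancel, inv_mul_cancel, mul_one, one_mul, inv_one]; done) | simp only [mul_assoc, mul_inv_rev, inv_inv, mul_inv_cancel_left, inv_mul_cancel_left, mul_inv_cancel, inv_mul_cancel, mul_one, one_mul, inv_one, C]) (by first | (simp only [mul_assoc, mul_inv_rev, inv_inv, mul_inv_cancel_left, inv_mul_cancel_left, mul_inv_cancel, inv_mul_cancel, mul_one, one_mul, inv_one]; done) | simp only [mul_assoc, mul_inv_rev, inv_inv, mul_inv_cancel_left, inv_mul_cancel_left, mul_inv_cancel, inv_mul_cancel, mul_one, one_mul, inv_one, C])⟩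

theorem close_AAAAA_k16 {G : Type*} [Group G] {δ : G → ZMod 3} (hδ : ∀ u v, δ (u * v) = δ u + δ v) (o : Pre δ)
    {P Q f0 f1 f2 f3 f4 : G} {e : ZMod 3} (h3 : 3 * e = 0)
    (D : δ P = e ∧ δ Q = -e ∧ δ f0 = 0 ∧ δ f1 = 0 ∧ δ f2 = 0 ∧ δ f3 = 0 ∧ δ f4 = 0)
    (C : Cube P f0 ∧ Cube P f1 ∧ Cube Q f0 ∧ Cube Q f1 ∧ Cube P f2 ∧ Cube Q f2 ∧ Cube P f3 ∧ Cube Q f3 ∧ Cube P f4 ∧ Cube Q f4) :
    (o.lt (f4 * Q⁻¹) (P * f4⁻¹) ↔ o.lt (Q * f4⁻¹) (P * Q⁻¹)) ∧
    (o.lt (f2 * Q⁻¹) (f0 * Q⁻¹) ↔ o.lt (f2 * P⁻¹) (f0 * P⁻¹)) ∧
    (o.lt (f0 * (P⁻¹ * (f0 * f1⁻¹))) (f0 * P⁻¹) ↔ o.lt (P * (f0⁻¹ * (P * f1⁻¹))) (f0 * P⁻¹)) ∧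
    (o.lt (P * f0⁻¹) (P * f1⁻¹) ↔ o.lt (P * (f0⁻¹ * (P * f1⁻¹))) (f1 * P⁻¹)) ∧
    (o.lt (f1 * Q⁻¹) (f0 * Q⁻¹) ↔ o.lt (f1 * P⁻¹) (f0 * P⁻¹)) ∧
    (o.lt (f2 * (P⁻¹ * (f1 * Q⁻¹))) (f2 * (P⁻¹ * (f2 * Q⁻¹))) ↔ o.lt (f2 * P⁻¹) (P * (f2⁻¹ * (P * f1⁻¹)))) ∧
    (o.lt (f2 * (P⁻¹ * (f2 * f1⁻¹))) (f2 * P⁻¹) ↔ o.lt (P * (f2⁻¹ * (P * f1⁻¹))) (f2 * P⁻¹)) ∧
    (o.lt (f0 * P⁻¹) (P * (f0⁻¹ * (f1 * Q⁻¹))) ↔ o.lt (f0 * P⁻¹) (P * (f0⁻¹ * (f1 * Q⁻¹)))) ∧
    (o.lt (P * (f0⁻¹ * (f1 * Q⁻¹))) (f0 * P⁻¹) ↔ o.lt (P * (f0⁻¹ * (f1 * Q⁻¹))) (f0 * P⁻¹)) ∧
    (o.lt (f3 * P⁻¹) (f3 * (P⁻¹ * (f3 * f2⁻¹))) ↔ o.lt (f3 * P⁻¹) (P * (f3⁻¹ * (P * f2⁻¹)))) ∧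
    (o.lt (P * f2⁻¹) (P * f3⁻¹) ↔ o.lt (f2 * P⁻¹) (P * (f3⁻¹ * (P * f2⁻¹)))) ∧
    (o.lt (P * f4⁻¹) (P * f3⁻¹) ↔ o.lt (P * (f4⁻¹ * (P * f3⁻¹))) (f3 * P⁻¹)) ∧
    (o.lt (f4 * (P⁻¹ * (f4 * f3⁻¹))) (f4 * P⁻¹) ↔ o.lt (P * (f4⁻¹ * (P * f3⁻¹))) (f4 * P⁻¹)) ∧
    (o.lt (f3 * Q⁻¹) (f4 * Q⁻¹) ↔ o.lt (f3 * P⁻¹) (f4 * P⁻¹)) ∧
    (o.lt (f4 * P⁻¹) (f4 * (P⁻¹ * (f4 * f3⁻¹))) ↔ o.lt (f4 * P⁻¹) (P * (f4⁻¹ * (P * f3⁻¹)))) ∧
    (o.lt (f0 * (P⁻¹ * (f0 * f4⁻¹))) (f0 * P⁻¹) ↔ o.lt (P * (f0⁻¹ * (P * f4⁻¹))) (f0 * P⁻¹)) ∧
    (o.lt (P * f0⁻¹) (P * f4⁻¹) ↔ o.lt (P * (f0⁻¹ * (P * f4⁻¹))) (f4 * P⁻¹)) ∧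
    (o.lt (f4 * Q⁻¹) (f0 * Q⁻¹) ↔ o.lt (f4 * P⁻¹) (f0 * P⁻¹)) ∧
    (o.lt (f3 * P⁻¹) (f3 * (P⁻¹ * (f3 * f4⁻¹))) ↔ o.lt (f3 * P⁻¹) (P * (f3⁻¹ * (P * f4⁻¹)))) ∧
    (o.lt (P * f4⁻¹) (P * f3⁻¹) ↔ o.lt (f4 * P⁻¹) (P * (f3⁻¹ * (P * f4⁻¹)))) := by
  have C' := C
  obtain ⟨C0, C1, C2, C3, C4, C5, C6, C7, C8, C9⟩ := C'
  simp only [Cube] at C C0 C1 C2 C3 C4 C5 C6 C7 C8 C9
  exact ⟨o.cv hδ (Q * (f4⁻¹ * (Q * f4⁻¹))) (by simp only [hδ, δinv hδ, δone hδ, D] <;> linear_combination (0) * h3) (by first | (simp only [mul_assoc, mul_inv_rev, inv_inv, mul_inv_cancel_left, inv_mul_cancel_left, mul_inv_cancel, inv_mul_cancel, mul_one, one_mul, inv_one]; done) | simp only [mul_assoc, mul_inv_rev, inv_inv, mul_inv_cancel_left, inv_mul_cancel_left, mul_inv_cancel, inv_mul_cancel, mul_one, one_mul, inv_one, C]) (by first | (simp only [mul_assoc, mul_inv_rev, inv_inv, mul_inv_cancel_left, inv_mul_cancel_left, mul_inv_cancel, inv_mul_cancel, mul_one, one_mul, inv_one, C9]; done) | simp only [mul_assoc, mul_inv_rev, inv_inv, mul_inv_cancel_left, inv_mul_cancel_left, mul_inv_cancel, inv_mul_cancel, mul_one, one_mul, inv_one, C]),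
    o.cv hδ (Q * P⁻¹) (by simp only [hδ, δinv hδ, δone hδ, D] <;> linear_combination (0) * h3) (by first | (simp only [mul_assoc, mul_inv_rev, inv_inv, mul_inv_cancel_left, inv_mul_cancel_left, mul_inv_cancel, inv_mul_cancel, mul_one, one_mul, inv_one]; done) | simp only [mul_assoc, mul_inv_rev, inv_inv, mul_inv_cancel_left, inv_mul_cancel_left, mul_inv_cancel, inv_mul_cancel, mul_one, one_mul, inv_one, C]) (by first | (simp only [mul_assoc, mul_inv_rev, inv_inv, mul_inv_cancel_left, inv_mul_cancel_left, mul_inv_cancel, inv_mul_cancel, mul_one, one_mul, inv_one]; done) | simp only [mul_assoc, mul_inv_rev, inv_inv, mul_inv_cancel_left, inv_mul_cancel_left, mul_inv_cancel, inv_mul_cancel, mul_one, one_mul, inv_one, C]),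
    o.cv hδ (f1 * (f0⁻¹ * (P * (f0⁻¹ * (P * (f0⁻¹ * (P * f1⁻¹))))))) (by simp only [hδ, δinv hδ, δone hδ, D] <;> linear_combination (0) * h3) (by first | (simp only [mul_assoc, mul_inv_rev, inv_inv, mul_inv_cancel_left, inv_mul_cancel_left, mul_inv_cancel, inv_mul_cancel, mul_one, one_mul, inv_one, C0]; done) | simp only [mul_assoc, mul_inv_rev, inv_inv, mul_inv_cancel_left, inv_mul_cancel_left, mul_inv_cancel, inv_mul_cancel, mul_one, one_mul, inv_one, C]) (by first | (simp only [mul_assoc, mul_inv_rev, inv_inv, mul_inv_cancel_left, inv_mul_cancel_left, mul_inv_cancel, inv_mul_cancel, mul_one, one_mul, inv_one, C0]; done) | simp only [mul_assoc, mul_inv_rev, inv_inv, mul_inv_cancel_left, inv_mul_cancel_left, mul_inv_cancel, inv_mul_cancel, mul_one, one_mul, inv_one, C]),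
    o.cv hδ (P * f1⁻¹) (by simp only [hδ, δinv hδ, δone hδ, D] <;> linear_combination (0) * h3) (by first | (simp only [mul_assoc, mul_inv_rev, inv_inv, mul_inv_cancel_left, inv_mul_cancel_left, mul_inv_cancel, inv_mul_cancel, mul_one, one_mul, inv_one, C0]; done) | simp only [mul_assoc, mul_inv_rev, inv_inv, mul_inv_cancel_left, inv_mul_cancel_left, mul_inv_cancel, inv_mul_cancel, mul_one, one_mul, inv_one, C]) (by first | (simp only [mul_assoc, mul_inv_rev, inv_inv, mul_inv_cancel_left, inv_mul_cancel_left, mul_inv_cancel, inv_mul_cancel, mul_one, one_mul, inv_one, C1]; done) | simp only [mul_assoc, mul_inv_rev, inv_inv, mul_inv_cancel_left, inv_mul_cancel_left, mul_inv_cancel, inv_mul_cancel, mul_one, one_mul, inv_one, C]),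
    o.cv hδ (Q * P⁻¹) (by simp only [hδ, δinv hδ, δone hδ, D] <;> linear_combination (0) * h3) (by first | (simp only [mul_assoc, mul_inv_rev, inv_inv, mul_inv_cancel_left, inv_mul_cancel_left, mul_inv_cancel, inv_mul_cancel, mul_one, one_mul, inv_one]; done) | simp only [mul_assoc, mul_inv_rev, inv_inv, mul_inv_cancel_left, inv_mul_cancel_left, mul_inv_cancel, inv_mul_cancel, mul_one, one_mul, inv_one, C]) (by first | (simp only [mul_assoc, mul_inv_rev, inv_inv, mul_inv_cancel_left, inv_mul_cancel_left, mul_inv_cancel, inv_mul_cancel, mul_one, one_mul, inv_one]; done) | simp only [mul_assoc, mul_inv_rev, inv_inv, mul_inv_cancel_left, inv_mul_cancel_left, mul_inv_cancel, inv_mul_cancel, mul_one, one_mul, inv_one, C]),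
    o.cv hδ (Q * f1⁻¹) (by simp only [hδ, δinv hδ, δone hδ, D] <;> linear_combination (0) * h3) (by first | (simp only [mul_assoc, mul_inv_rev, inv_inv, mul_inv_cancel_left, inv_mul_cancel_left, mul_inv_cancel, inv_mul_cancel, mul_one, one_mul, inv_one]; done) | simp only [mul_assoc, mul_inv_rev, inv_inv, mul_inv_cancel_left, inv_mul_cancel_left, mul_inv_cancel, inv_mul_cancel, mul_one, one_mul, inv_one, C]) (by first | (simp only [mul_assoc, mul_inv_rev, inv_inv, mul_inv_cancel_left, inv_mul_cancel_left, mul_inv_cancel, inv_mul_cancel, mul_one, one_mul, inv_one, C4]; done) | simp only [mul_assoc, mul_inv_rev, inv_inv, mul_inv_cancel_left, inv_mul_cancel_left, mul_inv_cancel, inv_mul_cancel, mul_one, one_mul, inv_one, C]),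
    o.cv hδ (f1 * (f2⁻¹ * (P * (f2⁻¹ * (P * (f2⁻¹ * (P * f1⁻¹))))))) (by simp only [hδ, δinv hδ, δone hδ, D] <;> linear_combination (0) * h3) (by first | (simp only [mul_assoc, mul_inv_rev, inv_inv, mul_inv_cancel_left, inv_mul_cancel_left, mul_inv_cancel, inv_mul_cancel, mul_one, one_mul, inv_one, C4]; done) | simp only [mul_assoc, mul_inv_rev, inv_inv, mul_inv_cancel_left, inv_mul_cancel_left, mul_inv_cancel, inv_mul_cancel, mul_one, one_mul, inv_one, C]) (by first | (simp only [mul_assoc, mul_inv_rev, inv_inv, mul_inv_cancel_left, inv_mul_cancel_left, mul_inv_cancel, inv_mul_cancel, mul_one, one_mul, inv_one, C4]; done) | simp only [mul_assoc, mul_inv_rev, inv_inv, mul_inv_cancel_left, inv_mul_cancel_left, mul_inv_cancel, inv_mul_cancel, mul_one, one_mul, inv_one, C]),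
    o.cv hδ (1) (by simp only [hδ, δinv hδ, δone hδ, D] <;> linear_combination (-1) * h3) (by first | (simp only [mul_assoc, mul_inv_rev, inv_inv, mul_inv_cancel_left, inv_mul_cancel_left, mul_inv_cancel, inv_mul_cancel, mul_one, one_mul, inv_one]; done) | simp only [mul_assoc, mul_inv_rev, inv_inv, mul_inv_cancel_left, inv_mul_cancel_left, mul_inv_cancel, inv_mul_cancel, mul_one, one_mul, inv_one, C]) (by first | (simp only [mul_assoc, mul_inv_rev, inv_inv, mul_inv_cancel_left, inv_mul_cancel_left, mul_inv_cancel, inv_mul_cancel, mul_one, one_mul, inv_one]; done) | simp only [mul_assoc, mul_inv_rev, inv_inv, mul_inv_cancel_left, inv_mul_cancel_left, mul_inv_cancel, inv_mul_cancel, mul_one, one_mul, inv_one, C]),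
    o.cv hδ (1) (by simp only [hδ, δinv hδ, δone hδ, D] <;> linear_combination (1) * h3) (by first | (simp only [mul_assoc, mul_inv_rev, inv_inv, mul_inv_cancel_left, inv_mul_cancel_left, mul_inv_cancel, inv_mul_cancel, mul_one, one_mul, inv_one]; done) | simp only [mul_assoc, mul_inv_rev, inv_inv, mul_inv_cancel_left, inv_mul_cancel_left, mul_inv_cancel, inv_mul_cancel, mul_one, one_mul, inv_one, C]) (by first | (simp only [mul_assoc, mul_inv_rev, inv_inv, mul_inv_cancel_left, inv_mul_cancel_left, mul_inv_cancel, inv_mul_cancel, mul_one, one_mul, inv_one]; done) | simp only [mul_assoc, mul_inv_rev, inv_inv, mul_inv_cancel_left, inv_mul_cancel_left, mul_inv_cancel, inv_mul_cancel, mul_one, one_mul, inv_one, C]),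
    o.cv hδ (1) (by simp only [hδ, δinv hδ, δone hδ, D] <;> linear_combination (0) * h3) (by first | (simp only [mul_assoc, mul_inv_rev, inv_inv, mul_inv_cancel_left, inv_mul_cancel_left, mul_inv_cancel, inv_mul_cancel, mul_one, one_mul, inv_one]; done) | simp only [mul_assoc, mul_inv_rev, inv_inv, mul_inv_cancel_left, inv_mul_cancel_left, mul_inv_cancel, inv_mul_cancel, mul_one, one_mul, inv_one, C]) (by first | (simp only [mul_assoc, mul_inv_rev, inv_inv, mul_inv_cancel_left, inv_mul_cancel_left, mul_inv_cancel, inv_mul_cancel, mul_one, one_mul, inv_one, C6]; done) | simp only [mul_assoc, mul_inv_rev, inv_inv, mul_inv_cancel_left, inv_mul_cancel_left, mul_inv_cancel, inv_mul_cancel, mul_one, one_mul, inv_one, C]),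
    o.cv hδ (f2 * (P⁻¹ * (f2 * P⁻¹))) (by simp only [hδ, δinv hδ, δone hδ, D] <;> linear_combination (0) * h3) (by first | (simp only [mul_assoc, mul_inv_rev, inv_inv, mul_inv_cancel_left, inv_mul_cancel_left, mul_inv_cancel, inv_mul_cancel, mul_one, one_mul, inv_one]; done) | simp only [mul_assoc, mul_inv_rev, inv_inv, mul_inv_cancel_left, inv_mul_cancel_left, mul_inv_cancel, inv_mul_cancel, mul_one, one_mul, inv_one, C]) (by first | (simp only [mul_assoc, mul_inv_rev, inv_inv, mul_inv_cancel_left, inv_mul_cancel_left, mul_inv_cancel, inv_mul_cancel, mul_one, one_mul, inv_one, C4, C6]; done) | simp only [mul_assoc, mul_inv_rev, inv_inv, mul_inv_cancel_left, inv_mul_cancel_left, mul_inv_cancel, inv_mul_cancel, mul_one, one_mul, inv_one, C]),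
    o.cv hδ (P * f3⁻¹) (by simp only [hδ, δinv hδ, δone hδ, D] <;> linear_combination (0) * h3) (by first | (simp only [mul_assoc, mul_inv_rev, inv_inv, mul_inv_cancel_left, inv_mul_cancel_left, mul_inv_cancel, inv_mul_cancel, mul_one, one_mul, inv_one, C8]; done) | simp only [mul_assoc, mul_inv_rev, inv_inv, mul_inv_cancel_left, inv_mul_cancel_left, mul_inv_cancel, inv_mul_cancel, mul_one, one_mul, inv_one, C]) (by first | (simp only [mul_assoc, mul_inv_rev, inv_inv, mul_inv_cancel_left, inv_mul_cancel_left, mul_inv_cancel, inv_mul_cancel, mul_one, one_mul, inv_one, C6]; done) | simp only [mul_assoc, mul_inv_rev, inv_inv, mul_inv_cancel_left, inv_mul_cancel_left, mul_inv_cancel, inv_mul_cancel, mul_one, one_mul, inv_one, C]),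
    o.cv hδ (f3 * (f4⁻¹ * (P * (f4⁻¹ * (P * (f4⁻¹ * (P * f3⁻¹))))))) (by simp only [hδ, δinv hδ, δone hδ, D] <;> linear_combination (0) * h3) (by first | (simp only [mul_assoc, mul_inv_rev, inv_inv, mul_inv_cancel_left, inv_mul_cancel_left, mul_inv_cancel, inv_mul_cancel, mul_one, one_mul, inv_one, C8]; done) | simp only [mul_assoc, mul_inv_rev, inv_inv, mul_inv_cancel_left, inv_mul_cancel_left, mul_inv_cancel, inv_mul_cancel, mul_one, one_mul, inv_one, C]) (by first | (simp only [mul_assoc, mul_inv_rev, inv_inv, mul_inv_cancel_left, inv_mul_cancel_left, mul_inv_cancel, inv_mul_cancel, mul_one, one_mul, inv_one, C8]; done) | simp only [mul_assoc, mul_inv_rev, inv_inv, mul_inv_cancel_left, inv_mul_cancel_left, mul_inv_cancel, inv_mul_cancel, mul_one, one_mul, inv_one, C]),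
    o.cv hδ (Q * P⁻¹) (by simp only [hδ, δinv hδ, δone hδ, D] <;> linear_combination (0) * h3) (by first | (simp only [mul_assoc, mul_inv_rev, inv_inv, mul_inv_cancel_left, inv_mul_cancel_left, mul_inv_cancel, inv_mul_cancel, mul_one, one_mul, inv_one]; done) | simp only [mul_assoc, mul_inv_rev, inv_inv, mul_inv_cancel_left, inv_mul_cancel_left, mul_inv_cancel, inv_mul_cancel, mul_one, one_mul, inv_one, C]) (by first | (simp only [mul_assoc, mul_inv_rev, inv_inv, mul_inv_cancel_left, inv_mul_cancel_left, mul_inv_cancel, inv_mul_cancel, mul_one, one_mul, inv_one]; done) | simp only [mul_assoc, mul_inv_rev, inv_inv, mul_inv_cancel_left, inv_mul_cancel_left, mul_inv_cancel, inv_mul_cancel, mul_one, one_mul, inv_one, C]),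
    o.cv hδ (1) (by simp only [hδ, δinv hδ, δone hδ, D] <;> linear_combination (0) * h3) (by first | (simp only [mul_assoc, mul_inv_rev, inv_inv, mul_inv_cancel_left, inv_mul_cancel_left, mul_inv_cancel, inv_mul_cancel, mul_one, one_mul, inv_one]; done) | simp only [mul_assoc, mul_inv_rev, inv_inv, mul_inv_cancel_left, inv_mul_cancel_left, mul_inv_cancel, inv_mul_cancel, mul_one, one_mul, inv_one, C]) (by first | (simp only [mul_assoc, mul_inv_rev, inv_inv, mul_inv_cancel_left, inv_mul_cancel_left, mul_inv_cancel, inv_mul_cancel, mul_one, one_mul, inv_one, C8]; done) | simp only [mul_assoc, mul_inv_rev, inv_inv, mul_inv_cancel_left, inv_mul_cancel_left, mul_inv_cancel, inv_mul_cancel, mul_one, one_mul, inv_one, C]),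
    o.cv hδ (f4 * (f0⁻¹ * (P * (f0⁻¹ * (P * (f0⁻¹ * (P * f4⁻¹))))))) (by simp only [hδ, δinv hδ, δone hδ, D] <;> linear_combination (0) * h3) (by first | (simp only [mul_assoc, mul_inv_rev, inv_inv, mul_inv_cancel_left, inv_mul_cancel_left, mul_inv_cancel, inv_mul_cancel, mul_one, one_mul, inv_one, C0]; done) | simp only [mul_assoc, mul_inv_rev, inv_inv, mul_inv_cancel_left, inv_mul_cancel_left, mul_inv_cancel, inv_mul_cancel, mul_one, one_mul, inv_one, C]) (by first | (simp only [mul_assoc, mul_inv_rev, inv_inv, mul_inv_cancel_left, inv_mul_cancel_left, mul_inv_cancel, inv_mul_cancel, mul_one, one_mul, inv_one, C0]; done) | simp only [mul_assoc, mul_inv_rev, inv_inv, mul_inv_cancel_left, inv_mul_cancel_left, mul_inv_cancel, inv_mul_cancel, mul_one, one_mul, inv_one, C]),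
    o.cv hδ (P * f4⁻¹) (by simp only [hδ, δinv hδ, δone hδ, D] <;> linear_combination (0) * h3) (by first | (simp only [mul_assoc, mul_inv_rev, inv_inv, mul_inv_cancel_left, inv_mul_cancel_left, mul_inv_cancel, inv_mul_cancel, mul_one, one_mul, inv_one, C0]; done) | simp only [mul_assoc, mul_inv_rev, inv_inv, mul_inv_cancel_left, inv_mul_cancel_left, mul_inv_cancel, inv_mul_cancel, mul_one, one_mul, inv_one, C]) (by first | (simp only [mul_assoc, mul_inv_rev, inv_inv, mul_inv_cancel_left, inv_mul_cancel_left, mul_inv_cancel, inv_mul_cancel, mul_one, one_mul, inv_one, C8]; done) | simp only [mul_assoc, mul_inv_rev, inv_inv, mul_inv_cancel_left, inv_mul_cancel_left, mul_inv_cancel, inv_mul_cancel, mul_one, one_mul, inv_one, C]),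
    o.cv hδ (Q * P⁻¹) (by simp only [hδ, δinv hδ, δone hδ, D] <;> linear_combination (0) * h3) (by first | (simp only [mul_assoc, mul_inv_rev, inv_inv, mul_inv_cancel_left, inv_mul_cancel_left, mul_inv_cancel, inv_mul_cancel, mul_one, one_mul, inv_one]; done) | simp only [mul_assoc, mul_inv_rev, inv_inv, mul_inv_cancel_left, inv_mul_cancel_left, mul_inv_cancel, inv_mul_cancel, mul_one, one_mul, inv_one, C]) (by first | (simp only [mul_assoc, mul_inv_rev, inv_inv, mul_inv_cancel_left, inv_mul_cancel_left, mul_inv_cancel, inv_mul_cancel, mul_one, one_mul, inv_one]; done) | simp only [mul_assoc, mul_inv_rev, inv_inv, mul_inv_cancel_left, inv_mul_cancel_left, mul_inv_cancel, inv_mul_cancel, mul_one, one_mul, inv_one, C]),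
    o.cv hδ (1) (by simp only [hδ, δinv hδ, δone hδ, D] <;> linear_combination (0) * h3) (by first | (simp only [mul_assoc, mul_inv_rev, inv_inv, mul_inv_cancel_left, inv_mul_cancel_left, mul_inv_cancel, inv_mul_cancel, mul_one, one_mul, inv_one]; done) | simp only [mul_assoc, mul_inv_rev, inv_inv, mul_inv_cancel_left, inv_mul_cancel_left, mul_inv_cancel, inv_mul_cancel, mul_one, one_mul, inv_one, C]) (by first | (simp only [mul_assoc, mul_inv_rev, inv_inv, mul_inv_cancel_left, inv_mul_cancel_left, mul_inv_cancel, inv_mul_cancel, mul_one, one_mul, inv_one, C6]; done) | simp only [mul_assoc, mul_inv_rev, inv_inv, mul_inv_cancel_left, inv_mul_cancel_left, mul_inv_cancel, inv_mul_cancel, mul_one, one_mul, inv_one, C]),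
    o.cv hδ (f4 * (P⁻¹ * (f4 * P⁻¹))) (by simp only [hδ, δinv hδ, δone hδ, D] <;> linear_combination (0) * h3) (by first | (simp only [mul_assoc, mul_inv_rev, inv_inv, mul_inv_cancel_left, inv_mul_cancel_left, mul_inv_cancel, inv_mul_cancel, mul_one, one_mul, inv_one]; done) | simp only [mul_assoc, mul_inv_rev, inv_inv, mul_inv_cancel_left, inv_mul_cancel_left, mul_inv_cancel, inv_mul_cancel, mul_one, one_mul, inv_one, C]) (by first | (simp only [mul_assoc, mul_inv_rev, inv_inv, mul_inv_cancel_left, inv_mul_cancel_left, mul_inv_cancel, inv_mul_cancel, mul_one, one_mul, inv_one, C6, C8]; done) | simp only [mul_assoc, mul_inv_rev, inv_inv, mul_inv_cancel_left, inv_mul_cancel_left, mul_inv_cancel, inv_mul_cancel, mul_one, one_mul, inv_one, C])⟩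

theorem close_AAAAA_k17 {G : Type*} [Group G] {δ : G → ZMod 3} (hδ : ∀ u v, δ (u * v) = δ u + δ v) (o : Pre δ)
    {P Q f0 f1 f2 f3 f4 : G} {e : ZMod 3} (h3 : 3 * e = 0)
    (D : δ P = e ∧ δ Q = -e ∧ δ f0 = 0 ∧ δ f1 = 0 ∧ δ f2 = 0 ∧ δ f3 = 0 ∧ δ f4 = 0)
    (C : Cube P f0 ∧ Cube P f1 ∧ Cube Q f0 ∧ Cube Q f1 ∧ Cube P f2 ∧ Cube Q f2 ∧ Cube P f3 ∧ Cube Q f3 ∧ Cube P f4 ∧ Cube Q f4) :
    (o.lt (P * f1⁻¹) (P * f0⁻¹) ↔ o.lt (P * Q⁻¹) (P * (f0⁻¹ * (f1 * Q⁻¹)))) ∧
    (o.lt (f0 * (P⁻¹ * (f0 * f2⁻¹))) (f0 * (P⁻¹ * (f0 * f3⁻¹))) ↔ o.lt (P * (f0⁻¹ * (P * f2⁻¹))) (P * (f0⁻¹ * (P * f3⁻¹)))) ∧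
    (o.lt (f0 * (P⁻¹ * (f0 * f2⁻¹))) (P * (f0⁻¹ * (f3 * Q⁻¹))) ↔ o.lt (P * (f0⁻¹ * (P * f2⁻¹))) (P * (f0⁻¹ * (f3 * Q⁻¹)))) ∧
    (o.lt (P * (f0⁻¹ * (f3 * Q⁻¹))) (f0 * (P⁻¹ * (f0 * f3⁻¹))) ↔ o.lt (P * (f0⁻¹ * (f3 * Q⁻¹))) (P * (f0⁻¹ * (P * f3⁻¹)))) ∧
    (o.lt (f0 * (P⁻¹ * (f0 * f2⁻¹))) (f0 * (P⁻¹ * (f0 * f4⁻¹))) ↔ o.lt (P * (f0⁻¹ * (P * f2⁻¹))) (P * (f0⁻¹ * (P * f4⁻¹)))) ∧
    (o.lt (P * (f0⁻¹ * (f3 * Q⁻¹))) (f0 * (P⁻¹ * (f0 * f4⁻¹))) ↔ o.lt (P * (f0⁻¹ * (f3 * Q⁻¹))) (P * (f0⁻¹ * (P * f4⁻¹)))) ∧
    (o.lt (f0 * (P⁻¹ * (f0 * f2⁻¹))) (P * (f0⁻¹ * (Q * P⁻¹))) ↔ o.lt (P * (f0⁻¹ * (P * f2⁻¹))) (P * (f0⁻¹ * (Q * P⁻¹)))) ∧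
    (o.lt (P * (f0⁻¹ * (Q * P⁻¹))) (f0 * (P⁻¹ * (f0 * f2⁻¹))) ↔ o.lt (P * (f0⁻¹ * (Q * P⁻¹))) (P * (f0⁻¹ * (P * f2⁻¹)))) ∧
    (o.lt (f0 * (P⁻¹ * (f0 * f3⁻¹))) (f0 * (P⁻¹ * (f0 * f2⁻¹))) ↔ o.lt (P * (f0⁻¹ * (P * f3⁻¹))) (P * (f0⁻¹ * (P * f2⁻¹)))) ∧
    (o.lt (P * (f0⁻¹ * (f3 * P⁻¹))) (P * (f0⁻¹ * (Q * f3⁻¹))) ↔ o.lt (P * (f0⁻¹ * (P * f3⁻¹))) (P * (f0⁻¹ * (Q * P⁻¹)))) ∧
    (o.lt (f0 * (P⁻¹ * (f0 * f3⁻¹))) (P * (f0⁻¹ * (f3 * Q⁻¹))) ↔ o.lt (P * (f0⁻¹ * (P * f3⁻¹))) (P * (f0⁻¹ * (f3 * Q⁻¹)))) ∧
    (o.lt (P * f0⁻¹) (P * f3⁻¹) ↔ o.lt (P * (f0⁻¹ * (f3 * Q⁻¹))) (P * Q⁻¹)) ∧
    (o.lt (P * Q⁻¹) (f0 * (P⁻¹ * (f0 * f4⁻¹))) ↔ o.lt (P * Q⁻¹) (P * (f0⁻¹ * (P * f4⁻¹)))) ∧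
    (o.lt (P * (f0⁻¹ * (Q * P⁻¹))) (f0 * (P⁻¹ * (f0 * f3⁻¹))) ↔ o.lt (P * (f0⁻¹ * (Q * P⁻¹))) (P * (f0⁻¹ * (P * f3⁻¹)))) ∧
    (o.lt (P * (f0⁻¹ * (Q * P⁻¹))) (f0 * (P⁻¹ * (f0 * f4⁻¹))) ↔ o.lt (P * (f0⁻¹ * (Q * P⁻¹))) (P * (f0⁻¹ * (P * f4⁻¹)))) ∧
    (o.lt (P * (f0⁻¹ * (Q * f1⁻¹))) (P * (f0⁻¹ * (Q * f2⁻¹))) ↔ o.lt (P * (f0⁻¹ * (Q * f1⁻¹))) (P * (f0⁻¹ * (Q * f2⁻¹)))) ∧
    (o.lt (P * f0⁻¹) (f1 * Q⁻¹) ↔ o.lt (P * (f0⁻¹ * (Q * f1⁻¹))) (1)) ∧
    (o.lt (f2 * Q⁻¹) (P * f0⁻¹) ↔ o.lt (1) (P * (f0⁻¹ * (Q * f2⁻¹)))) ∧
    (o.lt (P * (f0⁻¹ * (f1 * Q⁻¹))) (f0 * (P⁻¹ * (f0 * f1⁻¹))) ↔ o.lt (P * (f0⁻¹ * (Q * f1⁻¹))) (P * (f0⁻¹ * (P * Q⁻¹)))) ∧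
    (o.lt (Q * f0⁻¹) (f0 * P⁻¹) ↔ o.lt (1) (P * (f0⁻¹ * (P * Q⁻¹)))) := by
  have C' := C
  obtain ⟨C0, C1, C2, C3, C4, C5, C6, C7, C8, C9⟩ := C'
  simp only [Cube] at C C0 C1 C2 C3 C4 C5 C6 C7 C8 C9
  exact ⟨o.cv hδ (f1 * Q⁻¹) (by simp only [hδ, δinv hδ, δone hδ, D] <;> linear_combination (0) * h3) (by first | (simp only [mul_assoc, mul_inv_rev, inv_inv, mul_inv_cancel_left, inv_mul_cancel_left, mul_inv_cancel, inv_mul_cancel, mul_one, one_mul, inv_one]; done) | simp only [mul_assoc, mul_inv_rev, inv_inv, mul_inv_cancel_left, inv_mul_cancel_left, mul_inv_cancel, inv_mul_cancel, mul_one, one_mul, inv_one, C]) (by first | (simp only [mul_assoc, mul_inv_rev, inv_inv, mul_inv_cancel_left, inv_mul_cancel_left, mul_inv_cancel, inv_mul_cancel, mul_one, one_mul, inv_one]; done) | simp only [mul_assoc, mul_inv_rev, inv_inv, mul_inv_cancel_left, inv_mul_cancel_left, mul_inv_cancel, inv_mul_cancel, mul_one, one_mul, inv_one, C]),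
    o.cv hδ (f2 * (f0⁻¹ * (P * (f0⁻¹ * (P * (f0⁻¹ * (P * f2⁻¹))))))) (by simp only [hδ, δinv hδ, δone hδ, D] <;> linear_combination (0) * h3) (by first | (simp only [mul_assoc, mul_inv_rev, inv_inv, mul_inv_cancel_left, inv_mul_cancel_left, mul_inv_cancel, inv_mul_cancel, mul_one, one_mul, inv_one, C0]; done) | simp only [mul_assoc, mul_inv_rev, inv_inv, mul_inv_cancel_left, inv_mul_cancel_left, mul_inv_cancel, inv_mul_cancel, mul_one, one_mul, inv_one, C]) (by first | (simp only [mul_assoc, mul_inv_rev, inv_inv, mul_inv_cancel_left, inv_mul_cancel_left, mul_inv_cancel, inv_mul_cancel, mul_one, one_mul, inv_one, C0]; done) | simp only [mul_assoc, mul_inv_rev, inv_inv, mul_inv_cancel_left, inv_mul_cancel_left, mul_inv_cancel, inv_mul_cancel, mul_one, one_mul, inv_one, C]),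
    o.cv hδ (f2 * (f0⁻¹ * (P * (f0⁻¹ * (P * (f0⁻¹ * (P * f2⁻¹))))))) (by simp only [hδ, δinv hδ, δone hδ, D] <;> linear_combination (-1) * h3) (by first | (simp only [mul_assoc, mul_inv_rev, inv_inv, mul_inv_cancel_left, inv_mul_cancel_left, mul_inv_cancel, inv_mul_cancel, mul_one, one_mul, inv_one, C0]; done) | simp only [mul_assoc, mul_inv_rev, inv_inv, mul_inv_cancel_left, inv_mul_cancel_left, mul_inv_cancel, inv_mul_cancel, mul_one, one_mul, inv_one, C]) (by first | (simp only [mul_assoc, mul_inv_rev, inv_inv, mul_inv_cancel_left, inv_mul_cancel_left, mul_inv_cancel, inv_mul_cancel, mul_one, one_mul, inv_one, C0]; done) | simp only [mul_assoc, mul_inv_rev, inv_inv, mul_inv_cancel_left, inv_mul_cancel_left, mul_inv_cancel, inv_mul_cancel, mul_one, one_mul, inv_one, C]),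
    o.cv hδ (1) (by simp only [hδ, δinv hδ, δone hδ, D] <;> linear_combination (1) * h3) (by first | (simp only [mul_assoc, mul_inv_rev, inv_inv, mul_inv_cancel_left, inv_mul_cancel_left, mul_inv_cancel, inv_mul_cancel, mul_one, one_mul, inv_one]; done) | simp only [mul_assoc, mul_inv_rev, inv_inv, mul_inv_cancel_left, inv_mul_cancel_left, mul_inv_cancel, inv_mul_cancel, mul_one, one_mul, inv_one, C]) (by first | (simp only [mul_assoc, mul_inv_rev, inv_inv, mul_inv_cancel_left, inv_mul_cancel_left, mul_inv_cancel, inv_mul_cancel, mul_one, one_mul, inv_one, C0]; done) | simp only [mul_assoc, mul_inv_rev, inv_inv, mul_inv_cancel_left, inv_mul_cancel_left, mul_inv_cancel, inv_mul_cancel, mul_one, one_mul, inv_one, C]),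
    o.cv hδ (f2 * (f0⁻¹ * (P * (f0⁻¹ * (P * (f0⁻¹ * (P * f2⁻¹))))))) (by simp only [hδ, δinv hδ, δone hδ, D] <;> linear_combination (0) * h3) (by first | (simp only [mul_assoc, mul_inv_rev, inv_inv, mul_inv_cancel_left, inv_mul_cancel_left, mul_inv_cancel, inv_mul_cancel, mul_one, one_mul, inv_one, C0]; done) | simp only [mul_assoc, mul_inv_rev, inv_inv, mul_inv_cancel_left, inv_mul_cancel_left, mul_inv_cancel, inv_mul_cancel, mul_one, one_mul, inv_one, C]) (by first | (simp only [mul_assoc, mul_inv_rev, inv_inv, mul_inv_cancel_left, inv_mul_cancel_left, mul_inv_cancel, inv_mul_cancel, mul_one, one_mul, inv_one, C0]; done) | simp only [mul_assoc, mul_inv_rev, inv_inv, mul_inv_cancel_left, inv_mul_cancel_left, mul_inv_cancel, inv_mul_cancel, mul_one, one_mul, inv_one, C]),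
    o.cv hδ (1) (by simp only [hδ, δinv hδ, δone hδ, D] <;> linear_combination (1) * h3) (by first | (simp only [mul_assoc, mul_inv_rev, inv_inv, mul_inv_cancel_left, inv_mul_cancel_left, mul_inv_cancel, inv_mul_cancel, mul_one, one_mul, inv_one]; done) | simp only [mul_assoc, mul_inv_rev, inv_inv, mul_inv_cancel_left, inv_mul_cancel_left, mul_inv_cancel, inv_mul_cancel, mul_one, one_mul, inv_one, C]) (by first | (simp only [mul_assoc, mul_inv_rev, inv_inv, mul_inv_cancel_left, inv_mul_cancel_left, mul_inv_cancel, inv_mul_cancel, mul_one, one_mul, inv_one, C0]; done) | simp only [mul_assoc, mul_inv_rev, inv_inv, mul_inv_cancel_left, inv_mul_cancel_left, mul_inv_cancel, inv_mul_cancel, mul_one, one_mul, inv_one, C]),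
    o.cv hδ (f2 * (f0⁻¹ * (P * (f0⁻¹ * (P * (f0⁻¹ * (P * f2⁻¹))))))) (by simp only [hδ, δinv hδ, δone hδ, D] <;> linear_combination (0) * h3) (by first | (simp only [mul_assoc, mul_inv_rev, inv_inv, mul_inv_cancel_left, inv_mul_cancel_left, mul_inv_cancel, inv_mul_cancel, mul_one, one_mul, inv_one, C0]; done) | simp only [mul_assoc, mul_inv_rev, inv_inv, mul_inv_cancel_left, inv_mul_cancel_left, mul_inv_cancel, inv_mul_cancel, mul_one, one_mul, inv_one, C]) (by first | (simp only [mul_assoc, mul_inv_rev, inv_inv, mul_inv_cancel_left, inv_mul_cancel_left, mul_inv_cancel, inv_mul_cancel, mul_one, one_mul, inv_one, C0]; done) | simp only [mul_assoc, mul_inv_rev, inv_inv, mul_inv_cancel_left, inv_mul_cancel_left, mul_inv_cancel, inv_mul_cancel, mul_one, one_mul, inv_one, C]),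
    o.cv hδ (1) (by simp only [hδ, δinv hδ, δone hδ, D] <;> linear_combination (0) * h3) (by first | (simp only [mul_assoc, mul_inv_rev, inv_inv, mul_inv_cancel_left, inv_mul_cancel_left, mul_inv_cancel, inv_mul_cancel, mul_one, one_mul, inv_one]; done) | simp only [mul_assoc, mul_inv_rev, inv_inv, mul_inv_cancel_left, inv_mul_cancel_left, mul_inv_cancel, inv_mul_cancel, mul_one, one_mul, inv_one, C]) (by first | (simp only [mul_assoc, mul_inv_rev, inv_inv, mul_inv_cancel_left, inv_mul_cancel_left, mul_inv_cancel, inv_mul_cancel, mul_one, one_mul, inv_one, C0]; done) | simp only [mul_assoc, mul_inv_rev, inv_inv, mul_inv_cancel_left, inv_mul_cancel_left, mul_inv_cancel, inv_mul_cancel, mul_one, one_mul, inv_one, C]),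
    o.cv hδ (f3 * (f0⁻¹ * (P * (f0⁻¹ * (P * (f0⁻¹ * (P * f3⁻¹))))))) (by simp only [hδ, δinv hδ, δone hδ, D] <;> linear_combination (0) * h3) (by first | (simp only [mul_assoc, mul_inv_rev, inv_inv, mul_inv_cancel_left, inv_mul_cancel_left, mul_inv_cancel, inv_mul_cancel, mul_one, one_mul, inv_one, C0]; done) | simp only [mul_assoc, mul_inv_rev, inv_inv, mul_inv_cancel_left, inv_mul_cancel_left, mul_inv_cancel, inv_mul_cancel, mul_one, one_mul, inv_one, C]) (by first | (simp only [mul_assoc, mul_inv_rev, inv_inv, mul_inv_cancel_left, inv_mul_cancel_left, mul_inv_cancel, inv_mul_cancel, mul_one, one_mul, inv_one, C0]; done) | simp only [mul_assoc, mul_inv_rev, inv_inv, mul_inv_cancel_left, inv_mul_cancel_left, mul_inv_cancel, inv_mul_cancel, mul_one, one_mul, inv_one, C]),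
    o.cv hδ (P * (f3⁻¹ * (P * f3⁻¹))) (by simp only [hδ, δinv hδ, δone hδ, D] <;> linear_combination (0) * h3) (by first | (simp only [mul_assoc, mul_inv_rev, inv_inv, mul_inv_cancel_left, inv_mul_cancel_left, mul_inv_cancel, inv_mul_cancel, mul_one, one_mul, inv_one, C0]; done) | simp only [mul_assoc, mul_inv_rev, inv_inv, mul_inv_cancel_left, inv_mul_cancel_left, mul_inv_cancel, inv_mul_cancel, mul_one, one_mul, inv_one, C]) (by first | (simp only [mul_assoc, mul_inv_rev, inv_inv, mul_inv_cancel_left, inv_mul_cancel_left, mul_inv_cancel, inv_mul_cancel, mul_one, one_mul, inv_one, C6]; done) | simp only [mul_assoc, mul_inv_rev, inv_inv, mul_inv_cancel_left, inv_mul_cancel_left, mul_inv_cancel, inv_mul_cancel, mul_one, one_mul, inv_one, C]),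
    o.cv hδ (f3 * (f0⁻¹ * (P * (f0⁻¹ * (P * (f0⁻¹ * (P * f3⁻¹))))))) (by simp only [hδ, δinv hδ, δone hδ, D] <;> linear_combination (-1) * h3) (by first | (simp only [mul_assoc, mul_inv_rev, inv_inv, mul_inv_cancel_left, inv_mul_cancel_left, mul_inv_cancel, inv_mul_cancel, mul_one, one_mul, inv_one, C0]; done) | simp only [mul_assoc, mul_inv_rev, inv_inv, mul_inv_cancel_left, inv_mul_cancel_left, mul_inv_cancel, inv_mul_cancel, mul_one, one_mul, inv_one, C]) (by first | (simp only [mul_assoc, mul_inv_rev, inv_inv, mul_inv_cancel_left, inv_mul_cancel_left, mul_inv_cancel, inv_mul_cancel, mul_one, one_mul, inv_one, C0]; done) | simp only [mul_assoc, mul_inv_rev, inv_inv, mul_inv_cancel_left, inv_mul_cancel_left, mul_inv_cancel, inv_mul_cancel, mul_one, one_mul, inv_one, C]),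
    o.cv hδ (f3 * Q⁻¹) (by simp only [hδ, δinv hδ, δone hδ, D] <;> linear_combination (0) * h3) (by first | (simp only [mul_assoc, mul_inv_rev, inv_inv, mul_inv_cancel_left, inv_mul_cancel_left, mul_inv_cancel, inv_mul_cancel, mul_one, one_mul, inv_one]; done) | simp only [mul_assoc, mul_inv_rev, inv_inv, mul_inv_cancel_left, inv_mul_cancel_left, mul_inv_cancel, inv_mul_cancel, mul_one, one_mul, inv_one, C]) (by first | (simp only [mul_assoc, mul_inv_rev, inv_inv, mul_inv_cancel_left, inv_mul_cancel_left, mul_inv_cancel, inv_mul_cancel, mul_one, one_mul, inv_one]; done) | simp only [mul_assoc, mul_inv_rev, inv_inv, mul_inv_cancel_left, inv_mul_cancel_left, mul_inv_cancel, inv_mul_cancel, mul_one, one_mul, inv_one, C]),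
    o.cv hδ (1) (by simp only [hδ, δinv hδ, δone hδ, D] <;> linear_combination (1) * h3) (by first | (simp only [mul_assoc, mul_inv_rev, inv_inv, mul_inv_cancel_left, inv_mul_cancel_left, mul_inv_cancel, inv_mul_cancel, mul_one, one_mul, inv_one]; done) | simp only [mul_assoc, mul_inv_rev, inv_inv, mul_inv_cancel_left, inv_mul_cancel_left, mul_inv_cancel, inv_mul_cancel, mul_one, one_mul, inv_one, C]) (by first | (simp only [mul_assoc, mul_inv_rev, inv_inv, mul_inv_cancel_left, inv_mul_cancel_left, mul_inv_cancel, inv_mul_cancel, mul_one, one_mul, inv_one, C0]; done) | simp only [mul_assoc, mul_inv_rev, inv_inv, mul_inv_cancel_left, inv_mul_cancel_left, mul_inv_cancel, inv_mul_cancel, mul_one, one_mul, inv_one, C]),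
    o.cv hδ (1) (by simp only [hδ, δinv hδ, δone hδ, D] <;> linear_combination (0) * h3) (by first | (simp only [mul_assoc, mul_inv_rev, inv_inv, mul_inv_cancel_left, inv_mul_cancel_left, mul_inv_cancel, inv_mul_cancel, mul_one, one_mul, inv_one]; done) | simp only [mul_assoc, mul_inv_rev, inv_inv, mul_inv_cancel_left, inv_mul_cancel_left, mul_inv_cancel, inv_mul_cancel, mul_one, one_mul, inv_one, C]) (by first | (simp only [mul_assoc, mul_inv_rev, inv_inv, mul_inv_cancel_left, inv_mul_cancel_left, mul_inv_cancel, inv_mul_cancel, mul_one, one_mul, inv_one, C0]; done) | simp only [mul_assoc, mul_inv_rev, inv_inv, mul_inv_cancel_left, inv_mul_cancel_left, mul_inv_cancel, inv_mul_cancel, mul_one, one_mul, inv_one, C]),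
    o.cv hδ (1) (by simp only [hδ, δinv hδ, δone hδ, D] <;> linear_combination (0) * h3) (by first | (simp only [mul_assoc, mul_inv_rev, inv_inv, mul_inv_cancel_left, inv_mul_cancel_left, mul_inv_cancel, inv_mul_cancel, mul_one, one_mul, inv_one]; done) | simp only [mul_assoc, mul_inv_rev, inv_inv, mul_inv_cancel_left, inv_mul_cancel_left, mul_inv_cancel, inv_mul_cancel, mul_one, one_mul, inv_one, C]) (by first | (simp only [mul_assoc, mul_inv_rev, inv_inv, mul_inv_cancel_left, inv_mul_cancel_left, mul_inv_cancel, inv_mul_cancel, mul_one, one_mul, inv_one, C0]; done) | simp only [mul_assoc, mul_inv_rev, inv_inv, mul_inv_cancel_left, inv_mul_cancel_left, mul_inv_cancel, inv_mul_cancel, mul_one, one_mul, inv_one, C]),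
    o.cv hδ (1) (by simp only [hδ, δinv hδ, δone hδ, D] <;> linear_combination (0) * h3) (by first | (simp only [mul_assoc, mul_inv_rev, inv_inv, mul_inv_cancel_left, inv_mul_cancel_left, mul_inv_cancel, inv_mul_cancel, mul_one, one_mul, inv_one]; done) | simp only [mul_assoc, mul_inv_rev, inv_inv, mul_inv_cancel_left, inv_mul_cancel_left, mul_inv_cancel, inv_mul_cancel, mul_one, one_mul, inv_one, C]) (by first | (simp only [mul_assoc, mul_inv_rev, inv_inv, mul_inv_cancel_left, inv_mul_cancel_left, mul_inv_cancel, inv_mul_cancel, mul_one, one_mul, inv_one]; done) | simp only [mul_assoc, mul_inv_rev, inv_inv, mul_inv_cancel_left, inv_mul_cancel_left, mul_inv_cancel, inv_mul_cancel, mul_one, one_mul, inv_one, C]),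
    o.cv hδ (Q * f1⁻¹) (by simp only [hδ, δinv hδ, δone hδ, D] <;> linear_combination (0) * h3) (by first | (simp only [mul_assoc, mul_inv_rev, inv_inv, mul_inv_cancel_left, inv_mul_cancel_left, mul_inv_cancel, inv_mul_cancel, mul_one, one_mul, inv_one]; done) | simp only [mul_assoc, mul_inv_rev, inv_inv, mul_inv_cancel_left, inv_mul_cancel_left, mul_inv_cancel, inv_mul_cancel, mul_one, one_mul, inv_one, C]) (by first | (simp only [mul_assoc, mul_inv_rev, inv_inv, mul_inv_cancel_left, inv_mul_cancel_left, mul_inv_cancel, inv_mul_cancel, mul_one, one_mul, inv_one]; done) | simp only [mul_assoc, mul_inv_rev, inv_inv, mul_inv_cancel_left, inv_mul_cancel_left, mul_inv_cancel, inv_mul_cancel, mul_one, one_mul, inv_one, C]),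
    o.cv hδ (Q * f2⁻¹) (by simp only [hδ, δinv hδ, δone hδ, D] <;> linear_combination (0) * h3) (by first | (simp only [mul_assoc, mul_inv_rev, inv_inv, mul_inv_cancel_left, inv_mul_cancel_left, mul_inv_cancel, inv_mul_cancel, mul_one, one_mul, inv_one]; done) | simp only [mul_assoc, mul_inv_rev, inv_inv, mul_inv_cancel_left, inv_mul_cancel_left, mul_inv_cancel, inv_mul_cancel, mul_one, one_mul, inv_one, C]) (by first | (simp only [mul_assoc, mul_inv_rev, inv_inv, mul_inv_cancel_left, inv_mul_cancel_left, mul_inv_cancel, inv_mul_cancel, mul_one, one_mul, inv_one]; done) | simp only [mul_assoc, mul_inv_rev, inv_inv, mul_inv_cancel_left, inv_mul_cancel_left, mul_inv_cancel, inv_mul_cancel, mul_one, one_mul, inv_one, C]),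
    o.cv hδ (Q * (f1⁻¹ * (Q * f1⁻¹))) (by simp only [hδ, δinv hδ, δone hδ, D] <;> linear_combination (1) * h3) (by first | (simp only [mul_assoc, mul_inv_rev, inv_inv, mul_inv_cancel_left, inv_mul_cancel_left, mul_inv_cancel, inv_mul_cancel, mul_one, one_mul, inv_one]; done) | simp only [mul_assoc, mul_inv_rev, inv_inv, mul_inv_cancel_left, inv_mul_cancel_left, mul_inv_cancel, inv_mul_cancel, mul_one, one_mul, inv_one, C]) (by first | (simp only [mul_assoc, mul_inv_rev, inv_inv, mul_inv_cancel_left, inv_mul_cancel_left, mul_inv_cancel, inv_mul_cancel, mul_one, one_mul, inv_one, C0, C3]; done) | simp only [mul_assoc, mul_inv_rev, inv_inv, mul_inv_cancel_left, inv_mul_cancel_left, mul_inv_cancel, inv_mul_cancel, mul_one, one_mul, inv_one, C]),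
    o.cv hδ (f0 * Q⁻¹) (by simp only [hδ, δinv hδ, δone hδ, D] <;> linear_combination (0) * h3) (by first | (simp only [mul_assoc, mul_inv_rev, inv_inv, mul_inv_cancel_left, inv_mul_cancel_left, mul_inv_cancel, inv_mul_cancel, mul_one, one_mul, inv_one]; done) | simp only [mul_assoc, mul_inv_rev, inv_inv, mul_inv_cancel_left, inv_mul_cancel_left, mul_inv_cancel, inv_mul_cancel, mul_one, one_mul, inv_one, C]) (by first | (simp only [mul_assoc, mul_inv_rev, inv_inv, mul_inv_cancel_left, inv_mul_cancel_left, mul_inv_cancel, inv_mul_cancel, mul_one, one_mul, inv_one, C0]; done) | simp only [mul_assoc, mul_inv_rev, inv_inv, mul_inv_cancel_left, inv_mul_cancel_left, mul_inv_cancel, inv_mul_cancel, mul_one, one_mul, inv_one, C])⟩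

theorem close_AAAAA_k18 {G : Type*} [Group G] {δ : G → ZMod 3} (hδ : ∀ u v, δ (u * v) = δ u + δ v) (o : Pre δ)
    {P Q f0 f1 f2 f3 f4 : G} {e : ZMod 3} (h3 : 3 * e = 0)
    (D : δ P = e ∧ δ Q = -e ∧ δ f0 = 0 ∧ δ f1 = 0 ∧ δ f2 = 0 ∧ δ f3 = 0 ∧ δ f4 = 0)
    (C : Cube P f0 ∧ Cube P f1 ∧ Cube Q f0 ∧ Cube Q f1 ∧ Cube P f2 ∧ Cube Q f2 ∧ Cube P f3 ∧ Cube Q f3 ∧ Cube P f4 ∧ Cube Q f4) :
    (o.lt (P * (f0⁻¹ * (f2 * P⁻¹))) (P * (f0⁻¹ * (f1 * P⁻¹))) ↔ o.lt (P * (f0⁻¹ * (f2 * P⁻¹))) (P * (f0⁻¹ * (f1 * P⁻¹)))) ∧
    (o.lt (f0 * (P⁻¹ * (f0 * f2⁻¹))) (P * (f0⁻¹ * (Q * P⁻¹))) ↔ o.lt (P * (f0⁻¹ * (f2 * P⁻¹))) (P * (f0⁻¹ * (Q * f2⁻¹)))) ∧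
    (o.lt (P * (f0⁻¹ * (Q * f2⁻¹))) (P * (f0⁻¹ * (f1 * P⁻¹))) ↔ o.lt (P * (f0⁻¹ * (Q * f2⁻¹))) (P * (f0⁻¹ * (f1 * P⁻¹)))) ∧
    (o.lt (P * (f0⁻¹ * (f3 * P⁻¹))) (P * (f0⁻¹ * (Q * f3⁻¹))) ↔ o.lt (P * (f0⁻¹ * (f3 * P⁻¹))) (P * (f0⁻¹ * (Q * f3⁻¹)))) ∧
    (o.lt (P * f0⁻¹) (P * f3⁻¹) ↔ o.lt (P * (f0⁻¹ * (f3 * P⁻¹))) (1)) ∧
    (o.lt (f3 * Q⁻¹) (P * f0⁻¹) ↔ o.lt (1) (P * (f0⁻¹ * (Q * f3⁻¹)))) ∧
    (o.lt (P * (f0⁻¹ * (f3 * P⁻¹))) (P * (f0⁻¹ * (f4 * P⁻¹))) ↔ o.lt (P * (f0⁻¹ * (f3 * P⁻¹))) (P * (f0⁻¹ * (f4 * P⁻¹)))) ∧
    (o.lt (P * (f0⁻¹ * (f3 * P⁻¹))) (P * (f0⁻¹ * (Q * f4⁻¹))) ↔ o.lt (P * (f0⁻¹ * (f3 * P⁻¹))) (P * (f0⁻¹ * (Q * f4⁻¹)))) ∧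
    (o.lt (P * (f0⁻¹ * (Q * P⁻¹))) (f0 * (P⁻¹ * (f0 * f4⁻¹))) ↔ o.lt (P * (f0⁻¹ * (Q * f4⁻¹))) (P * (f0⁻¹ * (f4 * P⁻¹)))) ∧
    (o.lt (P * f0⁻¹) (f3 * Q⁻¹) ↔ o.lt (P * (f0⁻¹ * (Q * f3⁻¹))) (1)) ∧
    (o.lt (P * (f0⁻¹ * (Q * P⁻¹))) (f0 * (P⁻¹ * (f0 * f3⁻¹))) ↔ o.lt (P * (f0⁻¹ * (Q * f3⁻¹))) (P * (f0⁻¹ * (f3 * P⁻¹)))) ∧
    (o.lt (P * (f0⁻¹ * (Q * f4⁻¹))) (P * (f0⁻¹ * (Q * f3⁻¹))) ↔ o.lt (P * (f0⁻¹ * (Q * f4⁻¹))) (P * (f0⁻¹ * (Q * f3⁻¹)))) ∧
    (o.lt (P * f0⁻¹) (f4 * Q⁻¹) ↔ o.lt (P * (f0⁻¹ * (Q * f4⁻¹))) (1)) ∧
    (o.lt (f0 * P⁻¹) (Q * f0⁻¹) ↔ o.lt (P * (f0⁻¹ * (P * Q⁻¹))) (1)) ∧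
    (o.lt (f0 * (P⁻¹ * (f0 * f1⁻¹))) (P * (f0⁻¹ * (f1 * Q⁻¹))) ↔ o.lt (P * (f0⁻¹ * (P * Q⁻¹))) (P * (f0⁻¹ * (Q * f1⁻¹)))) ∧
    (o.lt (f2 * f1⁻¹) (f2 * (P⁻¹ * (f1 * Q⁻¹))) ↔ o.lt (f2 * f1⁻¹) (f2 * (P⁻¹ * (f1 * Q⁻¹)))) ∧
    (o.lt (f2 * f1⁻¹) (f2 * (P⁻¹ * (f2 * Q⁻¹))) ↔ o.lt (f2 * f1⁻¹) (f2 * (P⁻¹ * (f2 * Q⁻¹)))) ∧
    (o.lt (f2 * (P⁻¹ * (f2 * f1⁻¹))) (f2 * P⁻¹) ↔ o.lt (f2 * (P⁻¹ * (f2 * Q⁻¹))) (f2 * (P⁻¹ * (f1 * Q⁻¹)))) ∧
    (o.lt (f2 * f4⁻¹) (f2 * f0⁻¹) ↔ o.lt (f2 * f4⁻¹) (f2 * f0⁻¹)) ∧
    (o.lt (f2 * Q⁻¹) (f4 * Q⁻¹) ↔ o.lt (f2 * f4⁻¹) (1)) := by
  have C' := C
  obtain ⟨C0, C1, C2, C3, C4, C5, C6, C7, C8, C9⟩ := C'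
  simp only [Cube] at C C0 C1 C2 C3 C4 C5 C6 C7 C8 C9
  exact ⟨o.cv hδ (1) (by simp only [hδ, δinv hδ, δone hδ, D] <;> linear_combination (0) * h3) (by first | (simp only [mul_assoc, mul_inv_rev, inv_inv, mul_inv_cancel_left, inv_mul_cancel_left, mul_inv_cancel, inv_mul_cancel, mul_one, one_mul, inv_one]; done) | simp only [mul_assoc, mul_inv_rev, inv_inv, mul_inv_cancel_left, inv_mul_cancel_left, mul_inv_cancel, inv_mul_cancel, mul_one, one_mul, inv_one, C]) (by first | (simp only [mul_assoc, mul_inv_rev, inv_inv, mul_inv_cancel_left, inv_mul_cancel_left, mul_inv_cancel, inv_mul_cancel, mul_one, one_mul, inv_one]; done) | simp only [mul_assoc, mul_inv_rev, inv_inv, mul_inv_cancel_left, inv_mul_cancel_left, mul_inv_cancel, inv_mul_cancel, mul_one, one_mul, inv_one, C]),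
    o.cv hδ (f2 * (f0⁻¹ * (P * (f0⁻¹ * (P * (f0⁻¹ * (f2 * P⁻¹))))))) (by simp only [hδ, δinv hδ, δone hδ, D] <;> linear_combination (0) * h3) (by first | (simp only [mul_assoc, mul_inv_rev, inv_inv, mul_inv_cancel_left, inv_mul_cancel_left, mul_inv_cancel, inv_mul_cancel, mul_one, one_mul, inv_one]; done) | simp only [mul_assoc, mul_inv_rev, inv_inv, mul_inv_cancel_left, inv_mul_cancel_left, mul_inv_cancel, inv_mul_cancel, mul_one, one_mul, inv_one, C]) (by first | (simp only [mul_assoc, mul_inv_rev, inv_inv, mul_inv_cancel_left, inv_mul_cancel_left, mul_inv_cancel, inv_mul_cancel, mul_one, one_mul, inv_one, C0, C4]; done) | simp only [mul_assoc, mul_inv_rev, inv_inv, mul_inv_cancel_left, inv_mul_cancel_left, mul_inv_cancel, inv_mul_cancel, mul_one, one_mul, inv_one, C]),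
    o.cv hδ (1) (by simp only [hδ, δinv hδ, δone hδ, D] <;> linear_combination (0) * h3) (by first | (simp only [mul_assoc, mul_inv_rev, inv_inv, mul_inv_cancel_left, inv_mul_cancel_left, mul_inv_cancel, inv_mul_cancel, mul_one, one_mul, inv_one]; done) | simp only [mul_assoc, mul_inv_rev, inv_inv, mul_inv_cancel_left, inv_mul_cancel_left, mul_inv_cancel, inv_mul_cancel, mul_one, one_mul, inv_one, C]) (by first | (simp only [mul_assoc, mul_inv_rev, inv_inv, mul_inv_cancel_left, inv_mul_cancel_left, mul_inv_cancel, inv_mul_cancel, mul_one, one_mul, inv_one]; done) | simp only [mul_assoc, mul_inv_rev, inv_inv, mul_inv_cancel_left, inv_mul_cancel_left, mul_inv_cancel, inv_mul_cancel, mul_one, one_mul, inv_one, C]),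
    o.cv hδ (1) (by simp only [hδ, δinv hδ, δone hδ, D] <;> linear_combination (0) * h3) (by first | (simp only [mul_assoc, mul_inv_rev, inv_inv, mul_inv_cancel_left, inv_mul_cancel_left, mul_inv_cancel, inv_mul_cancel, mul_one, one_mul, inv_one]; done) | simp only [mul_assoc, mul_inv_rev, inv_inv, mul_inv_cancel_left, inv_mul_cancel_left, mul_inv_cancel, inv_mul_cancel, mul_one, one_mul, inv_one, C]) (by first | (simp only [mul_assoc, mul_inv_rev, inv_inv, mul_inv_cancel_left, inv_mul_cancel_left, mul_inv_cancel, inv_mul_cancel, mul_one, one_mul, inv_one]; done) | simp only [mul_assoc, mul_inv_rev, inv_inv, mul_inv_cancel_left, inv_mul_cancel_left, mul_inv_cancel, inv_mul_cancel, mul_one, one_mul, inv_one, C]),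
    o.cv hδ (f3 * P⁻¹) (by simp only [hδ, δinv hδ, δone hδ, D] <;> linear_combination (0) * h3) (by first | (simp only [mul_assoc, mul_inv_rev, inv_inv, mul_inv_cancel_left, inv_mul_cancel_left, mul_inv_cancel, inv_mul_cancel, mul_one, one_mul, inv_one]; done) | simp only [mul_assoc, mul_inv_rev, inv_inv, mul_inv_cancel_left, inv_mul_cancel_left, mul_inv_cancel, inv_mul_cancel, mul_one, one_mul, inv_one, C]) (by first | (simp only [mul_assoc, mul_inv_rev, inv_inv, mul_inv_cancel_left, inv_mul_cancel_left, mul_inv_cancel, inv_mul_cancel, mul_one, one_mul, inv_one]; done) | simp only [mul_assoc, mul_inv_rev, inv_inv, mul_inv_cancel_left, inv_mul_cancel_left, mul_inv_cancel, inv_mul_cancel, mul_one, one_mul, inv_one, C]),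
    o.cv hδ (Q * f3⁻¹) (by simp only [hδ, δinv hδ, δone hδ, D] <;> linear_combination (0) * h3) (by first | (simp only [mul_assoc, mul_inv_rev, inv_inv, mul_inv_cancel_left, inv_mul_cancel_left, mul_inv_cancel, inv_mul_cancel, mul_one, one_mul, inv_one]; done) | simp only [mul_assoc, mul_inv_rev, inv_inv, mul_inv_cancel_left, inv_mul_cancel_left, mul_inv_cancel, inv_mul_cancel, mul_one, one_mul, inv_one, C]) (by first | (simp only [mul_assoc, mul_inv_rev, inv_inv, mul_inv_cancel_left, inv_mul_cancel_left, mul_inv_cancel, inv_mul_cancel, mul_one, one_mul, inv_one]; done) | simp only [mul_assoc, mul_inv_rev, inv_inv, mul_inv_cancel_left, inv_mul_cancel_left, mul_inv_cancel, inv_mul_cancel, mul_one, one_mul, inv_one, C]),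
    o.cv hδ (1) (by simp only [hδ, δinv hδ, δone hδ, D] <;> linear_combination (0) * h3) (by first | (simp only [mul_assoc, mul_inv_rev, inv_inv, mul_inv_cancel_left, inv_mul_cancel_left, mul_inv_cancel, inv_mul_cancel, mul_one, one_mul, inv_one]; done) | simp only [mul_assoc, mul_inv_rev, inv_inv, mul_inv_cancel_left, inv_mul_cancel_left, mul_inv_cancel, inv_mul_cancel, mul_one, one_mul, inv_one, C]) (by first | (simp only [mul_assoc, mul_inv_rev, inv_inv, mul_inv_cancel_left, inv_mul_cancel_left, mul_inv_cancel, inv_mul_cancel, mul_one, one_mul, inv_one]; done) | simp only [mul_assoc, mul_inv_rev, inv_inv, mul_inv_cancel_left, inv_mul_cancel_left, mul_inv_cancel, inv_mul_cancel, mul_one, one_mul, inv_one, C]),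
    o.cv hδ (1) (by simp only [hδ, δinv hδ, δone hδ, D] <;> linear_combination (0) * h3) (by first | (simp only [mul_assoc, mul_inv_rev, inv_inv, mul_inv_cancel_left, inv_mul_cancel_left, mul_inv_cancel, inv_mul_cancel, mul_one, one_mul, inv_one]; done) | simp only [mul_assoc, mul_inv_rev, inv_inv, mul_inv_cancel_left, inv_mul_cancel_left, mul_inv_cancel, inv_mul_cancel, mul_one, one_mul, inv_one, C]) (by first | (simp only [mul_assoc, mul_inv_rev, inv_inv, mul_inv_cancel_left, inv_mul_cancel_left, mul_inv_cancel, inv_mul_cancel, mul_one, one_mul, inv_one]; done) | simp only [mul_assoc, mul_inv_rev, inv_inv, mul_inv_cancel_left, inv_mul_cancel_left, mul_inv_cancel, inv_mul_cancel, mul_one, one_mul, inv_one, C]),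
    o.cv hδ (P * f4⁻¹) (by simp only [hδ, δinv hδ, δone hδ, D] <;> linear_combination (0) * h3) (by first | (simp only [mul_assoc, mul_inv_rev, inv_inv, mul_inv_cancel_left, inv_mul_cancel_left, mul_inv_cancel, inv_mul_cancel, mul_one, one_mul, inv_one]; done) | simp only [mul_assoc, mul_inv_rev, inv_inv, mul_inv_cancel_left, inv_mul_cancel_left, mul_inv_cancel, inv_mul_cancel, mul_one, one_mul, inv_one, C]) (by first | (simp only [mul_assoc, mul_inv_rev, inv_inv, mul_inv_cancel_left, inv_mul_cancel_left, mul_inv_cancel, inv_mul_cancel, mul_one, one_mul, inv_one, C0, C8]; done) | simp only [mul_assoc, mul_inv_rev, inv_inv, mul_inv_cancel_left, inv_mul_cancel_left, mul_inv_cancel, inv_mul_cancel, mul_one, one_mul, inv_one, C]),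
    o.cv hδ (Q * f3⁻¹) (by simp only [hδ, δinv hδ, δone hδ, D] <;> linear_combination (0) * h3) (by first | (simp only [mul_assoc, mul_inv_rev, inv_inv, mul_inv_cancel_left, inv_mul_cancel_left, mul_inv_cancel, inv_mul_cancel, mul_one, one_mul, inv_one]; done) | simp only [mul_assoc, mul_inv_rev, inv_inv, mul_inv_cancel_left, inv_mul_cancel_left, mul_inv_cancel, inv_mul_cancel, mul_one, one_mul, inv_one, C]) (by first | (simp only [mul_assoc, mul_inv_rev, inv_inv, mul_inv_cancel_left, inv_mul_cancel_left, mul_inv_cancel, inv_mul_cancel, mul_one, one_mul, inv_one]; done) | simp only [mul_assoc, mul_inv_rev, inv_inv, mul_inv_cancel_left, inv_mul_cancel_left, mul_inv_cancel, inv_mul_cancel, mul_one, one_mul, inv_one, C]),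
    o.cv hδ (P * f3⁻¹) (by simp only [hδ, δinv hδ, δone hδ, D] <;> linear_combination (0) * h3) (by first | (simp only [mul_assoc, mul_inv_rev, inv_inv, mul_inv_cancel_left, inv_mul_cancel_left, mul_inv_cancel, inv_mul_cancel, mul_one, one_mul, inv_one]; done) | simp only [mul_assoc, mul_inv_rev, inv_inv, mul_inv_cancel_left, inv_mul_cancel_left, mul_inv_cancel, inv_mul_cancel, mul_one, one_mul, inv_one, C]) (by first | (simp only [mul_assoc, mul_inv_rev, inv_inv, mul_inv_cancel_left, inv_mul_cancel_left, mul_inv_cancel, inv_mul_cancel, mul_one, one_mul, inv_one, C0, C6]; done) | simp only [mul_assoc, mul_inv_rev, inv_inv, mul_inv_cancel_left, inv_mul_cancel_left, mul_inv_cancel, inv_mul_cancel, mul_one, one_mul, inv_one, C]),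
    o.cv hδ (1) (by simp only [hδ, δinv hδ, δone hδ, D] <;> linear_combination (0) * h3) (by first | (simp only [mul_assoc, mul_inv_rev, inv_inv, mul_inv_cancel_left, inv_mul_cancel_left, mul_inv_cancel, inv_mul_cancel, mul_one, one_mul, inv_one]; done) | simp only [mul_assoc, mul_inv_rev, inv_inv, mul_inv_cancel_left, inv_mul_cancel_left, mul_inv_cancel, inv_mul_cancel, mul_one, one_mul, inv_one, C]) (by first | (simp only [mul_assoc, mul_inv_rev, inv_inv, mul_inv_cancel_left, inv_mul_cancel_left, mul_inv_cancel, inv_mul_cancel, mul_one, one_mul, inv_one]; done) | simp only [mul_assoc, mul_inv_rev, inv_inv, mul_inv_cancel_left, inv_mul_cancel_left, mul_inv_cancel, inv_mul_cancel, mul_one, one_mul, inv_one, C]),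
    o.cv hδ (Q * f4⁻¹) (by simp only [hδ, δinv hδ, δone hδ, D] <;> linear_combination (0) * h3) (by first | (simp only [mul_assoc, mul_inv_rev, inv_inv, mul_inv_cancel_left, inv_mul_cancel_left, mul_inv_cancel, inv_mul_cancel, mul_one, one_mul, inv_one]; done) | simp only [mul_assoc, mul_inv_rev, inv_inv, mul_inv_cancel_left, inv_mul_cancel_left, mul_inv_cancel, inv_mul_cancel, mul_one, one_mul, inv_one, C]) (by first | (simp only [mul_assoc, mul_inv_rev, inv_inv, mul_inv_cancel_left, inv_mul_cancel_left, mul_inv_cancel, inv_mul_cancel, mul_one, one_mul, inv_one]; done) | simp only [mul_assoc, mul_inv_rev, inv_inv, mul_inv_cancel_left, inv_mul_cancel_left, mul_inv_cancel, inv_mul_cancel, mul_one, one_mul, inv_one, C]),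
    o.cv hδ (P * (f0⁻¹ * (P * (f0⁻¹ * (P * Q⁻¹))))) (by simp only [hδ, δinv hδ, δone hδ, D] <;> linear_combination (0) * h3) (by first | (simp only [mul_assoc, mul_inv_rev, inv_inv, mul_inv_cancel_left, inv_mul_cancel_left, mul_inv_cancel, inv_mul_cancel, mul_one, one_mul, inv_one, C0]; done) | simp only [mul_assoc, mul_inv_rev, inv_inv, mul_inv_cancel_left, inv_mul_cancel_left, mul_inv_cancel, inv_mul_cancel, mul_one, one_mul, inv_one, C]) (by first | (simp only [mul_assoc, mul_inv_rev, inv_inv, mul_inv_cancel_left, inv_mul_cancel_left, mul_inv_cancel, inv_mul_cancel, mul_one, one_mul, inv_one, C0]; done) | simp only [mul_assoc, mul_inv_rev, inv_inv, mul_inv_cancel_left, inv_mul_cancel_left, mul_inv_cancel, inv_mul_cancel, mul_one, one_mul, inv_one, C]),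
    o.cv hδ (f1 * (f0⁻¹ * (P * (f0⁻¹ * (P * (f0⁻¹ * (P * Q⁻¹))))))) (by simp only [hδ, δinv hδ, δone hδ, D] <;> linear_combination (-1) * h3) (by first | (simp only [mul_assoc, mul_inv_rev, inv_inv, mul_inv_cancel_left, inv_mul_cancel_left, mul_inv_cancel, inv_mul_cancel, mul_one, one_mul, inv_one, C0]; done) | simp only [mul_assoc, mul_inv_rev, inv_inv, mul_inv_cancel_left, inv_mul_cancel_left, mul_inv_cancel, inv_mul_cancel, mul_one, one_mul, inv_one, C]) (by first | (simp only [mul_assoc, mul_inv_rev, inv_inv, mul_inv_cancel_left, inv_mul_cancel_left, mul_inv_cancel, inv_mul_cancel, mul_one, one_mul, inv_one, C0, C3]; done) | simp only [mul_assoc, mul_inv_rev, inv_inv, mul_inv_cancel_left, inv_mul_cancel_left, mul_inv_cancel, inv_mul_cancel, mul_one, one_mul, inv_one, C]),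
    o.cv hδ (1) (by simp only [hδ, δinv hδ, δone hδ, D] <;> linear_combination (0) * h3) (by first | (simp only [mul_assoc, mul_inv_rev, inv_inv, mul_inv_cancel_left, inv_mul_cancel_left, mul_inv_cancel, inv_mul_cancel, mul_one, one_mul, inv_one]; done) | simp only [mul_assoc, mul_inv_rev, inv_inv, mul_inv_cancel_left, inv_mul_cancel_left, mul_inv_cancel, inv_mul_cancel, mul_one, one_mul, inv_one, C]) (by first | (simp only [mul_assoc, mul_inv_rev, inv_inv, mul_inv_cancel_left, inv_mul_cancel_left, mul_inv_cancel, inv_mul_cancel, mul_one, one_mul, inv_one]; done) | simp only [mul_assoc, mul_inv_rev, inv_inv, mul_inv_cancel_left, inv_mul_cancel_left, mul_inv_cancel, inv_mul_cancel, mul_one, one_mul, inv_one, C]),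
    o.cv hδ (1) (by simp only [hδ, δinv hδ, δone hδ, D] <;> linear_combination (0) * h3) (by first | (simp only [mul_assoc, mul_inv_rev, inv_inv, mul_inv_cancel_left, inv_mul_cancel_left, mul_inv_cancel, inv_mul_cancel, mul_one, one_mul, inv_one]; done) | simp only [mul_assoc, mul_inv_rev, inv_inv, mul_inv_cancel_left, inv_mul_cancel_left, mul_inv_cancel, inv_mul_cancel, mul_one, one_mul, inv_one, C]) (by first | (simp only [mul_assoc, mul_inv_rev, inv_inv, mul_inv_cancel_left, inv_mul_cancel_left, mul_inv_cancel, inv_mul_cancel, mul_one, one_mul, inv_one]; done) | simp only [mul_assoc, mul_inv_rev, inv_inv, mul_inv_cancel_left, inv_mul_cancel_left, mul_inv_cancel, inv_mul_cancel, mul_one, one_mul, inv_one, C]),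
    o.cv hδ (f1 * Q⁻¹) (by simp only [hδ, δinv hδ, δone hδ, D] <;> linear_combination (0) * h3) (by first | (simp only [mul_assoc, mul_inv_rev, inv_inv, mul_inv_cancel_left, inv_mul_cancel_left, mul_inv_cancel, inv_mul_cancel, mul_one, one_mul, inv_one]; done) | simp only [mul_assoc, mul_inv_rev, inv_inv, mul_inv_cancel_left, inv_mul_cancel_left, mul_inv_cancel, inv_mul_cancel, mul_one, one_mul, inv_one, C]) (by first | (simp only [mul_assoc, mul_inv_rev, inv_inv, mul_inv_cancel_left, inv_mul_cancel_left, mul_inv_cancel, inv_mul_cancel, mul_one, one_mul, inv_one]; done) | simp only [mul_assoc, mul_inv_rev, inv_inv, mul_inv_cancel_left, inv_mul_cancel_left, mul_inv_cancel, inv_mul_cancel, mul_one, one_mul, inv_one, C]),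
    o.cv hδ (1) (by simp only [hδ, δinv hδ, δone hδ, D] <;> linear_combination (0) * h3) (by first | (simp only [mul_assoc, mul_inv_rev, inv_inv, mul_inv_cancel_left, inv_mul_cancel_left, mul_inv_cancel, inv_mul_cancel, mul_one, one_mul, inv_one]; done) | simp only [mul_assoc, mul_inv_rev, inv_inv, mul_inv_cancel_left, inv_mul_cancel_left, mul_inv_cancel, inv_mul_cancel, mul_one, one_mul, inv_one, C]) (by first | (simp only [mul_assoc, mul_inv_rev, inv_inv, mul_inv_cancel_left, inv_mul_cancel_left, mul_inv_cancel, inv_mul_cancel, mul_one, one_mul, inv_one]; done) | simp only [mul_assoc, mul_inv_rev, inv_inv, mul_inv_cancel_left, inv_mul_cancel_left, mul_inv_cancel, inv_mul_cancel, mul_one, one_mul, inv_one, C]),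
    o.cv hδ (Q * f4⁻¹) (by simp only [hδ, δinv hδ, δone hδ, D] <;> linear_combination (0) * h3) (by first | (simp only [mul_assoc, mul_inv_rev, inv_inv, mul_inv_cancel_left, inv_mul_cancel_left, mul_inv_cancel, inv_mul_cancel, mul_one, one_mul, inv_one]; done) | simp only [mul_assoc, mul_inv_rev, inv_inv, mul_inv_cancel_left, inv_mul_cancel_left, mul_inv_cancel, inv_mul_cancel, mul_one, one_mul, inv_one, C]) (by first | (simp only [mul_assoc, mul_inv_rev, inv_inv, mul_inv_cancel_left, inv_mul_cancel_left, mul_inv_cancel, inv_mul_cancel, mul_one, one_mul, inv_one]; done) | simp only [mul_assoc, mul_inv_rev, inv_inv, mul_inv_cancel_left, inv_mul_cancel_left, mul_inv_cancel, inv_mul_cancel, mul_one, one_mul, inv_one, C])⟩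

theorem close_AAAAA_k19 {G : Type*} [Group G] {δ : G → ZMod 3} (hδ : ∀ u v, δ (u * v) = δ u + δ v) (o : Pre δ)
    {P Q f0 f1 f2 f3 f4 : G} {e : ZMod 3} (h3 : 3 * e = 0)
    (D : δ P = e ∧ δ Q = -e ∧ δ f0 = 0 ∧ δ f1 = 0 ∧ δ f2 = 0 ∧ δ f3 = 0 ∧ δ f4 = 0)
    (C : Cube P f0 ∧ Cube P f1 ∧ Cube Q f0 ∧ Cube Q f1 ∧ Cube P f2 ∧ Cube Q f2 ∧ Cube P f3 ∧ Cube Q f3 ∧ Cube P f4 ∧ Cube Q f4) :
    (o.lt (f0 * Q⁻¹) (f2 * Q⁻¹) ↔ o.lt (1) (f2 * f0⁻¹)) ∧
    (o.lt (f2 * (Q⁻¹ * (P * f0⁻¹))) (f2 * P⁻¹) ↔ o.lt (f2 * (Q⁻¹ * (P * f0⁻¹))) (f2 * P⁻¹)) ∧
    (o.lt (f2 * (Q⁻¹ * (P * f0⁻¹))) (f2 * (Q⁻¹ * (f1 * Q⁻¹))) ↔ o.lt (f2 * (Q⁻¹ * (P * f0⁻¹))) (f2 * (Q⁻¹ * (f1 * Q⁻¹)))) ∧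
    (o.lt (f2 * f1⁻¹) (f2 * (P⁻¹ * (f1 * Q⁻¹))) ↔ o.lt (f2 * (Q⁻¹ * (f1 * Q⁻¹))) (f2 * P⁻¹)) ∧
    (o.lt (f2 * (Q⁻¹ * (P * f1⁻¹))) (f2 * (Q⁻¹ * (P * f0⁻¹))) ↔ o.lt (f2 * (Q⁻¹ * (P * f1⁻¹))) (f2 * (Q⁻¹ * (P * f0⁻¹)))) ∧
    (o.lt (f2 * (Q⁻¹ * (f1 * P⁻¹))) (f2 * f1⁻¹) ↔ o.lt (f2 * (Q⁻¹ * (P * f1⁻¹))) (f2 * P⁻¹)) ∧
    (o.lt (f2 * P⁻¹) (f2 * (Q⁻¹ * (P * f0⁻¹))) ↔ o.lt (f2 * P⁻¹) (f2 * (Q⁻¹ * (P * f0⁻¹)))) ∧
    (o.lt (f2 * (Q⁻¹ * (P * f3⁻¹))) (f2 * (Q⁻¹ * (P * f4⁻¹))) ↔ o.lt (f2 * (Q⁻¹ * (P * f3⁻¹))) (f2 * (Q⁻¹ * (P * f4⁻¹)))) ∧
    (o.lt (f2 * (Q⁻¹ * (P * f3⁻¹))) (f2 * P⁻¹) ↔ o.lt (f2 * (Q⁻¹ * (P * f3⁻¹))) (f2 * P⁻¹)) ∧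
    (o.lt (f2 * f4⁻¹) (f2 * (Q⁻¹ * (f4 * P⁻¹))) ↔ o.lt (f2 * P⁻¹) (f2 * (Q⁻¹ * (P * f4⁻¹)))) ∧
    (o.lt (f2 * (Q⁻¹ * (P * f4⁻¹))) (f2 * (Q⁻¹ * (P * f3⁻¹))) ↔ o.lt (f2 * (Q⁻¹ * (P * f4⁻¹))) (f2 * (Q⁻¹ * (P * f3⁻¹)))) ∧
    (o.lt (f2 * (Q⁻¹ * (P * f4⁻¹))) (f2 * (Q⁻¹ * (f4 * Q⁻¹))) ↔ o.lt (f2 * (Q⁻¹ * (P * f4⁻¹))) (f2 * (Q⁻¹ * (f4 * Q⁻¹)))) ∧
    (o.lt (f2 * (Q⁻¹ * (f4 * Q⁻¹))) (f2 * (Q⁻¹ * (P * f3⁻¹))) ↔ o.lt (f2 * (Q⁻¹ * (f4 * Q⁻¹))) (f2 * (Q⁻¹ * (P * f3⁻¹)))) ∧
    (o.lt (f2 * (Q⁻¹ * (f4 * Q⁻¹))) (f2 * (Q⁻¹ * (P * f4⁻¹))) ↔ o.lt (f2 * (Q⁻¹ * (f4 * Q⁻¹))) (f2 * (Q⁻¹ * (P * f4⁻¹)))) ∧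
    (o.lt (f2 * P⁻¹) (f2 * (Q⁻¹ * (P * f3⁻¹))) ↔ o.lt (f2 * P⁻¹) (f2 * (Q⁻¹ * (P * f3⁻¹)))) ∧
    (o.lt (f2 * (Q⁻¹ * (f0 * P⁻¹))) (f2 * (Q⁻¹ * (f4 * P⁻¹))) ↔ o.lt (f2 * (Q⁻¹ * (f0 * P⁻¹))) (f2 * (Q⁻¹ * (f4 * P⁻¹)))) ∧
    (o.lt (f2 * (Q⁻¹ * (f4 * P⁻¹))) (f2 * (Q⁻¹ * (f0 * P⁻¹))) ↔ o.lt (f2 * (Q⁻¹ * (f4 * P⁻¹))) (f2 * (Q⁻¹ * (f0 * P⁻¹)))) ∧
    (o.lt (f2 * (Q⁻¹ * (P * f0⁻¹))) (f2 * P⁻¹) ↔ o.lt (f2 * (Q⁻¹ * (f0 * P⁻¹))) (f2 * f0⁻¹)) ∧
    (o.lt (f2 * f0⁻¹) (f2 * (Q⁻¹ * (f4 * P⁻¹))) ↔ o.lt (f2 * f0⁻¹) (f2 * (Q⁻¹ * (f4 * P⁻¹)))) ∧
    (o.lt (f2 * (Q⁻¹ * (f1 * P⁻¹))) (f2 * f1⁻¹) ↔ o.lt (f2 * (Q⁻¹ * (f1 * P⁻¹))) (f2 * f1⁻¹)) := by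
  have C' := C
  obtain ⟨C0, C1, C2, C3, C4, C5, C6, C7, C8, C9⟩ := C'
  simp only [Cube] at C C0 C1 C2 C3 C4 C5 C6 C7 C8 C9
  exact ⟨o.cv hδ (Q * f0⁻¹) (by simp only [hδ, δinv hδ, δone hδ, D] <;> linear_combination (0) * h3) (by first | (simp only [mul_assoc, mul_inv_rev, inv_inv, mul_inv_cancel_left, inv_mul_cancel_left, mul_inv_cancel, inv_mul_cancel, mul_one, one_mul, inv_one]; done) | simp only [mul_assoc, mul_inv_rev, inv_inv, mul_inv_cancel_left, inv_mul_cancel_left, mul_inv_cancel, inv_mul_cancel, mul_one, one_mul, inv_one, C]) (by first | (simp only [mul_assoc, mul_inv_rev, inv_inv, mul_inv_cancel_left, inv_mul_cancel_left, mul_inv_cancel, inv_mul_cancel, mul_one, one_mul, inv_one]; done) | simp only [mul_assoc, mul_inv_rev, inv_inv, mul_inv_cancel_left, inv_mul_cancel_left, mul_inv_cancel, inv_mul_cancel, mul_one, one_mul, inv_one, C]),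
    o.cv hδ (1) (by simp only [hδ, δinv hδ, δone hδ, D] <;> linear_combination (1) * h3) (by first | (simp only [mul_assoc, mul_inv_rev, inv_inv, mul_inv_cancel_left, inv_mul_cancel_left, mul_inv_cancel, inv_mul_cancel, mul_one, one_mul, inv_one]; done) | simp only [mul_assoc, mul_inv_rev, inv_inv, mul_inv_cancel_left, inv_mul_cancel_left, mul_inv_cancel, inv_mul_cancel, mul_one, one_mul, inv_one, C]) (by first | (simp only [mul_assoc, mul_inv_rev, inv_inv, mul_inv_cancel_left, inv_mul_cancel_left, mul_inv_cancel, inv_mul_cancel, mul_one, one_mul, inv_one]; done) | simp only [mul_assoc, mul_inv_rev, inv_inv, mul_inv_cancel_left, inv_mul_cancel_left, mul_inv_cancel, inv_mul_cancel, mul_one, one_mul, inv_one, C]),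
    o.cv hδ (1) (by simp only [hδ, δinv hδ, δone hδ, D] <;> linear_combination (0) * h3) (by first | (simp only [mul_assoc, mul_inv_rev, inv_inv, mul_inv_cancel_left, inv_mul_cancel_left, mul_inv_cancel, inv_mul_cancel, mul_one, one_mul, inv_one]; done) | simp only [mul_assoc, mul_inv_rev, inv_inv, mul_inv_cancel_left, inv_mul_cancel_left, mul_inv_cancel, inv_mul_cancel, mul_one, one_mul, inv_one, C]) (by first | (simp only [mul_assoc, mul_inv_rev, inv_inv, mul_inv_cancel_left, inv_mul_cancel_left, mul_inv_cancel, inv_mul_cancel, mul_one, one_mul, inv_one]; done) | simp only [mul_assoc, mul_inv_rev, inv_inv, mul_inv_cancel_left, inv_mul_cancel_left, mul_inv_cancel, inv_mul_cancel, mul_one, one_mul, inv_one, C]),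
    o.cv hδ (f1 * (Q⁻¹ * (f1 * Q⁻¹))) (by simp only [hδ, δinv hδ, δone hδ, D] <;> linear_combination (0) * h3) (by first | (simp only [mul_assoc, mul_inv_rev, inv_inv, mul_inv_cancel_left, inv_mul_cancel_left, mul_inv_cancel, inv_mul_cancel, mul_one, one_mul, inv_one]; done) | simp only [mul_assoc, mul_inv_rev, inv_inv, mul_inv_cancel_left, inv_mul_cancel_left, mul_inv_cancel, inv_mul_cancel, mul_one, one_mul, inv_one, C]) (by first | (simp only [mul_assoc, mul_inv_rev, inv_inv, mul_inv_cancel_left, inv_mul_cancel_left, mul_inv_cancel, inv_mul_cancel, mul_one, one_mul, inv_one, C3]; done) | simp only [mul_assoc, mul_inv_rev, inv_inv, mul_inv_cancel_left, inv_mul_cancel_left, mul_inv_cancel, inv_mul_cancel, mul_one, one_mul, inv_one, C]),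
    o.cv hδ (1) (by simp only [hδ, δinv hδ, δone hδ, D] <;> linear_combination (0) * h3) (by first | (simp only [mul_assoc, mul_inv_rev, inv_inv, mul_inv_cancel_left, inv_mul_cancel_left, mul_inv_cancel, inv_mul_cancel, mul_one, one_mul, inv_one]; done) | simp only [mul_assoc, mul_inv_rev, inv_inv, mul_inv_cancel_left, inv_mul_cancel_left, mul_inv_cancel, inv_mul_cancel, mul_one, one_mul, inv_one, C]) (by first | (simp only [mul_assoc, mul_inv_rev, inv_inv, mul_inv_cancel_left, inv_mul_cancel_left, mul_inv_cancel, inv_mul_cancel, mul_one, one_mul, inv_one]; done) | simp only [mul_assoc, mul_inv_rev, inv_inv, mul_inv_cancel_left, inv_mul_cancel_left, mul_inv_cancel, inv_mul_cancel, mul_one, one_mul, inv_one, C]),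
    o.cv hδ (P * (f1⁻¹ * (P * f1⁻¹))) (by simp only [hδ, δinv hδ, δone hδ, D] <;> linear_combination (0) * h3) (by first | (simp only [mul_assoc, mul_inv_rev, inv_inv, mul_inv_cancel_left, inv_mul_cancel_left, mul_inv_cancel, inv_mul_cancel, mul_one, one_mul, inv_one]; done) | simp only [mul_assoc, mul_inv_rev, inv_inv, mul_inv_cancel_left, inv_mul_cancel_left, mul_inv_cancel, inv_mul_cancel, mul_one, one_mul, inv_one, C]) (by first | (simp only [mul_assoc, mul_inv_rev, inv_inv, mul_inv_cancel_left, inv_mul_cancel_left, mul_inv_cancel, inv_mul_cancel, mul_one, one_mul, inv_one, C1]; done) | simp only [mul_assoc, mul_inv_rev, inv_inv, mul_inv_cancel_left, inv_mul_cancel_left, mul_inv_cancel, inv_mul_cancel, mul_one, one_mul, inv_one, C]),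
    o.cv hδ (1) (by simp only [hδ, δinv hδ, δone hδ, D] <;> linear_combination (-1) * h3) (by first | (simp only [mul_assoc, mul_inv_rev, inv_inv, mul_inv_cancel_left, inv_mul_cancel_left, mul_inv_cancel, inv_mul_cancel, mul_one, one_mul, inv_one]; done) | simp only [mul_assoc, mul_inv_rev, inv_inv, mul_inv_cancel_left, inv_mul_cancel_left, mul_inv_cancel, inv_mul_cancel, mul_one, one_mul, inv_one, C]) (by first | (simp only [mul_assoc, mul_inv_rev, inv_inv, mul_inv_cancel_left, inv_mul_cancel_left, mul_inv_cancel, inv_mul_cancel, mul_one, one_mul, inv_one]; done) | simp only [mul_assoc, mul_inv_rev, inv_inv, mul_inv_cancel_left, inv_mul_cancel_left, mul_inv_cancel, inv_mul_cancel, mul_one, one_mul, inv_one, C]),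
    o.cv hδ (1) (by simp only [hδ, δinv hδ, δone hδ, D] <;> linear_combination (0) * h3) (by first | (simp only [mul_assoc, mul_inv_rev, inv_inv, mul_inv_cancel_left, inv_mul_cancel_left, mul_inv_cancel, inv_mul_cancel, mul_one, one_mul, inv_one]; done) | simp only [mul_assoc, mul_inv_rev, inv_inv, mul_inv_cancel_left, inv_mul_cancel_left, mul_inv_cancel, inv_mul_cancel, mul_one, one_mul, inv_one, C]) (by first | (simp only [mul_assoc, mul_inv_rev, inv_inv, mul_inv_cancel_left, inv_mul_cancel_left, mul_inv_cancel, inv_mul_cancel, mul_one, one_mul, inv_one]; done) | simp only [mul_assoc, mul_inv_rev, inv_inv, mul_inv_cancel_left, inv_mul_cancel_left, mul_inv_cancel, inv_mul_cancel, mul_one, one_mul, inv_one, C]),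
    o.cv hδ (1) (by simp only [hδ, δinv hδ, δone hδ, D] <;> linear_combination (1) * h3) (by first | (simp only [mul_assoc, mul_inv_rev, inv_inv, mul_inv_cancel_left, inv_mul_cancel_left, mul_inv_cancel, inv_mul_cancel, mul_one, one_mul, inv_one]; done) | simp only [mul_assoc, mul_inv_rev, inv_inv, mul_inv_cancel_left, inv_mul_cancel_left, mul_inv_cancel, inv_mul_cancel, mul_one, one_mul, inv_one, C]) (by first | (simp only [mul_assoc, mul_inv_rev, inv_inv, mul_inv_cancel_left, inv_mul_cancel_left, mul_inv_cancel, inv_mul_cancel, mul_one, one_mul, inv_one]; done) | simp only [mul_assoc, mul_inv_rev, inv_inv, mul_inv_cancel_left, inv_mul_cancel_left, mul_inv_cancel, inv_mul_cancel, mul_one, one_mul, inv_one, C]),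
    o.cv hδ (f4 * P⁻¹) (by simp only [hδ, δinv hδ, δone hδ, D] <;> linear_combination (0) * h3) (by first | (simp only [mul_assoc, mul_inv_rev, inv_inv, mul_inv_cancel_left, inv_mul_cancel_left, mul_inv_cancel, inv_mul_cancel, mul_one, one_mul, inv_one]; done) | simp only [mul_assoc, mul_inv_rev, inv_inv, mul_inv_cancel_left, inv_mul_cancel_left, mul_inv_cancel, inv_mul_cancel, mul_one, one_mul, inv_one, C]) (by first | (simp only [mul_assoc, mul_inv_rev, inv_inv, mul_inv_cancel_left, inv_mul_cancel_left, mul_inv_cancel, inv_mul_cancel, mul_one, one_mul, inv_one, C8]; done) | simp only [mul_assoc, mul_inv_rev, inv_inv, mul_inv_cancel_left, inv_mul_cancel_left, mul_inv_cancel, inv_mul_cancel, mul_one, one_mul, inv_one, C]),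
    o.cv hδ (1) (by simp only [hδ, δinv hδ, δone hδ, D] <;> linear_combination (0) * h3) (by first | (simp only [mul_assoc, mul_inv_rev, inv_inv, mul_inv_cancel_left, inv_mul_cancel_left, mul_inv_cancel, inv_mul_cancel, mul_one, one_mul, inv_one]; done) | simp only [mul_assoc, mul_inv_rev, inv_inv, mul_inv_cancel_left, inv_mul_cancel_left, mul_inv_cancel, inv_mul_cancel, mul_one, one_mul, inv_one, C]) (by first | (simp only [mul_assoc, mul_inv_rev, inv_inv, mul_inv_cancel_left, inv_mul_cancel_left, mul_inv_cancel, inv_mul_cancel, mul_one, one_mul, inv_one]; done) | simp only [mul_assoc, mul_inv_rev, inv_inv, mul_inv_cancel_left, inv_mul_cancel_left, mul_inv_cancel, inv_mul_cancel, mul_one, one_mul, inv_one, C]),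
    o.cv hδ (1) (by simp only [hδ, δinv hδ, δone hδ, D] <;> linear_combination (0) * h3) (by first | (simp only [mul_assoc, mul_inv_rev, inv_inv, mul_inv_cancel_left, inv_mul_cancel_left, mul_inv_cancel, inv_mul_cancel, mul_one, one_mul, inv_one]; done) | simp only [mul_assoc, mul_inv_rev, inv_inv, mul_inv_cancel_left, inv_mul_cancel_left, mul_inv_cancel, inv_mul_cancel, mul_one, one_mul, inv_one, C]) (by first | (simp only [mul_assoc, mul_inv_rev, inv_inv, mul_inv_cancel_left, inv_mul_cancel_left, mul_inv_cancel, inv_mul_cancel, mul_one, one_mul, inv_one]; done) | simp only [mul_assoc, mul_inv_rev, inv_inv, mul_inv_cancel_left, inv_mul_cancel_left, mul_inv_cancel, inv_mul_cancel, mul_one, one_mul, inv_one, C]),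
    o.cv hδ (1) (by simp only [hδ, δinv hδ, δone hδ, D] <;> linear_combination (0) * h3) (by first | (simp only [mul_assoc, mul_inv_rev, inv_inv, mul_inv_cancel_left, inv_mul_cancel_left, mul_inv_cancel, inv_mul_cancel, mul_one, one_mul, inv_one]; done) | simp only [mul_assoc, mul_inv_rev, inv_inv, mul_inv_cancel_left, inv_mul_cancel_left, mul_inv_cancel, inv_mul_cancel, mul_one, one_mul, inv_one, C]) (by first | (simp only [mul_assoc, mul_inv_rev, inv_inv, mul_inv_cancel_left, inv_mul_cancel_left, mul_inv_cancel, inv_mul_cancel, mul_one, one_mul, inv_one]; done) | simp only [mul_assoc, mul_inv_rev, inv_inv, mul_inv_cancel_left, inv_mul_cancel_left, mul_inv_cancel, inv_mul_cancel, mul_one, one_mul, inv_one, C]),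
    o.cv hδ (1) (by simp only [hδ, δinv hδ, δone hδ, D] <;> linear_combination (0) * h3) (by first | (simp only [mul_assoc, mul_inv_rev, inv_inv, mul_inv_cancel_left, inv_mul_cancel_left, mul_inv_cancel, inv_mul_cancel, mul_one, one_mul, inv_one]; done) | simp only [mul_assoc, mul_inv_rev, inv_inv, mul_inv_cancel_left, inv_mul_cancel_left, mul_inv_cancel, inv_mul_cancel, mul_one, one_mul, inv_one, C]) (by first | (simp only [mul_assoc, mul_inv_rev, inv_inv, mul_inv_cancel_left, inv_mul_cancel_left, mul_inv_cancel, inv_mul_cancel, mul_one, one_mul, inv_one]; done) | simp only [mul_assoc, mul_inv_rev, inv_inv, mul_inv_cancel_left, inv_mul_cancel_left, mul_inv_cancel, inv_mul_cancel, mul_one, one_mul, inv_one, C]),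
    o.cv hδ (1) (by simp only [hδ, δinv hδ, δone hδ, D] <;> linear_combination (-1) * h3) (by first | (simp only [mul_assoc, mul_inv_rev, inv_inv, mul_inv_cancel_left, inv_mul_cancel_left, mul_inv_cancel, inv_mul_cancel, mul_one, one_mul, inv_one]; done) | simp only [mul_assoc, mul_inv_rev, inv_inv, mul_inv_cancel_left, inv_mul_cancel_left, mul_inv_cancel, inv_mul_cancel, mul_one, one_mul, inv_one, C]) (by first | (simp only [mul_assoc, mul_inv_rev, inv_inv, mul_inv_cancel_left, inv_mul_cancel_left, mul_inv_cancel, inv_mul_cancel, mul_one, one_mul, inv_one]; done) | simp only [mul_assoc, mul_inv_rev, inv_inv, mul_inv_cancel_left, inv_mul_cancel_left, mul_inv_cancel, inv_mul_cancel, mul_one, one_mul, inv_one, C]),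
    o.cv hδ (1) (by simp only [hδ, δinv hδ, δone hδ, D] <;> linear_combination (0) * h3) (by first | (simp only [mul_assoc, mul_inv_rev, inv_inv, mul_inv_cancel_left, inv_mul_cancel_left, mul_inv_cancel, inv_mul_cancel, mul_one, one_mul, inv_one]; done) | simp only [mul_assoc, mul_inv_rev, inv_inv, mul_inv_cancel_left, inv_mul_cancel_left, mul_inv_cancel, inv_mul_cancel, mul_one, one_mul, inv_one, C]) (by first | (simp only [mul_assoc, mul_inv_rev, inv_inv, mul_inv_cancel_left, inv_mul_cancel_left, mul_inv_cancel, inv_mul_cancel, mul_one, one_mul, inv_one]; done) | simp only [mul_assoc, mul_inv_rev, inv_inv, mul_inv_cancel_left, inv_mul_cancel_left, mul_inv_cancel, inv_mul_cancel, mul_one, one_mul, inv_one, C]),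
    o.cv hδ (1) (by simp only [hδ, δinv hδ, δone hδ, D] <;> linear_combination (0) * h3) (by first | (simp only [mul_assoc, mul_inv_rev, inv_inv, mul_inv_cancel_left, inv_mul_cancel_left, mul_inv_cancel, inv_mul_cancel, mul_one, one_mul, inv_one]; done) | simp only [mul_assoc, mul_inv_rev, inv_inv, mul_inv_cancel_left, inv_mul_cancel_left, mul_inv_cancel, inv_mul_cancel, mul_one, one_mul, inv_one, C]) (by first | (simp only [mul_assoc, mul_inv_rev, inv_inv, mul_inv_cancel_left, inv_mul_cancel_left, mul_inv_cancel, inv_mul_cancel, mul_one, one_mul, inv_one]; done) | simp only [mul_assoc, mul_inv_rev, inv_inv, mul_inv_cancel_left, inv_mul_cancel_left, mul_inv_cancel, inv_mul_cancel, mul_one, one_mul, inv_one, C]),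
    o.cv hδ (f0 * (P⁻¹ * (f0 * P⁻¹))) (by simp only [hδ, δinv hδ, δone hδ, D] <;> linear_combination (1) * h3) (by first | (simp only [mul_assoc, mul_inv_rev, inv_inv, mul_inv_cancel_left, inv_mul_cancel_left, mul_inv_cancel, inv_mul_cancel, mul_one, one_mul, inv_one]; done) | simp only [mul_assoc, mul_inv_rev, inv_inv, mul_inv_cancel_left, inv_mul_cancel_left, mul_inv_cancel, inv_mul_cancel, mul_one, one_mul, inv_one, C]) (by first | (simp only [mul_assoc, mul_inv_rev, inv_inv, mul_inv_cancel_left, inv_mul_cancel_left, mul_inv_cancel, inv_mul_cancel, mul_one, one_mul, inv_one, C0]; done) | simp only [mul_assoc, mul_inv_rev, inv_inv, mul_inv_cancel_left, inv_mul_cancel_left, mul_inv_cancel, inv_mul_cancel, mul_one, one_mul, inv_one, C]),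
    o.cv hδ (1) (by simp only [hδ, δinv hδ, δone hδ, D] <;> linear_combination (0) * h3) (by first | (simp only [mul_assoc, mul_inv_rev, inv_inv, mul_inv_cancel_left, inv_mul_cancel_left, mul_inv_cancel, inv_mul_cancel, mul_one, one_mul, inv_one]; done) | simp only [mul_assoc, mul_inv_rev, inv_inv, mul_inv_cancel_left, inv_mul_cancel_left, mul_inv_cancel, inv_mul_cancel, mul_one, one_mul, inv_one, C]) (by first | (simp only [mul_assoc, mul_inv_rev, inv_inv, mul_inv_cancel_left, inv_mul_cancel_left, mul_inv_cancel, inv_mul_cancel, mul_one, one_mul, inv_one]; done) | simp only [mul_assoc, mul_inv_rev, inv_inv, mul_inv_cancel_left, inv_mul_cancel_left, mul_inv_cancel, inv_mul_cancel, mul_one, one_mul, inv_one, C]),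
    o.cv hδ (1) (by simp only [hδ, δinv hδ, δone hδ, D] <;> linear_combination (0) * h3) (by first | (simp only [mul_assoc, mul_inv_rev, inv_inv, mul_inv_cancel_left, inv_mul_cancel_left, mul_inv_cancel, inv_mul_cancel, mul_one, one_mul, inv_one]; done) | simp only [mul_assoc, mul_inv_rev, inv_inv, mul_inv_cancel_left, inv_mul_cancel_left, mul_inv_cancel, inv_mul_cancel, mul_one, one_mul, inv_one, C]) (by first | (simp only [mul_assoc, mul_inv_rev, inv_inv, mul_inv_cancel_left, inv_mul_cancel_left, mul_inv_cancel, inv_mul_cancel, mul_one, one_mul, inv_one]; done) | simp only [mul_assoc, mul_inv_rev, inv_inv, mul_inv_cancel_left, inv_mul_cancel_left, mul_inv_cancel, inv_mul_cancel, mul_one, one_mul, inv_one, C])⟩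

theorem close_AAAAA_k20 {G : Type*} [Group G] {δ : G → ZMod 3} (hδ : ∀ u v, δ (u * v) = δ u + δ v) (o : Pre δ)
    {P Q f0 f1 f2 f3 f4 : G} {e : ZMod 3} (h3 : 3 * e = 0)
    (D : δ P = e ∧ δ Q = -e ∧ δ f0 = 0 ∧ δ f1 = 0 ∧ δ f2 = 0 ∧ δ f3 = 0 ∧ δ f4 = 0)
    (C : Cube P f0 ∧ Cube P f1 ∧ Cube Q f0 ∧ Cube Q f1 ∧ Cube P f2 ∧ Cube Q f2 ∧ Cube P f3 ∧ Cube Q f3 ∧ Cube P f4 ∧ Cube Q f4) :
    (o.lt (f2 * Q⁻¹) (P * f1⁻¹) ↔ o.lt (f2 * (Q⁻¹ * (f1 * P⁻¹))) (1)) ∧
    (o.lt (f1 * P⁻¹) (f2 * P⁻¹) ↔ o.lt (1) (f2 * f1⁻¹)) ∧
    (o.lt (f2 * P⁻¹) (f2 * (Q⁻¹ * (P * f0⁻¹))) ↔ o.lt (f2 * f0⁻¹) (f2 * (Q⁻¹ * (f0 * P⁻¹)))) ∧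
    (o.lt (f2 * (Q⁻¹ * (f2 * P⁻¹))) (f2 * (Q⁻¹ * (f3 * P⁻¹))) ↔ o.lt (f2 * (Q⁻¹ * (f2 * P⁻¹))) (f2 * (Q⁻¹ * (f3 * P⁻¹)))) ∧
    (o.lt (f2 * (Q⁻¹ * (f3 * P⁻¹))) (f2 * (Q⁻¹ * (f2 * P⁻¹))) ↔ o.lt (f2 * (Q⁻¹ * (f3 * P⁻¹))) (f2 * (Q⁻¹ * (f2 * P⁻¹)))) ∧
    (o.lt (f2 * (Q⁻¹ * (f2 * P⁻¹))) (f2 * f3⁻¹) ↔ o.lt (f2 * (Q⁻¹ * (f2 * P⁻¹))) (f2 * f3⁻¹)) ∧
    (o.lt (f2 * P⁻¹) (f2 * (Q⁻¹ * (P * f3⁻¹))) ↔ o.lt (f2 * f3⁻¹) (f2 * (Q⁻¹ * (f3 * P⁻¹)))) ∧
    (o.lt (f2 * (Q⁻¹ * (P * f3⁻¹))) (f2 * P⁻¹) ↔ o.lt (f2 * (Q⁻¹ * (f3 * P⁻¹))) (f2 * f3⁻¹)) ∧
    (o.lt (f2 * f4⁻¹) (f2 * (Q⁻¹ * (f4 * P⁻¹))) ↔ o.lt (f2 * f4⁻¹) (f2 * (Q⁻¹ * (f4 * P⁻¹)))) ∧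
    (o.lt (P * f4⁻¹) (f2 * Q⁻¹) ↔ o.lt (1) (f2 * (Q⁻¹ * (f4 * P⁻¹)))) ∧
    (o.lt (f3 * (P⁻¹ * (f3 * f0⁻¹))) (f3 * (P⁻¹ * (f3 * f1⁻¹))) ↔ o.lt (P * (f3⁻¹ * (P * f0⁻¹))) (P * (f3⁻¹ * (P * f1⁻¹)))) ∧
    (o.lt (f3 * (P⁻¹ * (f3 * f0⁻¹))) (P * (f3⁻¹ * (Q * P⁻¹))) ↔ o.lt (P * (f3⁻¹ * (P * f0⁻¹))) (P * (f3⁻¹ * (Q * P⁻¹)))) ∧
    (o.lt (P * (f3⁻¹ * (Q * f1⁻¹))) (P * (f3⁻¹ * (f1 * P⁻¹))) ↔ o.lt (P * (f3⁻¹ * (Q * P⁻¹))) (P * (f3⁻¹ * (P * f1⁻¹)))) ∧
    (o.lt (f3 * (P⁻¹ * (f3 * f1⁻¹))) (f3 * (P⁻¹ * (f3 * f0⁻¹))) ↔ o.lt (P * (f3⁻¹ * (P * f1⁻¹))) (P * (f3⁻¹ * (P * f0⁻¹)))) ∧
    (o.lt (f3 * (P⁻¹ * (f3 * f1⁻¹))) (P * (f3⁻¹ * (f1 * Q⁻¹))) ↔ o.lt (P * (f3⁻¹ * (P * f1⁻¹))) (P * (f3⁻¹ * (f1 * Q⁻¹)))) ∧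
    (o.lt (P * (f3⁻¹ * (f1 * Q⁻¹))) (f3 * (P⁻¹ * (f3 * f0⁻¹))) ↔ o.lt (P * (f3⁻¹ * (f1 * Q⁻¹))) (P * (f3⁻¹ * (P * f0⁻¹)))) ∧
    (o.lt (P * (f3⁻¹ * (f1 * Q⁻¹))) (f3 * (P⁻¹ * (f3 * f1⁻¹))) ↔ o.lt (P * (f3⁻¹ * (f1 * Q⁻¹))) (P * (f3⁻¹ * (P * f1⁻¹)))) ∧
    (o.lt (f3 * (P⁻¹ * (f3 * f2⁻¹))) (f3 * (P⁻¹ * (f3 * f0⁻¹))) ↔ o.lt (P * (f3⁻¹ * (P * f2⁻¹))) (P * (f3⁻¹ * (P * f0⁻¹)))) ∧
    (o.lt (f3 * (P⁻¹ * (f3 * f2⁻¹))) (P * (f3⁻¹ * (f1 * Q⁻¹))) ↔ o.lt (P * (f3⁻¹ * (P * f2⁻¹))) (P * (f3⁻¹ * (f1 * Q⁻¹)))) ∧
    (o.lt (f3 * (P⁻¹ * (f3 * f2⁻¹))) (P * Q⁻¹) ↔ o.lt (P * (f3⁻¹ * (P * f2⁻¹))) (P * Q⁻¹)) := by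
  have C' := C
  obtain ⟨C0, C1, C2, C3, C4, C5, C6, C7, C8, C9⟩ := C'
  simp only [Cube] at C C0 C1 C2 C3 C4 C5 C6 C7 C8 C9
  exact ⟨o.cv hδ (f1 * P⁻¹) (by simp only [hδ, δinv hδ, δone hδ, D] <;> linear_combination (0) * h3) (by first | (simp only [mul_assoc, mul_inv_rev, inv_inv, mul_inv_cancel_left, inv_mul_cancel_left, mul_inv_cancel, inv_mul_cancel, mul_one, one_mul, inv_one]; done) | simp only [mul_assoc, mul_inv_rev, inv_inv, mul_inv_cancel_left, inv_mul_cancel_left, mul_inv_cancel, inv_mul_cancel, mul_one, one_mul, inv_one, C]) (by first | (simp only [mul_assoc, mul_inv_rev, inv_inv, mul_inv_cancel_left, inv_mul_cancel_left, mul_inv_cancel, inv_mul_cancel, mul_one, one_mul, inv_one]; done) | simp only [mul_assoc, mul_inv_rev, inv_inv, mul_inv_cancel_left, inv_mul_cancel_left, mul_inv_cancel, inv_mul_cancel, mul_one, one_mul, inv_one, C]),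
    o.cv hδ (P * f1⁻¹) (by simp only [hδ, δinv hδ, δone hδ, D] <;> linear_combination (0) * h3) (by first | (simp only [mul_assoc, mul_inv_rev, inv_inv, mul_inv_cancel_left, inv_mul_cancel_left, mul_inv_cancel, inv_mul_cancel, mul_one, one_mul, inv_one]; done) | simp only [mul_assoc, mul_inv_rev, inv_inv, mul_inv_cancel_left, inv_mul_cancel_left, mul_inv_cancel, inv_mul_cancel, mul_one, one_mul, inv_one, C]) (by first | (simp only [mul_assoc, mul_inv_rev, inv_inv, mul_inv_cancel_left, inv_mul_cancel_left, mul_inv_cancel, inv_mul_cancel, mul_one, one_mul, inv_one]; done) | simp only [mul_assoc, mul_inv_rev, inv_inv, mul_inv_cancel_left, inv_mul_cancel_left, mul_inv_cancel, inv_mul_cancel, mul_one, one_mul, inv_one, C]),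
    o.cv hδ (P * f0⁻¹) (by simp only [hδ, δinv hδ, δone hδ, D] <;> linear_combination (-1) * h3) (by first | (simp only [mul_assoc, mul_inv_rev, inv_inv, mul_inv_cancel_left, inv_mul_cancel_left, mul_inv_cancel, inv_mul_cancel, mul_one, one_mul, inv_one]; done) | simp only [mul_assoc, mul_inv_rev, inv_inv, mul_inv_cancel_left, inv_mul_cancel_left, mul_inv_cancel, inv_mul_cancel, mul_one, one_mul, inv_one, C]) (by first | (simp only [mul_assoc, mul_inv_rev, inv_inv, mul_inv_cancel_left, inv_mul_cancel_left, mul_inv_cancel, inv_mul_cancel, mul_one, one_mul, inv_one, C0]; done) | simp only [mul_assoc, mul_inv_rev, inv_inv, mul_inv_cancel_left, inv_mul_cancel_left, mul_inv_cancel, inv_mul_cancel, mul_one, one_mul, inv_one, C]),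
    o.cv hδ (1) (by simp only [hδ, δinv hδ, δone hδ, D] <;> linear_combination (0) * h3) (by first | (simp only [mul_assoc, mul_inv_rev, inv_inv, mul_inv_cancel_left, inv_mul_cancel_left, mul_inv_cancel, inv_mul_cancel, mul_one, one_mul, inv_one]; done) | simp only [mul_assoc, mul_inv_rev, inv_inv, mul_inv_cancel_left, inv_mul_cancel_left, mul_inv_cancel, inv_mul_cancel, mul_one, one_mul, inv_one, C]) (by first | (simp only [mul_assoc, mul_inv_rev, inv_inv, mul_inv_cancel_left, inv_mul_cancel_left, mul_inv_cancel, inv_mul_cancel, mul_one, one_mul, inv_one]; done) | simp only [mul_assoc, mul_inv_rev, inv_inv, mul_inv_cancel_left, inv_mul_cancel_left, mul_inv_cancel, inv_mul_cancel, mul_one, one_mul, inv_one, C]),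
    o.cv hδ (1) (by simp only [hδ, δinv hδ, δone hδ, D] <;> linear_combination (0) * h3) (by first | (simp only [mul_assoc, mul_inv_rev, inv_inv, mul_inv_cancel_left, inv_mul_cancel_left, mul_inv_cancel, inv_mul_cancel, mul_one, one_mul, inv_one]; done) | simp only [mul_assoc, mul_inv_rev, inv_inv, mul_inv_cancel_left, inv_mul_cancel_left, mul_inv_cancel, inv_mul_cancel, mul_one, one_mul, inv_one, C]) (by first | (simp only [mul_assoc, mul_inv_rev, inv_inv, mul_inv_cancel_left, inv_mul_cancel_left, mul_inv_cancel, inv_mul_cancel, mul_one, one_mul, inv_one]; done) | simp only [mul_assoc, mul_inv_rev, inv_inv, mul_inv_cancel_left, inv_mul_cancel_left, mul_inv_cancel, inv_mul_cancel, mul_one, one_mul, inv_one, C]),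
    o.cv hδ (1) (by simp only [hδ, δinv hδ, δone hδ, D] <;> linear_combination (0) * h3) (by first | (simp only [mul_assoc, mul_inv_rev, inv_inv, mul_inv_cancel_left, inv_mul_cancel_left, mul_inv_cancel, inv_mul_cancel, mul_one, one_mul, inv_one]; done) | simp only [mul_assoc, mul_inv_rev, inv_inv, mul_inv_cancel_left, inv_mul_cancel_left, mul_inv_cancel, inv_mul_cancel, mul_one, one_mul, inv_one, C]) (by first | (simp only [mul_assoc, mul_inv_rev, inv_inv, mul_inv_cancel_left, inv_mul_cancel_left, mul_inv_cancel, inv_mul_cancel, mul_one, one_mul, inv_one]; done) | simp only [mul_assoc, mul_inv_rev, inv_inv, mul_inv_cancel_left, inv_mul_cancel_left, mul_inv_cancel, inv_mul_cancel, mul_one, one_mul, inv_one, C]),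
    o.cv hδ (P * f3⁻¹) (by simp only [hδ, δinv hδ, δone hδ, D] <;> linear_combination (-1) * h3) (by first | (simp only [mul_assoc, mul_inv_rev, inv_inv, mul_inv_cancel_left, inv_mul_cancel_left, mul_inv_cancel, inv_mul_cancel, mul_one, one_mul, inv_one]; done) | simp only [mul_assoc, mul_inv_rev, inv_inv, mul_inv_cancel_left, inv_mul_cancel_left, mul_inv_cancel, inv_mul_cancel, mul_one, one_mul, inv_one, C]) (by first | (simp only [mul_assoc, mul_inv_rev, inv_inv, mul_inv_cancel_left, inv_mul_cancel_left, mul_inv_cancel, inv_mul_cancel, mul_one, one_mul, inv_one, C6]; done) | simp only [mul_assoc, mul_inv_rev, inv_inv, mul_inv_cancel_left, inv_mul_cancel_left, mul_inv_cancel, inv_mul_cancel, mul_one, one_mul, inv_one, C]),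
    o.cv hδ (f3 * (P⁻¹ * (f3 * P⁻¹))) (by simp only [hδ, δinv hδ, δone hδ, D] <;> linear_combination (1) * h3) (by first | (simp only [mul_assoc, mul_inv_rev, inv_inv, mul_inv_cancel_left, inv_mul_cancel_left, mul_inv_cancel, inv_mul_cancel, mul_one, one_mul, inv_one]; done) | simp only [mul_assoc, mul_inv_rev, inv_inv, mul_inv_cancel_left, inv_mul_cancel_left, mul_inv_cancel, inv_mul_cancel, mul_one, one_mul, inv_one, C]) (by first | (simp only [mul_assoc, mul_inv_rev, inv_inv, mul_inv_cancel_left, inv_mul_cancel_left, mul_inv_cancel, inv_mul_cancel, mul_one, one_mul, inv_one, C6]; done) | simp only [mul_assoc, mul_inv_rev, inv_inv, mul_inv_cancel_left, inv_mul_cancel_left, mul_inv_cancel, inv_mul_cancel, mul_one, one_mul, inv_one, C]),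
    o.cv hδ (1) (by simp only [hδ, δinv hδ, δone hδ, D] <;> linear_combination (0) * h3) (by first | (simp only [mul_assoc, mul_inv_rev, inv_inv, mul_inv_cancel_left, inv_mul_cancel_left, mul_inv_cancel, inv_mul_cancel, mul_one, one_mul, inv_one]; done) | simp only [mul_assoc, mul_inv_rev, inv_inv, mul_inv_cancel_left, inv_mul_cancel_left, mul_inv_cancel, inv_mul_cancel, mul_one, one_mul, inv_one, C]) (by first | (simp only [mul_assoc, mul_inv_rev, inv_inv, mul_inv_cancel_left, inv_mul_cancel_left, mul_inv_cancel, inv_mul_cancel, mul_one, one_mul, inv_one]; done) | simp only [mul_assoc, mul_inv_rev, inv_inv, mul_inv_cancel_left, inv_mul_cancel_left, mul_inv_cancel, inv_mul_cancel, mul_one, one_mul, inv_one, C]),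
    o.cv hδ (f4 * P⁻¹) (by simp only [hδ, δinv hδ, δone hδ, D] <;> linear_combination (0) * h3) (by first | (simp only [mul_assoc, mul_inv_rev, inv_inv, mul_inv_cancel_left, inv_mul_cancel_left, mul_inv_cancel, inv_mul_cancel, mul_one, one_mul, inv_one]; done) | simp only [mul_assoc, mul_inv_rev, inv_inv, mul_inv_cancel_left, inv_mul_cancel_left, mul_inv_cancel, inv_mul_cancel, mul_one, one_mul, inv_one, C]) (by first | (simp only [mul_assoc, mul_inv_rev, inv_inv, mul_inv_cancel_left, inv_mul_cancel_left, mul_inv_cancel, inv_mul_cancel, mul_one, one_mul, inv_one]; done) | simp only [mul_assoc, mul_inv_rev, inv_inv, mul_inv_cancel_left, inv_mul_cancel_left, mul_inv_cancel, inv_mul_cancel, mul_one, one_mul, inv_one, C]),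
    o.cv hδ (f0 * (f3⁻¹ * (P * (f3⁻¹ * (P * (f3⁻¹ * (P * f0⁻¹))))))) (by simp only [hδ, δinv hδ, δone hδ, D] <;> linear_combination (0) * h3) (by first | (simp only [mul_assoc, mul_inv_rev, inv_inv, mul_inv_cancel_left, inv_mul_cancel_left, mul_inv_cancel, inv_mul_cancel, mul_one, one_mul, inv_one, C6]; done) | simp only [mul_assoc, mul_inv_rev, inv_inv, mul_inv_cancel_left, inv_mul_cancel_left, mul_inv_cancel, inv_mul_cancel, mul_one, one_mul, inv_one, C]) (by first | (simp only [mul_assoc, mul_inv_rev, inv_inv, mul_inv_cancel_left, inv_mul_cancel_left, mul_inv_cancel, inv_mul_cancel, mul_one, one_mul, inv_one, C6]; done) | simp only [mul_assoc, mul_inv_rev, inv_inv, mul_inv_cancel_left, inv_mul_cancel_left, mul_inv_cancel, inv_mul_cancel, mul_one, one_mul, inv_one, C]),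
    o.cv hδ (f0 * (f3⁻¹ * (P * (f3⁻¹ * (P * (f3⁻¹ * (P * f0⁻¹))))))) (by simp only [hδ, δinv hδ, δone hδ, D] <;> linear_combination (0) * h3) (by first | (simp only [mul_assoc, mul_inv_rev, inv_inv, mul_inv_cancel_left, inv_mul_cancel_left, mul_inv_cancel, inv_mul_cancel, mul_one, one_mul, inv_one, C6]; done) | simp only [mul_assoc, mul_inv_rev, inv_inv, mul_inv_cancel_left, inv_mul_cancel_left, mul_inv_cancel, inv_mul_cancel, mul_one, one_mul, inv_one, C]) (by first | (simp only [mul_assoc, mul_inv_rev, inv_inv, mul_inv_cancel_left, inv_mul_cancel_left, mul_inv_cancel, inv_mul_cancel, mul_one, one_mul, inv_one, C6]; done) | simp only [mul_assoc, mul_inv_rev, inv_inv, mul_inv_cancel_left, inv_mul_cancel_left, mul_inv_cancel, inv_mul_cancel, mul_one, one_mul, inv_one, C]),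
    o.cv hδ (f1 * P⁻¹) (by simp only [hδ, δinv hδ, δone hδ, D] <;> linear_combination (0) * h3) (by first | (simp only [mul_assoc, mul_inv_rev, inv_inv, mul_inv_cancel_left, inv_mul_cancel_left, mul_inv_cancel, inv_mul_cancel, mul_one, one_mul, inv_one]; done) | simp only [mul_assoc, mul_inv_rev, inv_inv, mul_inv_cancel_left, inv_mul_cancel_left, mul_inv_cancel, inv_mul_cancel, mul_one, one_mul, inv_one, C]) (by first | (simp only [mul_assoc, mul_inv_rev, inv_inv, mul_inv_cancel_left, inv_mul_cancel_left, mul_inv_cancel, inv_mul_cancel, mul_one, one_mul, inv_one, C1, C6]; done) | simp only [mul_assoc, mul_inv_rev, inv_inv, mul_inv_cancel_left, inv_mul_cancel_left, mul_inv_cancel, inv_mul_cancel, mul_one, one_mul, inv_one, C]),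
    o.cv hδ (f1 * (f3⁻¹ * (P * (f3⁻¹ * (P * (f3⁻¹ * (P * f1⁻¹))))))) (by simp only [hδ, δinv hδ, δone hδ, D] <;> linear_combination (0) * h3) (by first | (simp only [mul_assoc, mul_inv_rev, inv_inv, mul_inv_cancel_left, inv_mul_cancel_left, mul_inv_cancel, inv_mul_cancel, mul_one, one_mul, inv_one, C6]; done) | simp only [mul_assoc, mul_inv_rev, inv_inv, mul_inv_cancel_left, inv_mul_cancel_left, mul_inv_cancel, inv_mul_cancel, mul_one, one_mul, inv_one, C]) (by first | (simp only [mul_assoc, mul_inv_rev, inv_inv, mul_inv_cancel_left, inv_mul_cancel_left, mul_inv_cancel, inv_mul_cancel, mul_one, one_mul, inv_one, C6]; done) | simp only [mul_assoc, mul_inv_rev, inv_inv, mul_inv_cancel_left, inv_mul_cancel_left, mul_inv_cancel, inv_mul_cancel, mul_one, one_mul, inv_one, C]),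
    o.cv hδ (f1 * (f3⁻¹ * (P * (f3⁻¹ * (P * (f3⁻¹ * (P * f1⁻¹))))))) (by simp only [hδ, δinv hδ, δone hδ, D] <;> linear_combination (-1) * h3) (by first | (simp only [mul_assoc, mul_inv_rev, inv_inv, mul_inv_cancel_left, inv_mul_cancel_left, mul_inv_cancel, inv_mul_cancel, mul_one, one_mul, inv_one, C6]; done) | simp only [mul_assoc, mul_inv_rev, inv_inv, mul_inv_cancel_left, inv_mul_cancel_left, mul_inv_cancel, inv_mul_cancel, mul_one, one_mul, inv_one, C]) (by first | (simp only [mul_assoc, mul_inv_rev, inv_inv, mul_inv_cancel_left, inv_mul_cancel_left, mul_inv_cancel, inv_mul_cancel, mul_one, one_mul, inv_one, C6]; done) | simp only [mul_assoc, mul_inv_rev, inv_inv, mul_inv_cancel_left, inv_mul_cancel_left, mul_inv_cancel, inv_mul_cancel, mul_one, one_mul, inv_one, C]),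
    o.cv hδ (1) (by simp only [hδ, δinv hδ, δone hδ, D] <;> linear_combination (1) * h3) (by first | (simp only [mul_assoc, mul_inv_rev, inv_inv, mul_inv_cancel_left, inv_mul_cancel_left, mul_inv_cancel, inv_mul_cancel, mul_one, one_mul, inv_one]; done) | simp only [mul_assoc, mul_inv_rev, inv_inv, mul_inv_cancel_left, inv_mul_cancel_left, mul_inv_cancel, inv_mul_cancel, mul_one, one_mul, inv_one, C]) (by first | (simp only [mul_assoc, mul_inv_rev, inv_inv, mul_inv_cancel_left, inv_mul_cancel_left, mul_inv_cancel, inv_mul_cancel, mul_one, one_mul, inv_one, C6]; done) | simp only [mul_assoc, mul_inv_rev, inv_inv, mul_inv_cancel_left, inv_mul_cancel_left, mul_inv_cancel, inv_mul_cancel, mul_one, one_mul, inv_one, C]),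
    o.cv hδ (1) (by simp only [hδ, δinv hδ, δone hδ, D] <;> linear_combination (1) * h3) (by first | (simp only [mul_assoc, mul_inv_rev, inv_inv, mul_inv_cancel_left, inv_mul_cancel_left, mul_inv_cancel, inv_mul_cancel, mul_one, one_mul, inv_one]; done) | simp only [mul_assoc, mul_inv_rev, inv_inv, mul_inv_cancel_left, inv_mul_cancel_left, mul_inv_cancel, inv_mul_cancel, mul_one, one_mul, inv_one, C]) (by first | (simp only [mul_assoc, mul_inv_rev, inv_inv, mul_inv_cancel_left, inv_mul_cancel_left, mul_inv_cancel, inv_mul_cancel, mul_one, one_mul, inv_one, C6]; done) | simp only [mul_assoc, mul_inv_rev, inv_inv, mul_inv_cancel_left, inv_mul_cancel_left, mul_inv_cancel, inv_mul_cancel, mul_one, one_mul, inv_one, C]),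
    o.cv hδ (f2 * (f3⁻¹ * (P * (f3⁻¹ * (P * (f3⁻¹ * (P * f2⁻¹))))))) (by simp only [hδ, δinv hδ, δone hδ, D] <;> linear_combination (0) * h3) (by first | (simp only [mul_assoc, mul_inv_rev, inv_inv, mul_inv_cancel_left, inv_mul_cancel_left, mul_inv_cancel, inv_mul_cancel, mul_one, one_mul, inv_one, C6]; done) | simp only [mul_assoc, mul_inv_rev, inv_inv, mul_inv_cancel_left, inv_mul_cancel_left, mul_inv_cancel, inv_mul_cancel, mul_one, one_mul, inv_one, C]) (by first | (simp only [mul_assoc, mul_inv_rev, inv_inv, mul_inv_cancel_left, inv_mul_cancel_left, mul_inv_cancel, inv_mul_cancel, mul_one, one_mul, inv_one, C6]; done) | simp only [mul_assoc, mul_inv_rev, inv_inv, mul_inv_cancel_left, inv_mul_cancel_left, mul_inv_cancel, inv_mul_cancel, mul_one, one_mul, inv_one, C]),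
    o.cv hδ (f2 * (f3⁻¹ * (P * (f3⁻¹ * (P * (f3⁻¹ * (P * f2⁻¹))))))) (by simp only [hδ, δinv hδ, δone hδ, D] <;> linear_combination (-1) * h3) (by first | (simp only [mul_assoc, mul_inv_rev, inv_inv, mul_inv_cancel_left, inv_mul_cancel_left, mul_inv_cancel, inv_mul_cancel, mul_one, one_mul, inv_one, C6]; done) | simp only [mul_assoc, mul_inv_rev, inv_inv, mul_inv_cancel_left, inv_mul_cancel_left, mul_inv_cancel, inv_mul_cancel, mul_one, one_mul, inv_one, C]) (by first | (simp only [mul_assoc, mul_inv_rev, inv_inv, mul_inv_cancel_left, inv_mul_cancel_left, mul_inv_cancel, inv_mul_cancel, mul_one, one_mul, inv_one, C6]; done) | simp only [mul_assoc, mul_inv_rev, inv_inv, mul_inv_cancel_left, inv_mul_cancel_left, mul_inv_cancel, inv_mul_cancel, mul_one, one_mul, inv_one, C]),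
    o.cv hδ (f2 * (f3⁻¹ * (P * (f3⁻¹ * (P * (f3⁻¹ * (P * f2⁻¹))))))) (by simp only [hδ, δinv hδ, δone hδ, D] <;> linear_combination (-1) * h3) (by first | (simp only [mul_assoc, mul_inv_rev, inv_inv, mul_inv_cancel_left, inv_mul_cancel_left, mul_inv_cancel, inv_mul_cancel, mul_one, one_mul, inv_one, C6]; done) | simp only [mul_assoc, mul_inv_rev, inv_inv, mul_inv_cancel_left, inv_mul_cancel_left, mul_inv_cancel, inv_mul_cancel, mul_one, one_mul, inv_one, C]) (by first | (simp only [mul_assoc, mul_inv_rev, inv_inv, mul_inv_cancel_left, inv_mul_cancel_left, mul_inv_cancel, inv_mul_cancel, mul_one, one_mul, inv_one, C6]; done) | simp only [mul_assoc, mul_inv_rev, inv_inv, mul_inv_cancel_left, inv_mul_cancel_left, mul_inv_cancel, inv_mul_cancel, mul_one, one_mul, inv_one, C])⟩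

theorem close_AAAAA_k21 {G : Type*} [Group G] {δ : G → ZMod 3} (hδ : ∀ u v, δ (u * v) = δ u + δ v) (o : Pre δ)
    {P Q f0 f1 f2 f3 f4 : G} {e : ZMod 3} (h3 : 3 * e = 0)
    (D : δ P = e ∧ δ Q = -e ∧ δ f0 = 0 ∧ δ f1 = 0 ∧ δ f2 = 0 ∧ δ f3 = 0 ∧ δ f4 = 0)
    (C : Cube P f0 ∧ Cube P f1 ∧ Cube Q f0 ∧ Cube Q f1 ∧ Cube P f2 ∧ Cube Q f2 ∧ Cube P f3 ∧ Cube Q f3 ∧ Cube P f4 ∧ Cube Q f4) :
    (o.lt (P * f1⁻¹) (P * f3⁻¹) ↔ o.lt (P * Q⁻¹) (P * (f3⁻¹ * (f1 * Q⁻¹)))) ∧
    (o.lt (f3 * (P⁻¹ * (f3 * f2⁻¹))) (P * (f3⁻¹ * (Q * P⁻¹))) ↔ o.lt (P * (f3⁻¹ * (P * f2⁻¹))) (P * (f3⁻¹ * (Q * P⁻¹)))) ∧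
    (o.lt (f3 * P⁻¹) (P * (f3⁻¹ * (f4 * Q⁻¹))) ↔ o.lt (f3 * P⁻¹) (P * (f3⁻¹ * (f4 * Q⁻¹)))) ∧
    (o.lt (P * f4⁻¹) (P * f3⁻¹) ↔ o.lt (P * Q⁻¹) (P * (f3⁻¹ * (f4 * Q⁻¹)))) ∧
    (o.lt (P * f3⁻¹) (P * f4⁻¹) ↔ o.lt (P * (f3⁻¹ * (f4 * Q⁻¹))) (P * Q⁻¹)) ∧
    (o.lt (P * (f3⁻¹ * (f4 * Q⁻¹))) (f3 * P⁻¹) ↔ o.lt (P * (f3⁻¹ * (f4 * Q⁻¹))) (f3 * P⁻¹)) ∧
    (o.lt (P * (f3⁻¹ * (Q * P⁻¹))) (f3 * (P⁻¹ * (f3 * f0⁻¹))) ↔ o.lt (P * (f3⁻¹ * (Q * P⁻¹))) (P * (f3⁻¹ * (P * f0⁻¹)))) ∧
    (o.lt (f3 * (P⁻¹ * (f3 * f0⁻¹))) (P * (f3⁻¹ * (Q * P⁻¹))) ↔ o.lt (P * (f3⁻¹ * (f0 * P⁻¹))) (P * (f3⁻¹ * (Q * f0⁻¹)))) ∧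
    (o.lt (P * (f3⁻¹ * (f0 * P⁻¹))) (P * (f3⁻¹ * (f4 * P⁻¹))) ↔ o.lt (P * (f3⁻¹ * (f0 * P⁻¹))) (P * (f3⁻¹ * (f4 * P⁻¹)))) ∧
    (o.lt (P * (f3⁻¹ * (f4 * P⁻¹))) (P * (f3⁻¹ * (Q * f0⁻¹))) ↔ o.lt (P * (f3⁻¹ * (f4 * P⁻¹))) (P * (f3⁻¹ * (Q * f0⁻¹)))) ∧
    (o.lt (P * (f3⁻¹ * (f4 * P⁻¹))) (P * (f3⁻¹ * (f0 * P⁻¹))) ↔ o.lt (P * (f3⁻¹ * (f4 * P⁻¹))) (P * (f3⁻¹ * (f0 * P⁻¹)))) ∧
    (o.lt (P * (f3⁻¹ * (Q * f0⁻¹))) (P * (f3⁻¹ * (Q * f4⁻¹))) ↔ o.lt (P * (f3⁻¹ * (Q * f0⁻¹))) (P * (f3⁻¹ * (Q * f4⁻¹)))) ∧
    (o.lt (P * f3⁻¹) (f0 * Q⁻¹) ↔ o.lt (P * (f3⁻¹ * (Q * f0⁻¹))) (1)) ∧
    (o.lt (f4 * Q⁻¹) (P * f3⁻¹) ↔ o.lt (1) (P * (f3⁻¹ * (Q * f4⁻¹)))) ∧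
    (o.lt (P * (f3⁻¹ * (Q * f1⁻¹))) (P * (f3⁻¹ * (f1 * P⁻¹))) ↔ o.lt (P * (f3⁻¹ * (Q * f1⁻¹))) (P * (f3⁻¹ * (f1 * P⁻¹)))) ∧
    (o.lt (P * f3⁻¹) (f1 * Q⁻¹) ↔ o.lt (P * (f3⁻¹ * (Q * f1⁻¹))) (1)) ∧
    (o.lt (P * f1⁻¹) (P * f3⁻¹) ↔ o.lt (1) (P * (f3⁻¹ * (f1 * P⁻¹)))) ∧
    (o.lt (P * (f3⁻¹ * (Q * f1⁻¹))) (P * (f3⁻¹ * (Q * f2⁻¹))) ↔ o.lt (P * (f3⁻¹ * (Q * f1⁻¹))) (P * (f3⁻¹ * (Q * f2⁻¹)))) ∧
    (o.lt (f2 * Q⁻¹) (P * f3⁻¹) ↔ o.lt (1) (P * (f3⁻¹ * (Q * f2⁻¹)))) ∧
    (o.lt (P * (f3⁻¹ * (f2 * P⁻¹))) (P * (f3⁻¹ * (f1 * P⁻¹))) ↔ o.lt (P * (f3⁻¹ * (f2 * P⁻¹))) (P * (f3⁻¹ * (f1 * P⁻¹)))) := by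
  have C' := C
  obtain ⟨C0, C1, C2, C3, C4, C5, C6, C7, C8, C9⟩ := C'
  simp only [Cube] at C C0 C1 C2 C3 C4 C5 C6 C7 C8 C9
  exact ⟨o.cv hδ (f1 * Q⁻¹) (by simp only [hδ, δinv hδ, δone hδ, D] <;> linear_combination (0) * h3) (by first | (simp only [mul_assoc, mul_inv_rev, inv_inv, mul_inv_cancel_left, inv_mul_cancel_left, mul_inv_cancel, inv_mul_cancel, mul_one, one_mul, inv_one]; done) | simp only [mul_assoc, mul_inv_rev, inv_inv, mul_inv_cancel_left, inv_mul_cancel_left, mul_inv_cancel, inv_mul_cancel, mul_one, one_mul, inv_one, C]) (by first | (simp only [mul_assoc, mul_inv_rev, inv_inv, mul_inv_cancel_left, inv_mul_cancel_left, mul_inv_cancel, inv_mul_cancel, mul_one, one_mul, inv_one]; done) | simp only [mul_assoc, mul_inv_rev, inv_inv, mul_inv_cancel_left, inv_mul_cancel_left, mul_inv_cancel, inv_mul_cancel, mul_one, one_mul, inv_one, C]),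
    o.cv hδ (f2 * (f3⁻¹ * (P * (f3⁻¹ * (P * (f3⁻¹ * (P * f2⁻¹))))))) (by simp only [hδ, δinv hδ, δone hδ, D] <;> linear_combination (0) * h3) (by first | (simp only [mul_assoc, mul_inv_rev, inv_inv, mul_inv_cancel_left, inv_mul_cancel_left, mul_inv_cancel, inv_mul_cancel, mul_one, one_mul, inv_one, C6]; done) | simp only [mul_assoc, mul_inv_rev, inv_inv, mul_inv_cancel_left, inv_mul_cancel_left, mul_inv_cancel, inv_mul_cancel, mul_one, one_mul, inv_one, C]) (by first | (simp only [mul_assoc, mul_inv_rev, inv_inv, mul_inv_cancel_left, inv_mul_cancel_left, mul_inv_cancel, inv_mul_cancel, mul_one, one_mul, inv_one, C6]; done) | simp only [mul_assoc, mul_inv_rev, inv_inv, mul_inv_cancel_left, inv_mul_cancel_left, mul_inv_cancel, inv_mul_cancel, mul_one, one_mul, inv_one, C]),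
    o.cv hδ (1) (by simp only [hδ, δinv hδ, δone hδ, D] <;> linear_combination (-1) * h3) (by first | (simp only [mul_assoc, mul_inv_rev, inv_inv, mul_inv_cancel_left, inv_mul_cancel_left, mul_inv_cancel, inv_mul_cancel, mul_one, one_mul, inv_one]; done) | simp only [mul_assoc, mul_inv_rev, inv_inv, mul_inv_cancel_left, inv_mul_cancel_left, mul_inv_cancel, inv_mul_cancel, mul_one, one_mul, inv_one, C]) (by first | (simp only [mul_assoc, mul_inv_rev, inv_inv, mul_inv_cancel_left, inv_mul_cancel_left, mul_inv_cancel, inv_mul_cancel, mul_one, one_mul, inv_one]; done) | simp only [mul_assoc, mul_inv_rev, inv_inv, mul_inv_cancel_left, inv_mul_cancel_left, mul_inv_cancel, inv_mul_cancel, mul_one, one_mul, inv_one, C]),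
    o.cv hδ (f4 * Q⁻¹) (by simp only [hδ, δinv hδ, δone hδ, D] <;> linear_combination (0) * h3) (by first | (simp only [mul_assoc, mul_inv_rev, inv_inv, mul_inv_cancel_left, inv_mul_cancel_left, mul_inv_cancel, inv_mul_cancel, mul_one, one_mul, inv_one]; done) | simp only [mul_assoc, mul_inv_rev, inv_inv, mul_inv_cancel_left, inv_mul_cancel_left, mul_inv_cancel, inv_mul_cancel, mul_one, one_mul, inv_one, C]) (by first | (simp only [mul_assoc, mul_inv_rev, inv_inv, mul_inv_cancel_left, inv_mul_cancel_left, mul_inv_cancel, inv_mul_cancel, mul_one, one_mul, inv_one]; done) | simp only [mul_assoc, mul_inv_rev, inv_inv, mul_inv_cancel_left, inv_mul_cancel_left, mul_inv_cancel, inv_mul_cancel, mul_one, one_mul, inv_one, C]),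
    o.cv hδ (f4 * Q⁻¹) (by simp only [hδ, δinv hδ, δone hδ, D] <;> linear_combination (0) * h3) (by first | (simp only [mul_assoc, mul_inv_rev, inv_inv, mul_inv_cancel_left, inv_mul_cancel_left, mul_inv_cancel, inv_mul_cancel, mul_one, one_mul, inv_one]; done) | simp only [mul_assoc, mul_inv_rev, inv_inv, mul_inv_cancel_left, inv_mul_cancel_left, mul_inv_cancel, inv_mul_cancel, mul_one, one_mul, inv_one, C]) (by first | (simp only [mul_assoc, mul_inv_rev, inv_inv, mul_inv_cancel_left, inv_mul_cancel_left, mul_inv_cancel, inv_mul_cancel, mul_one, one_mul, inv_one]; done) | simp only [mul_assoc, mul_inv_rev, inv_inv, mul_inv_cancel_left, inv_mul_cancel_left, mul_inv_cancel, inv_mul_cancel, mul_one, one_mul, inv_one, C]),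
    o.cv hδ (1) (by simp only [hδ, δinv hδ, δone hδ, D] <;> linear_combination (1) * h3) (by first | (simp only [mul_assoc, mul_inv_rev, inv_inv, mul_inv_cancel_left, inv_mul_cancel_left, mul_inv_cancel, inv_mul_cancel, mul_one, one_mul, inv_one]; done) | simp only [mul_assoc, mul_inv_rev, inv_inv, mul_inv_cancel_left, inv_mul_cancel_left, mul_inv_cancel, inv_mul_cancel, mul_one, one_mul, inv_one, C]) (by first | (simp only [mul_assoc, mul_inv_rev, inv_inv, mul_inv_cancel_left, inv_mul_cancel_left, mul_inv_cancel, inv_mul_cancel, mul_one, one_mul, inv_one]; done) | simp only [mul_assoc, mul_inv_rev, inv_inv, mul_inv_cancel_left, inv_mul_cancel_left, mul_inv_cancel, inv_mul_cancel, mul_one, one_mul, inv_one, C]),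
    o.cv hδ (1) (by simp only [hδ, δinv hδ, δone hδ, D] <;> linear_combination (0) * h3) (by first | (simp only [mul_assoc, mul_inv_rev, inv_inv, mul_inv_cancel_left, inv_mul_cancel_left, mul_inv_cancel, inv_mul_cancel, mul_one, one_mul, inv_one]; done) | simp only [mul_assoc, mul_inv_rev, inv_inv, mul_inv_cancel_left, inv_mul_cancel_left, mul_inv_cancel, inv_mul_cancel, mul_one, one_mul, inv_one, C]) (by first | (simp only [mul_assoc, mul_inv_rev, inv_inv, mul_inv_cancel_left, inv_mul_cancel_left, mul_inv_cancel, inv_mul_cancel, mul_one, one_mul, inv_one, C6]; done) | simp only [mul_assoc, mul_inv_rev, inv_inv, mul_inv_cancel_left, inv_mul_cancel_left, mul_inv_cancel, inv_mul_cancel, mul_one, one_mul, inv_one, C]),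
    o.cv hδ (f0 * (f3⁻¹ * (P * (f3⁻¹ * (P * (f3⁻¹ * (f0 * P⁻¹))))))) (by simp only [hδ, δinv hδ, δone hδ, D] <;> linear_combination (0) * h3) (by first | (simp only [mul_assoc, mul_inv_rev, inv_inv, mul_inv_cancel_left, inv_mul_cancel_left, mul_inv_cancel, inv_mul_cancel, mul_one, one_mul, inv_one]; done) | simp only [mul_assoc, mul_inv_rev, inv_inv, mul_inv_cancel_left, inv_mul_cancel_left, mul_inv_cancel, inv_mul_cancel, mul_one, one_mul, inv_one, C]) (by first | (simp only [mul_assoc, mul_inv_rev, inv_inv, mul_inv_cancel_left, inv_mul_cancel_left, mul_inv_cancel, inv_mul_cancel, mul_one, one_mul, inv_one, C0, C6]; done) | simp only [mul_assoc, mul_inv_rev, inv_inv, mul_inv_cancel_left, inv_mul_cancel_left, mul_inv_cancel, inv_mul_cancel, mul_one, one_mul, inv_one, C]),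
    o.cv hδ (1) (by simp only [hδ, δinv hδ, δone hδ, D] <;> linear_combination (0) * h3) (by first | (simp only [mul_assoc, mul_inv_rev, inv_inv, mul_inv_cancel_left, inv_mul_cancel_left, mul_inv_cancel, inv_mul_cancel, mul_one, one_mul, inv_one]; done) | simp only [mul_assoc, mul_inv_rev, inv_inv, mul_inv_cancel_left, inv_mul_cancel_left, mul_inv_cancel, inv_mul_cancel, mul_one, one_mul, inv_one, C]) (by first | (simp only [mul_assoc, mul_inv_rev, inv_inv, mul_inv_cancel_left, inv_mul_cancel_left, mul_inv_cancel, inv_mul_cancel, mul_one, one_mul, inv_one]; done) | simp only [mul_assoc, mul_inv_rev, inv_inv, mul_inv_cancel_left, inv_mul_cancel_left, mul_inv_cancel, inv_mul_cancel, mul_one, one_mul, inv_one, C]),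
    o.cv hδ (1) (by simp only [hδ, δinv hδ, δone hδ, D] <;> linear_combination (0) * h3) (by first | (simp only [mul_assoc, mul_inv_rev, inv_inv, mul_inv_cancel_left, inv_mul_cancel_left, mul_inv_cancel, inv_mul_cancel, mul_one, one_mul, inv_one]; done) | simp only [mul_assoc, mul_inv_rev, inv_inv, mul_inv_cancel_left, inv_mul_cancel_left, mul_inv_cancel, inv_mul_cancel, mul_one, one_mul, inv_one, C]) (by first | (simp only [mul_assoc, mul_inv_rev, inv_inv, mul_inv_cancel_left, inv_mul_cancel_left, mul_inv_cancel, inv_mul_cancel, mul_one, one_mul, inv_one]; done) | simp only [mul_assoc, mul_inv_rev, inv_inv, mul_inv_cancel_left, inv_mul_cancel_left, mul_inv_cancel, inv_mul_cancel, mul_one, one_mul, inv_one, C]),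
    o.cv hδ (1) (by simp only [hδ, δinv hδ, δone hδ, D] <;> linear_combination (0) * h3) (by first | (simp only [mul_assoc, mul_inv_rev, inv_inv, mul_inv_cancel_left, inv_mul_cancel_left, mul_inv_cancel, inv_mul_cancel, mul_one, one_mul, inv_one]; done) | simp only [mul_assoc, mul_inv_rev, inv_inv, mul_inv_cancel_left, inv_mul_cancel_left, mul_inv_cancel, inv_mul_cancel, mul_one, one_mul, inv_one, C]) (by first | (simp only [mul_assoc, mul_inv_rev, inv_inv, mul_inv_cancel_left, inv_mul_cancel_left, mul_inv_cancel, inv_mul_cancel, mul_one, one_mul, inv_one]; done) | simp only [mul_assoc, mul_inv_rev, inv_inv, mul_inv_cancel_left, inv_mul_cancel_left, mul_inv_cancel, inv_mul_cancel, mul_one, one_mul, inv_one, C]),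
    o.cv hδ (1) (by simp only [hδ, δinv hδ, δone hδ, D] <;> linear_combination (0) * h3) (by first | (simp only [mul_assoc, mul_inv_rev, inv_inv, mul_inv_cancel_left, inv_mul_cancel_left, mul_inv_cancel, inv_mul_cancel, mul_one, one_mul, inv_one]; done) | simp only [mul_assoc, mul_inv_rev, inv_inv, mul_inv_cancel_left, inv_mul_cancel_left, mul_inv_cancel, inv_mul_cancel, mul_one, one_mul, inv_one, C]) (by first | (simp only [mul_assoc, mul_inv_rev, inv_inv, mul_inv_cancel_left, inv_mul_cancel_left, mul_inv_cancel, inv_mul_cancel, mul_one, one_mul, inv_one]; done) | simp only [mul_assoc, mul_inv_rev, inv_inv, mul_inv_cancel_left, inv_mul_cancel_left, mul_inv_cancel, inv_mul_cancel, mul_one, one_mul, inv_one, C]),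
    o.cv hδ (Q * f0⁻¹) (by simp only [hδ, δinv hδ, δone hδ, D] <;> linear_combination (0) * h3) (by first | (simp only [mul_assoc, mul_inv_rev, inv_inv, mul_inv_cancel_left, inv_mul_cancel_left, mul_inv_cancel, inv_mul_cancel, mul_one, one_mul, inv_one]; done) | simp only [mul_assoc, mul_inv_rev, inv_inv, mul_inv_cancel_left, inv_mul_cancel_left, mul_inv_cancel, inv_mul_cancel, mul_one, one_mul, inv_one, C]) (by first | (simp only [mul_assoc, mul_inv_rev, inv_inv, mul_inv_cancel_left, inv_mul_cancel_left, mul_inv_cancel, inv_mul_cancel, mul_one, one_mul, inv_one]; done) | simp only [mul_assoc, mul_inv_rev, inv_inv, mul_inv_cancel_left, inv_mul_cancel_left, mul_inv_cancel, inv_mul_cancel, mul_one, one_mul, inv_one, C]),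
    o.cv hδ (Q * f4⁻¹) (by simp only [hδ, δinv hδ, δone hδ, D] <;> linear_combination (0) * h3) (by first | (simp only [mul_assoc, mul_inv_rev, inv_inv, mul_inv_cancel_left, inv_mul_cancel_left, mul_inv_cancel, inv_mul_cancel, mul_one, one_mul, inv_one]; done) | simp only [mul_assoc, mul_inv_rev, inv_inv, mul_inv_cancel_left, inv_mul_cancel_left, mul_inv_cancel, inv_mul_cancel, mul_one, one_mul, inv_one, C]) (by first | (simp only [mul_assoc, mul_inv_rev, inv_inv, mul_inv_cancel_left, inv_mul_cancel_left, mul_inv_cancel, inv_mul_cancel, mul_one, one_mul, inv_one]; done) | simp only [mul_assoc, mul_inv_rev, inv_inv, mul_inv_cancel_left, inv_mul_cancel_left, mul_inv_cancel, inv_mul_cancel, mul_one, one_mul, inv_one, C]),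
    o.cv hδ (1) (by simp only [hδ, δinv hδ, δone hδ, D] <;> linear_combination (0) * h3) (by first | (simp only [mul_assoc, mul_inv_rev, inv_inv, mul_inv_cancel_left, inv_mul_cancel_left, mul_inv_cancel, inv_mul_cancel, mul_one, one_mul, inv_one]; done) | simp only [mul_assoc, mul_inv_rev, inv_inv, mul_inv_cancel_left, inv_mul_cancel_left, mul_inv_cancel, inv_mul_cancel, mul_one, one_mul, inv_one, C]) (by first | (simp only [mul_assoc, mul_inv_rev, inv_inv, mul_inv_cancel_left, inv_mul_cancel_left, mul_inv_cancel, inv_mul_cancel, mul_one, one_mul, inv_one]; done) | simp only [mul_assoc, mul_inv_rev, inv_inv, mul_inv_cancel_left, inv_mul_cancel_left, mul_inv_cancel, inv_mul_cancel, mul_one, one_mul, inv_one, C]),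
    o.cv hδ (Q * f1⁻¹) (by simp only [hδ, δinv hδ, δone hδ, D] <;> linear_combination (0) * h3) (by first | (simp only [mul_assoc, mul_inv_rev, inv_inv, mul_inv_cancel_left, inv_mul_cancel_left, mul_inv_cancel, inv_mul_cancel, mul_one, one_mul, inv_one]; done) | simp only [mul_assoc, mul_inv_rev, inv_inv, mul_inv_cancel_left, inv_mul_cancel_left, mul_inv_cancel, inv_mul_cancel, mul_one, one_mul, inv_one, C]) (by first | (simp only [mul_assoc, mul_inv_rev, inv_inv, mul_inv_cancel_left, inv_mul_cancel_left, mul_inv_cancel, inv_mul_cancel, mul_one, one_mul, inv_one]; done) | simp only [mul_assoc, mul_inv_rev, inv_inv, mul_inv_cancel_left, inv_mul_cancel_left, mul_inv_cancel, inv_mul_cancel, mul_one, one_mul, inv_one, C]),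
    o.cv hδ (f1 * P⁻¹) (by simp only [hδ, δinv hδ, δone hδ, D] <;> linear_combination (0) * h3) (by first | (simp only [mul_assoc, mul_inv_rev, inv_inv, mul_inv_cancel_left, inv_mul_cancel_left, mul_inv_cancel, inv_mul_cancel, mul_one, one_mul, inv_one]; done) | simp only [mul_assoc, mul_inv_rev, inv_inv, mul_inv_cancel_left, inv_mul_cancel_left, mul_inv_cancel, inv_mul_cancel, mul_one, one_mul, inv_one, C]) (by first | (simp only [mul_assoc, mul_inv_rev, inv_inv, mul_inv_cancel_left, inv_mul_cancel_left, mul_inv_cancel, inv_mul_cancel, mul_one, one_mul, inv_one]; done) | simp only [mul_assoc, mul_inv_rev, inv_inv, mul_inv_cancel_left, inv_mul_cancel_left, mul_inv_cancel, inv_mul_cancel, mul_one, one_mul, inv_one, C]),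
    o.cv hδ (1) (by simp only [hδ, δinv hδ, δone hδ, D] <;> linear_combination (0) * h3) (by first | (simp only [mul_assoc, mul_inv_rev, inv_inv, mul_inv_cancel_left, inv_mul_cancel_left, mul_inv_cancel, inv_mul_cancel, mul_one, one_mul, inv_one]; done) | simp only [mul_assoc, mul_inv_rev, inv_inv, mul_inv_cancel_left, inv_mul_cancel_left, mul_inv_cancel, inv_mul_cancel, mul_one, one_mul, inv_one, C]) (by first | (simp only [mul_assoc, mul_inv_rev, inv_inv, mul_inv_cancel_left, inv_mul_cancel_left, mul_inv_cancel, inv_mul_cancel, mul_one, one_mul, inv_one]; done) | simp only [mul_assoc, mul_inv_rev, inv_inv, mul_inv_cancel_left, inv_mul_cancel_left, mul_inv_cancel, inv_mul_cancel, mul_one, one_mul, inv_one, C]),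
    o.cv hδ (Q * f2⁻¹) (by simp only [hδ, δinv hδ, δone hδ, D] <;> linear_combination (0) * h3) (by first | (simp only [mul_assoc, mul_inv_rev, inv_inv, mul_inv_cancel_left, inv_mul_cancel_left, mul_inv_cancel, inv_mul_cancel, mul_one, one_mul, inv_one]; done) | simp only [mul_assoc, mul_inv_rev, inv_inv, mul_inv_cancel_left, inv_mul_cancel_left, mul_inv_cancel, inv_mul_cancel, mul_one, one_mul, inv_one, C]) (by first | (simp only [mul_assoc, mul_inv_rev, inv_inv, mul_inv_cancel_left, inv_mul_cancel_left, mul_inv_cancel, inv_mul_cancel, mul_one, one_mul, inv_one]; done) | simp only [mul_assoc, mul_inv_rev, inv_inv, mul_inv_cancel_left, inv_mul_cancel_left, mul_inv_cancel, inv_mul_cancel, mul_one, one_mul, inv_one, C]),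
    o.cv hδ (1) (by simp only [hδ, δinv hδ, δone hδ, D] <;> linear_combination (0) * h3) (by first | (simp only [mul_assoc, mul_inv_rev, inv_inv, mul_inv_cancel_left, inv_mul_cancel_left, mul_inv_cancel, inv_mul_cancel, mul_one, one_mul, inv_one]; done) | simp only [mul_assoc, mul_inv_rev, inv_inv, mul_inv_cancel_left, inv_mul_cancel_left, mul_inv_cancel, inv_mul_cancel, mul_one, one_mul, inv_one, C]) (by first | (simp only [mul_assoc, mul_inv_rev, inv_inv, mul_inv_cancel_left, inv_mul_cancel_left, mul_inv_cancel, inv_mul_cancel, mul_one, one_mul, inv_one]; done) | simp only [mul_assoc, mul_inv_rev, inv_inv, mul_inv_cancel_left, inv_mul_cancel_left, mul_inv_cancel, inv_mul_cancel, mul_one, one_mul, inv_one, C])⟩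

theorem close_AAAAA_k22 {G : Type*} [Group G] {δ : G → ZMod 3} (hδ : ∀ u v, δ (u * v) = δ u + δ v) (o : Pre δ)
    {P Q f0 f1 f2 f3 f4 : G} {e : ZMod 3} (h3 : 3 * e = 0)
    (D : δ P = e ∧ δ Q = -e ∧ δ f0 = 0 ∧ δ f1 = 0 ∧ δ f2 = 0 ∧ δ f3 = 0 ∧ δ f4 = 0)
    (C : Cube P f0 ∧ Cube P f1 ∧ Cube Q f0 ∧ Cube Q f1 ∧ Cube P f2 ∧ Cube Q f2 ∧ Cube P f3 ∧ Cube Q f3 ∧ Cube P f4 ∧ Cube Q f4) :
    (o.lt (f3 * (P⁻¹ * (f3 * f2⁻¹))) (P * (f3⁻¹ * (Q * P⁻¹))) ↔ o.lt (P * (f3⁻¹ * (f2 * P⁻¹))) (P * (f3⁻¹ * (Q * f2⁻¹)))) ∧
    (o.lt (P * (f3⁻¹ * (Q * f2⁻¹))) (P * (f3⁻¹ * (f1 * P⁻¹))) ↔ o.lt (P * (f3⁻¹ * (Q * f2⁻¹))) (P * (f3⁻¹ * (f1 * P⁻¹)))) ∧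
    (o.lt (Q * f3⁻¹) (f3 * P⁻¹) ↔ o.lt (1) (f3 * (P⁻¹ * (f3 * Q⁻¹)))) ∧
    (o.lt (P * (f3⁻¹ * (f4 * Q⁻¹))) (f3 * (P⁻¹ * (f3 * f4⁻¹))) ↔ o.lt (P * (f3⁻¹ * (Q * f4⁻¹))) (f3 * (P⁻¹ * (f3 * Q⁻¹)))) ∧
    (o.lt (P * (f3⁻¹ * (Q * P⁻¹))) (f3 * (P⁻¹ * (f3 * f0⁻¹))) ↔ o.lt (P * (f3⁻¹ * (Q * f0⁻¹))) (P * (f3⁻¹ * (f0 * P⁻¹)))) ∧
    (o.lt (f3 * (P⁻¹ * (f3 * f4⁻¹))) (P * (f3⁻¹ * (f4 * Q⁻¹))) ↔ o.lt (f3 * (P⁻¹ * (f3 * Q⁻¹))) (P * (f3⁻¹ * (Q * f4⁻¹)))) ∧
    (o.lt (f3 * P⁻¹) (Q * f3⁻¹) ↔ o.lt (f3 * (P⁻¹ * (f3 * Q⁻¹))) (1)) ∧
    (o.lt (f3 * f0⁻¹) (f3 * f1⁻¹) ↔ o.lt (f3 * f0⁻¹) (f3 * f1⁻¹)) ∧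
    (o.lt (f3 * Q⁻¹) (f0 * Q⁻¹) ↔ o.lt (f3 * f0⁻¹) (1)) ∧
    (o.lt (f1 * Q⁻¹) (f3 * Q⁻¹) ↔ o.lt (1) (f3 * f1⁻¹)) ∧
    (o.lt (f3 * f0⁻¹) (f3 * (P⁻¹ * (f0 * Q⁻¹))) ↔ o.lt (f3 * f0⁻¹) (f3 * (P⁻¹ * (f0 * Q⁻¹)))) ∧
    (o.lt (f3 * (P⁻¹ * (f0 * Q⁻¹))) (f3 * f0⁻¹) ↔ o.lt (f3 * (P⁻¹ * (f0 * Q⁻¹))) (f3 * f0⁻¹)) ∧
    (o.lt (f3 * f0⁻¹) (f3 * (P⁻¹ * (f1 * Q⁻¹))) ↔ o.lt (f3 * f0⁻¹) (f3 * (P⁻¹ * (f1 * Q⁻¹)))) ∧
    (o.lt (f3 * (P⁻¹ * (f0 * Q⁻¹))) (f3 * (P⁻¹ * (f1 * Q⁻¹))) ↔ o.lt (f3 * (P⁻¹ * (f0 * Q⁻¹))) (f3 * (P⁻¹ * (f1 * Q⁻¹)))) ∧
    (o.lt (f3 * (P⁻¹ * (f1 * Q⁻¹))) (f3 * f0⁻¹) ↔ o.lt (f3 * (P⁻¹ * (f1 * Q⁻¹))) (f3 * f0⁻¹)) ∧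
    (o.lt (f3 * (P⁻¹ * (f0 * Q⁻¹))) (f3 * f1⁻¹) ↔ o.lt (f3 * (P⁻¹ * (f0 * Q⁻¹))) (f3 * f1⁻¹)) ∧
    (o.lt (f3 * P⁻¹) (Q * f0⁻¹) ↔ o.lt (f3 * (P⁻¹ * (f0 * Q⁻¹))) (1)) ∧
    (o.lt (f3 * (P⁻¹ * (f1 * Q⁻¹))) (f3 * (P⁻¹ * (f0 * Q⁻¹))) ↔ o.lt (f3 * (P⁻¹ * (f1 * Q⁻¹))) (f3 * (P⁻¹ * (f0 * Q⁻¹)))) ∧
    (o.lt (f3 * f1⁻¹) (f3 * (P⁻¹ * (f1 * Q⁻¹))) ↔ o.lt (f3 * f1⁻¹) (f3 * (P⁻¹ * (f1 * Q⁻¹)))) ∧
    (o.lt (f3 * (P⁻¹ * (f1 * Q⁻¹))) (f3 * f1⁻¹) ↔ o.lt (f3 * (P⁻¹ * (f1 * Q⁻¹))) (f3 * f1⁻¹)) := by
  have C' := C
  obtain ⟨C0, C1, C2, C3, C4, C5, C6, C7, C8, C9⟩ := C'
  simp only [Cube] at C C0 C1 C2 C3 C4 C5 C6 C7 C8 C9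
  exact ⟨o.cv hδ (f2 * (f3⁻¹ * (P * (f3⁻¹ * (P * (f3⁻¹ * (f2 * P⁻¹))))))) (by simp only [hδ, δinv hδ, δone hδ, D] <;> linear_combination (0) * h3) (by first | (simp only [mul_assoc, mul_inv_rev, inv_inv, mul_inv_cancel_left, inv_mul_cancel_left, mul_inv_cancel, inv_mul_cancel, mul_one, one_mul, inv_one]; done) | simp only [mul_assoc, mul_inv_rev, inv_inv, mul_inv_cancel_left, inv_mul_cancel_left, mul_inv_cancel, inv_mul_cancel, mul_one, one_mul, inv_one, C]) (by first | (simp only [mul_assoc, mul_inv_rev, inv_inv, mul_inv_cancel_left, inv_mul_cancel_left, mul_inv_cancel, inv_mul_cancel, mul_one, one_mul, inv_one, C4, C6]; done) | simp only [mul_assoc, mul_inv_rev, inv_inv, mul_inv_cancel_left, inv_mul_cancel_left, mul_inv_cancel, inv_mul_cancel, mul_one, one_mul, inv_one, C]),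
    o.cv hδ (1) (by simp only [hδ, δinv hδ, δone hδ, D] <;> linear_combination (0) * h3) (by first | (simp only [mul_assoc, mul_inv_rev, inv_inv, mul_inv_cancel_left, inv_mul_cancel_left, mul_inv_cancel, inv_mul_cancel, mul_one, one_mul, inv_one]; done) | simp only [mul_assoc, mul_inv_rev, inv_inv, mul_inv_cancel_left, inv_mul_cancel_left, mul_inv_cancel, inv_mul_cancel, mul_one, one_mul, inv_one, C]) (by first | (simp only [mul_assoc, mul_inv_rev, inv_inv, mul_inv_cancel_left, inv_mul_cancel_left, mul_inv_cancel, inv_mul_cancel, mul_one, one_mul, inv_one]; done) | simp only [mul_assoc, mul_inv_rev, inv_inv, mul_inv_cancel_left, inv_mul_cancel_left, mul_inv_cancel, inv_mul_cancel, mul_one, one_mul, inv_one, C]),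
    o.cv hδ (f3 * Q⁻¹) (by simp only [hδ, δinv hδ, δone hδ, D] <;> linear_combination (0) * h3) (by first | (simp only [mul_assoc, mul_inv_rev, inv_inv, mul_inv_cancel_left, inv_mul_cancel_left, mul_inv_cancel, inv_mul_cancel, mul_one, one_mul, inv_one]; done) | simp only [mul_assoc, mul_inv_rev, inv_inv, mul_inv_cancel_left, inv_mul_cancel_left, mul_inv_cancel, inv_mul_cancel, mul_one, one_mul, inv_one, C]) (by first | (simp only [mul_assoc, mul_inv_rev, inv_inv, mul_inv_cancel_left, inv_mul_cancel_left, mul_inv_cancel, inv_mul_cancel, mul_one, one_mul, inv_one]; done) | simp only [mul_assoc, mul_inv_rev, inv_inv, mul_inv_cancel_left, inv_mul_cancel_left, mul_inv_cancel, inv_mul_cancel, mul_one, one_mul, inv_one, C]),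
    o.cv hδ (Q * (f4⁻¹ * (Q * f4⁻¹))) (by simp only [hδ, δinv hδ, δone hδ, D] <;> linear_combination (1) * h3) (by first | (simp only [mul_assoc, mul_inv_rev, inv_inv, mul_inv_cancel_left, inv_mul_cancel_left, mul_inv_cancel, inv_mul_cancel, mul_one, one_mul, inv_one]; done) | simp only [mul_assoc, mul_inv_rev, inv_inv, mul_inv_cancel_left, inv_mul_cancel_left, mul_inv_cancel, inv_mul_cancel, mul_one, one_mul, inv_one, C]) (by first | (simp only [mul_assoc, mul_inv_rev, inv_inv, mul_inv_cancel_left, inv_mul_cancel_left, mul_inv_cancel, inv_mul_cancel, mul_one, one_mul, inv_one, C9]; done) | simp only [mul_assoc, mul_inv_rev, inv_inv, mul_inv_cancel_left, inv_mul_cancel_left, mul_inv_cancel, inv_mul_cancel, mul_one, one_mul, inv_one, C]),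
    o.cv hδ (P * f0⁻¹) (by simp only [hδ, δinv hδ, δone hδ, D] <;> linear_combination (0) * h3) (by first | (simp only [mul_assoc, mul_inv_rev, inv_inv, mul_inv_cancel_left, inv_mul_cancel_left, mul_inv_cancel, inv_mul_cancel, mul_one, one_mul, inv_one]; done) | simp only [mul_assoc, mul_inv_rev, inv_inv, mul_inv_cancel_left, inv_mul_cancel_left, mul_inv_cancel, inv_mul_cancel, mul_one, one_mul, inv_one, C]) (by first | (simp only [mul_assoc, mul_inv_rev, inv_inv, mul_inv_cancel_left, inv_mul_cancel_left, mul_inv_cancel, inv_mul_cancel, mul_one, one_mul, inv_one, C0, C6]; done) | simp only [mul_assoc, mul_inv_rev, inv_inv, mul_inv_cancel_left, inv_mul_cancel_left, mul_inv_cancel, inv_mul_cancel, mul_one, one_mul, inv_one, C]),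
    o.cv hδ (f4 * Q⁻¹) (by simp only [hδ, δinv hδ, δone hδ, D] <;> linear_combination (-1) * h3) (by first | (simp only [mul_assoc, mul_inv_rev, inv_inv, mul_inv_cancel_left, inv_mul_cancel_left, mul_inv_cancel, inv_mul_cancel, mul_one, one_mul, inv_one]; done) | simp only [mul_assoc, mul_inv_rev, inv_inv, mul_inv_cancel_left, inv_mul_cancel_left, mul_inv_cancel, inv_mul_cancel, mul_one, one_mul, inv_one, C]) (by first | (simp only [mul_assoc, mul_inv_rev, inv_inv, mul_inv_cancel_left, inv_mul_cancel_left, mul_inv_cancel, inv_mul_cancel, mul_one, one_mul, inv_one, C9]; done) | simp only [mul_assoc, mul_inv_rev, inv_inv, mul_inv_cancel_left, inv_mul_cancel_left, mul_inv_cancel, inv_mul_cancel, mul_one, one_mul, inv_one, C]),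
    o.cv hδ (f3 * Q⁻¹) (by simp only [hδ, δinv hδ, δone hδ, D] <;> linear_combination (0) * h3) (by first | (simp only [mul_assoc, mul_inv_rev, inv_inv, mul_inv_cancel_left, inv_mul_cancel_left, mul_inv_cancel, inv_mul_cancel, mul_one, one_mul, inv_one]; done) | simp only [mul_assoc, mul_inv_rev, inv_inv, mul_inv_cancel_left, inv_mul_cancel_left, mul_inv_cancel, inv_mul_cancel, mul_one, one_mul, inv_one, C]) (by first | (simp only [mul_assoc, mul_inv_rev, inv_inv, mul_inv_cancel_left, inv_mul_cancel_left, mul_inv_cancel, inv_mul_cancel, mul_one, one_mul, inv_one]; done) | simp only [mul_assoc, mul_inv_rev, inv_inv, mul_inv_cancel_left, inv_mul_cancel_left, mul_inv_cancel, inv_mul_cancel, mul_one, one_mul, inv_one, C]),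
    o.cv hδ (1) (by simp only [hδ, δinv hδ, δone hδ, D] <;> linear_combination (0) * h3) (by first | (simp only [mul_assoc, mul_inv_rev, inv_inv, mul_inv_cancel_left, inv_mul_cancel_left, mul_inv_cancel, inv_mul_cancel, mul_one, one_mul, inv_one]; done) | simp only [mul_assoc, mul_inv_rev, inv_inv, mul_inv_cancel_left, inv_mul_cancel_left, mul_inv_cancel, inv_mul_cancel, mul_one, one_mul, inv_one, C]) (by first | (simp only [mul_assoc, mul_inv_rev, inv_inv, mul_inv_cancel_left, inv_mul_cancel_left, mul_inv_cancel, inv_mul_cancel, mul_one, one_mul, inv_one]; done) | simp only [mul_assoc, mul_inv_rev, inv_inv, mul_inv_cancel_left, inv_mul_cancel_left, mul_inv_cancel, inv_mul_cancel, mul_one, one_mul, inv_one, C]),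
    o.cv hδ (Q * f0⁻¹) (by simp only [hδ, δinv hδ, δone hδ, D] <;> linear_combination (0) * h3) (by first | (simp only [mul_assoc, mul_inv_rev, inv_inv, mul_inv_cancel_left, inv_mul_cancel_left, mul_inv_cancel, inv_mul_cancel, mul_one, one_mul, inv_one]; done) | simp only [mul_assoc, mul_inv_rev, inv_inv, mul_inv_cancel_left, inv_mul_cancel_left, mul_inv_cancel, inv_mul_cancel, mul_one, one_mul, inv_one, C]) (by first | (simp only [mul_assoc, mul_inv_rev, inv_inv, mul_inv_cancel_left, inv_mul_cancel_left, mul_inv_cancel, inv_mul_cancel, mul_one, one_mul, inv_one]; done) | simp only [mul_assoc, mul_inv_rev, inv_inv, mul_inv_cancel_left, inv_mul_cancel_left, mul_inv_cancel, inv_mul_cancel, mul_one, one_mul, inv_one, C]),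
    o.cv hδ (Q * f1⁻¹) (by simp only [hδ, δinv hδ, δone hδ, D] <;> linear_combination (0) * h3) (by first | (simp only [mul_assoc, mul_inv_rev, inv_inv, mul_inv_cancel_left, inv_mul_cancel_left, mul_inv_cancel, inv_mul_cancel, mul_one, one_mul, inv_one]; done) | simp only [mul_assoc, mul_inv_rev, inv_inv, mul_inv_cancel_left, inv_mul_cancel_left, mul_inv_cancel, inv_mul_cancel, mul_one, one_mul, inv_one, C]) (by first | (simp only [mul_assoc, mul_inv_rev, inv_inv, mul_inv_cancel_left, inv_mul_cancel_left, mul_inv_cancel, inv_mul_cancel, mul_one, one_mul, inv_one]; done) | simp only [mul_assoc, mul_inv_rev, inv_inv, mul_inv_cancel_left, inv_mul_cancel_left, mul_inv_cancel, inv_mul_cancel, mul_one, one_mul, inv_one, C]),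
    o.cv hδ (1) (by simp only [hδ, δinv hδ, δone hδ, D] <;> linear_combination (0) * h3) (by first | (simp only [mul_assoc, mul_inv_rev, inv_inv, mul_inv_cancel_left, inv_mul_cancel_left, mul_inv_cancel, inv_mul_cancel, mul_one, one_mul, inv_one]; done) | simp only [mul_assoc, mul_inv_rev, inv_inv, mul_inv_cancel_left, inv_mul_cancel_left, mul_inv_cancel, inv_mul_cancel, mul_one, one_mul, inv_one, C]) (by first | (simp only [mul_assoc, mul_inv_rev, inv_inv, mul_inv_cancel_left, inv_mul_cancel_left, mul_inv_cancel, inv_mul_cancel, mul_one, one_mul, inv_one]; done) | simp only [mul_assoc, mul_inv_rev, inv_inv, mul_inv_cancel_left, inv_mul_cancel_left, mul_inv_cancel, inv_mul_cancel, mul_one, one_mul, inv_one, C]),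
    o.cv hδ (1) (by simp only [hδ, δinv hδ, δone hδ, D] <;> linear_combination (0) * h3) (by first | (simp only [mul_assoc, mul_inv_rev, inv_inv, mul_inv_cancel_left, inv_mul_cancel_left, mul_inv_cancel, inv_mul_cancel, mul_one, one_mul, inv_one]; done) | simp only [mul_assoc, mul_inv_rev, inv_inv, mul_inv_cancel_left, inv_mul_cancel_left, mul_inv_cancel, inv_mul_cancel, mul_one, one_mul, inv_one, C]) (by first | (simp only [mul_assoc, mul_inv_rev, inv_inv, mul_inv_cancel_left, inv_mul_cancel_left, mul_inv_cancel, inv_mul_cancel, mul_one, one_mul, inv_one]; done) | simp only [mul_assoc, mul_inv_rev, inv_inv, mul_inv_cancel_left, inv_mul_cancel_left, mul_inv_cancel, inv_mul_cancel, mul_one, one_mul, inv_one, C]),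
    o.cv hδ (1) (by simp only [hδ, δinv hδ, δone hδ, D] <;> linear_combination (0) * h3) (by first | (simp only [mul_assoc, mul_inv_rev, inv_inv, mul_inv_cancel_left, inv_mul_cancel_left, mul_inv_cancel, inv_mul_cancel, mul_one, one_mul, inv_one]; done) | simp only [mul_assoc, mul_inv_rev, inv_inv, mul_inv_cancel_left, inv_mul_cancel_left, mul_inv_cancel, inv_mul_cancel, mul_one, one_mul, inv_one, C]) (by first | (simp only [mul_assoc, mul_inv_rev, inv_inv, mul_inv_cancel_left, inv_mul_cancel_left, mul_inv_cancel, inv_mul_cancel, mul_one, one_mul, inv_one]; done) | simp only [mul_assoc, mul_inv_rev, inv_inv, mul_inv_cancel_left, inv_mul_cancel_left, mul_inv_cancel, inv_mul_cancel, mul_one, one_mul, inv_one, C]),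
    o.cv hδ (1) (by simp only [hδ, δinv hδ, δone hδ, D] <;> linear_combination (0) * h3) (by first | (simp only [mul_assoc, mul_inv_rev, inv_inv, mul_inv_cancel_left, inv_mul_cancel_left, mul_inv_cancel, inv_mul_cancel, mul_one, one_mul, inv_one]; done) | simp only [mul_assoc, mul_inv_rev, inv_inv, mul_inv_cancel_left, inv_mul_cancel_left, mul_inv_cancel, inv_mul_cancel, mul_one, one_mul, inv_one, C]) (by first | (simp only [mul_assoc, mul_inv_rev, inv_inv, mul_inv_cancel_left, inv_mul_cancel_left, mul_inv_cancel, inv_mul_cancel, mul_one, one_mul, inv_one]; done) | simp only [mul_assoc, mul_inv_rev, inv_inv, mul_inv_cancel_left, inv_mul_cancel_left, mul_inv_cancel, inv_mul_cancel, mul_one, one_mul, inv_one, C]),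
    o.cv hδ (1) (by simp only [hδ, δinv hδ, δone hδ, D] <;> linear_combination (0) * h3) (by first | (simp only [mul_assoc, mul_inv_rev, inv_inv, mul_inv_cancel_left, inv_mul_cancel_left, mul_inv_cancel, inv_mul_cancel, mul_one, one_mul, inv_one]; done) | simp only [mul_assoc, mul_inv_rev, inv_inv, mul_inv_cancel_left, inv_mul_cancel_left, mul_inv_cancel, inv_mul_cancel, mul_one, one_mul, inv_one, C]) (by first | (simp only [mul_assoc, mul_inv_rev, inv_inv, mul_inv_cancel_left, inv_mul_cancel_left, mul_inv_cancel, inv_mul_cancel, mul_one, one_mul, inv_one]; done) | simp only [mul_assoc, mul_inv_rev, inv_inv, mul_inv_cancel_left, inv_mul_cancel_left, mul_inv_cancel, inv_mul_cancel, mul_one, one_mul, inv_one, C]),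
    o.cv hδ (1) (by simp only [hδ, δinv hδ, δone hδ, D] <;> linear_combination (0) * h3) (by first | (simp only [mul_assoc, mul_inv_rev, inv_inv, mul_inv_cancel_left, inv_mul_cancel_left, mul_inv_cancel, inv_mul_cancel, mul_one, one_mul, inv_one]; done) | simp only [mul_assoc, mul_inv_rev, inv_inv, mul_inv_cancel_left, inv_mul_cancel_left, mul_inv_cancel, inv_mul_cancel, mul_one, one_mul, inv_one, C]) (by first | (simp only [mul_assoc, mul_inv_rev, inv_inv, mul_inv_cancel_left, inv_mul_cancel_left, mul_inv_cancel, inv_mul_cancel, mul_one, one_mul, inv_one]; done) | simp only [mul_assoc, mul_inv_rev, inv_inv, mul_inv_cancel_left, inv_mul_cancel_left, mul_inv_cancel, inv_mul_cancel, mul_one, one_mul, inv_one, C]),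
    o.cv hδ (f0 * Q⁻¹) (by simp only [hδ, δinv hδ, δone hδ, D] <;> linear_combination (0) * h3) (by first | (simp only [mul_assoc, mul_inv_rev, inv_inv, mul_inv_cancel_left, inv_mul_cancel_left, mul_inv_cancel, inv_mul_cancel, mul_one, one_mul, inv_one]; done) | simp only [mul_assoc, mul_inv_rev, inv_inv, mul_inv_cancel_left, inv_mul_cancel_left, mul_inv_cancel, inv_mul_cancel, mul_one, one_mul, inv_one, C]) (by first | (simp only [mul_assoc, mul_inv_rev, inv_inv, mul_inv_cancel_left, inv_mul_cancel_left, mul_inv_cancel, inv_mul_cancel, mul_one, one_mul, inv_one]; done) | simp only [mul_assoc, mul_inv_rev, inv_inv, mul_inv_cancel_left, inv_mul_cancel_left, mul_inv_cancel, inv_mul_cancel, mul_one, one_mul, inv_one, C]),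
    o.cv hδ (1) (by simp only [hδ, δinv hδ, δone hδ, D] <;> linear_combination (0) * h3) (by first | (simp only [mul_assoc, mul_inv_rev, inv_inv, mul_inv_cancel_left, inv_mul_cancel_left, mul_inv_cancel, inv_mul_cancel, mul_one, one_mul, inv_one]; done) | simp only [mul_assoc, mul_inv_rev, inv_inv, mul_inv_cancel_left, inv_mul_cancel_left, mul_inv_cancel, inv_mul_cancel, mul_one, one_mul, inv_one, C]) (by first | (simp only [mul_assoc, mul_inv_rev, inv_inv, mul_inv_cancel_left, inv_mul_cancel_left, mul_inv_cancel, inv_mul_cancel, mul_one, one_mul, inv_one]; done) | simp only [mul_assoc, mul_inv_rev, inv_inv, mul_inv_cancel_left, inv_mul_cancel_left, mul_inv_cancel, inv_mul_cancel, mul_one, one_mul, inv_one, C]),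
    o.cv hδ (1) (by simp only [hδ, δinv hδ, δone hδ, D] <;> linear_combination (0) * h3) (by first | (simp only [mul_assoc, mul_inv_rev, inv_inv, mul_inv_cancel_left, inv_mul_cancel_left, mul_inv_cancel, inv_mul_cancel, mul_one, one_mul, inv_one]; done) | simp only [mul_assoc, mul_inv_rev, inv_inv, mul_inv_cancel_left, inv_mul_cancel_left, mul_inv_cancel, inv_mul_cancel, mul_one, one_mul, inv_one, C]) (by first | (simp only [mul_assoc, mul_inv_rev, inv_inv, mul_inv_cancel_left, inv_mul_cancel_left, mul_inv_cancel, inv_mul_cancel, mul_one, one_mul, inv_one]; done) | simp only [mul_assoc, mul_inv_rev, inv_inv, mul_inv_cancel_left, inv_mul_cancel_left, mul_inv_cancel, inv_mul_cancel, mul_one, one_mul, inv_one, C]),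
    o.cv hδ (1) (by simp only [hδ, δinv hδ, δone hδ, D] <;> linear_combination (0) * h3) (by first | (simp only [mul_assoc, mul_inv_rev, inv_inv, mul_inv_cancel_left, inv_mul_cancel_left, mul_inv_cancel, inv_mul_cancel, mul_one, one_mul, inv_one]; done) | simp only [mul_assoc, mul_inv_rev, inv_inv, mul_inv_cancel_left, inv_mul_cancel_left, mul_inv_cancel, inv_mul_cancel, mul_one, one_mul, inv_one, C]) (by first | (simp only [mul_assoc, mul_inv_rev, inv_inv, mul_inv_cancel_left, inv_mul_cancel_left, mul_inv_cancel, inv_mul_cancel, mul_one, one_mul, inv_one]; done) | simp only [mul_assoc, mul_inv_rev, inv_inv, mul_inv_cancel_left, inv_mul_cancel_left, mul_inv_cancel, inv_mul_cancel, mul_one, one_mul, inv_one, C])⟩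

theorem close_AAAAA_k23 {G : Type*} [Group G] {δ : G → ZMod 3} (hδ : ∀ u v, δ (u * v) = δ u + δ v) (o : Pre δ)
    {P Q f0 f1 f2 f3 f4 : G} {e : ZMod 3} (h3 : 3 * e = 0)
    (D : δ P = e ∧ δ Q = -e ∧ δ f0 = 0 ∧ δ f1 = 0 ∧ δ f2 = 0 ∧ δ f3 = 0 ∧ δ f4 = 0)
    (C : Cube P f0 ∧ Cube P f1 ∧ Cube Q f0 ∧ Cube Q f1 ∧ Cube P f2 ∧ Cube Q f2 ∧ Cube P f3 ∧ Cube Q f3 ∧ Cube P f4 ∧ Cube Q f4) :
    (o.lt (f3 * f2⁻¹) (f3 * (P⁻¹ * (f2 * Q⁻¹))) ↔ o.lt (f3 * f2⁻¹) (f3 * (P⁻¹ * (f2 * Q⁻¹)))) ∧
    (o.lt (f3 * (P⁻¹ * (f2 * Q⁻¹))) (f3 * f2⁻¹) ↔ o.lt (f3 * (P⁻¹ * (f2 * Q⁻¹))) (f3 * f2⁻¹)) ∧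
    (o.lt (f3 * P⁻¹) (f3 * (P⁻¹ * (f3 * f2⁻¹))) ↔ o.lt (f3 * (P⁻¹ * (f2 * Q⁻¹))) (f3 * (P⁻¹ * (f3 * Q⁻¹)))) ∧
    (o.lt (f3 * f2⁻¹) (f3 * (P⁻¹ * (f3 * Q⁻¹))) ↔ o.lt (f3 * f2⁻¹) (f3 * (P⁻¹ * (f3 * Q⁻¹)))) ∧
    (o.lt (f3 * (P⁻¹ * (Q * f1⁻¹))) (f3 * (P⁻¹ * (Q * f2⁻¹))) ↔ o.lt (f3 * (P⁻¹ * (Q * f1⁻¹))) (f3 * (P⁻¹ * (Q * f2⁻¹)))) ∧
    (o.lt (f3 * (P⁻¹ * (Q * f2⁻¹))) (f3 * (P⁻¹ * (Q * f1⁻¹))) ↔ o.lt (f3 * (P⁻¹ * (Q * f2⁻¹))) (f3 * (P⁻¹ * (Q * f1⁻¹)))) ∧
    (o.lt (f3 * Q⁻¹) (f3 * (P⁻¹ * (f1 * P⁻¹))) ↔ o.lt (f3 * Q⁻¹) (f3 * (P⁻¹ * (f1 * P⁻¹)))) ∧
    (o.lt (f3 * f2⁻¹) (f3 * (P⁻¹ * (f2 * Q⁻¹))) ↔ o.lt (f3 * Q⁻¹) (f3 * (P⁻¹ * (Q * f2⁻¹)))) ∧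
    (o.lt (f3 * (P⁻¹ * (Q * f2⁻¹))) (f3 * (P⁻¹ * (f1 * P⁻¹))) ↔ o.lt (f3 * (P⁻¹ * (Q * f2⁻¹))) (f3 * (P⁻¹ * (f1 * P⁻¹)))) ∧
    (o.lt (f3 * f1⁻¹) (f3 * (P⁻¹ * (f1 * Q⁻¹))) ↔ o.lt (f3 * Q⁻¹) (f3 * (P⁻¹ * (Q * f1⁻¹)))) ∧
    (o.lt (f3 * Q⁻¹) (f3 * (P⁻¹ * (f4 * P⁻¹))) ↔ o.lt (f3 * Q⁻¹) (f3 * (P⁻¹ * (f4 * P⁻¹)))) ∧
    (o.lt (f3 * (P⁻¹ * (f4 * P⁻¹))) (f3 * Q⁻¹) ↔ o.lt (f3 * (P⁻¹ * (f4 * P⁻¹))) (f3 * Q⁻¹)) ∧
    (o.lt (f3 * (Q⁻¹ * (f0 * Q⁻¹))) (f3 * (Q⁻¹ * (P * f0⁻¹))) ↔ o.lt (f3 * (Q⁻¹ * (f0 * Q⁻¹))) (f3 * (Q⁻¹ * (P * f0⁻¹)))) ∧
    (o.lt (f3 * f0⁻¹) (f3 * (P⁻¹ * (f0 * Q⁻¹))) ↔ o.lt (f3 * (Q⁻¹ * (f0 * Q⁻¹))) (f3 * P⁻¹)) ∧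
    (o.lt (f3 * f0⁻¹) (f3 * (Q⁻¹ * (f0 * P⁻¹))) ↔ o.lt (f3 * P⁻¹) (f3 * (Q⁻¹ * (P * f0⁻¹)))) ∧
    (o.lt (f3 * (Q⁻¹ * (P * f4⁻¹))) (f3 * (Q⁻¹ * (P * f0⁻¹))) ↔ o.lt (f3 * (Q⁻¹ * (P * f4⁻¹))) (f3 * (Q⁻¹ * (P * f0⁻¹)))) ∧
    (o.lt (f3 * Q⁻¹) (f3 * (P⁻¹ * (f4 * P⁻¹))) ↔ o.lt (f3 * (Q⁻¹ * (P * f4⁻¹))) (f3 * P⁻¹)) ∧
    (o.lt (f3 * (P⁻¹ * (f0 * Q⁻¹))) (f3 * f0⁻¹) ↔ o.lt (f3 * P⁻¹) (f3 * (Q⁻¹ * (f0 * Q⁻¹)))) ∧
    (o.lt (f3 * (Q⁻¹ * (P * f0⁻¹))) (f3 * (Q⁻¹ * (f0 * Q⁻¹))) ↔ o.lt (f3 * (Q⁻¹ * (P * f0⁻¹))) (f3 * (Q⁻¹ * (f0 * Q⁻¹)))) ∧
    (o.lt (f3 * (P⁻¹ * (f4 * P⁻¹))) (f3 * Q⁻¹) ↔ o.lt (f3 * P⁻¹) (f3 * (Q⁻¹ * (P * f4⁻¹)))) := by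
  have C' := C
  obtain ⟨C0, C1, C2, C3, C4, C5, C6, C7, C8, C9⟩ := C'
  simp only [Cube] at C C0 C1 C2 C3 C4 C5 C6 C7 C8 C9
  exact ⟨o.cv hδ (1) (by simp only [hδ, δinv hδ, δone hδ, D] <;> linear_combination (0) * h3) (by first | (simp only [mul_assoc, mul_inv_rev, inv_inv, mul_inv_cancel_left, inv_mul_cancel_left, mul_inv_cancel, inv_mul_cancel, mul_one, one_mul, inv_one]; done) | simp only [mul_assoc, mul_inv_rev, inv_inv, mul_inv_cancel_left, inv_mul_cancel_left, mul_inv_cancel, inv_mul_cancel, mul_one, one_mul, inv_one, C]) (by first | (simp only [mul_assoc, mul_inv_rev, inv_inv, mul_inv_cancel_left, inv_mul_cancel_left, mul_inv_cancel, inv_mul_cancel, mul_one, one_mul, inv_one]; done) | simp only [mul_assoc, mul_inv_rev, inv_inv, mul_inv_cancel_left, inv_mul_cancel_left, mul_inv_cancel, inv_mul_cancel, mul_one, one_mul, inv_one, C]),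
    o.cv hδ (1) (by simp only [hδ, δinv hδ, δone hδ, D] <;> linear_combination (0) * h3) (by first | (simp only [mul_assoc, mul_inv_rev, inv_inv, mul_inv_cancel_left, inv_mul_cancel_left, mul_inv_cancel, inv_mul_cancel, mul_one, one_mul, inv_one]; done) | simp only [mul_assoc, mul_inv_rev, inv_inv, mul_inv_cancel_left, inv_mul_cancel_left, mul_inv_cancel, inv_mul_cancel, mul_one, one_mul, inv_one, C]) (by first | (simp only [mul_assoc, mul_inv_rev, inv_inv, mul_inv_cancel_left, inv_mul_cancel_left, mul_inv_cancel, inv_mul_cancel, mul_one, one_mul, inv_one]; done) | simp only [mul_assoc, mul_inv_rev, inv_inv, mul_inv_cancel_left, inv_mul_cancel_left, mul_inv_cancel, inv_mul_cancel, mul_one, one_mul, inv_one, C]),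
    o.cv hδ (f2 * Q⁻¹) (by simp only [hδ, δinv hδ, δone hδ, D] <;> linear_combination (0) * h3) (by first | (simp only [mul_assoc, mul_inv_rev, inv_inv, mul_inv_cancel_left, inv_mul_cancel_left, mul_inv_cancel, inv_mul_cancel, mul_one, one_mul, inv_one]; done) | simp only [mul_assoc, mul_inv_rev, inv_inv, mul_inv_cancel_left, inv_mul_cancel_left, mul_inv_cancel, inv_mul_cancel, mul_one, one_mul, inv_one, C]) (by first | (simp only [mul_assoc, mul_inv_rev, inv_inv, mul_inv_cancel_left, inv_mul_cancel_left, mul_inv_cancel, inv_mul_cancel, mul_one, one_mul, inv_one]; done) | simp only [mul_assoc, mul_inv_rev, inv_inv, mul_inv_cancel_left, inv_mul_cancel_left, mul_inv_cancel, inv_mul_cancel, mul_one, one_mul, inv_one, C]),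
    o.cv hδ (1) (by simp only [hδ, δinv hδ, δone hδ, D] <;> linear_combination (0) * h3) (by first | (simp only [mul_assoc, mul_inv_rev, inv_inv, mul_inv_cancel_left, inv_mul_cancel_left, mul_inv_cancel, inv_mul_cancel, mul_one, one_mul, inv_one]; done) | simp only [mul_assoc, mul_inv_rev, inv_inv, mul_inv_cancel_left, inv_mul_cancel_left, mul_inv_cancel, inv_mul_cancel, mul_one, one_mul, inv_one, C]) (by first | (simp only [mul_assoc, mul_inv_rev, inv_inv, mul_inv_cancel_left, inv_mul_cancel_left, mul_inv_cancel, inv_mul_cancel, mul_one, one_mul, inv_one]; done) | simp only [mul_assoc, mul_inv_rev, inv_inv, mul_inv_cancel_left, inv_mul_cancel_left, mul_inv_cancel, inv_mul_cancel, mul_one, one_mul, inv_one, C]),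
    o.cv hδ (1) (by simp only [hδ, δinv hδ, δone hδ, D] <;> linear_combination (0) * h3) (by first | (simp only [mul_assoc, mul_inv_rev, inv_inv, mul_inv_cancel_left, inv_mul_cancel_left, mul_inv_cancel, inv_mul_cancel, mul_one, one_mul, inv_one]; done) | simp only [mul_assoc, mul_inv_rev, inv_inv, mul_inv_cancel_left, inv_mul_cancel_left, mul_inv_cancel, inv_mul_cancel, mul_one, one_mul, inv_one, C]) (by first | (simp only [mul_assoc, mul_inv_rev, inv_inv, mul_inv_cancel_left, inv_mul_cancel_left, mul_inv_cancel, inv_mul_cancel, mul_one, one_mul, inv_one]; done) | simp only [mul_assoc, mul_inv_rev, inv_inv, mul_inv_cancel_left, inv_mul_cancel_left, mul_inv_cancel, inv_mul_cancel, mul_one, one_mul, inv_one, C]),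
    o.cv hδ (1) (by simp only [hδ, δinv hδ, δone hδ, D] <;> linear_combination (0) * h3) (by first | (simp only [mul_assoc, mul_inv_rev, inv_inv, mul_inv_cancel_left, inv_mul_cancel_left, mul_inv_cancel, inv_mul_cancel, mul_one, one_mul, inv_one]; done) | simp only [mul_assoc, mul_inv_rev, inv_inv, mul_inv_cancel_left, inv_mul_cancel_left, mul_inv_cancel, inv_mul_cancel, mul_one, one_mul, inv_one, C]) (by first | (simp only [mul_assoc, mul_inv_rev, inv_inv, mul_inv_cancel_left, inv_mul_cancel_left, mul_inv_cancel, inv_mul_cancel, mul_one, one_mul, inv_one]; done) | simp only [mul_assoc, mul_inv_rev, inv_inv, mul_inv_cancel_left, inv_mul_cancel_left, mul_inv_cancel, inv_mul_cancel, mul_one, one_mul, inv_one, C]),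
    o.cv hδ (1) (by simp only [hδ, δinv hδ, δone hδ, D] <;> linear_combination (1) * h3) (by first | (simp only [mul_assoc, mul_inv_rev, inv_inv, mul_inv_cancel_left, inv_mul_cancel_left, mul_inv_cancel, inv_mul_cancel, mul_one, one_mul, inv_one]; done) | simp only [mul_assoc, mul_inv_rev, inv_inv, mul_inv_cancel_left, inv_mul_cancel_left, mul_inv_cancel, inv_mul_cancel, mul_one, one_mul, inv_one, C]) (by first | (simp only [mul_assoc, mul_inv_rev, inv_inv, mul_inv_cancel_left, inv_mul_cancel_left, mul_inv_cancel, inv_mul_cancel, mul_one, one_mul, inv_one]; done) | simp only [mul_assoc, mul_inv_rev, inv_inv, mul_inv_cancel_left, inv_mul_cancel_left, mul_inv_cancel, inv_mul_cancel, mul_one, one_mul, inv_one, C]),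
    o.cv hδ (f2 * Q⁻¹) (by simp only [hδ, δinv hδ, δone hδ, D] <;> linear_combination (0) * h3) (by first | (simp only [mul_assoc, mul_inv_rev, inv_inv, mul_inv_cancel_left, inv_mul_cancel_left, mul_inv_cancel, inv_mul_cancel, mul_one, one_mul, inv_one]; done) | simp only [mul_assoc, mul_inv_rev, inv_inv, mul_inv_cancel_left, inv_mul_cancel_left, mul_inv_cancel, inv_mul_cancel, mul_one, one_mul, inv_one, C]) (by first | (simp only [mul_assoc, mul_inv_rev, inv_inv, mul_inv_cancel_left, inv_mul_cancel_left, mul_inv_cancel, inv_mul_cancel, mul_one, one_mul, inv_one, C5]; done) | simp only [mul_assoc, mul_inv_rev, inv_inv, mul_inv_cancel_left, inv_mul_cancel_left, mul_inv_cancel, inv_mul_cancel, mul_one, one_mul, inv_one, C]),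
    o.cv hδ (1) (by simp only [hδ, δinv hδ, δone hδ, D] <;> linear_combination (0) * h3) (by first | (simp only [mul_assoc, mul_inv_rev, inv_inv, mul_inv_cancel_left, inv_mul_cancel_left, mul_inv_cancel, inv_mul_cancel, mul_one, one_mul, inv_one]; done) | simp only [mul_assoc, mul_inv_rev, inv_inv, mul_inv_cancel_left, inv_mul_cancel_left, mul_inv_cancel, inv_mul_cancel, mul_one, one_mul, inv_one, C]) (by first | (simp only [mul_assoc, mul_inv_rev, inv_inv, mul_inv_cancel_left, inv_mul_cancel_left, mul_inv_cancel, inv_mul_cancel, mul_one, one_mul, inv_one]; done) | simp only [mul_assoc, mul_inv_rev, inv_inv, mul_inv_cancel_left, inv_mul_cancel_left, mul_inv_cancel, inv_mul_cancel, mul_one, one_mul, inv_one, C]),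
    o.cv hδ (f1 * Q⁻¹) (by simp only [hδ, δinv hδ, δone hδ, D] <;> linear_combination (0) * h3) (by first | (simp only [mul_assoc, mul_inv_rev, inv_inv, mul_inv_cancel_left, inv_mul_cancel_left, mul_inv_cancel, inv_mul_cancel, mul_one, one_mul, inv_one]; done) | simp only [mul_assoc, mul_inv_rev, inv_inv, mul_inv_cancel_left, inv_mul_cancel_left, mul_inv_cancel, inv_mul_cancel, mul_one, one_mul, inv_one, C]) (by first | (simp only [mul_assoc, mul_inv_rev, inv_inv, mul_inv_cancel_left, inv_mul_cancel_left, mul_inv_cancel, inv_mul_cancel, mul_one, one_mul, inv_one, C3]; done) | simp only [mul_assoc, mul_inv_rev, inv_inv, mul_inv_cancel_left, inv_mul_cancel_left, mul_inv_cancel, inv_mul_cancel, mul_one, one_mul, inv_one, C]),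
    o.cv hδ (1) (by simp only [hδ, δinv hδ, δone hδ, D] <;> linear_combination (1) * h3) (by first | (simp only [mul_assoc, mul_inv_rev, inv_inv, mul_inv_cancel_left, inv_mul_cancel_left, mul_inv_cancel, inv_mul_cancel, mul_one, one_mul, inv_one]; done) | simp only [mul_assoc, mul_inv_rev, inv_inv, mul_inv_cancel_left, inv_mul_cancel_left, mul_inv_cancel, inv_mul_cancel, mul_one, one_mul, inv_one, C]) (by first | (simp only [mul_assoc, mul_inv_rev, inv_inv, mul_inv_cancel_left, inv_mul_cancel_left, mul_inv_cancel, inv_mul_cancel, mul_one, one_mul, inv_one]; done) | simp only [mul_assoc, mul_inv_rev, inv_inv, mul_inv_cancel_left, inv_mul_cancel_left, mul_inv_cancel, inv_mul_cancel, mul_one, one_mul, inv_one, C]),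
    o.cv hδ (1) (by simp only [hδ, δinv hδ, δone hδ, D] <;> linear_combination (-1) * h3) (by first | (simp only [mul_assoc, mul_inv_rev, inv_inv, mul_inv_cancel_left, inv_mul_cancel_left, mul_inv_cancel, inv_mul_cancel, mul_one, one_mul, inv_one]; done) | simp only [mul_assoc, mul_inv_rev, inv_inv, mul_inv_cancel_left, inv_mul_cancel_left, mul_inv_cancel, inv_mul_cancel, mul_one, one_mul, inv_one, C]) (by first | (simp only [mul_assoc, mul_inv_rev, inv_inv, mul_inv_cancel_left, inv_mul_cancel_left, mul_inv_cancel, inv_mul_cancel, mul_one, one_mul, inv_one]; done) | simp only [mul_assoc, mul_inv_rev, inv_inv, mul_inv_cancel_left, inv_mul_cancel_left, mul_inv_cancel, inv_mul_cancel, mul_one, one_mul, inv_one, C]),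
    o.cv hδ (1) (by simp only [hδ, δinv hδ, δone hδ, D] <;> linear_combination (0) * h3) (by first | (simp only [mul_assoc, mul_inv_rev, inv_inv, mul_inv_cancel_left, inv_mul_cancel_left, mul_inv_cancel, inv_mul_cancel, mul_one, one_mul, inv_one]; done) | simp only [mul_assoc, mul_inv_rev, inv_inv, mul_inv_cancel_left, inv_mul_cancel_left, mul_inv_cancel, inv_mul_cancel, mul_one, one_mul, inv_one, C]) (by first | (simp only [mul_assoc, mul_inv_rev, inv_inv, mul_inv_cancel_left, inv_mul_cancel_left, mul_inv_cancel, inv_mul_cancel, mul_one, one_mul, inv_one]; done) | simp only [mul_assoc, mul_inv_rev, inv_inv, mul_inv_cancel_left, inv_mul_cancel_left, mul_inv_cancel, inv_mul_cancel, mul_one, one_mul, inv_one, C]),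
    o.cv hδ (f0 * (Q⁻¹ * (f0 * Q⁻¹))) (by simp only [hδ, δinv hδ, δone hδ, D] <;> linear_combination (0) * h3) (by first | (simp only [mul_assoc, mul_inv_rev, inv_inv, mul_inv_cancel_left, inv_mul_cancel_left, mul_inv_cancel, inv_mul_cancel, mul_one, one_mul, inv_one]; done) | simp only [mul_assoc, mul_inv_rev, inv_inv, mul_inv_cancel_left, inv_mul_cancel_left, mul_inv_cancel, inv_mul_cancel, mul_one, one_mul, inv_one, C]) (by first | (simp only [mul_assoc, mul_inv_rev, inv_inv, mul_inv_cancel_left, inv_mul_cancel_left, mul_inv_cancel, inv_mul_cancel, mul_one, one_mul, inv_one, C2]; done) | simp only [mul_assoc, mul_inv_rev, inv_inv, mul_inv_cancel_left, inv_mul_cancel_left, mul_inv_cancel, inv_mul_cancel, mul_one, one_mul, inv_one, C]),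
    o.cv hδ (f0 * P⁻¹) (by simp only [hδ, δinv hδ, δone hδ, D] <;> linear_combination (0) * h3) (by first | (simp only [mul_assoc, mul_inv_rev, inv_inv, mul_inv_cancel_left, inv_mul_cancel_left, mul_inv_cancel, inv_mul_cancel, mul_one, one_mul, inv_one]; done) | simp only [mul_assoc, mul_inv_rev, inv_inv, mul_inv_cancel_left, inv_mul_cancel_left, mul_inv_cancel, inv_mul_cancel, mul_one, one_mul, inv_one, C]) (by first | (simp only [mul_assoc, mul_inv_rev, inv_inv, mul_inv_cancel_left, inv_mul_cancel_left, mul_inv_cancel, inv_mul_cancel, mul_one, one_mul, inv_one, C0]; done) | simp only [mul_assoc, mul_inv_rev, inv_inv, mul_inv_cancel_left, inv_mul_cancel_left, mul_inv_cancel, inv_mul_cancel, mul_one, one_mul, inv_one, C]),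
    o.cv hδ (1) (by simp only [hδ, δinv hδ, δone hδ, D] <;> linear_combination (0) * h3) (by first | (simp only [mul_assoc, mul_inv_rev, inv_inv, mul_inv_cancel_left, inv_mul_cancel_left, mul_inv_cancel, inv_mul_cancel, mul_one, one_mul, inv_one]; done) | simp only [mul_assoc, mul_inv_rev, inv_inv, mul_inv_cancel_left, inv_mul_cancel_left, mul_inv_cancel, inv_mul_cancel, mul_one, one_mul, inv_one, C]) (by first | (simp only [mul_assoc, mul_inv_rev, inv_inv, mul_inv_cancel_left, inv_mul_cancel_left, mul_inv_cancel, inv_mul_cancel, mul_one, one_mul, inv_one]; done) | simp only [mul_assoc, mul_inv_rev, inv_inv, mul_inv_cancel_left, inv_mul_cancel_left, mul_inv_cancel, inv_mul_cancel, mul_one, one_mul, inv_one, C]),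
    o.cv hδ (P * f4⁻¹) (by simp only [hδ, δinv hδ, δone hδ, D] <;> linear_combination (1) * h3) (by first | (simp only [mul_assoc, mul_inv_rev, inv_inv, mul_inv_cancel_left, inv_mul_cancel_left, mul_inv_cancel, inv_mul_cancel, mul_one, one_mul, inv_one]; done) | simp only [mul_assoc, mul_inv_rev, inv_inv, mul_inv_cancel_left, inv_mul_cancel_left, mul_inv_cancel, inv_mul_cancel, mul_one, one_mul, inv_one, C]) (by first | (simp only [mul_assoc, mul_inv_rev, inv_inv, mul_inv_cancel_left, inv_mul_cancel_left, mul_inv_cancel, inv_mul_cancel, mul_one, one_mul, inv_one]; done) | simp only [mul_assoc, mul_inv_rev, inv_inv, mul_inv_cancel_left, inv_mul_cancel_left, mul_inv_cancel, inv_mul_cancel, mul_one, one_mul, inv_one, C]),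
    o.cv hδ (Q * f0⁻¹) (by simp only [hδ, δinv hδ, δone hδ, D] <;> linear_combination (0) * h3) (by first | (simp only [mul_assoc, mul_inv_rev, inv_inv, mul_inv_cancel_left, inv_mul_cancel_left, mul_inv_cancel, inv_mul_cancel, mul_one, one_mul, inv_one]; done) | simp only [mul_assoc, mul_inv_rev, inv_inv, mul_inv_cancel_left, inv_mul_cancel_left, mul_inv_cancel, inv_mul_cancel, mul_one, one_mul, inv_one, C]) (by first | (simp only [mul_assoc, mul_inv_rev, inv_inv, mul_inv_cancel_left, inv_mul_cancel_left, mul_inv_cancel, inv_mul_cancel, mul_one, one_mul, inv_one, C2]; done) | simp only [mul_assoc, mul_inv_rev, inv_inv, mul_inv_cancel_left, inv_mul_cancel_left, mul_inv_cancel, inv_mul_cancel, mul_one, one_mul, inv_one, C]),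
    o.cv hδ (1) (by simp only [hδ, δinv hδ, δone hδ, D] <;> linear_combination (0) * h3) (by first | (simp only [mul_assoc, mul_inv_rev, inv_inv, mul_inv_cancel_left, inv_mul_cancel_left, mul_inv_cancel, inv_mul_cancel, mul_one, one_mul, inv_one]; done) | simp only [mul_assoc, mul_inv_rev, inv_inv, mul_inv_cancel_left, inv_mul_cancel_left, mul_inv_cancel, inv_mul_cancel, mul_one, one_mul, inv_one, C]) (by first | (simp only [mul_assoc, mul_inv_rev, inv_inv, mul_inv_cancel_left, inv_mul_cancel_left, mul_inv_cancel, inv_mul_cancel, mul_one, one_mul, inv_one]; done) | simp only [mul_assoc, mul_inv_rev, inv_inv, mul_inv_cancel_left, inv_mul_cancel_left, mul_inv_cancel, inv_mul_cancel, mul_one, one_mul, inv_one, C]),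
    o.cv hδ (P * f4⁻¹) (by simp only [hδ, δinv hδ, δone hδ, D] <;> linear_combination (-1) * h3) (by first | (simp only [mul_assoc, mul_inv_rev, inv_inv, mul_inv_cancel_left, inv_mul_cancel_left, mul_inv_cancel, inv_mul_cancel, mul_one, one_mul, inv_one]; done) | simp only [mul_assoc, mul_inv_rev, inv_inv, mul_inv_cancel_left, inv_mul_cancel_left, mul_inv_cancel, inv_mul_cancel, mul_one, one_mul, inv_one, C]) (by first | (simp only [mul_assoc, mul_inv_rev, inv_inv, mul_inv_cancel_left, inv_mul_cancel_left, mul_inv_cancel, inv_mul_cancel, mul_one, one_mul, inv_one]; done) | simp only [mul_assoc, mul_inv_rev, inv_inv, mul_inv_cancel_left, inv_mul_cancel_left, mul_inv_cancel, inv_mul_cancel, mul_one, one_mul, inv_one, C])⟩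

theorem close_AAAAA_k24 {G : Type*} [Group G] {δ : G → ZMod 3} (hδ : ∀ u v, δ (u * v) = δ u + δ v) (o : Pre δ)
    {P Q f0 f1 f2 f3 f4 : G} {e : ZMod 3} (h3 : 3 * e = 0)
    (D : δ P = e ∧ δ Q = -e ∧ δ f0 = 0 ∧ δ f1 = 0 ∧ δ f2 = 0 ∧ δ f3 = 0 ∧ δ f4 = 0)
    (C : Cube P f0 ∧ Cube P f1 ∧ Cube Q f0 ∧ Cube Q f1 ∧ Cube P f2 ∧ Cube Q f2 ∧ Cube P f3 ∧ Cube Q f3 ∧ Cube P f4 ∧ Cube Q f4) :
    (o.lt (f3 * (Q⁻¹ * (f0 * Q⁻¹))) (f3 * (Q⁻¹ * (P * f4⁻¹))) ↔ o.lt (f3 * (Q⁻¹ * (f0 * Q⁻¹))) (f3 * (Q⁻¹ * (P * f4⁻¹)))) ∧
    (o.lt (f3 * (Q⁻¹ * (f1 * P⁻¹))) (f3 * (Q⁻¹ * (f0 * P⁻¹))) ↔ o.lt (f3 * (Q⁻¹ * (f1 * P⁻¹))) (f3 * (Q⁻¹ * (f0 * P⁻¹)))) ∧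
    (o.lt (f3 * Q⁻¹) (f3 * (P⁻¹ * (f1 * P⁻¹))) ↔ o.lt (f3 * (Q⁻¹ * (f1 * P⁻¹))) (f3 * f1⁻¹)) ∧
    (o.lt (f3 * f1⁻¹) (f3 * (Q⁻¹ * (f0 * P⁻¹))) ↔ o.lt (f3 * f1⁻¹) (f3 * (Q⁻¹ * (f0 * P⁻¹)))) ∧
    (o.lt (f3 * f0⁻¹) (f3 * (Q⁻¹ * (f0 * P⁻¹))) ↔ o.lt (f3 * f0⁻¹) (f3 * (Q⁻¹ * (f0 * P⁻¹)))) ∧
    (o.lt (P * f0⁻¹) (f3 * Q⁻¹) ↔ o.lt (1) (f3 * (Q⁻¹ * (f0 * P⁻¹)))) ∧
    (o.lt (f3 * (Q⁻¹ * (f3 * P⁻¹))) (f3 * (Q⁻¹ * (f4 * P⁻¹))) ↔ o.lt (f3 * (Q⁻¹ * (f3 * P⁻¹))) (f3 * (Q⁻¹ * (f4 * P⁻¹)))) ∧
    (o.lt (f3 * (Q⁻¹ * (f3 * P⁻¹))) (f3 * f4⁻¹) ↔ o.lt (f3 * (Q⁻¹ * (f3 * P⁻¹))) (f3 * f4⁻¹)) ∧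
    (o.lt (f3 * (P⁻¹ * (f4 * P⁻¹))) (f3 * Q⁻¹) ↔ o.lt (f3 * f4⁻¹) (f3 * (Q⁻¹ * (f4 * P⁻¹)))) ∧
    (o.lt (f4 * (P⁻¹ * (f4 * f1⁻¹))) (f4 * (P⁻¹ * (f4 * f2⁻¹))) ↔ o.lt (P * (f4⁻¹ * (P * f1⁻¹))) (P * (f4⁻¹ * (P * f2⁻¹)))) ∧
    (o.lt (f4 * (P⁻¹ * (f4 * f1⁻¹))) (P * (f4⁻¹ * (f2 * Q⁻¹))) ↔ o.lt (P * (f4⁻¹ * (P * f1⁻¹))) (P * (f4⁻¹ * (f2 * Q⁻¹)))) ∧
    (o.lt (P * (f4⁻¹ * (f2 * Q⁻¹))) (f4 * (P⁻¹ * (f4 * f2⁻¹))) ↔ o.lt (P * (f4⁻¹ * (f2 * Q⁻¹))) (P * (f4⁻¹ * (P * f2⁻¹)))) ∧
    (o.lt (f4 * (P⁻¹ * (f4 * f1⁻¹))) (f4 * (P⁻¹ * (f4 * f3⁻¹))) ↔ o.lt (P * (f4⁻¹ * (P * f1⁻¹))) (P * (f4⁻¹ * (P * f3⁻¹)))) ∧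
    (o.lt (P * (f4⁻¹ * (f2 * Q⁻¹))) (f4 * (P⁻¹ * (f4 * f3⁻¹))) ↔ o.lt (P * (f4⁻¹ * (f2 * Q⁻¹))) (P * (f4⁻¹ * (P * f3⁻¹)))) ∧
    (o.lt (f4 * (P⁻¹ * (f4 * f1⁻¹))) (P * (f4⁻¹ * (Q * P⁻¹))) ↔ o.lt (P * (f4⁻¹ * (P * f1⁻¹))) (P * (f4⁻¹ * (Q * P⁻¹)))) ∧
    (o.lt (P * (f4⁻¹ * (f2 * P⁻¹))) (P * (f4⁻¹ * (Q * f2⁻¹))) ↔ o.lt (P * (f4⁻¹ * (P * f2⁻¹))) (P * (f4⁻¹ * (Q * P⁻¹)))) ∧
    (o.lt (f4 * (P⁻¹ * (f4 * f2⁻¹))) (f4 * (P⁻¹ * (f4 * f1⁻¹))) ↔ o.lt (P * (f4⁻¹ * (P * f2⁻¹))) (P * (f4⁻¹ * (P * f1⁻¹)))) ∧
    (o.lt (P * (f4⁻¹ * (Q * P⁻¹))) (f4 * (P⁻¹ * (f4 * f1⁻¹))) ↔ o.lt (P * (f4⁻¹ * (Q * P⁻¹))) (P * (f4⁻¹ * (P * f1⁻¹)))) ∧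
    (o.lt (f4 * (P⁻¹ * (f4 * f2⁻¹))) (P * (f4⁻¹ * (f2 * Q⁻¹))) ↔ o.lt (P * (f4⁻¹ * (P * f2⁻¹))) (P * (f4⁻¹ * (f2 * Q⁻¹)))) ∧
    (o.lt (P * f4⁻¹) (P * f2⁻¹) ↔ o.lt (P * (f4⁻¹ * (f2 * Q⁻¹))) (P * Q⁻¹)) := by
  have C' := C
  obtain ⟨C0, C1, C2, C3, C4, C5, C6, C7, C8, C9⟩ := C'
  simp only [Cube] at C C0 C1 C2 C3 C4 C5 C6 C7 C8 C9
  exact ⟨o.cv hδ (1) (by simp only [hδ, δinv hδ, δone hδ, D] <;> linear_combination (0) * h3) (by first | (simp only [mul_assoc, mul_inv_rev, inv_inv, mul_inv_cancel_left, inv_mul_cancel_left, mul_inv_cancel, inv_mul_cancel, mul_one, one_mul, inv_one]; done) | simp only [mul_assoc, mul_inv_rev, inv_inv, mul_inv_cancel_left, inv_mul_cancel_left, mul_inv_cancel, inv_mul_cancel, mul_one, one_mul, inv_one, C]) (by first | (simp only [mul_assoc, mul_inv_rev, inv_inv, mul_inv_cancel_left, inv_mul_cancel_left, mul_inv_cancel, inv_mul_cancel, mul_one, one_mul, inv_one]; done) | simp only [mul_assoc, mul_inv_rev, inv_inv, mul_inv_cancel_left, inv_mul_cancel_left, mul_inv_cancel, inv_mul_cancel, mul_one, one_mul, inv_one, C]),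
    o.cv hδ (1) (by simp only [hδ, δinv hδ, δone hδ, D] <;> linear_combination (0) * h3) (by first | (simp only [mul_assoc, mul_inv_rev, inv_inv, mul_inv_cancel_left, inv_mul_cancel_left, mul_inv_cancel, inv_mul_cancel, mul_one, one_mul, inv_one]; done) | simp only [mul_assoc, mul_inv_rev, inv_inv, mul_inv_cancel_left, inv_mul_cancel_left, mul_inv_cancel, inv_mul_cancel, mul_one, one_mul, inv_one, C]) (by first | (simp only [mul_assoc, mul_inv_rev, inv_inv, mul_inv_cancel_left, inv_mul_cancel_left, mul_inv_cancel, inv_mul_cancel, mul_one, one_mul, inv_one]; done) | simp only [mul_assoc, mul_inv_rev, inv_inv, mul_inv_cancel_left, inv_mul_cancel_left, mul_inv_cancel, inv_mul_cancel, mul_one, one_mul, inv_one, C]),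
    o.cv hδ (f1 * P⁻¹) (by simp only [hδ, δinv hδ, δone hδ, D] <;> linear_combination (1) * h3) (by first | (simp only [mul_assoc, mul_inv_rev, inv_inv, mul_inv_cancel_left, inv_mul_cancel_left, mul_inv_cancel, inv_mul_cancel, mul_one, one_mul, inv_one]; done) | simp only [mul_assoc, mul_inv_rev, inv_inv, mul_inv_cancel_left, inv_mul_cancel_left, mul_inv_cancel, inv_mul_cancel, mul_one, one_mul, inv_one, C]) (by first | (simp only [mul_assoc, mul_inv_rev, inv_inv, mul_inv_cancel_left, inv_mul_cancel_left, mul_inv_cancel, inv_mul_cancel, mul_one, one_mul, inv_one, C1]; done) | simp only [mul_assoc, mul_inv_rev, inv_inv, mul_inv_cancel_left, inv_mul_cancel_left, mul_inv_cancel, inv_mul_cancel, mul_one, one_mul, inv_one, C]),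
    o.cv hδ (1) (by simp only [hδ, δinv hδ, δone hδ, D] <;> linear_combination (0) * h3) (by first | (simp only [mul_assoc, mul_inv_rev, inv_inv, mul_inv_cancel_left, inv_mul_cancel_left, mul_inv_cancel, inv_mul_cancel, mul_one, one_mul, inv_one]; done) | simp only [mul_assoc, mul_inv_rev, inv_inv, mul_inv_cancel_left, inv_mul_cancel_left, mul_inv_cancel, inv_mul_cancel, mul_one, one_mul, inv_one, C]) (by first | (simp only [mul_assoc, mul_inv_rev, inv_inv, mul_inv_cancel_left, inv_mul_cancel_left, mul_inv_cancel, inv_mul_cancel, mul_one, one_mul, inv_one]; done) | simp only [mul_assoc, mul_inv_rev, inv_inv, mul_inv_cancel_left, inv_mul_cancel_left, mul_inv_cancel, inv_mul_cancel, mul_one, one_mul, inv_one, C]),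
    o.cv hδ (1) (by simp only [hδ, δinv hδ, δone hδ, D] <;> linear_combination (0) * h3) (by first | (simp only [mul_assoc, mul_inv_rev, inv_inv, mul_inv_cancel_left, inv_mul_cancel_left, mul_inv_cancel, inv_mul_cancel, mul_one, one_mul, inv_one]; done) | simp only [mul_assoc, mul_inv_rev, inv_inv, mul_inv_cancel_left, inv_mul_cancel_left, mul_inv_cancel, inv_mul_cancel, mul_one, one_mul, inv_one, C]) (by first | (simp only [mul_assoc, mul_inv_rev, inv_inv, mul_inv_cancel_left, inv_mul_cancel_left, mul_inv_cancel, inv_mul_cancel, mul_one, one_mul, inv_one]; done) | simp only [mul_assoc, mul_inv_rev, inv_inv, mul_inv_cancel_left, inv_mul_cancel_left, mul_inv_cancel, inv_mul_cancel, mul_one, one_mul, inv_one, C]),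
    o.cv hδ (f0 * P⁻¹) (by simp only [hδ, δinv hδ, δone hδ, D] <;> linear_combination (0) * h3) (by first | (simp only [mul_assoc, mul_inv_rev, inv_inv, mul_inv_cancel_left, inv_mul_cancel_left, mul_inv_cancel, inv_mul_cancel, mul_one, one_mul, inv_one]; done) | simp only [mul_assoc, mul_inv_rev, inv_inv, mul_inv_cancel_left, inv_mul_cancel_left, mul_inv_cancel, inv_mul_cancel, mul_one, one_mul, inv_one, C]) (by first | (simp only [mul_assoc, mul_inv_rev, inv_inv, mul_inv_cancel_left, inv_mul_cancel_left, mul_inv_cancel, inv_mul_cancel, mul_one, one_mul, inv_one]; done) | simp only [mul_assoc, mul_inv_rev, inv_inv, mul_inv_cancel_left, inv_mul_cancel_left, mul_inv_cancel, inv_mul_cancel, mul_one, one_mul, inv_one, C]),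
    o.cv hδ (1) (by simp only [hδ, δinv hδ, δone hδ, D] <;> linear_combination (0) * h3) (by first | (simp only [mul_assoc, mul_inv_rev, inv_inv, mul_inv_cancel_left, inv_mul_cancel_left, mul_inv_cancel, inv_mul_cancel, mul_one, one_mul, inv_one]; done) | simp only [mul_assoc, mul_inv_rev, inv_inv, mul_inv_cancel_left, inv_mul_cancel_left, mul_inv_cancel, inv_mul_cancel, mul_one, one_mul, inv_one, C]) (by first | (simp only [mul_assoc, mul_inv_rev, inv_inv, mul_inv_cancel_left, inv_mul_cancel_left, mul_inv_cancel, inv_mul_cancel, mul_one, one_mul, inv_one]; done) | simp only [mul_assoc, mul_inv_rev, inv_inv, mul_inv_cancel_left, inv_mul_cancel_left, mul_inv_cancel, inv_mul_cancel, mul_one, one_mul, inv_one, C]),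
    o.cv hδ (1) (by simp only [hδ, δinv hδ, δone hδ, D] <;> linear_combination (0) * h3) (by first | (simp only [mul_assoc, mul_inv_rev, inv_inv, mul_inv_cancel_left, inv_mul_cancel_left, mul_inv_cancel, inv_mul_cancel, mul_one, one_mul, inv_one]; done) | simp only [mul_assoc, mul_inv_rev, inv_inv, mul_inv_cancel_left, inv_mul_cancel_left, mul_inv_cancel, inv_mul_cancel, mul_one, one_mul, inv_one, C]) (by first | (simp only [mul_assoc, mul_inv_rev, inv_inv, mul_inv_cancel_left, inv_mul_cancel_left, mul_inv_cancel, inv_mul_cancel, mul_one, one_mul, inv_one]; done) | simp only [mul_assoc, mul_inv_rev, inv_inv, mul_inv_cancel_left, inv_mul_cancel_left, mul_inv_cancel, inv_mul_cancel, mul_one, one_mul, inv_one, C]),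
    o.cv hδ (P * (f4⁻¹ * (P * f4⁻¹))) (by simp only [hδ, δinv hδ, δone hδ, D] <;> linear_combination (-1) * h3) (by first | (simp only [mul_assoc, mul_inv_rev, inv_inv, mul_inv_cancel_left, inv_mul_cancel_left, mul_inv_cancel, inv_mul_cancel, mul_one, one_mul, inv_one]; done) | simp only [mul_assoc, mul_inv_rev, inv_inv, mul_inv_cancel_left, inv_mul_cancel_left, mul_inv_cancel, inv_mul_cancel, mul_one, one_mul, inv_one, C]) (by first | (simp only [mul_assoc, mul_inv_rev, inv_inv, mul_inv_cancel_left, inv_mul_cancel_left, mul_inv_cancel, inv_mul_cancel, mul_one, one_mul, inv_one, C8]; done) | simp only [mul_assoc, mul_inv_rev, inv_inv, mul_inv_cancel_left, inv_mul_cancel_left, mul_inv_cancel, inv_mul_cancel, mul_one, one_mul, inv_one, C]),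
    o.cv hδ (f1 * (f4⁻¹ * (P * (f4⁻¹ * (P * (f4⁻¹ * (P * f1⁻¹))))))) (by simp only [hδ, δinv hδ, δone hδ, D] <;> linear_combination (0) * h3) (by first | (simp only [mul_assoc, mul_inv_rev, inv_inv, mul_inv_cancel_left, inv_mul_cancel_left, mul_inv_cancel, inv_mul_cancel, mul_one, one_mul, inv_one, C8]; done) | simp only [mul_assoc, mul_inv_rev, inv_inv, mul_inv_cancel_left, inv_mul_cancel_left, mul_inv_cancel, inv_mul_cancel, mul_one, one_mul, inv_one, C]) (by first | (simp only [mul_assoc, mul_inv_rev, inv_inv, mul_inv_cancel_left, inv_mul_cancel_left, mul_inv_cancel, inv_mul_cancel, mul_one, one_mul, inv_one, C8]; done) | simp only [mul_assoc, mul_inv_rev, inv_inv, mul_inv_cancel_left, inv_mul_cancel_left, mul_inv_cancel, inv_mul_cancel, mul_one, one_mul, inv_one, C]),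
    o.cv hδ (f1 * (f4⁻¹ * (P * (f4⁻¹ * (P * (f4⁻¹ * (P * f1⁻¹))))))) (by simp only [hδ, δinv hδ, δone hδ, D] <;> linear_combination (-1) * h3) (by first | (simp only [mul_assoc, mul_inv_rev, inv_inv, mul_inv_cancel_left, inv_mul_cancel_left, mul_inv_cancel, inv_mul_cancel, mul_one, one_mul, inv_one, C8]; done) | simp only [mul_assoc, mul_inv_rev, inv_inv, mul_inv_cancel_left, inv_mul_cancel_left, mul_inv_cancel, inv_mul_cancel, mul_one, one_mul, inv_one, C]) (by first | (simp only [mul_assoc, mul_inv_rev, inv_inv, mul_inv_cancel_left, inv_mul_cancel_left, mul_inv_cancel, inv_mul_cancel, mul_one, one_mul, inv_one, C8]; done) | simp only [mul_assoc, mul_inv_rev, inv_inv, mul_inv_cancel_left, inv_mul_cancel_left, mul_inv_cancel, inv_mul_cancel, mul_one, one_mul, inv_one, C]),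
    o.cv hδ (1) (by simp only [hδ, δinv hδ, δone hδ, D] <;> linear_combination (1) * h3) (by first | (simp only [mul_assoc, mul_inv_rev, inv_inv, mul_inv_cancel_left, inv_mul_cancel_left, mul_inv_cancel, inv_mul_cancel, mul_one, one_mul, inv_one]; done) | simp only [mul_assoc, mul_inv_rev, inv_inv, mul_inv_cancel_left, inv_mul_cancel_left, mul_inv_cancel, inv_mul_cancel, mul_one, one_mul, inv_one, C]) (by first | (simp only [mul_assoc, mul_inv_rev, inv_inv, mul_inv_cancel_left, inv_mul_cancel_left, mul_inv_cancel, inv_mul_cancel, mul_one, one_mul, inv_one, C8]; done) | simp only [mul_assoc, mul_inv_rev, inv_inv, mul_inv_cancel_left, inv_mul_cancel_left, mul_inv_cancel, inv_mul_cancel, mul_one, one_mul, inv_one, C]),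
    o.cv hδ (f1 * (f4⁻¹ * (P * (f4⁻¹ * (P * (f4⁻¹ * (P * f1⁻¹))))))) (by simp only [hδ, δinv hδ, δone hδ, D] <;> linear_combination (0) * h3) (by first | (simp only [mul_assoc, mul_inv_rev, inv_inv, mul_inv_cancel_left, inv_mul_cancel_left, mul_inv_cancel, inv_mul_cancel, mul_one, one_mul, inv_one, C8]; done) | simp only [mul_assoc, mul_inv_rev, inv_inv, mul_inv_cancel_left, inv_mul_cancel_left, mul_inv_cancel, inv_mul_cancel, mul_one, one_mul, inv_one, C]) (by first | (simp only [mul_assoc, mul_inv_rev, inv_inv, mul_inv_cancel_left, inv_mul_cancel_left, mul_inv_cancel, inv_mul_cancel, mul_one, one_mul, inv_one, C8]; done) | simp only [mul_assoc, mul_inv_rev, inv_inv, mul_inv_cancel_left, inv_mul_cancel_left, mul_inv_cancel, inv_mul_cancel, mul_one, one_mul, inv_one, C]),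
    o.cv hδ (1) (by simp only [hδ, δinv hδ, δone hδ, D] <;> linear_combination (1) * h3) (by first | (simp only [mul_assoc, mul_inv_rev, inv_inv, mul_inv_cancel_left, inv_mul_cancel_left, mul_inv_cancel, inv_mul_cancel, mul_one, one_mul, inv_one]; done) | simp only [mul_assoc, mul_inv_rev, inv_inv, mul_inv_cancel_left, inv_mul_cancel_left, mul_inv_cancel, inv_mul_cancel, mul_one, one_mul, inv_one, C]) (by first | (simp only [mul_assoc, mul_inv_rev, inv_inv, mul_inv_cancel_left, inv_mul_cancel_left, mul_inv_cancel, inv_mul_cancel, mul_one, one_mul, inv_one, C8]; done) | simp only [mul_assoc, mul_inv_rev, inv_inv, mul_inv_cancel_left, inv_mul_cancel_left, mul_inv_cancel, inv_mul_cancel, mul_one, one_mul, inv_one, C]),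
    o.cv hδ (f1 * (f4⁻¹ * (P * (f4⁻¹ * (P * (f4⁻¹ * (P * f1⁻¹))))))) (by simp only [hδ, δinv hδ, δone hδ, D] <;> linear_combination (0) * h3) (by first | (simp only [mul_assoc, mul_inv_rev, inv_inv, mul_inv_cancel_left, inv_mul_cancel_left, mul_inv_cancel, inv_mul_cancel, mul_one, one_mul, inv_one, C8]; done) | simp only [mul_assoc, mul_inv_rev, inv_inv, mul_inv_cancel_left, inv_mul_cancel_left, mul_inv_cancel, inv_mul_cancel, mul_one, one_mul, inv_one, C]) (by first | (simp only [mul_assoc, mul_inv_rev, inv_inv, mul_inv_cancel_left, inv_mul_cancel_left, mul_inv_cancel, inv_mul_cancel, mul_one, one_mul, inv_one, C8]; done) | simp only [mul_assoc, mul_inv_rev, inv_inv, mul_inv_cancel_left, inv_mul_cancel_left, mul_inv_cancel, inv_mul_cancel, mul_one, one_mul, inv_one, C]),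
    o.cv hδ (P * (f2⁻¹ * (P * f2⁻¹))) (by simp only [hδ, δinv hδ, δone hδ, D] <;> linear_combination (0) * h3) (by first | (simp only [mul_assoc, mul_inv_rev, inv_inv, mul_inv_cancel_left, inv_mul_cancel_left, mul_inv_cancel, inv_mul_cancel, mul_one, one_mul, inv_one, C8]; done) | simp only [mul_assoc, mul_inv_rev, inv_inv, mul_inv_cancel_left, inv_mul_cancel_left, mul_inv_cancel, inv_mul_cancel, mul_one, one_mul, inv_one, C]) (by first | (simp only [mul_assoc, mul_inv_rev, inv_inv, mul_inv_cancel_left, inv_mul_cancel_left, mul_inv_cancel, inv_mul_cancel, mul_one, one_mul, inv_one, C4]; done) | simp only [mul_assoc, mul_inv_rev, inv_inv, mul_inv_cancel_left, inv_mul_cancel_left, mul_inv_cancel, inv_mul_cancel, mul_one, one_mul, inv_one, C]),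
    o.cv hδ (f2 * (f4⁻¹ * (P * (f4⁻¹ * (P * (f4⁻¹ * (P * f2⁻¹))))))) (by simp only [hδ, δinv hδ, δone hδ, D] <;> linear_combination (0) * h3) (by first | (simp only [mul_assoc, mul_inv_rev, inv_inv, mul_inv_cancel_left, inv_mul_cancel_left, mul_inv_cancel, inv_mul_cancel, mul_one, one_mul, inv_one, C8]; done) | simp only [mul_assoc, mul_inv_rev, inv_inv, mul_inv_cancel_left, inv_mul_cancel_left, mul_inv_cancel, inv_mul_cancel, mul_one, one_mul, inv_one, C]) (by first | (simp only [mul_assoc, mul_inv_rev, inv_inv, mul_inv_cancel_left, inv_mul_cancel_left, mul_inv_cancel, inv_mul_cancel, mul_one, one_mul, inv_one, C8]; done) | simp only [mul_assoc, mul_inv_rev, inv_inv, mul_inv_cancel_left, inv_mul_cancel_left, mul_inv_cancel, inv_mul_cancel, mul_one, one_mul, inv_one, C]),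
    o.cv hδ (1) (by simp only [hδ, δinv hδ, δone hδ, D] <;> linear_combination (0) * h3) (by first | (simp only [mul_assoc, mul_inv_rev, inv_inv, mul_inv_cancel_left, inv_mul_cancel_left, mul_inv_cancel, inv_mul_cancel, mul_one, one_mul, inv_one]; done) | simp only [mul_assoc, mul_inv_rev, inv_inv, mul_inv_cancel_left, inv_mul_cancel_left, mul_inv_cancel, inv_mul_cancel, mul_one, one_mul, inv_one, C]) (by first | (simp only [mul_assoc, mul_inv_rev, inv_inv, mul_inv_cancel_left, inv_mul_cancel_left, mul_inv_cancel, inv_mul_cancel, mul_one, one_mul, inv_one, C8]; done) | simp only [mul_assoc, mul_inv_rev, inv_inv, mul_inv_cancel_left, inv_mul_cancel_left, mul_inv_cancel, inv_mul_cancel, mul_one, one_mul, inv_one, C]),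
    o.cv hδ (f2 * (f4⁻¹ * (P * (f4⁻¹ * (P * (f4⁻¹ * (P * f2⁻¹))))))) (by simp only [hδ, δinv hδ, δone hδ, D] <;> linear_combination (-1) * h3) (by first | (simp only [mul_assoc, mul_inv_rev, inv_inv, mul_inv_cancel_left, inv_mul_cancel_left, mul_inv_cancel, inv_mul_cancel, mul_one, one_mul, inv_one, C8]; done) | simp only [mul_assoc, mul_inv_rev, inv_inv, mul_inv_cancel_left, inv_mul_cancel_left, mul_inv_cancel, inv_mul_cancel, mul_one, one_mul, inv_one, C]) (by first | (simp only [mul_assoc, mul_inv_rev, inv_inv, mul_inv_cancel_left, inv_mul_cancel_left, mul_inv_cancel, inv_mul_cancel, mul_one, one_mul, inv_one, C8]; done) | simp only [mul_assoc, mul_inv_rev, inv_inv, mul_inv_cancel_left, inv_mul_cancel_left, mul_inv_cancel, inv_mul_cancel, mul_one, one_mul, inv_one, C]),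
    o.cv hδ (f2 * Q⁻¹) (by simp only [hδ, δinv hδ, δone hδ, D] <;> linear_combination (0) * h3) (by first | (simp only [mul_assoc, mul_inv_rev, inv_inv, mul_inv_cancel_left, inv_mul_cancel_left, mul_inv_cancel, inv_mul_cancel, mul_one, one_mul, inv_one]; done) | simp only [mul_assoc, mul_inv_rev, inv_inv, mul_inv_cancel_left, inv_mul_cancel_left, mul_inv_cancel, inv_mul_cancel, mul_one, one_mul, inv_one, C]) (by first | (simp only [mul_assoc, mul_inv_rev, inv_inv, mul_inv_cancel_left, inv_mul_cancel_left, mul_inv_cancel, inv_mul_cancel, mul_one, one_mul, inv_one]; done) | simp only [mul_assoc, mul_inv_rev, inv_inv, mul_inv_cancel_left, inv_mul_cancel_left, mul_inv_cancel, inv_mul_cancel, mul_one, one_mul, inv_one, C])⟩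

theorem close_AAAAA_k25 {G : Type*} [Group G] {δ : G → ZMod 3} (hδ : ∀ u v, δ (u * v) = δ u + δ v) (o : Pre δ)
    {P Q f0 f1 f2 f3 f4 : G} {e : ZMod 3} (h3 : 3 * e = 0)
    (D : δ P = e ∧ δ Q = -e ∧ δ f0 = 0 ∧ δ f1 = 0 ∧ δ f2 = 0 ∧ δ f3 = 0 ∧ δ f4 = 0)
    (C : Cube P f0 ∧ Cube P f1 ∧ Cube Q f0 ∧ Cube Q f1 ∧ Cube P f2 ∧ Cube Q f2 ∧ Cube P f3 ∧ Cube Q f3 ∧ Cube P f4 ∧ Cube Q f4) :
    (o.lt (P * Q⁻¹) (f4 * (P⁻¹ * (f4 * f3⁻¹))) ↔ o.lt (P * Q⁻¹) (P * (f4⁻¹ * (P * f3⁻¹)))) ∧
    (o.lt (f4 * (P⁻¹ * (f4 * f3⁻¹))) (P * Q⁻¹) ↔ o.lt (P * (f4⁻¹ * (P * f3⁻¹))) (P * Q⁻¹)) ∧
    (o.lt (P * (f4⁻¹ * (Q * P⁻¹))) (f4 * (P⁻¹ * (f4 * f3⁻¹))) ↔ o.lt (P * (f4⁻¹ * (Q * P⁻¹))) (P * (f4⁻¹ * (P * f3⁻¹)))) ∧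
    (o.lt (P * (f4⁻¹ * (f0 * P⁻¹))) (P * (f4⁻¹ * (f1 * P⁻¹))) ↔ o.lt (P * (f4⁻¹ * (f0 * P⁻¹))) (P * (f4⁻¹ * (f1 * P⁻¹)))) ∧
    (o.lt (P * (f4⁻¹ * (f1 * P⁻¹))) (P * (f4⁻¹ * (f0 * P⁻¹))) ↔ o.lt (P * (f4⁻¹ * (f1 * P⁻¹))) (P * (f4⁻¹ * (f0 * P⁻¹)))) ∧
    (o.lt (f4 * (P⁻¹ * (f4 * f1⁻¹))) (P * (f4⁻¹ * (Q * P⁻¹))) ↔ o.lt (P * (f4⁻¹ * (f1 * P⁻¹))) (P * (f4⁻¹ * (Q * f1⁻¹)))) ∧
    (o.lt (P * (f4⁻¹ * (Q * f1⁻¹))) (P * (f4⁻¹ * (f0 * P⁻¹))) ↔ o.lt (P * (f4⁻¹ * (Q * f1⁻¹))) (P * (f4⁻¹ * (f0 * P⁻¹)))) ∧
    (o.lt (P * (f4⁻¹ * (Q * f0⁻¹))) (P * (f4⁻¹ * (Q * f1⁻¹))) ↔ o.lt (P * (f4⁻¹ * (Q * f0⁻¹))) (P * (f4⁻¹ * (Q * f1⁻¹)))) ∧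
    (o.lt (P * f4⁻¹) (f0 * Q⁻¹) ↔ o.lt (P * (f4⁻¹ * (Q * f0⁻¹))) (1)) ∧
    (o.lt (f1 * Q⁻¹) (P * f4⁻¹) ↔ o.lt (1) (P * (f4⁻¹ * (Q * f1⁻¹)))) ∧
    (o.lt (P * (f4⁻¹ * (f0 * Q⁻¹))) (f4 * (P⁻¹ * (f4 * f0⁻¹))) ↔ o.lt (P * (f4⁻¹ * (Q * f0⁻¹))) (P * (f4⁻¹ * (P * Q⁻¹)))) ∧
    (o.lt (Q * f4⁻¹) (f4 * P⁻¹) ↔ o.lt (1) (P * (f4⁻¹ * (P * Q⁻¹)))) ∧
    (o.lt (P * (f4⁻¹ * (Q * P⁻¹))) (f4 * (P⁻¹ * (f4 * f1⁻¹))) ↔ o.lt (P * (f4⁻¹ * (Q * f1⁻¹))) (P * (f4⁻¹ * (f1 * P⁻¹)))) ∧
    (o.lt (P * (f4⁻¹ * (f2 * P⁻¹))) (P * (f4⁻¹ * (Q * f2⁻¹))) ↔ o.lt (P * (f4⁻¹ * (f2 * P⁻¹))) (P * (f4⁻¹ * (Q * f2⁻¹)))) ∧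
    (o.lt (P * f4⁻¹) (P * f2⁻¹) ↔ o.lt (P * (f4⁻¹ * (f2 * P⁻¹))) (1)) ∧
    (o.lt (f2 * Q⁻¹) (P * f4⁻¹) ↔ o.lt (1) (P * (f4⁻¹ * (Q * f2⁻¹)))) ∧
    (o.lt (P * (f4⁻¹ * (f2 * P⁻¹))) (P * (f4⁻¹ * (f3 * P⁻¹))) ↔ o.lt (P * (f4⁻¹ * (f2 * P⁻¹))) (P * (f4⁻¹ * (f3 * P⁻¹)))) ∧
    (o.lt (P * (f4⁻¹ * (f2 * P⁻¹))) (P * (f4⁻¹ * (Q * f3⁻¹))) ↔ o.lt (P * (f4⁻¹ * (f2 * P⁻¹))) (P * (f4⁻¹ * (Q * f3⁻¹)))) ∧
    (o.lt (P * (f4⁻¹ * (Q * P⁻¹))) (f4 * (P⁻¹ * (f4 * f3⁻¹))) ↔ o.lt (P * (f4⁻¹ * (Q * f3⁻¹))) (P * (f4⁻¹ * (f3 * P⁻¹)))) ∧
    (o.lt (P * (f4⁻¹ * (Q * f3⁻¹))) (P * (f4⁻¹ * (Q * f2⁻¹))) ↔ o.lt (P * (f4⁻¹ * (Q * f3⁻¹))) (P * (f4⁻¹ * (Q * f2⁻¹)))) := by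
  have C' := C
  obtain ⟨C0, C1, C2, C3, C4, C5, C6, C7, C8, C9⟩ := C'
  simp only [Cube] at C C0 C1 C2 C3 C4 C5 C6 C7 C8 C9
  exact ⟨o.cv hδ (1) (by simp only [hδ, δinv hδ, δone hδ, D] <;> linear_combination (1) * h3) (by first | (simp only [mul_assoc, mul_inv_rev, inv_inv, mul_inv_cancel_left, inv_mul_cancel_left, mul_inv_cancel, inv_mul_cancel, mul_one, one_mul, inv_one]; done) | simp only [mul_assoc, mul_inv_rev, inv_inv, mul_inv_cancel_left, inv_mul_cancel_left, mul_inv_cancel, inv_mul_cancel, mul_one, one_mul, inv_one, C]) (by first | (simp only [mul_assoc, mul_inv_rev, inv_inv, mul_inv_cancel_left, inv_mul_cancel_left, mul_inv_cancel, inv_mul_cancel, mul_one, one_mul, inv_one, C8]; done) | simp only [mul_assoc, mul_inv_rev, inv_inv, mul_inv_cancel_left, inv_mul_cancel_left, mul_inv_cancel, inv_mul_cancel, mul_one, one_mul, inv_one, C]),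
    o.cv hδ (f3 * (f4⁻¹ * (P * (f4⁻¹ * (P * (f4⁻¹ * (P * f3⁻¹))))))) (by simp only [hδ, δinv hδ, δone hδ, D] <;> linear_combination (-1) * h3) (by first | (simp only [mul_assoc, mul_inv_rev, inv_inv, mul_inv_cancel_left, inv_mul_cancel_left, mul_inv_cancel, inv_mul_cancel, mul_one, one_mul, inv_one, C8]; done) | simp only [mul_assoc, mul_inv_rev, inv_inv, mul_inv_cancel_left, inv_mul_cancel_left, mul_inv_cancel, inv_mul_cancel, mul_one, one_mul, inv_one, C]) (by first | (simp only [mul_assoc, mul_inv_rev, inv_inv, mul_inv_cancel_left, inv_mul_cancel_left, mul_inv_cancel, inv_mul_cancel, mul_one, one_mul, inv_one, C8]; done) | simp only [mul_assoc, mul_inv_rev, inv_inv, mul_inv_cancel_left, inv_mul_cancel_left, mul_inv_cancel, inv_mul_cancel, mul_one, one_mul, inv_one, C]),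
    o.cv hδ (1) (by simp only [hδ, δinv hδ, δone hδ, D] <;> linear_combination (0) * h3) (by first | (simp only [mul_assoc, mul_inv_rev, inv_inv, mul_inv_cancel_left, inv_mul_cancel_left, mul_inv_cancel, inv_mul_cancel, mul_one, one_mul, inv_one]; done) | simp only [mul_assoc, mul_inv_rev, inv_inv, mul_inv_cancel_left, inv_mul_cancel_left, mul_inv_cancel, inv_mul_cancel, mul_one, one_mul, inv_one, C]) (by first | (simp only [mul_assoc, mul_inv_rev, inv_inv, mul_inv_cancel_left, inv_mul_cancel_left, mul_inv_cancel, inv_mul_cancel, mul_one, one_mul, inv_one, C8]; done) | simp only [mul_assoc, mul_inv_rev, inv_inv, mul_inv_cancel_left, inv_mul_cancel_left, mul_inv_cancel, inv_mul_cancel, mul_one, one_mul, inv_one, C]),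
    o.cv hδ (1) (by simp only [hδ, δinv hδ, δone hδ, D] <;> linear_combination (0) * h3) (by first | (simp only [mul_assoc, mul_inv_rev, inv_inv, mul_inv_cancel_left, inv_mul_cancel_left, mul_inv_cancel, inv_mul_cancel, mul_one, one_mul, inv_one]; done) | simp only [mul_assoc, mul_inv_rev, inv_inv, mul_inv_cancel_left, inv_mul_cancel_left, mul_inv_cancel, inv_mul_cancel, mul_one, one_mul, inv_one, C]) (by first | (simp only [mul_assoc, mul_inv_rev, inv_inv, mul_inv_cancel_left, inv_mul_cancel_left, mul_inv_cancel, inv_mul_cancel, mul_one, one_mul, inv_one]; done) | simp only [mul_assoc, mul_inv_rev, inv_inv, mul_inv_cancel_left, inv_mul_cancel_left, mul_inv_cancel, inv_mul_cancel, mul_one, one_mul, inv_one, C]),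
    o.cv hδ (1) (by simp only [hδ, δinv hδ, δone hδ, D] <;> linear_combination (0) * h3) (by first | (simp only [mul_assoc, mul_inv_rev, inv_inv, mul_inv_cancel_left, inv_mul_cancel_left, mul_inv_cancel, inv_mul_cancel, mul_one, one_mul, inv_one]; done) | simp only [mul_assoc, mul_inv_rev, inv_inv, mul_inv_cancel_left, inv_mul_cancel_left, mul_inv_cancel, inv_mul_cancel, mul_one, one_mul, inv_one, C]) (by first | (simp only [mul_assoc, mul_inv_rev, inv_inv, mul_inv_cancel_left, inv_mul_cancel_left, mul_inv_cancel, inv_mul_cancel, mul_one, one_mul, inv_one]; done) | simp only [mul_assoc, mul_inv_rev, inv_inv, mul_inv_cancel_left, inv_mul_cancel_left, mul_inv_cancel, inv_mul_cancel, mul_one, one_mul, inv_one, C]),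
    o.cv hδ (f1 * (f4⁻¹ * (P * (f4⁻¹ * (P * (f4⁻¹ * (f1 * P⁻¹))))))) (by simp only [hδ, δinv hδ, δone hδ, D] <;> linear_combination (0) * h3) (by first | (simp only [mul_assoc, mul_inv_rev, inv_inv, mul_inv_cancel_left, inv_mul_cancel_left, mul_inv_cancel, inv_mul_cancel, mul_one, one_mul, inv_one]; done) | simp only [mul_assoc, mul_inv_rev, inv_inv, mul_inv_cancel_left, inv_mul_cancel_left, mul_inv_cancel, inv_mul_cancel, mul_one, one_mul, inv_one, C]) (by first | (simp only [mul_assoc, mul_inv_rev, inv_inv, mul_inv_cancel_left, inv_mul_cancel_left, mul_inv_cancel, inv_mul_cancel, mul_one, one_mul, inv_one, C1, C8]; done) | simp only [mul_assoc, mul_inv_rev, inv_inv, mul_inv_cancel_left, inv_mul_cancel_left, mul_inv_cancel, inv_mul_cancel, mul_one, one_mul, inv_one, C]),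
    o.cv hδ (1) (by simp only [hδ, δinv hδ, δone hδ, D] <;> linear_combination (0) * h3) (by first | (simp only [mul_assoc, mul_inv_rev, inv_inv, mul_inv_cancel_left, inv_mul_cancel_left, mul_inv_cancel, inv_mul_cancel, mul_one, one_mul, inv_one]; done) | simp only [mul_assoc, mul_inv_rev, inv_inv, mul_inv_cancel_left, inv_mul_cancel_left, mul_inv_cancel, inv_mul_cancel, mul_one, one_mul, inv_one, C]) (by first | (simp only [mul_assoc, mul_inv_rev, inv_inv, mul_inv_cancel_left, inv_mul_cancel_left, mul_inv_cancel, inv_mul_cancel, mul_one, one_mul, inv_one]; done) | simp only [mul_assoc, mul_inv_rev, inv_inv, mul_inv_cancel_left, inv_mul_cancel_left, mul_inv_cancel, inv_mul_cancel, mul_one, one_mul, inv_one, C]),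
    o.cv hδ (1) (by simp only [hδ, δinv hδ, δone hδ, D] <;> linear_combination (0) * h3) (by first | (simp only [mul_assoc, mul_inv_rev, inv_inv, mul_inv_cancel_left, inv_mul_cancel_left, mul_inv_cancel, inv_mul_cancel, mul_one, one_mul, inv_one]; done) | simp only [mul_assoc, mul_inv_rev, inv_inv, mul_inv_cancel_left, inv_mul_cancel_left, mul_inv_cancel, inv_mul_cancel, mul_one, one_mul, inv_one, C]) (by first | (simp only [mul_assoc, mul_inv_rev, inv_inv, mul_inv_cancel_left, inv_mul_cancel_left, mul_inv_cancel, inv_mul_cancel, mul_one, one_mul, inv_one]; done) | simp only [mul_assoc, mul_inv_rev, inv_inv, mul_inv_cancel_left, inv_mul_cancel_left, mul_inv_cancel, inv_mul_cancel, mul_one, one_mul, inv_one, C]),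
    o.cv hδ (Q * f0⁻¹) (by simp only [hδ, δinv hδ, δone hδ, D] <;> linear_combination (0) * h3) (by first | (simp only [mul_assoc, mul_inv_rev, inv_inv, mul_inv_cancel_left, inv_mul_cancel_left, mul_inv_cancel, inv_mul_cancel, mul_one, one_mul, inv_one]; done) | simp only [mul_assoc, mul_inv_rev, inv_inv, mul_inv_cancel_left, inv_mul_cancel_left, mul_inv_cancel, inv_mul_cancel, mul_one, one_mul, inv_one, C]) (by first | (simp only [mul_assoc, mul_inv_rev, inv_inv, mul_inv_cancel_left, inv_mul_cancel_left, mul_inv_cancel, inv_mul_cancel, mul_one, one_mul, inv_one]; done) | simp only [mul_assoc, mul_inv_rev, inv_inv, mul_inv_cancel_left, inv_mul_cancel_left, mul_inv_cancel, inv_mul_cancel, mul_one, one_mul, inv_one, C]),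
    o.cv hδ (Q * f1⁻¹) (by simp only [hδ, δinv hδ, δone hδ, D] <;> linear_combination (0) * h3) (by first | (simp only [mul_assoc, mul_inv_rev, inv_inv, mul_inv_cancel_left, inv_mul_cancel_left, mul_inv_cancel, inv_mul_cancel, mul_one, one_mul, inv_one]; done) | simp only [mul_assoc, mul_inv_rev, inv_inv, mul_inv_cancel_left, inv_mul_cancel_left, mul_inv_cancel, inv_mul_cancel, mul_one, one_mul, inv_one, C]) (by first | (simp only [mul_assoc, mul_inv_rev, inv_inv, mul_inv_cancel_left, inv_mul_cancel_left, mul_inv_cancel, inv_mul_cancel, mul_one, one_mul, inv_one]; done) | simp only [mul_assoc, mul_inv_rev, inv_inv, mul_inv_cancel_left, inv_mul_cancel_left, mul_inv_cancel, inv_mul_cancel, mul_one, one_mul, inv_one, C]),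
    o.cv hδ (Q * (f0⁻¹ * (Q * f0⁻¹))) (by simp only [hδ, δinv hδ, δone hδ, D] <;> linear_combination (1) * h3) (by first | (simp only [mul_assoc, mul_inv_rev, inv_inv, mul_inv_cancel_left, inv_mul_cancel_left, mul_inv_cancel, inv_mul_cancel, mul_one, one_mul, inv_one]; done) | simp only [mul_assoc, mul_inv_rev, inv_inv, mul_inv_cancel_left, inv_mul_cancel_left, mul_inv_cancel, inv_mul_cancel, mul_one, one_mul, inv_one, C]) (by first | (simp only [mul_assoc, mul_inv_rev, inv_inv, mul_inv_cancel_left, inv_mul_cancel_left, mul_inv_cancel, inv_mul_cancel, mul_one, one_mul, inv_one, C2, C8]; done) | simp only [mul_assoc, mul_inv_rev, inv_inv, mul_inv_cancel_left, inv_mul_cancel_left, mul_inv_cancel, inv_mul_cancel, mul_one, one_mul, inv_one, C]),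
    o.cv hδ (f4 * Q⁻¹) (by simp only [hδ, δinv hδ, δone hδ, D] <;> linear_combination (0) * h3) (by first | (simp only [mul_assoc, mul_inv_rev, inv_inv, mul_inv_cancel_left, inv_mul_cancel_left, mul_inv_cancel, inv_mul_cancel, mul_one, one_mul, inv_one]; done) | simp only [mul_assoc, mul_inv_rev, inv_inv, mul_inv_cancel_left, inv_mul_cancel_left, mul_inv_cancel, inv_mul_cancel, mul_one, one_mul, inv_one, C]) (by first | (simp only [mul_assoc, mul_inv_rev, inv_inv, mul_inv_cancel_left, inv_mul_cancel_left, mul_inv_cancel, inv_mul_cancel, mul_one, one_mul, inv_one, C8]; done) | simp only [mul_assoc, mul_inv_rev, inv_inv, mul_inv_cancel_left, inv_mul_cancel_left, mul_inv_cancel, inv_mul_cancel, mul_one, one_mul, inv_one, C]),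
    o.cv hδ (P * f1⁻¹) (by simp only [hδ, δinv hδ, δone hδ, D] <;> linear_combination (0) * h3) (by first | (simp only [mul_assoc, mul_inv_rev, inv_inv, mul_inv_cancel_left, inv_mul_cancel_left, mul_inv_cancel, inv_mul_cancel, mul_one, one_mul, inv_one]; done) | simp only [mul_assoc, mul_inv_rev, inv_inv, mul_inv_cancel_left, inv_mul_cancel_left, mul_inv_cancel, inv_mul_cancel, mul_one, one_mul, inv_one, C]) (by first | (simp only [mul_assoc, mul_inv_rev, inv_inv, mul_inv_cancel_left, inv_mul_cancel_left, mul_inv_cancel, inv_mul_cancel, mul_one, one_mul, inv_one, C1, C8]; done) | simp only [mul_assoc, mul_inv_rev, inv_inv, mul_inv_cancel_left, inv_mul_cancel_left, mul_inv_cancel, inv_mul_cancel, mul_one, one_mul, inv_one, C]),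
    o.cv hδ (1) (by simp only [hδ, δinv hδ, δone hδ, D] <;> linear_combination (0) * h3) (by first | (simp only [mul_assoc, mul_inv_rev, inv_inv, mul_inv_cancel_left, inv_mul_cancel_left, mul_inv_cancel, inv_mul_cancel, mul_one, one_mul, inv_one]; done) | simp only [mul_assoc, mul_inv_rev, inv_inv, mul_inv_cancel_left, inv_mul_cancel_left, mul_inv_cancel, inv_mul_cancel, mul_one, one_mul, inv_one, C]) (by first | (simp only [mul_assoc, mul_inv_rev, inv_inv, mul_inv_cancel_left, inv_mul_cancel_left, mul_inv_cancel, inv_mul_cancel, mul_one, one_mul, inv_one]; done) | simp only [mul_assoc, mul_inv_rev, inv_inv, mul_inv_cancel_left, inv_mul_cancel_left, mul_inv_cancel, inv_mul_cancel, mul_one, one_mul, inv_one, C]),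
    o.cv hδ (f2 * P⁻¹) (by simp only [hδ, δinv hδ, δone hδ, D] <;> linear_combination (0) * h3) (by first | (simp only [mul_assoc, mul_inv_rev, inv_inv, mul_inv_cancel_left, inv_mul_cancel_left, mul_inv_cancel, inv_mul_cancel, mul_one, one_mul, inv_one]; done) | simp only [mul_assoc, mul_inv_rev, inv_inv, mul_inv_cancel_left, inv_mul_cancel_left, mul_inv_cancel, inv_mul_cancel, mul_one, one_mul, inv_one, C]) (by first | (simp only [mul_assoc, mul_inv_rev, inv_inv, mul_inv_cancel_left, inv_mul_cancel_left, mul_inv_cancel, inv_mul_cancel, mul_one, one_mul, inv_one]; done) | simp only [mul_assoc, mul_inv_rev, inv_inv, mul_inv_cancel_left, inv_mul_cancel_left, mul_inv_cancel, inv_mul_cancel, mul_one, one_mul, inv_one, C]),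
    o.cv hδ (Q * f2⁻¹) (by simp only [hδ, δinv hδ, δone hδ, D] <;> linear_combination (0) * h3) (by first | (simp only [mul_assoc, mul_inv_rev, inv_inv, mul_inv_cancel_left, inv_mul_cancel_left, mul_inv_cancel, inv_mul_cancel, mul_one, one_mul, inv_one]; done) | simp only [mul_assoc, mul_inv_rev, inv_inv, mul_inv_cancel_left, inv_mul_cancel_left, mul_inv_cancel, inv_mul_cancel, mul_one, one_mul, inv_one, C]) (by first | (simp only [mul_assoc, mul_inv_rev, inv_inv, mul_inv_cancel_left, inv_mul_cancel_left, mul_inv_cancel, inv_mul_cancel, mul_one, one_mul, inv_one]; done) | simp only [mul_assoc, mul_inv_rev, inv_inv, mul_inv_cancel_left, inv_mul_cancel_left, mul_inv_cancel, inv_mul_cancel, mul_one, one_mul, inv_one, C]),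
    o.cv hδ (1) (by simp only [hδ, δinv hδ, δone hδ, D] <;> linear_combination (0) * h3) (by first | (simp only [mul_assoc, mul_inv_rev, inv_inv, mul_inv_cancel_left, inv_mul_cancel_left, mul_inv_cancel, inv_mul_cancel, mul_one, one_mul, inv_one]; done) | simp only [mul_assoc, mul_inv_rev, inv_inv, mul_inv_cancel_left, inv_mul_cancel_left, mul_inv_cancel, inv_mul_cancel, mul_one, one_mul, inv_one, C]) (by first | (simp only [mul_assoc, mul_inv_rev, inv_inv, mul_inv_cancel_left, inv_mul_cancel_left, mul_inv_cancel, inv_mul_cancel, mul_one, one_mul, inv_one]; done) | simp only [mul_assoc, mul_inv_rev, inv_inv, mul_inv_cancel_left, inv_mul_cancel_left, mul_inv_cancel, inv_mul_cancel, mul_one, one_mul, inv_one, C]),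
    o.cv hδ (1) (by simp only [hδ, δinv hδ, δone hδ, D] <;> linear_combination (0) * h3) (by first | (simp only [mul_assoc, mul_inv_rev, inv_inv, mul_inv_cancel_left, inv_mul_cancel_left, mul_inv_cancel, inv_mul_cancel, mul_one, one_mul, inv_one]; done) | simp only [mul_assoc, mul_inv_rev, inv_inv, mul_inv_cancel_left, inv_mul_cancel_left, mul_inv_cancel, inv_mul_cancel, mul_one, one_mul, inv_one, C]) (by first | (simp only [mul_assoc, mul_inv_rev, inv_inv, mul_inv_cancel_left, inv_mul_cancel_left, mul_inv_cancel, inv_mul_cancel, mul_one, one_mul, inv_one]; done) | simp only [mul_assoc, mul_inv_rev, inv_inv, mul_inv_cancel_left, inv_mul_cancel_left, mul_inv_cancel, inv_mul_cancel, mul_one, one_mul, inv_one, C]),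
    o.cv hδ (P * f3⁻¹) (by simp only [hδ, δinv hδ, δone hδ, D] <;> linear_combination (0) * h3) (by first | (simp only [mul_assoc, mul_inv_rev, inv_inv, mul_inv_cancel_left, inv_mul_cancel_left, mul_inv_cancel, inv_mul_cancel, mul_one, one_mul, inv_one]; done) | simp only [mul_assoc, mul_inv_rev, inv_inv, mul_inv_cancel_left, inv_mul_cancel_left, mul_inv_cancel, inv_mul_cancel, mul_one, one_mul, inv_one, C]) (by first | (simp only [mul_assoc, mul_inv_rev, inv_inv, mul_inv_cancel_left, inv_mul_cancel_left, mul_inv_cancel, inv_mul_cancel, mul_one, one_mul, inv_one, C6, C8]; done) | simp only [mul_assoc, mul_inv_rev, inv_inv, mul_inv_cancel_left, inv_mul_cancel_left, mul_inv_cancel, inv_mul_cancel, mul_one, one_mul, inv_one, C]),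
    o.cv hδ (1) (by simp only [hδ, δinv hδ, δone hδ, D] <;> linear_combination (0) * h3) (by first | (simp only [mul_assoc, mul_inv_rev, inv_inv, mul_inv_cancel_left, inv_mul_cancel_left, mul_inv_cancel, inv_mul_cancel, mul_one, one_mul, inv_one]; done) | simp only [mul_assoc, mul_inv_rev, inv_inv, mul_inv_cancel_left, inv_mul_cancel_left, mul_inv_cancel, inv_mul_cancel, mul_one, one_mul, inv_one, C]) (by first | (simp only [mul_assoc, mul_inv_rev, inv_inv, mul_inv_cancel_left, inv_mul_cancel_left, mul_inv_cancel, inv_mul_cancel, mul_one, one_mul, inv_one]; done) | simp only [mul_assoc, mul_inv_rev, inv_inv, mul_inv_cancel_left, inv_mul_cancel_left, mul_inv_cancel, inv_mul_cancel, mul_one, one_mul, inv_one, C])⟩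

theorem close_AAAAA_k26 {G : Type*} [Group G] {δ : G → ZMod 3} (hδ : ∀ u v, δ (u * v) = δ u + δ v) (o : Pre δ)
    {P Q f0 f1 f2 f3 f4 : G} {e : ZMod 3} (h3 : 3 * e = 0)
    (D : δ P = e ∧ δ Q = -e ∧ δ f0 = 0 ∧ δ f1 = 0 ∧ δ f2 = 0 ∧ δ f3 = 0 ∧ δ f4 = 0)
    (C : Cube P f0 ∧ Cube P f1 ∧ Cube Q f0 ∧ Cube Q f1 ∧ Cube P f2 ∧ Cube Q f2 ∧ Cube P f3 ∧ Cube Q f3 ∧ Cube P f4 ∧ Cube Q f4) :
    (o.lt (P * f4⁻¹) (f3 * Q⁻¹) ↔ o.lt (P * (f4⁻¹ * (Q * f3⁻¹))) (1)) ∧
    (o.lt (P * (Q⁻¹ * (f4 * Q⁻¹))) (P * (f4⁻¹ * (Q * f0⁻¹))) ↔ o.lt (P * (f4⁻¹ * (Q * f4⁻¹))) (P * (f4⁻¹ * (Q * f0⁻¹)))) ∧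
    (o.lt (P * f4⁻¹) (f4 * Q⁻¹) ↔ o.lt (P * (f4⁻¹ * (Q * f4⁻¹))) (1)) ∧
    (o.lt (f0 * Q⁻¹) (P * f4⁻¹) ↔ o.lt (1) (P * (f4⁻¹ * (Q * f0⁻¹)))) ∧
    (o.lt (f4 * P⁻¹) (Q * f4⁻¹) ↔ o.lt (P * (f4⁻¹ * (P * Q⁻¹))) (1)) ∧
    (o.lt (f4 * (P⁻¹ * (f4 * f0⁻¹))) (P * (f4⁻¹ * (f0 * Q⁻¹))) ↔ o.lt (P * (f4⁻¹ * (P * Q⁻¹))) (P * (f4⁻¹ * (Q * f0⁻¹)))) ∧
    (o.lt (f0 * Q⁻¹) (f1 * Q⁻¹) ↔ o.lt (f0) (f1)) := by
  have C' := C
  obtain ⟨C0, C1, C2, C3, C4, C5, C6, C7, C8, C9⟩ := C'
  simp only [Cube] at C C0 C1 C2 C3 C4 C5 C6 C7 C8 C9
  exact ⟨o.cv hδ (Q * f3⁻¹) (by simp only [hδ, δinv hδ, δone hδ, D] <;> linear_combination (0) * h3) (by first | (simp only [mul_assoc, mul_inv_rev, inv_inv, mul_inv_cancel_left, inv_mul_cancel_left, mul_inv_cancel, inv_mul_cancel, mul_one, one_mul, inv_one]; done) | simp only [mul_assoc, mul_inv_rev, inv_inv, mul_inv_cancel_left, inv_mul_cancel_left, mul_inv_cancel, inv_mul_cancel, mul_one, one_mul, inv_one, C]) (by first | (simp only [mul_assoc, mul_inv_rev, inv_inv, mul_inv_cancel_left, inv_mul_cancel_left, mul_inv_cancel, inv_mul_cancel, mul_one, one_mul, inv_one]; done) | simp only [mul_assoc, mul_inv_rev, inv_inv, mul_inv_cancel_left,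 inv_mul_cancel_left, mul_inv_cancel, inv_mul_cancel, mul_one, one_mul, inv_one, C]),
    o.cv hδ (Q * (f4⁻¹ * (Q * (f4⁻¹ * (Q * f4⁻¹))))) (by simp only [hδ, δinv hδ, δone hδ, D] <;> linear_combination (1) * h3) (by first | (simp only [mul_assoc, mul_inv_rev, inv_inv, mul_inv_cancel_left, inv_mul_cancel_left, mul_inv_cancel, inv_mul_cancel, mul_one, one_mul, inv_one, C9]; done) | simp only [mul_assoc, mul_inv_rev, inv_inv, mul_inv_cancel_left, inv_mul_cancel_left, mul_inv_cancel, inv_mul_cancel, mul_one, one_mul, inv_one, C]) (by first | (simp only [mul_assoc, mul_inv_rev, inv_inv, mul_inv_cancel_left, inv_mul_cancel_left, mul_inv_cancel, inv_mul_cancel, mul_one, one_mul, inv_one, C2, C9]; done) | simp only [mul_assoc, mul_inv_rev, inv_inv, mul_inv_cancel_left, inv_mul_cancel_left, mul_inv_cancel, inv_mul_cancel, mul_one, one_mul, inv_one, C]),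
    o.cv hδ (Q * f4⁻¹) (by simp only [hδ, δinv hδ, δone hδ, D] <;> linear_combination (0) * h3) (by first | (simp only [mul_assoc, mul_inv_rev, inv_inv, mul_inv_cancel_left, inv_mul_cancel_left, mul_inv_cancel, inv_mul_cancel, mul_one, one_mul, inv_one, C9]; done) | simp only [mul_assoc, mul_inv_rev, inv_inv, mul_inv_cancel_left, inv_mul_cancel_left, mul_inv_cancel, inv_mul_cancel, mul_one, one_mul, inv_one, C]) (by first | (simp only [mul_assoc, mul_inv_rev, inv_inv, mul_inv_cancel_left, inv_mul_cancel_left, mul_inv_cancel, inv_mul_cancel, mul_one, one_mul, inv_one]; done) | simp only [mul_assoc, mul_inv_rev, inv_inv, mul_inv_cancel_left, inv_mul_cancel_left, mul_inv_cancel, inv_mul_cancel, mul_one, one_mul, inv_one, C]),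
    o.cv hδ (Q * f0⁻¹) (by simp only [hδ, δinv hδ, δone hδ, D] <;> linear_combination (0) * h3) (by first | (simp only [mul_assoc, mul_inv_rev, inv_inv, mul_inv_cancel_left, inv_mul_cancel_left, mul_inv_cancel, inv_mul_cancel, mul_one, one_mul, inv_one]; done) | simp only [mul_assoc, mul_inv_rev, inv_inv, mul_inv_cancel_left, inv_mul_cancel_left, mul_inv_cancel, inv_mul_cancel, mul_one, one_mul, inv_one, C]) (by first | (simp only [mul_assoc, mul_inv_rev, inv_inv, mul_inv_cancel_left, inv_mul_cancel_left, mul_inv_cancel, inv_mul_cancel, mul_one, one_mul, inv_one]; done) | simp only [mul_assoc, mul_inv_rev, inv_inv, mul_inv_cancel_left, inv_mul_cancel_left, mul_inv_cancel, inv_mul_cancel, mul_one, one_mul, inv_one, C]),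
    o.cv hδ (P * (f4⁻¹ * (P * (f4⁻¹ * (P * Q⁻¹))))) (by simp only [hδ, δinv hδ, δone hδ, D] <;> linear_combination (0) * h3) (by first | (simp only [mul_assoc, mul_inv_rev, inv_inv, mul_inv_cancel_left, inv_mul_cancel_left, mul_inv_cancel, inv_mul_cancel, mul_one, one_mul, inv_one, C8]; done) | simp only [mul_assoc, mul_inv_rev, inv_inv, mul_inv_cancel_left, inv_mul_cancel_left, mul_inv_cancel, inv_mul_cancel, mul_one, one_mul, inv_one, C]) (by first | (simp only [mul_assoc, mul_inv_rev, inv_inv, mul_inv_cancel_left, inv_mul_cancel_left, mul_inv_cancel, inv_mul_cancel, mul_one, one_mul, inv_one, C8]; done) | simp only [mul_assoc, mul_inv_rev, inv_inv, mul_inv_cancel_left, inv_mul_cancel_left, mul_inv_cancel, inv_mul_cancel, mul_one, one_mul, inv_one, C]),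
    o.cv hδ (f0 * (f4⁻¹ * (P * (f4⁻¹ * (P * (f4⁻¹ * (P * Q⁻¹))))))) (by simp only [hδ, δinv hδ, δone hδ, D] <;> linear_combination (-1) * h3) (by first | (simp only [mul_assoc, mul_inv_rev, inv_inv, mul_inv_cancel_left, inv_mul_cancel_left, mul_inv_cancel, inv_mul_cancel, mul_one, one_mul, inv_one, C8]; done) | simp only [mul_assoc, mul_inv_rev, inv_inv, mul_inv_cancel_left, inv_mul_cancel_left, mul_inv_cancel, inv_mul_cancel, mul_one, one_mul, inv_one, C]) (by first | (simp only [mul_assoc, mul_inv_rev, inv_inv, mul_inv_cancel_left, inv_mul_cancel_left, mul_inv_cancel, inv_mul_cancel, mul_one, one_mul, inv_one, C2, C8]; done) | simp only [mul_assoc, mul_inv_rev, inv_inv, mul_inv_cancel_left, inv_mul_cancel_left, mul_inv_cancel, inv_mul_cancel, mul_one, one_mul, inv_one, C]),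
    o.cv hδ (Q) (by simp only [hδ, δinv hδ, δone hδ, D] <;> linear_combination (0) * h3) (by first | (simp only [mul_assoc, mul_inv_rev, inv_inv, mul_inv_cancel_left, inv_mul_cancel_left, mul_inv_cancel, inv_mul_cancel, mul_one, one_mul, inv_one]; done) | simp only [mul_assoc, mul_inv_rev, inv_inv, mul_inv_cancel_left, inv_mul_cancel_left, mul_inv_cancel, inv_mul_cancel, mul_one, one_mul, inv_one, C]) (by first | (simp only [mul_assoc, mul_inv_rev, inv_inv, mul_inv_cancel_left, inv_mul_cancel_left, mul_inv_cancel, inv_mul_cancel, mul_one, one_mul, inv_one]; done) | simp only [mul_assoc, mul_inv_rev, inv_inv, mul_inv_cancel_left, inv_mul_cancel_left, mul_inv_cancel, inv_mul_cancel, mul_one, one_mul, inv_one, C])⟩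

theorem close_AAAAA {G : Type*} [Group G] {δ : G → ZMod 3} (hδ : ∀ u v, δ (u * v) = δ u + δ v) (o : Pre δ)
    {P Q f0 f1 f2 f3 f4 : G} {e : ZMod 3} (h3 : 3 * e = 0)
    (D : δ P = e ∧ δ Q = -e ∧ δ f0 = 0 ∧ δ f1 = 0 ∧ δ f2 = 0 ∧ δ f3 = 0 ∧ δ f4 = 0)
    (C : Cube P f0 ∧ Cube P f1 ∧ Cube Q f0 ∧ Cube Q f1 ∧ Cube P f2 ∧ Cube Q f2 ∧ Cube P f3 ∧ Cube Q f3 ∧ Cube P f4 ∧ Cube Q f4)
    (N0 : RA o P Q f0 f1)
    (N1 : RA o P Q f1 f2)
    (N2 : RA o P Q f2 f3)
    (N3 : RA o P Q f3 f4)
    (N4 : RA o P Q f4 f0)
    (g0 : o.lt f0 f1) : False := by
  obtain ⟨k0, k1, k2, k3, k4, k5, k6, k7, k8, k9, k10, k11, k12, k13, k14, k15, k16, k17, k18, k19⟩ := close_AAAAA_k0 hδ o h3 D C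
  obtain ⟨k20, k21, k22, k23, k24, k25, k26, k27, k28, k29, k30, k31, k32, k33, k34, k35, k36, k37, k38, k39⟩ := close_AAAAA_k1 hδ o h3 D C
  obtain ⟨k40, k41, k42, k43, k44, k45, k46, k47, k48, k49, k50, k51, k52, k53, k54, k55, k56, k57, k58, k59⟩ := close_AAAAA_k2 hδ o h3 D C
  obtain ⟨k60, k61, k62, k63, k64, k65, k66, k67, k68, k69, k70, k71, k72, k73, k74, k75, k76, k77, k78, k79⟩ := close_AAAAA_k3 hδ o h3 D C
  obtain ⟨k80, k81, k82, k83, k84, k85, k86, k87, k88, k89, k90, k91, k92, k93, k94, k95, k96, k97, k98, k99⟩ := close_AAAAA_k4 hδ o h3 D C
  obtain ⟨k100, k101, k102, k103, k104, k105, k106, k107, k108, k109, k110, k111, k112, k113, k114, k115, k116, k117, k118, k119⟩ := close_AAAAA_k5 hδ o h3 D C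
  obtain ⟨k120, k121, k122, k123, k124, k125, k126, k127, k128, k129, k130, k131, k132, k133, k134, k135, k136, k137, k138, k139⟩ := close_AAAAA_k6 hδ o h3 D C
  obtain ⟨k140, k141, k142, k143, k144, k145, k146, k147, k148, k149, k150, k151, k152, k153, k154, k155, k156, k157, k158, k159⟩ := close_AAAAA_k7 hδ o h3 D C
  obtain ⟨k160, k161, k162, k163, k164, k165, k166, k167, k168, k169, k170, k171, k172, k173, k174, k175, k176, k177, k178, k179⟩ := close_AAAAA_k8 hδ o h3 D C
  obtain ⟨k180, k181, k182, k183, k184, k185, k186, k187, k188, k189, k190, k191, k192, k193, k194, k195, k196, k197, k198, k199⟩ := close_AAAAA_k9 hδ o h3 D C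
  obtain ⟨k200, k201, k202, k203, k204, k205, k206, k207, k208, k209, k210, k211, k212, k213, k214, k215, k216, k217, k218, k219⟩ := close_AAAAA_k10 hδ o h3 D C
  obtain ⟨k220, k221, k222, k223, k224, k225, k226, k227, k228, k229, k230, k231, k232, k233, k234, k235, k236, k237, k238, k239⟩ := close_AAAAA_k11 hδ o h3 D C
  obtain ⟨k240, k241, k242, k243, k244, k245, k246, k247, k248, k249, k250, k251, k252, k253, k254, k255, k256, k257, k258, k259⟩ := close_AAAAA_k12 hδ o h3 D C
  obtain ⟨k260, k261, k262, k263, k264, k265, k266, k267, k268, k269, k270, k271, k272, k273, k274, k275, k276, k277, k278, k279⟩ := close_AAAAA_k13 hδ o h3 D C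
  obtain ⟨k280, k281, k282, k283, k284, k285, k286, k287, k288, k289, k290, k291, k292, k293, k294, k295, k296, k297, k298, k299⟩ := close_AAAAA_k14 hδ o h3 D C
  obtain ⟨k300, k301, k302, k303, k304, k305, k306, k307, k308, k309, k310, k311, k312, k313, k314, k315, k316, k317, k318, k319⟩ := close_AAAAA_k15 hδ o h3 D C
  obtain ⟨k320, k321, k322, k323, k324, k325, k326, k327, k328, k329, k330, k331, k332, k333, k334, k335, k336, k337, k338, k339⟩ := close_AAAAA_k16 hδ o h3 D C
  obtain ⟨k340, k341, k342, k343, k344, k345, k346, k347, k348, k349, k350, k351, k352, k353, k354, k355, k356, k357, k358, k359⟩ := close_AAAAA_k17 hδ o h3 D C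
  obtain ⟨k360, k361, k362, k363, k364, k365, k366, k367, k368, k369, k370, k371, k372, k373, k374, k375, k376, k377, k378, k379⟩ := close_AAAAA_k18 hδ o h3 D C
  obtain ⟨k380, k381, k382, k383, k384, k385, k386, k387, k388, k389, k390, k391, k392, k393, k394, k395, k396, k397, k398, k399⟩ := close_AAAAA_k19 hδ o h3 D C
  obtain ⟨k400, k401, k402, k403, k404, k405, k406, k407, k408, k409, k410, k411, k412, k413, k414, k415, k416, k417, k418, k419⟩ := close_AAAAA_k20 hδ o h3 D C
  obtain ⟨k420, k421, k422, k423, k424, k425, k426, k427, k428, k429, k430, k431, k432, k433, k434, k435, k436, k437, k438, k439⟩ := close_AAAAA_k21 hδ o h3 D C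
  obtain ⟨k440, k441, k442, k443, k444, k445, k446, k447, k448, k449, k450, k451, k452, k453, k454, k455, k456, k457, k458, k459⟩ := close_AAAAA_k22 hδ o h3 D C
  obtain ⟨k460, k461, k462, k463, k464, k465, k466, k467, k468, k469, k470, k471, k472, k473, k474, k475, k476, k477, k478, k479⟩ := close_AAAAA_k23 hδ o h3 D C
  obtain ⟨k480, k481, k482, k483, k484, k485, k486, k487, k488, k489, k490, k491, k492, k493, k494, k495, k496, k497, k498, k499⟩ := close_AAAAA_k24 hδ o h3 D C
  obtain ⟨k500, k501, k502, k503, k504, k505, k506, k507, k508, k509, k510, k511, k512, k513, k514, k515, k516, k517, k518, k519⟩ := close_AAAAA_k25 hδ o h3 D C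
  obtain ⟨k520, k521, k522, k523, k524, k525, k526⟩ := close_AAAAA_k26 hδ o h3 D C
  exact close_AAAAA_prop
    (fun b0 b1 b2 => N0.rd.r0 1 (fun h => b0 (k0.2 h)) (k1.1 b1) (fun h => b2 (k2.2 h)))
    (fun b0 b1 b2 => N0.i.r0 1 (fun h => b0 (k3.2 h)) (k4.1 b1) (fun h => b2 (k5.2 h)))
    (fun b0 b1 b2 => N0.d.r0 1 (fun h => b0 (k6.2 h)) (k7.1 b1) (fun h => b2 (k8.2 h)))
    (fun b0 b1 b2 => N0.i.r1 1 (fun h => b0 (k9.2 h)) (fun h => b1 (k7.2 h)) (k5.1 b2))
    (fun b0 b1 b2 => N1.r.r1 1 (fun h => b0 (k10.2 h)) (fun h => b1 (k11.2 h)) (k12.1 b2))
    (fun b0 b1 b2 => N1.rd.r0 1 (fun h => b0 (k13.2 h)) (k11.1 b1) (fun h => b2 (k14.2 h)))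
    (fun b0 b1 b2 => N1.i.r0 1 (fun h => b0 (k15.2 h)) (k16.1 b1) (fun h => b2 (k17.2 h)))
    (fun b0 b1 b2 => N1.d.r0 1 (fun h => b0 (k18.2 h)) (k19.1 b1) (fun h => b2 (k20.2 h)))
    (fun b0 b1 b2 => N1.i.r1 1 (fun h => b0 (k21.2 h)) (fun h => b1 (k19.2 h)) (k17.1 b2))
    (fun b0 b1 b2 => N1.d.r1 1 (fun h => b0 (k22.2 h)) (fun h => b1 (k16.2 h)) (k20.1 b2))
    (fun b0 b1 b2 => N2.rd.r1 1 (fun h => b0 (k23.2 h)) (fun h => b1 (k24.2 h)) (k25.1 b2))
    (fun b0 b1 b2 => N2.r.r0 1 (fun h => b0 (k26.2 h)) (k24.1 b1) (fun h => b2 (k27.2 h)))
    (fun b0 b1 b2 => N2.r.r1 1 (fun h => b0 (k28.2 h)) (fun h => b1 (k29.2 h)) (k27.1 b2))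
    (fun b0 b1 b2 => N2.rd.r0 1 (fun h => b0 (k30.2 h)) (k29.1 b1) (fun h => b2 (k25.2 h)))
    (fun b0 b1 b2 => N2.i.r0 1 (fun h => b0 (k31.2 h)) (k32.1 b1) (fun h => b2 (k33.2 h)))
    (fun b0 b1 b2 => N2.d.r0 1 (fun h => b0 (k34.2 h)) (k35.1 b1) (fun h => b2 (k36.2 h)))
    (fun b0 b1 b2 => N2.i.r1 1 (fun h => b0 (k37.2 h)) (fun h => b1 (k35.2 h)) (k33.1 b2))
    (fun b0 b1 b2 => N2.d.r1 1 (fun h => b0 (k38.2 h)) (fun h => b1 (k32.2 h)) (k36.1 b2))
    (fun b0 b1 b2 => N3.rd.r1 1 (fun h => b0 (k39.2 h)) (fun h => b1 (k40.2 h)) (k41.1 b2))
    (fun b0 b1 b2 => N3.r.r0 1 (fun h => b0 (k42.2 h)) (k40.1 b1) (fun h => b2 (k43.2 h)))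
    (fun b0 b1 b2 => N3.i.r0 1 (fun h => b0 (k44.2 h)) (k45.1 b1) (fun h => b2 (k46.2 h)))
    (fun b0 b1 b2 => N3.d.r0 1 (fun h => b0 (k47.2 h)) (k48.1 b1) (fun h => b2 (k49.2 h)))
    (fun b0 b1 b2 => N3.d.r1 1 (fun h => b0 (k50.2 h)) (fun h => b1 (k45.2 h)) (k49.1 b2))
    (fun b0 b1 b2 => N4.rd.r1 1 (fun h => b0 (k51.2 h)) (fun h => b1 (k52.2 h)) (k53.1 b2))
    (fun b0 b1 b2 => N4.r.r0 1 (fun h => b0 (k54.2 h)) (k52.1 b1) (fun h => b2 (k55.2 h)))
    (fun b0 b1 b2 => N4.i.r0 1 (fun h => b0 (k56.2 h)) (k57.1 b1) (fun h => b2 (k58.2 h)))
    (fun b0 b1 b2 => N4.d.r0 1 (fun h => b0 (k59.2 h)) (k60.1 b1) (fun h => b2 (k61.2 h)))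
    (fun b0 b1 b2 => N4.d.r1 1 (fun h => b0 (k62.2 h)) (fun h => b1 (k57.2 h)) (k61.1 b2))
    (fun b0 b1 b2 => N0.rd.r1 (P * f0⁻¹) (fun h => b0 (k63.2 h)) (fun h => b1 (k64.2 h)) (k65.1 b2))
    (fun b0 b1 b2 => N0.i.r0 (P * f0⁻¹) (fun h => b0 (k66.2 h)) (k67.1 b1) (fun h => b2 (k68.2 h)))
    (fun b0 b1 b2 => N0.i.r1 (P * f0⁻¹) (fun h => b0 (k69.2 h)) (fun h => b1 (k70.2 h)) (k68.1 b2))
    (fun b0 b1 b2 => N1.rd.r1 (P * f0⁻¹) (fun h => b0 (k71.2 h)) (fun h => b1 (k72.2 h)) (k73.1 b2))
    (fun b0 b1 b2 => N1.r.r0 (P * f0⁻¹) (fun h => b0 (k74.2 h)) (k72.1 b1) (fun h => b2 (k75.2 h)))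
    (fun b0 b1 b2 => N2.i.r0 (P * f0⁻¹) (fun h => b0 (k76.2 h)) (k77.1 b1) (fun h => b2 (k78.2 h)))
    (fun b0 b1 b2 => N3.r.r1 (P * f0⁻¹) (fun h => b0 (k79.2 h)) (fun h => b1 (k80.2 h)) (k81.1 b2))
    (fun b0 b1 b2 => N3.rd.r0 (P * f0⁻¹) (fun h => b0 (k82.2 h)) (k80.1 b1) (fun h => b2 (k83.2 h)))
    (fun b0 b1 b2 => N4.d.r0 (P * f0⁻¹) (fun h => b0 (k84.2 h)) (k85.1 b1) (fun h => b2 (k86.2 h)))
    (fun b0 b1 b2 => N1.i.r0 (f2 * P⁻¹) (fun h => b0 (k87.2 h)) (k88.1 b1) (fun h => b2 (k89.2 h)))
    (fun b0 b1 b2 => N1.d.r1 (f2 * P⁻¹) (fun h => b0 (k90.2 h)) (fun h => b1 (k88.2 h)) (k91.1 b2))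
    (fun b0 b1 b2 => N0.i.r0 (f2 * Q⁻¹) (fun h => b0 (k92.2 h)) (k93.1 b1) (fun h => b2 (k94.2 h)))
    (fun b0 b1 b2 => N2.r.r1 (f2 * Q⁻¹) (fun h => b0 (k95.2 h)) (fun h => b1 (k96.2 h)) (k97.1 b2))
    (fun b0 b1 b2 => N2.rd.r0 (f2 * Q⁻¹) (fun h => b0 (k98.2 h)) (k96.1 b1) (fun h => b2 (k99.2 h)))
    (fun b0 b1 b2 => N3.d.r0 (f2 * Q⁻¹) (fun h => b0 (k100.2 h)) (k101.1 b1) (fun h => b2 (k102.2 h)))
    (fun b0 b1 b2 => N4.rd.r1 (f2 * Q⁻¹) (fun h => b0 (k103.2 h)) (fun h => b1 (k104.2 h)) (k105.1 b2))
    (fun b0 b1 b2 => N4.r.r0 (f2 * Q⁻¹) (fun h => b0 (k106.2 h)) (k104.1 b1) (fun h => b2 (k107.2 h)))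
    (fun b0 b1 b2 => N0.d.r0 (P * f3⁻¹) (fun h => b0 (k108.2 h)) (k109.1 b1) (fun h => b2 (k110.2 h)))
    (fun b0 b1 b2 => N1.rd.r1 (P * f3⁻¹) (fun h => b0 (k111.2 h)) (fun h => b1 (k112.2 h)) (k113.1 b2))
    (fun b0 b1 b2 => N1.r.r0 (P * f3⁻¹) (fun h => b0 (k114.2 h)) (k112.1 b1) (fun h => b2 (k115.2 h)))
    (fun b0 b1 b2 => N2.i.r0 (P * f3⁻¹) (fun h => b0 (k116.2 h)) (k117.1 b1) (fun h => b2 (k118.2 h)))
    (fun b0 b1 b2 => N3.d.r0 (P * f3⁻¹) (fun h => b0 (k119.2 h)) (k120.1 b1) (fun h => b2 (k121.2 h)))
    (fun b0 b1 b2 => N3.d.r1 (P * f3⁻¹) (fun h => b0 (k122.2 h)) (fun h => b1 (k123.2 h)) (k121.1 b2))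
    (fun b0 b1 b2 => N4.r.r1 (P * f3⁻¹) (fun h => b0 (k124.2 h)) (fun h => b1 (k125.2 h)) (k126.1 b2))
    (fun b0 b1 b2 => N4.rd.r0 (P * f3⁻¹) (fun h => b0 (k127.2 h)) (k125.1 b1) (fun h => b2 (k128.2 h)))
    (fun b0 b1 b2 => N0.d.r0 (f3 * P⁻¹) (fun h => b0 (k129.2 h)) (k130.1 b1) (fun h => b2 (k131.2 h)))
    (fun b0 b1 b2 => N0.d.r1 (f3 * P⁻¹) (fun h => b0 (k132.2 h)) (fun h => b1 (k133.2 h)) (k131.1 b2))
    (fun b0 b1 b2 => N1.r.r0 (f3 * P⁻¹) (fun h => b0 (k134.2 h)) (k135.1 b1) (fun h => b2 (k136.2 h)))
    (fun b0 b1 b2 => N2.i.r0 (f3 * P⁻¹) (fun h => b0 (k137.2 h)) (k138.1 b1) (fun h => b2 (k139.2 h)))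
    (fun b0 b1 b2 => N2.d.r1 (f3 * P⁻¹) (fun h => b0 (k140.2 h)) (fun h => b1 (k138.2 h)) (k141.1 b2))
    (fun b0 b1 b2 => N0.rd.r1 (f3 * Q⁻¹) (fun h => b0 (k142.2 h)) (fun h => b1 (k143.2 h)) (k144.1 b2))
    (fun b0 b1 b2 => N0.r.r0 (f3 * Q⁻¹) (fun h => b0 (k145.2 h)) (k143.1 b1) (fun h => b2 (k146.2 h)))
    (fun b0 b1 b2 => N3.r.r1 (f3 * Q⁻¹) (fun h => b0 (k147.2 h)) (fun h => b1 (k148.2 h)) (k149.1 b2))
    (fun b0 b1 b2 => N3.rd.r0 (f3 * Q⁻¹) (fun h => b0 (k150.2 h)) (k148.1 b1) (fun h => b2 (k151.2 h)))
    (fun b0 b1 b2 => N4.d.r0 (f3 * Q⁻¹) (fun h => b0 (k152.2 h)) (k153.1 b1) (fun h => b2 (k154.2 h)))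
    (fun b0 b1 b2 => N0.rd.r1 (P * f4⁻¹) (fun h => b0 (k155.2 h)) (fun h => b1 (k156.2 h)) (k157.1 b2))
    (fun b0 b1 b2 => N0.r.r0 (P * f4⁻¹) (fun h => b0 (k158.2 h)) (k156.1 b1) (fun h => b2 (k159.2 h)))
    (fun b0 b1 b2 => N1.i.r0 (P * f4⁻¹) (fun h => b0 (k160.2 h)) (k161.1 b1) (fun h => b2 (k162.2 h)))
    (fun b0 b1 b2 => N2.r.r1 (P * f4⁻¹) (fun h => b0 (k163.2 h)) (fun h => b1 (k164.2 h)) (k165.1 b2))
    (fun b0 b1 b2 => N2.rd.r0 (P * f4⁻¹) (fun h => b0 (k166.2 h)) (k164.1 b1) (fun h => b2 (k167.2 h)))
    (fun b0 b1 b2 => N3.i.r0 (P * f4⁻¹) (fun h => b0 (k168.2 h)) (k169.1 b1) (fun h => b2 (k170.2 h)))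
    (fun b0 b1 b2 => N3.d.r0 (P * f4⁻¹) (fun h => b0 (k171.2 h)) (k172.1 b1) (fun h => b2 (k173.2 h)))
    (fun b0 b1 b2 => N4.rd.r1 (P * f4⁻¹) (fun h => b0 (k174.2 h)) (fun h => b1 (k175.2 h)) (k176.1 b2))
    (fun b0 b1 b2 => N4.r.r0 (P * f4⁻¹) (fun h => b0 (k177.2 h)) (k175.1 b1) (fun h => b2 (k178.2 h)))
    (fun b0 b1 => o.asym (k179.1 b0) (k180.1 b1))
    (fun b0 b1 b2 => o.tri (k179.1 b0) (fun h => b1 (k181.2 h)) (fun h => b2 (k182.2 h)))
    (fun b0 b1 => o.asym (k183.1 b0) (k184.1 b1))
    (fun b0 b1 => o.asym (k181.1 b0) (k185.1 b1))
    (fun b0 b1 b2 => o.tri (k186.1 b0) (fun h => b1 (k179.2 h)) (fun h => b2 (k187.2 h)))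
    (fun b0 b1 b2 => o.tri (k188.1 b0) (fun h => b1 (k189.2 h)) (fun h => b2 (k190.2 h)))
    (fun b0 b1 b2 => o.tri (k191.1 b0) (fun h => b1 (k181.2 h)) (fun h => b2 (k192.2 h)))
    (fun b0 b1 => o.asym (k193.1 b0) (k194.1 b1))
    (fun b0 b1 b2 => o.tri (k193.1 b0) (fun h => b1 (k195.2 h)) (fun h => b2 (k196.2 h)))
    (fun b0 b1 b2 => o.tri (k189.1 b0) (fun h => b1 (k181.2 h)) (fun h => b2 (k197.2 h)))
    (fun b0 b1 => o.asym (k195.1 b0) (k198.1 b1))
    (fun b0 b1 b2 => o.tri (k195.1 b0) (fun h => b1 (k179.2 h)) (fun h => b2 (k199.2 h)))
    (fun b0 b1 b2 => o.tri (k180.1 b0) (fun h => b1 (k200.2 h)) (fun h => b2 (k185.2 h)))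
    (fun b0 b1 b2 => o.tri (k180.1 b0) (fun h => b1 (k199.2 h)) (fun h => b2 (k198.2 h)))
    (fun b0 b1 => o.asym (k200.1 b0) (k182.1 b1))
    (fun b0 b1 b2 => o.tri (k200.1 b0) (fun h => b1 (k180.2 h)) (fun h => b2 (k181.2 h)))
    (fun b0 b1 => o.asym (k187.1 b0) (k201.1 b1))
    (fun b0 b1 b2 => o.tri (k187.1 b0) (fun h => b1 (k199.2 h)) (fun h => b2 (k202.2 h)))
    (fun b0 b1 => o.asym (k203.1 b0) (k204.1 b1))
    (fun b0 b1 => o.asym (k205.1 b0) (k206.1 b1))
    (fun b0 b1 b2 => o.tri (k205.1 b0) (fun h => b1 (k203.2 h)) (fun h => b2 (k207.2 h)))
    (fun b0 b1 b2 => o.tri (k208.1 b0) (fun h => b1 (k199.2 h)) (fun h => b2 (k196.2 h)))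
    (fun b0 b1 => o.asym (k199.1 b0) (k209.1 b1))
    (fun b0 b1 b2 => o.tri (k184.1 b0) (fun h => b1 (k210.2 h)) (fun h => b2 (k194.2 h)))
    (fun b0 b1 => o.asym (k211.1 b0) (k212.1 b1))
    (fun b0 b1 b2 => o.tri (k211.1 b0) (fun h => b1 (k184.2 h)) (fun h => b2 (k181.2 h)))
    (fun b0 b1 => o.asym (k213.1 b0) (k214.1 b1))
    (fun b0 b1 => o.asym (k210.1 b0) (k215.1 b1))
    (fun b0 b1 => o.asym (k216.1 b0) (k217.1 b1))
    (fun b0 b1 b2 => o.tri (k218.1 b0) (fun h => b1 (k182.2 h)) (fun h => b2 (k203.2 h)))
    (fun b0 b1 b2 => o.tri (k218.1 b0) (fun h => b1 (k212.2 h)) (fun h => b2 (k213.2 h)))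
    (fun b0 b1 b2 => o.tri (k219.1 b0) (fun h => b1 (k182.2 h)) (fun h => b2 (k208.2 h)))
    (fun b0 b1 b2 => o.tri (k220.1 b0) (fun h => b1 (k221.2 h)) (fun h => b2 (k198.2 h)))
    (fun b0 b1 b2 => o.tri (k201.1 b0) (fun h => b1 (k222.2 h)) (fun h => b2 (k204.2 h)))
    (fun b0 b1 => o.asym (k222.1 b0) (k223.1 b1))
    (fun b0 b1 b2 => o.tri (k224.1 b0) (fun h => b1 (k201.2 h)) (fun h => b2 (k205.2 h)))
    (fun b0 b1 b2 => o.tri (k224.1 b0) (fun h => b1 (k225.2 h)) (fun h => b2 (k226.2 h)))
    (fun b0 b1 b2 => o.tri (k224.1 b0) (fun h => b1 (k227.2 h)) (fun h => b2 (k190.2 h)))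
    (fun b0 b1 b2 => o.tri (k224.1 b0) (fun h => b1 (k221.2 h)) (fun h => b2 (k228.2 h)))
    (fun b0 b1 => o.asym (k225.1 b0) (k229.1 b1))
    (fun b0 b1 b2 => o.tri (k227.1 b0) (fun h => b1 (k222.2 h)) (fun h => b2 (k230.2 h)))
    (fun b0 b1 => o.asym (k221.1 b0) (k202.1 b1))
    (fun b0 b1 b2 => o.tri (k221.1 b0) (fun h => b1 (k201.2 h)) (fun h => b2 (k199.2 h)))
    (fun b0 b1 b2 => o.tri (k231.1 b0) (fun h => b1 (k223.2 h)) (fun h => b2 (k220.2 h)))
    (fun b0 b1 b2 => o.tri (k214.1 b0) (fun h => b1 (k232.2 h)) (fun h => b2 (k233.2 h)))
    (fun b0 b1 b2 => o.tri (k234.1 b0) (fun h => b1 (k204.2 h)) (fun h => b2 (k200.2 h)))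
    (fun b0 b1 b2 => o.tri (k223.1 b0) (fun h => b1 (k204.2 h)) (fun h => b2 (k187.2 h)))
    (fun b0 b1 b2 => o.tri (k207.1 b0) (fun h => b1 (k230.2 h)) (fun h => b2 (k190.2 h)))
    (fun b0 b1 b2 => o.tri (k207.1 b0) (fun h => b1 (k232.2 h)) (fun h => b2 (k228.2 h)))
    (fun b0 b1 => o.asym (k235.1 b0) (k236.1 b1))
    (fun b0 b1 b2 => o.tri (k235.1 b0) (fun h => b1 (k223.2 h)) (fun h => b2 (k225.2 h)))
    (fun b0 b1 b2 => o.tri (k237.1 b0) (fun h => b1 (k204.2 h)) (fun h => b2 (k208.2 h)))
    (fun b0 b1 b2 => o.tri (k230.1 b0) (fun h => b1 (k207.2 h)) (fun h => b2 (k238.2 h)))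
    (fun b0 b1 b2 => o.tri (k232.1 b0) (fun h => b1 (k204.2 h)) (fun h => b2 (k199.2 h)))
    (fun b0 b1 b2 => o.tri (k239.1 b0) (fun h => b1 (k206.2 h)) (fun h => b2 (k180.2 h)))
    (fun b0 b1 b2 => o.tri (k240.1 b0) (fun h => b1 (k241.2 h)) (fun h => b2 (k242.2 h)))
    (fun b0 b1 b2 => o.tri (k240.1 b0) (fun h => b1 (k243.2 h)) (fun h => b2 (k233.2 h)))
    (fun b0 b1 b2 => o.tri (k244.1 b0) (fun h => b1 (k243.2 h)) (fun h => b2 (k245.2 h)))
    (fun b0 b1 b2 => o.tri (k246.1 b0) (fun h => b1 (k247.2 h)) (fun h => b2 (k248.2 h)))
    (fun b0 b1 b2 => o.tri (k249.1 b0) (fun h => b1 (k238.2 h)) (fun h => b2 (k250.2 h)))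
    (fun b0 b1 => o.asym (k241.1 b0) (k226.1 b1))
    (fun b0 b1 => o.asym (k247.1 b0) (k251.1 b1))
    (fun b0 b1 b2 => o.tri (k238.1 b0) (fun h => b1 (k240.2 h)) (fun h => b2 (k216.2 h)))
    (fun b0 b1 => o.asym (k243.1 b0) (k228.1 b1))
    (fun b0 b1 b2 => o.tri (k243.1 b0) (fun h => b1 (k249.2 h)) (fun h => b2 (k232.2 h)))
    (fun b0 b1 b2 => o.tri (k252.1 b0) (fun h => b1 (k229.2 h)) (fun h => b2 (k220.2 h)))
    (fun b0 b1 b2 => o.tri (k242.1 b0) (fun h => b1 (k236.2 h)) (fun h => b2 (k214.2 h)))
    (fun b0 b1 b2 => o.tri (k242.1 b0) (fun h => b1 (k253.2 h)) (fun h => b2 (k215.2 h)))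
    (fun b0 b1 b2 => o.tri (k254.1 b0) (fun h => b1 (k255.2 h)) (fun h => b2 (k245.2 h)))
    (fun b0 b1 b2 => o.tri (k236.1 b0) (fun h => b1 (k229.2 h)) (fun h => b2 (k222.2 h)))
    (fun b0 b1 b2 => o.tri (k253.1 b0) (fun h => b1 (k255.2 h)) (fun h => b2 (k196.2 h)))
    (fun b0 b1 => o.asym (k256.1 b0) (k257.1 b1))
    (fun b0 b1 b2 => o.tri (k256.1 b0) (fun h => b1 (k242.2 h)) (fun h => b2 (k216.2 h)))
    (fun b0 b1 b2 => o.tri (k256.1 b0) (fun h => b1 (k226.2 h)) (fun h => b2 (k238.2 h)))
    (fun b0 b1 b2 => o.tri (k256.1 b0) (fun h => b1 (k255.2 h)) (fun h => b2 (k258.2 h)))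
    (fun b0 b1 b2 => o.tri (k255.1 b0) (fun h => b1 (k229.2 h)) (fun h => b2 (k221.2 h)))
    (fun b0 b1 b2 => o.tri (k194.1 b0) (fun h => b1 (k215.2 h)) (fun h => b2 (k184.2 h)))
    (fun b0 b1 b2 => o.tri (k194.1 b0) (fun h => b1 (k251.2 h)) (fun h => b2 (k239.2 h)))
    (fun b0 b1 b2 => o.tri (k194.1 b0) (fun h => b1 (k259.2 h)) (fun h => b2 (k198.2 h)))
    (fun b0 b1 b2 => o.tri (k248.1 b0) (fun h => b1 (k194.2 h)) (fun h => b2 (k186.2 h)))
    (fun b0 b1 b2 => o.tri (k248.1 b0) (fun h => b1 (k260.2 h)) (fun h => b2 (k229.2 h)))
    (fun b0 b1 b2 => o.tri (k261.1 b0) (fun h => b1 (k215.2 h)) (fun h => b2 (k213.2 h)))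
    (fun b0 b1 b2 => o.tri (k251.1 b0) (fun h => b1 (k262.2 h)) (fun h => b2 (k190.2 h)))
    (fun b0 b1 b2 => o.tri (k251.1 b0) (fun h => b1 (k259.2 h)) (fun h => b2 (k228.2 h)))
    (fun b0 b1 b2 => o.tri (k260.1 b0) (fun h => b1 (k215.2 h)) (fun h => b2 (k263.2 h)))
    (fun b0 b1 => o.asym (k262.1 b0) (k264.1 b1))
    (fun b0 b1 b2 => o.tri (k262.1 b0) (fun h => b1 (k251.2 h)) (fun h => b2 (k238.2 h)))
    (fun b0 b1 => o.asym (k259.1 b0) (k196.1 b1))
    (fun b0 b1 b2 => o.tri (k259.1 b0) (fun h => b1 (k251.2 h)) (fun h => b2 (k243.2 h)))
    (fun b0 b1 b2 => o.tri (k217.1 b0) (fun h => b1 (k264.2 h)) (fun h => b2 (k215.2 h)))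
    (fun b0 b1 b2 => o.tri (k257.1 b0) (fun h => b1 (k190.2 h)) (fun h => b2 (k241.2 h)))
    (fun b0 b1 b2 => o.tri (k198.1 b0) (fun h => b1 (k209.2 h)) (fun h => b2 (k180.2 h)))
    (fun b0 b1 b2 => o.tri (k209.1 b0) (fun h => b1 (k265.2 h)) (fun h => b2 (k204.2 h)))
    (fun b0 b1 b2 => o.tri (k233.1 b0) (fun h => b1 (k198.2 h)) (fun h => b2 (k183.2 h)))
    (fun b0 b1 b2 => o.tri (k233.1 b0) (fun h => b1 (k196.2 h)) (fun h => b2 (k215.2 h)))
    (fun b0 b1 b2 => o.tri (k245.1 b0) (fun h => b1 (k198.2 h)) (fun h => b2 (k181.2 h)))
    (fun b0 b1 b2 => o.tri (k202.1 b0) (fun h => b1 (k266.2 h)) (fun h => b2 (k229.2 h)))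
    (fun b0 b1 b2 => o.tri (k228.1 b0) (fun h => b1 (k196.2 h)) (fun h => b2 (k251.2 h)))
    (fun b0 b1 b2 => o.tri (k266.1 b0) (fun h => b1 (k198.2 h)) (fun h => b2 (k191.2 h)))
    (fun b0 b1 b2 => o.tri (k266.1 b0) (fun h => b1 (k228.2 h)) (fun h => b2 (k241.2 h)))
    (fun b0 b1 b2 => o.tri (k258.1 b0) (fun h => b1 (k245.2 h)) (fun h => b2 (k197.2 h)))
    (fun b0 b1 b2 => o.tri (k267.1 b0) (fun h => b1 (k268.2 h)) (fun h => b2 (k269.2 h)))
    (fun b0 b1 b2 => o.tri (k270.1 b0) (fun h => b1 (k271.2 h)) (fun h => b2 (k272.2 h)))
    (fun b0 b1 b2 => o.tri (k273.1 b0) (fun h => b1 (k274.2 h)) (fun h => b2 (k275.2 h)))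
    (fun b0 b1 b2 => o.tri (k271.1 b0) (fun h => b1 (k276.2 h)) (fun h => b2 (k277.2 h)))
    (fun b0 b1 => o.asym (k276.1 b0) (k278.1 b1))
    (fun b0 b1 b2 => o.tri (k279.1 b0) (fun h => b1 (k280.2 h)) (fun h => b2 (k281.2 h)))
    (fun b0 b1 b2 => o.tri (k282.1 b0) (fun h => b1 (k283.2 h)) (fun h => b2 (k284.2 h)))
    (fun b0 b1 b2 => o.tri (k285.1 b0) (fun h => b1 (k283.2 h)) (fun h => b2 (k286.2 h)))
    (fun b0 b1 b2 => o.tri (k283.1 b0) (fun h => b1 (k280.2 h)) (fun h => b2 (k287.2 h)))
    (fun b0 b1 b2 => o.tri (k288.1 b0) (fun h => b1 (k275.2 h)) (fun h => b2 (k289.2 h)))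
    (fun b0 b1 b2 => o.tri (k290.1 b0) (fun h => b1 (k291.2 h)) (fun h => b2 (k292.2 h)))
    (fun b0 b1 b2 => o.tri (k293.1 b0) (fun h => b1 (k294.2 h)) (fun h => b2 (k295.2 h)))
    (fun b0 b1 b2 => o.tri (k296.1 b0) (fun h => b1 (k294.2 h)) (fun h => b2 (k297.2 h)))
    (fun b0 b1 b2 => o.tri (k298.1 b0) (fun h => b1 (k287.2 h)) (fun h => b2 (k299.2 h)))
    (fun b0 b1 b2 => o.tri (k300.1 b0) (fun h => b1 (k287.2 h)) (fun h => b2 (k301.2 h)))
    (fun b0 b1 b2 => o.tri (k302.1 b0) (fun h => b1 (k303.2 h)) (fun h => b2 (k274.2 h)))
    (fun b0 b1 b2 => o.tri (k304.1 b0) (fun h => b1 (k305.2 h)) (fun h => b2 (k306.2 h)))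
    (fun b0 b1 b2 => o.tri (k307.1 b0) (fun h => b1 (k308.2 h)) (fun h => b2 (k283.2 h)))
    (fun b0 b1 b2 => o.tri (k309.1 b0) (fun h => b1 (k306.2 h)) (fun h => b2 (k310.2 h)))
    (fun b0 b1 b2 => o.tri (k309.1 b0) (fun h => b1 (k311.2 h)) (fun h => b2 (k312.2 h)))
    (fun b0 b1 b2 => o.tri (k297.1 b0) (fun h => b1 (k311.2 h)) (fun h => b2 (k286.2 h)))
    (fun b0 b1 b2 => o.tri (k313.1 b0) (fun h => b1 (k311.2 h)) (fun h => b2 (k277.2 h)))
    (fun b0 b1 b2 => o.tri (k311.1 b0) (fun h => b1 (k306.2 h)) (fun h => b2 (k314.2 h)))
    (fun b0 b1 b2 => o.tri (k311.1 b0) (fun h => b1 (k309.2 h)) (fun h => b2 (k287.2 h)))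
    (fun b0 b1 b2 => o.tri (k315.1 b0) (fun h => b1 (k289.2 h)) (fun h => b2 (k316.2 h)))
    (fun b0 b1 b2 => o.tri (k317.1 b0) (fun h => b1 (k318.2 h)) (fun h => b2 (k272.2 h)))
    (fun b0 b1 b2 => o.tri (k319.1 b0) (fun h => b1 (k320.2 h)) (fun h => b2 (k292.2 h)))
    (fun b0 b1 b2 => o.tri (k320.1 b0) (fun h => b1 (k272.2 h)) (fun h => b2 (k307.2 h)))
    (fun b0 b1 b2 => o.tri (k278.1 b0) (fun h => b1 (k316.2 h)) (fun h => b2 (k321.2 h)))
    (fun b0 b1 b2 => o.tri (k316.1 b0) (fun h => b1 (k301.2 h)) (fun h => b2 (k306.2 h)))
    (fun b0 b1 b2 => o.tri (k312.1 b0) (fun h => b1 (k316.2 h)) (fun h => b2 (k310.2 h)))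
    (fun b0 b1 b2 => o.tri (k284.1 b0) (fun h => b1 (k277.2 h)) (fun h => b2 (k272.2 h)))
    (fun b0 b1 b2 => o.tri (k286.1 b0) (fun h => b1 (k292.2 h)) (fun h => b2 (k275.2 h)))
    (fun b0 b1 b2 => o.tri (k286.1 b0) (fun h => b1 (k316.2 h)) (fun h => b2 (k296.2 h)))
    (fun b0 b1 b2 => o.tri (k322.1 b0) (fun h => b1 (k323.2 h)) (fun h => b2 (k324.2 h)))
    (fun b0 b1 => o.asym (k325.1 b0) (k326.1 b1))
    (fun b0 b1 => o.asym (k327.1 b0) (k328.1 b1))
    (fun b0 b1 b2 => o.tri (k329.1 b0) (fun h => b1 (k304.2 h)) (fun h => b2 (k330.2 h)))
    (fun b0 b1 b2 => o.tri (k331.1 b0) (fun h => b1 (k332.2 h)) (fun h => b2 (k317.2 h)))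
    (fun b0 b1 b2 => o.tri (k332.1 b0) (fun h => b1 (k331.2 h)) (fun h => b2 (k333.2 h)))
    (fun b0 b1 => o.asym (k334.1 b0) (k332.1 b1))
    (fun b0 b1 b2 => o.tri (k335.1 b0) (fun h => b1 (k336.2 h)) (fun h => b2 (k337.2 h)))
    (fun b0 b1 b2 => o.tri (k338.1 b0) (fun h => b1 (k333.2 h)) (fun h => b2 (k339.2 h)))
    (fun b0 b1 b2 => o.tri (k340.1 b0) (fun h => b1 (k278.2 h)) (fun h => b2 (k327.2 h)))
    (fun b0 b1 b2 => o.tri (k341.1 b0) (fun h => b1 (k342.2 h)) (fun h => b2 (k343.2 h)))
    (fun b0 b1 b2 => o.tri (k344.1 b0) (fun h => b1 (k342.2 h)) (fun h => b2 (k345.2 h)))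
    (fun b0 b1 => o.asym (k346.1 b0) (k347.1 b1))
    (fun b0 b1 b2 => o.tri (k348.1 b0) (fun h => b1 (k349.2 h)) (fun h => b2 (k347.2 h)))
    (fun b0 b1 b2 => o.tri (k350.1 b0) (fun h => b1 (k348.2 h)) (fun h => b2 (k342.2 h)))
    (fun b0 b1 b2 => o.tri (k345.1 b0) (fun h => b1 (k351.2 h)) (fun h => b2 (k352.2 h)))
    (fun b0 b1 b2 => o.tri (k353.1 b0) (fun h => b1 (k347.2 h)) (fun h => b2 (k341.2 h)))
    (fun b0 b1 b2 => o.tri (k354.1 b0) (fun h => b1 (k347.2 h)) (fun h => b2 (k344.2 h)))
    (fun b0 b1 b2 => o.tri (k355.1 b0) (fun h => b1 (k356.2 h)) (fun h => b2 (k357.2 h)))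
    (fun b0 b1 b2 => o.tri (k358.1 b0) (fun h => b1 (k356.2 h)) (fun h => b2 (k359.2 h)))
    (fun b0 b1 b2 => o.tri (k360.1 b0) (fun h => b1 (k361.2 h)) (fun h => b2 (k362.2 h)))
    (fun b0 b1 b2 => o.tri (k363.1 b0) (fun h => b1 (k364.2 h)) (fun h => b2 (k365.2 h)))
    (fun b0 b1 b2 => o.tri (k366.1 b0) (fun h => b1 (k367.2 h)) (fun h => b2 (k368.2 h)))
    (fun b0 b1 b2 => o.tri (k369.1 b0) (fun h => b1 (k370.2 h)) (fun h => b2 (k364.2 h)))
    (fun b0 b1 b2 => o.tri (k371.1 b0) (fun h => b1 (k372.2 h)) (fun h => b2 (k365.2 h)))
    (fun b0 b1 b2 => o.tri (k373.1 b0) (fun h => b1 (k374.2 h)) (fun h => b2 (k356.2 h)))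
    (fun b0 b1 b2 => o.tri (k375.1 b0) (fun h => b1 (k376.2 h)) (fun h => b2 (k377.2 h)))
    (fun b0 b1 b2 => o.tri (k378.1 b0) (fun h => b1 (k379.2 h)) (fun h => b2 (k380.2 h)))
    (fun b0 b1 b2 => o.tri (k381.1 b0) (fun h => b1 (k382.2 h)) (fun h => b2 (k383.2 h)))
    (fun b0 b1 b2 => o.tri (k384.1 b0) (fun h => b1 (k385.2 h)) (fun h => b2 (k386.2 h)))
    (fun b0 b1 b2 => o.tri (k387.1 b0) (fun h => b1 (k388.2 h)) (fun h => b2 (k389.2 h)))
    (fun b0 b1 b2 => o.tri (k390.1 b0) (fun h => b1 (k391.2 h)) (fun h => b2 (k392.2 h)))
    (fun b0 b1 b2 => o.tri (k393.1 b0) (fun h => b1 (k392.2 h)) (fun h => b2 (k387.2 h)))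
    (fun b0 b1 b2 => o.tri (k394.1 b0) (fun h => b1 (k389.2 h)) (fun h => b2 (k390.2 h)))
    (fun b0 b1 => o.asym (k395.1 b0) (k396.1 b1))
    (fun b0 b1 b2 => o.tri (k395.1 b0) (fun h => b1 (k397.2 h)) (fun h => b2 (k398.2 h)))
    (fun b0 b1 b2 => o.tri (k399.1 b0) (fun h => b1 (k400.2 h)) (fun h => b2 (k401.2 h)))
    (fun b0 b1 b2 => o.tri (k402.1 b0) (fun h => b1 (k398.2 h)) (fun h => b2 (k396.2 h)))
    (fun b0 b1 => o.asym (k403.1 b0) (k404.1 b1))
    (fun b0 b1 b2 => o.tri (k403.1 b0) (fun h => b1 (k405.2 h)) (fun h => b2 (k406.2 h)))
    (fun b0 b1 b2 => o.tri (k407.1 b0) (fun h => b1 (k404.2 h)) (fun h => b2 (k405.2 h)))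
    (fun b0 b1 b2 => o.tri (k408.1 b0) (fun h => b1 (k379.2 h)) (fun h => b2 (k409.2 h)))
    (fun b0 b1 b2 => o.tri (k410.1 b0) (fun h => b1 (k411.2 h)) (fun h => b2 (k412.2 h)))
    (fun b0 b1 b2 => o.tri (k413.1 b0) (fun h => b1 (k414.2 h)) (fun h => b2 (k415.2 h)))
    (fun b0 b1 b2 => o.tri (k416.1 b0) (fun h => b1 (k415.2 h)) (fun h => b2 (k410.2 h)))
    (fun b0 b1 b2 => o.tri (k417.1 b0) (fun h => b1 (k418.2 h)) (fun h => b2 (k415.2 h)))
    (fun b0 b1 b2 => o.tri (k418.1 b0) (fun h => b1 (k419.2 h)) (fun h => b2 (k420.2 h)))
    (fun b0 b1 b2 => o.tri (k421.1 b0) (fun h => b1 (k417.2 h)) (fun h => b2 (k411.2 h)))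
    (fun b0 b1 b2 => o.tri (k422.1 b0) (fun h => b1 (k307.2 h)) (fun h => b2 (k423.2 h)))
    (fun b0 b1 b2 => o.tri (k424.1 b0) (fun h => b1 (k425.2 h)) (fun h => b2 (k307.2 h)))
    (fun b0 b1 b2 => o.tri (k426.1 b0) (fun h => b1 (k412.2 h)) (fun h => b2 (k413.2 h)))
    (fun b0 b1 b2 => o.tri (k427.1 b0) (fun h => b1 (k428.2 h)) (fun h => b2 (k429.2 h)))
    (fun b0 b1 => o.asym (k428.1 b0) (k430.1 b1))
    (fun b0 b1 b2 => o.tri (k431.1 b0) (fun h => b1 (k432.2 h)) (fun h => b2 (k433.2 h)))
    (fun b0 b1 b2 => o.tri (k434.1 b0) (fun h => b1 (k435.2 h)) (fun h => b2 (k436.2 h)))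
    (fun b0 b1 b2 => o.tri (k437.1 b0) (fun h => b1 (k435.2 h)) (fun h => b2 (k438.2 h)))
    (fun b0 b1 b2 => o.tri (k439.1 b0) (fun h => b1 (k440.2 h)) (fun h => b2 (k441.2 h)))
    (fun b0 b1 b2 => o.tri (k442.1 b0) (fun h => b1 (k433.2 h)) (fun h => b2 (k443.2 h)))
    (fun b0 b1 b2 => o.tri (k430.1 b0) (fun h => b1 (k429.2 h)) (fun h => b2 (k444.2 h)))
    (fun b0 b1 b2 => o.tri (k445.1 b0) (fun h => b1 (k446.2 h)) (fun h => b2 (k433.2 h)))
    (fun b0 b1 b2 => o.tri (k447.1 b0) (fun h => b1 (k448.2 h)) (fun h => b2 (k449.2 h)))
    (fun b0 b1 => o.asym (k450.1 b0) (k451.1 b1))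
    (fun b0 b1 b2 => o.tri (k452.1 b0) (fun h => b1 (k450.2 h)) (fun h => b2 (k453.2 h)))
    (fun b0 b1 b2 => o.tri (k451.1 b0) (fun h => b1 (k453.2 h)) (fun h => b2 (k454.2 h)))
    (fun b0 b1 b2 => o.tri (k455.1 b0) (fun h => b1 (k456.2 h)) (fun h => b2 (k449.2 h)))
    (fun b0 b1 => o.asym (k453.1 b0) (k457.1 b1))
    (fun b0 b1 b2 => o.tri (k453.1 b0) (fun h => b1 (k455.2 h)) (fun h => b2 (k458.2 h)))
    (fun b0 b1 b2 => o.tri (k459.1 b0) (fun h => b1 (k457.2 h)) (fun h => b2 (k455.2 h)))
    (fun b0 b1 => o.asym (k460.1 b0) (k461.1 b1))
    (fun b0 b1 b2 => o.tri (k462.1 b0) (fun h => b1 (k461.2 h)) (fun h => b2 (k463.2 h)))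
    (fun b0 b1 => o.asym (k464.1 b0) (k465.1 b1))
    (fun b0 b1 b2 => o.tri (k466.1 b0) (fun h => b1 (k467.2 h)) (fun h => b2 (k468.2 h)))
    (fun b0 b1 b2 => o.tri (k469.1 b0) (fun h => b1 (k467.2 h)) (fun h => b2 (k465.2 h)))
    (fun b0 b1 => o.asym (k470.1 b0) (k471.1 b1))
    (fun b0 b1 b2 => o.tri (k472.1 b0) (fun h => b1 (k473.2 h)) (fun h => b2 (k474.2 h)))
    (fun b0 b1 b2 => o.tri (k475.1 b0) (fun h => b1 (k476.2 h)) (fun h => b2 (k474.2 h)))
    (fun b0 b1 b2 => o.tri (k477.1 b0) (fun h => b1 (k474.2 h)) (fun h => b2 (k478.2 h)))
    (fun b0 b1 b2 => o.tri (k479.1 b0) (fun h => b1 (k477.2 h)) (fun h => b2 (k480.2 h)))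
    (fun b0 b1 b2 => o.tri (k481.1 b0) (fun h => b1 (k482.2 h)) (fun h => b2 (k483.2 h)))
    (fun b0 b1 b2 => o.tri (k484.1 b0) (fun h => b1 (k448.2 h)) (fun h => b2 (k485.2 h)))
    (fun b0 b1 b2 => o.tri (k486.1 b0) (fun h => b1 (k487.2 h)) (fun h => b2 (k488.2 h)))
    (fun b0 b1 b2 => o.tri (k489.1 b0) (fun h => b1 (k490.2 h)) (fun h => b2 (k491.2 h)))
    (fun b0 b1 b2 => o.tri (k492.1 b0) (fun h => b1 (k490.2 h)) (fun h => b2 (k493.2 h)))
    (fun b0 b1 b2 => o.tri (k494.1 b0) (fun h => b1 (k489.2 h)) (fun h => b2 (k495.2 h)))
    (fun b0 b1 b2 => o.tri (k496.1 b0) (fun h => b1 (k495.2 h)) (fun h => b2 (k497.2 h)))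
    (fun b0 b1 b2 => o.tri (k498.1 b0) (fun h => b1 (k496.2 h)) (fun h => b2 (k490.2 h)))
    (fun b0 b1 b2 => o.tri (k493.1 b0) (fun h => b1 (k499.2 h)) (fun h => b2 (k500.2 h)))
    (fun b0 b1 b2 => o.tri (k289.1 b0) (fun h => b1 (k334.2 h)) (fun h => b2 (k501.2 h)))
    (fun b0 b1 b2 => o.tri (k502.1 b0) (fun h => b1 (k497.2 h)) (fun h => b2 (k492.2 h)))
    (fun b0 b1 => o.asym (k503.1 b0) (k504.1 b1))
    (fun b0 b1 b2 => o.tri (k504.1 b0) (fun h => b1 (k505.2 h)) (fun h => b2 (k506.2 h)))
    (fun b0 b1 b2 => o.tri (k507.1 b0) (fun h => b1 (k508.2 h)) (fun h => b2 (k509.2 h)))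
    (fun b0 b1 b2 => o.tri (k510.1 b0) (fun h => b1 (k508.2 h)) (fun h => b2 (k511.2 h)))
    (fun b0 b1 b2 => o.tri (k512.1 b0) (fun h => b1 (k506.2 h)) (fun h => b2 (k503.2 h)))
    (fun b0 b1 b2 => o.tri (k513.1 b0) (fun h => b1 (k514.2 h)) (fun h => b2 (k515.2 h)))
    (fun b0 b1 b2 => o.tri (k516.1 b0) (fun h => b1 (k517.2 h)) (fun h => b2 (k518.2 h)))
    (fun b0 b1 b2 => o.tri (k519.1 b0) (fun h => b1 (k520.2 h)) (fun h => b2 (k515.2 h)))
    (fun b0 b1 b2 => o.tri (k521.1 b0) (fun h => b1 (k522.2 h)) (fun h => b2 (k523.2 h)))
    (fun b0 b1 b2 => o.tri (k524.1 b0) (fun h => b1 (k525.2 h)) (fun h => b2 (k508.2 h)))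
    (k526.2 g0)

end Pool.Agent.K7.H31.SA
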