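import Pool.Agent.K7.H31.SA.Net

set_option autoImplicit false

/-!
# Elements with the same action
-/

namespace Pool.Agent.K7.H31.SA

variable {G : Type*} [Group G]

/-- `x` and `y` act in the same way. -/
structure Eqv {δ : G → ZMod 3} (o : Pre δ) (x y : G) : Prop where
  deg : δ x = δ y
  le : ∀ z, o.le (z * x) (z * y)
  ge : ∀ z, o.le (z * y) (z * x)

section
variable {δ : G → ZMod 3} (hδ : ∀ u v, δ (u * v) = δ u + δ v) {o : Pre δ}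

namespace Eqv

theorem refl (x : G) : Eqv o x x := ⟨rfl, fun _ => o.refl _, fun _ => o.refl _⟩

theorem symm {x y : G} (h : Eqv o x y) : Eqv o y x := ⟨h.deg.symm, h.ge, h.le⟩

theorem trans {x y z : G} (h : Eqv o x y) (h' : Eqv o y z) : Eqv o x z :=
  ⟨h.deg.trans h'.deg, fun w => o.trans (h.le w) (h'.le w), fun w => o.trans (h'.ge w) (h.ge w)⟩

theorem dual {x y : G} (h : Eqv o x y) : Eqv o.dual x y := ⟨h.deg, h.ge, h.le⟩

/-- replace the left side of a strict inequality -/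
theorem ltl {x y : G} (h : Eqv o x y) {z w : G} (h1 : o.lt (z * x) w) : o.lt (z * y) w :=
  fun h2 => h1 (o.trans h2 (h.ge z))

theorem ltr {x y : G} (h : Eqv o x y) {z w : G} (h1 : o.lt w (z * x)) : o.lt w (z * y) :=
  fun h2 => h1 (o.trans (h.le z) h2)

theorem nlt {x y : G} (h : Eqv o x y) (z : G) : ¬ o.lt (z * x) (z * y) := fun h1 => h1 (h.ge z)

theorem of_nlt {x y : G} (hd : δ x = δ y) (h1 : ∀ z, ¬ o.lt (z * x) (z * y))
    (h2 : ∀ z, ¬ o.lt (z * y) (z * x)) : Eqv o x y :=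
  ⟨hd, fun z => o.le_of_not (h2 z), fun z => o.le_of_not (h1 z)⟩

include hδ

theorem mul {x y x' y' : G} (h : Eqv o x y) (h' : Eqv o x' y') : Eqv o (x * x') (y * y') where
  deg := by rw [hδ, hδ, h.deg, h'.deg]
  le z := by
    have h1 := h'.le (z * x)
    have h2 := o.mul y' (by rw [hδ, hδ, h.deg] : δ (z * x) = δ (z * y)) (h.le z)
    rw [mul_assoc, mul_assoc] at h1
    rw [mul_assoc, mul_assoc] at h2
    exact o.trans h1 h2
  ge z := by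
    have h1 := h'.ge (z * x)
    have h2 := o.mul y' (by rw [hδ, hδ, h.deg] : δ (z * y) = δ (z * x)) (h.ge z)
    rw [mul_assoc, mul_assoc] at h1
    rw [mul_assoc, mul_assoc] at h2
    exact o.trans h2 h1

theorem inv {x y : G} (h : Eqv o x y) : Eqv o x⁻¹ y⁻¹ where
  deg := by rw [δinv hδ, δinv hδ, h.deg]
  le z := by
    have h1 := h.ge (z * x⁻¹)
    have h2 := o.mul y⁻¹ (by simp only [hδ, δinv hδ, h.deg]) h1
    simpa [mul_assoc] using h2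
  ge z := by
    have h1 := h.le (z * x⁻¹)
    have h2 := o.mul y⁻¹ (by simp only [hδ, δinv hδ, h.deg]) h1
    simpa [mul_assoc] using h2

end Eqv

include hδ

theorem flatE {a b : G} (ha : a ^ 3 = 1) (hb : b ^ 3 = 1) (hd : δ a = δ b)
    (H1 : ∀ z, o.lt (z * a) (z * b) → o.lt (z * b⁻¹) (z * a⁻¹))
    (H2 : ∀ z, o.lt (z * b) (z * a) → o.lt (z * a⁻¹) (z * b⁻¹)) (z : G) :
    ¬ o.lt (z * a) (z * b) := by
  intro h
  have haa : a * a = a⁻¹ := (Ord3.of ha).2.1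
  have hbb : b * b = b⁻¹ := (Ord3.of hb).2.1
  have hza : δ (z * a) = δ (z * b) := by rw [hδ, hδ, hd]
  have h1 : o.lt (z * b⁻¹) (z * a⁻¹) := H1 z h
  -- `z < z b a⁻¹`
  have h2 : o.lt z (z * b * a⁻¹) := (o.cv hδ a⁻¹ hza (by group) rfl).1 h
  have h5 : o.lt (z * a⁻¹) (z * b * a) :=
    (o.cv hδ a hza (by rw [mul_assoc, haa]) rfl).1 h
  have h4 := H2 (z * b) (by
    intro h6
    have e : z * b * b = z * b⁻¹ := by rw [mul_assoc, hbb]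
    rw [e] at h6
    exact h1 (o.trans (o.le_of_lt h5) h6))
  refine o.asym h2 ?_
  have e : z * b * b⁻¹ = z := by group
  rwa [e] at h4

theorem Eqv.of_flatE {a b : G} (ha : a ^ 3 = 1) (hb : b ^ 3 = 1) (hd : δ a = δ b)
    (H1 : ∀ z, o.lt (z * a) (z * b) → o.lt (z * b⁻¹) (z * a⁻¹))
    (H2 : ∀ z, o.lt (z * b) (z * a) → o.lt (z * a⁻¹) (z * b⁻¹)) : Eqv o a b :=
  Eqv.of_nlt hd (flatE hδ ha hb hd H1 H2)
    (flatE hδ hb ha hd.symm H2 H1)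

theorem NF.vE0 {P Q f g : G} (h : NF o .even P Q f g) (e : Eqv o f g) (z : G)
    (hz : o.lt (z * (P * f⁻¹)) (z * (Q * f⁻¹))) :
    o.lt (z * (Q * f⁻¹)⁻¹) (z * (P * f⁻¹)⁻¹) := by
  have e1 : Eqv o (P * g⁻¹)⁻¹ (P * f⁻¹)⁻¹ := ((Eqv.refl P).mul hδ (e.symm.inv hδ)).inv hδ
  by_contra h1
  exact h.i.r0 z hz (e1.nlt z) (fun h2 => h1 (e1.ltr h2))

theorem NF.vE {P Q f g : G} (h : NF o .even P Q f g) (e : Eqv o f g) : Eqv o P Q := by
  have hd : δ (P * f⁻¹) = δ (Q * f⁻¹) := by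
    have := h.dQ
    simp only [Kind.odd, Bool.false_eq_true, if_false] at this
    rw [hδ, hδ, this]
  have e1 : Eqv o (P * f⁻¹) (Q * f⁻¹) := Eqv.of_flatE hδ h.cPf h.cQf hd (h.vE0 hδ e)
    (fun z hz => h.dual.vE0 hδ e.dual z hz)
  have e2 := e1.mul hδ (Eqv.refl f)
  simpa using e2

theorem NF.vO0 {P Q f g : G} (h : NF o .one P Q f g) (e : Eqv o f g) (z : G) :
    ¬ o.lt (z * (P * f⁻¹)) (z * (g * Q⁻¹)) := by
  intro hz
  have e1 : Eqv o (P * g⁻¹) (P * f⁻¹) := (Eqv.refl P).mul hδ (e.symm.inv hδ)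
  have e2 : Eqv o (g * Q⁻¹) (f * Q⁻¹) := e.symm.mul hδ (Eqv.refl _)
  by_cases h2 : o.lt (z * (P * g⁻¹)⁻¹) (z * (g * Q⁻¹)⁻¹)
  · exact h.i.r1 z (e2.nlt z) (fun h3 => o.asym hz h3) h2
  · exact h.i.r0 z (e1.nlt z) hz h2

theorem NF.vO {P Q f g : G} (h : NF o .one P Q f g) (e : Eqv o f g) :
    Eqv o (P * f⁻¹) (g * Q⁻¹) := by
  have hd : δ (P * f⁻¹) = δ (g * Q⁻¹) := by
    have h1 := h.dQ
    simp only [Kind.odd, if_true] at h1
    simp only [hδ, δinv hδ, h1, h.df, h.dg, neg_zero, add_zero, zero_add, neg_neg]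
  exact Eqv.of_nlt hd (h.vO0 hδ e) (fun z hz => h.dual.vO0 hδ e.dual z hz)

theorem NF.fE0 {P Q f g : G} (h : NF o .even P Q f g) (e : Eqv o P Q) (z : G) :
    ¬ o.lt (z * (P * f⁻¹)⁻¹) (z * (P * g⁻¹)⁻¹) := by
  intro h1
  have e1 : Eqv o (Q * f⁻¹) (P * f⁻¹) := e.symm.mul hδ (Eqv.refl _)
  have e2 : Eqv o (Q * g⁻¹) (P * g⁻¹) := e.symm.mul hδ (Eqv.refl _)
  by_cases h2 : o.lt (z * (P * f⁻¹)) (z * (P * g⁻¹))
  · refine h.i.r1 z (e1.nlt z) ?_ (fun h3 => o.asym h1 h3)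
    exact e2.symm.ltr (e1.symm.ltl h2)
  · exact h.i.r2 z h2 ((e2.inv hδ).nlt z) h1

theorem NF.fE {P Q f g : G} (h : NF o .even P Q f g) (e : Eqv o P Q) : Eqv o f g := by
  have hd : δ (P * f⁻¹) = δ (P * g⁻¹) := by
    simp only [hδ, δinv hδ, h.df, h.dg]
  have e1 : Eqv o (P * f⁻¹)⁻¹ (P * g⁻¹)⁻¹ :=
    Eqv.of_nlt (by rw [δinv hδ, δinv hδ, hd]) (h.fE0 hδ e) (fun z hz => h.dual.fE0 hδ e.dual z hz)
  have e2 := e1.mul hδ (Eqv.refl P)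
  simpa using e2

theorem NF.fO0 {P Q f g : G} (h : NF o .one P Q f g) (e : Eqv o (P * f⁻¹) (f * Q⁻¹)) (z : G) :
    ¬ o.lt (z * (Q * g⁻¹)) (z * (Q * f⁻¹)) := by
  intro h1
  have e1 : Eqv o (Q * f⁻¹) (f * P⁻¹) := by
    have e2 := (e.symm.inv hδ)
    simpa using e2
  refine h.r.r0 z (fun h2 => o.asym h1 h2) (e1.ltr h1) ?_
  have e3 : Eqv o (Q * f⁻¹)⁻¹ (f * P⁻¹)⁻¹ := e1.inv hδ
  exact e3.nlt z

theorem NF.fO {P Q f g : G} (h : NF o .one P Q f g) (e : Eqv o (P * f⁻¹) (f * Q⁻¹)) :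
    Eqv o f g := by
  have hd : δ (Q * g⁻¹) = δ (Q * f⁻¹) := by
    simp only [hδ, δinv hδ, h.df, h.dg]
  have e1 : Eqv o (Q * g⁻¹) (Q * f⁻¹) :=
    Eqv.of_nlt hd (h.fO0 hδ e) (fun z hz => h.dual.fO0 hδ e.dual z hz)
  have e2 := (e1.inv hδ).mul hδ (Eqv.refl Q)
  simpa using e2.symm

end

end Pool.Agent.K7.H31.SA
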