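import Pool.Agent.K7.H31.SA.Close
import Pool.Agent.K7.H31.SA.CloseFive
import Pool.Agent.K7.H31.SA.Flat

set_option autoImplicit false

/-!
# Closed networks
-/

namespace Pool.Agent.K7.H31.SA

variable {G : Type*} [Group G]

section
variable {δ : G → ZMod 3} (hδ : ∀ u v, δ (u * v) = δ u + δ v) {o : Pre δ}
include hδ

theorem nlt_EE {P Q f g : G} (N0 : NF o .even P Q f g) (N1 : NF o .even P Q g f) (z : G) :
    ¬ o.lt (z * f) (z * g) := by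
  intro g0
  have a1 := N0.dQ
  simp only [Kind.odd, Bool.false_eq_true, if_false] at a1
  exact close_EE hδ (o.shift hδ z) (three0 (δ P)) ⟨rfl, a1, N0.df, N0.dg⟩
    ⟨Cube.of N0.cPf, Cube.of N0.cPg, Cube.of N0.cQf, Cube.of N0.cQg⟩
    (N0.toRE hδ z) (N1.toRE hδ z) g0

theorem ring_EE {P Q f g : G} (N0 : NF o .even P Q f g) (N1 : NF o .even P Q g f) : Eqv o f g :=
  Eqv.of_nlt (by rw [N0.df, N0.dg]) (nlt_EE hδ N0 N1) (fun z hz => nlt_EE hδ N0.dual N1.dual z hz)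

theorem nlt_AA {P Q f g : G} (N0 : NF o .one P Q f g) (N1 : NF o .one P Q g f) (z : G) :
    ¬ o.lt (z * f) (z * g) := by
  intro g0
  have a1 := N0.dQ
  simp only [Kind.odd, if_true] at a1
  exact close_AA hδ (o.shift hδ z) (three0 (δ P)) ⟨rfl, a1, N0.df, N0.dg⟩
    ⟨Cube.of N0.cPf, Cube.of N0.cPg, Cube.of N0.cQf, Cube.of N0.cQg⟩
    (N0.toRA hδ z) (N1.toRA hδ z) g0

theorem ring_AA {P Q f g : G} (N0 : NF o .one P Q f g) (N1 : NF o .one P Q g f) : Eqv o f g :=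
  Eqv.of_nlt (by rw [N0.df, N0.dg]) (nlt_AA hδ N0 N1) (fun z hz => nlt_AA hδ N0.dual N1.dual z hz)

theorem nlt_AB {P Q f g : G} (N0 : NF o .one P Q f g) (N1 : NF o .two P Q g f) (z : G) :
    ¬ o.lt (z * f) (z * g) := by
  intro g0
  have a1 := N0.dQ
  simp only [Kind.odd, if_true] at a1
  exact close_AB hδ (o.shift hδ z) (three0 (δ P)) ⟨rfl, a1, N0.df, N0.dg⟩
    ⟨Cube.of N0.cPf, Cube.of N0.cPg, Cube.of N0.cQf, Cube.of N0.cQg⟩
    (N0.toRA hδ z) (N1.toRB hδ z) g0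

theorem ring_AB {P Q f g : G} (N0 : NF o .one P Q f g) (N1 : NF o .two P Q g f) : Eqv o f g :=
  Eqv.of_nlt (by rw [N0.df, N0.dg]) (nlt_AB hδ N0 N1) (fun z hz => nlt_AB hδ N0.dual N1.dual z hz)

theorem nlt_AC {P Q f g : G} (N0 : NF o .one P Q f g) (N1 : NF o .three P Q g f) (z : G) :
    ¬ o.lt (z * f) (z * g) := by
  intro g0
  have a1 := N0.dQ
  simp only [Kind.odd, if_true] at a1
  exact close_AC hδ (o.shift hδ z) (three0 (δ P)) ⟨rfl, a1, N0.df, N0.dg⟩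
    ⟨Cube.of N0.cPf, Cube.of N0.cPg, Cube.of N0.cQf, Cube.of N0.cQg⟩
    (N0.toRA hδ z) (N1.toRC hδ z) g0

theorem ring_AC {P Q f g : G} (N0 : NF o .one P Q f g) (N1 : NF o .three P Q g f) : Eqv o f g :=
  Eqv.of_nlt (by rw [N0.df, N0.dg]) (nlt_AC hδ N0 N1) (fun z hz => nlt_AC hδ N0.dual N1.dual z hz)

theorem nlt_A5 {P Q f0 f1 f2 f3 f4 : G} (N0 : NF o .one P Q f0 f1) (N1 : NF o .one P Q f1 f2)
    (N2 : NF o .one P Q f2 f3) (N3 : NF o .one P Q f3 f4) (N4 : NF o .one P Q f4 f0) (z : G) :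
    ¬ o.lt (z * f0) (z * f1) := by
  intro g0
  have a1 := N0.dQ
  simp only [Kind.odd, if_true] at a1
  exact close_AAAAA hδ (o.shift hδ z) (three0 (δ P))
    ⟨rfl, a1, N0.df, N0.dg, N1.dg, N2.dg, N3.dg⟩
    ⟨Cube.of N0.cPf, Cube.of N0.cPg, Cube.of N0.cQf, Cube.of N0.cQg,
      Cube.of N1.cPg, Cube.of N1.cQg, Cube.of N2.cPg, Cube.of N2.cQg, Cube.of N3.cPg,
      Cube.of N3.cQg⟩
    (N0.toRA hδ z) (N1.toRA hδ z) (N2.toRA hδ z) (N3.toRA hδ z) (N4.toRA hδ z) g0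

theorem ring_A5 {P Q f0 f1 f2 f3 f4 : G} (N0 : NF o .one P Q f0 f1) (N1 : NF o .one P Q f1 f2)
    (N2 : NF o .one P Q f2 f3) (N3 : NF o .one P Q f3 f4) (N4 : NF o .one P Q f4 f0) :
    Eqv o f0 f1 :=
  Eqv.of_nlt (by rw [N0.df, N0.dg]) (nlt_A5 hδ N0 N1 N2 N3 N4)
    (fun z hz => nlt_A5 hδ N0.dual N1.dual N2.dual N3.dual N4.dual z hz)

end

end Pool.Agent.K7.H31.SA
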