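import Pool.Agent.K7.H31.SA.Rules

set_option autoImplicit false
set_option maxRecDepth 100000
set_option linter.all false

/-!
# Generated order arguments
-/

namespace Pool.Agent.K7.H31.SA

theorem ser_ACE_0_prop {A1 A2 A3 A4 A5 A6 A7 A8 A9 A10 A11 A12 A13 A14 A15 A16 A17 A18 A19 A20 A21 A22 A23 A24 A25 A26 A27 A28 A29 A30 A31 A32 A33 : Prop}
    (c0 : ¬ A10 → A16 → ¬ A23 → False)
    (c1 : ¬ A17 → A9 → ¬ A19 → False)
    (c2 : ¬ A22 → A6 → ¬ A5 → False)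
    (c3 : ¬ A3 → ¬ A1 → A5 → False)
    (c4 : A25 → ¬ A7 → ¬ A13 → ¬ A3 → False)
    (c5 : A7 → ¬ A13 → ¬ A28 → False)
    (c6 : ¬ A27 → A24 → ¬ A8 → ¬ A3 → False)
    (c7 : A7 → ¬ A8 → ¬ A10 → False)
    (c8 : ¬ A17 → A30 → ¬ A13 → ¬ A3 → False)
    (c9 : A11 → ¬ A12 → ¬ A7 → False)
    (c10 : A18 → A22 → False)
    (c11 : A19 → ¬ A6 → ¬ A3 → False)
    (c12 : A6 → A1 → False)
    (c13 : A20 → A26 → False)
    (c14 : A20 → ¬ A6 → ¬ A14 → False)
    (c15 : A21 → ¬ A18 → ¬ A5 → False)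
    (c16 : A22 → ¬ A4 → ¬ A1 → False)
    (c17 : A22 → ¬ A5 → ¬ A29 → False)
    (c18 : A4 → A2 → False)
    (c19 : A25 → ¬ A24 → ¬ A27 → False)
    (c20 : A14 → ¬ A3 → ¬ A25 → False)
    (c21 : A27 → A28 → False)
    (c22 : A8 → ¬ A26 → ¬ A6 → False)
    (c23 : A29 → ¬ A30 → ¬ A31 → False)
    (c24 : A10 → A17 → False)
    (c25 : A23 → ¬ A10 → ¬ A2 → False)
    (c26 : A17 → ¬ A16 → ¬ A21 → False)
    (c27 : A31 → ¬ A3 → ¬ A32 → False)
    (c28 : A32 → ¬ A33 → ¬ A3 → False)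
    (c29 : A13 → ¬ A32 → ¬ A9 → False)
    (c30 : A13 → ¬ A33 → ¬ A5 → False)
    (c31 : A17 → ¬ A11 → ¬ A3 → False)
    (c32 : A13 → ¬ A8 → ¬ A15 → False)
    (c33 : A12 → A15 → False)
    (u0 : A20)
    (u1 : ¬ A3)
    (u2 : ¬ A33)
    : False := by
  have q1 : ¬ A26 := fun h => c13 u0 h
  have q2 : ¬ A32 := fun h => c28 h u2 u1
  have q3 : ¬ A31 := fun h => c27 h u1 q2
  rcases Classical.em A6 with q4 | q4
  · have q5 : ¬ A1 := fun h => c12 q4 h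
    have q6 : ¬ A5 := fun h => c3 u1 q5 h
    have q7 : A22 := Classical.byContradiction fun h => c2 h q4 q6
    have q8 : ¬ A18 := fun h => c10 h q7
    have q9 : ¬ A21 := fun h => c15 h q8 q6
    have q10 : A4 := Classical.byContradiction fun h => c16 q7 h q5
    have q11 : A29 := Classical.byContradiction fun h => c17 q7 q6 h
    have q12 : ¬ A2 := fun h => c18 q10 h
    have q13 : A30 := Classical.byContradiction fun h => c23 q11 h q3
    have q14 : ¬ A13 := fun h => c30 h u2 q6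
    have q15 : A17 := Classical.byContradiction fun h => c8 h q13 q14 u1
    have q16 : ¬ A10 := fun h => c24 h q15
    have q17 : ¬ A23 := fun h => c25 h q16 q12
    have q18 : ¬ A16 := fun h => c0 q16 h q17
    exact c26 q15 q18 q9
  · have q19 : ¬ A19 := fun h => c11 h q4 u1
    have q20 : A14 := Classical.byContradiction fun h => c14 u0 q4 h
    have q21 : A25 := Classical.byContradiction fun h => c20 q20 u1 h
    have q22 : ¬ A8 := fun h => c22 h q1 q4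
    rcases Classical.em A13 with q23 | q23
    · have q24 : A9 := Classical.byContradiction fun h => c29 q23 q2 h
      have q25 : A17 := Classical.byContradiction fun h => c1 h q24 q19
      have q26 : ¬ A10 := fun h => c24 h q25
      have q27 : ¬ A7 := fun h => c7 h q22 q26
      have q28 : A5 := Classical.byContradiction fun h => c30 q23 u2 h
      have q29 : A1 := Classical.byContradiction fun h => c3 u1 h q28
      have q30 : A11 := Classical.byContradiction fun h => c31 q25 h u1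
      have q31 : A12 := Classical.byContradiction fun h => c9 q30 h q27
      have q32 : A15 := Classical.byContradiction fun h => c32 q23 q22 h
      exact c33 q31 q32
    · have q33 : A7 := Classical.byContradiction fun h => c4 q21 h q23 u1
      have q34 : A28 := Classical.byContradiction fun h => c5 q33 q23 h
      have q35 : A10 := Classical.byContradiction fun h => c7 q33 q22 h
      have q36 : ¬ A27 := fun h => c21 h q34
      have q37 : ¬ A24 := fun h => c6 q36 h q22 u1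
      exact c19 q21 q37 q36

theorem ser_ACE_0 {G : Type*} [Group G] {δ : G → ZMod 3} (hδ : ∀ u v, δ (u * v) = δ u + δ v) (o : Pre δ)
    {P m Q f g : G} {e : ZMod 3} (h3 : 3 * e = 0)
    (D : δ P = e ∧ δ m = -e ∧ δ Q = e ∧ δ f = 0 ∧ δ g = 0)
    (C : Cube P f ∧ Cube P g ∧ Cube m f ∧ Cube m g ∧ Cube Q f ∧ Cube Q g)
    (N0 : RA o P m f g)
    (N1 : RC o Q m g f)
    (g0 : o.lt (P * f⁻¹) (Q * f⁻¹)) (g1 : ¬ o.lt ((P * g⁻¹)⁻¹) ((P * f⁻¹)⁻¹)) (g2 : ¬ o.lt ((Q * f⁻¹)⁻¹) ((P * g⁻¹)⁻¹)) : False := by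
  simp only [Cube] at C
  have e0 : δ (g * m⁻¹) = δ (P * f⁻¹) := by simp only [hδ, δinv hδ, δone hδ, D] <;> linear_combination (0) * h3
  have e1 : δ (g * m⁻¹) = δ (P * g⁻¹) := by simp only [hδ, δinv hδ, δone hδ, D] <;> linear_combination (0) * h3
  have e2 : δ (g * m⁻¹) = δ (f * m⁻¹) := by simp only [hδ, δinv hδ, δone hδ, D] <;> linear_combination (0) * h3
  have e3 : δ (P * g⁻¹) = δ (g * m⁻¹) := by simp only [hδ, δinv hδ, δone hδ, D] <;> linear_combination (0) * h3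
  have e4 : δ (g * P⁻¹) = δ (m * g⁻¹) := by simp only [hδ, δinv hδ, δone hδ, D] <;> linear_combination (0) * h3
  have e5 : δ (P * f⁻¹) = δ (g * m⁻¹) := by simp only [hδ, δinv hδ, δone hδ, D] <;> linear_combination (0) * h3
  have e6 : δ (f * m⁻¹) = δ (g * m⁻¹) := by simp only [hδ, δinv hδ, δone hδ, D] <;> linear_combination (0) * h3
  have e7 : δ (Q * f⁻¹) = δ (g * m⁻¹) := by simp only [hδ, δinv hδ, δone hδ, D] <;> linear_combination (0) * h3
  have e8 : δ (f * P⁻¹) = δ (m * g⁻¹) := by simp only [hδ, δinv hδ, δone hδ, D] <;> linear_combination (0) * h3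
  have e9 : δ (m * f⁻¹) = δ (m * g⁻¹) := by simp only [hδ, δinv hδ, δone hδ, D] <;> linear_combination (0) * h3
  have e10 : δ (m * g⁻¹) = δ (g * (m⁻¹ * (f * m⁻¹))) := by simp only [hδ, δinv hδ, δone hδ, D] <;> linear_combination (-1) * h3
  have e11 : δ (m * g⁻¹) = δ (g * (m⁻¹ * (Q * f⁻¹))) := by simp only [hδ, δinv hδ, δone hδ, D] <;> linear_combination (-1) * h3
  have e12 : δ (f * Q⁻¹) = δ (m * g⁻¹) := by simp only [hδ, δinv hδ, δone hδ, D] <;> linear_combination (0) * h3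
  have e13 : δ (g * m⁻¹) = δ (Q * f⁻¹) := by simp only [hδ, δinv hδ, δone hδ, D] <;> linear_combination (0) * h3
  have e14 : δ (g * (m⁻¹ * (Q * f⁻¹))) = δ (m * g⁻¹) := by simp only [hδ, δinv hδ, δone hδ, D] <;> linear_combination (1) * h3
  have e15 : δ (m * g⁻¹) = δ (f * P⁻¹) := by simp only [hδ, δinv hδ, δone hδ, D] <;> linear_combination (0) * h3
  have e16 : δ (m * g⁻¹) = δ (m * f⁻¹) := by simp only [hδ, δinv hδ, δone hδ, D] <;> linear_combination (0) * h3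
  have e17 : δ (P * f⁻¹) = δ (P * g⁻¹) := by simp only [hδ, δinv hδ, δone hδ, D] <;> linear_combination (0) * h3
  have e18 : δ (P * f⁻¹) = δ (f * m⁻¹) := by simp only [hδ, δinv hδ, δone hδ, D] <;> linear_combination (0) * h3
  have e19 : δ (P * f⁻¹) = δ (Q * f⁻¹) := by simp only [hδ, δinv hδ, δone hδ, D] <;> linear_combination (0) * h3
  have e20 : δ (P * f⁻¹) = δ (m * P⁻¹) := by simp only [hδ, δinv hδ, δone hδ, D] <;> linear_combination (1) * h3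
  have e21 : δ (P * g⁻¹) = δ (P * f⁻¹) := by simp only [hδ, δinv hδ, δone hδ, D] <;> linear_combination (0) * h3
  have e22 : δ (f * m⁻¹) = δ (P * f⁻¹) := by simp only [hδ, δinv hδ, δone hδ, D] <;> linear_combination (0) * h3
  have e23 : δ (f * m⁻¹) = δ (Q * g⁻¹) := by simp only [hδ, δinv hδ, δone hδ, D] <;> linear_combination (0) * h3
  have e24 : δ (f * m⁻¹) = δ (Q * f⁻¹) := by simp only [hδ, δinv hδ, δone hδ, D] <;> linear_combination (0) * h3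
  have e25 : δ (Q * f⁻¹) = δ (P * f⁻¹) := by simp only [hδ, δinv hδ, δone hδ, D] <;> linear_combination (0) * h3
  have e26 : δ (Q * g⁻¹) = δ (Q * f⁻¹) := by simp only [hδ, δinv hδ, δone hδ, D] <;> linear_combination (0) * h3
  have e27 : δ (Q * f⁻¹) = δ (Q * g⁻¹) := by simp only [hδ, δinv hδ, δone hδ, D] <;> linear_combination (0) * h3
  have e28 : δ (m * P⁻¹) = δ (P * f⁻¹) := by simp only [hδ, δinv hδ, δone hδ, D] <;> linear_combination (-1) * h3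
  have e29 : δ (m * f⁻¹) = δ (g * Q⁻¹) := by simp only [hδ, δinv hδ, δone hδ, D] <;> linear_combination (0) * h3
  have e30 : δ (g * Q⁻¹) = δ (f * P⁻¹) := by simp only [hδ, δinv hδ, δone hδ, D] <;> linear_combination (0) * h3
  have e31 : δ (f * Q⁻¹) = δ (f * P⁻¹) := by simp only [hδ, δinv hδ, δone hδ, D] <;> linear_combination (0) * h3
  have e32 : δ (f * Q⁻¹) = δ (g * P⁻¹) := by simp only [hδ, δinv hδ, δone hδ, D] <;> linear_combination (0) * h3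
  have k0 : o.lt (m * f⁻¹) (m * g⁻¹) ↔ o.lt (1 * (m * f⁻¹)) (1 * (m * g⁻¹)) := o.cv hδ (1) e9 (by simp only [mul_assoc, mul_inv_rev, inv_inv, mul_inv_cancel_left, inv_mul_cancel_left, mul_inv_cancel, inv_mul_cancel, mul_one, one_mul, inv_one, C]) (by simp only [mul_assoc, mul_inv_rev, inv_inv, mul_inv_cancel_left, inv_mul_cancel_left, mul_inv_cancel, inv_mul_cancel, mul_one, one_mul, inv_one, C])
  have k1 : o.lt (m * g⁻¹) (f * P⁻¹) ↔ o.lt (1 * (m * g⁻¹)) (1 * (f * P⁻¹)) := o.cv hδ (1) e15 (by simp only [mul_assoc, mul_inv_rev, inv_inv, mul_inv_cancel_left, inv_mul_cancel_left, mul_inv_cancel, inv_mul_cancel, mul_one, one_mul, inv_one, C]) (by simp only [mul_assoc, mul_inv_rev, inv_inv, mul_inv_cancel_left, inv_mul_cancel_left, mul_inv_cancel, inv_mul_cancel, mul_one, one_mul, inv_one, C])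
  have k2 : o.lt (f * m⁻¹) (P * f⁻¹) ↔ o.lt (1 * (m * f⁻¹)⁻¹) (1 * (f * P⁻¹)⁻¹) := o.cv hδ (1) e22 (by simp only [mul_assoc, mul_inv_rev, inv_inv, mul_inv_cancel_left, inv_mul_cancel_left, mul_inv_cancel, inv_mul_cancel, mul_one, one_mul, inv_one, C]) (by simp only [mul_assoc, mul_inv_rev, inv_inv, mul_inv_cancel_left, inv_mul_cancel_left, mul_inv_cancel, inv_mul_cancel, mul_one, one_mul, inv_one, C])
  have k3 : o.lt (m * g⁻¹) (m * f⁻¹) ↔ o.lt (1 * (m * g⁻¹)) (1 * (m * f⁻¹)) := o.cv hδ (1) e16 (by simp only [mul_assoc, mul_inv_rev, inv_inv, mul_inv_cancel_left, inv_mul_cancel_left, mul_inv_cancel, inv_mul_cancel, mul_one, one_mul, inv_one, C]) (by simp only [mul_assoc, mul_inv_rev, inv_inv, mul_inv_cancel_left, inv_mul_cancel_left, mul_inv_cancel, inv_mul_cancel, mul_one, one_mul, inv_one, C])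
  have k4 : o.lt (f * P⁻¹) (m * g⁻¹) ↔ o.lt (1 * (f * P⁻¹)) (1 * (m * g⁻¹)) := o.cv hδ (1) e8 (by simp only [mul_assoc, mul_inv_rev, inv_inv, mul_inv_cancel_left, inv_mul_cancel_left, mul_inv_cancel, inv_mul_cancel, mul_one, one_mul, inv_one, C]) (by simp only [mul_assoc, mul_inv_rev, inv_inv, mul_inv_cancel_left, inv_mul_cancel_left, mul_inv_cancel, inv_mul_cancel, mul_one, one_mul, inv_one, C])
  have k5 : o.lt (P * f⁻¹) (f * m⁻¹) ↔ o.lt (1 * (f * P⁻¹)⁻¹) (1 * (m * f⁻¹)⁻¹) := o.cv hδ (1) e18 (by simp only [mul_assoc, mul_inv_rev, inv_inv, mul_inv_cancel_left, inv_mul_cancel_left, mul_inv_cancel, inv_mul_cancel, mul_one, one_mul, inv_one, C]) (by simp only [mul_assoc, mul_inv_rev, inv_inv, mul_inv_cancel_left, inv_mul_cancel_left, mul_inv_cancel, inv_mul_cancel, mul_one, one_mul, inv_one, C])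
  have k6 : o.lt (P * g⁻¹) (P * f⁻¹) ↔ o.lt (1 * (P * g⁻¹)) (1 * (P * f⁻¹)) := o.cv hδ (1) e21 (by simp only [mul_assoc, mul_inv_rev, inv_inv, mul_inv_cancel_left, inv_mul_cancel_left, mul_inv_cancel, inv_mul_cancel, mul_one, one_mul, inv_one, C]) (by simp only [mul_assoc, mul_inv_rev, inv_inv, mul_inv_cancel_left, inv_mul_cancel_left, mul_inv_cancel, inv_mul_cancel, mul_one, one_mul, inv_one, C])
  have k7 : o.lt (P * f⁻¹) (g * m⁻¹) ↔ o.lt (1 * (P * f⁻¹)) (1 * (g * m⁻¹)) := o.cv hδ (1) e5 (by simp only [mul_assoc, mul_inv_rev, inv_inv, mul_inv_cancel_left, inv_mul_cancel_left, mul_inv_cancel, inv_mul_cancel, mul_one, one_mul, inv_one, C]) (by simp only [mul_assoc, mul_inv_rev, inv_inv, mul_inv_cancel_left, inv_mul_cancel_left, mul_inv_cancel, inv_mul_cancel, mul_one, one_mul, inv_one, C])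
  have k8 : o.lt (g * P⁻¹) (m * g⁻¹) ↔ o.lt (1 * (P * g⁻¹)⁻¹) (1 * (g * m⁻¹)⁻¹) := o.cv hδ (1) e4 (by simp only [mul_assoc, mul_inv_rev, inv_inv, mul_inv_cancel_left, inv_mul_cancel_left, mul_inv_cancel, inv_mul_cancel, mul_one, one_mul, inv_one, C]) (by simp only [mul_assoc, mul_inv_rev, inv_inv, mul_inv_cancel_left, inv_mul_cancel_left, mul_inv_cancel, inv_mul_cancel, mul_one, one_mul, inv_one, C])
  have k9 : o.lt (g * m⁻¹) (f * m⁻¹) ↔ o.lt (1 * (g * m⁻¹)) (1 * (f * m⁻¹)) := o.cv hδ (1) e2 (by simp only [mul_assoc, mul_inv_rev, inv_inv, mul_inv_cancel_left, inv_mul_cancel_left, mul_inv_cancel, inv_mul_cancel, mul_one, one_mul, inv_one, C]) (by simp only [mul_assoc, mul_inv_rev, inv_inv, mul_inv_cancel_left, inv_mul_cancel_left, mul_inv_cancel, inv_mul_cancel, mul_one, one_mul, inv_one, C])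
  have k10 : o.lt (g * m⁻¹) (P * f⁻¹) ↔ o.lt (1 * (g * m⁻¹)) (1 * (P * f⁻¹)) := o.cv hδ (1) e0 (by simp only [mul_assoc, mul_inv_rev, inv_inv, mul_inv_cancel_left, inv_mul_cancel_left, mul_inv_cancel, inv_mul_cancel, mul_one, one_mul, inv_one, C]) (by simp only [mul_assoc, mul_inv_rev, inv_inv, mul_inv_cancel_left, inv_mul_cancel_left, mul_inv_cancel, inv_mul_cancel, mul_one, one_mul, inv_one, C])
  have k11 : o.lt (f * m⁻¹) (Q * f⁻¹) ↔ o.lt (1 * (f * m⁻¹)) (1 * (Q * f⁻¹)) := o.cv hδ (1) e24 (by simp only [mul_assoc, mul_inv_rev, inv_inv, mul_inv_cancel_left, inv_mul_cancel_left, mul_inv_cancel, inv_mul_cancel, mul_one, one_mul, inv_one, C]) (by simp only [mul_assoc, mul_inv_rev, inv_inv, mul_inv_cancel_left, inv_mul_cancel_left, mul_inv_cancel, inv_mul_cancel, mul_one, one_mul, inv_one, C])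
  have k12 : o.lt (f * m⁻¹) (g * m⁻¹) ↔ o.lt (1 * (f * m⁻¹)) (1 * (g * m⁻¹)) := o.cv hδ (1) e6 (by simp only [mul_assoc, mul_inv_rev, inv_inv, mul_inv_cancel_left, inv_mul_cancel_left, mul_inv_cancel, inv_mul_cancel, mul_one, one_mul, inv_one, C]) (by simp only [mul_assoc, mul_inv_rev, inv_inv, mul_inv_cancel_left, inv_mul_cancel_left, mul_inv_cancel, inv_mul_cancel, mul_one, one_mul, inv_one, C])
  have k13 : o.lt (f * Q⁻¹) (m * g⁻¹) ↔ o.lt (1 * (Q * f⁻¹)⁻¹) (1 * (g * m⁻¹)⁻¹) := o.cv hδ (1) e12 (by simp only [mul_assoc, mul_inv_rev, inv_inv, mul_inv_cancel_left, inv_mul_cancel_left, mul_inv_cancel, inv_mul_cancel, mul_one, one_mul, inv_one, C]) (by simp only [mul_assoc, mul_inv_rev, inv_inv, mul_inv_cancel_left, inv_mul_cancel_left, mul_inv_cancel, inv_mul_cancel, mul_one, one_mul, inv_one, C])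
  have k14 : o.lt (g * m⁻¹) (f * m⁻¹) ↔ o.lt (1 * g) (1 * f) := o.cv hδ (m) e2 (by simp only [mul_assoc, mul_inv_rev, inv_inv, mul_inv_cancel_left, inv_mul_cancel_left, mul_inv_cancel, inv_mul_cancel, mul_one, one_mul, inv_one, C]) (by simp only [mul_assoc, mul_inv_rev, inv_inv, mul_inv_cancel_left, inv_mul_cancel_left, mul_inv_cancel, inv_mul_cancel, mul_one, one_mul, inv_one, C])
  have k15 : o.lt (f * m⁻¹) (g * m⁻¹) ↔ o.lt (1 * (f * Q⁻¹)) (1 * (g * Q⁻¹)) := o.cv hδ (m * Q⁻¹) e6 (by simp only [mul_assoc, mul_inv_rev, inv_inv, mul_inv_cancel_left, inv_mul_cancel_left, mul_inv_cancel, inv_mul_cancel, mul_one, one_mul, inv_one, C]) (by simp only [mul_assoc, mul_inv_rev, inv_inv, mul_inv_cancel_left, inv_mul_cancel_left, mul_inv_cancel, inv_mul_cancel, mul_one, one_mul, inv_one, C])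
  have k16 : o.lt (f * Q⁻¹) (m * g⁻¹) ↔ o.lt (1 * (f * Q⁻¹)) (1 * (m * g⁻¹)) := o.cv hδ (1) e12 (by simp only [mul_assoc, mul_inv_rev, inv_inv, mul_inv_cancel_left, inv_mul_cancel_left, mul_inv_cancel, inv_mul_cancel, mul_one, one_mul, inv_one, C]) (by simp only [mul_assoc, mul_inv_rev, inv_inv, mul_inv_cancel_left, inv_mul_cancel_left, mul_inv_cancel, inv_mul_cancel, mul_one, one_mul, inv_one, C])
  have k17 : o.lt (Q * f⁻¹) (Q * g⁻¹) ↔ o.lt (1 * (f * Q⁻¹)⁻¹) (1 * (g * Q⁻¹)⁻¹) := o.cv hδ (1) e27 (by simp only [mul_assoc, mul_inv_rev, inv_inv, mul_inv_cancel_left, inv_mul_cancel_left, mul_inv_cancel, inv_mul_cancel, mul_one, one_mul, inv_one, C]) (by simp only [mul_assoc, mul_inv_rev, inv_inv, mul_inv_cancel_left, inv_mul_cancel_left, mul_inv_cancel, inv_mul_cancel, mul_one, one_mul, inv_one, C])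
  have k18 : o.lt (Q * g⁻¹) (Q * f⁻¹) ↔ o.lt (1 * (Q * g⁻¹)) (1 * (Q * f⁻¹)) := o.cv hδ (1) e26 (by simp only [mul_assoc, mul_inv_rev, inv_inv, mul_inv_cancel_left, inv_mul_cancel_left, mul_inv_cancel, inv_mul_cancel, mul_one, one_mul, inv_one, C]) (by simp only [mul_assoc, mul_inv_rev, inv_inv, mul_inv_cancel_left, inv_mul_cancel_left, mul_inv_cancel, inv_mul_cancel, mul_one, one_mul, inv_one, C])
  have k19 : o.lt (f * m⁻¹) (Q * g⁻¹) ↔ o.lt (1 * (f * m⁻¹)) (1 * (Q * g⁻¹)) := o.cv hδ (1) e23 (by simp only [mul_assoc, mul_inv_rev, inv_inv, mul_inv_cancel_left, inv_mul_cancel_left, mul_inv_cancel, inv_mul_cancel, mul_one, one_mul, inv_one, C]) (by simp only [mul_assoc, mul_inv_rev, inv_inv, mul_inv_cancel_left, inv_mul_cancel_left, mul_inv_cancel, inv_mul_cancel, mul_one, one_mul, inv_one, C])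
  have k20 : o.lt (Q * f⁻¹) (g * m⁻¹) ↔ o.lt (1 * (Q * f⁻¹)) (1 * (g * m⁻¹)) := o.cv hδ (1) e7 (by simp only [mul_assoc, mul_inv_rev, inv_inv, mul_inv_cancel_left, inv_mul_cancel_left, mul_inv_cancel, inv_mul_cancel, mul_one, one_mul, inv_one, C]) (by simp only [mul_assoc, mul_inv_rev, inv_inv, mul_inv_cancel_left, inv_mul_cancel_left, mul_inv_cancel, inv_mul_cancel, mul_one, one_mul, inv_one, C])
  have k21 : o.lt (m * f⁻¹) (m * g⁻¹) ↔ o.lt (1 * (f * m⁻¹)⁻¹) (1 * (g * m⁻¹)⁻¹) := o.cv hδ (1) e9 (by simp only [mul_assoc, mul_inv_rev, inv_inv, mul_inv_cancel_left, inv_mul_cancel_left, mul_inv_cancel, inv_mul_cancel, mul_one, one_mul, inv_one, C]) (by simp only [mul_assoc, mul_inv_rev, inv_inv, mul_inv_cancel_left, inv_mul_cancel_left, mul_inv_cancel, inv_mul_cancel, mul_one, one_mul, inv_one, C])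
  have k22 : o.lt (m * f⁻¹) (g * Q⁻¹) ↔ o.lt (1 * (m * f⁻¹)) (1 * (g * Q⁻¹)) := o.cv hδ (1) e29 (by simp only [mul_assoc, mul_inv_rev, inv_inv, mul_inv_cancel_left, inv_mul_cancel_left, mul_inv_cancel, inv_mul_cancel, mul_one, one_mul, inv_one, C]) (by simp only [mul_assoc, mul_inv_rev, inv_inv, mul_inv_cancel_left, inv_mul_cancel_left, mul_inv_cancel, inv_mul_cancel, mul_one, one_mul, inv_one, C])
  have k23 : o.lt (m * g⁻¹) (g * (m⁻¹ * (f * m⁻¹))) ↔ o.lt ((g * m⁻¹) * (g * m⁻¹)) ((g * m⁻¹) * (f * m⁻¹)) := o.cv hδ (g * (m⁻¹ * (g * (m⁻¹ * (g * m⁻¹))))) e10 (by simp only [mul_assoc, mul_inv_rev, inv_inv, mul_inv_cancel_left, inv_mul_cancel_left, mul_inv_cancel, inv_mul_cancel, mul_one, one_mul, inv_one, C]) (by simp only [mul_assoc, mul_inv_rev, inv_inv, mul_inv_cancel_left, inv_mul_cancel_left, mul_inv_cancel, inv_mul_cancel, mul_one, one_mul, inv_one, C])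
  have k24 : o.lt (m * g⁻¹) (g * (m⁻¹ * (Q * f⁻¹))) ↔ o.lt ((g * m⁻¹) * (g * m⁻¹)) ((g * m⁻¹) * (Q * f⁻¹)) := o.cv hδ (g * (m⁻¹ * (g * (m⁻¹ * (g * m⁻¹))))) e11 (by simp only [mul_assoc, mul_inv_rev, inv_inv, mul_inv_cancel_left, inv_mul_cancel_left, mul_inv_cancel, inv_mul_cancel, mul_one, one_mul, inv_one, C]) (by simp only [mul_assoc, mul_inv_rev, inv_inv, mul_inv_cancel_left, inv_mul_cancel_left, mul_inv_cancel, inv_mul_cancel, mul_one, one_mul, inv_one, C])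
  have k25 : o.lt (f * m⁻¹) (g * m⁻¹) ↔ o.lt ((g * m⁻¹) * (g * m⁻¹)⁻¹) ((g * m⁻¹) * (f * m⁻¹)⁻¹) := o.cv hδ (m * f⁻¹) e6 (by simp only [mul_assoc, mul_inv_rev, inv_inv, mul_inv_cancel_left, inv_mul_cancel_left, mul_inv_cancel, inv_mul_cancel, mul_one, one_mul, inv_one, C]) (by simp only [mul_assoc, mul_inv_rev, inv_inv, mul_inv_cancel_left, inv_mul_cancel_left, mul_inv_cancel, inv_mul_cancel, mul_one, one_mul, inv_one, C])
  have k26 : o.lt (P * f⁻¹) (P * g⁻¹) ↔ o.lt (P * f⁻¹) (P * g⁻¹) := o.cv hδ (1) e17 (by simp only [mul_assoc, mul_inv_rev, inv_inv, mul_inv_cancel_left, inv_mul_cancel_left, mul_inv_cancel, inv_mul_cancel, mul_one, one_mul, inv_one, C]) (by simp only [mul_assoc, mul_inv_rev, inv_inv, mul_inv_cancel_left, inv_mul_cancel_left, mul_inv_cancel, inv_mul_cancel, mul_one, one_mul, inv_one, C])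
  have k27 : o.lt (P * g⁻¹) (P * f⁻¹) ↔ o.lt (P * g⁻¹) (P * f⁻¹) := o.cv hδ (1) e21 (by simp only [mul_assoc, mul_inv_rev, inv_inv, mul_inv_cancel_left, inv_mul_cancel_left, mul_inv_cancel, inv_mul_cancel, mul_one, one_mul, inv_one, C]) (by simp only [mul_assoc, mul_inv_rev, inv_inv, mul_inv_cancel_left, inv_mul_cancel_left, mul_inv_cancel, inv_mul_cancel, mul_one, one_mul, inv_one, C])
  have k28 : o.lt (P * f⁻¹) (f * m⁻¹) ↔ o.lt (P * f⁻¹) (f * m⁻¹) := o.cv hδ (1) e18 (by simp only [mul_assoc, mul_inv_rev, inv_inv, mul_inv_cancel_left, inv_mul_cancel_left, mul_inv_cancel, inv_mul_cancel, mul_one, one_mul, inv_one, C]) (by simp only [mul_assoc, mul_inv_rev, inv_inv, mul_inv_cancel_left, inv_mul_cancel_left, mul_inv_cancel, inv_mul_cancel, mul_one, one_mul, inv_one, C])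
  have k29 : o.lt (P * f⁻¹) (g * m⁻¹) ↔ o.lt (P * f⁻¹) (g * m⁻¹) := o.cv hδ (1) e5 (by simp only [mul_assoc, mul_inv_rev, inv_inv, mul_inv_cancel_left, inv_mul_cancel_left, mul_inv_cancel, inv_mul_cancel, mul_one, one_mul, inv_one, C]) (by simp only [mul_assoc, mul_inv_rev, inv_inv, mul_inv_cancel_left, inv_mul_cancel_left, mul_inv_cancel, inv_mul_cancel, mul_one, one_mul, inv_one, C])
  have k30 : o.lt (g * m⁻¹) (f * m⁻¹) ↔ o.lt (g * m⁻¹) (f * m⁻¹) := o.cv hδ (1) e2 (by simp only [mul_assoc, mul_inv_rev, inv_inv, mul_inv_cancel_left, inv_mul_cancel_left, mul_inv_cancel, inv_mul_cancel, mul_one, one_mul, inv_one, C]) (by simp only [mul_assoc, mul_inv_rev, inv_inv, mul_inv_cancel_left, inv_mul_cancel_left, mul_inv_cancel, inv_mul_cancel, mul_one, one_mul, inv_one, C])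
  have k31 : o.lt (g * m⁻¹) (P * f⁻¹) ↔ o.lt (g * m⁻¹) (P * f⁻¹) := o.cv hδ (1) e0 (by simp only [mul_assoc, mul_inv_rev, inv_inv, mul_inv_cancel_left, inv_mul_cancel_left, mul_inv_cancel, inv_mul_cancel, mul_one, one_mul, inv_one, C]) (by simp only [mul_assoc, mul_inv_rev, inv_inv, mul_inv_cancel_left, inv_mul_cancel_left, mul_inv_cancel, inv_mul_cancel, mul_one, one_mul, inv_one, C])
  have k32 : o.lt (P * f⁻¹) (Q * f⁻¹) ↔ o.lt (P * f⁻¹) (Q * f⁻¹) := o.cv hδ (1) e19 (by simp only [mul_assoc, mul_inv_rev, inv_inv, mul_inv_cancel_left, inv_mul_cancel_left, mul_inv_cancel, inv_mul_cancel, mul_one, one_mul, inv_one, C]) (by simp only [mul_assoc, mul_inv_rev, inv_inv, mul_inv_cancel_left, inv_mul_cancel_left, mul_inv_cancel, inv_mul_cancel, mul_one, one_mul, inv_one, C])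
  have k33 : o.lt (Q * f⁻¹) (P * f⁻¹) ↔ o.lt (Q * f⁻¹) (P * f⁻¹) := o.cv hδ (1) e25 (by simp only [mul_assoc, mul_inv_rev, inv_inv, mul_inv_cancel_left, inv_mul_cancel_left, mul_inv_cancel, inv_mul_cancel, mul_one, one_mul, inv_one, C]) (by simp only [mul_assoc, mul_inv_rev, inv_inv, mul_inv_cancel_left, inv_mul_cancel_left, mul_inv_cancel, inv_mul_cancel, mul_one, one_mul, inv_one, C])
  have k34 : o.lt (g * m⁻¹) (Q * f⁻¹) ↔ o.lt (g * m⁻¹) (Q * f⁻¹) := o.cv hδ (1) e13 (by simp only [mul_assoc, mul_inv_rev, inv_inv, mul_inv_cancel_left, inv_mul_cancel_left, mul_inv_cancel, inv_mul_cancel, mul_one, one_mul, inv_one, C]) (by simp only [mul_assoc, mul_inv_rev, inv_inv, mul_inv_cancel_left, inv_mul_cancel_left, mul_inv_cancel, inv_mul_cancel, mul_one, one_mul, inv_one, C])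
  have k35 : o.lt (P * f⁻¹) (m * P⁻¹) ↔ o.lt (P * f⁻¹) (m * P⁻¹) := o.cv hδ (1) e20 (by simp only [mul_assoc, mul_inv_rev, inv_inv, mul_inv_cancel_left, inv_mul_cancel_left, mul_inv_cancel, inv_mul_cancel, mul_one, one_mul, inv_one, C]) (by simp only [mul_assoc, mul_inv_rev, inv_inv, mul_inv_cancel_left, inv_mul_cancel_left, mul_inv_cancel, inv_mul_cancel, mul_one, one_mul, inv_one, C])
  have k36 : o.lt (g * P⁻¹) (m * g⁻¹) ↔ o.lt (P * g⁻¹) (m * P⁻¹) := o.cv hδ (P * (g⁻¹ * (P * g⁻¹))) e4 (by simp only [mul_assoc, mul_inv_rev, inv_inv, mul_inv_cancel_left, inv_mul_cancel_left, mul_inv_cancel, inv_mul_cancel, mul_one, one_mul, inv_one, C]) (by simp only [mul_assoc, mul_inv_rev, inv_inv, mul_inv_cancel_left, inv_mul_cancel_left, mul_inv_cancel, inv_mul_cancel, mul_one, one_mul, inv_one, C])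
  have k37 : o.lt (P * g⁻¹) (g * m⁻¹) ↔ o.lt (P * g⁻¹) (g * m⁻¹) := o.cv hδ (1) e3 (by simp only [mul_assoc, mul_inv_rev, inv_inv, mul_inv_cancel_left, inv_mul_cancel_left, mul_inv_cancel, inv_mul_cancel, mul_one, one_mul, inv_one, C]) (by simp only [mul_assoc, mul_inv_rev, inv_inv, mul_inv_cancel_left, inv_mul_cancel_left, mul_inv_cancel, inv_mul_cancel, mul_one, one_mul, inv_one, C])
  have k38 : o.lt (m * P⁻¹) (P * f⁻¹) ↔ o.lt (m * P⁻¹) (P * f⁻¹) := o.cv hδ (1) e28 (by simp only [mul_assoc, mul_inv_rev, inv_inv, mul_inv_cancel_left, inv_mul_cancel_left, mul_inv_cancel, inv_mul_cancel, mul_one, one_mul, inv_one, C]) (by simp only [mul_assoc, mul_inv_rev, inv_inv, mul_inv_cancel_left, inv_mul_cancel_left, mul_inv_cancel, inv_mul_cancel, mul_one, one_mul, inv_one, C])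
  have k39 : o.lt (g * m⁻¹) (P * g⁻¹) ↔ o.lt (g * m⁻¹) (P * g⁻¹) := o.cv hδ (1) e1 (by simp only [mul_assoc, mul_inv_rev, inv_inv, mul_inv_cancel_left, inv_mul_cancel_left, mul_inv_cancel, inv_mul_cancel, mul_one, one_mul, inv_one, C]) (by simp only [mul_assoc, mul_inv_rev, inv_inv, mul_inv_cancel_left, inv_mul_cancel_left, mul_inv_cancel, inv_mul_cancel, mul_one, one_mul, inv_one, C])
  have k40 : o.lt (f * m⁻¹) (Q * f⁻¹) ↔ o.lt (f * m⁻¹) (Q * f⁻¹) := o.cv hδ (1) e24 (by simp only [mul_assoc, mul_inv_rev, inv_inv, mul_inv_cancel_left, inv_mul_cancel_left, mul_inv_cancel, inv_mul_cancel, mul_one, one_mul, inv_one, C]) (by simp only [mul_assoc, mul_inv_rev, inv_inv, mul_inv_cancel_left, inv_mul_cancel_left, mul_inv_cancel, inv_mul_cancel, mul_one, one_mul, inv_one, C])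
  have k41 : o.lt (f * m⁻¹) (Q * g⁻¹) ↔ o.lt (f * m⁻¹) (Q * g⁻¹) := o.cv hδ (1) e23 (by simp only [mul_assoc, mul_inv_rev, inv_inv, mul_inv_cancel_left, inv_mul_cancel_left, mul_inv_cancel, inv_mul_cancel, mul_one, one_mul, inv_one, C]) (by simp only [mul_assoc, mul_inv_rev, inv_inv, mul_inv_cancel_left, inv_mul_cancel_left, mul_inv_cancel, inv_mul_cancel, mul_one, one_mul, inv_one, C])
  have k42 : o.lt (Q * g⁻¹) (Q * f⁻¹) ↔ o.lt (Q * g⁻¹) (Q * f⁻¹) := o.cv hδ (1) e26 (by simp only [mul_assoc, mul_inv_rev, inv_inv, mul_inv_cancel_left, inv_mul_cancel_left, mul_inv_cancel, inv_mul_cancel, mul_one, one_mul, inv_one, C]) (by simp only [mul_assoc, mul_inv_rev, inv_inv, mul_inv_cancel_left, inv_mul_cancel_left, mul_inv_cancel, inv_mul_cancel, mul_one, one_mul, inv_one, C])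
  have k43 : o.lt (Q * f⁻¹) (Q * g⁻¹) ↔ o.lt (Q * f⁻¹) (Q * g⁻¹) := o.cv hδ (1) e27 (by simp only [mul_assoc, mul_inv_rev, inv_inv, mul_inv_cancel_left, inv_mul_cancel_left, mul_inv_cancel, inv_mul_cancel, mul_one, one_mul, inv_one, C]) (by simp only [mul_assoc, mul_inv_rev, inv_inv, mul_inv_cancel_left, inv_mul_cancel_left, mul_inv_cancel, inv_mul_cancel, mul_one, one_mul, inv_one, C])
  have k44 : o.lt (Q * f⁻¹) (g * m⁻¹) ↔ o.lt (Q * f⁻¹) (g * m⁻¹) := o.cv hδ (1) e7 (by simp only [mul_assoc, mul_inv_rev, inv_inv, mul_inv_cancel_left, inv_mul_cancel_left, mul_inv_cancel, inv_mul_cancel, mul_one, one_mul, inv_one, C]) (by simp only [mul_assoc, mul_inv_rev, inv_inv, mul_inv_cancel_left, inv_mul_cancel_left, mul_inv_cancel, inv_mul_cancel, mul_one, one_mul, inv_one, C])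
  have k45 : o.lt (m * P⁻¹) (P * f⁻¹) ↔ o.lt (m * f⁻¹) (f * P⁻¹) := o.cv hδ (P * f⁻¹) e28 (by simp only [mul_assoc, mul_inv_rev, inv_inv, mul_inv_cancel_left, inv_mul_cancel_left, mul_inv_cancel, inv_mul_cancel, mul_one, one_mul, inv_one, C]) (by simp only [mul_assoc, mul_inv_rev, inv_inv, mul_inv_cancel_left, inv_mul_cancel_left, mul_inv_cancel, inv_mul_cancel, mul_one, one_mul, inv_one, C])
  have k46 : o.lt (m * f⁻¹) (g * Q⁻¹) ↔ o.lt (m * f⁻¹) (g * Q⁻¹) := o.cv hδ (1) e29 (by simp only [mul_assoc, mul_inv_rev, inv_inv, mul_inv_cancel_left, inv_mul_cancel_left, mul_inv_cancel, inv_mul_cancel, mul_one, one_mul, inv_one, C]) (by simp only [mul_assoc, mul_inv_rev, inv_inv, mul_inv_cancel_left, inv_mul_cancel_left, mul_inv_cancel, inv_mul_cancel, mul_one, one_mul, inv_one, C])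
  have k47 : o.lt (g * Q⁻¹) (f * P⁻¹) ↔ o.lt (g * Q⁻¹) (f * P⁻¹) := o.cv hδ (1) e30 (by simp only [mul_assoc, mul_inv_rev, inv_inv, mul_inv_cancel_left, inv_mul_cancel_left, mul_inv_cancel, inv_mul_cancel, mul_one, one_mul, inv_one, C]) (by simp only [mul_assoc, mul_inv_rev, inv_inv, mul_inv_cancel_left, inv_mul_cancel_left, mul_inv_cancel, inv_mul_cancel, mul_one, one_mul, inv_one, C])
  have k48 : o.lt (m * f⁻¹) (m * g⁻¹) ↔ o.lt (m * f⁻¹) (m * g⁻¹) := o.cv hδ (1) e9 (by simp only [mul_assoc, mul_inv_rev, inv_inv, mul_inv_cancel_left, inv_mul_cancel_left, mul_inv_cancel, inv_mul_cancel, mul_one, one_mul, inv_one, C]) (by simp only [mul_assoc, mul_inv_rev, inv_inv, mul_inv_cancel_left, inv_mul_cancel_left, mul_inv_cancel, inv_mul_cancel, mul_one, one_mul, inv_one, C])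
  have k49 : o.lt (m * g⁻¹) (m * f⁻¹) ↔ o.lt (m * g⁻¹) (m * f⁻¹) := o.cv hδ (1) e16 (by simp only [mul_assoc, mul_inv_rev, inv_inv, mul_inv_cancel_left, inv_mul_cancel_left, mul_inv_cancel, inv_mul_cancel, mul_one, one_mul, inv_one, C]) (by simp only [mul_assoc, mul_inv_rev, inv_inv, mul_inv_cancel_left, inv_mul_cancel_left, mul_inv_cancel, inv_mul_cancel, mul_one, one_mul, inv_one, C])
  have k50 : o.lt (f * m⁻¹) (P * f⁻¹) ↔ o.lt (m * f⁻¹) (P * m⁻¹) := o.cv hδ (m * (f⁻¹ * (m * f⁻¹))) e22 (by simp only [mul_assoc, mul_inv_rev, inv_inv, mul_inv_cancel_left, inv_mul_cancel_left, mul_inv_cancel, inv_mul_cancel, mul_one, one_mul, inv_one, C]) (by simp only [mul_assoc, mul_inv_rev, inv_inv, mul_inv_cancel_left, inv_mul_cancel_left, mul_inv_cancel, inv_mul_cancel, mul_one, one_mul, inv_one, C])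
  have k51 : o.lt (g * m⁻¹) (P * g⁻¹) ↔ o.lt (m * g⁻¹) (P * m⁻¹) := o.cv hδ (m * (g⁻¹ * (m * g⁻¹))) e1 (by simp only [mul_assoc, mul_inv_rev, inv_inv, mul_inv_cancel_left, inv_mul_cancel_left, mul_inv_cancel, inv_mul_cancel, mul_one, one_mul, inv_one, C]) (by simp only [mul_assoc, mul_inv_rev, inv_inv, mul_inv_cancel_left, inv_mul_cancel_left, mul_inv_cancel, inv_mul_cancel, mul_one, one_mul, inv_one, C])
  have k52 : o.lt (m * g⁻¹) (f * P⁻¹) ↔ o.lt (m * g⁻¹) (f * P⁻¹) := o.cv hδ (1) e15 (by simp only [mul_assoc, mul_inv_rev, inv_inv, mul_inv_cancel_left, inv_mul_cancel_left, mul_inv_cancel, inv_mul_cancel, mul_one, one_mul, inv_one, C]) (by simp only [mul_assoc, mul_inv_rev, inv_inv, mul_inv_cancel_left, inv_mul_cancel_left, mul_inv_cancel, inv_mul_cancel, mul_one, one_mul, inv_one, C])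
  have k53 : o.lt (P * f⁻¹) (m * P⁻¹) ↔ o.lt (f * P⁻¹) (m * f⁻¹) := o.cv hδ (f * (P⁻¹ * (f * P⁻¹))) e20 (by simp only [mul_assoc, mul_inv_rev, inv_inv, mul_inv_cancel_left, inv_mul_cancel_left, mul_inv_cancel, inv_mul_cancel, mul_one, one_mul, inv_one, C]) (by simp only [mul_assoc, mul_inv_rev, inv_inv, mul_inv_cancel_left, inv_mul_cancel_left, mul_inv_cancel, inv_mul_cancel, mul_one, one_mul, inv_one, C])
  have k54 : o.lt (g * m⁻¹) (f * m⁻¹) ↔ o.lt (g * Q⁻¹) (f * Q⁻¹) := o.cv hδ (m * Q⁻¹) e2 (by simp only [mul_assoc, mul_inv_rev, inv_inv, mul_inv_cancel_left, inv_mul_cancel_left, mul_inv_cancel, inv_mul_cancel, mul_one, one_mul, inv_one, C]) (by simp only [mul_assoc, mul_inv_rev, inv_inv, mul_inv_cancel_left, inv_mul_cancel_left, mul_inv_cancel, inv_mul_cancel, mul_one, one_mul, inv_one, C])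
  have k55 : o.lt (f * Q⁻¹) (f * P⁻¹) ↔ o.lt (f * Q⁻¹) (f * P⁻¹) := o.cv hδ (1) e31 (by simp only [mul_assoc, mul_inv_rev, inv_inv, mul_inv_cancel_left, inv_mul_cancel_left, mul_inv_cancel, inv_mul_cancel, mul_one, one_mul, inv_one, C]) (by simp only [mul_assoc, mul_inv_rev, inv_inv, mul_inv_cancel_left, inv_mul_cancel_left, mul_inv_cancel, inv_mul_cancel, mul_one, one_mul, inv_one, C])
  have k56 : o.lt (f * Q⁻¹) (g * P⁻¹) ↔ o.lt (f * Q⁻¹) (g * P⁻¹) := o.cv hδ (1) e32 (by simp only [mul_assoc, mul_inv_rev, inv_inv, mul_inv_cancel_left, inv_mul_cancel_left, mul_inv_cancel, inv_mul_cancel, mul_one, one_mul, inv_one, C]) (by simp only [mul_assoc, mul_inv_rev, inv_inv, mul_inv_cancel_left, inv_mul_cancel_left, mul_inv_cancel, inv_mul_cancel, mul_one, one_mul, inv_one, C])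
  have k57 : o.lt (g * m⁻¹) (f * m⁻¹) ↔ o.lt (g * P⁻¹) (f * P⁻¹) := o.cv hδ (m * P⁻¹) e2 (by simp only [mul_assoc, mul_inv_rev, inv_inv, mul_inv_cancel_left, inv_mul_cancel_left, mul_inv_cancel, inv_mul_cancel, mul_one, one_mul, inv_one, C]) (by simp only [mul_assoc, mul_inv_rev, inv_inv, mul_inv_cancel_left, inv_mul_cancel_left, mul_inv_cancel, inv_mul_cancel, mul_one, one_mul, inv_one, C])
  have k58 : o.lt (f * Q⁻¹) (m * g⁻¹) ↔ o.lt (f * Q⁻¹) (m * g⁻¹) := o.cv hδ (1) e12 (by simp only [mul_assoc, mul_inv_rev, inv_inv, mul_inv_cancel_left, inv_mul_cancel_left, mul_inv_cancel, inv_mul_cancel, mul_one, one_mul, inv_one, C]) (by simp only [mul_assoc, mul_inv_rev, inv_inv, mul_inv_cancel_left, inv_mul_cancel_left, mul_inv_cancel, inv_mul_cancel, mul_one, one_mul, inv_one, C])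
  have k59 : o.lt (f * P⁻¹) (m * g⁻¹) ↔ o.lt (f * P⁻¹) (m * g⁻¹) := o.cv hδ (1) e8 (by simp only [mul_assoc, mul_inv_rev, inv_inv, mul_inv_cancel_left, inv_mul_cancel_left, mul_inv_cancel, inv_mul_cancel, mul_one, one_mul, inv_one, C]) (by simp only [mul_assoc, mul_inv_rev, inv_inv, mul_inv_cancel_left, inv_mul_cancel_left, mul_inv_cancel, inv_mul_cancel, mul_one, one_mul, inv_one, C])
  have k60 : o.lt (g * P⁻¹) (m * g⁻¹) ↔ o.lt (g * P⁻¹) (m * g⁻¹) := o.cv hδ (1) e4 (by simp only [mul_assoc, mul_inv_rev, inv_inv, mul_inv_cancel_left, inv_mul_cancel_left, mul_inv_cancel, inv_mul_cancel, mul_one, one_mul, inv_one, C]) (by simp only [mul_assoc, mul_inv_rev, inv_inv, mul_inv_cancel_left, inv_mul_cancel_left, mul_inv_cancel, inv_mul_cancel, mul_one, one_mul, inv_one, C])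
  have k61 : o.lt (m * g⁻¹) (g * (m⁻¹ * (f * m⁻¹))) ↔ o.lt (m * g⁻¹) (g * (m⁻¹ * (f * m⁻¹))) := o.cv hδ (1) e10 (by simp only [mul_assoc, mul_inv_rev, inv_inv, mul_inv_cancel_left, inv_mul_cancel_left, mul_inv_cancel, inv_mul_cancel, mul_one, one_mul, inv_one, C]) (by simp only [mul_assoc, mul_inv_rev, inv_inv, mul_inv_cancel_left, inv_mul_cancel_left, mul_inv_cancel, inv_mul_cancel, mul_one, one_mul, inv_one, C])
  have k62 : o.lt (g * m⁻¹) (f * m⁻¹) ↔ o.lt (g * (m⁻¹ * (f * m⁻¹))) (m * f⁻¹) := o.cv hδ (f * m⁻¹) e2 (by simp only [mul_assoc, mul_inv_rev, inv_inv, mul_inv_cancel_left, inv_mul_cancel_left, mul_inv_cancel, inv_mul_cancel, mul_one, one_mul, inv_one, C]) (by simp only [mul_assoc, mul_inv_rev, inv_inv, mul_inv_cancel_left, inv_mul_cancel_left, mul_inv_cancel, inv_mul_cancel, mul_one, one_mul, inv_one, C])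
  have k63 : o.lt (Q * f⁻¹) (g * m⁻¹) ↔ o.lt (f * Q⁻¹) (g * (m⁻¹ * (Q * f⁻¹))) := o.cv hδ (f * (Q⁻¹ * (f * Q⁻¹))) e7 (by simp only [mul_assoc, mul_inv_rev, inv_inv, mul_inv_cancel_left, inv_mul_cancel_left, mul_inv_cancel, inv_mul_cancel, mul_one, one_mul, inv_one, C]) (by simp only [mul_assoc, mul_inv_rev, inv_inv, mul_inv_cancel_left, inv_mul_cancel_left, mul_inv_cancel, inv_mul_cancel, mul_one, one_mul, inv_one, C])
  have k64 : o.lt (g * (m⁻¹ * (Q * f⁻¹))) (m * g⁻¹) ↔ o.lt (g * (m⁻¹ * (Q * f⁻¹))) (m * g⁻¹) := o.cv hδ (1) e14 (by simp only [mul_assoc, mul_inv_rev, inv_inv, mul_inv_cancel_left, inv_mul_cancel_left, mul_inv_cancel, inv_mul_cancel, mul_one, one_mul, inv_one, C]) (by simp only [mul_assoc, mul_inv_rev, inv_inv, mul_inv_cancel_left, inv_mul_cancel_left, mul_inv_cancel, inv_mul_cancel, mul_one, one_mul, inv_one, C])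
  have k65 : o.lt (m * g⁻¹) (g * (m⁻¹ * (Q * f⁻¹))) ↔ o.lt (m * g⁻¹) (g * (m⁻¹ * (Q * f⁻¹))) := o.cv hδ (1) e11 (by simp only [mul_assoc, mul_inv_rev, inv_inv, mul_inv_cancel_left, inv_mul_cancel_left, mul_inv_cancel, inv_mul_cancel, mul_one, one_mul, inv_one, C]) (by simp only [mul_assoc, mul_inv_rev, inv_inv, mul_inv_cancel_left, inv_mul_cancel_left, mul_inv_cancel, inv_mul_cancel, mul_one, one_mul, inv_one, C])
  have k66 : o.lt (g * m⁻¹) (f * m⁻¹) ↔ o.lt ((P * g⁻¹)⁻¹) ((P * f⁻¹)⁻¹) := o.cv hδ (m * P⁻¹) e2 (by simp only [mul_assoc, mul_inv_rev, inv_inv, mul_inv_cancel_left, inv_mul_cancel_left, mul_inv_cancel, inv_mul_cancel, mul_one, one_mul, inv_one, C]) (by simp only [mul_assoc, mul_inv_rev, inv_inv, mul_inv_cancel_left, inv_mul_cancel_left, mul_inv_cancel, inv_mul_cancel, mul_one, one_mul, inv_one, C])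
  have k67 : o.lt (f * Q⁻¹) (g * P⁻¹) ↔ o.lt ((Q * f⁻¹)⁻¹) ((P * g⁻¹)⁻¹) := o.cv hδ (1) e32 (by simp only [mul_assoc, mul_inv_rev, inv_inv, mul_inv_cancel_left, inv_mul_cancel_left, mul_inv_cancel, inv_mul_cancel, mul_one, one_mul, inv_one, C]) (by simp only [mul_assoc, mul_inv_rev, inv_inv, mul_inv_cancel_left, inv_mul_cancel_left, mul_inv_cancel, inv_mul_cancel, mul_one, one_mul, inv_one, C])
  exact ser_ACE_0_prop
    (fun b0 b1 b2 => N0.r.r0 1 (fun h => b0 (k0.2 h)) (k1.1 b1) (fun h => b2 (k2.2 h)))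
    (fun b0 b1 b2 => N0.rd.r0 1 (fun h => b0 (k3.2 h)) (k4.1 b1) (fun h => b2 (k5.2 h)))
    (fun b0 b1 b2 => N0.i.r0 1 (fun h => b0 (k6.2 h)) (k7.1 b1) (fun h => b2 (k8.2 h)))
    (fun b0 b1 b2 => N0.i.r1 1 (fun h => b0 (k9.2 h)) (fun h => b1 (k10.2 h)) (k8.1 b2))
    (fun b0 b1 b2 b3 => N1.d.r1 1 (k11.1 b0) (fun h => b1 (k12.2 h)) (fun h => b2 (k13.2 h)) (fun h => b3 (k14.2 h)))
    (fun b0 b1 b2 => N1.r.r0 1 (k15.1 b0) (fun h => b1 (k16.2 h)) (fun h => b2 (k17.2 h)))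
    (fun b0 b1 b2 b3 => N1.d.r2 1 (fun h => b0 (k18.2 h)) (k19.1 b1) (fun h => b2 (k20.2 h)) (fun h => b3 (k14.2 h)))
    (fun b0 b1 b2 => N1.d.r0 1 (k12.1 b0) (fun h => b1 (k20.2 h)) (fun h => b2 (k21.2 h)))
    (fun b0 b1 b2 b3 => N1.r.r2 1 (fun h => b0 (k3.2 h)) (k22.1 b1) (fun h => b2 (k16.2 h)) (fun h => b3 (k14.2 h)))
    (fun b0 b1 b2 => N1.i.r0 (g * m⁻¹) (k23.1 b0) (fun h => b1 (k24.2 h)) (fun h => b2 (k25.2 h)))
    (fun b0 b1 => o.asym (k26.1 b0) (k27.1 b1))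
    (fun b0 b1 b2 => o.tri (k28.1 b0) (fun h => b1 (k29.2 h)) (fun h => b2 (k30.2 h)))
    (fun b0 b1 => o.asym (k29.1 b0) (k31.1 b1))
    (fun b0 b1 => o.asym (k32.1 b0) (k33.1 b1))
    (fun b0 b1 b2 => o.tri (k32.1 b0) (fun h => b1 (k29.2 h)) (fun h => b2 (k34.2 h)))
    (fun b0 b1 b2 => o.tri (k35.1 b0) (fun h => b1 (k26.2 h)) (fun h => b2 (k36.2 h)))
    (fun b0 b1 b2 => o.tri (k27.1 b0) (fun h => b1 (k37.2 h)) (fun h => b2 (k31.2 h)))
    (fun b0 b1 b2 => o.tri (k27.1 b0) (fun h => b1 (k36.2 h)) (fun h => b2 (k38.2 h)))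
    (fun b0 b1 => o.asym (k37.1 b0) (k39.1 b1))
    (fun b0 b1 b2 => o.tri (k40.1 b0) (fun h => b1 (k41.2 h)) (fun h => b2 (k42.2 h)))
    (fun b0 b1 b2 => o.tri (k34.1 b0) (fun h => b1 (k30.2 h)) (fun h => b2 (k40.2 h)))
    (fun b0 b1 => o.asym (k42.1 b0) (k43.1 b1))
    (fun b0 b1 b2 => o.tri (k44.1 b0) (fun h => b1 (k33.2 h)) (fun h => b2 (k29.2 h)))
    (fun b0 b1 b2 => o.tri (k45.1 b0) (fun h => b1 (k46.2 h)) (fun h => b2 (k47.2 h)))
    (fun b0 b1 => o.asym (k48.1 b0) (k49.1 b1))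
    (fun b0 b1 b2 => o.tri (k50.1 b0) (fun h => b1 (k48.2 h)) (fun h => b2 (k51.2 h)))
    (fun b0 b1 b2 => o.tri (k49.1 b0) (fun h => b1 (k52.2 h)) (fun h => b2 (k53.2 h)))
    (fun b0 b1 b2 => o.tri (k47.1 b0) (fun h => b1 (k54.2 h)) (fun h => b2 (k55.2 h)))
    (fun b0 b1 b2 => o.tri (k55.1 b0) (fun h => b1 (k56.2 h)) (fun h => b2 (k57.2 h)))
    (fun b0 b1 b2 => o.tri (k58.1 b0) (fun h => b1 (k55.2 h)) (fun h => b2 (k59.2 h)))
    (fun b0 b1 b2 => o.tri (k58.1 b0) (fun h => b1 (k56.2 h)) (fun h => b2 (k60.2 h)))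
    (fun b0 b1 b2 => o.tri (k49.1 b0) (fun h => b1 (k61.2 h)) (fun h => b2 (k62.2 h)))
    (fun b0 b1 b2 => o.tri (k58.1 b0) (fun h => b1 (k63.2 h)) (fun h => b2 (k64.2 h)))
    (fun b0 b1 => o.asym (k65.1 b0) (k64.1 b1))
    (k32.2 g0)
    (fun h => g1 (k66.1 h))
    (fun h => g2 (k67.1 h))

theorem ser_ACE_1_prop {A1 A2 A3 A4 A5 A6 A7 A8 A9 A10 A11 A12 A13 A14 A15 A16 A17 A18 A19 A20 : Prop}
    (c0 : ¬ A18 → A16 → ¬ A19 → False)
    (c1 : ¬ A12 → ¬ A20 → A19 → False)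
    (c2 : ¬ A1 → A14 → ¬ A9 → ¬ A12 → False)
    (c3 : ¬ A5 → A8 → ¬ A7 → False)
    (c4 : ¬ A1 → ¬ A2 → A7 → False)
    (c5 : A15 → A18 → False)
    (c6 : A16 → A20 → False)
    (c7 : A17 → ¬ A15 → ¬ A19 → False)
    (c8 : A11 → ¬ A12 → ¬ A14 → False)
    (c9 : A10 → A9 → False)
    (c10 : A1 → A4 → False)
    (c11 : A9 → ¬ A3 → ¬ A16 → False)
    (c12 : A4 → ¬ A9 → ¬ A11 → False)
    (c13 : A13 → ¬ A3 → ¬ A17 → False)
    (c14 : A2 → ¬ A3 → ¬ A10 → False)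
    (c15 : A5 → ¬ A6 → ¬ A10 → False)
    (c16 : A6 → ¬ A7 → ¬ A13 → False)
    (c17 : A9 → ¬ A8 → ¬ A3 → False)
    (u0 : ¬ A3)
    (u1 : A4)
    (u2 : ¬ A12)
    : False := by
  have q1 : ¬ A1 := fun h => c10 h u1
  rcases Classical.em A9 with q2 | q2
  · have q3 : ¬ A10 := fun h => c9 h q2
    have q4 : A16 := Classical.byContradiction fun h => c11 q2 u0 h
    have q5 : ¬ A20 := fun h => c6 q4 h
    have q6 : ¬ A19 := fun h => c1 u2 q5 h
    have q7 : A18 := Classical.byContradiction fun h => c0 h q4 q6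
    have q8 : ¬ A15 := fun h => c5 h q7
    have q9 : ¬ A17 := fun h => c7 h q8 q6
    have q10 : ¬ A13 := fun h => c13 h u0 q9
    have q11 : ¬ A2 := fun h => c14 h u0 q3
    have q12 : ¬ A7 := fun h => c4 q1 q11 h
    have q13 : ¬ A6 := fun h => c16 h q12 q10
    have q14 : ¬ A5 := fun h => c15 h q13 q3
    have q15 : ¬ A8 := fun h => c3 q14 h q12
    exact c17 q2 q15 u0
  · have q16 : ¬ A14 := fun h => c2 q1 h q2 u2
    have q17 : ¬ A11 := fun h => c8 h u2 q16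
    exact c12 u1 q2 q17

theorem ser_ACE_1 {G : Type*} [Group G] {δ : G → ZMod 3} (hδ : ∀ u v, δ (u * v) = δ u + δ v) (o : Pre δ)
    {P m Q f g : G} {e : ZMod 3} (h3 : 3 * e = 0)
    (D : δ P = e ∧ δ m = -e ∧ δ Q = e ∧ δ f = 0 ∧ δ g = 0)
    (C : Cube P f ∧ Cube P g ∧ Cube m f ∧ Cube m g ∧ Cube Q f ∧ Cube Q g)
    (N0 : RA o P m f g)
    (N1 : RC o Q m g f)
    (g0 : ¬ o.lt (Q * f⁻¹) (P * f⁻¹)) (g1 : o.lt (Q * f⁻¹) (Q * g⁻¹)) (g2 : ¬ o.lt ((P * g⁻¹)⁻¹) ((P * f⁻¹)⁻¹)) : False := by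
  simp only [Cube] at C
  have e0 : δ (Q * g⁻¹) = δ (Q * f⁻¹) := by simp only [hδ, δinv hδ, δone hδ, D] <;> linear_combination (0) * h3
  have e1 : δ (Q * P⁻¹) = δ (Q * (f⁻¹ * (m * g⁻¹))) := by simp only [hδ, δinv hδ, δone hδ, D] <;> linear_combination (0) * h3
  have e2 : δ (Q * f⁻¹) = δ (P * f⁻¹) := by simp only [hδ, δinv hδ, δone hδ, D] <;> linear_combination (0) * h3
  have e3 : δ (Q * f⁻¹) = δ (Q * g⁻¹) := by simp only [hδ, δinv hδ, δone hδ, D] <;> linear_combination (0) * h3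
  have e4 : δ (Q * (m⁻¹ * (f * m⁻¹))) = δ (Q * (f⁻¹ * (m * g⁻¹))) := by simp only [hδ, δinv hδ, δone hδ, D] <;> linear_combination (1) * h3
  have e5 : δ (Q * (m⁻¹ * (f * m⁻¹))) = δ (1) := by simp only [hδ, δinv hδ, δone hδ, D] <;> linear_combination (1) * h3
  have e6 : δ (Q * m⁻¹) = δ (Q * (P⁻¹ * (f * P⁻¹))) := by simp only [hδ, δinv hδ, δone hδ, D] <;> linear_combination (1) * h3
  have e7 : δ (Q * (f⁻¹ * (m * g⁻¹))) = δ (Q * P⁻¹) := by simp only [hδ, δinv hδ, δone hδ, D] <;> linear_combination (0) * h3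
  have e8 : δ (Q * f⁻¹) = δ (g * m⁻¹) := by simp only [hδ, δinv hδ, δone hδ, D] <;> linear_combination (0) * h3
  have e9 : δ (g * m⁻¹) = δ (Q * f⁻¹) := by simp only [hδ, δinv hδ, δone hδ, D] <;> linear_combination (0) * h3
  have e10 : δ (g * m⁻¹) = δ (Q * g⁻¹) := by simp only [hδ, δinv hδ, δone hδ, D] <;> linear_combination (0) * h3
  have e11 : δ (g * m⁻¹) = δ (f * m⁻¹) := by simp only [hδ, δinv hδ, δone hδ, D] <;> linear_combination (0) * h3
  have e12 : δ (Q * f⁻¹) = δ (m * P⁻¹) := by simp only [hδ, δinv hδ, δone hδ, D] <;> linear_combination (1) * h3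
  have e13 : δ (f * m⁻¹) = δ (Q * g⁻¹) := by simp only [hδ, δinv hδ, δone hδ, D] <;> linear_combination (0) * h3
  have e14 : δ (P * f⁻¹) = δ (P * g⁻¹) := by simp only [hδ, δinv hδ, δone hδ, D] <;> linear_combination (0) * h3
  have e15 : δ (P * f⁻¹) = δ (g * m⁻¹) := by simp only [hδ, δinv hδ, δone hδ, D] <;> linear_combination (0) * h3
  have e16 : δ (P * f⁻¹) = δ (m * P⁻¹) := by simp only [hδ, δinv hδ, δone hδ, D] <;> linear_combination (1) * h3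
  have e17 : δ (P * g⁻¹) = δ (P * f⁻¹) := by simp only [hδ, δinv hδ, δone hδ, D] <;> linear_combination (0) * h3
  have e18 : δ (g * P⁻¹) = δ (m * g⁻¹) := by simp only [hδ, δinv hδ, δone hδ, D] <;> linear_combination (0) * h3
  have e19 : δ (g * m⁻¹) = δ (P * f⁻¹) := by simp only [hδ, δinv hδ, δone hδ, D] <;> linear_combination (0) * h3
  have k0 : o.lt (P * g⁻¹) (P * f⁻¹) ↔ o.lt (1 * (P * g⁻¹)) (1 * (P * f⁻¹)) := o.cv hδ (1) e17 (by simp only [mul_assoc, mul_inv_rev, inv_inv, mul_inv_cancel_left, inv_mul_cancel_left, mul_inv_cancel, inv_mul_cancel, mul_one, one_mul, inv_one, C]) (by simp only [mul_assoc, mul_inv_rev, inv_inv, mul_inv_cancel_left, inv_mul_cancel_left, mul_inv_cancel, inv_mul_cancel, mul_one, one_mul, inv_one, C])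
  have k1 : o.lt (P * f⁻¹) (g * m⁻¹) ↔ o.lt (1 * (P * f⁻¹)) (1 * (g * m⁻¹)) := o.cv hδ (1) e15 (by simp only [mul_assoc, mul_inv_rev, inv_inv, mul_inv_cancel_left, inv_mul_cancel_left, mul_inv_cancel, inv_mul_cancel, mul_one, one_mul, inv_one, C]) (by simp only [mul_assoc, mul_inv_rev, inv_inv, mul_inv_cancel_left, inv_mul_cancel_left, mul_inv_cancel, inv_mul_cancel, mul_one, one_mul, inv_one, C])
  have k2 : o.lt (g * P⁻¹) (m * g⁻¹) ↔ o.lt (1 * (P * g⁻¹)⁻¹) (1 * (g * m⁻¹)⁻¹) := o.cv hδ (1) e18 (by simp only [mul_assoc, mul_inv_rev, inv_inv, mul_inv_cancel_left, inv_mul_cancel_left, mul_inv_cancel, inv_mul_cancel, mul_one, one_mul, inv_one, C]) (by simp only [mul_assoc, mul_inv_rev, inv_inv, mul_inv_cancel_left, inv_mul_cancel_left, mul_inv_cancel, inv_mul_cancel, mul_one, one_mul, inv_one, C])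
  have k3 : o.lt (g * m⁻¹) (f * m⁻¹) ↔ o.lt (1 * (g * m⁻¹)) (1 * (f * m⁻¹)) := o.cv hδ (1) e11 (by simp only [mul_assoc, mul_inv_rev, inv_inv, mul_inv_cancel_left, inv_mul_cancel_left, mul_inv_cancel, inv_mul_cancel, mul_one, one_mul, inv_one, C]) (by simp only [mul_assoc, mul_inv_rev, inv_inv, mul_inv_cancel_left, inv_mul_cancel_left, mul_inv_cancel, inv_mul_cancel, mul_one, one_mul, inv_one, C])
  have k4 : o.lt (g * m⁻¹) (P * f⁻¹) ↔ o.lt (1 * (g * m⁻¹)) (1 * (P * f⁻¹)) := o.cv hδ (1) e19 (by simp only [mul_assoc, mul_inv_rev, inv_inv, mul_inv_cancel_left, inv_mul_cancel_left, mul_inv_cancel, inv_mul_cancel, mul_one, one_mul, inv_one, C]) (by simp only [mul_assoc, mul_inv_rev, inv_inv, mul_inv_cancel_left, inv_mul_cancel_left, mul_inv_cancel, inv_mul_cancel, mul_one, one_mul, inv_one, C])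
  have k5 : o.lt (Q * g⁻¹) (Q * f⁻¹) ↔ o.lt (1 * (Q * g⁻¹)) (1 * (Q * f⁻¹)) := o.cv hδ (1) e0 (by simp only [mul_assoc, mul_inv_rev, inv_inv, mul_inv_cancel_left, inv_mul_cancel_left, mul_inv_cancel, inv_mul_cancel, mul_one, one_mul, inv_one, C]) (by simp only [mul_assoc, mul_inv_rev, inv_inv, mul_inv_cancel_left, inv_mul_cancel_left, mul_inv_cancel, inv_mul_cancel, mul_one, one_mul, inv_one, C])
  have k6 : o.lt (f * m⁻¹) (Q * g⁻¹) ↔ o.lt (1 * (f * m⁻¹)) (1 * (Q * g⁻¹)) := o.cv hδ (1) e13 (by simp only [mul_assoc, mul_inv_rev, inv_inv, mul_inv_cancel_left, inv_mul_cancel_left, mul_inv_cancel, inv_mul_cancel, mul_one, one_mul, inv_one, C]) (by simp only [mul_assoc, mul_inv_rev, inv_inv, mul_inv_cancel_left, inv_mul_cancel_left, mul_inv_cancel, inv_mul_cancel, mul_one, one_mul, inv_one, C])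
  have k7 : o.lt (Q * f⁻¹) (g * m⁻¹) ↔ o.lt (1 * (Q * f⁻¹)) (1 * (g * m⁻¹)) := o.cv hδ (1) e8 (by simp only [mul_assoc, mul_inv_rev, inv_inv, mul_inv_cancel_left, inv_mul_cancel_left, mul_inv_cancel, inv_mul_cancel, mul_one, one_mul, inv_one, C]) (by simp only [mul_assoc, mul_inv_rev, inv_inv, mul_inv_cancel_left, inv_mul_cancel_left, mul_inv_cancel, inv_mul_cancel, mul_one, one_mul, inv_one, C])
  have k8 : o.lt (g * m⁻¹) (f * m⁻¹) ↔ o.lt (1 * g) (1 * f) := o.cv hδ (m) e11 (by simp only [mul_assoc, mul_inv_rev, inv_inv, mul_inv_cancel_left, inv_mul_cancel_left, mul_inv_cancel, inv_mul_cancel, mul_one, one_mul, inv_one, C]) (by simp only [mul_assoc, mul_inv_rev, inv_inv, mul_inv_cancel_left, inv_mul_cancel_left, mul_inv_cancel, inv_mul_cancel, mul_one, one_mul, inv_one, C])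
  have k9 : o.lt (Q * (m⁻¹ * (f * m⁻¹))) (Q * (f⁻¹ * (m * g⁻¹))) ↔ o.lt ((Q * f⁻¹) * (m * f⁻¹)) ((Q * f⁻¹) * (m * g⁻¹)) := o.cv hδ (m * (f⁻¹ * (m * (f⁻¹ * (m * f⁻¹))))) e4 (by simp only [mul_assoc, mul_inv_rev, inv_inv, mul_inv_cancel_left, inv_mul_cancel_left, mul_inv_cancel, inv_mul_cancel, mul_one, one_mul, inv_one, C]) (by simp only [mul_assoc, mul_inv_rev, inv_inv, mul_inv_cancel_left, inv_mul_cancel_left, mul_inv_cancel, inv_mul_cancel, mul_one, one_mul, inv_one, C])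
  have k10 : o.lt (Q * (f⁻¹ * (m * g⁻¹))) (Q * P⁻¹) ↔ o.lt ((Q * f⁻¹) * (m * g⁻¹)) ((Q * f⁻¹) * (f * P⁻¹)) := o.cv hδ (1) e7 (by simp only [mul_assoc, mul_inv_rev, inv_inv, mul_inv_cancel_left, inv_mul_cancel_left, mul_inv_cancel, inv_mul_cancel, mul_one, one_mul, inv_one, C]) (by simp only [mul_assoc, mul_inv_rev, inv_inv, mul_inv_cancel_left, inv_mul_cancel_left, mul_inv_cancel, inv_mul_cancel, mul_one, one_mul, inv_one, C])
  have k11 : o.lt (Q * m⁻¹) (Q * (P⁻¹ * (f * P⁻¹))) ↔ o.lt ((Q * f⁻¹) * (m * f⁻¹)⁻¹) ((Q * f⁻¹) * (f * P⁻¹)⁻¹) := o.cv hδ (1) e6 (by simp only [mul_assoc, mul_inv_rev, inv_inv, mul_inv_cancel_left, inv_mul_cancel_left, mul_inv_cancel, inv_mul_cancel, mul_one, one_mul, inv_one, C]) (by simp only [mul_assoc, mul_inv_rev, inv_inv, mul_inv_cancel_left, inv_mul_cancel_left, mul_inv_cancel, inv_mul_cancel, mul_one, one_mul, inv_one, C])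
  have k12 : o.lt (Q * g⁻¹) (Q * f⁻¹) ↔ o.lt ((Q * f⁻¹) * (f * P⁻¹)) ((Q * f⁻¹) * (g * P⁻¹)) := o.cv hδ (g * P⁻¹) e0 (by simp only [mul_assoc, mul_inv_rev, inv_inv, mul_inv_cancel_left, inv_mul_cancel_left, mul_inv_cancel, inv_mul_cancel, mul_one, one_mul, inv_one, C]) (by simp only [mul_assoc, mul_inv_rev, inv_inv, mul_inv_cancel_left, inv_mul_cancel_left, mul_inv_cancel, inv_mul_cancel, mul_one, one_mul, inv_one, C])
  have k13 : o.lt (Q * P⁻¹) (Q * (f⁻¹ * (m * g⁻¹))) ↔ o.lt ((Q * f⁻¹) * (f * P⁻¹)) ((Q * f⁻¹) * (m * g⁻¹)) := o.cv hδ (1) e1 (by simp only [mul_assoc, mul_inv_rev, inv_inv, mul_inv_cancel_left, inv_mul_cancel_left, mul_inv_cancel, inv_mul_cancel, mul_one, one_mul, inv_one, C]) (by simp only [mul_assoc, mul_inv_rev, inv_inv, mul_inv_cancel_left, inv_mul_cancel_left, mul_inv_cancel, inv_mul_cancel, mul_one, one_mul, inv_one, C])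
  have k14 : o.lt (P * f⁻¹) (P * g⁻¹) ↔ o.lt (P * f⁻¹) (P * g⁻¹) := o.cv hδ (1) e14 (by simp only [mul_assoc, mul_inv_rev, inv_inv, mul_inv_cancel_left, inv_mul_cancel_left, mul_inv_cancel, inv_mul_cancel, mul_one, one_mul, inv_one, C]) (by simp only [mul_assoc, mul_inv_rev, inv_inv, mul_inv_cancel_left, inv_mul_cancel_left, mul_inv_cancel, inv_mul_cancel, mul_one, one_mul, inv_one, C])
  have k15 : o.lt (P * g⁻¹) (P * f⁻¹) ↔ o.lt (P * g⁻¹) (P * f⁻¹) := o.cv hδ (1) e17 (by simp only [mul_assoc, mul_inv_rev, inv_inv, mul_inv_cancel_left, inv_mul_cancel_left, mul_inv_cancel, inv_mul_cancel, mul_one, one_mul, inv_one, C]) (by simp only [mul_assoc, mul_inv_rev, inv_inv, mul_inv_cancel_left, inv_mul_cancel_left, mul_inv_cancel, inv_mul_cancel, mul_one, one_mul, inv_one, C])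
  have k16 : o.lt (P * f⁻¹) (g * m⁻¹) ↔ o.lt (P * f⁻¹) (g * m⁻¹) := o.cv hδ (1) e15 (by simp only [mul_assoc, mul_inv_rev, inv_inv, mul_inv_cancel_left, inv_mul_cancel_left, mul_inv_cancel, inv_mul_cancel, mul_one, one_mul, inv_one, C]) (by simp only [mul_assoc, mul_inv_rev, inv_inv, mul_inv_cancel_left, inv_mul_cancel_left, mul_inv_cancel, inv_mul_cancel, mul_one, one_mul, inv_one, C])
  have k17 : o.lt (g * m⁻¹) (P * f⁻¹) ↔ o.lt (g * m⁻¹) (P * f⁻¹) := o.cv hδ (1) e19 (by simp only [mul_assoc, mul_inv_rev, inv_inv, mul_inv_cancel_left, inv_mul_cancel_left, mul_inv_cancel, inv_mul_cancel, mul_one, one_mul, inv_one, C]) (by simp only [mul_assoc, mul_inv_rev, inv_inv, mul_inv_cancel_left, inv_mul_cancel_left, mul_inv_cancel, inv_mul_cancel, mul_one, one_mul, inv_one, C])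
  have k18 : o.lt (P * f⁻¹) (m * P⁻¹) ↔ o.lt (P * f⁻¹) (m * P⁻¹) := o.cv hδ (1) e16 (by simp only [mul_assoc, mul_inv_rev, inv_inv, mul_inv_cancel_left, inv_mul_cancel_left, mul_inv_cancel, inv_mul_cancel, mul_one, one_mul, inv_one, C]) (by simp only [mul_assoc, mul_inv_rev, inv_inv, mul_inv_cancel_left, inv_mul_cancel_left, mul_inv_cancel, inv_mul_cancel, mul_one, one_mul, inv_one, C])
  have k19 : o.lt (g * P⁻¹) (m * g⁻¹) ↔ o.lt (P * g⁻¹) (m * P⁻¹) := o.cv hδ (P * (g⁻¹ * (P * g⁻¹))) e18 (by simp only [mul_assoc, mul_inv_rev, inv_inv, mul_inv_cancel_left, inv_mul_cancel_left, mul_inv_cancel, inv_mul_cancel, mul_one, one_mul, inv_one, C]) (by simp only [mul_assoc, mul_inv_rev, inv_inv, mul_inv_cancel_left, inv_mul_cancel_left, mul_inv_cancel, inv_mul_cancel, mul_one, one_mul, inv_one, C])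
  have k20 : o.lt (g * m⁻¹) (Q * g⁻¹) ↔ o.lt (g * m⁻¹) (Q * g⁻¹) := o.cv hδ (1) e10 (by simp only [mul_assoc, mul_inv_rev, inv_inv, mul_inv_cancel_left, inv_mul_cancel_left, mul_inv_cancel, inv_mul_cancel, mul_one, one_mul, inv_one, C]) (by simp only [mul_assoc, mul_inv_rev, inv_inv, mul_inv_cancel_left, inv_mul_cancel_left, mul_inv_cancel, inv_mul_cancel, mul_one, one_mul, inv_one, C])
  have k21 : o.lt (g * m⁻¹) (f * m⁻¹) ↔ o.lt (g * m⁻¹) (f * m⁻¹) := o.cv hδ (1) e11 (by simp only [mul_assoc, mul_inv_rev, inv_inv, mul_inv_cancel_left, inv_mul_cancel_left, mul_inv_cancel, inv_mul_cancel, mul_one, one_mul, inv_one, C]) (by simp only [mul_assoc, mul_inv_rev, inv_inv, mul_inv_cancel_left, inv_mul_cancel_left, mul_inv_cancel, inv_mul_cancel, mul_one, one_mul, inv_one, C])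
  have k22 : o.lt (f * m⁻¹) (Q * g⁻¹) ↔ o.lt (f * m⁻¹) (Q * g⁻¹) := o.cv hδ (1) e13 (by simp only [mul_assoc, mul_inv_rev, inv_inv, mul_inv_cancel_left, inv_mul_cancel_left, mul_inv_cancel, inv_mul_cancel, mul_one, one_mul, inv_one, C]) (by simp only [mul_assoc, mul_inv_rev, inv_inv, mul_inv_cancel_left, inv_mul_cancel_left, mul_inv_cancel, inv_mul_cancel, mul_one, one_mul, inv_one, C])
  have k23 : o.lt (g * m⁻¹) (Q * f⁻¹) ↔ o.lt (g * m⁻¹) (Q * f⁻¹) := o.cv hδ (1) e9 (by simp only [mul_assoc, mul_inv_rev, inv_inv, mul_inv_cancel_left, inv_mul_cancel_left, mul_inv_cancel, inv_mul_cancel, mul_one, one_mul, inv_one, C]) (by simp only [mul_assoc, mul_inv_rev, inv_inv, mul_inv_cancel_left, inv_mul_cancel_left, mul_inv_cancel, inv_mul_cancel, mul_one, one_mul, inv_one, C])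
  have k24 : o.lt (Q * f⁻¹) (g * m⁻¹) ↔ o.lt (Q * f⁻¹) (g * m⁻¹) := o.cv hδ (1) e8 (by simp only [mul_assoc, mul_inv_rev, inv_inv, mul_inv_cancel_left, inv_mul_cancel_left, mul_inv_cancel, inv_mul_cancel, mul_one, one_mul, inv_one, C]) (by simp only [mul_assoc, mul_inv_rev, inv_inv, mul_inv_cancel_left, inv_mul_cancel_left, mul_inv_cancel, inv_mul_cancel, mul_one, one_mul, inv_one, C])
  have k25 : o.lt (Q * g⁻¹) (Q * f⁻¹) ↔ o.lt (Q * g⁻¹) (Q * f⁻¹) := o.cv hδ (1) e0 (by simp only [mul_assoc, mul_inv_rev, inv_inv, mul_inv_cancel_left, inv_mul_cancel_left, mul_inv_cancel, inv_mul_cancel, mul_one, one_mul, inv_one, C]) (by simp only [mul_assoc, mul_inv_rev, inv_inv, mul_inv_cancel_left, inv_mul_cancel_left, mul_inv_cancel, inv_mul_cancel, mul_one, one_mul, inv_one, C])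
  have k26 : o.lt (Q * f⁻¹) (Q * g⁻¹) ↔ o.lt (Q * f⁻¹) (Q * g⁻¹) := o.cv hδ (1) e3 (by simp only [mul_assoc, mul_inv_rev, inv_inv, mul_inv_cancel_left, inv_mul_cancel_left, mul_inv_cancel, inv_mul_cancel, mul_one, one_mul, inv_one, C]) (by simp only [mul_assoc, mul_inv_rev, inv_inv, mul_inv_cancel_left, inv_mul_cancel_left, mul_inv_cancel, inv_mul_cancel, mul_one, one_mul, inv_one, C])
  have k27 : o.lt (Q * f⁻¹) (P * f⁻¹) ↔ o.lt (Q * f⁻¹) (P * f⁻¹) := o.cv hδ (1) e2 (by simp only [mul_assoc, mul_inv_rev, inv_inv, mul_inv_cancel_left, inv_mul_cancel_left, mul_inv_cancel, inv_mul_cancel, mul_one, one_mul, inv_one, C]) (by simp only [mul_assoc, mul_inv_rev, inv_inv, mul_inv_cancel_left, inv_mul_cancel_left, mul_inv_cancel, inv_mul_cancel, mul_one, one_mul, inv_one, C])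
  have k28 : o.lt (Q * f⁻¹) (m * P⁻¹) ↔ o.lt (Q * f⁻¹) (m * P⁻¹) := o.cv hδ (1) e12 (by simp only [mul_assoc, mul_inv_rev, inv_inv, mul_inv_cancel_left, inv_mul_cancel_left, mul_inv_cancel, inv_mul_cancel, mul_one, one_mul, inv_one, C]) (by simp only [mul_assoc, mul_inv_rev, inv_inv, mul_inv_cancel_left, inv_mul_cancel_left, mul_inv_cancel, inv_mul_cancel, mul_one, one_mul, inv_one, C])
  have k29 : o.lt (Q * P⁻¹) (Q * (f⁻¹ * (m * g⁻¹))) ↔ o.lt (Q * P⁻¹) (Q * (f⁻¹ * (m * g⁻¹))) := o.cv hδ (1) e1 (by simp only [mul_assoc, mul_inv_rev, inv_inv, mul_inv_cancel_left, inv_mul_cancel_left, mul_inv_cancel, inv_mul_cancel, mul_one, one_mul, inv_one, C]) (by simp only [mul_assoc, mul_inv_rev, inv_inv, mul_inv_cancel_left, inv_mul_cancel_left, mul_inv_cancel, inv_mul_cancel, mul_one, one_mul, inv_one, C])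
  have k30 : o.lt (Q * f⁻¹) (P * f⁻¹) ↔ o.lt (Q * P⁻¹) (1) := o.cv hδ (f * P⁻¹) e2 (by simp only [mul_assoc, mul_inv_rev, inv_inv, mul_inv_cancel_left, inv_mul_cancel_left, mul_inv_cancel, inv_mul_cancel, mul_one, one_mul, inv_one, C]) (by simp only [mul_assoc, mul_inv_rev, inv_inv, mul_inv_cancel_left, inv_mul_cancel_left, mul_inv_cancel, inv_mul_cancel, mul_one, one_mul, inv_one, C])
  have k31 : o.lt (g * m⁻¹) (Q * f⁻¹) ↔ o.lt (1) (Q * (f⁻¹ * (m * g⁻¹))) := o.cv hδ (m * g⁻¹) e9 (by simp only [mul_assoc, mul_inv_rev, inv_inv, mul_inv_cancel_left, inv_mul_cancel_left, mul_inv_cancel, inv_mul_cancel, mul_one, one_mul, inv_one, C]) (by simp only [mul_assoc, mul_inv_rev, inv_inv, mul_inv_cancel_left, inv_mul_cancel_left, mul_inv_cancel, inv_mul_cancel, mul_one, one_mul, inv_one, C])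
  have k32 : o.lt (Q * (m⁻¹ * (f * m⁻¹))) (Q * (f⁻¹ * (m * g⁻¹))) ↔ o.lt (Q * (f⁻¹ * (m * f⁻¹))) (Q * (f⁻¹ * (m * g⁻¹))) := o.cv hδ (m * (f⁻¹ * (m * (f⁻¹ * (m * f⁻¹))))) e4 (by simp only [mul_assoc, mul_inv_rev, inv_inv, mul_inv_cancel_left, inv_mul_cancel_left, mul_inv_cancel, inv_mul_cancel, mul_one, one_mul, inv_one, C]) (by simp only [mul_assoc, mul_inv_rev, inv_inv, mul_inv_cancel_left, inv_mul_cancel_left, mul_inv_cancel, inv_mul_cancel, mul_one, one_mul, inv_one, C])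
  have k33 : o.lt (Q * (m⁻¹ * (f * m⁻¹))) (1) ↔ o.lt (Q * (f⁻¹ * (m * f⁻¹))) (1) := o.cv hδ (m * (f⁻¹ * (m * (f⁻¹ * (m * f⁻¹))))) e5 (by simp only [mul_assoc, mul_inv_rev, inv_inv, mul_inv_cancel_left, inv_mul_cancel_left, mul_inv_cancel, inv_mul_cancel, mul_one, one_mul, inv_one, C]) (by simp only [mul_assoc, mul_inv_rev, inv_inv, mul_inv_cancel_left, inv_mul_cancel_left, mul_inv_cancel, inv_mul_cancel, mul_one, one_mul, inv_one, C])
  have k34 : o.lt (Q * m⁻¹) (Q * (P⁻¹ * (f * P⁻¹))) ↔ o.lt (Q * (f⁻¹ * (m * f⁻¹))) (Q * (f⁻¹ * (P * m⁻¹))) := o.cv hδ (m * (f⁻¹ * (m * f⁻¹))) e6 (by simp only [mul_assoc, mul_inv_rev, inv_inv, mul_inv_cancel_left, inv_mul_cancel_left, mul_inv_cancel, inv_mul_cancel, mul_one, one_mul, inv_one, C]) (by simp only [mul_assoc, mul_inv_rev, inv_inv, mul_inv_cancel_left, inv_mul_cancel_left, mul_inv_cancel, inv_mul_cancel, mul_one, one_mul, inv_one, C])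
  have k35 : o.lt (Q * f⁻¹) (m * P⁻¹) ↔ o.lt (Q * (f⁻¹ * (P * m⁻¹))) (1) := o.cv hδ (P * m⁻¹) e12 (by simp only [mul_assoc, mul_inv_rev, inv_inv, mul_inv_cancel_left, inv_mul_cancel_left, mul_inv_cancel, inv_mul_cancel, mul_one, one_mul, inv_one, C]) (by simp only [mul_assoc, mul_inv_rev, inv_inv, mul_inv_cancel_left, inv_mul_cancel_left, mul_inv_cancel, inv_mul_cancel, mul_one, one_mul, inv_one, C])
  have k36 : o.lt (Q * f⁻¹) (g * m⁻¹) ↔ o.lt (Q * (f⁻¹ * (m * g⁻¹))) (1) := o.cv hδ (m * g⁻¹) e8 (by simp only [mul_assoc, mul_inv_rev, inv_inv, mul_inv_cancel_left, inv_mul_cancel_left, mul_inv_cancel, inv_mul_cancel, mul_one, one_mul, inv_one, C]) (by simp only [mul_assoc, mul_inv_rev, inv_inv, mul_inv_cancel_left, inv_mul_cancel_left, mul_inv_cancel, inv_mul_cancel, mul_one, one_mul, inv_one, C])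
  have k37 : o.lt (Q * (f⁻¹ * (m * g⁻¹))) (Q * P⁻¹) ↔ o.lt (Q * (f⁻¹ * (m * g⁻¹))) (Q * P⁻¹) := o.cv hδ (1) e7 (by simp only [mul_assoc, mul_inv_rev, inv_inv, mul_inv_cancel_left, inv_mul_cancel_left, mul_inv_cancel, inv_mul_cancel, mul_one, one_mul, inv_one, C]) (by simp only [mul_assoc, mul_inv_rev, inv_inv, mul_inv_cancel_left, inv_mul_cancel_left, mul_inv_cancel, inv_mul_cancel, mul_one, one_mul, inv_one, C])
  have k38 : o.lt (g * m⁻¹) (f * m⁻¹) ↔ o.lt ((P * g⁻¹)⁻¹) ((P * f⁻¹)⁻¹) := o.cv hδ (m * P⁻¹) e11 (by simp only [mul_assoc, mul_inv_rev, inv_inv, mul_inv_cancel_left, inv_mul_cancel_left, mul_inv_cancel, inv_mul_cancel, mul_one, one_mul, inv_one, C]) (by simp only [mul_assoc, mul_inv_rev, inv_inv, mul_inv_cancel_left, inv_mul_cancel_left, mul_inv_cancel, inv_mul_cancel, mul_one, one_mul, inv_one, C])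
  exact ser_ACE_1_prop
    (fun b0 b1 b2 => N0.i.r0 1 (fun h => b0 (k0.2 h)) (k1.1 b1) (fun h => b2 (k2.2 h)))
    (fun b0 b1 b2 => N0.i.r1 1 (fun h => b0 (k3.2 h)) (fun h => b1 (k4.2 h)) (k2.1 b2))
    (fun b0 b1 b2 b3 => N1.d.r2 1 (fun h => b0 (k5.2 h)) (k6.1 b1) (fun h => b2 (k7.2 h)) (fun h => b3 (k8.2 h)))
    (fun b0 b1 b2 => N0.r.r0 (Q * f⁻¹) (fun h => b0 (k9.2 h)) (k10.1 b1) (fun h => b2 (k11.2 h)))
    (fun b0 b1 b2 => N0.r.r1 (Q * f⁻¹) (fun h => b0 (k12.2 h)) (fun h => b1 (k13.2 h)) (k11.1 b2))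
    (fun b0 b1 => o.asym (k14.1 b0) (k15.1 b1))
    (fun b0 b1 => o.asym (k16.1 b0) (k17.1 b1))
    (fun b0 b1 b2 => o.tri (k18.1 b0) (fun h => b1 (k14.2 h)) (fun h => b2 (k19.2 h)))
    (fun b0 b1 b2 => o.tri (k20.1 b0) (fun h => b1 (k21.2 h)) (fun h => b2 (k22.2 h)))
    (fun b0 b1 => o.asym (k23.1 b0) (k24.1 b1))
    (fun b0 b1 => o.asym (k25.1 b0) (k26.1 b1))
    (fun b0 b1 b2 => o.tri (k24.1 b0) (fun h => b1 (k27.2 h)) (fun h => b2 (k16.2 h)))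
    (fun b0 b1 b2 => o.tri (k26.1 b0) (fun h => b1 (k24.2 h)) (fun h => b2 (k20.2 h)))
    (fun b0 b1 b2 => o.tri (k28.1 b0) (fun h => b1 (k27.2 h)) (fun h => b2 (k18.2 h)))
    (fun b0 b1 b2 => o.tri (k29.1 b0) (fun h => b1 (k30.2 h)) (fun h => b2 (k31.2 h)))
    (fun b0 b1 b2 => o.tri (k32.1 b0) (fun h => b1 (k33.2 h)) (fun h => b2 (k31.2 h)))
    (fun b0 b1 b2 => o.tri (k33.1 b0) (fun h => b1 (k34.2 h)) (fun h => b2 (k35.2 h)))
    (fun b0 b1 b2 => o.tri (k36.1 b0) (fun h => b1 (k37.2 h)) (fun h => b2 (k30.2 h)))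
    (fun h => g0 (k27.1 h))
    (k26.2 g1)
    (fun h => g2 (k38.1 h))

theorem ser_ACE_2_prop {A1 A2 A3 A4 A5 A6 A7 A8 A9 A10 A11 A12 A13 A14 A15 A16 A17 A18 A19 A20 A21 A22 A23 A24 A25 A26 A27 A28 A29 A30 A31 A32 A33 A34 A35 A36 A37 : Prop}
    (c0 : ¬ A34 → A35 → ¬ A24 → False)
    (c1 : A4 → ¬ A26 → ¬ A34 → False)
    (c2 : ¬ A36 → A27 → ¬ A37 → ¬ A1 → False)
    (c3 : ¬ A28 → A29 → ¬ A8 → False)
    (c4 : ¬ A1 → A10 → ¬ A19 → False)
    (c5 : ¬ A9 → ¬ A2 → A19 → False)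
    (c6 : ¬ A18 → A15 → ¬ A13 → ¬ A9 → False)
    (c7 : A12 → ¬ A31 → ¬ A17 → False)
    (c8 : A12 → ¬ A13 → ¬ A30 → False)
    (c9 : A21 → A24 → False)
    (c10 : A22 → ¬ A20 → ¬ A11 → False)
    (c11 : A4 → A1 → False)
    (c12 : A26 → ¬ A25 → ¬ A23 → False)
    (c13 : A5 → ¬ A27 → ¬ A3 → False)
    (c14 : A34 → A36 → False)
    (c15 : A36 → ¬ A35 → ¬ A22 → False)
    (c16 : A37 → ¬ A7 → ¬ A11 → False)
    (c17 : A23 → ¬ A21 → ¬ A34 → False)
    (c18 : A4 → ¬ A20 → ¬ A12 → False)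
    (c19 : A9 → ¬ A1 → ¬ A20 → False)
    (c20 : A25 → ¬ A7 → ¬ A32 → False)
    (c21 : A2 → A10 → False)
    (c22 : A4 → ¬ A6 → ¬ A10 → False)
    (c23 : A4 → ¬ A3 → ¬ A14 → False)
    (c24 : A6 → ¬ A5 → ¬ A9 → False)
    (c25 : A7 → ¬ A3 → ¬ A17 → False)
    (c26 : A8 → ¬ A9 → ¬ A10 → False)
    (c27 : A11 → ¬ A10 → ¬ A1 → False)
    (c28 : A13 → ¬ A10 → ¬ A3 → False)
    (c29 : A14 → ¬ A16 → ¬ A10 → False)
    (c30 : A16 → ¬ A15 → ¬ A9 → False)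
    (c31 : A17 → A18 → False)
    (c32 : A28 → A30 → False)
    (c33 : A19 → ¬ A29 → ¬ A9 → False)
    (c34 : A31 → A33 → False)
    (c35 : A32 → ¬ A33 → ¬ A19 → False)
    (u0 : ¬ A20)
    (u1 : ¬ A3)
    (u2 : A4)
    : False := by
  have q1 : ¬ A1 := fun h => c11 u2 h
  have q2 : A12 := Classical.byContradiction fun h => c18 u2 u0 h
  have q3 : ¬ A9 := fun h => c19 h q1 u0
  have q4 : A14 := Classical.byContradiction fun h => c23 u2 u1 h
  rcases Classical.em A10 with q5 | q5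
  · have q6 : A19 := Classical.byContradiction fun h => c4 q1 q5 h
    have q7 : A2 := Classical.byContradiction fun h => c5 q3 h q6
    exact c21 q7 q5
  · have q8 : A6 := Classical.byContradiction fun h => c22 u2 h q5
    have q9 : A5 := Classical.byContradiction fun h => c24 q8 h q3
    have q10 : A27 := Classical.byContradiction fun h => c13 q9 h u1
    have q11 : ¬ A8 := fun h => c26 h q3 q5
    have q12 : ¬ A11 := fun h => c27 h q5 q1
    have q13 : ¬ A22 := fun h => c10 h u0 q12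
    have q14 : ¬ A13 := fun h => c28 h q5 u1
    have q15 : A30 := Classical.byContradiction fun h => c8 q2 q14 h
    have q16 : A16 := Classical.byContradiction fun h => c29 q4 h q5
    have q17 : A15 := Classical.byContradiction fun h => c30 q16 h q3
    have q18 : A18 := Classical.byContradiction fun h => c6 h q17 q14 q3
    have q19 : ¬ A17 := fun h => c31 h q18
    have q20 : A31 := Classical.byContradiction fun h => c7 q2 h q19
    have q21 : ¬ A7 := fun h => c25 h u1 q19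
    have q22 : ¬ A37 := fun h => c16 h q21 q12
    have q23 : A36 := Classical.byContradiction fun h => c2 h q10 q22 q1
    have q24 : ¬ A34 := fun h => c14 h q23
    have q25 : A26 := Classical.byContradiction fun h => c1 u2 h q24
    have q26 : A35 := Classical.byContradiction fun h => c15 q23 h q13
    have q27 : A24 := Classical.byContradiction fun h => c0 q24 q26 h
    have q28 : ¬ A21 := fun h => c9 h q27
    have q29 : ¬ A23 := fun h => c17 h q28 q24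
    have q30 : A25 := Classical.byContradiction fun h => c12 q25 h q29
    have q31 : A32 := Classical.byContradiction fun h => c20 q30 q21 h
    have q32 : ¬ A28 := fun h => c32 h q15
    have q33 : ¬ A29 := fun h => c3 q32 h q11
    have q34 : ¬ A19 := fun h => c33 h q33 q3
    have q35 : ¬ A33 := fun h => c34 q20 h
    exact c35 q31 q35 q34

theorem ser_ACE_2 {G : Type*} [Group G] {δ : G → ZMod 3} (hδ : ∀ u v, δ (u * v) = δ u + δ v) (o : Pre δ)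
    {P m Q f g : G} {e : ZMod 3} (h3 : 3 * e = 0)
    (D : δ P = e ∧ δ m = -e ∧ δ Q = e ∧ δ f = 0 ∧ δ g = 0)
    (C : Cube P f ∧ Cube P g ∧ Cube m f ∧ Cube m g ∧ Cube Q f ∧ Cube Q g)
    (N0 : RA o P m f g)
    (N1 : RC o Q m g f)
    (g0 : ¬ o.lt (P * f⁻¹) (P * g⁻¹)) (g1 : ¬ o.lt ((Q * g⁻¹)⁻¹) ((P * g⁻¹)⁻¹)) (g2 : o.lt ((P * f⁻¹)⁻¹) ((P * g⁻¹)⁻¹)) : False := by
  simp only [Cube] at C
  have e0 : δ (g) = δ (f) := by simp only [hδ, δinv hδ, δone hδ, D] <;> linear_combination (0) * h3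
  have e1 : δ (g * f⁻¹) = δ (g * (P⁻¹ * (g * m⁻¹))) := by simp only [hδ, δinv hδ, δone hδ, D] <;> linear_combination (0) * h3
  have e2 : δ (g * Q⁻¹) = δ (g * P⁻¹) := by simp only [hδ, δinv hδ, δone hδ, D] <;> linear_combination (0) * h3
  have e3 : δ (f * m⁻¹) = δ (g * m⁻¹) := by simp only [hδ, δinv hδ, δone hδ, D] <;> linear_combination (0) * h3
  have e4 : δ (m * f⁻¹) = δ (g * P⁻¹) := by simp only [hδ, δinv hδ, δone hδ, D] <;> linear_combination (0) * h3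
  have e5 : δ (1) = δ (g * (P⁻¹ * (g * m⁻¹))) := by simp only [hδ, δinv hδ, δone hδ, D] <;> linear_combination (0) * h3
  have e6 : δ (f * Q⁻¹) = δ (g * P⁻¹) := by simp only [hδ, δinv hδ, δone hδ, D] <;> linear_combination (0) * h3
  have e7 : δ (g * (P⁻¹ * (f * m⁻¹))) = δ (g * f⁻¹) := by simp only [hδ, δinv hδ, δone hδ, D] <;> linear_combination (0) * h3
  have e8 : δ (g * (P⁻¹ * (f * m⁻¹))) = δ (g * (P⁻¹ * (g * m⁻¹))) := by simp only [hδ, δinv hδ, δone hδ, D] <;> linear_combination (0) * h3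
  have e9 : δ (g * (P⁻¹ * (g * m⁻¹))) = δ (g * f⁻¹) := by simp only [hδ, δinv hδ, δone hδ, D] <;> linear_combination (0) * h3
  have e10 : δ (P * g⁻¹) = δ (m * P⁻¹) := by simp only [hδ, δinv hδ, δone hδ, D] <;> linear_combination (1) * h3
  have e11 : δ (g * (P⁻¹ * (g * Q⁻¹))) = δ (g * (P⁻¹ * (f * Q⁻¹))) := by simp only [hδ, δinv hδ, δone hδ, D] <;> linear_combination (0) * h3
  have e12 : δ (g * (P⁻¹ * (g * m⁻¹))) = δ (g * (P⁻¹ * (Q * f⁻¹))) := by simp only [hδ, δinv hδ, δone hδ, D] <;> linear_combination (0) * h3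
  have e13 : δ (g * (P⁻¹ * (Q * g⁻¹))) = δ (g * f⁻¹) := by simp only [hδ, δinv hδ, δone hδ, D] <;> linear_combination (0) * h3
  have e14 : δ (g * (P⁻¹ * (Q * g⁻¹))) = δ (g * (P⁻¹ * (f * m⁻¹))) := by simp only [hδ, δinv hδ, δone hδ, D] <;> linear_combination (0) * h3
  have e15 : δ (g * (P⁻¹ * (Q * g⁻¹))) = δ (g * (P⁻¹ * (g * m⁻¹))) := by simp only [hδ, δinv hδ, δone hδ, D] <;> linear_combination (0) * h3
  have e16 : δ (g * (P⁻¹ * (Q * g⁻¹))) = δ (g * (P⁻¹ * (Q * f⁻¹))) := by simp only [hδ, δinv hδ, δone hδ, D] <;> linear_combination (0) * h3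
  have e17 : δ (g * (P⁻¹ * (Q * f⁻¹))) = δ (g * (P⁻¹ * (Q * g⁻¹))) := by simp only [hδ, δinv hδ, δone hδ, D] <;> linear_combination (0) * h3
  have e18 : δ (g * (P⁻¹ * (m * g⁻¹))) = δ (P * g⁻¹) := by simp only [hδ, δinv hδ, δone hδ, D] <;> linear_combination (-1) * h3
  have e19 : δ (P * f⁻¹) = δ (P * g⁻¹) := by simp only [hδ, δinv hδ, δone hδ, D] <;> linear_combination (0) * h3
  have e20 : δ (P * f⁻¹) = δ (f * m⁻¹) := by simp only [hδ, δinv hδ, δone hδ, D] <;> linear_combination (0) * h3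
  have e21 : δ (P * f⁻¹) = δ (m * P⁻¹) := by simp only [hδ, δinv hδ, δone hδ, D] <;> linear_combination (1) * h3
  have e22 : δ (P * g⁻¹) = δ (g * m⁻¹) := by simp only [hδ, δinv hδ, δone hδ, D] <;> linear_combination (0) * h3
  have e23 : δ (f * m⁻¹) = δ (P * f⁻¹) := by simp only [hδ, δinv hδ, δone hδ, D] <;> linear_combination (0) * h3
  have e24 : δ (Q * f⁻¹) = δ (P * g⁻¹) := by simp only [hδ, δinv hδ, δone hδ, D] <;> linear_combination (0) * h3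
  have e25 : δ (Q * f⁻¹) = δ (g * m⁻¹) := by simp only [hδ, δinv hδ, δone hδ, D] <;> linear_combination (0) * h3
  have e26 : δ (m * f⁻¹) = δ (g * Q⁻¹) := by simp only [hδ, δinv hδ, δone hδ, D] <;> linear_combination (0) * h3
  have e27 : δ (g * (P⁻¹ * (m * f⁻¹))) = δ (g * (P⁻¹ * (m * g⁻¹))) := by simp only [hδ, δinv hδ, δone hδ, D] <;> linear_combination (0) * h3
  have e28 : δ (g * (P⁻¹ * (m * g⁻¹))) = δ (g * (P⁻¹ * (f * P⁻¹))) := by simp only [hδ, δinv hδ, δone hδ, D] <;> linear_combination (0) * h3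
  have e29 : δ (g * (P⁻¹ * (m * g⁻¹))) = δ (g * (P⁻¹ * (m * f⁻¹))) := by simp only [hδ, δinv hδ, δone hδ, D] <;> linear_combination (0) * h3
  have e30 : δ (g * (P⁻¹ * (m * g⁻¹))) = δ (g * (P⁻¹ * (f * Q⁻¹))) := by simp only [hδ, δinv hδ, δone hδ, D] <;> linear_combination (0) * h3
  have e31 : δ (g * P⁻¹) = δ (P * (g⁻¹ * (Q * f⁻¹))) := by simp only [hδ, δinv hδ, δone hδ, D] <;> linear_combination (-1) * h3
  have e32 : δ (g * (P⁻¹ * (f * Q⁻¹))) = δ (g * (P⁻¹ * (m * g⁻¹))) := by simp only [hδ, δinv hδ, δone hδ, D] <;> linear_combination (0) * h3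
  have e33 : δ (m * f⁻¹) = δ (m * g⁻¹) := by simp only [hδ, δinv hδ, δone hδ, D] <;> linear_combination (0) * h3
  have e34 : δ (m * g⁻¹) = δ (f * P⁻¹) := by simp only [hδ, δinv hδ, δone hδ, D] <;> linear_combination (0) * h3
  have e35 : δ (m * g⁻¹) = δ (m * f⁻¹) := by simp only [hδ, δinv hδ, δone hδ, D] <;> linear_combination (0) * h3
  have e36 : δ (f * Q⁻¹) = δ (m * g⁻¹) := by simp only [hδ, δinv hδ, δone hδ, D] <;> linear_combination (0) * h3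
  have k0 : o.lt (m * f⁻¹) (m * g⁻¹) ↔ o.lt (1 * (m * f⁻¹)) (1 * (m * g⁻¹)) := o.cv hδ (1) e33 (by simp only [mul_assoc, mul_inv_rev, inv_inv, mul_inv_cancel_left, inv_mul_cancel_left, mul_inv_cancel, inv_mul_cancel, mul_one, one_mul, inv_one, C]) (by simp only [mul_assoc, mul_inv_rev, inv_inv, mul_inv_cancel_left, inv_mul_cancel_left, mul_inv_cancel, inv_mul_cancel, mul_one, one_mul, inv_one, C])
  have k1 : o.lt (m * g⁻¹) (f * P⁻¹) ↔ o.lt (1 * (m * g⁻¹)) (1 * (f * P⁻¹)) := o.cv hδ (1) e34 (by simp only [mul_assoc, mul_inv_rev, inv_inv, mul_inv_cancel_left, inv_mul_cancel_left, mul_inv_cancel, inv_mul_cancel, mul_one, one_mul, inv_one, C]) (by simp only [mul_assoc, mul_inv_rev, inv_inv, mul_inv_cancel_left, inv_mul_cancel_left, mul_inv_cancel, inv_mul_cancel, mul_one, one_mul, inv_one, C])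
  have k2 : o.lt (f * m⁻¹) (P * f⁻¹) ↔ o.lt (1 * (m * f⁻¹)⁻¹) (1 * (f * P⁻¹)⁻¹) := o.cv hδ (1) e23 (by simp only [mul_assoc, mul_inv_rev, inv_inv, mul_inv_cancel_left, inv_mul_cancel_left, mul_inv_cancel, inv_mul_cancel, mul_one, one_mul, inv_one, C]) (by simp only [mul_assoc, mul_inv_rev, inv_inv, mul_inv_cancel_left, inv_mul_cancel_left, mul_inv_cancel, inv_mul_cancel, mul_one, one_mul, inv_one, C])
  have k3 : o.lt (f * m⁻¹) (g * m⁻¹) ↔ o.lt (1 * (f * m⁻¹)) (1 * (g * m⁻¹)) := o.cv hδ (1) e3 (by simp only [mul_assoc, mul_inv_rev, inv_inv, mul_inv_cancel_left, inv_mul_cancel_left, mul_inv_cancel, inv_mul_cancel, mul_one, one_mul, inv_one, C]) (by simp only [mul_assoc, mul_inv_rev, inv_inv, mul_inv_cancel_left, inv_mul_cancel_left, mul_inv_cancel, inv_mul_cancel, mul_one, one_mul, inv_one, C])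
  have k4 : o.lt (Q * f⁻¹) (g * m⁻¹) ↔ o.lt (1 * (Q * f⁻¹)) (1 * (g * m⁻¹)) := o.cv hδ (1) e25 (by simp only [mul_assoc, mul_inv_rev, inv_inv, mul_inv_cancel_left, inv_mul_cancel_left, mul_inv_cancel, inv_mul_cancel, mul_one, one_mul, inv_one, C]) (by simp only [mul_assoc, mul_inv_rev, inv_inv, mul_inv_cancel_left, inv_mul_cancel_left, mul_inv_cancel, inv_mul_cancel, mul_one, one_mul, inv_one, C])
  have k5 : o.lt (m * f⁻¹) (m * g⁻¹) ↔ o.lt (1 * (f * m⁻¹)⁻¹) (1 * (g * m⁻¹)⁻¹) := o.cv hδ (1) e33 (by simp only [mul_assoc, mul_inv_rev, inv_inv, mul_inv_cancel_left, inv_mul_cancel_left, mul_inv_cancel, inv_mul_cancel, mul_one, one_mul, inv_one, C]) (by simp only [mul_assoc, mul_inv_rev, inv_inv, mul_inv_cancel_left, inv_mul_cancel_left, mul_inv_cancel, inv_mul_cancel, mul_one, one_mul, inv_one, C])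
  have k6 : o.lt (m * g⁻¹) (m * f⁻¹) ↔ o.lt (1 * (m * g⁻¹)) (1 * (m * f⁻¹)) := o.cv hδ (1) e35 (by simp only [mul_assoc, mul_inv_rev, inv_inv, mul_inv_cancel_left, inv_mul_cancel_left, mul_inv_cancel, inv_mul_cancel, mul_one, one_mul, inv_one, C]) (by simp only [mul_assoc, mul_inv_rev, inv_inv, mul_inv_cancel_left, inv_mul_cancel_left, mul_inv_cancel, inv_mul_cancel, mul_one, one_mul, inv_one, C])
  have k7 : o.lt (m * f⁻¹) (g * Q⁻¹) ↔ o.lt (1 * (m * f⁻¹)) (1 * (g * Q⁻¹)) := o.cv hδ (1) e26 (by simp only [mul_assoc, mul_inv_rev, inv_inv, mul_inv_cancel_left, inv_mul_cancel_left, mul_inv_cancel, inv_mul_cancel, mul_one, one_mul, inv_one, C]) (by simp only [mul_assoc, mul_inv_rev, inv_inv, mul_inv_cancel_left, inv_mul_cancel_left, mul_inv_cancel, inv_mul_cancel, mul_one, one_mul, inv_one, C])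
  have k8 : o.lt (f * Q⁻¹) (m * g⁻¹) ↔ o.lt (1 * (f * Q⁻¹)) (1 * (m * g⁻¹)) := o.cv hδ (1) e36 (by simp only [mul_assoc, mul_inv_rev, inv_inv, mul_inv_cancel_left, inv_mul_cancel_left, mul_inv_cancel, inv_mul_cancel, mul_one, one_mul, inv_one, C]) (by simp only [mul_assoc, mul_inv_rev, inv_inv, mul_inv_cancel_left, inv_mul_cancel_left, mul_inv_cancel, inv_mul_cancel, mul_one, one_mul, inv_one, C])
  have k9 : o.lt (g) (f) ↔ o.lt (1 * g) (1 * f) := o.cv hδ (1) e0 (by simp only [mul_assoc, mul_inv_rev, inv_inv, mul_inv_cancel_left, inv_mul_cancel_left, mul_inv_cancel, inv_mul_cancel, mul_one, one_mul, inv_one, C]) (by simp only [mul_assoc, mul_inv_rev, inv_inv, mul_inv_cancel_left, inv_mul_cancel_left, mul_inv_cancel, inv_mul_cancel, mul_one, one_mul, inv_one, C])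
  have k10 : o.lt (g * (P⁻¹ * (m * f⁻¹))) (g * (P⁻¹ * (m * g⁻¹))) ↔ o.lt ((g * P⁻¹) * (m * f⁻¹)) ((g * P⁻¹) * (m * g⁻¹)) := o.cv hδ (1) e27 (by simp only [mul_assoc, mul_inv_rev, inv_inv, mul_inv_cancel_left, inv_mul_cancel_left, mul_inv_cancel, inv_mul_cancel, mul_one, one_mul, inv_one, C]) (by simp only [mul_assoc, mul_inv_rev, inv_inv, mul_inv_cancel_left, inv_mul_cancel_left, mul_inv_cancel, inv_mul_cancel, mul_one, one_mul, inv_one, C])
  have k11 : o.lt (g * (P⁻¹ * (m * g⁻¹))) (g * (P⁻¹ * (f * P⁻¹))) ↔ o.lt ((g * P⁻¹) * (m * g⁻¹)) ((g * P⁻¹) * (f * P⁻¹)) := o.cv hδ (1) e28 (by simp only [mul_assoc, mul_inv_rev, inv_inv, mul_inv_cancel_left, inv_mul_cancel_left, mul_inv_cancel, inv_mul_cancel, mul_one, one_mul, inv_one, C]) (by simp only [mul_assoc, mul_inv_rev, inv_inv, mul_inv_cancel_left, inv_mul_cancel_left, mul_inv_cancel, inv_mul_cancel, mul_one, one_mul, inv_one, C])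
  have k12 : o.lt (g * (P⁻¹ * (f * m⁻¹))) (g * f⁻¹) ↔ o.lt ((g * P⁻¹) * (m * f⁻¹)⁻¹) ((g * P⁻¹) * (f * P⁻¹)⁻¹) := o.cv hδ (1) e7 (by simp only [mul_assoc, mul_inv_rev, inv_inv, mul_inv_cancel_left, inv_mul_cancel_left, mul_inv_cancel, inv_mul_cancel, mul_one, one_mul, inv_one, C]) (by simp only [mul_assoc, mul_inv_rev, inv_inv, mul_inv_cancel_left, inv_mul_cancel_left, mul_inv_cancel, inv_mul_cancel, mul_one, one_mul, inv_one, C])
  have k13 : o.lt (g) (f) ↔ o.lt ((g * P⁻¹) * (P * f⁻¹)) ((g * P⁻¹) * (P * g⁻¹)) := o.cv hδ (f⁻¹) e0 (by simp only [mul_assoc, mul_inv_rev, inv_inv, mul_inv_cancel_left, inv_mul_cancel_left, mul_inv_cancel, inv_mul_cancel, mul_one, one_mul, inv_one, C]) (by simp only [mul_assoc, mul_inv_rev, inv_inv, mul_inv_cancel_left, inv_mul_cancel_left, mul_inv_cancel, inv_mul_cancel, mul_one, one_mul, inv_one, C])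
  have k14 : o.lt (g * (P⁻¹ * (g * m⁻¹))) (g * f⁻¹) ↔ o.lt ((g * P⁻¹) * (g * m⁻¹)) ((g * P⁻¹) * (P * f⁻¹)) := o.cv hδ (1) e9 (by simp only [mul_assoc, mul_inv_rev, inv_inv, mul_inv_cancel_left, inv_mul_cancel_left, mul_inv_cancel, inv_mul_cancel, mul_one, one_mul, inv_one, C]) (by simp only [mul_assoc, mul_inv_rev, inv_inv, mul_inv_cancel_left, inv_mul_cancel_left, mul_inv_cancel, inv_mul_cancel, mul_one, one_mul, inv_one, C])
  have k15 : o.lt (g * (P⁻¹ * (m * g⁻¹))) (P * g⁻¹) ↔ o.lt ((g * P⁻¹) * (g * m⁻¹)⁻¹) ((g * P⁻¹) * (P * g⁻¹)⁻¹) := o.cv hδ (1) e18 (by simp only [mul_assoc, mul_inv_rev, inv_inv, mul_inv_cancel_left, inv_mul_cancel_left, mul_inv_cancel, inv_mul_cancel, mul_one, one_mul, inv_one, C]) (by simp only [mul_assoc, mul_inv_rev, inv_inv, mul_inv_cancel_left, inv_mul_cancel_left, mul_inv_cancel, inv_mul_cancel, mul_one, one_mul, inv_one, C])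
  have k16 : o.lt (g * (P⁻¹ * (f * m⁻¹))) (g * (P⁻¹ * (g * m⁻¹))) ↔ o.lt ((g * P⁻¹) * (f * m⁻¹)) ((g * P⁻¹) * (g * m⁻¹)) := o.cv hδ (1) e8 (by simp only [mul_assoc, mul_inv_rev, inv_inv, mul_inv_cancel_left, inv_mul_cancel_left, mul_inv_cancel, inv_mul_cancel, mul_one, one_mul, inv_one, C]) (by simp only [mul_assoc, mul_inv_rev, inv_inv, mul_inv_cancel_left, inv_mul_cancel_left, mul_inv_cancel, inv_mul_cancel, mul_one, one_mul, inv_one, C])
  have k17 : o.lt (g * f⁻¹) (g * (P⁻¹ * (g * m⁻¹))) ↔ o.lt ((g * P⁻¹) * (P * f⁻¹)) ((g * P⁻¹) * (g * m⁻¹)) := o.cv hδ (1) e1 (by simp only [mul_assoc, mul_inv_rev, inv_inv, mul_inv_cancel_left, inv_mul_cancel_left, mul_inv_cancel, inv_mul_cancel, mul_one, one_mul, inv_one, C]) (by simp only [mul_assoc, mul_inv_rev, inv_inv, mul_inv_cancel_left, inv_mul_cancel_left, mul_inv_cancel, inv_mul_cancel, mul_one, one_mul, inv_one, C])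
  have k18 : o.lt (g * (P⁻¹ * (Q * f⁻¹))) (g * (P⁻¹ * (Q * g⁻¹))) ↔ o.lt ((g * P⁻¹) * (Q * f⁻¹)) ((g * P⁻¹) * (Q * g⁻¹)) := o.cv hδ (1) e17 (by simp only [mul_assoc, mul_inv_rev, inv_inv, mul_inv_cancel_left, inv_mul_cancel_left, mul_inv_cancel, inv_mul_cancel, mul_one, one_mul, inv_one, C]) (by simp only [mul_assoc, mul_inv_rev, inv_inv, mul_inv_cancel_left, inv_mul_cancel_left, mul_inv_cancel, inv_mul_cancel, mul_one, one_mul, inv_one, C])
  have k19 : o.lt (g * (P⁻¹ * (Q * g⁻¹))) (g * (P⁻¹ * (f * m⁻¹))) ↔ o.lt ((g * P⁻¹) * (Q * g⁻¹)) ((g * P⁻¹) * (f * m⁻¹)) := o.cv hδ (1) e14 (by simp only [mul_assoc, mul_inv_rev, inv_inv, mul_inv_cancel_left, inv_mul_cancel_left, mul_inv_cancel, inv_mul_cancel, mul_one, one_mul, inv_one, C]) (by simp only [mul_assoc, mul_inv_rev, inv_inv, mul_inv_cancel_left, inv_mul_cancel_left, mul_inv_cancel, inv_mul_cancel, mul_one, one_mul, inv_one, C])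
  have k20 : o.lt (g * (P⁻¹ * (g * m⁻¹))) (g * (P⁻¹ * (Q * f⁻¹))) ↔ o.lt ((g * P⁻¹) * (g * m⁻¹)) ((g * P⁻¹) * (Q * f⁻¹)) := o.cv hδ (1) e12 (by simp only [mul_assoc, mul_inv_rev, inv_inv, mul_inv_cancel_left, inv_mul_cancel_left, mul_inv_cancel, inv_mul_cancel, mul_one, one_mul, inv_one, C]) (by simp only [mul_assoc, mul_inv_rev, inv_inv, mul_inv_cancel_left, inv_mul_cancel_left, mul_inv_cancel, inv_mul_cancel, mul_one, one_mul, inv_one, C])
  have k21 : o.lt (g * (P⁻¹ * (f * m⁻¹))) (g * (P⁻¹ * (g * m⁻¹))) ↔ o.lt ((g * P⁻¹) * f) ((g * P⁻¹) * g) := o.cv hδ (m) e8 (by simp only [mul_assoc, mul_inv_rev, inv_inv, mul_inv_cancel_left, inv_mul_cancel_left, mul_inv_cancel, inv_mul_cancel, mul_one, one_mul, inv_one, C]) (by simp only [mul_assoc, mul_inv_rev, inv_inv, mul_inv_cancel_left, inv_mul_cancel_left, mul_inv_cancel, inv_mul_cancel, mul_one, one_mul, inv_one, C])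
  have k22 : o.lt (g * (P⁻¹ * (g * Q⁻¹))) (g * (P⁻¹ * (f * Q⁻¹))) ↔ o.lt ((g * P⁻¹) * (g * Q⁻¹)) ((g * P⁻¹) * (f * Q⁻¹)) := o.cv hδ (1) e11 (by simp only [mul_assoc, mul_inv_rev, inv_inv, mul_inv_cancel_left, inv_mul_cancel_left, mul_inv_cancel, inv_mul_cancel, mul_one, one_mul, inv_one, C]) (by simp only [mul_assoc, mul_inv_rev, inv_inv, mul_inv_cancel_left, inv_mul_cancel_left, mul_inv_cancel, inv_mul_cancel, mul_one, one_mul, inv_one, C])
  have k23 : o.lt (g * (P⁻¹ * (m * g⁻¹))) (g * (P⁻¹ * (f * Q⁻¹))) ↔ o.lt ((g * P⁻¹) * (m * g⁻¹)) ((g * P⁻¹) * (f * Q⁻¹)) := o.cv hδ (1) e30 (by simp only [mul_assoc, mul_inv_rev, inv_inv, mul_inv_cancel_left, inv_mul_cancel_left, mul_inv_cancel, inv_mul_cancel, mul_one, one_mul, inv_one, C]) (by simp only [mul_assoc, mul_inv_rev, inv_inv, mul_inv_cancel_left, inv_mul_cancel_left, mul_inv_cancel, inv_mul_cancel, mul_one, one_mul, inv_one, C])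
  have k24 : o.lt (g * (P⁻¹ * (Q * g⁻¹))) (g * (P⁻¹ * (Q * f⁻¹))) ↔ o.lt ((g * P⁻¹) * (g * Q⁻¹)⁻¹) ((g * P⁻¹) * (f * Q⁻¹)⁻¹) := o.cv hδ (1) e16 (by simp only [mul_assoc, mul_inv_rev, inv_inv, mul_inv_cancel_left, inv_mul_cancel_left, mul_inv_cancel, inv_mul_cancel, mul_one, one_mul, inv_one, C]) (by simp only [mul_assoc, mul_inv_rev, inv_inv, mul_inv_cancel_left, inv_mul_cancel_left, mul_inv_cancel, inv_mul_cancel, mul_one, one_mul, inv_one, C])
  have k25 : o.lt (g * (P⁻¹ * (g * Q⁻¹))) (g * (P⁻¹ * (f * Q⁻¹))) ↔ o.lt ((g * P⁻¹) * (g * m⁻¹)) ((g * P⁻¹) * (f * m⁻¹)) := o.cv hδ (Q * m⁻¹) e11 (by simp only [mul_assoc, mul_inv_rev, inv_inv, mul_inv_cancel_left, inv_mul_cancel_left, mul_inv_cancel, inv_mul_cancel, mul_one, one_mul, inv_one, C]) (by simp only [mul_assoc, mul_inv_rev, inv_inv, mul_inv_cancel_left, inv_mul_cancel_left, mul_inv_cancel, inv_mul_cancel, mul_one, one_mul, inv_one, C])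
  have k26 : o.lt (g * (P⁻¹ * (m * g⁻¹))) (g * (P⁻¹ * (m * f⁻¹))) ↔ o.lt ((g * P⁻¹) * (g * m⁻¹)⁻¹) ((g * P⁻¹) * (f * m⁻¹)⁻¹) := o.cv hδ (1) e29 (by simp only [mul_assoc, mul_inv_rev, inv_inv, mul_inv_cancel_left, inv_mul_cancel_left, mul_inv_cancel, inv_mul_cancel, mul_one, one_mul, inv_one, C]) (by simp only [mul_assoc, mul_inv_rev, inv_inv, mul_inv_cancel_left, inv_mul_cancel_left, mul_inv_cancel, inv_mul_cancel, mul_one, one_mul, inv_one, C])
  have k27 : o.lt (P * f⁻¹) (f * m⁻¹) ↔ o.lt (P * f⁻¹) (f * m⁻¹) := o.cv hδ (1) e20 (by simp only [mul_assoc, mul_inv_rev, inv_inv, mul_inv_cancel_left, inv_mul_cancel_left, mul_inv_cancel, inv_mul_cancel, mul_one, one_mul, inv_one, C]) (by simp only [mul_assoc, mul_inv_rev, inv_inv, mul_inv_cancel_left, inv_mul_cancel_left, mul_inv_cancel, inv_mul_cancel, mul_one, one_mul, inv_one, C])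
  have k28 : o.lt (f * m⁻¹) (P * f⁻¹) ↔ o.lt (f * m⁻¹) (P * f⁻¹) := o.cv hδ (1) e23 (by simp only [mul_assoc, mul_inv_rev, inv_inv, mul_inv_cancel_left, inv_mul_cancel_left, mul_inv_cancel, inv_mul_cancel, mul_one, one_mul, inv_one, C]) (by simp only [mul_assoc, mul_inv_rev, inv_inv, mul_inv_cancel_left, inv_mul_cancel_left, mul_inv_cancel, inv_mul_cancel, mul_one, one_mul, inv_one, C])
  have k29 : o.lt (P * f⁻¹) (m * P⁻¹) ↔ o.lt (P * f⁻¹) (m * P⁻¹) := o.cv hδ (1) e21 (by simp only [mul_assoc, mul_inv_rev, inv_inv, mul_inv_cancel_left, inv_mul_cancel_left, mul_inv_cancel, inv_mul_cancel, mul_one, one_mul, inv_one, C]) (by simp only [mul_assoc, mul_inv_rev, inv_inv, mul_inv_cancel_left, inv_mul_cancel_left, mul_inv_cancel, inv_mul_cancel, mul_one, one_mul, inv_one, C])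
  have k30 : o.lt (P * f⁻¹) (P * g⁻¹) ↔ o.lt (P * f⁻¹) (P * g⁻¹) := o.cv hδ (1) e19 (by simp only [mul_assoc, mul_inv_rev, inv_inv, mul_inv_cancel_left, inv_mul_cancel_left, mul_inv_cancel, inv_mul_cancel, mul_one, one_mul, inv_one, C]) (by simp only [mul_assoc, mul_inv_rev, inv_inv, mul_inv_cancel_left, inv_mul_cancel_left, mul_inv_cancel, inv_mul_cancel, mul_one, one_mul, inv_one, C])
  have k31 : o.lt (P * g⁻¹) (m * P⁻¹) ↔ o.lt (P * g⁻¹) (m * P⁻¹) := o.cv hδ (1) e10 (by simp only [mul_assoc, mul_inv_rev, inv_inv, mul_inv_cancel_left, inv_mul_cancel_left, mul_inv_cancel, inv_mul_cancel, mul_one, one_mul, inv_one, C]) (by simp only [mul_assoc, mul_inv_rev, inv_inv, mul_inv_cancel_left, inv_mul_cancel_left, mul_inv_cancel, inv_mul_cancel, mul_one, one_mul, inv_one, C])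
  have k32 : o.lt (f * m⁻¹) (g * m⁻¹) ↔ o.lt (f * m⁻¹) (g * m⁻¹) := o.cv hδ (1) e3 (by simp only [mul_assoc, mul_inv_rev, inv_inv, mul_inv_cancel_left, inv_mul_cancel_left, mul_inv_cancel, inv_mul_cancel, mul_one, one_mul, inv_one, C]) (by simp only [mul_assoc, mul_inv_rev, inv_inv, mul_inv_cancel_left, inv_mul_cancel_left, mul_inv_cancel, inv_mul_cancel, mul_one, one_mul, inv_one, C])
  have k33 : o.lt (g) (f) ↔ o.lt (g * m⁻¹) (f * m⁻¹) := o.cv hδ (m⁻¹) e0 (by simp only [mul_assoc, mul_inv_rev, inv_inv, mul_inv_cancel_left, inv_mul_cancel_left, mul_inv_cancel, inv_mul_cancel, mul_one, one_mul, inv_one, C]) (by simp only [mul_assoc, mul_inv_rev, inv_inv, mul_inv_cancel_left, inv_mul_cancel_left, mul_inv_cancel, inv_mul_cancel, mul_one, one_mul, inv_one, C])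
  have k34 : o.lt (Q * f⁻¹) (g * m⁻¹) ↔ o.lt (Q * f⁻¹) (g * m⁻¹) := o.cv hδ (1) e25 (by simp only [mul_assoc, mul_inv_rev, inv_inv, mul_inv_cancel_left, inv_mul_cancel_left, mul_inv_cancel, inv_mul_cancel, mul_one, one_mul, inv_one, C]) (by simp only [mul_assoc, mul_inv_rev, inv_inv, mul_inv_cancel_left, inv_mul_cancel_left, mul_inv_cancel, inv_mul_cancel, mul_one, one_mul, inv_one, C])
  have k35 : o.lt (Q * f⁻¹) (P * g⁻¹) ↔ o.lt (Q * f⁻¹) (P * g⁻¹) := o.cv hδ (1) e24 (by simp only [mul_assoc, mul_inv_rev, inv_inv, mul_inv_cancel_left, inv_mul_cancel_left, mul_inv_cancel, inv_mul_cancel, mul_one, one_mul, inv_one, C]) (by simp only [mul_assoc, mul_inv_rev, inv_inv, mul_inv_cancel_left, inv_mul_cancel_left, mul_inv_cancel, inv_mul_cancel, mul_one, one_mul, inv_one, C])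
  have k36 : o.lt (P * g⁻¹) (g * m⁻¹) ↔ o.lt (P * g⁻¹) (g * m⁻¹) := o.cv hδ (1) e22 (by simp only [mul_assoc, mul_inv_rev, inv_inv, mul_inv_cancel_left, inv_mul_cancel_left, mul_inv_cancel, inv_mul_cancel, mul_one, one_mul, inv_one, C]) (by simp only [mul_assoc, mul_inv_rev, inv_inv, mul_inv_cancel_left, inv_mul_cancel_left, mul_inv_cancel, inv_mul_cancel, mul_one, one_mul, inv_one, C])
  have k37 : o.lt (m * f⁻¹) (g * P⁻¹) ↔ o.lt (m * f⁻¹) (g * P⁻¹) := o.cv hδ (1) e4 (by simp only [mul_assoc, mul_inv_rev, inv_inv, mul_inv_cancel_left, inv_mul_cancel_left, mul_inv_cancel, inv_mul_cancel, mul_one, one_mul, inv_one, C]) (by simp only [mul_assoc, mul_inv_rev, inv_inv, mul_inv_cancel_left, inv_mul_cancel_left, mul_inv_cancel, inv_mul_cancel, mul_one, one_mul, inv_one, C])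
  have k38 : o.lt (m * f⁻¹) (g * Q⁻¹) ↔ o.lt (m * f⁻¹) (g * Q⁻¹) := o.cv hδ (1) e26 (by simp only [mul_assoc, mul_inv_rev, inv_inv, mul_inv_cancel_left, inv_mul_cancel_left, mul_inv_cancel, inv_mul_cancel, mul_one, one_mul, inv_one, C]) (by simp only [mul_assoc, mul_inv_rev, inv_inv, mul_inv_cancel_left, inv_mul_cancel_left, mul_inv_cancel, inv_mul_cancel, mul_one, one_mul, inv_one, C])
  have k39 : o.lt (g * Q⁻¹) (g * P⁻¹) ↔ o.lt (g * Q⁻¹) (g * P⁻¹) := o.cv hδ (1) e2 (by simp only [mul_assoc, mul_inv_rev, inv_inv, mul_inv_cancel_left, inv_mul_cancel_left, mul_inv_cancel, inv_mul_cancel, mul_one, one_mul, inv_one, C]) (by simp only [mul_assoc, mul_inv_rev, inv_inv, mul_inv_cancel_left, inv_mul_cancel_left, mul_inv_cancel, inv_mul_cancel, mul_one, one_mul, inv_one, C])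
  have k40 : o.lt (m * f⁻¹) (m * g⁻¹) ↔ o.lt (m * f⁻¹) (m * g⁻¹) := o.cv hδ (1) e33 (by simp only [mul_assoc, mul_inv_rev, inv_inv, mul_inv_cancel_left, inv_mul_cancel_left, mul_inv_cancel, inv_mul_cancel, mul_one, one_mul, inv_one, C]) (by simp only [mul_assoc, mul_inv_rev, inv_inv, mul_inv_cancel_left, inv_mul_cancel_left, mul_inv_cancel, inv_mul_cancel, mul_one, one_mul, inv_one, C])
  have k41 : o.lt (m * g⁻¹) (m * f⁻¹) ↔ o.lt (m * g⁻¹) (m * f⁻¹) := o.cv hδ (1) e35 (by simp only [mul_assoc, mul_inv_rev, inv_inv, mul_inv_cancel_left, inv_mul_cancel_left, mul_inv_cancel, inv_mul_cancel, mul_one, one_mul, inv_one, C]) (by simp only [mul_assoc, mul_inv_rev, inv_inv, mul_inv_cancel_left, inv_mul_cancel_left, mul_inv_cancel, inv_mul_cancel, mul_one, one_mul, inv_one, C])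
  have k42 : o.lt (m * g⁻¹) (f * P⁻¹) ↔ o.lt (m * g⁻¹) (f * P⁻¹) := o.cv hδ (1) e34 (by simp only [mul_assoc, mul_inv_rev, inv_inv, mul_inv_cancel_left, inv_mul_cancel_left, mul_inv_cancel, inv_mul_cancel, mul_one, one_mul, inv_one, C]) (by simp only [mul_assoc, mul_inv_rev, inv_inv, mul_inv_cancel_left, inv_mul_cancel_left, mul_inv_cancel, inv_mul_cancel, mul_one, one_mul, inv_one, C])
  have k43 : o.lt (P * f⁻¹) (m * P⁻¹) ↔ o.lt (f * P⁻¹) (m * f⁻¹) := o.cv hδ (f * (P⁻¹ * (f * P⁻¹))) e21 (by simp only [mul_assoc, mul_inv_rev, inv_inv, mul_inv_cancel_left, inv_mul_cancel_left, mul_inv_cancel, inv_mul_cancel, mul_one, one_mul, inv_one, C]) (by simp only [mul_assoc, mul_inv_rev, inv_inv, mul_inv_cancel_left, inv_mul_cancel_left, mul_inv_cancel, inv_mul_cancel, mul_one, one_mul, inv_one, C])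
  have k44 : o.lt (f * Q⁻¹) (m * g⁻¹) ↔ o.lt (f * Q⁻¹) (m * g⁻¹) := o.cv hδ (1) e36 (by simp only [mul_assoc, mul_inv_rev, inv_inv, mul_inv_cancel_left, inv_mul_cancel_left, mul_inv_cancel, inv_mul_cancel, mul_one, one_mul, inv_one, C]) (by simp only [mul_assoc, mul_inv_rev, inv_inv, mul_inv_cancel_left, inv_mul_cancel_left, mul_inv_cancel, inv_mul_cancel, mul_one, one_mul, inv_one, C])
  have k45 : o.lt (f * Q⁻¹) (g * P⁻¹) ↔ o.lt (f * Q⁻¹) (g * P⁻¹) := o.cv hδ (1) e6 (by simp only [mul_assoc, mul_inv_rev, inv_inv, mul_inv_cancel_left, inv_mul_cancel_left, mul_inv_cancel, inv_mul_cancel, mul_one, one_mul, inv_one, C]) (by simp only [mul_assoc, mul_inv_rev, inv_inv, mul_inv_cancel_left, inv_mul_cancel_left, mul_inv_cancel, inv_mul_cancel, mul_one, one_mul, inv_one, C])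
  have k46 : o.lt (P * g⁻¹) (m * P⁻¹) ↔ o.lt (g * P⁻¹) (m * g⁻¹) := o.cv hδ (g * (P⁻¹ * (g * P⁻¹))) e10 (by simp only [mul_assoc, mul_inv_rev, inv_inv, mul_inv_cancel_left, inv_mul_cancel_left, mul_inv_cancel, inv_mul_cancel, mul_one, one_mul, inv_one, C]) (by simp only [mul_assoc, mul_inv_rev, inv_inv, mul_inv_cancel_left, inv_mul_cancel_left, mul_inv_cancel, inv_mul_cancel, mul_one, one_mul, inv_one, C])
  have k47 : o.lt (P * g⁻¹) (g * m⁻¹) ↔ o.lt (P * m⁻¹) (m * g⁻¹) := o.cv hδ (g * m⁻¹) e22 (by simp only [mul_assoc, mul_inv_rev, inv_inv, mul_inv_cancel_left, inv_mul_cancel_left, mul_inv_cancel, inv_mul_cancel, mul_one, one_mul, inv_one, C]) (by simp only [mul_assoc, mul_inv_rev, inv_inv, mul_inv_cancel_left, inv_mul_cancel_left, mul_inv_cancel, inv_mul_cancel, mul_one, one_mul, inv_one, C])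
  have k48 : o.lt (P * f⁻¹) (f * m⁻¹) ↔ o.lt (P * m⁻¹) (m * f⁻¹) := o.cv hδ (f * m⁻¹) e20 (by simp only [mul_assoc, mul_inv_rev, inv_inv, mul_inv_cancel_left, inv_mul_cancel_left, mul_inv_cancel, inv_mul_cancel, mul_one, one_mul, inv_one, C]) (by simp only [mul_assoc, mul_inv_rev, inv_inv, mul_inv_cancel_left, inv_mul_cancel_left, mul_inv_cancel, inv_mul_cancel, mul_one, one_mul, inv_one, C])
  have k49 : o.lt (f * m⁻¹) (g * m⁻¹) ↔ o.lt (f * P⁻¹) (g * P⁻¹) := o.cv hδ (m * P⁻¹) e3 (by simp only [mul_assoc, mul_inv_rev, inv_inv, mul_inv_cancel_left, inv_mul_cancel_left, mul_inv_cancel, inv_mul_cancel, mul_one, one_mul, inv_one, C]) (by simp only [mul_assoc, mul_inv_rev, inv_inv, mul_inv_cancel_left, inv_mul_cancel_left, mul_inv_cancel, inv_mul_cancel, mul_one, one_mul, inv_one, C])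
  have k50 : o.lt (P * f⁻¹) (P * g⁻¹) ↔ o.lt (f * P⁻¹) (P * (g⁻¹ * (P * f⁻¹))) := o.cv hδ (f * (P⁻¹ * (f * P⁻¹))) e19 (by simp only [mul_assoc, mul_inv_rev, inv_inv, mul_inv_cancel_left, inv_mul_cancel_left, mul_inv_cancel, inv_mul_cancel, mul_one, one_mul, inv_one, C]) (by simp only [mul_assoc, mul_inv_rev, inv_inv, mul_inv_cancel_left, inv_mul_cancel_left, mul_inv_cancel, inv_mul_cancel, mul_one, one_mul, inv_one, C])
  have k51 : o.lt (g * (P⁻¹ * (g * Q⁻¹))) (g * (P⁻¹ * (f * Q⁻¹))) ↔ o.lt (P * (g⁻¹ * (P * f⁻¹))) (g * P⁻¹) := o.cv hδ (Q * (g⁻¹ * (P * (g⁻¹ * (P * (g⁻¹ * (P * f⁻¹))))))) e11 (by simp only [mul_assoc, mul_inv_rev, inv_inv, mul_inv_cancel_left, inv_mul_cancel_left, mul_inv_cancel, inv_mul_cancel, mul_one, one_mul, inv_one, C]) (by simp only [mul_assoc, mul_inv_rev, inv_inv, mul_inv_cancel_left, inv_mul_cancel_left, mul_inv_cancel, inv_mul_cancel, mul_one, one_mul, inv_one, C])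
  have k52 : o.lt (g * (P⁻¹ * (f * m⁻¹))) (g * (P⁻¹ * (g * m⁻¹))) ↔ o.lt (g * P⁻¹) (P * (g⁻¹ * (P * f⁻¹))) := o.cv hδ (m * f⁻¹) e8 (by simp only [mul_assoc, mul_inv_rev, inv_inv, mul_inv_cancel_left, inv_mul_cancel_left, mul_inv_cancel, inv_mul_cancel, mul_one, one_mul, inv_one, C]) (by simp only [mul_assoc, mul_inv_rev, inv_inv, mul_inv_cancel_left, inv_mul_cancel_left, mul_inv_cancel, inv_mul_cancel, mul_one, one_mul, inv_one, C])
  have k53 : o.lt (g) (f) ↔ o.lt (g * P⁻¹) (f * P⁻¹) := o.cv hδ (P⁻¹) e0 (by simp only [mul_assoc, mul_inv_rev, inv_inv, mul_inv_cancel_left, inv_mul_cancel_left, mul_inv_cancel, inv_mul_cancel, mul_one, one_mul, inv_one, C]) (by simp only [mul_assoc, mul_inv_rev, inv_inv, mul_inv_cancel_left, inv_mul_cancel_left, mul_inv_cancel, inv_mul_cancel, mul_one, one_mul, inv_one, C])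
  have k54 : o.lt (Q * f⁻¹) (P * g⁻¹) ↔ o.lt (f * Q⁻¹) (P * (g⁻¹ * (Q * f⁻¹))) := o.cv hδ (f * (Q⁻¹ * (f * Q⁻¹))) e24 (by simp only [mul_assoc, mul_inv_rev, inv_inv, mul_inv_cancel_left, inv_mul_cancel_left, mul_inv_cancel, inv_mul_cancel, mul_one, one_mul, inv_one, C]) (by simp only [mul_assoc, mul_inv_rev, inv_inv, mul_inv_cancel_left, inv_mul_cancel_left, mul_inv_cancel, inv_mul_cancel, mul_one, one_mul, inv_one, C])
  have k55 : o.lt (g * P⁻¹) (P * (g⁻¹ * (Q * f⁻¹))) ↔ o.lt (g * P⁻¹) (P * (g⁻¹ * (Q * f⁻¹))) := o.cv hδ (1) e31 (by simp only [mul_assoc, mul_inv_rev, inv_inv, mul_inv_cancel_left, inv_mul_cancel_left, mul_inv_cancel, inv_mul_cancel, mul_one, one_mul, inv_one, C]) (by simp only [mul_assoc, mul_inv_rev, inv_inv, mul_inv_cancel_left, inv_mul_cancel_left, mul_inv_cancel, inv_mul_cancel, mul_one, one_mul, inv_one, C])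
  have k56 : o.lt (g * f⁻¹) (g * (P⁻¹ * (g * m⁻¹))) ↔ o.lt (g * f⁻¹) (g * (P⁻¹ * (g * m⁻¹))) := o.cv hδ (1) e1 (by simp only [mul_assoc, mul_inv_rev, inv_inv, mul_inv_cancel_left, inv_mul_cancel_left, mul_inv_cancel, inv_mul_cancel, mul_one, one_mul, inv_one, C]) (by simp only [mul_assoc, mul_inv_rev, inv_inv, mul_inv_cancel_left, inv_mul_cancel_left, mul_inv_cancel, inv_mul_cancel, mul_one, one_mul, inv_one, C])
  have k57 : o.lt (g * (P⁻¹ * (g * m⁻¹))) (g * f⁻¹) ↔ o.lt (g * (P⁻¹ * (g * m⁻¹))) (g * f⁻¹) := o.cv hδ (1) e9 (by simp only [mul_assoc, mul_inv_rev, inv_inv, mul_inv_cancel_left, inv_mul_cancel_left, mul_inv_cancel, inv_mul_cancel, mul_one, one_mul, inv_one, C]) (by simp only [mul_assoc, mul_inv_rev, inv_inv, mul_inv_cancel_left, inv_mul_cancel_left, mul_inv_cancel, inv_mul_cancel, mul_one, one_mul, inv_one, C])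
  have k58 : o.lt (f * m⁻¹) (g * m⁻¹) ↔ o.lt (1) (g * f⁻¹) := o.cv hδ (m * f⁻¹) e3 (by simp only [mul_assoc, mul_inv_rev, inv_inv, mul_inv_cancel_left, inv_mul_cancel_left, mul_inv_cancel, inv_mul_cancel, mul_one, one_mul, inv_one, C]) (by simp only [mul_assoc, mul_inv_rev, inv_inv, mul_inv_cancel_left, inv_mul_cancel_left, mul_inv_cancel, inv_mul_cancel, mul_one, one_mul, inv_one, C])
  have k59 : o.lt (1) (g * (P⁻¹ * (g * m⁻¹))) ↔ o.lt (1) (g * (P⁻¹ * (g * m⁻¹))) := o.cv hδ (1) e5 (by simp only [mul_assoc, mul_inv_rev, inv_inv, mul_inv_cancel_left, inv_mul_cancel_left, mul_inv_cancel, inv_mul_cancel, mul_one, one_mul, inv_one, C]) (by simp only [mul_assoc, mul_inv_rev, inv_inv, mul_inv_cancel_left, inv_mul_cancel_left, mul_inv_cancel, inv_mul_cancel, mul_one, one_mul, inv_one, C])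
  have k60 : o.lt (g * Q⁻¹) (g * P⁻¹) ↔ o.lt (1) (g * (P⁻¹ * (Q * g⁻¹))) := o.cv hδ (Q * g⁻¹) e2 (by simp only [mul_assoc, mul_inv_rev, inv_inv, mul_inv_cancel_left, inv_mul_cancel_left, mul_inv_cancel, inv_mul_cancel, mul_one, one_mul, inv_one, C]) (by simp only [mul_assoc, mul_inv_rev, inv_inv, mul_inv_cancel_left, inv_mul_cancel_left, mul_inv_cancel, inv_mul_cancel, mul_one, one_mul, inv_one, C])
  have k61 : o.lt (g * (P⁻¹ * (Q * g⁻¹))) (g * f⁻¹) ↔ o.lt (g * (P⁻¹ * (Q * g⁻¹))) (g * f⁻¹) := o.cv hδ (1) e13 (by simp only [mul_assoc, mul_inv_rev, inv_inv, mul_inv_cancel_left, inv_mul_cancel_left, mul_inv_cancel, inv_mul_cancel, mul_one, one_mul, inv_one, C]) (by simp only [mul_assoc, mul_inv_rev, inv_inv, mul_inv_cancel_left, inv_mul_cancel_left, mul_inv_cancel, inv_mul_cancel, mul_one, one_mul, inv_one, C])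
  have k62 : o.lt (m * f⁻¹) (g * P⁻¹) ↔ o.lt (1) (g * (P⁻¹ * (f * m⁻¹))) := o.cv hδ (f * m⁻¹) e4 (by simp only [mul_assoc, mul_inv_rev, inv_inv, mul_inv_cancel_left, inv_mul_cancel_left, mul_inv_cancel, inv_mul_cancel, mul_one, one_mul, inv_one, C]) (by simp only [mul_assoc, mul_inv_rev, inv_inv, mul_inv_cancel_left, inv_mul_cancel_left, mul_inv_cancel, inv_mul_cancel, mul_one, one_mul, inv_one, C])
  have k63 : o.lt (g * (P⁻¹ * (f * m⁻¹))) (g * (P⁻¹ * (g * m⁻¹))) ↔ o.lt (g * (P⁻¹ * (f * m⁻¹))) (g * (P⁻¹ * (g * m⁻¹))) := o.cv hδ (1) e8 (by simp only [mul_assoc, mul_inv_rev, inv_inv, mul_inv_cancel_left, inv_mul_cancel_left, mul_inv_cancel, inv_mul_cancel, mul_one, one_mul, inv_one, C]) (by simp only [mul_assoc, mul_inv_rev, inv_inv, mul_inv_cancel_left, inv_mul_cancel_left, mul_inv_cancel, inv_mul_cancel, mul_one, one_mul, inv_one, C])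
  have k64 : o.lt (f * Q⁻¹) (g * P⁻¹) ↔ o.lt (1) (g * (P⁻¹ * (Q * f⁻¹))) := o.cv hδ (Q * f⁻¹) e6 (by simp only [mul_assoc, mul_inv_rev, inv_inv, mul_inv_cancel_left, inv_mul_cancel_left, mul_inv_cancel, inv_mul_cancel, mul_one, one_mul, inv_one, C]) (by simp only [mul_assoc, mul_inv_rev, inv_inv, mul_inv_cancel_left, inv_mul_cancel_left, mul_inv_cancel, inv_mul_cancel, mul_one, one_mul, inv_one, C])
  have k65 : o.lt (g * (P⁻¹ * (Q * g⁻¹))) (g * (P⁻¹ * (Q * f⁻¹))) ↔ o.lt (g * (P⁻¹ * (Q * g⁻¹))) (g * (P⁻¹ * (Q * f⁻¹))) := o.cv hδ (1) e16 (by simp only [mul_assoc, mul_inv_rev, inv_inv, mul_inv_cancel_left, inv_mul_cancel_left, mul_inv_cancel, inv_mul_cancel, mul_one, one_mul, inv_one, C]) (by simp only [mul_assoc, mul_inv_rev, inv_inv, mul_inv_cancel_left, inv_mul_cancel_left, mul_inv_cancel, inv_mul_cancel, mul_one, one_mul, inv_one, C])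
  have k66 : o.lt (g * (P⁻¹ * (f * m⁻¹))) (g * f⁻¹) ↔ o.lt (g * (P⁻¹ * (f * m⁻¹))) (g * f⁻¹) := o.cv hδ (1) e7 (by simp only [mul_assoc, mul_inv_rev, inv_inv, mul_inv_cancel_left, inv_mul_cancel_left, mul_inv_cancel, inv_mul_cancel, mul_one, one_mul, inv_one, C]) (by simp only [mul_assoc, mul_inv_rev, inv_inv, mul_inv_cancel_left, inv_mul_cancel_left, mul_inv_cancel, inv_mul_cancel, mul_one, one_mul, inv_one, C])
  have k67 : o.lt (P * g⁻¹) (m * P⁻¹) ↔ o.lt (g * (P⁻¹ * (g * m⁻¹))) (1) := o.cv hδ (g * (P⁻¹ * (g * (P⁻¹ * (g * m⁻¹))))) e10 (by simp only [mul_assoc, mul_inv_rev, inv_inv, mul_inv_cancel_left, inv_mul_cancel_left, mul_inv_cancel, inv_mul_cancel, mul_one, one_mul, inv_one, C]) (by simp only [mul_assoc, mul_inv_rev, inv_inv, mul_inv_cancel_left, inv_mul_cancel_left, mul_inv_cancel, inv_mul_cancel, mul_one, one_mul, inv_one, C])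
  have k68 : o.lt (g) (f) ↔ o.lt (g * f⁻¹) (1) := o.cv hδ (f⁻¹) e0 (by simp only [mul_assoc, mul_inv_rev, inv_inv, mul_inv_cancel_left, inv_mul_cancel_left, mul_inv_cancel, inv_mul_cancel, mul_one, one_mul, inv_one, C]) (by simp only [mul_assoc, mul_inv_rev, inv_inv, mul_inv_cancel_left, inv_mul_cancel_left, mul_inv_cancel, inv_mul_cancel, mul_one, one_mul, inv_one, C])
  have k69 : o.lt (g * (P⁻¹ * (g * m⁻¹))) (g * (P⁻¹ * (Q * f⁻¹))) ↔ o.lt (g * (P⁻¹ * (g * m⁻¹))) (g * (P⁻¹ * (Q * f⁻¹))) := o.cv hδ (1) e12 (by simp only [mul_assoc, mul_inv_rev, inv_inv, mul_inv_cancel_left, inv_mul_cancel_left, mul_inv_cancel, inv_mul_cancel, mul_one, one_mul, inv_one, C]) (by simp only [mul_assoc, mul_inv_rev, inv_inv, mul_inv_cancel_left, inv_mul_cancel_left, mul_inv_cancel, inv_mul_cancel, mul_one, one_mul, inv_one, C])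
  have k70 : o.lt (g * Q⁻¹) (g * P⁻¹) ↔ o.lt (g * f⁻¹) (g * (P⁻¹ * (Q * f⁻¹))) := o.cv hδ (Q * f⁻¹) e2 (by simp only [mul_assoc, mul_inv_rev, inv_inv, mul_inv_cancel_left, inv_mul_cancel_left, mul_inv_cancel, inv_mul_cancel, mul_one, one_mul, inv_one, C]) (by simp only [mul_assoc, mul_inv_rev, inv_inv, mul_inv_cancel_left, inv_mul_cancel_left, mul_inv_cancel, inv_mul_cancel, mul_one, one_mul, inv_one, C])
  have k71 : o.lt (g * (P⁻¹ * (Q * g⁻¹))) (g * (P⁻¹ * (g * m⁻¹))) ↔ o.lt (g * (P⁻¹ * (Q * g⁻¹))) (g * (P⁻¹ * (g * m⁻¹))) := o.cv hδ (1) e15 (by simp only [mul_assoc, mul_inv_rev, inv_inv, mul_inv_cancel_left, inv_mul_cancel_left, mul_inv_cancel, inv_mul_cancel, mul_one, one_mul, inv_one, C]) (by simp only [mul_assoc, mul_inv_rev, inv_inv, mul_inv_cancel_left, inv_mul_cancel_left, mul_inv_cancel, inv_mul_cancel, mul_one, one_mul, inv_one, C])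
  have k72 : o.lt (g * (P⁻¹ * (Q * g⁻¹))) (g * (P⁻¹ * (f * m⁻¹))) ↔ o.lt (g * (P⁻¹ * (Q * g⁻¹))) (g * (P⁻¹ * (f * m⁻¹))) := o.cv hδ (1) e14 (by simp only [mul_assoc, mul_inv_rev, inv_inv, mul_inv_cancel_left, inv_mul_cancel_left, mul_inv_cancel, inv_mul_cancel, mul_one, one_mul, inv_one, C]) (by simp only [mul_assoc, mul_inv_rev, inv_inv, mul_inv_cancel_left, inv_mul_cancel_left, mul_inv_cancel, inv_mul_cancel, mul_one, one_mul, inv_one, C])
  have k73 : o.lt (g * (P⁻¹ * (Q * f⁻¹))) (g * (P⁻¹ * (Q * g⁻¹))) ↔ o.lt (g * (P⁻¹ * (Q * f⁻¹))) (g * (P⁻¹ * (Q * g⁻¹))) := o.cv hδ (1) e17 (by simp only [mul_assoc, mul_inv_rev, inv_inv, mul_inv_cancel_left, inv_mul_cancel_left, mul_inv_cancel, inv_mul_cancel, mul_one, one_mul, inv_one, C]) (by simp only [mul_assoc, mul_inv_rev, inv_inv, mul_inv_cancel_left, inv_mul_cancel_left, mul_inv_cancel, inv_mul_cancel, mul_one, one_mul, inv_one, C])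
  have k74 : o.lt (g * (P⁻¹ * (m * f⁻¹))) (g * (P⁻¹ * (m * g⁻¹))) ↔ o.lt (g * (P⁻¹ * (m * f⁻¹))) (g * (P⁻¹ * (m * g⁻¹))) := o.cv hδ (1) e27 (by simp only [mul_assoc, mul_inv_rev, inv_inv, mul_inv_cancel_left, inv_mul_cancel_left, mul_inv_cancel, inv_mul_cancel, mul_one, one_mul, inv_one, C]) (by simp only [mul_assoc, mul_inv_rev, inv_inv, mul_inv_cancel_left, inv_mul_cancel_left, mul_inv_cancel, inv_mul_cancel, mul_one, one_mul, inv_one, C])
  have k75 : o.lt (g * (P⁻¹ * (m * g⁻¹))) (g * (P⁻¹ * (m * f⁻¹))) ↔ o.lt (g * (P⁻¹ * (m * g⁻¹))) (g * (P⁻¹ * (m * f⁻¹))) := o.cv hδ (1) e29 (by simp only [mul_assoc, mul_inv_rev, inv_inv, mul_inv_cancel_left, inv_mul_cancel_left, mul_inv_cancel, inv_mul_cancel, mul_one, one_mul, inv_one, C]) (by simp only [mul_assoc, mul_inv_rev, inv_inv, mul_inv_cancel_left, inv_mul_cancel_left, mul_inv_cancel, inv_mul_cancel, mul_one, one_mul, inv_one, C])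
  have k76 : o.lt (g * (P⁻¹ * (m * g⁻¹))) (P * g⁻¹) ↔ o.lt (g * (P⁻¹ * (m * g⁻¹))) (P * g⁻¹) := o.cv hδ (1) e18 (by simp only [mul_assoc, mul_inv_rev, inv_inv, mul_inv_cancel_left, inv_mul_cancel_left, mul_inv_cancel, inv_mul_cancel, mul_one, one_mul, inv_one, C]) (by simp only [mul_assoc, mul_inv_rev, inv_inv, mul_inv_cancel_left, inv_mul_cancel_left, mul_inv_cancel, inv_mul_cancel, mul_one, one_mul, inv_one, C])
  have k77 : o.lt (g * (P⁻¹ * (m * g⁻¹))) (g * (P⁻¹ * (f * P⁻¹))) ↔ o.lt (g * (P⁻¹ * (m * g⁻¹))) (g * (P⁻¹ * (f * P⁻¹))) := o.cv hδ (1) e28 (by simp only [mul_assoc, mul_inv_rev, inv_inv, mul_inv_cancel_left, inv_mul_cancel_left, mul_inv_cancel, inv_mul_cancel, mul_one, one_mul, inv_one, C]) (by simp only [mul_assoc, mul_inv_rev, inv_inv, mul_inv_cancel_left, inv_mul_cancel_left, mul_inv_cancel, inv_mul_cancel, mul_one, one_mul, inv_one, C])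
  have k78 : o.lt (g * (P⁻¹ * (f * m⁻¹))) (g * (P⁻¹ * (g * m⁻¹))) ↔ o.lt (g * (P⁻¹ * (f * P⁻¹))) (P * g⁻¹) := o.cv hδ (m * P⁻¹) e8 (by simp only [mul_assoc, mul_inv_rev, inv_inv, mul_inv_cancel_left, inv_mul_cancel_left, mul_inv_cancel, inv_mul_cancel, mul_one, one_mul, inv_one, C]) (by simp only [mul_assoc, mul_inv_rev, inv_inv, mul_inv_cancel_left, inv_mul_cancel_left, mul_inv_cancel, inv_mul_cancel, mul_one, one_mul, inv_one, C])
  have k79 : o.lt (g * (P⁻¹ * (m * g⁻¹))) (g * (P⁻¹ * (f * Q⁻¹))) ↔ o.lt (g * (P⁻¹ * (m * g⁻¹))) (g * (P⁻¹ * (f * Q⁻¹))) := o.cv hδ (1) e30 (by simp only [mul_assoc, mul_inv_rev, inv_inv, mul_inv_cancel_left, inv_mul_cancel_left, mul_inv_cancel, inv_mul_cancel, mul_one, one_mul, inv_one, C]) (by simp only [mul_assoc, mul_inv_rev, inv_inv, mul_inv_cancel_left, inv_mul_cancel_left, mul_inv_cancel, inv_mul_cancel, mul_one, one_mul, inv_one, C])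
  have k80 : o.lt (g * (P⁻¹ * (f * Q⁻¹))) (g * (P⁻¹ * (m * g⁻¹))) ↔ o.lt (g * (P⁻¹ * (f * Q⁻¹))) (g * (P⁻¹ * (m * g⁻¹))) := o.cv hδ (1) e32 (by simp only [mul_assoc, mul_inv_rev, inv_inv, mul_inv_cancel_left, inv_mul_cancel_left, mul_inv_cancel, inv_mul_cancel, mul_one, one_mul, inv_one, C]) (by simp only [mul_assoc, mul_inv_rev, inv_inv, mul_inv_cancel_left, inv_mul_cancel_left, mul_inv_cancel, inv_mul_cancel, mul_one, one_mul, inv_one, C])
  have k81 : o.lt (g * P⁻¹) (P * (g⁻¹ * (Q * f⁻¹))) ↔ o.lt (g * (P⁻¹ * (f * Q⁻¹))) (P * g⁻¹) := o.cv hδ (f * Q⁻¹) e31 (by simp only [mul_assoc, mul_inv_rev, inv_inv, mul_inv_cancel_left, inv_mul_cancel_left, mul_inv_cancel, inv_mul_cancel, mul_one, one_mul, inv_one, C]) (by simp only [mul_assoc, mul_inv_rev, inv_inv, mul_inv_cancel_left, inv_mul_cancel_left, mul_inv_cancel, inv_mul_cancel, mul_one, one_mul, inv_one, C])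
  have k82 : o.lt (g * Q⁻¹) (g * P⁻¹) ↔ o.lt ((Q * g⁻¹)⁻¹) ((P * g⁻¹)⁻¹) := o.cv hδ (1) e2 (by simp only [mul_assoc, mul_inv_rev, inv_inv, mul_inv_cancel_left, inv_mul_cancel_left, mul_inv_cancel, inv_mul_cancel, mul_one, one_mul, inv_one, C]) (by simp only [mul_assoc, mul_inv_rev, inv_inv, mul_inv_cancel_left, inv_mul_cancel_left, mul_inv_cancel, inv_mul_cancel, mul_one, one_mul, inv_one, C])
  have k83 : o.lt (f * m⁻¹) (g * m⁻¹) ↔ o.lt ((P * f⁻¹)⁻¹) ((P * g⁻¹)⁻¹) := o.cv hδ (m * P⁻¹) e3 (by simp only [mul_assoc, mul_inv_rev, inv_inv, mul_inv_cancel_left, inv_mul_cancel_left, mul_inv_cancel, inv_mul_cancel, mul_one, one_mul, inv_one, C]) (by simp only [mul_assoc, mul_inv_rev, inv_inv, mul_inv_cancel_left, inv_mul_cancel_left, mul_inv_cancel, inv_mul_cancel, mul_one, one_mul, inv_one, C])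
  exact ser_ACE_2_prop
    (fun b0 b1 b2 => N0.r.r0 1 (fun h => b0 (k0.2 h)) (k1.1 b1) (fun h => b2 (k2.2 h)))
    (fun b0 b1 b2 => N1.d.r0 1 (k3.1 b0) (fun h => b1 (k4.2 h)) (fun h => b2 (k5.2 h)))
    (fun b0 b1 b2 b3 => N1.r.r2 1 (fun h => b0 (k6.2 h)) (k7.1 b1) (fun h => b2 (k8.2 h)) (fun h => b3 (k9.2 h)))
    (fun b0 b1 b2 => N0.r.r0 (g * P⁻¹) (fun h => b0 (k10.2 h)) (k11.1 b1) (fun h => b2 (k12.2 h)))
    (fun b0 b1 b2 => N0.d.r0 (g * P⁻¹) (fun h => b0 (k13.2 h)) (k14.1 b1) (fun h => b2 (k15.2 h)))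
    (fun b0 b1 b2 => N0.d.r1 (g * P⁻¹) (fun h => b0 (k16.2 h)) (fun h => b1 (k17.2 h)) (k15.1 b2))
    (fun b0 b1 b2 b3 => N1.i.r2 (g * P⁻¹) (fun h => b0 (k18.2 h)) (k19.1 b1) (fun h => b2 (k20.2 h)) (fun h => b3 (k21.2 h)))
    (fun b0 b1 b2 => N1.rd.r0 (g * P⁻¹) (k22.1 b0) (fun h => b1 (k23.2 h)) (fun h => b2 (k24.2 h)))
    (fun b0 b1 b2 => N1.i.r0 (g * P⁻¹) (k25.1 b0) (fun h => b1 (k20.2 h)) (fun h => b2 (k26.2 h)))
    (fun b0 b1 => o.asym (k27.1 b0) (k28.1 b1))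
    (fun b0 b1 b2 => o.tri (k29.1 b0) (fun h => b1 (k30.2 h)) (fun h => b2 (k31.2 h)))
    (fun b0 b1 => o.asym (k32.1 b0) (k33.1 b1))
    (fun b0 b1 b2 => o.tri (k34.1 b0) (fun h => b1 (k35.2 h)) (fun h => b2 (k36.2 h)))
    (fun b0 b1 b2 => o.tri (k37.1 b0) (fun h => b1 (k38.2 h)) (fun h => b2 (k39.2 h)))
    (fun b0 b1 => o.asym (k40.1 b0) (k41.1 b1))
    (fun b0 b1 b2 => o.tri (k41.1 b0) (fun h => b1 (k42.2 h)) (fun h => b2 (k43.2 h)))
    (fun b0 b1 b2 => o.tri (k44.1 b0) (fun h => b1 (k45.2 h)) (fun h => b2 (k46.2 h)))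
    (fun b0 b1 b2 => o.tri (k47.1 b0) (fun h => b1 (k48.2 h)) (fun h => b2 (k40.2 h)))
    (fun b0 b1 b2 => o.tri (k49.1 b0) (fun h => b1 (k50.2 h)) (fun h => b2 (k51.2 h)))
    (fun b0 b1 b2 => o.tri (k52.1 b0) (fun h => b1 (k53.2 h)) (fun h => b2 (k50.2 h)))
    (fun b0 b1 b2 => o.tri (k54.1 b0) (fun h => b1 (k45.2 h)) (fun h => b2 (k55.2 h)))
    (fun b0 b1 => o.asym (k56.1 b0) (k57.1 b1))
    (fun b0 b1 b2 => o.tri (k58.1 b0) (fun h => b1 (k59.2 h)) (fun h => b2 (k57.2 h)))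
    (fun b0 b1 b2 => o.tri (k58.1 b0) (fun h => b1 (k60.2 h)) (fun h => b2 (k61.2 h)))
    (fun b0 b1 b2 => o.tri (k59.1 b0) (fun h => b1 (k62.2 h)) (fun h => b2 (k63.2 h)))
    (fun b0 b1 b2 => o.tri (k64.1 b0) (fun h => b1 (k60.2 h)) (fun h => b2 (k65.2 h)))
    (fun b0 b1 b2 => o.tri (k66.1 b0) (fun h => b1 (k63.2 h)) (fun h => b2 (k57.2 h)))
    (fun b0 b1 b2 => o.tri (k67.1 b0) (fun h => b1 (k57.2 h)) (fun h => b2 (k68.2 h)))
    (fun b0 b1 b2 => o.tri (k69.1 b0) (fun h => b1 (k57.2 h)) (fun h => b2 (k70.2 h)))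
    (fun b0 b1 b2 => o.tri (k61.1 b0) (fun h => b1 (k71.2 h)) (fun h => b2 (k57.2 h)))
    (fun b0 b1 b2 => o.tri (k71.1 b0) (fun h => b1 (k72.2 h)) (fun h => b2 (k63.2 h)))
    (fun b0 b1 => o.asym (k65.1 b0) (k73.1 b1))
    (fun b0 b1 => o.asym (k74.1 b0) (k75.1 b1))
    (fun b0 b1 b2 => o.tri (k76.1 b0) (fun h => b1 (k77.2 h)) (fun h => b2 (k78.2 h)))
    (fun b0 b1 => o.asym (k79.1 b0) (k80.1 b1))
    (fun b0 b1 b2 => o.tri (k81.1 b0) (fun h => b1 (k80.2 h)) (fun h => b2 (k76.2 h)))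
    (fun h => g0 (k30.1 h))
    (fun h => g1 (k82.1 h))
    (k83.2 g2)

theorem ser_BAE_0_prop {A1 A2 A3 A4 A5 A6 A7 A8 A9 A10 A11 A12 A13 A14 A15 A16 A17 A18 A19 A20 A21 A22 A23 A24 A25 A26 A27 : Prop}
    (c0 : ¬ A15 → ¬ A17 → A11 → ¬ A1 → False)
    (c1 : ¬ A11 → A13 → ¬ A3 → ¬ A1 → False)
    (c2 : ¬ A4 → ¬ A21 → A25 → ¬ A1 → False)
    (c3 : ¬ A26 → A23 → ¬ A18 → False)
    (c4 : ¬ A1 → ¬ A24 → A18 → False)
    (c5 : ¬ A25 → A24 → ¬ A20 → False)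
    (c6 : ¬ A7 → ¬ A8 → A10 → False)
    (c7 : A12 → ¬ A13 → ¬ A1 → False)
    (c8 : A14 → A19 → False)
    (c9 : A14 → ¬ A12 → ¬ A16 → False)
    (c10 : A15 → ¬ A16 → ¬ A19 → False)
    (c11 : A17 → ¬ A18 → ¬ A19 → False)
    (c12 : A18 → A20 → False)
    (c13 : A21 → ¬ A23 → ¬ A27 → False)
    (c14 : A3 → ¬ A16 → ¬ A6 → False)
    (c15 : A25 → A26 → False)
    (c16 : A23 → A24 → False)
    (c17 : A16 → ¬ A25 → ¬ A18 → False)
    (c18 : A4 → ¬ A22 → ¬ A2 → False)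
    (c19 : A22 → ¬ A26 → ¬ A23 → False)
    (c20 : A27 → ¬ A2 → ¬ A1 → False)
    (c21 : A2 → ¬ A1 → ¬ A5 → False)
    (c22 : A7 → ¬ A1 → ¬ A11 → False)
    (c23 : A3 → ¬ A2 → ¬ A9 → False)
    (c24 : A6 → ¬ A5 → ¬ A10 → False)
    (c25 : A8 → A9 → False)
    (u0 : A14)
    (u1 : ¬ A1)
    (u2 : ¬ A5)
    : False := by
  have q1 : ¬ A19 := fun h => c8 u0 h
  have q2 : ¬ A2 := fun h => c21 h u1 u2
  have q3 : ¬ A27 := fun h => c20 h q2 u1
  rcases Classical.em A18 with q4 | q4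
  · have q5 : A24 := Classical.byContradiction fun h => c4 u1 h q4
    have q6 : ¬ A20 := fun h => c12 q4 h
    have q7 : A25 := Classical.byContradiction fun h => c5 h q5 q6
    have q8 : ¬ A26 := fun h => c15 q7 h
    have q9 : ¬ A23 := fun h => c16 h q5
    have q10 : ¬ A21 := fun h => c13 h q9 q3
    have q11 : A4 := Classical.byContradiction fun h => c2 h q10 q7 u1
    have q12 : A22 := Classical.byContradiction fun h => c18 q11 h q2
    exact c19 q12 q8 q9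
  · have q13 : ¬ A17 := fun h => c11 h q4 q1
    rcases Classical.em A16 with q14 | q14
    · have q15 : A25 := Classical.byContradiction fun h => c17 q14 h q4
      have q16 : ¬ A26 := fun h => c15 q15 h
      have q17 : ¬ A23 := fun h => c3 q16 h q4
      have q18 : ¬ A21 := fun h => c13 h q17 q3
      have q19 : A4 := Classical.byContradiction fun h => c2 h q18 q15 u1
      have q20 : A22 := Classical.byContradiction fun h => c18 q19 h q2
      exact c19 q20 q16 q17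
    · have q21 : A12 := Classical.byContradiction fun h => c9 u0 h q14
      have q22 : A13 := Classical.byContradiction fun h => c7 q21 h u1
      have q23 : ¬ A15 := fun h => c10 h q14 q1
      have q24 : ¬ A11 := fun h => c0 q23 q13 h u1
      have q25 : A3 := Classical.byContradiction fun h => c1 q24 q22 h u1
      have q26 : A6 := Classical.byContradiction fun h => c14 q25 q14 h
      have q27 : ¬ A7 := fun h => c22 h u1 q24
      have q28 : A9 := Classical.byContradiction fun h => c23 q25 q2 h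
      have q29 : A10 := Classical.byContradiction fun h => c24 q26 u2 h
      have q30 : A8 := Classical.byContradiction fun h => c6 q27 h q29
      exact c25 q30 q28

theorem ser_BAE_0 {G : Type*} [Group G] {δ : G → ZMod 3} (hδ : ∀ u v, δ (u * v) = δ u + δ v) (o : Pre δ)
    {P m Q f g : G} {e : ZMod 3} (h3 : 3 * e = 0)
    (D : δ P = e ∧ δ m = -e ∧ δ Q = e ∧ δ f = 0 ∧ δ g = 0)
    (C : Cube P f ∧ Cube P g ∧ Cube m f ∧ Cube m g ∧ Cube Q f ∧ Cube Q g)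
    (N0 : RB o P m f g)
    (N1 : RA o Q m g f)
    (g0 : o.lt (P * f⁻¹) (Q * f⁻¹)) (g1 : ¬ o.lt ((P * g⁻¹)⁻¹) ((P * f⁻¹)⁻¹)) (g2 : ¬ o.lt ((Q * f⁻¹)⁻¹) ((P * g⁻¹)⁻¹)) : False := by
  simp only [Cube] at C
  have e0 : δ (g) = δ (f) := by simp only [hδ, δinv hδ, δone hδ, D] <;> linear_combination (0) * h3
  have e1 : δ (g * Q⁻¹) = δ (g * P⁻¹) := by simp only [hδ, δinv hδ, δone hδ, D] <;> linear_combination (0) * h3
  have e2 : δ (m * f⁻¹) = δ (g * P⁻¹) := by simp only [hδ, δinv hδ, δone hδ, D] <;> linear_combination (0) * h3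
  have e3 : δ (m * g⁻¹) = δ (g * P⁻¹) := by simp only [hδ, δinv hδ, δone hδ, D] <;> linear_combination (0) * h3
  have e4 : δ (f * Q⁻¹) = δ (g * P⁻¹) := by simp only [hδ, δinv hδ, δone hδ, D] <;> linear_combination (0) * h3
  have e5 : δ (Q * m⁻¹) = δ (g * P⁻¹) := by simp only [hδ, δinv hδ, δone hδ, D] <;> linear_combination (1) * h3
  have e6 : δ (g * (P⁻¹ * (f * m⁻¹))) = δ (g * (P⁻¹ * (g * m⁻¹))) := by simp only [hδ, δinv hδ, δone hδ, D] <;> linear_combination (0) * h3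
  have e7 : δ (g * (P⁻¹ * (f * m⁻¹))) = δ (g * (P⁻¹ * (Q * g⁻¹))) := by simp only [hδ, δinv hδ, δone hδ, D] <;> linear_combination (0) * h3
  have e8 : δ (g * (P⁻¹ * (Q * g⁻¹))) = δ (g * (P⁻¹ * (f * m⁻¹))) := by simp only [hδ, δinv hδ, δone hδ, D] <;> linear_combination (0) * h3
  have e9 : δ (g * (P⁻¹ * (f * Q⁻¹))) = δ (g * (P⁻¹ * (m * f⁻¹))) := by simp only [hδ, δinv hδ, δone hδ, D] <;> linear_combination (0) * h3
  have e10 : δ (P * f⁻¹) = δ (P * g⁻¹) := by simp only [hδ, δinv hδ, δone hδ, D] <;> linear_combination (0) * h3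
  have e11 : δ (P * f⁻¹) = δ (f * m⁻¹) := by simp only [hδ, δinv hδ, δone hδ, D] <;> linear_combination (0) * h3
  have e12 : δ (P * f⁻¹) = δ (g * m⁻¹) := by simp only [hδ, δinv hδ, δone hδ, D] <;> linear_combination (0) * h3
  have e13 : δ (P * f⁻¹) = δ (Q * f⁻¹) := by simp only [hδ, δinv hδ, δone hδ, D] <;> linear_combination (0) * h3
  have e14 : δ (f * m⁻¹) = δ (P * f⁻¹) := by simp only [hδ, δinv hδ, δone hδ, D] <;> linear_combination (0) * h3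
  have e15 : δ (f * m⁻¹) = δ (Q * f⁻¹) := by simp only [hδ, δinv hδ, δone hδ, D] <;> linear_combination (0) * h3
  have e16 : δ (g * m⁻¹) = δ (P * g⁻¹) := by simp only [hδ, δinv hδ, δone hδ, D] <;> linear_combination (0) * h3
  have e17 : δ (g * m⁻¹) = δ (Q * g⁻¹) := by simp only [hδ, δinv hδ, δone hδ, D] <;> linear_combination (0) * h3
  have e18 : δ (Q * f⁻¹) = δ (P * f⁻¹) := by simp only [hδ, δinv hδ, δone hδ, D] <;> linear_combination (0) * h3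
  have e19 : δ (Q * g⁻¹) = δ (g * m⁻¹) := by simp only [hδ, δinv hδ, δone hδ, D] <;> linear_combination (0) * h3
  have e20 : δ (m * f⁻¹) = δ (f * P⁻¹) := by simp only [hδ, δinv hδ, δone hδ, D] <;> linear_combination (0) * h3
  have e21 : δ (m * g⁻¹) = δ (g * Q⁻¹) := by simp only [hδ, δinv hδ, δone hδ, D] <;> linear_combination (0) * h3
  have e22 : δ (m * f⁻¹) = δ (g * Q⁻¹) := by simp only [hδ, δinv hδ, δone hδ, D] <;> linear_combination (0) * h3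
  have e23 : δ (g * Q⁻¹) = δ (m * f⁻¹) := by simp only [hδ, δinv hδ, δone hδ, D] <;> linear_combination (0) * h3
  have e24 : δ (m * f⁻¹) = δ (m * g⁻¹) := by simp only [hδ, δinv hδ, δone hδ, D] <;> linear_combination (0) * h3
  have e25 : δ (m * g⁻¹) = δ (m * f⁻¹) := by simp only [hδ, δinv hδ, δone hδ, D] <;> linear_combination (0) * h3
  have e26 : δ (g * Q⁻¹) = δ (f * P⁻¹) := by simp only [hδ, δinv hδ, δone hδ, D] <;> linear_combination (0) * h3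
  have k0 : o.lt (f * m⁻¹) (P * f⁻¹) ↔ o.lt (1 * (f * m⁻¹)) (1 * (P * f⁻¹)) := o.cv hδ (1) e14 (by simp only [mul_assoc, mul_inv_rev, inv_inv, mul_inv_cancel_left, inv_mul_cancel_left, mul_inv_cancel, inv_mul_cancel, mul_one, one_mul, inv_one, C]) (by simp only [mul_assoc, mul_inv_rev, inv_inv, mul_inv_cancel_left, inv_mul_cancel_left, mul_inv_cancel, inv_mul_cancel, mul_one, one_mul, inv_one, C])
  have k1 : o.lt (g * m⁻¹) (P * g⁻¹) ↔ o.lt (1 * (g * m⁻¹)) (1 * (P * g⁻¹)) := o.cv hδ (1) e16 (by simp only [mul_assoc, mul_inv_rev, inv_inv, mul_inv_cancel_left, inv_mul_cancel_left, mul_inv_cancel, inv_mul_cancel, mul_one, one_mul, inv_one, C]) (by simp only [mul_assoc, mul_inv_rev, inv_inv, mul_inv_cancel_left, inv_mul_cancel_left, mul_inv_cancel, inv_mul_cancel, mul_one, one_mul, inv_one, C])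
  have k2 : o.lt (P * f⁻¹) (P * g⁻¹) ↔ o.lt (1 * (P * f⁻¹)) (1 * (P * g⁻¹)) := o.cv hδ (1) e10 (by simp only [mul_assoc, mul_inv_rev, inv_inv, mul_inv_cancel_left, inv_mul_cancel_left, mul_inv_cancel, inv_mul_cancel, mul_one, one_mul, inv_one, C]) (by simp only [mul_assoc, mul_inv_rev, inv_inv, mul_inv_cancel_left, inv_mul_cancel_left, mul_inv_cancel, inv_mul_cancel, mul_one, one_mul, inv_one, C])
  have k3 : o.lt (g) (f) ↔ o.lt (1 * g) (1 * f) := o.cv hδ (1) e0 (by simp only [mul_assoc, mul_inv_rev, inv_inv, mul_inv_cancel_left, inv_mul_cancel_left, mul_inv_cancel, inv_mul_cancel, mul_one, one_mul, inv_one, C]) (by simp only [mul_assoc, mul_inv_rev, inv_inv, mul_inv_cancel_left, inv_mul_cancel_left, mul_inv_cancel, inv_mul_cancel, mul_one, one_mul, inv_one, C])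
  have k4 : o.lt (P * f⁻¹) (g * m⁻¹) ↔ o.lt (1 * (P * f⁻¹)) (1 * (g * m⁻¹)) := o.cv hδ (1) e12 (by simp only [mul_assoc, mul_inv_rev, inv_inv, mul_inv_cancel_left, inv_mul_cancel_left, mul_inv_cancel, inv_mul_cancel, mul_one, one_mul, inv_one, C]) (by simp only [mul_assoc, mul_inv_rev, inv_inv, mul_inv_cancel_left, inv_mul_cancel_left, mul_inv_cancel, inv_mul_cancel, mul_one, one_mul, inv_one, C])
  have k5 : o.lt (m * f⁻¹) (g * P⁻¹) ↔ o.lt (1 * (f * m⁻¹)⁻¹) (1 * (P * g⁻¹)⁻¹) := o.cv hδ (1) e2 (by simp only [mul_assoc, mul_inv_rev, inv_inv, mul_inv_cancel_left, inv_mul_cancel_left, mul_inv_cancel, inv_mul_cancel, mul_one, one_mul, inv_one, C]) (by simp only [mul_assoc, mul_inv_rev, inv_inv, mul_inv_cancel_left, inv_mul_cancel_left, mul_inv_cancel, inv_mul_cancel, mul_one, one_mul, inv_one, C])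
  have k6 : o.lt (m * g⁻¹) (g * P⁻¹) ↔ o.lt (1 * (m * g⁻¹)) (1 * (g * P⁻¹)) := o.cv hδ (1) e3 (by simp only [mul_assoc, mul_inv_rev, inv_inv, mul_inv_cancel_left, inv_mul_cancel_left, mul_inv_cancel, inv_mul_cancel, mul_one, one_mul, inv_one, C]) (by simp only [mul_assoc, mul_inv_rev, inv_inv, mul_inv_cancel_left, inv_mul_cancel_left, mul_inv_cancel, inv_mul_cancel, mul_one, one_mul, inv_one, C])
  have k7 : o.lt (m * f⁻¹) (f * P⁻¹) ↔ o.lt (1 * (m * f⁻¹)) (1 * (f * P⁻¹)) := o.cv hδ (1) e20 (by simp only [mul_assoc, mul_inv_rev, inv_inv, mul_inv_cancel_left, inv_mul_cancel_left, mul_inv_cancel, inv_mul_cancel, mul_one, one_mul, inv_one, C]) (by simp only [mul_assoc, mul_inv_rev, inv_inv, mul_inv_cancel_left, inv_mul_cancel_left, mul_inv_cancel, inv_mul_cancel, mul_one, one_mul, inv_one, C])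
  have k8 : o.lt (m * f⁻¹) (m * g⁻¹) ↔ o.lt (1 * (m * f⁻¹)) (1 * (m * g⁻¹)) := o.cv hδ (1) e24 (by simp only [mul_assoc, mul_inv_rev, inv_inv, mul_inv_cancel_left, inv_mul_cancel_left, mul_inv_cancel, inv_mul_cancel, mul_one, one_mul, inv_one, C]) (by simp only [mul_assoc, mul_inv_rev, inv_inv, mul_inv_cancel_left, inv_mul_cancel_left, mul_inv_cancel, inv_mul_cancel, mul_one, one_mul, inv_one, C])
  have k9 : o.lt (m * g⁻¹) (m * f⁻¹) ↔ o.lt (1 * (m * g⁻¹)) (1 * (m * f⁻¹)) := o.cv hδ (1) e25 (by simp only [mul_assoc, mul_inv_rev, inv_inv, mul_inv_cancel_left, inv_mul_cancel_left, mul_inv_cancel, inv_mul_cancel, mul_one, one_mul, inv_one, C]) (by simp only [mul_assoc, mul_inv_rev, inv_inv, mul_inv_cancel_left, inv_mul_cancel_left, mul_inv_cancel, inv_mul_cancel, mul_one, one_mul, inv_one, C])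
  have k10 : o.lt (m * f⁻¹) (g * Q⁻¹) ↔ o.lt (1 * (m * f⁻¹)) (1 * (g * Q⁻¹)) := o.cv hδ (1) e22 (by simp only [mul_assoc, mul_inv_rev, inv_inv, mul_inv_cancel_left, inv_mul_cancel_left, mul_inv_cancel, inv_mul_cancel, mul_one, one_mul, inv_one, C]) (by simp only [mul_assoc, mul_inv_rev, inv_inv, mul_inv_cancel_left, inv_mul_cancel_left, mul_inv_cancel, inv_mul_cancel, mul_one, one_mul, inv_one, C])
  have k11 : o.lt (g * m⁻¹) (Q * g⁻¹) ↔ o.lt (1 * (m * g⁻¹)⁻¹) (1 * (g * Q⁻¹)⁻¹) := o.cv hδ (1) e17 (by simp only [mul_assoc, mul_inv_rev, inv_inv, mul_inv_cancel_left, inv_mul_cancel_left, mul_inv_cancel, inv_mul_cancel, mul_one, one_mul, inv_one, C]) (by simp only [mul_assoc, mul_inv_rev, inv_inv, mul_inv_cancel_left, inv_mul_cancel_left, mul_inv_cancel, inv_mul_cancel, mul_one, one_mul, inv_one, C])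
  have k12 : o.lt (g) (f) ↔ o.lt (1 * (g * Q⁻¹)) (1 * (f * Q⁻¹)) := o.cv hδ (Q⁻¹) e0 (by simp only [mul_assoc, mul_inv_rev, inv_inv, mul_inv_cancel_left, inv_mul_cancel_left, mul_inv_cancel, inv_mul_cancel, mul_one, one_mul, inv_one, C]) (by simp only [mul_assoc, mul_inv_rev, inv_inv, mul_inv_cancel_left, inv_mul_cancel_left, mul_inv_cancel, inv_mul_cancel, mul_one, one_mul, inv_one, C])
  have k13 : o.lt (g * Q⁻¹) (m * f⁻¹) ↔ o.lt (1 * (g * Q⁻¹)) (1 * (m * f⁻¹)) := o.cv hδ (1) e23 (by simp only [mul_assoc, mul_inv_rev, inv_inv, mul_inv_cancel_left, inv_mul_cancel_left, mul_inv_cancel, inv_mul_cancel, mul_one, one_mul, inv_one, C]) (by simp only [mul_assoc, mul_inv_rev, inv_inv, mul_inv_cancel_left, inv_mul_cancel_left, mul_inv_cancel, inv_mul_cancel, mul_one, one_mul, inv_one, C])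
  have k14 : o.lt (Q * g⁻¹) (g * m⁻¹) ↔ o.lt (1 * (g * Q⁻¹)⁻¹) (1 * (m * g⁻¹)⁻¹) := o.cv hδ (1) e19 (by simp only [mul_assoc, mul_inv_rev, inv_inv, mul_inv_cancel_left, inv_mul_cancel_left, mul_inv_cancel, inv_mul_cancel, mul_one, one_mul, inv_one, C]) (by simp only [mul_assoc, mul_inv_rev, inv_inv, mul_inv_cancel_left, inv_mul_cancel_left, mul_inv_cancel, inv_mul_cancel, mul_one, one_mul, inv_one, C])
  have k15 : o.lt (g * (P⁻¹ * (f * m⁻¹))) (g * (P⁻¹ * (g * m⁻¹))) ↔ o.lt ((g * P⁻¹) * (f * m⁻¹)) ((g * P⁻¹) * (g * m⁻¹)) := o.cv hδ (1) e6 (by simp only [mul_assoc, mul_inv_rev, inv_inv, mul_inv_cancel_left, inv_mul_cancel_left, mul_inv_cancel, inv_mul_cancel, mul_one, one_mul, inv_one, C]) (by simp only [mul_assoc, mul_inv_rev, inv_inv, mul_inv_cancel_left, inv_mul_cancel_left, mul_inv_cancel, inv_mul_cancel, mul_one, one_mul, inv_one, C])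
  have k16 : o.lt (g * (P⁻¹ * (f * m⁻¹))) (g * (P⁻¹ * (Q * g⁻¹))) ↔ o.lt ((g * P⁻¹) * (f * m⁻¹)) ((g * P⁻¹) * (Q * g⁻¹)) := o.cv hδ (1) e7 (by simp only [mul_assoc, mul_inv_rev, inv_inv, mul_inv_cancel_left, inv_mul_cancel_left, mul_inv_cancel, inv_mul_cancel, mul_one, one_mul, inv_one, C]) (by simp only [mul_assoc, mul_inv_rev, inv_inv, mul_inv_cancel_left, inv_mul_cancel_left, mul_inv_cancel, inv_mul_cancel, mul_one, one_mul, inv_one, C])
  have k17 : o.lt (g * (P⁻¹ * (f * Q⁻¹))) (g * (P⁻¹ * (m * f⁻¹))) ↔ o.lt ((g * P⁻¹) * (Q * f⁻¹)⁻¹) ((g * P⁻¹) * (f * m⁻¹)⁻¹) := o.cv hδ (1) e9 (by simp only [mul_assoc, mul_inv_rev, inv_inv, mul_inv_cancel_left, inv_mul_cancel_left, mul_inv_cancel, inv_mul_cancel, mul_one, one_mul, inv_one, C]) (by simp only [mul_assoc, mul_inv_rev, inv_inv, mul_inv_cancel_left, inv_mul_cancel_left, mul_inv_cancel, inv_mul_cancel, mul_one, one_mul, inv_one, C])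
  have k18 : o.lt (P * f⁻¹) (f * m⁻¹) ↔ o.lt (P * f⁻¹) (f * m⁻¹) := o.cv hδ (1) e11 (by simp only [mul_assoc, mul_inv_rev, inv_inv, mul_inv_cancel_left, inv_mul_cancel_left, mul_inv_cancel, inv_mul_cancel, mul_one, one_mul, inv_one, C]) (by simp only [mul_assoc, mul_inv_rev, inv_inv, mul_inv_cancel_left, inv_mul_cancel_left, mul_inv_cancel, inv_mul_cancel, mul_one, one_mul, inv_one, C])
  have k19 : o.lt (P * f⁻¹) (g * m⁻¹) ↔ o.lt (P * f⁻¹) (g * m⁻¹) := o.cv hδ (1) e12 (by simp only [mul_assoc, mul_inv_rev, inv_inv, mul_inv_cancel_left, inv_mul_cancel_left, mul_inv_cancel, inv_mul_cancel, mul_one, one_mul, inv_one, C]) (by simp only [mul_assoc, mul_inv_rev, inv_inv, mul_inv_cancel_left, inv_mul_cancel_left, mul_inv_cancel, inv_mul_cancel, mul_one, one_mul, inv_one, C])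
  have k20 : o.lt (g) (f) ↔ o.lt (g * m⁻¹) (f * m⁻¹) := o.cv hδ (m⁻¹) e0 (by simp only [mul_assoc, mul_inv_rev, inv_inv, mul_inv_cancel_left, inv_mul_cancel_left, mul_inv_cancel, inv_mul_cancel, mul_one, one_mul, inv_one, C]) (by simp only [mul_assoc, mul_inv_rev, inv_inv, mul_inv_cancel_left, inv_mul_cancel_left, mul_inv_cancel, inv_mul_cancel, mul_one, one_mul, inv_one, C])
  have k21 : o.lt (P * f⁻¹) (Q * f⁻¹) ↔ o.lt (P * f⁻¹) (Q * f⁻¹) := o.cv hδ (1) e13 (by simp only [mul_assoc, mul_inv_rev, inv_inv, mul_inv_cancel_left, inv_mul_cancel_left, mul_inv_cancel, inv_mul_cancel, mul_one, one_mul, inv_one, C]) (by simp only [mul_assoc, mul_inv_rev, inv_inv, mul_inv_cancel_left, inv_mul_cancel_left, mul_inv_cancel, inv_mul_cancel, mul_one, one_mul, inv_one, C])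
  have k22 : o.lt (Q * f⁻¹) (P * f⁻¹) ↔ o.lt (Q * f⁻¹) (P * f⁻¹) := o.cv hδ (1) e18 (by simp only [mul_assoc, mul_inv_rev, inv_inv, mul_inv_cancel_left, inv_mul_cancel_left, mul_inv_cancel, inv_mul_cancel, mul_one, one_mul, inv_one, C]) (by simp only [mul_assoc, mul_inv_rev, inv_inv, mul_inv_cancel_left, inv_mul_cancel_left, mul_inv_cancel, inv_mul_cancel, mul_one, one_mul, inv_one, C])
  have k23 : o.lt (f * m⁻¹) (Q * f⁻¹) ↔ o.lt (f * m⁻¹) (Q * f⁻¹) := o.cv hδ (1) e15 (by simp only [mul_assoc, mul_inv_rev, inv_inv, mul_inv_cancel_left, inv_mul_cancel_left, mul_inv_cancel, inv_mul_cancel, mul_one, one_mul, inv_one, C]) (by simp only [mul_assoc, mul_inv_rev, inv_inv, mul_inv_cancel_left, inv_mul_cancel_left, mul_inv_cancel, inv_mul_cancel, mul_one, one_mul, inv_one, C])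
  have k24 : o.lt (f * m⁻¹) (P * f⁻¹) ↔ o.lt (f * m⁻¹) (P * f⁻¹) := o.cv hδ (1) e14 (by simp only [mul_assoc, mul_inv_rev, inv_inv, mul_inv_cancel_left, inv_mul_cancel_left, mul_inv_cancel, inv_mul_cancel, mul_one, one_mul, inv_one, C]) (by simp only [mul_assoc, mul_inv_rev, inv_inv, mul_inv_cancel_left, inv_mul_cancel_left, mul_inv_cancel, inv_mul_cancel, mul_one, one_mul, inv_one, C])
  have k25 : o.lt (g * m⁻¹) (P * g⁻¹) ↔ o.lt (g * m⁻¹) (P * g⁻¹) := o.cv hδ (1) e16 (by simp only [mul_assoc, mul_inv_rev, inv_inv, mul_inv_cancel_left, inv_mul_cancel_left, mul_inv_cancel, inv_mul_cancel, mul_one, one_mul, inv_one, C]) (by simp only [mul_assoc, mul_inv_rev, inv_inv, mul_inv_cancel_left, inv_mul_cancel_left, mul_inv_cancel, inv_mul_cancel, mul_one, one_mul, inv_one, C])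
  have k26 : o.lt (g * m⁻¹) (Q * g⁻¹) ↔ o.lt (g * m⁻¹) (Q * g⁻¹) := o.cv hδ (1) e17 (by simp only [mul_assoc, mul_inv_rev, inv_inv, mul_inv_cancel_left, inv_mul_cancel_left, mul_inv_cancel, inv_mul_cancel, mul_one, one_mul, inv_one, C]) (by simp only [mul_assoc, mul_inv_rev, inv_inv, mul_inv_cancel_left, inv_mul_cancel_left, mul_inv_cancel, inv_mul_cancel, mul_one, one_mul, inv_one, C])
  have k27 : o.lt (Q * f⁻¹) (P * f⁻¹) ↔ o.lt (Q * g⁻¹) (P * g⁻¹) := o.cv hδ (f * g⁻¹) e18 (by simp only [mul_assoc, mul_inv_rev, inv_inv, mul_inv_cancel_left, inv_mul_cancel_left, mul_inv_cancel, inv_mul_cancel, mul_one, one_mul, inv_one, C]) (by simp only [mul_assoc, mul_inv_rev, inv_inv, mul_inv_cancel_left, inv_mul_cancel_left, mul_inv_cancel, inv_mul_cancel, mul_one, one_mul, inv_one, C])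
  have k28 : o.lt (Q * g⁻¹) (g * m⁻¹) ↔ o.lt (Q * g⁻¹) (g * m⁻¹) := o.cv hδ (1) e19 (by simp only [mul_assoc, mul_inv_rev, inv_inv, mul_inv_cancel_left, inv_mul_cancel_left, mul_inv_cancel, inv_mul_cancel, mul_one, one_mul, inv_one, C]) (by simp only [mul_assoc, mul_inv_rev, inv_inv, mul_inv_cancel_left, inv_mul_cancel_left, mul_inv_cancel, inv_mul_cancel, mul_one, one_mul, inv_one, C])
  have k29 : o.lt (m * f⁻¹) (f * P⁻¹) ↔ o.lt (m * f⁻¹) (f * P⁻¹) := o.cv hδ (1) e20 (by simp only [mul_assoc, mul_inv_rev, inv_inv, mul_inv_cancel_left, inv_mul_cancel_left, mul_inv_cancel, inv_mul_cancel, mul_one, one_mul, inv_one, C]) (by simp only [mul_assoc, mul_inv_rev, inv_inv, mul_inv_cancel_left, inv_mul_cancel_left, mul_inv_cancel, inv_mul_cancel, mul_one, one_mul, inv_one, C])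
  have k30 : o.lt (m * f⁻¹) (g * Q⁻¹) ↔ o.lt (m * f⁻¹) (g * Q⁻¹) := o.cv hδ (1) e22 (by simp only [mul_assoc, mul_inv_rev, inv_inv, mul_inv_cancel_left, inv_mul_cancel_left, mul_inv_cancel, inv_mul_cancel, mul_one, one_mul, inv_one, C]) (by simp only [mul_assoc, mul_inv_rev, inv_inv, mul_inv_cancel_left, inv_mul_cancel_left, mul_inv_cancel, inv_mul_cancel, mul_one, one_mul, inv_one, C])
  have k31 : o.lt (g * Q⁻¹) (f * P⁻¹) ↔ o.lt (g * Q⁻¹) (f * P⁻¹) := o.cv hδ (1) e26 (by simp only [mul_assoc, mul_inv_rev, inv_inv, mul_inv_cancel_left, inv_mul_cancel_left, mul_inv_cancel, inv_mul_cancel, mul_one, one_mul, inv_one, C]) (by simp only [mul_assoc, mul_inv_rev, inv_inv, mul_inv_cancel_left, inv_mul_cancel_left, mul_inv_cancel, inv_mul_cancel, mul_one, one_mul, inv_one, C])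
  have k32 : o.lt (m * f⁻¹) (g * P⁻¹) ↔ o.lt (m * f⁻¹) (g * P⁻¹) := o.cv hδ (1) e2 (by simp only [mul_assoc, mul_inv_rev, inv_inv, mul_inv_cancel_left, inv_mul_cancel_left, mul_inv_cancel, inv_mul_cancel, mul_one, one_mul, inv_one, C]) (by simp only [mul_assoc, mul_inv_rev, inv_inv, mul_inv_cancel_left, inv_mul_cancel_left, mul_inv_cancel, inv_mul_cancel, mul_one, one_mul, inv_one, C])
  have k33 : o.lt (f * m⁻¹) (Q * f⁻¹) ↔ o.lt (m * f⁻¹) (Q * m⁻¹) := o.cv hδ (m * (f⁻¹ * (m * f⁻¹))) e15 (by simp only [mul_assoc, mul_inv_rev, inv_inv, mul_inv_cancel_left, inv_mul_cancel_left, mul_inv_cancel, inv_mul_cancel, mul_one, one_mul, inv_one, C]) (by simp only [mul_assoc, mul_inv_rev, inv_inv, mul_inv_cancel_left, inv_mul_cancel_left, mul_inv_cancel, inv_mul_cancel, mul_one, one_mul, inv_one, C])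
  have k34 : o.lt (Q * m⁻¹) (g * P⁻¹) ↔ o.lt (Q * m⁻¹) (g * P⁻¹) := o.cv hδ (1) e5 (by simp only [mul_assoc, mul_inv_rev, inv_inv, mul_inv_cancel_left, inv_mul_cancel_left, mul_inv_cancel, inv_mul_cancel, mul_one, one_mul, inv_one, C]) (by simp only [mul_assoc, mul_inv_rev, inv_inv, mul_inv_cancel_left, inv_mul_cancel_left, mul_inv_cancel, inv_mul_cancel, mul_one, one_mul, inv_one, C])
  have k35 : o.lt (m * f⁻¹) (m * g⁻¹) ↔ o.lt (m * f⁻¹) (m * g⁻¹) := o.cv hδ (1) e24 (by simp only [mul_assoc, mul_inv_rev, inv_inv, mul_inv_cancel_left, inv_mul_cancel_left, mul_inv_cancel, inv_mul_cancel, mul_one, one_mul, inv_one, C]) (by simp only [mul_assoc, mul_inv_rev, inv_inv, mul_inv_cancel_left, inv_mul_cancel_left, mul_inv_cancel, inv_mul_cancel, mul_one, one_mul, inv_one, C])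
  have k36 : o.lt (m * g⁻¹) (m * f⁻¹) ↔ o.lt (m * g⁻¹) (m * f⁻¹) := o.cv hδ (1) e25 (by simp only [mul_assoc, mul_inv_rev, inv_inv, mul_inv_cancel_left, inv_mul_cancel_left, mul_inv_cancel, inv_mul_cancel, mul_one, one_mul, inv_one, C]) (by simp only [mul_assoc, mul_inv_rev, inv_inv, mul_inv_cancel_left, inv_mul_cancel_left, mul_inv_cancel, inv_mul_cancel, mul_one, one_mul, inv_one, C])
  have k37 : o.lt (g * Q⁻¹) (m * f⁻¹) ↔ o.lt (g * Q⁻¹) (m * f⁻¹) := o.cv hδ (1) e23 (by simp only [mul_assoc, mul_inv_rev, inv_inv, mul_inv_cancel_left, inv_mul_cancel_left, mul_inv_cancel, inv_mul_cancel, mul_one, one_mul, inv_one, C]) (by simp only [mul_assoc, mul_inv_rev, inv_inv, mul_inv_cancel_left, inv_mul_cancel_left, mul_inv_cancel, inv_mul_cancel, mul_one, one_mul, inv_one, C])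
  have k38 : o.lt (g * m⁻¹) (Q * g⁻¹) ↔ o.lt (m * g⁻¹) (Q * m⁻¹) := o.cv hδ (m * (g⁻¹ * (m * g⁻¹))) e17 (by simp only [mul_assoc, mul_inv_rev, inv_inv, mul_inv_cancel_left, inv_mul_cancel_left, mul_inv_cancel, inv_mul_cancel, mul_one, one_mul, inv_one, C]) (by simp only [mul_assoc, mul_inv_rev, inv_inv, mul_inv_cancel_left, inv_mul_cancel_left, mul_inv_cancel, inv_mul_cancel, mul_one, one_mul, inv_one, C])
  have k39 : o.lt (m * g⁻¹) (g * P⁻¹) ↔ o.lt (m * g⁻¹) (g * P⁻¹) := o.cv hδ (1) e3 (by simp only [mul_assoc, mul_inv_rev, inv_inv, mul_inv_cancel_left, inv_mul_cancel_left, mul_inv_cancel, inv_mul_cancel, mul_one, one_mul, inv_one, C]) (by simp only [mul_assoc, mul_inv_rev, inv_inv, mul_inv_cancel_left, inv_mul_cancel_left, mul_inv_cancel, inv_mul_cancel, mul_one, one_mul, inv_one, C])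
  have k40 : o.lt (m * g⁻¹) (g * Q⁻¹) ↔ o.lt (m * g⁻¹) (g * Q⁻¹) := o.cv hδ (1) e21 (by simp only [mul_assoc, mul_inv_rev, inv_inv, mul_inv_cancel_left, inv_mul_cancel_left, mul_inv_cancel, inv_mul_cancel, mul_one, one_mul, inv_one, C]) (by simp only [mul_assoc, mul_inv_rev, inv_inv, mul_inv_cancel_left, inv_mul_cancel_left, mul_inv_cancel, inv_mul_cancel, mul_one, one_mul, inv_one, C])
  have k41 : o.lt (g * Q⁻¹) (g * P⁻¹) ↔ o.lt (g * Q⁻¹) (g * P⁻¹) := o.cv hδ (1) e1 (by simp only [mul_assoc, mul_inv_rev, inv_inv, mul_inv_cancel_left, inv_mul_cancel_left, mul_inv_cancel, inv_mul_cancel, mul_one, one_mul, inv_one, C]) (by simp only [mul_assoc, mul_inv_rev, inv_inv, mul_inv_cancel_left, inv_mul_cancel_left, mul_inv_cancel, inv_mul_cancel, mul_one, one_mul, inv_one, C])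
  have k42 : o.lt (g) (f) ↔ o.lt (g * P⁻¹) (f * P⁻¹) := o.cv hδ (P⁻¹) e0 (by simp only [mul_assoc, mul_inv_rev, inv_inv, mul_inv_cancel_left, inv_mul_cancel_left, mul_inv_cancel, inv_mul_cancel, mul_one, one_mul, inv_one, C]) (by simp only [mul_assoc, mul_inv_rev, inv_inv, mul_inv_cancel_left, inv_mul_cancel_left, mul_inv_cancel, inv_mul_cancel, mul_one, one_mul, inv_one, C])
  have k43 : o.lt (g) (f) ↔ o.lt (g * Q⁻¹) (f * Q⁻¹) := o.cv hδ (Q⁻¹) e0 (by simp only [mul_assoc, mul_inv_rev, inv_inv, mul_inv_cancel_left, inv_mul_cancel_left, mul_inv_cancel, inv_mul_cancel, mul_one, one_mul, inv_one, C]) (by simp only [mul_assoc, mul_inv_rev, inv_inv, mul_inv_cancel_left, inv_mul_cancel_left, mul_inv_cancel, inv_mul_cancel, mul_one, one_mul, inv_one, C])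
  have k44 : o.lt (f * Q⁻¹) (g * P⁻¹) ↔ o.lt (f * Q⁻¹) (g * P⁻¹) := o.cv hδ (1) e4 (by simp only [mul_assoc, mul_inv_rev, inv_inv, mul_inv_cancel_left, inv_mul_cancel_left, mul_inv_cancel, inv_mul_cancel, mul_one, one_mul, inv_one, C]) (by simp only [mul_assoc, mul_inv_rev, inv_inv, mul_inv_cancel_left, inv_mul_cancel_left, mul_inv_cancel, inv_mul_cancel, mul_one, one_mul, inv_one, C])
  have k45 : o.lt (g * (P⁻¹ * (f * m⁻¹))) (g * (P⁻¹ * (g * m⁻¹))) ↔ o.lt (g * P⁻¹) (P * (g⁻¹ * (P * f⁻¹))) := o.cv hδ (m * f⁻¹) e6 (by simp only [mul_assoc, mul_inv_rev, inv_inv, mul_inv_cancel_left, inv_mul_cancel_left, mul_inv_cancel, inv_mul_cancel, mul_one, one_mul, inv_one, C]) (by simp only [mul_assoc, mul_inv_rev, inv_inv, mul_inv_cancel_left, inv_mul_cancel_left, mul_inv_cancel, inv_mul_cancel, mul_one, one_mul, inv_one, C])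
  have k46 : o.lt (P * f⁻¹) (P * g⁻¹) ↔ o.lt (f * P⁻¹) (P * (g⁻¹ * (P * f⁻¹))) := o.cv hδ (f * (P⁻¹ * (f * P⁻¹))) e10 (by simp only [mul_assoc, mul_inv_rev, inv_inv, mul_inv_cancel_left, inv_mul_cancel_left, mul_inv_cancel, inv_mul_cancel, mul_one, one_mul, inv_one, C]) (by simp only [mul_assoc, mul_inv_rev, inv_inv, mul_inv_cancel_left, inv_mul_cancel_left, mul_inv_cancel, inv_mul_cancel, mul_one, one_mul, inv_one, C])
  have k47 : o.lt (m * f⁻¹) (g * P⁻¹) ↔ o.lt (1) (g * (P⁻¹ * (f * m⁻¹))) := o.cv hδ (f * m⁻¹) e2 (by simp only [mul_assoc, mul_inv_rev, inv_inv, mul_inv_cancel_left, inv_mul_cancel_left, mul_inv_cancel, inv_mul_cancel, mul_one, one_mul, inv_one, C]) (by simp only [mul_assoc, mul_inv_rev, inv_inv, mul_inv_cancel_left, inv_mul_cancel_left, mul_inv_cancel, inv_mul_cancel, mul_one, one_mul, inv_one, C])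
  have k48 : o.lt (g * Q⁻¹) (g * P⁻¹) ↔ o.lt (1) (g * (P⁻¹ * (Q * g⁻¹))) := o.cv hδ (Q * g⁻¹) e1 (by simp only [mul_assoc, mul_inv_rev, inv_inv, mul_inv_cancel_left, inv_mul_cancel_left, mul_inv_cancel, inv_mul_cancel, mul_one, one_mul, inv_one, C]) (by simp only [mul_assoc, mul_inv_rev, inv_inv, mul_inv_cancel_left, inv_mul_cancel_left, mul_inv_cancel, inv_mul_cancel, mul_one, one_mul, inv_one, C])
  have k49 : o.lt (g * (P⁻¹ * (Q * g⁻¹))) (g * (P⁻¹ * (f * m⁻¹))) ↔ o.lt (g * (P⁻¹ * (Q * g⁻¹))) (g * (P⁻¹ * (f * m⁻¹))) := o.cv hδ (1) e8 (by simp only [mul_assoc, mul_inv_rev, inv_inv, mul_inv_cancel_left, inv_mul_cancel_left, mul_inv_cancel, inv_mul_cancel, mul_one, one_mul, inv_one, C]) (by simp only [mul_assoc, mul_inv_rev, inv_inv, mul_inv_cancel_left, inv_mul_cancel_left, mul_inv_cancel, inv_mul_cancel, mul_one, one_mul, inv_one, C])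
  have k50 : o.lt (Q * m⁻¹) (g * P⁻¹) ↔ o.lt (1) (g * (P⁻¹ * (m * Q⁻¹))) := o.cv hδ (m * Q⁻¹) e5 (by simp only [mul_assoc, mul_inv_rev, inv_inv, mul_inv_cancel_left, inv_mul_cancel_left, mul_inv_cancel, inv_mul_cancel, mul_one, one_mul, inv_one, C]) (by simp only [mul_assoc, mul_inv_rev, inv_inv, mul_inv_cancel_left, inv_mul_cancel_left, mul_inv_cancel, inv_mul_cancel, mul_one, one_mul, inv_one, C])
  have k51 : o.lt (f * Q⁻¹) (g * P⁻¹) ↔ o.lt (1) (g * (P⁻¹ * (Q * f⁻¹))) := o.cv hδ (Q * f⁻¹) e4 (by simp only [mul_assoc, mul_inv_rev, inv_inv, mul_inv_cancel_left, inv_mul_cancel_left, mul_inv_cancel, inv_mul_cancel, mul_one, one_mul, inv_one, C]) (by simp only [mul_assoc, mul_inv_rev, inv_inv, mul_inv_cancel_left, inv_mul_cancel_left, mul_inv_cancel, inv_mul_cancel, mul_one, one_mul, inv_one, C])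
  have k52 : o.lt (g * (P⁻¹ * (f * Q⁻¹))) (g * (P⁻¹ * (m * f⁻¹))) ↔ o.lt (g * (P⁻¹ * (Q * f⁻¹))) (g * (P⁻¹ * (m * Q⁻¹))) := o.cv hδ (Q * (f⁻¹ * (Q * f⁻¹))) e9 (by simp only [mul_assoc, mul_inv_rev, inv_inv, mul_inv_cancel_left, inv_mul_cancel_left, mul_inv_cancel, inv_mul_cancel, mul_one, one_mul, inv_one, C]) (by simp only [mul_assoc, mul_inv_rev, inv_inv, mul_inv_cancel_left, inv_mul_cancel_left, mul_inv_cancel, inv_mul_cancel, mul_one, one_mul, inv_one, C])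
  have k53 : o.lt (g * (P⁻¹ * (f * m⁻¹))) (g * (P⁻¹ * (Q * g⁻¹))) ↔ o.lt (g * (P⁻¹ * (f * m⁻¹))) (g * (P⁻¹ * (Q * g⁻¹))) := o.cv hδ (1) e7 (by simp only [mul_assoc, mul_inv_rev, inv_inv, mul_inv_cancel_left, inv_mul_cancel_left, mul_inv_cancel, inv_mul_cancel, mul_one, one_mul, inv_one, C]) (by simp only [mul_assoc, mul_inv_rev, inv_inv, mul_inv_cancel_left, inv_mul_cancel_left, mul_inv_cancel, inv_mul_cancel, mul_one, one_mul, inv_one, C])
  have k54 : o.lt (g) (f) ↔ o.lt ((P * g⁻¹)⁻¹) ((P * f⁻¹)⁻¹) := o.cv hδ (P⁻¹) e0 (by simp only [mul_assoc, mul_inv_rev, inv_inv, mul_inv_cancel_left, inv_mul_cancel_left, mul_inv_cancel, inv_mul_cancel, mul_one, one_mul, inv_one, C]) (by simp only [mul_assoc, mul_inv_rev, inv_inv, mul_inv_cancel_left, inv_mul_cancel_left, mul_inv_cancel, inv_mul_cancel, mul_one, one_mul, inv_one, C])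
  have k55 : o.lt (f * Q⁻¹) (g * P⁻¹) ↔ o.lt ((Q * f⁻¹)⁻¹) ((P * g⁻¹)⁻¹) := o.cv hδ (1) e4 (by simp only [mul_assoc, mul_inv_rev, inv_inv, mul_inv_cancel_left, inv_mul_cancel_left, mul_inv_cancel, inv_mul_cancel, mul_one, one_mul, inv_one, C]) (by simp only [mul_assoc, mul_inv_rev, inv_inv, mul_inv_cancel_left, inv_mul_cancel_left, mul_inv_cancel, inv_mul_cancel, mul_one, one_mul, inv_one, C])
  exact ser_BAE_0_prop
    (fun b0 b1 b2 b3 => N0.i.r0 1 (fun h => b0 (k0.2 h)) (fun h => b1 (k1.2 h)) (k2.1 b2) (fun h => b3 (k3.2 h)))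
    (fun b0 b1 b2 b3 => N0.i.r1 1 (fun h => b0 (k2.2 h)) (k4.1 b1) (fun h => b2 (k5.2 h)) (fun h => b3 (k3.2 h)))
    (fun b0 b1 b2 b3 => N0.rd.r0 1 (fun h => b0 (k6.2 h)) (fun h => b1 (k7.2 h)) (k8.1 b2) (fun h => b3 (k3.2 h)))
    (fun b0 b1 b2 => N1.r.r0 1 (fun h => b0 (k9.2 h)) (k10.1 b1) (fun h => b2 (k11.2 h)))
    (fun b0 b1 b2 => N1.r.r1 1 (fun h => b0 (k12.2 h)) (fun h => b1 (k13.2 h)) (k11.1 b2))
    (fun b0 b1 b2 => N1.rd.r0 1 (fun h => b0 (k8.2 h)) (k13.1 b1) (fun h => b2 (k14.2 h)))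
    (fun b0 b1 b2 => N1.i.r1 (g * P⁻¹) (fun h => b0 (k15.2 h)) (fun h => b1 (k16.2 h)) (k17.1 b2))
    (fun b0 b1 b2 => o.tri (k18.1 b0) (fun h => b1 (k19.2 h)) (fun h => b2 (k20.2 h)))
    (fun b0 b1 => o.asym (k21.1 b0) (k22.1 b1))
    (fun b0 b1 b2 => o.tri (k21.1 b0) (fun h => b1 (k18.2 h)) (fun h => b2 (k23.2 h)))
    (fun b0 b1 b2 => o.tri (k24.1 b0) (fun h => b1 (k23.2 h)) (fun h => b2 (k22.2 h)))
    (fun b0 b1 b2 => o.tri (k25.1 b0) (fun h => b1 (k26.2 h)) (fun h => b2 (k27.2 h)))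
    (fun b0 b1 => o.asym (k26.1 b0) (k28.1 b1))
    (fun b0 b1 b2 => o.tri (k29.1 b0) (fun h => b1 (k30.2 h)) (fun h => b2 (k31.2 h)))
    (fun b0 b1 b2 => o.tri (k32.1 b0) (fun h => b1 (k33.2 h)) (fun h => b2 (k34.2 h)))
    (fun b0 b1 => o.asym (k35.1 b0) (k36.1 b1))
    (fun b0 b1 => o.asym (k30.1 b0) (k37.1 b1))
    (fun b0 b1 b2 => o.tri (k33.1 b0) (fun h => b1 (k35.2 h)) (fun h => b2 (k38.2 h)))
    (fun b0 b1 b2 => o.tri (k39.1 b0) (fun h => b1 (k40.2 h)) (fun h => b2 (k41.2 h)))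
    (fun b0 b1 b2 => o.tri (k40.1 b0) (fun h => b1 (k36.2 h)) (fun h => b2 (k30.2 h)))
    (fun b0 b1 b2 => o.tri (k31.1 b0) (fun h => b1 (k41.2 h)) (fun h => b2 (k42.2 h)))
    (fun b0 b1 b2 => o.tri (k41.1 b0) (fun h => b1 (k43.2 h)) (fun h => b2 (k44.2 h)))
    (fun b0 b1 b2 => o.tri (k45.1 b0) (fun h => b1 (k42.2 h)) (fun h => b2 (k46.2 h)))
    (fun b0 b1 b2 => o.tri (k47.1 b0) (fun h => b1 (k48.2 h)) (fun h => b2 (k49.2 h)))
    (fun b0 b1 b2 => o.tri (k50.1 b0) (fun h => b1 (k51.2 h)) (fun h => b2 (k52.2 h)))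
    (fun b0 b1 => o.asym (k53.1 b0) (k49.1 b1))
    (k21.2 g0)
    (fun h => g1 (k54.1 h))
    (fun h => g2 (k55.1 h))

theorem ser_BAE_1_prop {A1 A2 A3 A4 A5 A6 A7 A8 A9 A10 A11 A12 A13 A14 A15 A16 A17 A18 A19 A20 A21 A22 A23 A24 A25 A26 A27 A28 A29 A30 A31 A32 A33 A34 A35 A36 A37 A38 A39 A40 A41 A42 A43 A44 A45 : Prop}
    (c0 : ¬ A36 → ¬ A38 → A31 → ¬ A26 → False)
    (c1 : ¬ A31 → A33 → ¬ A41 → ¬ A26 → False)
    (c2 : ¬ A42 → A39 → ¬ A37 → ¬ A26 → False)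
    (c3 : ¬ A44 → A43 → ¬ A25 → False)
    (c4 : ¬ A26 → ¬ A45 → A25 → False)
    (c5 : ¬ A1 → A30 → ¬ A23 → False)
    (c6 : ¬ A26 → ¬ A29 → A23 → False)
    (c7 : ¬ A4 → ¬ A10 → A8 → ¬ A1 → False)
    (c8 : ¬ A17 → A16 → ¬ A9 → ¬ A1 → False)
    (c9 : ¬ A6 → ¬ A2 → A17 → ¬ A1 → False)
    (c10 : ¬ A1 → ¬ A12 → A20 → False)
    (c11 : ¬ A17 → A12 → ¬ A19 → False)
    (c12 : A32 → A36 → False)
    (c13 : A32 → ¬ A33 → ¬ A26 → False)
    (c14 : A34 → ¬ A32 → ¬ A30 → False)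
    (c15 : A37 → ¬ A30 → ¬ A3 → False)
    (c16 : A30 → A29 → False)
    (c17 : A21 → ¬ A30 → ¬ A1 → False)
    (c18 : A38 → ¬ A26 → ¬ A37 → False)
    (c19 : A22 → ¬ A26 → ¬ A21 → False)
    (c20 : A1 → A5 → False)
    (c21 : A7 → ¬ A3 → ¬ A31 → False)
    (c22 : A13 → ¬ A18 → ¬ A26 → False)
    (c23 : A5 → ¬ A3 → ¬ A34 → False)
    (c24 : A5 → ¬ A13 → ¬ A30 → False)
    (c25 : A28 → ¬ A7 → ¬ A35 → False)
    (c26 : A40 → A41 → False)
    (c27 : A35 → ¬ A26 → ¬ A39 → False)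
    (c28 : A24 → ¬ A40 → ¬ A23 → False)
    (c29 : A42 → A44 → False)
    (c30 : A43 → A45 → False)
    (c31 : A23 → ¬ A43 → ¬ A26 → False)
    (c32 : A11 → ¬ A7 → ¬ A24 → False)
    (c33 : A9 → ¬ A8 → ¬ A4 → False)
    (c34 : A9 → ¬ A11 → ¬ A27 → False)
    (c35 : A15 → A9 → False)
    (c36 : A14 → ¬ A15 → ¬ A11 → False)
    (c37 : A2 → ¬ A3 → ¬ A21 → False)
    (c38 : A6 → ¬ A7 → ¬ A22 → False)
    (c39 : A18 → ¬ A16 → ¬ A3 → False)
    (c40 : A19 → ¬ A17 → ¬ A14 → False)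
    (c41 : A4 → ¬ A28 → ¬ A21 → False)
    (c42 : A10 → ¬ A28 → ¬ A22 → False)
    (c43 : A27 → ¬ A20 → ¬ A17 → False)
    (u0 : ¬ A3)
    (u1 : A5)
    (u2 : ¬ A26)
    : False := by
  have q1 : ¬ A1 := fun h => c20 h u1
  have q2 : A34 := Classical.byContradiction fun h => c23 u1 u0 h
  rcases Classical.em A30 with q3 | q3
  · have q4 : A23 := Classical.byContradiction fun h => c5 q1 q3 h
    have q5 : A29 := Classical.byContradiction fun h => c6 u2 h q4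
    exact c16 q3 q5
  · have q6 : A32 := Classical.byContradiction fun h => c14 q2 h q3
    have q7 : ¬ A36 := fun h => c12 q6 h
    have q8 : A33 := Classical.byContradiction fun h => c13 q6 h u2
    have q9 : ¬ A37 := fun h => c15 h q3 u0
    have q10 : ¬ A21 := fun h => c17 h q3 q1
    have q11 : ¬ A38 := fun h => c18 h u2 q9
    have q12 : ¬ A31 := fun h => c0 q7 q11 h u2
    have q13 : A41 := Classical.byContradiction fun h => c1 q12 q8 h u2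
    have q14 : ¬ A22 := fun h => c19 h u2 q10
    have q15 : ¬ A7 := fun h => c21 h u0 q12
    have q16 : A13 := Classical.byContradiction fun h => c24 u1 h q3
    have q17 : A18 := Classical.byContradiction fun h => c22 q16 h u2
    have q18 : ¬ A40 := fun h => c26 h q13
    have q19 : ¬ A2 := fun h => c37 h u0 q10
    have q20 : ¬ A6 := fun h => c38 h q15 q14
    have q21 : ¬ A17 := fun h => c9 q20 q19 h q1
    have q22 : A16 := Classical.byContradiction fun h => c39 q17 h u0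
    have q23 : A9 := Classical.byContradiction fun h => c8 q21 q22 h q1
    have q24 : ¬ A15 := fun h => c35 h q23
    rcases Classical.em A11 with q25 | q25
    · have q26 : A24 := Classical.byContradiction fun h => c32 q25 q15 h
      have q27 : A23 := Classical.byContradiction fun h => c28 q26 q18 h
      have q28 : A29 := Classical.byContradiction fun h => c6 u2 h q27
      have q29 : A43 := Classical.byContradiction fun h => c31 q27 h u2
      have q30 : ¬ A45 := fun h => c30 q29 h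
      have q31 : ¬ A25 := fun h => c4 u2 q30 h
      have q32 : A44 := Classical.byContradiction fun h => c3 h q29 q31
      have q33 : ¬ A42 := fun h => c29 h q32
      have q34 : ¬ A39 := fun h => c2 q33 h q9 u2
      have q35 : ¬ A35 := fun h => c27 h u2 q34
      have q36 : ¬ A28 := fun h => c25 h q15 q35
      have q37 : ¬ A4 := fun h => c41 h q36 q10
      have q38 : A8 := Classical.byContradiction fun h => c33 q23 h q37
      have q39 : A10 := Classical.byContradiction fun h => c7 q37 h q38 q1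
      exact c42 q39 q36 q14
    · have q40 : A27 := Classical.byContradiction fun h => c34 q23 q25 h
      have q41 : ¬ A14 := fun h => c36 h q24 q25
      have q42 : ¬ A19 := fun h => c40 h q21 q41
      have q43 : ¬ A12 := fun h => c11 q21 h q42
      have q44 : ¬ A20 := fun h => c10 q1 q43 h
      exact c43 q40 q44 q21

theorem ser_BAE_1 {G : Type*} [Group G] {δ : G → ZMod 3} (hδ : ∀ u v, δ (u * v) = δ u + δ v) (o : Pre δ)
    {P m Q f g : G} {e : ZMod 3} (h3 : 3 * e = 0)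
    (D : δ P = e ∧ δ m = -e ∧ δ Q = e ∧ δ f = 0 ∧ δ g = 0)
    (C : Cube P f ∧ Cube P g ∧ Cube m f ∧ Cube m g ∧ Cube Q f ∧ Cube Q g)
    (N0 : RB o P m f g)
    (N1 : RA o Q m g f)
    (g0 : ¬ o.lt (Q * f⁻¹) (P * f⁻¹)) (g1 : o.lt (Q * f⁻¹) (Q * g⁻¹)) (g2 : ¬ o.lt ((P * g⁻¹)⁻¹) ((P * f⁻¹)⁻¹)) : False := by
  simp only [Cube] at C
  have e0 : δ (Q * g⁻¹) = δ (Q * f⁻¹) := by simp only [hδ, δinv hδ, δone hδ, D] <;> linear_combination (0) * h3
  have e1 : δ (Q * P⁻¹) = δ (Q * (m⁻¹ * (f * m⁻¹))) := by simp only [hδ, δinv hδ, δone hδ, D] <;> linear_combination (-1) * h3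
  have e2 : δ (Q * g⁻¹) = δ (P * g⁻¹) := by simp only [hδ, δinv hδ, δone hδ, D] <;> linear_combination (0) * h3
  have e3 : δ (Q * (P⁻¹ * (f * P⁻¹))) = δ (Q * m⁻¹) := by simp only [hδ, δinv hδ, δone hδ, D] <;> linear_combination (-1) * h3
  have e4 : δ (Q * f⁻¹) = δ (Q * g⁻¹) := by simp only [hδ, δinv hδ, δone hδ, D] <;> linear_combination (0) * h3
  have e5 : δ (Q * (f⁻¹ * (g * P⁻¹))) = δ (Q * (f⁻¹ * (m * g⁻¹))) := by simp only [hδ, δinv hδ, δone hδ, D] <;> linear_combination (0) * h3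
  have e6 : δ (Q * f⁻¹) = δ (P * g⁻¹) := by simp only [hδ, δinv hδ, δone hδ, D] <;> linear_combination (0) * h3
  have e7 : δ (Q * (f⁻¹ * (P * g⁻¹))) = δ (Q * (P⁻¹ * (f * P⁻¹))) := by simp only [hδ, δinv hδ, δone hδ, D] <;> linear_combination (1) * h3
  have e8 : δ (Q * (f⁻¹ * (P * g⁻¹))) = δ (Q * m⁻¹) := by simp only [hδ, δinv hδ, δone hδ, D] <;> linear_combination (0) * h3
  have e9 : δ (Q * (f⁻¹ * (P * g⁻¹))) = δ (Q * (f⁻¹ * (g * m⁻¹))) := by simp only [hδ, δinv hδ, δone hδ, D] <;> linear_combination (0) * h3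
  have e10 : δ (Q * (f⁻¹ * (P * g⁻¹))) = δ (f * Q⁻¹) := by simp only [hδ, δinv hδ, δone hδ, D] <;> linear_combination (1) * h3
  have e11 : δ (Q * (m⁻¹ * (f * m⁻¹))) = δ (Q * (f⁻¹ * (g * Q⁻¹))) := by simp only [hδ, δinv hδ, δone hδ, D] <;> linear_combination (1) * h3
  have e12 : δ (Q * f⁻¹) = δ (f * m⁻¹) := by simp only [hδ, δinv hδ, δone hδ, D] <;> linear_combination (0) * h3
  have e13 : δ (Q * m⁻¹) = δ (f * Q⁻¹) := by simp only [hδ, δinv hδ, δone hδ, D] <;> linear_combination (1) * h3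
  have e14 : δ (Q * m⁻¹) = δ (Q * (f⁻¹ * (P * g⁻¹))) := by simp only [hδ, δinv hδ, δone hδ, D] <;> linear_combination (0) * h3
  have e15 : δ (Q * (f⁻¹ * (m * g⁻¹))) = δ (Q * P⁻¹) := by simp only [hδ, δinv hδ, δone hδ, D] <;> linear_combination (0) * h3
  have e16 : δ (Q * (f⁻¹ * (m * g⁻¹))) = δ (Q * (m⁻¹ * (f * m⁻¹))) := by simp only [hδ, δinv hδ, δone hδ, D] <;> linear_combination (-1) * h3
  have e17 : δ (Q * f⁻¹) = δ (g * m⁻¹) := by simp only [hδ, δinv hδ, δone hδ, D] <;> linear_combination (0) * h3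
  have e18 : δ (Q * (f⁻¹ * (g * m⁻¹))) = δ (f * (Q⁻¹ * (f * g⁻¹))) := by simp only [hδ, δinv hδ, δone hδ, D] <;> linear_combination (1) * h3
  have e19 : δ (f * (Q⁻¹ * (f * g⁻¹))) = δ (Q * (f⁻¹ * (g * m⁻¹))) := by simp only [hδ, δinv hδ, δone hδ, D] <;> linear_combination (-1) * h3
  have e20 : δ (f * m⁻¹) = δ (Q * f⁻¹) := by simp only [hδ, δinv hδ, δone hδ, D] <;> linear_combination (0) * h3
  have e21 : δ (g * m⁻¹) = δ (Q * f⁻¹) := by simp only [hδ, δinv hδ, δone hδ, D] <;> linear_combination (0) * h3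
  have e22 : δ (m * f⁻¹) = δ (f * Q⁻¹) := by simp only [hδ, δinv hδ, δone hδ, D] <;> linear_combination (0) * h3
  have e23 : δ (g * P⁻¹) = δ (f * Q⁻¹) := by simp only [hδ, δinv hδ, δone hδ, D] <;> linear_combination (0) * h3
  have e24 : δ (g * m⁻¹) = δ (Q * g⁻¹) := by simp only [hδ, δinv hδ, δone hδ, D] <;> linear_combination (0) * h3
  have e25 : δ (g) = δ (f) := by simp only [hδ, δinv hδ, δone hδ, D] <;> linear_combination (0) * h3
  have e26 : δ (f * Q⁻¹) = δ (Q * m⁻¹) := by simp only [hδ, δinv hδ, δone hδ, D] <;> linear_combination (-1) * h3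
  have e27 : δ (Q * f⁻¹) = δ (m * P⁻¹) := by simp only [hδ, δinv hδ, δone hδ, D] <;> linear_combination (1) * h3
  have e28 : δ (Q * g⁻¹) = δ (f * m⁻¹) := by simp only [hδ, δinv hδ, δone hδ, D] <;> linear_combination (0) * h3
  have e29 : δ (f * m⁻¹) = δ (Q * g⁻¹) := by simp only [hδ, δinv hδ, δone hδ, D] <;> linear_combination (0) * h3
  have e30 : δ (P * f⁻¹) = δ (P * g⁻¹) := by simp only [hδ, δinv hδ, δone hδ, D] <;> linear_combination (0) * h3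
  have e31 : δ (P * f⁻¹) = δ (f * m⁻¹) := by simp only [hδ, δinv hδ, δone hδ, D] <;> linear_combination (0) * h3
  have e32 : δ (P * f⁻¹) = δ (g * m⁻¹) := by simp only [hδ, δinv hδ, δone hδ, D] <;> linear_combination (0) * h3
  have e33 : δ (P * f⁻¹) = δ (Q * g⁻¹) := by simp only [hδ, δinv hδ, δone hδ, D] <;> linear_combination (0) * h3
  have e34 : δ (P * g⁻¹) = δ (m * P⁻¹) := by simp only [hδ, δinv hδ, δone hδ, D] <;> linear_combination (1) * h3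
  have e35 : δ (f * m⁻¹) = δ (P * f⁻¹) := by simp only [hδ, δinv hδ, δone hδ, D] <;> linear_combination (0) * h3
  have e36 : δ (f * m⁻¹) = δ (P * g⁻¹) := by simp only [hδ, δinv hδ, δone hδ, D] <;> linear_combination (0) * h3
  have e37 : δ (g * m⁻¹) = δ (P * g⁻¹) := by simp only [hδ, δinv hδ, δone hδ, D] <;> linear_combination (0) * h3
  have e38 : δ (f * P⁻¹) = δ (m * g⁻¹) := by simp only [hδ, δinv hδ, δone hδ, D] <;> linear_combination (0) * h3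
  have e39 : δ (g * P⁻¹) = δ (m * f⁻¹) := by simp only [hδ, δinv hδ, δone hδ, D] <;> linear_combination (0) * h3
  have e40 : δ (m * f⁻¹) = δ (g * P⁻¹) := by simp only [hδ, δinv hδ, δone hδ, D] <;> linear_combination (0) * h3
  have e41 : δ (m * f⁻¹) = δ (m * g⁻¹) := by simp only [hδ, δinv hδ, δone hδ, D] <;> linear_combination (0) * h3
  have e42 : δ (m * f⁻¹) = δ (g * Q⁻¹) := by simp only [hδ, δinv hδ, δone hδ, D] <;> linear_combination (0) * h3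
  have e43 : δ (m * g⁻¹) = δ (m * f⁻¹) := by simp only [hδ, δinv hδ, δone hδ, D] <;> linear_combination (0) * h3
  have e44 : δ (g * Q⁻¹) = δ (m * f⁻¹) := by simp only [hδ, δinv hδ, δone hδ, D] <;> linear_combination (0) * h3
  have k0 : o.lt (f * m⁻¹) (P * f⁻¹) ↔ o.lt (1 * (f * m⁻¹)) (1 * (P * f⁻¹)) := o.cv hδ (1) e35 (by simp only [mul_assoc, mul_inv_rev, inv_inv, mul_inv_cancel_left, inv_mul_cancel_left, mul_inv_cancel, inv_mul_cancel, mul_one, one_mul, inv_one, C]) (by simp only [mul_assoc, mul_inv_rev, inv_inv, mul_inv_cancel_left, inv_mul_cancel_left, mul_inv_cancel, inv_mul_cancel, mul_one, one_mul, inv_one, C])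
  have k1 : o.lt (g * m⁻¹) (P * g⁻¹) ↔ o.lt (1 * (g * m⁻¹)) (1 * (P * g⁻¹)) := o.cv hδ (1) e37 (by simp only [mul_assoc, mul_inv_rev, inv_inv, mul_inv_cancel_left, inv_mul_cancel_left, mul_inv_cancel, inv_mul_cancel, mul_one, one_mul, inv_one, C]) (by simp only [mul_assoc, mul_inv_rev, inv_inv, mul_inv_cancel_left, inv_mul_cancel_left, mul_inv_cancel, inv_mul_cancel, mul_one, one_mul, inv_one, C])
  have k2 : o.lt (P * f⁻¹) (P * g⁻¹) ↔ o.lt (1 * (P * f⁻¹)) (1 * (P * g⁻¹)) := o.cv hδ (1) e30 (by simp only [mul_assoc, mul_inv_rev, inv_inv, mul_inv_cancel_left, inv_mul_cancel_left, mul_inv_cancel, inv_mul_cancel, mul_one, one_mul, inv_one, C]) (by simp only [mul_assoc, mul_inv_rev, inv_inv, mul_inv_cancel_left, inv_mul_cancel_left, mul_inv_cancel, inv_mul_cancel, mul_one, one_mul, inv_one, C])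
  have k3 : o.lt (g) (f) ↔ o.lt (1 * g) (1 * f) := o.cv hδ (1) e25 (by simp only [mul_assoc, mul_inv_rev, inv_inv, mul_inv_cancel_left, inv_mul_cancel_left, mul_inv_cancel, inv_mul_cancel, mul_one, one_mul, inv_one, C]) (by simp only [mul_assoc, mul_inv_rev, inv_inv, mul_inv_cancel_left, inv_mul_cancel_left, mul_inv_cancel, inv_mul_cancel, mul_one, one_mul, inv_one, C])
  have k4 : o.lt (P * f⁻¹) (g * m⁻¹) ↔ o.lt (1 * (P * f⁻¹)) (1 * (g * m⁻¹)) := o.cv hδ (1) e32 (by simp only [mul_assoc, mul_inv_rev, inv_inv, mul_inv_cancel_left, inv_mul_cancel_left, mul_inv_cancel, inv_mul_cancel, mul_one, one_mul, inv_one, C]) (by simp only [mul_assoc, mul_inv_rev, inv_inv, mul_inv_cancel_left, inv_mul_cancel_left, mul_inv_cancel, inv_mul_cancel, mul_one, one_mul, inv_one, C])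
  have k5 : o.lt (m * f⁻¹) (g * P⁻¹) ↔ o.lt (1 * (f * m⁻¹)⁻¹) (1 * (P * g⁻¹)⁻¹) := o.cv hδ (1) e40 (by simp only [mul_assoc, mul_inv_rev, inv_inv, mul_inv_cancel_left, inv_mul_cancel_left, mul_inv_cancel, inv_mul_cancel, mul_one, one_mul, inv_one, C]) (by simp only [mul_assoc, mul_inv_rev, inv_inv, mul_inv_cancel_left, inv_mul_cancel_left, mul_inv_cancel, inv_mul_cancel, mul_one, one_mul, inv_one, C])
  have k6 : o.lt (m * f⁻¹) (m * g⁻¹) ↔ o.lt (1 * (m * f⁻¹)) (1 * (m * g⁻¹)) := o.cv hδ (1) e41 (by simp only [mul_assoc, mul_inv_rev, inv_inv, mul_inv_cancel_left, inv_mul_cancel_left, mul_inv_cancel, inv_mul_cancel, mul_one, one_mul, inv_one, C]) (by simp only [mul_assoc, mul_inv_rev, inv_inv, mul_inv_cancel_left, inv_mul_cancel_left, mul_inv_cancel, inv_mul_cancel, mul_one, one_mul, inv_one, C])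
  have k7 : o.lt (f * P⁻¹) (m * g⁻¹) ↔ o.lt (1 * (f * P⁻¹)) (1 * (m * g⁻¹)) := o.cv hδ (1) e38 (by simp only [mul_assoc, mul_inv_rev, inv_inv, mul_inv_cancel_left, inv_mul_cancel_left, mul_inv_cancel, inv_mul_cancel, mul_one, one_mul, inv_one, C]) (by simp only [mul_assoc, mul_inv_rev, inv_inv, mul_inv_cancel_left, inv_mul_cancel_left, mul_inv_cancel, inv_mul_cancel, mul_one, one_mul, inv_one, C])
  have k8 : o.lt (f * m⁻¹) (P * g⁻¹) ↔ o.lt (1 * (m * f⁻¹)⁻¹) (1 * (g * P⁻¹)⁻¹) := o.cv hδ (1) e36 (by simp only [mul_assoc, mul_inv_rev, inv_inv, mul_inv_cancel_left, inv_mul_cancel_left, mul_inv_cancel, inv_mul_cancel, mul_one, one_mul, inv_one, C]) (by simp only [mul_assoc, mul_inv_rev, inv_inv, mul_inv_cancel_left, inv_mul_cancel_left, mul_inv_cancel, inv_mul_cancel, mul_one, one_mul, inv_one, C])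
  have k9 : o.lt (m * g⁻¹) (m * f⁻¹) ↔ o.lt (1 * (m * g⁻¹)) (1 * (m * f⁻¹)) := o.cv hδ (1) e43 (by simp only [mul_assoc, mul_inv_rev, inv_inv, mul_inv_cancel_left, inv_mul_cancel_left, mul_inv_cancel, inv_mul_cancel, mul_one, one_mul, inv_one, C]) (by simp only [mul_assoc, mul_inv_rev, inv_inv, mul_inv_cancel_left, inv_mul_cancel_left, mul_inv_cancel, inv_mul_cancel, mul_one, one_mul, inv_one, C])
  have k10 : o.lt (m * f⁻¹) (g * Q⁻¹) ↔ o.lt (1 * (m * f⁻¹)) (1 * (g * Q⁻¹)) := o.cv hδ (1) e42 (by simp only [mul_assoc, mul_inv_rev, inv_inv, mul_inv_cancel_left, inv_mul_cancel_left, mul_inv_cancel, inv_mul_cancel, mul_one, one_mul, inv_one, C]) (by simp only [mul_assoc, mul_inv_rev, inv_inv, mul_inv_cancel_left, inv_mul_cancel_left, mul_inv_cancel, inv_mul_cancel, mul_one, one_mul, inv_one, C])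
  have k11 : o.lt (g * m⁻¹) (Q * g⁻¹) ↔ o.lt (1 * (m * g⁻¹)⁻¹) (1 * (g * Q⁻¹)⁻¹) := o.cv hδ (1) e24 (by simp only [mul_assoc, mul_inv_rev, inv_inv, mul_inv_cancel_left, inv_mul_cancel_left, mul_inv_cancel, inv_mul_cancel, mul_one, one_mul, inv_one, C]) (by simp only [mul_assoc, mul_inv_rev, inv_inv, mul_inv_cancel_left, inv_mul_cancel_left, mul_inv_cancel, inv_mul_cancel, mul_one, one_mul, inv_one, C])
  have k12 : o.lt (g) (f) ↔ o.lt (1 * (g * Q⁻¹)) (1 * (f * Q⁻¹)) := o.cv hδ (Q⁻¹) e25 (by simp only [mul_assoc, mul_inv_rev, inv_inv, mul_inv_cancel_left, inv_mul_cancel_left, mul_inv_cancel, inv_mul_cancel, mul_one, one_mul, inv_one, C]) (by simp only [mul_assoc, mul_inv_rev, inv_inv, mul_inv_cancel_left, inv_mul_cancel_left, mul_inv_cancel, inv_mul_cancel, mul_one, one_mul, inv_one, C])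
  have k13 : o.lt (g * Q⁻¹) (m * f⁻¹) ↔ o.lt (1 * (g * Q⁻¹)) (1 * (m * f⁻¹)) := o.cv hδ (1) e44 (by simp only [mul_assoc, mul_inv_rev, inv_inv, mul_inv_cancel_left, inv_mul_cancel_left, mul_inv_cancel, inv_mul_cancel, mul_one, one_mul, inv_one, C]) (by simp only [mul_assoc, mul_inv_rev, inv_inv, mul_inv_cancel_left, inv_mul_cancel_left, mul_inv_cancel, inv_mul_cancel, mul_one, one_mul, inv_one, C])
  have k14 : o.lt (Q * g⁻¹) (Q * f⁻¹) ↔ o.lt (1 * (Q * g⁻¹)) (1 * (Q * f⁻¹)) := o.cv hδ (1) e0 (by simp only [mul_assoc, mul_inv_rev, inv_inv, mul_inv_cancel_left, inv_mul_cancel_left, mul_inv_cancel, inv_mul_cancel, mul_one, one_mul, inv_one, C]) (by simp only [mul_assoc, mul_inv_rev, inv_inv, mul_inv_cancel_left, inv_mul_cancel_left, mul_inv_cancel, inv_mul_cancel, mul_one, one_mul, inv_one, C])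
  have k15 : o.lt (f * m⁻¹) (Q * g⁻¹) ↔ o.lt (1 * (f * m⁻¹)) (1 * (Q * g⁻¹)) := o.cv hδ (1) e29 (by simp only [mul_assoc, mul_inv_rev, inv_inv, mul_inv_cancel_left, inv_mul_cancel_left, mul_inv_cancel, inv_mul_cancel, mul_one, one_mul, inv_one, C]) (by simp only [mul_assoc, mul_inv_rev, inv_inv, mul_inv_cancel_left, inv_mul_cancel_left, mul_inv_cancel, inv_mul_cancel, mul_one, one_mul, inv_one, C])
  have k16 : o.lt (m * f⁻¹) (f * Q⁻¹) ↔ o.lt (1 * (f * m⁻¹)⁻¹) (1 * (Q * f⁻¹)⁻¹) := o.cv hδ (1) e22 (by simp only [mul_assoc, mul_inv_rev, inv_inv, mul_inv_cancel_left, inv_mul_cancel_left, mul_inv_cancel, inv_mul_cancel, mul_one, one_mul, inv_one, C]) (by simp only [mul_assoc, mul_inv_rev, inv_inv, mul_inv_cancel_left, inv_mul_cancel_left, mul_inv_cancel, inv_mul_cancel, mul_one, one_mul, inv_one, C])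
  have k17 : o.lt (g) (f) ↔ o.lt (1 * (g * m⁻¹)) (1 * (f * m⁻¹)) := o.cv hδ (m⁻¹) e25 (by simp only [mul_assoc, mul_inv_rev, inv_inv, mul_inv_cancel_left, inv_mul_cancel_left, mul_inv_cancel, inv_mul_cancel, mul_one, one_mul, inv_one, C]) (by simp only [mul_assoc, mul_inv_rev, inv_inv, mul_inv_cancel_left, inv_mul_cancel_left, mul_inv_cancel, inv_mul_cancel, mul_one, one_mul, inv_one, C])
  have k18 : o.lt (Q * g⁻¹) (f * m⁻¹) ↔ o.lt (1 * (Q * g⁻¹)) (1 * (f * m⁻¹)) := o.cv hδ (1) e28 (by simp only [mul_assoc, mul_inv_rev, inv_inv, mul_inv_cancel_left, inv_mul_cancel_left, mul_inv_cancel, inv_mul_cancel, mul_one, one_mul, inv_one, C]) (by simp only [mul_assoc, mul_inv_rev, inv_inv, mul_inv_cancel_left, inv_mul_cancel_left, mul_inv_cancel, inv_mul_cancel, mul_one, one_mul, inv_one, C])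
  have k19 : o.lt (Q * (P⁻¹ * (f * P⁻¹))) (Q * m⁻¹) ↔ o.lt ((Q * f⁻¹) * (P * f⁻¹)) ((Q * f⁻¹) * (f * m⁻¹)) := o.cv hδ (P * (f⁻¹ * (P * (f⁻¹ * (P * f⁻¹))))) e3 (by simp only [mul_assoc, mul_inv_rev, inv_inv, mul_inv_cancel_left, inv_mul_cancel_left, mul_inv_cancel, inv_mul_cancel, mul_one, one_mul, inv_one, C]) (by simp only [mul_assoc, mul_inv_rev, inv_inv, mul_inv_cancel_left, inv_mul_cancel_left, mul_inv_cancel, inv_mul_cancel, mul_one, one_mul, inv_one, C])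
  have k20 : o.lt (Q * (f⁻¹ * (P * g⁻¹))) (Q * (f⁻¹ * (g * m⁻¹))) ↔ o.lt ((Q * f⁻¹) * (P * g⁻¹)) ((Q * f⁻¹) * (g * m⁻¹)) := o.cv hδ (1) e9 (by simp only [mul_assoc, mul_inv_rev, inv_inv, mul_inv_cancel_left, inv_mul_cancel_left, mul_inv_cancel, inv_mul_cancel, mul_one, one_mul, inv_one, C]) (by simp only [mul_assoc, mul_inv_rev, inv_inv, mul_inv_cancel_left, inv_mul_cancel_left, mul_inv_cancel, inv_mul_cancel, mul_one, one_mul, inv_one, C])
  have k21 : o.lt (Q * (f⁻¹ * (P * g⁻¹))) (Q * (P⁻¹ * (f * P⁻¹))) ↔ o.lt ((Q * f⁻¹) * (P * g⁻¹)) ((Q * f⁻¹) * (P * f⁻¹)) := o.cv hδ (1) e7 (by simp only [mul_assoc, mul_inv_rev, inv_inv, mul_inv_cancel_left, inv_mul_cancel_left, mul_inv_cancel, inv_mul_cancel, mul_one, one_mul, inv_one, C]) (by simp only [mul_assoc, mul_inv_rev, inv_inv, mul_inv_cancel_left, inv_mul_cancel_left, mul_inv_cancel, inv_mul_cancel, mul_one, one_mul, inv_one, C])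
  have k22 : o.lt (Q * g⁻¹) (Q * f⁻¹) ↔ o.lt ((Q * f⁻¹) * f) ((Q * f⁻¹) * g) := o.cv hδ (g) e0 (by simp only [mul_assoc, mul_inv_rev, inv_inv, mul_inv_cancel_left, inv_mul_cancel_left, mul_inv_cancel, inv_mul_cancel, mul_one, one_mul, inv_one, C]) (by simp only [mul_assoc, mul_inv_rev, inv_inv, mul_inv_cancel_left, inv_mul_cancel_left, mul_inv_cancel, inv_mul_cancel, mul_one, one_mul, inv_one, C])
  have k23 : o.lt (Q * (f⁻¹ * (m * g⁻¹))) (Q * (m⁻¹ * (f * m⁻¹))) ↔ o.lt ((Q * f⁻¹) * (m * g⁻¹)) ((Q * f⁻¹) * (m * f⁻¹)) := o.cv hδ (1) e16 (by simp only [mul_assoc, mul_inv_rev, inv_inv, mul_inv_cancel_left, inv_mul_cancel_left, mul_inv_cancel, inv_mul_cancel, mul_one, one_mul, inv_one, C]) (by simp only [mul_assoc, mul_inv_rev, inv_inv, mul_inv_cancel_left, inv_mul_cancel_left, mul_inv_cancel, inv_mul_cancel, mul_one, one_mul, inv_one, C])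
  have k24 : o.lt (Q * (f⁻¹ * (m * g⁻¹))) (Q * P⁻¹) ↔ o.lt ((Q * f⁻¹) * (m * g⁻¹)) ((Q * f⁻¹) * (f * P⁻¹)) := o.cv hδ (1) e15 (by simp only [mul_assoc, mul_inv_rev, inv_inv, mul_inv_cancel_left, inv_mul_cancel_left, mul_inv_cancel, inv_mul_cancel, mul_one, one_mul, inv_one, C]) (by simp only [mul_assoc, mul_inv_rev, inv_inv, mul_inv_cancel_left, inv_mul_cancel_left, mul_inv_cancel, inv_mul_cancel, mul_one, one_mul, inv_one, C])
  have k25 : o.lt (Q * (f⁻¹ * (P * g⁻¹))) (Q * m⁻¹) ↔ o.lt ((Q * f⁻¹) * (g * P⁻¹)⁻¹) ((Q * f⁻¹) * (m * f⁻¹)⁻¹) := o.cv hδ (1) e8 (by simp only [mul_assoc, mul_inv_rev, inv_inv, mul_inv_cancel_left, inv_mul_cancel_left, mul_inv_cancel, inv_mul_cancel, mul_one, one_mul, inv_one, C]) (by simp only [mul_assoc, mul_inv_rev, inv_inv, mul_inv_cancel_left, inv_mul_cancel_left, mul_inv_cancel, inv_mul_cancel, mul_one, one_mul, inv_one, C])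
  have k26 : o.lt (Q * (f⁻¹ * (g * P⁻¹))) (Q * (f⁻¹ * (m * g⁻¹))) ↔ o.lt ((Q * f⁻¹) * (g * P⁻¹)) ((Q * f⁻¹) * (m * g⁻¹)) := o.cv hδ (1) e5 (by simp only [mul_assoc, mul_inv_rev, inv_inv, mul_inv_cancel_left, inv_mul_cancel_left, mul_inv_cancel, inv_mul_cancel, mul_one, one_mul, inv_one, C]) (by simp only [mul_assoc, mul_inv_rev, inv_inv, mul_inv_cancel_left, inv_mul_cancel_left, mul_inv_cancel, inv_mul_cancel, mul_one, one_mul, inv_one, C])
  have k27 : o.lt (Q * P⁻¹) (Q * (m⁻¹ * (f * m⁻¹))) ↔ o.lt ((Q * f⁻¹) * (f * P⁻¹)) ((Q * f⁻¹) * (m * f⁻¹)) := o.cv hδ (1) e1 (by simp only [mul_assoc, mul_inv_rev, inv_inv, mul_inv_cancel_left, inv_mul_cancel_left, mul_inv_cancel, inv_mul_cancel, mul_one, one_mul, inv_one, C]) (by simp only [mul_assoc, mul_inv_rev, inv_inv, mul_inv_cancel_left, inv_mul_cancel_left, mul_inv_cancel, inv_mul_cancel, mul_one, one_mul, inv_one, C])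
  have k28 : o.lt (Q * g⁻¹) (Q * f⁻¹) ↔ o.lt ((Q * f⁻¹) * (f * Q⁻¹)) ((Q * f⁻¹) * (g * Q⁻¹)) := o.cv hδ (g * Q⁻¹) e0 (by simp only [mul_assoc, mul_inv_rev, inv_inv, mul_inv_cancel_left, inv_mul_cancel_left, mul_inv_cancel, inv_mul_cancel, mul_one, one_mul, inv_one, C]) (by simp only [mul_assoc, mul_inv_rev, inv_inv, mul_inv_cancel_left, inv_mul_cancel_left, mul_inv_cancel, inv_mul_cancel, mul_one, one_mul, inv_one, C])
  have k29 : o.lt (Q * (m⁻¹ * (f * m⁻¹))) (Q * (f⁻¹ * (g * Q⁻¹))) ↔ o.lt ((Q * f⁻¹) * (m * f⁻¹)) ((Q * f⁻¹) * (g * Q⁻¹)) := o.cv hδ (m * (f⁻¹ * (m * (f⁻¹ * (m * f⁻¹))))) e11 (by simp only [mul_assoc, mul_inv_rev, inv_inv, mul_inv_cancel_left, inv_mul_cancel_left, mul_inv_cancel, inv_mul_cancel, mul_one, one_mul, inv_one, C]) (by simp only [mul_assoc, mul_inv_rev, inv_inv, mul_inv_cancel_left, inv_mul_cancel_left, mul_inv_cancel, inv_mul_cancel, mul_one, one_mul, inv_one, C])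
  have k30 : o.lt (f * (Q⁻¹ * (f * g⁻¹))) (Q * (f⁻¹ * (g * m⁻¹))) ↔ o.lt ((Q * f⁻¹) * (g * Q⁻¹)⁻¹) ((Q * f⁻¹) * (m * g⁻¹)⁻¹) := o.cv hδ (g * (f⁻¹ * (Q * (f⁻¹ * (Q * (f⁻¹ * (Q * g⁻¹))))))) e19 (by simp only [mul_assoc, mul_inv_rev, inv_inv, mul_inv_cancel_left, inv_mul_cancel_left, mul_inv_cancel, inv_mul_cancel, mul_one, one_mul, inv_one, C]) (by simp only [mul_assoc, mul_inv_rev, inv_inv, mul_inv_cancel_left, inv_mul_cancel_left, mul_inv_cancel, inv_mul_cancel, mul_one, one_mul, inv_one, C])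
  have k31 : o.lt (Q * (f⁻¹ * (g * m⁻¹))) (f * (Q⁻¹ * (f * g⁻¹))) ↔ o.lt ((Q * f⁻¹) * (m * g⁻¹)⁻¹) ((Q * f⁻¹) * (g * Q⁻¹)⁻¹) := o.cv hδ (1) e18 (by simp only [mul_assoc, mul_inv_rev, inv_inv, mul_inv_cancel_left, inv_mul_cancel_left, mul_inv_cancel, inv_mul_cancel, mul_one, one_mul, inv_one, C]) (by simp only [mul_assoc, mul_inv_rev, inv_inv, mul_inv_cancel_left, inv_mul_cancel_left, mul_inv_cancel, inv_mul_cancel, mul_one, one_mul, inv_one, C])
  have k32 : o.lt (P * f⁻¹) (f * m⁻¹) ↔ o.lt (P * f⁻¹) (f * m⁻¹) := o.cv hδ (1) e31 (by simp only [mul_assoc, mul_inv_rev, inv_inv, mul_inv_cancel_left, inv_mul_cancel_left, mul_inv_cancel, inv_mul_cancel, mul_one, one_mul, inv_one, C]) (by simp only [mul_assoc, mul_inv_rev, inv_inv, mul_inv_cancel_left, inv_mul_cancel_left, mul_inv_cancel, inv_mul_cancel, mul_one, one_mul, inv_one, C])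
  have k33 : o.lt (f * m⁻¹) (P * f⁻¹) ↔ o.lt (f * m⁻¹) (P * f⁻¹) := o.cv hδ (1) e35 (by simp only [mul_assoc, mul_inv_rev, inv_inv, mul_inv_cancel_left, inv_mul_cancel_left, mul_inv_cancel, inv_mul_cancel, mul_one, one_mul, inv_one, C]) (by simp only [mul_assoc, mul_inv_rev, inv_inv, mul_inv_cancel_left, inv_mul_cancel_left, mul_inv_cancel, inv_mul_cancel, mul_one, one_mul, inv_one, C])
  have k34 : o.lt (P * f⁻¹) (g * m⁻¹) ↔ o.lt (P * f⁻¹) (g * m⁻¹) := o.cv hδ (1) e32 (by simp only [mul_assoc, mul_inv_rev, inv_inv, mul_inv_cancel_left, inv_mul_cancel_left, mul_inv_cancel, inv_mul_cancel, mul_one, one_mul, inv_one, C]) (by simp only [mul_assoc, mul_inv_rev, inv_inv, mul_inv_cancel_left, inv_mul_cancel_left, mul_inv_cancel, inv_mul_cancel, mul_one, one_mul, inv_one, C])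
  have k35 : o.lt (g) (f) ↔ o.lt (g * m⁻¹) (f * m⁻¹) := o.cv hδ (m⁻¹) e25 (by simp only [mul_assoc, mul_inv_rev, inv_inv, mul_inv_cancel_left, inv_mul_cancel_left, mul_inv_cancel, inv_mul_cancel, mul_one, one_mul, inv_one, C]) (by simp only [mul_assoc, mul_inv_rev, inv_inv, mul_inv_cancel_left, inv_mul_cancel_left, mul_inv_cancel, inv_mul_cancel, mul_one, one_mul, inv_one, C])
  have k36 : o.lt (P * f⁻¹) (Q * g⁻¹) ↔ o.lt (P * f⁻¹) (Q * g⁻¹) := o.cv hδ (1) e33 (by simp only [mul_assoc, mul_inv_rev, inv_inv, mul_inv_cancel_left, inv_mul_cancel_left, mul_inv_cancel, inv_mul_cancel, mul_one, one_mul, inv_one, C]) (by simp only [mul_assoc, mul_inv_rev, inv_inv, mul_inv_cancel_left, inv_mul_cancel_left, mul_inv_cancel, inv_mul_cancel, mul_one, one_mul, inv_one, C])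
  have k37 : o.lt (f * m⁻¹) (Q * g⁻¹) ↔ o.lt (f * m⁻¹) (Q * g⁻¹) := o.cv hδ (1) e29 (by simp only [mul_assoc, mul_inv_rev, inv_inv, mul_inv_cancel_left, inv_mul_cancel_left, mul_inv_cancel, inv_mul_cancel, mul_one, one_mul, inv_one, C]) (by simp only [mul_assoc, mul_inv_rev, inv_inv, mul_inv_cancel_left, inv_mul_cancel_left, mul_inv_cancel, inv_mul_cancel, mul_one, one_mul, inv_one, C])
  have k38 : o.lt (f * m⁻¹) (P * g⁻¹) ↔ o.lt (f * m⁻¹) (P * g⁻¹) := o.cv hδ (1) e36 (by simp only [mul_assoc, mul_inv_rev, inv_inv, mul_inv_cancel_left, inv_mul_cancel_left, mul_inv_cancel, inv_mul_cancel, mul_one, one_mul, inv_one, C]) (by simp only [mul_assoc, mul_inv_rev, inv_inv, mul_inv_cancel_left, inv_mul_cancel_left, mul_inv_cancel, inv_mul_cancel, mul_one, one_mul, inv_one, C])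
  have k39 : o.lt (Q * g⁻¹) (P * g⁻¹) ↔ o.lt (Q * g⁻¹) (P * g⁻¹) := o.cv hδ (1) e2 (by simp only [mul_assoc, mul_inv_rev, inv_inv, mul_inv_cancel_left, inv_mul_cancel_left, mul_inv_cancel, inv_mul_cancel, mul_one, one_mul, inv_one, C]) (by simp only [mul_assoc, mul_inv_rev, inv_inv, mul_inv_cancel_left, inv_mul_cancel_left, mul_inv_cancel, inv_mul_cancel, mul_one, one_mul, inv_one, C])
  have k40 : o.lt (Q * g⁻¹) (f * m⁻¹) ↔ o.lt (Q * g⁻¹) (f * m⁻¹) := o.cv hδ (1) e28 (by simp only [mul_assoc, mul_inv_rev, inv_inv, mul_inv_cancel_left, inv_mul_cancel_left, mul_inv_cancel, inv_mul_cancel, mul_one, one_mul, inv_one, C]) (by simp only [mul_assoc, mul_inv_rev, inv_inv, mul_inv_cancel_left, inv_mul_cancel_left, mul_inv_cancel, inv_mul_cancel, mul_one, one_mul, inv_one, C])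
  have k41 : o.lt (f * m⁻¹) (Q * f⁻¹) ↔ o.lt (f * m⁻¹) (Q * f⁻¹) := o.cv hδ (1) e20 (by simp only [mul_assoc, mul_inv_rev, inv_inv, mul_inv_cancel_left, inv_mul_cancel_left, mul_inv_cancel, inv_mul_cancel, mul_one, one_mul, inv_one, C]) (by simp only [mul_assoc, mul_inv_rev, inv_inv, mul_inv_cancel_left, inv_mul_cancel_left, mul_inv_cancel, inv_mul_cancel, mul_one, one_mul, inv_one, C])
  have k42 : o.lt (Q * g⁻¹) (Q * f⁻¹) ↔ o.lt (Q * g⁻¹) (Q * f⁻¹) := o.cv hδ (1) e0 (by simp only [mul_assoc, mul_inv_rev, inv_inv, mul_inv_cancel_left, inv_mul_cancel_left, mul_inv_cancel, inv_mul_cancel, mul_one, one_mul, inv_one, C]) (by simp only [mul_assoc, mul_inv_rev, inv_inv, mul_inv_cancel_left, inv_mul_cancel_left, mul_inv_cancel, inv_mul_cancel, mul_one, one_mul, inv_one, C])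
  have k43 : o.lt (g * m⁻¹) (P * g⁻¹) ↔ o.lt (g * m⁻¹) (P * g⁻¹) := o.cv hδ (1) e37 (by simp only [mul_assoc, mul_inv_rev, inv_inv, mul_inv_cancel_left, inv_mul_cancel_left, mul_inv_cancel, inv_mul_cancel, mul_one, one_mul, inv_one, C]) (by simp only [mul_assoc, mul_inv_rev, inv_inv, mul_inv_cancel_left, inv_mul_cancel_left, mul_inv_cancel, inv_mul_cancel, mul_one, one_mul, inv_one, C])
  have k44 : o.lt (g * m⁻¹) (Q * f⁻¹) ↔ o.lt (g * m⁻¹) (Q * f⁻¹) := o.cv hδ (1) e21 (by simp only [mul_assoc, mul_inv_rev, inv_inv, mul_inv_cancel_left, inv_mul_cancel_left, mul_inv_cancel, inv_mul_cancel, mul_one, one_mul, inv_one, C]) (by simp only [mul_assoc, mul_inv_rev, inv_inv, mul_inv_cancel_left, inv_mul_cancel_left, mul_inv_cancel, inv_mul_cancel, mul_one, one_mul, inv_one, C])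
  have k45 : o.lt (Q * f⁻¹) (Q * g⁻¹) ↔ o.lt (Q * f⁻¹) (Q * g⁻¹) := o.cv hδ (1) e4 (by simp only [mul_assoc, mul_inv_rev, inv_inv, mul_inv_cancel_left, inv_mul_cancel_left, mul_inv_cancel, inv_mul_cancel, mul_one, one_mul, inv_one, C]) (by simp only [mul_assoc, mul_inv_rev, inv_inv, mul_inv_cancel_left, inv_mul_cancel_left, mul_inv_cancel, inv_mul_cancel, mul_one, one_mul, inv_one, C])
  have k46 : o.lt (Q * f⁻¹) (P * g⁻¹) ↔ o.lt (Q * f⁻¹) (P * g⁻¹) := o.cv hδ (1) e6 (by simp only [mul_assoc, mul_inv_rev, inv_inv, mul_inv_cancel_left, inv_mul_cancel_left, mul_inv_cancel, inv_mul_cancel, mul_one, one_mul, inv_one, C]) (by simp only [mul_assoc, mul_inv_rev, inv_inv, mul_inv_cancel_left, inv_mul_cancel_left, mul_inv_cancel, inv_mul_cancel, mul_one, one_mul, inv_one, C])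
  have k47 : o.lt (Q * g⁻¹) (P * g⁻¹) ↔ o.lt (Q * f⁻¹) (P * f⁻¹) := o.cv hδ (g * f⁻¹) e2 (by simp only [mul_assoc, mul_inv_rev, inv_inv, mul_inv_cancel_left, inv_mul_cancel_left, mul_inv_cancel, inv_mul_cancel, mul_one, one_mul, inv_one, C]) (by simp only [mul_assoc, mul_inv_rev, inv_inv, mul_inv_cancel_left, inv_mul_cancel_left, mul_inv_cancel, inv_mul_cancel, mul_one, one_mul, inv_one, C])
  have k48 : o.lt (P * f⁻¹) (P * g⁻¹) ↔ o.lt (P * f⁻¹) (P * g⁻¹) := o.cv hδ (1) e30 (by simp only [mul_assoc, mul_inv_rev, inv_inv, mul_inv_cancel_left, inv_mul_cancel_left, mul_inv_cancel, inv_mul_cancel, mul_one, one_mul, inv_one, C]) (by simp only [mul_assoc, mul_inv_rev, inv_inv, mul_inv_cancel_left, inv_mul_cancel_left, mul_inv_cancel, inv_mul_cancel, mul_one, one_mul, inv_one, C])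
  have k49 : o.lt (Q * f⁻¹) (f * m⁻¹) ↔ o.lt (Q * f⁻¹) (f * m⁻¹) := o.cv hδ (1) e12 (by simp only [mul_assoc, mul_inv_rev, inv_inv, mul_inv_cancel_left, inv_mul_cancel_left, mul_inv_cancel, inv_mul_cancel, mul_one, one_mul, inv_one, C]) (by simp only [mul_assoc, mul_inv_rev, inv_inv, mul_inv_cancel_left, inv_mul_cancel_left, mul_inv_cancel, inv_mul_cancel, mul_one, one_mul, inv_one, C])
  have k50 : o.lt (Q * f⁻¹) (g * m⁻¹) ↔ o.lt (Q * f⁻¹) (g * m⁻¹) := o.cv hδ (1) e17 (by simp only [mul_assoc, mul_inv_rev, inv_inv, mul_inv_cancel_left, inv_mul_cancel_left, mul_inv_cancel, inv_mul_cancel, mul_one, one_mul, inv_one, C]) (by simp only [mul_assoc, mul_inv_rev, inv_inv, mul_inv_cancel_left, inv_mul_cancel_left, mul_inv_cancel, inv_mul_cancel, mul_one, one_mul, inv_one, C])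
  have k51 : o.lt (Q * f⁻¹) (m * P⁻¹) ↔ o.lt (Q * f⁻¹) (m * P⁻¹) := o.cv hδ (1) e27 (by simp only [mul_assoc, mul_inv_rev, inv_inv, mul_inv_cancel_left, inv_mul_cancel_left, mul_inv_cancel, inv_mul_cancel, mul_one, one_mul, inv_one, C]) (by simp only [mul_assoc, mul_inv_rev, inv_inv, mul_inv_cancel_left, inv_mul_cancel_left, mul_inv_cancel, inv_mul_cancel, mul_one, one_mul, inv_one, C])
  have k52 : o.lt (P * g⁻¹) (m * P⁻¹) ↔ o.lt (P * g⁻¹) (m * P⁻¹) := o.cv hδ (1) e34 (by simp only [mul_assoc, mul_inv_rev, inv_inv, mul_inv_cancel_left, inv_mul_cancel_left, mul_inv_cancel, inv_mul_cancel, mul_one, one_mul, inv_one, C]) (by simp only [mul_assoc, mul_inv_rev, inv_inv, mul_inv_cancel_left, inv_mul_cancel_left, mul_inv_cancel, inv_mul_cancel, mul_one, one_mul, inv_one, C])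
  have k53 : o.lt (g * P⁻¹) (m * f⁻¹) ↔ o.lt (g * P⁻¹) (m * f⁻¹) := o.cv hδ (1) e39 (by simp only [mul_assoc, mul_inv_rev, inv_inv, mul_inv_cancel_left, inv_mul_cancel_left, mul_inv_cancel, inv_mul_cancel, mul_one, one_mul, inv_one, C]) (by simp only [mul_assoc, mul_inv_rev, inv_inv, mul_inv_cancel_left, inv_mul_cancel_left, mul_inv_cancel, inv_mul_cancel, mul_one, one_mul, inv_one, C])
  have k54 : o.lt (m * f⁻¹) (g * P⁻¹) ↔ o.lt (m * f⁻¹) (g * P⁻¹) := o.cv hδ (1) e40 (by simp only [mul_assoc, mul_inv_rev, inv_inv, mul_inv_cancel_left, inv_mul_cancel_left, mul_inv_cancel, inv_mul_cancel, mul_one, one_mul, inv_one, C]) (by simp only [mul_assoc, mul_inv_rev, inv_inv, mul_inv_cancel_left, inv_mul_cancel_left, mul_inv_cancel, inv_mul_cancel, mul_one, one_mul, inv_one, C])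
  have k55 : o.lt (P * g⁻¹) (m * P⁻¹) ↔ o.lt (g * P⁻¹) (m * g⁻¹) := o.cv hδ (g * (P⁻¹ * (g * P⁻¹))) e34 (by simp only [mul_assoc, mul_inv_rev, inv_inv, mul_inv_cancel_left, inv_mul_cancel_left, mul_inv_cancel, inv_mul_cancel, mul_one, one_mul, inv_one, C]) (by simp only [mul_assoc, mul_inv_rev, inv_inv, mul_inv_cancel_left, inv_mul_cancel_left, mul_inv_cancel, inv_mul_cancel, mul_one, one_mul, inv_one, C])
  have k56 : o.lt (g) (f) ↔ o.lt (g * P⁻¹) (f * P⁻¹) := o.cv hδ (P⁻¹) e25 (by simp only [mul_assoc, mul_inv_rev, inv_inv, mul_inv_cancel_left, inv_mul_cancel_left, mul_inv_cancel, inv_mul_cancel, mul_one, one_mul, inv_one, C]) (by simp only [mul_assoc, mul_inv_rev, inv_inv, mul_inv_cancel_left, inv_mul_cancel_left, mul_inv_cancel, inv_mul_cancel, mul_one, one_mul, inv_one, C])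
  have k57 : o.lt (f * P⁻¹) (m * g⁻¹) ↔ o.lt (f * P⁻¹) (m * g⁻¹) := o.cv hδ (1) e38 (by simp only [mul_assoc, mul_inv_rev, inv_inv, mul_inv_cancel_left, inv_mul_cancel_left, mul_inv_cancel, inv_mul_cancel, mul_one, one_mul, inv_one, C]) (by simp only [mul_assoc, mul_inv_rev, inv_inv, mul_inv_cancel_left, inv_mul_cancel_left, mul_inv_cancel, inv_mul_cancel, mul_one, one_mul, inv_one, C])
  have k58 : o.lt (g * P⁻¹) (f * Q⁻¹) ↔ o.lt (g * P⁻¹) (f * Q⁻¹) := o.cv hδ (1) e23 (by simp only [mul_assoc, mul_inv_rev, inv_inv, mul_inv_cancel_left, inv_mul_cancel_left, mul_inv_cancel, inv_mul_cancel, mul_one, one_mul, inv_one, C]) (by simp only [mul_assoc, mul_inv_rev, inv_inv, mul_inv_cancel_left, inv_mul_cancel_left, mul_inv_cancel, inv_mul_cancel, mul_one, one_mul, inv_one, C])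
  have k59 : o.lt (m * f⁻¹) (f * Q⁻¹) ↔ o.lt (m * f⁻¹) (f * Q⁻¹) := o.cv hδ (1) e22 (by simp only [mul_assoc, mul_inv_rev, inv_inv, mul_inv_cancel_left, inv_mul_cancel_left, mul_inv_cancel, inv_mul_cancel, mul_one, one_mul, inv_one, C]) (by simp only [mul_assoc, mul_inv_rev, inv_inv, mul_inv_cancel_left, inv_mul_cancel_left, mul_inv_cancel, inv_mul_cancel, mul_one, one_mul, inv_one, C])
  have k60 : o.lt (m * f⁻¹) (m * g⁻¹) ↔ o.lt (m * f⁻¹) (m * g⁻¹) := o.cv hδ (1) e41 (by simp only [mul_assoc, mul_inv_rev, inv_inv, mul_inv_cancel_left, inv_mul_cancel_left, mul_inv_cancel, inv_mul_cancel, mul_one, one_mul, inv_one, C]) (by simp only [mul_assoc, mul_inv_rev, inv_inv, mul_inv_cancel_left, inv_mul_cancel_left, mul_inv_cancel, inv_mul_cancel, mul_one, one_mul, inv_one, C])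
  have k61 : o.lt (m * g⁻¹) (m * f⁻¹) ↔ o.lt (m * g⁻¹) (m * f⁻¹) := o.cv hδ (1) e43 (by simp only [mul_assoc, mul_inv_rev, inv_inv, mul_inv_cancel_left, inv_mul_cancel_left, mul_inv_cancel, inv_mul_cancel, mul_one, one_mul, inv_one, C]) (by simp only [mul_assoc, mul_inv_rev, inv_inv, mul_inv_cancel_left, inv_mul_cancel_left, mul_inv_cancel, inv_mul_cancel, mul_one, one_mul, inv_one, C])
  have k62 : o.lt (m * f⁻¹) (g * Q⁻¹) ↔ o.lt (m * f⁻¹) (g * Q⁻¹) := o.cv hδ (1) e42 (by simp only [mul_assoc, mul_inv_rev, inv_inv, mul_inv_cancel_left, inv_mul_cancel_left, mul_inv_cancel, inv_mul_cancel, mul_one, one_mul, inv_one, C]) (by simp only [mul_assoc, mul_inv_rev, inv_inv, mul_inv_cancel_left, inv_mul_cancel_left, mul_inv_cancel, inv_mul_cancel, mul_one, one_mul, inv_one, C])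
  have k63 : o.lt (g * Q⁻¹) (m * f⁻¹) ↔ o.lt (g * Q⁻¹) (m * f⁻¹) := o.cv hδ (1) e44 (by simp only [mul_assoc, mul_inv_rev, inv_inv, mul_inv_cancel_left, inv_mul_cancel_left, mul_inv_cancel, inv_mul_cancel, mul_one, one_mul, inv_one, C]) (by simp only [mul_assoc, mul_inv_rev, inv_inv, mul_inv_cancel_left, inv_mul_cancel_left, mul_inv_cancel, inv_mul_cancel, mul_one, one_mul, inv_one, C])
  have k64 : o.lt (g) (f) ↔ o.lt (g * Q⁻¹) (f * Q⁻¹) := o.cv hδ (Q⁻¹) e25 (by simp only [mul_assoc, mul_inv_rev, inv_inv, mul_inv_cancel_left, inv_mul_cancel_left, mul_inv_cancel, inv_mul_cancel, mul_one, one_mul, inv_one, C]) (by simp only [mul_assoc, mul_inv_rev, inv_inv, mul_inv_cancel_left, inv_mul_cancel_left, mul_inv_cancel, inv_mul_cancel, mul_one, one_mul, inv_one, C])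
  have k65 : o.lt (Q * (f⁻¹ * (P * g⁻¹))) (f * Q⁻¹) ↔ o.lt (Q * (f⁻¹ * (P * g⁻¹))) (f * Q⁻¹) := o.cv hδ (1) e10 (by simp only [mul_assoc, mul_inv_rev, inv_inv, mul_inv_cancel_left, inv_mul_cancel_left, mul_inv_cancel, inv_mul_cancel, mul_one, one_mul, inv_one, C]) (by simp only [mul_assoc, mul_inv_rev, inv_inv, mul_inv_cancel_left, inv_mul_cancel_left, mul_inv_cancel, inv_mul_cancel, mul_one, one_mul, inv_one, C])
  have k66 : o.lt (Q * f⁻¹) (P * g⁻¹) ↔ o.lt (Q * (f⁻¹ * (P * g⁻¹))) (g * P⁻¹) := o.cv hδ (P * g⁻¹) e6 (by simp only [mul_assoc, mul_inv_rev, inv_inv, mul_inv_cancel_left, inv_mul_cancel_left, mul_inv_cancel, inv_mul_cancel, mul_one, one_mul, inv_one, C]) (by simp only [mul_assoc, mul_inv_rev, inv_inv, mul_inv_cancel_left, inv_mul_cancel_left, mul_inv_cancel, inv_mul_cancel, mul_one, one_mul, inv_one, C])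
  have k67 : o.lt (Q * (f⁻¹ * (P * g⁻¹))) (Q * m⁻¹) ↔ o.lt (Q * (f⁻¹ * (P * g⁻¹))) (Q * m⁻¹) := o.cv hδ (1) e8 (by simp only [mul_assoc, mul_inv_rev, inv_inv, mul_inv_cancel_left, inv_mul_cancel_left, mul_inv_cancel, inv_mul_cancel, mul_one, one_mul, inv_one, C]) (by simp only [mul_assoc, mul_inv_rev, inv_inv, mul_inv_cancel_left, inv_mul_cancel_left, mul_inv_cancel, inv_mul_cancel, mul_one, one_mul, inv_one, C])
  have k68 : o.lt (Q * (f⁻¹ * (P * g⁻¹))) (Q * (P⁻¹ * (f * P⁻¹))) ↔ o.lt (Q * (f⁻¹ * (P * g⁻¹))) (Q * (f⁻¹ * (P * f⁻¹))) := o.cv hδ (1) e7 (by simp only [mul_assoc, mul_inv_rev, inv_inv, mul_inv_cancel_left, inv_mul_cancel_left, mul_inv_cancel, inv_mul_cancel, mul_one, one_mul, inv_one, C]) (by simp only [mul_assoc, mul_inv_rev, inv_inv, mul_inv_cancel_left, inv_mul_cancel_left, mul_inv_cancel, inv_mul_cancel, mul_one, one_mul, inv_one, C])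
  have k69 : o.lt (Q * (P⁻¹ * (f * P⁻¹))) (Q * m⁻¹) ↔ o.lt (Q * (f⁻¹ * (P * f⁻¹))) (Q * m⁻¹) := o.cv hδ (P * (f⁻¹ * (P * (f⁻¹ * (P * f⁻¹))))) e3 (by simp only [mul_assoc, mul_inv_rev, inv_inv, mul_inv_cancel_left, inv_mul_cancel_left, mul_inv_cancel, inv_mul_cancel, mul_one, one_mul, inv_one, C]) (by simp only [mul_assoc, mul_inv_rev, inv_inv, mul_inv_cancel_left, inv_mul_cancel_left, mul_inv_cancel, inv_mul_cancel, mul_one, one_mul, inv_one, C])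
  have k70 : o.lt (f * Q⁻¹) (Q * m⁻¹) ↔ o.lt (f * Q⁻¹) (Q * m⁻¹) := o.cv hδ (1) e26 (by simp only [mul_assoc, mul_inv_rev, inv_inv, mul_inv_cancel_left, inv_mul_cancel_left, mul_inv_cancel, inv_mul_cancel, mul_one, one_mul, inv_one, C]) (by simp only [mul_assoc, mul_inv_rev, inv_inv, mul_inv_cancel_left, inv_mul_cancel_left, mul_inv_cancel, inv_mul_cancel, mul_one, one_mul, inv_one, C])
  have k71 : o.lt (Q * m⁻¹) (Q * (f⁻¹ * (P * g⁻¹))) ↔ o.lt (Q * m⁻¹) (Q * (f⁻¹ * (P * g⁻¹))) := o.cv hδ (1) e14 (by simp only [mul_assoc, mul_inv_rev, inv_inv, mul_inv_cancel_left, inv_mul_cancel_left, mul_inv_cancel, inv_mul_cancel, mul_one, one_mul, inv_one, C]) (by simp only [mul_assoc, mul_inv_rev, inv_inv, mul_inv_cancel_left, inv_mul_cancel_left, mul_inv_cancel, inv_mul_cancel, mul_one, one_mul, inv_one, C])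
  have k72 : o.lt (Q * m⁻¹) (f * Q⁻¹) ↔ o.lt (Q * m⁻¹) (f * Q⁻¹) := o.cv hδ (1) e13 (by simp only [mul_assoc, mul_inv_rev, inv_inv, mul_inv_cancel_left, inv_mul_cancel_left, mul_inv_cancel, inv_mul_cancel, mul_one, one_mul, inv_one, C]) (by simp only [mul_assoc, mul_inv_rev, inv_inv, mul_inv_cancel_left, inv_mul_cancel_left, mul_inv_cancel, inv_mul_cancel, mul_one, one_mul, inv_one, C])
  have k73 : o.lt (Q * P⁻¹) (Q * (m⁻¹ * (f * m⁻¹))) ↔ o.lt (Q * P⁻¹) (Q * (f⁻¹ * (m * f⁻¹))) := o.cv hδ (1) e1 (by simp only [mul_assoc, mul_inv_rev, inv_inv, mul_inv_cancel_left, inv_mul_cancel_left, mul_inv_cancel, inv_mul_cancel, mul_one, one_mul, inv_one, C]) (by simp only [mul_assoc, mul_inv_rev, inv_inv, mul_inv_cancel_left, inv_mul_cancel_left, mul_inv_cancel, inv_mul_cancel, mul_one, one_mul, inv_one, C])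
  have k74 : o.lt (Q * g⁻¹) (P * g⁻¹) ↔ o.lt (Q * P⁻¹) (1) := o.cv hδ (g * P⁻¹) e2 (by simp only [mul_assoc, mul_inv_rev, inv_inv, mul_inv_cancel_left, inv_mul_cancel_left, mul_inv_cancel, inv_mul_cancel, mul_one, one_mul, inv_one, C]) (by simp only [mul_assoc, mul_inv_rev, inv_inv, mul_inv_cancel_left, inv_mul_cancel_left, mul_inv_cancel, inv_mul_cancel, mul_one, one_mul, inv_one, C])
  have k75 : o.lt (f * m⁻¹) (Q * f⁻¹) ↔ o.lt (1) (Q * (f⁻¹ * (m * f⁻¹))) := o.cv hδ (m * f⁻¹) e20 (by simp only [mul_assoc, mul_inv_rev, inv_inv, mul_inv_cancel_left, inv_mul_cancel_left, mul_inv_cancel, inv_mul_cancel, mul_one, one_mul, inv_one, C]) (by simp only [mul_assoc, mul_inv_rev, inv_inv, mul_inv_cancel_left, inv_mul_cancel_left, mul_inv_cancel, inv_mul_cancel, mul_one, one_mul, inv_one, C])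
  have k76 : o.lt (Q * (f⁻¹ * (g * P⁻¹))) (Q * (f⁻¹ * (m * g⁻¹))) ↔ o.lt (Q * (f⁻¹ * (g * P⁻¹))) (Q * (f⁻¹ * (m * g⁻¹))) := o.cv hδ (1) e5 (by simp only [mul_assoc, mul_inv_rev, inv_inv, mul_inv_cancel_left, inv_mul_cancel_left, mul_inv_cancel, inv_mul_cancel, mul_one, one_mul, inv_one, C]) (by simp only [mul_assoc, mul_inv_rev, inv_inv, mul_inv_cancel_left, inv_mul_cancel_left, mul_inv_cancel, inv_mul_cancel, mul_one, one_mul, inv_one, C])
  have k77 : o.lt (Q * f⁻¹) (P * g⁻¹) ↔ o.lt (Q * (f⁻¹ * (g * P⁻¹))) (1) := o.cv hδ (g * P⁻¹) e6 (by simp only [mul_assoc, mul_inv_rev, inv_inv, mul_inv_cancel_left, inv_mul_cancel_left, mul_inv_cancel, inv_mul_cancel, mul_one, one_mul, inv_one, C]) (by simp only [mul_assoc, mul_inv_rev, inv_inv, mul_inv_cancel_left, inv_mul_cancel_left, mul_inv_cancel, inv_mul_cancel, mul_one, one_mul, inv_one, C])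
  have k78 : o.lt (g * m⁻¹) (Q * f⁻¹) ↔ o.lt (1) (Q * (f⁻¹ * (m * g⁻¹))) := o.cv hδ (m * g⁻¹) e21 (by simp only [mul_assoc, mul_inv_rev, inv_inv, mul_inv_cancel_left, inv_mul_cancel_left, mul_inv_cancel, inv_mul_cancel, mul_one, one_mul, inv_one, C]) (by simp only [mul_assoc, mul_inv_rev, inv_inv, mul_inv_cancel_left, inv_mul_cancel_left, mul_inv_cancel, inv_mul_cancel, mul_one, one_mul, inv_one, C])
  have k79 : o.lt (Q * f⁻¹) (g * m⁻¹) ↔ o.lt (Q * (f⁻¹ * (m * g⁻¹))) (1) := o.cv hδ (m * g⁻¹) e17 (by simp only [mul_assoc, mul_inv_rev, inv_inv, mul_inv_cancel_left, inv_mul_cancel_left, mul_inv_cancel, inv_mul_cancel, mul_one, one_mul, inv_one, C]) (by simp only [mul_assoc, mul_inv_rev, inv_inv, mul_inv_cancel_left, inv_mul_cancel_left, mul_inv_cancel, inv_mul_cancel, mul_one, one_mul, inv_one, C])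
  have k80 : o.lt (Q * (f⁻¹ * (m * g⁻¹))) (Q * P⁻¹) ↔ o.lt (Q * (f⁻¹ * (m * g⁻¹))) (Q * P⁻¹) := o.cv hδ (1) e15 (by simp only [mul_assoc, mul_inv_rev, inv_inv, mul_inv_cancel_left, inv_mul_cancel_left, mul_inv_cancel, inv_mul_cancel, mul_one, one_mul, inv_one, C]) (by simp only [mul_assoc, mul_inv_rev, inv_inv, mul_inv_cancel_left, inv_mul_cancel_left, mul_inv_cancel, inv_mul_cancel, mul_one, one_mul, inv_one, C])
  have k81 : o.lt (Q * (f⁻¹ * (g * m⁻¹))) (f * (Q⁻¹ * (f * g⁻¹))) ↔ o.lt (Q * (f⁻¹ * (m * g⁻¹))) (Q * (f⁻¹ * (Q * m⁻¹))) := o.cv hδ (m * (g⁻¹ * (m * g⁻¹))) e18 (by simp only [mul_assoc, mul_inv_rev, inv_inv, mul_inv_cancel_left, inv_mul_cancel_left, mul_inv_cancel, inv_mul_cancel, mul_one, one_mul, inv_one, C]) (by simp only [mul_assoc, mul_inv_rev, inv_inv, mul_inv_cancel_left, inv_mul_cancel_left, mul_inv_cancel, inv_mul_cancel, mul_one, one_mul, inv_one, C])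
  have k82 : o.lt (Q * (f⁻¹ * (m * g⁻¹))) (Q * (m⁻¹ * (f * m⁻¹))) ↔ o.lt (Q * (f⁻¹ * (m * g⁻¹))) (Q * (f⁻¹ * (m * f⁻¹))) := o.cv hδ (1) e16 (by simp only [mul_assoc, mul_inv_rev, inv_inv, mul_inv_cancel_left, inv_mul_cancel_left, mul_inv_cancel, inv_mul_cancel, mul_one, one_mul, inv_one, C]) (by simp only [mul_assoc, mul_inv_rev, inv_inv, mul_inv_cancel_left, inv_mul_cancel_left, mul_inv_cancel, inv_mul_cancel, mul_one, one_mul, inv_one, C])
  have k83 : o.lt (Q * m⁻¹) (f * Q⁻¹) ↔ o.lt (Q * (f⁻¹ * (m * f⁻¹))) (Q * (f⁻¹ * (Q * m⁻¹))) := o.cv hδ (m * (f⁻¹ * (m * f⁻¹))) e13 (by simp only [mul_assoc, mul_inv_rev, inv_inv, mul_inv_cancel_left, inv_mul_cancel_left, mul_inv_cancel, inv_mul_cancel, mul_one, one_mul, inv_one, C]) (by simp only [mul_assoc, mul_inv_rev, inv_inv, mul_inv_cancel_left, inv_mul_cancel_left, mul_inv_cancel, inv_mul_cancel, mul_one, one_mul, inv_one, C])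
  have k84 : o.lt (Q * (P⁻¹ * (f * P⁻¹))) (Q * m⁻¹) ↔ o.lt (Q * (f⁻¹ * (P * m⁻¹))) (Q * (f⁻¹ * (m * f⁻¹))) := o.cv hδ (P * (f⁻¹ * (P * (f⁻¹ * (P * m⁻¹))))) e3 (by simp only [mul_assoc, mul_inv_rev, inv_inv, mul_inv_cancel_left, inv_mul_cancel_left, mul_inv_cancel, inv_mul_cancel, mul_one, one_mul, inv_one, C]) (by simp only [mul_assoc, mul_inv_rev, inv_inv, mul_inv_cancel_left, inv_mul_cancel_left, mul_inv_cancel, inv_mul_cancel, mul_one, one_mul, inv_one, C])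
  have k85 : o.lt (Q * f⁻¹) (m * P⁻¹) ↔ o.lt (Q * (f⁻¹ * (P * m⁻¹))) (1) := o.cv hδ (P * m⁻¹) e27 (by simp only [mul_assoc, mul_inv_rev, inv_inv, mul_inv_cancel_left, inv_mul_cancel_left, mul_inv_cancel, inv_mul_cancel, mul_one, one_mul, inv_one, C]) (by simp only [mul_assoc, mul_inv_rev, inv_inv, mul_inv_cancel_left, inv_mul_cancel_left, mul_inv_cancel, inv_mul_cancel, mul_one, one_mul, inv_one, C])
  have k86 : o.lt (Q * (f⁻¹ * (P * g⁻¹))) (Q * (f⁻¹ * (g * m⁻¹))) ↔ o.lt (Q * (f⁻¹ * (P * m⁻¹))) (Q * (f⁻¹ * (m * g⁻¹))) := o.cv hδ (g * m⁻¹) e9 (by simp only [mul_assoc, mul_inv_rev, inv_inv, mul_inv_cancel_left, inv_mul_cancel_left, mul_inv_cancel, inv_mul_cancel, mul_one, one_mul, inv_one, C]) (by simp only [mul_assoc, mul_inv_rev, inv_inv, mul_inv_cancel_left, inv_mul_cancel_left, mul_inv_cancel, inv_mul_cancel, mul_one, one_mul, inv_one, C])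
  have k87 : o.lt (f * Q⁻¹) (Q * m⁻¹) ↔ o.lt (Q * (f⁻¹ * (Q * m⁻¹))) (Q * (f⁻¹ * (m * f⁻¹))) := o.cv hδ (Q * (f⁻¹ * (Q * (f⁻¹ * (Q * m⁻¹))))) e26 (by simp only [mul_assoc, mul_inv_rev, inv_inv, mul_inv_cancel_left, inv_mul_cancel_left, mul_inv_cancel, inv_mul_cancel, mul_one, one_mul, inv_one, C]) (by simp only [mul_assoc, mul_inv_rev, inv_inv, mul_inv_cancel_left, inv_mul_cancel_left, mul_inv_cancel, inv_mul_cancel, mul_one, one_mul, inv_one, C])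
  have k88 : o.lt (f * (Q⁻¹ * (f * g⁻¹))) (Q * (f⁻¹ * (g * m⁻¹))) ↔ o.lt (Q * (f⁻¹ * (Q * m⁻¹))) (Q * (f⁻¹ * (m * g⁻¹))) := o.cv hδ (g * (f⁻¹ * (Q * (f⁻¹ * (Q * (f⁻¹ * (Q * m⁻¹))))))) e19 (by simp only [mul_assoc, mul_inv_rev, inv_inv, mul_inv_cancel_left, inv_mul_cancel_left, mul_inv_cancel, inv_mul_cancel, mul_one, one_mul, inv_one, C]) (by simp only [mul_assoc, mul_inv_rev, inv_inv, mul_inv_cancel_left, inv_mul_cancel_left, mul_inv_cancel, inv_mul_cancel, mul_one, one_mul, inv_one, C])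
  have k89 : o.lt (g) (f) ↔ o.lt ((P * g⁻¹)⁻¹) ((P * f⁻¹)⁻¹) := o.cv hδ (P⁻¹) e25 (by simp only [mul_assoc, mul_inv_rev, inv_inv, mul_inv_cancel_left, inv_mul_cancel_left, mul_inv_cancel, inv_mul_cancel, mul_one, one_mul, inv_one, C]) (by simp only [mul_assoc, mul_inv_rev, inv_inv, mul_inv_cancel_left, inv_mul_cancel_left, mul_inv_cancel, inv_mul_cancel, mul_one, one_mul, inv_one, C])
  exact ser_BAE_1_prop
    (fun b0 b1 b2 b3 => N0.i.r0 1 (fun h => b0 (k0.2 h)) (fun h => b1 (k1.2 h)) (k2.1 b2) (fun h => b3 (k3.2 h)))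
    (fun b0 b1 b2 b3 => N0.i.r1 1 (fun h => b0 (k2.2 h)) (k4.1 b1) (fun h => b2 (k5.2 h)) (fun h => b3 (k3.2 h)))
    (fun b0 b1 b2 b3 => N0.rd.r1 1 (fun h => b0 (k6.2 h)) (k7.1 b1) (fun h => b2 (k8.2 h)) (fun h => b3 (k3.2 h)))
    (fun b0 b1 b2 => N1.r.r0 1 (fun h => b0 (k9.2 h)) (k10.1 b1) (fun h => b2 (k11.2 h)))
    (fun b0 b1 b2 => N1.r.r1 1 (fun h => b0 (k12.2 h)) (fun h => b1 (k13.2 h)) (k11.1 b2))
    (fun b0 b1 b2 => N1.d.r0 1 (fun h => b0 (k14.2 h)) (k15.1 b1) (fun h => b2 (k16.2 h)))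
    (fun b0 b1 b2 => N1.d.r1 1 (fun h => b0 (k17.2 h)) (fun h => b1 (k18.2 h)) (k16.1 b2))
    (fun b0 b1 b2 b3 => N0.d.r0 (Q * f⁻¹) (fun h => b0 (k19.2 h)) (fun h => b1 (k20.2 h)) (k21.1 b2) (fun h => b3 (k22.2 h)))
    (fun b0 b1 b2 b3 => N0.r.r1 (Q * f⁻¹) (fun h => b0 (k23.2 h)) (k24.1 b1) (fun h => b2 (k25.2 h)) (fun h => b3 (k22.2 h)))
    (fun b0 b1 b2 b3 => N0.r.r0 (Q * f⁻¹) (fun h => b0 (k26.2 h)) (fun h => b1 (k27.2 h)) (k23.1 b2) (fun h => b3 (k22.2 h)))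
    (fun b0 b1 b2 => N1.rd.r1 (Q * f⁻¹) (fun h => b0 (k28.2 h)) (fun h => b1 (k29.2 h)) (k30.1 b2))
    (fun b0 b1 b2 => N1.r.r0 (Q * f⁻¹) (fun h => b0 (k23.2 h)) (k29.1 b1) (fun h => b2 (k31.2 h)))
    (fun b0 b1 => o.asym (k32.1 b0) (k33.1 b1))
    (fun b0 b1 b2 => o.tri (k32.1 b0) (fun h => b1 (k34.2 h)) (fun h => b2 (k35.2 h)))
    (fun b0 b1 b2 => o.tri (k36.1 b0) (fun h => b1 (k32.2 h)) (fun h => b2 (k37.2 h)))
    (fun b0 b1 b2 => o.tri (k38.1 b0) (fun h => b1 (k37.2 h)) (fun h => b2 (k39.2 h)))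
    (fun b0 b1 => o.asym (k37.1 b0) (k40.1 b1))
    (fun b0 b1 b2 => o.tri (k41.1 b0) (fun h => b1 (k37.2 h)) (fun h => b2 (k42.2 h)))
    (fun b0 b1 b2 => o.tri (k43.1 b0) (fun h => b1 (k35.2 h)) (fun h => b2 (k38.2 h)))
    (fun b0 b1 b2 => o.tri (k44.1 b0) (fun h => b1 (k35.2 h)) (fun h => b2 (k41.2 h)))
    (fun b0 b1 => o.asym (k42.1 b0) (k45.1 b1))
    (fun b0 b1 b2 => o.tri (k46.1 b0) (fun h => b1 (k47.2 h)) (fun h => b2 (k48.2 h)))
    (fun b0 b1 b2 => o.tri (k49.1 b0) (fun h => b1 (k50.2 h)) (fun h => b2 (k35.2 h)))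
    (fun b0 b1 b2 => o.tri (k45.1 b0) (fun h => b1 (k47.2 h)) (fun h => b2 (k36.2 h)))
    (fun b0 b1 b2 => o.tri (k45.1 b0) (fun h => b1 (k49.2 h)) (fun h => b2 (k37.2 h)))
    (fun b0 b1 b2 => o.tri (k51.1 b0) (fun h => b1 (k46.2 h)) (fun h => b2 (k52.2 h)))
    (fun b0 b1 => o.asym (k53.1 b0) (k54.1 b1))
    (fun b0 b1 b2 => o.tri (k55.1 b0) (fun h => b1 (k56.2 h)) (fun h => b2 (k57.2 h)))
    (fun b0 b1 b2 => o.tri (k58.1 b0) (fun h => b1 (k53.2 h)) (fun h => b2 (k59.2 h)))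
    (fun b0 b1 => o.asym (k60.1 b0) (k61.1 b1))
    (fun b0 b1 => o.asym (k62.1 b0) (k63.1 b1))
    (fun b0 b1 b2 => o.tri (k59.1 b0) (fun h => b1 (k62.2 h)) (fun h => b2 (k64.2 h)))
    (fun b0 b1 b2 => o.tri (k65.1 b0) (fun h => b1 (k66.2 h)) (fun h => b2 (k58.2 h)))
    (fun b0 b1 b2 => o.tri (k67.1 b0) (fun h => b1 (k68.2 h)) (fun h => b2 (k69.2 h)))
    (fun b0 b1 b2 => o.tri (k67.1 b0) (fun h => b1 (k65.2 h)) (fun h => b2 (k70.2 h)))
    (fun b0 b1 => o.asym (k71.1 b0) (k67.1 b1))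
    (fun b0 b1 b2 => o.tri (k72.1 b0) (fun h => b1 (k71.2 h)) (fun h => b2 (k65.2 h)))
    (fun b0 b1 b2 => o.tri (k73.1 b0) (fun h => b1 (k74.2 h)) (fun h => b2 (k75.2 h)))
    (fun b0 b1 b2 => o.tri (k76.1 b0) (fun h => b1 (k77.2 h)) (fun h => b2 (k78.2 h)))
    (fun b0 b1 b2 => o.tri (k79.1 b0) (fun h => b1 (k80.2 h)) (fun h => b2 (k74.2 h)))
    (fun b0 b1 b2 => o.tri (k81.1 b0) (fun h => b1 (k82.2 h)) (fun h => b2 (k83.2 h)))
    (fun b0 b1 b2 => o.tri (k84.1 b0) (fun h => b1 (k85.2 h)) (fun h => b2 (k75.2 h)))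
    (fun b0 b1 b2 => o.tri (k86.1 b0) (fun h => b1 (k85.2 h)) (fun h => b2 (k78.2 h)))
    (fun b0 b1 b2 => o.tri (k87.1 b0) (fun h => b1 (k88.2 h)) (fun h => b2 (k82.2 h)))
    (fun h => g0 (k47.1 h))
    (k45.2 g1)
    (fun h => g2 (k89.1 h))

theorem ser_BAE_2_prop {A1 A2 A3 A4 A5 A6 A7 A8 A9 A10 A11 A12 A13 A14 A15 A16 A17 A18 A19 A20 A21 A22 A23 A24 A25 A26 A27 : Prop}
    (c0 : ¬ A27 → A23 → ¬ A22 → False)
    (c1 : ¬ A1 → ¬ A25 → A22 → False)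
    (c2 : ¬ A2 → ¬ A7 → A5 → ¬ A10 → False)
    (c3 : ¬ A10 → ¬ A24 → A15 → False)
    (c4 : ¬ A17 → A14 → ¬ A18 → False)
    (c5 : ¬ A10 → ¬ A11 → A18 → False)
    (c6 : A5 → A1 → False)
    (c7 : A9 → A6 → False)
    (c8 : A12 → ¬ A9 → ¬ A26 → False)
    (c9 : A19 → ¬ A12 → ¬ A22 → False)
    (c10 : A6 → ¬ A23 → ¬ A4 → False)
    (c11 : A26 → A27 → False)
    (c12 : A25 → ¬ A4 → ¬ A9 → False)
    (c13 : A5 → ¬ A21 → ¬ A13 → False)
    (c14 : A10 → A13 → False)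
    (c15 : A2 → A8 → False)
    (c16 : A2 → ¬ A1 → ¬ A6 → False)
    (c17 : A3 → ¬ A1 → ¬ A4 → False)
    (c18 : A6 → ¬ A4 → ¬ A14 → False)
    (c19 : A7 → ¬ A6 → ¬ A10 → False)
    (c20 : A7 → ¬ A4 → ¬ A15 → False)
    (c21 : A11 → ¬ A8 → ¬ A3 → False)
    (c22 : A16 → ¬ A18 → ¬ A19 → False)
    (c23 : A17 → ¬ A16 → ¬ A4 → False)
    (c24 : A18 → A20 → False)
    (c25 : A24 → ¬ A20 → ¬ A10 → False)
    (u0 : ¬ A21)
    (u1 : ¬ A4)
    (u2 : A5)
    : False := by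
  have q1 : ¬ A1 := fun h => c6 u2 h
  have q2 : A13 := Classical.byContradiction fun h => c13 u2 u0 h
  have q3 : ¬ A10 := fun h => c14 h q2
  have q4 : ¬ A3 := fun h => c17 h q1 u1
  rcases Classical.em A6 with q5 | q5
  · have q6 : ¬ A9 := fun h => c7 h q5
    have q7 : A23 := Classical.byContradiction fun h => c10 q5 h u1
    have q8 : ¬ A25 := fun h => c12 h u1 q6
    have q9 : ¬ A22 := fun h => c1 q1 q8 h
    have q10 : A27 := Classical.byContradiction fun h => c0 h q7 q9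
    have q11 : ¬ A26 := fun h => c11 h q10
    have q12 : ¬ A12 := fun h => c8 h q6 q11
    have q13 : ¬ A19 := fun h => c9 h q12 q9
    have q14 : A14 := Classical.byContradiction fun h => c18 q5 u1 h
    rcases Classical.em A18 with q15 | q15
    · have q16 : A11 := Classical.byContradiction fun h => c5 q3 h q15
      have q17 : A8 := Classical.byContradiction fun h => c21 q16 h q4
      have q18 : ¬ A2 := fun h => c15 h q17
      have q19 : A7 := Classical.byContradiction fun h => c2 q18 h u2 q3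
      have q20 : A15 := Classical.byContradiction fun h => c20 q19 u1 h
      have q21 : A24 := Classical.byContradiction fun h => c3 q3 h q20
      have q22 : ¬ A20 := fun h => c24 q15 h
      exact c25 q21 q22 q3
    · have q23 : A17 := Classical.byContradiction fun h => c4 h q14 q15
      have q24 : ¬ A16 := fun h => c22 h q15 q13
      exact c23 q23 q24 u1
  · have q25 : ¬ A2 := fun h => c16 h q1 q5
    have q26 : A7 := Classical.byContradiction fun h => c2 q25 h u2 q3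
    exact c19 q26 q5 q3

theorem ser_BAE_2 {G : Type*} [Group G] {δ : G → ZMod 3} (hδ : ∀ u v, δ (u * v) = δ u + δ v) (o : Pre δ)
    {P m Q f g : G} {e : ZMod 3} (h3 : 3 * e = 0)
    (D : δ P = e ∧ δ m = -e ∧ δ Q = e ∧ δ f = 0 ∧ δ g = 0)
    (C : Cube P f ∧ Cube P g ∧ Cube m f ∧ Cube m g ∧ Cube Q f ∧ Cube Q g)
    (N0 : RB o P m f g)
    (N1 : RA o Q m g f)
    (g0 : ¬ o.lt (P * f⁻¹) (P * g⁻¹)) (g1 : ¬ o.lt ((Q * g⁻¹)⁻¹) ((P * g⁻¹)⁻¹)) (g2 : o.lt ((P * f⁻¹)⁻¹) ((P * g⁻¹)⁻¹)) : False := by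
  simp only [Cube] at C
  have e0 : δ (g * Q⁻¹) = δ (f * Q⁻¹) := by simp only [hδ, δinv hδ, δone hδ, D] <;> linear_combination (0) * h3
  have e1 : δ (g * f⁻¹) = δ (g * (P⁻¹ * (f * m⁻¹))) := by simp only [hδ, δinv hδ, δone hδ, D] <;> linear_combination (0) * h3
  have e2 : δ (g * f⁻¹) = δ (g * (P⁻¹ * (Q * g⁻¹))) := by simp only [hδ, δinv hδ, δone hδ, D] <;> linear_combination (0) * h3
  have e3 : δ (g * Q⁻¹) = δ (g * P⁻¹) := by simp only [hδ, δinv hδ, δone hδ, D] <;> linear_combination (0) * h3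
  have e4 : δ (1) = δ (g * f⁻¹) := by simp only [hδ, δinv hδ, δone hδ, D] <;> linear_combination (0) * h3
  have e5 : δ (m * f⁻¹) = δ (g * P⁻¹) := by simp only [hδ, δinv hδ, δone hδ, D] <;> linear_combination (0) * h3
  have e6 : δ (1) = δ (g * (P⁻¹ * (g * m⁻¹))) := by simp only [hδ, δinv hδ, δone hδ, D] <;> linear_combination (0) * h3
  have e7 : δ (g * (P⁻¹ * (f * m⁻¹))) = δ (g * f⁻¹) := by simp only [hδ, δinv hδ, δone hδ, D] <;> linear_combination (0) * h3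
  have e8 : δ (g * P⁻¹) = δ (m * f⁻¹) := by simp only [hδ, δinv hδ, δone hδ, D] <;> linear_combination (0) * h3
  have e9 : δ (g * (P⁻¹ * f)) = δ (g * (P⁻¹ * g)) := by simp only [hδ, δinv hδ, δone hδ, D] <;> linear_combination (0) * h3
  have e10 : δ (g * (P⁻¹ * (f * m⁻¹))) = δ (g * (P⁻¹ * (Q * g⁻¹))) := by simp only [hδ, δinv hδ, δone hδ, D] <;> linear_combination (0) * h3
  have e11 : δ (g * P⁻¹) = δ (m * g⁻¹) := by simp only [hδ, δinv hδ, δone hδ, D] <;> linear_combination (0) * h3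
  have e12 : δ (g * (P⁻¹ * (g * f⁻¹))) = δ (g * P⁻¹) := by simp only [hδ, δinv hδ, δone hδ, D] <;> linear_combination (0) * h3
  have e13 : δ (g * (P⁻¹ * (Q * g⁻¹))) = δ (g * (P⁻¹ * (f * m⁻¹))) := by simp only [hδ, δinv hδ, δone hδ, D] <;> linear_combination (0) * h3
  have e14 : δ (g * (P⁻¹ * (Q * g⁻¹))) = δ (g * (P⁻¹ * (g * m⁻¹))) := by simp only [hδ, δinv hδ, δone hδ, D] <;> linear_combination (0) * h3
  have e15 : δ (g * (P⁻¹ * (Q * f⁻¹))) = δ (1) := by simp only [hδ, δinv hδ, δone hδ, D] <;> linear_combination (0) * h3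
  have e16 : δ (g * (P⁻¹ * (Q * f⁻¹))) = δ (g * (P⁻¹ * (Q * g⁻¹))) := by simp only [hδ, δinv hδ, δone hδ, D] <;> linear_combination (0) * h3
  have e17 : δ (g * (P⁻¹ * (f * Q⁻¹))) = δ (g * (P⁻¹ * (m * f⁻¹))) := by simp only [hδ, δinv hδ, δone hδ, D] <;> linear_combination (0) * h3
  have e18 : δ (g * P⁻¹) = δ (Q * m⁻¹) := by simp only [hδ, δinv hδ, δone hδ, D] <;> linear_combination (-1) * h3
  have e19 : δ (g * (P⁻¹ * (m * Q⁻¹))) = δ (g * (P⁻¹ * (Q * f⁻¹))) := by simp only [hδ, δinv hδ, δone hδ, D] <;> linear_combination (-1) * h3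
  have e20 : δ (f * P⁻¹) = δ (g * (P⁻¹ * (g * f⁻¹))) := by simp only [hδ, δinv hδ, δone hδ, D] <;> linear_combination (0) * h3
  have e21 : δ (g * m⁻¹) = δ (Q * g⁻¹) := by simp only [hδ, δinv hδ, δone hδ, D] <;> linear_combination (0) * h3
  have e22 : δ (m * f⁻¹) = δ (g * Q⁻¹) := by simp only [hδ, δinv hδ, δone hδ, D] <;> linear_combination (0) * h3
  have e23 : δ (g * (P⁻¹ * (m * f⁻¹))) = δ (g * (P⁻¹ * (g * Q⁻¹))) := by simp only [hδ, δinv hδ, δone hδ, D] <;> linear_combination (0) * h3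
  have e24 : δ (g * Q⁻¹) = δ (m * f⁻¹) := by simp only [hδ, δinv hδ, δone hδ, D] <;> linear_combination (0) * h3
  have e25 : δ (m * f⁻¹) = δ (m * g⁻¹) := by simp only [hδ, δinv hδ, δone hδ, D] <;> linear_combination (0) * h3
  have e26 : δ (m * g⁻¹) = δ (m * f⁻¹) := by simp only [hδ, δinv hδ, δone hδ, D] <;> linear_combination (0) * h3
  have k0 : o.lt (m * g⁻¹) (m * f⁻¹) ↔ o.lt (1 * (m * g⁻¹)) (1 * (m * f⁻¹)) := o.cv hδ (1) e26 (by simp only [mul_assoc, mul_inv_rev, inv_inv, mul_inv_cancel_left, inv_mul_cancel_left, mul_inv_cancel, inv_mul_cancel, mul_one, one_mul, inv_one, C]) (by simp only [mul_assoc, mul_inv_rev, inv_inv, mul_inv_cancel_left, inv_mul_cancel_left, mul_inv_cancel, inv_mul_cancel, mul_one, one_mul, inv_one, C])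
  have k1 : o.lt (m * f⁻¹) (g * Q⁻¹) ↔ o.lt (1 * (m * f⁻¹)) (1 * (g * Q⁻¹)) := o.cv hδ (1) e22 (by simp only [mul_assoc, mul_inv_rev, inv_inv, mul_inv_cancel_left, inv_mul_cancel_left, mul_inv_cancel, inv_mul_cancel, mul_one, one_mul, inv_one, C]) (by simp only [mul_assoc, mul_inv_rev, inv_inv, mul_inv_cancel_left, inv_mul_cancel_left, mul_inv_cancel, inv_mul_cancel, mul_one, one_mul, inv_one, C])
  have k2 : o.lt (g * m⁻¹) (Q * g⁻¹) ↔ o.lt (1 * (m * g⁻¹)⁻¹) (1 * (g * Q⁻¹)⁻¹) := o.cv hδ (1) e21 (by simp only [mul_assoc, mul_inv_rev, inv_inv, mul_inv_cancel_left, inv_mul_cancel_left, mul_inv_cancel, inv_mul_cancel, mul_one, one_mul, inv_one, C]) (by simp only [mul_assoc, mul_inv_rev, inv_inv, mul_inv_cancel_left, inv_mul_cancel_left, mul_inv_cancel, inv_mul_cancel, mul_one, one_mul, inv_one, C])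
  have k3 : o.lt (g * Q⁻¹) (f * Q⁻¹) ↔ o.lt (1 * (g * Q⁻¹)) (1 * (f * Q⁻¹)) := o.cv hδ (1) e0 (by simp only [mul_assoc, mul_inv_rev, inv_inv, mul_inv_cancel_left, inv_mul_cancel_left, mul_inv_cancel, inv_mul_cancel, mul_one, one_mul, inv_one, C]) (by simp only [mul_assoc, mul_inv_rev, inv_inv, mul_inv_cancel_left, inv_mul_cancel_left, mul_inv_cancel, inv_mul_cancel, mul_one, one_mul, inv_one, C])
  have k4 : o.lt (g * Q⁻¹) (m * f⁻¹) ↔ o.lt (1 * (g * Q⁻¹)) (1 * (m * f⁻¹)) := o.cv hδ (1) e24 (by simp only [mul_assoc, mul_inv_rev, inv_inv, mul_inv_cancel_left, inv_mul_cancel_left, mul_inv_cancel, inv_mul_cancel, mul_one, one_mul, inv_one, C]) (by simp only [mul_assoc, mul_inv_rev, inv_inv, mul_inv_cancel_left, inv_mul_cancel_left, mul_inv_cancel, inv_mul_cancel, mul_one, one_mul, inv_one, C])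
  have k5 : o.lt (g * f⁻¹) (g * (P⁻¹ * (f * m⁻¹))) ↔ o.lt ((g * P⁻¹) * (P * f⁻¹)) ((g * P⁻¹) * (f * m⁻¹)) := o.cv hδ (1) e1 (by simp only [mul_assoc, mul_inv_rev, inv_inv, mul_inv_cancel_left, inv_mul_cancel_left, mul_inv_cancel, inv_mul_cancel, mul_one, one_mul, inv_one, C]) (by simp only [mul_assoc, mul_inv_rev, inv_inv, mul_inv_cancel_left, inv_mul_cancel_left, mul_inv_cancel, inv_mul_cancel, mul_one, one_mul, inv_one, C])
  have k6 : o.lt (1) (g * (P⁻¹ * (g * m⁻¹))) ↔ o.lt ((g * P⁻¹) * (P * g⁻¹)) ((g * P⁻¹) * (g * m⁻¹)) := o.cv hδ (1) e6 (by simp only [mul_assoc, mul_inv_rev, inv_inv, mul_inv_cancel_left, inv_mul_cancel_left, mul_inv_cancel, inv_mul_cancel, mul_one, one_mul, inv_one, C]) (by simp only [mul_assoc, mul_inv_rev, inv_inv, mul_inv_cancel_left, inv_mul_cancel_left, mul_inv_cancel, inv_mul_cancel, mul_one, one_mul, inv_one, C])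
  have k7 : o.lt (1) (g * f⁻¹) ↔ o.lt ((g * P⁻¹) * (P * g⁻¹)) ((g * P⁻¹) * (P * f⁻¹)) := o.cv hδ (1) e4 (by simp only [mul_assoc, mul_inv_rev, inv_inv, mul_inv_cancel_left, inv_mul_cancel_left, mul_inv_cancel, inv_mul_cancel, mul_one, one_mul, inv_one, C]) (by simp only [mul_assoc, mul_inv_rev, inv_inv, mul_inv_cancel_left, inv_mul_cancel_left, mul_inv_cancel, inv_mul_cancel, mul_one, one_mul, inv_one, C])
  have k8 : o.lt (g * (P⁻¹ * f)) (g * (P⁻¹ * g)) ↔ o.lt ((g * P⁻¹) * f) ((g * P⁻¹) * g) := o.cv hδ (1) e9 (by simp only [mul_assoc, mul_inv_rev, inv_inv, mul_inv_cancel_left, inv_mul_cancel_left, mul_inv_cancel, inv_mul_cancel, mul_one, one_mul, inv_one, C]) (by simp only [mul_assoc, mul_inv_rev, inv_inv, mul_inv_cancel_left, inv_mul_cancel_left, mul_inv_cancel, inv_mul_cancel, mul_one, one_mul, inv_one, C])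
  have k9 : o.lt (g * (P⁻¹ * f)) (g * (P⁻¹ * g)) ↔ o.lt ((g * P⁻¹) * (f * Q⁻¹)) ((g * P⁻¹) * (g * Q⁻¹)) := o.cv hδ (Q⁻¹) e9 (by simp only [mul_assoc, mul_inv_rev, inv_inv, mul_inv_cancel_left, inv_mul_cancel_left, mul_inv_cancel, inv_mul_cancel, mul_one, one_mul, inv_one, C]) (by simp only [mul_assoc, mul_inv_rev, inv_inv, mul_inv_cancel_left, inv_mul_cancel_left, mul_inv_cancel, inv_mul_cancel, mul_one, one_mul, inv_one, C])
  have k10 : o.lt (g * (P⁻¹ * (m * f⁻¹))) (g * (P⁻¹ * (g * Q⁻¹))) ↔ o.lt ((g * P⁻¹) * (m * f⁻¹)) ((g * P⁻¹) * (g * Q⁻¹)) := o.cv hδ (1) e23 (by simp only [mul_assoc, mul_inv_rev, inv_inv, mul_inv_cancel_left, inv_mul_cancel_left, mul_inv_cancel, inv_mul_cancel, mul_one, one_mul, inv_one, C]) (by simp only [mul_assoc, mul_inv_rev, inv_inv, mul_inv_cancel_left, inv_mul_cancel_left, mul_inv_cancel, inv_mul_cancel, mul_one, one_mul, inv_one, C])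
  have k11 : o.lt (g * (P⁻¹ * (Q * g⁻¹))) (g * (P⁻¹ * (g * m⁻¹))) ↔ o.lt ((g * P⁻¹) * (g * Q⁻¹)⁻¹) ((g * P⁻¹) * (m * g⁻¹)⁻¹) := o.cv hδ (1) e14 (by simp only [mul_assoc, mul_inv_rev, inv_inv, mul_inv_cancel_left, inv_mul_cancel_left, mul_inv_cancel, inv_mul_cancel, mul_one, one_mul, inv_one, C]) (by simp only [mul_assoc, mul_inv_rev, inv_inv, mul_inv_cancel_left, inv_mul_cancel_left, mul_inv_cancel, inv_mul_cancel, mul_one, one_mul, inv_one, C])
  have k12 : o.lt (g * (P⁻¹ * (Q * f⁻¹))) (g * (P⁻¹ * (Q * g⁻¹))) ↔ o.lt ((g * P⁻¹) * (Q * f⁻¹)) ((g * P⁻¹) * (Q * g⁻¹)) := o.cv hδ (1) e16 (by simp only [mul_assoc, mul_inv_rev, inv_inv, mul_inv_cancel_left, inv_mul_cancel_left, mul_inv_cancel, inv_mul_cancel, mul_one, one_mul, inv_one, C]) (by simp only [mul_assoc, mul_inv_rev, inv_inv, mul_inv_cancel_left, inv_mul_cancel_left, mul_inv_cancel, inv_mul_cancel, mul_one, one_mul, inv_one, C])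
  have k13 : o.lt (g * (P⁻¹ * (Q * g⁻¹))) (g * (P⁻¹ * (f * m⁻¹))) ↔ o.lt ((g * P⁻¹) * (Q * g⁻¹)) ((g * P⁻¹) * (f * m⁻¹)) := o.cv hδ (1) e13 (by simp only [mul_assoc, mul_inv_rev, inv_inv, mul_inv_cancel_left, inv_mul_cancel_left, mul_inv_cancel, inv_mul_cancel, mul_one, one_mul, inv_one, C]) (by simp only [mul_assoc, mul_inv_rev, inv_inv, mul_inv_cancel_left, inv_mul_cancel_left, mul_inv_cancel, inv_mul_cancel, mul_one, one_mul, inv_one, C])
  have k14 : o.lt (g * (P⁻¹ * (f * Q⁻¹))) (g * (P⁻¹ * (m * f⁻¹))) ↔ o.lt ((g * P⁻¹) * (Q * f⁻¹)⁻¹) ((g * P⁻¹) * (f * m⁻¹)⁻¹) := o.cv hδ (1) e17 (by simp only [mul_assoc, mul_inv_rev, inv_inv, mul_inv_cancel_left, inv_mul_cancel_left, mul_inv_cancel, inv_mul_cancel, mul_one, one_mul, inv_one, C]) (by simp only [mul_assoc, mul_inv_rev, inv_inv, mul_inv_cancel_left, inv_mul_cancel_left, mul_inv_cancel, inv_mul_cancel, mul_one, one_mul, inv_one, C])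
  have k15 : o.lt (g * (P⁻¹ * f)) (g * (P⁻¹ * g)) ↔ o.lt ((g * P⁻¹) * (f * m⁻¹)) ((g * P⁻¹) * (g * m⁻¹)) := o.cv hδ (m⁻¹) e9 (by simp only [mul_assoc, mul_inv_rev, inv_inv, mul_inv_cancel_left, inv_mul_cancel_left, mul_inv_cancel, inv_mul_cancel, mul_one, one_mul, inv_one, C]) (by simp only [mul_assoc, mul_inv_rev, inv_inv, mul_inv_cancel_left, inv_mul_cancel_left, mul_inv_cancel, inv_mul_cancel, mul_one, one_mul, inv_one, C])
  have k16 : o.lt (g * (P⁻¹ * (f * m⁻¹))) (g * (P⁻¹ * (Q * g⁻¹))) ↔ o.lt ((g * P⁻¹) * (f * m⁻¹)) ((g * P⁻¹) * (Q * g⁻¹)) := o.cv hδ (1) e10 (by simp only [mul_assoc, mul_inv_rev, inv_inv, mul_inv_cancel_left, inv_mul_cancel_left, mul_inv_cancel, inv_mul_cancel, mul_one, one_mul, inv_one, C]) (by simp only [mul_assoc, mul_inv_rev, inv_inv, mul_inv_cancel_left, inv_mul_cancel_left, mul_inv_cancel, inv_mul_cancel, mul_one, one_mul, inv_one, C])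
  have k17 : o.lt (1) (g * f⁻¹) ↔ o.lt (f * m⁻¹) (g * m⁻¹) := o.cv hδ (f * m⁻¹) e4 (by simp only [mul_assoc, mul_inv_rev, inv_inv, mul_inv_cancel_left, inv_mul_cancel_left, mul_inv_cancel, inv_mul_cancel, mul_one, one_mul, inv_one, C]) (by simp only [mul_assoc, mul_inv_rev, inv_inv, mul_inv_cancel_left, inv_mul_cancel_left, mul_inv_cancel, inv_mul_cancel, mul_one, one_mul, inv_one, C])
  have k18 : o.lt (g * Q⁻¹) (f * Q⁻¹) ↔ o.lt (g * m⁻¹) (f * m⁻¹) := o.cv hδ (Q * m⁻¹) e0 (by simp only [mul_assoc, mul_inv_rev, inv_inv, mul_inv_cancel_left, inv_mul_cancel_left, mul_inv_cancel, inv_mul_cancel, mul_one, one_mul, inv_one, C]) (by simp only [mul_assoc, mul_inv_rev, inv_inv, mul_inv_cancel_left, inv_mul_cancel_left, mul_inv_cancel, inv_mul_cancel, mul_one, one_mul, inv_one, C])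
  have k19 : o.lt (g * P⁻¹) (m * f⁻¹) ↔ o.lt (g * P⁻¹) (m * f⁻¹) := o.cv hδ (1) e8 (by simp only [mul_assoc, mul_inv_rev, inv_inv, mul_inv_cancel_left, inv_mul_cancel_left, mul_inv_cancel, inv_mul_cancel, mul_one, one_mul, inv_one, C]) (by simp only [mul_assoc, mul_inv_rev, inv_inv, mul_inv_cancel_left, inv_mul_cancel_left, mul_inv_cancel, inv_mul_cancel, mul_one, one_mul, inv_one, C])
  have k20 : o.lt (m * f⁻¹) (g * P⁻¹) ↔ o.lt (m * f⁻¹) (g * P⁻¹) := o.cv hδ (1) e5 (by simp only [mul_assoc, mul_inv_rev, inv_inv, mul_inv_cancel_left, inv_mul_cancel_left, mul_inv_cancel, inv_mul_cancel, mul_one, one_mul, inv_one, C]) (by simp only [mul_assoc, mul_inv_rev, inv_inv, mul_inv_cancel_left, inv_mul_cancel_left, mul_inv_cancel, inv_mul_cancel, mul_one, one_mul, inv_one, C])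
  have k21 : o.lt (g * P⁻¹) (m * g⁻¹) ↔ o.lt (g * P⁻¹) (m * g⁻¹) := o.cv hδ (1) e11 (by simp only [mul_assoc, mul_inv_rev, inv_inv, mul_inv_cancel_left, inv_mul_cancel_left, mul_inv_cancel, inv_mul_cancel, mul_one, one_mul, inv_one, C]) (by simp only [mul_assoc, mul_inv_rev, inv_inv, mul_inv_cancel_left, inv_mul_cancel_left, mul_inv_cancel, inv_mul_cancel, mul_one, one_mul, inv_one, C])
  have k22 : o.lt (m * f⁻¹) (m * g⁻¹) ↔ o.lt (m * f⁻¹) (m * g⁻¹) := o.cv hδ (1) e25 (by simp only [mul_assoc, mul_inv_rev, inv_inv, mul_inv_cancel_left, inv_mul_cancel_left, mul_inv_cancel, inv_mul_cancel, mul_one, one_mul, inv_one, C]) (by simp only [mul_assoc, mul_inv_rev, inv_inv, mul_inv_cancel_left, inv_mul_cancel_left, mul_inv_cancel, inv_mul_cancel, mul_one, one_mul, inv_one, C])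
  have k23 : o.lt (g * P⁻¹) (Q * m⁻¹) ↔ o.lt (g * P⁻¹) (Q * m⁻¹) := o.cv hδ (1) e18 (by simp only [mul_assoc, mul_inv_rev, inv_inv, mul_inv_cancel_left, inv_mul_cancel_left, mul_inv_cancel, inv_mul_cancel, mul_one, one_mul, inv_one, C]) (by simp only [mul_assoc, mul_inv_rev, inv_inv, mul_inv_cancel_left, inv_mul_cancel_left, mul_inv_cancel, inv_mul_cancel, mul_one, one_mul, inv_one, C])
  have k24 : o.lt (g * m⁻¹) (Q * g⁻¹) ↔ o.lt (m * g⁻¹) (Q * m⁻¹) := o.cv hδ (m * (g⁻¹ * (m * g⁻¹))) e21 (by simp only [mul_assoc, mul_inv_rev, inv_inv, mul_inv_cancel_left, inv_mul_cancel_left, mul_inv_cancel, inv_mul_cancel, mul_one, one_mul, inv_one, C]) (by simp only [mul_assoc, mul_inv_rev, inv_inv, mul_inv_cancel_left, inv_mul_cancel_left, mul_inv_cancel, inv_mul_cancel, mul_one, one_mul, inv_one, C])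
  have k25 : o.lt (m * f⁻¹) (g * Q⁻¹) ↔ o.lt (m * f⁻¹) (g * Q⁻¹) := o.cv hδ (1) e22 (by simp only [mul_assoc, mul_inv_rev, inv_inv, mul_inv_cancel_left, inv_mul_cancel_left, mul_inv_cancel, inv_mul_cancel, mul_one, one_mul, inv_one, C]) (by simp only [mul_assoc, mul_inv_rev, inv_inv, mul_inv_cancel_left, inv_mul_cancel_left, mul_inv_cancel, inv_mul_cancel, mul_one, one_mul, inv_one, C])
  have k26 : o.lt (g * Q⁻¹) (g * P⁻¹) ↔ o.lt (g * Q⁻¹) (g * P⁻¹) := o.cv hδ (1) e3 (by simp only [mul_assoc, mul_inv_rev, inv_inv, mul_inv_cancel_left, inv_mul_cancel_left, mul_inv_cancel, inv_mul_cancel, mul_one, one_mul, inv_one, C]) (by simp only [mul_assoc, mul_inv_rev, inv_inv, mul_inv_cancel_left, inv_mul_cancel_left, mul_inv_cancel, inv_mul_cancel, mul_one, one_mul, inv_one, C])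
  have k27 : o.lt (m * g⁻¹) (m * f⁻¹) ↔ o.lt (m * g⁻¹) (m * f⁻¹) := o.cv hδ (1) e26 (by simp only [mul_assoc, mul_inv_rev, inv_inv, mul_inv_cancel_left, inv_mul_cancel_left, mul_inv_cancel, inv_mul_cancel, mul_one, one_mul, inv_one, C]) (by simp only [mul_assoc, mul_inv_rev, inv_inv, mul_inv_cancel_left, inv_mul_cancel_left, mul_inv_cancel, inv_mul_cancel, mul_one, one_mul, inv_one, C])
  have k28 : o.lt (g * Q⁻¹) (m * f⁻¹) ↔ o.lt (g * Q⁻¹) (m * f⁻¹) := o.cv hδ (1) e24 (by simp only [mul_assoc, mul_inv_rev, inv_inv, mul_inv_cancel_left, inv_mul_cancel_left, mul_inv_cancel, inv_mul_cancel, mul_one, one_mul, inv_one, C]) (by simp only [mul_assoc, mul_inv_rev, inv_inv, mul_inv_cancel_left, inv_mul_cancel_left, mul_inv_cancel, inv_mul_cancel, mul_one, one_mul, inv_one, C])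
  have k29 : o.lt (1) (g * f⁻¹) ↔ o.lt (f * P⁻¹) (g * P⁻¹) := o.cv hδ (f * P⁻¹) e4 (by simp only [mul_assoc, mul_inv_rev, inv_inv, mul_inv_cancel_left, inv_mul_cancel_left, mul_inv_cancel, inv_mul_cancel, mul_one, one_mul, inv_one, C]) (by simp only [mul_assoc, mul_inv_rev, inv_inv, mul_inv_cancel_left, inv_mul_cancel_left, mul_inv_cancel, inv_mul_cancel, mul_one, one_mul, inv_one, C])
  have k30 : o.lt (f * P⁻¹) (g * (P⁻¹ * (g * f⁻¹))) ↔ o.lt (f * P⁻¹) (P * (g⁻¹ * (P * f⁻¹))) := o.cv hδ (1) e20 (by simp only [mul_assoc, mul_inv_rev, inv_inv, mul_inv_cancel_left, inv_mul_cancel_left, mul_inv_cancel, inv_mul_cancel, mul_one, one_mul, inv_one, C]) (by simp only [mul_assoc, mul_inv_rev, inv_inv, mul_inv_cancel_left, inv_mul_cancel_left, mul_inv_cancel, inv_mul_cancel, mul_one, one_mul, inv_one, C])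
  have k31 : o.lt (g * (P⁻¹ * (g * f⁻¹))) (g * P⁻¹) ↔ o.lt (P * (g⁻¹ * (P * f⁻¹))) (g * P⁻¹) := o.cv hδ (f * (g⁻¹ * (P * (g⁻¹ * (P * (g⁻¹ * (P * f⁻¹))))))) e12 (by simp only [mul_assoc, mul_inv_rev, inv_inv, mul_inv_cancel_left, inv_mul_cancel_left, mul_inv_cancel, inv_mul_cancel, mul_one, one_mul, inv_one, C]) (by simp only [mul_assoc, mul_inv_rev, inv_inv, mul_inv_cancel_left, inv_mul_cancel_left, mul_inv_cancel, inv_mul_cancel, mul_one, one_mul, inv_one, C])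
  have k32 : o.lt (g * (P⁻¹ * f)) (g * (P⁻¹ * g)) ↔ o.lt (g * P⁻¹) (P * (g⁻¹ * (P * f⁻¹))) := o.cv hδ (f⁻¹) e9 (by simp only [mul_assoc, mul_inv_rev, inv_inv, mul_inv_cancel_left, inv_mul_cancel_left, mul_inv_cancel, inv_mul_cancel, mul_one, one_mul, inv_one, C]) (by simp only [mul_assoc, mul_inv_rev, inv_inv, mul_inv_cancel_left, inv_mul_cancel_left, mul_inv_cancel, inv_mul_cancel, mul_one, one_mul, inv_one, C])
  have k33 : o.lt (g * f⁻¹) (g * (P⁻¹ * (f * m⁻¹))) ↔ o.lt (g * f⁻¹) (g * (P⁻¹ * (f * m⁻¹))) := o.cv hδ (1) e1 (by simp only [mul_assoc, mul_inv_rev, inv_inv, mul_inv_cancel_left, inv_mul_cancel_left, mul_inv_cancel, inv_mul_cancel, mul_one, one_mul, inv_one, C]) (by simp only [mul_assoc, mul_inv_rev, inv_inv, mul_inv_cancel_left, inv_mul_cancel_left, mul_inv_cancel, inv_mul_cancel, mul_one, one_mul, inv_one, C])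
  have k34 : o.lt (g * (P⁻¹ * (f * m⁻¹))) (g * f⁻¹) ↔ o.lt (g * (P⁻¹ * (f * m⁻¹))) (g * f⁻¹) := o.cv hδ (1) e7 (by simp only [mul_assoc, mul_inv_rev, inv_inv, mul_inv_cancel_left, inv_mul_cancel_left, mul_inv_cancel, inv_mul_cancel, mul_one, one_mul, inv_one, C]) (by simp only [mul_assoc, mul_inv_rev, inv_inv, mul_inv_cancel_left, inv_mul_cancel_left, mul_inv_cancel, inv_mul_cancel, mul_one, one_mul, inv_one, C])
  have k35 : o.lt (g * Q⁻¹) (f * Q⁻¹) ↔ o.lt (g * f⁻¹) (1) := o.cv hδ (Q * f⁻¹) e0 (by simp only [mul_assoc, mul_inv_rev, inv_inv, mul_inv_cancel_left, inv_mul_cancel_left, mul_inv_cancel, inv_mul_cancel, mul_one, one_mul, inv_one, C]) (by simp only [mul_assoc, mul_inv_rev, inv_inv, mul_inv_cancel_left, inv_mul_cancel_left, mul_inv_cancel, inv_mul_cancel, mul_one, one_mul, inv_one, C])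
  have k36 : o.lt (m * f⁻¹) (g * P⁻¹) ↔ o.lt (1) (g * (P⁻¹ * (f * m⁻¹))) := o.cv hδ (f * m⁻¹) e5 (by simp only [mul_assoc, mul_inv_rev, inv_inv, mul_inv_cancel_left, inv_mul_cancel_left, mul_inv_cancel, inv_mul_cancel, mul_one, one_mul, inv_one, C]) (by simp only [mul_assoc, mul_inv_rev, inv_inv, mul_inv_cancel_left, inv_mul_cancel_left, mul_inv_cancel, inv_mul_cancel, mul_one, one_mul, inv_one, C])
  have k37 : o.lt (g * f⁻¹) (g * (P⁻¹ * (Q * g⁻¹))) ↔ o.lt (g * f⁻¹) (g * (P⁻¹ * (Q * g⁻¹))) := o.cv hδ (1) e2 (by simp only [mul_assoc, mul_inv_rev, inv_inv, mul_inv_cancel_left, inv_mul_cancel_left, mul_inv_cancel, inv_mul_cancel, mul_one, one_mul, inv_one, C]) (by simp only [mul_assoc, mul_inv_rev, inv_inv, mul_inv_cancel_left, inv_mul_cancel_left, mul_inv_cancel, inv_mul_cancel, mul_one, one_mul, inv_one, C])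
  have k38 : o.lt (g * Q⁻¹) (g * P⁻¹) ↔ o.lt (1) (g * (P⁻¹ * (Q * g⁻¹))) := o.cv hδ (Q * g⁻¹) e3 (by simp only [mul_assoc, mul_inv_rev, inv_inv, mul_inv_cancel_left, inv_mul_cancel_left, mul_inv_cancel, inv_mul_cancel, mul_one, one_mul, inv_one, C]) (by simp only [mul_assoc, mul_inv_rev, inv_inv, mul_inv_cancel_left, inv_mul_cancel_left, mul_inv_cancel, inv_mul_cancel, mul_one, one_mul, inv_one, C])
  have k39 : o.lt (g * (P⁻¹ * (Q * g⁻¹))) (g * (P⁻¹ * (f * m⁻¹))) ↔ o.lt (g * (P⁻¹ * (Q * g⁻¹))) (g * (P⁻¹ * (f * m⁻¹))) := o.cv hδ (1) e13 (by simp only [mul_assoc, mul_inv_rev, inv_inv, mul_inv_cancel_left, inv_mul_cancel_left, mul_inv_cancel, inv_mul_cancel, mul_one, one_mul, inv_one, C]) (by simp only [mul_assoc, mul_inv_rev, inv_inv, mul_inv_cancel_left, inv_mul_cancel_left, mul_inv_cancel, inv_mul_cancel, mul_one, one_mul, inv_one, C])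
  have k40 : o.lt (1) (g * (P⁻¹ * (g * m⁻¹))) ↔ o.lt (1) (g * (P⁻¹ * (g * m⁻¹))) := o.cv hδ (1) e6 (by simp only [mul_assoc, mul_inv_rev, inv_inv, mul_inv_cancel_left, inv_mul_cancel_left, mul_inv_cancel, inv_mul_cancel, mul_one, one_mul, inv_one, C]) (by simp only [mul_assoc, mul_inv_rev, inv_inv, mul_inv_cancel_left, inv_mul_cancel_left, mul_inv_cancel, inv_mul_cancel, mul_one, one_mul, inv_one, C])
  have k41 : o.lt (g * (P⁻¹ * f)) (g * (P⁻¹ * g)) ↔ o.lt (g * (P⁻¹ * (f * m⁻¹))) (g * (P⁻¹ * (g * m⁻¹))) := o.cv hδ (m⁻¹) e9 (by simp only [mul_assoc, mul_inv_rev, inv_inv, mul_inv_cancel_left, inv_mul_cancel_left, mul_inv_cancel, inv_mul_cancel, mul_one, one_mul, inv_one, C]) (by simp only [mul_assoc, mul_inv_rev, inv_inv, mul_inv_cancel_left, inv_mul_cancel_left, mul_inv_cancel, inv_mul_cancel, mul_one, one_mul, inv_one, C])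
  have k42 : o.lt (g * (P⁻¹ * (Q * g⁻¹))) (g * (P⁻¹ * (g * m⁻¹))) ↔ o.lt (g * (P⁻¹ * (Q * g⁻¹))) (g * (P⁻¹ * (g * m⁻¹))) := o.cv hδ (1) e14 (by simp only [mul_assoc, mul_inv_rev, inv_inv, mul_inv_cancel_left, inv_mul_cancel_left, mul_inv_cancel, inv_mul_cancel, mul_one, one_mul, inv_one, C]) (by simp only [mul_assoc, mul_inv_rev, inv_inv, mul_inv_cancel_left, inv_mul_cancel_left, mul_inv_cancel, inv_mul_cancel, mul_one, one_mul, inv_one, C])
  have k43 : o.lt (g * (P⁻¹ * (f * m⁻¹))) (g * (P⁻¹ * (Q * g⁻¹))) ↔ o.lt (g * (P⁻¹ * (f * m⁻¹))) (g * (P⁻¹ * (Q * g⁻¹))) := o.cv hδ (1) e10 (by simp only [mul_assoc, mul_inv_rev, inv_inv, mul_inv_cancel_left, inv_mul_cancel_left, mul_inv_cancel, inv_mul_cancel, mul_one, one_mul, inv_one, C]) (by simp only [mul_assoc, mul_inv_rev, inv_inv, mul_inv_cancel_left, inv_mul_cancel_left, mul_inv_cancel, inv_mul_cancel, mul_one, one_mul, inv_one, C])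
  have k44 : o.lt (g * (P⁻¹ * (Q * f⁻¹))) (1) ↔ o.lt (g * (P⁻¹ * (Q * f⁻¹))) (1) := o.cv hδ (1) e15 (by simp only [mul_assoc, mul_inv_rev, inv_inv, mul_inv_cancel_left, inv_mul_cancel_left, mul_inv_cancel, inv_mul_cancel, mul_one, one_mul, inv_one, C]) (by simp only [mul_assoc, mul_inv_rev, inv_inv, mul_inv_cancel_left, inv_mul_cancel_left, mul_inv_cancel, inv_mul_cancel, mul_one, one_mul, inv_one, C])
  have k45 : o.lt (g * (P⁻¹ * (f * Q⁻¹))) (g * (P⁻¹ * (m * f⁻¹))) ↔ o.lt (g * (P⁻¹ * (Q * f⁻¹))) (g * (P⁻¹ * (m * Q⁻¹))) := o.cv hδ (Q * (f⁻¹ * (Q * f⁻¹))) e17 (by simp only [mul_assoc, mul_inv_rev, inv_inv, mul_inv_cancel_left, inv_mul_cancel_left, mul_inv_cancel, inv_mul_cancel, mul_one, one_mul, inv_one, C]) (by simp only [mul_assoc, mul_inv_rev, inv_inv, mul_inv_cancel_left, inv_mul_cancel_left, mul_inv_cancel, inv_mul_cancel, mul_one, one_mul, inv_one, C])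
  have k46 : o.lt (g * P⁻¹) (Q * m⁻¹) ↔ o.lt (g * (P⁻¹ * (m * Q⁻¹))) (1) := o.cv hδ (m * Q⁻¹) e18 (by simp only [mul_assoc, mul_inv_rev, inv_inv, mul_inv_cancel_left, inv_mul_cancel_left, mul_inv_cancel, inv_mul_cancel, mul_one, one_mul, inv_one, C]) (by simp only [mul_assoc, mul_inv_rev, inv_inv, mul_inv_cancel_left, inv_mul_cancel_left, mul_inv_cancel, inv_mul_cancel, mul_one, one_mul, inv_one, C])
  have k47 : o.lt (g * (P⁻¹ * (Q * f⁻¹))) (g * (P⁻¹ * (Q * g⁻¹))) ↔ o.lt (g * (P⁻¹ * (Q * f⁻¹))) (g * (P⁻¹ * (Q * g⁻¹))) := o.cv hδ (1) e16 (by simp only [mul_assoc, mul_inv_rev, inv_inv, mul_inv_cancel_left, inv_mul_cancel_left, mul_inv_cancel, inv_mul_cancel, mul_one, one_mul, inv_one, C]) (by simp only [mul_assoc, mul_inv_rev, inv_inv, mul_inv_cancel_left, inv_mul_cancel_left, mul_inv_cancel, inv_mul_cancel, mul_one, one_mul, inv_one, C])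
  have k48 : o.lt (g * (P⁻¹ * (m * Q⁻¹))) (g * (P⁻¹ * (Q * f⁻¹))) ↔ o.lt (g * (P⁻¹ * (m * Q⁻¹))) (g * (P⁻¹ * (Q * f⁻¹))) := o.cv hδ (1) e19 (by simp only [mul_assoc, mul_inv_rev, inv_inv, mul_inv_cancel_left, inv_mul_cancel_left, mul_inv_cancel, inv_mul_cancel, mul_one, one_mul, inv_one, C]) (by simp only [mul_assoc, mul_inv_rev, inv_inv, mul_inv_cancel_left, inv_mul_cancel_left, mul_inv_cancel, inv_mul_cancel, mul_one, one_mul, inv_one, C])
  have k49 : o.lt (g * (P⁻¹ * (m * f⁻¹))) (g * (P⁻¹ * (g * Q⁻¹))) ↔ o.lt (g * (P⁻¹ * (m * f⁻¹))) (g * (P⁻¹ * (g * Q⁻¹))) := o.cv hδ (1) e23 (by simp only [mul_assoc, mul_inv_rev, inv_inv, mul_inv_cancel_left, inv_mul_cancel_left, mul_inv_cancel, inv_mul_cancel, mul_one, one_mul, inv_one, C]) (by simp only [mul_assoc, mul_inv_rev, inv_inv, mul_inv_cancel_left, inv_mul_cancel_left, mul_inv_cancel, inv_mul_cancel, mul_one, one_mul, inv_one, C])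
  have k50 : o.lt (g * (P⁻¹ * (m * Q⁻¹))) (g * (P⁻¹ * (Q * f⁻¹))) ↔ o.lt (g * (P⁻¹ * (m * f⁻¹))) (g * (P⁻¹ * (f * Q⁻¹))) := o.cv hδ (Q * f⁻¹) e19 (by simp only [mul_assoc, mul_inv_rev, inv_inv, mul_inv_cancel_left, inv_mul_cancel_left, mul_inv_cancel, inv_mul_cancel, mul_one, one_mul, inv_one, C]) (by simp only [mul_assoc, mul_inv_rev, inv_inv, mul_inv_cancel_left, inv_mul_cancel_left, mul_inv_cancel, inv_mul_cancel, mul_one, one_mul, inv_one, C])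
  have k51 : o.lt (g * (P⁻¹ * f)) (g * (P⁻¹ * g)) ↔ o.lt (g * (P⁻¹ * (f * Q⁻¹))) (g * (P⁻¹ * (g * Q⁻¹))) := o.cv hδ (Q⁻¹) e9 (by simp only [mul_assoc, mul_inv_rev, inv_inv, mul_inv_cancel_left, inv_mul_cancel_left, mul_inv_cancel, inv_mul_cancel, mul_one, one_mul, inv_one, C]) (by simp only [mul_assoc, mul_inv_rev, inv_inv, mul_inv_cancel_left, inv_mul_cancel_left, mul_inv_cancel, inv_mul_cancel, mul_one, one_mul, inv_one, C])
  have k52 : o.lt (f * P⁻¹) (g * (P⁻¹ * (g * f⁻¹))) ↔ o.lt (P * f⁻¹) (P * g⁻¹) := o.cv hδ (P * (f⁻¹ * (P * f⁻¹))) e20 (by simp only [mul_assoc, mul_inv_rev, inv_inv, mul_inv_cancel_left, inv_mul_cancel_left, mul_inv_cancel, inv_mul_cancel, mul_one, one_mul, inv_one, C]) (by simp only [mul_assoc, mul_inv_rev, inv_inv, mul_inv_cancel_left, inv_mul_cancel_left, mul_inv_cancel, inv_mul_cancel, mul_one, one_mul, inv_one, C])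
  have k53 : o.lt (g * Q⁻¹) (g * P⁻¹) ↔ o.lt ((Q * g⁻¹)⁻¹) ((P * g⁻¹)⁻¹) := o.cv hδ (1) e3 (by simp only [mul_assoc, mul_inv_rev, inv_inv, mul_inv_cancel_left, inv_mul_cancel_left, mul_inv_cancel, inv_mul_cancel, mul_one, one_mul, inv_one, C]) (by simp only [mul_assoc, mul_inv_rev, inv_inv, mul_inv_cancel_left, inv_mul_cancel_left, mul_inv_cancel, inv_mul_cancel, mul_one, one_mul, inv_one, C])
  have k54 : o.lt (1) (g * f⁻¹) ↔ o.lt ((P * f⁻¹)⁻¹) ((P * g⁻¹)⁻¹) := o.cv hδ (f * P⁻¹) e4 (by simp only [mul_assoc, mul_inv_rev, inv_inv, mul_inv_cancel_left, inv_mul_cancel_left, mul_inv_cancel, inv_mul_cancel, mul_one, one_mul, inv_one, C]) (by simp only [mul_assoc, mul_inv_rev, inv_inv, mul_inv_cancel_left, inv_mul_cancel_left, mul_inv_cancel, inv_mul_cancel, mul_one, one_mul, inv_one, C])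
  exact ser_BAE_2_prop
    (fun b0 b1 b2 => N1.r.r0 1 (fun h => b0 (k0.2 h)) (k1.1 b1) (fun h => b2 (k2.2 h)))
    (fun b0 b1 b2 => N1.r.r1 1 (fun h => b0 (k3.2 h)) (fun h => b1 (k4.2 h)) (k2.1 b2))
    (fun b0 b1 b2 b3 => N0.d.r0 (g * P⁻¹) (fun h => b0 (k5.2 h)) (fun h => b1 (k6.2 h)) (k7.1 b2) (fun h => b3 (k8.2 h)))
    (fun b0 b1 b2 => N1.rd.r1 (g * P⁻¹) (fun h => b0 (k9.2 h)) (fun h => b1 (k10.2 h)) (k11.1 b2))
    (fun b0 b1 b2 => N1.i.r0 (g * P⁻¹) (fun h => b0 (k12.2 h)) (k13.1 b1) (fun h => b2 (k14.2 h)))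
    (fun b0 b1 b2 => N1.i.r1 (g * P⁻¹) (fun h => b0 (k15.2 h)) (fun h => b1 (k16.2 h)) (k14.1 b2))
    (fun b0 b1 => o.asym (k17.1 b0) (k18.1 b1))
    (fun b0 b1 => o.asym (k19.1 b0) (k20.1 b1))
    (fun b0 b1 b2 => o.tri (k21.1 b0) (fun h => b1 (k19.2 h)) (fun h => b2 (k22.2 h)))
    (fun b0 b1 b2 => o.tri (k23.1 b0) (fun h => b1 (k21.2 h)) (fun h => b2 (k24.2 h)))
    (fun b0 b1 b2 => o.tri (k20.1 b0) (fun h => b1 (k25.2 h)) (fun h => b2 (k26.2 h)))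
    (fun b0 b1 => o.asym (k22.1 b0) (k27.1 b1))
    (fun b0 b1 b2 => o.tri (k28.1 b0) (fun h => b1 (k26.2 h)) (fun h => b2 (k19.2 h)))
    (fun b0 b1 b2 => o.tri (k29.1 b0) (fun h => b1 (k30.2 h)) (fun h => b2 (k31.2 h)))
    (fun b0 b1 => o.asym (k32.1 b0) (k31.1 b1))
    (fun b0 b1 => o.asym (k33.1 b0) (k34.1 b1))
    (fun b0 b1 b2 => o.tri (k33.1 b0) (fun h => b1 (k35.2 h)) (fun h => b2 (k36.2 h)))
    (fun b0 b1 b2 => o.tri (k37.1 b0) (fun h => b1 (k35.2 h)) (fun h => b2 (k38.2 h)))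
    (fun b0 b1 b2 => o.tri (k36.1 b0) (fun h => b1 (k38.2 h)) (fun h => b2 (k39.2 h)))
    (fun b0 b1 b2 => o.tri (k40.1 b0) (fun h => b1 (k36.2 h)) (fun h => b2 (k41.2 h)))
    (fun b0 b1 b2 => o.tri (k40.1 b0) (fun h => b1 (k38.2 h)) (fun h => b2 (k42.2 h)))
    (fun b0 b1 b2 => o.tri (k43.1 b0) (fun h => b1 (k34.2 h)) (fun h => b2 (k37.2 h)))
    (fun b0 b1 b2 => o.tri (k44.1 b0) (fun h => b1 (k45.2 h)) (fun h => b2 (k46.2 h)))
    (fun b0 b1 b2 => o.tri (k47.1 b0) (fun h => b1 (k44.2 h)) (fun h => b2 (k38.2 h)))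
    (fun b0 b1 => o.asym (k45.1 b0) (k48.1 b1))
    (fun b0 b1 b2 => o.tri (k49.1 b0) (fun h => b1 (k50.2 h)) (fun h => b2 (k51.2 h)))
    (fun h => g0 (k52.1 h))
    (fun h => g1 (k53.1 h))
    (k54.2 g2)

theorem ser_CAE_0_prop {A1 A2 A3 A4 A5 A6 A7 A8 A9 A10 A11 A12 A13 A14 A15 A16 A17 A18 A19 A20 A21 A22 A23 A24 A25 A26 A27 A28 A29 : Prop}
    (c0 : A2 → ¬ A4 → ¬ A23 → ¬ A1 → False)
    (c1 : A4 → ¬ A13 → ¬ A6 → False)
    (c2 : A11 → ¬ A4 → ¬ A13 → ¬ A1 → False)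
    (c3 : ¬ A9 → A5 → ¬ A23 → ¬ A1 → False)
    (c4 : ¬ A6 → A8 → ¬ A22 → ¬ A4 → False)
    (c5 : ¬ A9 → A24 → ¬ A7 → False)
    (c6 : ¬ A1 → ¬ A27 → A7 → False)
    (c7 : ¬ A6 → A27 → ¬ A3 → False)
    (c8 : ¬ A18 → A14 → ¬ A21 → False)
    (c9 : ¬ A1 → ¬ A17 → A21 → False)
    (c10 : A10 → A16 → False)
    (c11 : A10 → ¬ A2 → ¬ A7 → False)
    (c12 : A12 → A19 → False)
    (c13 : A13 → ¬ A14 → ¬ A16 → False)
    (c14 : A13 → ¬ A15 → ¬ A19 → False)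
    (c15 : A14 → A17 → False)
    (c16 : A7 → A3 → False)
    (c17 : A18 → ¬ A16 → ¬ A12 → False)
    (c18 : A22 → A23 → False)
    (c19 : A20 → ¬ A24 → ¬ A25 → False)
    (c20 : A23 → ¬ A24 → ¬ A26 → False)
    (c21 : A6 → A9 → False)
    (c22 : A6 → ¬ A20 → ¬ A5 → False)
    (c23 : A24 → A27 → False)
    (c24 : A15 → ¬ A6 → ¬ A7 → False)
    (c25 : A9 → ¬ A8 → ¬ A11 → False)
    (c26 : A25 → ¬ A1 → ¬ A28 → False)
    (c27 : A26 → ¬ A1 → ¬ A29 → False)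
    (c28 : A28 → ¬ A29 → ¬ A1 → False)
    (u0 : A10)
    (u1 : ¬ A1)
    (u2 : ¬ A29)
    : False := by
  have q1 : ¬ A16 := fun h => c10 u0 h
  have q2 : ¬ A26 := fun h => c27 h u1 u2
  have q3 : ¬ A28 := fun h => c28 h u2 u1
  have q4 : ¬ A25 := fun h => c26 h u1 q3
  rcases Classical.em A7 with q5 | q5
  · have q6 : A27 := Classical.byContradiction fun h => c6 u1 h q5
    have q7 : ¬ A3 := fun h => c16 q5 h
    have q8 : A6 := Classical.byContradiction fun h => c7 h q6 q7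
    have q9 : ¬ A9 := fun h => c21 q8 h
    have q10 : ¬ A24 := fun h => c23 h q6
    have q11 : ¬ A20 := fun h => c19 h q10 q4
    have q12 : ¬ A23 := fun h => c20 h q10 q2
    have q13 : ¬ A5 := fun h => c3 q9 h q12 u1
    exact c22 q8 q11 q13
  · have q14 : A2 := Classical.byContradiction fun h => c11 u0 h q5
    rcases Classical.em A24 with q15 | q15
    · have q16 : A9 := Classical.byContradiction fun h => c5 h q15 q5
      have q17 : ¬ A6 := fun h => c21 h q16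
      have q18 : ¬ A27 := fun h => c23 q15 h
      have q19 : ¬ A15 := fun h => c24 h q17 q5
      rcases Classical.em A13 with q20 | q20
      · have q21 : A14 := Classical.byContradiction fun h => c13 q20 h q1
        have q22 : A19 := Classical.byContradiction fun h => c14 q20 q19 h
        have q23 : ¬ A12 := fun h => c12 h q22
        have q24 : ¬ A17 := fun h => c15 q21 h
        have q25 : ¬ A21 := fun h => c9 u1 q24 h
        have q26 : A18 := Classical.byContradiction fun h => c8 h q21 q25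
        exact c17 q26 q1 q23
      · have q27 : ¬ A4 := fun h => c1 h q20 q17
        have q28 : A23 := Classical.byContradiction fun h => c0 q14 q27 h u1
        have q29 : ¬ A11 := fun h => c2 h q27 q20 u1
        have q30 : ¬ A22 := fun h => c18 h q28
        have q31 : ¬ A8 := fun h => c4 q17 h q30 q27
        exact c25 q16 q31 q29
    · have q32 : ¬ A20 := fun h => c19 h q15 q4
      have q33 : ¬ A23 := fun h => c20 h q15 q2
      have q34 : A4 := Classical.byContradiction fun h => c0 q14 h q33 u1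
      rcases Classical.em A6 with q35 | q35
      · have q36 : ¬ A9 := fun h => c21 q35 h
        have q37 : ¬ A5 := fun h => c3 q36 h q33 u1
        exact c22 q35 q32 q37
      · have q38 : A13 := Classical.byContradiction fun h => c1 q34 h q35
        have q39 : A14 := Classical.byContradiction fun h => c13 q38 h q1
        have q40 : ¬ A17 := fun h => c15 q39 h
        have q41 : ¬ A21 := fun h => c9 u1 q40 h
        have q42 : A18 := Classical.byContradiction fun h => c8 h q39 q41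
        have q43 : A12 := Classical.byContradiction fun h => c17 q42 q1 h
        have q44 : ¬ A19 := fun h => c12 q43 h
        have q45 : A15 := Classical.byContradiction fun h => c14 q38 h q44
        exact c24 q45 q35 q5

theorem ser_CAE_0 {G : Type*} [Group G] {δ : G → ZMod 3} (hδ : ∀ u v, δ (u * v) = δ u + δ v) (o : Pre δ)
    {P m Q f g : G} {e : ZMod 3} (h3 : 3 * e = 0)
    (D : δ P = e ∧ δ m = -e ∧ δ Q = e ∧ δ f = 0 ∧ δ g = 0)
    (C : Cube P f ∧ Cube P g ∧ Cube m f ∧ Cube m g ∧ Cube Q f ∧ Cube Q g)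
    (N0 : RC o P m f g)
    (N1 : RA o Q m g f)
    (g0 : o.lt (P * f⁻¹) (Q * f⁻¹)) (g1 : ¬ o.lt ((P * g⁻¹)⁻¹) ((P * f⁻¹)⁻¹)) (g2 : ¬ o.lt ((Q * f⁻¹)⁻¹) ((P * g⁻¹)⁻¹)) : False := by
  simp only [Cube] at C
  have e0 : δ (g) = δ (f) := by simp only [hδ, δinv hδ, δone hδ, D] <;> linear_combination (0) * h3
  have e1 : δ (P * g⁻¹) = δ (g * m⁻¹) := by simp only [hδ, δinv hδ, δone hδ, D] <;> linear_combination (0) * h3
  have e2 : δ (Q * g⁻¹) = δ (g * m⁻¹) := by simp only [hδ, δinv hδ, δone hδ, D] <;> linear_combination (0) * h3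
  have e3 : δ (f * m⁻¹) = δ (g * m⁻¹) := by simp only [hδ, δinv hδ, δone hδ, D] <;> linear_combination (0) * h3
  have e4 : δ (f * P⁻¹) = δ (m * g⁻¹) := by simp only [hδ, δinv hδ, δone hδ, D] <;> linear_combination (0) * h3
  have e5 : δ (m * f⁻¹) = δ (m * g⁻¹) := by simp only [hδ, δinv hδ, δone hδ, D] <;> linear_combination (0) * h3
  have e6 : δ (g * m⁻¹) = δ (Q * g⁻¹) := by simp only [hδ, δinv hδ, δone hδ, D] <;> linear_combination (0) * h3
  have e7 : δ (m * g⁻¹) = δ (f * P⁻¹) := by simp only [hδ, δinv hδ, δone hδ, D] <;> linear_combination (0) * h3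
  have e8 : δ (m * g⁻¹) = δ (m * f⁻¹) := by simp only [hδ, δinv hδ, δone hδ, D] <;> linear_combination (0) * h3
  have e9 : δ (P * f⁻¹) = δ (Q * f⁻¹) := by simp only [hδ, δinv hδ, δone hδ, D] <;> linear_combination (0) * h3
  have e10 : δ (f * P⁻¹) = δ (m * f⁻¹) := by simp only [hδ, δinv hδ, δone hδ, D] <;> linear_combination (0) * h3
  have e11 : δ (P * g⁻¹) = δ (Q * f⁻¹) := by simp only [hδ, δinv hδ, δone hδ, D] <;> linear_combination (0) * h3
  have e12 : δ (f * m⁻¹) = δ (P * g⁻¹) := by simp only [hδ, δinv hδ, δone hδ, D] <;> linear_combination (0) * h3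
  have e13 : δ (f * m⁻¹) = δ (Q * g⁻¹) := by simp only [hδ, δinv hδ, δone hδ, D] <;> linear_combination (0) * h3
  have e14 : δ (f * m⁻¹) = δ (Q * f⁻¹) := by simp only [hδ, δinv hδ, δone hδ, D] <;> linear_combination (0) * h3
  have e15 : δ (Q * f⁻¹) = δ (P * f⁻¹) := by simp only [hδ, δinv hδ, δone hδ, D] <;> linear_combination (0) * h3
  have e16 : δ (Q * g⁻¹) = δ (f * m⁻¹) := by simp only [hδ, δinv hδ, δone hδ, D] <;> linear_combination (0) * h3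
  have e17 : δ (Q * g⁻¹) = δ (Q * f⁻¹) := by simp only [hδ, δinv hδ, δone hδ, D] <;> linear_combination (0) * h3
  have e18 : δ (Q * f⁻¹) = δ (P * g⁻¹) := by simp only [hδ, δinv hδ, δone hδ, D] <;> linear_combination (0) * h3
  have e19 : δ (m * f⁻¹) = δ (f * P⁻¹) := by simp only [hδ, δinv hδ, δone hδ, D] <;> linear_combination (0) * h3
  have e20 : δ (m * f⁻¹) = δ (f * Q⁻¹) := by simp only [hδ, δinv hδ, δone hδ, D] <;> linear_combination (0) * h3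
  have e21 : δ (g * P⁻¹) = δ (m * f⁻¹) := by simp only [hδ, δinv hδ, δone hδ, D] <;> linear_combination (0) * h3
  have e22 : δ (m * f⁻¹) = δ (g * P⁻¹) := by simp only [hδ, δinv hδ, δone hδ, D] <;> linear_combination (0) * h3
  have e23 : δ (m * f⁻¹) = δ (g * Q⁻¹) := by simp only [hδ, δinv hδ, δone hδ, D] <;> linear_combination (0) * h3
  have e24 : δ (g * Q⁻¹) = δ (f * P⁻¹) := by simp only [hδ, δinv hδ, δone hδ, D] <;> linear_combination (0) * h3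
  have e25 : δ (g * Q⁻¹) = δ (g * P⁻¹) := by simp only [hδ, δinv hδ, δone hδ, D] <;> linear_combination (0) * h3
  have e26 : δ (g * Q⁻¹) = δ (m * f⁻¹) := by simp only [hδ, δinv hδ, δone hδ, D] <;> linear_combination (0) * h3
  have e27 : δ (f * Q⁻¹) = δ (f * P⁻¹) := by simp only [hδ, δinv hδ, δone hδ, D] <;> linear_combination (0) * h3
  have e28 : δ (f * Q⁻¹) = δ (g * P⁻¹) := by simp only [hδ, δinv hδ, δone hδ, D] <;> linear_combination (0) * h3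
  have k0 : o.lt (P * g⁻¹) (g * m⁻¹) ↔ o.lt (1 * (P * g⁻¹)) (1 * (g * m⁻¹)) := o.cv hδ (1) e1 (by simp only [mul_assoc, mul_inv_rev, inv_inv, mul_inv_cancel_left, inv_mul_cancel_left, mul_inv_cancel, inv_mul_cancel, mul_one, one_mul, inv_one, C]) (by simp only [mul_assoc, mul_inv_rev, inv_inv, mul_inv_cancel_left, inv_mul_cancel_left, mul_inv_cancel, inv_mul_cancel, mul_one, one_mul, inv_one, C])
  have k1 : o.lt (f * m⁻¹) (g * m⁻¹) ↔ o.lt (1 * (f * m⁻¹)) (1 * (g * m⁻¹)) := o.cv hδ (1) e3 (by simp only [mul_assoc, mul_inv_rev, inv_inv, mul_inv_cancel_left, inv_mul_cancel_left, mul_inv_cancel, inv_mul_cancel, mul_one, one_mul, inv_one, C]) (by simp only [mul_assoc, mul_inv_rev, inv_inv, mul_inv_cancel_left, inv_mul_cancel_left, mul_inv_cancel, inv_mul_cancel, mul_one, one_mul, inv_one, C])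
  have k2 : o.lt (m * f⁻¹) (g * P⁻¹) ↔ o.lt (1 * (f * m⁻¹)⁻¹) (1 * (P * g⁻¹)⁻¹) := o.cv hδ (1) e22 (by simp only [mul_assoc, mul_inv_rev, inv_inv, mul_inv_cancel_left, inv_mul_cancel_left, mul_inv_cancel, inv_mul_cancel, mul_one, one_mul, inv_one, C]) (by simp only [mul_assoc, mul_inv_rev, inv_inv, mul_inv_cancel_left, inv_mul_cancel_left, mul_inv_cancel, inv_mul_cancel, mul_one, one_mul, inv_one, C])
  have k3 : o.lt (g) (f) ↔ o.lt (1 * g) (1 * f) := o.cv hδ (1) e0 (by simp only [mul_assoc, mul_inv_rev, inv_inv, mul_inv_cancel_left, inv_mul_cancel_left, mul_inv_cancel, inv_mul_cancel, mul_one, one_mul, inv_one, C]) (by simp only [mul_assoc, mul_inv_rev, inv_inv, mul_inv_cancel_left, inv_mul_cancel_left, mul_inv_cancel, inv_mul_cancel, mul_one, one_mul, inv_one, C])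
  have k4 : o.lt (f * m⁻¹) (P * g⁻¹) ↔ o.lt (1 * (f * m⁻¹)) (1 * (P * g⁻¹)) := o.cv hδ (1) e12 (by simp only [mul_assoc, mul_inv_rev, inv_inv, mul_inv_cancel_left, inv_mul_cancel_left, mul_inv_cancel, inv_mul_cancel, mul_one, one_mul, inv_one, C]) (by simp only [mul_assoc, mul_inv_rev, inv_inv, mul_inv_cancel_left, inv_mul_cancel_left, mul_inv_cancel, inv_mul_cancel, mul_one, one_mul, inv_one, C])
  have k5 : o.lt (m * f⁻¹) (m * g⁻¹) ↔ o.lt (1 * (f * m⁻¹)⁻¹) (1 * (g * m⁻¹)⁻¹) := o.cv hδ (1) e5 (by simp only [mul_assoc, mul_inv_rev, inv_inv, mul_inv_cancel_left, inv_mul_cancel_left, mul_inv_cancel, inv_mul_cancel, mul_one, one_mul, inv_one, C]) (by simp only [mul_assoc, mul_inv_rev, inv_inv, mul_inv_cancel_left, inv_mul_cancel_left, mul_inv_cancel, inv_mul_cancel, mul_one, one_mul, inv_one, C])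
  have k6 : o.lt (f * P⁻¹) (m * f⁻¹) ↔ o.lt (1 * (f * P⁻¹)) (1 * (m * f⁻¹)) := o.cv hδ (1) e10 (by simp only [mul_assoc, mul_inv_rev, inv_inv, mul_inv_cancel_left, inv_mul_cancel_left, mul_inv_cancel, inv_mul_cancel, mul_one, one_mul, inv_one, C]) (by simp only [mul_assoc, mul_inv_rev, inv_inv, mul_inv_cancel_left, inv_mul_cancel_left, mul_inv_cancel, inv_mul_cancel, mul_one, one_mul, inv_one, C])
  have k7 : o.lt (f * m⁻¹) (g * m⁻¹) ↔ o.lt (1 * (f * P⁻¹)) (1 * (g * P⁻¹)) := o.cv hδ (m * P⁻¹) e3 (by simp only [mul_assoc, mul_inv_rev, inv_inv, mul_inv_cancel_left, inv_mul_cancel_left, mul_inv_cancel, inv_mul_cancel, mul_one, one_mul, inv_one, C]) (by simp only [mul_assoc, mul_inv_rev, inv_inv, mul_inv_cancel_left, inv_mul_cancel_left, mul_inv_cancel, inv_mul_cancel, mul_one, one_mul, inv_one, C])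
  have k8 : o.lt (f * m⁻¹) (P * g⁻¹) ↔ o.lt (1 * (m * f⁻¹)⁻¹) (1 * (g * P⁻¹)⁻¹) := o.cv hδ (1) e12 (by simp only [mul_assoc, mul_inv_rev, inv_inv, mul_inv_cancel_left, inv_mul_cancel_left, mul_inv_cancel, inv_mul_cancel, mul_one, one_mul, inv_one, C]) (by simp only [mul_assoc, mul_inv_rev, inv_inv, mul_inv_cancel_left, inv_mul_cancel_left, mul_inv_cancel, inv_mul_cancel, mul_one, one_mul, inv_one, C])
  have k9 : o.lt (m * g⁻¹) (m * f⁻¹) ↔ o.lt (1 * (m * g⁻¹)) (1 * (m * f⁻¹)) := o.cv hδ (1) e8 (by simp only [mul_assoc, mul_inv_rev, inv_inv, mul_inv_cancel_left, inv_mul_cancel_left, mul_inv_cancel, inv_mul_cancel, mul_one, one_mul, inv_one, C]) (by simp only [mul_assoc, mul_inv_rev, inv_inv, mul_inv_cancel_left, inv_mul_cancel_left, mul_inv_cancel, inv_mul_cancel, mul_one, one_mul, inv_one, C])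
  have k10 : o.lt (f * P⁻¹) (m * g⁻¹) ↔ o.lt (1 * (f * P⁻¹)) (1 * (m * g⁻¹)) := o.cv hδ (1) e4 (by simp only [mul_assoc, mul_inv_rev, inv_inv, mul_inv_cancel_left, inv_mul_cancel_left, mul_inv_cancel, inv_mul_cancel, mul_one, one_mul, inv_one, C]) (by simp only [mul_assoc, mul_inv_rev, inv_inv, mul_inv_cancel_left, inv_mul_cancel_left, mul_inv_cancel, inv_mul_cancel, mul_one, one_mul, inv_one, C])
  have k11 : o.lt (m * f⁻¹) (g * P⁻¹) ↔ o.lt (1 * (m * f⁻¹)) (1 * (g * P⁻¹)) := o.cv hδ (1) e22 (by simp only [mul_assoc, mul_inv_rev, inv_inv, mul_inv_cancel_left, inv_mul_cancel_left, mul_inv_cancel, inv_mul_cancel, mul_one, one_mul, inv_one, C]) (by simp only [mul_assoc, mul_inv_rev, inv_inv, mul_inv_cancel_left, inv_mul_cancel_left, mul_inv_cancel, inv_mul_cancel, mul_one, one_mul, inv_one, C])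
  have k12 : o.lt (m * f⁻¹) (m * g⁻¹) ↔ o.lt (1 * (m * f⁻¹)) (1 * (m * g⁻¹)) := o.cv hδ (1) e5 (by simp only [mul_assoc, mul_inv_rev, inv_inv, mul_inv_cancel_left, inv_mul_cancel_left, mul_inv_cancel, inv_mul_cancel, mul_one, one_mul, inv_one, C]) (by simp only [mul_assoc, mul_inv_rev, inv_inv, mul_inv_cancel_left, inv_mul_cancel_left, mul_inv_cancel, inv_mul_cancel, mul_one, one_mul, inv_one, C])
  have k13 : o.lt (m * g⁻¹) (f * P⁻¹) ↔ o.lt (1 * (m * g⁻¹)) (1 * (f * P⁻¹)) := o.cv hδ (1) e7 (by simp only [mul_assoc, mul_inv_rev, inv_inv, mul_inv_cancel_left, inv_mul_cancel_left, mul_inv_cancel, inv_mul_cancel, mul_one, one_mul, inv_one, C]) (by simp only [mul_assoc, mul_inv_rev, inv_inv, mul_inv_cancel_left, inv_mul_cancel_left, mul_inv_cancel, inv_mul_cancel, mul_one, one_mul, inv_one, C])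
  have k14 : o.lt (g * P⁻¹) (m * f⁻¹) ↔ o.lt (1 * (g * P⁻¹)) (1 * (m * f⁻¹)) := o.cv hδ (1) e21 (by simp only [mul_assoc, mul_inv_rev, inv_inv, mul_inv_cancel_left, inv_mul_cancel_left, mul_inv_cancel, inv_mul_cancel, mul_one, one_mul, inv_one, C]) (by simp only [mul_assoc, mul_inv_rev, inv_inv, mul_inv_cancel_left, inv_mul_cancel_left, mul_inv_cancel, inv_mul_cancel, mul_one, one_mul, inv_one, C])
  have k15 : o.lt (f * m⁻¹) (g * m⁻¹) ↔ o.lt (1 * f) (1 * g) := o.cv hδ (m) e3 (by simp only [mul_assoc, mul_inv_rev, inv_inv, mul_inv_cancel_left, inv_mul_cancel_left, mul_inv_cancel, inv_mul_cancel, mul_one, one_mul, inv_one, C]) (by simp only [mul_assoc, mul_inv_rev, inv_inv, mul_inv_cancel_left, inv_mul_cancel_left, mul_inv_cancel, inv_mul_cancel, mul_one, one_mul, inv_one, C])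
  have k16 : o.lt (m * f⁻¹) (g * Q⁻¹) ↔ o.lt (1 * (m * f⁻¹)) (1 * (g * Q⁻¹)) := o.cv hδ (1) e23 (by simp only [mul_assoc, mul_inv_rev, inv_inv, mul_inv_cancel_left, inv_mul_cancel_left, mul_inv_cancel, inv_mul_cancel, mul_one, one_mul, inv_one, C]) (by simp only [mul_assoc, mul_inv_rev, inv_inv, mul_inv_cancel_left, inv_mul_cancel_left, mul_inv_cancel, inv_mul_cancel, mul_one, one_mul, inv_one, C])
  have k17 : o.lt (g * m⁻¹) (Q * g⁻¹) ↔ o.lt (1 * (m * g⁻¹)⁻¹) (1 * (g * Q⁻¹)⁻¹) := o.cv hδ (1) e6 (by simp only [mul_assoc, mul_inv_rev, inv_inv, mul_inv_cancel_left, inv_mul_cancel_left, mul_inv_cancel, inv_mul_cancel, mul_one, one_mul, inv_one, C]) (by simp only [mul_assoc, mul_inv_rev, inv_inv, mul_inv_cancel_left, inv_mul_cancel_left, mul_inv_cancel, inv_mul_cancel, mul_one, one_mul, inv_one, C])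
  have k18 : o.lt (g) (f) ↔ o.lt (1 * (g * Q⁻¹)) (1 * (f * Q⁻¹)) := o.cv hδ (Q⁻¹) e0 (by simp only [mul_assoc, mul_inv_rev, inv_inv, mul_inv_cancel_left, inv_mul_cancel_left, mul_inv_cancel, inv_mul_cancel, mul_one, one_mul, inv_one, C]) (by simp only [mul_assoc, mul_inv_rev, inv_inv, mul_inv_cancel_left, inv_mul_cancel_left, mul_inv_cancel, inv_mul_cancel, mul_one, one_mul, inv_one, C])
  have k19 : o.lt (g * Q⁻¹) (m * f⁻¹) ↔ o.lt (1 * (g * Q⁻¹)) (1 * (m * f⁻¹)) := o.cv hδ (1) e26 (by simp only [mul_assoc, mul_inv_rev, inv_inv, mul_inv_cancel_left, inv_mul_cancel_left, mul_inv_cancel, inv_mul_cancel, mul_one, one_mul, inv_one, C]) (by simp only [mul_assoc, mul_inv_rev, inv_inv, mul_inv_cancel_left, inv_mul_cancel_left, mul_inv_cancel, inv_mul_cancel, mul_one, one_mul, inv_one, C])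
  have k20 : o.lt (Q * g⁻¹) (g * m⁻¹) ↔ o.lt (1 * (g * Q⁻¹)⁻¹) (1 * (m * g⁻¹)⁻¹) := o.cv hδ (1) e2 (by simp only [mul_assoc, mul_inv_rev, inv_inv, mul_inv_cancel_left, inv_mul_cancel_left, mul_inv_cancel, inv_mul_cancel, mul_one, one_mul, inv_one, C]) (by simp only [mul_assoc, mul_inv_rev, inv_inv, mul_inv_cancel_left, inv_mul_cancel_left, mul_inv_cancel, inv_mul_cancel, mul_one, one_mul, inv_one, C])
  have k21 : o.lt (Q * g⁻¹) (Q * f⁻¹) ↔ o.lt (1 * (Q * g⁻¹)) (1 * (Q * f⁻¹)) := o.cv hδ (1) e17 (by simp only [mul_assoc, mul_inv_rev, inv_inv, mul_inv_cancel_left, inv_mul_cancel_left, mul_inv_cancel, inv_mul_cancel, mul_one, one_mul, inv_one, C]) (by simp only [mul_assoc, mul_inv_rev, inv_inv, mul_inv_cancel_left, inv_mul_cancel_left, mul_inv_cancel, inv_mul_cancel, mul_one, one_mul, inv_one, C])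
  have k22 : o.lt (f * m⁻¹) (Q * g⁻¹) ↔ o.lt (1 * (f * m⁻¹)) (1 * (Q * g⁻¹)) := o.cv hδ (1) e13 (by simp only [mul_assoc, mul_inv_rev, inv_inv, mul_inv_cancel_left, inv_mul_cancel_left, mul_inv_cancel, inv_mul_cancel, mul_one, one_mul, inv_one, C]) (by simp only [mul_assoc, mul_inv_rev, inv_inv, mul_inv_cancel_left, inv_mul_cancel_left, mul_inv_cancel, inv_mul_cancel, mul_one, one_mul, inv_one, C])
  have k23 : o.lt (m * f⁻¹) (f * Q⁻¹) ↔ o.lt (1 * (f * m⁻¹)⁻¹) (1 * (Q * f⁻¹)⁻¹) := o.cv hδ (1) e20 (by simp only [mul_assoc, mul_inv_rev, inv_inv, mul_inv_cancel_left, inv_mul_cancel_left, mul_inv_cancel, inv_mul_cancel, mul_one, one_mul, inv_one, C]) (by simp only [mul_assoc, mul_inv_rev, inv_inv, mul_inv_cancel_left, inv_mul_cancel_left, mul_inv_cancel, inv_mul_cancel, mul_one, one_mul, inv_one, C])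
  have k24 : o.lt (g) (f) ↔ o.lt (1 * (g * m⁻¹)) (1 * (f * m⁻¹)) := o.cv hδ (m⁻¹) e0 (by simp only [mul_assoc, mul_inv_rev, inv_inv, mul_inv_cancel_left, inv_mul_cancel_left, mul_inv_cancel, inv_mul_cancel, mul_one, one_mul, inv_one, C]) (by simp only [mul_assoc, mul_inv_rev, inv_inv, mul_inv_cancel_left, inv_mul_cancel_left, mul_inv_cancel, inv_mul_cancel, mul_one, one_mul, inv_one, C])
  have k25 : o.lt (Q * g⁻¹) (f * m⁻¹) ↔ o.lt (1 * (Q * g⁻¹)) (1 * (f * m⁻¹)) := o.cv hδ (1) e16 (by simp only [mul_assoc, mul_inv_rev, inv_inv, mul_inv_cancel_left, inv_mul_cancel_left, mul_inv_cancel, inv_mul_cancel, mul_one, one_mul, inv_one, C]) (by simp only [mul_assoc, mul_inv_rev, inv_inv, mul_inv_cancel_left, inv_mul_cancel_left, mul_inv_cancel, inv_mul_cancel, mul_one, one_mul, inv_one, C])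
  have k26 : o.lt (P * f⁻¹) (Q * f⁻¹) ↔ o.lt (P * f⁻¹) (Q * f⁻¹) := o.cv hδ (1) e9 (by simp only [mul_assoc, mul_inv_rev, inv_inv, mul_inv_cancel_left, inv_mul_cancel_left, mul_inv_cancel, inv_mul_cancel, mul_one, one_mul, inv_one, C]) (by simp only [mul_assoc, mul_inv_rev, inv_inv, mul_inv_cancel_left, inv_mul_cancel_left, mul_inv_cancel, inv_mul_cancel, mul_one, one_mul, inv_one, C])
  have k27 : o.lt (Q * f⁻¹) (P * f⁻¹) ↔ o.lt (Q * f⁻¹) (P * f⁻¹) := o.cv hδ (1) e15 (by simp only [mul_assoc, mul_inv_rev, inv_inv, mul_inv_cancel_left, inv_mul_cancel_left, mul_inv_cancel, inv_mul_cancel, mul_one, one_mul, inv_one, C]) (by simp only [mul_assoc, mul_inv_rev, inv_inv, mul_inv_cancel_left, inv_mul_cancel_left, mul_inv_cancel, inv_mul_cancel, mul_one, one_mul, inv_one, C])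
  have k28 : o.lt (P * f⁻¹) (Q * f⁻¹) ↔ o.lt (P * g⁻¹) (Q * g⁻¹) := o.cv hδ (f * g⁻¹) e9 (by simp only [mul_assoc, mul_inv_rev, inv_inv, mul_inv_cancel_left, inv_mul_cancel_left, mul_inv_cancel, inv_mul_cancel, mul_one, one_mul, inv_one, C]) (by simp only [mul_assoc, mul_inv_rev, inv_inv, mul_inv_cancel_left, inv_mul_cancel_left, mul_inv_cancel, inv_mul_cancel, mul_one, one_mul, inv_one, C])
  have k29 : o.lt (P * g⁻¹) (g * m⁻¹) ↔ o.lt (P * g⁻¹) (g * m⁻¹) := o.cv hδ (1) e1 (by simp only [mul_assoc, mul_inv_rev, inv_inv, mul_inv_cancel_left, inv_mul_cancel_left, mul_inv_cancel, inv_mul_cancel, mul_one, one_mul, inv_one, C]) (by simp only [mul_assoc, mul_inv_rev, inv_inv, mul_inv_cancel_left, inv_mul_cancel_left, mul_inv_cancel, inv_mul_cancel, mul_one, one_mul, inv_one, C])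
  have k30 : o.lt (g * m⁻¹) (Q * g⁻¹) ↔ o.lt (g * m⁻¹) (Q * g⁻¹) := o.cv hδ (1) e6 (by simp only [mul_assoc, mul_inv_rev, inv_inv, mul_inv_cancel_left, inv_mul_cancel_left, mul_inv_cancel, inv_mul_cancel, mul_one, one_mul, inv_one, C]) (by simp only [mul_assoc, mul_inv_rev, inv_inv, mul_inv_cancel_left, inv_mul_cancel_left, mul_inv_cancel, inv_mul_cancel, mul_one, one_mul, inv_one, C])
  have k31 : o.lt (P * g⁻¹) (Q * f⁻¹) ↔ o.lt (P * g⁻¹) (Q * f⁻¹) := o.cv hδ (1) e11 (by simp only [mul_assoc, mul_inv_rev, inv_inv, mul_inv_cancel_left, inv_mul_cancel_left, mul_inv_cancel, inv_mul_cancel, mul_one, one_mul, inv_one, C]) (by simp only [mul_assoc, mul_inv_rev, inv_inv, mul_inv_cancel_left, inv_mul_cancel_left, mul_inv_cancel, inv_mul_cancel, mul_one, one_mul, inv_one, C])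
  have k32 : o.lt (Q * f⁻¹) (P * g⁻¹) ↔ o.lt (Q * f⁻¹) (P * g⁻¹) := o.cv hδ (1) e18 (by simp only [mul_assoc, mul_inv_rev, inv_inv, mul_inv_cancel_left, inv_mul_cancel_left, mul_inv_cancel, inv_mul_cancel, mul_one, one_mul, inv_one, C]) (by simp only [mul_assoc, mul_inv_rev, inv_inv, mul_inv_cancel_left, inv_mul_cancel_left, mul_inv_cancel, inv_mul_cancel, mul_one, one_mul, inv_one, C])
  have k33 : o.lt (f * m⁻¹) (P * g⁻¹) ↔ o.lt (f * m⁻¹) (P * g⁻¹) := o.cv hδ (1) e12 (by simp only [mul_assoc, mul_inv_rev, inv_inv, mul_inv_cancel_left, inv_mul_cancel_left, mul_inv_cancel, inv_mul_cancel, mul_one, one_mul, inv_one, C]) (by simp only [mul_assoc, mul_inv_rev, inv_inv, mul_inv_cancel_left, inv_mul_cancel_left, mul_inv_cancel, inv_mul_cancel, mul_one, one_mul, inv_one, C])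
  have k34 : o.lt (f * m⁻¹) (Q * g⁻¹) ↔ o.lt (f * m⁻¹) (Q * g⁻¹) := o.cv hδ (1) e13 (by simp only [mul_assoc, mul_inv_rev, inv_inv, mul_inv_cancel_left, inv_mul_cancel_left, mul_inv_cancel, inv_mul_cancel, mul_one, one_mul, inv_one, C]) (by simp only [mul_assoc, mul_inv_rev, inv_inv, mul_inv_cancel_left, inv_mul_cancel_left, mul_inv_cancel, inv_mul_cancel, mul_one, one_mul, inv_one, C])
  have k35 : o.lt (Q * f⁻¹) (P * f⁻¹) ↔ o.lt (Q * g⁻¹) (P * g⁻¹) := o.cv hδ (f * g⁻¹) e15 (by simp only [mul_assoc, mul_inv_rev, inv_inv, mul_inv_cancel_left, inv_mul_cancel_left, mul_inv_cancel, inv_mul_cancel, mul_one, one_mul, inv_one, C]) (by simp only [mul_assoc, mul_inv_rev, inv_inv, mul_inv_cancel_left, inv_mul_cancel_left, mul_inv_cancel, inv_mul_cancel, mul_one, one_mul, inv_one, C])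
  have k36 : o.lt (f * m⁻¹) (Q * f⁻¹) ↔ o.lt (f * m⁻¹) (Q * f⁻¹) := o.cv hδ (1) e14 (by simp only [mul_assoc, mul_inv_rev, inv_inv, mul_inv_cancel_left, inv_mul_cancel_left, mul_inv_cancel, inv_mul_cancel, mul_one, one_mul, inv_one, C]) (by simp only [mul_assoc, mul_inv_rev, inv_inv, mul_inv_cancel_left, inv_mul_cancel_left, mul_inv_cancel, inv_mul_cancel, mul_one, one_mul, inv_one, C])
  have k37 : o.lt (Q * g⁻¹) (f * m⁻¹) ↔ o.lt (Q * g⁻¹) (f * m⁻¹) := o.cv hδ (1) e16 (by simp only [mul_assoc, mul_inv_rev, inv_inv, mul_inv_cancel_left, inv_mul_cancel_left, mul_inv_cancel, inv_mul_cancel, mul_one, one_mul, inv_one, C]) (by simp only [mul_assoc, mul_inv_rev, inv_inv, mul_inv_cancel_left, inv_mul_cancel_left, mul_inv_cancel, inv_mul_cancel, mul_one, one_mul, inv_one, C])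
  have k38 : o.lt (Q * g⁻¹) (g * m⁻¹) ↔ o.lt (Q * g⁻¹) (g * m⁻¹) := o.cv hδ (1) e2 (by simp only [mul_assoc, mul_inv_rev, inv_inv, mul_inv_cancel_left, inv_mul_cancel_left, mul_inv_cancel, inv_mul_cancel, mul_one, one_mul, inv_one, C]) (by simp only [mul_assoc, mul_inv_rev, inv_inv, mul_inv_cancel_left, inv_mul_cancel_left, mul_inv_cancel, inv_mul_cancel, mul_one, one_mul, inv_one, C])
  have k39 : o.lt (Q * g⁻¹) (Q * f⁻¹) ↔ o.lt (Q * g⁻¹) (Q * f⁻¹) := o.cv hδ (1) e17 (by simp only [mul_assoc, mul_inv_rev, inv_inv, mul_inv_cancel_left, inv_mul_cancel_left, mul_inv_cancel, inv_mul_cancel, mul_one, one_mul, inv_one, C]) (by simp only [mul_assoc, mul_inv_rev, inv_inv, mul_inv_cancel_left, inv_mul_cancel_left, mul_inv_cancel, inv_mul_cancel, mul_one, one_mul, inv_one, C])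
  have k40 : o.lt (g * P⁻¹) (m * f⁻¹) ↔ o.lt (g * P⁻¹) (m * f⁻¹) := o.cv hδ (1) e21 (by simp only [mul_assoc, mul_inv_rev, inv_inv, mul_inv_cancel_left, inv_mul_cancel_left, mul_inv_cancel, inv_mul_cancel, mul_one, one_mul, inv_one, C]) (by simp only [mul_assoc, mul_inv_rev, inv_inv, mul_inv_cancel_left, inv_mul_cancel_left, mul_inv_cancel, inv_mul_cancel, mul_one, one_mul, inv_one, C])
  have k41 : o.lt (m * f⁻¹) (g * P⁻¹) ↔ o.lt (m * f⁻¹) (g * P⁻¹) := o.cv hδ (1) e22 (by simp only [mul_assoc, mul_inv_rev, inv_inv, mul_inv_cancel_left, inv_mul_cancel_left, mul_inv_cancel, inv_mul_cancel, mul_one, one_mul, inv_one, C]) (by simp only [mul_assoc, mul_inv_rev, inv_inv, mul_inv_cancel_left, inv_mul_cancel_left, mul_inv_cancel, inv_mul_cancel, mul_one, one_mul, inv_one, C])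
  have k42 : o.lt (m * f⁻¹) (f * P⁻¹) ↔ o.lt (m * f⁻¹) (f * P⁻¹) := o.cv hδ (1) e19 (by simp only [mul_assoc, mul_inv_rev, inv_inv, mul_inv_cancel_left, inv_mul_cancel_left, mul_inv_cancel, inv_mul_cancel, mul_one, one_mul, inv_one, C]) (by simp only [mul_assoc, mul_inv_rev, inv_inv, mul_inv_cancel_left, inv_mul_cancel_left, mul_inv_cancel, inv_mul_cancel, mul_one, one_mul, inv_one, C])
  have k43 : o.lt (m * f⁻¹) (g * Q⁻¹) ↔ o.lt (m * f⁻¹) (g * Q⁻¹) := o.cv hδ (1) e23 (by simp only [mul_assoc, mul_inv_rev, inv_inv, mul_inv_cancel_left, inv_mul_cancel_left, mul_inv_cancel, inv_mul_cancel, mul_one, one_mul, inv_one, C]) (by simp only [mul_assoc, mul_inv_rev, inv_inv, mul_inv_cancel_left, inv_mul_cancel_left, mul_inv_cancel, inv_mul_cancel, mul_one, one_mul, inv_one, C])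
  have k44 : o.lt (g * Q⁻¹) (f * P⁻¹) ↔ o.lt (g * Q⁻¹) (f * P⁻¹) := o.cv hδ (1) e24 (by simp only [mul_assoc, mul_inv_rev, inv_inv, mul_inv_cancel_left, inv_mul_cancel_left, mul_inv_cancel, inv_mul_cancel, mul_one, one_mul, inv_one, C]) (by simp only [mul_assoc, mul_inv_rev, inv_inv, mul_inv_cancel_left, inv_mul_cancel_left, mul_inv_cancel, inv_mul_cancel, mul_one, one_mul, inv_one, C])
  have k45 : o.lt (g * Q⁻¹) (g * P⁻¹) ↔ o.lt (g * Q⁻¹) (g * P⁻¹) := o.cv hδ (1) e25 (by simp only [mul_assoc, mul_inv_rev, inv_inv, mul_inv_cancel_left, inv_mul_cancel_left, mul_inv_cancel, inv_mul_cancel, mul_one, one_mul, inv_one, C]) (by simp only [mul_assoc, mul_inv_rev, inv_inv, mul_inv_cancel_left, inv_mul_cancel_left, mul_inv_cancel, inv_mul_cancel, mul_one, one_mul, inv_one, C])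
  have k46 : o.lt (m * f⁻¹) (m * g⁻¹) ↔ o.lt (m * f⁻¹) (m * g⁻¹) := o.cv hδ (1) e5 (by simp only [mul_assoc, mul_inv_rev, inv_inv, mul_inv_cancel_left, inv_mul_cancel_left, mul_inv_cancel, inv_mul_cancel, mul_one, one_mul, inv_one, C]) (by simp only [mul_assoc, mul_inv_rev, inv_inv, mul_inv_cancel_left, inv_mul_cancel_left, mul_inv_cancel, inv_mul_cancel, mul_one, one_mul, inv_one, C])
  have k47 : o.lt (m * g⁻¹) (m * f⁻¹) ↔ o.lt (m * g⁻¹) (m * f⁻¹) := o.cv hδ (1) e8 (by simp only [mul_assoc, mul_inv_rev, inv_inv, mul_inv_cancel_left, inv_mul_cancel_left, mul_inv_cancel, inv_mul_cancel, mul_one, one_mul, inv_one, C]) (by simp only [mul_assoc, mul_inv_rev, inv_inv, mul_inv_cancel_left, inv_mul_cancel_left, mul_inv_cancel, inv_mul_cancel, mul_one, one_mul, inv_one, C])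
  have k48 : o.lt (f * P⁻¹) (m * g⁻¹) ↔ o.lt (f * P⁻¹) (m * g⁻¹) := o.cv hδ (1) e4 (by simp only [mul_assoc, mul_inv_rev, inv_inv, mul_inv_cancel_left, inv_mul_cancel_left, mul_inv_cancel, inv_mul_cancel, mul_one, one_mul, inv_one, C]) (by simp only [mul_assoc, mul_inv_rev, inv_inv, mul_inv_cancel_left, inv_mul_cancel_left, mul_inv_cancel, inv_mul_cancel, mul_one, one_mul, inv_one, C])
  have k49 : o.lt (g * Q⁻¹) (m * f⁻¹) ↔ o.lt (g * Q⁻¹) (m * f⁻¹) := o.cv hδ (1) e26 (by simp only [mul_assoc, mul_inv_rev, inv_inv, mul_inv_cancel_left, inv_mul_cancel_left, mul_inv_cancel, inv_mul_cancel, mul_one, one_mul, inv_one, C]) (by simp only [mul_assoc, mul_inv_rev, inv_inv, mul_inv_cancel_left, inv_mul_cancel_left, mul_inv_cancel, inv_mul_cancel, mul_one, one_mul, inv_one, C])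
  have k50 : o.lt (f * m⁻¹) (Q * f⁻¹) ↔ o.lt (m * f⁻¹) (Q * m⁻¹) := o.cv hδ (m * (f⁻¹ * (m * f⁻¹))) e14 (by simp only [mul_assoc, mul_inv_rev, inv_inv, mul_inv_cancel_left, inv_mul_cancel_left, mul_inv_cancel, inv_mul_cancel, mul_one, one_mul, inv_one, C]) (by simp only [mul_assoc, mul_inv_rev, inv_inv, mul_inv_cancel_left, inv_mul_cancel_left, mul_inv_cancel, inv_mul_cancel, mul_one, one_mul, inv_one, C])
  have k51 : o.lt (g * m⁻¹) (Q * g⁻¹) ↔ o.lt (m * g⁻¹) (Q * m⁻¹) := o.cv hδ (m * (g⁻¹ * (m * g⁻¹))) e6 (by simp only [mul_assoc, mul_inv_rev, inv_inv, mul_inv_cancel_left, inv_mul_cancel_left, mul_inv_cancel, inv_mul_cancel, mul_one, one_mul, inv_one, C]) (by simp only [mul_assoc, mul_inv_rev, inv_inv, mul_inv_cancel_left, inv_mul_cancel_left, mul_inv_cancel, inv_mul_cancel, mul_one, one_mul, inv_one, C])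
  have k52 : o.lt (m * g⁻¹) (f * P⁻¹) ↔ o.lt (m * g⁻¹) (f * P⁻¹) := o.cv hδ (1) e7 (by simp only [mul_assoc, mul_inv_rev, inv_inv, mul_inv_cancel_left, inv_mul_cancel_left, mul_inv_cancel, inv_mul_cancel, mul_one, one_mul, inv_one, C]) (by simp only [mul_assoc, mul_inv_rev, inv_inv, mul_inv_cancel_left, inv_mul_cancel_left, mul_inv_cancel, inv_mul_cancel, mul_one, one_mul, inv_one, C])
  have k53 : o.lt (f * P⁻¹) (m * f⁻¹) ↔ o.lt (f * P⁻¹) (m * f⁻¹) := o.cv hδ (1) e10 (by simp only [mul_assoc, mul_inv_rev, inv_inv, mul_inv_cancel_left, inv_mul_cancel_left, mul_inv_cancel, inv_mul_cancel, mul_one, one_mul, inv_one, C]) (by simp only [mul_assoc, mul_inv_rev, inv_inv, mul_inv_cancel_left, inv_mul_cancel_left, mul_inv_cancel, inv_mul_cancel, mul_one, one_mul, inv_one, C])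
  have k54 : o.lt (g) (f) ↔ o.lt (g * Q⁻¹) (f * Q⁻¹) := o.cv hδ (Q⁻¹) e0 (by simp only [mul_assoc, mul_inv_rev, inv_inv, mul_inv_cancel_left, inv_mul_cancel_left, mul_inv_cancel, inv_mul_cancel, mul_one, one_mul, inv_one, C]) (by simp only [mul_assoc, mul_inv_rev, inv_inv, mul_inv_cancel_left, inv_mul_cancel_left, mul_inv_cancel, inv_mul_cancel, mul_one, one_mul, inv_one, C])
  have k55 : o.lt (f * Q⁻¹) (f * P⁻¹) ↔ o.lt (f * Q⁻¹) (f * P⁻¹) := o.cv hδ (1) e27 (by simp only [mul_assoc, mul_inv_rev, inv_inv, mul_inv_cancel_left, inv_mul_cancel_left, mul_inv_cancel, inv_mul_cancel, mul_one, one_mul, inv_one, C]) (by simp only [mul_assoc, mul_inv_rev, inv_inv, mul_inv_cancel_left, inv_mul_cancel_left, mul_inv_cancel, inv_mul_cancel, mul_one, one_mul, inv_one, C])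
  have k56 : o.lt (f * Q⁻¹) (g * P⁻¹) ↔ o.lt (f * Q⁻¹) (g * P⁻¹) := o.cv hδ (1) e28 (by simp only [mul_assoc, mul_inv_rev, inv_inv, mul_inv_cancel_left, inv_mul_cancel_left, mul_inv_cancel, inv_mul_cancel, mul_one, one_mul, inv_one, C]) (by simp only [mul_assoc, mul_inv_rev, inv_inv, mul_inv_cancel_left, inv_mul_cancel_left, mul_inv_cancel, inv_mul_cancel, mul_one, one_mul, inv_one, C])
  have k57 : o.lt (g) (f) ↔ o.lt (g * P⁻¹) (f * P⁻¹) := o.cv hδ (P⁻¹) e0 (by simp only [mul_assoc, mul_inv_rev, inv_inv, mul_inv_cancel_left, inv_mul_cancel_left, mul_inv_cancel, inv_mul_cancel, mul_one, one_mul, inv_one, C]) (by simp only [mul_assoc, mul_inv_rev, inv_inv, mul_inv_cancel_left, inv_mul_cancel_left, mul_inv_cancel, inv_mul_cancel, mul_one, one_mul, inv_one, C])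
  have k58 : o.lt (g) (f) ↔ o.lt ((P * g⁻¹)⁻¹) ((P * f⁻¹)⁻¹) := o.cv hδ (P⁻¹) e0 (by simp only [mul_assoc, mul_inv_rev, inv_inv, mul_inv_cancel_left, inv_mul_cancel_left, mul_inv_cancel, inv_mul_cancel, mul_one, one_mul, inv_one, C]) (by simp only [mul_assoc, mul_inv_rev, inv_inv, mul_inv_cancel_left, inv_mul_cancel_left, mul_inv_cancel, inv_mul_cancel, mul_one, one_mul, inv_one, C])
  have k59 : o.lt (f * Q⁻¹) (g * P⁻¹) ↔ o.lt ((Q * f⁻¹)⁻¹) ((P * g⁻¹)⁻¹) := o.cv hδ (1) e28 (by simp only [mul_assoc, mul_inv_rev, inv_inv, mul_inv_cancel_left, inv_mul_cancel_left, mul_inv_cancel, inv_mul_cancel, mul_one, one_mul, inv_one, C]) (by simp only [mul_assoc, mul_inv_rev, inv_inv, mul_inv_cancel_left, inv_mul_cancel_left, mul_inv_cancel, inv_mul_cancel, mul_one, one_mul, inv_one, C])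
  exact ser_CAE_0_prop
    (fun b0 b1 b2 b3 => N0.i.r1 1 (k0.1 b0) (fun h => b1 (k1.2 h)) (fun h => b2 (k2.2 h)) (fun h => b3 (k3.2 h)))
    (fun b0 b1 b2 => N0.i.r0 1 (k1.1 b0) (fun h => b1 (k4.2 h)) (fun h => b2 (k5.2 h)))
    (fun b0 b1 b2 b3 => N0.rd.r1 1 (k6.1 b0) (fun h => b1 (k7.2 h)) (fun h => b2 (k8.2 h)) (fun h => b3 (k3.2 h)))
    (fun b0 b1 b2 b3 => N0.rd.r2 1 (fun h => b0 (k9.2 h)) (k10.1 b1) (fun h => b2 (k11.2 h)) (fun h => b3 (k3.2 h)))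
    (fun b0 b1 b2 b3 => N0.r.r2 1 (fun h => b0 (k12.2 h)) (k13.1 b1) (fun h => b2 (k14.2 h)) (fun h => b3 (k15.2 h)))
    (fun b0 b1 b2 => N1.r.r0 1 (fun h => b0 (k9.2 h)) (k16.1 b1) (fun h => b2 (k17.2 h)))
    (fun b0 b1 b2 => N1.r.r1 1 (fun h => b0 (k18.2 h)) (fun h => b1 (k19.2 h)) (k17.1 b2))
    (fun b0 b1 b2 => N1.rd.r0 1 (fun h => b0 (k12.2 h)) (k19.1 b1) (fun h => b2 (k20.2 h)))
    (fun b0 b1 b2 => N1.d.r0 1 (fun h => b0 (k21.2 h)) (k22.1 b1) (fun h => b2 (k23.2 h)))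
    (fun b0 b1 b2 => N1.d.r1 1 (fun h => b0 (k24.2 h)) (fun h => b1 (k25.2 h)) (k23.1 b2))
    (fun b0 b1 => o.asym (k26.1 b0) (k27.1 b1))
    (fun b0 b1 b2 => o.tri (k28.1 b0) (fun h => b1 (k29.2 h)) (fun h => b2 (k30.2 h)))
    (fun b0 b1 => o.asym (k31.1 b0) (k32.1 b1))
    (fun b0 b1 b2 => o.tri (k33.1 b0) (fun h => b1 (k34.2 h)) (fun h => b2 (k35.2 h)))
    (fun b0 b1 b2 => o.tri (k33.1 b0) (fun h => b1 (k36.2 h)) (fun h => b2 (k32.2 h)))
    (fun b0 b1 => o.asym (k34.1 b0) (k37.1 b1))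
    (fun b0 b1 => o.asym (k30.1 b0) (k38.1 b1))
    (fun b0 b1 b2 => o.tri (k39.1 b0) (fun h => b1 (k35.2 h)) (fun h => b2 (k31.2 h)))
    (fun b0 b1 => o.asym (k40.1 b0) (k41.1 b1))
    (fun b0 b1 b2 => o.tri (k42.1 b0) (fun h => b1 (k43.2 h)) (fun h => b2 (k44.2 h)))
    (fun b0 b1 b2 => o.tri (k41.1 b0) (fun h => b1 (k43.2 h)) (fun h => b2 (k45.2 h)))
    (fun b0 b1 => o.asym (k46.1 b0) (k47.1 b1))
    (fun b0 b1 b2 => o.tri (k46.1 b0) (fun h => b1 (k42.2 h)) (fun h => b2 (k48.2 h)))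
    (fun b0 b1 => o.asym (k43.1 b0) (k49.1 b1))
    (fun b0 b1 b2 => o.tri (k50.1 b0) (fun h => b1 (k46.2 h)) (fun h => b2 (k51.2 h)))
    (fun b0 b1 b2 => o.tri (k47.1 b0) (fun h => b1 (k52.2 h)) (fun h => b2 (k53.2 h)))
    (fun b0 b1 b2 => o.tri (k44.1 b0) (fun h => b1 (k54.2 h)) (fun h => b2 (k55.2 h)))
    (fun b0 b1 b2 => o.tri (k45.1 b0) (fun h => b1 (k54.2 h)) (fun h => b2 (k56.2 h)))
    (fun b0 b1 b2 => o.tri (k55.1 b0) (fun h => b1 (k56.2 h)) (fun h => b2 (k57.2 h)))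
    (k26.2 g0)
    (fun h => g1 (k58.1 h))
    (fun h => g2 (k59.1 h))

theorem ser_CAE_1_prop {A1 A2 A3 A4 A5 A6 A7 A8 A9 A10 A11 A12 A13 A14 A15 A16 A17 A18 A19 A20 A21 A22 A23 A24 A25 A26 A27 A28 A29 A30 A31 A32 A33 A34 A35 A36 A37 A38 A39 A40 A41 A42 : Prop}
    (c0 : ¬ A33 → A30 → ¬ A34 → ¬ A22 → False)
    (c1 : A26 → ¬ A37 → ¬ A28 → False)
    (c2 : A26 → ¬ A34 → ¬ A38 → False)
    (c3 : A32 → ¬ A26 → ¬ A34 → ¬ A22 → False)
    (c4 : ¬ A38 → A40 → ¬ A35 → ¬ A26 → False)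
    (c5 : ¬ A26 → ¬ A39 → A24 → False)
    (c6 : ¬ A41 → A39 → ¬ A21 → False)
    (c7 : ¬ A1 → A27 → ¬ A19 → False)
    (c8 : ¬ A22 → ¬ A25 → A19 → False)
    (c9 : A3 → ¬ A6 → ¬ A14 → False)
    (c10 : ¬ A8 → A13 → ¬ A4 → ¬ A1 → False)
    (c11 : ¬ A1 → ¬ A9 → A17 → False)
    (c12 : ¬ A14 → A9 → ¬ A16 → False)
    (c13 : A28 → A33 → False)
    (c14 : A29 → ¬ A30 → ¬ A22 → False)
    (c15 : A31 → ¬ A29 → ¬ A27 → False)
    (c16 : A34 → ¬ A27 → ¬ A2 → False)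
    (c17 : A27 → A25 → False)
    (c18 : A18 → ¬ A27 → ¬ A1 → False)
    (c19 : A21 → ¬ A22 → ¬ A27 → False)
    (c20 : A1 → A3 → False)
    (c21 : A5 → ¬ A2 → ¬ A28 → False)
    (c22 : A10 → ¬ A15 → ¬ A22 → False)
    (c23 : A3 → ¬ A2 → ¬ A31 → False)
    (c24 : A3 → ¬ A10 → ¬ A27 → False)
    (c25 : A35 → ¬ A22 → ¬ A32 → False)
    (c26 : A36 → A42 → False)
    (c27 : A20 → ¬ A36 → ¬ A22 → False)
    (c28 : A37 → ¬ A39 → ¬ A42 → False)
    (c29 : A38 → A41 → False)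
    (c30 : A41 → ¬ A40 → ¬ A32 → False)
    (c31 : A10 → ¬ A24 → ¬ A41 → False)
    (c32 : A7 → ¬ A5 → ¬ A20 → False)
    (c33 : A6 → ¬ A7 → ¬ A23 → False)
    (c34 : A12 → A6 → False)
    (c35 : A11 → ¬ A12 → ¬ A7 → False)
    (c36 : A4 → ¬ A5 → ¬ A18 → False)
    (c37 : A8 → A14 → False)
    (c38 : A15 → ¬ A13 → ¬ A2 → False)
    (c39 : A16 → ¬ A14 → ¬ A11 → False)
    (c40 : A23 → ¬ A17 → ¬ A14 → False)
    (u0 : ¬ A2)
    (u1 : A3)
    (u2 : ¬ A22)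
    : False := by
  have q1 : ¬ A1 := fun h => c20 h u1
  have q2 : A31 := Classical.byContradiction fun h => c23 u1 u0 h
  rcases Classical.em A27 with q3 | q3
  · have q4 : A19 := Classical.byContradiction fun h => c7 q1 q3 h
    have q5 : A25 := Classical.byContradiction fun h => c8 u2 h q4
    exact c17 q3 q5
  · have q6 : A29 := Classical.byContradiction fun h => c15 q2 h q3
    have q7 : A30 := Classical.byContradiction fun h => c14 q6 h u2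
    have q8 : ¬ A34 := fun h => c16 h q3 u0
    have q9 : A33 := Classical.byContradiction fun h => c0 h q7 q8 u2
    have q10 : ¬ A28 := fun h => c13 h q9
    have q11 : ¬ A18 := fun h => c18 h q3 q1
    have q12 : ¬ A21 := fun h => c19 h u2 q3
    have q13 : ¬ A5 := fun h => c21 h u0 q10
    have q14 : A10 := Classical.byContradiction fun h => c24 u1 h q3
    have q15 : A15 := Classical.byContradiction fun h => c22 q14 h u2
    have q16 : ¬ A4 := fun h => c36 h q13 q11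
    have q17 : A13 := Classical.byContradiction fun h => c38 q15 h u0
    have q18 : A8 := Classical.byContradiction fun h => c10 h q17 q16 q1
    have q19 : ¬ A14 := fun h => c37 q18 h
    have q20 : A6 := Classical.byContradiction fun h => c9 u1 h q19
    have q21 : ¬ A12 := fun h => c34 h q20
    rcases Classical.em A26 with q22 | q22
    · have q23 : A37 := Classical.byContradiction fun h => c1 q22 h q10
      have q24 : A38 := Classical.byContradiction fun h => c2 q22 q8 h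
      have q25 : ¬ A41 := fun h => c29 q24 h
      have q26 : ¬ A39 := fun h => c6 q25 h q12
      have q27 : A42 := Classical.byContradiction fun h => c28 q23 q26 h
      have q28 : ¬ A36 := fun h => c26 h q27
      have q29 : ¬ A20 := fun h => c27 h q28 u2
      have q30 : A24 := Classical.byContradiction fun h => c31 q14 h q25
      have q31 : ¬ A7 := fun h => c32 h q13 q29
      have q32 : A23 := Classical.byContradiction fun h => c33 q20 q31 h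
      have q33 : ¬ A11 := fun h => c35 h q21 q31
      have q34 : ¬ A16 := fun h => c39 h q19 q33
      have q35 : ¬ A9 := fun h => c12 q19 h q34
      have q36 : ¬ A17 := fun h => c11 q1 q35 h
      exact c40 q32 q36 q19
    · have q37 : ¬ A32 := fun h => c3 h q22 q8 u2
      have q38 : ¬ A35 := fun h => c25 h u2 q37
      rcases Classical.em A41 with q39 | q39
      · have q40 : ¬ A38 := fun h => c29 h q39
        have q41 : ¬ A40 := fun h => c4 q40 h q38 q22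
        exact c30 q39 q41 q37
      · have q42 : ¬ A39 := fun h => c6 q39 h q12
        have q43 : ¬ A24 := fun h => c5 q22 q42 h
        exact c31 q14 q43 q39

theorem ser_CAE_1 {G : Type*} [Group G] {δ : G → ZMod 3} (hδ : ∀ u v, δ (u * v) = δ u + δ v) (o : Pre δ)
    {P m Q f g : G} {e : ZMod 3} (h3 : 3 * e = 0)
    (D : δ P = e ∧ δ m = -e ∧ δ Q = e ∧ δ f = 0 ∧ δ g = 0)
    (C : Cube P f ∧ Cube P g ∧ Cube m f ∧ Cube m g ∧ Cube Q f ∧ Cube Q g)
    (N0 : RC o P m f g)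
    (N1 : RA o Q m g f)
    (g0 : ¬ o.lt (Q * f⁻¹) (P * f⁻¹)) (g1 : o.lt (Q * f⁻¹) (Q * g⁻¹)) (g2 : ¬ o.lt ((P * g⁻¹)⁻¹) ((P * f⁻¹)⁻¹)) : False := by
  simp only [Cube] at C
  have e0 : δ (Q * g⁻¹) = δ (Q * f⁻¹) := by simp only [hδ, δinv hδ, δone hδ, D] <;> linear_combination (0) * h3
  have e1 : δ (Q * g⁻¹) = δ (P * g⁻¹) := by simp only [hδ, δinv hδ, δone hδ, D] <;> linear_combination (0) * h3
  have e2 : δ (Q * (f⁻¹ * (g * m⁻¹))) = δ (Q * m⁻¹) := by simp only [hδ, δinv hδ, δone hδ, D] <;> linear_combination (0) * h3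
  have e3 : δ (Q * (f⁻¹ * (g * P⁻¹))) = δ (Q * (m⁻¹ * (f * m⁻¹))) := by simp only [hδ, δinv hδ, δone hδ, D] <;> linear_combination (-1) * h3
  have e4 : δ (Q * f⁻¹) = δ (P * g⁻¹) := by simp only [hδ, δinv hδ, δone hδ, D] <;> linear_combination (0) * h3
  have e5 : δ (Q * (f⁻¹ * (P * g⁻¹))) = δ (Q * m⁻¹) := by simp only [hδ, δinv hδ, δone hδ, D] <;> linear_combination (0) * h3
  have e6 : δ (Q * (f⁻¹ * (P * g⁻¹))) = δ (f * Q⁻¹) := by simp only [hδ, δinv hδ, δone hδ, D] <;> linear_combination (1) * h3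
  have e7 : δ (Q * (m⁻¹ * (f * m⁻¹))) = δ (Q * (f⁻¹ * (m * g⁻¹))) := by simp only [hδ, δinv hδ, δone hδ, D] <;> linear_combination (1) * h3
  have e8 : δ (Q * (m⁻¹ * (f * m⁻¹))) = δ (Q * (f⁻¹ * (g * Q⁻¹))) := by simp only [hδ, δinv hδ, δone hδ, D] <;> linear_combination (1) * h3
  have e9 : δ (Q * f⁻¹) = δ (f * m⁻¹) := by simp only [hδ, δinv hδ, δone hδ, D] <;> linear_combination (0) * h3
  have e10 : δ (Q * m⁻¹) = δ (f * Q⁻¹) := by simp only [hδ, δinv hδ, δone hδ, D] <;> linear_combination (1) * h3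
  have e11 : δ (Q * m⁻¹) = δ (Q * (f⁻¹ * (P * g⁻¹))) := by simp only [hδ, δinv hδ, δone hδ, D] <;> linear_combination (0) * h3
  have e12 : δ (Q * (f⁻¹ * (m * g⁻¹))) = δ (Q * P⁻¹) := by simp only [hδ, δinv hδ, δone hδ, D] <;> linear_combination (0) * h3
  have e13 : δ (Q * (f⁻¹ * (m * g⁻¹))) = δ (Q * (m⁻¹ * (f * m⁻¹))) := by simp only [hδ, δinv hδ, δone hδ, D] <;> linear_combination (-1) * h3
  have e14 : δ (Q * f⁻¹) = δ (g * m⁻¹) := by simp only [hδ, δinv hδ, δone hδ, D] <;> linear_combination (0) * h3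
  have e15 : δ (Q * (f⁻¹ * (g * m⁻¹))) = δ (f * (Q⁻¹ * (f * g⁻¹))) := by simp only [hδ, δinv hδ, δone hδ, D] <;> linear_combination (1) * h3
  have e16 : δ (f * (Q⁻¹ * (f * g⁻¹))) = δ (Q * (f⁻¹ * (g * m⁻¹))) := by simp only [hδ, δinv hδ, δone hδ, D] <;> linear_combination (-1) * h3
  have e17 : δ (f * m⁻¹) = δ (Q * f⁻¹) := by simp only [hδ, δinv hδ, δone hδ, D] <;> linear_combination (0) * h3
  have e18 : δ (m * f⁻¹) = δ (f * Q⁻¹) := by simp only [hδ, δinv hδ, δone hδ, D] <;> linear_combination (0) * h3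
  have e19 : δ (g * P⁻¹) = δ (f * Q⁻¹) := by simp only [hδ, δinv hδ, δone hδ, D] <;> linear_combination (0) * h3
  have e20 : δ (g * m⁻¹) = δ (Q * g⁻¹) := by simp only [hδ, δinv hδ, δone hδ, D] <;> linear_combination (0) * h3
  have e21 : δ (g) = δ (f) := by simp only [hδ, δinv hδ, δone hδ, D] <;> linear_combination (0) * h3
  have e22 : δ (f * Q⁻¹) = δ (Q * m⁻¹) := by simp only [hδ, δinv hδ, δone hδ, D] <;> linear_combination (-1) * h3
  have e23 : δ (Q * g⁻¹) = δ (g * m⁻¹) := by simp only [hδ, δinv hδ, δone hδ, D] <;> linear_combination (0) * h3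
  have e24 : δ (Q * g⁻¹) = δ (f * m⁻¹) := by simp only [hδ, δinv hδ, δone hδ, D] <;> linear_combination (0) * h3
  have e25 : δ (f * P⁻¹) = δ (g * P⁻¹) := by simp only [hδ, δinv hδ, δone hδ, D] <;> linear_combination (0) * h3
  have e26 : δ (f * m⁻¹) = δ (Q * g⁻¹) := by simp only [hδ, δinv hδ, δone hδ, D] <;> linear_combination (0) * h3
  have e27 : δ (P * f⁻¹) = δ (P * g⁻¹) := by simp only [hδ, δinv hδ, δone hδ, D] <;> linear_combination (0) * h3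
  have e28 : δ (P * f⁻¹) = δ (f * m⁻¹) := by simp only [hδ, δinv hδ, δone hδ, D] <;> linear_combination (0) * h3
  have e29 : δ (P * f⁻¹) = δ (g * m⁻¹) := by simp only [hδ, δinv hδ, δone hδ, D] <;> linear_combination (0) * h3
  have e30 : δ (P * f⁻¹) = δ (Q * g⁻¹) := by simp only [hδ, δinv hδ, δone hδ, D] <;> linear_combination (0) * h3
  have e31 : δ (f * P⁻¹) = δ (m * f⁻¹) := by simp only [hδ, δinv hδ, δone hδ, D] <;> linear_combination (0) * h3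
  have e32 : δ (P * g⁻¹) = δ (P * f⁻¹) := by simp only [hδ, δinv hδ, δone hδ, D] <;> linear_combination (0) * h3
  have e33 : δ (f * m⁻¹) = δ (P * g⁻¹) := by simp only [hδ, δinv hδ, δone hδ, D] <;> linear_combination (0) * h3
  have e34 : δ (g * P⁻¹) = δ (m * f⁻¹) := by simp only [hδ, δinv hδ, δone hδ, D] <;> linear_combination (0) * h3
  have e35 : δ (g * P⁻¹) = δ (g * Q⁻¹) := by simp only [hδ, δinv hδ, δone hδ, D] <;> linear_combination (0) * h3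
  have e36 : δ (m * f⁻¹) = δ (g * P⁻¹) := by simp only [hδ, δinv hδ, δone hδ, D] <;> linear_combination (0) * h3
  have e37 : δ (m * f⁻¹) = δ (m * g⁻¹) := by simp only [hδ, δinv hδ, δone hδ, D] <;> linear_combination (0) * h3
  have e38 : δ (m * f⁻¹) = δ (g * Q⁻¹) := by simp only [hδ, δinv hδ, δone hδ, D] <;> linear_combination (0) * h3
  have e39 : δ (m * g⁻¹) = δ (f * P⁻¹) := by simp only [hδ, δinv hδ, δone hδ, D] <;> linear_combination (0) * h3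
  have e40 : δ (m * g⁻¹) = δ (m * f⁻¹) := by simp only [hδ, δinv hδ, δone hδ, D] <;> linear_combination (0) * h3
  have e41 : δ (g * Q⁻¹) = δ (g * P⁻¹) := by simp only [hδ, δinv hδ, δone hδ, D] <;> linear_combination (0) * h3
  have k0 : o.lt (P * g⁻¹) (P * f⁻¹) ↔ o.lt (1 * (P * g⁻¹)) (1 * (P * f⁻¹)) := o.cv hδ (1) e32 (by simp only [mul_assoc, mul_inv_rev, inv_inv, mul_inv_cancel_left, inv_mul_cancel_left, mul_inv_cancel, inv_mul_cancel, mul_one, one_mul, inv_one, C]) (by simp only [mul_assoc, mul_inv_rev, inv_inv, mul_inv_cancel_left, inv_mul_cancel_left, mul_inv_cancel, inv_mul_cancel, mul_one, one_mul, inv_one, C])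
  have k1 : o.lt (P * f⁻¹) (g * m⁻¹) ↔ o.lt (1 * (P * f⁻¹)) (1 * (g * m⁻¹)) := o.cv hδ (1) e29 (by simp only [mul_assoc, mul_inv_rev, inv_inv, mul_inv_cancel_left, inv_mul_cancel_left, mul_inv_cancel, inv_mul_cancel, mul_one, one_mul, inv_one, C]) (by simp only [mul_assoc, mul_inv_rev, inv_inv, mul_inv_cancel_left, inv_mul_cancel_left, mul_inv_cancel, inv_mul_cancel, mul_one, one_mul, inv_one, C])
  have k2 : o.lt (f * m⁻¹) (P * g⁻¹) ↔ o.lt (1 * (f * m⁻¹)) (1 * (P * g⁻¹)) := o.cv hδ (1) e33 (by simp only [mul_assoc, mul_inv_rev, inv_inv, mul_inv_cancel_left, inv_mul_cancel_left, mul_inv_cancel, inv_mul_cancel, mul_one, one_mul, inv_one, C]) (by simp only [mul_assoc, mul_inv_rev, inv_inv, mul_inv_cancel_left, inv_mul_cancel_left, mul_inv_cancel, inv_mul_cancel, mul_one, one_mul, inv_one, C])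
  have k3 : o.lt (g) (f) ↔ o.lt (1 * g) (1 * f) := o.cv hδ (1) e21 (by simp only [mul_assoc, mul_inv_rev, inv_inv, mul_inv_cancel_left, inv_mul_cancel_left, mul_inv_cancel, inv_mul_cancel, mul_one, one_mul, inv_one, C]) (by simp only [mul_assoc, mul_inv_rev, inv_inv, mul_inv_cancel_left, inv_mul_cancel_left, mul_inv_cancel, inv_mul_cancel, mul_one, one_mul, inv_one, C])
  have k4 : o.lt (f * P⁻¹) (g * P⁻¹) ↔ o.lt (1 * (f * P⁻¹)) (1 * (g * P⁻¹)) := o.cv hδ (1) e25 (by simp only [mul_assoc, mul_inv_rev, inv_inv, mul_inv_cancel_left, inv_mul_cancel_left, mul_inv_cancel, inv_mul_cancel, mul_one, one_mul, inv_one, C]) (by simp only [mul_assoc, mul_inv_rev, inv_inv, mul_inv_cancel_left, inv_mul_cancel_left, mul_inv_cancel, inv_mul_cancel, mul_one, one_mul, inv_one, C])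
  have k5 : o.lt (m * f⁻¹) (g * P⁻¹) ↔ o.lt (1 * (m * f⁻¹)) (1 * (g * P⁻¹)) := o.cv hδ (1) e36 (by simp only [mul_assoc, mul_inv_rev, inv_inv, mul_inv_cancel_left, inv_mul_cancel_left, mul_inv_cancel, inv_mul_cancel, mul_one, one_mul, inv_one, C]) (by simp only [mul_assoc, mul_inv_rev, inv_inv, mul_inv_cancel_left, inv_mul_cancel_left, mul_inv_cancel, inv_mul_cancel, mul_one, one_mul, inv_one, C])
  have k6 : o.lt (P * f⁻¹) (P * g⁻¹) ↔ o.lt (1 * (f * P⁻¹)⁻¹) (1 * (g * P⁻¹)⁻¹) := o.cv hδ (1) e27 (by simp only [mul_assoc, mul_inv_rev, inv_inv, mul_inv_cancel_left, inv_mul_cancel_left, mul_inv_cancel, inv_mul_cancel, mul_one, one_mul, inv_one, C]) (by simp only [mul_assoc, mul_inv_rev, inv_inv, mul_inv_cancel_left, inv_mul_cancel_left, mul_inv_cancel, inv_mul_cancel, mul_one, one_mul, inv_one, C])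
  have k7 : o.lt (f * P⁻¹) (g * P⁻¹) ↔ o.lt (1 * (f * m⁻¹)) (1 * (g * m⁻¹)) := o.cv hδ (P * m⁻¹) e25 (by simp only [mul_assoc, mul_inv_rev, inv_inv, mul_inv_cancel_left, inv_mul_cancel_left, mul_inv_cancel, inv_mul_cancel, mul_one, one_mul, inv_one, C]) (by simp only [mul_assoc, mul_inv_rev, inv_inv, mul_inv_cancel_left, inv_mul_cancel_left, mul_inv_cancel, inv_mul_cancel, mul_one, one_mul, inv_one, C])
  have k8 : o.lt (m * f⁻¹) (m * g⁻¹) ↔ o.lt (1 * (f * m⁻¹)⁻¹) (1 * (g * m⁻¹)⁻¹) := o.cv hδ (1) e37 (by simp only [mul_assoc, mul_inv_rev, inv_inv, mul_inv_cancel_left, inv_mul_cancel_left, mul_inv_cancel, inv_mul_cancel, mul_one, one_mul, inv_one, C]) (by simp only [mul_assoc, mul_inv_rev, inv_inv, mul_inv_cancel_left, inv_mul_cancel_left, mul_inv_cancel, inv_mul_cancel, mul_one, one_mul, inv_one, C])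
  have k9 : o.lt (f * P⁻¹) (m * f⁻¹) ↔ o.lt (1 * (f * P⁻¹)) (1 * (m * f⁻¹)) := o.cv hδ (1) e31 (by simp only [mul_assoc, mul_inv_rev, inv_inv, mul_inv_cancel_left, inv_mul_cancel_left, mul_inv_cancel, inv_mul_cancel, mul_one, one_mul, inv_one, C]) (by simp only [mul_assoc, mul_inv_rev, inv_inv, mul_inv_cancel_left, inv_mul_cancel_left, mul_inv_cancel, inv_mul_cancel, mul_one, one_mul, inv_one, C])
  have k10 : o.lt (f * m⁻¹) (P * g⁻¹) ↔ o.lt (1 * (m * f⁻¹)⁻¹) (1 * (g * P⁻¹)⁻¹) := o.cv hδ (1) e33 (by simp only [mul_assoc, mul_inv_rev, inv_inv, mul_inv_cancel_left, inv_mul_cancel_left, mul_inv_cancel, inv_mul_cancel, mul_one, one_mul, inv_one, C]) (by simp only [mul_assoc, mul_inv_rev, inv_inv, mul_inv_cancel_left, inv_mul_cancel_left, mul_inv_cancel, inv_mul_cancel, mul_one, one_mul, inv_one, C])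
  have k11 : o.lt (m * f⁻¹) (m * g⁻¹) ↔ o.lt (1 * (m * f⁻¹)) (1 * (m * g⁻¹)) := o.cv hδ (1) e37 (by simp only [mul_assoc, mul_inv_rev, inv_inv, mul_inv_cancel_left, inv_mul_cancel_left, mul_inv_cancel, inv_mul_cancel, mul_one, one_mul, inv_one, C]) (by simp only [mul_assoc, mul_inv_rev, inv_inv, mul_inv_cancel_left, inv_mul_cancel_left, mul_inv_cancel, inv_mul_cancel, mul_one, one_mul, inv_one, C])
  have k12 : o.lt (m * g⁻¹) (f * P⁻¹) ↔ o.lt (1 * (m * g⁻¹)) (1 * (f * P⁻¹)) := o.cv hδ (1) e39 (by simp only [mul_assoc, mul_inv_rev, inv_inv, mul_inv_cancel_left, inv_mul_cancel_left, mul_inv_cancel, inv_mul_cancel, mul_one, one_mul, inv_one, C]) (by simp only [mul_assoc, mul_inv_rev, inv_inv, mul_inv_cancel_left, inv_mul_cancel_left, mul_inv_cancel, inv_mul_cancel, mul_one, one_mul, inv_one, C])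
  have k13 : o.lt (g * P⁻¹) (m * f⁻¹) ↔ o.lt (1 * (g * P⁻¹)) (1 * (m * f⁻¹)) := o.cv hδ (1) e34 (by simp only [mul_assoc, mul_inv_rev, inv_inv, mul_inv_cancel_left, inv_mul_cancel_left, mul_inv_cancel, inv_mul_cancel, mul_one, one_mul, inv_one, C]) (by simp only [mul_assoc, mul_inv_rev, inv_inv, mul_inv_cancel_left, inv_mul_cancel_left, mul_inv_cancel, inv_mul_cancel, mul_one, one_mul, inv_one, C])
  have k14 : o.lt (f * P⁻¹) (g * P⁻¹) ↔ o.lt (1 * f) (1 * g) := o.cv hδ (P) e25 (by simp only [mul_assoc, mul_inv_rev, inv_inv, mul_inv_cancel_left, inv_mul_cancel_left, mul_inv_cancel, inv_mul_cancel, mul_one, one_mul, inv_one, C]) (by simp only [mul_assoc, mul_inv_rev, inv_inv, mul_inv_cancel_left, inv_mul_cancel_left, mul_inv_cancel, inv_mul_cancel, mul_one, one_mul, inv_one, C])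
  have k15 : o.lt (f * P⁻¹) (g * P⁻¹) ↔ o.lt (1 * (f * Q⁻¹)) (1 * (g * Q⁻¹)) := o.cv hδ (P * Q⁻¹) e25 (by simp only [mul_assoc, mul_inv_rev, inv_inv, mul_inv_cancel_left, inv_mul_cancel_left, mul_inv_cancel, inv_mul_cancel, mul_one, one_mul, inv_one, C]) (by simp only [mul_assoc, mul_inv_rev, inv_inv, mul_inv_cancel_left, inv_mul_cancel_left, mul_inv_cancel, inv_mul_cancel, mul_one, one_mul, inv_one, C])
  have k16 : o.lt (m * f⁻¹) (g * Q⁻¹) ↔ o.lt (1 * (m * f⁻¹)) (1 * (g * Q⁻¹)) := o.cv hδ (1) e38 (by simp only [mul_assoc, mul_inv_rev, inv_inv, mul_inv_cancel_left, inv_mul_cancel_left, mul_inv_cancel, inv_mul_cancel, mul_one, one_mul, inv_one, C]) (by simp only [mul_assoc, mul_inv_rev, inv_inv, mul_inv_cancel_left, inv_mul_cancel_left, mul_inv_cancel, inv_mul_cancel, mul_one, one_mul, inv_one, C])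
  have k17 : o.lt (Q * g⁻¹) (g * m⁻¹) ↔ o.lt (1 * (g * Q⁻¹)⁻¹) (1 * (m * g⁻¹)⁻¹) := o.cv hδ (1) e23 (by simp only [mul_assoc, mul_inv_rev, inv_inv, mul_inv_cancel_left, inv_mul_cancel_left, mul_inv_cancel, inv_mul_cancel, mul_one, one_mul, inv_one, C]) (by simp only [mul_assoc, mul_inv_rev, inv_inv, mul_inv_cancel_left, inv_mul_cancel_left, mul_inv_cancel, inv_mul_cancel, mul_one, one_mul, inv_one, C])
  have k18 : o.lt (m * g⁻¹) (m * f⁻¹) ↔ o.lt (1 * (m * g⁻¹)) (1 * (m * f⁻¹)) := o.cv hδ (1) e40 (by simp only [mul_assoc, mul_inv_rev, inv_inv, mul_inv_cancel_left, inv_mul_cancel_left, mul_inv_cancel, inv_mul_cancel, mul_one, one_mul, inv_one, C]) (by simp only [mul_assoc, mul_inv_rev, inv_inv, mul_inv_cancel_left, inv_mul_cancel_left, mul_inv_cancel, inv_mul_cancel, mul_one, one_mul, inv_one, C])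
  have k19 : o.lt (g * m⁻¹) (Q * g⁻¹) ↔ o.lt (1 * (m * g⁻¹)⁻¹) (1 * (g * Q⁻¹)⁻¹) := o.cv hδ (1) e20 (by simp only [mul_assoc, mul_inv_rev, inv_inv, mul_inv_cancel_left, inv_mul_cancel_left, mul_inv_cancel, inv_mul_cancel, mul_one, one_mul, inv_one, C]) (by simp only [mul_assoc, mul_inv_rev, inv_inv, mul_inv_cancel_left, inv_mul_cancel_left, mul_inv_cancel, inv_mul_cancel, mul_one, one_mul, inv_one, C])
  have k20 : o.lt (Q * g⁻¹) (Q * f⁻¹) ↔ o.lt (1 * (Q * g⁻¹)) (1 * (Q * f⁻¹)) := o.cv hδ (1) e0 (by simp only [mul_assoc, mul_inv_rev, inv_inv, mul_inv_cancel_left, inv_mul_cancel_left, mul_inv_cancel, inv_mul_cancel, mul_one, one_mul, inv_one, C]) (by simp only [mul_assoc, mul_inv_rev, inv_inv, mul_inv_cancel_left, inv_mul_cancel_left, mul_inv_cancel, inv_mul_cancel, mul_one, one_mul, inv_one, C])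
  have k21 : o.lt (f * m⁻¹) (Q * g⁻¹) ↔ o.lt (1 * (f * m⁻¹)) (1 * (Q * g⁻¹)) := o.cv hδ (1) e26 (by simp only [mul_assoc, mul_inv_rev, inv_inv, mul_inv_cancel_left, inv_mul_cancel_left, mul_inv_cancel, inv_mul_cancel, mul_one, one_mul, inv_one, C]) (by simp only [mul_assoc, mul_inv_rev, inv_inv, mul_inv_cancel_left, inv_mul_cancel_left, mul_inv_cancel, inv_mul_cancel, mul_one, one_mul, inv_one, C])
  have k22 : o.lt (m * f⁻¹) (f * Q⁻¹) ↔ o.lt (1 * (f * m⁻¹)⁻¹) (1 * (Q * f⁻¹)⁻¹) := o.cv hδ (1) e18 (by simp only [mul_assoc, mul_inv_rev, inv_inv, mul_inv_cancel_left, inv_mul_cancel_left, mul_inv_cancel, inv_mul_cancel, mul_one, one_mul, inv_one, C]) (by simp only [mul_assoc, mul_inv_rev, inv_inv, mul_inv_cancel_left, inv_mul_cancel_left, mul_inv_cancel, inv_mul_cancel, mul_one, one_mul, inv_one, C])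
  have k23 : o.lt (g) (f) ↔ o.lt (1 * (g * m⁻¹)) (1 * (f * m⁻¹)) := o.cv hδ (m⁻¹) e21 (by simp only [mul_assoc, mul_inv_rev, inv_inv, mul_inv_cancel_left, inv_mul_cancel_left, mul_inv_cancel, inv_mul_cancel, mul_one, one_mul, inv_one, C]) (by simp only [mul_assoc, mul_inv_rev, inv_inv, mul_inv_cancel_left, inv_mul_cancel_left, mul_inv_cancel, inv_mul_cancel, mul_one, one_mul, inv_one, C])
  have k24 : o.lt (Q * g⁻¹) (f * m⁻¹) ↔ o.lt (1 * (Q * g⁻¹)) (1 * (f * m⁻¹)) := o.cv hδ (1) e24 (by simp only [mul_assoc, mul_inv_rev, inv_inv, mul_inv_cancel_left, inv_mul_cancel_left, mul_inv_cancel, inv_mul_cancel, mul_one, one_mul, inv_one, C]) (by simp only [mul_assoc, mul_inv_rev, inv_inv, mul_inv_cancel_left, inv_mul_cancel_left, mul_inv_cancel, inv_mul_cancel, mul_one, one_mul, inv_one, C])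
  have k25 : o.lt (Q * (f⁻¹ * (g * m⁻¹))) (Q * m⁻¹) ↔ o.lt ((Q * f⁻¹) * (g * m⁻¹)) ((Q * f⁻¹) * (f * m⁻¹)) := o.cv hδ (1) e2 (by simp only [mul_assoc, mul_inv_rev, inv_inv, mul_inv_cancel_left, inv_mul_cancel_left, mul_inv_cancel, inv_mul_cancel, mul_one, one_mul, inv_one, C]) (by simp only [mul_assoc, mul_inv_rev, inv_inv, mul_inv_cancel_left, inv_mul_cancel_left, mul_inv_cancel, inv_mul_cancel, mul_one, one_mul, inv_one, C])
  have k26 : o.lt (Q * (f⁻¹ * (P * g⁻¹))) (Q * m⁻¹) ↔ o.lt ((Q * f⁻¹) * (P * g⁻¹)) ((Q * f⁻¹) * (f * m⁻¹)) := o.cv hδ (1) e5 (by simp only [mul_assoc, mul_inv_rev, inv_inv, mul_inv_cancel_left, inv_mul_cancel_left, mul_inv_cancel, inv_mul_cancel, mul_one, one_mul, inv_one, C]) (by simp only [mul_assoc, mul_inv_rev, inv_inv, mul_inv_cancel_left, inv_mul_cancel_left, mul_inv_cancel, inv_mul_cancel, mul_one, one_mul, inv_one, C])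
  have k27 : o.lt (Q * (f⁻¹ * (m * g⁻¹))) (Q * (m⁻¹ * (f * m⁻¹))) ↔ o.lt ((Q * f⁻¹) * (g * m⁻¹)⁻¹) ((Q * f⁻¹) * (f * m⁻¹)⁻¹) := o.cv hδ (1) e13 (by simp only [mul_assoc, mul_inv_rev, inv_inv, mul_inv_cancel_left, inv_mul_cancel_left, mul_inv_cancel, inv_mul_cancel, mul_one, one_mul, inv_one, C]) (by simp only [mul_assoc, mul_inv_rev, inv_inv, mul_inv_cancel_left, inv_mul_cancel_left, mul_inv_cancel, inv_mul_cancel, mul_one, one_mul, inv_one, C])
  have k28 : o.lt (Q * (m⁻¹ * (f * m⁻¹))) (Q * (f⁻¹ * (m * g⁻¹))) ↔ o.lt ((Q * f⁻¹) * (m * f⁻¹)) ((Q * f⁻¹) * (m * g⁻¹)) := o.cv hδ (m * (f⁻¹ * (m * (f⁻¹ * (m * f⁻¹))))) e7 (by simp only [mul_assoc, mul_inv_rev, inv_inv, mul_inv_cancel_left, inv_mul_cancel_left, mul_inv_cancel, inv_mul_cancel, mul_one, one_mul, inv_one, C]) (by simp only [mul_assoc, mul_inv_rev, inv_inv, mul_inv_cancel_left, inv_mul_cancel_left, mul_inv_cancel, inv_mul_cancel, mul_one,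 one_mul, inv_one, C])
  have k29 : o.lt (Q * (f⁻¹ * (m * g⁻¹))) (Q * P⁻¹) ↔ o.lt ((Q * f⁻¹) * (m * g⁻¹)) ((Q * f⁻¹) * (f * P⁻¹)) := o.cv hδ (1) e12 (by simp only [mul_assoc, mul_inv_rev, inv_inv, mul_inv_cancel_left, inv_mul_cancel_left, mul_inv_cancel, inv_mul_cancel, mul_one, one_mul, inv_one, C]) (by simp only [mul_assoc, mul_inv_rev, inv_inv, mul_inv_cancel_left, inv_mul_cancel_left, mul_inv_cancel, inv_mul_cancel, mul_one, one_mul, inv_one, C])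
  have k30 : o.lt (Q * (f⁻¹ * (g * P⁻¹))) (Q * (m⁻¹ * (f * m⁻¹))) ↔ o.lt ((Q * f⁻¹) * (g * P⁻¹)) ((Q * f⁻¹) * (m * f⁻¹)) := o.cv hδ (1) e3 (by simp only [mul_assoc, mul_inv_rev, inv_inv, mul_inv_cancel_left, inv_mul_cancel_left, mul_inv_cancel, inv_mul_cancel, mul_one, one_mul, inv_one, C]) (by simp only [mul_assoc, mul_inv_rev, inv_inv, mul_inv_cancel_left, inv_mul_cancel_left, mul_inv_cancel, inv_mul_cancel, mul_one, one_mul, inv_one, C])
  have k31 : o.lt (Q * g⁻¹) (Q * f⁻¹) ↔ o.lt ((Q * f⁻¹) * f) ((Q * f⁻¹) * g) := o.cv hδ (g) e0 (by simp only [mul_assoc, mul_inv_rev, inv_inv, mul_inv_cancel_left, inv_mul_cancel_left, mul_inv_cancel, inv_mul_cancel, mul_one, one_mul, inv_one, C]) (by simp only [mul_assoc, mul_inv_rev, inv_inv, mul_inv_cancel_left, inv_mul_cancel_left, mul_inv_cancel, inv_mul_cancel, mul_one, one_mul, inv_one, C])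
  have k32 : o.lt (Q * g⁻¹) (Q * f⁻¹) ↔ o.lt ((Q * f⁻¹) * (f * Q⁻¹)) ((Q * f⁻¹) * (g * Q⁻¹)) := o.cv hδ (g * Q⁻¹) e0 (by simp only [mul_assoc, mul_inv_rev, inv_inv, mul_inv_cancel_left, inv_mul_cancel_left, mul_inv_cancel, inv_mul_cancel, mul_one, one_mul, inv_one, C]) (by simp only [mul_assoc, mul_inv_rev, inv_inv, mul_inv_cancel_left, inv_mul_cancel_left, mul_inv_cancel, inv_mul_cancel, mul_one, one_mul, inv_one, C])
  have k33 : o.lt (Q * (m⁻¹ * (f * m⁻¹))) (Q * (f⁻¹ * (g * Q⁻¹))) ↔ o.lt ((Q * f⁻¹) * (m * f⁻¹)) ((Q * f⁻¹) * (g * Q⁻¹)) := o.cv hδ (m * (f⁻¹ * (m * (f⁻¹ * (m * f⁻¹))))) e8 (by simp only [mul_assoc, mul_inv_rev, inv_inv, mul_inv_cancel_left, inv_mul_cancel_left, mul_inv_cancel, inv_mul_cancel, mul_one, one_mul, inv_one, C]) (by simp only [mul_assoc, mul_inv_rev, inv_inv, mul_inv_cancel_left, inv_mul_cancel_left, mul_inv_cancel, inv_mul_cancel, mul_one, one_mul, inv_one, C])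
  have k34 : o.lt (f * (Q⁻¹ * (f * g⁻¹))) (Q * (f⁻¹ * (g * m⁻¹))) ↔ o.lt ((Q * f⁻¹) * (g * Q⁻¹)⁻¹) ((Q * f⁻¹) * (m * g⁻¹)⁻¹) := o.cv hδ (g * (f⁻¹ * (Q * (f⁻¹ * (Q * (f⁻¹ * (Q * g⁻¹))))))) e16 (by simp only [mul_assoc, mul_inv_rev, inv_inv, mul_inv_cancel_left, inv_mul_cancel_left, mul_inv_cancel, inv_mul_cancel, mul_one, one_mul, inv_one, C]) (by simp only [mul_assoc, mul_inv_rev, inv_inv, mul_inv_cancel_left, inv_mul_cancel_left, mul_inv_cancel, inv_mul_cancel, mul_one, one_mul, inv_one, C])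
  have k35 : o.lt (Q * (f⁻¹ * (m * g⁻¹))) (Q * (m⁻¹ * (f * m⁻¹))) ↔ o.lt ((Q * f⁻¹) * (m * g⁻¹)) ((Q * f⁻¹) * (m * f⁻¹)) := o.cv hδ (1) e13 (by simp only [mul_assoc, mul_inv_rev, inv_inv, mul_inv_cancel_left, inv_mul_cancel_left, mul_inv_cancel, inv_mul_cancel, mul_one, one_mul, inv_one, C]) (by simp only [mul_assoc, mul_inv_rev, inv_inv, mul_inv_cancel_left, inv_mul_cancel_left, mul_inv_cancel, inv_mul_cancel, mul_one, one_mul, inv_one, C])
  have k36 : o.lt (Q * (f⁻¹ * (g * m⁻¹))) (f * (Q⁻¹ * (f * g⁻¹))) ↔ o.lt ((Q * f⁻¹) * (m * g⁻¹)⁻¹) ((Q * f⁻¹) * (g * Q⁻¹)⁻¹) := o.cv hδ (1) e15 (by simp only [mul_assoc, mul_inv_rev, inv_inv, mul_inv_cancel_left, inv_mul_cancel_left, mul_inv_cancel, inv_mul_cancel, mul_one, one_mul, inv_one, C]) (by simp only [mul_assoc, mul_inv_rev, inv_inv, mul_inv_cancel_left, inv_mul_cancel_left, mul_inv_cancel, inv_mul_cancel, mul_one, one_mul, inv_one, C])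
  have k37 : o.lt (P * f⁻¹) (P * g⁻¹) ↔ o.lt (P * f⁻¹) (P * g⁻¹) := o.cv hδ (1) e27 (by simp only [mul_assoc, mul_inv_rev, inv_inv, mul_inv_cancel_left, inv_mul_cancel_left, mul_inv_cancel, inv_mul_cancel, mul_one, one_mul, inv_one, C]) (by simp only [mul_assoc, mul_inv_rev, inv_inv, mul_inv_cancel_left, inv_mul_cancel_left, mul_inv_cancel, inv_mul_cancel, mul_one, one_mul, inv_one, C])
  have k38 : o.lt (P * g⁻¹) (P * f⁻¹) ↔ o.lt (P * g⁻¹) (P * f⁻¹) := o.cv hδ (1) e32 (by simp only [mul_assoc, mul_inv_rev, inv_inv, mul_inv_cancel_left, inv_mul_cancel_left, mul_inv_cancel, inv_mul_cancel, mul_one, one_mul, inv_one, C]) (by simp only [mul_assoc, mul_inv_rev, inv_inv, mul_inv_cancel_left, inv_mul_cancel_left, mul_inv_cancel, inv_mul_cancel, mul_one, one_mul, inv_one, C])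
  have k39 : o.lt (P * f⁻¹) (f * m⁻¹) ↔ o.lt (P * f⁻¹) (f * m⁻¹) := o.cv hδ (1) e28 (by simp only [mul_assoc, mul_inv_rev, inv_inv, mul_inv_cancel_left, inv_mul_cancel_left, mul_inv_cancel, inv_mul_cancel, mul_one, one_mul, inv_one, C]) (by simp only [mul_assoc, mul_inv_rev, inv_inv, mul_inv_cancel_left, inv_mul_cancel_left, mul_inv_cancel, inv_mul_cancel, mul_one, one_mul, inv_one, C])
  have k40 : o.lt (P * f⁻¹) (g * m⁻¹) ↔ o.lt (P * f⁻¹) (g * m⁻¹) := o.cv hδ (1) e29 (by simp only [mul_assoc, mul_inv_rev, inv_inv, mul_inv_cancel_left, inv_mul_cancel_left, mul_inv_cancel, inv_mul_cancel, mul_one, one_mul, inv_one, C]) (by simp only [mul_assoc, mul_inv_rev, inv_inv, mul_inv_cancel_left, inv_mul_cancel_left, mul_inv_cancel, inv_mul_cancel, mul_one, one_mul, inv_one, C])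
  have k41 : o.lt (g) (f) ↔ o.lt (g * m⁻¹) (f * m⁻¹) := o.cv hδ (m⁻¹) e21 (by simp only [mul_assoc, mul_inv_rev, inv_inv, mul_inv_cancel_left, inv_mul_cancel_left, mul_inv_cancel, inv_mul_cancel, mul_one, one_mul, inv_one, C]) (by simp only [mul_assoc, mul_inv_rev, inv_inv, mul_inv_cancel_left, inv_mul_cancel_left, mul_inv_cancel, inv_mul_cancel, mul_one, one_mul, inv_one, C])
  have k42 : o.lt (P * f⁻¹) (Q * g⁻¹) ↔ o.lt (P * f⁻¹) (Q * g⁻¹) := o.cv hδ (1) e30 (by simp only [mul_assoc, mul_inv_rev, inv_inv, mul_inv_cancel_left, inv_mul_cancel_left, mul_inv_cancel, inv_mul_cancel, mul_one, one_mul, inv_one, C]) (by simp only [mul_assoc, mul_inv_rev, inv_inv, mul_inv_cancel_left, inv_mul_cancel_left, mul_inv_cancel, inv_mul_cancel, mul_one, one_mul, inv_one, C])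
  have k43 : o.lt (f * m⁻¹) (Q * g⁻¹) ↔ o.lt (f * m⁻¹) (Q * g⁻¹) := o.cv hδ (1) e26 (by simp only [mul_assoc, mul_inv_rev, inv_inv, mul_inv_cancel_left, inv_mul_cancel_left, mul_inv_cancel, inv_mul_cancel, mul_one, one_mul, inv_one, C]) (by simp only [mul_assoc, mul_inv_rev, inv_inv, mul_inv_cancel_left, inv_mul_cancel_left, mul_inv_cancel, inv_mul_cancel, mul_one, one_mul, inv_one, C])
  have k44 : o.lt (f * m⁻¹) (P * g⁻¹) ↔ o.lt (f * m⁻¹) (P * g⁻¹) := o.cv hδ (1) e33 (by simp only [mul_assoc, mul_inv_rev, inv_inv, mul_inv_cancel_left, inv_mul_cancel_left, mul_inv_cancel, inv_mul_cancel, mul_one, one_mul, inv_one, C]) (by simp only [mul_assoc, mul_inv_rev, inv_inv, mul_inv_cancel_left, inv_mul_cancel_left, mul_inv_cancel, inv_mul_cancel, mul_one, one_mul, inv_one, C])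
  have k45 : o.lt (Q * g⁻¹) (P * g⁻¹) ↔ o.lt (Q * g⁻¹) (P * g⁻¹) := o.cv hδ (1) e1 (by simp only [mul_assoc, mul_inv_rev, inv_inv, mul_inv_cancel_left, inv_mul_cancel_left, mul_inv_cancel, inv_mul_cancel, mul_one, one_mul, inv_one, C]) (by simp only [mul_assoc, mul_inv_rev, inv_inv, mul_inv_cancel_left, inv_mul_cancel_left, mul_inv_cancel, inv_mul_cancel, mul_one, one_mul, inv_one, C])
  have k46 : o.lt (Q * g⁻¹) (f * m⁻¹) ↔ o.lt (Q * g⁻¹) (f * m⁻¹) := o.cv hδ (1) e24 (by simp only [mul_assoc, mul_inv_rev, inv_inv, mul_inv_cancel_left, inv_mul_cancel_left, mul_inv_cancel, inv_mul_cancel, mul_one, one_mul, inv_one, C]) (by simp only [mul_assoc, mul_inv_rev, inv_inv, mul_inv_cancel_left, inv_mul_cancel_left, mul_inv_cancel, inv_mul_cancel, mul_one, one_mul, inv_one, C])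
  have k47 : o.lt (f * m⁻¹) (Q * f⁻¹) ↔ o.lt (f * m⁻¹) (Q * f⁻¹) := o.cv hδ (1) e17 (by simp only [mul_assoc, mul_inv_rev, inv_inv, mul_inv_cancel_left, inv_mul_cancel_left, mul_inv_cancel, inv_mul_cancel, mul_one, one_mul, inv_one, C]) (by simp only [mul_assoc, mul_inv_rev, inv_inv, mul_inv_cancel_left, inv_mul_cancel_left, mul_inv_cancel, inv_mul_cancel, mul_one, one_mul, inv_one, C])
  have k48 : o.lt (Q * g⁻¹) (Q * f⁻¹) ↔ o.lt (Q * g⁻¹) (Q * f⁻¹) := o.cv hδ (1) e0 (by simp only [mul_assoc, mul_inv_rev, inv_inv, mul_inv_cancel_left, inv_mul_cancel_left, mul_inv_cancel, inv_mul_cancel, mul_one, one_mul, inv_one, C]) (by simp only [mul_assoc, mul_inv_rev, inv_inv, mul_inv_cancel_left, inv_mul_cancel_left, mul_inv_cancel, inv_mul_cancel, mul_one, one_mul, inv_one, C])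
  have k49 : o.lt (g * m⁻¹) (Q * g⁻¹) ↔ o.lt (g * m⁻¹) (Q * g⁻¹) := o.cv hδ (1) e20 (by simp only [mul_assoc, mul_inv_rev, inv_inv, mul_inv_cancel_left, inv_mul_cancel_left, mul_inv_cancel, inv_mul_cancel, mul_one, one_mul, inv_one, C]) (by simp only [mul_assoc, mul_inv_rev, inv_inv, mul_inv_cancel_left, inv_mul_cancel_left, mul_inv_cancel, inv_mul_cancel, mul_one, one_mul, inv_one, C])
  have k50 : o.lt (Q * (f⁻¹ * (g * m⁻¹))) (Q * m⁻¹) ↔ o.lt (Q * f⁻¹) (Q * g⁻¹) := o.cv hδ (m * g⁻¹) e2 (by simp only [mul_assoc, mul_inv_rev, inv_inv, mul_inv_cancel_left, inv_mul_cancel_left, mul_inv_cancel, inv_mul_cancel, mul_one, one_mul, inv_one, C]) (by simp only [mul_assoc, mul_inv_rev, inv_inv, mul_inv_cancel_left, inv_mul_cancel_left, mul_inv_cancel, inv_mul_cancel, mul_one, one_mul, inv_one, C])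
  have k51 : o.lt (Q * f⁻¹) (P * g⁻¹) ↔ o.lt (Q * f⁻¹) (P * g⁻¹) := o.cv hδ (1) e4 (by simp only [mul_assoc, mul_inv_rev, inv_inv, mul_inv_cancel_left, inv_mul_cancel_left, mul_inv_cancel, inv_mul_cancel, mul_one, one_mul, inv_one, C]) (by simp only [mul_assoc, mul_inv_rev, inv_inv, mul_inv_cancel_left, inv_mul_cancel_left, mul_inv_cancel, inv_mul_cancel, mul_one, one_mul, inv_one, C])
  have k52 : o.lt (Q * g⁻¹) (P * g⁻¹) ↔ o.lt (Q * f⁻¹) (P * f⁻¹) := o.cv hδ (g * f⁻¹) e1 (by simp only [mul_assoc, mul_inv_rev, inv_inv, mul_inv_cancel_left, inv_mul_cancel_left, mul_inv_cancel, inv_mul_cancel, mul_one, one_mul, inv_one, C]) (by simp only [mul_assoc, mul_inv_rev, inv_inv, mul_inv_cancel_left, inv_mul_cancel_left, mul_inv_cancel, inv_mul_cancel, mul_one, one_mul, inv_one, C])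
  have k53 : o.lt (Q * f⁻¹) (f * m⁻¹) ↔ o.lt (Q * f⁻¹) (f * m⁻¹) := o.cv hδ (1) e9 (by simp only [mul_assoc, mul_inv_rev, inv_inv, mul_inv_cancel_left, inv_mul_cancel_left, mul_inv_cancel, inv_mul_cancel, mul_one, one_mul, inv_one, C]) (by simp only [mul_assoc, mul_inv_rev, inv_inv, mul_inv_cancel_left, inv_mul_cancel_left, mul_inv_cancel, inv_mul_cancel, mul_one, one_mul, inv_one, C])
  have k54 : o.lt (Q * f⁻¹) (g * m⁻¹) ↔ o.lt (Q * f⁻¹) (g * m⁻¹) := o.cv hδ (1) e14 (by simp only [mul_assoc, mul_inv_rev, inv_inv, mul_inv_cancel_left, inv_mul_cancel_left, mul_inv_cancel, inv_mul_cancel, mul_one, one_mul, inv_one, C]) (by simp only [mul_assoc, mul_inv_rev, inv_inv, mul_inv_cancel_left, inv_mul_cancel_left, mul_inv_cancel, inv_mul_cancel, mul_one, one_mul, inv_one, C])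
  have k55 : o.lt (g * P⁻¹) (m * f⁻¹) ↔ o.lt (g * P⁻¹) (m * f⁻¹) := o.cv hδ (1) e34 (by simp only [mul_assoc, mul_inv_rev, inv_inv, mul_inv_cancel_left, inv_mul_cancel_left, mul_inv_cancel, inv_mul_cancel, mul_one, one_mul, inv_one, C]) (by simp only [mul_assoc, mul_inv_rev, inv_inv, mul_inv_cancel_left, inv_mul_cancel_left, mul_inv_cancel, inv_mul_cancel, mul_one, one_mul, inv_one, C])
  have k56 : o.lt (g) (f) ↔ o.lt (g * P⁻¹) (f * P⁻¹) := o.cv hδ (P⁻¹) e21 (by simp only [mul_assoc, mul_inv_rev, inv_inv, mul_inv_cancel_left, inv_mul_cancel_left, mul_inv_cancel, inv_mul_cancel, mul_one, one_mul, inv_one, C]) (by simp only [mul_assoc, mul_inv_rev, inv_inv, mul_inv_cancel_left, inv_mul_cancel_left, mul_inv_cancel, inv_mul_cancel, mul_one, one_mul, inv_one, C])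
  have k57 : o.lt (f * P⁻¹) (m * f⁻¹) ↔ o.lt (f * P⁻¹) (m * f⁻¹) := o.cv hδ (1) e31 (by simp only [mul_assoc, mul_inv_rev, inv_inv, mul_inv_cancel_left, inv_mul_cancel_left, mul_inv_cancel, inv_mul_cancel, mul_one, one_mul, inv_one, C]) (by simp only [mul_assoc, mul_inv_rev, inv_inv, mul_inv_cancel_left, inv_mul_cancel_left, mul_inv_cancel, inv_mul_cancel, mul_one, one_mul, inv_one, C])
  have k58 : o.lt (g * P⁻¹) (g * Q⁻¹) ↔ o.lt (g * P⁻¹) (g * Q⁻¹) := o.cv hδ (1) e35 (by simp only [mul_assoc, mul_inv_rev, inv_inv, mul_inv_cancel_left, inv_mul_cancel_left, mul_inv_cancel, inv_mul_cancel, mul_one, one_mul, inv_one, C]) (by simp only [mul_assoc, mul_inv_rev, inv_inv, mul_inv_cancel_left, inv_mul_cancel_left, mul_inv_cancel, inv_mul_cancel, mul_one, one_mul, inv_one, C])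
  have k59 : o.lt (g * Q⁻¹) (g * P⁻¹) ↔ o.lt (g * Q⁻¹) (g * P⁻¹) := o.cv hδ (1) e41 (by simp only [mul_assoc, mul_inv_rev, inv_inv, mul_inv_cancel_left, inv_mul_cancel_left, mul_inv_cancel, inv_mul_cancel, mul_one, one_mul, inv_one, C]) (by simp only [mul_assoc, mul_inv_rev, inv_inv, mul_inv_cancel_left, inv_mul_cancel_left, mul_inv_cancel, inv_mul_cancel, mul_one, one_mul, inv_one, C])
  have k60 : o.lt (g * P⁻¹) (f * Q⁻¹) ↔ o.lt (g * P⁻¹) (f * Q⁻¹) := o.cv hδ (1) e19 (by simp only [mul_assoc, mul_inv_rev, inv_inv, mul_inv_cancel_left, inv_mul_cancel_left, mul_inv_cancel, inv_mul_cancel, mul_one, one_mul, inv_one, C]) (by simp only [mul_assoc, mul_inv_rev, inv_inv, mul_inv_cancel_left, inv_mul_cancel_left, mul_inv_cancel, inv_mul_cancel, mul_one, one_mul, inv_one, C])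
  have k61 : o.lt (g) (f) ↔ o.lt (g * Q⁻¹) (f * Q⁻¹) := o.cv hδ (Q⁻¹) e21 (by simp only [mul_assoc, mul_inv_rev, inv_inv, mul_inv_cancel_left, inv_mul_cancel_left, mul_inv_cancel, inv_mul_cancel, mul_one, one_mul, inv_one, C]) (by simp only [mul_assoc, mul_inv_rev, inv_inv, mul_inv_cancel_left, inv_mul_cancel_left, mul_inv_cancel, inv_mul_cancel, mul_one, one_mul, inv_one, C])
  have k62 : o.lt (m * f⁻¹) (g * P⁻¹) ↔ o.lt (m * f⁻¹) (g * P⁻¹) := o.cv hδ (1) e36 (by simp only [mul_assoc, mul_inv_rev, inv_inv, mul_inv_cancel_left, inv_mul_cancel_left, mul_inv_cancel, inv_mul_cancel, mul_one, one_mul, inv_one, C]) (by simp only [mul_assoc, mul_inv_rev, inv_inv, mul_inv_cancel_left, inv_mul_cancel_left, mul_inv_cancel, inv_mul_cancel, mul_one, one_mul, inv_one, C])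
  have k63 : o.lt (m * f⁻¹) (g * Q⁻¹) ↔ o.lt (m * f⁻¹) (g * Q⁻¹) := o.cv hδ (1) e38 (by simp only [mul_assoc, mul_inv_rev, inv_inv, mul_inv_cancel_left, inv_mul_cancel_left, mul_inv_cancel, inv_mul_cancel, mul_one, one_mul, inv_one, C]) (by simp only [mul_assoc, mul_inv_rev, inv_inv, mul_inv_cancel_left, inv_mul_cancel_left, mul_inv_cancel, inv_mul_cancel, mul_one, one_mul, inv_one, C])
  have k64 : o.lt (m * f⁻¹) (m * g⁻¹) ↔ o.lt (m * f⁻¹) (m * g⁻¹) := o.cv hδ (1) e37 (by simp only [mul_assoc, mul_inv_rev, inv_inv, mul_inv_cancel_left, inv_mul_cancel_left, mul_inv_cancel, inv_mul_cancel, mul_one, one_mul, inv_one, C]) (by simp only [mul_assoc, mul_inv_rev, inv_inv, mul_inv_cancel_left, inv_mul_cancel_left, mul_inv_cancel, inv_mul_cancel, mul_one, one_mul, inv_one, C])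
  have k65 : o.lt (m * g⁻¹) (m * f⁻¹) ↔ o.lt (m * g⁻¹) (m * f⁻¹) := o.cv hδ (1) e40 (by simp only [mul_assoc, mul_inv_rev, inv_inv, mul_inv_cancel_left, inv_mul_cancel_left, mul_inv_cancel, inv_mul_cancel, mul_one, one_mul, inv_one, C]) (by simp only [mul_assoc, mul_inv_rev, inv_inv, mul_inv_cancel_left, inv_mul_cancel_left, mul_inv_cancel, inv_mul_cancel, mul_one, one_mul, inv_one, C])
  have k66 : o.lt (m * g⁻¹) (f * P⁻¹) ↔ o.lt (m * g⁻¹) (f * P⁻¹) := o.cv hδ (1) e39 (by simp only [mul_assoc, mul_inv_rev, inv_inv, mul_inv_cancel_left, inv_mul_cancel_left, mul_inv_cancel, inv_mul_cancel, mul_one, one_mul, inv_one, C]) (by simp only [mul_assoc, mul_inv_rev, inv_inv, mul_inv_cancel_left, inv_mul_cancel_left, mul_inv_cancel, inv_mul_cancel, mul_one, one_mul, inv_one, C])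
  have k67 : o.lt (Q * f⁻¹) (f * m⁻¹) ↔ o.lt (Q * m⁻¹) (m * f⁻¹) := o.cv hδ (f * m⁻¹) e9 (by simp only [mul_assoc, mul_inv_rev, inv_inv, mul_inv_cancel_left, inv_mul_cancel_left, mul_inv_cancel, inv_mul_cancel, mul_one, one_mul, inv_one, C]) (by simp only [mul_assoc, mul_inv_rev, inv_inv, mul_inv_cancel_left, inv_mul_cancel_left, mul_inv_cancel, inv_mul_cancel, mul_one, one_mul, inv_one, C])
  have k68 : o.lt (Q * g⁻¹) (g * m⁻¹) ↔ o.lt (Q * m⁻¹) (m * g⁻¹) := o.cv hδ (g * m⁻¹) e23 (by simp only [mul_assoc, mul_inv_rev, inv_inv, mul_inv_cancel_left, inv_mul_cancel_left, mul_inv_cancel, inv_mul_cancel, mul_one, one_mul, inv_one, C]) (by simp only [mul_assoc, mul_inv_rev, inv_inv, mul_inv_cancel_left, inv_mul_cancel_left, mul_inv_cancel, inv_mul_cancel, mul_one, one_mul, inv_one, C])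
  have k69 : o.lt (Q * (f⁻¹ * (P * g⁻¹))) (f * Q⁻¹) ↔ o.lt (Q * (f⁻¹ * (P * g⁻¹))) (f * Q⁻¹) := o.cv hδ (1) e6 (by simp only [mul_assoc, mul_inv_rev, inv_inv, mul_inv_cancel_left, inv_mul_cancel_left, mul_inv_cancel, inv_mul_cancel, mul_one, one_mul, inv_one, C]) (by simp only [mul_assoc, mul_inv_rev, inv_inv, mul_inv_cancel_left, inv_mul_cancel_left, mul_inv_cancel, inv_mul_cancel, mul_one, one_mul, inv_one, C])
  have k70 : o.lt (Q * f⁻¹) (P * g⁻¹) ↔ o.lt (Q * (f⁻¹ * (P * g⁻¹))) (g * P⁻¹) := o.cv hδ (P * g⁻¹) e4 (by simp only [mul_assoc, mul_inv_rev, inv_inv, mul_inv_cancel_left, inv_mul_cancel_left, mul_inv_cancel, inv_mul_cancel, mul_one, one_mul, inv_one, C]) (by simp only [mul_assoc, mul_inv_rev, inv_inv, mul_inv_cancel_left, inv_mul_cancel_left, mul_inv_cancel, inv_mul_cancel, mul_one, one_mul, inv_one, C])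
  have k71 : o.lt (Q * (f⁻¹ * (P * g⁻¹))) (Q * m⁻¹) ↔ o.lt (Q * (f⁻¹ * (P * g⁻¹))) (Q * m⁻¹) := o.cv hδ (1) e5 (by simp only [mul_assoc, mul_inv_rev, inv_inv, mul_inv_cancel_left, inv_mul_cancel_left, mul_inv_cancel, inv_mul_cancel, mul_one, one_mul, inv_one, C]) (by simp only [mul_assoc, mul_inv_rev, inv_inv, mul_inv_cancel_left, inv_mul_cancel_left, mul_inv_cancel, inv_mul_cancel, mul_one, one_mul, inv_one, C])
  have k72 : o.lt (f * Q⁻¹) (Q * m⁻¹) ↔ o.lt (f * Q⁻¹) (Q * m⁻¹) := o.cv hδ (1) e22 (by simp only [mul_assoc, mul_inv_rev, inv_inv, mul_inv_cancel_left, inv_mul_cancel_left, mul_inv_cancel, inv_mul_cancel, mul_one, one_mul, inv_one, C]) (by simp only [mul_assoc, mul_inv_rev, inv_inv, mul_inv_cancel_left, inv_mul_cancel_left, mul_inv_cancel, inv_mul_cancel, mul_one, one_mul, inv_one, C])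
  have k73 : o.lt (Q * m⁻¹) (Q * (f⁻¹ * (P * g⁻¹))) ↔ o.lt (Q * m⁻¹) (Q * (f⁻¹ * (P * g⁻¹))) := o.cv hδ (1) e11 (by simp only [mul_assoc, mul_inv_rev, inv_inv, mul_inv_cancel_left, inv_mul_cancel_left, mul_inv_cancel, inv_mul_cancel, mul_one, one_mul, inv_one, C]) (by simp only [mul_assoc, mul_inv_rev, inv_inv, mul_inv_cancel_left, inv_mul_cancel_left, mul_inv_cancel, inv_mul_cancel, mul_one, one_mul, inv_one, C])
  have k74 : o.lt (Q * m⁻¹) (f * Q⁻¹) ↔ o.lt (Q * m⁻¹) (f * Q⁻¹) := o.cv hδ (1) e10 (by simp only [mul_assoc, mul_inv_rev, inv_inv, mul_inv_cancel_left, inv_mul_cancel_left, mul_inv_cancel, inv_mul_cancel, mul_one, one_mul, inv_one, C]) (by simp only [mul_assoc, mul_inv_rev, inv_inv, mul_inv_cancel_left, inv_mul_cancel_left, mul_inv_cancel, inv_mul_cancel, mul_one, one_mul, inv_one, C])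
  have k75 : o.lt (Q * (f⁻¹ * (g * P⁻¹))) (Q * (m⁻¹ * (f * m⁻¹))) ↔ o.lt (Q * (f⁻¹ * (g * P⁻¹))) (Q * (f⁻¹ * (m * f⁻¹))) := o.cv hδ (1) e3 (by simp only [mul_assoc, mul_inv_rev, inv_inv, mul_inv_cancel_left, inv_mul_cancel_left, mul_inv_cancel, inv_mul_cancel, mul_one, one_mul, inv_one, C]) (by simp only [mul_assoc, mul_inv_rev, inv_inv, mul_inv_cancel_left, inv_mul_cancel_left, mul_inv_cancel, inv_mul_cancel, mul_one, one_mul, inv_one, C])
  have k76 : o.lt (Q * f⁻¹) (P * g⁻¹) ↔ o.lt (Q * (f⁻¹ * (g * P⁻¹))) (1) := o.cv hδ (g * P⁻¹) e4 (by simp only [mul_assoc, mul_inv_rev, inv_inv, mul_inv_cancel_left, inv_mul_cancel_left, mul_inv_cancel, inv_mul_cancel, mul_one, one_mul, inv_one, C]) (by simp only [mul_assoc, mul_inv_rev, inv_inv, mul_inv_cancel_left, inv_mul_cancel_left, mul_inv_cancel, inv_mul_cancel, mul_one, one_mul, inv_one, C])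
  have k77 : o.lt (f * m⁻¹) (Q * f⁻¹) ↔ o.lt (1) (Q * (f⁻¹ * (m * f⁻¹))) := o.cv hδ (m * f⁻¹) e17 (by simp only [mul_assoc, mul_inv_rev, inv_inv, mul_inv_cancel_left, inv_mul_cancel_left, mul_inv_cancel, inv_mul_cancel, mul_one, one_mul, inv_one, C]) (by simp only [mul_assoc, mul_inv_rev, inv_inv, mul_inv_cancel_left, inv_mul_cancel_left, mul_inv_cancel, inv_mul_cancel, mul_one, one_mul, inv_one, C])
  have k78 : o.lt (Q * (m⁻¹ * (f * m⁻¹))) (Q * (f⁻¹ * (m * g⁻¹))) ↔ o.lt (Q * (f⁻¹ * (m * f⁻¹))) (Q * (f⁻¹ * (m * g⁻¹))) := o.cv hδ (m * (f⁻¹ * (m * (f⁻¹ * (m * f⁻¹))))) e7 (by simp only [mul_assoc, mul_inv_rev, inv_inv, mul_inv_cancel_left, inv_mul_cancel_left, mul_inv_cancel, inv_mul_cancel, mul_one, one_mul, inv_one, C]) (by simp only [mul_assoc, mul_inv_rev, inv_inv, mul_inv_cancel_left, inv_mul_cancel_left, mul_inv_cancel, inv_mul_cancel, mul_one, one_mul, inv_one, C])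
  have k79 : o.lt (Q * (f⁻¹ * (m * g⁻¹))) (Q * (m⁻¹ * (f * m⁻¹))) ↔ o.lt (Q * (f⁻¹ * (m * g⁻¹))) (Q * (f⁻¹ * (m * f⁻¹))) := o.cv hδ (1) e13 (by simp only [mul_assoc, mul_inv_rev, inv_inv, mul_inv_cancel_left, inv_mul_cancel_left, mul_inv_cancel, inv_mul_cancel, mul_one, one_mul, inv_one, C]) (by simp only [mul_assoc, mul_inv_rev, inv_inv, mul_inv_cancel_left, inv_mul_cancel_left, mul_inv_cancel, inv_mul_cancel, mul_one, one_mul, inv_one, C])
  have k80 : o.lt (Q * f⁻¹) (g * m⁻¹) ↔ o.lt (Q * (f⁻¹ * (m * g⁻¹))) (1) := o.cv hδ (m * g⁻¹) e14 (by simp only [mul_assoc, mul_inv_rev, inv_inv, mul_inv_cancel_left, inv_mul_cancel_left, mul_inv_cancel, inv_mul_cancel, mul_one, one_mul, inv_one, C]) (by simp only [mul_assoc, mul_inv_rev, inv_inv, mul_inv_cancel_left, inv_mul_cancel_left, mul_inv_cancel, inv_mul_cancel, mul_one, one_mul, inv_one, C])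
  have k81 : o.lt (Q * (f⁻¹ * (m * g⁻¹))) (Q * P⁻¹) ↔ o.lt (Q * (f⁻¹ * (m * g⁻¹))) (Q * P⁻¹) := o.cv hδ (1) e12 (by simp only [mul_assoc, mul_inv_rev, inv_inv, mul_inv_cancel_left, inv_mul_cancel_left, mul_inv_cancel, inv_mul_cancel, mul_one, one_mul, inv_one, C]) (by simp only [mul_assoc, mul_inv_rev, inv_inv, mul_inv_cancel_left, inv_mul_cancel_left, mul_inv_cancel, inv_mul_cancel, mul_one, one_mul, inv_one, C])
  have k82 : o.lt (Q * g⁻¹) (P * g⁻¹) ↔ o.lt (Q * P⁻¹) (1) := o.cv hδ (g * P⁻¹) e1 (by simp only [mul_assoc, mul_inv_rev, inv_inv, mul_inv_cancel_left, inv_mul_cancel_left, mul_inv_cancel, inv_mul_cancel, mul_one, one_mul, inv_one, C]) (by simp only [mul_assoc, mul_inv_rev, inv_inv, mul_inv_cancel_left, inv_mul_cancel_left, mul_inv_cancel, inv_mul_cancel, mul_one, one_mul, inv_one, C])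
  have k83 : o.lt (Q * (f⁻¹ * (g * m⁻¹))) (f * (Q⁻¹ * (f * g⁻¹))) ↔ o.lt (Q * (f⁻¹ * (m * g⁻¹))) (Q * (f⁻¹ * (Q * m⁻¹))) := o.cv hδ (m * (g⁻¹ * (m * g⁻¹))) e15 (by simp only [mul_assoc, mul_inv_rev, inv_inv, mul_inv_cancel_left, inv_mul_cancel_left, mul_inv_cancel, inv_mul_cancel, mul_one, one_mul, inv_one, C]) (by simp only [mul_assoc, mul_inv_rev, inv_inv, mul_inv_cancel_left, inv_mul_cancel_left, mul_inv_cancel, inv_mul_cancel, mul_one, one_mul, inv_one, C])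
  have k84 : o.lt (Q * m⁻¹) (f * Q⁻¹) ↔ o.lt (Q * (f⁻¹ * (m * f⁻¹))) (Q * (f⁻¹ * (Q * m⁻¹))) := o.cv hδ (m * (f⁻¹ * (m * f⁻¹))) e10 (by simp only [mul_assoc, mul_inv_rev, inv_inv, mul_inv_cancel_left, inv_mul_cancel_left, mul_inv_cancel, inv_mul_cancel, mul_one, one_mul, inv_one, C]) (by simp only [mul_assoc, mul_inv_rev, inv_inv, mul_inv_cancel_left, inv_mul_cancel_left, mul_inv_cancel, inv_mul_cancel, mul_one, one_mul, inv_one, C])
  have k85 : o.lt (f * Q⁻¹) (Q * m⁻¹) ↔ o.lt (Q * (f⁻¹ * (Q * m⁻¹))) (Q * (f⁻¹ * (m * f⁻¹))) := o.cv hδ (Q * (f⁻¹ * (Q * (f⁻¹ * (Q * m⁻¹))))) e22 (by simp only [mul_assoc, mul_inv_rev, inv_inv, mul_inv_cancel_left, inv_mul_cancel_left, mul_inv_cancel, inv_mul_cancel, mul_one, one_mul, inv_one, C]) (by simp only [mul_assoc, mul_inv_rev, inv_inv, mul_inv_cancel_left, inv_mul_cancel_left, mul_inv_cancel, inv_mul_cancel, mul_one, one_mul, inv_one, C])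
  have k86 : o.lt (f * (Q⁻¹ * (f * g⁻¹))) (Q * (f⁻¹ * (g * m⁻¹))) ↔ o.lt (Q * (f⁻¹ * (Q * m⁻¹))) (Q * (f⁻¹ * (m * g⁻¹))) := o.cv hδ (g * (f⁻¹ * (Q * (f⁻¹ * (Q * (f⁻¹ * (Q * m⁻¹))))))) e16 (by simp only [mul_assoc, mul_inv_rev, inv_inv, mul_inv_cancel_left, inv_mul_cancel_left, mul_inv_cancel, inv_mul_cancel, mul_one, one_mul, inv_one, C]) (by simp only [mul_assoc, mul_inv_rev, inv_inv, mul_inv_cancel_left, inv_mul_cancel_left, mul_inv_cancel, inv_mul_cancel, mul_one, one_mul, inv_one, C])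
  have k87 : o.lt (g) (f) ↔ o.lt ((P * g⁻¹)⁻¹) ((P * f⁻¹)⁻¹) := o.cv hδ (P⁻¹) e21 (by simp only [mul_assoc, mul_inv_rev, inv_inv, mul_inv_cancel_left, inv_mul_cancel_left, mul_inv_cancel, inv_mul_cancel, mul_one, one_mul, inv_one, C]) (by simp only [mul_assoc, mul_inv_rev, inv_inv, mul_inv_cancel_left, inv_mul_cancel_left, mul_inv_cancel, inv_mul_cancel, mul_one, one_mul, inv_one, C])
  exact ser_CAE_1_prop
    (fun b0 b1 b2 b3 => N0.i.r2 1 (fun h => b0 (k0.2 h)) (k1.1 b1) (fun h => b2 (k2.2 h)) (fun h => b3 (k3.2 h)))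
    (fun b0 b1 b2 => N0.rd.r0 1 (k4.1 b0) (fun h => b1 (k5.2 h)) (fun h => b2 (k6.2 h)))
    (fun b0 b1 b2 => N0.i.r0 1 (k7.1 b0) (fun h => b1 (k2.2 h)) (fun h => b2 (k8.2 h)))
    (fun b0 b1 b2 b3 => N0.rd.r1 1 (k9.1 b0) (fun h => b1 (k4.2 h)) (fun h => b2 (k10.2 h)) (fun h => b3 (k3.2 h)))
    (fun b0 b1 b2 b3 => N0.r.r2 1 (fun h => b0 (k11.2 h)) (k12.1 b1) (fun h => b2 (k13.2 h)) (fun h => b3 (k14.2 h)))
    (fun b0 b1 b2 => N1.rd.r1 1 (fun h => b0 (k15.2 h)) (fun h => b1 (k16.2 h)) (k17.1 b2))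
    (fun b0 b1 b2 => N1.r.r0 1 (fun h => b0 (k18.2 h)) (k16.1 b1) (fun h => b2 (k19.2 h)))
    (fun b0 b1 b2 => N1.d.r0 1 (fun h => b0 (k20.2 h)) (k21.1 b1) (fun h => b2 (k22.2 h)))
    (fun b0 b1 b2 => N1.d.r1 1 (fun h => b0 (k23.2 h)) (fun h => b1 (k24.2 h)) (k22.1 b2))
    (fun b0 b1 b2 => N0.d.r0 (Q * f⁻¹) (k25.1 b0) (fun h => b1 (k26.2 h)) (fun h => b2 (k27.2 h)))
    (fun b0 b1 b2 b3 => N0.r.r2 (Q * f⁻¹) (fun h => b0 (k28.2 h)) (k29.1 b1) (fun h => b2 (k30.2 h)) (fun h => b3 (k31.2 h)))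
    (fun b0 b1 b2 => N1.rd.r1 (Q * f⁻¹) (fun h => b0 (k32.2 h)) (fun h => b1 (k33.2 h)) (k34.1 b2))
    (fun b0 b1 b2 => N1.r.r0 (Q * f⁻¹) (fun h => b0 (k35.2 h)) (k33.1 b1) (fun h => b2 (k36.2 h)))
    (fun b0 b1 => o.asym (k37.1 b0) (k38.1 b1))
    (fun b0 b1 b2 => o.tri (k39.1 b0) (fun h => b1 (k40.2 h)) (fun h => b2 (k41.2 h)))
    (fun b0 b1 b2 => o.tri (k42.1 b0) (fun h => b1 (k39.2 h)) (fun h => b2 (k43.2 h)))
    (fun b0 b1 b2 => o.tri (k44.1 b0) (fun h => b1 (k43.2 h)) (fun h => b2 (k45.2 h)))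
    (fun b0 b1 => o.asym (k43.1 b0) (k46.1 b1))
    (fun b0 b1 b2 => o.tri (k47.1 b0) (fun h => b1 (k43.2 h)) (fun h => b2 (k48.2 h)))
    (fun b0 b1 b2 => o.tri (k49.1 b0) (fun h => b1 (k41.2 h)) (fun h => b2 (k43.2 h)))
    (fun b0 b1 => o.asym (k48.1 b0) (k50.1 b1))
    (fun b0 b1 b2 => o.tri (k51.1 b0) (fun h => b1 (k52.2 h)) (fun h => b2 (k37.2 h)))
    (fun b0 b1 b2 => o.tri (k53.1 b0) (fun h => b1 (k54.2 h)) (fun h => b2 (k41.2 h)))
    (fun b0 b1 b2 => o.tri (k50.1 b0) (fun h => b1 (k52.2 h)) (fun h => b2 (k42.2 h)))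
    (fun b0 b1 b2 => o.tri (k50.1 b0) (fun h => b1 (k53.2 h)) (fun h => b2 (k43.2 h)))
    (fun b0 b1 b2 => o.tri (k55.1 b0) (fun h => b1 (k56.2 h)) (fun h => b2 (k57.2 h)))
    (fun b0 b1 => o.asym (k58.1 b0) (k59.1 b1))
    (fun b0 b1 b2 => o.tri (k60.1 b0) (fun h => b1 (k58.2 h)) (fun h => b2 (k61.2 h)))
    (fun b0 b1 b2 => o.tri (k62.1 b0) (fun h => b1 (k63.2 h)) (fun h => b2 (k59.2 h)))
    (fun b0 b1 => o.asym (k64.1 b0) (k65.1 b1))
    (fun b0 b1 b2 => o.tri (k65.1 b0) (fun h => b1 (k66.2 h)) (fun h => b2 (k57.2 h)))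
    (fun b0 b1 b2 => o.tri (k67.1 b0) (fun h => b1 (k68.2 h)) (fun h => b2 (k65.2 h)))
    (fun b0 b1 b2 => o.tri (k69.1 b0) (fun h => b1 (k70.2 h)) (fun h => b2 (k60.2 h)))
    (fun b0 b1 b2 => o.tri (k71.1 b0) (fun h => b1 (k69.2 h)) (fun h => b2 (k72.2 h)))
    (fun b0 b1 => o.asym (k73.1 b0) (k71.1 b1))
    (fun b0 b1 b2 => o.tri (k74.1 b0) (fun h => b1 (k73.2 h)) (fun h => b2 (k69.2 h)))
    (fun b0 b1 b2 => o.tri (k75.1 b0) (fun h => b1 (k76.2 h)) (fun h => b2 (k77.2 h)))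
    (fun b0 b1 => o.asym (k78.1 b0) (k79.1 b1))
    (fun b0 b1 b2 => o.tri (k80.1 b0) (fun h => b1 (k81.2 h)) (fun h => b2 (k82.2 h)))
    (fun b0 b1 b2 => o.tri (k83.1 b0) (fun h => b1 (k79.2 h)) (fun h => b2 (k84.2 h)))
    (fun b0 b1 b2 => o.tri (k85.1 b0) (fun h => b1 (k86.2 h)) (fun h => b2 (k79.2 h)))
    (fun h => g0 (k52.1 h))
    (k50.2 g1)
    (fun h => g2 (k87.1 h))

theorem ser_CAE_2_prop {A1 A2 A3 A4 A5 A6 A7 A8 A9 A10 A11 A12 A13 A14 A15 A16 A17 A18 A19 : Prop}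
    (c0 : A3 → ¬ A4 → ¬ A13 → False)
    (c1 : ¬ A19 → A17 → ¬ A15 → False)
    (c2 : ¬ A1 → ¬ A18 → A15 → False)
    (c3 : ¬ A9 → A8 → ¬ A10 → False)
    (c4 : ¬ A6 → ¬ A7 → A10 → False)
    (c5 : A3 → A1 → False)
    (c6 : A14 → A16 → False)
    (c7 : A5 → A4 → False)
    (c8 : A11 → ¬ A5 → ¬ A14 → False)
    (c9 : A4 → ¬ A17 → ¬ A2 → False)
    (c10 : A17 → A18 → False)
    (c11 : A19 → ¬ A15 → ¬ A16 → False)
    (c12 : A6 → ¬ A1 → ¬ A13 → False)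
    (c13 : A4 → ¬ A2 → ¬ A8 → False)
    (c14 : A7 → A8 → False)
    (c15 : A9 → ¬ A10 → ¬ A12 → False)
    (c16 : A12 → ¬ A11 → ¬ A2 → False)
    (u0 : ¬ A13)
    (u1 : ¬ A2)
    (u2 : A3)
    : False := by
  have q1 : A4 := Classical.byContradiction fun h => c0 u2 h u0
  have q2 : ¬ A1 := fun h => c5 u2 h
  have q3 : ¬ A5 := fun h => c7 h q1
  have q4 : A17 := Classical.byContradiction fun h => c9 q1 h u1
  have q5 : ¬ A18 := fun h => c10 q4 h
  have q6 : ¬ A15 := fun h => c2 q2 q5 h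
  have q7 : A19 := Classical.byContradiction fun h => c1 h q4 q6
  have q8 : A16 := Classical.byContradiction fun h => c11 q7 q6 h
  have q9 : ¬ A14 := fun h => c6 h q8
  have q10 : ¬ A11 := fun h => c8 h q3 q9
  have q11 : ¬ A6 := fun h => c12 h q2 u0
  have q12 : A8 := Classical.byContradiction fun h => c13 q1 u1 h
  have q13 : ¬ A7 := fun h => c14 h q12
  have q14 : ¬ A10 := fun h => c4 q11 q13 h
  have q15 : A9 := Classical.byContradiction fun h => c3 h q12 q14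
  have q16 : A12 := Classical.byContradiction fun h => c15 q15 q14 h
  exact c16 q16 q10 u1

theorem ser_CAE_2 {G : Type*} [Group G] {δ : G → ZMod 3} (hδ : ∀ u v, δ (u * v) = δ u + δ v) (o : Pre δ)
    {P m Q f g : G} {e : ZMod 3} (h3 : 3 * e = 0)
    (D : δ P = e ∧ δ m = -e ∧ δ Q = e ∧ δ f = 0 ∧ δ g = 0)
    (C : Cube P f ∧ Cube P g ∧ Cube m f ∧ Cube m g ∧ Cube Q f ∧ Cube Q g)
    (N0 : RC o P m f g)
    (N1 : RA o Q m g f)
    (g0 : ¬ o.lt (P * f⁻¹) (P * g⁻¹)) (g1 : ¬ o.lt ((Q * g⁻¹)⁻¹) ((P * g⁻¹)⁻¹)) (g2 : o.lt ((P * f⁻¹)⁻¹) ((P * g⁻¹)⁻¹)) : False := by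
  simp only [Cube] at C
  have e0 : δ (g * Q⁻¹) = δ (f * Q⁻¹) := by simp only [hδ, δinv hδ, δone hδ, D] <;> linear_combination (0) * h3
  have e1 : δ (g * Q⁻¹) = δ (g * P⁻¹) := by simp only [hδ, δinv hδ, δone hδ, D] <;> linear_combination (0) * h3
  have e2 : δ (f * P⁻¹) = δ (g * P⁻¹) := by simp only [hδ, δinv hδ, δone hδ, D] <;> linear_combination (0) * h3
  have e3 : δ (m * f⁻¹) = δ (g * P⁻¹) := by simp only [hδ, δinv hδ, δone hδ, D] <;> linear_combination (0) * h3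
  have e4 : δ (g * P⁻¹) = δ (m * f⁻¹) := by simp only [hδ, δinv hδ, δone hδ, D] <;> linear_combination (0) * h3
  have e5 : δ (g * (P⁻¹ * (f * m⁻¹))) = δ (g * (P⁻¹ * (g * m⁻¹))) := by simp only [hδ, δinv hδ, δone hδ, D] <;> linear_combination (0) * h3
  have e6 : δ (g * (P⁻¹ * (f * m⁻¹))) = δ (g * (P⁻¹ * (Q * g⁻¹))) := by simp only [hδ, δinv hδ, δone hδ, D] <;> linear_combination (0) * h3
  have e7 : δ (g * (P⁻¹ * (Q * g⁻¹))) = δ (g * (P⁻¹ * (f * m⁻¹))) := by simp only [hδ, δinv hδ, δone hδ, D] <;> linear_combination (0) * h3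
  have e8 : δ (g * (P⁻¹ * (Q * f⁻¹))) = δ (g * (P⁻¹ * (Q * g⁻¹))) := by simp only [hδ, δinv hδ, δone hδ, D] <;> linear_combination (0) * h3
  have e9 : δ (g * (P⁻¹ * (f * Q⁻¹))) = δ (g * (P⁻¹ * (m * f⁻¹))) := by simp only [hδ, δinv hδ, δone hδ, D] <;> linear_combination (0) * h3
  have e10 : δ (g * P⁻¹) = δ (Q * m⁻¹) := by simp only [hδ, δinv hδ, δone hδ, D] <;> linear_combination (-1) * h3
  have e11 : δ (g * (P⁻¹ * (m * Q⁻¹))) = δ (g * (P⁻¹ * (Q * g⁻¹))) := by simp only [hδ, δinv hδ, δone hδ, D] <;> linear_combination (-1) * h3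
  have e12 : δ (P * f⁻¹) = δ (P * g⁻¹) := by simp only [hδ, δinv hδ, δone hδ, D] <;> linear_combination (0) * h3
  have e13 : δ (f * m⁻¹) = δ (Q * f⁻¹) := by simp only [hδ, δinv hδ, δone hδ, D] <;> linear_combination (0) * h3
  have e14 : δ (g * m⁻¹) = δ (Q * g⁻¹) := by simp only [hδ, δinv hδ, δone hδ, D] <;> linear_combination (0) * h3
  have e15 : δ (Q * f⁻¹) = δ (f * m⁻¹) := by simp only [hδ, δinv hδ, δone hδ, D] <;> linear_combination (0) * h3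
  have e16 : δ (m * f⁻¹) = δ (g * Q⁻¹) := by simp only [hδ, δinv hδ, δone hδ, D] <;> linear_combination (0) * h3
  have e17 : δ (g * Q⁻¹) = δ (m * f⁻¹) := by simp only [hδ, δinv hδ, δone hδ, D] <;> linear_combination (0) * h3
  have e18 : δ (m * g⁻¹) = δ (m * f⁻¹) := by simp only [hδ, δinv hδ, δone hδ, D] <;> linear_combination (0) * h3
  have k0 : o.lt (f * P⁻¹) (g * P⁻¹) ↔ o.lt (1 * (f * P⁻¹)) (1 * (g * P⁻¹)) := o.cv hδ (1) e2 (by simp only [mul_assoc, mul_inv_rev, inv_inv, mul_inv_cancel_left, inv_mul_cancel_left, mul_inv_cancel, inv_mul_cancel, mul_one, one_mul, inv_one, C]) (by simp only [mul_assoc, mul_inv_rev, inv_inv, mul_inv_cancel_left, inv_mul_cancel_left, mul_inv_cancel, inv_mul_cancel, mul_one, one_mul, inv_one, C])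
  have k1 : o.lt (m * f⁻¹) (g * P⁻¹) ↔ o.lt (1 * (m * f⁻¹)) (1 * (g * P⁻¹)) := o.cv hδ (1) e3 (by simp only [mul_assoc, mul_inv_rev, inv_inv, mul_inv_cancel_left, inv_mul_cancel_left, mul_inv_cancel, inv_mul_cancel, mul_one, one_mul, inv_one, C]) (by simp only [mul_assoc, mul_inv_rev, inv_inv, mul_inv_cancel_left, inv_mul_cancel_left, mul_inv_cancel, inv_mul_cancel, mul_one, one_mul, inv_one, C])
  have k2 : o.lt (P * f⁻¹) (P * g⁻¹) ↔ o.lt (1 * (f * P⁻¹)⁻¹) (1 * (g * P⁻¹)⁻¹) := o.cv hδ (1) e12 (by simp only [mul_assoc, mul_inv_rev, inv_inv, mul_inv_cancel_left, inv_mul_cancel_left, mul_inv_cancel, inv_mul_cancel, mul_one, one_mul, inv_one, C]) (by simp only [mul_assoc, mul_inv_rev, inv_inv, mul_inv_cancel_left, inv_mul_cancel_left, mul_inv_cancel, inv_mul_cancel, mul_one, one_mul, inv_one, C])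
  have k3 : o.lt (m * g⁻¹) (m * f⁻¹) ↔ o.lt (1 * (m * g⁻¹)) (1 * (m * f⁻¹)) := o.cv hδ (1) e18 (by simp only [mul_assoc, mul_inv_rev, inv_inv, mul_inv_cancel_left, inv_mul_cancel_left, mul_inv_cancel, inv_mul_cancel, mul_one, one_mul, inv_one, C]) (by simp only [mul_assoc, mul_inv_rev, inv_inv, mul_inv_cancel_left, inv_mul_cancel_left, mul_inv_cancel, inv_mul_cancel, mul_one, one_mul, inv_one, C])
  have k4 : o.lt (m * f⁻¹) (g * Q⁻¹) ↔ o.lt (1 * (m * f⁻¹)) (1 * (g * Q⁻¹)) := o.cv hδ (1) e16 (by simp only [mul_assoc, mul_inv_rev, inv_inv, mul_inv_cancel_left, inv_mul_cancel_left, mul_inv_cancel, inv_mul_cancel, mul_one, one_mul, inv_one, C]) (by simp only [mul_assoc, mul_inv_rev, inv_inv, mul_inv_cancel_left, inv_mul_cancel_left, mul_inv_cancel, inv_mul_cancel, mul_one, one_mul, inv_one, C])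
  have k5 : o.lt (g * m⁻¹) (Q * g⁻¹) ↔ o.lt (1 * (m * g⁻¹)⁻¹) (1 * (g * Q⁻¹)⁻¹) := o.cv hδ (1) e14 (by simp only [mul_assoc, mul_inv_rev, inv_inv, mul_inv_cancel_left, inv_mul_cancel_left, mul_inv_cancel, inv_mul_cancel, mul_one, one_mul, inv_one, C]) (by simp only [mul_assoc, mul_inv_rev, inv_inv, mul_inv_cancel_left, inv_mul_cancel_left, mul_inv_cancel, inv_mul_cancel, mul_one, one_mul, inv_one, C])
  have k6 : o.lt (g * Q⁻¹) (f * Q⁻¹) ↔ o.lt (1 * (g * Q⁻¹)) (1 * (f * Q⁻¹)) := o.cv hδ (1) e0 (by simp only [mul_assoc, mul_inv_rev, inv_inv, mul_inv_cancel_left, inv_mul_cancel_left, mul_inv_cancel, inv_mul_cancel, mul_one, one_mul, inv_one, C]) (by simp only [mul_assoc, mul_inv_rev, inv_inv, mul_inv_cancel_left, inv_mul_cancel_left, mul_inv_cancel, inv_mul_cancel, mul_one, one_mul, inv_one, C])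
  have k7 : o.lt (g * Q⁻¹) (m * f⁻¹) ↔ o.lt (1 * (g * Q⁻¹)) (1 * (m * f⁻¹)) := o.cv hδ (1) e17 (by simp only [mul_assoc, mul_inv_rev, inv_inv, mul_inv_cancel_left, inv_mul_cancel_left, mul_inv_cancel, inv_mul_cancel, mul_one, one_mul, inv_one, C]) (by simp only [mul_assoc, mul_inv_rev, inv_inv, mul_inv_cancel_left, inv_mul_cancel_left, mul_inv_cancel, inv_mul_cancel, mul_one, one_mul, inv_one, C])
  have k8 : o.lt (g * (P⁻¹ * (Q * f⁻¹))) (g * (P⁻¹ * (Q * g⁻¹))) ↔ o.lt ((g * P⁻¹) * (Q * f⁻¹)) ((g * P⁻¹) * (Q * g⁻¹)) := o.cv hδ (1) e8 (by simp only [mul_assoc, mul_inv_rev, inv_inv, mul_inv_cancel_left, inv_mul_cancel_left, mul_inv_cancel, inv_mul_cancel, mul_one, one_mul, inv_one, C]) (by simp only [mul_assoc, mul_inv_rev, inv_inv, mul_inv_cancel_left, inv_mul_cancel_left, mul_inv_cancel, inv_mul_cancel, mul_one, one_mul, inv_one, C])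
  have k9 : o.lt (g * (P⁻¹ * (Q * g⁻¹))) (g * (P⁻¹ * (f * m⁻¹))) ↔ o.lt ((g * P⁻¹) * (Q * g⁻¹)) ((g * P⁻¹) * (f * m⁻¹)) := o.cv hδ (1) e7 (by simp only [mul_assoc, mul_inv_rev, inv_inv, mul_inv_cancel_left, inv_mul_cancel_left, mul_inv_cancel, inv_mul_cancel, mul_one, one_mul, inv_one, C]) (by simp only [mul_assoc, mul_inv_rev, inv_inv, mul_inv_cancel_left, inv_mul_cancel_left, mul_inv_cancel, inv_mul_cancel, mul_one, one_mul, inv_one, C])
  have k10 : o.lt (g * (P⁻¹ * (f * Q⁻¹))) (g * (P⁻¹ * (m * f⁻¹))) ↔ o.lt ((g * P⁻¹) * (Q * f⁻¹)⁻¹) ((g * P⁻¹) * (f * m⁻¹)⁻¹) := o.cv hδ (1) e9 (by simp only [mul_assoc, mul_inv_rev, inv_inv, mul_inv_cancel_left, inv_mul_cancel_left, mul_inv_cancel, inv_mul_cancel, mul_one, one_mul, inv_one, C]) (by simp only [mul_assoc, mul_inv_rev, inv_inv, mul_inv_cancel_left, inv_mul_cancel_left, mul_inv_cancel, inv_mul_cancel, mul_one, one_mul, inv_one, C])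
  have k11 : o.lt (g * (P⁻¹ * (f * m⁻¹))) (g * (P⁻¹ * (g * m⁻¹))) ↔ o.lt ((g * P⁻¹) * (f * m⁻¹)) ((g * P⁻¹) * (g * m⁻¹)) := o.cv hδ (1) e5 (by simp only [mul_assoc, mul_inv_rev, inv_inv, mul_inv_cancel_left, inv_mul_cancel_left, mul_inv_cancel, inv_mul_cancel, mul_one, one_mul, inv_one, C]) (by simp only [mul_assoc, mul_inv_rev, inv_inv, mul_inv_cancel_left, inv_mul_cancel_left, mul_inv_cancel, inv_mul_cancel, mul_one, one_mul, inv_one, C])
  have k12 : o.lt (g * (P⁻¹ * (f * m⁻¹))) (g * (P⁻¹ * (Q * g⁻¹))) ↔ o.lt ((g * P⁻¹) * (f * m⁻¹)) ((g * P⁻¹) * (Q * g⁻¹)) := o.cv hδ (1) e6 (by simp only [mul_assoc, mul_inv_rev, inv_inv, mul_inv_cancel_left, inv_mul_cancel_left, mul_inv_cancel, inv_mul_cancel, mul_one, one_mul, inv_one, C]) (by simp only [mul_assoc, mul_inv_rev, inv_inv, mul_inv_cancel_left, inv_mul_cancel_left, mul_inv_cancel, inv_mul_cancel, mul_one, one_mul, inv_one, C])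
  have k13 : o.lt (f * P⁻¹) (g * P⁻¹) ↔ o.lt (f * m⁻¹) (g * m⁻¹) := o.cv hδ (P * m⁻¹) e2 (by simp only [mul_assoc, mul_inv_rev, inv_inv, mul_inv_cancel_left, inv_mul_cancel_left, mul_inv_cancel, inv_mul_cancel, mul_one, one_mul, inv_one, C]) (by simp only [mul_assoc, mul_inv_rev, inv_inv, mul_inv_cancel_left, inv_mul_cancel_left, mul_inv_cancel, inv_mul_cancel, mul_one, one_mul, inv_one, C])
  have k14 : o.lt (g * Q⁻¹) (f * Q⁻¹) ↔ o.lt (g * m⁻¹) (f * m⁻¹) := o.cv hδ (Q * m⁻¹) e0 (by simp only [mul_assoc, mul_inv_rev, inv_inv, mul_inv_cancel_left, inv_mul_cancel_left, mul_inv_cancel, inv_mul_cancel, mul_one, one_mul, inv_one, C]) (by simp only [mul_assoc, mul_inv_rev, inv_inv, mul_inv_cancel_left, inv_mul_cancel_left, mul_inv_cancel, inv_mul_cancel, mul_one, one_mul, inv_one, C])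
  have k15 : o.lt (f * m⁻¹) (Q * f⁻¹) ↔ o.lt (f * m⁻¹) (Q * f⁻¹) := o.cv hδ (1) e13 (by simp only [mul_assoc, mul_inv_rev, inv_inv, mul_inv_cancel_left, inv_mul_cancel_left, mul_inv_cancel, inv_mul_cancel, mul_one, one_mul, inv_one, C]) (by simp only [mul_assoc, mul_inv_rev, inv_inv, mul_inv_cancel_left, inv_mul_cancel_left, mul_inv_cancel, inv_mul_cancel, mul_one, one_mul, inv_one, C])
  have k16 : o.lt (Q * f⁻¹) (f * m⁻¹) ↔ o.lt (Q * f⁻¹) (f * m⁻¹) := o.cv hδ (1) e15 (by simp only [mul_assoc, mul_inv_rev, inv_inv, mul_inv_cancel_left, inv_mul_cancel_left, mul_inv_cancel, inv_mul_cancel, mul_one, one_mul, inv_one, C]) (by simp only [mul_assoc, mul_inv_rev, inv_inv, mul_inv_cancel_left, inv_mul_cancel_left, mul_inv_cancel, inv_mul_cancel, mul_one, one_mul, inv_one, C])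
  have k17 : o.lt (g * P⁻¹) (m * f⁻¹) ↔ o.lt (g * P⁻¹) (m * f⁻¹) := o.cv hδ (1) e4 (by simp only [mul_assoc, mul_inv_rev, inv_inv, mul_inv_cancel_left, inv_mul_cancel_left, mul_inv_cancel, inv_mul_cancel, mul_one, one_mul, inv_one, C]) (by simp only [mul_assoc, mul_inv_rev, inv_inv, mul_inv_cancel_left, inv_mul_cancel_left, mul_inv_cancel, inv_mul_cancel, mul_one, one_mul, inv_one, C])
  have k18 : o.lt (m * f⁻¹) (g * P⁻¹) ↔ o.lt (m * f⁻¹) (g * P⁻¹) := o.cv hδ (1) e3 (by simp only [mul_assoc, mul_inv_rev, inv_inv, mul_inv_cancel_left, inv_mul_cancel_left, mul_inv_cancel, inv_mul_cancel, mul_one, one_mul, inv_one, C]) (by simp only [mul_assoc, mul_inv_rev, inv_inv, mul_inv_cancel_left, inv_mul_cancel_left, mul_inv_cancel, inv_mul_cancel, mul_one, one_mul, inv_one, C])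
  have k19 : o.lt (g * P⁻¹) (Q * m⁻¹) ↔ o.lt (g * P⁻¹) (Q * m⁻¹) := o.cv hδ (1) e10 (by simp only [mul_assoc, mul_inv_rev, inv_inv, mul_inv_cancel_left, inv_mul_cancel_left, mul_inv_cancel, inv_mul_cancel, mul_one, one_mul, inv_one, C]) (by simp only [mul_assoc, mul_inv_rev, inv_inv, mul_inv_cancel_left, inv_mul_cancel_left, mul_inv_cancel, inv_mul_cancel, mul_one, one_mul, inv_one, C])
  have k20 : o.lt (f * m⁻¹) (Q * f⁻¹) ↔ o.lt (m * f⁻¹) (Q * m⁻¹) := o.cv hδ (m * (f⁻¹ * (m * f⁻¹))) e13 (by simp only [mul_assoc, mul_inv_rev, inv_inv, mul_inv_cancel_left, inv_mul_cancel_left, mul_inv_cancel, inv_mul_cancel, mul_one, one_mul, inv_one, C]) (by simp only [mul_assoc, mul_inv_rev, inv_inv, mul_inv_cancel_left, inv_mul_cancel_left, mul_inv_cancel, inv_mul_cancel, mul_one, one_mul, inv_one, C])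
  have k21 : o.lt (m * f⁻¹) (g * Q⁻¹) ↔ o.lt (m * f⁻¹) (g * Q⁻¹) := o.cv hδ (1) e16 (by simp only [mul_assoc, mul_inv_rev, inv_inv, mul_inv_cancel_left, inv_mul_cancel_left, mul_inv_cancel, inv_mul_cancel, mul_one, one_mul, inv_one, C]) (by simp only [mul_assoc, mul_inv_rev, inv_inv, mul_inv_cancel_left, inv_mul_cancel_left, mul_inv_cancel, inv_mul_cancel, mul_one, one_mul, inv_one, C])
  have k22 : o.lt (g * Q⁻¹) (g * P⁻¹) ↔ o.lt (g * Q⁻¹) (g * P⁻¹) := o.cv hδ (1) e1 (by simp only [mul_assoc, mul_inv_rev, inv_inv, mul_inv_cancel_left, inv_mul_cancel_left, mul_inv_cancel, inv_mul_cancel, mul_one, one_mul, inv_one, C]) (by simp only [mul_assoc, mul_inv_rev, inv_inv, mul_inv_cancel_left, inv_mul_cancel_left, mul_inv_cancel, inv_mul_cancel, mul_one, one_mul, inv_one, C])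
  have k23 : o.lt (g * Q⁻¹) (m * f⁻¹) ↔ o.lt (g * Q⁻¹) (m * f⁻¹) := o.cv hδ (1) e17 (by simp only [mul_assoc, mul_inv_rev, inv_inv, mul_inv_cancel_left, inv_mul_cancel_left, mul_inv_cancel, inv_mul_cancel, mul_one, one_mul, inv_one, C]) (by simp only [mul_assoc, mul_inv_rev, inv_inv, mul_inv_cancel_left, inv_mul_cancel_left, mul_inv_cancel, inv_mul_cancel, mul_one, one_mul, inv_one, C])
  have k24 : o.lt (m * g⁻¹) (m * f⁻¹) ↔ o.lt (m * g⁻¹) (m * f⁻¹) := o.cv hδ (1) e18 (by simp only [mul_assoc, mul_inv_rev, inv_inv, mul_inv_cancel_left, inv_mul_cancel_left, mul_inv_cancel, inv_mul_cancel, mul_one, one_mul, inv_one, C]) (by simp only [mul_assoc, mul_inv_rev, inv_inv, mul_inv_cancel_left, inv_mul_cancel_left, mul_inv_cancel, inv_mul_cancel, mul_one, one_mul, inv_one, C])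
  have k25 : o.lt (g * m⁻¹) (Q * g⁻¹) ↔ o.lt (m * g⁻¹) (Q * m⁻¹) := o.cv hδ (m * (g⁻¹ * (m * g⁻¹))) e14 (by simp only [mul_assoc, mul_inv_rev, inv_inv, mul_inv_cancel_left, inv_mul_cancel_left, mul_inv_cancel, inv_mul_cancel, mul_one, one_mul, inv_one, C]) (by simp only [mul_assoc, mul_inv_rev, inv_inv, mul_inv_cancel_left, inv_mul_cancel_left, mul_inv_cancel, inv_mul_cancel, mul_one, one_mul, inv_one, C])
  have k26 : o.lt (Q * f⁻¹) (f * m⁻¹) ↔ o.lt (Q * m⁻¹) (m * f⁻¹) := o.cv hδ (f * m⁻¹) e15 (by simp only [mul_assoc, mul_inv_rev, inv_inv, mul_inv_cancel_left, inv_mul_cancel_left, mul_inv_cancel, inv_mul_cancel, mul_one, one_mul, inv_one, C]) (by simp only [mul_assoc, mul_inv_rev, inv_inv, mul_inv_cancel_left, inv_mul_cancel_left, mul_inv_cancel, inv_mul_cancel, mul_one, one_mul, inv_one, C])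
  have k27 : o.lt (g * (P⁻¹ * (f * m⁻¹))) (g * (P⁻¹ * (g * m⁻¹))) ↔ o.lt (g * P⁻¹) (P * (g⁻¹ * (P * f⁻¹))) := o.cv hδ (m * f⁻¹) e5 (by simp only [mul_assoc, mul_inv_rev, inv_inv, mul_inv_cancel_left, inv_mul_cancel_left, mul_inv_cancel, inv_mul_cancel, mul_one, one_mul, inv_one, C]) (by simp only [mul_assoc, mul_inv_rev, inv_inv, mul_inv_cancel_left, inv_mul_cancel_left, mul_inv_cancel, inv_mul_cancel, mul_one, one_mul, inv_one, C])
  have k28 : o.lt (g * Q⁻¹) (f * Q⁻¹) ↔ o.lt (g * P⁻¹) (f * P⁻¹) := o.cv hδ (Q * P⁻¹) e0 (by simp only [mul_assoc, mul_inv_rev, inv_inv, mul_inv_cancel_left, inv_mul_cancel_left, mul_inv_cancel, inv_mul_cancel, mul_one, one_mul, inv_one, C]) (by simp only [mul_assoc, mul_inv_rev, inv_inv, mul_inv_cancel_left, inv_mul_cancel_left, mul_inv_cancel, inv_mul_cancel, mul_one, one_mul, inv_one, C])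
  have k29 : o.lt (P * f⁻¹) (P * g⁻¹) ↔ o.lt (f * P⁻¹) (P * (g⁻¹ * (P * f⁻¹))) := o.cv hδ (f * (P⁻¹ * (f * P⁻¹))) e12 (by simp only [mul_assoc, mul_inv_rev, inv_inv, mul_inv_cancel_left, inv_mul_cancel_left, mul_inv_cancel, inv_mul_cancel, mul_one, one_mul, inv_one, C]) (by simp only [mul_assoc, mul_inv_rev, inv_inv, mul_inv_cancel_left, inv_mul_cancel_left, mul_inv_cancel, inv_mul_cancel, mul_one, one_mul, inv_one, C])
  have k30 : o.lt (m * f⁻¹) (g * P⁻¹) ↔ o.lt (1) (g * (P⁻¹ * (f * m⁻¹))) := o.cv hδ (f * m⁻¹) e3 (by simp only [mul_assoc, mul_inv_rev, inv_inv, mul_inv_cancel_left, inv_mul_cancel_left, mul_inv_cancel, inv_mul_cancel, mul_one, one_mul, inv_one, C]) (by simp only [mul_assoc, mul_inv_rev, inv_inv, mul_inv_cancel_left, inv_mul_cancel_left, mul_inv_cancel, inv_mul_cancel, mul_one, one_mul, inv_one, C])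
  have k31 : o.lt (g * Q⁻¹) (g * P⁻¹) ↔ o.lt (1) (g * (P⁻¹ * (Q * g⁻¹))) := o.cv hδ (Q * g⁻¹) e1 (by simp only [mul_assoc, mul_inv_rev, inv_inv, mul_inv_cancel_left, inv_mul_cancel_left, mul_inv_cancel, inv_mul_cancel, mul_one, one_mul, inv_one, C]) (by simp only [mul_assoc, mul_inv_rev, inv_inv, mul_inv_cancel_left, inv_mul_cancel_left, mul_inv_cancel, inv_mul_cancel, mul_one, one_mul, inv_one, C])
  have k32 : o.lt (g * (P⁻¹ * (Q * g⁻¹))) (g * (P⁻¹ * (f * m⁻¹))) ↔ o.lt (g * (P⁻¹ * (Q * g⁻¹))) (g * (P⁻¹ * (f * m⁻¹))) := o.cv hδ (1) e7 (by simp only [mul_assoc, mul_inv_rev, inv_inv, mul_inv_cancel_left, inv_mul_cancel_left, mul_inv_cancel, inv_mul_cancel, mul_one, one_mul, inv_one, C]) (by simp only [mul_assoc, mul_inv_rev, inv_inv, mul_inv_cancel_left, inv_mul_cancel_left, mul_inv_cancel, inv_mul_cancel, mul_one, one_mul, inv_one, C])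
  have k33 : o.lt (g * (P⁻¹ * (f * m⁻¹))) (g * (P⁻¹ * (Q * g⁻¹))) ↔ o.lt (g * (P⁻¹ * (f * m⁻¹))) (g * (P⁻¹ * (Q * g⁻¹))) := o.cv hδ (1) e6 (by simp only [mul_assoc, mul_inv_rev, inv_inv, mul_inv_cancel_left, inv_mul_cancel_left, mul_inv_cancel, inv_mul_cancel, mul_one, one_mul, inv_one, C]) (by simp only [mul_assoc, mul_inv_rev, inv_inv, mul_inv_cancel_left, inv_mul_cancel_left, mul_inv_cancel, inv_mul_cancel, mul_one, one_mul, inv_one, C])
  have k34 : o.lt (g * (P⁻¹ * (Q * f⁻¹))) (g * (P⁻¹ * (Q * g⁻¹))) ↔ o.lt (g * (P⁻¹ * (Q * f⁻¹))) (g * (P⁻¹ * (Q * g⁻¹))) := o.cv hδ (1) e8 (by simp only [mul_assoc, mul_inv_rev, inv_inv, mul_inv_cancel_left, inv_mul_cancel_left, mul_inv_cancel, inv_mul_cancel, mul_one, one_mul, inv_one, C]) (by simp only [mul_assoc, mul_inv_rev, inv_inv, mul_inv_cancel_left, inv_mul_cancel_left, mul_inv_cancel, inv_mul_cancel, mul_one, one_mul, inv_one, C])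
  have k35 : o.lt (g * (P⁻¹ * (f * Q⁻¹))) (g * (P⁻¹ * (m * f⁻¹))) ↔ o.lt (g * (P⁻¹ * (Q * f⁻¹))) (g * (P⁻¹ * (m * Q⁻¹))) := o.cv hδ (Q * (f⁻¹ * (Q * f⁻¹))) e9 (by simp only [mul_assoc, mul_inv_rev, inv_inv, mul_inv_cancel_left, inv_mul_cancel_left, mul_inv_cancel, inv_mul_cancel, mul_one, one_mul, inv_one, C]) (by simp only [mul_assoc, mul_inv_rev, inv_inv, mul_inv_cancel_left, inv_mul_cancel_left, mul_inv_cancel, inv_mul_cancel, mul_one, one_mul, inv_one, C])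
  have k36 : o.lt (g * (P⁻¹ * (m * Q⁻¹))) (g * (P⁻¹ * (Q * g⁻¹))) ↔ o.lt (g * (P⁻¹ * (m * Q⁻¹))) (g * (P⁻¹ * (Q * g⁻¹))) := o.cv hδ (1) e11 (by simp only [mul_assoc, mul_inv_rev, inv_inv, mul_inv_cancel_left, inv_mul_cancel_left, mul_inv_cancel, inv_mul_cancel, mul_one, one_mul, inv_one, C]) (by simp only [mul_assoc, mul_inv_rev, inv_inv, mul_inv_cancel_left, inv_mul_cancel_left, mul_inv_cancel, inv_mul_cancel, mul_one, one_mul, inv_one, C])
  have k37 : o.lt (g * P⁻¹) (Q * m⁻¹) ↔ o.lt (g * (P⁻¹ * (m * Q⁻¹))) (1) := o.cv hδ (m * Q⁻¹) e10 (by simp only [mul_assoc, mul_inv_rev, inv_inv, mul_inv_cancel_left, inv_mul_cancel_left, mul_inv_cancel, inv_mul_cancel, mul_one, one_mul, inv_one, C]) (by simp only [mul_assoc, mul_inv_rev, inv_inv, mul_inv_cancel_left, inv_mul_cancel_left, mul_inv_cancel, inv_mul_cancel, mul_one, one_mul, inv_one, C])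
  have k38 : o.lt (P * f⁻¹) (P * g⁻¹) ↔ o.lt (P * f⁻¹) (P * g⁻¹) := o.cv hδ (1) e12 (by simp only [mul_assoc, mul_inv_rev, inv_inv, mul_inv_cancel_left, inv_mul_cancel_left, mul_inv_cancel, inv_mul_cancel, mul_one, one_mul, inv_one, C]) (by simp only [mul_assoc, mul_inv_rev, inv_inv, mul_inv_cancel_left, inv_mul_cancel_left, mul_inv_cancel, inv_mul_cancel, mul_one, one_mul, inv_one, C])
  have k39 : o.lt (g * Q⁻¹) (g * P⁻¹) ↔ o.lt ((Q * g⁻¹)⁻¹) ((P * g⁻¹)⁻¹) := o.cv hδ (1) e1 (by simp only [mul_assoc, mul_inv_rev, inv_inv, mul_inv_cancel_left, inv_mul_cancel_left, mul_inv_cancel, inv_mul_cancel, mul_one, one_mul, inv_one, C]) (by simp only [mul_assoc, mul_inv_rev, inv_inv, mul_inv_cancel_left, inv_mul_cancel_left, mul_inv_cancel, inv_mul_cancel, mul_one, one_mul, inv_one, C])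
  have k40 : o.lt (f * P⁻¹) (g * P⁻¹) ↔ o.lt ((P * f⁻¹)⁻¹) ((P * g⁻¹)⁻¹) := o.cv hδ (1) e2 (by simp only [mul_assoc, mul_inv_rev, inv_inv, mul_inv_cancel_left, inv_mul_cancel_left, mul_inv_cancel, inv_mul_cancel, mul_one, one_mul, inv_one, C]) (by simp only [mul_assoc, mul_inv_rev, inv_inv, mul_inv_cancel_left, inv_mul_cancel_left, mul_inv_cancel, inv_mul_cancel, mul_one, one_mul, inv_one, C])
  exact ser_CAE_2_prop
    (fun b0 b1 b2 => N0.rd.r0 1 (k0.1 b0) (fun h => b1 (k1.2 h)) (fun h => b2 (k2.2 h)))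
    (fun b0 b1 b2 => N1.r.r0 1 (fun h => b0 (k3.2 h)) (k4.1 b1) (fun h => b2 (k5.2 h)))
    (fun b0 b1 b2 => N1.r.r1 1 (fun h => b0 (k6.2 h)) (fun h => b1 (k7.2 h)) (k5.1 b2))
    (fun b0 b1 b2 => N1.i.r0 (g * P⁻¹) (fun h => b0 (k8.2 h)) (k9.1 b1) (fun h => b2 (k10.2 h)))
    (fun b0 b1 b2 => N1.i.r1 (g * P⁻¹) (fun h => b0 (k11.2 h)) (fun h => b1 (k12.2 h)) (k10.1 b2))
    (fun b0 b1 => o.asym (k13.1 b0) (k14.1 b1))
    (fun b0 b1 => o.asym (k15.1 b0) (k16.1 b1))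
    (fun b0 b1 => o.asym (k17.1 b0) (k18.1 b1))
    (fun b0 b1 b2 => o.tri (k19.1 b0) (fun h => b1 (k17.2 h)) (fun h => b2 (k20.2 h)))
    (fun b0 b1 b2 => o.tri (k18.1 b0) (fun h => b1 (k21.2 h)) (fun h => b2 (k22.2 h)))
    (fun b0 b1 => o.asym (k21.1 b0) (k23.1 b1))
    (fun b0 b1 b2 => o.tri (k24.1 b0) (fun h => b1 (k25.2 h)) (fun h => b2 (k26.2 h)))
    (fun b0 b1 b2 => o.tri (k27.1 b0) (fun h => b1 (k28.2 h)) (fun h => b2 (k29.2 h)))
    (fun b0 b1 b2 => o.tri (k30.1 b0) (fun h => b1 (k31.2 h)) (fun h => b2 (k32.2 h)))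
    (fun b0 b1 => o.asym (k33.1 b0) (k32.1 b1))
    (fun b0 b1 b2 => o.tri (k34.1 b0) (fun h => b1 (k35.2 h)) (fun h => b2 (k36.2 h)))
    (fun b0 b1 b2 => o.tri (k36.1 b0) (fun h => b1 (k37.2 h)) (fun h => b2 (k31.2 h)))
    (fun h => g0 (k38.1 h))
    (fun h => g1 (k39.1 h))
    (k40.2 g2)

end Pool.Agent.K7.H31.SA
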