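import Pool.Agent.K7.H31.SA.Rules

set_option autoImplicit false
set_option maxRecDepth 100000
set_option linter.all false

/-!
# Generated order arguments
-/

namespace Pool.Agent.K7.H31.SA

theorem ser_EAA_0_prop {A1 A2 A3 A4 A5 A6 A7 A8 A9 A10 A11 A12 A13 A14 A15 A16 A17 A18 A19 A20 A21 A22 A23 A24 A25 A26 A27 A28 A29 A30 A31 A32 A33 A34 A35 A36 A37 : Prop}
    (c0 : ¬ A2 → A30 → ¬ A8 → False)
    (c1 : ¬ A2 → A10 → ¬ A8 → False)
    (c2 : ¬ A1 → ¬ A37 → A8 → False)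
    (c3 : ¬ A30 → ¬ A9 → A27 → False)
    (c4 : ¬ A32 → A31 → ¬ A33 → False)
    (c5 : ¬ A8 → ¬ A34 → A33 → False)
    (c6 : ¬ A15 → A16 → ¬ A10 → False)
    (c7 : A15 → ¬ A1 → ¬ A11 → False)
    (c8 : ¬ A6 → A12 → ¬ A1 → False)
    (c9 : ¬ A18 → ¬ A2 → A10 → False)
    (c10 : ¬ A20 → A24 → ¬ A21 → False)
    (c11 : ¬ A1 → ¬ A14 → A21 → False)
    (c12 : ¬ A16 → A26 → ¬ A22 → False)
    (c13 : ¬ A1 → ¬ A17 → A22 → False)
    (c14 : A13 → A2 → False)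
    (c15 : A19 → A3 → False)
    (c16 : A23 → A4 → False)
    (c17 : A2 → ¬ A31 → ¬ A4 → False)
    (c18 : A32 → ¬ A33 → ¬ A35 → False)
    (c19 : A33 → A36 → False)
    (c20 : A27 → A8 → False)
    (c21 : A34 → ¬ A4 → ¬ A13 → False)
    (c22 : A35 → ¬ A5 → ¬ A13 → False)
    (c23 : A28 → ¬ A27 → ¬ A29 → False)
    (c24 : A37 → ¬ A29 → ¬ A36 → False)
    (c25 : A10 → ¬ A12 → ¬ A27 → False)
    (c26 : A9 → ¬ A2 → ¬ A15 → False)
    (c27 : A23 → ¬ A25 → ¬ A28 → False)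
    (c28 : A7 → ¬ A28 → ¬ A4 → False)
    (c29 : A6 → ¬ A7 → ¬ A26 → False)
    (c30 : A16 → A18 → False)
    (c31 : A17 → A26 → False)
    (c32 : A25 → ¬ A26 → ¬ A15 → False)
    (c33 : A2 → ¬ A4 → ¬ A24 → False)
    (c34 : A5 → ¬ A3 → ¬ A21 → False)
    (c35 : A11 → ¬ A10 → ¬ A2 → False)
    (c36 : A14 → ¬ A13 → ¬ A4 → False)
    (c37 : A20 → ¬ A19 → ¬ A4 → False)
    (u0 : ¬ A1)
    (u1 : A23)
    (u2 : ¬ A29)
    : False := by
  have q1 : ¬ A4 := fun h => c16 u1 h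
  rcases Classical.em A2 with q2 | q2
  · have q3 : ¬ A13 := fun h => c14 h q2
    have q4 : A31 := Classical.byContradiction fun h => c17 q2 h q1
    have q5 : ¬ A34 := fun h => c21 h q1 q3
    have q6 : A24 := Classical.byContradiction fun h => c33 q2 q1 h
    have q7 : ¬ A14 := fun h => c36 h q3 q1
    have q8 : ¬ A21 := fun h => c11 u0 q7 h
    have q9 : A20 := Classical.byContradiction fun h => c10 h q6 q8
    have q10 : A19 := Classical.byContradiction fun h => c37 q9 h q1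
    have q11 : ¬ A3 := fun h => c15 q10 h
    have q12 : ¬ A5 := fun h => c34 h q11 q8
    have q13 : ¬ A35 := fun h => c22 h q12 q3
    rcases Classical.em A33 with q14 | q14
    · have q15 : A8 := Classical.byContradiction fun h => c5 h q5 q14
      have q16 : A37 := Classical.byContradiction fun h => c2 u0 h q15
      have q17 : ¬ A36 := fun h => c19 q14 h
      exact c24 q16 u2 q17
    · have q18 : A32 := Classical.byContradiction fun h => c4 h q4 q14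
      exact c18 q18 q14 q13
  · rcases Classical.em A8 with q19 | q19
    · have q20 : A37 := Classical.byContradiction fun h => c2 u0 h q19
      have q21 : ¬ A27 := fun h => c20 h q19
      have q22 : ¬ A28 := fun h => c23 h q21 u2
      have q23 : A36 := Classical.byContradiction fun h => c24 q20 u2 h
      have q24 : ¬ A33 := fun h => c19 h q23
      have q25 : A25 := Classical.byContradiction fun h => c27 u1 h q22
      have q26 : ¬ A7 := fun h => c28 h q22 q1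
      rcases Classical.em A10 with q27 | q27
      · have q28 : A18 := Classical.byContradiction fun h => c9 h q2 q27
        have q29 : A12 := Classical.byContradiction fun h => c25 q27 h q21
        have q30 : A6 := Classical.byContradiction fun h => c8 h q29 u0
        have q31 : A26 := Classical.byContradiction fun h => c29 q30 q26 h
        have q32 : ¬ A16 := fun h => c30 h q28
        have q33 : A22 := Classical.byContradiction fun h => c12 q32 q31 h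
        have q34 : A17 := Classical.byContradiction fun h => c13 u0 h q33
        exact c31 q34 q31
      · have q35 : ¬ A11 := fun h => c35 h q27 q2
        have q36 : ¬ A15 := fun h => c7 h u0 q35
        have q37 : ¬ A16 := fun h => c6 q36 h q27
        have q38 : ¬ A9 := fun h => c26 h q2 q36
        have q39 : A26 := Classical.byContradiction fun h => c32 q25 h q36
        have q40 : A22 := Classical.byContradiction fun h => c12 q37 q39 h
        have q41 : A17 := Classical.byContradiction fun h => c13 u0 h q40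
        exact c31 q41 q39
    · have q42 : ¬ A30 := fun h => c0 q2 h q19
      have q43 : ¬ A10 := fun h => c1 q2 h q19
      have q44 : ¬ A11 := fun h => c35 h q43 q2
      have q45 : ¬ A15 := fun h => c7 h u0 q44
      have q46 : ¬ A16 := fun h => c6 q45 h q43
      have q47 : ¬ A9 := fun h => c26 h q2 q45
      have q48 : ¬ A27 := fun h => c3 q42 q47 h
      have q49 : ¬ A28 := fun h => c23 h q48 u2
      have q50 : A25 := Classical.byContradiction fun h => c27 u1 h q49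
      have q51 : ¬ A7 := fun h => c28 h q49 q1
      have q52 : A26 := Classical.byContradiction fun h => c32 q50 h q45
      have q53 : A22 := Classical.byContradiction fun h => c12 q46 q52 h
      have q54 : A17 := Classical.byContradiction fun h => c13 u0 h q53
      exact c31 q54 q52

theorem ser_EAA_0 {G : Type*} [Group G] {δ : G → ZMod 3} (hδ : ∀ u v, δ (u * v) = δ u + δ v) (o : Pre δ)
    {P m Q f g : G} {e : ZMod 3} (h3 : 3 * e = 0)
    (D : δ P = e ∧ δ m = e ∧ δ Q = -e ∧ δ f = 0 ∧ δ g = 0)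
    (C : Cube P f ∧ Cube P g ∧ Cube m f ∧ Cube m g ∧ Cube Q f ∧ Cube Q g)
    (N0 : RE o P m f g)
    (N1 : RA o m Q f g)
    (g0 : ¬ o.lt (P * g⁻¹) (P * f⁻¹)) (g1 : o.lt (P * f⁻¹) (g * Q⁻¹)) (g2 : ¬ o.lt ((P * g⁻¹)⁻¹) ((g * Q⁻¹)⁻¹)) : False := by
  simp only [Cube] at C
  have e0 : δ (P * g⁻¹) = δ (P * f⁻¹) := by simp only [hδ, δinv hδ, δone hδ, D] <;> linear_combination (0) * h3
  have e1 : δ (m * f⁻¹) = δ (P * f⁻¹) := by simp only [hδ, δinv hδ, δone hδ, D] <;> linear_combination (0) * h3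
  have e2 : δ (f * Q⁻¹) = δ (P * f⁻¹) := by simp only [hδ, δinv hδ, δone hδ, D] <;> linear_combination (0) * h3
  have e3 : δ (g * Q⁻¹) = δ (P * f⁻¹) := by simp only [hδ, δinv hδ, δone hδ, D] <;> linear_combination (0) * h3
  have e4 : δ (Q * m⁻¹) = δ (P * f⁻¹) := by simp only [hδ, δinv hδ, δone hδ, D] <;> linear_combination (-1) * h3
  have e5 : δ (f * (P⁻¹ * (f * g⁻¹))) = δ (P * (f⁻¹ * (m * g⁻¹))) := by simp only [hδ, δinv hδ, δone hδ, D] <;> linear_combination (-1) * h3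
  have e6 : δ (f * P⁻¹) = δ (P * (f⁻¹ * (g * Q⁻¹))) := by simp only [hδ, δinv hδ, δone hδ, D] <;> linear_combination (-1) * h3
  have e7 : δ (g * P⁻¹) = δ (f * P⁻¹) := by simp only [hδ, δinv hδ, δone hδ, D] <;> linear_combination (0) * h3
  have e8 : δ (f * m⁻¹) = δ (f * P⁻¹) := by simp only [hδ, δinv hδ, δone hδ, D] <;> linear_combination (0) * h3
  have e9 : δ (P * f⁻¹) = δ (P * g⁻¹) := by simp only [hδ, δinv hδ, δone hδ, D] <;> linear_combination (0) * h3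
  have e10 : δ (P * (f⁻¹ * (g * P⁻¹))) = δ (P * m⁻¹) := by simp only [hδ, δinv hδ, δone hδ, D] <;> linear_combination (0) * h3
  have e11 : δ (f * (P⁻¹ * (f * g⁻¹))) = δ (f * P⁻¹) := by simp only [hδ, δinv hδ, δone hδ, D] <;> linear_combination (0) * h3
  have e12 : δ (P * f⁻¹) = δ (m * f⁻¹) := by simp only [hδ, δinv hδ, δone hδ, D] <;> linear_combination (0) * h3
  have e13 : δ (P * m⁻¹) = δ (P * (f⁻¹ * (Q * g⁻¹))) := by simp only [hδ, δinv hδ, δone hδ, D] <;> linear_combination (0) * h3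
  have e14 : δ (P * (m⁻¹ * (f * m⁻¹))) = δ (f * P⁻¹) := by simp only [hδ, δinv hδ, δone hδ, D] <;> linear_combination (0) * h3
  have e15 : δ (P * (m⁻¹ * (f * m⁻¹))) = δ (P * (f⁻¹ * (m * g⁻¹))) := by simp only [hδ, δinv hδ, δone hδ, D] <;> linear_combination (-1) * h3
  have e16 : δ (P * (m⁻¹ * (f * m⁻¹))) = δ (P * (f⁻¹ * (g * Q⁻¹))) := by simp only [hδ, δinv hδ, δone hδ, D] <;> linear_combination (-1) * h3
  have e17 : δ (P * (f⁻¹ * (m * g⁻¹))) = δ (P * (m⁻¹ * (f * m⁻¹))) := by simp only [hδ, δinv hδ, δone hδ, D] <;> linear_combination (1) * h3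
  have e18 : δ (P * f⁻¹) = δ (f * Q⁻¹) := by simp only [hδ, δinv hδ, δone hδ, D] <;> linear_combination (0) * h3
  have e19 : δ (P * (Q⁻¹ * (f * Q⁻¹))) = δ (P * (f⁻¹ * (Q * g⁻¹))) := by simp only [hδ, δinv hδ, δone hδ, D] <;> linear_combination (1) * h3
  have e20 : δ (P * Q⁻¹) = δ (P * (m⁻¹ * (f * m⁻¹))) := by simp only [hδ, δinv hδ, δone hδ, D] <;> linear_combination (1) * h3
  have e21 : δ (P * (f⁻¹ * (Q * g⁻¹))) = δ (P * (f⁻¹ * (g * m⁻¹))) := by simp only [hδ, δinv hδ, δone hδ, D] <;> linear_combination (0) * h3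
  have e22 : δ (P * f⁻¹) = δ (g * Q⁻¹) := by simp only [hδ, δinv hδ, δone hδ, D] <;> linear_combination (0) * h3
  have e23 : δ (P * (f⁻¹ * (Q * g⁻¹))) = δ (P * m⁻¹) := by simp only [hδ, δinv hδ, δone hδ, D] <;> linear_combination (0) * h3
  have e24 : δ (P * (f⁻¹ * (g * Q⁻¹))) = δ (f * P⁻¹) := by simp only [hδ, δinv hδ, δone hδ, D] <;> linear_combination (1) * h3
  have e25 : δ (P * (f⁻¹ * (g * Q⁻¹))) = δ (P * (m⁻¹ * (f * m⁻¹))) := by simp only [hδ, δinv hδ, δone hδ, D] <;> linear_combination (1) * h3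
  have e26 : δ (f * m⁻¹) = δ (g * m⁻¹) := by simp only [hδ, δinv hδ, δone hδ, D] <;> linear_combination (0) * h3
  have e27 : δ (f * P⁻¹) = δ (Q * g⁻¹) := by simp only [hδ, δinv hδ, δone hδ, D] <;> linear_combination (0) * h3
  have e28 : δ (g * P⁻¹) = δ (Q * g⁻¹) := by simp only [hδ, δinv hδ, δone hδ, D] <;> linear_combination (0) * h3
  have e29 : δ (m * f⁻¹) = δ (m * g⁻¹) := by simp only [hδ, δinv hδ, δone hδ, D] <;> linear_combination (0) * h3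
  have e30 : δ (m * f⁻¹) = δ (g * Q⁻¹) := by simp only [hδ, δinv hδ, δone hδ, D] <;> linear_combination (0) * h3
  have e31 : δ (m * g⁻¹) = δ (m * f⁻¹) := by simp only [hδ, δinv hδ, δone hδ, D] <;> linear_combination (0) * h3
  have e32 : δ (g * m⁻¹) = δ (Q * g⁻¹) := by simp only [hδ, δinv hδ, δone hδ, D] <;> linear_combination (0) * h3
  have e33 : δ (g * Q⁻¹) = δ (m * f⁻¹) := by simp only [hδ, δinv hδ, δone hδ, D] <;> linear_combination (0) * h3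
  have e34 : δ (Q * m⁻¹) = δ (m * f⁻¹) := by simp only [hδ, δinv hδ, δone hδ, D] <;> linear_combination (-1) * h3
  have e35 : δ (Q * m⁻¹) = δ (m * g⁻¹) := by simp only [hδ, δinv hδ, δone hδ, D] <;> linear_combination (-1) * h3
  have e36 : δ (g * P⁻¹) = δ (g * m⁻¹) := by simp only [hδ, δinv hδ, δone hδ, D] <;> linear_combination (0) * h3
  have k0 : o.lt (m * f⁻¹) (P * f⁻¹) ↔ o.lt (1 * (m * f⁻¹)) (1 * (P * f⁻¹)) := o.cv hδ (1) e1 (by simp only [mul_assoc, mul_inv_rev, inv_inv, mul_inv_cancel_left, inv_mul_cancel_left, mul_inv_cancel, inv_mul_cancel, mul_one, one_mul, inv_one, C]) (by simp only [mul_assoc, mul_inv_rev, inv_inv, mul_inv_cancel_left, inv_mul_cancel_left, mul_inv_cancel, inv_mul_cancel, mul_one, one_mul, inv_one, C])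
  have k1 : o.lt (m * f⁻¹) (m * g⁻¹) ↔ o.lt (1 * (m * f⁻¹)) (1 * (m * g⁻¹)) := o.cv hδ (1) e29 (by simp only [mul_assoc, mul_inv_rev, inv_inv, mul_inv_cancel_left, inv_mul_cancel_left, mul_inv_cancel, inv_mul_cancel, mul_one, one_mul, inv_one, C]) (by simp only [mul_assoc, mul_inv_rev, inv_inv, mul_inv_cancel_left, inv_mul_cancel_left, mul_inv_cancel, inv_mul_cancel, mul_one, one_mul, inv_one, C])
  have k2 : o.lt (g * P⁻¹) (f * P⁻¹) ↔ o.lt (1 * (P * g⁻¹)⁻¹) (1 * (P * f⁻¹)⁻¹) := o.cv hδ (1) e7 (by simp only [mul_assoc, mul_inv_rev, inv_inv, mul_inv_cancel_left, inv_mul_cancel_left, mul_inv_cancel, inv_mul_cancel, mul_one, one_mul, inv_one, C]) (by simp only [mul_assoc, mul_inv_rev, inv_inv, mul_inv_cancel_left, inv_mul_cancel_left, mul_inv_cancel, inv_mul_cancel, mul_one, one_mul, inv_one, C])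
  have k3 : o.lt (m * f⁻¹) (P * f⁻¹) ↔ o.lt (1 * (m * g⁻¹)) (1 * (P * g⁻¹)) := o.cv hδ (f * g⁻¹) e1 (by simp only [mul_assoc, mul_inv_rev, inv_inv, mul_inv_cancel_left, inv_mul_cancel_left, mul_inv_cancel, inv_mul_cancel, mul_one, one_mul, inv_one, C]) (by simp only [mul_assoc, mul_inv_rev, inv_inv, mul_inv_cancel_left, inv_mul_cancel_left, mul_inv_cancel, inv_mul_cancel, mul_one, one_mul, inv_one, C])
  have k4 : o.lt (P * f⁻¹) (P * g⁻¹) ↔ o.lt (1 * (P * f⁻¹)) (1 * (P * g⁻¹)) := o.cv hδ (1) e9 (by simp only [mul_assoc, mul_inv_rev, inv_inv, mul_inv_cancel_left, inv_mul_cancel_left, mul_inv_cancel, inv_mul_cancel, mul_one, one_mul, inv_one, C]) (by simp only [mul_assoc, mul_inv_rev, inv_inv, mul_inv_cancel_left, inv_mul_cancel_left, mul_inv_cancel, inv_mul_cancel, mul_one, one_mul, inv_one, C])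
  have k5 : o.lt (g * P⁻¹) (f * P⁻¹) ↔ o.lt (1 * (m * g⁻¹)⁻¹) (1 * (m * f⁻¹)⁻¹) := o.cv hδ (P * m⁻¹) e7 (by simp only [mul_assoc, mul_inv_rev, inv_inv, mul_inv_cancel_left, inv_mul_cancel_left, mul_inv_cancel, inv_mul_cancel, mul_one, one_mul, inv_one, C]) (by simp only [mul_assoc, mul_inv_rev, inv_inv, mul_inv_cancel_left, inv_mul_cancel_left, mul_inv_cancel, inv_mul_cancel, mul_one, one_mul, inv_one, C])
  have k6 : o.lt (P * g⁻¹) (P * f⁻¹) ↔ o.lt (1 * (P * g⁻¹)) (1 * (P * f⁻¹)) := o.cv hδ (1) e0 (by simp only [mul_assoc, mul_inv_rev, inv_inv, mul_inv_cancel_left, inv_mul_cancel_left, mul_inv_cancel, inv_mul_cancel, mul_one, one_mul, inv_one, C]) (by simp only [mul_assoc, mul_inv_rev, inv_inv, mul_inv_cancel_left, inv_mul_cancel_left, mul_inv_cancel, inv_mul_cancel, mul_one, one_mul, inv_one, C])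
  have k7 : o.lt (g * P⁻¹) (g * m⁻¹) ↔ o.lt (1 * (P * g⁻¹)⁻¹) (1 * (m * g⁻¹)⁻¹) := o.cv hδ (1) e36 (by simp only [mul_assoc, mul_inv_rev, inv_inv, mul_inv_cancel_left, inv_mul_cancel_left, mul_inv_cancel, inv_mul_cancel, mul_one, one_mul, inv_one, C]) (by simp only [mul_assoc, mul_inv_rev, inv_inv, mul_inv_cancel_left, inv_mul_cancel_left, mul_inv_cancel, inv_mul_cancel, mul_one, one_mul, inv_one, C])
  have k8 : o.lt (f * m⁻¹) (f * P⁻¹) ↔ o.lt (1 * (m * f⁻¹)⁻¹) (1 * (P * f⁻¹)⁻¹) := o.cv hδ (1) e8 (by simp only [mul_assoc, mul_inv_rev, inv_inv, mul_inv_cancel_left, inv_mul_cancel_left, mul_inv_cancel, inv_mul_cancel, mul_one, one_mul, inv_one, C]) (by simp only [mul_assoc, mul_inv_rev, inv_inv, mul_inv_cancel_left, inv_mul_cancel_left, mul_inv_cancel, inv_mul_cancel, mul_one, one_mul, inv_one, C])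
  have k9 : o.lt (f * m⁻¹) (g * m⁻¹) ↔ o.lt (1 * (m * f⁻¹)⁻¹) (1 * (m * g⁻¹)⁻¹) := o.cv hδ (1) e26 (by simp only [mul_assoc, mul_inv_rev, inv_inv, mul_inv_cancel_left, inv_mul_cancel_left, mul_inv_cancel, inv_mul_cancel, mul_one, one_mul, inv_one, C]) (by simp only [mul_assoc, mul_inv_rev, inv_inv, mul_inv_cancel_left, inv_mul_cancel_left, mul_inv_cancel, inv_mul_cancel, mul_one, one_mul, inv_one, C])
  have k10 : o.lt (m * g⁻¹) (m * f⁻¹) ↔ o.lt (1 * (m * g⁻¹)) (1 * (m * f⁻¹)) := o.cv hδ (1) e31 (by simp only [mul_assoc, mul_inv_rev, inv_inv, mul_inv_cancel_left, inv_mul_cancel_left, mul_inv_cancel, inv_mul_cancel, mul_one, one_mul, inv_one, C]) (by simp only [mul_assoc, mul_inv_rev, inv_inv, mul_inv_cancel_left, inv_mul_cancel_left, mul_inv_cancel, inv_mul_cancel, mul_one, one_mul, inv_one, C])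
  have k11 : o.lt (m * f⁻¹) (g * Q⁻¹) ↔ o.lt (1 * (m * f⁻¹)) (1 * (g * Q⁻¹)) := o.cv hδ (1) e30 (by simp only [mul_assoc, mul_inv_rev, inv_inv, mul_inv_cancel_left, inv_mul_cancel_left, mul_inv_cancel, inv_mul_cancel, mul_one, one_mul, inv_one, C]) (by simp only [mul_assoc, mul_inv_rev, inv_inv, mul_inv_cancel_left, inv_mul_cancel_left, mul_inv_cancel, inv_mul_cancel, mul_one, one_mul, inv_one, C])
  have k12 : o.lt (g * m⁻¹) (Q * g⁻¹) ↔ o.lt (1 * (m * g⁻¹)⁻¹) (1 * (g * Q⁻¹)⁻¹) := o.cv hδ (1) e32 (by simp only [mul_assoc, mul_inv_rev, inv_inv, mul_inv_cancel_left, inv_mul_cancel_left, mul_inv_cancel, inv_mul_cancel, mul_one, one_mul, inv_one, C]) (by simp only [mul_assoc, mul_inv_rev, inv_inv, mul_inv_cancel_left, inv_mul_cancel_left, mul_inv_cancel, inv_mul_cancel, mul_one, one_mul, inv_one, C])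
  have k13 : o.lt (g * P⁻¹) (f * P⁻¹) ↔ o.lt (1 * (g * Q⁻¹)) (1 * (f * Q⁻¹)) := o.cv hδ (P * Q⁻¹) e7 (by simp only [mul_assoc, mul_inv_rev, inv_inv, mul_inv_cancel_left, inv_mul_cancel_left, mul_inv_cancel, inv_mul_cancel, mul_one, one_mul, inv_one, C]) (by simp only [mul_assoc, mul_inv_rev, inv_inv, mul_inv_cancel_left, inv_mul_cancel_left, mul_inv_cancel, inv_mul_cancel, mul_one, one_mul, inv_one, C])
  have k14 : o.lt (g * Q⁻¹) (m * f⁻¹) ↔ o.lt (1 * (g * Q⁻¹)) (1 * (m * f⁻¹)) := o.cv hδ (1) e33 (by simp only [mul_assoc, mul_inv_rev, inv_inv, mul_inv_cancel_left, inv_mul_cancel_left, mul_inv_cancel, inv_mul_cancel, mul_one, one_mul, inv_one, C]) (by simp only [mul_assoc, mul_inv_rev, inv_inv, mul_inv_cancel_left, inv_mul_cancel_left, mul_inv_cancel, inv_mul_cancel, mul_one, one_mul, inv_one, C])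
  have k15 : o.lt (P * (m⁻¹ * (f * m⁻¹))) (f * P⁻¹) ↔ o.lt ((P * f⁻¹) * (m * f⁻¹)) ((P * f⁻¹) * (P * f⁻¹)) := o.cv hδ (m * (f⁻¹ * (m * (f⁻¹ * (m * f⁻¹))))) e14 (by simp only [mul_assoc, mul_inv_rev, inv_inv, mul_inv_cancel_left, inv_mul_cancel_left, mul_inv_cancel, inv_mul_cancel, mul_one, one_mul, inv_one, C]) (by simp only [mul_assoc, mul_inv_rev, inv_inv, mul_inv_cancel_left, inv_mul_cancel_left, mul_inv_cancel, inv_mul_cancel, mul_one, one_mul, inv_one, C])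
  have k16 : o.lt (P * (m⁻¹ * (f * m⁻¹))) (P * (f⁻¹ * (m * g⁻¹))) ↔ o.lt ((P * f⁻¹) * (m * f⁻¹)) ((P * f⁻¹) * (m * g⁻¹)) := o.cv hδ (m * (f⁻¹ * (m * (f⁻¹ * (m * f⁻¹))))) e15 (by simp only [mul_assoc, mul_inv_rev, inv_inv, mul_inv_cancel_left, inv_mul_cancel_left, mul_inv_cancel, inv_mul_cancel, mul_one, one_mul, inv_one, C]) (by simp only [mul_assoc, mul_inv_rev, inv_inv, mul_inv_cancel_left, inv_mul_cancel_left, mul_inv_cancel, inv_mul_cancel, mul_one, one_mul, inv_one, C])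
  have k17 : o.lt (P * f⁻¹) (P * g⁻¹) ↔ o.lt ((P * f⁻¹) * (P * g⁻¹)⁻¹) ((P * f⁻¹) * (P * f⁻¹)⁻¹) := o.cv hδ (g * P⁻¹) e9 (by simp only [mul_assoc, mul_inv_rev, inv_inv, mul_inv_cancel_left, inv_mul_cancel_left, mul_inv_cancel, inv_mul_cancel, mul_one, one_mul, inv_one, C]) (by simp only [mul_assoc, mul_inv_rev, inv_inv, mul_inv_cancel_left, inv_mul_cancel_left, mul_inv_cancel, inv_mul_cancel, mul_one, one_mul, inv_one, C])
  have k18 : o.lt (P * g⁻¹) (P * f⁻¹) ↔ o.lt ((P * f⁻¹) * (P * f⁻¹)⁻¹) ((P * f⁻¹) * (P * g⁻¹)⁻¹) := o.cv hδ (g * P⁻¹) e0 (by simp only [mul_assoc, mul_inv_rev, inv_inv, mul_inv_cancel_left, inv_mul_cancel_left, mul_inv_cancel, inv_mul_cancel, mul_one, one_mul, inv_one, C]) (by simp only [mul_assoc, mul_inv_rev, inv_inv, mul_inv_cancel_left, inv_mul_cancel_left, mul_inv_cancel, inv_mul_cancel, mul_one, one_mul, inv_one, C])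
  have k19 : o.lt (P * (f⁻¹ * (g * P⁻¹))) (P * m⁻¹) ↔ o.lt ((P * f⁻¹) * (P * g⁻¹)⁻¹) ((P * f⁻¹) * (m * f⁻¹)⁻¹) := o.cv hδ (1) e10 (by simp only [mul_assoc, mul_inv_rev, inv_inv, mul_inv_cancel_left, inv_mul_cancel_left, mul_inv_cancel, inv_mul_cancel, mul_one, one_mul, inv_one, C]) (by simp only [mul_assoc, mul_inv_rev, inv_inv, mul_inv_cancel_left, inv_mul_cancel_left, mul_inv_cancel, inv_mul_cancel, mul_one, one_mul, inv_one, C])
  have k20 : o.lt (f * (P⁻¹ * (f * g⁻¹))) (P * (f⁻¹ * (m * g⁻¹))) ↔ o.lt ((P * f⁻¹) * (P * g⁻¹)) ((P * f⁻¹) * (m * g⁻¹)) := o.cv hδ (g * (f⁻¹ * (P * (f⁻¹ * (P * (f⁻¹ * (P * g⁻¹))))))) e5 (by simp only [mul_assoc, mul_inv_rev, inv_inv, mul_inv_cancel_left, inv_mul_cancel_left, mul_inv_cancel, inv_mul_cancel, mul_one, one_mul, inv_one, C]) (by simp only [mul_assoc, mul_inv_rev, inv_inv, mul_inv_cancel_left, inv_mul_cancel_left, mul_inv_cancel, inv_mul_cancel, mul_one,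 one_mul, inv_one, C])
  have k21 : o.lt (f * (P⁻¹ * (f * g⁻¹))) (f * P⁻¹) ↔ o.lt ((P * f⁻¹) * (P * g⁻¹)) ((P * f⁻¹) * (P * f⁻¹)) := o.cv hδ (g * (f⁻¹ * (P * (f⁻¹ * (P * (f⁻¹ * (P * g⁻¹))))))) e11 (by simp only [mul_assoc, mul_inv_rev, inv_inv, mul_inv_cancel_left, inv_mul_cancel_left, mul_inv_cancel, inv_mul_cancel, mul_one, one_mul, inv_one, C]) (by simp only [mul_assoc, mul_inv_rev, inv_inv, mul_inv_cancel_left, inv_mul_cancel_left, mul_inv_cancel, inv_mul_cancel, mul_one, one_mul, inv_one, C])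
  have k22 : o.lt (P * g⁻¹) (P * f⁻¹) ↔ o.lt ((P * f⁻¹) * (m * f⁻¹)⁻¹) ((P * f⁻¹) * (m * g⁻¹)⁻¹) := o.cv hδ (g * m⁻¹) e0 (by simp only [mul_assoc, mul_inv_rev, inv_inv, mul_inv_cancel_left, inv_mul_cancel_left, mul_inv_cancel, inv_mul_cancel, mul_one, one_mul, inv_one, C]) (by simp only [mul_assoc, mul_inv_rev, inv_inv, mul_inv_cancel_left, inv_mul_cancel_left, mul_inv_cancel, inv_mul_cancel, mul_one, one_mul, inv_one, C])
  have k23 : o.lt (P * (f⁻¹ * (m * g⁻¹))) (P * (m⁻¹ * (f * m⁻¹))) ↔ o.lt ((P * f⁻¹) * (m * g⁻¹)) ((P * f⁻¹) * (m * f⁻¹)) := o.cv hδ (1) e17 (by simp only [mul_assoc, mul_inv_rev, inv_inv, mul_inv_cancel_left, inv_mul_cancel_left, mul_inv_cancel, inv_mul_cancel, mul_one, one_mul, inv_one, C]) (by simp only [mul_assoc, mul_inv_rev, inv_inv, mul_inv_cancel_left, inv_mul_cancel_left, mul_inv_cancel, inv_mul_cancel, mul_one, one_mul, inv_one, C])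
  have k24 : o.lt (m * f⁻¹) (P * f⁻¹) ↔ o.lt ((P * f⁻¹) * (P * f⁻¹)⁻¹) ((P * f⁻¹) * (m * f⁻¹)⁻¹) := o.cv hδ (f * m⁻¹) e1 (by simp only [mul_assoc, mul_inv_rev, inv_inv, mul_inv_cancel_left, inv_mul_cancel_left, mul_inv_cancel, inv_mul_cancel, mul_one, one_mul, inv_one, C]) (by simp only [mul_assoc, mul_inv_rev, inv_inv, mul_inv_cancel_left, inv_mul_cancel_left, mul_inv_cancel, inv_mul_cancel, mul_one, one_mul, inv_one, C])
  have k25 : o.lt (P * f⁻¹) (P * g⁻¹) ↔ o.lt ((P * f⁻¹) * (m * g⁻¹)⁻¹) ((P * f⁻¹) * (m * f⁻¹)⁻¹) := o.cv hδ (g * m⁻¹) e9 (by simp only [mul_assoc, mul_inv_rev, inv_inv, mul_inv_cancel_left, inv_mul_cancel_left, mul_inv_cancel, inv_mul_cancel, mul_one, one_mul, inv_one, C]) (by simp only [mul_assoc, mul_inv_rev, inv_inv, mul_inv_cancel_left, inv_mul_cancel_left, mul_inv_cancel, inv_mul_cancel, mul_one, one_mul, inv_one, C])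
  have k26 : o.lt (P * (Q⁻¹ * (f * Q⁻¹))) (P * (f⁻¹ * (Q * g⁻¹))) ↔ o.lt ((P * f⁻¹) * (Q * f⁻¹)) ((P * f⁻¹) * (Q * g⁻¹)) := o.cv hδ (Q * (f⁻¹ * (Q * (f⁻¹ * (Q * f⁻¹))))) e19 (by simp only [mul_assoc, mul_inv_rev, inv_inv, mul_inv_cancel_left, inv_mul_cancel_left, mul_inv_cancel, inv_mul_cancel, mul_one, one_mul, inv_one, C]) (by simp only [mul_assoc, mul_inv_rev, inv_inv, mul_inv_cancel_left, inv_mul_cancel_left, mul_inv_cancel, inv_mul_cancel, mul_one, one_mul, inv_one, C])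
  have k27 : o.lt (P * (f⁻¹ * (Q * g⁻¹))) (P * m⁻¹) ↔ o.lt ((P * f⁻¹) * (Q * g⁻¹)) ((P * f⁻¹) * (f * m⁻¹)) := o.cv hδ (1) e23 (by simp only [mul_assoc, mul_inv_rev, inv_inv, mul_inv_cancel_left, inv_mul_cancel_left, mul_inv_cancel, inv_mul_cancel, mul_one, one_mul, inv_one, C]) (by simp only [mul_assoc, mul_inv_rev, inv_inv, mul_inv_cancel_left, inv_mul_cancel_left, mul_inv_cancel, inv_mul_cancel, mul_one, one_mul, inv_one, C])
  have k28 : o.lt (P * Q⁻¹) (P * (m⁻¹ * (f * m⁻¹))) ↔ o.lt ((P * f⁻¹) * (Q * f⁻¹)⁻¹) ((P * f⁻¹) * (f * m⁻¹)⁻¹) := o.cv hδ (1) e20 (by simp only [mul_assoc, mul_inv_rev, inv_inv, mul_inv_cancel_left, inv_mul_cancel_left, mul_inv_cancel, inv_mul_cancel, mul_one, one_mul, inv_one, C]) (by simp only [mul_assoc, mul_inv_rev, inv_inv, mul_inv_cancel_left, inv_mul_cancel_left, mul_inv_cancel, inv_mul_cancel, mul_one, one_mul, inv_one, C])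
  have k29 : o.lt (P * g⁻¹) (P * f⁻¹) ↔ o.lt ((P * f⁻¹) * (f * m⁻¹)) ((P * f⁻¹) * (g * m⁻¹)) := o.cv hδ (g * m⁻¹) e0 (by simp only [mul_assoc, mul_inv_rev, inv_inv, mul_inv_cancel_left, inv_mul_cancel_left, mul_inv_cancel, inv_mul_cancel, mul_one, one_mul, inv_one, C]) (by simp only [mul_assoc, mul_inv_rev, inv_inv, mul_inv_cancel_left, inv_mul_cancel_left, mul_inv_cancel, inv_mul_cancel, mul_one, one_mul, inv_one, C])
  have k30 : o.lt (P * m⁻¹) (P * (f⁻¹ * (Q * g⁻¹))) ↔ o.lt ((P * f⁻¹) * (f * m⁻¹)) ((P * f⁻¹) * (Q * g⁻¹)) := o.cv hδ (1) e13 (by simp only [mul_assoc, mul_inv_rev, inv_inv, mul_inv_cancel_left, inv_mul_cancel_left, mul_inv_cancel, inv_mul_cancel, mul_one, one_mul, inv_one, C]) (by simp only [mul_assoc, mul_inv_rev, inv_inv, mul_inv_cancel_left, inv_mul_cancel_left, mul_inv_cancel, inv_mul_cancel, mul_one, one_mul, inv_one, C])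
  have k31 : o.lt (P * (f⁻¹ * (g * Q⁻¹))) (P * (m⁻¹ * (f * m⁻¹))) ↔ o.lt ((P * f⁻¹) * (g * Q⁻¹)) ((P * f⁻¹) * (m * f⁻¹)) := o.cv hδ (1) e25 (by simp only [mul_assoc, mul_inv_rev, inv_inv, mul_inv_cancel_left, inv_mul_cancel_left, mul_inv_cancel, inv_mul_cancel, mul_one, one_mul, inv_one, C]) (by simp only [mul_assoc, mul_inv_rev, inv_inv, mul_inv_cancel_left, inv_mul_cancel_left, mul_inv_cancel, inv_mul_cancel, mul_one, one_mul, inv_one, C])
  have k32 : o.lt (P * (f⁻¹ * (Q * g⁻¹))) (P * (f⁻¹ * (g * m⁻¹))) ↔ o.lt ((P * f⁻¹) * (g * Q⁻¹)⁻¹) ((P * f⁻¹) * (m * g⁻¹)⁻¹) := o.cv hδ (1) e21 (by simp only [mul_assoc, mul_inv_rev, inv_inv, mul_inv_cancel_left, inv_mul_cancel_left, mul_inv_cancel, inv_mul_cancel, mul_one, one_mul, inv_one, C]) (by simp only [mul_assoc, mul_inv_rev, inv_inv, mul_inv_cancel_left, inv_mul_cancel_left, mul_inv_cancel, inv_mul_cancel, mul_one, one_mul, inv_one, C])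
  have k33 : o.lt (P * g⁻¹) (P * f⁻¹) ↔ o.lt ((P * f⁻¹) * (f * Q⁻¹)) ((P * f⁻¹) * (g * Q⁻¹)) := o.cv hδ (g * Q⁻¹) e0 (by simp only [mul_assoc, mul_inv_rev, inv_inv, mul_inv_cancel_left, inv_mul_cancel_left, mul_inv_cancel, inv_mul_cancel, mul_one, one_mul, inv_one, C]) (by simp only [mul_assoc, mul_inv_rev, inv_inv, mul_inv_cancel_left, inv_mul_cancel_left, mul_inv_cancel, inv_mul_cancel, mul_one, one_mul, inv_one, C])
  have k34 : o.lt (P * (m⁻¹ * (f * m⁻¹))) (P * (f⁻¹ * (g * Q⁻¹))) ↔ o.lt ((P * f⁻¹) * (m * f⁻¹)) ((P * f⁻¹) * (g * Q⁻¹)) := o.cv hδ (m * (f⁻¹ * (m * (f⁻¹ * (m * f⁻¹))))) e16 (by simp only [mul_assoc, mul_inv_rev, inv_inv, mul_inv_cancel_left, inv_mul_cancel_left, mul_inv_cancel, inv_mul_cancel, mul_one, one_mul, inv_one, C]) (by simp only [mul_assoc, mul_inv_rev, inv_inv, mul_inv_cancel_left, inv_mul_cancel_left, mul_inv_cancel, inv_mul_cancel, mul_one, one_mul, inv_one, C])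
  have k35 : o.lt (P * f⁻¹) (m * f⁻¹) ↔ o.lt (P * f⁻¹) (m * f⁻¹) := o.cv hδ (1) e12 (by simp only [mul_assoc, mul_inv_rev, inv_inv, mul_inv_cancel_left, inv_mul_cancel_left, mul_inv_cancel, inv_mul_cancel, mul_one, one_mul, inv_one, C]) (by simp only [mul_assoc, mul_inv_rev, inv_inv, mul_inv_cancel_left, inv_mul_cancel_left, mul_inv_cancel, inv_mul_cancel, mul_one, one_mul, inv_one, C])
  have k36 : o.lt (m * f⁻¹) (P * f⁻¹) ↔ o.lt (m * f⁻¹) (P * f⁻¹) := o.cv hδ (1) e1 (by simp only [mul_assoc, mul_inv_rev, inv_inv, mul_inv_cancel_left, inv_mul_cancel_left, mul_inv_cancel, inv_mul_cancel, mul_one, one_mul, inv_one, C]) (by simp only [mul_assoc, mul_inv_rev, inv_inv, mul_inv_cancel_left, inv_mul_cancel_left, mul_inv_cancel, inv_mul_cancel, mul_one, one_mul, inv_one, C])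
  have k37 : o.lt (P * f⁻¹) (f * Q⁻¹) ↔ o.lt (P * f⁻¹) (f * Q⁻¹) := o.cv hδ (1) e18 (by simp only [mul_assoc, mul_inv_rev, inv_inv, mul_inv_cancel_left, inv_mul_cancel_left, mul_inv_cancel, inv_mul_cancel, mul_one, one_mul, inv_one, C]) (by simp only [mul_assoc, mul_inv_rev, inv_inv, mul_inv_cancel_left, inv_mul_cancel_left, mul_inv_cancel, inv_mul_cancel, mul_one, one_mul, inv_one, C])
  have k38 : o.lt (f * Q⁻¹) (P * f⁻¹) ↔ o.lt (f * Q⁻¹) (P * f⁻¹) := o.cv hδ (1) e2 (by simp only [mul_assoc, mul_inv_rev, inv_inv, mul_inv_cancel_left, inv_mul_cancel_left, mul_inv_cancel, inv_mul_cancel, mul_one, one_mul, inv_one, C]) (by simp only [mul_assoc, mul_inv_rev, inv_inv, mul_inv_cancel_left, inv_mul_cancel_left, mul_inv_cancel, inv_mul_cancel, mul_one, one_mul, inv_one, C])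
  have k39 : o.lt (P * f⁻¹) (g * Q⁻¹) ↔ o.lt (P * f⁻¹) (g * Q⁻¹) := o.cv hδ (1) e22 (by simp only [mul_assoc, mul_inv_rev, inv_inv, mul_inv_cancel_left, inv_mul_cancel_left, mul_inv_cancel, inv_mul_cancel, mul_one, one_mul, inv_one, C]) (by simp only [mul_assoc, mul_inv_rev, inv_inv, mul_inv_cancel_left, inv_mul_cancel_left, mul_inv_cancel, inv_mul_cancel, mul_one, one_mul, inv_one, C])
  have k40 : o.lt (g * Q⁻¹) (P * f⁻¹) ↔ o.lt (g * Q⁻¹) (P * f⁻¹) := o.cv hδ (1) e3 (by simp only [mul_assoc, mul_inv_rev, inv_inv, mul_inv_cancel_left, inv_mul_cancel_left, mul_inv_cancel, inv_mul_cancel, mul_one, one_mul, inv_one, C]) (by simp only [mul_assoc, mul_inv_rev, inv_inv, mul_inv_cancel_left, inv_mul_cancel_left, mul_inv_cancel, inv_mul_cancel, mul_one, one_mul, inv_one, C])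
  have k41 : o.lt (m * f⁻¹) (g * Q⁻¹) ↔ o.lt (m * f⁻¹) (g * Q⁻¹) := o.cv hδ (1) e30 (by simp only [mul_assoc, mul_inv_rev, inv_inv, mul_inv_cancel_left, inv_mul_cancel_left, mul_inv_cancel, inv_mul_cancel, mul_one, one_mul, inv_one, C]) (by simp only [mul_assoc, mul_inv_rev, inv_inv, mul_inv_cancel_left, inv_mul_cancel_left, mul_inv_cancel, inv_mul_cancel, mul_one, one_mul, inv_one, C])
  have k42 : o.lt (m * g⁻¹) (m * f⁻¹) ↔ o.lt (m * g⁻¹) (m * f⁻¹) := o.cv hδ (1) e31 (by simp only [mul_assoc, mul_inv_rev, inv_inv, mul_inv_cancel_left, inv_mul_cancel_left, mul_inv_cancel, inv_mul_cancel, mul_one, one_mul, inv_one, C]) (by simp only [mul_assoc, mul_inv_rev, inv_inv, mul_inv_cancel_left, inv_mul_cancel_left, mul_inv_cancel, inv_mul_cancel, mul_one, one_mul, inv_one, C])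
  have k43 : o.lt (g * m⁻¹) (Q * g⁻¹) ↔ o.lt (m * g⁻¹) (Q * m⁻¹) := o.cv hδ (m * (g⁻¹ * (m * g⁻¹))) e32 (by simp only [mul_assoc, mul_inv_rev, inv_inv, mul_inv_cancel_left, inv_mul_cancel_left, mul_inv_cancel, inv_mul_cancel, mul_one, one_mul, inv_one, C]) (by simp only [mul_assoc, mul_inv_rev, inv_inv, mul_inv_cancel_left, inv_mul_cancel_left, mul_inv_cancel, inv_mul_cancel, mul_one, one_mul, inv_one, C])
  have k44 : o.lt (Q * m⁻¹) (m * f⁻¹) ↔ o.lt (Q * m⁻¹) (m * f⁻¹) := o.cv hδ (1) e34 (by simp only [mul_assoc, mul_inv_rev, inv_inv, mul_inv_cancel_left, inv_mul_cancel_left, mul_inv_cancel, inv_mul_cancel, mul_one, one_mul, inv_one, C]) (by simp only [mul_assoc, mul_inv_rev, inv_inv, mul_inv_cancel_left, inv_mul_cancel_left, mul_inv_cancel, inv_mul_cancel, mul_one, one_mul, inv_one, C])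
  have k45 : o.lt (Q * m⁻¹) (m * g⁻¹) ↔ o.lt (Q * m⁻¹) (m * g⁻¹) := o.cv hδ (1) e35 (by simp only [mul_assoc, mul_inv_rev, inv_inv, mul_inv_cancel_left, inv_mul_cancel_left, mul_inv_cancel, inv_mul_cancel, mul_one, one_mul, inv_one, C]) (by simp only [mul_assoc, mul_inv_rev, inv_inv, mul_inv_cancel_left, inv_mul_cancel_left, mul_inv_cancel, inv_mul_cancel, mul_one, one_mul, inv_one, C])
  have k46 : o.lt (f * m⁻¹) (g * m⁻¹) ↔ o.lt (f * Q⁻¹) (g * Q⁻¹) := o.cv hδ (m * Q⁻¹) e26 (by simp only [mul_assoc, mul_inv_rev, inv_inv, mul_inv_cancel_left, inv_mul_cancel_left, mul_inv_cancel, inv_mul_cancel, mul_one, one_mul, inv_one, C]) (by simp only [mul_assoc, mul_inv_rev, inv_inv, mul_inv_cancel_left, inv_mul_cancel_left, mul_inv_cancel, inv_mul_cancel, mul_one, one_mul, inv_one, C])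
  have k47 : o.lt (g * P⁻¹) (f * P⁻¹) ↔ o.lt (g * Q⁻¹) (f * Q⁻¹) := o.cv hδ (P * Q⁻¹) e7 (by simp only [mul_assoc, mul_inv_rev, inv_inv, mul_inv_cancel_left, inv_mul_cancel_left, mul_inv_cancel, inv_mul_cancel, mul_one, one_mul, inv_one, C]) (by simp only [mul_assoc, mul_inv_rev, inv_inv, mul_inv_cancel_left, inv_mul_cancel_left, mul_inv_cancel, inv_mul_cancel, mul_one, one_mul, inv_one, C])
  have k48 : o.lt (g * Q⁻¹) (m * f⁻¹) ↔ o.lt (g * Q⁻¹) (m * f⁻¹) := o.cv hδ (1) e33 (by simp only [mul_assoc, mul_inv_rev, inv_inv, mul_inv_cancel_left, inv_mul_cancel_left, mul_inv_cancel, inv_mul_cancel, mul_one, one_mul, inv_one, C]) (by simp only [mul_assoc, mul_inv_rev, inv_inv, mul_inv_cancel_left, inv_mul_cancel_left, mul_inv_cancel, inv_mul_cancel, mul_one, one_mul, inv_one, C])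
  have k49 : o.lt (Q * m⁻¹) (P * f⁻¹) ↔ o.lt (Q * m⁻¹) (P * f⁻¹) := o.cv hδ (1) e4 (by simp only [mul_assoc, mul_inv_rev, inv_inv, mul_inv_cancel_left, inv_mul_cancel_left, mul_inv_cancel, inv_mul_cancel, mul_one, one_mul, inv_one, C]) (by simp only [mul_assoc, mul_inv_rev, inv_inv, mul_inv_cancel_left, inv_mul_cancel_left, mul_inv_cancel, inv_mul_cancel, mul_one, one_mul, inv_one, C])
  have k50 : o.lt (f * P⁻¹) (Q * g⁻¹) ↔ o.lt (f * P⁻¹) (Q * g⁻¹) := o.cv hδ (1) e27 (by simp only [mul_assoc, mul_inv_rev, inv_inv, mul_inv_cancel_left, inv_mul_cancel_left, mul_inv_cancel, inv_mul_cancel, mul_one, one_mul, inv_one, C]) (by simp only [mul_assoc, mul_inv_rev, inv_inv, mul_inv_cancel_left, inv_mul_cancel_left, mul_inv_cancel, inv_mul_cancel, mul_one, one_mul, inv_one, C])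
  have k51 : o.lt (f * m⁻¹) (g * m⁻¹) ↔ o.lt (f * P⁻¹) (g * P⁻¹) := o.cv hδ (m * P⁻¹) e26 (by simp only [mul_assoc, mul_inv_rev, inv_inv, mul_inv_cancel_left, inv_mul_cancel_left, mul_inv_cancel, inv_mul_cancel, mul_one, one_mul, inv_one, C]) (by simp only [mul_assoc, mul_inv_rev, inv_inv, mul_inv_cancel_left, inv_mul_cancel_left, mul_inv_cancel, inv_mul_cancel, mul_one, one_mul, inv_one, C])
  have k52 : o.lt (g * P⁻¹) (Q * g⁻¹) ↔ o.lt (g * P⁻¹) (Q * g⁻¹) := o.cv hδ (1) e28 (by simp only [mul_assoc, mul_inv_rev, inv_inv, mul_inv_cancel_left, inv_mul_cancel_left, mul_inv_cancel, inv_mul_cancel, mul_one, one_mul, inv_one, C]) (by simp only [mul_assoc, mul_inv_rev, inv_inv, mul_inv_cancel_left, inv_mul_cancel_left, mul_inv_cancel, inv_mul_cancel, mul_one, one_mul, inv_one, C])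
  have k53 : o.lt (g * P⁻¹) (g * m⁻¹) ↔ o.lt (g * P⁻¹) (g * m⁻¹) := o.cv hδ (1) e36 (by simp only [mul_assoc, mul_inv_rev, inv_inv, mul_inv_cancel_left, inv_mul_cancel_left, mul_inv_cancel, inv_mul_cancel, mul_one, one_mul, inv_one, C]) (by simp only [mul_assoc, mul_inv_rev, inv_inv, mul_inv_cancel_left, inv_mul_cancel_left, mul_inv_cancel, inv_mul_cancel, mul_one, one_mul, inv_one, C])
  have k54 : o.lt (Q * m⁻¹) (m * g⁻¹) ↔ o.lt (Q * g⁻¹) (g * m⁻¹) := o.cv hδ (m * g⁻¹) e35 (by simp only [mul_assoc, mul_inv_rev, inv_inv, mul_inv_cancel_left, inv_mul_cancel_left, mul_inv_cancel, inv_mul_cancel, mul_one, one_mul, inv_one, C]) (by simp only [mul_assoc, mul_inv_rev, inv_inv, mul_inv_cancel_left, inv_mul_cancel_left, mul_inv_cancel, inv_mul_cancel, mul_one, one_mul, inv_one, C])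
  have k55 : o.lt (P * f⁻¹) (P * g⁻¹) ↔ o.lt (P * (f⁻¹ * (P * g⁻¹))) (g * P⁻¹) := o.cv hδ (P * g⁻¹) e9 (by simp only [mul_assoc, mul_inv_rev, inv_inv, mul_inv_cancel_left, inv_mul_cancel_left, mul_inv_cancel, inv_mul_cancel, mul_one, one_mul, inv_one, C]) (by simp only [mul_assoc, mul_inv_rev, inv_inv, mul_inv_cancel_left, inv_mul_cancel_left, mul_inv_cancel, inv_mul_cancel, mul_one, one_mul, inv_one, C])
  have k56 : o.lt (f * (P⁻¹ * (f * g⁻¹))) (f * P⁻¹) ↔ o.lt (P * (f⁻¹ * (P * g⁻¹))) (f * P⁻¹) := o.cv hδ (g * (f⁻¹ * (P * (f⁻¹ * (P * (f⁻¹ * (P * g⁻¹))))))) e11 (by simp only [mul_assoc, mul_inv_rev, inv_inv, mul_inv_cancel_left, inv_mul_cancel_left, mul_inv_cancel, inv_mul_cancel, mul_one, one_mul, inv_one, C]) (by simp only [mul_assoc, mul_inv_rev, inv_inv, mul_inv_cancel_left, inv_mul_cancel_left, mul_inv_cancel, inv_mul_cancel, mul_one, one_mul, inv_one, C])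
  have k57 : o.lt (f * m⁻¹) (f * P⁻¹) ↔ o.lt (f * m⁻¹) (f * P⁻¹) := o.cv hδ (1) e8 (by simp only [mul_assoc, mul_inv_rev, inv_inv, mul_inv_cancel_left, inv_mul_cancel_left, mul_inv_cancel, inv_mul_cancel, mul_one, one_mul, inv_one, C]) (by simp only [mul_assoc, mul_inv_rev, inv_inv, mul_inv_cancel_left, inv_mul_cancel_left, mul_inv_cancel, inv_mul_cancel, mul_one, one_mul, inv_one, C])
  have k58 : o.lt (m * f⁻¹) (P * f⁻¹) ↔ o.lt (f * m⁻¹) (P * (f⁻¹ * (m * f⁻¹))) := o.cv hδ (f * (m⁻¹ * (f * m⁻¹))) e1 (by simp only [mul_assoc, mul_inv_rev, inv_inv, mul_inv_cancel_left, inv_mul_cancel_left, mul_inv_cancel, inv_mul_cancel, mul_one, one_mul, inv_one, C]) (by simp only [mul_assoc, mul_inv_rev, inv_inv, mul_inv_cancel_left, inv_mul_cancel_left, mul_inv_cancel, inv_mul_cancel, mul_one, one_mul, inv_one, C])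
  have k59 : o.lt (P * (m⁻¹ * (f * m⁻¹))) (f * P⁻¹) ↔ o.lt (P * (f⁻¹ * (m * f⁻¹))) (f * P⁻¹) := o.cv hδ (m * (f⁻¹ * (m * (f⁻¹ * (m * f⁻¹))))) e14 (by simp only [mul_assoc, mul_inv_rev, inv_inv, mul_inv_cancel_left, inv_mul_cancel_left, mul_inv_cancel, inv_mul_cancel, mul_one, one_mul, inv_one, C]) (by simp only [mul_assoc, mul_inv_rev, inv_inv, mul_inv_cancel_left, inv_mul_cancel_left, mul_inv_cancel, inv_mul_cancel, mul_one, one_mul, inv_one, C])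
  have k60 : o.lt (P * f⁻¹) (g * Q⁻¹) ↔ o.lt (P * (f⁻¹ * (g * Q⁻¹))) (Q * g⁻¹) := o.cv hδ (g * Q⁻¹) e22 (by simp only [mul_assoc, mul_inv_rev, inv_inv, mul_inv_cancel_left, inv_mul_cancel_left, mul_inv_cancel, inv_mul_cancel, mul_one, one_mul, inv_one, C]) (by simp only [mul_assoc, mul_inv_rev, inv_inv, mul_inv_cancel_left, inv_mul_cancel_left, mul_inv_cancel, inv_mul_cancel, mul_one, one_mul, inv_one, C])
  have k61 : o.lt (P * (f⁻¹ * (g * Q⁻¹))) (f * P⁻¹) ↔ o.lt (P * (f⁻¹ * (g * Q⁻¹))) (f * P⁻¹) := o.cv hδ (1) e24 (by simp only [mul_assoc, mul_inv_rev, inv_inv, mul_inv_cancel_left, inv_mul_cancel_left, mul_inv_cancel, inv_mul_cancel, mul_one, one_mul, inv_one, C]) (by simp only [mul_assoc, mul_inv_rev, inv_inv, mul_inv_cancel_left, inv_mul_cancel_left, mul_inv_cancel, inv_mul_cancel, mul_one, one_mul, inv_one, C])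
  have k62 : o.lt (f * P⁻¹) (P * (f⁻¹ * (g * Q⁻¹))) ↔ o.lt (f * P⁻¹) (P * (f⁻¹ * (g * Q⁻¹))) := o.cv hδ (1) e6 (by simp only [mul_assoc, mul_inv_rev, inv_inv, mul_inv_cancel_left, inv_mul_cancel_left, mul_inv_cancel, inv_mul_cancel, mul_one, one_mul, inv_one, C]) (by simp only [mul_assoc, mul_inv_rev, inv_inv, mul_inv_cancel_left, inv_mul_cancel_left, mul_inv_cancel, inv_mul_cancel, mul_one, one_mul, inv_one, C])
  have k63 : o.lt (g * Q⁻¹) (P * f⁻¹) ↔ o.lt (Q * g⁻¹) (P * (f⁻¹ * (g * Q⁻¹))) := o.cv hδ (Q * (g⁻¹ * (Q * g⁻¹))) e3 (by simp only [mul_assoc, mul_inv_rev, inv_inv, mul_inv_cancel_left, inv_mul_cancel_left, mul_inv_cancel, inv_mul_cancel, mul_one, one_mul, inv_one, C]) (by simp only [mul_assoc, mul_inv_rev, inv_inv, mul_inv_cancel_left, inv_mul_cancel_left, mul_inv_cancel, inv_mul_cancel, mul_one, one_mul, inv_one, C])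
  have k64 : o.lt (f * (P⁻¹ * (f * g⁻¹))) (P * (f⁻¹ * (m * g⁻¹))) ↔ o.lt (f * P⁻¹) (P * (f⁻¹ * (m * f⁻¹))) := o.cv hδ (g * f⁻¹) e5 (by simp only [mul_assoc, mul_inv_rev, inv_inv, mul_inv_cancel_left, inv_mul_cancel_left, mul_inv_cancel, inv_mul_cancel, mul_one, one_mul, inv_one, C]) (by simp only [mul_assoc, mul_inv_rev, inv_inv, mul_inv_cancel_left, inv_mul_cancel_left, mul_inv_cancel, inv_mul_cancel, mul_one, one_mul, inv_one, C])
  have k65 : o.lt (P * (f⁻¹ * (g * Q⁻¹))) (P * (m⁻¹ * (f * m⁻¹))) ↔ o.lt (P * (f⁻¹ * (g * Q⁻¹))) (P * (f⁻¹ * (m * f⁻¹))) := o.cv hδ (1) e25 (by simp only [mul_assoc, mul_inv_rev, inv_inv, mul_inv_cancel_left, inv_mul_cancel_left, mul_inv_cancel, inv_mul_cancel, mul_one, one_mul, inv_one, C]) (by simp only [mul_assoc, mul_inv_rev, inv_inv, mul_inv_cancel_left, inv_mul_cancel_left, mul_inv_cancel, inv_mul_cancel, mul_one, one_mul, inv_one, C])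
  have k66 : o.lt (P * (m⁻¹ * (f * m⁻¹))) (P * (f⁻¹ * (m * g⁻¹))) ↔ o.lt (P * (f⁻¹ * (m * f⁻¹))) (P * (f⁻¹ * (m * g⁻¹))) := o.cv hδ (m * (f⁻¹ * (m * (f⁻¹ * (m * f⁻¹))))) e15 (by simp only [mul_assoc, mul_inv_rev, inv_inv, mul_inv_cancel_left, inv_mul_cancel_left, mul_inv_cancel, inv_mul_cancel, mul_one, one_mul, inv_one, C]) (by simp only [mul_assoc, mul_inv_rev, inv_inv, mul_inv_cancel_left, inv_mul_cancel_left, mul_inv_cancel, inv_mul_cancel, mul_one, one_mul, inv_one, C])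
  have k67 : o.lt (P * (f⁻¹ * (m * g⁻¹))) (P * (m⁻¹ * (f * m⁻¹))) ↔ o.lt (P * (f⁻¹ * (m * g⁻¹))) (P * (f⁻¹ * (m * f⁻¹))) := o.cv hδ (1) e17 (by simp only [mul_assoc, mul_inv_rev, inv_inv, mul_inv_cancel_left, inv_mul_cancel_left, mul_inv_cancel, inv_mul_cancel, mul_one, one_mul, inv_one, C]) (by simp only [mul_assoc, mul_inv_rev, inv_inv, mul_inv_cancel_left, inv_mul_cancel_left, mul_inv_cancel, inv_mul_cancel, mul_one, one_mul, inv_one, C])
  have k68 : o.lt (P * (m⁻¹ * (f * m⁻¹))) (P * (f⁻¹ * (g * Q⁻¹))) ↔ o.lt (P * (f⁻¹ * (m * f⁻¹))) (P * (f⁻¹ * (g * Q⁻¹))) := o.cv hδ (m * (f⁻¹ * (m * (f⁻¹ * (m * f⁻¹))))) e16 (by simp only [mul_assoc, mul_inv_rev, inv_inv, mul_inv_cancel_left, inv_mul_cancel_left, mul_inv_cancel, inv_mul_cancel, mul_one, one_mul, inv_one, C]) (by simp only [mul_assoc, mul_inv_rev, inv_inv, mul_inv_cancel_left, inv_mul_cancel_left, mul_inv_cancel, inv_mul_cancel, mul_one,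 one_mul, inv_one, C])
  have k69 : o.lt (m * f⁻¹) (P * f⁻¹) ↔ o.lt (1) (P * m⁻¹) := o.cv hδ (f * m⁻¹) e1 (by simp only [mul_assoc, mul_inv_rev, inv_inv, mul_inv_cancel_left, inv_mul_cancel_left, mul_inv_cancel, inv_mul_cancel, mul_one, one_mul, inv_one, C]) (by simp only [mul_assoc, mul_inv_rev, inv_inv, mul_inv_cancel_left, inv_mul_cancel_left, mul_inv_cancel, inv_mul_cancel, mul_one, one_mul, inv_one, C])
  have k70 : o.lt (g * Q⁻¹) (P * f⁻¹) ↔ o.lt (1) (P * (f⁻¹ * (Q * g⁻¹))) := o.cv hδ (Q * g⁻¹) e3 (by simp only [mul_assoc, mul_inv_rev, inv_inv, mul_inv_cancel_left, inv_mul_cancel_left, mul_inv_cancel, inv_mul_cancel, mul_one, one_mul, inv_one, C]) (by simp only [mul_assoc, mul_inv_rev, inv_inv, mul_inv_cancel_left, inv_mul_cancel_left, mul_inv_cancel, inv_mul_cancel, mul_one, one_mul, inv_one, C])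
  have k71 : o.lt (P * (f⁻¹ * (Q * g⁻¹))) (P * m⁻¹) ↔ o.lt (P * (f⁻¹ * (Q * g⁻¹))) (P * m⁻¹) := o.cv hδ (1) e23 (by simp only [mul_assoc, mul_inv_rev, inv_inv, mul_inv_cancel_left, inv_mul_cancel_left, mul_inv_cancel, inv_mul_cancel, mul_one, one_mul, inv_one, C]) (by simp only [mul_assoc, mul_inv_rev, inv_inv, mul_inv_cancel_left, inv_mul_cancel_left, mul_inv_cancel, inv_mul_cancel, mul_one, one_mul, inv_one, C])
  have k72 : o.lt (Q * m⁻¹) (P * f⁻¹) ↔ o.lt (1) (P * (f⁻¹ * (m * Q⁻¹))) := o.cv hδ (m * Q⁻¹) e4 (by simp only [mul_assoc, mul_inv_rev, inv_inv, mul_inv_cancel_left, inv_mul_cancel_left, mul_inv_cancel, inv_mul_cancel, mul_one, one_mul, inv_one, C]) (by simp only [mul_assoc, mul_inv_rev, inv_inv, mul_inv_cancel_left, inv_mul_cancel_left, mul_inv_cancel, inv_mul_cancel, mul_one, one_mul, inv_one, C])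
  have k73 : o.lt (f * Q⁻¹) (P * f⁻¹) ↔ o.lt (1) (P * (f⁻¹ * (Q * f⁻¹))) := o.cv hδ (Q * f⁻¹) e2 (by simp only [mul_assoc, mul_inv_rev, inv_inv, mul_inv_cancel_left, inv_mul_cancel_left, mul_inv_cancel, inv_mul_cancel, mul_one, one_mul, inv_one, C]) (by simp only [mul_assoc, mul_inv_rev, inv_inv, mul_inv_cancel_left, inv_mul_cancel_left, mul_inv_cancel, inv_mul_cancel, mul_one, one_mul, inv_one, C])
  have k74 : o.lt (P * Q⁻¹) (P * (m⁻¹ * (f * m⁻¹))) ↔ o.lt (P * (f⁻¹ * (Q * f⁻¹))) (P * (f⁻¹ * (m * Q⁻¹))) := o.cv hδ (Q * (f⁻¹ * (Q * f⁻¹))) e20 (by simp only [mul_assoc, mul_inv_rev, inv_inv, mul_inv_cancel_left, inv_mul_cancel_left, mul_inv_cancel, inv_mul_cancel, mul_one, one_mul, inv_one, C]) (by simp only [mul_assoc, mul_inv_rev, inv_inv, mul_inv_cancel_left, inv_mul_cancel_left, mul_inv_cancel, inv_mul_cancel, mul_one, one_mul, inv_one, C])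
  have k75 : o.lt (P * (f⁻¹ * (g * P⁻¹))) (P * m⁻¹) ↔ o.lt (P * (f⁻¹ * (g * P⁻¹))) (P * m⁻¹) := o.cv hδ (1) e10 (by simp only [mul_assoc, mul_inv_rev, inv_inv, mul_inv_cancel_left, inv_mul_cancel_left, mul_inv_cancel, inv_mul_cancel, mul_one, one_mul, inv_one, C]) (by simp only [mul_assoc, mul_inv_rev, inv_inv, mul_inv_cancel_left, inv_mul_cancel_left, mul_inv_cancel, inv_mul_cancel, mul_one, one_mul, inv_one, C])
  have k76 : o.lt (P * f⁻¹) (P * g⁻¹) ↔ o.lt (P * (f⁻¹ * (g * P⁻¹))) (1) := o.cv hδ (g * P⁻¹) e9 (by simp only [mul_assoc, mul_inv_rev, inv_inv, mul_inv_cancel_left, inv_mul_cancel_left, mul_inv_cancel, inv_mul_cancel, mul_one, one_mul, inv_one, C]) (by simp only [mul_assoc, mul_inv_rev, inv_inv, mul_inv_cancel_left, inv_mul_cancel_left, mul_inv_cancel, inv_mul_cancel, mul_one, one_mul, inv_one, C])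
  have k77 : o.lt (P * m⁻¹) (P * (f⁻¹ * (Q * g⁻¹))) ↔ o.lt (P * m⁻¹) (P * (f⁻¹ * (Q * g⁻¹))) := o.cv hδ (1) e13 (by simp only [mul_assoc, mul_inv_rev, inv_inv, mul_inv_cancel_left, inv_mul_cancel_left, mul_inv_cancel, inv_mul_cancel, mul_one, one_mul, inv_one, C]) (by simp only [mul_assoc, mul_inv_rev, inv_inv, mul_inv_cancel_left, inv_mul_cancel_left, mul_inv_cancel, inv_mul_cancel, mul_one, one_mul, inv_one, C])
  have k78 : o.lt (P * f⁻¹) (m * f⁻¹) ↔ o.lt (P * m⁻¹) (1) := o.cv hδ (f * m⁻¹) e12 (by simp only [mul_assoc, mul_inv_rev, inv_inv, mul_inv_cancel_left, inv_mul_cancel_left, mul_inv_cancel, inv_mul_cancel, mul_one, one_mul, inv_one, C]) (by simp only [mul_assoc, mul_inv_rev, inv_inv, mul_inv_cancel_left, inv_mul_cancel_left, mul_inv_cancel, inv_mul_cancel, mul_one, one_mul, inv_one, C])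
  have k79 : o.lt (P * (Q⁻¹ * (f * Q⁻¹))) (P * (f⁻¹ * (Q * g⁻¹))) ↔ o.lt (P * (f⁻¹ * (Q * f⁻¹))) (P * (f⁻¹ * (Q * g⁻¹))) := o.cv hδ (Q * (f⁻¹ * (Q * (f⁻¹ * (Q * f⁻¹))))) e19 (by simp only [mul_assoc, mul_inv_rev, inv_inv, mul_inv_cancel_left, inv_mul_cancel_left, mul_inv_cancel, inv_mul_cancel, mul_one, one_mul, inv_one, C]) (by simp only [mul_assoc, mul_inv_rev, inv_inv, mul_inv_cancel_left, inv_mul_cancel_left, mul_inv_cancel, inv_mul_cancel, mul_one, one_mul, inv_one, C])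
  have k80 : o.lt (P * f⁻¹) (f * Q⁻¹) ↔ o.lt (P * (f⁻¹ * (Q * f⁻¹))) (1) := o.cv hδ (Q * f⁻¹) e18 (by simp only [mul_assoc, mul_inv_rev, inv_inv, mul_inv_cancel_left, inv_mul_cancel_left, mul_inv_cancel, inv_mul_cancel, mul_one, one_mul, inv_one, C]) (by simp only [mul_assoc, mul_inv_rev, inv_inv, mul_inv_cancel_left, inv_mul_cancel_left, mul_inv_cancel, inv_mul_cancel, mul_one, one_mul, inv_one, C])
  have k81 : o.lt (P * g⁻¹) (P * f⁻¹) ↔ o.lt (P * g⁻¹) (P * f⁻¹) := o.cv hδ (1) e0 (by simp only [mul_assoc, mul_inv_rev, inv_inv, mul_inv_cancel_left, inv_mul_cancel_left, mul_inv_cancel, inv_mul_cancel, mul_one, one_mul, inv_one, C]) (by simp only [mul_assoc, mul_inv_rev, inv_inv, mul_inv_cancel_left, inv_mul_cancel_left, mul_inv_cancel, inv_mul_cancel, mul_one, one_mul, inv_one, C])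
  have k82 : o.lt (g * P⁻¹) (Q * g⁻¹) ↔ o.lt ((P * g⁻¹)⁻¹) ((g * Q⁻¹)⁻¹) := o.cv hδ (1) e28 (by simp only [mul_assoc, mul_inv_rev, inv_inv, mul_inv_cancel_left, inv_mul_cancel_left, mul_inv_cancel, inv_mul_cancel, mul_one, one_mul, inv_one, C]) (by simp only [mul_assoc, mul_inv_rev, inv_inv, mul_inv_cancel_left, inv_mul_cancel_left, mul_inv_cancel, inv_mul_cancel, mul_one, one_mul, inv_one, C])
  exact ser_EAA_0_prop
    (fun b0 b1 b2 => N0.i.r1 1 (fun h => b0 (k0.2 h)) (k1.1 b1) (fun h => b2 (k2.2 h)))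
    (fun b0 b1 b2 => N0.rd.r1 1 (fun h => b0 (k3.2 h)) (k4.1 b1) (fun h => b2 (k5.2 h)))
    (fun b0 b1 b2 => N0.d.r2 1 (fun h => b0 (k6.2 h)) (fun h => b1 (k7.2 h)) (k2.1 b2))
    (fun b0 b1 b2 => N0.rd.r2 1 (fun h => b0 (k1.2 h)) (fun h => b1 (k8.2 h)) (k9.1 b2))
    (fun b0 b1 b2 => N1.i.r0 1 (fun h => b0 (k10.2 h)) (k11.1 b1) (fun h => b2 (k12.2 h)))
    (fun b0 b1 b2 => N1.i.r1 1 (fun h => b0 (k13.2 h)) (fun h => b1 (k14.2 h)) (k12.1 b2))
    (fun b0 b1 b2 => N0.i.r1 (P * f⁻¹) (fun h => b0 (k15.2 h)) (k16.1 b1) (fun h => b2 (k17.2 h)))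
    (fun b0 b1 b2 => N0.d.r0 (P * f⁻¹) (k15.1 b0) (fun h => b1 (k18.2 h)) (fun h => b2 (k19.2 h)))
    (fun b0 b1 b2 => N0.r.r1 (P * f⁻¹) (fun h => b0 (k20.2 h)) (k21.1 b1) (fun h => b2 (k22.2 h)))
    (fun b0 b1 b2 => N0.r.r2 (P * f⁻¹) (fun h => b0 (k23.2 h)) (fun h => b1 (k24.2 h)) (k25.1 b2))
    (fun b0 b1 b2 => N1.r.r0 (P * f⁻¹) (fun h => b0 (k26.2 h)) (k27.1 b1) (fun h => b2 (k28.2 h)))
    (fun b0 b1 b2 => N1.r.r1 (P * f⁻¹) (fun h => b0 (k29.2 h)) (fun h => b1 (k30.2 h)) (k28.1 b2))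
    (fun b0 b1 b2 => N1.d.r0 (P * f⁻¹) (fun h => b0 (k16.2 h)) (k31.1 b1) (fun h => b2 (k32.2 h)))
    (fun b0 b1 b2 => N1.d.r1 (P * f⁻¹) (fun h => b0 (k33.2 h)) (fun h => b1 (k34.2 h)) (k32.1 b2))
    (fun b0 b1 => o.asym (k35.1 b0) (k36.1 b1))
    (fun b0 b1 => o.asym (k37.1 b0) (k38.1 b1))
    (fun b0 b1 => o.asym (k39.1 b0) (k40.1 b1))
    (fun b0 b1 b2 => o.tri (k36.1 b0) (fun h => b1 (k41.2 h)) (fun h => b2 (k40.2 h)))
    (fun b0 b1 b2 => o.tri (k42.1 b0) (fun h => b1 (k43.2 h)) (fun h => b2 (k44.2 h)))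
    (fun b0 b1 => o.asym (k43.1 b0) (k45.1 b1))
    (fun b0 b1 => o.asym (k46.1 b0) (k47.1 b1))
    (fun b0 b1 b2 => o.tri (k48.1 b0) (fun h => b1 (k40.2 h)) (fun h => b2 (k35.2 h)))
    (fun b0 b1 b2 => o.tri (k44.1 b0) (fun h => b1 (k49.2 h)) (fun h => b2 (k35.2 h)))
    (fun b0 b1 b2 => o.tri (k50.1 b0) (fun h => b1 (k51.2 h)) (fun h => b2 (k52.2 h)))
    (fun b0 b1 b2 => o.tri (k53.1 b0) (fun h => b1 (k52.2 h)) (fun h => b2 (k54.2 h)))
    (fun b0 b1 b2 => o.tri (k55.1 b0) (fun h => b1 (k56.2 h)) (fun h => b2 (k51.2 h)))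
    (fun b0 b1 b2 => o.tri (k57.1 b0) (fun h => b1 (k58.2 h)) (fun h => b2 (k59.2 h)))
    (fun b0 b1 b2 => o.tri (k60.1 b0) (fun h => b1 (k61.2 h)) (fun h => b2 (k50.2 h)))
    (fun b0 b1 b2 => o.tri (k62.1 b0) (fun h => b1 (k50.2 h)) (fun h => b2 (k63.2 h)))
    (fun b0 b1 b2 => o.tri (k64.1 b0) (fun h => b1 (k62.2 h)) (fun h => b2 (k65.2 h)))
    (fun b0 b1 => o.asym (k66.1 b0) (k67.1 b1))
    (fun b0 b1 => o.asym (k68.1 b0) (k65.1 b1))
    (fun b0 b1 b2 => o.tri (k61.1 b0) (fun h => b1 (k65.2 h)) (fun h => b2 (k59.2 h)))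
    (fun b0 b1 b2 => o.tri (k69.1 b0) (fun h => b1 (k70.2 h)) (fun h => b2 (k71.2 h)))
    (fun b0 b1 b2 => o.tri (k72.1 b0) (fun h => b1 (k73.2 h)) (fun h => b2 (k74.2 h)))
    (fun b0 b1 b2 => o.tri (k75.1 b0) (fun h => b1 (k76.2 h)) (fun h => b2 (k69.2 h)))
    (fun b0 b1 b2 => o.tri (k77.1 b0) (fun h => b1 (k78.2 h)) (fun h => b2 (k70.2 h)))
    (fun b0 b1 b2 => o.tri (k79.1 b0) (fun h => b1 (k80.2 h)) (fun h => b2 (k70.2 h)))
    (fun h => g0 (k81.1 h))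
    (k39.2 g1)
    (fun h => g2 (k82.1 h))

theorem ser_EAA_1_prop {A1 A2 A3 A4 A5 A6 A7 A8 A9 A10 A11 A12 A13 A14 A15 A16 A17 A18 A19 A20 A21 A22 A23 A24 A25 A26 A27 : Prop}
    (c0 : A6 → ¬ A11 → ¬ A22 → False)
    (c1 : ¬ A4 → A3 → ¬ A11 → False)
    (c2 : ¬ A6 → A1 → ¬ A9 → False)
    (c3 : ¬ A3 → ¬ A21 → A9 → False)
    (c4 : ¬ A11 → ¬ A26 → A13 → False)
    (c5 : ¬ A27 → A23 → ¬ A13 → False)
    (c6 : ¬ A1 → A14 → ¬ A10 → False)
    (c7 : ¬ A3 → A12 → ¬ A7 → False)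
    (c8 : ¬ A11 → ¬ A12 → A10 → False)
    (c9 : A2 → ¬ A3 → ¬ A5 → False)
    (c10 : A6 → A4 → False)
    (c11 : A15 → A18 → False)
    (c12 : A4 → ¬ A14 → ¬ A17 → False)
    (c13 : A3 → A1 → False)
    (c14 : A16 → ¬ A3 → ¬ A10 → False)
    (c15 : A12 → ¬ A17 → ¬ A6 → False)
    (c16 : A7 → ¬ A19 → ¬ A3 → False)
    (c17 : A20 → A25 → False)
    (c18 : A15 → ¬ A11 → ¬ A20 → False)
    (c19 : A15 → ¬ A8 → ¬ A10 → False)
    (c20 : A21 → ¬ A23 → ¬ A25 → False)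
    (c21 : A22 → ¬ A23 → ¬ A18 → False)
    (c22 : A23 → A26 → False)
    (c23 : A19 → ¬ A24 → ¬ A26 → False)
    (c24 : A24 → A27 → False)
    (c25 : A27 → ¬ A26 → ¬ A16 → False)
    (c26 : A8 → ¬ A6 → ¬ A2 → False)
    (c27 : A5 → ¬ A1 → ¬ A6 → False)
    (u0 : ¬ A11)
    (u1 : ¬ A17)
    (u2 : A15)
    : False := by
  have q1 : ¬ A18 := fun h => c11 u2 h
  have q2 : A20 := Classical.byContradiction fun h => c18 u2 u0 h
  have q3 : ¬ A25 := fun h => c17 q2 h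
  rcases Classical.em A6 with q4 | q4
  · have q5 : A22 := Classical.byContradiction fun h => c0 q4 u0 h
    have q6 : ¬ A4 := fun h => c10 q4 h
    have q7 : ¬ A3 := fun h => c1 q6 h u0
    have q8 : A23 := Classical.byContradiction fun h => c21 q5 h q1
    have q9 : ¬ A26 := fun h => c22 q8 h
    have q10 : ¬ A13 := fun h => c4 u0 q9 h
    have q11 : A27 := Classical.byContradiction fun h => c5 h q8 q10
    have q12 : ¬ A24 := fun h => c24 h q11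
    have q13 : ¬ A19 := fun h => c23 h q12 q9
    have q14 : ¬ A7 := fun h => c16 h q13 q7
    have q15 : ¬ A12 := fun h => c7 q7 h q14
    have q16 : ¬ A10 := fun h => c8 u0 q15 h
    have q17 : ¬ A16 := fun h => c14 h q7 q16
    exact c25 q11 q9 q17
  · have q18 : ¬ A12 := fun h => c15 h u1 q4
    have q19 : ¬ A10 := fun h => c8 u0 q18 h
    have q20 : A8 := Classical.byContradiction fun h => c19 u2 h q19
    have q21 : A2 := Classical.byContradiction fun h => c26 q20 q4 h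
    rcases Classical.em A3 with q22 | q22
    · have q23 : A4 := Classical.byContradiction fun h => c1 h q22 u0
      have q24 : A14 := Classical.byContradiction fun h => c12 q23 h u1
      have q25 : A1 := Classical.byContradiction fun h => c6 h q24 q19
      exact c13 q22 q25
    · have q26 : A5 := Classical.byContradiction fun h => c9 q21 q22 h
      have q27 : ¬ A16 := fun h => c14 h q22 q19
      have q28 : A1 := Classical.byContradiction fun h => c27 q26 h q4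
      have q29 : A9 := Classical.byContradiction fun h => c2 q4 q28 h
      have q30 : A21 := Classical.byContradiction fun h => c3 q22 h q29
      have q31 : A23 := Classical.byContradiction fun h => c20 q30 h q3
      have q32 : ¬ A26 := fun h => c22 q31 h
      have q33 : ¬ A13 := fun h => c4 u0 q32 h
      have q34 : A27 := Classical.byContradiction fun h => c5 h q31 q33
      exact c25 q34 q32 q27

theorem ser_EAA_1 {G : Type*} [Group G] {δ : G → ZMod 3} (hδ : ∀ u v, δ (u * v) = δ u + δ v) (o : Pre δ)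
    {P m Q f g : G} {e : ZMod 3} (h3 : 3 * e = 0)
    (D : δ P = e ∧ δ m = e ∧ δ Q = -e ∧ δ f = 0 ∧ δ g = 0)
    (C : Cube P f ∧ Cube P g ∧ Cube m f ∧ Cube m g ∧ Cube Q f ∧ Cube Q g)
    (N0 : RE o P m f g)
    (N1 : RA o m Q f g)
    (g0 : ¬ o.lt (g * Q⁻¹) (f * Q⁻¹)) (g1 : ¬ o.lt (g * Q⁻¹) (P * f⁻¹)) (g2 : o.lt ((P * g⁻¹)⁻¹) ((g * Q⁻¹)⁻¹)) : False := by
  simp only [Cube] at C
  have e0 : δ (m * g⁻¹) = δ (m * f⁻¹) := by simp only [hδ, δinv hδ, δone hδ, D] <;> linear_combination (0) * h3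
  have e1 : δ (m * (g⁻¹ * (P * f⁻¹))) = δ (g * (m⁻¹ * (g * f⁻¹))) := by simp only [hδ, δinv hδ, δone hδ, D] <;> linear_combination (1) * h3
  have e2 : δ (m * f⁻¹) = δ (m * g⁻¹) := by simp only [hδ, δinv hδ, δone hδ, D] <;> linear_combination (0) * h3
  have e3 : δ (m * f⁻¹) = δ (P * f⁻¹) := by simp only [hδ, δinv hδ, δone hδ, D] <;> linear_combination (0) * h3
  have e4 : δ (m * (g⁻¹ * (f * m⁻¹))) = δ (m * P⁻¹) := by simp only [hδ, δinv hδ, δone hδ, D] <;> linear_combination (0) * h3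
  have e5 : δ (P * f⁻¹) = δ (m * f⁻¹) := by simp only [hδ, δinv hδ, δone hδ, D] <;> linear_combination (0) * h3
  have e6 : δ (Q * g⁻¹) = δ (g * m⁻¹) := by simp only [hδ, δinv hδ, δone hδ, D] <;> linear_combination (0) * h3
  have e7 : δ (g * P⁻¹) = δ (g * m⁻¹) := by simp only [hδ, δinv hδ, δone hδ, D] <;> linear_combination (0) * h3
  have e8 : δ (f * P⁻¹) = δ (g * P⁻¹) := by simp only [hδ, δinv hδ, δone hδ, D] <;> linear_combination (0) * h3
  have e9 : δ (g * m⁻¹) = δ (Q * g⁻¹) := by simp only [hδ, δinv hδ, δone hδ, D] <;> linear_combination (0) * h3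
  have e10 : δ (g * P⁻¹) = δ (f * P⁻¹) := by simp only [hδ, δinv hδ, δone hδ, D] <;> linear_combination (0) * h3
  have e11 : δ (g * Q⁻¹) = δ (m * f⁻¹) := by simp only [hδ, δinv hδ, δone hδ, D] <;> linear_combination (0) * h3
  have e12 : δ (m * f⁻¹) = δ (f * Q⁻¹) := by simp only [hδ, δinv hδ, δone hδ, D] <;> linear_combination (0) * h3
  have e13 : δ (m * f⁻¹) = δ (g * Q⁻¹) := by simp only [hδ, δinv hδ, δone hδ, D] <;> linear_combination (0) * h3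
  have e14 : δ (P * g⁻¹) = δ (Q * P⁻¹) := by simp only [hδ, δinv hδ, δone hδ, D] <;> linear_combination (1) * h3
  have e15 : δ (m * f⁻¹) = δ (Q * m⁻¹) := by simp only [hδ, δinv hδ, δone hδ, D] <;> linear_combination (1) * h3
  have e16 : δ (g * Q⁻¹) = δ (P * f⁻¹) := by simp only [hδ, δinv hδ, δone hδ, D] <;> linear_combination (0) * h3
  have e17 : δ (Q * P⁻¹) = δ (P * g⁻¹) := by simp only [hδ, δinv hδ, δone hδ, D] <;> linear_combination (-1) * h3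
  have e18 : δ (Q * m⁻¹) = δ (m * f⁻¹) := by simp only [hδ, δinv hδ, δone hδ, D] <;> linear_combination (-1) * h3
  have e19 : δ (f * P⁻¹) = δ (Q * g⁻¹) := by simp only [hδ, δinv hδ, δone hδ, D] <;> linear_combination (0) * h3
  have e20 : δ (f * m⁻¹) = δ (f * P⁻¹) := by simp only [hδ, δinv hδ, δone hδ, D] <;> linear_combination (0) * h3
  have e21 : δ (f * m⁻¹) = δ (g * P⁻¹) := by simp only [hδ, δinv hδ, δone hδ, D] <;> linear_combination (0) * h3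
  have e22 : δ (f * m⁻¹) = δ (Q * g⁻¹) := by simp only [hδ, δinv hδ, δone hδ, D] <;> linear_combination (0) * h3
  have e23 : δ (Q * f⁻¹) = δ (Q * g⁻¹) := by simp only [hδ, δinv hδ, δone hδ, D] <;> linear_combination (0) * h3
  have e24 : δ (Q * g⁻¹) = δ (f * P⁻¹) := by simp only [hδ, δinv hδ, δone hδ, D] <;> linear_combination (0) * h3
  have e25 : δ (Q * g⁻¹) = δ (f * m⁻¹) := by simp only [hδ, δinv hδ, δone hδ, D] <;> linear_combination (0) * h3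
  have e26 : δ (Q * g⁻¹) = δ (Q * f⁻¹) := by simp only [hδ, δinv hδ, δone hδ, D] <;> linear_combination (0) * h3
  have k0 : o.lt (P * f⁻¹) (m * f⁻¹) ↔ o.lt (1 * (P * f⁻¹)) (1 * (m * f⁻¹)) := o.cv hδ (1) e5 (by simp only [mul_assoc, mul_inv_rev, inv_inv, mul_inv_cancel_left, inv_mul_cancel_left, mul_inv_cancel, inv_mul_cancel, mul_one, one_mul, inv_one, C]) (by simp only [mul_assoc, mul_inv_rev, inv_inv, mul_inv_cancel_left, inv_mul_cancel_left, mul_inv_cancel, inv_mul_cancel, mul_one, one_mul, inv_one, C])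
  have k1 : o.lt (g * P⁻¹) (f * P⁻¹) ↔ o.lt (1 * (P * g⁻¹)⁻¹) (1 * (P * f⁻¹)⁻¹) := o.cv hδ (1) e10 (by simp only [mul_assoc, mul_inv_rev, inv_inv, mul_inv_cancel_left, inv_mul_cancel_left, mul_inv_cancel, inv_mul_cancel, mul_one, one_mul, inv_one, C]) (by simp only [mul_assoc, mul_inv_rev, inv_inv, mul_inv_cancel_left, inv_mul_cancel_left, mul_inv_cancel, inv_mul_cancel, mul_one, one_mul, inv_one, C])
  have k2 : o.lt (f * m⁻¹) (g * P⁻¹) ↔ o.lt (1 * (m * f⁻¹)⁻¹) (1 * (P * g⁻¹)⁻¹) := o.cv hδ (1) e21 (by simp only [mul_assoc, mul_inv_rev, inv_inv, mul_inv_cancel_left, inv_mul_cancel_left, mul_inv_cancel, inv_mul_cancel, mul_one, one_mul, inv_one, C]) (by simp only [mul_assoc, mul_inv_rev, inv_inv, mul_inv_cancel_left, inv_mul_cancel_left, mul_inv_cancel, inv_mul_cancel, mul_one, one_mul, inv_one, C])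
  have k3 : o.lt (m * f⁻¹) (P * f⁻¹) ↔ o.lt (1 * (m * f⁻¹)) (1 * (P * f⁻¹)) := o.cv hδ (1) e3 (by simp only [mul_assoc, mul_inv_rev, inv_inv, mul_inv_cancel_left, inv_mul_cancel_left, mul_inv_cancel, inv_mul_cancel, mul_one, one_mul, inv_one, C]) (by simp only [mul_assoc, mul_inv_rev, inv_inv, mul_inv_cancel_left, inv_mul_cancel_left, mul_inv_cancel, inv_mul_cancel, mul_one, one_mul, inv_one, C])
  have k4 : o.lt (m * f⁻¹) (m * g⁻¹) ↔ o.lt (1 * (m * f⁻¹)) (1 * (m * g⁻¹)) := o.cv hδ (1) e2 (by simp only [mul_assoc, mul_inv_rev, inv_inv, mul_inv_cancel_left, inv_mul_cancel_left, mul_inv_cancel, inv_mul_cancel, mul_one, one_mul, inv_one, C]) (by simp only [mul_assoc, mul_inv_rev, inv_inv, mul_inv_cancel_left, inv_mul_cancel_left, mul_inv_cancel, inv_mul_cancel, mul_one, one_mul, inv_one, C])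
  have k5 : o.lt (m * g⁻¹) (m * f⁻¹) ↔ o.lt (1 * (m * g⁻¹)) (1 * (m * f⁻¹)) := o.cv hδ (1) e0 (by simp only [mul_assoc, mul_inv_rev, inv_inv, mul_inv_cancel_left, inv_mul_cancel_left, mul_inv_cancel, inv_mul_cancel, mul_one, one_mul, inv_one, C]) (by simp only [mul_assoc, mul_inv_rev, inv_inv, mul_inv_cancel_left, inv_mul_cancel_left, mul_inv_cancel, inv_mul_cancel, mul_one, one_mul, inv_one, C])
  have k6 : o.lt (f * P⁻¹) (g * P⁻¹) ↔ o.lt (1 * (P * f⁻¹)⁻¹) (1 * (P * g⁻¹)⁻¹) := o.cv hδ (1) e8 (by simp only [mul_assoc, mul_inv_rev, inv_inv, mul_inv_cancel_left, inv_mul_cancel_left, mul_inv_cancel, inv_mul_cancel, mul_one, one_mul, inv_one, C]) (by simp only [mul_assoc, mul_inv_rev, inv_inv, mul_inv_cancel_left, inv_mul_cancel_left, mul_inv_cancel, inv_mul_cancel, mul_one, one_mul, inv_one, C])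
  have k7 : o.lt (f * m⁻¹) (f * P⁻¹) ↔ o.lt (1 * (m * f⁻¹)⁻¹) (1 * (P * f⁻¹)⁻¹) := o.cv hδ (1) e20 (by simp only [mul_assoc, mul_inv_rev, inv_inv, mul_inv_cancel_left, inv_mul_cancel_left, mul_inv_cancel, inv_mul_cancel, mul_one, one_mul, inv_one, C]) (by simp only [mul_assoc, mul_inv_rev, inv_inv, mul_inv_cancel_left, inv_mul_cancel_left, mul_inv_cancel, inv_mul_cancel, mul_one, one_mul, inv_one, C])
  have k8 : o.lt (f * P⁻¹) (g * P⁻¹) ↔ o.lt (1 * (m * f⁻¹)⁻¹) (1 * (m * g⁻¹)⁻¹) := o.cv hδ (P * m⁻¹) e8 (by simp only [mul_assoc, mul_inv_rev, inv_inv, mul_inv_cancel_left, inv_mul_cancel_left, mul_inv_cancel, inv_mul_cancel, mul_one, one_mul, inv_one, C]) (by simp only [mul_assoc, mul_inv_rev, inv_inv, mul_inv_cancel_left, inv_mul_cancel_left, mul_inv_cancel, inv_mul_cancel, mul_one, one_mul, inv_one, C])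
  have k9 : o.lt (g * P⁻¹) (f * P⁻¹) ↔ o.lt (1 * (g * m⁻¹)) (1 * (f * m⁻¹)) := o.cv hδ (P * m⁻¹) e10 (by simp only [mul_assoc, mul_inv_rev, inv_inv, mul_inv_cancel_left, inv_mul_cancel_left, mul_inv_cancel, inv_mul_cancel, mul_one, one_mul, inv_one, C]) (by simp only [mul_assoc, mul_inv_rev, inv_inv, mul_inv_cancel_left, inv_mul_cancel_left, mul_inv_cancel, inv_mul_cancel, mul_one, one_mul, inv_one, C])
  have k10 : o.lt (Q * g⁻¹) (f * m⁻¹) ↔ o.lt (1 * (Q * g⁻¹)) (1 * (f * m⁻¹)) := o.cv hδ (1) e25 (by simp only [mul_assoc, mul_inv_rev, inv_inv, mul_inv_cancel_left, inv_mul_cancel_left, mul_inv_cancel, inv_mul_cancel, mul_one, one_mul, inv_one, C]) (by simp only [mul_assoc, mul_inv_rev, inv_inv, mul_inv_cancel_left, inv_mul_cancel_left, mul_inv_cancel, inv_mul_cancel, mul_one, one_mul, inv_one, C])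
  have k11 : o.lt (m * f⁻¹) (f * Q⁻¹) ↔ o.lt (1 * (f * m⁻¹)⁻¹) (1 * (Q * f⁻¹)⁻¹) := o.cv hδ (1) e12 (by simp only [mul_assoc, mul_inv_rev, inv_inv, mul_inv_cancel_left, inv_mul_cancel_left, mul_inv_cancel, inv_mul_cancel, mul_one, one_mul, inv_one, C]) (by simp only [mul_assoc, mul_inv_rev, inv_inv, mul_inv_cancel_left, inv_mul_cancel_left, mul_inv_cancel, inv_mul_cancel, mul_one, one_mul, inv_one, C])
  have k12 : o.lt (Q * g⁻¹) (Q * f⁻¹) ↔ o.lt (1 * (Q * g⁻¹)) (1 * (Q * f⁻¹)) := o.cv hδ (1) e26 (by simp only [mul_assoc, mul_inv_rev, inv_inv, mul_inv_cancel_left, inv_mul_cancel_left, mul_inv_cancel, inv_mul_cancel, mul_one, one_mul, inv_one, C]) (by simp only [mul_assoc, mul_inv_rev, inv_inv, mul_inv_cancel_left, inv_mul_cancel_left, mul_inv_cancel, inv_mul_cancel, mul_one, one_mul, inv_one, C])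
  have k13 : o.lt (f * m⁻¹) (Q * g⁻¹) ↔ o.lt (1 * (f * m⁻¹)) (1 * (Q * g⁻¹)) := o.cv hδ (1) e22 (by simp only [mul_assoc, mul_inv_rev, inv_inv, mul_inv_cancel_left, inv_mul_cancel_left, mul_inv_cancel, inv_mul_cancel, mul_one, one_mul, inv_one, C]) (by simp only [mul_assoc, mul_inv_rev, inv_inv, mul_inv_cancel_left, inv_mul_cancel_left, mul_inv_cancel, inv_mul_cancel, mul_one, one_mul, inv_one, C])
  have k14 : o.lt (m * f⁻¹) (g * Q⁻¹) ↔ o.lt (1 * (m * f⁻¹)) (1 * (g * Q⁻¹)) := o.cv hδ (1) e13 (by simp only [mul_assoc, mul_inv_rev, inv_inv, mul_inv_cancel_left, inv_mul_cancel_left, mul_inv_cancel, inv_mul_cancel, mul_one, one_mul, inv_one, C]) (by simp only [mul_assoc, mul_inv_rev, inv_inv, mul_inv_cancel_left, inv_mul_cancel_left, mul_inv_cancel, inv_mul_cancel, mul_one, one_mul, inv_one, C])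
  have k15 : o.lt (g * m⁻¹) (Q * g⁻¹) ↔ o.lt (1 * (m * g⁻¹)⁻¹) (1 * (g * Q⁻¹)⁻¹) := o.cv hδ (1) e9 (by simp only [mul_assoc, mul_inv_rev, inv_inv, mul_inv_cancel_left, inv_mul_cancel_left, mul_inv_cancel, inv_mul_cancel, mul_one, one_mul, inv_one, C]) (by simp only [mul_assoc, mul_inv_rev, inv_inv, mul_inv_cancel_left, inv_mul_cancel_left, mul_inv_cancel, inv_mul_cancel, mul_one, one_mul, inv_one, C])
  have k16 : o.lt (g * Q⁻¹) (m * f⁻¹) ↔ o.lt (1 * (g * Q⁻¹)) (1 * (m * f⁻¹)) := o.cv hδ (1) e11 (by simp only [mul_assoc, mul_inv_rev, inv_inv, mul_inv_cancel_left, inv_mul_cancel_left, mul_inv_cancel, inv_mul_cancel, mul_one, one_mul, inv_one, C]) (by simp only [mul_assoc, mul_inv_rev, inv_inv, mul_inv_cancel_left, inv_mul_cancel_left, mul_inv_cancel, inv_mul_cancel, mul_one, one_mul, inv_one, C])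
  have k17 : o.lt (Q * g⁻¹) (g * m⁻¹) ↔ o.lt (1 * (g * Q⁻¹)⁻¹) (1 * (m * g⁻¹)⁻¹) := o.cv hδ (1) e6 (by simp only [mul_assoc, mul_inv_rev, inv_inv, mul_inv_cancel_left, inv_mul_cancel_left, mul_inv_cancel, inv_mul_cancel, mul_one, one_mul, inv_one, C]) (by simp only [mul_assoc, mul_inv_rev, inv_inv, mul_inv_cancel_left, inv_mul_cancel_left, mul_inv_cancel, inv_mul_cancel, mul_one, one_mul, inv_one, C])
  have k18 : o.lt (g * P⁻¹) (f * P⁻¹) ↔ o.lt (1 * (g * Q⁻¹)) (1 * (f * Q⁻¹)) := o.cv hδ (P * Q⁻¹) e10 (by simp only [mul_assoc, mul_inv_rev, inv_inv, mul_inv_cancel_left, inv_mul_cancel_left, mul_inv_cancel, inv_mul_cancel, mul_one, one_mul, inv_one, C]) (by simp only [mul_assoc, mul_inv_rev, inv_inv, mul_inv_cancel_left, inv_mul_cancel_left, mul_inv_cancel, inv_mul_cancel, mul_one, one_mul, inv_one, C])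
  have k19 : o.lt (m * (g⁻¹ * (P * f⁻¹))) (g * (m⁻¹ * (g * f⁻¹))) ↔ o.lt ((m * g⁻¹) * (P * f⁻¹)) ((m * g⁻¹) * (m * f⁻¹)) := o.cv hδ (1) e1 (by simp only [mul_assoc, mul_inv_rev, inv_inv, mul_inv_cancel_left, inv_mul_cancel_left, mul_inv_cancel, inv_mul_cancel, mul_one, one_mul, inv_one, C]) (by simp only [mul_assoc, mul_inv_rev, inv_inv, mul_inv_cancel_left, inv_mul_cancel_left, mul_inv_cancel, inv_mul_cancel, mul_one, one_mul, inv_one, C])
  have k20 : o.lt (m * f⁻¹) (m * g⁻¹) ↔ o.lt ((m * g⁻¹) * (P * g⁻¹)⁻¹) ((m * g⁻¹) * (P * f⁻¹)⁻¹) := o.cv hδ (f * P⁻¹) e2 (by simp only [mul_assoc, mul_inv_rev, inv_inv, mul_inv_cancel_left, inv_mul_cancel_left, mul_inv_cancel, inv_mul_cancel, mul_one, one_mul, inv_one, C]) (by simp only [mul_assoc, mul_inv_rev, inv_inv, mul_inv_cancel_left, inv_mul_cancel_left, mul_inv_cancel, inv_mul_cancel, mul_one, one_mul, inv_one, C])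
  have k21 : o.lt (m * (g⁻¹ * (f * m⁻¹))) (m * P⁻¹) ↔ o.lt ((m * g⁻¹) * (m * f⁻¹)⁻¹) ((m * g⁻¹) * (P * g⁻¹)⁻¹) := o.cv hδ (1) e4 (by simp only [mul_assoc, mul_inv_rev, inv_inv, mul_inv_cancel_left, inv_mul_cancel_left, mul_inv_cancel, inv_mul_cancel, mul_one, one_mul, inv_one, C]) (by simp only [mul_assoc, mul_inv_rev, inv_inv, mul_inv_cancel_left, inv_mul_cancel_left, mul_inv_cancel, inv_mul_cancel, mul_one, one_mul, inv_one, C])
  have k22 : o.lt (P * f⁻¹) (m * f⁻¹) ↔ o.lt (P * f⁻¹) (m * f⁻¹) := o.cv hδ (1) e5 (by simp only [mul_assoc, mul_inv_rev, inv_inv, mul_inv_cancel_left, inv_mul_cancel_left, mul_inv_cancel, inv_mul_cancel, mul_one, one_mul, inv_one, C]) (by simp only [mul_assoc, mul_inv_rev, inv_inv, mul_inv_cancel_left, inv_mul_cancel_left, mul_inv_cancel, inv_mul_cancel, mul_one, one_mul, inv_one, C])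
  have k23 : o.lt (m * f⁻¹) (P * f⁻¹) ↔ o.lt (m * f⁻¹) (P * f⁻¹) := o.cv hδ (1) e3 (by simp only [mul_assoc, mul_inv_rev, inv_inv, mul_inv_cancel_left, inv_mul_cancel_left, mul_inv_cancel, inv_mul_cancel, mul_one, one_mul, inv_one, C]) (by simp only [mul_assoc, mul_inv_rev, inv_inv, mul_inv_cancel_left, inv_mul_cancel_left, mul_inv_cancel, inv_mul_cancel, mul_one, one_mul, inv_one, C])
  have k24 : o.lt (P * g⁻¹) (Q * P⁻¹) ↔ o.lt (P * g⁻¹) (Q * P⁻¹) := o.cv hδ (1) e14 (by simp only [mul_assoc, mul_inv_rev, inv_inv, mul_inv_cancel_left, inv_mul_cancel_left, mul_inv_cancel, inv_mul_cancel, mul_one, one_mul, inv_one, C]) (by simp only [mul_assoc, mul_inv_rev, inv_inv, mul_inv_cancel_left, inv_mul_cancel_left, mul_inv_cancel, inv_mul_cancel, mul_one, one_mul, inv_one, C])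
  have k25 : o.lt (Q * P⁻¹) (P * g⁻¹) ↔ o.lt (Q * P⁻¹) (P * g⁻¹) := o.cv hδ (1) e17 (by simp only [mul_assoc, mul_inv_rev, inv_inv, mul_inv_cancel_left, inv_mul_cancel_left, mul_inv_cancel, inv_mul_cancel, mul_one, one_mul, inv_one, C]) (by simp only [mul_assoc, mul_inv_rev, inv_inv, mul_inv_cancel_left, inv_mul_cancel_left, mul_inv_cancel, inv_mul_cancel, mul_one, one_mul, inv_one, C])
  have k26 : o.lt (m * f⁻¹) (g * Q⁻¹) ↔ o.lt (m * f⁻¹) (g * Q⁻¹) := o.cv hδ (1) e13 (by simp only [mul_assoc, mul_inv_rev, inv_inv, mul_inv_cancel_left, inv_mul_cancel_left, mul_inv_cancel, inv_mul_cancel, mul_one, one_mul, inv_one, C]) (by simp only [mul_assoc, mul_inv_rev, inv_inv, mul_inv_cancel_left, inv_mul_cancel_left, mul_inv_cancel, inv_mul_cancel, mul_one, one_mul, inv_one, C])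
  have k27 : o.lt (g * Q⁻¹) (P * f⁻¹) ↔ o.lt (g * Q⁻¹) (P * f⁻¹) := o.cv hδ (1) e16 (by simp only [mul_assoc, mul_inv_rev, inv_inv, mul_inv_cancel_left, inv_mul_cancel_left, mul_inv_cancel, inv_mul_cancel, mul_one, one_mul, inv_one, C]) (by simp only [mul_assoc, mul_inv_rev, inv_inv, mul_inv_cancel_left, inv_mul_cancel_left, mul_inv_cancel, inv_mul_cancel, mul_one, one_mul, inv_one, C])
  have k28 : o.lt (m * f⁻¹) (m * g⁻¹) ↔ o.lt (m * f⁻¹) (m * g⁻¹) := o.cv hδ (1) e2 (by simp only [mul_assoc, mul_inv_rev, inv_inv, mul_inv_cancel_left, inv_mul_cancel_left, mul_inv_cancel, inv_mul_cancel, mul_one, one_mul, inv_one, C]) (by simp only [mul_assoc, mul_inv_rev, inv_inv, mul_inv_cancel_left, inv_mul_cancel_left, mul_inv_cancel, inv_mul_cancel, mul_one, one_mul, inv_one, C])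
  have k29 : o.lt (m * g⁻¹) (m * f⁻¹) ↔ o.lt (m * g⁻¹) (m * f⁻¹) := o.cv hδ (1) e0 (by simp only [mul_assoc, mul_inv_rev, inv_inv, mul_inv_cancel_left, inv_mul_cancel_left, mul_inv_cancel, inv_mul_cancel, mul_one, one_mul, inv_one, C]) (by simp only [mul_assoc, mul_inv_rev, inv_inv, mul_inv_cancel_left, inv_mul_cancel_left, mul_inv_cancel, inv_mul_cancel, mul_one, one_mul, inv_one, C])
  have k30 : o.lt (m * f⁻¹) (Q * m⁻¹) ↔ o.lt (m * f⁻¹) (Q * m⁻¹) := o.cv hδ (1) e15 (by simp only [mul_assoc, mul_inv_rev, inv_inv, mul_inv_cancel_left, inv_mul_cancel_left, mul_inv_cancel, inv_mul_cancel, mul_one, one_mul, inv_one, C]) (by simp only [mul_assoc, mul_inv_rev, inv_inv, mul_inv_cancel_left, inv_mul_cancel_left, mul_inv_cancel, inv_mul_cancel, mul_one, one_mul, inv_one, C])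
  have k31 : o.lt (g * m⁻¹) (Q * g⁻¹) ↔ o.lt (m * g⁻¹) (Q * m⁻¹) := o.cv hδ (m * (g⁻¹ * (m * g⁻¹))) e9 (by simp only [mul_assoc, mul_inv_rev, inv_inv, mul_inv_cancel_left, inv_mul_cancel_left, mul_inv_cancel, inv_mul_cancel, mul_one, one_mul, inv_one, C]) (by simp only [mul_assoc, mul_inv_rev, inv_inv, mul_inv_cancel_left, inv_mul_cancel_left, mul_inv_cancel, inv_mul_cancel, mul_one, one_mul, inv_one, C])
  have k32 : o.lt (g * Q⁻¹) (m * f⁻¹) ↔ o.lt (g * Q⁻¹) (m * f⁻¹) := o.cv hδ (1) e11 (by simp only [mul_assoc, mul_inv_rev, inv_inv, mul_inv_cancel_left, inv_mul_cancel_left, mul_inv_cancel, inv_mul_cancel, mul_one, one_mul, inv_one, C]) (by simp only [mul_assoc, mul_inv_rev, inv_inv, mul_inv_cancel_left, inv_mul_cancel_left, mul_inv_cancel, inv_mul_cancel, mul_one, one_mul, inv_one, C])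
  have k33 : o.lt (Q * g⁻¹) (g * m⁻¹) ↔ o.lt (Q * m⁻¹) (m * g⁻¹) := o.cv hδ (g * m⁻¹) e6 (by simp only [mul_assoc, mul_inv_rev, inv_inv, mul_inv_cancel_left, inv_mul_cancel_left, mul_inv_cancel, inv_mul_cancel, mul_one, one_mul, inv_one, C]) (by simp only [mul_assoc, mul_inv_rev, inv_inv, mul_inv_cancel_left, inv_mul_cancel_left, mul_inv_cancel, inv_mul_cancel, mul_one, one_mul, inv_one, C])
  have k34 : o.lt (Q * m⁻¹) (m * f⁻¹) ↔ o.lt (Q * m⁻¹) (m * f⁻¹) := o.cv hδ (1) e18 (by simp only [mul_assoc, mul_inv_rev, inv_inv, mul_inv_cancel_left, inv_mul_cancel_left, mul_inv_cancel, inv_mul_cancel, mul_one, one_mul, inv_one, C]) (by simp only [mul_assoc, mul_inv_rev, inv_inv, mul_inv_cancel_left, inv_mul_cancel_left, mul_inv_cancel, inv_mul_cancel, mul_one, one_mul, inv_one, C])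
  have k35 : o.lt (f * P⁻¹) (Q * g⁻¹) ↔ o.lt (f * P⁻¹) (Q * g⁻¹) := o.cv hδ (1) e19 (by simp only [mul_assoc, mul_inv_rev, inv_inv, mul_inv_cancel_left, inv_mul_cancel_left, mul_inv_cancel, inv_mul_cancel, mul_one, one_mul, inv_one, C]) (by simp only [mul_assoc, mul_inv_rev, inv_inv, mul_inv_cancel_left, inv_mul_cancel_left, mul_inv_cancel, inv_mul_cancel, mul_one, one_mul, inv_one, C])
  have k36 : o.lt (Q * g⁻¹) (f * P⁻¹) ↔ o.lt (Q * g⁻¹) (f * P⁻¹) := o.cv hδ (1) e24 (by simp only [mul_assoc, mul_inv_rev, inv_inv, mul_inv_cancel_left, inv_mul_cancel_left, mul_inv_cancel, inv_mul_cancel, mul_one, one_mul, inv_one, C]) (by simp only [mul_assoc, mul_inv_rev, inv_inv, mul_inv_cancel_left, inv_mul_cancel_left, mul_inv_cancel, inv_mul_cancel, mul_one, one_mul, inv_one, C])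
  have k37 : o.lt (P * g⁻¹) (Q * P⁻¹) ↔ o.lt (g * P⁻¹) (Q * g⁻¹) := o.cv hδ (g * (P⁻¹ * (g * P⁻¹))) e14 (by simp only [mul_assoc, mul_inv_rev, inv_inv, mul_inv_cancel_left, inv_mul_cancel_left, mul_inv_cancel, inv_mul_cancel, mul_one, one_mul, inv_one, C]) (by simp only [mul_assoc, mul_inv_rev, inv_inv, mul_inv_cancel_left, inv_mul_cancel_left, mul_inv_cancel, inv_mul_cancel, mul_one, one_mul, inv_one, C])
  have k38 : o.lt (g * P⁻¹) (f * P⁻¹) ↔ o.lt (g * P⁻¹) (f * P⁻¹) := o.cv hδ (1) e10 (by simp only [mul_assoc, mul_inv_rev, inv_inv, mul_inv_cancel_left, inv_mul_cancel_left, mul_inv_cancel, inv_mul_cancel, mul_one, one_mul, inv_one, C]) (by simp only [mul_assoc, mul_inv_rev, inv_inv, mul_inv_cancel_left, inv_mul_cancel_left, mul_inv_cancel, inv_mul_cancel, mul_one, one_mul, inv_one, C])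
  have k39 : o.lt (g * P⁻¹) (g * m⁻¹) ↔ o.lt (g * P⁻¹) (g * m⁻¹) := o.cv hδ (1) e7 (by simp only [mul_assoc, mul_inv_rev, inv_inv, mul_inv_cancel_left, inv_mul_cancel_left, mul_inv_cancel, inv_mul_cancel, mul_one, one_mul, inv_one, C]) (by simp only [mul_assoc, mul_inv_rev, inv_inv, mul_inv_cancel_left, inv_mul_cancel_left, mul_inv_cancel, inv_mul_cancel, mul_one, one_mul, inv_one, C])
  have k40 : o.lt (g * m⁻¹) (Q * g⁻¹) ↔ o.lt (g * m⁻¹) (Q * g⁻¹) := o.cv hδ (1) e9 (by simp only [mul_assoc, mul_inv_rev, inv_inv, mul_inv_cancel_left, inv_mul_cancel_left, mul_inv_cancel, inv_mul_cancel, mul_one, one_mul, inv_one, C]) (by simp only [mul_assoc, mul_inv_rev, inv_inv, mul_inv_cancel_left, inv_mul_cancel_left, mul_inv_cancel, inv_mul_cancel, mul_one, one_mul, inv_one, C])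
  have k41 : o.lt (f * m⁻¹) (f * P⁻¹) ↔ o.lt (f * m⁻¹) (f * P⁻¹) := o.cv hδ (1) e20 (by simp only [mul_assoc, mul_inv_rev, inv_inv, mul_inv_cancel_left, inv_mul_cancel_left, mul_inv_cancel, inv_mul_cancel, mul_one, one_mul, inv_one, C]) (by simp only [mul_assoc, mul_inv_rev, inv_inv, mul_inv_cancel_left, inv_mul_cancel_left, mul_inv_cancel, inv_mul_cancel, mul_one, one_mul, inv_one, C])
  have k42 : o.lt (f * m⁻¹) (Q * g⁻¹) ↔ o.lt (f * m⁻¹) (Q * g⁻¹) := o.cv hδ (1) e22 (by simp only [mul_assoc, mul_inv_rev, inv_inv, mul_inv_cancel_left, inv_mul_cancel_left, mul_inv_cancel, inv_mul_cancel, mul_one, one_mul, inv_one, C]) (by simp only [mul_assoc, mul_inv_rev, inv_inv, mul_inv_cancel_left, inv_mul_cancel_left, mul_inv_cancel, inv_mul_cancel, mul_one, one_mul, inv_one, C])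
  have k43 : o.lt (f * m⁻¹) (g * P⁻¹) ↔ o.lt (f * m⁻¹) (g * P⁻¹) := o.cv hδ (1) e21 (by simp only [mul_assoc, mul_inv_rev, inv_inv, mul_inv_cancel_left, inv_mul_cancel_left, mul_inv_cancel, inv_mul_cancel, mul_one, one_mul, inv_one, C]) (by simp only [mul_assoc, mul_inv_rev, inv_inv, mul_inv_cancel_left, inv_mul_cancel_left, mul_inv_cancel, inv_mul_cancel, mul_one, one_mul, inv_one, C])
  have k44 : o.lt (Q * P⁻¹) (P * g⁻¹) ↔ o.lt (Q * g⁻¹) (g * P⁻¹) := o.cv hδ (P * g⁻¹) e17 (by simp only [mul_assoc, mul_inv_rev, inv_inv, mul_inv_cancel_left, inv_mul_cancel_left, mul_inv_cancel, inv_mul_cancel, mul_one, one_mul, inv_one, C]) (by simp only [mul_assoc, mul_inv_rev, inv_inv, mul_inv_cancel_left, inv_mul_cancel_left, mul_inv_cancel, inv_mul_cancel, mul_one, one_mul, inv_one, C])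
  have k45 : o.lt (Q * g⁻¹) (f * m⁻¹) ↔ o.lt (Q * g⁻¹) (f * m⁻¹) := o.cv hδ (1) e25 (by simp only [mul_assoc, mul_inv_rev, inv_inv, mul_inv_cancel_left, inv_mul_cancel_left, mul_inv_cancel, inv_mul_cancel, mul_one, one_mul, inv_one, C]) (by simp only [mul_assoc, mul_inv_rev, inv_inv, mul_inv_cancel_left, inv_mul_cancel_left, mul_inv_cancel, inv_mul_cancel, mul_one, one_mul, inv_one, C])
  have k46 : o.lt (Q * m⁻¹) (m * f⁻¹) ↔ o.lt (Q * f⁻¹) (f * m⁻¹) := o.cv hδ (m * f⁻¹) e18 (by simp only [mul_assoc, mul_inv_rev, inv_inv, mul_inv_cancel_left, inv_mul_cancel_left, mul_inv_cancel, inv_mul_cancel, mul_one, one_mul, inv_one, C]) (by simp only [mul_assoc, mul_inv_rev, inv_inv, mul_inv_cancel_left, inv_mul_cancel_left, mul_inv_cancel, inv_mul_cancel, mul_one, one_mul, inv_one, C])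
  have k47 : o.lt (Q * f⁻¹) (Q * g⁻¹) ↔ o.lt (Q * f⁻¹) (Q * g⁻¹) := o.cv hδ (1) e23 (by simp only [mul_assoc, mul_inv_rev, inv_inv, mul_inv_cancel_left, inv_mul_cancel_left, mul_inv_cancel, inv_mul_cancel, mul_one, one_mul, inv_one, C]) (by simp only [mul_assoc, mul_inv_rev, inv_inv, mul_inv_cancel_left, inv_mul_cancel_left, mul_inv_cancel, inv_mul_cancel, mul_one, one_mul, inv_one, C])
  have k48 : o.lt (Q * g⁻¹) (Q * f⁻¹) ↔ o.lt (Q * g⁻¹) (Q * f⁻¹) := o.cv hδ (1) e26 (by simp only [mul_assoc, mul_inv_rev, inv_inv, mul_inv_cancel_left, inv_mul_cancel_left, mul_inv_cancel, inv_mul_cancel, mul_one, one_mul, inv_one, C]) (by simp only [mul_assoc, mul_inv_rev, inv_inv, mul_inv_cancel_left, inv_mul_cancel_left, mul_inv_cancel, inv_mul_cancel, mul_one, one_mul, inv_one, C])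
  have k49 : o.lt (m * f⁻¹) (Q * m⁻¹) ↔ o.lt (f * m⁻¹) (Q * f⁻¹) := o.cv hδ (f * (m⁻¹ * (f * m⁻¹))) e15 (by simp only [mul_assoc, mul_inv_rev, inv_inv, mul_inv_cancel_left, inv_mul_cancel_left, mul_inv_cancel, inv_mul_cancel, mul_one, one_mul, inv_one, C]) (by simp only [mul_assoc, mul_inv_rev, inv_inv, mul_inv_cancel_left, inv_mul_cancel_left, mul_inv_cancel, inv_mul_cancel, mul_one, one_mul, inv_one, C])
  have k50 : o.lt (P * f⁻¹) (m * f⁻¹) ↔ o.lt (g * P⁻¹) (m * (g⁻¹ * (P * g⁻¹))) := o.cv hδ (f * (P⁻¹ * (g * P⁻¹))) e5 (by simp only [mul_assoc, mul_inv_rev, inv_inv, mul_inv_cancel_left, inv_mul_cancel_left, mul_inv_cancel, inv_mul_cancel, mul_one, one_mul, inv_one, C]) (by simp only [mul_assoc, mul_inv_rev, inv_inv, mul_inv_cancel_left, inv_mul_cancel_left, mul_inv_cancel, inv_mul_cancel, mul_one, one_mul, inv_one, C])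
  have k51 : o.lt (m * (g⁻¹ * (P * f⁻¹))) (g * (m⁻¹ * (g * f⁻¹))) ↔ o.lt (m * (g⁻¹ * (P * g⁻¹))) (g * m⁻¹) := o.cv hδ (f * g⁻¹) e1 (by simp only [mul_assoc, mul_inv_rev, inv_inv, mul_inv_cancel_left, inv_mul_cancel_left, mul_inv_cancel, inv_mul_cancel, mul_one, one_mul, inv_one, C]) (by simp only [mul_assoc, mul_inv_rev, inv_inv, mul_inv_cancel_left, inv_mul_cancel_left, mul_inv_cancel, inv_mul_cancel, mul_one, one_mul, inv_one, C])
  have k52 : o.lt (m * (g⁻¹ * (f * m⁻¹))) (m * P⁻¹) ↔ o.lt (m * (g⁻¹ * (f * m⁻¹))) (m * P⁻¹) := o.cv hδ (1) e4 (by simp only [mul_assoc, mul_inv_rev, inv_inv, mul_inv_cancel_left, inv_mul_cancel_left, mul_inv_cancel, inv_mul_cancel, mul_one, one_mul, inv_one, C]) (by simp only [mul_assoc, mul_inv_rev, inv_inv, mul_inv_cancel_left, inv_mul_cancel_left, mul_inv_cancel, inv_mul_cancel, mul_one, one_mul, inv_one, C])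
  have k53 : o.lt (m * g⁻¹) (m * f⁻¹) ↔ o.lt (m * (g⁻¹ * (f * m⁻¹))) (1) := o.cv hδ (f * m⁻¹) e0 (by simp only [mul_assoc, mul_inv_rev, inv_inv, mul_inv_cancel_left, inv_mul_cancel_left, mul_inv_cancel, inv_mul_cancel, mul_one, one_mul, inv_one, C]) (by simp only [mul_assoc, mul_inv_rev, inv_inv, mul_inv_cancel_left, inv_mul_cancel_left, mul_inv_cancel, inv_mul_cancel, mul_one, one_mul, inv_one, C])
  have k54 : o.lt (P * f⁻¹) (m * f⁻¹) ↔ o.lt (1) (m * P⁻¹) := o.cv hδ (f * P⁻¹) e5 (by simp only [mul_assoc, mul_inv_rev, inv_inv, mul_inv_cancel_left, inv_mul_cancel_left, mul_inv_cancel, inv_mul_cancel, mul_one, one_mul, inv_one, C]) (by simp only [mul_assoc, mul_inv_rev, inv_inv, mul_inv_cancel_left, inv_mul_cancel_left, mul_inv_cancel, inv_mul_cancel, mul_one, one_mul, inv_one, C])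
  have k55 : o.lt (g * P⁻¹) (f * P⁻¹) ↔ o.lt (g * Q⁻¹) (f * Q⁻¹) := o.cv hδ (P * Q⁻¹) e10 (by simp only [mul_assoc, mul_inv_rev, inv_inv, mul_inv_cancel_left, inv_mul_cancel_left, mul_inv_cancel, inv_mul_cancel, mul_one, one_mul, inv_one, C]) (by simp only [mul_assoc, mul_inv_rev, inv_inv, mul_inv_cancel_left, inv_mul_cancel_left, mul_inv_cancel, inv_mul_cancel, mul_one, one_mul, inv_one, C])
  have k56 : o.lt (P * g⁻¹) (Q * P⁻¹) ↔ o.lt ((P * g⁻¹)⁻¹) ((g * Q⁻¹)⁻¹) := o.cv hδ (g * (P⁻¹ * (g * P⁻¹))) e14 (by simp only [mul_assoc, mul_inv_rev, inv_inv, mul_inv_cancel_left, inv_mul_cancel_left, mul_inv_cancel, inv_mul_cancel, mul_one, one_mul, inv_one, C]) (by simp only [mul_assoc, mul_inv_rev, inv_inv, mul_inv_cancel_left, inv_mul_cancel_left, mul_inv_cancel, inv_mul_cancel, mul_one, one_mul, inv_one, C])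
  exact ser_EAA_1_prop
    (fun b0 b1 b2 => N0.i.r0 1 (k0.1 b0) (fun h => b1 (k1.2 h)) (fun h => b2 (k2.2 h)))
    (fun b0 b1 b2 => N0.i.r1 1 (fun h => b0 (k3.2 h)) (k4.1 b1) (fun h => b2 (k1.2 h)))
    (fun b0 b1 b2 => N0.d.r1 1 (fun h => b0 (k0.2 h)) (k5.1 b1) (fun h => b2 (k6.2 h)))
    (fun b0 b1 b2 => N0.rd.r2 1 (fun h => b0 (k4.2 h)) (fun h => b1 (k7.2 h)) (k8.1 b2))
    (fun b0 b1 b2 => N1.rd.r1 1 (fun h => b0 (k9.2 h)) (fun h => b1 (k10.2 h)) (k11.1 b2))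
    (fun b0 b1 b2 => N1.rd.r0 1 (fun h => b0 (k12.2 h)) (k13.1 b1) (fun h => b2 (k11.2 h)))
    (fun b0 b1 b2 => N1.i.r0 1 (fun h => b0 (k5.2 h)) (k14.1 b1) (fun h => b2 (k15.2 h)))
    (fun b0 b1 b2 => N1.d.r0 1 (fun h => b0 (k4.2 h)) (k16.1 b1) (fun h => b2 (k17.2 h)))
    (fun b0 b1 b2 => N1.i.r1 1 (fun h => b0 (k18.2 h)) (fun h => b1 (k16.2 h)) (k15.1 b2))
    (fun b0 b1 b2 => N0.i.r0 (m * g⁻¹) (k19.1 b0) (fun h => b1 (k20.2 h)) (fun h => b2 (k21.2 h)))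
    (fun b0 b1 => o.asym (k22.1 b0) (k23.1 b1))
    (fun b0 b1 => o.asym (k24.1 b0) (k25.1 b1))
    (fun b0 b1 b2 => o.tri (k23.1 b0) (fun h => b1 (k26.2 h)) (fun h => b2 (k27.2 h)))
    (fun b0 b1 => o.asym (k28.1 b0) (k29.1 b1))
    (fun b0 b1 b2 => o.tri (k30.1 b0) (fun h => b1 (k28.2 h)) (fun h => b2 (k31.2 h)))
    (fun b0 b1 b2 => o.tri (k32.1 b0) (fun h => b1 (k27.2 h)) (fun h => b2 (k22.2 h)))
    (fun b0 b1 b2 => o.tri (k33.1 b0) (fun h => b1 (k34.2 h)) (fun h => b2 (k28.2 h)))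
    (fun b0 b1 => o.asym (k35.1 b0) (k36.1 b1))
    (fun b0 b1 b2 => o.tri (k37.1 b0) (fun h => b1 (k38.2 h)) (fun h => b2 (k35.2 h)))
    (fun b0 b1 b2 => o.tri (k37.1 b0) (fun h => b1 (k39.2 h)) (fun h => b2 (k40.2 h)))
    (fun b0 b1 b2 => o.tri (k41.1 b0) (fun h => b1 (k42.2 h)) (fun h => b2 (k36.2 h)))
    (fun b0 b1 b2 => o.tri (k43.1 b0) (fun h => b1 (k42.2 h)) (fun h => b2 (k44.2 h)))
    (fun b0 b1 => o.asym (k42.1 b0) (k45.1 b1))
    (fun b0 b1 b2 => o.tri (k46.1 b0) (fun h => b1 (k47.2 h)) (fun h => b2 (k45.2 h)))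
    (fun b0 b1 => o.asym (k47.1 b0) (k48.1 b1))
    (fun b0 b1 b2 => o.tri (k48.1 b0) (fun h => b1 (k45.2 h)) (fun h => b2 (k49.2 h)))
    (fun b0 b1 b2 => o.tri (k39.1 b0) (fun h => b1 (k50.2 h)) (fun h => b2 (k51.2 h)))
    (fun b0 b1 b2 => o.tri (k52.1 b0) (fun h => b1 (k53.2 h)) (fun h => b2 (k54.2 h)))
    (fun h => g0 (k55.1 h))
    (fun h => g1 (k27.1 h))
    (k56.2 g2)

theorem ser_EBB_0_prop {A1 A2 A3 A4 A5 A6 A7 A8 A9 A10 A11 A12 A13 A14 A15 A16 A17 A18 A19 A20 A21 A22 A23 A24 A25 A26 A27 A28 A29 A30 A31 A32 : Prop}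
    (c0 : ¬ A2 → A8 → ¬ A6 → False)
    (c1 : ¬ A27 → ¬ A28 → A25 → ¬ A6 → False)
    (c2 : ¬ A25 → A26 → ¬ A31 → ¬ A6 → False)
    (c3 : ¬ A30 → ¬ A29 → A32 → ¬ A6 → False)
    (c4 : ¬ A11 → ¬ A16 → A14 → ¬ A1 → False)
    (c5 : ¬ A22 → A21 → ¬ A15 → ¬ A1 → False)
    (c6 : ¬ A13 → ¬ A10 → A22 → ¬ A1 → False)
    (c7 : A8 → A1 → False)
    (c8 : A8 → ¬ A20 → ¬ A7 → False)
    (c9 : A9 → A2 → False)
    (c10 : A12 → ¬ A9 → ¬ A25 → False)
    (c11 : A20 → A4 → False)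
    (c12 : A24 → A5 → False)
    (c13 : A2 → ¬ A26 → ¬ A4 → False)
    (c14 : A27 → ¬ A3 → ¬ A9 → False)
    (c15 : A28 → ¬ A7 → ¬ A9 → False)
    (c16 : A29 → ¬ A5 → ¬ A9 → False)
    (c17 : A30 → ¬ A5 → ¬ A12 → False)
    (c18 : A31 → ¬ A32 → ¬ A30 → False)
    (c19 : A10 → A17 → False)
    (c20 : A16 → A23 → False)
    (c21 : A18 → ¬ A19 → ¬ A14 → False)
    (c22 : A19 → A15 → False)
    (c23 : A2 → ¬ A3 → ¬ A17 → False)
    (c24 : A2 → ¬ A4 → ¬ A21 → False)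
    (c25 : A5 → ¬ A3 → ¬ A18 → False)
    (c26 : A5 → ¬ A4 → ¬ A23 → False)
    (c27 : A13 → ¬ A12 → ¬ A4 → False)
    (c28 : A11 → ¬ A24 → ¬ A3 → False)
    (u0 : ¬ A3)
    (u1 : ¬ A7)
    (u2 : A8)
    (u3 : ¬ A6)
    : False := by
  have q1 : A2 := Classical.byContradiction fun h => c0 h u2 u3
  have q2 : ¬ A1 := fun h => c7 u2 h
  have q3 : A20 := Classical.byContradiction fun h => c8 u2 h u1
  have q4 : ¬ A9 := fun h => c9 h q1
  have q5 : ¬ A4 := fun h => c11 q3 h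
  have q6 : A26 := Classical.byContradiction fun h => c13 q1 h q5
  have q7 : ¬ A27 := fun h => c14 h u0 q4
  have q8 : ¬ A28 := fun h => c15 h u1 q4
  have q9 : ¬ A25 := fun h => c1 q7 q8 h u3
  have q10 : A31 := Classical.byContradiction fun h => c2 q9 q6 h u3
  have q11 : ¬ A12 := fun h => c10 h q4 q9
  have q12 : A17 := Classical.byContradiction fun h => c23 q1 u0 h
  have q13 : ¬ A10 := fun h => c19 h q12
  have q14 : A21 := Classical.byContradiction fun h => c24 q1 q5 h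
  have q15 : ¬ A13 := fun h => c27 h q11 q5
  have q16 : ¬ A22 := fun h => c6 q15 q13 h q2
  have q17 : A15 := Classical.byContradiction fun h => c5 q16 q14 h q2
  have q18 : ¬ A19 := fun h => c22 h q17
  rcases Classical.em A5 with q19 | q19
  · have q20 : ¬ A24 := fun h => c12 h q19
    have q21 : A18 := Classical.byContradiction fun h => c25 q19 u0 h
    have q22 : A14 := Classical.byContradiction fun h => c21 q21 q18 h
    have q23 : A23 := Classical.byContradiction fun h => c26 q19 q5 h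
    have q24 : ¬ A16 := fun h => c20 h q23
    have q25 : A11 := Classical.byContradiction fun h => c4 h q24 q22 q2
    exact c28 q25 q20 u0
  · have q26 : ¬ A29 := fun h => c16 h q19 q4
    have q27 : ¬ A30 := fun h => c17 h q19 q11
    have q28 : ¬ A32 := fun h => c3 q27 q26 h u3
    exact c18 q10 q28 q27

theorem ser_EBB_0 {G : Type*} [Group G] {δ : G → ZMod 3} (hδ : ∀ u v, δ (u * v) = δ u + δ v) (o : Pre δ)
    {P m Q f g : G} {e : ZMod 3} (h3 : 3 * e = 0)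
    (D : δ P = e ∧ δ m = e ∧ δ Q = -e ∧ δ f = 0 ∧ δ g = 0)
    (C : Cube P f ∧ Cube P g ∧ Cube m f ∧ Cube m g ∧ Cube Q f ∧ Cube Q g)
    (N0 : RE o P m f g)
    (N1 : RB o m Q f g)
    (g0 : ¬ o.lt (f * Q⁻¹) (P * f⁻¹)) (g1 : ¬ o.lt (g * Q⁻¹) (P * g⁻¹)) (g2 : o.lt (P * f⁻¹) (P * g⁻¹)) (g3 : ¬ o.lt (g) (f)) : False := by
  simp only [Cube] at C
  have e0 : δ (P) = δ (P * (f⁻¹ * g)) := by simp only [hδ, δinv hδ, δone hδ, D] <;> linear_combination (0) * h3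
  have e1 : δ (m * g⁻¹) = δ (P * g⁻¹) := by simp only [hδ, δinv hδ, δone hδ, D] <;> linear_combination (0) * h3
  have e2 : δ (f * Q⁻¹) = δ (P * f⁻¹) := by simp only [hδ, δinv hδ, δone hδ, D] <;> linear_combination (0) * h3
  have e3 : δ (g * Q⁻¹) = δ (P * f⁻¹) := by simp only [hδ, δinv hδ, δone hδ, D] <;> linear_combination (0) * h3
  have e4 : δ (Q * m⁻¹) = δ (P * f⁻¹) := by simp only [hδ, δinv hδ, δone hδ, D] <;> linear_combination (-1) * h3
  have e5 : δ (g * m⁻¹) = δ (f * m⁻¹) := by simp only [hδ, δinv hδ, δone hδ, D] <;> linear_combination (0) * h3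
  have e6 : δ (g * Q⁻¹) = δ (P * g⁻¹) := by simp only [hδ, δinv hδ, δone hδ, D] <;> linear_combination (0) * h3
  have e7 : δ (P * f⁻¹) = δ (P * g⁻¹) := by simp only [hδ, δinv hδ, δone hδ, D] <;> linear_combination (0) * h3
  have e8 : δ (P * f⁻¹) = δ (m * f⁻¹) := by simp only [hδ, δinv hδ, δone hδ, D] <;> linear_combination (0) * h3
  have e9 : δ (P * m⁻¹) = δ (P * (Q⁻¹ * (f * Q⁻¹))) := by simp only [hδ, δinv hδ, δone hδ, D] <;> linear_combination (-1) * h3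
  have e10 : δ (P * (m⁻¹ * (f * m⁻¹))) = δ (P * Q⁻¹) := by simp only [hδ, δinv hδ, δone hδ, D] <;> linear_combination (-1) * h3
  have e11 : δ (P * f⁻¹) = δ (m * g⁻¹) := by simp only [hδ, δinv hδ, δone hδ, D] <;> linear_combination (0) * h3
  have e12 : δ (P * (f⁻¹ * (g * m⁻¹))) = δ (P * (f⁻¹ * (Q * g⁻¹))) := by simp only [hδ, δinv hδ, δone hδ, D] <;> linear_combination (0) * h3
  have e13 : δ (P * (f⁻¹ * (m * g⁻¹))) = δ (P * (m⁻¹ * (f * m⁻¹))) := by simp only [hδ, δinv hδ, δone hδ, D] <;> linear_combination (1) * h3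
  have e14 : δ (P * (f⁻¹ * (m * g⁻¹))) = δ (P * Q⁻¹) := by simp only [hδ, δinv hδ, δone hδ, D] <;> linear_combination (0) * h3
  have e15 : δ (P * (f⁻¹ * (m * g⁻¹))) = δ (P * (f⁻¹ * (g * Q⁻¹))) := by simp only [hδ, δinv hδ, δone hδ, D] <;> linear_combination (0) * h3
  have e16 : δ (P * (f⁻¹ * (Q * m⁻¹))) = δ (P * (m⁻¹ * (f * m⁻¹))) := by simp only [hδ, δinv hδ, δone hδ, D] <;> linear_combination (0) * h3
  have e17 : δ (P * Q⁻¹) = δ (P * (m⁻¹ * (f * m⁻¹))) := by simp only [hδ, δinv hδ, δone hδ, D] <;> linear_combination (1) * h3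
  have e18 : δ (P * Q⁻¹) = δ (P * (f⁻¹ * (m * g⁻¹))) := by simp only [hδ, δinv hδ, δone hδ, D] <;> linear_combination (0) * h3
  have e19 : δ (P * f⁻¹) = δ (g * Q⁻¹) := by simp only [hδ, δinv hδ, δone hδ, D] <;> linear_combination (0) * h3
  have e20 : δ (P * (f⁻¹ * (Q * g⁻¹))) = δ (P * m⁻¹) := by simp only [hδ, δinv hδ, δone hδ, D] <;> linear_combination (0) * h3
  have e21 : δ (P * (f⁻¹ * (Q * g⁻¹))) = δ (P * (Q⁻¹ * (f * Q⁻¹))) := by simp only [hδ, δinv hδ, δone hδ, D] <;> linear_combination (-1) * h3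
  have e22 : δ (P * (f⁻¹ * (g * Q⁻¹))) = δ (P * (f⁻¹ * (m * g⁻¹))) := by simp only [hδ, δinv hδ, δone hδ, D] <;> linear_combination (0) * h3
  have e23 : δ (P * f⁻¹) = δ (Q * m⁻¹) := by simp only [hδ, δinv hδ, δone hδ, D] <;> linear_combination (1) * h3
  have e24 : δ (m * f⁻¹) = δ (m * g⁻¹) := by simp only [hδ, δinv hδ, δone hδ, D] <;> linear_combination (0) * h3
  have e25 : δ (m * f⁻¹) = δ (g * Q⁻¹) := by simp only [hδ, δinv hδ, δone hδ, D] <;> linear_combination (0) * h3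
  have e26 : δ (f * Q⁻¹) = δ (m * f⁻¹) := by simp only [hδ, δinv hδ, δone hδ, D] <;> linear_combination (0) * h3
  have e27 : δ (g * Q⁻¹) = δ (m * g⁻¹) := by simp only [hδ, δinv hδ, δone hδ, D] <;> linear_combination (0) * h3
  have e28 : δ (Q * f⁻¹) = δ (f * m⁻¹) := by simp only [hδ, δinv hδ, δone hδ, D] <;> linear_combination (0) * h3
  have e29 : δ (Q * g⁻¹) = δ (g * m⁻¹) := by simp only [hδ, δinv hδ, δone hδ, D] <;> linear_combination (0) * h3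
  have e30 : δ (Q * f⁻¹) = δ (g * m⁻¹) := by simp only [hδ, δinv hδ, δone hδ, D] <;> linear_combination (0) * h3
  have e31 : δ (Q * f⁻¹) = δ (Q * g⁻¹) := by simp only [hδ, δinv hδ, δone hδ, D] <;> linear_combination (0) * h3
  have k0 : o.lt (m * g⁻¹) (P * g⁻¹) ↔ o.lt (1 * (m * g⁻¹)) (1 * (P * g⁻¹)) := o.cv hδ (1) e1 (by simp only [mul_assoc, mul_inv_rev, inv_inv, mul_inv_cancel_left, inv_mul_cancel_left, mul_inv_cancel, inv_mul_cancel, mul_one, one_mul, inv_one, C]) (by simp only [mul_assoc, mul_inv_rev, inv_inv, mul_inv_cancel_left, inv_mul_cancel_left, mul_inv_cancel, inv_mul_cancel, mul_one, one_mul, inv_one, C])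
  have k1 : o.lt (P * f⁻¹) (P * g⁻¹) ↔ o.lt (1 * (P * f⁻¹)) (1 * (P * g⁻¹)) := o.cv hδ (1) e7 (by simp only [mul_assoc, mul_inv_rev, inv_inv, mul_inv_cancel_left, inv_mul_cancel_left, mul_inv_cancel, inv_mul_cancel, mul_one, one_mul, inv_one, C]) (by simp only [mul_assoc, mul_inv_rev, inv_inv, mul_inv_cancel_left, inv_mul_cancel_left, mul_inv_cancel, inv_mul_cancel, mul_one, one_mul, inv_one, C])
  have k2 : o.lt (g * m⁻¹) (f * m⁻¹) ↔ o.lt (1 * (m * g⁻¹)⁻¹) (1 * (m * f⁻¹)⁻¹) := o.cv hδ (1) e5 (by simp only [mul_assoc, mul_inv_rev, inv_inv, mul_inv_cancel_left, inv_mul_cancel_left, mul_inv_cancel, inv_mul_cancel, mul_one, one_mul, inv_one, C]) (by simp only [mul_assoc, mul_inv_rev, inv_inv, mul_inv_cancel_left, inv_mul_cancel_left, mul_inv_cancel, inv_mul_cancel, mul_one, one_mul, inv_one, C])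
  have k3 : o.lt (f * Q⁻¹) (m * f⁻¹) ↔ o.lt (1 * (f * Q⁻¹)) (1 * (m * f⁻¹)) := o.cv hδ (1) e26 (by simp only [mul_assoc, mul_inv_rev, inv_inv, mul_inv_cancel_left, inv_mul_cancel_left, mul_inv_cancel, inv_mul_cancel, mul_one, one_mul, inv_one, C]) (by simp only [mul_assoc, mul_inv_rev, inv_inv, mul_inv_cancel_left, inv_mul_cancel_left, mul_inv_cancel, inv_mul_cancel, mul_one, one_mul, inv_one, C])
  have k4 : o.lt (g * Q⁻¹) (m * g⁻¹) ↔ o.lt (1 * (g * Q⁻¹)) (1 * (m * g⁻¹)) := o.cv hδ (1) e27 (by simp only [mul_assoc, mul_inv_rev, inv_inv, mul_inv_cancel_left, inv_mul_cancel_left, mul_inv_cancel, inv_mul_cancel, mul_one, one_mul, inv_one, C]) (by simp only [mul_assoc, mul_inv_rev, inv_inv, mul_inv_cancel_left, inv_mul_cancel_left, mul_inv_cancel, inv_mul_cancel, mul_one, one_mul, inv_one, C])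
  have k5 : o.lt (m * f⁻¹) (m * g⁻¹) ↔ o.lt (1 * (m * f⁻¹)) (1 * (m * g⁻¹)) := o.cv hδ (1) e24 (by simp only [mul_assoc, mul_inv_rev, inv_inv, mul_inv_cancel_left, inv_mul_cancel_left, mul_inv_cancel, inv_mul_cancel, mul_one, one_mul, inv_one, C]) (by simp only [mul_assoc, mul_inv_rev, inv_inv, mul_inv_cancel_left, inv_mul_cancel_left, mul_inv_cancel, inv_mul_cancel, mul_one, one_mul, inv_one, C])
  have k6 : o.lt (g * m⁻¹) (f * m⁻¹) ↔ o.lt (1 * g) (1 * f) := o.cv hδ (m) e5 (by simp only [mul_assoc, mul_inv_rev, inv_inv, mul_inv_cancel_left, inv_mul_cancel_left, mul_inv_cancel, inv_mul_cancel, mul_one, one_mul, inv_one, C]) (by simp only [mul_assoc, mul_inv_rev, inv_inv, mul_inv_cancel_left, inv_mul_cancel_left, mul_inv_cancel, inv_mul_cancel, mul_one, one_mul, inv_one, C])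
  have k7 : o.lt (m * f⁻¹) (g * Q⁻¹) ↔ o.lt (1 * (m * f⁻¹)) (1 * (g * Q⁻¹)) := o.cv hδ (1) e25 (by simp only [mul_assoc, mul_inv_rev, inv_inv, mul_inv_cancel_left, inv_mul_cancel_left, mul_inv_cancel, inv_mul_cancel, mul_one, one_mul, inv_one, C]) (by simp only [mul_assoc, mul_inv_rev, inv_inv, mul_inv_cancel_left, inv_mul_cancel_left, mul_inv_cancel, inv_mul_cancel, mul_one, one_mul, inv_one, C])
  have k8 : o.lt (Q * f⁻¹) (g * m⁻¹) ↔ o.lt (1 * (f * Q⁻¹)⁻¹) (1 * (m * g⁻¹)⁻¹) := o.cv hδ (1) e30 (by simp only [mul_assoc, mul_inv_rev, inv_inv, mul_inv_cancel_left, inv_mul_cancel_left, mul_inv_cancel, inv_mul_cancel, mul_one, one_mul, inv_one, C]) (by simp only [mul_assoc, mul_inv_rev, inv_inv, mul_inv_cancel_left, inv_mul_cancel_left, mul_inv_cancel, inv_mul_cancel, mul_one, one_mul, inv_one, C])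
  have k9 : o.lt (Q * g⁻¹) (g * m⁻¹) ↔ o.lt (1 * (Q * g⁻¹)) (1 * (g * m⁻¹)) := o.cv hδ (1) e29 (by simp only [mul_assoc, mul_inv_rev, inv_inv, mul_inv_cancel_left, inv_mul_cancel_left, mul_inv_cancel, inv_mul_cancel, mul_one, one_mul, inv_one, C]) (by simp only [mul_assoc, mul_inv_rev, inv_inv, mul_inv_cancel_left, inv_mul_cancel_left, mul_inv_cancel, inv_mul_cancel, mul_one, one_mul, inv_one, C])
  have k10 : o.lt (Q * f⁻¹) (f * m⁻¹) ↔ o.lt (1 * (Q * f⁻¹)) (1 * (f * m⁻¹)) := o.cv hδ (1) e28 (by simp only [mul_assoc, mul_inv_rev, inv_inv, mul_inv_cancel_left, inv_mul_cancel_left, mul_inv_cancel, inv_mul_cancel, mul_one, one_mul, inv_one, C]) (by simp only [mul_assoc, mul_inv_rev, inv_inv, mul_inv_cancel_left, inv_mul_cancel_left, mul_inv_cancel, inv_mul_cancel, mul_one, one_mul, inv_one, C])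
  have k11 : o.lt (Q * f⁻¹) (Q * g⁻¹) ↔ o.lt (1 * (Q * f⁻¹)) (1 * (Q * g⁻¹)) := o.cv hδ (1) e31 (by simp only [mul_assoc, mul_inv_rev, inv_inv, mul_inv_cancel_left, inv_mul_cancel_left, mul_inv_cancel, inv_mul_cancel, mul_one, one_mul, inv_one, C]) (by simp only [mul_assoc, mul_inv_rev, inv_inv, mul_inv_cancel_left, inv_mul_cancel_left, mul_inv_cancel, inv_mul_cancel, mul_one, one_mul, inv_one, C])
  have k12 : o.lt (P * (m⁻¹ * (f * m⁻¹))) (P * Q⁻¹) ↔ o.lt ((P * f⁻¹) * (m * f⁻¹)) ((P * f⁻¹) * (f * Q⁻¹)) := o.cv hδ (m * (f⁻¹ * (m * (f⁻¹ * (m * f⁻¹))))) e10 (by simp only [mul_assoc, mul_inv_rev, inv_inv, mul_inv_cancel_left, inv_mul_cancel_left, mul_inv_cancel, inv_mul_cancel, mul_one, one_mul, inv_one, C]) (by simp only [mul_assoc, mul_inv_rev, inv_inv, mul_inv_cancel_left, inv_mul_cancel_left, mul_inv_cancel, inv_mul_cancel, mul_one, one_mul, inv_one, C])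
  have k13 : o.lt (P * (f⁻¹ * (m * g⁻¹))) (P * (f⁻¹ * (g * Q⁻¹))) ↔ o.lt ((P * f⁻¹) * (m * g⁻¹)) ((P * f⁻¹) * (g * Q⁻¹)) := o.cv hδ (1) e15 (by simp only [mul_assoc, mul_inv_rev, inv_inv, mul_inv_cancel_left, inv_mul_cancel_left, mul_inv_cancel, inv_mul_cancel, mul_one, one_mul, inv_one, C]) (by simp only [mul_assoc, mul_inv_rev, inv_inv, mul_inv_cancel_left, inv_mul_cancel_left, mul_inv_cancel, inv_mul_cancel, mul_one, one_mul, inv_one, C])
  have k14 : o.lt (P * (f⁻¹ * (m * g⁻¹))) (P * (m⁻¹ * (f * m⁻¹))) ↔ o.lt ((P * f⁻¹) * (m * g⁻¹)) ((P * f⁻¹) * (m * f⁻¹)) := o.cv hδ (1) e13 (by simp only [mul_assoc, mul_inv_rev, inv_inv, mul_inv_cancel_left, inv_mul_cancel_left, mul_inv_cancel, inv_mul_cancel, mul_one, one_mul, inv_one, C]) (by simp only [mul_assoc, mul_inv_rev, inv_inv, mul_inv_cancel_left, inv_mul_cancel_left, mul_inv_cancel, inv_mul_cancel, mul_one, one_mul, inv_one, C])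
  have k15 : o.lt (P) (P * (f⁻¹ * g)) ↔ o.lt ((P * f⁻¹) * f) ((P * f⁻¹) * g) := o.cv hδ (1) e0 (by simp only [mul_assoc, mul_inv_rev, inv_inv, mul_inv_cancel_left, inv_mul_cancel_left, mul_inv_cancel, inv_mul_cancel, mul_one, one_mul, inv_one, C]) (by simp only [mul_assoc, mul_inv_rev, inv_inv, mul_inv_cancel_left, inv_mul_cancel_left, mul_inv_cancel, inv_mul_cancel, mul_one, one_mul, inv_one, C])
  have k16 : o.lt (P * (f⁻¹ * (Q * g⁻¹))) (P * (Q⁻¹ * (f * Q⁻¹))) ↔ o.lt ((P * f⁻¹) * (Q * g⁻¹)) ((P * f⁻¹) * (Q * f⁻¹)) := o.cv hδ (1) e21 (by simp only [mul_assoc, mul_inv_rev, inv_inv, mul_inv_cancel_left, inv_mul_cancel_left, mul_inv_cancel, inv_mul_cancel, mul_one, one_mul, inv_one, C]) (by simp only [mul_assoc, mul_inv_rev, inv_inv, mul_inv_cancel_left, inv_mul_cancel_left, mul_inv_cancel, inv_mul_cancel, mul_one, one_mul, inv_one, C])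
  have k17 : o.lt (P * (f⁻¹ * (Q * g⁻¹))) (P * m⁻¹) ↔ o.lt ((P * f⁻¹) * (Q * g⁻¹)) ((P * f⁻¹) * (f * m⁻¹)) := o.cv hδ (1) e20 (by simp only [mul_assoc, mul_inv_rev, inv_inv, mul_inv_cancel_left, inv_mul_cancel_left, mul_inv_cancel, inv_mul_cancel, mul_one, one_mul, inv_one, C]) (by simp only [mul_assoc, mul_inv_rev, inv_inv, mul_inv_cancel_left, inv_mul_cancel_left, mul_inv_cancel, inv_mul_cancel, mul_one, one_mul, inv_one, C])
  have k18 : o.lt (P * (f⁻¹ * (m * g⁻¹))) (P * Q⁻¹) ↔ o.lt ((P * f⁻¹) * (g * m⁻¹)⁻¹) ((P * f⁻¹) * (Q * f⁻¹)⁻¹) := o.cv hδ (1) e14 (by simp only [mul_assoc, mul_inv_rev, inv_inv, mul_inv_cancel_left, inv_mul_cancel_left, mul_inv_cancel, inv_mul_cancel, mul_one, one_mul, inv_one, C]) (by simp only [mul_assoc, mul_inv_rev, inv_inv, mul_inv_cancel_left, inv_mul_cancel_left, mul_inv_cancel, inv_mul_cancel, mul_one, one_mul, inv_one, C])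
  have k19 : o.lt (P * (f⁻¹ * (g * m⁻¹))) (P * (f⁻¹ * (Q * g⁻¹))) ↔ o.lt ((P * f⁻¹) * (g * m⁻¹)) ((P * f⁻¹) * (Q * g⁻¹)) := o.cv hδ (1) e12 (by simp only [mul_assoc, mul_inv_rev, inv_inv, mul_inv_cancel_left, inv_mul_cancel_left, mul_inv_cancel, inv_mul_cancel, mul_one, one_mul, inv_one, C]) (by simp only [mul_assoc, mul_inv_rev, inv_inv, mul_inv_cancel_left, inv_mul_cancel_left, mul_inv_cancel, inv_mul_cancel, mul_one, one_mul, inv_one, C])
  have k20 : o.lt (P * m⁻¹) (P * (Q⁻¹ * (f * Q⁻¹))) ↔ o.lt ((P * f⁻¹) * (f * m⁻¹)) ((P * f⁻¹) * (Q * f⁻¹)) := o.cv hδ (1) e9 (by simp only [mul_assoc, mul_inv_rev, inv_inv, mul_inv_cancel_left, inv_mul_cancel_left, mul_inv_cancel, inv_mul_cancel, mul_one, one_mul, inv_one, C]) (by simp only [mul_assoc, mul_inv_rev, inv_inv, mul_inv_cancel_left, inv_mul_cancel_left, mul_inv_cancel, inv_mul_cancel, mul_one, one_mul, inv_one, C])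
  have k21 : o.lt (P * f⁻¹) (P * g⁻¹) ↔ o.lt (P * f⁻¹) (P * g⁻¹) := o.cv hδ (1) e7 (by simp only [mul_assoc, mul_inv_rev, inv_inv, mul_inv_cancel_left, inv_mul_cancel_left, mul_inv_cancel, inv_mul_cancel, mul_one, one_mul, inv_one, C]) (by simp only [mul_assoc, mul_inv_rev, inv_inv, mul_inv_cancel_left, inv_mul_cancel_left, mul_inv_cancel, inv_mul_cancel, mul_one, one_mul, inv_one, C])
  have k22 : o.lt (P) (P * (f⁻¹ * g)) ↔ o.lt (P * g⁻¹) (P * f⁻¹) := o.cv hδ (g⁻¹) e0 (by simp only [mul_assoc, mul_inv_rev, inv_inv, mul_inv_cancel_left, inv_mul_cancel_left, mul_inv_cancel, inv_mul_cancel, mul_one, one_mul, inv_one, C]) (by simp only [mul_assoc, mul_inv_rev, inv_inv, mul_inv_cancel_left, inv_mul_cancel_left, mul_inv_cancel, inv_mul_cancel, mul_one, one_mul, inv_one, C])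
  have k23 : o.lt (P * f⁻¹) (g * Q⁻¹) ↔ o.lt (P * f⁻¹) (g * Q⁻¹) := o.cv hδ (1) e19 (by simp only [mul_assoc, mul_inv_rev, inv_inv, mul_inv_cancel_left, inv_mul_cancel_left, mul_inv_cancel, inv_mul_cancel, mul_one, one_mul, inv_one, C]) (by simp only [mul_assoc, mul_inv_rev, inv_inv, mul_inv_cancel_left, inv_mul_cancel_left, mul_inv_cancel, inv_mul_cancel, mul_one, one_mul, inv_one, C])
  have k24 : o.lt (g * Q⁻¹) (P * g⁻¹) ↔ o.lt (g * Q⁻¹) (P * g⁻¹) := o.cv hδ (1) e6 (by simp only [mul_assoc, mul_inv_rev, inv_inv, mul_inv_cancel_left, inv_mul_cancel_left, mul_inv_cancel, inv_mul_cancel, mul_one, one_mul, inv_one, C]) (by simp only [mul_assoc, mul_inv_rev, inv_inv, mul_inv_cancel_left, inv_mul_cancel_left, mul_inv_cancel, inv_mul_cancel, mul_one, one_mul, inv_one, C])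
  have k25 : o.lt (P * f⁻¹) (m * f⁻¹) ↔ o.lt (P * f⁻¹) (m * f⁻¹) := o.cv hδ (1) e8 (by simp only [mul_assoc, mul_inv_rev, inv_inv, mul_inv_cancel_left, inv_mul_cancel_left, mul_inv_cancel, inv_mul_cancel, mul_one, one_mul, inv_one, C]) (by simp only [mul_assoc, mul_inv_rev, inv_inv, mul_inv_cancel_left, inv_mul_cancel_left, mul_inv_cancel, inv_mul_cancel, mul_one, one_mul, inv_one, C])
  have k26 : o.lt (m * g⁻¹) (P * g⁻¹) ↔ o.lt (m * f⁻¹) (P * f⁻¹) := o.cv hδ (g * f⁻¹) e1 (by simp only [mul_assoc, mul_inv_rev, inv_inv, mul_inv_cancel_left, inv_mul_cancel_left, mul_inv_cancel, inv_mul_cancel, mul_one, one_mul, inv_one, C]) (by simp only [mul_assoc, mul_inv_rev, inv_inv, mul_inv_cancel_left, inv_mul_cancel_left, mul_inv_cancel, inv_mul_cancel, mul_one, one_mul, inv_one, C])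
  have k27 : o.lt (P * f⁻¹) (m * g⁻¹) ↔ o.lt (P * f⁻¹) (m * g⁻¹) := o.cv hδ (1) e11 (by simp only [mul_assoc, mul_inv_rev, inv_inv, mul_inv_cancel_left, inv_mul_cancel_left, mul_inv_cancel, inv_mul_cancel, mul_one, one_mul, inv_one, C]) (by simp only [mul_assoc, mul_inv_rev, inv_inv, mul_inv_cancel_left, inv_mul_cancel_left, mul_inv_cancel, inv_mul_cancel, mul_one, one_mul, inv_one, C])
  have k28 : o.lt (m * f⁻¹) (m * g⁻¹) ↔ o.lt (m * f⁻¹) (m * g⁻¹) := o.cv hδ (1) e24 (by simp only [mul_assoc, mul_inv_rev, inv_inv, mul_inv_cancel_left, inv_mul_cancel_left, mul_inv_cancel, inv_mul_cancel, mul_one, one_mul, inv_one, C]) (by simp only [mul_assoc, mul_inv_rev, inv_inv, mul_inv_cancel_left, inv_mul_cancel_left, mul_inv_cancel, inv_mul_cancel, mul_one, one_mul, inv_one, C])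
  have k29 : o.lt (g * Q⁻¹) (P * f⁻¹) ↔ o.lt (g * Q⁻¹) (P * f⁻¹) := o.cv hδ (1) e3 (by simp only [mul_assoc, mul_inv_rev, inv_inv, mul_inv_cancel_left, inv_mul_cancel_left, mul_inv_cancel, inv_mul_cancel, mul_one, one_mul, inv_one, C]) (by simp only [mul_assoc, mul_inv_rev, inv_inv, mul_inv_cancel_left, inv_mul_cancel_left, mul_inv_cancel, inv_mul_cancel, mul_one, one_mul, inv_one, C])
  have k30 : o.lt (P * f⁻¹) (Q * m⁻¹) ↔ o.lt (P * f⁻¹) (Q * m⁻¹) := o.cv hδ (1) e23 (by simp only [mul_assoc, mul_inv_rev, inv_inv, mul_inv_cancel_left, inv_mul_cancel_left, mul_inv_cancel, inv_mul_cancel, mul_one, one_mul, inv_one, C]) (by simp only [mul_assoc, mul_inv_rev, inv_inv, mul_inv_cancel_left, inv_mul_cancel_left, mul_inv_cancel, inv_mul_cancel, mul_one, one_mul, inv_one, C])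
  have k31 : o.lt (Q * m⁻¹) (P * f⁻¹) ↔ o.lt (Q * m⁻¹) (P * f⁻¹) := o.cv hδ (1) e4 (by simp only [mul_assoc, mul_inv_rev, inv_inv, mul_inv_cancel_left, inv_mul_cancel_left, mul_inv_cancel, inv_mul_cancel, mul_one, one_mul, inv_one, C]) (by simp only [mul_assoc, mul_inv_rev, inv_inv, mul_inv_cancel_left, inv_mul_cancel_left, mul_inv_cancel, inv_mul_cancel, mul_one, one_mul, inv_one, C])
  have k32 : o.lt (m * f⁻¹) (g * Q⁻¹) ↔ o.lt (m * f⁻¹) (g * Q⁻¹) := o.cv hδ (1) e25 (by simp only [mul_assoc, mul_inv_rev, inv_inv, mul_inv_cancel_left, inv_mul_cancel_left, mul_inv_cancel, inv_mul_cancel, mul_one, one_mul, inv_one, C]) (by simp only [mul_assoc, mul_inv_rev, inv_inv, mul_inv_cancel_left, inv_mul_cancel_left, mul_inv_cancel, inv_mul_cancel, mul_one, one_mul, inv_one, C])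
  have k33 : o.lt (f * Q⁻¹) (m * f⁻¹) ↔ o.lt (f * Q⁻¹) (m * f⁻¹) := o.cv hδ (1) e26 (by simp only [mul_assoc, mul_inv_rev, inv_inv, mul_inv_cancel_left, inv_mul_cancel_left, mul_inv_cancel, inv_mul_cancel, mul_one, one_mul, inv_one, C]) (by simp only [mul_assoc, mul_inv_rev, inv_inv, mul_inv_cancel_left, inv_mul_cancel_left, mul_inv_cancel, inv_mul_cancel, mul_one, one_mul, inv_one, C])
  have k34 : o.lt (f * Q⁻¹) (P * f⁻¹) ↔ o.lt (f * Q⁻¹) (P * f⁻¹) := o.cv hδ (1) e2 (by simp only [mul_assoc, mul_inv_rev, inv_inv, mul_inv_cancel_left, inv_mul_cancel_left, mul_inv_cancel, inv_mul_cancel, mul_one, one_mul, inv_one, C]) (by simp only [mul_assoc, mul_inv_rev, inv_inv, mul_inv_cancel_left, inv_mul_cancel_left, mul_inv_cancel, inv_mul_cancel, mul_one, one_mul, inv_one, C])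
  have k35 : o.lt (g * Q⁻¹) (m * g⁻¹) ↔ o.lt (g * Q⁻¹) (m * g⁻¹) := o.cv hδ (1) e27 (by simp only [mul_assoc, mul_inv_rev, inv_inv, mul_inv_cancel_left, inv_mul_cancel_left, mul_inv_cancel, inv_mul_cancel, mul_one, one_mul, inv_one, C]) (by simp only [mul_assoc, mul_inv_rev, inv_inv, mul_inv_cancel_left, inv_mul_cancel_left, mul_inv_cancel, inv_mul_cancel, mul_one, one_mul, inv_one, C])
  have k36 : o.lt (P * f⁻¹) (m * f⁻¹) ↔ o.lt (P * g⁻¹) (m * g⁻¹) := o.cv hδ (f * g⁻¹) e8 (by simp only [mul_assoc, mul_inv_rev, inv_inv, mul_inv_cancel_left, inv_mul_cancel_left, mul_inv_cancel, inv_mul_cancel, mul_one, one_mul, inv_one, C]) (by simp only [mul_assoc, mul_inv_rev, inv_inv, mul_inv_cancel_left, inv_mul_cancel_left, mul_inv_cancel, inv_mul_cancel, mul_one, one_mul, inv_one, C])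
  have k37 : o.lt (Q * f⁻¹) (f * m⁻¹) ↔ o.lt (Q * m⁻¹) (m * f⁻¹) := o.cv hδ (f * m⁻¹) e28 (by simp only [mul_assoc, mul_inv_rev, inv_inv, mul_inv_cancel_left, inv_mul_cancel_left, mul_inv_cancel, inv_mul_cancel, mul_one, one_mul, inv_one, C]) (by simp only [mul_assoc, mul_inv_rev, inv_inv, mul_inv_cancel_left, inv_mul_cancel_left, mul_inv_cancel, inv_mul_cancel, mul_one, one_mul, inv_one, C])
  have k38 : o.lt (Q * g⁻¹) (g * m⁻¹) ↔ o.lt (Q * m⁻¹) (m * g⁻¹) := o.cv hδ (g * m⁻¹) e29 (by simp only [mul_assoc, mul_inv_rev, inv_inv, mul_inv_cancel_left, inv_mul_cancel_left, mul_inv_cancel, inv_mul_cancel, mul_one, one_mul, inv_one, C]) (by simp only [mul_assoc, mul_inv_rev, inv_inv, mul_inv_cancel_left, inv_mul_cancel_left, mul_inv_cancel, inv_mul_cancel, mul_one, one_mul, inv_one, C])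
  have k39 : o.lt (Q * f⁻¹) (g * m⁻¹) ↔ o.lt (Q * f⁻¹) (g * m⁻¹) := o.cv hδ (1) e30 (by simp only [mul_assoc, mul_inv_rev, inv_inv, mul_inv_cancel_left, inv_mul_cancel_left, mul_inv_cancel, inv_mul_cancel, mul_one, one_mul, inv_one, C]) (by simp only [mul_assoc, mul_inv_rev, inv_inv, mul_inv_cancel_left, inv_mul_cancel_left, mul_inv_cancel, inv_mul_cancel, mul_one, one_mul, inv_one, C])
  have k40 : o.lt (Q * f⁻¹) (Q * g⁻¹) ↔ o.lt (Q * f⁻¹) (Q * g⁻¹) := o.cv hδ (1) e31 (by simp only [mul_assoc, mul_inv_rev, inv_inv, mul_inv_cancel_left, inv_mul_cancel_left, mul_inv_cancel, inv_mul_cancel, mul_one, one_mul, inv_one, C]) (by simp only [mul_assoc, mul_inv_rev, inv_inv, mul_inv_cancel_left, inv_mul_cancel_left, mul_inv_cancel, inv_mul_cancel, mul_one, one_mul, inv_one, C])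
  have k41 : o.lt (Q * g⁻¹) (g * m⁻¹) ↔ o.lt (Q * g⁻¹) (g * m⁻¹) := o.cv hδ (1) e29 (by simp only [mul_assoc, mul_inv_rev, inv_inv, mul_inv_cancel_left, inv_mul_cancel_left, mul_inv_cancel, inv_mul_cancel, mul_one, one_mul, inv_one, C]) (by simp only [mul_assoc, mul_inv_rev, inv_inv, mul_inv_cancel_left, inv_mul_cancel_left, mul_inv_cancel, inv_mul_cancel, mul_one, one_mul, inv_one, C])
  have k42 : o.lt (P * m⁻¹) (P * (Q⁻¹ * (f * Q⁻¹))) ↔ o.lt (P * (f⁻¹ * (m * f⁻¹))) (P * (f⁻¹ * (Q * m⁻¹))) := o.cv hδ (m * (f⁻¹ * (m * f⁻¹))) e9 (by simp only [mul_assoc, mul_inv_rev, inv_inv, mul_inv_cancel_left, inv_mul_cancel_left, mul_inv_cancel, inv_mul_cancel, mul_one, one_mul, inv_one, C]) (by simp only [mul_assoc, mul_inv_rev, inv_inv, mul_inv_cancel_left, inv_mul_cancel_left, mul_inv_cancel, inv_mul_cancel, mul_one, one_mul, inv_one, C])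
  have k43 : o.lt (P * (f⁻¹ * (Q * m⁻¹))) (P * (m⁻¹ * (f * m⁻¹))) ↔ o.lt (P * (f⁻¹ * (Q * m⁻¹))) (P * (f⁻¹ * (m * f⁻¹))) := o.cv hδ (1) e16 (by simp only [mul_assoc, mul_inv_rev, inv_inv, mul_inv_cancel_left, inv_mul_cancel_left, mul_inv_cancel, inv_mul_cancel, mul_one, one_mul, inv_one, C]) (by simp only [mul_assoc, mul_inv_rev, inv_inv, mul_inv_cancel_left, inv_mul_cancel_left, mul_inv_cancel, inv_mul_cancel, mul_one, one_mul, inv_one, C])
  have k44 : o.lt (P * (f⁻¹ * (m * g⁻¹))) (P * (f⁻¹ * (g * Q⁻¹))) ↔ o.lt (P * (f⁻¹ * (m * g⁻¹))) (P * (f⁻¹ * (g * Q⁻¹))) := o.cv hδ (1) e15 (by simp only [mul_assoc, mul_inv_rev, inv_inv, mul_inv_cancel_left, inv_mul_cancel_left, mul_inv_cancel, inv_mul_cancel, mul_one, one_mul, inv_one, C]) (by simp only [mul_assoc, mul_inv_rev, inv_inv, mul_inv_cancel_left, inv_mul_cancel_left, mul_inv_cancel, inv_mul_cancel, mul_one, one_mul, inv_one, C])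
  have k45 : o.lt (P * (f⁻¹ * (g * Q⁻¹))) (P * (f⁻¹ * (m * g⁻¹))) ↔ o.lt (P * (f⁻¹ * (g * Q⁻¹))) (P * (f⁻¹ * (m * g⁻¹))) := o.cv hδ (1) e22 (by simp only [mul_assoc, mul_inv_rev, inv_inv, mul_inv_cancel_left, inv_mul_cancel_left, mul_inv_cancel, inv_mul_cancel, mul_one, one_mul, inv_one, C]) (by simp only [mul_assoc, mul_inv_rev, inv_inv, mul_inv_cancel_left, inv_mul_cancel_left, mul_inv_cancel, inv_mul_cancel, mul_one, one_mul, inv_one, C])
  have k46 : o.lt (P * Q⁻¹) (P * (m⁻¹ * (f * m⁻¹))) ↔ o.lt (P * Q⁻¹) (P * (f⁻¹ * (m * f⁻¹))) := o.cv hδ (1) e17 (by simp only [mul_assoc, mul_inv_rev, inv_inv, mul_inv_cancel_left, inv_mul_cancel_left, mul_inv_cancel, inv_mul_cancel, mul_one, one_mul, inv_one, C]) (by simp only [mul_assoc, mul_inv_rev, inv_inv, mul_inv_cancel_left, inv_mul_cancel_left, mul_inv_cancel, inv_mul_cancel, mul_one, one_mul, inv_one, C])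
  have k47 : o.lt (P * Q⁻¹) (P * (f⁻¹ * (m * g⁻¹))) ↔ o.lt (P * Q⁻¹) (P * (f⁻¹ * (m * g⁻¹))) := o.cv hδ (1) e18 (by simp only [mul_assoc, mul_inv_rev, inv_inv, mul_inv_cancel_left, inv_mul_cancel_left, mul_inv_cancel, inv_mul_cancel, mul_one, one_mul, inv_one, C]) (by simp only [mul_assoc, mul_inv_rev, inv_inv, mul_inv_cancel_left, inv_mul_cancel_left, mul_inv_cancel, inv_mul_cancel, mul_one, one_mul, inv_one, C])
  have k48 : o.lt (P * (f⁻¹ * (m * g⁻¹))) (P * (m⁻¹ * (f * m⁻¹))) ↔ o.lt (P * (f⁻¹ * (m * g⁻¹))) (P * (f⁻¹ * (m * f⁻¹))) := o.cv hδ (1) e13 (by simp only [mul_assoc, mul_inv_rev, inv_inv, mul_inv_cancel_left, inv_mul_cancel_left, mul_inv_cancel, inv_mul_cancel, mul_one, one_mul, inv_one, C]) (by simp only [mul_assoc, mul_inv_rev, inv_inv, mul_inv_cancel_left, inv_mul_cancel_left, mul_inv_cancel, inv_mul_cancel, mul_one, one_mul, inv_one, C])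
  have k49 : o.lt (P * (f⁻¹ * (m * g⁻¹))) (P * Q⁻¹) ↔ o.lt (P * (f⁻¹ * (m * g⁻¹))) (P * Q⁻¹) := o.cv hδ (1) e14 (by simp only [mul_assoc, mul_inv_rev, inv_inv, mul_inv_cancel_left, inv_mul_cancel_left, mul_inv_cancel, inv_mul_cancel, mul_one, one_mul, inv_one, C]) (by simp only [mul_assoc, mul_inv_rev, inv_inv, mul_inv_cancel_left, inv_mul_cancel_left, mul_inv_cancel, inv_mul_cancel, mul_one, one_mul, inv_one, C])
  have k50 : o.lt (m * g⁻¹) (P * g⁻¹) ↔ o.lt (1) (P * m⁻¹) := o.cv hδ (g * m⁻¹) e1 (by simp only [mul_assoc, mul_inv_rev, inv_inv, mul_inv_cancel_left, inv_mul_cancel_left, mul_inv_cancel, inv_mul_cancel, mul_one, one_mul, inv_one, C]) (by simp only [mul_assoc, mul_inv_rev, inv_inv, mul_inv_cancel_left, inv_mul_cancel_left, mul_inv_cancel, inv_mul_cancel, mul_one, one_mul, inv_one, C])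
  have k51 : o.lt (f * Q⁻¹) (P * f⁻¹) ↔ o.lt (1) (P * (f⁻¹ * (Q * f⁻¹))) := o.cv hδ (Q * f⁻¹) e2 (by simp only [mul_assoc, mul_inv_rev, inv_inv, mul_inv_cancel_left, inv_mul_cancel_left, mul_inv_cancel, inv_mul_cancel, mul_one, one_mul, inv_one, C]) (by simp only [mul_assoc, mul_inv_rev, inv_inv, mul_inv_cancel_left, inv_mul_cancel_left, mul_inv_cancel, inv_mul_cancel, mul_one, one_mul, inv_one, C])
  have k52 : o.lt (P * (f⁻¹ * (Q * m⁻¹))) (P * (m⁻¹ * (f * m⁻¹))) ↔ o.lt (P * (f⁻¹ * (Q * f⁻¹))) (P * m⁻¹) := o.cv hδ (m * f⁻¹) e16 (by simp only [mul_assoc, mul_inv_rev, inv_inv, mul_inv_cancel_left, inv_mul_cancel_left, mul_inv_cancel, inv_mul_cancel, mul_one, one_mul, inv_one, C]) (by simp only [mul_assoc, mul_inv_rev, inv_inv, mul_inv_cancel_left, inv_mul_cancel_left, mul_inv_cancel, inv_mul_cancel, mul_one, one_mul, inv_one, C])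
  have k53 : o.lt (g * Q⁻¹) (P * f⁻¹) ↔ o.lt (1) (P * (f⁻¹ * (Q * g⁻¹))) := o.cv hδ (Q * g⁻¹) e3 (by simp only [mul_assoc, mul_inv_rev, inv_inv, mul_inv_cancel_left, inv_mul_cancel_left, mul_inv_cancel, inv_mul_cancel, mul_one, one_mul, inv_one, C]) (by simp only [mul_assoc, mul_inv_rev, inv_inv, mul_inv_cancel_left, inv_mul_cancel_left, mul_inv_cancel, inv_mul_cancel, mul_one, one_mul, inv_one, C])
  have k54 : o.lt (P * (f⁻¹ * (Q * g⁻¹))) (P * m⁻¹) ↔ o.lt (P * (f⁻¹ * (Q * g⁻¹))) (P * m⁻¹) := o.cv hδ (1) e20 (by simp only [mul_assoc, mul_inv_rev, inv_inv, mul_inv_cancel_left, inv_mul_cancel_left, mul_inv_cancel, inv_mul_cancel, mul_one, one_mul, inv_one, C]) (by simp only [mul_assoc, mul_inv_rev, inv_inv, mul_inv_cancel_left, inv_mul_cancel_left, mul_inv_cancel, inv_mul_cancel, mul_one, one_mul, inv_one, C])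
  have k55 : o.lt (Q * m⁻¹) (P * f⁻¹) ↔ o.lt (1) (P * (f⁻¹ * (m * Q⁻¹))) := o.cv hδ (m * Q⁻¹) e4 (by simp only [mul_assoc, mul_inv_rev, inv_inv, mul_inv_cancel_left, inv_mul_cancel_left, mul_inv_cancel, inv_mul_cancel, mul_one, one_mul, inv_one, C]) (by simp only [mul_assoc, mul_inv_rev, inv_inv, mul_inv_cancel_left, inv_mul_cancel_left, mul_inv_cancel, inv_mul_cancel, mul_one, one_mul, inv_one, C])
  have k56 : o.lt (P * Q⁻¹) (P * (m⁻¹ * (f * m⁻¹))) ↔ o.lt (P * (f⁻¹ * (Q * f⁻¹))) (P * (f⁻¹ * (m * Q⁻¹))) := o.cv hδ (Q * (f⁻¹ * (Q * f⁻¹))) e17 (by simp only [mul_assoc, mul_inv_rev, inv_inv, mul_inv_cancel_left, inv_mul_cancel_left, mul_inv_cancel, inv_mul_cancel, mul_one, one_mul, inv_one, C]) (by simp only [mul_assoc, mul_inv_rev, inv_inv, mul_inv_cancel_left, inv_mul_cancel_left, mul_inv_cancel, inv_mul_cancel, mul_one, one_mul, inv_one, C])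
  have k57 : o.lt (P * (f⁻¹ * (g * Q⁻¹))) (P * (f⁻¹ * (m * g⁻¹))) ↔ o.lt (P * (f⁻¹ * (Q * g⁻¹))) (P * (f⁻¹ * (m * Q⁻¹))) := o.cv hδ (Q * (g⁻¹ * (Q * g⁻¹))) e22 (by simp only [mul_assoc, mul_inv_rev, inv_inv, mul_inv_cancel_left, inv_mul_cancel_left, mul_inv_cancel, inv_mul_cancel, mul_one, one_mul, inv_one, C]) (by simp only [mul_assoc, mul_inv_rev, inv_inv, mul_inv_cancel_left, inv_mul_cancel_left, mul_inv_cancel, inv_mul_cancel, mul_one, one_mul, inv_one, C])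
  have k58 : o.lt (P * (f⁻¹ * (g * m⁻¹))) (P * (f⁻¹ * (Q * g⁻¹))) ↔ o.lt (P * (f⁻¹ * (g * m⁻¹))) (P * (f⁻¹ * (Q * g⁻¹))) := o.cv hδ (1) e12 (by simp only [mul_assoc, mul_inv_rev, inv_inv, mul_inv_cancel_left, inv_mul_cancel_left, mul_inv_cancel, inv_mul_cancel, mul_one, one_mul, inv_one, C]) (by simp only [mul_assoc, mul_inv_rev, inv_inv, mul_inv_cancel_left, inv_mul_cancel_left, mul_inv_cancel, inv_mul_cancel, mul_one, one_mul, inv_one, C])
  have k59 : o.lt (P * f⁻¹) (m * g⁻¹) ↔ o.lt (P * (f⁻¹ * (g * m⁻¹))) (1) := o.cv hδ (g * m⁻¹) e11 (by simp only [mul_assoc, mul_inv_rev, inv_inv, mul_inv_cancel_left, inv_mul_cancel_left, mul_inv_cancel, inv_mul_cancel, mul_one, one_mul, inv_one, C]) (by simp only [mul_assoc, mul_inv_rev, inv_inv, mul_inv_cancel_left, inv_mul_cancel_left, mul_inv_cancel, inv_mul_cancel, mul_one, one_mul, inv_one, C])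
  have k60 : o.lt (P * (m⁻¹ * (f * m⁻¹))) (P * Q⁻¹) ↔ o.lt (P * (f⁻¹ * (m * Q⁻¹))) (P * (f⁻¹ * (Q * f⁻¹))) := o.cv hδ (m * (f⁻¹ * (m * (f⁻¹ * (m * Q⁻¹))))) e10 (by simp only [mul_assoc, mul_inv_rev, inv_inv, mul_inv_cancel_left, inv_mul_cancel_left, mul_inv_cancel, inv_mul_cancel, mul_one, one_mul, inv_one, C]) (by simp only [mul_assoc, mul_inv_rev, inv_inv, mul_inv_cancel_left, inv_mul_cancel_left, mul_inv_cancel, inv_mul_cancel, mul_one, one_mul, inv_one, C])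
  have k61 : o.lt (P * f⁻¹) (Q * m⁻¹) ↔ o.lt (P * (f⁻¹ * (m * Q⁻¹))) (1) := o.cv hδ (m * Q⁻¹) e23 (by simp only [mul_assoc, mul_inv_rev, inv_inv, mul_inv_cancel_left, inv_mul_cancel_left, mul_inv_cancel, inv_mul_cancel, mul_one, one_mul, inv_one, C]) (by simp only [mul_assoc, mul_inv_rev, inv_inv, mul_inv_cancel_left, inv_mul_cancel_left, mul_inv_cancel, inv_mul_cancel, mul_one, one_mul, inv_one, C])
  have k62 : o.lt (g * m⁻¹) (f * m⁻¹) ↔ o.lt (g) (f) := o.cv hδ (m) e5 (by simp only [mul_assoc, mul_inv_rev, inv_inv, mul_inv_cancel_left, inv_mul_cancel_left, mul_inv_cancel, inv_mul_cancel, mul_one, one_mul, inv_one, C]) (by simp only [mul_assoc, mul_inv_rev, inv_inv, mul_inv_cancel_left, inv_mul_cancel_left, mul_inv_cancel, inv_mul_cancel, mul_one, one_mul, inv_one, C])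
  exact ser_EBB_0_prop
    (fun b0 b1 b2 => N0.rd.r1 1 (fun h => b0 (k0.2 h)) (k1.1 b1) (fun h => b2 (k2.2 h)))
    (fun b0 b1 b2 b3 => N1.i.r0 1 (fun h => b0 (k3.2 h)) (fun h => b1 (k4.2 h)) (k5.1 b2) (fun h => b3 (k6.2 h)))
    (fun b0 b1 b2 b3 => N1.i.r1 1 (fun h => b0 (k5.2 h)) (k7.1 b1) (fun h => b2 (k8.2 h)) (fun h => b3 (k6.2 h)))
    (fun b0 b1 b2 b3 => N1.rd.r0 1 (fun h => b0 (k9.2 h)) (fun h => b1 (k10.2 h)) (k11.1 b2) (fun h => b3 (k6.2 h)))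
    (fun b0 b1 b2 b3 => N1.d.r0 (P * f⁻¹) (fun h => b0 (k12.2 h)) (fun h => b1 (k13.2 h)) (k14.1 b2) (fun h => b3 (k15.2 h)))
    (fun b0 b1 b2 b3 => N1.r.r1 (P * f⁻¹) (fun h => b0 (k16.2 h)) (k17.1 b1) (fun h => b2 (k18.2 h)) (fun h => b3 (k15.2 h)))
    (fun b0 b1 b2 b3 => N1.r.r0 (P * f⁻¹) (fun h => b0 (k19.2 h)) (fun h => b1 (k20.2 h)) (k16.1 b2) (fun h => b3 (k15.2 h)))
    (fun b0 b1 => o.asym (k21.1 b0) (k22.1 b1))
    (fun b0 b1 b2 => o.tri (k21.1 b0) (fun h => b1 (k23.2 h)) (fun h => b2 (k24.2 h)))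
    (fun b0 b1 => o.asym (k25.1 b0) (k26.1 b1))
    (fun b0 b1 b2 => o.tri (k27.1 b0) (fun h => b1 (k25.2 h)) (fun h => b2 (k28.2 h)))
    (fun b0 b1 => o.asym (k23.1 b0) (k29.1 b1))
    (fun b0 b1 => o.asym (k30.1 b0) (k31.1 b1))
    (fun b0 b1 b2 => o.tri (k26.1 b0) (fun h => b1 (k32.2 h)) (fun h => b2 (k29.2 h)))
    (fun b0 b1 b2 => o.tri (k33.1 b0) (fun h => b1 (k34.2 h)) (fun h => b2 (k25.2 h)))
    (fun b0 b1 b2 => o.tri (k35.1 b0) (fun h => b1 (k24.2 h)) (fun h => b2 (k36.2 h)))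
    (fun b0 b1 b2 => o.tri (k37.1 b0) (fun h => b1 (k31.2 h)) (fun h => b2 (k25.2 h)))
    (fun b0 b1 b2 => o.tri (k38.1 b0) (fun h => b1 (k31.2 h)) (fun h => b2 (k27.2 h)))
    (fun b0 b1 b2 => o.tri (k39.1 b0) (fun h => b1 (k40.2 h)) (fun h => b2 (k41.2 h)))
    (fun b0 b1 => o.asym (k42.1 b0) (k43.1 b1))
    (fun b0 b1 => o.asym (k44.1 b0) (k45.1 b1))
    (fun b0 b1 b2 => o.tri (k46.1 b0) (fun h => b1 (k47.2 h)) (fun h => b2 (k48.2 h)))
    (fun b0 b1 => o.asym (k47.1 b0) (k49.1 b1))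
    (fun b0 b1 b2 => o.tri (k50.1 b0) (fun h => b1 (k51.2 h)) (fun h => b2 (k52.2 h)))
    (fun b0 b1 b2 => o.tri (k50.1 b0) (fun h => b1 (k53.2 h)) (fun h => b2 (k54.2 h)))
    (fun b0 b1 b2 => o.tri (k55.1 b0) (fun h => b1 (k51.2 h)) (fun h => b2 (k56.2 h)))
    (fun b0 b1 b2 => o.tri (k55.1 b0) (fun h => b1 (k53.2 h)) (fun h => b2 (k57.2 h)))
    (fun b0 b1 b2 => o.tri (k58.1 b0) (fun h => b1 (k59.2 h)) (fun h => b2 (k53.2 h)))
    (fun b0 b1 b2 => o.tri (k60.1 b0) (fun h => b1 (k61.2 h)) (fun h => b2 (k51.2 h)))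
    (fun h => g0 (k34.1 h))
    (fun h => g1 (k24.1 h))
    (k21.2 g2)
    (fun h => g3 (k62.1 h))

theorem ser_EBB_1_prop {A1 A2 A3 A4 A5 A6 A7 A8 A9 A10 A11 A12 A13 A14 A15 A16 A17 A18 A19 A20 A21 A22 A23 A24 A25 A26 A27 A28 A29 A30 A31 A32 A33 A34 A35 A36 A37 A38 A39 A40 : Prop}
    (c0 : A9 → ¬ A22 → ¬ A37 → False)
    (c1 : ¬ A4 → A3 → ¬ A22 → False)
    (c2 : ¬ A9 → A1 → ¬ A14 → False)
    (c3 : ¬ A26 → ¬ A21 → A14 → False)
    (c4 : ¬ A16 → ¬ A11 → A3 → ¬ A22 → False)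
    (c5 : ¬ A3 → A25 → ¬ A15 → ¬ A22 → False)
    (c6 : ¬ A40 → A38 → ¬ A10 → ¬ A22 → False)
    (c7 : ¬ A12 → ¬ A36 → A40 → ¬ A22 → False)
    (c8 : A2 → ¬ A3 → ¬ A5 → False)
    (c9 : ¬ A18 → ¬ A19 → A6 → ¬ A3 → False)
    (c10 : ¬ A6 → A8 → ¬ A17 → ¬ A3 → False)
    (c11 : A9 → A4 → False)
    (c12 : A27 → A32 → False)
    (c13 : A27 → ¬ A26 → ¬ A28 → False)
    (c14 : A27 → ¬ A9 → ¬ A25 → False)
    (c15 : A28 → A33 → False)
    (c16 : A24 → ¬ A3 → ¬ A17 → False)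
    (c17 : A29 → A36 → False)
    (c18 : A17 → A10 → False)
    (c19 : A20 → A12 → False)
    (c20 : A31 → ¬ A30 → ¬ A26 → False)
    (c21 : A16 → ¬ A14 → ¬ A23 → False)
    (c22 : A10 → ¬ A31 → ¬ A9 → False)
    (c23 : A23 → ¬ A32 → ¬ A9 → False)
    (c24 : A11 → ¬ A33 → ¬ A9 → False)
    (c25 : A35 → ¬ A34 → ¬ A26 → False)
    (c26 : A37 → ¬ A14 → ¬ A21 → False)
    (c27 : A37 → ¬ A29 → ¬ A39 → False)
    (c28 : A21 → ¬ A22 → ¬ A37 → False)
    (c29 : A21 → ¬ A20 → ¬ A35 → False)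
    (c30 : A20 → ¬ A22 → ¬ A38 → False)
    (c31 : A34 → ¬ A39 → ¬ A22 → False)
    (c32 : A15 → ¬ A39 → ¬ A13 → False)
    (c33 : A15 → ¬ A40 → ¬ A12 → False)
    (c34 : A30 → ¬ A40 → ¬ A33 → False)
    (c35 : A19 → ¬ A24 → ¬ A15 → False)
    (c36 : A13 → ¬ A9 → ¬ A2 → False)
    (c37 : A7 → ¬ A8 → ¬ A3 → False)
    (c38 : A5 → ¬ A1 → ¬ A9 → False)
    (c39 : A18 → ¬ A17 → ¬ A12 → False)
    (c40 : A20 → ¬ A7 → ¬ A17 → False)
    (u0 : ¬ A26)
    (u1 : A27)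
    (u2 : ¬ A39)
    (u3 : ¬ A22)
    : False := by
  have q1 : ¬ A32 := fun h => c12 u1 h
  have q2 : A28 := Classical.byContradiction fun h => c13 u1 u0 h
  have q3 : ¬ A33 := fun h => c15 q2 h
  have q4 : ¬ A34 := fun h => c31 h u2 u3
  have q5 : ¬ A35 := fun h => c25 h q4 u0
  rcases Classical.em A9 with q6 | q6
  · have q7 : A37 := Classical.byContradiction fun h => c0 q6 u3 h
    have q8 : ¬ A4 := fun h => c11 q6 h
    have q9 : ¬ A3 := fun h => c1 q8 h u3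
    have q10 : A29 := Classical.byContradiction fun h => c27 q7 h u2
    have q11 : ¬ A36 := fun h => c17 q10 h
    rcases Classical.em A20 with q12 | q12
    · have q13 : ¬ A12 := fun h => c19 q12 h
      have q14 : ¬ A40 := fun h => c7 q13 q11 h u3
      have q15 : A38 := Classical.byContradiction fun h => c30 q12 u3 h
      have q16 : A10 := Classical.byContradiction fun h => c6 q14 q15 h u3
      have q17 : ¬ A17 := fun h => c18 h q16
      have q18 : ¬ A24 := fun h => c16 h q9 q17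
      have q19 : ¬ A15 := fun h => c33 h q14 q13
      have q20 : ¬ A25 := fun h => c5 q9 h q19 u3
      have q21 : ¬ A30 := fun h => c34 h q14 q3
      have q22 : ¬ A31 := fun h => c20 h q21 u0
      have q23 : ¬ A19 := fun h => c35 h q18 q19
      have q24 : ¬ A18 := fun h => c39 h q17 q13
      have q25 : ¬ A6 := fun h => c9 q24 q23 h q9
      have q26 : ¬ A8 := fun h => c10 q25 h q17 q9
      have q27 : ¬ A7 := fun h => c37 h q26 q9
      exact c40 q12 q27 q17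
    · have q28 : ¬ A21 := fun h => c29 h q12 q5
      have q29 : ¬ A14 := fun h => c3 u0 q28 h
      exact c26 q7 q29 q28
  · have q30 : A25 := Classical.byContradiction fun h => c14 u1 q6 h
    have q31 : ¬ A23 := fun h => c23 h q1 q6
    have q32 : ¬ A11 := fun h => c24 h q3 q6
    rcases Classical.em A3 with q33 | q33
    · have q34 : A4 := Classical.byContradiction fun h => c1 h q33 u3
      have q35 : A16 := Classical.byContradiction fun h => c4 h q32 q33 u3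
      have q36 : A14 := Classical.byContradiction fun h => c21 q35 h q31
      have q37 : A21 := Classical.byContradiction fun h => c3 u0 h q36
      have q38 : A37 := Classical.byContradiction fun h => c28 q37 u3 h
      have q39 : A29 := Classical.byContradiction fun h => c27 q38 h u2
      have q40 : ¬ A36 := fun h => c17 q39 h
      have q41 : A20 := Classical.byContradiction fun h => c29 q37 h q5
      have q42 : ¬ A12 := fun h => c19 q41 h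
      have q43 : ¬ A40 := fun h => c7 q42 q40 h u3
      have q44 : A38 := Classical.byContradiction fun h => c30 q41 u3 h
      have q45 : A10 := Classical.byContradiction fun h => c6 q43 q44 h u3
      have q46 : ¬ A17 := fun h => c18 h q45
      have q47 : A31 := Classical.byContradiction fun h => c22 q45 h q6
      have q48 : A30 := Classical.byContradiction fun h => c20 q47 h u0
      exact c34 q48 q43 q3
    · have q49 : A15 := Classical.byContradiction fun h => c5 q33 q30 h u3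
      have q50 : A13 := Classical.byContradiction fun h => c32 q49 u2 h
      have q51 : A2 := Classical.byContradiction fun h => c36 q50 q6 h
      have q52 : A5 := Classical.byContradiction fun h => c8 q51 q33 h
      have q53 : A1 := Classical.byContradiction fun h => c38 q52 h q6
      have q54 : A14 := Classical.byContradiction fun h => c2 q6 q53 h
      have q55 : A21 := Classical.byContradiction fun h => c3 u0 h q54
      have q56 : A37 := Classical.byContradiction fun h => c28 q55 u3 h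
      have q57 : A29 := Classical.byContradiction fun h => c27 q56 h u2
      have q58 : ¬ A36 := fun h => c17 q57 h
      have q59 : A20 := Classical.byContradiction fun h => c29 q55 h q5
      have q60 : ¬ A12 := fun h => c19 q59 h
      have q61 : ¬ A40 := fun h => c7 q60 q58 h u3
      exact c33 q49 q61 q60

theorem ser_EBB_1 {G : Type*} [Group G] {δ : G → ZMod 3} (hδ : ∀ u v, δ (u * v) = δ u + δ v) (o : Pre δ)
    {P m Q f g : G} {e : ZMod 3} (h3 : 3 * e = 0)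
    (D : δ P = e ∧ δ m = e ∧ δ Q = -e ∧ δ f = 0 ∧ δ g = 0)
    (C : Cube P f ∧ Cube P g ∧ Cube m f ∧ Cube m g ∧ Cube Q f ∧ Cube Q g)
    (N0 : RE o P m f g)
    (N1 : RB o m Q f g)
    (g0 : ¬ o.lt (P * f⁻¹) (P * g⁻¹)) (g1 : o.lt (P * f⁻¹) (g * Q⁻¹)) (g2 : ¬ o.lt ((f * Q⁻¹)⁻¹) ((P * g⁻¹)⁻¹)) (g3 : ¬ o.lt (g) (f)) : False := by
  simp only [Cube] at C
  have e0 : δ (m * g⁻¹) = δ (m * f⁻¹) := by simp only [hδ, δinv hδ, δone hδ, D] <;> linear_combination (0) * h3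
  have e1 : δ (m * (g⁻¹ * (P * f⁻¹))) = δ (g * (m⁻¹ * (g * f⁻¹))) := by simp only [hδ, δinv hδ, δone hδ, D] <;> linear_combination (1) * h3
  have e2 : δ (m * f⁻¹) = δ (m * g⁻¹) := by simp only [hδ, δinv hδ, δone hδ, D] <;> linear_combination (0) * h3
  have e3 : δ (m * f⁻¹) = δ (P * f⁻¹) := by simp only [hδ, δinv hδ, δone hδ, D] <;> linear_combination (0) * h3
  have e4 : δ (m * (g⁻¹ * (f * m⁻¹))) = δ (m * P⁻¹) := by simp only [hδ, δinv hδ, δone hδ, D] <;> linear_combination (0) * h3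
  have e5 : δ (g * (m⁻¹ * (g * f⁻¹))) = δ (g * m⁻¹) := by simp only [hδ, δinv hδ, δone hδ, D] <;> linear_combination (0) * h3
  have e6 : δ (g * (m⁻¹ * (g * f⁻¹))) = δ (m * (g⁻¹ * (f * Q⁻¹))) := by simp only [hδ, δinv hδ, δone hδ, D] <;> linear_combination (-1) * h3
  have e7 : δ (g * (m⁻¹ * (g * f⁻¹))) = δ (m * Q⁻¹) := by simp only [hδ, δinv hδ, δone hδ, D] <;> linear_combination (-1) * h3
  have e8 : δ (P * f⁻¹) = δ (m * f⁻¹) := by simp only [hδ, δinv hδ, δone hδ, D] <;> linear_combination (0) * h3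
  have e9 : δ (f * Q⁻¹) = δ (m * g⁻¹) := by simp only [hδ, δinv hδ, δone hδ, D] <;> linear_combination (0) * h3
  have e10 : δ (g * Q⁻¹) = δ (m * g⁻¹) := by simp only [hδ, δinv hδ, δone hδ, D] <;> linear_combination (0) * h3
  have e11 : δ (Q * g⁻¹) = δ (g * m⁻¹) := by simp only [hδ, δinv hδ, δone hδ, D] <;> linear_combination (0) * h3
  have e12 : δ (g * P⁻¹) = δ (g * m⁻¹) := by simp only [hδ, δinv hδ, δone hδ, D] <;> linear_combination (0) * h3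
  have e13 : δ (f * P⁻¹) = δ (g * P⁻¹) := by simp only [hδ, δinv hδ, δone hδ, D] <;> linear_combination (0) * h3
  have e14 : δ (Q * f⁻¹) = δ (g * m⁻¹) := by simp only [hδ, δinv hδ, δone hδ, D] <;> linear_combination (0) * h3
  have e15 : δ (f * Q⁻¹) = δ (m * f⁻¹) := by simp only [hδ, δinv hδ, δone hδ, D] <;> linear_combination (0) * h3
  have e16 : δ (m * (g⁻¹ * (Q * f⁻¹))) = δ (1) := by simp only [hδ, δinv hδ, δone hδ, D] <;> linear_combination (0) * h3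
  have e17 : δ (m * (g⁻¹ * (f * Q⁻¹))) = δ (g * (m⁻¹ * (g * f⁻¹))) := by simp only [hδ, δinv hδ, δone hδ, D] <;> linear_combination (1) * h3
  have e18 : δ (m * Q⁻¹) = δ (g * m⁻¹) := by simp only [hδ, δinv hδ, δone hδ, D] <;> linear_combination (1) * h3
  have e19 : δ (m * g⁻¹) = δ (Q * m⁻¹) := by simp only [hδ, δinv hδ, δone hδ, D] <;> linear_combination (1) * h3
  have e20 : δ (g * m⁻¹) = δ (g * P⁻¹) := by simp only [hδ, δinv hδ, δone hδ, D] <;> linear_combination (0) * h3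
  have e21 : δ (g * P⁻¹) = δ (f * P⁻¹) := by simp only [hδ, δinv hδ, δone hδ, D] <;> linear_combination (0) * h3
  have e22 : δ (g * Q⁻¹) = δ (m * f⁻¹) := by simp only [hδ, δinv hδ, δone hδ, D] <;> linear_combination (0) * h3
  have e23 : δ (m * f⁻¹) = δ (f * Q⁻¹) := by simp only [hδ, δinv hδ, δone hδ, D] <;> linear_combination (0) * h3
  have e24 : δ (m * f⁻¹) = δ (g * Q⁻¹) := by simp only [hδ, δinv hδ, δone hδ, D] <;> linear_combination (0) * h3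
  have e25 : δ (P * f⁻¹) = δ (P * g⁻¹) := by simp only [hδ, δinv hδ, δone hδ, D] <;> linear_combination (0) * h3
  have e26 : δ (P * f⁻¹) = δ (g * Q⁻¹) := by simp only [hδ, δinv hδ, δone hδ, D] <;> linear_combination (0) * h3
  have e27 : δ (P * g⁻¹) = δ (g * Q⁻¹) := by simp only [hδ, δinv hδ, δone hδ, D] <;> linear_combination (0) * h3
  have e28 : δ (m * f⁻¹) = δ (Q * m⁻¹) := by simp only [hδ, δinv hδ, δone hδ, D] <;> linear_combination (1) * h3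
  have e29 : δ (f * Q⁻¹) = δ (P * f⁻¹) := by simp only [hδ, δinv hδ, δone hδ, D] <;> linear_combination (0) * h3
  have e30 : δ (f * Q⁻¹) = δ (P * g⁻¹) := by simp only [hδ, δinv hδ, δone hδ, D] <;> linear_combination (0) * h3
  have e31 : δ (g * Q⁻¹) = δ (P * f⁻¹) := by simp only [hδ, δinv hδ, δone hδ, D] <;> linear_combination (0) * h3
  have e32 : δ (g * Q⁻¹) = δ (P * g⁻¹) := by simp only [hδ, δinv hδ, δone hδ, D] <;> linear_combination (0) * h3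
  have e33 : δ (Q * P⁻¹) = δ (P * f⁻¹) := by simp only [hδ, δinv hδ, δone hδ, D] <;> linear_combination (-1) * h3
  have e34 : δ (Q * P⁻¹) = δ (P * g⁻¹) := by simp only [hδ, δinv hδ, δone hδ, D] <;> linear_combination (-1) * h3
  have e35 : δ (Q * f⁻¹) = δ (f * m⁻¹) := by simp only [hδ, δinv hδ, δone hδ, D] <;> linear_combination (0) * h3
  have e36 : δ (f * m⁻¹) = δ (g * P⁻¹) := by simp only [hδ, δinv hδ, δone hδ, D] <;> linear_combination (0) * h3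
  have e37 : δ (f * m⁻¹) = δ (Q * g⁻¹) := by simp only [hδ, δinv hδ, δone hδ, D] <;> linear_combination (0) * h3
  have e38 : δ (Q * f⁻¹) = δ (g * P⁻¹) := by simp only [hδ, δinv hδ, δone hδ, D] <;> linear_combination (0) * h3
  have e39 : δ (Q * f⁻¹) = δ (Q * g⁻¹) := by simp only [hδ, δinv hδ, δone hδ, D] <;> linear_combination (0) * h3
  have k0 : o.lt (P * f⁻¹) (m * f⁻¹) ↔ o.lt (1 * (P * f⁻¹)) (1 * (m * f⁻¹)) := o.cv hδ (1) e8 (by simp only [mul_assoc, mul_inv_rev, inv_inv, mul_inv_cancel_left, inv_mul_cancel_left, mul_inv_cancel, inv_mul_cancel, mul_one, one_mul, inv_one, C]) (by simp only [mul_assoc, mul_inv_rev, inv_inv, mul_inv_cancel_left, inv_mul_cancel_left, mul_inv_cancel, inv_mul_cancel, mul_one, one_mul, inv_one, C])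
  have k1 : o.lt (g * P⁻¹) (f * P⁻¹) ↔ o.lt (1 * (P * g⁻¹)⁻¹) (1 * (P * f⁻¹)⁻¹) := o.cv hδ (1) e21 (by simp only [mul_assoc, mul_inv_rev, inv_inv, mul_inv_cancel_left, inv_mul_cancel_left, mul_inv_cancel, inv_mul_cancel, mul_one, one_mul, inv_one, C]) (by simp only [mul_assoc, mul_inv_rev, inv_inv, mul_inv_cancel_left, inv_mul_cancel_left, mul_inv_cancel, inv_mul_cancel, mul_one, one_mul, inv_one, C])
  have k2 : o.lt (f * m⁻¹) (g * P⁻¹) ↔ o.lt (1 * (m * f⁻¹)⁻¹) (1 * (P * g⁻¹)⁻¹) := o.cv hδ (1) e36 (by simp only [mul_assoc, mul_inv_rev, inv_inv, mul_inv_cancel_left, inv_mul_cancel_left, mul_inv_cancel, inv_mul_cancel, mul_one, one_mul, inv_one, C]) (by simp only [mul_assoc, mul_inv_rev, inv_inv, mul_inv_cancel_left, inv_mul_cancel_left, mul_inv_cancel, inv_mul_cancel, mul_one, one_mul, inv_one, C])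
  have k3 : o.lt (m * f⁻¹) (P * f⁻¹) ↔ o.lt (1 * (m * f⁻¹)) (1 * (P * f⁻¹)) := o.cv hδ (1) e3 (by simp only [mul_assoc, mul_inv_rev, inv_inv, mul_inv_cancel_left, inv_mul_cancel_left, mul_inv_cancel, inv_mul_cancel, mul_one, one_mul, inv_one, C]) (by simp only [mul_assoc, mul_inv_rev, inv_inv, mul_inv_cancel_left, inv_mul_cancel_left, mul_inv_cancel, inv_mul_cancel, mul_one, one_mul, inv_one, C])
  have k4 : o.lt (m * f⁻¹) (m * g⁻¹) ↔ o.lt (1 * (m * f⁻¹)) (1 * (m * g⁻¹)) := o.cv hδ (1) e2 (by simp only [mul_assoc, mul_inv_rev, inv_inv, mul_inv_cancel_left, inv_mul_cancel_left, mul_inv_cancel, inv_mul_cancel, mul_one, one_mul, inv_one, C]) (by simp only [mul_assoc, mul_inv_rev, inv_inv, mul_inv_cancel_left, inv_mul_cancel_left, mul_inv_cancel, inv_mul_cancel, mul_one, one_mul, inv_one, C])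
  have k5 : o.lt (m * g⁻¹) (m * f⁻¹) ↔ o.lt (1 * (m * g⁻¹)) (1 * (m * f⁻¹)) := o.cv hδ (1) e0 (by simp only [mul_assoc, mul_inv_rev, inv_inv, mul_inv_cancel_left, inv_mul_cancel_left, mul_inv_cancel, inv_mul_cancel, mul_one, one_mul, inv_one, C]) (by simp only [mul_assoc, mul_inv_rev, inv_inv, mul_inv_cancel_left, inv_mul_cancel_left, mul_inv_cancel, inv_mul_cancel, mul_one, one_mul, inv_one, C])
  have k6 : o.lt (f * P⁻¹) (g * P⁻¹) ↔ o.lt (1 * (P * f⁻¹)⁻¹) (1 * (P * g⁻¹)⁻¹) := o.cv hδ (1) e13 (by simp only [mul_assoc, mul_inv_rev, inv_inv, mul_inv_cancel_left, inv_mul_cancel_left, mul_inv_cancel, inv_mul_cancel, mul_one, one_mul, inv_one, C]) (by simp only [mul_assoc, mul_inv_rev, inv_inv, mul_inv_cancel_left, inv_mul_cancel_left, mul_inv_cancel, inv_mul_cancel, mul_one, one_mul, inv_one, C])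
  have k7 : o.lt (P * f⁻¹) (P * g⁻¹) ↔ o.lt (1 * (P * f⁻¹)) (1 * (P * g⁻¹)) := o.cv hδ (1) e25 (by simp only [mul_assoc, mul_inv_rev, inv_inv, mul_inv_cancel_left, inv_mul_cancel_left, mul_inv_cancel, inv_mul_cancel, mul_one, one_mul, inv_one, C]) (by simp only [mul_assoc, mul_inv_rev, inv_inv, mul_inv_cancel_left, inv_mul_cancel_left, mul_inv_cancel, inv_mul_cancel, mul_one, one_mul, inv_one, C])
  have k8 : o.lt (g * m⁻¹) (g * P⁻¹) ↔ o.lt (1 * (m * g⁻¹)⁻¹) (1 * (P * g⁻¹)⁻¹) := o.cv hδ (1) e20 (by simp only [mul_assoc, mul_inv_rev, inv_inv, mul_inv_cancel_left, inv_mul_cancel_left, mul_inv_cancel, inv_mul_cancel, mul_one, one_mul, inv_one, C]) (by simp only [mul_assoc, mul_inv_rev, inv_inv, mul_inv_cancel_left, inv_mul_cancel_left, mul_inv_cancel, inv_mul_cancel, mul_one, one_mul, inv_one, C])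
  have k9 : o.lt (f * Q⁻¹) (m * f⁻¹) ↔ o.lt (1 * (f * Q⁻¹)) (1 * (m * f⁻¹)) := o.cv hδ (1) e15 (by simp only [mul_assoc, mul_inv_rev, inv_inv, mul_inv_cancel_left, inv_mul_cancel_left, mul_inv_cancel, inv_mul_cancel, mul_one, one_mul, inv_one, C]) (by simp only [mul_assoc, mul_inv_rev, inv_inv, mul_inv_cancel_left, inv_mul_cancel_left, mul_inv_cancel, inv_mul_cancel, mul_one, one_mul, inv_one, C])
  have k10 : o.lt (g * Q⁻¹) (m * g⁻¹) ↔ o.lt (1 * (g * Q⁻¹)) (1 * (m * g⁻¹)) := o.cv hδ (1) e10 (by simp only [mul_assoc, mul_inv_rev, inv_inv, mul_inv_cancel_left, inv_mul_cancel_left, mul_inv_cancel, inv_mul_cancel, mul_one, one_mul, inv_one, C]) (by simp only [mul_assoc, mul_inv_rev, inv_inv, mul_inv_cancel_left, inv_mul_cancel_left, mul_inv_cancel, inv_mul_cancel, mul_one, one_mul, inv_one, C])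
  have k11 : o.lt (g * P⁻¹) (f * P⁻¹) ↔ o.lt (1 * g) (1 * f) := o.cv hδ (P) e21 (by simp only [mul_assoc, mul_inv_rev, inv_inv, mul_inv_cancel_left, inv_mul_cancel_left, mul_inv_cancel, inv_mul_cancel, mul_one, one_mul, inv_one, C]) (by simp only [mul_assoc, mul_inv_rev, inv_inv, mul_inv_cancel_left, inv_mul_cancel_left, mul_inv_cancel, inv_mul_cancel, mul_one, one_mul, inv_one, C])
  have k12 : o.lt (m * f⁻¹) (g * Q⁻¹) ↔ o.lt (1 * (m * f⁻¹)) (1 * (g * Q⁻¹)) := o.cv hδ (1) e24 (by simp only [mul_assoc, mul_inv_rev, inv_inv, mul_inv_cancel_left, inv_mul_cancel_left, mul_inv_cancel, inv_mul_cancel, mul_one, one_mul, inv_one, C]) (by simp only [mul_assoc, mul_inv_rev, inv_inv, mul_inv_cancel_left, inv_mul_cancel_left, mul_inv_cancel, inv_mul_cancel, mul_one, one_mul, inv_one, C])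
  have k13 : o.lt (Q * f⁻¹) (g * m⁻¹) ↔ o.lt (1 * (f * Q⁻¹)⁻¹) (1 * (m * g⁻¹)⁻¹) := o.cv hδ (1) e14 (by simp only [mul_assoc, mul_inv_rev, inv_inv, mul_inv_cancel_left, inv_mul_cancel_left, mul_inv_cancel, inv_mul_cancel, mul_one, one_mul, inv_one, C]) (by simp only [mul_assoc, mul_inv_rev, inv_inv, mul_inv_cancel_left, inv_mul_cancel_left, mul_inv_cancel, inv_mul_cancel, mul_one, one_mul, inv_one, C])
  have k14 : o.lt (Q * f⁻¹) (Q * g⁻¹) ↔ o.lt (1 * (Q * f⁻¹)) (1 * (Q * g⁻¹)) := o.cv hδ (1) e39 (by simp only [mul_assoc, mul_inv_rev, inv_inv, mul_inv_cancel_left, inv_mul_cancel_left, mul_inv_cancel, inv_mul_cancel, mul_one, one_mul, inv_one, C]) (by simp only [mul_assoc, mul_inv_rev, inv_inv, mul_inv_cancel_left, inv_mul_cancel_left, mul_inv_cancel, inv_mul_cancel, mul_one, one_mul, inv_one, C])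
  have k15 : o.lt (f * m⁻¹) (Q * g⁻¹) ↔ o.lt (1 * (f * m⁻¹)) (1 * (Q * g⁻¹)) := o.cv hδ (1) e37 (by simp only [mul_assoc, mul_inv_rev, inv_inv, mul_inv_cancel_left, inv_mul_cancel_left, mul_inv_cancel, inv_mul_cancel, mul_one, one_mul, inv_one, C]) (by simp only [mul_assoc, mul_inv_rev, inv_inv, mul_inv_cancel_left, inv_mul_cancel_left, mul_inv_cancel, inv_mul_cancel, mul_one, one_mul, inv_one, C])
  have k16 : o.lt (f * Q⁻¹) (m * g⁻¹) ↔ o.lt (1 * (Q * f⁻¹)⁻¹) (1 * (g * m⁻¹)⁻¹) := o.cv hδ (1) e9 (by simp only [mul_assoc, mul_inv_rev, inv_inv, mul_inv_cancel_left, inv_mul_cancel_left, mul_inv_cancel, inv_mul_cancel, mul_one, one_mul, inv_one, C]) (by simp only [mul_assoc, mul_inv_rev, inv_inv, mul_inv_cancel_left, inv_mul_cancel_left, mul_inv_cancel, inv_mul_cancel, mul_one, one_mul, inv_one, C])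
  have k17 : o.lt (Q * g⁻¹) (g * m⁻¹) ↔ o.lt (1 * (Q * g⁻¹)) (1 * (g * m⁻¹)) := o.cv hδ (1) e11 (by simp only [mul_assoc, mul_inv_rev, inv_inv, mul_inv_cancel_left, inv_mul_cancel_left, mul_inv_cancel, inv_mul_cancel, mul_one, one_mul, inv_one, C]) (by simp only [mul_assoc, mul_inv_rev, inv_inv, mul_inv_cancel_left, inv_mul_cancel_left, mul_inv_cancel, inv_mul_cancel, mul_one, one_mul, inv_one, C])
  have k18 : o.lt (Q * f⁻¹) (f * m⁻¹) ↔ o.lt (1 * (Q * f⁻¹)) (1 * (f * m⁻¹)) := o.cv hδ (1) e35 (by simp only [mul_assoc, mul_inv_rev, inv_inv, mul_inv_cancel_left, inv_mul_cancel_left, mul_inv_cancel, inv_mul_cancel, mul_one, one_mul, inv_one, C]) (by simp only [mul_assoc, mul_inv_rev, inv_inv, mul_inv_cancel_left, inv_mul_cancel_left, mul_inv_cancel, inv_mul_cancel, mul_one, one_mul, inv_one, C])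
  have k19 : o.lt (m * (g⁻¹ * (P * f⁻¹))) (g * (m⁻¹ * (g * f⁻¹))) ↔ o.lt ((m * g⁻¹) * (P * f⁻¹)) ((m * g⁻¹) * (m * f⁻¹)) := o.cv hδ (1) e1 (by simp only [mul_assoc, mul_inv_rev, inv_inv, mul_inv_cancel_left, inv_mul_cancel_left, mul_inv_cancel, inv_mul_cancel, mul_one, one_mul, inv_one, C]) (by simp only [mul_assoc, mul_inv_rev, inv_inv, mul_inv_cancel_left, inv_mul_cancel_left, mul_inv_cancel, inv_mul_cancel, mul_one, one_mul, inv_one, C])
  have k20 : o.lt (m * f⁻¹) (m * g⁻¹) ↔ o.lt ((m * g⁻¹) * (P * g⁻¹)⁻¹) ((m * g⁻¹) * (P * f⁻¹)⁻¹) := o.cv hδ (f * P⁻¹) e2 (by simp only [mul_assoc, mul_inv_rev, inv_inv, mul_inv_cancel_left, inv_mul_cancel_left, mul_inv_cancel, inv_mul_cancel, mul_one, one_mul, inv_one, C]) (by simp only [mul_assoc, mul_inv_rev, inv_inv, mul_inv_cancel_left, inv_mul_cancel_left, mul_inv_cancel, inv_mul_cancel, mul_one, one_mul, inv_one, C])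
  have k21 : o.lt (m * (g⁻¹ * (f * m⁻¹))) (m * P⁻¹) ↔ o.lt ((m * g⁻¹) * (m * f⁻¹)⁻¹) ((m * g⁻¹) * (P * g⁻¹)⁻¹) := o.cv hδ (1) e4 (by simp only [mul_assoc, mul_inv_rev, inv_inv, mul_inv_cancel_left, inv_mul_cancel_left, mul_inv_cancel, inv_mul_cancel, mul_one, one_mul, inv_one, C]) (by simp only [mul_assoc, mul_inv_rev, inv_inv, mul_inv_cancel_left, inv_mul_cancel_left, mul_inv_cancel, inv_mul_cancel, mul_one, one_mul, inv_one, C])
  have k22 : o.lt (m * (g⁻¹ * (f * Q⁻¹))) (g * (m⁻¹ * (g * f⁻¹))) ↔ o.lt ((m * g⁻¹) * (f * Q⁻¹)) ((m * g⁻¹) * (m * f⁻¹)) := o.cv hδ (1) e17 (by simp only [mul_assoc, mul_inv_rev, inv_inv, mul_inv_cancel_left, inv_mul_cancel_left, mul_inv_cancel, inv_mul_cancel, mul_one, one_mul, inv_one, C]) (by simp only [mul_assoc, mul_inv_rev, inv_inv, mul_inv_cancel_left, inv_mul_cancel_left, mul_inv_cancel, inv_mul_cancel, mul_one, one_mul, inv_one, C])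
  have k23 : o.lt (m * Q⁻¹) (g * m⁻¹) ↔ o.lt ((m * g⁻¹) * (g * Q⁻¹)) ((m * g⁻¹) * (m * g⁻¹)) := o.cv hδ (1) e18 (by simp only [mul_assoc, mul_inv_rev, inv_inv, mul_inv_cancel_left, inv_mul_cancel_left, mul_inv_cancel, inv_mul_cancel, mul_one, one_mul, inv_one, C]) (by simp only [mul_assoc, mul_inv_rev, inv_inv, mul_inv_cancel_left, inv_mul_cancel_left, mul_inv_cancel, inv_mul_cancel, mul_one, one_mul, inv_one, C])
  have k24 : o.lt (g * (m⁻¹ * (g * f⁻¹))) (g * m⁻¹) ↔ o.lt ((m * g⁻¹) * (m * f⁻¹)) ((m * g⁻¹) * (m * g⁻¹)) := o.cv hδ (f * (g⁻¹ * (m * (g⁻¹ * (m * (g⁻¹ * (m * f⁻¹))))))) e5 (by simp only [mul_assoc, mul_inv_rev, inv_inv, mul_inv_cancel_left, inv_mul_cancel_left, mul_inv_cancel, inv_mul_cancel, mul_one, one_mul, inv_one, C]) (by simp only [mul_assoc, mul_inv_rev, inv_inv, mul_inv_cancel_left, inv_mul_cancel_left, mul_inv_cancel, inv_mul_cancel, mul_one, one_mul, inv_one, C])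
  have k25 : o.lt (m * f⁻¹) (m * g⁻¹) ↔ o.lt ((m * g⁻¹) * g) ((m * g⁻¹) * f) := o.cv hδ (f) e2 (by simp only [mul_assoc, mul_inv_rev, inv_inv, mul_inv_cancel_left, inv_mul_cancel_left, mul_inv_cancel, inv_mul_cancel, mul_one, one_mul, inv_one, C]) (by simp only [mul_assoc, mul_inv_rev, inv_inv, mul_inv_cancel_left, inv_mul_cancel_left, mul_inv_cancel, inv_mul_cancel, mul_one, one_mul, inv_one, C])
  have k26 : o.lt (g * (m⁻¹ * (g * f⁻¹))) (m * Q⁻¹) ↔ o.lt ((m * g⁻¹) * (m * f⁻¹)) ((m * g⁻¹) * (g * Q⁻¹)) := o.cv hδ (f * (g⁻¹ * (m * (g⁻¹ * (m * (g⁻¹ * (m * f⁻¹))))))) e7 (by simp only [mul_assoc, mul_inv_rev, inv_inv, mul_inv_cancel_left, inv_mul_cancel_left, mul_inv_cancel, inv_mul_cancel, mul_one, one_mul, inv_one, C]) (by simp only [mul_assoc, mul_inv_rev, inv_inv, mul_inv_cancel_left, inv_mul_cancel_left, mul_inv_cancel, inv_mul_cancel, mul_one, one_mul, inv_one, C])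
  have k27 : o.lt (m * (g⁻¹ * (Q * f⁻¹))) (1) ↔ o.lt ((m * g⁻¹) * (f * Q⁻¹)⁻¹) ((m * g⁻¹) * (m * g⁻¹)⁻¹) := o.cv hδ (1) e16 (by simp only [mul_assoc, mul_inv_rev, inv_inv, mul_inv_cancel_left, inv_mul_cancel_left, mul_inv_cancel, inv_mul_cancel, mul_one, one_mul, inv_one, C]) (by simp only [mul_assoc, mul_inv_rev, inv_inv, mul_inv_cancel_left, inv_mul_cancel_left, mul_inv_cancel, inv_mul_cancel, mul_one, one_mul, inv_one, C])
  have k28 : o.lt (P * f⁻¹) (m * f⁻¹) ↔ o.lt (P * f⁻¹) (m * f⁻¹) := o.cv hδ (1) e8 (by simp only [mul_assoc, mul_inv_rev, inv_inv, mul_inv_cancel_left, inv_mul_cancel_left, mul_inv_cancel, inv_mul_cancel, mul_one, one_mul, inv_one, C]) (by simp only [mul_assoc, mul_inv_rev, inv_inv, mul_inv_cancel_left, inv_mul_cancel_left, mul_inv_cancel, inv_mul_cancel, mul_one, one_mul, inv_one, C])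
  have k29 : o.lt (m * f⁻¹) (P * f⁻¹) ↔ o.lt (m * f⁻¹) (P * f⁻¹) := o.cv hδ (1) e3 (by simp only [mul_assoc, mul_inv_rev, inv_inv, mul_inv_cancel_left, inv_mul_cancel_left, mul_inv_cancel, inv_mul_cancel, mul_one, one_mul, inv_one, C]) (by simp only [mul_assoc, mul_inv_rev, inv_inv, mul_inv_cancel_left, inv_mul_cancel_left, mul_inv_cancel, inv_mul_cancel, mul_one, one_mul, inv_one, C])
  have k30 : o.lt (P * f⁻¹) (g * Q⁻¹) ↔ o.lt (P * f⁻¹) (g * Q⁻¹) := o.cv hδ (1) e26 (by simp only [mul_assoc, mul_inv_rev, inv_inv, mul_inv_cancel_left, inv_mul_cancel_left, mul_inv_cancel, inv_mul_cancel, mul_one, one_mul, inv_one, C]) (by simp only [mul_assoc, mul_inv_rev, inv_inv, mul_inv_cancel_left, inv_mul_cancel_left, mul_inv_cancel, inv_mul_cancel, mul_one, one_mul, inv_one, C])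
  have k31 : o.lt (g * Q⁻¹) (P * f⁻¹) ↔ o.lt (g * Q⁻¹) (P * f⁻¹) := o.cv hδ (1) e31 (by simp only [mul_assoc, mul_inv_rev, inv_inv, mul_inv_cancel_left, inv_mul_cancel_left, mul_inv_cancel, inv_mul_cancel, mul_one, one_mul, inv_one, C]) (by simp only [mul_assoc, mul_inv_rev, inv_inv, mul_inv_cancel_left, inv_mul_cancel_left, mul_inv_cancel, inv_mul_cancel, mul_one, one_mul, inv_one, C])
  have k32 : o.lt (P * f⁻¹) (P * g⁻¹) ↔ o.lt (P * f⁻¹) (P * g⁻¹) := o.cv hδ (1) e25 (by simp only [mul_assoc, mul_inv_rev, inv_inv, mul_inv_cancel_left, inv_mul_cancel_left, mul_inv_cancel, inv_mul_cancel, mul_one, one_mul, inv_one, C]) (by simp only [mul_assoc, mul_inv_rev, inv_inv, mul_inv_cancel_left, inv_mul_cancel_left, mul_inv_cancel, inv_mul_cancel, mul_one, one_mul, inv_one, C])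
  have k33 : o.lt (P * g⁻¹) (g * Q⁻¹) ↔ o.lt (P * g⁻¹) (g * Q⁻¹) := o.cv hδ (1) e27 (by simp only [mul_assoc, mul_inv_rev, inv_inv, mul_inv_cancel_left, inv_mul_cancel_left, mul_inv_cancel, inv_mul_cancel, mul_one, one_mul, inv_one, C]) (by simp only [mul_assoc, mul_inv_rev, inv_inv, mul_inv_cancel_left, inv_mul_cancel_left, mul_inv_cancel, inv_mul_cancel, mul_one, one_mul, inv_one, C])
  have k34 : o.lt (m * f⁻¹) (g * Q⁻¹) ↔ o.lt (m * f⁻¹) (g * Q⁻¹) := o.cv hδ (1) e24 (by simp only [mul_assoc, mul_inv_rev, inv_inv, mul_inv_cancel_left, inv_mul_cancel_left, mul_inv_cancel, inv_mul_cancel, mul_one, one_mul, inv_one, C]) (by simp only [mul_assoc, mul_inv_rev, inv_inv, mul_inv_cancel_left, inv_mul_cancel_left, mul_inv_cancel, inv_mul_cancel, mul_one, one_mul, inv_one, C])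
  have k35 : o.lt (g * Q⁻¹) (P * g⁻¹) ↔ o.lt (g * Q⁻¹) (P * g⁻¹) := o.cv hδ (1) e32 (by simp only [mul_assoc, mul_inv_rev, inv_inv, mul_inv_cancel_left, inv_mul_cancel_left, mul_inv_cancel, inv_mul_cancel, mul_one, one_mul, inv_one, C]) (by simp only [mul_assoc, mul_inv_rev, inv_inv, mul_inv_cancel_left, inv_mul_cancel_left, mul_inv_cancel, inv_mul_cancel, mul_one, one_mul, inv_one, C])
  have k36 : o.lt (m * f⁻¹) (f * Q⁻¹) ↔ o.lt (m * f⁻¹) (f * Q⁻¹) := o.cv hδ (1) e23 (by simp only [mul_assoc, mul_inv_rev, inv_inv, mul_inv_cancel_left, inv_mul_cancel_left, mul_inv_cancel, inv_mul_cancel, mul_one, one_mul, inv_one, C]) (by simp only [mul_assoc, mul_inv_rev, inv_inv, mul_inv_cancel_left, inv_mul_cancel_left, mul_inv_cancel, inv_mul_cancel, mul_one, one_mul, inv_one, C])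
  have k37 : o.lt (m * f⁻¹) (m * g⁻¹) ↔ o.lt (m * f⁻¹) (m * g⁻¹) := o.cv hδ (1) e2 (by simp only [mul_assoc, mul_inv_rev, inv_inv, mul_inv_cancel_left, inv_mul_cancel_left, mul_inv_cancel, inv_mul_cancel, mul_one, one_mul, inv_one, C]) (by simp only [mul_assoc, mul_inv_rev, inv_inv, mul_inv_cancel_left, inv_mul_cancel_left, mul_inv_cancel, inv_mul_cancel, mul_one, one_mul, inv_one, C])
  have k38 : o.lt (m * (g⁻¹ * (Q * f⁻¹))) (1) ↔ o.lt (m * g⁻¹) (f * Q⁻¹) := o.cv hδ (f * Q⁻¹) e16 (by simp only [mul_assoc, mul_inv_rev, inv_inv, mul_inv_cancel_left, inv_mul_cancel_left, mul_inv_cancel, inv_mul_cancel, mul_one, one_mul, inv_one, C]) (by simp only [mul_assoc, mul_inv_rev, inv_inv, mul_inv_cancel_left, inv_mul_cancel_left, mul_inv_cancel, inv_mul_cancel, mul_one, one_mul, inv_one, C])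
  have k39 : o.lt (m * f⁻¹) (Q * m⁻¹) ↔ o.lt (m * f⁻¹) (Q * m⁻¹) := o.cv hδ (1) e28 (by simp only [mul_assoc, mul_inv_rev, inv_inv, mul_inv_cancel_left, inv_mul_cancel_left, mul_inv_cancel, inv_mul_cancel, mul_one, one_mul, inv_one, C]) (by simp only [mul_assoc, mul_inv_rev, inv_inv, mul_inv_cancel_left, inv_mul_cancel_left, mul_inv_cancel, inv_mul_cancel, mul_one, one_mul, inv_one, C])
  have k40 : o.lt (Q * f⁻¹) (f * m⁻¹) ↔ o.lt (Q * m⁻¹) (m * f⁻¹) := o.cv hδ (f * m⁻¹) e35 (by simp only [mul_assoc, mul_inv_rev, inv_inv, mul_inv_cancel_left, inv_mul_cancel_left, mul_inv_cancel, inv_mul_cancel, mul_one, one_mul, inv_one, C]) (by simp only [mul_assoc, mul_inv_rev, inv_inv, mul_inv_cancel_left, inv_mul_cancel_left, mul_inv_cancel, inv_mul_cancel, mul_one, one_mul, inv_one, C])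
  have k41 : o.lt (f * Q⁻¹) (m * g⁻¹) ↔ o.lt (f * Q⁻¹) (m * g⁻¹) := o.cv hδ (1) e9 (by simp only [mul_assoc, mul_inv_rev, inv_inv, mul_inv_cancel_left, inv_mul_cancel_left, mul_inv_cancel, inv_mul_cancel, mul_one, one_mul, inv_one, C]) (by simp only [mul_assoc, mul_inv_rev, inv_inv, mul_inv_cancel_left, inv_mul_cancel_left, mul_inv_cancel, inv_mul_cancel, mul_one, one_mul, inv_one, C])
  have k42 : o.lt (m * g⁻¹) (Q * m⁻¹) ↔ o.lt (m * g⁻¹) (Q * m⁻¹) := o.cv hδ (1) e19 (by simp only [mul_assoc, mul_inv_rev, inv_inv, mul_inv_cancel_left, inv_mul_cancel_left, mul_inv_cancel, inv_mul_cancel, mul_one, one_mul, inv_one, C]) (by simp only [mul_assoc, mul_inv_rev, inv_inv, mul_inv_cancel_left, inv_mul_cancel_left, mul_inv_cancel, inv_mul_cancel, mul_one, one_mul, inv_one, C])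
  have k43 : o.lt (Q * g⁻¹) (g * m⁻¹) ↔ o.lt (Q * m⁻¹) (m * g⁻¹) := o.cv hδ (g * m⁻¹) e11 (by simp only [mul_assoc, mul_inv_rev, inv_inv, mul_inv_cancel_left, inv_mul_cancel_left, mul_inv_cancel, inv_mul_cancel, mul_one, one_mul, inv_one, C]) (by simp only [mul_assoc, mul_inv_rev, inv_inv, mul_inv_cancel_left, inv_mul_cancel_left, mul_inv_cancel, inv_mul_cancel, mul_one, one_mul, inv_one, C])
  have k44 : o.lt (f * Q⁻¹) (P * g⁻¹) ↔ o.lt (f * Q⁻¹) (P * g⁻¹) := o.cv hδ (1) e30 (by simp only [mul_assoc, mul_inv_rev, inv_inv, mul_inv_cancel_left, inv_mul_cancel_left, mul_inv_cancel, inv_mul_cancel, mul_one, one_mul, inv_one, C]) (by simp only [mul_assoc, mul_inv_rev, inv_inv, mul_inv_cancel_left, inv_mul_cancel_left, mul_inv_cancel, inv_mul_cancel, mul_one, one_mul, inv_one, C])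
  have k45 : o.lt (f * Q⁻¹) (P * f⁻¹) ↔ o.lt (f * Q⁻¹) (P * f⁻¹) := o.cv hδ (1) e29 (by simp only [mul_assoc, mul_inv_rev, inv_inv, mul_inv_cancel_left, inv_mul_cancel_left, mul_inv_cancel, inv_mul_cancel, mul_one, one_mul, inv_one, C]) (by simp only [mul_assoc, mul_inv_rev, inv_inv, mul_inv_cancel_left, inv_mul_cancel_left, mul_inv_cancel, inv_mul_cancel, mul_one, one_mul, inv_one, C])
  have k46 : o.lt (f * Q⁻¹) (m * f⁻¹) ↔ o.lt (f * Q⁻¹) (m * f⁻¹) := o.cv hδ (1) e15 (by simp only [mul_assoc, mul_inv_rev, inv_inv, mul_inv_cancel_left, inv_mul_cancel_left, mul_inv_cancel, inv_mul_cancel, mul_one, one_mul, inv_one, C]) (by simp only [mul_assoc, mul_inv_rev, inv_inv, mul_inv_cancel_left, inv_mul_cancel_left, mul_inv_cancel, inv_mul_cancel, mul_one, one_mul, inv_one, C])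
  have k47 : o.lt (f * P⁻¹) (g * P⁻¹) ↔ o.lt (f * Q⁻¹) (g * Q⁻¹) := o.cv hδ (P * Q⁻¹) e13 (by simp only [mul_assoc, mul_inv_rev, inv_inv, mul_inv_cancel_left, inv_mul_cancel_left, mul_inv_cancel, inv_mul_cancel, mul_one, one_mul, inv_one, C]) (by simp only [mul_assoc, mul_inv_rev, inv_inv, mul_inv_cancel_left, inv_mul_cancel_left, mul_inv_cancel, inv_mul_cancel, mul_one, one_mul, inv_one, C])
  have k48 : o.lt (g * Q⁻¹) (m * f⁻¹) ↔ o.lt (g * Q⁻¹) (m * f⁻¹) := o.cv hδ (1) e22 (by simp only [mul_assoc, mul_inv_rev, inv_inv, mul_inv_cancel_left, inv_mul_cancel_left, mul_inv_cancel, inv_mul_cancel, mul_one, one_mul, inv_one, C]) (by simp only [mul_assoc, mul_inv_rev, inv_inv, mul_inv_cancel_left, inv_mul_cancel_left, mul_inv_cancel, inv_mul_cancel, mul_one, one_mul, inv_one, C])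
  have k49 : o.lt (P * f⁻¹) (m * f⁻¹) ↔ o.lt (P * g⁻¹) (m * g⁻¹) := o.cv hδ (f * g⁻¹) e8 (by simp only [mul_assoc, mul_inv_rev, inv_inv, mul_inv_cancel_left, inv_mul_cancel_left, mul_inv_cancel, inv_mul_cancel, mul_one, one_mul, inv_one, C]) (by simp only [mul_assoc, mul_inv_rev, inv_inv, mul_inv_cancel_left, inv_mul_cancel_left, mul_inv_cancel, inv_mul_cancel, mul_one, one_mul, inv_one, C])
  have k50 : o.lt (g * Q⁻¹) (m * g⁻¹) ↔ o.lt (g * Q⁻¹) (m * g⁻¹) := o.cv hδ (1) e10 (by simp only [mul_assoc, mul_inv_rev, inv_inv, mul_inv_cancel_left, inv_mul_cancel_left, mul_inv_cancel, inv_mul_cancel, mul_one, one_mul, inv_one, C]) (by simp only [mul_assoc, mul_inv_rev, inv_inv, mul_inv_cancel_left, inv_mul_cancel_left, mul_inv_cancel, inv_mul_cancel, mul_one, one_mul, inv_one, C])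
  have k51 : o.lt (Q * P⁻¹) (P * g⁻¹) ↔ o.lt (Q * P⁻¹) (P * g⁻¹) := o.cv hδ (1) e34 (by simp only [mul_assoc, mul_inv_rev, inv_inv, mul_inv_cancel_left, inv_mul_cancel_left, mul_inv_cancel, inv_mul_cancel, mul_one, one_mul, inv_one, C]) (by simp only [mul_assoc, mul_inv_rev, inv_inv, mul_inv_cancel_left, inv_mul_cancel_left, mul_inv_cancel, inv_mul_cancel, mul_one, one_mul, inv_one, C])
  have k52 : o.lt (Q * P⁻¹) (P * f⁻¹) ↔ o.lt (Q * P⁻¹) (P * f⁻¹) := o.cv hδ (1) e33 (by simp only [mul_assoc, mul_inv_rev, inv_inv, mul_inv_cancel_left, inv_mul_cancel_left, mul_inv_cancel, inv_mul_cancel, mul_one, one_mul, inv_one, C]) (by simp only [mul_assoc, mul_inv_rev, inv_inv, mul_inv_cancel_left, inv_mul_cancel_left, mul_inv_cancel, inv_mul_cancel, mul_one, one_mul, inv_one, C])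
  have k53 : o.lt (f * m⁻¹) (g * P⁻¹) ↔ o.lt (f * m⁻¹) (g * P⁻¹) := o.cv hδ (1) e36 (by simp only [mul_assoc, mul_inv_rev, inv_inv, mul_inv_cancel_left, inv_mul_cancel_left, mul_inv_cancel, inv_mul_cancel, mul_one, one_mul, inv_one, C]) (by simp only [mul_assoc, mul_inv_rev, inv_inv, mul_inv_cancel_left, inv_mul_cancel_left, mul_inv_cancel, inv_mul_cancel, mul_one, one_mul, inv_one, C])
  have k54 : o.lt (f * P⁻¹) (g * P⁻¹) ↔ o.lt (f * m⁻¹) (g * m⁻¹) := o.cv hδ (P * m⁻¹) e13 (by simp only [mul_assoc, mul_inv_rev, inv_inv, mul_inv_cancel_left, inv_mul_cancel_left, mul_inv_cancel, inv_mul_cancel, mul_one, one_mul, inv_one, C]) (by simp only [mul_assoc, mul_inv_rev, inv_inv, mul_inv_cancel_left, inv_mul_cancel_left, mul_inv_cancel, inv_mul_cancel, mul_one, one_mul, inv_one, C])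
  have k55 : o.lt (g * m⁻¹) (g * P⁻¹) ↔ o.lt (g * m⁻¹) (g * P⁻¹) := o.cv hδ (1) e20 (by simp only [mul_assoc, mul_inv_rev, inv_inv, mul_inv_cancel_left, inv_mul_cancel_left, mul_inv_cancel, inv_mul_cancel, mul_one, one_mul, inv_one, C]) (by simp only [mul_assoc, mul_inv_rev, inv_inv, mul_inv_cancel_left, inv_mul_cancel_left, mul_inv_cancel, inv_mul_cancel, mul_one, one_mul, inv_one, C])
  have k56 : o.lt (m * f⁻¹) (Q * m⁻¹) ↔ o.lt (f * m⁻¹) (Q * f⁻¹) := o.cv hδ (f * (m⁻¹ * (f * m⁻¹))) e28 (by simp only [mul_assoc, mul_inv_rev, inv_inv, mul_inv_cancel_left, inv_mul_cancel_left, mul_inv_cancel, inv_mul_cancel, mul_one, one_mul, inv_one, C]) (by simp only [mul_assoc, mul_inv_rev, inv_inv, mul_inv_cancel_left, inv_mul_cancel_left, mul_inv_cancel, inv_mul_cancel, mul_one, one_mul, inv_one, C])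
  have k57 : o.lt (Q * f⁻¹) (g * P⁻¹) ↔ o.lt (Q * f⁻¹) (g * P⁻¹) := o.cv hδ (1) e38 (by simp only [mul_assoc, mul_inv_rev, inv_inv, mul_inv_cancel_left, inv_mul_cancel_left, mul_inv_cancel, inv_mul_cancel, mul_one, one_mul, inv_one, C]) (by simp only [mul_assoc, mul_inv_rev, inv_inv, mul_inv_cancel_left, inv_mul_cancel_left, mul_inv_cancel, inv_mul_cancel, mul_one, one_mul, inv_one, C])
  have k58 : o.lt (g * P⁻¹) (f * P⁻¹) ↔ o.lt (g * m⁻¹) (f * m⁻¹) := o.cv hδ (P * m⁻¹) e21 (by simp only [mul_assoc, mul_inv_rev, inv_inv, mul_inv_cancel_left, inv_mul_cancel_left, mul_inv_cancel, inv_mul_cancel, mul_one, one_mul, inv_one, C]) (by simp only [mul_assoc, mul_inv_rev, inv_inv, mul_inv_cancel_left, inv_mul_cancel_left, mul_inv_cancel, inv_mul_cancel, mul_one, one_mul, inv_one, C])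
  have k59 : o.lt (m * g⁻¹) (Q * m⁻¹) ↔ o.lt (g * m⁻¹) (Q * g⁻¹) := o.cv hδ (g * (m⁻¹ * (g * m⁻¹))) e19 (by simp only [mul_assoc, mul_inv_rev, inv_inv, mul_inv_cancel_left, inv_mul_cancel_left, mul_inv_cancel, inv_mul_cancel, mul_one, one_mul, inv_one, C]) (by simp only [mul_assoc, mul_inv_rev, inv_inv, mul_inv_cancel_left, inv_mul_cancel_left, mul_inv_cancel, inv_mul_cancel, mul_one, one_mul, inv_one, C])
  have k60 : o.lt (Q * P⁻¹) (P * g⁻¹) ↔ o.lt (Q * g⁻¹) (g * P⁻¹) := o.cv hδ (P * g⁻¹) e34 (by simp only [mul_assoc, mul_inv_rev, inv_inv, mul_inv_cancel_left, inv_mul_cancel_left, mul_inv_cancel, inv_mul_cancel, mul_one, one_mul, inv_one, C]) (by simp only [mul_assoc, mul_inv_rev, inv_inv, mul_inv_cancel_left, inv_mul_cancel_left, mul_inv_cancel, inv_mul_cancel, mul_one, one_mul, inv_one, C])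
  have k61 : o.lt (f * m⁻¹) (Q * g⁻¹) ↔ o.lt (f * m⁻¹) (Q * g⁻¹) := o.cv hδ (1) e37 (by simp only [mul_assoc, mul_inv_rev, inv_inv, mul_inv_cancel_left, inv_mul_cancel_left, mul_inv_cancel, inv_mul_cancel, mul_one, one_mul, inv_one, C]) (by simp only [mul_assoc, mul_inv_rev, inv_inv, mul_inv_cancel_left, inv_mul_cancel_left, mul_inv_cancel, inv_mul_cancel, mul_one, one_mul, inv_one, C])
  have k62 : o.lt (Q * P⁻¹) (P * f⁻¹) ↔ o.lt (Q * f⁻¹) (f * P⁻¹) := o.cv hδ (P * f⁻¹) e33 (by simp only [mul_assoc, mul_inv_rev, inv_inv, mul_inv_cancel_left, inv_mul_cancel_left, mul_inv_cancel, inv_mul_cancel, mul_one, one_mul, inv_one, C]) (by simp only [mul_assoc, mul_inv_rev, inv_inv, mul_inv_cancel_left, inv_mul_cancel_left, mul_inv_cancel, inv_mul_cancel, mul_one, one_mul, inv_one, C])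
  have k63 : o.lt (g * P⁻¹) (f * P⁻¹) ↔ o.lt (g * P⁻¹) (f * P⁻¹) := o.cv hδ (1) e21 (by simp only [mul_assoc, mul_inv_rev, inv_inv, mul_inv_cancel_left, inv_mul_cancel_left, mul_inv_cancel, inv_mul_cancel, mul_one, one_mul, inv_one, C]) (by simp only [mul_assoc, mul_inv_rev, inv_inv, mul_inv_cancel_left, inv_mul_cancel_left, mul_inv_cancel, inv_mul_cancel, mul_one, one_mul, inv_one, C])
  have k64 : o.lt (Q * f⁻¹) (g * m⁻¹) ↔ o.lt (Q * f⁻¹) (g * m⁻¹) := o.cv hδ (1) e14 (by simp only [mul_assoc, mul_inv_rev, inv_inv, mul_inv_cancel_left, inv_mul_cancel_left, mul_inv_cancel, inv_mul_cancel, mul_one, one_mul, inv_one, C]) (by simp only [mul_assoc, mul_inv_rev, inv_inv, mul_inv_cancel_left, inv_mul_cancel_left, mul_inv_cancel, inv_mul_cancel, mul_one, one_mul, inv_one, C])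
  have k65 : o.lt (g * P⁻¹) (g * m⁻¹) ↔ o.lt (g * P⁻¹) (g * m⁻¹) := o.cv hδ (1) e12 (by simp only [mul_assoc, mul_inv_rev, inv_inv, mul_inv_cancel_left, inv_mul_cancel_left, mul_inv_cancel, inv_mul_cancel, mul_one, one_mul, inv_one, C]) (by simp only [mul_assoc, mul_inv_rev, inv_inv, mul_inv_cancel_left, inv_mul_cancel_left, mul_inv_cancel, inv_mul_cancel, mul_one, one_mul, inv_one, C])
  have k66 : o.lt (Q * f⁻¹) (Q * g⁻¹) ↔ o.lt (Q * f⁻¹) (Q * g⁻¹) := o.cv hδ (1) e39 (by simp only [mul_assoc, mul_inv_rev, inv_inv, mul_inv_cancel_left, inv_mul_cancel_left, mul_inv_cancel, inv_mul_cancel, mul_one, one_mul, inv_one, C]) (by simp only [mul_assoc, mul_inv_rev, inv_inv, mul_inv_cancel_left, inv_mul_cancel_left, mul_inv_cancel, inv_mul_cancel, mul_one, one_mul, inv_one, C])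
  have k67 : o.lt (Q * g⁻¹) (g * m⁻¹) ↔ o.lt (Q * g⁻¹) (g * m⁻¹) := o.cv hδ (1) e11 (by simp only [mul_assoc, mul_inv_rev, inv_inv, mul_inv_cancel_left, inv_mul_cancel_left, mul_inv_cancel, inv_mul_cancel, mul_one, one_mul, inv_one, C]) (by simp only [mul_assoc, mul_inv_rev, inv_inv, mul_inv_cancel_left, inv_mul_cancel_left, mul_inv_cancel, inv_mul_cancel, mul_one, one_mul, inv_one, C])
  have k68 : o.lt (f * Q⁻¹) (P * f⁻¹) ↔ o.lt (Q * f⁻¹) (P * Q⁻¹) := o.cv hδ (Q * (f⁻¹ * (Q * f⁻¹))) e29 (by simp only [mul_assoc, mul_inv_rev, inv_inv, mul_inv_cancel_left, inv_mul_cancel_left, mul_inv_cancel, inv_mul_cancel, mul_one, one_mul, inv_one, C]) (by simp only [mul_assoc, mul_inv_rev, inv_inv, mul_inv_cancel_left, inv_mul_cancel_left, mul_inv_cancel, inv_mul_cancel, mul_one, one_mul, inv_one, C])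
  have k69 : o.lt (g * Q⁻¹) (P * g⁻¹) ↔ o.lt (Q * g⁻¹) (P * Q⁻¹) := o.cv hδ (Q * (g⁻¹ * (Q * g⁻¹))) e32 (by simp only [mul_assoc, mul_inv_rev, inv_inv, mul_inv_cancel_left, inv_mul_cancel_left, mul_inv_cancel, inv_mul_cancel, mul_one, one_mul, inv_one, C]) (by simp only [mul_assoc, mul_inv_rev, inv_inv, mul_inv_cancel_left, inv_mul_cancel_left, mul_inv_cancel, inv_mul_cancel, mul_one, one_mul, inv_one, C])
  have k70 : o.lt (m * Q⁻¹) (g * m⁻¹) ↔ o.lt (m * Q⁻¹) (g * m⁻¹) := o.cv hδ (1) e18 (by simp only [mul_assoc, mul_inv_rev, inv_inv, mul_inv_cancel_left, inv_mul_cancel_left, mul_inv_cancel, inv_mul_cancel, mul_one, one_mul, inv_one, C]) (by simp only [mul_assoc, mul_inv_rev, inv_inv, mul_inv_cancel_left, inv_mul_cancel_left, mul_inv_cancel, inv_mul_cancel, mul_one, one_mul, inv_one, C])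
  have k71 : o.lt (m * f⁻¹) (f * Q⁻¹) ↔ o.lt (m * Q⁻¹) (Q * f⁻¹) := o.cv hδ (f * Q⁻¹) e23 (by simp only [mul_assoc, mul_inv_rev, inv_inv, mul_inv_cancel_left, inv_mul_cancel_left, mul_inv_cancel, inv_mul_cancel, mul_one, one_mul, inv_one, C]) (by simp only [mul_assoc, mul_inv_rev, inv_inv, mul_inv_cancel_left, inv_mul_cancel_left, mul_inv_cancel, inv_mul_cancel, mul_one, one_mul, inv_one, C])
  have k72 : o.lt (P * f⁻¹) (m * f⁻¹) ↔ o.lt (g * P⁻¹) (m * (g⁻¹ * (P * g⁻¹))) := o.cv hδ (f * (P⁻¹ * (g * P⁻¹))) e8 (by simp only [mul_assoc, mul_inv_rev, inv_inv, mul_inv_cancel_left, inv_mul_cancel_left, mul_inv_cancel, inv_mul_cancel, mul_one, one_mul, inv_one, C]) (by simp only [mul_assoc, mul_inv_rev, inv_inv, mul_inv_cancel_left, inv_mul_cancel_left, mul_inv_cancel, inv_mul_cancel, mul_one, one_mul, inv_one, C])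
  have k73 : o.lt (m * (g⁻¹ * (P * f⁻¹))) (g * (m⁻¹ * (g * f⁻¹))) ↔ o.lt (m * (g⁻¹ * (P * g⁻¹))) (g * m⁻¹) := o.cv hδ (f * g⁻¹) e1 (by simp only [mul_assoc, mul_inv_rev, inv_inv, mul_inv_cancel_left, inv_mul_cancel_left, mul_inv_cancel, inv_mul_cancel, mul_one, one_mul, inv_one, C]) (by simp only [mul_assoc, mul_inv_rev, inv_inv, mul_inv_cancel_left, inv_mul_cancel_left, mul_inv_cancel, inv_mul_cancel, mul_one, one_mul, inv_one, C])
  have k74 : o.lt (g * (m⁻¹ * (g * f⁻¹))) (m * (g⁻¹ * (f * Q⁻¹))) ↔ o.lt (m * (g⁻¹ * (m * f⁻¹))) (m * (g⁻¹ * (f * Q⁻¹))) := o.cv hδ (f * (g⁻¹ * (m * (g⁻¹ * (m * (g⁻¹ * (m * f⁻¹))))))) e6 (by simp only [mul_assoc, mul_inv_rev, inv_inv, mul_inv_cancel_left, inv_mul_cancel_left, mul_inv_cancel, inv_mul_cancel, mul_one, one_mul, inv_one, C]) (by simp only [mul_assoc, mul_inv_rev, inv_inv, mul_inv_cancel_left, inv_mul_cancel_left, mul_inv_cancel, inv_mul_cancel, mul_one,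 one_mul, inv_one, C])
  have k75 : o.lt (g * (m⁻¹ * (g * f⁻¹))) (m * Q⁻¹) ↔ o.lt (m * (g⁻¹ * (m * f⁻¹))) (m * Q⁻¹) := o.cv hδ (f * (g⁻¹ * (m * (g⁻¹ * (m * (g⁻¹ * (m * f⁻¹))))))) e7 (by simp only [mul_assoc, mul_inv_rev, inv_inv, mul_inv_cancel_left, inv_mul_cancel_left, mul_inv_cancel, inv_mul_cancel, mul_one, one_mul, inv_one, C]) (by simp only [mul_assoc, mul_inv_rev, inv_inv, mul_inv_cancel_left, inv_mul_cancel_left, mul_inv_cancel, inv_mul_cancel, mul_one, one_mul, inv_one, C])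
  have k76 : o.lt (m * f⁻¹) (m * g⁻¹) ↔ o.lt (m * Q⁻¹) (m * (g⁻¹ * (f * Q⁻¹))) := o.cv hδ (f * Q⁻¹) e2 (by simp only [mul_assoc, mul_inv_rev, inv_inv, mul_inv_cancel_left, inv_mul_cancel_left, mul_inv_cancel, inv_mul_cancel, mul_one, one_mul, inv_one, C]) (by simp only [mul_assoc, mul_inv_rev, inv_inv, mul_inv_cancel_left, inv_mul_cancel_left, mul_inv_cancel, inv_mul_cancel, mul_one, one_mul, inv_one, C])
  have k77 : o.lt (m * (g⁻¹ * (f * m⁻¹))) (m * P⁻¹) ↔ o.lt (m * (g⁻¹ * (f * m⁻¹))) (m * P⁻¹) := o.cv hδ (1) e4 (by simp only [mul_assoc, mul_inv_rev, inv_inv, mul_inv_cancel_left, inv_mul_cancel_left, mul_inv_cancel, inv_mul_cancel, mul_one, one_mul, inv_one, C]) (by simp only [mul_assoc, mul_inv_rev, inv_inv, mul_inv_cancel_left, inv_mul_cancel_left, mul_inv_cancel, inv_mul_cancel, mul_one, one_mul, inv_one, C])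
  have k78 : o.lt (m * g⁻¹) (m * f⁻¹) ↔ o.lt (m * (g⁻¹ * (f * m⁻¹))) (1) := o.cv hδ (f * m⁻¹) e0 (by simp only [mul_assoc, mul_inv_rev, inv_inv, mul_inv_cancel_left, inv_mul_cancel_left, mul_inv_cancel, inv_mul_cancel, mul_one, one_mul, inv_one, C]) (by simp only [mul_assoc, mul_inv_rev, inv_inv, mul_inv_cancel_left, inv_mul_cancel_left, mul_inv_cancel, inv_mul_cancel, mul_one, one_mul, inv_one, C])
  have k79 : o.lt (P * f⁻¹) (m * f⁻¹) ↔ o.lt (1) (m * P⁻¹) := o.cv hδ (f * P⁻¹) e8 (by simp only [mul_assoc, mul_inv_rev, inv_inv, mul_inv_cancel_left, inv_mul_cancel_left, mul_inv_cancel, inv_mul_cancel, mul_one, one_mul, inv_one, C]) (by simp only [mul_assoc, mul_inv_rev, inv_inv, mul_inv_cancel_left, inv_mul_cancel_left, mul_inv_cancel, inv_mul_cancel, mul_one, one_mul, inv_one, C])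
  have k80 : o.lt (m * (g⁻¹ * (f * Q⁻¹))) (g * (m⁻¹ * (g * f⁻¹))) ↔ o.lt (m * (g⁻¹ * (Q * f⁻¹))) (m * (g⁻¹ * (m * Q⁻¹))) := o.cv hδ (Q * (f⁻¹ * (Q * f⁻¹))) e17 (by simp only [mul_assoc, mul_inv_rev, inv_inv, mul_inv_cancel_left, inv_mul_cancel_left, mul_inv_cancel, inv_mul_cancel, mul_one, one_mul, inv_one, C]) (by simp only [mul_assoc, mul_inv_rev, inv_inv, mul_inv_cancel_left, inv_mul_cancel_left, mul_inv_cancel, inv_mul_cancel, mul_one, one_mul, inv_one, C])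
  have k81 : o.lt (m * (g⁻¹ * (Q * f⁻¹))) (1) ↔ o.lt (m * (g⁻¹ * (Q * f⁻¹))) (1) := o.cv hδ (1) e16 (by simp only [mul_assoc, mul_inv_rev, inv_inv, mul_inv_cancel_left, inv_mul_cancel_left, mul_inv_cancel, inv_mul_cancel, mul_one, one_mul, inv_one, C]) (by simp only [mul_assoc, mul_inv_rev, inv_inv, mul_inv_cancel_left, inv_mul_cancel_left, mul_inv_cancel, inv_mul_cancel, mul_one, one_mul, inv_one, C])
  have k82 : o.lt (Q * g⁻¹) (g * m⁻¹) ↔ o.lt (1) (m * (g⁻¹ * (m * Q⁻¹))) := o.cv hδ (g * Q⁻¹) e11 (by simp only [mul_assoc, mul_inv_rev, inv_inv, mul_inv_cancel_left, inv_mul_cancel_left, mul_inv_cancel, inv_mul_cancel, mul_one, one_mul, inv_one, C]) (by simp only [mul_assoc, mul_inv_rev, inv_inv, mul_inv_cancel_left, inv_mul_cancel_left, mul_inv_cancel, inv_mul_cancel, mul_one, one_mul, inv_one, C])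
  have k83 : o.lt (m * g⁻¹) (Q * m⁻¹) ↔ o.lt (m * (g⁻¹ * (m * Q⁻¹))) (1) := o.cv hδ (m * Q⁻¹) e19 (by simp only [mul_assoc, mul_inv_rev, inv_inv, mul_inv_cancel_left, inv_mul_cancel_left, mul_inv_cancel, inv_mul_cancel, mul_one, one_mul, inv_one, C]) (by simp only [mul_assoc, mul_inv_rev, inv_inv, mul_inv_cancel_left, inv_mul_cancel_left, mul_inv_cancel, inv_mul_cancel, mul_one, one_mul, inv_one, C])
  have k84 : o.lt (g * (m⁻¹ * (g * f⁻¹))) (m * (g⁻¹ * (f * Q⁻¹))) ↔ o.lt (m * (g⁻¹ * (m * Q⁻¹))) (m * (g⁻¹ * (Q * f⁻¹))) := o.cv hδ (f * (g⁻¹ * (m * (g⁻¹ * (m * (g⁻¹ * (m * Q⁻¹))))))) e6 (by simp only [mul_assoc, mul_inv_rev, inv_inv, mul_inv_cancel_left, inv_mul_cancel_left, mul_inv_cancel, inv_mul_cancel, mul_one, one_mul, inv_one, C]) (by simp only [mul_assoc, mul_inv_rev, inv_inv, mul_inv_cancel_left, inv_mul_cancel_left, mul_inv_cancel, inv_mul_cancel, mul_one, one_mul, inv_one, C])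
  have k85 : o.lt (Q * f⁻¹) (g * P⁻¹) ↔ o.lt ((f * Q⁻¹)⁻¹) ((P * g⁻¹)⁻¹) := o.cv hδ (1) e38 (by simp only [mul_assoc, mul_inv_rev, inv_inv, mul_inv_cancel_left, inv_mul_cancel_left, mul_inv_cancel, inv_mul_cancel, mul_one, one_mul, inv_one, C]) (by simp only [mul_assoc, mul_inv_rev, inv_inv, mul_inv_cancel_left, inv_mul_cancel_left, mul_inv_cancel, inv_mul_cancel, mul_one, one_mul, inv_one, C])
  have k86 : o.lt (g * P⁻¹) (f * P⁻¹) ↔ o.lt (g) (f) := o.cv hδ (P) e21 (by simp only [mul_assoc, mul_inv_rev, inv_inv, mul_inv_cancel_left, inv_mul_cancel_left, mul_inv_cancel, inv_mul_cancel, mul_one, one_mul, inv_one, C]) (by simp only [mul_assoc, mul_inv_rev, inv_inv, mul_inv_cancel_left, inv_mul_cancel_left, mul_inv_cancel, inv_mul_cancel, mul_one, one_mul, inv_one, C])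
  exact ser_EBB_1_prop
    (fun b0 b1 b2 => N0.i.r0 1 (k0.1 b0) (fun h => b1 (k1.2 h)) (fun h => b2 (k2.2 h)))
    (fun b0 b1 b2 => N0.i.r1 1 (fun h => b0 (k3.2 h)) (k4.1 b1) (fun h => b2 (k1.2 h)))
    (fun b0 b1 b2 => N0.d.r1 1 (fun h => b0 (k0.2 h)) (k5.1 b1) (fun h => b2 (k6.2 h)))
    (fun b0 b1 b2 => N0.i.r2 1 (fun h => b0 (k7.2 h)) (fun h => b1 (k8.2 h)) (k6.1 b2))
    (fun b0 b1 b2 b3 => N1.i.r0 1 (fun h => b0 (k9.2 h)) (fun h => b1 (k10.2 h)) (k4.1 b2) (fun h => b3 (k11.2 h)))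
    (fun b0 b1 b2 b3 => N1.i.r1 1 (fun h => b0 (k4.2 h)) (k12.1 b1) (fun h => b2 (k13.2 h)) (fun h => b3 (k11.2 h)))
    (fun b0 b1 b2 b3 => N1.rd.r1 1 (fun h => b0 (k14.2 h)) (k15.1 b1) (fun h => b2 (k16.2 h)) (fun h => b3 (k11.2 h)))
    (fun b0 b1 b2 b3 => N1.rd.r0 1 (fun h => b0 (k17.2 h)) (fun h => b1 (k18.2 h)) (k14.1 b2) (fun h => b3 (k11.2 h)))
    (fun b0 b1 b2 => N0.i.r0 (m * g⁻¹) (k19.1 b0) (fun h => b1 (k20.2 h)) (fun h => b2 (k21.2 h)))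
    (fun b0 b1 b2 b3 => N1.i.r0 (m * g⁻¹) (fun h => b0 (k22.2 h)) (fun h => b1 (k23.2 h)) (k24.1 b2) (fun h => b3 (k25.2 h)))
    (fun b0 b1 b2 b3 => N1.i.r1 (m * g⁻¹) (fun h => b0 (k24.2 h)) (k26.1 b1) (fun h => b2 (k27.2 h)) (fun h => b3 (k25.2 h)))
    (fun b0 b1 => o.asym (k28.1 b0) (k29.1 b1))
    (fun b0 b1 => o.asym (k30.1 b0) (k31.1 b1))
    (fun b0 b1 b2 => o.tri (k30.1 b0) (fun h => b1 (k32.2 h)) (fun h => b2 (k33.2 h)))
    (fun b0 b1 b2 => o.tri (k30.1 b0) (fun h => b1 (k28.2 h)) (fun h => b2 (k34.2 h)))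
    (fun b0 b1 => o.asym (k33.1 b0) (k35.1 b1))
    (fun b0 b1 b2 => o.tri (k36.1 b0) (fun h => b1 (k37.2 h)) (fun h => b2 (k38.2 h)))
    (fun b0 b1 => o.asym (k39.1 b0) (k40.1 b1))
    (fun b0 b1 => o.asym (k38.1 b0) (k41.1 b1))
    (fun b0 b1 => o.asym (k42.1 b0) (k43.1 b1))
    (fun b0 b1 b2 => o.tri (k44.1 b0) (fun h => b1 (k45.2 h)) (fun h => b2 (k32.2 h)))
    (fun b0 b1 b2 => o.tri (k46.1 b0) (fun h => b1 (k47.2 h)) (fun h => b2 (k48.2 h)))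
    (fun b0 b1 b2 => o.tri (k41.1 b0) (fun h => b1 (k44.2 h)) (fun h => b2 (k49.2 h)))
    (fun b0 b1 b2 => o.tri (k48.1 b0) (fun h => b1 (k31.2 h)) (fun h => b2 (k28.2 h)))
    (fun b0 b1 b2 => o.tri (k50.1 b0) (fun h => b1 (k35.2 h)) (fun h => b2 (k49.2 h)))
    (fun b0 b1 b2 => o.tri (k51.1 b0) (fun h => b1 (k52.2 h)) (fun h => b2 (k32.2 h)))
    (fun b0 b1 b2 => o.tri (k53.1 b0) (fun h => b1 (k54.2 h)) (fun h => b2 (k55.2 h)))
    (fun b0 b1 b2 => o.tri (k53.1 b0) (fun h => b1 (k56.2 h)) (fun h => b2 (k57.2 h)))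
    (fun b0 b1 b2 => o.tri (k55.1 b0) (fun h => b1 (k58.2 h)) (fun h => b2 (k53.2 h)))
    (fun b0 b1 b2 => o.tri (k55.1 b0) (fun h => b1 (k59.2 h)) (fun h => b2 (k60.2 h)))
    (fun b0 b1 b2 => o.tri (k59.1 b0) (fun h => b1 (k58.2 h)) (fun h => b2 (k61.2 h)))
    (fun b0 b1 b2 => o.tri (k62.1 b0) (fun h => b1 (k57.2 h)) (fun h => b2 (k63.2 h)))
    (fun b0 b1 b2 => o.tri (k64.1 b0) (fun h => b1 (k57.2 h)) (fun h => b2 (k65.2 h)))
    (fun b0 b1 b2 => o.tri (k64.1 b0) (fun h => b1 (k66.2 h)) (fun h => b2 (k67.2 h)))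
    (fun b0 b1 b2 => o.tri (k68.1 b0) (fun h => b1 (k66.2 h)) (fun h => b2 (k69.2 h)))
    (fun b0 b1 b2 => o.tri (k70.1 b0) (fun h => b1 (k71.2 h)) (fun h => b2 (k64.2 h)))
    (fun b0 b1 b2 => o.tri (k65.1 b0) (fun h => b1 (k72.2 h)) (fun h => b2 (k73.2 h)))
    (fun b0 b1 b2 => o.tri (k74.1 b0) (fun h => b1 (k75.2 h)) (fun h => b2 (k76.2 h)))
    (fun b0 b1 b2 => o.tri (k77.1 b0) (fun h => b1 (k78.2 h)) (fun h => b2 (k79.2 h)))
    (fun b0 b1 b2 => o.tri (k80.1 b0) (fun h => b1 (k81.2 h)) (fun h => b2 (k82.2 h)))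
    (fun b0 b1 b2 => o.tri (k83.1 b0) (fun h => b1 (k84.2 h)) (fun h => b2 (k81.2 h)))
    (fun h => g0 (k32.1 h))
    (k30.2 g1)
    (fun h => g2 (k85.1 h))
    (fun h => g3 (k86.1 h))

theorem ser_ECC_0_prop {A1 A2 A3 A4 A5 A6 A7 A8 A9 A10 A11 A12 A13 A14 A15 A16 A17 A18 A19 : Prop}
    (c0 : ¬ A13 → A14 → ¬ A5 → False)
    (c1 : ¬ A13 → A11 → ¬ A5 → False)
    (c2 : ¬ A11 → ¬ A19 → A9 → False)
    (c3 : A9 → ¬ A18 → ¬ A10 → False)
    (c4 : A4 → ¬ A1 → ¬ A2 → False)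
    (c5 : A12 → A13 → False)
    (c6 : A15 → ¬ A14 → ¬ A16 → False)
    (c7 : A8 → ¬ A14 → ¬ A7 → False)
    (c8 : A16 → A18 → False)
    (c9 : A18 → ¬ A17 → ¬ A12 → False)
    (c10 : A9 → A5 → False)
    (c11 : A3 → ¬ A5 → ¬ A17 → False)
    (c12 : A7 → ¬ A15 → ¬ A10 → False)
    (c13 : A1 → ¬ A5 → ¬ A10 → False)
    (c14 : A6 → ¬ A7 → ¬ A4 → False)
    (c15 : A19 → ¬ A6 → ¬ A3 → False)
    (c16 : A2 → ¬ A3 → ¬ A8 → False)
    (u0 : A9)
    (u1 : ¬ A17)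
    (u2 : ¬ A10)
    : False := by
  have q1 : A18 := Classical.byContradiction fun h => c3 u0 h u2
  have q2 : ¬ A16 := fun h => c8 h q1
  have q3 : A12 := Classical.byContradiction fun h => c9 q1 u1 h
  have q4 : ¬ A13 := fun h => c5 q3 h
  have q5 : ¬ A5 := fun h => c10 u0 h
  have q6 : ¬ A14 := fun h => c0 q4 h q5
  have q7 : ¬ A11 := fun h => c1 q4 h q5
  have q8 : A19 := Classical.byContradiction fun h => c2 q7 h u0
  have q9 : ¬ A15 := fun h => c6 h q6 q2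
  have q10 : ¬ A3 := fun h => c11 h q5 u1
  have q11 : ¬ A7 := fun h => c12 h q9 u2
  have q12 : ¬ A8 := fun h => c7 h q6 q11
  have q13 : ¬ A1 := fun h => c13 h q5 u2
  have q14 : A6 := Classical.byContradiction fun h => c15 q8 h q10
  have q15 : A4 := Classical.byContradiction fun h => c14 q14 q11 h
  have q16 : A2 := Classical.byContradiction fun h => c4 q15 q13 h
  exact c16 q16 q10 q12

theorem ser_ECC_0 {G : Type*} [Group G] {δ : G → ZMod 3} (hδ : ∀ u v, δ (u * v) = δ u + δ v) (o : Pre δ)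
    {P m Q f g : G} {e : ZMod 3} (h3 : 3 * e = 0)
    (D : δ P = e ∧ δ m = e ∧ δ Q = -e ∧ δ f = 0 ∧ δ g = 0)
    (C : Cube P f ∧ Cube P g ∧ Cube m f ∧ Cube m g ∧ Cube Q f ∧ Cube Q g)
    (N0 : RE o P m f g)
    (N1 : RC o m Q f g)
    (g0 : o.lt (f * Q⁻¹) (g * Q⁻¹)) (g1 : ¬ o.lt (f * Q⁻¹) (P * g⁻¹)) (g2 : ¬ o.lt ((f * Q⁻¹)⁻¹) ((g * Q⁻¹)⁻¹)) : False := by
  simp only [Cube] at C
  have e0 : δ (g * (Q⁻¹ * (f * P⁻¹))) = δ (g * (Q⁻¹ * (g * P⁻¹))) := by simp only [hδ, δinv hδ, δone hδ, D] <;> linear_combination (0) * h3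
  have e1 : δ (g * (Q⁻¹ * (g * P⁻¹))) = δ (g * (Q⁻¹ * (f * m⁻¹))) := by simp only [hδ, δinv hδ, δone hδ, D] <;> linear_combination (0) * h3
  have e2 : δ (g * Q⁻¹) = δ (P * g⁻¹) := by simp only [hδ, δinv hδ, δone hδ, D] <;> linear_combination (0) * h3
  have e3 : δ (g * (Q⁻¹ * (m * f⁻¹))) = δ (g * (Q⁻¹ * (P * f⁻¹))) := by simp only [hδ, δinv hδ, δone hδ, D] <;> linear_combination (0) * h3
  have e4 : δ (g * P⁻¹) = δ (f * P⁻¹) := by simp only [hδ, δinv hδ, δone hδ, D] <;> linear_combination (0) * h3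
  have e5 : δ (g * m⁻¹) = δ (g * (Q⁻¹ * (P * g⁻¹))) := by simp only [hδ, δinv hδ, δone hδ, D] <;> linear_combination (-1) * h3
  have e6 : δ (m * g⁻¹) = δ (g * Q⁻¹) := by simp only [hδ, δinv hδ, δone hδ, D] <;> linear_combination (0) * h3
  have e7 : δ (m * f⁻¹) = δ (g * Q⁻¹) := by simp only [hδ, δinv hδ, δone hδ, D] <;> linear_combination (0) * h3
  have e8 : δ (f * P⁻¹) = δ (g * P⁻¹) := by simp only [hδ, δinv hδ, δone hδ, D] <;> linear_combination (0) * h3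
  have e9 : δ (Q * f⁻¹) = δ (Q * g⁻¹) := by simp only [hδ, δinv hδ, δone hδ, D] <;> linear_combination (0) * h3
  have e10 : δ (P * f⁻¹) = δ (P * g⁻¹) := by simp only [hδ, δinv hδ, δone hδ, D] <;> linear_combination (0) * h3
  have e11 : δ (P * f⁻¹) = δ (m * f⁻¹) := by simp only [hδ, δinv hδ, δone hδ, D] <;> linear_combination (0) * h3
  have e12 : δ (m * f⁻¹) = δ (P * f⁻¹) := by simp only [hδ, δinv hδ, δone hδ, D] <;> linear_combination (0) * h3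
  have e13 : δ (m * f⁻¹) = δ (m * g⁻¹) := by simp only [hδ, δinv hδ, δone hδ, D] <;> linear_combination (0) * h3
  have e14 : δ (m * f⁻¹) = δ (f * Q⁻¹) := by simp only [hδ, δinv hδ, δone hδ, D] <;> linear_combination (0) * h3
  have e15 : δ (m * g⁻¹) = δ (f * Q⁻¹) := by simp only [hδ, δinv hδ, δone hδ, D] <;> linear_combination (0) * h3
  have e16 : δ (f * Q⁻¹) = δ (P * g⁻¹) := by simp only [hδ, δinv hδ, δone hδ, D] <;> linear_combination (0) * h3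
  have e17 : δ (f * Q⁻¹) = δ (m * g⁻¹) := by simp only [hδ, δinv hδ, δone hδ, D] <;> linear_combination (0) * h3
  have e18 : δ (g * m⁻¹) = δ (g * P⁻¹) := by simp only [hδ, δinv hδ, δone hδ, D] <;> linear_combination (0) * h3
  have k0 : o.lt (m * f⁻¹) (P * f⁻¹) ↔ o.lt (1 * (m * f⁻¹)) (1 * (P * f⁻¹)) := o.cv hδ (1) e12 (by simp only [mul_assoc, mul_inv_rev, inv_inv, mul_inv_cancel_left, inv_mul_cancel_left, mul_inv_cancel, inv_mul_cancel, mul_one, one_mul, inv_one, C]) (by simp only [mul_assoc, mul_inv_rev, inv_inv, mul_inv_cancel_left, inv_mul_cancel_left, mul_inv_cancel, inv_mul_cancel, mul_one, one_mul, inv_one, C])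
  have k1 : o.lt (m * f⁻¹) (m * g⁻¹) ↔ o.lt (1 * (m * f⁻¹)) (1 * (m * g⁻¹)) := o.cv hδ (1) e13 (by simp only [mul_assoc, mul_inv_rev, inv_inv, mul_inv_cancel_left, inv_mul_cancel_left, mul_inv_cancel, inv_mul_cancel, mul_one, one_mul, inv_one, C]) (by simp only [mul_assoc, mul_inv_rev, inv_inv, mul_inv_cancel_left, inv_mul_cancel_left, mul_inv_cancel, inv_mul_cancel, mul_one, one_mul, inv_one, C])
  have k2 : o.lt (g * P⁻¹) (f * P⁻¹) ↔ o.lt (1 * (P * g⁻¹)⁻¹) (1 * (P * f⁻¹)⁻¹) := o.cv hδ (1) e4 (by simp only [mul_assoc, mul_inv_rev, inv_inv, mul_inv_cancel_left, inv_mul_cancel_left, mul_inv_cancel, inv_mul_cancel, mul_one, one_mul, inv_one, C]) (by simp only [mul_assoc, mul_inv_rev, inv_inv, mul_inv_cancel_left, inv_mul_cancel_left, mul_inv_cancel, inv_mul_cancel, mul_one, one_mul, inv_one, C])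
  have k3 : o.lt (m * f⁻¹) (P * f⁻¹) ↔ o.lt (1 * (m * g⁻¹)) (1 * (P * g⁻¹)) := o.cv hδ (f * g⁻¹) e12 (by simp only [mul_assoc, mul_inv_rev, inv_inv, mul_inv_cancel_left, inv_mul_cancel_left, mul_inv_cancel, inv_mul_cancel, mul_one, one_mul, inv_one, C]) (by simp only [mul_assoc, mul_inv_rev, inv_inv, mul_inv_cancel_left, inv_mul_cancel_left, mul_inv_cancel, inv_mul_cancel, mul_one, one_mul, inv_one, C])
  have k4 : o.lt (P * f⁻¹) (P * g⁻¹) ↔ o.lt (1 * (P * f⁻¹)) (1 * (P * g⁻¹)) := o.cv hδ (1) e10 (by simp only [mul_assoc, mul_inv_rev, inv_inv, mul_inv_cancel_left, inv_mul_cancel_left, mul_inv_cancel, inv_mul_cancel, mul_one, one_mul, inv_one, C]) (by simp only [mul_assoc, mul_inv_rev, inv_inv, mul_inv_cancel_left, inv_mul_cancel_left, mul_inv_cancel, inv_mul_cancel, mul_one, one_mul, inv_one, C])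
  have k5 : o.lt (g * P⁻¹) (f * P⁻¹) ↔ o.lt (1 * (m * g⁻¹)⁻¹) (1 * (m * f⁻¹)⁻¹) := o.cv hδ (P * m⁻¹) e4 (by simp only [mul_assoc, mul_inv_rev, inv_inv, mul_inv_cancel_left, inv_mul_cancel_left, mul_inv_cancel, inv_mul_cancel, mul_one, one_mul, inv_one, C]) (by simp only [mul_assoc, mul_inv_rev, inv_inv, mul_inv_cancel_left, inv_mul_cancel_left, mul_inv_cancel, inv_mul_cancel, mul_one, one_mul, inv_one, C])
  have k6 : o.lt (g * m⁻¹) (g * P⁻¹) ↔ o.lt (1 * (m * g⁻¹)⁻¹) (1 * (P * g⁻¹)⁻¹) := o.cv hδ (1) e18 (by simp only [mul_assoc, mul_inv_rev, inv_inv, mul_inv_cancel_left, inv_mul_cancel_left, mul_inv_cancel, inv_mul_cancel, mul_one, one_mul, inv_one, C]) (by simp only [mul_assoc, mul_inv_rev, inv_inv, mul_inv_cancel_left, inv_mul_cancel_left, mul_inv_cancel, inv_mul_cancel, mul_one, one_mul, inv_one, C])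
  have k7 : o.lt (f * P⁻¹) (g * P⁻¹) ↔ o.lt (1 * (P * f⁻¹)⁻¹) (1 * (P * g⁻¹)⁻¹) := o.cv hδ (1) e8 (by simp only [mul_assoc, mul_inv_rev, inv_inv, mul_inv_cancel_left, inv_mul_cancel_left, mul_inv_cancel, inv_mul_cancel, mul_one, one_mul, inv_one, C]) (by simp only [mul_assoc, mul_inv_rev, inv_inv, mul_inv_cancel_left, inv_mul_cancel_left, mul_inv_cancel, inv_mul_cancel, mul_one, one_mul, inv_one, C])
  have k8 : o.lt (f * P⁻¹) (g * P⁻¹) ↔ o.lt (1 * (f * Q⁻¹)) (1 * (g * Q⁻¹)) := o.cv hδ (P * Q⁻¹) e8 (by simp only [mul_assoc, mul_inv_rev, inv_inv, mul_inv_cancel_left, inv_mul_cancel_left, mul_inv_cancel, inv_mul_cancel, mul_one, one_mul, inv_one, C]) (by simp only [mul_assoc, mul_inv_rev, inv_inv, mul_inv_cancel_left, inv_mul_cancel_left, mul_inv_cancel, inv_mul_cancel, mul_one, one_mul, inv_one, C])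
  have k9 : o.lt (f * Q⁻¹) (m * g⁻¹) ↔ o.lt (1 * (f * Q⁻¹)) (1 * (m * g⁻¹)) := o.cv hδ (1) e17 (by simp only [mul_assoc, mul_inv_rev, inv_inv, mul_inv_cancel_left, inv_mul_cancel_left, mul_inv_cancel, inv_mul_cancel, mul_one, one_mul, inv_one, C]) (by simp only [mul_assoc, mul_inv_rev, inv_inv, mul_inv_cancel_left, inv_mul_cancel_left, mul_inv_cancel, inv_mul_cancel, mul_one, one_mul, inv_one, C])
  have k10 : o.lt (Q * f⁻¹) (Q * g⁻¹) ↔ o.lt (1 * (f * Q⁻¹)⁻¹) (1 * (g * Q⁻¹)⁻¹) := o.cv hδ (1) e9 (by simp only [mul_assoc, mul_inv_rev, inv_inv, mul_inv_cancel_left, inv_mul_cancel_left, mul_inv_cancel, inv_mul_cancel, mul_one, one_mul, inv_one, C]) (by simp only [mul_assoc, mul_inv_rev, inv_inv, mul_inv_cancel_left, inv_mul_cancel_left, mul_inv_cancel, inv_mul_cancel, mul_one, one_mul, inv_one, C])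
  have k11 : o.lt (g * (Q⁻¹ * (m * f⁻¹))) (g * (Q⁻¹ * (P * f⁻¹))) ↔ o.lt ((g * Q⁻¹) * (m * f⁻¹)) ((g * Q⁻¹) * (P * f⁻¹)) := o.cv hδ (1) e3 (by simp only [mul_assoc, mul_inv_rev, inv_inv, mul_inv_cancel_left, inv_mul_cancel_left, mul_inv_cancel, inv_mul_cancel, mul_one, one_mul, inv_one, C]) (by simp only [mul_assoc, mul_inv_rev, inv_inv, mul_inv_cancel_left, inv_mul_cancel_left, mul_inv_cancel, inv_mul_cancel, mul_one, one_mul, inv_one, C])
  have k12 : o.lt (g * (Q⁻¹ * (f * P⁻¹))) (g * (Q⁻¹ * (g * P⁻¹))) ↔ o.lt ((g * Q⁻¹) * (P * f⁻¹)⁻¹) ((g * Q⁻¹) * (P * g⁻¹)⁻¹) := o.cv hδ (1) e0 (by simp only [mul_assoc, mul_inv_rev, inv_inv, mul_inv_cancel_left, inv_mul_cancel_left, mul_inv_cancel, inv_mul_cancel, mul_one, one_mul, inv_one, C]) (by simp only [mul_assoc, mul_inv_rev, inv_inv, mul_inv_cancel_left, inv_mul_cancel_left, mul_inv_cancel, inv_mul_cancel, mul_one, one_mul, inv_one, C])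
  have k13 : o.lt (g * (Q⁻¹ * (g * P⁻¹))) (g * (Q⁻¹ * (f * m⁻¹))) ↔ o.lt ((g * Q⁻¹) * (P * g⁻¹)⁻¹) ((g * Q⁻¹) * (m * f⁻¹)⁻¹) := o.cv hδ (1) e1 (by simp only [mul_assoc, mul_inv_rev, inv_inv, mul_inv_cancel_left, inv_mul_cancel_left, mul_inv_cancel, inv_mul_cancel, mul_one, one_mul, inv_one, C]) (by simp only [mul_assoc, mul_inv_rev, inv_inv, mul_inv_cancel_left, inv_mul_cancel_left, mul_inv_cancel, inv_mul_cancel, mul_one, one_mul, inv_one, C])
  have k14 : o.lt (P * f⁻¹) (m * f⁻¹) ↔ o.lt (P * f⁻¹) (m * f⁻¹) := o.cv hδ (1) e11 (by simp only [mul_assoc, mul_inv_rev, inv_inv, mul_inv_cancel_left, inv_mul_cancel_left, mul_inv_cancel, inv_mul_cancel, mul_one, one_mul, inv_one, C]) (by simp only [mul_assoc, mul_inv_rev, inv_inv, mul_inv_cancel_left, inv_mul_cancel_left, mul_inv_cancel, inv_mul_cancel, mul_one, one_mul, inv_one, C])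
  have k15 : o.lt (m * f⁻¹) (P * f⁻¹) ↔ o.lt (m * f⁻¹) (P * f⁻¹) := o.cv hδ (1) e12 (by simp only [mul_assoc, mul_inv_rev, inv_inv, mul_inv_cancel_left, inv_mul_cancel_left, mul_inv_cancel, inv_mul_cancel, mul_one, one_mul, inv_one, C]) (by simp only [mul_assoc, mul_inv_rev, inv_inv, mul_inv_cancel_left, inv_mul_cancel_left, mul_inv_cancel, inv_mul_cancel, mul_one, one_mul, inv_one, C])
  have k16 : o.lt (m * f⁻¹) (f * Q⁻¹) ↔ o.lt (m * f⁻¹) (f * Q⁻¹) := o.cv hδ (1) e14 (by simp only [mul_assoc, mul_inv_rev, inv_inv, mul_inv_cancel_left, inv_mul_cancel_left, mul_inv_cancel, inv_mul_cancel, mul_one, one_mul, inv_one, C]) (by simp only [mul_assoc, mul_inv_rev, inv_inv, mul_inv_cancel_left, inv_mul_cancel_left, mul_inv_cancel, inv_mul_cancel, mul_one, one_mul, inv_one, C])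
  have k17 : o.lt (m * f⁻¹) (m * g⁻¹) ↔ o.lt (m * f⁻¹) (m * g⁻¹) := o.cv hδ (1) e13 (by simp only [mul_assoc, mul_inv_rev, inv_inv, mul_inv_cancel_left, inv_mul_cancel_left, mul_inv_cancel, inv_mul_cancel, mul_one, one_mul, inv_one, C]) (by simp only [mul_assoc, mul_inv_rev, inv_inv, mul_inv_cancel_left, inv_mul_cancel_left, mul_inv_cancel, inv_mul_cancel, mul_one, one_mul, inv_one, C])
  have k18 : o.lt (m * g⁻¹) (f * Q⁻¹) ↔ o.lt (m * g⁻¹) (f * Q⁻¹) := o.cv hδ (1) e15 (by simp only [mul_assoc, mul_inv_rev, inv_inv, mul_inv_cancel_left, inv_mul_cancel_left, mul_inv_cancel, inv_mul_cancel, mul_one, one_mul, inv_one, C]) (by simp only [mul_assoc, mul_inv_rev, inv_inv, mul_inv_cancel_left, inv_mul_cancel_left, mul_inv_cancel, inv_mul_cancel, mul_one, one_mul, inv_one, C])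
  have k19 : o.lt (m * f⁻¹) (g * Q⁻¹) ↔ o.lt (m * f⁻¹) (g * Q⁻¹) := o.cv hδ (1) e7 (by simp only [mul_assoc, mul_inv_rev, inv_inv, mul_inv_cancel_left, inv_mul_cancel_left, mul_inv_cancel, inv_mul_cancel, mul_one, one_mul, inv_one, C]) (by simp only [mul_assoc, mul_inv_rev, inv_inv, mul_inv_cancel_left, inv_mul_cancel_left, mul_inv_cancel, inv_mul_cancel, mul_one, one_mul, inv_one, C])
  have k20 : o.lt (m * g⁻¹) (g * Q⁻¹) ↔ o.lt (m * g⁻¹) (g * Q⁻¹) := o.cv hδ (1) e6 (by simp only [mul_assoc, mul_inv_rev, inv_inv, mul_inv_cancel_left, inv_mul_cancel_left, mul_inv_cancel, inv_mul_cancel, mul_one, one_mul, inv_one, C]) (by simp only [mul_assoc, mul_inv_rev, inv_inv, mul_inv_cancel_left, inv_mul_cancel_left, mul_inv_cancel, inv_mul_cancel, mul_one, one_mul, inv_one, C])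
  have k21 : o.lt (f * Q⁻¹) (m * g⁻¹) ↔ o.lt (f * Q⁻¹) (m * g⁻¹) := o.cv hδ (1) e17 (by simp only [mul_assoc, mul_inv_rev, inv_inv, mul_inv_cancel_left, inv_mul_cancel_left, mul_inv_cancel, inv_mul_cancel, mul_one, one_mul, inv_one, C]) (by simp only [mul_assoc, mul_inv_rev, inv_inv, mul_inv_cancel_left, inv_mul_cancel_left, mul_inv_cancel, inv_mul_cancel, mul_one, one_mul, inv_one, C])
  have k22 : o.lt (f * Q⁻¹) (P * g⁻¹) ↔ o.lt (f * Q⁻¹) (P * g⁻¹) := o.cv hδ (1) e16 (by simp only [mul_assoc, mul_inv_rev, inv_inv, mul_inv_cancel_left, inv_mul_cancel_left, mul_inv_cancel, inv_mul_cancel, mul_one, one_mul, inv_one, C]) (by simp only [mul_assoc, mul_inv_rev, inv_inv, mul_inv_cancel_left, inv_mul_cancel_left, mul_inv_cancel, inv_mul_cancel, mul_one, one_mul, inv_one, C])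
  have k23 : o.lt (P * f⁻¹) (m * f⁻¹) ↔ o.lt (P * g⁻¹) (m * g⁻¹) := o.cv hδ (f * g⁻¹) e11 (by simp only [mul_assoc, mul_inv_rev, inv_inv, mul_inv_cancel_left, inv_mul_cancel_left, mul_inv_cancel, inv_mul_cancel, mul_one, one_mul, inv_one, C]) (by simp only [mul_assoc, mul_inv_rev, inv_inv, mul_inv_cancel_left, inv_mul_cancel_left, mul_inv_cancel, inv_mul_cancel, mul_one, one_mul, inv_one, C])
  have k24 : o.lt (f * P⁻¹) (g * P⁻¹) ↔ o.lt (f * Q⁻¹) (g * Q⁻¹) := o.cv hδ (P * Q⁻¹) e8 (by simp only [mul_assoc, mul_inv_rev, inv_inv, mul_inv_cancel_left, inv_mul_cancel_left, mul_inv_cancel, inv_mul_cancel, mul_one, one_mul, inv_one, C]) (by simp only [mul_assoc, mul_inv_rev, inv_inv, mul_inv_cancel_left, inv_mul_cancel_left, mul_inv_cancel, inv_mul_cancel, mul_one, one_mul, inv_one, C])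
  have k25 : o.lt (g * P⁻¹) (f * P⁻¹) ↔ o.lt (g * Q⁻¹) (f * Q⁻¹) := o.cv hδ (P * Q⁻¹) e4 (by simp only [mul_assoc, mul_inv_rev, inv_inv, mul_inv_cancel_left, inv_mul_cancel_left, mul_inv_cancel, inv_mul_cancel, mul_one, one_mul, inv_one, C]) (by simp only [mul_assoc, mul_inv_rev, inv_inv, mul_inv_cancel_left, inv_mul_cancel_left, mul_inv_cancel, inv_mul_cancel, mul_one, one_mul, inv_one, C])
  have k26 : o.lt (g * Q⁻¹) (P * g⁻¹) ↔ o.lt (g * Q⁻¹) (P * g⁻¹) := o.cv hδ (1) e2 (by simp only [mul_assoc, mul_inv_rev, inv_inv, mul_inv_cancel_left, inv_mul_cancel_left, mul_inv_cancel, inv_mul_cancel, mul_one, one_mul, inv_one, C]) (by simp only [mul_assoc, mul_inv_rev, inv_inv, mul_inv_cancel_left, inv_mul_cancel_left, mul_inv_cancel, inv_mul_cancel, mul_one, one_mul, inv_one, C])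
  have k27 : o.lt (m * g⁻¹) (g * Q⁻¹) ↔ o.lt (m * Q⁻¹) (Q * g⁻¹) := o.cv hδ (g * Q⁻¹) e6 (by simp only [mul_assoc, mul_inv_rev, inv_inv, mul_inv_cancel_left, inv_mul_cancel_left, mul_inv_cancel, inv_mul_cancel, mul_one, one_mul, inv_one, C]) (by simp only [mul_assoc, mul_inv_rev, inv_inv, mul_inv_cancel_left, inv_mul_cancel_left, mul_inv_cancel, inv_mul_cancel, mul_one, one_mul, inv_one, C])
  have k28 : o.lt (m * f⁻¹) (f * Q⁻¹) ↔ o.lt (m * Q⁻¹) (Q * f⁻¹) := o.cv hδ (f * Q⁻¹) e14 (by simp only [mul_assoc, mul_inv_rev, inv_inv, mul_inv_cancel_left, inv_mul_cancel_left, mul_inv_cancel, inv_mul_cancel, mul_one, one_mul, inv_one, C]) (by simp only [mul_assoc, mul_inv_rev, inv_inv, mul_inv_cancel_left, inv_mul_cancel_left, mul_inv_cancel, inv_mul_cancel, mul_one, one_mul, inv_one, C])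
  have k29 : o.lt (Q * f⁻¹) (Q * g⁻¹) ↔ o.lt (Q * f⁻¹) (Q * g⁻¹) := o.cv hδ (1) e9 (by simp only [mul_assoc, mul_inv_rev, inv_inv, mul_inv_cancel_left, inv_mul_cancel_left, mul_inv_cancel, inv_mul_cancel, mul_one, one_mul, inv_one, C]) (by simp only [mul_assoc, mul_inv_rev, inv_inv, mul_inv_cancel_left, inv_mul_cancel_left, mul_inv_cancel, inv_mul_cancel, mul_one, one_mul, inv_one, C])
  have k30 : o.lt (g * (Q⁻¹ * (f * P⁻¹))) (g * (Q⁻¹ * (g * P⁻¹))) ↔ o.lt (g * (Q⁻¹ * (f * Q⁻¹))) (Q * g⁻¹) := o.cv hδ (P * Q⁻¹) e0 (by simp only [mul_assoc, mul_inv_rev, inv_inv, mul_inv_cancel_left, inv_mul_cancel_left, mul_inv_cancel, inv_mul_cancel, mul_one, one_mul, inv_one, C]) (by simp only [mul_assoc, mul_inv_rev, inv_inv, mul_inv_cancel_left, inv_mul_cancel_left, mul_inv_cancel, inv_mul_cancel, mul_one, one_mul, inv_one, C])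
  have k31 : o.lt (g * P⁻¹) (f * P⁻¹) ↔ o.lt (g * (Q⁻¹ * (f * Q⁻¹))) (Q * f⁻¹) := o.cv hδ (P * (Q⁻¹ * (f * Q⁻¹))) e4 (by simp only [mul_assoc, mul_inv_rev, inv_inv, mul_inv_cancel_left, inv_mul_cancel_left, mul_inv_cancel, inv_mul_cancel, mul_one, one_mul, inv_one, C]) (by simp only [mul_assoc, mul_inv_rev, inv_inv, mul_inv_cancel_left, inv_mul_cancel_left, mul_inv_cancel, inv_mul_cancel, mul_one, one_mul, inv_one, C])
  have k32 : o.lt (g * m⁻¹) (g * (Q⁻¹ * (P * g⁻¹))) ↔ o.lt (g * m⁻¹) (g * (Q⁻¹ * (P * g⁻¹))) := o.cv hδ (1) e5 (by simp only [mul_assoc, mul_inv_rev, inv_inv, mul_inv_cancel_left, inv_mul_cancel_left, mul_inv_cancel, inv_mul_cancel, mul_one, one_mul, inv_one, C]) (by simp only [mul_assoc, mul_inv_rev, inv_inv, mul_inv_cancel_left, inv_mul_cancel_left, mul_inv_cancel, inv_mul_cancel, mul_one, one_mul, inv_one, C])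
  have k33 : o.lt (m * g⁻¹) (g * Q⁻¹) ↔ o.lt (g * m⁻¹) (g * (Q⁻¹ * (m * g⁻¹))) := o.cv hδ (g * (m⁻¹ * (g * m⁻¹))) e6 (by simp only [mul_assoc, mul_inv_rev, inv_inv, mul_inv_cancel_left, inv_mul_cancel_left, mul_inv_cancel, inv_mul_cancel, mul_one, one_mul, inv_one, C]) (by simp only [mul_assoc, mul_inv_rev, inv_inv, mul_inv_cancel_left, inv_mul_cancel_left, mul_inv_cancel, inv_mul_cancel, mul_one, one_mul, inv_one, C])
  have k34 : o.lt (g * (Q⁻¹ * (m * f⁻¹))) (g * (Q⁻¹ * (P * f⁻¹))) ↔ o.lt (g * (Q⁻¹ * (m * g⁻¹))) (g * (Q⁻¹ * (P * g⁻¹))) := o.cv hδ (f * g⁻¹) e3 (by simp only [mul_assoc, mul_inv_rev, inv_inv, mul_inv_cancel_left, inv_mul_cancel_left, mul_inv_cancel, inv_mul_cancel, mul_one, one_mul, inv_one, C]) (by simp only [mul_assoc, mul_inv_rev, inv_inv, mul_inv_cancel_left, inv_mul_cancel_left, mul_inv_cancel, inv_mul_cancel, mul_one, one_mul, inv_one, C])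
  have k35 : o.lt (g * m⁻¹) (g * P⁻¹) ↔ o.lt (g * m⁻¹) (g * P⁻¹) := o.cv hδ (1) e18 (by simp only [mul_assoc, mul_inv_rev, inv_inv, mul_inv_cancel_left, inv_mul_cancel_left, mul_inv_cancel, inv_mul_cancel, mul_one, one_mul, inv_one, C]) (by simp only [mul_assoc, mul_inv_rev, inv_inv, mul_inv_cancel_left, inv_mul_cancel_left, mul_inv_cancel, inv_mul_cancel, mul_one, one_mul, inv_one, C])
  have k36 : o.lt (g * Q⁻¹) (P * g⁻¹) ↔ o.lt (g * (Q⁻¹ * (P * g⁻¹))) (g * P⁻¹) := o.cv hδ (P * g⁻¹) e2 (by simp only [mul_assoc, mul_inv_rev, inv_inv, mul_inv_cancel_left, inv_mul_cancel_left, mul_inv_cancel, inv_mul_cancel, mul_one, one_mul, inv_one, C]) (by simp only [mul_assoc, mul_inv_rev, inv_inv, mul_inv_cancel_left, inv_mul_cancel_left, mul_inv_cancel, inv_mul_cancel, mul_one, one_mul, inv_one, C])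
  have k37 : o.lt (g * (Q⁻¹ * (g * P⁻¹))) (g * (Q⁻¹ * (f * m⁻¹))) ↔ o.lt (g * (Q⁻¹ * (g * P⁻¹))) (g * (Q⁻¹ * (f * m⁻¹))) := o.cv hδ (1) e1 (by simp only [mul_assoc, mul_inv_rev, inv_inv, mul_inv_cancel_left, inv_mul_cancel_left, mul_inv_cancel, inv_mul_cancel, mul_one, one_mul, inv_one, C]) (by simp only [mul_assoc, mul_inv_rev, inv_inv, mul_inv_cancel_left, inv_mul_cancel_left, mul_inv_cancel, inv_mul_cancel, mul_one, one_mul, inv_one, C])
  have k38 : o.lt (g * Q⁻¹) (P * g⁻¹) ↔ o.lt (g * (Q⁻¹ * (g * P⁻¹))) (1) := o.cv hδ (g * P⁻¹) e2 (by simp only [mul_assoc, mul_inv_rev, inv_inv, mul_inv_cancel_left, inv_mul_cancel_left, mul_inv_cancel, inv_mul_cancel, mul_one, one_mul, inv_one, C]) (by simp only [mul_assoc, mul_inv_rev, inv_inv, mul_inv_cancel_left, inv_mul_cancel_left, mul_inv_cancel, inv_mul_cancel, mul_one, one_mul, inv_one, C])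
  have k39 : o.lt (m * f⁻¹) (g * Q⁻¹) ↔ o.lt (1) (g * (Q⁻¹ * (f * m⁻¹))) := o.cv hδ (f * m⁻¹) e7 (by simp only [mul_assoc, mul_inv_rev, inv_inv, mul_inv_cancel_left, inv_mul_cancel_left, mul_inv_cancel, inv_mul_cancel, mul_one, one_mul, inv_one, C]) (by simp only [mul_assoc, mul_inv_rev, inv_inv, mul_inv_cancel_left, inv_mul_cancel_left, mul_inv_cancel, inv_mul_cancel, mul_one, one_mul, inv_one, C])
  have k40 : o.lt (Q * f⁻¹) (Q * g⁻¹) ↔ o.lt ((f * Q⁻¹)⁻¹) ((g * Q⁻¹)⁻¹) := o.cv hδ (1) e9 (by simp only [mul_assoc, mul_inv_rev, inv_inv, mul_inv_cancel_left, inv_mul_cancel_left, mul_inv_cancel, inv_mul_cancel, mul_one, one_mul, inv_one, C]) (by simp only [mul_assoc, mul_inv_rev, inv_inv, mul_inv_cancel_left, inv_mul_cancel_left, mul_inv_cancel, inv_mul_cancel, mul_one, one_mul, inv_one, C])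
  exact ser_ECC_0_prop
    (fun b0 b1 b2 => N0.i.r1 1 (fun h => b0 (k0.2 h)) (k1.1 b1) (fun h => b2 (k2.2 h)))
    (fun b0 b1 b2 => N0.rd.r1 1 (fun h => b0 (k3.2 h)) (k4.1 b1) (fun h => b2 (k5.2 h)))
    (fun b0 b1 b2 => N0.i.r2 1 (fun h => b0 (k4.2 h)) (fun h => b1 (k6.2 h)) (k7.1 b2))
    (fun b0 b1 b2 => N1.i.r0 1 (k8.1 b0) (fun h => b1 (k9.2 h)) (fun h => b2 (k10.2 h)))
    (fun b0 b1 b2 => N0.d.r0 (g * Q⁻¹) (k11.1 b0) (fun h => b1 (k12.2 h)) (fun h => b2 (k13.2 h)))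
    (fun b0 b1 => o.asym (k14.1 b0) (k15.1 b1))
    (fun b0 b1 b2 => o.tri (k16.1 b0) (fun h => b1 (k17.2 h)) (fun h => b2 (k18.2 h)))
    (fun b0 b1 b2 => o.tri (k19.1 b0) (fun h => b1 (k17.2 h)) (fun h => b2 (k20.2 h)))
    (fun b0 b1 => o.asym (k18.1 b0) (k21.1 b1))
    (fun b0 b1 b2 => o.tri (k21.1 b0) (fun h => b1 (k22.2 h)) (fun h => b2 (k23.2 h)))
    (fun b0 b1 => o.asym (k24.1 b0) (k25.1 b1))
    (fun b0 b1 b2 => o.tri (k26.1 b0) (fun h => b1 (k25.2 h)) (fun h => b2 (k22.2 h)))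
    (fun b0 b1 b2 => o.tri (k27.1 b0) (fun h => b1 (k28.2 h)) (fun h => b2 (k29.2 h)))
    (fun b0 b1 b2 => o.tri (k30.1 b0) (fun h => b1 (k31.2 h)) (fun h => b2 (k29.2 h)))
    (fun b0 b1 b2 => o.tri (k32.1 b0) (fun h => b1 (k33.2 h)) (fun h => b2 (k34.2 h)))
    (fun b0 b1 b2 => o.tri (k35.1 b0) (fun h => b1 (k32.2 h)) (fun h => b2 (k36.2 h)))
    (fun b0 b1 b2 => o.tri (k37.1 b0) (fun h => b1 (k38.2 h)) (fun h => b2 (k39.2 h)))
    (k24.2 g0)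
    (fun h => g1 (k22.1 h))
    (fun h => g2 (k40.1 h))

theorem ser_ECC_1_prop {A1 A2 A3 A4 A5 A6 A7 A8 A9 A10 A11 A12 A13 A14 A15 A16 A17 A18 : Prop}
    (c0 : A7 → ¬ A9 → ¬ A5 → False)
    (c1 : ¬ A1 → A10 → ¬ A9 → False)
    (c2 : ¬ A7 → A13 → ¬ A4 → False)
    (c3 : ¬ A13 → A11 → ¬ A16 → ¬ A9 → False)
    (c4 : ¬ A10 → A17 → ¬ A14 → ¬ A4 → False)
    (c5 : A12 → ¬ A4 → ¬ A16 → ¬ A9 → False)
    (c6 : A7 → A1 → False)
    (c7 : A8 → A3 → False)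
    (c8 : A8 → ¬ A7 → ¬ A15 → False)
    (c9 : A14 → A16 → False)
    (c10 : A15 → ¬ A13 → ¬ A11 → False)
    (c11 : A2 → ¬ A4 → ¬ A3 → False)
    (c12 : A16 → ¬ A2 → ¬ A7 → False)
    (c13 : A16 → ¬ A4 → ¬ A18 → False)
    (c14 : A18 → ¬ A17 → ¬ A10 → False)
    (c15 : A5 → ¬ A12 → ¬ A6 → False)
    (u0 : A8)
    (u1 : ¬ A4)
    (u2 : ¬ A6)
    (u3 : ¬ A9)
    : False := by
  have q1 : ¬ A3 := fun h => c7 u0 h
  have q2 : ¬ A2 := fun h => c11 h u1 q1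
  rcases Classical.em A7 with q3 | q3
  · have q4 : A5 := Classical.byContradiction fun h => c0 q3 u3 h
    have q5 : ¬ A1 := fun h => c6 q3 h
    have q6 : ¬ A10 := fun h => c1 q5 h u3
    have q7 : A12 := Classical.byContradiction fun h => c15 q4 h u2
    have q8 : A16 := Classical.byContradiction fun h => c5 q7 u1 h u3
    have q9 : ¬ A14 := fun h => c9 h q8
    have q10 : ¬ A17 := fun h => c4 q6 h q9 u1
    have q11 : A18 := Classical.byContradiction fun h => c13 q8 u1 h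
    exact c14 q11 q10 q6
  · have q12 : ¬ A13 := fun h => c2 q3 h u1
    have q13 : A15 := Classical.byContradiction fun h => c8 u0 q3 h
    have q14 : A11 := Classical.byContradiction fun h => c10 q13 q12 h
    have q15 : A16 := Classical.byContradiction fun h => c3 q12 q14 h u3
    exact c12 q15 q2 q3

theorem ser_ECC_1 {G : Type*} [Group G] {δ : G → ZMod 3} (hδ : ∀ u v, δ (u * v) = δ u + δ v) (o : Pre δ)
    {P m Q f g : G} {e : ZMod 3} (h3 : 3 * e = 0)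
    (D : δ P = e ∧ δ m = e ∧ δ Q = -e ∧ δ f = 0 ∧ δ g = 0)
    (C : Cube P f ∧ Cube P g ∧ Cube m f ∧ Cube m g ∧ Cube Q f ∧ Cube Q g)
    (N0 : RE o P m f g)
    (N1 : RC o m Q f g)
    (g0 : o.lt (P * g⁻¹) (g * Q⁻¹)) (g1 : ¬ o.lt (f * Q⁻¹) (g * Q⁻¹)) (g2 : ¬ o.lt ((f * Q⁻¹)⁻¹) ((P * g⁻¹)⁻¹)) (g3 : ¬ o.lt (g) (f)) : False := by
  simp only [Cube] at C
  have e0 : δ (m * f⁻¹) = δ (P * f⁻¹) := by simp only [hδ, δinv hδ, δone hδ, D] <;> linear_combination (0) * h3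
  have e1 : δ (f * Q⁻¹) = δ (P * g⁻¹) := by simp only [hδ, δinv hδ, δone hδ, D] <;> linear_combination (0) * h3
  have e2 : δ (g * Q⁻¹) = δ (P * g⁻¹) := by simp only [hδ, δinv hδ, δone hδ, D] <;> linear_combination (0) * h3
  have e3 : δ (f * P⁻¹) = δ (g * P⁻¹) := by simp only [hδ, δinv hδ, δone hδ, D] <;> linear_combination (0) * h3
  have e4 : δ (f * m⁻¹) = δ (g * P⁻¹) := by simp only [hδ, δinv hδ, δone hδ, D] <;> linear_combination (0) * h3
  have e5 : δ (Q * f⁻¹) = δ (g * P⁻¹) := by simp only [hδ, δinv hδ, δone hδ, D] <;> linear_combination (0) * h3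
  have e6 : δ (P * f⁻¹) = δ (m * f⁻¹) := by simp only [hδ, δinv hδ, δone hδ, D] <;> linear_combination (0) * h3
  have e7 : δ (P * g⁻¹) = δ (g * Q⁻¹) := by simp only [hδ, δinv hδ, δone hδ, D] <;> linear_combination (0) * h3
  have e8 : δ (g * P⁻¹) = δ (f * P⁻¹) := by simp only [hδ, δinv hδ, δone hδ, D] <;> linear_combination (0) * h3
  have e9 : δ (m * f⁻¹) = δ (m * g⁻¹) := by simp only [hδ, δinv hδ, δone hδ, D] <;> linear_combination (0) * h3
  have e10 : δ (m * f⁻¹) = δ (g * Q⁻¹) := by simp only [hδ, δinv hδ, δone hδ, D] <;> linear_combination (0) * h3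
  have e11 : δ (f * m⁻¹) = δ (Q * f⁻¹) := by simp only [hδ, δinv hδ, δone hδ, D] <;> linear_combination (0) * h3
  have e12 : δ (m * g⁻¹) = δ (m * f⁻¹) := by simp only [hδ, δinv hδ, δone hδ, D] <;> linear_combination (0) * h3
  have e13 : δ (m * g⁻¹) = δ (f * Q⁻¹) := by simp only [hδ, δinv hδ, δone hδ, D] <;> linear_combination (0) * h3
  have e14 : δ (m * g⁻¹) = δ (g * Q⁻¹) := by simp only [hδ, δinv hδ, δone hδ, D] <;> linear_combination (0) * h3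
  have e15 : δ (f * Q⁻¹) = δ (m * g⁻¹) := by simp only [hδ, δinv hδ, δone hδ, D] <;> linear_combination (0) * h3
  have e16 : δ (g * Q⁻¹) = δ (m * f⁻¹) := by simp only [hδ, δinv hδ, δone hδ, D] <;> linear_combination (0) * h3
  have e17 : δ (g * Q⁻¹) = δ (m * g⁻¹) := by simp only [hδ, δinv hδ, δone hδ, D] <;> linear_combination (0) * h3
  have k0 : o.lt (P * f⁻¹) (m * f⁻¹) ↔ o.lt (1 * (P * f⁻¹)) (1 * (m * f⁻¹)) := o.cv hδ (1) e6 (by simp only [mul_assoc, mul_inv_rev, inv_inv, mul_inv_cancel_left, inv_mul_cancel_left, mul_inv_cancel, inv_mul_cancel, mul_one, one_mul, inv_one, C]) (by simp only [mul_assoc, mul_inv_rev, inv_inv, mul_inv_cancel_left, inv_mul_cancel_left, mul_inv_cancel, inv_mul_cancel, mul_one, one_mul, inv_one, C])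
  have k1 : o.lt (g * P⁻¹) (f * P⁻¹) ↔ o.lt (1 * (P * g⁻¹)⁻¹) (1 * (P * f⁻¹)⁻¹) := o.cv hδ (1) e8 (by simp only [mul_assoc, mul_inv_rev, inv_inv, mul_inv_cancel_left, inv_mul_cancel_left, mul_inv_cancel, inv_mul_cancel, mul_one, one_mul, inv_one, C]) (by simp only [mul_assoc, mul_inv_rev, inv_inv, mul_inv_cancel_left, inv_mul_cancel_left, mul_inv_cancel, inv_mul_cancel, mul_one, one_mul, inv_one, C])
  have k2 : o.lt (f * m⁻¹) (g * P⁻¹) ↔ o.lt (1 * (m * f⁻¹)⁻¹) (1 * (P * g⁻¹)⁻¹) := o.cv hδ (1) e4 (by simp only [mul_assoc, mul_inv_rev, inv_inv, mul_inv_cancel_left, inv_mul_cancel_left, mul_inv_cancel, inv_mul_cancel, mul_one, one_mul, inv_one, C]) (by simp only [mul_assoc, mul_inv_rev, inv_inv, mul_inv_cancel_left, inv_mul_cancel_left, mul_inv_cancel, inv_mul_cancel, mul_one, one_mul, inv_one, C])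
  have k3 : o.lt (m * f⁻¹) (P * f⁻¹) ↔ o.lt (1 * (m * f⁻¹)) (1 * (P * f⁻¹)) := o.cv hδ (1) e0 (by simp only [mul_assoc, mul_inv_rev, inv_inv, mul_inv_cancel_left, inv_mul_cancel_left, mul_inv_cancel, inv_mul_cancel, mul_one, one_mul, inv_one, C]) (by simp only [mul_assoc, mul_inv_rev, inv_inv, mul_inv_cancel_left, inv_mul_cancel_left, mul_inv_cancel, inv_mul_cancel, mul_one, one_mul, inv_one, C])
  have k4 : o.lt (m * f⁻¹) (m * g⁻¹) ↔ o.lt (1 * (m * f⁻¹)) (1 * (m * g⁻¹)) := o.cv hδ (1) e9 (by simp only [mul_assoc, mul_inv_rev, inv_inv, mul_inv_cancel_left, inv_mul_cancel_left, mul_inv_cancel, inv_mul_cancel, mul_one, one_mul, inv_one, C]) (by simp only [mul_assoc, mul_inv_rev, inv_inv, mul_inv_cancel_left, inv_mul_cancel_left, mul_inv_cancel, inv_mul_cancel, mul_one, one_mul, inv_one, C])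
  have k5 : o.lt (m * g⁻¹) (m * f⁻¹) ↔ o.lt (1 * (m * g⁻¹)) (1 * (m * f⁻¹)) := o.cv hδ (1) e12 (by simp only [mul_assoc, mul_inv_rev, inv_inv, mul_inv_cancel_left, inv_mul_cancel_left, mul_inv_cancel, inv_mul_cancel, mul_one, one_mul, inv_one, C]) (by simp only [mul_assoc, mul_inv_rev, inv_inv, mul_inv_cancel_left, inv_mul_cancel_left, mul_inv_cancel, inv_mul_cancel, mul_one, one_mul, inv_one, C])
  have k6 : o.lt (f * P⁻¹) (g * P⁻¹) ↔ o.lt (1 * (P * f⁻¹)⁻¹) (1 * (P * g⁻¹)⁻¹) := o.cv hδ (1) e3 (by simp only [mul_assoc, mul_inv_rev, inv_inv, mul_inv_cancel_left, inv_mul_cancel_left, mul_inv_cancel, inv_mul_cancel, mul_one, one_mul, inv_one, C]) (by simp only [mul_assoc, mul_inv_rev, inv_inv, mul_inv_cancel_left, inv_mul_cancel_left, mul_inv_cancel, inv_mul_cancel, mul_one, one_mul, inv_one, C])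
  have k7 : o.lt (m * f⁻¹) (g * Q⁻¹) ↔ o.lt (1 * (m * f⁻¹)) (1 * (g * Q⁻¹)) := o.cv hδ (1) e10 (by simp only [mul_assoc, mul_inv_rev, inv_inv, mul_inv_cancel_left, inv_mul_cancel_left, mul_inv_cancel, inv_mul_cancel, mul_one, one_mul, inv_one, C]) (by simp only [mul_assoc, mul_inv_rev, inv_inv, mul_inv_cancel_left, inv_mul_cancel_left, mul_inv_cancel, inv_mul_cancel, mul_one, one_mul, inv_one, C])
  have k8 : o.lt (f * Q⁻¹) (m * g⁻¹) ↔ o.lt (1 * (f * Q⁻¹)) (1 * (m * g⁻¹)) := o.cv hδ (1) e15 (by simp only [mul_assoc, mul_inv_rev, inv_inv, mul_inv_cancel_left, inv_mul_cancel_left, mul_inv_cancel, inv_mul_cancel, mul_one, one_mul, inv_one, C]) (by simp only [mul_assoc, mul_inv_rev, inv_inv, mul_inv_cancel_left, inv_mul_cancel_left, mul_inv_cancel, inv_mul_cancel, mul_one, one_mul, inv_one, C])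
  have k9 : o.lt (g * P⁻¹) (f * P⁻¹) ↔ o.lt (1 * g) (1 * f) := o.cv hδ (P) e8 (by simp only [mul_assoc, mul_inv_rev, inv_inv, mul_inv_cancel_left, inv_mul_cancel_left, mul_inv_cancel, inv_mul_cancel, mul_one, one_mul, inv_one, C]) (by simp only [mul_assoc, mul_inv_rev, inv_inv, mul_inv_cancel_left, inv_mul_cancel_left, mul_inv_cancel, inv_mul_cancel, mul_one, one_mul, inv_one, C])
  have k10 : o.lt (g * Q⁻¹) (m * f⁻¹) ↔ o.lt (1 * (g * Q⁻¹)) (1 * (m * f⁻¹)) := o.cv hδ (1) e16 (by simp only [mul_assoc, mul_inv_rev, inv_inv, mul_inv_cancel_left, inv_mul_cancel_left, mul_inv_cancel, inv_mul_cancel, mul_one, one_mul, inv_one, C]) (by simp only [mul_assoc, mul_inv_rev, inv_inv, mul_inv_cancel_left, inv_mul_cancel_left, mul_inv_cancel, inv_mul_cancel, mul_one, one_mul, inv_one, C])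
  have k11 : o.lt (m * g⁻¹) (f * Q⁻¹) ↔ o.lt (1 * (m * g⁻¹)) (1 * (f * Q⁻¹)) := o.cv hδ (1) e13 (by simp only [mul_assoc, mul_inv_rev, inv_inv, mul_inv_cancel_left, inv_mul_cancel_left, mul_inv_cancel, inv_mul_cancel, mul_one, one_mul, inv_one, C]) (by simp only [mul_assoc, mul_inv_rev, inv_inv, mul_inv_cancel_left, inv_mul_cancel_left, mul_inv_cancel, inv_mul_cancel, mul_one, one_mul, inv_one, C])
  have k12 : o.lt (f * P⁻¹) (g * P⁻¹) ↔ o.lt (1 * f) (1 * g) := o.cv hδ (P) e3 (by simp only [mul_assoc, mul_inv_rev, inv_inv, mul_inv_cancel_left, inv_mul_cancel_left, mul_inv_cancel, inv_mul_cancel, mul_one, one_mul, inv_one, C]) (by simp only [mul_assoc, mul_inv_rev, inv_inv, mul_inv_cancel_left, inv_mul_cancel_left, mul_inv_cancel, inv_mul_cancel, mul_one, one_mul, inv_one, C])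
  have k13 : o.lt (f * m⁻¹) (Q * f⁻¹) ↔ o.lt (1 * (f * m⁻¹)) (1 * (Q * f⁻¹)) := o.cv hδ (1) e11 (by simp only [mul_assoc, mul_inv_rev, inv_inv, mul_inv_cancel_left, inv_mul_cancel_left, mul_inv_cancel, inv_mul_cancel, mul_one, one_mul, inv_one, C]) (by simp only [mul_assoc, mul_inv_rev, inv_inv, mul_inv_cancel_left, inv_mul_cancel_left, mul_inv_cancel, inv_mul_cancel, mul_one, one_mul, inv_one, C])
  have k14 : o.lt (f * P⁻¹) (g * P⁻¹) ↔ o.lt (1 * (f * m⁻¹)) (1 * (g * m⁻¹)) := o.cv hδ (P * m⁻¹) e3 (by simp only [mul_assoc, mul_inv_rev, inv_inv, mul_inv_cancel_left, inv_mul_cancel_left, mul_inv_cancel, inv_mul_cancel, mul_one, one_mul, inv_one, C]) (by simp only [mul_assoc, mul_inv_rev, inv_inv, mul_inv_cancel_left, inv_mul_cancel_left, mul_inv_cancel, inv_mul_cancel, mul_one, one_mul, inv_one, C])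
  have k15 : o.lt (f * Q⁻¹) (m * g⁻¹) ↔ o.lt (1 * (Q * f⁻¹)⁻¹) (1 * (g * m⁻¹)⁻¹) := o.cv hδ (1) e15 (by simp only [mul_assoc, mul_inv_rev, inv_inv, mul_inv_cancel_left, inv_mul_cancel_left, mul_inv_cancel, inv_mul_cancel, mul_one, one_mul, inv_one, C]) (by simp only [mul_assoc, mul_inv_rev, inv_inv, mul_inv_cancel_left, inv_mul_cancel_left, mul_inv_cancel, inv_mul_cancel, mul_one, one_mul, inv_one, C])
  have k16 : o.lt (P * f⁻¹) (m * f⁻¹) ↔ o.lt (P * f⁻¹) (m * f⁻¹) := o.cv hδ (1) e6 (by simp only [mul_assoc, mul_inv_rev, inv_inv, mul_inv_cancel_left, inv_mul_cancel_left, mul_inv_cancel, inv_mul_cancel, mul_one, one_mul, inv_one, C]) (by simp only [mul_assoc, mul_inv_rev, inv_inv, mul_inv_cancel_left, inv_mul_cancel_left, mul_inv_cancel, inv_mul_cancel, mul_one, one_mul, inv_one, C])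
  have k17 : o.lt (m * f⁻¹) (P * f⁻¹) ↔ o.lt (m * f⁻¹) (P * f⁻¹) := o.cv hδ (1) e0 (by simp only [mul_assoc, mul_inv_rev, inv_inv, mul_inv_cancel_left, inv_mul_cancel_left, mul_inv_cancel, inv_mul_cancel, mul_one, one_mul, inv_one, C]) (by simp only [mul_assoc, mul_inv_rev, inv_inv, mul_inv_cancel_left, inv_mul_cancel_left, mul_inv_cancel, inv_mul_cancel, mul_one, one_mul, inv_one, C])
  have k18 : o.lt (P * g⁻¹) (g * Q⁻¹) ↔ o.lt (P * g⁻¹) (g * Q⁻¹) := o.cv hδ (1) e7 (by simp only [mul_assoc, mul_inv_rev, inv_inv, mul_inv_cancel_left, inv_mul_cancel_left, mul_inv_cancel, inv_mul_cancel, mul_one, one_mul, inv_one, C]) (by simp only [mul_assoc, mul_inv_rev, inv_inv, mul_inv_cancel_left, inv_mul_cancel_left, mul_inv_cancel, inv_mul_cancel, mul_one, one_mul, inv_one, C])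
  have k19 : o.lt (g * Q⁻¹) (P * g⁻¹) ↔ o.lt (g * Q⁻¹) (P * g⁻¹) := o.cv hδ (1) e2 (by simp only [mul_assoc, mul_inv_rev, inv_inv, mul_inv_cancel_left, inv_mul_cancel_left, mul_inv_cancel, inv_mul_cancel, mul_one, one_mul, inv_one, C]) (by simp only [mul_assoc, mul_inv_rev, inv_inv, mul_inv_cancel_left, inv_mul_cancel_left, mul_inv_cancel, inv_mul_cancel, mul_one, one_mul, inv_one, C])
  have k20 : o.lt (P * f⁻¹) (m * f⁻¹) ↔ o.lt (P * g⁻¹) (m * g⁻¹) := o.cv hδ (f * g⁻¹) e6 (by simp only [mul_assoc, mul_inv_rev, inv_inv, mul_inv_cancel_left, inv_mul_cancel_left, mul_inv_cancel, inv_mul_cancel, mul_one, one_mul, inv_one, C]) (by simp only [mul_assoc, mul_inv_rev, inv_inv, mul_inv_cancel_left, inv_mul_cancel_left, mul_inv_cancel, inv_mul_cancel, mul_one, one_mul, inv_one, C])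
  have k21 : o.lt (m * g⁻¹) (g * Q⁻¹) ↔ o.lt (m * g⁻¹) (g * Q⁻¹) := o.cv hδ (1) e14 (by simp only [mul_assoc, mul_inv_rev, inv_inv, mul_inv_cancel_left, inv_mul_cancel_left, mul_inv_cancel, inv_mul_cancel, mul_one, one_mul, inv_one, C]) (by simp only [mul_assoc, mul_inv_rev, inv_inv, mul_inv_cancel_left, inv_mul_cancel_left, mul_inv_cancel, inv_mul_cancel, mul_one, one_mul, inv_one, C])
  have k22 : o.lt (m * g⁻¹) (f * Q⁻¹) ↔ o.lt (m * g⁻¹) (f * Q⁻¹) := o.cv hδ (1) e13 (by simp only [mul_assoc, mul_inv_rev, inv_inv, mul_inv_cancel_left, inv_mul_cancel_left, mul_inv_cancel, inv_mul_cancel, mul_one, one_mul, inv_one, C]) (by simp only [mul_assoc, mul_inv_rev, inv_inv, mul_inv_cancel_left, inv_mul_cancel_left, mul_inv_cancel, inv_mul_cancel, mul_one, one_mul, inv_one, C])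
  have k23 : o.lt (f * Q⁻¹) (m * g⁻¹) ↔ o.lt (f * Q⁻¹) (m * g⁻¹) := o.cv hδ (1) e15 (by simp only [mul_assoc, mul_inv_rev, inv_inv, mul_inv_cancel_left, inv_mul_cancel_left, mul_inv_cancel, inv_mul_cancel, mul_one, one_mul, inv_one, C]) (by simp only [mul_assoc, mul_inv_rev, inv_inv, mul_inv_cancel_left, inv_mul_cancel_left, mul_inv_cancel, inv_mul_cancel, mul_one, one_mul, inv_one, C])
  have k24 : o.lt (m * g⁻¹) (m * f⁻¹) ↔ o.lt (m * g⁻¹) (m * f⁻¹) := o.cv hδ (1) e12 (by simp only [mul_assoc, mul_inv_rev, inv_inv, mul_inv_cancel_left, inv_mul_cancel_left, mul_inv_cancel, inv_mul_cancel, mul_one, one_mul, inv_one, C]) (by simp only [mul_assoc, mul_inv_rev, inv_inv, mul_inv_cancel_left, inv_mul_cancel_left, mul_inv_cancel, inv_mul_cancel, mul_one, one_mul, inv_one, C])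
  have k25 : o.lt (m * f⁻¹) (g * Q⁻¹) ↔ o.lt (m * f⁻¹) (g * Q⁻¹) := o.cv hδ (1) e10 (by simp only [mul_assoc, mul_inv_rev, inv_inv, mul_inv_cancel_left, inv_mul_cancel_left, mul_inv_cancel, inv_mul_cancel, mul_one, one_mul, inv_one, C]) (by simp only [mul_assoc, mul_inv_rev, inv_inv, mul_inv_cancel_left, inv_mul_cancel_left, mul_inv_cancel, inv_mul_cancel, mul_one, one_mul, inv_one, C])
  have k26 : o.lt (f * Q⁻¹) (P * g⁻¹) ↔ o.lt (f * Q⁻¹) (P * g⁻¹) := o.cv hδ (1) e1 (by simp only [mul_assoc, mul_inv_rev, inv_inv, mul_inv_cancel_left, inv_mul_cancel_left, mul_inv_cancel, inv_mul_cancel, mul_one, one_mul, inv_one, C]) (by simp only [mul_assoc, mul_inv_rev, inv_inv, mul_inv_cancel_left, inv_mul_cancel_left, mul_inv_cancel, inv_mul_cancel, mul_one, one_mul, inv_one, C])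
  have k27 : o.lt (f * P⁻¹) (g * P⁻¹) ↔ o.lt (f * Q⁻¹) (g * Q⁻¹) := o.cv hδ (P * Q⁻¹) e3 (by simp only [mul_assoc, mul_inv_rev, inv_inv, mul_inv_cancel_left, inv_mul_cancel_left, mul_inv_cancel, inv_mul_cancel, mul_one, one_mul, inv_one, C]) (by simp only [mul_assoc, mul_inv_rev, inv_inv, mul_inv_cancel_left, inv_mul_cancel_left, mul_inv_cancel, inv_mul_cancel, mul_one, one_mul, inv_one, C])
  have k28 : o.lt (g * Q⁻¹) (m * g⁻¹) ↔ o.lt (g * Q⁻¹) (m * g⁻¹) := o.cv hδ (1) e17 (by simp only [mul_assoc, mul_inv_rev, inv_inv, mul_inv_cancel_left, inv_mul_cancel_left, mul_inv_cancel, inv_mul_cancel, mul_one, one_mul, inv_one, C]) (by simp only [mul_assoc, mul_inv_rev, inv_inv, mul_inv_cancel_left, inv_mul_cancel_left, mul_inv_cancel, inv_mul_cancel, mul_one, one_mul, inv_one, C])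
  have k29 : o.lt (g * Q⁻¹) (m * f⁻¹) ↔ o.lt (g * Q⁻¹) (m * f⁻¹) := o.cv hδ (1) e16 (by simp only [mul_assoc, mul_inv_rev, inv_inv, mul_inv_cancel_left, inv_mul_cancel_left, mul_inv_cancel, inv_mul_cancel, mul_one, one_mul, inv_one, C]) (by simp only [mul_assoc, mul_inv_rev, inv_inv, mul_inv_cancel_left, inv_mul_cancel_left, mul_inv_cancel, inv_mul_cancel, mul_one, one_mul, inv_one, C])
  have k30 : o.lt (m * f⁻¹) (m * g⁻¹) ↔ o.lt (m * f⁻¹) (m * g⁻¹) := o.cv hδ (1) e9 (by simp only [mul_assoc, mul_inv_rev, inv_inv, mul_inv_cancel_left, inv_mul_cancel_left, mul_inv_cancel, inv_mul_cancel, mul_one, one_mul, inv_one, C]) (by simp only [mul_assoc, mul_inv_rev, inv_inv, mul_inv_cancel_left, inv_mul_cancel_left, mul_inv_cancel, inv_mul_cancel, mul_one, one_mul, inv_one, C])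
  have k31 : o.lt (f * m⁻¹) (g * P⁻¹) ↔ o.lt (f * m⁻¹) (g * P⁻¹) := o.cv hδ (1) e4 (by simp only [mul_assoc, mul_inv_rev, inv_inv, mul_inv_cancel_left, inv_mul_cancel_left, mul_inv_cancel, inv_mul_cancel, mul_one, one_mul, inv_one, C]) (by simp only [mul_assoc, mul_inv_rev, inv_inv, mul_inv_cancel_left, inv_mul_cancel_left, mul_inv_cancel, inv_mul_cancel, mul_one, one_mul, inv_one, C])
  have k32 : o.lt (f * m⁻¹) (Q * f⁻¹) ↔ o.lt (f * m⁻¹) (Q * f⁻¹) := o.cv hδ (1) e11 (by simp only [mul_assoc, mul_inv_rev, inv_inv, mul_inv_cancel_left, inv_mul_cancel_left, mul_inv_cancel, inv_mul_cancel, mul_one, one_mul, inv_one, C]) (by simp only [mul_assoc, mul_inv_rev, inv_inv, mul_inv_cancel_left, inv_mul_cancel_left, mul_inv_cancel, inv_mul_cancel, mul_one, one_mul, inv_one, C])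
  have k33 : o.lt (Q * f⁻¹) (g * P⁻¹) ↔ o.lt (Q * f⁻¹) (g * P⁻¹) := o.cv hδ (1) e5 (by simp only [mul_assoc, mul_inv_rev, inv_inv, mul_inv_cancel_left, inv_mul_cancel_left, mul_inv_cancel, inv_mul_cancel, mul_one, one_mul, inv_one, C]) (by simp only [mul_assoc, mul_inv_rev, inv_inv, mul_inv_cancel_left, inv_mul_cancel_left, mul_inv_cancel, inv_mul_cancel, mul_one, one_mul, inv_one, C])
  have k34 : o.lt (Q * f⁻¹) (g * P⁻¹) ↔ o.lt ((f * Q⁻¹)⁻¹) ((P * g⁻¹)⁻¹) := o.cv hδ (1) e5 (by simp only [mul_assoc, mul_inv_rev, inv_inv, mul_inv_cancel_left, inv_mul_cancel_left, mul_inv_cancel, inv_mul_cancel, mul_one, one_mul, inv_one, C]) (by simp only [mul_assoc, mul_inv_rev, inv_inv, mul_inv_cancel_left, inv_mul_cancel_left, mul_inv_cancel, inv_mul_cancel, mul_one, one_mul, inv_one, C])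
  have k35 : o.lt (g * P⁻¹) (f * P⁻¹) ↔ o.lt (g) (f) := o.cv hδ (P) e8 (by simp only [mul_assoc, mul_inv_rev, inv_inv, mul_inv_cancel_left, inv_mul_cancel_left, mul_inv_cancel, inv_mul_cancel, mul_one, one_mul, inv_one, C]) (by simp only [mul_assoc, mul_inv_rev, inv_inv, mul_inv_cancel_left, inv_mul_cancel_left, mul_inv_cancel, inv_mul_cancel, mul_one, one_mul, inv_one, C])
  exact ser_ECC_1_prop
    (fun b0 b1 b2 => N0.i.r0 1 (k0.1 b0) (fun h => b1 (k1.2 h)) (fun h => b2 (k2.2 h)))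
    (fun b0 b1 b2 => N0.i.r1 1 (fun h => b0 (k3.2 h)) (k4.1 b1) (fun h => b2 (k1.2 h)))
    (fun b0 b1 b2 => N0.d.r1 1 (fun h => b0 (k0.2 h)) (k5.1 b1) (fun h => b2 (k6.2 h)))
    (fun b0 b1 b2 b3 => N1.i.r2 1 (fun h => b0 (k5.2 h)) (k7.1 b1) (fun h => b2 (k8.2 h)) (fun h => b3 (k9.2 h)))
    (fun b0 b1 b2 b3 => N1.d.r2 1 (fun h => b0 (k4.2 h)) (k10.1 b1) (fun h => b2 (k11.2 h)) (fun h => b3 (k12.2 h)))
    (fun b0 b1 b2 b3 => N1.rd.r1 1 (k13.1 b0) (fun h => b1 (k14.2 h)) (fun h => b2 (k15.2 h)) (fun h => b3 (k9.2 h)))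
    (fun b0 b1 => o.asym (k16.1 b0) (k17.1 b1))
    (fun b0 b1 => o.asym (k18.1 b0) (k19.1 b1))
    (fun b0 b1 b2 => o.tri (k18.1 b0) (fun h => b1 (k20.2 h)) (fun h => b2 (k21.2 h)))
    (fun b0 b1 => o.asym (k22.1 b0) (k23.1 b1))
    (fun b0 b1 b2 => o.tri (k21.1 b0) (fun h => b1 (k24.2 h)) (fun h => b2 (k25.2 h)))
    (fun b0 b1 b2 => o.tri (k26.1 b0) (fun h => b1 (k27.2 h)) (fun h => b2 (k19.2 h)))
    (fun b0 b1 b2 => o.tri (k23.1 b0) (fun h => b1 (k26.2 h)) (fun h => b2 (k20.2 h)))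
    (fun b0 b1 b2 => o.tri (k23.1 b0) (fun h => b1 (k27.2 h)) (fun h => b2 (k28.2 h)))
    (fun b0 b1 b2 => o.tri (k28.1 b0) (fun h => b1 (k29.2 h)) (fun h => b2 (k30.2 h)))
    (fun b0 b1 b2 => o.tri (k31.1 b0) (fun h => b1 (k32.2 h)) (fun h => b2 (k33.2 h)))
    (k18.2 g0)
    (fun h => g1 (k27.1 h))
    (fun h => g2 (k34.1 h))
    (fun h => g3 (k35.1 h))

theorem ser_ECC_2_prop {A1 A2 A3 A4 A5 A6 A7 A8 A9 A10 A11 A12 A13 A14 A15 A16 A17 A18 A19 A20 A21 A22 A23 A24 A25 A26 A27 A28 A29 A30 A31 A32 A33 A34 A35 A36 A37 A38 A39 : Prop}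
    (c0 : A17 → ¬ A29 → ¬ A9 → False)
    (c1 : ¬ A5 → A35 → ¬ A29 → False)
    (c2 : ¬ A17 → A37 → ¬ A7 → False)
    (c3 : ¬ A37 → A36 → ¬ A38 → ¬ A29 → False)
    (c4 : A7 → ¬ A13 → ¬ A35 → False)
    (c5 : A7 → ¬ A38 → ¬ A39 → False)
    (c6 : A15 → ¬ A1 → ¬ A4 → False)
    (c7 : ¬ A2 → A19 → ¬ A1 → False)
    (c8 : A28 → ¬ A3 → ¬ A18 → ¬ A1 → False)
    (c9 : ¬ A19 → A16 → ¬ A25 → ¬ A3 → False)
    (c10 : A3 → ¬ A18 → ¬ A19 → False)
    (c11 : A3 → ¬ A20 → ¬ A27 → False)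
    (c12 : A22 → ¬ A3 → ¬ A20 → ¬ A1 → False)
    (c13 : ¬ A23 → A26 → ¬ A18 → ¬ A1 → False)
    (c14 : ¬ A10 → A7 → ¬ A34 → False)
    (c15 : A17 → A5 → False)
    (c16 : A32 → ¬ A17 → ¬ A36 → False)
    (c17 : A14 → ¬ A1 → ¬ A17 → False)
    (c18 : A5 → ¬ A4 → ¬ A1 → False)
    (c19 : A4 → ¬ A35 → ¬ A5 → False)
    (c20 : A35 → A37 → False)
    (c21 : A37 → ¬ A5 → ¬ A14 → False)
    (c22 : A11 → ¬ A6 → ¬ A1 → False)
    (c23 : A38 → ¬ A6 → ¬ A17 → False)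
    (c24 : A30 → A9 → False)
    (c25 : A12 → A10 → False)
    (c26 : A12 → ¬ A30 → ¬ A7 → False)
    (c27 : A31 → ¬ A12 → ¬ A33 → False)
    (c28 : A33 → A13 → False)
    (c29 : A39 → ¬ A11 → ¬ A24 → False)
    (c30 : A34 → ¬ A29 → ¬ A35 → False)
    (c31 : A17 → ¬ A15 → ¬ A12 → False)
    (c32 : A2 → A15 → False)
    (c33 : A8 → ¬ A31 → ¬ A6 → False)
    (c34 : A20 → ¬ A15 → ¬ A8 → False)
    (c35 : A20 → ¬ A21 → ¬ A3 → False)
    (c36 : A21 → ¬ A19 → ¬ A16 → False)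
    (c37 : A25 → ¬ A1 → ¬ A28 → False)
    (c38 : A4 → ¬ A6 → ¬ A22 → False)
    (c39 : A18 → ¬ A17 → ¬ A6 → False)
    (c40 : A23 → A27 → False)
    (c41 : A24 → ¬ A26 → ¬ A14 → False)
    (u0 : ¬ A1)
    (u1 : A32)
    (u2 : ¬ A6)
    (u3 : ¬ A29)
    : False := by
  have q1 : ¬ A11 := fun h => c22 h u2 u0
  rcases Classical.em A17 with q2 | q2
  · have q3 : A9 := Classical.byContradiction fun h => c0 q2 u3 h
    have q4 : ¬ A5 := fun h => c15 q2 h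
    have q5 : ¬ A35 := fun h => c1 q4 h u3
    have q6 : ¬ A4 := fun h => c19 h q5 q4
    have q7 : ¬ A15 := fun h => c6 h u0 q6
    have q8 : ¬ A30 := fun h => c24 h q3
    have q9 : ¬ A34 := fun h => c30 h u3 q5
    have q10 : A12 := Classical.byContradiction fun h => c31 q2 q7 h
    have q11 : ¬ A10 := fun h => c25 q10 h
    have q12 : ¬ A7 := fun h => c14 q11 h q9
    exact c26 q10 q8 q12
  · have q13 : A36 := Classical.byContradiction fun h => c16 u1 q2 h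
    have q14 : ¬ A14 := fun h => c17 h u0 q2
    have q15 : ¬ A38 := fun h => c23 h u2 q2
    have q16 : A37 := Classical.byContradiction fun h => c3 h q13 q15 u3
    have q17 : A7 := Classical.byContradiction fun h => c2 q2 q16 h
    have q18 : A39 := Classical.byContradiction fun h => c5 q17 q15 h
    have q19 : ¬ A35 := fun h => c20 h q16
    have q20 : A13 := Classical.byContradiction fun h => c4 q17 h q19
    have q21 : A5 := Classical.byContradiction fun h => c21 q16 h q14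
    have q22 : A4 := Classical.byContradiction fun h => c18 q21 h u0
    have q23 : ¬ A33 := fun h => c28 h q20
    have q24 : A24 := Classical.byContradiction fun h => c29 q18 q1 h
    have q25 : ¬ A34 := fun h => c30 h u3 q19
    have q26 : A10 := Classical.byContradiction fun h => c14 h q17 q25
    have q27 : ¬ A12 := fun h => c25 h q26
    have q28 : ¬ A31 := fun h => c27 h q27 q23
    have q29 : ¬ A8 := fun h => c33 h q28 u2
    have q30 : A22 := Classical.byContradiction fun h => c38 q22 u2 h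
    have q31 : ¬ A18 := fun h => c39 h q2 u2
    have q32 : A26 := Classical.byContradiction fun h => c41 q24 h q14
    have q33 : A23 := Classical.byContradiction fun h => c13 h q32 q31 u0
    have q34 : ¬ A27 := fun h => c40 q33 h
    rcases Classical.em A3 with q35 | q35
    · have q36 : A19 := Classical.byContradiction fun h => c10 q35 q31 h
      have q37 : A2 := Classical.byContradiction fun h => c7 h q36 u0
      have q38 : A20 := Classical.byContradiction fun h => c11 q35 h q34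
      have q39 : ¬ A15 := fun h => c32 q37 h
      exact c34 q38 q39 q29
    · have q40 : ¬ A28 := fun h => c8 h q35 q31 u0
      have q41 : A20 := Classical.byContradiction fun h => c12 q30 q35 h u0
      have q42 : A15 := Classical.byContradiction fun h => c34 q41 h q29
      have q43 : ¬ A2 := fun h => c32 h q42
      have q44 : ¬ A19 := fun h => c7 q43 h u0
      have q45 : A21 := Classical.byContradiction fun h => c35 q41 h q35
      have q46 : A16 := Classical.byContradiction fun h => c36 q45 q44 h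
      have q47 : A25 := Classical.byContradiction fun h => c9 q44 q46 h q35
      exact c37 q47 u0 q40

theorem ser_ECC_2 {G : Type*} [Group G] {δ : G → ZMod 3} (hδ : ∀ u v, δ (u * v) = δ u + δ v) (o : Pre δ)
    {P m Q f g : G} {e : ZMod 3} (h3 : 3 * e = 0)
    (D : δ P = e ∧ δ m = e ∧ δ Q = -e ∧ δ f = 0 ∧ δ g = 0)
    (C : Cube P f ∧ Cube P g ∧ Cube m f ∧ Cube m g ∧ Cube Q f ∧ Cube Q g)
    (N0 : RE o P m f g)
    (N1 : RC o m Q f g)
    (g0 : ¬ o.lt (P * g⁻¹) (P * f⁻¹)) (g1 : o.lt (P * f⁻¹) (g * Q⁻¹)) (g2 : ¬ o.lt (f * Q⁻¹) (P * g⁻¹)) (g3 : ¬ o.lt (g) (f)) : False := by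
  simp only [Cube] at C
  have e0 : δ (P * (g⁻¹ * (f * P⁻¹))) = δ (1) := by simp only [hδ, δinv hδ, δone hδ, D] <;> linear_combination (0) * h3
  have e1 : δ (g * (P⁻¹ * (g * f⁻¹))) = δ (P * (g⁻¹ * (m * f⁻¹))) := by simp only [hδ, δinv hδ, δone hδ, D] <;> linear_combination (-1) * h3
  have e2 : δ (P * Q⁻¹) = δ (P * (g⁻¹ * (f * Q⁻¹))) := by simp only [hδ, δinv hδ, δone hδ, D] <;> linear_combination (0) * h3
  have e3 : δ (1) = δ (P * (g⁻¹ * (f * m⁻¹))) := by simp only [hδ, δinv hδ, δone hδ, D] <;> linear_combination (0) * h3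
  have e4 : δ (m * f⁻¹) = δ (P * f⁻¹) := by simp only [hδ, δinv hδ, δone hδ, D] <;> linear_combination (0) * h3
  have e5 : δ (f * Q⁻¹) = δ (P * g⁻¹) := by simp only [hδ, δinv hδ, δone hδ, D] <;> linear_combination (0) * h3
  have e6 : δ (f * P⁻¹) = δ (g * P⁻¹) := by simp only [hδ, δinv hδ, δone hδ, D] <;> linear_combination (0) * h3
  have e7 : δ (g * P⁻¹) = δ (P * (g⁻¹ * (f * Q⁻¹))) := by simp only [hδ, δinv hδ, δone hδ, D] <;> linear_combination (-1) * h3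
  have e8 : δ (f * m⁻¹) = δ (g * P⁻¹) := by simp only [hδ, δinv hδ, δone hδ, D] <;> linear_combination (0) * h3
  have e9 : δ (g * (m⁻¹ * (P * f⁻¹))) = δ (g * f⁻¹) := by simp only [hδ, δinv hδ, δone hδ, D] <;> linear_combination (0) * h3
  have e10 : δ (f * Q⁻¹) = δ (P * f⁻¹) := by simp only [hδ, δinv hδ, δone hδ, D] <;> linear_combination (0) * h3
  have e11 : δ (g * P⁻¹) = δ (g * m⁻¹) := by simp only [hδ, δinv hδ, δone hδ, D] <;> linear_combination (0) * h3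
  have e12 : δ (Q * f⁻¹) = δ (g * m⁻¹) := by simp only [hδ, δinv hδ, δone hδ, D] <;> linear_combination (0) * h3
  have e13 : δ (P * g⁻¹) = δ (m * f⁻¹) := by simp only [hδ, δinv hδ, δone hδ, D] <;> linear_combination (0) * h3
  have e14 : δ (P * (g⁻¹ * (m * f⁻¹))) = δ (g * (P⁻¹ * (g * f⁻¹))) := by simp only [hδ, δinv hδ, δone hδ, D] <;> linear_combination (1) * h3
  have e15 : δ (P * (g⁻¹ * (m * f⁻¹))) = δ (P * Q⁻¹) := by simp only [hδ, δinv hδ, δone hδ, D] <;> linear_combination (0) * h3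
  have e16 : δ (P * f⁻¹) = δ (m * f⁻¹) := by simp only [hδ, δinv hδ, δone hδ, D] <;> linear_combination (0) * h3
  have e17 : δ (P * m⁻¹) = δ (P * (g⁻¹ * (Q * f⁻¹))) := by simp only [hδ, δinv hδ, δone hδ, D] <;> linear_combination (0) * h3
  have e18 : δ (P * (m⁻¹ * (g * m⁻¹))) = δ (P * (g⁻¹ * (m * f⁻¹))) := by simp only [hδ, δinv hδ, δone hδ, D] <;> linear_combination (-1) * h3
  have e19 : δ (P * (m⁻¹ * (g * m⁻¹))) = δ (P * (g⁻¹ * (f * Q⁻¹))) := by simp only [hδ, δinv hδ, δone hδ, D] <;> linear_combination (-1) * h3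
  have e20 : δ (P * (m⁻¹ * (g * m⁻¹))) = δ (P * Q⁻¹) := by simp only [hδ, δinv hδ, δone hδ, D] <;> linear_combination (-1) * h3
  have e21 : δ (P * (g⁻¹ * (Q * f⁻¹))) = δ (P * (g⁻¹ * (f * m⁻¹))) := by simp only [hδ, δinv hδ, δone hδ, D] <;> linear_combination (0) * h3
  have e22 : δ (P * (g⁻¹ * (Q * f⁻¹))) = δ (P * (Q⁻¹ * (g * Q⁻¹))) := by simp only [hδ, δinv hδ, δone hδ, D] <;> linear_combination (-1) * h3
  have e23 : δ (P * Q⁻¹) = δ (Q * g⁻¹) := by simp only [hδ, δinv hδ, δone hδ, D] <;> linear_combination (1) * h3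
  have e24 : δ (P * (g⁻¹ * (f * Q⁻¹))) = δ (P * (m⁻¹ * (g * m⁻¹))) := by simp only [hδ, δinv hδ, δone hδ, D] <;> linear_combination (1) * h3
  have e25 : δ (P * (Q⁻¹ * (g * Q⁻¹))) = δ (P * (g⁻¹ * (f * m⁻¹))) := by simp only [hδ, δinv hδ, δone hδ, D] <;> linear_combination (1) * h3
  have e26 : δ (P * (Q⁻¹ * (g * Q⁻¹))) = δ (P * (g⁻¹ * (Q * f⁻¹))) := by simp only [hδ, δinv hδ, δone hδ, D] <;> linear_combination (1) * h3
  have e27 : δ (P * Q⁻¹) = δ (P * (m⁻¹ * (g * m⁻¹))) := by simp only [hδ, δinv hδ, δone hδ, D] <;> linear_combination (1) * h3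
  have e28 : δ (g * P⁻¹) = δ (f * P⁻¹) := by simp only [hδ, δinv hδ, δone hδ, D] <;> linear_combination (0) * h3
  have e29 : δ (g * P⁻¹) = δ (f * m⁻¹) := by simp only [hδ, δinv hδ, δone hδ, D] <;> linear_combination (0) * h3
  have e30 : δ (g * P⁻¹) = δ (Q * f⁻¹) := by simp only [hδ, δinv hδ, δone hδ, D] <;> linear_combination (0) * h3
  have e31 : δ (P * f⁻¹) = δ (g * Q⁻¹) := by simp only [hδ, δinv hδ, δone hδ, D] <;> linear_combination (0) * h3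
  have e32 : δ (g * m⁻¹) = δ (Q * f⁻¹) := by simp only [hδ, δinv hδ, δone hδ, D] <;> linear_combination (0) * h3
  have e33 : δ (g * (m⁻¹ * (f * P⁻¹))) = δ (g * (m⁻¹ * (g * P⁻¹))) := by simp only [hδ, δinv hδ, δone hδ, D] <;> linear_combination (0) * h3
  have e34 : δ (m * f⁻¹) = δ (m * g⁻¹) := by simp only [hδ, δinv hδ, δone hδ, D] <;> linear_combination (0) * h3
  have e35 : δ (m * f⁻¹) = δ (g * Q⁻¹) := by simp only [hδ, δinv hδ, δone hδ, D] <;> linear_combination (0) * h3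
  have e36 : δ (m * g⁻¹) = δ (m * f⁻¹) := by simp only [hδ, δinv hδ, δone hδ, D] <;> linear_combination (0) * h3
  have e37 : δ (f * Q⁻¹) = δ (m * g⁻¹) := by simp only [hδ, δinv hδ, δone hδ, D] <;> linear_combination (0) * h3
  have e38 : δ (Q * f⁻¹) = δ (Q * g⁻¹) := by simp only [hδ, δinv hδ, δone hδ, D] <;> linear_combination (0) * h3
  have k0 : o.lt (P * f⁻¹) (m * f⁻¹) ↔ o.lt (1 * (P * f⁻¹)) (1 * (m * f⁻¹)) := o.cv hδ (1) e16 (by simp only [mul_assoc, mul_inv_rev, inv_inv, mul_inv_cancel_left, inv_mul_cancel_left, mul_inv_cancel, inv_mul_cancel, mul_one, one_mul, inv_one, C]) (by simp only [mul_assoc, mul_inv_rev, inv_inv, mul_inv_cancel_left, inv_mul_cancel_left, mul_inv_cancel, inv_mul_cancel, mul_one, one_mul, inv_one, C])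
  have k1 : o.lt (g * P⁻¹) (f * P⁻¹) ↔ o.lt (1 * (P * g⁻¹)⁻¹) (1 * (P * f⁻¹)⁻¹) := o.cv hδ (1) e28 (by simp only [mul_assoc, mul_inv_rev, inv_inv, mul_inv_cancel_left, inv_mul_cancel_left, mul_inv_cancel, inv_mul_cancel, mul_one, one_mul, inv_one, C]) (by simp only [mul_assoc, mul_inv_rev, inv_inv, mul_inv_cancel_left, inv_mul_cancel_left, mul_inv_cancel, inv_mul_cancel, mul_one, one_mul, inv_one, C])
  have k2 : o.lt (f * m⁻¹) (g * P⁻¹) ↔ o.lt (1 * (m * f⁻¹)⁻¹) (1 * (P * g⁻¹)⁻¹) := o.cv hδ (1) e8 (by simp only [mul_assoc, mul_inv_rev, inv_inv, mul_inv_cancel_left, inv_mul_cancel_left, mul_inv_cancel, inv_mul_cancel, mul_one, one_mul, inv_one, C]) (by simp only [mul_assoc, mul_inv_rev, inv_inv, mul_inv_cancel_left, inv_mul_cancel_left, mul_inv_cancel, inv_mul_cancel, mul_one, one_mul, inv_one, C])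
  have k3 : o.lt (m * f⁻¹) (P * f⁻¹) ↔ o.lt (1 * (m * f⁻¹)) (1 * (P * f⁻¹)) := o.cv hδ (1) e4 (by simp only [mul_assoc, mul_inv_rev, inv_inv, mul_inv_cancel_left, inv_mul_cancel_left, mul_inv_cancel, inv_mul_cancel, mul_one, one_mul, inv_one, C]) (by simp only [mul_assoc, mul_inv_rev, inv_inv, mul_inv_cancel_left, inv_mul_cancel_left, mul_inv_cancel, inv_mul_cancel, mul_one, one_mul, inv_one, C])
  have k4 : o.lt (m * f⁻¹) (m * g⁻¹) ↔ o.lt (1 * (m * f⁻¹)) (1 * (m * g⁻¹)) := o.cv hδ (1) e34 (by simp only [mul_assoc, mul_inv_rev, inv_inv, mul_inv_cancel_left, inv_mul_cancel_left, mul_inv_cancel, inv_mul_cancel, mul_one, one_mul, inv_one, C]) (by simp only [mul_assoc, mul_inv_rev, inv_inv, mul_inv_cancel_left, inv_mul_cancel_left, mul_inv_cancel, inv_mul_cancel, mul_one, one_mul, inv_one, C])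
  have k5 : o.lt (m * g⁻¹) (m * f⁻¹) ↔ o.lt (1 * (m * g⁻¹)) (1 * (m * f⁻¹)) := o.cv hδ (1) e36 (by simp only [mul_assoc, mul_inv_rev, inv_inv, mul_inv_cancel_left, inv_mul_cancel_left, mul_inv_cancel, inv_mul_cancel, mul_one, one_mul, inv_one, C]) (by simp only [mul_assoc, mul_inv_rev, inv_inv, mul_inv_cancel_left, inv_mul_cancel_left, mul_inv_cancel, inv_mul_cancel, mul_one, one_mul, inv_one, C])
  have k6 : o.lt (f * P⁻¹) (g * P⁻¹) ↔ o.lt (1 * (P * f⁻¹)⁻¹) (1 * (P * g⁻¹)⁻¹) := o.cv hδ (1) e6 (by simp only [mul_assoc, mul_inv_rev, inv_inv, mul_inv_cancel_left, inv_mul_cancel_left, mul_inv_cancel, inv_mul_cancel, mul_one, one_mul, inv_one, C]) (by simp only [mul_assoc, mul_inv_rev, inv_inv, mul_inv_cancel_left, inv_mul_cancel_left, mul_inv_cancel, inv_mul_cancel, mul_one, one_mul, inv_one, C])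
  have k7 : o.lt (m * f⁻¹) (g * Q⁻¹) ↔ o.lt (1 * (m * f⁻¹)) (1 * (g * Q⁻¹)) := o.cv hδ (1) e35 (by simp only [mul_assoc, mul_inv_rev, inv_inv, mul_inv_cancel_left, inv_mul_cancel_left, mul_inv_cancel, inv_mul_cancel, mul_one, one_mul, inv_one, C]) (by simp only [mul_assoc, mul_inv_rev, inv_inv, mul_inv_cancel_left, inv_mul_cancel_left, mul_inv_cancel, inv_mul_cancel, mul_one, one_mul, inv_one, C])
  have k8 : o.lt (f * Q⁻¹) (m * g⁻¹) ↔ o.lt (1 * (f * Q⁻¹)) (1 * (m * g⁻¹)) := o.cv hδ (1) e37 (by simp only [mul_assoc, mul_inv_rev, inv_inv, mul_inv_cancel_left, inv_mul_cancel_left, mul_inv_cancel, inv_mul_cancel, mul_one, one_mul, inv_one, C]) (by simp only [mul_assoc, mul_inv_rev, inv_inv, mul_inv_cancel_left, inv_mul_cancel_left, mul_inv_cancel, inv_mul_cancel, mul_one, one_mul, inv_one, C])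
  have k9 : o.lt (g * P⁻¹) (f * P⁻¹) ↔ o.lt (1 * g) (1 * f) := o.cv hδ (P) e28 (by simp only [mul_assoc, mul_inv_rev, inv_inv, mul_inv_cancel_left, inv_mul_cancel_left, mul_inv_cancel, inv_mul_cancel, mul_one, one_mul, inv_one, C]) (by simp only [mul_assoc, mul_inv_rev, inv_inv, mul_inv_cancel_left, inv_mul_cancel_left, mul_inv_cancel, inv_mul_cancel, mul_one, one_mul, inv_one, C])
  have k10 : o.lt (f * P⁻¹) (g * P⁻¹) ↔ o.lt (1 * (f * m⁻¹)) (1 * (g * m⁻¹)) := o.cv hδ (P * m⁻¹) e6 (by simp only [mul_assoc, mul_inv_rev, inv_inv, mul_inv_cancel_left, inv_mul_cancel_left, mul_inv_cancel, inv_mul_cancel, mul_one, one_mul, inv_one, C]) (by simp only [mul_assoc, mul_inv_rev, inv_inv, mul_inv_cancel_left, inv_mul_cancel_left, mul_inv_cancel, inv_mul_cancel, mul_one, one_mul, inv_one, C])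
  have k11 : o.lt (Q * f⁻¹) (g * m⁻¹) ↔ o.lt (1 * (Q * f⁻¹)) (1 * (g * m⁻¹)) := o.cv hδ (1) e12 (by simp only [mul_assoc, mul_inv_rev, inv_inv, mul_inv_cancel_left, inv_mul_cancel_left, mul_inv_cancel, inv_mul_cancel, mul_one, one_mul, inv_one, C]) (by simp only [mul_assoc, mul_inv_rev, inv_inv, mul_inv_cancel_left, inv_mul_cancel_left, mul_inv_cancel, inv_mul_cancel, mul_one, one_mul, inv_one, C])
  have k12 : o.lt (m * f⁻¹) (m * g⁻¹) ↔ o.lt (1 * (f * m⁻¹)⁻¹) (1 * (g * m⁻¹)⁻¹) := o.cv hδ (1) e34 (by simp only [mul_assoc, mul_inv_rev, inv_inv, mul_inv_cancel_left, inv_mul_cancel_left, mul_inv_cancel, inv_mul_cancel, mul_one, one_mul, inv_one, C]) (by simp only [mul_assoc, mul_inv_rev, inv_inv, mul_inv_cancel_left, inv_mul_cancel_left, mul_inv_cancel, inv_mul_cancel, mul_one, one_mul, inv_one, C])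
  have k13 : o.lt (f * P⁻¹) (g * P⁻¹) ↔ o.lt (1 * (f * Q⁻¹)) (1 * (g * Q⁻¹)) := o.cv hδ (P * Q⁻¹) e6 (by simp only [mul_assoc, mul_inv_rev, inv_inv, mul_inv_cancel_left, inv_mul_cancel_left, mul_inv_cancel, inv_mul_cancel, mul_one, one_mul, inv_one, C]) (by simp only [mul_assoc, mul_inv_rev, inv_inv, mul_inv_cancel_left, inv_mul_cancel_left, mul_inv_cancel, inv_mul_cancel, mul_one, one_mul, inv_one, C])
  have k14 : o.lt (Q * f⁻¹) (Q * g⁻¹) ↔ o.lt (1 * (f * Q⁻¹)⁻¹) (1 * (g * Q⁻¹)⁻¹) := o.cv hδ (1) e38 (by simp only [mul_assoc, mul_inv_rev, inv_inv, mul_inv_cancel_left, inv_mul_cancel_left, mul_inv_cancel, inv_mul_cancel, mul_one, one_mul, inv_one, C]) (by simp only [mul_assoc, mul_inv_rev, inv_inv, mul_inv_cancel_left, inv_mul_cancel_left, mul_inv_cancel, inv_mul_cancel, mul_one, one_mul, inv_one, C])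
  have k15 : o.lt (P * (g⁻¹ * (m * f⁻¹))) (g * (P⁻¹ * (g * f⁻¹))) ↔ o.lt ((P * g⁻¹) * (m * f⁻¹)) ((P * g⁻¹) * (P * f⁻¹)) := o.cv hδ (1) e14 (by simp only [mul_assoc, mul_inv_rev, inv_inv, mul_inv_cancel_left, inv_mul_cancel_left, mul_inv_cancel, inv_mul_cancel, mul_one, one_mul, inv_one, C]) (by simp only [mul_assoc, mul_inv_rev, inv_inv, mul_inv_cancel_left, inv_mul_cancel_left, mul_inv_cancel, inv_mul_cancel, mul_one, one_mul, inv_one, C])
  have k16 : o.lt (P * (g⁻¹ * (f * P⁻¹))) (1) ↔ o.lt ((P * g⁻¹) * (P * f⁻¹)⁻¹) ((P * g⁻¹) * (P * g⁻¹)⁻¹) := o.cv hδ (1) e0 (by simp only [mul_assoc, mul_inv_rev, inv_inv, mul_inv_cancel_left, inv_mul_cancel_left, mul_inv_cancel, inv_mul_cancel, mul_one, one_mul, inv_one, C]) (by simp only [mul_assoc, mul_inv_rev, inv_inv, mul_inv_cancel_left, inv_mul_cancel_left, mul_inv_cancel, inv_mul_cancel, mul_one, one_mul, inv_one, C])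
  have k17 : o.lt (1) (P * (g⁻¹ * (f * m⁻¹))) ↔ o.lt ((P * g⁻¹) * (P * g⁻¹)⁻¹) ((P * g⁻¹) * (m * f⁻¹)⁻¹) := o.cv hδ (1) e3 (by simp only [mul_assoc, mul_inv_rev, inv_inv, mul_inv_cancel_left, inv_mul_cancel_left, mul_inv_cancel, inv_mul_cancel, mul_one, one_mul, inv_one, C]) (by simp only [mul_assoc, mul_inv_rev, inv_inv, mul_inv_cancel_left, inv_mul_cancel_left, mul_inv_cancel, inv_mul_cancel, mul_one, one_mul, inv_one, C])
  have k18 : o.lt (g * (P⁻¹ * (g * f⁻¹))) (P * (g⁻¹ * (m * f⁻¹))) ↔ o.lt ((P * g⁻¹) * (P * f⁻¹)) ((P * g⁻¹) * (m * f⁻¹)) := o.cv hδ (f * (g⁻¹ * (P * (g⁻¹ * (P * (g⁻¹ * (P * f⁻¹))))))) e1 (by simp only [mul_assoc, mul_inv_rev, inv_inv, mul_inv_cancel_left, inv_mul_cancel_left, mul_inv_cancel, inv_mul_cancel, mul_one, one_mul, inv_one, C]) (by simp only [mul_assoc, mul_inv_rev, inv_inv, mul_inv_cancel_left, inv_mul_cancel_left, mul_inv_cancel, inv_mul_cancel, mul_one,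 one_mul, inv_one, C])
  have k19 : o.lt (P * (m⁻¹ * (g * m⁻¹))) (P * (g⁻¹ * (m * f⁻¹))) ↔ o.lt ((P * g⁻¹) * (m * g⁻¹)) ((P * g⁻¹) * (m * f⁻¹)) := o.cv hδ (m * (g⁻¹ * (m * (g⁻¹ * (m * g⁻¹))))) e18 (by simp only [mul_assoc, mul_inv_rev, inv_inv, mul_inv_cancel_left, inv_mul_cancel_left, mul_inv_cancel, inv_mul_cancel, mul_one, one_mul, inv_one, C]) (by simp only [mul_assoc, mul_inv_rev, inv_inv, mul_inv_cancel_left, inv_mul_cancel_left, mul_inv_cancel, inv_mul_cancel, mul_one, one_mul, inv_one, C])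
  have k20 : o.lt (P * Q⁻¹) (P * (m⁻¹ * (g * m⁻¹))) ↔ o.lt ((P * g⁻¹) * (g * Q⁻¹)) ((P * g⁻¹) * (m * g⁻¹)) := o.cv hδ (1) e27 (by simp only [mul_assoc, mul_inv_rev, inv_inv, mul_inv_cancel_left, inv_mul_cancel_left, mul_inv_cancel, inv_mul_cancel, mul_one, one_mul, inv_one, C]) (by simp only [mul_assoc, mul_inv_rev, inv_inv, mul_inv_cancel_left, inv_mul_cancel_left, mul_inv_cancel, inv_mul_cancel, mul_one, one_mul, inv_one, C])
  have k21 : o.lt (P * Q⁻¹) (P * (g⁻¹ * (f * Q⁻¹))) ↔ o.lt ((P * g⁻¹) * (g * Q⁻¹)) ((P * g⁻¹) * (f * Q⁻¹)) := o.cv hδ (1) e2 (by simp only [mul_assoc, mul_inv_rev, inv_inv, mul_inv_cancel_left, inv_mul_cancel_left, mul_inv_cancel, inv_mul_cancel, mul_one, one_mul, inv_one, C]) (by simp only [mul_assoc, mul_inv_rev, inv_inv, mul_inv_cancel_left, inv_mul_cancel_left, mul_inv_cancel, inv_mul_cancel, mul_one, one_mul, inv_one, C])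
  have k22 : o.lt (P * m⁻¹) (P * (g⁻¹ * (Q * f⁻¹))) ↔ o.lt ((P * g⁻¹) * (m * g⁻¹)⁻¹) ((P * g⁻¹) * (f * Q⁻¹)⁻¹) := o.cv hδ (1) e17 (by simp only [mul_assoc, mul_inv_rev, inv_inv, mul_inv_cancel_left, inv_mul_cancel_left, mul_inv_cancel, inv_mul_cancel, mul_one, one_mul, inv_one, C]) (by simp only [mul_assoc, mul_inv_rev, inv_inv, mul_inv_cancel_left, inv_mul_cancel_left, mul_inv_cancel, inv_mul_cancel, mul_one, one_mul, inv_one, C])
  have k23 : o.lt (P * (g⁻¹ * (f * P⁻¹))) (1) ↔ o.lt ((P * g⁻¹) * f) ((P * g⁻¹) * g) := o.cv hδ (P) e0 (by simp only [mul_assoc, mul_inv_rev, inv_inv, mul_inv_cancel_left, inv_mul_cancel_left, mul_inv_cancel, inv_mul_cancel, mul_one, one_mul, inv_one, C]) (by simp only [mul_assoc, mul_inv_rev, inv_inv, mul_inv_cancel_left, inv_mul_cancel_left, mul_inv_cancel, inv_mul_cancel, mul_one, one_mul, inv_one, C])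
  have k24 : o.lt (P * (g⁻¹ * (m * f⁻¹))) (P * Q⁻¹) ↔ o.lt ((P * g⁻¹) * (m * f⁻¹)) ((P * g⁻¹) * (g * Q⁻¹)) := o.cv hδ (1) e15 (by simp only [mul_assoc, mul_inv_rev, inv_inv, mul_inv_cancel_left, inv_mul_cancel_left, mul_inv_cancel, inv_mul_cancel, mul_one, one_mul, inv_one, C]) (by simp only [mul_assoc, mul_inv_rev, inv_inv, mul_inv_cancel_left, inv_mul_cancel_left, mul_inv_cancel, inv_mul_cancel, mul_one, one_mul, inv_one, C])
  have k25 : o.lt (P * (g⁻¹ * (f * Q⁻¹))) (P * (m⁻¹ * (g * m⁻¹))) ↔ o.lt ((P * g⁻¹) * (f * Q⁻¹)) ((P * g⁻¹) * (m * g⁻¹)) := o.cv hδ (1) e24 (by simp only [mul_assoc, mul_inv_rev, inv_inv, mul_inv_cancel_left, inv_mul_cancel_left, mul_inv_cancel, inv_mul_cancel, mul_one, one_mul, inv_one, C]) (by simp only [mul_assoc, mul_inv_rev, inv_inv, mul_inv_cancel_left, inv_mul_cancel_left, mul_inv_cancel, inv_mul_cancel, mul_one, one_mul, inv_one, C])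
  have k26 : o.lt (P * Q⁻¹) (P * (g⁻¹ * (f * Q⁻¹))) ↔ o.lt ((P * g⁻¹) * g) ((P * g⁻¹) * f) := o.cv hδ (Q) e2 (by simp only [mul_assoc, mul_inv_rev, inv_inv, mul_inv_cancel_left, inv_mul_cancel_left, mul_inv_cancel, inv_mul_cancel, mul_one, one_mul, inv_one, C]) (by simp only [mul_assoc, mul_inv_rev, inv_inv, mul_inv_cancel_left, inv_mul_cancel_left, mul_inv_cancel, inv_mul_cancel, mul_one, one_mul, inv_one, C])
  have k27 : o.lt (P * Q⁻¹) (P * (g⁻¹ * (f * Q⁻¹))) ↔ o.lt ((P * g⁻¹) * (g * m⁻¹)) ((P * g⁻¹) * (f * m⁻¹)) := o.cv hδ (Q * m⁻¹) e2 (by simp only [mul_assoc, mul_inv_rev, inv_inv, mul_inv_cancel_left, inv_mul_cancel_left, mul_inv_cancel, inv_mul_cancel, mul_one, one_mul, inv_one, C]) (by simp only [mul_assoc, mul_inv_rev, inv_inv, mul_inv_cancel_left, inv_mul_cancel_left, mul_inv_cancel, inv_mul_cancel, mul_one, one_mul, inv_one, C])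
  have k28 : o.lt (P * m⁻¹) (P * (g⁻¹ * (Q * f⁻¹))) ↔ o.lt ((P * g⁻¹) * (g * m⁻¹)) ((P * g⁻¹) * (Q * f⁻¹)) := o.cv hδ (1) e17 (by simp only [mul_assoc, mul_inv_rev, inv_inv, mul_inv_cancel_left, inv_mul_cancel_left, mul_inv_cancel, inv_mul_cancel, mul_one, one_mul, inv_one, C]) (by simp only [mul_assoc, mul_inv_rev, inv_inv, mul_inv_cancel_left, inv_mul_cancel_left, mul_inv_cancel, inv_mul_cancel, mul_one, one_mul, inv_one, C])
  have k29 : o.lt (P * (m⁻¹ * (g * m⁻¹))) (P * (g⁻¹ * (m * f⁻¹))) ↔ o.lt ((P * g⁻¹) * (g * m⁻¹)⁻¹) ((P * g⁻¹) * (f * m⁻¹)⁻¹) := o.cv hδ (m * (g⁻¹ * (m * (g⁻¹ * (m * g⁻¹))))) e18 (by simp only [mul_assoc, mul_inv_rev, inv_inv, mul_inv_cancel_left, inv_mul_cancel_left, mul_inv_cancel, inv_mul_cancel, mul_one, one_mul, inv_one, C]) (by simp only [mul_assoc, mul_inv_rev, inv_inv, mul_inv_cancel_left, inv_mul_cancel_left, mul_inv_cancel, inv_mul_cancel, mul_one, one_mul,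 inv_one, C])
  have k30 : o.lt (P * (m⁻¹ * (g * m⁻¹))) (P * (g⁻¹ * (f * Q⁻¹))) ↔ o.lt ((P * g⁻¹) * (m * g⁻¹)) ((P * g⁻¹) * (f * Q⁻¹)) := o.cv hδ (m * (g⁻¹ * (m * (g⁻¹ * (m * g⁻¹))))) e19 (by simp only [mul_assoc, mul_inv_rev, inv_inv, mul_inv_cancel_left, inv_mul_cancel_left, mul_inv_cancel, inv_mul_cancel, mul_one, one_mul, inv_one, C]) (by simp only [mul_assoc, mul_inv_rev, inv_inv, mul_inv_cancel_left, inv_mul_cancel_left, mul_inv_cancel, inv_mul_cancel, mul_one, one_mul, inv_one, C])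
  have k31 : o.lt (P * (Q⁻¹ * (g * Q⁻¹))) (P * (g⁻¹ * (Q * f⁻¹))) ↔ o.lt ((P * g⁻¹) * (g * Q⁻¹)⁻¹) ((P * g⁻¹) * (f * Q⁻¹)⁻¹) := o.cv hδ (Q * (g⁻¹ * (Q * (g⁻¹ * (Q * g⁻¹))))) e26 (by simp only [mul_assoc, mul_inv_rev, inv_inv, mul_inv_cancel_left, inv_mul_cancel_left, mul_inv_cancel, inv_mul_cancel, mul_one, one_mul, inv_one, C]) (by simp only [mul_assoc, mul_inv_rev, inv_inv, mul_inv_cancel_left, inv_mul_cancel_left, mul_inv_cancel, inv_mul_cancel, mul_one, one_mul, inv_one, C])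
  have k32 : o.lt (P * (g⁻¹ * (Q * f⁻¹))) (P * (g⁻¹ * (f * m⁻¹))) ↔ o.lt ((P * g⁻¹) * (Q * f⁻¹)) ((P * g⁻¹) * (f * m⁻¹)) := o.cv hδ (1) e21 (by simp only [mul_assoc, mul_inv_rev, inv_inv, mul_inv_cancel_left, inv_mul_cancel_left, mul_inv_cancel, inv_mul_cancel, mul_one, one_mul, inv_one, C]) (by simp only [mul_assoc, mul_inv_rev, inv_inv, mul_inv_cancel_left, inv_mul_cancel_left, mul_inv_cancel, inv_mul_cancel, mul_one, one_mul, inv_one, C])
  have k33 : o.lt (P * (m⁻¹ * (g * m⁻¹))) (P * (g⁻¹ * (f * Q⁻¹))) ↔ o.lt ((P * g⁻¹) * (g * m⁻¹)⁻¹) ((P * g⁻¹) * (Q * f⁻¹)⁻¹) := o.cv hδ (m * (g⁻¹ * (m * (g⁻¹ * (m * g⁻¹))))) e19 (by simp only [mul_assoc, mul_inv_rev, inv_inv, mul_inv_cancel_left, inv_mul_cancel_left, mul_inv_cancel, inv_mul_cancel, mul_one, one_mul, inv_one, C]) (by simp only [mul_assoc, mul_inv_rev, inv_inv, mul_inv_cancel_left, inv_mul_cancel_left, mul_inv_cancel, inv_mul_cancel, mul_one,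 one_mul, inv_one, C])
  have k34 : o.lt (P * (g⁻¹ * (Q * f⁻¹))) (P * (Q⁻¹ * (g * Q⁻¹))) ↔ o.lt ((P * g⁻¹) * (Q * f⁻¹)) ((P * g⁻¹) * (Q * g⁻¹)) := o.cv hδ (1) e22 (by simp only [mul_assoc, mul_inv_rev, inv_inv, mul_inv_cancel_left, inv_mul_cancel_left, mul_inv_cancel, inv_mul_cancel, mul_one, one_mul, inv_one, C]) (by simp only [mul_assoc, mul_inv_rev, inv_inv, mul_inv_cancel_left, inv_mul_cancel_left, mul_inv_cancel, inv_mul_cancel, mul_one, one_mul, inv_one, C])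
  have k35 : o.lt (P * (Q⁻¹ * (g * Q⁻¹))) (P * (g⁻¹ * (f * m⁻¹))) ↔ o.lt ((P * g⁻¹) * (Q * g⁻¹)) ((P * g⁻¹) * (f * m⁻¹)) := o.cv hδ (Q * (g⁻¹ * (Q * (g⁻¹ * (Q * g⁻¹))))) e25 (by simp only [mul_assoc, mul_inv_rev, inv_inv, mul_inv_cancel_left, inv_mul_cancel_left, mul_inv_cancel, inv_mul_cancel, mul_one, one_mul, inv_one, C]) (by simp only [mul_assoc, mul_inv_rev, inv_inv, mul_inv_cancel_left, inv_mul_cancel_left, mul_inv_cancel, inv_mul_cancel, mul_one, one_mul, inv_one, C])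
  have k36 : o.lt (g * (m⁻¹ * (P * f⁻¹))) (g * f⁻¹) ↔ o.lt ((g * m⁻¹) * (P * f⁻¹)) ((g * m⁻¹) * (m * f⁻¹)) := o.cv hδ (1) e9 (by simp only [mul_assoc, mul_inv_rev, inv_inv, mul_inv_cancel_left, inv_mul_cancel_left, mul_inv_cancel, inv_mul_cancel, mul_one, one_mul, inv_one, C]) (by simp only [mul_assoc, mul_inv_rev, inv_inv, mul_inv_cancel_left, inv_mul_cancel_left, mul_inv_cancel, inv_mul_cancel, mul_one, one_mul, inv_one, C])
  have k37 : o.lt (f * P⁻¹) (g * P⁻¹) ↔ o.lt ((g * m⁻¹) * (m * g⁻¹)) ((g * m⁻¹) * (m * f⁻¹)) := o.cv hδ (P * f⁻¹) e6 (by simp only [mul_assoc, mul_inv_rev, inv_inv, mul_inv_cancel_left, inv_mul_cancel_left, mul_inv_cancel, inv_mul_cancel, mul_one, one_mul, inv_one, C]) (by simp only [mul_assoc, mul_inv_rev, inv_inv, mul_inv_cancel_left, inv_mul_cancel_left, mul_inv_cancel, inv_mul_cancel, mul_one, one_mul, inv_one, C])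
  have k38 : o.lt (g * (m⁻¹ * (f * P⁻¹))) (g * (m⁻¹ * (g * P⁻¹))) ↔ o.lt ((g * m⁻¹) * (P * f⁻¹)⁻¹) ((g * m⁻¹) * (P * g⁻¹)⁻¹) := o.cv hδ (1) e33 (by simp only [mul_assoc, mul_inv_rev, inv_inv, mul_inv_cancel_left, inv_mul_cancel_left, mul_inv_cancel, inv_mul_cancel, mul_one, one_mul, inv_one, C]) (by simp only [mul_assoc, mul_inv_rev, inv_inv, mul_inv_cancel_left, inv_mul_cancel_left, mul_inv_cancel, inv_mul_cancel, mul_one, one_mul, inv_one, C])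
  have k39 : o.lt (P * f⁻¹) (m * f⁻¹) ↔ o.lt (P * f⁻¹) (m * f⁻¹) := o.cv hδ (1) e16 (by simp only [mul_assoc, mul_inv_rev, inv_inv, mul_inv_cancel_left, inv_mul_cancel_left, mul_inv_cancel, inv_mul_cancel, mul_one, one_mul, inv_one, C]) (by simp only [mul_assoc, mul_inv_rev, inv_inv, mul_inv_cancel_left, inv_mul_cancel_left, mul_inv_cancel, inv_mul_cancel, mul_one, one_mul, inv_one, C])
  have k40 : o.lt (m * f⁻¹) (P * f⁻¹) ↔ o.lt (m * f⁻¹) (P * f⁻¹) := o.cv hδ (1) e4 (by simp only [mul_assoc, mul_inv_rev, inv_inv, mul_inv_cancel_left, inv_mul_cancel_left, mul_inv_cancel, inv_mul_cancel, mul_one, one_mul, inv_one, C]) (by simp only [mul_assoc, mul_inv_rev, inv_inv, mul_inv_cancel_left, inv_mul_cancel_left, mul_inv_cancel, inv_mul_cancel, mul_one, one_mul, inv_one, C])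
  have k41 : o.lt (P * f⁻¹) (g * Q⁻¹) ↔ o.lt (P * f⁻¹) (g * Q⁻¹) := o.cv hδ (1) e31 (by simp only [mul_assoc, mul_inv_rev, inv_inv, mul_inv_cancel_left, inv_mul_cancel_left, mul_inv_cancel, inv_mul_cancel, mul_one, one_mul, inv_one, C]) (by simp only [mul_assoc, mul_inv_rev, inv_inv, mul_inv_cancel_left, inv_mul_cancel_left, mul_inv_cancel, inv_mul_cancel, mul_one, one_mul, inv_one, C])
  have k42 : o.lt (m * f⁻¹) (g * Q⁻¹) ↔ o.lt (m * f⁻¹) (g * Q⁻¹) := o.cv hδ (1) e35 (by simp only [mul_assoc, mul_inv_rev, inv_inv, mul_inv_cancel_left, inv_mul_cancel_left, mul_inv_cancel, inv_mul_cancel, mul_one, one_mul, inv_one, C]) (by simp only [mul_assoc, mul_inv_rev, inv_inv, mul_inv_cancel_left, inv_mul_cancel_left, mul_inv_cancel, inv_mul_cancel, mul_one, one_mul, inv_one, C])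
  have k43 : o.lt (P * g⁻¹) (m * f⁻¹) ↔ o.lt (P * g⁻¹) (m * f⁻¹) := o.cv hδ (1) e13 (by simp only [mul_assoc, mul_inv_rev, inv_inv, mul_inv_cancel_left, inv_mul_cancel_left, mul_inv_cancel, inv_mul_cancel, mul_one, one_mul, inv_one, C]) (by simp only [mul_assoc, mul_inv_rev, inv_inv, mul_inv_cancel_left, inv_mul_cancel_left, mul_inv_cancel, inv_mul_cancel, mul_one, one_mul, inv_one, C])
  have k44 : o.lt (P * (g⁻¹ * (f * P⁻¹))) (1) ↔ o.lt (P * g⁻¹) (P * f⁻¹) := o.cv hδ (P * f⁻¹) e0 (by simp only [mul_assoc, mul_inv_rev, inv_inv, mul_inv_cancel_left, inv_mul_cancel_left, mul_inv_cancel, inv_mul_cancel, mul_one, one_mul, inv_one, C]) (by simp only [mul_assoc, mul_inv_rev, inv_inv, mul_inv_cancel_left, inv_mul_cancel_left, mul_inv_cancel, inv_mul_cancel, mul_one, one_mul, inv_one, C])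
  have k45 : o.lt (1) (P * (g⁻¹ * (f * m⁻¹))) ↔ o.lt (m * f⁻¹) (P * g⁻¹) := o.cv hδ (m * f⁻¹) e3 (by simp only [mul_assoc, mul_inv_rev, inv_inv, mul_inv_cancel_left, inv_mul_cancel_left, mul_inv_cancel, inv_mul_cancel, mul_one, one_mul, inv_one, C]) (by simp only [mul_assoc, mul_inv_rev, inv_inv, mul_inv_cancel_left, inv_mul_cancel_left, mul_inv_cancel, inv_mul_cancel, mul_one, one_mul, inv_one, C])
  have k46 : o.lt (m * f⁻¹) (m * g⁻¹) ↔ o.lt (m * f⁻¹) (m * g⁻¹) := o.cv hδ (1) e34 (by simp only [mul_assoc, mul_inv_rev, inv_inv, mul_inv_cancel_left, inv_mul_cancel_left, mul_inv_cancel, inv_mul_cancel, mul_one, one_mul, inv_one, C]) (by simp only [mul_assoc, mul_inv_rev, inv_inv, mul_inv_cancel_left, inv_mul_cancel_left, mul_inv_cancel, inv_mul_cancel, mul_one, one_mul, inv_one, C])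
  have k47 : o.lt (m * f⁻¹) (P * f⁻¹) ↔ o.lt (m * g⁻¹) (P * g⁻¹) := o.cv hδ (f * g⁻¹) e4 (by simp only [mul_assoc, mul_inv_rev, inv_inv, mul_inv_cancel_left, inv_mul_cancel_left, mul_inv_cancel, inv_mul_cancel, mul_one, one_mul, inv_one, C]) (by simp only [mul_assoc, mul_inv_rev, inv_inv, mul_inv_cancel_left, inv_mul_cancel_left, mul_inv_cancel, inv_mul_cancel, mul_one, one_mul, inv_one, C])
  have k48 : o.lt (m * g⁻¹) (m * f⁻¹) ↔ o.lt (m * g⁻¹) (m * f⁻¹) := o.cv hδ (1) e36 (by simp only [mul_assoc, mul_inv_rev, inv_inv, mul_inv_cancel_left, inv_mul_cancel_left, mul_inv_cancel, inv_mul_cancel, mul_one, one_mul, inv_one, C]) (by simp only [mul_assoc, mul_inv_rev, inv_inv, mul_inv_cancel_left, inv_mul_cancel_left, mul_inv_cancel, inv_mul_cancel, mul_one, one_mul, inv_one, C])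
  have k49 : o.lt (f * Q⁻¹) (P * f⁻¹) ↔ o.lt (f * Q⁻¹) (P * f⁻¹) := o.cv hδ (1) e10 (by simp only [mul_assoc, mul_inv_rev, inv_inv, mul_inv_cancel_left, inv_mul_cancel_left, mul_inv_cancel, inv_mul_cancel, mul_one, one_mul, inv_one, C]) (by simp only [mul_assoc, mul_inv_rev, inv_inv, mul_inv_cancel_left, inv_mul_cancel_left, mul_inv_cancel, inv_mul_cancel, mul_one, one_mul, inv_one, C])
  have k50 : o.lt (f * Q⁻¹) (P * g⁻¹) ↔ o.lt (f * Q⁻¹) (P * g⁻¹) := o.cv hδ (1) e5 (by simp only [mul_assoc, mul_inv_rev, inv_inv, mul_inv_cancel_left, inv_mul_cancel_left, mul_inv_cancel, inv_mul_cancel, mul_one, one_mul, inv_one, C]) (by simp only [mul_assoc, mul_inv_rev, inv_inv, mul_inv_cancel_left, inv_mul_cancel_left, mul_inv_cancel, inv_mul_cancel, mul_one, one_mul, inv_one, C])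
  have k51 : o.lt (f * Q⁻¹) (m * g⁻¹) ↔ o.lt (f * Q⁻¹) (m * g⁻¹) := o.cv hδ (1) e37 (by simp only [mul_assoc, mul_inv_rev, inv_inv, mul_inv_cancel_left, inv_mul_cancel_left, mul_inv_cancel, inv_mul_cancel, mul_one, one_mul, inv_one, C]) (by simp only [mul_assoc, mul_inv_rev, inv_inv, mul_inv_cancel_left, inv_mul_cancel_left, mul_inv_cancel, inv_mul_cancel, mul_one, one_mul, inv_one, C])
  have k52 : o.lt (P * f⁻¹) (m * f⁻¹) ↔ o.lt (P * g⁻¹) (m * g⁻¹) := o.cv hδ (f * g⁻¹) e16 (by simp only [mul_assoc, mul_inv_rev, inv_inv, mul_inv_cancel_left, inv_mul_cancel_left, mul_inv_cancel, inv_mul_cancel, mul_one, one_mul, inv_one, C]) (by simp only [mul_assoc, mul_inv_rev, inv_inv, mul_inv_cancel_left, inv_mul_cancel_left, mul_inv_cancel, inv_mul_cancel, mul_one, one_mul, inv_one, C])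
  have k53 : o.lt (g * P⁻¹) (f * m⁻¹) ↔ o.lt (g * P⁻¹) (f * m⁻¹) := o.cv hδ (1) e29 (by simp only [mul_assoc, mul_inv_rev, inv_inv, mul_inv_cancel_left, inv_mul_cancel_left, mul_inv_cancel, inv_mul_cancel, mul_one, one_mul, inv_one, C]) (by simp only [mul_assoc, mul_inv_rev, inv_inv, mul_inv_cancel_left, inv_mul_cancel_left, mul_inv_cancel, inv_mul_cancel, mul_one, one_mul, inv_one, C])
  have k54 : o.lt (f * m⁻¹) (g * P⁻¹) ↔ o.lt (f * m⁻¹) (g * P⁻¹) := o.cv hδ (1) e8 (by simp only [mul_assoc, mul_inv_rev, inv_inv, mul_inv_cancel_left, inv_mul_cancel_left, mul_inv_cancel, inv_mul_cancel, mul_one, one_mul, inv_one, C]) (by simp only [mul_assoc, mul_inv_rev, inv_inv, mul_inv_cancel_left, inv_mul_cancel_left, mul_inv_cancel, inv_mul_cancel, mul_one, one_mul, inv_one, C])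
  have k55 : o.lt (g * P⁻¹) (g * m⁻¹) ↔ o.lt (g * P⁻¹) (g * m⁻¹) := o.cv hδ (1) e11 (by simp only [mul_assoc, mul_inv_rev, inv_inv, mul_inv_cancel_left, inv_mul_cancel_left, mul_inv_cancel, inv_mul_cancel, mul_one, one_mul, inv_one, C]) (by simp only [mul_assoc, mul_inv_rev, inv_inv, mul_inv_cancel_left, inv_mul_cancel_left, mul_inv_cancel, inv_mul_cancel, mul_one, one_mul, inv_one, C])
  have k56 : o.lt (g * (m⁻¹ * (P * f⁻¹))) (g * f⁻¹) ↔ o.lt (g * m⁻¹) (g * P⁻¹) := o.cv hδ (f * P⁻¹) e9 (by simp only [mul_assoc, mul_inv_rev, inv_inv, mul_inv_cancel_left, inv_mul_cancel_left, mul_inv_cancel, inv_mul_cancel, mul_one, one_mul, inv_one, C]) (by simp only [mul_assoc, mul_inv_rev, inv_inv, mul_inv_cancel_left, inv_mul_cancel_left, mul_inv_cancel, inv_mul_cancel, mul_one, one_mul, inv_one, C])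
  have k57 : o.lt (f * P⁻¹) (g * P⁻¹) ↔ o.lt (f * m⁻¹) (g * m⁻¹) := o.cv hδ (P * m⁻¹) e6 (by simp only [mul_assoc, mul_inv_rev, inv_inv, mul_inv_cancel_left, inv_mul_cancel_left, mul_inv_cancel, inv_mul_cancel, mul_one, one_mul, inv_one, C]) (by simp only [mul_assoc, mul_inv_rev, inv_inv, mul_inv_cancel_left, inv_mul_cancel_left, mul_inv_cancel, inv_mul_cancel, mul_one, one_mul, inv_one, C])
  have k58 : o.lt (g * P⁻¹) (Q * f⁻¹) ↔ o.lt (g * P⁻¹) (Q * f⁻¹) := o.cv hδ (1) e30 (by simp only [mul_assoc, mul_inv_rev, inv_inv, mul_inv_cancel_left, inv_mul_cancel_left, mul_inv_cancel, inv_mul_cancel, mul_one, one_mul, inv_one, C]) (by simp only [mul_assoc, mul_inv_rev, inv_inv, mul_inv_cancel_left, inv_mul_cancel_left, mul_inv_cancel, inv_mul_cancel, mul_one, one_mul, inv_one, C])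
  have k59 : o.lt (g * m⁻¹) (Q * f⁻¹) ↔ o.lt (g * m⁻¹) (Q * f⁻¹) := o.cv hδ (1) e32 (by simp only [mul_assoc, mul_inv_rev, inv_inv, mul_inv_cancel_left, inv_mul_cancel_left, mul_inv_cancel, inv_mul_cancel, mul_one, one_mul, inv_one, C]) (by simp only [mul_assoc, mul_inv_rev, inv_inv, mul_inv_cancel_left, inv_mul_cancel_left, mul_inv_cancel, inv_mul_cancel, mul_one, one_mul, inv_one, C])
  have k60 : o.lt (Q * f⁻¹) (g * m⁻¹) ↔ o.lt (Q * f⁻¹) (g * m⁻¹) := o.cv hδ (1) e12 (by simp only [mul_assoc, mul_inv_rev, inv_inv, mul_inv_cancel_left, inv_mul_cancel_left, mul_inv_cancel, inv_mul_cancel, mul_one, one_mul, inv_one, C]) (by simp only [mul_assoc, mul_inv_rev, inv_inv, mul_inv_cancel_left, inv_mul_cancel_left, mul_inv_cancel, inv_mul_cancel, mul_one, one_mul, inv_one, C])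
  have k61 : o.lt (Q * f⁻¹) (Q * g⁻¹) ↔ o.lt (Q * f⁻¹) (Q * g⁻¹) := o.cv hδ (1) e38 (by simp only [mul_assoc, mul_inv_rev, inv_inv, mul_inv_cancel_left, inv_mul_cancel_left, mul_inv_cancel, inv_mul_cancel, mul_one, one_mul, inv_one, C]) (by simp only [mul_assoc, mul_inv_rev, inv_inv, mul_inv_cancel_left, inv_mul_cancel_left, mul_inv_cancel, inv_mul_cancel, mul_one, one_mul, inv_one, C])
  have k62 : o.lt (f * Q⁻¹) (P * f⁻¹) ↔ o.lt (Q * f⁻¹) (P * Q⁻¹) := o.cv hδ (Q * (f⁻¹ * (Q * f⁻¹))) e10 (by simp only [mul_assoc, mul_inv_rev, inv_inv, mul_inv_cancel_left, inv_mul_cancel_left, mul_inv_cancel, inv_mul_cancel, mul_one, one_mul, inv_one, C]) (by simp only [mul_assoc, mul_inv_rev, inv_inv, mul_inv_cancel_left, inv_mul_cancel_left, mul_inv_cancel, inv_mul_cancel, mul_one, one_mul, inv_one, C])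
  have k63 : o.lt (P * Q⁻¹) (Q * g⁻¹) ↔ o.lt (P * Q⁻¹) (Q * g⁻¹) := o.cv hδ (1) e23 (by simp only [mul_assoc, mul_inv_rev, inv_inv, mul_inv_cancel_left, inv_mul_cancel_left, mul_inv_cancel, inv_mul_cancel, mul_one, one_mul, inv_one, C]) (by simp only [mul_assoc, mul_inv_rev, inv_inv, mul_inv_cancel_left, inv_mul_cancel_left, mul_inv_cancel, inv_mul_cancel, mul_one, one_mul, inv_one, C])
  have k64 : o.lt (g * (m⁻¹ * (f * P⁻¹))) (g * (m⁻¹ * (g * P⁻¹))) ↔ o.lt (g * m⁻¹) (m * (g⁻¹ * (m * f⁻¹))) := o.cv hδ (P * f⁻¹) e33 (by simp only [mul_assoc, mul_inv_rev, inv_inv, mul_inv_cancel_left, inv_mul_cancel_left, mul_inv_cancel, inv_mul_cancel, mul_one, one_mul, inv_one, C]) (by simp only [mul_assoc, mul_inv_rev, inv_inv, mul_inv_cancel_left, inv_mul_cancel_left, mul_inv_cancel, inv_mul_cancel, mul_one, one_mul, inv_one, C])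
  have k65 : o.lt (g * P⁻¹) (f * P⁻¹) ↔ o.lt (g * m⁻¹) (f * m⁻¹) := o.cv hδ (P * m⁻¹) e28 (by simp only [mul_assoc, mul_inv_rev, inv_inv, mul_inv_cancel_left, inv_mul_cancel_left, mul_inv_cancel, inv_mul_cancel, mul_one, one_mul, inv_one, C]) (by simp only [mul_assoc, mul_inv_rev, inv_inv, mul_inv_cancel_left, inv_mul_cancel_left, mul_inv_cancel, inv_mul_cancel, mul_one, one_mul, inv_one, C])
  have k66 : o.lt (m * f⁻¹) (m * g⁻¹) ↔ o.lt (f * m⁻¹) (m * (g⁻¹ * (m * f⁻¹))) := o.cv hδ (f * (m⁻¹ * (f * m⁻¹))) e34 (by simp only [mul_assoc, mul_inv_rev, inv_inv, mul_inv_cancel_left, inv_mul_cancel_left, mul_inv_cancel, inv_mul_cancel, mul_one, one_mul, inv_one, C]) (by simp only [mul_assoc, mul_inv_rev, inv_inv, mul_inv_cancel_left, inv_mul_cancel_left, mul_inv_cancel, inv_mul_cancel, mul_one, one_mul, inv_one, C])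
  have k67 : o.lt (P * f⁻¹) (m * f⁻¹) ↔ o.lt (P * (g⁻¹ * (m * g⁻¹))) (g * m⁻¹) := o.cv hδ (f * (g⁻¹ * (m * g⁻¹))) e16 (by simp only [mul_assoc, mul_inv_rev, inv_inv, mul_inv_cancel_left, inv_mul_cancel_left, mul_inv_cancel, inv_mul_cancel, mul_one, one_mul, inv_one, C]) (by simp only [mul_assoc, mul_inv_rev, inv_inv, mul_inv_cancel_left, inv_mul_cancel_left, mul_inv_cancel, inv_mul_cancel, mul_one, one_mul, inv_one, C])
  have k68 : o.lt (P * (g⁻¹ * (m * f⁻¹))) (g * (P⁻¹ * (g * f⁻¹))) ↔ o.lt (P * (g⁻¹ * (m * g⁻¹))) (g * P⁻¹) := o.cv hδ (f * g⁻¹) e14 (by simp only [mul_assoc, mul_inv_rev, inv_inv, mul_inv_cancel_left, inv_mul_cancel_left, mul_inv_cancel, inv_mul_cancel, mul_one, one_mul, inv_one, C]) (by simp only [mul_assoc, mul_inv_rev, inv_inv, mul_inv_cancel_left, inv_mul_cancel_left, mul_inv_cancel, inv_mul_cancel, mul_one, one_mul, inv_one, C])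
  have k69 : o.lt (g * (P⁻¹ * (g * f⁻¹))) (P * (g⁻¹ * (m * f⁻¹))) ↔ o.lt (g * P⁻¹) (P * (g⁻¹ * (m * g⁻¹))) := o.cv hδ (f * g⁻¹) e1 (by simp only [mul_assoc, mul_inv_rev, inv_inv, mul_inv_cancel_left, inv_mul_cancel_left, mul_inv_cancel, inv_mul_cancel, mul_one, one_mul, inv_one, C]) (by simp only [mul_assoc, mul_inv_rev, inv_inv, mul_inv_cancel_left, inv_mul_cancel_left, mul_inv_cancel, inv_mul_cancel, mul_one, one_mul, inv_one, C])
  have k70 : o.lt (g * P⁻¹) (P * (g⁻¹ * (f * Q⁻¹))) ↔ o.lt (g * P⁻¹) (P * (g⁻¹ * (f * Q⁻¹))) := o.cv hδ (1) e7 (by simp only [mul_assoc, mul_inv_rev, inv_inv, mul_inv_cancel_left, inv_mul_cancel_left, mul_inv_cancel, inv_mul_cancel, mul_one, one_mul, inv_one, C]) (by simp only [mul_assoc, mul_inv_rev, inv_inv, mul_inv_cancel_left, inv_mul_cancel_left, mul_inv_cancel, inv_mul_cancel, mul_one, one_mul, inv_one, C])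
  have k71 : o.lt (f * Q⁻¹) (P * g⁻¹) ↔ o.lt (Q * f⁻¹) (P * (g⁻¹ * (f * Q⁻¹))) := o.cv hδ (Q * (f⁻¹ * (Q * f⁻¹))) e5 (by simp only [mul_assoc, mul_inv_rev, inv_inv, mul_inv_cancel_left, inv_mul_cancel_left, mul_inv_cancel, inv_mul_cancel, mul_one, one_mul, inv_one, C]) (by simp only [mul_assoc, mul_inv_rev, inv_inv, mul_inv_cancel_left, inv_mul_cancel_left, mul_inv_cancel, inv_mul_cancel, mul_one, one_mul, inv_one, C])
  have k72 : o.lt (P * (m⁻¹ * (g * m⁻¹))) (P * (g⁻¹ * (f * Q⁻¹))) ↔ o.lt (P * (g⁻¹ * (m * g⁻¹))) (P * (g⁻¹ * (f * Q⁻¹))) := o.cv hδ (m * (g⁻¹ * (m * (g⁻¹ * (m * g⁻¹))))) e19 (by simp only [mul_assoc, mul_inv_rev, inv_inv, mul_inv_cancel_left, inv_mul_cancel_left, mul_inv_cancel, inv_mul_cancel, mul_one, one_mul, inv_one, C]) (by simp only [mul_assoc, mul_inv_rev, inv_inv, mul_inv_cancel_left, inv_mul_cancel_left, mul_inv_cancel, inv_mul_cancel, mul_one, one_mul, inv_one, C])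
  have k73 : o.lt (P * (m⁻¹ * (g * m⁻¹))) (P * Q⁻¹) ↔ o.lt (P * (g⁻¹ * (m * g⁻¹))) (P * Q⁻¹) := o.cv hδ (m * (g⁻¹ * (m * (g⁻¹ * (m * g⁻¹))))) e20 (by simp only [mul_assoc, mul_inv_rev, inv_inv, mul_inv_cancel_left, inv_mul_cancel_left, mul_inv_cancel, inv_mul_cancel, mul_one, one_mul, inv_one, C]) (by simp only [mul_assoc, mul_inv_rev, inv_inv, mul_inv_cancel_left, inv_mul_cancel_left, mul_inv_cancel, inv_mul_cancel, mul_one, one_mul, inv_one, C])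
  have k74 : o.lt (P * Q⁻¹) (P * (g⁻¹ * (f * Q⁻¹))) ↔ o.lt (P * Q⁻¹) (P * (g⁻¹ * (f * Q⁻¹))) := o.cv hδ (1) e2 (by simp only [mul_assoc, mul_inv_rev, inv_inv, mul_inv_cancel_left, inv_mul_cancel_left, mul_inv_cancel, inv_mul_cancel, mul_one, one_mul, inv_one, C]) (by simp only [mul_assoc, mul_inv_rev, inv_inv, mul_inv_cancel_left, inv_mul_cancel_left, mul_inv_cancel, inv_mul_cancel, mul_one, one_mul, inv_one, C])
  have k75 : o.lt (P * (m⁻¹ * (g * m⁻¹))) (P * (g⁻¹ * (m * f⁻¹))) ↔ o.lt (P * (g⁻¹ * (m * g⁻¹))) (P * (g⁻¹ * (m * f⁻¹))) := o.cv hδ (m * (g⁻¹ * (m * (g⁻¹ * (m * g⁻¹))))) e18 (by simp only [mul_assoc, mul_inv_rev, inv_inv, mul_inv_cancel_left, inv_mul_cancel_left, mul_inv_cancel, inv_mul_cancel, mul_one, one_mul, inv_one, C]) (by simp only [mul_assoc, mul_inv_rev, inv_inv, mul_inv_cancel_left, inv_mul_cancel_left, mul_inv_cancel, inv_mul_cancel, mul_one, one_mul, inv_one, C])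
  have k76 : o.lt (P * (g⁻¹ * (m * f⁻¹))) (P * Q⁻¹) ↔ o.lt (P * (g⁻¹ * (m * f⁻¹))) (P * Q⁻¹) := o.cv hδ (1) e15 (by simp only [mul_assoc, mul_inv_rev, inv_inv, mul_inv_cancel_left, inv_mul_cancel_left, mul_inv_cancel, inv_mul_cancel, mul_one, one_mul, inv_one, C]) (by simp only [mul_assoc, mul_inv_rev, inv_inv, mul_inv_cancel_left, inv_mul_cancel_left, mul_inv_cancel, inv_mul_cancel, mul_one, one_mul, inv_one, C])
  have k77 : o.lt (P * (g⁻¹ * (f * Q⁻¹))) (P * (m⁻¹ * (g * m⁻¹))) ↔ o.lt (P * (g⁻¹ * (f * Q⁻¹))) (P * (g⁻¹ * (m * g⁻¹))) := o.cv hδ (1) e24 (by simp only [mul_assoc, mul_inv_rev, inv_inv, mul_inv_cancel_left, inv_mul_cancel_left, mul_inv_cancel, inv_mul_cancel, mul_one, one_mul, inv_one, C]) (by simp only [mul_assoc, mul_inv_rev, inv_inv, mul_inv_cancel_left, inv_mul_cancel_left, mul_inv_cancel, inv_mul_cancel, mul_one, one_mul, inv_one, C])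
  have k78 : o.lt (P * (g⁻¹ * (f * P⁻¹))) (1) ↔ o.lt (P * (g⁻¹ * (f * Q⁻¹))) (P * Q⁻¹) := o.cv hδ (P * Q⁻¹) e0 (by simp only [mul_assoc, mul_inv_rev, inv_inv, mul_inv_cancel_left, inv_mul_cancel_left, mul_inv_cancel, inv_mul_cancel, mul_one, one_mul, inv_one, C]) (by simp only [mul_assoc, mul_inv_rev, inv_inv, mul_inv_cancel_left, inv_mul_cancel_left, mul_inv_cancel, inv_mul_cancel, mul_one, one_mul, inv_one, C])
  have k79 : o.lt (P * Q⁻¹) (P * (m⁻¹ * (g * m⁻¹))) ↔ o.lt (P * Q⁻¹) (P * (g⁻¹ * (m * g⁻¹))) := o.cv hδ (1) e27 (by simp only [mul_assoc, mul_inv_rev, inv_inv, mul_inv_cancel_left, inv_mul_cancel_left, mul_inv_cancel, inv_mul_cancel, mul_one, one_mul, inv_one, C]) (by simp only [mul_assoc, mul_inv_rev, inv_inv, mul_inv_cancel_left, inv_mul_cancel_left, mul_inv_cancel, inv_mul_cancel, mul_one, one_mul, inv_one, C])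
  have k80 : o.lt (1) (P * (g⁻¹ * (f * m⁻¹))) ↔ o.lt (1) (P * (g⁻¹ * (f * m⁻¹))) := o.cv hδ (1) e3 (by simp only [mul_assoc, mul_inv_rev, inv_inv, mul_inv_cancel_left, inv_mul_cancel_left, mul_inv_cancel, inv_mul_cancel, mul_one, one_mul, inv_one, C]) (by simp only [mul_assoc, mul_inv_rev, inv_inv, mul_inv_cancel_left, inv_mul_cancel_left, mul_inv_cancel, inv_mul_cancel, mul_one, one_mul, inv_one, C])
  have k81 : o.lt (f * Q⁻¹) (P * g⁻¹) ↔ o.lt (1) (P * (g⁻¹ * (Q * f⁻¹))) := o.cv hδ (Q * f⁻¹) e5 (by simp only [mul_assoc, mul_inv_rev, inv_inv, mul_inv_cancel_left, inv_mul_cancel_left, mul_inv_cancel, inv_mul_cancel, mul_one, one_mul, inv_one, C]) (by simp only [mul_assoc, mul_inv_rev, inv_inv, mul_inv_cancel_left, inv_mul_cancel_left, mul_inv_cancel, inv_mul_cancel, mul_one, one_mul, inv_one, C])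
  have k82 : o.lt (P * (g⁻¹ * (Q * f⁻¹))) (P * (g⁻¹ * (f * m⁻¹))) ↔ o.lt (P * (g⁻¹ * (Q * f⁻¹))) (P * (g⁻¹ * (f * m⁻¹))) := o.cv hδ (1) e21 (by simp only [mul_assoc, mul_inv_rev, inv_inv, mul_inv_cancel_left, inv_mul_cancel_left, mul_inv_cancel, inv_mul_cancel, mul_one, one_mul, inv_one, C]) (by simp only [mul_assoc, mul_inv_rev, inv_inv, mul_inv_cancel_left, inv_mul_cancel_left, mul_inv_cancel, inv_mul_cancel, mul_one, one_mul, inv_one, C])
  have k83 : o.lt (P * m⁻¹) (P * (g⁻¹ * (Q * f⁻¹))) ↔ o.lt (P * m⁻¹) (P * (g⁻¹ * (Q * f⁻¹))) := o.cv hδ (1) e17 (by simp only [mul_assoc, mul_inv_rev, inv_inv, mul_inv_cancel_left, inv_mul_cancel_left, mul_inv_cancel, inv_mul_cancel, mul_one, one_mul, inv_one, C]) (by simp only [mul_assoc, mul_inv_rev, inv_inv, mul_inv_cancel_left, inv_mul_cancel_left, mul_inv_cancel, inv_mul_cancel, mul_one, one_mul, inv_one, C])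
  have k84 : o.lt (P * f⁻¹) (m * f⁻¹) ↔ o.lt (P * m⁻¹) (1) := o.cv hδ (f * m⁻¹) e16 (by simp only [mul_assoc, mul_inv_rev, inv_inv, mul_inv_cancel_left, inv_mul_cancel_left, mul_inv_cancel, inv_mul_cancel, mul_one, one_mul, inv_one, C]) (by simp only [mul_assoc, mul_inv_rev, inv_inv, mul_inv_cancel_left, inv_mul_cancel_left, mul_inv_cancel, inv_mul_cancel, mul_one, one_mul, inv_one, C])
  have k85 : o.lt (P * (g⁻¹ * (Q * f⁻¹))) (P * (Q⁻¹ * (g * Q⁻¹))) ↔ o.lt (P * (g⁻¹ * (Q * f⁻¹))) (P * (g⁻¹ * (Q * g⁻¹))) := o.cv hδ (1) e22 (by simp only [mul_assoc, mul_inv_rev, inv_inv, mul_inv_cancel_left, inv_mul_cancel_left, mul_inv_cancel, inv_mul_cancel, mul_one, one_mul, inv_one, C]) (by simp only [mul_assoc, mul_inv_rev, inv_inv, mul_inv_cancel_left, inv_mul_cancel_left, mul_inv_cancel, inv_mul_cancel, mul_one, one_mul, inv_one, C])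
  have k86 : o.lt (P * (Q⁻¹ * (g * Q⁻¹))) (P * (g⁻¹ * (Q * f⁻¹))) ↔ o.lt (P * (g⁻¹ * (Q * g⁻¹))) (P * (g⁻¹ * (Q * f⁻¹))) := o.cv hδ (Q * (g⁻¹ * (Q * (g⁻¹ * (Q * g⁻¹))))) e26 (by simp only [mul_assoc, mul_inv_rev, inv_inv, mul_inv_cancel_left, inv_mul_cancel_left, mul_inv_cancel, inv_mul_cancel, mul_one, one_mul, inv_one, C]) (by simp only [mul_assoc, mul_inv_rev, inv_inv, mul_inv_cancel_left, inv_mul_cancel_left, mul_inv_cancel, inv_mul_cancel, mul_one, one_mul, inv_one, C])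
  have k87 : o.lt (P * Q⁻¹) (Q * g⁻¹) ↔ o.lt (P * (g⁻¹ * (Q * g⁻¹))) (1) := o.cv hδ (Q * (g⁻¹ * (Q * g⁻¹))) e23 (by simp only [mul_assoc, mul_inv_rev, inv_inv, mul_inv_cancel_left, inv_mul_cancel_left, mul_inv_cancel, inv_mul_cancel, mul_one, one_mul, inv_one, C]) (by simp only [mul_assoc, mul_inv_rev, inv_inv, mul_inv_cancel_left, inv_mul_cancel_left, mul_inv_cancel, inv_mul_cancel, mul_one, one_mul, inv_one, C])
  have k88 : o.lt (P * (Q⁻¹ * (g * Q⁻¹))) (P * (g⁻¹ * (f * m⁻¹))) ↔ o.lt (P * (g⁻¹ * (Q * g⁻¹))) (P * (g⁻¹ * (f * m⁻¹))) := o.cv hδ (Q * (g⁻¹ * (Q * (g⁻¹ * (Q * g⁻¹))))) e25 (by simp only [mul_assoc, mul_inv_rev, inv_inv, mul_inv_cancel_left, inv_mul_cancel_left, mul_inv_cancel, inv_mul_cancel, mul_one, one_mul, inv_one, C]) (by simp only [mul_assoc, mul_inv_rev, inv_inv, mul_inv_cancel_left, inv_mul_cancel_left, mul_inv_cancel, inv_mul_cancel, mul_one, one_mul, inv_one, C])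
  have k89 : o.lt (P * g⁻¹) (m * f⁻¹) ↔ o.lt (P * (g⁻¹ * (f * m⁻¹))) (1) := o.cv hδ (f * m⁻¹) e13 (by simp only [mul_assoc, mul_inv_rev, inv_inv, mul_inv_cancel_left, inv_mul_cancel_left, mul_inv_cancel, inv_mul_cancel, mul_one, one_mul, inv_one, C]) (by simp only [mul_assoc, mul_inv_rev, inv_inv, mul_inv_cancel_left, inv_mul_cancel_left, mul_inv_cancel, inv_mul_cancel, mul_one, one_mul, inv_one, C])
  have k90 : o.lt (g * P⁻¹) (f * P⁻¹) ↔ o.lt (g) (f) := o.cv hδ (P) e28 (by simp only [mul_assoc, mul_inv_rev, inv_inv, mul_inv_cancel_left, inv_mul_cancel_left, mul_inv_cancel, inv_mul_cancel, mul_one, one_mul, inv_one, C]) (by simp only [mul_assoc, mul_inv_rev, inv_inv, mul_inv_cancel_left, inv_mul_cancel_left, mul_inv_cancel, inv_mul_cancel, mul_one, one_mul, inv_one, C])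
  exact ser_ECC_2_prop
    (fun b0 b1 b2 => N0.i.r0 1 (k0.1 b0) (fun h => b1 (k1.2 h)) (fun h => b2 (k2.2 h)))
    (fun b0 b1 b2 => N0.i.r1 1 (fun h => b0 (k3.2 h)) (k4.1 b1) (fun h => b2 (k1.2 h)))
    (fun b0 b1 b2 => N0.d.r1 1 (fun h => b0 (k0.2 h)) (k5.1 b1) (fun h => b2 (k6.2 h)))
    (fun b0 b1 b2 b3 => N1.i.r2 1 (fun h => b0 (k5.2 h)) (k7.1 b1) (fun h => b2 (k8.2 h)) (fun h => b3 (k9.2 h)))
    (fun b0 b1 b2 => N1.rd.r0 1 (k10.1 b0) (fun h => b1 (k11.2 h)) (fun h => b2 (k12.2 h)))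
    (fun b0 b1 b2 => N1.i.r0 1 (k13.1 b0) (fun h => b1 (k8.2 h)) (fun h => b2 (k14.2 h)))
    (fun b0 b1 b2 => N0.d.r0 (P * g⁻¹) (k15.1 b0) (fun h => b1 (k16.2 h)) (fun h => b2 (k17.2 h)))
    (fun b0 b1 b2 => N0.d.r1 (P * g⁻¹) (fun h => b0 (k18.2 h)) (k19.1 b1) (fun h => b2 (k16.2 h)))
    (fun b0 b1 b2 b3 => N1.d.r1 (P * g⁻¹) (k20.1 b0) (fun h => b1 (k21.2 h)) (fun h => b2 (k22.2 h)) (fun h => b3 (k23.2 h)))
    (fun b0 b1 b2 b3 => N1.i.r2 (P * g⁻¹) (fun h => b0 (k19.2 h)) (k24.1 b1) (fun h => b2 (k25.2 h)) (fun h => b3 (k26.2 h)))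
    (fun b0 b1 b2 => N1.r.r0 (P * g⁻¹) (k27.1 b0) (fun h => b1 (k28.2 h)) (fun h => b2 (k29.2 h)))
    (fun b0 b1 b2 => N1.d.r0 (P * g⁻¹) (k21.1 b0) (fun h => b1 (k30.2 h)) (fun h => b2 (k31.2 h)))
    (fun b0 b1 b2 b3 => N1.r.r1 (P * g⁻¹) (k32.1 b0) (fun h => b1 (k27.2 h)) (fun h => b2 (k33.2 h)) (fun h => b3 (k23.2 h)))
    (fun b0 b1 b2 b3 => N1.r.r2 (P * g⁻¹) (fun h => b0 (k34.2 h)) (k35.1 b1) (fun h => b2 (k28.2 h)) (fun h => b3 (k23.2 h)))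
    (fun b0 b1 b2 => N0.d.r1 (g * m⁻¹) (fun h => b0 (k36.2 h)) (k37.1 b1) (fun h => b2 (k38.2 h)))
    (fun b0 b1 => o.asym (k39.1 b0) (k40.1 b1))
    (fun b0 b1 b2 => o.tri (k41.1 b0) (fun h => b1 (k39.2 h)) (fun h => b2 (k42.2 h)))
    (fun b0 b1 b2 => o.tri (k43.1 b0) (fun h => b1 (k44.2 h)) (fun h => b2 (k39.2 h)))
    (fun b0 b1 b2 => o.tri (k40.1 b0) (fun h => b1 (k45.2 h)) (fun h => b2 (k44.2 h)))
    (fun b0 b1 b2 => o.tri (k45.1 b0) (fun h => b1 (k46.2 h)) (fun h => b2 (k47.2 h)))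
    (fun b0 b1 => o.asym (k46.1 b0) (k48.1 b1))
    (fun b0 b1 b2 => o.tri (k48.1 b0) (fun h => b1 (k47.2 h)) (fun h => b2 (k43.2 h)))
    (fun b0 b1 b2 => o.tri (k49.1 b0) (fun h => b1 (k50.2 h)) (fun h => b2 (k44.2 h)))
    (fun b0 b1 b2 => o.tri (k51.1 b0) (fun h => b1 (k50.2 h)) (fun h => b2 (k52.2 h)))
    (fun b0 b1 => o.asym (k53.1 b0) (k54.1 b1))
    (fun b0 b1 => o.asym (k55.1 b0) (k56.1 b1))
    (fun b0 b1 b2 => o.tri (k55.1 b0) (fun h => b1 (k53.2 h)) (fun h => b2 (k57.2 h)))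
    (fun b0 b1 b2 => o.tri (k58.1 b0) (fun h => b1 (k55.2 h)) (fun h => b2 (k59.2 h)))
    (fun b0 b1 => o.asym (k59.1 b0) (k60.1 b1))
    (fun b0 b1 b2 => o.tri (k61.1 b0) (fun h => b1 (k62.2 h)) (fun h => b2 (k63.2 h)))
    (fun b0 b1 b2 => o.tri (k64.1 b0) (fun h => b1 (k65.2 h)) (fun h => b2 (k66.2 h)))
    (fun b0 b1 b2 => o.tri (k67.1 b0) (fun h => b1 (k68.2 h)) (fun h => b2 (k55.2 h)))
    (fun b0 b1 => o.asym (k69.1 b0) (k68.1 b1))
    (fun b0 b1 b2 => o.tri (k70.1 b0) (fun h => b1 (k58.2 h)) (fun h => b2 (k71.2 h)))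
    (fun b0 b1 b2 => o.tri (k72.1 b0) (fun h => b1 (k68.2 h)) (fun h => b2 (k70.2 h)))
    (fun b0 b1 b2 => o.tri (k72.1 b0) (fun h => b1 (k73.2 h)) (fun h => b2 (k74.2 h)))
    (fun b0 b1 b2 => o.tri (k73.1 b0) (fun h => b1 (k75.2 h)) (fun h => b2 (k76.2 h)))
    (fun b0 b1 b2 => o.tri (k77.1 b0) (fun h => b1 (k78.2 h)) (fun h => b2 (k79.2 h)))
    (fun b0 b1 b2 => o.tri (k80.1 b0) (fun h => b1 (k81.2 h)) (fun h => b2 (k82.2 h)))
    (fun b0 b1 b2 => o.tri (k83.1 b0) (fun h => b1 (k84.2 h)) (fun h => b2 (k81.2 h)))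
    (fun b0 b1 => o.asym (k85.1 b0) (k86.1 b1))
    (fun b0 b1 b2 => o.tri (k87.1 b0) (fun h => b1 (k88.2 h)) (fun h => b2 (k89.2 h)))
    (fun h => g0 (k44.1 h))
    (k41.2 g1)
    (fun h => g2 (k50.1 h))
    (fun h => g3 (k90.1 h))

theorem ser_AEA_0_prop {A1 A2 A3 A4 A5 A6 A7 A8 A9 A10 A11 A12 A13 A14 A15 A16 A17 A18 A19 A20 A21 A22 A23 A24 A25 A26 A27 A28 A29 A30 A31 A32 A33 A34 A35 A36 A37 A38 : Prop}
    (c0 : ¬ A1 → A18 → ¬ A31 → False)
    (c1 : ¬ A7 → ¬ A2 → A31 → False)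
    (c2 : ¬ A29 → ¬ A18 → A34 → False)
    (c3 : ¬ A36 → A37 → ¬ A7 → False)
    (c4 : ¬ A35 → A38 → ¬ A29 → False)
    (c5 : ¬ A37 → ¬ A33 → A29 → False)
    (c6 : ¬ A13 → A18 → ¬ A15 → False)
    (c7 : ¬ A1 → ¬ A2 → A15 → False)
    (c8 : ¬ A5 → A21 → ¬ A16 → False)
    (c9 : A24 → ¬ A1 → ¬ A22 → False)
    (c10 : ¬ A14 → A27 → ¬ A1 → False)
    (c11 : ¬ A24 → A13 → ¬ A9 → False)
    (c12 : ¬ A19 → ¬ A23 → A9 → False)
    (c13 : ¬ A27 → ¬ A17 → A9 → False)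
    (c14 : A12 → ¬ A18 → ¬ A7 → False)
    (c15 : A18 → A2 → False)
    (c16 : A26 → A4 → False)
    (c17 : A31 → ¬ A32 → ¬ A36 → False)
    (c18 : A29 → A7 → False)
    (c19 : A3 → ¬ A29 → ¬ A4 → False)
    (c20 : A33 → ¬ A3 → ¬ A12 → False)
    (c21 : A35 → A36 → False)
    (c22 : A35 → ¬ A34 → ¬ A32 → False)
    (c23 : A28 → ¬ A30 → ¬ A38 → False)
    (c24 : A30 → ¬ A29 → ¬ A32 → False)
    (c25 : A6 → ¬ A28 → ¬ A3 → False)
    (c26 : A36 → ¬ A8 → ¬ A12 → False)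
    (c27 : A8 → ¬ A3 → ¬ A25 → False)
    (c28 : A17 → A25 → False)
    (c29 : A17 → ¬ A15 → ¬ A6 → False)
    (c30 : A5 → ¬ A29 → ¬ A1 → False)
    (c31 : A10 → A20 → False)
    (c32 : A22 → ¬ A21 → ¬ A6 → False)
    (c33 : A22 → ¬ A9 → ¬ A17 → False)
    (c34 : A23 → ¬ A20 → ¬ A11 → False)
    (c35 : A3 → ¬ A4 → ¬ A27 → False)
    (c36 : A13 → A19 → False)
    (c37 : A13 → ¬ A15 → ¬ A10 → False)
    (c38 : A16 → ¬ A18 → ¬ A1 → False)
    (c39 : A14 → ¬ A18 → ¬ A4 → False)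
    (c40 : A26 → ¬ A24 → ¬ A18 → False)
    (c41 : A11 → ¬ A28 → ¬ A4 → False)
    (u0 : ¬ A1)
    (u1 : A26)
    (u2 : ¬ A32)
    : False := by
  have q1 : ¬ A4 := fun h => c16 u1 h
  rcases Classical.em A18 with q2 | q2
  · have q3 : A31 := Classical.byContradiction fun h => c0 u0 q2 h
    have q4 : ¬ A2 := fun h => c15 q2 h
    have q5 : A7 := Classical.byContradiction fun h => c1 h q4 q3
    have q6 : ¬ A15 := fun h => c7 u0 q4 h
    have q7 : A13 := Classical.byContradiction fun h => c6 h q2 q6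
    have q8 : A36 := Classical.byContradiction fun h => c17 q3 u2 h
    have q9 : ¬ A29 := fun h => c18 h q5
    have q10 : ¬ A3 := fun h => c19 h q9 q1
    have q11 : ¬ A35 := fun h => c21 h q8
    have q12 : ¬ A38 := fun h => c4 q11 h q9
    have q13 : ¬ A30 := fun h => c24 h q9 u2
    have q14 : ¬ A28 := fun h => c23 h q13 q12
    have q15 : ¬ A6 := fun h => c25 h q14 q10
    have q16 : ¬ A17 := fun h => c29 h q6 q15
    have q17 : ¬ A5 := fun h => c30 h q9 u0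
    have q18 : ¬ A19 := fun h => c36 q7 h
    have q19 : A10 := Classical.byContradiction fun h => c37 q7 q6 h
    have q20 : ¬ A20 := fun h => c31 q19 h
    have q21 : ¬ A11 := fun h => c41 h q14 q1
    have q22 : ¬ A23 := fun h => c34 h q20 q21
    have q23 : ¬ A9 := fun h => c12 q18 q22 h
    have q24 : A24 := Classical.byContradiction fun h => c11 h q7 q23
    have q25 : A22 := Classical.byContradiction fun h => c9 q24 u0 h
    exact c33 q25 q23 q16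
  · have q26 : ¬ A16 := fun h => c38 h q2 u0
    have q27 : ¬ A14 := fun h => c39 h q2 q1
    have q28 : ¬ A27 := fun h => c10 q27 h u0
    have q29 : ¬ A3 := fun h => c35 h q1 q28
    have q30 : A24 := Classical.byContradiction fun h => c40 u1 h q2
    have q31 : A22 := Classical.byContradiction fun h => c9 q30 u0 h
    rcases Classical.em A29 with q32 | q32
    · have q33 : ¬ A7 := fun h => c18 q32 h
      have q34 : ¬ A12 := fun h => c14 h q2 q33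
      have q35 : ¬ A33 := fun h => c20 h q29 q34
      have q36 : A37 := Classical.byContradiction fun h => c5 h q35 q32
      have q37 : A36 := Classical.byContradiction fun h => c3 h q36 q33
      have q38 : ¬ A35 := fun h => c21 h q37
      have q39 : A8 := Classical.byContradiction fun h => c26 q37 h q34
      have q40 : A25 := Classical.byContradiction fun h => c27 q39 q29 h
      have q41 : ¬ A17 := fun h => c28 h q40
      have q42 : ¬ A9 := fun h => c13 q28 q41 h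
      exact c33 q31 q42 q41
    · have q43 : ¬ A34 := fun h => c2 q32 q2 h
      have q44 : ¬ A35 := fun h => c22 h q43 u2
      have q45 : ¬ A38 := fun h => c4 q44 h q32
      have q46 : ¬ A30 := fun h => c24 h q32 u2
      have q47 : ¬ A28 := fun h => c23 h q46 q45
      have q48 : ¬ A6 := fun h => c25 h q47 q29
      have q49 : ¬ A5 := fun h => c30 h q32 u0
      have q50 : ¬ A21 := fun h => c8 q49 h q26
      exact c32 q31 q50 q48

theorem ser_AEA_0 {G : Type*} [Group G] {δ : G → ZMod 3} (hδ : ∀ u v, δ (u * v) = δ u + δ v) (o : Pre δ)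
    {P m Q f g : G} {e : ZMod 3} (h3 : 3 * e = 0)
    (D : δ P = e ∧ δ m = -e ∧ δ Q = -e ∧ δ f = 0 ∧ δ g = 0)
    (C : Cube P f ∧ Cube P g ∧ Cube m f ∧ Cube m g ∧ Cube Q f ∧ Cube Q g)
    (N0 : RA o P m f g)
    (N1 : RE o m Q f g)
    (g0 : ¬ o.lt (P * g⁻¹) (P * f⁻¹)) (g1 : o.lt (P * f⁻¹) (g * Q⁻¹)) (g2 : ¬ o.lt ((P * g⁻¹)⁻¹) ((g * Q⁻¹)⁻¹)) : False := by
  simp only [Cube] at C
  have e0 : δ (P * g⁻¹) = δ (P * f⁻¹) := by simp only [hδ, δinv hδ, δone hδ, D] <;> linear_combination (0) * h3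
  have e1 : δ (g * m⁻¹) = δ (P * f⁻¹) := by simp only [hδ, δinv hδ, δone hδ, D] <;> linear_combination (0) * h3
  have e2 : δ (f * Q⁻¹) = δ (P * f⁻¹) := by simp only [hδ, δinv hδ, δone hδ, D] <;> linear_combination (0) * h3
  have e3 : δ (g * Q⁻¹) = δ (P * f⁻¹) := by simp only [hδ, δinv hδ, δone hδ, D] <;> linear_combination (0) * h3
  have e4 : δ (f * P⁻¹) = δ (f * (P⁻¹ * (f * g⁻¹))) := by simp only [hδ, δinv hδ, δone hδ, D] <;> linear_combination (0) * h3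
  have e5 : δ (f * P⁻¹) = δ (P * Q⁻¹) := by simp only [hδ, δinv hδ, δone hδ, D] <;> linear_combination (-1) * h3
  have e6 : δ (g * m⁻¹) = δ (f * m⁻¹) := by simp only [hδ, δinv hδ, δone hδ, D] <;> linear_combination (0) * h3
  have e7 : δ (Q * f⁻¹) = δ (P * m⁻¹) := by simp only [hδ, δinv hδ, δone hδ, D] <;> linear_combination (-1) * h3
  have e8 : δ (P * (f⁻¹ * (g * Q⁻¹))) = δ (P * Q⁻¹) := by simp only [hδ, δinv hδ, δone hδ, D] <;> linear_combination (0) * h3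
  have e9 : δ (f * (P⁻¹ * (f * g⁻¹))) = δ (P * (f⁻¹ * (g * m⁻¹))) := by simp only [hδ, δinv hδ, δone hδ, D] <;> linear_combination (-1) * h3
  have e10 : δ (f * (P⁻¹ * (f * g⁻¹))) = δ (P * (f⁻¹ * (g * Q⁻¹))) := by simp only [hδ, δinv hδ, δone hδ, D] <;> linear_combination (-1) * h3
  have e11 : δ (P * f⁻¹) = δ (f * m⁻¹) := by simp only [hδ, δinv hδ, δone hδ, D] <;> linear_combination (0) * h3
  have e12 : δ (P * (m⁻¹ * (f * m⁻¹))) = δ (P * (f⁻¹ * (m * g⁻¹))) := by simp only [hδ, δinv hδ, δone hδ, D] <;> linear_combination (1) * h3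
  have e13 : δ (P * (m⁻¹ * (f * m⁻¹))) = δ (P * (Q⁻¹ * (f * Q⁻¹))) := by simp only [hδ, δinv hδ, δone hδ, D] <;> linear_combination (0) * h3
  have e14 : δ (P * m⁻¹) = δ (f * P⁻¹) := by simp only [hδ, δinv hδ, δone hδ, D] <;> linear_combination (1) * h3
  have e15 : δ (P * (f⁻¹ * (m * g⁻¹))) = δ (P * (f⁻¹ * (g * P⁻¹))) := by simp only [hδ, δinv hδ, δone hδ, D] <;> linear_combination (0) * h3
  have e16 : δ (P * m⁻¹) = δ (P * Q⁻¹) := by simp only [hδ, δinv hδ, δone hδ, D] <;> linear_combination (0) * h3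
  have e17 : δ (P * f⁻¹) = δ (g * m⁻¹) := by simp only [hδ, δinv hδ, δone hδ, D] <;> linear_combination (0) * h3
  have e18 : δ (P * (f⁻¹ * (m * g⁻¹))) = δ (P * (m⁻¹ * (f * m⁻¹))) := by simp only [hδ, δinv hδ, δone hδ, D] <;> linear_combination (-1) * h3
  have e19 : δ (P * (f⁻¹ * (g * m⁻¹))) = δ (f * (P⁻¹ * (f * g⁻¹))) := by simp only [hδ, δinv hδ, δone hδ, D] <;> linear_combination (1) * h3
  have e20 : δ (P * (f⁻¹ * (g * m⁻¹))) = δ (f * P⁻¹) := by simp only [hδ, δinv hδ, δone hδ, D] <;> linear_combination (1) * h3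
  have e21 : δ (P * (f⁻¹ * (g * m⁻¹))) = δ (P * Q⁻¹) := by simp only [hδ, δinv hδ, δone hδ, D] <;> linear_combination (0) * h3
  have e22 : δ (P * (f⁻¹ * (g * m⁻¹))) = δ (P * (f⁻¹ * (g * Q⁻¹))) := by simp only [hδ, δinv hδ, δone hδ, D] <;> linear_combination (0) * h3
  have e23 : δ (P * (Q⁻¹ * (f * Q⁻¹))) = δ (P * (m⁻¹ * (f * m⁻¹))) := by simp only [hδ, δinv hδ, δone hδ, D] <;> linear_combination (0) * h3
  have e24 : δ (P * Q⁻¹) = δ (P * m⁻¹) := by simp only [hδ, δinv hδ, δone hδ, D] <;> linear_combination (0) * h3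
  have e25 : δ (P * f⁻¹) = δ (g * Q⁻¹) := by simp only [hδ, δinv hδ, δone hδ, D] <;> linear_combination (0) * h3
  have e26 : δ (P * (f⁻¹ * (Q * g⁻¹))) = δ (P * (Q⁻¹ * (f * Q⁻¹))) := by simp only [hδ, δinv hδ, δone hδ, D] <;> linear_combination (-1) * h3
  have e27 : δ (f * P⁻¹) = δ (Q * f⁻¹) := by simp only [hδ, δinv hδ, δone hδ, D] <;> linear_combination (0) * h3
  have e28 : δ (f * m⁻¹) = δ (g * m⁻¹) := by simp only [hδ, δinv hδ, δone hδ, D] <;> linear_combination (0) * h3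
  have e29 : δ (f * P⁻¹) = δ (Q * g⁻¹) := by simp only [hδ, δinv hδ, δone hδ, D] <;> linear_combination (0) * h3
  have e30 : δ (g * P⁻¹) = δ (m * g⁻¹) := by simp only [hδ, δinv hδ, δone hδ, D] <;> linear_combination (0) * h3
  have e31 : δ (P * g⁻¹) = δ (Q * P⁻¹) := by simp only [hδ, δinv hδ, δone hδ, D] <;> linear_combination (1) * h3
  have e32 : δ (f * Q⁻¹) = δ (f * m⁻¹) := by simp only [hδ, δinv hδ, δone hδ, D] <;> linear_combination (0) * h3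
  have e33 : δ (m * g⁻¹) = δ (g * P⁻¹) := by simp only [hδ, δinv hδ, δone hδ, D] <;> linear_combination (0) * h3
  have e34 : δ (m * f⁻¹) = δ (Q * f⁻¹) := by simp only [hδ, δinv hδ, δone hδ, D] <;> linear_combination (0) * h3
  have e35 : δ (Q * f⁻¹) = δ (m * f⁻¹) := by simp only [hδ, δinv hδ, δone hδ, D] <;> linear_combination (0) * h3
  have e36 : δ (Q * f⁻¹) = δ (Q * g⁻¹) := by simp only [hδ, δinv hδ, δone hδ, D] <;> linear_combination (0) * h3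
  have e37 : δ (Q * g⁻¹) = δ (Q * f⁻¹) := by simp only [hδ, δinv hδ, δone hδ, D] <;> linear_combination (0) * h3
  have k0 : o.lt (P * g⁻¹) (P * f⁻¹) ↔ o.lt (1 * (P * g⁻¹)) (1 * (P * f⁻¹)) := o.cv hδ (1) e0 (by simp only [mul_assoc, mul_inv_rev, inv_inv, mul_inv_cancel_left, inv_mul_cancel_left, mul_inv_cancel, inv_mul_cancel, mul_one, one_mul, inv_one, C]) (by simp only [mul_assoc, mul_inv_rev, inv_inv, mul_inv_cancel_left, inv_mul_cancel_left, mul_inv_cancel, inv_mul_cancel, mul_one, one_mul, inv_one, C])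
  have k1 : o.lt (P * f⁻¹) (g * m⁻¹) ↔ o.lt (1 * (P * f⁻¹)) (1 * (g * m⁻¹)) := o.cv hδ (1) e17 (by simp only [mul_assoc, mul_inv_rev, inv_inv, mul_inv_cancel_left, inv_mul_cancel_left, mul_inv_cancel, inv_mul_cancel, mul_one, one_mul, inv_one, C]) (by simp only [mul_assoc, mul_inv_rev, inv_inv, mul_inv_cancel_left, inv_mul_cancel_left, mul_inv_cancel, inv_mul_cancel, mul_one, one_mul, inv_one, C])
  have k2 : o.lt (g * P⁻¹) (m * g⁻¹) ↔ o.lt (1 * (P * g⁻¹)⁻¹) (1 * (g * m⁻¹)⁻¹) := o.cv hδ (1) e30 (by simp only [mul_assoc, mul_inv_rev, inv_inv, mul_inv_cancel_left, inv_mul_cancel_left, mul_inv_cancel, inv_mul_cancel, mul_one, one_mul, inv_one, C]) (by simp only [mul_assoc, mul_inv_rev, inv_inv, mul_inv_cancel_left, inv_mul_cancel_left, mul_inv_cancel, inv_mul_cancel, mul_one, one_mul, inv_one, C])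
  have k3 : o.lt (g * m⁻¹) (f * m⁻¹) ↔ o.lt (1 * (g * m⁻¹)) (1 * (f * m⁻¹)) := o.cv hδ (1) e6 (by simp only [mul_assoc, mul_inv_rev, inv_inv, mul_inv_cancel_left, inv_mul_cancel_left, mul_inv_cancel, inv_mul_cancel, mul_one, one_mul, inv_one, C]) (by simp only [mul_assoc, mul_inv_rev, inv_inv, mul_inv_cancel_left, inv_mul_cancel_left, mul_inv_cancel, inv_mul_cancel, mul_one, one_mul, inv_one, C])
  have k4 : o.lt (g * m⁻¹) (P * f⁻¹) ↔ o.lt (1 * (g * m⁻¹)) (1 * (P * f⁻¹)) := o.cv hδ (1) e1 (by simp only [mul_assoc, mul_inv_rev, inv_inv, mul_inv_cancel_left, inv_mul_cancel_left, mul_inv_cancel, inv_mul_cancel, mul_one, one_mul, inv_one, C]) (by simp only [mul_assoc, mul_inv_rev, inv_inv, mul_inv_cancel_left, inv_mul_cancel_left, mul_inv_cancel, inv_mul_cancel, mul_one, one_mul, inv_one, C])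
  have k5 : o.lt (f * m⁻¹) (g * m⁻¹) ↔ o.lt (1 * (f * m⁻¹)) (1 * (g * m⁻¹)) := o.cv hδ (1) e28 (by simp only [mul_assoc, mul_inv_rev, inv_inv, mul_inv_cancel_left, inv_mul_cancel_left, mul_inv_cancel, inv_mul_cancel, mul_one, one_mul, inv_one, C]) (by simp only [mul_assoc, mul_inv_rev, inv_inv, mul_inv_cancel_left, inv_mul_cancel_left, mul_inv_cancel, inv_mul_cancel, mul_one, one_mul, inv_one, C])
  have k6 : o.lt (m * g⁻¹) (g * P⁻¹) ↔ o.lt (1 * (g * m⁻¹)⁻¹) (1 * (P * g⁻¹)⁻¹) := o.cv hδ (1) e33 (by simp only [mul_assoc, mul_inv_rev, inv_inv, mul_inv_cancel_left, inv_mul_cancel_left, mul_inv_cancel, inv_mul_cancel, mul_one, one_mul, inv_one, C]) (by simp only [mul_assoc, mul_inv_rev, inv_inv, mul_inv_cancel_left, inv_mul_cancel_left, mul_inv_cancel, inv_mul_cancel, mul_one, one_mul, inv_one, C])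
  have k7 : o.lt (Q * f⁻¹) (m * f⁻¹) ↔ o.lt (1 * (Q * f⁻¹)) (1 * (m * f⁻¹)) := o.cv hδ (1) e35 (by simp only [mul_assoc, mul_inv_rev, inv_inv, mul_inv_cancel_left, inv_mul_cancel_left, mul_inv_cancel, inv_mul_cancel, mul_one, one_mul, inv_one, C]) (by simp only [mul_assoc, mul_inv_rev, inv_inv, mul_inv_cancel_left, inv_mul_cancel_left, mul_inv_cancel, inv_mul_cancel, mul_one, one_mul, inv_one, C])
  have k8 : o.lt (Q * f⁻¹) (Q * g⁻¹) ↔ o.lt (1 * (Q * f⁻¹)) (1 * (Q * g⁻¹)) := o.cv hδ (1) e36 (by simp only [mul_assoc, mul_inv_rev, inv_inv, mul_inv_cancel_left, inv_mul_cancel_left, mul_inv_cancel, inv_mul_cancel, mul_one, one_mul, inv_one, C]) (by simp only [mul_assoc, mul_inv_rev, inv_inv, mul_inv_cancel_left, inv_mul_cancel_left, mul_inv_cancel, inv_mul_cancel, mul_one, one_mul, inv_one, C])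
  have k9 : o.lt (g * m⁻¹) (f * m⁻¹) ↔ o.lt (1 * (m * g⁻¹)⁻¹) (1 * (m * f⁻¹)⁻¹) := o.cv hδ (1) e6 (by simp only [mul_assoc, mul_inv_rev, inv_inv, mul_inv_cancel_left, inv_mul_cancel_left, mul_inv_cancel, inv_mul_cancel, mul_one, one_mul, inv_one, C]) (by simp only [mul_assoc, mul_inv_rev, inv_inv, mul_inv_cancel_left, inv_mul_cancel_left, mul_inv_cancel, inv_mul_cancel, mul_one, one_mul, inv_one, C])
  have k10 : o.lt (m * f⁻¹) (Q * f⁻¹) ↔ o.lt (1 * (m * f⁻¹)) (1 * (Q * f⁻¹)) := o.cv hδ (1) e34 (by simp only [mul_assoc, mul_inv_rev, inv_inv, mul_inv_cancel_left, inv_mul_cancel_left, mul_inv_cancel, inv_mul_cancel, mul_one, one_mul, inv_one, C]) (by simp only [mul_assoc, mul_inv_rev, inv_inv, mul_inv_cancel_left, inv_mul_cancel_left, mul_inv_cancel, inv_mul_cancel, mul_one, one_mul, inv_one, C])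
  have k11 : o.lt (Q * g⁻¹) (Q * f⁻¹) ↔ o.lt (1 * (Q * g⁻¹)) (1 * (Q * f⁻¹)) := o.cv hδ (1) e37 (by simp only [mul_assoc, mul_inv_rev, inv_inv, mul_inv_cancel_left, inv_mul_cancel_left, mul_inv_cancel, inv_mul_cancel, mul_one, one_mul, inv_one, C]) (by simp only [mul_assoc, mul_inv_rev, inv_inv, mul_inv_cancel_left, inv_mul_cancel_left, mul_inv_cancel, inv_mul_cancel, mul_one, one_mul, inv_one, C])
  have k12 : o.lt (f * m⁻¹) (g * m⁻¹) ↔ o.lt (1 * (m * f⁻¹)⁻¹) (1 * (m * g⁻¹)⁻¹) := o.cv hδ (1) e28 (by simp only [mul_assoc, mul_inv_rev, inv_inv, mul_inv_cancel_left, inv_mul_cancel_left, mul_inv_cancel, inv_mul_cancel, mul_one, one_mul, inv_one, C]) (by simp only [mul_assoc, mul_inv_rev, inv_inv, mul_inv_cancel_left, inv_mul_cancel_left, mul_inv_cancel, inv_mul_cancel, mul_one, one_mul, inv_one, C])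
  have k13 : o.lt (f * Q⁻¹) (f * m⁻¹) ↔ o.lt (1 * (Q * f⁻¹)⁻¹) (1 * (m * f⁻¹)⁻¹) := o.cv hδ (1) e32 (by simp only [mul_assoc, mul_inv_rev, inv_inv, mul_inv_cancel_left, inv_mul_cancel_left, mul_inv_cancel, inv_mul_cancel, mul_one, one_mul, inv_one, C]) (by simp only [mul_assoc, mul_inv_rev, inv_inv, mul_inv_cancel_left, inv_mul_cancel_left, mul_inv_cancel, inv_mul_cancel, mul_one, one_mul, inv_one, C])
  have k14 : o.lt (f * m⁻¹) (g * m⁻¹) ↔ o.lt (1 * (Q * f⁻¹)⁻¹) (1 * (Q * g⁻¹)⁻¹) := o.cv hδ (m * Q⁻¹) e28 (by simp only [mul_assoc, mul_inv_rev, inv_inv, mul_inv_cancel_left, inv_mul_cancel_left, mul_inv_cancel, inv_mul_cancel, mul_one, one_mul, inv_one, C]) (by simp only [mul_assoc, mul_inv_rev, inv_inv, mul_inv_cancel_left, inv_mul_cancel_left, mul_inv_cancel, inv_mul_cancel, mul_one, one_mul, inv_one, C])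
  have k15 : o.lt (P * (m⁻¹ * (f * m⁻¹))) (P * (f⁻¹ * (m * g⁻¹))) ↔ o.lt ((P * f⁻¹) * (m * f⁻¹)) ((P * f⁻¹) * (m * g⁻¹)) := o.cv hδ (m * (f⁻¹ * (m * (f⁻¹ * (m * f⁻¹))))) e12 (by simp only [mul_assoc, mul_inv_rev, inv_inv, mul_inv_cancel_left, inv_mul_cancel_left, mul_inv_cancel, inv_mul_cancel, mul_one, one_mul, inv_one, C]) (by simp only [mul_assoc, mul_inv_rev, inv_inv, mul_inv_cancel_left, inv_mul_cancel_left, mul_inv_cancel, inv_mul_cancel, mul_one, one_mul, inv_one, C])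
  have k16 : o.lt (P * f⁻¹) (g * m⁻¹) ↔ o.lt ((P * f⁻¹) * (m * g⁻¹)) ((P * f⁻¹) * (f * P⁻¹)) := o.cv hδ (m * g⁻¹) e17 (by simp only [mul_assoc, mul_inv_rev, inv_inv, mul_inv_cancel_left, inv_mul_cancel_left, mul_inv_cancel, inv_mul_cancel, mul_one, one_mul, inv_one, C]) (by simp only [mul_assoc, mul_inv_rev, inv_inv, mul_inv_cancel_left, inv_mul_cancel_left, mul_inv_cancel, inv_mul_cancel, mul_one, one_mul, inv_one, C])
  have k17 : o.lt (P * m⁻¹) (f * P⁻¹) ↔ o.lt ((P * f⁻¹) * (m * f⁻¹)⁻¹) ((P * f⁻¹) * (f * P⁻¹)⁻¹) := o.cv hδ (1) e14 (by simp only [mul_assoc, mul_inv_rev, inv_inv, mul_inv_cancel_left, inv_mul_cancel_left, mul_inv_cancel, inv_mul_cancel, mul_one, one_mul, inv_one, C]) (by simp only [mul_assoc, mul_inv_rev, inv_inv, mul_inv_cancel_left, inv_mul_cancel_left, mul_inv_cancel, inv_mul_cancel, mul_one, one_mul, inv_one, C])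
  have k18 : o.lt (P * g⁻¹) (P * f⁻¹) ↔ o.lt ((P * f⁻¹) * (f * P⁻¹)) ((P * f⁻¹) * (g * P⁻¹)) := o.cv hδ (g * P⁻¹) e0 (by simp only [mul_assoc, mul_inv_rev, inv_inv, mul_inv_cancel_left, inv_mul_cancel_left, mul_inv_cancel, inv_mul_cancel, mul_one, one_mul, inv_one, C]) (by simp only [mul_assoc, mul_inv_rev, inv_inv, mul_inv_cancel_left, inv_mul_cancel_left, mul_inv_cancel, inv_mul_cancel, mul_one, one_mul, inv_one, C])
  have k19 : o.lt (g * m⁻¹) (P * f⁻¹) ↔ o.lt ((P * f⁻¹) * (f * P⁻¹)) ((P * f⁻¹) * (m * g⁻¹)) := o.cv hδ (m * g⁻¹) e1 (by simp only [mul_assoc, mul_inv_rev, inv_inv, mul_inv_cancel_left, inv_mul_cancel_left, mul_inv_cancel, inv_mul_cancel, mul_one, one_mul, inv_one, C]) (by simp only [mul_assoc, mul_inv_rev, inv_inv, mul_inv_cancel_left, inv_mul_cancel_left, mul_inv_cancel, inv_mul_cancel, mul_one, one_mul, inv_one, C])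
  have k20 : o.lt (f * P⁻¹) (f * (P⁻¹ * (f * g⁻¹))) ↔ o.lt ((P * f⁻¹) * (P * f⁻¹)) ((P * f⁻¹) * (P * g⁻¹)) := o.cv hδ (P * (f⁻¹ * (P * (f⁻¹ * (P * f⁻¹))))) e4 (by simp only [mul_assoc, mul_inv_rev, inv_inv, mul_inv_cancel_left, inv_mul_cancel_left, mul_inv_cancel, inv_mul_cancel, mul_one, one_mul, inv_one, C]) (by simp only [mul_assoc, mul_inv_rev, inv_inv, mul_inv_cancel_left, inv_mul_cancel_left, mul_inv_cancel, inv_mul_cancel, mul_one, one_mul, inv_one, C])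
  have k21 : o.lt (P * (f⁻¹ * (g * m⁻¹))) (f * P⁻¹) ↔ o.lt ((P * f⁻¹) * (g * m⁻¹)) ((P * f⁻¹) * (P * f⁻¹)) := o.cv hδ (1) e20 (by simp only [mul_assoc, mul_inv_rev, inv_inv, mul_inv_cancel_left, inv_mul_cancel_left, mul_inv_cancel, inv_mul_cancel, mul_one, one_mul, inv_one, C]) (by simp only [mul_assoc, mul_inv_rev, inv_inv, mul_inv_cancel_left, inv_mul_cancel_left, mul_inv_cancel, inv_mul_cancel, mul_one, one_mul, inv_one, C])
  have k22 : o.lt (P * (f⁻¹ * (m * g⁻¹))) (P * (f⁻¹ * (g * P⁻¹))) ↔ o.lt ((P * f⁻¹) * (g * m⁻¹)⁻¹) ((P * f⁻¹) * (P * g⁻¹)⁻¹) := o.cv hδ (1) e15 (by simp only [mul_assoc, mul_inv_rev, inv_inv, mul_inv_cancel_left, inv_mul_cancel_left, mul_inv_cancel, inv_mul_cancel, mul_one, one_mul, inv_one, C]) (by simp only [mul_assoc, mul_inv_rev, inv_inv, mul_inv_cancel_left, inv_mul_cancel_left, mul_inv_cancel, inv_mul_cancel, mul_one, one_mul, inv_one, C])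
  have k23 : o.lt (P * (Q⁻¹ * (f * Q⁻¹))) (P * (m⁻¹ * (f * m⁻¹))) ↔ o.lt ((P * f⁻¹) * (Q * f⁻¹)) ((P * f⁻¹) * (m * f⁻¹)) := o.cv hδ (Q * (f⁻¹ * (Q * (f⁻¹ * (Q * f⁻¹))))) e23 (by simp only [mul_assoc, mul_inv_rev, inv_inv, mul_inv_cancel_left, inv_mul_cancel_left, mul_inv_cancel, inv_mul_cancel, mul_one, one_mul, inv_one, C]) (by simp only [mul_assoc, mul_inv_rev, inv_inv, mul_inv_cancel_left, inv_mul_cancel_left, mul_inv_cancel, inv_mul_cancel, mul_one, one_mul, inv_one, C])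
  have k24 : o.lt (P * g⁻¹) (P * f⁻¹) ↔ o.lt ((P * f⁻¹) * (m * f⁻¹)⁻¹) ((P * f⁻¹) * (m * g⁻¹)⁻¹) := o.cv hδ (g * m⁻¹) e0 (by simp only [mul_assoc, mul_inv_rev, inv_inv, mul_inv_cancel_left, inv_mul_cancel_left, mul_inv_cancel, inv_mul_cancel, mul_one, one_mul, inv_one, C]) (by simp only [mul_assoc, mul_inv_rev, inv_inv, mul_inv_cancel_left, inv_mul_cancel_left, mul_inv_cancel, inv_mul_cancel, mul_one, one_mul, inv_one, C])
  have k25 : o.lt (P * (f⁻¹ * (g * m⁻¹))) (P * Q⁻¹) ↔ o.lt ((P * f⁻¹) * (m * g⁻¹)⁻¹) ((P * f⁻¹) * (Q * f⁻¹)⁻¹) := o.cv hδ (1) e21 (by simp only [mul_assoc, mul_inv_rev, inv_inv, mul_inv_cancel_left, inv_mul_cancel_left, mul_inv_cancel, inv_mul_cancel, mul_one, one_mul, inv_one, C]) (by simp only [mul_assoc, mul_inv_rev, inv_inv, mul_inv_cancel_left, inv_mul_cancel_left, mul_inv_cancel, inv_mul_cancel, mul_one, one_mul, inv_one, C])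
  have k26 : o.lt (P * (m⁻¹ * (f * m⁻¹))) (P * (Q⁻¹ * (f * Q⁻¹))) ↔ o.lt ((P * f⁻¹) * (m * f⁻¹)) ((P * f⁻¹) * (Q * f⁻¹)) := o.cv hδ (m * (f⁻¹ * (m * (f⁻¹ * (m * f⁻¹))))) e13 (by simp only [mul_assoc, mul_inv_rev, inv_inv, mul_inv_cancel_left, inv_mul_cancel_left, mul_inv_cancel, inv_mul_cancel, mul_one, one_mul, inv_one, C]) (by simp only [mul_assoc, mul_inv_rev, inv_inv, mul_inv_cancel_left, inv_mul_cancel_left, mul_inv_cancel, inv_mul_cancel, mul_one, one_mul, inv_one, C])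
  have k27 : o.lt (P * (f⁻¹ * (Q * g⁻¹))) (P * (Q⁻¹ * (f * Q⁻¹))) ↔ o.lt ((P * f⁻¹) * (Q * g⁻¹)) ((P * f⁻¹) * (Q * f⁻¹)) := o.cv hδ (1) e26 (by simp only [mul_assoc, mul_inv_rev, inv_inv, mul_inv_cancel_left, inv_mul_cancel_left, mul_inv_cancel, inv_mul_cancel, mul_one, one_mul, inv_one, C]) (by simp only [mul_assoc, mul_inv_rev, inv_inv, mul_inv_cancel_left, inv_mul_cancel_left, mul_inv_cancel, inv_mul_cancel, mul_one, one_mul, inv_one, C])
  have k28 : o.lt (P * (Q⁻¹ * (f * Q⁻¹))) (P * (m⁻¹ * (f * m⁻¹))) ↔ o.lt ((P * f⁻¹) * (Q * g⁻¹)) ((P * f⁻¹) * (m * g⁻¹)) := o.cv hδ (Q * (f⁻¹ * (Q * (f⁻¹ * (Q * g⁻¹))))) e23 (by simp only [mul_assoc, mul_inv_rev, inv_inv, mul_inv_cancel_left, inv_mul_cancel_left, mul_inv_cancel, inv_mul_cancel, mul_one, one_mul, inv_one, C]) (by simp only [mul_assoc, mul_inv_rev, inv_inv, mul_inv_cancel_left, inv_mul_cancel_left, mul_inv_cancel, inv_mul_cancel, mul_one,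 one_mul, inv_one, C])
  have k29 : o.lt (P * (f⁻¹ * (g * Q⁻¹))) (P * Q⁻¹) ↔ o.lt ((P * f⁻¹) * (Q * g⁻¹)⁻¹) ((P * f⁻¹) * (Q * f⁻¹)⁻¹) := o.cv hδ (1) e8 (by simp only [mul_assoc, mul_inv_rev, inv_inv, mul_inv_cancel_left, inv_mul_cancel_left, mul_inv_cancel, inv_mul_cancel, mul_one, one_mul, inv_one, C]) (by simp only [mul_assoc, mul_inv_rev, inv_inv, mul_inv_cancel_left, inv_mul_cancel_left, mul_inv_cancel, inv_mul_cancel, mul_one, one_mul, inv_one, C])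
  have k30 : o.lt (P * (f⁻¹ * (m * g⁻¹))) (P * (m⁻¹ * (f * m⁻¹))) ↔ o.lt ((P * f⁻¹) * (m * g⁻¹)) ((P * f⁻¹) * (m * f⁻¹)) := o.cv hδ (1) e18 (by simp only [mul_assoc, mul_inv_rev, inv_inv, mul_inv_cancel_left, inv_mul_cancel_left, mul_inv_cancel, inv_mul_cancel, mul_one, one_mul, inv_one, C]) (by simp only [mul_assoc, mul_inv_rev, inv_inv, mul_inv_cancel_left, inv_mul_cancel_left, mul_inv_cancel, inv_mul_cancel, mul_one, one_mul, inv_one, C])
  have k31 : o.lt (P * (f⁻¹ * (g * m⁻¹))) (P * (f⁻¹ * (g * Q⁻¹))) ↔ o.lt ((P * f⁻¹) * (m * g⁻¹)⁻¹) ((P * f⁻¹) * (Q * g⁻¹)⁻¹) := o.cv hδ (1) e22 (by simp only [mul_assoc, mul_inv_rev, inv_inv, mul_inv_cancel_left, inv_mul_cancel_left, mul_inv_cancel, inv_mul_cancel, mul_one, one_mul, inv_one, C]) (by simp only [mul_assoc, mul_inv_rev, inv_inv, mul_inv_cancel_left, inv_mul_cancel_left, mul_inv_cancel, inv_mul_cancel, mul_one, one_mul, inv_one, C])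
  have k32 : o.lt (P * (f⁻¹ * (g * Q⁻¹))) (P * Q⁻¹) ↔ o.lt ((P * f⁻¹) * (m * g⁻¹)⁻¹) ((P * f⁻¹) * (m * f⁻¹)⁻¹) := o.cv hδ (Q * m⁻¹) e8 (by simp only [mul_assoc, mul_inv_rev, inv_inv, mul_inv_cancel_left, inv_mul_cancel_left, mul_inv_cancel, inv_mul_cancel, mul_one, one_mul, inv_one, C]) (by simp only [mul_assoc, mul_inv_rev, inv_inv, mul_inv_cancel_left, inv_mul_cancel_left, mul_inv_cancel, inv_mul_cancel, mul_one, one_mul, inv_one, C])
  have k33 : o.lt (P * m⁻¹) (P * Q⁻¹) ↔ o.lt ((P * f⁻¹) * (m * f⁻¹)⁻¹) ((P * f⁻¹) * (Q * f⁻¹)⁻¹) := o.cv hδ (1) e16 (by simp only [mul_assoc, mul_inv_rev, inv_inv, mul_inv_cancel_left, inv_mul_cancel_left, mul_inv_cancel, inv_mul_cancel, mul_one, one_mul, inv_one, C]) (by simp only [mul_assoc, mul_inv_rev, inv_inv, mul_inv_cancel_left, inv_mul_cancel_left, mul_inv_cancel, inv_mul_cancel, mul_one, one_mul, inv_one, C])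
  have k34 : o.lt (P * f⁻¹) (f * m⁻¹) ↔ o.lt (P * f⁻¹) (f * m⁻¹) := o.cv hδ (1) e11 (by simp only [mul_assoc, mul_inv_rev, inv_inv, mul_inv_cancel_left, inv_mul_cancel_left, mul_inv_cancel, inv_mul_cancel, mul_one, one_mul, inv_one, C]) (by simp only [mul_assoc, mul_inv_rev, inv_inv, mul_inv_cancel_left, inv_mul_cancel_left, mul_inv_cancel, inv_mul_cancel, mul_one, one_mul, inv_one, C])
  have k35 : o.lt (P * f⁻¹) (g * m⁻¹) ↔ o.lt (P * f⁻¹) (g * m⁻¹) := o.cv hδ (1) e17 (by simp only [mul_assoc, mul_inv_rev, inv_inv, mul_inv_cancel_left, inv_mul_cancel_left, mul_inv_cancel, inv_mul_cancel, mul_one, one_mul, inv_one, C]) (by simp only [mul_assoc, mul_inv_rev, inv_inv, mul_inv_cancel_left, inv_mul_cancel_left, mul_inv_cancel, inv_mul_cancel, mul_one, one_mul, inv_one, C])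
  have k36 : o.lt (g * m⁻¹) (f * m⁻¹) ↔ o.lt (g * m⁻¹) (f * m⁻¹) := o.cv hδ (1) e6 (by simp only [mul_assoc, mul_inv_rev, inv_inv, mul_inv_cancel_left, inv_mul_cancel_left, mul_inv_cancel, inv_mul_cancel, mul_one, one_mul, inv_one, C]) (by simp only [mul_assoc, mul_inv_rev, inv_inv, mul_inv_cancel_left, inv_mul_cancel_left, mul_inv_cancel, inv_mul_cancel, mul_one, one_mul, inv_one, C])
  have k37 : o.lt (g * m⁻¹) (P * f⁻¹) ↔ o.lt (g * m⁻¹) (P * f⁻¹) := o.cv hδ (1) e1 (by simp only [mul_assoc, mul_inv_rev, inv_inv, mul_inv_cancel_left, inv_mul_cancel_left, mul_inv_cancel, inv_mul_cancel, mul_one, one_mul, inv_one, C]) (by simp only [mul_assoc, mul_inv_rev, inv_inv, mul_inv_cancel_left, inv_mul_cancel_left, mul_inv_cancel, inv_mul_cancel, mul_one, one_mul, inv_one, C])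
  have k38 : o.lt (P * f⁻¹) (g * Q⁻¹) ↔ o.lt (P * f⁻¹) (g * Q⁻¹) := o.cv hδ (1) e25 (by simp only [mul_assoc, mul_inv_rev, inv_inv, mul_inv_cancel_left, inv_mul_cancel_left, mul_inv_cancel, inv_mul_cancel, mul_one, one_mul, inv_one, C]) (by simp only [mul_assoc, mul_inv_rev, inv_inv, mul_inv_cancel_left, inv_mul_cancel_left, mul_inv_cancel, inv_mul_cancel, mul_one, one_mul, inv_one, C])
  have k39 : o.lt (g * Q⁻¹) (P * f⁻¹) ↔ o.lt (g * Q⁻¹) (P * f⁻¹) := o.cv hδ (1) e3 (by simp only [mul_assoc, mul_inv_rev, inv_inv, mul_inv_cancel_left, inv_mul_cancel_left, mul_inv_cancel, inv_mul_cancel, mul_one, one_mul, inv_one, C]) (by simp only [mul_assoc, mul_inv_rev, inv_inv, mul_inv_cancel_left, inv_mul_cancel_left, mul_inv_cancel, inv_mul_cancel, mul_one, one_mul, inv_one, C])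
  have k40 : o.lt (g * P⁻¹) (m * g⁻¹) ↔ o.lt (P * g⁻¹) (m * P⁻¹) := o.cv hδ (P * (g⁻¹ * (P * g⁻¹))) e30 (by simp only [mul_assoc, mul_inv_rev, inv_inv, mul_inv_cancel_left, inv_mul_cancel_left, mul_inv_cancel, inv_mul_cancel, mul_one, one_mul, inv_one, C]) (by simp only [mul_assoc, mul_inv_rev, inv_inv, mul_inv_cancel_left, inv_mul_cancel_left, mul_inv_cancel, inv_mul_cancel, mul_one, one_mul, inv_one, C])
  have k41 : o.lt (P * g⁻¹) (Q * P⁻¹) ↔ o.lt (P * g⁻¹) (Q * P⁻¹) := o.cv hδ (1) e31 (by simp only [mul_assoc, mul_inv_rev, inv_inv, mul_inv_cancel_left, inv_mul_cancel_left, mul_inv_cancel, inv_mul_cancel, mul_one, one_mul, inv_one, C]) (by simp only [mul_assoc, mul_inv_rev, inv_inv, mul_inv_cancel_left, inv_mul_cancel_left, mul_inv_cancel, inv_mul_cancel, mul_one, one_mul, inv_one, C])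
  have k42 : o.lt (Q * f⁻¹) (m * f⁻¹) ↔ o.lt (Q * P⁻¹) (m * P⁻¹) := o.cv hδ (f * P⁻¹) e35 (by simp only [mul_assoc, mul_inv_rev, inv_inv, mul_inv_cancel_left, inv_mul_cancel_left, mul_inv_cancel, inv_mul_cancel, mul_one, one_mul, inv_one, C]) (by simp only [mul_assoc, mul_inv_rev, inv_inv, mul_inv_cancel_left, inv_mul_cancel_left, mul_inv_cancel, inv_mul_cancel, mul_one, one_mul, inv_one, C])
  have k43 : o.lt (f * m⁻¹) (g * m⁻¹) ↔ o.lt (f * m⁻¹) (g * m⁻¹) := o.cv hδ (1) e28 (by simp only [mul_assoc, mul_inv_rev, inv_inv, mul_inv_cancel_left, inv_mul_cancel_left, mul_inv_cancel, inv_mul_cancel, mul_one, one_mul, inv_one, C]) (by simp only [mul_assoc, mul_inv_rev, inv_inv, mul_inv_cancel_left, inv_mul_cancel_left, mul_inv_cancel, inv_mul_cancel, mul_one, one_mul, inv_one, C])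
  have k44 : o.lt (f * Q⁻¹) (P * f⁻¹) ↔ o.lt (f * Q⁻¹) (P * f⁻¹) := o.cv hδ (1) e2 (by simp only [mul_assoc, mul_inv_rev, inv_inv, mul_inv_cancel_left, inv_mul_cancel_left, mul_inv_cancel, inv_mul_cancel, mul_one, one_mul, inv_one, C]) (by simp only [mul_assoc, mul_inv_rev, inv_inv, mul_inv_cancel_left, inv_mul_cancel_left, mul_inv_cancel, inv_mul_cancel, mul_one, one_mul, inv_one, C])
  have k45 : o.lt (f * m⁻¹) (g * m⁻¹) ↔ o.lt (f * Q⁻¹) (g * Q⁻¹) := o.cv hδ (m * Q⁻¹) e28 (by simp only [mul_assoc, mul_inv_rev, inv_inv, mul_inv_cancel_left, inv_mul_cancel_left, mul_inv_cancel, inv_mul_cancel, mul_one, one_mul, inv_one, C]) (by simp only [mul_assoc, mul_inv_rev, inv_inv, mul_inv_cancel_left, inv_mul_cancel_left, mul_inv_cancel, inv_mul_cancel, mul_one, one_mul, inv_one, C])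
  have k46 : o.lt (f * Q⁻¹) (f * m⁻¹) ↔ o.lt (f * Q⁻¹) (f * m⁻¹) := o.cv hδ (1) e32 (by simp only [mul_assoc, mul_inv_rev, inv_inv, mul_inv_cancel_left, inv_mul_cancel_left, mul_inv_cancel, inv_mul_cancel, mul_one, one_mul, inv_one, C]) (by simp only [mul_assoc, mul_inv_rev, inv_inv, mul_inv_cancel_left, inv_mul_cancel_left, mul_inv_cancel, inv_mul_cancel, mul_one, one_mul, inv_one, C])
  have k47 : o.lt (m * f⁻¹) (Q * f⁻¹) ↔ o.lt (m * P⁻¹) (Q * P⁻¹) := o.cv hδ (f * P⁻¹) e34 (by simp only [mul_assoc, mul_inv_rev, inv_inv, mul_inv_cancel_left, inv_mul_cancel_left, mul_inv_cancel, inv_mul_cancel, mul_one, one_mul, inv_one, C]) (by simp only [mul_assoc, mul_inv_rev, inv_inv, mul_inv_cancel_left, inv_mul_cancel_left, mul_inv_cancel, inv_mul_cancel, mul_one, one_mul, inv_one, C])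
  have k48 : o.lt (m * g⁻¹) (g * P⁻¹) ↔ o.lt (m * P⁻¹) (P * g⁻¹) := o.cv hδ (g * P⁻¹) e33 (by simp only [mul_assoc, mul_inv_rev, inv_inv, mul_inv_cancel_left, inv_mul_cancel_left, mul_inv_cancel, inv_mul_cancel, mul_one, one_mul, inv_one, C]) (by simp only [mul_assoc, mul_inv_rev, inv_inv, mul_inv_cancel_left, inv_mul_cancel_left, mul_inv_cancel, inv_mul_cancel, mul_one, one_mul, inv_one, C])
  have k49 : o.lt (f * P⁻¹) (Q * f⁻¹) ↔ o.lt (f * P⁻¹) (Q * f⁻¹) := o.cv hδ (1) e27 (by simp only [mul_assoc, mul_inv_rev, inv_inv, mul_inv_cancel_left, inv_mul_cancel_left, mul_inv_cancel, inv_mul_cancel, mul_one, one_mul, inv_one, C]) (by simp only [mul_assoc, mul_inv_rev, inv_inv, mul_inv_cancel_left, inv_mul_cancel_left, mul_inv_cancel, inv_mul_cancel, mul_one, one_mul, inv_one, C])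
  have k50 : o.lt (f * P⁻¹) (Q * g⁻¹) ↔ o.lt (f * P⁻¹) (Q * g⁻¹) := o.cv hδ (1) e29 (by simp only [mul_assoc, mul_inv_rev, inv_inv, mul_inv_cancel_left, inv_mul_cancel_left, mul_inv_cancel, inv_mul_cancel, mul_one, one_mul, inv_one, C]) (by simp only [mul_assoc, mul_inv_rev, inv_inv, mul_inv_cancel_left, inv_mul_cancel_left, mul_inv_cancel, inv_mul_cancel, mul_one, one_mul, inv_one, C])
  have k51 : o.lt (Q * g⁻¹) (Q * f⁻¹) ↔ o.lt (Q * g⁻¹) (Q * f⁻¹) := o.cv hδ (1) e37 (by simp only [mul_assoc, mul_inv_rev, inv_inv, mul_inv_cancel_left, inv_mul_cancel_left, mul_inv_cancel, inv_mul_cancel, mul_one, one_mul, inv_one, C]) (by simp only [mul_assoc, mul_inv_rev, inv_inv, mul_inv_cancel_left, inv_mul_cancel_left, mul_inv_cancel, inv_mul_cancel, mul_one, one_mul, inv_one, C])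
  have k52 : o.lt (f * m⁻¹) (g * m⁻¹) ↔ o.lt (f * P⁻¹) (g * P⁻¹) := o.cv hδ (m * P⁻¹) e28 (by simp only [mul_assoc, mul_inv_rev, inv_inv, mul_inv_cancel_left, inv_mul_cancel_left, mul_inv_cancel, inv_mul_cancel, mul_one, one_mul, inv_one, C]) (by simp only [mul_assoc, mul_inv_rev, inv_inv, mul_inv_cancel_left, inv_mul_cancel_left, mul_inv_cancel, inv_mul_cancel, mul_one, one_mul, inv_one, C])
  have k53 : o.lt (P * g⁻¹) (Q * P⁻¹) ↔ o.lt (g * P⁻¹) (Q * g⁻¹) := o.cv hδ (g * (P⁻¹ * (g * P⁻¹))) e31 (by simp only [mul_assoc, mul_inv_rev, inv_inv, mul_inv_cancel_left, inv_mul_cancel_left, mul_inv_cancel, inv_mul_cancel, mul_one, one_mul, inv_one, C]) (by simp only [mul_assoc, mul_inv_rev, inv_inv, mul_inv_cancel_left, inv_mul_cancel_left, mul_inv_cancel, inv_mul_cancel, mul_one, one_mul, inv_one, C])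
  have k54 : o.lt (f * P⁻¹) (P * Q⁻¹) ↔ o.lt (f * P⁻¹) (P * Q⁻¹) := o.cv hδ (1) e5 (by simp only [mul_assoc, mul_inv_rev, inv_inv, mul_inv_cancel_left, inv_mul_cancel_left, mul_inv_cancel, inv_mul_cancel, mul_one, one_mul, inv_one, C]) (by simp only [mul_assoc, mul_inv_rev, inv_inv, mul_inv_cancel_left, inv_mul_cancel_left, mul_inv_cancel, inv_mul_cancel, mul_one, one_mul, inv_one, C])
  have k55 : o.lt (f * Q⁻¹) (P * f⁻¹) ↔ o.lt (Q * f⁻¹) (P * Q⁻¹) := o.cv hδ (Q * (f⁻¹ * (Q * f⁻¹))) e2 (by simp only [mul_assoc, mul_inv_rev, inv_inv, mul_inv_cancel_left, inv_mul_cancel_left, mul_inv_cancel, inv_mul_cancel, mul_one, one_mul, inv_one, C]) (by simp only [mul_assoc, mul_inv_rev, inv_inv, mul_inv_cancel_left, inv_mul_cancel_left, mul_inv_cancel, inv_mul_cancel, mul_one, one_mul, inv_one, C])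
  have k56 : o.lt (Q * f⁻¹) (m * f⁻¹) ↔ o.lt (Q * f⁻¹) (m * f⁻¹) := o.cv hδ (1) e35 (by simp only [mul_assoc, mul_inv_rev, inv_inv, mul_inv_cancel_left, inv_mul_cancel_left, mul_inv_cancel, inv_mul_cancel, mul_one, one_mul, inv_one, C]) (by simp only [mul_assoc, mul_inv_rev, inv_inv, mul_inv_cancel_left, inv_mul_cancel_left, mul_inv_cancel, inv_mul_cancel, mul_one, one_mul, inv_one, C])
  have k57 : o.lt (Q * f⁻¹) (P * m⁻¹) ↔ o.lt (Q * f⁻¹) (P * m⁻¹) := o.cv hδ (1) e7 (by simp only [mul_assoc, mul_inv_rev, inv_inv, mul_inv_cancel_left, inv_mul_cancel_left, mul_inv_cancel, inv_mul_cancel, mul_one, one_mul, inv_one, C]) (by simp only [mul_assoc, mul_inv_rev, inv_inv, mul_inv_cancel_left, inv_mul_cancel_left, mul_inv_cancel, inv_mul_cancel, mul_one, one_mul, inv_one, C])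
  have k58 : o.lt (P * f⁻¹) (f * m⁻¹) ↔ o.lt (P * m⁻¹) (m * f⁻¹) := o.cv hδ (f * m⁻¹) e11 (by simp only [mul_assoc, mul_inv_rev, inv_inv, mul_inv_cancel_left, inv_mul_cancel_left, mul_inv_cancel, inv_mul_cancel, mul_one, one_mul, inv_one, C]) (by simp only [mul_assoc, mul_inv_rev, inv_inv, mul_inv_cancel_left, inv_mul_cancel_left, mul_inv_cancel, inv_mul_cancel, mul_one, one_mul, inv_one, C])
  have k59 : o.lt (P * Q⁻¹) (P * m⁻¹) ↔ o.lt (P * Q⁻¹) (P * m⁻¹) := o.cv hδ (1) e24 (by simp only [mul_assoc, mul_inv_rev, inv_inv, mul_inv_cancel_left, inv_mul_cancel_left, mul_inv_cancel, inv_mul_cancel, mul_one, one_mul, inv_one, C]) (by simp only [mul_assoc, mul_inv_rev, inv_inv, mul_inv_cancel_left, inv_mul_cancel_left, mul_inv_cancel, inv_mul_cancel, mul_one, one_mul, inv_one, C])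
  have k60 : o.lt (P * m⁻¹) (P * Q⁻¹) ↔ o.lt (P * m⁻¹) (P * Q⁻¹) := o.cv hδ (1) e16 (by simp only [mul_assoc, mul_inv_rev, inv_inv, mul_inv_cancel_left, inv_mul_cancel_left, mul_inv_cancel, inv_mul_cancel, mul_one, one_mul, inv_one, C]) (by simp only [mul_assoc, mul_inv_rev, inv_inv, mul_inv_cancel_left, inv_mul_cancel_left, mul_inv_cancel, inv_mul_cancel, mul_one, one_mul, inv_one, C])
  have k61 : o.lt (P * m⁻¹) (f * P⁻¹) ↔ o.lt (P * m⁻¹) (f * P⁻¹) := o.cv hδ (1) e14 (by simp only [mul_assoc, mul_inv_rev, inv_inv, mul_inv_cancel_left, inv_mul_cancel_left, mul_inv_cancel, inv_mul_cancel, mul_one, one_mul, inv_one, C]) (by simp only [mul_assoc, mul_inv_rev, inv_inv, mul_inv_cancel_left, inv_mul_cancel_left, mul_inv_cancel, inv_mul_cancel, mul_one, one_mul, inv_one, C])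
  have k62 : o.lt (f * P⁻¹) (f * (P⁻¹ * (f * g⁻¹))) ↔ o.lt (f * P⁻¹) (P * (f⁻¹ * (P * g⁻¹))) := o.cv hδ (1) e4 (by simp only [mul_assoc, mul_inv_rev, inv_inv, mul_inv_cancel_left, inv_mul_cancel_left, mul_inv_cancel, inv_mul_cancel, mul_one, one_mul, inv_one, C]) (by simp only [mul_assoc, mul_inv_rev, inv_inv, mul_inv_cancel_left, inv_mul_cancel_left, mul_inv_cancel, inv_mul_cancel, mul_one, one_mul, inv_one, C])
  have k63 : o.lt (P * g⁻¹) (P * f⁻¹) ↔ o.lt (g * P⁻¹) (P * (f⁻¹ * (P * g⁻¹))) := o.cv hδ (g * (P⁻¹ * (g * P⁻¹))) e0 (by simp only [mul_assoc, mul_inv_rev, inv_inv, mul_inv_cancel_left, inv_mul_cancel_left, mul_inv_cancel, inv_mul_cancel, mul_one, one_mul, inv_one, C]) (by simp only [mul_assoc, mul_inv_rev, inv_inv, mul_inv_cancel_left, inv_mul_cancel_left, mul_inv_cancel, inv_mul_cancel, mul_one, one_mul, inv_one, C])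
  have k64 : o.lt (f * (P⁻¹ * (f * g⁻¹))) (P * (f⁻¹ * (g * m⁻¹))) ↔ o.lt (P * (f⁻¹ * (P * g⁻¹))) (P * (f⁻¹ * (g * m⁻¹))) := o.cv hδ (g * (f⁻¹ * (P * (f⁻¹ * (P * (f⁻¹ * (P * g⁻¹))))))) e9 (by simp only [mul_assoc, mul_inv_rev, inv_inv, mul_inv_cancel_left, inv_mul_cancel_left, mul_inv_cancel, inv_mul_cancel, mul_one, one_mul, inv_one, C]) (by simp only [mul_assoc, mul_inv_rev, inv_inv, mul_inv_cancel_left, inv_mul_cancel_left, mul_inv_cancel, inv_mul_cancel, mul_one, one_mul, inv_one, C])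
  have k65 : o.lt (P * (f⁻¹ * (g * m⁻¹))) (f * (P⁻¹ * (f * g⁻¹))) ↔ o.lt (P * (f⁻¹ * (g * m⁻¹))) (P * (f⁻¹ * (P * g⁻¹))) := o.cv hδ (1) e19 (by simp only [mul_assoc, mul_inv_rev, inv_inv, mul_inv_cancel_left, inv_mul_cancel_left, mul_inv_cancel, inv_mul_cancel, mul_one, one_mul, inv_one, C]) (by simp only [mul_assoc, mul_inv_rev, inv_inv, mul_inv_cancel_left, inv_mul_cancel_left, mul_inv_cancel, inv_mul_cancel, mul_one, one_mul, inv_one, C])
  have k66 : o.lt (P * (f⁻¹ * (g * m⁻¹))) (P * Q⁻¹) ↔ o.lt (P * (f⁻¹ * (g * m⁻¹))) (P * Q⁻¹) := o.cv hδ (1) e21 (by simp only [mul_assoc, mul_inv_rev, inv_inv, mul_inv_cancel_left, inv_mul_cancel_left, mul_inv_cancel, inv_mul_cancel, mul_one, one_mul, inv_one, C]) (by simp only [mul_assoc, mul_inv_rev, inv_inv, mul_inv_cancel_left, inv_mul_cancel_left, mul_inv_cancel, inv_mul_cancel, mul_one, one_mul, inv_one, C])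
  have k67 : o.lt (P * (f⁻¹ * (g * m⁻¹))) (f * P⁻¹) ↔ o.lt (P * (f⁻¹ * (g * m⁻¹))) (f * P⁻¹) := o.cv hδ (1) e20 (by simp only [mul_assoc, mul_inv_rev, inv_inv, mul_inv_cancel_left, inv_mul_cancel_left, mul_inv_cancel, inv_mul_cancel, mul_one, one_mul, inv_one, C]) (by simp only [mul_assoc, mul_inv_rev, inv_inv, mul_inv_cancel_left, inv_mul_cancel_left, mul_inv_cancel, inv_mul_cancel, mul_one, one_mul, inv_one, C])
  have k68 : o.lt (P * (f⁻¹ * (g * Q⁻¹))) (P * Q⁻¹) ↔ o.lt (P * (f⁻¹ * (g * m⁻¹))) (P * m⁻¹) := o.cv hδ (Q * m⁻¹) e8 (by simp only [mul_assoc, mul_inv_rev, inv_inv, mul_inv_cancel_left, inv_mul_cancel_left, mul_inv_cancel, inv_mul_cancel, mul_one, one_mul, inv_one, C]) (by simp only [mul_assoc, mul_inv_rev, inv_inv, mul_inv_cancel_left, inv_mul_cancel_left, mul_inv_cancel, inv_mul_cancel, mul_one, one_mul, inv_one, C])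
  have k69 : o.lt (P * (f⁻¹ * (g * m⁻¹))) (P * (f⁻¹ * (g * Q⁻¹))) ↔ o.lt (P * (f⁻¹ * (g * m⁻¹))) (P * (f⁻¹ * (g * Q⁻¹))) := o.cv hδ (1) e22 (by simp only [mul_assoc, mul_inv_rev, inv_inv, mul_inv_cancel_left, inv_mul_cancel_left, mul_inv_cancel, inv_mul_cancel, mul_one, one_mul, inv_one, C]) (by simp only [mul_assoc, mul_inv_rev, inv_inv, mul_inv_cancel_left, inv_mul_cancel_left, mul_inv_cancel, inv_mul_cancel, mul_one, one_mul, inv_one, C])
  have k70 : o.lt (f * (P⁻¹ * (f * g⁻¹))) (P * (f⁻¹ * (g * Q⁻¹))) ↔ o.lt (P * (f⁻¹ * (P * g⁻¹))) (P * (f⁻¹ * (g * Q⁻¹))) := o.cv hδ (g * (f⁻¹ * (P * (f⁻¹ * (P * (f⁻¹ * (P * g⁻¹))))))) e10 (by simp only [mul_assoc, mul_inv_rev, inv_inv, mul_inv_cancel_left, inv_mul_cancel_left, mul_inv_cancel, inv_mul_cancel, mul_one, one_mul, inv_one, C]) (by simp only [mul_assoc, mul_inv_rev, inv_inv, mul_inv_cancel_left, inv_mul_cancel_left, mul_inv_cancel, inv_mul_cancel,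 mul_one, one_mul, inv_one, C])
  have k71 : o.lt (f * Q⁻¹) (P * f⁻¹) ↔ o.lt (1) (P * (f⁻¹ * (Q * f⁻¹))) := o.cv hδ (Q * f⁻¹) e2 (by simp only [mul_assoc, mul_inv_rev, inv_inv, mul_inv_cancel_left, inv_mul_cancel_left, mul_inv_cancel, inv_mul_cancel, mul_one, one_mul, inv_one, C]) (by simp only [mul_assoc, mul_inv_rev, inv_inv, mul_inv_cancel_left, inv_mul_cancel_left, mul_inv_cancel, inv_mul_cancel, mul_one, one_mul, inv_one, C])
  have k72 : o.lt (g * Q⁻¹) (P * f⁻¹) ↔ o.lt (1) (P * (f⁻¹ * (Q * g⁻¹))) := o.cv hδ (Q * g⁻¹) e3 (by simp only [mul_assoc, mul_inv_rev, inv_inv, mul_inv_cancel_left, inv_mul_cancel_left, mul_inv_cancel, inv_mul_cancel, mul_one, one_mul, inv_one, C]) (by simp only [mul_assoc, mul_inv_rev, inv_inv, mul_inv_cancel_left, inv_mul_cancel_left, mul_inv_cancel, inv_mul_cancel, mul_one, one_mul, inv_one, C])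
  have k73 : o.lt (P * (f⁻¹ * (Q * g⁻¹))) (P * (Q⁻¹ * (f * Q⁻¹))) ↔ o.lt (P * (f⁻¹ * (Q * g⁻¹))) (P * (f⁻¹ * (Q * f⁻¹))) := o.cv hδ (1) e26 (by simp only [mul_assoc, mul_inv_rev, inv_inv, mul_inv_cancel_left, inv_mul_cancel_left, mul_inv_cancel, inv_mul_cancel, mul_one, one_mul, inv_one, C]) (by simp only [mul_assoc, mul_inv_rev, inv_inv, mul_inv_cancel_left, inv_mul_cancel_left, mul_inv_cancel, inv_mul_cancel, mul_one, one_mul, inv_one, C])
  have k74 : o.lt (P * (m⁻¹ * (f * m⁻¹))) (P * (f⁻¹ * (m * g⁻¹))) ↔ o.lt (P * (f⁻¹ * (m * f⁻¹))) (P * (f⁻¹ * (m * g⁻¹))) := o.cv hδ (m * (f⁻¹ * (m * (f⁻¹ * (m * f⁻¹))))) e12 (by simp only [mul_assoc, mul_inv_rev, inv_inv, mul_inv_cancel_left, inv_mul_cancel_left, mul_inv_cancel, inv_mul_cancel, mul_one, one_mul, inv_one, C]) (by simp only [mul_assoc, mul_inv_rev, inv_inv, mul_inv_cancel_left, inv_mul_cancel_left, mul_inv_cancel, inv_mul_cancel, mul_one,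 one_mul, inv_one, C])
  have k75 : o.lt (P * (f⁻¹ * (m * g⁻¹))) (P * (m⁻¹ * (f * m⁻¹))) ↔ o.lt (P * (f⁻¹ * (m * g⁻¹))) (P * (f⁻¹ * (m * f⁻¹))) := o.cv hδ (1) e18 (by simp only [mul_assoc, mul_inv_rev, inv_inv, mul_inv_cancel_left, inv_mul_cancel_left, mul_inv_cancel, inv_mul_cancel, mul_one, one_mul, inv_one, C]) (by simp only [mul_assoc, mul_inv_rev, inv_inv, mul_inv_cancel_left, inv_mul_cancel_left, mul_inv_cancel, inv_mul_cancel, mul_one, one_mul, inv_one, C])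
  have k76 : o.lt (P * m⁻¹) (f * P⁻¹) ↔ o.lt (P * (f⁻¹ * (m * f⁻¹))) (P * (f⁻¹ * (P * m⁻¹))) := o.cv hδ (m * (f⁻¹ * (m * f⁻¹))) e14 (by simp only [mul_assoc, mul_inv_rev, inv_inv, mul_inv_cancel_left, inv_mul_cancel_left, mul_inv_cancel, inv_mul_cancel, mul_one, one_mul, inv_one, C]) (by simp only [mul_assoc, mul_inv_rev, inv_inv, mul_inv_cancel_left, inv_mul_cancel_left, mul_inv_cancel, inv_mul_cancel, mul_one, one_mul, inv_one, C])
  have k77 : o.lt (f * (P⁻¹ * (f * g⁻¹))) (P * (f⁻¹ * (g * m⁻¹))) ↔ o.lt (P * (f⁻¹ * (P * m⁻¹))) (P * (f⁻¹ * (m * g⁻¹))) := o.cv hδ (g * (f⁻¹ * (P * (f⁻¹ * (P * (f⁻¹ * (P * m⁻¹))))))) e9 (by simp only [mul_assoc, mul_inv_rev, inv_inv, mul_inv_cancel_left, inv_mul_cancel_left, mul_inv_cancel, inv_mul_cancel, mul_one, one_mul, inv_one, C]) (by simp only [mul_assoc, mul_inv_rev, inv_inv, mul_inv_cancel_left, inv_mul_cancel_left, mul_inv_cancel, inv_mul_cancel,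 mul_one, one_mul, inv_one, C])
  have k78 : o.lt (P * (f⁻¹ * (m * g⁻¹))) (P * (f⁻¹ * (g * P⁻¹))) ↔ o.lt (P * (f⁻¹ * (m * g⁻¹))) (P * (f⁻¹ * (g * P⁻¹))) := o.cv hδ (1) e15 (by simp only [mul_assoc, mul_inv_rev, inv_inv, mul_inv_cancel_left, inv_mul_cancel_left, mul_inv_cancel, inv_mul_cancel, mul_one, one_mul, inv_one, C]) (by simp only [mul_assoc, mul_inv_rev, inv_inv, mul_inv_cancel_left, inv_mul_cancel_left, mul_inv_cancel, inv_mul_cancel, mul_one, one_mul, inv_one, C])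
  have k79 : o.lt (P * f⁻¹) (g * m⁻¹) ↔ o.lt (P * (f⁻¹ * (m * g⁻¹))) (1) := o.cv hδ (m * g⁻¹) e17 (by simp only [mul_assoc, mul_inv_rev, inv_inv, mul_inv_cancel_left, inv_mul_cancel_left, mul_inv_cancel, inv_mul_cancel, mul_one, one_mul, inv_one, C]) (by simp only [mul_assoc, mul_inv_rev, inv_inv, mul_inv_cancel_left, inv_mul_cancel_left, mul_inv_cancel, inv_mul_cancel, mul_one, one_mul, inv_one, C])
  have k80 : o.lt (P * g⁻¹) (P * f⁻¹) ↔ o.lt (1) (P * (f⁻¹ * (g * P⁻¹))) := o.cv hδ (g * P⁻¹) e0 (by simp only [mul_assoc, mul_inv_rev, inv_inv, mul_inv_cancel_left, inv_mul_cancel_left, mul_inv_cancel, inv_mul_cancel, mul_one, one_mul, inv_one, C]) (by simp only [mul_assoc, mul_inv_rev, inv_inv, mul_inv_cancel_left, inv_mul_cancel_left, mul_inv_cancel, inv_mul_cancel, mul_one, one_mul, inv_one, C])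
  have k81 : o.lt (P * (m⁻¹ * (f * m⁻¹))) (P * (Q⁻¹ * (f * Q⁻¹))) ↔ o.lt (P * (f⁻¹ * (m * g⁻¹))) (P * (f⁻¹ * (Q * g⁻¹))) := o.cv hδ (m * (f⁻¹ * (m * (f⁻¹ * (m * g⁻¹))))) e13 (by simp only [mul_assoc, mul_inv_rev, inv_inv, mul_inv_cancel_left, inv_mul_cancel_left, mul_inv_cancel, inv_mul_cancel, mul_one, one_mul, inv_one, C]) (by simp only [mul_assoc, mul_inv_rev, inv_inv, mul_inv_cancel_left, inv_mul_cancel_left, mul_inv_cancel, inv_mul_cancel, mul_one, one_mul, inv_one, C])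
  have k82 : o.lt (P * f⁻¹) (g * Q⁻¹) ↔ o.lt (P * (f⁻¹ * (Q * g⁻¹))) (1) := o.cv hδ (Q * g⁻¹) e25 (by simp only [mul_assoc, mul_inv_rev, inv_inv, mul_inv_cancel_left, inv_mul_cancel_left, mul_inv_cancel, inv_mul_cancel, mul_one, one_mul, inv_one, C]) (by simp only [mul_assoc, mul_inv_rev, inv_inv, mul_inv_cancel_left, inv_mul_cancel_left, mul_inv_cancel, inv_mul_cancel, mul_one, one_mul, inv_one, C])
  have k83 : o.lt (P * (Q⁻¹ * (f * Q⁻¹))) (P * (m⁻¹ * (f * m⁻¹))) ↔ o.lt (P * (f⁻¹ * (Q * g⁻¹))) (P * (f⁻¹ * (m * g⁻¹))) := o.cv hδ (Q * (f⁻¹ * (Q * (f⁻¹ * (Q * g⁻¹))))) e23 (by simp only [mul_assoc, mul_inv_rev, inv_inv, mul_inv_cancel_left, inv_mul_cancel_left, mul_inv_cancel, inv_mul_cancel, mul_one, one_mul, inv_one, C]) (by simp only [mul_assoc, mul_inv_rev, inv_inv, mul_inv_cancel_left, inv_mul_cancel_left, mul_inv_cancel, inv_mul_cancel, mul_one, one_mul, inv_one, C])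
  have k84 : o.lt (f * (P⁻¹ * (f * g⁻¹))) (P * (f⁻¹ * (g * Q⁻¹))) ↔ o.lt (P * (f⁻¹ * (P * Q⁻¹))) (P * (f⁻¹ * (Q * g⁻¹))) := o.cv hδ (g * (f⁻¹ * (P * (f⁻¹ * (P * (f⁻¹ * (P * Q⁻¹))))))) e10 (by simp only [mul_assoc, mul_inv_rev, inv_inv, mul_inv_cancel_left, inv_mul_cancel_left, mul_inv_cancel, inv_mul_cancel, mul_one, one_mul, inv_one, C]) (by simp only [mul_assoc, mul_inv_rev, inv_inv, mul_inv_cancel_left, inv_mul_cancel_left, mul_inv_cancel, inv_mul_cancel, mul_one, one_mul, inv_one, C])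
  have k85 : o.lt (f * P⁻¹) (Q * f⁻¹) ↔ o.lt (P * (f⁻¹ * (P * Q⁻¹))) (1) := o.cv hδ (P * (f⁻¹ * (P * (f⁻¹ * (P * Q⁻¹))))) e27 (by simp only [mul_assoc, mul_inv_rev, inv_inv, mul_inv_cancel_left, inv_mul_cancel_left, mul_inv_cancel, inv_mul_cancel, mul_one, one_mul, inv_one, C]) (by simp only [mul_assoc, mul_inv_rev, inv_inv, mul_inv_cancel_left, inv_mul_cancel_left, mul_inv_cancel, inv_mul_cancel, mul_one, one_mul, inv_one, C])
  have k86 : o.lt (P * g⁻¹) (P * f⁻¹) ↔ o.lt (P * g⁻¹) (P * f⁻¹) := o.cv hδ (1) e0 (by simp only [mul_assoc, mul_inv_rev, inv_inv, mul_inv_cancel_left, inv_mul_cancel_left, mul_inv_cancel, inv_mul_cancel, mul_one, one_mul, inv_one, C]) (by simp only [mul_assoc, mul_inv_rev, inv_inv, mul_inv_cancel_left, inv_mul_cancel_left, mul_inv_cancel, inv_mul_cancel, mul_one, one_mul, inv_one, C])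
  have k87 : o.lt (P * g⁻¹) (Q * P⁻¹) ↔ o.lt ((P * g⁻¹)⁻¹) ((g * Q⁻¹)⁻¹) := o.cv hδ (g * (P⁻¹ * (g * P⁻¹))) e31 (by simp only [mul_assoc, mul_inv_rev, inv_inv, mul_inv_cancel_left, inv_mul_cancel_left, mul_inv_cancel, inv_mul_cancel, mul_one, one_mul, inv_one, C]) (by simp only [mul_assoc, mul_inv_rev, inv_inv, mul_inv_cancel_left, inv_mul_cancel_left, mul_inv_cancel, inv_mul_cancel, mul_one, one_mul, inv_one, C])
  exact ser_AEA_0_prop
    (fun b0 b1 b2 => N0.i.r0 1 (fun h => b0 (k0.2 h)) (k1.1 b1) (fun h => b2 (k2.2 h)))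
    (fun b0 b1 b2 => N0.i.r1 1 (fun h => b0 (k3.2 h)) (fun h => b1 (k4.2 h)) (k2.1 b2))
    (fun b0 b1 b2 => N0.d.r1 1 (fun h => b0 (k5.2 h)) (fun h => b1 (k1.2 h)) (k6.1 b2))
    (fun b0 b1 b2 => N1.i.r1 1 (fun h => b0 (k7.2 h)) (k8.1 b1) (fun h => b2 (k9.2 h)))
    (fun b0 b1 b2 => N1.d.r1 1 (fun h => b0 (k10.2 h)) (k11.1 b1) (fun h => b2 (k12.2 h)))
    (fun b0 b1 b2 => N1.rd.r2 1 (fun h => b0 (k8.2 h)) (fun h => b1 (k13.2 h)) (k14.1 b2))
    (fun b0 b1 b2 => N0.r.r0 (P * f⁻¹) (fun h => b0 (k15.2 h)) (k16.1 b1) (fun h => b2 (k17.2 h)))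
    (fun b0 b1 b2 => N0.r.r1 (P * f⁻¹) (fun h => b0 (k18.2 h)) (fun h => b1 (k19.2 h)) (k17.1 b2))
    (fun b0 b1 b2 => N0.d.r0 (P * f⁻¹) (fun h => b0 (k20.2 h)) (k21.1 b1) (fun h => b2 (k22.2 h)))
    (fun b0 b1 b2 => N1.d.r0 (P * f⁻¹) (k23.1 b0) (fun h => b1 (k24.2 h)) (fun h => b2 (k25.2 h)))
    (fun b0 b1 b2 => N1.d.r1 (P * f⁻¹) (fun h => b0 (k26.2 h)) (k27.1 b1) (fun h => b2 (k24.2 h)))
    (fun b0 b1 b2 => N1.rd.r1 (P * f⁻¹) (fun h => b0 (k28.2 h)) (k15.1 b1) (fun h => b2 (k29.2 h)))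
    (fun b0 b1 b2 => N1.d.r2 (P * f⁻¹) (fun h => b0 (k30.2 h)) (fun h => b1 (k31.2 h)) (k32.1 b2))
    (fun b0 b1 b2 => N1.r.r2 (P * f⁻¹) (fun h => b0 (k27.2 h)) (fun h => b1 (k33.2 h)) (k29.1 b2))
    (fun b0 b1 b2 => o.tri (k34.1 b0) (fun h => b1 (k35.2 h)) (fun h => b2 (k36.2 h)))
    (fun b0 b1 => o.asym (k35.1 b0) (k37.1 b1))
    (fun b0 b1 => o.asym (k38.1 b0) (k39.1 b1))
    (fun b0 b1 b2 => o.tri (k40.1 b0) (fun h => b1 (k41.2 h)) (fun h => b2 (k42.2 h)))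
    (fun b0 b1 => o.asym (k43.1 b0) (k36.1 b1))
    (fun b0 b1 b2 => o.tri (k44.1 b0) (fun h => b1 (k45.2 h)) (fun h => b2 (k39.2 h)))
    (fun b0 b1 b2 => o.tri (k46.1 b0) (fun h => b1 (k44.2 h)) (fun h => b2 (k34.2 h)))
    (fun b0 b1 => o.asym (k47.1 b0) (k42.1 b1))
    (fun b0 b1 b2 => o.tri (k47.1 b0) (fun h => b1 (k48.2 h)) (fun h => b2 (k41.2 h)))
    (fun b0 b1 b2 => o.tri (k49.1 b0) (fun h => b1 (k50.2 h)) (fun h => b2 (k51.2 h)))
    (fun b0 b1 b2 => o.tri (k50.1 b0) (fun h => b1 (k52.2 h)) (fun h => b2 (k53.2 h)))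
    (fun b0 b1 b2 => o.tri (k54.1 b0) (fun h => b1 (k49.2 h)) (fun h => b2 (k55.2 h)))
    (fun b0 b1 b2 => o.tri (k56.1 b0) (fun h => b1 (k57.2 h)) (fun h => b2 (k58.2 h)))
    (fun b0 b1 b2 => o.tri (k57.1 b0) (fun h => b1 (k55.2 h)) (fun h => b2 (k59.2 h)))
    (fun b0 b1 => o.asym (k60.1 b0) (k59.1 b1))
    (fun b0 b1 b2 => o.tri (k60.1 b0) (fun h => b1 (k61.2 h)) (fun h => b2 (k54.2 h)))
    (fun b0 b1 b2 => o.tri (k62.1 b0) (fun h => b1 (k52.2 h)) (fun h => b2 (k63.2 h)))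
    (fun b0 b1 => o.asym (k64.1 b0) (k65.1 b1))
    (fun b0 b1 b2 => o.tri (k66.1 b0) (fun h => b1 (k67.2 h)) (fun h => b2 (k54.2 h)))
    (fun b0 b1 b2 => o.tri (k66.1 b0) (fun h => b1 (k68.2 h)) (fun h => b2 (k60.2 h)))
    (fun b0 b1 b2 => o.tri (k69.1 b0) (fun h => b1 (k65.2 h)) (fun h => b2 (k70.2 h)))
    (fun b0 b1 b2 => o.tri (k71.1 b0) (fun h => b1 (k72.2 h)) (fun h => b2 (k73.2 h)))
    (fun b0 b1 => o.asym (k74.1 b0) (k75.1 b1))
    (fun b0 b1 b2 => o.tri (k74.1 b0) (fun h => b1 (k76.2 h)) (fun h => b2 (k77.2 h)))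
    (fun b0 b1 b2 => o.tri (k78.1 b0) (fun h => b1 (k79.2 h)) (fun h => b2 (k80.2 h)))
    (fun b0 b1 b2 => o.tri (k81.1 b0) (fun h => b1 (k79.2 h)) (fun h => b2 (k72.2 h)))
    (fun b0 b1 b2 => o.tri (k82.1 b0) (fun h => b1 (k83.2 h)) (fun h => b2 (k79.2 h)))
    (fun b0 b1 b2 => o.tri (k84.1 b0) (fun h => b1 (k85.2 h)) (fun h => b2 (k72.2 h)))
    (fun h => g0 (k86.1 h))
    (k38.2 g1)
    (fun h => g2 (k87.1 h))

theorem ser_AEA_1_prop {A1 A2 A3 A4 A5 A6 A7 A8 A9 A10 A11 A12 A13 A14 A15 A16 A17 A18 A19 A20 A21 A22 A23 A24 A25 A26 A27 : Prop}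
    (c0 : ¬ A24 → A25 → ¬ A8 → False)
    (c1 : ¬ A26 → A23 → ¬ A2 → False)
    (c2 : ¬ A5 → A3 → ¬ A6 → False)
    (c3 : ¬ A1 → A10 → ¬ A19 → False)
    (c4 : ¬ A12 → ¬ A10 → A6 → False)
    (c5 : A20 → ¬ A17 → ¬ A13 → False)
    (c6 : ¬ A22 → A24 → ¬ A17 → False)
    (c7 : ¬ A20 → A26 → ¬ A14 → False)
    (c8 : ¬ A24 → ¬ A16 → A9 → False)
    (c9 : A12 → ¬ A17 → False)
    (c10 : A14 → ¬ A9 → False)
    (c11 : A1 → A5 → False)
    (c12 : A1 → ¬ A4 → ¬ A21 → False)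
    (c13 : A2 → ¬ A3 → ¬ A12 → False)
    (c14 : A3 → A10 → False)
    (c15 : A5 → ¬ A6 → ¬ A18 → False)
    (c16 : A7 → A21 → False)
    (c17 : A7 → ¬ A6 → ¬ A20 → False)
    (c18 : A11 → ¬ A10 → ¬ A1 → False)
    (c19 : A13 → ¬ A14 → ¬ A16 → False)
    (c20 : A16 → ¬ A15 → ¬ A3 → False)
    (c21 : A19 → ¬ A20 → ¬ A21 → False)
    (c22 : A20 → A22 → False)
    (c23 : A4 → ¬ A23 → ¬ A27 → False)
    (c24 : A18 → ¬ A24 → ¬ A25 → False)
    (c25 : A24 → A26 → False)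
    (c26 : A8 → ¬ A24 → ¬ A11 → False)
    (c27 : A27 → ¬ A26 → ¬ A20 → False)
    (u0 : ¬ A17)
    (u1 : ¬ A15)
    (u2 : A7)
    : False := by
  have q1 : ¬ A12 := fun h => c9 h u0
  have q2 : ¬ A21 := fun h => c16 u2 h
  rcases Classical.em A20 with q3 | q3
  · have q4 : A13 := Classical.byContradiction fun h => c5 q3 u0 h
    have q5 : ¬ A22 := fun h => c22 q3 h
    have q6 : ¬ A24 := fun h => c6 q5 h u0
    rcases Classical.em A3 with q7 | q7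
    · have q8 : ¬ A10 := fun h => c14 q7 h
      have q9 : ¬ A6 := fun h => c4 q1 q8 h
      have q10 : A5 := Classical.byContradiction fun h => c2 h q7 q9
      have q11 : ¬ A1 := fun h => c11 h q10
      have q12 : A18 := Classical.byContradiction fun h => c15 q10 q9 h
      have q13 : ¬ A11 := fun h => c18 h q8 q11
      have q14 : A25 := Classical.byContradiction fun h => c24 q12 q6 h
      have q15 : A8 := Classical.byContradiction fun h => c0 q6 q14 h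
      exact c26 q15 q6 q13
    · have q16 : ¬ A2 := fun h => c13 h q7 q1
      have q17 : ¬ A16 := fun h => c20 h u1 q7
      have q18 : ¬ A9 := fun h => c8 q6 q17 h
      have q19 : ¬ A14 := fun h => c10 h q18
      exact c19 q4 q19 q17
  · have q20 : A6 := Classical.byContradiction fun h => c17 u2 h q3
    have q21 : A10 := Classical.byContradiction fun h => c4 q1 h q20
    have q22 : ¬ A3 := fun h => c14 h q21
    have q23 : ¬ A2 := fun h => c13 h q22 q1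
    have q24 : ¬ A16 := fun h => c20 h u1 q22
    have q25 : ¬ A19 := fun h => c21 h q3 q2
    have q26 : A1 := Classical.byContradiction fun h => c3 h q21 q25
    have q27 : ¬ A5 := fun h => c11 q26 h
    have q28 : A4 := Classical.byContradiction fun h => c12 q26 h q2
    rcases Classical.em A24 with q29 | q29
    · have q30 : A22 := Classical.byContradiction fun h => c6 h q29 u0
      have q31 : ¬ A26 := fun h => c25 q29 h
      have q32 : ¬ A23 := fun h => c1 q31 h q23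
      have q33 : A27 := Classical.byContradiction fun h => c23 q28 q32 h
      exact c27 q33 q31 q3
    · have q34 : ¬ A9 := fun h => c8 q29 q24 h
      have q35 : ¬ A14 := fun h => c10 h q34
      have q36 : ¬ A26 := fun h => c7 q3 h q35
      have q37 : ¬ A23 := fun h => c1 q36 h q23
      have q38 : ¬ A13 := fun h => c19 h q35 q24
      have q39 : A27 := Classical.byContradiction fun h => c23 q28 q37 h
      exact c27 q39 q36 q3

theorem ser_AEA_1 {G : Type*} [Group G] {δ : G → ZMod 3} (hδ : ∀ u v, δ (u * v) = δ u + δ v) (o : Pre δ)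
    {P m Q f g : G} {e : ZMod 3} (h3 : 3 * e = 0)
    (D : δ P = e ∧ δ m = -e ∧ δ Q = -e ∧ δ f = 0 ∧ δ g = 0)
    (C : Cube P f ∧ Cube P g ∧ Cube m f ∧ Cube m g ∧ Cube Q f ∧ Cube Q g)
    (N0 : RA o P m f g)
    (N1 : RE o m Q f g)
    (g0 : ¬ o.lt (g * Q⁻¹) (f * Q⁻¹)) (g1 : ¬ o.lt (g * Q⁻¹) (P * f⁻¹)) (g2 : o.lt ((P * g⁻¹)⁻¹) ((g * Q⁻¹)⁻¹)) : False := by
  simp only [Cube] at C
  have e0 : δ (P * f⁻¹) = δ (P * g⁻¹) := by simp only [hδ, δinv hδ, δone hδ, D] <;> linear_combination (0) * h3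
  have e1 : δ (P * f⁻¹) = δ (f * m⁻¹) := by simp only [hδ, δinv hδ, δone hδ, D] <;> linear_combination (0) * h3
  have e2 : δ (P * f⁻¹) = δ (g * m⁻¹) := by simp only [hδ, δinv hδ, δone hδ, D] <;> linear_combination (0) * h3
  have e3 : δ (P * f⁻¹) = δ (Q * P⁻¹) := by simp only [hδ, δinv hδ, δone hδ, D] <;> linear_combination (1) * h3
  have e4 : δ (P * g⁻¹) = δ (P * f⁻¹) := by simp only [hδ, δinv hδ, δone hδ, D] <;> linear_combination (0) * h3
  have e5 : δ (g * P⁻¹) = δ (m * g⁻¹) := by simp only [hδ, δinv hδ, δone hδ, D] <;> linear_combination (0) * h3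
  have e6 : δ (P * g⁻¹) = δ (Q * P⁻¹) := by simp only [hδ, δinv hδ, δone hδ, D] <;> linear_combination (1) * h3
  have e7 : δ (f * m⁻¹) = δ (P * f⁻¹) := by simp only [hδ, δinv hδ, δone hδ, D] <;> linear_combination (0) * h3
  have e8 : δ (f * m⁻¹) = δ (g * m⁻¹) := by simp only [hδ, δinv hδ, δone hδ, D] <;> linear_combination (0) * h3
  have e9 : δ (g * m⁻¹) = δ (P * f⁻¹) := by simp only [hδ, δinv hδ, δone hδ, D] <;> linear_combination (0) * h3
  have e10 : δ (g * m⁻¹) = δ (P * g⁻¹) := by simp only [hδ, δinv hδ, δone hδ, D] <;> linear_combination (0) * h3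
  have e11 : δ (g * m⁻¹) = δ (f * m⁻¹) := by simp only [hδ, δinv hδ, δone hδ, D] <;> linear_combination (0) * h3
  have e12 : δ (f * Q⁻¹) = δ (g * m⁻¹) := by simp only [hδ, δinv hδ, δone hδ, D] <;> linear_combination (0) * h3
  have e13 : δ (f * Q⁻¹) = δ (g * Q⁻¹) := by simp only [hδ, δinv hδ, δone hδ, D] <;> linear_combination (0) * h3
  have e14 : δ (g * Q⁻¹) = δ (P * f⁻¹) := by simp only [hδ, δinv hδ, δone hδ, D] <;> linear_combination (0) * h3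
  have e15 : δ (g * Q⁻¹) = δ (g * m⁻¹) := by simp only [hδ, δinv hδ, δone hδ, D] <;> linear_combination (0) * h3
  have e16 : δ (g * Q⁻¹) = δ (f * Q⁻¹) := by simp only [hδ, δinv hδ, δone hδ, D] <;> linear_combination (0) * h3
  have e17 : δ (m * P⁻¹) = δ (P * f⁻¹) := by simp only [hδ, δinv hδ, δone hδ, D] <;> linear_combination (-1) * h3
  have e18 : δ (m * g⁻¹) = δ (g * P⁻¹) := by simp only [hδ, δinv hδ, δone hδ, D] <;> linear_combination (0) * h3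
  have e19 : δ (m * g⁻¹) = δ (Q * g⁻¹) := by simp only [hδ, δinv hδ, δone hδ, D] <;> linear_combination (0) * h3
  have e20 : δ (Q * P⁻¹) = δ (P * g⁻¹) := by simp only [hδ, δinv hδ, δone hδ, D] <;> linear_combination (-1) * h3
  have e21 : δ (Q * g⁻¹) = δ (m * g⁻¹) := by simp only [hδ, δinv hδ, δone hδ, D] <;> linear_combination (0) * h3
  have e22 : δ (f * P⁻¹) = δ (m * g⁻¹) := by simp only [hδ, δinv hδ, δone hδ, D] <;> linear_combination (0) * h3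
  have e23 : δ (m * f⁻¹) = δ (m * g⁻¹) := by simp only [hδ, δinv hδ, δone hδ, D] <;> linear_combination (0) * h3
  have e24 : δ (m * g⁻¹) = δ (f * P⁻¹) := by simp only [hδ, δinv hδ, δone hδ, D] <;> linear_combination (0) * h3
  have e25 : δ (m * g⁻¹) = δ (m * f⁻¹) := by simp only [hδ, δinv hδ, δone hδ, D] <;> linear_combination (0) * h3
  have e26 : δ (m * g⁻¹) = δ (Q * f⁻¹) := by simp only [hδ, δinv hδ, δone hδ, D] <;> linear_combination (0) * h3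
  have k0 : o.lt (m * f⁻¹) (m * g⁻¹) ↔ o.lt (1 * (m * f⁻¹)) (1 * (m * g⁻¹)) := o.cv hδ (1) e23 (by simp only [mul_assoc, mul_inv_rev, inv_inv, mul_inv_cancel_left, inv_mul_cancel_left, mul_inv_cancel, inv_mul_cancel, mul_one, one_mul, inv_one, C]) (by simp only [mul_assoc, mul_inv_rev, inv_inv, mul_inv_cancel_left, inv_mul_cancel_left, mul_inv_cancel, inv_mul_cancel, mul_one, one_mul, inv_one, C])
  have k1 : o.lt (m * g⁻¹) (f * P⁻¹) ↔ o.lt (1 * (m * g⁻¹)) (1 * (f * P⁻¹)) := o.cv hδ (1) e24 (by simp only [mul_assoc, mul_inv_rev, inv_inv, mul_inv_cancel_left, inv_mul_cancel_left, mul_inv_cancel, inv_mul_cancel, mul_one, one_mul, inv_one, C]) (by simp only [mul_assoc, mul_inv_rev, inv_inv, mul_inv_cancel_left, inv_mul_cancel_left, mul_inv_cancel, inv_mul_cancel, mul_one, one_mul, inv_one, C])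
  have k2 : o.lt (f * m⁻¹) (P * f⁻¹) ↔ o.lt (1 * (m * f⁻¹)⁻¹) (1 * (f * P⁻¹)⁻¹) := o.cv hδ (1) e7 (by simp only [mul_assoc, mul_inv_rev, inv_inv, mul_inv_cancel_left, inv_mul_cancel_left, mul_inv_cancel, inv_mul_cancel, mul_one, one_mul, inv_one, C]) (by simp only [mul_assoc, mul_inv_rev, inv_inv, mul_inv_cancel_left, inv_mul_cancel_left, mul_inv_cancel, inv_mul_cancel, mul_one, one_mul, inv_one, C])
  have k3 : o.lt (m * g⁻¹) (m * f⁻¹) ↔ o.lt (1 * (m * g⁻¹)) (1 * (m * f⁻¹)) := o.cv hδ (1) e25 (by simp only [mul_assoc, mul_inv_rev, inv_inv, mul_inv_cancel_left, inv_mul_cancel_left, mul_inv_cancel, inv_mul_cancel, mul_one, one_mul, inv_one, C]) (by simp only [mul_assoc, mul_inv_rev, inv_inv, mul_inv_cancel_left, inv_mul_cancel_left, mul_inv_cancel, inv_mul_cancel, mul_one, one_mul, inv_one, C])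
  have k4 : o.lt (f * P⁻¹) (m * g⁻¹) ↔ o.lt (1 * (f * P⁻¹)) (1 * (m * g⁻¹)) := o.cv hδ (1) e22 (by simp only [mul_assoc, mul_inv_rev, inv_inv, mul_inv_cancel_left, inv_mul_cancel_left, mul_inv_cancel, inv_mul_cancel, mul_one, one_mul, inv_one, C]) (by simp only [mul_assoc, mul_inv_rev, inv_inv, mul_inv_cancel_left, inv_mul_cancel_left, mul_inv_cancel, inv_mul_cancel, mul_one, one_mul, inv_one, C])
  have k5 : o.lt (P * f⁻¹) (f * m⁻¹) ↔ o.lt (1 * (f * P⁻¹)⁻¹) (1 * (m * f⁻¹)⁻¹) := o.cv hδ (1) e1 (by simp only [mul_assoc, mul_inv_rev, inv_inv, mul_inv_cancel_left, inv_mul_cancel_left, mul_inv_cancel, inv_mul_cancel, mul_one, one_mul, inv_one, C]) (by simp only [mul_assoc, mul_inv_rev, inv_inv, mul_inv_cancel_left, inv_mul_cancel_left, mul_inv_cancel, inv_mul_cancel, mul_one, one_mul, inv_one, C])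
  have k6 : o.lt (P * g⁻¹) (P * f⁻¹) ↔ o.lt (1 * (P * g⁻¹)) (1 * (P * f⁻¹)) := o.cv hδ (1) e4 (by simp only [mul_assoc, mul_inv_rev, inv_inv, mul_inv_cancel_left, inv_mul_cancel_left, mul_inv_cancel, inv_mul_cancel, mul_one, one_mul, inv_one, C]) (by simp only [mul_assoc, mul_inv_rev, inv_inv, mul_inv_cancel_left, inv_mul_cancel_left, mul_inv_cancel, inv_mul_cancel, mul_one, one_mul, inv_one, C])
  have k7 : o.lt (P * f⁻¹) (g * m⁻¹) ↔ o.lt (1 * (P * f⁻¹)) (1 * (g * m⁻¹)) := o.cv hδ (1) e2 (by simp only [mul_assoc, mul_inv_rev, inv_inv, mul_inv_cancel_left, inv_mul_cancel_left, mul_inv_cancel, inv_mul_cancel, mul_one, one_mul, inv_one, C]) (by simp only [mul_assoc, mul_inv_rev, inv_inv, mul_inv_cancel_left, inv_mul_cancel_left, mul_inv_cancel, inv_mul_cancel, mul_one, one_mul, inv_one, C])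
  have k8 : o.lt (g * P⁻¹) (m * g⁻¹) ↔ o.lt (1 * (P * g⁻¹)⁻¹) (1 * (g * m⁻¹)⁻¹) := o.cv hδ (1) e5 (by simp only [mul_assoc, mul_inv_rev, inv_inv, mul_inv_cancel_left, inv_mul_cancel_left, mul_inv_cancel, inv_mul_cancel, mul_one, one_mul, inv_one, C]) (by simp only [mul_assoc, mul_inv_rev, inv_inv, mul_inv_cancel_left, inv_mul_cancel_left, mul_inv_cancel, inv_mul_cancel, mul_one, one_mul, inv_one, C])
  have k9 : o.lt (P * f⁻¹) (P * g⁻¹) ↔ o.lt (1 * (P * f⁻¹)) (1 * (P * g⁻¹)) := o.cv hδ (1) e0 (by simp only [mul_assoc, mul_inv_rev, inv_inv, mul_inv_cancel_left, inv_mul_cancel_left, mul_inv_cancel, inv_mul_cancel, mul_one, one_mul, inv_one, C]) (by simp only [mul_assoc, mul_inv_rev, inv_inv, mul_inv_cancel_left, inv_mul_cancel_left, mul_inv_cancel, inv_mul_cancel, mul_one, one_mul, inv_one, C])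
  have k10 : o.lt (g * m⁻¹) (P * f⁻¹) ↔ o.lt (1 * (g * m⁻¹)) (1 * (P * f⁻¹)) := o.cv hδ (1) e9 (by simp only [mul_assoc, mul_inv_rev, inv_inv, mul_inv_cancel_left, inv_mul_cancel_left, mul_inv_cancel, inv_mul_cancel, mul_one, one_mul, inv_one, C]) (by simp only [mul_assoc, mul_inv_rev, inv_inv, mul_inv_cancel_left, inv_mul_cancel_left, mul_inv_cancel, inv_mul_cancel, mul_one, one_mul, inv_one, C])
  have k11 : o.lt (m * g⁻¹) (g * P⁻¹) ↔ o.lt (1 * (g * m⁻¹)⁻¹) (1 * (P * g⁻¹)⁻¹) := o.cv hδ (1) e18 (by simp only [mul_assoc, mul_inv_rev, inv_inv, mul_inv_cancel_left, inv_mul_cancel_left, mul_inv_cancel, inv_mul_cancel, mul_one, one_mul, inv_one, C]) (by simp only [mul_assoc, mul_inv_rev, inv_inv, mul_inv_cancel_left, inv_mul_cancel_left, mul_inv_cancel, inv_mul_cancel, mul_one, one_mul, inv_one, C])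
  have k12 : o.lt (g * m⁻¹) (f * m⁻¹) ↔ o.lt (1 * (g * m⁻¹)) (1 * (f * m⁻¹)) := o.cv hδ (1) e11 (by simp only [mul_assoc, mul_inv_rev, inv_inv, mul_inv_cancel_left, inv_mul_cancel_left, mul_inv_cancel, inv_mul_cancel, mul_one, one_mul, inv_one, C]) (by simp only [mul_assoc, mul_inv_rev, inv_inv, mul_inv_cancel_left, inv_mul_cancel_left, mul_inv_cancel, inv_mul_cancel, mul_one, one_mul, inv_one, C])
  have k13 : o.lt (m * g⁻¹) (Q * g⁻¹) ↔ o.lt (1 * (m * g⁻¹)) (1 * (Q * g⁻¹)) := o.cv hδ (1) e19 (by simp only [mul_assoc, mul_inv_rev, inv_inv, mul_inv_cancel_left, inv_mul_cancel_left, mul_inv_cancel, inv_mul_cancel, mul_one, one_mul, inv_one, C]) (by simp only [mul_assoc, mul_inv_rev, inv_inv, mul_inv_cancel_left, inv_mul_cancel_left, mul_inv_cancel, inv_mul_cancel, mul_one, one_mul, inv_one, C])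
  have k14 : o.lt (g * Q⁻¹) (f * Q⁻¹) ↔ o.lt (1 * (Q * g⁻¹)⁻¹) (1 * (Q * f⁻¹)⁻¹) := o.cv hδ (1) e16 (by simp only [mul_assoc, mul_inv_rev, inv_inv, mul_inv_cancel_left, inv_mul_cancel_left, mul_inv_cancel, inv_mul_cancel, mul_one, one_mul, inv_one, C]) (by simp only [mul_assoc, mul_inv_rev, inv_inv, mul_inv_cancel_left, inv_mul_cancel_left, mul_inv_cancel, inv_mul_cancel, mul_one, one_mul, inv_one, C])
  have k15 : o.lt (f * Q⁻¹) (g * m⁻¹) ↔ o.lt (1 * (Q * f⁻¹)⁻¹) (1 * (m * g⁻¹)⁻¹) := o.cv hδ (1) e12 (by simp only [mul_assoc, mul_inv_rev, inv_inv, mul_inv_cancel_left, inv_mul_cancel_left, mul_inv_cancel, inv_mul_cancel, mul_one, one_mul, inv_one, C]) (by simp only [mul_assoc, mul_inv_rev, inv_inv, mul_inv_cancel_left, inv_mul_cancel_left, mul_inv_cancel, inv_mul_cancel, mul_one, one_mul, inv_one, C])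
  have k16 : o.lt (Q * g⁻¹) (m * g⁻¹) ↔ o.lt (1 * (Q * g⁻¹)) (1 * (m * g⁻¹)) := o.cv hδ (1) e21 (by simp only [mul_assoc, mul_inv_rev, inv_inv, mul_inv_cancel_left, inv_mul_cancel_left, mul_inv_cancel, inv_mul_cancel, mul_one, one_mul, inv_one, C]) (by simp only [mul_assoc, mul_inv_rev, inv_inv, mul_inv_cancel_left, inv_mul_cancel_left, mul_inv_cancel, inv_mul_cancel, mul_one, one_mul, inv_one, C])
  have k17 : o.lt (f * Q⁻¹) (g * Q⁻¹) ↔ o.lt (1 * (Q * f⁻¹)⁻¹) (1 * (Q * g⁻¹)⁻¹) := o.cv hδ (1) e13 (by simp only [mul_assoc, mul_inv_rev, inv_inv, mul_inv_cancel_left, inv_mul_cancel_left, mul_inv_cancel, inv_mul_cancel, mul_one, one_mul, inv_one, C]) (by simp only [mul_assoc, mul_inv_rev, inv_inv, mul_inv_cancel_left, inv_mul_cancel_left, mul_inv_cancel, inv_mul_cancel, mul_one, one_mul, inv_one, C])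
  have k18 : o.lt (g * Q⁻¹) (g * m⁻¹) ↔ o.lt (1 * (Q * g⁻¹)⁻¹) (1 * (m * g⁻¹)⁻¹) := o.cv hδ (1) e15 (by simp only [mul_assoc, mul_inv_rev, inv_inv, mul_inv_cancel_left, inv_mul_cancel_left, mul_inv_cancel, inv_mul_cancel, mul_one, one_mul, inv_one, C]) (by simp only [mul_assoc, mul_inv_rev, inv_inv, mul_inv_cancel_left, inv_mul_cancel_left, mul_inv_cancel, inv_mul_cancel, mul_one, one_mul, inv_one, C])
  have k19 : o.lt (f * m⁻¹) (g * m⁻¹) ↔ o.lt (1 * (m * f⁻¹)⁻¹) (1 * (m * g⁻¹)⁻¹) := o.cv hδ (1) e8 (by simp only [mul_assoc, mul_inv_rev, inv_inv, mul_inv_cancel_left, inv_mul_cancel_left, mul_inv_cancel, inv_mul_cancel, mul_one, one_mul, inv_one, C]) (by simp only [mul_assoc, mul_inv_rev, inv_inv, mul_inv_cancel_left, inv_mul_cancel_left, mul_inv_cancel, inv_mul_cancel, mul_one, one_mul, inv_one, C])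
  have k20 : o.lt (g * m⁻¹) (f * m⁻¹) ↔ o.lt (1 * (m * g⁻¹)⁻¹) (1 * (m * f⁻¹)⁻¹) := o.cv hδ (1) e11 (by simp only [mul_assoc, mul_inv_rev, inv_inv, mul_inv_cancel_left, inv_mul_cancel_left, mul_inv_cancel, inv_mul_cancel, mul_one, one_mul, inv_one, C]) (by simp only [mul_assoc, mul_inv_rev, inv_inv, mul_inv_cancel_left, inv_mul_cancel_left, mul_inv_cancel, inv_mul_cancel, mul_one, one_mul, inv_one, C])
  have k21 : o.lt (P * f⁻¹) (P * g⁻¹) ↔ o.lt (P * f⁻¹) (P * g⁻¹) := o.cv hδ (1) e0 (by simp only [mul_assoc, mul_inv_rev, inv_inv, mul_inv_cancel_left, inv_mul_cancel_left, mul_inv_cancel, inv_mul_cancel, mul_one, one_mul, inv_one, C]) (by simp only [mul_assoc, mul_inv_rev, inv_inv, mul_inv_cancel_left, inv_mul_cancel_left, mul_inv_cancel, inv_mul_cancel, mul_one, one_mul, inv_one, C])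
  have k22 : o.lt (P * g⁻¹) (P * f⁻¹) ↔ o.lt (P * g⁻¹) (P * f⁻¹) := o.cv hδ (1) e4 (by simp only [mul_assoc, mul_inv_rev, inv_inv, mul_inv_cancel_left, inv_mul_cancel_left, mul_inv_cancel, inv_mul_cancel, mul_one, one_mul, inv_one, C]) (by simp only [mul_assoc, mul_inv_rev, inv_inv, mul_inv_cancel_left, inv_mul_cancel_left, mul_inv_cancel, inv_mul_cancel, mul_one, one_mul, inv_one, C])
  have k23 : o.lt (P * f⁻¹) (Q * P⁻¹) ↔ o.lt (P * f⁻¹) (Q * P⁻¹) := o.cv hδ (1) e3 (by simp only [mul_assoc, mul_inv_rev, inv_inv, mul_inv_cancel_left, inv_mul_cancel_left, mul_inv_cancel, inv_mul_cancel, mul_one, one_mul, inv_one, C]) (by simp only [mul_assoc, mul_inv_rev, inv_inv, mul_inv_cancel_left, inv_mul_cancel_left, mul_inv_cancel, inv_mul_cancel, mul_one, one_mul, inv_one, C])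
  have k24 : o.lt (Q * P⁻¹) (P * g⁻¹) ↔ o.lt (Q * P⁻¹) (P * g⁻¹) := o.cv hδ (1) e20 (by simp only [mul_assoc, mul_inv_rev, inv_inv, mul_inv_cancel_left, inv_mul_cancel_left, mul_inv_cancel, inv_mul_cancel, mul_one, one_mul, inv_one, C]) (by simp only [mul_assoc, mul_inv_rev, inv_inv, mul_inv_cancel_left, inv_mul_cancel_left, mul_inv_cancel, inv_mul_cancel, mul_one, one_mul, inv_one, C])
  have k25 : o.lt (P * f⁻¹) (f * m⁻¹) ↔ o.lt (P * f⁻¹) (f * m⁻¹) := o.cv hδ (1) e1 (by simp only [mul_assoc, mul_inv_rev, inv_inv, mul_inv_cancel_left, inv_mul_cancel_left, mul_inv_cancel, inv_mul_cancel, mul_one, one_mul, inv_one, C]) (by simp only [mul_assoc, mul_inv_rev, inv_inv, mul_inv_cancel_left, inv_mul_cancel_left, mul_inv_cancel, inv_mul_cancel, mul_one, one_mul, inv_one, C])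
  have k26 : o.lt (P * f⁻¹) (g * m⁻¹) ↔ o.lt (P * f⁻¹) (g * m⁻¹) := o.cv hδ (1) e2 (by simp only [mul_assoc, mul_inv_rev, inv_inv, mul_inv_cancel_left, inv_mul_cancel_left, mul_inv_cancel, inv_mul_cancel, mul_one, one_mul, inv_one, C]) (by simp only [mul_assoc, mul_inv_rev, inv_inv, mul_inv_cancel_left, inv_mul_cancel_left, mul_inv_cancel, inv_mul_cancel, mul_one, one_mul, inv_one, C])
  have k27 : o.lt (g * m⁻¹) (f * m⁻¹) ↔ o.lt (g * m⁻¹) (f * m⁻¹) := o.cv hδ (1) e11 (by simp only [mul_assoc, mul_inv_rev, inv_inv, mul_inv_cancel_left, inv_mul_cancel_left, mul_inv_cancel, inv_mul_cancel, mul_one, one_mul, inv_one, C]) (by simp only [mul_assoc, mul_inv_rev, inv_inv, mul_inv_cancel_left, inv_mul_cancel_left, mul_inv_cancel, inv_mul_cancel, mul_one, one_mul, inv_one, C])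
  have k28 : o.lt (g * m⁻¹) (P * f⁻¹) ↔ o.lt (g * m⁻¹) (P * f⁻¹) := o.cv hδ (1) e9 (by simp only [mul_assoc, mul_inv_rev, inv_inv, mul_inv_cancel_left, inv_mul_cancel_left, mul_inv_cancel, inv_mul_cancel, mul_one, one_mul, inv_one, C]) (by simp only [mul_assoc, mul_inv_rev, inv_inv, mul_inv_cancel_left, inv_mul_cancel_left, mul_inv_cancel, inv_mul_cancel, mul_one, one_mul, inv_one, C])
  have k29 : o.lt (g * P⁻¹) (m * g⁻¹) ↔ o.lt (P * g⁻¹) (m * P⁻¹) := o.cv hδ (P * (g⁻¹ * (P * g⁻¹))) e5 (by simp only [mul_assoc, mul_inv_rev, inv_inv, mul_inv_cancel_left, inv_mul_cancel_left, mul_inv_cancel, inv_mul_cancel, mul_one, one_mul, inv_one, C]) (by simp only [mul_assoc, mul_inv_rev, inv_inv, mul_inv_cancel_left, inv_mul_cancel_left, mul_inv_cancel, inv_mul_cancel, mul_one, one_mul, inv_one, C])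
  have k30 : o.lt (m * P⁻¹) (P * f⁻¹) ↔ o.lt (m * P⁻¹) (P * f⁻¹) := o.cv hδ (1) e17 (by simp only [mul_assoc, mul_inv_rev, inv_inv, mul_inv_cancel_left, inv_mul_cancel_left, mul_inv_cancel, inv_mul_cancel, mul_one, one_mul, inv_one, C]) (by simp only [mul_assoc, mul_inv_rev, inv_inv, mul_inv_cancel_left, inv_mul_cancel_left, mul_inv_cancel, inv_mul_cancel, mul_one, one_mul, inv_one, C])
  have k31 : o.lt (P * g⁻¹) (Q * P⁻¹) ↔ o.lt (P * g⁻¹) (Q * P⁻¹) := o.cv hδ (1) e6 (by simp only [mul_assoc, mul_inv_rev, inv_inv, mul_inv_cancel_left, inv_mul_cancel_left, mul_inv_cancel, inv_mul_cancel, mul_one, one_mul, inv_one, C]) (by simp only [mul_assoc, mul_inv_rev, inv_inv, mul_inv_cancel_left, inv_mul_cancel_left, mul_inv_cancel, inv_mul_cancel, mul_one, one_mul, inv_one, C])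
  have k32 : o.lt (m * g⁻¹) (Q * g⁻¹) ↔ o.lt (m * P⁻¹) (Q * P⁻¹) := o.cv hδ (g * P⁻¹) e19 (by simp only [mul_assoc, mul_inv_rev, inv_inv, mul_inv_cancel_left, inv_mul_cancel_left, mul_inv_cancel, inv_mul_cancel, mul_one, one_mul, inv_one, C]) (by simp only [mul_assoc, mul_inv_rev, inv_inv, mul_inv_cancel_left, inv_mul_cancel_left, mul_inv_cancel, inv_mul_cancel, mul_one, one_mul, inv_one, C])
  have k33 : o.lt (g * m⁻¹) (P * g⁻¹) ↔ o.lt (g * m⁻¹) (P * g⁻¹) := o.cv hδ (1) e10 (by simp only [mul_assoc, mul_inv_rev, inv_inv, mul_inv_cancel_left, inv_mul_cancel_left, mul_inv_cancel, inv_mul_cancel, mul_one, one_mul, inv_one, C]) (by simp only [mul_assoc, mul_inv_rev, inv_inv, mul_inv_cancel_left, inv_mul_cancel_left, mul_inv_cancel, inv_mul_cancel, mul_one, one_mul, inv_one, C])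
  have k34 : o.lt (f * Q⁻¹) (g * m⁻¹) ↔ o.lt (f * Q⁻¹) (g * m⁻¹) := o.cv hδ (1) e12 (by simp only [mul_assoc, mul_inv_rev, inv_inv, mul_inv_cancel_left, inv_mul_cancel_left, mul_inv_cancel, inv_mul_cancel, mul_one, one_mul, inv_one, C]) (by simp only [mul_assoc, mul_inv_rev, inv_inv, mul_inv_cancel_left, inv_mul_cancel_left, mul_inv_cancel, inv_mul_cancel, mul_one, one_mul, inv_one, C])
  have k35 : o.lt (f * Q⁻¹) (g * Q⁻¹) ↔ o.lt (f * Q⁻¹) (g * Q⁻¹) := o.cv hδ (1) e13 (by simp only [mul_assoc, mul_inv_rev, inv_inv, mul_inv_cancel_left, inv_mul_cancel_left, mul_inv_cancel, inv_mul_cancel, mul_one, one_mul, inv_one, C]) (by simp only [mul_assoc, mul_inv_rev, inv_inv, mul_inv_cancel_left, inv_mul_cancel_left, mul_inv_cancel, inv_mul_cancel, mul_one, one_mul, inv_one, C])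
  have k36 : o.lt (g * Q⁻¹) (g * m⁻¹) ↔ o.lt (g * Q⁻¹) (g * m⁻¹) := o.cv hδ (1) e15 (by simp only [mul_assoc, mul_inv_rev, inv_inv, mul_inv_cancel_left, inv_mul_cancel_left, mul_inv_cancel, inv_mul_cancel, mul_one, one_mul, inv_one, C]) (by simp only [mul_assoc, mul_inv_rev, inv_inv, mul_inv_cancel_left, inv_mul_cancel_left, mul_inv_cancel, inv_mul_cancel, mul_one, one_mul, inv_one, C])
  have k37 : o.lt (g * Q⁻¹) (P * f⁻¹) ↔ o.lt (g * Q⁻¹) (P * f⁻¹) := o.cv hδ (1) e14 (by simp only [mul_assoc, mul_inv_rev, inv_inv, mul_inv_cancel_left, inv_mul_cancel_left, mul_inv_cancel, inv_mul_cancel, mul_one, one_mul, inv_one, C]) (by simp only [mul_assoc, mul_inv_rev, inv_inv, mul_inv_cancel_left, inv_mul_cancel_left, mul_inv_cancel, inv_mul_cancel, mul_one, one_mul, inv_one, C])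
  have k38 : o.lt (m * g⁻¹) (g * P⁻¹) ↔ o.lt (m * P⁻¹) (P * g⁻¹) := o.cv hδ (g * P⁻¹) e18 (by simp only [mul_assoc, mul_inv_rev, inv_inv, mul_inv_cancel_left, inv_mul_cancel_left, mul_inv_cancel, inv_mul_cancel, mul_one, one_mul, inv_one, C]) (by simp only [mul_assoc, mul_inv_rev, inv_inv, mul_inv_cancel_left, inv_mul_cancel_left, mul_inv_cancel, inv_mul_cancel, mul_one, one_mul, inv_one, C])
  have k39 : o.lt (Q * g⁻¹) (m * g⁻¹) ↔ o.lt (Q * P⁻¹) (m * P⁻¹) := o.cv hδ (g * P⁻¹) e21 (by simp only [mul_assoc, mul_inv_rev, inv_inv, mul_inv_cancel_left, inv_mul_cancel_left, mul_inv_cancel, inv_mul_cancel, mul_one, one_mul, inv_one, C]) (by simp only [mul_assoc, mul_inv_rev, inv_inv, mul_inv_cancel_left, inv_mul_cancel_left, mul_inv_cancel, inv_mul_cancel, mul_one, one_mul, inv_one, C])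
  have k40 : o.lt (P * f⁻¹) (Q * P⁻¹) ↔ o.lt (f * P⁻¹) (Q * f⁻¹) := o.cv hδ (f * (P⁻¹ * (f * P⁻¹))) e3 (by simp only [mul_assoc, mul_inv_rev, inv_inv, mul_inv_cancel_left, inv_mul_cancel_left, mul_inv_cancel, inv_mul_cancel, mul_one, one_mul, inv_one, C]) (by simp only [mul_assoc, mul_inv_rev, inv_inv, mul_inv_cancel_left, inv_mul_cancel_left, mul_inv_cancel, inv_mul_cancel, mul_one, one_mul, inv_one, C])
  have k41 : o.lt (f * P⁻¹) (m * g⁻¹) ↔ o.lt (f * P⁻¹) (m * g⁻¹) := o.cv hδ (1) e22 (by simp only [mul_assoc, mul_inv_rev, inv_inv, mul_inv_cancel_left, inv_mul_cancel_left, mul_inv_cancel, inv_mul_cancel, mul_one, one_mul, inv_one, C]) (by simp only [mul_assoc, mul_inv_rev, inv_inv, mul_inv_cancel_left, inv_mul_cancel_left, mul_inv_cancel, inv_mul_cancel, mul_one, one_mul, inv_one, C])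
  have k42 : o.lt (m * g⁻¹) (Q * f⁻¹) ↔ o.lt (m * g⁻¹) (Q * f⁻¹) := o.cv hδ (1) e26 (by simp only [mul_assoc, mul_inv_rev, inv_inv, mul_inv_cancel_left, inv_mul_cancel_left, mul_inv_cancel, inv_mul_cancel, mul_one, one_mul, inv_one, C]) (by simp only [mul_assoc, mul_inv_rev, inv_inv, mul_inv_cancel_left, inv_mul_cancel_left, mul_inv_cancel, inv_mul_cancel, mul_one, one_mul, inv_one, C])
  have k43 : o.lt (m * P⁻¹) (P * f⁻¹) ↔ o.lt (m * f⁻¹) (f * P⁻¹) := o.cv hδ (P * f⁻¹) e17 (by simp only [mul_assoc, mul_inv_rev, inv_inv, mul_inv_cancel_left, inv_mul_cancel_left, mul_inv_cancel, inv_mul_cancel, mul_one, one_mul, inv_one, C]) (by simp only [mul_assoc, mul_inv_rev, inv_inv, mul_inv_cancel_left, inv_mul_cancel_left, mul_inv_cancel, inv_mul_cancel, mul_one, one_mul, inv_one, C])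
  have k44 : o.lt (m * f⁻¹) (m * g⁻¹) ↔ o.lt (m * f⁻¹) (m * g⁻¹) := o.cv hδ (1) e23 (by simp only [mul_assoc, mul_inv_rev, inv_inv, mul_inv_cancel_left, inv_mul_cancel_left, mul_inv_cancel, inv_mul_cancel, mul_one, one_mul, inv_one, C]) (by simp only [mul_assoc, mul_inv_rev, inv_inv, mul_inv_cancel_left, inv_mul_cancel_left, mul_inv_cancel, inv_mul_cancel, mul_one, one_mul, inv_one, C])
  have k45 : o.lt (m * g⁻¹) (f * P⁻¹) ↔ o.lt (m * g⁻¹) (f * P⁻¹) := o.cv hδ (1) e24 (by simp only [mul_assoc, mul_inv_rev, inv_inv, mul_inv_cancel_left, inv_mul_cancel_left, mul_inv_cancel, inv_mul_cancel, mul_one, one_mul, inv_one, C]) (by simp only [mul_assoc, mul_inv_rev, inv_inv, mul_inv_cancel_left, inv_mul_cancel_left, mul_inv_cancel, inv_mul_cancel, mul_one, one_mul, inv_one, C])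
  have k46 : o.lt (m * g⁻¹) (m * f⁻¹) ↔ o.lt (m * g⁻¹) (m * f⁻¹) := o.cv hδ (1) e25 (by simp only [mul_assoc, mul_inv_rev, inv_inv, mul_inv_cancel_left, inv_mul_cancel_left, mul_inv_cancel, inv_mul_cancel, mul_one, one_mul, inv_one, C]) (by simp only [mul_assoc, mul_inv_rev, inv_inv, mul_inv_cancel_left, inv_mul_cancel_left, mul_inv_cancel, inv_mul_cancel, mul_one, one_mul, inv_one, C])
  have k47 : o.lt (f * m⁻¹) (P * f⁻¹) ↔ o.lt (m * f⁻¹) (P * m⁻¹) := o.cv hδ (m * (f⁻¹ * (m * f⁻¹))) e7 (by simp only [mul_assoc, mul_inv_rev, inv_inv, mul_inv_cancel_left, inv_mul_cancel_left, mul_inv_cancel, inv_mul_cancel, mul_one, one_mul, inv_one, C]) (by simp only [mul_assoc, mul_inv_rev, inv_inv, mul_inv_cancel_left, inv_mul_cancel_left, mul_inv_cancel, inv_mul_cancel, mul_one, one_mul, inv_one, C])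
  have k48 : o.lt (g * m⁻¹) (P * g⁻¹) ↔ o.lt (m * g⁻¹) (P * m⁻¹) := o.cv hδ (m * (g⁻¹ * (m * g⁻¹))) e10 (by simp only [mul_assoc, mul_inv_rev, inv_inv, mul_inv_cancel_left, inv_mul_cancel_left, mul_inv_cancel, inv_mul_cancel, mul_one, one_mul, inv_one, C]) (by simp only [mul_assoc, mul_inv_rev, inv_inv, mul_inv_cancel_left, inv_mul_cancel_left, mul_inv_cancel, inv_mul_cancel, mul_one, one_mul, inv_one, C])
  have k49 : o.lt (m * g⁻¹) (Q * g⁻¹) ↔ o.lt (m * f⁻¹) (Q * f⁻¹) := o.cv hδ (g * f⁻¹) e19 (by simp only [mul_assoc, mul_inv_rev, inv_inv, mul_inv_cancel_left, inv_mul_cancel_left, mul_inv_cancel, inv_mul_cancel, mul_one, one_mul, inv_one, C]) (by simp only [mul_assoc, mul_inv_rev, inv_inv, mul_inv_cancel_left, inv_mul_cancel_left, mul_inv_cancel, inv_mul_cancel, mul_one, one_mul, inv_one, C])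
  have k50 : o.lt (g * Q⁻¹) (f * Q⁻¹) ↔ o.lt (g * Q⁻¹) (f * Q⁻¹) := o.cv hδ (1) e16 (by simp only [mul_assoc, mul_inv_rev, inv_inv, mul_inv_cancel_left, inv_mul_cancel_left, mul_inv_cancel, inv_mul_cancel, mul_one, one_mul, inv_one, C]) (by simp only [mul_assoc, mul_inv_rev, inv_inv, mul_inv_cancel_left, inv_mul_cancel_left, mul_inv_cancel, inv_mul_cancel, mul_one, one_mul, inv_one, C])
  have k51 : o.lt (P * g⁻¹) (Q * P⁻¹) ↔ o.lt ((P * g⁻¹)⁻¹) ((g * Q⁻¹)⁻¹) := o.cv hδ (g * (P⁻¹ * (g * P⁻¹))) e6 (by simp only [mul_assoc, mul_inv_rev, inv_inv, mul_inv_cancel_left, inv_mul_cancel_left, mul_inv_cancel, inv_mul_cancel, mul_one, one_mul, inv_one, C]) (by simp only [mul_assoc, mul_inv_rev, inv_inv, mul_inv_cancel_left, inv_mul_cancel_left, mul_inv_cancel, inv_mul_cancel, mul_one, one_mul, inv_one, C])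
  exact ser_AEA_1_prop
    (fun b0 b1 b2 => N0.r.r0 1 (fun h => b0 (k0.2 h)) (k1.1 b1) (fun h => b2 (k2.2 h)))
    (fun b0 b1 b2 => N0.rd.r0 1 (fun h => b0 (k3.2 h)) (k4.1 b1) (fun h => b2 (k5.2 h)))
    (fun b0 b1 b2 => N0.i.r0 1 (fun h => b0 (k6.2 h)) (k7.1 b1) (fun h => b2 (k8.2 h)))
    (fun b0 b1 b2 => N0.d.r0 1 (fun h => b0 (k9.2 h)) (k10.1 b1) (fun h => b2 (k11.2 h)))
    (fun b0 b1 b2 => N0.i.r1 1 (fun h => b0 (k12.2 h)) (fun h => b1 (k10.2 h)) (k8.1 b2))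
    (fun b0 b1 b2 => N1.rd.r0 1 (k13.1 b0) (fun h => b1 (k14.2 h)) (fun h => b2 (k15.2 h)))
    (fun b0 b1 b2 => N1.rd.r1 1 (fun h => b0 (k16.2 h)) (k0.1 b1) (fun h => b2 (k14.2 h)))
    (fun b0 b1 b2 => N1.r.r1 1 (fun h => b0 (k13.2 h)) (k3.1 b1) (fun h => b2 (k17.2 h)))
    (fun b0 b1 b2 => N1.i.r2 1 (fun h => b0 (k0.2 h)) (fun h => b1 (k18.2 h)) (k19.1 b2))
    (fun b0 b1 => b1 (k14.2 ((o.cv hδ (m * Q⁻¹) (by simp only [hδ, δinv hδ, δone hδ, D] <;> linear_combination (0) * h3) (by simp only [mul_assoc, mul_inv_rev, inv_inv, mul_inv_cancel_left, inv_mul_cancel_left, mul_inv_cancel, inv_mul_cancel, mul_one, one_mul, inv_one, C]) (by simp only [mul_assoc, mul_inv_rev, inv_inv, mul_inv_cancel_left, inv_mul_cancel_left, mul_inv_cancel, inv_mul_cancel, mul_one, one_mul, inv_one, C]) : o.lt (1 * (m * g⁻¹)⁻¹) (1 * (m * f⁻¹)⁻¹) ↔ o.lt (1 * (Q * g⁻¹)⁻¹) (1 * (Q * f⁻¹)⁻¹)).1 (k20.1 b0))))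
    (fun b0 b1 => b1 (k19.2 ((o.cv hδ (Q * m⁻¹) (by simp only [hδ, δinv hδ, δone hδ, D] <;> linear_combination (0) * h3) (by simp only [mul_assoc, mul_inv_rev, inv_inv, mul_inv_cancel_left, inv_mul_cancel_left, mul_inv_cancel, inv_mul_cancel, mul_one, one_mul, inv_one, C]) (by simp only [mul_assoc, mul_inv_rev, inv_inv, mul_inv_cancel_left, inv_mul_cancel_left, mul_inv_cancel, inv_mul_cancel, mul_one, one_mul, inv_one, C]) : o.lt (1 * (Q * f⁻¹)⁻¹) (1 * (Q * g⁻¹)⁻¹) ↔ o.lt (1 * (m * f⁻¹)⁻¹) (1 * (m * g⁻¹)⁻¹)).1 (k17.1 b0))))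
    (fun b0 b1 => o.asym (k21.1 b0) (k22.1 b1))
    (fun b0 b1 b2 => o.tri (k21.1 b0) (fun h => b1 (k23.2 h)) (fun h => b2 (k24.2 h)))
    (fun b0 b1 b2 => o.tri (k25.1 b0) (fun h => b1 (k26.2 h)) (fun h => b2 (k27.2 h)))
    (fun b0 b1 => o.asym (k26.1 b0) (k28.1 b1))
    (fun b0 b1 b2 => o.tri (k22.1 b0) (fun h => b1 (k29.2 h)) (fun h => b2 (k30.2 h)))
    (fun b0 b1 => o.asym (k31.1 b0) (k24.1 b1))
    (fun b0 b1 b2 => o.tri (k31.1 b0) (fun h => b1 (k29.2 h)) (fun h => b2 (k32.2 h)))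
    (fun b0 b1 b2 => o.tri (k33.1 b0) (fun h => b1 (k28.2 h)) (fun h => b2 (k21.2 h)))
    (fun b0 b1 b2 => o.tri (k34.1 b0) (fun h => b1 (k35.2 h)) (fun h => b2 (k36.2 h)))
    (fun b0 b1 b2 => o.tri (k36.1 b0) (fun h => b1 (k37.2 h)) (fun h => b2 (k26.2 h)))
    (fun b0 b1 b2 => o.tri (k38.1 b0) (fun h => b1 (k32.2 h)) (fun h => b2 (k24.2 h)))
    (fun b0 b1 => o.asym (k32.1 b0) (k39.1 b1))
    (fun b0 b1 b2 => o.tri (k40.1 b0) (fun h => b1 (k41.2 h)) (fun h => b2 (k42.2 h)))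
    (fun b0 b1 b2 => o.tri (k43.1 b0) (fun h => b1 (k44.2 h)) (fun h => b2 (k45.2 h)))
    (fun b0 b1 => o.asym (k44.1 b0) (k46.1 b1))
    (fun b0 b1 b2 => o.tri (k47.1 b0) (fun h => b1 (k44.2 h)) (fun h => b2 (k48.2 h)))
    (fun b0 b1 b2 => o.tri (k42.1 b0) (fun h => b1 (k46.2 h)) (fun h => b2 (k49.2 h)))
    (fun h => g0 (k50.1 h))
    (fun h => g1 (k37.1 h))
    (k51.2 g2)

theorem ser_BEB_0_prop {A1 A2 A3 A4 A5 A6 A7 A8 A9 A10 A11 A12 A13 A14 A15 A16 A17 A18 A19 A20 A21 A22 A23 A24 A25 : Prop}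
    (c0 : ¬ A2 → ¬ A6 → A8 → ¬ A4 → False)
    (c1 : A21 → ¬ A4 → ¬ A18 → False)
    (c2 : ¬ A22 → A25 → ¬ A4 → False)
    (c3 : ¬ A21 → A24 → ¬ A13 → False)
    (c4 : ¬ A23 → ¬ A20 → A13 → False)
    (c5 : ¬ A25 → ¬ A17 → A13 → False)
    (c6 : ¬ A10 → A12 → ¬ A1 → False)
    (c7 : ¬ A12 → ¬ A11 → A8 → False)
    (c8 : A8 → A1 → False)
    (c9 : A9 → A2 → False)
    (c10 : A2 → ¬ A14 → ¬ A3 → False)
    (c11 : A14 → A17 → False)
    (c12 : A15 → A19 → False)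
    (c13 : A6 → ¬ A16 → ¬ A7 → False)
    (c14 : A16 → A20 → False)
    (c15 : A16 → ¬ A4 → ¬ A15 → False)
    (c16 : A17 → ¬ A13 → ¬ A19 → False)
    (c17 : A18 → ¬ A17 → ¬ A13 → False)
    (c18 : A21 → A22 → False)
    (c19 : A23 → A24 → False)
    (c20 : A5 → ¬ A21 → ¬ A3 → False)
    (c21 : A6 → ¬ A24 → ¬ A2 → False)
    (c22 : A11 → ¬ A9 → ¬ A5 → False)
    (c23 : A10 → ¬ A9 → ¬ A3 → False)
    (u0 : ¬ A3)
    (u1 : ¬ A7)
    (u2 : A8)
    (u3 : ¬ A4)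
    : False := by
  have q1 : ¬ A1 := fun h => c8 u2 h
  rcases Classical.em A2 with q2 | q2
  · have q3 : ¬ A9 := fun h => c9 h q2
    have q4 : A14 := Classical.byContradiction fun h => c10 q2 h u0
    have q5 : ¬ A17 := fun h => c11 q4 h
    have q6 : ¬ A10 := fun h => c23 h q3 u0
    have q7 : ¬ A12 := fun h => c6 q6 h q1
    have q8 : A11 := Classical.byContradiction fun h => c7 q7 h u2
    have q9 : A5 := Classical.byContradiction fun h => c22 q8 q3 h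
    have q10 : A21 := Classical.byContradiction fun h => c20 q9 h u0
    have q11 : A18 := Classical.byContradiction fun h => c1 q10 u3 h
    have q12 : A13 := Classical.byContradiction fun h => c17 q11 q5 h
    have q13 : A25 := Classical.byContradiction fun h => c5 h q5 q12
    have q14 : A22 := Classical.byContradiction fun h => c2 h q13 u3
    exact c18 q10 q14
  · have q15 : A6 := Classical.byContradiction fun h => c0 q2 h u2 u3
    have q16 : A16 := Classical.byContradiction fun h => c13 q15 h u1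
    have q17 : ¬ A20 := fun h => c14 q16 h
    have q18 : A15 := Classical.byContradiction fun h => c15 q16 u3 h
    have q19 : ¬ A19 := fun h => c12 q18 h
    have q20 : A24 := Classical.byContradiction fun h => c21 q15 h q2
    have q21 : ¬ A23 := fun h => c19 h q20
    have q22 : ¬ A13 := fun h => c4 q21 q17 h
    have q23 : A21 := Classical.byContradiction fun h => c3 h q20 q22
    have q24 : A18 := Classical.byContradiction fun h => c1 q23 u3 h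
    have q25 : ¬ A17 := fun h => c16 h q22 q19
    exact c17 q24 q25 q22

theorem ser_BEB_0 {G : Type*} [Group G] {δ : G → ZMod 3} (hδ : ∀ u v, δ (u * v) = δ u + δ v) (o : Pre δ)
    {P m Q f g : G} {e : ZMod 3} (h3 : 3 * e = 0)
    (D : δ P = e ∧ δ m = -e ∧ δ Q = -e ∧ δ f = 0 ∧ δ g = 0)
    (C : Cube P f ∧ Cube P g ∧ Cube m f ∧ Cube m g ∧ Cube Q f ∧ Cube Q g)
    (N0 : RB o P m f g)
    (N1 : RE o m Q f g)
    (g0 : ¬ o.lt (f * Q⁻¹) (P * f⁻¹)) (g1 : ¬ o.lt (g * Q⁻¹) (P * g⁻¹)) (g2 : o.lt (P * f⁻¹) (P * g⁻¹)) (g3 : ¬ o.lt (g) (f)) : False := by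
  simp only [Cube] at C
  have e0 : δ (P * m⁻¹) = δ (P * (f⁻¹ * (g * m⁻¹))) := by simp only [hδ, δinv hδ, δone hδ, D] <;> linear_combination (0) * h3
  have e1 : δ (f * m⁻¹) = δ (P * f⁻¹) := by simp only [hδ, δinv hδ, δone hδ, D] <;> linear_combination (0) * h3
  have e2 : δ (f * Q⁻¹) = δ (P * f⁻¹) := by simp only [hδ, δinv hδ, δone hδ, D] <;> linear_combination (0) * h3
  have e3 : δ (g) = δ (f) := by simp only [hδ, δinv hδ, δone hδ, D] <;> linear_combination (0) * h3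
  have e4 : δ (m * f⁻¹) = δ (P * Q⁻¹) := by simp only [hδ, δinv hδ, δone hδ, D] <;> linear_combination (-1) * h3
  have e5 : δ (g * m⁻¹) = δ (P * g⁻¹) := by simp only [hδ, δinv hδ, δone hδ, D] <;> linear_combination (0) * h3
  have e6 : δ (g * Q⁻¹) = δ (P * g⁻¹) := by simp only [hδ, δinv hδ, δone hδ, D] <;> linear_combination (0) * h3
  have e7 : δ (P * f⁻¹) = δ (P * g⁻¹) := by simp only [hδ, δinv hδ, δone hδ, D] <;> linear_combination (0) * h3
  have e8 : δ (P * f⁻¹) = δ (f * m⁻¹) := by simp only [hδ, δinv hδ, δone hδ, D] <;> linear_combination (0) * h3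
  have e9 : δ (P * (m⁻¹ * (f * m⁻¹))) = δ (P * (Q⁻¹ * (f * Q⁻¹))) := by simp only [hδ, δinv hδ, δone hδ, D] <;> linear_combination (0) * h3
  have e10 : δ (P * m⁻¹) = δ (P * Q⁻¹) := by simp only [hδ, δinv hδ, δone hδ, D] <;> linear_combination (0) * h3
  have e11 : δ (P * (f⁻¹ * (Q * g⁻¹))) = δ (P * (Q⁻¹ * (f * Q⁻¹))) := by simp only [hδ, δinv hδ, δone hδ, D] <;> linear_combination (-1) * h3
  have e12 : δ (f * Q⁻¹) = δ (g * Q⁻¹) := by simp only [hδ, δinv hδ, δone hδ, D] <;> linear_combination (0) * h3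
  have e13 : δ (f * m⁻¹) = δ (f * Q⁻¹) := by simp only [hδ, δinv hδ, δone hδ, D] <;> linear_combination (0) * h3
  have e14 : δ (f * m⁻¹) = δ (g * Q⁻¹) := by simp only [hδ, δinv hδ, δone hδ, D] <;> linear_combination (0) * h3
  have e15 : δ (g * m⁻¹) = δ (g * Q⁻¹) := by simp only [hδ, δinv hδ, δone hδ, D] <;> linear_combination (0) * h3
  have e16 : δ (f * Q⁻¹) = δ (f * m⁻¹) := by simp only [hδ, δinv hδ, δone hδ, D] <;> linear_combination (0) * h3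
  have e17 : δ (f * Q⁻¹) = δ (g * m⁻¹) := by simp only [hδ, δinv hδ, δone hδ, D] <;> linear_combination (0) * h3
  have e18 : δ (g * Q⁻¹) = δ (f * m⁻¹) := by simp only [hδ, δinv hδ, δone hδ, D] <;> linear_combination (0) * h3
  have e19 : δ (g * Q⁻¹) = δ (g * m⁻¹) := by simp only [hδ, δinv hδ, δone hδ, D] <;> linear_combination (0) * h3
  have e20 : δ (m * f⁻¹) = δ (Q * f⁻¹) := by simp only [hδ, δinv hδ, δone hδ, D] <;> linear_combination (0) * h3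
  have e21 : δ (Q * f⁻¹) = δ (m * f⁻¹) := by simp only [hδ, δinv hδ, δone hδ, D] <;> linear_combination (0) * h3
  have e22 : δ (m * f⁻¹) = δ (m * g⁻¹) := by simp only [hδ, δinv hδ, δone hδ, D] <;> linear_combination (0) * h3
  have e23 : δ (m * g⁻¹) = δ (m * f⁻¹) := by simp only [hδ, δinv hδ, δone hδ, D] <;> linear_combination (0) * h3
  have e24 : δ (Q * f⁻¹) = δ (Q * g⁻¹) := by simp only [hδ, δinv hδ, δone hδ, D] <;> linear_combination (0) * h3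
  have k0 : o.lt (f * m⁻¹) (P * f⁻¹) ↔ o.lt (1 * (f * m⁻¹)) (1 * (P * f⁻¹)) := o.cv hδ (1) e1 (by simp only [mul_assoc, mul_inv_rev, inv_inv, mul_inv_cancel_left, inv_mul_cancel_left, mul_inv_cancel, inv_mul_cancel, mul_one, one_mul, inv_one, C]) (by simp only [mul_assoc, mul_inv_rev, inv_inv, mul_inv_cancel_left, inv_mul_cancel_left, mul_inv_cancel, inv_mul_cancel, mul_one, one_mul, inv_one, C])
  have k1 : o.lt (g * m⁻¹) (P * g⁻¹) ↔ o.lt (1 * (g * m⁻¹)) (1 * (P * g⁻¹)) := o.cv hδ (1) e5 (by simp only [mul_assoc, mul_inv_rev, inv_inv, mul_inv_cancel_left, inv_mul_cancel_left, mul_inv_cancel, inv_mul_cancel, mul_one, one_mul, inv_one, C]) (by simp only [mul_assoc, mul_inv_rev, inv_inv, mul_inv_cancel_left, inv_mul_cancel_left, mul_inv_cancel, inv_mul_cancel, mul_one, one_mul, inv_one, C])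
  have k2 : o.lt (P * f⁻¹) (P * g⁻¹) ↔ o.lt (1 * (P * f⁻¹)) (1 * (P * g⁻¹)) := o.cv hδ (1) e7 (by simp only [mul_assoc, mul_inv_rev, inv_inv, mul_inv_cancel_left, inv_mul_cancel_left, mul_inv_cancel, inv_mul_cancel, mul_one, one_mul, inv_one, C]) (by simp only [mul_assoc, mul_inv_rev, inv_inv, mul_inv_cancel_left, inv_mul_cancel_left, mul_inv_cancel, inv_mul_cancel, mul_one, one_mul, inv_one, C])
  have k3 : o.lt (g) (f) ↔ o.lt (1 * g) (1 * f) := o.cv hδ (1) e3 (by simp only [mul_assoc, mul_inv_rev, inv_inv, mul_inv_cancel_left, inv_mul_cancel_left, mul_inv_cancel, inv_mul_cancel, mul_one, one_mul, inv_one, C]) (by simp only [mul_assoc, mul_inv_rev, inv_inv, mul_inv_cancel_left, inv_mul_cancel_left, mul_inv_cancel, inv_mul_cancel, mul_one, one_mul, inv_one, C])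
  have k4 : o.lt (m * f⁻¹) (Q * f⁻¹) ↔ o.lt (1 * (m * f⁻¹)) (1 * (Q * f⁻¹)) := o.cv hδ (1) e20 (by simp only [mul_assoc, mul_inv_rev, inv_inv, mul_inv_cancel_left, inv_mul_cancel_left, mul_inv_cancel, inv_mul_cancel, mul_one, one_mul, inv_one, C]) (by simp only [mul_assoc, mul_inv_rev, inv_inv, mul_inv_cancel_left, inv_mul_cancel_left, mul_inv_cancel, inv_mul_cancel, mul_one, one_mul, inv_one, C])
  have k5 : o.lt (g) (f) ↔ o.lt (1 * (m * g⁻¹)⁻¹) (1 * (m * f⁻¹)⁻¹) := o.cv hδ (m⁻¹) e3 (by simp only [mul_assoc, mul_inv_rev, inv_inv, mul_inv_cancel_left, inv_mul_cancel_left, mul_inv_cancel, inv_mul_cancel, mul_one, one_mul, inv_one, C]) (by simp only [mul_assoc, mul_inv_rev, inv_inv, mul_inv_cancel_left, inv_mul_cancel_left, mul_inv_cancel, inv_mul_cancel, mul_one, one_mul, inv_one, C])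
  have k6 : o.lt (f * Q⁻¹) (g * m⁻¹) ↔ o.lt (1 * (Q * f⁻¹)⁻¹) (1 * (m * g⁻¹)⁻¹) := o.cv hδ (1) e17 (by simp only [mul_assoc, mul_inv_rev, inv_inv, mul_inv_cancel_left, inv_mul_cancel_left, mul_inv_cancel, inv_mul_cancel, mul_one, one_mul, inv_one, C]) (by simp only [mul_assoc, mul_inv_rev, inv_inv, mul_inv_cancel_left, inv_mul_cancel_left, mul_inv_cancel, inv_mul_cancel, mul_one, one_mul, inv_one, C])
  have k7 : o.lt (Q * f⁻¹) (m * f⁻¹) ↔ o.lt (1 * (Q * f⁻¹)) (1 * (m * f⁻¹)) := o.cv hδ (1) e21 (by simp only [mul_assoc, mul_inv_rev, inv_inv, mul_inv_cancel_left, inv_mul_cancel_left, mul_inv_cancel, inv_mul_cancel, mul_one, one_mul, inv_one, C]) (by simp only [mul_assoc, mul_inv_rev, inv_inv, mul_inv_cancel_left, inv_mul_cancel_left, mul_inv_cancel, inv_mul_cancel, mul_one, one_mul, inv_one, C])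
  have k8 : o.lt (Q * f⁻¹) (Q * g⁻¹) ↔ o.lt (1 * (Q * f⁻¹)) (1 * (Q * g⁻¹)) := o.cv hδ (1) e24 (by simp only [mul_assoc, mul_inv_rev, inv_inv, mul_inv_cancel_left, inv_mul_cancel_left, mul_inv_cancel, inv_mul_cancel, mul_one, one_mul, inv_one, C]) (by simp only [mul_assoc, mul_inv_rev, inv_inv, mul_inv_cancel_left, inv_mul_cancel_left, mul_inv_cancel, inv_mul_cancel, mul_one, one_mul, inv_one, C])
  have k9 : o.lt (m * f⁻¹) (Q * f⁻¹) ↔ o.lt (1 * (m * g⁻¹)) (1 * (Q * g⁻¹)) := o.cv hδ (f * g⁻¹) e20 (by simp only [mul_assoc, mul_inv_rev, inv_inv, mul_inv_cancel_left, inv_mul_cancel_left, mul_inv_cancel, inv_mul_cancel, mul_one, one_mul, inv_one, C]) (by simp only [mul_assoc, mul_inv_rev, inv_inv, mul_inv_cancel_left, inv_mul_cancel_left, mul_inv_cancel, inv_mul_cancel, mul_one, one_mul, inv_one, C])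
  have k10 : o.lt (m * g⁻¹) (m * f⁻¹) ↔ o.lt (1 * (m * g⁻¹)) (1 * (m * f⁻¹)) := o.cv hδ (1) e23 (by simp only [mul_assoc, mul_inv_rev, inv_inv, mul_inv_cancel_left, inv_mul_cancel_left, mul_inv_cancel, inv_mul_cancel, mul_one, one_mul, inv_one, C]) (by simp only [mul_assoc, mul_inv_rev, inv_inv, mul_inv_cancel_left, inv_mul_cancel_left, mul_inv_cancel, inv_mul_cancel, mul_one, one_mul, inv_one, C])
  have k11 : o.lt (f * Q⁻¹) (g * Q⁻¹) ↔ o.lt (1 * (Q * f⁻¹)⁻¹) (1 * (Q * g⁻¹)⁻¹) := o.cv hδ (1) e12 (by simp only [mul_assoc, mul_inv_rev, inv_inv, mul_inv_cancel_left, inv_mul_cancel_left, mul_inv_cancel, inv_mul_cancel, mul_one, one_mul, inv_one, C]) (by simp only [mul_assoc, mul_inv_rev, inv_inv, mul_inv_cancel_left, inv_mul_cancel_left, mul_inv_cancel, inv_mul_cancel, mul_one, one_mul, inv_one, C])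
  have k12 : o.lt (m * f⁻¹) (m * g⁻¹) ↔ o.lt (1 * (m * f⁻¹)) (1 * (m * g⁻¹)) := o.cv hδ (1) e22 (by simp only [mul_assoc, mul_inv_rev, inv_inv, mul_inv_cancel_left, inv_mul_cancel_left, mul_inv_cancel, inv_mul_cancel, mul_one, one_mul, inv_one, C]) (by simp only [mul_assoc, mul_inv_rev, inv_inv, mul_inv_cancel_left, inv_mul_cancel_left, mul_inv_cancel, inv_mul_cancel, mul_one, one_mul, inv_one, C])
  have k13 : o.lt (g * Q⁻¹) (g * m⁻¹) ↔ o.lt (1 * (Q * g⁻¹)⁻¹) (1 * (m * g⁻¹)⁻¹) := o.cv hδ (1) e19 (by simp only [mul_assoc, mul_inv_rev, inv_inv, mul_inv_cancel_left, inv_mul_cancel_left, mul_inv_cancel, inv_mul_cancel, mul_one, one_mul, inv_one, C]) (by simp only [mul_assoc, mul_inv_rev, inv_inv, mul_inv_cancel_left, inv_mul_cancel_left, mul_inv_cancel, inv_mul_cancel, mul_one, one_mul, inv_one, C])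
  have k14 : o.lt (f * Q⁻¹) (g * Q⁻¹) ↔ o.lt (1 * (m * f⁻¹)⁻¹) (1 * (m * g⁻¹)⁻¹) := o.cv hδ (Q * m⁻¹) e12 (by simp only [mul_assoc, mul_inv_rev, inv_inv, mul_inv_cancel_left, inv_mul_cancel_left, mul_inv_cancel, inv_mul_cancel, mul_one, one_mul, inv_one, C]) (by simp only [mul_assoc, mul_inv_rev, inv_inv, mul_inv_cancel_left, inv_mul_cancel_left, mul_inv_cancel, inv_mul_cancel, mul_one, one_mul, inv_one, C])
  have k15 : o.lt (f * Q⁻¹) (f * m⁻¹) ↔ o.lt (1 * (Q * f⁻¹)⁻¹) (1 * (m * f⁻¹)⁻¹) := o.cv hδ (1) e16 (by simp only [mul_assoc, mul_inv_rev, inv_inv, mul_inv_cancel_left, inv_mul_cancel_left, mul_inv_cancel, inv_mul_cancel, mul_one, one_mul, inv_one, C]) (by simp only [mul_assoc, mul_inv_rev, inv_inv, mul_inv_cancel_left, inv_mul_cancel_left, mul_inv_cancel, inv_mul_cancel, mul_one, one_mul, inv_one, C])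
  have k16 : o.lt (P * (m⁻¹ * (f * m⁻¹))) (P * (Q⁻¹ * (f * Q⁻¹))) ↔ o.lt ((P * f⁻¹) * (m * f⁻¹)) ((P * f⁻¹) * (Q * f⁻¹)) := o.cv hδ (m * (f⁻¹ * (m * (f⁻¹ * (m * f⁻¹))))) e9 (by simp only [mul_assoc, mul_inv_rev, inv_inv, mul_inv_cancel_left, inv_mul_cancel_left, mul_inv_cancel, inv_mul_cancel, mul_one, one_mul, inv_one, C]) (by simp only [mul_assoc, mul_inv_rev, inv_inv, mul_inv_cancel_left, inv_mul_cancel_left, mul_inv_cancel, inv_mul_cancel, mul_one, one_mul, inv_one, C])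
  have k17 : o.lt (P * (f⁻¹ * (Q * g⁻¹))) (P * (Q⁻¹ * (f * Q⁻¹))) ↔ o.lt ((P * f⁻¹) * (Q * g⁻¹)) ((P * f⁻¹) * (Q * f⁻¹)) := o.cv hδ (1) e11 (by simp only [mul_assoc, mul_inv_rev, inv_inv, mul_inv_cancel_left, inv_mul_cancel_left, mul_inv_cancel, inv_mul_cancel, mul_one, one_mul, inv_one, C]) (by simp only [mul_assoc, mul_inv_rev, inv_inv, mul_inv_cancel_left, inv_mul_cancel_left, mul_inv_cancel, inv_mul_cancel, mul_one, one_mul, inv_one, C])
  have k18 : o.lt (P * m⁻¹) (P * (f⁻¹ * (g * m⁻¹))) ↔ o.lt ((P * f⁻¹) * (m * f⁻¹)⁻¹) ((P * f⁻¹) * (m * g⁻¹)⁻¹) := o.cv hδ (1) e0 (by simp only [mul_assoc, mul_inv_rev, inv_inv, mul_inv_cancel_left, inv_mul_cancel_left, mul_inv_cancel, inv_mul_cancel, mul_one, one_mul, inv_one, C]) (by simp only [mul_assoc, mul_inv_rev, inv_inv, mul_inv_cancel_left, inv_mul_cancel_left, mul_inv_cancel, inv_mul_cancel, mul_one, one_mul, inv_one, C])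
  have k19 : o.lt (P * m⁻¹) (P * Q⁻¹) ↔ o.lt ((P * f⁻¹) * (m * f⁻¹)⁻¹) ((P * f⁻¹) * (Q * f⁻¹)⁻¹) := o.cv hδ (1) e10 (by simp only [mul_assoc, mul_inv_rev, inv_inv, mul_inv_cancel_left, inv_mul_cancel_left, mul_inv_cancel, inv_mul_cancel, mul_one, one_mul, inv_one, C]) (by simp only [mul_assoc, mul_inv_rev, inv_inv, mul_inv_cancel_left, inv_mul_cancel_left, mul_inv_cancel, inv_mul_cancel, mul_one, one_mul, inv_one, C])
  have k20 : o.lt (P * f⁻¹) (P * g⁻¹) ↔ o.lt ((P * f⁻¹) * (Q * g⁻¹)⁻¹) ((P * f⁻¹) * (Q * f⁻¹)⁻¹) := o.cv hδ (g * Q⁻¹) e7 (by simp only [mul_assoc, mul_inv_rev, inv_inv, mul_inv_cancel_left, inv_mul_cancel_left, mul_inv_cancel, inv_mul_cancel, mul_one, one_mul, inv_one, C]) (by simp only [mul_assoc, mul_inv_rev, inv_inv, mul_inv_cancel_left, inv_mul_cancel_left, mul_inv_cancel, inv_mul_cancel, mul_one, one_mul, inv_one, C])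
  have k21 : o.lt (P * f⁻¹) (P * g⁻¹) ↔ o.lt (P * f⁻¹) (P * g⁻¹) := o.cv hδ (1) e7 (by simp only [mul_assoc, mul_inv_rev, inv_inv, mul_inv_cancel_left, inv_mul_cancel_left, mul_inv_cancel, inv_mul_cancel, mul_one, one_mul, inv_one, C]) (by simp only [mul_assoc, mul_inv_rev, inv_inv, mul_inv_cancel_left, inv_mul_cancel_left, mul_inv_cancel, inv_mul_cancel, mul_one, one_mul, inv_one, C])
  have k22 : o.lt (P * m⁻¹) (P * (f⁻¹ * (g * m⁻¹))) ↔ o.lt (P * g⁻¹) (P * f⁻¹) := o.cv hδ (m * g⁻¹) e0 (by simp only [mul_assoc, mul_inv_rev, inv_inv, mul_inv_cancel_left, inv_mul_cancel_left, mul_inv_cancel, inv_mul_cancel, mul_one, one_mul, inv_one, C]) (by simp only [mul_assoc, mul_inv_rev, inv_inv, mul_inv_cancel_left, inv_mul_cancel_left, mul_inv_cancel, inv_mul_cancel, mul_one, one_mul, inv_one, C])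
  have k23 : o.lt (P * f⁻¹) (f * m⁻¹) ↔ o.lt (P * f⁻¹) (f * m⁻¹) := o.cv hδ (1) e8 (by simp only [mul_assoc, mul_inv_rev, inv_inv, mul_inv_cancel_left, inv_mul_cancel_left, mul_inv_cancel, inv_mul_cancel, mul_one, one_mul, inv_one, C]) (by simp only [mul_assoc, mul_inv_rev, inv_inv, mul_inv_cancel_left, inv_mul_cancel_left, mul_inv_cancel, inv_mul_cancel, mul_one, one_mul, inv_one, C])
  have k24 : o.lt (f * m⁻¹) (P * f⁻¹) ↔ o.lt (f * m⁻¹) (P * f⁻¹) := o.cv hδ (1) e1 (by simp only [mul_assoc, mul_inv_rev, inv_inv, mul_inv_cancel_left, inv_mul_cancel_left, mul_inv_cancel, inv_mul_cancel, mul_one, one_mul, inv_one, C]) (by simp only [mul_assoc, mul_inv_rev, inv_inv, mul_inv_cancel_left, inv_mul_cancel_left, mul_inv_cancel, inv_mul_cancel, mul_one, one_mul, inv_one, C])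
  have k25 : o.lt (f * m⁻¹) (f * Q⁻¹) ↔ o.lt (f * m⁻¹) (f * Q⁻¹) := o.cv hδ (1) e13 (by simp only [mul_assoc, mul_inv_rev, inv_inv, mul_inv_cancel_left, inv_mul_cancel_left, mul_inv_cancel, inv_mul_cancel, mul_one, one_mul, inv_one, C]) (by simp only [mul_assoc, mul_inv_rev, inv_inv, mul_inv_cancel_left, inv_mul_cancel_left, mul_inv_cancel, inv_mul_cancel, mul_one, one_mul, inv_one, C])
  have k26 : o.lt (f * Q⁻¹) (P * f⁻¹) ↔ o.lt (f * Q⁻¹) (P * f⁻¹) := o.cv hδ (1) e2 (by simp only [mul_assoc, mul_inv_rev, inv_inv, mul_inv_cancel_left, inv_mul_cancel_left, mul_inv_cancel, inv_mul_cancel, mul_one, one_mul, inv_one, C]) (by simp only [mul_assoc, mul_inv_rev, inv_inv, mul_inv_cancel_left, inv_mul_cancel_left, mul_inv_cancel, inv_mul_cancel, mul_one, one_mul, inv_one, C])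
  have k27 : o.lt (f * Q⁻¹) (f * m⁻¹) ↔ o.lt (f * Q⁻¹) (f * m⁻¹) := o.cv hδ (1) e16 (by simp only [mul_assoc, mul_inv_rev, inv_inv, mul_inv_cancel_left, inv_mul_cancel_left, mul_inv_cancel, inv_mul_cancel, mul_one, one_mul, inv_one, C]) (by simp only [mul_assoc, mul_inv_rev, inv_inv, mul_inv_cancel_left, inv_mul_cancel_left, mul_inv_cancel, inv_mul_cancel, mul_one, one_mul, inv_one, C])
  have k28 : o.lt (f * m⁻¹) (g * Q⁻¹) ↔ o.lt (f * m⁻¹) (g * Q⁻¹) := o.cv hδ (1) e14 (by simp only [mul_assoc, mul_inv_rev, inv_inv, mul_inv_cancel_left, inv_mul_cancel_left, mul_inv_cancel, inv_mul_cancel, mul_one, one_mul, inv_one, C]) (by simp only [mul_assoc, mul_inv_rev, inv_inv, mul_inv_cancel_left, inv_mul_cancel_left, mul_inv_cancel, inv_mul_cancel, mul_one, one_mul, inv_one, C])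
  have k29 : o.lt (g * Q⁻¹) (f * m⁻¹) ↔ o.lt (g * Q⁻¹) (f * m⁻¹) := o.cv hδ (1) e18 (by simp only [mul_assoc, mul_inv_rev, inv_inv, mul_inv_cancel_left, inv_mul_cancel_left, mul_inv_cancel, inv_mul_cancel, mul_one, one_mul, inv_one, C]) (by simp only [mul_assoc, mul_inv_rev, inv_inv, mul_inv_cancel_left, inv_mul_cancel_left, mul_inv_cancel, inv_mul_cancel, mul_one, one_mul, inv_one, C])
  have k30 : o.lt (g * m⁻¹) (P * g⁻¹) ↔ o.lt (g * m⁻¹) (P * g⁻¹) := o.cv hδ (1) e5 (by simp only [mul_assoc, mul_inv_rev, inv_inv, mul_inv_cancel_left, inv_mul_cancel_left, mul_inv_cancel, inv_mul_cancel, mul_one, one_mul, inv_one, C]) (by simp only [mul_assoc, mul_inv_rev, inv_inv, mul_inv_cancel_left, inv_mul_cancel_left, mul_inv_cancel, inv_mul_cancel, mul_one, one_mul, inv_one, C])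
  have k31 : o.lt (g * m⁻¹) (g * Q⁻¹) ↔ o.lt (g * m⁻¹) (g * Q⁻¹) := o.cv hδ (1) e15 (by simp only [mul_assoc, mul_inv_rev, inv_inv, mul_inv_cancel_left, inv_mul_cancel_left, mul_inv_cancel, inv_mul_cancel, mul_one, one_mul, inv_one, C]) (by simp only [mul_assoc, mul_inv_rev, inv_inv, mul_inv_cancel_left, inv_mul_cancel_left, mul_inv_cancel, inv_mul_cancel, mul_one, one_mul, inv_one, C])
  have k32 : o.lt (g * Q⁻¹) (P * g⁻¹) ↔ o.lt (g * Q⁻¹) (P * g⁻¹) := o.cv hδ (1) e6 (by simp only [mul_assoc, mul_inv_rev, inv_inv, mul_inv_cancel_left, inv_mul_cancel_left, mul_inv_cancel, inv_mul_cancel, mul_one, one_mul, inv_one, C]) (by simp only [mul_assoc, mul_inv_rev, inv_inv, mul_inv_cancel_left, inv_mul_cancel_left, mul_inv_cancel, inv_mul_cancel, mul_one, one_mul, inv_one, C])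
  have k33 : o.lt (g * Q⁻¹) (g * m⁻¹) ↔ o.lt (g * Q⁻¹) (g * m⁻¹) := o.cv hδ (1) e19 (by simp only [mul_assoc, mul_inv_rev, inv_inv, mul_inv_cancel_left, inv_mul_cancel_left, mul_inv_cancel, inv_mul_cancel, mul_one, one_mul, inv_one, C]) (by simp only [mul_assoc, mul_inv_rev, inv_inv, mul_inv_cancel_left, inv_mul_cancel_left, mul_inv_cancel, inv_mul_cancel, mul_one, one_mul, inv_one, C])
  have k34 : o.lt (g) (f) ↔ o.lt (g * m⁻¹) (f * m⁻¹) := o.cv hδ (m⁻¹) e3 (by simp only [mul_assoc, mul_inv_rev, inv_inv, mul_inv_cancel_left, inv_mul_cancel_left, mul_inv_cancel, inv_mul_cancel, mul_one, one_mul, inv_one, C]) (by simp only [mul_assoc, mul_inv_rev, inv_inv, mul_inv_cancel_left, inv_mul_cancel_left, mul_inv_cancel, inv_mul_cancel, mul_one, one_mul, inv_one, C])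
  have k35 : o.lt (f * Q⁻¹) (g * Q⁻¹) ↔ o.lt (f * Q⁻¹) (g * Q⁻¹) := o.cv hδ (1) e12 (by simp only [mul_assoc, mul_inv_rev, inv_inv, mul_inv_cancel_left, inv_mul_cancel_left, mul_inv_cancel, inv_mul_cancel, mul_one, one_mul, inv_one, C]) (by simp only [mul_assoc, mul_inv_rev, inv_inv, mul_inv_cancel_left, inv_mul_cancel_left, mul_inv_cancel, inv_mul_cancel, mul_one, one_mul, inv_one, C])
  have k36 : o.lt (f * Q⁻¹) (g * m⁻¹) ↔ o.lt (f * Q⁻¹) (g * m⁻¹) := o.cv hδ (1) e17 (by simp only [mul_assoc, mul_inv_rev, inv_inv, mul_inv_cancel_left, inv_mul_cancel_left, mul_inv_cancel, inv_mul_cancel, mul_one, one_mul, inv_one, C]) (by simp only [mul_assoc, mul_inv_rev, inv_inv, mul_inv_cancel_left, inv_mul_cancel_left, mul_inv_cancel, inv_mul_cancel, mul_one, one_mul, inv_one, C])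
  have k37 : o.lt (f * Q⁻¹) (g * Q⁻¹) ↔ o.lt (f * m⁻¹) (g * m⁻¹) := o.cv hδ (Q * m⁻¹) e12 (by simp only [mul_assoc, mul_inv_rev, inv_inv, mul_inv_cancel_left, inv_mul_cancel_left, mul_inv_cancel, inv_mul_cancel, mul_one, one_mul, inv_one, C]) (by simp only [mul_assoc, mul_inv_rev, inv_inv, mul_inv_cancel_left, inv_mul_cancel_left, mul_inv_cancel, inv_mul_cancel, mul_one, one_mul, inv_one, C])
  have k38 : o.lt (m * f⁻¹) (Q * f⁻¹) ↔ o.lt (m * P⁻¹) (Q * P⁻¹) := o.cv hδ (f * P⁻¹) e20 (by simp only [mul_assoc, mul_inv_rev, inv_inv, mul_inv_cancel_left, inv_mul_cancel_left, mul_inv_cancel, inv_mul_cancel, mul_one, one_mul, inv_one, C]) (by simp only [mul_assoc, mul_inv_rev, inv_inv, mul_inv_cancel_left, inv_mul_cancel_left, mul_inv_cancel, inv_mul_cancel, mul_one, one_mul, inv_one, C])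
  have k39 : o.lt (Q * f⁻¹) (m * f⁻¹) ↔ o.lt (Q * P⁻¹) (m * P⁻¹) := o.cv hδ (f * P⁻¹) e21 (by simp only [mul_assoc, mul_inv_rev, inv_inv, mul_inv_cancel_left, inv_mul_cancel_left, mul_inv_cancel, inv_mul_cancel, mul_one, one_mul, inv_one, C]) (by simp only [mul_assoc, mul_inv_rev, inv_inv, mul_inv_cancel_left, inv_mul_cancel_left, mul_inv_cancel, inv_mul_cancel, mul_one, one_mul, inv_one, C])
  have k40 : o.lt (m * f⁻¹) (m * g⁻¹) ↔ o.lt (m * f⁻¹) (m * g⁻¹) := o.cv hδ (1) e22 (by simp only [mul_assoc, mul_inv_rev, inv_inv, mul_inv_cancel_left, inv_mul_cancel_left, mul_inv_cancel, inv_mul_cancel, mul_one, one_mul, inv_one, C]) (by simp only [mul_assoc, mul_inv_rev, inv_inv, mul_inv_cancel_left, inv_mul_cancel_left, mul_inv_cancel, inv_mul_cancel, mul_one, one_mul, inv_one, C])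
  have k41 : o.lt (m * g⁻¹) (m * f⁻¹) ↔ o.lt (m * g⁻¹) (m * f⁻¹) := o.cv hδ (1) e23 (by simp only [mul_assoc, mul_inv_rev, inv_inv, mul_inv_cancel_left, inv_mul_cancel_left, mul_inv_cancel, inv_mul_cancel, mul_one, one_mul, inv_one, C]) (by simp only [mul_assoc, mul_inv_rev, inv_inv, mul_inv_cancel_left, inv_mul_cancel_left, mul_inv_cancel, inv_mul_cancel, mul_one, one_mul, inv_one, C])
  have k42 : o.lt (m * f⁻¹) (P * Q⁻¹) ↔ o.lt (m * f⁻¹) (P * Q⁻¹) := o.cv hδ (1) e4 (by simp only [mul_assoc, mul_inv_rev, inv_inv, mul_inv_cancel_left, inv_mul_cancel_left, mul_inv_cancel, inv_mul_cancel, mul_one, one_mul, inv_one, C]) (by simp only [mul_assoc, mul_inv_rev, inv_inv, mul_inv_cancel_left, inv_mul_cancel_left, mul_inv_cancel, inv_mul_cancel, mul_one, one_mul, inv_one, C])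
  have k43 : o.lt (m * f⁻¹) (Q * f⁻¹) ↔ o.lt (m * f⁻¹) (Q * f⁻¹) := o.cv hδ (1) e20 (by simp only [mul_assoc, mul_inv_rev, inv_inv, mul_inv_cancel_left, inv_mul_cancel_left, mul_inv_cancel, inv_mul_cancel, mul_one, one_mul, inv_one, C]) (by simp only [mul_assoc, mul_inv_rev, inv_inv, mul_inv_cancel_left, inv_mul_cancel_left, mul_inv_cancel, inv_mul_cancel, mul_one, one_mul, inv_one, C])
  have k44 : o.lt (f * Q⁻¹) (P * f⁻¹) ↔ o.lt (Q * f⁻¹) (P * Q⁻¹) := o.cv hδ (Q * (f⁻¹ * (Q * f⁻¹))) e2 (by simp only [mul_assoc, mul_inv_rev, inv_inv, mul_inv_cancel_left, inv_mul_cancel_left, mul_inv_cancel, inv_mul_cancel, mul_one, one_mul, inv_one, C]) (by simp only [mul_assoc, mul_inv_rev, inv_inv, mul_inv_cancel_left, inv_mul_cancel_left, mul_inv_cancel, inv_mul_cancel, mul_one, one_mul, inv_one, C])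
  have k45 : o.lt (g * m⁻¹) (P * g⁻¹) ↔ o.lt (m * g⁻¹) (P * m⁻¹) := o.cv hδ (m * (g⁻¹ * (m * g⁻¹))) e5 (by simp only [mul_assoc, mul_inv_rev, inv_inv, mul_inv_cancel_left, inv_mul_cancel_left, mul_inv_cancel, inv_mul_cancel, mul_one, one_mul, inv_one, C]) (by simp only [mul_assoc, mul_inv_rev, inv_inv, mul_inv_cancel_left, inv_mul_cancel_left, mul_inv_cancel, inv_mul_cancel, mul_one, one_mul, inv_one, C])
  have k46 : o.lt (f * m⁻¹) (P * f⁻¹) ↔ o.lt (m * f⁻¹) (P * m⁻¹) := o.cv hδ (m * (f⁻¹ * (m * f⁻¹))) e1 (by simp only [mul_assoc, mul_inv_rev, inv_inv, mul_inv_cancel_left, inv_mul_cancel_left, mul_inv_cancel, inv_mul_cancel, mul_one, one_mul, inv_one, C]) (by simp only [mul_assoc, mul_inv_rev, inv_inv, mul_inv_cancel_left, inv_mul_cancel_left, mul_inv_cancel, inv_mul_cancel, mul_one, one_mul, inv_one, C])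
  have k47 : o.lt (P * m⁻¹) (P * Q⁻¹) ↔ o.lt (P * m⁻¹) (P * Q⁻¹) := o.cv hδ (1) e10 (by simp only [mul_assoc, mul_inv_rev, inv_inv, mul_inv_cancel_left, inv_mul_cancel_left, mul_inv_cancel, inv_mul_cancel, mul_one, one_mul, inv_one, C]) (by simp only [mul_assoc, mul_inv_rev, inv_inv, mul_inv_cancel_left, inv_mul_cancel_left, mul_inv_cancel, inv_mul_cancel, mul_one, one_mul, inv_one, C])
  have k48 : o.lt (P * f⁻¹) (f * m⁻¹) ↔ o.lt (P * m⁻¹) (m * f⁻¹) := o.cv hδ (f * m⁻¹) e8 (by simp only [mul_assoc, mul_inv_rev, inv_inv, mul_inv_cancel_left, inv_mul_cancel_left, mul_inv_cancel, inv_mul_cancel, mul_one, one_mul, inv_one, C]) (by simp only [mul_assoc, mul_inv_rev, inv_inv, mul_inv_cancel_left, inv_mul_cancel_left, mul_inv_cancel, inv_mul_cancel, mul_one, one_mul, inv_one, C])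
  have k49 : o.lt (P * (m⁻¹ * (f * m⁻¹))) (P * (Q⁻¹ * (f * Q⁻¹))) ↔ o.lt (P * (f⁻¹ * (m * P⁻¹))) (P * (f⁻¹ * (Q * P⁻¹))) := o.cv hδ (m * (f⁻¹ * (m * (f⁻¹ * (m * P⁻¹))))) e9 (by simp only [mul_assoc, mul_inv_rev, inv_inv, mul_inv_cancel_left, inv_mul_cancel_left, mul_inv_cancel, inv_mul_cancel, mul_one, one_mul, inv_one, C]) (by simp only [mul_assoc, mul_inv_rev, inv_inv, mul_inv_cancel_left, inv_mul_cancel_left, mul_inv_cancel, inv_mul_cancel, mul_one, one_mul, inv_one, C])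
  have k50 : o.lt (P * f⁻¹) (f * m⁻¹) ↔ o.lt (P * (f⁻¹ * (m * P⁻¹))) (f * P⁻¹) := o.cv hδ (m * P⁻¹) e8 (by simp only [mul_assoc, mul_inv_rev, inv_inv, mul_inv_cancel_left, inv_mul_cancel_left, mul_inv_cancel, inv_mul_cancel, mul_one, one_mul, inv_one, C]) (by simp only [mul_assoc, mul_inv_rev, inv_inv, mul_inv_cancel_left, inv_mul_cancel_left, mul_inv_cancel, inv_mul_cancel, mul_one, one_mul, inv_one, C])
  have k51 : o.lt (f * Q⁻¹) (P * f⁻¹) ↔ o.lt (f * P⁻¹) (P * (f⁻¹ * (Q * P⁻¹))) := o.cv hδ (Q * P⁻¹) e2 (by simp only [mul_assoc, mul_inv_rev, inv_inv, mul_inv_cancel_left, inv_mul_cancel_left, mul_inv_cancel, inv_mul_cancel, mul_one, one_mul, inv_one, C]) (by simp only [mul_assoc, mul_inv_rev, inv_inv, mul_inv_cancel_left, inv_mul_cancel_left, mul_inv_cancel, inv_mul_cancel, mul_one, one_mul, inv_one, C])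
  have k52 : o.lt (g) (f) ↔ o.lt (g) (f) := o.cv hδ (1) e3 (by simp only [mul_assoc, mul_inv_rev, inv_inv, mul_inv_cancel_left, inv_mul_cancel_left, mul_inv_cancel, inv_mul_cancel, mul_one, one_mul, inv_one, C]) (by simp only [mul_assoc, mul_inv_rev, inv_inv, mul_inv_cancel_left, inv_mul_cancel_left, mul_inv_cancel, inv_mul_cancel, mul_one, one_mul, inv_one, C])
  exact ser_BEB_0_prop
    (fun b0 b1 b2 b3 => N0.i.r0 1 (fun h => b0 (k0.2 h)) (fun h => b1 (k1.2 h)) (k2.1 b2) (fun h => b3 (k3.2 h)))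
    (fun b0 b1 b2 => N1.i.r0 1 (k4.1 b0) (fun h => b1 (k5.2 h)) (fun h => b2 (k6.2 h)))
    (fun b0 b1 b2 => N1.i.r1 1 (fun h => b0 (k7.2 h)) (k8.1 b1) (fun h => b2 (k5.2 h)))
    (fun b0 b1 b2 => N1.r.r1 1 (fun h => b0 (k9.2 h)) (k10.1 b1) (fun h => b2 (k11.2 h)))
    (fun b0 b1 b2 => N1.i.r2 1 (fun h => b0 (k12.2 h)) (fun h => b1 (k13.2 h)) (k14.1 b2))
    (fun b0 b1 b2 => N1.rd.r2 1 (fun h => b0 (k8.2 h)) (fun h => b1 (k15.2 h)) (k11.1 b2))
    (fun b0 b1 b2 => N1.d.r1 (P * f⁻¹) (fun h => b0 (k16.2 h)) (k17.1 b1) (fun h => b2 (k18.2 h)))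
    (fun b0 b1 b2 => N1.r.r2 (P * f⁻¹) (fun h => b0 (k17.2 h)) (fun h => b1 (k19.2 h)) (k20.1 b2))
    (fun b0 b1 => o.asym (k21.1 b0) (k22.1 b1))
    (fun b0 b1 => o.asym (k23.1 b0) (k24.1 b1))
    (fun b0 b1 b2 => o.tri (k24.1 b0) (fun h => b1 (k25.2 h)) (fun h => b2 (k26.2 h)))
    (fun b0 b1 => o.asym (k25.1 b0) (k27.1 b1))
    (fun b0 b1 => o.asym (k28.1 b0) (k29.1 b1))
    (fun b0 b1 b2 => o.tri (k30.1 b0) (fun h => b1 (k31.2 h)) (fun h => b2 (k32.2 h)))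
    (fun b0 b1 => o.asym (k31.1 b0) (k33.1 b1))
    (fun b0 b1 b2 => o.tri (k31.1 b0) (fun h => b1 (k34.2 h)) (fun h => b2 (k28.2 h)))
    (fun b0 b1 b2 => o.tri (k27.1 b0) (fun h => b1 (k35.2 h)) (fun h => b2 (k29.2 h)))
    (fun b0 b1 b2 => o.tri (k36.1 b0) (fun h => b1 (k27.2 h)) (fun h => b2 (k37.2 h)))
    (fun b0 b1 => o.asym (k38.1 b0) (k39.1 b1))
    (fun b0 b1 => o.asym (k40.1 b0) (k41.1 b1))
    (fun b0 b1 b2 => o.tri (k42.1 b0) (fun h => b1 (k43.2 h)) (fun h => b2 (k44.2 h)))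
    (fun b0 b1 b2 => o.tri (k45.1 b0) (fun h => b1 (k41.2 h)) (fun h => b2 (k46.2 h)))
    (fun b0 b1 b2 => o.tri (k47.1 b0) (fun h => b1 (k48.2 h)) (fun h => b2 (k42.2 h)))
    (fun b0 b1 b2 => o.tri (k49.1 b0) (fun h => b1 (k50.2 h)) (fun h => b2 (k51.2 h)))
    (fun h => g0 (k26.1 h))
    (fun h => g1 (k32.1 h))
    (k21.2 g2)
    (fun h => g3 (k52.1 h))

theorem ser_BEB_1_prop {A1 A2 A3 A4 A5 A6 A7 A8 A9 A10 A11 A12 A13 A14 A15 A16 A17 A18 A19 A20 A21 A22 A23 A24 A25 A26 A27 A28 A29 A30 A31 A32 A33 A34 A35 A36 A37 A38 A39 A40 A41 A42 A43 : Prop}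
    (c0 : ¬ A20 → ¬ A24 → A23 → ¬ A3 → False)
    (c1 : ¬ A19 → A21 → ¬ A4 → ¬ A1 → False)
    (c2 : ¬ A5 → ¬ A34 → A40 → ¬ A1 → False)
    (c3 : A35 → ¬ A1 → ¬ A31 → False)
    (c4 : ¬ A37 → A42 → ¬ A1 → False)
    (c5 : ¬ A35 → A43 → ¬ A3 → False)
    (c6 : ¬ A37 → A40 → ¬ A1 → False)
    (c7 : ¬ A40 → ¬ A33 → A3 → False)
    (c8 : ¬ A2 → ¬ A5 → A3 → ¬ A9 → False)
    (c9 : ¬ A3 → A10 → ¬ A26 → ¬ A9 → False)
    (c10 : A17 → ¬ A12 → ¬ A15 → False)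
    (c11 : A18 → ¬ A9 → ¬ A13 → False)
    (c12 : A20 → ¬ A21 → ¬ A1 → False)
    (c13 : A22 → ¬ A19 → ¬ A25 → False)
    (c14 : A22 → ¬ A21 → ¬ A28 → False)
    (c15 : A25 → A32 → False)
    (c16 : A16 → ¬ A11 → ¬ A35 → False)
    (c17 : A27 → A31 → False)
    (c18 : A28 → ¬ A27 → ¬ A3 → False)
    (c19 : A31 → ¬ A30 → ¬ A21 → False)
    (c20 : A34 → ¬ A35 → ¬ A36 → False)
    (c21 : A5 → ¬ A35 → ¬ A7 → False)
    (c22 : A35 → A37 → False)
    (c23 : A8 → A4 → False)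
    (c24 : A11 → ¬ A8 → ¬ A40 → False)
    (c25 : A14 → ¬ A11 → ¬ A41 → False)
    (c26 : A4 → ¬ A40 → ¬ A5 → False)
    (c27 : A41 → ¬ A35 → ¬ A43 → False)
    (c28 : A36 → ¬ A6 → ¬ A1 → False)
    (c29 : A30 → ¬ A42 → ¬ A32 → False)
    (c30 : A24 → ¬ A20 → ¬ A40 → False)
    (c31 : A12 → ¬ A23 → ¬ A3 → False)
    (c32 : A9 → ¬ A1 → ¬ A19 → False)
    (c33 : A2 → ¬ A1 → ¬ A4 → False)
    (c34 : A7 → ¬ A6 → ¬ A9 → False)
    (c35 : A11 → ¬ A10 → ¬ A1 → False)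
    (c36 : A13 → ¬ A11 → ¬ A6 → False)
    (c37 : A15 → ¬ A14 → ¬ A5 → False)
    (c38 : A26 → ¬ A24 → ¬ A2 → False)
    (c39 : A38 → ¬ A17 → ¬ A16 → False)
    (c40 : A5 → ¬ A29 → ¬ A18 → False)
    (c41 : A29 → A39 → False)
    (c42 : A29 → ¬ A28 → ¬ A7 → False)
    (c43 : A28 → ¬ A5 → ¬ A38 → False)
    (c44 : A33 → ¬ A7 → ¬ A39 → False)
    (u0 : ¬ A19)
    (u1 : A22)
    (u2 : ¬ A6)
    (u3 : ¬ A1)
    : False := by
  have q1 : A25 := Classical.byContradiction fun h => c13 u1 u0 h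
  have q2 : ¬ A32 := fun h => c15 q1 h
  have q3 : ¬ A36 := fun h => c28 h u2 u3
  have q4 : ¬ A9 := fun h => c32 h u3 u0
  have q5 : ¬ A7 := fun h => c34 h u2 q4
  rcases Classical.em A35 with q6 | q6
  · have q7 : A31 := Classical.byContradiction fun h => c3 q6 u3 h
    have q8 : ¬ A27 := fun h => c17 h q7
    have q9 : ¬ A37 := fun h => c22 q6 h
    have q10 : ¬ A42 := fun h => c4 q9 h u3
    have q11 : ¬ A40 := fun h => c6 q9 h u3
    have q12 : ¬ A30 := fun h => c29 h q10 q2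
    have q13 : A21 := Classical.byContradiction fun h => c19 q7 q12 h
    have q14 : A4 := Classical.byContradiction fun h => c1 u0 q13 h u3
    have q15 : ¬ A8 := fun h => c23 h q14
    have q16 : ¬ A11 := fun h => c24 h q15 q11
    have q17 : A5 := Classical.byContradiction fun h => c26 q14 q11 h
    have q18 : ¬ A13 := fun h => c36 h q16 u2
    have q19 : ¬ A18 := fun h => c11 h q4 q18
    have q20 : A29 := Classical.byContradiction fun h => c40 q17 h q19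
    have q21 : ¬ A39 := fun h => c41 q20 h
    have q22 : A28 := Classical.byContradiction fun h => c42 q20 h q5
    have q23 : A3 := Classical.byContradiction fun h => c18 q22 q8 h
    have q24 : A33 := Classical.byContradiction fun h => c7 q11 h q23
    exact c44 q24 q5 q21
  · have q25 : ¬ A34 := fun h => c20 h q6 q3
    have q26 : ¬ A5 := fun h => c21 h q6 q5
    have q27 : ¬ A40 := fun h => c2 q26 q25 h u3
    have q28 : ¬ A4 := fun h => c26 h q27 q26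
    have q29 : ¬ A21 := fun h => c1 u0 h q28 u3
    have q30 : ¬ A20 := fun h => c12 h q29 u3
    have q31 : A28 := Classical.byContradiction fun h => c14 u1 q29 h
    have q32 : ¬ A24 := fun h => c30 h q30 q27
    have q33 : ¬ A2 := fun h => c33 h u3 q28
    have q34 : ¬ A3 := fun h => c8 q33 q26 h q4
    have q35 : ¬ A23 := fun h => c0 q30 q32 h q34
    have q36 : ¬ A43 := fun h => c5 q6 h q34
    have q37 : A27 := Classical.byContradiction fun h => c18 q31 h q34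
    have q38 : ¬ A31 := fun h => c17 q37 h
    have q39 : ¬ A41 := fun h => c27 h q6 q36
    have q40 : ¬ A12 := fun h => c31 h q35 q34
    have q41 : ¬ A26 := fun h => c38 h q32 q33
    have q42 : ¬ A10 := fun h => c9 q34 h q41 q4
    have q43 : ¬ A11 := fun h => c35 h q42 u3
    have q44 : ¬ A16 := fun h => c16 h q43 q6
    have q45 : ¬ A14 := fun h => c25 h q43 q39
    have q46 : ¬ A13 := fun h => c36 h q43 u2
    have q47 : ¬ A18 := fun h => c11 h q4 q46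
    have q48 : ¬ A15 := fun h => c37 h q45 q26
    have q49 : ¬ A17 := fun h => c10 h q40 q48
    have q50 : ¬ A38 := fun h => c39 h q49 q44
    exact c43 q31 q26 q50

theorem ser_BEB_1 {G : Type*} [Group G] {δ : G → ZMod 3} (hδ : ∀ u v, δ (u * v) = δ u + δ v) (o : Pre δ)
    {P m Q f g : G} {e : ZMod 3} (h3 : 3 * e = 0)
    (D : δ P = e ∧ δ m = -e ∧ δ Q = -e ∧ δ f = 0 ∧ δ g = 0)
    (C : Cube P f ∧ Cube P g ∧ Cube m f ∧ Cube m g ∧ Cube Q f ∧ Cube Q g)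
    (N0 : RB o P m f g)
    (N1 : RE o m Q f g)
    (g0 : ¬ o.lt (P * f⁻¹) (P * g⁻¹)) (g1 : o.lt (P * f⁻¹) (g * Q⁻¹)) (g2 : ¬ o.lt ((f * Q⁻¹)⁻¹) ((P * g⁻¹)⁻¹)) (g3 : ¬ o.lt (g) (f)) : False := by
  simp only [Cube] at C
  have e0 : δ (g) = δ (f) := by simp only [hδ, δinv hδ, δone hδ, D] <;> linear_combination (0) * h3
  have e1 : δ (g * f⁻¹) = δ (g * (P⁻¹ * (f * m⁻¹))) := by simp only [hδ, δinv hδ, δone hδ, D] <;> linear_combination (0) * h3
  have e2 : δ (f) = δ (g) := by simp only [hδ, δinv hδ, δone hδ, D] <;> linear_combination (0) * h3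
  have e3 : δ (m * f⁻¹) = δ (g * P⁻¹) := by simp only [hδ, δinv hδ, δone hδ, D] <;> linear_combination (0) * h3
  have e4 : δ (m * g⁻¹) = δ (g * P⁻¹) := by simp only [hδ, δinv hδ, δone hδ, D] <;> linear_combination (0) * h3
  have e5 : δ (Q * f⁻¹) = δ (g * P⁻¹) := by simp only [hδ, δinv hδ, δone hδ, D] <;> linear_combination (0) * h3
  have e6 : δ (Q * P⁻¹) = δ (P * g⁻¹) := by simp only [hδ, δinv hδ, δone hδ, D] <;> linear_combination (-1) * h3
  have e7 : δ (g * P⁻¹) = δ (m * f⁻¹) := by simp only [hδ, δinv hδ, δone hδ, D] <;> linear_combination (0) * h3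
  have e8 : δ (g * (P⁻¹ * f)) = δ (g * (P⁻¹ * g)) := by simp only [hδ, δinv hδ, δone hδ, D] <;> linear_combination (0) * h3
  have e9 : δ (g * (P⁻¹ * (g * m⁻¹))) = δ (g * f⁻¹) := by simp only [hδ, δinv hδ, δone hδ, D] <;> linear_combination (0) * h3
  have e10 : δ (P * g⁻¹) = δ (m * P⁻¹) := by simp only [hδ, δinv hδ, δone hδ, D] <;> linear_combination (1) * h3
  have e11 : δ (g * (P⁻¹ * (g * m⁻¹))) = δ (g * (P⁻¹ * (f * m⁻¹))) := by simp only [hδ, δinv hδ, δone hδ, D] <;> linear_combination (0) * h3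
  have e12 : δ (g * (P⁻¹ * (g * m⁻¹))) = δ (g * (P⁻¹ * (f * Q⁻¹))) := by simp only [hδ, δinv hδ, δone hδ, D] <;> linear_combination (0) * h3
  have e13 : δ (g * P⁻¹) = δ (Q * f⁻¹) := by simp only [hδ, δinv hδ, δone hδ, D] <;> linear_combination (0) * h3
  have e14 : δ (g * (P⁻¹ * (f * Q⁻¹))) = δ (g * (P⁻¹ * (g * m⁻¹))) := by simp only [hδ, δinv hδ, δone hδ, D] <;> linear_combination (0) * h3
  have e15 : δ (P * g⁻¹) = δ (Q * P⁻¹) := by simp only [hδ, δinv hδ, δone hδ, D] <;> linear_combination (1) * h3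
  have e16 : δ (g * (P⁻¹ * (m * f⁻¹))) = δ (g * (P⁻¹ * (Q * f⁻¹))) := by simp only [hδ, δinv hδ, δone hδ, D] <;> linear_combination (0) * h3
  have e17 : δ (g * (P⁻¹ * (Q * f⁻¹))) = δ (g * (P⁻¹ * (m * f⁻¹))) := by simp only [hδ, δinv hδ, δone hδ, D] <;> linear_combination (0) * h3
  have e18 : δ (P * f⁻¹) = δ (P * g⁻¹) := by simp only [hδ, δinv hδ, δone hδ, D] <;> linear_combination (0) * h3
  have e19 : δ (P * f⁻¹) = δ (f * m⁻¹) := by simp only [hδ, δinv hδ, δone hδ, D] <;> linear_combination (0) * h3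
  have e20 : δ (P * f⁻¹) = δ (g * m⁻¹) := by simp only [hδ, δinv hδ, δone hδ, D] <;> linear_combination (0) * h3
  have e21 : δ (P * f⁻¹) = δ (g * Q⁻¹) := by simp only [hδ, δinv hδ, δone hδ, D] <;> linear_combination (0) * h3
  have e22 : δ (P * g⁻¹) = δ (P * f⁻¹) := by simp only [hδ, δinv hδ, δone hδ, D] <;> linear_combination (0) * h3
  have e23 : δ (P * g⁻¹) = δ (g * m⁻¹) := by simp only [hδ, δinv hδ, δone hδ, D] <;> linear_combination (0) * h3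
  have e24 : δ (P * g⁻¹) = δ (g * Q⁻¹) := by simp only [hδ, δinv hδ, δone hδ, D] <;> linear_combination (0) * h3
  have e25 : δ (P * g⁻¹) = δ (g * (P⁻¹ * (m * f⁻¹))) := by simp only [hδ, δinv hδ, δone hδ, D] <;> linear_combination (1) * h3
  have e26 : δ (g * m⁻¹) = δ (f * Q⁻¹) := by simp only [hδ, δinv hδ, δone hδ, D] <;> linear_combination (0) * h3
  have e27 : δ (g * m⁻¹) = δ (g * Q⁻¹) := by simp only [hδ, δinv hδ, δone hδ, D] <;> linear_combination (0) * h3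
  have e28 : δ (g * m⁻¹) = δ (g * (P⁻¹ * (Q * g⁻¹))) := by simp only [hδ, δinv hδ, δone hδ, D] <;> linear_combination (1) * h3
  have e29 : δ (f * Q⁻¹) = δ (P * f⁻¹) := by simp only [hδ, δinv hδ, δone hδ, D] <;> linear_combination (0) * h3
  have e30 : δ (f * Q⁻¹) = δ (g * m⁻¹) := by simp only [hδ, δinv hδ, δone hδ, D] <;> linear_combination (0) * h3
  have e31 : δ (g * Q⁻¹) = δ (P * g⁻¹) := by simp only [hδ, δinv hδ, δone hδ, D] <;> linear_combination (0) * h3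
  have e32 : δ (g * Q⁻¹) = δ (g * m⁻¹) := by simp only [hδ, δinv hδ, δone hδ, D] <;> linear_combination (0) * h3
  have e33 : δ (m * f⁻¹) = δ (f * P⁻¹) := by simp only [hδ, δinv hδ, δone hδ, D] <;> linear_combination (0) * h3
  have e34 : δ (m * f⁻¹) = δ (Q * f⁻¹) := by simp only [hδ, δinv hδ, δone hδ, D] <;> linear_combination (0) * h3
  have e35 : δ (Q * P⁻¹) = δ (P * f⁻¹) := by simp only [hδ, δinv hδ, δone hδ, D] <;> linear_combination (-1) * h3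
  have e36 : δ (Q * f⁻¹) = δ (m * f⁻¹) := by simp only [hδ, δinv hδ, δone hδ, D] <;> linear_combination (0) * h3
  have e37 : δ (g * (P⁻¹ * (m * g⁻¹))) = δ (g * Q⁻¹) := by simp only [hδ, δinv hδ, δone hδ, D] <;> linear_combination (-1) * h3
  have e38 : δ (g * (P⁻¹ * (Q * g⁻¹))) = δ (g * m⁻¹) := by simp only [hδ, δinv hδ, δone hδ, D] <;> linear_combination (-1) * h3
  have e39 : δ (m * f⁻¹) = δ (m * g⁻¹) := by simp only [hδ, δinv hδ, δone hδ, D] <;> linear_combination (0) * h3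
  have e40 : δ (m * g⁻¹) = δ (Q * f⁻¹) := by simp only [hδ, δinv hδ, δone hδ, D] <;> linear_combination (0) * h3
  have e41 : δ (Q * f⁻¹) = δ (Q * g⁻¹) := by simp only [hδ, δinv hδ, δone hδ, D] <;> linear_combination (0) * h3
  have e42 : δ (Q * g⁻¹) = δ (Q * f⁻¹) := by simp only [hδ, δinv hδ, δone hδ, D] <;> linear_combination (0) * h3
  have k0 : o.lt (P * f⁻¹) (f * m⁻¹) ↔ o.lt (1 * (P * f⁻¹)) (1 * (f * m⁻¹)) := o.cv hδ (1) e19 (by simp only [mul_assoc, mul_inv_rev, inv_inv, mul_inv_cancel_left, inv_mul_cancel_left, mul_inv_cancel, inv_mul_cancel, mul_one, one_mul, inv_one, C]) (by simp only [mul_assoc, mul_inv_rev, inv_inv, mul_inv_cancel_left, inv_mul_cancel_left, mul_inv_cancel, inv_mul_cancel, mul_one, one_mul, inv_one, C])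
  have k1 : o.lt (P * g⁻¹) (g * m⁻¹) ↔ o.lt (1 * (P * g⁻¹)) (1 * (g * m⁻¹)) := o.cv hδ (1) e23 (by simp only [mul_assoc, mul_inv_rev, inv_inv, mul_inv_cancel_left, inv_mul_cancel_left, mul_inv_cancel, inv_mul_cancel, mul_one, one_mul, inv_one, C]) (by simp only [mul_assoc, mul_inv_rev, inv_inv, mul_inv_cancel_left, inv_mul_cancel_left, mul_inv_cancel, inv_mul_cancel, mul_one, one_mul, inv_one, C])
  have k2 : o.lt (P * g⁻¹) (P * f⁻¹) ↔ o.lt (1 * (P * g⁻¹)) (1 * (P * f⁻¹)) := o.cv hδ (1) e22 (by simp only [mul_assoc, mul_inv_rev, inv_inv, mul_inv_cancel_left, inv_mul_cancel_left, mul_inv_cancel, inv_mul_cancel, mul_one, one_mul, inv_one, C]) (by simp only [mul_assoc, mul_inv_rev, inv_inv, mul_inv_cancel_left, inv_mul_cancel_left, mul_inv_cancel, inv_mul_cancel, mul_one, one_mul, inv_one, C])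
  have k3 : o.lt (f) (g) ↔ o.lt (1 * f) (1 * g) := o.cv hδ (1) e2 (by simp only [mul_assoc, mul_inv_rev, inv_inv, mul_inv_cancel_left, inv_mul_cancel_left, mul_inv_cancel, inv_mul_cancel, mul_one, one_mul, inv_one, C]) (by simp only [mul_assoc, mul_inv_rev, inv_inv, mul_inv_cancel_left, inv_mul_cancel_left, mul_inv_cancel, inv_mul_cancel, mul_one, one_mul, inv_one, C])
  have k4 : o.lt (P * f⁻¹) (P * g⁻¹) ↔ o.lt (1 * (P * f⁻¹)) (1 * (P * g⁻¹)) := o.cv hδ (1) e18 (by simp only [mul_assoc, mul_inv_rev, inv_inv, mul_inv_cancel_left, inv_mul_cancel_left, mul_inv_cancel, inv_mul_cancel, mul_one, one_mul, inv_one, C]) (by simp only [mul_assoc, mul_inv_rev, inv_inv, mul_inv_cancel_left, inv_mul_cancel_left, mul_inv_cancel, inv_mul_cancel, mul_one, one_mul, inv_one, C])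
  have k5 : o.lt (P * f⁻¹) (g * m⁻¹) ↔ o.lt (1 * (P * f⁻¹)) (1 * (g * m⁻¹)) := o.cv hδ (1) e20 (by simp only [mul_assoc, mul_inv_rev, inv_inv, mul_inv_cancel_left, inv_mul_cancel_left, mul_inv_cancel, inv_mul_cancel, mul_one, one_mul, inv_one, C]) (by simp only [mul_assoc, mul_inv_rev, inv_inv, mul_inv_cancel_left, inv_mul_cancel_left, mul_inv_cancel, inv_mul_cancel, mul_one, one_mul, inv_one, C])
  have k6 : o.lt (m * f⁻¹) (g * P⁻¹) ↔ o.lt (1 * (f * m⁻¹)⁻¹) (1 * (P * g⁻¹)⁻¹) := o.cv hδ (1) e3 (by simp only [mul_assoc, mul_inv_rev, inv_inv, mul_inv_cancel_left, inv_mul_cancel_left, mul_inv_cancel, inv_mul_cancel, mul_one, one_mul, inv_one, C]) (by simp only [mul_assoc, mul_inv_rev, inv_inv, mul_inv_cancel_left, inv_mul_cancel_left, mul_inv_cancel, inv_mul_cancel, mul_one, one_mul, inv_one, C])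
  have k7 : o.lt (g) (f) ↔ o.lt (1 * g) (1 * f) := o.cv hδ (1) e0 (by simp only [mul_assoc, mul_inv_rev, inv_inv, mul_inv_cancel_left, inv_mul_cancel_left, mul_inv_cancel, inv_mul_cancel, mul_one, one_mul, inv_one, C]) (by simp only [mul_assoc, mul_inv_rev, inv_inv, mul_inv_cancel_left, inv_mul_cancel_left, mul_inv_cancel, inv_mul_cancel, mul_one, one_mul, inv_one, C])
  have k8 : o.lt (m * g⁻¹) (g * P⁻¹) ↔ o.lt (1 * (m * g⁻¹)) (1 * (g * P⁻¹)) := o.cv hδ (1) e4 (by simp only [mul_assoc, mul_inv_rev, inv_inv, mul_inv_cancel_left, inv_mul_cancel_left, mul_inv_cancel, inv_mul_cancel, mul_one, one_mul, inv_one, C]) (by simp only [mul_assoc, mul_inv_rev, inv_inv, mul_inv_cancel_left, inv_mul_cancel_left, mul_inv_cancel, inv_mul_cancel, mul_one, one_mul, inv_one, C])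
  have k9 : o.lt (m * f⁻¹) (f * P⁻¹) ↔ o.lt (1 * (m * f⁻¹)) (1 * (f * P⁻¹)) := o.cv hδ (1) e33 (by simp only [mul_assoc, mul_inv_rev, inv_inv, mul_inv_cancel_left, inv_mul_cancel_left, mul_inv_cancel, inv_mul_cancel, mul_one, one_mul, inv_one, C]) (by simp only [mul_assoc, mul_inv_rev, inv_inv, mul_inv_cancel_left, inv_mul_cancel_left, mul_inv_cancel, inv_mul_cancel, mul_one, one_mul, inv_one, C])
  have k10 : o.lt (m * f⁻¹) (m * g⁻¹) ↔ o.lt (1 * (m * f⁻¹)) (1 * (m * g⁻¹)) := o.cv hδ (1) e39 (by simp only [mul_assoc, mul_inv_rev, inv_inv, mul_inv_cancel_left, inv_mul_cancel_left, mul_inv_cancel, inv_mul_cancel, mul_one, one_mul, inv_one, C]) (by simp only [mul_assoc, mul_inv_rev, inv_inv, mul_inv_cancel_left, inv_mul_cancel_left, mul_inv_cancel, inv_mul_cancel, mul_one, one_mul, inv_one, C])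
  have k11 : o.lt (m * f⁻¹) (Q * f⁻¹) ↔ o.lt (1 * (m * f⁻¹)) (1 * (Q * f⁻¹)) := o.cv hδ (1) e34 (by simp only [mul_assoc, mul_inv_rev, inv_inv, mul_inv_cancel_left, inv_mul_cancel_left, mul_inv_cancel, inv_mul_cancel, mul_one, one_mul, inv_one, C]) (by simp only [mul_assoc, mul_inv_rev, inv_inv, mul_inv_cancel_left, inv_mul_cancel_left, mul_inv_cancel, inv_mul_cancel, mul_one, one_mul, inv_one, C])
  have k12 : o.lt (g) (f) ↔ o.lt (1 * (m * g⁻¹)⁻¹) (1 * (m * f⁻¹)⁻¹) := o.cv hδ (m⁻¹) e0 (by simp only [mul_assoc, mul_inv_rev, inv_inv, mul_inv_cancel_left, inv_mul_cancel_left, mul_inv_cancel, inv_mul_cancel, mul_one, one_mul, inv_one, C]) (by simp only [mul_assoc, mul_inv_rev, inv_inv, mul_inv_cancel_left, inv_mul_cancel_left, mul_inv_cancel, inv_mul_cancel, mul_one, one_mul, inv_one, C])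
  have k13 : o.lt (f * Q⁻¹) (g * m⁻¹) ↔ o.lt (1 * (Q * f⁻¹)⁻¹) (1 * (m * g⁻¹)⁻¹) := o.cv hδ (1) e30 (by simp only [mul_assoc, mul_inv_rev, inv_inv, mul_inv_cancel_left, inv_mul_cancel_left, mul_inv_cancel, inv_mul_cancel, mul_one, one_mul, inv_one, C]) (by simp only [mul_assoc, mul_inv_rev, inv_inv, mul_inv_cancel_left, inv_mul_cancel_left, mul_inv_cancel, inv_mul_cancel, mul_one, one_mul, inv_one, C])
  have k14 : o.lt (Q * f⁻¹) (m * f⁻¹) ↔ o.lt (1 * (Q * f⁻¹)) (1 * (m * f⁻¹)) := o.cv hδ (1) e36 (by simp only [mul_assoc, mul_inv_rev, inv_inv, mul_inv_cancel_left, inv_mul_cancel_left, mul_inv_cancel, inv_mul_cancel, mul_one, one_mul, inv_one, C]) (by simp only [mul_assoc, mul_inv_rev, inv_inv, mul_inv_cancel_left, inv_mul_cancel_left, mul_inv_cancel, inv_mul_cancel, mul_one, one_mul, inv_one, C])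
  have k15 : o.lt (Q * f⁻¹) (Q * g⁻¹) ↔ o.lt (1 * (Q * f⁻¹)) (1 * (Q * g⁻¹)) := o.cv hδ (1) e41 (by simp only [mul_assoc, mul_inv_rev, inv_inv, mul_inv_cancel_left, inv_mul_cancel_left, mul_inv_cancel, inv_mul_cancel, mul_one, one_mul, inv_one, C]) (by simp only [mul_assoc, mul_inv_rev, inv_inv, mul_inv_cancel_left, inv_mul_cancel_left, mul_inv_cancel, inv_mul_cancel, mul_one, one_mul, inv_one, C])
  have k16 : o.lt (Q * g⁻¹) (Q * f⁻¹) ↔ o.lt (1 * (Q * g⁻¹)) (1 * (Q * f⁻¹)) := o.cv hδ (1) e42 (by simp only [mul_assoc, mul_inv_rev, inv_inv, mul_inv_cancel_left, inv_mul_cancel_left, mul_inv_cancel, inv_mul_cancel, mul_one, one_mul, inv_one, C]) (by simp only [mul_assoc, mul_inv_rev, inv_inv, mul_inv_cancel_left, inv_mul_cancel_left, mul_inv_cancel, inv_mul_cancel, mul_one, one_mul, inv_one, C])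
  have k17 : o.lt (f) (g) ↔ o.lt (1 * (m * f⁻¹)⁻¹) (1 * (m * g⁻¹)⁻¹) := o.cv hδ (m⁻¹) e2 (by simp only [mul_assoc, mul_inv_rev, inv_inv, mul_inv_cancel_left, inv_mul_cancel_left, mul_inv_cancel, inv_mul_cancel, mul_one, one_mul, inv_one, C]) (by simp only [mul_assoc, mul_inv_rev, inv_inv, mul_inv_cancel_left, inv_mul_cancel_left, mul_inv_cancel, inv_mul_cancel, mul_one, one_mul, inv_one, C])
  have k18 : o.lt (Q * f⁻¹) (m * f⁻¹) ↔ o.lt (1 * (Q * g⁻¹)) (1 * (m * g⁻¹)) := o.cv hδ (f * g⁻¹) e36 (by simp only [mul_assoc, mul_inv_rev, inv_inv, mul_inv_cancel_left, inv_mul_cancel_left, mul_inv_cancel, inv_mul_cancel, mul_one, one_mul, inv_one, C]) (by simp only [mul_assoc, mul_inv_rev, inv_inv, mul_inv_cancel_left, inv_mul_cancel_left, mul_inv_cancel, inv_mul_cancel, mul_one, one_mul, inv_one, C])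
  have k19 : o.lt (g) (f) ↔ o.lt (1 * (Q * g⁻¹)⁻¹) (1 * (Q * f⁻¹)⁻¹) := o.cv hδ (Q⁻¹) e0 (by simp only [mul_assoc, mul_inv_rev, inv_inv, mul_inv_cancel_left, inv_mul_cancel_left, mul_inv_cancel, inv_mul_cancel, mul_one, one_mul, inv_one, C]) (by simp only [mul_assoc, mul_inv_rev, inv_inv, mul_inv_cancel_left, inv_mul_cancel_left, mul_inv_cancel, inv_mul_cancel, mul_one, one_mul, inv_one, C])
  have k20 : o.lt (g * Q⁻¹) (g * m⁻¹) ↔ o.lt (1 * (Q * g⁻¹)⁻¹) (1 * (m * g⁻¹)⁻¹) := o.cv hδ (1) e32 (by simp only [mul_assoc, mul_inv_rev, inv_inv, mul_inv_cancel_left, inv_mul_cancel_left, mul_inv_cancel, inv_mul_cancel, mul_one, one_mul, inv_one, C]) (by simp only [mul_assoc, mul_inv_rev, inv_inv, mul_inv_cancel_left, inv_mul_cancel_left, mul_inv_cancel, inv_mul_cancel, mul_one, one_mul, inv_one, C])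
  have k21 : o.lt (g * f⁻¹) (g * (P⁻¹ * (f * m⁻¹))) ↔ o.lt ((g * P⁻¹) * (P * f⁻¹)) ((g * P⁻¹) * (f * m⁻¹)) := o.cv hδ (1) e1 (by simp only [mul_assoc, mul_inv_rev, inv_inv, mul_inv_cancel_left, inv_mul_cancel_left, mul_inv_cancel, inv_mul_cancel, mul_one, one_mul, inv_one, C]) (by simp only [mul_assoc, mul_inv_rev, inv_inv, mul_inv_cancel_left, inv_mul_cancel_left, mul_inv_cancel, inv_mul_cancel, mul_one, one_mul, inv_one, C])
  have k22 : o.lt (m * g⁻¹) (g * P⁻¹) ↔ o.lt ((g * P⁻¹) * (P * g⁻¹)) ((g * P⁻¹) * (g * m⁻¹)) := o.cv hδ (g * m⁻¹) e4 (by simp only [mul_assoc, mul_inv_rev, inv_inv, mul_inv_cancel_left, inv_mul_cancel_left, mul_inv_cancel, inv_mul_cancel, mul_one, one_mul, inv_one, C]) (by simp only [mul_assoc, mul_inv_rev, inv_inv, mul_inv_cancel_left, inv_mul_cancel_left, mul_inv_cancel, inv_mul_cancel, mul_one, one_mul, inv_one, C])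
  have k23 : o.lt (f) (g) ↔ o.lt ((g * P⁻¹) * (P * g⁻¹)) ((g * P⁻¹) * (P * f⁻¹)) := o.cv hδ (f⁻¹) e2 (by simp only [mul_assoc, mul_inv_rev, inv_inv, mul_inv_cancel_left, inv_mul_cancel_left, mul_inv_cancel, inv_mul_cancel, mul_one, one_mul, inv_one, C]) (by simp only [mul_assoc, mul_inv_rev, inv_inv, mul_inv_cancel_left, inv_mul_cancel_left, mul_inv_cancel, inv_mul_cancel, mul_one, one_mul, inv_one, C])
  have k24 : o.lt (g * (P⁻¹ * f)) (g * (P⁻¹ * g)) ↔ o.lt ((g * P⁻¹) * f) ((g * P⁻¹) * g) := o.cv hδ (1) e8 (by simp only [mul_assoc, mul_inv_rev, inv_inv, mul_inv_cancel_left, inv_mul_cancel_left, mul_inv_cancel, inv_mul_cancel, mul_one, one_mul, inv_one, C]) (by simp only [mul_assoc, mul_inv_rev, inv_inv, mul_inv_cancel_left, inv_mul_cancel_left, mul_inv_cancel, inv_mul_cancel, mul_one, one_mul, inv_one, C])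
  have k25 : o.lt (g * (P⁻¹ * (g * m⁻¹))) (g * f⁻¹) ↔ o.lt ((g * P⁻¹) * (g * m⁻¹)) ((g * P⁻¹) * (P * f⁻¹)) := o.cv hδ (1) e9 (by simp only [mul_assoc, mul_inv_rev, inv_inv, mul_inv_cancel_left, inv_mul_cancel_left, mul_inv_cancel, inv_mul_cancel, mul_one, one_mul, inv_one, C]) (by simp only [mul_assoc, mul_inv_rev, inv_inv, mul_inv_cancel_left, inv_mul_cancel_left, mul_inv_cancel, inv_mul_cancel, mul_one, one_mul, inv_one, C])
  have k26 : o.lt (P * g⁻¹) (g * (P⁻¹ * (m * f⁻¹))) ↔ o.lt ((g * P⁻¹) * (P * g⁻¹)⁻¹) ((g * P⁻¹) * (f * m⁻¹)⁻¹) := o.cv hδ (g * (P⁻¹ * (g * (P⁻¹ * (g * P⁻¹))))) e25 (by simp only [mul_assoc, mul_inv_rev, inv_inv, mul_inv_cancel_left, inv_mul_cancel_left, mul_inv_cancel, inv_mul_cancel, mul_one, one_mul, inv_one, C]) (by simp only [mul_assoc, mul_inv_rev, inv_inv, mul_inv_cancel_left, inv_mul_cancel_left, mul_inv_cancel, inv_mul_cancel, mul_one, one_mul, inv_one, C])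
  have k27 : o.lt (g * (P⁻¹ * (m * f⁻¹))) (g * (P⁻¹ * (Q * f⁻¹))) ↔ o.lt ((g * P⁻¹) * (m * f⁻¹)) ((g * P⁻¹) * (Q * f⁻¹)) := o.cv hδ (1) e16 (by simp only [mul_assoc, mul_inv_rev, inv_inv, mul_inv_cancel_left, inv_mul_cancel_left, mul_inv_cancel, inv_mul_cancel, mul_one, one_mul, inv_one, C]) (by simp only [mul_assoc, mul_inv_rev, inv_inv, mul_inv_cancel_left, inv_mul_cancel_left, mul_inv_cancel, inv_mul_cancel, mul_one, one_mul, inv_one, C])
  have k28 : o.lt (g * (P⁻¹ * (g * m⁻¹))) (g * (P⁻¹ * (f * m⁻¹))) ↔ o.lt ((g * P⁻¹) * (m * g⁻¹)⁻¹) ((g * P⁻¹) * (m * f⁻¹)⁻¹) := o.cv hδ (1) e11 (by simp only [mul_assoc, mul_inv_rev, inv_inv, mul_inv_cancel_left, inv_mul_cancel_left, mul_inv_cancel, inv_mul_cancel, mul_one, one_mul, inv_one, C]) (by simp only [mul_assoc, mul_inv_rev, inv_inv, mul_inv_cancel_left, inv_mul_cancel_left, mul_inv_cancel, inv_mul_cancel, mul_one, one_mul, inv_one, C])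
  have k29 : o.lt (g * (P⁻¹ * (f * Q⁻¹))) (g * (P⁻¹ * (g * m⁻¹))) ↔ o.lt ((g * P⁻¹) * (Q * f⁻¹)⁻¹) ((g * P⁻¹) * (m * g⁻¹)⁻¹) := o.cv hδ (1) e14 (by simp only [mul_assoc, mul_inv_rev, inv_inv, mul_inv_cancel_left, inv_mul_cancel_left, mul_inv_cancel, inv_mul_cancel, mul_one, one_mul, inv_one, C]) (by simp only [mul_assoc, mul_inv_rev, inv_inv, mul_inv_cancel_left, inv_mul_cancel_left, mul_inv_cancel, inv_mul_cancel, mul_one, one_mul, inv_one, C])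
  have k30 : o.lt (g * (P⁻¹ * (Q * f⁻¹))) (g * (P⁻¹ * (m * f⁻¹))) ↔ o.lt ((g * P⁻¹) * (Q * f⁻¹)) ((g * P⁻¹) * (m * f⁻¹)) := o.cv hδ (1) e17 (by simp only [mul_assoc, mul_inv_rev, inv_inv, mul_inv_cancel_left, inv_mul_cancel_left, mul_inv_cancel, inv_mul_cancel, mul_one, one_mul, inv_one, C]) (by simp only [mul_assoc, mul_inv_rev, inv_inv, mul_inv_cancel_left, inv_mul_cancel_left, mul_inv_cancel, inv_mul_cancel, mul_one, one_mul, inv_one, C])
  have k31 : o.lt (g * (P⁻¹ * f)) (g * (P⁻¹ * g)) ↔ o.lt ((g * P⁻¹) * (m * f⁻¹)⁻¹) ((g * P⁻¹) * (m * g⁻¹)⁻¹) := o.cv hδ (m⁻¹) e8 (by simp only [mul_assoc, mul_inv_rev, inv_inv, mul_inv_cancel_left, inv_mul_cancel_left, mul_inv_cancel, inv_mul_cancel, mul_one, one_mul, inv_one, C]) (by simp only [mul_assoc, mul_inv_rev, inv_inv, mul_inv_cancel_left, inv_mul_cancel_left, mul_inv_cancel, inv_mul_cancel, mul_one, one_mul, inv_one, C])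
  have k32 : o.lt (g * (P⁻¹ * (g * m⁻¹))) (g * (P⁻¹ * (f * Q⁻¹))) ↔ o.lt ((g * P⁻¹) * (m * g⁻¹)⁻¹) ((g * P⁻¹) * (Q * f⁻¹)⁻¹) := o.cv hδ (1) e12 (by simp only [mul_assoc, mul_inv_rev, inv_inv, mul_inv_cancel_left, inv_mul_cancel_left, mul_inv_cancel, inv_mul_cancel, mul_one, one_mul, inv_one, C]) (by simp only [mul_assoc, mul_inv_rev, inv_inv, mul_inv_cancel_left, inv_mul_cancel_left, mul_inv_cancel, inv_mul_cancel, mul_one, one_mul, inv_one, C])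
  have k33 : o.lt (P * f⁻¹) (f * m⁻¹) ↔ o.lt (P * f⁻¹) (f * m⁻¹) := o.cv hδ (1) e19 (by simp only [mul_assoc, mul_inv_rev, inv_inv, mul_inv_cancel_left, inv_mul_cancel_left, mul_inv_cancel, inv_mul_cancel, mul_one, one_mul, inv_one, C]) (by simp only [mul_assoc, mul_inv_rev, inv_inv, mul_inv_cancel_left, inv_mul_cancel_left, mul_inv_cancel, inv_mul_cancel, mul_one, one_mul, inv_one, C])
  have k34 : o.lt (P * f⁻¹) (g * m⁻¹) ↔ o.lt (P * f⁻¹) (g * m⁻¹) := o.cv hδ (1) e20 (by simp only [mul_assoc, mul_inv_rev, inv_inv, mul_inv_cancel_left, inv_mul_cancel_left, mul_inv_cancel, inv_mul_cancel, mul_one, one_mul, inv_one, C]) (by simp only [mul_assoc, mul_inv_rev, inv_inv, mul_inv_cancel_left, inv_mul_cancel_left, mul_inv_cancel, inv_mul_cancel, mul_one, one_mul, inv_one, C])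
  have k35 : o.lt (g) (f) ↔ o.lt (g * m⁻¹) (f * m⁻¹) := o.cv hδ (m⁻¹) e0 (by simp only [mul_assoc, mul_inv_rev, inv_inv, mul_inv_cancel_left, inv_mul_cancel_left, mul_inv_cancel, inv_mul_cancel, mul_one, one_mul, inv_one, C]) (by simp only [mul_assoc, mul_inv_rev, inv_inv, mul_inv_cancel_left, inv_mul_cancel_left, mul_inv_cancel, inv_mul_cancel, mul_one, one_mul, inv_one, C])
  have k36 : o.lt (P * f⁻¹) (g * Q⁻¹) ↔ o.lt (P * f⁻¹) (g * Q⁻¹) := o.cv hδ (1) e21 (by simp only [mul_assoc, mul_inv_rev, inv_inv, mul_inv_cancel_left, inv_mul_cancel_left, mul_inv_cancel, inv_mul_cancel, mul_one, one_mul, inv_one, C]) (by simp only [mul_assoc, mul_inv_rev, inv_inv, mul_inv_cancel_left, inv_mul_cancel_left, mul_inv_cancel, inv_mul_cancel, mul_one, one_mul, inv_one, C])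
  have k37 : o.lt (P * f⁻¹) (P * g⁻¹) ↔ o.lt (P * f⁻¹) (P * g⁻¹) := o.cv hδ (1) e18 (by simp only [mul_assoc, mul_inv_rev, inv_inv, mul_inv_cancel_left, inv_mul_cancel_left, mul_inv_cancel, inv_mul_cancel, mul_one, one_mul, inv_one, C]) (by simp only [mul_assoc, mul_inv_rev, inv_inv, mul_inv_cancel_left, inv_mul_cancel_left, mul_inv_cancel, inv_mul_cancel, mul_one, one_mul, inv_one, C])
  have k38 : o.lt (P * g⁻¹) (g * Q⁻¹) ↔ o.lt (P * g⁻¹) (g * Q⁻¹) := o.cv hδ (1) e24 (by simp only [mul_assoc, mul_inv_rev, inv_inv, mul_inv_cancel_left, inv_mul_cancel_left, mul_inv_cancel, inv_mul_cancel, mul_one, one_mul, inv_one, C]) (by simp only [mul_assoc, mul_inv_rev, inv_inv, mul_inv_cancel_left, inv_mul_cancel_left, mul_inv_cancel, inv_mul_cancel, mul_one, one_mul, inv_one, C])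
  have k39 : o.lt (g * m⁻¹) (g * Q⁻¹) ↔ o.lt (g * m⁻¹) (g * Q⁻¹) := o.cv hδ (1) e27 (by simp only [mul_assoc, mul_inv_rev, inv_inv, mul_inv_cancel_left, inv_mul_cancel_left, mul_inv_cancel, inv_mul_cancel, mul_one, one_mul, inv_one, C]) (by simp only [mul_assoc, mul_inv_rev, inv_inv, mul_inv_cancel_left, inv_mul_cancel_left, mul_inv_cancel, inv_mul_cancel, mul_one, one_mul, inv_one, C])
  have k40 : o.lt (g * Q⁻¹) (P * g⁻¹) ↔ o.lt (g * Q⁻¹) (P * g⁻¹) := o.cv hδ (1) e31 (by simp only [mul_assoc, mul_inv_rev, inv_inv, mul_inv_cancel_left, inv_mul_cancel_left, mul_inv_cancel, inv_mul_cancel, mul_one, one_mul, inv_one, C]) (by simp only [mul_assoc, mul_inv_rev, inv_inv, mul_inv_cancel_left, inv_mul_cancel_left, mul_inv_cancel, inv_mul_cancel, mul_one, one_mul, inv_one, C])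
  have k41 : o.lt (P * g⁻¹) (Q * P⁻¹) ↔ o.lt (P * g⁻¹) (Q * P⁻¹) := o.cv hδ (1) e15 (by simp only [mul_assoc, mul_inv_rev, inv_inv, mul_inv_cancel_left, inv_mul_cancel_left, mul_inv_cancel, inv_mul_cancel, mul_one, one_mul, inv_one, C]) (by simp only [mul_assoc, mul_inv_rev, inv_inv, mul_inv_cancel_left, inv_mul_cancel_left, mul_inv_cancel, inv_mul_cancel, mul_one, one_mul, inv_one, C])
  have k42 : o.lt (P * g⁻¹) (m * P⁻¹) ↔ o.lt (P * g⁻¹) (m * P⁻¹) := o.cv hδ (1) e10 (by simp only [mul_assoc, mul_inv_rev, inv_inv, mul_inv_cancel_left, inv_mul_cancel_left, mul_inv_cancel, inv_mul_cancel, mul_one, one_mul, inv_one, C]) (by simp only [mul_assoc, mul_inv_rev, inv_inv, mul_inv_cancel_left, inv_mul_cancel_left, mul_inv_cancel, inv_mul_cancel, mul_one, one_mul, inv_one, C])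
  have k43 : o.lt (m * f⁻¹) (Q * f⁻¹) ↔ o.lt (m * P⁻¹) (Q * P⁻¹) := o.cv hδ (f * P⁻¹) e34 (by simp only [mul_assoc, mul_inv_rev, inv_inv, mul_inv_cancel_left, inv_mul_cancel_left, mul_inv_cancel, inv_mul_cancel, mul_one, one_mul, inv_one, C]) (by simp only [mul_assoc, mul_inv_rev, inv_inv, mul_inv_cancel_left, inv_mul_cancel_left, mul_inv_cancel, inv_mul_cancel, mul_one, one_mul, inv_one, C])
  have k44 : o.lt (g * m⁻¹) (f * Q⁻¹) ↔ o.lt (g * m⁻¹) (f * Q⁻¹) := o.cv hδ (1) e26 (by simp only [mul_assoc, mul_inv_rev, inv_inv, mul_inv_cancel_left, inv_mul_cancel_left, mul_inv_cancel, inv_mul_cancel, mul_one, one_mul, inv_one, C]) (by simp only [mul_assoc, mul_inv_rev, inv_inv, mul_inv_cancel_left, inv_mul_cancel_left, mul_inv_cancel, inv_mul_cancel, mul_one, one_mul, inv_one, C])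
  have k45 : o.lt (f * Q⁻¹) (g * m⁻¹) ↔ o.lt (f * Q⁻¹) (g * m⁻¹) := o.cv hδ (1) e30 (by simp only [mul_assoc, mul_inv_rev, inv_inv, mul_inv_cancel_left, inv_mul_cancel_left, mul_inv_cancel, inv_mul_cancel, mul_one, one_mul, inv_one, C]) (by simp only [mul_assoc, mul_inv_rev, inv_inv, mul_inv_cancel_left, inv_mul_cancel_left, mul_inv_cancel, inv_mul_cancel, mul_one, one_mul, inv_one, C])
  have k46 : o.lt (f) (g) ↔ o.lt (f * Q⁻¹) (g * Q⁻¹) := o.cv hδ (Q⁻¹) e2 (by simp only [mul_assoc, mul_inv_rev, inv_inv, mul_inv_cancel_left, inv_mul_cancel_left, mul_inv_cancel, inv_mul_cancel, mul_one, one_mul, inv_one, C]) (by simp only [mul_assoc, mul_inv_rev, inv_inv, mul_inv_cancel_left, inv_mul_cancel_left, mul_inv_cancel, inv_mul_cancel, mul_one, one_mul, inv_one, C])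
  have k47 : o.lt (f * Q⁻¹) (P * f⁻¹) ↔ o.lt (f * Q⁻¹) (P * f⁻¹) := o.cv hδ (1) e29 (by simp only [mul_assoc, mul_inv_rev, inv_inv, mul_inv_cancel_left, inv_mul_cancel_left, mul_inv_cancel, inv_mul_cancel, mul_one, one_mul, inv_one, C]) (by simp only [mul_assoc, mul_inv_rev, inv_inv, mul_inv_cancel_left, inv_mul_cancel_left, mul_inv_cancel, inv_mul_cancel, mul_one, one_mul, inv_one, C])
  have k48 : o.lt (m * f⁻¹) (f * P⁻¹) ↔ o.lt (m * P⁻¹) (P * f⁻¹) := o.cv hδ (f * P⁻¹) e33 (by simp only [mul_assoc, mul_inv_rev, inv_inv, mul_inv_cancel_left, inv_mul_cancel_left, mul_inv_cancel, inv_mul_cancel, mul_one, one_mul, inv_one, C]) (by simp only [mul_assoc, mul_inv_rev, inv_inv, mul_inv_cancel_left, inv_mul_cancel_left, mul_inv_cancel, inv_mul_cancel, mul_one, one_mul, inv_one, C])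
  have k49 : o.lt (Q * P⁻¹) (P * f⁻¹) ↔ o.lt (Q * P⁻¹) (P * f⁻¹) := o.cv hδ (1) e35 (by simp only [mul_assoc, mul_inv_rev, inv_inv, mul_inv_cancel_left, inv_mul_cancel_left, mul_inv_cancel, inv_mul_cancel, mul_one, one_mul, inv_one, C]) (by simp only [mul_assoc, mul_inv_rev, inv_inv, mul_inv_cancel_left, inv_mul_cancel_left, mul_inv_cancel, inv_mul_cancel, mul_one, one_mul, inv_one, C])
  have k50 : o.lt (m * g⁻¹) (g * P⁻¹) ↔ o.lt (m * P⁻¹) (P * g⁻¹) := o.cv hδ (g * P⁻¹) e4 (by simp only [mul_assoc, mul_inv_rev, inv_inv, mul_inv_cancel_left, inv_mul_cancel_left, mul_inv_cancel, inv_mul_cancel, mul_one, one_mul, inv_one, C]) (by simp only [mul_assoc, mul_inv_rev, inv_inv, mul_inv_cancel_left, inv_mul_cancel_left, mul_inv_cancel, inv_mul_cancel, mul_one, one_mul, inv_one, C])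
  have k51 : o.lt (Q * P⁻¹) (P * g⁻¹) ↔ o.lt (Q * P⁻¹) (P * g⁻¹) := o.cv hδ (1) e6 (by simp only [mul_assoc, mul_inv_rev, inv_inv, mul_inv_cancel_left, inv_mul_cancel_left, mul_inv_cancel, inv_mul_cancel, mul_one, one_mul, inv_one, C]) (by simp only [mul_assoc, mul_inv_rev, inv_inv, mul_inv_cancel_left, inv_mul_cancel_left, mul_inv_cancel, inv_mul_cancel, mul_one, one_mul, inv_one, C])
  have k52 : o.lt (Q * f⁻¹) (m * f⁻¹) ↔ o.lt (Q * P⁻¹) (m * P⁻¹) := o.cv hδ (f * P⁻¹) e36 (by simp only [mul_assoc, mul_inv_rev, inv_inv, mul_inv_cancel_left, inv_mul_cancel_left, mul_inv_cancel, inv_mul_cancel, mul_one, one_mul, inv_one, C]) (by simp only [mul_assoc, mul_inv_rev, inv_inv, mul_inv_cancel_left, inv_mul_cancel_left, mul_inv_cancel, inv_mul_cancel, mul_one, one_mul, inv_one, C])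
  have k53 : o.lt (g * P⁻¹) (m * f⁻¹) ↔ o.lt (g * P⁻¹) (m * f⁻¹) := o.cv hδ (1) e7 (by simp only [mul_assoc, mul_inv_rev, inv_inv, mul_inv_cancel_left, inv_mul_cancel_left, mul_inv_cancel, inv_mul_cancel, mul_one, one_mul, inv_one, C]) (by simp only [mul_assoc, mul_inv_rev, inv_inv, mul_inv_cancel_left, inv_mul_cancel_left, mul_inv_cancel, inv_mul_cancel, mul_one, one_mul, inv_one, C])
  have k54 : o.lt (m * f⁻¹) (g * P⁻¹) ↔ o.lt (m * f⁻¹) (g * P⁻¹) := o.cv hδ (1) e3 (by simp only [mul_assoc, mul_inv_rev, inv_inv, mul_inv_cancel_left, inv_mul_cancel_left, mul_inv_cancel, inv_mul_cancel, mul_one, one_mul, inv_one, C]) (by simp only [mul_assoc, mul_inv_rev, inv_inv, mul_inv_cancel_left, inv_mul_cancel_left, mul_inv_cancel, inv_mul_cancel, mul_one, one_mul, inv_one, C])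
  have k55 : o.lt (P * g⁻¹) (m * P⁻¹) ↔ o.lt (g * P⁻¹) (m * g⁻¹) := o.cv hδ (g * (P⁻¹ * (g * P⁻¹))) e10 (by simp only [mul_assoc, mul_inv_rev, inv_inv, mul_inv_cancel_left, inv_mul_cancel_left, mul_inv_cancel, inv_mul_cancel, mul_one, one_mul, inv_one, C]) (by simp only [mul_assoc, mul_inv_rev, inv_inv, mul_inv_cancel_left, inv_mul_cancel_left, mul_inv_cancel, inv_mul_cancel, mul_one, one_mul, inv_one, C])
  have k56 : o.lt (m * f⁻¹) (m * g⁻¹) ↔ o.lt (m * f⁻¹) (m * g⁻¹) := o.cv hδ (1) e39 (by simp only [mul_assoc, mul_inv_rev, inv_inv, mul_inv_cancel_left, inv_mul_cancel_left, mul_inv_cancel, inv_mul_cancel, mul_one, one_mul, inv_one, C]) (by simp only [mul_assoc, mul_inv_rev, inv_inv, mul_inv_cancel_left, inv_mul_cancel_left, mul_inv_cancel, inv_mul_cancel, mul_one, one_mul, inv_one, C])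
  have k57 : o.lt (g * P⁻¹) (Q * f⁻¹) ↔ o.lt (g * P⁻¹) (Q * f⁻¹) := o.cv hδ (1) e13 (by simp only [mul_assoc, mul_inv_rev, inv_inv, mul_inv_cancel_left, inv_mul_cancel_left, mul_inv_cancel, inv_mul_cancel, mul_one, one_mul, inv_one, C]) (by simp only [mul_assoc, mul_inv_rev, inv_inv, mul_inv_cancel_left, inv_mul_cancel_left, mul_inv_cancel, inv_mul_cancel, mul_one, one_mul, inv_one, C])
  have k58 : o.lt (m * g⁻¹) (Q * f⁻¹) ↔ o.lt (m * g⁻¹) (Q * f⁻¹) := o.cv hδ (1) e40 (by simp only [mul_assoc, mul_inv_rev, inv_inv, mul_inv_cancel_left, inv_mul_cancel_left, mul_inv_cancel, inv_mul_cancel, mul_one, one_mul, inv_one, C]) (by simp only [mul_assoc, mul_inv_rev, inv_inv, mul_inv_cancel_left, inv_mul_cancel_left, mul_inv_cancel, inv_mul_cancel, mul_one, one_mul, inv_one, C])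
  have k59 : o.lt (m * g⁻¹) (g * P⁻¹) ↔ o.lt (m * g⁻¹) (g * P⁻¹) := o.cv hδ (1) e4 (by simp only [mul_assoc, mul_inv_rev, inv_inv, mul_inv_cancel_left, inv_mul_cancel_left, mul_inv_cancel, inv_mul_cancel, mul_one, one_mul, inv_one, C]) (by simp only [mul_assoc, mul_inv_rev, inv_inv, mul_inv_cancel_left, inv_mul_cancel_left, mul_inv_cancel, inv_mul_cancel, mul_one, one_mul, inv_one, C])
  have k60 : o.lt (m * f⁻¹) (Q * f⁻¹) ↔ o.lt (m * g⁻¹) (Q * g⁻¹) := o.cv hδ (f * g⁻¹) e34 (by simp only [mul_assoc, mul_inv_rev, inv_inv, mul_inv_cancel_left, inv_mul_cancel_left, mul_inv_cancel, inv_mul_cancel, mul_one, one_mul, inv_one, C]) (by simp only [mul_assoc, mul_inv_rev, inv_inv, mul_inv_cancel_left, inv_mul_cancel_left, mul_inv_cancel, inv_mul_cancel, mul_one, one_mul, inv_one, C])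
  have k61 : o.lt (Q * g⁻¹) (Q * f⁻¹) ↔ o.lt (Q * g⁻¹) (Q * f⁻¹) := o.cv hδ (1) e42 (by simp only [mul_assoc, mul_inv_rev, inv_inv, mul_inv_cancel_left, inv_mul_cancel_left, mul_inv_cancel, inv_mul_cancel, mul_one, one_mul, inv_one, C]) (by simp only [mul_assoc, mul_inv_rev, inv_inv, mul_inv_cancel_left, inv_mul_cancel_left, mul_inv_cancel, inv_mul_cancel, mul_one, one_mul, inv_one, C])
  have k62 : o.lt (Q * P⁻¹) (P * f⁻¹) ↔ o.lt (Q * f⁻¹) (f * P⁻¹) := o.cv hδ (P * f⁻¹) e35 (by simp only [mul_assoc, mul_inv_rev, inv_inv, mul_inv_cancel_left, inv_mul_cancel_left, mul_inv_cancel, inv_mul_cancel, mul_one, one_mul, inv_one, C]) (by simp only [mul_assoc, mul_inv_rev, inv_inv, mul_inv_cancel_left, inv_mul_cancel_left, mul_inv_cancel, inv_mul_cancel, mul_one, one_mul, inv_one, C])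
  have k63 : o.lt (Q * f⁻¹) (g * P⁻¹) ↔ o.lt (Q * f⁻¹) (g * P⁻¹) := o.cv hδ (1) e5 (by simp only [mul_assoc, mul_inv_rev, inv_inv, mul_inv_cancel_left, inv_mul_cancel_left, mul_inv_cancel, inv_mul_cancel, mul_one, one_mul, inv_one, C]) (by simp only [mul_assoc, mul_inv_rev, inv_inv, mul_inv_cancel_left, inv_mul_cancel_left, mul_inv_cancel, inv_mul_cancel, mul_one, one_mul, inv_one, C])
  have k64 : o.lt (g) (f) ↔ o.lt (g * P⁻¹) (f * P⁻¹) := o.cv hδ (P⁻¹) e0 (by simp only [mul_assoc, mul_inv_rev, inv_inv, mul_inv_cancel_left, inv_mul_cancel_left, mul_inv_cancel, inv_mul_cancel, mul_one, one_mul, inv_one, C]) (by simp only [mul_assoc, mul_inv_rev, inv_inv, mul_inv_cancel_left, inv_mul_cancel_left, mul_inv_cancel, inv_mul_cancel, mul_one, one_mul, inv_one, C])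
  have k65 : o.lt (f * Q⁻¹) (P * f⁻¹) ↔ o.lt (Q * f⁻¹) (P * Q⁻¹) := o.cv hδ (Q * (f⁻¹ * (Q * f⁻¹))) e29 (by simp only [mul_assoc, mul_inv_rev, inv_inv, mul_inv_cancel_left, inv_mul_cancel_left, mul_inv_cancel, inv_mul_cancel, mul_one, one_mul, inv_one, C]) (by simp only [mul_assoc, mul_inv_rev, inv_inv, mul_inv_cancel_left, inv_mul_cancel_left, mul_inv_cancel, inv_mul_cancel, mul_one, one_mul, inv_one, C])
  have k66 : o.lt (Q * f⁻¹) (Q * g⁻¹) ↔ o.lt (Q * f⁻¹) (Q * g⁻¹) := o.cv hδ (1) e41 (by simp only [mul_assoc, mul_inv_rev, inv_inv, mul_inv_cancel_left, inv_mul_cancel_left, mul_inv_cancel, inv_mul_cancel, mul_one, one_mul, inv_one, C]) (by simp only [mul_assoc, mul_inv_rev, inv_inv, mul_inv_cancel_left, inv_mul_cancel_left, mul_inv_cancel, inv_mul_cancel, mul_one, one_mul, inv_one, C])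
  have k67 : o.lt (g * Q⁻¹) (P * g⁻¹) ↔ o.lt (Q * g⁻¹) (P * Q⁻¹) := o.cv hδ (Q * (g⁻¹ * (Q * g⁻¹))) e31 (by simp only [mul_assoc, mul_inv_rev, inv_inv, mul_inv_cancel_left, inv_mul_cancel_left, mul_inv_cancel, inv_mul_cancel, mul_one, one_mul, inv_one, C]) (by simp only [mul_assoc, mul_inv_rev, inv_inv, mul_inv_cancel_left, inv_mul_cancel_left, mul_inv_cancel, inv_mul_cancel, mul_one, one_mul, inv_one, C])
  have k68 : o.lt (P * g⁻¹) (g * m⁻¹) ↔ o.lt (P * m⁻¹) (m * g⁻¹) := o.cv hδ (g * m⁻¹) e23 (by simp only [mul_assoc, mul_inv_rev, inv_inv, mul_inv_cancel_left, inv_mul_cancel_left, mul_inv_cancel, inv_mul_cancel, mul_one, one_mul, inv_one, C]) (by simp only [mul_assoc, mul_inv_rev, inv_inv, mul_inv_cancel_left, inv_mul_cancel_left, mul_inv_cancel, inv_mul_cancel, mul_one, one_mul, inv_one, C])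
  have k69 : o.lt (P * f⁻¹) (f * m⁻¹) ↔ o.lt (P * m⁻¹) (m * f⁻¹) := o.cv hδ (f * m⁻¹) e19 (by simp only [mul_assoc, mul_inv_rev, inv_inv, mul_inv_cancel_left, inv_mul_cancel_left, mul_inv_cancel, inv_mul_cancel, mul_one, one_mul, inv_one, C]) (by simp only [mul_assoc, mul_inv_rev, inv_inv, mul_inv_cancel_left, inv_mul_cancel_left, mul_inv_cancel, inv_mul_cancel, mul_one, one_mul, inv_one, C])
  have k70 : o.lt (g * (P⁻¹ * (g * m⁻¹))) (g * (P⁻¹ * (f * m⁻¹))) ↔ o.lt (P * (g⁻¹ * (P * f⁻¹))) (g * P⁻¹) := o.cv hδ (m * (g⁻¹ * (P * (g⁻¹ * (P * (g⁻¹ * (P * f⁻¹))))))) e11 (by simp only [mul_assoc, mul_inv_rev, inv_inv, mul_inv_cancel_left, inv_mul_cancel_left, mul_inv_cancel, inv_mul_cancel, mul_one, one_mul, inv_one, C]) (by simp only [mul_assoc, mul_inv_rev, inv_inv, mul_inv_cancel_left, inv_mul_cancel_left, mul_inv_cancel, inv_mul_cancel, mul_one, one_mul, inv_one, C])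
  have k71 : o.lt (P * g⁻¹) (P * f⁻¹) ↔ o.lt (P * (g⁻¹ * (P * f⁻¹))) (f * P⁻¹) := o.cv hδ (P * f⁻¹) e22 (by simp only [mul_assoc, mul_inv_rev, inv_inv, mul_inv_cancel_left, inv_mul_cancel_left, mul_inv_cancel, inv_mul_cancel, mul_one, one_mul, inv_one, C]) (by simp only [mul_assoc, mul_inv_rev, inv_inv, mul_inv_cancel_left, inv_mul_cancel_left, mul_inv_cancel, inv_mul_cancel, mul_one, one_mul, inv_one, C])
  have k72 : o.lt (f) (g) ↔ o.lt (f * P⁻¹) (g * P⁻¹) := o.cv hδ (P⁻¹) e2 (by simp only [mul_assoc, mul_inv_rev, inv_inv, mul_inv_cancel_left, inv_mul_cancel_left, mul_inv_cancel, inv_mul_cancel, mul_one, one_mul, inv_one, C]) (by simp only [mul_assoc, mul_inv_rev, inv_inv, mul_inv_cancel_left, inv_mul_cancel_left, mul_inv_cancel, inv_mul_cancel, mul_one, one_mul, inv_one, C])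
  have k73 : o.lt (g * (P⁻¹ * f)) (g * (P⁻¹ * g)) ↔ o.lt (g * P⁻¹) (P * (g⁻¹ * (P * f⁻¹))) := o.cv hδ (f⁻¹) e8 (by simp only [mul_assoc, mul_inv_rev, inv_inv, mul_inv_cancel_left, inv_mul_cancel_left, mul_inv_cancel, inv_mul_cancel, mul_one, one_mul, inv_one, C]) (by simp only [mul_assoc, mul_inv_rev, inv_inv, mul_inv_cancel_left, inv_mul_cancel_left, mul_inv_cancel, inv_mul_cancel, mul_one, one_mul, inv_one, C])
  have k74 : o.lt (P * f⁻¹) (P * g⁻¹) ↔ o.lt (f * P⁻¹) (P * (g⁻¹ * (P * f⁻¹))) := o.cv hδ (f * (P⁻¹ * (f * P⁻¹))) e18 (by simp only [mul_assoc, mul_inv_rev, inv_inv, mul_inv_cancel_left, inv_mul_cancel_left, mul_inv_cancel, inv_mul_cancel, mul_one, one_mul, inv_one, C]) (by simp only [mul_assoc, mul_inv_rev, inv_inv, mul_inv_cancel_left, inv_mul_cancel_left, mul_inv_cancel, inv_mul_cancel, mul_one, one_mul, inv_one, C])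
  have k75 : o.lt (g * f⁻¹) (g * (P⁻¹ * (f * m⁻¹))) ↔ o.lt (g * f⁻¹) (g * (P⁻¹ * (f * m⁻¹))) := o.cv hδ (1) e1 (by simp only [mul_assoc, mul_inv_rev, inv_inv, mul_inv_cancel_left, inv_mul_cancel_left, mul_inv_cancel, inv_mul_cancel, mul_one, one_mul, inv_one, C]) (by simp only [mul_assoc, mul_inv_rev, inv_inv, mul_inv_cancel_left, inv_mul_cancel_left, mul_inv_cancel, inv_mul_cancel, mul_one, one_mul, inv_one, C])
  have k76 : o.lt (g) (f) ↔ o.lt (g * f⁻¹) (1) := o.cv hδ (f⁻¹) e0 (by simp only [mul_assoc, mul_inv_rev, inv_inv, mul_inv_cancel_left, inv_mul_cancel_left, mul_inv_cancel, inv_mul_cancel, mul_one, one_mul, inv_one, C]) (by simp only [mul_assoc, mul_inv_rev, inv_inv, mul_inv_cancel_left, inv_mul_cancel_left, mul_inv_cancel, inv_mul_cancel, mul_one, one_mul, inv_one, C])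
  have k77 : o.lt (m * f⁻¹) (g * P⁻¹) ↔ o.lt (1) (g * (P⁻¹ * (f * m⁻¹))) := o.cv hδ (f * m⁻¹) e3 (by simp only [mul_assoc, mul_inv_rev, inv_inv, mul_inv_cancel_left, inv_mul_cancel_left, mul_inv_cancel, inv_mul_cancel, mul_one, one_mul, inv_one, C]) (by simp only [mul_assoc, mul_inv_rev, inv_inv, mul_inv_cancel_left, inv_mul_cancel_left, mul_inv_cancel, inv_mul_cancel, mul_one, one_mul, inv_one, C])
  have k78 : o.lt (Q * P⁻¹) (P * g⁻¹) ↔ o.lt (1) (g * (P⁻¹ * (g * Q⁻¹))) := o.cv hδ (P * Q⁻¹) e6 (by simp only [mul_assoc, mul_inv_rev, inv_inv, mul_inv_cancel_left, inv_mul_cancel_left, mul_inv_cancel, inv_mul_cancel, mul_one, one_mul, inv_one, C]) (by simp only [mul_assoc, mul_inv_rev, inv_inv, mul_inv_cancel_left, inv_mul_cancel_left, mul_inv_cancel, inv_mul_cancel, mul_one, one_mul, inv_one, C])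
  have k79 : o.lt (Q * f⁻¹) (g * P⁻¹) ↔ o.lt (1) (g * (P⁻¹ * (f * Q⁻¹))) := o.cv hδ (f * Q⁻¹) e5 (by simp only [mul_assoc, mul_inv_rev, inv_inv, mul_inv_cancel_left, inv_mul_cancel_left, mul_inv_cancel, inv_mul_cancel, mul_one, one_mul, inv_one, C]) (by simp only [mul_assoc, mul_inv_rev, inv_inv, mul_inv_cancel_left, inv_mul_cancel_left, mul_inv_cancel, inv_mul_cancel, mul_one, one_mul, inv_one, C])
  have k80 : o.lt (g * (P⁻¹ * f)) (g * (P⁻¹ * g)) ↔ o.lt (g * (P⁻¹ * (f * Q⁻¹))) (g * (P⁻¹ * (g * Q⁻¹))) := o.cv hδ (Q⁻¹) e8 (by simp only [mul_assoc, mul_inv_rev, inv_inv, mul_inv_cancel_left, inv_mul_cancel_left, mul_inv_cancel, inv_mul_cancel, mul_one, one_mul, inv_one, C]) (by simp only [mul_assoc, mul_inv_rev, inv_inv, mul_inv_cancel_left, inv_mul_cancel_left, mul_inv_cancel, inv_mul_cancel, mul_one, one_mul, inv_one, C])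
  have k81 : o.lt (P * g⁻¹) (m * P⁻¹) ↔ o.lt (g * (P⁻¹ * (g * m⁻¹))) (1) := o.cv hδ (g * (P⁻¹ * (g * (P⁻¹ * (g * m⁻¹))))) e10 (by simp only [mul_assoc, mul_inv_rev, inv_inv, mul_inv_cancel_left, inv_mul_cancel_left, mul_inv_cancel, inv_mul_cancel, mul_one, one_mul, inv_one, C]) (by simp only [mul_assoc, mul_inv_rev, inv_inv, mul_inv_cancel_left, inv_mul_cancel_left, mul_inv_cancel, inv_mul_cancel, mul_one, one_mul, inv_one, C])
  have k82 : o.lt (g * (P⁻¹ * (g * m⁻¹))) (g * f⁻¹) ↔ o.lt (g * (P⁻¹ * (g * m⁻¹))) (g * f⁻¹) := o.cv hδ (1) e9 (by simp only [mul_assoc, mul_inv_rev, inv_inv, mul_inv_cancel_left, inv_mul_cancel_left, mul_inv_cancel, inv_mul_cancel, mul_one, one_mul, inv_one, C]) (by simp only [mul_assoc, mul_inv_rev, inv_inv, mul_inv_cancel_left, inv_mul_cancel_left, mul_inv_cancel, inv_mul_cancel, mul_one, one_mul, inv_one, C])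
  have k83 : o.lt (g * (P⁻¹ * (g * m⁻¹))) (g * (P⁻¹ * (f * Q⁻¹))) ↔ o.lt (g * (P⁻¹ * (g * m⁻¹))) (g * (P⁻¹ * (f * Q⁻¹))) := o.cv hδ (1) e12 (by simp only [mul_assoc, mul_inv_rev, inv_inv, mul_inv_cancel_left, inv_mul_cancel_left, mul_inv_cancel, inv_mul_cancel, mul_one, one_mul, inv_one, C]) (by simp only [mul_assoc, mul_inv_rev, inv_inv, mul_inv_cancel_left, inv_mul_cancel_left, mul_inv_cancel, inv_mul_cancel, mul_one, one_mul, inv_one, C])
  have k84 : o.lt (g * (P⁻¹ * (f * Q⁻¹))) (g * (P⁻¹ * (g * m⁻¹))) ↔ o.lt (g * (P⁻¹ * (f * Q⁻¹))) (g * (P⁻¹ * (g * m⁻¹))) := o.cv hδ (1) e14 (by simp only [mul_assoc, mul_inv_rev, inv_inv, mul_inv_cancel_left, inv_mul_cancel_left, mul_inv_cancel, inv_mul_cancel, mul_one, one_mul, inv_one, C]) (by simp only [mul_assoc, mul_inv_rev, inv_inv, mul_inv_cancel_left, inv_mul_cancel_left, mul_inv_cancel, inv_mul_cancel, mul_one, one_mul, inv_one, C])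
  have k85 : o.lt (g * P⁻¹) (Q * f⁻¹) ↔ o.lt (g * (P⁻¹ * (f * Q⁻¹))) (1) := o.cv hδ (f * Q⁻¹) e13 (by simp only [mul_assoc, mul_inv_rev, inv_inv, mul_inv_cancel_left, inv_mul_cancel_left, mul_inv_cancel, inv_mul_cancel, mul_one, one_mul, inv_one, C]) (by simp only [mul_assoc, mul_inv_rev, inv_inv, mul_inv_cancel_left, inv_mul_cancel_left, mul_inv_cancel, inv_mul_cancel, mul_one, one_mul, inv_one, C])
  have k86 : o.lt (m * g⁻¹) (g * P⁻¹) ↔ o.lt (1) (g * (P⁻¹ * (g * m⁻¹))) := o.cv hδ (g * m⁻¹) e4 (by simp only [mul_assoc, mul_inv_rev, inv_inv, mul_inv_cancel_left, inv_mul_cancel_left, mul_inv_cancel, inv_mul_cancel, mul_one, one_mul, inv_one, C]) (by simp only [mul_assoc, mul_inv_rev, inv_inv, mul_inv_cancel_left, inv_mul_cancel_left, mul_inv_cancel, inv_mul_cancel, mul_one, one_mul, inv_one, C])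
  have k87 : o.lt (P * g⁻¹) (g * (P⁻¹ * (m * f⁻¹))) ↔ o.lt (P * g⁻¹) (g * (P⁻¹ * (m * f⁻¹))) := o.cv hδ (1) e25 (by simp only [mul_assoc, mul_inv_rev, inv_inv, mul_inv_cancel_left, inv_mul_cancel_left, mul_inv_cancel, inv_mul_cancel, mul_one, one_mul, inv_one, C]) (by simp only [mul_assoc, mul_inv_rev, inv_inv, mul_inv_cancel_left, inv_mul_cancel_left, mul_inv_cancel, inv_mul_cancel, mul_one, one_mul, inv_one, C])
  have k88 : o.lt (P * g⁻¹) (g * m⁻¹) ↔ o.lt (P * g⁻¹) (g * m⁻¹) := o.cv hδ (1) e23 (by simp only [mul_assoc, mul_inv_rev, inv_inv, mul_inv_cancel_left, inv_mul_cancel_left, mul_inv_cancel, inv_mul_cancel, mul_one, one_mul, inv_one, C]) (by simp only [mul_assoc, mul_inv_rev, inv_inv, mul_inv_cancel_left, inv_mul_cancel_left, mul_inv_cancel, inv_mul_cancel, mul_one, one_mul, inv_one, C])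
  have k89 : o.lt (g * f⁻¹) (g * (P⁻¹ * (f * m⁻¹))) ↔ o.lt (g * m⁻¹) (g * (P⁻¹ * (m * f⁻¹))) := o.cv hδ (f * m⁻¹) e1 (by simp only [mul_assoc, mul_inv_rev, inv_inv, mul_inv_cancel_left, inv_mul_cancel_left, mul_inv_cancel, inv_mul_cancel, mul_one, one_mul, inv_one, C]) (by simp only [mul_assoc, mul_inv_rev, inv_inv, mul_inv_cancel_left, inv_mul_cancel_left, mul_inv_cancel, inv_mul_cancel, mul_one, one_mul, inv_one, C])
  have k90 : o.lt (g * (P⁻¹ * (m * g⁻¹))) (g * Q⁻¹) ↔ o.lt (g * (P⁻¹ * (m * g⁻¹))) (g * Q⁻¹) := o.cv hδ (1) e37 (by simp only [mul_assoc, mul_inv_rev, inv_inv, mul_inv_cancel_left, inv_mul_cancel_left, mul_inv_cancel, inv_mul_cancel, mul_one, one_mul, inv_one, C]) (by simp only [mul_assoc, mul_inv_rev, inv_inv, mul_inv_cancel_left, inv_mul_cancel_left, mul_inv_cancel, inv_mul_cancel, mul_one, one_mul, inv_one, C])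
  have k91 : o.lt (g * (P⁻¹ * (m * f⁻¹))) (g * (P⁻¹ * (Q * f⁻¹))) ↔ o.lt (g * (P⁻¹ * (m * g⁻¹))) (g * (P⁻¹ * (Q * g⁻¹))) := o.cv hδ (f * g⁻¹) e16 (by simp only [mul_assoc, mul_inv_rev, inv_inv, mul_inv_cancel_left, inv_mul_cancel_left, mul_inv_cancel, inv_mul_cancel, mul_one, one_mul, inv_one, C]) (by simp only [mul_assoc, mul_inv_rev, inv_inv, mul_inv_cancel_left, inv_mul_cancel_left, mul_inv_cancel, inv_mul_cancel, mul_one, one_mul, inv_one, C])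
  have k92 : o.lt (P * g⁻¹) (Q * P⁻¹) ↔ o.lt (g * (P⁻¹ * (Q * g⁻¹))) (g * Q⁻¹) := o.cv hδ (g * (P⁻¹ * (g * (P⁻¹ * (Q * g⁻¹))))) e15 (by simp only [mul_assoc, mul_inv_rev, inv_inv, mul_inv_cancel_left, inv_mul_cancel_left, mul_inv_cancel, inv_mul_cancel, mul_one, one_mul, inv_one, C]) (by simp only [mul_assoc, mul_inv_rev, inv_inv, mul_inv_cancel_left, inv_mul_cancel_left, mul_inv_cancel, inv_mul_cancel, mul_one, one_mul, inv_one, C])
  have k93 : o.lt (m * g⁻¹) (g * P⁻¹) ↔ o.lt (g * m⁻¹) (g * (P⁻¹ * (m * g⁻¹))) := o.cv hδ (g * (m⁻¹ * (g * m⁻¹))) e4 (by simp only [mul_assoc, mul_inv_rev, inv_inv, mul_inv_cancel_left, inv_mul_cancel_left, mul_inv_cancel, inv_mul_cancel, mul_one, one_mul, inv_one, C]) (by simp only [mul_assoc, mul_inv_rev, inv_inv, mul_inv_cancel_left, inv_mul_cancel_left, mul_inv_cancel, inv_mul_cancel, mul_one, one_mul, inv_one, C])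
  have k94 : o.lt (g * m⁻¹) (g * (P⁻¹ * (Q * g⁻¹))) ↔ o.lt (g * m⁻¹) (g * (P⁻¹ * (Q * g⁻¹))) := o.cv hδ (1) e28 (by simp only [mul_assoc, mul_inv_rev, inv_inv, mul_inv_cancel_left, inv_mul_cancel_left, mul_inv_cancel, inv_mul_cancel, mul_one, one_mul, inv_one, C]) (by simp only [mul_assoc, mul_inv_rev, inv_inv, mul_inv_cancel_left, inv_mul_cancel_left, mul_inv_cancel, inv_mul_cancel, mul_one, one_mul, inv_one, C])
  have k95 : o.lt (g * (P⁻¹ * (Q * f⁻¹))) (g * (P⁻¹ * (m * f⁻¹))) ↔ o.lt (g * (P⁻¹ * (Q * g⁻¹))) (g * (P⁻¹ * (m * g⁻¹))) := o.cv hδ (f * g⁻¹) e17 (by simp only [mul_assoc, mul_inv_rev, inv_inv, mul_inv_cancel_left, inv_mul_cancel_left, mul_inv_cancel, inv_mul_cancel, mul_one, one_mul, inv_one, C]) (by simp only [mul_assoc, mul_inv_rev, inv_inv, mul_inv_cancel_left, inv_mul_cancel_left, mul_inv_cancel, inv_mul_cancel, mul_one, one_mul, inv_one, C])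
  have k96 : o.lt (g * (P⁻¹ * (Q * g⁻¹))) (g * m⁻¹) ↔ o.lt (g * (P⁻¹ * (Q * g⁻¹))) (g * m⁻¹) := o.cv hδ (1) e38 (by simp only [mul_assoc, mul_inv_rev, inv_inv, mul_inv_cancel_left, inv_mul_cancel_left, mul_inv_cancel, inv_mul_cancel, mul_one, one_mul, inv_one, C]) (by simp only [mul_assoc, mul_inv_rev, inv_inv, mul_inv_cancel_left, inv_mul_cancel_left, mul_inv_cancel, inv_mul_cancel, mul_one, one_mul, inv_one, C])
  have k97 : o.lt (Q * P⁻¹) (P * g⁻¹) ↔ o.lt (g * Q⁻¹) (g * (P⁻¹ * (Q * g⁻¹))) := o.cv hδ (P * (Q⁻¹ * (g * Q⁻¹))) e6 (by simp only [mul_assoc, mul_inv_rev, inv_inv, mul_inv_cancel_left, inv_mul_cancel_left, mul_inv_cancel, inv_mul_cancel, mul_one, one_mul, inv_one, C]) (by simp only [mul_assoc, mul_inv_rev, inv_inv, mul_inv_cancel_left, inv_mul_cancel_left, mul_inv_cancel, inv_mul_cancel, mul_one, one_mul, inv_one, C])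
  have k98 : o.lt (g * Q⁻¹) (g * m⁻¹) ↔ o.lt (g * Q⁻¹) (g * m⁻¹) := o.cv hδ (1) e32 (by simp only [mul_assoc, mul_inv_rev, inv_inv, mul_inv_cancel_left, inv_mul_cancel_left, mul_inv_cancel, inv_mul_cancel, mul_one, one_mul, inv_one, C]) (by simp only [mul_assoc, mul_inv_rev, inv_inv, mul_inv_cancel_left, inv_mul_cancel_left, mul_inv_cancel, inv_mul_cancel, mul_one, one_mul, inv_one, C])
  have k99 : o.lt (Q * f⁻¹) (g * P⁻¹) ↔ o.lt ((f * Q⁻¹)⁻¹) ((P * g⁻¹)⁻¹) := o.cv hδ (1) e5 (by simp only [mul_assoc, mul_inv_rev, inv_inv, mul_inv_cancel_left, inv_mul_cancel_left, mul_inv_cancel, inv_mul_cancel, mul_one, one_mul, inv_one, C]) (by simp only [mul_assoc, mul_inv_rev, inv_inv, mul_inv_cancel_left, inv_mul_cancel_left, mul_inv_cancel, inv_mul_cancel, mul_one, one_mul, inv_one, C])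
  have k100 : o.lt (g) (f) ↔ o.lt (g) (f) := o.cv hδ (1) e0 (by simp only [mul_assoc, mul_inv_rev, inv_inv, mul_inv_cancel_left, inv_mul_cancel_left, mul_inv_cancel, inv_mul_cancel, mul_one, one_mul, inv_one, C]) (by simp only [mul_assoc, mul_inv_rev, inv_inv, mul_inv_cancel_left, inv_mul_cancel_left, mul_inv_cancel, inv_mul_cancel, mul_one, one_mul, inv_one, C])
  exact ser_BEB_1_prop
    (fun b0 b1 b2 b3 => N0.d.r0 1 (fun h => b0 (k0.2 h)) (fun h => b1 (k1.2 h)) (k2.1 b2) (fun h => b3 (k3.2 h)))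
    (fun b0 b1 b2 b3 => N0.i.r1 1 (fun h => b0 (k4.2 h)) (k5.1 b1) (fun h => b2 (k6.2 h)) (fun h => b3 (k7.2 h)))
    (fun b0 b1 b2 b3 => N0.rd.r0 1 (fun h => b0 (k8.2 h)) (fun h => b1 (k9.2 h)) (k10.1 b2) (fun h => b3 (k7.2 h)))
    (fun b0 b1 b2 => N1.i.r0 1 (k11.1 b0) (fun h => b1 (k12.2 h)) (fun h => b2 (k13.2 h)))
    (fun b0 b1 b2 => N1.i.r1 1 (fun h => b0 (k14.2 h)) (k15.1 b1) (fun h => b2 (k12.2 h)))
    (fun b0 b1 b2 => N1.d.r1 1 (fun h => b0 (k11.2 h)) (k16.1 b1) (fun h => b2 (k17.2 h)))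
    (fun b0 b1 b2 => N1.rd.r1 1 (fun h => b0 (k18.2 h)) (k10.1 b1) (fun h => b2 (k19.2 h)))
    (fun b0 b1 b2 => N1.i.r2 1 (fun h => b0 (k10.2 h)) (fun h => b1 (k20.2 h)) (k17.1 b2))
    (fun b0 b1 b2 b3 => N0.d.r0 (g * P⁻¹) (fun h => b0 (k21.2 h)) (fun h => b1 (k22.2 h)) (k23.1 b2) (fun h => b3 (k24.2 h)))
    (fun b0 b1 b2 b3 => N0.d.r1 (g * P⁻¹) (fun h => b0 (k23.2 h)) (k25.1 b1) (fun h => b2 (k26.2 h)) (fun h => b3 (k24.2 h)))
    (fun b0 b1 b2 => N1.i.r0 (g * P⁻¹) (k27.1 b0) (fun h => b1 (k28.2 h)) (fun h => b2 (k29.2 h)))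
    (fun b0 b1 b2 => N1.d.r0 (g * P⁻¹) (k30.1 b0) (fun h => b1 (k31.2 h)) (fun h => b2 (k32.2 h)))
    (fun b0 b1 b2 => o.tri (k33.1 b0) (fun h => b1 (k34.2 h)) (fun h => b2 (k35.2 h)))
    (fun b0 b1 b2 => o.tri (k36.1 b0) (fun h => b1 (k37.2 h)) (fun h => b2 (k38.2 h)))
    (fun b0 b1 b2 => o.tri (k36.1 b0) (fun h => b1 (k34.2 h)) (fun h => b2 (k39.2 h)))
    (fun b0 b1 => o.asym (k38.1 b0) (k40.1 b1))
    (fun b0 b1 b2 => o.tri (k41.1 b0) (fun h => b1 (k42.2 h)) (fun h => b2 (k43.2 h)))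
    (fun b0 b1 => o.asym (k44.1 b0) (k45.1 b1))
    (fun b0 b1 b2 => o.tri (k39.1 b0) (fun h => b1 (k44.2 h)) (fun h => b2 (k46.2 h)))
    (fun b0 b1 b2 => o.tri (k45.1 b0) (fun h => b1 (k47.2 h)) (fun h => b2 (k34.2 h)))
    (fun b0 b1 b2 => o.tri (k48.1 b0) (fun h => b1 (k43.2 h)) (fun h => b2 (k49.2 h)))
    (fun b0 b1 b2 => o.tri (k50.1 b0) (fun h => b1 (k43.2 h)) (fun h => b2 (k51.2 h)))
    (fun b0 b1 => o.asym (k43.1 b0) (k52.1 b1))
    (fun b0 b1 => o.asym (k53.1 b0) (k54.1 b1))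
    (fun b0 b1 b2 => o.tri (k55.1 b0) (fun h => b1 (k53.2 h)) (fun h => b2 (k56.2 h)))
    (fun b0 b1 b2 => o.tri (k57.1 b0) (fun h => b1 (k55.2 h)) (fun h => b2 (k58.2 h)))
    (fun b0 b1 b2 => o.tri (k54.1 b0) (fun h => b1 (k56.2 h)) (fun h => b2 (k59.2 h)))
    (fun b0 b1 b2 => o.tri (k58.1 b0) (fun h => b1 (k60.2 h)) (fun h => b2 (k61.2 h)))
    (fun b0 b1 b2 => o.tri (k62.1 b0) (fun h => b1 (k63.2 h)) (fun h => b2 (k64.2 h)))
    (fun b0 b1 b2 => o.tri (k65.1 b0) (fun h => b1 (k66.2 h)) (fun h => b2 (k67.2 h)))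
    (fun b0 b1 b2 => o.tri (k68.1 b0) (fun h => b1 (k69.2 h)) (fun h => b2 (k56.2 h)))
    (fun b0 b1 b2 => o.tri (k70.1 b0) (fun h => b1 (k71.2 h)) (fun h => b2 (k72.2 h)))
    (fun b0 b1 b2 => o.tri (k73.1 b0) (fun h => b1 (k64.2 h)) (fun h => b2 (k74.2 h)))
    (fun b0 b1 b2 => o.tri (k75.1 b0) (fun h => b1 (k76.2 h)) (fun h => b2 (k77.2 h)))
    (fun b0 b1 b2 => o.tri (k78.1 b0) (fun h => b1 (k79.2 h)) (fun h => b2 (k80.2 h)))
    (fun b0 b1 b2 => o.tri (k81.1 b0) (fun h => b1 (k82.2 h)) (fun h => b2 (k76.2 h)))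
    (fun b0 b1 b2 => o.tri (k83.1 b0) (fun h => b1 (k81.2 h)) (fun h => b2 (k79.2 h)))
    (fun b0 b1 b2 => o.tri (k84.1 b0) (fun h => b1 (k85.2 h)) (fun h => b2 (k86.2 h)))
    (fun b0 b1 b2 => o.tri (k87.1 b0) (fun h => b1 (k88.2 h)) (fun h => b2 (k89.2 h)))
    (fun b0 b1 b2 => o.tri (k90.1 b0) (fun h => b1 (k91.2 h)) (fun h => b2 (k92.2 h)))
    (fun b0 b1 b2 => o.tri (k93.1 b0) (fun h => b1 (k94.2 h)) (fun h => b2 (k95.2 h)))
    (fun b0 b1 => o.asym (k94.1 b0) (k96.1 b1))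
    (fun b0 b1 b2 => o.tri (k94.1 b0) (fun h => b1 (k39.2 h)) (fun h => b2 (k97.2 h)))
    (fun b0 b1 b2 => o.tri (k39.1 b0) (fun h => b1 (k93.2 h)) (fun h => b2 (k90.2 h)))
    (fun b0 b1 b2 => o.tri (k98.1 b0) (fun h => b1 (k97.2 h)) (fun h => b2 (k96.2 h)))
    (fun h => g0 (k37.1 h))
    (k36.2 g1)
    (fun h => g2 (k99.1 h))
    (fun h => g3 (k100.1 h))

theorem ser_CEC_0_prop {A1 A2 A3 A4 A5 A6 A7 A8 A9 A10 A11 A12 A13 A14 A15 A16 A17 A18 A19 A20 A21 A22 A23 A24 A25 A26 A27 A28 A29 A30 A31 A32 A33 : Prop}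
    (c0 : ¬ A19 → A18 → ¬ A20 → ¬ A1 → False)
    (c1 : A6 → ¬ A31 → ¬ A17 → False)
    (c2 : A6 → ¬ A20 → ¬ A32 → False)
    (c3 : ¬ A10 → A32 → ¬ A1 → False)
    (c4 : ¬ A11 → ¬ A23 → A6 → False)
    (c5 : ¬ A30 → A27 → ¬ A28 → ¬ A11 → False)
    (c6 : ¬ A16 → A7 → ¬ A11 → False)
    (c7 : ¬ A14 → A30 → ¬ A5 → False)
    (c8 : ¬ A29 → ¬ A12 → A5 → False)
    (c9 : A17 → A19 → False)
    (c10 : A20 → ¬ A21 → ¬ A22 → False)
    (c11 : A6 → A1 → False)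
    (c12 : A21 → A23 → False)
    (c13 : A23 → ¬ A24 → ¬ A1 → False)
    (c14 : A24 → ¬ A15 → ¬ A18 → False)
    (c15 : A26 → ¬ A1 → ¬ A22 → False)
    (c16 : A3 → A10 → False)
    (c17 : A2 → A8 → False)
    (c18 : A31 → ¬ A3 → ¬ A8 → False)
    (c19 : A32 → A33 → False)
    (c20 : A4 → ¬ A33 → ¬ A3 → False)
    (c21 : A15 → ¬ A11 → ¬ A26 → False)
    (c22 : A25 → ¬ A22 → ¬ A2 → False)
    (c23 : A14 → A16 → False)
    (c24 : A6 → ¬ A7 → ¬ A11 → False)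
    (c25 : A8 → ¬ A9 → ¬ A13 → False)
    (c26 : A12 → ¬ A11 → ¬ A4 → False)
    (c27 : A13 → ¬ A14 → ¬ A15 → False)
    (c28 : A9 → ¬ A11 → ¬ A27 → False)
    (c29 : A28 → ¬ A14 → ¬ A25 → False)
    (c30 : A29 → A30 → False)
    (u0 : A6)
    (u1 : ¬ A22)
    (u2 : ¬ A11)
    : False := by
  have q1 : A23 := Classical.byContradiction fun h => c4 u2 h u0
  have q2 : ¬ A1 := fun h => c11 u0 h
  have q3 : ¬ A21 := fun h => c12 h q1
  have q4 : ¬ A20 := fun h => c10 h q3 u1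
  have q5 : A32 := Classical.byContradiction fun h => c2 u0 q4 h
  have q6 : A10 := Classical.byContradiction fun h => c3 h q5 q2
  have q7 : A24 := Classical.byContradiction fun h => c13 q1 h q2
  have q8 : ¬ A26 := fun h => c15 h q2 u1
  have q9 : ¬ A3 := fun h => c16 h q6
  have q10 : ¬ A33 := fun h => c19 q5 h
  have q11 : ¬ A4 := fun h => c20 h q10 q9
  have q12 : ¬ A15 := fun h => c21 h u2 q8
  have q13 : A18 := Classical.byContradiction fun h => c14 q7 q12 h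
  have q14 : A19 := Classical.byContradiction fun h => c0 h q13 q4 q2
  have q15 : ¬ A17 := fun h => c9 h q14
  have q16 : A31 := Classical.byContradiction fun h => c1 u0 h q15
  have q17 : A8 := Classical.byContradiction fun h => c18 q16 q9 h
  have q18 : ¬ A2 := fun h => c17 h q17
  have q19 : ¬ A25 := fun h => c22 h u1 q18
  have q20 : A7 := Classical.byContradiction fun h => c24 u0 h u2
  have q21 : A16 := Classical.byContradiction fun h => c6 h q20 u2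
  have q22 : ¬ A14 := fun h => c23 h q21
  have q23 : ¬ A12 := fun h => c26 h u2 q11
  have q24 : ¬ A13 := fun h => c27 h q22 q12
  have q25 : A9 := Classical.byContradiction fun h => c25 q17 h q24
  have q26 : A27 := Classical.byContradiction fun h => c28 q25 u2 h
  have q27 : ¬ A28 := fun h => c29 h q22 q19
  have q28 : A30 := Classical.byContradiction fun h => c5 h q26 q27 u2
  have q29 : A5 := Classical.byContradiction fun h => c7 q22 q28 h
  have q30 : A29 := Classical.byContradiction fun h => c8 h q23 q29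
  exact c30 q30 q28

theorem ser_CEC_0 {G : Type*} [Group G] {δ : G → ZMod 3} (hδ : ∀ u v, δ (u * v) = δ u + δ v) (o : Pre δ)
    {P m Q f g : G} {e : ZMod 3} (h3 : 3 * e = 0)
    (D : δ P = e ∧ δ m = -e ∧ δ Q = -e ∧ δ f = 0 ∧ δ g = 0)
    (C : Cube P f ∧ Cube P g ∧ Cube m f ∧ Cube m g ∧ Cube Q f ∧ Cube Q g)
    (N0 : RC o P m f g)
    (N1 : RE o m Q f g)
    (g0 : o.lt (f * Q⁻¹) (g * Q⁻¹)) (g1 : ¬ o.lt (f * Q⁻¹) (P * g⁻¹)) (g2 : ¬ o.lt ((f * Q⁻¹)⁻¹) ((g * Q⁻¹)⁻¹)) : False := by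
  simp only [Cube] at C
  have e0 : δ (g) = δ (f) := by simp only [hδ, δinv hδ, δone hδ, D] <;> linear_combination (0) * h3
  have e1 : δ (g * P⁻¹) = δ (Q * f⁻¹) := by simp only [hδ, δinv hδ, δone hδ, D] <;> linear_combination (0) * h3
  have e2 : δ (m * P⁻¹) = δ (Q * P⁻¹) := by simp only [hδ, δinv hδ, δone hδ, D] <;> linear_combination (0) * h3
  have e3 : δ (m * g⁻¹) = δ (Q * f⁻¹) := by simp only [hδ, δinv hδ, δone hδ, D] <;> linear_combination (0) * h3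
  have e4 : δ (1) = δ (Q * (f⁻¹ * (g * Q⁻¹))) := by simp only [hδ, δinv hδ, δone hδ, D] <;> linear_combination (0) * h3
  have e5 : δ (f * P⁻¹) = δ (g * P⁻¹) := by simp only [hδ, δinv hδ, δone hδ, D] <;> linear_combination (0) * h3
  have e6 : δ (f * Q⁻¹) = δ (f * (Q⁻¹ * (f * g⁻¹))) := by simp only [hδ, δinv hδ, δone hδ, D] <;> linear_combination (0) * h3
  have e7 : δ (Q * f⁻¹) = δ (g * P⁻¹) := by simp only [hδ, δinv hδ, δone hδ, D] <;> linear_combination (0) * h3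
  have e8 : δ (Q * (f⁻¹ * (P * g⁻¹))) = δ (Q * (f⁻¹ * (m * P⁻¹))) := by simp only [hδ, δinv hδ, δone hδ, D] <;> linear_combination (1) * h3
  have e9 : δ (Q * g⁻¹) = δ (m * g⁻¹) := by simp only [hδ, δinv hδ, δone hδ, D] <;> linear_combination (0) * h3
  have e10 : δ (Q * f⁻¹) = δ (Q * g⁻¹) := by simp only [hδ, δinv hδ, δone hδ, D] <;> linear_combination (0) * h3
  have e11 : δ (Q * (f⁻¹ * (g * Q⁻¹))) = δ (Q * (f⁻¹ * (g * m⁻¹))) := by simp only [hδ, δinv hδ, δone hδ, D] <;> linear_combination (0) * h3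
  have e12 : δ (Q * (f⁻¹ * (m * P⁻¹))) = δ (1) := by simp only [hδ, δinv hδ, δone hδ, D] <;> linear_combination (-1) * h3
  have e13 : δ (Q * (f⁻¹ * (m * g⁻¹))) = δ (f * (Q⁻¹ * (f * g⁻¹))) := by simp only [hδ, δinv hδ, δone hδ, D] <;> linear_combination (-1) * h3
  have e14 : δ (f * Q⁻¹) = δ (P * f⁻¹) := by simp only [hδ, δinv hδ, δone hδ, D] <;> linear_combination (0) * h3
  have e15 : δ (f * Q⁻¹) = δ (Q * (m⁻¹ * (f * m⁻¹))) := by simp only [hδ, δinv hδ, δone hδ, D] <;> linear_combination (0) * h3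
  have e16 : δ (P * f⁻¹) = δ (P * g⁻¹) := by simp only [hδ, δinv hδ, δone hδ, D] <;> linear_combination (0) * h3
  have e17 : δ (P * f⁻¹) = δ (g * m⁻¹) := by simp only [hδ, δinv hδ, δone hδ, D] <;> linear_combination (0) * h3
  have e18 : δ (P * g⁻¹) = δ (P * f⁻¹) := by simp only [hδ, δinv hδ, δone hδ, D] <;> linear_combination (0) * h3
  have e19 : δ (f * m⁻¹) = δ (P * g⁻¹) := by simp only [hδ, δinv hδ, δone hδ, D] <;> linear_combination (0) * h3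
  have e20 : δ (f * m⁻¹) = δ (f * Q⁻¹) := by simp only [hδ, δinv hδ, δone hδ, D] <;> linear_combination (0) * h3
  have e21 : δ (f * Q⁻¹) = δ (P * g⁻¹) := by simp only [hδ, δinv hδ, δone hδ, D] <;> linear_combination (0) * h3
  have e22 : δ (f * Q⁻¹) = δ (f * m⁻¹) := by simp only [hδ, δinv hδ, δone hδ, D] <;> linear_combination (0) * h3
  have e23 : δ (f * Q⁻¹) = δ (g * m⁻¹) := by simp only [hδ, δinv hδ, δone hδ, D] <;> linear_combination (0) * h3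
  have e24 : δ (f * (Q⁻¹ * (P * g⁻¹))) = δ (Q * f⁻¹) := by simp only [hδ, δinv hδ, δone hδ, D] <;> linear_combination (1) * h3
  have e25 : δ (g * Q⁻¹) = δ (P * g⁻¹) := by simp only [hδ, δinv hδ, δone hδ, D] <;> linear_combination (0) * h3
  have e26 : δ (Q * P⁻¹) = δ (Q * (f⁻¹ * (m * g⁻¹))) := by simp only [hδ, δinv hδ, δone hδ, D] <;> linear_combination (0) * h3
  have e27 : δ (Q * (m⁻¹ * (f * m⁻¹))) = δ (Q * (f⁻¹ * (g * P⁻¹))) := by simp only [hδ, δinv hδ, δone hδ, D] <;> linear_combination (1) * h3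
  have e28 : δ (Q * (m⁻¹ * (f * m⁻¹))) = δ (Q * (f⁻¹ * (m * g⁻¹))) := by simp only [hδ, δinv hδ, δone hδ, D] <;> linear_combination (1) * h3
  have e29 : δ (Q * (f⁻¹ * (m * g⁻¹))) = δ (Q * (m⁻¹ * (f * m⁻¹))) := by simp only [hδ, δinv hδ, δone hδ, D] <;> linear_combination (-1) * h3
  have e30 : δ (m * f⁻¹) = δ (g * P⁻¹) := by simp only [hδ, δinv hδ, δone hδ, D] <;> linear_combination (0) * h3
  have e31 : δ (m * f⁻¹) = δ (m * g⁻¹) := by simp only [hδ, δinv hδ, δone hδ, D] <;> linear_combination (0) * h3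
  have e32 : δ (m * g⁻¹) = δ (m * f⁻¹) := by simp only [hδ, δinv hδ, δone hδ, D] <;> linear_combination (0) * h3
  have k0 : o.lt (P * g⁻¹) (P * f⁻¹) ↔ o.lt (1 * (P * g⁻¹)) (1 * (P * f⁻¹)) := o.cv hδ (1) e18 (by simp only [mul_assoc, mul_inv_rev, inv_inv, mul_inv_cancel_left, inv_mul_cancel_left, mul_inv_cancel, inv_mul_cancel, mul_one, one_mul, inv_one, C]) (by simp only [mul_assoc, mul_inv_rev, inv_inv, mul_inv_cancel_left, inv_mul_cancel_left, mul_inv_cancel, inv_mul_cancel, mul_one, one_mul, inv_one, C])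
  have k1 : o.lt (P * f⁻¹) (g * m⁻¹) ↔ o.lt (1 * (P * f⁻¹)) (1 * (g * m⁻¹)) := o.cv hδ (1) e17 (by simp only [mul_assoc, mul_inv_rev, inv_inv, mul_inv_cancel_left, inv_mul_cancel_left, mul_inv_cancel, inv_mul_cancel, mul_one, one_mul, inv_one, C]) (by simp only [mul_assoc, mul_inv_rev, inv_inv, mul_inv_cancel_left, inv_mul_cancel_left, mul_inv_cancel, inv_mul_cancel, mul_one, one_mul, inv_one, C])
  have k2 : o.lt (f * m⁻¹) (P * g⁻¹) ↔ o.lt (1 * (f * m⁻¹)) (1 * (P * g⁻¹)) := o.cv hδ (1) e19 (by simp only [mul_assoc, mul_inv_rev, inv_inv, mul_inv_cancel_left, inv_mul_cancel_left, mul_inv_cancel, inv_mul_cancel, mul_one, one_mul, inv_one, C]) (by simp only [mul_assoc, mul_inv_rev, inv_inv, mul_inv_cancel_left, inv_mul_cancel_left, mul_inv_cancel, inv_mul_cancel, mul_one, one_mul, inv_one, C])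
  have k3 : o.lt (g) (f) ↔ o.lt (1 * g) (1 * f) := o.cv hδ (1) e0 (by simp only [mul_assoc, mul_inv_rev, inv_inv, mul_inv_cancel_left, inv_mul_cancel_left, mul_inv_cancel, inv_mul_cancel, mul_one, one_mul, inv_one, C]) (by simp only [mul_assoc, mul_inv_rev, inv_inv, mul_inv_cancel_left, inv_mul_cancel_left, mul_inv_cancel, inv_mul_cancel, mul_one, one_mul, inv_one, C])
  have k4 : o.lt (f * P⁻¹) (g * P⁻¹) ↔ o.lt (1 * (f * P⁻¹)) (1 * (g * P⁻¹)) := o.cv hδ (1) e5 (by simp only [mul_assoc, mul_inv_rev, inv_inv, mul_inv_cancel_left, inv_mul_cancel_left, mul_inv_cancel, inv_mul_cancel, mul_one, one_mul, inv_one, C]) (by simp only [mul_assoc, mul_inv_rev, inv_inv, mul_inv_cancel_left, inv_mul_cancel_left, mul_inv_cancel, inv_mul_cancel, mul_one, one_mul, inv_one, C])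
  have k5 : o.lt (m * f⁻¹) (g * P⁻¹) ↔ o.lt (1 * (m * f⁻¹)) (1 * (g * P⁻¹)) := o.cv hδ (1) e30 (by simp only [mul_assoc, mul_inv_rev, inv_inv, mul_inv_cancel_left, inv_mul_cancel_left, mul_inv_cancel, inv_mul_cancel, mul_one, one_mul, inv_one, C]) (by simp only [mul_assoc, mul_inv_rev, inv_inv, mul_inv_cancel_left, inv_mul_cancel_left, mul_inv_cancel, inv_mul_cancel, mul_one, one_mul, inv_one, C])
  have k6 : o.lt (P * f⁻¹) (P * g⁻¹) ↔ o.lt (1 * (f * P⁻¹)⁻¹) (1 * (g * P⁻¹)⁻¹) := o.cv hδ (1) e16 (by simp only [mul_assoc, mul_inv_rev, inv_inv, mul_inv_cancel_left, inv_mul_cancel_left, mul_inv_cancel, inv_mul_cancel, mul_one, one_mul, inv_one, C]) (by simp only [mul_assoc, mul_inv_rev, inv_inv, mul_inv_cancel_left, inv_mul_cancel_left, mul_inv_cancel, inv_mul_cancel, mul_one, one_mul, inv_one, C])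
  have k7 : o.lt (f * P⁻¹) (g * P⁻¹) ↔ o.lt (1 * (f * m⁻¹)) (1 * (g * m⁻¹)) := o.cv hδ (P * m⁻¹) e5 (by simp only [mul_assoc, mul_inv_rev, inv_inv, mul_inv_cancel_left, inv_mul_cancel_left, mul_inv_cancel, inv_mul_cancel, mul_one, one_mul, inv_one, C]) (by simp only [mul_assoc, mul_inv_rev, inv_inv, mul_inv_cancel_left, inv_mul_cancel_left, mul_inv_cancel, inv_mul_cancel, mul_one, one_mul, inv_one, C])
  have k8 : o.lt (m * f⁻¹) (m * g⁻¹) ↔ o.lt (1 * (f * m⁻¹)⁻¹) (1 * (g * m⁻¹)⁻¹) := o.cv hδ (1) e31 (by simp only [mul_assoc, mul_inv_rev, inv_inv, mul_inv_cancel_left, inv_mul_cancel_left, mul_inv_cancel, inv_mul_cancel, mul_one, one_mul, inv_one, C]) (by simp only [mul_assoc, mul_inv_rev, inv_inv, mul_inv_cancel_left, inv_mul_cancel_left, mul_inv_cancel, inv_mul_cancel, mul_one, one_mul, inv_one, C])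
  have k9 : o.lt (Q * g⁻¹) (m * g⁻¹) ↔ o.lt (1 * (Q * g⁻¹)) (1 * (m * g⁻¹)) := o.cv hδ (1) e9 (by simp only [mul_assoc, mul_inv_rev, inv_inv, mul_inv_cancel_left, inv_mul_cancel_left, mul_inv_cancel, inv_mul_cancel, mul_one, one_mul, inv_one, C]) (by simp only [mul_assoc, mul_inv_rev, inv_inv, mul_inv_cancel_left, inv_mul_cancel_left, mul_inv_cancel, inv_mul_cancel, mul_one, one_mul, inv_one, C])
  have k10 : o.lt (m * f⁻¹) (m * g⁻¹) ↔ o.lt (1 * (m * f⁻¹)) (1 * (m * g⁻¹)) := o.cv hδ (1) e31 (by simp only [mul_assoc, mul_inv_rev, inv_inv, mul_inv_cancel_left, inv_mul_cancel_left, mul_inv_cancel, inv_mul_cancel, mul_one, one_mul, inv_one, C]) (by simp only [mul_assoc, mul_inv_rev, inv_inv, mul_inv_cancel_left, inv_mul_cancel_left, mul_inv_cancel, inv_mul_cancel, mul_one, one_mul, inv_one, C])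
  have k11 : o.lt (g) (f) ↔ o.lt (1 * (Q * g⁻¹)⁻¹) (1 * (Q * f⁻¹)⁻¹) := o.cv hδ (Q⁻¹) e0 (by simp only [mul_assoc, mul_inv_rev, inv_inv, mul_inv_cancel_left, inv_mul_cancel_left, mul_inv_cancel, inv_mul_cancel, mul_one, one_mul, inv_one, C]) (by simp only [mul_assoc, mul_inv_rev, inv_inv, mul_inv_cancel_left, inv_mul_cancel_left, mul_inv_cancel, inv_mul_cancel, mul_one, one_mul, inv_one, C])
  have k12 : o.lt (Q * f⁻¹) (Q * g⁻¹) ↔ o.lt (1 * (Q * f⁻¹)) (1 * (Q * g⁻¹)) := o.cv hδ (1) e10 (by simp only [mul_assoc, mul_inv_rev, inv_inv, mul_inv_cancel_left, inv_mul_cancel_left, mul_inv_cancel, inv_mul_cancel, mul_one, one_mul, inv_one, C]) (by simp only [mul_assoc, mul_inv_rev, inv_inv, mul_inv_cancel_left, inv_mul_cancel_left, mul_inv_cancel, inv_mul_cancel, mul_one, one_mul, inv_one, C])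
  have k13 : o.lt (f * Q⁻¹) (f * m⁻¹) ↔ o.lt (1 * (Q * f⁻¹)⁻¹) (1 * (m * f⁻¹)⁻¹) := o.cv hδ (1) e22 (by simp only [mul_assoc, mul_inv_rev, inv_inv, mul_inv_cancel_left, inv_mul_cancel_left, mul_inv_cancel, inv_mul_cancel, mul_one, one_mul, inv_one, C]) (by simp only [mul_assoc, mul_inv_rev, inv_inv, mul_inv_cancel_left, inv_mul_cancel_left, mul_inv_cancel, inv_mul_cancel, mul_one, one_mul, inv_one, C])
  have k14 : o.lt (f * P⁻¹) (g * P⁻¹) ↔ o.lt (1 * (Q * f⁻¹)⁻¹) (1 * (Q * g⁻¹)⁻¹) := o.cv hδ (P * Q⁻¹) e5 (by simp only [mul_assoc, mul_inv_rev, inv_inv, mul_inv_cancel_left, inv_mul_cancel_left, mul_inv_cancel, inv_mul_cancel, mul_one, one_mul, inv_one, C]) (by simp only [mul_assoc, mul_inv_rev, inv_inv, mul_inv_cancel_left, inv_mul_cancel_left, mul_inv_cancel, inv_mul_cancel, mul_one, one_mul, inv_one, C])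
  have k15 : o.lt (Q * (f⁻¹ * (m * g⁻¹))) (Q * (m⁻¹ * (f * m⁻¹))) ↔ o.lt ((Q * f⁻¹) * (m * g⁻¹)) ((Q * f⁻¹) * (m * f⁻¹)) := o.cv hδ (1) e29 (by simp only [mul_assoc, mul_inv_rev, inv_inv, mul_inv_cancel_left, inv_mul_cancel_left, mul_inv_cancel, inv_mul_cancel, mul_one, one_mul, inv_one, C]) (by simp only [mul_assoc, mul_inv_rev, inv_inv, mul_inv_cancel_left, inv_mul_cancel_left, mul_inv_cancel, inv_mul_cancel, mul_one, one_mul, inv_one, C])
  have k16 : o.lt (Q * P⁻¹) (Q * (f⁻¹ * (m * g⁻¹))) ↔ o.lt ((Q * f⁻¹) * (f * P⁻¹)) ((Q * f⁻¹) * (m * g⁻¹)) := o.cv hδ (1) e26 (by simp only [mul_assoc, mul_inv_rev, inv_inv, mul_inv_cancel_left, inv_mul_cancel_left, mul_inv_cancel, inv_mul_cancel, mul_one, one_mul, inv_one, C]) (by simp only [mul_assoc, mul_inv_rev, inv_inv, mul_inv_cancel_left, inv_mul_cancel_left, mul_inv_cancel, inv_mul_cancel, mul_one, one_mul, inv_one, C])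
  have k17 : o.lt (Q * (m⁻¹ * (f * m⁻¹))) (Q * (f⁻¹ * (g * P⁻¹))) ↔ o.lt ((Q * f⁻¹) * (m * f⁻¹)) ((Q * f⁻¹) * (g * P⁻¹)) := o.cv hδ (m * (f⁻¹ * (m * (f⁻¹ * (m * f⁻¹))))) e27 (by simp only [mul_assoc, mul_inv_rev, inv_inv, mul_inv_cancel_left, inv_mul_cancel_left, mul_inv_cancel, inv_mul_cancel, mul_one, one_mul, inv_one, C]) (by simp only [mul_assoc, mul_inv_rev, inv_inv, mul_inv_cancel_left, inv_mul_cancel_left, mul_inv_cancel, inv_mul_cancel, mul_one, one_mul, inv_one, C])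
  have k18 : o.lt (Q * f⁻¹) (Q * g⁻¹) ↔ o.lt ((Q * f⁻¹) * g) ((Q * f⁻¹) * f) := o.cv hδ (g) e10 (by simp only [mul_assoc, mul_inv_rev, inv_inv, mul_inv_cancel_left, inv_mul_cancel_left, mul_inv_cancel, inv_mul_cancel, mul_one, one_mul, inv_one, C]) (by simp only [mul_assoc, mul_inv_rev, inv_inv, mul_inv_cancel_left, inv_mul_cancel_left, mul_inv_cancel, inv_mul_cancel, mul_one, one_mul, inv_one, C])
  have k19 : o.lt (f * Q⁻¹) (Q * (m⁻¹ * (f * m⁻¹))) ↔ o.lt ((Q * f⁻¹) * (Q * f⁻¹)) ((Q * f⁻¹) * (m * f⁻¹)) := o.cv hδ (Q * (f⁻¹ * (Q * (f⁻¹ * (Q * f⁻¹))))) e15 (by simp only [mul_assoc, mul_inv_rev, inv_inv, mul_inv_cancel_left, inv_mul_cancel_left, mul_inv_cancel, inv_mul_cancel, mul_one, one_mul, inv_one, C]) (by simp only [mul_assoc, mul_inv_rev, inv_inv, mul_inv_cancel_left, inv_mul_cancel_left, mul_inv_cancel, inv_mul_cancel, mul_one, one_mul, inv_one, C])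
  have k20 : o.lt (f * Q⁻¹) (f * (Q⁻¹ * (f * g⁻¹))) ↔ o.lt ((Q * f⁻¹) * (Q * f⁻¹)) ((Q * f⁻¹) * (Q * g⁻¹)) := o.cv hδ (Q * (f⁻¹ * (Q * (f⁻¹ * (Q * f⁻¹))))) e6 (by simp only [mul_assoc, mul_inv_rev, inv_inv, mul_inv_cancel_left, inv_mul_cancel_left, mul_inv_cancel, inv_mul_cancel, mul_one, one_mul, inv_one, C]) (by simp only [mul_assoc, mul_inv_rev, inv_inv, mul_inv_cancel_left, inv_mul_cancel_left, mul_inv_cancel, inv_mul_cancel, mul_one, one_mul, inv_one, C])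
  have k21 : o.lt (Q * f⁻¹) (Q * g⁻¹) ↔ o.lt ((Q * f⁻¹) * (m * g⁻¹)⁻¹) ((Q * f⁻¹) * (m * f⁻¹)⁻¹) := o.cv hδ (g * m⁻¹) e10 (by simp only [mul_assoc, mul_inv_rev, inv_inv, mul_inv_cancel_left, inv_mul_cancel_left, mul_inv_cancel, inv_mul_cancel, mul_one, one_mul, inv_one, C]) (by simp only [mul_assoc, mul_inv_rev, inv_inv, mul_inv_cancel_left, inv_mul_cancel_left, mul_inv_cancel, inv_mul_cancel, mul_one, one_mul, inv_one, C])
  have k22 : o.lt (Q * (f⁻¹ * (m * g⁻¹))) (f * (Q⁻¹ * (f * g⁻¹))) ↔ o.lt ((Q * f⁻¹) * (m * g⁻¹)) ((Q * f⁻¹) * (Q * g⁻¹)) := o.cv hδ (1) e13 (by simp only [mul_assoc, mul_inv_rev, inv_inv, mul_inv_cancel_left, inv_mul_cancel_left, mul_inv_cancel, inv_mul_cancel, mul_one, one_mul, inv_one, C]) (by simp only [mul_assoc, mul_inv_rev, inv_inv, mul_inv_cancel_left, inv_mul_cancel_left, mul_inv_cancel, inv_mul_cancel, mul_one, one_mul, inv_one, C])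
  have k23 : o.lt (1) (Q * (f⁻¹ * (g * Q⁻¹))) ↔ o.lt ((Q * f⁻¹) * (Q * f⁻¹)⁻¹) ((Q * f⁻¹) * (Q * g⁻¹)⁻¹) := o.cv hδ (1) e4 (by simp only [mul_assoc, mul_inv_rev, inv_inv, mul_inv_cancel_left, inv_mul_cancel_left, mul_inv_cancel, inv_mul_cancel, mul_one, one_mul, inv_one, C]) (by simp only [mul_assoc, mul_inv_rev, inv_inv, mul_inv_cancel_left, inv_mul_cancel_left, mul_inv_cancel, inv_mul_cancel, mul_one, one_mul, inv_one, C])
  have k24 : o.lt (Q * (m⁻¹ * (f * m⁻¹))) (Q * (f⁻¹ * (m * g⁻¹))) ↔ o.lt ((Q * f⁻¹) * (m * f⁻¹)) ((Q * f⁻¹) * (m * g⁻¹)) := o.cv hδ (m * (f⁻¹ * (m * (f⁻¹ * (m * f⁻¹))))) e28 (by simp only [mul_assoc, mul_inv_rev, inv_inv, mul_inv_cancel_left, inv_mul_cancel_left, mul_inv_cancel, inv_mul_cancel, mul_one, one_mul, inv_one, C]) (by simp only [mul_assoc, mul_inv_rev, inv_inv, mul_inv_cancel_left, inv_mul_cancel_left, mul_inv_cancel, inv_mul_cancel, mul_one, one_mul, inv_one,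 C])
  have k25 : o.lt (Q * (f⁻¹ * (g * Q⁻¹))) (Q * (f⁻¹ * (g * m⁻¹))) ↔ o.lt ((Q * f⁻¹) * (Q * g⁻¹)⁻¹) ((Q * f⁻¹) * (m * g⁻¹)⁻¹) := o.cv hδ (1) e11 (by simp only [mul_assoc, mul_inv_rev, inv_inv, mul_inv_cancel_left, inv_mul_cancel_left, mul_inv_cancel, inv_mul_cancel, mul_one, one_mul, inv_one, C]) (by simp only [mul_assoc, mul_inv_rev, inv_inv, mul_inv_cancel_left, inv_mul_cancel_left, mul_inv_cancel, inv_mul_cancel, mul_one, one_mul, inv_one, C])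
  have k26 : o.lt (1) (Q * (f⁻¹ * (g * Q⁻¹))) ↔ o.lt ((Q * f⁻¹) * (m * f⁻¹)⁻¹) ((Q * f⁻¹) * (m * g⁻¹)⁻¹) := o.cv hδ (Q * m⁻¹) e4 (by simp only [mul_assoc, mul_inv_rev, inv_inv, mul_inv_cancel_left, inv_mul_cancel_left, mul_inv_cancel, inv_mul_cancel, mul_one, one_mul, inv_one, C]) (by simp only [mul_assoc, mul_inv_rev, inv_inv, mul_inv_cancel_left, inv_mul_cancel_left, mul_inv_cancel, inv_mul_cancel, mul_one, one_mul, inv_one, C])
  have k27 : o.lt (P * f⁻¹) (P * g⁻¹) ↔ o.lt (P * f⁻¹) (P * g⁻¹) := o.cv hδ (1) e16 (by simp only [mul_assoc, mul_inv_rev, inv_inv, mul_inv_cancel_left, inv_mul_cancel_left, mul_inv_cancel, inv_mul_cancel, mul_one, one_mul, inv_one, C]) (by simp only [mul_assoc, mul_inv_rev, inv_inv, mul_inv_cancel_left, inv_mul_cancel_left, mul_inv_cancel, inv_mul_cancel, mul_one, one_mul, inv_one, C])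
  have k28 : o.lt (P * g⁻¹) (P * f⁻¹) ↔ o.lt (P * g⁻¹) (P * f⁻¹) := o.cv hδ (1) e18 (by simp only [mul_assoc, mul_inv_rev, inv_inv, mul_inv_cancel_left, inv_mul_cancel_left, mul_inv_cancel, inv_mul_cancel, mul_one, one_mul, inv_one, C]) (by simp only [mul_assoc, mul_inv_rev, inv_inv, mul_inv_cancel_left, inv_mul_cancel_left, mul_inv_cancel, inv_mul_cancel, mul_one, one_mul, inv_one, C])
  have k29 : o.lt (f * m⁻¹) (P * g⁻¹) ↔ o.lt (f * m⁻¹) (P * g⁻¹) := o.cv hδ (1) e19 (by simp only [mul_assoc, mul_inv_rev, inv_inv, mul_inv_cancel_left, inv_mul_cancel_left, mul_inv_cancel, inv_mul_cancel, mul_one, one_mul, inv_one, C]) (by simp only [mul_assoc, mul_inv_rev, inv_inv, mul_inv_cancel_left, inv_mul_cancel_left, mul_inv_cancel, inv_mul_cancel, mul_one, one_mul, inv_one, C])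
  have k30 : o.lt (f * m⁻¹) (f * Q⁻¹) ↔ o.lt (f * m⁻¹) (f * Q⁻¹) := o.cv hδ (1) e20 (by simp only [mul_assoc, mul_inv_rev, inv_inv, mul_inv_cancel_left, inv_mul_cancel_left, mul_inv_cancel, inv_mul_cancel, mul_one, one_mul, inv_one, C]) (by simp only [mul_assoc, mul_inv_rev, inv_inv, mul_inv_cancel_left, inv_mul_cancel_left, mul_inv_cancel, inv_mul_cancel, mul_one, one_mul, inv_one, C])
  have k31 : o.lt (f * Q⁻¹) (P * g⁻¹) ↔ o.lt (f * Q⁻¹) (P * g⁻¹) := o.cv hδ (1) e21 (by simp only [mul_assoc, mul_inv_rev, inv_inv, mul_inv_cancel_left, inv_mul_cancel_left, mul_inv_cancel, inv_mul_cancel, mul_one, one_mul, inv_one, C]) (by simp only [mul_assoc, mul_inv_rev, inv_inv, mul_inv_cancel_left, inv_mul_cancel_left, mul_inv_cancel, inv_mul_cancel, mul_one, one_mul, inv_one, C])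
  have k32 : o.lt (f * P⁻¹) (g * P⁻¹) ↔ o.lt (f * m⁻¹) (g * m⁻¹) := o.cv hδ (P * m⁻¹) e5 (by simp only [mul_assoc, mul_inv_rev, inv_inv, mul_inv_cancel_left, inv_mul_cancel_left, mul_inv_cancel, inv_mul_cancel, mul_one, one_mul, inv_one, C]) (by simp only [mul_assoc, mul_inv_rev, inv_inv, mul_inv_cancel_left, inv_mul_cancel_left, mul_inv_cancel, inv_mul_cancel, mul_one, one_mul, inv_one, C])
  have k33 : o.lt (g) (f) ↔ o.lt (g * m⁻¹) (f * m⁻¹) := o.cv hδ (m⁻¹) e0 (by simp only [mul_assoc, mul_inv_rev, inv_inv, mul_inv_cancel_left, inv_mul_cancel_left, mul_inv_cancel, inv_mul_cancel, mul_one, one_mul, inv_one, C]) (by simp only [mul_assoc, mul_inv_rev, inv_inv, mul_inv_cancel_left, inv_mul_cancel_left, mul_inv_cancel, inv_mul_cancel, mul_one, one_mul, inv_one, C])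
  have k34 : o.lt (f * Q⁻¹) (f * m⁻¹) ↔ o.lt (f * Q⁻¹) (f * m⁻¹) := o.cv hδ (1) e22 (by simp only [mul_assoc, mul_inv_rev, inv_inv, mul_inv_cancel_left, inv_mul_cancel_left, mul_inv_cancel, inv_mul_cancel, mul_one, one_mul, inv_one, C]) (by simp only [mul_assoc, mul_inv_rev, inv_inv, mul_inv_cancel_left, inv_mul_cancel_left, mul_inv_cancel, inv_mul_cancel, mul_one, one_mul, inv_one, C])
  have k35 : o.lt (f * Q⁻¹) (g * m⁻¹) ↔ o.lt (f * Q⁻¹) (g * m⁻¹) := o.cv hδ (1) e23 (by simp only [mul_assoc, mul_inv_rev, inv_inv, mul_inv_cancel_left, inv_mul_cancel_left, mul_inv_cancel, inv_mul_cancel, mul_one, one_mul, inv_one, C]) (by simp only [mul_assoc, mul_inv_rev, inv_inv, mul_inv_cancel_left, inv_mul_cancel_left, mul_inv_cancel, inv_mul_cancel, mul_one, one_mul, inv_one, C])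
  have k36 : o.lt (f * Q⁻¹) (P * f⁻¹) ↔ o.lt (f * Q⁻¹) (P * f⁻¹) := o.cv hδ (1) e14 (by simp only [mul_assoc, mul_inv_rev, inv_inv, mul_inv_cancel_left, inv_mul_cancel_left, mul_inv_cancel, inv_mul_cancel, mul_one, one_mul, inv_one, C]) (by simp only [mul_assoc, mul_inv_rev, inv_inv, mul_inv_cancel_left, inv_mul_cancel_left, mul_inv_cancel, inv_mul_cancel, mul_one, one_mul, inv_one, C])
  have k37 : o.lt (P * f⁻¹) (g * m⁻¹) ↔ o.lt (P * f⁻¹) (g * m⁻¹) := o.cv hδ (1) e17 (by simp only [mul_assoc, mul_inv_rev, inv_inv, mul_inv_cancel_left, inv_mul_cancel_left, mul_inv_cancel, inv_mul_cancel, mul_one, one_mul, inv_one, C]) (by simp only [mul_assoc, mul_inv_rev, inv_inv, mul_inv_cancel_left, inv_mul_cancel_left, mul_inv_cancel, inv_mul_cancel, mul_one, one_mul, inv_one, C])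
  have k38 : o.lt (g * Q⁻¹) (P * g⁻¹) ↔ o.lt (g * Q⁻¹) (P * g⁻¹) := o.cv hδ (1) e25 (by simp only [mul_assoc, mul_inv_rev, inv_inv, mul_inv_cancel_left, inv_mul_cancel_left, mul_inv_cancel, inv_mul_cancel, mul_one, one_mul, inv_one, C]) (by simp only [mul_assoc, mul_inv_rev, inv_inv, mul_inv_cancel_left, inv_mul_cancel_left, mul_inv_cancel, inv_mul_cancel, mul_one, one_mul, inv_one, C])
  have k39 : o.lt (g) (f) ↔ o.lt (g * Q⁻¹) (f * Q⁻¹) := o.cv hδ (Q⁻¹) e0 (by simp only [mul_assoc, mul_inv_rev, inv_inv, mul_inv_cancel_left, inv_mul_cancel_left, mul_inv_cancel, inv_mul_cancel, mul_one, one_mul, inv_one, C]) (by simp only [mul_assoc, mul_inv_rev, inv_inv, mul_inv_cancel_left, inv_mul_cancel_left, mul_inv_cancel, inv_mul_cancel, mul_one, one_mul, inv_one, C])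
  have k40 : o.lt (m * P⁻¹) (Q * P⁻¹) ↔ o.lt (m * P⁻¹) (Q * P⁻¹) := o.cv hδ (1) e2 (by simp only [mul_assoc, mul_inv_rev, inv_inv, mul_inv_cancel_left, inv_mul_cancel_left, mul_inv_cancel, inv_mul_cancel, mul_one, one_mul, inv_one, C]) (by simp only [mul_assoc, mul_inv_rev, inv_inv, mul_inv_cancel_left, inv_mul_cancel_left, mul_inv_cancel, inv_mul_cancel, mul_one, one_mul, inv_one, C])
  have k41 : o.lt (Q * g⁻¹) (m * g⁻¹) ↔ o.lt (Q * P⁻¹) (m * P⁻¹) := o.cv hδ (g * P⁻¹) e9 (by simp only [mul_assoc, mul_inv_rev, inv_inv, mul_inv_cancel_left, inv_mul_cancel_left, mul_inv_cancel, inv_mul_cancel, mul_one, one_mul, inv_one, C]) (by simp only [mul_assoc, mul_inv_rev, inv_inv, mul_inv_cancel_left, inv_mul_cancel_left, mul_inv_cancel, inv_mul_cancel, mul_one, one_mul, inv_one, C])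
  have k42 : o.lt (g * P⁻¹) (Q * f⁻¹) ↔ o.lt (g * P⁻¹) (Q * f⁻¹) := o.cv hδ (1) e1 (by simp only [mul_assoc, mul_inv_rev, inv_inv, mul_inv_cancel_left, inv_mul_cancel_left, mul_inv_cancel, inv_mul_cancel, mul_one, one_mul, inv_one, C]) (by simp only [mul_assoc, mul_inv_rev, inv_inv, mul_inv_cancel_left, inv_mul_cancel_left, mul_inv_cancel, inv_mul_cancel, mul_one, one_mul, inv_one, C])
  have k43 : o.lt (Q * f⁻¹) (g * P⁻¹) ↔ o.lt (Q * f⁻¹) (g * P⁻¹) := o.cv hδ (1) e7 (by simp only [mul_assoc, mul_inv_rev, inv_inv, mul_inv_cancel_left, inv_mul_cancel_left, mul_inv_cancel, inv_mul_cancel, mul_one, one_mul, inv_one, C]) (by simp only [mul_assoc, mul_inv_rev, inv_inv, mul_inv_cancel_left, inv_mul_cancel_left, mul_inv_cancel, inv_mul_cancel, mul_one, one_mul, inv_one, C])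
  have k44 : o.lt (m * f⁻¹) (g * P⁻¹) ↔ o.lt (m * f⁻¹) (g * P⁻¹) := o.cv hδ (1) e30 (by simp only [mul_assoc, mul_inv_rev, inv_inv, mul_inv_cancel_left, inv_mul_cancel_left, mul_inv_cancel, inv_mul_cancel, mul_one, one_mul, inv_one, C]) (by simp only [mul_assoc, mul_inv_rev, inv_inv, mul_inv_cancel_left, inv_mul_cancel_left, mul_inv_cancel, inv_mul_cancel, mul_one, one_mul, inv_one, C])
  have k45 : o.lt (m * P⁻¹) (Q * P⁻¹) ↔ o.lt (m * f⁻¹) (Q * f⁻¹) := o.cv hδ (P * f⁻¹) e2 (by simp only [mul_assoc, mul_inv_rev, inv_inv, mul_inv_cancel_left, inv_mul_cancel_left, mul_inv_cancel, inv_mul_cancel, mul_one, one_mul, inv_one, C]) (by simp only [mul_assoc, mul_inv_rev, inv_inv, mul_inv_cancel_left, inv_mul_cancel_left, mul_inv_cancel, inv_mul_cancel, mul_one, one_mul, inv_one, C])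
  have k46 : o.lt (m * f⁻¹) (m * g⁻¹) ↔ o.lt (m * f⁻¹) (m * g⁻¹) := o.cv hδ (1) e31 (by simp only [mul_assoc, mul_inv_rev, inv_inv, mul_inv_cancel_left, inv_mul_cancel_left, mul_inv_cancel, inv_mul_cancel, mul_one, one_mul, inv_one, C]) (by simp only [mul_assoc, mul_inv_rev, inv_inv, mul_inv_cancel_left, inv_mul_cancel_left, mul_inv_cancel, inv_mul_cancel, mul_one, one_mul, inv_one, C])
  have k47 : o.lt (m * g⁻¹) (m * f⁻¹) ↔ o.lt (m * g⁻¹) (m * f⁻¹) := o.cv hδ (1) e32 (by simp only [mul_assoc, mul_inv_rev, inv_inv, mul_inv_cancel_left, inv_mul_cancel_left, mul_inv_cancel, inv_mul_cancel, mul_one, one_mul, inv_one, C]) (by simp only [mul_assoc, mul_inv_rev, inv_inv, mul_inv_cancel_left, inv_mul_cancel_left, mul_inv_cancel, inv_mul_cancel, mul_one, one_mul, inv_one, C])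
  have k48 : o.lt (m * g⁻¹) (Q * f⁻¹) ↔ o.lt (m * g⁻¹) (Q * f⁻¹) := o.cv hδ (1) e3 (by simp only [mul_assoc, mul_inv_rev, inv_inv, mul_inv_cancel_left, inv_mul_cancel_left, mul_inv_cancel, inv_mul_cancel, mul_one, one_mul, inv_one, C]) (by simp only [mul_assoc, mul_inv_rev, inv_inv, mul_inv_cancel_left, inv_mul_cancel_left, mul_inv_cancel, inv_mul_cancel, mul_one, one_mul, inv_one, C])
  have k49 : o.lt (f * Q⁻¹) (P * f⁻¹) ↔ o.lt (Q * f⁻¹) (P * Q⁻¹) := o.cv hδ (Q * (f⁻¹ * (Q * f⁻¹))) e14 (by simp only [mul_assoc, mul_inv_rev, inv_inv, mul_inv_cancel_left, inv_mul_cancel_left, mul_inv_cancel, inv_mul_cancel, mul_one, one_mul, inv_one, C]) (by simp only [mul_assoc, mul_inv_rev, inv_inv, mul_inv_cancel_left, inv_mul_cancel_left, mul_inv_cancel, inv_mul_cancel, mul_one, one_mul, inv_one, C])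
  have k50 : o.lt (Q * f⁻¹) (Q * g⁻¹) ↔ o.lt (Q * f⁻¹) (Q * g⁻¹) := o.cv hδ (1) e10 (by simp only [mul_assoc, mul_inv_rev, inv_inv, mul_inv_cancel_left, inv_mul_cancel_left, mul_inv_cancel, inv_mul_cancel, mul_one, one_mul, inv_one, C]) (by simp only [mul_assoc, mul_inv_rev, inv_inv, mul_inv_cancel_left, inv_mul_cancel_left, mul_inv_cancel, inv_mul_cancel, mul_one, one_mul, inv_one, C])
  have k51 : o.lt (g * Q⁻¹) (P * g⁻¹) ↔ o.lt (Q * g⁻¹) (P * Q⁻¹) := o.cv hδ (Q * (g⁻¹ * (Q * g⁻¹))) e25 (by simp only [mul_assoc, mul_inv_rev, inv_inv, mul_inv_cancel_left, inv_mul_cancel_left, mul_inv_cancel, inv_mul_cancel, mul_one, one_mul, inv_one, C]) (by simp only [mul_assoc, mul_inv_rev, inv_inv, mul_inv_cancel_left, inv_mul_cancel_left, mul_inv_cancel, inv_mul_cancel, mul_one, one_mul, inv_one, C])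
  have k52 : o.lt (f * (Q⁻¹ * (P * g⁻¹))) (Q * f⁻¹) ↔ o.lt (f * (Q⁻¹ * (P * g⁻¹))) (Q * f⁻¹) := o.cv hδ (1) e24 (by simp only [mul_assoc, mul_inv_rev, inv_inv, mul_inv_cancel_left, inv_mul_cancel_left, mul_inv_cancel, inv_mul_cancel, mul_one, one_mul, inv_one, C]) (by simp only [mul_assoc, mul_inv_rev, inv_inv, mul_inv_cancel_left, inv_mul_cancel_left, mul_inv_cancel, inv_mul_cancel, mul_one, one_mul, inv_one, C])
  have k53 : o.lt (f * Q⁻¹) (P * g⁻¹) ↔ o.lt (f * (Q⁻¹ * (P * g⁻¹))) (g * P⁻¹) := o.cv hδ (P * g⁻¹) e21 (by simp only [mul_assoc, mul_inv_rev, inv_inv, mul_inv_cancel_left, inv_mul_cancel_left, mul_inv_cancel, inv_mul_cancel, mul_one, one_mul, inv_one, C]) (by simp only [mul_assoc, mul_inv_rev, inv_inv, mul_inv_cancel_left, inv_mul_cancel_left, mul_inv_cancel, inv_mul_cancel, mul_one, one_mul, inv_one, C])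
  have k54 : o.lt (Q * (f⁻¹ * (m * g⁻¹))) (f * (Q⁻¹ * (f * g⁻¹))) ↔ o.lt (Q * f⁻¹) (f * (Q⁻¹ * (f * m⁻¹))) := o.cv hδ (g * m⁻¹) e13 (by simp only [mul_assoc, mul_inv_rev, inv_inv, mul_inv_cancel_left, inv_mul_cancel_left, mul_inv_cancel, inv_mul_cancel, mul_one, one_mul, inv_one, C]) (by simp only [mul_assoc, mul_inv_rev, inv_inv, mul_inv_cancel_left, inv_mul_cancel_left, mul_inv_cancel, inv_mul_cancel, mul_one, one_mul, inv_one, C])
  have k55 : o.lt (f * Q⁻¹) (Q * (m⁻¹ * (f * m⁻¹))) ↔ o.lt (f * (Q⁻¹ * (f * m⁻¹))) (Q * f⁻¹) := o.cv hδ (f * m⁻¹) e15 (by simp only [mul_assoc, mul_inv_rev, inv_inv, mul_inv_cancel_left, inv_mul_cancel_left, mul_inv_cancel, inv_mul_cancel, mul_one, one_mul, inv_one, C]) (by simp only [mul_assoc, mul_inv_rev, inv_inv, mul_inv_cancel_left, inv_mul_cancel_left, mul_inv_cancel, inv_mul_cancel, mul_one, one_mul, inv_one, C])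
  have k56 : o.lt (f * P⁻¹) (g * P⁻¹) ↔ o.lt (f * (Q⁻¹ * (g * Q⁻¹))) (Q * g⁻¹) := o.cv hδ (P * (Q⁻¹ * (g * Q⁻¹))) e5 (by simp only [mul_assoc, mul_inv_rev, inv_inv, mul_inv_cancel_left, inv_mul_cancel_left, mul_inv_cancel, inv_mul_cancel, mul_one, one_mul, inv_one, C]) (by simp only [mul_assoc, mul_inv_rev, inv_inv, mul_inv_cancel_left, inv_mul_cancel_left, mul_inv_cancel, inv_mul_cancel, mul_one, one_mul, inv_one, C])
  have k57 : o.lt (f * Q⁻¹) (f * (Q⁻¹ * (f * g⁻¹))) ↔ o.lt (f * (Q⁻¹ * (g * Q⁻¹))) (Q * f⁻¹) := o.cv hδ (g * Q⁻¹) e6 (by simp only [mul_assoc, mul_inv_rev, inv_inv, mul_inv_cancel_left, inv_mul_cancel_left, mul_inv_cancel, inv_mul_cancel, mul_one, one_mul, inv_one, C]) (by simp only [mul_assoc, mul_inv_rev, inv_inv, mul_inv_cancel_left, inv_mul_cancel_left, mul_inv_cancel, inv_mul_cancel, mul_one, one_mul, inv_one, C])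
  have k58 : o.lt (Q * f⁻¹) (g * P⁻¹) ↔ o.lt (Q * (f⁻¹ * (P * g⁻¹))) (1) := o.cv hδ (P * g⁻¹) e7 (by simp only [mul_assoc, mul_inv_rev, inv_inv, mul_inv_cancel_left, inv_mul_cancel_left, mul_inv_cancel, inv_mul_cancel, mul_one, one_mul, inv_one, C]) (by simp only [mul_assoc, mul_inv_rev, inv_inv, mul_inv_cancel_left, inv_mul_cancel_left, mul_inv_cancel, inv_mul_cancel, mul_one, one_mul, inv_one, C])
  have k59 : o.lt (Q * (f⁻¹ * (P * g⁻¹))) (Q * (f⁻¹ * (m * P⁻¹))) ↔ o.lt (Q * (f⁻¹ * (P * g⁻¹))) (Q * (f⁻¹ * (m * P⁻¹))) := o.cv hδ (1) e8 (by simp only [mul_assoc, mul_inv_rev, inv_inv, mul_inv_cancel_left, inv_mul_cancel_left, mul_inv_cancel, inv_mul_cancel, mul_one, one_mul, inv_one, C]) (by simp only [mul_assoc, mul_inv_rev, inv_inv, mul_inv_cancel_left, inv_mul_cancel_left, mul_inv_cancel, inv_mul_cancel, mul_one, one_mul, inv_one, C])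
  have k60 : o.lt (Q * (f⁻¹ * (m * P⁻¹))) (1) ↔ o.lt (Q * (f⁻¹ * (m * P⁻¹))) (1) := o.cv hδ (1) e12 (by simp only [mul_assoc, mul_inv_rev, inv_inv, mul_inv_cancel_left, inv_mul_cancel_left, mul_inv_cancel, inv_mul_cancel, mul_one, one_mul, inv_one, C]) (by simp only [mul_assoc, mul_inv_rev, inv_inv, mul_inv_cancel_left, inv_mul_cancel_left, mul_inv_cancel, inv_mul_cancel, mul_one, one_mul, inv_one, C])
  have k61 : o.lt (Q * (f⁻¹ * (g * Q⁻¹))) (Q * (f⁻¹ * (g * m⁻¹))) ↔ o.lt (Q * (f⁻¹ * (g * Q⁻¹))) (Q * (f⁻¹ * (g * m⁻¹))) := o.cv hδ (1) e11 (by simp only [mul_assoc, mul_inv_rev, inv_inv, mul_inv_cancel_left, inv_mul_cancel_left, mul_inv_cancel, inv_mul_cancel, mul_one, one_mul, inv_one, C]) (by simp only [mul_assoc, mul_inv_rev, inv_inv, mul_inv_cancel_left, inv_mul_cancel_left, mul_inv_cancel, inv_mul_cancel, mul_one, one_mul, inv_one, C])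
  have k62 : o.lt (Q * f⁻¹) (Q * g⁻¹) ↔ o.lt (Q * (f⁻¹ * (g * Q⁻¹))) (1) := o.cv hδ (g * Q⁻¹) e10 (by simp only [mul_assoc, mul_inv_rev, inv_inv, mul_inv_cancel_left, inv_mul_cancel_left, mul_inv_cancel, inv_mul_cancel, mul_one, one_mul, inv_one, C]) (by simp only [mul_assoc, mul_inv_rev, inv_inv, mul_inv_cancel_left, inv_mul_cancel_left, mul_inv_cancel, inv_mul_cancel, mul_one, one_mul, inv_one, C])
  have k63 : o.lt (m * g⁻¹) (Q * f⁻¹) ↔ o.lt (1) (Q * (f⁻¹ * (g * m⁻¹))) := o.cv hδ (g * m⁻¹) e3 (by simp only [mul_assoc, mul_inv_rev, inv_inv, mul_inv_cancel_left, inv_mul_cancel_left, mul_inv_cancel, inv_mul_cancel, mul_one, one_mul, inv_one, C]) (by simp only [mul_assoc, mul_inv_rev, inv_inv, mul_inv_cancel_left, inv_mul_cancel_left, mul_inv_cancel, inv_mul_cancel, mul_one, one_mul, inv_one, C])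
  have k64 : o.lt (Q * (f⁻¹ * (m * g⁻¹))) (f * (Q⁻¹ * (f * g⁻¹))) ↔ o.lt (Q * (f⁻¹ * (m * P⁻¹))) (Q * (f⁻¹ * (Q * P⁻¹))) := o.cv hδ (g * P⁻¹) e13 (by simp only [mul_assoc, mul_inv_rev, inv_inv, mul_inv_cancel_left, inv_mul_cancel_left, mul_inv_cancel, inv_mul_cancel, mul_one, one_mul, inv_one, C]) (by simp only [mul_assoc, mul_inv_rev, inv_inv, mul_inv_cancel_left, inv_mul_cancel_left, mul_inv_cancel, inv_mul_cancel, mul_one, one_mul, inv_one, C])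
  have k65 : o.lt (f * Q⁻¹) (P * f⁻¹) ↔ o.lt (Q * (f⁻¹ * (Q * P⁻¹))) (1) := o.cv hδ (Q * (f⁻¹ * (Q * (f⁻¹ * (Q * P⁻¹))))) e14 (by simp only [mul_assoc, mul_inv_rev, inv_inv, mul_inv_cancel_left, inv_mul_cancel_left, mul_inv_cancel, inv_mul_cancel, mul_one, one_mul, inv_one, C]) (by simp only [mul_assoc, mul_inv_rev, inv_inv, mul_inv_cancel_left, inv_mul_cancel_left, mul_inv_cancel, inv_mul_cancel, mul_one, one_mul, inv_one, C])
  have k66 : o.lt (Q * (f⁻¹ * (P * g⁻¹))) (Q * (f⁻¹ * (m * P⁻¹))) ↔ o.lt (Q * (f⁻¹ * (g * P⁻¹))) (Q * (f⁻¹ * (m * g⁻¹))) := o.cv hδ (g * (P⁻¹ * (g * P⁻¹))) e8 (by simp only [mul_assoc, mul_inv_rev, inv_inv, mul_inv_cancel_left, inv_mul_cancel_left, mul_inv_cancel, inv_mul_cancel, mul_one, one_mul, inv_one, C]) (by simp only [mul_assoc, mul_inv_rev, inv_inv, mul_inv_cancel_left, inv_mul_cancel_left, mul_inv_cancel, inv_mul_cancel, mul_one, one_mul, inv_one, C])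
  have k67 : o.lt (Q * f⁻¹) (Q * g⁻¹) ↔ o.lt (Q * (f⁻¹ * (g * P⁻¹))) (Q * P⁻¹) := o.cv hδ (g * P⁻¹) e10 (by simp only [mul_assoc, mul_inv_rev, inv_inv, mul_inv_cancel_left, inv_mul_cancel_left, mul_inv_cancel, inv_mul_cancel, mul_one, one_mul, inv_one, C]) (by simp only [mul_assoc, mul_inv_rev, inv_inv, mul_inv_cancel_left, inv_mul_cancel_left, mul_inv_cancel, inv_mul_cancel, mul_one, one_mul, inv_one, C])
  have k68 : o.lt (Q * P⁻¹) (Q * (f⁻¹ * (m * g⁻¹))) ↔ o.lt (Q * P⁻¹) (Q * (f⁻¹ * (m * g⁻¹))) := o.cv hδ (1) e26 (by simp only [mul_assoc, mul_inv_rev, inv_inv, mul_inv_cancel_left, inv_mul_cancel_left, mul_inv_cancel, inv_mul_cancel, mul_one, one_mul, inv_one, C]) (by simp only [mul_assoc, mul_inv_rev, inv_inv, mul_inv_cancel_left, inv_mul_cancel_left, mul_inv_cancel, inv_mul_cancel, mul_one, one_mul, inv_one, C])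
  have k69 : o.lt (Q * (m⁻¹ * (f * m⁻¹))) (Q * (f⁻¹ * (g * P⁻¹))) ↔ o.lt (Q * (f⁻¹ * (m * f⁻¹))) (Q * (f⁻¹ * (g * P⁻¹))) := o.cv hδ (m * (f⁻¹ * (m * (f⁻¹ * (m * f⁻¹))))) e27 (by simp only [mul_assoc, mul_inv_rev, inv_inv, mul_inv_cancel_left, inv_mul_cancel_left, mul_inv_cancel, inv_mul_cancel, mul_one, one_mul, inv_one, C]) (by simp only [mul_assoc, mul_inv_rev, inv_inv, mul_inv_cancel_left, inv_mul_cancel_left, mul_inv_cancel, inv_mul_cancel, mul_one, one_mul, inv_one, C])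
  have k70 : o.lt (Q * (f⁻¹ * (m * g⁻¹))) (f * (Q⁻¹ * (f * g⁻¹))) ↔ o.lt (Q * (f⁻¹ * (m * f⁻¹))) (f * Q⁻¹) := o.cv hδ (g * f⁻¹) e13 (by simp only [mul_assoc, mul_inv_rev, inv_inv, mul_inv_cancel_left, inv_mul_cancel_left, mul_inv_cancel, inv_mul_cancel, mul_one, one_mul, inv_one, C]) (by simp only [mul_assoc, mul_inv_rev, inv_inv, mul_inv_cancel_left, inv_mul_cancel_left, mul_inv_cancel, inv_mul_cancel, mul_one, one_mul, inv_one, C])
  have k71 : o.lt (f * (Q⁻¹ * (P * g⁻¹))) (Q * f⁻¹) ↔ o.lt (f * Q⁻¹) (Q * (f⁻¹ * (g * P⁻¹))) := o.cv hδ (g * P⁻¹) e24 (by simp only [mul_assoc, mul_inv_rev, inv_inv, mul_inv_cancel_left, inv_mul_cancel_left, mul_inv_cancel, inv_mul_cancel, mul_one, one_mul, inv_one, C]) (by simp only [mul_assoc, mul_inv_rev, inv_inv, mul_inv_cancel_left, inv_mul_cancel_left, mul_inv_cancel, inv_mul_cancel, mul_one, one_mul, inv_one, C])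
  have k72 : o.lt (Q * (m⁻¹ * (f * m⁻¹))) (Q * (f⁻¹ * (m * g⁻¹))) ↔ o.lt (Q * (f⁻¹ * (m * f⁻¹))) (Q * (f⁻¹ * (m * g⁻¹))) := o.cv hδ (m * (f⁻¹ * (m * (f⁻¹ * (m * f⁻¹))))) e28 (by simp only [mul_assoc, mul_inv_rev, inv_inv, mul_inv_cancel_left, inv_mul_cancel_left, mul_inv_cancel, inv_mul_cancel, mul_one, one_mul, inv_one, C]) (by simp only [mul_assoc, mul_inv_rev, inv_inv, mul_inv_cancel_left, inv_mul_cancel_left, mul_inv_cancel, inv_mul_cancel, mul_one, one_mul, inv_one, C])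
  have k73 : o.lt (Q * (f⁻¹ * (m * g⁻¹))) (Q * (m⁻¹ * (f * m⁻¹))) ↔ o.lt (Q * (f⁻¹ * (m * g⁻¹))) (Q * (f⁻¹ * (m * f⁻¹))) := o.cv hδ (1) e29 (by simp only [mul_assoc, mul_inv_rev, inv_inv, mul_inv_cancel_left, inv_mul_cancel_left, mul_inv_cancel, inv_mul_cancel, mul_one, one_mul, inv_one, C]) (by simp only [mul_assoc, mul_inv_rev, inv_inv, mul_inv_cancel_left, inv_mul_cancel_left, mul_inv_cancel, inv_mul_cancel, mul_one, one_mul, inv_one, C])
  have k74 : o.lt (f * P⁻¹) (g * P⁻¹) ↔ o.lt (f * Q⁻¹) (g * Q⁻¹) := o.cv hδ (P * Q⁻¹) e5 (by simp only [mul_assoc, mul_inv_rev, inv_inv, mul_inv_cancel_left, inv_mul_cancel_left, mul_inv_cancel, inv_mul_cancel, mul_one, one_mul, inv_one, C]) (by simp only [mul_assoc, mul_inv_rev, inv_inv, mul_inv_cancel_left, inv_mul_cancel_left, mul_inv_cancel, inv_mul_cancel, mul_one, one_mul, inv_one, C])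
  have k75 : o.lt (Q * f⁻¹) (Q * g⁻¹) ↔ o.lt ((f * Q⁻¹)⁻¹) ((g * Q⁻¹)⁻¹) := o.cv hδ (1) e10 (by simp only [mul_assoc, mul_inv_rev, inv_inv, mul_inv_cancel_left, inv_mul_cancel_left, mul_inv_cancel, inv_mul_cancel, mul_one, one_mul, inv_one, C]) (by simp only [mul_assoc, mul_inv_rev, inv_inv, mul_inv_cancel_left, inv_mul_cancel_left, mul_inv_cancel, inv_mul_cancel, mul_one, one_mul, inv_one, C])
  exact ser_CEC_0_prop
    (fun b0 b1 b2 b3 => N0.i.r2 1 (fun h => b0 (k0.2 h)) (k1.1 b1) (fun h => b2 (k2.2 h)) (fun h => b3 (k3.2 h)))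
    (fun b0 b1 b2 => N0.rd.r0 1 (k4.1 b0) (fun h => b1 (k5.2 h)) (fun h => b2 (k6.2 h)))
    (fun b0 b1 b2 => N0.i.r0 1 (k7.1 b0) (fun h => b1 (k2.2 h)) (fun h => b2 (k8.2 h)))
    (fun b0 b1 b2 => N1.rd.r1 1 (fun h => b0 (k9.2 h)) (k10.1 b1) (fun h => b2 (k11.2 h)))
    (fun b0 b1 b2 => N1.rd.r2 1 (fun h => b0 (k12.2 h)) (fun h => b1 (k13.2 h)) (k14.1 b2))
    (fun b0 b1 b2 b3 => N0.rd.r2 (Q * f⁻¹) (fun h => b0 (k15.2 h)) (k16.1 b1) (fun h => b2 (k17.2 h)) (fun h => b3 (k18.2 h)))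
    (fun b0 b1 b2 => N1.i.r1 (Q * f⁻¹) (fun h => b0 (k19.2 h)) (k20.1 b1) (fun h => b2 (k21.2 h)))
    (fun b0 b1 b2 => N1.r.r1 (Q * f⁻¹) (fun h => b0 (k22.2 h)) (k15.1 b1) (fun h => b2 (k23.2 h)))
    (fun b0 b1 b2 => N1.i.r2 (Q * f⁻¹) (fun h => b0 (k24.2 h)) (fun h => b1 (k25.2 h)) (k26.1 b2))
    (fun b0 b1 => o.asym (k27.1 b0) (k28.1 b1))
    (fun b0 b1 b2 => o.tri (k29.1 b0) (fun h => b1 (k30.2 h)) (fun h => b2 (k31.2 h)))
    (fun b0 b1 => o.asym (k32.1 b0) (k33.1 b1))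
    (fun b0 b1 => o.asym (k30.1 b0) (k34.1 b1))
    (fun b0 b1 b2 => o.tri (k34.1 b0) (fun h => b1 (k35.2 h)) (fun h => b2 (k33.2 h)))
    (fun b0 b1 b2 => o.tri (k35.1 b0) (fun h => b1 (k36.2 h)) (fun h => b2 (k37.2 h)))
    (fun b0 b1 b2 => o.tri (k38.1 b0) (fun h => b1 (k39.2 h)) (fun h => b2 (k31.2 h)))
    (fun b0 b1 => o.asym (k40.1 b0) (k41.1 b1))
    (fun b0 b1 => o.asym (k42.1 b0) (k43.1 b1))
    (fun b0 b1 b2 => o.tri (k44.1 b0) (fun h => b1 (k45.2 h)) (fun h => b2 (k43.2 h)))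
    (fun b0 b1 => o.asym (k46.1 b0) (k47.1 b1))
    (fun b0 b1 b2 => o.tri (k48.1 b0) (fun h => b1 (k47.2 h)) (fun h => b2 (k45.2 h)))
    (fun b0 b1 b2 => o.tri (k49.1 b0) (fun h => b1 (k50.2 h)) (fun h => b2 (k51.2 h)))
    (fun b0 b1 b2 => o.tri (k52.1 b0) (fun h => b1 (k53.2 h)) (fun h => b2 (k42.2 h)))
    (fun b0 b1 => o.asym (k54.1 b0) (k55.1 b1))
    (fun b0 b1 b2 => o.tri (k56.1 b0) (fun h => b1 (k57.2 h)) (fun h => b2 (k50.2 h)))
    (fun b0 b1 b2 => o.tri (k58.1 b0) (fun h => b1 (k59.2 h)) (fun h => b2 (k60.2 h)))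
    (fun b0 b1 b2 => o.tri (k61.1 b0) (fun h => b1 (k62.2 h)) (fun h => b2 (k63.2 h)))
    (fun b0 b1 b2 => o.tri (k60.1 b0) (fun h => b1 (k64.2 h)) (fun h => b2 (k65.2 h)))
    (fun b0 b1 b2 => o.tri (k66.1 b0) (fun h => b1 (k67.2 h)) (fun h => b2 (k68.2 h)))
    (fun b0 b1 b2 => o.tri (k69.1 b0) (fun h => b1 (k70.2 h)) (fun h => b2 (k71.2 h)))
    (fun b0 b1 => o.asym (k72.1 b0) (k73.1 b1))
    (k74.2 g0)
    (fun h => g1 (k31.1 h))
    (fun h => g2 (k75.1 h))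

theorem ser_CEC_1_prop {A1 A2 A3 A4 A5 A6 A7 A8 A9 A10 A11 A12 A13 A14 A15 A16 A17 A18 A19 A20 A21 A22 : Prop}
    (c0 : A2 → ¬ A4 → ¬ A21 → ¬ A1 → False)
    (c1 : ¬ A12 → A6 → ¬ A21 → ¬ A1 → False)
    (c2 : ¬ A7 → A11 → ¬ A20 → ¬ A4 → False)
    (c3 : A14 → ¬ A1 → ¬ A5 → False)
    (c4 : ¬ A9 → A7 → ¬ A1 → False)
    (c5 : ¬ A14 → A12 → ¬ A4 → False)
    (c6 : A10 → ¬ A3 → ¬ A8 → False)
    (c7 : A15 → A17 → False)
    (c8 : A15 → ¬ A2 → ¬ A10 → False)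
    (c9 : A16 → ¬ A4 → ¬ A17 → False)
    (c10 : A5 → ¬ A16 → ¬ A2 → False)
    (c11 : A18 → ¬ A14 → ¬ A19 → False)
    (c12 : A14 → A9 → False)
    (c13 : A20 → A21 → False)
    (c14 : A18 → ¬ A7 → ¬ A11 → False)
    (c15 : A21 → ¬ A18 → ¬ A4 → False)
    (c16 : A7 → ¬ A18 → ¬ A6 → False)
    (c17 : A13 → ¬ A12 → ¬ A14 → False)
    (c18 : A19 → ¬ A22 → ¬ A1 → False)
    (c19 : A3 → ¬ A1 → ¬ A7 → False)
    (c20 : A8 → ¬ A13 → ¬ A5 → False)
    (u0 : A15)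
    (u1 : ¬ A4)
    (u2 : ¬ A22)
    (u3 : ¬ A1)
    : False := by
  have q1 : ¬ A17 := fun h => c7 u0 h
  have q2 : ¬ A16 := fun h => c9 h u1 q1
  have q3 : ¬ A19 := fun h => c18 h u2 u3
  rcases Classical.em A14 with q4 | q4
  · have q5 : A5 := Classical.byContradiction fun h => c3 q4 u3 h
    have q6 : A2 := Classical.byContradiction fun h => c10 q5 q2 h
    have q7 : A21 := Classical.byContradiction fun h => c0 q6 u1 h u3
    have q8 : ¬ A9 := fun h => c12 q4 h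
    have q9 : ¬ A7 := fun h => c4 q8 h u3
    have q10 : ¬ A20 := fun h => c13 h q7
    have q11 : ¬ A11 := fun h => c2 q9 h q10 u1
    have q12 : ¬ A18 := fun h => c14 h q9 q11
    exact c15 q7 q12 u1
  · have q13 : ¬ A12 := fun h => c5 q4 h u1
    have q14 : ¬ A18 := fun h => c11 h q4 q3
    have q15 : ¬ A21 := fun h => c15 h q14 u1
    have q16 : ¬ A2 := fun h => c0 h u1 q15 u3
    have q17 : ¬ A6 := fun h => c1 q13 h q15 u3
    have q18 : A10 := Classical.byContradiction fun h => c8 u0 q16 h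
    have q19 : ¬ A5 := fun h => c10 h q2 q16
    have q20 : ¬ A7 := fun h => c16 h q14 q17
    have q21 : ¬ A13 := fun h => c17 h q13 q4
    have q22 : ¬ A3 := fun h => c19 h u3 q20
    have q23 : A8 := Classical.byContradiction fun h => c6 q18 q22 h
    exact c20 q23 q21 q19

theorem ser_CEC_1 {G : Type*} [Group G] {δ : G → ZMod 3} (hδ : ∀ u v, δ (u * v) = δ u + δ v) (o : Pre δ)
    {P m Q f g : G} {e : ZMod 3} (h3 : 3 * e = 0)
    (D : δ P = e ∧ δ m = -e ∧ δ Q = -e ∧ δ f = 0 ∧ δ g = 0)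
    (C : Cube P f ∧ Cube P g ∧ Cube m f ∧ Cube m g ∧ Cube Q f ∧ Cube Q g)
    (N0 : RC o P m f g)
    (N1 : RE o m Q f g)
    (g0 : o.lt (P * g⁻¹) (g * Q⁻¹)) (g1 : ¬ o.lt (f * Q⁻¹) (g * Q⁻¹)) (g2 : ¬ o.lt ((f * Q⁻¹)⁻¹) ((P * g⁻¹)⁻¹)) (g3 : ¬ o.lt (g) (f)) : False := by
  simp only [Cube] at C
  have e0 : δ (g) = δ (f) := by simp only [hδ, δinv hδ, δone hδ, D] <;> linear_combination (0) * h3
  have e1 : δ (P * g⁻¹) = δ (g * m⁻¹) := by simp only [hδ, δinv hδ, δone hδ, D] <;> linear_combination (0) * h3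
  have e2 : δ (g * (m⁻¹ * (f * m⁻¹))) = δ (m * g⁻¹) := by simp only [hδ, δinv hδ, δone hδ, D] <;> linear_combination (1) * h3
  have e3 : δ (f * m⁻¹) = δ (g * m⁻¹) := by simp only [hδ, δinv hδ, δone hδ, D] <;> linear_combination (0) * h3
  have e4 : δ (f * Q⁻¹) = δ (g * m⁻¹) := by simp only [hδ, δinv hδ, δone hδ, D] <;> linear_combination (0) * h3
  have e5 : δ (f * P⁻¹) = δ (m * g⁻¹) := by simp only [hδ, δinv hδ, δone hδ, D] <;> linear_combination (0) * h3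
  have e6 : δ (m * f⁻¹) = δ (m * g⁻¹) := by simp only [hδ, δinv hδ, δone hδ, D] <;> linear_combination (0) * h3
  have e7 : δ (m * g⁻¹) = δ (g * (m⁻¹ * (f * Q⁻¹))) := by simp only [hδ, δinv hδ, δone hδ, D] <;> linear_combination (-1) * h3
  have e8 : δ (Q * g⁻¹) = δ (m * g⁻¹) := by simp only [hδ, δinv hδ, δone hδ, D] <;> linear_combination (0) * h3
  have e9 : δ (g * (m⁻¹ * (Q * f⁻¹))) = δ (g * f⁻¹) := by simp only [hδ, δinv hδ, δone hδ, D] <;> linear_combination (0) * h3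
  have e10 : δ (m * g⁻¹) = δ (f * P⁻¹) := by simp only [hδ, δinv hδ, δone hδ, D] <;> linear_combination (0) * h3
  have e11 : δ (m * g⁻¹) = δ (m * f⁻¹) := by simp only [hδ, δinv hδ, δone hδ, D] <;> linear_combination (0) * h3
  have e12 : δ (m * g⁻¹) = δ (Q * f⁻¹) := by simp only [hδ, δinv hδ, δone hδ, D] <;> linear_combination (0) * h3
  have e13 : δ (m * f⁻¹) = δ (Q * f⁻¹) := by simp only [hδ, δinv hδ, δone hδ, D] <;> linear_combination (0) * h3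
  have e14 : δ (P * g⁻¹) = δ (g * Q⁻¹) := by simp only [hδ, δinv hδ, δone hδ, D] <;> linear_combination (0) * h3
  have e15 : δ (f * Q⁻¹) = δ (P * g⁻¹) := by simp only [hδ, δinv hδ, δone hδ, D] <;> linear_combination (0) * h3
  have e16 : δ (g * Q⁻¹) = δ (P * g⁻¹) := by simp only [hδ, δinv hδ, δone hδ, D] <;> linear_combination (0) * h3
  have e17 : δ (m * P⁻¹) = δ (P * f⁻¹) := by simp only [hδ, δinv hδ, δone hδ, D] <;> linear_combination (-1) * h3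
  have e18 : δ (Q * P⁻¹) = δ (P * f⁻¹) := by simp only [hδ, δinv hδ, δone hδ, D] <;> linear_combination (-1) * h3
  have e19 : δ (g * P⁻¹) = δ (m * f⁻¹) := by simp only [hδ, δinv hδ, δone hδ, D] <;> linear_combination (0) * h3
  have e20 : δ (m * f⁻¹) = δ (g * P⁻¹) := by simp only [hδ, δinv hδ, δone hδ, D] <;> linear_combination (0) * h3
  have e21 : δ (Q * f⁻¹) = δ (g * P⁻¹) := by simp only [hδ, δinv hδ, δone hδ, D] <;> linear_combination (0) * h3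
  have k0 : o.lt (P * g⁻¹) (g * m⁻¹) ↔ o.lt (1 * (P * g⁻¹)) (1 * (g * m⁻¹)) := o.cv hδ (1) e1 (by simp only [mul_assoc, mul_inv_rev, inv_inv, mul_inv_cancel_left, inv_mul_cancel_left, mul_inv_cancel, inv_mul_cancel, mul_one, one_mul, inv_one, C]) (by simp only [mul_assoc, mul_inv_rev, inv_inv, mul_inv_cancel_left, inv_mul_cancel_left, mul_inv_cancel, inv_mul_cancel, mul_one, one_mul, inv_one, C])
  have k1 : o.lt (f * m⁻¹) (g * m⁻¹) ↔ o.lt (1 * (f * m⁻¹)) (1 * (g * m⁻¹)) := o.cv hδ (1) e3 (by simp only [mul_assoc, mul_inv_rev, inv_inv, mul_inv_cancel_left, inv_mul_cancel_left, mul_inv_cancel, inv_mul_cancel, mul_one, one_mul, inv_one, C]) (by simp only [mul_assoc, mul_inv_rev, inv_inv, mul_inv_cancel_left, inv_mul_cancel_left, mul_inv_cancel, inv_mul_cancel, mul_one, one_mul, inv_one, C])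
  have k2 : o.lt (m * f⁻¹) (g * P⁻¹) ↔ o.lt (1 * (f * m⁻¹)⁻¹) (1 * (P * g⁻¹)⁻¹) := o.cv hδ (1) e20 (by simp only [mul_assoc, mul_inv_rev, inv_inv, mul_inv_cancel_left, inv_mul_cancel_left, mul_inv_cancel, inv_mul_cancel, mul_one, one_mul, inv_one, C]) (by simp only [mul_assoc, mul_inv_rev, inv_inv, mul_inv_cancel_left, inv_mul_cancel_left, mul_inv_cancel, inv_mul_cancel, mul_one, one_mul, inv_one, C])
  have k3 : o.lt (g) (f) ↔ o.lt (1 * g) (1 * f) := o.cv hδ (1) e0 (by simp only [mul_assoc, mul_inv_rev, inv_inv, mul_inv_cancel_left, inv_mul_cancel_left, mul_inv_cancel, inv_mul_cancel, mul_one, one_mul, inv_one, C]) (by simp only [mul_assoc, mul_inv_rev, inv_inv, mul_inv_cancel_left, inv_mul_cancel_left, mul_inv_cancel, inv_mul_cancel, mul_one, one_mul, inv_one, C])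
  have k4 : o.lt (m * g⁻¹) (m * f⁻¹) ↔ o.lt (1 * (m * g⁻¹)) (1 * (m * f⁻¹)) := o.cv hδ (1) e11 (by simp only [mul_assoc, mul_inv_rev, inv_inv, mul_inv_cancel_left, inv_mul_cancel_left, mul_inv_cancel, inv_mul_cancel, mul_one, one_mul, inv_one, C]) (by simp only [mul_assoc, mul_inv_rev, inv_inv, mul_inv_cancel_left, inv_mul_cancel_left, mul_inv_cancel, inv_mul_cancel, mul_one, one_mul, inv_one, C])
  have k5 : o.lt (f * P⁻¹) (m * g⁻¹) ↔ o.lt (1 * (f * P⁻¹)) (1 * (m * g⁻¹)) := o.cv hδ (1) e5 (by simp only [mul_assoc, mul_inv_rev, inv_inv, mul_inv_cancel_left, inv_mul_cancel_left, mul_inv_cancel, inv_mul_cancel, mul_one, one_mul, inv_one, C]) (by simp only [mul_assoc, mul_inv_rev, inv_inv, mul_inv_cancel_left, inv_mul_cancel_left, mul_inv_cancel, inv_mul_cancel, mul_one, one_mul, inv_one, C])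
  have k6 : o.lt (m * f⁻¹) (g * P⁻¹) ↔ o.lt (1 * (m * f⁻¹)) (1 * (g * P⁻¹)) := o.cv hδ (1) e20 (by simp only [mul_assoc, mul_inv_rev, inv_inv, mul_inv_cancel_left, inv_mul_cancel_left, mul_inv_cancel, inv_mul_cancel, mul_one, one_mul, inv_one, C]) (by simp only [mul_assoc, mul_inv_rev, inv_inv, mul_inv_cancel_left, inv_mul_cancel_left, mul_inv_cancel, inv_mul_cancel, mul_one, one_mul, inv_one, C])
  have k7 : o.lt (m * f⁻¹) (m * g⁻¹) ↔ o.lt (1 * (m * f⁻¹)) (1 * (m * g⁻¹)) := o.cv hδ (1) e6 (by simp only [mul_assoc, mul_inv_rev, inv_inv, mul_inv_cancel_left, inv_mul_cancel_left, mul_inv_cancel, inv_mul_cancel, mul_one, one_mul, inv_one, C]) (by simp only [mul_assoc, mul_inv_rev, inv_inv, mul_inv_cancel_left, inv_mul_cancel_left, mul_inv_cancel, inv_mul_cancel, mul_one, one_mul, inv_one, C])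
  have k8 : o.lt (m * g⁻¹) (f * P⁻¹) ↔ o.lt (1 * (m * g⁻¹)) (1 * (f * P⁻¹)) := o.cv hδ (1) e10 (by simp only [mul_assoc, mul_inv_rev, inv_inv, mul_inv_cancel_left, inv_mul_cancel_left, mul_inv_cancel, inv_mul_cancel, mul_one, one_mul, inv_one, C]) (by simp only [mul_assoc, mul_inv_rev, inv_inv, mul_inv_cancel_left, inv_mul_cancel_left, mul_inv_cancel, inv_mul_cancel, mul_one, one_mul, inv_one, C])
  have k9 : o.lt (g * P⁻¹) (m * f⁻¹) ↔ o.lt (1 * (g * P⁻¹)) (1 * (m * f⁻¹)) := o.cv hδ (1) e19 (by simp only [mul_assoc, mul_inv_rev, inv_inv, mul_inv_cancel_left, inv_mul_cancel_left, mul_inv_cancel, inv_mul_cancel, mul_one, one_mul, inv_one, C]) (by simp only [mul_assoc, mul_inv_rev, inv_inv, mul_inv_cancel_left, inv_mul_cancel_left, mul_inv_cancel, inv_mul_cancel, mul_one, one_mul, inv_one, C])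
  have k10 : o.lt (f * m⁻¹) (g * m⁻¹) ↔ o.lt (1 * f) (1 * g) := o.cv hδ (m) e3 (by simp only [mul_assoc, mul_inv_rev, inv_inv, mul_inv_cancel_left, inv_mul_cancel_left, mul_inv_cancel, inv_mul_cancel, mul_one, one_mul, inv_one, C]) (by simp only [mul_assoc, mul_inv_rev, inv_inv, mul_inv_cancel_left, inv_mul_cancel_left, mul_inv_cancel, inv_mul_cancel, mul_one, one_mul, inv_one, C])
  have k11 : o.lt (m * f⁻¹) (Q * f⁻¹) ↔ o.lt (1 * (m * f⁻¹)) (1 * (Q * f⁻¹)) := o.cv hδ (1) e13 (by simp only [mul_assoc, mul_inv_rev, inv_inv, mul_inv_cancel_left, inv_mul_cancel_left, mul_inv_cancel, inv_mul_cancel, mul_one, one_mul, inv_one, C]) (by simp only [mul_assoc, mul_inv_rev, inv_inv, mul_inv_cancel_left, inv_mul_cancel_left, mul_inv_cancel, inv_mul_cancel, mul_one, one_mul, inv_one, C])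
  have k12 : o.lt (g) (f) ↔ o.lt (1 * (m * g⁻¹)⁻¹) (1 * (m * f⁻¹)⁻¹) := o.cv hδ (m⁻¹) e0 (by simp only [mul_assoc, mul_inv_rev, inv_inv, mul_inv_cancel_left, inv_mul_cancel_left, mul_inv_cancel, inv_mul_cancel, mul_one, one_mul, inv_one, C]) (by simp only [mul_assoc, mul_inv_rev, inv_inv, mul_inv_cancel_left, inv_mul_cancel_left, mul_inv_cancel, inv_mul_cancel, mul_one, one_mul, inv_one, C])
  have k13 : o.lt (f * Q⁻¹) (g * m⁻¹) ↔ o.lt (1 * (Q * f⁻¹)⁻¹) (1 * (m * g⁻¹)⁻¹) := o.cv hδ (1) e4 (by simp only [mul_assoc, mul_inv_rev, inv_inv, mul_inv_cancel_left, inv_mul_cancel_left, mul_inv_cancel, inv_mul_cancel, mul_one, one_mul, inv_one, C]) (by simp only [mul_assoc, mul_inv_rev, inv_inv, mul_inv_cancel_left, inv_mul_cancel_left, mul_inv_cancel, inv_mul_cancel, mul_one, one_mul, inv_one, C])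
  have k14 : o.lt (Q * g⁻¹) (m * g⁻¹) ↔ o.lt (1 * (Q * g⁻¹)) (1 * (m * g⁻¹)) := o.cv hδ (1) e8 (by simp only [mul_assoc, mul_inv_rev, inv_inv, mul_inv_cancel_left, inv_mul_cancel_left, mul_inv_cancel, inv_mul_cancel, mul_one, one_mul, inv_one, C]) (by simp only [mul_assoc, mul_inv_rev, inv_inv, mul_inv_cancel_left, inv_mul_cancel_left, mul_inv_cancel, inv_mul_cancel, mul_one, one_mul, inv_one, C])
  have k15 : o.lt (g) (f) ↔ o.lt (1 * (Q * g⁻¹)⁻¹) (1 * (Q * f⁻¹)⁻¹) := o.cv hδ (Q⁻¹) e0 (by simp only [mul_assoc, mul_inv_rev, inv_inv, mul_inv_cancel_left, inv_mul_cancel_left, mul_inv_cancel, inv_mul_cancel, mul_one, one_mul, inv_one, C]) (by simp only [mul_assoc, mul_inv_rev, inv_inv, mul_inv_cancel_left, inv_mul_cancel_left, mul_inv_cancel, inv_mul_cancel, mul_one, one_mul, inv_one, C])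
  have k16 : o.lt (m * f⁻¹) (Q * f⁻¹) ↔ o.lt (1 * (m * g⁻¹)) (1 * (Q * g⁻¹)) := o.cv hδ (f * g⁻¹) e13 (by simp only [mul_assoc, mul_inv_rev, inv_inv, mul_inv_cancel_left, inv_mul_cancel_left, mul_inv_cancel, inv_mul_cancel, mul_one, one_mul, inv_one, C]) (by simp only [mul_assoc, mul_inv_rev, inv_inv, mul_inv_cancel_left, inv_mul_cancel_left, mul_inv_cancel, inv_mul_cancel, mul_one, one_mul, inv_one, C])
  have k17 : o.lt (f * m⁻¹) (g * m⁻¹) ↔ o.lt (1 * (Q * f⁻¹)⁻¹) (1 * (Q * g⁻¹)⁻¹) := o.cv hδ (m * Q⁻¹) e3 (by simp only [mul_assoc, mul_inv_rev, inv_inv, mul_inv_cancel_left, inv_mul_cancel_left, mul_inv_cancel, inv_mul_cancel, mul_one, one_mul, inv_one, C]) (by simp only [mul_assoc, mul_inv_rev, inv_inv, mul_inv_cancel_left, inv_mul_cancel_left, mul_inv_cancel, inv_mul_cancel, mul_one, one_mul, inv_one, C])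
  have k18 : o.lt (g * (m⁻¹ * (Q * f⁻¹))) (g * f⁻¹) ↔ o.lt ((g * m⁻¹) * (Q * f⁻¹)) ((g * m⁻¹) * (m * f⁻¹)) := o.cv hδ (1) e9 (by simp only [mul_assoc, mul_inv_rev, inv_inv, mul_inv_cancel_left, inv_mul_cancel_left, mul_inv_cancel, inv_mul_cancel, mul_one, one_mul, inv_one, C]) (by simp only [mul_assoc, mul_inv_rev, inv_inv, mul_inv_cancel_left, inv_mul_cancel_left, mul_inv_cancel, inv_mul_cancel, mul_one, one_mul, inv_one, C])
  have k19 : o.lt (g * (m⁻¹ * (f * m⁻¹))) (m * g⁻¹) ↔ o.lt ((g * m⁻¹) * (m * f⁻¹)⁻¹) ((g * m⁻¹) * (m * g⁻¹)⁻¹) := o.cv hδ (1) e2 (by simp only [mul_assoc, mul_inv_rev, inv_inv, mul_inv_cancel_left, inv_mul_cancel_left, mul_inv_cancel, inv_mul_cancel, mul_one, one_mul, inv_one, C]) (by simp only [mul_assoc, mul_inv_rev, inv_inv, mul_inv_cancel_left, inv_mul_cancel_left, mul_inv_cancel, inv_mul_cancel, mul_one, one_mul, inv_one, C])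
  have k20 : o.lt (m * g⁻¹) (g * (m⁻¹ * (f * Q⁻¹))) ↔ o.lt ((g * m⁻¹) * (m * g⁻¹)⁻¹) ((g * m⁻¹) * (Q * f⁻¹)⁻¹) := o.cv hδ (g * (m⁻¹ * (g * (m⁻¹ * (g * m⁻¹))))) e7 (by simp only [mul_assoc, mul_inv_rev, inv_inv, mul_inv_cancel_left, inv_mul_cancel_left, mul_inv_cancel, inv_mul_cancel, mul_one, one_mul, inv_one, C]) (by simp only [mul_assoc, mul_inv_rev, inv_inv, mul_inv_cancel_left, inv_mul_cancel_left, mul_inv_cancel, inv_mul_cancel, mul_one, one_mul, inv_one, C])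
  have k21 : o.lt (P * g⁻¹) (g * Q⁻¹) ↔ o.lt (P * g⁻¹) (g * Q⁻¹) := o.cv hδ (1) e14 (by simp only [mul_assoc, mul_inv_rev, inv_inv, mul_inv_cancel_left, inv_mul_cancel_left, mul_inv_cancel, inv_mul_cancel, mul_one, one_mul, inv_one, C]) (by simp only [mul_assoc, mul_inv_rev, inv_inv, mul_inv_cancel_left, inv_mul_cancel_left, mul_inv_cancel, inv_mul_cancel, mul_one, one_mul, inv_one, C])
  have k22 : o.lt (g * Q⁻¹) (P * g⁻¹) ↔ o.lt (g * Q⁻¹) (P * g⁻¹) := o.cv hδ (1) e16 (by simp only [mul_assoc, mul_inv_rev, inv_inv, mul_inv_cancel_left, inv_mul_cancel_left, mul_inv_cancel, inv_mul_cancel, mul_one, one_mul, inv_one, C]) (by simp only [mul_assoc, mul_inv_rev, inv_inv, mul_inv_cancel_left, inv_mul_cancel_left, mul_inv_cancel, inv_mul_cancel, mul_one, one_mul, inv_one, C])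
  have k23 : o.lt (P * g⁻¹) (g * m⁻¹) ↔ o.lt (P * g⁻¹) (g * m⁻¹) := o.cv hδ (1) e1 (by simp only [mul_assoc, mul_inv_rev, inv_inv, mul_inv_cancel_left, inv_mul_cancel_left, mul_inv_cancel, inv_mul_cancel, mul_one, one_mul, inv_one, C]) (by simp only [mul_assoc, mul_inv_rev, inv_inv, mul_inv_cancel_left, inv_mul_cancel_left, mul_inv_cancel, inv_mul_cancel, mul_one, one_mul, inv_one, C])
  have k24 : o.lt (g * (m⁻¹ * (Q * f⁻¹))) (g * f⁻¹) ↔ o.lt (g * m⁻¹) (g * Q⁻¹) := o.cv hδ (f * Q⁻¹) e9 (by simp only [mul_assoc, mul_inv_rev, inv_inv, mul_inv_cancel_left, inv_mul_cancel_left, mul_inv_cancel, inv_mul_cancel, mul_one, one_mul, inv_one, C]) (by simp only [mul_assoc, mul_inv_rev, inv_inv, mul_inv_cancel_left, inv_mul_cancel_left, mul_inv_cancel, inv_mul_cancel, mul_one, one_mul, inv_one, C])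
  have k25 : o.lt (f * Q⁻¹) (P * g⁻¹) ↔ o.lt (f * Q⁻¹) (P * g⁻¹) := o.cv hδ (1) e15 (by simp only [mul_assoc, mul_inv_rev, inv_inv, mul_inv_cancel_left, inv_mul_cancel_left, mul_inv_cancel, inv_mul_cancel, mul_one, one_mul, inv_one, C]) (by simp only [mul_assoc, mul_inv_rev, inv_inv, mul_inv_cancel_left, inv_mul_cancel_left, mul_inv_cancel, inv_mul_cancel, mul_one, one_mul, inv_one, C])
  have k26 : o.lt (f * m⁻¹) (g * m⁻¹) ↔ o.lt (f * Q⁻¹) (g * Q⁻¹) := o.cv hδ (m * Q⁻¹) e3 (by simp only [mul_assoc, mul_inv_rev, inv_inv, mul_inv_cancel_left, inv_mul_cancel_left, mul_inv_cancel, inv_mul_cancel, mul_one, one_mul, inv_one, C]) (by simp only [mul_assoc, mul_inv_rev, inv_inv, mul_inv_cancel_left, inv_mul_cancel_left, mul_inv_cancel, inv_mul_cancel, mul_one, one_mul, inv_one, C])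
  have k27 : o.lt (f * Q⁻¹) (g * m⁻¹) ↔ o.lt (f * Q⁻¹) (g * m⁻¹) := o.cv hδ (1) e4 (by simp only [mul_assoc, mul_inv_rev, inv_inv, mul_inv_cancel_left, inv_mul_cancel_left, mul_inv_cancel, inv_mul_cancel, mul_one, one_mul, inv_one, C]) (by simp only [mul_assoc, mul_inv_rev, inv_inv, mul_inv_cancel_left, inv_mul_cancel_left, mul_inv_cancel, inv_mul_cancel, mul_one, one_mul, inv_one, C])
  have k28 : o.lt (m * P⁻¹) (P * f⁻¹) ↔ o.lt (m * P⁻¹) (P * f⁻¹) := o.cv hδ (1) e17 (by simp only [mul_assoc, mul_inv_rev, inv_inv, mul_inv_cancel_left, inv_mul_cancel_left, mul_inv_cancel, inv_mul_cancel, mul_one, one_mul, inv_one, C]) (by simp only [mul_assoc, mul_inv_rev, inv_inv, mul_inv_cancel_left, inv_mul_cancel_left, mul_inv_cancel, inv_mul_cancel, mul_one, one_mul, inv_one, C])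
  have k29 : o.lt (m * f⁻¹) (Q * f⁻¹) ↔ o.lt (m * P⁻¹) (Q * P⁻¹) := o.cv hδ (f * P⁻¹) e13 (by simp only [mul_assoc, mul_inv_rev, inv_inv, mul_inv_cancel_left, inv_mul_cancel_left, mul_inv_cancel, inv_mul_cancel, mul_one, one_mul, inv_one, C]) (by simp only [mul_assoc, mul_inv_rev, inv_inv, mul_inv_cancel_left, inv_mul_cancel_left, mul_inv_cancel, inv_mul_cancel, mul_one, one_mul, inv_one, C])
  have k30 : o.lt (Q * P⁻¹) (P * f⁻¹) ↔ o.lt (Q * P⁻¹) (P * f⁻¹) := o.cv hδ (1) e18 (by simp only [mul_assoc, mul_inv_rev, inv_inv, mul_inv_cancel_left, inv_mul_cancel_left, mul_inv_cancel, inv_mul_cancel, mul_one, one_mul, inv_one, C]) (by simp only [mul_assoc, mul_inv_rev, inv_inv, mul_inv_cancel_left, inv_mul_cancel_left, mul_inv_cancel, inv_mul_cancel, mul_one, one_mul, inv_one, C])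
  have k31 : o.lt (Q * g⁻¹) (m * g⁻¹) ↔ o.lt (Q * P⁻¹) (m * P⁻¹) := o.cv hδ (g * P⁻¹) e8 (by simp only [mul_assoc, mul_inv_rev, inv_inv, mul_inv_cancel_left, inv_mul_cancel_left, mul_inv_cancel, inv_mul_cancel, mul_one, one_mul, inv_one, C]) (by simp only [mul_assoc, mul_inv_rev, inv_inv, mul_inv_cancel_left, inv_mul_cancel_left, mul_inv_cancel, inv_mul_cancel, mul_one, one_mul, inv_one, C])
  have k32 : o.lt (g * P⁻¹) (m * f⁻¹) ↔ o.lt (g * P⁻¹) (m * f⁻¹) := o.cv hδ (1) e19 (by simp only [mul_assoc, mul_inv_rev, inv_inv, mul_inv_cancel_left, inv_mul_cancel_left, mul_inv_cancel, inv_mul_cancel, mul_one, one_mul, inv_one, C]) (by simp only [mul_assoc, mul_inv_rev, inv_inv, mul_inv_cancel_left, inv_mul_cancel_left, mul_inv_cancel, inv_mul_cancel, mul_one, one_mul, inv_one, C])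
  have k33 : o.lt (m * f⁻¹) (g * P⁻¹) ↔ o.lt (m * f⁻¹) (g * P⁻¹) := o.cv hδ (1) e20 (by simp only [mul_assoc, mul_inv_rev, inv_inv, mul_inv_cancel_left, inv_mul_cancel_left, mul_inv_cancel, inv_mul_cancel, mul_one, one_mul, inv_one, C]) (by simp only [mul_assoc, mul_inv_rev, inv_inv, mul_inv_cancel_left, inv_mul_cancel_left, mul_inv_cancel, inv_mul_cancel, mul_one, one_mul, inv_one, C])
  have k34 : o.lt (m * P⁻¹) (P * f⁻¹) ↔ o.lt (m * f⁻¹) (f * P⁻¹) := o.cv hδ (P * f⁻¹) e17 (by simp only [mul_assoc, mul_inv_rev, inv_inv, mul_inv_cancel_left, inv_mul_cancel_left, mul_inv_cancel, inv_mul_cancel, mul_one, one_mul, inv_one, C]) (by simp only [mul_assoc, mul_inv_rev, inv_inv, mul_inv_cancel_left, inv_mul_cancel_left, mul_inv_cancel, inv_mul_cancel, mul_one, one_mul, inv_one, C])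
  have k35 : o.lt (m * f⁻¹) (m * g⁻¹) ↔ o.lt (m * f⁻¹) (m * g⁻¹) := o.cv hδ (1) e6 (by simp only [mul_assoc, mul_inv_rev, inv_inv, mul_inv_cancel_left, inv_mul_cancel_left, mul_inv_cancel, inv_mul_cancel, mul_one, one_mul, inv_one, C]) (by simp only [mul_assoc, mul_inv_rev, inv_inv, mul_inv_cancel_left, inv_mul_cancel_left, mul_inv_cancel, inv_mul_cancel, mul_one, one_mul, inv_one, C])
  have k36 : o.lt (m * g⁻¹) (f * P⁻¹) ↔ o.lt (m * g⁻¹) (f * P⁻¹) := o.cv hδ (1) e10 (by simp only [mul_assoc, mul_inv_rev, inv_inv, mul_inv_cancel_left, inv_mul_cancel_left, mul_inv_cancel, inv_mul_cancel, mul_one, one_mul, inv_one, C]) (by simp only [mul_assoc, mul_inv_rev, inv_inv, mul_inv_cancel_left, inv_mul_cancel_left, mul_inv_cancel, inv_mul_cancel, mul_one, one_mul, inv_one, C])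
  have k37 : o.lt (f * m⁻¹) (g * m⁻¹) ↔ o.lt (f * P⁻¹) (g * P⁻¹) := o.cv hδ (m * P⁻¹) e3 (by simp only [mul_assoc, mul_inv_rev, inv_inv, mul_inv_cancel_left, inv_mul_cancel_left, mul_inv_cancel, inv_mul_cancel, mul_one, one_mul, inv_one, C]) (by simp only [mul_assoc, mul_inv_rev, inv_inv, mul_inv_cancel_left, inv_mul_cancel_left, mul_inv_cancel, inv_mul_cancel, mul_one, one_mul, inv_one, C])
  have k38 : o.lt (f * P⁻¹) (m * g⁻¹) ↔ o.lt (f * P⁻¹) (m * g⁻¹) := o.cv hδ (1) e5 (by simp only [mul_assoc, mul_inv_rev, inv_inv, mul_inv_cancel_left, inv_mul_cancel_left, mul_inv_cancel, inv_mul_cancel, mul_one, one_mul, inv_one, C]) (by simp only [mul_assoc, mul_inv_rev, inv_inv, mul_inv_cancel_left, inv_mul_cancel_left, mul_inv_cancel, inv_mul_cancel, mul_one, one_mul, inv_one, C])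
  have k39 : o.lt (m * g⁻¹) (Q * f⁻¹) ↔ o.lt (m * g⁻¹) (Q * f⁻¹) := o.cv hδ (1) e12 (by simp only [mul_assoc, mul_inv_rev, inv_inv, mul_inv_cancel_left, inv_mul_cancel_left, mul_inv_cancel, inv_mul_cancel, mul_one, one_mul, inv_one, C]) (by simp only [mul_assoc, mul_inv_rev, inv_inv, mul_inv_cancel_left, inv_mul_cancel_left, mul_inv_cancel, inv_mul_cancel, mul_one, one_mul, inv_one, C])
  have k40 : o.lt (m * g⁻¹) (m * f⁻¹) ↔ o.lt (m * g⁻¹) (m * f⁻¹) := o.cv hδ (1) e11 (by simp only [mul_assoc, mul_inv_rev, inv_inv, mul_inv_cancel_left, inv_mul_cancel_left, mul_inv_cancel, inv_mul_cancel, mul_one, one_mul, inv_one, C]) (by simp only [mul_assoc, mul_inv_rev, inv_inv, mul_inv_cancel_left, inv_mul_cancel_left, mul_inv_cancel, inv_mul_cancel, mul_one, one_mul, inv_one, C])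
  have k41 : o.lt (m * f⁻¹) (Q * f⁻¹) ↔ o.lt (m * f⁻¹) (Q * f⁻¹) := o.cv hδ (1) e13 (by simp only [mul_assoc, mul_inv_rev, inv_inv, mul_inv_cancel_left, inv_mul_cancel_left, mul_inv_cancel, inv_mul_cancel, mul_one, one_mul, inv_one, C]) (by simp only [mul_assoc, mul_inv_rev, inv_inv, mul_inv_cancel_left, inv_mul_cancel_left, mul_inv_cancel, inv_mul_cancel, mul_one, one_mul, inv_one, C])
  have k42 : o.lt (Q * P⁻¹) (P * f⁻¹) ↔ o.lt (Q * f⁻¹) (f * P⁻¹) := o.cv hδ (P * f⁻¹) e18 (by simp only [mul_assoc, mul_inv_rev, inv_inv, mul_inv_cancel_left, inv_mul_cancel_left, mul_inv_cancel, inv_mul_cancel, mul_one, one_mul, inv_one, C]) (by simp only [mul_assoc, mul_inv_rev, inv_inv, mul_inv_cancel_left, inv_mul_cancel_left, mul_inv_cancel, inv_mul_cancel, mul_one, one_mul, inv_one, C])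
  have k43 : o.lt (Q * f⁻¹) (g * P⁻¹) ↔ o.lt (Q * f⁻¹) (g * P⁻¹) := o.cv hδ (1) e21 (by simp only [mul_assoc, mul_inv_rev, inv_inv, mul_inv_cancel_left, inv_mul_cancel_left, mul_inv_cancel, inv_mul_cancel, mul_one, one_mul, inv_one, C]) (by simp only [mul_assoc, mul_inv_rev, inv_inv, mul_inv_cancel_left, inv_mul_cancel_left, mul_inv_cancel, inv_mul_cancel, mul_one, one_mul, inv_one, C])
  have k44 : o.lt (g) (f) ↔ o.lt (g * P⁻¹) (f * P⁻¹) := o.cv hδ (P⁻¹) e0 (by simp only [mul_assoc, mul_inv_rev, inv_inv, mul_inv_cancel_left, inv_mul_cancel_left, mul_inv_cancel, inv_mul_cancel, mul_one, one_mul, inv_one, C]) (by simp only [mul_assoc, mul_inv_rev, inv_inv, mul_inv_cancel_left, inv_mul_cancel_left, mul_inv_cancel, inv_mul_cancel, mul_one, one_mul, inv_one, C])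
  have k45 : o.lt (g * (m⁻¹ * (f * m⁻¹))) (m * g⁻¹) ↔ o.lt (g * (m⁻¹ * (f * m⁻¹))) (m * g⁻¹) := o.cv hδ (1) e2 (by simp only [mul_assoc, mul_inv_rev, inv_inv, mul_inv_cancel_left, inv_mul_cancel_left, mul_inv_cancel, inv_mul_cancel, mul_one, one_mul, inv_one, C]) (by simp only [mul_assoc, mul_inv_rev, inv_inv, mul_inv_cancel_left, inv_mul_cancel_left, mul_inv_cancel, inv_mul_cancel, mul_one, one_mul, inv_one, C])
  have k46 : o.lt (g) (f) ↔ o.lt (g * (m⁻¹ * (f * m⁻¹))) (m * f⁻¹) := o.cv hδ (m⁻¹ * (f * m⁻¹)) e0 (by simp only [mul_assoc, mul_inv_rev, inv_inv, mul_inv_cancel_left, inv_mul_cancel_left, mul_inv_cancel, inv_mul_cancel, mul_one, one_mul, inv_one, C]) (by simp only [mul_assoc, mul_inv_rev, inv_inv, mul_inv_cancel_left, inv_mul_cancel_left, mul_inv_cancel, inv_mul_cancel, mul_one, one_mul, inv_one, C])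
  have k47 : o.lt (m * g⁻¹) (g * (m⁻¹ * (f * Q⁻¹))) ↔ o.lt (m * g⁻¹) (g * (m⁻¹ * (f * Q⁻¹))) := o.cv hδ (1) e7 (by simp only [mul_assoc, mul_inv_rev, inv_inv, mul_inv_cancel_left, inv_mul_cancel_left, mul_inv_cancel, inv_mul_cancel, mul_one, one_mul, inv_one, C]) (by simp only [mul_assoc, mul_inv_rev, inv_inv, mul_inv_cancel_left, inv_mul_cancel_left, mul_inv_cancel, inv_mul_cancel, mul_one, one_mul, inv_one, C])
  have k48 : o.lt (f * Q⁻¹) (g * m⁻¹) ↔ o.lt (Q * f⁻¹) (g * (m⁻¹ * (f * Q⁻¹))) := o.cv hδ (Q * (f⁻¹ * (Q * f⁻¹))) e4 (by simp only [mul_assoc, mul_inv_rev, inv_inv, mul_inv_cancel_left, inv_mul_cancel_left, mul_inv_cancel, inv_mul_cancel, mul_one, one_mul, inv_one, C]) (by simp only [mul_assoc, mul_inv_rev, inv_inv, mul_inv_cancel_left, inv_mul_cancel_left, mul_inv_cancel, inv_mul_cancel, mul_one, one_mul, inv_one, C])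
  have k49 : o.lt (Q * f⁻¹) (g * P⁻¹) ↔ o.lt ((f * Q⁻¹)⁻¹) ((P * g⁻¹)⁻¹) := o.cv hδ (1) e21 (by simp only [mul_assoc, mul_inv_rev, inv_inv, mul_inv_cancel_left, inv_mul_cancel_left, mul_inv_cancel, inv_mul_cancel, mul_one, one_mul, inv_one, C]) (by simp only [mul_assoc, mul_inv_rev, inv_inv, mul_inv_cancel_left, inv_mul_cancel_left, mul_inv_cancel, inv_mul_cancel, mul_one, one_mul, inv_one, C])
  have k50 : o.lt (g) (f) ↔ o.lt (g) (f) := o.cv hδ (1) e0 (by simp only [mul_assoc, mul_inv_rev, inv_inv, mul_inv_cancel_left, inv_mul_cancel_left, mul_inv_cancel, inv_mul_cancel, mul_one, one_mul, inv_one, C]) (by simp only [mul_assoc, mul_inv_rev, inv_inv, mul_inv_cancel_left, inv_mul_cancel_left, mul_inv_cancel, inv_mul_cancel, mul_one, one_mul, inv_one, C])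
  exact ser_CEC_1_prop
    (fun b0 b1 b2 b3 => N0.i.r1 1 (k0.1 b0) (fun h => b1 (k1.2 h)) (fun h => b2 (k2.2 h)) (fun h => b3 (k3.2 h)))
    (fun b0 b1 b2 b3 => N0.rd.r2 1 (fun h => b0 (k4.2 h)) (k5.1 b1) (fun h => b2 (k6.2 h)) (fun h => b3 (k3.2 h)))
    (fun b0 b1 b2 b3 => N0.r.r2 1 (fun h => b0 (k7.2 h)) (k8.1 b1) (fun h => b2 (k9.2 h)) (fun h => b3 (k10.2 h)))
    (fun b0 b1 b2 => N1.i.r0 1 (k11.1 b0) (fun h => b1 (k12.2 h)) (fun h => b2 (k13.2 h)))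
    (fun b0 b1 b2 => N1.rd.r1 1 (fun h => b0 (k14.2 h)) (k7.1 b1) (fun h => b2 (k15.2 h)))
    (fun b0 b1 b2 => N1.r.r1 1 (fun h => b0 (k16.2 h)) (k4.1 b1) (fun h => b2 (k17.2 h)))
    (fun b0 b1 b2 => N1.d.r0 (g * m⁻¹) (k18.1 b0) (fun h => b1 (k19.2 h)) (fun h => b2 (k20.2 h)))
    (fun b0 b1 => o.asym (k21.1 b0) (k22.1 b1))
    (fun b0 b1 b2 => o.tri (k21.1 b0) (fun h => b1 (k23.2 h)) (fun h => b2 (k24.2 h)))
    (fun b0 b1 b2 => o.tri (k25.1 b0) (fun h => b1 (k26.2 h)) (fun h => b2 (k22.2 h)))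
    (fun b0 b1 b2 => o.tri (k27.1 b0) (fun h => b1 (k25.2 h)) (fun h => b2 (k23.2 h)))
    (fun b0 b1 b2 => o.tri (k28.1 b0) (fun h => b1 (k29.2 h)) (fun h => b2 (k30.2 h)))
    (fun b0 b1 => o.asym (k29.1 b0) (k31.1 b1))
    (fun b0 b1 => o.asym (k32.1 b0) (k33.1 b1))
    (fun b0 b1 b2 => o.tri (k34.1 b0) (fun h => b1 (k35.2 h)) (fun h => b2 (k36.2 h)))
    (fun b0 b1 b2 => o.tri (k33.1 b0) (fun h => b1 (k34.2 h)) (fun h => b2 (k37.2 h)))
    (fun b0 b1 b2 => o.tri (k35.1 b0) (fun h => b1 (k34.2 h)) (fun h => b2 (k38.2 h)))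
    (fun b0 b1 b2 => o.tri (k39.1 b0) (fun h => b1 (k40.2 h)) (fun h => b2 (k41.2 h)))
    (fun b0 b1 b2 => o.tri (k42.1 b0) (fun h => b1 (k43.2 h)) (fun h => b2 (k44.2 h)))
    (fun b0 b1 b2 => o.tri (k45.1 b0) (fun h => b1 (k46.2 h)) (fun h => b2 (k35.2 h)))
    (fun b0 b1 b2 => o.tri (k47.1 b0) (fun h => b1 (k39.2 h)) (fun h => b2 (k48.2 h)))
    (k21.2 g0)
    (fun h => g1 (k26.1 h))
    (fun h => g2 (k49.1 h))
    (fun h => g3 (k50.1 h))

theorem ser_CEC_2_prop {A1 A2 A3 A4 A5 A6 A7 A8 A9 A10 A11 A12 A13 A14 A15 A16 A17 A18 A19 A20 A21 A22 A23 A24 A25 A26 : Prop}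
    (c0 : ¬ A1 → A19 → ¬ A3 → ¬ A18 → False)
    (c1 : A24 → ¬ A18 → ¬ A23 → False)
    (c2 : ¬ A24 → A26 → ¬ A7 → False)
    (c3 : ¬ A25 → ¬ A22 → A7 → False)
    (c4 : A16 → ¬ A1 → ¬ A14 → False)
    (c5 : ¬ A11 → A13 → ¬ A1 → False)
    (c6 : ¬ A13 → ¬ A15 → A2 → False)
    (c7 : A21 → ¬ A20 → ¬ A7 → False)
    (c8 : A10 → A3 → False)
    (c9 : A12 → A4 → False)
    (c10 : A12 → ¬ A1 → ¬ A19 → False)
    (c11 : A9 → ¬ A5 → ¬ A1 → False)
    (c12 : A22 → ¬ A23 → ¬ A18 → False)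
    (c13 : A23 → ¬ A5 → ¬ A12 → False)
    (c14 : A6 → ¬ A18 → ¬ A5 → False)
    (c15 : A8 → ¬ A24 → ¬ A6 → False)
    (c16 : A25 → ¬ A9 → ¬ A17 → False)
    (c17 : A15 → ¬ A12 → ¬ A8 → False)
    (c18 : A20 → ¬ A17 → ¬ A26 → False)
    (c19 : A14 → ¬ A15 → ¬ A2 → False)
    (c20 : A11 → ¬ A12 → ¬ A6 → False)
    (c21 : A17 → ¬ A16 → ¬ A12 → False)
    (c22 : A3 → ¬ A4 → ¬ A13 → False)
    (c23 : A11 → ¬ A10 → ¬ A5 → False)
    (u0 : ¬ A1)
    (u1 : A21)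
    (u2 : ¬ A5)
    (u3 : ¬ A18)
    : False := by
  have q1 : ¬ A9 := fun h => c11 h u2 u0
  have q2 : ¬ A6 := fun h => c14 h u3 u2
  rcases Classical.em A12 with q3 | q3
  · have q4 : ¬ A4 := fun h => c9 q3 h
    have q5 : A19 := Classical.byContradiction fun h => c10 q3 u0 h
    have q6 : A3 := Classical.byContradiction fun h => c0 u0 q5 h u3
    have q7 : ¬ A10 := fun h => c8 h q6
    have q8 : A13 := Classical.byContradiction fun h => c22 q6 q4 h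
    have q9 : A11 := Classical.byContradiction fun h => c5 h q8 u0
    exact c23 q9 q7 u2
  · have q10 : ¬ A23 := fun h => c13 h u2 q3
    have q11 : ¬ A24 := fun h => c1 h u3 q10
    have q12 : ¬ A22 := fun h => c12 h q10 u3
    have q13 : ¬ A8 := fun h => c15 h q11 q2
    have q14 : ¬ A15 := fun h => c17 h q3 q13
    have q15 : ¬ A11 := fun h => c20 h q3 q2
    have q16 : ¬ A13 := fun h => c5 q15 h u0
    have q17 : ¬ A2 := fun h => c6 q16 q14 h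
    have q18 : ¬ A14 := fun h => c19 h q14 q17
    have q19 : ¬ A16 := fun h => c4 h u0 q18
    have q20 : ¬ A17 := fun h => c21 h q19 q3
    have q21 : ¬ A25 := fun h => c16 h q1 q20
    have q22 : ¬ A7 := fun h => c3 q21 q12 h
    have q23 : ¬ A26 := fun h => c2 q11 h q22
    have q24 : A20 := Classical.byContradiction fun h => c7 u1 h q22
    exact c18 q24 q20 q23

theorem ser_CEC_2 {G : Type*} [Group G] {δ : G → ZMod 3} (hδ : ∀ u v, δ (u * v) = δ u + δ v) (o : Pre δ)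
    {P m Q f g : G} {e : ZMod 3} (h3 : 3 * e = 0)
    (D : δ P = e ∧ δ m = -e ∧ δ Q = -e ∧ δ f = 0 ∧ δ g = 0)
    (C : Cube P f ∧ Cube P g ∧ Cube m f ∧ Cube m g ∧ Cube Q f ∧ Cube Q g)
    (N0 : RC o P m f g)
    (N1 : RE o m Q f g)
    (g0 : ¬ o.lt (P * g⁻¹) (P * f⁻¹)) (g1 : o.lt (P * f⁻¹) (g * Q⁻¹)) (g2 : ¬ o.lt (f * Q⁻¹) (P * g⁻¹)) (g3 : ¬ o.lt (g) (f)) : False := by
  simp only [Cube] at C
  have e0 : δ (P * g⁻¹) = δ (P * f⁻¹) := by simp only [hδ, δinv hδ, δone hδ, D] <;> linear_combination (0) * h3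
  have e1 : δ (P * m⁻¹) = δ (P * (g⁻¹ * (f * m⁻¹))) := by simp only [hδ, δinv hδ, δone hδ, D] <;> linear_combination (0) * h3
  have e2 : δ (f * m⁻¹) = δ (P * g⁻¹) := by simp only [hδ, δinv hδ, δone hδ, D] <;> linear_combination (0) * h3
  have e3 : δ (g * m⁻¹) = δ (P * g⁻¹) := by simp only [hδ, δinv hδ, δone hδ, D] <;> linear_combination (0) * h3
  have e4 : δ (f * Q⁻¹) = δ (P * g⁻¹) := by simp only [hδ, δinv hδ, δone hδ, D] <;> linear_combination (0) * h3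
  have e5 : δ (g * Q⁻¹) = δ (P * g⁻¹) := by simp only [hδ, δinv hδ, δone hδ, D] <;> linear_combination (0) * h3
  have e6 : δ (f * m⁻¹) = δ (g * m⁻¹) := by simp only [hδ, δinv hδ, δone hδ, D] <;> linear_combination (0) * h3
  have e7 : δ (m * g⁻¹) = δ (P * Q⁻¹) := by simp only [hδ, δinv hδ, δone hδ, D] <;> linear_combination (-1) * h3
  have e8 : δ (f * Q⁻¹) = δ (P * f⁻¹) := by simp only [hδ, δinv hδ, δone hδ, D] <;> linear_combination (0) * h3
  have e9 : δ (P * g⁻¹) = δ (f * m⁻¹) := by simp only [hδ, δinv hδ, δone hδ, D] <;> linear_combination (0) * h3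
  have e10 : δ (P * (m⁻¹ * (g * m⁻¹))) = δ (P * (Q⁻¹ * (g * Q⁻¹))) := by simp only [hδ, δinv hδ, δone hδ, D] <;> linear_combination (0) * h3
  have e11 : δ (P * g⁻¹) = δ (g * m⁻¹) := by simp only [hδ, δinv hδ, δone hδ, D] <;> linear_combination (0) * h3
  have e12 : δ (P * (m⁻¹ * (g * m⁻¹))) = δ (P * (g⁻¹ * (m * f⁻¹))) := by simp only [hδ, δinv hδ, δone hδ, D] <;> linear_combination (1) * h3
  have e13 : δ (P * m⁻¹) = δ (P * (g⁻¹ * (f * Q⁻¹))) := by simp only [hδ, δinv hδ, δone hδ, D] <;> linear_combination (0) * h3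
  have e14 : δ (P * m⁻¹) = δ (P * Q⁻¹) := by simp only [hδ, δinv hδ, δone hδ, D] <;> linear_combination (0) * h3
  have e15 : δ (P * (g⁻¹ * (Q * f⁻¹))) = δ (P * (g⁻¹ * (m * f⁻¹))) := by simp only [hδ, δinv hδ, δone hδ, D] <;> linear_combination (0) * h3
  have e16 : δ (P * Q⁻¹) = δ (Q * g⁻¹) := by simp only [hδ, δinv hδ, δone hδ, D] <;> linear_combination (1) * h3
  have e17 : δ (g) = δ (f) := by simp only [hδ, δinv hδ, δone hδ, D] <;> linear_combination (0) * h3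
  have e18 : δ (P * f⁻¹) = δ (g * m⁻¹) := by simp only [hδ, δinv hδ, δone hδ, D] <;> linear_combination (0) * h3
  have e19 : δ (P * f⁻¹) = δ (f * Q⁻¹) := by simp only [hδ, δinv hδ, δone hδ, D] <;> linear_combination (0) * h3
  have e20 : δ (P * f⁻¹) = δ (g * Q⁻¹) := by simp only [hδ, δinv hδ, δone hδ, D] <;> linear_combination (0) * h3
  have e21 : δ (f * Q⁻¹) = δ (f * m⁻¹) := by simp only [hδ, δinv hδ, δone hδ, D] <;> linear_combination (0) * h3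
  have e22 : δ (f * Q⁻¹) = δ (g * m⁻¹) := by simp only [hδ, δinv hδ, δone hδ, D] <;> linear_combination (0) * h3
  have e23 : δ (m * f⁻¹) = δ (Q * f⁻¹) := by simp only [hδ, δinv hδ, δone hδ, D] <;> linear_combination (0) * h3
  have e24 : δ (Q * f⁻¹) = δ (Q * g⁻¹) := by simp only [hδ, δinv hδ, δone hδ, D] <;> linear_combination (0) * h3
  have e25 : δ (Q * g⁻¹) = δ (Q * f⁻¹) := by simp only [hδ, δinv hδ, δone hδ, D] <;> linear_combination (0) * h3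
  have k0 : o.lt (P * g⁻¹) (P * f⁻¹) ↔ o.lt (1 * (P * g⁻¹)) (1 * (P * f⁻¹)) := o.cv hδ (1) e0 (by simp only [mul_assoc, mul_inv_rev, inv_inv, mul_inv_cancel_left, inv_mul_cancel_left, mul_inv_cancel, inv_mul_cancel, mul_one, one_mul, inv_one, C]) (by simp only [mul_assoc, mul_inv_rev, inv_inv, mul_inv_cancel_left, inv_mul_cancel_left, mul_inv_cancel, inv_mul_cancel, mul_one, one_mul, inv_one, C])
  have k1 : o.lt (P * f⁻¹) (g * m⁻¹) ↔ o.lt (1 * (P * f⁻¹)) (1 * (g * m⁻¹)) := o.cv hδ (1) e18 (by simp only [mul_assoc, mul_inv_rev, inv_inv, mul_inv_cancel_left, inv_mul_cancel_left, mul_inv_cancel, inv_mul_cancel, mul_one, one_mul, inv_one, C]) (by simp only [mul_assoc, mul_inv_rev, inv_inv, mul_inv_cancel_left, inv_mul_cancel_left, mul_inv_cancel, inv_mul_cancel, mul_one, one_mul, inv_one, C])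
  have k2 : o.lt (f * m⁻¹) (P * g⁻¹) ↔ o.lt (1 * (f * m⁻¹)) (1 * (P * g⁻¹)) := o.cv hδ (1) e2 (by simp only [mul_assoc, mul_inv_rev, inv_inv, mul_inv_cancel_left, inv_mul_cancel_left, mul_inv_cancel, inv_mul_cancel, mul_one, one_mul, inv_one, C]) (by simp only [mul_assoc, mul_inv_rev, inv_inv, mul_inv_cancel_left, inv_mul_cancel_left, mul_inv_cancel, inv_mul_cancel, mul_one, one_mul, inv_one, C])
  have k3 : o.lt (g) (f) ↔ o.lt (1 * g) (1 * f) := o.cv hδ (1) e17 (by simp only [mul_assoc, mul_inv_rev, inv_inv, mul_inv_cancel_left, inv_mul_cancel_left, mul_inv_cancel, inv_mul_cancel, mul_one, one_mul, inv_one, C]) (by simp only [mul_assoc, mul_inv_rev, inv_inv, mul_inv_cancel_left, inv_mul_cancel_left, mul_inv_cancel, inv_mul_cancel, mul_one, one_mul, inv_one, C])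
  have k4 : o.lt (m * f⁻¹) (Q * f⁻¹) ↔ o.lt (1 * (m * f⁻¹)) (1 * (Q * f⁻¹)) := o.cv hδ (1) e23 (by simp only [mul_assoc, mul_inv_rev, inv_inv, mul_inv_cancel_left, inv_mul_cancel_left, mul_inv_cancel, inv_mul_cancel, mul_one, one_mul, inv_one, C]) (by simp only [mul_assoc, mul_inv_rev, inv_inv, mul_inv_cancel_left, inv_mul_cancel_left, mul_inv_cancel, inv_mul_cancel, mul_one, one_mul, inv_one, C])
  have k5 : o.lt (g) (f) ↔ o.lt (1 * (m * g⁻¹)⁻¹) (1 * (m * f⁻¹)⁻¹) := o.cv hδ (m⁻¹) e17 (by simp only [mul_assoc, mul_inv_rev, inv_inv, mul_inv_cancel_left, inv_mul_cancel_left, mul_inv_cancel, inv_mul_cancel, mul_one, one_mul, inv_one, C]) (by simp only [mul_assoc, mul_inv_rev, inv_inv, mul_inv_cancel_left, inv_mul_cancel_left, mul_inv_cancel, inv_mul_cancel, mul_one, one_mul, inv_one, C])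
  have k6 : o.lt (f * Q⁻¹) (g * m⁻¹) ↔ o.lt (1 * (Q * f⁻¹)⁻¹) (1 * (m * g⁻¹)⁻¹) := o.cv hδ (1) e22 (by simp only [mul_assoc, mul_inv_rev, inv_inv, mul_inv_cancel_left, inv_mul_cancel_left, mul_inv_cancel, inv_mul_cancel, mul_one, one_mul, inv_one, C]) (by simp only [mul_assoc, mul_inv_rev, inv_inv, mul_inv_cancel_left, inv_mul_cancel_left, mul_inv_cancel, inv_mul_cancel, mul_one, one_mul, inv_one, C])
  have k7 : o.lt (Q * g⁻¹) (Q * f⁻¹) ↔ o.lt (1 * (Q * g⁻¹)) (1 * (Q * f⁻¹)) := o.cv hδ (1) e25 (by simp only [mul_assoc, mul_inv_rev, inv_inv, mul_inv_cancel_left, inv_mul_cancel_left, mul_inv_cancel, inv_mul_cancel, mul_one, one_mul, inv_one, C]) (by simp only [mul_assoc, mul_inv_rev, inv_inv, mul_inv_cancel_left, inv_mul_cancel_left, mul_inv_cancel, inv_mul_cancel, mul_one, one_mul, inv_one, C])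
  have k8 : o.lt (f * m⁻¹) (g * m⁻¹) ↔ o.lt (1 * (m * f⁻¹)⁻¹) (1 * (m * g⁻¹)⁻¹) := o.cv hδ (1) e6 (by simp only [mul_assoc, mul_inv_rev, inv_inv, mul_inv_cancel_left, inv_mul_cancel_left, mul_inv_cancel, inv_mul_cancel, mul_one, one_mul, inv_one, C]) (by simp only [mul_assoc, mul_inv_rev, inv_inv, mul_inv_cancel_left, inv_mul_cancel_left, mul_inv_cancel, inv_mul_cancel, mul_one, one_mul, inv_one, C])
  have k9 : o.lt (Q * f⁻¹) (Q * g⁻¹) ↔ o.lt (1 * (Q * f⁻¹)) (1 * (Q * g⁻¹)) := o.cv hδ (1) e24 (by simp only [mul_assoc, mul_inv_rev, inv_inv, mul_inv_cancel_left, inv_mul_cancel_left, mul_inv_cancel, inv_mul_cancel, mul_one, one_mul, inv_one, C]) (by simp only [mul_assoc, mul_inv_rev, inv_inv, mul_inv_cancel_left, inv_mul_cancel_left, mul_inv_cancel, inv_mul_cancel, mul_one, one_mul, inv_one, C])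
  have k10 : o.lt (f * Q⁻¹) (f * m⁻¹) ↔ o.lt (1 * (Q * f⁻¹)⁻¹) (1 * (m * f⁻¹)⁻¹) := o.cv hδ (1) e21 (by simp only [mul_assoc, mul_inv_rev, inv_inv, mul_inv_cancel_left, inv_mul_cancel_left, mul_inv_cancel, inv_mul_cancel, mul_one, one_mul, inv_one, C]) (by simp only [mul_assoc, mul_inv_rev, inv_inv, mul_inv_cancel_left, inv_mul_cancel_left, mul_inv_cancel, inv_mul_cancel, mul_one, one_mul, inv_one, C])
  have k11 : o.lt (f * m⁻¹) (g * m⁻¹) ↔ o.lt (1 * (Q * f⁻¹)⁻¹) (1 * (Q * g⁻¹)⁻¹) := o.cv hδ (m * Q⁻¹) e6 (by simp only [mul_assoc, mul_inv_rev, inv_inv, mul_inv_cancel_left, inv_mul_cancel_left, mul_inv_cancel, inv_mul_cancel, mul_one, one_mul, inv_one, C]) (by simp only [mul_assoc, mul_inv_rev, inv_inv, mul_inv_cancel_left, inv_mul_cancel_left, mul_inv_cancel, inv_mul_cancel, mul_one, one_mul, inv_one, C])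
  have k12 : o.lt (P * (g⁻¹ * (Q * f⁻¹))) (P * (g⁻¹ * (m * f⁻¹))) ↔ o.lt ((P * g⁻¹) * (Q * f⁻¹)) ((P * g⁻¹) * (m * f⁻¹)) := o.cv hδ (1) e15 (by simp only [mul_assoc, mul_inv_rev, inv_inv, mul_inv_cancel_left, inv_mul_cancel_left, mul_inv_cancel, inv_mul_cancel, mul_one, one_mul, inv_one, C]) (by simp only [mul_assoc, mul_inv_rev, inv_inv, mul_inv_cancel_left, inv_mul_cancel_left, mul_inv_cancel, inv_mul_cancel, mul_one, one_mul, inv_one, C])
  have k13 : o.lt (P * g⁻¹) (P * f⁻¹) ↔ o.lt ((P * g⁻¹) * (m * f⁻¹)⁻¹) ((P * g⁻¹) * (m * g⁻¹)⁻¹) := o.cv hδ (f * m⁻¹) e0 (by simp only [mul_assoc, mul_inv_rev, inv_inv, mul_inv_cancel_left, inv_mul_cancel_left, mul_inv_cancel, inv_mul_cancel, mul_one, one_mul, inv_one, C]) (by simp only [mul_assoc, mul_inv_rev, inv_inv, mul_inv_cancel_left, inv_mul_cancel_left, mul_inv_cancel, inv_mul_cancel, mul_one, one_mul, inv_one, C])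
  have k14 : o.lt (P * m⁻¹) (P * (g⁻¹ * (f * Q⁻¹))) ↔ o.lt ((P * g⁻¹) * (m * g⁻¹)⁻¹) ((P * g⁻¹) * (Q * f⁻¹)⁻¹) := o.cv hδ (1) e13 (by simp only [mul_assoc, mul_inv_rev, inv_inv, mul_inv_cancel_left, inv_mul_cancel_left, mul_inv_cancel, inv_mul_cancel, mul_one, one_mul, inv_one, C]) (by simp only [mul_assoc, mul_inv_rev, inv_inv, mul_inv_cancel_left, inv_mul_cancel_left, mul_inv_cancel, inv_mul_cancel, mul_one, one_mul, inv_one, C])
  have k15 : o.lt (P * (m⁻¹ * (g * m⁻¹))) (P * (Q⁻¹ * (g * Q⁻¹))) ↔ o.lt ((P * g⁻¹) * (m * g⁻¹)) ((P * g⁻¹) * (Q * g⁻¹)) := o.cv hδ (m * (g⁻¹ * (m * (g⁻¹ * (m * g⁻¹))))) e10 (by simp only [mul_assoc, mul_inv_rev, inv_inv, mul_inv_cancel_left, inv_mul_cancel_left, mul_inv_cancel, inv_mul_cancel, mul_one, one_mul, inv_one, C]) (by simp only [mul_assoc, mul_inv_rev, inv_inv, mul_inv_cancel_left, inv_mul_cancel_left, mul_inv_cancel, inv_mul_cancel, mul_one, one_mul,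 inv_one, C])
  have k16 : o.lt (P * (m⁻¹ * (g * m⁻¹))) (P * (g⁻¹ * (m * f⁻¹))) ↔ o.lt ((P * g⁻¹) * (m * g⁻¹)) ((P * g⁻¹) * (m * f⁻¹)) := o.cv hδ (m * (g⁻¹ * (m * (g⁻¹ * (m * g⁻¹))))) e12 (by simp only [mul_assoc, mul_inv_rev, inv_inv, mul_inv_cancel_left, inv_mul_cancel_left, mul_inv_cancel, inv_mul_cancel, mul_one, one_mul, inv_one, C]) (by simp only [mul_assoc, mul_inv_rev, inv_inv, mul_inv_cancel_left, inv_mul_cancel_left, mul_inv_cancel, inv_mul_cancel, mul_one, one_mul, inv_one, C])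
  have k17 : o.lt (P * g⁻¹) (P * f⁻¹) ↔ o.lt ((P * g⁻¹) * (Q * f⁻¹)⁻¹) ((P * g⁻¹) * (Q * g⁻¹)⁻¹) := o.cv hδ (f * Q⁻¹) e0 (by simp only [mul_assoc, mul_inv_rev, inv_inv, mul_inv_cancel_left, inv_mul_cancel_left, mul_inv_cancel, inv_mul_cancel, mul_one, one_mul, inv_one, C]) (by simp only [mul_assoc, mul_inv_rev, inv_inv, mul_inv_cancel_left, inv_mul_cancel_left, mul_inv_cancel, inv_mul_cancel, mul_one, one_mul, inv_one, C])
  have k18 : o.lt (P * m⁻¹) (P * Q⁻¹) ↔ o.lt ((P * g⁻¹) * (m * g⁻¹)⁻¹) ((P * g⁻¹) * (Q * g⁻¹)⁻¹) := o.cv hδ (1) e14 (by simp only [mul_assoc, mul_inv_rev, inv_inv, mul_inv_cancel_left, inv_mul_cancel_left, mul_inv_cancel, inv_mul_cancel, mul_one, one_mul, inv_one, C]) (by simp only [mul_assoc, mul_inv_rev, inv_inv, mul_inv_cancel_left, inv_mul_cancel_left, mul_inv_cancel, inv_mul_cancel, mul_one, one_mul, inv_one, C])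
  have k19 : o.lt (P * m⁻¹) (P * (g⁻¹ * (f * m⁻¹))) ↔ o.lt ((P * g⁻¹) * (m * g⁻¹)⁻¹) ((P * g⁻¹) * (m * f⁻¹)⁻¹) := o.cv hδ (1) e1 (by simp only [mul_assoc, mul_inv_rev, inv_inv, mul_inv_cancel_left, inv_mul_cancel_left, mul_inv_cancel, inv_mul_cancel, mul_one, one_mul, inv_one, C]) (by simp only [mul_assoc, mul_inv_rev, inv_inv, mul_inv_cancel_left, inv_mul_cancel_left, mul_inv_cancel, inv_mul_cancel, mul_one, one_mul, inv_one, C])
  have k20 : o.lt (P * f⁻¹) (g * Q⁻¹) ↔ o.lt (P * f⁻¹) (g * Q⁻¹) := o.cv hδ (1) e20 (by simp only [mul_assoc, mul_inv_rev, inv_inv, mul_inv_cancel_left, inv_mul_cancel_left, mul_inv_cancel, inv_mul_cancel, mul_one, one_mul, inv_one, C]) (by simp only [mul_assoc, mul_inv_rev, inv_inv, mul_inv_cancel_left, inv_mul_cancel_left, mul_inv_cancel, inv_mul_cancel, mul_one, one_mul, inv_one, C])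
  have k21 : o.lt (P * f⁻¹) (f * Q⁻¹) ↔ o.lt (P * f⁻¹) (f * Q⁻¹) := o.cv hδ (1) e19 (by simp only [mul_assoc, mul_inv_rev, inv_inv, mul_inv_cancel_left, inv_mul_cancel_left, mul_inv_cancel, inv_mul_cancel, mul_one, one_mul, inv_one, C]) (by simp only [mul_assoc, mul_inv_rev, inv_inv, mul_inv_cancel_left, inv_mul_cancel_left, mul_inv_cancel, inv_mul_cancel, mul_one, one_mul, inv_one, C])
  have k22 : o.lt (f * m⁻¹) (g * m⁻¹) ↔ o.lt (f * Q⁻¹) (g * Q⁻¹) := o.cv hδ (m * Q⁻¹) e6 (by simp only [mul_assoc, mul_inv_rev, inv_inv, mul_inv_cancel_left, inv_mul_cancel_left, mul_inv_cancel, inv_mul_cancel, mul_one, one_mul, inv_one, C]) (by simp only [mul_assoc, mul_inv_rev, inv_inv, mul_inv_cancel_left, inv_mul_cancel_left, mul_inv_cancel, inv_mul_cancel, mul_one, one_mul, inv_one, C])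
  have k23 : o.lt (P * g⁻¹) (f * m⁻¹) ↔ o.lt (P * g⁻¹) (f * m⁻¹) := o.cv hδ (1) e9 (by simp only [mul_assoc, mul_inv_rev, inv_inv, mul_inv_cancel_left, inv_mul_cancel_left, mul_inv_cancel, inv_mul_cancel, mul_one, one_mul, inv_one, C]) (by simp only [mul_assoc, mul_inv_rev, inv_inv, mul_inv_cancel_left, inv_mul_cancel_left, mul_inv_cancel, inv_mul_cancel, mul_one, one_mul, inv_one, C])
  have k24 : o.lt (f * m⁻¹) (P * g⁻¹) ↔ o.lt (f * m⁻¹) (P * g⁻¹) := o.cv hδ (1) e2 (by simp only [mul_assoc, mul_inv_rev, inv_inv, mul_inv_cancel_left, inv_mul_cancel_left, mul_inv_cancel, inv_mul_cancel, mul_one, one_mul, inv_one, C]) (by simp only [mul_assoc, mul_inv_rev, inv_inv, mul_inv_cancel_left, inv_mul_cancel_left, mul_inv_cancel, inv_mul_cancel, mul_one, one_mul, inv_one, C])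
  have k25 : o.lt (P * g⁻¹) (g * m⁻¹) ↔ o.lt (P * g⁻¹) (g * m⁻¹) := o.cv hδ (1) e11 (by simp only [mul_assoc, mul_inv_rev, inv_inv, mul_inv_cancel_left, inv_mul_cancel_left, mul_inv_cancel, inv_mul_cancel, mul_one, one_mul, inv_one, C]) (by simp only [mul_assoc, mul_inv_rev, inv_inv, mul_inv_cancel_left, inv_mul_cancel_left, mul_inv_cancel, inv_mul_cancel, mul_one, one_mul, inv_one, C])
  have k26 : o.lt (g * m⁻¹) (P * g⁻¹) ↔ o.lt (g * m⁻¹) (P * g⁻¹) := o.cv hδ (1) e3 (by simp only [mul_assoc, mul_inv_rev, inv_inv, mul_inv_cancel_left, inv_mul_cancel_left, mul_inv_cancel, inv_mul_cancel, mul_one, one_mul, inv_one, C]) (by simp only [mul_assoc, mul_inv_rev, inv_inv, mul_inv_cancel_left, inv_mul_cancel_left, mul_inv_cancel, inv_mul_cancel, mul_one, one_mul, inv_one, C])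
  have k27 : o.lt (P * g⁻¹) (P * f⁻¹) ↔ o.lt (P * g⁻¹) (P * f⁻¹) := o.cv hδ (1) e0 (by simp only [mul_assoc, mul_inv_rev, inv_inv, mul_inv_cancel_left, inv_mul_cancel_left, mul_inv_cancel, inv_mul_cancel, mul_one, one_mul, inv_one, C]) (by simp only [mul_assoc, mul_inv_rev, inv_inv, mul_inv_cancel_left, inv_mul_cancel_left, mul_inv_cancel, inv_mul_cancel, mul_one, one_mul, inv_one, C])
  have k28 : o.lt (P * f⁻¹) (g * m⁻¹) ↔ o.lt (P * f⁻¹) (g * m⁻¹) := o.cv hδ (1) e18 (by simp only [mul_assoc, mul_inv_rev, inv_inv, mul_inv_cancel_left, inv_mul_cancel_left, mul_inv_cancel, inv_mul_cancel, mul_one, one_mul, inv_one, C]) (by simp only [mul_assoc, mul_inv_rev, inv_inv, mul_inv_cancel_left, inv_mul_cancel_left, mul_inv_cancel, inv_mul_cancel, mul_one, one_mul, inv_one, C])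
  have k29 : o.lt (f * Q⁻¹) (P * f⁻¹) ↔ o.lt (f * Q⁻¹) (P * f⁻¹) := o.cv hδ (1) e8 (by simp only [mul_assoc, mul_inv_rev, inv_inv, mul_inv_cancel_left, inv_mul_cancel_left, mul_inv_cancel, inv_mul_cancel, mul_one, one_mul, inv_one, C]) (by simp only [mul_assoc, mul_inv_rev, inv_inv, mul_inv_cancel_left, inv_mul_cancel_left, mul_inv_cancel, inv_mul_cancel, mul_one, one_mul, inv_one, C])
  have k30 : o.lt (f * Q⁻¹) (P * g⁻¹) ↔ o.lt (f * Q⁻¹) (P * g⁻¹) := o.cv hδ (1) e4 (by simp only [mul_assoc, mul_inv_rev, inv_inv, mul_inv_cancel_left, inv_mul_cancel_left, mul_inv_cancel, inv_mul_cancel, mul_one, one_mul, inv_one, C]) (by simp only [mul_assoc, mul_inv_rev, inv_inv, mul_inv_cancel_left, inv_mul_cancel_left, mul_inv_cancel, inv_mul_cancel, mul_one, one_mul, inv_one, C])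
  have k31 : o.lt (f * Q⁻¹) (f * m⁻¹) ↔ o.lt (f * Q⁻¹) (f * m⁻¹) := o.cv hδ (1) e21 (by simp only [mul_assoc, mul_inv_rev, inv_inv, mul_inv_cancel_left, inv_mul_cancel_left, mul_inv_cancel, inv_mul_cancel, mul_one, one_mul, inv_one, C]) (by simp only [mul_assoc, mul_inv_rev, inv_inv, mul_inv_cancel_left, inv_mul_cancel_left, mul_inv_cancel, inv_mul_cancel, mul_one, one_mul, inv_one, C])
  have k32 : o.lt (f * Q⁻¹) (g * m⁻¹) ↔ o.lt (f * Q⁻¹) (g * m⁻¹) := o.cv hδ (1) e22 (by simp only [mul_assoc, mul_inv_rev, inv_inv, mul_inv_cancel_left, inv_mul_cancel_left, mul_inv_cancel, inv_mul_cancel, mul_one, one_mul, inv_one, C]) (by simp only [mul_assoc, mul_inv_rev, inv_inv, mul_inv_cancel_left, inv_mul_cancel_left, mul_inv_cancel, inv_mul_cancel, mul_one, one_mul, inv_one, C])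
  have k33 : o.lt (g) (f) ↔ o.lt (g * m⁻¹) (f * m⁻¹) := o.cv hδ (m⁻¹) e17 (by simp only [mul_assoc, mul_inv_rev, inv_inv, mul_inv_cancel_left, inv_mul_cancel_left, mul_inv_cancel, inv_mul_cancel, mul_one, one_mul, inv_one, C]) (by simp only [mul_assoc, mul_inv_rev, inv_inv, mul_inv_cancel_left, inv_mul_cancel_left, mul_inv_cancel, inv_mul_cancel, mul_one, one_mul, inv_one, C])
  have k34 : o.lt (g * Q⁻¹) (P * g⁻¹) ↔ o.lt (g * Q⁻¹) (P * g⁻¹) := o.cv hδ (1) e5 (by simp only [mul_assoc, mul_inv_rev, inv_inv, mul_inv_cancel_left, inv_mul_cancel_left, mul_inv_cancel, inv_mul_cancel, mul_one, one_mul, inv_one, C]) (by simp only [mul_assoc, mul_inv_rev, inv_inv, mul_inv_cancel_left, inv_mul_cancel_left, mul_inv_cancel, inv_mul_cancel, mul_one, one_mul, inv_one, C])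
  have k35 : o.lt (g) (f) ↔ o.lt (g * Q⁻¹) (f * Q⁻¹) := o.cv hδ (Q⁻¹) e17 (by simp only [mul_assoc, mul_inv_rev, inv_inv, mul_inv_cancel_left, inv_mul_cancel_left, mul_inv_cancel, inv_mul_cancel, mul_one, one_mul, inv_one, C]) (by simp only [mul_assoc, mul_inv_rev, inv_inv, mul_inv_cancel_left, inv_mul_cancel_left, mul_inv_cancel, inv_mul_cancel, mul_one, one_mul, inv_one, C])
  have k36 : o.lt (m * g⁻¹) (P * Q⁻¹) ↔ o.lt (m * g⁻¹) (P * Q⁻¹) := o.cv hδ (1) e7 (by simp only [mul_assoc, mul_inv_rev, inv_inv, mul_inv_cancel_left, inv_mul_cancel_left, mul_inv_cancel, inv_mul_cancel, mul_one, one_mul, inv_one, C]) (by simp only [mul_assoc, mul_inv_rev, inv_inv, mul_inv_cancel_left, inv_mul_cancel_left, mul_inv_cancel, inv_mul_cancel, mul_one, one_mul, inv_one, C])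
  have k37 : o.lt (m * f⁻¹) (Q * f⁻¹) ↔ o.lt (m * g⁻¹) (Q * g⁻¹) := o.cv hδ (f * g⁻¹) e23 (by simp only [mul_assoc, mul_inv_rev, inv_inv, mul_inv_cancel_left, inv_mul_cancel_left, mul_inv_cancel, inv_mul_cancel, mul_one, one_mul, inv_one, C]) (by simp only [mul_assoc, mul_inv_rev, inv_inv, mul_inv_cancel_left, inv_mul_cancel_left, mul_inv_cancel, inv_mul_cancel, mul_one, one_mul, inv_one, C])
  have k38 : o.lt (g * Q⁻¹) (P * g⁻¹) ↔ o.lt (Q * g⁻¹) (P * Q⁻¹) := o.cv hδ (Q * (g⁻¹ * (Q * g⁻¹))) e5 (by simp only [mul_assoc, mul_inv_rev, inv_inv, mul_inv_cancel_left, inv_mul_cancel_left, mul_inv_cancel, inv_mul_cancel, mul_one, one_mul, inv_one, C]) (by simp only [mul_assoc, mul_inv_rev, inv_inv, mul_inv_cancel_left, inv_mul_cancel_left, mul_inv_cancel, inv_mul_cancel, mul_one, one_mul, inv_one, C])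
  have k39 : o.lt (Q * f⁻¹) (Q * g⁻¹) ↔ o.lt (Q * f⁻¹) (Q * g⁻¹) := o.cv hδ (1) e24 (by simp only [mul_assoc, mul_inv_rev, inv_inv, mul_inv_cancel_left, inv_mul_cancel_left, mul_inv_cancel, inv_mul_cancel, mul_one, one_mul, inv_one, C]) (by simp only [mul_assoc, mul_inv_rev, inv_inv, mul_inv_cancel_left, inv_mul_cancel_left, mul_inv_cancel, inv_mul_cancel, mul_one, one_mul, inv_one, C])
  have k40 : o.lt (f * Q⁻¹) (P * f⁻¹) ↔ o.lt (Q * f⁻¹) (P * Q⁻¹) := o.cv hδ (Q * (f⁻¹ * (Q * f⁻¹))) e8 (by simp only [mul_assoc, mul_inv_rev, inv_inv, mul_inv_cancel_left, inv_mul_cancel_left, mul_inv_cancel, inv_mul_cancel, mul_one, one_mul, inv_one, C]) (by simp only [mul_assoc, mul_inv_rev, inv_inv, mul_inv_cancel_left, inv_mul_cancel_left, mul_inv_cancel, inv_mul_cancel, mul_one, one_mul, inv_one, C])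
  have k41 : o.lt (P * Q⁻¹) (Q * g⁻¹) ↔ o.lt (P * Q⁻¹) (Q * g⁻¹) := o.cv hδ (1) e16 (by simp only [mul_assoc, mul_inv_rev, inv_inv, mul_inv_cancel_left, inv_mul_cancel_left, mul_inv_cancel, inv_mul_cancel, mul_one, one_mul, inv_one, C]) (by simp only [mul_assoc, mul_inv_rev, inv_inv, mul_inv_cancel_left, inv_mul_cancel_left, mul_inv_cancel, inv_mul_cancel, mul_one, one_mul, inv_one, C])
  have k42 : o.lt (P * m⁻¹) (P * Q⁻¹) ↔ o.lt (P * m⁻¹) (P * Q⁻¹) := o.cv hδ (1) e14 (by simp only [mul_assoc, mul_inv_rev, inv_inv, mul_inv_cancel_left, inv_mul_cancel_left, mul_inv_cancel, inv_mul_cancel, mul_one, one_mul, inv_one, C]) (by simp only [mul_assoc, mul_inv_rev, inv_inv, mul_inv_cancel_left, inv_mul_cancel_left, mul_inv_cancel, inv_mul_cancel, mul_one, one_mul, inv_one, C])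
  have k43 : o.lt (P * g⁻¹) (g * m⁻¹) ↔ o.lt (P * m⁻¹) (m * g⁻¹) := o.cv hδ (g * m⁻¹) e11 (by simp only [mul_assoc, mul_inv_rev, inv_inv, mul_inv_cancel_left, inv_mul_cancel_left, mul_inv_cancel, inv_mul_cancel, mul_one, one_mul, inv_one, C]) (by simp only [mul_assoc, mul_inv_rev, inv_inv, mul_inv_cancel_left, inv_mul_cancel_left, mul_inv_cancel, inv_mul_cancel, mul_one, one_mul, inv_one, C])
  have k44 : o.lt (P * f⁻¹) (f * Q⁻¹) ↔ o.lt (P * Q⁻¹) (Q * f⁻¹) := o.cv hδ (f * Q⁻¹) e19 (by simp only [mul_assoc, mul_inv_rev, inv_inv, mul_inv_cancel_left, inv_mul_cancel_left, mul_inv_cancel, inv_mul_cancel, mul_one, one_mul, inv_one, C]) (by simp only [mul_assoc, mul_inv_rev, inv_inv, mul_inv_cancel_left, inv_mul_cancel_left, mul_inv_cancel, inv_mul_cancel, mul_one, one_mul, inv_one, C])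
  have k45 : o.lt (Q * g⁻¹) (Q * f⁻¹) ↔ o.lt (Q * g⁻¹) (Q * f⁻¹) := o.cv hδ (1) e25 (by simp only [mul_assoc, mul_inv_rev, inv_inv, mul_inv_cancel_left, inv_mul_cancel_left, mul_inv_cancel, inv_mul_cancel, mul_one, one_mul, inv_one, C]) (by simp only [mul_assoc, mul_inv_rev, inv_inv, mul_inv_cancel_left, inv_mul_cancel_left, mul_inv_cancel, inv_mul_cancel, mul_one, one_mul, inv_one, C])
  have k46 : o.lt (P * m⁻¹) (P * (g⁻¹ * (f * Q⁻¹))) ↔ o.lt (P * m⁻¹) (P * (g⁻¹ * (f * Q⁻¹))) := o.cv hδ (1) e13 (by simp only [mul_assoc, mul_inv_rev, inv_inv, mul_inv_cancel_left, inv_mul_cancel_left, mul_inv_cancel, inv_mul_cancel, mul_one, one_mul, inv_one, C]) (by simp only [mul_assoc, mul_inv_rev, inv_inv, mul_inv_cancel_left, inv_mul_cancel_left, mul_inv_cancel, inv_mul_cancel, mul_one, one_mul, inv_one, C])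
  have k47 : o.lt (P * m⁻¹) (P * (g⁻¹ * (f * m⁻¹))) ↔ o.lt (P * Q⁻¹) (P * (g⁻¹ * (f * Q⁻¹))) := o.cv hδ (m * Q⁻¹) e1 (by simp only [mul_assoc, mul_inv_rev, inv_inv, mul_inv_cancel_left, inv_mul_cancel_left, mul_inv_cancel, inv_mul_cancel, mul_one, one_mul, inv_one, C]) (by simp only [mul_assoc, mul_inv_rev, inv_inv, mul_inv_cancel_left, inv_mul_cancel_left, mul_inv_cancel, inv_mul_cancel, mul_one, one_mul, inv_one, C])
  have k48 : o.lt (P * (m⁻¹ * (g * m⁻¹))) (P * (Q⁻¹ * (g * Q⁻¹))) ↔ o.lt (P * (g⁻¹ * (m * P⁻¹))) (P * (g⁻¹ * (Q * P⁻¹))) := o.cv hδ (m * (g⁻¹ * (m * (g⁻¹ * (m * P⁻¹))))) e10 (by simp only [mul_assoc, mul_inv_rev, inv_inv, mul_inv_cancel_left, inv_mul_cancel_left, mul_inv_cancel, inv_mul_cancel, mul_one, one_mul, inv_one, C]) (by simp only [mul_assoc, mul_inv_rev, inv_inv, mul_inv_cancel_left, inv_mul_cancel_left, mul_inv_cancel, inv_mul_cancel, mul_one, one_mul, inv_one, C])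
  have k49 : o.lt (P * g⁻¹) (g * m⁻¹) ↔ o.lt (P * (g⁻¹ * (m * P⁻¹))) (g * P⁻¹) := o.cv hδ (m * P⁻¹) e11 (by simp only [mul_assoc, mul_inv_rev, inv_inv, mul_inv_cancel_left, inv_mul_cancel_left, mul_inv_cancel, inv_mul_cancel, mul_one, one_mul, inv_one, C]) (by simp only [mul_assoc, mul_inv_rev, inv_inv, mul_inv_cancel_left, inv_mul_cancel_left, mul_inv_cancel, inv_mul_cancel, mul_one, one_mul, inv_one, C])
  have k50 : o.lt (g * Q⁻¹) (P * g⁻¹) ↔ o.lt (g * P⁻¹) (P * (g⁻¹ * (Q * P⁻¹))) := o.cv hδ (Q * P⁻¹) e5 (by simp only [mul_assoc, mul_inv_rev, inv_inv, mul_inv_cancel_left, inv_mul_cancel_left, mul_inv_cancel, inv_mul_cancel, mul_one, one_mul, inv_one, C]) (by simp only [mul_assoc, mul_inv_rev, inv_inv, mul_inv_cancel_left, inv_mul_cancel_left, mul_inv_cancel, inv_mul_cancel, mul_one, one_mul, inv_one, C])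
  have k51 : o.lt (P * Q⁻¹) (Q * g⁻¹) ↔ o.lt (P * (g⁻¹ * (Q * P⁻¹))) (g * P⁻¹) := o.cv hδ (Q * (g⁻¹ * (Q * P⁻¹))) e16 (by simp only [mul_assoc, mul_inv_rev, inv_inv, mul_inv_cancel_left, inv_mul_cancel_left, mul_inv_cancel, inv_mul_cancel, mul_one, one_mul, inv_one, C]) (by simp only [mul_assoc, mul_inv_rev, inv_inv, mul_inv_cancel_left, inv_mul_cancel_left, mul_inv_cancel, inv_mul_cancel, mul_one, one_mul, inv_one, C])
  have k52 : o.lt (P * (g⁻¹ * (Q * f⁻¹))) (P * (g⁻¹ * (m * f⁻¹))) ↔ o.lt (P * (g⁻¹ * (Q * P⁻¹))) (P * (g⁻¹ * (m * P⁻¹))) := o.cv hδ (f * P⁻¹) e15 (by simp only [mul_assoc, mul_inv_rev, inv_inv, mul_inv_cancel_left, inv_mul_cancel_left, mul_inv_cancel, inv_mul_cancel, mul_one, one_mul, inv_one, C]) (by simp only [mul_assoc, mul_inv_rev, inv_inv, mul_inv_cancel_left, inv_mul_cancel_left, mul_inv_cancel, inv_mul_cancel, mul_one, one_mul, inv_one, C])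
  have k53 : o.lt (f * m⁻¹) (P * g⁻¹) ↔ o.lt (1) (P * (g⁻¹ * (m * f⁻¹))) := o.cv hδ (m * f⁻¹) e2 (by simp only [mul_assoc, mul_inv_rev, inv_inv, mul_inv_cancel_left, inv_mul_cancel_left, mul_inv_cancel, inv_mul_cancel, mul_one, one_mul, inv_one, C]) (by simp only [mul_assoc, mul_inv_rev, inv_inv, mul_inv_cancel_left, inv_mul_cancel_left, mul_inv_cancel, inv_mul_cancel, mul_one, one_mul, inv_one, C])
  have k54 : o.lt (g * m⁻¹) (P * g⁻¹) ↔ o.lt (1) (P * (g⁻¹ * (m * g⁻¹))) := o.cv hδ (m * g⁻¹) e3 (by simp only [mul_assoc, mul_inv_rev, inv_inv, mul_inv_cancel_left, inv_mul_cancel_left, mul_inv_cancel, inv_mul_cancel, mul_one, one_mul, inv_one, C]) (by simp only [mul_assoc, mul_inv_rev, inv_inv, mul_inv_cancel_left, inv_mul_cancel_left, mul_inv_cancel, inv_mul_cancel, mul_one, one_mul, inv_one, C])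
  have k55 : o.lt (P * (m⁻¹ * (g * m⁻¹))) (P * (g⁻¹ * (m * f⁻¹))) ↔ o.lt (P * (g⁻¹ * (m * g⁻¹))) (P * (g⁻¹ * (m * f⁻¹))) := o.cv hδ (m * (g⁻¹ * (m * (g⁻¹ * (m * g⁻¹))))) e12 (by simp only [mul_assoc, mul_inv_rev, inv_inv, mul_inv_cancel_left, inv_mul_cancel_left, mul_inv_cancel, inv_mul_cancel, mul_one, one_mul, inv_one, C]) (by simp only [mul_assoc, mul_inv_rev, inv_inv, mul_inv_cancel_left, inv_mul_cancel_left, mul_inv_cancel, inv_mul_cancel, mul_one, one_mul, inv_one, C])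
  have k56 : o.lt (P * (m⁻¹ * (g * m⁻¹))) (P * (Q⁻¹ * (g * Q⁻¹))) ↔ o.lt (P * (g⁻¹ * (m * f⁻¹))) (P * (g⁻¹ * (Q * f⁻¹))) := o.cv hδ (m * (g⁻¹ * (m * (g⁻¹ * (m * f⁻¹))))) e10 (by simp only [mul_assoc, mul_inv_rev, inv_inv, mul_inv_cancel_left, inv_mul_cancel_left, mul_inv_cancel, inv_mul_cancel, mul_one, one_mul, inv_one, C]) (by simp only [mul_assoc, mul_inv_rev, inv_inv, mul_inv_cancel_left, inv_mul_cancel_left, mul_inv_cancel, inv_mul_cancel, mul_one, one_mul, inv_one, C])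
  have k57 : o.lt (P * g⁻¹) (f * m⁻¹) ↔ o.lt (P * (g⁻¹ * (m * f⁻¹))) (1) := o.cv hδ (m * f⁻¹) e9 (by simp only [mul_assoc, mul_inv_rev, inv_inv, mul_inv_cancel_left, inv_mul_cancel_left, mul_inv_cancel, inv_mul_cancel, mul_one, one_mul, inv_one, C]) (by simp only [mul_assoc, mul_inv_rev, inv_inv, mul_inv_cancel_left, inv_mul_cancel_left, mul_inv_cancel, inv_mul_cancel, mul_one, one_mul, inv_one, C])
  have k58 : o.lt (f * Q⁻¹) (P * g⁻¹) ↔ o.lt (1) (P * (g⁻¹ * (Q * f⁻¹))) := o.cv hδ (Q * f⁻¹) e4 (by simp only [mul_assoc, mul_inv_rev, inv_inv, mul_inv_cancel_left, inv_mul_cancel_left, mul_inv_cancel, inv_mul_cancel, mul_one, one_mul, inv_one, C]) (by simp only [mul_assoc, mul_inv_rev, inv_inv, mul_inv_cancel_left, inv_mul_cancel_left, mul_inv_cancel, inv_mul_cancel, mul_one, one_mul, inv_one, C])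
  have k59 : o.lt (g) (f) ↔ o.lt (g) (f) := o.cv hδ (1) e17 (by simp only [mul_assoc, mul_inv_rev, inv_inv, mul_inv_cancel_left, inv_mul_cancel_left, mul_inv_cancel, inv_mul_cancel, mul_one, one_mul, inv_one, C]) (by simp only [mul_assoc, mul_inv_rev, inv_inv, mul_inv_cancel_left, inv_mul_cancel_left, mul_inv_cancel, inv_mul_cancel, mul_one, one_mul, inv_one, C])
  exact ser_CEC_2_prop
    (fun b0 b1 b2 b3 => N0.i.r2 1 (fun h => b0 (k0.2 h)) (k1.1 b1) (fun h => b2 (k2.2 h)) (fun h => b3 (k3.2 h)))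
    (fun b0 b1 b2 => N1.i.r0 1 (k4.1 b0) (fun h => b1 (k5.2 h)) (fun h => b2 (k6.2 h)))
    (fun b0 b1 b2 => N1.d.r1 1 (fun h => b0 (k4.2 h)) (k7.1 b1) (fun h => b2 (k8.2 h)))
    (fun b0 b1 b2 => N1.rd.r2 1 (fun h => b0 (k9.2 h)) (fun h => b1 (k10.2 h)) (k11.1 b2))
    (fun b0 b1 b2 => N1.d.r0 (P * g⁻¹) (k12.1 b0) (fun h => b1 (k13.2 h)) (fun h => b2 (k14.2 h)))
    (fun b0 b1 b2 => N1.r.r1 (P * g⁻¹) (fun h => b0 (k15.2 h)) (k16.1 b1) (fun h => b2 (k17.2 h)))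
    (fun b0 b1 b2 => N1.d.r2 (P * g⁻¹) (fun h => b0 (k16.2 h)) (fun h => b1 (k18.2 h)) (k19.1 b2))
    (fun b0 b1 b2 => o.tri (k20.1 b0) (fun h => b1 (k21.2 h)) (fun h => b2 (k22.2 h)))
    (fun b0 b1 => o.asym (k23.1 b0) (k24.1 b1))
    (fun b0 b1 => o.asym (k25.1 b0) (k26.1 b1))
    (fun b0 b1 b2 => o.tri (k25.1 b0) (fun h => b1 (k27.2 h)) (fun h => b2 (k28.2 h)))
    (fun b0 b1 b2 => o.tri (k29.1 b0) (fun h => b1 (k30.2 h)) (fun h => b2 (k27.2 h)))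
    (fun b0 b1 b2 => o.tri (k31.1 b0) (fun h => b1 (k32.2 h)) (fun h => b2 (k33.2 h)))
    (fun b0 b1 b2 => o.tri (k32.1 b0) (fun h => b1 (k30.2 h)) (fun h => b2 (k25.2 h)))
    (fun b0 b1 b2 => o.tri (k34.1 b0) (fun h => b1 (k35.2 h)) (fun h => b2 (k30.2 h)))
    (fun b0 b1 b2 => o.tri (k36.1 b0) (fun h => b1 (k37.2 h)) (fun h => b2 (k38.2 h)))
    (fun b0 b1 b2 => o.tri (k39.1 b0) (fun h => b1 (k40.2 h)) (fun h => b2 (k41.2 h)))
    (fun b0 b1 b2 => o.tri (k42.1 b0) (fun h => b1 (k43.2 h)) (fun h => b2 (k36.2 h)))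
    (fun b0 b1 b2 => o.tri (k44.1 b0) (fun h => b1 (k41.2 h)) (fun h => b2 (k45.2 h)))
    (fun b0 b1 b2 => o.tri (k46.1 b0) (fun h => b1 (k42.2 h)) (fun h => b2 (k47.2 h)))
    (fun b0 b1 b2 => o.tri (k48.1 b0) (fun h => b1 (k49.2 h)) (fun h => b2 (k50.2 h)))
    (fun b0 b1 b2 => o.tri (k51.1 b0) (fun h => b1 (k52.2 h)) (fun h => b2 (k49.2 h)))
    (fun b0 b1 b2 => o.tri (k53.1 b0) (fun h => b1 (k54.2 h)) (fun h => b2 (k55.2 h)))
    (fun b0 b1 b2 => o.tri (k56.1 b0) (fun h => b1 (k57.2 h)) (fun h => b2 (k58.2 h)))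
    (fun h => g0 (k27.1 h))
    (k20.2 g1)
    (fun h => g2 (k30.1 h))
    (fun h => g3 (k59.1 h))

end Pool.Agent.K7.H31.SA
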