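import Pool.Agent.K7.H31.SA.Rules

set_option autoImplicit false
set_option maxRecDepth 100000
set_option linter.all false

/-!
# Generated order arguments
-/

namespace Pool.Agent.K7.H31.SA

theorem par_EEE_0_prop {A1 A2 A3 A4 A5 A6 A7 A8 A9 A10 A11 A12 A13 A14 A15 A16 A17 : Prop}
    (c0 : A7 → ¬ A8 → False)
    (c1 : A12 → ¬ A10 → False)
    (c2 : ¬ A10 → A11 → ¬ A14 → False)
    (c3 : ¬ A11 → ¬ A15 → A16 → False)
    (c4 : A14 → ¬ A17 → False)
    (c5 : A8 → ¬ A3 → ¬ A6 → False)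
    (c6 : A13 → ¬ A12 → False)
    (c7 : ¬ A13 → A9 → ¬ A3 → False)
    (c8 : ¬ A9 → ¬ A1 → A4 → False)
    (c9 : A7 → A10 → False)
    (c10 : A15 → ¬ A5 → ¬ A2 → False)
    (c11 : A16 → A17 → False)
    (c12 : A6 → ¬ A4 → ¬ A1 → False)
    (c13 : A3 → ¬ A2 → ¬ A16 → False)
    (c14 : A1 → ¬ A2 → ¬ A5 → False)
    (u0 : A7)
    (u1 : ¬ A2)
    (u2 : ¬ A5)
    : False := by
  have q1 : A8 := Classical.byContradiction fun h => c0 u0 h
  have q2 : ¬ A10 := fun h => c9 u0 h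
  have q3 : ¬ A12 := fun h => c1 h q2
  have q4 : ¬ A13 := fun h => c6 h q3
  have q5 : ¬ A15 := fun h => c10 h u2 u1
  have q6 : ¬ A1 := fun h => c14 h u1 u2
  rcases Classical.em A3 with q7 | q7
  · have q8 : A16 := Classical.byContradiction fun h => c13 q7 u1 h
    have q9 : A11 := Classical.byContradiction fun h => c3 h q5 q8
    have q10 : A14 := Classical.byContradiction fun h => c2 q2 q9 h
    have q11 : A17 := Classical.byContradiction fun h => c4 q10 h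
    exact c11 q8 q11
  · have q12 : A6 := Classical.byContradiction fun h => c5 q1 q7 h
    have q13 : ¬ A9 := fun h => c7 q4 h q7
    have q14 : ¬ A4 := fun h => c8 q13 q6 h
    exact c12 q12 q14 q6

theorem par_EEE_0 {G : Type*} [Group G] {δ : G → ZMod 3} (hδ : ∀ u v, δ (u * v) = δ u + δ v) (o : Pre δ)
    {P Q f x g : G} {e : ZMod 3} (h3 : 3 * e = 0)
    (D : δ P = e ∧ δ Q = e ∧ δ f = 0 ∧ δ x = 0 ∧ δ g = 0)
    (C : Cube P f ∧ Cube P x ∧ Cube P g ∧ Cube Q f ∧ Cube Q x ∧ Cube Q g)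
    (N0 : RE o P Q f x)
    (N1 : RE o P Q x g)
    (g0 : o.lt (P * f⁻¹) (Q * f⁻¹)) (g1 : ¬ o.lt ((P * g⁻¹)⁻¹) ((P * f⁻¹)⁻¹)) (g2 : ¬ o.lt ((Q * f⁻¹)⁻¹) ((P * g⁻¹)⁻¹)) : False := by
  simp only [Cube] at C
  have e0 : δ (g * Q⁻¹) = δ (g * P⁻¹) := by simp only [hδ, δinv hδ, δone hδ, D] <;> linear_combination (0) * h3
  have e1 : δ (g * P⁻¹) = δ (f * P⁻¹) := by simp only [hδ, δinv hδ, δone hδ, D] <;> linear_combination (0) * h3
  have e2 : δ (g * P⁻¹) = δ (x * P⁻¹) := by simp only [hδ, δinv hδ, δone hδ, D] <;> linear_combination (0) * h3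
  have e3 : δ (x * P⁻¹) = δ (g * P⁻¹) := by simp only [hδ, δinv hδ, δone hδ, D] <;> linear_combination (0) * h3
  have e4 : δ (f * Q⁻¹) = δ (g * P⁻¹) := by simp only [hδ, δinv hδ, δone hδ, D] <;> linear_combination (0) * h3
  have e5 : δ (x * Q⁻¹) = δ (g * P⁻¹) := by simp only [hδ, δinv hδ, δone hδ, D] <;> linear_combination (0) * h3
  have e6 : δ (P * f⁻¹) = δ (Q * f⁻¹) := by simp only [hδ, δinv hδ, δone hδ, D] <;> linear_combination (0) * h3
  have e7 : δ (P * x⁻¹) = δ (Q * x⁻¹) := by simp only [hδ, δinv hδ, δone hδ, D] <;> linear_combination (0) * h3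
  have e8 : δ (P * x⁻¹) = δ (P * g⁻¹) := by simp only [hδ, δinv hδ, δone hδ, D] <;> linear_combination (0) * h3
  have e9 : δ (Q * f⁻¹) = δ (P * f⁻¹) := by simp only [hδ, δinv hδ, δone hδ, D] <;> linear_combination (0) * h3
  have e10 : δ (Q * f⁻¹) = δ (Q * x⁻¹) := by simp only [hδ, δinv hδ, δone hδ, D] <;> linear_combination (0) * h3
  have e11 : δ (Q * x⁻¹) = δ (P * x⁻¹) := by simp only [hδ, δinv hδ, δone hδ, D] <;> linear_combination (0) * h3
  have e12 : δ (Q * g⁻¹) = δ (P * g⁻¹) := by simp only [hδ, δinv hδ, δone hδ, D] <;> linear_combination (0) * h3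
  have e13 : δ (x * P⁻¹) = δ (f * P⁻¹) := by simp only [hδ, δinv hδ, δone hδ, D] <;> linear_combination (0) * h3
  have e14 : δ (f * Q⁻¹) = δ (f * P⁻¹) := by simp only [hδ, δinv hδ, δone hδ, D] <;> linear_combination (0) * h3
  have e15 : δ (f * Q⁻¹) = δ (x * Q⁻¹) := by simp only [hδ, δinv hδ, δone hδ, D] <;> linear_combination (0) * h3
  have e16 : δ (x * Q⁻¹) = δ (f * Q⁻¹) := by simp only [hδ, δinv hδ, δone hδ, D] <;> linear_combination (0) * h3
  have k0 : o.lt (P * f⁻¹) (Q * f⁻¹) ↔ o.lt (1 * (P * f⁻¹)) (1 * (Q * f⁻¹)) := o.cv hδ (1) e6 (by simp only [mul_assoc, mul_inv_rev, inv_inv, mul_inv_cancel_left, inv_mul_cancel_left, mul_inv_cancel, inv_mul_cancel, mul_one, one_mul, inv_one, C]) (by simp only [mul_assoc, mul_inv_rev, inv_inv, mul_inv_cancel_left, inv_mul_cancel_left, mul_inv_cancel, inv_mul_cancel, mul_one, one_mul, inv_one, C])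
  have k1 : o.lt (P * x⁻¹) (Q * x⁻¹) ↔ o.lt (1 * (P * x⁻¹)) (1 * (Q * x⁻¹)) := o.cv hδ (1) e7 (by simp only [mul_assoc, mul_inv_rev, inv_inv, mul_inv_cancel_left, inv_mul_cancel_left, mul_inv_cancel, inv_mul_cancel, mul_one, one_mul, inv_one, C]) (by simp only [mul_assoc, mul_inv_rev, inv_inv, mul_inv_cancel_left, inv_mul_cancel_left, mul_inv_cancel, inv_mul_cancel, mul_one, one_mul, inv_one, C])
  have k2 : o.lt (Q * x⁻¹) (P * x⁻¹) ↔ o.lt (1 * (Q * x⁻¹)) (1 * (P * x⁻¹)) := o.cv hδ (1) e11 (by simp only [mul_assoc, mul_inv_rev, inv_inv, mul_inv_cancel_left, inv_mul_cancel_left, mul_inv_cancel, inv_mul_cancel, mul_one, one_mul, inv_one, C]) (by simp only [mul_assoc, mul_inv_rev, inv_inv, mul_inv_cancel_left, inv_mul_cancel_left, mul_inv_cancel, inv_mul_cancel, mul_one, one_mul, inv_one, C])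
  have k3 : o.lt (Q * f⁻¹) (P * f⁻¹) ↔ o.lt (1 * (Q * f⁻¹)) (1 * (P * f⁻¹)) := o.cv hδ (1) e9 (by simp only [mul_assoc, mul_inv_rev, inv_inv, mul_inv_cancel_left, inv_mul_cancel_left, mul_inv_cancel, inv_mul_cancel, mul_one, one_mul, inv_one, C]) (by simp only [mul_assoc, mul_inv_rev, inv_inv, mul_inv_cancel_left, inv_mul_cancel_left, mul_inv_cancel, inv_mul_cancel, mul_one, one_mul, inv_one, C])
  have k4 : o.lt (Q * f⁻¹) (Q * x⁻¹) ↔ o.lt (1 * (Q * f⁻¹)) (1 * (Q * x⁻¹)) := o.cv hδ (1) e10 (by simp only [mul_assoc, mul_inv_rev, inv_inv, mul_inv_cancel_left, inv_mul_cancel_left, mul_inv_cancel, inv_mul_cancel, mul_one, one_mul, inv_one, C]) (by simp only [mul_assoc, mul_inv_rev, inv_inv, mul_inv_cancel_left, inv_mul_cancel_left, mul_inv_cancel, inv_mul_cancel, mul_one, one_mul, inv_one, C])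
  have k5 : o.lt (x * P⁻¹) (f * P⁻¹) ↔ o.lt (1 * (P * x⁻¹)⁻¹) (1 * (P * f⁻¹)⁻¹) := o.cv hδ (1) e13 (by simp only [mul_assoc, mul_inv_rev, inv_inv, mul_inv_cancel_left, inv_mul_cancel_left, mul_inv_cancel, inv_mul_cancel, mul_one, one_mul, inv_one, C]) (by simp only [mul_assoc, mul_inv_rev, inv_inv, mul_inv_cancel_left, inv_mul_cancel_left, mul_inv_cancel, inv_mul_cancel, mul_one, one_mul, inv_one, C])
  have k6 : o.lt (f * Q⁻¹) (f * P⁻¹) ↔ o.lt (1 * (Q * f⁻¹)⁻¹) (1 * (P * f⁻¹)⁻¹) := o.cv hδ (1) e14 (by simp only [mul_assoc, mul_inv_rev, inv_inv, mul_inv_cancel_left, inv_mul_cancel_left, mul_inv_cancel, inv_mul_cancel, mul_one, one_mul, inv_one, C]) (by simp only [mul_assoc, mul_inv_rev, inv_inv, mul_inv_cancel_left, inv_mul_cancel_left, mul_inv_cancel, inv_mul_cancel, mul_one, one_mul, inv_one, C])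
  have k7 : o.lt (f * Q⁻¹) (x * Q⁻¹) ↔ o.lt (1 * (Q * f⁻¹)⁻¹) (1 * (Q * x⁻¹)⁻¹) := o.cv hδ (1) e15 (by simp only [mul_assoc, mul_inv_rev, inv_inv, mul_inv_cancel_left, inv_mul_cancel_left, mul_inv_cancel, inv_mul_cancel, mul_one, one_mul, inv_one, C]) (by simp only [mul_assoc, mul_inv_rev, inv_inv, mul_inv_cancel_left, inv_mul_cancel_left, mul_inv_cancel, inv_mul_cancel, mul_one, one_mul, inv_one, C])
  have k8 : o.lt (x * Q⁻¹) (f * Q⁻¹) ↔ o.lt (1 * (Q * x⁻¹)⁻¹) (1 * (Q * f⁻¹)⁻¹) := o.cv hδ (1) e16 (by simp only [mul_assoc, mul_inv_rev, inv_inv, mul_inv_cancel_left, inv_mul_cancel_left, mul_inv_cancel, inv_mul_cancel, mul_one, one_mul, inv_one, C]) (by simp only [mul_assoc, mul_inv_rev, inv_inv, mul_inv_cancel_left, inv_mul_cancel_left, mul_inv_cancel, inv_mul_cancel, mul_one, one_mul, inv_one, C])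
  have k9 : o.lt (g * P⁻¹) (x * P⁻¹) ↔ o.lt (1 * (P * g⁻¹)⁻¹) (1 * (P * x⁻¹)⁻¹) := o.cv hδ (1) e2 (by simp only [mul_assoc, mul_inv_rev, inv_inv, mul_inv_cancel_left, inv_mul_cancel_left, mul_inv_cancel, inv_mul_cancel, mul_one, one_mul, inv_one, C]) (by simp only [mul_assoc, mul_inv_rev, inv_inv, mul_inv_cancel_left, inv_mul_cancel_left, mul_inv_cancel, inv_mul_cancel, mul_one, one_mul, inv_one, C])
  have k10 : o.lt (x * Q⁻¹) (g * P⁻¹) ↔ o.lt (1 * (Q * x⁻¹)⁻¹) (1 * (P * g⁻¹)⁻¹) := o.cv hδ (1) e5 (by simp only [mul_assoc, mul_inv_rev, inv_inv, mul_inv_cancel_left, inv_mul_cancel_left, mul_inv_cancel, inv_mul_cancel, mul_one, one_mul, inv_one, C]) (by simp only [mul_assoc, mul_inv_rev, inv_inv, mul_inv_cancel_left, inv_mul_cancel_left, mul_inv_cancel, inv_mul_cancel, mul_one, one_mul, inv_one, C])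
  have k11 : o.lt (Q * g⁻¹) (P * g⁻¹) ↔ o.lt (1 * (Q * g⁻¹)) (1 * (P * g⁻¹)) := o.cv hδ (1) e12 (by simp only [mul_assoc, mul_inv_rev, inv_inv, mul_inv_cancel_left, inv_mul_cancel_left, mul_inv_cancel, inv_mul_cancel, mul_one, one_mul, inv_one, C]) (by simp only [mul_assoc, mul_inv_rev, inv_inv, mul_inv_cancel_left, inv_mul_cancel_left, mul_inv_cancel, inv_mul_cancel, mul_one, one_mul, inv_one, C])
  have k12 : o.lt (P * x⁻¹) (P * g⁻¹) ↔ o.lt (1 * (P * x⁻¹)) (1 * (P * g⁻¹)) := o.cv hδ (1) e8 (by simp only [mul_assoc, mul_inv_rev, inv_inv, mul_inv_cancel_left, inv_mul_cancel_left, mul_inv_cancel, inv_mul_cancel, mul_one, one_mul, inv_one, C]) (by simp only [mul_assoc, mul_inv_rev, inv_inv, mul_inv_cancel_left, inv_mul_cancel_left, mul_inv_cancel, inv_mul_cancel, mul_one, one_mul, inv_one, C])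
  have k13 : o.lt (g * P⁻¹) (x * P⁻¹) ↔ o.lt (1 * (Q * g⁻¹)⁻¹) (1 * (Q * x⁻¹)⁻¹) := o.cv hδ (P * Q⁻¹) e2 (by simp only [mul_assoc, mul_inv_rev, inv_inv, mul_inv_cancel_left, inv_mul_cancel_left, mul_inv_cancel, inv_mul_cancel, mul_one, one_mul, inv_one, C]) (by simp only [mul_assoc, mul_inv_rev, inv_inv, mul_inv_cancel_left, inv_mul_cancel_left, mul_inv_cancel, inv_mul_cancel, mul_one, one_mul, inv_one, C])
  have k14 : o.lt (g * Q⁻¹) (g * P⁻¹) ↔ o.lt (1 * (Q * g⁻¹)⁻¹) (1 * (P * g⁻¹)⁻¹) := o.cv hδ (1) e0 (by simp only [mul_assoc, mul_inv_rev, inv_inv, mul_inv_cancel_left, inv_mul_cancel_left, mul_inv_cancel, inv_mul_cancel, mul_one, one_mul, inv_one, C]) (by simp only [mul_assoc, mul_inv_rev, inv_inv, mul_inv_cancel_left, inv_mul_cancel_left, mul_inv_cancel, inv_mul_cancel, mul_one, one_mul, inv_one, C])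
  have k15 : o.lt (x * P⁻¹) (g * P⁻¹) ↔ o.lt (1 * (P * x⁻¹)⁻¹) (1 * (P * g⁻¹)⁻¹) := o.cv hδ (1) e3 (by simp only [mul_assoc, mul_inv_rev, inv_inv, mul_inv_cancel_left, inv_mul_cancel_left, mul_inv_cancel, inv_mul_cancel, mul_one, one_mul, inv_one, C]) (by simp only [mul_assoc, mul_inv_rev, inv_inv, mul_inv_cancel_left, inv_mul_cancel_left, mul_inv_cancel, inv_mul_cancel, mul_one, one_mul, inv_one, C])
  have k16 : o.lt (P * f⁻¹) (Q * f⁻¹) ↔ o.lt (P * f⁻¹) (Q * f⁻¹) := o.cv hδ (1) e6 (by simp only [mul_assoc, mul_inv_rev, inv_inv, mul_inv_cancel_left, inv_mul_cancel_left, mul_inv_cancel, inv_mul_cancel, mul_one, one_mul, inv_one, C]) (by simp only [mul_assoc, mul_inv_rev, inv_inv, mul_inv_cancel_left, inv_mul_cancel_left, mul_inv_cancel, inv_mul_cancel, mul_one, one_mul, inv_one, C])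
  have k17 : o.lt (Q * f⁻¹) (P * f⁻¹) ↔ o.lt (Q * f⁻¹) (P * f⁻¹) := o.cv hδ (1) e9 (by simp only [mul_assoc, mul_inv_rev, inv_inv, mul_inv_cancel_left, inv_mul_cancel_left, mul_inv_cancel, inv_mul_cancel, mul_one, one_mul, inv_one, C]) (by simp only [mul_assoc, mul_inv_rev, inv_inv, mul_inv_cancel_left, inv_mul_cancel_left, mul_inv_cancel, inv_mul_cancel, mul_one, one_mul, inv_one, C])
  have k18 : o.lt (f * Q⁻¹) (f * P⁻¹) ↔ o.lt (f * Q⁻¹) (f * P⁻¹) := o.cv hδ (1) e14 (by simp only [mul_assoc, mul_inv_rev, inv_inv, mul_inv_cancel_left, inv_mul_cancel_left, mul_inv_cancel, inv_mul_cancel, mul_one, one_mul, inv_one, C]) (by simp only [mul_assoc, mul_inv_rev, inv_inv, mul_inv_cancel_left, inv_mul_cancel_left, mul_inv_cancel, inv_mul_cancel, mul_one, one_mul, inv_one, C])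
  have k19 : o.lt (f * Q⁻¹) (g * P⁻¹) ↔ o.lt (f * Q⁻¹) (g * P⁻¹) := o.cv hδ (1) e4 (by simp only [mul_assoc, mul_inv_rev, inv_inv, mul_inv_cancel_left, inv_mul_cancel_left, mul_inv_cancel, inv_mul_cancel, mul_one, one_mul, inv_one, C]) (by simp only [mul_assoc, mul_inv_rev, inv_inv, mul_inv_cancel_left, inv_mul_cancel_left, mul_inv_cancel, inv_mul_cancel, mul_one, one_mul, inv_one, C])
  have k20 : o.lt (g * P⁻¹) (f * P⁻¹) ↔ o.lt (g * P⁻¹) (f * P⁻¹) := o.cv hδ (1) e1 (by simp only [mul_assoc, mul_inv_rev, inv_inv, mul_inv_cancel_left, inv_mul_cancel_left, mul_inv_cancel, inv_mul_cancel, mul_one, one_mul, inv_one, C]) (by simp only [mul_assoc, mul_inv_rev, inv_inv, mul_inv_cancel_left, inv_mul_cancel_left, mul_inv_cancel, inv_mul_cancel, mul_one, one_mul, inv_one, C])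
  have k21 : o.lt (f * Q⁻¹) (x * Q⁻¹) ↔ o.lt (f * Q⁻¹) (x * Q⁻¹) := o.cv hδ (1) e15 (by simp only [mul_assoc, mul_inv_rev, inv_inv, mul_inv_cancel_left, inv_mul_cancel_left, mul_inv_cancel, inv_mul_cancel, mul_one, one_mul, inv_one, C]) (by simp only [mul_assoc, mul_inv_rev, inv_inv, mul_inv_cancel_left, inv_mul_cancel_left, mul_inv_cancel, inv_mul_cancel, mul_one, one_mul, inv_one, C])
  have k22 : o.lt (x * Q⁻¹) (f * Q⁻¹) ↔ o.lt (x * Q⁻¹) (f * Q⁻¹) := o.cv hδ (1) e16 (by simp only [mul_assoc, mul_inv_rev, inv_inv, mul_inv_cancel_left, inv_mul_cancel_left, mul_inv_cancel, inv_mul_cancel, mul_one, one_mul, inv_one, C]) (by simp only [mul_assoc, mul_inv_rev, inv_inv, mul_inv_cancel_left, inv_mul_cancel_left, mul_inv_cancel, inv_mul_cancel, mul_one, one_mul, inv_one, C])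
  have k23 : o.lt (x * Q⁻¹) (g * P⁻¹) ↔ o.lt (x * Q⁻¹) (g * P⁻¹) := o.cv hδ (1) e5 (by simp only [mul_assoc, mul_inv_rev, inv_inv, mul_inv_cancel_left, inv_mul_cancel_left, mul_inv_cancel, inv_mul_cancel, mul_one, one_mul, inv_one, C]) (by simp only [mul_assoc, mul_inv_rev, inv_inv, mul_inv_cancel_left, inv_mul_cancel_left, mul_inv_cancel, inv_mul_cancel, mul_one, one_mul, inv_one, C])
  have k24 : o.lt (x * P⁻¹) (g * P⁻¹) ↔ o.lt (x * Q⁻¹) (g * Q⁻¹) := o.cv hδ (P * Q⁻¹) e3 (by simp only [mul_assoc, mul_inv_rev, inv_inv, mul_inv_cancel_left, inv_mul_cancel_left, mul_inv_cancel, inv_mul_cancel, mul_one, one_mul, inv_one, C]) (by simp only [mul_assoc, mul_inv_rev, inv_inv, mul_inv_cancel_left, inv_mul_cancel_left, mul_inv_cancel, inv_mul_cancel, mul_one, one_mul, inv_one, C])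
  have k25 : o.lt (g * Q⁻¹) (g * P⁻¹) ↔ o.lt (g * Q⁻¹) (g * P⁻¹) := o.cv hδ (1) e0 (by simp only [mul_assoc, mul_inv_rev, inv_inv, mul_inv_cancel_left, inv_mul_cancel_left, mul_inv_cancel, inv_mul_cancel, mul_one, one_mul, inv_one, C]) (by simp only [mul_assoc, mul_inv_rev, inv_inv, mul_inv_cancel_left, inv_mul_cancel_left, mul_inv_cancel, inv_mul_cancel, mul_one, one_mul, inv_one, C])
  have k26 : o.lt (g * P⁻¹) (x * P⁻¹) ↔ o.lt (g * Q⁻¹) (x * Q⁻¹) := o.cv hδ (P * Q⁻¹) e2 (by simp only [mul_assoc, mul_inv_rev, inv_inv, mul_inv_cancel_left, inv_mul_cancel_left, mul_inv_cancel, inv_mul_cancel, mul_one, one_mul, inv_one, C]) (by simp only [mul_assoc, mul_inv_rev, inv_inv, mul_inv_cancel_left, inv_mul_cancel_left, mul_inv_cancel, inv_mul_cancel, mul_one, one_mul, inv_one, C])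
  have k27 : o.lt (g * P⁻¹) (f * P⁻¹) ↔ o.lt (g * Q⁻¹) (f * Q⁻¹) := o.cv hδ (P * Q⁻¹) e1 (by simp only [mul_assoc, mul_inv_rev, inv_inv, mul_inv_cancel_left, inv_mul_cancel_left, mul_inv_cancel, inv_mul_cancel, mul_one, one_mul, inv_one, C]) (by simp only [mul_assoc, mul_inv_rev, inv_inv, mul_inv_cancel_left, inv_mul_cancel_left, mul_inv_cancel, inv_mul_cancel, mul_one, one_mul, inv_one, C])
  have k28 : o.lt (g * P⁻¹) (f * P⁻¹) ↔ o.lt ((P * g⁻¹)⁻¹) ((P * f⁻¹)⁻¹) := o.cv hδ (1) e1 (by simp only [mul_assoc, mul_inv_rev, inv_inv, mul_inv_cancel_left, inv_mul_cancel_left, mul_inv_cancel, inv_mul_cancel, mul_one, one_mul, inv_one, C]) (by simp only [mul_assoc, mul_inv_rev, inv_inv, mul_inv_cancel_left, inv_mul_cancel_left, mul_inv_cancel, inv_mul_cancel, mul_one, one_mul, inv_one, C])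
  have k29 : o.lt (f * Q⁻¹) (g * P⁻¹) ↔ o.lt ((Q * f⁻¹)⁻¹) ((P * g⁻¹)⁻¹) := o.cv hδ (1) e4 (by simp only [mul_assoc, mul_inv_rev, inv_inv, mul_inv_cancel_left, inv_mul_cancel_left, mul_inv_cancel, inv_mul_cancel, mul_one, one_mul, inv_one, C]) (by simp only [mul_assoc, mul_inv_rev, inv_inv, mul_inv_cancel_left, inv_mul_cancel_left, mul_inv_cancel, inv_mul_cancel, mul_one, one_mul, inv_one, C])
  exact par_EEE_0_prop
    (fun b0 b1 => b1 (k1.2 ((o.cv hδ (f * x⁻¹) (by simp only [hδ, δinv hδ, δone hδ, D] <;> linear_combination (0) * h3) (by simp only [mul_assoc, mul_inv_rev, inv_inv, mul_inv_cancel_left, inv_mul_cancel_left, mul_inv_cancel, inv_mul_cancel, mul_one, one_mul, inv_one, C]) (by simp only [mul_assoc, mul_inv_rev, inv_inv, mul_inv_cancel_left, inv_mul_cancel_left, mul_inv_cancel, inv_mul_cancel, mul_one, one_mul, inv_one, C]) : o.lt (1 * (P * f⁻¹)) (1 * (Q * f⁻¹)) ↔ o.lt (1 * (P * x⁻¹)) (1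 * (Q * x⁻¹))).1 (k0.1 b0))))
    (fun b0 b1 => b1 (k3.2 ((o.cv hδ (x * f⁻¹) (by simp only [hδ, δinv hδ, δone hδ, D] <;> linear_combination (0) * h3) (by simp only [mul_assoc, mul_inv_rev, inv_inv, mul_inv_cancel_left, inv_mul_cancel_left, mul_inv_cancel, inv_mul_cancel, mul_one, one_mul, inv_one, C]) (by simp only [mul_assoc, mul_inv_rev, inv_inv, mul_inv_cancel_left, inv_mul_cancel_left, mul_inv_cancel, inv_mul_cancel, mul_one, one_mul, inv_one, C]) : o.lt (1 * (Q * x⁻¹)) (1 * (P * x⁻¹)) ↔ o.lt (1 * (Q * f⁻¹)) (1 * (P * f⁻¹))).1 (k2.1 b0))))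
    (fun b0 b1 b2 => N0.i.r1 1 (fun h => b0 (k3.2 h)) (k4.1 b1) (fun h => b2 (k5.2 h)))
    (fun b0 b1 b2 => N0.rd.r2 1 (fun h => b0 (k4.2 h)) (fun h => b1 (k6.2 h)) (k7.1 b2))
    (fun b0 b1 => b1 (k8.2 ((o.cv hδ (P * Q⁻¹) (by simp only [hδ, δinv hδ, δone hδ, D] <;> linear_combination (0) * h3) (by simp only [mul_assoc, mul_inv_rev, inv_inv, mul_inv_cancel_left, inv_mul_cancel_left, mul_inv_cancel, inv_mul_cancel, mul_one, one_mul, inv_one, C]) (by simp only [mul_assoc, mul_inv_rev, inv_inv, mul_inv_cancel_left, inv_mul_cancel_left, mul_inv_cancel, inv_mul_cancel, mul_one, one_mul, inv_one, C]) : o.lt (1 * (P * x⁻¹)⁻¹) (1 * (P * f⁻¹)⁻¹) ↔ o.lt (1 * (Q * x⁻¹)⁻¹) (1 * (Q * f⁻¹)⁻¹)).1 (k5.1 b0))))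
    (fun b0 b1 b2 => N1.i.r0 1 (k1.1 b0) (fun h => b1 (k9.2 h)) (fun h => b2 (k10.2 h)))
    (fun b0 b1 => b1 (k2.2 ((o.cv hδ (g * x⁻¹) (by simp only [hδ, δinv hδ, δone hδ, D] <;> linear_combination (0) * h3) (by simp only [mul_assoc, mul_inv_rev, inv_inv, mul_inv_cancel_left, inv_mul_cancel_left, mul_inv_cancel, inv_mul_cancel, mul_one, one_mul, inv_one, C]) (by simp only [mul_assoc, mul_inv_rev, inv_inv, mul_inv_cancel_left, inv_mul_cancel_left, mul_inv_cancel, inv_mul_cancel, mul_one, one_mul, inv_one, C]) : o.lt (1 * (Q * g⁻¹)) (1 * (P * g⁻¹)) ↔ o.lt (1 * (Q * x⁻¹)) (1 * (P * x⁻¹))).1 (k11.1 b0))))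
    (fun b0 b1 b2 => N1.rd.r1 1 (fun h => b0 (k11.2 h)) (k12.1 b1) (fun h => b2 (k13.2 h)))
    (fun b0 b1 b2 => N1.i.r2 1 (fun h => b0 (k12.2 h)) (fun h => b1 (k14.2 h)) (k15.1 b2))
    (fun b0 b1 => o.asym (k16.1 b0) (k17.1 b1))
    (fun b0 b1 b2 => o.tri (k18.1 b0) (fun h => b1 (k19.2 h)) (fun h => b2 (k20.2 h)))
    (fun b0 b1 => o.asym (k21.1 b0) (k22.1 b1))
    (fun b0 b1 b2 => o.tri (k23.1 b0) (fun h => b1 (k24.2 h)) (fun h => b2 (k25.2 h)))
    (fun b0 b1 b2 => o.tri (k26.1 b0) (fun h => b1 (k27.2 h)) (fun h => b2 (k21.2 h)))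
    (fun b0 b1 b2 => o.tri (k25.1 b0) (fun h => b1 (k27.2 h)) (fun h => b2 (k19.2 h)))
    (k16.2 g0)
    (fun h => g1 (k28.1 h))
    (fun h => g2 (k29.1 h))

theorem par_EEE_1_prop {A1 A2 A3 A4 A5 A6 A7 A8 A9 A10 A11 A12 A13 A14 A15 A16 A17 A18 A19 : Prop}
    (c0 : ¬ A3 → A2 → ¬ A14 → False)
    (c1 : ¬ A3 → A16 → ¬ A14 → False)
    (c2 : ¬ A16 → ¬ A13 → A8 → False)
    (c3 : ¬ A3 → A12 → ¬ A11 → False)
    (c4 : ¬ A4 → ¬ A7 → A11 → False)
    (c5 : ¬ A6 → A5 → ¬ A1 → False)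
    (c6 : ¬ A5 → ¬ A3 → A2 → False)
    (c7 : ¬ A9 → A10 → ¬ A12 → False)
    (c8 : A17 → A18 → False)
    (c9 : A17 → ¬ A2 → ¬ A12 → False)
    (c10 : A1 → ¬ A12 → ¬ A18 → False)
    (c11 : A4 → ¬ A18 → ¬ A2 → False)
    (c12 : A14 → ¬ A15 → ¬ A19 → False)
    (c13 : A7 → A13 → False)
    (c14 : A15 → A11 → False)
    (c15 : A11 → ¬ A19 → ¬ A8 → False)
    (c16 : A9 → A6 → False)
    (c17 : A15 → ¬ A10 → ¬ A12 → False)
    (u0 : ¬ A3)
    (u1 : A17)
    (u2 : ¬ A19)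
    : False := by
  have q1 : ¬ A18 := fun h => c8 u1 h
  rcases Classical.em A2 with q2 | q2
  · have q3 : A14 := Classical.byContradiction fun h => c0 u0 q2 h
    have q4 : A5 := Classical.byContradiction fun h => c6 h u0 q2
    have q5 : A15 := Classical.byContradiction fun h => c12 q3 h u2
    have q6 : ¬ A11 := fun h => c14 q5 h
    have q7 : ¬ A12 := fun h => c3 u0 h q6
    have q8 : ¬ A1 := fun h => c10 h q7 q1
    have q9 : A6 := Classical.byContradiction fun h => c5 h q4 q8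
    have q10 : ¬ A9 := fun h => c16 h q9
    have q11 : ¬ A10 := fun h => c7 q10 h q7
    exact c17 q5 q11 q7
  · have q12 : A12 := Classical.byContradiction fun h => c9 u1 q2 h
    have q13 : A11 := Classical.byContradiction fun h => c3 u0 q12 h
    have q14 : ¬ A4 := fun h => c11 h q1 q2
    have q15 : A7 := Classical.byContradiction fun h => c4 q14 h q13
    have q16 : ¬ A13 := fun h => c13 q15 h
    have q17 : ¬ A15 := fun h => c14 h q13
    have q18 : ¬ A14 := fun h => c12 h q17 u2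
    have q19 : ¬ A16 := fun h => c1 u0 h q18
    have q20 : ¬ A8 := fun h => c2 q19 q16 h
    exact c15 q13 u2 q20

theorem par_EEE_1 {G : Type*} [Group G] {δ : G → ZMod 3} (hδ : ∀ u v, δ (u * v) = δ u + δ v) (o : Pre δ)
    {P Q f x g : G} {e : ZMod 3} (h3 : 3 * e = 0)
    (D : δ P = e ∧ δ Q = e ∧ δ f = 0 ∧ δ x = 0 ∧ δ g = 0)
    (C : Cube P f ∧ Cube P x ∧ Cube P g ∧ Cube Q f ∧ Cube Q x ∧ Cube Q g)
    (N0 : RE o P Q f x)
    (N1 : RE o P Q x g)
    (g0 : ¬ o.lt (Q * f⁻¹) (P * f⁻¹)) (g1 : o.lt (Q * f⁻¹) (Q * g⁻¹)) (g2 : ¬ o.lt ((P * g⁻¹)⁻¹) ((P * f⁻¹)⁻¹)) : False := by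
  simp only [Cube] at C
  have e0 : δ (Q * (x⁻¹ * (f * Q⁻¹))) = δ (1) := by simp only [hδ, δinv hδ, δone hδ, D] <;> linear_combination (0) * h3
  have e1 : δ (Q * f⁻¹) = δ (Q * x⁻¹) := by simp only [hδ, δinv hδ, δone hδ, D] <;> linear_combination (0) * h3
  have e2 : δ (Q * f⁻¹) = δ (P * f⁻¹) := by simp only [hδ, δinv hδ, δone hδ, D] <;> linear_combination (0) * h3
  have e3 : δ (Q * g⁻¹) = δ (Q * x⁻¹) := by simp only [hδ, δinv hδ, δone hδ, D] <;> linear_combination (0) * h3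
  have e4 : δ (Q * (P⁻¹ * (x * P⁻¹))) = δ (Q * (x⁻¹ * (P * f⁻¹))) := by simp only [hδ, δinv hδ, δone hδ, D] <;> linear_combination (-1) * h3
  have e5 : δ (Q * (P⁻¹ * (x * P⁻¹))) = δ (x * Q⁻¹) := by simp only [hδ, δinv hδ, δone hδ, D] <;> linear_combination (0) * h3
  have e6 : δ (x * P⁻¹) = δ (x * Q⁻¹) := by simp only [hδ, δinv hδ, δone hδ, D] <;> linear_combination (0) * h3
  have e7 : δ (f * P⁻¹) = δ (x * P⁻¹) := by simp only [hδ, δinv hδ, δone hδ, D] <;> linear_combination (0) * h3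
  have e8 : δ (x * Q⁻¹) = δ (Q * (P⁻¹ * (x * P⁻¹))) := by simp only [hδ, δinv hδ, δone hδ, D] <;> linear_combination (0) * h3
  have e9 : δ (x * Q⁻¹) = δ (x * (Q⁻¹ * (x * g⁻¹))) := by simp only [hδ, δinv hδ, δone hδ, D] <;> linear_combination (0) * h3
  have e10 : δ (g * P⁻¹) = δ (x * P⁻¹) := by simp only [hδ, δinv hδ, δone hδ, D] <;> linear_combination (0) * h3
  have e11 : δ (Q * x⁻¹) = δ (Q * g⁻¹) := by simp only [hδ, δinv hδ, δone hδ, D] <;> linear_combination (0) * h3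
  have e12 : δ (x * Q⁻¹) = δ (x * P⁻¹) := by simp only [hδ, δinv hδ, δone hδ, D] <;> linear_combination (0) * h3
  have e13 : δ (x * P⁻¹) = δ (f * P⁻¹) := by simp only [hδ, δinv hδ, δone hδ, D] <;> linear_combination (0) * h3
  have e14 : δ (x * P⁻¹) = δ (g * P⁻¹) := by simp only [hδ, δinv hδ, δone hδ, D] <;> linear_combination (0) * h3
  have e15 : δ (P * f⁻¹) = δ (P * x⁻¹) := by simp only [hδ, δinv hδ, δone hδ, D] <;> linear_combination (0) * h3
  have e16 : δ (Q * f⁻¹) = δ (Q * g⁻¹) := by simp only [hδ, δinv hδ, δone hδ, D] <;> linear_combination (0) * h3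
  have e17 : δ (Q * g⁻¹) = δ (Q * f⁻¹) := by simp only [hδ, δinv hδ, δone hδ, D] <;> linear_combination (0) * h3
  have e18 : δ (g * P⁻¹) = δ (f * P⁻¹) := by simp only [hδ, δinv hδ, δone hδ, D] <;> linear_combination (0) * h3
  have k0 : o.lt (Q * f⁻¹) (P * f⁻¹) ↔ o.lt (1 * (Q * f⁻¹)) (1 * (P * f⁻¹)) := o.cv hδ (1) e2 (by simp only [mul_assoc, mul_inv_rev, inv_inv, mul_inv_cancel_left, inv_mul_cancel_left, mul_inv_cancel, inv_mul_cancel, mul_one, one_mul, inv_one, C]) (by simp only [mul_assoc, mul_inv_rev, inv_inv, mul_inv_cancel_left, inv_mul_cancel_left, mul_inv_cancel, inv_mul_cancel, mul_one, one_mul, inv_one, C])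
  have k1 : o.lt (Q * f⁻¹) (Q * x⁻¹) ↔ o.lt (1 * (Q * f⁻¹)) (1 * (Q * x⁻¹)) := o.cv hδ (1) e1 (by simp only [mul_assoc, mul_inv_rev, inv_inv, mul_inv_cancel_left, inv_mul_cancel_left, mul_inv_cancel, inv_mul_cancel, mul_one, one_mul, inv_one, C]) (by simp only [mul_assoc, mul_inv_rev, inv_inv, mul_inv_cancel_left, inv_mul_cancel_left, mul_inv_cancel, inv_mul_cancel, mul_one, one_mul, inv_one, C])
  have k2 : o.lt (x * P⁻¹) (f * P⁻¹) ↔ o.lt (1 * (P * x⁻¹)⁻¹) (1 * (P * f⁻¹)⁻¹) := o.cv hδ (1) e13 (by simp only [mul_assoc, mul_inv_rev, inv_inv, mul_inv_cancel_left, inv_mul_cancel_left, mul_inv_cancel, inv_mul_cancel, mul_one, one_mul, inv_one, C]) (by simp only [mul_assoc, mul_inv_rev, inv_inv, mul_inv_cancel_left, inv_mul_cancel_left, mul_inv_cancel, inv_mul_cancel, mul_one, one_mul, inv_one, C])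
  have k3 : o.lt (Q * f⁻¹) (P * f⁻¹) ↔ o.lt (1 * (Q * x⁻¹)) (1 * (P * x⁻¹)) := o.cv hδ (f * x⁻¹) e2 (by simp only [mul_assoc, mul_inv_rev, inv_inv, mul_inv_cancel_left, inv_mul_cancel_left, mul_inv_cancel, inv_mul_cancel, mul_one, one_mul, inv_one, C]) (by simp only [mul_assoc, mul_inv_rev, inv_inv, mul_inv_cancel_left, inv_mul_cancel_left, mul_inv_cancel, inv_mul_cancel, mul_one, one_mul, inv_one, C])
  have k4 : o.lt (P * f⁻¹) (P * x⁻¹) ↔ o.lt (1 * (P * f⁻¹)) (1 * (P * x⁻¹)) := o.cv hδ (1) e15 (by simp only [mul_assoc, mul_inv_rev, inv_inv, mul_inv_cancel_left, inv_mul_cancel_left, mul_inv_cancel, inv_mul_cancel, mul_one, one_mul, inv_one, C]) (by simp only [mul_assoc, mul_inv_rev, inv_inv, mul_inv_cancel_left, inv_mul_cancel_left, mul_inv_cancel, inv_mul_cancel, mul_one, one_mul, inv_one, C])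
  have k5 : o.lt (x * P⁻¹) (f * P⁻¹) ↔ o.lt (1 * (Q * x⁻¹)⁻¹) (1 * (Q * f⁻¹)⁻¹) := o.cv hδ (P * Q⁻¹) e13 (by simp only [mul_assoc, mul_inv_rev, inv_inv, mul_inv_cancel_left, inv_mul_cancel_left, mul_inv_cancel, inv_mul_cancel, mul_one, one_mul, inv_one, C]) (by simp only [mul_assoc, mul_inv_rev, inv_inv, mul_inv_cancel_left, inv_mul_cancel_left, mul_inv_cancel, inv_mul_cancel, mul_one, one_mul, inv_one, C])
  have k6 : o.lt (x * Q⁻¹) (x * P⁻¹) ↔ o.lt (1 * (Q * x⁻¹)⁻¹) (1 * (P * x⁻¹)⁻¹) := o.cv hδ (1) e12 (by simp only [mul_assoc, mul_inv_rev, inv_inv, mul_inv_cancel_left, inv_mul_cancel_left, mul_inv_cancel, inv_mul_cancel, mul_one, one_mul, inv_one, C]) (by simp only [mul_assoc, mul_inv_rev, inv_inv, mul_inv_cancel_left, inv_mul_cancel_left, mul_inv_cancel, inv_mul_cancel, mul_one, one_mul, inv_one, C])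
  have k7 : o.lt (f * P⁻¹) (x * P⁻¹) ↔ o.lt (1 * (P * f⁻¹)⁻¹) (1 * (P * x⁻¹)⁻¹) := o.cv hδ (1) e7 (by simp only [mul_assoc, mul_inv_rev, inv_inv, mul_inv_cancel_left, inv_mul_cancel_left, mul_inv_cancel, inv_mul_cancel, mul_one, one_mul, inv_one, C]) (by simp only [mul_assoc, mul_inv_rev, inv_inv, mul_inv_cancel_left, inv_mul_cancel_left, mul_inv_cancel, inv_mul_cancel, mul_one, one_mul, inv_one, C])
  have k8 : o.lt (Q * x⁻¹) (Q * g⁻¹) ↔ o.lt (1 * (Q * x⁻¹)) (1 * (Q * g⁻¹)) := o.cv hδ (1) e11 (by simp only [mul_assoc, mul_inv_rev, inv_inv, mul_inv_cancel_left, inv_mul_cancel_left, mul_inv_cancel, inv_mul_cancel, mul_one, one_mul, inv_one, C]) (by simp only [mul_assoc, mul_inv_rev, inv_inv, mul_inv_cancel_left, inv_mul_cancel_left, mul_inv_cancel, inv_mul_cancel, mul_one, one_mul, inv_one, C])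
  have k9 : o.lt (g * P⁻¹) (x * P⁻¹) ↔ o.lt (1 * (P * g⁻¹)⁻¹) (1 * (P * x⁻¹)⁻¹) := o.cv hδ (1) e10 (by simp only [mul_assoc, mul_inv_rev, inv_inv, mul_inv_cancel_left, inv_mul_cancel_left, mul_inv_cancel, inv_mul_cancel, mul_one, one_mul, inv_one, C]) (by simp only [mul_assoc, mul_inv_rev, inv_inv, mul_inv_cancel_left, inv_mul_cancel_left, mul_inv_cancel, inv_mul_cancel, mul_one, one_mul, inv_one, C])
  have k10 : o.lt (Q * g⁻¹) (Q * x⁻¹) ↔ o.lt (1 * (Q * g⁻¹)) (1 * (Q * x⁻¹)) := o.cv hδ (1) e3 (by simp only [mul_assoc, mul_inv_rev, inv_inv, mul_inv_cancel_left, inv_mul_cancel_left, mul_inv_cancel, inv_mul_cancel, mul_one, one_mul, inv_one, C]) (by simp only [mul_assoc, mul_inv_rev, inv_inv, mul_inv_cancel_left, inv_mul_cancel_left, mul_inv_cancel, inv_mul_cancel, mul_one, one_mul, inv_one, C])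
  have k11 : o.lt (x * P⁻¹) (x * Q⁻¹) ↔ o.lt (1 * (P * x⁻¹)⁻¹) (1 * (Q * x⁻¹)⁻¹) := o.cv hδ (1) e6 (by simp only [mul_assoc, mul_inv_rev, inv_inv, mul_inv_cancel_left, inv_mul_cancel_left, mul_inv_cancel, inv_mul_cancel, mul_one, one_mul, inv_one, C]) (by simp only [mul_assoc, mul_inv_rev, inv_inv, mul_inv_cancel_left, inv_mul_cancel_left, mul_inv_cancel, inv_mul_cancel, mul_one, one_mul, inv_one, C])
  have k12 : o.lt (g * P⁻¹) (x * P⁻¹) ↔ o.lt (1 * (Q * g⁻¹)⁻¹) (1 * (Q * x⁻¹)⁻¹) := o.cv hδ (P * Q⁻¹) e10 (by simp only [mul_assoc, mul_inv_rev, inv_inv, mul_inv_cancel_left, inv_mul_cancel_left, mul_inv_cancel, inv_mul_cancel, mul_one, one_mul, inv_one, C]) (by simp only [mul_assoc, mul_inv_rev, inv_inv, mul_inv_cancel_left, inv_mul_cancel_left, mul_inv_cancel, inv_mul_cancel, mul_one, one_mul, inv_one, C])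
  have k13 : o.lt (Q * (P⁻¹ * (x * P⁻¹))) (x * Q⁻¹) ↔ o.lt ((Q * x⁻¹) * (P * x⁻¹)) ((Q * x⁻¹) * (Q * x⁻¹)) := o.cv hδ (P * (x⁻¹ * (P * (x⁻¹ * (P * x⁻¹))))) e5 (by simp only [mul_assoc, mul_inv_rev, inv_inv, mul_inv_cancel_left, inv_mul_cancel_left, mul_inv_cancel, inv_mul_cancel, mul_one, one_mul, inv_one, C]) (by simp only [mul_assoc, mul_inv_rev, inv_inv, mul_inv_cancel_left, inv_mul_cancel_left, mul_inv_cancel, inv_mul_cancel, mul_one, one_mul, inv_one, C])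
  have k14 : o.lt (Q * (P⁻¹ * (x * P⁻¹))) (Q * (x⁻¹ * (P * f⁻¹))) ↔ o.lt ((Q * x⁻¹) * (P * x⁻¹)) ((Q * x⁻¹) * (P * f⁻¹)) := o.cv hδ (P * (x⁻¹ * (P * (x⁻¹ * (P * x⁻¹))))) e4 (by simp only [mul_assoc, mul_inv_rev, inv_inv, mul_inv_cancel_left, inv_mul_cancel_left, mul_inv_cancel, inv_mul_cancel, mul_one, one_mul, inv_one, C]) (by simp only [mul_assoc, mul_inv_rev, inv_inv, mul_inv_cancel_left, inv_mul_cancel_left, mul_inv_cancel, inv_mul_cancel, mul_one, one_mul, inv_one, C])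
  have k15 : o.lt (Q * (x⁻¹ * (f * Q⁻¹))) (1) ↔ o.lt ((Q * x⁻¹) * (Q * f⁻¹)⁻¹) ((Q * x⁻¹) * (Q * x⁻¹)⁻¹) := o.cv hδ (1) e0 (by simp only [mul_assoc, mul_inv_rev, inv_inv, mul_inv_cancel_left, inv_mul_cancel_left, mul_inv_cancel, inv_mul_cancel, mul_one, one_mul, inv_one, C]) (by simp only [mul_assoc, mul_inv_rev, inv_inv, mul_inv_cancel_left, inv_mul_cancel_left, mul_inv_cancel, inv_mul_cancel, mul_one, one_mul, inv_one, C])
  have k16 : o.lt (Q * f⁻¹) (P * f⁻¹) ↔ o.lt ((Q * x⁻¹) * (P * x⁻¹)⁻¹) ((Q * x⁻¹) * (Q * x⁻¹)⁻¹) := o.cv hδ (f * P⁻¹) e2 (by simp only [mul_assoc, mul_inv_rev, inv_inv, mul_inv_cancel_left, inv_mul_cancel_left, mul_inv_cancel, inv_mul_cancel, mul_one, one_mul, inv_one, C]) (by simp only [mul_assoc, mul_inv_rev, inv_inv, mul_inv_cancel_left, inv_mul_cancel_left, mul_inv_cancel, inv_mul_cancel, mul_one, one_mul, inv_one, C])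
  have k17 : o.lt (Q * f⁻¹) (Q * x⁻¹) ↔ o.lt ((Q * x⁻¹) * (P * x⁻¹)⁻¹) ((Q * x⁻¹) * (P * f⁻¹)⁻¹) := o.cv hδ (f * P⁻¹) e1 (by simp only [mul_assoc, mul_inv_rev, inv_inv, mul_inv_cancel_left, inv_mul_cancel_left, mul_inv_cancel, inv_mul_cancel, mul_one, one_mul, inv_one, C]) (by simp only [mul_assoc, mul_inv_rev, inv_inv, mul_inv_cancel_left, inv_mul_cancel_left, mul_inv_cancel, inv_mul_cancel, mul_one, one_mul, inv_one, C])
  have k18 : o.lt (x * Q⁻¹) (Q * (P⁻¹ * (x * P⁻¹))) ↔ o.lt ((Q * x⁻¹) * (Q * x⁻¹)) ((Q * x⁻¹) * (P * x⁻¹)) := o.cv hδ (Q * (x⁻¹ * (Q * (x⁻¹ * (Q * x⁻¹))))) e8 (by simp only [mul_assoc, mul_inv_rev, inv_inv, mul_inv_cancel_left, inv_mul_cancel_left, mul_inv_cancel, inv_mul_cancel, mul_one, one_mul, inv_one, C]) (by simp only [mul_assoc, mul_inv_rev, inv_inv, mul_inv_cancel_left, inv_mul_cancel_left, mul_inv_cancel, inv_mul_cancel, mul_one, one_mul, inv_one, C])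
  have k19 : o.lt (x * Q⁻¹) (x * (Q⁻¹ * (x * g⁻¹))) ↔ o.lt ((Q * x⁻¹) * (Q * x⁻¹)) ((Q * x⁻¹) * (Q * g⁻¹)) := o.cv hδ (Q * (x⁻¹ * (Q * (x⁻¹ * (Q * x⁻¹))))) e9 (by simp only [mul_assoc, mul_inv_rev, inv_inv, mul_inv_cancel_left, inv_mul_cancel_left, mul_inv_cancel, inv_mul_cancel, mul_one, one_mul, inv_one, C]) (by simp only [mul_assoc, mul_inv_rev, inv_inv, mul_inv_cancel_left, inv_mul_cancel_left, mul_inv_cancel, inv_mul_cancel, mul_one, one_mul, inv_one, C])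
  have k20 : o.lt (Q * x⁻¹) (Q * g⁻¹) ↔ o.lt ((Q * x⁻¹) * (P * g⁻¹)⁻¹) ((Q * x⁻¹) * (P * x⁻¹)⁻¹) := o.cv hδ (g * P⁻¹) e11 (by simp only [mul_assoc, mul_inv_rev, inv_inv, mul_inv_cancel_left, inv_mul_cancel_left, mul_inv_cancel, inv_mul_cancel, mul_one, one_mul, inv_one, C]) (by simp only [mul_assoc, mul_inv_rev, inv_inv, mul_inv_cancel_left, inv_mul_cancel_left, mul_inv_cancel, inv_mul_cancel, mul_one, one_mul, inv_one, C])
  have k21 : o.lt (Q * f⁻¹) (Q * g⁻¹) ↔ o.lt (Q * f⁻¹) (Q * g⁻¹) := o.cv hδ (1) e16 (by simp only [mul_assoc, mul_inv_rev, inv_inv, mul_inv_cancel_left, inv_mul_cancel_left, mul_inv_cancel, inv_mul_cancel, mul_one, one_mul, inv_one, C]) (by simp only [mul_assoc, mul_inv_rev, inv_inv, mul_inv_cancel_left, inv_mul_cancel_left, mul_inv_cancel, inv_mul_cancel, mul_one, one_mul, inv_one, C])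
  have k22 : o.lt (Q * g⁻¹) (Q * f⁻¹) ↔ o.lt (Q * g⁻¹) (Q * f⁻¹) := o.cv hδ (1) e17 (by simp only [mul_assoc, mul_inv_rev, inv_inv, mul_inv_cancel_left, inv_mul_cancel_left, mul_inv_cancel, inv_mul_cancel, mul_one, one_mul, inv_one, C]) (by simp only [mul_assoc, mul_inv_rev, inv_inv, mul_inv_cancel_left, inv_mul_cancel_left, mul_inv_cancel, inv_mul_cancel, mul_one, one_mul, inv_one, C])
  have k23 : o.lt (Q * f⁻¹) (Q * x⁻¹) ↔ o.lt (Q * f⁻¹) (Q * x⁻¹) := o.cv hδ (1) e1 (by simp only [mul_assoc, mul_inv_rev, inv_inv, mul_inv_cancel_left, inv_mul_cancel_left, mul_inv_cancel, inv_mul_cancel, mul_one, one_mul, inv_one, C]) (by simp only [mul_assoc, mul_inv_rev, inv_inv, mul_inv_cancel_left, inv_mul_cancel_left, mul_inv_cancel, inv_mul_cancel, mul_one, one_mul, inv_one, C])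
  have k24 : o.lt (Q * x⁻¹) (Q * g⁻¹) ↔ o.lt (Q * x⁻¹) (Q * g⁻¹) := o.cv hδ (1) e11 (by simp only [mul_assoc, mul_inv_rev, inv_inv, mul_inv_cancel_left, inv_mul_cancel_left, mul_inv_cancel, inv_mul_cancel, mul_one, one_mul, inv_one, C]) (by simp only [mul_assoc, mul_inv_rev, inv_inv, mul_inv_cancel_left, inv_mul_cancel_left, mul_inv_cancel, inv_mul_cancel, mul_one, one_mul, inv_one, C])
  have k25 : o.lt (Q * (x⁻¹ * (f * Q⁻¹))) (1) ↔ o.lt (Q * x⁻¹) (Q * f⁻¹) := o.cv hδ (Q * f⁻¹) e0 (by simp only [mul_assoc, mul_inv_rev, inv_inv, mul_inv_cancel_left, inv_mul_cancel_left, mul_inv_cancel, inv_mul_cancel, mul_one, one_mul, inv_one, C]) (by simp only [mul_assoc, mul_inv_rev, inv_inv, mul_inv_cancel_left, inv_mul_cancel_left, mul_inv_cancel, inv_mul_cancel, mul_one, one_mul, inv_one, C])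
  have k26 : o.lt (Q * g⁻¹) (Q * x⁻¹) ↔ o.lt (Q * g⁻¹) (Q * x⁻¹) := o.cv hδ (1) e3 (by simp only [mul_assoc, mul_inv_rev, inv_inv, mul_inv_cancel_left, inv_mul_cancel_left, mul_inv_cancel, inv_mul_cancel, mul_one, one_mul, inv_one, C]) (by simp only [mul_assoc, mul_inv_rev, inv_inv, mul_inv_cancel_left, inv_mul_cancel_left, mul_inv_cancel, inv_mul_cancel, mul_one, one_mul, inv_one, C])
  have k27 : o.lt (x * P⁻¹) (f * P⁻¹) ↔ o.lt (x * P⁻¹) (f * P⁻¹) := o.cv hδ (1) e13 (by simp only [mul_assoc, mul_inv_rev, inv_inv, mul_inv_cancel_left, inv_mul_cancel_left, mul_inv_cancel, inv_mul_cancel, mul_one, one_mul, inv_one, C]) (by simp only [mul_assoc, mul_inv_rev, inv_inv, mul_inv_cancel_left, inv_mul_cancel_left, mul_inv_cancel, inv_mul_cancel, mul_one, one_mul, inv_one, C])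
  have k28 : o.lt (x * P⁻¹) (g * P⁻¹) ↔ o.lt (x * P⁻¹) (g * P⁻¹) := o.cv hδ (1) e14 (by simp only [mul_assoc, mul_inv_rev, inv_inv, mul_inv_cancel_left, inv_mul_cancel_left, mul_inv_cancel, inv_mul_cancel, mul_one, one_mul, inv_one, C]) (by simp only [mul_assoc, mul_inv_rev, inv_inv, mul_inv_cancel_left, inv_mul_cancel_left, mul_inv_cancel, inv_mul_cancel, mul_one, one_mul, inv_one, C])
  have k29 : o.lt (g * P⁻¹) (f * P⁻¹) ↔ o.lt (g * P⁻¹) (f * P⁻¹) := o.cv hδ (1) e18 (by simp only [mul_assoc, mul_inv_rev, inv_inv, mul_inv_cancel_left, inv_mul_cancel_left, mul_inv_cancel, inv_mul_cancel, mul_one, one_mul, inv_one, C]) (by simp only [mul_assoc, mul_inv_rev, inv_inv, mul_inv_cancel_left, inv_mul_cancel_left, mul_inv_cancel, inv_mul_cancel, mul_one, one_mul, inv_one, C])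
  have k30 : o.lt (x * P⁻¹) (x * Q⁻¹) ↔ o.lt (x * P⁻¹) (x * Q⁻¹) := o.cv hδ (1) e6 (by simp only [mul_assoc, mul_inv_rev, inv_inv, mul_inv_cancel_left, inv_mul_cancel_left, mul_inv_cancel, inv_mul_cancel, mul_one, one_mul, inv_one, C]) (by simp only [mul_assoc, mul_inv_rev, inv_inv, mul_inv_cancel_left, inv_mul_cancel_left, mul_inv_cancel, inv_mul_cancel, mul_one, one_mul, inv_one, C])
  have k31 : o.lt (x * Q⁻¹) (x * P⁻¹) ↔ o.lt (x * Q⁻¹) (x * P⁻¹) := o.cv hδ (1) e12 (by simp only [mul_assoc, mul_inv_rev, inv_inv, mul_inv_cancel_left, inv_mul_cancel_left, mul_inv_cancel, inv_mul_cancel, mul_one, one_mul, inv_one, C]) (by simp only [mul_assoc, mul_inv_rev, inv_inv, mul_inv_cancel_left, inv_mul_cancel_left, mul_inv_cancel, inv_mul_cancel, mul_one, one_mul, inv_one, C])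
  have k32 : o.lt (g * P⁻¹) (x * P⁻¹) ↔ o.lt (g * P⁻¹) (x * P⁻¹) := o.cv hδ (1) e10 (by simp only [mul_assoc, mul_inv_rev, inv_inv, mul_inv_cancel_left, inv_mul_cancel_left, mul_inv_cancel, inv_mul_cancel, mul_one, one_mul, inv_one, C]) (by simp only [mul_assoc, mul_inv_rev, inv_inv, mul_inv_cancel_left, inv_mul_cancel_left, mul_inv_cancel, inv_mul_cancel, mul_one, one_mul, inv_one, C])
  have k33 : o.lt (f * P⁻¹) (x * P⁻¹) ↔ o.lt (f * P⁻¹) (x * P⁻¹) := o.cv hδ (1) e7 (by simp only [mul_assoc, mul_inv_rev, inv_inv, mul_inv_cancel_left, inv_mul_cancel_left, mul_inv_cancel, inv_mul_cancel, mul_one, one_mul, inv_one, C]) (by simp only [mul_assoc, mul_inv_rev, inv_inv, mul_inv_cancel_left, inv_mul_cancel_left, mul_inv_cancel, inv_mul_cancel, mul_one, one_mul, inv_one, C])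
  have k34 : o.lt (x * Q⁻¹) (Q * (P⁻¹ * (x * P⁻¹))) ↔ o.lt (x * Q⁻¹) (Q * (x⁻¹ * (P * x⁻¹))) := o.cv hδ (1) e8 (by simp only [mul_assoc, mul_inv_rev, inv_inv, mul_inv_cancel_left, inv_mul_cancel_left, mul_inv_cancel, inv_mul_cancel, mul_one, one_mul, inv_one, C]) (by simp only [mul_assoc, mul_inv_rev, inv_inv, mul_inv_cancel_left, inv_mul_cancel_left, mul_inv_cancel, inv_mul_cancel, mul_one, one_mul, inv_one, C])
  have k35 : o.lt (Q * (P⁻¹ * (x * P⁻¹))) (x * Q⁻¹) ↔ o.lt (Q * (x⁻¹ * (P * x⁻¹))) (x * Q⁻¹) := o.cv hδ (P * (x⁻¹ * (P * (x⁻¹ * (P * x⁻¹))))) e5 (by simp only [mul_assoc, mul_inv_rev, inv_inv, mul_inv_cancel_left, inv_mul_cancel_left, mul_inv_cancel, inv_mul_cancel, mul_one, one_mul, inv_one, C]) (by simp only [mul_assoc, mul_inv_rev, inv_inv, mul_inv_cancel_left, inv_mul_cancel_left, mul_inv_cancel, inv_mul_cancel, mul_one, one_mul, inv_one, C])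
  have k36 : o.lt (x * P⁻¹) (g * P⁻¹) ↔ o.lt (x * Q⁻¹) (g * Q⁻¹) := o.cv hδ (P * Q⁻¹) e14 (by simp only [mul_assoc, mul_inv_rev, inv_inv, mul_inv_cancel_left, inv_mul_cancel_left, mul_inv_cancel, inv_mul_cancel, mul_one, one_mul, inv_one, C]) (by simp only [mul_assoc, mul_inv_rev, inv_inv, mul_inv_cancel_left, inv_mul_cancel_left, mul_inv_cancel, inv_mul_cancel, mul_one, one_mul, inv_one, C])
  have k37 : o.lt (x * Q⁻¹) (x * (Q⁻¹ * (x * g⁻¹))) ↔ o.lt (x * Q⁻¹) (Q * (x⁻¹ * (Q * g⁻¹))) := o.cv hδ (1) e9 (by simp only [mul_assoc, mul_inv_rev, inv_inv, mul_inv_cancel_left, inv_mul_cancel_left, mul_inv_cancel, inv_mul_cancel, mul_one, one_mul, inv_one, C]) (by simp only [mul_assoc, mul_inv_rev, inv_inv, mul_inv_cancel_left, inv_mul_cancel_left, mul_inv_cancel, inv_mul_cancel, mul_one, one_mul, inv_one, C])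
  have k38 : o.lt (Q * x⁻¹) (Q * g⁻¹) ↔ o.lt (Q * (x⁻¹ * (Q * g⁻¹))) (g * Q⁻¹) := o.cv hδ (Q * g⁻¹) e11 (by simp only [mul_assoc, mul_inv_rev, inv_inv, mul_inv_cancel_left, inv_mul_cancel_left, mul_inv_cancel, inv_mul_cancel, mul_one, one_mul, inv_one, C]) (by simp only [mul_assoc, mul_inv_rev, inv_inv, mul_inv_cancel_left, inv_mul_cancel_left, mul_inv_cancel, inv_mul_cancel, mul_one, one_mul, inv_one, C])
  have k39 : o.lt (Q * f⁻¹) (P * f⁻¹) ↔ o.lt (Q * f⁻¹) (P * f⁻¹) := o.cv hδ (1) e2 (by simp only [mul_assoc, mul_inv_rev, inv_inv, mul_inv_cancel_left, inv_mul_cancel_left, mul_inv_cancel, inv_mul_cancel, mul_one, one_mul, inv_one, C]) (by simp only [mul_assoc, mul_inv_rev, inv_inv, mul_inv_cancel_left, inv_mul_cancel_left, mul_inv_cancel, inv_mul_cancel, mul_one, one_mul, inv_one, C])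
  have k40 : o.lt (g * P⁻¹) (f * P⁻¹) ↔ o.lt ((P * g⁻¹)⁻¹) ((P * f⁻¹)⁻¹) := o.cv hδ (1) e18 (by simp only [mul_assoc, mul_inv_rev, inv_inv, mul_inv_cancel_left, inv_mul_cancel_left, mul_inv_cancel, inv_mul_cancel, mul_one, one_mul, inv_one, C]) (by simp only [mul_assoc, mul_inv_rev, inv_inv, mul_inv_cancel_left, inv_mul_cancel_left, mul_inv_cancel, inv_mul_cancel, mul_one, one_mul, inv_one, C])
  exact par_EEE_1_prop
    (fun b0 b1 b2 => N0.i.r1 1 (fun h => b0 (k0.2 h)) (k1.1 b1) (fun h => b2 (k2.2 h)))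
    (fun b0 b1 b2 => N0.rd.r1 1 (fun h => b0 (k3.2 h)) (k4.1 b1) (fun h => b2 (k5.2 h)))
    (fun b0 b1 b2 => N0.i.r2 1 (fun h => b0 (k4.2 h)) (fun h => b1 (k6.2 h)) (k7.1 b2))
    (fun b0 b1 b2 => N1.i.r1 1 (fun h => b0 (k3.2 h)) (k8.1 b1) (fun h => b2 (k9.2 h)))
    (fun b0 b1 b2 => N1.r.r2 1 (fun h => b0 (k10.2 h)) (fun h => b1 (k11.2 h)) (k12.1 b2))
    (fun b0 b1 b2 => N0.r.r1 (Q * x⁻¹) (fun h => b0 (k13.2 h)) (k14.1 b1) (fun h => b2 (k15.2 h)))
    (fun b0 b1 b2 => N0.d.r2 (Q * x⁻¹) (fun h => b0 (k14.2 h)) (fun h => b1 (k16.2 h)) (k17.1 b2))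
    (fun b0 b1 b2 => N1.i.r1 (Q * x⁻¹) (fun h => b0 (k18.2 h)) (k19.1 b1) (fun h => b2 (k20.2 h)))
    (fun b0 b1 => o.asym (k21.1 b0) (k22.1 b1))
    (fun b0 b1 b2 => o.tri (k21.1 b0) (fun h => b1 (k23.2 h)) (fun h => b2 (k24.2 h)))
    (fun b0 b1 b2 => o.tri (k25.1 b0) (fun h => b1 (k24.2 h)) (fun h => b2 (k22.2 h)))
    (fun b0 b1 b2 => o.tri (k26.1 b0) (fun h => b1 (k22.2 h)) (fun h => b2 (k23.2 h)))
    (fun b0 b1 b2 => o.tri (k27.1 b0) (fun h => b1 (k28.2 h)) (fun h => b2 (k29.2 h)))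
    (fun b0 b1 => o.asym (k30.1 b0) (k31.1 b1))
    (fun b0 b1 => o.asym (k28.1 b0) (k32.1 b1))
    (fun b0 b1 b2 => o.tri (k32.1 b0) (fun h => b1 (k29.2 h)) (fun h => b2 (k33.2 h)))
    (fun b0 b1 => o.asym (k34.1 b0) (k35.1 b1))
    (fun b0 b1 b2 => o.tri (k36.1 b0) (fun h => b1 (k37.2 h)) (fun h => b2 (k38.2 h)))
    (fun h => g0 (k39.1 h))
    (k21.2 g1)
    (fun h => g2 (k40.1 h))

theorem par_EEE_2_prop {A1 A2 A3 A4 A5 A6 A7 A8 A9 A10 A11 A12 A13 A14 A15 A16 A17 A18 A19 A20 A21 A22 A23 A24 A25 A26 A27 A28 A29 A30 A31 A32 A33 : Prop}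
    (c0 : ¬ A16 → A11 → ¬ A32 → False)
    (c1 : ¬ A14 → A13 → ¬ A30 → False)
    (c2 : ¬ A11 → ¬ A31 → A28 → False)
    (c3 : A30 → ¬ A28 → False)
    (c4 : A14 → ¬ A18 → False)
    (c5 : A16 → ¬ A20 → False)
    (c6 : ¬ A20 → A15 → ¬ A5 → False)
    (c7 : ¬ A18 → A17 → ¬ A9 → False)
    (c8 : ¬ A15 → ¬ A2 → A9 → False)
    (c9 : ¬ A2 → A4 → ¬ A26 → False)
    (c10 : ¬ A4 → ¬ A25 → A24 → False)
    (c11 : ¬ A1 → ¬ A27 → A22 → False)
    (c12 : A26 → ¬ A22 → False)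
    (c13 : ¬ A2 → A10 → ¬ A23 → False)
    (c14 : ¬ A2 → A9 → ¬ A23 → False)
    (c15 : ¬ A10 → ¬ A25 → A19 → False)
    (c16 : ¬ A7 → ¬ A27 → A23 → False)
    (c17 : A11 → A13 → False)
    (c18 : A11 → ¬ A12 → ¬ A17 → False)
    (c19 : A15 → ¬ A13 → ¬ A12 → False)
    (c20 : A18 → A20 → False)
    (c21 : A8 → A3 → False)
    (c22 : A29 → A31 → False)
    (c23 : A30 → A32 → False)
    (c24 : A8 → ¬ A30 → ¬ A9 → False)
    (c25 : A31 → ¬ A9 → ¬ A33 → False)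
    (c26 : A6 → ¬ A5 → ¬ A29 → False)
    (c27 : A33 → ¬ A2 → ¬ A5 → False)
    (c28 : A21 → ¬ A3 → ¬ A12 → False)
    (c29 : A23 → A19 → False)
    (c30 : A1 → A4 → False)
    (c31 : A5 → ¬ A4 → ¬ A3 → False)
    (c32 : A7 → ¬ A6 → ¬ A2 → False)
    (c33 : A25 → A27 → False)
    (c34 : A23 → ¬ A24 → ¬ A21 → False)
    (c35 : A26 → ¬ A21 → ¬ A19 → False)
    (u0 : ¬ A12)
    (u1 : ¬ A2)
    (u2 : A8)
    : False := by
  have q1 : ¬ A3 := fun h => c21 u2 h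
  have q2 : ¬ A21 := fun h => c28 h q1 u0
  rcases Classical.em A23 with q3 | q3
  · have q4 : ¬ A19 := fun h => c29 q3 h
    have q5 : A24 := Classical.byContradiction fun h => c34 q3 h q2
    have q6 : ¬ A26 := fun h => c35 h q2 q4
    have q7 : ¬ A4 := fun h => c9 u1 h q6
    have q8 : A25 := Classical.byContradiction fun h => c10 q7 h q5
    have q9 : ¬ A5 := fun h => c31 h q7 q1
    have q10 : ¬ A33 := fun h => c27 h u1 q9
    have q11 : ¬ A27 := fun h => c33 q8 h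
    have q12 : A7 := Classical.byContradiction fun h => c16 h q11 q3
    have q13 : A6 := Classical.byContradiction fun h => c32 q12 h u1
    have q14 : A29 := Classical.byContradiction fun h => c26 q13 q9 h
    have q15 : ¬ A31 := fun h => c22 q14 h
    rcases Classical.em A11 with q16 | q16
    · have q17 : ¬ A13 := fun h => c17 q16 h
      have q18 : A17 := Classical.byContradiction fun h => c18 q16 u0 h
      have q19 : ¬ A15 := fun h => c19 h q17 u0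
      have q20 : ¬ A9 := fun h => c8 q19 u1 h
      have q21 : A18 := Classical.byContradiction fun h => c7 h q18 q20
      have q22 : ¬ A20 := fun h => c20 q21 h
      have q23 : ¬ A16 := fun h => c5 h q22
      have q24 : A32 := Classical.byContradiction fun h => c0 q23 q16 h
      have q25 : ¬ A30 := fun h => c23 h q24
      exact c24 u2 q25 q20
    · have q26 : ¬ A28 := fun h => c2 q16 q15 h
      have q27 : ¬ A30 := fun h => c3 h q26
      have q28 : A9 := Classical.byContradiction fun h => c24 u2 q27 h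
      have q29 : A15 := Classical.byContradiction fun h => c8 h u1 q28
      have q30 : A20 := Classical.byContradiction fun h => c6 h q29 q9
      have q31 : A13 := Classical.byContradiction fun h => c19 q29 h u0
      have q32 : A14 := Classical.byContradiction fun h => c1 h q31 q27
      have q33 : A18 := Classical.byContradiction fun h => c4 q32 h
      exact c20 q33 q30
  · have q34 : ¬ A10 := fun h => c13 u1 h q3
    have q35 : ¬ A9 := fun h => c14 u1 h q3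
    have q36 : A30 := Classical.byContradiction fun h => c24 u2 h q35
    have q37 : A28 := Classical.byContradiction fun h => c3 q36 h
    have q38 : ¬ A32 := fun h => c23 q36 h
    rcases Classical.em A11 with q39 | q39
    · have q40 : A16 := Classical.byContradiction fun h => c0 h q39 q38
      have q41 : A20 := Classical.byContradiction fun h => c5 q40 h
      have q42 : ¬ A13 := fun h => c17 q39 h
      have q43 : A17 := Classical.byContradiction fun h => c18 q39 u0 h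
      have q44 : A18 := Classical.byContradiction fun h => c7 h q43 q35
      exact c20 q44 q41
    · have q45 : A31 := Classical.byContradiction fun h => c2 q39 h q37
      have q46 : ¬ A29 := fun h => c22 h q45
      have q47 : A33 := Classical.byContradiction fun h => c25 q45 q35 h
      have q48 : A5 := Classical.byContradiction fun h => c27 q47 u1 h
      have q49 : A4 := Classical.byContradiction fun h => c31 q48 h q1
      have q50 : A26 := Classical.byContradiction fun h => c9 u1 q49 h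
      have q51 : A22 := Classical.byContradiction fun h => c12 q50 h
      have q52 : ¬ A1 := fun h => c30 h q49
      have q53 : A27 := Classical.byContradiction fun h => c11 q52 h q51
      have q54 : ¬ A25 := fun h => c33 h q53
      have q55 : ¬ A19 := fun h => c15 q34 q54 h
      exact c35 q50 q2 q55

theorem par_EEE_2 {G : Type*} [Group G] {δ : G → ZMod 3} (hδ : ∀ u v, δ (u * v) = δ u + δ v) (o : Pre δ)
    {P Q f x g : G} {e : ZMod 3} (h3 : 3 * e = 0)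
    (D : δ P = e ∧ δ Q = e ∧ δ f = 0 ∧ δ x = 0 ∧ δ g = 0)
    (C : Cube P f ∧ Cube P x ∧ Cube P g ∧ Cube Q f ∧ Cube Q x ∧ Cube Q g)
    (N0 : RE o P Q f x)
    (N1 : RE o P Q x g)
    (g0 : ¬ o.lt (P * f⁻¹) (P * g⁻¹)) (g1 : ¬ o.lt ((Q * g⁻¹)⁻¹) ((P * g⁻¹)⁻¹)) (g2 : o.lt ((P * f⁻¹)⁻¹) ((P * g⁻¹)⁻¹)) : False := by
  simp only [Cube] at C
  have e0 : δ (g * f⁻¹) = δ (g * x⁻¹) := by simp only [hδ, δinv hδ, δone hδ, D] <;> linear_combination (0) * h3
  have e1 : δ (g * Q⁻¹) = δ (g * P⁻¹) := by simp only [hδ, δinv hδ, δone hδ, D] <;> linear_combination (0) * h3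
  have e2 : δ (g * P⁻¹) = δ (f * P⁻¹) := by simp only [hδ, δinv hδ, δone hδ, D] <;> linear_combination (0) * h3
  have e3 : δ (g * x⁻¹) = δ (g * f⁻¹) := by simp only [hδ, δinv hδ, δone hδ, D] <;> linear_combination (0) * h3
  have e4 : δ (g * Q⁻¹) = δ (x * Q⁻¹) := by simp only [hδ, δinv hδ, δone hδ, D] <;> linear_combination (0) * h3
  have e5 : δ (g * P⁻¹) = δ (x * Q⁻¹) := by simp only [hδ, δinv hδ, δone hδ, D] <;> linear_combination (0) * h3
  have e6 : δ (g * (P⁻¹ * (Q * x⁻¹))) = δ (g * (P⁻¹ * (Q * g⁻¹))) := by simp only [hδ, δinv hδ, δone hδ, D] <;> linear_combination (0) * h3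
  have e7 : δ (f * P⁻¹) = δ (g * P⁻¹) := by simp only [hδ, δinv hδ, δone hδ, D] <;> linear_combination (0) * h3
  have e8 : δ (x * Q⁻¹) = δ (g * Q⁻¹) := by simp only [hδ, δinv hδ, δone hδ, D] <;> linear_combination (0) * h3
  have e9 : δ (g * (P⁻¹ * (Q * g⁻¹))) = δ (g * (P⁻¹ * (Q * x⁻¹))) := by simp only [hδ, δinv hδ, δone hδ, D] <;> linear_combination (0) * h3
  have e10 : δ (P * f⁻¹) = δ (P * x⁻¹) := by simp only [hδ, δinv hδ, δone hδ, D] <;> linear_combination (0) * h3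
  have e11 : δ (P * f⁻¹) = δ (P * g⁻¹) := by simp only [hδ, δinv hδ, δone hδ, D] <;> linear_combination (0) * h3
  have e12 : δ (P * x⁻¹) = δ (P * f⁻¹) := by simp only [hδ, δinv hδ, δone hδ, D] <;> linear_combination (0) * h3
  have e13 : δ (P * x⁻¹) = δ (Q * x⁻¹) := by simp only [hδ, δinv hδ, δone hδ, D] <;> linear_combination (0) * h3
  have e14 : δ (P * x⁻¹) = δ (P * g⁻¹) := by simp only [hδ, δinv hδ, δone hδ, D] <;> linear_combination (0) * h3
  have e15 : δ (Q * x⁻¹) = δ (P * x⁻¹) := by simp only [hδ, δinv hδ, δone hδ, D] <;> linear_combination (0) * h3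
  have e16 : δ (P * g⁻¹) = δ (P * x⁻¹) := by simp only [hδ, δinv hδ, δone hδ, D] <;> linear_combination (0) * h3
  have e17 : δ (P * g⁻¹) = δ (Q * g⁻¹) := by simp only [hδ, δinv hδ, δone hδ, D] <;> linear_combination (0) * h3
  have e18 : δ (g * (P⁻¹ * (g * Q⁻¹))) = δ (g * (P⁻¹ * (x * Q⁻¹))) := by simp only [hδ, δinv hδ, δone hδ, D] <;> linear_combination (0) * h3
  have e19 : δ (Q * g⁻¹) = δ (P * g⁻¹) := by simp only [hδ, δinv hδ, δone hδ, D] <;> linear_combination (0) * h3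
  have e20 : δ (g * P⁻¹) = δ (g * (P⁻¹ * (g * f⁻¹))) := by simp only [hδ, δinv hδ, δone hδ, D] <;> linear_combination (0) * h3
  have e21 : δ (g * (P⁻¹ * (f * P⁻¹))) = δ (g * (P⁻¹ * (x * P⁻¹))) := by simp only [hδ, δinv hδ, δone hδ, D] <;> linear_combination (0) * h3
  have e22 : δ (g * (P⁻¹ * (x * P⁻¹))) = δ (P * g⁻¹) := by simp only [hδ, δinv hδ, δone hδ, D] <;> linear_combination (-1) * h3
  have e23 : δ (g * (P⁻¹ * (x * P⁻¹))) = δ (g * (P⁻¹ * (f * P⁻¹))) := by simp only [hδ, δinv hδ, δone hδ, D] <;> linear_combination (0) * h3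
  have e24 : δ (g * (P⁻¹ * (x * P⁻¹))) = δ (g * (P⁻¹ * (x * Q⁻¹))) := by simp only [hδ, δinv hδ, δone hδ, D] <;> linear_combination (0) * h3
  have e25 : δ (g * (P⁻¹ * (f * Q⁻¹))) = δ (g * (P⁻¹ * (x * Q⁻¹))) := by simp only [hδ, δinv hδ, δone hδ, D] <;> linear_combination (0) * h3
  have e26 : δ (g * (P⁻¹ * (x * Q⁻¹))) = δ (g * (P⁻¹ * (x * P⁻¹))) := by simp only [hδ, δinv hδ, δone hδ, D] <;> linear_combination (0) * h3
  have e27 : δ (f * P⁻¹) = δ (x * P⁻¹) := by simp only [hδ, δinv hδ, δone hδ, D] <;> linear_combination (0) * h3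
  have e28 : δ (x * P⁻¹) = δ (x * Q⁻¹) := by simp only [hδ, δinv hδ, δone hδ, D] <;> linear_combination (0) * h3
  have e29 : δ (f * Q⁻¹) = δ (x * Q⁻¹) := by simp only [hδ, δinv hδ, δone hδ, D] <;> linear_combination (0) * h3
  have e30 : δ (x * Q⁻¹) = δ (x * P⁻¹) := by simp only [hδ, δinv hδ, δone hδ, D] <;> linear_combination (0) * h3
  have e31 : δ (x * Q⁻¹) = δ (f * Q⁻¹) := by simp only [hδ, δinv hδ, δone hδ, D] <;> linear_combination (0) * h3
  have e32 : δ (g * Q⁻¹) = δ (x * P⁻¹) := by simp only [hδ, δinv hδ, δone hδ, D] <;> linear_combination (0) * h3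
  have k0 : o.lt (Q * x⁻¹) (P * x⁻¹) ↔ o.lt (1 * (Q * x⁻¹)) (1 * (P * x⁻¹)) := o.cv hδ (1) e15 (by simp only [mul_assoc, mul_inv_rev, inv_inv, mul_inv_cancel_left, inv_mul_cancel_left, mul_inv_cancel, inv_mul_cancel, mul_one, one_mul, inv_one, C]) (by simp only [mul_assoc, mul_inv_rev, inv_inv, mul_inv_cancel_left, inv_mul_cancel_left, mul_inv_cancel, inv_mul_cancel, mul_one, one_mul, inv_one, C])
  have k1 : o.lt (P * f⁻¹) (P * x⁻¹) ↔ o.lt (1 * (P * f⁻¹)) (1 * (P * x⁻¹)) := o.cv hδ (1) e10 (by simp only [mul_assoc, mul_inv_rev, inv_inv, mul_inv_cancel_left, inv_mul_cancel_left, mul_inv_cancel, inv_mul_cancel, mul_one, one_mul, inv_one, C]) (by simp only [mul_assoc, mul_inv_rev, inv_inv, mul_inv_cancel_left, inv_mul_cancel_left, mul_inv_cancel, inv_mul_cancel, mul_one, one_mul, inv_one, C])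
  have k2 : o.lt (x * Q⁻¹) (f * Q⁻¹) ↔ o.lt (1 * (Q * x⁻¹)⁻¹) (1 * (Q * f⁻¹)⁻¹) := o.cv hδ (1) e31 (by simp only [mul_assoc, mul_inv_rev, inv_inv, mul_inv_cancel_left, inv_mul_cancel_left, mul_inv_cancel, inv_mul_cancel, mul_one, one_mul, inv_one, C]) (by simp only [mul_assoc, mul_inv_rev, inv_inv, mul_inv_cancel_left, inv_mul_cancel_left, mul_inv_cancel, inv_mul_cancel, mul_one, one_mul, inv_one, C])
  have k3 : o.lt (P * x⁻¹) (Q * x⁻¹) ↔ o.lt (1 * (P * x⁻¹)) (1 * (Q * x⁻¹)) := o.cv hδ (1) e13 (by simp only [mul_assoc, mul_inv_rev, inv_inv, mul_inv_cancel_left, inv_mul_cancel_left, mul_inv_cancel, inv_mul_cancel, mul_one, one_mul, inv_one, C]) (by simp only [mul_assoc, mul_inv_rev, inv_inv, mul_inv_cancel_left, inv_mul_cancel_left, mul_inv_cancel, inv_mul_cancel, mul_one, one_mul, inv_one, C])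
  have k4 : o.lt (P * x⁻¹) (P * f⁻¹) ↔ o.lt (1 * (P * x⁻¹)) (1 * (P * f⁻¹)) := o.cv hδ (1) e12 (by simp only [mul_assoc, mul_inv_rev, inv_inv, mul_inv_cancel_left, inv_mul_cancel_left, mul_inv_cancel, inv_mul_cancel, mul_one, one_mul, inv_one, C]) (by simp only [mul_assoc, mul_inv_rev, inv_inv, mul_inv_cancel_left, inv_mul_cancel_left, mul_inv_cancel, inv_mul_cancel, mul_one, one_mul, inv_one, C])
  have k5 : o.lt (f * Q⁻¹) (x * Q⁻¹) ↔ o.lt (1 * (Q * f⁻¹)⁻¹) (1 * (Q * x⁻¹)⁻¹) := o.cv hδ (1) e29 (by simp only [mul_assoc, mul_inv_rev, inv_inv, mul_inv_cancel_left, inv_mul_cancel_left, mul_inv_cancel, inv_mul_cancel, mul_one, one_mul, inv_one, C]) (by simp only [mul_assoc, mul_inv_rev, inv_inv, mul_inv_cancel_left, inv_mul_cancel_left, mul_inv_cancel, inv_mul_cancel, mul_one, one_mul, inv_one, C])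
  have k6 : o.lt (x * Q⁻¹) (x * P⁻¹) ↔ o.lt (1 * (Q * x⁻¹)⁻¹) (1 * (P * x⁻¹)⁻¹) := o.cv hδ (1) e30 (by simp only [mul_assoc, mul_inv_rev, inv_inv, mul_inv_cancel_left, inv_mul_cancel_left, mul_inv_cancel, inv_mul_cancel, mul_one, one_mul, inv_one, C]) (by simp only [mul_assoc, mul_inv_rev, inv_inv, mul_inv_cancel_left, inv_mul_cancel_left, mul_inv_cancel, inv_mul_cancel, mul_one, one_mul, inv_one, C])
  have k7 : o.lt (f * P⁻¹) (x * P⁻¹) ↔ o.lt (1 * (P * f⁻¹)⁻¹) (1 * (P * x⁻¹)⁻¹) := o.cv hδ (1) e27 (by simp only [mul_assoc, mul_inv_rev, inv_inv, mul_inv_cancel_left, inv_mul_cancel_left, mul_inv_cancel, inv_mul_cancel, mul_one, one_mul, inv_one, C]) (by simp only [mul_assoc, mul_inv_rev, inv_inv, mul_inv_cancel_left, inv_mul_cancel_left, mul_inv_cancel, inv_mul_cancel, mul_one, one_mul, inv_one, C])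
  have k8 : o.lt (P * g⁻¹) (Q * g⁻¹) ↔ o.lt (1 * (P * g⁻¹)) (1 * (Q * g⁻¹)) := o.cv hδ (1) e17 (by simp only [mul_assoc, mul_inv_rev, inv_inv, mul_inv_cancel_left, inv_mul_cancel_left, mul_inv_cancel, inv_mul_cancel, mul_one, one_mul, inv_one, C]) (by simp only [mul_assoc, mul_inv_rev, inv_inv, mul_inv_cancel_left, inv_mul_cancel_left, mul_inv_cancel, inv_mul_cancel, mul_one, one_mul, inv_one, C])
  have k9 : o.lt (Q * g⁻¹) (P * g⁻¹) ↔ o.lt (1 * (Q * g⁻¹)) (1 * (P * g⁻¹)) := o.cv hδ (1) e19 (by simp only [mul_assoc, mul_inv_rev, inv_inv, mul_inv_cancel_left, inv_mul_cancel_left, mul_inv_cancel, inv_mul_cancel, mul_one, one_mul, inv_one, C]) (by simp only [mul_assoc, mul_inv_rev, inv_inv, mul_inv_cancel_left, inv_mul_cancel_left, mul_inv_cancel, inv_mul_cancel, mul_one, one_mul, inv_one, C])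
  have k10 : o.lt (P * x⁻¹) (P * g⁻¹) ↔ o.lt (1 * (P * x⁻¹)) (1 * (P * g⁻¹)) := o.cv hδ (1) e14 (by simp only [mul_assoc, mul_inv_rev, inv_inv, mul_inv_cancel_left, inv_mul_cancel_left, mul_inv_cancel, inv_mul_cancel, mul_one, one_mul, inv_one, C]) (by simp only [mul_assoc, mul_inv_rev, inv_inv, mul_inv_cancel_left, inv_mul_cancel_left, mul_inv_cancel, inv_mul_cancel, mul_one, one_mul, inv_one, C])
  have k11 : o.lt (g * Q⁻¹) (x * Q⁻¹) ↔ o.lt (1 * (Q * g⁻¹)⁻¹) (1 * (Q * x⁻¹)⁻¹) := o.cv hδ (1) e4 (by simp only [mul_assoc, mul_inv_rev, inv_inv, mul_inv_cancel_left, inv_mul_cancel_left, mul_inv_cancel, inv_mul_cancel, mul_one, one_mul, inv_one, C]) (by simp only [mul_assoc, mul_inv_rev, inv_inv, mul_inv_cancel_left, inv_mul_cancel_left, mul_inv_cancel, inv_mul_cancel, mul_one, one_mul, inv_one, C])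
  have k12 : o.lt (P * g⁻¹) (P * x⁻¹) ↔ o.lt (1 * (P * g⁻¹)) (1 * (P * x⁻¹)) := o.cv hδ (1) e16 (by simp only [mul_assoc, mul_inv_rev, inv_inv, mul_inv_cancel_left, inv_mul_cancel_left, mul_inv_cancel, inv_mul_cancel, mul_one, one_mul, inv_one, C]) (by simp only [mul_assoc, mul_inv_rev, inv_inv, mul_inv_cancel_left, inv_mul_cancel_left, mul_inv_cancel, inv_mul_cancel, mul_one, one_mul, inv_one, C])
  have k13 : o.lt (x * Q⁻¹) (g * Q⁻¹) ↔ o.lt (1 * (Q * x⁻¹)⁻¹) (1 * (Q * g⁻¹)⁻¹) := o.cv hδ (1) e8 (by simp only [mul_assoc, mul_inv_rev, inv_inv, mul_inv_cancel_left, inv_mul_cancel_left, mul_inv_cancel, inv_mul_cancel, mul_one, one_mul, inv_one, C]) (by simp only [mul_assoc, mul_inv_rev, inv_inv, mul_inv_cancel_left, inv_mul_cancel_left, mul_inv_cancel, inv_mul_cancel, mul_one, one_mul, inv_one, C])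
  have k14 : o.lt (g * Q⁻¹) (g * P⁻¹) ↔ o.lt (1 * (Q * g⁻¹)⁻¹) (1 * (P * g⁻¹)⁻¹) := o.cv hδ (1) e1 (by simp only [mul_assoc, mul_inv_rev, inv_inv, mul_inv_cancel_left, inv_mul_cancel_left, mul_inv_cancel, inv_mul_cancel, mul_one, one_mul, inv_one, C]) (by simp only [mul_assoc, mul_inv_rev, inv_inv, mul_inv_cancel_left, inv_mul_cancel_left, mul_inv_cancel, inv_mul_cancel, mul_one, one_mul, inv_one, C])
  have k15 : o.lt (x * Q⁻¹) (g * Q⁻¹) ↔ o.lt (1 * (P * x⁻¹)⁻¹) (1 * (P * g⁻¹)⁻¹) := o.cv hδ (Q * P⁻¹) e8 (by simp only [mul_assoc, mul_inv_rev, inv_inv, mul_inv_cancel_left, inv_mul_cancel_left, mul_inv_cancel, inv_mul_cancel, mul_one, one_mul, inv_one, C]) (by simp only [mul_assoc, mul_inv_rev, inv_inv, mul_inv_cancel_left, inv_mul_cancel_left, mul_inv_cancel, inv_mul_cancel, mul_one, one_mul, inv_one, C])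
  have k16 : o.lt (g * Q⁻¹) (g * P⁻¹) ↔ o.lt ((g * P⁻¹) * (P * x⁻¹)) ((g * P⁻¹) * (Q * x⁻¹)) := o.cv hδ (Q * x⁻¹) e1 (by simp only [mul_assoc, mul_inv_rev, inv_inv, mul_inv_cancel_left, inv_mul_cancel_left, mul_inv_cancel, inv_mul_cancel, mul_one, one_mul, inv_one, C]) (by simp only [mul_assoc, mul_inv_rev, inv_inv, mul_inv_cancel_left, inv_mul_cancel_left, mul_inv_cancel, inv_mul_cancel, mul_one, one_mul, inv_one, C])
  have k17 : o.lt (g * x⁻¹) (g * f⁻¹) ↔ o.lt ((g * P⁻¹) * (P * x⁻¹)) ((g * P⁻¹) * (P * f⁻¹)) := o.cv hδ (1) e3 (by simp only [mul_assoc, mul_inv_rev, inv_inv, mul_inv_cancel_left, inv_mul_cancel_left, mul_inv_cancel, inv_mul_cancel, mul_one, one_mul, inv_one, C]) (by simp only [mul_assoc, mul_inv_rev, inv_inv, mul_inv_cancel_left, inv_mul_cancel_left, mul_inv_cancel, inv_mul_cancel, mul_one, one_mul, inv_one, C])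
  have k18 : o.lt (g * (P⁻¹ * (f * Q⁻¹))) (g * (P⁻¹ * (x * Q⁻¹))) ↔ o.lt ((g * P⁻¹) * (Q * f⁻¹)⁻¹) ((g * P⁻¹) * (Q * x⁻¹)⁻¹) := o.cv hδ (1) e25 (by simp only [mul_assoc, mul_inv_rev, inv_inv, mul_inv_cancel_left, inv_mul_cancel_left, mul_inv_cancel, inv_mul_cancel, mul_one, one_mul, inv_one, C]) (by simp only [mul_assoc, mul_inv_rev, inv_inv, mul_inv_cancel_left, inv_mul_cancel_left, mul_inv_cancel, inv_mul_cancel, mul_one, one_mul, inv_one, C])
  have k19 : o.lt (g * (P⁻¹ * (x * P⁻¹))) (g * (P⁻¹ * (x * Q⁻¹))) ↔ o.lt ((g * P⁻¹) * (P * x⁻¹)⁻¹) ((g * P⁻¹) * (Q * x⁻¹)⁻¹) := o.cv hδ (1) e24 (by simp only [mul_assoc, mul_inv_rev, inv_inv, mul_inv_cancel_left, inv_mul_cancel_left, mul_inv_cancel, inv_mul_cancel, mul_one, one_mul, inv_one, C]) (by simp only [mul_assoc, mul_inv_rev, inv_inv, mul_inv_cancel_left, inv_mul_cancel_left, mul_inv_cancel, inv_mul_cancel, mul_one, one_mul, inv_one, C])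
  have k20 : o.lt (g * (P⁻¹ * (x * P⁻¹))) (g * (P⁻¹ * (f * P⁻¹))) ↔ o.lt ((g * P⁻¹) * (P * x⁻¹)⁻¹) ((g * P⁻¹) * (P * f⁻¹)⁻¹) := o.cv hδ (1) e23 (by simp only [mul_assoc, mul_inv_rev, inv_inv, mul_inv_cancel_left, inv_mul_cancel_left, mul_inv_cancel, inv_mul_cancel, mul_one, one_mul, inv_one, C]) (by simp only [mul_assoc, mul_inv_rev, inv_inv, mul_inv_cancel_left, inv_mul_cancel_left, mul_inv_cancel, inv_mul_cancel, mul_one, one_mul, inv_one, C])
  have k21 : o.lt (g * f⁻¹) (g * x⁻¹) ↔ o.lt ((g * P⁻¹) * (P * f⁻¹)) ((g * P⁻¹) * (P * x⁻¹)) := o.cv hδ (1) e0 (by simp only [mul_assoc, mul_inv_rev, inv_inv, mul_inv_cancel_left, inv_mul_cancel_left, mul_inv_cancel, inv_mul_cancel, mul_one, one_mul, inv_one, C]) (by simp only [mul_assoc, mul_inv_rev, inv_inv, mul_inv_cancel_left, inv_mul_cancel_left, mul_inv_cancel, inv_mul_cancel, mul_one, one_mul, inv_one, C])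
  have k22 : o.lt (g * (P⁻¹ * (x * Q⁻¹))) (g * (P⁻¹ * (x * P⁻¹))) ↔ o.lt ((g * P⁻¹) * (Q * x⁻¹)⁻¹) ((g * P⁻¹) * (P * x⁻¹)⁻¹) := o.cv hδ (1) e26 (by simp only [mul_assoc, mul_inv_rev, inv_inv, mul_inv_cancel_left, inv_mul_cancel_left, mul_inv_cancel, inv_mul_cancel, mul_one, one_mul, inv_one, C]) (by simp only [mul_assoc, mul_inv_rev, inv_inv, mul_inv_cancel_left, inv_mul_cancel_left, mul_inv_cancel, inv_mul_cancel, mul_one, one_mul, inv_one, C])
  have k23 : o.lt (g * (P⁻¹ * (f * P⁻¹))) (g * (P⁻¹ * (x * P⁻¹))) ↔ o.lt ((g * P⁻¹) * (P * f⁻¹)⁻¹) ((g * P⁻¹) * (P * x⁻¹)⁻¹) := o.cv hδ (1) e21 (by simp only [mul_assoc, mul_inv_rev, inv_inv, mul_inv_cancel_left, inv_mul_cancel_left, mul_inv_cancel, inv_mul_cancel, mul_one, one_mul, inv_one, C]) (by simp only [mul_assoc, mul_inv_rev, inv_inv, mul_inv_cancel_left, inv_mul_cancel_left, mul_inv_cancel, inv_mul_cancel, mul_one, one_mul, inv_one, C])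
  have k24 : o.lt (g * (P⁻¹ * (Q * g⁻¹))) (g * (P⁻¹ * (Q * x⁻¹))) ↔ o.lt ((g * P⁻¹) * (Q * g⁻¹)) ((g * P⁻¹) * (Q * x⁻¹)) := o.cv hδ (1) e9 (by simp only [mul_assoc, mul_inv_rev, inv_inv, mul_inv_cancel_left, inv_mul_cancel_left, mul_inv_cancel, inv_mul_cancel, mul_one, one_mul, inv_one, C]) (by simp only [mul_assoc, mul_inv_rev, inv_inv, mul_inv_cancel_left, inv_mul_cancel_left, mul_inv_cancel, inv_mul_cancel, mul_one, one_mul, inv_one, C])
  have k25 : o.lt (g * (P⁻¹ * (x * P⁻¹))) (P * g⁻¹) ↔ o.lt ((g * P⁻¹) * (P * x⁻¹)⁻¹) ((g * P⁻¹) * (P * g⁻¹)⁻¹) := o.cv hδ (1) e22 (by simp only [mul_assoc, mul_inv_rev, inv_inv, mul_inv_cancel_left, inv_mul_cancel_left, mul_inv_cancel, inv_mul_cancel, mul_one, one_mul, inv_one, C]) (by simp only [mul_assoc, mul_inv_rev, inv_inv, mul_inv_cancel_left, inv_mul_cancel_left, mul_inv_cancel, inv_mul_cancel, mul_one, one_mul, inv_one, C])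
  have k26 : o.lt (g * Q⁻¹) (g * P⁻¹) ↔ o.lt ((g * P⁻¹) * (P * g⁻¹)) ((g * P⁻¹) * (Q * g⁻¹)) := o.cv hδ (Q * g⁻¹) e1 (by simp only [mul_assoc, mul_inv_rev, inv_inv, mul_inv_cancel_left, inv_mul_cancel_left, mul_inv_cancel, inv_mul_cancel, mul_one, one_mul, inv_one, C]) (by simp only [mul_assoc, mul_inv_rev, inv_inv, mul_inv_cancel_left, inv_mul_cancel_left, mul_inv_cancel, inv_mul_cancel, mul_one, one_mul, inv_one, C])
  have k27 : o.lt (x * Q⁻¹) (g * Q⁻¹) ↔ o.lt ((g * P⁻¹) * (P * g⁻¹)) ((g * P⁻¹) * (P * x⁻¹)) := o.cv hδ (Q * x⁻¹) e8 (by simp only [mul_assoc, mul_inv_rev, inv_inv, mul_inv_cancel_left, inv_mul_cancel_left, mul_inv_cancel, inv_mul_cancel, mul_one, one_mul, inv_one, C]) (by simp only [mul_assoc, mul_inv_rev, inv_inv, mul_inv_cancel_left, inv_mul_cancel_left, mul_inv_cancel, inv_mul_cancel, mul_one, one_mul, inv_one, C])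
  have k28 : o.lt (g * (P⁻¹ * (x * P⁻¹))) (P * g⁻¹) ↔ o.lt ((g * P⁻¹) * (Q * x⁻¹)⁻¹) ((g * P⁻¹) * (Q * g⁻¹)⁻¹) := o.cv hδ (P * Q⁻¹) e22 (by simp only [mul_assoc, mul_inv_rev, inv_inv, mul_inv_cancel_left, inv_mul_cancel_left, mul_inv_cancel, inv_mul_cancel, mul_one, one_mul, inv_one, C]) (by simp only [mul_assoc, mul_inv_rev, inv_inv, mul_inv_cancel_left, inv_mul_cancel_left, mul_inv_cancel, inv_mul_cancel, mul_one, one_mul, inv_one, C])
  have k29 : o.lt (g * (P⁻¹ * (g * Q⁻¹))) (g * (P⁻¹ * (x * Q⁻¹))) ↔ o.lt ((g * P⁻¹) * (Q * g⁻¹)⁻¹) ((g * P⁻¹) * (Q * x⁻¹)⁻¹) := o.cv hδ (1) e18 (by simp only [mul_assoc, mul_inv_rev, inv_inv, mul_inv_cancel_left, inv_mul_cancel_left, mul_inv_cancel, inv_mul_cancel, mul_one, one_mul, inv_one, C]) (by simp only [mul_assoc, mul_inv_rev, inv_inv, mul_inv_cancel_left, inv_mul_cancel_left, mul_inv_cancel, inv_mul_cancel, mul_one, one_mul, inv_one, C])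
  have k30 : o.lt (g * (P⁻¹ * (Q * x⁻¹))) (g * (P⁻¹ * (Q * g⁻¹))) ↔ o.lt ((g * P⁻¹) * (Q * x⁻¹)) ((g * P⁻¹) * (Q * g⁻¹)) := o.cv hδ (1) e6 (by simp only [mul_assoc, mul_inv_rev, inv_inv, mul_inv_cancel_left, inv_mul_cancel_left, mul_inv_cancel, inv_mul_cancel, mul_one, one_mul, inv_one, C]) (by simp only [mul_assoc, mul_inv_rev, inv_inv, mul_inv_cancel_left, inv_mul_cancel_left, mul_inv_cancel, inv_mul_cancel, mul_one, one_mul, inv_one, C])
  have k31 : o.lt (P * f⁻¹) (P * x⁻¹) ↔ o.lt (P * f⁻¹) (P * x⁻¹) := o.cv hδ (1) e10 (by simp only [mul_assoc, mul_inv_rev, inv_inv, mul_inv_cancel_left, inv_mul_cancel_left, mul_inv_cancel, inv_mul_cancel, mul_one, one_mul, inv_one, C]) (by simp only [mul_assoc, mul_inv_rev, inv_inv, mul_inv_cancel_left, inv_mul_cancel_left, mul_inv_cancel, inv_mul_cancel, mul_one, one_mul, inv_one, C])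
  have k32 : o.lt (P * x⁻¹) (P * f⁻¹) ↔ o.lt (P * x⁻¹) (P * f⁻¹) := o.cv hδ (1) e12 (by simp only [mul_assoc, mul_inv_rev, inv_inv, mul_inv_cancel_left, inv_mul_cancel_left, mul_inv_cancel, inv_mul_cancel, mul_one, one_mul, inv_one, C]) (by simp only [mul_assoc, mul_inv_rev, inv_inv, mul_inv_cancel_left, inv_mul_cancel_left, mul_inv_cancel, inv_mul_cancel, mul_one, one_mul, inv_one, C])
  have k33 : o.lt (P * f⁻¹) (P * g⁻¹) ↔ o.lt (P * f⁻¹) (P * g⁻¹) := o.cv hδ (1) e11 (by simp only [mul_assoc, mul_inv_rev, inv_inv, mul_inv_cancel_left, inv_mul_cancel_left, mul_inv_cancel, inv_mul_cancel, mul_one, one_mul, inv_one, C]) (by simp only [mul_assoc, mul_inv_rev, inv_inv, mul_inv_cancel_left, inv_mul_cancel_left, mul_inv_cancel, inv_mul_cancel, mul_one, one_mul, inv_one, C])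
  have k34 : o.lt (P * g⁻¹) (P * x⁻¹) ↔ o.lt (P * g⁻¹) (P * x⁻¹) := o.cv hδ (1) e16 (by simp only [mul_assoc, mul_inv_rev, inv_inv, mul_inv_cancel_left, inv_mul_cancel_left, mul_inv_cancel, inv_mul_cancel, mul_one, one_mul, inv_one, C]) (by simp only [mul_assoc, mul_inv_rev, inv_inv, mul_inv_cancel_left, inv_mul_cancel_left, mul_inv_cancel, inv_mul_cancel, mul_one, one_mul, inv_one, C])
  have k35 : o.lt (P * x⁻¹) (P * g⁻¹) ↔ o.lt (P * x⁻¹) (P * g⁻¹) := o.cv hδ (1) e14 (by simp only [mul_assoc, mul_inv_rev, inv_inv, mul_inv_cancel_left, inv_mul_cancel_left, mul_inv_cancel, inv_mul_cancel, mul_one, one_mul, inv_one, C]) (by simp only [mul_assoc, mul_inv_rev, inv_inv, mul_inv_cancel_left, inv_mul_cancel_left, mul_inv_cancel, inv_mul_cancel, mul_one, one_mul, inv_one, C])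
  have k36 : o.lt (P * g⁻¹) (Q * g⁻¹) ↔ o.lt (P * g⁻¹) (Q * g⁻¹) := o.cv hδ (1) e17 (by simp only [mul_assoc, mul_inv_rev, inv_inv, mul_inv_cancel_left, inv_mul_cancel_left, mul_inv_cancel, inv_mul_cancel, mul_one, one_mul, inv_one, C]) (by simp only [mul_assoc, mul_inv_rev, inv_inv, mul_inv_cancel_left, inv_mul_cancel_left, mul_inv_cancel, inv_mul_cancel, mul_one, one_mul, inv_one, C])
  have k37 : o.lt (Q * g⁻¹) (P * g⁻¹) ↔ o.lt (Q * g⁻¹) (P * g⁻¹) := o.cv hδ (1) e19 (by simp only [mul_assoc, mul_inv_rev, inv_inv, mul_inv_cancel_left, inv_mul_cancel_left, mul_inv_cancel, inv_mul_cancel, mul_one, one_mul, inv_one, C]) (by simp only [mul_assoc, mul_inv_rev, inv_inv, mul_inv_cancel_left, inv_mul_cancel_left, mul_inv_cancel, inv_mul_cancel, mul_one, one_mul, inv_one, C])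
  have k38 : o.lt (f * P⁻¹) (g * P⁻¹) ↔ o.lt (f * P⁻¹) (g * P⁻¹) := o.cv hδ (1) e7 (by simp only [mul_assoc, mul_inv_rev, inv_inv, mul_inv_cancel_left, inv_mul_cancel_left, mul_inv_cancel, inv_mul_cancel, mul_one, one_mul, inv_one, C]) (by simp only [mul_assoc, mul_inv_rev, inv_inv, mul_inv_cancel_left, inv_mul_cancel_left, mul_inv_cancel, inv_mul_cancel, mul_one, one_mul, inv_one, C])
  have k39 : o.lt (g * P⁻¹) (f * P⁻¹) ↔ o.lt (g * P⁻¹) (f * P⁻¹) := o.cv hδ (1) e2 (by simp only [mul_assoc, mul_inv_rev, inv_inv, mul_inv_cancel_left, inv_mul_cancel_left, mul_inv_cancel, inv_mul_cancel, mul_one, one_mul, inv_one, C]) (by simp only [mul_assoc, mul_inv_rev, inv_inv, mul_inv_cancel_left, inv_mul_cancel_left, mul_inv_cancel, inv_mul_cancel, mul_one, one_mul, inv_one, C])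
  have k40 : o.lt (x * P⁻¹) (x * Q⁻¹) ↔ o.lt (x * P⁻¹) (x * Q⁻¹) := o.cv hδ (1) e28 (by simp only [mul_assoc, mul_inv_rev, inv_inv, mul_inv_cancel_left, inv_mul_cancel_left, mul_inv_cancel, inv_mul_cancel, mul_one, one_mul, inv_one, C]) (by simp only [mul_assoc, mul_inv_rev, inv_inv, mul_inv_cancel_left, inv_mul_cancel_left, mul_inv_cancel, inv_mul_cancel, mul_one, one_mul, inv_one, C])
  have k41 : o.lt (x * Q⁻¹) (x * P⁻¹) ↔ o.lt (x * Q⁻¹) (x * P⁻¹) := o.cv hδ (1) e30 (by simp only [mul_assoc, mul_inv_rev, inv_inv, mul_inv_cancel_left, inv_mul_cancel_left, mul_inv_cancel, inv_mul_cancel, mul_one, one_mul, inv_one, C]) (by simp only [mul_assoc, mul_inv_rev, inv_inv, mul_inv_cancel_left, inv_mul_cancel_left, mul_inv_cancel, inv_mul_cancel, mul_one, one_mul, inv_one, C])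
  have k42 : o.lt (f * Q⁻¹) (x * Q⁻¹) ↔ o.lt (f * Q⁻¹) (x * Q⁻¹) := o.cv hδ (1) e29 (by simp only [mul_assoc, mul_inv_rev, inv_inv, mul_inv_cancel_left, inv_mul_cancel_left, mul_inv_cancel, inv_mul_cancel, mul_one, one_mul, inv_one, C]) (by simp only [mul_assoc, mul_inv_rev, inv_inv, mul_inv_cancel_left, inv_mul_cancel_left, mul_inv_cancel, inv_mul_cancel, mul_one, one_mul, inv_one, C])
  have k43 : o.lt (x * Q⁻¹) (f * Q⁻¹) ↔ o.lt (x * Q⁻¹) (f * Q⁻¹) := o.cv hδ (1) e31 (by simp only [mul_assoc, mul_inv_rev, inv_inv, mul_inv_cancel_left, inv_mul_cancel_left, mul_inv_cancel, inv_mul_cancel, mul_one, one_mul, inv_one, C]) (by simp only [mul_assoc, mul_inv_rev, inv_inv, mul_inv_cancel_left, inv_mul_cancel_left, mul_inv_cancel, inv_mul_cancel, mul_one, one_mul, inv_one, C])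
  have k44 : o.lt (f * P⁻¹) (g * P⁻¹) ↔ o.lt (f * Q⁻¹) (g * Q⁻¹) := o.cv hδ (P * Q⁻¹) e7 (by simp only [mul_assoc, mul_inv_rev, inv_inv, mul_inv_cancel_left, inv_mul_cancel_left, mul_inv_cancel, inv_mul_cancel, mul_one, one_mul, inv_one, C]) (by simp only [mul_assoc, mul_inv_rev, inv_inv, mul_inv_cancel_left, inv_mul_cancel_left, mul_inv_cancel, inv_mul_cancel, mul_one, one_mul, inv_one, C])
  have k45 : o.lt (x * Q⁻¹) (g * Q⁻¹) ↔ o.lt (x * Q⁻¹) (g * Q⁻¹) := o.cv hδ (1) e8 (by simp only [mul_assoc, mul_inv_rev, inv_inv, mul_inv_cancel_left, inv_mul_cancel_left, mul_inv_cancel, inv_mul_cancel, mul_one, one_mul, inv_one, C]) (by simp only [mul_assoc, mul_inv_rev, inv_inv, mul_inv_cancel_left, inv_mul_cancel_left, mul_inv_cancel, inv_mul_cancel, mul_one, one_mul, inv_one, C])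
  have k46 : o.lt (g * Q⁻¹) (x * P⁻¹) ↔ o.lt (g * Q⁻¹) (x * P⁻¹) := o.cv hδ (1) e32 (by simp only [mul_assoc, mul_inv_rev, inv_inv, mul_inv_cancel_left, inv_mul_cancel_left, mul_inv_cancel, inv_mul_cancel, mul_one, one_mul, inv_one, C]) (by simp only [mul_assoc, mul_inv_rev, inv_inv, mul_inv_cancel_left, inv_mul_cancel_left, mul_inv_cancel, inv_mul_cancel, mul_one, one_mul, inv_one, C])
  have k47 : o.lt (g * P⁻¹) (x * Q⁻¹) ↔ o.lt (g * P⁻¹) (x * Q⁻¹) := o.cv hδ (1) e5 (by simp only [mul_assoc, mul_inv_rev, inv_inv, mul_inv_cancel_left, inv_mul_cancel_left, mul_inv_cancel, inv_mul_cancel, mul_one, one_mul, inv_one, C]) (by simp only [mul_assoc, mul_inv_rev, inv_inv, mul_inv_cancel_left, inv_mul_cancel_left, mul_inv_cancel, inv_mul_cancel, mul_one, one_mul, inv_one, C])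
  have k48 : o.lt (g * Q⁻¹) (x * Q⁻¹) ↔ o.lt (g * P⁻¹) (x * P⁻¹) := o.cv hδ (Q * P⁻¹) e4 (by simp only [mul_assoc, mul_inv_rev, inv_inv, mul_inv_cancel_left, inv_mul_cancel_left, mul_inv_cancel, inv_mul_cancel, mul_one, one_mul, inv_one, C]) (by simp only [mul_assoc, mul_inv_rev, inv_inv, mul_inv_cancel_left, inv_mul_cancel_left, mul_inv_cancel, inv_mul_cancel, mul_one, one_mul, inv_one, C])
  have k49 : o.lt (g * Q⁻¹) (g * P⁻¹) ↔ o.lt (g * Q⁻¹) (g * P⁻¹) := o.cv hδ (1) e1 (by simp only [mul_assoc, mul_inv_rev, inv_inv, mul_inv_cancel_left, inv_mul_cancel_left, mul_inv_cancel, inv_mul_cancel, mul_one, one_mul, inv_one, C]) (by simp only [mul_assoc, mul_inv_rev, inv_inv, mul_inv_cancel_left, inv_mul_cancel_left, mul_inv_cancel, inv_mul_cancel, mul_one, one_mul, inv_one, C])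
  have k50 : o.lt (g * P⁻¹) (g * (P⁻¹ * (g * f⁻¹))) ↔ o.lt (g * P⁻¹) (P * (g⁻¹ * (P * f⁻¹))) := o.cv hδ (1) e20 (by simp only [mul_assoc, mul_inv_rev, inv_inv, mul_inv_cancel_left, inv_mul_cancel_left, mul_inv_cancel, inv_mul_cancel, mul_one, one_mul, inv_one, C]) (by simp only [mul_assoc, mul_inv_rev, inv_inv, mul_inv_cancel_left, inv_mul_cancel_left, mul_inv_cancel, inv_mul_cancel, mul_one, one_mul, inv_one, C])
  have k51 : o.lt (P * f⁻¹) (P * g⁻¹) ↔ o.lt (f * P⁻¹) (P * (g⁻¹ * (P * f⁻¹))) := o.cv hδ (f * (P⁻¹ * (f * P⁻¹))) e11 (by simp only [mul_assoc, mul_inv_rev, inv_inv, mul_inv_cancel_left, inv_mul_cancel_left, mul_inv_cancel, inv_mul_cancel, mul_one, one_mul, inv_one, C]) (by simp only [mul_assoc, mul_inv_rev, inv_inv, mul_inv_cancel_left, inv_mul_cancel_left, mul_inv_cancel, inv_mul_cancel, mul_one, one_mul, inv_one, C])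
  have k52 : o.lt (g * (P⁻¹ * (x * P⁻¹))) (P * g⁻¹) ↔ o.lt (g * P⁻¹) (P * (g⁻¹ * (P * x⁻¹))) := o.cv hδ (P * x⁻¹) e22 (by simp only [mul_assoc, mul_inv_rev, inv_inv, mul_inv_cancel_left, inv_mul_cancel_left, mul_inv_cancel, inv_mul_cancel, mul_one, one_mul, inv_one, C]) (by simp only [mul_assoc, mul_inv_rev, inv_inv, mul_inv_cancel_left, inv_mul_cancel_left, mul_inv_cancel, inv_mul_cancel, mul_one, one_mul, inv_one, C])
  have k53 : o.lt (g * (P⁻¹ * (g * Q⁻¹))) (g * (P⁻¹ * (x * Q⁻¹))) ↔ o.lt (P * (g⁻¹ * (P * x⁻¹))) (g * P⁻¹) := o.cv hδ (Q * (g⁻¹ * (P * (g⁻¹ * (P * (g⁻¹ * (P * x⁻¹))))))) e18 (by simp only [mul_assoc, mul_inv_rev, inv_inv, mul_inv_cancel_left, inv_mul_cancel_left, mul_inv_cancel, inv_mul_cancel, mul_one, one_mul, inv_one, C]) (by simp only [mul_assoc, mul_inv_rev, inv_inv, mul_inv_cancel_left, inv_mul_cancel_left, mul_inv_cancel, inv_mul_cancel, mul_one, one_mul, inv_one, C])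
  have k54 : o.lt (g * f⁻¹) (g * x⁻¹) ↔ o.lt (g * f⁻¹) (g * x⁻¹) := o.cv hδ (1) e0 (by simp only [mul_assoc, mul_inv_rev, inv_inv, mul_inv_cancel_left, inv_mul_cancel_left, mul_inv_cancel, inv_mul_cancel, mul_one, one_mul, inv_one, C]) (by simp only [mul_assoc, mul_inv_rev, inv_inv, mul_inv_cancel_left, inv_mul_cancel_left, mul_inv_cancel, inv_mul_cancel, mul_one, one_mul, inv_one, C])
  have k55 : o.lt (g * x⁻¹) (g * f⁻¹) ↔ o.lt (g * x⁻¹) (g * f⁻¹) := o.cv hδ (1) e3 (by simp only [mul_assoc, mul_inv_rev, inv_inv, mul_inv_cancel_left, inv_mul_cancel_left, mul_inv_cancel, inv_mul_cancel, mul_one, one_mul, inv_one, C]) (by simp only [mul_assoc, mul_inv_rev, inv_inv, mul_inv_cancel_left, inv_mul_cancel_left, mul_inv_cancel, inv_mul_cancel, mul_one, one_mul, inv_one, C])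
  have k56 : o.lt (g * Q⁻¹) (x * Q⁻¹) ↔ o.lt (g * x⁻¹) (1) := o.cv hδ (Q * x⁻¹) e4 (by simp only [mul_assoc, mul_inv_rev, inv_inv, mul_inv_cancel_left, inv_mul_cancel_left, mul_inv_cancel, inv_mul_cancel, mul_one, one_mul, inv_one, C]) (by simp only [mul_assoc, mul_inv_rev, inv_inv, mul_inv_cancel_left, inv_mul_cancel_left, mul_inv_cancel, inv_mul_cancel, mul_one, one_mul, inv_one, C])
  have k57 : o.lt (g * P⁻¹) (f * P⁻¹) ↔ o.lt (g * f⁻¹) (1) := o.cv hδ (P * f⁻¹) e2 (by simp only [mul_assoc, mul_inv_rev, inv_inv, mul_inv_cancel_left, inv_mul_cancel_left, mul_inv_cancel, inv_mul_cancel, mul_one, one_mul, inv_one, C]) (by simp only [mul_assoc, mul_inv_rev, inv_inv, mul_inv_cancel_left, inv_mul_cancel_left, mul_inv_cancel, inv_mul_cancel, mul_one, one_mul, inv_one, C])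
  have k58 : o.lt (g * (P⁻¹ * (Q * x⁻¹))) (g * (P⁻¹ * (Q * g⁻¹))) ↔ o.lt (g * (P⁻¹ * (Q * x⁻¹))) (g * (P⁻¹ * (Q * g⁻¹))) := o.cv hδ (1) e6 (by simp only [mul_assoc, mul_inv_rev, inv_inv, mul_inv_cancel_left, inv_mul_cancel_left, mul_inv_cancel, inv_mul_cancel, mul_one, one_mul, inv_one, C]) (by simp only [mul_assoc, mul_inv_rev, inv_inv, mul_inv_cancel_left, inv_mul_cancel_left, mul_inv_cancel, inv_mul_cancel, mul_one, one_mul, inv_one, C])
  have k59 : o.lt (g * P⁻¹) (x * Q⁻¹) ↔ o.lt (g * (P⁻¹ * (Q * x⁻¹))) (1) := o.cv hδ (Q * x⁻¹) e5 (by simp only [mul_assoc, mul_inv_rev, inv_inv, mul_inv_cancel_left, inv_mul_cancel_left, mul_inv_cancel, inv_mul_cancel, mul_one, one_mul, inv_one, C]) (by simp only [mul_assoc, mul_inv_rev, inv_inv, mul_inv_cancel_left, inv_mul_cancel_left, mul_inv_cancel, inv_mul_cancel, mul_one, one_mul, inv_one, C])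
  have k60 : o.lt (g * Q⁻¹) (g * P⁻¹) ↔ o.lt (1) (g * (P⁻¹ * (Q * g⁻¹))) := o.cv hδ (Q * g⁻¹) e1 (by simp only [mul_assoc, mul_inv_rev, inv_inv, mul_inv_cancel_left, inv_mul_cancel_left, mul_inv_cancel, inv_mul_cancel, mul_one, one_mul, inv_one, C]) (by simp only [mul_assoc, mul_inv_rev, inv_inv, mul_inv_cancel_left, inv_mul_cancel_left, mul_inv_cancel, inv_mul_cancel, mul_one, one_mul, inv_one, C])
  have k61 : o.lt (g * (P⁻¹ * (x * P⁻¹))) (g * (P⁻¹ * (x * Q⁻¹))) ↔ o.lt (g * (P⁻¹ * (x * P⁻¹))) (g * (P⁻¹ * (x * Q⁻¹))) := o.cv hδ (1) e24 (by simp only [mul_assoc, mul_inv_rev, inv_inv, mul_inv_cancel_left, inv_mul_cancel_left, mul_inv_cancel, inv_mul_cancel, mul_one, one_mul, inv_one, C]) (by simp only [mul_assoc, mul_inv_rev, inv_inv, mul_inv_cancel_left, inv_mul_cancel_left, mul_inv_cancel, inv_mul_cancel, mul_one, one_mul, inv_one, C])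
  have k62 : o.lt (g * (P⁻¹ * (x * Q⁻¹))) (g * (P⁻¹ * (x * P⁻¹))) ↔ o.lt (g * (P⁻¹ * (x * Q⁻¹))) (g * (P⁻¹ * (x * P⁻¹))) := o.cv hδ (1) e26 (by simp only [mul_assoc, mul_inv_rev, inv_inv, mul_inv_cancel_left, inv_mul_cancel_left, mul_inv_cancel, inv_mul_cancel, mul_one, one_mul, inv_one, C]) (by simp only [mul_assoc, mul_inv_rev, inv_inv, mul_inv_cancel_left, inv_mul_cancel_left, mul_inv_cancel, inv_mul_cancel, mul_one, one_mul, inv_one, C])
  have k63 : o.lt (g * (P⁻¹ * (x * P⁻¹))) (P * g⁻¹) ↔ o.lt (g * (P⁻¹ * (x * P⁻¹))) (P * g⁻¹) := o.cv hδ (1) e22 (by simp only [mul_assoc, mul_inv_rev, inv_inv, mul_inv_cancel_left, inv_mul_cancel_left, mul_inv_cancel, inv_mul_cancel, mul_one, one_mul, inv_one, C]) (by simp only [mul_assoc, mul_inv_rev, inv_inv, mul_inv_cancel_left, inv_mul_cancel_left, mul_inv_cancel, inv_mul_cancel, mul_one, one_mul, inv_one, C])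
  have k64 : o.lt (g * (P⁻¹ * (x * P⁻¹))) (g * (P⁻¹ * (f * P⁻¹))) ↔ o.lt (g * (P⁻¹ * (x * P⁻¹))) (g * (P⁻¹ * (f * P⁻¹))) := o.cv hδ (1) e23 (by simp only [mul_assoc, mul_inv_rev, inv_inv, mul_inv_cancel_left, inv_mul_cancel_left, mul_inv_cancel, inv_mul_cancel, mul_one, one_mul, inv_one, C]) (by simp only [mul_assoc, mul_inv_rev, inv_inv, mul_inv_cancel_left, inv_mul_cancel_left, mul_inv_cancel, inv_mul_cancel, mul_one, one_mul, inv_one, C])
  have k65 : o.lt (g * P⁻¹) (g * (P⁻¹ * (g * f⁻¹))) ↔ o.lt (g * (P⁻¹ * (f * P⁻¹))) (P * g⁻¹) := o.cv hδ (f * P⁻¹) e20 (by simp only [mul_assoc, mul_inv_rev, inv_inv, mul_inv_cancel_left, inv_mul_cancel_left, mul_inv_cancel, inv_mul_cancel, mul_one, one_mul, inv_one, C]) (by simp only [mul_assoc, mul_inv_rev, inv_inv, mul_inv_cancel_left, inv_mul_cancel_left, mul_inv_cancel, inv_mul_cancel, mul_one, one_mul, inv_one, C])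
  have k66 : o.lt (g * (P⁻¹ * (f * Q⁻¹))) (g * (P⁻¹ * (x * Q⁻¹))) ↔ o.lt (g * (P⁻¹ * (f * Q⁻¹))) (g * (P⁻¹ * (x * Q⁻¹))) := o.cv hδ (1) e25 (by simp only [mul_assoc, mul_inv_rev, inv_inv, mul_inv_cancel_left, inv_mul_cancel_left, mul_inv_cancel, inv_mul_cancel, mul_one, one_mul, inv_one, C]) (by simp only [mul_assoc, mul_inv_rev, inv_inv, mul_inv_cancel_left, inv_mul_cancel_left, mul_inv_cancel, inv_mul_cancel, mul_one, one_mul, inv_one, C])
  have k67 : o.lt (g * P⁻¹) (g * (P⁻¹ * (g * f⁻¹))) ↔ o.lt (g * (P⁻¹ * (f * Q⁻¹))) (g * (P⁻¹ * (g * Q⁻¹))) := o.cv hδ (f * Q⁻¹) e20 (by simp only [mul_assoc, mul_inv_rev, inv_inv, mul_inv_cancel_left, inv_mul_cancel_left, mul_inv_cancel, inv_mul_cancel, mul_one, one_mul, inv_one, C]) (by simp only [mul_assoc, mul_inv_rev, inv_inv, mul_inv_cancel_left, inv_mul_cancel_left, mul_inv_cancel, inv_mul_cancel, mul_one, one_mul, inv_one, C])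
  have k68 : o.lt (g * (P⁻¹ * (g * Q⁻¹))) (g * (P⁻¹ * (x * Q⁻¹))) ↔ o.lt (g * (P⁻¹ * (g * Q⁻¹))) (g * (P⁻¹ * (x * Q⁻¹))) := o.cv hδ (1) e18 (by simp only [mul_assoc, mul_inv_rev, inv_inv, mul_inv_cancel_left, inv_mul_cancel_left, mul_inv_cancel, inv_mul_cancel, mul_one, one_mul, inv_one, C]) (by simp only [mul_assoc, mul_inv_rev, inv_inv, mul_inv_cancel_left, inv_mul_cancel_left, mul_inv_cancel, inv_mul_cancel, mul_one, one_mul, inv_one, C])
  have k69 : o.lt (g * Q⁻¹) (g * P⁻¹) ↔ o.lt ((Q * g⁻¹)⁻¹) ((P * g⁻¹)⁻¹) := o.cv hδ (1) e1 (by simp only [mul_assoc, mul_inv_rev, inv_inv, mul_inv_cancel_left, inv_mul_cancel_left, mul_inv_cancel, inv_mul_cancel, mul_one, one_mul, inv_one, C]) (by simp only [mul_assoc, mul_inv_rev, inv_inv, mul_inv_cancel_left, inv_mul_cancel_left, mul_inv_cancel, inv_mul_cancel, mul_one, one_mul, inv_one, C])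
  have k70 : o.lt (f * P⁻¹) (g * P⁻¹) ↔ o.lt ((P * f⁻¹)⁻¹) ((P * g⁻¹)⁻¹) := o.cv hδ (1) e7 (by simp only [mul_assoc, mul_inv_rev, inv_inv, mul_inv_cancel_left, inv_mul_cancel_left, mul_inv_cancel, inv_mul_cancel, mul_one, one_mul, inv_one, C]) (by simp only [mul_assoc, mul_inv_rev, inv_inv, mul_inv_cancel_left, inv_mul_cancel_left, mul_inv_cancel, inv_mul_cancel, mul_one, one_mul, inv_one, C])
  exact par_EEE_2_prop
    (fun b0 b1 b2 => N0.rd.r1 1 (fun h => b0 (k0.2 h)) (k1.1 b1) (fun h => b2 (k2.2 h)))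
    (fun b0 b1 b2 => N0.r.r1 1 (fun h => b0 (k3.2 h)) (k4.1 b1) (fun h => b2 (k5.2 h)))
    (fun b0 b1 b2 => N0.i.r2 1 (fun h => b0 (k1.2 h)) (fun h => b1 (k6.2 h)) (k7.1 b2))
    (fun b0 b1 => b1 (k7.2 ((o.cv hδ (Q * P⁻¹) (by simp only [hδ, δinv hδ, δone hδ, D] <;> linear_combination (0) * h3) (by simp only [mul_assoc, mul_inv_rev, inv_inv, mul_inv_cancel_left, inv_mul_cancel_left, mul_inv_cancel, inv_mul_cancel, mul_one, one_mul, inv_one, C]) (by simp only [mul_assoc, mul_inv_rev, inv_inv, mul_inv_cancel_left, inv_mul_cancel_left, mul_inv_cancel, inv_mul_cancel, mul_one, one_mul, inv_one, C]) : o.lt (1 * (Q * f⁻¹)⁻¹) (1 * (Q * x⁻¹)⁻¹) ↔ o.lt (1 * (P * f⁻¹)⁻¹) (1 * (P * x⁻¹)⁻¹)).1 (k5.1 b0))))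
    (fun b0 b1 => b1 (k8.2 ((o.cv hδ (x * g⁻¹) (by simp only [hδ, δinv hδ, δone hδ, D] <;> linear_combination (0) * h3) (by simp only [mul_assoc, mul_inv_rev, inv_inv, mul_inv_cancel_left, inv_mul_cancel_left, mul_inv_cancel, inv_mul_cancel, mul_one, one_mul, inv_one, C]) (by simp only [mul_assoc, mul_inv_rev, inv_inv, mul_inv_cancel_left, inv_mul_cancel_left, mul_inv_cancel, inv_mul_cancel, mul_one, one_mul, inv_one, C]) : o.lt (1 * (P * x⁻¹)) (1 * (Q * x⁻¹)) ↔ o.lt (1 * (P * g⁻¹)) (1 * (Q * g⁻¹))).1 (k3.1 b0))))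
    (fun b0 b1 => b1 (k9.2 ((o.cv hδ (x * g⁻¹) (by simp only [hδ, δinv hδ, δone hδ, D] <;> linear_combination (0) * h3) (by simp only [mul_assoc, mul_inv_rev, inv_inv, mul_inv_cancel_left, inv_mul_cancel_left, mul_inv_cancel, inv_mul_cancel, mul_one, one_mul, inv_one, C]) (by simp only [mul_assoc, mul_inv_rev, inv_inv, mul_inv_cancel_left, inv_mul_cancel_left, mul_inv_cancel, inv_mul_cancel, mul_one, one_mul, inv_one, C]) : o.lt (1 * (Q * x⁻¹)) (1 * (P * x⁻¹)) ↔ o.lt (1 * (Q * g⁻¹)) (1 * (P * g⁻¹))).1 (k0.1 b0))))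
    (fun b0 b1 b2 => N1.rd.r1 1 (fun h => b0 (k9.2 h)) (k10.1 b1) (fun h => b2 (k11.2 h)))
    (fun b0 b1 b2 => N1.r.r1 1 (fun h => b0 (k8.2 h)) (k12.1 b1) (fun h => b2 (k13.2 h)))
    (fun b0 b1 b2 => N1.i.r2 1 (fun h => b0 (k10.2 h)) (fun h => b1 (k14.2 h)) (k15.1 b2))
    (fun b0 b1 b2 => N0.r.r1 (g * P⁻¹) (fun h => b0 (k16.2 h)) (k17.1 b1) (fun h => b2 (k18.2 h)))
    (fun b0 b1 b2 => N0.d.r2 (g * P⁻¹) (fun h => b0 (k17.2 h)) (fun h => b1 (k19.2 h)) (k20.1 b2))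
    (fun b0 b1 b2 => N0.i.r2 (g * P⁻¹) (fun h => b0 (k21.2 h)) (fun h => b1 (k22.2 h)) (k23.1 b2))
    (fun b0 b1 => b1 (k23.2 ((o.cv hδ (Q * P⁻¹) (by simp only [hδ, δinv hδ, δone hδ, D] <;> linear_combination (0) * h3) (by simp only [mul_assoc, mul_inv_rev, inv_inv, mul_inv_cancel_left, inv_mul_cancel_left, mul_inv_cancel, inv_mul_cancel, mul_one, one_mul, inv_one, C]) (by simp only [mul_assoc, mul_inv_rev, inv_inv, mul_inv_cancel_left, inv_mul_cancel_left, mul_inv_cancel, inv_mul_cancel, mul_one, one_mul, inv_one, C]) : o.lt ((g * P⁻¹) * (Q * f⁻¹)⁻¹) ((g * P⁻¹) * (Q * x⁻¹)⁻¹) ↔ o.lt ((g * P⁻¹) * (P * f⁻¹)⁻¹) ((g * P⁻¹) * (P * x⁻¹)⁻¹)).1 (k18.1 b0))))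
    (fun b0 b1 b2 => N1.d.r1 (g * P⁻¹) (fun h => b0 (k16.2 h)) (k24.1 b1) (fun h => b2 (k25.2 h)))
    (fun b0 b1 b2 => N1.r.r1 (g * P⁻¹) (fun h => b0 (k26.2 h)) (k27.1 b1) (fun h => b2 (k28.2 h)))
    (fun b0 b1 b2 => N1.r.r2 (g * P⁻¹) (fun h => b0 (k24.2 h)) (fun h => b1 (k19.2 h)) (k29.1 b2))
    (fun b0 b1 b2 => N1.rd.r2 (g * P⁻¹) (fun h => b0 (k30.2 h)) (fun h => b1 (k22.2 h)) (k28.1 b2))
    (fun b0 b1 => o.asym (k31.1 b0) (k32.1 b1))
    (fun b0 b1 b2 => o.tri (k31.1 b0) (fun h => b1 (k33.2 h)) (fun h => b2 (k34.2 h)))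
    (fun b0 b1 b2 => o.tri (k35.1 b0) (fun h => b1 (k32.2 h)) (fun h => b2 (k33.2 h)))
    (fun b0 b1 => o.asym (k36.1 b0) (k37.1 b1))
    (fun b0 b1 => o.asym (k38.1 b0) (k39.1 b1))
    (fun b0 b1 => o.asym (k40.1 b0) (k41.1 b1))
    (fun b0 b1 => o.asym (k42.1 b0) (k43.1 b1))
    (fun b0 b1 b2 => o.tri (k44.1 b0) (fun h => b1 (k42.2 h)) (fun h => b2 (k45.2 h)))
    (fun b0 b1 b2 => o.tri (k41.1 b0) (fun h => b1 (k45.2 h)) (fun h => b2 (k46.2 h)))
    (fun b0 b1 b2 => o.tri (k47.1 b0) (fun h => b1 (k48.2 h)) (fun h => b2 (k40.2 h)))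
    (fun b0 b1 b2 => o.tri (k46.1 b0) (fun h => b1 (k49.2 h)) (fun h => b2 (k48.2 h)))
    (fun b0 b1 b2 => o.tri (k50.1 b0) (fun h => b1 (k39.2 h)) (fun h => b2 (k51.2 h)))
    (fun b0 b1 => o.asym (k52.1 b0) (k53.1 b1))
    (fun b0 b1 => o.asym (k54.1 b0) (k55.1 b1))
    (fun b0 b1 b2 => o.tri (k56.1 b0) (fun h => b1 (k55.2 h)) (fun h => b2 (k57.2 h)))
    (fun b0 b1 b2 => o.tri (k58.1 b0) (fun h => b1 (k59.2 h)) (fun h => b2 (k60.2 h)))
    (fun b0 b1 => o.asym (k61.1 b0) (k62.1 b1))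
    (fun b0 b1 b2 => o.tri (k63.1 b0) (fun h => b1 (k64.2 h)) (fun h => b2 (k65.2 h)))
    (fun b0 b1 b2 => o.tri (k66.1 b0) (fun h => b1 (k67.2 h)) (fun h => b2 (k68.2 h)))
    (fun h => g0 (k33.1 h))
    (fun h => g1 (k69.1 h))
    (k70.2 g2)

theorem par_AAB_0_prop {A1 A2 A3 A4 A5 A6 A7 A8 A9 A10 A11 A12 A13 A14 A15 A16 A17 A18 A19 A20 A21 A22 A23 A24 A25 A26 A27 A28 A29 A30 A31 A32 A33 A34 A35 : Prop}
    (c0 : ¬ A26 → ¬ A30 → A2 → False)
    (c1 : ¬ A6 → A3 → ¬ A10 → False)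
    (c2 : ¬ A15 → ¬ A13 → A10 → False)
    (c3 : ¬ A12 → ¬ A3 → A24 → False)
    (c4 : ¬ A33 → ¬ A34 → A7 → False)
    (c5 : ¬ A31 → A34 → ¬ A14 → False)
    (c6 : ¬ A35 → A28 → ¬ A7 → False)
    (c7 : ¬ A17 → A9 → ¬ A18 → False)
    (c8 : ¬ A8 → A20 → ¬ A25 → False)
    (c9 : ¬ A21 → ¬ A20 → A18 → False)
    (c10 : A1 → ¬ A3 → ¬ A14 → False)
    (c11 : A3 → A13 → False)
    (c12 : A4 → A16 → False)
    (c13 : A4 → ¬ A5 → ¬ A22 → False)
    (c14 : A5 → ¬ A1 → ¬ A9 → False)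
    (c15 : A6 → ¬ A8 → ¬ A16 → False)
    (c16 : A7 → A14 → False)
    (c17 : A8 → A17 → False)
    (c18 : A8 → ¬ A9 → ¬ A22 → False)
    (c19 : A9 → A20 → False)
    (c20 : A10 → A24 → False)
    (c21 : A10 → ¬ A9 → ¬ A23 → False)
    (c22 : A12 → ¬ A11 → ¬ A3 → False)
    (c23 : A15 → ¬ A13 → ¬ A2 → False)
    (c24 : A17 → ¬ A18 → ¬ A24 → False)
    (c25 : A18 → A25 → False)
    (c26 : A18 → ¬ A17 → ¬ A10 → False)
    (c27 : A19 → ¬ A22 → ¬ A16 → False)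
    (c28 : A21 → ¬ A19 → ¬ A3 → False)
    (c29 : A21 → ¬ A20 → ¬ A7 → False)
    (c30 : A23 → ¬ A22 → ¬ A18 → False)
    (c31 : A26 → ¬ A27 → ¬ A32 → False)
    (c32 : A27 → A33 → False)
    (c33 : A29 → ¬ A28 → ¬ A22 → False)
    (c34 : A30 → ¬ A24 → ¬ A26 → False)
    (c35 : A31 → A35 → False)
    (c36 : A14 → ¬ A24 → ¬ A29 → False)
    (c37 : A34 → ¬ A35 → ¬ A24 → False)
    (c38 : A35 → ¬ A22 → ¬ A7 → False)
    (u0 : ¬ A11)
    (u1 : ¬ A22)
    (u2 : A4)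
    (u3 : ¬ A32)
    : False := by
  have q1 : ¬ A16 := fun h => c12 u2 h
  have q2 : A5 := Classical.byContradiction fun h => c13 u2 h u1
  have q3 : ¬ A19 := fun h => c27 h u1 q1
  rcases Classical.em A3 with q4 | q4
  · have q5 : ¬ A13 := fun h => c11 q4 h
    rcases Classical.em A9 with q6 | q6
    · have q7 : ¬ A20 := fun h => c19 q6 h
      rcases Classical.em A18 with q8 | q8
      · have q9 : A21 := Classical.byContradiction fun h => c9 h q7 q8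
        have q10 : ¬ A25 := fun h => c25 q8 h
        have q11 : A7 := Classical.byContradiction fun h => c29 q9 q7 h
        have q12 : ¬ A14 := fun h => c16 q11 h
        rcases Classical.em A10 with q13 | q13
        · have q14 : A15 := Classical.byContradiction fun h => c2 h q5 q13
          have q15 : ¬ A24 := fun h => c20 q13 h
          have q16 : A2 := Classical.byContradiction fun h => c23 q14 q5 h
          rcases Classical.em A26 with q17 | q17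
          · have q18 : A27 := Classical.byContradiction fun h => c31 q17 h u3
            have q19 : ¬ A33 := fun h => c32 q18 h
            have q20 : A34 := Classical.byContradiction fun h => c4 q19 h q11
            have q21 : A31 := Classical.byContradiction fun h => c5 h q20 q12
            have q22 : ¬ A35 := fun h => c35 q21 h
            exact c37 q20 q22 q15
          · have q23 : A30 := Classical.byContradiction fun h => c0 q17 h q16
            exact c34 q23 q15 q17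
        · have q24 : A6 := Classical.byContradiction fun h => c1 h q4 q13
          have q25 : A8 := Classical.byContradiction fun h => c15 q24 h q1
          have q26 : ¬ A17 := fun h => c17 q25 h
          exact c26 q8 q26 q13
      · have q27 : A17 := Classical.byContradiction fun h => c7 h q6 q8
        have q28 : ¬ A8 := fun h => c17 h q27
        have q29 : ¬ A6 := fun h => c15 h q28 q1
        have q30 : A10 := Classical.byContradiction fun h => c1 q29 q4 h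
        have q31 : A15 := Classical.byContradiction fun h => c2 h q5 q30
        have q32 : ¬ A24 := fun h => c20 q30 h
        exact c24 q27 q8 q32
    · have q33 : A1 := Classical.byContradiction fun h => c14 q2 h q6
      have q34 : ¬ A8 := fun h => c18 h q6 u1
      have q35 : ¬ A6 := fun h => c15 h q34 q1
      have q36 : A10 := Classical.byContradiction fun h => c1 q35 q4 h
      have q37 : A15 := Classical.byContradiction fun h => c2 h q5 q36
      have q38 : ¬ A24 := fun h => c20 q36 h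
      have q39 : A23 := Classical.byContradiction fun h => c21 q36 q6 h
      have q40 : A2 := Classical.byContradiction fun h => c23 q37 q5 h
      have q41 : A18 := Classical.byContradiction fun h => c30 q39 u1 h
      have q42 : ¬ A25 := fun h => c25 q41 h
      have q43 : ¬ A20 := fun h => c8 q34 h q42
      have q44 : A21 := Classical.byContradiction fun h => c9 h q43 q41
      have q45 : A7 := Classical.byContradiction fun h => c29 q44 q43 h
      have q46 : ¬ A14 := fun h => c16 q45 h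
      rcases Classical.em A26 with q47 | q47
      · have q48 : A27 := Classical.byContradiction fun h => c31 q47 h u3
        have q49 : ¬ A33 := fun h => c32 q48 h
        have q50 : A34 := Classical.byContradiction fun h => c4 q49 h q45
        have q51 : A31 := Classical.byContradiction fun h => c5 h q50 q46
        have q52 : ¬ A35 := fun h => c35 q51 h
        exact c37 q50 q52 q38
      · have q53 : A30 := Classical.byContradiction fun h => c0 q47 h q40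
        exact c34 q53 q38 q47
  · have q54 : ¬ A12 := fun h => c22 h u0 q4
    have q55 : ¬ A24 := fun h => c3 q54 q4 h
    have q56 : ¬ A21 := fun h => c28 h q3 q4
    rcases Classical.em A18 with q57 | q57
    · have q58 : A20 := Classical.byContradiction fun h => c9 q56 h q57
      have q59 : ¬ A9 := fun h => c19 h q58
      have q60 : A1 := Classical.byContradiction fun h => c14 q2 h q59
      have q61 : A14 := Classical.byContradiction fun h => c10 q60 q4 h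
      have q62 : ¬ A7 := fun h => c16 h q61
      have q63 : ¬ A8 := fun h => c18 h q59 u1
      have q64 : A25 := Classical.byContradiction fun h => c8 q63 q58 h
      exact c25 q57 q64
    · have q65 : ¬ A17 := fun h => c24 h q57 q55
      have q66 : ¬ A9 := fun h => c7 q65 h q57
      have q67 : A1 := Classical.byContradiction fun h => c14 q2 h q66
      have q68 : A14 := Classical.byContradiction fun h => c10 q67 q4 h
      have q69 : ¬ A7 := fun h => c16 h q68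
      have q70 : ¬ A8 := fun h => c18 h q66 u1
      have q71 : ¬ A6 := fun h => c15 h q70 q1
      have q72 : ¬ A23 := fun h => c30 h u1 q57
      have q73 : ¬ A10 := fun h => c21 h q66 q72
      have q74 : A29 := Classical.byContradiction fun h => c36 q68 q55 h
      have q75 : A28 := Classical.byContradiction fun h => c33 q74 h u1
      have q76 : A35 := Classical.byContradiction fun h => c6 h q75 q69
      exact c38 q76 u1 q69

theorem par_AAB_0 {G : Type*} [Group G] {δ : G → ZMod 3} (hδ : ∀ u v, δ (u * v) = δ u + δ v) (o : Pre δ)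
    {P Q f x g : G} {e : ZMod 3} (h3 : 3 * e = 0)
    (D : δ P = e ∧ δ Q = -e ∧ δ f = 0 ∧ δ x = 0 ∧ δ g = 0)
    (C : Cube P f ∧ Cube P x ∧ Cube P g ∧ Cube Q f ∧ Cube Q x ∧ Cube Q g)
    (N0 : RA o P Q f x)
    (N1 : RA o P Q x g)
    (g0 : ¬ o.lt (f * Q⁻¹) (P * f⁻¹)) (g1 : ¬ o.lt (g * Q⁻¹) (P * g⁻¹)) (g2 : o.lt (P * f⁻¹) (P * g⁻¹)) (g3 : ¬ o.lt (g) (f)) : False := by
  simp only [Cube] at C
  have e0 : δ (P * f⁻¹) = δ (P * x⁻¹) := by simp only [hδ, δinv hδ, δone hδ, D] <;> linear_combination (0) * h3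
  have e1 : δ (P * f⁻¹) = δ (f * Q⁻¹) := by simp only [hδ, δinv hδ, δone hδ, D] <;> linear_combination (0) * h3
  have e2 : δ (P * f⁻¹) = δ (x * Q⁻¹) := by simp only [hδ, δinv hδ, δone hδ, D] <;> linear_combination (0) * h3
  have e3 : δ (P * f⁻¹) = δ (P * g⁻¹) := by simp only [hδ, δinv hδ, δone hδ, D] <;> linear_combination (0) * h3
  have e4 : δ (P * f⁻¹) = δ (g * Q⁻¹) := by simp only [hδ, δinv hδ, δone hδ, D] <;> linear_combination (0) * h3
  have e5 : δ (P * x⁻¹) = δ (P * f⁻¹) := by simp only [hδ, δinv hδ, δone hδ, D] <;> linear_combination (0) * h3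
  have e6 : δ (P * x⁻¹) = δ (x * Q⁻¹) := by simp only [hδ, δinv hδ, δone hδ, D] <;> linear_combination (0) * h3
  have e7 : δ (P * x⁻¹) = δ (P * g⁻¹) := by simp only [hδ, δinv hδ, δone hδ, D] <;> linear_combination (0) * h3
  have e8 : δ (P * x⁻¹) = δ (g * Q⁻¹) := by simp only [hδ, δinv hδ, δone hδ, D] <;> linear_combination (0) * h3
  have e9 : δ (x * P⁻¹) = δ (Q * x⁻¹) := by simp only [hδ, δinv hδ, δone hδ, D] <;> linear_combination (0) * h3
  have e10 : δ (f * Q⁻¹) = δ (P * f⁻¹) := by simp only [hδ, δinv hδ, δone hδ, D] <;> linear_combination (0) * h3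
  have e11 : δ (f * Q⁻¹) = δ (x * Q⁻¹) := by simp only [hδ, δinv hδ, δone hδ, D] <;> linear_combination (0) * h3
  have e12 : δ (x * Q⁻¹) = δ (P * f⁻¹) := by simp only [hδ, δinv hδ, δone hδ, D] <;> linear_combination (0) * h3
  have e13 : δ (x * Q⁻¹) = δ (P * x⁻¹) := by simp only [hδ, δinv hδ, δone hδ, D] <;> linear_combination (0) * h3
  have e14 : δ (x * Q⁻¹) = δ (f * Q⁻¹) := by simp only [hδ, δinv hδ, δone hδ, D] <;> linear_combination (0) * h3
  have e15 : δ (P * g⁻¹) = δ (P * f⁻¹) := by simp only [hδ, δinv hδ, δone hδ, D] <;> linear_combination (0) * h3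
  have e16 : δ (P * g⁻¹) = δ (P * x⁻¹) := by simp only [hδ, δinv hδ, δone hδ, D] <;> linear_combination (0) * h3
  have e17 : δ (g * P⁻¹) = δ (Q * g⁻¹) := by simp only [hδ, δinv hδ, δone hδ, D] <;> linear_combination (0) * h3
  have e18 : δ (g * Q⁻¹) = δ (P * f⁻¹) := by simp only [hδ, δinv hδ, δone hδ, D] <;> linear_combination (0) * h3
  have e19 : δ (g * Q⁻¹) = δ (P * x⁻¹) := by simp only [hδ, δinv hδ, δone hδ, D] <;> linear_combination (0) * h3
  have e20 : δ (g * Q⁻¹) = δ (x * Q⁻¹) := by simp only [hδ, δinv hδ, δone hδ, D] <;> linear_combination (0) * h3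
  have e21 : δ (g * Q⁻¹) = δ (P * g⁻¹) := by simp only [hδ, δinv hδ, δone hδ, D] <;> linear_combination (0) * h3
  have e22 : δ (g * Q⁻¹) = δ (Q * P⁻¹) := by simp only [hδ, δinv hδ, δone hδ, D] <;> linear_combination (1) * h3
  have e23 : δ (Q * x⁻¹) = δ (x * P⁻¹) := by simp only [hδ, δinv hδ, δone hδ, D] <;> linear_combination (0) * h3
  have e24 : δ (Q * g⁻¹) = δ (g * P⁻¹) := by simp only [hδ, δinv hδ, δone hδ, D] <;> linear_combination (0) * h3
  have e25 : δ (x * P⁻¹) = δ (f * P⁻¹) := by simp only [hδ, δinv hδ, δone hδ, D] <;> linear_combination (0) * h3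
  have e26 : δ (x * P⁻¹) = δ (g * P⁻¹) := by simp only [hδ, δinv hδ, δone hδ, D] <;> linear_combination (0) * h3
  have e27 : δ (x * P⁻¹) = δ (Q * g⁻¹) := by simp only [hδ, δinv hδ, δone hδ, D] <;> linear_combination (0) * h3
  have e28 : δ (x * P⁻¹) = δ (P * Q⁻¹) := by simp only [hδ, δinv hδ, δone hδ, D] <;> linear_combination (-1) * h3
  have e29 : δ (Q * x⁻¹) = δ (f * P⁻¹) := by simp only [hδ, δinv hδ, δone hδ, D] <;> linear_combination (0) * h3
  have e30 : δ (Q * x⁻¹) = δ (Q * g⁻¹) := by simp only [hδ, δinv hδ, δone hδ, D] <;> linear_combination (0) * h3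
  have e31 : δ (g * P⁻¹) = δ (f * P⁻¹) := by simp only [hδ, δinv hδ, δone hδ, D] <;> linear_combination (0) * h3
  have e32 : δ (g * P⁻¹) = δ (x * P⁻¹) := by simp only [hδ, δinv hδ, δone hδ, D] <;> linear_combination (0) * h3
  have e33 : δ (Q * g⁻¹) = δ (x * P⁻¹) := by simp only [hδ, δinv hδ, δone hδ, D] <;> linear_combination (0) * h3
  have e34 : δ (Q * g⁻¹) = δ (Q * x⁻¹) := by simp only [hδ, δinv hδ, δone hδ, D] <;> linear_combination (0) * h3
  have k0 : o.lt (x * P⁻¹) (f * P⁻¹) ↔ o.lt (1 * (x * P⁻¹)) (1 * (f * P⁻¹)) := o.cv hδ (1) e25 (by simp only [mul_assoc, mul_inv_rev, inv_inv, mul_inv_cancel_left, inv_mul_cancel_left, mul_inv_cancel, inv_mul_cancel, mul_one, one_mul, inv_one, C]) (by simp only [mul_assoc, mul_inv_rev, inv_inv, mul_inv_cancel_left, inv_mul_cancel_left, mul_inv_cancel, inv_mul_cancel, mul_one, one_mul, inv_one, C])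
  have k1 : o.lt (Q * x⁻¹) (f * P⁻¹) ↔ o.lt (1 * (Q * x⁻¹)) (1 * (f * P⁻¹)) := o.cv hδ (1) e29 (by simp only [mul_assoc, mul_inv_rev, inv_inv, mul_inv_cancel_left, inv_mul_cancel_left, mul_inv_cancel, inv_mul_cancel, mul_one, one_mul, inv_one, C]) (by simp only [mul_assoc, mul_inv_rev, inv_inv, mul_inv_cancel_left, inv_mul_cancel_left, mul_inv_cancel, inv_mul_cancel, mul_one, one_mul, inv_one, C])
  have k2 : o.lt (P * f⁻¹) (f * Q⁻¹) ↔ o.lt (1 * (f * P⁻¹)⁻¹) (1 * (Q * f⁻¹)⁻¹) := o.cv hδ (1) e1 (by simp only [mul_assoc, mul_inv_rev, inv_inv, mul_inv_cancel_left, inv_mul_cancel_left, mul_inv_cancel, inv_mul_cancel, mul_one, one_mul, inv_one, C]) (by simp only [mul_assoc, mul_inv_rev, inv_inv, mul_inv_cancel_left, inv_mul_cancel_left, mul_inv_cancel, inv_mul_cancel, mul_one, one_mul, inv_one, C])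
  have k3 : o.lt (P * x⁻¹) (P * f⁻¹) ↔ o.lt (1 * (P * x⁻¹)) (1 * (P * f⁻¹)) := o.cv hδ (1) e5 (by simp only [mul_assoc, mul_inv_rev, inv_inv, mul_inv_cancel_left, inv_mul_cancel_left, mul_inv_cancel, inv_mul_cancel, mul_one, one_mul, inv_one, C]) (by simp only [mul_assoc, mul_inv_rev, inv_inv, mul_inv_cancel_left, inv_mul_cancel_left, mul_inv_cancel, inv_mul_cancel, mul_one, one_mul, inv_one, C])
  have k4 : o.lt (P * f⁻¹) (x * Q⁻¹) ↔ o.lt (1 * (P * f⁻¹)) (1 * (x * Q⁻¹)) := o.cv hδ (1) e2 (by simp only [mul_assoc, mul_inv_rev, inv_inv, mul_inv_cancel_left, inv_mul_cancel_left, mul_inv_cancel, inv_mul_cancel, mul_one, one_mul, inv_one, C]) (by simp only [mul_assoc, mul_inv_rev, inv_inv, mul_inv_cancel_left, inv_mul_cancel_left, mul_inv_cancel, inv_mul_cancel, mul_one, one_mul, inv_one, C])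
  have k5 : o.lt (x * P⁻¹) (Q * x⁻¹) ↔ o.lt (1 * (P * x⁻¹)⁻¹) (1 * (x * Q⁻¹)⁻¹) := o.cv hδ (1) e9 (by simp only [mul_assoc, mul_inv_rev, inv_inv, mul_inv_cancel_left, inv_mul_cancel_left, mul_inv_cancel, inv_mul_cancel, mul_one, one_mul, inv_one, C]) (by simp only [mul_assoc, mul_inv_rev, inv_inv, mul_inv_cancel_left, inv_mul_cancel_left, mul_inv_cancel, inv_mul_cancel, mul_one, one_mul, inv_one, C])
  have k6 : o.lt (x * Q⁻¹) (f * Q⁻¹) ↔ o.lt (1 * (x * Q⁻¹)) (1 * (f * Q⁻¹)) := o.cv hδ (1) e14 (by simp only [mul_assoc, mul_inv_rev, inv_inv, mul_inv_cancel_left, inv_mul_cancel_left, mul_inv_cancel, inv_mul_cancel, mul_one, one_mul, inv_one, C]) (by simp only [mul_assoc, mul_inv_rev, inv_inv, mul_inv_cancel_left, inv_mul_cancel_left, mul_inv_cancel, inv_mul_cancel, mul_one, one_mul, inv_one, C])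
  have k7 : o.lt (x * Q⁻¹) (P * f⁻¹) ↔ o.lt (1 * (x * Q⁻¹)) (1 * (P * f⁻¹)) := o.cv hδ (1) e12 (by simp only [mul_assoc, mul_inv_rev, inv_inv, mul_inv_cancel_left, inv_mul_cancel_left, mul_inv_cancel, inv_mul_cancel, mul_one, one_mul, inv_one, C]) (by simp only [mul_assoc, mul_inv_rev, inv_inv, mul_inv_cancel_left, inv_mul_cancel_left, mul_inv_cancel, inv_mul_cancel, mul_one, one_mul, inv_one, C])
  have k8 : o.lt (f * Q⁻¹) (x * Q⁻¹) ↔ o.lt (1 * (f * Q⁻¹)) (1 * (x * Q⁻¹)) := o.cv hδ (1) e11 (by simp only [mul_assoc, mul_inv_rev, inv_inv, mul_inv_cancel_left, inv_mul_cancel_left, mul_inv_cancel, inv_mul_cancel, mul_one, one_mul, inv_one, C]) (by simp only [mul_assoc, mul_inv_rev, inv_inv, mul_inv_cancel_left, inv_mul_cancel_left, mul_inv_cancel, inv_mul_cancel, mul_one, one_mul, inv_one, C])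
  have k9 : o.lt (Q * x⁻¹) (x * P⁻¹) ↔ o.lt (1 * (x * Q⁻¹)⁻¹) (1 * (P * x⁻¹)⁻¹) := o.cv hδ (1) e23 (by simp only [mul_assoc, mul_inv_rev, inv_inv, mul_inv_cancel_left, inv_mul_cancel_left, mul_inv_cancel, inv_mul_cancel, mul_one, one_mul, inv_one, C]) (by simp only [mul_assoc, mul_inv_rev, inv_inv, mul_inv_cancel_left, inv_mul_cancel_left, mul_inv_cancel, inv_mul_cancel, mul_one, one_mul, inv_one, C])
  have k10 : o.lt (g * P⁻¹) (x * P⁻¹) ↔ o.lt (1 * (g * P⁻¹)) (1 * (x * P⁻¹)) := o.cv hδ (1) e32 (by simp only [mul_assoc, mul_inv_rev, inv_inv, mul_inv_cancel_left, inv_mul_cancel_left, mul_inv_cancel, inv_mul_cancel, mul_one, one_mul, inv_one, C]) (by simp only [mul_assoc, mul_inv_rev, inv_inv, mul_inv_cancel_left, inv_mul_cancel_left, mul_inv_cancel, inv_mul_cancel, mul_one, one_mul, inv_one, C])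
  have k11 : o.lt (Q * g⁻¹) (x * P⁻¹) ↔ o.lt (1 * (Q * g⁻¹)) (1 * (x * P⁻¹)) := o.cv hδ (1) e33 (by simp only [mul_assoc, mul_inv_rev, inv_inv, mul_inv_cancel_left, inv_mul_cancel_left, mul_inv_cancel, inv_mul_cancel, mul_one, one_mul, inv_one, C]) (by simp only [mul_assoc, mul_inv_rev, inv_inv, mul_inv_cancel_left, inv_mul_cancel_left, mul_inv_cancel, inv_mul_cancel, mul_one, one_mul, inv_one, C])
  have k12 : o.lt (P * x⁻¹) (x * Q⁻¹) ↔ o.lt (1 * (x * P⁻¹)⁻¹) (1 * (Q * x⁻¹)⁻¹) := o.cv hδ (1) e6 (by simp only [mul_assoc, mul_inv_rev, inv_inv, mul_inv_cancel_left, inv_mul_cancel_left, mul_inv_cancel, inv_mul_cancel, mul_one, one_mul, inv_one, C]) (by simp only [mul_assoc, mul_inv_rev, inv_inv, mul_inv_cancel_left, inv_mul_cancel_left, mul_inv_cancel, inv_mul_cancel, mul_one, one_mul, inv_one, C])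
  have k13 : o.lt (Q * x⁻¹) (Q * g⁻¹) ↔ o.lt (1 * (Q * x⁻¹)) (1 * (Q * g⁻¹)) := o.cv hδ (1) e30 (by simp only [mul_assoc, mul_inv_rev, inv_inv, mul_inv_cancel_left, inv_mul_cancel_left, mul_inv_cancel, inv_mul_cancel, mul_one, one_mul, inv_one, C]) (by simp only [mul_assoc, mul_inv_rev, inv_inv, mul_inv_cancel_left, inv_mul_cancel_left, mul_inv_cancel, inv_mul_cancel, mul_one, one_mul, inv_one, C])
  have k14 : o.lt (x * Q⁻¹) (P * x⁻¹) ↔ o.lt (1 * (Q * x⁻¹)⁻¹) (1 * (x * P⁻¹)⁻¹) := o.cv hδ (1) e13 (by simp only [mul_assoc, mul_inv_rev, inv_inv, mul_inv_cancel_left, inv_mul_cancel_left, mul_inv_cancel, inv_mul_cancel, mul_one, one_mul, inv_one, C]) (by simp only [mul_assoc, mul_inv_rev, inv_inv, mul_inv_cancel_left, inv_mul_cancel_left, mul_inv_cancel, inv_mul_cancel, mul_one, one_mul, inv_one, C])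
  have k15 : o.lt (Q * g⁻¹) (Q * x⁻¹) ↔ o.lt (1 * (Q * g⁻¹)) (1 * (Q * x⁻¹)) := o.cv hδ (1) e34 (by simp only [mul_assoc, mul_inv_rev, inv_inv, mul_inv_cancel_left, inv_mul_cancel_left, mul_inv_cancel, inv_mul_cancel, mul_one, one_mul, inv_one, C]) (by simp only [mul_assoc, mul_inv_rev, inv_inv, mul_inv_cancel_left, inv_mul_cancel_left, mul_inv_cancel, inv_mul_cancel, mul_one, one_mul, inv_one, C])
  have k16 : o.lt (x * P⁻¹) (Q * g⁻¹) ↔ o.lt (1 * (x * P⁻¹)) (1 * (Q * g⁻¹)) := o.cv hδ (1) e27 (by simp only [mul_assoc, mul_inv_rev, inv_inv, mul_inv_cancel_left, inv_mul_cancel_left, mul_inv_cancel, inv_mul_cancel, mul_one, one_mul, inv_one, C]) (by simp only [mul_assoc, mul_inv_rev, inv_inv, mul_inv_cancel_left, inv_mul_cancel_left, mul_inv_cancel, inv_mul_cancel, mul_one, one_mul, inv_one, C])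
  have k17 : o.lt (P * g⁻¹) (P * x⁻¹) ↔ o.lt (1 * (P * g⁻¹)) (1 * (P * x⁻¹)) := o.cv hδ (1) e16 (by simp only [mul_assoc, mul_inv_rev, inv_inv, mul_inv_cancel_left, inv_mul_cancel_left, mul_inv_cancel, inv_mul_cancel, mul_one, one_mul, inv_one, C]) (by simp only [mul_assoc, mul_inv_rev, inv_inv, mul_inv_cancel_left, inv_mul_cancel_left, mul_inv_cancel, inv_mul_cancel, mul_one, one_mul, inv_one, C])
  have k18 : o.lt (P * x⁻¹) (g * Q⁻¹) ↔ o.lt (1 * (P * x⁻¹)) (1 * (g * Q⁻¹)) := o.cv hδ (1) e8 (by simp only [mul_assoc, mul_inv_rev, inv_inv, mul_inv_cancel_left, inv_mul_cancel_left, mul_inv_cancel, inv_mul_cancel, mul_one, one_mul, inv_one, C]) (by simp only [mul_assoc, mul_inv_rev, inv_inv, mul_inv_cancel_left, inv_mul_cancel_left, mul_inv_cancel, inv_mul_cancel, mul_one, one_mul, inv_one, C])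
  have k19 : o.lt (g * P⁻¹) (Q * g⁻¹) ↔ o.lt (1 * (P * g⁻¹)⁻¹) (1 * (g * Q⁻¹)⁻¹) := o.cv hδ (1) e17 (by simp only [mul_assoc, mul_inv_rev, inv_inv, mul_inv_cancel_left, inv_mul_cancel_left, mul_inv_cancel, inv_mul_cancel, mul_one, one_mul, inv_one, C]) (by simp only [mul_assoc, mul_inv_rev, inv_inv, mul_inv_cancel_left, inv_mul_cancel_left, mul_inv_cancel, inv_mul_cancel, mul_one, one_mul, inv_one, C])
  have k20 : o.lt (P * x⁻¹) (P * g⁻¹) ↔ o.lt (1 * (P * x⁻¹)) (1 * (P * g⁻¹)) := o.cv hδ (1) e7 (by simp only [mul_assoc, mul_inv_rev, inv_inv, mul_inv_cancel_left, inv_mul_cancel_left, mul_inv_cancel, inv_mul_cancel, mul_one, one_mul, inv_one, C]) (by simp only [mul_assoc, mul_inv_rev, inv_inv, mul_inv_cancel_left, inv_mul_cancel_left, mul_inv_cancel, inv_mul_cancel, mul_one, one_mul, inv_one, C])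
  have k21 : o.lt (g * Q⁻¹) (P * x⁻¹) ↔ o.lt (1 * (g * Q⁻¹)) (1 * (P * x⁻¹)) := o.cv hδ (1) e19 (by simp only [mul_assoc, mul_inv_rev, inv_inv, mul_inv_cancel_left, inv_mul_cancel_left, mul_inv_cancel, inv_mul_cancel, mul_one, one_mul, inv_one, C]) (by simp only [mul_assoc, mul_inv_rev, inv_inv, mul_inv_cancel_left, inv_mul_cancel_left, mul_inv_cancel, inv_mul_cancel, mul_one, one_mul, inv_one, C])
  have k22 : o.lt (Q * g⁻¹) (g * P⁻¹) ↔ o.lt (1 * (g * Q⁻¹)⁻¹) (1 * (P * g⁻¹)⁻¹) := o.cv hδ (1) e24 (by simp only [mul_assoc, mul_inv_rev, inv_inv, mul_inv_cancel_left, inv_mul_cancel_left, mul_inv_cancel, inv_mul_cancel, mul_one, one_mul, inv_one, C]) (by simp only [mul_assoc, mul_inv_rev, inv_inv, mul_inv_cancel_left, inv_mul_cancel_left, mul_inv_cancel, inv_mul_cancel, mul_one, one_mul, inv_one, C])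
  have k23 : o.lt (g * Q⁻¹) (x * Q⁻¹) ↔ o.lt (1 * (g * Q⁻¹)) (1 * (x * Q⁻¹)) := o.cv hδ (1) e20 (by simp only [mul_assoc, mul_inv_rev, inv_inv, mul_inv_cancel_left, inv_mul_cancel_left, mul_inv_cancel, inv_mul_cancel, mul_one, one_mul, inv_one, C]) (by simp only [mul_assoc, mul_inv_rev, inv_inv, mul_inv_cancel_left, inv_mul_cancel_left, mul_inv_cancel, inv_mul_cancel, mul_one, one_mul, inv_one, C])
  have k24 : o.lt (P * f⁻¹) (P * x⁻¹) ↔ o.lt (P * f⁻¹) (P * x⁻¹) := o.cv hδ (1) e0 (by simp only [mul_assoc, mul_inv_rev, inv_inv, mul_inv_cancel_left, inv_mul_cancel_left, mul_inv_cancel, inv_mul_cancel, mul_one, one_mul, inv_one, C]) (by simp only [mul_assoc, mul_inv_rev, inv_inv, mul_inv_cancel_left, inv_mul_cancel_left, mul_inv_cancel, inv_mul_cancel, mul_one, one_mul, inv_one, C])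
  have k25 : o.lt (P * f⁻¹) (x * Q⁻¹) ↔ o.lt (P * f⁻¹) (x * Q⁻¹) := o.cv hδ (1) e2 (by simp only [mul_assoc, mul_inv_rev, inv_inv, mul_inv_cancel_left, inv_mul_cancel_left, mul_inv_cancel, inv_mul_cancel, mul_one, one_mul, inv_one, C]) (by simp only [mul_assoc, mul_inv_rev, inv_inv, mul_inv_cancel_left, inv_mul_cancel_left, mul_inv_cancel, inv_mul_cancel, mul_one, one_mul, inv_one, C])
  have k26 : o.lt (x * Q⁻¹) (P * x⁻¹) ↔ o.lt (x * Q⁻¹) (P * x⁻¹) := o.cv hδ (1) e13 (by simp only [mul_assoc, mul_inv_rev, inv_inv, mul_inv_cancel_left, inv_mul_cancel_left, mul_inv_cancel, inv_mul_cancel, mul_one, one_mul, inv_one, C]) (by simp only [mul_assoc, mul_inv_rev, inv_inv, mul_inv_cancel_left, inv_mul_cancel_left, mul_inv_cancel, inv_mul_cancel, mul_one, one_mul, inv_one, C])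
  have k27 : o.lt (x * Q⁻¹) (P * f⁻¹) ↔ o.lt (x * Q⁻¹) (P * f⁻¹) := o.cv hδ (1) e12 (by simp only [mul_assoc, mul_inv_rev, inv_inv, mul_inv_cancel_left, inv_mul_cancel_left, mul_inv_cancel, inv_mul_cancel, mul_one, one_mul, inv_one, C]) (by simp only [mul_assoc, mul_inv_rev, inv_inv, mul_inv_cancel_left, inv_mul_cancel_left, mul_inv_cancel, inv_mul_cancel, mul_one, one_mul, inv_one, C])
  have k28 : o.lt (P * f⁻¹) (P * g⁻¹) ↔ o.lt (P * f⁻¹) (P * g⁻¹) := o.cv hδ (1) e3 (by simp only [mul_assoc, mul_inv_rev, inv_inv, mul_inv_cancel_left, inv_mul_cancel_left, mul_inv_cancel, inv_mul_cancel, mul_one, one_mul, inv_one, C]) (by simp only [mul_assoc, mul_inv_rev, inv_inv, mul_inv_cancel_left, inv_mul_cancel_left, mul_inv_cancel, inv_mul_cancel, mul_one, one_mul, inv_one, C])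
  have k29 : o.lt (P * g⁻¹) (P * f⁻¹) ↔ o.lt (P * g⁻¹) (P * f⁻¹) := o.cv hδ (1) e15 (by simp only [mul_assoc, mul_inv_rev, inv_inv, mul_inv_cancel_left, inv_mul_cancel_left, mul_inv_cancel, inv_mul_cancel, mul_one, one_mul, inv_one, C]) (by simp only [mul_assoc, mul_inv_rev, inv_inv, mul_inv_cancel_left, inv_mul_cancel_left, mul_inv_cancel, inv_mul_cancel, mul_one, one_mul, inv_one, C])
  have k30 : o.lt (P * f⁻¹) (g * Q⁻¹) ↔ o.lt (P * f⁻¹) (g * Q⁻¹) := o.cv hδ (1) e4 (by simp only [mul_assoc, mul_inv_rev, inv_inv, mul_inv_cancel_left, inv_mul_cancel_left, mul_inv_cancel, inv_mul_cancel, mul_one, one_mul, inv_one, C]) (by simp only [mul_assoc, mul_inv_rev, inv_inv, mul_inv_cancel_left, inv_mul_cancel_left, mul_inv_cancel, inv_mul_cancel, mul_one, one_mul, inv_one, C])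
  have k31 : o.lt (g * Q⁻¹) (P * g⁻¹) ↔ o.lt (g * Q⁻¹) (P * g⁻¹) := o.cv hδ (1) e21 (by simp only [mul_assoc, mul_inv_rev, inv_inv, mul_inv_cancel_left, inv_mul_cancel_left, mul_inv_cancel, inv_mul_cancel, mul_one, one_mul, inv_one, C]) (by simp only [mul_assoc, mul_inv_rev, inv_inv, mul_inv_cancel_left, inv_mul_cancel_left, mul_inv_cancel, inv_mul_cancel, mul_one, one_mul, inv_one, C])
  have k32 : o.lt (P * x⁻¹) (g * Q⁻¹) ↔ o.lt (P * x⁻¹) (g * Q⁻¹) := o.cv hδ (1) e8 (by simp only [mul_assoc, mul_inv_rev, inv_inv, mul_inv_cancel_left, inv_mul_cancel_left, mul_inv_cancel, inv_mul_cancel, mul_one, one_mul, inv_one, C]) (by simp only [mul_assoc, mul_inv_rev, inv_inv, mul_inv_cancel_left, inv_mul_cancel_left, mul_inv_cancel, inv_mul_cancel, mul_one, one_mul, inv_one, C])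
  have k33 : o.lt (P * x⁻¹) (P * f⁻¹) ↔ o.lt (P * x⁻¹) (P * f⁻¹) := o.cv hδ (1) e5 (by simp only [mul_assoc, mul_inv_rev, inv_inv, mul_inv_cancel_left, inv_mul_cancel_left, mul_inv_cancel, inv_mul_cancel, mul_one, one_mul, inv_one, C]) (by simp only [mul_assoc, mul_inv_rev, inv_inv, mul_inv_cancel_left, inv_mul_cancel_left, mul_inv_cancel, inv_mul_cancel, mul_one, one_mul, inv_one, C])
  have k34 : o.lt (P * x⁻¹) (P * g⁻¹) ↔ o.lt (P * x⁻¹) (P * g⁻¹) := o.cv hδ (1) e7 (by simp only [mul_assoc, mul_inv_rev, inv_inv, mul_inv_cancel_left, inv_mul_cancel_left, mul_inv_cancel, inv_mul_cancel, mul_one, one_mul, inv_one, C]) (by simp only [mul_assoc, mul_inv_rev, inv_inv, mul_inv_cancel_left, inv_mul_cancel_left, mul_inv_cancel, inv_mul_cancel, mul_one, one_mul, inv_one, C])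
  have k35 : o.lt (P * x⁻¹) (x * Q⁻¹) ↔ o.lt (P * x⁻¹) (x * Q⁻¹) := o.cv hδ (1) e6 (by simp only [mul_assoc, mul_inv_rev, inv_inv, mul_inv_cancel_left, inv_mul_cancel_left, mul_inv_cancel, inv_mul_cancel, mul_one, one_mul, inv_one, C]) (by simp only [mul_assoc, mul_inv_rev, inv_inv, mul_inv_cancel_left, inv_mul_cancel_left, mul_inv_cancel, inv_mul_cancel, mul_one, one_mul, inv_one, C])
  have k36 : o.lt (P * g⁻¹) (P * x⁻¹) ↔ o.lt (P * g⁻¹) (P * x⁻¹) := o.cv hδ (1) e16 (by simp only [mul_assoc, mul_inv_rev, inv_inv, mul_inv_cancel_left, inv_mul_cancel_left, mul_inv_cancel, inv_mul_cancel, mul_one, one_mul, inv_one, C]) (by simp only [mul_assoc, mul_inv_rev, inv_inv, mul_inv_cancel_left, inv_mul_cancel_left, mul_inv_cancel, inv_mul_cancel, mul_one, one_mul, inv_one, C])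
  have k37 : o.lt (g * Q⁻¹) (P * x⁻¹) ↔ o.lt (g * Q⁻¹) (P * x⁻¹) := o.cv hδ (1) e19 (by simp only [mul_assoc, mul_inv_rev, inv_inv, mul_inv_cancel_left, inv_mul_cancel_left, mul_inv_cancel, inv_mul_cancel, mul_one, one_mul, inv_one, C]) (by simp only [mul_assoc, mul_inv_rev, inv_inv, mul_inv_cancel_left, inv_mul_cancel_left, mul_inv_cancel, inv_mul_cancel, mul_one, one_mul, inv_one, C])
  have k38 : o.lt (x * P⁻¹) (Q * x⁻¹) ↔ o.lt (P * x⁻¹) (Q * P⁻¹) := o.cv hδ (P * (x⁻¹ * (P * x⁻¹))) e9 (by simp only [mul_assoc, mul_inv_rev, inv_inv, mul_inv_cancel_left, inv_mul_cancel_left, mul_inv_cancel, inv_mul_cancel, mul_one, one_mul, inv_one, C]) (by simp only [mul_assoc, mul_inv_rev, inv_inv, mul_inv_cancel_left, inv_mul_cancel_left, mul_inv_cancel, inv_mul_cancel, mul_one, one_mul, inv_one, C])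
  have k39 : o.lt (Q * x⁻¹) (x * P⁻¹) ↔ o.lt (Q * P⁻¹) (P * x⁻¹) := o.cv hδ (x * P⁻¹) e23 (by simp only [mul_assoc, mul_inv_rev, inv_inv, mul_inv_cancel_left, inv_mul_cancel_left, mul_inv_cancel, inv_mul_cancel, mul_one, one_mul, inv_one, C]) (by simp only [mul_assoc, mul_inv_rev, inv_inv, mul_inv_cancel_left, inv_mul_cancel_left, mul_inv_cancel, inv_mul_cancel, mul_one, one_mul, inv_one, C])
  have k40 : o.lt (g * Q⁻¹) (Q * P⁻¹) ↔ o.lt (g * Q⁻¹) (Q * P⁻¹) := o.cv hδ (1) e22 (by simp only [mul_assoc, mul_inv_rev, inv_inv, mul_inv_cancel_left, inv_mul_cancel_left, mul_inv_cancel, inv_mul_cancel, mul_one, one_mul, inv_one, C]) (by simp only [mul_assoc, mul_inv_rev, inv_inv, mul_inv_cancel_left, inv_mul_cancel_left, mul_inv_cancel, inv_mul_cancel, mul_one, one_mul, inv_one, C])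
  have k41 : o.lt (f * Q⁻¹) (x * Q⁻¹) ↔ o.lt (f * Q⁻¹) (x * Q⁻¹) := o.cv hδ (1) e11 (by simp only [mul_assoc, mul_inv_rev, inv_inv, mul_inv_cancel_left, inv_mul_cancel_left, mul_inv_cancel, inv_mul_cancel, mul_one, one_mul, inv_one, C]) (by simp only [mul_assoc, mul_inv_rev, inv_inv, mul_inv_cancel_left, inv_mul_cancel_left, mul_inv_cancel, inv_mul_cancel, mul_one, one_mul, inv_one, C])
  have k42 : o.lt (f * Q⁻¹) (P * f⁻¹) ↔ o.lt (f * Q⁻¹) (P * f⁻¹) := o.cv hδ (1) e10 (by simp only [mul_assoc, mul_inv_rev, inv_inv, mul_inv_cancel_left, inv_mul_cancel_left, mul_inv_cancel, inv_mul_cancel, mul_one, one_mul, inv_one, C]) (by simp only [mul_assoc, mul_inv_rev, inv_inv, mul_inv_cancel_left, inv_mul_cancel_left, mul_inv_cancel, inv_mul_cancel, mul_one, one_mul, inv_one, C])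
  have k43 : o.lt (x * Q⁻¹) (f * Q⁻¹) ↔ o.lt (x * Q⁻¹) (f * Q⁻¹) := o.cv hδ (1) e14 (by simp only [mul_assoc, mul_inv_rev, inv_inv, mul_inv_cancel_left, inv_mul_cancel_left, mul_inv_cancel, inv_mul_cancel, mul_one, one_mul, inv_one, C]) (by simp only [mul_assoc, mul_inv_rev, inv_inv, mul_inv_cancel_left, inv_mul_cancel_left, mul_inv_cancel, inv_mul_cancel, mul_one, one_mul, inv_one, C])
  have k44 : o.lt (P * f⁻¹) (f * Q⁻¹) ↔ o.lt (P * f⁻¹) (f * Q⁻¹) := o.cv hδ (1) e1 (by simp only [mul_assoc, mul_inv_rev, inv_inv, mul_inv_cancel_left, inv_mul_cancel_left, mul_inv_cancel, inv_mul_cancel, mul_one, one_mul, inv_one, C]) (by simp only [mul_assoc, mul_inv_rev, inv_inv, mul_inv_cancel_left, inv_mul_cancel_left, mul_inv_cancel, inv_mul_cancel, mul_one, one_mul, inv_one, C])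
  have k45 : o.lt (g * P⁻¹) (Q * g⁻¹) ↔ o.lt (P * g⁻¹) (Q * P⁻¹) := o.cv hδ (P * (g⁻¹ * (P * g⁻¹))) e17 (by simp only [mul_assoc, mul_inv_rev, inv_inv, mul_inv_cancel_left, inv_mul_cancel_left, mul_inv_cancel, inv_mul_cancel, mul_one, one_mul, inv_one, C]) (by simp only [mul_assoc, mul_inv_rev, inv_inv, mul_inv_cancel_left, inv_mul_cancel_left, mul_inv_cancel, inv_mul_cancel, mul_one, one_mul, inv_one, C])
  have k46 : o.lt (Q * g⁻¹) (g * P⁻¹) ↔ o.lt (Q * P⁻¹) (P * g⁻¹) := o.cv hδ (g * P⁻¹) e24 (by simp only [mul_assoc, mul_inv_rev, inv_inv, mul_inv_cancel_left, inv_mul_cancel_left, mul_inv_cancel, inv_mul_cancel, mul_one, one_mul, inv_one, C]) (by simp only [mul_assoc, mul_inv_rev, inv_inv, mul_inv_cancel_left, inv_mul_cancel_left, mul_inv_cancel, inv_mul_cancel, mul_one, one_mul, inv_one, C])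
  have k47 : o.lt (g * Q⁻¹) (P * f⁻¹) ↔ o.lt (g * Q⁻¹) (P * f⁻¹) := o.cv hδ (1) e18 (by simp only [mul_assoc, mul_inv_rev, inv_inv, mul_inv_cancel_left, inv_mul_cancel_left, mul_inv_cancel, inv_mul_cancel, mul_one, one_mul, inv_one, C]) (by simp only [mul_assoc, mul_inv_rev, inv_inv, mul_inv_cancel_left, inv_mul_cancel_left, mul_inv_cancel, inv_mul_cancel, mul_one, one_mul, inv_one, C])
  have k48 : o.lt (g * Q⁻¹) (x * Q⁻¹) ↔ o.lt (g * Q⁻¹) (x * Q⁻¹) := o.cv hδ (1) e20 (by simp only [mul_assoc, mul_inv_rev, inv_inv, mul_inv_cancel_left, inv_mul_cancel_left, mul_inv_cancel, inv_mul_cancel, mul_one, one_mul, inv_one, C]) (by simp only [mul_assoc, mul_inv_rev, inv_inv, mul_inv_cancel_left, inv_mul_cancel_left, mul_inv_cancel, inv_mul_cancel, mul_one, one_mul, inv_one, C])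
  have k49 : o.lt (x * P⁻¹) (f * P⁻¹) ↔ o.lt (x * P⁻¹) (f * P⁻¹) := o.cv hδ (1) e25 (by simp only [mul_assoc, mul_inv_rev, inv_inv, mul_inv_cancel_left, inv_mul_cancel_left, mul_inv_cancel, inv_mul_cancel, mul_one, one_mul, inv_one, C]) (by simp only [mul_assoc, mul_inv_rev, inv_inv, mul_inv_cancel_left, inv_mul_cancel_left, mul_inv_cancel, inv_mul_cancel, mul_one, one_mul, inv_one, C])
  have k50 : o.lt (x * P⁻¹) (g * P⁻¹) ↔ o.lt (x * P⁻¹) (g * P⁻¹) := o.cv hδ (1) e26 (by simp only [mul_assoc, mul_inv_rev, inv_inv, mul_inv_cancel_left, inv_mul_cancel_left, mul_inv_cancel, inv_mul_cancel, mul_one, one_mul, inv_one, C]) (by simp only [mul_assoc, mul_inv_rev, inv_inv, mul_inv_cancel_left, inv_mul_cancel_left, mul_inv_cancel, inv_mul_cancel, mul_one, one_mul, inv_one, C])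
  have k51 : o.lt (g * P⁻¹) (f * P⁻¹) ↔ o.lt (g * P⁻¹) (f * P⁻¹) := o.cv hδ (1) e31 (by simp only [mul_assoc, mul_inv_rev, inv_inv, mul_inv_cancel_left, inv_mul_cancel_left, mul_inv_cancel, inv_mul_cancel, mul_one, one_mul, inv_one, C]) (by simp only [mul_assoc, mul_inv_rev, inv_inv, mul_inv_cancel_left, inv_mul_cancel_left, mul_inv_cancel, inv_mul_cancel, mul_one, one_mul, inv_one, C])
  have k52 : o.lt (g * P⁻¹) (x * P⁻¹) ↔ o.lt (g * P⁻¹) (x * P⁻¹) := o.cv hδ (1) e32 (by simp only [mul_assoc, mul_inv_rev, inv_inv, mul_inv_cancel_left, inv_mul_cancel_left, mul_inv_cancel, inv_mul_cancel, mul_one, one_mul, inv_one, C]) (by simp only [mul_assoc, mul_inv_rev, inv_inv, mul_inv_cancel_left, inv_mul_cancel_left, mul_inv_cancel, inv_mul_cancel, mul_one, one_mul, inv_one, C])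
  have k53 : o.lt (x * P⁻¹) (P * Q⁻¹) ↔ o.lt (x * P⁻¹) (P * Q⁻¹) := o.cv hδ (1) e28 (by simp only [mul_assoc, mul_inv_rev, inv_inv, mul_inv_cancel_left, inv_mul_cancel_left, mul_inv_cancel, inv_mul_cancel, mul_one, one_mul, inv_one, C]) (by simp only [mul_assoc, mul_inv_rev, inv_inv, mul_inv_cancel_left, inv_mul_cancel_left, mul_inv_cancel, inv_mul_cancel, mul_one, one_mul, inv_one, C])
  have k54 : o.lt (x * P⁻¹) (Q * g⁻¹) ↔ o.lt (x * P⁻¹) (Q * g⁻¹) := o.cv hδ (1) e27 (by simp only [mul_assoc, mul_inv_rev, inv_inv, mul_inv_cancel_left, inv_mul_cancel_left, mul_inv_cancel, inv_mul_cancel, mul_one, one_mul, inv_one, C]) (by simp only [mul_assoc, mul_inv_rev, inv_inv, mul_inv_cancel_left, inv_mul_cancel_left, mul_inv_cancel, inv_mul_cancel, mul_one, one_mul, inv_one, C])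
  have k55 : o.lt (g * Q⁻¹) (P * g⁻¹) ↔ o.lt (Q * g⁻¹) (P * Q⁻¹) := o.cv hδ (Q * (g⁻¹ * (Q * g⁻¹))) e21 (by simp only [mul_assoc, mul_inv_rev, inv_inv, mul_inv_cancel_left, inv_mul_cancel_left, mul_inv_cancel, inv_mul_cancel, mul_one, one_mul, inv_one, C]) (by simp only [mul_assoc, mul_inv_rev, inv_inv, mul_inv_cancel_left, inv_mul_cancel_left, mul_inv_cancel, inv_mul_cancel, mul_one, one_mul, inv_one, C])
  have k56 : o.lt (Q * x⁻¹) (f * P⁻¹) ↔ o.lt (Q * x⁻¹) (f * P⁻¹) := o.cv hδ (1) e29 (by simp only [mul_assoc, mul_inv_rev, inv_inv, mul_inv_cancel_left, inv_mul_cancel_left, mul_inv_cancel, inv_mul_cancel, mul_one, one_mul, inv_one, C]) (by simp only [mul_assoc, mul_inv_rev, inv_inv, mul_inv_cancel_left, inv_mul_cancel_left, mul_inv_cancel, inv_mul_cancel, mul_one, one_mul, inv_one, C])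
  have k57 : o.lt (Q * x⁻¹) (x * P⁻¹) ↔ o.lt (Q * x⁻¹) (x * P⁻¹) := o.cv hδ (1) e23 (by simp only [mul_assoc, mul_inv_rev, inv_inv, mul_inv_cancel_left, inv_mul_cancel_left, mul_inv_cancel, inv_mul_cancel, mul_one, one_mul, inv_one, C]) (by simp only [mul_assoc, mul_inv_rev, inv_inv, mul_inv_cancel_left, inv_mul_cancel_left, mul_inv_cancel, inv_mul_cancel, mul_one, one_mul, inv_one, C])
  have k58 : o.lt (Q * x⁻¹) (Q * g⁻¹) ↔ o.lt (Q * x⁻¹) (Q * g⁻¹) := o.cv hδ (1) e30 (by simp only [mul_assoc, mul_inv_rev, inv_inv, mul_inv_cancel_left, inv_mul_cancel_left, mul_inv_cancel, inv_mul_cancel, mul_one, one_mul, inv_one, C]) (by simp only [mul_assoc, mul_inv_rev, inv_inv, mul_inv_cancel_left, inv_mul_cancel_left, mul_inv_cancel, inv_mul_cancel, mul_one, one_mul, inv_one, C])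
  have k59 : o.lt (Q * g⁻¹) (Q * x⁻¹) ↔ o.lt (Q * g⁻¹) (Q * x⁻¹) := o.cv hδ (1) e34 (by simp only [mul_assoc, mul_inv_rev, inv_inv, mul_inv_cancel_left, inv_mul_cancel_left, mul_inv_cancel, inv_mul_cancel, mul_one, one_mul, inv_one, C]) (by simp only [mul_assoc, mul_inv_rev, inv_inv, mul_inv_cancel_left, inv_mul_cancel_left, mul_inv_cancel, inv_mul_cancel, mul_one, one_mul, inv_one, C])
  have k60 : o.lt (x * Q⁻¹) (P * x⁻¹) ↔ o.lt (Q * x⁻¹) (P * Q⁻¹) := o.cv hδ (Q * (x⁻¹ * (Q * x⁻¹))) e13 (by simp only [mul_assoc, mul_inv_rev, inv_inv, mul_inv_cancel_left, inv_mul_cancel_left, mul_inv_cancel, inv_mul_cancel, mul_one, one_mul, inv_one, C]) (by simp only [mul_assoc, mul_inv_rev, inv_inv, mul_inv_cancel_left, inv_mul_cancel_left, mul_inv_cancel, inv_mul_cancel, mul_one, one_mul, inv_one, C])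
  have k61 : o.lt (Q * g⁻¹) (x * P⁻¹) ↔ o.lt (Q * g⁻¹) (x * P⁻¹) := o.cv hδ (1) e33 (by simp only [mul_assoc, mul_inv_rev, inv_inv, mul_inv_cancel_left, inv_mul_cancel_left, mul_inv_cancel, inv_mul_cancel, mul_one, one_mul, inv_one, C]) (by simp only [mul_assoc, mul_inv_rev, inv_inv, mul_inv_cancel_left, inv_mul_cancel_left, mul_inv_cancel, inv_mul_cancel, mul_one, one_mul, inv_one, C])
  have k62 : o.lt (P * x⁻¹) (x * Q⁻¹) ↔ o.lt (P * Q⁻¹) (Q * x⁻¹) := o.cv hδ (x * Q⁻¹) e6 (by simp only [mul_assoc, mul_inv_rev, inv_inv, mul_inv_cancel_left, inv_mul_cancel_left, mul_inv_cancel, inv_mul_cancel, mul_one, one_mul, inv_one, C]) (by simp only [mul_assoc, mul_inv_rev, inv_inv, mul_inv_cancel_left, inv_mul_cancel_left, mul_inv_cancel, inv_mul_cancel, mul_one, one_mul, inv_one, C])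
  have k63 : o.lt (g * P⁻¹) (f * P⁻¹) ↔ o.lt (g) (f) := o.cv hδ (P) e31 (by simp only [mul_assoc, mul_inv_rev, inv_inv, mul_inv_cancel_left, inv_mul_cancel_left, mul_inv_cancel, inv_mul_cancel, mul_one, one_mul, inv_one, C]) (by simp only [mul_assoc, mul_inv_rev, inv_inv, mul_inv_cancel_left, inv_mul_cancel_left, mul_inv_cancel, inv_mul_cancel, mul_one, one_mul, inv_one, C])
  exact par_AAB_0_prop
    (fun b0 b1 b2 => N0.rd.r1 1 (fun h => b0 (k0.2 h)) (fun h => b1 (k1.2 h)) (k2.1 b2))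
    (fun b0 b1 b2 => N0.i.r0 1 (fun h => b0 (k3.2 h)) (k4.1 b1) (fun h => b2 (k5.2 h)))
    (fun b0 b1 b2 => N0.i.r1 1 (fun h => b0 (k6.2 h)) (fun h => b1 (k7.2 h)) (k5.1 b2))
    (fun b0 b1 b2 => N0.d.r1 1 (fun h => b0 (k8.2 h)) (fun h => b1 (k4.2 h)) (k9.1 b2))
    (fun b0 b1 b2 => N1.rd.r1 1 (fun h => b0 (k10.2 h)) (fun h => b1 (k11.2 h)) (k12.1 b2))
    (fun b0 b1 b2 => N1.r.r0 1 (fun h => b0 (k13.2 h)) (k11.1 b1) (fun h => b2 (k14.2 h)))
    (fun b0 b1 b2 => N1.rd.r0 1 (fun h => b0 (k15.2 h)) (k16.1 b1) (fun h => b2 (k12.2 h)))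
    (fun b0 b1 b2 => N1.i.r0 1 (fun h => b0 (k17.2 h)) (k18.1 b1) (fun h => b2 (k19.2 h)))
    (fun b0 b1 b2 => N1.d.r0 1 (fun h => b0 (k20.2 h)) (k21.1 b1) (fun h => b2 (k22.2 h)))
    (fun b0 b1 b2 => N1.i.r1 1 (fun h => b0 (k23.2 h)) (fun h => b1 (k21.2 h)) (k19.1 b2))
    (fun b0 b1 b2 => o.tri (k24.1 b0) (fun h => b1 (k25.2 h)) (fun h => b2 (k26.2 h)))
    (fun b0 b1 => o.asym (k25.1 b0) (k27.1 b1))
    (fun b0 b1 => o.asym (k28.1 b0) (k29.1 b1))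
    (fun b0 b1 b2 => o.tri (k28.1 b0) (fun h => b1 (k30.2 h)) (fun h => b2 (k31.2 h)))
    (fun b0 b1 b2 => o.tri (k30.1 b0) (fun h => b1 (k24.2 h)) (fun h => b2 (k32.2 h)))
    (fun b0 b1 b2 => o.tri (k33.1 b0) (fun h => b1 (k34.2 h)) (fun h => b2 (k29.2 h)))
    (fun b0 b1 => o.asym (k35.1 b0) (k26.1 b1))
    (fun b0 b1 => o.asym (k34.1 b0) (k36.1 b1))
    (fun b0 b1 b2 => o.tri (k34.1 b0) (fun h => b1 (k32.2 h)) (fun h => b2 (k31.2 h)))
    (fun b0 b1 => o.asym (k32.1 b0) (k37.1 b1))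
    (fun b0 b1 => o.asym (k38.1 b0) (k39.1 b1))
    (fun b0 b1 b2 => o.tri (k38.1 b0) (fun h => b1 (k32.2 h)) (fun h => b2 (k40.2 h)))
    (fun b0 b1 b2 => o.tri (k41.1 b0) (fun h => b1 (k42.2 h)) (fun h => b2 (k25.2 h)))
    (fun b0 b1 b2 => o.tri (k43.1 b0) (fun h => b1 (k27.2 h)) (fun h => b2 (k44.2 h)))
    (fun b0 b1 b2 => o.tri (k36.1 b0) (fun h => b1 (k45.2 h)) (fun h => b2 (k39.2 h)))
    (fun b0 b1 => o.asym (k45.1 b0) (k46.1 b1))
    (fun b0 b1 b2 => o.tri (k45.1 b0) (fun h => b1 (k36.2 h)) (fun h => b2 (k38.2 h)))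
    (fun b0 b1 b2 => o.tri (k47.1 b0) (fun h => b1 (k31.2 h)) (fun h => b2 (k29.2 h)))
    (fun b0 b1 b2 => o.tri (k48.1 b0) (fun h => b1 (k47.2 h)) (fun h => b2 (k25.2 h)))
    (fun b0 b1 b2 => o.tri (k48.1 b0) (fun h => b1 (k37.2 h)) (fun h => b2 (k35.2 h)))
    (fun b0 b1 b2 => o.tri (k40.1 b0) (fun h => b1 (k31.2 h)) (fun h => b2 (k45.2 h)))
    (fun b0 b1 b2 => o.tri (k49.1 b0) (fun h => b1 (k50.2 h)) (fun h => b2 (k51.2 h)))
    (fun b0 b1 => o.asym (k50.1 b0) (k52.1 b1))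
    (fun b0 b1 b2 => o.tri (k53.1 b0) (fun h => b1 (k54.2 h)) (fun h => b2 (k55.2 h)))
    (fun b0 b1 b2 => o.tri (k56.1 b0) (fun h => b1 (k57.2 h)) (fun h => b2 (k49.2 h)))
    (fun b0 b1 => o.asym (k58.1 b0) (k59.1 b1))
    (fun b0 b1 b2 => o.tri (k60.1 b0) (fun h => b1 (k57.2 h)) (fun h => b2 (k53.2 h)))
    (fun b0 b1 b2 => o.tri (k61.1 b0) (fun h => b1 (k59.2 h)) (fun h => b2 (k57.2 h)))
    (fun b0 b1 b2 => o.tri (k59.1 b0) (fun h => b1 (k55.2 h)) (fun h => b2 (k62.2 h)))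
    (fun h => g0 (k42.1 h))
    (fun h => g1 (k31.1 h))
    (k28.2 g2)
    (fun h => g3 (k63.1 h))

theorem par_AAB_1_prop {A1 A2 A3 A4 A5 A6 A7 A8 A9 A10 A11 A12 A13 A14 A15 A16 A17 A18 A19 A20 A21 A22 A23 A24 A25 A26 A27 A28 A29 A30 A31 A32 : Prop}
    (c0 : ¬ A20 → ¬ A25 → A1 → False)
    (c1 : ¬ A22 → A25 → ¬ A8 → False)
    (c2 : ¬ A26 → A19 → ¬ A1 → False)
    (c3 : ¬ A28 → ¬ A30 → A5 → False)
    (c4 : ¬ A6 → A13 → ¬ A17 → False)
    (c5 : ¬ A14 → ¬ A13 → A11 → False)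
    (c6 : A3 → A12 → False)
    (c7 : A3 → ¬ A2 → ¬ A10 → False)
    (c8 : A4 → ¬ A2 → ¬ A11 → False)
    (c9 : A5 → A9 → False)
    (c10 : A6 → ¬ A7 → ¬ A15 → False)
    (c11 : A7 → A13 → False)
    (c12 : A14 → ¬ A13 → ¬ A5 → False)
    (c13 : A15 → ¬ A12 → ¬ A2 → False)
    (c14 : A17 → ¬ A16 → ¬ A2 → False)
    (c15 : A18 → A20 → False)
    (c16 : A19 → A25 → False)
    (c17 : A20 → ¬ A21 → ¬ A27 → False)
    (c18 : A21 → A28 → False)
    (c19 : A16 → ¬ A23 → ¬ A27 → False)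
    (c20 : A22 → A26 → False)
    (c21 : A22 → ¬ A16 → ¬ A19 → False)
    (c22 : A24 → ¬ A23 → ¬ A11 → False)
    (c23 : A8 → ¬ A22 → ¬ A9 → False)
    (c24 : A8 → ¬ A24 → ¬ A15 → False)
    (c25 : A29 → ¬ A17 → ¬ A27 → False)
    (c26 : A30 → ¬ A29 → ¬ A18 → False)
    (c27 : A31 → ¬ A5 → ¬ A25 → False)
    (c28 : A1 → ¬ A31 → ¬ A4 → False)
    (c29 : A5 → ¬ A1 → ¬ A22 → False)
    (c30 : A32 → ¬ A1 → ¬ A23 → False)
    (c31 : A10 → ¬ A32 → ¬ A11 → False)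
    (u0 : ¬ A2)
    (u1 : A3)
    (u2 : ¬ A23)
    (u3 : ¬ A27)
    : False := by
  have q1 : ¬ A12 := fun h => c6 u1 h
  have q2 : A10 := Classical.byContradiction fun h => c7 u1 u0 h
  have q3 : ¬ A15 := fun h => c13 h q1 u0
  have q4 : ¬ A16 := fun h => c19 h u2 u3
  have q5 : ¬ A17 := fun h => c14 h q4 u0
  have q6 : ¬ A29 := fun h => c25 h q5 u3
  rcases Classical.em A11 with q7 | q7
  · rcases Classical.em A13 with q8 | q8
    · have q9 : A6 := Classical.byContradiction fun h => c4 h q8 q5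
      have q10 : A7 := Classical.byContradiction fun h => c10 q9 h q3
      exact c11 q10 q8
    · have q11 : A14 := Classical.byContradiction fun h => c5 h q8 q7
      have q12 : A5 := Classical.byContradiction fun h => c12 q11 q8 h
      have q13 : ¬ A9 := fun h => c9 q12 h
      rcases Classical.em A22 with q14 | q14
      · have q15 : ¬ A26 := fun h => c20 q14 h
        have q16 : A19 := Classical.byContradiction fun h => c21 q14 q4 h
        have q17 : A1 := Classical.byContradiction fun h => c2 q15 q16 h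
        have q18 : ¬ A25 := fun h => c16 q16 h
        have q19 : A20 := Classical.byContradiction fun h => c0 h q18 q17
        have q20 : ¬ A18 := fun h => c15 h q19
        have q21 : A21 := Classical.byContradiction fun h => c17 q19 h u3
        have q22 : ¬ A28 := fun h => c18 q21 h
        have q23 : A30 := Classical.byContradiction fun h => c3 q22 h q12
        exact c26 q23 q6 q20
      · have q24 : ¬ A8 := fun h => c23 h q14 q13
        have q25 : ¬ A25 := fun h => c1 q14 h q24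
        have q26 : A1 := Classical.byContradiction fun h => c29 q12 h q14
        have q27 : A20 := Classical.byContradiction fun h => c0 h q25 q26
        have q28 : ¬ A18 := fun h => c15 h q27
        have q29 : A21 := Classical.byContradiction fun h => c17 q27 h u3
        have q30 : ¬ A28 := fun h => c18 q29 h
        have q31 : A30 := Classical.byContradiction fun h => c3 q30 h q12
        exact c26 q31 q6 q28
  · have q32 : ¬ A4 := fun h => c8 h u0 q7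
    have q33 : ¬ A24 := fun h => c22 h u2 q7
    have q34 : ¬ A8 := fun h => c24 h q33 q3
    have q35 : A32 := Classical.byContradiction fun h => c31 q2 h q7
    have q36 : A1 := Classical.byContradiction fun h => c30 q35 h u2
    have q37 : A31 := Classical.byContradiction fun h => c28 q36 h q32
    rcases Classical.em A25 with q38 | q38
    · have q39 : A22 := Classical.byContradiction fun h => c1 h q38 q34
      have q40 : ¬ A19 := fun h => c16 h q38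
      exact c21 q39 q4 q40
    · have q41 : A20 := Classical.byContradiction fun h => c0 h q38 q36
      have q42 : ¬ A18 := fun h => c15 h q41
      have q43 : A21 := Classical.byContradiction fun h => c17 q41 h u3
      have q44 : ¬ A28 := fun h => c18 q43 h
      have q45 : ¬ A30 := fun h => c26 h q6 q42
      have q46 : ¬ A5 := fun h => c3 q44 q45 h
      exact c27 q37 q46 q38

theorem par_AAB_1 {G : Type*} [Group G] {δ : G → ZMod 3} (hδ : ∀ u v, δ (u * v) = δ u + δ v) (o : Pre δ)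
    {P Q f x g : G} {e : ZMod 3} (h3 : 3 * e = 0)
    (D : δ P = e ∧ δ Q = -e ∧ δ f = 0 ∧ δ x = 0 ∧ δ g = 0)
    (C : Cube P f ∧ Cube P x ∧ Cube P g ∧ Cube Q f ∧ Cube Q x ∧ Cube Q g)
    (N0 : RA o P Q f x)
    (N1 : RA o P Q x g)
    (g0 : ¬ o.lt (P * f⁻¹) (P * g⁻¹)) (g1 : o.lt (P * f⁻¹) (g * Q⁻¹)) (g2 : ¬ o.lt ((f * Q⁻¹)⁻¹) ((P * g⁻¹)⁻¹)) (g3 : ¬ o.lt (g) (f)) : False := by
  simp only [Cube] at C
  have e0 : δ (P * f⁻¹) = δ (f * Q⁻¹) := by simp only [hδ, δinv hδ, δone hδ, D] <;> linear_combination (0) * h3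
  have e1 : δ (P * f⁻¹) = δ (P * g⁻¹) := by simp only [hδ, δinv hδ, δone hδ, D] <;> linear_combination (0) * h3
  have e2 : δ (P * f⁻¹) = δ (g * Q⁻¹) := by simp only [hδ, δinv hδ, δone hδ, D] <;> linear_combination (0) * h3
  have e3 : δ (P * f⁻¹) = δ (Q * P⁻¹) := by simp only [hδ, δinv hδ, δone hδ, D] <;> linear_combination (1) * h3
  have e4 : δ (P * x⁻¹) = δ (x * Q⁻¹) := by simp only [hδ, δinv hδ, δone hδ, D] <;> linear_combination (0) * h3
  have e5 : δ (P * x⁻¹) = δ (P * g⁻¹) := by simp only [hδ, δinv hδ, δone hδ, D] <;> linear_combination (0) * h3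
  have e6 : δ (P * x⁻¹) = δ (g * Q⁻¹) := by simp only [hδ, δinv hδ, δone hδ, D] <;> linear_combination (0) * h3
  have e7 : δ (f * Q⁻¹) = δ (P * f⁻¹) := by simp only [hδ, δinv hδ, δone hδ, D] <;> linear_combination (0) * h3
  have e8 : δ (x * Q⁻¹) = δ (P * x⁻¹) := by simp only [hδ, δinv hδ, δone hδ, D] <;> linear_combination (0) * h3
  have e9 : δ (P * g⁻¹) = δ (g * Q⁻¹) := by simp only [hδ, δinv hδ, δone hδ, D] <;> linear_combination (0) * h3
  have e10 : δ (g * P⁻¹) = δ (Q * g⁻¹) := by simp only [hδ, δinv hδ, δone hδ, D] <;> linear_combination (0) * h3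
  have e11 : δ (g * Q⁻¹) = δ (P * f⁻¹) := by simp only [hδ, δinv hδ, δone hδ, D] <;> linear_combination (0) * h3
  have e12 : δ (g * Q⁻¹) = δ (P * x⁻¹) := by simp only [hδ, δinv hδ, δone hδ, D] <;> linear_combination (0) * h3
  have e13 : δ (g * Q⁻¹) = δ (x * Q⁻¹) := by simp only [hδ, δinv hδ, δone hδ, D] <;> linear_combination (0) * h3
  have e14 : δ (g * Q⁻¹) = δ (P * g⁻¹) := by simp only [hδ, δinv hδ, δone hδ, D] <;> linear_combination (0) * h3
  have e15 : δ (Q * P⁻¹) = δ (P * f⁻¹) := by simp only [hδ, δinv hδ, δone hδ, D] <;> linear_combination (-1) * h3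
  have e16 : δ (Q * g⁻¹) = δ (g * P⁻¹) := by simp only [hδ, δinv hδ, δone hδ, D] <;> linear_combination (0) * h3
  have e17 : δ (f * P⁻¹) = δ (x * P⁻¹) := by simp only [hδ, δinv hδ, δone hδ, D] <;> linear_combination (0) * h3
  have e18 : δ (f * P⁻¹) = δ (Q * x⁻¹) := by simp only [hδ, δinv hδ, δone hδ, D] <;> linear_combination (0) * h3
  have e19 : δ (x * P⁻¹) = δ (f * P⁻¹) := by simp only [hδ, δinv hδ, δone hδ, D] <;> linear_combination (0) * h3
  have e20 : δ (x * P⁻¹) = δ (g * P⁻¹) := by simp only [hδ, δinv hδ, δone hδ, D] <;> linear_combination (0) * h3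
  have e21 : δ (Q * f⁻¹) = δ (Q * x⁻¹) := by simp only [hδ, δinv hδ, δone hδ, D] <;> linear_combination (0) * h3
  have e22 : δ (Q * f⁻¹) = δ (g * P⁻¹) := by simp only [hδ, δinv hδ, δone hδ, D] <;> linear_combination (0) * h3
  have e23 : δ (Q * f⁻¹) = δ (Q * g⁻¹) := by simp only [hδ, δinv hδ, δone hδ, D] <;> linear_combination (0) * h3
  have e24 : δ (Q * x⁻¹) = δ (f * P⁻¹) := by simp only [hδ, δinv hδ, δone hδ, D] <;> linear_combination (0) * h3
  have e25 : δ (Q * x⁻¹) = δ (Q * f⁻¹) := by simp only [hδ, δinv hδ, δone hδ, D] <;> linear_combination (0) * h3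
  have e26 : δ (g * P⁻¹) = δ (f * P⁻¹) := by simp only [hδ, δinv hδ, δone hδ, D] <;> linear_combination (0) * h3
  have e27 : δ (g * P⁻¹) = δ (x * P⁻¹) := by simp only [hδ, δinv hδ, δone hδ, D] <;> linear_combination (0) * h3
  have e28 : δ (Q * g⁻¹) = δ (f * P⁻¹) := by simp only [hδ, δinv hδ, δone hδ, D] <;> linear_combination (0) * h3
  have e29 : δ (Q * g⁻¹) = δ (x * P⁻¹) := by simp only [hδ, δinv hδ, δone hδ, D] <;> linear_combination (0) * h3
  have e30 : δ (P * Q⁻¹) = δ (f * P⁻¹) := by simp only [hδ, δinv hδ, δone hδ, D] <;> linear_combination (1) * h3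
  have e31 : δ (P * Q⁻¹) = δ (g * P⁻¹) := by simp only [hδ, δinv hδ, δone hδ, D] <;> linear_combination (1) * h3
  have k0 : o.lt (x * P⁻¹) (f * P⁻¹) ↔ o.lt (1 * (x * P⁻¹)) (1 * (f * P⁻¹)) := o.cv hδ (1) e19 (by simp only [mul_assoc, mul_inv_rev, inv_inv, mul_inv_cancel_left, inv_mul_cancel_left, mul_inv_cancel, inv_mul_cancel, mul_one, one_mul, inv_one, C]) (by simp only [mul_assoc, mul_inv_rev, inv_inv, mul_inv_cancel_left, inv_mul_cancel_left, mul_inv_cancel, inv_mul_cancel, mul_one, one_mul, inv_one, C])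
  have k1 : o.lt (Q * x⁻¹) (f * P⁻¹) ↔ o.lt (1 * (Q * x⁻¹)) (1 * (f * P⁻¹)) := o.cv hδ (1) e24 (by simp only [mul_assoc, mul_inv_rev, inv_inv, mul_inv_cancel_left, inv_mul_cancel_left, mul_inv_cancel, inv_mul_cancel, mul_one, one_mul, inv_one, C]) (by simp only [mul_assoc, mul_inv_rev, inv_inv, mul_inv_cancel_left, inv_mul_cancel_left, mul_inv_cancel, inv_mul_cancel, mul_one, one_mul, inv_one, C])
  have k2 : o.lt (P * f⁻¹) (f * Q⁻¹) ↔ o.lt (1 * (f * P⁻¹)⁻¹) (1 * (Q * f⁻¹)⁻¹) := o.cv hδ (1) e0 (by simp only [mul_assoc, mul_inv_rev, inv_inv, mul_inv_cancel_left, inv_mul_cancel_left, mul_inv_cancel, inv_mul_cancel, mul_one, one_mul, inv_one, C]) (by simp only [mul_assoc, mul_inv_rev, inv_inv, mul_inv_cancel_left, inv_mul_cancel_left, mul_inv_cancel, inv_mul_cancel, mul_one, one_mul, inv_one, C])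
  have k3 : o.lt (Q * f⁻¹) (Q * x⁻¹) ↔ o.lt (1 * (Q * f⁻¹)) (1 * (Q * x⁻¹)) := o.cv hδ (1) e21 (by simp only [mul_assoc, mul_inv_rev, inv_inv, mul_inv_cancel_left, inv_mul_cancel_left, mul_inv_cancel, inv_mul_cancel, mul_one, one_mul, inv_one, C]) (by simp only [mul_assoc, mul_inv_rev, inv_inv, mul_inv_cancel_left, inv_mul_cancel_left, mul_inv_cancel, inv_mul_cancel, mul_one, one_mul, inv_one, C])
  have k4 : o.lt (f * Q⁻¹) (P * f⁻¹) ↔ o.lt (1 * (Q * f⁻¹)⁻¹) (1 * (f * P⁻¹)⁻¹) := o.cv hδ (1) e7 (by simp only [mul_assoc, mul_inv_rev, inv_inv, mul_inv_cancel_left, inv_mul_cancel_left, mul_inv_cancel, inv_mul_cancel, mul_one, one_mul, inv_one, C]) (by simp only [mul_assoc, mul_inv_rev, inv_inv, mul_inv_cancel_left, inv_mul_cancel_left, mul_inv_cancel, inv_mul_cancel, mul_one, one_mul, inv_one, C])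
  have k5 : o.lt (Q * x⁻¹) (Q * f⁻¹) ↔ o.lt (1 * (Q * x⁻¹)) (1 * (Q * f⁻¹)) := o.cv hδ (1) e25 (by simp only [mul_assoc, mul_inv_rev, inv_inv, mul_inv_cancel_left, inv_mul_cancel_left, mul_inv_cancel, inv_mul_cancel, mul_one, one_mul, inv_one, C]) (by simp only [mul_assoc, mul_inv_rev, inv_inv, mul_inv_cancel_left, inv_mul_cancel_left, mul_inv_cancel, inv_mul_cancel, mul_one, one_mul, inv_one, C])
  have k6 : o.lt (f * P⁻¹) (Q * x⁻¹) ↔ o.lt (1 * (f * P⁻¹)) (1 * (Q * x⁻¹)) := o.cv hδ (1) e18 (by simp only [mul_assoc, mul_inv_rev, inv_inv, mul_inv_cancel_left, inv_mul_cancel_left, mul_inv_cancel, inv_mul_cancel, mul_one, one_mul, inv_one, C]) (by simp only [mul_assoc, mul_inv_rev, inv_inv, mul_inv_cancel_left, inv_mul_cancel_left, mul_inv_cancel, inv_mul_cancel, mul_one, one_mul, inv_one, C])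
  have k7 : o.lt (g * P⁻¹) (x * P⁻¹) ↔ o.lt (1 * (g * P⁻¹)) (1 * (x * P⁻¹)) := o.cv hδ (1) e27 (by simp only [mul_assoc, mul_inv_rev, inv_inv, mul_inv_cancel_left, inv_mul_cancel_left, mul_inv_cancel, inv_mul_cancel, mul_one, one_mul, inv_one, C]) (by simp only [mul_assoc, mul_inv_rev, inv_inv, mul_inv_cancel_left, inv_mul_cancel_left, mul_inv_cancel, inv_mul_cancel, mul_one, one_mul, inv_one, C])
  have k8 : o.lt (Q * g⁻¹) (x * P⁻¹) ↔ o.lt (1 * (Q * g⁻¹)) (1 * (x * P⁻¹)) := o.cv hδ (1) e29 (by simp only [mul_assoc, mul_inv_rev, inv_inv, mul_inv_cancel_left, inv_mul_cancel_left, mul_inv_cancel, inv_mul_cancel, mul_one, one_mul, inv_one, C]) (by simp only [mul_assoc, mul_inv_rev, inv_inv, mul_inv_cancel_left, inv_mul_cancel_left, mul_inv_cancel, inv_mul_cancel, mul_one, one_mul, inv_one, C])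
  have k9 : o.lt (P * x⁻¹) (x * Q⁻¹) ↔ o.lt (1 * (x * P⁻¹)⁻¹) (1 * (Q * x⁻¹)⁻¹) := o.cv hδ (1) e4 (by simp only [mul_assoc, mul_inv_rev, inv_inv, mul_inv_cancel_left, inv_mul_cancel_left, mul_inv_cancel, inv_mul_cancel, mul_one, one_mul, inv_one, C]) (by simp only [mul_assoc, mul_inv_rev, inv_inv, mul_inv_cancel_left, inv_mul_cancel_left, mul_inv_cancel, inv_mul_cancel, mul_one, one_mul, inv_one, C])
  have k10 : o.lt (P * x⁻¹) (P * g⁻¹) ↔ o.lt (1 * (P * x⁻¹)) (1 * (P * g⁻¹)) := o.cv hδ (1) e5 (by simp only [mul_assoc, mul_inv_rev, inv_inv, mul_inv_cancel_left, inv_mul_cancel_left, mul_inv_cancel, inv_mul_cancel, mul_one, one_mul, inv_one, C]) (by simp only [mul_assoc, mul_inv_rev, inv_inv, mul_inv_cancel_left, inv_mul_cancel_left, mul_inv_cancel, inv_mul_cancel, mul_one, one_mul, inv_one, C])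
  have k11 : o.lt (g * Q⁻¹) (P * x⁻¹) ↔ o.lt (1 * (g * Q⁻¹)) (1 * (P * x⁻¹)) := o.cv hδ (1) e12 (by simp only [mul_assoc, mul_inv_rev, inv_inv, mul_inv_cancel_left, inv_mul_cancel_left, mul_inv_cancel, inv_mul_cancel, mul_one, one_mul, inv_one, C]) (by simp only [mul_assoc, mul_inv_rev, inv_inv, mul_inv_cancel_left, inv_mul_cancel_left, mul_inv_cancel, inv_mul_cancel, mul_one, one_mul, inv_one, C])
  have k12 : o.lt (Q * g⁻¹) (g * P⁻¹) ↔ o.lt (1 * (g * Q⁻¹)⁻¹) (1 * (P * g⁻¹)⁻¹) := o.cv hδ (1) e16 (by simp only [mul_assoc, mul_inv_rev, inv_inv, mul_inv_cancel_left, inv_mul_cancel_left, mul_inv_cancel, inv_mul_cancel, mul_one, one_mul, inv_one, C]) (by simp only [mul_assoc, mul_inv_rev, inv_inv, mul_inv_cancel_left, inv_mul_cancel_left, mul_inv_cancel, inv_mul_cancel, mul_one, one_mul, inv_one, C])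
  have k13 : o.lt (g * Q⁻¹) (x * Q⁻¹) ↔ o.lt (1 * (g * Q⁻¹)) (1 * (x * Q⁻¹)) := o.cv hδ (1) e13 (by simp only [mul_assoc, mul_inv_rev, inv_inv, mul_inv_cancel_left, inv_mul_cancel_left, mul_inv_cancel, inv_mul_cancel, mul_one, one_mul, inv_one, C]) (by simp only [mul_assoc, mul_inv_rev, inv_inv, mul_inv_cancel_left, inv_mul_cancel_left, mul_inv_cancel, inv_mul_cancel, mul_one, one_mul, inv_one, C])
  have k14 : o.lt (g * P⁻¹) (Q * g⁻¹) ↔ o.lt (1 * (P * g⁻¹)⁻¹) (1 * (g * Q⁻¹)⁻¹) := o.cv hδ (1) e10 (by simp only [mul_assoc, mul_inv_rev, inv_inv, mul_inv_cancel_left, inv_mul_cancel_left, mul_inv_cancel, inv_mul_cancel, mul_one, one_mul, inv_one, C]) (by simp only [mul_assoc, mul_inv_rev, inv_inv, mul_inv_cancel_left, inv_mul_cancel_left, mul_inv_cancel, inv_mul_cancel, mul_one, one_mul, inv_one, C])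
  have k15 : o.lt (P * f⁻¹) (g * Q⁻¹) ↔ o.lt (P * f⁻¹) (g * Q⁻¹) := o.cv hδ (1) e2 (by simp only [mul_assoc, mul_inv_rev, inv_inv, mul_inv_cancel_left, inv_mul_cancel_left, mul_inv_cancel, inv_mul_cancel, mul_one, one_mul, inv_one, C]) (by simp only [mul_assoc, mul_inv_rev, inv_inv, mul_inv_cancel_left, inv_mul_cancel_left, mul_inv_cancel, inv_mul_cancel, mul_one, one_mul, inv_one, C])
  have k16 : o.lt (g * Q⁻¹) (P * f⁻¹) ↔ o.lt (g * Q⁻¹) (P * f⁻¹) := o.cv hδ (1) e11 (by simp only [mul_assoc, mul_inv_rev, inv_inv, mul_inv_cancel_left, inv_mul_cancel_left, mul_inv_cancel, inv_mul_cancel, mul_one, one_mul, inv_one, C]) (by simp only [mul_assoc, mul_inv_rev, inv_inv, mul_inv_cancel_left, inv_mul_cancel_left, mul_inv_cancel, inv_mul_cancel, mul_one, one_mul, inv_one, C])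
  have k17 : o.lt (P * f⁻¹) (P * g⁻¹) ↔ o.lt (P * f⁻¹) (P * g⁻¹) := o.cv hδ (1) e1 (by simp only [mul_assoc, mul_inv_rev, inv_inv, mul_inv_cancel_left, inv_mul_cancel_left, mul_inv_cancel, inv_mul_cancel, mul_one, one_mul, inv_one, C]) (by simp only [mul_assoc, mul_inv_rev, inv_inv, mul_inv_cancel_left, inv_mul_cancel_left, mul_inv_cancel, inv_mul_cancel, mul_one, one_mul, inv_one, C])
  have k18 : o.lt (P * g⁻¹) (g * Q⁻¹) ↔ o.lt (P * g⁻¹) (g * Q⁻¹) := o.cv hδ (1) e9 (by simp only [mul_assoc, mul_inv_rev, inv_inv, mul_inv_cancel_left, inv_mul_cancel_left, mul_inv_cancel, inv_mul_cancel, mul_one, one_mul, inv_one, C]) (by simp only [mul_assoc, mul_inv_rev, inv_inv, mul_inv_cancel_left, inv_mul_cancel_left, mul_inv_cancel, inv_mul_cancel, mul_one, one_mul, inv_one, C])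
  have k19 : o.lt (P * f⁻¹) (Q * P⁻¹) ↔ o.lt (P * f⁻¹) (Q * P⁻¹) := o.cv hδ (1) e3 (by simp only [mul_assoc, mul_inv_rev, inv_inv, mul_inv_cancel_left, inv_mul_cancel_left, mul_inv_cancel, inv_mul_cancel, mul_one, one_mul, inv_one, C]) (by simp only [mul_assoc, mul_inv_rev, inv_inv, mul_inv_cancel_left, inv_mul_cancel_left, mul_inv_cancel, inv_mul_cancel, mul_one, one_mul, inv_one, C])
  have k20 : o.lt (g * P⁻¹) (Q * g⁻¹) ↔ o.lt (P * g⁻¹) (Q * P⁻¹) := o.cv hδ (P * (g⁻¹ * (P * g⁻¹))) e10 (by simp only [mul_assoc, mul_inv_rev, inv_inv, mul_inv_cancel_left, inv_mul_cancel_left, mul_inv_cancel, inv_mul_cancel, mul_one, one_mul, inv_one, C]) (by simp only [mul_assoc, mul_inv_rev, inv_inv, mul_inv_cancel_left, inv_mul_cancel_left, mul_inv_cancel, inv_mul_cancel, mul_one, one_mul, inv_one, C])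
  have k21 : o.lt (P * x⁻¹) (x * Q⁻¹) ↔ o.lt (P * x⁻¹) (x * Q⁻¹) := o.cv hδ (1) e4 (by simp only [mul_assoc, mul_inv_rev, inv_inv, mul_inv_cancel_left, inv_mul_cancel_left, mul_inv_cancel, inv_mul_cancel, mul_one, one_mul, inv_one, C]) (by simp only [mul_assoc, mul_inv_rev, inv_inv, mul_inv_cancel_left, inv_mul_cancel_left, mul_inv_cancel, inv_mul_cancel, mul_one, one_mul, inv_one, C])
  have k22 : o.lt (x * Q⁻¹) (P * x⁻¹) ↔ o.lt (x * Q⁻¹) (P * x⁻¹) := o.cv hδ (1) e8 (by simp only [mul_assoc, mul_inv_rev, inv_inv, mul_inv_cancel_left, inv_mul_cancel_left, mul_inv_cancel, inv_mul_cancel, mul_one, one_mul, inv_one, C]) (by simp only [mul_assoc, mul_inv_rev, inv_inv, mul_inv_cancel_left, inv_mul_cancel_left, mul_inv_cancel, inv_mul_cancel, mul_one, one_mul, inv_one, C])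
  have k23 : o.lt (P * x⁻¹) (P * g⁻¹) ↔ o.lt (P * x⁻¹) (P * g⁻¹) := o.cv hδ (1) e5 (by simp only [mul_assoc, mul_inv_rev, inv_inv, mul_inv_cancel_left, inv_mul_cancel_left, mul_inv_cancel, inv_mul_cancel, mul_one, one_mul, inv_one, C]) (by simp only [mul_assoc, mul_inv_rev, inv_inv, mul_inv_cancel_left, inv_mul_cancel_left, mul_inv_cancel, inv_mul_cancel, mul_one, one_mul, inv_one, C])
  have k24 : o.lt (P * x⁻¹) (g * Q⁻¹) ↔ o.lt (P * x⁻¹) (g * Q⁻¹) := o.cv hδ (1) e6 (by simp only [mul_assoc, mul_inv_rev, inv_inv, mul_inv_cancel_left, inv_mul_cancel_left, mul_inv_cancel, inv_mul_cancel, mul_one, one_mul, inv_one, C]) (by simp only [mul_assoc, mul_inv_rev, inv_inv, mul_inv_cancel_left, inv_mul_cancel_left, mul_inv_cancel, inv_mul_cancel, mul_one, one_mul, inv_one, C])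
  have k25 : o.lt (g * Q⁻¹) (P * g⁻¹) ↔ o.lt (g * Q⁻¹) (P * g⁻¹) := o.cv hδ (1) e14 (by simp only [mul_assoc, mul_inv_rev, inv_inv, mul_inv_cancel_left, inv_mul_cancel_left, mul_inv_cancel, inv_mul_cancel, mul_one, one_mul, inv_one, C]) (by simp only [mul_assoc, mul_inv_rev, inv_inv, mul_inv_cancel_left, inv_mul_cancel_left, mul_inv_cancel, inv_mul_cancel, mul_one, one_mul, inv_one, C])
  have k26 : o.lt (g * Q⁻¹) (P * x⁻¹) ↔ o.lt (g * Q⁻¹) (P * x⁻¹) := o.cv hδ (1) e12 (by simp only [mul_assoc, mul_inv_rev, inv_inv, mul_inv_cancel_left, inv_mul_cancel_left, mul_inv_cancel, inv_mul_cancel, mul_one, one_mul, inv_one, C]) (by simp only [mul_assoc, mul_inv_rev, inv_inv, mul_inv_cancel_left, inv_mul_cancel_left, mul_inv_cancel, inv_mul_cancel, mul_one, one_mul, inv_one, C])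
  have k27 : o.lt (g * Q⁻¹) (x * Q⁻¹) ↔ o.lt (g * Q⁻¹) (x * Q⁻¹) := o.cv hδ (1) e13 (by simp only [mul_assoc, mul_inv_rev, inv_inv, mul_inv_cancel_left, inv_mul_cancel_left, mul_inv_cancel, inv_mul_cancel, mul_one, one_mul, inv_one, C]) (by simp only [mul_assoc, mul_inv_rev, inv_inv, mul_inv_cancel_left, inv_mul_cancel_left, mul_inv_cancel, inv_mul_cancel, mul_one, one_mul, inv_one, C])
  have k28 : o.lt (Q * g⁻¹) (g * P⁻¹) ↔ o.lt (Q * P⁻¹) (P * g⁻¹) := o.cv hδ (g * P⁻¹) e16 (by simp only [mul_assoc, mul_inv_rev, inv_inv, mul_inv_cancel_left, inv_mul_cancel_left, mul_inv_cancel, inv_mul_cancel, mul_one, one_mul, inv_one, C]) (by simp only [mul_assoc, mul_inv_rev, inv_inv, mul_inv_cancel_left, inv_mul_cancel_left, mul_inv_cancel, inv_mul_cancel, mul_one, one_mul, inv_one, C])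
  have k29 : o.lt (Q * P⁻¹) (P * f⁻¹) ↔ o.lt (Q * P⁻¹) (P * f⁻¹) := o.cv hδ (1) e15 (by simp only [mul_assoc, mul_inv_rev, inv_inv, mul_inv_cancel_left, inv_mul_cancel_left, mul_inv_cancel, inv_mul_cancel, mul_one, one_mul, inv_one, C]) (by simp only [mul_assoc, mul_inv_rev, inv_inv, mul_inv_cancel_left, inv_mul_cancel_left, mul_inv_cancel, inv_mul_cancel, mul_one, one_mul, inv_one, C])
  have k30 : o.lt (f * P⁻¹) (x * P⁻¹) ↔ o.lt (f * P⁻¹) (x * P⁻¹) := o.cv hδ (1) e17 (by simp only [mul_assoc, mul_inv_rev, inv_inv, mul_inv_cancel_left, inv_mul_cancel_left, mul_inv_cancel, inv_mul_cancel, mul_one, one_mul, inv_one, C]) (by simp only [mul_assoc, mul_inv_rev, inv_inv, mul_inv_cancel_left, inv_mul_cancel_left, mul_inv_cancel, inv_mul_cancel, mul_one, one_mul, inv_one, C])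
  have k31 : o.lt (x * P⁻¹) (f * P⁻¹) ↔ o.lt (x * P⁻¹) (f * P⁻¹) := o.cv hδ (1) e19 (by simp only [mul_assoc, mul_inv_rev, inv_inv, mul_inv_cancel_left, inv_mul_cancel_left, mul_inv_cancel, inv_mul_cancel, mul_one, one_mul, inv_one, C]) (by simp only [mul_assoc, mul_inv_rev, inv_inv, mul_inv_cancel_left, inv_mul_cancel_left, mul_inv_cancel, inv_mul_cancel, mul_one, one_mul, inv_one, C])
  have k32 : o.lt (f * P⁻¹) (Q * x⁻¹) ↔ o.lt (f * P⁻¹) (Q * x⁻¹) := o.cv hδ (1) e18 (by simp only [mul_assoc, mul_inv_rev, inv_inv, mul_inv_cancel_left, inv_mul_cancel_left, mul_inv_cancel, inv_mul_cancel, mul_one, one_mul, inv_one, C]) (by simp only [mul_assoc, mul_inv_rev, inv_inv, mul_inv_cancel_left, inv_mul_cancel_left, mul_inv_cancel, inv_mul_cancel, mul_one, one_mul, inv_one, C])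
  have k33 : o.lt (Q * x⁻¹) (f * P⁻¹) ↔ o.lt (Q * x⁻¹) (f * P⁻¹) := o.cv hδ (1) e24 (by simp only [mul_assoc, mul_inv_rev, inv_inv, mul_inv_cancel_left, inv_mul_cancel_left, mul_inv_cancel, inv_mul_cancel, mul_one, one_mul, inv_one, C]) (by simp only [mul_assoc, mul_inv_rev, inv_inv, mul_inv_cancel_left, inv_mul_cancel_left, mul_inv_cancel, inv_mul_cancel, mul_one, one_mul, inv_one, C])
  have k34 : o.lt (x * P⁻¹) (g * P⁻¹) ↔ o.lt (x * P⁻¹) (g * P⁻¹) := o.cv hδ (1) e20 (by simp only [mul_assoc, mul_inv_rev, inv_inv, mul_inv_cancel_left, inv_mul_cancel_left, mul_inv_cancel, inv_mul_cancel, mul_one, one_mul, inv_one, C]) (by simp only [mul_assoc, mul_inv_rev, inv_inv, mul_inv_cancel_left, inv_mul_cancel_left, mul_inv_cancel, inv_mul_cancel, mul_one, one_mul, inv_one, C])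
  have k35 : o.lt (g * P⁻¹) (f * P⁻¹) ↔ o.lt (g * P⁻¹) (f * P⁻¹) := o.cv hδ (1) e26 (by simp only [mul_assoc, mul_inv_rev, inv_inv, mul_inv_cancel_left, inv_mul_cancel_left, mul_inv_cancel, inv_mul_cancel, mul_one, one_mul, inv_one, C]) (by simp only [mul_assoc, mul_inv_rev, inv_inv, mul_inv_cancel_left, inv_mul_cancel_left, mul_inv_cancel, inv_mul_cancel, mul_one, one_mul, inv_one, C])
  have k36 : o.lt (g * P⁻¹) (x * P⁻¹) ↔ o.lt (g * P⁻¹) (x * P⁻¹) := o.cv hδ (1) e27 (by simp only [mul_assoc, mul_inv_rev, inv_inv, mul_inv_cancel_left, inv_mul_cancel_left, mul_inv_cancel, inv_mul_cancel, mul_one, one_mul, inv_one, C]) (by simp only [mul_assoc, mul_inv_rev, inv_inv, mul_inv_cancel_left, inv_mul_cancel_left, mul_inv_cancel, inv_mul_cancel, mul_one, one_mul, inv_one, C])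
  have k37 : o.lt (Q * P⁻¹) (P * f⁻¹) ↔ o.lt (Q * f⁻¹) (f * P⁻¹) := o.cv hδ (P * f⁻¹) e15 (by simp only [mul_assoc, mul_inv_rev, inv_inv, mul_inv_cancel_left, inv_mul_cancel_left, mul_inv_cancel, inv_mul_cancel, mul_one, one_mul, inv_one, C]) (by simp only [mul_assoc, mul_inv_rev, inv_inv, mul_inv_cancel_left, inv_mul_cancel_left, mul_inv_cancel, inv_mul_cancel, mul_one, one_mul, inv_one, C])
  have k38 : o.lt (Q * f⁻¹) (g * P⁻¹) ↔ o.lt (Q * f⁻¹) (g * P⁻¹) := o.cv hδ (1) e22 (by simp only [mul_assoc, mul_inv_rev, inv_inv, mul_inv_cancel_left, inv_mul_cancel_left, mul_inv_cancel, inv_mul_cancel, mul_one, one_mul, inv_one, C]) (by simp only [mul_assoc, mul_inv_rev, inv_inv, mul_inv_cancel_left, inv_mul_cancel_left, mul_inv_cancel, inv_mul_cancel, mul_one, one_mul, inv_one, C])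
  have k39 : o.lt (Q * f⁻¹) (Q * x⁻¹) ↔ o.lt (Q * f⁻¹) (Q * x⁻¹) := o.cv hδ (1) e21 (by simp only [mul_assoc, mul_inv_rev, inv_inv, mul_inv_cancel_left, inv_mul_cancel_left, mul_inv_cancel, inv_mul_cancel, mul_one, one_mul, inv_one, C]) (by simp only [mul_assoc, mul_inv_rev, inv_inv, mul_inv_cancel_left, inv_mul_cancel_left, mul_inv_cancel, inv_mul_cancel, mul_one, one_mul, inv_one, C])
  have k40 : o.lt (Q * x⁻¹) (Q * f⁻¹) ↔ o.lt (Q * x⁻¹) (Q * f⁻¹) := o.cv hδ (1) e25 (by simp only [mul_assoc, mul_inv_rev, inv_inv, mul_inv_cancel_left, inv_mul_cancel_left, mul_inv_cancel, inv_mul_cancel, mul_one, one_mul, inv_one, C]) (by simp only [mul_assoc, mul_inv_rev, inv_inv, mul_inv_cancel_left, inv_mul_cancel_left, mul_inv_cancel, inv_mul_cancel, mul_one, one_mul, inv_one, C])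
  have k41 : o.lt (Q * f⁻¹) (Q * g⁻¹) ↔ o.lt (Q * f⁻¹) (Q * g⁻¹) := o.cv hδ (1) e23 (by simp only [mul_assoc, mul_inv_rev, inv_inv, mul_inv_cancel_left, inv_mul_cancel_left, mul_inv_cancel, inv_mul_cancel, mul_one, one_mul, inv_one, C]) (by simp only [mul_assoc, mul_inv_rev, inv_inv, mul_inv_cancel_left, inv_mul_cancel_left, mul_inv_cancel, inv_mul_cancel, mul_one, one_mul, inv_one, C])
  have k42 : o.lt (g * P⁻¹) (Q * g⁻¹) ↔ o.lt (g * P⁻¹) (Q * g⁻¹) := o.cv hδ (1) e10 (by simp only [mul_assoc, mul_inv_rev, inv_inv, mul_inv_cancel_left, inv_mul_cancel_left, mul_inv_cancel, inv_mul_cancel, mul_one, one_mul, inv_one, C]) (by simp only [mul_assoc, mul_inv_rev, inv_inv, mul_inv_cancel_left, inv_mul_cancel_left, mul_inv_cancel, inv_mul_cancel, mul_one, one_mul, inv_one, C])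
  have k43 : o.lt (f * Q⁻¹) (P * f⁻¹) ↔ o.lt (Q * f⁻¹) (P * Q⁻¹) := o.cv hδ (Q * (f⁻¹ * (Q * f⁻¹))) e7 (by simp only [mul_assoc, mul_inv_rev, inv_inv, mul_inv_cancel_left, inv_mul_cancel_left, mul_inv_cancel, inv_mul_cancel, mul_one, one_mul, inv_one, C]) (by simp only [mul_assoc, mul_inv_rev, inv_inv, mul_inv_cancel_left, inv_mul_cancel_left, mul_inv_cancel, inv_mul_cancel, mul_one, one_mul, inv_one, C])
  have k44 : o.lt (x * Q⁻¹) (P * x⁻¹) ↔ o.lt (Q * x⁻¹) (P * Q⁻¹) := o.cv hδ (Q * (x⁻¹ * (Q * x⁻¹))) e8 (by simp only [mul_assoc, mul_inv_rev, inv_inv, mul_inv_cancel_left, inv_mul_cancel_left, mul_inv_cancel, inv_mul_cancel, mul_one, one_mul, inv_one, C]) (by simp only [mul_assoc, mul_inv_rev, inv_inv, mul_inv_cancel_left, inv_mul_cancel_left, mul_inv_cancel, inv_mul_cancel, mul_one, one_mul, inv_one, C])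
  have k45 : o.lt (g * Q⁻¹) (P * g⁻¹) ↔ o.lt (Q * g⁻¹) (P * Q⁻¹) := o.cv hδ (Q * (g⁻¹ * (Q * g⁻¹))) e14 (by simp only [mul_assoc, mul_inv_rev, inv_inv, mul_inv_cancel_left, inv_mul_cancel_left, mul_inv_cancel, inv_mul_cancel, mul_one, one_mul, inv_one, C]) (by simp only [mul_assoc, mul_inv_rev, inv_inv, mul_inv_cancel_left, inv_mul_cancel_left, mul_inv_cancel, inv_mul_cancel, mul_one, one_mul, inv_one, C])
  have k46 : o.lt (Q * g⁻¹) (f * P⁻¹) ↔ o.lt (Q * g⁻¹) (f * P⁻¹) := o.cv hδ (1) e28 (by simp only [mul_assoc, mul_inv_rev, inv_inv, mul_inv_cancel_left, inv_mul_cancel_left, mul_inv_cancel, inv_mul_cancel, mul_one, one_mul, inv_one, C]) (by simp only [mul_assoc, mul_inv_rev, inv_inv, mul_inv_cancel_left, inv_mul_cancel_left, mul_inv_cancel, inv_mul_cancel, mul_one, one_mul, inv_one, C])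
  have k47 : o.lt (Q * g⁻¹) (g * P⁻¹) ↔ o.lt (Q * g⁻¹) (g * P⁻¹) := o.cv hδ (1) e16 (by simp only [mul_assoc, mul_inv_rev, inv_inv, mul_inv_cancel_left, inv_mul_cancel_left, mul_inv_cancel, inv_mul_cancel, mul_one, one_mul, inv_one, C]) (by simp only [mul_assoc, mul_inv_rev, inv_inv, mul_inv_cancel_left, inv_mul_cancel_left, mul_inv_cancel, inv_mul_cancel, mul_one, one_mul, inv_one, C])
  have k48 : o.lt (Q * g⁻¹) (x * P⁻¹) ↔ o.lt (Q * g⁻¹) (x * P⁻¹) := o.cv hδ (1) e29 (by simp only [mul_assoc, mul_inv_rev, inv_inv, mul_inv_cancel_left, inv_mul_cancel_left, mul_inv_cancel, inv_mul_cancel, mul_one, one_mul, inv_one, C]) (by simp only [mul_assoc, mul_inv_rev, inv_inv, mul_inv_cancel_left, inv_mul_cancel_left, mul_inv_cancel, inv_mul_cancel, mul_one, one_mul, inv_one, C])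
  have k49 : o.lt (P * Q⁻¹) (f * P⁻¹) ↔ o.lt (P * Q⁻¹) (f * P⁻¹) := o.cv hδ (1) e30 (by simp only [mul_assoc, mul_inv_rev, inv_inv, mul_inv_cancel_left, inv_mul_cancel_left, mul_inv_cancel, inv_mul_cancel, mul_one, one_mul, inv_one, C]) (by simp only [mul_assoc, mul_inv_rev, inv_inv, mul_inv_cancel_left, inv_mul_cancel_left, mul_inv_cancel, inv_mul_cancel, mul_one, one_mul, inv_one, C])
  have k50 : o.lt (P * x⁻¹) (x * Q⁻¹) ↔ o.lt (P * Q⁻¹) (Q * x⁻¹) := o.cv hδ (x * Q⁻¹) e4 (by simp only [mul_assoc, mul_inv_rev, inv_inv, mul_inv_cancel_left, inv_mul_cancel_left, mul_inv_cancel, inv_mul_cancel, mul_one, one_mul, inv_one, C]) (by simp only [mul_assoc, mul_inv_rev, inv_inv, mul_inv_cancel_left, inv_mul_cancel_left, mul_inv_cancel, inv_mul_cancel, mul_one, one_mul, inv_one, C])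
  have k51 : o.lt (P * f⁻¹) (f * Q⁻¹) ↔ o.lt (P * Q⁻¹) (Q * f⁻¹) := o.cv hδ (f * Q⁻¹) e0 (by simp only [mul_assoc, mul_inv_rev, inv_inv, mul_inv_cancel_left, inv_mul_cancel_left, mul_inv_cancel, inv_mul_cancel, mul_one, one_mul, inv_one, C]) (by simp only [mul_assoc, mul_inv_rev, inv_inv, mul_inv_cancel_left, inv_mul_cancel_left, mul_inv_cancel, inv_mul_cancel, mul_one, one_mul, inv_one, C])
  have k52 : o.lt (P * f⁻¹) (Q * P⁻¹) ↔ o.lt (f * P⁻¹) (Q * f⁻¹) := o.cv hδ (f * (P⁻¹ * (f * P⁻¹))) e3 (by simp only [mul_assoc, mul_inv_rev, inv_inv, mul_inv_cancel_left, inv_mul_cancel_left, mul_inv_cancel, inv_mul_cancel, mul_one, one_mul, inv_one, C]) (by simp only [mul_assoc, mul_inv_rev, inv_inv, mul_inv_cancel_left, inv_mul_cancel_left, mul_inv_cancel, inv_mul_cancel, mul_one, one_mul, inv_one, C])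
  have k53 : o.lt (P * Q⁻¹) (g * P⁻¹) ↔ o.lt (P * Q⁻¹) (g * P⁻¹) := o.cv hδ (1) e31 (by simp only [mul_assoc, mul_inv_rev, inv_inv, mul_inv_cancel_left, inv_mul_cancel_left, mul_inv_cancel, inv_mul_cancel, mul_one, one_mul, inv_one, C]) (by simp only [mul_assoc, mul_inv_rev, inv_inv, mul_inv_cancel_left, inv_mul_cancel_left, mul_inv_cancel, inv_mul_cancel, mul_one, one_mul, inv_one, C])
  have k54 : o.lt (P * g⁻¹) (g * Q⁻¹) ↔ o.lt (P * Q⁻¹) (Q * g⁻¹) := o.cv hδ (g * Q⁻¹) e9 (by simp only [mul_assoc, mul_inv_rev, inv_inv, mul_inv_cancel_left, inv_mul_cancel_left, mul_inv_cancel, inv_mul_cancel, mul_one, one_mul, inv_one, C]) (by simp only [mul_assoc, mul_inv_rev, inv_inv, mul_inv_cancel_left, inv_mul_cancel_left, mul_inv_cancel, inv_mul_cancel, mul_one, one_mul, inv_one, C])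
  have k55 : o.lt (Q * f⁻¹) (g * P⁻¹) ↔ o.lt ((f * Q⁻¹)⁻¹) ((P * g⁻¹)⁻¹) := o.cv hδ (1) e22 (by simp only [mul_assoc, mul_inv_rev, inv_inv, mul_inv_cancel_left, inv_mul_cancel_left, mul_inv_cancel, inv_mul_cancel, mul_one, one_mul, inv_one, C]) (by simp only [mul_assoc, mul_inv_rev, inv_inv, mul_inv_cancel_left, inv_mul_cancel_left, mul_inv_cancel, inv_mul_cancel, mul_one, one_mul, inv_one, C])
  have k56 : o.lt (g * P⁻¹) (f * P⁻¹) ↔ o.lt (g) (f) := o.cv hδ (P) e26 (by simp only [mul_assoc, mul_inv_rev, inv_inv, mul_inv_cancel_left, inv_mul_cancel_left, mul_inv_cancel, inv_mul_cancel, mul_one, one_mul, inv_one, C]) (by simp only [mul_assoc, mul_inv_rev, inv_inv, mul_inv_cancel_left, inv_mul_cancel_left, mul_inv_cancel, inv_mul_cancel, mul_one, one_mul, inv_one, C])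
  exact par_AAB_1_prop
    (fun b0 b1 b2 => N0.rd.r1 1 (fun h => b0 (k0.2 h)) (fun h => b1 (k1.2 h)) (k2.1 b2))
    (fun b0 b1 b2 => N0.r.r0 1 (fun h => b0 (k3.2 h)) (k1.1 b1) (fun h => b2 (k4.2 h)))
    (fun b0 b1 b2 => N0.rd.r0 1 (fun h => b0 (k5.2 h)) (k6.1 b1) (fun h => b2 (k2.2 h)))
    (fun b0 b1 b2 => N1.rd.r1 1 (fun h => b0 (k7.2 h)) (fun h => b1 (k8.2 h)) (k9.1 b2))
    (fun b0 b1 b2 => N1.d.r0 1 (fun h => b0 (k10.2 h)) (k11.1 b1) (fun h => b2 (k12.2 h)))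
    (fun b0 b1 b2 => N1.i.r1 1 (fun h => b0 (k13.2 h)) (fun h => b1 (k11.2 h)) (k14.1 b2))
    (fun b0 b1 => o.asym (k15.1 b0) (k16.1 b1))
    (fun b0 b1 b2 => o.tri (k15.1 b0) (fun h => b1 (k17.2 h)) (fun h => b2 (k18.2 h)))
    (fun b0 b1 b2 => o.tri (k19.1 b0) (fun h => b1 (k17.2 h)) (fun h => b2 (k20.2 h)))
    (fun b0 b1 => o.asym (k21.1 b0) (k22.1 b1))
    (fun b0 b1 b2 => o.tri (k23.1 b0) (fun h => b1 (k24.2 h)) (fun h => b2 (k25.2 h)))
    (fun b0 b1 => o.asym (k24.1 b0) (k26.1 b1))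
    (fun b0 b1 b2 => o.tri (k27.1 b0) (fun h => b1 (k26.2 h)) (fun h => b2 (k21.2 h)))
    (fun b0 b1 b2 => o.tri (k25.1 b0) (fun h => b1 (k16.2 h)) (fun h => b2 (k17.2 h)))
    (fun b0 b1 b2 => o.tri (k28.1 b0) (fun h => b1 (k29.2 h)) (fun h => b2 (k17.2 h)))
    (fun b0 b1 => o.asym (k30.1 b0) (k31.1 b1))
    (fun b0 b1 => o.asym (k32.1 b0) (k33.1 b1))
    (fun b0 b1 b2 => o.tri (k31.1 b0) (fun h => b1 (k34.2 h)) (fun h => b2 (k35.2 h)))
    (fun b0 b1 => o.asym (k34.1 b0) (k36.1 b1))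
    (fun b0 b1 b2 => o.tri (k37.1 b0) (fun h => b1 (k38.2 h)) (fun h => b2 (k35.2 h)))
    (fun b0 b1 => o.asym (k39.1 b0) (k40.1 b1))
    (fun b0 b1 b2 => o.tri (k39.1 b0) (fun h => b1 (k37.2 h)) (fun h => b2 (k32.2 h)))
    (fun b0 b1 b2 => o.tri (k41.1 b0) (fun h => b1 (k38.2 h)) (fun h => b2 (k42.2 h)))
    (fun b0 b1 b2 => o.tri (k43.1 b0) (fun h => b1 (k39.2 h)) (fun h => b2 (k44.2 h)))
    (fun b0 b1 b2 => o.tri (k43.1 b0) (fun h => b1 (k41.2 h)) (fun h => b2 (k45.2 h)))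
    (fun b0 b1 b2 => o.tri (k46.1 b0) (fun h => b1 (k47.2 h)) (fun h => b2 (k35.2 h)))
    (fun b0 b1 b2 => o.tri (k48.1 b0) (fun h => b1 (k46.2 h)) (fun h => b2 (k30.2 h)))
    (fun b0 b1 b2 => o.tri (k49.1 b0) (fun h => b1 (k50.2 h)) (fun h => b2 (k33.2 h)))
    (fun b0 b1 b2 => o.tri (k51.1 b0) (fun h => b1 (k49.2 h)) (fun h => b2 (k52.2 h)))
    (fun b0 b1 b2 => o.tri (k50.1 b0) (fun h => b1 (k51.2 h)) (fun h => b2 (k39.2 h)))
    (fun b0 b1 b2 => o.tri (k53.1 b0) (fun h => b1 (k51.2 h)) (fun h => b2 (k38.2 h)))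
    (fun b0 b1 b2 => o.tri (k54.1 b0) (fun h => b1 (k53.2 h)) (fun h => b2 (k42.2 h)))
    (fun h => g0 (k17.1 h))
    (k15.2 g1)
    (fun h => g2 (k55.1 h))
    (fun h => g3 (k56.1 h))

theorem par_ABC_0_prop {A1 A2 A3 A4 A5 A6 A7 A8 A9 A10 A11 A12 A13 A14 A15 A16 A17 A18 A19 A20 A21 A22 A23 A24 A25 A26 A27 A28 A29 A30 A31 A32 A33 A34 A35 A36 A37 A38 A39 A40 A41 A42 A43 A44 : Prop}
    (c0 : ¬ A12 → ¬ A40 → A11 → False)
    (c1 : ¬ A24 → A40 → ¬ A2 → False)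
    (c2 : ¬ A12 → ¬ A29 → A28 → False)
    (c3 : ¬ A30 → ¬ A34 → A26 → ¬ A43 → False)
    (c4 : ¬ A26 → A27 → ¬ A41 → ¬ A43 → False)
    (c5 : ¬ A36 → ¬ A35 → A42 → ¬ A43 → False)
    (c6 : ¬ A1 → ¬ A3 → A14 → False)
    (c7 : ¬ A18 → A3 → ¬ A5 → False)
    (c8 : ¬ A21 → ¬ A9 → A23 → ¬ A10 → False)
    (c9 : ¬ A7 → ¬ A6 → A37 → ¬ A38 → False)
    (c10 : A28 → A35 → False)
    (c11 : A18 → A12 → False)
    (c12 : A22 → A13 → False)
    (c13 : A22 → ¬ A20 → ¬ A32 → False)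
    (c14 : A5 → ¬ A20 → ¬ A33 → False)
    (c15 : A29 → ¬ A12 → ¬ A2 → False)
    (c16 : A12 → ¬ A31 → ¬ A13 → False)
    (c17 : A31 → ¬ A30 → ¬ A27 → False)
    (c18 : A33 → A36 → False)
    (c19 : A34 → ¬ A13 → ¬ A20 → False)
    (c20 : A36 → ¬ A14 → ¬ A20 → False)
    (c21 : A12 → ¬ A28 → ¬ A40 → False)
    (c22 : A12 → ¬ A39 → ¬ A13 → False)
    (c23 : A15 → ¬ A28 → ¬ A16 → False)
    (c24 : A39 → A43 → False)
    (c25 : A24 → A16 → False)
    (c26 : A2 → ¬ A25 → ¬ A34 → False)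
    (c27 : A40 → ¬ A41 → ¬ A13 → False)
    (c28 : A41 → A44 → False)
    (c29 : A41 → ¬ A42 → ¬ A36 → False)
    (c30 : A42 → ¬ A16 → ¬ A25 → False)
    (c31 : A30 → ¬ A42 → ¬ A34 → False)
    (c32 : A17 → ¬ A44 → ¬ A16 → False)
    (c33 : A32 → ¬ A11 → ¬ A25 → False)
    (c34 : A1 → A8 → False)
    (c35 : A4 → ¬ A25 → ¬ A13 → False)
    (c36 : A1 → ¬ A4 → ¬ A19 → False)
    (c37 : A3 → ¬ A2 → ¬ A12 → False)
    (c38 : A9 → ¬ A8 → ¬ A3 → False)
    (c39 : A10 → A19 → False)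
    (c40 : A12 → ¬ A13 → ¬ A23 → False)
    (c41 : A21 → ¬ A20 → ¬ A13 → False)
    (c42 : A6 → ¬ A2 → ¬ A15 → False)
    (c43 : A7 → ¬ A2 → ¬ A17 → False)
    (c44 : A1 → ¬ A37 → ¬ A4 → False)
    (c45 : A38 → ¬ A25 → ¬ A16 → False)
    (u0 : A22)
    (u1 : ¬ A20)
    (u2 : ¬ A25)
    : False := by
  have q1 : ¬ A13 := fun h => c12 u0 h
  have q2 : A32 := Classical.byContradiction fun h => c13 u0 u1 h
  have q3 : ¬ A34 := fun h => c19 h q1 u1
  have q4 : ¬ A2 := fun h => c26 h u2 q3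
  have q5 : A11 := Classical.byContradiction fun h => c33 q2 h u2
  have q6 : ¬ A4 := fun h => c35 h u2 q1
  have q7 : ¬ A21 := fun h => c41 h u1 q1
  rcases Classical.em A12 with q8 | q8
  · have q9 : ¬ A18 := fun h => c11 h q8
    have q10 : A31 := Classical.byContradiction fun h => c16 q8 h q1
    have q11 : A39 := Classical.byContradiction fun h => c22 q8 h q1
    have q12 : ¬ A43 := fun h => c24 q11 h
    have q13 : A23 := Classical.byContradiction fun h => c40 q8 q1 h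
    rcases Classical.em A16 with q14 | q14
    · have q15 : ¬ A24 := fun h => c25 h q14
      have q16 : ¬ A40 := fun h => c1 q15 h q4
      have q17 : A28 := Classical.byContradiction fun h => c21 q8 h q16
      have q18 : ¬ A35 := fun h => c10 q17 h
      rcases Classical.em A1 with q19 | q19
      · have q20 : ¬ A8 := fun h => c34 q19 h
        have q21 : A19 := Classical.byContradiction fun h => c36 q19 q6 h
        have q22 : ¬ A10 := fun h => c39 h q21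
        have q23 : A9 := Classical.byContradiction fun h => c8 q7 h q13 q22
        have q24 : A3 := Classical.byContradiction fun h => c38 q23 q20 h
        have q25 : A5 := Classical.byContradiction fun h => c7 q9 q24 h
        have q26 : A33 := Classical.byContradiction fun h => c14 q25 u1 h
        have q27 : ¬ A36 := fun h => c18 q26 h
        have q28 : ¬ A42 := fun h => c5 q27 q18 h q12
        have q29 : ¬ A41 := fun h => c29 h q28 q27
        have q30 : ¬ A30 := fun h => c31 h q28 q3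
        have q31 : ¬ A26 := fun h => c3 q30 q3 h q12
        have q32 : ¬ A27 := fun h => c4 q31 h q29 q12
        exact c17 q10 q30 q32
      · rcases Classical.em A36 with q33 | q33
        · have q34 : ¬ A33 := fun h => c18 h q33
          have q35 : ¬ A5 := fun h => c14 h u1 q34
          have q36 : ¬ A3 := fun h => c7 q9 h q35
          have q37 : ¬ A14 := fun h => c6 q19 q36 h
          exact c20 q33 q37 u1
        · have q38 : ¬ A42 := fun h => c5 q33 q18 h q12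
          have q39 : ¬ A41 := fun h => c29 h q38 q33
          have q40 : ¬ A30 := fun h => c31 h q38 q3
          have q41 : ¬ A26 := fun h => c3 q40 q3 h q12
          have q42 : ¬ A27 := fun h => c4 q41 h q39 q12
          exact c17 q10 q40 q42
    · have q43 : ¬ A42 := fun h => c30 h q14 u2
      have q44 : ¬ A30 := fun h => c31 h q43 q3
      have q45 : ¬ A26 := fun h => c3 q44 q3 h q12
      have q46 : A27 := Classical.byContradiction fun h => c17 q10 q44 h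
      have q47 : A41 := Classical.byContradiction fun h => c4 q45 q46 h q12
      have q48 : ¬ A44 := fun h => c28 q47 h
      have q49 : A36 := Classical.byContradiction fun h => c29 q47 q43 h
      have q50 : ¬ A33 := fun h => c18 h q49
      have q51 : ¬ A5 := fun h => c14 h u1 q50
      have q52 : ¬ A3 := fun h => c7 q9 h q51
      have q53 : A14 := Classical.byContradiction fun h => c20 q49 h u1
      have q54 : A1 := Classical.byContradiction fun h => c6 h q52 q53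
      have q55 : ¬ A17 := fun h => c32 h q48 q14
      have q56 : ¬ A8 := fun h => c34 q54 h
      have q57 : A19 := Classical.byContradiction fun h => c36 q54 q6 h
      have q58 : ¬ A9 := fun h => c38 h q56 q52
      have q59 : A10 := Classical.byContradiction fun h => c8 q7 q58 q13 h
      exact c39 q59 q57
  · have q60 : A40 := Classical.byContradiction fun h => c0 q8 h q5
    have q61 : A24 := Classical.byContradiction fun h => c1 h q60 q4
    have q62 : ¬ A29 := fun h => c15 h q8 q4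
    have q63 : ¬ A28 := fun h => c2 q8 q62 h
    have q64 : ¬ A16 := fun h => c25 q61 h
    have q65 : ¬ A15 := fun h => c23 h q63 q64
    have q66 : A41 := Classical.byContradiction fun h => c27 q60 h q1
    have q67 : ¬ A44 := fun h => c28 q66 h
    have q68 : ¬ A42 := fun h => c30 h q64 u2
    have q69 : A36 := Classical.byContradiction fun h => c29 q66 q68 h
    have q70 : ¬ A33 := fun h => c18 h q69
    have q71 : ¬ A5 := fun h => c14 h u1 q70
    have q72 : A14 := Classical.byContradiction fun h => c20 q69 h u1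
    have q73 : ¬ A30 := fun h => c31 h q68 q3
    have q74 : ¬ A17 := fun h => c32 h q67 q64
    have q75 : ¬ A3 := fun h => c37 h q4 q8
    have q76 : A1 := Classical.byContradiction fun h => c6 h q75 q72
    have q77 : ¬ A8 := fun h => c34 q76 h
    have q78 : A19 := Classical.byContradiction fun h => c36 q76 q6 h
    have q79 : ¬ A9 := fun h => c38 h q77 q75
    have q80 : ¬ A10 := fun h => c39 h q78
    have q81 : ¬ A23 := fun h => c8 q7 q79 h q80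
    have q82 : ¬ A6 := fun h => c42 h q4 q65
    have q83 : ¬ A7 := fun h => c43 h q4 q74
    have q84 : A37 := Classical.byContradiction fun h => c44 q76 h q6
    have q85 : A38 := Classical.byContradiction fun h => c9 q83 q82 q84 h
    exact c45 q85 u2 q64

theorem par_ABC_0 {G : Type*} [Group G] {δ : G → ZMod 3} (hδ : ∀ u v, δ (u * v) = δ u + δ v) (o : Pre δ)
    {P Q f x g : G} {e : ZMod 3} (h3 : 3 * e = 0)
    (D : δ P = e ∧ δ Q = -e ∧ δ f = 0 ∧ δ x = 0 ∧ δ g = 0)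
    (C : Cube P f ∧ Cube P x ∧ Cube P g ∧ Cube Q f ∧ Cube Q x ∧ Cube Q g)
    (N0 : RA o P Q f x)
    (N1 : RB o P Q x g)
    (g0 : o.lt (f * Q⁻¹) (g * Q⁻¹)) (g1 : ¬ o.lt (f * Q⁻¹) (P * g⁻¹)) (g2 : ¬ o.lt ((f * Q⁻¹)⁻¹) ((g * Q⁻¹)⁻¹)) : False := by
  simp only [Cube] at C
  have e0 : δ (f * (Q⁻¹ * (f * P⁻¹))) = δ (f * (Q⁻¹ * (x * P⁻¹))) := by simp only [hδ, δinv hδ, δone hδ, D] <;> linear_combination (0) * h3
  have e1 : δ (f * Q⁻¹) = δ (P * f⁻¹) := by simp only [hδ, δinv hδ, δone hδ, D] <;> linear_combination (0) * h3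
  have e2 : δ (f * (Q⁻¹ * (f * P⁻¹))) = δ (f * x⁻¹) := by simp only [hδ, δinv hδ, δone hδ, D] <;> linear_combination (0) * h3
  have e3 : δ (Q * f⁻¹) = δ (f * (Q⁻¹ * (g * Q⁻¹))) := by simp only [hδ, δinv hδ, δone hδ, D] <;> linear_combination (-1) * h3
  have e4 : δ (f * (Q⁻¹ * (P * f⁻¹))) = δ (Q * f⁻¹) := by simp only [hδ, δinv hδ, δone hδ, D] <;> linear_combination (1) * h3
  have e5 : δ (f * (Q⁻¹ * (f * x⁻¹))) = δ (Q * (f⁻¹ * (x * P⁻¹))) := by simp only [hδ, δinv hδ, δone hδ, D] <;> linear_combination (1) * h3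
  have e6 : δ (f * (Q⁻¹ * (f * g⁻¹))) = δ (Q * (f⁻¹ * (g * P⁻¹))) := by simp only [hδ, δinv hδ, δone hδ, D] <;> linear_combination (1) * h3
  have e7 : δ (f * (Q⁻¹ * (x * Q⁻¹))) = δ (Q * f⁻¹) := by simp only [hδ, δinv hδ, δone hδ, D] <;> linear_combination (1) * h3
  have e8 : δ (f * (Q⁻¹ * (x * P⁻¹))) = δ (f * x⁻¹) := by simp only [hδ, δinv hδ, δone hδ, D] <;> linear_combination (0) * h3
  have e9 : δ (f * (Q⁻¹ * x)) = δ (f * (Q⁻¹ * g)) := by simp only [hδ, δinv hδ, δone hδ, D] <;> linear_combination (0) * h3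
  have e10 : δ (P * f⁻¹) = δ (f * Q⁻¹) := by simp only [hδ, δinv hδ, δone hδ, D] <;> linear_combination (0) * h3
  have e11 : δ (x * P⁻¹) = δ (f * P⁻¹) := by simp only [hδ, δinv hδ, δone hδ, D] <;> linear_combination (0) * h3
  have e12 : δ (g * Q⁻¹) = δ (f * Q⁻¹) := by simp only [hδ, δinv hδ, δone hδ, D] <;> linear_combination (0) * h3
  have e13 : δ (Q * f⁻¹) = δ (f * (Q⁻¹ * (P * f⁻¹))) := by simp only [hδ, δinv hδ, δone hδ, D] <;> linear_combination (-1) * h3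
  have e14 : δ (x * P⁻¹) = δ (Q * f⁻¹) := by simp only [hδ, δinv hδ, δone hδ, D] <;> linear_combination (0) * h3
  have e15 : δ (Q * x⁻¹) = δ (Q * f⁻¹) := by simp only [hδ, δinv hδ, δone hδ, D] <;> linear_combination (0) * h3
  have e16 : δ (g * P⁻¹) = δ (Q * f⁻¹) := by simp only [hδ, δinv hδ, δone hδ, D] <;> linear_combination (0) * h3
  have e17 : δ (f * x⁻¹) = δ (1) := by simp only [hδ, δinv hδ, δone hδ, D] <;> linear_combination (0) * h3
  have e18 : δ (f * (Q⁻¹ * (g * P⁻¹))) = δ (f * (Q⁻¹ * (x * P⁻¹))) := by simp only [hδ, δinv hδ, δone hδ, D] <;> linear_combination (0) * h3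
  have e19 : δ (f * Q⁻¹) = δ (P * g⁻¹) := by simp only [hδ, δinv hδ, δone hδ, D] <;> linear_combination (0) * h3
  have e20 : δ (f * (Q⁻¹ * (g * P⁻¹))) = δ (f * g⁻¹) := by simp only [hδ, δinv hδ, δone hδ, D] <;> linear_combination (0) * h3
  have e21 : δ (f * Q⁻¹) = δ (g * Q⁻¹) := by simp only [hδ, δinv hδ, δone hδ, D] <;> linear_combination (0) * h3
  have e22 : δ (f * g⁻¹) = δ (f * x⁻¹) := by simp only [hδ, δinv hδ, δone hδ, D] <;> linear_combination (0) * h3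
  have e23 : δ (Q * f⁻¹) = δ (Q * x⁻¹) := by simp only [hδ, δinv hδ, δone hδ, D] <;> linear_combination (0) * h3
  have e24 : δ (Q * f⁻¹) = δ (Q * g⁻¹) := by simp only [hδ, δinv hδ, δone hδ, D] <;> linear_combination (0) * h3
  have e25 : δ (P * x⁻¹) = δ (P * g⁻¹) := by simp only [hδ, δinv hδ, δone hδ, D] <;> linear_combination (0) * h3
  have e26 : δ (P * x⁻¹) = δ (g * Q⁻¹) := by simp only [hδ, δinv hδ, δone hδ, D] <;> linear_combination (0) * h3
  have e27 : δ (x * P⁻¹) = δ (Q * x⁻¹) := by simp only [hδ, δinv hδ, δone hδ, D] <;> linear_combination (0) * h3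
  have e28 : δ (x * Q⁻¹) = δ (P * f⁻¹) := by simp only [hδ, δinv hδ, δone hδ, D] <;> linear_combination (0) * h3
  have e29 : δ (x * Q⁻¹) = δ (P * x⁻¹) := by simp only [hδ, δinv hδ, δone hδ, D] <;> linear_combination (0) * h3
  have e30 : δ (x * Q⁻¹) = δ (g * Q⁻¹) := by simp only [hδ, δinv hδ, δone hδ, D] <;> linear_combination (0) * h3
  have e31 : δ (P * g⁻¹) = δ (g * Q⁻¹) := by simp only [hδ, δinv hδ, δone hδ, D] <;> linear_combination (0) * h3
  have e32 : δ (P * g⁻¹) = δ (Q * P⁻¹) := by simp only [hδ, δinv hδ, δone hδ, D] <;> linear_combination (1) * h3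
  have e33 : δ (g * Q⁻¹) = δ (P * g⁻¹) := by simp only [hδ, δinv hδ, δone hδ, D] <;> linear_combination (0) * h3
  have e34 : δ (Q * x⁻¹) = δ (x * P⁻¹) := by simp only [hδ, δinv hδ, δone hδ, D] <;> linear_combination (0) * h3
  have e35 : δ (Q * g⁻¹) = δ (g * P⁻¹) := by simp only [hδ, δinv hδ, δone hδ, D] <;> linear_combination (0) * h3
  have e36 : δ (f * (Q⁻¹ * (f * x⁻¹))) = δ (f * (Q⁻¹ * (f * g⁻¹))) := by simp only [hδ, δinv hδ, δone hδ, D] <;> linear_combination (0) * h3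
  have e37 : δ (Q * (f⁻¹ * g)) = δ (Q * (f⁻¹ * x)) := by simp only [hδ, δinv hδ, δone hδ, D] <;> linear_combination (0) * h3
  have e38 : δ (x * P⁻¹) = δ (g * P⁻¹) := by simp only [hδ, δinv hδ, δone hδ, D] <;> linear_combination (0) * h3
  have e39 : δ (Q * x⁻¹) = δ (f * P⁻¹) := by simp only [hδ, δinv hδ, δone hδ, D] <;> linear_combination (0) * h3
  have e40 : δ (Q * x⁻¹) = δ (g * P⁻¹) := by simp only [hδ, δinv hδ, δone hδ, D] <;> linear_combination (0) * h3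
  have e41 : δ (Q * x⁻¹) = δ (Q * g⁻¹) := by simp only [hδ, δinv hδ, δone hδ, D] <;> linear_combination (0) * h3
  have e42 : δ (g) = δ (x) := by simp only [hδ, δinv hδ, δone hδ, D] <;> linear_combination (0) * h3
  have e43 : δ (g * P⁻¹) = δ (Q * x⁻¹) := by simp only [hδ, δinv hδ, δone hδ, D] <;> linear_combination (0) * h3
  have k0 : o.lt (x * P⁻¹) (f * P⁻¹) ↔ o.lt (1 * (x * P⁻¹)) (1 * (f * P⁻¹)) := o.cv hδ (1) e11 (by simp only [mul_assoc, mul_inv_rev, inv_inv, mul_inv_cancel_left, inv_mul_cancel_left, mul_inv_cancel, inv_mul_cancel, mul_one, one_mul, inv_one, C]) (by simp only [mul_assoc, mul_inv_rev, inv_inv, mul_inv_cancel_left, inv_mul_cancel_left, mul_inv_cancel, inv_mul_cancel, mul_one, one_mul, inv_one, C])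
  have k1 : o.lt (Q * x⁻¹) (f * P⁻¹) ↔ o.lt (1 * (Q * x⁻¹)) (1 * (f * P⁻¹)) := o.cv hδ (1) e39 (by simp only [mul_assoc, mul_inv_rev, inv_inv, mul_inv_cancel_left, inv_mul_cancel_left, mul_inv_cancel, inv_mul_cancel, mul_one, one_mul, inv_one, C]) (by simp only [mul_assoc, mul_inv_rev, inv_inv, mul_inv_cancel_left, inv_mul_cancel_left, mul_inv_cancel, inv_mul_cancel, mul_one, one_mul, inv_one, C])
  have k2 : o.lt (P * f⁻¹) (f * Q⁻¹) ↔ o.lt (1 * (f * P⁻¹)⁻¹) (1 * (Q * f⁻¹)⁻¹) := o.cv hδ (1) e10 (by simp only [mul_assoc, mul_inv_rev, inv_inv, mul_inv_cancel_left, inv_mul_cancel_left, mul_inv_cancel, inv_mul_cancel, mul_one, one_mul, inv_one, C]) (by simp only [mul_assoc, mul_inv_rev, inv_inv, mul_inv_cancel_left, inv_mul_cancel_left, mul_inv_cancel, inv_mul_cancel, mul_one, one_mul, inv_one, C])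
  have k3 : o.lt (Q * f⁻¹) (Q * x⁻¹) ↔ o.lt (1 * (Q * f⁻¹)) (1 * (Q * x⁻¹)) := o.cv hδ (1) e23 (by simp only [mul_assoc, mul_inv_rev, inv_inv, mul_inv_cancel_left, inv_mul_cancel_left, mul_inv_cancel, inv_mul_cancel, mul_one, one_mul, inv_one, C]) (by simp only [mul_assoc, mul_inv_rev, inv_inv, mul_inv_cancel_left, inv_mul_cancel_left, mul_inv_cancel, inv_mul_cancel, mul_one, one_mul, inv_one, C])
  have k4 : o.lt (f * Q⁻¹) (P * f⁻¹) ↔ o.lt (1 * (Q * f⁻¹)⁻¹) (1 * (f * P⁻¹)⁻¹) := o.cv hδ (1) e1 (by simp only [mul_assoc, mul_inv_rev, inv_inv, mul_inv_cancel_left, inv_mul_cancel_left, mul_inv_cancel, inv_mul_cancel, mul_one, one_mul, inv_one, C]) (by simp only [mul_assoc, mul_inv_rev, inv_inv, mul_inv_cancel_left, inv_mul_cancel_left, mul_inv_cancel, inv_mul_cancel, mul_one, one_mul, inv_one, C])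
  have k5 : o.lt (x * P⁻¹) (f * P⁻¹) ↔ o.lt (1 * (x * Q⁻¹)) (1 * (f * Q⁻¹)) := o.cv hδ (P * Q⁻¹) e11 (by simp only [mul_assoc, mul_inv_rev, inv_inv, mul_inv_cancel_left, inv_mul_cancel_left, mul_inv_cancel, inv_mul_cancel, mul_one, one_mul, inv_one, C]) (by simp only [mul_assoc, mul_inv_rev, inv_inv, mul_inv_cancel_left, inv_mul_cancel_left, mul_inv_cancel, inv_mul_cancel, mul_one, one_mul, inv_one, C])
  have k6 : o.lt (x * Q⁻¹) (P * f⁻¹) ↔ o.lt (1 * (x * Q⁻¹)) (1 * (P * f⁻¹)) := o.cv hδ (1) e28 (by simp only [mul_assoc, mul_inv_rev, inv_inv, mul_inv_cancel_left, inv_mul_cancel_left, mul_inv_cancel, inv_mul_cancel, mul_one, one_mul, inv_one, C]) (by simp only [mul_assoc, mul_inv_rev, inv_inv, mul_inv_cancel_left, inv_mul_cancel_left, mul_inv_cancel, inv_mul_cancel, mul_one, one_mul, inv_one, C])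
  have k7 : o.lt (x * P⁻¹) (Q * x⁻¹) ↔ o.lt (1 * (P * x⁻¹)⁻¹) (1 * (x * Q⁻¹)⁻¹) := o.cv hδ (1) e27 (by simp only [mul_assoc, mul_inv_rev, inv_inv, mul_inv_cancel_left, inv_mul_cancel_left, mul_inv_cancel, inv_mul_cancel, mul_one, one_mul, inv_one, C]) (by simp only [mul_assoc, mul_inv_rev, inv_inv, mul_inv_cancel_left, inv_mul_cancel_left, mul_inv_cancel, inv_mul_cancel, mul_one, one_mul, inv_one, C])
  have k8 : o.lt (x * Q⁻¹) (P * x⁻¹) ↔ o.lt (1 * (x * Q⁻¹)) (1 * (P * x⁻¹)) := o.cv hδ (1) e29 (by simp only [mul_assoc, mul_inv_rev, inv_inv, mul_inv_cancel_left, inv_mul_cancel_left, mul_inv_cancel, inv_mul_cancel, mul_one, one_mul, inv_one, C]) (by simp only [mul_assoc, mul_inv_rev, inv_inv, mul_inv_cancel_left, inv_mul_cancel_left, mul_inv_cancel, inv_mul_cancel, mul_one, one_mul, inv_one, C])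
  have k9 : o.lt (g * Q⁻¹) (P * g⁻¹) ↔ o.lt (1 * (g * Q⁻¹)) (1 * (P * g⁻¹)) := o.cv hδ (1) e33 (by simp only [mul_assoc, mul_inv_rev, inv_inv, mul_inv_cancel_left, inv_mul_cancel_left, mul_inv_cancel, inv_mul_cancel, mul_one, one_mul, inv_one, C]) (by simp only [mul_assoc, mul_inv_rev, inv_inv, mul_inv_cancel_left, inv_mul_cancel_left, mul_inv_cancel, inv_mul_cancel, mul_one, one_mul, inv_one, C])
  have k10 : o.lt (P * x⁻¹) (P * g⁻¹) ↔ o.lt (1 * (P * x⁻¹)) (1 * (P * g⁻¹)) := o.cv hδ (1) e25 (by simp only [mul_assoc, mul_inv_rev, inv_inv, mul_inv_cancel_left, inv_mul_cancel_left, mul_inv_cancel, inv_mul_cancel, mul_one, one_mul, inv_one, C]) (by simp only [mul_assoc, mul_inv_rev, inv_inv, mul_inv_cancel_left, inv_mul_cancel_left, mul_inv_cancel, inv_mul_cancel, mul_one, one_mul, inv_one, C])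
  have k11 : o.lt (g) (x) ↔ o.lt (1 * g) (1 * x) := o.cv hδ (1) e42 (by simp only [mul_assoc, mul_inv_rev, inv_inv, mul_inv_cancel_left, inv_mul_cancel_left, mul_inv_cancel, inv_mul_cancel, mul_one, one_mul, inv_one, C]) (by simp only [mul_assoc, mul_inv_rev, inv_inv, mul_inv_cancel_left, inv_mul_cancel_left, mul_inv_cancel, inv_mul_cancel, mul_one, one_mul, inv_one, C])
  have k12 : o.lt (P * x⁻¹) (g * Q⁻¹) ↔ o.lt (1 * (P * x⁻¹)) (1 * (g * Q⁻¹)) := o.cv hδ (1) e26 (by simp only [mul_assoc, mul_inv_rev, inv_inv, mul_inv_cancel_left, inv_mul_cancel_left, mul_inv_cancel, inv_mul_cancel, mul_one, one_mul, inv_one, C]) (by simp only [mul_assoc, mul_inv_rev, inv_inv, mul_inv_cancel_left, inv_mul_cancel_left, mul_inv_cancel, inv_mul_cancel, mul_one, one_mul, inv_one, C])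
  have k13 : o.lt (Q * x⁻¹) (g * P⁻¹) ↔ o.lt (1 * (x * Q⁻¹)⁻¹) (1 * (P * g⁻¹)⁻¹) := o.cv hδ (1) e40 (by simp only [mul_assoc, mul_inv_rev, inv_inv, mul_inv_cancel_left, inv_mul_cancel_left, mul_inv_cancel, inv_mul_cancel, mul_one, one_mul, inv_one, C]) (by simp only [mul_assoc, mul_inv_rev, inv_inv, mul_inv_cancel_left, inv_mul_cancel_left, mul_inv_cancel, inv_mul_cancel, mul_one, one_mul, inv_one, C])
  have k14 : o.lt (Q * g⁻¹) (g * P⁻¹) ↔ o.lt (1 * (Q * g⁻¹)) (1 * (g * P⁻¹)) := o.cv hδ (1) e35 (by simp only [mul_assoc, mul_inv_rev, inv_inv, mul_inv_cancel_left, inv_mul_cancel_left, mul_inv_cancel, inv_mul_cancel, mul_one, one_mul, inv_one, C]) (by simp only [mul_assoc, mul_inv_rev, inv_inv, mul_inv_cancel_left, inv_mul_cancel_left, mul_inv_cancel, inv_mul_cancel, mul_one, one_mul, inv_one, C])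
  have k15 : o.lt (Q * x⁻¹) (x * P⁻¹) ↔ o.lt (1 * (Q * x⁻¹)) (1 * (x * P⁻¹)) := o.cv hδ (1) e34 (by simp only [mul_assoc, mul_inv_rev, inv_inv, mul_inv_cancel_left, inv_mul_cancel_left, mul_inv_cancel, inv_mul_cancel, mul_one, one_mul, inv_one, C]) (by simp only [mul_assoc, mul_inv_rev, inv_inv, mul_inv_cancel_left, inv_mul_cancel_left, mul_inv_cancel, inv_mul_cancel, mul_one, one_mul, inv_one, C])
  have k16 : o.lt (Q * x⁻¹) (Q * g⁻¹) ↔ o.lt (1 * (Q * x⁻¹)) (1 * (Q * g⁻¹)) := o.cv hδ (1) e41 (by simp only [mul_assoc, mul_inv_rev, inv_inv, mul_inv_cancel_left, inv_mul_cancel_left, mul_inv_cancel, inv_mul_cancel, mul_one, one_mul, inv_one, C]) (by simp only [mul_assoc, mul_inv_rev, inv_inv, mul_inv_cancel_left, inv_mul_cancel_left, mul_inv_cancel, inv_mul_cancel, mul_one, one_mul, inv_one, C])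
  have k17 : o.lt (f * (Q⁻¹ * (f * P⁻¹))) (f * (Q⁻¹ * (x * P⁻¹))) ↔ o.lt ((f * Q⁻¹) * (f * P⁻¹)) ((f * Q⁻¹) * (x * P⁻¹)) := o.cv hδ (1) e0 (by simp only [mul_assoc, mul_inv_rev, inv_inv, mul_inv_cancel_left, inv_mul_cancel_left, mul_inv_cancel, inv_mul_cancel, mul_one, one_mul, inv_one, C]) (by simp only [mul_assoc, mul_inv_rev, inv_inv, mul_inv_cancel_left, inv_mul_cancel_left, mul_inv_cancel, inv_mul_cancel, mul_one, one_mul, inv_one, C])
  have k18 : o.lt (f * (Q⁻¹ * (f * P⁻¹))) (f * x⁻¹) ↔ o.lt ((f * Q⁻¹) * (f * P⁻¹)) ((f * Q⁻¹) * (Q * x⁻¹)) := o.cv hδ (1) e2 (by simp only [mul_assoc, mul_inv_rev, inv_inv, mul_inv_cancel_left, inv_mul_cancel_left, mul_inv_cancel, inv_mul_cancel, mul_one, one_mul, inv_one, C]) (by simp only [mul_assoc, mul_inv_rev, inv_inv, mul_inv_cancel_left, inv_mul_cancel_left, mul_inv_cancel, inv_mul_cancel, mul_one, one_mul, inv_one, C])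
  have k19 : o.lt (Q * f⁻¹) (f * (Q⁻¹ * (P * f⁻¹))) ↔ o.lt ((f * Q⁻¹) * (Q * f⁻¹)⁻¹) ((f * Q⁻¹) * (f * P⁻¹)⁻¹) := o.cv hδ (f * (Q⁻¹ * (f * (Q⁻¹ * (f * Q⁻¹))))) e13 (by simp only [mul_assoc, mul_inv_rev, inv_inv, mul_inv_cancel_left, inv_mul_cancel_left, mul_inv_cancel, inv_mul_cancel, mul_one, one_mul, inv_one, C]) (by simp only [mul_assoc, mul_inv_rev, inv_inv, mul_inv_cancel_left, inv_mul_cancel_left, mul_inv_cancel, inv_mul_cancel, mul_one, one_mul, inv_one, C])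
  have k20 : o.lt (f * x⁻¹) (1) ↔ o.lt ((f * Q⁻¹) * (Q * x⁻¹)) ((f * Q⁻¹) * (Q * f⁻¹)) := o.cv hδ (1) e17 (by simp only [mul_assoc, mul_inv_rev, inv_inv, mul_inv_cancel_left, inv_mul_cancel_left, mul_inv_cancel, inv_mul_cancel, mul_one, one_mul, inv_one, C]) (by simp only [mul_assoc, mul_inv_rev, inv_inv, mul_inv_cancel_left, inv_mul_cancel_left, mul_inv_cancel, inv_mul_cancel, mul_one, one_mul, inv_one, C])
  have k21 : o.lt (f * (Q⁻¹ * (P * f⁻¹))) (Q * f⁻¹) ↔ o.lt ((f * Q⁻¹) * (f * P⁻¹)⁻¹) ((f * Q⁻¹) * (Q * f⁻¹)⁻¹) := o.cv hδ (1) e4 (by simp only [mul_assoc, mul_inv_rev, inv_inv, mul_inv_cancel_left, inv_mul_cancel_left, mul_inv_cancel, inv_mul_cancel, mul_one, one_mul, inv_one, C]) (by simp only [mul_assoc, mul_inv_rev, inv_inv, mul_inv_cancel_left, inv_mul_cancel_left, mul_inv_cancel, inv_mul_cancel, mul_one, one_mul, inv_one, C])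
  have k22 : o.lt (f * (Q⁻¹ * (g * P⁻¹))) (f * g⁻¹) ↔ o.lt ((f * Q⁻¹) * (g * P⁻¹)) ((f * Q⁻¹) * (Q * g⁻¹)) := o.cv hδ (1) e20 (by simp only [mul_assoc, mul_inv_rev, inv_inv, mul_inv_cancel_left, inv_mul_cancel_left, mul_inv_cancel, inv_mul_cancel, mul_one, one_mul, inv_one, C]) (by simp only [mul_assoc, mul_inv_rev, inv_inv, mul_inv_cancel_left, inv_mul_cancel_left, mul_inv_cancel, inv_mul_cancel, mul_one, one_mul, inv_one, C])
  have k23 : o.lt (f * (Q⁻¹ * (x * P⁻¹))) (f * x⁻¹) ↔ o.lt ((f * Q⁻¹) * (x * P⁻¹)) ((f * Q⁻¹) * (Q * x⁻¹)) := o.cv hδ (1) e8 (by simp only [mul_assoc, mul_inv_rev, inv_inv, mul_inv_cancel_left, inv_mul_cancel_left, mul_inv_cancel, inv_mul_cancel, mul_one, one_mul, inv_one, C]) (by simp only [mul_assoc, mul_inv_rev, inv_inv, mul_inv_cancel_left, inv_mul_cancel_left, mul_inv_cancel, inv_mul_cancel, mul_one, one_mul, inv_one, C])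
  have k24 : o.lt (f * g⁻¹) (f * x⁻¹) ↔ o.lt ((f * Q⁻¹) * (Q * g⁻¹)) ((f * Q⁻¹) * (Q * x⁻¹)) := o.cv hδ (1) e22 (by simp only [mul_assoc, mul_inv_rev, inv_inv, mul_inv_cancel_left, inv_mul_cancel_left, mul_inv_cancel, inv_mul_cancel, mul_one, one_mul, inv_one, C]) (by simp only [mul_assoc, mul_inv_rev, inv_inv, mul_inv_cancel_left, inv_mul_cancel_left, mul_inv_cancel, inv_mul_cancel, mul_one, one_mul, inv_one, C])
  have k25 : o.lt (f * (Q⁻¹ * x)) (f * (Q⁻¹ * g)) ↔ o.lt ((f * Q⁻¹) * x) ((f * Q⁻¹) * g) := o.cv hδ (1) e9 (by simp only [mul_assoc, mul_inv_rev, inv_inv, mul_inv_cancel_left, inv_mul_cancel_left, mul_inv_cancel, inv_mul_cancel, mul_one, one_mul, inv_one, C]) (by simp only [mul_assoc, mul_inv_rev, inv_inv, mul_inv_cancel_left, inv_mul_cancel_left, mul_inv_cancel, inv_mul_cancel, mul_one, one_mul, inv_one, C])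
  have k26 : o.lt (f * (Q⁻¹ * (f * g⁻¹))) (Q * (f⁻¹ * (g * P⁻¹))) ↔ o.lt ((Q * f⁻¹) * (Q * g⁻¹)) ((Q * f⁻¹) * (g * P⁻¹)) := o.cv hδ (g * (f⁻¹ * (Q * (f⁻¹ * (Q * (f⁻¹ * (Q * g⁻¹))))))) e6 (by simp only [mul_assoc, mul_inv_rev, inv_inv, mul_inv_cancel_left, inv_mul_cancel_left, mul_inv_cancel, inv_mul_cancel, mul_one, one_mul, inv_one, C]) (by simp only [mul_assoc, mul_inv_rev, inv_inv, mul_inv_cancel_left, inv_mul_cancel_left, mul_inv_cancel, inv_mul_cancel, mul_one, one_mul, inv_one, C])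
  have k27 : o.lt (f * (Q⁻¹ * (f * x⁻¹))) (Q * (f⁻¹ * (x * P⁻¹))) ↔ o.lt ((Q * f⁻¹) * (Q * x⁻¹)) ((Q * f⁻¹) * (x * P⁻¹)) := o.cv hδ (x * (f⁻¹ * (Q * (f⁻¹ * (Q * (f⁻¹ * (Q * x⁻¹))))))) e5 (by simp only [mul_assoc, mul_inv_rev, inv_inv, mul_inv_cancel_left, inv_mul_cancel_left, mul_inv_cancel, inv_mul_cancel, mul_one, one_mul, inv_one, C]) (by simp only [mul_assoc, mul_inv_rev, inv_inv, mul_inv_cancel_left, inv_mul_cancel_left, mul_inv_cancel, inv_mul_cancel, mul_one, one_mul, inv_one, C])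
  have k28 : o.lt (f * (Q⁻¹ * (f * x⁻¹))) (f * (Q⁻¹ * (f * g⁻¹))) ↔ o.lt ((Q * f⁻¹) * (Q * x⁻¹)) ((Q * f⁻¹) * (Q * g⁻¹)) := o.cv hδ (x * (f⁻¹ * (Q * (f⁻¹ * (Q * (f⁻¹ * (Q * x⁻¹))))))) e36 (by simp only [mul_assoc, mul_inv_rev, inv_inv, mul_inv_cancel_left, inv_mul_cancel_left, mul_inv_cancel, inv_mul_cancel, mul_one, one_mul, inv_one, C]) (by simp only [mul_assoc, mul_inv_rev, inv_inv, mul_inv_cancel_left, inv_mul_cancel_left, mul_inv_cancel, inv_mul_cancel, mul_one, one_mul, inv_one, C])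
  have k29 : o.lt (Q * (f⁻¹ * g)) (Q * (f⁻¹ * x)) ↔ o.lt ((Q * f⁻¹) * g) ((Q * f⁻¹) * x) := o.cv hδ (1) e37 (by simp only [mul_assoc, mul_inv_rev, inv_inv, mul_inv_cancel_left, inv_mul_cancel_left, mul_inv_cancel, inv_mul_cancel, mul_one, one_mul, inv_one, C]) (by simp only [mul_assoc, mul_inv_rev, inv_inv, mul_inv_cancel_left, inv_mul_cancel_left, mul_inv_cancel, inv_mul_cancel, mul_one, one_mul, inv_one, C])
  have k30 : o.lt (x * P⁻¹) (Q * x⁻¹) ↔ o.lt (P * x⁻¹) (Q * P⁻¹) := o.cv hδ (P * (x⁻¹ * (P * x⁻¹))) e27 (by simp only [mul_assoc, mul_inv_rev, inv_inv, mul_inv_cancel_left, inv_mul_cancel_left, mul_inv_cancel, inv_mul_cancel, mul_one, one_mul, inv_one, C]) (by simp only [mul_assoc, mul_inv_rev, inv_inv, mul_inv_cancel_left, inv_mul_cancel_left, mul_inv_cancel, inv_mul_cancel, mul_one, one_mul, inv_one, C])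
  have k31 : o.lt (Q * x⁻¹) (x * P⁻¹) ↔ o.lt (Q * P⁻¹) (P * x⁻¹) := o.cv hδ (x * P⁻¹) e34 (by simp only [mul_assoc, mul_inv_rev, inv_inv, mul_inv_cancel_left, inv_mul_cancel_left, mul_inv_cancel, inv_mul_cancel, mul_one, one_mul, inv_one, C]) (by simp only [mul_assoc, mul_inv_rev, inv_inv, mul_inv_cancel_left, inv_mul_cancel_left, mul_inv_cancel, inv_mul_cancel, mul_one, one_mul, inv_one, C])
  have k32 : o.lt (f * x⁻¹) (1) ↔ o.lt (f * Q⁻¹) (x * Q⁻¹) := o.cv hδ (x * Q⁻¹) e17 (by simp only [mul_assoc, mul_inv_rev, inv_inv, mul_inv_cancel_left, inv_mul_cancel_left, mul_inv_cancel, inv_mul_cancel, mul_one, one_mul, inv_one, C]) (by simp only [mul_assoc, mul_inv_rev, inv_inv, mul_inv_cancel_left, inv_mul_cancel_left, mul_inv_cancel, inv_mul_cancel, mul_one, one_mul, inv_one, C])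
  have k33 : o.lt (x * P⁻¹) (f * P⁻¹) ↔ o.lt (x * Q⁻¹) (f * Q⁻¹) := o.cv hδ (P * Q⁻¹) e11 (by simp only [mul_assoc, mul_inv_rev, inv_inv, mul_inv_cancel_left, inv_mul_cancel_left, mul_inv_cancel, inv_mul_cancel, mul_one, one_mul, inv_one, C]) (by simp only [mul_assoc, mul_inv_rev, inv_inv, mul_inv_cancel_left, inv_mul_cancel_left, mul_inv_cancel, inv_mul_cancel, mul_one, one_mul, inv_one, C])
  have k34 : o.lt (f * Q⁻¹) (g * Q⁻¹) ↔ o.lt (f * Q⁻¹) (g * Q⁻¹) := o.cv hδ (1) e21 (by simp only [mul_assoc, mul_inv_rev, inv_inv, mul_inv_cancel_left, inv_mul_cancel_left, mul_inv_cancel, inv_mul_cancel, mul_one, one_mul, inv_one, C]) (by simp only [mul_assoc, mul_inv_rev, inv_inv, mul_inv_cancel_left, inv_mul_cancel_left, mul_inv_cancel, inv_mul_cancel, mul_one, one_mul, inv_one, C])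
  have k35 : o.lt (g * Q⁻¹) (f * Q⁻¹) ↔ o.lt (g * Q⁻¹) (f * Q⁻¹) := o.cv hδ (1) e12 (by simp only [mul_assoc, mul_inv_rev, inv_inv, mul_inv_cancel_left, inv_mul_cancel_left, mul_inv_cancel, inv_mul_cancel, mul_one, one_mul, inv_one, C]) (by simp only [mul_assoc, mul_inv_rev, inv_inv, mul_inv_cancel_left, inv_mul_cancel_left, mul_inv_cancel, inv_mul_cancel, mul_one, one_mul, inv_one, C])
  have k36 : o.lt (f * Q⁻¹) (P * g⁻¹) ↔ o.lt (f * Q⁻¹) (P * g⁻¹) := o.cv hδ (1) e19 (by simp only [mul_assoc, mul_inv_rev, inv_inv, mul_inv_cancel_left, inv_mul_cancel_left, mul_inv_cancel, inv_mul_cancel, mul_one, one_mul, inv_one, C]) (by simp only [mul_assoc, mul_inv_rev, inv_inv, mul_inv_cancel_left, inv_mul_cancel_left, mul_inv_cancel, inv_mul_cancel, mul_one, one_mul, inv_one, C])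
  have k37 : o.lt (P * g⁻¹) (g * Q⁻¹) ↔ o.lt (P * g⁻¹) (g * Q⁻¹) := o.cv hδ (1) e31 (by simp only [mul_assoc, mul_inv_rev, inv_inv, mul_inv_cancel_left, inv_mul_cancel_left, mul_inv_cancel, inv_mul_cancel, mul_one, one_mul, inv_one, C]) (by simp only [mul_assoc, mul_inv_rev, inv_inv, mul_inv_cancel_left, inv_mul_cancel_left, mul_inv_cancel, inv_mul_cancel, mul_one, one_mul, inv_one, C])
  have k38 : o.lt (f * (Q⁻¹ * (P * f⁻¹))) (Q * f⁻¹) ↔ o.lt (f * Q⁻¹) (Q * P⁻¹) := o.cv hδ (f * P⁻¹) e4 (by simp only [mul_assoc, mul_inv_rev, inv_inv, mul_inv_cancel_left, inv_mul_cancel_left, mul_inv_cancel, inv_mul_cancel, mul_one, one_mul, inv_one, C]) (by simp only [mul_assoc, mul_inv_rev, inv_inv, mul_inv_cancel_left, inv_mul_cancel_left, mul_inv_cancel, inv_mul_cancel, mul_one, one_mul, inv_one, C])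
  have k39 : o.lt (P * g⁻¹) (Q * P⁻¹) ↔ o.lt (P * g⁻¹) (Q * P⁻¹) := o.cv hδ (1) e32 (by simp only [mul_assoc, mul_inv_rev, inv_inv, mul_inv_cancel_left, inv_mul_cancel_left, mul_inv_cancel, inv_mul_cancel, mul_one, one_mul, inv_one, C]) (by simp only [mul_assoc, mul_inv_rev, inv_inv, mul_inv_cancel_left, inv_mul_cancel_left, mul_inv_cancel, inv_mul_cancel, mul_one, one_mul, inv_one, C])
  have k40 : o.lt (x * Q⁻¹) (P * f⁻¹) ↔ o.lt (x * Q⁻¹) (P * f⁻¹) := o.cv hδ (1) e28 (by simp only [mul_assoc, mul_inv_rev, inv_inv, mul_inv_cancel_left, inv_mul_cancel_left, mul_inv_cancel, inv_mul_cancel, mul_one, one_mul, inv_one, C]) (by simp only [mul_assoc, mul_inv_rev, inv_inv, mul_inv_cancel_left, inv_mul_cancel_left, mul_inv_cancel, inv_mul_cancel, mul_one, one_mul, inv_one, C])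
  have k41 : o.lt (f * Q⁻¹) (P * f⁻¹) ↔ o.lt (f * Q⁻¹) (P * f⁻¹) := o.cv hδ (1) e1 (by simp only [mul_assoc, mul_inv_rev, inv_inv, mul_inv_cancel_left, inv_mul_cancel_left, mul_inv_cancel, inv_mul_cancel, mul_one, one_mul, inv_one, C]) (by simp only [mul_assoc, mul_inv_rev, inv_inv, mul_inv_cancel_left, inv_mul_cancel_left, mul_inv_cancel, inv_mul_cancel, mul_one, one_mul, inv_one, C])
  have k42 : o.lt (x * Q⁻¹) (g * Q⁻¹) ↔ o.lt (x * Q⁻¹) (g * Q⁻¹) := o.cv hδ (1) e30 (by simp only [mul_assoc, mul_inv_rev, inv_inv, mul_inv_cancel_left, inv_mul_cancel_left, mul_inv_cancel, inv_mul_cancel, mul_one, one_mul, inv_one, C]) (by simp only [mul_assoc, mul_inv_rev, inv_inv, mul_inv_cancel_left, inv_mul_cancel_left, mul_inv_cancel, inv_mul_cancel, mul_one, one_mul, inv_one, C])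
  have k43 : o.lt (x * Q⁻¹) (P * x⁻¹) ↔ o.lt (x * Q⁻¹) (P * x⁻¹) := o.cv hδ (1) e29 (by simp only [mul_assoc, mul_inv_rev, inv_inv, mul_inv_cancel_left, inv_mul_cancel_left, mul_inv_cancel, inv_mul_cancel, mul_one, one_mul, inv_one, C]) (by simp only [mul_assoc, mul_inv_rev, inv_inv, mul_inv_cancel_left, inv_mul_cancel_left, mul_inv_cancel, inv_mul_cancel, mul_one, one_mul, inv_one, C])
  have k44 : o.lt (P * x⁻¹) (g * Q⁻¹) ↔ o.lt (P * x⁻¹) (g * Q⁻¹) := o.cv hδ (1) e26 (by simp only [mul_assoc, mul_inv_rev, inv_inv, mul_inv_cancel_left, inv_mul_cancel_left, mul_inv_cancel, inv_mul_cancel, mul_one, one_mul, inv_one, C]) (by simp only [mul_assoc, mul_inv_rev, inv_inv, mul_inv_cancel_left, inv_mul_cancel_left, mul_inv_cancel, inv_mul_cancel, mul_one, one_mul, inv_one, C])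
  have k45 : o.lt (Q * g⁻¹) (g * P⁻¹) ↔ o.lt (Q * P⁻¹) (P * g⁻¹) := o.cv hδ (g * P⁻¹) e35 (by simp only [mul_assoc, mul_inv_rev, inv_inv, mul_inv_cancel_left, inv_mul_cancel_left, mul_inv_cancel, inv_mul_cancel, mul_one, one_mul, inv_one, C]) (by simp only [mul_assoc, mul_inv_rev, inv_inv, mul_inv_cancel_left, inv_mul_cancel_left, mul_inv_cancel, inv_mul_cancel, mul_one, one_mul, inv_one, C])
  have k46 : o.lt (g * Q⁻¹) (P * g⁻¹) ↔ o.lt (g * Q⁻¹) (P * g⁻¹) := o.cv hδ (1) e33 (by simp only [mul_assoc, mul_inv_rev, inv_inv, mul_inv_cancel_left, inv_mul_cancel_left, mul_inv_cancel, inv_mul_cancel, mul_one, one_mul, inv_one, C]) (by simp only [mul_assoc, mul_inv_rev, inv_inv, mul_inv_cancel_left, inv_mul_cancel_left, mul_inv_cancel, inv_mul_cancel, mul_one, one_mul, inv_one, C])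
  have k47 : o.lt (Q * f⁻¹) (f * (Q⁻¹ * (P * f⁻¹))) ↔ o.lt (Q * P⁻¹) (f * Q⁻¹) := o.cv hδ (f * P⁻¹) e13 (by simp only [mul_assoc, mul_inv_rev, inv_inv, mul_inv_cancel_left, inv_mul_cancel_left, mul_inv_cancel, inv_mul_cancel, mul_one, one_mul, inv_one, C]) (by simp only [mul_assoc, mul_inv_rev, inv_inv, mul_inv_cancel_left, inv_mul_cancel_left, mul_inv_cancel, inv_mul_cancel, mul_one, one_mul, inv_one, C])
  have k48 : o.lt (x * P⁻¹) (f * P⁻¹) ↔ o.lt (x * P⁻¹) (f * P⁻¹) := o.cv hδ (1) e11 (by simp only [mul_assoc, mul_inv_rev, inv_inv, mul_inv_cancel_left, inv_mul_cancel_left, mul_inv_cancel, inv_mul_cancel, mul_one, one_mul, inv_one, C]) (by simp only [mul_assoc, mul_inv_rev, inv_inv, mul_inv_cancel_left, inv_mul_cancel_left, mul_inv_cancel, inv_mul_cancel, mul_one, one_mul, inv_one, C])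
  have k49 : o.lt (x * P⁻¹) (Q * x⁻¹) ↔ o.lt (x * P⁻¹) (Q * x⁻¹) := o.cv hδ (1) e27 (by simp only [mul_assoc, mul_inv_rev, inv_inv, mul_inv_cancel_left, inv_mul_cancel_left, mul_inv_cancel, inv_mul_cancel, mul_one, one_mul, inv_one, C]) (by simp only [mul_assoc, mul_inv_rev, inv_inv, mul_inv_cancel_left, inv_mul_cancel_left, mul_inv_cancel, inv_mul_cancel, mul_one, one_mul, inv_one, C])
  have k50 : o.lt (Q * x⁻¹) (f * P⁻¹) ↔ o.lt (Q * x⁻¹) (f * P⁻¹) := o.cv hδ (1) e39 (by simp only [mul_assoc, mul_inv_rev, inv_inv, mul_inv_cancel_left, inv_mul_cancel_left, mul_inv_cancel, inv_mul_cancel, mul_one, one_mul, inv_one, C]) (by simp only [mul_assoc, mul_inv_rev, inv_inv, mul_inv_cancel_left, inv_mul_cancel_left, mul_inv_cancel, inv_mul_cancel, mul_one, one_mul, inv_one, C])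
  have k51 : o.lt (x * P⁻¹) (g * P⁻¹) ↔ o.lt (x * P⁻¹) (g * P⁻¹) := o.cv hδ (1) e38 (by simp only [mul_assoc, mul_inv_rev, inv_inv, mul_inv_cancel_left, inv_mul_cancel_left, mul_inv_cancel, inv_mul_cancel, mul_one, one_mul, inv_one, C]) (by simp only [mul_assoc, mul_inv_rev, inv_inv, mul_inv_cancel_left, inv_mul_cancel_left, mul_inv_cancel, inv_mul_cancel, mul_one, one_mul, inv_one, C])
  have k52 : o.lt (g * Q⁻¹) (f * Q⁻¹) ↔ o.lt (g * P⁻¹) (f * P⁻¹) := o.cv hδ (Q * P⁻¹) e12 (by simp only [mul_assoc, mul_inv_rev, inv_inv, mul_inv_cancel_left, inv_mul_cancel_left, mul_inv_cancel, inv_mul_cancel, mul_one, one_mul, inv_one, C]) (by simp only [mul_assoc, mul_inv_rev, inv_inv, mul_inv_cancel_left, inv_mul_cancel_left, mul_inv_cancel, inv_mul_cancel, mul_one, one_mul, inv_one, C])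
  have k53 : o.lt (x * P⁻¹) (Q * f⁻¹) ↔ o.lt (x * P⁻¹) (Q * f⁻¹) := o.cv hδ (1) e14 (by simp only [mul_assoc, mul_inv_rev, inv_inv, mul_inv_cancel_left, inv_mul_cancel_left, mul_inv_cancel, inv_mul_cancel, mul_one, one_mul, inv_one, C]) (by simp only [mul_assoc, mul_inv_rev, inv_inv, mul_inv_cancel_left, inv_mul_cancel_left, mul_inv_cancel, inv_mul_cancel, mul_one, one_mul, inv_one, C])
  have k54 : o.lt (Q * x⁻¹) (Q * f⁻¹) ↔ o.lt (Q * x⁻¹) (Q * f⁻¹) := o.cv hδ (1) e15 (by simp only [mul_assoc, mul_inv_rev, inv_inv, mul_inv_cancel_left, inv_mul_cancel_left, mul_inv_cancel, inv_mul_cancel, mul_one, one_mul, inv_one, C]) (by simp only [mul_assoc, mul_inv_rev, inv_inv, mul_inv_cancel_left, inv_mul_cancel_left, mul_inv_cancel, inv_mul_cancel, mul_one, one_mul, inv_one, C])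
  have k55 : o.lt (g) (x) ↔ o.lt (g * P⁻¹) (x * P⁻¹) := o.cv hδ (P⁻¹) e42 (by simp only [mul_assoc, mul_inv_rev, inv_inv, mul_inv_cancel_left, inv_mul_cancel_left, mul_inv_cancel, inv_mul_cancel, mul_one, one_mul, inv_one, C]) (by simp only [mul_assoc, mul_inv_rev, inv_inv, mul_inv_cancel_left, inv_mul_cancel_left, mul_inv_cancel, inv_mul_cancel, mul_one, one_mul, inv_one, C])
  have k56 : o.lt (Q * f⁻¹) (Q * x⁻¹) ↔ o.lt (Q * f⁻¹) (Q * x⁻¹) := o.cv hδ (1) e23 (by simp only [mul_assoc, mul_inv_rev, inv_inv, mul_inv_cancel_left, inv_mul_cancel_left, mul_inv_cancel, inv_mul_cancel, mul_one, one_mul, inv_one, C]) (by simp only [mul_assoc, mul_inv_rev, inv_inv, mul_inv_cancel_left, inv_mul_cancel_left, mul_inv_cancel, inv_mul_cancel, mul_one, one_mul, inv_one, C])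
  have k57 : o.lt (f * Q⁻¹) (P * f⁻¹) ↔ o.lt (Q * f⁻¹) (P * Q⁻¹) := o.cv hδ (Q * (f⁻¹ * (Q * f⁻¹))) e1 (by simp only [mul_assoc, mul_inv_rev, inv_inv, mul_inv_cancel_left, inv_mul_cancel_left, mul_inv_cancel, inv_mul_cancel, mul_one, one_mul, inv_one, C]) (by simp only [mul_assoc, mul_inv_rev, inv_inv, mul_inv_cancel_left, inv_mul_cancel_left, mul_inv_cancel, inv_mul_cancel, mul_one, one_mul, inv_one, C])
  have k58 : o.lt (Q * f⁻¹) (Q * g⁻¹) ↔ o.lt (Q * f⁻¹) (Q * g⁻¹) := o.cv hδ (1) e24 (by simp only [mul_assoc, mul_inv_rev, inv_inv, mul_inv_cancel_left, inv_mul_cancel_left, mul_inv_cancel, inv_mul_cancel, mul_one, one_mul, inv_one, C]) (by simp only [mul_assoc, mul_inv_rev, inv_inv, mul_inv_cancel_left, inv_mul_cancel_left, mul_inv_cancel, inv_mul_cancel, mul_one, one_mul, inv_one, C])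
  have k59 : o.lt (g * Q⁻¹) (P * g⁻¹) ↔ o.lt (Q * g⁻¹) (P * Q⁻¹) := o.cv hδ (Q * (g⁻¹ * (Q * g⁻¹))) e33 (by simp only [mul_assoc, mul_inv_rev, inv_inv, mul_inv_cancel_left, inv_mul_cancel_left, mul_inv_cancel, inv_mul_cancel, mul_one, one_mul, inv_one, C]) (by simp only [mul_assoc, mul_inv_rev, inv_inv, mul_inv_cancel_left, inv_mul_cancel_left, mul_inv_cancel, inv_mul_cancel, mul_one, one_mul, inv_one, C])
  have k60 : o.lt (Q * x⁻¹) (g * P⁻¹) ↔ o.lt (Q * x⁻¹) (g * P⁻¹) := o.cv hδ (1) e40 (by simp only [mul_assoc, mul_inv_rev, inv_inv, mul_inv_cancel_left, inv_mul_cancel_left, mul_inv_cancel, inv_mul_cancel, mul_one, one_mul, inv_one, C]) (by simp only [mul_assoc, mul_inv_rev, inv_inv, mul_inv_cancel_left, inv_mul_cancel_left, mul_inv_cancel, inv_mul_cancel, mul_one, one_mul, inv_one, C])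
  have k61 : o.lt (g * P⁻¹) (Q * x⁻¹) ↔ o.lt (g * P⁻¹) (Q * x⁻¹) := o.cv hδ (1) e43 (by simp only [mul_assoc, mul_inv_rev, inv_inv, mul_inv_cancel_left, inv_mul_cancel_left, mul_inv_cancel, inv_mul_cancel, mul_one, one_mul, inv_one, C]) (by simp only [mul_assoc, mul_inv_rev, inv_inv, mul_inv_cancel_left, inv_mul_cancel_left, mul_inv_cancel, inv_mul_cancel, mul_one, one_mul, inv_one, C])
  have k62 : o.lt (Q * x⁻¹) (Q * g⁻¹) ↔ o.lt (Q * x⁻¹) (Q * g⁻¹) := o.cv hδ (1) e41 (by simp only [mul_assoc, mul_inv_rev, inv_inv, mul_inv_cancel_left, inv_mul_cancel_left, mul_inv_cancel, inv_mul_cancel, mul_one, one_mul, inv_one, C]) (by simp only [mul_assoc, mul_inv_rev, inv_inv, mul_inv_cancel_left, inv_mul_cancel_left, mul_inv_cancel, inv_mul_cancel, mul_one, one_mul, inv_one, C])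
  have k63 : o.lt (Q * g⁻¹) (g * P⁻¹) ↔ o.lt (Q * g⁻¹) (g * P⁻¹) := o.cv hδ (1) e35 (by simp only [mul_assoc, mul_inv_rev, inv_inv, mul_inv_cancel_left, inv_mul_cancel_left, mul_inv_cancel, inv_mul_cancel, mul_one, one_mul, inv_one, C]) (by simp only [mul_assoc, mul_inv_rev, inv_inv, mul_inv_cancel_left, inv_mul_cancel_left, mul_inv_cancel, inv_mul_cancel, mul_one, one_mul, inv_one, C])
  have k64 : o.lt (x * Q⁻¹) (P * x⁻¹) ↔ o.lt (Q * x⁻¹) (P * Q⁻¹) := o.cv hδ (Q * (x⁻¹ * (Q * x⁻¹))) e29 (by simp only [mul_assoc, mul_inv_rev, inv_inv, mul_inv_cancel_left, inv_mul_cancel_left, mul_inv_cancel, inv_mul_cancel, mul_one, one_mul, inv_one, C]) (by simp only [mul_assoc, mul_inv_rev, inv_inv, mul_inv_cancel_left, inv_mul_cancel_left, mul_inv_cancel, inv_mul_cancel, mul_one, one_mul, inv_one, C])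
  have k65 : o.lt (g * P⁻¹) (Q * f⁻¹) ↔ o.lt (g * P⁻¹) (Q * f⁻¹) := o.cv hδ (1) e16 (by simp only [mul_assoc, mul_inv_rev, inv_inv, mul_inv_cancel_left, inv_mul_cancel_left, mul_inv_cancel, inv_mul_cancel, mul_one, one_mul, inv_one, C]) (by simp only [mul_assoc, mul_inv_rev, inv_inv, mul_inv_cancel_left, inv_mul_cancel_left, mul_inv_cancel, inv_mul_cancel, mul_one, one_mul, inv_one, C])
  have k66 : o.lt (P * g⁻¹) (g * Q⁻¹) ↔ o.lt (P * Q⁻¹) (Q * g⁻¹) := o.cv hδ (g * Q⁻¹) e31 (by simp only [mul_assoc, mul_inv_rev, inv_inv, mul_inv_cancel_left, inv_mul_cancel_left, mul_inv_cancel, inv_mul_cancel, mul_one, one_mul, inv_one, C]) (by simp only [mul_assoc, mul_inv_rev, inv_inv, mul_inv_cancel_left, inv_mul_cancel_left, mul_inv_cancel, inv_mul_cancel, mul_one, one_mul, inv_one, C])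
  have k67 : o.lt (P * f⁻¹) (f * Q⁻¹) ↔ o.lt (P * Q⁻¹) (Q * f⁻¹) := o.cv hδ (f * Q⁻¹) e10 (by simp only [mul_assoc, mul_inv_rev, inv_inv, mul_inv_cancel_left, inv_mul_cancel_left, mul_inv_cancel, inv_mul_cancel, mul_one, one_mul, inv_one, C]) (by simp only [mul_assoc, mul_inv_rev, inv_inv, mul_inv_cancel_left, inv_mul_cancel_left, mul_inv_cancel, inv_mul_cancel, mul_one, one_mul, inv_one, C])
  have k68 : o.lt (f * (Q⁻¹ * (f * P⁻¹))) (f * (Q⁻¹ * (x * P⁻¹))) ↔ o.lt (Q * f⁻¹) (f * (Q⁻¹ * (x * Q⁻¹))) := o.cv hδ (P * (f⁻¹ * (Q * (f⁻¹ * (Q * f⁻¹))))) e0 (by simp only [mul_assoc, mul_inv_rev, inv_inv, mul_inv_cancel_left, inv_mul_cancel_left, mul_inv_cancel, inv_mul_cancel, mul_one, one_mul, inv_one, C]) (by simp only [mul_assoc, mul_inv_rev, inv_inv, mul_inv_cancel_left, inv_mul_cancel_left, mul_inv_cancel, inv_mul_cancel, mul_one, one_mul, inv_one, C])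
  have k69 : o.lt (f * (Q⁻¹ * (x * Q⁻¹))) (Q * f⁻¹) ↔ o.lt (f * (Q⁻¹ * (x * Q⁻¹))) (Q * f⁻¹) := o.cv hδ (1) e7 (by simp only [mul_assoc, mul_inv_rev, inv_inv, mul_inv_cancel_left, inv_mul_cancel_left, mul_inv_cancel, inv_mul_cancel, mul_one, one_mul, inv_one, C]) (by simp only [mul_assoc, mul_inv_rev, inv_inv, mul_inv_cancel_left, inv_mul_cancel_left, mul_inv_cancel, inv_mul_cancel, mul_one, one_mul, inv_one, C])
  have k70 : o.lt (Q * f⁻¹) (f * (Q⁻¹ * (g * Q⁻¹))) ↔ o.lt (Q * f⁻¹) (f * (Q⁻¹ * (g * Q⁻¹))) := o.cv hδ (1) e3 (by simp only [mul_assoc, mul_inv_rev, inv_inv, mul_inv_cancel_left, inv_mul_cancel_left, mul_inv_cancel, inv_mul_cancel, mul_one, one_mul, inv_one, C]) (by simp only [mul_assoc, mul_inv_rev, inv_inv, mul_inv_cancel_left, inv_mul_cancel_left, mul_inv_cancel, inv_mul_cancel, mul_one, one_mul, inv_one, C])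
  have k71 : o.lt (g * Q⁻¹) (f * Q⁻¹) ↔ o.lt (Q * g⁻¹) (f * (Q⁻¹ * (g * Q⁻¹))) := o.cv hδ (Q * (g⁻¹ * (Q * g⁻¹))) e12 (by simp only [mul_assoc, mul_inv_rev, inv_inv, mul_inv_cancel_left, inv_mul_cancel_left, mul_inv_cancel, inv_mul_cancel, mul_one, one_mul, inv_one, C]) (by simp only [mul_assoc, mul_inv_rev, inv_inv, mul_inv_cancel_left, inv_mul_cancel_left, mul_inv_cancel, inv_mul_cancel, mul_one, one_mul, inv_one, C])
  have k72 : o.lt (f * (Q⁻¹ * (f * P⁻¹))) (f * (Q⁻¹ * (x * P⁻¹))) ↔ o.lt (f * (Q⁻¹ * (f * P⁻¹))) (f * (Q⁻¹ * (x * P⁻¹))) := o.cv hδ (1) e0 (by simp only [mul_assoc, mul_inv_rev, inv_inv, mul_inv_cancel_left, inv_mul_cancel_left, mul_inv_cancel, inv_mul_cancel, mul_one, one_mul, inv_one, C]) (by simp only [mul_assoc, mul_inv_rev, inv_inv, mul_inv_cancel_left, inv_mul_cancel_left, mul_inv_cancel, inv_mul_cancel, mul_one, one_mul, inv_one, C])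
  have k73 : o.lt (Q * f⁻¹) (f * (Q⁻¹ * (g * Q⁻¹))) ↔ o.lt (f * (Q⁻¹ * (f * P⁻¹))) (f * (Q⁻¹ * (g * P⁻¹))) := o.cv hδ (f * (Q⁻¹ * (f * (Q⁻¹ * (f * P⁻¹))))) e3 (by simp only [mul_assoc, mul_inv_rev, inv_inv, mul_inv_cancel_left, inv_mul_cancel_left, mul_inv_cancel, inv_mul_cancel, mul_one, one_mul, inv_one, C]) (by simp only [mul_assoc, mul_inv_rev, inv_inv, mul_inv_cancel_left, inv_mul_cancel_left, mul_inv_cancel, inv_mul_cancel, mul_one, one_mul, inv_one, C])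
  have k74 : o.lt (f * (Q⁻¹ * (g * P⁻¹))) (f * (Q⁻¹ * (x * P⁻¹))) ↔ o.lt (f * (Q⁻¹ * (g * P⁻¹))) (f * (Q⁻¹ * (x * P⁻¹))) := o.cv hδ (1) e18 (by simp only [mul_assoc, mul_inv_rev, inv_inv, mul_inv_cancel_left, inv_mul_cancel_left, mul_inv_cancel, inv_mul_cancel, mul_one, one_mul, inv_one, C]) (by simp only [mul_assoc, mul_inv_rev, inv_inv, mul_inv_cancel_left, inv_mul_cancel_left, mul_inv_cancel, inv_mul_cancel, mul_one, one_mul, inv_one, C])
  have k75 : o.lt (f * (Q⁻¹ * (f * P⁻¹))) (f * x⁻¹) ↔ o.lt (f * (Q⁻¹ * (f * P⁻¹))) (f * x⁻¹) := o.cv hδ (1) e2 (by simp only [mul_assoc, mul_inv_rev, inv_inv, mul_inv_cancel_left, inv_mul_cancel_left, mul_inv_cancel, inv_mul_cancel, mul_one, one_mul, inv_one, C]) (by simp only [mul_assoc, mul_inv_rev, inv_inv, mul_inv_cancel_left, inv_mul_cancel_left, mul_inv_cancel, inv_mul_cancel, mul_one, one_mul, inv_one, C])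
  have k76 : o.lt (f * Q⁻¹) (P * f⁻¹) ↔ o.lt (f * (Q⁻¹ * (f * P⁻¹))) (1) := o.cv hδ (f * P⁻¹) e1 (by simp only [mul_assoc, mul_inv_rev, inv_inv, mul_inv_cancel_left, inv_mul_cancel_left, mul_inv_cancel, inv_mul_cancel, mul_one, one_mul, inv_one, C]) (by simp only [mul_assoc, mul_inv_rev, inv_inv, mul_inv_cancel_left, inv_mul_cancel_left, mul_inv_cancel, inv_mul_cancel, mul_one, one_mul, inv_one, C])
  have k77 : o.lt (x * P⁻¹) (f * P⁻¹) ↔ o.lt (1) (f * x⁻¹) := o.cv hδ (P * x⁻¹) e11 (by simp only [mul_assoc, mul_inv_rev, inv_inv, mul_inv_cancel_left, inv_mul_cancel_left, mul_inv_cancel, inv_mul_cancel, mul_one, one_mul, inv_one, C]) (by simp only [mul_assoc, mul_inv_rev, inv_inv, mul_inv_cancel_left, inv_mul_cancel_left, mul_inv_cancel, inv_mul_cancel, mul_one, one_mul, inv_one, C])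
  have k78 : o.lt (f * (Q⁻¹ * (x * P⁻¹))) (f * x⁻¹) ↔ o.lt (f * (Q⁻¹ * (x * P⁻¹))) (f * x⁻¹) := o.cv hδ (1) e8 (by simp only [mul_assoc, mul_inv_rev, inv_inv, mul_inv_cancel_left, inv_mul_cancel_left, mul_inv_cancel, inv_mul_cancel, mul_one, one_mul, inv_one, C]) (by simp only [mul_assoc, mul_inv_rev, inv_inv, mul_inv_cancel_left, inv_mul_cancel_left, mul_inv_cancel, inv_mul_cancel, mul_one, one_mul, inv_one, C])
  have k79 : o.lt (f * (Q⁻¹ * (x * Q⁻¹))) (Q * f⁻¹) ↔ o.lt (f * (Q⁻¹ * (x * P⁻¹))) (f * (Q⁻¹ * (f * P⁻¹))) := o.cv hδ (Q * P⁻¹) e7 (by simp only [mul_assoc, mul_inv_rev, inv_inv, mul_inv_cancel_left, inv_mul_cancel_left, mul_inv_cancel, inv_mul_cancel, mul_one, one_mul, inv_one, C]) (by simp only [mul_assoc, mul_inv_rev, inv_inv, mul_inv_cancel_left, inv_mul_cancel_left, mul_inv_cancel, inv_mul_cancel, mul_one, one_mul, inv_one, C])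
  have k80 : o.lt (f * (Q⁻¹ * x)) (f * (Q⁻¹ * g)) ↔ o.lt (f * (Q⁻¹ * (x * P⁻¹))) (f * (Q⁻¹ * (g * P⁻¹))) := o.cv hδ (P⁻¹) e9 (by simp only [mul_assoc, mul_inv_rev, inv_inv, mul_inv_cancel_left, inv_mul_cancel_left, mul_inv_cancel, inv_mul_cancel, mul_one, one_mul, inv_one, C]) (by simp only [mul_assoc, mul_inv_rev, inv_inv, mul_inv_cancel_left, inv_mul_cancel_left, mul_inv_cancel, inv_mul_cancel, mul_one, one_mul, inv_one, C])
  have k81 : o.lt (g * Q⁻¹) (f * Q⁻¹) ↔ o.lt (1) (f * g⁻¹) := o.cv hδ (Q * g⁻¹) e12 (by simp only [mul_assoc, mul_inv_rev, inv_inv, mul_inv_cancel_left, inv_mul_cancel_left, mul_inv_cancel, inv_mul_cancel, mul_one, one_mul, inv_one, C]) (by simp only [mul_assoc, mul_inv_rev, inv_inv, mul_inv_cancel_left, inv_mul_cancel_left, mul_inv_cancel, inv_mul_cancel, mul_one, one_mul, inv_one, C])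
  have k82 : o.lt (f * g⁻¹) (f * x⁻¹) ↔ o.lt (f * g⁻¹) (f * x⁻¹) := o.cv hδ (1) e22 (by simp only [mul_assoc, mul_inv_rev, inv_inv, mul_inv_cancel_left, inv_mul_cancel_left, mul_inv_cancel, inv_mul_cancel, mul_one, one_mul, inv_one, C]) (by simp only [mul_assoc, mul_inv_rev, inv_inv, mul_inv_cancel_left, inv_mul_cancel_left, mul_inv_cancel, inv_mul_cancel, mul_one, one_mul, inv_one, C])
  have k83 : o.lt (f * (Q⁻¹ * (g * P⁻¹))) (f * g⁻¹) ↔ o.lt (f * (Q⁻¹ * (g * P⁻¹))) (f * g⁻¹) := o.cv hδ (1) e20 (by simp only [mul_assoc, mul_inv_rev, inv_inv, mul_inv_cancel_left, inv_mul_cancel_left, mul_inv_cancel, inv_mul_cancel, mul_one, one_mul, inv_one, C]) (by simp only [mul_assoc, mul_inv_rev, inv_inv, mul_inv_cancel_left, inv_mul_cancel_left, mul_inv_cancel, inv_mul_cancel, mul_one, one_mul, inv_one, C])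
  have k84 : o.lt (f * Q⁻¹) (P * g⁻¹) ↔ o.lt (f * (Q⁻¹ * (g * P⁻¹))) (1) := o.cv hδ (g * P⁻¹) e19 (by simp only [mul_assoc, mul_inv_rev, inv_inv, mul_inv_cancel_left, inv_mul_cancel_left, mul_inv_cancel, inv_mul_cancel, mul_one, one_mul, inv_one, C]) (by simp only [mul_assoc, mul_inv_rev, inv_inv, mul_inv_cancel_left, inv_mul_cancel_left, mul_inv_cancel, inv_mul_cancel, mul_one, one_mul, inv_one, C])
  have k85 : o.lt (f * (Q⁻¹ * (f * x⁻¹))) (Q * (f⁻¹ * (x * P⁻¹))) ↔ o.lt (f * (Q⁻¹ * (f * P⁻¹))) (Q * (f⁻¹ * (P * x⁻¹))) := o.cv hδ (x * P⁻¹) e5 (by simp only [mul_assoc, mul_inv_rev, inv_inv, mul_inv_cancel_left, inv_mul_cancel_left, mul_inv_cancel, inv_mul_cancel, mul_one, one_mul, inv_one, C]) (by simp only [mul_assoc, mul_inv_rev, inv_inv, mul_inv_cancel_left, inv_mul_cancel_left, mul_inv_cancel, inv_mul_cancel, mul_one, one_mul, inv_one, C])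
  have k86 : o.lt (x * P⁻¹) (Q * f⁻¹) ↔ o.lt (1) (Q * (f⁻¹ * (P * x⁻¹))) := o.cv hδ (P * x⁻¹) e14 (by simp only [mul_assoc, mul_inv_rev, inv_inv, mul_inv_cancel_left, inv_mul_cancel_left, mul_inv_cancel, inv_mul_cancel, mul_one, one_mul, inv_one, C]) (by simp only [mul_assoc, mul_inv_rev, inv_inv, mul_inv_cancel_left, inv_mul_cancel_left, mul_inv_cancel, inv_mul_cancel, mul_one, one_mul, inv_one, C])
  have k87 : o.lt (f * (Q⁻¹ * (f * g⁻¹))) (Q * (f⁻¹ * (g * P⁻¹))) ↔ o.lt (f * (Q⁻¹ * (f * P⁻¹))) (Q * (f⁻¹ * (P * g⁻¹))) := o.cv hδ (g * P⁻¹) e6 (by simp only [mul_assoc, mul_inv_rev, inv_inv, mul_inv_cancel_left, inv_mul_cancel_left, mul_inv_cancel, inv_mul_cancel, mul_one, one_mul, inv_one, C]) (by simp only [mul_assoc, mul_inv_rev, inv_inv, mul_inv_cancel_left, inv_mul_cancel_left, mul_inv_cancel, inv_mul_cancel, mul_one, one_mul, inv_one, C])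
  have k88 : o.lt (g * P⁻¹) (Q * f⁻¹) ↔ o.lt (1) (Q * (f⁻¹ * (P * g⁻¹))) := o.cv hδ (P * g⁻¹) e16 (by simp only [mul_assoc, mul_inv_rev, inv_inv, mul_inv_cancel_left, inv_mul_cancel_left, mul_inv_cancel, inv_mul_cancel, mul_one, one_mul, inv_one, C]) (by simp only [mul_assoc, mul_inv_rev, inv_inv, mul_inv_cancel_left, inv_mul_cancel_left, mul_inv_cancel, inv_mul_cancel, mul_one, one_mul, inv_one, C])
  have k89 : o.lt (f * (Q⁻¹ * (f * P⁻¹))) (f * (Q⁻¹ * (x * P⁻¹))) ↔ o.lt (Q * (f⁻¹ * (Q * x⁻¹))) (f * Q⁻¹) := o.cv hδ (P * (f⁻¹ * (Q * (f⁻¹ * (Q * (f⁻¹ * (Q * x⁻¹))))))) e0 (by simp only [mul_assoc, mul_inv_rev, inv_inv, mul_inv_cancel_left, inv_mul_cancel_left, mul_inv_cancel, inv_mul_cancel, mul_one, one_mul, inv_one, C]) (by simp only [mul_assoc, mul_inv_rev, inv_inv, mul_inv_cancel_left, inv_mul_cancel_left, mul_inv_cancel, inv_mul_cancel, mul_one, one_mul, inv_one, C])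
  have k90 : o.lt (f * (Q⁻¹ * (f * x⁻¹))) (f * (Q⁻¹ * (f * g⁻¹))) ↔ o.lt (Q * (f⁻¹ * (Q * x⁻¹))) (Q * (f⁻¹ * (Q * g⁻¹))) := o.cv hδ (x * (f⁻¹ * (Q * (f⁻¹ * (Q * (f⁻¹ * (Q * x⁻¹))))))) e36 (by simp only [mul_assoc, mul_inv_rev, inv_inv, mul_inv_cancel_left, inv_mul_cancel_left, mul_inv_cancel, inv_mul_cancel, mul_one, one_mul, inv_one, C]) (by simp only [mul_assoc, mul_inv_rev, inv_inv, mul_inv_cancel_left, inv_mul_cancel_left, mul_inv_cancel, inv_mul_cancel, mul_one, one_mul, inv_one, C])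
  have k91 : o.lt (Q * f⁻¹) (f * (Q⁻¹ * (g * Q⁻¹))) ↔ o.lt (Q * (f⁻¹ * (Q * g⁻¹))) (f * Q⁻¹) := o.cv hδ (Q * g⁻¹) e3 (by simp only [mul_assoc, mul_inv_rev, inv_inv, mul_inv_cancel_left, inv_mul_cancel_left, mul_inv_cancel, inv_mul_cancel, mul_one, one_mul, inv_one, C]) (by simp only [mul_assoc, mul_inv_rev, inv_inv, mul_inv_cancel_left, inv_mul_cancel_left, mul_inv_cancel, inv_mul_cancel, mul_one, one_mul, inv_one, C])
  have k92 : o.lt (Q * (f⁻¹ * g)) (Q * (f⁻¹ * x)) ↔ o.lt (Q * (f⁻¹ * (g * P⁻¹))) (Q * (f⁻¹ * (x * P⁻¹))) := o.cv hδ (P⁻¹) e37 (by simp only [mul_assoc, mul_inv_rev, inv_inv, mul_inv_cancel_left, inv_mul_cancel_left, mul_inv_cancel, inv_mul_cancel, mul_one, one_mul, inv_one, C]) (by simp only [mul_assoc, mul_inv_rev, inv_inv, mul_inv_cancel_left, inv_mul_cancel_left, mul_inv_cancel, inv_mul_cancel, mul_one, one_mul, inv_one, C])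
  have k93 : o.lt (Q * f⁻¹) (Q * g⁻¹) ↔ o.lt (Q * (f⁻¹ * (g * P⁻¹))) (Q * P⁻¹) := o.cv hδ (g * P⁻¹) e24 (by simp only [mul_assoc, mul_inv_rev, inv_inv, mul_inv_cancel_left, inv_mul_cancel_left, mul_inv_cancel, inv_mul_cancel, mul_one, one_mul, inv_one, C]) (by simp only [mul_assoc, mul_inv_rev, inv_inv, mul_inv_cancel_left, inv_mul_cancel_left, mul_inv_cancel, inv_mul_cancel, mul_one, one_mul, inv_one, C])
  have k94 : o.lt (Q * x⁻¹) (Q * f⁻¹) ↔ o.lt (Q * P⁻¹) (Q * (f⁻¹ * (x * P⁻¹))) := o.cv hδ (x * P⁻¹) e15 (by simp only [mul_assoc, mul_inv_rev, inv_inv, mul_inv_cancel_left, inv_mul_cancel_left, mul_inv_cancel, inv_mul_cancel, mul_one, one_mul, inv_one, C]) (by simp only [mul_assoc, mul_inv_rev, inv_inv, mul_inv_cancel_left, inv_mul_cancel_left, mul_inv_cancel, inv_mul_cancel, mul_one, one_mul, inv_one, C])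
  have k95 : o.lt (Q * f⁻¹) (Q * g⁻¹) ↔ o.lt ((f * Q⁻¹)⁻¹) ((g * Q⁻¹)⁻¹) := o.cv hδ (1) e24 (by simp only [mul_assoc, mul_inv_rev, inv_inv, mul_inv_cancel_left, inv_mul_cancel_left, mul_inv_cancel, inv_mul_cancel, mul_one, one_mul, inv_one, C]) (by simp only [mul_assoc, mul_inv_rev, inv_inv, mul_inv_cancel_left, inv_mul_cancel_left, mul_inv_cancel, inv_mul_cancel, mul_one, one_mul, inv_one, C])
  exact par_ABC_0_prop
    (fun b0 b1 b2 => N0.rd.r1 1 (fun h => b0 (k0.2 h)) (fun h => b1 (k1.2 h)) (k2.1 b2))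
    (fun b0 b1 b2 => N0.r.r0 1 (fun h => b0 (k3.2 h)) (k1.1 b1) (fun h => b2 (k4.2 h)))
    (fun b0 b1 b2 => N0.i.r1 1 (fun h => b0 (k5.2 h)) (fun h => b1 (k6.2 h)) (k7.1 b2))
    (fun b0 b1 b2 b3 => N1.i.r0 1 (fun h => b0 (k8.2 h)) (fun h => b1 (k9.2 h)) (k10.1 b2) (fun h => b3 (k11.2 h)))
    (fun b0 b1 b2 b3 => N1.i.r1 1 (fun h => b0 (k10.2 h)) (k12.1 b1) (fun h => b2 (k13.2 h)) (fun h => b3 (k11.2 h)))
    (fun b0 b1 b2 b3 => N1.rd.r0 1 (fun h => b0 (k14.2 h)) (fun h => b1 (k15.2 h)) (k16.1 b2) (fun h => b3 (k11.2 h)))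
    (fun b0 b1 b2 => N0.r.r1 (f * Q⁻¹) (fun h => b0 (k17.2 h)) (fun h => b1 (k18.2 h)) (k19.1 b2))
    (fun b0 b1 b2 => N0.rd.r0 (f * Q⁻¹) (fun h => b0 (k20.2 h)) (k18.1 b1) (fun h => b2 (k21.2 h)))
    (fun b0 b1 b2 b3 => N1.r.r0 (f * Q⁻¹) (fun h => b0 (k22.2 h)) (fun h => b1 (k23.2 h)) (k24.1 b2) (fun h => b3 (k25.2 h)))
    (fun b0 b1 b2 b3 => N1.rd.r0 (Q * f⁻¹) (fun h => b0 (k26.2 h)) (fun h => b1 (k27.2 h)) (k28.1 b2) (fun h => b3 (k29.2 h)))
    (fun b0 b1 => o.asym (k30.1 b0) (k31.1 b1))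
    (fun b0 b1 => o.asym (k32.1 b0) (k33.1 b1))
    (fun b0 b1 => o.asym (k34.1 b0) (k35.1 b1))
    (fun b0 b1 b2 => o.tri (k34.1 b0) (fun h => b1 (k36.2 h)) (fun h => b2 (k37.2 h)))
    (fun b0 b1 b2 => o.tri (k38.1 b0) (fun h => b1 (k36.2 h)) (fun h => b2 (k39.2 h)))
    (fun b0 b1 b2 => o.tri (k40.1 b0) (fun h => b1 (k33.2 h)) (fun h => b2 (k41.2 h)))
    (fun b0 b1 b2 => o.tri (k33.1 b0) (fun h => b1 (k42.2 h)) (fun h => b2 (k35.2 h)))
    (fun b0 b1 b2 => o.tri (k42.1 b0) (fun h => b1 (k43.2 h)) (fun h => b2 (k44.2 h)))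
    (fun b0 b1 => o.asym (k39.1 b0) (k45.1 b1))
    (fun b0 b1 b2 => o.tri (k46.1 b0) (fun h => b1 (k35.2 h)) (fun h => b2 (k36.2 h)))
    (fun b0 b1 b2 => o.tri (k45.1 b0) (fun h => b1 (k47.2 h)) (fun h => b2 (k36.2 h)))
    (fun b0 b1 b2 => o.tri (k48.1 b0) (fun h => b1 (k49.2 h)) (fun h => b2 (k50.2 h)))
    (fun b0 b1 b2 => o.tri (k48.1 b0) (fun h => b1 (k51.2 h)) (fun h => b2 (k52.2 h)))
    (fun b0 b1 b2 => o.tri (k53.1 b0) (fun h => b1 (k49.2 h)) (fun h => b2 (k54.2 h)))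
    (fun b0 b1 => o.asym (k51.1 b0) (k55.1 b1))
    (fun b0 b1 => o.asym (k56.1 b0) (k54.1 b1))
    (fun b0 b1 b2 => o.tri (k57.1 b0) (fun h => b1 (k58.2 h)) (fun h => b2 (k59.2 h)))
    (fun b0 b1 b2 => o.tri (k50.1 b0) (fun h => b1 (k60.2 h)) (fun h => b2 (k52.2 h)))
    (fun b0 b1 => o.asym (k60.1 b0) (k61.1 b1))
    (fun b0 b1 b2 => o.tri (k60.1 b0) (fun h => b1 (k62.2 h)) (fun h => b2 (k63.2 h)))
    (fun b0 b1 b2 => o.tri (k62.1 b0) (fun h => b1 (k54.2 h)) (fun h => b2 (k58.2 h)))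
    (fun b0 b1 b2 => o.tri (k64.1 b0) (fun h => b1 (k62.2 h)) (fun h => b2 (k59.2 h)))
    (fun b0 b1 b2 => o.tri (k65.1 b0) (fun h => b1 (k61.2 h)) (fun h => b2 (k54.2 h)))
    (fun b0 b1 b2 => o.tri (k66.1 b0) (fun h => b1 (k67.2 h)) (fun h => b2 (k58.2 h)))
    (fun b0 b1 => o.asym (k68.1 b0) (k69.1 b1))
    (fun b0 b1 b2 => o.tri (k70.1 b0) (fun h => b1 (k58.2 h)) (fun h => b2 (k71.2 h)))
    (fun b0 b1 b2 => o.tri (k72.1 b0) (fun h => b1 (k73.2 h)) (fun h => b2 (k74.2 h)))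
    (fun b0 b1 b2 => o.tri (k75.1 b0) (fun h => b1 (k76.2 h)) (fun h => b2 (k77.2 h)))
    (fun b0 b1 b2 => o.tri (k78.1 b0) (fun h => b1 (k79.2 h)) (fun h => b2 (k75.2 h)))
    (fun b0 b1 => o.asym (k80.1 b0) (k74.1 b1))
    (fun b0 b1 b2 => o.tri (k77.1 b0) (fun h => b1 (k81.2 h)) (fun h => b2 (k82.2 h)))
    (fun b0 b1 b2 => o.tri (k83.1 b0) (fun h => b1 (k84.2 h)) (fun h => b2 (k81.2 h)))
    (fun b0 b1 b2 => o.tri (k85.1 b0) (fun h => b1 (k76.2 h)) (fun h => b2 (k86.2 h)))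
    (fun b0 b1 b2 => o.tri (k87.1 b0) (fun h => b1 (k76.2 h)) (fun h => b2 (k88.2 h)))
    (fun b0 b1 b2 => o.tri (k89.1 b0) (fun h => b1 (k90.2 h)) (fun h => b2 (k91.2 h)))
    (fun b0 b1 b2 => o.tri (k92.1 b0) (fun h => b1 (k93.2 h)) (fun h => b2 (k94.2 h)))
    (k34.2 g0)
    (fun h => g1 (k36.1 h))
    (fun h => g2 (k95.1 h))

theorem par_ABC_1_prop {A1 A2 A3 A4 A5 A6 A7 A8 A9 A10 A11 A12 A13 A14 A15 A16 A17 A18 A19 A20 A21 A22 A23 A24 A25 A26 A27 A28 A29 A30 A31 A32 A33 A34 A35 A36 A37 A38 A39 A40 A41 A42 A43 A44 : Prop}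
    (c0 : ¬ A5 → ¬ A6 → A14 → False)
    (c1 : ¬ A38 → A6 → ¬ A2 → False)
    (c2 : ¬ A26 → ¬ A27 → A2 → False)
    (c3 : ¬ A40 → A27 → ¬ A14 → False)
    (c4 : ¬ A1 → A17 → ¬ A34 → False)
    (c5 : ¬ A11 → A3 → ¬ A36 → False)
    (c6 : ¬ A5 → ¬ A3 → A34 → False)
    (c7 : ¬ A7 → ¬ A10 → A32 → ¬ A43 → False)
    (c8 : ¬ A32 → A33 → ¬ A41 → ¬ A43 → False)
    (c9 : ¬ A37 → ¬ A36 → A42 → ¬ A43 → False)
    (c10 : ¬ A19 → ¬ A24 → A13 → ¬ A22 → False)
    (c11 : ¬ A18 → A12 → ¬ A20 → ¬ A22 → False)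
    (c12 : ¬ A16 → ¬ A15 → A18 → ¬ A22 → False)
    (c13 : A11 → A1 → False)
    (c14 : A14 → A2 → False)
    (c15 : A17 → A3 → False)
    (c16 : A21 → ¬ A14 → ¬ A30 → False)
    (c17 : A23 → ¬ A14 → ¬ A29 → False)
    (c18 : A25 → ¬ A11 → ¬ A34 → False)
    (c19 : A28 → ¬ A33 → ¬ A35 → False)
    (c20 : A26 → A5 → False)
    (c21 : A30 → ¬ A29 → ¬ A10 → False)
    (c22 : A31 → A10 → False)
    (c23 : A35 → ¬ A8 → ¬ A26 → False)
    (c24 : A36 → ¬ A4 → ¬ A11 → False)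
    (c25 : A26 → ¬ A27 → ¬ A36 → False)
    (c26 : A27 → A6 → False)
    (c27 : A4 → ¬ A39 → ¬ A8 → False)
    (c28 : A38 → A40 → False)
    (c29 : A6 → ¬ A40 → ¬ A4 → False)
    (c30 : A36 → ¬ A6 → ¬ A26 → False)
    (c31 : A40 → ¬ A6 → ¬ A25 → False)
    (c32 : A41 → ¬ A6 → ¬ A29 → False)
    (c33 : A42 → A44 → False)
    (c34 : A7 → ¬ A42 → ¬ A10 → False)
    (c35 : A43 → ¬ A8 → ¬ A26 → False)
    (c36 : A9 → ¬ A44 → ¬ A6 → False)
    (c37 : A37 → ¬ A9 → ¬ A29 → False)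
    (c38 : A31 → ¬ A28 → ¬ A42 → False)
    (c39 : A20 → ¬ A19 → ¬ A13 → False)
    (c40 : A16 → ¬ A15 → ¬ A13 → False)
    (c41 : A11 → ¬ A12 → ¬ A23 → False)
    (c42 : A15 → ¬ A17 → ¬ A1 → False)
    (c43 : A19 → ¬ A17 → ¬ A4 → False)
    (c44 : A22 → ¬ A21 → ¬ A1 → False)
    (c45 : A24 → ¬ A23 → ¬ A4 → False)
    (u0 : A31)
    (u1 : ¬ A29)
    (u2 : ¬ A39)
    (u3 : ¬ A8)
    : False := by
  have q1 : ¬ A10 := fun h => c22 u0 h
  have q2 : ¬ A30 := fun h => c21 h u1 q1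
  have q3 : ¬ A4 := fun h => c27 h u2 u3
  rcases Classical.em A6 with q4 | q4
  · have q5 : ¬ A27 := fun h => c26 h q4
    have q6 : A40 := Classical.byContradiction fun h => c29 q4 h q3
    have q7 : ¬ A38 := fun h => c28 h q6
    have q8 : A2 := Classical.byContradiction fun h => c1 q7 q4 h
    have q9 : A26 := Classical.byContradiction fun h => c2 h q5 q8
    have q10 : ¬ A14 := fun h => c14 h q8
    have q11 : ¬ A21 := fun h => c16 h q10 q2
    have q12 : ¬ A23 := fun h => c17 h q10 u1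
    have q13 : ¬ A5 := fun h => c20 q9 h
    have q14 : A36 := Classical.byContradiction fun h => c25 q9 q5 h
    have q15 : A11 := Classical.byContradiction fun h => c24 q14 q3 h
    have q16 : ¬ A1 := fun h => c13 q15 h
    have q17 : A12 := Classical.byContradiction fun h => c41 q15 h q12
    have q18 : ¬ A22 := fun h => c44 h q11 q16
    have q19 : ¬ A24 := fun h => c45 h q12 q3
    rcases Classical.em A17 with q20 | q20
    · have q21 : A34 := Classical.byContradiction fun h => c4 q16 q20 h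
      have q22 : A3 := Classical.byContradiction fun h => c6 q13 h q21
      exact c15 q20 q22
    · have q23 : ¬ A15 := fun h => c42 h q20 q16
      have q24 : ¬ A19 := fun h => c43 h q20 q3
      have q25 : ¬ A13 := fun h => c10 q24 q19 h q18
      have q26 : ¬ A20 := fun h => c39 h q24 q25
      have q27 : A18 := Classical.byContradiction fun h => c11 h q17 q26 q18
      have q28 : A16 := Classical.byContradiction fun h => c12 h q23 q27 q18
      exact c40 q28 q23 q25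
  · have q29 : ¬ A41 := fun h => c32 h q4 u1
    rcases Classical.em A26 with q30 | q30
    · have q31 : ¬ A5 := fun h => c20 q30 h
      have q32 : ¬ A14 := fun h => c0 q31 q4 h
      have q33 : ¬ A21 := fun h => c16 h q32 q2
      have q34 : ¬ A23 := fun h => c17 h q32 u1
      have q35 : ¬ A24 := fun h => c45 h q34 q3
      rcases Classical.em A11 with q36 | q36
      · have q37 : ¬ A1 := fun h => c13 q36 h
        have q38 : A12 := Classical.byContradiction fun h => c41 q36 h q34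
        have q39 : ¬ A22 := fun h => c44 h q33 q37
        rcases Classical.em A17 with q40 | q40
        · have q41 : A34 := Classical.byContradiction fun h => c4 q37 q40 h
          have q42 : A3 := Classical.byContradiction fun h => c6 q31 h q41
          exact c15 q40 q42
        · have q43 : ¬ A15 := fun h => c42 h q40 q37
          have q44 : ¬ A19 := fun h => c43 h q40 q3
          have q45 : ¬ A13 := fun h => c10 q44 q35 h q39
          have q46 : ¬ A20 := fun h => c39 h q44 q45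
          have q47 : A18 := Classical.byContradiction fun h => c11 h q38 q46 q39
          have q48 : A16 := Classical.byContradiction fun h => c12 h q43 q47 q39
          exact c40 q48 q43 q45
      · have q49 : ¬ A36 := fun h => c24 h q3 q36
        have q50 : ¬ A3 := fun h => c5 q36 h q49
        have q51 : ¬ A34 := fun h => c6 q31 q50 h
        have q52 : ¬ A25 := fun h => c18 h q36 q51
        have q53 : A27 := Classical.byContradiction fun h => c25 q30 h q49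
        have q54 : A40 := Classical.byContradiction fun h => c3 h q53 q32
        exact c31 q54 q4 q52
    · have q55 : ¬ A35 := fun h => c23 h u3 q30
      have q56 : ¬ A36 := fun h => c30 h q4 q30
      have q57 : ¬ A43 := fun h => c35 h u3 q30
      rcases Classical.em A14 with q58 | q58
      · have q59 : A5 := Classical.byContradiction fun h => c0 h q4 q58
        have q60 : ¬ A2 := fun h => c14 q58 h
        rcases Classical.em A42 with q61 | q61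
        · have q62 : A37 := Classical.byContradiction fun h => c9 h q56 q61 q57
          have q63 : ¬ A44 := fun h => c33 q61 h
          have q64 : ¬ A9 := fun h => c36 h q63 q4
          exact c37 q62 q64 u1
        · have q65 : ¬ A7 := fun h => c34 h q61 q1
          have q66 : ¬ A32 := fun h => c7 q65 q1 h q57
          have q67 : ¬ A33 := fun h => c8 q66 h q29 q57
          have q68 : ¬ A28 := fun h => c19 h q67 q55
          exact c38 u0 q68 q61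
      · have q69 : ¬ A21 := fun h => c16 h q58 q2
        have q70 : ¬ A23 := fun h => c17 h q58 u1
        have q71 : ¬ A24 := fun h => c45 h q70 q3
        rcases Classical.em A42 with q72 | q72
        · have q73 : A37 := Classical.byContradiction fun h => c9 h q56 q72 q57
          have q74 : ¬ A44 := fun h => c33 q72 h
          have q75 : ¬ A9 := fun h => c36 h q74 q4
          exact c37 q73 q75 u1
        · have q76 : ¬ A7 := fun h => c34 h q72 q1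
          have q77 : ¬ A32 := fun h => c7 q76 q1 h q57
          have q78 : ¬ A33 := fun h => c8 q77 h q29 q57
          have q79 : ¬ A28 := fun h => c19 h q78 q55
          exact c38 u0 q79 q72

theorem par_ABC_1 {G : Type*} [Group G] {δ : G → ZMod 3} (hδ : ∀ u v, δ (u * v) = δ u + δ v) (o : Pre δ)
    {P Q f x g : G} {e : ZMod 3} (h3 : 3 * e = 0)
    (D : δ P = e ∧ δ Q = -e ∧ δ f = 0 ∧ δ x = 0 ∧ δ g = 0)
    (C : Cube P f ∧ Cube P x ∧ Cube P g ∧ Cube Q f ∧ Cube Q x ∧ Cube Q g)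
    (N0 : RA o P Q f x)
    (N1 : RB o P Q x g)
    (g0 : o.lt (P * g⁻¹) (g * Q⁻¹)) (g1 : ¬ o.lt (f * Q⁻¹) (g * Q⁻¹)) (g2 : ¬ o.lt ((f * Q⁻¹)⁻¹) ((P * g⁻¹)⁻¹)) (g3 : ¬ o.lt (g) (f)) : False := by
  simp only [Cube] at C
  have e0 : δ (P * x⁻¹) = δ (P * f⁻¹) := by simp only [hδ, δinv hδ, δone hδ, D] <;> linear_combination (0) * h3
  have e1 : δ (f * Q⁻¹) = δ (P * f⁻¹) := by simp only [hδ, δinv hδ, δone hδ, D] <;> linear_combination (0) * h3
  have e2 : δ (x * Q⁻¹) = δ (P * f⁻¹) := by simp only [hδ, δinv hδ, δone hδ, D] <;> linear_combination (0) * h3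
  have e3 : δ (Q * P⁻¹) = δ (P * f⁻¹) := by simp only [hδ, δinv hδ, δone hδ, D] <;> linear_combination (-1) * h3
  have e4 : δ (x * P⁻¹) = δ (f * P⁻¹) := by simp only [hδ, δinv hδ, δone hδ, D] <;> linear_combination (0) * h3
  have e5 : δ (Q * x⁻¹) = δ (f * P⁻¹) := by simp only [hδ, δinv hδ, δone hδ, D] <;> linear_combination (0) * h3
  have e6 : δ (x * Q⁻¹) = δ (P * x⁻¹) := by simp only [hδ, δinv hδ, δone hδ, D] <;> linear_combination (0) * h3
  have e7 : δ (g * Q⁻¹) = δ (f * Q⁻¹) := by simp only [hδ, δinv hδ, δone hδ, D] <;> linear_combination (0) * h3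
  have e8 : δ (Q * g⁻¹) = δ (f * P⁻¹) := by simp only [hδ, δinv hδ, δone hδ, D] <;> linear_combination (0) * h3
  have e9 : δ (g * Q⁻¹) = δ (P * g⁻¹) := by simp only [hδ, δinv hδ, δone hδ, D] <;> linear_combination (0) * h3
  have e10 : δ (P * f⁻¹) = δ (P * x⁻¹) := by simp only [hδ, δinv hδ, δone hδ, D] <;> linear_combination (0) * h3
  have e11 : δ (P * (f⁻¹ * (x * P⁻¹))) = δ (P * (f⁻¹ * (Q * g⁻¹))) := by simp only [hδ, δinv hδ, δone hδ, D] <;> linear_combination (0) * h3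
  have e12 : δ (f * (P⁻¹ * (f * x⁻¹))) = δ (f * (P⁻¹ * (f * g⁻¹))) := by simp only [hδ, δinv hδ, δone hδ, D] <;> linear_combination (0) * h3
  have e13 : δ (P * f⁻¹) = δ (f * Q⁻¹) := by simp only [hδ, δinv hδ, δone hδ, D] <;> linear_combination (0) * h3
  have e14 : δ (P * (f⁻¹ * (Q * x⁻¹))) = δ (P * (f⁻¹ * (x * P⁻¹))) := by simp only [hδ, δinv hδ, δone hδ, D] <;> linear_combination (0) * h3
  have e15 : δ (P * (f⁻¹ * (Q * g⁻¹))) = δ (P * (f⁻¹ * (g * P⁻¹))) := by simp only [hδ, δinv hδ, δone hδ, D] <;> linear_combination (0) * h3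
  have e16 : δ (P * f⁻¹) = δ (x * Q⁻¹) := by simp only [hδ, δinv hδ, δone hδ, D] <;> linear_combination (0) * h3
  have e17 : δ (P * (f⁻¹ * (Q * x⁻¹))) = δ (P * (f⁻¹ * (Q * g⁻¹))) := by simp only [hδ, δinv hδ, δone hδ, D] <;> linear_combination (0) * h3
  have e18 : δ (P * (f⁻¹ * (x * Q⁻¹))) = δ (f * (P⁻¹ * (f * x⁻¹))) := by simp only [hδ, δinv hδ, δone hδ, D] <;> linear_combination (1) * h3
  have e19 : δ (P * (f⁻¹ * (x * Q⁻¹))) = δ (f * (P⁻¹ * (f * g⁻¹))) := by simp only [hδ, δinv hδ, δone hδ, D] <;> linear_combination (1) * h3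
  have e20 : δ (P * f⁻¹) = δ (P * g⁻¹) := by simp only [hδ, δinv hδ, δone hδ, D] <;> linear_combination (0) * h3
  have e21 : δ (P * (f⁻¹ * g)) = δ (P * (f⁻¹ * x)) := by simp only [hδ, δinv hδ, δone hδ, D] <;> linear_combination (0) * h3
  have e22 : δ (P * f⁻¹) = δ (g * Q⁻¹) := by simp only [hδ, δinv hδ, δone hδ, D] <;> linear_combination (0) * h3
  have e23 : δ (P * (f⁻¹ * (g * Q⁻¹))) = δ (f * (P⁻¹ * (f * g⁻¹))) := by simp only [hδ, δinv hδ, δone hδ, D] <;> linear_combination (1) * h3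
  have e24 : δ (P * f⁻¹) = δ (Q * P⁻¹) := by simp only [hδ, δinv hδ, δone hδ, D] <;> linear_combination (1) * h3
  have e25 : δ (f * P⁻¹) = δ (x * P⁻¹) := by simp only [hδ, δinv hδ, δone hδ, D] <;> linear_combination (0) * h3
  have e26 : δ (f * P⁻¹) = δ (Q * x⁻¹) := by simp only [hδ, δinv hδ, δone hδ, D] <;> linear_combination (0) * h3
  have e27 : δ (P * x⁻¹) = δ (x * Q⁻¹) := by simp only [hδ, δinv hδ, δone hδ, D] <;> linear_combination (0) * h3
  have e28 : δ (f * Q⁻¹) = δ (g * Q⁻¹) := by simp only [hδ, δinv hδ, δone hδ, D] <;> linear_combination (0) * h3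
  have e29 : δ (f * Q⁻¹) = δ (P * g⁻¹) := by simp only [hδ, δinv hδ, δone hδ, D] <;> linear_combination (0) * h3
  have e30 : δ (P * g⁻¹) = δ (g * Q⁻¹) := by simp only [hδ, δinv hδ, δone hδ, D] <;> linear_combination (0) * h3
  have e31 : δ (P * x⁻¹) = δ (P * g⁻¹) := by simp only [hδ, δinv hδ, δone hδ, D] <;> linear_combination (0) * h3
  have e32 : δ (P * x⁻¹) = δ (g * Q⁻¹) := by simp only [hδ, δinv hδ, δone hδ, D] <;> linear_combination (0) * h3
  have e33 : δ (x * P⁻¹) = δ (Q * x⁻¹) := by simp only [hδ, δinv hδ, δone hδ, D] <;> linear_combination (0) * h3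
  have e34 : δ (g * Q⁻¹) = δ (x * Q⁻¹) := by simp only [hδ, δinv hδ, δone hδ, D] <;> linear_combination (0) * h3
  have e35 : δ (Q * x⁻¹) = δ (x * P⁻¹) := by simp only [hδ, δinv hδ, δone hδ, D] <;> linear_combination (0) * h3
  have e36 : δ (Q * g⁻¹) = δ (g * P⁻¹) := by simp only [hδ, δinv hδ, δone hδ, D] <;> linear_combination (0) * h3
  have e37 : δ (Q * f⁻¹) = δ (Q * x⁻¹) := by simp only [hδ, δinv hδ, δone hδ, D] <;> linear_combination (0) * h3
  have e38 : δ (Q * f⁻¹) = δ (g * P⁻¹) := by simp only [hδ, δinv hδ, δone hδ, D] <;> linear_combination (0) * h3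
  have e39 : δ (Q * x⁻¹) = δ (Q * f⁻¹) := by simp only [hδ, δinv hδ, δone hδ, D] <;> linear_combination (0) * h3
  have e40 : δ (Q * x⁻¹) = δ (g * P⁻¹) := by simp only [hδ, δinv hδ, δone hδ, D] <;> linear_combination (0) * h3
  have e41 : δ (Q * x⁻¹) = δ (Q * g⁻¹) := by simp only [hδ, δinv hδ, δone hδ, D] <;> linear_combination (0) * h3
  have e42 : δ (g) = δ (x) := by simp only [hδ, δinv hδ, δone hδ, D] <;> linear_combination (0) * h3
  have e43 : δ (Q * g⁻¹) = δ (Q * x⁻¹) := by simp only [hδ, δinv hδ, δone hδ, D] <;> linear_combination (0) * h3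
  have k0 : o.lt (x * P⁻¹) (f * P⁻¹) ↔ o.lt (1 * (x * P⁻¹)) (1 * (f * P⁻¹)) := o.cv hδ (1) e4 (by simp only [mul_assoc, mul_inv_rev, inv_inv, mul_inv_cancel_left, inv_mul_cancel_left, mul_inv_cancel, inv_mul_cancel, mul_one, one_mul, inv_one, C]) (by simp only [mul_assoc, mul_inv_rev, inv_inv, mul_inv_cancel_left, inv_mul_cancel_left, mul_inv_cancel, inv_mul_cancel, mul_one, one_mul, inv_one, C])
  have k1 : o.lt (Q * x⁻¹) (f * P⁻¹) ↔ o.lt (1 * (Q * x⁻¹)) (1 * (f * P⁻¹)) := o.cv hδ (1) e5 (by simp only [mul_assoc, mul_inv_rev, inv_inv, mul_inv_cancel_left, inv_mul_cancel_left, mul_inv_cancel, inv_mul_cancel, mul_one, one_mul, inv_one, C]) (by simp only [mul_assoc, mul_inv_rev, inv_inv, mul_inv_cancel_left, inv_mul_cancel_left, mul_inv_cancel, inv_mul_cancel, mul_one, one_mul, inv_one, C])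
  have k2 : o.lt (P * f⁻¹) (f * Q⁻¹) ↔ o.lt (1 * (f * P⁻¹)⁻¹) (1 * (Q * f⁻¹)⁻¹) := o.cv hδ (1) e13 (by simp only [mul_assoc, mul_inv_rev, inv_inv, mul_inv_cancel_left, inv_mul_cancel_left, mul_inv_cancel, inv_mul_cancel, mul_one, one_mul, inv_one, C]) (by simp only [mul_assoc, mul_inv_rev, inv_inv, mul_inv_cancel_left, inv_mul_cancel_left, mul_inv_cancel, inv_mul_cancel, mul_one, one_mul, inv_one, C])
  have k3 : o.lt (Q * f⁻¹) (Q * x⁻¹) ↔ o.lt (1 * (Q * f⁻¹)) (1 * (Q * x⁻¹)) := o.cv hδ (1) e37 (by simp only [mul_assoc, mul_inv_rev, inv_inv, mul_inv_cancel_left, inv_mul_cancel_left, mul_inv_cancel, inv_mul_cancel, mul_one, one_mul, inv_one, C]) (by simp only [mul_assoc, mul_inv_rev, inv_inv, mul_inv_cancel_left, inv_mul_cancel_left, mul_inv_cancel, inv_mul_cancel, mul_one, one_mul, inv_one, C])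
  have k4 : o.lt (f * Q⁻¹) (P * f⁻¹) ↔ o.lt (1 * (Q * f⁻¹)⁻¹) (1 * (f * P⁻¹)⁻¹) := o.cv hδ (1) e1 (by simp only [mul_assoc, mul_inv_rev, inv_inv, mul_inv_cancel_left, inv_mul_cancel_left, mul_inv_cancel, inv_mul_cancel, mul_one, one_mul, inv_one, C]) (by simp only [mul_assoc, mul_inv_rev, inv_inv, mul_inv_cancel_left, inv_mul_cancel_left, mul_inv_cancel, inv_mul_cancel, mul_one, one_mul, inv_one, C])
  have k5 : o.lt (f * P⁻¹) (x * P⁻¹) ↔ o.lt (1 * (f * P⁻¹)) (1 * (x * P⁻¹)) := o.cv hδ (1) e25 (by simp only [mul_assoc, mul_inv_rev, inv_inv, mul_inv_cancel_left, inv_mul_cancel_left, mul_inv_cancel, inv_mul_cancel, mul_one, one_mul, inv_one, C]) (by simp only [mul_assoc, mul_inv_rev, inv_inv, mul_inv_cancel_left, inv_mul_cancel_left, mul_inv_cancel, inv_mul_cancel, mul_one, one_mul, inv_one, C])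
  have k6 : o.lt (f * P⁻¹) (Q * x⁻¹) ↔ o.lt (1 * (f * P⁻¹)) (1 * (Q * x⁻¹)) := o.cv hδ (1) e26 (by simp only [mul_assoc, mul_inv_rev, inv_inv, mul_inv_cancel_left, inv_mul_cancel_left, mul_inv_cancel, inv_mul_cancel, mul_one, one_mul, inv_one, C]) (by simp only [mul_assoc, mul_inv_rev, inv_inv, mul_inv_cancel_left, inv_mul_cancel_left, mul_inv_cancel, inv_mul_cancel, mul_one, one_mul, inv_one, C])
  have k7 : o.lt (Q * x⁻¹) (Q * f⁻¹) ↔ o.lt (1 * (Q * x⁻¹)) (1 * (Q * f⁻¹)) := o.cv hδ (1) e39 (by simp only [mul_assoc, mul_inv_rev, inv_inv, mul_inv_cancel_left, inv_mul_cancel_left, mul_inv_cancel, inv_mul_cancel, mul_one, one_mul, inv_one, C]) (by simp only [mul_assoc, mul_inv_rev, inv_inv, mul_inv_cancel_left, inv_mul_cancel_left, mul_inv_cancel, inv_mul_cancel, mul_one, one_mul, inv_one, C])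
  have k8 : o.lt (P * x⁻¹) (P * f⁻¹) ↔ o.lt (1 * (P * x⁻¹)) (1 * (P * f⁻¹)) := o.cv hδ (1) e0 (by simp only [mul_assoc, mul_inv_rev, inv_inv, mul_inv_cancel_left, inv_mul_cancel_left, mul_inv_cancel, inv_mul_cancel, mul_one, one_mul, inv_one, C]) (by simp only [mul_assoc, mul_inv_rev, inv_inv, mul_inv_cancel_left, inv_mul_cancel_left, mul_inv_cancel, inv_mul_cancel, mul_one, one_mul, inv_one, C])
  have k9 : o.lt (P * f⁻¹) (x * Q⁻¹) ↔ o.lt (1 * (P * f⁻¹)) (1 * (x * Q⁻¹)) := o.cv hδ (1) e16 (by simp only [mul_assoc, mul_inv_rev, inv_inv, mul_inv_cancel_left, inv_mul_cancel_left, mul_inv_cancel, inv_mul_cancel, mul_one, one_mul, inv_one, C]) (by simp only [mul_assoc, mul_inv_rev, inv_inv, mul_inv_cancel_left, inv_mul_cancel_left, mul_inv_cancel, inv_mul_cancel, mul_one, one_mul, inv_one, C])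
  have k10 : o.lt (x * P⁻¹) (Q * x⁻¹) ↔ o.lt (1 * (P * x⁻¹)⁻¹) (1 * (x * Q⁻¹)⁻¹) := o.cv hδ (1) e33 (by simp only [mul_assoc, mul_inv_rev, inv_inv, mul_inv_cancel_left, inv_mul_cancel_left, mul_inv_cancel, inv_mul_cancel, mul_one, one_mul, inv_one, C]) (by simp only [mul_assoc, mul_inv_rev, inv_inv, mul_inv_cancel_left, inv_mul_cancel_left, mul_inv_cancel, inv_mul_cancel, mul_one, one_mul, inv_one, C])
  have k11 : o.lt (P * f⁻¹) (P * x⁻¹) ↔ o.lt (1 * (P * f⁻¹)) (1 * (P * x⁻¹)) := o.cv hδ (1) e10 (by simp only [mul_assoc, mul_inv_rev, inv_inv, mul_inv_cancel_left, inv_mul_cancel_left, mul_inv_cancel, inv_mul_cancel, mul_one, one_mul, inv_one, C]) (by simp only [mul_assoc, mul_inv_rev, inv_inv, mul_inv_cancel_left, inv_mul_cancel_left, mul_inv_cancel, inv_mul_cancel, mul_one, one_mul, inv_one, C])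
  have k12 : o.lt (x * Q⁻¹) (P * f⁻¹) ↔ o.lt (1 * (x * Q⁻¹)) (1 * (P * f⁻¹)) := o.cv hδ (1) e2 (by simp only [mul_assoc, mul_inv_rev, inv_inv, mul_inv_cancel_left, inv_mul_cancel_left, mul_inv_cancel, inv_mul_cancel, mul_one, one_mul, inv_one, C]) (by simp only [mul_assoc, mul_inv_rev, inv_inv, mul_inv_cancel_left, inv_mul_cancel_left, mul_inv_cancel, inv_mul_cancel, mul_one, one_mul, inv_one, C])
  have k13 : o.lt (Q * x⁻¹) (x * P⁻¹) ↔ o.lt (1 * (x * Q⁻¹)⁻¹) (1 * (P * x⁻¹)⁻¹) := o.cv hδ (1) e35 (by simp only [mul_assoc, mul_inv_rev, inv_inv, mul_inv_cancel_left, inv_mul_cancel_left, mul_inv_cancel, inv_mul_cancel, mul_one, one_mul, inv_one, C]) (by simp only [mul_assoc, mul_inv_rev, inv_inv, mul_inv_cancel_left, inv_mul_cancel_left, mul_inv_cancel, inv_mul_cancel, mul_one, one_mul, inv_one, C])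
  have k14 : o.lt (x * P⁻¹) (f * P⁻¹) ↔ o.lt (1 * (x * Q⁻¹)) (1 * (f * Q⁻¹)) := o.cv hδ (P * Q⁻¹) e4 (by simp only [mul_assoc, mul_inv_rev, inv_inv, mul_inv_cancel_left, inv_mul_cancel_left, mul_inv_cancel, inv_mul_cancel, mul_one, one_mul, inv_one, C]) (by simp only [mul_assoc, mul_inv_rev, inv_inv, mul_inv_cancel_left, inv_mul_cancel_left, mul_inv_cancel, inv_mul_cancel, mul_one, one_mul, inv_one, C])
  have k15 : o.lt (x * Q⁻¹) (P * x⁻¹) ↔ o.lt (1 * (x * Q⁻¹)) (1 * (P * x⁻¹)) := o.cv hδ (1) e6 (by simp only [mul_assoc, mul_inv_rev, inv_inv, mul_inv_cancel_left, inv_mul_cancel_left, mul_inv_cancel, inv_mul_cancel, mul_one, one_mul, inv_one, C]) (by simp only [mul_assoc, mul_inv_rev, inv_inv, mul_inv_cancel_left, inv_mul_cancel_left, mul_inv_cancel, inv_mul_cancel, mul_one, one_mul, inv_one, C])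
  have k16 : o.lt (g * Q⁻¹) (P * g⁻¹) ↔ o.lt (1 * (g * Q⁻¹)) (1 * (P * g⁻¹)) := o.cv hδ (1) e9 (by simp only [mul_assoc, mul_inv_rev, inv_inv, mul_inv_cancel_left, inv_mul_cancel_left, mul_inv_cancel, inv_mul_cancel, mul_one, one_mul, inv_one, C]) (by simp only [mul_assoc, mul_inv_rev, inv_inv, mul_inv_cancel_left, inv_mul_cancel_left, mul_inv_cancel, inv_mul_cancel, mul_one, one_mul, inv_one, C])
  have k17 : o.lt (P * x⁻¹) (P * g⁻¹) ↔ o.lt (1 * (P * x⁻¹)) (1 * (P * g⁻¹)) := o.cv hδ (1) e31 (by simp only [mul_assoc, mul_inv_rev, inv_inv, mul_inv_cancel_left, inv_mul_cancel_left, mul_inv_cancel, inv_mul_cancel, mul_one, one_mul, inv_one, C]) (by simp only [mul_assoc, mul_inv_rev, inv_inv, mul_inv_cancel_left, inv_mul_cancel_left, mul_inv_cancel, inv_mul_cancel, mul_one, one_mul, inv_one, C])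
  have k18 : o.lt (g) (x) ↔ o.lt (1 * g) (1 * x) := o.cv hδ (1) e42 (by simp only [mul_assoc, mul_inv_rev, inv_inv, mul_inv_cancel_left, inv_mul_cancel_left, mul_inv_cancel, inv_mul_cancel, mul_one, one_mul, inv_one, C]) (by simp only [mul_assoc, mul_inv_rev, inv_inv, mul_inv_cancel_left, inv_mul_cancel_left, mul_inv_cancel, inv_mul_cancel, mul_one, one_mul, inv_one, C])
  have k19 : o.lt (P * x⁻¹) (g * Q⁻¹) ↔ o.lt (1 * (P * x⁻¹)) (1 * (g * Q⁻¹)) := o.cv hδ (1) e32 (by simp only [mul_assoc, mul_inv_rev, inv_inv, mul_inv_cancel_left, inv_mul_cancel_left, mul_inv_cancel, inv_mul_cancel, mul_one, one_mul, inv_one, C]) (by simp only [mul_assoc, mul_inv_rev, inv_inv, mul_inv_cancel_left, inv_mul_cancel_left, mul_inv_cancel, inv_mul_cancel, mul_one, one_mul, inv_one, C])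
  have k20 : o.lt (Q * x⁻¹) (g * P⁻¹) ↔ o.lt (1 * (x * Q⁻¹)⁻¹) (1 * (P * g⁻¹)⁻¹) := o.cv hδ (1) e40 (by simp only [mul_assoc, mul_inv_rev, inv_inv, mul_inv_cancel_left, inv_mul_cancel_left, mul_inv_cancel, inv_mul_cancel, mul_one, one_mul, inv_one, C]) (by simp only [mul_assoc, mul_inv_rev, inv_inv, mul_inv_cancel_left, inv_mul_cancel_left, mul_inv_cancel, inv_mul_cancel, mul_one, one_mul, inv_one, C])
  have k21 : o.lt (Q * g⁻¹) (g * P⁻¹) ↔ o.lt (1 * (Q * g⁻¹)) (1 * (g * P⁻¹)) := o.cv hδ (1) e36 (by simp only [mul_assoc, mul_inv_rev, inv_inv, mul_inv_cancel_left, inv_mul_cancel_left, mul_inv_cancel, inv_mul_cancel, mul_one, one_mul, inv_one, C]) (by simp only [mul_assoc, mul_inv_rev, inv_inv, mul_inv_cancel_left, inv_mul_cancel_left, mul_inv_cancel, inv_mul_cancel, mul_one, one_mul, inv_one, C])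
  have k22 : o.lt (Q * x⁻¹) (x * P⁻¹) ↔ o.lt (1 * (Q * x⁻¹)) (1 * (x * P⁻¹)) := o.cv hδ (1) e35 (by simp only [mul_assoc, mul_inv_rev, inv_inv, mul_inv_cancel_left, inv_mul_cancel_left, mul_inv_cancel, inv_mul_cancel, mul_one, one_mul, inv_one, C]) (by simp only [mul_assoc, mul_inv_rev, inv_inv, mul_inv_cancel_left, inv_mul_cancel_left, mul_inv_cancel, inv_mul_cancel, mul_one, one_mul, inv_one, C])
  have k23 : o.lt (Q * x⁻¹) (Q * g⁻¹) ↔ o.lt (1 * (Q * x⁻¹)) (1 * (Q * g⁻¹)) := o.cv hδ (1) e41 (by simp only [mul_assoc, mul_inv_rev, inv_inv, mul_inv_cancel_left, inv_mul_cancel_left, mul_inv_cancel, inv_mul_cancel, mul_one, one_mul, inv_one, C]) (by simp only [mul_assoc, mul_inv_rev, inv_inv, mul_inv_cancel_left, inv_mul_cancel_left, mul_inv_cancel, inv_mul_cancel, mul_one, one_mul, inv_one, C])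
  have k24 : o.lt (P * (f⁻¹ * (x * Q⁻¹))) (f * (P⁻¹ * (f * x⁻¹))) ↔ o.lt ((P * f⁻¹) * (x * Q⁻¹)) ((P * f⁻¹) * (P * x⁻¹)) := o.cv hδ (1) e18 (by simp only [mul_assoc, mul_inv_rev, inv_inv, mul_inv_cancel_left, inv_mul_cancel_left, mul_inv_cancel, inv_mul_cancel, mul_one, one_mul, inv_one, C]) (by simp only [mul_assoc, mul_inv_rev, inv_inv, mul_inv_cancel_left, inv_mul_cancel_left, mul_inv_cancel, inv_mul_cancel, mul_one, one_mul, inv_one, C])
  have k25 : o.lt (P * (f⁻¹ * (g * Q⁻¹))) (f * (P⁻¹ * (f * g⁻¹))) ↔ o.lt ((P * f⁻¹) * (g * Q⁻¹)) ((P * f⁻¹) * (P * g⁻¹)) := o.cv hδ (1) e23 (by simp only [mul_assoc, mul_inv_rev, inv_inv, mul_inv_cancel_left, inv_mul_cancel_left, mul_inv_cancel, inv_mul_cancel, mul_one, one_mul, inv_one, C]) (by simp only [mul_assoc, mul_inv_rev, inv_inv, mul_inv_cancel_left, inv_mul_cancel_left, mul_inv_cancel, inv_mul_cancel, mul_one, one_mul, inv_one, C])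
  have k26 : o.lt (f * (P⁻¹ * (f * x⁻¹))) (f * (P⁻¹ * (f * g⁻¹))) ↔ o.lt ((P * f⁻¹) * (P * x⁻¹)) ((P * f⁻¹) * (P * g⁻¹)) := o.cv hδ (x * (f⁻¹ * (P * (f⁻¹ * (P * (f⁻¹ * (P * x⁻¹))))))) e12 (by simp only [mul_assoc, mul_inv_rev, inv_inv, mul_inv_cancel_left, inv_mul_cancel_left, mul_inv_cancel, inv_mul_cancel, mul_one, one_mul, inv_one, C]) (by simp only [mul_assoc, mul_inv_rev, inv_inv, mul_inv_cancel_left, inv_mul_cancel_left, mul_inv_cancel, inv_mul_cancel, mul_one, one_mul, inv_one, C])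
  have k27 : o.lt (P * (f⁻¹ * g)) (P * (f⁻¹ * x)) ↔ o.lt ((P * f⁻¹) * g) ((P * f⁻¹) * x) := o.cv hδ (1) e21 (by simp only [mul_assoc, mul_inv_rev, inv_inv, mul_inv_cancel_left, inv_mul_cancel_left, mul_inv_cancel, inv_mul_cancel, mul_one, one_mul, inv_one, C]) (by simp only [mul_assoc, mul_inv_rev, inv_inv, mul_inv_cancel_left, inv_mul_cancel_left, mul_inv_cancel, inv_mul_cancel, mul_one, one_mul, inv_one, C])
  have k28 : o.lt (P * (f⁻¹ * (Q * x⁻¹))) (P * (f⁻¹ * (Q * g⁻¹))) ↔ o.lt ((P * f⁻¹) * (Q * x⁻¹)) ((P * f⁻¹) * (Q * g⁻¹)) := o.cv hδ (1) e17 (by simp only [mul_assoc, mul_inv_rev, inv_inv, mul_inv_cancel_left, inv_mul_cancel_left, mul_inv_cancel, inv_mul_cancel, mul_one, one_mul, inv_one, C]) (by simp only [mul_assoc, mul_inv_rev, inv_inv, mul_inv_cancel_left, inv_mul_cancel_left, mul_inv_cancel, inv_mul_cancel, mul_one, one_mul, inv_one, C])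
  have k29 : o.lt (P * (f⁻¹ * (x * P⁻¹))) (P * (f⁻¹ * (Q * g⁻¹))) ↔ o.lt ((P * f⁻¹) * (x * P⁻¹)) ((P * f⁻¹) * (Q * g⁻¹)) := o.cv hδ (1) e11 (by simp only [mul_assoc, mul_inv_rev, inv_inv, mul_inv_cancel_left, inv_mul_cancel_left, mul_inv_cancel, inv_mul_cancel, mul_one, one_mul, inv_one, C]) (by simp only [mul_assoc, mul_inv_rev, inv_inv, mul_inv_cancel_left, inv_mul_cancel_left, mul_inv_cancel, inv_mul_cancel, mul_one, one_mul, inv_one, C])
  have k30 : o.lt (P * (f⁻¹ * (x * Q⁻¹))) (f * (P⁻¹ * (f * g⁻¹))) ↔ o.lt ((P * f⁻¹) * (Q * x⁻¹)⁻¹) ((P * f⁻¹) * (g * P⁻¹)⁻¹) := o.cv hδ (1) e19 (by simp only [mul_assoc, mul_inv_rev, inv_inv, mul_inv_cancel_left, inv_mul_cancel_left, mul_inv_cancel, inv_mul_cancel, mul_one, one_mul, inv_one, C]) (by simp only [mul_assoc, mul_inv_rev, inv_inv, mul_inv_cancel_left, inv_mul_cancel_left, mul_inv_cancel, inv_mul_cancel, mul_one, one_mul, inv_one, C])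
  have k31 : o.lt (P * (f⁻¹ * (Q * g⁻¹))) (P * (f⁻¹ * (g * P⁻¹))) ↔ o.lt ((P * f⁻¹) * (Q * g⁻¹)) ((P * f⁻¹) * (g * P⁻¹)) := o.cv hδ (1) e15 (by simp only [mul_assoc, mul_inv_rev, inv_inv, mul_inv_cancel_left, inv_mul_cancel_left, mul_inv_cancel, inv_mul_cancel, mul_one, one_mul, inv_one, C]) (by simp only [mul_assoc, mul_inv_rev, inv_inv, mul_inv_cancel_left, inv_mul_cancel_left, mul_inv_cancel, inv_mul_cancel, mul_one, one_mul, inv_one, C])
  have k32 : o.lt (P * (f⁻¹ * (Q * x⁻¹))) (P * (f⁻¹ * (x * P⁻¹))) ↔ o.lt ((P * f⁻¹) * (Q * x⁻¹)) ((P * f⁻¹) * (x * P⁻¹)) := o.cv hδ (1) e14 (by simp only [mul_assoc, mul_inv_rev, inv_inv, mul_inv_cancel_left, inv_mul_cancel_left, mul_inv_cancel, inv_mul_cancel, mul_one, one_mul, inv_one, C]) (by simp only [mul_assoc, mul_inv_rev, inv_inv, mul_inv_cancel_left, inv_mul_cancel_left, mul_inv_cancel, inv_mul_cancel, mul_one, one_mul, inv_one, C])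
  have k33 : o.lt (P * f⁻¹) (P * x⁻¹) ↔ o.lt (P * f⁻¹) (P * x⁻¹) := o.cv hδ (1) e10 (by simp only [mul_assoc, mul_inv_rev, inv_inv, mul_inv_cancel_left, inv_mul_cancel_left, mul_inv_cancel, inv_mul_cancel, mul_one, one_mul, inv_one, C]) (by simp only [mul_assoc, mul_inv_rev, inv_inv, mul_inv_cancel_left, inv_mul_cancel_left, mul_inv_cancel, inv_mul_cancel, mul_one, one_mul, inv_one, C])
  have k34 : o.lt (P * x⁻¹) (P * f⁻¹) ↔ o.lt (P * x⁻¹) (P * f⁻¹) := o.cv hδ (1) e0 (by simp only [mul_assoc, mul_inv_rev, inv_inv, mul_inv_cancel_left, inv_mul_cancel_left, mul_inv_cancel, inv_mul_cancel, mul_one, one_mul, inv_one, C]) (by simp only [mul_assoc, mul_inv_rev, inv_inv, mul_inv_cancel_left, inv_mul_cancel_left, mul_inv_cancel, inv_mul_cancel, mul_one, one_mul, inv_one, C])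
  have k35 : o.lt (P * f⁻¹) (f * Q⁻¹) ↔ o.lt (P * f⁻¹) (f * Q⁻¹) := o.cv hδ (1) e13 (by simp only [mul_assoc, mul_inv_rev, inv_inv, mul_inv_cancel_left, inv_mul_cancel_left, mul_inv_cancel, inv_mul_cancel, mul_one, one_mul, inv_one, C]) (by simp only [mul_assoc, mul_inv_rev, inv_inv, mul_inv_cancel_left, inv_mul_cancel_left, mul_inv_cancel, inv_mul_cancel, mul_one, one_mul, inv_one, C])
  have k36 : o.lt (f * Q⁻¹) (P * f⁻¹) ↔ o.lt (f * Q⁻¹) (P * f⁻¹) := o.cv hδ (1) e1 (by simp only [mul_assoc, mul_inv_rev, inv_inv, mul_inv_cancel_left, inv_mul_cancel_left, mul_inv_cancel, inv_mul_cancel, mul_one, one_mul, inv_one, C]) (by simp only [mul_assoc, mul_inv_rev, inv_inv, mul_inv_cancel_left, inv_mul_cancel_left, mul_inv_cancel, inv_mul_cancel, mul_one, one_mul, inv_one, C])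
  have k37 : o.lt (P * f⁻¹) (x * Q⁻¹) ↔ o.lt (P * f⁻¹) (x * Q⁻¹) := o.cv hδ (1) e16 (by simp only [mul_assoc, mul_inv_rev, inv_inv, mul_inv_cancel_left, inv_mul_cancel_left, mul_inv_cancel, inv_mul_cancel, mul_one, one_mul, inv_one, C]) (by simp only [mul_assoc, mul_inv_rev, inv_inv, mul_inv_cancel_left, inv_mul_cancel_left, mul_inv_cancel, inv_mul_cancel, mul_one, one_mul, inv_one, C])
  have k38 : o.lt (x * Q⁻¹) (P * f⁻¹) ↔ o.lt (x * Q⁻¹) (P * f⁻¹) := o.cv hδ (1) e2 (by simp only [mul_assoc, mul_inv_rev, inv_inv, mul_inv_cancel_left, inv_mul_cancel_left, mul_inv_cancel, inv_mul_cancel, mul_one, one_mul, inv_one, C]) (by simp only [mul_assoc, mul_inv_rev, inv_inv, mul_inv_cancel_left, inv_mul_cancel_left, mul_inv_cancel, inv_mul_cancel, mul_one, one_mul, inv_one, C])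
  have k39 : o.lt (P * f⁻¹) (P * g⁻¹) ↔ o.lt (P * f⁻¹) (P * g⁻¹) := o.cv hδ (1) e20 (by simp only [mul_assoc, mul_inv_rev, inv_inv, mul_inv_cancel_left, inv_mul_cancel_left, mul_inv_cancel, inv_mul_cancel, mul_one, one_mul, inv_one, C]) (by simp only [mul_assoc, mul_inv_rev, inv_inv, mul_inv_cancel_left, inv_mul_cancel_left, mul_inv_cancel, inv_mul_cancel, mul_one, one_mul, inv_one, C])
  have k40 : o.lt (f * Q⁻¹) (P * g⁻¹) ↔ o.lt (f * Q⁻¹) (P * g⁻¹) := o.cv hδ (1) e29 (by simp only [mul_assoc, mul_inv_rev, inv_inv, mul_inv_cancel_left, inv_mul_cancel_left, mul_inv_cancel, inv_mul_cancel, mul_one, one_mul, inv_one, C]) (by simp only [mul_assoc, mul_inv_rev, inv_inv, mul_inv_cancel_left, inv_mul_cancel_left, mul_inv_cancel, inv_mul_cancel, mul_one, one_mul, inv_one, C])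
  have k41 : o.lt (P * f⁻¹) (g * Q⁻¹) ↔ o.lt (P * f⁻¹) (g * Q⁻¹) := o.cv hδ (1) e22 (by simp only [mul_assoc, mul_inv_rev, inv_inv, mul_inv_cancel_left, inv_mul_cancel_left, mul_inv_cancel, inv_mul_cancel, mul_one, one_mul, inv_one, C]) (by simp only [mul_assoc, mul_inv_rev, inv_inv, mul_inv_cancel_left, inv_mul_cancel_left, mul_inv_cancel, inv_mul_cancel, mul_one, one_mul, inv_one, C])
  have k42 : o.lt (f * Q⁻¹) (g * Q⁻¹) ↔ o.lt (f * Q⁻¹) (g * Q⁻¹) := o.cv hδ (1) e28 (by simp only [mul_assoc, mul_inv_rev, inv_inv, mul_inv_cancel_left, inv_mul_cancel_left, mul_inv_cancel, inv_mul_cancel, mul_one, one_mul, inv_one, C]) (by simp only [mul_assoc, mul_inv_rev, inv_inv, mul_inv_cancel_left, inv_mul_cancel_left, mul_inv_cancel, inv_mul_cancel, mul_one, one_mul, inv_one, C])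
  have k43 : o.lt (P * f⁻¹) (Q * P⁻¹) ↔ o.lt (P * f⁻¹) (Q * P⁻¹) := o.cv hδ (1) e24 (by simp only [mul_assoc, mul_inv_rev, inv_inv, mul_inv_cancel_left, inv_mul_cancel_left, mul_inv_cancel, inv_mul_cancel, mul_one, one_mul, inv_one, C]) (by simp only [mul_assoc, mul_inv_rev, inv_inv, mul_inv_cancel_left, inv_mul_cancel_left, mul_inv_cancel, inv_mul_cancel, mul_one, one_mul, inv_one, C])
  have k44 : o.lt (x * P⁻¹) (Q * x⁻¹) ↔ o.lt (P * x⁻¹) (Q * P⁻¹) := o.cv hδ (P * (x⁻¹ * (P * x⁻¹))) e33 (by simp only [mul_assoc, mul_inv_rev, inv_inv, mul_inv_cancel_left, inv_mul_cancel_left, mul_inv_cancel, inv_mul_cancel, mul_one, one_mul, inv_one, C]) (by simp only [mul_assoc, mul_inv_rev, inv_inv, mul_inv_cancel_left, inv_mul_cancel_left, mul_inv_cancel, inv_mul_cancel, mul_one, one_mul, inv_one, C])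
  have k45 : o.lt (P * x⁻¹) (x * Q⁻¹) ↔ o.lt (P * x⁻¹) (x * Q⁻¹) := o.cv hδ (1) e27 (by simp only [mul_assoc, mul_inv_rev, inv_inv, mul_inv_cancel_left, inv_mul_cancel_left, mul_inv_cancel, inv_mul_cancel, mul_one, one_mul, inv_one, C]) (by simp only [mul_assoc, mul_inv_rev, inv_inv, mul_inv_cancel_left, inv_mul_cancel_left, mul_inv_cancel, inv_mul_cancel, mul_one, one_mul, inv_one, C])
  have k46 : o.lt (P * x⁻¹) (g * Q⁻¹) ↔ o.lt (P * x⁻¹) (g * Q⁻¹) := o.cv hδ (1) e32 (by simp only [mul_assoc, mul_inv_rev, inv_inv, mul_inv_cancel_left, inv_mul_cancel_left, mul_inv_cancel, inv_mul_cancel, mul_one, one_mul, inv_one, C]) (by simp only [mul_assoc, mul_inv_rev, inv_inv, mul_inv_cancel_left, inv_mul_cancel_left, mul_inv_cancel, inv_mul_cancel, mul_one, one_mul, inv_one, C])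
  have k47 : o.lt (g * Q⁻¹) (x * Q⁻¹) ↔ o.lt (g * Q⁻¹) (x * Q⁻¹) := o.cv hδ (1) e34 (by simp only [mul_assoc, mul_inv_rev, inv_inv, mul_inv_cancel_left, inv_mul_cancel_left, mul_inv_cancel, inv_mul_cancel, mul_one, one_mul, inv_one, C]) (by simp only [mul_assoc, mul_inv_rev, inv_inv, mul_inv_cancel_left, inv_mul_cancel_left, mul_inv_cancel, inv_mul_cancel, mul_one, one_mul, inv_one, C])
  have k48 : o.lt (f * P⁻¹) (x * P⁻¹) ↔ o.lt (f * Q⁻¹) (x * Q⁻¹) := o.cv hδ (P * Q⁻¹) e25 (by simp only [mul_assoc, mul_inv_rev, inv_inv, mul_inv_cancel_left, inv_mul_cancel_left, mul_inv_cancel, inv_mul_cancel, mul_one, one_mul, inv_one, C]) (by simp only [mul_assoc, mul_inv_rev, inv_inv, mul_inv_cancel_left, inv_mul_cancel_left, mul_inv_cancel, inv_mul_cancel, mul_one, one_mul, inv_one, C])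
  have k49 : o.lt (x * P⁻¹) (f * P⁻¹) ↔ o.lt (x * Q⁻¹) (f * Q⁻¹) := o.cv hδ (P * Q⁻¹) e4 (by simp only [mul_assoc, mul_inv_rev, inv_inv, mul_inv_cancel_left, inv_mul_cancel_left, mul_inv_cancel, inv_mul_cancel, mul_one, one_mul, inv_one, C]) (by simp only [mul_assoc, mul_inv_rev, inv_inv, mul_inv_cancel_left, inv_mul_cancel_left, mul_inv_cancel, inv_mul_cancel, mul_one, one_mul, inv_one, C])
  have k50 : o.lt (g * Q⁻¹) (P * g⁻¹) ↔ o.lt (g * Q⁻¹) (P * g⁻¹) := o.cv hδ (1) e9 (by simp only [mul_assoc, mul_inv_rev, inv_inv, mul_inv_cancel_left, inv_mul_cancel_left, mul_inv_cancel, inv_mul_cancel, mul_one, one_mul, inv_one, C]) (by simp only [mul_assoc, mul_inv_rev, inv_inv, mul_inv_cancel_left, inv_mul_cancel_left, mul_inv_cancel, inv_mul_cancel, mul_one, one_mul, inv_one, C])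
  have k51 : o.lt (P * g⁻¹) (g * Q⁻¹) ↔ o.lt (P * g⁻¹) (g * Q⁻¹) := o.cv hδ (1) e30 (by simp only [mul_assoc, mul_inv_rev, inv_inv, mul_inv_cancel_left, inv_mul_cancel_left, mul_inv_cancel, inv_mul_cancel, mul_one, one_mul, inv_one, C]) (by simp only [mul_assoc, mul_inv_rev, inv_inv, mul_inv_cancel_left, inv_mul_cancel_left, mul_inv_cancel, inv_mul_cancel, mul_one, one_mul, inv_one, C])
  have k52 : o.lt (g * Q⁻¹) (f * Q⁻¹) ↔ o.lt (g * Q⁻¹) (f * Q⁻¹) := o.cv hδ (1) e7 (by simp only [mul_assoc, mul_inv_rev, inv_inv, mul_inv_cancel_left, inv_mul_cancel_left, mul_inv_cancel, inv_mul_cancel, mul_one, one_mul, inv_one, C]) (by simp only [mul_assoc, mul_inv_rev, inv_inv, mul_inv_cancel_left, inv_mul_cancel_left, mul_inv_cancel, inv_mul_cancel, mul_one, one_mul, inv_one, C])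
  have k53 : o.lt (Q * x⁻¹) (x * P⁻¹) ↔ o.lt (Q * P⁻¹) (P * x⁻¹) := o.cv hδ (x * P⁻¹) e35 (by simp only [mul_assoc, mul_inv_rev, inv_inv, mul_inv_cancel_left, inv_mul_cancel_left, mul_inv_cancel, inv_mul_cancel, mul_one, one_mul, inv_one, C]) (by simp only [mul_assoc, mul_inv_rev, inv_inv, mul_inv_cancel_left, inv_mul_cancel_left, mul_inv_cancel, inv_mul_cancel, mul_one, one_mul, inv_one, C])
  have k54 : o.lt (Q * P⁻¹) (P * f⁻¹) ↔ o.lt (Q * P⁻¹) (P * f⁻¹) := o.cv hδ (1) e3 (by simp only [mul_assoc, mul_inv_rev, inv_inv, mul_inv_cancel_left, inv_mul_cancel_left, mul_inv_cancel, inv_mul_cancel, mul_one, one_mul, inv_one, C]) (by simp only [mul_assoc, mul_inv_rev, inv_inv, mul_inv_cancel_left, inv_mul_cancel_left, mul_inv_cancel, inv_mul_cancel, mul_one, one_mul, inv_one, C])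
  have k55 : o.lt (f * P⁻¹) (x * P⁻¹) ↔ o.lt (f * P⁻¹) (x * P⁻¹) := o.cv hδ (1) e25 (by simp only [mul_assoc, mul_inv_rev, inv_inv, mul_inv_cancel_left, inv_mul_cancel_left, mul_inv_cancel, inv_mul_cancel, mul_one, one_mul, inv_one, C]) (by simp only [mul_assoc, mul_inv_rev, inv_inv, mul_inv_cancel_left, inv_mul_cancel_left, mul_inv_cancel, inv_mul_cancel, mul_one, one_mul, inv_one, C])
  have k56 : o.lt (f * P⁻¹) (Q * x⁻¹) ↔ o.lt (f * P⁻¹) (Q * x⁻¹) := o.cv hδ (1) e26 (by simp only [mul_assoc, mul_inv_rev, inv_inv, mul_inv_cancel_left, inv_mul_cancel_left, mul_inv_cancel, inv_mul_cancel, mul_one, one_mul, inv_one, C]) (by simp only [mul_assoc, mul_inv_rev, inv_inv, mul_inv_cancel_left, inv_mul_cancel_left, mul_inv_cancel, inv_mul_cancel, mul_one, one_mul, inv_one, C])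
  have k57 : o.lt (Q * x⁻¹) (x * P⁻¹) ↔ o.lt (Q * x⁻¹) (x * P⁻¹) := o.cv hδ (1) e35 (by simp only [mul_assoc, mul_inv_rev, inv_inv, mul_inv_cancel_left, inv_mul_cancel_left, mul_inv_cancel, inv_mul_cancel, mul_one, one_mul, inv_one, C]) (by simp only [mul_assoc, mul_inv_rev, inv_inv, mul_inv_cancel_left, inv_mul_cancel_left, mul_inv_cancel, inv_mul_cancel, mul_one, one_mul, inv_one, C])
  have k58 : o.lt (Q * x⁻¹) (f * P⁻¹) ↔ o.lt (Q * x⁻¹) (f * P⁻¹) := o.cv hδ (1) e5 (by simp only [mul_assoc, mul_inv_rev, inv_inv, mul_inv_cancel_left, inv_mul_cancel_left, mul_inv_cancel, inv_mul_cancel, mul_one, one_mul, inv_one, C]) (by simp only [mul_assoc, mul_inv_rev, inv_inv, mul_inv_cancel_left, inv_mul_cancel_left, mul_inv_cancel, inv_mul_cancel, mul_one, one_mul, inv_one, C])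
  have k59 : o.lt (Q * P⁻¹) (P * f⁻¹) ↔ o.lt (Q * f⁻¹) (f * P⁻¹) := o.cv hδ (P * f⁻¹) e3 (by simp only [mul_assoc, mul_inv_rev, inv_inv, mul_inv_cancel_left, inv_mul_cancel_left, mul_inv_cancel, inv_mul_cancel, mul_one, one_mul, inv_one, C]) (by simp only [mul_assoc, mul_inv_rev, inv_inv, mul_inv_cancel_left, inv_mul_cancel_left, mul_inv_cancel, inv_mul_cancel, mul_one, one_mul, inv_one, C])
  have k60 : o.lt (Q * f⁻¹) (g * P⁻¹) ↔ o.lt (Q * f⁻¹) (g * P⁻¹) := o.cv hδ (1) e38 (by simp only [mul_assoc, mul_inv_rev, inv_inv, mul_inv_cancel_left, inv_mul_cancel_left, mul_inv_cancel, inv_mul_cancel, mul_one, one_mul, inv_one, C]) (by simp only [mul_assoc, mul_inv_rev, inv_inv, mul_inv_cancel_left, inv_mul_cancel_left, mul_inv_cancel, inv_mul_cancel, mul_one, one_mul, inv_one, C])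
  have k61 : o.lt (g * Q⁻¹) (f * Q⁻¹) ↔ o.lt (g * P⁻¹) (f * P⁻¹) := o.cv hδ (Q * P⁻¹) e7 (by simp only [mul_assoc, mul_inv_rev, inv_inv, mul_inv_cancel_left, inv_mul_cancel_left, mul_inv_cancel, inv_mul_cancel, mul_one, one_mul, inv_one, C]) (by simp only [mul_assoc, mul_inv_rev, inv_inv, mul_inv_cancel_left, inv_mul_cancel_left, mul_inv_cancel, inv_mul_cancel, mul_one, one_mul, inv_one, C])
  have k62 : o.lt (Q * f⁻¹) (Q * x⁻¹) ↔ o.lt (Q * f⁻¹) (Q * x⁻¹) := o.cv hδ (1) e37 (by simp only [mul_assoc, mul_inv_rev, inv_inv, mul_inv_cancel_left, inv_mul_cancel_left, mul_inv_cancel, inv_mul_cancel, mul_one, one_mul, inv_one, C]) (by simp only [mul_assoc, mul_inv_rev, inv_inv, mul_inv_cancel_left, inv_mul_cancel_left, mul_inv_cancel, inv_mul_cancel, mul_one, one_mul, inv_one, C])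
  have k63 : o.lt (Q * x⁻¹) (Q * f⁻¹) ↔ o.lt (Q * x⁻¹) (Q * f⁻¹) := o.cv hδ (1) e39 (by simp only [mul_assoc, mul_inv_rev, inv_inv, mul_inv_cancel_left, inv_mul_cancel_left, mul_inv_cancel, inv_mul_cancel, mul_one, one_mul, inv_one, C]) (by simp only [mul_assoc, mul_inv_rev, inv_inv, mul_inv_cancel_left, inv_mul_cancel_left, mul_inv_cancel, inv_mul_cancel, mul_one, one_mul, inv_one, C])
  have k64 : o.lt (P * f⁻¹) (Q * P⁻¹) ↔ o.lt (f * P⁻¹) (Q * f⁻¹) := o.cv hδ (f * (P⁻¹ * (f * P⁻¹))) e24 (by simp only [mul_assoc, mul_inv_rev, inv_inv, mul_inv_cancel_left, inv_mul_cancel_left, mul_inv_cancel, inv_mul_cancel, mul_one, one_mul, inv_one, C]) (by simp only [mul_assoc, mul_inv_rev, inv_inv, mul_inv_cancel_left, inv_mul_cancel_left, mul_inv_cancel, inv_mul_cancel, mul_one, one_mul, inv_one, C])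
  have k65 : o.lt (Q * x⁻¹) (g * P⁻¹) ↔ o.lt (Q * x⁻¹) (g * P⁻¹) := o.cv hδ (1) e40 (by simp only [mul_assoc, mul_inv_rev, inv_inv, mul_inv_cancel_left, inv_mul_cancel_left, mul_inv_cancel, inv_mul_cancel, mul_one, one_mul, inv_one, C]) (by simp only [mul_assoc, mul_inv_rev, inv_inv, mul_inv_cancel_left, inv_mul_cancel_left, mul_inv_cancel, inv_mul_cancel, mul_one, one_mul, inv_one, C])
  have k66 : o.lt (f * Q⁻¹) (g * Q⁻¹) ↔ o.lt (f * P⁻¹) (g * P⁻¹) := o.cv hδ (Q * P⁻¹) e28 (by simp only [mul_assoc, mul_inv_rev, inv_inv, mul_inv_cancel_left, inv_mul_cancel_left, mul_inv_cancel, inv_mul_cancel, mul_one, one_mul, inv_one, C]) (by simp only [mul_assoc, mul_inv_rev, inv_inv, mul_inv_cancel_left, inv_mul_cancel_left, mul_inv_cancel, inv_mul_cancel, mul_one, one_mul, inv_one, C])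
  have k67 : o.lt (Q * x⁻¹) (Q * g⁻¹) ↔ o.lt (Q * x⁻¹) (Q * g⁻¹) := o.cv hδ (1) e41 (by simp only [mul_assoc, mul_inv_rev, inv_inv, mul_inv_cancel_left, inv_mul_cancel_left, mul_inv_cancel, inv_mul_cancel, mul_one, one_mul, inv_one, C]) (by simp only [mul_assoc, mul_inv_rev, inv_inv, mul_inv_cancel_left, inv_mul_cancel_left, mul_inv_cancel, inv_mul_cancel, mul_one, one_mul, inv_one, C])
  have k68 : o.lt (Q * g⁻¹) (Q * x⁻¹) ↔ o.lt (Q * g⁻¹) (Q * x⁻¹) := o.cv hδ (1) e43 (by simp only [mul_assoc, mul_inv_rev, inv_inv, mul_inv_cancel_left, inv_mul_cancel_left, mul_inv_cancel, inv_mul_cancel, mul_one, one_mul, inv_one, C]) (by simp only [mul_assoc, mul_inv_rev, inv_inv, mul_inv_cancel_left, inv_mul_cancel_left, mul_inv_cancel, inv_mul_cancel, mul_one, one_mul, inv_one, C])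
  have k69 : o.lt (x * Q⁻¹) (P * x⁻¹) ↔ o.lt (Q * x⁻¹) (P * Q⁻¹) := o.cv hδ (Q * (x⁻¹ * (Q * x⁻¹))) e6 (by simp only [mul_assoc, mul_inv_rev, inv_inv, mul_inv_cancel_left, inv_mul_cancel_left, mul_inv_cancel, inv_mul_cancel, mul_one, one_mul, inv_one, C]) (by simp only [mul_assoc, mul_inv_rev, inv_inv, mul_inv_cancel_left, inv_mul_cancel_left, mul_inv_cancel, inv_mul_cancel, mul_one, one_mul, inv_one, C])
  have k70 : o.lt (g * Q⁻¹) (P * g⁻¹) ↔ o.lt (Q * g⁻¹) (P * Q⁻¹) := o.cv hδ (Q * (g⁻¹ * (Q * g⁻¹))) e9 (by simp only [mul_assoc, mul_inv_rev, inv_inv, mul_inv_cancel_left, inv_mul_cancel_left, mul_inv_cancel, inv_mul_cancel, mul_one, one_mul, inv_one, C]) (by simp only [mul_assoc, mul_inv_rev, inv_inv, mul_inv_cancel_left, inv_mul_cancel_left, mul_inv_cancel, inv_mul_cancel, mul_one, one_mul, inv_one, C])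
  have k71 : o.lt (g) (x) ↔ o.lt (g * P⁻¹) (x * P⁻¹) := o.cv hδ (P⁻¹) e42 (by simp only [mul_assoc, mul_inv_rev, inv_inv, mul_inv_cancel_left, inv_mul_cancel_left, mul_inv_cancel, inv_mul_cancel, mul_one, one_mul, inv_one, C]) (by simp only [mul_assoc, mul_inv_rev, inv_inv, mul_inv_cancel_left, inv_mul_cancel_left, mul_inv_cancel, inv_mul_cancel, mul_one, one_mul, inv_one, C])
  have k72 : o.lt (Q * g⁻¹) (f * P⁻¹) ↔ o.lt (Q * g⁻¹) (f * P⁻¹) := o.cv hδ (1) e8 (by simp only [mul_assoc, mul_inv_rev, inv_inv, mul_inv_cancel_left, inv_mul_cancel_left, mul_inv_cancel, inv_mul_cancel, mul_one, one_mul, inv_one, C]) (by simp only [mul_assoc, mul_inv_rev, inv_inv, mul_inv_cancel_left, inv_mul_cancel_left, mul_inv_cancel, inv_mul_cancel, mul_one, one_mul, inv_one, C])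
  have k73 : o.lt (Q * g⁻¹) (g * P⁻¹) ↔ o.lt (Q * g⁻¹) (g * P⁻¹) := o.cv hδ (1) e36 (by simp only [mul_assoc, mul_inv_rev, inv_inv, mul_inv_cancel_left, inv_mul_cancel_left, mul_inv_cancel, inv_mul_cancel, mul_one, one_mul, inv_one, C]) (by simp only [mul_assoc, mul_inv_rev, inv_inv, mul_inv_cancel_left, inv_mul_cancel_left, mul_inv_cancel, inv_mul_cancel, mul_one, one_mul, inv_one, C])
  have k74 : o.lt (P * g⁻¹) (g * Q⁻¹) ↔ o.lt (P * Q⁻¹) (Q * g⁻¹) := o.cv hδ (g * Q⁻¹) e30 (by simp only [mul_assoc, mul_inv_rev, inv_inv, mul_inv_cancel_left, inv_mul_cancel_left, mul_inv_cancel, inv_mul_cancel, mul_one, one_mul, inv_one, C]) (by simp only [mul_assoc, mul_inv_rev, inv_inv, mul_inv_cancel_left, inv_mul_cancel_left, mul_inv_cancel, inv_mul_cancel, mul_one, one_mul, inv_one, C])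
  have k75 : o.lt (P * x⁻¹) (x * Q⁻¹) ↔ o.lt (P * Q⁻¹) (Q * x⁻¹) := o.cv hδ (x * Q⁻¹) e27 (by simp only [mul_assoc, mul_inv_rev, inv_inv, mul_inv_cancel_left, inv_mul_cancel_left, mul_inv_cancel, inv_mul_cancel, mul_one, one_mul, inv_one, C]) (by simp only [mul_assoc, mul_inv_rev, inv_inv, mul_inv_cancel_left, inv_mul_cancel_left, mul_inv_cancel, inv_mul_cancel, mul_one, one_mul, inv_one, C])
  have k76 : o.lt (P * (f⁻¹ * (x * Q⁻¹))) (f * (P⁻¹ * (f * g⁻¹))) ↔ o.lt (P * (f⁻¹ * (x * Q⁻¹))) (P * (f⁻¹ * (P * g⁻¹))) := o.cv hδ (1) e19 (by simp only [mul_assoc, mul_inv_rev, inv_inv, mul_inv_cancel_left, inv_mul_cancel_left, mul_inv_cancel, inv_mul_cancel, mul_one, one_mul, inv_one, C]) (by simp only [mul_assoc, mul_inv_rev, inv_inv, mul_inv_cancel_left, inv_mul_cancel_left, mul_inv_cancel, inv_mul_cancel, mul_one, one_mul, inv_one, C])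
  have k77 : o.lt (P * (f⁻¹ * (x * Q⁻¹))) (f * (P⁻¹ * (f * x⁻¹))) ↔ o.lt (P * (f⁻¹ * (x * Q⁻¹))) (P * (f⁻¹ * (P * x⁻¹))) := o.cv hδ (1) e18 (by simp only [mul_assoc, mul_inv_rev, inv_inv, mul_inv_cancel_left, inv_mul_cancel_left, mul_inv_cancel, inv_mul_cancel, mul_one, one_mul, inv_one, C]) (by simp only [mul_assoc, mul_inv_rev, inv_inv, mul_inv_cancel_left, inv_mul_cancel_left, mul_inv_cancel, inv_mul_cancel, mul_one, one_mul, inv_one, C])
  have k78 : o.lt (f * (P⁻¹ * (f * x⁻¹))) (f * (P⁻¹ * (f * g⁻¹))) ↔ o.lt (P * (f⁻¹ * (P * x⁻¹))) (P * (f⁻¹ * (P * g⁻¹))) := o.cv hδ (x * (f⁻¹ * (P * (f⁻¹ * (P * (f⁻¹ * (P * x⁻¹))))))) e12 (by simp only [mul_assoc, mul_inv_rev, inv_inv, mul_inv_cancel_left, inv_mul_cancel_left, mul_inv_cancel, inv_mul_cancel, mul_one, one_mul, inv_one, C]) (by simp only [mul_assoc, mul_inv_rev, inv_inv, mul_inv_cancel_left, inv_mul_cancel_left, mul_inv_cancel, inv_mul_cancel, mul_one,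 one_mul, inv_one, C])
  have k79 : o.lt (P * (f⁻¹ * (Q * g⁻¹))) (P * (f⁻¹ * (g * P⁻¹))) ↔ o.lt (P * (f⁻¹ * (Q * P⁻¹))) (P * (f⁻¹ * (P * g⁻¹))) := o.cv hδ (g * P⁻¹) e15 (by simp only [mul_assoc, mul_inv_rev, inv_inv, mul_inv_cancel_left, inv_mul_cancel_left, mul_inv_cancel, inv_mul_cancel, mul_one, one_mul, inv_one, C]) (by simp only [mul_assoc, mul_inv_rev, inv_inv, mul_inv_cancel_left, inv_mul_cancel_left, mul_inv_cancel, inv_mul_cancel, mul_one, one_mul, inv_one, C])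
  have k80 : o.lt (P * (f⁻¹ * (Q * x⁻¹))) (P * (f⁻¹ * (x * P⁻¹))) ↔ o.lt (P * (f⁻¹ * (Q * P⁻¹))) (P * (f⁻¹ * (P * x⁻¹))) := o.cv hδ (x * P⁻¹) e14 (by simp only [mul_assoc, mul_inv_rev, inv_inv, mul_inv_cancel_left, inv_mul_cancel_left, mul_inv_cancel, inv_mul_cancel, mul_one, one_mul, inv_one, C]) (by simp only [mul_assoc, mul_inv_rev, inv_inv, mul_inv_cancel_left, inv_mul_cancel_left, mul_inv_cancel, inv_mul_cancel, mul_one, one_mul, inv_one, C])
  have k81 : o.lt (P * f⁻¹) (P * x⁻¹) ↔ o.lt (P * (f⁻¹ * (x * P⁻¹))) (1) := o.cv hδ (x * P⁻¹) e10 (by simp only [mul_assoc, mul_inv_rev, inv_inv, mul_inv_cancel_left, inv_mul_cancel_left, mul_inv_cancel, inv_mul_cancel, mul_one, one_mul, inv_one, C]) (by simp only [mul_assoc, mul_inv_rev, inv_inv, mul_inv_cancel_left, inv_mul_cancel_left, mul_inv_cancel, inv_mul_cancel, mul_one, one_mul, inv_one, C])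
  have k82 : o.lt (P * (f⁻¹ * (x * P⁻¹))) (P * (f⁻¹ * (Q * g⁻¹))) ↔ o.lt (P * (f⁻¹ * (x * P⁻¹))) (P * (f⁻¹ * (Q * g⁻¹))) := o.cv hδ (1) e11 (by simp only [mul_assoc, mul_inv_rev, inv_inv, mul_inv_cancel_left, inv_mul_cancel_left, mul_inv_cancel, inv_mul_cancel, mul_one, one_mul, inv_one, C]) (by simp only [mul_assoc, mul_inv_rev, inv_inv, mul_inv_cancel_left, inv_mul_cancel_left, mul_inv_cancel, inv_mul_cancel, mul_one, one_mul, inv_one, C])
  have k83 : o.lt (P * f⁻¹) (g * Q⁻¹) ↔ o.lt (P * (f⁻¹ * (Q * g⁻¹))) (1) := o.cv hδ (Q * g⁻¹) e22 (by simp only [mul_assoc, mul_inv_rev, inv_inv, mul_inv_cancel_left, inv_mul_cancel_left, mul_inv_cancel, inv_mul_cancel, mul_one, one_mul, inv_one, C]) (by simp only [mul_assoc, mul_inv_rev, inv_inv, mul_inv_cancel_left, inv_mul_cancel_left, mul_inv_cancel, inv_mul_cancel, mul_one, one_mul, inv_one, C])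
  have k84 : o.lt (P * (f⁻¹ * (Q * x⁻¹))) (P * (f⁻¹ * (x * P⁻¹))) ↔ o.lt (P * (f⁻¹ * (Q * x⁻¹))) (P * (f⁻¹ * (x * P⁻¹))) := o.cv hδ (1) e14 (by simp only [mul_assoc, mul_inv_rev, inv_inv, mul_inv_cancel_left, inv_mul_cancel_left, mul_inv_cancel, inv_mul_cancel, mul_one, one_mul, inv_one, C]) (by simp only [mul_assoc, mul_inv_rev, inv_inv, mul_inv_cancel_left, inv_mul_cancel_left, mul_inv_cancel, inv_mul_cancel, mul_one, one_mul, inv_one, C])
  have k85 : o.lt (P * f⁻¹) (x * Q⁻¹) ↔ o.lt (P * (f⁻¹ * (Q * x⁻¹))) (1) := o.cv hδ (Q * x⁻¹) e16 (by simp only [mul_assoc, mul_inv_rev, inv_inv, mul_inv_cancel_left, inv_mul_cancel_left, mul_inv_cancel, inv_mul_cancel, mul_one, one_mul, inv_one, C]) (by simp only [mul_assoc, mul_inv_rev, inv_inv, mul_inv_cancel_left, inv_mul_cancel_left, mul_inv_cancel, inv_mul_cancel, mul_one, one_mul, inv_one, C])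
  have k86 : o.lt (P * x⁻¹) (P * f⁻¹) ↔ o.lt (1) (P * (f⁻¹ * (x * P⁻¹))) := o.cv hδ (x * P⁻¹) e0 (by simp only [mul_assoc, mul_inv_rev, inv_inv, mul_inv_cancel_left, inv_mul_cancel_left, mul_inv_cancel, inv_mul_cancel, mul_one, one_mul, inv_one, C]) (by simp only [mul_assoc, mul_inv_rev, inv_inv, mul_inv_cancel_left, inv_mul_cancel_left, mul_inv_cancel, inv_mul_cancel, mul_one, one_mul, inv_one, C])
  have k87 : o.lt (P * (f⁻¹ * (x * Q⁻¹))) (f * (P⁻¹ * (f * x⁻¹))) ↔ o.lt (P * (f⁻¹ * (Q * x⁻¹))) (P * (f⁻¹ * (P * Q⁻¹))) := o.cv hδ (Q * (x⁻¹ * (Q * x⁻¹))) e18 (by simp only [mul_assoc, mul_inv_rev, inv_inv, mul_inv_cancel_left, inv_mul_cancel_left, mul_inv_cancel, inv_mul_cancel, mul_one, one_mul, inv_one, C]) (by simp only [mul_assoc, mul_inv_rev, inv_inv, mul_inv_cancel_left, inv_mul_cancel_left, mul_inv_cancel, inv_mul_cancel, mul_one, one_mul, inv_one, C])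
  have k88 : o.lt (Q * P⁻¹) (P * f⁻¹) ↔ o.lt (1) (P * (f⁻¹ * (P * Q⁻¹))) := o.cv hδ (P * Q⁻¹) e3 (by simp only [mul_assoc, mul_inv_rev, inv_inv, mul_inv_cancel_left, inv_mul_cancel_left, mul_inv_cancel, inv_mul_cancel, mul_one, one_mul, inv_one, C]) (by simp only [mul_assoc, mul_inv_rev, inv_inv, mul_inv_cancel_left, inv_mul_cancel_left, mul_inv_cancel, inv_mul_cancel, mul_one, one_mul, inv_one, C])
  have k89 : o.lt (P * (f⁻¹ * g)) (P * (f⁻¹ * x)) ↔ o.lt (P * (f⁻¹ * (g * P⁻¹))) (P * (f⁻¹ * (x * P⁻¹))) := o.cv hδ (P⁻¹) e21 (by simp only [mul_assoc, mul_inv_rev, inv_inv, mul_inv_cancel_left, inv_mul_cancel_left, mul_inv_cancel, inv_mul_cancel, mul_one, one_mul, inv_one, C]) (by simp only [mul_assoc, mul_inv_rev, inv_inv, mul_inv_cancel_left, inv_mul_cancel_left, mul_inv_cancel, inv_mul_cancel, mul_one, one_mul, inv_one, C])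
  have k90 : o.lt (P * f⁻¹) (P * g⁻¹) ↔ o.lt (P * (f⁻¹ * (g * P⁻¹))) (1) := o.cv hδ (g * P⁻¹) e20 (by simp only [mul_assoc, mul_inv_rev, inv_inv, mul_inv_cancel_left, inv_mul_cancel_left, mul_inv_cancel, inv_mul_cancel, mul_one, one_mul, inv_one, C]) (by simp only [mul_assoc, mul_inv_rev, inv_inv, mul_inv_cancel_left, inv_mul_cancel_left, mul_inv_cancel, inv_mul_cancel, mul_one, one_mul, inv_one, C])
  have k91 : o.lt (P * (f⁻¹ * (g * Q⁻¹))) (f * (P⁻¹ * (f * g⁻¹))) ↔ o.lt (P * (f⁻¹ * (Q * g⁻¹))) (P * (f⁻¹ * (P * Q⁻¹))) := o.cv hδ (Q * (g⁻¹ * (Q * g⁻¹))) e23 (by simp only [mul_assoc, mul_inv_rev, inv_inv, mul_inv_cancel_left, inv_mul_cancel_left, mul_inv_cancel, inv_mul_cancel, mul_one, one_mul, inv_one, C]) (by simp only [mul_assoc, mul_inv_rev, inv_inv, mul_inv_cancel_left, inv_mul_cancel_left, mul_inv_cancel, inv_mul_cancel, mul_one, one_mul, inv_one, C])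
  have k92 : o.lt (Q * f⁻¹) (g * P⁻¹) ↔ o.lt ((f * Q⁻¹)⁻¹) ((P * g⁻¹)⁻¹) := o.cv hδ (1) e38 (by simp only [mul_assoc, mul_inv_rev, inv_inv, mul_inv_cancel_left, inv_mul_cancel_left, mul_inv_cancel, inv_mul_cancel, mul_one, one_mul, inv_one, C]) (by simp only [mul_assoc, mul_inv_rev, inv_inv, mul_inv_cancel_left, inv_mul_cancel_left, mul_inv_cancel, inv_mul_cancel, mul_one, one_mul, inv_one, C])
  have k93 : o.lt (g * Q⁻¹) (f * Q⁻¹) ↔ o.lt (g) (f) := o.cv hδ (Q) e7 (by simp only [mul_assoc, mul_inv_rev, inv_inv, mul_inv_cancel_left, inv_mul_cancel_left, mul_inv_cancel, inv_mul_cancel, mul_one, one_mul, inv_one, C]) (by simp only [mul_assoc, mul_inv_rev, inv_inv, mul_inv_cancel_left, inv_mul_cancel_left, mul_inv_cancel, inv_mul_cancel, mul_one, one_mul, inv_one, C])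
  exact par_ABC_1_prop
    (fun b0 b1 b2 => N0.rd.r1 1 (fun h => b0 (k0.2 h)) (fun h => b1 (k1.2 h)) (k2.1 b2))
    (fun b0 b1 b2 => N0.r.r0 1 (fun h => b0 (k3.2 h)) (k1.1 b1) (fun h => b2 (k4.2 h)))
    (fun b0 b1 b2 => N0.r.r1 1 (fun h => b0 (k5.2 h)) (fun h => b1 (k6.2 h)) (k4.1 b2))
    (fun b0 b1 b2 => N0.rd.r0 1 (fun h => b0 (k7.2 h)) (k6.1 b1) (fun h => b2 (k2.2 h)))
    (fun b0 b1 b2 => N0.i.r0 1 (fun h => b0 (k8.2 h)) (k9.1 b1) (fun h => b2 (k10.2 h)))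
    (fun b0 b1 b2 => N0.d.r0 1 (fun h => b0 (k11.2 h)) (k12.1 b1) (fun h => b2 (k13.2 h)))
    (fun b0 b1 b2 => N0.i.r1 1 (fun h => b0 (k14.2 h)) (fun h => b1 (k12.2 h)) (k10.1 b2))
    (fun b0 b1 b2 b3 => N1.i.r0 1 (fun h => b0 (k15.2 h)) (fun h => b1 (k16.2 h)) (k17.1 b2) (fun h => b3 (k18.2 h)))
    (fun b0 b1 b2 b3 => N1.i.r1 1 (fun h => b0 (k17.2 h)) (k19.1 b1) (fun h => b2 (k20.2 h)) (fun h => b3 (k18.2 h)))
    (fun b0 b1 b2 b3 => N1.rd.r0 1 (fun h => b0 (k21.2 h)) (fun h => b1 (k22.2 h)) (k23.1 b2) (fun h => b3 (k18.2 h)))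
    (fun b0 b1 b2 b3 => N1.i.r0 (P * f⁻¹) (fun h => b0 (k24.2 h)) (fun h => b1 (k25.2 h)) (k26.1 b2) (fun h => b3 (k27.2 h)))
    (fun b0 b1 b2 b3 => N1.rd.r1 (P * f⁻¹) (fun h => b0 (k28.2 h)) (k29.1 b1) (fun h => b2 (k30.2 h)) (fun h => b3 (k27.2 h)))
    (fun b0 b1 b2 b3 => N1.rd.r0 (P * f⁻¹) (fun h => b0 (k31.2 h)) (fun h => b1 (k32.2 h)) (k28.1 b2) (fun h => b3 (k27.2 h)))
    (fun b0 b1 => o.asym (k33.1 b0) (k34.1 b1))
    (fun b0 b1 => o.asym (k35.1 b0) (k36.1 b1))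
    (fun b0 b1 => o.asym (k37.1 b0) (k38.1 b1))
    (fun b0 b1 b2 => o.tri (k39.1 b0) (fun h => b1 (k35.2 h)) (fun h => b2 (k40.2 h)))
    (fun b0 b1 b2 => o.tri (k41.1 b0) (fun h => b1 (k35.2 h)) (fun h => b2 (k42.2 h)))
    (fun b0 b1 b2 => o.tri (k43.1 b0) (fun h => b1 (k33.2 h)) (fun h => b2 (k44.2 h)))
    (fun b0 b1 b2 => o.tri (k45.1 b0) (fun h => b1 (k46.2 h)) (fun h => b2 (k47.2 h)))
    (fun b0 b1 => o.asym (k48.1 b0) (k49.1 b1))
    (fun b0 b1 b2 => o.tri (k40.1 b0) (fun h => b1 (k42.2 h)) (fun h => b2 (k50.2 h)))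
    (fun b0 b1 => o.asym (k51.1 b0) (k50.1 b1))
    (fun b0 b1 b2 => o.tri (k47.1 b0) (fun h => b1 (k52.2 h)) (fun h => b2 (k48.2 h)))
    (fun b0 b1 b2 => o.tri (k53.1 b0) (fun h => b1 (k54.2 h)) (fun h => b2 (k33.2 h)))
    (fun b0 b1 b2 => o.tri (k55.1 b0) (fun h => b1 (k56.2 h)) (fun h => b2 (k57.2 h)))
    (fun b0 b1 => o.asym (k56.1 b0) (k58.1 b1))
    (fun b0 b1 b2 => o.tri (k59.1 b0) (fun h => b1 (k60.2 h)) (fun h => b2 (k61.2 h)))
    (fun b0 b1 => o.asym (k62.1 b0) (k63.1 b1))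
    (fun b0 b1 b2 => o.tri (k58.1 b0) (fun h => b1 (k63.2 h)) (fun h => b2 (k59.2 h)))
    (fun b0 b1 b2 => o.tri (k57.1 b0) (fun h => b1 (k58.2 h)) (fun h => b2 (k55.2 h)))
    (fun b0 b1 b2 => o.tri (k63.1 b0) (fun h => b1 (k58.2 h)) (fun h => b2 (k64.2 h)))
    (fun b0 b1 b2 => o.tri (k65.1 b0) (fun h => b1 (k58.2 h)) (fun h => b2 (k66.2 h)))
    (fun b0 b1 => o.asym (k67.1 b0) (k68.1 b1))
    (fun b0 b1 b2 => o.tri (k69.1 b0) (fun h => b1 (k67.2 h)) (fun h => b2 (k70.2 h)))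
    (fun b0 b1 b2 => o.tri (k71.1 b0) (fun h => b1 (k61.2 h)) (fun h => b2 (k55.2 h)))
    (fun b0 b1 b2 => o.tri (k72.1 b0) (fun h => b1 (k68.2 h)) (fun h => b2 (k58.2 h)))
    (fun b0 b1 b2 => o.tri (k73.1 b0) (fun h => b1 (k72.2 h)) (fun h => b2 (k66.2 h)))
    (fun b0 b1 b2 => o.tri (k74.1 b0) (fun h => b1 (k75.2 h)) (fun h => b2 (k67.2 h)))
    (fun b0 b1 b2 => o.tri (k76.1 b0) (fun h => b1 (k77.2 h)) (fun h => b2 (k78.2 h)))
    (fun b0 b1 b2 => o.tri (k79.1 b0) (fun h => b1 (k80.2 h)) (fun h => b2 (k78.2 h)))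
    (fun b0 b1 b2 => o.tri (k81.1 b0) (fun h => b1 (k82.2 h)) (fun h => b2 (k83.2 h)))
    (fun b0 b1 b2 => o.tri (k84.1 b0) (fun h => b1 (k85.2 h)) (fun h => b2 (k86.2 h)))
    (fun b0 b1 b2 => o.tri (k87.1 b0) (fun h => b1 (k85.2 h)) (fun h => b2 (k88.2 h)))
    (fun b0 b1 b2 => o.tri (k89.1 b0) (fun h => b1 (k90.2 h)) (fun h => b2 (k86.2 h)))
    (fun b0 b1 b2 => o.tri (k91.1 b0) (fun h => b1 (k83.2 h)) (fun h => b2 (k88.2 h)))
    (k51.2 g0)
    (fun h => g1 (k42.1 h))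
    (fun h => g2 (k92.1 h))
    (fun h => g3 (k93.1 h))

theorem par_ABC_2_prop {A1 A2 A3 A4 A5 A6 A7 A8 A9 A10 A11 A12 A13 A14 A15 A16 A17 A18 A19 A20 A21 A22 A23 A24 A25 A26 A27 A28 A29 A30 A31 A32 A33 A34 A35 A36 A37 A38 A39 : Prop}
    (c0 : ¬ A32 → A30 → ¬ A33 → False)
    (c1 : ¬ A36 → ¬ A35 → A33 → False)
    (c2 : ¬ A34 → ¬ A30 → A37 → False)
    (c3 : ¬ A20 → ¬ A15 → A12 → ¬ A26 → False)
    (c4 : ¬ A39 → A38 → ¬ A14 → ¬ A26 → False)
    (c5 : ¬ A16 → ¬ A37 → A39 → ¬ A26 → False)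
    (c6 : ¬ A1 → ¬ A2 → A8 → False)
    (c7 : ¬ A10 → A2 → ¬ A4 → False)
    (c8 : ¬ A7 → ¬ A22 → A21 → ¬ A6 → False)
    (c9 : ¬ A15 → ¬ A5 → A23 → ¬ A6 → False)
    (c10 : A29 → A32 → False)
    (c11 : A30 → A35 → False)
    (c12 : A27 → ¬ A30 → ¬ A17 → False)
    (c13 : A31 → ¬ A29 → ¬ A33 → False)
    (c14 : A32 → ¬ A28 → ¬ A35 → False)
    (c15 : A32 → ¬ A12 → ¬ A3 → False)
    (c16 : A28 → A20 → False)
    (c17 : A12 → A6 → False)
    (c18 : A12 → ¬ A28 → ¬ A14 → False)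
    (c19 : A33 → A37 → False)
    (c20 : A33 → ¬ A12 → ¬ A24 → False)
    (c21 : A18 → ¬ A13 → ¬ A3 → False)
    (c22 : A34 → A36 → False)
    (c23 : A34 → ¬ A18 → ¬ A30 → False)
    (c24 : A14 → A11 → False)
    (c25 : A14 → ¬ A20 → ¬ A12 → False)
    (c26 : A24 → A16 → False)
    (c27 : A24 → ¬ A3 → ¬ A31 → False)
    (c28 : A26 → ¬ A25 → ¬ A34 → False)
    (c29 : A26 → ¬ A15 → ¬ A11 → False)
    (c30 : A15 → ¬ A25 → ¬ A13 → False)
    (c31 : A17 → ¬ A33 → ¬ A19 → False)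
    (c32 : A19 → ¬ A39 → ¬ A16 → False)
    (c33 : A20 → ¬ A39 → ¬ A15 → False)
    (c34 : A24 → ¬ A26 → ¬ A38 → False)
    (c35 : A22 → ¬ A24 → ¬ A15 → False)
    (c36 : A26 → ¬ A21 → ¬ A6 → False)
    (c37 : A5 → A9 → False)
    (c38 : A1 → ¬ A2 → ¬ A9 → False)
    (c39 : A1 → ¬ A3 → ¬ A12 → False)
    (c40 : A2 → ¬ A3 → ¬ A14 → False)
    (c41 : A10 → ¬ A11 → ¬ A13 → False)
    (c42 : A14 → ¬ A15 → ¬ A23 → False)
    (c43 : A16 → ¬ A13 → ¬ A8 → False)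
    (c44 : A4 → ¬ A24 → ¬ A13 → False)
    (c45 : A7 → ¬ A24 → ¬ A14 → False)
    (u0 : ¬ A3)
    (u1 : A27)
    (u2 : ¬ A13)
    (u3 : ¬ A25)
    : False := by
  have q1 : ¬ A18 := fun h => c21 h u2 u0
  have q2 : ¬ A15 := fun h => c30 h u3 u2
  rcases Classical.em A24 with q3 | q3
  · have q4 : ¬ A16 := fun h => c26 q3 h
    have q5 : A31 := Classical.byContradiction fun h => c27 q3 u0 h
    rcases Classical.em A26 with q6 | q6
    · have q7 : A34 := Classical.byContradiction fun h => c28 q6 u3 h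
      have q8 : ¬ A36 := fun h => c22 q7 h
      have q9 : A30 := Classical.byContradiction fun h => c23 q7 q1 h
      have q10 : ¬ A35 := fun h => c11 q9 h
      have q11 : ¬ A33 := fun h => c1 q8 q10 h
      have q12 : A32 := Classical.byContradiction fun h => c0 h q9 q11
      have q13 : ¬ A29 := fun h => c10 h q12
      exact c13 q5 q13 q11
    · have q14 : A38 := Classical.byContradiction fun h => c34 q3 q6 h
      rcases Classical.em A12 with q15 | q15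
      · have q16 : A20 := Classical.byContradiction fun h => c3 h q2 q15 q6
        have q17 : ¬ A28 := fun h => c16 h q16
        have q18 : ¬ A6 := fun h => c17 q15 h
        have q19 : A14 := Classical.byContradiction fun h => c18 q15 q17 h
        have q20 : ¬ A11 := fun h => c24 q19 h
        have q21 : A39 := Classical.byContradiction fun h => c33 q16 h q2
        have q22 : A37 := Classical.byContradiction fun h => c5 q4 h q21 q6
        have q23 : ¬ A33 := fun h => c19 h q22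
        have q24 : A29 := Classical.byContradiction fun h => c13 q5 h q23
        have q25 : ¬ A32 := fun h => c10 q24 h
        have q26 : ¬ A30 := fun h => c0 q25 h q23
        have q27 : A34 := Classical.byContradiction fun h => c2 h q26 q22
        exact c23 q27 q1 q26
      · have q28 : ¬ A32 := fun h => c15 h q15 u0
        have q29 : ¬ A1 := fun h => c39 h u0 q15
        rcases Classical.em A14 with q30 | q30
        · have q31 : ¬ A11 := fun h => c24 q30 h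
          have q32 : A20 := Classical.byContradiction fun h => c25 q30 h q15
          have q33 : ¬ A28 := fun h => c16 h q32
          have q34 : A39 := Classical.byContradiction fun h => c33 q32 h q2
          have q35 : A37 := Classical.byContradiction fun h => c5 q4 h q34 q6
          have q36 : ¬ A33 := fun h => c19 h q35
          have q37 : ¬ A30 := fun h => c0 q28 h q36
          have q38 : A34 := Classical.byContradiction fun h => c2 h q37 q35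
          exact c23 q38 q1 q37
        · have q39 : A39 := Classical.byContradiction fun h => c4 h q14 q30 q6
          have q40 : A37 := Classical.byContradiction fun h => c5 q4 h q39 q6
          have q41 : ¬ A33 := fun h => c19 h q40
          have q42 : ¬ A30 := fun h => c0 q28 h q41
          have q43 : A34 := Classical.byContradiction fun h => c2 h q42 q40
          exact c23 q43 q1 q42
  · have q44 : ¬ A22 := fun h => c35 h q3 q2
    have q45 : ¬ A4 := fun h => c44 h q3 u2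
    rcases Classical.em A12 with q46 | q46
    · have q47 : ¬ A6 := fun h => c17 q46 h
      rcases Classical.em A14 with q48 | q48
      · have q49 : ¬ A11 := fun h => c24 q48 h
        have q50 : ¬ A26 := fun h => c29 h q2 q49
        have q51 : A20 := Classical.byContradiction fun h => c3 h q2 q46 q50
        have q52 : ¬ A28 := fun h => c16 h q51
        have q53 : A39 := Classical.byContradiction fun h => c33 q51 h q2
        have q54 : ¬ A10 := fun h => c41 h q49 u2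
        have q55 : ¬ A2 := fun h => c7 q54 h q45
        have q56 : A23 := Classical.byContradiction fun h => c42 q48 q2 h
        have q57 : A5 := Classical.byContradiction fun h => c9 q2 h q56 q47
        have q58 : ¬ A9 := fun h => c37 q57 h
        have q59 : ¬ A1 := fun h => c38 h q55 q58
        have q60 : ¬ A8 := fun h => c6 q59 q55 h
        have q61 : ¬ A16 := fun h => c43 h u2 q60
        have q62 : A37 := Classical.byContradiction fun h => c5 q61 h q53 q50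
        have q63 : ¬ A33 := fun h => c19 h q62
        rcases Classical.em A30 with q64 | q64
        · have q65 : A32 := Classical.byContradiction fun h => c0 h q64 q63
          have q66 : ¬ A29 := fun h => c10 h q65
          have q67 : ¬ A35 := fun h => c11 q64 h
          exact c14 q65 q52 q67
        · have q68 : A34 := Classical.byContradiction fun h => c2 h q64 q62
          exact c23 q68 q1 q64
      · have q69 : A28 := Classical.byContradiction fun h => c18 q46 h q48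
        have q70 : ¬ A20 := fun h => c16 q69 h
        have q71 : A26 := Classical.byContradiction fun h => c3 q70 q2 q46 h
        have q72 : A34 := Classical.byContradiction fun h => c28 q71 u3 h
        have q73 : ¬ A36 := fun h => c22 q72 h
        have q74 : A30 := Classical.byContradiction fun h => c23 q72 q1 h
        have q75 : ¬ A35 := fun h => c11 q74 h
        have q76 : ¬ A33 := fun h => c1 q73 q75 h
        have q77 : A32 := Classical.byContradiction fun h => c0 h q74 q76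
        have q78 : ¬ A29 := fun h => c10 h q77
        have q79 : ¬ A31 := fun h => c13 h q78 q76
        have q80 : A11 := Classical.byContradiction fun h => c29 q71 q2 h
        have q81 : A21 := Classical.byContradiction fun h => c36 q71 h q47
        have q82 : A7 := Classical.byContradiction fun h => c8 h q44 q81 q47
        exact c45 q82 q3 q48
    · have q83 : ¬ A32 := fun h => c15 h q46 u0
      have q84 : ¬ A33 := fun h => c20 h q46 q3
      have q85 : ¬ A30 := fun h => c0 q83 h q84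
      have q86 : A17 := Classical.byContradiction fun h => c12 u1 q85 h
      have q87 : ¬ A34 := fun h => c23 h q1 q85
      have q88 : ¬ A37 := fun h => c2 q87 q85 h
      have q89 : ¬ A26 := fun h => c28 h u3 q87
      have q90 : A19 := Classical.byContradiction fun h => c31 q86 q84 h
      have q91 : ¬ A1 := fun h => c39 h u0 q46
      rcases Classical.em A14 with q92 | q92
      · have q93 : ¬ A11 := fun h => c24 q92 h
        have q94 : A20 := Classical.byContradiction fun h => c25 q92 h q46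
        have q95 : ¬ A28 := fun h => c16 h q94
        have q96 : A39 := Classical.byContradiction fun h => c33 q94 h q2
        have q97 : A16 := Classical.byContradiction fun h => c5 h q88 q96 q89
        have q98 : ¬ A10 := fun h => c41 h q93 u2
        have q99 : ¬ A2 := fun h => c7 q98 h q45
        have q100 : ¬ A8 := fun h => c6 q91 q99 h
        exact c43 q97 u2 q100
      · have q101 : ¬ A2 := fun h => c40 h u0 q92
        have q102 : ¬ A8 := fun h => c6 q91 q101 h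
        have q103 : ¬ A16 := fun h => c43 h u2 q102
        have q104 : ¬ A39 := fun h => c5 q103 q88 h q89
        exact c32 q90 q104 q103

theorem par_ABC_2 {G : Type*} [Group G] {δ : G → ZMod 3} (hδ : ∀ u v, δ (u * v) = δ u + δ v) (o : Pre δ)
    {P Q f x g : G} {e : ZMod 3} (h3 : 3 * e = 0)
    (D : δ P = e ∧ δ Q = -e ∧ δ f = 0 ∧ δ x = 0 ∧ δ g = 0)
    (C : Cube P f ∧ Cube P x ∧ Cube P g ∧ Cube Q f ∧ Cube Q x ∧ Cube Q g)
    (N0 : RA o P Q f x)
    (N1 : RB o P Q x g)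
    (g0 : ¬ o.lt (P * g⁻¹) (P * f⁻¹)) (g1 : o.lt (P * f⁻¹) (g * Q⁻¹)) (g2 : ¬ o.lt (f * Q⁻¹) (P * g⁻¹)) (g3 : ¬ o.lt (g) (f)) : False := by
  simp only [Cube] at C
  have e0 : δ (P * (g⁻¹ * (f * P⁻¹))) = δ (P * (g⁻¹ * (x * P⁻¹))) := by simp only [hδ, δinv hδ, δone hδ, D] <;> linear_combination (0) * h3
  have e1 : δ (P * (g⁻¹ * (f * P⁻¹))) = δ (P * (g⁻¹ * (Q * x⁻¹))) := by simp only [hδ, δinv hδ, δone hδ, D] <;> linear_combination (0) * h3
  have e2 : δ (P * g⁻¹) = δ (P * f⁻¹) := by simp only [hδ, δinv hδ, δone hδ, D] <;> linear_combination (0) * h3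
  have e3 : δ (g * (P⁻¹ * (g * f⁻¹))) = δ (P * (g⁻¹ * (f * Q⁻¹))) := by simp only [hδ, δinv hδ, δone hδ, D] <;> linear_combination (-1) * h3
  have e4 : δ (P * (g⁻¹ * (x * P⁻¹))) = δ (P * (g⁻¹ * (Q * x⁻¹))) := by simp only [hδ, δinv hδ, δone hδ, D] <;> linear_combination (0) * h3
  have e5 : δ (P * (g⁻¹ * x)) = δ (P) := by simp only [hδ, δinv hδ, δone hδ, D] <;> linear_combination (0) * h3
  have e6 : δ (g * (P⁻¹ * (g * x⁻¹))) = δ (P * (g⁻¹ * (x * Q⁻¹))) := by simp only [hδ, δinv hδ, δone hδ, D] <;> linear_combination (-1) * h3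
  have e7 : δ (P * (g⁻¹ * (f * Q⁻¹))) = δ (g * (P⁻¹ * (g * f⁻¹))) := by simp only [hδ, δinv hδ, δone hδ, D] <;> linear_combination (1) * h3
  have e8 : δ (P * (g⁻¹ * (Q * P⁻¹))) = δ (g * (P⁻¹ * (g * x⁻¹))) := by simp only [hδ, δinv hδ, δone hδ, D] <;> linear_combination (0) * h3
  have e9 : δ (P * (g⁻¹ * (Q * x⁻¹))) = δ (P * (g⁻¹ * (Q * f⁻¹))) := by simp only [hδ, δinv hδ, δone hδ, D] <;> linear_combination (0) * h3
  have e10 : δ (P * g⁻¹) = δ (x * Q⁻¹) := by simp only [hδ, δinv hδ, δone hδ, D] <;> linear_combination (0) * h3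
  have e11 : δ (P * x⁻¹) = δ (P * g⁻¹) := by simp only [hδ, δinv hδ, δone hδ, D] <;> linear_combination (0) * h3
  have e12 : δ (f * Q⁻¹) = δ (P * g⁻¹) := by simp only [hδ, δinv hδ, δone hδ, D] <;> linear_combination (0) * h3
  have e13 : δ (x * Q⁻¹) = δ (P * g⁻¹) := by simp only [hδ, δinv hδ, δone hδ, D] <;> linear_combination (0) * h3
  have e14 : δ (g * Q⁻¹) = δ (P * g⁻¹) := by simp only [hδ, δinv hδ, δone hδ, D] <;> linear_combination (0) * h3
  have e15 : δ (Q * g⁻¹) = δ (g * P⁻¹) := by simp only [hδ, δinv hδ, δone hδ, D] <;> linear_combination (0) * h3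
  have e16 : δ (x * Q⁻¹) = δ (g * Q⁻¹) := by simp only [hδ, δinv hδ, δone hδ, D] <;> linear_combination (0) * h3
  have e17 : δ (f * Q⁻¹) = δ (P * f⁻¹) := by simp only [hδ, δinv hδ, δone hδ, D] <;> linear_combination (0) * h3
  have e18 : δ (Q * x⁻¹) = δ (g * P⁻¹) := by simp only [hδ, δinv hδ, δone hδ, D] <;> linear_combination (0) * h3
  have e19 : δ (x * Q⁻¹) = δ (P * x⁻¹) := by simp only [hδ, δinv hδ, δone hδ, D] <;> linear_combination (0) * h3
  have e20 : δ (g * P⁻¹) = δ (g * (P⁻¹ * (g * x⁻¹))) := by simp only [hδ, δinv hδ, δone hδ, D] <;> linear_combination (0) * h3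
  have e21 : δ (g * P⁻¹) = δ (P * Q⁻¹) := by simp only [hδ, δinv hδ, δone hδ, D] <;> linear_combination (-1) * h3
  have e22 : δ (P * (Q⁻¹ * (g * Q⁻¹))) = δ (P * (g⁻¹ * (Q * x⁻¹))) := by simp only [hδ, δinv hδ, δone hδ, D] <;> linear_combination (1) * h3
  have e23 : δ (P * g⁻¹) = δ (Q * P⁻¹) := by simp only [hδ, δinv hδ, δone hδ, D] <;> linear_combination (1) * h3
  have e24 : δ (g * Q⁻¹) = δ (f * Q⁻¹) := by simp only [hδ, δinv hδ, δone hδ, D] <;> linear_combination (0) * h3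
  have e25 : δ (g) = δ (x) := by simp only [hδ, δinv hδ, δone hδ, D] <;> linear_combination (0) * h3
  have e26 : δ (P * f⁻¹) = δ (g * Q⁻¹) := by simp only [hδ, δinv hδ, δone hδ, D] <;> linear_combination (0) * h3
  have e27 : δ (P * x⁻¹) = δ (x * Q⁻¹) := by simp only [hδ, δinv hδ, δone hδ, D] <;> linear_combination (0) * h3
  have e28 : δ (P * f⁻¹) = δ (P * x⁻¹) := by simp only [hδ, δinv hδ, δone hδ, D] <;> linear_combination (0) * h3
  have e29 : δ (P * f⁻¹) = δ (x * Q⁻¹) := by simp only [hδ, δinv hδ, δone hδ, D] <;> linear_combination (0) * h3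
  have e30 : δ (P * f⁻¹) = δ (Q * P⁻¹) := by simp only [hδ, δinv hδ, δone hδ, D] <;> linear_combination (1) * h3
  have e31 : δ (P * x⁻¹) = δ (P * f⁻¹) := by simp only [hδ, δinv hδ, δone hδ, D] <;> linear_combination (0) * h3
  have e32 : δ (x * P⁻¹) = δ (Q * x⁻¹) := by simp only [hδ, δinv hδ, δone hδ, D] <;> linear_combination (0) * h3
  have e33 : δ (f * Q⁻¹) = δ (x * Q⁻¹) := by simp only [hδ, δinv hδ, δone hδ, D] <;> linear_combination (0) * h3
  have e34 : δ (x * Q⁻¹) = δ (P * f⁻¹) := by simp only [hδ, δinv hδ, δone hδ, D] <;> linear_combination (0) * h3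
  have e35 : δ (x * Q⁻¹) = δ (f * Q⁻¹) := by simp only [hδ, δinv hδ, δone hδ, D] <;> linear_combination (0) * h3
  have e36 : δ (Q * x⁻¹) = δ (x * P⁻¹) := by simp only [hδ, δinv hδ, δone hδ, D] <;> linear_combination (0) * h3
  have e37 : δ (x * P⁻¹) = δ (Q * g⁻¹) := by simp only [hδ, δinv hδ, δone hδ, D] <;> linear_combination (0) * h3
  have e38 : δ (Q * x⁻¹) = δ (Q * g⁻¹) := by simp only [hδ, δinv hδ, δone hδ, D] <;> linear_combination (0) * h3
  have k0 : o.lt (P * x⁻¹) (P * f⁻¹) ↔ o.lt (1 * (P * x⁻¹)) (1 * (P * f⁻¹)) := o.cv hδ (1) e31 (by simp only [mul_assoc, mul_inv_rev, inv_inv, mul_inv_cancel_left, inv_mul_cancel_left, mul_inv_cancel, inv_mul_cancel, mul_one, one_mul, inv_one, C]) (by simp only [mul_assoc, mul_inv_rev, inv_inv, mul_inv_cancel_left, inv_mul_cancel_left, mul_inv_cancel, inv_mul_cancel, mul_one, one_mul, inv_one, C])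
  have k1 : o.lt (P * f⁻¹) (x * Q⁻¹) ↔ o.lt (1 * (P * f⁻¹)) (1 * (x * Q⁻¹)) := o.cv hδ (1) e29 (by simp only [mul_assoc, mul_inv_rev, inv_inv, mul_inv_cancel_left, inv_mul_cancel_left, mul_inv_cancel, inv_mul_cancel, mul_one, one_mul, inv_one, C]) (by simp only [mul_assoc, mul_inv_rev, inv_inv, mul_inv_cancel_left, inv_mul_cancel_left, mul_inv_cancel, inv_mul_cancel, mul_one, one_mul, inv_one, C])
  have k2 : o.lt (x * P⁻¹) (Q * x⁻¹) ↔ o.lt (1 * (P * x⁻¹)⁻¹) (1 * (x * Q⁻¹)⁻¹) := o.cv hδ (1) e32 (by simp only [mul_assoc, mul_inv_rev, inv_inv, mul_inv_cancel_left, inv_mul_cancel_left, mul_inv_cancel, inv_mul_cancel, mul_one, one_mul, inv_one, C]) (by simp only [mul_assoc, mul_inv_rev, inv_inv, mul_inv_cancel_left, inv_mul_cancel_left, mul_inv_cancel, inv_mul_cancel, mul_one, one_mul, inv_one, C])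
  have k3 : o.lt (x * Q⁻¹) (f * Q⁻¹) ↔ o.lt (1 * (x * Q⁻¹)) (1 * (f * Q⁻¹)) := o.cv hδ (1) e35 (by simp only [mul_assoc, mul_inv_rev, inv_inv, mul_inv_cancel_left, inv_mul_cancel_left, mul_inv_cancel, inv_mul_cancel, mul_one, one_mul, inv_one, C]) (by simp only [mul_assoc, mul_inv_rev, inv_inv, mul_inv_cancel_left, inv_mul_cancel_left, mul_inv_cancel, inv_mul_cancel, mul_one, one_mul, inv_one, C])
  have k4 : o.lt (x * Q⁻¹) (P * f⁻¹) ↔ o.lt (1 * (x * Q⁻¹)) (1 * (P * f⁻¹)) := o.cv hδ (1) e34 (by simp only [mul_assoc, mul_inv_rev, inv_inv, mul_inv_cancel_left, inv_mul_cancel_left, mul_inv_cancel, inv_mul_cancel, mul_one, one_mul, inv_one, C]) (by simp only [mul_assoc, mul_inv_rev, inv_inv, mul_inv_cancel_left, inv_mul_cancel_left, mul_inv_cancel, inv_mul_cancel, mul_one, one_mul, inv_one, C])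
  have k5 : o.lt (f * Q⁻¹) (x * Q⁻¹) ↔ o.lt (1 * (f * Q⁻¹)) (1 * (x * Q⁻¹)) := o.cv hδ (1) e33 (by simp only [mul_assoc, mul_inv_rev, inv_inv, mul_inv_cancel_left, inv_mul_cancel_left, mul_inv_cancel, inv_mul_cancel, mul_one, one_mul, inv_one, C]) (by simp only [mul_assoc, mul_inv_rev, inv_inv, mul_inv_cancel_left, inv_mul_cancel_left, mul_inv_cancel, inv_mul_cancel, mul_one, one_mul, inv_one, C])
  have k6 : o.lt (Q * x⁻¹) (x * P⁻¹) ↔ o.lt (1 * (x * Q⁻¹)⁻¹) (1 * (P * x⁻¹)⁻¹) := o.cv hδ (1) e36 (by simp only [mul_assoc, mul_inv_rev, inv_inv, mul_inv_cancel_left, inv_mul_cancel_left, mul_inv_cancel, inv_mul_cancel, mul_one, one_mul, inv_one, C]) (by simp only [mul_assoc, mul_inv_rev, inv_inv, mul_inv_cancel_left, inv_mul_cancel_left, mul_inv_cancel, inv_mul_cancel, mul_one, one_mul, inv_one, C])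
  have k7 : o.lt (x * Q⁻¹) (P * x⁻¹) ↔ o.lt (1 * (x * Q⁻¹)) (1 * (P * x⁻¹)) := o.cv hδ (1) e19 (by simp only [mul_assoc, mul_inv_rev, inv_inv, mul_inv_cancel_left, inv_mul_cancel_left, mul_inv_cancel, inv_mul_cancel, mul_one, one_mul, inv_one, C]) (by simp only [mul_assoc, mul_inv_rev, inv_inv, mul_inv_cancel_left, inv_mul_cancel_left, mul_inv_cancel, inv_mul_cancel, mul_one, one_mul, inv_one, C])
  have k8 : o.lt (g * Q⁻¹) (P * g⁻¹) ↔ o.lt (1 * (g * Q⁻¹)) (1 * (P * g⁻¹)) := o.cv hδ (1) e14 (by simp only [mul_assoc, mul_inv_rev, inv_inv, mul_inv_cancel_left, inv_mul_cancel_left, mul_inv_cancel, inv_mul_cancel, mul_one, one_mul, inv_one, C]) (by simp only [mul_assoc, mul_inv_rev, inv_inv, mul_inv_cancel_left, inv_mul_cancel_left, mul_inv_cancel, inv_mul_cancel, mul_one, one_mul, inv_one, C])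
  have k9 : o.lt (P * x⁻¹) (P * g⁻¹) ↔ o.lt (1 * (P * x⁻¹)) (1 * (P * g⁻¹)) := o.cv hδ (1) e11 (by simp only [mul_assoc, mul_inv_rev, inv_inv, mul_inv_cancel_left, inv_mul_cancel_left, mul_inv_cancel, inv_mul_cancel, mul_one, one_mul, inv_one, C]) (by simp only [mul_assoc, mul_inv_rev, inv_inv, mul_inv_cancel_left, inv_mul_cancel_left, mul_inv_cancel, inv_mul_cancel, mul_one, one_mul, inv_one, C])
  have k10 : o.lt (g) (x) ↔ o.lt (1 * g) (1 * x) := o.cv hδ (1) e25 (by simp only [mul_assoc, mul_inv_rev, inv_inv, mul_inv_cancel_left, inv_mul_cancel_left, mul_inv_cancel, inv_mul_cancel, mul_one, one_mul, inv_one, C]) (by simp only [mul_assoc, mul_inv_rev, inv_inv, mul_inv_cancel_left, inv_mul_cancel_left, mul_inv_cancel, inv_mul_cancel, mul_one, one_mul, inv_one, C])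
  have k11 : o.lt (Q * x⁻¹) (Q * g⁻¹) ↔ o.lt (1 * (Q * x⁻¹)) (1 * (Q * g⁻¹)) := o.cv hδ (1) e38 (by simp only [mul_assoc, mul_inv_rev, inv_inv, mul_inv_cancel_left, inv_mul_cancel_left, mul_inv_cancel, inv_mul_cancel, mul_one, one_mul, inv_one, C]) (by simp only [mul_assoc, mul_inv_rev, inv_inv, mul_inv_cancel_left, inv_mul_cancel_left, mul_inv_cancel, inv_mul_cancel, mul_one, one_mul, inv_one, C])
  have k12 : o.lt (x * P⁻¹) (Q * g⁻¹) ↔ o.lt (1 * (x * P⁻¹)) (1 * (Q * g⁻¹)) := o.cv hδ (1) e37 (by simp only [mul_assoc, mul_inv_rev, inv_inv, mul_inv_cancel_left, inv_mul_cancel_left, mul_inv_cancel, inv_mul_cancel, mul_one, one_mul, inv_one, C]) (by simp only [mul_assoc, mul_inv_rev, inv_inv, mul_inv_cancel_left, inv_mul_cancel_left, mul_inv_cancel, inv_mul_cancel, mul_one, one_mul, inv_one, C])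
  have k13 : o.lt (x * Q⁻¹) (P * g⁻¹) ↔ o.lt (1 * (Q * x⁻¹)⁻¹) (1 * (g * P⁻¹)⁻¹) := o.cv hδ (1) e13 (by simp only [mul_assoc, mul_inv_rev, inv_inv, mul_inv_cancel_left, inv_mul_cancel_left, mul_inv_cancel, inv_mul_cancel, mul_one, one_mul, inv_one, C]) (by simp only [mul_assoc, mul_inv_rev, inv_inv, mul_inv_cancel_left, inv_mul_cancel_left, mul_inv_cancel, inv_mul_cancel, mul_one, one_mul, inv_one, C])
  have k14 : o.lt (Q * g⁻¹) (g * P⁻¹) ↔ o.lt (1 * (Q * g⁻¹)) (1 * (g * P⁻¹)) := o.cv hδ (1) e15 (by simp only [mul_assoc, mul_inv_rev, inv_inv, mul_inv_cancel_left, inv_mul_cancel_left, mul_inv_cancel, inv_mul_cancel, mul_one, one_mul, inv_one, C]) (by simp only [mul_assoc, mul_inv_rev, inv_inv, mul_inv_cancel_left, inv_mul_cancel_left, mul_inv_cancel, inv_mul_cancel, mul_one, one_mul, inv_one, C])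
  have k15 : o.lt (Q * x⁻¹) (x * P⁻¹) ↔ o.lt (1 * (Q * x⁻¹)) (1 * (x * P⁻¹)) := o.cv hδ (1) e36 (by simp only [mul_assoc, mul_inv_rev, inv_inv, mul_inv_cancel_left, inv_mul_cancel_left, mul_inv_cancel, inv_mul_cancel, mul_one, one_mul, inv_one, C]) (by simp only [mul_assoc, mul_inv_rev, inv_inv, mul_inv_cancel_left, inv_mul_cancel_left, mul_inv_cancel, inv_mul_cancel, mul_one, one_mul, inv_one, C])
  have k16 : o.lt (P * (g⁻¹ * (f * P⁻¹))) (P * (g⁻¹ * (x * P⁻¹))) ↔ o.lt ((P * g⁻¹) * (f * P⁻¹)) ((P * g⁻¹) * (x * P⁻¹)) := o.cv hδ (1) e0 (by simp only [mul_assoc, mul_inv_rev, inv_inv, mul_inv_cancel_left, inv_mul_cancel_left, mul_inv_cancel, inv_mul_cancel, mul_one, one_mul, inv_one, C]) (by simp only [mul_assoc, mul_inv_rev, inv_inv, mul_inv_cancel_left, inv_mul_cancel_left, mul_inv_cancel, inv_mul_cancel, mul_one, one_mul, inv_one, C])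
  have k17 : o.lt (P * (g⁻¹ * (f * P⁻¹))) (P * (g⁻¹ * (Q * x⁻¹))) ↔ o.lt ((P * g⁻¹) * (f * P⁻¹)) ((P * g⁻¹) * (Q * x⁻¹)) := o.cv hδ (1) e1 (by simp only [mul_assoc, mul_inv_rev, inv_inv, mul_inv_cancel_left, inv_mul_cancel_left, mul_inv_cancel, inv_mul_cancel, mul_one, one_mul, inv_one, C]) (by simp only [mul_assoc, mul_inv_rev, inv_inv, mul_inv_cancel_left, inv_mul_cancel_left, mul_inv_cancel, inv_mul_cancel, mul_one, one_mul, inv_one, C])
  have k18 : o.lt (P * (g⁻¹ * (f * Q⁻¹))) (g * (P⁻¹ * (g * f⁻¹))) ↔ o.lt ((P * g⁻¹) * (Q * f⁻¹)⁻¹) ((P * g⁻¹) * (f * P⁻¹)⁻¹) := o.cv hδ (1) e7 (by simp only [mul_assoc, mul_inv_rev, inv_inv, mul_inv_cancel_left, inv_mul_cancel_left, mul_inv_cancel, inv_mul_cancel, mul_one, one_mul, inv_one, C]) (by simp only [mul_assoc, mul_inv_rev, inv_inv, mul_inv_cancel_left, inv_mul_cancel_left, mul_inv_cancel, inv_mul_cancel, mul_one, one_mul, inv_one, C])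
  have k19 : o.lt (P * (g⁻¹ * (Q * x⁻¹))) (P * (g⁻¹ * (Q * f⁻¹))) ↔ o.lt ((P * g⁻¹) * (Q * x⁻¹)) ((P * g⁻¹) * (Q * f⁻¹)) := o.cv hδ (1) e9 (by simp only [mul_assoc, mul_inv_rev, inv_inv, mul_inv_cancel_left, inv_mul_cancel_left, mul_inv_cancel, inv_mul_cancel, mul_one, one_mul, inv_one, C]) (by simp only [mul_assoc, mul_inv_rev, inv_inv, mul_inv_cancel_left, inv_mul_cancel_left, mul_inv_cancel, inv_mul_cancel, mul_one, one_mul, inv_one, C])
  have k20 : o.lt (g * (P⁻¹ * (g * f⁻¹))) (P * (g⁻¹ * (f * Q⁻¹))) ↔ o.lt ((P * g⁻¹) * (f * P⁻¹)⁻¹) ((P * g⁻¹) * (Q * f⁻¹)⁻¹) := o.cv hδ (f * (g⁻¹ * (P * (g⁻¹ * (P * (g⁻¹ * (P * f⁻¹))))))) e3 (by simp only [mul_assoc, mul_inv_rev, inv_inv, mul_inv_cancel_left, inv_mul_cancel_left, mul_inv_cancel, inv_mul_cancel, mul_one, one_mul, inv_one, C]) (by simp only [mul_assoc, mul_inv_rev, inv_inv, mul_inv_cancel_left, inv_mul_cancel_left, mul_inv_cancel, inv_mul_cancel,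 mul_one, one_mul, inv_one, C])
  have k21 : o.lt (g * (P⁻¹ * (g * x⁻¹))) (P * (g⁻¹ * (x * Q⁻¹))) ↔ o.lt ((P * g⁻¹) * (P * x⁻¹)) ((P * g⁻¹) * (x * Q⁻¹)) := o.cv hδ (x * (g⁻¹ * (P * (g⁻¹ * (P * (g⁻¹ * (P * x⁻¹))))))) e6 (by simp only [mul_assoc, mul_inv_rev, inv_inv, mul_inv_cancel_left, inv_mul_cancel_left, mul_inv_cancel, inv_mul_cancel, mul_one, one_mul, inv_one, C]) (by simp only [mul_assoc, mul_inv_rev, inv_inv, mul_inv_cancel_left, inv_mul_cancel_left, mul_inv_cancel, inv_mul_cancel, mul_one, one_mul, inv_one, C])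
  have k22 : o.lt (g * P⁻¹) (P * Q⁻¹) ↔ o.lt ((P * g⁻¹) * (P * g⁻¹)) ((P * g⁻¹) * (g * Q⁻¹)) := o.cv hδ (P * (g⁻¹ * (P * (g⁻¹ * (P * g⁻¹))))) e21 (by simp only [mul_assoc, mul_inv_rev, inv_inv, mul_inv_cancel_left, inv_mul_cancel_left, mul_inv_cancel, inv_mul_cancel, mul_one, one_mul, inv_one, C]) (by simp only [mul_assoc, mul_inv_rev, inv_inv, mul_inv_cancel_left, inv_mul_cancel_left, mul_inv_cancel, inv_mul_cancel, mul_one, one_mul, inv_one, C])
  have k23 : o.lt (g * P⁻¹) (g * (P⁻¹ * (g * x⁻¹))) ↔ o.lt ((P * g⁻¹) * (P * g⁻¹)) ((P * g⁻¹) * (P * x⁻¹)) := o.cv hδ (P * (g⁻¹ * (P * (g⁻¹ * (P * g⁻¹))))) e20 (by simp only [mul_assoc, mul_inv_rev, inv_inv, mul_inv_cancel_left, inv_mul_cancel_left, mul_inv_cancel, inv_mul_cancel, mul_one, one_mul, inv_one, C]) (by simp only [mul_assoc, mul_inv_rev, inv_inv, mul_inv_cancel_left, inv_mul_cancel_left, mul_inv_cancel, inv_mul_cancel, mul_one, one_mul, inv_one,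 C])
  have k24 : o.lt (P * (g⁻¹ * x)) (P) ↔ o.lt ((P * g⁻¹) * x) ((P * g⁻¹) * g) := o.cv hδ (1) e5 (by simp only [mul_assoc, mul_inv_rev, inv_inv, mul_inv_cancel_left, inv_mul_cancel_left, mul_inv_cancel, inv_mul_cancel, mul_one, one_mul, inv_one, C]) (by simp only [mul_assoc, mul_inv_rev, inv_inv, mul_inv_cancel_left, inv_mul_cancel_left, mul_inv_cancel, inv_mul_cancel, mul_one, one_mul, inv_one, C])
  have k25 : o.lt (g * Q⁻¹) (P * g⁻¹) ↔ o.lt ((P * g⁻¹) * (g * P⁻¹)) ((P * g⁻¹) * (Q * g⁻¹)) := o.cv hδ (Q * g⁻¹) e14 (by simp only [mul_assoc, mul_inv_rev, inv_inv, mul_inv_cancel_left, inv_mul_cancel_left, mul_inv_cancel, inv_mul_cancel, mul_one, one_mul, inv_one, C]) (by simp only [mul_assoc, mul_inv_rev, inv_inv, mul_inv_cancel_left, inv_mul_cancel_left, mul_inv_cancel, inv_mul_cancel, mul_one, one_mul, inv_one, C])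
  have k26 : o.lt (P * (g⁻¹ * (x * P⁻¹))) (P * (g⁻¹ * (Q * x⁻¹))) ↔ o.lt ((P * g⁻¹) * (x * P⁻¹)) ((P * g⁻¹) * (Q * x⁻¹)) := o.cv hδ (1) e4 (by simp only [mul_assoc, mul_inv_rev, inv_inv, mul_inv_cancel_left, inv_mul_cancel_left, mul_inv_cancel, inv_mul_cancel, mul_one, one_mul, inv_one, C]) (by simp only [mul_assoc, mul_inv_rev, inv_inv, mul_inv_cancel_left, inv_mul_cancel_left, mul_inv_cancel, inv_mul_cancel, mul_one, one_mul, inv_one, C])
  have k27 : o.lt (P * (Q⁻¹ * (g * Q⁻¹))) (P * (g⁻¹ * (Q * x⁻¹))) ↔ o.lt ((P * g⁻¹) * (Q * g⁻¹)) ((P * g⁻¹) * (Q * x⁻¹)) := o.cv hδ (Q * (g⁻¹ * (Q * (g⁻¹ * (Q * g⁻¹))))) e22 (by simp only [mul_assoc, mul_inv_rev, inv_inv, mul_inv_cancel_left, inv_mul_cancel_left, mul_inv_cancel, inv_mul_cancel, mul_one, one_mul, inv_one, C]) (by simp only [mul_assoc, mul_inv_rev, inv_inv, mul_inv_cancel_left, inv_mul_cancel_left, mul_inv_cancel, inv_mul_cancel, mul_one, one_mul,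 inv_one, C])
  have k28 : o.lt (P * f⁻¹) (P * x⁻¹) ↔ o.lt (P * f⁻¹) (P * x⁻¹) := o.cv hδ (1) e28 (by simp only [mul_assoc, mul_inv_rev, inv_inv, mul_inv_cancel_left, inv_mul_cancel_left, mul_inv_cancel, inv_mul_cancel, mul_one, one_mul, inv_one, C]) (by simp only [mul_assoc, mul_inv_rev, inv_inv, mul_inv_cancel_left, inv_mul_cancel_left, mul_inv_cancel, inv_mul_cancel, mul_one, one_mul, inv_one, C])
  have k29 : o.lt (P * x⁻¹) (P * f⁻¹) ↔ o.lt (P * x⁻¹) (P * f⁻¹) := o.cv hδ (1) e31 (by simp only [mul_assoc, mul_inv_rev, inv_inv, mul_inv_cancel_left, inv_mul_cancel_left, mul_inv_cancel, inv_mul_cancel, mul_one, one_mul, inv_one, C]) (by simp only [mul_assoc, mul_inv_rev, inv_inv, mul_inv_cancel_left, inv_mul_cancel_left, mul_inv_cancel, inv_mul_cancel, mul_one, one_mul, inv_one, C])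
  have k30 : o.lt (P * f⁻¹) (x * Q⁻¹) ↔ o.lt (P * f⁻¹) (x * Q⁻¹) := o.cv hδ (1) e29 (by simp only [mul_assoc, mul_inv_rev, inv_inv, mul_inv_cancel_left, inv_mul_cancel_left, mul_inv_cancel, inv_mul_cancel, mul_one, one_mul, inv_one, C]) (by simp only [mul_assoc, mul_inv_rev, inv_inv, mul_inv_cancel_left, inv_mul_cancel_left, mul_inv_cancel, inv_mul_cancel, mul_one, one_mul, inv_one, C])
  have k31 : o.lt (x * Q⁻¹) (P * f⁻¹) ↔ o.lt (x * Q⁻¹) (P * f⁻¹) := o.cv hδ (1) e34 (by simp only [mul_assoc, mul_inv_rev, inv_inv, mul_inv_cancel_left, inv_mul_cancel_left, mul_inv_cancel, inv_mul_cancel, mul_one, one_mul, inv_one, C]) (by simp only [mul_assoc, mul_inv_rev, inv_inv, mul_inv_cancel_left, inv_mul_cancel_left, mul_inv_cancel, inv_mul_cancel, mul_one, one_mul, inv_one, C])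
  have k32 : o.lt (P * f⁻¹) (g * Q⁻¹) ↔ o.lt (P * f⁻¹) (g * Q⁻¹) := o.cv hδ (1) e26 (by simp only [mul_assoc, mul_inv_rev, inv_inv, mul_inv_cancel_left, inv_mul_cancel_left, mul_inv_cancel, inv_mul_cancel, mul_one, one_mul, inv_one, C]) (by simp only [mul_assoc, mul_inv_rev, inv_inv, mul_inv_cancel_left, inv_mul_cancel_left, mul_inv_cancel, inv_mul_cancel, mul_one, one_mul, inv_one, C])
  have k33 : o.lt (x * Q⁻¹) (g * Q⁻¹) ↔ o.lt (x * Q⁻¹) (g * Q⁻¹) := o.cv hδ (1) e16 (by simp only [mul_assoc, mul_inv_rev, inv_inv, mul_inv_cancel_left, inv_mul_cancel_left, mul_inv_cancel, inv_mul_cancel, mul_one, one_mul, inv_one, C]) (by simp only [mul_assoc, mul_inv_rev, inv_inv, mul_inv_cancel_left, inv_mul_cancel_left, mul_inv_cancel, inv_mul_cancel, mul_one, one_mul, inv_one, C])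
  have k34 : o.lt (P * f⁻¹) (Q * P⁻¹) ↔ o.lt (P * f⁻¹) (Q * P⁻¹) := o.cv hδ (1) e30 (by simp only [mul_assoc, mul_inv_rev, inv_inv, mul_inv_cancel_left, inv_mul_cancel_left, mul_inv_cancel, inv_mul_cancel, mul_one, one_mul, inv_one, C]) (by simp only [mul_assoc, mul_inv_rev, inv_inv, mul_inv_cancel_left, inv_mul_cancel_left, mul_inv_cancel, inv_mul_cancel, mul_one, one_mul, inv_one, C])
  have k35 : o.lt (x * P⁻¹) (Q * x⁻¹) ↔ o.lt (P * x⁻¹) (Q * P⁻¹) := o.cv hδ (P * (x⁻¹ * (P * x⁻¹))) e32 (by simp only [mul_assoc, mul_inv_rev, inv_inv, mul_inv_cancel_left, inv_mul_cancel_left, mul_inv_cancel, inv_mul_cancel, mul_one, one_mul, inv_one, C]) (by simp only [mul_assoc, mul_inv_rev, inv_inv, mul_inv_cancel_left, inv_mul_cancel_left, mul_inv_cancel, inv_mul_cancel, mul_one, one_mul, inv_one, C])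
  have k36 : o.lt (P * x⁻¹) (x * Q⁻¹) ↔ o.lt (P * x⁻¹) (x * Q⁻¹) := o.cv hδ (1) e27 (by simp only [mul_assoc, mul_inv_rev, inv_inv, mul_inv_cancel_left, inv_mul_cancel_left, mul_inv_cancel, inv_mul_cancel, mul_one, one_mul, inv_one, C]) (by simp only [mul_assoc, mul_inv_rev, inv_inv, mul_inv_cancel_left, inv_mul_cancel_left, mul_inv_cancel, inv_mul_cancel, mul_one, one_mul, inv_one, C])
  have k37 : o.lt (P * x⁻¹) (P * g⁻¹) ↔ o.lt (P * x⁻¹) (P * g⁻¹) := o.cv hδ (1) e11 (by simp only [mul_assoc, mul_inv_rev, inv_inv, mul_inv_cancel_left, inv_mul_cancel_left, mul_inv_cancel, inv_mul_cancel, mul_one, one_mul, inv_one, C]) (by simp only [mul_assoc, mul_inv_rev, inv_inv, mul_inv_cancel_left, inv_mul_cancel_left, mul_inv_cancel, inv_mul_cancel, mul_one, one_mul, inv_one, C])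
  have k38 : o.lt (P * g⁻¹) (P * f⁻¹) ↔ o.lt (P * g⁻¹) (P * f⁻¹) := o.cv hδ (1) e2 (by simp only [mul_assoc, mul_inv_rev, inv_inv, mul_inv_cancel_left, inv_mul_cancel_left, mul_inv_cancel, inv_mul_cancel, mul_one, one_mul, inv_one, C]) (by simp only [mul_assoc, mul_inv_rev, inv_inv, mul_inv_cancel_left, inv_mul_cancel_left, mul_inv_cancel, inv_mul_cancel, mul_one, one_mul, inv_one, C])
  have k39 : o.lt (x * Q⁻¹) (P * x⁻¹) ↔ o.lt (x * Q⁻¹) (P * x⁻¹) := o.cv hδ (1) e19 (by simp only [mul_assoc, mul_inv_rev, inv_inv, mul_inv_cancel_left, inv_mul_cancel_left, mul_inv_cancel, inv_mul_cancel, mul_one, one_mul, inv_one, C]) (by simp only [mul_assoc, mul_inv_rev, inv_inv, mul_inv_cancel_left, inv_mul_cancel_left, mul_inv_cancel, inv_mul_cancel, mul_one, one_mul, inv_one, C])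
  have k40 : o.lt (P * (g⁻¹ * x)) (P) ↔ o.lt (P * g⁻¹) (P * x⁻¹) := o.cv hδ (x⁻¹) e5 (by simp only [mul_assoc, mul_inv_rev, inv_inv, mul_inv_cancel_left, inv_mul_cancel_left, mul_inv_cancel, inv_mul_cancel, mul_one, one_mul, inv_one, C]) (by simp only [mul_assoc, mul_inv_rev, inv_inv, mul_inv_cancel_left, inv_mul_cancel_left, mul_inv_cancel, inv_mul_cancel, mul_one, one_mul, inv_one, C])
  have k41 : o.lt (x * Q⁻¹) (P * g⁻¹) ↔ o.lt (x * Q⁻¹) (P * g⁻¹) := o.cv hδ (1) e13 (by simp only [mul_assoc, mul_inv_rev, inv_inv, mul_inv_cancel_left, inv_mul_cancel_left, mul_inv_cancel, inv_mul_cancel, mul_one, one_mul, inv_one, C]) (by simp only [mul_assoc, mul_inv_rev, inv_inv, mul_inv_cancel_left, inv_mul_cancel_left, mul_inv_cancel, inv_mul_cancel, mul_one, one_mul, inv_one, C])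
  have k42 : o.lt (Q * x⁻¹) (x * P⁻¹) ↔ o.lt (Q * P⁻¹) (P * x⁻¹) := o.cv hδ (x * P⁻¹) e36 (by simp only [mul_assoc, mul_inv_rev, inv_inv, mul_inv_cancel_left, inv_mul_cancel_left, mul_inv_cancel, inv_mul_cancel, mul_one, one_mul, inv_one, C]) (by simp only [mul_assoc, mul_inv_rev, inv_inv, mul_inv_cancel_left, inv_mul_cancel_left, mul_inv_cancel, inv_mul_cancel, mul_one, one_mul, inv_one, C])
  have k43 : o.lt (P * g⁻¹) (Q * P⁻¹) ↔ o.lt (P * g⁻¹) (Q * P⁻¹) := o.cv hδ (1) e23 (by simp only [mul_assoc, mul_inv_rev, inv_inv, mul_inv_cancel_left, inv_mul_cancel_left, mul_inv_cancel, inv_mul_cancel, mul_one, one_mul, inv_one, C]) (by simp only [mul_assoc, mul_inv_rev, inv_inv, mul_inv_cancel_left, inv_mul_cancel_left, mul_inv_cancel, inv_mul_cancel, mul_one, one_mul, inv_one, C])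
  have k44 : o.lt (f * Q⁻¹) (P * f⁻¹) ↔ o.lt (f * Q⁻¹) (P * f⁻¹) := o.cv hδ (1) e17 (by simp only [mul_assoc, mul_inv_rev, inv_inv, mul_inv_cancel_left, inv_mul_cancel_left, mul_inv_cancel, inv_mul_cancel, mul_one, one_mul, inv_one, C]) (by simp only [mul_assoc, mul_inv_rev, inv_inv, mul_inv_cancel_left, inv_mul_cancel_left, mul_inv_cancel, inv_mul_cancel, mul_one, one_mul, inv_one, C])
  have k45 : o.lt (f * Q⁻¹) (P * g⁻¹) ↔ o.lt (f * Q⁻¹) (P * g⁻¹) := o.cv hδ (1) e12 (by simp only [mul_assoc, mul_inv_rev, inv_inv, mul_inv_cancel_left, inv_mul_cancel_left, mul_inv_cancel, inv_mul_cancel, mul_one, one_mul, inv_one, C]) (by simp only [mul_assoc, mul_inv_rev, inv_inv, mul_inv_cancel_left, inv_mul_cancel_left, mul_inv_cancel, inv_mul_cancel, mul_one, one_mul, inv_one, C])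
  have k46 : o.lt (f * Q⁻¹) (x * Q⁻¹) ↔ o.lt (f * Q⁻¹) (x * Q⁻¹) := o.cv hδ (1) e33 (by simp only [mul_assoc, mul_inv_rev, inv_inv, mul_inv_cancel_left, inv_mul_cancel_left, mul_inv_cancel, inv_mul_cancel, mul_one, one_mul, inv_one, C]) (by simp only [mul_assoc, mul_inv_rev, inv_inv, mul_inv_cancel_left, inv_mul_cancel_left, mul_inv_cancel, inv_mul_cancel, mul_one, one_mul, inv_one, C])
  have k47 : o.lt (x * Q⁻¹) (f * Q⁻¹) ↔ o.lt (x * Q⁻¹) (f * Q⁻¹) := o.cv hδ (1) e35 (by simp only [mul_assoc, mul_inv_rev, inv_inv, mul_inv_cancel_left, inv_mul_cancel_left, mul_inv_cancel, inv_mul_cancel, mul_one, one_mul, inv_one, C]) (by simp only [mul_assoc, mul_inv_rev, inv_inv, mul_inv_cancel_left, inv_mul_cancel_left, mul_inv_cancel, inv_mul_cancel, mul_one, one_mul, inv_one, C])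
  have k48 : o.lt (P * g⁻¹) (x * Q⁻¹) ↔ o.lt (P * g⁻¹) (x * Q⁻¹) := o.cv hδ (1) e10 (by simp only [mul_assoc, mul_inv_rev, inv_inv, mul_inv_cancel_left, inv_mul_cancel_left, mul_inv_cancel, inv_mul_cancel, mul_one, one_mul, inv_one, C]) (by simp only [mul_assoc, mul_inv_rev, inv_inv, mul_inv_cancel_left, inv_mul_cancel_left, mul_inv_cancel, inv_mul_cancel, mul_one, one_mul, inv_one, C])
  have k49 : o.lt (Q * g⁻¹) (g * P⁻¹) ↔ o.lt (Q * P⁻¹) (P * g⁻¹) := o.cv hδ (g * P⁻¹) e15 (by simp only [mul_assoc, mul_inv_rev, inv_inv, mul_inv_cancel_left, inv_mul_cancel_left, mul_inv_cancel, inv_mul_cancel, mul_one, one_mul, inv_one, C]) (by simp only [mul_assoc, mul_inv_rev, inv_inv, mul_inv_cancel_left, inv_mul_cancel_left, mul_inv_cancel, inv_mul_cancel, mul_one, one_mul, inv_one, C])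
  have k50 : o.lt (g) (x) ↔ o.lt (g * Q⁻¹) (x * Q⁻¹) := o.cv hδ (Q⁻¹) e25 (by simp only [mul_assoc, mul_inv_rev, inv_inv, mul_inv_cancel_left, inv_mul_cancel_left, mul_inv_cancel, inv_mul_cancel, mul_one, one_mul, inv_one, C]) (by simp only [mul_assoc, mul_inv_rev, inv_inv, mul_inv_cancel_left, inv_mul_cancel_left, mul_inv_cancel, inv_mul_cancel, mul_one, one_mul, inv_one, C])
  have k51 : o.lt (g * Q⁻¹) (f * Q⁻¹) ↔ o.lt (g * Q⁻¹) (f * Q⁻¹) := o.cv hδ (1) e24 (by simp only [mul_assoc, mul_inv_rev, inv_inv, mul_inv_cancel_left, inv_mul_cancel_left, mul_inv_cancel, inv_mul_cancel, mul_one, one_mul, inv_one, C]) (by simp only [mul_assoc, mul_inv_rev, inv_inv, mul_inv_cancel_left, inv_mul_cancel_left, mul_inv_cancel, inv_mul_cancel, mul_one, one_mul, inv_one, C])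
  have k52 : o.lt (g * Q⁻¹) (P * g⁻¹) ↔ o.lt (g * Q⁻¹) (P * g⁻¹) := o.cv hδ (1) e14 (by simp only [mul_assoc, mul_inv_rev, inv_inv, mul_inv_cancel_left, inv_mul_cancel_left, mul_inv_cancel, inv_mul_cancel, mul_one, one_mul, inv_one, C]) (by simp only [mul_assoc, mul_inv_rev, inv_inv, mul_inv_cancel_left, inv_mul_cancel_left, mul_inv_cancel, inv_mul_cancel, mul_one, one_mul, inv_one, C])
  have k53 : o.lt (x * Q⁻¹) (g * Q⁻¹) ↔ o.lt (x * P⁻¹) (g * P⁻¹) := o.cv hδ (Q * P⁻¹) e16 (by simp only [mul_assoc, mul_inv_rev, inv_inv, mul_inv_cancel_left, inv_mul_cancel_left, mul_inv_cancel, inv_mul_cancel, mul_one, one_mul, inv_one, C]) (by simp only [mul_assoc, mul_inv_rev, inv_inv, mul_inv_cancel_left, inv_mul_cancel_left, mul_inv_cancel, inv_mul_cancel, mul_one, one_mul, inv_one, C])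
  have k54 : o.lt (x * P⁻¹) (Q * x⁻¹) ↔ o.lt (x * P⁻¹) (Q * x⁻¹) := o.cv hδ (1) e32 (by simp only [mul_assoc, mul_inv_rev, inv_inv, mul_inv_cancel_left, inv_mul_cancel_left, mul_inv_cancel, inv_mul_cancel, mul_one, one_mul, inv_one, C]) (by simp only [mul_assoc, mul_inv_rev, inv_inv, mul_inv_cancel_left, inv_mul_cancel_left, mul_inv_cancel, inv_mul_cancel, mul_one, one_mul, inv_one, C])
  have k55 : o.lt (Q * x⁻¹) (g * P⁻¹) ↔ o.lt (Q * x⁻¹) (g * P⁻¹) := o.cv hδ (1) e18 (by simp only [mul_assoc, mul_inv_rev, inv_inv, mul_inv_cancel_left, inv_mul_cancel_left, mul_inv_cancel, inv_mul_cancel, mul_one, one_mul, inv_one, C]) (by simp only [mul_assoc, mul_inv_rev, inv_inv, mul_inv_cancel_left, inv_mul_cancel_left, mul_inv_cancel, inv_mul_cancel, mul_one, one_mul, inv_one, C])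
  have k56 : o.lt (Q * x⁻¹) (Q * g⁻¹) ↔ o.lt (Q * x⁻¹) (Q * g⁻¹) := o.cv hδ (1) e38 (by simp only [mul_assoc, mul_inv_rev, inv_inv, mul_inv_cancel_left, inv_mul_cancel_left, mul_inv_cancel, inv_mul_cancel, mul_one, one_mul, inv_one, C]) (by simp only [mul_assoc, mul_inv_rev, inv_inv, mul_inv_cancel_left, inv_mul_cancel_left, mul_inv_cancel, inv_mul_cancel, mul_one, one_mul, inv_one, C])
  have k57 : o.lt (Q * g⁻¹) (g * P⁻¹) ↔ o.lt (Q * g⁻¹) (g * P⁻¹) := o.cv hδ (1) e15 (by simp only [mul_assoc, mul_inv_rev, inv_inv, mul_inv_cancel_left, inv_mul_cancel_left, mul_inv_cancel, inv_mul_cancel, mul_one, one_mul, inv_one, C]) (by simp only [mul_assoc, mul_inv_rev, inv_inv, mul_inv_cancel_left, inv_mul_cancel_left, mul_inv_cancel, inv_mul_cancel, mul_one, one_mul, inv_one, C])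
  have k58 : o.lt (x * Q⁻¹) (P * x⁻¹) ↔ o.lt (Q * x⁻¹) (P * Q⁻¹) := o.cv hδ (Q * (x⁻¹ * (Q * x⁻¹))) e19 (by simp only [mul_assoc, mul_inv_rev, inv_inv, mul_inv_cancel_left, inv_mul_cancel_left, mul_inv_cancel, inv_mul_cancel, mul_one, one_mul, inv_one, C]) (by simp only [mul_assoc, mul_inv_rev, inv_inv, mul_inv_cancel_left, inv_mul_cancel_left, mul_inv_cancel, inv_mul_cancel, mul_one, one_mul, inv_one, C])
  have k59 : o.lt (g * Q⁻¹) (P * g⁻¹) ↔ o.lt (Q * g⁻¹) (P * Q⁻¹) := o.cv hδ (Q * (g⁻¹ * (Q * g⁻¹))) e14 (by simp only [mul_assoc, mul_inv_rev, inv_inv, mul_inv_cancel_left, inv_mul_cancel_left, mul_inv_cancel, inv_mul_cancel, mul_one, one_mul, inv_one, C]) (by simp only [mul_assoc, mul_inv_rev, inv_inv, mul_inv_cancel_left, inv_mul_cancel_left, mul_inv_cancel, inv_mul_cancel, mul_one, one_mul, inv_one, C])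
  have k60 : o.lt (P * g⁻¹) (Q * P⁻¹) ↔ o.lt (g * P⁻¹) (Q * g⁻¹) := o.cv hδ (g * (P⁻¹ * (g * P⁻¹))) e23 (by simp only [mul_assoc, mul_inv_rev, inv_inv, mul_inv_cancel_left, inv_mul_cancel_left, mul_inv_cancel, inv_mul_cancel, mul_one, one_mul, inv_one, C]) (by simp only [mul_assoc, mul_inv_rev, inv_inv, mul_inv_cancel_left, inv_mul_cancel_left, mul_inv_cancel, inv_mul_cancel, mul_one, one_mul, inv_one, C])
  have k61 : o.lt (g) (x) ↔ o.lt (g * P⁻¹) (x * P⁻¹) := o.cv hδ (P⁻¹) e25 (by simp only [mul_assoc, mul_inv_rev, inv_inv, mul_inv_cancel_left, inv_mul_cancel_left, mul_inv_cancel, inv_mul_cancel, mul_one, one_mul, inv_one, C]) (by simp only [mul_assoc, mul_inv_rev, inv_inv, mul_inv_cancel_left, inv_mul_cancel_left, mul_inv_cancel, inv_mul_cancel, mul_one, one_mul, inv_one, C])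
  have k62 : o.lt (x * P⁻¹) (Q * g⁻¹) ↔ o.lt (x * P⁻¹) (Q * g⁻¹) := o.cv hδ (1) e37 (by simp only [mul_assoc, mul_inv_rev, inv_inv, mul_inv_cancel_left, inv_mul_cancel_left, mul_inv_cancel, inv_mul_cancel, mul_one, one_mul, inv_one, C]) (by simp only [mul_assoc, mul_inv_rev, inv_inv, mul_inv_cancel_left, inv_mul_cancel_left, mul_inv_cancel, inv_mul_cancel, mul_one, one_mul, inv_one, C])
  have k63 : o.lt (g * P⁻¹) (P * Q⁻¹) ↔ o.lt (g * P⁻¹) (P * Q⁻¹) := o.cv hδ (1) e21 (by simp only [mul_assoc, mul_inv_rev, inv_inv, mul_inv_cancel_left, inv_mul_cancel_left, mul_inv_cancel, inv_mul_cancel, mul_one, one_mul, inv_one, C]) (by simp only [mul_assoc, mul_inv_rev, inv_inv, mul_inv_cancel_left, inv_mul_cancel_left, mul_inv_cancel, inv_mul_cancel, mul_one, one_mul, inv_one, C])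
  have k64 : o.lt (g * P⁻¹) (g * (P⁻¹ * (g * x⁻¹))) ↔ o.lt (g * P⁻¹) (P * (g⁻¹ * (P * x⁻¹))) := o.cv hδ (1) e20 (by simp only [mul_assoc, mul_inv_rev, inv_inv, mul_inv_cancel_left, inv_mul_cancel_left, mul_inv_cancel, inv_mul_cancel, mul_one, one_mul, inv_one, C]) (by simp only [mul_assoc, mul_inv_rev, inv_inv, mul_inv_cancel_left, inv_mul_cancel_left, mul_inv_cancel, inv_mul_cancel, mul_one, one_mul, inv_one, C])
  have k65 : o.lt (P * (g⁻¹ * x)) (P) ↔ o.lt (P * (g⁻¹ * (P * x⁻¹))) (x * P⁻¹) := o.cv hδ (x⁻¹ * (P * x⁻¹)) e5 (by simp only [mul_assoc, mul_inv_rev, inv_inv, mul_inv_cancel_left, inv_mul_cancel_left, mul_inv_cancel, inv_mul_cancel, mul_one, one_mul, inv_one, C]) (by simp only [mul_assoc, mul_inv_rev, inv_inv, mul_inv_cancel_left, inv_mul_cancel_left, mul_inv_cancel, inv_mul_cancel, mul_one, one_mul, inv_one, C])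
  have k66 : o.lt (P * (g⁻¹ * (x * P⁻¹))) (P * (g⁻¹ * (Q * x⁻¹))) ↔ o.lt (P * (g⁻¹ * (P * x⁻¹))) (P * (g⁻¹ * (Q * P⁻¹))) := o.cv hδ (P * (x⁻¹ * (P * x⁻¹))) e4 (by simp only [mul_assoc, mul_inv_rev, inv_inv, mul_inv_cancel_left, inv_mul_cancel_left, mul_inv_cancel, inv_mul_cancel, mul_one, one_mul, inv_one, C]) (by simp only [mul_assoc, mul_inv_rev, inv_inv, mul_inv_cancel_left, inv_mul_cancel_left, mul_inv_cancel, inv_mul_cancel, mul_one, one_mul, inv_one, C])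
  have k67 : o.lt (P * (g⁻¹ * (Q * P⁻¹))) (g * (P⁻¹ * (g * x⁻¹))) ↔ o.lt (P * (g⁻¹ * (Q * P⁻¹))) (P * (g⁻¹ * (P * x⁻¹))) := o.cv hδ (1) e8 (by simp only [mul_assoc, mul_inv_rev, inv_inv, mul_inv_cancel_left, inv_mul_cancel_left, mul_inv_cancel, inv_mul_cancel, mul_one, one_mul, inv_one, C]) (by simp only [mul_assoc, mul_inv_rev, inv_inv, mul_inv_cancel_left, inv_mul_cancel_left, mul_inv_cancel, inv_mul_cancel, mul_one, one_mul, inv_one, C])
  have k68 : o.lt (P * (g⁻¹ * (f * P⁻¹))) (P * (g⁻¹ * (x * P⁻¹))) ↔ o.lt (P * (g⁻¹ * (f * P⁻¹))) (P * (g⁻¹ * (x * P⁻¹))) := o.cv hδ (1) e0 (by simp only [mul_assoc, mul_inv_rev, inv_inv, mul_inv_cancel_left, inv_mul_cancel_left, mul_inv_cancel, inv_mul_cancel, mul_one, one_mul, inv_one, C]) (by simp only [mul_assoc, mul_inv_rev, inv_inv, mul_inv_cancel_left, inv_mul_cancel_left, mul_inv_cancel, inv_mul_cancel, mul_one, one_mul, inv_one, C])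
  have k69 : o.lt (P * (g⁻¹ * (f * P⁻¹))) (P * (g⁻¹ * (Q * x⁻¹))) ↔ o.lt (P * (g⁻¹ * (f * P⁻¹))) (P * (g⁻¹ * (Q * x⁻¹))) := o.cv hδ (1) e1 (by simp only [mul_assoc, mul_inv_rev, inv_inv, mul_inv_cancel_left, inv_mul_cancel_left, mul_inv_cancel, inv_mul_cancel, mul_one, one_mul, inv_one, C]) (by simp only [mul_assoc, mul_inv_rev, inv_inv, mul_inv_cancel_left, inv_mul_cancel_left, mul_inv_cancel, inv_mul_cancel, mul_one, one_mul, inv_one, C])
  have k70 : o.lt (P * (g⁻¹ * (Q * P⁻¹))) (g * (P⁻¹ * (g * x⁻¹))) ↔ o.lt (P * (g⁻¹ * (Q * x⁻¹))) (P * (g⁻¹ * (x * P⁻¹))) := o.cv hδ (P * x⁻¹) e8 (by simp only [mul_assoc, mul_inv_rev, inv_inv, mul_inv_cancel_left, inv_mul_cancel_left, mul_inv_cancel, inv_mul_cancel, mul_one, one_mul, inv_one, C]) (by simp only [mul_assoc, mul_inv_rev, inv_inv, mul_inv_cancel_left, inv_mul_cancel_left, mul_inv_cancel, inv_mul_cancel, mul_one, one_mul, inv_one, C])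
  have k71 : o.lt (P * g⁻¹) (P * f⁻¹) ↔ o.lt (P * (g⁻¹ * (f * P⁻¹))) (1) := o.cv hδ (f * P⁻¹) e2 (by simp only [mul_assoc, mul_inv_rev, inv_inv, mul_inv_cancel_left, inv_mul_cancel_left, mul_inv_cancel, inv_mul_cancel, mul_one, one_mul, inv_one, C]) (by simp only [mul_assoc, mul_inv_rev, inv_inv, mul_inv_cancel_left, inv_mul_cancel_left, mul_inv_cancel, inv_mul_cancel, mul_one, one_mul, inv_one, C])
  have k72 : o.lt (P * x⁻¹) (P * g⁻¹) ↔ o.lt (1) (P * (g⁻¹ * (x * P⁻¹))) := o.cv hδ (x * P⁻¹) e11 (by simp only [mul_assoc, mul_inv_rev, inv_inv, mul_inv_cancel_left, inv_mul_cancel_left, mul_inv_cancel, inv_mul_cancel, mul_one, one_mul, inv_one, C]) (by simp only [mul_assoc, mul_inv_rev, inv_inv, mul_inv_cancel_left, inv_mul_cancel_left, mul_inv_cancel, inv_mul_cancel, mul_one, one_mul, inv_one, C])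
  have k73 : o.lt (x * Q⁻¹) (P * g⁻¹) ↔ o.lt (1) (P * (g⁻¹ * (Q * x⁻¹))) := o.cv hδ (Q * x⁻¹) e13 (by simp only [mul_assoc, mul_inv_rev, inv_inv, mul_inv_cancel_left, inv_mul_cancel_left, mul_inv_cancel, inv_mul_cancel, mul_one, one_mul, inv_one, C]) (by simp only [mul_assoc, mul_inv_rev, inv_inv, mul_inv_cancel_left, inv_mul_cancel_left, mul_inv_cancel, inv_mul_cancel, mul_one, one_mul, inv_one, C])
  have k74 : o.lt (P * (g⁻¹ * (Q * x⁻¹))) (P * (g⁻¹ * (Q * f⁻¹))) ↔ o.lt (P * (g⁻¹ * (Q * x⁻¹))) (P * (g⁻¹ * (Q * f⁻¹))) := o.cv hδ (1) e9 (by simp only [mul_assoc, mul_inv_rev, inv_inv, mul_inv_cancel_left, inv_mul_cancel_left, mul_inv_cancel, inv_mul_cancel, mul_one, one_mul, inv_one, C]) (by simp only [mul_assoc, mul_inv_rev, inv_inv, mul_inv_cancel_left, inv_mul_cancel_left, mul_inv_cancel, inv_mul_cancel, mul_one, one_mul, inv_one, C])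
  have k75 : o.lt (P * g⁻¹) (x * Q⁻¹) ↔ o.lt (P * (g⁻¹ * (Q * x⁻¹))) (1) := o.cv hδ (Q * x⁻¹) e10 (by simp only [mul_assoc, mul_inv_rev, inv_inv, mul_inv_cancel_left, inv_mul_cancel_left, mul_inv_cancel, inv_mul_cancel, mul_one, one_mul, inv_one, C]) (by simp only [mul_assoc, mul_inv_rev, inv_inv, mul_inv_cancel_left, inv_mul_cancel_left, mul_inv_cancel, inv_mul_cancel, mul_one, one_mul, inv_one, C])
  have k76 : o.lt (f * Q⁻¹) (P * g⁻¹) ↔ o.lt (1) (P * (g⁻¹ * (Q * f⁻¹))) := o.cv hδ (Q * f⁻¹) e12 (by simp only [mul_assoc, mul_inv_rev, inv_inv, mul_inv_cancel_left, inv_mul_cancel_left, mul_inv_cancel, inv_mul_cancel, mul_one, one_mul, inv_one, C]) (by simp only [mul_assoc, mul_inv_rev, inv_inv, mul_inv_cancel_left, inv_mul_cancel_left, mul_inv_cancel, inv_mul_cancel, mul_one, one_mul, inv_one, C])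
  have k77 : o.lt (g * Q⁻¹) (P * g⁻¹) ↔ o.lt (1) (P * (g⁻¹ * (Q * g⁻¹))) := o.cv hδ (Q * g⁻¹) e14 (by simp only [mul_assoc, mul_inv_rev, inv_inv, mul_inv_cancel_left, inv_mul_cancel_left, mul_inv_cancel, inv_mul_cancel, mul_one, one_mul, inv_one, C]) (by simp only [mul_assoc, mul_inv_rev, inv_inv, mul_inv_cancel_left, inv_mul_cancel_left, mul_inv_cancel, inv_mul_cancel, mul_one, one_mul, inv_one, C])
  have k78 : o.lt (P * (Q⁻¹ * (g * Q⁻¹))) (P * (g⁻¹ * (Q * x⁻¹))) ↔ o.lt (P * (g⁻¹ * (Q * g⁻¹))) (P * (g⁻¹ * (Q * x⁻¹))) := o.cv hδ (Q * (g⁻¹ * (Q * (g⁻¹ * (Q * g⁻¹))))) e22 (by simp only [mul_assoc, mul_inv_rev, inv_inv, mul_inv_cancel_left, inv_mul_cancel_left, mul_inv_cancel, inv_mul_cancel, mul_one, one_mul, inv_one, C]) (by simp only [mul_assoc, mul_inv_rev, inv_inv, mul_inv_cancel_left, inv_mul_cancel_left, mul_inv_cancel, inv_mul_cancel, mul_one, one_mul, inv_one, C])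
  have k79 : o.lt (Q * g⁻¹) (g * P⁻¹) ↔ o.lt (1) (P * (g⁻¹ * (P * Q⁻¹))) := o.cv hδ (g * Q⁻¹) e15 (by simp only [mul_assoc, mul_inv_rev, inv_inv, mul_inv_cancel_left, inv_mul_cancel_left, mul_inv_cancel, inv_mul_cancel, mul_one, one_mul, inv_one, C]) (by simp only [mul_assoc, mul_inv_rev, inv_inv, mul_inv_cancel_left, inv_mul_cancel_left, mul_inv_cancel, inv_mul_cancel, mul_one, one_mul, inv_one, C])
  have k80 : o.lt (P * (g⁻¹ * (f * Q⁻¹))) (g * (P⁻¹ * (g * f⁻¹))) ↔ o.lt (P * (g⁻¹ * (Q * f⁻¹))) (P * (g⁻¹ * (P * Q⁻¹))) := o.cv hδ (Q * (f⁻¹ * (Q * f⁻¹))) e7 (by simp only [mul_assoc, mul_inv_rev, inv_inv, mul_inv_cancel_left, inv_mul_cancel_left, mul_inv_cancel, inv_mul_cancel, mul_one, one_mul, inv_one, C]) (by simp only [mul_assoc, mul_inv_rev, inv_inv, mul_inv_cancel_left, inv_mul_cancel_left, mul_inv_cancel, inv_mul_cancel, mul_one, one_mul, inv_one, C])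
  have k81 : o.lt (g * (P⁻¹ * (g * f⁻¹))) (P * (g⁻¹ * (f * Q⁻¹))) ↔ o.lt (P * (g⁻¹ * (P * Q⁻¹))) (P * (g⁻¹ * (Q * f⁻¹))) := o.cv hδ (f * (g⁻¹ * (P * (g⁻¹ * (P * (g⁻¹ * (P * Q⁻¹))))))) e3 (by simp only [mul_assoc, mul_inv_rev, inv_inv, mul_inv_cancel_left, inv_mul_cancel_left, mul_inv_cancel, inv_mul_cancel, mul_one, one_mul, inv_one, C]) (by simp only [mul_assoc, mul_inv_rev, inv_inv, mul_inv_cancel_left, inv_mul_cancel_left, mul_inv_cancel, inv_mul_cancel, mul_one, one_mul, inv_one, C])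
  have k82 : o.lt (P * g⁻¹) (Q * P⁻¹) ↔ o.lt (P * (g⁻¹ * (P * Q⁻¹))) (1) := o.cv hδ (P * Q⁻¹) e23 (by simp only [mul_assoc, mul_inv_rev, inv_inv, mul_inv_cancel_left, inv_mul_cancel_left, mul_inv_cancel, inv_mul_cancel, mul_one, one_mul, inv_one, C]) (by simp only [mul_assoc, mul_inv_rev, inv_inv, mul_inv_cancel_left, inv_mul_cancel_left, mul_inv_cancel, inv_mul_cancel, mul_one, one_mul, inv_one, C])
  have k83 : o.lt (g * (P⁻¹ * (g * x⁻¹))) (P * (g⁻¹ * (x * Q⁻¹))) ↔ o.lt (P * (g⁻¹ * (P * Q⁻¹))) (P * (g⁻¹ * (Q * x⁻¹))) := o.cv hδ (x * (g⁻¹ * (P * (g⁻¹ * (P * (g⁻¹ * (P * Q⁻¹))))))) e6 (by simp only [mul_assoc, mul_inv_rev, inv_inv, mul_inv_cancel_left, inv_mul_cancel_left, mul_inv_cancel, inv_mul_cancel, mul_one, one_mul, inv_one, C]) (by simp only [mul_assoc, mul_inv_rev, inv_inv, mul_inv_cancel_left, inv_mul_cancel_left, mul_inv_cancel, inv_mul_cancel, mul_one, one_mul, inv_one, C])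
  have k84 : o.lt (g * Q⁻¹) (f * Q⁻¹) ↔ o.lt (g) (f) := o.cv hδ (Q) e24 (by simp only [mul_assoc, mul_inv_rev, inv_inv, mul_inv_cancel_left, inv_mul_cancel_left, mul_inv_cancel, inv_mul_cancel, mul_one, one_mul, inv_one, C]) (by simp only [mul_assoc, mul_inv_rev, inv_inv, mul_inv_cancel_left, inv_mul_cancel_left, mul_inv_cancel, inv_mul_cancel, mul_one, one_mul, inv_one, C])
  exact par_ABC_2_prop
    (fun b0 b1 b2 => N0.i.r0 1 (fun h => b0 (k0.2 h)) (k1.1 b1) (fun h => b2 (k2.2 h)))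
    (fun b0 b1 b2 => N0.i.r1 1 (fun h => b0 (k3.2 h)) (fun h => b1 (k4.2 h)) (k2.1 b2))
    (fun b0 b1 b2 => N0.d.r1 1 (fun h => b0 (k5.2 h)) (fun h => b1 (k1.2 h)) (k6.1 b2))
    (fun b0 b1 b2 b3 => N1.i.r0 1 (fun h => b0 (k7.2 h)) (fun h => b1 (k8.2 h)) (k9.1 b2) (fun h => b3 (k10.2 h)))
    (fun b0 b1 b2 b3 => N1.rd.r1 1 (fun h => b0 (k11.2 h)) (k12.1 b1) (fun h => b2 (k13.2 h)) (fun h => b3 (k10.2 h)))
    (fun b0 b1 b2 b3 => N1.rd.r0 1 (fun h => b0 (k14.2 h)) (fun h => b1 (k15.2 h)) (k11.1 b2) (fun h => b3 (k10.2 h)))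
    (fun b0 b1 b2 => N0.r.r1 (P * g⁻¹) (fun h => b0 (k16.2 h)) (fun h => b1 (k17.2 h)) (k18.1 b2))
    (fun b0 b1 b2 => N0.rd.r0 (P * g⁻¹) (fun h => b0 (k19.2 h)) (k17.1 b1) (fun h => b2 (k20.2 h)))
    (fun b0 b1 b2 b3 => N1.d.r0 (P * g⁻¹) (fun h => b0 (k21.2 h)) (fun h => b1 (k22.2 h)) (k23.1 b2) (fun h => b3 (k24.2 h)))
    (fun b0 b1 b2 b3 => N1.r.r0 (P * g⁻¹) (fun h => b0 (k25.2 h)) (fun h => b1 (k26.2 h)) (k27.1 b2) (fun h => b3 (k24.2 h)))
    (fun b0 b1 => o.asym (k28.1 b0) (k29.1 b1))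
    (fun b0 b1 => o.asym (k30.1 b0) (k31.1 b1))
    (fun b0 b1 b2 => o.tri (k32.1 b0) (fun h => b1 (k30.2 h)) (fun h => b2 (k33.2 h)))
    (fun b0 b1 b2 => o.tri (k34.1 b0) (fun h => b1 (k28.2 h)) (fun h => b2 (k35.2 h)))
    (fun b0 b1 b2 => o.tri (k29.1 b0) (fun h => b1 (k36.2 h)) (fun h => b2 (k31.2 h)))
    (fun b0 b1 b2 => o.tri (k29.1 b0) (fun h => b1 (k37.2 h)) (fun h => b2 (k38.2 h)))
    (fun b0 b1 => o.asym (k36.1 b0) (k39.1 b1))
    (fun b0 b1 => o.asym (k37.1 b0) (k40.1 b1))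
    (fun b0 b1 b2 => o.tri (k37.1 b0) (fun h => b1 (k36.2 h)) (fun h => b2 (k41.2 h)))
    (fun b0 b1 => o.asym (k35.1 b0) (k42.1 b1))
    (fun b0 b1 b2 => o.tri (k35.1 b0) (fun h => b1 (k37.2 h)) (fun h => b2 (k43.2 h)))
    (fun b0 b1 b2 => o.tri (k44.1 b0) (fun h => b1 (k45.2 h)) (fun h => b2 (k38.2 h)))
    (fun b0 b1 => o.asym (k46.1 b0) (k47.1 b1))
    (fun b0 b1 b2 => o.tri (k46.1 b0) (fun h => b1 (k44.2 h)) (fun h => b2 (k30.2 h)))
    (fun b0 b1 => o.asym (k41.1 b0) (k48.1 b1))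
    (fun b0 b1 b2 => o.tri (k41.1 b0) (fun h => b1 (k39.2 h)) (fun h => b2 (k37.2 h)))
    (fun b0 b1 => o.asym (k43.1 b0) (k49.1 b1))
    (fun b0 b1 b2 => o.tri (k43.1 b0) (fun h => b1 (k38.2 h)) (fun h => b2 (k34.2 h)))
    (fun b0 b1 b2 => o.tri (k50.1 b0) (fun h => b1 (k51.2 h)) (fun h => b2 (k46.2 h)))
    (fun b0 b1 b2 => o.tri (k50.1 b0) (fun h => b1 (k52.2 h)) (fun h => b2 (k48.2 h)))
    (fun b0 b1 b2 => o.tri (k52.1 b0) (fun h => b1 (k51.2 h)) (fun h => b2 (k45.2 h)))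
    (fun b0 b1 b2 => o.tri (k53.1 b0) (fun h => b1 (k54.2 h)) (fun h => b2 (k55.2 h)))
    (fun b0 b1 b2 => o.tri (k55.1 b0) (fun h => b1 (k56.2 h)) (fun h => b2 (k57.2 h)))
    (fun b0 b1 b2 => o.tri (k58.1 b0) (fun h => b1 (k56.2 h)) (fun h => b2 (k59.2 h)))
    (fun b0 b1 b2 => o.tri (k60.1 b0) (fun h => b1 (k61.2 h)) (fun h => b2 (k62.2 h)))
    (fun b0 b1 b2 => o.tri (k63.1 b0) (fun h => b1 (k60.2 h)) (fun h => b2 (k59.2 h)))
    (fun b0 b1 b2 => o.tri (k61.1 b0) (fun h => b1 (k64.2 h)) (fun h => b2 (k65.2 h)))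
    (fun b0 b1 => o.asym (k66.1 b0) (k67.1 b1))
    (fun b0 b1 b2 => o.tri (k68.1 b0) (fun h => b1 (k69.2 h)) (fun h => b2 (k70.2 h)))
    (fun b0 b1 b2 => o.tri (k68.1 b0) (fun h => b1 (k71.2 h)) (fun h => b2 (k72.2 h)))
    (fun b0 b1 b2 => o.tri (k69.1 b0) (fun h => b1 (k71.2 h)) (fun h => b2 (k73.2 h)))
    (fun b0 b1 b2 => o.tri (k74.1 b0) (fun h => b1 (k75.2 h)) (fun h => b2 (k76.2 h)))
    (fun b0 b1 b2 => o.tri (k73.1 b0) (fun h => b1 (k77.2 h)) (fun h => b2 (k78.2 h)))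
    (fun b0 b1 b2 => o.tri (k79.1 b0) (fun h => b1 (k76.2 h)) (fun h => b2 (k80.2 h)))
    (fun b0 b1 b2 => o.tri (k81.1 b0) (fun h => b1 (k82.2 h)) (fun h => b2 (k76.2 h)))
    (fun b0 b1 b2 => o.tri (k83.1 b0) (fun h => b1 (k82.2 h)) (fun h => b2 (k73.2 h)))
    (fun h => g0 (k38.1 h))
    (k32.2 g1)
    (fun h => g2 (k45.1 h))
    (fun h => g3 (k84.1 h))

theorem par_BAC_0_prop {A1 A2 A3 A4 A5 A6 A7 A8 A9 A10 A11 A12 A13 A14 A15 A16 A17 A18 A19 A20 A21 A22 A23 A24 A25 A26 A27 A28 A29 A30 A31 A32 A33 A34 A35 A36 A37 A38 A39 A40 A41 A42 A43 A44 A45 : Prop}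
    (c0 : ¬ A2 → ¬ A34 → A32 → ¬ A13 → False)
    (c1 : ¬ A41 → ¬ A29 → A30 → ¬ A13 → False)
    (c2 : ¬ A42 → ¬ A43 → A34 → False)
    (c3 : ¬ A45 → A43 → ¬ A33 → False)
    (c4 : ¬ A39 → ¬ A38 → A37 → False)
    (c5 : ¬ A4 → ¬ A10 → A8 → ¬ A1 → False)
    (c6 : ¬ A20 → A19 → ¬ A9 → ¬ A1 → False)
    (c7 : ¬ A7 → ¬ A2 → A20 → ¬ A1 → False)
    (c8 : ¬ A24 → A11 → ¬ A23 → False)
    (c9 : ¬ A21 → ¬ A11 → A17 → False)
    (c10 : A16 → A29 → False)
    (c11 : A33 → A34 → False)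
    (c12 : A6 → ¬ A2 → ¬ A32 → False)
    (c13 : A26 → A14 → False)
    (c14 : A26 → ¬ A22 → ¬ A36 → False)
    (c15 : A4 → ¬ A22 → ¬ A37 → False)
    (c16 : A13 → ¬ A35 → ¬ A14 → False)
    (c17 : A35 → A39 → False)
    (c18 : A38 → ¬ A39 → ¬ A34 → False)
    (c19 : A39 → ¬ A14 → ¬ A20 → False)
    (c20 : A40 → ¬ A14 → ¬ A22 → False)
    (c21 : A41 → ¬ A29 → ¬ A32 → False)
    (c22 : A42 → A44 → False)
    (c23 : A2 → ¬ A31 → ¬ A40 → False)
    (c24 : A37 → ¬ A44 → ¬ A43 → False)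
    (c25 : A45 → ¬ A40 → ¬ A33 → False)
    (c26 : A36 → ¬ A12 → ¬ A31 → False)
    (c27 : A1 → A5 → False)
    (c28 : A1 → ¬ A30 → ¬ A13 → False)
    (c29 : A3 → ¬ A31 → ¬ A14 → False)
    (c30 : A9 → ¬ A8 → ¬ A4 → False)
    (c31 : A10 → ¬ A11 → ¬ A28 → False)
    (c32 : A11 → A27 → False)
    (c33 : A7 → ¬ A8 → ¬ A2 → False)
    (c34 : A18 → ¬ A3 → ¬ A27 → False)
    (c35 : A21 → A28 → False)
    (c36 : A21 → ¬ A5 → ¬ A3 → False)
    (c37 : A24 → ¬ A25 → ¬ A27 → False)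
    (c38 : A24 → ¬ A23 → ¬ A15 → False)
    (c39 : A12 → ¬ A15 → ¬ A8 → False)
    (c40 : A15 → ¬ A16 → ¬ A18 → False)
    (c41 : A7 → ¬ A6 → ¬ A13 → False)
    (c42 : A15 → ¬ A19 → ¬ A1 → False)
    (c43 : A23 → ¬ A22 → ¬ A14 → False)
    (c44 : A26 → ¬ A17 → ¬ A22 → False)
    (c45 : A25 → ¬ A4 → ¬ A14 → False)
    (u0 : A26)
    (u1 : ¬ A22)
    (u2 : ¬ A31)
    : False := by
  have q1 : ¬ A14 := fun h => c13 u0 h
  have q2 : A36 := Classical.byContradiction fun h => c14 u0 u1 h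
  have q3 : ¬ A40 := fun h => c20 h q1 u1
  have q4 : ¬ A2 := fun h => c23 h u2 q3
  have q5 : A12 := Classical.byContradiction fun h => c26 q2 h u2
  have q6 : ¬ A3 := fun h => c29 h u2 q1
  have q7 : ¬ A23 := fun h => c43 h u1 q1
  have q8 : A17 := Classical.byContradiction fun h => c44 u0 h u1
  rcases Classical.em A11 with q9 | q9
  · have q10 : A24 := Classical.byContradiction fun h => c8 h q9 q7
    have q11 : ¬ A27 := fun h => c32 q9 h
    have q12 : ¬ A18 := fun h => c34 h q6 q11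
    have q13 : A25 := Classical.byContradiction fun h => c37 q10 h q11
    have q14 : A15 := Classical.byContradiction fun h => c38 q10 q7 h
    have q15 : A16 := Classical.byContradiction fun h => c40 q14 h q12
    have q16 : ¬ A29 := fun h => c10 q15 h
    have q17 : A4 := Classical.byContradiction fun h => c45 q13 h q1
    have q18 : A37 := Classical.byContradiction fun h => c15 q17 u1 h
    rcases Classical.em A39 with q19 | q19
    · have q20 : ¬ A35 := fun h => c17 h q19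
      have q21 : ¬ A13 := fun h => c16 h q20 q1
      have q22 : A20 := Classical.byContradiction fun h => c19 q19 q1 h
      rcases Classical.em A1 with q23 | q23
      · have q24 : ¬ A5 := fun h => c27 q23 h
        have q25 : A30 := Classical.byContradiction fun h => c28 q23 h q21
        have q26 : A41 := Classical.byContradiction fun h => c1 h q16 q25 q21
        have q27 : A32 := Classical.byContradiction fun h => c21 q26 q16 h
        have q28 : A34 := Classical.byContradiction fun h => c0 q4 h q27 q21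
        have q29 : ¬ A33 := fun h => c11 h q28
        have q30 : ¬ A45 := fun h => c25 h q3 q29
        have q31 : ¬ A43 := fun h => c3 q30 h q29
        have q32 : A42 := Classical.byContradiction fun h => c2 h q31 q28
        have q33 : ¬ A44 := fun h => c22 q32 h
        exact c24 q18 q33 q31
      · have q34 : A7 := Classical.byContradiction fun h => c7 h q4 q22 q23
        have q35 : A8 := Classical.byContradiction fun h => c33 q34 h q4
        have q36 : A6 := Classical.byContradiction fun h => c41 q34 h q21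
        have q37 : A32 := Classical.byContradiction fun h => c12 q36 q4 h
        have q38 : A34 := Classical.byContradiction fun h => c0 q4 h q37 q21
        have q39 : ¬ A33 := fun h => c11 h q38
        have q40 : ¬ A45 := fun h => c25 h q3 q39
        have q41 : ¬ A43 := fun h => c3 q40 h q39
        have q42 : A42 := Classical.byContradiction fun h => c2 h q41 q38
        have q43 : ¬ A44 := fun h => c22 q42 h
        exact c24 q18 q43 q41
    · have q44 : A38 := Classical.byContradiction fun h => c4 q19 h q18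
      have q45 : A34 := Classical.byContradiction fun h => c18 q44 q19 h
      have q46 : ¬ A33 := fun h => c11 h q45
      have q47 : ¬ A45 := fun h => c25 h q3 q46
      have q48 : ¬ A43 := fun h => c3 q47 h q46
      have q49 : A42 := Classical.byContradiction fun h => c2 h q48 q45
      have q50 : ¬ A44 := fun h => c22 q49 h
      exact c24 q18 q50 q48
  · have q51 : A21 := Classical.byContradiction fun h => c9 h q9 q8
    have q52 : ¬ A28 := fun h => c35 q51 h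
    have q53 : ¬ A10 := fun h => c31 h q9 q52
    have q54 : A5 := Classical.byContradiction fun h => c36 q51 h q6
    have q55 : ¬ A1 := fun h => c27 h q54
    rcases Classical.em A4 with q56 | q56
    · have q57 : A37 := Classical.byContradiction fun h => c15 q56 u1 h
      rcases Classical.em A15 with q58 | q58
      · have q59 : A19 := Classical.byContradiction fun h => c42 q58 h q55
        rcases Classical.em A39 with q60 | q60
        · have q61 : ¬ A35 := fun h => c17 h q60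
          have q62 : ¬ A13 := fun h => c16 h q61 q1
          have q63 : A20 := Classical.byContradiction fun h => c19 q60 q1 h
          have q64 : A7 := Classical.byContradiction fun h => c7 h q4 q63 q55
          have q65 : A8 := Classical.byContradiction fun h => c33 q64 h q4
          have q66 : A6 := Classical.byContradiction fun h => c41 q64 h q62
          have q67 : A32 := Classical.byContradiction fun h => c12 q66 q4 h
          have q68 : A34 := Classical.byContradiction fun h => c0 q4 h q67 q62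
          have q69 : ¬ A33 := fun h => c11 h q68
          have q70 : ¬ A45 := fun h => c25 h q3 q69
          have q71 : ¬ A43 := fun h => c3 q70 h q69
          have q72 : A42 := Classical.byContradiction fun h => c2 h q71 q68
          have q73 : ¬ A44 := fun h => c22 q72 h
          exact c24 q57 q73 q71
        · have q74 : A38 := Classical.byContradiction fun h => c4 q60 h q57
          have q75 : A34 := Classical.byContradiction fun h => c18 q74 q60 h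
          have q76 : ¬ A33 := fun h => c11 h q75
          have q77 : ¬ A45 := fun h => c25 h q3 q76
          have q78 : ¬ A43 := fun h => c3 q77 h q76
          have q79 : A42 := Classical.byContradiction fun h => c2 h q78 q75
          have q80 : ¬ A44 := fun h => c22 q79 h
          exact c24 q57 q80 q78
      · have q81 : ¬ A24 := fun h => c38 h q7 q58
        have q82 : A8 := Classical.byContradiction fun h => c39 q5 q58 h
        rcases Classical.em A39 with q83 | q83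
        · have q84 : ¬ A35 := fun h => c17 h q83
          have q85 : ¬ A13 := fun h => c16 h q84 q1
          have q86 : A20 := Classical.byContradiction fun h => c19 q83 q1 h
          have q87 : A7 := Classical.byContradiction fun h => c7 h q4 q86 q55
          have q88 : A6 := Classical.byContradiction fun h => c41 q87 h q85
          have q89 : A32 := Classical.byContradiction fun h => c12 q88 q4 h
          have q90 : A34 := Classical.byContradiction fun h => c0 q4 h q89 q85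
          have q91 : ¬ A33 := fun h => c11 h q90
          have q92 : ¬ A45 := fun h => c25 h q3 q91
          have q93 : ¬ A43 := fun h => c3 q92 h q91
          have q94 : A42 := Classical.byContradiction fun h => c2 h q93 q90
          have q95 : ¬ A44 := fun h => c22 q94 h
          exact c24 q57 q95 q93
        · have q96 : A38 := Classical.byContradiction fun h => c4 q83 h q57
          have q97 : A34 := Classical.byContradiction fun h => c18 q96 q83 h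
          have q98 : ¬ A33 := fun h => c11 h q97
          have q99 : ¬ A45 := fun h => c25 h q3 q98
          have q100 : ¬ A43 := fun h => c3 q99 h q98
          have q101 : A42 := Classical.byContradiction fun h => c2 h q100 q97
          have q102 : ¬ A44 := fun h => c22 q101 h
          exact c24 q57 q102 q100
    · have q103 : ¬ A8 := fun h => c5 q56 q53 h q55
      have q104 : ¬ A9 := fun h => c30 h q103 q56
      have q105 : ¬ A7 := fun h => c33 h q103 q4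
      have q106 : ¬ A20 := fun h => c7 q105 q4 h q55
      have q107 : ¬ A19 := fun h => c6 q106 h q104 q55
      have q108 : ¬ A39 := fun h => c19 h q1 q106
      have q109 : A15 := Classical.byContradiction fun h => c39 q5 h q103
      exact c42 q109 q107 q55

theorem par_BAC_0 {G : Type*} [Group G] {δ : G → ZMod 3} (hδ : ∀ u v, δ (u * v) = δ u + δ v) (o : Pre δ)
    {P Q f x g : G} {e : ZMod 3} (h3 : 3 * e = 0)
    (D : δ P = e ∧ δ Q = -e ∧ δ f = 0 ∧ δ x = 0 ∧ δ g = 0)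
    (C : Cube P f ∧ Cube P x ∧ Cube P g ∧ Cube Q f ∧ Cube Q x ∧ Cube Q g)
    (N0 : RB o P Q f x)
    (N1 : RA o P Q x g)
    (g0 : o.lt (f * Q⁻¹) (g * Q⁻¹)) (g1 : ¬ o.lt (f * Q⁻¹) (P * g⁻¹)) (g2 : ¬ o.lt ((f * Q⁻¹)⁻¹) ((g * Q⁻¹)⁻¹)) : False := by
  simp only [Cube] at C
  have e0 : δ (f * (Q⁻¹ * f)) = δ (f * (Q⁻¹ * x)) := by simp only [hδ, δinv hδ, δone hδ, D] <;> linear_combination (0) * h3
  have e1 : δ (f * Q⁻¹) = δ (P * f⁻¹) := by simp only [hδ, δinv hδ, δone hδ, D] <;> linear_combination (0) * h3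
  have e2 : δ (Q * f⁻¹) = δ (f * (Q⁻¹ * (g * Q⁻¹))) := by simp only [hδ, δinv hδ, δone hδ, D] <;> linear_combination (-1) * h3
  have e3 : δ (f * (Q⁻¹ * (P * f⁻¹))) = δ (Q * f⁻¹) := by simp only [hδ, δinv hδ, δone hδ, D] <;> linear_combination (1) * h3
  have e4 : δ (f * (Q⁻¹ * (x * Q⁻¹))) = δ (Q * f⁻¹) := by simp only [hδ, δinv hδ, δone hδ, D] <;> linear_combination (1) * h3
  have e5 : δ (f * Q⁻¹) = δ (P * x⁻¹) := by simp only [hδ, δinv hδ, δone hδ, D] <;> linear_combination (0) * h3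
  have e6 : δ (f * (Q⁻¹ * (x * P⁻¹))) = δ (f * x⁻¹) := by simp only [hδ, δinv hδ, δone hδ, D] <;> linear_combination (0) * h3
  have e7 : δ (f * (Q⁻¹ * (P * x⁻¹))) = δ (f * (Q⁻¹ * (P * f⁻¹))) := by simp only [hδ, δinv hδ, δone hδ, D] <;> linear_combination (0) * h3
  have e8 : δ (f * (Q⁻¹ * (P * x⁻¹))) = δ (Q * f⁻¹) := by simp only [hδ, δinv hδ, δone hδ, D] <;> linear_combination (1) * h3
  have e9 : δ (f * (Q⁻¹ * (P * x⁻¹))) = δ (f * (Q⁻¹ * (x * Q⁻¹))) := by simp only [hδ, δinv hδ, δone hδ, D] <;> linear_combination (0) * h3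
  have e10 : δ (f * (Q⁻¹ * (P * x⁻¹))) = δ (f * (Q⁻¹ * (g * Q⁻¹))) := by simp only [hδ, δinv hδ, δone hδ, D] <;> linear_combination (0) * h3
  have e11 : δ (P * Q⁻¹) = δ (Q * f⁻¹) := by simp only [hδ, δinv hδ, δone hδ, D] <;> linear_combination (1) * h3
  have e12 : δ (x) = δ (f) := by simp only [hδ, δinv hδ, δone hδ, D] <;> linear_combination (0) * h3
  have e13 : δ (g * Q⁻¹) = δ (f * Q⁻¹) := by simp only [hδ, δinv hδ, δone hδ, D] <;> linear_combination (0) * h3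
  have e14 : δ (f * P⁻¹) = δ (f * (Q⁻¹ * (P * x⁻¹))) := by simp only [hδ, δinv hδ, δone hδ, D] <;> linear_combination (-1) * h3
  have e15 : δ (P * f⁻¹) = δ (Q * P⁻¹) := by simp only [hδ, δinv hδ, δone hδ, D] <;> linear_combination (1) * h3
  have e16 : δ (f * g⁻¹) = δ (f * (Q⁻¹ * (g * P⁻¹))) := by simp only [hδ, δinv hδ, δone hδ, D] <;> linear_combination (0) * h3
  have e17 : δ (Q * f⁻¹) = δ (f * (Q⁻¹ * (P * x⁻¹))) := by simp only [hδ, δinv hδ, δone hδ, D] <;> linear_combination (-1) * h3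
  have e18 : δ (f * x⁻¹) = δ (f * (Q⁻¹ * (f * P⁻¹))) := by simp only [hδ, δinv hδ, δone hδ, D] <;> linear_combination (0) * h3
  have e19 : δ (f * x⁻¹) = δ (1) := by simp only [hδ, δinv hδ, δone hδ, D] <;> linear_combination (0) * h3
  have e20 : δ (f * (Q⁻¹ * (x * Q⁻¹))) = δ (f * (Q⁻¹ * (g * Q⁻¹))) := by simp only [hδ, δinv hδ, δone hδ, D] <;> linear_combination (0) * h3
  have e21 : δ (f * Q⁻¹) = δ (P * g⁻¹) := by simp only [hδ, δinv hδ, δone hδ, D] <;> linear_combination (0) * h3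
  have e22 : δ (f * (Q⁻¹ * (g * P⁻¹))) = δ (f * g⁻¹) := by simp only [hδ, δinv hδ, δone hδ, D] <;> linear_combination (0) * h3
  have e23 : δ (f * (Q⁻¹ * (P * g⁻¹))) = δ (f * (Q⁻¹ * (P * x⁻¹))) := by simp only [hδ, δinv hδ, δone hδ, D] <;> linear_combination (0) * h3
  have e24 : δ (f * (Q⁻¹ * (P * g⁻¹))) = δ (f * (Q⁻¹ * (g * Q⁻¹))) := by simp only [hδ, δinv hδ, δone hδ, D] <;> linear_combination (0) * h3
  have e25 : δ (f * Q⁻¹) = δ (g * Q⁻¹) := by simp only [hδ, δinv hδ, δone hδ, D] <;> linear_combination (0) * h3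
  have e26 : δ (f * (Q⁻¹ * (g * Q⁻¹))) = δ (f * (Q⁻¹ * (P * x⁻¹))) := by simp only [hδ, δinv hδ, δone hδ, D] <;> linear_combination (0) * h3
  have e27 : δ (f * (Q⁻¹ * (g * Q⁻¹))) = δ (f * (Q⁻¹ * (x * Q⁻¹))) := by simp only [hδ, δinv hδ, δone hδ, D] <;> linear_combination (0) * h3
  have e28 : δ (Q * f⁻¹) = δ (f * P⁻¹) := by simp only [hδ, δinv hδ, δone hδ, D] <;> linear_combination (0) * h3
  have e29 : δ (Q * f⁻¹) = δ (Q * x⁻¹) := by simp only [hδ, δinv hδ, δone hδ, D] <;> linear_combination (0) * h3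
  have e30 : δ (Q * f⁻¹) = δ (Q * g⁻¹) := by simp only [hδ, δinv hδ, δone hδ, D] <;> linear_combination (0) * h3
  have e31 : δ (P * f⁻¹) = δ (P * x⁻¹) := by simp only [hδ, δinv hδ, δone hδ, D] <;> linear_combination (0) * h3
  have e32 : δ (P * x⁻¹) = δ (x * Q⁻¹) := by simp only [hδ, δinv hδ, δone hδ, D] <;> linear_combination (0) * h3
  have e33 : δ (x * Q⁻¹) = δ (P * x⁻¹) := by simp only [hδ, δinv hδ, δone hδ, D] <;> linear_combination (0) * h3
  have e34 : δ (x * Q⁻¹) = δ (g * Q⁻¹) := by simp only [hδ, δinv hδ, δone hδ, D] <;> linear_combination (0) * h3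
  have e35 : δ (P * g⁻¹) = δ (g * Q⁻¹) := by simp only [hδ, δinv hδ, δone hδ, D] <;> linear_combination (0) * h3
  have e36 : δ (g * P⁻¹) = δ (Q * g⁻¹) := by simp only [hδ, δinv hδ, δone hδ, D] <;> linear_combination (0) * h3
  have e37 : δ (g * Q⁻¹) = δ (P * x⁻¹) := by simp only [hδ, δinv hδ, δone hδ, D] <;> linear_combination (0) * h3
  have e38 : δ (g * Q⁻¹) = δ (x * Q⁻¹) := by simp only [hδ, δinv hδ, δone hδ, D] <;> linear_combination (0) * h3
  have e39 : δ (g * Q⁻¹) = δ (P * g⁻¹) := by simp only [hδ, δinv hδ, δone hδ, D] <;> linear_combination (0) * h3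
  have e40 : δ (Q * x⁻¹) = δ (x * P⁻¹) := by simp only [hδ, δinv hδ, δone hδ, D] <;> linear_combination (0) * h3
  have e41 : δ (x * P⁻¹) = δ (g * P⁻¹) := by simp only [hδ, δinv hδ, δone hδ, D] <;> linear_combination (0) * h3
  have e42 : δ (x * P⁻¹) = δ (Q * g⁻¹) := by simp only [hδ, δinv hδ, δone hδ, D] <;> linear_combination (0) * h3
  have e43 : δ (g * P⁻¹) = δ (x * P⁻¹) := by simp only [hδ, δinv hδ, δone hδ, D] <;> linear_combination (0) * h3
  have e44 : δ (Q * g⁻¹) = δ (Q * x⁻¹) := by simp only [hδ, δinv hδ, δone hδ, D] <;> linear_combination (0) * h3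
  have k0 : o.lt (f * Q⁻¹) (P * f⁻¹) ↔ o.lt (1 * (f * Q⁻¹)) (1 * (P * f⁻¹)) := o.cv hδ (1) e1 (by simp only [mul_assoc, mul_inv_rev, inv_inv, mul_inv_cancel_left, inv_mul_cancel_left, mul_inv_cancel, inv_mul_cancel, mul_one, one_mul, inv_one, C]) (by simp only [mul_assoc, mul_inv_rev, inv_inv, mul_inv_cancel_left, inv_mul_cancel_left, mul_inv_cancel, inv_mul_cancel, mul_one, one_mul, inv_one, C])
  have k1 : o.lt (x * Q⁻¹) (P * x⁻¹) ↔ o.lt (1 * (x * Q⁻¹)) (1 * (P * x⁻¹)) := o.cv hδ (1) e33 (by simp only [mul_assoc, mul_inv_rev, inv_inv, mul_inv_cancel_left, inv_mul_cancel_left, mul_inv_cancel, inv_mul_cancel, mul_one, one_mul, inv_one, C]) (by simp only [mul_assoc, mul_inv_rev, inv_inv, mul_inv_cancel_left, inv_mul_cancel_left, mul_inv_cancel, inv_mul_cancel, mul_one, one_mul, inv_one, C])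
  have k2 : o.lt (P * f⁻¹) (P * x⁻¹) ↔ o.lt (1 * (P * f⁻¹)) (1 * (P * x⁻¹)) := o.cv hδ (1) e31 (by simp only [mul_assoc, mul_inv_rev, inv_inv, mul_inv_cancel_left, inv_mul_cancel_left, mul_inv_cancel, inv_mul_cancel, mul_one, one_mul, inv_one, C]) (by simp only [mul_assoc, mul_inv_rev, inv_inv, mul_inv_cancel_left, inv_mul_cancel_left, mul_inv_cancel, inv_mul_cancel, mul_one, one_mul, inv_one, C])
  have k3 : o.lt (x) (f) ↔ o.lt (1 * x) (1 * f) := o.cv hδ (1) e12 (by simp only [mul_assoc, mul_inv_rev, inv_inv, mul_inv_cancel_left, inv_mul_cancel_left, mul_inv_cancel, inv_mul_cancel, mul_one, one_mul, inv_one, C]) (by simp only [mul_assoc, mul_inv_rev, inv_inv, mul_inv_cancel_left, inv_mul_cancel_left, mul_inv_cancel, inv_mul_cancel, mul_one, one_mul, inv_one, C])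
  have k4 : o.lt (Q * x⁻¹) (x * P⁻¹) ↔ o.lt (1 * (Q * x⁻¹)) (1 * (x * P⁻¹)) := o.cv hδ (1) e40 (by simp only [mul_assoc, mul_inv_rev, inv_inv, mul_inv_cancel_left, inv_mul_cancel_left, mul_inv_cancel, inv_mul_cancel, mul_one, one_mul, inv_one, C]) (by simp only [mul_assoc, mul_inv_rev, inv_inv, mul_inv_cancel_left, inv_mul_cancel_left, mul_inv_cancel, inv_mul_cancel, mul_one, one_mul, inv_one, C])
  have k5 : o.lt (Q * f⁻¹) (f * P⁻¹) ↔ o.lt (1 * (Q * f⁻¹)) (1 * (f * P⁻¹)) := o.cv hδ (1) e28 (by simp only [mul_assoc, mul_inv_rev, inv_inv, mul_inv_cancel_left, inv_mul_cancel_left, mul_inv_cancel, inv_mul_cancel, mul_one, one_mul, inv_one, C]) (by simp only [mul_assoc, mul_inv_rev, inv_inv, mul_inv_cancel_left, inv_mul_cancel_left, mul_inv_cancel, inv_mul_cancel, mul_one, one_mul, inv_one, C])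
  have k6 : o.lt (Q * f⁻¹) (Q * x⁻¹) ↔ o.lt (1 * (Q * f⁻¹)) (1 * (Q * x⁻¹)) := o.cv hδ (1) e29 (by simp only [mul_assoc, mul_inv_rev, inv_inv, mul_inv_cancel_left, inv_mul_cancel_left, mul_inv_cancel, inv_mul_cancel, mul_one, one_mul, inv_one, C]) (by simp only [mul_assoc, mul_inv_rev, inv_inv, mul_inv_cancel_left, inv_mul_cancel_left, mul_inv_cancel, inv_mul_cancel, mul_one, one_mul, inv_one, C])
  have k7 : o.lt (x * P⁻¹) (g * P⁻¹) ↔ o.lt (1 * (x * P⁻¹)) (1 * (g * P⁻¹)) := o.cv hδ (1) e41 (by simp only [mul_assoc, mul_inv_rev, inv_inv, mul_inv_cancel_left, inv_mul_cancel_left, mul_inv_cancel, inv_mul_cancel, mul_one, one_mul, inv_one, C]) (by simp only [mul_assoc, mul_inv_rev, inv_inv, mul_inv_cancel_left, inv_mul_cancel_left, mul_inv_cancel, inv_mul_cancel, mul_one, one_mul, inv_one, C])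
  have k8 : o.lt (x * P⁻¹) (Q * g⁻¹) ↔ o.lt (1 * (x * P⁻¹)) (1 * (Q * g⁻¹)) := o.cv hδ (1) e42 (by simp only [mul_assoc, mul_inv_rev, inv_inv, mul_inv_cancel_left, inv_mul_cancel_left, mul_inv_cancel, inv_mul_cancel, mul_one, one_mul, inv_one, C]) (by simp only [mul_assoc, mul_inv_rev, inv_inv, mul_inv_cancel_left, inv_mul_cancel_left, mul_inv_cancel, inv_mul_cancel, mul_one, one_mul, inv_one, C])
  have k9 : o.lt (x * Q⁻¹) (P * x⁻¹) ↔ o.lt (1 * (Q * x⁻¹)⁻¹) (1 * (x * P⁻¹)⁻¹) := o.cv hδ (1) e33 (by simp only [mul_assoc, mul_inv_rev, inv_inv, mul_inv_cancel_left, inv_mul_cancel_left, mul_inv_cancel, inv_mul_cancel, mul_one, one_mul, inv_one, C]) (by simp only [mul_assoc, mul_inv_rev, inv_inv, mul_inv_cancel_left, inv_mul_cancel_left, mul_inv_cancel, inv_mul_cancel, mul_one, one_mul, inv_one, C])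
  have k10 : o.lt (Q * g⁻¹) (Q * x⁻¹) ↔ o.lt (1 * (Q * g⁻¹)) (1 * (Q * x⁻¹)) := o.cv hδ (1) e44 (by simp only [mul_assoc, mul_inv_rev, inv_inv, mul_inv_cancel_left, inv_mul_cancel_left, mul_inv_cancel, inv_mul_cancel, mul_one, one_mul, inv_one, C]) (by simp only [mul_assoc, mul_inv_rev, inv_inv, mul_inv_cancel_left, inv_mul_cancel_left, mul_inv_cancel, inv_mul_cancel, mul_one, one_mul, inv_one, C])
  have k11 : o.lt (P * x⁻¹) (x * Q⁻¹) ↔ o.lt (1 * (x * P⁻¹)⁻¹) (1 * (Q * x⁻¹)⁻¹) := o.cv hδ (1) e32 (by simp only [mul_assoc, mul_inv_rev, inv_inv, mul_inv_cancel_left, inv_mul_cancel_left, mul_inv_cancel, inv_mul_cancel, mul_one, one_mul, inv_one, C]) (by simp only [mul_assoc, mul_inv_rev, inv_inv, mul_inv_cancel_left, inv_mul_cancel_left, mul_inv_cancel, inv_mul_cancel, mul_one, one_mul, inv_one, C])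
  have k12 : o.lt (g * Q⁻¹) (x * Q⁻¹) ↔ o.lt (1 * (g * Q⁻¹)) (1 * (x * Q⁻¹)) := o.cv hδ (1) e38 (by simp only [mul_assoc, mul_inv_rev, inv_inv, mul_inv_cancel_left, inv_mul_cancel_left, mul_inv_cancel, inv_mul_cancel, mul_one, one_mul, inv_one, C]) (by simp only [mul_assoc, mul_inv_rev, inv_inv, mul_inv_cancel_left, inv_mul_cancel_left, mul_inv_cancel, inv_mul_cancel, mul_one, one_mul, inv_one, C])
  have k13 : o.lt (g * Q⁻¹) (P * x⁻¹) ↔ o.lt (1 * (g * Q⁻¹)) (1 * (P * x⁻¹)) := o.cv hδ (1) e37 (by simp only [mul_assoc, mul_inv_rev, inv_inv, mul_inv_cancel_left, inv_mul_cancel_left, mul_inv_cancel, inv_mul_cancel, mul_one, one_mul, inv_one, C]) (by simp only [mul_assoc, mul_inv_rev, inv_inv, mul_inv_cancel_left, inv_mul_cancel_left, mul_inv_cancel, inv_mul_cancel, mul_one, one_mul, inv_one, C])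
  have k14 : o.lt (g * P⁻¹) (Q * g⁻¹) ↔ o.lt (1 * (P * g⁻¹)⁻¹) (1 * (g * Q⁻¹)⁻¹) := o.cv hδ (1) e36 (by simp only [mul_assoc, mul_inv_rev, inv_inv, mul_inv_cancel_left, inv_mul_cancel_left, mul_inv_cancel, inv_mul_cancel, mul_one, one_mul, inv_one, C]) (by simp only [mul_assoc, mul_inv_rev, inv_inv, mul_inv_cancel_left, inv_mul_cancel_left, mul_inv_cancel, inv_mul_cancel, mul_one, one_mul, inv_one, C])
  have k15 : o.lt (f * (Q⁻¹ * (P * f⁻¹))) (Q * f⁻¹) ↔ o.lt ((f * Q⁻¹) * (P * f⁻¹)) ((f * Q⁻¹) * (f * Q⁻¹)) := o.cv hδ (1) e3 (by simp only [mul_assoc, mul_inv_rev, inv_inv, mul_inv_cancel_left, inv_mul_cancel_left, mul_inv_cancel, inv_mul_cancel, mul_one, one_mul, inv_one, C]) (by simp only [mul_assoc, mul_inv_rev, inv_inv, mul_inv_cancel_left, inv_mul_cancel_left, mul_inv_cancel, inv_mul_cancel, mul_one, one_mul, inv_one, C])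
  have k16 : o.lt (f * (Q⁻¹ * (P * x⁻¹))) (f * (Q⁻¹ * (x * Q⁻¹))) ↔ o.lt ((f * Q⁻¹) * (P * x⁻¹)) ((f * Q⁻¹) * (x * Q⁻¹)) := o.cv hδ (1) e9 (by simp only [mul_assoc, mul_inv_rev, inv_inv, mul_inv_cancel_left, inv_mul_cancel_left, mul_inv_cancel, inv_mul_cancel, mul_one, one_mul, inv_one, C]) (by simp only [mul_assoc, mul_inv_rev, inv_inv, mul_inv_cancel_left, inv_mul_cancel_left, mul_inv_cancel, inv_mul_cancel, mul_one, one_mul, inv_one, C])
  have k17 : o.lt (f * (Q⁻¹ * (P * x⁻¹))) (f * (Q⁻¹ * (P * f⁻¹))) ↔ o.lt ((f * Q⁻¹) * (P * x⁻¹)) ((f * Q⁻¹) * (P * f⁻¹)) := o.cv hδ (1) e7 (by simp only [mul_assoc, mul_inv_rev, inv_inv, mul_inv_cancel_left, inv_mul_cancel_left, mul_inv_cancel, inv_mul_cancel, mul_one, one_mul, inv_one, C]) (by simp only [mul_assoc, mul_inv_rev, inv_inv, mul_inv_cancel_left, inv_mul_cancel_left, mul_inv_cancel, inv_mul_cancel, mul_one, one_mul, inv_one, C])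
  have k18 : o.lt (f * (Q⁻¹ * f)) (f * (Q⁻¹ * x)) ↔ o.lt ((f * Q⁻¹) * f) ((f * Q⁻¹) * x) := o.cv hδ (1) e0 (by simp only [mul_assoc, mul_inv_rev, inv_inv, mul_inv_cancel_left, inv_mul_cancel_left, mul_inv_cancel, inv_mul_cancel, mul_one, one_mul, inv_one, C]) (by simp only [mul_assoc, mul_inv_rev, inv_inv, mul_inv_cancel_left, inv_mul_cancel_left, mul_inv_cancel, inv_mul_cancel, mul_one, one_mul, inv_one, C])
  have k19 : o.lt (f * x⁻¹) (1) ↔ o.lt ((f * Q⁻¹) * (Q * x⁻¹)) ((f * Q⁻¹) * (Q * f⁻¹)) := o.cv hδ (1) e19 (by simp only [mul_assoc, mul_inv_rev, inv_inv, mul_inv_cancel_left, inv_mul_cancel_left, mul_inv_cancel, inv_mul_cancel, mul_one, one_mul, inv_one, C]) (by simp only [mul_assoc, mul_inv_rev, inv_inv, mul_inv_cancel_left, inv_mul_cancel_left, mul_inv_cancel, inv_mul_cancel, mul_one, one_mul, inv_one, C])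
  have k20 : o.lt (f * x⁻¹) (f * (Q⁻¹ * (f * P⁻¹))) ↔ o.lt ((f * Q⁻¹) * (Q * x⁻¹)) ((f * Q⁻¹) * (f * P⁻¹)) := o.cv hδ (1) e18 (by simp only [mul_assoc, mul_inv_rev, inv_inv, mul_inv_cancel_left, inv_mul_cancel_left, mul_inv_cancel, inv_mul_cancel, mul_one, one_mul, inv_one, C]) (by simp only [mul_assoc, mul_inv_rev, inv_inv, mul_inv_cancel_left, inv_mul_cancel_left, mul_inv_cancel, inv_mul_cancel, mul_one, one_mul, inv_one, C])
  have k21 : o.lt (f * (Q⁻¹ * (P * x⁻¹))) (Q * f⁻¹) ↔ o.lt ((f * Q⁻¹) * (x * P⁻¹)⁻¹) ((f * Q⁻¹) * (Q * f⁻¹)⁻¹) := o.cv hδ (1) e8 (by simp only [mul_assoc, mul_inv_rev, inv_inv, mul_inv_cancel_left, inv_mul_cancel_left, mul_inv_cancel, inv_mul_cancel, mul_one, one_mul, inv_one, C]) (by simp only [mul_assoc, mul_inv_rev, inv_inv, mul_inv_cancel_left, inv_mul_cancel_left, mul_inv_cancel, inv_mul_cancel, mul_one, one_mul, inv_one, C])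
  have k22 : o.lt (f * (Q⁻¹ * (x * P⁻¹))) (f * x⁻¹) ↔ o.lt ((f * Q⁻¹) * (x * P⁻¹)) ((f * Q⁻¹) * (Q * x⁻¹)) := o.cv hδ (1) e6 (by simp only [mul_assoc, mul_inv_rev, inv_inv, mul_inv_cancel_left, inv_mul_cancel_left, mul_inv_cancel, inv_mul_cancel, mul_one, one_mul, inv_one, C]) (by simp only [mul_assoc, mul_inv_rev, inv_inv, mul_inv_cancel_left, inv_mul_cancel_left, mul_inv_cancel, inv_mul_cancel, mul_one, one_mul, inv_one, C])
  have k23 : o.lt (f * Q⁻¹) (P * f⁻¹) ↔ o.lt ((f * Q⁻¹) * (f * P⁻¹)) ((f * Q⁻¹) * (Q * f⁻¹)) := o.cv hδ (f * P⁻¹) e1 (by simp only [mul_assoc, mul_inv_rev, inv_inv, mul_inv_cancel_left, inv_mul_cancel_left, mul_inv_cancel, inv_mul_cancel, mul_one, one_mul, inv_one, C]) (by simp only [mul_assoc, mul_inv_rev, inv_inv, mul_inv_cancel_left, inv_mul_cancel_left, mul_inv_cancel, inv_mul_cancel, mul_one, one_mul, inv_one, C])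
  have k24 : o.lt (f * (Q⁻¹ * (P * g⁻¹))) (f * (Q⁻¹ * (P * x⁻¹))) ↔ o.lt ((f * Q⁻¹) * (P * g⁻¹)) ((f * Q⁻¹) * (P * x⁻¹)) := o.cv hδ (1) e23 (by simp only [mul_assoc, mul_inv_rev, inv_inv, mul_inv_cancel_left, inv_mul_cancel_left, mul_inv_cancel, inv_mul_cancel, mul_one, one_mul, inv_one, C]) (by simp only [mul_assoc, mul_inv_rev, inv_inv, mul_inv_cancel_left, inv_mul_cancel_left, mul_inv_cancel, inv_mul_cancel, mul_one, one_mul, inv_one, C])
  have k25 : o.lt (f * (Q⁻¹ * (P * x⁻¹))) (f * (Q⁻¹ * (g * Q⁻¹))) ↔ o.lt ((f * Q⁻¹) * (P * x⁻¹)) ((f * Q⁻¹) * (g * Q⁻¹)) := o.cv hδ (1) e10 (by simp only [mul_assoc, mul_inv_rev, inv_inv, mul_inv_cancel_left, inv_mul_cancel_left, mul_inv_cancel, inv_mul_cancel, mul_one, one_mul, inv_one, C]) (by simp only [mul_assoc, mul_inv_rev, inv_inv, mul_inv_cancel_left, inv_mul_cancel_left, mul_inv_cancel, inv_mul_cancel, mul_one, one_mul, inv_one, C])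
  have k26 : o.lt (f * (Q⁻¹ * (g * P⁻¹))) (f * g⁻¹) ↔ o.lt ((f * Q⁻¹) * (P * g⁻¹)⁻¹) ((f * Q⁻¹) * (g * Q⁻¹)⁻¹) := o.cv hδ (1) e22 (by simp only [mul_assoc, mul_inv_rev, inv_inv, mul_inv_cancel_left, inv_mul_cancel_left, mul_inv_cancel, inv_mul_cancel, mul_one, one_mul, inv_one, C]) (by simp only [mul_assoc, mul_inv_rev, inv_inv, mul_inv_cancel_left, inv_mul_cancel_left, mul_inv_cancel, inv_mul_cancel, mul_one, one_mul, inv_one, C])
  have k27 : o.lt (f * (Q⁻¹ * (x * Q⁻¹))) (f * (Q⁻¹ * (g * Q⁻¹))) ↔ o.lt ((f * Q⁻¹) * (x * Q⁻¹)) ((f * Q⁻¹) * (g * Q⁻¹)) := o.cv hδ (1) e20 (by simp only [mul_assoc, mul_inv_rev, inv_inv, mul_inv_cancel_left, inv_mul_cancel_left, mul_inv_cancel, inv_mul_cancel, mul_one, one_mul, inv_one, C]) (by simp only [mul_assoc, mul_inv_rev, inv_inv, mul_inv_cancel_left, inv_mul_cancel_left, mul_inv_cancel, inv_mul_cancel, mul_one, one_mul, inv_one, C])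
  have k28 : o.lt (f * g⁻¹) (f * (Q⁻¹ * (g * P⁻¹))) ↔ o.lt ((f * Q⁻¹) * (g * Q⁻¹)⁻¹) ((f * Q⁻¹) * (P * g⁻¹)⁻¹) := o.cv hδ (1) e16 (by simp only [mul_assoc, mul_inv_rev, inv_inv, mul_inv_cancel_left, inv_mul_cancel_left, mul_inv_cancel, inv_mul_cancel, mul_one, one_mul, inv_one, C]) (by simp only [mul_assoc, mul_inv_rev, inv_inv, mul_inv_cancel_left, inv_mul_cancel_left, mul_inv_cancel, inv_mul_cancel, mul_one, one_mul, inv_one, C])
  have k29 : o.lt (P * f⁻¹) (Q * P⁻¹) ↔ o.lt (P * f⁻¹) (Q * P⁻¹) := o.cv hδ (1) e15 (by simp only [mul_assoc, mul_inv_rev, inv_inv, mul_inv_cancel_left, inv_mul_cancel_left, mul_inv_cancel, inv_mul_cancel, mul_one, one_mul, inv_one, C]) (by simp only [mul_assoc, mul_inv_rev, inv_inv, mul_inv_cancel_left, inv_mul_cancel_left, mul_inv_cancel, inv_mul_cancel, mul_one, one_mul, inv_one, C])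
  have k30 : o.lt (Q * f⁻¹) (f * P⁻¹) ↔ o.lt (Q * P⁻¹) (P * f⁻¹) := o.cv hδ (f * P⁻¹) e28 (by simp only [mul_assoc, mul_inv_rev, inv_inv, mul_inv_cancel_left, inv_mul_cancel_left, mul_inv_cancel, inv_mul_cancel, mul_one, one_mul, inv_one, C]) (by simp only [mul_assoc, mul_inv_rev, inv_inv, mul_inv_cancel_left, inv_mul_cancel_left, mul_inv_cancel, inv_mul_cancel, mul_one, one_mul, inv_one, C])
  have k31 : o.lt (P * x⁻¹) (x * Q⁻¹) ↔ o.lt (P * x⁻¹) (x * Q⁻¹) := o.cv hδ (1) e32 (by simp only [mul_assoc, mul_inv_rev, inv_inv, mul_inv_cancel_left, inv_mul_cancel_left, mul_inv_cancel, inv_mul_cancel, mul_one, one_mul, inv_one, C]) (by simp only [mul_assoc, mul_inv_rev, inv_inv, mul_inv_cancel_left, inv_mul_cancel_left, mul_inv_cancel, inv_mul_cancel, mul_one, one_mul, inv_one, C])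
  have k32 : o.lt (x * Q⁻¹) (P * x⁻¹) ↔ o.lt (x * Q⁻¹) (P * x⁻¹) := o.cv hδ (1) e33 (by simp only [mul_assoc, mul_inv_rev, inv_inv, mul_inv_cancel_left, inv_mul_cancel_left, mul_inv_cancel, inv_mul_cancel, mul_one, one_mul, inv_one, C]) (by simp only [mul_assoc, mul_inv_rev, inv_inv, mul_inv_cancel_left, inv_mul_cancel_left, mul_inv_cancel, inv_mul_cancel, mul_one, one_mul, inv_one, C])
  have k33 : o.lt (f * Q⁻¹) (P * x⁻¹) ↔ o.lt (f * Q⁻¹) (P * x⁻¹) := o.cv hδ (1) e5 (by simp only [mul_assoc, mul_inv_rev, inv_inv, mul_inv_cancel_left, inv_mul_cancel_left, mul_inv_cancel, inv_mul_cancel, mul_one, one_mul, inv_one, C]) (by simp only [mul_assoc, mul_inv_rev, inv_inv, mul_inv_cancel_left, inv_mul_cancel_left, mul_inv_cancel, inv_mul_cancel, mul_one, one_mul, inv_one, C])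
  have k34 : o.lt (f * Q⁻¹) (P * f⁻¹) ↔ o.lt (f * Q⁻¹) (P * f⁻¹) := o.cv hδ (1) e1 (by simp only [mul_assoc, mul_inv_rev, inv_inv, mul_inv_cancel_left, inv_mul_cancel_left, mul_inv_cancel, inv_mul_cancel, mul_one, one_mul, inv_one, C]) (by simp only [mul_assoc, mul_inv_rev, inv_inv, mul_inv_cancel_left, inv_mul_cancel_left, mul_inv_cancel, inv_mul_cancel, mul_one, one_mul, inv_one, C])
  have k35 : o.lt (P * f⁻¹) (P * x⁻¹) ↔ o.lt (P * f⁻¹) (P * x⁻¹) := o.cv hδ (1) e31 (by simp only [mul_assoc, mul_inv_rev, inv_inv, mul_inv_cancel_left, inv_mul_cancel_left, mul_inv_cancel, inv_mul_cancel, mul_one, one_mul, inv_one, C]) (by simp only [mul_assoc, mul_inv_rev, inv_inv, mul_inv_cancel_left, inv_mul_cancel_left, mul_inv_cancel, inv_mul_cancel, mul_one, one_mul, inv_one, C])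
  have k36 : o.lt (f * Q⁻¹) (g * Q⁻¹) ↔ o.lt (f * Q⁻¹) (g * Q⁻¹) := o.cv hδ (1) e25 (by simp only [mul_assoc, mul_inv_rev, inv_inv, mul_inv_cancel_left, inv_mul_cancel_left, mul_inv_cancel, inv_mul_cancel, mul_one, one_mul, inv_one, C]) (by simp only [mul_assoc, mul_inv_rev, inv_inv, mul_inv_cancel_left, inv_mul_cancel_left, mul_inv_cancel, inv_mul_cancel, mul_one, one_mul, inv_one, C])
  have k37 : o.lt (g * Q⁻¹) (f * Q⁻¹) ↔ o.lt (g * Q⁻¹) (f * Q⁻¹) := o.cv hδ (1) e13 (by simp only [mul_assoc, mul_inv_rev, inv_inv, mul_inv_cancel_left, inv_mul_cancel_left, mul_inv_cancel, inv_mul_cancel, mul_one, one_mul, inv_one, C]) (by simp only [mul_assoc, mul_inv_rev, inv_inv, mul_inv_cancel_left, inv_mul_cancel_left, mul_inv_cancel, inv_mul_cancel, mul_one, one_mul, inv_one, C])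
  have k38 : o.lt (f * Q⁻¹) (P * g⁻¹) ↔ o.lt (f * Q⁻¹) (P * g⁻¹) := o.cv hδ (1) e21 (by simp only [mul_assoc, mul_inv_rev, inv_inv, mul_inv_cancel_left, inv_mul_cancel_left, mul_inv_cancel, inv_mul_cancel, mul_one, one_mul, inv_one, C]) (by simp only [mul_assoc, mul_inv_rev, inv_inv, mul_inv_cancel_left, inv_mul_cancel_left, mul_inv_cancel, inv_mul_cancel, mul_one, one_mul, inv_one, C])
  have k39 : o.lt (P * g⁻¹) (g * Q⁻¹) ↔ o.lt (P * g⁻¹) (g * Q⁻¹) := o.cv hδ (1) e35 (by simp only [mul_assoc, mul_inv_rev, inv_inv, mul_inv_cancel_left, inv_mul_cancel_left, mul_inv_cancel, inv_mul_cancel, mul_one, one_mul, inv_one, C]) (by simp only [mul_assoc, mul_inv_rev, inv_inv, mul_inv_cancel_left, inv_mul_cancel_left, mul_inv_cancel, inv_mul_cancel, mul_one, one_mul, inv_one, C])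
  have k40 : o.lt (f * (Q⁻¹ * (P * f⁻¹))) (Q * f⁻¹) ↔ o.lt (f * Q⁻¹) (Q * P⁻¹) := o.cv hδ (f * P⁻¹) e3 (by simp only [mul_assoc, mul_inv_rev, inv_inv, mul_inv_cancel_left, inv_mul_cancel_left, mul_inv_cancel, inv_mul_cancel, mul_one, one_mul, inv_one, C]) (by simp only [mul_assoc, mul_inv_rev, inv_inv, mul_inv_cancel_left, inv_mul_cancel_left, mul_inv_cancel, inv_mul_cancel, mul_one, one_mul, inv_one, C])
  have k41 : o.lt (g * P⁻¹) (Q * g⁻¹) ↔ o.lt (P * g⁻¹) (Q * P⁻¹) := o.cv hδ (P * (g⁻¹ * (P * g⁻¹))) e36 (by simp only [mul_assoc, mul_inv_rev, inv_inv, mul_inv_cancel_left, inv_mul_cancel_left, mul_inv_cancel, inv_mul_cancel, mul_one, one_mul, inv_one, C]) (by simp only [mul_assoc, mul_inv_rev, inv_inv, mul_inv_cancel_left, inv_mul_cancel_left, mul_inv_cancel, inv_mul_cancel, mul_one, one_mul, inv_one, C])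
  have k42 : o.lt (x) (f) ↔ o.lt (x * Q⁻¹) (f * Q⁻¹) := o.cv hδ (Q⁻¹) e12 (by simp only [mul_assoc, mul_inv_rev, inv_inv, mul_inv_cancel_left, inv_mul_cancel_left, mul_inv_cancel, inv_mul_cancel, mul_one, one_mul, inv_one, C]) (by simp only [mul_assoc, mul_inv_rev, inv_inv, mul_inv_cancel_left, inv_mul_cancel_left, mul_inv_cancel, inv_mul_cancel, mul_one, one_mul, inv_one, C])
  have k43 : o.lt (x * Q⁻¹) (g * Q⁻¹) ↔ o.lt (x * Q⁻¹) (g * Q⁻¹) := o.cv hδ (1) e34 (by simp only [mul_assoc, mul_inv_rev, inv_inv, mul_inv_cancel_left, inv_mul_cancel_left, mul_inv_cancel, inv_mul_cancel, mul_one, one_mul, inv_one, C]) (by simp only [mul_assoc, mul_inv_rev, inv_inv, mul_inv_cancel_left, inv_mul_cancel_left, mul_inv_cancel, inv_mul_cancel, mul_one, one_mul, inv_one, C])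
  have k44 : o.lt (g * Q⁻¹) (x * Q⁻¹) ↔ o.lt (g * Q⁻¹) (x * Q⁻¹) := o.cv hδ (1) e38 (by simp only [mul_assoc, mul_inv_rev, inv_inv, mul_inv_cancel_left, inv_mul_cancel_left, mul_inv_cancel, inv_mul_cancel, mul_one, one_mul, inv_one, C]) (by simp only [mul_assoc, mul_inv_rev, inv_inv, mul_inv_cancel_left, inv_mul_cancel_left, mul_inv_cancel, inv_mul_cancel, mul_one, one_mul, inv_one, C])
  have k45 : o.lt (g * Q⁻¹) (P * x⁻¹) ↔ o.lt (g * Q⁻¹) (P * x⁻¹) := o.cv hδ (1) e37 (by simp only [mul_assoc, mul_inv_rev, inv_inv, mul_inv_cancel_left, inv_mul_cancel_left, mul_inv_cancel, inv_mul_cancel, mul_one, one_mul, inv_one, C]) (by simp only [mul_assoc, mul_inv_rev, inv_inv, mul_inv_cancel_left, inv_mul_cancel_left, mul_inv_cancel, inv_mul_cancel, mul_one, one_mul, inv_one, C])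
  have k46 : o.lt (f * x⁻¹) (1) ↔ o.lt (f * Q⁻¹) (x * Q⁻¹) := o.cv hδ (x * Q⁻¹) e19 (by simp only [mul_assoc, mul_inv_rev, inv_inv, mul_inv_cancel_left, inv_mul_cancel_left, mul_inv_cancel, inv_mul_cancel, mul_one, one_mul, inv_one, C]) (by simp only [mul_assoc, mul_inv_rev, inv_inv, mul_inv_cancel_left, inv_mul_cancel_left, mul_inv_cancel, inv_mul_cancel, mul_one, one_mul, inv_one, C])
  have k47 : o.lt (g * Q⁻¹) (P * g⁻¹) ↔ o.lt (g * Q⁻¹) (P * g⁻¹) := o.cv hδ (1) e39 (by simp only [mul_assoc, mul_inv_rev, inv_inv, mul_inv_cancel_left, inv_mul_cancel_left, mul_inv_cancel, inv_mul_cancel, mul_one, one_mul, inv_one, C]) (by simp only [mul_assoc, mul_inv_rev, inv_inv, mul_inv_cancel_left, inv_mul_cancel_left, mul_inv_cancel, inv_mul_cancel, mul_one, one_mul, inv_one, C])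
  have k48 : o.lt (Q * x⁻¹) (x * P⁻¹) ↔ o.lt (Q * P⁻¹) (P * x⁻¹) := o.cv hδ (x * P⁻¹) e40 (by simp only [mul_assoc, mul_inv_rev, inv_inv, mul_inv_cancel_left, inv_mul_cancel_left, mul_inv_cancel, inv_mul_cancel, mul_one, one_mul, inv_one, C]) (by simp only [mul_assoc, mul_inv_rev, inv_inv, mul_inv_cancel_left, inv_mul_cancel_left, mul_inv_cancel, inv_mul_cancel, mul_one, one_mul, inv_one, C])
  have k49 : o.lt (x * P⁻¹) (g * P⁻¹) ↔ o.lt (x * P⁻¹) (g * P⁻¹) := o.cv hδ (1) e41 (by simp only [mul_assoc, mul_inv_rev, inv_inv, mul_inv_cancel_left, inv_mul_cancel_left, mul_inv_cancel, inv_mul_cancel, mul_one, one_mul, inv_one, C]) (by simp only [mul_assoc, mul_inv_rev, inv_inv, mul_inv_cancel_left, inv_mul_cancel_left, mul_inv_cancel, inv_mul_cancel, mul_one, one_mul, inv_one, C])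
  have k50 : o.lt (g * P⁻¹) (x * P⁻¹) ↔ o.lt (g * P⁻¹) (x * P⁻¹) := o.cv hδ (1) e43 (by simp only [mul_assoc, mul_inv_rev, inv_inv, mul_inv_cancel_left, inv_mul_cancel_left, mul_inv_cancel, inv_mul_cancel, mul_one, one_mul, inv_one, C]) (by simp only [mul_assoc, mul_inv_rev, inv_inv, mul_inv_cancel_left, inv_mul_cancel_left, mul_inv_cancel, inv_mul_cancel, mul_one, one_mul, inv_one, C])
  have k51 : o.lt (f * Q⁻¹) (P * f⁻¹) ↔ o.lt (Q * f⁻¹) (P * Q⁻¹) := o.cv hδ (Q * (f⁻¹ * (Q * f⁻¹))) e1 (by simp only [mul_assoc, mul_inv_rev, inv_inv, mul_inv_cancel_left, inv_mul_cancel_left, mul_inv_cancel, inv_mul_cancel, mul_one, one_mul, inv_one, C]) (by simp only [mul_assoc, mul_inv_rev, inv_inv, mul_inv_cancel_left, inv_mul_cancel_left, mul_inv_cancel, inv_mul_cancel, mul_one, one_mul, inv_one, C])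
  have k52 : o.lt (Q * f⁻¹) (Q * g⁻¹) ↔ o.lt (Q * f⁻¹) (Q * g⁻¹) := o.cv hδ (1) e30 (by simp only [mul_assoc, mul_inv_rev, inv_inv, mul_inv_cancel_left, inv_mul_cancel_left, mul_inv_cancel, inv_mul_cancel, mul_one, one_mul, inv_one, C]) (by simp only [mul_assoc, mul_inv_rev, inv_inv, mul_inv_cancel_left, inv_mul_cancel_left, mul_inv_cancel, inv_mul_cancel, mul_one, one_mul, inv_one, C])
  have k53 : o.lt (g * Q⁻¹) (P * g⁻¹) ↔ o.lt (Q * g⁻¹) (P * Q⁻¹) := o.cv hδ (Q * (g⁻¹ * (Q * g⁻¹))) e39 (by simp only [mul_assoc, mul_inv_rev, inv_inv, mul_inv_cancel_left, inv_mul_cancel_left, mul_inv_cancel, inv_mul_cancel, mul_one, one_mul, inv_one, C]) (by simp only [mul_assoc, mul_inv_rev, inv_inv, mul_inv_cancel_left, inv_mul_cancel_left, mul_inv_cancel, inv_mul_cancel, mul_one, one_mul, inv_one, C])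
  have k54 : o.lt (g * P⁻¹) (Q * g⁻¹) ↔ o.lt (g * P⁻¹) (Q * g⁻¹) := o.cv hδ (1) e36 (by simp only [mul_assoc, mul_inv_rev, inv_inv, mul_inv_cancel_left, inv_mul_cancel_left, mul_inv_cancel, inv_mul_cancel, mul_one, one_mul, inv_one, C]) (by simp only [mul_assoc, mul_inv_rev, inv_inv, mul_inv_cancel_left, inv_mul_cancel_left, mul_inv_cancel, inv_mul_cancel, mul_one, one_mul, inv_one, C])
  have k55 : o.lt (x * P⁻¹) (Q * g⁻¹) ↔ o.lt (x * P⁻¹) (Q * g⁻¹) := o.cv hδ (1) e42 (by simp only [mul_assoc, mul_inv_rev, inv_inv, mul_inv_cancel_left, inv_mul_cancel_left, mul_inv_cancel, inv_mul_cancel, mul_one, one_mul, inv_one, C]) (by simp only [mul_assoc, mul_inv_rev, inv_inv, mul_inv_cancel_left, inv_mul_cancel_left, mul_inv_cancel, inv_mul_cancel, mul_one, one_mul, inv_one, C])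
  have k56 : o.lt (Q * g⁻¹) (Q * x⁻¹) ↔ o.lt (Q * g⁻¹) (Q * x⁻¹) := o.cv hδ (1) e44 (by simp only [mul_assoc, mul_inv_rev, inv_inv, mul_inv_cancel_left, inv_mul_cancel_left, mul_inv_cancel, inv_mul_cancel, mul_one, one_mul, inv_one, C]) (by simp only [mul_assoc, mul_inv_rev, inv_inv, mul_inv_cancel_left, inv_mul_cancel_left, mul_inv_cancel, inv_mul_cancel, mul_one, one_mul, inv_one, C])
  have k57 : o.lt (P * x⁻¹) (x * Q⁻¹) ↔ o.lt (P * Q⁻¹) (Q * x⁻¹) := o.cv hδ (x * Q⁻¹) e32 (by simp only [mul_assoc, mul_inv_rev, inv_inv, mul_inv_cancel_left, inv_mul_cancel_left, mul_inv_cancel, inv_mul_cancel, mul_one, one_mul, inv_one, C]) (by simp only [mul_assoc, mul_inv_rev, inv_inv, mul_inv_cancel_left, inv_mul_cancel_left, mul_inv_cancel, inv_mul_cancel, mul_one, one_mul, inv_one, C])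
  have k58 : o.lt (P * g⁻¹) (g * Q⁻¹) ↔ o.lt (P * Q⁻¹) (Q * g⁻¹) := o.cv hδ (g * Q⁻¹) e35 (by simp only [mul_assoc, mul_inv_rev, inv_inv, mul_inv_cancel_left, inv_mul_cancel_left, mul_inv_cancel, inv_mul_cancel, mul_one, one_mul, inv_one, C]) (by simp only [mul_assoc, mul_inv_rev, inv_inv, mul_inv_cancel_left, inv_mul_cancel_left, mul_inv_cancel, inv_mul_cancel, mul_one, one_mul, inv_one, C])
  have k59 : o.lt (P * Q⁻¹) (Q * f⁻¹) ↔ o.lt (P * Q⁻¹) (Q * f⁻¹) := o.cv hδ (1) e11 (by simp only [mul_assoc, mul_inv_rev, inv_inv, mul_inv_cancel_left, inv_mul_cancel_left, mul_inv_cancel, inv_mul_cancel, mul_one, one_mul, inv_one, C]) (by simp only [mul_assoc, mul_inv_rev, inv_inv, mul_inv_cancel_left, inv_mul_cancel_left, mul_inv_cancel, inv_mul_cancel, mul_one, one_mul, inv_one, C])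
  have k60 : o.lt (f * (Q⁻¹ * f)) (f * (Q⁻¹ * x)) ↔ o.lt (Q * f⁻¹) (f * (Q⁻¹ * (x * Q⁻¹))) := o.cv hδ (f⁻¹ * (Q * (f⁻¹ * (Q * f⁻¹)))) e0 (by simp only [mul_assoc, mul_inv_rev, inv_inv, mul_inv_cancel_left, inv_mul_cancel_left, mul_inv_cancel, inv_mul_cancel, mul_one, one_mul, inv_one, C]) (by simp only [mul_assoc, mul_inv_rev, inv_inv, mul_inv_cancel_left, inv_mul_cancel_left, mul_inv_cancel, inv_mul_cancel, mul_one, one_mul, inv_one, C])
  have k61 : o.lt (f * (Q⁻¹ * (x * Q⁻¹))) (Q * f⁻¹) ↔ o.lt (f * (Q⁻¹ * (x * Q⁻¹))) (Q * f⁻¹) := o.cv hδ (1) e4 (by simp only [mul_assoc, mul_inv_rev, inv_inv, mul_inv_cancel_left, inv_mul_cancel_left, mul_inv_cancel, inv_mul_cancel, mul_one, one_mul, inv_one, C]) (by simp only [mul_assoc, mul_inv_rev, inv_inv, mul_inv_cancel_left, inv_mul_cancel_left, mul_inv_cancel, inv_mul_cancel, mul_one, one_mul, inv_one, C])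
  have k62 : o.lt (Q * f⁻¹) (Q * x⁻¹) ↔ o.lt (Q * f⁻¹) (Q * x⁻¹) := o.cv hδ (1) e29 (by simp only [mul_assoc, mul_inv_rev, inv_inv, mul_inv_cancel_left, inv_mul_cancel_left, mul_inv_cancel, inv_mul_cancel, mul_one, one_mul, inv_one, C]) (by simp only [mul_assoc, mul_inv_rev, inv_inv, mul_inv_cancel_left, inv_mul_cancel_left, mul_inv_cancel, inv_mul_cancel, mul_one, one_mul, inv_one, C])
  have k63 : o.lt (x) (f) ↔ o.lt (Q * x⁻¹) (f * (Q⁻¹ * (x * Q⁻¹))) := o.cv hδ (x⁻¹ * (Q * x⁻¹)) e12 (by simp only [mul_assoc, mul_inv_rev, inv_inv, mul_inv_cancel_left, inv_mul_cancel_left, mul_inv_cancel, inv_mul_cancel, mul_one, one_mul, inv_one, C]) (by simp only [mul_assoc, mul_inv_rev, inv_inv, mul_inv_cancel_left, inv_mul_cancel_left, mul_inv_cancel, inv_mul_cancel, mul_one, one_mul, inv_one, C])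
  have k64 : o.lt (Q * f⁻¹) (f * (Q⁻¹ * (g * Q⁻¹))) ↔ o.lt (Q * f⁻¹) (f * (Q⁻¹ * (g * Q⁻¹))) := o.cv hδ (1) e2 (by simp only [mul_assoc, mul_inv_rev, inv_inv, mul_inv_cancel_left, inv_mul_cancel_left, mul_inv_cancel, inv_mul_cancel, mul_one, one_mul, inv_one, C]) (by simp only [mul_assoc, mul_inv_rev, inv_inv, mul_inv_cancel_left, inv_mul_cancel_left, mul_inv_cancel, inv_mul_cancel, mul_one, one_mul, inv_one, C])
  have k65 : o.lt (g * Q⁻¹) (f * Q⁻¹) ↔ o.lt (Q * g⁻¹) (f * (Q⁻¹ * (g * Q⁻¹))) := o.cv hδ (Q * (g⁻¹ * (Q * g⁻¹))) e13 (by simp only [mul_assoc, mul_inv_rev, inv_inv, mul_inv_cancel_left, inv_mul_cancel_left, mul_inv_cancel, inv_mul_cancel, mul_one, one_mul, inv_one, C]) (by simp only [mul_assoc, mul_inv_rev, inv_inv, mul_inv_cancel_left, inv_mul_cancel_left, mul_inv_cancel, inv_mul_cancel, mul_one, one_mul, inv_one, C])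
  have k66 : o.lt (f * (Q⁻¹ * (P * x⁻¹))) (Q * f⁻¹) ↔ o.lt (f * (Q⁻¹ * (P * x⁻¹))) (Q * f⁻¹) := o.cv hδ (1) e8 (by simp only [mul_assoc, mul_inv_rev, inv_inv, mul_inv_cancel_left, inv_mul_cancel_left, mul_inv_cancel, inv_mul_cancel, mul_one, one_mul, inv_one, C]) (by simp only [mul_assoc, mul_inv_rev, inv_inv, mul_inv_cancel_left, inv_mul_cancel_left, mul_inv_cancel, inv_mul_cancel, mul_one, one_mul, inv_one, C])
  have k67 : o.lt (f * (Q⁻¹ * (P * x⁻¹))) (f * (Q⁻¹ * (P * f⁻¹))) ↔ o.lt (f * (Q⁻¹ * (P * x⁻¹))) (f * (Q⁻¹ * (P * f⁻¹))) := o.cv hδ (1) e7 (by simp only [mul_assoc, mul_inv_rev, inv_inv, mul_inv_cancel_left, inv_mul_cancel_left, mul_inv_cancel, inv_mul_cancel, mul_one, one_mul, inv_one, C]) (by simp only [mul_assoc, mul_inv_rev, inv_inv, mul_inv_cancel_left, inv_mul_cancel_left, mul_inv_cancel, inv_mul_cancel, mul_one, one_mul, inv_one, C])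
  have k68 : o.lt (f * (Q⁻¹ * (P * f⁻¹))) (Q * f⁻¹) ↔ o.lt (f * (Q⁻¹ * (P * f⁻¹))) (Q * f⁻¹) := o.cv hδ (1) e3 (by simp only [mul_assoc, mul_inv_rev, inv_inv, mul_inv_cancel_left, inv_mul_cancel_left, mul_inv_cancel, inv_mul_cancel, mul_one, one_mul, inv_one, C]) (by simp only [mul_assoc, mul_inv_rev, inv_inv, mul_inv_cancel_left, inv_mul_cancel_left, mul_inv_cancel, inv_mul_cancel, mul_one, one_mul, inv_one, C])
  have k69 : o.lt (f * (Q⁻¹ * (P * x⁻¹))) (f * (Q⁻¹ * (x * Q⁻¹))) ↔ o.lt (f * (Q⁻¹ * (P * x⁻¹))) (f * (Q⁻¹ * (x * Q⁻¹))) := o.cv hδ (1) e9 (by simp only [mul_assoc, mul_inv_rev, inv_inv, mul_inv_cancel_left, inv_mul_cancel_left, mul_inv_cancel, inv_mul_cancel, mul_one, one_mul, inv_one, C]) (by simp only [mul_assoc, mul_inv_rev, inv_inv, mul_inv_cancel_left, inv_mul_cancel_left, mul_inv_cancel, inv_mul_cancel, mul_one, one_mul, inv_one, C])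
  have k70 : o.lt (f * (Q⁻¹ * (P * x⁻¹))) (f * (Q⁻¹ * (g * Q⁻¹))) ↔ o.lt (f * (Q⁻¹ * (P * x⁻¹))) (f * (Q⁻¹ * (g * Q⁻¹))) := o.cv hδ (1) e10 (by simp only [mul_assoc, mul_inv_rev, inv_inv, mul_inv_cancel_left, inv_mul_cancel_left, mul_inv_cancel, inv_mul_cancel, mul_one, one_mul, inv_one, C]) (by simp only [mul_assoc, mul_inv_rev, inv_inv, mul_inv_cancel_left, inv_mul_cancel_left, mul_inv_cancel, inv_mul_cancel, mul_one, one_mul, inv_one, C])
  have k71 : o.lt (f * (Q⁻¹ * (g * Q⁻¹))) (f * (Q⁻¹ * (x * Q⁻¹))) ↔ o.lt (f * (Q⁻¹ * (g * Q⁻¹))) (f * (Q⁻¹ * (x * Q⁻¹))) := o.cv hδ (1) e27 (by simp only [mul_assoc, mul_inv_rev, inv_inv, mul_inv_cancel_left, inv_mul_cancel_left, mul_inv_cancel, inv_mul_cancel, mul_one, one_mul, inv_one, C]) (by simp only [mul_assoc, mul_inv_rev, inv_inv, mul_inv_cancel_left, inv_mul_cancel_left, mul_inv_cancel, inv_mul_cancel, mul_one, one_mul, inv_one, C])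
  have k72 : o.lt (f * (Q⁻¹ * (g * Q⁻¹))) (f * (Q⁻¹ * (P * x⁻¹))) ↔ o.lt (f * (Q⁻¹ * (g * Q⁻¹))) (f * (Q⁻¹ * (P * x⁻¹))) := o.cv hδ (1) e26 (by simp only [mul_assoc, mul_inv_rev, inv_inv, mul_inv_cancel_left, inv_mul_cancel_left, mul_inv_cancel, inv_mul_cancel, mul_one, one_mul, inv_one, C]) (by simp only [mul_assoc, mul_inv_rev, inv_inv, mul_inv_cancel_left, inv_mul_cancel_left, mul_inv_cancel, inv_mul_cancel, mul_one, one_mul, inv_one, C])
  have k73 : o.lt (f * (Q⁻¹ * (x * P⁻¹))) (f * x⁻¹) ↔ o.lt (f * (Q⁻¹ * (P * x⁻¹))) (f * P⁻¹) := o.cv hδ (P * (x⁻¹ * (P * x⁻¹))) e6 (by simp only [mul_assoc, mul_inv_rev, inv_inv, mul_inv_cancel_left, inv_mul_cancel_left, mul_inv_cancel, inv_mul_cancel, mul_one, one_mul, inv_one, C]) (by simp only [mul_assoc, mul_inv_rev, inv_inv, mul_inv_cancel_left, inv_mul_cancel_left, mul_inv_cancel, inv_mul_cancel, mul_one, one_mul, inv_one, C])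
  have k74 : o.lt (f * Q⁻¹) (P * f⁻¹) ↔ o.lt (f * (Q⁻¹ * (P * f⁻¹))) (f * P⁻¹) := o.cv hδ (P * f⁻¹) e1 (by simp only [mul_assoc, mul_inv_rev, inv_inv, mul_inv_cancel_left, inv_mul_cancel_left, mul_inv_cancel, inv_mul_cancel, mul_one, one_mul, inv_one, C]) (by simp only [mul_assoc, mul_inv_rev, inv_inv, mul_inv_cancel_left, inv_mul_cancel_left, mul_inv_cancel, inv_mul_cancel, mul_one, one_mul, inv_one, C])
  have k75 : o.lt (Q * f⁻¹) (f * (Q⁻¹ * (P * x⁻¹))) ↔ o.lt (Q * f⁻¹) (f * (Q⁻¹ * (P * x⁻¹))) := o.cv hδ (1) e17 (by simp only [mul_assoc, mul_inv_rev, inv_inv, mul_inv_cancel_left, inv_mul_cancel_left, mul_inv_cancel, inv_mul_cancel, mul_one, one_mul, inv_one, C]) (by simp only [mul_assoc, mul_inv_rev, inv_inv, mul_inv_cancel_left, inv_mul_cancel_left, mul_inv_cancel, inv_mul_cancel, mul_one, one_mul, inv_one, C])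
  have k76 : o.lt (f * (Q⁻¹ * (x * Q⁻¹))) (f * (Q⁻¹ * (g * Q⁻¹))) ↔ o.lt (f * (Q⁻¹ * (x * Q⁻¹))) (f * (Q⁻¹ * (g * Q⁻¹))) := o.cv hδ (1) e20 (by simp only [mul_assoc, mul_inv_rev, inv_inv, mul_inv_cancel_left, inv_mul_cancel_left, mul_inv_cancel, inv_mul_cancel, mul_one, one_mul, inv_one, C]) (by simp only [mul_assoc, mul_inv_rev, inv_inv, mul_inv_cancel_left, inv_mul_cancel_left, mul_inv_cancel, inv_mul_cancel, mul_one, one_mul, inv_one, C])
  have k77 : o.lt (f * (Q⁻¹ * (P * g⁻¹))) (f * (Q⁻¹ * (P * x⁻¹))) ↔ o.lt (f * (Q⁻¹ * (P * g⁻¹))) (f * (Q⁻¹ * (P * x⁻¹))) := o.cv hδ (1) e23 (by simp only [mul_assoc, mul_inv_rev, inv_inv, mul_inv_cancel_left, inv_mul_cancel_left, mul_inv_cancel, inv_mul_cancel, mul_one, one_mul, inv_one, C]) (by simp only [mul_assoc, mul_inv_rev, inv_inv, mul_inv_cancel_left, inv_mul_cancel_left, mul_inv_cancel, inv_mul_cancel, mul_one, one_mul, inv_one, C])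
  have k78 : o.lt (f * (Q⁻¹ * (P * g⁻¹))) (f * (Q⁻¹ * (g * Q⁻¹))) ↔ o.lt (f * (Q⁻¹ * (P * g⁻¹))) (f * (Q⁻¹ * (g * Q⁻¹))) := o.cv hδ (1) e24 (by simp only [mul_assoc, mul_inv_rev, inv_inv, mul_inv_cancel_left, inv_mul_cancel_left, mul_inv_cancel, inv_mul_cancel, mul_one, one_mul, inv_one, C]) (by simp only [mul_assoc, mul_inv_rev, inv_inv, mul_inv_cancel_left, inv_mul_cancel_left, mul_inv_cancel, inv_mul_cancel, mul_one, one_mul, inv_one, C])
  have k79 : o.lt (f * (Q⁻¹ * (g * P⁻¹))) (f * g⁻¹) ↔ o.lt (f * (Q⁻¹ * (P * g⁻¹))) (f * P⁻¹) := o.cv hδ (P * (g⁻¹ * (P * g⁻¹))) e22 (by simp only [mul_assoc, mul_inv_rev, inv_inv, mul_inv_cancel_left, inv_mul_cancel_left, mul_inv_cancel, inv_mul_cancel, mul_one, one_mul, inv_one, C]) (by simp only [mul_assoc, mul_inv_rev, inv_inv, mul_inv_cancel_left, inv_mul_cancel_left, mul_inv_cancel, inv_mul_cancel, mul_one, one_mul, inv_one, C])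
  have k80 : o.lt (f * P⁻¹) (f * (Q⁻¹ * (P * x⁻¹))) ↔ o.lt (f * P⁻¹) (f * (Q⁻¹ * (P * x⁻¹))) := o.cv hδ (1) e14 (by simp only [mul_assoc, mul_inv_rev, inv_inv, mul_inv_cancel_left, inv_mul_cancel_left, mul_inv_cancel, inv_mul_cancel, mul_one, one_mul, inv_one, C]) (by simp only [mul_assoc, mul_inv_rev, inv_inv, mul_inv_cancel_left, inv_mul_cancel_left, mul_inv_cancel, inv_mul_cancel, mul_one, one_mul, inv_one, C])
  have k81 : o.lt (P * Q⁻¹) (Q * f⁻¹) ↔ o.lt (f * P⁻¹) (f * (Q⁻¹ * (P * f⁻¹))) := o.cv hδ (Q * (P⁻¹ * (f * P⁻¹))) e11 (by simp only [mul_assoc, mul_inv_rev, inv_inv, mul_inv_cancel_left, inv_mul_cancel_left, mul_inv_cancel, inv_mul_cancel, mul_one, one_mul, inv_one, C]) (by simp only [mul_assoc, mul_inv_rev, inv_inv, mul_inv_cancel_left, inv_mul_cancel_left, mul_inv_cancel, inv_mul_cancel, mul_one, one_mul, inv_one, C])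
  have k82 : o.lt (P * f⁻¹) (Q * P⁻¹) ↔ o.lt (f * P⁻¹) (Q * f⁻¹) := o.cv hδ (f * (P⁻¹ * (f * P⁻¹))) e15 (by simp only [mul_assoc, mul_inv_rev, inv_inv, mul_inv_cancel_left, inv_mul_cancel_left, mul_inv_cancel, inv_mul_cancel, mul_one, one_mul, inv_one, C]) (by simp only [mul_assoc, mul_inv_rev, inv_inv, mul_inv_cancel_left, inv_mul_cancel_left, mul_inv_cancel, inv_mul_cancel, mul_one, one_mul, inv_one, C])
  have k83 : o.lt (f * (Q⁻¹ * (x * P⁻¹))) (f * x⁻¹) ↔ o.lt (f * (Q⁻¹ * (x * P⁻¹))) (f * x⁻¹) := o.cv hδ (1) e6 (by simp only [mul_assoc, mul_inv_rev, inv_inv, mul_inv_cancel_left, inv_mul_cancel_left, mul_inv_cancel, inv_mul_cancel, mul_one, one_mul, inv_one, C]) (by simp only [mul_assoc, mul_inv_rev, inv_inv, mul_inv_cancel_left, inv_mul_cancel_left, mul_inv_cancel, inv_mul_cancel, mul_one, one_mul, inv_one, C])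
  have k84 : o.lt (f * Q⁻¹) (P * x⁻¹) ↔ o.lt (f * (Q⁻¹ * (x * P⁻¹))) (1) := o.cv hδ (x * P⁻¹) e5 (by simp only [mul_assoc, mul_inv_rev, inv_inv, mul_inv_cancel_left, inv_mul_cancel_left, mul_inv_cancel, inv_mul_cancel, mul_one, one_mul, inv_one, C]) (by simp only [mul_assoc, mul_inv_rev, inv_inv, mul_inv_cancel_left, inv_mul_cancel_left, mul_inv_cancel, inv_mul_cancel, mul_one, one_mul, inv_one, C])
  have k85 : o.lt (x) (f) ↔ o.lt (1) (f * x⁻¹) := o.cv hδ (x⁻¹) e12 (by simp only [mul_assoc, mul_inv_rev, inv_inv, mul_inv_cancel_left, inv_mul_cancel_left, mul_inv_cancel, inv_mul_cancel, mul_one, one_mul, inv_one, C]) (by simp only [mul_assoc, mul_inv_rev, inv_inv, mul_inv_cancel_left, inv_mul_cancel_left, mul_inv_cancel, inv_mul_cancel, mul_one, one_mul, inv_one, C])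
  have k86 : o.lt (f * P⁻¹) (f * (Q⁻¹ * (P * x⁻¹))) ↔ o.lt (f * x⁻¹) (f * (Q⁻¹ * (x * P⁻¹))) := o.cv hδ (P * x⁻¹) e14 (by simp only [mul_assoc, mul_inv_rev, inv_inv, mul_inv_cancel_left, inv_mul_cancel_left, mul_inv_cancel, inv_mul_cancel, mul_one, one_mul, inv_one, C]) (by simp only [mul_assoc, mul_inv_rev, inv_inv, mul_inv_cancel_left, inv_mul_cancel_left, mul_inv_cancel, inv_mul_cancel, mul_one, one_mul, inv_one, C])
  have k87 : o.lt (f * x⁻¹) (f * (Q⁻¹ * (f * P⁻¹))) ↔ o.lt (f * x⁻¹) (f * (Q⁻¹ * (f * P⁻¹))) := o.cv hδ (1) e18 (by simp only [mul_assoc, mul_inv_rev, inv_inv, mul_inv_cancel_left, inv_mul_cancel_left, mul_inv_cancel, inv_mul_cancel, mul_one, one_mul, inv_one, C]) (by simp only [mul_assoc, mul_inv_rev, inv_inv, mul_inv_cancel_left, inv_mul_cancel_left, mul_inv_cancel, inv_mul_cancel, mul_one, one_mul, inv_one, C])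
  have k88 : o.lt (f * (Q⁻¹ * f)) (f * (Q⁻¹ * x)) ↔ o.lt (f * (Q⁻¹ * (f * P⁻¹))) (f * (Q⁻¹ * (x * P⁻¹))) := o.cv hδ (P⁻¹) e0 (by simp only [mul_assoc, mul_inv_rev, inv_inv, mul_inv_cancel_left, inv_mul_cancel_left, mul_inv_cancel, inv_mul_cancel, mul_one, one_mul, inv_one, C]) (by simp only [mul_assoc, mul_inv_rev, inv_inv, mul_inv_cancel_left, inv_mul_cancel_left, mul_inv_cancel, inv_mul_cancel, mul_one, one_mul, inv_one, C])
  have k89 : o.lt (f * (Q⁻¹ * (g * P⁻¹))) (f * g⁻¹) ↔ o.lt (f * (Q⁻¹ * (g * P⁻¹))) (f * g⁻¹) := o.cv hδ (1) e22 (by simp only [mul_assoc, mul_inv_rev, inv_inv, mul_inv_cancel_left, inv_mul_cancel_left, mul_inv_cancel, inv_mul_cancel, mul_one, one_mul, inv_one, C]) (by simp only [mul_assoc, mul_inv_rev, inv_inv, mul_inv_cancel_left, inv_mul_cancel_left, mul_inv_cancel, inv_mul_cancel, mul_one, one_mul, inv_one, C])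
  have k90 : o.lt (f * Q⁻¹) (P * g⁻¹) ↔ o.lt (f * (Q⁻¹ * (g * P⁻¹))) (1) := o.cv hδ (g * P⁻¹) e21 (by simp only [mul_assoc, mul_inv_rev, inv_inv, mul_inv_cancel_left, inv_mul_cancel_left, mul_inv_cancel, inv_mul_cancel, mul_one, one_mul, inv_one, C]) (by simp only [mul_assoc, mul_inv_rev, inv_inv, mul_inv_cancel_left, inv_mul_cancel_left, mul_inv_cancel, inv_mul_cancel, mul_one, one_mul, inv_one, C])
  have k91 : o.lt (g * Q⁻¹) (f * Q⁻¹) ↔ o.lt (1) (f * g⁻¹) := o.cv hδ (Q * g⁻¹) e13 (by simp only [mul_assoc, mul_inv_rev, inv_inv, mul_inv_cancel_left, inv_mul_cancel_left, mul_inv_cancel, inv_mul_cancel, mul_one, one_mul, inv_one, C]) (by simp only [mul_assoc, mul_inv_rev, inv_inv, mul_inv_cancel_left, inv_mul_cancel_left, mul_inv_cancel, inv_mul_cancel, mul_one, one_mul, inv_one, C])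
  have k92 : o.lt (f * Q⁻¹) (g * Q⁻¹) ↔ o.lt (f * g⁻¹) (1) := o.cv hδ (Q * g⁻¹) e25 (by simp only [mul_assoc, mul_inv_rev, inv_inv, mul_inv_cancel_left, inv_mul_cancel_left, mul_inv_cancel, inv_mul_cancel, mul_one, one_mul, inv_one, C]) (by simp only [mul_assoc, mul_inv_rev, inv_inv, mul_inv_cancel_left, inv_mul_cancel_left, mul_inv_cancel, inv_mul_cancel, mul_one, one_mul, inv_one, C])
  have k93 : o.lt (f * g⁻¹) (f * (Q⁻¹ * (g * P⁻¹))) ↔ o.lt (f * g⁻¹) (f * (Q⁻¹ * (g * P⁻¹))) := o.cv hδ (1) e16 (by simp only [mul_assoc, mul_inv_rev, inv_inv, mul_inv_cancel_left, inv_mul_cancel_left, mul_inv_cancel, inv_mul_cancel, mul_one, one_mul, inv_one, C]) (by simp only [mul_assoc, mul_inv_rev, inv_inv, mul_inv_cancel_left, inv_mul_cancel_left, mul_inv_cancel, inv_mul_cancel, mul_one, one_mul, inv_one, C])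
  have k94 : o.lt (f * (Q⁻¹ * (P * g⁻¹))) (f * (Q⁻¹ * (g * Q⁻¹))) ↔ o.lt (f * (Q⁻¹ * (P * Q⁻¹))) (f * g⁻¹) := o.cv hδ (g * Q⁻¹) e24 (by simp only [mul_assoc, mul_inv_rev, inv_inv, mul_inv_cancel_left, inv_mul_cancel_left, mul_inv_cancel, inv_mul_cancel, mul_one, one_mul, inv_one, C]) (by simp only [mul_assoc, mul_inv_rev, inv_inv, mul_inv_cancel_left, inv_mul_cancel_left, mul_inv_cancel, inv_mul_cancel, mul_one, one_mul, inv_one, C])
  have k95 : o.lt (f * (Q⁻¹ * (P * f⁻¹))) (Q * f⁻¹) ↔ o.lt (f * (Q⁻¹ * (P * Q⁻¹))) (1) := o.cv hδ (f * Q⁻¹) e3 (by simp only [mul_assoc, mul_inv_rev, inv_inv, mul_inv_cancel_left, inv_mul_cancel_left, mul_inv_cancel, inv_mul_cancel, mul_one, one_mul, inv_one, C]) (by simp only [mul_assoc, mul_inv_rev, inv_inv, mul_inv_cancel_left, inv_mul_cancel_left, mul_inv_cancel, inv_mul_cancel, mul_one, one_mul, inv_one, C])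
  have k96 : o.lt (Q * f⁻¹) (Q * g⁻¹) ↔ o.lt ((f * Q⁻¹)⁻¹) ((g * Q⁻¹)⁻¹) := o.cv hδ (1) e30 (by simp only [mul_assoc, mul_inv_rev, inv_inv, mul_inv_cancel_left, inv_mul_cancel_left, mul_inv_cancel, inv_mul_cancel, mul_one, one_mul, inv_one, C]) (by simp only [mul_assoc, mul_inv_rev, inv_inv, mul_inv_cancel_left, inv_mul_cancel_left, mul_inv_cancel, inv_mul_cancel, mul_one, one_mul, inv_one, C])
  exact par_BAC_0_prop
    (fun b0 b1 b2 b3 => N0.i.r0 1 (fun h => b0 (k0.2 h)) (fun h => b1 (k1.2 h)) (k2.1 b2) (fun h => b3 (k3.2 h)))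
    (fun b0 b1 b2 b3 => N0.rd.r0 1 (fun h => b0 (k4.2 h)) (fun h => b1 (k5.2 h)) (k6.1 b2) (fun h => b3 (k3.2 h)))
    (fun b0 b1 b2 => N1.r.r1 1 (fun h => b0 (k7.2 h)) (fun h => b1 (k8.2 h)) (k9.1 b2))
    (fun b0 b1 b2 => N1.rd.r0 1 (fun h => b0 (k10.2 h)) (k8.1 b1) (fun h => b2 (k11.2 h)))
    (fun b0 b1 b2 => N1.i.r1 1 (fun h => b0 (k12.2 h)) (fun h => b1 (k13.2 h)) (k14.1 b2))
    (fun b0 b1 b2 b3 => N0.d.r0 (f * Q⁻¹) (fun h => b0 (k15.2 h)) (fun h => b1 (k16.2 h)) (k17.1 b2) (fun h => b3 (k18.2 h)))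
    (fun b0 b1 b2 b3 => N0.r.r1 (f * Q⁻¹) (fun h => b0 (k19.2 h)) (k20.1 b1) (fun h => b2 (k21.2 h)) (fun h => b3 (k18.2 h)))
    (fun b0 b1 b2 b3 => N0.r.r0 (f * Q⁻¹) (fun h => b0 (k22.2 h)) (fun h => b1 (k23.2 h)) (k19.1 b2) (fun h => b3 (k18.2 h)))
    (fun b0 b1 b2 => N1.i.r0 (f * Q⁻¹) (fun h => b0 (k24.2 h)) (k25.1 b1) (fun h => b2 (k26.2 h)))
    (fun b0 b1 b2 => N1.d.r1 (f * Q⁻¹) (fun h => b0 (k27.2 h)) (fun h => b1 (k25.2 h)) (k28.1 b2))
    (fun b0 b1 => o.asym (k29.1 b0) (k30.1 b1))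
    (fun b0 b1 => o.asym (k31.1 b0) (k32.1 b1))
    (fun b0 b1 b2 => o.tri (k33.1 b0) (fun h => b1 (k34.2 h)) (fun h => b2 (k35.2 h)))
    (fun b0 b1 => o.asym (k36.1 b0) (k37.1 b1))
    (fun b0 b1 b2 => o.tri (k36.1 b0) (fun h => b1 (k38.2 h)) (fun h => b2 (k39.2 h)))
    (fun b0 b1 b2 => o.tri (k40.1 b0) (fun h => b1 (k38.2 h)) (fun h => b2 (k41.2 h)))
    (fun b0 b1 b2 => o.tri (k42.1 b0) (fun h => b1 (k43.2 h)) (fun h => b2 (k37.2 h)))
    (fun b0 b1 => o.asym (k43.1 b0) (k44.1 b1))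
    (fun b0 b1 b2 => o.tri (k45.1 b0) (fun h => b1 (k44.2 h)) (fun h => b2 (k32.2 h)))
    (fun b0 b1 b2 => o.tri (k44.1 b0) (fun h => b1 (k37.2 h)) (fun h => b2 (k46.2 h)))
    (fun b0 b1 b2 => o.tri (k47.1 b0) (fun h => b1 (k37.2 h)) (fun h => b2 (k38.2 h)))
    (fun b0 b1 b2 => o.tri (k48.1 b0) (fun h => b1 (k30.2 h)) (fun h => b2 (k35.2 h)))
    (fun b0 b1 => o.asym (k49.1 b0) (k50.1 b1))
    (fun b0 b1 b2 => o.tri (k51.1 b0) (fun h => b1 (k52.2 h)) (fun h => b2 (k53.2 h)))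
    (fun b0 b1 b2 => o.tri (k54.1 b0) (fun h => b1 (k50.2 h)) (fun h => b2 (k55.2 h)))
    (fun b0 b1 b2 => o.tri (k56.1 b0) (fun h => b1 (k53.2 h)) (fun h => b2 (k57.2 h)))
    (fun b0 b1 b2 => o.tri (k58.1 b0) (fun h => b1 (k59.2 h)) (fun h => b2 (k52.2 h)))
    (fun b0 b1 => o.asym (k60.1 b0) (k61.1 b1))
    (fun b0 b1 b2 => o.tri (k60.1 b0) (fun h => b1 (k62.2 h)) (fun h => b2 (k63.2 h)))
    (fun b0 b1 b2 => o.tri (k64.1 b0) (fun h => b1 (k52.2 h)) (fun h => b2 (k65.2 h)))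
    (fun b0 b1 b2 => o.tri (k66.1 b0) (fun h => b1 (k67.2 h)) (fun h => b2 (k68.2 h)))
    (fun b0 b1 b2 => o.tri (k69.1 b0) (fun h => b1 (k70.2 h)) (fun h => b2 (k71.2 h)))
    (fun b0 b1 => o.asym (k70.1 b0) (k72.1 b1))
    (fun b0 b1 b2 => o.tri (k73.1 b0) (fun h => b1 (k67.2 h)) (fun h => b2 (k74.2 h)))
    (fun b0 b1 b2 => o.tri (k75.1 b0) (fun h => b1 (k64.2 h)) (fun h => b2 (k72.2 h)))
    (fun b0 b1 => o.asym (k76.1 b0) (k71.1 b1))
    (fun b0 b1 b2 => o.tri (k76.1 b0) (fun h => b1 (k61.2 h)) (fun h => b2 (k64.2 h)))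
    (fun b0 b1 b2 => o.tri (k77.1 b0) (fun h => b1 (k78.2 h)) (fun h => b2 (k72.2 h)))
    (fun b0 b1 b2 => o.tri (k77.1 b0) (fun h => b1 (k79.2 h)) (fun h => b2 (k80.2 h)))
    (fun b0 b1 b2 => o.tri (k81.1 b0) (fun h => b1 (k80.2 h)) (fun h => b2 (k67.2 h)))
    (fun b0 b1 b2 => o.tri (k80.1 b0) (fun h => b1 (k82.2 h)) (fun h => b2 (k75.2 h)))
    (fun b0 b1 b2 => o.tri (k83.1 b0) (fun h => b1 (k84.2 h)) (fun h => b2 (k85.2 h)))
    (fun b0 b1 b2 => o.tri (k86.1 b0) (fun h => b1 (k87.2 h)) (fun h => b2 (k88.2 h)))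
    (fun b0 b1 b2 => o.tri (k89.1 b0) (fun h => b1 (k90.2 h)) (fun h => b2 (k91.2 h)))
    (fun b0 b1 b2 => o.tri (k92.1 b0) (fun h => b1 (k93.2 h)) (fun h => b2 (k90.2 h)))
    (fun b0 b1 b2 => o.tri (k94.1 b0) (fun h => b1 (k95.2 h)) (fun h => b2 (k91.2 h)))
    (k36.2 g0)
    (fun h => g1 (k38.1 h))
    (fun h => g2 (k96.1 h))

theorem par_BAC_1_prop {A1 A2 A3 A4 A5 A6 A7 A8 A9 A10 A11 A12 A13 A14 A15 A16 A17 A18 A19 A20 A21 A22 A23 A24 A25 A26 A27 A28 A29 A30 A31 A32 A33 A34 A35 A36 A37 A38 A39 A40 A41 A42 A43 A44 A45 A46 A47 : Prop}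
    (c0 : ¬ A14 → ¬ A7 → A5 → ¬ A19 → False)
    (c1 : ¬ A5 → A25 → ¬ A13 → ¬ A19 → False)
    (c2 : ¬ A9 → ¬ A38 → A39 → ¬ A19 → False)
    (c3 : ¬ A15 → ¬ A16 → A23 → False)
    (c4 : ¬ A44 → A16 → ¬ A7 → False)
    (c5 : ¬ A26 → ¬ A27 → A7 → False)
    (c6 : ¬ A45 → A27 → ¬ A23 → False)
    (c7 : ¬ A24 → A8 → ¬ A43 → False)
    (c8 : ¬ A2 → ¬ A12 → A11 → ¬ A1 → False)
    (c9 : ¬ A30 → ¬ A33 → A32 → ¬ A29 → False)
    (c10 : ¬ A35 → ¬ A37 → A33 → False)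
    (c11 : A18 → ¬ A25 → ¬ A19 → False)
    (c12 : A1 → ¬ A4 → ¬ A38 → False)
    (c13 : A23 → A7 → False)
    (c14 : A24 → ¬ A4 → ¬ A43 → False)
    (c15 : A4 → A9 → False)
    (c16 : A14 → ¬ A6 → ¬ A1 → False)
    (c17 : A6 → ¬ A36 → ¬ A8 → False)
    (c18 : A10 → ¬ A36 → ¬ A15 → False)
    (c19 : A34 → ¬ A36 → ¬ A17 → False)
    (c20 : A30 → ¬ A34 → ¬ A42 → False)
    (c21 : A19 → ¬ A26 → ¬ A20 → False)
    (c22 : A26 → A15 → False)
    (c23 : A26 → ¬ A19 → ¬ A36 → False)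
    (c24 : A28 → A17 → False)
    (c25 : A9 → ¬ A38 → ¬ A5 → False)
    (c26 : A27 → A16 → False)
    (c27 : A12 → ¬ A27 → ¬ A17 → False)
    (c28 : A38 → ¬ A40 → ¬ A20 → False)
    (c29 : A13 → ¬ A39 → ¬ A9 → False)
    (c30 : A14 → ¬ A39 → ¬ A7 → False)
    (c31 : A14 → ¬ A41 → ¬ A17 → False)
    (c32 : A44 → ¬ A9 → ¬ A27 → False)
    (c33 : A42 → ¬ A15 → ¬ A27 → False)
    (c34 : A45 → ¬ A17 → ¬ A23 → False)
    (c35 : A43 → ¬ A21 → ¬ A40 → False)
    (c36 : A23 → ¬ A18 → ¬ A39 → False)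
    (c37 : A28 → ¬ A23 → ¬ A44 → False)
    (c38 : A19 → ¬ A11 → ¬ A1 → False)
    (c39 : A41 → ¬ A36 → ¬ A47 → False)
    (c40 : A21 → ¬ A46 → ¬ A20 → False)
    (c41 : A46 → A47 → False)
    (c42 : A2 → A22 → False)
    (c43 : A3 → ¬ A22 → ¬ A4 → False)
    (c44 : A2 → ¬ A4 → ¬ A6 → False)
    (c45 : A31 → ¬ A32 → ¬ A14 → False)
    (c46 : A29 → ¬ A14 → ¬ A3 → False)
    (c47 : A6 → ¬ A31 → ¬ A10 → False)
    (c48 : A35 → ¬ A34 → ¬ A3 → False)
    (c49 : A37 → ¬ A36 → ¬ A3 → False)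
    (u0 : A28)
    (u1 : ¬ A36)
    (u2 : ¬ A40)
    (u3 : ¬ A20)
    : False := by
  have q1 : ¬ A17 := fun h => c24 u0 h
  have q2 : ¬ A34 := fun h => c19 h u1 q1
  have q3 : ¬ A38 := fun h => c28 h u2 u3
  rcases Classical.em A23 with q4 | q4
  · have q5 : ¬ A7 := fun h => c13 q4 h
    rcases Classical.em A19 with q6 | q6
    · have q7 : A26 := Classical.byContradiction fun h => c21 q6 h u3
      have q8 : ¬ A15 := fun h => c22 q7 h
      have q9 : A16 := Classical.byContradiction fun h => c3 q8 h q4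
      have q10 : A44 := Classical.byContradiction fun h => c4 h q9 q5
      have q11 : ¬ A10 := fun h => c18 h u1 q8
      have q12 : ¬ A27 := fun h => c26 h q9
      have q13 : ¬ A12 := fun h => c27 h q12 q1
      have q14 : A9 := Classical.byContradiction fun h => c32 q10 h q12
      have q15 : ¬ A4 := fun h => c15 h q14
      have q16 : ¬ A1 := fun h => c12 h q15 q3
      have q17 : A5 := Classical.byContradiction fun h => c25 q14 q3 h
      have q18 : ¬ A42 := fun h => c33 h q8 q12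
      have q19 : ¬ A30 := fun h => c20 h q2 q18
      have q20 : A11 := Classical.byContradiction fun h => c38 q6 h q16
      have q21 : A2 := Classical.byContradiction fun h => c8 h q13 q20 q16
      have q22 : ¬ A22 := fun h => c42 q21 h
      have q23 : ¬ A3 := fun h => c43 h q22 q15
      have q24 : A6 := Classical.byContradiction fun h => c44 q21 q15 h
      have q25 : A8 := Classical.byContradiction fun h => c17 q24 u1 h
      have q26 : A31 := Classical.byContradiction fun h => c47 q24 h q11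
      have q27 : ¬ A35 := fun h => c48 h q2 q23
      have q28 : ¬ A37 := fun h => c49 h u1 q23
      have q29 : ¬ A33 := fun h => c10 q27 q28 h
      rcases Classical.em A14 with q30 | q30
      · have q31 : A39 := Classical.byContradiction fun h => c30 q30 h q5
        have q32 : A41 := Classical.byContradiction fun h => c31 q30 h q1
        have q33 : A47 := Classical.byContradiction fun h => c39 q32 u1 h
        have q34 : ¬ A46 := fun h => c41 h q33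
        have q35 : ¬ A21 := fun h => c40 h q34 u3
        have q36 : ¬ A43 := fun h => c35 h q35 u2
        have q37 : A24 := Classical.byContradiction fun h => c7 h q25 q36
        exact c14 q37 q15 q36
      · have q38 : A32 := Classical.byContradiction fun h => c45 q26 h q30
        have q39 : A29 := Classical.byContradiction fun h => c9 q19 q29 q38 h
        exact c46 q39 q30 q23
    · have q40 : ¬ A26 := fun h => c23 h q6 u1
      rcases Classical.em A14 with q41 | q41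
      · have q42 : A39 := Classical.byContradiction fun h => c30 q41 h q5
        have q43 : A9 := Classical.byContradiction fun h => c2 h q3 q42 q6
        have q44 : ¬ A4 := fun h => c15 h q43
        have q45 : ¬ A1 := fun h => c12 h q44 q3
        have q46 : A6 := Classical.byContradiction fun h => c16 q41 h q45
        have q47 : A8 := Classical.byContradiction fun h => c17 q46 u1 h
        have q48 : A5 := Classical.byContradiction fun h => c25 q43 q3 h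
        have q49 : A41 := Classical.byContradiction fun h => c31 q41 h q1
        have q50 : A47 := Classical.byContradiction fun h => c39 q49 u1 h
        have q51 : ¬ A46 := fun h => c41 h q50
        have q52 : ¬ A21 := fun h => c40 h q51 u3
        have q53 : ¬ A43 := fun h => c35 h q52 u2
        have q54 : A24 := Classical.byContradiction fun h => c7 h q47 q53
        exact c14 q54 q44 q53
      · have q55 : ¬ A5 := fun h => c0 q41 q5 h q6
        have q56 : ¬ A9 := fun h => c25 h q3 q55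
        have q57 : ¬ A39 := fun h => c2 q56 q3 h q6
        have q58 : ¬ A13 := fun h => c29 h q57 q56
        have q59 : ¬ A25 := fun h => c1 q55 h q58 q6
        have q60 : ¬ A18 := fun h => c11 h q59 q6
        exact c36 q4 q60 q57
  · have q61 : ¬ A45 := fun h => c34 h q1 q4
    have q62 : ¬ A27 := fun h => c6 q61 h q4
    have q63 : ¬ A12 := fun h => c27 h q62 q1
    have q64 : A44 := Classical.byContradiction fun h => c37 u0 q4 h
    have q65 : A9 := Classical.byContradiction fun h => c32 q64 h q62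
    have q66 : ¬ A4 := fun h => c15 h q65
    have q67 : ¬ A1 := fun h => c12 h q66 q3
    have q68 : A5 := Classical.byContradiction fun h => c25 q65 q3 h
    rcases Classical.em A26 with q69 | q69
    · have q70 : ¬ A15 := fun h => c22 q69 h
      have q71 : ¬ A10 := fun h => c18 h u1 q70
      have q72 : A19 := Classical.byContradiction fun h => c23 q69 h u1
      have q73 : ¬ A42 := fun h => c33 h q70 q62
      have q74 : ¬ A30 := fun h => c20 h q2 q73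
      have q75 : A11 := Classical.byContradiction fun h => c38 q72 h q67
      have q76 : A2 := Classical.byContradiction fun h => c8 h q63 q75 q67
      have q77 : ¬ A22 := fun h => c42 q76 h
      have q78 : ¬ A3 := fun h => c43 h q77 q66
      have q79 : A6 := Classical.byContradiction fun h => c44 q76 q66 h
      have q80 : A8 := Classical.byContradiction fun h => c17 q79 u1 h
      have q81 : A31 := Classical.byContradiction fun h => c47 q79 h q71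
      have q82 : ¬ A35 := fun h => c48 h q2 q78
      have q83 : ¬ A37 := fun h => c49 h u1 q78
      have q84 : ¬ A33 := fun h => c10 q82 q83 h
      rcases Classical.em A14 with q85 | q85
      · have q86 : A41 := Classical.byContradiction fun h => c31 q85 h q1
        have q87 : A47 := Classical.byContradiction fun h => c39 q86 u1 h
        have q88 : ¬ A46 := fun h => c41 h q87
        have q89 : ¬ A21 := fun h => c40 h q88 u3
        have q90 : ¬ A43 := fun h => c35 h q89 u2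
        have q91 : A24 := Classical.byContradiction fun h => c7 h q80 q90
        exact c14 q91 q66 q90
      · have q92 : A32 := Classical.byContradiction fun h => c45 q81 h q85
        have q93 : A29 := Classical.byContradiction fun h => c9 q74 q84 q92 h
        exact c46 q93 q85 q78
    · have q94 : ¬ A7 := fun h => c5 q69 q62 h
      have q95 : ¬ A19 := fun h => c21 h q69 u3
      have q96 : A14 := Classical.byContradiction fun h => c0 h q94 q68 q95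
      have q97 : A6 := Classical.byContradiction fun h => c16 q96 h q67
      have q98 : A8 := Classical.byContradiction fun h => c17 q97 u1 h
      have q99 : A39 := Classical.byContradiction fun h => c30 q96 h q94
      have q100 : A41 := Classical.byContradiction fun h => c31 q96 h q1
      have q101 : A47 := Classical.byContradiction fun h => c39 q100 u1 h
      have q102 : ¬ A46 := fun h => c41 h q101
      have q103 : ¬ A21 := fun h => c40 h q102 u3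
      have q104 : ¬ A43 := fun h => c35 h q103 u2
      have q105 : A24 := Classical.byContradiction fun h => c7 h q98 q104
      exact c14 q105 q66 q104

theorem par_BAC_1 {G : Type*} [Group G] {δ : G → ZMod 3} (hδ : ∀ u v, δ (u * v) = δ u + δ v) (o : Pre δ)
    {P Q f x g : G} {e : ZMod 3} (h3 : 3 * e = 0)
    (D : δ P = e ∧ δ Q = -e ∧ δ f = 0 ∧ δ x = 0 ∧ δ g = 0)
    (C : Cube P f ∧ Cube P x ∧ Cube P g ∧ Cube Q f ∧ Cube Q x ∧ Cube Q g)
    (N0 : RB o P Q f x)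
    (N1 : RA o P Q x g)
    (g0 : o.lt (P * g⁻¹) (g * Q⁻¹)) (g1 : ¬ o.lt (f * Q⁻¹) (g * Q⁻¹)) (g2 : ¬ o.lt ((f * Q⁻¹)⁻¹) ((P * g⁻¹)⁻¹)) (g3 : ¬ o.lt (g) (f)) : False := by
  simp only [Cube] at C
  have e0 : δ (P * (x⁻¹ * f)) = δ (P) := by simp only [hδ, δinv hδ, δone hδ, D] <;> linear_combination (0) * h3
  have e1 : δ (x * (P⁻¹ * (x * f⁻¹))) = δ (P * (x⁻¹ * (f * Q⁻¹))) := by simp only [hδ, δinv hδ, δone hδ, D] <;> linear_combination (-1) * h3
  have e2 : δ (P * (x⁻¹ * (Q * f⁻¹))) = δ (1) := by simp only [hδ, δinv hδ, δone hδ, D] <;> linear_combination (0) * h3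
  have e3 : δ (P * x⁻¹) = δ (Q * P⁻¹) := by simp only [hδ, δinv hδ, δone hδ, D] <;> linear_combination (1) * h3
  have e4 : δ (P * f⁻¹) = δ (P * x⁻¹) := by simp only [hδ, δinv hδ, δone hδ, D] <;> linear_combination (0) * h3
  have e5 : δ (f * Q⁻¹) = δ (P * x⁻¹) := by simp only [hδ, δinv hδ, δone hδ, D] <;> linear_combination (0) * h3
  have e6 : δ (x * Q⁻¹) = δ (P * x⁻¹) := by simp only [hδ, δinv hδ, δone hδ, D] <;> linear_combination (0) * h3
  have e7 : δ (g * Q⁻¹) = δ (P * x⁻¹) := by simp only [hδ, δinv hδ, δone hδ, D] <;> linear_combination (0) * h3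
  have e8 : δ (Q * x⁻¹) = δ (x * P⁻¹) := by simp only [hδ, δinv hδ, δone hδ, D] <;> linear_combination (0) * h3
  have e9 : δ (f * Q⁻¹) = δ (x * Q⁻¹) := by simp only [hδ, δinv hδ, δone hδ, D] <;> linear_combination (0) * h3
  have e10 : δ (x * P⁻¹) = δ (x * (P⁻¹ * (x * f⁻¹))) := by simp only [hδ, δinv hδ, δone hδ, D] <;> linear_combination (0) * h3
  have e11 : δ (x * P⁻¹) = δ (P * Q⁻¹) := by simp only [hδ, δinv hδ, δone hδ, D] <;> linear_combination (-1) * h3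
  have e12 : δ (Q * f⁻¹) = δ (x * P⁻¹) := by simp only [hδ, δinv hδ, δone hδ, D] <;> linear_combination (0) * h3
  have e13 : δ (f * Q⁻¹) = δ (P * f⁻¹) := by simp only [hδ, δinv hδ, δone hδ, D] <;> linear_combination (0) * h3
  have e14 : δ (g * P⁻¹) = δ (x * P⁻¹) := by simp only [hδ, δinv hδ, δone hδ, D] <;> linear_combination (0) * h3
  have e15 : δ (Q * g⁻¹) = δ (x * P⁻¹) := by simp only [hδ, δinv hδ, δone hδ, D] <;> linear_combination (0) * h3
  have e16 : δ (g * Q⁻¹) = δ (P * g⁻¹) := by simp only [hδ, δinv hδ, δone hδ, D] <;> linear_combination (0) * h3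
  have e17 : δ (P * f⁻¹) = δ (f * Q⁻¹) := by simp only [hδ, δinv hδ, δone hδ, D] <;> linear_combination (0) * h3
  have e18 : δ (x) = δ (f) := by simp only [hδ, δinv hδ, δone hδ, D] <;> linear_combination (0) * h3
  have e19 : δ (g * Q⁻¹) = δ (f * Q⁻¹) := by simp only [hδ, δinv hδ, δone hδ, D] <;> linear_combination (0) * h3
  have e20 : δ (Q * g⁻¹) = δ (Q * f⁻¹) := by simp only [hδ, δinv hδ, δone hδ, D] <;> linear_combination (0) * h3
  have e21 : δ (P * (x⁻¹ * (f * Q⁻¹))) = δ (x * (P⁻¹ * (x * f⁻¹))) := by simp only [hδ, δinv hδ, δone hδ, D] <;> linear_combination (1) * h3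
  have e22 : δ (P * x⁻¹) = δ (x * Q⁻¹) := by simp only [hδ, δinv hδ, δone hδ, D] <;> linear_combination (0) * h3
  have e23 : δ (P * x⁻¹) = δ (P * g⁻¹) := by simp only [hδ, δinv hδ, δone hδ, D] <;> linear_combination (0) * h3
  have e24 : δ (P * f⁻¹) = δ (x * Q⁻¹) := by simp only [hδ, δinv hδ, δone hδ, D] <;> linear_combination (0) * h3
  have e25 : δ (x * P⁻¹) = δ (g * P⁻¹) := by simp only [hδ, δinv hδ, δone hδ, D] <;> linear_combination (0) * h3
  have e26 : δ (x * P⁻¹) = δ (Q * g⁻¹) := by simp only [hδ, δinv hδ, δone hδ, D] <;> linear_combination (0) * h3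
  have e27 : δ (P * g⁻¹) = δ (g * Q⁻¹) := by simp only [hδ, δinv hδ, δone hδ, D] <;> linear_combination (0) * h3
  have e28 : δ (f * (Q⁻¹ * f)) = δ (f * (Q⁻¹ * x)) := by simp only [hδ, δinv hδ, δone hδ, D] <;> linear_combination (0) * h3
  have e29 : δ (f * (Q⁻¹ * (P * f⁻¹))) = δ (Q * f⁻¹) := by simp only [hδ, δinv hδ, δone hδ, D] <;> linear_combination (1) * h3
  have e30 : δ (f * (Q⁻¹ * (P * x⁻¹))) = δ (f * P⁻¹) := by simp only [hδ, δinv hδ, δone hδ, D] <;> linear_combination (1) * h3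
  have e31 : δ (f * (Q⁻¹ * (P * x⁻¹))) = δ (f * (Q⁻¹ * (P * f⁻¹))) := by simp only [hδ, δinv hδ, δone hδ, D] <;> linear_combination (0) * h3
  have e32 : δ (f * (Q⁻¹ * (P * x⁻¹))) = δ (f * (Q⁻¹ * (x * Q⁻¹))) := by simp only [hδ, δinv hδ, δone hδ, D] <;> linear_combination (0) * h3
  have e33 : δ (f * Q⁻¹) = δ (P * g⁻¹) := by simp only [hδ, δinv hδ, δone hδ, D] <;> linear_combination (0) * h3
  have e34 : δ (f * (Q⁻¹ * (g * P⁻¹))) = δ (f * (Q⁻¹ * (x * P⁻¹))) := by simp only [hδ, δinv hδ, δone hδ, D] <;> linear_combination (0) * h3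
  have e35 : δ (f * Q⁻¹) = δ (g * Q⁻¹) := by simp only [hδ, δinv hδ, δone hδ, D] <;> linear_combination (0) * h3
  have e36 : δ (f * g⁻¹) = δ (f * (Q⁻¹ * (x * P⁻¹))) := by simp only [hδ, δinv hδ, δone hδ, D] <;> linear_combination (0) * h3
  have e37 : δ (Q * f⁻¹) = δ (f * P⁻¹) := by simp only [hδ, δinv hδ, δone hδ, D] <;> linear_combination (0) * h3
  have e38 : δ (Q * f⁻¹) = δ (Q * x⁻¹) := by simp only [hδ, δinv hδ, δone hδ, D] <;> linear_combination (0) * h3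
  have e39 : δ (Q * f⁻¹) = δ (g * P⁻¹) := by simp only [hδ, δinv hδ, δone hδ, D] <;> linear_combination (0) * h3
  have e40 : δ (Q * f⁻¹) = δ (Q * g⁻¹) := by simp only [hδ, δinv hδ, δone hδ, D] <;> linear_combination (0) * h3
  have e41 : δ (P * g⁻¹) = δ (Q * P⁻¹) := by simp only [hδ, δinv hδ, δone hδ, D] <;> linear_combination (1) * h3
  have e42 : δ (Q * g⁻¹) = δ (g * P⁻¹) := by simp only [hδ, δinv hδ, δone hδ, D] <;> linear_combination (0) * h3
  have e43 : δ (Q * x⁻¹) = δ (Q * g⁻¹) := by simp only [hδ, δinv hδ, δone hδ, D] <;> linear_combination (0) * h3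
  have e44 : δ (Q * g⁻¹) = δ (Q * x⁻¹) := by simp only [hδ, δinv hδ, δone hδ, D] <;> linear_combination (0) * h3
  have e45 : δ (Q * g⁻¹) = δ (g * (Q⁻¹ * (f * Q⁻¹))) := by simp only [hδ, δinv hδ, δone hδ, D] <;> linear_combination (-1) * h3
  have e46 : δ (g * (Q⁻¹ * (f * Q⁻¹))) = δ (Q * g⁻¹) := by simp only [hδ, δinv hδ, δone hδ, D] <;> linear_combination (1) * h3
  have k0 : o.lt (f * Q⁻¹) (P * f⁻¹) ↔ o.lt (1 * (f * Q⁻¹)) (1 * (P * f⁻¹)) := o.cv hδ (1) e13 (by simp only [mul_assoc, mul_inv_rev, inv_inv, mul_inv_cancel_left, inv_mul_cancel_left, mul_inv_cancel, inv_mul_cancel, mul_one, one_mul, inv_one, C]) (by simp only [mul_assoc, mul_inv_rev, inv_inv, mul_inv_cancel_left, inv_mul_cancel_left, mul_inv_cancel, inv_mul_cancel, mul_one, one_mul, inv_one, C])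
  have k1 : o.lt (x * Q⁻¹) (P * x⁻¹) ↔ o.lt (1 * (x * Q⁻¹)) (1 * (P * x⁻¹)) := o.cv hδ (1) e6 (by simp only [mul_assoc, mul_inv_rev, inv_inv, mul_inv_cancel_left, inv_mul_cancel_left, mul_inv_cancel, inv_mul_cancel, mul_one, one_mul, inv_one, C]) (by simp only [mul_assoc, mul_inv_rev, inv_inv, mul_inv_cancel_left, inv_mul_cancel_left, mul_inv_cancel, inv_mul_cancel, mul_one, one_mul, inv_one, C])
  have k2 : o.lt (P * f⁻¹) (P * x⁻¹) ↔ o.lt (1 * (P * f⁻¹)) (1 * (P * x⁻¹)) := o.cv hδ (1) e4 (by simp only [mul_assoc, mul_inv_rev, inv_inv, mul_inv_cancel_left, inv_mul_cancel_left, mul_inv_cancel, inv_mul_cancel, mul_one, one_mul, inv_one, C]) (by simp only [mul_assoc, mul_inv_rev, inv_inv, mul_inv_cancel_left, inv_mul_cancel_left, mul_inv_cancel, inv_mul_cancel, mul_one, one_mul, inv_one, C])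
  have k3 : o.lt (x) (f) ↔ o.lt (1 * x) (1 * f) := o.cv hδ (1) e18 (by simp only [mul_assoc, mul_inv_rev, inv_inv, mul_inv_cancel_left, inv_mul_cancel_left, mul_inv_cancel, inv_mul_cancel, mul_one, one_mul, inv_one, C]) (by simp only [mul_assoc, mul_inv_rev, inv_inv, mul_inv_cancel_left, inv_mul_cancel_left, mul_inv_cancel, inv_mul_cancel, mul_one, one_mul, inv_one, C])
  have k4 : o.lt (P * f⁻¹) (x * Q⁻¹) ↔ o.lt (1 * (P * f⁻¹)) (1 * (x * Q⁻¹)) := o.cv hδ (1) e24 (by simp only [mul_assoc, mul_inv_rev, inv_inv, mul_inv_cancel_left, inv_mul_cancel_left, mul_inv_cancel, inv_mul_cancel, mul_one, one_mul, inv_one, C]) (by simp only [mul_assoc, mul_inv_rev, inv_inv, mul_inv_cancel_left, inv_mul_cancel_left, mul_inv_cancel, inv_mul_cancel, mul_one, one_mul, inv_one, C])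
  have k5 : o.lt (Q * f⁻¹) (x * P⁻¹) ↔ o.lt (1 * (f * Q⁻¹)⁻¹) (1 * (P * x⁻¹)⁻¹) := o.cv hδ (1) e12 (by simp only [mul_assoc, mul_inv_rev, inv_inv, mul_inv_cancel_left, inv_mul_cancel_left, mul_inv_cancel, inv_mul_cancel, mul_one, one_mul, inv_one, C]) (by simp only [mul_assoc, mul_inv_rev, inv_inv, mul_inv_cancel_left, inv_mul_cancel_left, mul_inv_cancel, inv_mul_cancel, mul_one, one_mul, inv_one, C])
  have k6 : o.lt (Q * x⁻¹) (x * P⁻¹) ↔ o.lt (1 * (Q * x⁻¹)) (1 * (x * P⁻¹)) := o.cv hδ (1) e8 (by simp only [mul_assoc, mul_inv_rev, inv_inv, mul_inv_cancel_left, inv_mul_cancel_left, mul_inv_cancel, inv_mul_cancel, mul_one, one_mul, inv_one, C]) (by simp only [mul_assoc, mul_inv_rev, inv_inv, mul_inv_cancel_left, inv_mul_cancel_left, mul_inv_cancel, inv_mul_cancel, mul_one, one_mul, inv_one, C])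
  have k7 : o.lt (Q * f⁻¹) (f * P⁻¹) ↔ o.lt (1 * (Q * f⁻¹)) (1 * (f * P⁻¹)) := o.cv hδ (1) e37 (by simp only [mul_assoc, mul_inv_rev, inv_inv, mul_inv_cancel_left, inv_mul_cancel_left, mul_inv_cancel, inv_mul_cancel, mul_one, one_mul, inv_one, C]) (by simp only [mul_assoc, mul_inv_rev, inv_inv, mul_inv_cancel_left, inv_mul_cancel_left, mul_inv_cancel, inv_mul_cancel, mul_one, one_mul, inv_one, C])
  have k8 : o.lt (Q * f⁻¹) (Q * x⁻¹) ↔ o.lt (1 * (Q * f⁻¹)) (1 * (Q * x⁻¹)) := o.cv hδ (1) e38 (by simp only [mul_assoc, mul_inv_rev, inv_inv, mul_inv_cancel_left, inv_mul_cancel_left, mul_inv_cancel, inv_mul_cancel, mul_one, one_mul, inv_one, C]) (by simp only [mul_assoc, mul_inv_rev, inv_inv, mul_inv_cancel_left, inv_mul_cancel_left, mul_inv_cancel, inv_mul_cancel, mul_one, one_mul, inv_one, C])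
  have k9 : o.lt (g * P⁻¹) (x * P⁻¹) ↔ o.lt (1 * (g * P⁻¹)) (1 * (x * P⁻¹)) := o.cv hδ (1) e14 (by simp only [mul_assoc, mul_inv_rev, inv_inv, mul_inv_cancel_left, inv_mul_cancel_left, mul_inv_cancel, inv_mul_cancel, mul_one, one_mul, inv_one, C]) (by simp only [mul_assoc, mul_inv_rev, inv_inv, mul_inv_cancel_left, inv_mul_cancel_left, mul_inv_cancel, inv_mul_cancel, mul_one, one_mul, inv_one, C])
  have k10 : o.lt (Q * g⁻¹) (x * P⁻¹) ↔ o.lt (1 * (Q * g⁻¹)) (1 * (x * P⁻¹)) := o.cv hδ (1) e15 (by simp only [mul_assoc, mul_inv_rev, inv_inv, mul_inv_cancel_left, inv_mul_cancel_left, mul_inv_cancel, inv_mul_cancel, mul_one, one_mul, inv_one, C]) (by simp only [mul_assoc, mul_inv_rev, inv_inv, mul_inv_cancel_left, inv_mul_cancel_left, mul_inv_cancel, inv_mul_cancel, mul_one, one_mul, inv_one, C])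
  have k11 : o.lt (P * x⁻¹) (x * Q⁻¹) ↔ o.lt (1 * (x * P⁻¹)⁻¹) (1 * (Q * x⁻¹)⁻¹) := o.cv hδ (1) e22 (by simp only [mul_assoc, mul_inv_rev, inv_inv, mul_inv_cancel_left, inv_mul_cancel_left, mul_inv_cancel, inv_mul_cancel, mul_one, one_mul, inv_one, C]) (by simp only [mul_assoc, mul_inv_rev, inv_inv, mul_inv_cancel_left, inv_mul_cancel_left, mul_inv_cancel, inv_mul_cancel, mul_one, one_mul, inv_one, C])
  have k12 : o.lt (Q * x⁻¹) (Q * g⁻¹) ↔ o.lt (1 * (Q * x⁻¹)) (1 * (Q * g⁻¹)) := o.cv hδ (1) e43 (by simp only [mul_assoc, mul_inv_rev, inv_inv, mul_inv_cancel_left, inv_mul_cancel_left, mul_inv_cancel, inv_mul_cancel, mul_one, one_mul, inv_one, C]) (by simp only [mul_assoc, mul_inv_rev, inv_inv, mul_inv_cancel_left, inv_mul_cancel_left, mul_inv_cancel, inv_mul_cancel, mul_one, one_mul, inv_one, C])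
  have k13 : o.lt (x * Q⁻¹) (P * x⁻¹) ↔ o.lt (1 * (Q * x⁻¹)⁻¹) (1 * (x * P⁻¹)⁻¹) := o.cv hδ (1) e6 (by simp only [mul_assoc, mul_inv_rev, inv_inv, mul_inv_cancel_left, inv_mul_cancel_left, mul_inv_cancel, inv_mul_cancel, mul_one, one_mul, inv_one, C]) (by simp only [mul_assoc, mul_inv_rev, inv_inv, mul_inv_cancel_left, inv_mul_cancel_left, mul_inv_cancel, inv_mul_cancel, mul_one, one_mul, inv_one, C])
  have k14 : o.lt (x * P⁻¹) (g * P⁻¹) ↔ o.lt (1 * (x * P⁻¹)) (1 * (g * P⁻¹)) := o.cv hδ (1) e25 (by simp only [mul_assoc, mul_inv_rev, inv_inv, mul_inv_cancel_left, inv_mul_cancel_left, mul_inv_cancel, inv_mul_cancel, mul_one, one_mul, inv_one, C]) (by simp only [mul_assoc, mul_inv_rev, inv_inv, mul_inv_cancel_left, inv_mul_cancel_left, mul_inv_cancel, inv_mul_cancel, mul_one, one_mul, inv_one, C])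
  have k15 : o.lt (x * P⁻¹) (Q * g⁻¹) ↔ o.lt (1 * (x * P⁻¹)) (1 * (Q * g⁻¹)) := o.cv hδ (1) e26 (by simp only [mul_assoc, mul_inv_rev, inv_inv, mul_inv_cancel_left, inv_mul_cancel_left, mul_inv_cancel, inv_mul_cancel, mul_one, one_mul, inv_one, C]) (by simp only [mul_assoc, mul_inv_rev, inv_inv, mul_inv_cancel_left, inv_mul_cancel_left, mul_inv_cancel, inv_mul_cancel, mul_one, one_mul, inv_one, C])
  have k16 : o.lt (Q * g⁻¹) (Q * x⁻¹) ↔ o.lt (1 * (Q * g⁻¹)) (1 * (Q * x⁻¹)) := o.cv hδ (1) e44 (by simp only [mul_assoc, mul_inv_rev, inv_inv, mul_inv_cancel_left, inv_mul_cancel_left, mul_inv_cancel, inv_mul_cancel, mul_one, one_mul, inv_one, C]) (by simp only [mul_assoc, mul_inv_rev, inv_inv, mul_inv_cancel_left, inv_mul_cancel_left, mul_inv_cancel, inv_mul_cancel, mul_one, one_mul, inv_one, C])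
  have k17 : o.lt (P * x⁻¹) (P * g⁻¹) ↔ o.lt (1 * (P * x⁻¹)) (1 * (P * g⁻¹)) := o.cv hδ (1) e23 (by simp only [mul_assoc, mul_inv_rev, inv_inv, mul_inv_cancel_left, inv_mul_cancel_left, mul_inv_cancel, inv_mul_cancel, mul_one, one_mul, inv_one, C]) (by simp only [mul_assoc, mul_inv_rev, inv_inv, mul_inv_cancel_left, inv_mul_cancel_left, mul_inv_cancel, inv_mul_cancel, mul_one, one_mul, inv_one, C])
  have k18 : o.lt (g * Q⁻¹) (P * x⁻¹) ↔ o.lt (1 * (g * Q⁻¹)) (1 * (P * x⁻¹)) := o.cv hδ (1) e7 (by simp only [mul_assoc, mul_inv_rev, inv_inv, mul_inv_cancel_left, inv_mul_cancel_left, mul_inv_cancel, inv_mul_cancel, mul_one, one_mul, inv_one, C]) (by simp only [mul_assoc, mul_inv_rev, inv_inv, mul_inv_cancel_left, inv_mul_cancel_left, mul_inv_cancel, inv_mul_cancel, mul_one, one_mul, inv_one, C])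
  have k19 : o.lt (Q * g⁻¹) (g * P⁻¹) ↔ o.lt (1 * (g * Q⁻¹)⁻¹) (1 * (P * g⁻¹)⁻¹) := o.cv hδ (1) e42 (by simp only [mul_assoc, mul_inv_rev, inv_inv, mul_inv_cancel_left, inv_mul_cancel_left, mul_inv_cancel, inv_mul_cancel, mul_one, one_mul, inv_one, C]) (by simp only [mul_assoc, mul_inv_rev, inv_inv, mul_inv_cancel_left, inv_mul_cancel_left, mul_inv_cancel, inv_mul_cancel, mul_one, one_mul, inv_one, C])
  have k20 : o.lt (x * (P⁻¹ * (x * f⁻¹))) (P * (x⁻¹ * (f * Q⁻¹))) ↔ o.lt ((P * x⁻¹) * (P * f⁻¹)) ((P * x⁻¹) * (f * Q⁻¹)) := o.cv hδ (f * (x⁻¹ * (P * (x⁻¹ * (P * (x⁻¹ * (P * f⁻¹))))))) e1 (by simp only [mul_assoc, mul_inv_rev, inv_inv, mul_inv_cancel_left, inv_mul_cancel_left, mul_inv_cancel, inv_mul_cancel, mul_one, one_mul, inv_one, C]) (by simp only [mul_assoc, mul_inv_rev, inv_inv, mul_inv_cancel_left, inv_mul_cancel_left, mul_inv_cancel, inv_mul_cancel, mul_one, one_mul, inv_one, C])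
  have k21 : o.lt (x * P⁻¹) (P * Q⁻¹) ↔ o.lt ((P * x⁻¹) * (P * x⁻¹)) ((P * x⁻¹) * (x * Q⁻¹)) := o.cv hδ (P * (x⁻¹ * (P * (x⁻¹ * (P * x⁻¹))))) e11 (by simp only [mul_assoc, mul_inv_rev, inv_inv, mul_inv_cancel_left, inv_mul_cancel_left, mul_inv_cancel, inv_mul_cancel, mul_one, one_mul, inv_one, C]) (by simp only [mul_assoc, mul_inv_rev, inv_inv, mul_inv_cancel_left, inv_mul_cancel_left, mul_inv_cancel, inv_mul_cancel, mul_one, one_mul, inv_one, C])
  have k22 : o.lt (x * P⁻¹) (x * (P⁻¹ * (x * f⁻¹))) ↔ o.lt ((P * x⁻¹) * (P * x⁻¹)) ((P * x⁻¹) * (P * f⁻¹)) := o.cv hδ (P * (x⁻¹ * (P * (x⁻¹ * (P * x⁻¹))))) e10 (by simp only [mul_assoc, mul_inv_rev, inv_inv, mul_inv_cancel_left, inv_mul_cancel_left, mul_inv_cancel, inv_mul_cancel, mul_one, one_mul, inv_one, C]) (by simp only [mul_assoc, mul_inv_rev, inv_inv, mul_inv_cancel_left, inv_mul_cancel_left, mul_inv_cancel, inv_mul_cancel, mul_one, one_mul, inv_one,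 C])
  have k23 : o.lt (P * (x⁻¹ * f)) (P) ↔ o.lt ((P * x⁻¹) * f) ((P * x⁻¹) * x) := o.cv hδ (1) e0 (by simp only [mul_assoc, mul_inv_rev, inv_inv, mul_inv_cancel_left, inv_mul_cancel_left, mul_inv_cancel, inv_mul_cancel, mul_one, one_mul, inv_one, C]) (by simp only [mul_assoc, mul_inv_rev, inv_inv, mul_inv_cancel_left, inv_mul_cancel_left, mul_inv_cancel, inv_mul_cancel, mul_one, one_mul, inv_one, C])
  have k24 : o.lt (f * (Q⁻¹ * (P * f⁻¹))) (Q * f⁻¹) ↔ o.lt ((f * Q⁻¹) * (P * f⁻¹)) ((f * Q⁻¹) * (f * Q⁻¹)) := o.cv hδ (1) e29 (by simp only [mul_assoc, mul_inv_rev, inv_inv, mul_inv_cancel_left, inv_mul_cancel_left, mul_inv_cancel, inv_mul_cancel, mul_one, one_mul, inv_one, C]) (by simp only [mul_assoc, mul_inv_rev, inv_inv, mul_inv_cancel_left, inv_mul_cancel_left, mul_inv_cancel, inv_mul_cancel, mul_one, one_mul, inv_one, C])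
  have k25 : o.lt (f * (Q⁻¹ * (P * x⁻¹))) (f * (Q⁻¹ * (x * Q⁻¹))) ↔ o.lt ((f * Q⁻¹) * (P * x⁻¹)) ((f * Q⁻¹) * (x * Q⁻¹)) := o.cv hδ (1) e32 (by simp only [mul_assoc, mul_inv_rev, inv_inv, mul_inv_cancel_left, inv_mul_cancel_left, mul_inv_cancel, inv_mul_cancel, mul_one, one_mul, inv_one, C]) (by simp only [mul_assoc, mul_inv_rev, inv_inv, mul_inv_cancel_left, inv_mul_cancel_left, mul_inv_cancel, inv_mul_cancel, mul_one, one_mul, inv_one, C])
  have k26 : o.lt (f * (Q⁻¹ * (P * x⁻¹))) (f * (Q⁻¹ * (P * f⁻¹))) ↔ o.lt ((f * Q⁻¹) * (P * x⁻¹)) ((f * Q⁻¹) * (P * f⁻¹)) := o.cv hδ (1) e31 (by simp only [mul_assoc, mul_inv_rev, inv_inv, mul_inv_cancel_left, inv_mul_cancel_left, mul_inv_cancel, inv_mul_cancel, mul_one, one_mul, inv_one, C]) (by simp only [mul_assoc, mul_inv_rev, inv_inv, mul_inv_cancel_left, inv_mul_cancel_left, mul_inv_cancel, inv_mul_cancel, mul_one, one_mul, inv_one, C])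
  have k27 : o.lt (f * (Q⁻¹ * f)) (f * (Q⁻¹ * x)) ↔ o.lt ((f * Q⁻¹) * f) ((f * Q⁻¹) * x) := o.cv hδ (1) e28 (by simp only [mul_assoc, mul_inv_rev, inv_inv, mul_inv_cancel_left, inv_mul_cancel_left, mul_inv_cancel, inv_mul_cancel, mul_one, one_mul, inv_one, C]) (by simp only [mul_assoc, mul_inv_rev, inv_inv, mul_inv_cancel_left, inv_mul_cancel_left, mul_inv_cancel, inv_mul_cancel, mul_one, one_mul, inv_one, C])
  have k28 : o.lt (f * (Q⁻¹ * (g * P⁻¹))) (f * (Q⁻¹ * (x * P⁻¹))) ↔ o.lt ((f * Q⁻¹) * (g * P⁻¹)) ((f * Q⁻¹) * (x * P⁻¹)) := o.cv hδ (1) e34 (by simp only [mul_assoc, mul_inv_rev, inv_inv, mul_inv_cancel_left, inv_mul_cancel_left, mul_inv_cancel, inv_mul_cancel, mul_one, one_mul, inv_one, C]) (by simp only [mul_assoc, mul_inv_rev, inv_inv, mul_inv_cancel_left, inv_mul_cancel_left, mul_inv_cancel, inv_mul_cancel, mul_one, one_mul, inv_one, C])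
  have k29 : o.lt (f * g⁻¹) (f * (Q⁻¹ * (x * P⁻¹))) ↔ o.lt ((f * Q⁻¹) * (Q * g⁻¹)) ((f * Q⁻¹) * (x * P⁻¹)) := o.cv hδ (1) e36 (by simp only [mul_assoc, mul_inv_rev, inv_inv, mul_inv_cancel_left, inv_mul_cancel_left, mul_inv_cancel, inv_mul_cancel, mul_one, one_mul, inv_one, C]) (by simp only [mul_assoc, mul_inv_rev, inv_inv, mul_inv_cancel_left, inv_mul_cancel_left, mul_inv_cancel, inv_mul_cancel, mul_one, one_mul, inv_one, C])
  have k30 : o.lt (f * (Q⁻¹ * (P * x⁻¹))) (f * (Q⁻¹ * (x * Q⁻¹))) ↔ o.lt ((f * Q⁻¹) * (x * P⁻¹)⁻¹) ((f * Q⁻¹) * (Q * x⁻¹)⁻¹) := o.cv hδ (1) e32 (by simp only [mul_assoc, mul_inv_rev, inv_inv, mul_inv_cancel_left, inv_mul_cancel_left, mul_inv_cancel, inv_mul_cancel, mul_one, one_mul, inv_one, C]) (by simp only [mul_assoc, mul_inv_rev, inv_inv, mul_inv_cancel_left, inv_mul_cancel_left, mul_inv_cancel, inv_mul_cancel, mul_one, one_mul, inv_one, C])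
  have k31 : o.lt (P * f⁻¹) (f * Q⁻¹) ↔ o.lt (P * f⁻¹) (f * Q⁻¹) := o.cv hδ (1) e17 (by simp only [mul_assoc, mul_inv_rev, inv_inv, mul_inv_cancel_left, inv_mul_cancel_left, mul_inv_cancel, inv_mul_cancel, mul_one, one_mul, inv_one, C]) (by simp only [mul_assoc, mul_inv_rev, inv_inv, mul_inv_cancel_left, inv_mul_cancel_left, mul_inv_cancel, inv_mul_cancel, mul_one, one_mul, inv_one, C])
  have k32 : o.lt (P * f⁻¹) (x * Q⁻¹) ↔ o.lt (P * f⁻¹) (x * Q⁻¹) := o.cv hδ (1) e24 (by simp only [mul_assoc, mul_inv_rev, inv_inv, mul_inv_cancel_left, inv_mul_cancel_left, mul_inv_cancel, inv_mul_cancel, mul_one, one_mul, inv_one, C]) (by simp only [mul_assoc, mul_inv_rev, inv_inv, mul_inv_cancel_left, inv_mul_cancel_left, mul_inv_cancel, inv_mul_cancel, mul_one, one_mul, inv_one, C])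
  have k33 : o.lt (x) (f) ↔ o.lt (x * Q⁻¹) (f * Q⁻¹) := o.cv hδ (Q⁻¹) e18 (by simp only [mul_assoc, mul_inv_rev, inv_inv, mul_inv_cancel_left, inv_mul_cancel_left, mul_inv_cancel, inv_mul_cancel, mul_one, one_mul, inv_one, C]) (by simp only [mul_assoc, mul_inv_rev, inv_inv, mul_inv_cancel_left, inv_mul_cancel_left, mul_inv_cancel, inv_mul_cancel, mul_one, one_mul, inv_one, C])
  have k34 : o.lt (P * (x⁻¹ * f)) (P) ↔ o.lt (P * x⁻¹) (P * f⁻¹) := o.cv hδ (f⁻¹) e0 (by simp only [mul_assoc, mul_inv_rev, inv_inv, mul_inv_cancel_left, inv_mul_cancel_left, mul_inv_cancel, inv_mul_cancel, mul_one, one_mul, inv_one, C]) (by simp only [mul_assoc, mul_inv_rev, inv_inv, mul_inv_cancel_left, inv_mul_cancel_left, mul_inv_cancel, inv_mul_cancel, mul_one, one_mul, inv_one, C])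
  have k35 : o.lt (P * x⁻¹) (Q * P⁻¹) ↔ o.lt (P * x⁻¹) (Q * P⁻¹) := o.cv hδ (1) e3 (by simp only [mul_assoc, mul_inv_rev, inv_inv, mul_inv_cancel_left, inv_mul_cancel_left, mul_inv_cancel, inv_mul_cancel, mul_one, one_mul, inv_one, C]) (by simp only [mul_assoc, mul_inv_rev, inv_inv, mul_inv_cancel_left, inv_mul_cancel_left, mul_inv_cancel, inv_mul_cancel, mul_one, one_mul, inv_one, C])
  have k36 : o.lt (Q * f⁻¹) (f * P⁻¹) ↔ o.lt (Q * P⁻¹) (P * f⁻¹) := o.cv hδ (f * P⁻¹) e37 (by simp only [mul_assoc, mul_inv_rev, inv_inv, mul_inv_cancel_left, inv_mul_cancel_left, mul_inv_cancel, inv_mul_cancel, mul_one, one_mul, inv_one, C]) (by simp only [mul_assoc, mul_inv_rev, inv_inv, mul_inv_cancel_left, inv_mul_cancel_left, mul_inv_cancel, inv_mul_cancel, mul_one, one_mul, inv_one, C])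
  have k37 : o.lt (P * x⁻¹) (x * Q⁻¹) ↔ o.lt (P * x⁻¹) (x * Q⁻¹) := o.cv hδ (1) e22 (by simp only [mul_assoc, mul_inv_rev, inv_inv, mul_inv_cancel_left, inv_mul_cancel_left, mul_inv_cancel, inv_mul_cancel, mul_one, one_mul, inv_one, C]) (by simp only [mul_assoc, mul_inv_rev, inv_inv, mul_inv_cancel_left, inv_mul_cancel_left, mul_inv_cancel, inv_mul_cancel, mul_one, one_mul, inv_one, C])
  have k38 : o.lt (x * Q⁻¹) (P * x⁻¹) ↔ o.lt (x * Q⁻¹) (P * x⁻¹) := o.cv hδ (1) e6 (by simp only [mul_assoc, mul_inv_rev, inv_inv, mul_inv_cancel_left, inv_mul_cancel_left, mul_inv_cancel, inv_mul_cancel, mul_one, one_mul, inv_one, C]) (by simp only [mul_assoc, mul_inv_rev, inv_inv, mul_inv_cancel_left, inv_mul_cancel_left, mul_inv_cancel, inv_mul_cancel, mul_one, one_mul, inv_one, C])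
  have k39 : o.lt (P * x⁻¹) (P * g⁻¹) ↔ o.lt (P * x⁻¹) (P * g⁻¹) := o.cv hδ (1) e23 (by simp only [mul_assoc, mul_inv_rev, inv_inv, mul_inv_cancel_left, inv_mul_cancel_left, mul_inv_cancel, inv_mul_cancel, mul_one, one_mul, inv_one, C]) (by simp only [mul_assoc, mul_inv_rev, inv_inv, mul_inv_cancel_left, inv_mul_cancel_left, mul_inv_cancel, inv_mul_cancel, mul_one, one_mul, inv_one, C])
  have k40 : o.lt (Q * g⁻¹) (g * P⁻¹) ↔ o.lt (Q * P⁻¹) (P * g⁻¹) := o.cv hδ (g * P⁻¹) e42 (by simp only [mul_assoc, mul_inv_rev, inv_inv, mul_inv_cancel_left, inv_mul_cancel_left, mul_inv_cancel, inv_mul_cancel, mul_one, one_mul, inv_one, C]) (by simp only [mul_assoc, mul_inv_rev, inv_inv, mul_inv_cancel_left, inv_mul_cancel_left, mul_inv_cancel, inv_mul_cancel, mul_one, one_mul, inv_one, C])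
  have k41 : o.lt (Q * x⁻¹) (x * P⁻¹) ↔ o.lt (Q * P⁻¹) (P * x⁻¹) := o.cv hδ (x * P⁻¹) e8 (by simp only [mul_assoc, mul_inv_rev, inv_inv, mul_inv_cancel_left, inv_mul_cancel_left, mul_inv_cancel, inv_mul_cancel, mul_one, one_mul, inv_one, C]) (by simp only [mul_assoc, mul_inv_rev, inv_inv, mul_inv_cancel_left, inv_mul_cancel_left, mul_inv_cancel, inv_mul_cancel, mul_one, one_mul, inv_one, C])
  have k42 : o.lt (f * Q⁻¹) (P * f⁻¹) ↔ o.lt (f * Q⁻¹) (P * f⁻¹) := o.cv hδ (1) e13 (by simp only [mul_assoc, mul_inv_rev, inv_inv, mul_inv_cancel_left, inv_mul_cancel_left, mul_inv_cancel, inv_mul_cancel, mul_one, one_mul, inv_one, C]) (by simp only [mul_assoc, mul_inv_rev, inv_inv, mul_inv_cancel_left, inv_mul_cancel_left, mul_inv_cancel, inv_mul_cancel, mul_one, one_mul, inv_one, C])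
  have k43 : o.lt (f * Q⁻¹) (P * x⁻¹) ↔ o.lt (f * Q⁻¹) (P * x⁻¹) := o.cv hδ (1) e5 (by simp only [mul_assoc, mul_inv_rev, inv_inv, mul_inv_cancel_left, inv_mul_cancel_left, mul_inv_cancel, inv_mul_cancel, mul_one, one_mul, inv_one, C]) (by simp only [mul_assoc, mul_inv_rev, inv_inv, mul_inv_cancel_left, inv_mul_cancel_left, mul_inv_cancel, inv_mul_cancel, mul_one, one_mul, inv_one, C])
  have k44 : o.lt (f * Q⁻¹) (g * Q⁻¹) ↔ o.lt (f * Q⁻¹) (g * Q⁻¹) := o.cv hδ (1) e35 (by simp only [mul_assoc, mul_inv_rev, inv_inv, mul_inv_cancel_left, inv_mul_cancel_left, mul_inv_cancel, inv_mul_cancel, mul_one, one_mul, inv_one, C]) (by simp only [mul_assoc, mul_inv_rev, inv_inv, mul_inv_cancel_left, inv_mul_cancel_left, mul_inv_cancel, inv_mul_cancel, mul_one, one_mul, inv_one, C])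
  have k45 : o.lt (g * Q⁻¹) (P * x⁻¹) ↔ o.lt (g * Q⁻¹) (P * x⁻¹) := o.cv hδ (1) e7 (by simp only [mul_assoc, mul_inv_rev, inv_inv, mul_inv_cancel_left, inv_mul_cancel_left, mul_inv_cancel, inv_mul_cancel, mul_one, one_mul, inv_one, C]) (by simp only [mul_assoc, mul_inv_rev, inv_inv, mul_inv_cancel_left, inv_mul_cancel_left, mul_inv_cancel, inv_mul_cancel, mul_one, one_mul, inv_one, C])
  have k46 : o.lt (f * Q⁻¹) (x * Q⁻¹) ↔ o.lt (f * Q⁻¹) (x * Q⁻¹) := o.cv hδ (1) e9 (by simp only [mul_assoc, mul_inv_rev, inv_inv, mul_inv_cancel_left, inv_mul_cancel_left, mul_inv_cancel, inv_mul_cancel, mul_one, one_mul, inv_one, C]) (by simp only [mul_assoc, mul_inv_rev, inv_inv, mul_inv_cancel_left, inv_mul_cancel_left, mul_inv_cancel, inv_mul_cancel, mul_one, one_mul, inv_one, C])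
  have k47 : o.lt (g * P⁻¹) (x * P⁻¹) ↔ o.lt (g * Q⁻¹) (x * Q⁻¹) := o.cv hδ (P * Q⁻¹) e14 (by simp only [mul_assoc, mul_inv_rev, inv_inv, mul_inv_cancel_left, inv_mul_cancel_left, mul_inv_cancel, inv_mul_cancel, mul_one, one_mul, inv_one, C]) (by simp only [mul_assoc, mul_inv_rev, inv_inv, mul_inv_cancel_left, inv_mul_cancel_left, mul_inv_cancel, inv_mul_cancel, mul_one, one_mul, inv_one, C])
  have k48 : o.lt (f * Q⁻¹) (P * g⁻¹) ↔ o.lt (f * Q⁻¹) (P * g⁻¹) := o.cv hδ (1) e33 (by simp only [mul_assoc, mul_inv_rev, inv_inv, mul_inv_cancel_left, inv_mul_cancel_left, mul_inv_cancel, inv_mul_cancel, mul_one, one_mul, inv_one, C]) (by simp only [mul_assoc, mul_inv_rev, inv_inv, mul_inv_cancel_left, inv_mul_cancel_left, mul_inv_cancel, inv_mul_cancel, mul_one, one_mul, inv_one, C])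
  have k49 : o.lt (g * Q⁻¹) (P * g⁻¹) ↔ o.lt (g * Q⁻¹) (P * g⁻¹) := o.cv hδ (1) e16 (by simp only [mul_assoc, mul_inv_rev, inv_inv, mul_inv_cancel_left, inv_mul_cancel_left, mul_inv_cancel, inv_mul_cancel, mul_one, one_mul, inv_one, C]) (by simp only [mul_assoc, mul_inv_rev, inv_inv, mul_inv_cancel_left, inv_mul_cancel_left, mul_inv_cancel, inv_mul_cancel, mul_one, one_mul, inv_one, C])
  have k50 : o.lt (f * (Q⁻¹ * (P * f⁻¹))) (Q * f⁻¹) ↔ o.lt (f * Q⁻¹) (Q * P⁻¹) := o.cv hδ (f * P⁻¹) e29 (by simp only [mul_assoc, mul_inv_rev, inv_inv, mul_inv_cancel_left, inv_mul_cancel_left, mul_inv_cancel, inv_mul_cancel, mul_one, one_mul, inv_one, C]) (by simp only [mul_assoc, mul_inv_rev, inv_inv, mul_inv_cancel_left, inv_mul_cancel_left, mul_inv_cancel, inv_mul_cancel, mul_one, one_mul, inv_one, C])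
  have k51 : o.lt (P * g⁻¹) (Q * P⁻¹) ↔ o.lt (P * g⁻¹) (Q * P⁻¹) := o.cv hδ (1) e41 (by simp only [mul_assoc, mul_inv_rev, inv_inv, mul_inv_cancel_left, inv_mul_cancel_left, mul_inv_cancel, inv_mul_cancel, mul_one, one_mul, inv_one, C]) (by simp only [mul_assoc, mul_inv_rev, inv_inv, mul_inv_cancel_left, inv_mul_cancel_left, mul_inv_cancel, inv_mul_cancel, mul_one, one_mul, inv_one, C])
  have k52 : o.lt (x * P⁻¹) (g * P⁻¹) ↔ o.lt (x * Q⁻¹) (g * Q⁻¹) := o.cv hδ (P * Q⁻¹) e25 (by simp only [mul_assoc, mul_inv_rev, inv_inv, mul_inv_cancel_left, inv_mul_cancel_left, mul_inv_cancel, inv_mul_cancel, mul_one, one_mul, inv_one, C]) (by simp only [mul_assoc, mul_inv_rev, inv_inv, mul_inv_cancel_left, inv_mul_cancel_left, mul_inv_cancel, inv_mul_cancel, mul_one, one_mul, inv_one, C])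
  have k53 : o.lt (g * Q⁻¹) (f * Q⁻¹) ↔ o.lt (g * Q⁻¹) (f * Q⁻¹) := o.cv hδ (1) e19 (by simp only [mul_assoc, mul_inv_rev, inv_inv, mul_inv_cancel_left, inv_mul_cancel_left, mul_inv_cancel, inv_mul_cancel, mul_one, one_mul, inv_one, C]) (by simp only [mul_assoc, mul_inv_rev, inv_inv, mul_inv_cancel_left, inv_mul_cancel_left, mul_inv_cancel, inv_mul_cancel, mul_one, one_mul, inv_one, C])
  have k54 : o.lt (P * g⁻¹) (g * Q⁻¹) ↔ o.lt (P * g⁻¹) (g * Q⁻¹) := o.cv hδ (1) e27 (by simp only [mul_assoc, mul_inv_rev, inv_inv, mul_inv_cancel_left, inv_mul_cancel_left, mul_inv_cancel, inv_mul_cancel, mul_one, one_mul, inv_one, C]) (by simp only [mul_assoc, mul_inv_rev, inv_inv, mul_inv_cancel_left, inv_mul_cancel_left, mul_inv_cancel, inv_mul_cancel, mul_one, one_mul, inv_one, C])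
  have k55 : o.lt (P * f⁻¹) (P * x⁻¹) ↔ o.lt (P * f⁻¹) (P * x⁻¹) := o.cv hδ (1) e4 (by simp only [mul_assoc, mul_inv_rev, inv_inv, mul_inv_cancel_left, inv_mul_cancel_left, mul_inv_cancel, inv_mul_cancel, mul_one, one_mul, inv_one, C]) (by simp only [mul_assoc, mul_inv_rev, inv_inv, mul_inv_cancel_left, inv_mul_cancel_left, mul_inv_cancel, inv_mul_cancel, mul_one, one_mul, inv_one, C])
  have k56 : o.lt (x * P⁻¹) (Q * g⁻¹) ↔ o.lt (x * P⁻¹) (Q * g⁻¹) := o.cv hδ (1) e26 (by simp only [mul_assoc, mul_inv_rev, inv_inv, mul_inv_cancel_left, inv_mul_cancel_left, mul_inv_cancel, inv_mul_cancel, mul_one, one_mul, inv_one, C]) (by simp only [mul_assoc, mul_inv_rev, inv_inv, mul_inv_cancel_left, inv_mul_cancel_left, mul_inv_cancel, inv_mul_cancel, mul_one, one_mul, inv_one, C])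
  have k57 : o.lt (Q * g⁻¹) (x * P⁻¹) ↔ o.lt (Q * g⁻¹) (x * P⁻¹) := o.cv hδ (1) e15 (by simp only [mul_assoc, mul_inv_rev, inv_inv, mul_inv_cancel_left, inv_mul_cancel_left, mul_inv_cancel, inv_mul_cancel, mul_one, one_mul, inv_one, C]) (by simp only [mul_assoc, mul_inv_rev, inv_inv, mul_inv_cancel_left, inv_mul_cancel_left, mul_inv_cancel, inv_mul_cancel, mul_one, one_mul, inv_one, C])
  have k58 : o.lt (x * P⁻¹) (P * Q⁻¹) ↔ o.lt (x * P⁻¹) (P * Q⁻¹) := o.cv hδ (1) e11 (by simp only [mul_assoc, mul_inv_rev, inv_inv, mul_inv_cancel_left, inv_mul_cancel_left, mul_inv_cancel, inv_mul_cancel, mul_one, one_mul, inv_one, C]) (by simp only [mul_assoc, mul_inv_rev, inv_inv, mul_inv_cancel_left, inv_mul_cancel_left, mul_inv_cancel, inv_mul_cancel, mul_one, one_mul, inv_one, C])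
  have k59 : o.lt (g * Q⁻¹) (P * g⁻¹) ↔ o.lt (Q * g⁻¹) (P * Q⁻¹) := o.cv hδ (Q * (g⁻¹ * (Q * g⁻¹))) e16 (by simp only [mul_assoc, mul_inv_rev, inv_inv, mul_inv_cancel_left, inv_mul_cancel_left, mul_inv_cancel, inv_mul_cancel, mul_one, one_mul, inv_one, C]) (by simp only [mul_assoc, mul_inv_rev, inv_inv, mul_inv_cancel_left, inv_mul_cancel_left, mul_inv_cancel, inv_mul_cancel, mul_one, one_mul, inv_one, C])
  have k60 : o.lt (Q * f⁻¹) (f * P⁻¹) ↔ o.lt (Q * f⁻¹) (f * P⁻¹) := o.cv hδ (1) e37 (by simp only [mul_assoc, mul_inv_rev, inv_inv, mul_inv_cancel_left, inv_mul_cancel_left, mul_inv_cancel, inv_mul_cancel, mul_one, one_mul, inv_one, C]) (by simp only [mul_assoc, mul_inv_rev, inv_inv, mul_inv_cancel_left, inv_mul_cancel_left, mul_inv_cancel, inv_mul_cancel, mul_one, one_mul, inv_one, C])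
  have k61 : o.lt (Q * f⁻¹) (g * P⁻¹) ↔ o.lt (Q * f⁻¹) (g * P⁻¹) := o.cv hδ (1) e39 (by simp only [mul_assoc, mul_inv_rev, inv_inv, mul_inv_cancel_left, inv_mul_cancel_left, mul_inv_cancel, inv_mul_cancel, mul_one, one_mul, inv_one, C]) (by simp only [mul_assoc, mul_inv_rev, inv_inv, mul_inv_cancel_left, inv_mul_cancel_left, mul_inv_cancel, inv_mul_cancel, mul_one, one_mul, inv_one, C])
  have k62 : o.lt (g * Q⁻¹) (f * Q⁻¹) ↔ o.lt (g * P⁻¹) (f * P⁻¹) := o.cv hδ (Q * P⁻¹) e19 (by simp only [mul_assoc, mul_inv_rev, inv_inv, mul_inv_cancel_left, inv_mul_cancel_left, mul_inv_cancel, inv_mul_cancel, mul_one, one_mul, inv_one, C]) (by simp only [mul_assoc, mul_inv_rev, inv_inv, mul_inv_cancel_left, inv_mul_cancel_left, mul_inv_cancel, inv_mul_cancel, mul_one, one_mul, inv_one, C])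
  have k63 : o.lt (Q * f⁻¹) (x * P⁻¹) ↔ o.lt (Q * f⁻¹) (x * P⁻¹) := o.cv hδ (1) e12 (by simp only [mul_assoc, mul_inv_rev, inv_inv, mul_inv_cancel_left, inv_mul_cancel_left, mul_inv_cancel, inv_mul_cancel, mul_one, one_mul, inv_one, C]) (by simp only [mul_assoc, mul_inv_rev, inv_inv, mul_inv_cancel_left, inv_mul_cancel_left, mul_inv_cancel, inv_mul_cancel, mul_one, one_mul, inv_one, C])
  have k64 : o.lt (Q * f⁻¹) (Q * x⁻¹) ↔ o.lt (Q * f⁻¹) (Q * x⁻¹) := o.cv hδ (1) e38 (by simp only [mul_assoc, mul_inv_rev, inv_inv, mul_inv_cancel_left, inv_mul_cancel_left, mul_inv_cancel, inv_mul_cancel, mul_one, one_mul, inv_one, C]) (by simp only [mul_assoc, mul_inv_rev, inv_inv, mul_inv_cancel_left, inv_mul_cancel_left, mul_inv_cancel, inv_mul_cancel, mul_one, one_mul, inv_one, C])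
  have k65 : o.lt (Q * x⁻¹) (x * P⁻¹) ↔ o.lt (Q * x⁻¹) (x * P⁻¹) := o.cv hδ (1) e8 (by simp only [mul_assoc, mul_inv_rev, inv_inv, mul_inv_cancel_left, inv_mul_cancel_left, mul_inv_cancel, inv_mul_cancel, mul_one, one_mul, inv_one, C]) (by simp only [mul_assoc, mul_inv_rev, inv_inv, mul_inv_cancel_left, inv_mul_cancel_left, mul_inv_cancel, inv_mul_cancel, mul_one, one_mul, inv_one, C])
  have k66 : o.lt (f * Q⁻¹) (P * f⁻¹) ↔ o.lt (Q * f⁻¹) (P * Q⁻¹) := o.cv hδ (Q * (f⁻¹ * (Q * f⁻¹))) e13 (by simp only [mul_assoc, mul_inv_rev, inv_inv, mul_inv_cancel_left, inv_mul_cancel_left, mul_inv_cancel, inv_mul_cancel, mul_one, one_mul, inv_one, C]) (by simp only [mul_assoc, mul_inv_rev, inv_inv, mul_inv_cancel_left, inv_mul_cancel_left, mul_inv_cancel, inv_mul_cancel, mul_one, one_mul, inv_one, C])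
  have k67 : o.lt (x * Q⁻¹) (P * x⁻¹) ↔ o.lt (Q * x⁻¹) (P * Q⁻¹) := o.cv hδ (Q * (x⁻¹ * (Q * x⁻¹))) e6 (by simp only [mul_assoc, mul_inv_rev, inv_inv, mul_inv_cancel_left, inv_mul_cancel_left, mul_inv_cancel, inv_mul_cancel, mul_one, one_mul, inv_one, C]) (by simp only [mul_assoc, mul_inv_rev, inv_inv, mul_inv_cancel_left, inv_mul_cancel_left, mul_inv_cancel, inv_mul_cancel, mul_one, one_mul, inv_one, C])
  have k68 : o.lt (Q * f⁻¹) (Q * g⁻¹) ↔ o.lt (Q * f⁻¹) (Q * g⁻¹) := o.cv hδ (1) e40 (by simp only [mul_assoc, mul_inv_rev, inv_inv, mul_inv_cancel_left, inv_mul_cancel_left, mul_inv_cancel, inv_mul_cancel, mul_one, one_mul, inv_one, C]) (by simp only [mul_assoc, mul_inv_rev, inv_inv, mul_inv_cancel_left, inv_mul_cancel_left, mul_inv_cancel, inv_mul_cancel, mul_one, one_mul, inv_one, C])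
  have k69 : o.lt (Q * x⁻¹) (Q * g⁻¹) ↔ o.lt (Q * x⁻¹) (Q * g⁻¹) := o.cv hδ (1) e43 (by simp only [mul_assoc, mul_inv_rev, inv_inv, mul_inv_cancel_left, inv_mul_cancel_left, mul_inv_cancel, inv_mul_cancel, mul_one, one_mul, inv_one, C]) (by simp only [mul_assoc, mul_inv_rev, inv_inv, mul_inv_cancel_left, inv_mul_cancel_left, mul_inv_cancel, inv_mul_cancel, mul_one, one_mul, inv_one, C])
  have k70 : o.lt (P * g⁻¹) (Q * P⁻¹) ↔ o.lt (g * P⁻¹) (Q * g⁻¹) := o.cv hδ (g * (P⁻¹ * (g * P⁻¹))) e41 (by simp only [mul_assoc, mul_inv_rev, inv_inv, mul_inv_cancel_left, inv_mul_cancel_left, mul_inv_cancel, inv_mul_cancel, mul_one, one_mul, inv_one, C]) (by simp only [mul_assoc, mul_inv_rev, inv_inv, mul_inv_cancel_left, inv_mul_cancel_left, mul_inv_cancel, inv_mul_cancel, mul_one, one_mul, inv_one, C])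
  have k71 : o.lt (g * P⁻¹) (x * P⁻¹) ↔ o.lt (g * P⁻¹) (x * P⁻¹) := o.cv hδ (1) e14 (by simp only [mul_assoc, mul_inv_rev, inv_inv, mul_inv_cancel_left, inv_mul_cancel_left, mul_inv_cancel, inv_mul_cancel, mul_one, one_mul, inv_one, C]) (by simp only [mul_assoc, mul_inv_rev, inv_inv, mul_inv_cancel_left, inv_mul_cancel_left, mul_inv_cancel, inv_mul_cancel, mul_one, one_mul, inv_one, C])
  have k72 : o.lt (Q * g⁻¹) (Q * x⁻¹) ↔ o.lt (Q * g⁻¹) (Q * x⁻¹) := o.cv hδ (1) e44 (by simp only [mul_assoc, mul_inv_rev, inv_inv, mul_inv_cancel_left, inv_mul_cancel_left, mul_inv_cancel, inv_mul_cancel, mul_one, one_mul, inv_one, C]) (by simp only [mul_assoc, mul_inv_rev, inv_inv, mul_inv_cancel_left, inv_mul_cancel_left, mul_inv_cancel, inv_mul_cancel, mul_one, one_mul, inv_one, C])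
  have k73 : o.lt (P * x⁻¹) (x * Q⁻¹) ↔ o.lt (P * Q⁻¹) (Q * x⁻¹) := o.cv hδ (x * Q⁻¹) e22 (by simp only [mul_assoc, mul_inv_rev, inv_inv, mul_inv_cancel_left, inv_mul_cancel_left, mul_inv_cancel, inv_mul_cancel, mul_one, one_mul, inv_one, C]) (by simp only [mul_assoc, mul_inv_rev, inv_inv, mul_inv_cancel_left, inv_mul_cancel_left, mul_inv_cancel, inv_mul_cancel, mul_one, one_mul, inv_one, C])
  have k74 : o.lt (Q * g⁻¹) (g * P⁻¹) ↔ o.lt (Q * g⁻¹) (g * P⁻¹) := o.cv hδ (1) e42 (by simp only [mul_assoc, mul_inv_rev, inv_inv, mul_inv_cancel_left, inv_mul_cancel_left, mul_inv_cancel, inv_mul_cancel, mul_one, one_mul, inv_one, C]) (by simp only [mul_assoc, mul_inv_rev, inv_inv, mul_inv_cancel_left, inv_mul_cancel_left, mul_inv_cancel, inv_mul_cancel, mul_one, one_mul, inv_one, C])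
  have k75 : o.lt (Q * g⁻¹) (Q * f⁻¹) ↔ o.lt (Q * g⁻¹) (Q * f⁻¹) := o.cv hδ (1) e20 (by simp only [mul_assoc, mul_inv_rev, inv_inv, mul_inv_cancel_left, inv_mul_cancel_left, mul_inv_cancel, inv_mul_cancel, mul_one, one_mul, inv_one, C]) (by simp only [mul_assoc, mul_inv_rev, inv_inv, mul_inv_cancel_left, inv_mul_cancel_left, mul_inv_cancel, inv_mul_cancel, mul_one, one_mul, inv_one, C])
  have k76 : o.lt (P * f⁻¹) (f * Q⁻¹) ↔ o.lt (P * Q⁻¹) (Q * f⁻¹) := o.cv hδ (f * Q⁻¹) e17 (by simp only [mul_assoc, mul_inv_rev, inv_inv, mul_inv_cancel_left, inv_mul_cancel_left, mul_inv_cancel, inv_mul_cancel, mul_one, one_mul, inv_one, C]) (by simp only [mul_assoc, mul_inv_rev, inv_inv, mul_inv_cancel_left, inv_mul_cancel_left, mul_inv_cancel, inv_mul_cancel, mul_one, one_mul, inv_one, C])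
  have k77 : o.lt (P * g⁻¹) (g * Q⁻¹) ↔ o.lt (P * Q⁻¹) (Q * g⁻¹) := o.cv hδ (g * Q⁻¹) e27 (by simp only [mul_assoc, mul_inv_rev, inv_inv, mul_inv_cancel_left, inv_mul_cancel_left, mul_inv_cancel, inv_mul_cancel, mul_one, one_mul, inv_one, C]) (by simp only [mul_assoc, mul_inv_rev, inv_inv, mul_inv_cancel_left, inv_mul_cancel_left, mul_inv_cancel, inv_mul_cancel, mul_one, one_mul, inv_one, C])
  have k78 : o.lt (x) (f) ↔ o.lt (x * P⁻¹) (f * P⁻¹) := o.cv hδ (P⁻¹) e18 (by simp only [mul_assoc, mul_inv_rev, inv_inv, mul_inv_cancel_left, inv_mul_cancel_left, mul_inv_cancel, inv_mul_cancel, mul_one, one_mul, inv_one, C]) (by simp only [mul_assoc, mul_inv_rev, inv_inv, mul_inv_cancel_left, inv_mul_cancel_left, mul_inv_cancel, inv_mul_cancel, mul_one, one_mul, inv_one, C])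
  have k79 : o.lt (x * P⁻¹) (x * (P⁻¹ * (x * f⁻¹))) ↔ o.lt (x * P⁻¹) (P * (x⁻¹ * (P * f⁻¹))) := o.cv hδ (1) e10 (by simp only [mul_assoc, mul_inv_rev, inv_inv, mul_inv_cancel_left, inv_mul_cancel_left, mul_inv_cancel, inv_mul_cancel, mul_one, one_mul, inv_one, C]) (by simp only [mul_assoc, mul_inv_rev, inv_inv, mul_inv_cancel_left, inv_mul_cancel_left, mul_inv_cancel, inv_mul_cancel, mul_one, one_mul, inv_one, C])
  have k80 : o.lt (P * (x⁻¹ * f)) (P) ↔ o.lt (P * (x⁻¹ * (P * f⁻¹))) (f * P⁻¹) := o.cv hδ (f⁻¹ * (P * f⁻¹)) e0 (by simp only [mul_assoc, mul_inv_rev, inv_inv, mul_inv_cancel_left, inv_mul_cancel_left, mul_inv_cancel, inv_mul_cancel, mul_one, one_mul, inv_one, C]) (by simp only [mul_assoc, mul_inv_rev, inv_inv, mul_inv_cancel_left, inv_mul_cancel_left, mul_inv_cancel, inv_mul_cancel, mul_one, one_mul, inv_one, C])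
  have k81 : o.lt (f * Q⁻¹) (g * Q⁻¹) ↔ o.lt (Q * f⁻¹) (g * (Q⁻¹ * (f * Q⁻¹))) := o.cv hδ (Q * (f⁻¹ * (Q * f⁻¹))) e35 (by simp only [mul_assoc, mul_inv_rev, inv_inv, mul_inv_cancel_left, inv_mul_cancel_left, mul_inv_cancel, inv_mul_cancel, mul_one, one_mul, inv_one, C]) (by simp only [mul_assoc, mul_inv_rev, inv_inv, mul_inv_cancel_left, inv_mul_cancel_left, mul_inv_cancel, inv_mul_cancel, mul_one, one_mul, inv_one, C])
  have k82 : o.lt (g * (Q⁻¹ * (f * Q⁻¹))) (Q * g⁻¹) ↔ o.lt (g * (Q⁻¹ * (f * Q⁻¹))) (Q * g⁻¹) := o.cv hδ (1) e46 (by simp only [mul_assoc, mul_inv_rev, inv_inv, mul_inv_cancel_left, inv_mul_cancel_left, mul_inv_cancel, inv_mul_cancel, mul_one, one_mul, inv_one, C]) (by simp only [mul_assoc, mul_inv_rev, inv_inv, mul_inv_cancel_left, inv_mul_cancel_left, mul_inv_cancel, inv_mul_cancel, mul_one, one_mul, inv_one, C])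
  have k83 : o.lt (Q * g⁻¹) (g * (Q⁻¹ * (f * Q⁻¹))) ↔ o.lt (Q * g⁻¹) (g * (Q⁻¹ * (f * Q⁻¹))) := o.cv hδ (1) e45 (by simp only [mul_assoc, mul_inv_rev, inv_inv, mul_inv_cancel_left, inv_mul_cancel_left, mul_inv_cancel, inv_mul_cancel, mul_one, one_mul, inv_one, C]) (by simp only [mul_assoc, mul_inv_rev, inv_inv, mul_inv_cancel_left, inv_mul_cancel_left, mul_inv_cancel, inv_mul_cancel, mul_one, one_mul, inv_one, C])
  have k84 : o.lt (g * Q⁻¹) (f * Q⁻¹) ↔ o.lt (g * (Q⁻¹ * (f * Q⁻¹))) (Q * f⁻¹) := o.cv hδ (f * Q⁻¹) e19 (by simp only [mul_assoc, mul_inv_rev, inv_inv, mul_inv_cancel_left, inv_mul_cancel_left, mul_inv_cancel, inv_mul_cancel, mul_one, one_mul, inv_one, C]) (by simp only [mul_assoc, mul_inv_rev, inv_inv, mul_inv_cancel_left, inv_mul_cancel_left, mul_inv_cancel, inv_mul_cancel, mul_one, one_mul, inv_one, C])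
  have k85 : o.lt (x * (P⁻¹ * (x * f⁻¹))) (P * (x⁻¹ * (f * Q⁻¹))) ↔ o.lt (P * (x⁻¹ * (P * f⁻¹))) (P * (x⁻¹ * (f * Q⁻¹))) := o.cv hδ (f * (x⁻¹ * (P * (x⁻¹ * (P * (x⁻¹ * (P * f⁻¹))))))) e1 (by simp only [mul_assoc, mul_inv_rev, inv_inv, mul_inv_cancel_left, inv_mul_cancel_left, mul_inv_cancel, inv_mul_cancel, mul_one, one_mul, inv_one, C]) (by simp only [mul_assoc, mul_inv_rev, inv_inv, mul_inv_cancel_left, inv_mul_cancel_left, mul_inv_cancel, inv_mul_cancel, mul_one, one_mul, inv_one, C])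
  have k86 : o.lt (P * (x⁻¹ * (f * Q⁻¹))) (x * (P⁻¹ * (x * f⁻¹))) ↔ o.lt (P * (x⁻¹ * (f * Q⁻¹))) (P * (x⁻¹ * (P * f⁻¹))) := o.cv hδ (1) e21 (by simp only [mul_assoc, mul_inv_rev, inv_inv, mul_inv_cancel_left, inv_mul_cancel_left, mul_inv_cancel, inv_mul_cancel, mul_one, one_mul, inv_one, C]) (by simp only [mul_assoc, mul_inv_rev, inv_inv, mul_inv_cancel_left, inv_mul_cancel_left, mul_inv_cancel, inv_mul_cancel, mul_one, one_mul, inv_one, C])
  have k87 : o.lt (P * (x⁻¹ * (Q * f⁻¹))) (1) ↔ o.lt (P * (x⁻¹ * (Q * f⁻¹))) (1) := o.cv hδ (1) e2 (by simp only [mul_assoc, mul_inv_rev, inv_inv, mul_inv_cancel_left, inv_mul_cancel_left, mul_inv_cancel, inv_mul_cancel, mul_one, one_mul, inv_one, C]) (by simp only [mul_assoc, mul_inv_rev, inv_inv, mul_inv_cancel_left, inv_mul_cancel_left, mul_inv_cancel, inv_mul_cancel, mul_one, one_mul, inv_one, C])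
  have k88 : o.lt (P * (x⁻¹ * (f * Q⁻¹))) (x * (P⁻¹ * (x * f⁻¹))) ↔ o.lt (P * (x⁻¹ * (Q * f⁻¹))) (P * (x⁻¹ * (P * Q⁻¹))) := o.cv hδ (Q * (f⁻¹ * (Q * f⁻¹))) e21 (by simp only [mul_assoc, mul_inv_rev, inv_inv, mul_inv_cancel_left, inv_mul_cancel_left, mul_inv_cancel, inv_mul_cancel, mul_one, one_mul, inv_one, C]) (by simp only [mul_assoc, mul_inv_rev, inv_inv, mul_inv_cancel_left, inv_mul_cancel_left, mul_inv_cancel, inv_mul_cancel, mul_one, one_mul, inv_one, C])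
  have k89 : o.lt (P * x⁻¹) (Q * P⁻¹) ↔ o.lt (P * (x⁻¹ * (P * Q⁻¹))) (1) := o.cv hδ (P * Q⁻¹) e3 (by simp only [mul_assoc, mul_inv_rev, inv_inv, mul_inv_cancel_left, inv_mul_cancel_left, mul_inv_cancel, inv_mul_cancel, mul_one, one_mul, inv_one, C]) (by simp only [mul_assoc, mul_inv_rev, inv_inv, mul_inv_cancel_left, inv_mul_cancel_left, mul_inv_cancel, inv_mul_cancel, mul_one, one_mul, inv_one, C])
  have k90 : o.lt (x * (P⁻¹ * (x * f⁻¹))) (P * (x⁻¹ * (f * Q⁻¹))) ↔ o.lt (P * (x⁻¹ * (P * Q⁻¹))) (P * (x⁻¹ * (Q * f⁻¹))) := o.cv hδ (f * (x⁻¹ * (P * (x⁻¹ * (P * (x⁻¹ * (P * Q⁻¹))))))) e1 (by simp only [mul_assoc, mul_inv_rev, inv_inv, mul_inv_cancel_left, inv_mul_cancel_left, mul_inv_cancel, inv_mul_cancel, mul_one, one_mul, inv_one, C]) (by simp only [mul_assoc, mul_inv_rev, inv_inv, mul_inv_cancel_left, inv_mul_cancel_left, mul_inv_cancel, inv_mul_cancel, mul_one, one_mul, inv_one, C])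
  have k91 : o.lt (f * Q⁻¹) (P * x⁻¹) ↔ o.lt (1) (P * (x⁻¹ * (Q * f⁻¹))) := o.cv hδ (Q * f⁻¹) e5 (by simp only [mul_assoc, mul_inv_rev, inv_inv, mul_inv_cancel_left, inv_mul_cancel_left, mul_inv_cancel, inv_mul_cancel, mul_one, one_mul, inv_one, C]) (by simp only [mul_assoc, mul_inv_rev, inv_inv, mul_inv_cancel_left, inv_mul_cancel_left, mul_inv_cancel, inv_mul_cancel, mul_one, one_mul, inv_one, C])
  have k92 : o.lt (f * (Q⁻¹ * (P * x⁻¹))) (f * P⁻¹) ↔ o.lt (f * (Q⁻¹ * (P * x⁻¹))) (f * P⁻¹) := o.cv hδ (1) e30 (by simp only [mul_assoc, mul_inv_rev, inv_inv, mul_inv_cancel_left, inv_mul_cancel_left, mul_inv_cancel, inv_mul_cancel, mul_one, one_mul, inv_one, C]) (by simp only [mul_assoc, mul_inv_rev, inv_inv, mul_inv_cancel_left, inv_mul_cancel_left, mul_inv_cancel, inv_mul_cancel, mul_one, one_mul, inv_one, C])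
  have k93 : o.lt (f * (Q⁻¹ * (P * x⁻¹))) (f * (Q⁻¹ * (P * f⁻¹))) ↔ o.lt (f * (Q⁻¹ * (P * x⁻¹))) (f * (Q⁻¹ * (P * f⁻¹))) := o.cv hδ (1) e31 (by simp only [mul_assoc, mul_inv_rev, inv_inv, mul_inv_cancel_left, inv_mul_cancel_left, mul_inv_cancel, inv_mul_cancel, mul_one, one_mul, inv_one, C]) (by simp only [mul_assoc, mul_inv_rev, inv_inv, mul_inv_cancel_left, inv_mul_cancel_left, mul_inv_cancel, inv_mul_cancel, mul_one, one_mul, inv_one, C])
  have k94 : o.lt (f * Q⁻¹) (P * f⁻¹) ↔ o.lt (f * (Q⁻¹ * (P * f⁻¹))) (f * P⁻¹) := o.cv hδ (P * f⁻¹) e13 (by simp only [mul_assoc, mul_inv_rev, inv_inv, mul_inv_cancel_left, inv_mul_cancel_left, mul_inv_cancel, inv_mul_cancel, mul_one, one_mul, inv_one, C]) (by simp only [mul_assoc, mul_inv_rev, inv_inv, mul_inv_cancel_left, inv_mul_cancel_left, mul_inv_cancel, inv_mul_cancel, mul_one, one_mul, inv_one, C])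
  have k95 : o.lt (f * (Q⁻¹ * f)) (f * (Q⁻¹ * x)) ↔ o.lt (f * (Q⁻¹ * (f * P⁻¹))) (f * (Q⁻¹ * (x * P⁻¹))) := o.cv hδ (P⁻¹) e28 (by simp only [mul_assoc, mul_inv_rev, inv_inv, mul_inv_cancel_left, inv_mul_cancel_left, mul_inv_cancel, inv_mul_cancel, mul_one, one_mul, inv_one, C]) (by simp only [mul_assoc, mul_inv_rev, inv_inv, mul_inv_cancel_left, inv_mul_cancel_left, mul_inv_cancel, inv_mul_cancel, mul_one, one_mul, inv_one, C])
  have k96 : o.lt (f * Q⁻¹) (P * f⁻¹) ↔ o.lt (f * (Q⁻¹ * (f * P⁻¹))) (1) := o.cv hδ (f * P⁻¹) e13 (by simp only [mul_assoc, mul_inv_rev, inv_inv, mul_inv_cancel_left, inv_mul_cancel_left, mul_inv_cancel, inv_mul_cancel, mul_one, one_mul, inv_one, C]) (by simp only [mul_assoc, mul_inv_rev, inv_inv, mul_inv_cancel_left, inv_mul_cancel_left, mul_inv_cancel, inv_mul_cancel, mul_one, one_mul, inv_one, C])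
  have k97 : o.lt (P * (x⁻¹ * (Q * f⁻¹))) (1) ↔ o.lt (1) (f * (Q⁻¹ * (x * P⁻¹))) := o.cv hδ (f * (Q⁻¹ * (x * P⁻¹))) e2 (by simp only [mul_assoc, mul_inv_rev, inv_inv, mul_inv_cancel_left, inv_mul_cancel_left, mul_inv_cancel, inv_mul_cancel, mul_one, one_mul, inv_one, C]) (by simp only [mul_assoc, mul_inv_rev, inv_inv, mul_inv_cancel_left, inv_mul_cancel_left, mul_inv_cancel, inv_mul_cancel, mul_one, one_mul, inv_one, C])
  have k98 : o.lt (f * Q⁻¹) (P * x⁻¹) ↔ o.lt (f * (Q⁻¹ * (x * P⁻¹))) (1) := o.cv hδ (x * P⁻¹) e5 (by simp only [mul_assoc, mul_inv_rev, inv_inv, mul_inv_cancel_left, inv_mul_cancel_left, mul_inv_cancel, inv_mul_cancel, mul_one, one_mul, inv_one, C]) (by simp only [mul_assoc, mul_inv_rev, inv_inv, mul_inv_cancel_left, inv_mul_cancel_left, mul_inv_cancel, inv_mul_cancel, mul_one, one_mul, inv_one, C])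
  have k99 : o.lt (f * (Q⁻¹ * (P * x⁻¹))) (f * P⁻¹) ↔ o.lt (f * (Q⁻¹ * (x * P⁻¹))) (f * x⁻¹) := o.cv hδ (x * (P⁻¹ * (x * P⁻¹))) e30 (by simp only [mul_assoc, mul_inv_rev, inv_inv, mul_inv_cancel_left, inv_mul_cancel_left, mul_inv_cancel, inv_mul_cancel, mul_one, one_mul, inv_one, C]) (by simp only [mul_assoc, mul_inv_rev, inv_inv, mul_inv_cancel_left, inv_mul_cancel_left, mul_inv_cancel, inv_mul_cancel, mul_one, one_mul, inv_one, C])
  have k100 : o.lt (f * Q⁻¹) (x * Q⁻¹) ↔ o.lt (f * x⁻¹) (1) := o.cv hδ (Q * x⁻¹) e9 (by simp only [mul_assoc, mul_inv_rev, inv_inv, mul_inv_cancel_left, inv_mul_cancel_left, mul_inv_cancel, inv_mul_cancel, mul_one, one_mul, inv_one, C]) (by simp only [mul_assoc, mul_inv_rev, inv_inv, mul_inv_cancel_left, inv_mul_cancel_left, mul_inv_cancel, inv_mul_cancel, mul_one, one_mul, inv_one, C])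
  have k101 : o.lt (f * (Q⁻¹ * (g * P⁻¹))) (f * (Q⁻¹ * (x * P⁻¹))) ↔ o.lt (f * (Q⁻¹ * (g * P⁻¹))) (f * (Q⁻¹ * (x * P⁻¹))) := o.cv hδ (1) e34 (by simp only [mul_assoc, mul_inv_rev, inv_inv, mul_inv_cancel_left, inv_mul_cancel_left, mul_inv_cancel, inv_mul_cancel, mul_one, one_mul, inv_one, C]) (by simp only [mul_assoc, mul_inv_rev, inv_inv, mul_inv_cancel_left, inv_mul_cancel_left, mul_inv_cancel, inv_mul_cancel, mul_one, one_mul, inv_one, C])
  have k102 : o.lt (f * Q⁻¹) (P * g⁻¹) ↔ o.lt (f * (Q⁻¹ * (g * P⁻¹))) (1) := o.cv hδ (g * P⁻¹) e33 (by simp only [mul_assoc, mul_inv_rev, inv_inv, mul_inv_cancel_left, inv_mul_cancel_left, mul_inv_cancel, inv_mul_cancel, mul_one, one_mul, inv_one, C]) (by simp only [mul_assoc, mul_inv_rev, inv_inv, mul_inv_cancel_left, inv_mul_cancel_left, mul_inv_cancel, inv_mul_cancel, mul_one, one_mul, inv_one, C])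
  have k103 : o.lt (f * g⁻¹) (f * (Q⁻¹ * (x * P⁻¹))) ↔ o.lt (f * g⁻¹) (f * (Q⁻¹ * (x * P⁻¹))) := o.cv hδ (1) e36 (by simp only [mul_assoc, mul_inv_rev, inv_inv, mul_inv_cancel_left, inv_mul_cancel_left, mul_inv_cancel, inv_mul_cancel, mul_one, one_mul, inv_one, C]) (by simp only [mul_assoc, mul_inv_rev, inv_inv, mul_inv_cancel_left, inv_mul_cancel_left, mul_inv_cancel, inv_mul_cancel, mul_one, one_mul, inv_one, C])
  have k104 : o.lt (f * Q⁻¹) (g * Q⁻¹) ↔ o.lt (f * g⁻¹) (1) := o.cv hδ (Q * g⁻¹) e35 (by simp only [mul_assoc, mul_inv_rev, inv_inv, mul_inv_cancel_left, inv_mul_cancel_left, mul_inv_cancel, inv_mul_cancel, mul_one, one_mul, inv_one, C]) (by simp only [mul_assoc, mul_inv_rev, inv_inv, mul_inv_cancel_left, inv_mul_cancel_left, mul_inv_cancel, inv_mul_cancel, mul_one, one_mul, inv_one, C])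
  have k105 : o.lt (Q * f⁻¹) (g * P⁻¹) ↔ o.lt ((f * Q⁻¹)⁻¹) ((P * g⁻¹)⁻¹) := o.cv hδ (1) e39 (by simp only [mul_assoc, mul_inv_rev, inv_inv, mul_inv_cancel_left, inv_mul_cancel_left, mul_inv_cancel, inv_mul_cancel, mul_one, one_mul, inv_one, C]) (by simp only [mul_assoc, mul_inv_rev, inv_inv, mul_inv_cancel_left, inv_mul_cancel_left, mul_inv_cancel, inv_mul_cancel, mul_one, one_mul, inv_one, C])
  have k106 : o.lt (g * Q⁻¹) (f * Q⁻¹) ↔ o.lt (g) (f) := o.cv hδ (Q) e19 (by simp only [mul_assoc, mul_inv_rev, inv_inv, mul_inv_cancel_left, inv_mul_cancel_left, mul_inv_cancel, inv_mul_cancel, mul_one, one_mul, inv_one, C]) (by simp only [mul_assoc, mul_inv_rev, inv_inv, mul_inv_cancel_left, inv_mul_cancel_left, mul_inv_cancel, inv_mul_cancel, mul_one, one_mul, inv_one, C])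
  exact par_BAC_1_prop
    (fun b0 b1 b2 b3 => N0.i.r0 1 (fun h => b0 (k0.2 h)) (fun h => b1 (k1.2 h)) (k2.1 b2) (fun h => b3 (k3.2 h)))
    (fun b0 b1 b2 b3 => N0.i.r1 1 (fun h => b0 (k2.2 h)) (k4.1 b1) (fun h => b2 (k5.2 h)) (fun h => b3 (k3.2 h)))
    (fun b0 b1 b2 b3 => N0.rd.r0 1 (fun h => b0 (k6.2 h)) (fun h => b1 (k7.2 h)) (k8.1 b2) (fun h => b3 (k3.2 h)))
    (fun b0 b1 b2 => N1.rd.r1 1 (fun h => b0 (k9.2 h)) (fun h => b1 (k10.2 h)) (k11.1 b2))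
    (fun b0 b1 b2 => N1.r.r0 1 (fun h => b0 (k12.2 h)) (k10.1 b1) (fun h => b2 (k13.2 h)))
    (fun b0 b1 b2 => N1.r.r1 1 (fun h => b0 (k14.2 h)) (fun h => b1 (k15.2 h)) (k13.1 b2))
    (fun b0 b1 b2 => N1.rd.r0 1 (fun h => b0 (k16.2 h)) (k15.1 b1) (fun h => b2 (k11.2 h)))
    (fun b0 b1 b2 => N1.d.r0 1 (fun h => b0 (k17.2 h)) (k18.1 b1) (fun h => b2 (k19.2 h)))
    (fun b0 b1 b2 b3 => N0.d.r0 (P * x⁻¹) (fun h => b0 (k20.2 h)) (fun h => b1 (k21.2 h)) (k22.1 b2) (fun h => b3 (k23.2 h)))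
    (fun b0 b1 b2 b3 => N0.d.r0 (f * Q⁻¹) (fun h => b0 (k24.2 h)) (fun h => b1 (k25.2 h)) (k26.1 b2) (fun h => b3 (k27.2 h)))
    (fun b0 b1 b2 => N1.rd.r1 (f * Q⁻¹) (fun h => b0 (k28.2 h)) (fun h => b1 (k29.2 h)) (k30.1 b2))
    (fun b0 b1 b2 => o.tri (k31.1 b0) (fun h => b1 (k32.2 h)) (fun h => b2 (k33.2 h)))
    (fun b0 b1 b2 => o.tri (k34.1 b0) (fun h => b1 (k35.2 h)) (fun h => b2 (k36.2 h)))
    (fun b0 b1 => o.asym (k37.1 b0) (k38.1 b1))
    (fun b0 b1 b2 => o.tri (k39.1 b0) (fun h => b1 (k35.2 h)) (fun h => b2 (k40.2 h)))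
    (fun b0 b1 => o.asym (k35.1 b0) (k41.1 b1))
    (fun b0 b1 b2 => o.tri (k42.1 b0) (fun h => b1 (k43.2 h)) (fun h => b2 (k34.2 h)))
    (fun b0 b1 b2 => o.tri (k43.1 b0) (fun h => b1 (k44.2 h)) (fun h => b2 (k45.2 h)))
    (fun b0 b1 b2 => o.tri (k46.1 b0) (fun h => b1 (k44.2 h)) (fun h => b2 (k47.2 h)))
    (fun b0 b1 b2 => o.tri (k48.1 b0) (fun h => b1 (k44.2 h)) (fun h => b2 (k49.2 h)))
    (fun b0 b1 b2 => o.tri (k50.1 b0) (fun h => b1 (k48.2 h)) (fun h => b2 (k51.2 h)))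
    (fun b0 b1 b2 => o.tri (k33.1 b0) (fun h => b1 (k52.2 h)) (fun h => b2 (k53.2 h)))
    (fun b0 b1 => o.asym (k52.1 b0) (k47.1 b1))
    (fun b0 b1 b2 => o.tri (k52.1 b0) (fun h => b1 (k33.2 h)) (fun h => b2 (k44.2 h)))
    (fun b0 b1 => o.asym (k54.1 b0) (k49.1 b1))
    (fun b0 b1 b2 => o.tri (k41.1 b0) (fun h => b1 (k36.2 h)) (fun h => b2 (k55.2 h)))
    (fun b0 b1 => o.asym (k56.1 b0) (k57.1 b1))
    (fun b0 b1 b2 => o.tri (k58.1 b0) (fun h => b1 (k56.2 h)) (fun h => b2 (k59.2 h)))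
    (fun b0 b1 b2 => o.tri (k60.1 b0) (fun h => b1 (k61.2 h)) (fun h => b2 (k62.2 h)))
    (fun b0 b1 b2 => o.tri (k63.1 b0) (fun h => b1 (k64.2 h)) (fun h => b2 (k65.2 h)))
    (fun b0 b1 b2 => o.tri (k66.1 b0) (fun h => b1 (k64.2 h)) (fun h => b2 (k67.2 h)))
    (fun b0 b1 b2 => o.tri (k66.1 b0) (fun h => b1 (k68.2 h)) (fun h => b2 (k59.2 h)))
    (fun b0 b1 b2 => o.tri (k69.1 b0) (fun h => b1 (k65.2 h)) (fun h => b2 (k56.2 h)))
    (fun b0 b1 b2 => o.tri (k70.1 b0) (fun h => b1 (k71.2 h)) (fun h => b2 (k56.2 h)))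
    (fun b0 b1 b2 => o.tri (k72.1 b0) (fun h => b1 (k59.2 h)) (fun h => b2 (k73.2 h)))
    (fun b0 b1 b2 => o.tri (k74.1 b0) (fun h => b1 (k75.2 h)) (fun h => b2 (k61.2 h)))
    (fun b0 b1 b2 => o.tri (k73.1 b0) (fun h => b1 (k76.2 h)) (fun h => b2 (k64.2 h)))
    (fun b0 b1 b2 => o.tri (k77.1 b0) (fun h => b1 (k73.2 h)) (fun h => b2 (k69.2 h)))
    (fun b0 b1 b2 => o.tri (k78.1 b0) (fun h => b1 (k79.2 h)) (fun h => b2 (k80.2 h)))
    (fun b0 b1 b2 => o.tri (k68.1 b0) (fun h => b1 (k81.2 h)) (fun h => b2 (k82.2 h)))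
    (fun b0 b1 b2 => o.tri (k75.1 b0) (fun h => b1 (k83.2 h)) (fun h => b2 (k84.2 h)))
    (fun b0 b1 => o.asym (k83.1 b0) (k82.1 b1))
    (fun b0 b1 => o.asym (k85.1 b0) (k86.1 b1))
    (fun b0 b1 b2 => o.tri (k87.1 b0) (fun h => b1 (k88.2 h)) (fun h => b2 (k89.2 h)))
    (fun b0 b1 b2 => o.tri (k90.1 b0) (fun h => b1 (k89.2 h)) (fun h => b2 (k91.2 h)))
    (fun b0 b1 b2 => o.tri (k92.1 b0) (fun h => b1 (k93.2 h)) (fun h => b2 (k94.2 h)))
    (fun b0 b1 b2 => o.tri (k95.1 b0) (fun h => b1 (k96.2 h)) (fun h => b2 (k97.2 h)))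
    (fun b0 b1 b2 => o.tri (k98.1 b0) (fun h => b1 (k99.2 h)) (fun h => b2 (k100.2 h)))
    (fun b0 b1 b2 => o.tri (k101.1 b0) (fun h => b1 (k102.2 h)) (fun h => b2 (k97.2 h)))
    (fun b0 b1 b2 => o.tri (k103.1 b0) (fun h => b1 (k104.2 h)) (fun h => b2 (k97.2 h)))
    (k54.2 g0)
    (fun h => g1 (k44.1 h))
    (fun h => g2 (k105.1 h))
    (fun h => g3 (k106.1 h))

theorem par_BAC_2_prop {A1 A2 A3 A4 A5 A6 A7 A8 A9 A10 A11 A12 A13 A14 A15 A16 A17 A18 A19 A20 A21 A22 A23 A24 A25 A26 A27 A28 A29 A30 A31 A32 A33 A34 A35 A36 A37 A38 A39 A40 A41 A42 A43 : Prop}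
    (c0 : ¬ A14 → ¬ A7 → A5 → ¬ A18 → False)
    (c1 : ¬ A5 → A24 → ¬ A13 → ¬ A18 → False)
    (c2 : ¬ A15 → ¬ A16 → A21 → False)
    (c3 : ¬ A42 → A16 → ¬ A7 → False)
    (c4 : ¬ A25 → ¬ A26 → A7 → False)
    (c5 : ¬ A43 → A26 → ¬ A21 → False)
    (c6 : ¬ A8 → A23 → ¬ A40 → False)
    (c7 : ¬ A2 → ¬ A12 → A11 → ¬ A1 → False)
    (c8 : ¬ A8 → ¬ A9 → A22 → False)
    (c9 : ¬ A28 → ¬ A31 → A30 → ¬ A27 → False)
    (c10 : ¬ A29 → ¬ A14 → A10 → ¬ A27 → False)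
    (c11 : ¬ A35 → ¬ A36 → A31 → False)
    (c12 : ¬ A32 → A36 → ¬ A33 → False)
    (c13 : A5 → A1 → False)
    (c14 : A38 → A41 → False)
    (c15 : A38 → ¬ A5 → ¬ A23 → False)
    (c16 : A3 → ¬ A21 → ¬ A18 → False)
    (c17 : A21 → A7 → False)
    (c18 : A14 → ¬ A34 → ¬ A39 → False)
    (c19 : A28 → ¬ A34 → ¬ A40 → False)
    (c20 : A7 → ¬ A18 → ¬ A6 → False)
    (c21 : A18 → ¬ A25 → ¬ A19 → False)
    (c22 : A25 → A15 → False)
    (c23 : A8 → ¬ A39 → ¬ A5 → False)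
    (c24 : A9 → ¬ A41 → ¬ A5 → False)
    (c25 : A15 → ¬ A41 → ¬ A24 → False)
    (c26 : A17 → ¬ A19 → ¬ A34 → False)
    (c27 : A4 → ¬ A26 → ¬ A43 → False)
    (c28 : A26 → A16 → False)
    (c29 : A12 → ¬ A26 → ¬ A17 → False)
    (c30 : A13 → ¬ A14 → ¬ A22 → False)
    (c31 : A42 → A43 → False)
    (c32 : A40 → ¬ A15 → ¬ A26 → False)
    (c33 : A43 → ¬ A17 → ¬ A21 → False)
    (c34 : A18 → ¬ A11 → ¬ A1 → False)
    (c35 : A2 → A20 → False)
    (c36 : A3 → ¬ A20 → ¬ A4 → False)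
    (c37 : A2 → ¬ A4 → ¬ A6 → False)
    (c38 : A31 → A33 → False)
    (c39 : A29 → ¬ A30 → ¬ A14 → False)
    (c40 : A27 → ¬ A14 → ¬ A3 → False)
    (c41 : A6 → ¬ A29 → ¬ A10 → False)
    (c42 : A18 → ¬ A19 → ¬ A37 → False)
    (c43 : A32 → A37 → False)
    (c44 : A35 → ¬ A34 → ¬ A3 → False)
    (c45 : A31 → ¬ A28 → ¬ A18 → False)
    (u0 : ¬ A39)
    (u1 : A38)
    (u2 : ¬ A34)
    (u3 : ¬ A19)
    : False := by
  have q1 : ¬ A41 := fun h => c14 u1 h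
  have q2 : ¬ A14 := fun h => c18 h u2 u0
  have q3 : ¬ A17 := fun h => c26 h u3 u2
  rcases Classical.em A5 with q4 | q4
  · have q5 : ¬ A1 := fun h => c13 q4 h
    rcases Classical.em A18 with q6 | q6
    · have q7 : A25 := Classical.byContradiction fun h => c21 q6 h u3
      have q8 : ¬ A15 := fun h => c22 q7 h
      have q9 : A11 := Classical.byContradiction fun h => c34 q6 h q5
      have q10 : A37 := Classical.byContradiction fun h => c42 q6 u3 h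
      have q11 : ¬ A32 := fun h => c43 h q10
      rcases Classical.em A26 with q12 | q12
      · have q13 : ¬ A16 := fun h => c28 q12 h
        have q14 : ¬ A21 := fun h => c2 q8 q13 h
        have q15 : A43 := Classical.byContradiction fun h => c5 h q12 q14
        exact c33 q15 q3 q14
      · have q16 : ¬ A12 := fun h => c29 h q12 q3
        have q17 : A2 := Classical.byContradiction fun h => c7 h q16 q9 q5
        have q18 : ¬ A40 := fun h => c32 h q8 q12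
        have q19 : ¬ A28 := fun h => c19 h u2 q18
        have q20 : ¬ A20 := fun h => c35 q17 h
        rcases Classical.em A3 with q21 | q21
        · have q22 : A4 := Classical.byContradiction fun h => c36 q21 q20 h
          have q23 : A43 := Classical.byContradiction fun h => c27 q22 q12 h
          have q24 : ¬ A42 := fun h => c31 h q23
          have q25 : A21 := Classical.byContradiction fun h => c33 q23 q3 h
          have q26 : A16 := Classical.byContradiction fun h => c2 q8 h q25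
          have q27 : A7 := Classical.byContradiction fun h => c3 q24 q26 h
          exact c17 q25 q27
        · have q28 : ¬ A27 := fun h => c40 h q2 q21
          have q29 : ¬ A35 := fun h => c44 h u2 q21
          rcases Classical.em A21 with q30 | q30
          · have q31 : A16 := Classical.byContradiction fun h => c2 q8 h q30
            have q32 : ¬ A7 := fun h => c17 q30 h
            have q33 : A42 := Classical.byContradiction fun h => c3 h q31 q32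
            have q34 : ¬ A43 := fun h => c31 q33 h
            have q35 : ¬ A4 := fun h => c27 h q12 q34
            have q36 : A6 := Classical.byContradiction fun h => c37 q17 q35 h
            rcases Classical.em A29 with q37 | q37
            · have q38 : A30 := Classical.byContradiction fun h => c39 q37 h q2
              have q39 : A31 := Classical.byContradiction fun h => c9 q19 h q38 q28
              have q40 : A36 := Classical.byContradiction fun h => c11 q29 h q39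
              have q41 : A33 := Classical.byContradiction fun h => c12 q11 q40 h
              exact c38 q39 q41
            · have q42 : ¬ A10 := fun h => c10 q37 q2 h q28
              exact c41 q36 q37 q42
          · have q43 : ¬ A43 := fun h => c33 h q3 q30
            have q44 : ¬ A4 := fun h => c27 h q12 q43
            have q45 : A6 := Classical.byContradiction fun h => c37 q17 q44 h
            rcases Classical.em A29 with q46 | q46
            · have q47 : A30 := Classical.byContradiction fun h => c39 q46 h q2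
              have q48 : A31 := Classical.byContradiction fun h => c9 q19 h q47 q28
              have q49 : A36 := Classical.byContradiction fun h => c11 q29 h q48
              have q50 : A33 := Classical.byContradiction fun h => c12 q11 q49 h
              exact c38 q48 q50
            · have q51 : ¬ A10 := fun h => c10 q46 q2 h q28
              exact c41 q45 q46 q51
    · have q52 : A7 := Classical.byContradiction fun h => c0 q2 h q4 q6
      have q53 : ¬ A21 := fun h => c17 h q52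
      have q54 : ¬ A3 := fun h => c16 h q53 q6
      have q55 : A6 := Classical.byContradiction fun h => c20 q52 q6 h
      have q56 : ¬ A43 := fun h => c33 h q3 q53
      have q57 : ¬ A26 := fun h => c5 q56 h q53
      have q58 : A25 := Classical.byContradiction fun h => c4 h q57 q52
      have q59 : ¬ A15 := fun h => c22 q58 h
      have q60 : ¬ A4 := fun h => c27 h q57 q56
      have q61 : ¬ A12 := fun h => c29 h q57 q3
      have q62 : ¬ A40 := fun h => c32 h q59 q57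
      have q63 : ¬ A28 := fun h => c19 h u2 q62
      have q64 : ¬ A27 := fun h => c40 h q2 q54
      have q65 : ¬ A35 := fun h => c44 h u2 q54
      have q66 : ¬ A31 := fun h => c45 h q63 q6
      have q67 : ¬ A30 := fun h => c9 q63 q66 h q64
      have q68 : ¬ A29 := fun h => c39 h q67 q2
      have q69 : ¬ A10 := fun h => c10 q68 q2 h q64
      exact c41 q55 q68 q69
  · have q70 : A23 := Classical.byContradiction fun h => c15 u1 q4 h
    have q71 : ¬ A8 := fun h => c23 h u0 q4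
    have q72 : A40 := Classical.byContradiction fun h => c6 q71 q70 h
    have q73 : ¬ A9 := fun h => c24 h q1 q4
    have q74 : ¬ A22 := fun h => c8 q71 q73 h
    have q75 : ¬ A13 := fun h => c30 h q2 q74
    rcases Classical.em A18 with q76 | q76
    · have q77 : A25 := Classical.byContradiction fun h => c21 q76 h u3
      have q78 : ¬ A15 := fun h => c22 q77 h
      have q79 : A26 := Classical.byContradiction fun h => c32 q72 q78 h
      have q80 : ¬ A16 := fun h => c28 q79 h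
      have q81 : ¬ A21 := fun h => c2 q78 q80 h
      have q82 : A43 := Classical.byContradiction fun h => c5 h q79 q81
      exact c33 q82 q3 q81
    · have q83 : ¬ A24 := fun h => c1 q4 h q75 q76
      have q84 : ¬ A15 := fun h => c25 h q1 q83
      have q85 : A26 := Classical.byContradiction fun h => c32 q72 q84 h
      have q86 : ¬ A16 := fun h => c28 q85 h
      have q87 : ¬ A21 := fun h => c2 q84 q86 h
      have q88 : A43 := Classical.byContradiction fun h => c5 h q85 q87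
      exact c33 q88 q3 q87

theorem par_BAC_2 {G : Type*} [Group G] {δ : G → ZMod 3} (hδ : ∀ u v, δ (u * v) = δ u + δ v) (o : Pre δ)
    {P Q f x g : G} {e : ZMod 3} (h3 : 3 * e = 0)
    (D : δ P = e ∧ δ Q = -e ∧ δ f = 0 ∧ δ x = 0 ∧ δ g = 0)
    (C : Cube P f ∧ Cube P x ∧ Cube P g ∧ Cube Q f ∧ Cube Q x ∧ Cube Q g)
    (N0 : RB o P Q f x)
    (N1 : RA o P Q x g)
    (g0 : ¬ o.lt (P * g⁻¹) (P * f⁻¹)) (g1 : o.lt (P * f⁻¹) (g * Q⁻¹)) (g2 : ¬ o.lt (f * Q⁻¹) (P * g⁻¹)) (g3 : ¬ o.lt (g) (f)) : False := by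
  simp only [Cube] at C
  have e0 : δ (P * (x⁻¹ * f)) = δ (P) := by simp only [hδ, δinv hδ, δone hδ, D] <;> linear_combination (0) * h3
  have e1 : δ (x * (P⁻¹ * (x * f⁻¹))) = δ (P * (x⁻¹ * (f * Q⁻¹))) := by simp only [hδ, δinv hδ, δone hδ, D] <;> linear_combination (-1) * h3
  have e2 : δ (P * x⁻¹) = δ (f * Q⁻¹) := by simp only [hδ, δinv hδ, δone hδ, D] <;> linear_combination (0) * h3
  have e3 : δ (x * P⁻¹) = δ (Q * x⁻¹) := by simp only [hδ, δinv hδ, δone hδ, D] <;> linear_combination (0) * h3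
  have e4 : δ (P * f⁻¹) = δ (P * x⁻¹) := by simp only [hδ, δinv hδ, δone hδ, D] <;> linear_combination (0) * h3
  have e5 : δ (f * Q⁻¹) = δ (P * x⁻¹) := by simp only [hδ, δinv hδ, δone hδ, D] <;> linear_combination (0) * h3
  have e6 : δ (x * Q⁻¹) = δ (P * x⁻¹) := by simp only [hδ, δinv hδ, δone hδ, D] <;> linear_combination (0) * h3
  have e7 : δ (P * g⁻¹) = δ (P * x⁻¹) := by simp only [hδ, δinv hδ, δone hδ, D] <;> linear_combination (0) * h3
  have e8 : δ (1) = δ (P * (x⁻¹ * (Q * g⁻¹))) := by simp only [hδ, δinv hδ, δone hδ, D] <;> linear_combination (0) * h3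
  have e9 : δ (f * x⁻¹) = δ (1) := by simp only [hδ, δinv hδ, δone hδ, D] <;> linear_combination (0) * h3
  have e10 : δ (x * P⁻¹) = δ (x * (P⁻¹ * (x * f⁻¹))) := by simp only [hδ, δinv hδ, δone hδ, D] <;> linear_combination (0) * h3
  have e11 : δ (x * P⁻¹) = δ (P * Q⁻¹) := by simp only [hδ, δinv hδ, δone hδ, D] <;> linear_combination (-1) * h3
  have e12 : δ (Q * f⁻¹) = δ (x * P⁻¹) := by simp only [hδ, δinv hδ, δone hδ, D] <;> linear_combination (0) * h3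
  have e13 : δ (f * Q⁻¹) = δ (P * f⁻¹) := by simp only [hδ, δinv hδ, δone hδ, D] <;> linear_combination (0) * h3
  have e14 : δ (g * P⁻¹) = δ (x * P⁻¹) := by simp only [hδ, δinv hδ, δone hδ, D] <;> linear_combination (0) * h3
  have e15 : δ (Q * g⁻¹) = δ (x * P⁻¹) := by simp only [hδ, δinv hδ, δone hδ, D] <;> linear_combination (0) * h3
  have e16 : δ (g * Q⁻¹) = δ (P * g⁻¹) := by simp only [hδ, δinv hδ, δone hδ, D] <;> linear_combination (0) * h3
  have e17 : δ (x) = δ (f) := by simp only [hδ, δinv hδ, δone hδ, D] <;> linear_combination (0) * h3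
  have e18 : δ (g * Q⁻¹) = δ (f * Q⁻¹) := by simp only [hδ, δinv hδ, δone hδ, D] <;> linear_combination (0) * h3
  have e19 : δ (P * (x⁻¹ * (f * Q⁻¹))) = δ (x * (P⁻¹ * (x * f⁻¹))) := by simp only [hδ, δinv hδ, δone hδ, D] <;> linear_combination (1) * h3
  have e20 : δ (P * x⁻¹) = δ (x * Q⁻¹) := by simp only [hδ, δinv hδ, δone hδ, D] <;> linear_combination (0) * h3
  have e21 : δ (P * Q⁻¹) = δ (x * P⁻¹) := by simp only [hδ, δinv hδ, δone hδ, D] <;> linear_combination (1) * h3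
  have e22 : δ (P * x⁻¹) = δ (g * Q⁻¹) := by simp only [hδ, δinv hδ, δone hδ, D] <;> linear_combination (0) * h3
  have e23 : δ (P * f⁻¹) = δ (x * Q⁻¹) := by simp only [hδ, δinv hδ, δone hδ, D] <;> linear_combination (0) * h3
  have e24 : δ (x * P⁻¹) = δ (g * P⁻¹) := by simp only [hδ, δinv hδ, δone hδ, D] <;> linear_combination (0) * h3
  have e25 : δ (x * P⁻¹) = δ (Q * g⁻¹) := by simp only [hδ, δinv hδ, δone hδ, D] <;> linear_combination (0) * h3
  have e26 : δ (f * (Q⁻¹ * f)) = δ (f * (Q⁻¹ * x)) := by simp only [hδ, δinv hδ, δone hδ, D] <;> linear_combination (0) * h3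
  have e27 : δ (f * (Q⁻¹ * (P * f⁻¹))) = δ (Q * f⁻¹) := by simp only [hδ, δinv hδ, δone hδ, D] <;> linear_combination (1) * h3
  have e28 : δ (f * (Q⁻¹ * (x * P⁻¹))) = δ (f * x⁻¹) := by simp only [hδ, δinv hδ, δone hδ, D] <;> linear_combination (0) * h3
  have e29 : δ (f * (Q⁻¹ * (P * x⁻¹))) = δ (f * (Q⁻¹ * (P * f⁻¹))) := by simp only [hδ, δinv hδ, δone hδ, D] <;> linear_combination (0) * h3
  have e30 : δ (f * (Q⁻¹ * (P * x⁻¹))) = δ (f * (Q⁻¹ * (x * Q⁻¹))) := by simp only [hδ, δinv hδ, δone hδ, D] <;> linear_combination (0) * h3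
  have e31 : δ (f * x⁻¹) = δ (f * g⁻¹) := by simp only [hδ, δinv hδ, δone hδ, D] <;> linear_combination (0) * h3
  have e32 : δ (f * (Q⁻¹ * (x * Q⁻¹))) = δ (f * (Q⁻¹ * (P * x⁻¹))) := by simp only [hδ, δinv hδ, δone hδ, D] <;> linear_combination (0) * h3
  have e33 : δ (f * Q⁻¹) = δ (P * g⁻¹) := by simp only [hδ, δinv hδ, δone hδ, D] <;> linear_combination (0) * h3
  have e34 : δ (f * (Q⁻¹ * (g * P⁻¹))) = δ (f * (Q⁻¹ * (x * P⁻¹))) := by simp only [hδ, δinv hδ, δone hδ, D] <;> linear_combination (0) * h3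
  have e35 : δ (f * g⁻¹) = δ (f * (Q⁻¹ * (x * P⁻¹))) := by simp only [hδ, δinv hδ, δone hδ, D] <;> linear_combination (0) * h3
  have e36 : δ (f * g⁻¹) = δ (f * x⁻¹) := by simp only [hδ, δinv hδ, δone hδ, D] <;> linear_combination (0) * h3
  have e37 : δ (P * f⁻¹) = δ (g * Q⁻¹) := by simp only [hδ, δinv hδ, δone hδ, D] <;> linear_combination (0) * h3
  have e38 : δ (P * g⁻¹) = δ (P * f⁻¹) := by simp only [hδ, δinv hδ, δone hδ, D] <;> linear_combination (0) * h3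
  have e39 : δ (g * P⁻¹) = δ (Q * g⁻¹) := by simp only [hδ, δinv hδ, δone hδ, D] <;> linear_combination (0) * h3
  have e40 : δ (g * Q⁻¹) = δ (P * f⁻¹) := by simp only [hδ, δinv hδ, δone hδ, D] <;> linear_combination (0) * h3
  have e41 : δ (Q * x⁻¹) = δ (Q * g⁻¹) := by simp only [hδ, δinv hδ, δone hδ, D] <;> linear_combination (0) * h3
  have e42 : δ (Q * g⁻¹) = δ (Q * x⁻¹) := by simp only [hδ, δinv hδ, δone hδ, D] <;> linear_combination (0) * h3
  have k0 : o.lt (f * Q⁻¹) (P * f⁻¹) ↔ o.lt (1 * (f * Q⁻¹)) (1 * (P * f⁻¹)) := o.cv hδ (1) e13 (by simp only [mul_assoc, mul_inv_rev, inv_inv, mul_inv_cancel_left, inv_mul_cancel_left, mul_inv_cancel, inv_mul_cancel, mul_one, one_mul, inv_one, C]) (by simp only [mul_assoc, mul_inv_rev, inv_inv, mul_inv_cancel_left, inv_mul_cancel_left, mul_inv_cancel, inv_mul_cancel, mul_one, one_mul, inv_one, C])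
  have k1 : o.lt (x * Q⁻¹) (P * x⁻¹) ↔ o.lt (1 * (x * Q⁻¹)) (1 * (P * x⁻¹)) := o.cv hδ (1) e6 (by simp only [mul_assoc, mul_inv_rev, inv_inv, mul_inv_cancel_left, inv_mul_cancel_left, mul_inv_cancel, inv_mul_cancel, mul_one, one_mul, inv_one, C]) (by simp only [mul_assoc, mul_inv_rev, inv_inv, mul_inv_cancel_left, inv_mul_cancel_left, mul_inv_cancel, inv_mul_cancel, mul_one, one_mul, inv_one, C])
  have k2 : o.lt (P * f⁻¹) (P * x⁻¹) ↔ o.lt (1 * (P * f⁻¹)) (1 * (P * x⁻¹)) := o.cv hδ (1) e4 (by simp only [mul_assoc, mul_inv_rev, inv_inv, mul_inv_cancel_left, inv_mul_cancel_left, mul_inv_cancel, inv_mul_cancel, mul_one, one_mul, inv_one, C]) (by simp only [mul_assoc, mul_inv_rev, inv_inv, mul_inv_cancel_left, inv_mul_cancel_left, mul_inv_cancel, inv_mul_cancel, mul_one, one_mul, inv_one, C])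
  have k3 : o.lt (x) (f) ↔ o.lt (1 * x) (1 * f) := o.cv hδ (1) e17 (by simp only [mul_assoc, mul_inv_rev, inv_inv, mul_inv_cancel_left, inv_mul_cancel_left, mul_inv_cancel, inv_mul_cancel, mul_one, one_mul, inv_one, C]) (by simp only [mul_assoc, mul_inv_rev, inv_inv, mul_inv_cancel_left, inv_mul_cancel_left, mul_inv_cancel, inv_mul_cancel, mul_one, one_mul, inv_one, C])
  have k4 : o.lt (P * f⁻¹) (x * Q⁻¹) ↔ o.lt (1 * (P * f⁻¹)) (1 * (x * Q⁻¹)) := o.cv hδ (1) e23 (by simp only [mul_assoc, mul_inv_rev, inv_inv, mul_inv_cancel_left, inv_mul_cancel_left, mul_inv_cancel, inv_mul_cancel, mul_one, one_mul, inv_one, C]) (by simp only [mul_assoc, mul_inv_rev, inv_inv, mul_inv_cancel_left, inv_mul_cancel_left, mul_inv_cancel, inv_mul_cancel, mul_one, one_mul, inv_one, C])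
  have k5 : o.lt (Q * f⁻¹) (x * P⁻¹) ↔ o.lt (1 * (f * Q⁻¹)⁻¹) (1 * (P * x⁻¹)⁻¹) := o.cv hδ (1) e12 (by simp only [mul_assoc, mul_inv_rev, inv_inv, mul_inv_cancel_left, inv_mul_cancel_left, mul_inv_cancel, inv_mul_cancel, mul_one, one_mul, inv_one, C]) (by simp only [mul_assoc, mul_inv_rev, inv_inv, mul_inv_cancel_left, inv_mul_cancel_left, mul_inv_cancel, inv_mul_cancel, mul_one, one_mul, inv_one, C])
  have k6 : o.lt (g * P⁻¹) (x * P⁻¹) ↔ o.lt (1 * (g * P⁻¹)) (1 * (x * P⁻¹)) := o.cv hδ (1) e14 (by simp only [mul_assoc, mul_inv_rev, inv_inv, mul_inv_cancel_left, inv_mul_cancel_left, mul_inv_cancel, inv_mul_cancel, mul_one, one_mul, inv_one, C]) (by simp only [mul_assoc, mul_inv_rev, inv_inv, mul_inv_cancel_left, inv_mul_cancel_left, mul_inv_cancel, inv_mul_cancel, mul_one, one_mul, inv_one, C])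
  have k7 : o.lt (Q * g⁻¹) (x * P⁻¹) ↔ o.lt (1 * (Q * g⁻¹)) (1 * (x * P⁻¹)) := o.cv hδ (1) e15 (by simp only [mul_assoc, mul_inv_rev, inv_inv, mul_inv_cancel_left, inv_mul_cancel_left, mul_inv_cancel, inv_mul_cancel, mul_one, one_mul, inv_one, C]) (by simp only [mul_assoc, mul_inv_rev, inv_inv, mul_inv_cancel_left, inv_mul_cancel_left, mul_inv_cancel, inv_mul_cancel, mul_one, one_mul, inv_one, C])
  have k8 : o.lt (P * x⁻¹) (x * Q⁻¹) ↔ o.lt (1 * (x * P⁻¹)⁻¹) (1 * (Q * x⁻¹)⁻¹) := o.cv hδ (1) e20 (by simp only [mul_assoc, mul_inv_rev, inv_inv, mul_inv_cancel_left, inv_mul_cancel_left, mul_inv_cancel, inv_mul_cancel, mul_one, one_mul, inv_one, C]) (by simp only [mul_assoc, mul_inv_rev, inv_inv, mul_inv_cancel_left, inv_mul_cancel_left, mul_inv_cancel, inv_mul_cancel, mul_one, one_mul, inv_one, C])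
  have k9 : o.lt (Q * x⁻¹) (Q * g⁻¹) ↔ o.lt (1 * (Q * x⁻¹)) (1 * (Q * g⁻¹)) := o.cv hδ (1) e41 (by simp only [mul_assoc, mul_inv_rev, inv_inv, mul_inv_cancel_left, inv_mul_cancel_left, mul_inv_cancel, inv_mul_cancel, mul_one, one_mul, inv_one, C]) (by simp only [mul_assoc, mul_inv_rev, inv_inv, mul_inv_cancel_left, inv_mul_cancel_left, mul_inv_cancel, inv_mul_cancel, mul_one, one_mul, inv_one, C])
  have k10 : o.lt (x * Q⁻¹) (P * x⁻¹) ↔ o.lt (1 * (Q * x⁻¹)⁻¹) (1 * (x * P⁻¹)⁻¹) := o.cv hδ (1) e6 (by simp only [mul_assoc, mul_inv_rev, inv_inv, mul_inv_cancel_left, inv_mul_cancel_left, mul_inv_cancel, inv_mul_cancel, mul_one, one_mul, inv_one, C]) (by simp only [mul_assoc, mul_inv_rev, inv_inv, mul_inv_cancel_left, inv_mul_cancel_left, mul_inv_cancel, inv_mul_cancel, mul_one, one_mul, inv_one, C])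
  have k11 : o.lt (x * P⁻¹) (g * P⁻¹) ↔ o.lt (1 * (x * P⁻¹)) (1 * (g * P⁻¹)) := o.cv hδ (1) e24 (by simp only [mul_assoc, mul_inv_rev, inv_inv, mul_inv_cancel_left, inv_mul_cancel_left, mul_inv_cancel, inv_mul_cancel, mul_one, one_mul, inv_one, C]) (by simp only [mul_assoc, mul_inv_rev, inv_inv, mul_inv_cancel_left, inv_mul_cancel_left, mul_inv_cancel, inv_mul_cancel, mul_one, one_mul, inv_one, C])
  have k12 : o.lt (x * P⁻¹) (Q * g⁻¹) ↔ o.lt (1 * (x * P⁻¹)) (1 * (Q * g⁻¹)) := o.cv hδ (1) e25 (by simp only [mul_assoc, mul_inv_rev, inv_inv, mul_inv_cancel_left, inv_mul_cancel_left, mul_inv_cancel, inv_mul_cancel, mul_one, one_mul, inv_one, C]) (by simp only [mul_assoc, mul_inv_rev, inv_inv, mul_inv_cancel_left, inv_mul_cancel_left, mul_inv_cancel, inv_mul_cancel, mul_one, one_mul, inv_one, C])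
  have k13 : o.lt (Q * g⁻¹) (Q * x⁻¹) ↔ o.lt (1 * (Q * g⁻¹)) (1 * (Q * x⁻¹)) := o.cv hδ (1) e42 (by simp only [mul_assoc, mul_inv_rev, inv_inv, mul_inv_cancel_left, inv_mul_cancel_left, mul_inv_cancel, inv_mul_cancel, mul_one, one_mul, inv_one, C]) (by simp only [mul_assoc, mul_inv_rev, inv_inv, mul_inv_cancel_left, inv_mul_cancel_left, mul_inv_cancel, inv_mul_cancel, mul_one, one_mul, inv_one, C])
  have k14 : o.lt (P * g⁻¹) (P * x⁻¹) ↔ o.lt (1 * (P * g⁻¹)) (1 * (P * x⁻¹)) := o.cv hδ (1) e7 (by simp only [mul_assoc, mul_inv_rev, inv_inv, mul_inv_cancel_left, inv_mul_cancel_left, mul_inv_cancel, inv_mul_cancel, mul_one, one_mul, inv_one, C]) (by simp only [mul_assoc, mul_inv_rev, inv_inv, mul_inv_cancel_left, inv_mul_cancel_left, mul_inv_cancel, inv_mul_cancel, mul_one, one_mul, inv_one, C])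
  have k15 : o.lt (P * x⁻¹) (g * Q⁻¹) ↔ o.lt (1 * (P * x⁻¹)) (1 * (g * Q⁻¹)) := o.cv hδ (1) e22 (by simp only [mul_assoc, mul_inv_rev, inv_inv, mul_inv_cancel_left, inv_mul_cancel_left, mul_inv_cancel, inv_mul_cancel, mul_one, one_mul, inv_one, C]) (by simp only [mul_assoc, mul_inv_rev, inv_inv, mul_inv_cancel_left, inv_mul_cancel_left, mul_inv_cancel, inv_mul_cancel, mul_one, one_mul, inv_one, C])
  have k16 : o.lt (g * P⁻¹) (Q * g⁻¹) ↔ o.lt (1 * (P * g⁻¹)⁻¹) (1 * (g * Q⁻¹)⁻¹) := o.cv hδ (1) e39 (by simp only [mul_assoc, mul_inv_rev, inv_inv, mul_inv_cancel_left, inv_mul_cancel_left, mul_inv_cancel, inv_mul_cancel, mul_one, one_mul, inv_one, C]) (by simp only [mul_assoc, mul_inv_rev, inv_inv, mul_inv_cancel_left, inv_mul_cancel_left, mul_inv_cancel, inv_mul_cancel, mul_one, one_mul, inv_one, C])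
  have k17 : o.lt (x * (P⁻¹ * (x * f⁻¹))) (P * (x⁻¹ * (f * Q⁻¹))) ↔ o.lt ((P * x⁻¹) * (P * f⁻¹)) ((P * x⁻¹) * (f * Q⁻¹)) := o.cv hδ (f * (x⁻¹ * (P * (x⁻¹ * (P * (x⁻¹ * (P * f⁻¹))))))) e1 (by simp only [mul_assoc, mul_inv_rev, inv_inv, mul_inv_cancel_left, inv_mul_cancel_left, mul_inv_cancel, inv_mul_cancel, mul_one, one_mul, inv_one, C]) (by simp only [mul_assoc, mul_inv_rev, inv_inv, mul_inv_cancel_left, inv_mul_cancel_left, mul_inv_cancel, inv_mul_cancel, mul_one, one_mul, inv_one, C])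
  have k18 : o.lt (x * P⁻¹) (P * Q⁻¹) ↔ o.lt ((P * x⁻¹) * (P * x⁻¹)) ((P * x⁻¹) * (x * Q⁻¹)) := o.cv hδ (P * (x⁻¹ * (P * (x⁻¹ * (P * x⁻¹))))) e11 (by simp only [mul_assoc, mul_inv_rev, inv_inv, mul_inv_cancel_left, inv_mul_cancel_left, mul_inv_cancel, inv_mul_cancel, mul_one, one_mul, inv_one, C]) (by simp only [mul_assoc, mul_inv_rev, inv_inv, mul_inv_cancel_left, inv_mul_cancel_left, mul_inv_cancel, inv_mul_cancel, mul_one, one_mul, inv_one, C])
  have k19 : o.lt (x * P⁻¹) (x * (P⁻¹ * (x * f⁻¹))) ↔ o.lt ((P * x⁻¹) * (P * x⁻¹)) ((P * x⁻¹) * (P * f⁻¹)) := o.cv hδ (P * (x⁻¹ * (P * (x⁻¹ * (P * x⁻¹))))) e10 (by simp only [mul_assoc, mul_inv_rev, inv_inv, mul_inv_cancel_left, inv_mul_cancel_left, mul_inv_cancel, inv_mul_cancel, mul_one, one_mul, inv_one, C]) (by simp only [mul_assoc, mul_inv_rev, inv_inv, mul_inv_cancel_left, inv_mul_cancel_left, mul_inv_cancel, inv_mul_cancel, mul_one, one_mul, inv_one,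 C])
  have k20 : o.lt (P * (x⁻¹ * f)) (P) ↔ o.lt ((P * x⁻¹) * f) ((P * x⁻¹) * x) := o.cv hδ (1) e0 (by simp only [mul_assoc, mul_inv_rev, inv_inv, mul_inv_cancel_left, inv_mul_cancel_left, mul_inv_cancel, inv_mul_cancel, mul_one, one_mul, inv_one, C]) (by simp only [mul_assoc, mul_inv_rev, inv_inv, mul_inv_cancel_left, inv_mul_cancel_left, mul_inv_cancel, inv_mul_cancel, mul_one, one_mul, inv_one, C])
  have k21 : o.lt (P * g⁻¹) (P * x⁻¹) ↔ o.lt ((P * x⁻¹) * (x * P⁻¹)) ((P * x⁻¹) * (g * P⁻¹)) := o.cv hδ (g * P⁻¹) e7 (by simp only [mul_assoc, mul_inv_rev, inv_inv, mul_inv_cancel_left, inv_mul_cancel_left, mul_inv_cancel, inv_mul_cancel, mul_one, one_mul, inv_one, C]) (by simp only [mul_assoc, mul_inv_rev, inv_inv, mul_inv_cancel_left, inv_mul_cancel_left, mul_inv_cancel, inv_mul_cancel, mul_one, one_mul, inv_one, C])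
  have k22 : o.lt (1) (P * (x⁻¹ * (Q * g⁻¹))) ↔ o.lt ((P * x⁻¹) * (x * P⁻¹)) ((P * x⁻¹) * (Q * g⁻¹)) := o.cv hδ (1) e8 (by simp only [mul_assoc, mul_inv_rev, inv_inv, mul_inv_cancel_left, inv_mul_cancel_left, mul_inv_cancel, inv_mul_cancel, mul_one, one_mul, inv_one, C]) (by simp only [mul_assoc, mul_inv_rev, inv_inv, mul_inv_cancel_left, inv_mul_cancel_left, mul_inv_cancel, inv_mul_cancel, mul_one, one_mul, inv_one, C])
  have k23 : o.lt (P * Q⁻¹) (x * P⁻¹) ↔ o.lt ((P * x⁻¹) * (Q * x⁻¹)⁻¹) ((P * x⁻¹) * (x * P⁻¹)⁻¹) := o.cv hδ (1) e21 (by simp only [mul_assoc, mul_inv_rev, inv_inv, mul_inv_cancel_left, inv_mul_cancel_left, mul_inv_cancel, inv_mul_cancel, mul_one, one_mul, inv_one, C]) (by simp only [mul_assoc, mul_inv_rev, inv_inv, mul_inv_cancel_left, inv_mul_cancel_left, mul_inv_cancel, inv_mul_cancel, mul_one, one_mul, inv_one, C])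
  have k24 : o.lt (f * (Q⁻¹ * (P * f⁻¹))) (Q * f⁻¹) ↔ o.lt ((f * Q⁻¹) * (P * f⁻¹)) ((f * Q⁻¹) * (f * Q⁻¹)) := o.cv hδ (1) e27 (by simp only [mul_assoc, mul_inv_rev, inv_inv, mul_inv_cancel_left, inv_mul_cancel_left, mul_inv_cancel, inv_mul_cancel, mul_one, one_mul, inv_one, C]) (by simp only [mul_assoc, mul_inv_rev, inv_inv, mul_inv_cancel_left, inv_mul_cancel_left, mul_inv_cancel, inv_mul_cancel, mul_one, one_mul, inv_one, C])
  have k25 : o.lt (f * (Q⁻¹ * (P * x⁻¹))) (f * (Q⁻¹ * (x * Q⁻¹))) ↔ o.lt ((f * Q⁻¹) * (P * x⁻¹)) ((f * Q⁻¹) * (x * Q⁻¹)) := o.cv hδ (1) e30 (by simp only [mul_assoc, mul_inv_rev, inv_inv, mul_inv_cancel_left, inv_mul_cancel_left, mul_inv_cancel, inv_mul_cancel, mul_one, one_mul, inv_one, C]) (by simp only [mul_assoc, mul_inv_rev, inv_inv, mul_inv_cancel_left, inv_mul_cancel_left, mul_inv_cancel, inv_mul_cancel, mul_one, one_mul, inv_one, C])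
  have k26 : o.lt (f * (Q⁻¹ * (P * x⁻¹))) (f * (Q⁻¹ * (P * f⁻¹))) ↔ o.lt ((f * Q⁻¹) * (P * x⁻¹)) ((f * Q⁻¹) * (P * f⁻¹)) := o.cv hδ (1) e29 (by simp only [mul_assoc, mul_inv_rev, inv_inv, mul_inv_cancel_left, inv_mul_cancel_left, mul_inv_cancel, inv_mul_cancel, mul_one, one_mul, inv_one, C]) (by simp only [mul_assoc, mul_inv_rev, inv_inv, mul_inv_cancel_left, inv_mul_cancel_left, mul_inv_cancel, inv_mul_cancel, mul_one, one_mul, inv_one, C])
  have k27 : o.lt (f * (Q⁻¹ * f)) (f * (Q⁻¹ * x)) ↔ o.lt ((f * Q⁻¹) * f) ((f * Q⁻¹) * x) := o.cv hδ (1) e26 (by simp only [mul_assoc, mul_inv_rev, inv_inv, mul_inv_cancel_left, inv_mul_cancel_left, mul_inv_cancel, inv_mul_cancel, mul_one, one_mul, inv_one, C]) (by simp only [mul_assoc, mul_inv_rev, inv_inv, mul_inv_cancel_left, inv_mul_cancel_left, mul_inv_cancel, inv_mul_cancel, mul_one, one_mul, inv_one, C])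
  have k28 : o.lt (f * (Q⁻¹ * (x * P⁻¹))) (f * x⁻¹) ↔ o.lt ((f * Q⁻¹) * (x * P⁻¹)) ((f * Q⁻¹) * (Q * x⁻¹)) := o.cv hδ (1) e28 (by simp only [mul_assoc, mul_inv_rev, inv_inv, mul_inv_cancel_left, inv_mul_cancel_left, mul_inv_cancel, inv_mul_cancel, mul_one, one_mul, inv_one, C]) (by simp only [mul_assoc, mul_inv_rev, inv_inv, mul_inv_cancel_left, inv_mul_cancel_left, mul_inv_cancel, inv_mul_cancel, mul_one, one_mul, inv_one, C])
  have k29 : o.lt (f * Q⁻¹) (P * f⁻¹) ↔ o.lt ((f * Q⁻¹) * (f * P⁻¹)) ((f * Q⁻¹) * (Q * f⁻¹)) := o.cv hδ (f * P⁻¹) e13 (by simp only [mul_assoc, mul_inv_rev, inv_inv, mul_inv_cancel_left, inv_mul_cancel_left, mul_inv_cancel, inv_mul_cancel, mul_one, one_mul, inv_one, C]) (by simp only [mul_assoc, mul_inv_rev, inv_inv, mul_inv_cancel_left, inv_mul_cancel_left, mul_inv_cancel, inv_mul_cancel, mul_one, one_mul, inv_one, C])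
  have k30 : o.lt (f * x⁻¹) (1) ↔ o.lt ((f * Q⁻¹) * (Q * x⁻¹)) ((f * Q⁻¹) * (Q * f⁻¹)) := o.cv hδ (1) e9 (by simp only [mul_assoc, mul_inv_rev, inv_inv, mul_inv_cancel_left, inv_mul_cancel_left, mul_inv_cancel, inv_mul_cancel, mul_one, one_mul, inv_one, C]) (by simp only [mul_assoc, mul_inv_rev, inv_inv, mul_inv_cancel_left, inv_mul_cancel_left, mul_inv_cancel, inv_mul_cancel, mul_one, one_mul, inv_one, C])
  have k31 : o.lt (f * (Q⁻¹ * (g * P⁻¹))) (f * (Q⁻¹ * (x * P⁻¹))) ↔ o.lt ((f * Q⁻¹) * (g * P⁻¹)) ((f * Q⁻¹) * (x * P⁻¹)) := o.cv hδ (1) e34 (by simp only [mul_assoc, mul_inv_rev, inv_inv, mul_inv_cancel_left, inv_mul_cancel_left, mul_inv_cancel, inv_mul_cancel, mul_one, one_mul, inv_one, C]) (by simp only [mul_assoc, mul_inv_rev, inv_inv, mul_inv_cancel_left, inv_mul_cancel_left, mul_inv_cancel, inv_mul_cancel, mul_one, one_mul, inv_one, C])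
  have k32 : o.lt (f * g⁻¹) (f * (Q⁻¹ * (x * P⁻¹))) ↔ o.lt ((f * Q⁻¹) * (Q * g⁻¹)) ((f * Q⁻¹) * (x * P⁻¹)) := o.cv hδ (1) e35 (by simp only [mul_assoc, mul_inv_rev, inv_inv, mul_inv_cancel_left, inv_mul_cancel_left, mul_inv_cancel, inv_mul_cancel, mul_one, one_mul, inv_one, C]) (by simp only [mul_assoc, mul_inv_rev, inv_inv, mul_inv_cancel_left, inv_mul_cancel_left, mul_inv_cancel, inv_mul_cancel, mul_one, one_mul, inv_one, C])
  have k33 : o.lt (f * (Q⁻¹ * (P * x⁻¹))) (f * (Q⁻¹ * (x * Q⁻¹))) ↔ o.lt ((f * Q⁻¹) * (x * P⁻¹)⁻¹) ((f * Q⁻¹) * (Q * x⁻¹)⁻¹) := o.cv hδ (1) e30 (by simp only [mul_assoc, mul_inv_rev, inv_inv, mul_inv_cancel_left, inv_mul_cancel_left, mul_inv_cancel, inv_mul_cancel, mul_one, one_mul, inv_one, C]) (by simp only [mul_assoc, mul_inv_rev, inv_inv, mul_inv_cancel_left, inv_mul_cancel_left, mul_inv_cancel, inv_mul_cancel, mul_one, one_mul, inv_one, C])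
  have k34 : o.lt (f * x⁻¹) (f * g⁻¹) ↔ o.lt ((f * Q⁻¹) * (Q * x⁻¹)) ((f * Q⁻¹) * (Q * g⁻¹)) := o.cv hδ (1) e31 (by simp only [mul_assoc, mul_inv_rev, inv_inv, mul_inv_cancel_left, inv_mul_cancel_left, mul_inv_cancel, inv_mul_cancel, mul_one, one_mul, inv_one, C]) (by simp only [mul_assoc, mul_inv_rev, inv_inv, mul_inv_cancel_left, inv_mul_cancel_left, mul_inv_cancel, inv_mul_cancel, mul_one, one_mul, inv_one, C])
  have k35 : o.lt (f * (Q⁻¹ * (x * Q⁻¹))) (f * (Q⁻¹ * (P * x⁻¹))) ↔ o.lt ((f * Q⁻¹) * (Q * x⁻¹)⁻¹) ((f * Q⁻¹) * (x * P⁻¹)⁻¹) := o.cv hδ (1) e32 (by simp only [mul_assoc, mul_inv_rev, inv_inv, mul_inv_cancel_left, inv_mul_cancel_left, mul_inv_cancel, inv_mul_cancel, mul_one, one_mul, inv_one, C]) (by simp only [mul_assoc, mul_inv_rev, inv_inv, mul_inv_cancel_left, inv_mul_cancel_left, mul_inv_cancel, inv_mul_cancel, mul_one, one_mul, inv_one, C])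
  have k36 : o.lt (P * f⁻¹) (P * x⁻¹) ↔ o.lt (P * f⁻¹) (P * x⁻¹) := o.cv hδ (1) e4 (by simp only [mul_assoc, mul_inv_rev, inv_inv, mul_inv_cancel_left, inv_mul_cancel_left, mul_inv_cancel, inv_mul_cancel, mul_one, one_mul, inv_one, C]) (by simp only [mul_assoc, mul_inv_rev, inv_inv, mul_inv_cancel_left, inv_mul_cancel_left, mul_inv_cancel, inv_mul_cancel, mul_one, one_mul, inv_one, C])
  have k37 : o.lt (P * (x⁻¹ * f)) (P) ↔ o.lt (P * x⁻¹) (P * f⁻¹) := o.cv hδ (f⁻¹) e0 (by simp only [mul_assoc, mul_inv_rev, inv_inv, mul_inv_cancel_left, inv_mul_cancel_left, mul_inv_cancel, inv_mul_cancel, mul_one, one_mul, inv_one, C]) (by simp only [mul_assoc, mul_inv_rev, inv_inv, mul_inv_cancel_left, inv_mul_cancel_left, mul_inv_cancel, inv_mul_cancel, mul_one, one_mul, inv_one, C])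
  have k38 : o.lt (P * f⁻¹) (g * Q⁻¹) ↔ o.lt (P * f⁻¹) (g * Q⁻¹) := o.cv hδ (1) e37 (by simp only [mul_assoc, mul_inv_rev, inv_inv, mul_inv_cancel_left, inv_mul_cancel_left, mul_inv_cancel, inv_mul_cancel, mul_one, one_mul, inv_one, C]) (by simp only [mul_assoc, mul_inv_rev, inv_inv, mul_inv_cancel_left, inv_mul_cancel_left, mul_inv_cancel, inv_mul_cancel, mul_one, one_mul, inv_one, C])
  have k39 : o.lt (g * Q⁻¹) (P * f⁻¹) ↔ o.lt (g * Q⁻¹) (P * f⁻¹) := o.cv hδ (1) e40 (by simp only [mul_assoc, mul_inv_rev, inv_inv, mul_inv_cancel_left, inv_mul_cancel_left, mul_inv_cancel, inv_mul_cancel, mul_one, one_mul, inv_one, C]) (by simp only [mul_assoc, mul_inv_rev, inv_inv, mul_inv_cancel_left, inv_mul_cancel_left, mul_inv_cancel, inv_mul_cancel, mul_one, one_mul, inv_one, C])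
  have k40 : o.lt (P * x⁻¹) (g * Q⁻¹) ↔ o.lt (P * x⁻¹) (g * Q⁻¹) := o.cv hδ (1) e22 (by simp only [mul_assoc, mul_inv_rev, inv_inv, mul_inv_cancel_left, inv_mul_cancel_left, mul_inv_cancel, inv_mul_cancel, mul_one, one_mul, inv_one, C]) (by simp only [mul_assoc, mul_inv_rev, inv_inv, mul_inv_cancel_left, inv_mul_cancel_left, mul_inv_cancel, inv_mul_cancel, mul_one, one_mul, inv_one, C])
  have k41 : o.lt (P * x⁻¹) (f * Q⁻¹) ↔ o.lt (P * x⁻¹) (f * Q⁻¹) := o.cv hδ (1) e2 (by simp only [mul_assoc, mul_inv_rev, inv_inv, mul_inv_cancel_left, inv_mul_cancel_left, mul_inv_cancel, inv_mul_cancel, mul_one, one_mul, inv_one, C]) (by simp only [mul_assoc, mul_inv_rev, inv_inv, mul_inv_cancel_left, inv_mul_cancel_left, mul_inv_cancel, inv_mul_cancel, mul_one, one_mul, inv_one, C])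
  have k42 : o.lt (P * x⁻¹) (x * Q⁻¹) ↔ o.lt (P * x⁻¹) (x * Q⁻¹) := o.cv hδ (1) e20 (by simp only [mul_assoc, mul_inv_rev, inv_inv, mul_inv_cancel_left, inv_mul_cancel_left, mul_inv_cancel, inv_mul_cancel, mul_one, one_mul, inv_one, C]) (by simp only [mul_assoc, mul_inv_rev, inv_inv, mul_inv_cancel_left, inv_mul_cancel_left, mul_inv_cancel, inv_mul_cancel, mul_one, one_mul, inv_one, C])
  have k43 : o.lt (x) (f) ↔ o.lt (x * Q⁻¹) (f * Q⁻¹) := o.cv hδ (Q⁻¹) e17 (by simp only [mul_assoc, mul_inv_rev, inv_inv, mul_inv_cancel_left, inv_mul_cancel_left, mul_inv_cancel, inv_mul_cancel, mul_one, one_mul, inv_one, C]) (by simp only [mul_assoc, mul_inv_rev, inv_inv, mul_inv_cancel_left, inv_mul_cancel_left, mul_inv_cancel, inv_mul_cancel, mul_one, one_mul, inv_one, C])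
  have k44 : o.lt (x * Q⁻¹) (P * x⁻¹) ↔ o.lt (x * Q⁻¹) (P * x⁻¹) := o.cv hδ (1) e6 (by simp only [mul_assoc, mul_inv_rev, inv_inv, mul_inv_cancel_left, inv_mul_cancel_left, mul_inv_cancel, inv_mul_cancel, mul_one, one_mul, inv_one, C]) (by simp only [mul_assoc, mul_inv_rev, inv_inv, mul_inv_cancel_left, inv_mul_cancel_left, mul_inv_cancel, inv_mul_cancel, mul_one, one_mul, inv_one, C])
  have k45 : o.lt (f * Q⁻¹) (P * f⁻¹) ↔ o.lt (f * Q⁻¹) (P * f⁻¹) := o.cv hδ (1) e13 (by simp only [mul_assoc, mul_inv_rev, inv_inv, mul_inv_cancel_left, inv_mul_cancel_left, mul_inv_cancel, inv_mul_cancel, mul_one, one_mul, inv_one, C]) (by simp only [mul_assoc, mul_inv_rev, inv_inv, mul_inv_cancel_left, inv_mul_cancel_left, mul_inv_cancel, inv_mul_cancel, mul_one, one_mul, inv_one, C])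
  have k46 : o.lt (f * Q⁻¹) (P * g⁻¹) ↔ o.lt (f * Q⁻¹) (P * g⁻¹) := o.cv hδ (1) e33 (by simp only [mul_assoc, mul_inv_rev, inv_inv, mul_inv_cancel_left, inv_mul_cancel_left, mul_inv_cancel, inv_mul_cancel, mul_one, one_mul, inv_one, C]) (by simp only [mul_assoc, mul_inv_rev, inv_inv, mul_inv_cancel_left, inv_mul_cancel_left, mul_inv_cancel, inv_mul_cancel, mul_one, one_mul, inv_one, C])
  have k47 : o.lt (P * g⁻¹) (P * f⁻¹) ↔ o.lt (P * g⁻¹) (P * f⁻¹) := o.cv hδ (1) e38 (by simp only [mul_assoc, mul_inv_rev, inv_inv, mul_inv_cancel_left, inv_mul_cancel_left, mul_inv_cancel, inv_mul_cancel, mul_one, one_mul, inv_one, C]) (by simp only [mul_assoc, mul_inv_rev, inv_inv, mul_inv_cancel_left, inv_mul_cancel_left, mul_inv_cancel, inv_mul_cancel, mul_one, one_mul, inv_one, C])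
  have k48 : o.lt (f * (Q⁻¹ * (P * f⁻¹))) (Q * f⁻¹) ↔ o.lt (f * Q⁻¹) (Q * P⁻¹) := o.cv hδ (f * P⁻¹) e27 (by simp only [mul_assoc, mul_inv_rev, inv_inv, mul_inv_cancel_left, inv_mul_cancel_left, mul_inv_cancel, inv_mul_cancel, mul_one, one_mul, inv_one, C]) (by simp only [mul_assoc, mul_inv_rev, inv_inv, mul_inv_cancel_left, inv_mul_cancel_left, mul_inv_cancel, inv_mul_cancel, mul_one, one_mul, inv_one, C])
  have k49 : o.lt (g * P⁻¹) (Q * g⁻¹) ↔ o.lt (P * g⁻¹) (Q * P⁻¹) := o.cv hδ (P * (g⁻¹ * (P * g⁻¹))) e39 (by simp only [mul_assoc, mul_inv_rev, inv_inv, mul_inv_cancel_left, inv_mul_cancel_left, mul_inv_cancel, inv_mul_cancel, mul_one, one_mul, inv_one, C]) (by simp only [mul_assoc, mul_inv_rev, inv_inv, mul_inv_cancel_left, inv_mul_cancel_left, mul_inv_cancel, inv_mul_cancel, mul_one, one_mul, inv_one, C])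
  have k50 : o.lt (f * Q⁻¹) (P * x⁻¹) ↔ o.lt (f * Q⁻¹) (P * x⁻¹) := o.cv hδ (1) e5 (by simp only [mul_assoc, mul_inv_rev, inv_inv, mul_inv_cancel_left, inv_mul_cancel_left, mul_inv_cancel, inv_mul_cancel, mul_one, one_mul, inv_one, C]) (by simp only [mul_assoc, mul_inv_rev, inv_inv, mul_inv_cancel_left, inv_mul_cancel_left, mul_inv_cancel, inv_mul_cancel, mul_one, one_mul, inv_one, C])
  have k51 : o.lt (x * P⁻¹) (g * P⁻¹) ↔ o.lt (x * Q⁻¹) (g * Q⁻¹) := o.cv hδ (P * Q⁻¹) e24 (by simp only [mul_assoc, mul_inv_rev, inv_inv, mul_inv_cancel_left, inv_mul_cancel_left, mul_inv_cancel, inv_mul_cancel, mul_one, one_mul, inv_one, C]) (by simp only [mul_assoc, mul_inv_rev, inv_inv, mul_inv_cancel_left, inv_mul_cancel_left, mul_inv_cancel, inv_mul_cancel, mul_one, one_mul, inv_one, C])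
  have k52 : o.lt (g * Q⁻¹) (f * Q⁻¹) ↔ o.lt (g * Q⁻¹) (f * Q⁻¹) := o.cv hδ (1) e18 (by simp only [mul_assoc, mul_inv_rev, inv_inv, mul_inv_cancel_left, inv_mul_cancel_left, mul_inv_cancel, inv_mul_cancel, mul_one, one_mul, inv_one, C]) (by simp only [mul_assoc, mul_inv_rev, inv_inv, mul_inv_cancel_left, inv_mul_cancel_left, mul_inv_cancel, inv_mul_cancel, mul_one, one_mul, inv_one, C])
  have k53 : o.lt (g * P⁻¹) (x * P⁻¹) ↔ o.lt (g * Q⁻¹) (x * Q⁻¹) := o.cv hδ (P * Q⁻¹) e14 (by simp only [mul_assoc, mul_inv_rev, inv_inv, mul_inv_cancel_left, inv_mul_cancel_left, mul_inv_cancel, inv_mul_cancel, mul_one, one_mul, inv_one, C]) (by simp only [mul_assoc, mul_inv_rev, inv_inv, mul_inv_cancel_left, inv_mul_cancel_left, mul_inv_cancel, inv_mul_cancel, mul_one, one_mul, inv_one, C])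
  have k54 : o.lt (P * g⁻¹) (P * x⁻¹) ↔ o.lt (P * g⁻¹) (P * x⁻¹) := o.cv hδ (1) e7 (by simp only [mul_assoc, mul_inv_rev, inv_inv, mul_inv_cancel_left, inv_mul_cancel_left, mul_inv_cancel, inv_mul_cancel, mul_one, one_mul, inv_one, C]) (by simp only [mul_assoc, mul_inv_rev, inv_inv, mul_inv_cancel_left, inv_mul_cancel_left, mul_inv_cancel, inv_mul_cancel, mul_one, one_mul, inv_one, C])
  have k55 : o.lt (1) (P * (x⁻¹ * (Q * g⁻¹))) ↔ o.lt (g * Q⁻¹) (P * x⁻¹) := o.cv hδ (g * Q⁻¹) e8 (by simp only [mul_assoc, mul_inv_rev, inv_inv, mul_inv_cancel_left, inv_mul_cancel_left, mul_inv_cancel, inv_mul_cancel, mul_one, one_mul, inv_one, C]) (by simp only [mul_assoc, mul_inv_rev, inv_inv, mul_inv_cancel_left, inv_mul_cancel_left, mul_inv_cancel, inv_mul_cancel, mul_one, one_mul, inv_one, C])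
  have k56 : o.lt (P * f⁻¹) (x * Q⁻¹) ↔ o.lt (P * f⁻¹) (x * Q⁻¹) := o.cv hδ (1) e23 (by simp only [mul_assoc, mul_inv_rev, inv_inv, mul_inv_cancel_left, inv_mul_cancel_left, mul_inv_cancel, inv_mul_cancel, mul_one, one_mul, inv_one, C]) (by simp only [mul_assoc, mul_inv_rev, inv_inv, mul_inv_cancel_left, inv_mul_cancel_left, mul_inv_cancel, inv_mul_cancel, mul_one, one_mul, inv_one, C])
  have k57 : o.lt (g * Q⁻¹) (P * g⁻¹) ↔ o.lt (g * Q⁻¹) (P * g⁻¹) := o.cv hδ (1) e16 (by simp only [mul_assoc, mul_inv_rev, inv_inv, mul_inv_cancel_left, inv_mul_cancel_left, mul_inv_cancel, inv_mul_cancel, mul_one, one_mul, inv_one, C]) (by simp only [mul_assoc, mul_inv_rev, inv_inv, mul_inv_cancel_left, inv_mul_cancel_left, mul_inv_cancel, inv_mul_cancel, mul_one, one_mul, inv_one, C])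
  have k58 : o.lt (x * P⁻¹) (Q * x⁻¹) ↔ o.lt (x * P⁻¹) (Q * x⁻¹) := o.cv hδ (1) e3 (by simp only [mul_assoc, mul_inv_rev, inv_inv, mul_inv_cancel_left, inv_mul_cancel_left, mul_inv_cancel, inv_mul_cancel, mul_one, one_mul, inv_one, C]) (by simp only [mul_assoc, mul_inv_rev, inv_inv, mul_inv_cancel_left, inv_mul_cancel_left, mul_inv_cancel, inv_mul_cancel, mul_one, one_mul, inv_one, C])
  have k59 : o.lt (x * P⁻¹) (Q * g⁻¹) ↔ o.lt (x * P⁻¹) (Q * g⁻¹) := o.cv hδ (1) e25 (by simp only [mul_assoc, mul_inv_rev, inv_inv, mul_inv_cancel_left, inv_mul_cancel_left, mul_inv_cancel, inv_mul_cancel, mul_one, one_mul, inv_one, C]) (by simp only [mul_assoc, mul_inv_rev, inv_inv, mul_inv_cancel_left, inv_mul_cancel_left, mul_inv_cancel, inv_mul_cancel, mul_one, one_mul, inv_one, C])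
  have k60 : o.lt (Q * g⁻¹) (Q * x⁻¹) ↔ o.lt (Q * g⁻¹) (Q * x⁻¹) := o.cv hδ (1) e42 (by simp only [mul_assoc, mul_inv_rev, inv_inv, mul_inv_cancel_left, inv_mul_cancel_left, mul_inv_cancel, inv_mul_cancel, mul_one, one_mul, inv_one, C]) (by simp only [mul_assoc, mul_inv_rev, inv_inv, mul_inv_cancel_left, inv_mul_cancel_left, mul_inv_cancel, inv_mul_cancel, mul_one, one_mul, inv_one, C])
  have k61 : o.lt (Q * g⁻¹) (x * P⁻¹) ↔ o.lt (Q * g⁻¹) (x * P⁻¹) := o.cv hδ (1) e15 (by simp only [mul_assoc, mul_inv_rev, inv_inv, mul_inv_cancel_left, inv_mul_cancel_left, mul_inv_cancel, inv_mul_cancel, mul_one, one_mul, inv_one, C]) (by simp only [mul_assoc, mul_inv_rev, inv_inv, mul_inv_cancel_left, inv_mul_cancel_left, mul_inv_cancel, inv_mul_cancel, mul_one, one_mul, inv_one, C])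
  have k62 : o.lt (x * P⁻¹) (P * Q⁻¹) ↔ o.lt (x * P⁻¹) (P * Q⁻¹) := o.cv hδ (1) e11 (by simp only [mul_assoc, mul_inv_rev, inv_inv, mul_inv_cancel_left, inv_mul_cancel_left, mul_inv_cancel, inv_mul_cancel, mul_one, one_mul, inv_one, C]) (by simp only [mul_assoc, mul_inv_rev, inv_inv, mul_inv_cancel_left, inv_mul_cancel_left, mul_inv_cancel, inv_mul_cancel, mul_one, one_mul, inv_one, C])
  have k63 : o.lt (g * Q⁻¹) (P * g⁻¹) ↔ o.lt (Q * g⁻¹) (P * Q⁻¹) := o.cv hδ (Q * (g⁻¹ * (Q * g⁻¹))) e16 (by simp only [mul_assoc, mul_inv_rev, inv_inv, mul_inv_cancel_left, inv_mul_cancel_left, mul_inv_cancel, inv_mul_cancel, mul_one, one_mul, inv_one, C]) (by simp only [mul_assoc, mul_inv_rev, inv_inv, mul_inv_cancel_left, inv_mul_cancel_left, mul_inv_cancel, inv_mul_cancel, mul_one, one_mul, inv_one, C])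
  have k64 : o.lt (Q * f⁻¹) (x * P⁻¹) ↔ o.lt (Q * f⁻¹) (x * P⁻¹) := o.cv hδ (1) e12 (by simp only [mul_assoc, mul_inv_rev, inv_inv, mul_inv_cancel_left, inv_mul_cancel_left, mul_inv_cancel, inv_mul_cancel, mul_one, one_mul, inv_one, C]) (by simp only [mul_assoc, mul_inv_rev, inv_inv, mul_inv_cancel_left, inv_mul_cancel_left, mul_inv_cancel, inv_mul_cancel, mul_one, one_mul, inv_one, C])
  have k65 : o.lt (f * Q⁻¹) (P * f⁻¹) ↔ o.lt (Q * f⁻¹) (P * Q⁻¹) := o.cv hδ (Q * (f⁻¹ * (Q * f⁻¹))) e13 (by simp only [mul_assoc, mul_inv_rev, inv_inv, mul_inv_cancel_left, inv_mul_cancel_left, mul_inv_cancel, inv_mul_cancel, mul_one, one_mul, inv_one, C]) (by simp only [mul_assoc, mul_inv_rev, inv_inv, mul_inv_cancel_left, inv_mul_cancel_left, mul_inv_cancel, inv_mul_cancel, mul_one, one_mul, inv_one, C])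
  have k66 : o.lt (P * Q⁻¹) (x * P⁻¹) ↔ o.lt (P * Q⁻¹) (x * P⁻¹) := o.cv hδ (1) e21 (by simp only [mul_assoc, mul_inv_rev, inv_inv, mul_inv_cancel_left, inv_mul_cancel_left, mul_inv_cancel, inv_mul_cancel, mul_one, one_mul, inv_one, C]) (by simp only [mul_assoc, mul_inv_rev, inv_inv, mul_inv_cancel_left, inv_mul_cancel_left, mul_inv_cancel, inv_mul_cancel, mul_one, one_mul, inv_one, C])
  have k67 : o.lt (Q * x⁻¹) (Q * g⁻¹) ↔ o.lt (Q * x⁻¹) (Q * g⁻¹) := o.cv hδ (1) e41 (by simp only [mul_assoc, mul_inv_rev, inv_inv, mul_inv_cancel_left, inv_mul_cancel_left, mul_inv_cancel, inv_mul_cancel, mul_one, one_mul, inv_one, C]) (by simp only [mul_assoc, mul_inv_rev, inv_inv, mul_inv_cancel_left, inv_mul_cancel_left, mul_inv_cancel, inv_mul_cancel, mul_one, one_mul, inv_one, C])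
  have k68 : o.lt (g * P⁻¹) (Q * g⁻¹) ↔ o.lt (g * P⁻¹) (Q * g⁻¹) := o.cv hδ (1) e39 (by simp only [mul_assoc, mul_inv_rev, inv_inv, mul_inv_cancel_left, inv_mul_cancel_left, mul_inv_cancel, inv_mul_cancel, mul_one, one_mul, inv_one, C]) (by simp only [mul_assoc, mul_inv_rev, inv_inv, mul_inv_cancel_left, inv_mul_cancel_left, mul_inv_cancel, inv_mul_cancel, mul_one, one_mul, inv_one, C])
  have k69 : o.lt (g * P⁻¹) (x * P⁻¹) ↔ o.lt (g * P⁻¹) (x * P⁻¹) := o.cv hδ (1) e14 (by simp only [mul_assoc, mul_inv_rev, inv_inv, mul_inv_cancel_left, inv_mul_cancel_left, mul_inv_cancel, inv_mul_cancel, mul_one, one_mul, inv_one, C]) (by simp only [mul_assoc, mul_inv_rev, inv_inv, mul_inv_cancel_left, inv_mul_cancel_left, mul_inv_cancel, inv_mul_cancel, mul_one, one_mul, inv_one, C])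
  have k70 : o.lt (P * x⁻¹) (x * Q⁻¹) ↔ o.lt (P * Q⁻¹) (Q * x⁻¹) := o.cv hδ (x * Q⁻¹) e20 (by simp only [mul_assoc, mul_inv_rev, inv_inv, mul_inv_cancel_left, inv_mul_cancel_left, mul_inv_cancel, inv_mul_cancel, mul_one, one_mul, inv_one, C]) (by simp only [mul_assoc, mul_inv_rev, inv_inv, mul_inv_cancel_left, inv_mul_cancel_left, mul_inv_cancel, inv_mul_cancel, mul_one, one_mul, inv_one, C])
  have k71 : o.lt (x) (f) ↔ o.lt (x * P⁻¹) (f * P⁻¹) := o.cv hδ (P⁻¹) e17 (by simp only [mul_assoc, mul_inv_rev, inv_inv, mul_inv_cancel_left, inv_mul_cancel_left, mul_inv_cancel, inv_mul_cancel, mul_one, one_mul, inv_one, C]) (by simp only [mul_assoc, mul_inv_rev, inv_inv, mul_inv_cancel_left, inv_mul_cancel_left, mul_inv_cancel, inv_mul_cancel, mul_one, one_mul, inv_one, C])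
  have k72 : o.lt (x * P⁻¹) (x * (P⁻¹ * (x * f⁻¹))) ↔ o.lt (x * P⁻¹) (P * (x⁻¹ * (P * f⁻¹))) := o.cv hδ (1) e10 (by simp only [mul_assoc, mul_inv_rev, inv_inv, mul_inv_cancel_left, inv_mul_cancel_left, mul_inv_cancel, inv_mul_cancel, mul_one, one_mul, inv_one, C]) (by simp only [mul_assoc, mul_inv_rev, inv_inv, mul_inv_cancel_left, inv_mul_cancel_left, mul_inv_cancel, inv_mul_cancel, mul_one, one_mul, inv_one, C])
  have k73 : o.lt (P * (x⁻¹ * f)) (P) ↔ o.lt (P * (x⁻¹ * (P * f⁻¹))) (f * P⁻¹) := o.cv hδ (f⁻¹ * (P * f⁻¹)) e0 (by simp only [mul_assoc, mul_inv_rev, inv_inv, mul_inv_cancel_left, inv_mul_cancel_left, mul_inv_cancel, inv_mul_cancel, mul_one, one_mul, inv_one, C]) (by simp only [mul_assoc, mul_inv_rev, inv_inv, mul_inv_cancel_left, inv_mul_cancel_left, mul_inv_cancel, inv_mul_cancel, mul_one, one_mul, inv_one, C])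
  have k74 : o.lt (x * (P⁻¹ * (x * f⁻¹))) (P * (x⁻¹ * (f * Q⁻¹))) ↔ o.lt (P * (x⁻¹ * (P * f⁻¹))) (P * (x⁻¹ * (f * Q⁻¹))) := o.cv hδ (f * (x⁻¹ * (P * (x⁻¹ * (P * (x⁻¹ * (P * f⁻¹))))))) e1 (by simp only [mul_assoc, mul_inv_rev, inv_inv, mul_inv_cancel_left, inv_mul_cancel_left, mul_inv_cancel, inv_mul_cancel, mul_one, one_mul, inv_one, C]) (by simp only [mul_assoc, mul_inv_rev, inv_inv, mul_inv_cancel_left, inv_mul_cancel_left, mul_inv_cancel, inv_mul_cancel, mul_one, one_mul, inv_one, C])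
  have k75 : o.lt (P * (x⁻¹ * (f * Q⁻¹))) (x * (P⁻¹ * (x * f⁻¹))) ↔ o.lt (P * (x⁻¹ * (f * Q⁻¹))) (P * (x⁻¹ * (P * f⁻¹))) := o.cv hδ (1) e19 (by simp only [mul_assoc, mul_inv_rev, inv_inv, mul_inv_cancel_left, inv_mul_cancel_left, mul_inv_cancel, inv_mul_cancel, mul_one, one_mul, inv_one, C]) (by simp only [mul_assoc, mul_inv_rev, inv_inv, mul_inv_cancel_left, inv_mul_cancel_left, mul_inv_cancel, inv_mul_cancel, mul_one, one_mul, inv_one, C])
  have k76 : o.lt (P * x⁻¹) (f * Q⁻¹) ↔ o.lt (P * (x⁻¹ * (Q * f⁻¹))) (1) := o.cv hδ (Q * f⁻¹) e2 (by simp only [mul_assoc, mul_inv_rev, inv_inv, mul_inv_cancel_left, inv_mul_cancel_left, mul_inv_cancel, inv_mul_cancel, mul_one, one_mul, inv_one, C]) (by simp only [mul_assoc, mul_inv_rev, inv_inv, mul_inv_cancel_left, inv_mul_cancel_left, mul_inv_cancel, inv_mul_cancel, mul_one, one_mul, inv_one, C])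
  have k77 : o.lt (P * (x⁻¹ * (f * Q⁻¹))) (x * (P⁻¹ * (x * f⁻¹))) ↔ o.lt (P * (x⁻¹ * (Q * f⁻¹))) (P * (x⁻¹ * (P * Q⁻¹))) := o.cv hδ (Q * (f⁻¹ * (Q * f⁻¹))) e19 (by simp only [mul_assoc, mul_inv_rev, inv_inv, mul_inv_cancel_left, inv_mul_cancel_left, mul_inv_cancel, inv_mul_cancel, mul_one, one_mul, inv_one, C]) (by simp only [mul_assoc, mul_inv_rev, inv_inv, mul_inv_cancel_left, inv_mul_cancel_left, mul_inv_cancel, inv_mul_cancel, mul_one, one_mul, inv_one, C])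
  have k78 : o.lt (x * P⁻¹) (Q * x⁻¹) ↔ o.lt (P * (x⁻¹ * (P * Q⁻¹))) (1) := o.cv hδ (P * (x⁻¹ * (P * (x⁻¹ * (P * Q⁻¹))))) e3 (by simp only [mul_assoc, mul_inv_rev, inv_inv, mul_inv_cancel_left, inv_mul_cancel_left, mul_inv_cancel, inv_mul_cancel, mul_one, one_mul, inv_one, C]) (by simp only [mul_assoc, mul_inv_rev, inv_inv, mul_inv_cancel_left, inv_mul_cancel_left, mul_inv_cancel, inv_mul_cancel, mul_one, one_mul, inv_one, C])
  have k79 : o.lt (x * (P⁻¹ * (x * f⁻¹))) (P * (x⁻¹ * (f * Q⁻¹))) ↔ o.lt (P * (x⁻¹ * (P * Q⁻¹))) (P * (x⁻¹ * (Q * f⁻¹))) := o.cv hδ (f * (x⁻¹ * (P * (x⁻¹ * (P * (x⁻¹ * (P * Q⁻¹))))))) e1 (by simp only [mul_assoc, mul_inv_rev, inv_inv, mul_inv_cancel_left, inv_mul_cancel_left, mul_inv_cancel, inv_mul_cancel, mul_one, one_mul, inv_one, C]) (by simp only [mul_assoc, mul_inv_rev, inv_inv, mul_inv_cancel_left, inv_mul_cancel_left, mul_inv_cancel, inv_mul_cancel, mul_one, one_mul,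 inv_one, C])
  have k80 : o.lt (f * Q⁻¹) (P * x⁻¹) ↔ o.lt (1) (P * (x⁻¹ * (Q * f⁻¹))) := o.cv hδ (Q * f⁻¹) e5 (by simp only [mul_assoc, mul_inv_rev, inv_inv, mul_inv_cancel_left, inv_mul_cancel_left, mul_inv_cancel, inv_mul_cancel, mul_one, one_mul, inv_one, C]) (by simp only [mul_assoc, mul_inv_rev, inv_inv, mul_inv_cancel_left, inv_mul_cancel_left, mul_inv_cancel, inv_mul_cancel, mul_one, one_mul, inv_one, C])
  have k81 : o.lt (f * (Q⁻¹ * (P * x⁻¹))) (f * (Q⁻¹ * (x * Q⁻¹))) ↔ o.lt (f * (Q⁻¹ * (P * x⁻¹))) (f * (Q⁻¹ * (x * Q⁻¹))) := o.cv hδ (1) e30 (by simp only [mul_assoc, mul_inv_rev, inv_inv, mul_inv_cancel_left, inv_mul_cancel_left, mul_inv_cancel, inv_mul_cancel, mul_one, one_mul, inv_one, C]) (by simp only [mul_assoc, mul_inv_rev, inv_inv, mul_inv_cancel_left, inv_mul_cancel_left, mul_inv_cancel, inv_mul_cancel, mul_one, one_mul, inv_one, C])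
  have k82 : o.lt (f * (Q⁻¹ * (x * Q⁻¹))) (f * (Q⁻¹ * (P * x⁻¹))) ↔ o.lt (f * (Q⁻¹ * (x * Q⁻¹))) (f * (Q⁻¹ * (P * x⁻¹))) := o.cv hδ (1) e32 (by simp only [mul_assoc, mul_inv_rev, inv_inv, mul_inv_cancel_left, inv_mul_cancel_left, mul_inv_cancel, inv_mul_cancel, mul_one, one_mul, inv_one, C]) (by simp only [mul_assoc, mul_inv_rev, inv_inv, mul_inv_cancel_left, inv_mul_cancel_left, mul_inv_cancel, inv_mul_cancel, mul_one, one_mul, inv_one, C])
  have k83 : o.lt (f * (Q⁻¹ * (x * P⁻¹))) (f * x⁻¹) ↔ o.lt (f * (Q⁻¹ * (P * x⁻¹))) (f * P⁻¹) := o.cv hδ (P * (x⁻¹ * (P * x⁻¹))) e28 (by simp only [mul_assoc, mul_inv_rev, inv_inv, mul_inv_cancel_left, inv_mul_cancel_left, mul_inv_cancel, inv_mul_cancel, mul_one, one_mul, inv_one, C]) (by simp only [mul_assoc, mul_inv_rev, inv_inv, mul_inv_cancel_left, inv_mul_cancel_left, mul_inv_cancel, inv_mul_cancel, mul_one, one_mul, inv_one, C])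
  have k84 : o.lt (f * (Q⁻¹ * (P * x⁻¹))) (f * (Q⁻¹ * (P * f⁻¹))) ↔ o.lt (f * (Q⁻¹ * (P * x⁻¹))) (f * (Q⁻¹ * (P * f⁻¹))) := o.cv hδ (1) e29 (by simp only [mul_assoc, mul_inv_rev, inv_inv, mul_inv_cancel_left, inv_mul_cancel_left, mul_inv_cancel, inv_mul_cancel, mul_one, one_mul, inv_one, C]) (by simp only [mul_assoc, mul_inv_rev, inv_inv, mul_inv_cancel_left, inv_mul_cancel_left, mul_inv_cancel, inv_mul_cancel, mul_one, one_mul, inv_one, C])
  have k85 : o.lt (f * Q⁻¹) (P * f⁻¹) ↔ o.lt (f * (Q⁻¹ * (P * f⁻¹))) (f * P⁻¹) := o.cv hδ (P * f⁻¹) e13 (by simp only [mul_assoc, mul_inv_rev, inv_inv, mul_inv_cancel_left, inv_mul_cancel_left, mul_inv_cancel, inv_mul_cancel, mul_one, one_mul, inv_one, C]) (by simp only [mul_assoc, mul_inv_rev, inv_inv, mul_inv_cancel_left, inv_mul_cancel_left, mul_inv_cancel, inv_mul_cancel, mul_one, one_mul, inv_one, C])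
  have k86 : o.lt (f * (Q⁻¹ * f)) (f * (Q⁻¹ * x)) ↔ o.lt (f * (Q⁻¹ * (f * P⁻¹))) (f * (Q⁻¹ * (x * P⁻¹))) := o.cv hδ (P⁻¹) e26 (by simp only [mul_assoc, mul_inv_rev, inv_inv, mul_inv_cancel_left, inv_mul_cancel_left, mul_inv_cancel, inv_mul_cancel, mul_one, one_mul, inv_one, C]) (by simp only [mul_assoc, mul_inv_rev, inv_inv, mul_inv_cancel_left, inv_mul_cancel_left, mul_inv_cancel, inv_mul_cancel, mul_one, one_mul, inv_one, C])
  have k87 : o.lt (f * Q⁻¹) (P * f⁻¹) ↔ o.lt (f * (Q⁻¹ * (f * P⁻¹))) (1) := o.cv hδ (f * P⁻¹) e13 (by simp only [mul_assoc, mul_inv_rev, inv_inv, mul_inv_cancel_left, inv_mul_cancel_left, mul_inv_cancel, inv_mul_cancel, mul_one, one_mul, inv_one, C]) (by simp only [mul_assoc, mul_inv_rev, inv_inv, mul_inv_cancel_left, inv_mul_cancel_left, mul_inv_cancel, inv_mul_cancel, mul_one, one_mul, inv_one, C])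
  have k88 : o.lt (P * x⁻¹) (f * Q⁻¹) ↔ o.lt (1) (f * (Q⁻¹ * (x * P⁻¹))) := o.cv hδ (x * P⁻¹) e2 (by simp only [mul_assoc, mul_inv_rev, inv_inv, mul_inv_cancel_left, inv_mul_cancel_left, mul_inv_cancel, inv_mul_cancel, mul_one, one_mul, inv_one, C]) (by simp only [mul_assoc, mul_inv_rev, inv_inv, mul_inv_cancel_left, inv_mul_cancel_left, mul_inv_cancel, inv_mul_cancel, mul_one, one_mul, inv_one, C])
  have k89 : o.lt (f * Q⁻¹) (P * x⁻¹) ↔ o.lt (f * (Q⁻¹ * (x * P⁻¹))) (1) := o.cv hδ (x * P⁻¹) e5 (by simp only [mul_assoc, mul_inv_rev, inv_inv, mul_inv_cancel_left, inv_mul_cancel_left, mul_inv_cancel, inv_mul_cancel, mul_one, one_mul, inv_one, C]) (by simp only [mul_assoc, mul_inv_rev, inv_inv, mul_inv_cancel_left, inv_mul_cancel_left, mul_inv_cancel, inv_mul_cancel, mul_one, one_mul, inv_one, C])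
  have k90 : o.lt (f * (Q⁻¹ * (x * P⁻¹))) (f * x⁻¹) ↔ o.lt (f * (Q⁻¹ * (x * P⁻¹))) (f * x⁻¹) := o.cv hδ (1) e28 (by simp only [mul_assoc, mul_inv_rev, inv_inv, mul_inv_cancel_left, inv_mul_cancel_left, mul_inv_cancel, inv_mul_cancel, mul_one, one_mul, inv_one, C]) (by simp only [mul_assoc, mul_inv_rev, inv_inv, mul_inv_cancel_left, inv_mul_cancel_left, mul_inv_cancel, inv_mul_cancel, mul_one, one_mul, inv_one, C])
  have k91 : o.lt (f * x⁻¹) (1) ↔ o.lt (f * x⁻¹) (1) := o.cv hδ (1) e9 (by simp only [mul_assoc, mul_inv_rev, inv_inv, mul_inv_cancel_left, inv_mul_cancel_left, mul_inv_cancel, inv_mul_cancel, mul_one, one_mul, inv_one, C]) (by simp only [mul_assoc, mul_inv_rev, inv_inv, mul_inv_cancel_left, inv_mul_cancel_left, mul_inv_cancel, inv_mul_cancel, mul_one, one_mul, inv_one, C])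
  have k92 : o.lt (x) (f) ↔ o.lt (1) (f * x⁻¹) := o.cv hδ (x⁻¹) e17 (by simp only [mul_assoc, mul_inv_rev, inv_inv, mul_inv_cancel_left, inv_mul_cancel_left, mul_inv_cancel, inv_mul_cancel, mul_one, one_mul, inv_one, C]) (by simp only [mul_assoc, mul_inv_rev, inv_inv, mul_inv_cancel_left, inv_mul_cancel_left, mul_inv_cancel, inv_mul_cancel, mul_one, one_mul, inv_one, C])
  have k93 : o.lt (g * Q⁻¹) (f * Q⁻¹) ↔ o.lt (1) (f * g⁻¹) := o.cv hδ (Q * g⁻¹) e18 (by simp only [mul_assoc, mul_inv_rev, inv_inv, mul_inv_cancel_left, inv_mul_cancel_left, mul_inv_cancel, inv_mul_cancel, mul_one, one_mul, inv_one, C]) (by simp only [mul_assoc, mul_inv_rev, inv_inv, mul_inv_cancel_left, inv_mul_cancel_left, mul_inv_cancel, inv_mul_cancel, mul_one, one_mul, inv_one, C])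
  have k94 : o.lt (f * g⁻¹) (f * x⁻¹) ↔ o.lt (f * g⁻¹) (f * x⁻¹) := o.cv hδ (1) e36 (by simp only [mul_assoc, mul_inv_rev, inv_inv, mul_inv_cancel_left, inv_mul_cancel_left, mul_inv_cancel, inv_mul_cancel, mul_one, one_mul, inv_one, C]) (by simp only [mul_assoc, mul_inv_rev, inv_inv, mul_inv_cancel_left, inv_mul_cancel_left, mul_inv_cancel, inv_mul_cancel, mul_one, one_mul, inv_one, C])
  have k95 : o.lt (f * x⁻¹) (f * g⁻¹) ↔ o.lt (f * x⁻¹) (f * g⁻¹) := o.cv hδ (1) e31 (by simp only [mul_assoc, mul_inv_rev, inv_inv, mul_inv_cancel_left, inv_mul_cancel_left, mul_inv_cancel, inv_mul_cancel, mul_one, one_mul, inv_one, C]) (by simp only [mul_assoc, mul_inv_rev, inv_inv, mul_inv_cancel_left, inv_mul_cancel_left, mul_inv_cancel, inv_mul_cancel, mul_one, one_mul, inv_one, C])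
  have k96 : o.lt (f * (Q⁻¹ * (g * P⁻¹))) (f * (Q⁻¹ * (x * P⁻¹))) ↔ o.lt (f * (Q⁻¹ * (g * P⁻¹))) (f * (Q⁻¹ * (x * P⁻¹))) := o.cv hδ (1) e34 (by simp only [mul_assoc, mul_inv_rev, inv_inv, mul_inv_cancel_left, inv_mul_cancel_left, mul_inv_cancel, inv_mul_cancel, mul_one, one_mul, inv_one, C]) (by simp only [mul_assoc, mul_inv_rev, inv_inv, mul_inv_cancel_left, inv_mul_cancel_left, mul_inv_cancel, inv_mul_cancel, mul_one, one_mul, inv_one, C])
  have k97 : o.lt (f * Q⁻¹) (P * g⁻¹) ↔ o.lt (f * (Q⁻¹ * (g * P⁻¹))) (1) := o.cv hδ (g * P⁻¹) e33 (by simp only [mul_assoc, mul_inv_rev, inv_inv, mul_inv_cancel_left, inv_mul_cancel_left, mul_inv_cancel, inv_mul_cancel, mul_one, one_mul, inv_one, C]) (by simp only [mul_assoc, mul_inv_rev, inv_inv, mul_inv_cancel_left, inv_mul_cancel_left, mul_inv_cancel, inv_mul_cancel, mul_one, one_mul, inv_one, C])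
  have k98 : o.lt (f * (Q⁻¹ * (P * x⁻¹))) (f * (Q⁻¹ * (x * Q⁻¹))) ↔ o.lt (f * (Q⁻¹ * (P * Q⁻¹))) (f * x⁻¹) := o.cv hδ (x * Q⁻¹) e30 (by simp only [mul_assoc, mul_inv_rev, inv_inv, mul_inv_cancel_left, inv_mul_cancel_left, mul_inv_cancel, inv_mul_cancel, mul_one, one_mul, inv_one, C]) (by simp only [mul_assoc, mul_inv_rev, inv_inv, mul_inv_cancel_left, inv_mul_cancel_left, mul_inv_cancel, inv_mul_cancel, mul_one, one_mul, inv_one, C])
  have k99 : o.lt (f * (Q⁻¹ * (P * f⁻¹))) (Q * f⁻¹) ↔ o.lt (f * (Q⁻¹ * (P * Q⁻¹))) (1) := o.cv hδ (f * Q⁻¹) e27 (by simp only [mul_assoc, mul_inv_rev, inv_inv, mul_inv_cancel_left, inv_mul_cancel_left, mul_inv_cancel, inv_mul_cancel, mul_one, one_mul, inv_one, C]) (by simp only [mul_assoc, mul_inv_rev, inv_inv, mul_inv_cancel_left, inv_mul_cancel_left, mul_inv_cancel, inv_mul_cancel, mul_one, one_mul, inv_one, C])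
  have k100 : o.lt (g * Q⁻¹) (f * Q⁻¹) ↔ o.lt (g) (f) := o.cv hδ (Q) e18 (by simp only [mul_assoc, mul_inv_rev, inv_inv, mul_inv_cancel_left, inv_mul_cancel_left, mul_inv_cancel, inv_mul_cancel, mul_one, one_mul, inv_one, C]) (by simp only [mul_assoc, mul_inv_rev, inv_inv, mul_inv_cancel_left, inv_mul_cancel_left, mul_inv_cancel, inv_mul_cancel, mul_one, one_mul, inv_one, C])
  exact par_BAC_2_prop
    (fun b0 b1 b2 b3 => N0.i.r0 1 (fun h => b0 (k0.2 h)) (fun h => b1 (k1.2 h)) (k2.1 b2) (fun h => b3 (k3.2 h)))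
    (fun b0 b1 b2 b3 => N0.i.r1 1 (fun h => b0 (k2.2 h)) (k4.1 b1) (fun h => b2 (k5.2 h)) (fun h => b3 (k3.2 h)))
    (fun b0 b1 b2 => N1.rd.r1 1 (fun h => b0 (k6.2 h)) (fun h => b1 (k7.2 h)) (k8.1 b2))
    (fun b0 b1 b2 => N1.r.r0 1 (fun h => b0 (k9.2 h)) (k7.1 b1) (fun h => b2 (k10.2 h)))
    (fun b0 b1 b2 => N1.r.r1 1 (fun h => b0 (k11.2 h)) (fun h => b1 (k12.2 h)) (k10.1 b2))
    (fun b0 b1 b2 => N1.rd.r0 1 (fun h => b0 (k13.2 h)) (k12.1 b1) (fun h => b2 (k8.2 h)))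
    (fun b0 b1 b2 => N1.i.r0 1 (fun h => b0 (k14.2 h)) (k15.1 b1) (fun h => b2 (k16.2 h)))
    (fun b0 b1 b2 b3 => N0.d.r0 (P * x⁻¹) (fun h => b0 (k17.2 h)) (fun h => b1 (k18.2 h)) (k19.1 b2) (fun h => b3 (k20.2 h)))
    (fun b0 b1 b2 => N1.r.r1 (P * x⁻¹) (fun h => b0 (k21.2 h)) (fun h => b1 (k22.2 h)) (k23.1 b2))
    (fun b0 b1 b2 b3 => N0.d.r0 (f * Q⁻¹) (fun h => b0 (k24.2 h)) (fun h => b1 (k25.2 h)) (k26.1 b2) (fun h => b3 (k27.2 h)))
    (fun b0 b1 b2 b3 => N0.r.r0 (f * Q⁻¹) (fun h => b0 (k28.2 h)) (fun h => b1 (k29.2 h)) (k30.1 b2) (fun h => b3 (k27.2 h)))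
    (fun b0 b1 b2 => N1.rd.r1 (f * Q⁻¹) (fun h => b0 (k31.2 h)) (fun h => b1 (k32.2 h)) (k33.1 b2))
    (fun b0 b1 b2 => N1.r.r0 (f * Q⁻¹) (fun h => b0 (k34.2 h)) (k32.1 b1) (fun h => b2 (k35.2 h)))
    (fun b0 b1 => o.asym (k36.1 b0) (k37.1 b1))
    (fun b0 b1 => o.asym (k38.1 b0) (k39.1 b1))
    (fun b0 b1 b2 => o.tri (k38.1 b0) (fun h => b1 (k36.2 h)) (fun h => b2 (k40.2 h)))
    (fun b0 b1 b2 => o.tri (k41.1 b0) (fun h => b1 (k42.2 h)) (fun h => b2 (k43.2 h)))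
    (fun b0 b1 => o.asym (k42.1 b0) (k44.1 b1))
    (fun b0 b1 b2 => o.tri (k45.1 b0) (fun h => b1 (k46.2 h)) (fun h => b2 (k47.2 h)))
    (fun b0 b1 b2 => o.tri (k48.1 b0) (fun h => b1 (k46.2 h)) (fun h => b2 (k49.2 h)))
    (fun b0 b1 b2 => o.tri (k44.1 b0) (fun h => b1 (k43.2 h)) (fun h => b2 (k50.2 h)))
    (fun b0 b1 b2 => o.tri (k43.1 b0) (fun h => b1 (k51.2 h)) (fun h => b2 (k52.2 h)))
    (fun b0 b1 => o.asym (k51.1 b0) (k53.1 b1))
    (fun b0 b1 b2 => o.tri (k54.1 b0) (fun h => b1 (k47.2 h)) (fun h => b2 (k36.2 h)))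
    (fun b0 b1 b2 => o.tri (k55.1 b0) (fun h => b1 (k39.2 h)) (fun h => b2 (k36.2 h)))
    (fun b0 b1 b2 => o.tri (k53.1 b0) (fun h => b1 (k39.2 h)) (fun h => b2 (k56.2 h)))
    (fun b0 b1 b2 => o.tri (k57.1 b0) (fun h => b1 (k52.2 h)) (fun h => b2 (k46.2 h)))
    (fun b0 b1 b2 => o.tri (k58.1 b0) (fun h => b1 (k59.2 h)) (fun h => b2 (k60.2 h)))
    (fun b0 b1 => o.asym (k59.1 b0) (k61.1 b1))
    (fun b0 b1 b2 => o.tri (k62.1 b0) (fun h => b1 (k59.2 h)) (fun h => b2 (k63.2 h)))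
    (fun b0 b1 b2 => o.tri (k64.1 b0) (fun h => b1 (k65.2 h)) (fun h => b2 (k66.2 h)))
    (fun b0 b1 => o.asym (k67.1 b0) (k60.1 b1))
    (fun b0 b1 b2 => o.tri (k68.1 b0) (fun h => b1 (k69.2 h)) (fun h => b2 (k59.2 h)))
    (fun b0 b1 b2 => o.tri (k60.1 b0) (fun h => b1 (k63.2 h)) (fun h => b2 (k70.2 h)))
    (fun b0 b1 b2 => o.tri (k71.1 b0) (fun h => b1 (k72.2 h)) (fun h => b2 (k73.2 h)))
    (fun b0 b1 => o.asym (k74.1 b0) (k75.1 b1))
    (fun b0 b1 b2 => o.tri (k76.1 b0) (fun h => b1 (k77.2 h)) (fun h => b2 (k78.2 h)))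
    (fun b0 b1 b2 => o.tri (k79.1 b0) (fun h => b1 (k78.2 h)) (fun h => b2 (k80.2 h)))
    (fun b0 b1 => o.asym (k81.1 b0) (k82.1 b1))
    (fun b0 b1 b2 => o.tri (k83.1 b0) (fun h => b1 (k84.2 h)) (fun h => b2 (k85.2 h)))
    (fun b0 b1 b2 => o.tri (k86.1 b0) (fun h => b1 (k87.2 h)) (fun h => b2 (k88.2 h)))
    (fun b0 b1 b2 => o.tri (k89.1 b0) (fun h => b1 (k90.2 h)) (fun h => b2 (k91.2 h)))
    (fun b0 b1 b2 => o.tri (k92.1 b0) (fun h => b1 (k93.2 h)) (fun h => b2 (k94.2 h)))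
    (fun b0 b1 => o.asym (k95.1 b0) (k94.1 b1))
    (fun b0 b1 b2 => o.tri (k96.1 b0) (fun h => b1 (k97.2 h)) (fun h => b2 (k88.2 h)))
    (fun b0 b1 b2 => o.tri (k98.1 b0) (fun h => b1 (k99.2 h)) (fun h => b2 (k92.2 h)))
    (fun h => g0 (k47.1 h))
    (k38.2 g1)
    (fun h => g2 (k46.1 h))
    (fun h => g3 (k100.1 h))

end Pool.Agent.K7.H31.SA
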