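import Pool.Agent.K7.H31.SA.OpsE1
import Pool.Agent.K7.H31.SA.OpsE2
import Pool.Agent.K7.H31.SA.OpsO
import Pool.Agent.K7.H31.SA.OpsP

set_option autoImplicit false
set_option linter.all false

/-!
# The rules for two-terminal networks
-/

namespace Pool.Agent.K7.H31.SA

variable {G : Type*} [Group G]

/-- The four kinds of networks. -/
inductive Kind
  | even | one | two | three
  deriving DecidableEq

/-- Networks of kind `one`, `two`, `three` join vertices of opposite colours. -/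
def Kind.odd : Kind → Bool
  | .even => false
  | _ => true

/-- The rules of a network of kind `k`. -/
def BK {δ : G → ZMod 3} (k : Kind) (o : Pre δ) (P Q f g : G) : Prop :=
  match k with
  | .even => BE o P Q f g
  | .one => BA o P Q f g
  | .two => BB o P Q f g
  | .three => BC o P Q f g

structure NF {δ : G → ZMod 3} (o : Pre δ) (k : Kind) (P Q f g : G) : Prop where
  cPf : (P * f⁻¹) ^ 3 = 1
  cPg : (P * g⁻¹) ^ 3 = 1
  cQf : (Q * f⁻¹) ^ 3 = 1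
  cQg : (Q * g⁻¹) ^ 3 = 1
  dQ : δ Q = if k.odd then -δ P else δ P
  df : δ f = 0
  dg : δ g = 0
  i : BK k o P Q f g
  d : BK k o.dual P Q f g
  r : BK k o Q P g f
  rd : BK k o.dual Q P g f

theorem three0 (e : ZMod 3) : 3 * e = 0 := by
  have h : (3 : ZMod 3) = 0 := by decide
  rw [h, zero_mul]

section
variable {δ : G → ZMod 3} (hδ : ∀ u v, δ (u * v) = δ u + δ v) {o : Pre δ}

theorem NF.symm {k : Kind} {P Q f g : G} (h : NF o k P Q f g) : NF o k Q P g f where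
  cPf := h.cQg
  cPg := h.cQf
  cQf := h.cPg
  cQg := h.cPf
  dQ := by
    have h1 := h.dQ
    cases k <;> simp_all [Kind.odd]
  df := h.dg
  dg := h.df
  i := h.r
  d := h.rd
  r := h.i
  rd := h.d

theorem NF.dual {k : Kind} {P Q f g : G} (h : NF o k P Q f g) : NF o.dual k P Q f g where
  cPf := h.cPf
  cPg := h.cPg
  cQf := h.cQf
  cQg := h.cQg
  dQ := h.dQ
  df := h.df
  dg := h.dg
  i := h.d
  d := h.i
  r := h.rd
  rd := h.r

theorem BE.shift (hδ : ∀ u v, δ (u * v) = δ u + δ v) {P Q f g : G} (h : BE o P Q f g) (z : G) :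
    BE (o.shift hδ z) P Q f g :=
  ⟨fun y => by simpa only [Pre.shift_lt, mul_assoc] using h.r0 (z * y), fun y => by simpa only [Pre.shift_lt, mul_assoc] using h.r1 (z * y), fun y => by simpa only [Pre.shift_lt, mul_assoc] using h.r2 (z * y)⟩

theorem NF.toRE {P Q f g : G} (hδ : ∀ u v, δ (u * v) = δ u + δ v) (h : NF o .even P Q f g) (z : G) :
    RE (o.shift hδ z) P Q f g :=
  ⟨BE.shift hδ h.i z, BE.shift hδ h.d z, BE.shift hδ h.r z, BE.shift hδ h.rd z⟩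

theorem BA.shift (hδ : ∀ u v, δ (u * v) = δ u + δ v) {P Q f g : G} (h : BA o P Q f g) (z : G) :
    BA (o.shift hδ z) P Q f g :=
  ⟨fun y => by simpa only [Pre.shift_lt, mul_assoc] using h.r0 (z * y), fun y => by simpa only [Pre.shift_lt, mul_assoc] using h.r1 (z * y)⟩

theorem NF.toRA {P Q f g : G} (hδ : ∀ u v, δ (u * v) = δ u + δ v) (h : NF o .one P Q f g) (z : G) :
    RA (o.shift hδ z) P Q f g :=
  ⟨BA.shift hδ h.i z, BA.shift hδ h.d z, BA.shift hδ h.r z, BA.shift hδ h.rd z⟩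

theorem BB.shift (hδ : ∀ u v, δ (u * v) = δ u + δ v) {P Q f g : G} (h : BB o P Q f g) (z : G) :
    BB (o.shift hδ z) P Q f g :=
  ⟨fun y => by simpa only [Pre.shift_lt, mul_assoc] using h.r0 (z * y), fun y => by simpa only [Pre.shift_lt, mul_assoc] using h.r1 (z * y)⟩

theorem NF.toRB {P Q f g : G} (hδ : ∀ u v, δ (u * v) = δ u + δ v) (h : NF o .two P Q f g) (z : G) :
    RB (o.shift hδ z) P Q f g :=
  ⟨BB.shift hδ h.i z, BB.shift hδ h.d z, BB.shift hδ h.r z, BB.shift hδ h.rd z⟩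

theorem BC.shift (hδ : ∀ u v, δ (u * v) = δ u + δ v) {P Q f g : G} (h : BC o P Q f g) (z : G) :
    BC (o.shift hδ z) P Q f g :=
  ⟨fun y => by simpa only [Pre.shift_lt, mul_assoc] using h.r0 (z * y), fun y => by simpa only [Pre.shift_lt, mul_assoc] using h.r1 (z * y), fun y => by simpa only [Pre.shift_lt, mul_assoc] using h.r2 (z * y)⟩

theorem NF.toRC {P Q f g : G} (hδ : ∀ u v, δ (u * v) = δ u + δ v) (h : NF o .three P Q f g) (z : G) :
    RC (o.shift hδ z) P Q f g :=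
  ⟨BC.shift hδ h.i z, BC.shift hδ h.d z, BC.shift hδ h.r z, BC.shift hδ h.rd z⟩

include hδ

theorem base_ser_EEE {P m Q f g : G} (h1 : NF o .even P m f g) (h2 : NF o .even m Q f g) : BE o P Q f g := by
  have a1 := h1.dQ
  have a2 := h2.dQ
  simp only [Kind.odd, if_true, Bool.false_eq_true, if_false] at a1 a2
  have D : δ P = δ P ∧ δ m = δ P ∧ δ Q = δ P ∧ δ f = 0 ∧ δ g = 0 :=
    ⟨rfl, a1, by rw [a2, a1], h1.df, h1.dg⟩
  have C := And.intro (Cube.of h1.cPf) (And.intro (Cube.of h1.cPg) (And.intro (Cube.of h1.cQf)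
    (And.intro (Cube.of h1.cQg) (And.intro (Cube.of h2.cQf) (Cube.of h2.cQg)))))
  exact ⟨fun z g0 g1 g2 => ser_EEE_0 hδ (o.shift hδ z) (three0 (δ P)) D C (h1.toRE hδ z) (h2.toRE hδ z) g0 g1 g2,
    fun z g0 g1 g2 => ser_EEE_1 hδ (o.shift hδ z) (three0 (δ P)) D C (h1.toRE hδ z) (h2.toRE hδ z) g0 g1 g2,
    fun z g0 g1 g2 => ser_EEE_2 hδ (o.shift hδ z) (three0 (δ P)) D C (h1.toRE hδ z) (h2.toRE hδ z) g0 g1 g2⟩

theorem base_ser_AAE {P m Q f g : G} (h1 : NF o .one P m f g) (h2 : NF o .one m Q f g) : BE o P Q f g := by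
  have a1 := h1.dQ
  have a2 := h2.dQ
  simp only [Kind.odd, if_true, Bool.false_eq_true, if_false] at a1 a2
  have D : δ P = δ P ∧ δ m = -δ P ∧ δ Q = δ P ∧ δ f = 0 ∧ δ g = 0 :=
    ⟨rfl, a1, by rw [a2, a1]; exact neg_neg _, h1.df, h1.dg⟩
  have C := And.intro (Cube.of h1.cPf) (And.intro (Cube.of h1.cPg) (And.intro (Cube.of h1.cQf)
    (And.intro (Cube.of h1.cQg) (And.intro (Cube.of h2.cQf) (Cube.of h2.cQg)))))
  exact ⟨fun z g0 g1 g2 => ser_AAE_0 hδ (o.shift hδ z) (three0 (δ P)) D C (h1.toRA hδ z) (h2.symm.toRA hδ z) g0 g1 g2,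
    fun z g0 g1 g2 => ser_AAE_1 hδ (o.shift hδ z) (three0 (δ P)) D C (h1.toRA hδ z) (h2.symm.toRA hδ z) g0 g1 g2,
    fun z g0 g1 g2 => ser_AAE_2 hδ (o.shift hδ z) (three0 (δ P)) D C (h1.toRA hδ z) (h2.symm.toRA hδ z) g0 g1 g2⟩

theorem base_ser_ABE {P m Q f g : G} (h1 : NF o .one P m f g) (h2 : NF o .two m Q f g) : BE o P Q f g := by
  have a1 := h1.dQ
  have a2 := h2.dQ
  simp only [Kind.odd, if_true, Bool.false_eq_true, if_false] at a1 a2
  have D : δ P = δ P ∧ δ m = -δ P ∧ δ Q = δ P ∧ δ f = 0 ∧ δ g = 0 :=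
    ⟨rfl, a1, by rw [a2, a1]; exact neg_neg _, h1.df, h1.dg⟩
  have C := And.intro (Cube.of h1.cPf) (And.intro (Cube.of h1.cPg) (And.intro (Cube.of h1.cQf)
    (And.intro (Cube.of h1.cQg) (And.intro (Cube.of h2.cQf) (Cube.of h2.cQg)))))
  exact ⟨fun z g0 g1 g2 => ser_ABE_0 hδ (o.shift hδ z) (three0 (δ P)) D C (h1.toRA hδ z) (h2.symm.toRB hδ z) g0 g1 g2,
    fun z g0 g1 g2 => ser_ABE_1 hδ (o.shift hδ z) (three0 (δ P)) D C (h1.toRA hδ z) (h2.symm.toRB hδ z) g0 g1 g2,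
    fun z g0 g1 g2 => ser_ABE_2 hδ (o.shift hδ z) (three0 (δ P)) D C (h1.toRA hδ z) (h2.symm.toRB hδ z) g0 g1 g2⟩

theorem base_ser_BAE {P m Q f g : G} (h1 : NF o .two P m f g) (h2 : NF o .one m Q f g) : BE o P Q f g := by
  have a1 := h1.dQ
  have a2 := h2.dQ
  simp only [Kind.odd, if_true, Bool.false_eq_true, if_false] at a1 a2
  have D : δ P = δ P ∧ δ m = -δ P ∧ δ Q = δ P ∧ δ f = 0 ∧ δ g = 0 :=
    ⟨rfl, a1, by rw [a2, a1]; exact neg_neg _, h1.df, h1.dg⟩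
  have C := And.intro (Cube.of h1.cPf) (And.intro (Cube.of h1.cPg) (And.intro (Cube.of h1.cQf)
    (And.intro (Cube.of h1.cQg) (And.intro (Cube.of h2.cQf) (Cube.of h2.cQg)))))
  exact ⟨fun z g0 g1 g2 => ser_BAE_0 hδ (o.shift hδ z) (three0 (δ P)) D C (h1.toRB hδ z) (h2.symm.toRA hδ z) g0 g1 g2,
    fun z g0 g1 g2 => ser_BAE_1 hδ (o.shift hδ z) (three0 (δ P)) D C (h1.toRB hδ z) (h2.symm.toRA hδ z) g0 g1 g2,
    fun z g0 g1 g2 => ser_BAE_2 hδ (o.shift hδ z) (three0 (δ P)) D C (h1.toRB hδ z) (h2.symm.toRA hδ z) g0 g1 g2⟩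

theorem base_ser_ACE {P m Q f g : G} (h1 : NF o .one P m f g) (h2 : NF o .three m Q f g) : BE o P Q f g := by
  have a1 := h1.dQ
  have a2 := h2.dQ
  simp only [Kind.odd, if_true, Bool.false_eq_true, if_false] at a1 a2
  have D : δ P = δ P ∧ δ m = -δ P ∧ δ Q = δ P ∧ δ f = 0 ∧ δ g = 0 :=
    ⟨rfl, a1, by rw [a2, a1]; exact neg_neg _, h1.df, h1.dg⟩
  have C := And.intro (Cube.of h1.cPf) (And.intro (Cube.of h1.cPg) (And.intro (Cube.of h1.cQf)
    (And.intro (Cube.of h1.cQg) (And.intro (Cube.of h2.cQf) (Cube.of h2.cQg)))))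
  exact ⟨fun z g0 g1 g2 => ser_ACE_0 hδ (o.shift hδ z) (three0 (δ P)) D C (h1.toRA hδ z) (h2.symm.toRC hδ z) g0 g1 g2,
    fun z g0 g1 g2 => ser_ACE_1 hδ (o.shift hδ z) (three0 (δ P)) D C (h1.toRA hδ z) (h2.symm.toRC hδ z) g0 g1 g2,
    fun z g0 g1 g2 => ser_ACE_2 hδ (o.shift hδ z) (three0 (δ P)) D C (h1.toRA hδ z) (h2.symm.toRC hδ z) g0 g1 g2⟩

theorem base_ser_CAE {P m Q f g : G} (h1 : NF o .three P m f g) (h2 : NF o .one m Q f g) : BE o P Q f g := by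
  have a1 := h1.dQ
  have a2 := h2.dQ
  simp only [Kind.odd, if_true, Bool.false_eq_true, if_false] at a1 a2
  have D : δ P = δ P ∧ δ m = -δ P ∧ δ Q = δ P ∧ δ f = 0 ∧ δ g = 0 :=
    ⟨rfl, a1, by rw [a2, a1]; exact neg_neg _, h1.df, h1.dg⟩
  have C := And.intro (Cube.of h1.cPf) (And.intro (Cube.of h1.cPg) (And.intro (Cube.of h1.cQf)
    (And.intro (Cube.of h1.cQg) (And.intro (Cube.of h2.cQf) (Cube.of h2.cQg)))))
  exact ⟨fun z g0 g1 g2 => ser_CAE_0 hδ (o.shift hδ z) (three0 (δ P)) D C (h1.toRC hδ z) (h2.symm.toRA hδ z) g0 g1 g2,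
    fun z g0 g1 g2 => ser_CAE_1 hδ (o.shift hδ z) (three0 (δ P)) D C (h1.toRC hδ z) (h2.symm.toRA hδ z) g0 g1 g2,
    fun z g0 g1 g2 => ser_CAE_2 hδ (o.shift hδ z) (three0 (δ P)) D C (h1.toRC hδ z) (h2.symm.toRA hδ z) g0 g1 g2⟩

theorem base_ser_EAA {P m Q f g : G} (h1 : NF o .even P m f g) (h2 : NF o .one m Q f g) : BA o P Q f g := by
  have a1 := h1.dQ
  have a2 := h2.dQ
  simp only [Kind.odd, if_true, Bool.false_eq_true, if_false] at a1 a2
  have D : δ P = δ P ∧ δ m = δ P ∧ δ Q = -δ P ∧ δ f = 0 ∧ δ g = 0 :=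
    ⟨rfl, a1, by rw [a2, a1], h1.df, h1.dg⟩
  have C := And.intro (Cube.of h1.cPf) (And.intro (Cube.of h1.cPg) (And.intro (Cube.of h1.cQf)
    (And.intro (Cube.of h1.cQg) (And.intro (Cube.of h2.cQf) (Cube.of h2.cQg)))))
  exact ⟨fun z g0 g1 g2 => ser_EAA_0 hδ (o.shift hδ z) (three0 (δ P)) D C (h1.toRE hδ z) (h2.toRA hδ z) g0 g1 g2,
    fun z g0 g1 g2 => ser_EAA_1 hδ (o.shift hδ z) (three0 (δ P)) D C (h1.toRE hδ z) (h2.toRA hδ z) g0 g1 g2⟩

theorem base_ser_AEA {P m Q f g : G} (h1 : NF o .one P m f g) (h2 : NF o .even m Q f g) : BA o P Q f g := by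
  have a1 := h1.dQ
  have a2 := h2.dQ
  simp only [Kind.odd, if_true, Bool.false_eq_true, if_false] at a1 a2
  have D : δ P = δ P ∧ δ m = -δ P ∧ δ Q = -δ P ∧ δ f = 0 ∧ δ g = 0 :=
    ⟨rfl, a1, by rw [a2, a1], h1.df, h1.dg⟩
  have C := And.intro (Cube.of h1.cPf) (And.intro (Cube.of h1.cPg) (And.intro (Cube.of h1.cQf)
    (And.intro (Cube.of h1.cQg) (And.intro (Cube.of h2.cQf) (Cube.of h2.cQg)))))
  exact ⟨fun z g0 g1 g2 => ser_AEA_0 hδ (o.shift hδ z) (three0 (δ P)) D C (h1.toRA hδ z) (h2.toRE hδ z) g0 g1 g2,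
    fun z g0 g1 g2 => ser_AEA_1 hδ (o.shift hδ z) (three0 (δ P)) D C (h1.toRA hδ z) (h2.toRE hδ z) g0 g1 g2⟩

theorem base_ser_EBB {P m Q f g : G} (h1 : NF o .even P m f g) (h2 : NF o .two m Q f g) : BB o P Q f g := by
  have a1 := h1.dQ
  have a2 := h2.dQ
  simp only [Kind.odd, if_true, Bool.false_eq_true, if_false] at a1 a2
  have D : δ P = δ P ∧ δ m = δ P ∧ δ Q = -δ P ∧ δ f = 0 ∧ δ g = 0 :=
    ⟨rfl, a1, by rw [a2, a1], h1.df, h1.dg⟩
  have C := And.intro (Cube.of h1.cPf) (And.intro (Cube.of h1.cPg) (And.intro (Cube.of h1.cQf)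
    (And.intro (Cube.of h1.cQg) (And.intro (Cube.of h2.cQf) (Cube.of h2.cQg)))))
  exact ⟨fun z g0 g1 g2 g3 => ser_EBB_0 hδ (o.shift hδ z) (three0 (δ P)) D C (h1.toRE hδ z) (h2.toRB hδ z) g0 g1 g2 g3,
    fun z g0 g1 g2 g3 => ser_EBB_1 hδ (o.shift hδ z) (three0 (δ P)) D C (h1.toRE hδ z) (h2.toRB hδ z) g0 g1 g2 g3⟩

theorem base_ser_BEB {P m Q f g : G} (h1 : NF o .two P m f g) (h2 : NF o .even m Q f g) : BB o P Q f g := by
  have a1 := h1.dQ
  have a2 := h2.dQ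
  simp only [Kind.odd, if_true, Bool.false_eq_true, if_false] at a1 a2
  have D : δ P = δ P ∧ δ m = -δ P ∧ δ Q = -δ P ∧ δ f = 0 ∧ δ g = 0 :=
    ⟨rfl, a1, by rw [a2, a1], h1.df, h1.dg⟩
  have C := And.intro (Cube.of h1.cPf) (And.intro (Cube.of h1.cPg) (And.intro (Cube.of h1.cQf)
    (And.intro (Cube.of h1.cQg) (And.intro (Cube.of h2.cQf) (Cube.of h2.cQg)))))
  exact ⟨fun z g0 g1 g2 g3 => ser_BEB_0 hδ (o.shift hδ z) (three0 (δ P)) D C (h1.toRB hδ z) (h2.toRE hδ z) g0 g1 g2 g3,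
    fun z g0 g1 g2 g3 => ser_BEB_1 hδ (o.shift hδ z) (three0 (δ P)) D C (h1.toRB hδ z) (h2.toRE hδ z) g0 g1 g2 g3⟩

theorem base_ser_ECC {P m Q f g : G} (h1 : NF o .even P m f g) (h2 : NF o .three m Q f g) : BC o P Q f g := by
  have a1 := h1.dQ
  have a2 := h2.dQ
  simp only [Kind.odd, if_true, Bool.false_eq_true, if_false] at a1 a2
  have D : δ P = δ P ∧ δ m = δ P ∧ δ Q = -δ P ∧ δ f = 0 ∧ δ g = 0 :=
    ⟨rfl, a1, by rw [a2, a1], h1.df, h1.dg⟩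
  have C := And.intro (Cube.of h1.cPf) (And.intro (Cube.of h1.cPg) (And.intro (Cube.of h1.cQf)
    (And.intro (Cube.of h1.cQg) (And.intro (Cube.of h2.cQf) (Cube.of h2.cQg)))))
  exact ⟨fun z g0 g1 g2 => ser_ECC_0 hδ (o.shift hδ z) (three0 (δ P)) D C (h1.toRE hδ z) (h2.toRC hδ z) g0 g1 g2,
    fun z g0 g1 g2 g3 => ser_ECC_1 hδ (o.shift hδ z) (three0 (δ P)) D C (h1.toRE hδ z) (h2.toRC hδ z) g0 g1 g2 g3,
    fun z g0 g1 g2 g3 => ser_ECC_2 hδ (o.shift hδ z) (three0 (δ P)) D C (h1.toRE hδ z) (h2.toRC hδ z) g0 g1 g2 g3⟩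

theorem base_ser_CEC {P m Q f g : G} (h1 : NF o .three P m f g) (h2 : NF o .even m Q f g) : BC o P Q f g := by
  have a1 := h1.dQ
  have a2 := h2.dQ
  simp only [Kind.odd, if_true, Bool.false_eq_true, if_false] at a1 a2
  have D : δ P = δ P ∧ δ m = -δ P ∧ δ Q = -δ P ∧ δ f = 0 ∧ δ g = 0 :=
    ⟨rfl, a1, by rw [a2, a1], h1.df, h1.dg⟩
  have C := And.intro (Cube.of h1.cPf) (And.intro (Cube.of h1.cPg) (And.intro (Cube.of h1.cQf)
    (And.intro (Cube.of h1.cQg) (And.intro (Cube.of h2.cQf) (Cube.of h2.cQg)))))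
  exact ⟨fun z g0 g1 g2 => ser_CEC_0 hδ (o.shift hδ z) (three0 (δ P)) D C (h1.toRC hδ z) (h2.toRE hδ z) g0 g1 g2,
    fun z g0 g1 g2 g3 => ser_CEC_1 hδ (o.shift hδ z) (three0 (δ P)) D C (h1.toRC hδ z) (h2.toRE hδ z) g0 g1 g2 g3,
    fun z g0 g1 g2 g3 => ser_CEC_2 hδ (o.shift hδ z) (three0 (δ P)) D C (h1.toRC hδ z) (h2.toRE hδ z) g0 g1 g2 g3⟩

theorem base_par_EEE {P Q f x g : G} (h1 : NF o .even P Q f x) (h2 : NF o .even P Q x g) : BE o P Q f g := by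
  have a1 := h1.dQ
  have a2 := h2.dQ
  simp only [Kind.odd, if_true, Bool.false_eq_true, if_false] at a1 a2
  have D : δ P = δ P ∧ δ Q = δ P ∧ δ f = 0 ∧ δ x = 0 ∧ δ g = 0 := ⟨rfl, a1, h1.df, h1.dg, h2.dg⟩
  have C := And.intro (Cube.of h1.cPf) (And.intro (Cube.of h1.cPg) (And.intro (Cube.of h2.cPg)
    (And.intro (Cube.of h1.cQf) (And.intro (Cube.of h1.cQg) (Cube.of h2.cQg)))))
  exact ⟨fun z g0 g1 g2 => par_EEE_0 hδ (o.shift hδ z) (three0 (δ P)) D C (h1.toRE hδ z) (h2.toRE hδ z) g0 g1 g2,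
    fun z g0 g1 g2 => par_EEE_1 hδ (o.shift hδ z) (three0 (δ P)) D C (h1.toRE hδ z) (h2.toRE hδ z) g0 g1 g2,
    fun z g0 g1 g2 => par_EEE_2 hδ (o.shift hδ z) (three0 (δ P)) D C (h1.toRE hδ z) (h2.toRE hδ z) g0 g1 g2⟩

theorem base_par_AAB {P Q f x g : G} (h1 : NF o .one P Q f x) (h2 : NF o .one P Q x g) : BB o P Q f g := by
  have a1 := h1.dQ
  have a2 := h2.dQ
  simp only [Kind.odd, if_true, Bool.false_eq_true, if_false] at a1 a2
  have D : δ P = δ P ∧ δ Q = -δ P ∧ δ f = 0 ∧ δ x = 0 ∧ δ g = 0 := ⟨rfl, a1, h1.df, h1.dg, h2.dg⟩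
  have C := And.intro (Cube.of h1.cPf) (And.intro (Cube.of h1.cPg) (And.intro (Cube.of h2.cPg)
    (And.intro (Cube.of h1.cQf) (And.intro (Cube.of h1.cQg) (Cube.of h2.cQg)))))
  exact ⟨fun z g0 g1 g2 g3 => par_AAB_0 hδ (o.shift hδ z) (three0 (δ P)) D C (h1.toRA hδ z) (h2.toRA hδ z) g0 g1 g2 g3,
    fun z g0 g1 g2 g3 => par_AAB_1 hδ (o.shift hδ z) (three0 (δ P)) D C (h1.toRA hδ z) (h2.toRA hδ z) g0 g1 g2 g3⟩

theorem base_par_ABC {P Q f x g : G} (h1 : NF o .one P Q f x) (h2 : NF o .two P Q x g) : BC o P Q f g := by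
  have a1 := h1.dQ
  have a2 := h2.dQ
  simp only [Kind.odd, if_true, Bool.false_eq_true, if_false] at a1 a2
  have D : δ P = δ P ∧ δ Q = -δ P ∧ δ f = 0 ∧ δ x = 0 ∧ δ g = 0 := ⟨rfl, a1, h1.df, h1.dg, h2.dg⟩
  have C := And.intro (Cube.of h1.cPf) (And.intro (Cube.of h1.cPg) (And.intro (Cube.of h2.cPg)
    (And.intro (Cube.of h1.cQf) (And.intro (Cube.of h1.cQg) (Cube.of h2.cQg)))))
  exact ⟨fun z g0 g1 g2 => par_ABC_0 hδ (o.shift hδ z) (three0 (δ P)) D C (h1.toRA hδ z) (h2.toRB hδ z) g0 g1 g2,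
    fun z g0 g1 g2 g3 => par_ABC_1 hδ (o.shift hδ z) (three0 (δ P)) D C (h1.toRA hδ z) (h2.toRB hδ z) g0 g1 g2 g3,
    fun z g0 g1 g2 g3 => par_ABC_2 hδ (o.shift hδ z) (three0 (δ P)) D C (h1.toRA hδ z) (h2.toRB hδ z) g0 g1 g2 g3⟩

theorem base_par_BAC {P Q f x g : G} (h1 : NF o .two P Q f x) (h2 : NF o .one P Q x g) : BC o P Q f g := by
  have a1 := h1.dQ
  have a2 := h2.dQ
  simp only [Kind.odd, if_true, Bool.false_eq_true, if_false] at a1 a2
  have D : δ P = δ P ∧ δ Q = -δ P ∧ δ f = 0 ∧ δ x = 0 ∧ δ g = 0 := ⟨rfl, a1, h1.df, h1.dg, h2.dg⟩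
  have C := And.intro (Cube.of h1.cPf) (And.intro (Cube.of h1.cPg) (And.intro (Cube.of h2.cPg)
    (And.intro (Cube.of h1.cQf) (And.intro (Cube.of h1.cQg) (Cube.of h2.cQg)))))
  exact ⟨fun z g0 g1 g2 => par_BAC_0 hδ (o.shift hδ z) (three0 (δ P)) D C (h1.toRB hδ z) (h2.toRA hδ z) g0 g1 g2,
    fun z g0 g1 g2 g3 => par_BAC_1 hδ (o.shift hδ z) (three0 (δ P)) D C (h1.toRB hδ z) (h2.toRA hδ z) g0 g1 g2 g3,
    fun z g0 g1 g2 g3 => par_BAC_2 hδ (o.shift hδ z) (three0 (δ P)) D C (h1.toRB hδ z) (h2.toRA hδ z) g0 g1 g2 g3⟩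

omit hδ in
theorem edge_rev {P Q f g : G} (h : P * f⁻¹ * Q * g⁻¹ = 1) : Q * g⁻¹ * P * f⁻¹ = 1 := by
  have h1 : P * f⁻¹ * (Q * g⁻¹) = 1 := by rw [← h]; simp only [mul_assoc]
  have h2 : Q * g⁻¹ * (P * f⁻¹) = 1 := mul_eq_one_comm.1 h1
  rw [← h2]; simp only [mul_assoc]

omit hδ in
theorem BA.edge (hδ : ∀ u v, δ (u * v) = δ u + δ v) {P Q f g : G} (h : P * f⁻¹ * Q * g⁻¹ = 1) (df : δ f = 0) (dg : δ g = 0) :
    BA o P Q f g := by
  have e1 : P * f⁻¹ = g * Q⁻¹ := by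
    have h1 : P * f⁻¹ * (Q * g⁻¹) = 1 := by rw [← h]; simp only [mul_assoc]
    calc P * f⁻¹ = (Q * g⁻¹)⁻¹ := eq_inv_of_mul_eq_one_left h1
      _ = g * Q⁻¹ := by group
  refine ⟨fun z g0 g1 g2 => ?_, fun z g0 g1 g2 => ?_⟩
  · rw [e1] at g1
    exact o.irr g1
  · apply g0
    have d0 : δ (z * (P * g⁻¹)⁻¹) = δ (z * (g * Q⁻¹)⁻¹) := by
      rw [← e1]; simp only [hδ, δinv hδ, df, dg] <;> ring
    refine (o.cv hδ (P * Q⁻¹) d0 (by group) (by rw [← e1]; group)).1 g2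

/-- The series compositions. -/
inductive Ser : Kind → Kind → Kind → Prop
  | left (k : Kind) : Ser .even k k
  | right (k : Kind) : Ser k .even k
  | oneLeft (k : Kind) (h : k.odd = true) : Ser .one k .even
  | oneRight (k : Kind) (h : k.odd = true) : Ser k .one .even

/-- The parallel compositions. -/
inductive Par : Kind → Kind → Kind → Prop
  | even : Par .even .even .even
  | one : Par .one .one .two
  | left : Par .one .two .three
  | right : Par .two .one .three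

omit hδ in
theorem Ser.symm {i j k : Kind} (h : Ser i j k) : Ser j i k := by
  cases h with
  | left k => exact .right _
  | right k => exact .left _
  | oneLeft k h => exact .oneRight _ h
  | oneRight k h => exact .oneLeft _ h

omit hδ in
theorem Par.symm {i j k : Kind} (h : Par i j k) : Par j i k := by
  cases h with
  | even => exact .even
  | one => exact .one
  | left => exact .right
  | right => exact .left

theorem base_ser {i j k : Kind} (h : Ser i j k) {P m Q f g : G} (h1 : NF o i P m f g)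
    (h2 : NF o j m Q f g) : BK k o P Q f g := by
  cases h with
  | left =>
    cases j
    · exact base_ser_EEE hδ h1 h2
    · exact base_ser_EAA hδ h1 h2
    · exact base_ser_EBB hδ h1 h2
    · exact base_ser_ECC hδ h1 h2
  | right =>
    cases i
    · exact base_ser_EEE hδ h1 h2
    · exact base_ser_AEA hδ h1 h2
    · exact base_ser_BEB hδ h1 h2
    · exact base_ser_CEC hδ h1 h2
  | oneLeft _ h =>
    cases j
    · exact absurd h (by decide)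
    · exact base_ser_AAE hδ h1 h2
    · exact base_ser_ABE hδ h1 h2
    · exact base_ser_ACE hδ h1 h2
  | oneRight _ h =>
    cases i
    · exact absurd h (by decide)
    · exact base_ser_AAE hδ h1 h2
    · exact base_ser_BAE hδ h1 h2
    · exact base_ser_CAE hδ h1 h2

theorem base_par {i j k : Kind} (h : Par i j k) {P Q f x g : G} (h1 : NF o i P Q f x)
    (h2 : NF o j P Q x g) : BK k o P Q f g := by
  cases h with
  | even => exact base_par_EEE hδ h1 h2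
  | one => exact base_par_AAB hδ h1 h2
  | left => exact base_par_ABC hδ h1 h2
  | right => exact base_par_BAC hδ h1 h2

theorem NF.ser {i j k : Kind} (h : Ser i j k) {P m Q f g : G} (h1 : NF o i P m f g)
    (h2 : NF o j m Q f g) : NF o k P Q f g where
  cPf := h1.cPf
  cPg := h1.cPg
  cQf := h2.cQf
  cQg := h2.cQg
  dQ := by
    have a1 := h1.dQ
    have a2 := h2.dQ
    cases h <;> simp_all [Kind.odd]
  df := h1.df
  dg := h1.dg
  i := base_ser hδ h h1 h2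
  d := base_ser hδ h h1.dual h2.dual
  r := base_ser hδ h.symm h2.symm h1.symm
  rd := base_ser hδ h.symm h2.symm.dual h1.symm.dual

theorem NF.par {i j k : Kind} (h : Par i j k) {P Q f x g : G} (h1 : NF o i P Q f x)
    (h2 : NF o j P Q x g) : NF o k P Q f g where
  cPf := h1.cPf
  cPg := h2.cPg
  cQf := h1.cQf
  cQg := h2.cQg
  dQ := by
    have a1 := h1.dQ
    cases h <;> simp_all [Kind.odd]
  df := h1.df
  dg := h2.dg
  i := base_par hδ h h1 h2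
  d := base_par hδ h h1.dual h2.dual
  r := base_par hδ h.symm h2.symm h1.symm
  rd := base_par hδ h.symm h2.symm.dual h1.symm.dual

theorem NF.edge {P Q f g : G} (h : P * f⁻¹ * Q * g⁻¹ = 1) (cPf : (P * f⁻¹) ^ 3 = 1)
    (cPg : (P * g⁻¹) ^ 3 = 1) (cQf : (Q * f⁻¹) ^ 3 = 1) (cQg : (Q * g⁻¹) ^ 3 = 1)
    (dQ : δ Q = -δ P) (df : δ f = 0) (dg : δ g = 0) : NF o .one P Q f g where
  cPf := cPf
  cPg := cPg
  cQf := cQf
  cQg := cQg
  dQ := dQ
  df := df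
  dg := dg
  i := BA.edge hδ h df dg
  d := BA.edge hδ h df dg
  r := BA.edge hδ (edge_rev h) dg df
  rd := BA.edge hδ (edge_rev h) dg df

end

end Pool.Agent.K7.H31.SA
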