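import Pool.Agent.K7.H31.SA.Rules

set_option autoImplicit false
set_option maxRecDepth 100000
set_option linter.all false

/-!
# Generated order arguments
-/

namespace Pool.Agent.K7.H31.SA

theorem ser_EEE_0_prop {A1 A2 A3 A4 A5 A6 A7 A8 A9 A10 A11 A12 A13 A14 A15 A16 A17 A18 A19 A20 A21 A22 A23 A24 : Prop}
    (c0 : A4 → ¬ A8 → ¬ A16 → False)
    (c1 : ¬ A2 → A3 → ¬ A8 → False)
    (c2 : ¬ A4 → A1 → ¬ A17 → False)
    (c3 : ¬ A3 → ¬ A15 → A17 → False)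
    (c4 : A11 → ¬ A8 → ¬ A24 → False)
    (c5 : ¬ A5 → A21 → ¬ A8 → False)
    (c6 : ¬ A5 → A3 → ¬ A8 → False)
    (c7 : ¬ A21 → ¬ A9 → A17 → False)
    (c8 : A7 → ¬ A3 → ¬ A12 → False)
    (c9 : ¬ A13 → A14 → ¬ A3 → False)
    (c10 : A13 → ¬ A1 → ¬ A10 → False)
    (c11 : ¬ A14 → ¬ A11 → A1 → False)
    (c12 : A19 → A20 → False)
    (c13 : A19 → ¬ A4 → ¬ A11 → False)
    (c14 : A2 → ¬ A11 → ¬ A20 → False)
    (c15 : A11 → A5 → False)
    (c16 : A6 → A15 → False)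
    (c17 : A16 → ¬ A18 → ¬ A23 → False)
    (c18 : A18 → A9 → False)
    (c19 : A22 → ¬ A23 → ¬ A8 → False)
    (c20 : A9 → ¬ A22 → ¬ A6 → False)
    (c21 : A24 → ¬ A9 → ¬ A17 → False)
    (c22 : A9 → ¬ A5 → ¬ A13 → False)
    (c23 : A13 → ¬ A11 → ¬ A9 → False)
    (c24 : A18 → ¬ A7 → ¬ A11 → False)
    (c25 : A10 → ¬ A3 → ¬ A5 → False)
    (c26 : A12 → ¬ A11 → ¬ A1 → False)
    (u0 : A19)
    (u1 : ¬ A8)
    (u2 : ¬ A23)
    : False := by
  have q1 : ¬ A20 := fun h => c12 u0 h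
  have q2 : ¬ A22 := fun h => c19 h u2 u1
  rcases Classical.em A11 with q3 | q3
  · have q4 : A24 := Classical.byContradiction fun h => c4 q3 u1 h
    have q5 : ¬ A5 := fun h => c15 q3 h
    have q6 : ¬ A21 := fun h => c5 q5 h u1
    have q7 : ¬ A3 := fun h => c6 q5 h u1
    have q8 : ¬ A10 := fun h => c25 h q7 q5
    rcases Classical.em A9 with q9 | q9
    · have q10 : ¬ A18 := fun h => c18 h q9
      have q11 : ¬ A16 := fun h => c17 h q10 u2
      have q12 : ¬ A4 := fun h => c0 h u1 q11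
      have q13 : A6 := Classical.byContradiction fun h => c20 q9 q2 h
      have q14 : ¬ A15 := fun h => c16 q13 h
      have q15 : ¬ A17 := fun h => c3 q7 q14 h
      have q16 : ¬ A1 := fun h => c2 q12 h q15
      have q17 : ¬ A13 := fun h => c10 h q16 q8
      exact c22 q9 q5 q17
    · have q18 : ¬ A17 := fun h => c7 q6 q9 h
      exact c21 q4 q9 q18
  · have q19 : A4 := Classical.byContradiction fun h => c13 u0 h q3
    have q20 : A16 := Classical.byContradiction fun h => c0 q19 u1 h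
    have q21 : ¬ A2 := fun h => c14 h q3 q1
    have q22 : ¬ A3 := fun h => c1 q21 h u1
    have q23 : A18 := Classical.byContradiction fun h => c17 q20 h u2
    have q24 : ¬ A9 := fun h => c18 q23 h
    have q25 : ¬ A13 := fun h => c23 h q3 q24
    have q26 : ¬ A14 := fun h => c9 q25 h q22
    have q27 : ¬ A1 := fun h => c11 q26 q3 h
    have q28 : A7 := Classical.byContradiction fun h => c24 q23 h q3
    have q29 : A12 := Classical.byContradiction fun h => c8 q28 q22 h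
    exact c26 q29 q3 q27

theorem ser_EEE_0 {G : Type*} [Group G] {δ : G → ZMod 3} (hδ : ∀ u v, δ (u * v) = δ u + δ v) (o : Pre δ)
    {P m Q f g : G} {e : ZMod 3} (h3 : 3 * e = 0)
    (D : δ P = e ∧ δ m = e ∧ δ Q = e ∧ δ f = 0 ∧ δ g = 0)
    (C : Cube P f ∧ Cube P g ∧ Cube m f ∧ Cube m g ∧ Cube Q f ∧ Cube Q g)
    (N0 : RE o P m f g)
    (N1 : RE o m Q f g)
    (g0 : o.lt (P * f⁻¹) (Q * f⁻¹)) (g1 : ¬ o.lt ((P * g⁻¹)⁻¹) ((P * f⁻¹)⁻¹)) (g2 : ¬ o.lt ((Q * f⁻¹)⁻¹) ((P * g⁻¹)⁻¹)) : False := by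
  simp only [Cube] at C
  have e0 : δ (m * g⁻¹) = δ (m * f⁻¹) := by simp only [hδ, δinv hδ, δone hδ, D] <;> linear_combination (0) * h3
  have e1 : δ (m * f⁻¹) = δ (P * f⁻¹) := by simp only [hδ, δinv hδ, δone hδ, D] <;> linear_combination (0) * h3
  have e2 : δ (m * f⁻¹) = δ (m * g⁻¹) := by simp only [hδ, δinv hδ, δone hδ, D] <;> linear_combination (0) * h3
  have e3 : δ (P * f⁻¹) = δ (m * f⁻¹) := by simp only [hδ, δinv hδ, δone hδ, D] <;> linear_combination (0) * h3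
  have e4 : δ (Q * f⁻¹) = δ (m * f⁻¹) := by simp only [hδ, δinv hδ, δone hδ, D] <;> linear_combination (0) * h3
  have e5 : δ (f * P⁻¹) = δ (f * m⁻¹) := by simp only [hδ, δinv hδ, δone hδ, D] <;> linear_combination (0) * h3
  have e6 : δ (f * m⁻¹) = δ (m * (Q⁻¹ * (f * Q⁻¹))) := by simp only [hδ, δinv hδ, δone hδ, D] <;> linear_combination (0) * h3
  have e7 : δ (g * P⁻¹) = δ (f * P⁻¹) := by simp only [hδ, δinv hδ, δone hδ, D] <;> linear_combination (0) * h3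
  have e8 : δ (f * Q⁻¹) = δ (f * m⁻¹) := by simp only [hδ, δinv hδ, δone hδ, D] <;> linear_combination (0) * h3
  have e9 : δ (m * (f⁻¹ * (g * m⁻¹))) = δ (m * Q⁻¹) := by simp only [hδ, δinv hδ, δone hδ, D] <;> linear_combination (0) * h3
  have e10 : δ (m * f⁻¹) = δ (Q * f⁻¹) := by simp only [hδ, δinv hδ, δone hδ, D] <;> linear_combination (0) * h3
  have e11 : δ (m * Q⁻¹) = δ (m * (f⁻¹ * (g * m⁻¹))) := by simp only [hδ, δinv hδ, δone hδ, D] <;> linear_combination (0) * h3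
  have e12 : δ (m * (Q⁻¹ * (f * Q⁻¹))) = δ (f * m⁻¹) := by simp only [hδ, δinv hδ, δone hδ, D] <;> linear_combination (0) * h3
  have e13 : δ (m * (Q⁻¹ * (f * Q⁻¹))) = δ (m * (f⁻¹ * (Q * g⁻¹))) := by simp only [hδ, δinv hδ, δone hδ, D] <;> linear_combination (-1) * h3
  have e14 : δ (f * m⁻¹) = δ (f * P⁻¹) := by simp only [hδ, δinv hδ, δone hδ, D] <;> linear_combination (0) * h3
  have e15 : δ (f * m⁻¹) = δ (g * P⁻¹) := by simp only [hδ, δinv hδ, δone hδ, D] <;> linear_combination (0) * h3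
  have e16 : δ (f * P⁻¹) = δ (g * P⁻¹) := by simp only [hδ, δinv hδ, δone hδ, D] <;> linear_combination (0) * h3
  have e17 : δ (f * m⁻¹) = δ (f * Q⁻¹) := by simp only [hδ, δinv hδ, δone hδ, D] <;> linear_combination (0) * h3
  have e18 : δ (P * f⁻¹) = δ (Q * f⁻¹) := by simp only [hδ, δinv hδ, δone hδ, D] <;> linear_combination (0) * h3
  have e19 : δ (Q * f⁻¹) = δ (P * f⁻¹) := by simp only [hδ, δinv hδ, δone hδ, D] <;> linear_combination (0) * h3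
  have e20 : δ (Q * f⁻¹) = δ (Q * g⁻¹) := by simp only [hδ, δinv hδ, δone hδ, D] <;> linear_combination (0) * h3
  have e21 : δ (f * Q⁻¹) = δ (f * P⁻¹) := by simp only [hδ, δinv hδ, δone hδ, D] <;> linear_combination (0) * h3
  have e22 : δ (f * Q⁻¹) = δ (g * P⁻¹) := by simp only [hδ, δinv hδ, δone hδ, D] <;> linear_combination (0) * h3
  have e23 : δ (f * Q⁻¹) = δ (g * m⁻¹) := by simp only [hδ, δinv hδ, δone hδ, D] <;> linear_combination (0) * h3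
  have k0 : o.lt (P * f⁻¹) (m * f⁻¹) ↔ o.lt (1 * (P * f⁻¹)) (1 * (m * f⁻¹)) := o.cv hδ (1) e3 (by simp only [mul_assoc, mul_inv_rev, inv_inv, mul_inv_cancel_left, inv_mul_cancel_left, mul_inv_cancel, inv_mul_cancel, mul_one, one_mul, inv_one, C]) (by simp only [mul_assoc, mul_inv_rev, inv_inv, mul_inv_cancel_left, inv_mul_cancel_left, mul_inv_cancel, inv_mul_cancel, mul_one, one_mul, inv_one, C])
  have k1 : o.lt (g * P⁻¹) (f * P⁻¹) ↔ o.lt (1 * (P * g⁻¹)⁻¹) (1 * (P * f⁻¹)⁻¹) := o.cv hδ (1) e7 (by simp only [mul_assoc, mul_inv_rev, inv_inv, mul_inv_cancel_left, inv_mul_cancel_left, mul_inv_cancel, inv_mul_cancel, mul_one, one_mul, inv_one, C]) (by simp only [mul_assoc, mul_inv_rev, inv_inv, mul_inv_cancel_left, inv_mul_cancel_left, mul_inv_cancel, inv_mul_cancel, mul_one, one_mul, inv_one, C])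
  have k2 : o.lt (f * m⁻¹) (g * P⁻¹) ↔ o.lt (1 * (m * f⁻¹)⁻¹) (1 * (P * g⁻¹)⁻¹) := o.cv hδ (1) e15 (by simp only [mul_assoc, mul_inv_rev, inv_inv, mul_inv_cancel_left, inv_mul_cancel_left, mul_inv_cancel, inv_mul_cancel, mul_one, one_mul, inv_one, C]) (by simp only [mul_assoc, mul_inv_rev, inv_inv, mul_inv_cancel_left, inv_mul_cancel_left, mul_inv_cancel, inv_mul_cancel, mul_one, one_mul, inv_one, C])
  have k3 : o.lt (m * f⁻¹) (P * f⁻¹) ↔ o.lt (1 * (m * f⁻¹)) (1 * (P * f⁻¹)) := o.cv hδ (1) e1 (by simp only [mul_assoc, mul_inv_rev, inv_inv, mul_inv_cancel_left, inv_mul_cancel_left, mul_inv_cancel, inv_mul_cancel, mul_one, one_mul, inv_one, C]) (by simp only [mul_assoc, mul_inv_rev, inv_inv, mul_inv_cancel_left, inv_mul_cancel_left, mul_inv_cancel, inv_mul_cancel, mul_one, one_mul, inv_one, C])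
  have k4 : o.lt (m * f⁻¹) (m * g⁻¹) ↔ o.lt (1 * (m * f⁻¹)) (1 * (m * g⁻¹)) := o.cv hδ (1) e2 (by simp only [mul_assoc, mul_inv_rev, inv_inv, mul_inv_cancel_left, inv_mul_cancel_left, mul_inv_cancel, inv_mul_cancel, mul_one, one_mul, inv_one, C]) (by simp only [mul_assoc, mul_inv_rev, inv_inv, mul_inv_cancel_left, inv_mul_cancel_left, mul_inv_cancel, inv_mul_cancel, mul_one, one_mul, inv_one, C])
  have k5 : o.lt (m * g⁻¹) (m * f⁻¹) ↔ o.lt (1 * (m * g⁻¹)) (1 * (m * f⁻¹)) := o.cv hδ (1) e0 (by simp only [mul_assoc, mul_inv_rev, inv_inv, mul_inv_cancel_left, inv_mul_cancel_left, mul_inv_cancel, inv_mul_cancel, mul_one, one_mul, inv_one, C]) (by simp only [mul_assoc, mul_inv_rev, inv_inv, mul_inv_cancel_left, inv_mul_cancel_left, mul_inv_cancel, inv_mul_cancel, mul_one, one_mul, inv_one, C])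
  have k6 : o.lt (f * P⁻¹) (g * P⁻¹) ↔ o.lt (1 * (P * f⁻¹)⁻¹) (1 * (P * g⁻¹)⁻¹) := o.cv hδ (1) e16 (by simp only [mul_assoc, mul_inv_rev, inv_inv, mul_inv_cancel_left, inv_mul_cancel_left, mul_inv_cancel, inv_mul_cancel, mul_one, one_mul, inv_one, C]) (by simp only [mul_assoc, mul_inv_rev, inv_inv, mul_inv_cancel_left, inv_mul_cancel_left, mul_inv_cancel, inv_mul_cancel, mul_one, one_mul, inv_one, C])
  have k7 : o.lt (f * m⁻¹) (f * P⁻¹) ↔ o.lt (1 * (m * f⁻¹)⁻¹) (1 * (P * f⁻¹)⁻¹) := o.cv hδ (1) e14 (by simp only [mul_assoc, mul_inv_rev, inv_inv, mul_inv_cancel_left, inv_mul_cancel_left, mul_inv_cancel, inv_mul_cancel, mul_one, one_mul, inv_one, C]) (by simp only [mul_assoc, mul_inv_rev, inv_inv, mul_inv_cancel_left, inv_mul_cancel_left, mul_inv_cancel, inv_mul_cancel, mul_one, one_mul, inv_one, C])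
  have k8 : o.lt (f * P⁻¹) (g * P⁻¹) ↔ o.lt (1 * (m * f⁻¹)⁻¹) (1 * (m * g⁻¹)⁻¹) := o.cv hδ (P * m⁻¹) e16 (by simp only [mul_assoc, mul_inv_rev, inv_inv, mul_inv_cancel_left, inv_mul_cancel_left, mul_inv_cancel, inv_mul_cancel, mul_one, one_mul, inv_one, C]) (by simp only [mul_assoc, mul_inv_rev, inv_inv, mul_inv_cancel_left, inv_mul_cancel_left, mul_inv_cancel, inv_mul_cancel, mul_one, one_mul, inv_one, C])
  have k9 : o.lt (m * f⁻¹) (Q * f⁻¹) ↔ o.lt (1 * (m * f⁻¹)) (1 * (Q * f⁻¹)) := o.cv hδ (1) e10 (by simp only [mul_assoc, mul_inv_rev, inv_inv, mul_inv_cancel_left, inv_mul_cancel_left, mul_inv_cancel, inv_mul_cancel, mul_one, one_mul, inv_one, C]) (by simp only [mul_assoc, mul_inv_rev, inv_inv, mul_inv_cancel_left, inv_mul_cancel_left, mul_inv_cancel, inv_mul_cancel, mul_one, one_mul, inv_one, C])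
  have k10 : o.lt (g * P⁻¹) (f * P⁻¹) ↔ o.lt (1 * (m * g⁻¹)⁻¹) (1 * (m * f⁻¹)⁻¹) := o.cv hδ (P * m⁻¹) e7 (by simp only [mul_assoc, mul_inv_rev, inv_inv, mul_inv_cancel_left, inv_mul_cancel_left, mul_inv_cancel, inv_mul_cancel, mul_one, one_mul, inv_one, C]) (by simp only [mul_assoc, mul_inv_rev, inv_inv, mul_inv_cancel_left, inv_mul_cancel_left, mul_inv_cancel, inv_mul_cancel, mul_one, one_mul, inv_one, C])
  have k11 : o.lt (f * Q⁻¹) (g * m⁻¹) ↔ o.lt (1 * (Q * f⁻¹)⁻¹) (1 * (m * g⁻¹)⁻¹) := o.cv hδ (1) e23 (by simp only [mul_assoc, mul_inv_rev, inv_inv, mul_inv_cancel_left, inv_mul_cancel_left, mul_inv_cancel, inv_mul_cancel, mul_one, one_mul, inv_one, C]) (by simp only [mul_assoc, mul_inv_rev, inv_inv, mul_inv_cancel_left, inv_mul_cancel_left, mul_inv_cancel, inv_mul_cancel, mul_one, one_mul, inv_one, C])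
  have k12 : o.lt (Q * f⁻¹) (m * f⁻¹) ↔ o.lt (1 * (Q * f⁻¹)) (1 * (m * f⁻¹)) := o.cv hδ (1) e4 (by simp only [mul_assoc, mul_inv_rev, inv_inv, mul_inv_cancel_left, inv_mul_cancel_left, mul_inv_cancel, inv_mul_cancel, mul_one, one_mul, inv_one, C]) (by simp only [mul_assoc, mul_inv_rev, inv_inv, mul_inv_cancel_left, inv_mul_cancel_left, mul_inv_cancel, inv_mul_cancel, mul_one, one_mul, inv_one, C])
  have k13 : o.lt (Q * f⁻¹) (Q * g⁻¹) ↔ o.lt (1 * (Q * f⁻¹)) (1 * (Q * g⁻¹)) := o.cv hδ (1) e20 (by simp only [mul_assoc, mul_inv_rev, inv_inv, mul_inv_cancel_left, inv_mul_cancel_left, mul_inv_cancel, inv_mul_cancel, mul_one, one_mul, inv_one, C]) (by simp only [mul_assoc, mul_inv_rev, inv_inv, mul_inv_cancel_left, inv_mul_cancel_left, mul_inv_cancel, inv_mul_cancel, mul_one, one_mul, inv_one, C])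
  have k14 : o.lt (Q * f⁻¹) (m * f⁻¹) ↔ o.lt (1 * (Q * g⁻¹)) (1 * (m * g⁻¹)) := o.cv hδ (f * g⁻¹) e4 (by simp only [mul_assoc, mul_inv_rev, inv_inv, mul_inv_cancel_left, inv_mul_cancel_left, mul_inv_cancel, inv_mul_cancel, mul_one, one_mul, inv_one, C]) (by simp only [mul_assoc, mul_inv_rev, inv_inv, mul_inv_cancel_left, inv_mul_cancel_left, mul_inv_cancel, inv_mul_cancel, mul_one, one_mul, inv_one, C])
  have k15 : o.lt (g * P⁻¹) (f * P⁻¹) ↔ o.lt (1 * (Q * g⁻¹)⁻¹) (1 * (Q * f⁻¹)⁻¹) := o.cv hδ (P * Q⁻¹) e7 (by simp only [mul_assoc, mul_inv_rev, inv_inv, mul_inv_cancel_left, inv_mul_cancel_left, mul_inv_cancel, inv_mul_cancel, mul_one, one_mul, inv_one, C]) (by simp only [mul_assoc, mul_inv_rev, inv_inv, mul_inv_cancel_left, inv_mul_cancel_left, mul_inv_cancel, inv_mul_cancel, mul_one, one_mul, inv_one, C])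
  have k16 : o.lt (f * Q⁻¹) (f * m⁻¹) ↔ o.lt (1 * (Q * f⁻¹)⁻¹) (1 * (m * f⁻¹)⁻¹) := o.cv hδ (1) e8 (by simp only [mul_assoc, mul_inv_rev, inv_inv, mul_inv_cancel_left, inv_mul_cancel_left, mul_inv_cancel, inv_mul_cancel, mul_one, one_mul, inv_one, C]) (by simp only [mul_assoc, mul_inv_rev, inv_inv, mul_inv_cancel_left, inv_mul_cancel_left, mul_inv_cancel, inv_mul_cancel, mul_one, one_mul, inv_one, C])
  have k17 : o.lt (f * P⁻¹) (g * P⁻¹) ↔ o.lt (1 * (Q * f⁻¹)⁻¹) (1 * (Q * g⁻¹)⁻¹) := o.cv hδ (P * Q⁻¹) e16 (by simp only [mul_assoc, mul_inv_rev, inv_inv, mul_inv_cancel_left, inv_mul_cancel_left, mul_inv_cancel, inv_mul_cancel, mul_one, one_mul, inv_one, C]) (by simp only [mul_assoc, mul_inv_rev, inv_inv, mul_inv_cancel_left, inv_mul_cancel_left, mul_inv_cancel, inv_mul_cancel, mul_one, one_mul, inv_one, C])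
  have k18 : o.lt (f * m⁻¹) (m * (Q⁻¹ * (f * Q⁻¹))) ↔ o.lt ((m * f⁻¹) * (m * f⁻¹)) ((m * f⁻¹) * (Q * f⁻¹)) := o.cv hδ (m * (f⁻¹ * (m * (f⁻¹ * (m * f⁻¹))))) e6 (by simp only [mul_assoc, mul_inv_rev, inv_inv, mul_inv_cancel_left, inv_mul_cancel_left, mul_inv_cancel, inv_mul_cancel, mul_one, one_mul, inv_one, C]) (by simp only [mul_assoc, mul_inv_rev, inv_inv, mul_inv_cancel_left, inv_mul_cancel_left, mul_inv_cancel, inv_mul_cancel, mul_one, one_mul, inv_one, C])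
  have k19 : o.lt (m * f⁻¹) (m * g⁻¹) ↔ o.lt ((m * f⁻¹) * (m * g⁻¹)⁻¹) ((m * f⁻¹) * (m * f⁻¹)⁻¹) := o.cv hδ (g * m⁻¹) e2 (by simp only [mul_assoc, mul_inv_rev, inv_inv, mul_inv_cancel_left, inv_mul_cancel_left, mul_inv_cancel, inv_mul_cancel, mul_one, one_mul, inv_one, C]) (by simp only [mul_assoc, mul_inv_rev, inv_inv, mul_inv_cancel_left, inv_mul_cancel_left, mul_inv_cancel, inv_mul_cancel, mul_one, one_mul, inv_one, C])
  have k20 : o.lt (m * Q⁻¹) (m * (f⁻¹ * (g * m⁻¹))) ↔ o.lt ((m * f⁻¹) * (Q * f⁻¹)⁻¹) ((m * f⁻¹) * (m * g⁻¹)⁻¹) := o.cv hδ (1) e11 (by simp only [mul_assoc, mul_inv_rev, inv_inv, mul_inv_cancel_left, inv_mul_cancel_left, mul_inv_cancel, inv_mul_cancel, mul_one, one_mul, inv_one, C]) (by simp only [mul_assoc, mul_inv_rev, inv_inv, mul_inv_cancel_left, inv_mul_cancel_left, mul_inv_cancel, inv_mul_cancel, mul_one, one_mul, inv_one, C])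
  have k21 : o.lt (m * (Q⁻¹ * (f * Q⁻¹))) (f * m⁻¹) ↔ o.lt ((m * f⁻¹) * (Q * f⁻¹)) ((m * f⁻¹) * (m * f⁻¹)) := o.cv hδ (Q * (f⁻¹ * (Q * (f⁻¹ * (Q * f⁻¹))))) e12 (by simp only [mul_assoc, mul_inv_rev, inv_inv, mul_inv_cancel_left, inv_mul_cancel_left, mul_inv_cancel, inv_mul_cancel, mul_one, one_mul, inv_one, C]) (by simp only [mul_assoc, mul_inv_rev, inv_inv, mul_inv_cancel_left, inv_mul_cancel_left, mul_inv_cancel, inv_mul_cancel, mul_one, one_mul, inv_one, C])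
  have k22 : o.lt (m * (Q⁻¹ * (f * Q⁻¹))) (m * (f⁻¹ * (Q * g⁻¹))) ↔ o.lt ((m * f⁻¹) * (Q * f⁻¹)) ((m * f⁻¹) * (Q * g⁻¹)) := o.cv hδ (Q * (f⁻¹ * (Q * (f⁻¹ * (Q * f⁻¹))))) e13 (by simp only [mul_assoc, mul_inv_rev, inv_inv, mul_inv_cancel_left, inv_mul_cancel_left, mul_inv_cancel, inv_mul_cancel, mul_one, one_mul, inv_one, C]) (by simp only [mul_assoc, mul_inv_rev, inv_inv, mul_inv_cancel_left, inv_mul_cancel_left, mul_inv_cancel, inv_mul_cancel, mul_one, one_mul, inv_one, C])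
  have k23 : o.lt (m * g⁻¹) (m * f⁻¹) ↔ o.lt ((m * f⁻¹) * (m * f⁻¹)⁻¹) ((m * f⁻¹) * (m * g⁻¹)⁻¹) := o.cv hδ (g * m⁻¹) e0 (by simp only [mul_assoc, mul_inv_rev, inv_inv, mul_inv_cancel_left, inv_mul_cancel_left, mul_inv_cancel, inv_mul_cancel, mul_one, one_mul, inv_one, C]) (by simp only [mul_assoc, mul_inv_rev, inv_inv, mul_inv_cancel_left, inv_mul_cancel_left, mul_inv_cancel, inv_mul_cancel, mul_one, one_mul, inv_one, C])
  have k24 : o.lt (m * (f⁻¹ * (g * m⁻¹))) (m * Q⁻¹) ↔ o.lt ((m * f⁻¹) * (m * g⁻¹)⁻¹) ((m * f⁻¹) * (Q * f⁻¹)⁻¹) := o.cv hδ (1) e9 (by simp only [mul_assoc, mul_inv_rev, inv_inv, mul_inv_cancel_left, inv_mul_cancel_left, mul_inv_cancel, inv_mul_cancel, mul_one, one_mul, inv_one, C]) (by simp only [mul_assoc, mul_inv_rev, inv_inv, mul_inv_cancel_left, inv_mul_cancel_left, mul_inv_cancel, inv_mul_cancel, mul_one, one_mul, inv_one, C])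
  have k25 : o.lt (m * f⁻¹) (Q * f⁻¹) ↔ o.lt ((m * f⁻¹) * (Q * f⁻¹)⁻¹) ((m * f⁻¹) * (m * f⁻¹)⁻¹) := o.cv hδ (f * Q⁻¹) e10 (by simp only [mul_assoc, mul_inv_rev, inv_inv, mul_inv_cancel_left, inv_mul_cancel_left, mul_inv_cancel, inv_mul_cancel, mul_one, one_mul, inv_one, C]) (by simp only [mul_assoc, mul_inv_rev, inv_inv, mul_inv_cancel_left, inv_mul_cancel_left, mul_inv_cancel, inv_mul_cancel, mul_one, one_mul, inv_one, C])
  have k26 : o.lt (m * g⁻¹) (m * f⁻¹) ↔ o.lt ((m * f⁻¹) * (Q * f⁻¹)⁻¹) ((m * f⁻¹) * (Q * g⁻¹)⁻¹) := o.cv hδ (g * Q⁻¹) e0 (by simp only [mul_assoc, mul_inv_rev, inv_inv, mul_inv_cancel_left, inv_mul_cancel_left, mul_inv_cancel, inv_mul_cancel, mul_one, one_mul, inv_one, C]) (by simp only [mul_assoc, mul_inv_rev, inv_inv, mul_inv_cancel_left, inv_mul_cancel_left, mul_inv_cancel, inv_mul_cancel, mul_one, one_mul, inv_one, C])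
  have k27 : o.lt (P * f⁻¹) (Q * f⁻¹) ↔ o.lt (P * f⁻¹) (Q * f⁻¹) := o.cv hδ (1) e18 (by simp only [mul_assoc, mul_inv_rev, inv_inv, mul_inv_cancel_left, inv_mul_cancel_left, mul_inv_cancel, inv_mul_cancel, mul_one, one_mul, inv_one, C]) (by simp only [mul_assoc, mul_inv_rev, inv_inv, mul_inv_cancel_left, inv_mul_cancel_left, mul_inv_cancel, inv_mul_cancel, mul_one, one_mul, inv_one, C])
  have k28 : o.lt (Q * f⁻¹) (P * f⁻¹) ↔ o.lt (Q * f⁻¹) (P * f⁻¹) := o.cv hδ (1) e19 (by simp only [mul_assoc, mul_inv_rev, inv_inv, mul_inv_cancel_left, inv_mul_cancel_left, mul_inv_cancel, inv_mul_cancel, mul_one, one_mul, inv_one, C]) (by simp only [mul_assoc, mul_inv_rev, inv_inv, mul_inv_cancel_left, inv_mul_cancel_left, mul_inv_cancel, inv_mul_cancel, mul_one, one_mul, inv_one, C])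
  have k29 : o.lt (P * f⁻¹) (m * f⁻¹) ↔ o.lt (P * f⁻¹) (m * f⁻¹) := o.cv hδ (1) e3 (by simp only [mul_assoc, mul_inv_rev, inv_inv, mul_inv_cancel_left, inv_mul_cancel_left, mul_inv_cancel, inv_mul_cancel, mul_one, one_mul, inv_one, C]) (by simp only [mul_assoc, mul_inv_rev, inv_inv, mul_inv_cancel_left, inv_mul_cancel_left, mul_inv_cancel, inv_mul_cancel, mul_one, one_mul, inv_one, C])
  have k30 : o.lt (m * f⁻¹) (Q * f⁻¹) ↔ o.lt (m * f⁻¹) (Q * f⁻¹) := o.cv hδ (1) e10 (by simp only [mul_assoc, mul_inv_rev, inv_inv, mul_inv_cancel_left, inv_mul_cancel_left, mul_inv_cancel, inv_mul_cancel, mul_one, one_mul, inv_one, C]) (by simp only [mul_assoc, mul_inv_rev, inv_inv, mul_inv_cancel_left, inv_mul_cancel_left, mul_inv_cancel, inv_mul_cancel, mul_one, one_mul, inv_one, C])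
  have k31 : o.lt (m * f⁻¹) (P * f⁻¹) ↔ o.lt (m * f⁻¹) (P * f⁻¹) := o.cv hδ (1) e1 (by simp only [mul_assoc, mul_inv_rev, inv_inv, mul_inv_cancel_left, inv_mul_cancel_left, mul_inv_cancel, inv_mul_cancel, mul_one, one_mul, inv_one, C]) (by simp only [mul_assoc, mul_inv_rev, inv_inv, mul_inv_cancel_left, inv_mul_cancel_left, mul_inv_cancel, inv_mul_cancel, mul_one, one_mul, inv_one, C])
  have k32 : o.lt (Q * f⁻¹) (m * f⁻¹) ↔ o.lt (Q * f⁻¹) (m * f⁻¹) := o.cv hδ (1) e4 (by simp only [mul_assoc, mul_inv_rev, inv_inv, mul_inv_cancel_left, inv_mul_cancel_left, mul_inv_cancel, inv_mul_cancel, mul_one, one_mul, inv_one, C]) (by simp only [mul_assoc, mul_inv_rev, inv_inv, mul_inv_cancel_left, inv_mul_cancel_left, mul_inv_cancel, inv_mul_cancel, mul_one, one_mul, inv_one, C])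
  have k33 : o.lt (f * P⁻¹) (f * m⁻¹) ↔ o.lt (f * P⁻¹) (f * m⁻¹) := o.cv hδ (1) e5 (by simp only [mul_assoc, mul_inv_rev, inv_inv, mul_inv_cancel_left, inv_mul_cancel_left, mul_inv_cancel, inv_mul_cancel, mul_one, one_mul, inv_one, C]) (by simp only [mul_assoc, mul_inv_rev, inv_inv, mul_inv_cancel_left, inv_mul_cancel_left, mul_inv_cancel, inv_mul_cancel, mul_one, one_mul, inv_one, C])
  have k34 : o.lt (f * m⁻¹) (f * P⁻¹) ↔ o.lt (f * m⁻¹) (f * P⁻¹) := o.cv hδ (1) e14 (by simp only [mul_assoc, mul_inv_rev, inv_inv, mul_inv_cancel_left, inv_mul_cancel_left, mul_inv_cancel, inv_mul_cancel, mul_one, one_mul, inv_one, C]) (by simp only [mul_assoc, mul_inv_rev, inv_inv, mul_inv_cancel_left, inv_mul_cancel_left, mul_inv_cancel, inv_mul_cancel, mul_one, one_mul, inv_one, C])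
  have k35 : o.lt (f * m⁻¹) (g * P⁻¹) ↔ o.lt (f * m⁻¹) (g * P⁻¹) := o.cv hδ (1) e15 (by simp only [mul_assoc, mul_inv_rev, inv_inv, mul_inv_cancel_left, inv_mul_cancel_left, mul_inv_cancel, inv_mul_cancel, mul_one, one_mul, inv_one, C]) (by simp only [mul_assoc, mul_inv_rev, inv_inv, mul_inv_cancel_left, inv_mul_cancel_left, mul_inv_cancel, inv_mul_cancel, mul_one, one_mul, inv_one, C])
  have k36 : o.lt (f * m⁻¹) (f * Q⁻¹) ↔ o.lt (f * m⁻¹) (f * Q⁻¹) := o.cv hδ (1) e17 (by simp only [mul_assoc, mul_inv_rev, inv_inv, mul_inv_cancel_left, inv_mul_cancel_left, mul_inv_cancel, inv_mul_cancel, mul_one, one_mul, inv_one, C]) (by simp only [mul_assoc, mul_inv_rev, inv_inv, mul_inv_cancel_left, inv_mul_cancel_left, mul_inv_cancel, inv_mul_cancel, mul_one, one_mul, inv_one, C])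
  have k37 : o.lt (f * Q⁻¹) (g * P⁻¹) ↔ o.lt (f * Q⁻¹) (g * P⁻¹) := o.cv hδ (1) e22 (by simp only [mul_assoc, mul_inv_rev, inv_inv, mul_inv_cancel_left, inv_mul_cancel_left, mul_inv_cancel, inv_mul_cancel, mul_one, one_mul, inv_one, C]) (by simp only [mul_assoc, mul_inv_rev, inv_inv, mul_inv_cancel_left, inv_mul_cancel_left, mul_inv_cancel, inv_mul_cancel, mul_one, one_mul, inv_one, C])
  have k38 : o.lt (f * Q⁻¹) (f * m⁻¹) ↔ o.lt (f * Q⁻¹) (f * m⁻¹) := o.cv hδ (1) e8 (by simp only [mul_assoc, mul_inv_rev, inv_inv, mul_inv_cancel_left, inv_mul_cancel_left, mul_inv_cancel, inv_mul_cancel, mul_one, one_mul, inv_one, C]) (by simp only [mul_assoc, mul_inv_rev, inv_inv, mul_inv_cancel_left, inv_mul_cancel_left, mul_inv_cancel, inv_mul_cancel, mul_one, one_mul, inv_one, C])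
  have k39 : o.lt (f * Q⁻¹) (f * P⁻¹) ↔ o.lt (f * Q⁻¹) (f * P⁻¹) := o.cv hδ (1) e21 (by simp only [mul_assoc, mul_inv_rev, inv_inv, mul_inv_cancel_left, inv_mul_cancel_left, mul_inv_cancel, inv_mul_cancel, mul_one, one_mul, inv_one, C]) (by simp only [mul_assoc, mul_inv_rev, inv_inv, mul_inv_cancel_left, inv_mul_cancel_left, mul_inv_cancel, inv_mul_cancel, mul_one, one_mul, inv_one, C])
  have k40 : o.lt (g * P⁻¹) (f * P⁻¹) ↔ o.lt (g * P⁻¹) (f * P⁻¹) := o.cv hδ (1) e7 (by simp only [mul_assoc, mul_inv_rev, inv_inv, mul_inv_cancel_left, inv_mul_cancel_left, mul_inv_cancel, inv_mul_cancel, mul_one, one_mul, inv_one, C]) (by simp only [mul_assoc, mul_inv_rev, inv_inv, mul_inv_cancel_left, inv_mul_cancel_left, mul_inv_cancel, inv_mul_cancel, mul_one, one_mul, inv_one, C])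
  have k41 : o.lt (f * Q⁻¹) (g * m⁻¹) ↔ o.lt (f * Q⁻¹) (g * m⁻¹) := o.cv hδ (1) e23 (by simp only [mul_assoc, mul_inv_rev, inv_inv, mul_inv_cancel_left, inv_mul_cancel_left, mul_inv_cancel, inv_mul_cancel, mul_one, one_mul, inv_one, C]) (by simp only [mul_assoc, mul_inv_rev, inv_inv, mul_inv_cancel_left, inv_mul_cancel_left, mul_inv_cancel, inv_mul_cancel, mul_one, one_mul, inv_one, C])
  have k42 : o.lt (f * P⁻¹) (g * P⁻¹) ↔ o.lt (f * m⁻¹) (g * m⁻¹) := o.cv hδ (P * m⁻¹) e16 (by simp only [mul_assoc, mul_inv_rev, inv_inv, mul_inv_cancel_left, inv_mul_cancel_left, mul_inv_cancel, inv_mul_cancel, mul_one, one_mul, inv_one, C]) (by simp only [mul_assoc, mul_inv_rev, inv_inv, mul_inv_cancel_left, inv_mul_cancel_left, mul_inv_cancel, inv_mul_cancel, mul_one, one_mul, inv_one, C])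
  have k43 : o.lt (Q * f⁻¹) (m * f⁻¹) ↔ o.lt (f * Q⁻¹) (m * (f⁻¹ * (Q * f⁻¹))) := o.cv hδ (f * (Q⁻¹ * (f * Q⁻¹))) e4 (by simp only [mul_assoc, mul_inv_rev, inv_inv, mul_inv_cancel_left, inv_mul_cancel_left, mul_inv_cancel, inv_mul_cancel, mul_one, one_mul, inv_one, C]) (by simp only [mul_assoc, mul_inv_rev, inv_inv, mul_inv_cancel_left, inv_mul_cancel_left, mul_inv_cancel, inv_mul_cancel, mul_one, one_mul, inv_one, C])
  have k44 : o.lt (m * (Q⁻¹ * (f * Q⁻¹))) (f * m⁻¹) ↔ o.lt (m * (f⁻¹ * (Q * f⁻¹))) (f * m⁻¹) := o.cv hδ (Q * (f⁻¹ * (Q * (f⁻¹ * (Q * f⁻¹))))) e12 (by simp only [mul_assoc, mul_inv_rev, inv_inv, mul_inv_cancel_left, inv_mul_cancel_left, mul_inv_cancel, inv_mul_cancel, mul_one, one_mul, inv_one, C]) (by simp only [mul_assoc, mul_inv_rev, inv_inv, mul_inv_cancel_left, inv_mul_cancel_left, mul_inv_cancel, inv_mul_cancel, mul_one, one_mul, inv_one, C])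
  have k45 : o.lt (m * f⁻¹) (Q * f⁻¹) ↔ o.lt (m * (f⁻¹ * (Q * f⁻¹))) (f * Q⁻¹) := o.cv hδ (Q * f⁻¹) e10 (by simp only [mul_assoc, mul_inv_rev, inv_inv, mul_inv_cancel_left, inv_mul_cancel_left, mul_inv_cancel, inv_mul_cancel, mul_one, one_mul, inv_one, C]) (by simp only [mul_assoc, mul_inv_rev, inv_inv, mul_inv_cancel_left, inv_mul_cancel_left, mul_inv_cancel, inv_mul_cancel, mul_one, one_mul, inv_one, C])
  have k46 : o.lt (f * m⁻¹) (m * (Q⁻¹ * (f * Q⁻¹))) ↔ o.lt (f * m⁻¹) (m * (f⁻¹ * (Q * f⁻¹))) := o.cv hδ (1) e6 (by simp only [mul_assoc, mul_inv_rev, inv_inv, mul_inv_cancel_left, inv_mul_cancel_left, mul_inv_cancel, inv_mul_cancel, mul_one, one_mul, inv_one, C]) (by simp only [mul_assoc, mul_inv_rev, inv_inv, mul_inv_cancel_left, inv_mul_cancel_left, mul_inv_cancel, inv_mul_cancel, mul_one, one_mul, inv_one, C])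
  have k47 : o.lt (m * (f⁻¹ * (g * m⁻¹))) (m * Q⁻¹) ↔ o.lt (m * (f⁻¹ * (g * m⁻¹))) (m * Q⁻¹) := o.cv hδ (1) e9 (by simp only [mul_assoc, mul_inv_rev, inv_inv, mul_inv_cancel_left, inv_mul_cancel_left, mul_inv_cancel, inv_mul_cancel, mul_one, one_mul, inv_one, C]) (by simp only [mul_assoc, mul_inv_rev, inv_inv, mul_inv_cancel_left, inv_mul_cancel_left, mul_inv_cancel, inv_mul_cancel, mul_one, one_mul, inv_one, C])
  have k48 : o.lt (m * f⁻¹) (m * g⁻¹) ↔ o.lt (m * (f⁻¹ * (g * m⁻¹))) (1) := o.cv hδ (g * m⁻¹) e2 (by simp only [mul_assoc, mul_inv_rev, inv_inv, mul_inv_cancel_left, inv_mul_cancel_left, mul_inv_cancel, inv_mul_cancel, mul_one, one_mul, inv_one, C]) (by simp only [mul_assoc, mul_inv_rev, inv_inv, mul_inv_cancel_left, inv_mul_cancel_left, mul_inv_cancel, inv_mul_cancel, mul_one, one_mul, inv_one, C])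
  have k49 : o.lt (Q * f⁻¹) (m * f⁻¹) ↔ o.lt (1) (m * Q⁻¹) := o.cv hδ (f * Q⁻¹) e4 (by simp only [mul_assoc, mul_inv_rev, inv_inv, mul_inv_cancel_left, inv_mul_cancel_left, mul_inv_cancel, inv_mul_cancel, mul_one, one_mul, inv_one, C]) (by simp only [mul_assoc, mul_inv_rev, inv_inv, mul_inv_cancel_left, inv_mul_cancel_left, mul_inv_cancel, inv_mul_cancel, mul_one, one_mul, inv_one, C])
  have k50 : o.lt (m * Q⁻¹) (m * (f⁻¹ * (g * m⁻¹))) ↔ o.lt (m * Q⁻¹) (m * (f⁻¹ * (g * m⁻¹))) := o.cv hδ (1) e11 (by simp only [mul_assoc, mul_inv_rev, inv_inv, mul_inv_cancel_left, inv_mul_cancel_left, mul_inv_cancel, inv_mul_cancel, mul_one, one_mul, inv_one, C]) (by simp only [mul_assoc, mul_inv_rev, inv_inv, mul_inv_cancel_left, inv_mul_cancel_left, mul_inv_cancel, inv_mul_cancel, mul_one, one_mul, inv_one, C])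
  have k51 : o.lt (m * f⁻¹) (Q * f⁻¹) ↔ o.lt (m * Q⁻¹) (1) := o.cv hδ (f * Q⁻¹) e10 (by simp only [mul_assoc, mul_inv_rev, inv_inv, mul_inv_cancel_left, inv_mul_cancel_left, mul_inv_cancel, inv_mul_cancel, mul_one, one_mul, inv_one, C]) (by simp only [mul_assoc, mul_inv_rev, inv_inv, mul_inv_cancel_left, inv_mul_cancel_left, mul_inv_cancel, inv_mul_cancel, mul_one, one_mul, inv_one, C])
  have k52 : o.lt (m * g⁻¹) (m * f⁻¹) ↔ o.lt (1) (m * (f⁻¹ * (g * m⁻¹))) := o.cv hδ (g * m⁻¹) e0 (by simp only [mul_assoc, mul_inv_rev, inv_inv, mul_inv_cancel_left, inv_mul_cancel_left, mul_inv_cancel, inv_mul_cancel, mul_one, one_mul, inv_one, C]) (by simp only [mul_assoc, mul_inv_rev, inv_inv, mul_inv_cancel_left, inv_mul_cancel_left, mul_inv_cancel, inv_mul_cancel, mul_one, one_mul, inv_one, C])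
  have k53 : o.lt (g * P⁻¹) (f * P⁻¹) ↔ o.lt ((P * g⁻¹)⁻¹) ((P * f⁻¹)⁻¹) := o.cv hδ (1) e7 (by simp only [mul_assoc, mul_inv_rev, inv_inv, mul_inv_cancel_left, inv_mul_cancel_left, mul_inv_cancel, inv_mul_cancel, mul_one, one_mul, inv_one, C]) (by simp only [mul_assoc, mul_inv_rev, inv_inv, mul_inv_cancel_left, inv_mul_cancel_left, mul_inv_cancel, inv_mul_cancel, mul_one, one_mul, inv_one, C])
  have k54 : o.lt (f * Q⁻¹) (g * P⁻¹) ↔ o.lt ((Q * f⁻¹)⁻¹) ((P * g⁻¹)⁻¹) := o.cv hδ (1) e22 (by simp only [mul_assoc, mul_inv_rev, inv_inv, mul_inv_cancel_left, inv_mul_cancel_left, mul_inv_cancel, inv_mul_cancel, mul_one, one_mul, inv_one, C]) (by simp only [mul_assoc, mul_inv_rev, inv_inv, mul_inv_cancel_left, inv_mul_cancel_left, mul_inv_cancel, inv_mul_cancel, mul_one, one_mul, inv_one, C])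
  exact ser_EEE_0_prop
    (fun b0 b1 b2 => N0.i.r0 1 (k0.1 b0) (fun h => b1 (k1.2 h)) (fun h => b2 (k2.2 h)))
    (fun b0 b1 b2 => N0.i.r1 1 (fun h => b0 (k3.2 h)) (k4.1 b1) (fun h => b2 (k1.2 h)))
    (fun b0 b1 b2 => N0.d.r1 1 (fun h => b0 (k0.2 h)) (k5.1 b1) (fun h => b2 (k6.2 h)))
    (fun b0 b1 b2 => N0.rd.r2 1 (fun h => b0 (k4.2 h)) (fun h => b1 (k7.2 h)) (k8.1 b2))
    (fun b0 b1 b2 => N1.i.r0 1 (k9.1 b0) (fun h => b1 (k10.2 h)) (fun h => b2 (k11.2 h)))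
    (fun b0 b1 b2 => N1.i.r1 1 (fun h => b0 (k12.2 h)) (k13.1 b1) (fun h => b2 (k10.2 h)))
    (fun b0 b1 b2 => N1.rd.r1 1 (fun h => b0 (k14.2 h)) (k4.1 b1) (fun h => b2 (k15.2 h)))
    (fun b0 b1 b2 => N1.rd.r2 1 (fun h => b0 (k13.2 h)) (fun h => b1 (k16.2 h)) (k17.1 b2))
    (fun b0 b1 b2 => N1.i.r0 (m * f⁻¹) (k18.1 b0) (fun h => b1 (k19.2 h)) (fun h => b2 (k20.2 h)))
    (fun b0 b1 b2 => N1.i.r1 (m * f⁻¹) (fun h => b0 (k21.2 h)) (k22.1 b1) (fun h => b2 (k19.2 h)))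
    (fun b0 b1 b2 => N1.d.r0 (m * f⁻¹) (k21.1 b0) (fun h => b1 (k23.2 h)) (fun h => b2 (k24.2 h)))
    (fun b0 b1 b2 => N1.rd.r2 (m * f⁻¹) (fun h => b0 (k22.2 h)) (fun h => b1 (k25.2 h)) (k26.1 b2))
    (fun b0 b1 => o.asym (k27.1 b0) (k28.1 b1))
    (fun b0 b1 b2 => o.tri (k27.1 b0) (fun h => b1 (k29.2 h)) (fun h => b2 (k30.2 h)))
    (fun b0 b1 b2 => o.tri (k31.1 b0) (fun h => b1 (k30.2 h)) (fun h => b2 (k28.2 h)))
    (fun b0 b1 => o.asym (k30.1 b0) (k32.1 b1))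
    (fun b0 b1 => o.asym (k33.1 b0) (k34.1 b1))
    (fun b0 b1 b2 => o.tri (k35.1 b0) (fun h => b1 (k36.2 h)) (fun h => b2 (k37.2 h)))
    (fun b0 b1 => o.asym (k36.1 b0) (k38.1 b1))
    (fun b0 b1 b2 => o.tri (k39.1 b0) (fun h => b1 (k37.2 h)) (fun h => b2 (k40.2 h)))
    (fun b0 b1 b2 => o.tri (k38.1 b0) (fun h => b1 (k39.2 h)) (fun h => b2 (k33.2 h)))
    (fun b0 b1 b2 => o.tri (k41.1 b0) (fun h => b1 (k38.2 h)) (fun h => b2 (k42.2 h)))
    (fun b0 b1 b2 => o.tri (k38.1 b0) (fun h => b1 (k43.2 h)) (fun h => b2 (k44.2 h)))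
    (fun b0 b1 b2 => o.tri (k44.1 b0) (fun h => b1 (k45.2 h)) (fun h => b2 (k38.2 h)))
    (fun b0 b1 b2 => o.tri (k36.1 b0) (fun h => b1 (k46.2 h)) (fun h => b2 (k45.2 h)))
    (fun b0 b1 b2 => o.tri (k47.1 b0) (fun h => b1 (k48.2 h)) (fun h => b2 (k49.2 h)))
    (fun b0 b1 b2 => o.tri (k50.1 b0) (fun h => b1 (k51.2 h)) (fun h => b2 (k52.2 h)))
    (k27.2 g0)
    (fun h => g1 (k53.1 h))
    (fun h => g2 (k54.1 h))

theorem ser_EEE_1_prop {A1 A2 A3 A4 A5 A6 A7 A8 A9 A10 A11 A12 A13 A14 A15 A16 A17 A18 A19 A20 A21 A22 A23 A24 A25 A26 A27 A28 A29 A30 A31 A32 A33 A34 : Prop}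
    (c0 : ¬ A4 → A3 → ¬ A19 → False)
    (c1 : ¬ A4 → A34 → ¬ A19 → False)
    (c2 : ¬ A34 → ¬ A18 → A10 → False)
    (c3 : ¬ A9 → A15 → ¬ A19 → False)
    (c4 : A9 → ¬ A10 → ¬ A20 → False)
    (c5 : A6 → ¬ A3 → ¬ A2 → False)
    (c6 : A13 → ¬ A3 → ¬ A2 → False)
    (c7 : ¬ A27 → A26 → ¬ A22 → False)
    (c8 : ¬ A26 → ¬ A25 → A15 → False)
    (c9 : ¬ A31 → ¬ A23 → A15 → False)
    (c10 : ¬ A32 → A31 → ¬ A22 → False)
    (c11 : A7 → A4 → False)
    (c12 : A14 → A21 → False)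
    (c13 : A1 → A9 → False)
    (c14 : A5 → ¬ A3 → ¬ A1 → False)
    (c15 : A2 → A8 → False)
    (c16 : A9 → ¬ A24 → ¬ A7 → False)
    (c17 : A15 → A22 → False)
    (c18 : A15 → ¬ A24 → ¬ A14 → False)
    (c19 : A9 → ¬ A22 → ¬ A8 → False)
    (c20 : A16 → A33 → False)
    (c21 : A18 → ¬ A17 → ¬ A33 → False)
    (c22 : A28 → ¬ A24 → ¬ A16 → False)
    (c23 : A11 → ¬ A19 → ¬ A3 → False)
    (c24 : A20 → ¬ A12 → ¬ A2 → False)
    (c25 : A17 → ¬ A13 → ¬ A1 → False)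
    (c26 : A12 → ¬ A11 → ¬ A6 → False)
    (c27 : A27 → A30 → False)
    (c28 : A32 → ¬ A30 → ¬ A28 → False)
    (c29 : A23 → ¬ A21 → ¬ A5 → False)
    (c30 : A25 → A29 → False)
    (c31 : A9 → ¬ A29 → ¬ A24 → False)
    (u0 : ¬ A24)
    (u1 : A15)
    (u2 : ¬ A19)
    : False := by
  have q1 : A9 := Classical.byContradiction fun h => c3 h u1 u2
  have q2 : ¬ A1 := fun h => c13 h q1
  have q3 : A7 := Classical.byContradiction fun h => c16 q1 u0 h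
  have q4 : ¬ A4 := fun h => c11 q3 h
  have q5 : ¬ A3 := fun h => c0 q4 h u2
  have q6 : ¬ A34 := fun h => c1 q4 h u2
  have q7 : ¬ A5 := fun h => c14 h q5 q2
  have q8 : ¬ A22 := fun h => c17 u1 h
  have q9 : A14 := Classical.byContradiction fun h => c18 u1 u0 h
  have q10 : ¬ A21 := fun h => c12 q9 h
  have q11 : A8 := Classical.byContradiction fun h => c19 q1 q8 h
  have q12 : ¬ A2 := fun h => c15 h q11
  have q13 : ¬ A6 := fun h => c5 h q5 q12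
  have q14 : ¬ A13 := fun h => c6 h q5 q12
  have q15 : ¬ A11 := fun h => c23 h u2 q5
  have q16 : ¬ A17 := fun h => c25 h q14 q2
  have q17 : ¬ A12 := fun h => c26 h q15 q13
  have q18 : ¬ A20 := fun h => c24 h q17 q12
  have q19 : A10 := Classical.byContradiction fun h => c4 q1 h q18
  have q20 : A18 := Classical.byContradiction fun h => c2 q6 h q19
  have q21 : A33 := Classical.byContradiction fun h => c21 q20 q16 h
  have q22 : ¬ A16 := fun h => c20 h q21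
  have q23 : ¬ A28 := fun h => c22 h u0 q22
  have q24 : ¬ A23 := fun h => c29 h q10 q7
  have q25 : A31 := Classical.byContradiction fun h => c9 h q24 u1
  have q26 : A32 := Classical.byContradiction fun h => c10 h q25 q8
  have q27 : A30 := Classical.byContradiction fun h => c28 q26 h q23
  have q28 : ¬ A27 := fun h => c27 h q27
  have q29 : ¬ A26 := fun h => c7 q28 h q8
  have q30 : A25 := Classical.byContradiction fun h => c8 q29 h u1
  have q31 : ¬ A29 := fun h => c30 q30 h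
  exact c31 q1 q31 u0

theorem ser_EEE_1 {G : Type*} [Group G] {δ : G → ZMod 3} (hδ : ∀ u v, δ (u * v) = δ u + δ v) (o : Pre δ)
    {P m Q f g : G} {e : ZMod 3} (h3 : 3 * e = 0)
    (D : δ P = e ∧ δ m = e ∧ δ Q = e ∧ δ f = 0 ∧ δ g = 0)
    (C : Cube P f ∧ Cube P g ∧ Cube m f ∧ Cube m g ∧ Cube Q f ∧ Cube Q g)
    (N0 : RE o P m f g)
    (N1 : RE o m Q f g)
    (g0 : ¬ o.lt (Q * f⁻¹) (P * f⁻¹)) (g1 : o.lt (Q * f⁻¹) (Q * g⁻¹)) (g2 : ¬ o.lt ((P * g⁻¹)⁻¹) ((P * f⁻¹)⁻¹)) : False := by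
  simp only [Cube] at C
  have e0 : δ (m * f⁻¹) = δ (Q * f⁻¹) := by simp only [hδ, δinv hδ, δone hδ, D] <;> linear_combination (0) * h3
  have e1 : δ (m * (g⁻¹ * (f * Q⁻¹))) = δ (1) := by simp only [hδ, δinv hδ, δone hδ, D] <;> linear_combination (0) * h3
  have e2 : δ (m * f⁻¹) = δ (m * g⁻¹) := by simp only [hδ, δinv hδ, δone hδ, D] <;> linear_combination (0) * h3
  have e3 : δ (m * f⁻¹) = δ (P * f⁻¹) := by simp only [hδ, δinv hδ, δone hδ, D] <;> linear_combination (0) * h3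
  have e4 : δ (m * f⁻¹) = δ (Q * g⁻¹) := by simp only [hδ, δinv hδ, δone hδ, D] <;> linear_combination (0) * h3
  have e5 : δ (g * (m⁻¹ * (g * f⁻¹))) = δ (m * (g⁻¹ * (Q * f⁻¹))) := by simp only [hδ, δinv hδ, δone hδ, D] <;> linear_combination (-1) * h3
  have e6 : δ (P * f⁻¹) = δ (m * f⁻¹) := by simp only [hδ, δinv hδ, δone hδ, D] <;> linear_combination (0) * h3
  have e7 : δ (Q * f⁻¹) = δ (m * g⁻¹) := by simp only [hδ, δinv hδ, δone hδ, D] <;> linear_combination (0) * h3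
  have e8 : δ (Q * f⁻¹) = δ (m * f⁻¹) := by simp only [hδ, δinv hδ, δone hδ, D] <;> linear_combination (0) * h3
  have e9 : δ (f * P⁻¹) = δ (g * P⁻¹) := by simp only [hδ, δinv hδ, δone hδ, D] <;> linear_combination (0) * h3
  have e10 : δ (g * m⁻¹) = δ (g * (m⁻¹ * (g * f⁻¹))) := by simp only [hδ, δinv hδ, δone hδ, D] <;> linear_combination (0) * h3
  have e11 : δ (g * m⁻¹) = δ (m * (g⁻¹ * (Q * f⁻¹))) := by simp only [hδ, δinv hδ, δone hδ, D] <;> linear_combination (-1) * h3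
  have e12 : δ (g * m⁻¹) = δ (m * (Q⁻¹ * (g * Q⁻¹))) := by simp only [hδ, δinv hδ, δone hδ, D] <;> linear_combination (0) * h3
  have e13 : δ (P * f⁻¹) = δ (Q * g⁻¹) := by simp only [hδ, δinv hδ, δone hδ, D] <;> linear_combination (0) * h3
  have e14 : δ (Q * f⁻¹) = δ (Q * g⁻¹) := by simp only [hδ, δinv hδ, δone hδ, D] <;> linear_combination (0) * h3
  have e15 : δ (g * P⁻¹) = δ (g * Q⁻¹) := by simp only [hδ, δinv hδ, δone hδ, D] <;> linear_combination (0) * h3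
  have e16 : δ (g * m⁻¹) = δ (g * Q⁻¹) := by simp only [hδ, δinv hδ, δone hδ, D] <;> linear_combination (0) * h3
  have e17 : δ (g * m⁻¹) = δ (g * P⁻¹) := by simp only [hδ, δinv hδ, δone hδ, D] <;> linear_combination (0) * h3
  have e18 : δ (g * P⁻¹) = δ (f * P⁻¹) := by simp only [hδ, δinv hδ, δone hδ, D] <;> linear_combination (0) * h3
  have e19 : δ (g * m⁻¹) = δ (f * Q⁻¹) := by simp only [hδ, δinv hδ, δone hδ, D] <;> linear_combination (0) * h3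
  have e20 : δ (Q * g⁻¹) = δ (P * f⁻¹) := by simp only [hδ, δinv hδ, δone hδ, D] <;> linear_combination (0) * h3
  have e21 : δ (Q * (g⁻¹ * (f * m⁻¹))) = δ (Q * m⁻¹) := by simp only [hδ, δinv hδ, δone hδ, D] <;> linear_combination (0) * h3
  have e22 : δ (Q * (g⁻¹ * (f * P⁻¹))) = δ (Q * (g⁻¹ * (f * m⁻¹))) := by simp only [hδ, δinv hδ, δone hδ, D] <;> linear_combination (0) * h3
  have e23 : δ (Q * f⁻¹) = δ (P * f⁻¹) := by simp only [hδ, δinv hδ, δone hδ, D] <;> linear_combination (0) * h3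
  have e24 : δ (Q * P⁻¹) = δ (Q * m⁻¹) := by simp only [hδ, δinv hδ, δone hδ, D] <;> linear_combination (0) * h3
  have e25 : δ (Q * (P⁻¹ * (g * P⁻¹))) = δ (Q * (g⁻¹ * (P * f⁻¹))) := by simp only [hδ, δinv hδ, δone hδ, D] <;> linear_combination (-1) * h3
  have e26 : δ (Q * (P⁻¹ * (g * P⁻¹))) = δ (Q * (m⁻¹ * (g * m⁻¹))) := by simp only [hδ, δinv hδ, δone hδ, D] <;> linear_combination (0) * h3
  have e27 : δ (Q * (P⁻¹ * (g * P⁻¹))) = δ (g * Q⁻¹) := by simp only [hδ, δinv hδ, δone hδ, D] <;> linear_combination (0) * h3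
  have e28 : δ (Q * m⁻¹) = δ (Q * P⁻¹) := by simp only [hδ, δinv hδ, δone hδ, D] <;> linear_combination (0) * h3
  have e29 : δ (Q * (m⁻¹ * (g * m⁻¹))) = δ (Q * (P⁻¹ * (g * P⁻¹))) := by simp only [hδ, δinv hδ, δone hδ, D] <;> linear_combination (0) * h3
  have e30 : δ (Q * (m⁻¹ * (g * m⁻¹))) = δ (Q * (g⁻¹ * (m * f⁻¹))) := by simp only [hδ, δinv hδ, δone hδ, D] <;> linear_combination (-1) * h3
  have e31 : δ (Q * (m⁻¹ * (g * m⁻¹))) = δ (g * Q⁻¹) := by simp only [hδ, δinv hδ, δone hδ, D] <;> linear_combination (0) * h3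
  have e32 : δ (g * Q⁻¹) = δ (g * P⁻¹) := by simp only [hδ, δinv hδ, δone hδ, D] <;> linear_combination (0) * h3
  have e33 : δ (P * f⁻¹) = δ (P * g⁻¹) := by simp only [hδ, δinv hδ, δone hδ, D] <;> linear_combination (0) * h3
  have k0 : o.lt (m * f⁻¹) (P * f⁻¹) ↔ o.lt (1 * (m * f⁻¹)) (1 * (P * f⁻¹)) := o.cv hδ (1) e3 (by simp only [mul_assoc, mul_inv_rev, inv_inv, mul_inv_cancel_left, inv_mul_cancel_left, mul_inv_cancel, inv_mul_cancel, mul_one, one_mul, inv_one, C]) (by simp only [mul_assoc, mul_inv_rev, inv_inv, mul_inv_cancel_left, inv_mul_cancel_left, mul_inv_cancel, inv_mul_cancel, mul_one, one_mul, inv_one, C])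
  have k1 : o.lt (m * f⁻¹) (m * g⁻¹) ↔ o.lt (1 * (m * f⁻¹)) (1 * (m * g⁻¹)) := o.cv hδ (1) e2 (by simp only [mul_assoc, mul_inv_rev, inv_inv, mul_inv_cancel_left, inv_mul_cancel_left, mul_inv_cancel, inv_mul_cancel, mul_one, one_mul, inv_one, C]) (by simp only [mul_assoc, mul_inv_rev, inv_inv, mul_inv_cancel_left, inv_mul_cancel_left, mul_inv_cancel, inv_mul_cancel, mul_one, one_mul, inv_one, C])
  have k2 : o.lt (g * P⁻¹) (f * P⁻¹) ↔ o.lt (1 * (P * g⁻¹)⁻¹) (1 * (P * f⁻¹)⁻¹) := o.cv hδ (1) e18 (by simp only [mul_assoc, mul_inv_rev, inv_inv, mul_inv_cancel_left, inv_mul_cancel_left, mul_inv_cancel, inv_mul_cancel, mul_one, one_mul, inv_one, C]) (by simp only [mul_assoc, mul_inv_rev, inv_inv, mul_inv_cancel_left, inv_mul_cancel_left, mul_inv_cancel, inv_mul_cancel, mul_one, one_mul, inv_one, C])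
  have k3 : o.lt (m * f⁻¹) (P * f⁻¹) ↔ o.lt (1 * (m * g⁻¹)) (1 * (P * g⁻¹)) := o.cv hδ (f * g⁻¹) e3 (by simp only [mul_assoc, mul_inv_rev, inv_inv, mul_inv_cancel_left, inv_mul_cancel_left, mul_inv_cancel, inv_mul_cancel, mul_one, one_mul, inv_one, C]) (by simp only [mul_assoc, mul_inv_rev, inv_inv, mul_inv_cancel_left, inv_mul_cancel_left, mul_inv_cancel, inv_mul_cancel, mul_one, one_mul, inv_one, C])
  have k4 : o.lt (P * f⁻¹) (P * g⁻¹) ↔ o.lt (1 * (P * f⁻¹)) (1 * (P * g⁻¹)) := o.cv hδ (1) e33 (by simp only [mul_assoc, mul_inv_rev, inv_inv, mul_inv_cancel_left, inv_mul_cancel_left, mul_inv_cancel, inv_mul_cancel, mul_one, one_mul, inv_one, C]) (by simp only [mul_assoc, mul_inv_rev, inv_inv, mul_inv_cancel_left, inv_mul_cancel_left, mul_inv_cancel, inv_mul_cancel, mul_one, one_mul, inv_one, C])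
  have k5 : o.lt (g * P⁻¹) (f * P⁻¹) ↔ o.lt (1 * (m * g⁻¹)⁻¹) (1 * (m * f⁻¹)⁻¹) := o.cv hδ (P * m⁻¹) e18 (by simp only [mul_assoc, mul_inv_rev, inv_inv, mul_inv_cancel_left, inv_mul_cancel_left, mul_inv_cancel, inv_mul_cancel, mul_one, one_mul, inv_one, C]) (by simp only [mul_assoc, mul_inv_rev, inv_inv, mul_inv_cancel_left, inv_mul_cancel_left, mul_inv_cancel, inv_mul_cancel, mul_one, one_mul, inv_one, C])
  have k6 : o.lt (g * m⁻¹) (g * P⁻¹) ↔ o.lt (1 * (m * g⁻¹)⁻¹) (1 * (P * g⁻¹)⁻¹) := o.cv hδ (1) e17 (by simp only [mul_assoc, mul_inv_rev, inv_inv, mul_inv_cancel_left, inv_mul_cancel_left, mul_inv_cancel, inv_mul_cancel, mul_one, one_mul, inv_one, C]) (by simp only [mul_assoc, mul_inv_rev, inv_inv, mul_inv_cancel_left, inv_mul_cancel_left, mul_inv_cancel, inv_mul_cancel, mul_one, one_mul, inv_one, C])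
  have k7 : o.lt (f * P⁻¹) (g * P⁻¹) ↔ o.lt (1 * (P * f⁻¹)⁻¹) (1 * (P * g⁻¹)⁻¹) := o.cv hδ (1) e9 (by simp only [mul_assoc, mul_inv_rev, inv_inv, mul_inv_cancel_left, inv_mul_cancel_left, mul_inv_cancel, inv_mul_cancel, mul_one, one_mul, inv_one, C]) (by simp only [mul_assoc, mul_inv_rev, inv_inv, mul_inv_cancel_left, inv_mul_cancel_left, mul_inv_cancel, inv_mul_cancel, mul_one, one_mul, inv_one, C])
  have k8 : o.lt (Q * f⁻¹) (m * f⁻¹) ↔ o.lt (1 * (Q * f⁻¹)) (1 * (m * f⁻¹)) := o.cv hδ (1) e8 (by simp only [mul_assoc, mul_inv_rev, inv_inv, mul_inv_cancel_left, inv_mul_cancel_left, mul_inv_cancel, inv_mul_cancel, mul_one, one_mul, inv_one, C]) (by simp only [mul_assoc, mul_inv_rev, inv_inv, mul_inv_cancel_left, inv_mul_cancel_left, mul_inv_cancel, inv_mul_cancel, mul_one, one_mul, inv_one, C])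
  have k9 : o.lt (Q * f⁻¹) (Q * g⁻¹) ↔ o.lt (1 * (Q * f⁻¹)) (1 * (Q * g⁻¹)) := o.cv hδ (1) e14 (by simp only [mul_assoc, mul_inv_rev, inv_inv, mul_inv_cancel_left, inv_mul_cancel_left, mul_inv_cancel, inv_mul_cancel, mul_one, one_mul, inv_one, C]) (by simp only [mul_assoc, mul_inv_rev, inv_inv, mul_inv_cancel_left, inv_mul_cancel_left, mul_inv_cancel, inv_mul_cancel, mul_one, one_mul, inv_one, C])
  have k10 : o.lt (f * P⁻¹) (g * P⁻¹) ↔ o.lt (1 * (m * f⁻¹)⁻¹) (1 * (m * g⁻¹)⁻¹) := o.cv hδ (P * m⁻¹) e9 (by simp only [mul_assoc, mul_inv_rev, inv_inv, mul_inv_cancel_left, inv_mul_cancel_left, mul_inv_cancel, inv_mul_cancel, mul_one, one_mul, inv_one, C]) (by simp only [mul_assoc, mul_inv_rev, inv_inv, mul_inv_cancel_left, inv_mul_cancel_left, mul_inv_cancel, inv_mul_cancel, mul_one, one_mul, inv_one, C])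
  have k11 : o.lt (g * m⁻¹) (f * Q⁻¹) ↔ o.lt (1 * (m * g⁻¹)⁻¹) (1 * (Q * f⁻¹)⁻¹) := o.cv hδ (1) e19 (by simp only [mul_assoc, mul_inv_rev, inv_inv, mul_inv_cancel_left, inv_mul_cancel_left, mul_inv_cancel, inv_mul_cancel, mul_one, one_mul, inv_one, C]) (by simp only [mul_assoc, mul_inv_rev, inv_inv, mul_inv_cancel_left, inv_mul_cancel_left, mul_inv_cancel, inv_mul_cancel, mul_one, one_mul, inv_one, C])
  have k12 : o.lt (g * (m⁻¹ * (g * f⁻¹))) (m * (g⁻¹ * (Q * f⁻¹))) ↔ o.lt ((m * g⁻¹) * (m * f⁻¹)) ((m * g⁻¹) * (Q * f⁻¹)) := o.cv hδ (f * (g⁻¹ * (m * (g⁻¹ * (m * (g⁻¹ * (m * f⁻¹))))))) e5 (by simp only [mul_assoc, mul_inv_rev, inv_inv, mul_inv_cancel_left, inv_mul_cancel_left, mul_inv_cancel, inv_mul_cancel, mul_one, one_mul, inv_one, C]) (by simp only [mul_assoc, mul_inv_rev, inv_inv, mul_inv_cancel_left, inv_mul_cancel_left, mul_inv_cancel, inv_mul_cancel, mul_one, one_mul, inv_one, C])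
  have k13 : o.lt (m * f⁻¹) (m * g⁻¹) ↔ o.lt ((m * g⁻¹) * (m * g⁻¹)⁻¹) ((m * g⁻¹) * (m * f⁻¹)⁻¹) := o.cv hδ (f * m⁻¹) e2 (by simp only [mul_assoc, mul_inv_rev, inv_inv, mul_inv_cancel_left, inv_mul_cancel_left, mul_inv_cancel, inv_mul_cancel, mul_one, one_mul, inv_one, C]) (by simp only [mul_assoc, mul_inv_rev, inv_inv, mul_inv_cancel_left, inv_mul_cancel_left, mul_inv_cancel, inv_mul_cancel, mul_one, one_mul, inv_one, C])
  have k14 : o.lt (m * (g⁻¹ * (f * Q⁻¹))) (1) ↔ o.lt ((m * g⁻¹) * (Q * f⁻¹)⁻¹) ((m * g⁻¹) * (m * g⁻¹)⁻¹) := o.cv hδ (1) e1 (by simp only [mul_assoc, mul_inv_rev, inv_inv, mul_inv_cancel_left, inv_mul_cancel_left, mul_inv_cancel, inv_mul_cancel, mul_one, one_mul, inv_one, C]) (by simp only [mul_assoc, mul_inv_rev, inv_inv, mul_inv_cancel_left, inv_mul_cancel_left, mul_inv_cancel, inv_mul_cancel, mul_one, one_mul, inv_one, C])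
  have k15 : o.lt (g * m⁻¹) (m * (Q⁻¹ * (g * Q⁻¹))) ↔ o.lt ((m * g⁻¹) * (m * g⁻¹)) ((m * g⁻¹) * (Q * g⁻¹)) := o.cv hδ (m * (g⁻¹ * (m * (g⁻¹ * (m * g⁻¹))))) e12 (by simp only [mul_assoc, mul_inv_rev, inv_inv, mul_inv_cancel_left, inv_mul_cancel_left, mul_inv_cancel, inv_mul_cancel, mul_one, one_mul, inv_one, C]) (by simp only [mul_assoc, mul_inv_rev, inv_inv, mul_inv_cancel_left, inv_mul_cancel_left, mul_inv_cancel, inv_mul_cancel, mul_one, one_mul, inv_one, C])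
  have k16 : o.lt (m * f⁻¹) (m * g⁻¹) ↔ o.lt ((m * g⁻¹) * (Q * g⁻¹)⁻¹) ((m * g⁻¹) * (Q * f⁻¹)⁻¹) := o.cv hδ (f * Q⁻¹) e2 (by simp only [mul_assoc, mul_inv_rev, inv_inv, mul_inv_cancel_left, inv_mul_cancel_left, mul_inv_cancel, inv_mul_cancel, mul_one, one_mul, inv_one, C]) (by simp only [mul_assoc, mul_inv_rev, inv_inv, mul_inv_cancel_left, inv_mul_cancel_left, mul_inv_cancel, inv_mul_cancel, mul_one, one_mul, inv_one, C])
  have k17 : o.lt (Q * (P⁻¹ * (g * P⁻¹))) (Q * (m⁻¹ * (g * m⁻¹))) ↔ o.lt ((Q * g⁻¹) * (P * g⁻¹)) ((Q * g⁻¹) * (m * g⁻¹)) := o.cv hδ (P * (g⁻¹ * (P * (g⁻¹ * (P * g⁻¹))))) e26 (by simp only [mul_assoc, mul_inv_rev, inv_inv, mul_inv_cancel_left, inv_mul_cancel_left, mul_inv_cancel, inv_mul_cancel, mul_one, one_mul, inv_one, C]) (by simp only [mul_assoc, mul_inv_rev, inv_inv, mul_inv_cancel_left, inv_mul_cancel_left, mul_inv_cancel, inv_mul_cancel, mul_one, one_mul, inv_one,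 C])
  have k18 : o.lt (Q * (P⁻¹ * (g * P⁻¹))) (Q * (g⁻¹ * (P * f⁻¹))) ↔ o.lt ((Q * g⁻¹) * (P * g⁻¹)) ((Q * g⁻¹) * (P * f⁻¹)) := o.cv hδ (P * (g⁻¹ * (P * (g⁻¹ * (P * g⁻¹))))) e25 (by simp only [mul_assoc, mul_inv_rev, inv_inv, mul_inv_cancel_left, inv_mul_cancel_left, mul_inv_cancel, inv_mul_cancel, mul_one, one_mul, inv_one, C]) (by simp only [mul_assoc, mul_inv_rev, inv_inv, mul_inv_cancel_left, inv_mul_cancel_left, mul_inv_cancel, inv_mul_cancel, mul_one, one_mul, inv_one, C])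
  have k19 : o.lt (Q * (g⁻¹ * (f * m⁻¹))) (Q * m⁻¹) ↔ o.lt ((Q * g⁻¹) * (m * f⁻¹)⁻¹) ((Q * g⁻¹) * (m * g⁻¹)⁻¹) := o.cv hδ (1) e21 (by simp only [mul_assoc, mul_inv_rev, inv_inv, mul_inv_cancel_left, inv_mul_cancel_left, mul_inv_cancel, inv_mul_cancel, mul_one, one_mul, inv_one, C]) (by simp only [mul_assoc, mul_inv_rev, inv_inv, mul_inv_cancel_left, inv_mul_cancel_left, mul_inv_cancel, inv_mul_cancel, mul_one, one_mul, inv_one, C])
  have k20 : o.lt (Q * P⁻¹) (Q * m⁻¹) ↔ o.lt ((Q * g⁻¹) * (P * g⁻¹)⁻¹) ((Q * g⁻¹) * (m * g⁻¹)⁻¹) := o.cv hδ (1) e24 (by simp only [mul_assoc, mul_inv_rev, inv_inv, mul_inv_cancel_left, inv_mul_cancel_left, mul_inv_cancel, inv_mul_cancel, mul_one, one_mul, inv_one, C]) (by simp only [mul_assoc, mul_inv_rev, inv_inv, mul_inv_cancel_left, inv_mul_cancel_left, mul_inv_cancel, inv_mul_cancel, mul_one, one_mul, inv_one, C])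
  have k21 : o.lt (Q * f⁻¹) (Q * g⁻¹) ↔ o.lt ((Q * g⁻¹) * (P * g⁻¹)⁻¹) ((Q * g⁻¹) * (P * f⁻¹)⁻¹) := o.cv hδ (f * P⁻¹) e14 (by simp only [mul_assoc, mul_inv_rev, inv_inv, mul_inv_cancel_left, inv_mul_cancel_left, mul_inv_cancel, inv_mul_cancel, mul_one, one_mul, inv_one, C]) (by simp only [mul_assoc, mul_inv_rev, inv_inv, mul_inv_cancel_left, inv_mul_cancel_left, mul_inv_cancel, inv_mul_cancel, mul_one, one_mul, inv_one, C])
  have k22 : o.lt (Q * (m⁻¹ * (g * m⁻¹))) (Q * (g⁻¹ * (m * f⁻¹))) ↔ o.lt ((Q * g⁻¹) * (m * g⁻¹)) ((Q * g⁻¹) * (m * f⁻¹)) := o.cv hδ (m * (g⁻¹ * (m * (g⁻¹ * (m * g⁻¹))))) e30 (by simp only [mul_assoc, mul_inv_rev, inv_inv, mul_inv_cancel_left, inv_mul_cancel_left, mul_inv_cancel, inv_mul_cancel, mul_one, one_mul, inv_one, C]) (by simp only [mul_assoc, mul_inv_rev, inv_inv, mul_inv_cancel_left, inv_mul_cancel_left, mul_inv_cancel, inv_mul_cancel, mul_one, one_mul, inv_one,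 C])
  have k23 : o.lt (Q * (g⁻¹ * (f * P⁻¹))) (Q * (g⁻¹ * (f * m⁻¹))) ↔ o.lt ((Q * g⁻¹) * (P * f⁻¹)⁻¹) ((Q * g⁻¹) * (m * f⁻¹)⁻¹) := o.cv hδ (1) e22 (by simp only [mul_assoc, mul_inv_rev, inv_inv, mul_inv_cancel_left, inv_mul_cancel_left, mul_inv_cancel, inv_mul_cancel, mul_one, one_mul, inv_one, C]) (by simp only [mul_assoc, mul_inv_rev, inv_inv, mul_inv_cancel_left, inv_mul_cancel_left, mul_inv_cancel, inv_mul_cancel, mul_one, one_mul, inv_one, C])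
  have k24 : o.lt (Q * f⁻¹) (Q * g⁻¹) ↔ o.lt ((Q * g⁻¹) * (m * g⁻¹)⁻¹) ((Q * g⁻¹) * (m * f⁻¹)⁻¹) := o.cv hδ (f * m⁻¹) e14 (by simp only [mul_assoc, mul_inv_rev, inv_inv, mul_inv_cancel_left, inv_mul_cancel_left, mul_inv_cancel, inv_mul_cancel, mul_one, one_mul, inv_one, C]) (by simp only [mul_assoc, mul_inv_rev, inv_inv, mul_inv_cancel_left, inv_mul_cancel_left, mul_inv_cancel, inv_mul_cancel, mul_one, one_mul, inv_one, C])
  have k25 : o.lt (Q * (m⁻¹ * (g * m⁻¹))) (g * Q⁻¹) ↔ o.lt ((Q * g⁻¹) * (m * g⁻¹)) ((Q * g⁻¹) * (Q * g⁻¹)) := o.cv hδ (m * (g⁻¹ * (m * (g⁻¹ * (m * g⁻¹))))) e31 (by simp only [mul_assoc, mul_inv_rev, inv_inv, mul_inv_cancel_left, inv_mul_cancel_left, mul_inv_cancel, inv_mul_cancel, mul_one, one_mul, inv_one, C]) (by simp only [mul_assoc, mul_inv_rev, inv_inv, mul_inv_cancel_left, inv_mul_cancel_left, mul_inv_cancel, inv_mul_cancel, mul_one, one_mul, inv_one, C])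
  have k26 : o.lt (Q * (g⁻¹ * (f * m⁻¹))) (Q * m⁻¹) ↔ o.lt ((Q * g⁻¹) * (Q * f⁻¹)⁻¹) ((Q * g⁻¹) * (Q * g⁻¹)⁻¹) := o.cv hδ (m * Q⁻¹) e21 (by simp only [mul_assoc, mul_inv_rev, inv_inv, mul_inv_cancel_left, inv_mul_cancel_left, mul_inv_cancel, inv_mul_cancel, mul_one, one_mul, inv_one, C]) (by simp only [mul_assoc, mul_inv_rev, inv_inv, mul_inv_cancel_left, inv_mul_cancel_left, mul_inv_cancel, inv_mul_cancel, mul_one, one_mul, inv_one, C])
  have k27 : o.lt (P * f⁻¹) (m * f⁻¹) ↔ o.lt (P * f⁻¹) (m * f⁻¹) := o.cv hδ (1) e6 (by simp only [mul_assoc, mul_inv_rev, inv_inv, mul_inv_cancel_left, inv_mul_cancel_left, mul_inv_cancel, inv_mul_cancel, mul_one, one_mul, inv_one, C]) (by simp only [mul_assoc, mul_inv_rev, inv_inv, mul_inv_cancel_left, inv_mul_cancel_left, mul_inv_cancel, inv_mul_cancel, mul_one, one_mul, inv_one, C])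
  have k28 : o.lt (m * f⁻¹) (P * f⁻¹) ↔ o.lt (m * f⁻¹) (P * f⁻¹) := o.cv hδ (1) e3 (by simp only [mul_assoc, mul_inv_rev, inv_inv, mul_inv_cancel_left, inv_mul_cancel_left, mul_inv_cancel, inv_mul_cancel, mul_one, one_mul, inv_one, C]) (by simp only [mul_assoc, mul_inv_rev, inv_inv, mul_inv_cancel_left, inv_mul_cancel_left, mul_inv_cancel, inv_mul_cancel, mul_one, one_mul, inv_one, C])
  have k29 : o.lt (P * f⁻¹) (Q * g⁻¹) ↔ o.lt (P * f⁻¹) (Q * g⁻¹) := o.cv hδ (1) e13 (by simp only [mul_assoc, mul_inv_rev, inv_inv, mul_inv_cancel_left, inv_mul_cancel_left, mul_inv_cancel, inv_mul_cancel, mul_one, one_mul, inv_one, C]) (by simp only [mul_assoc, mul_inv_rev, inv_inv, mul_inv_cancel_left, inv_mul_cancel_left, mul_inv_cancel, inv_mul_cancel, mul_one, one_mul, inv_one, C])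
  have k30 : o.lt (Q * g⁻¹) (P * f⁻¹) ↔ o.lt (Q * g⁻¹) (P * f⁻¹) := o.cv hδ (1) e20 (by simp only [mul_assoc, mul_inv_rev, inv_inv, mul_inv_cancel_left, inv_mul_cancel_left, mul_inv_cancel, inv_mul_cancel, mul_one, one_mul, inv_one, C]) (by simp only [mul_assoc, mul_inv_rev, inv_inv, mul_inv_cancel_left, inv_mul_cancel_left, mul_inv_cancel, inv_mul_cancel, mul_one, one_mul, inv_one, C])
  have k31 : o.lt (m * f⁻¹) (Q * f⁻¹) ↔ o.lt (m * f⁻¹) (Q * f⁻¹) := o.cv hδ (1) e0 (by simp only [mul_assoc, mul_inv_rev, inv_inv, mul_inv_cancel_left, inv_mul_cancel_left, mul_inv_cancel, inv_mul_cancel, mul_one, one_mul, inv_one, C]) (by simp only [mul_assoc, mul_inv_rev, inv_inv, mul_inv_cancel_left, inv_mul_cancel_left, mul_inv_cancel, inv_mul_cancel, mul_one, one_mul, inv_one, C])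
  have k32 : o.lt (Q * f⁻¹) (m * f⁻¹) ↔ o.lt (Q * f⁻¹) (m * f⁻¹) := o.cv hδ (1) e8 (by simp only [mul_assoc, mul_inv_rev, inv_inv, mul_inv_cancel_left, inv_mul_cancel_left, mul_inv_cancel, inv_mul_cancel, mul_one, one_mul, inv_one, C]) (by simp only [mul_assoc, mul_inv_rev, inv_inv, mul_inv_cancel_left, inv_mul_cancel_left, mul_inv_cancel, inv_mul_cancel, mul_one, one_mul, inv_one, C])
  have k33 : o.lt (m * f⁻¹) (Q * g⁻¹) ↔ o.lt (m * f⁻¹) (Q * g⁻¹) := o.cv hδ (1) e4 (by simp only [mul_assoc, mul_inv_rev, inv_inv, mul_inv_cancel_left, inv_mul_cancel_left, mul_inv_cancel, inv_mul_cancel, mul_one, one_mul, inv_one, C]) (by simp only [mul_assoc, mul_inv_rev, inv_inv, mul_inv_cancel_left, inv_mul_cancel_left, mul_inv_cancel, inv_mul_cancel, mul_one, one_mul, inv_one, C])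
  have k34 : o.lt (m * f⁻¹) (m * g⁻¹) ↔ o.lt (m * f⁻¹) (m * g⁻¹) := o.cv hδ (1) e2 (by simp only [mul_assoc, mul_inv_rev, inv_inv, mul_inv_cancel_left, inv_mul_cancel_left, mul_inv_cancel, inv_mul_cancel, mul_one, one_mul, inv_one, C]) (by simp only [mul_assoc, mul_inv_rev, inv_inv, mul_inv_cancel_left, inv_mul_cancel_left, mul_inv_cancel, inv_mul_cancel, mul_one, one_mul, inv_one, C])
  have k35 : o.lt (m * f⁻¹) (Q * f⁻¹) ↔ o.lt (m * g⁻¹) (Q * g⁻¹) := o.cv hδ (f * g⁻¹) e0 (by simp only [mul_assoc, mul_inv_rev, inv_inv, mul_inv_cancel_left, inv_mul_cancel_left, mul_inv_cancel, inv_mul_cancel, mul_one, one_mul, inv_one, C]) (by simp only [mul_assoc, mul_inv_rev, inv_inv, mul_inv_cancel_left, inv_mul_cancel_left, mul_inv_cancel, inv_mul_cancel, mul_one, one_mul, inv_one, C])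
  have k36 : o.lt (m * (g⁻¹ * (f * Q⁻¹))) (1) ↔ o.lt (m * g⁻¹) (Q * f⁻¹) := o.cv hδ (Q * f⁻¹) e1 (by simp only [mul_assoc, mul_inv_rev, inv_inv, mul_inv_cancel_left, inv_mul_cancel_left, mul_inv_cancel, inv_mul_cancel, mul_one, one_mul, inv_one, C]) (by simp only [mul_assoc, mul_inv_rev, inv_inv, mul_inv_cancel_left, inv_mul_cancel_left, mul_inv_cancel, inv_mul_cancel, mul_one, one_mul, inv_one, C])
  have k37 : o.lt (Q * f⁻¹) (m * g⁻¹) ↔ o.lt (Q * f⁻¹) (m * g⁻¹) := o.cv hδ (1) e7 (by simp only [mul_assoc, mul_inv_rev, inv_inv, mul_inv_cancel_left, inv_mul_cancel_left, mul_inv_cancel, inv_mul_cancel, mul_one, one_mul, inv_one, C]) (by simp only [mul_assoc, mul_inv_rev, inv_inv, mul_inv_cancel_left, inv_mul_cancel_left, mul_inv_cancel, inv_mul_cancel, mul_one, one_mul, inv_one, C])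
  have k38 : o.lt (Q * f⁻¹) (P * f⁻¹) ↔ o.lt (Q * f⁻¹) (P * f⁻¹) := o.cv hδ (1) e23 (by simp only [mul_assoc, mul_inv_rev, inv_inv, mul_inv_cancel_left, inv_mul_cancel_left, mul_inv_cancel, inv_mul_cancel, mul_one, one_mul, inv_one, C]) (by simp only [mul_assoc, mul_inv_rev, inv_inv, mul_inv_cancel_left, inv_mul_cancel_left, mul_inv_cancel, inv_mul_cancel, mul_one, one_mul, inv_one, C])
  have k39 : o.lt (Q * f⁻¹) (Q * g⁻¹) ↔ o.lt (Q * f⁻¹) (Q * g⁻¹) := o.cv hδ (1) e14 (by simp only [mul_assoc, mul_inv_rev, inv_inv, mul_inv_cancel_left, inv_mul_cancel_left, mul_inv_cancel, inv_mul_cancel, mul_one, one_mul, inv_one, C]) (by simp only [mul_assoc, mul_inv_rev, inv_inv, mul_inv_cancel_left, inv_mul_cancel_left, mul_inv_cancel, inv_mul_cancel, mul_one, one_mul, inv_one, C])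
  have k40 : o.lt (Q * (g⁻¹ * (f * m⁻¹))) (Q * m⁻¹) ↔ o.lt (Q * g⁻¹) (Q * f⁻¹) := o.cv hδ (m * f⁻¹) e21 (by simp only [mul_assoc, mul_inv_rev, inv_inv, mul_inv_cancel_left, inv_mul_cancel_left, mul_inv_cancel, inv_mul_cancel, mul_one, one_mul, inv_one, C]) (by simp only [mul_assoc, mul_inv_rev, inv_inv, mul_inv_cancel_left, inv_mul_cancel_left, mul_inv_cancel, inv_mul_cancel, mul_one, one_mul, inv_one, C])
  have k41 : o.lt (Q * f⁻¹) (m * f⁻¹) ↔ o.lt (Q * g⁻¹) (m * g⁻¹) := o.cv hδ (f * g⁻¹) e8 (by simp only [mul_assoc, mul_inv_rev, inv_inv, mul_inv_cancel_left, inv_mul_cancel_left, mul_inv_cancel, inv_mul_cancel, mul_one, one_mul, inv_one, C]) (by simp only [mul_assoc, mul_inv_rev, inv_inv, mul_inv_cancel_left, inv_mul_cancel_left, mul_inv_cancel, inv_mul_cancel, mul_one, one_mul, inv_one, C])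
  have k42 : o.lt (g * P⁻¹) (g * Q⁻¹) ↔ o.lt (g * P⁻¹) (g * Q⁻¹) := o.cv hδ (1) e15 (by simp only [mul_assoc, mul_inv_rev, inv_inv, mul_inv_cancel_left, inv_mul_cancel_left, mul_inv_cancel, inv_mul_cancel, mul_one, one_mul, inv_one, C]) (by simp only [mul_assoc, mul_inv_rev, inv_inv, mul_inv_cancel_left, inv_mul_cancel_left, mul_inv_cancel, inv_mul_cancel, mul_one, one_mul, inv_one, C])
  have k43 : o.lt (g * Q⁻¹) (g * P⁻¹) ↔ o.lt (g * Q⁻¹) (g * P⁻¹) := o.cv hδ (1) e32 (by simp only [mul_assoc, mul_inv_rev, inv_inv, mul_inv_cancel_left, inv_mul_cancel_left, mul_inv_cancel, inv_mul_cancel, mul_one, one_mul, inv_one, C]) (by simp only [mul_assoc, mul_inv_rev, inv_inv, mul_inv_cancel_left, inv_mul_cancel_left, mul_inv_cancel, inv_mul_cancel, mul_one, one_mul, inv_one, C])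
  have k44 : o.lt (g * m⁻¹) (g * P⁻¹) ↔ o.lt (g * m⁻¹) (g * P⁻¹) := o.cv hδ (1) e17 (by simp only [mul_assoc, mul_inv_rev, inv_inv, mul_inv_cancel_left, inv_mul_cancel_left, mul_inv_cancel, inv_mul_cancel, mul_one, one_mul, inv_one, C]) (by simp only [mul_assoc, mul_inv_rev, inv_inv, mul_inv_cancel_left, inv_mul_cancel_left, mul_inv_cancel, inv_mul_cancel, mul_one, one_mul, inv_one, C])
  have k45 : o.lt (g * m⁻¹) (g * Q⁻¹) ↔ o.lt (g * m⁻¹) (g * Q⁻¹) := o.cv hδ (1) e16 (by simp only [mul_assoc, mul_inv_rev, inv_inv, mul_inv_cancel_left, inv_mul_cancel_left, mul_inv_cancel, inv_mul_cancel, mul_one, one_mul, inv_one, C]) (by simp only [mul_assoc, mul_inv_rev, inv_inv, mul_inv_cancel_left, inv_mul_cancel_left, mul_inv_cancel, inv_mul_cancel, mul_one, one_mul, inv_one, C])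
  have k46 : o.lt (Q * (P⁻¹ * (g * P⁻¹))) (g * Q⁻¹) ↔ o.lt (Q * (g⁻¹ * (P * g⁻¹))) (g * Q⁻¹) := o.cv hδ (P * (g⁻¹ * (P * (g⁻¹ * (P * g⁻¹))))) e27 (by simp only [mul_assoc, mul_inv_rev, inv_inv, mul_inv_cancel_left, inv_mul_cancel_left, mul_inv_cancel, inv_mul_cancel, mul_one, one_mul, inv_one, C]) (by simp only [mul_assoc, mul_inv_rev, inv_inv, mul_inv_cancel_left, inv_mul_cancel_left, mul_inv_cancel, inv_mul_cancel, mul_one, one_mul, inv_one, C])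
  have k47 : o.lt (Q * f⁻¹) (P * f⁻¹) ↔ o.lt (Q * (g⁻¹ * (P * g⁻¹))) (g * P⁻¹) := o.cv hδ (f * (g⁻¹ * (P * g⁻¹))) e23 (by simp only [mul_assoc, mul_inv_rev, inv_inv, mul_inv_cancel_left, inv_mul_cancel_left, mul_inv_cancel, inv_mul_cancel, mul_one, one_mul, inv_one, C]) (by simp only [mul_assoc, mul_inv_rev, inv_inv, mul_inv_cancel_left, inv_mul_cancel_left, mul_inv_cancel, inv_mul_cancel, mul_one, one_mul, inv_one, C])
  have k48 : o.lt (g * m⁻¹) (g * (m⁻¹ * (g * f⁻¹))) ↔ o.lt (g * m⁻¹) (m * (g⁻¹ * (m * f⁻¹))) := o.cv hδ (1) e10 (by simp only [mul_assoc, mul_inv_rev, inv_inv, mul_inv_cancel_left, inv_mul_cancel_left, mul_inv_cancel, inv_mul_cancel, mul_one, one_mul, inv_one, C]) (by simp only [mul_assoc, mul_inv_rev, inv_inv, mul_inv_cancel_left, inv_mul_cancel_left, mul_inv_cancel, inv_mul_cancel, mul_one, one_mul, inv_one, C])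
  have k49 : o.lt (g * P⁻¹) (f * P⁻¹) ↔ o.lt (g * m⁻¹) (f * m⁻¹) := o.cv hδ (P * m⁻¹) e18 (by simp only [mul_assoc, mul_inv_rev, inv_inv, mul_inv_cancel_left, inv_mul_cancel_left, mul_inv_cancel, inv_mul_cancel, mul_one, one_mul, inv_one, C]) (by simp only [mul_assoc, mul_inv_rev, inv_inv, mul_inv_cancel_left, inv_mul_cancel_left, mul_inv_cancel, inv_mul_cancel, mul_one, one_mul, inv_one, C])
  have k50 : o.lt (m * f⁻¹) (m * g⁻¹) ↔ o.lt (f * m⁻¹) (m * (g⁻¹ * (m * f⁻¹))) := o.cv hδ (f * (m⁻¹ * (f * m⁻¹))) e2 (by simp only [mul_assoc, mul_inv_rev, inv_inv, mul_inv_cancel_left, inv_mul_cancel_left, mul_inv_cancel, inv_mul_cancel, mul_one, one_mul, inv_one, C]) (by simp only [mul_assoc, mul_inv_rev, inv_inv, mul_inv_cancel_left, inv_mul_cancel_left, mul_inv_cancel, inv_mul_cancel, mul_one, one_mul, inv_one, C])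
  have k51 : o.lt (g * m⁻¹) (f * Q⁻¹) ↔ o.lt (g * m⁻¹) (f * Q⁻¹) := o.cv hδ (1) e19 (by simp only [mul_assoc, mul_inv_rev, inv_inv, mul_inv_cancel_left, inv_mul_cancel_left, mul_inv_cancel, inv_mul_cancel, mul_one, one_mul, inv_one, C]) (by simp only [mul_assoc, mul_inv_rev, inv_inv, mul_inv_cancel_left, inv_mul_cancel_left, mul_inv_cancel, inv_mul_cancel, mul_one, one_mul, inv_one, C])
  have k52 : o.lt (g * m⁻¹) (m * (g⁻¹ * (Q * f⁻¹))) ↔ o.lt (g * m⁻¹) (m * (g⁻¹ * (Q * f⁻¹))) := o.cv hδ (1) e11 (by simp only [mul_assoc, mul_inv_rev, inv_inv, mul_inv_cancel_left, inv_mul_cancel_left, mul_inv_cancel, inv_mul_cancel, mul_one, one_mul, inv_one, C]) (by simp only [mul_assoc, mul_inv_rev, inv_inv, mul_inv_cancel_left, inv_mul_cancel_left, mul_inv_cancel, inv_mul_cancel, mul_one, one_mul, inv_one, C])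
  have k53 : o.lt (m * (g⁻¹ * (f * Q⁻¹))) (1) ↔ o.lt (m * (g⁻¹ * (Q * f⁻¹))) (f * Q⁻¹) := o.cv hδ (Q * (f⁻¹ * (Q * f⁻¹))) e1 (by simp only [mul_assoc, mul_inv_rev, inv_inv, mul_inv_cancel_left, inv_mul_cancel_left, mul_inv_cancel, inv_mul_cancel, mul_one, one_mul, inv_one, C]) (by simp only [mul_assoc, mul_inv_rev, inv_inv, mul_inv_cancel_left, inv_mul_cancel_left, mul_inv_cancel, inv_mul_cancel, mul_one, one_mul, inv_one, C])
  have k54 : o.lt (g * m⁻¹) (m * (Q⁻¹ * (g * Q⁻¹))) ↔ o.lt (g * m⁻¹) (m * (g⁻¹ * (Q * g⁻¹))) := o.cv hδ (1) e12 (by simp only [mul_assoc, mul_inv_rev, inv_inv, mul_inv_cancel_left, inv_mul_cancel_left, mul_inv_cancel, inv_mul_cancel, mul_one, one_mul, inv_one, C]) (by simp only [mul_assoc, mul_inv_rev, inv_inv, mul_inv_cancel_left, inv_mul_cancel_left, mul_inv_cancel, inv_mul_cancel, mul_one, one_mul, inv_one, C])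
  have k55 : o.lt (m * f⁻¹) (Q * f⁻¹) ↔ o.lt (m * (g⁻¹ * (Q * g⁻¹))) (g * Q⁻¹) := o.cv hδ (f * (g⁻¹ * (Q * g⁻¹))) e0 (by simp only [mul_assoc, mul_inv_rev, inv_inv, mul_inv_cancel_left, inv_mul_cancel_left, mul_inv_cancel, inv_mul_cancel, mul_one, one_mul, inv_one, C]) (by simp only [mul_assoc, mul_inv_rev, inv_inv, mul_inv_cancel_left, inv_mul_cancel_left, mul_inv_cancel, inv_mul_cancel, mul_one, one_mul, inv_one, C])
  have k56 : o.lt (g * (m⁻¹ * (g * f⁻¹))) (m * (g⁻¹ * (Q * f⁻¹))) ↔ o.lt (m * (g⁻¹ * (m * f⁻¹))) (m * (g⁻¹ * (Q * f⁻¹))) := o.cv hδ (f * (g⁻¹ * (m * (g⁻¹ * (m * (g⁻¹ * (m * f⁻¹))))))) e5 (by simp only [mul_assoc, mul_inv_rev, inv_inv, mul_inv_cancel_left, inv_mul_cancel_left, mul_inv_cancel, inv_mul_cancel, mul_one, one_mul, inv_one, C]) (by simp only [mul_assoc, mul_inv_rev, inv_inv, mul_inv_cancel_left, inv_mul_cancel_left, mul_inv_cancel, inv_mul_cancel, mul_one, one_mul,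 inv_one, C])
  have k57 : o.lt (Q * (P⁻¹ * (g * P⁻¹))) (Q * (m⁻¹ * (g * m⁻¹))) ↔ o.lt (Q * (g⁻¹ * (P * g⁻¹))) (Q * (g⁻¹ * (m * g⁻¹))) := o.cv hδ (P * (g⁻¹ * (P * (g⁻¹ * (P * g⁻¹))))) e26 (by simp only [mul_assoc, mul_inv_rev, inv_inv, mul_inv_cancel_left, inv_mul_cancel_left, mul_inv_cancel, inv_mul_cancel, mul_one, one_mul, inv_one, C]) (by simp only [mul_assoc, mul_inv_rev, inv_inv, mul_inv_cancel_left, inv_mul_cancel_left, mul_inv_cancel, inv_mul_cancel, mul_one, one_mul, inv_one, C])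
  have k58 : o.lt (Q * (m⁻¹ * (g * m⁻¹))) (Q * (P⁻¹ * (g * P⁻¹))) ↔ o.lt (Q * (g⁻¹ * (m * g⁻¹))) (Q * (g⁻¹ * (P * g⁻¹))) := o.cv hδ (m * (g⁻¹ * (m * (g⁻¹ * (m * g⁻¹))))) e29 (by simp only [mul_assoc, mul_inv_rev, inv_inv, mul_inv_cancel_left, inv_mul_cancel_left, mul_inv_cancel, inv_mul_cancel, mul_one, one_mul, inv_one, C]) (by simp only [mul_assoc, mul_inv_rev, inv_inv, mul_inv_cancel_left, inv_mul_cancel_left, mul_inv_cancel, inv_mul_cancel, mul_one, one_mul, inv_one, C])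
  have k59 : o.lt (Q * (m⁻¹ * (g * m⁻¹))) (g * Q⁻¹) ↔ o.lt (Q * (g⁻¹ * (m * g⁻¹))) (g * Q⁻¹) := o.cv hδ (m * (g⁻¹ * (m * (g⁻¹ * (m * g⁻¹))))) e31 (by simp only [mul_assoc, mul_inv_rev, inv_inv, mul_inv_cancel_left, inv_mul_cancel_left, mul_inv_cancel, inv_mul_cancel, mul_one, one_mul, inv_one, C]) (by simp only [mul_assoc, mul_inv_rev, inv_inv, mul_inv_cancel_left, inv_mul_cancel_left, mul_inv_cancel, inv_mul_cancel, mul_one, one_mul, inv_one, C])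
  have k60 : o.lt (Q * (g⁻¹ * (f * P⁻¹))) (Q * (g⁻¹ * (f * m⁻¹))) ↔ o.lt (Q * (g⁻¹ * (f * P⁻¹))) (Q * (g⁻¹ * (f * m⁻¹))) := o.cv hδ (1) e22 (by simp only [mul_assoc, mul_inv_rev, inv_inv, mul_inv_cancel_left, inv_mul_cancel_left, mul_inv_cancel, inv_mul_cancel, mul_one, one_mul, inv_one, C]) (by simp only [mul_assoc, mul_inv_rev, inv_inv, mul_inv_cancel_left, inv_mul_cancel_left, mul_inv_cancel, inv_mul_cancel, mul_one, one_mul, inv_one, C])
  have k61 : o.lt (Q * g⁻¹) (P * f⁻¹) ↔ o.lt (Q * (g⁻¹ * (f * P⁻¹))) (1) := o.cv hδ (f * P⁻¹) e20 (by simp only [mul_assoc, mul_inv_rev, inv_inv, mul_inv_cancel_left, inv_mul_cancel_left, mul_inv_cancel, inv_mul_cancel, mul_one, one_mul, inv_one, C]) (by simp only [mul_assoc, mul_inv_rev, inv_inv, mul_inv_cancel_left, inv_mul_cancel_left, mul_inv_cancel, inv_mul_cancel, mul_one, one_mul, inv_one, C])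
  have k62 : o.lt (m * f⁻¹) (Q * g⁻¹) ↔ o.lt (1) (Q * (g⁻¹ * (f * m⁻¹))) := o.cv hδ (f * m⁻¹) e4 (by simp only [mul_assoc, mul_inv_rev, inv_inv, mul_inv_cancel_left, inv_mul_cancel_left, mul_inv_cancel, inv_mul_cancel, mul_one, one_mul, inv_one, C]) (by simp only [mul_assoc, mul_inv_rev, inv_inv, mul_inv_cancel_left, inv_mul_cancel_left, mul_inv_cancel, inv_mul_cancel, mul_one, one_mul, inv_one, C])
  have k63 : o.lt (Q * P⁻¹) (Q * m⁻¹) ↔ o.lt (Q * P⁻¹) (Q * m⁻¹) := o.cv hδ (1) e24 (by simp only [mul_assoc, mul_inv_rev, inv_inv, mul_inv_cancel_left, inv_mul_cancel_left, mul_inv_cancel, inv_mul_cancel, mul_one, one_mul, inv_one, C]) (by simp only [mul_assoc, mul_inv_rev, inv_inv, mul_inv_cancel_left, inv_mul_cancel_left, mul_inv_cancel, inv_mul_cancel, mul_one, one_mul, inv_one, C])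
  have k64 : o.lt (Q * m⁻¹) (Q * P⁻¹) ↔ o.lt (Q * m⁻¹) (Q * P⁻¹) := o.cv hδ (1) e28 (by simp only [mul_assoc, mul_inv_rev, inv_inv, mul_inv_cancel_left, inv_mul_cancel_left, mul_inv_cancel, inv_mul_cancel, mul_one, one_mul, inv_one, C]) (by simp only [mul_assoc, mul_inv_rev, inv_inv, mul_inv_cancel_left, inv_mul_cancel_left, mul_inv_cancel, inv_mul_cancel, mul_one, one_mul, inv_one, C])
  have k65 : o.lt (Q * f⁻¹) (m * f⁻¹) ↔ o.lt (Q * m⁻¹) (1) := o.cv hδ (f * m⁻¹) e8 (by simp only [mul_assoc, mul_inv_rev, inv_inv, mul_inv_cancel_left, inv_mul_cancel_left, mul_inv_cancel, inv_mul_cancel, mul_one, one_mul, inv_one, C]) (by simp only [mul_assoc, mul_inv_rev, inv_inv, mul_inv_cancel_left, inv_mul_cancel_left, mul_inv_cancel, inv_mul_cancel, mul_one, one_mul, inv_one, C])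
  have k66 : o.lt (Q * f⁻¹) (P * f⁻¹) ↔ o.lt (Q * P⁻¹) (1) := o.cv hδ (f * P⁻¹) e23 (by simp only [mul_assoc, mul_inv_rev, inv_inv, mul_inv_cancel_left, inv_mul_cancel_left, mul_inv_cancel, inv_mul_cancel, mul_one, one_mul, inv_one, C]) (by simp only [mul_assoc, mul_inv_rev, inv_inv, mul_inv_cancel_left, inv_mul_cancel_left, mul_inv_cancel, inv_mul_cancel, mul_one, one_mul, inv_one, C])
  have k67 : o.lt (g * P⁻¹) (f * P⁻¹) ↔ o.lt ((P * g⁻¹)⁻¹) ((P * f⁻¹)⁻¹) := o.cv hδ (1) e18 (by simp only [mul_assoc, mul_inv_rev, inv_inv, mul_inv_cancel_left, inv_mul_cancel_left, mul_inv_cancel, inv_mul_cancel, mul_one, one_mul, inv_one, C]) (by simp only [mul_assoc, mul_inv_rev, inv_inv, mul_inv_cancel_left, inv_mul_cancel_left, mul_inv_cancel, inv_mul_cancel, mul_one, one_mul, inv_one, C])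
  exact ser_EEE_1_prop
    (fun b0 b1 b2 => N0.i.r1 1 (fun h => b0 (k0.2 h)) (k1.1 b1) (fun h => b2 (k2.2 h)))
    (fun b0 b1 b2 => N0.rd.r1 1 (fun h => b0 (k3.2 h)) (k4.1 b1) (fun h => b2 (k5.2 h)))
    (fun b0 b1 b2 => N0.i.r2 1 (fun h => b0 (k4.2 h)) (fun h => b1 (k6.2 h)) (k7.1 b2))
    (fun b0 b1 b2 => N1.i.r1 1 (fun h => b0 (k8.2 h)) (k9.1 b1) (fun h => b2 (k5.2 h)))
    (fun b0 b1 b2 => N1.d.r0 1 (k8.1 b0) (fun h => b1 (k10.2 h)) (fun h => b2 (k11.2 h)))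
    (fun b0 b1 b2 => N1.i.r0 (m * g⁻¹) (k12.1 b0) (fun h => b1 (k13.2 h)) (fun h => b2 (k14.2 h)))
    (fun b0 b1 b2 => N1.rd.r0 (m * g⁻¹) (k15.1 b0) (fun h => b1 (k16.2 h)) (fun h => b2 (k14.2 h)))
    (fun b0 b1 b2 => N0.r.r1 (Q * g⁻¹) (fun h => b0 (k17.2 h)) (k18.1 b1) (fun h => b2 (k19.2 h)))
    (fun b0 b1 b2 => N0.d.r2 (Q * g⁻¹) (fun h => b0 (k18.2 h)) (fun h => b1 (k20.2 h)) (k21.1 b2))
    (fun b0 b1 b2 => N0.r.r2 (Q * g⁻¹) (fun h => b0 (k22.2 h)) (fun h => b1 (k23.2 h)) (k24.1 b2))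
    (fun b0 b1 b2 => N1.r.r1 (Q * g⁻¹) (fun h => b0 (k25.2 h)) (k22.1 b1) (fun h => b2 (k26.2 h)))
    (fun b0 b1 => o.asym (k27.1 b0) (k28.1 b1))
    (fun b0 b1 => o.asym (k29.1 b0) (k30.1 b1))
    (fun b0 b1 => o.asym (k31.1 b0) (k32.1 b1))
    (fun b0 b1 b2 => o.tri (k33.1 b0) (fun h => b1 (k34.2 h)) (fun h => b2 (k35.2 h)))
    (fun b0 b1 => o.asym (k36.1 b0) (k37.1 b1))
    (fun b0 b1 b2 => o.tri (k32.1 b0) (fun h => b1 (k38.2 h)) (fun h => b2 (k27.2 h)))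
    (fun b0 b1 => o.asym (k39.1 b0) (k40.1 b1))
    (fun b0 b1 b2 => o.tri (k39.1 b0) (fun h => b1 (k38.2 h)) (fun h => b2 (k29.2 h)))
    (fun b0 b1 b2 => o.tri (k41.1 b0) (fun h => b1 (k40.2 h)) (fun h => b2 (k37.2 h)))
    (fun b0 b1 => o.asym (k42.1 b0) (k43.1 b1))
    (fun b0 b1 b2 => o.tri (k44.1 b0) (fun h => b1 (k45.2 h)) (fun h => b2 (k43.2 h)))
    (fun b0 b1 b2 => o.tri (k46.1 b0) (fun h => b1 (k47.2 h)) (fun h => b2 (k42.2 h)))
    (fun b0 b1 b2 => o.tri (k48.1 b0) (fun h => b1 (k49.2 h)) (fun h => b2 (k50.2 h)))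
    (fun b0 b1 b2 => o.tri (k51.1 b0) (fun h => b1 (k52.2 h)) (fun h => b2 (k53.2 h)))
    (fun b0 b1 b2 => o.tri (k45.1 b0) (fun h => b1 (k54.2 h)) (fun h => b2 (k55.2 h)))
    (fun b0 b1 b2 => o.tri (k52.1 b0) (fun h => b1 (k48.2 h)) (fun h => b2 (k56.2 h)))
    (fun b0 b1 => o.asym (k57.1 b0) (k58.1 b1))
    (fun b0 b1 b2 => o.tri (k59.1 b0) (fun h => b1 (k58.2 h)) (fun h => b2 (k46.2 h)))
    (fun b0 b1 b2 => o.tri (k60.1 b0) (fun h => b1 (k61.2 h)) (fun h => b2 (k62.2 h)))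
    (fun b0 b1 => o.asym (k63.1 b0) (k64.1 b1))
    (fun b0 b1 b2 => o.tri (k65.1 b0) (fun h => b1 (k64.2 h)) (fun h => b2 (k66.2 h)))
    (fun h => g0 (k38.1 h))
    (k39.2 g1)
    (fun h => g2 (k67.1 h))

theorem ser_EEE_2_prop {A1 A2 A3 A4 A5 A6 A7 A8 A9 A10 A11 A12 A13 A14 A15 A16 A17 A18 A19 A20 A21 A22 A23 A24 A25 A26 A27 A28 A29 A30 A31 : Prop}
    (c0 : ¬ A19 → A20 → ¬ A1 → False)
    (c1 : A19 → ¬ A22 → False)
    (c2 : ¬ A13 → ¬ A2 → A4 → False)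
    (c3 : A21 → ¬ A1 → ¬ A30 → False)
    (c4 : ¬ A20 → ¬ A31 → A4 → False)
    (c5 : ¬ A8 → ¬ A26 → A16 → False)
    (c6 : ¬ A7 → A12 → ¬ A25 → False)
    (c7 : ¬ A9 → A8 → ¬ A25 → False)
    (c8 : ¬ A12 → ¬ A27 → A16 → False)
    (c9 : A14 → A22 → False)
    (c10 : A15 → ¬ A14 → ¬ A24 → False)
    (c11 : A20 → A23 → False)
    (c12 : A24 → ¬ A23 → ¬ A21 → False)
    (c13 : A4 → A1 → False)
    (c14 : A6 → A2 → False)
    (c15 : A2 → ¬ A29 → ¬ A3 → False)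
    (c16 : A29 → A31 → False)
    (c17 : A30 → ¬ A5 → ¬ A6 → False)
    (c18 : A4 → ¬ A13 → ¬ A16 → False)
    (c19 : A25 → ¬ A1 → ¬ A13 → False)
    (c20 : A18 → ¬ A15 → ¬ A5 → False)
    (c21 : A2 → ¬ A3 → ¬ A10 → False)
    (c22 : A2 → ¬ A3 → ¬ A11 → False)
    (c23 : A5 → ¬ A3 → ¬ A12 → False)
    (c24 : A7 → A10 → False)
    (c25 : A9 → A11 → False)
    (c26 : A26 → ¬ A25 → ¬ A17 → False)
    (c27 : A17 → ¬ A18 → ¬ A28 → False)
    (c28 : A27 → A28 → False)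
    (u0 : ¬ A13)
    (u1 : ¬ A3)
    (u2 : A4)
    : False := by
  have q1 : A2 := Classical.byContradiction fun h => c2 u0 h u2
  have q2 : ¬ A1 := fun h => c13 u2 h
  have q3 : ¬ A6 := fun h => c14 h q1
  have q4 : A29 := Classical.byContradiction fun h => c15 q1 h u1
  have q5 : ¬ A31 := fun h => c16 q4 h
  have q6 : A20 := Classical.byContradiction fun h => c4 h q5 u2
  have q7 : A19 := Classical.byContradiction fun h => c0 h q6 q2
  have q8 : A22 := Classical.byContradiction fun h => c1 q7 h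
  have q9 : ¬ A14 := fun h => c9 h q8
  have q10 : ¬ A23 := fun h => c11 q6 h
  have q11 : A16 := Classical.byContradiction fun h => c18 u2 u0 h
  have q12 : ¬ A25 := fun h => c19 h q2 u0
  have q13 : A10 := Classical.byContradiction fun h => c21 q1 u1 h
  have q14 : A11 := Classical.byContradiction fun h => c22 q1 u1 h
  have q15 : ¬ A7 := fun h => c24 h q13
  have q16 : ¬ A12 := fun h => c6 q15 h q12
  have q17 : A27 := Classical.byContradiction fun h => c8 q16 h q11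
  have q18 : ¬ A5 := fun h => c23 h u1 q16
  have q19 : ¬ A30 := fun h => c17 h q18 q3
  have q20 : ¬ A21 := fun h => c3 h q2 q19
  have q21 : ¬ A24 := fun h => c12 h q10 q20
  have q22 : ¬ A15 := fun h => c10 h q9 q21
  have q23 : ¬ A18 := fun h => c20 h q22 q18
  have q24 : ¬ A9 := fun h => c25 h q14
  have q25 : ¬ A8 := fun h => c7 q24 h q12
  have q26 : A26 := Classical.byContradiction fun h => c5 q25 h q11
  have q27 : A17 := Classical.byContradiction fun h => c26 q26 q12 h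
  have q28 : A28 := Classical.byContradiction fun h => c27 q27 q23 h
  exact c28 q17 q28

theorem ser_EEE_2 {G : Type*} [Group G] {δ : G → ZMod 3} (hδ : ∀ u v, δ (u * v) = δ u + δ v) (o : Pre δ)
    {P m Q f g : G} {e : ZMod 3} (h3 : 3 * e = 0)
    (D : δ P = e ∧ δ m = e ∧ δ Q = e ∧ δ f = 0 ∧ δ g = 0)
    (C : Cube P f ∧ Cube P g ∧ Cube m f ∧ Cube m g ∧ Cube Q f ∧ Cube Q g)
    (N0 : RE o P m f g)
    (N1 : RE o m Q f g)
    (g0 : ¬ o.lt (P * f⁻¹) (P * g⁻¹)) (g1 : ¬ o.lt ((Q * g⁻¹)⁻¹) ((P * g⁻¹)⁻¹)) (g2 : o.lt ((P * f⁻¹)⁻¹) ((P * g⁻¹)⁻¹)) : False := by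
  simp only [Cube] at C
  have e0 : δ (g * P⁻¹) = δ (f * P⁻¹) := by simp only [hδ, δinv hδ, δone hδ, D] <;> linear_combination (0) * h3
  have e1 : δ (g * m⁻¹) = δ (g * P⁻¹) := by simp only [hδ, δinv hδ, δone hδ, D] <;> linear_combination (0) * h3
  have e2 : δ (g * Q⁻¹) = δ (g * P⁻¹) := by simp only [hδ, δinv hδ, δone hδ, D] <;> linear_combination (0) * h3
  have e3 : δ (f * P⁻¹) = δ (g * P⁻¹) := by simp only [hδ, δinv hδ, δone hδ, D] <;> linear_combination (0) * h3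
  have e4 : δ (f * Q⁻¹) = δ (g * P⁻¹) := by simp only [hδ, δinv hδ, δone hδ, D] <;> linear_combination (0) * h3
  have e5 : δ (g * P⁻¹) = δ (g * m⁻¹) := by simp only [hδ, δinv hδ, δone hδ, D] <;> linear_combination (0) * h3
  have e6 : δ (g * (P⁻¹ * (m * f⁻¹))) = δ (g * (P⁻¹ * (Q * f⁻¹))) := by simp only [hδ, δinv hδ, δone hδ, D] <;> linear_combination (0) * h3
  have e7 : δ (g * (P⁻¹ * (m * g⁻¹))) = δ (g * (P⁻¹ * (m * f⁻¹))) := by simp only [hδ, δinv hδ, δone hδ, D] <;> linear_combination (0) * h3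
  have e8 : δ (g * (P⁻¹ * (m * g⁻¹))) = δ (g * (P⁻¹ * (Q * g⁻¹))) := by simp only [hδ, δinv hδ, δone hδ, D] <;> linear_combination (0) * h3
  have e9 : δ (g * (P⁻¹ * (Q * f⁻¹))) = δ (g * (P⁻¹ * (m * f⁻¹))) := by simp only [hδ, δinv hδ, δone hδ, D] <;> linear_combination (0) * h3
  have e10 : δ (g * (P⁻¹ * (Q * g⁻¹))) = δ (g * (P⁻¹ * (m * g⁻¹))) := by simp only [hδ, δinv hδ, δone hδ, D] <;> linear_combination (0) * h3
  have e11 : δ (g * (P⁻¹ * (Q * g⁻¹))) = δ (g * (P⁻¹ * (Q * f⁻¹))) := by simp only [hδ, δinv hδ, δone hδ, D] <;> linear_combination (0) * h3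
  have e12 : δ (P * f⁻¹) = δ (P * g⁻¹) := by simp only [hδ, δinv hδ, δone hδ, D] <;> linear_combination (0) * h3
  have e13 : δ (P * g⁻¹) = δ (m * g⁻¹) := by simp only [hδ, δinv hδ, δone hδ, D] <;> linear_combination (0) * h3
  have e14 : δ (P * g⁻¹) = δ (Q * f⁻¹) := by simp only [hδ, δinv hδ, δone hδ, D] <;> linear_combination (0) * h3
  have e15 : δ (g * (P⁻¹ * (g * m⁻¹))) = δ (g * (P⁻¹ * (f * m⁻¹))) := by simp only [hδ, δinv hδ, δone hδ, D] <;> linear_combination (0) * h3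
  have e16 : δ (P * g⁻¹) = δ (g * (P⁻¹ * (f * m⁻¹))) := by simp only [hδ, δinv hδ, δone hδ, D] <;> linear_combination (1) * h3
  have e17 : δ (P * (g⁻¹ * (Q * f⁻¹))) = δ (g * P⁻¹) := by simp only [hδ, δinv hδ, δone hδ, D] <;> linear_combination (1) * h3
  have e18 : δ (m * f⁻¹) = δ (P * f⁻¹) := by simp only [hδ, δinv hδ, δone hδ, D] <;> linear_combination (0) * h3
  have e19 : δ (m * f⁻¹) = δ (m * g⁻¹) := by simp only [hδ, δinv hδ, δone hδ, D] <;> linear_combination (0) * h3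
  have e20 : δ (m * f⁻¹) = δ (Q * f⁻¹) := by simp only [hδ, δinv hδ, δone hδ, D] <;> linear_combination (0) * h3
  have e21 : δ (m * g⁻¹) = δ (P * g⁻¹) := by simp only [hδ, δinv hδ, δone hδ, D] <;> linear_combination (0) * h3
  have e22 : δ (m * g⁻¹) = δ (m * f⁻¹) := by simp only [hδ, δinv hδ, δone hδ, D] <;> linear_combination (0) * h3
  have e23 : δ (m * g⁻¹) = δ (Q * f⁻¹) := by simp only [hδ, δinv hδ, δone hδ, D] <;> linear_combination (0) * h3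
  have e24 : δ (g * (P⁻¹ * (f * m⁻¹))) = δ (g * (P⁻¹ * (g * m⁻¹))) := by simp only [hδ, δinv hδ, δone hδ, D] <;> linear_combination (0) * h3
  have e25 : δ (g * (P⁻¹ * (f * P⁻¹))) = δ (g * (P⁻¹ * (f * m⁻¹))) := by simp only [hδ, δinv hδ, δone hδ, D] <;> linear_combination (0) * h3
  have e26 : δ (g * (P⁻¹ * (f * m⁻¹))) = δ (g * (P⁻¹ * (f * Q⁻¹))) := by simp only [hδ, δinv hδ, δone hδ, D] <;> linear_combination (0) * h3
  have e27 : δ (g * (P⁻¹ * (f * Q⁻¹))) = δ (g * (P⁻¹ * (f * m⁻¹))) := by simp only [hδ, δinv hδ, δone hδ, D] <;> linear_combination (0) * h3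
  have e28 : δ (g * m⁻¹) = δ (g * Q⁻¹) := by simp only [hδ, δinv hδ, δone hδ, D] <;> linear_combination (0) * h3
  have e29 : δ (f * Q⁻¹) = δ (g * m⁻¹) := by simp only [hδ, δinv hδ, δone hδ, D] <;> linear_combination (0) * h3
  have e30 : δ (g * Q⁻¹) = δ (g * m⁻¹) := by simp only [hδ, δinv hδ, δone hδ, D] <;> linear_combination (0) * h3
  have k0 : o.lt (m * f⁻¹) (P * f⁻¹) ↔ o.lt (1 * (m * f⁻¹)) (1 * (P * f⁻¹)) := o.cv hδ (1) e18 (by simp only [mul_assoc, mul_inv_rev, inv_inv, mul_inv_cancel_left, inv_mul_cancel_left, mul_inv_cancel, inv_mul_cancel, mul_one, one_mul, inv_one, C]) (by simp only [mul_assoc, mul_inv_rev, inv_inv, mul_inv_cancel_left, inv_mul_cancel_left, mul_inv_cancel, inv_mul_cancel, mul_one, one_mul, inv_one, C])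
  have k1 : o.lt (m * f⁻¹) (m * g⁻¹) ↔ o.lt (1 * (m * f⁻¹)) (1 * (m * g⁻¹)) := o.cv hδ (1) e19 (by simp only [mul_assoc, mul_inv_rev, inv_inv, mul_inv_cancel_left, inv_mul_cancel_left, mul_inv_cancel, inv_mul_cancel, mul_one, one_mul, inv_one, C]) (by simp only [mul_assoc, mul_inv_rev, inv_inv, mul_inv_cancel_left, inv_mul_cancel_left, mul_inv_cancel, inv_mul_cancel, mul_one, one_mul, inv_one, C])
  have k2 : o.lt (g * P⁻¹) (f * P⁻¹) ↔ o.lt (1 * (P * g⁻¹)⁻¹) (1 * (P * f⁻¹)⁻¹) := o.cv hδ (1) e0 (by simp only [mul_assoc, mul_inv_rev, inv_inv, mul_inv_cancel_left, inv_mul_cancel_left, mul_inv_cancel, inv_mul_cancel, mul_one, one_mul, inv_one, C]) (by simp only [mul_assoc, mul_inv_rev, inv_inv, mul_inv_cancel_left, inv_mul_cancel_left, mul_inv_cancel, inv_mul_cancel, mul_one, one_mul, inv_one, C])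
  have k3 : o.lt (m * g⁻¹) (P * g⁻¹) ↔ o.lt (1 * (m * g⁻¹)) (1 * (P * g⁻¹)) := o.cv hδ (1) e21 (by simp only [mul_assoc, mul_inv_rev, inv_inv, mul_inv_cancel_left, inv_mul_cancel_left, mul_inv_cancel, inv_mul_cancel, mul_one, one_mul, inv_one, C]) (by simp only [mul_assoc, mul_inv_rev, inv_inv, mul_inv_cancel_left, inv_mul_cancel_left, mul_inv_cancel, inv_mul_cancel, mul_one, one_mul, inv_one, C])
  have k4 : o.lt (P * f⁻¹) (P * g⁻¹) ↔ o.lt (1 * (P * f⁻¹)) (1 * (P * g⁻¹)) := o.cv hδ (1) e12 (by simp only [mul_assoc, mul_inv_rev, inv_inv, mul_inv_cancel_left, inv_mul_cancel_left, mul_inv_cancel, inv_mul_cancel, mul_one, one_mul, inv_one, C]) (by simp only [mul_assoc, mul_inv_rev, inv_inv, mul_inv_cancel_left, inv_mul_cancel_left, mul_inv_cancel, inv_mul_cancel, mul_one, one_mul, inv_one, C])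
  have k5 : o.lt (g * m⁻¹) (g * P⁻¹) ↔ o.lt (1 * (m * g⁻¹)⁻¹) (1 * (P * g⁻¹)⁻¹) := o.cv hδ (1) e1 (by simp only [mul_assoc, mul_inv_rev, inv_inv, mul_inv_cancel_left, inv_mul_cancel_left, mul_inv_cancel, inv_mul_cancel, mul_one, one_mul, inv_one, C]) (by simp only [mul_assoc, mul_inv_rev, inv_inv, mul_inv_cancel_left, inv_mul_cancel_left, mul_inv_cancel, inv_mul_cancel, mul_one, one_mul, inv_one, C])
  have k6 : o.lt (f * P⁻¹) (g * P⁻¹) ↔ o.lt (1 * (P * f⁻¹)⁻¹) (1 * (P * g⁻¹)⁻¹) := o.cv hδ (1) e3 (by simp only [mul_assoc, mul_inv_rev, inv_inv, mul_inv_cancel_left, inv_mul_cancel_left, mul_inv_cancel, inv_mul_cancel, mul_one, one_mul, inv_one, C]) (by simp only [mul_assoc, mul_inv_rev, inv_inv, mul_inv_cancel_left, inv_mul_cancel_left, mul_inv_cancel, inv_mul_cancel, mul_one, one_mul, inv_one, C])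
  have k7 : o.lt (m * f⁻¹) (Q * f⁻¹) ↔ o.lt (1 * (m * f⁻¹)) (1 * (Q * f⁻¹)) := o.cv hδ (1) e20 (by simp only [mul_assoc, mul_inv_rev, inv_inv, mul_inv_cancel_left, inv_mul_cancel_left, mul_inv_cancel, inv_mul_cancel, mul_one, one_mul, inv_one, C]) (by simp only [mul_assoc, mul_inv_rev, inv_inv, mul_inv_cancel_left, inv_mul_cancel_left, mul_inv_cancel, inv_mul_cancel, mul_one, one_mul, inv_one, C])
  have k8 : o.lt (g * P⁻¹) (f * P⁻¹) ↔ o.lt (1 * (m * g⁻¹)⁻¹) (1 * (m * f⁻¹)⁻¹) := o.cv hδ (P * m⁻¹) e0 (by simp only [mul_assoc, mul_inv_rev, inv_inv, mul_inv_cancel_left, inv_mul_cancel_left, mul_inv_cancel, inv_mul_cancel, mul_one, one_mul, inv_one, C]) (by simp only [mul_assoc, mul_inv_rev, inv_inv, mul_inv_cancel_left, inv_mul_cancel_left, mul_inv_cancel, inv_mul_cancel, mul_one, one_mul, inv_one, C])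
  have k9 : o.lt (f * Q⁻¹) (g * m⁻¹) ↔ o.lt (1 * (Q * f⁻¹)⁻¹) (1 * (m * g⁻¹)⁻¹) := o.cv hδ (1) e29 (by simp only [mul_assoc, mul_inv_rev, inv_inv, mul_inv_cancel_left, inv_mul_cancel_left, mul_inv_cancel, inv_mul_cancel, mul_one, one_mul, inv_one, C]) (by simp only [mul_assoc, mul_inv_rev, inv_inv, mul_inv_cancel_left, inv_mul_cancel_left, mul_inv_cancel, inv_mul_cancel, mul_one, one_mul, inv_one, C])
  have k10 : o.lt (g * Q⁻¹) (g * m⁻¹) ↔ o.lt (1 * (Q * g⁻¹)⁻¹) (1 * (m * g⁻¹)⁻¹) := o.cv hδ (1) e30 (by simp only [mul_assoc, mul_inv_rev, inv_inv, mul_inv_cancel_left, inv_mul_cancel_left, mul_inv_cancel, inv_mul_cancel, mul_one, one_mul, inv_one, C]) (by simp only [mul_assoc, mul_inv_rev, inv_inv, mul_inv_cancel_left, inv_mul_cancel_left, mul_inv_cancel, inv_mul_cancel, mul_one, one_mul, inv_one, C])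
  have k11 : o.lt (f * P⁻¹) (g * P⁻¹) ↔ o.lt (1 * (m * f⁻¹)⁻¹) (1 * (m * g⁻¹)⁻¹) := o.cv hδ (P * m⁻¹) e3 (by simp only [mul_assoc, mul_inv_rev, inv_inv, mul_inv_cancel_left, inv_mul_cancel_left, mul_inv_cancel, inv_mul_cancel, mul_one, one_mul, inv_one, C]) (by simp only [mul_assoc, mul_inv_rev, inv_inv, mul_inv_cancel_left, inv_mul_cancel_left, mul_inv_cancel, inv_mul_cancel, mul_one, one_mul, inv_one, C])
  have k12 : o.lt (g * (P⁻¹ * (m * g⁻¹))) (g * (P⁻¹ * (m * f⁻¹))) ↔ o.lt ((g * P⁻¹) * (m * g⁻¹)) ((g * P⁻¹) * (m * f⁻¹)) := o.cv hδ (1) e7 (by simp only [mul_assoc, mul_inv_rev, inv_inv, mul_inv_cancel_left, inv_mul_cancel_left, mul_inv_cancel, inv_mul_cancel, mul_one, one_mul, inv_one, C]) (by simp only [mul_assoc, mul_inv_rev, inv_inv, mul_inv_cancel_left, inv_mul_cancel_left, mul_inv_cancel, inv_mul_cancel, mul_one, one_mul, inv_one, C])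
  have k13 : o.lt (g * (P⁻¹ * (f * P⁻¹))) (g * (P⁻¹ * (f * m⁻¹))) ↔ o.lt ((g * P⁻¹) * (P * f⁻¹)⁻¹) ((g * P⁻¹) * (m * f⁻¹)⁻¹) := o.cv hδ (1) e25 (by simp only [mul_assoc, mul_inv_rev, inv_inv, mul_inv_cancel_left, inv_mul_cancel_left, mul_inv_cancel, inv_mul_cancel, mul_one, one_mul, inv_one, C]) (by simp only [mul_assoc, mul_inv_rev, inv_inv, mul_inv_cancel_left, inv_mul_cancel_left, mul_inv_cancel, inv_mul_cancel, mul_one, one_mul, inv_one, C])
  have k14 : o.lt (g * (P⁻¹ * (g * m⁻¹))) (g * (P⁻¹ * (f * m⁻¹))) ↔ o.lt ((g * P⁻¹) * (m * g⁻¹)⁻¹) ((g * P⁻¹) * (m * f⁻¹)⁻¹) := o.cv hδ (1) e15 (by simp only [mul_assoc, mul_inv_rev, inv_inv, mul_inv_cancel_left, inv_mul_cancel_left, mul_inv_cancel, inv_mul_cancel, mul_one, one_mul, inv_one, C]) (by simp only [mul_assoc, mul_inv_rev, inv_inv, mul_inv_cancel_left, inv_mul_cancel_left, mul_inv_cancel, inv_mul_cancel, mul_one, one_mul, inv_one, C])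
  have k15 : o.lt (g * (P⁻¹ * (m * f⁻¹))) (g * (P⁻¹ * (Q * f⁻¹))) ↔ o.lt ((g * P⁻¹) * (m * f⁻¹)) ((g * P⁻¹) * (Q * f⁻¹)) := o.cv hδ (1) e6 (by simp only [mul_assoc, mul_inv_rev, inv_inv, mul_inv_cancel_left, inv_mul_cancel_left, mul_inv_cancel, inv_mul_cancel, mul_one, one_mul, inv_one, C]) (by simp only [mul_assoc, mul_inv_rev, inv_inv, mul_inv_cancel_left, inv_mul_cancel_left, mul_inv_cancel, inv_mul_cancel, mul_one, one_mul, inv_one, C])
  have k16 : o.lt (g * (P⁻¹ * (Q * g⁻¹))) (g * (P⁻¹ * (Q * f⁻¹))) ↔ o.lt ((g * P⁻¹) * (Q * g⁻¹)) ((g * P⁻¹) * (Q * f⁻¹)) := o.cv hδ (1) e11 (by simp only [mul_assoc, mul_inv_rev, inv_inv, mul_inv_cancel_left, inv_mul_cancel_left, mul_inv_cancel, inv_mul_cancel, mul_one, one_mul, inv_one, C]) (by simp only [mul_assoc, mul_inv_rev, inv_inv, mul_inv_cancel_left, inv_mul_cancel_left, mul_inv_cancel, inv_mul_cancel, mul_one, one_mul, inv_one, C])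
  have k17 : o.lt (g * (P⁻¹ * (f * m⁻¹))) (g * (P⁻¹ * (g * m⁻¹))) ↔ o.lt ((g * P⁻¹) * (m * f⁻¹)⁻¹) ((g * P⁻¹) * (m * g⁻¹)⁻¹) := o.cv hδ (1) e24 (by simp only [mul_assoc, mul_inv_rev, inv_inv, mul_inv_cancel_left, inv_mul_cancel_left, mul_inv_cancel, inv_mul_cancel, mul_one, one_mul, inv_one, C]) (by simp only [mul_assoc, mul_inv_rev, inv_inv, mul_inv_cancel_left, inv_mul_cancel_left, mul_inv_cancel, inv_mul_cancel, mul_one, one_mul, inv_one, C])
  have k18 : o.lt (g * (P⁻¹ * (m * g⁻¹))) (g * (P⁻¹ * (Q * g⁻¹))) ↔ o.lt ((g * P⁻¹) * (m * g⁻¹)) ((g * P⁻¹) * (Q * g⁻¹)) := o.cv hδ (1) e8 (by simp only [mul_assoc, mul_inv_rev, inv_inv, mul_inv_cancel_left, inv_mul_cancel_left, mul_inv_cancel, inv_mul_cancel, mul_one, one_mul, inv_one, C]) (by simp only [mul_assoc, mul_inv_rev, inv_inv, mul_inv_cancel_left, inv_mul_cancel_left, mul_inv_cancel, inv_mul_cancel, mul_one, one_mul, inv_one, C])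
  have k19 : o.lt (g * (P⁻¹ * (f * m⁻¹))) (g * (P⁻¹ * (g * m⁻¹))) ↔ o.lt ((g * P⁻¹) * (Q * f⁻¹)⁻¹) ((g * P⁻¹) * (Q * g⁻¹)⁻¹) := o.cv hδ (m * Q⁻¹) e24 (by simp only [mul_assoc, mul_inv_rev, inv_inv, mul_inv_cancel_left, inv_mul_cancel_left, mul_inv_cancel, inv_mul_cancel, mul_one, one_mul, inv_one, C]) (by simp only [mul_assoc, mul_inv_rev, inv_inv, mul_inv_cancel_left, inv_mul_cancel_left, mul_inv_cancel, inv_mul_cancel, mul_one, one_mul, inv_one, C])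
  have k20 : o.lt (g * (P⁻¹ * (f * m⁻¹))) (g * (P⁻¹ * (f * Q⁻¹))) ↔ o.lt ((g * P⁻¹) * (m * f⁻¹)⁻¹) ((g * P⁻¹) * (Q * f⁻¹)⁻¹) := o.cv hδ (1) e26 (by simp only [mul_assoc, mul_inv_rev, inv_inv, mul_inv_cancel_left, inv_mul_cancel_left, mul_inv_cancel, inv_mul_cancel, mul_one, one_mul, inv_one, C]) (by simp only [mul_assoc, mul_inv_rev, inv_inv, mul_inv_cancel_left, inv_mul_cancel_left, mul_inv_cancel, inv_mul_cancel, mul_one, one_mul, inv_one, C])
  have k21 : o.lt (g * (P⁻¹ * (g * m⁻¹))) (g * (P⁻¹ * (f * m⁻¹))) ↔ o.lt ((g * P⁻¹) * (Q * g⁻¹)⁻¹) ((g * P⁻¹) * (Q * f⁻¹)⁻¹) := o.cv hδ (m * Q⁻¹) e15 (by simp only [mul_assoc, mul_inv_rev, inv_inv, mul_inv_cancel_left, inv_mul_cancel_left, mul_inv_cancel, inv_mul_cancel, mul_one, one_mul, inv_one, C]) (by simp only [mul_assoc, mul_inv_rev, inv_inv, mul_inv_cancel_left, inv_mul_cancel_left, mul_inv_cancel, inv_mul_cancel, mul_one, one_mul, inv_one,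 C])
  have k22 : o.lt (P * g⁻¹) (m * g⁻¹) ↔ o.lt (P * g⁻¹) (m * g⁻¹) := o.cv hδ (1) e13 (by simp only [mul_assoc, mul_inv_rev, inv_inv, mul_inv_cancel_left, inv_mul_cancel_left, mul_inv_cancel, inv_mul_cancel, mul_one, one_mul, inv_one, C]) (by simp only [mul_assoc, mul_inv_rev, inv_inv, mul_inv_cancel_left, inv_mul_cancel_left, mul_inv_cancel, inv_mul_cancel, mul_one, one_mul, inv_one, C])
  have k23 : o.lt (m * g⁻¹) (P * g⁻¹) ↔ o.lt (m * g⁻¹) (P * g⁻¹) := o.cv hδ (1) e21 (by simp only [mul_assoc, mul_inv_rev, inv_inv, mul_inv_cancel_left, inv_mul_cancel_left, mul_inv_cancel, inv_mul_cancel, mul_one, one_mul, inv_one, C]) (by simp only [mul_assoc, mul_inv_rev, inv_inv, mul_inv_cancel_left, inv_mul_cancel_left, mul_inv_cancel, inv_mul_cancel, mul_one, one_mul, inv_one, C])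
  have k24 : o.lt (P * g⁻¹) (Q * f⁻¹) ↔ o.lt (P * g⁻¹) (Q * f⁻¹) := o.cv hδ (1) e14 (by simp only [mul_assoc, mul_inv_rev, inv_inv, mul_inv_cancel_left, inv_mul_cancel_left, mul_inv_cancel, inv_mul_cancel, mul_one, one_mul, inv_one, C]) (by simp only [mul_assoc, mul_inv_rev, inv_inv, mul_inv_cancel_left, inv_mul_cancel_left, mul_inv_cancel, inv_mul_cancel, mul_one, one_mul, inv_one, C])
  have k25 : o.lt (m * g⁻¹) (Q * f⁻¹) ↔ o.lt (m * g⁻¹) (Q * f⁻¹) := o.cv hδ (1) e23 (by simp only [mul_assoc, mul_inv_rev, inv_inv, mul_inv_cancel_left, inv_mul_cancel_left, mul_inv_cancel, inv_mul_cancel, mul_one, one_mul, inv_one, C]) (by simp only [mul_assoc, mul_inv_rev, inv_inv, mul_inv_cancel_left, inv_mul_cancel_left, mul_inv_cancel, inv_mul_cancel, mul_one, one_mul, inv_one, C])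
  have k26 : o.lt (m * f⁻¹) (m * g⁻¹) ↔ o.lt (m * f⁻¹) (m * g⁻¹) := o.cv hδ (1) e19 (by simp only [mul_assoc, mul_inv_rev, inv_inv, mul_inv_cancel_left, inv_mul_cancel_left, mul_inv_cancel, inv_mul_cancel, mul_one, one_mul, inv_one, C]) (by simp only [mul_assoc, mul_inv_rev, inv_inv, mul_inv_cancel_left, inv_mul_cancel_left, mul_inv_cancel, inv_mul_cancel, mul_one, one_mul, inv_one, C])
  have k27 : o.lt (m * g⁻¹) (m * f⁻¹) ↔ o.lt (m * g⁻¹) (m * f⁻¹) := o.cv hδ (1) e22 (by simp only [mul_assoc, mul_inv_rev, inv_inv, mul_inv_cancel_left, inv_mul_cancel_left, mul_inv_cancel, inv_mul_cancel, mul_one, one_mul, inv_one, C]) (by simp only [mul_assoc, mul_inv_rev, inv_inv, mul_inv_cancel_left, inv_mul_cancel_left, mul_inv_cancel, inv_mul_cancel, mul_one, one_mul, inv_one, C])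
  have k28 : o.lt (m * f⁻¹) (Q * f⁻¹) ↔ o.lt (m * f⁻¹) (Q * f⁻¹) := o.cv hδ (1) e20 (by simp only [mul_assoc, mul_inv_rev, inv_inv, mul_inv_cancel_left, inv_mul_cancel_left, mul_inv_cancel, inv_mul_cancel, mul_one, one_mul, inv_one, C]) (by simp only [mul_assoc, mul_inv_rev, inv_inv, mul_inv_cancel_left, inv_mul_cancel_left, mul_inv_cancel, inv_mul_cancel, mul_one, one_mul, inv_one, C])
  have k29 : o.lt (f * P⁻¹) (g * P⁻¹) ↔ o.lt (f * P⁻¹) (g * P⁻¹) := o.cv hδ (1) e3 (by simp only [mul_assoc, mul_inv_rev, inv_inv, mul_inv_cancel_left, inv_mul_cancel_left, mul_inv_cancel, inv_mul_cancel, mul_one, one_mul, inv_one, C]) (by simp only [mul_assoc, mul_inv_rev, inv_inv, mul_inv_cancel_left, inv_mul_cancel_left, mul_inv_cancel, inv_mul_cancel, mul_one, one_mul, inv_one, C])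
  have k30 : o.lt (g * P⁻¹) (f * P⁻¹) ↔ o.lt (g * P⁻¹) (f * P⁻¹) := o.cv hδ (1) e0 (by simp only [mul_assoc, mul_inv_rev, inv_inv, mul_inv_cancel_left, inv_mul_cancel_left, mul_inv_cancel, inv_mul_cancel, mul_one, one_mul, inv_one, C]) (by simp only [mul_assoc, mul_inv_rev, inv_inv, mul_inv_cancel_left, inv_mul_cancel_left, mul_inv_cancel, inv_mul_cancel, mul_one, one_mul, inv_one, C])
  have k31 : o.lt (g * P⁻¹) (g * m⁻¹) ↔ o.lt (g * P⁻¹) (g * m⁻¹) := o.cv hδ (1) e5 (by simp only [mul_assoc, mul_inv_rev, inv_inv, mul_inv_cancel_left, inv_mul_cancel_left, mul_inv_cancel, inv_mul_cancel, mul_one, one_mul, inv_one, C]) (by simp only [mul_assoc, mul_inv_rev, inv_inv, mul_inv_cancel_left, inv_mul_cancel_left, mul_inv_cancel, inv_mul_cancel, mul_one, one_mul, inv_one, C])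
  have k32 : o.lt (g * m⁻¹) (g * P⁻¹) ↔ o.lt (g * m⁻¹) (g * P⁻¹) := o.cv hδ (1) e1 (by simp only [mul_assoc, mul_inv_rev, inv_inv, mul_inv_cancel_left, inv_mul_cancel_left, mul_inv_cancel, inv_mul_cancel, mul_one, one_mul, inv_one, C]) (by simp only [mul_assoc, mul_inv_rev, inv_inv, mul_inv_cancel_left, inv_mul_cancel_left, mul_inv_cancel, inv_mul_cancel, mul_one, one_mul, inv_one, C])
  have k33 : o.lt (g * m⁻¹) (g * Q⁻¹) ↔ o.lt (g * m⁻¹) (g * Q⁻¹) := o.cv hδ (1) e28 (by simp only [mul_assoc, mul_inv_rev, inv_inv, mul_inv_cancel_left, inv_mul_cancel_left, mul_inv_cancel, inv_mul_cancel, mul_one, one_mul, inv_one, C]) (by simp only [mul_assoc, mul_inv_rev, inv_inv, mul_inv_cancel_left, inv_mul_cancel_left, mul_inv_cancel, inv_mul_cancel, mul_one, one_mul, inv_one, C])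
  have k34 : o.lt (g * Q⁻¹) (g * P⁻¹) ↔ o.lt (g * Q⁻¹) (g * P⁻¹) := o.cv hδ (1) e2 (by simp only [mul_assoc, mul_inv_rev, inv_inv, mul_inv_cancel_left, inv_mul_cancel_left, mul_inv_cancel, inv_mul_cancel, mul_one, one_mul, inv_one, C]) (by simp only [mul_assoc, mul_inv_rev, inv_inv, mul_inv_cancel_left, inv_mul_cancel_left, mul_inv_cancel, inv_mul_cancel, mul_one, one_mul, inv_one, C])
  have k35 : o.lt (g * Q⁻¹) (g * m⁻¹) ↔ o.lt (g * Q⁻¹) (g * m⁻¹) := o.cv hδ (1) e30 (by simp only [mul_assoc, mul_inv_rev, inv_inv, mul_inv_cancel_left, inv_mul_cancel_left, mul_inv_cancel, inv_mul_cancel, mul_one, one_mul, inv_one, C]) (by simp only [mul_assoc, mul_inv_rev, inv_inv, mul_inv_cancel_left, inv_mul_cancel_left, mul_inv_cancel, inv_mul_cancel, mul_one, one_mul, inv_one, C])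
  have k36 : o.lt (f * Q⁻¹) (g * m⁻¹) ↔ o.lt (f * Q⁻¹) (g * m⁻¹) := o.cv hδ (1) e29 (by simp only [mul_assoc, mul_inv_rev, inv_inv, mul_inv_cancel_left, inv_mul_cancel_left, mul_inv_cancel, inv_mul_cancel, mul_one, one_mul, inv_one, C]) (by simp only [mul_assoc, mul_inv_rev, inv_inv, mul_inv_cancel_left, inv_mul_cancel_left, mul_inv_cancel, inv_mul_cancel, mul_one, one_mul, inv_one, C])
  have k37 : o.lt (f * Q⁻¹) (g * P⁻¹) ↔ o.lt (f * Q⁻¹) (g * P⁻¹) := o.cv hδ (1) e4 (by simp only [mul_assoc, mul_inv_rev, inv_inv, mul_inv_cancel_left, inv_mul_cancel_left, mul_inv_cancel, inv_mul_cancel, mul_one, one_mul, inv_one, C]) (by simp only [mul_assoc, mul_inv_rev, inv_inv, mul_inv_cancel_left, inv_mul_cancel_left, mul_inv_cancel, inv_mul_cancel, mul_one, one_mul, inv_one, C])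
  have k38 : o.lt (P * f⁻¹) (P * g⁻¹) ↔ o.lt (f * P⁻¹) (P * (g⁻¹ * (P * f⁻¹))) := o.cv hδ (f * (P⁻¹ * (f * P⁻¹))) e12 (by simp only [mul_assoc, mul_inv_rev, inv_inv, mul_inv_cancel_left, inv_mul_cancel_left, mul_inv_cancel, inv_mul_cancel, mul_one, one_mul, inv_one, C]) (by simp only [mul_assoc, mul_inv_rev, inv_inv, mul_inv_cancel_left, inv_mul_cancel_left, mul_inv_cancel, inv_mul_cancel, mul_one, one_mul, inv_one, C])
  have k39 : o.lt (g * (P⁻¹ * (g * m⁻¹))) (g * (P⁻¹ * (f * m⁻¹))) ↔ o.lt (P * (g⁻¹ * (P * f⁻¹))) (g * P⁻¹) := o.cv hδ (m * (g⁻¹ * (P * (g⁻¹ * (P * (g⁻¹ * (P * f⁻¹))))))) e15 (by simp only [mul_assoc, mul_inv_rev, inv_inv, mul_inv_cancel_left, inv_mul_cancel_left, mul_inv_cancel, inv_mul_cancel, mul_one, one_mul, inv_one, C]) (by simp only [mul_assoc, mul_inv_rev, inv_inv, mul_inv_cancel_left, inv_mul_cancel_left, mul_inv_cancel, inv_mul_cancel, mul_one, one_mul, inv_one, C])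
  have k40 : o.lt (g * (P⁻¹ * (f * m⁻¹))) (g * (P⁻¹ * (g * m⁻¹))) ↔ o.lt (g * P⁻¹) (P * (g⁻¹ * (P * f⁻¹))) := o.cv hδ (m * f⁻¹) e24 (by simp only [mul_assoc, mul_inv_rev, inv_inv, mul_inv_cancel_left, inv_mul_cancel_left, mul_inv_cancel, inv_mul_cancel, mul_one, one_mul, inv_one, C]) (by simp only [mul_assoc, mul_inv_rev, inv_inv, mul_inv_cancel_left, inv_mul_cancel_left, mul_inv_cancel, inv_mul_cancel, mul_one, one_mul, inv_one, C])
  have k41 : o.lt (P * (g⁻¹ * (Q * f⁻¹))) (g * P⁻¹) ↔ o.lt (P * (g⁻¹ * (Q * f⁻¹))) (g * P⁻¹) := o.cv hδ (1) e17 (by simp only [mul_assoc, mul_inv_rev, inv_inv, mul_inv_cancel_left, inv_mul_cancel_left, mul_inv_cancel, inv_mul_cancel, mul_one, one_mul, inv_one, C]) (by simp only [mul_assoc, mul_inv_rev, inv_inv, mul_inv_cancel_left, inv_mul_cancel_left, mul_inv_cancel, inv_mul_cancel, mul_one, one_mul, inv_one, C])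
  have k42 : o.lt (P * g⁻¹) (Q * f⁻¹) ↔ o.lt (P * (g⁻¹ * (Q * f⁻¹))) (f * Q⁻¹) := o.cv hδ (Q * f⁻¹) e14 (by simp only [mul_assoc, mul_inv_rev, inv_inv, mul_inv_cancel_left, inv_mul_cancel_left, mul_inv_cancel, inv_mul_cancel, mul_one, one_mul, inv_one, C]) (by simp only [mul_assoc, mul_inv_rev, inv_inv, mul_inv_cancel_left, inv_mul_cancel_left, mul_inv_cancel, inv_mul_cancel, mul_one, one_mul, inv_one, C])
  have k43 : o.lt (g * m⁻¹) (g * P⁻¹) ↔ o.lt (g * f⁻¹) (g * (P⁻¹ * (m * f⁻¹))) := o.cv hδ (m * f⁻¹) e1 (by simp only [mul_assoc, mul_inv_rev, inv_inv, mul_inv_cancel_left, inv_mul_cancel_left, mul_inv_cancel, inv_mul_cancel, mul_one, one_mul, inv_one, C]) (by simp only [mul_assoc, mul_inv_rev, inv_inv, mul_inv_cancel_left, inv_mul_cancel_left, mul_inv_cancel, inv_mul_cancel, mul_one, one_mul, inv_one, C])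
  have k44 : o.lt (g * Q⁻¹) (g * P⁻¹) ↔ o.lt (g * f⁻¹) (g * (P⁻¹ * (Q * f⁻¹))) := o.cv hδ (Q * f⁻¹) e2 (by simp only [mul_assoc, mul_inv_rev, inv_inv, mul_inv_cancel_left, inv_mul_cancel_left, mul_inv_cancel, inv_mul_cancel, mul_one, one_mul, inv_one, C]) (by simp only [mul_assoc, mul_inv_rev, inv_inv, mul_inv_cancel_left, inv_mul_cancel_left, mul_inv_cancel, inv_mul_cancel, mul_one, one_mul, inv_one, C])
  have k45 : o.lt (g * (P⁻¹ * (Q * f⁻¹))) (g * (P⁻¹ * (m * f⁻¹))) ↔ o.lt (g * (P⁻¹ * (Q * f⁻¹))) (g * (P⁻¹ * (m * f⁻¹))) := o.cv hδ (1) e9 (by simp only [mul_assoc, mul_inv_rev, inv_inv, mul_inv_cancel_left, inv_mul_cancel_left, mul_inv_cancel, inv_mul_cancel, mul_one, one_mul, inv_one, C]) (by simp only [mul_assoc, mul_inv_rev, inv_inv, mul_inv_cancel_left, inv_mul_cancel_left, mul_inv_cancel, inv_mul_cancel, mul_one, one_mul, inv_one, C])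
  have k46 : o.lt (g * m⁻¹) (g * P⁻¹) ↔ o.lt (1) (g * (P⁻¹ * (m * g⁻¹))) := o.cv hδ (m * g⁻¹) e1 (by simp only [mul_assoc, mul_inv_rev, inv_inv, mul_inv_cancel_left, inv_mul_cancel_left, mul_inv_cancel, inv_mul_cancel, mul_one, one_mul, inv_one, C]) (by simp only [mul_assoc, mul_inv_rev, inv_inv, mul_inv_cancel_left, inv_mul_cancel_left, mul_inv_cancel, inv_mul_cancel, mul_one, one_mul, inv_one, C])
  have k47 : o.lt (g * Q⁻¹) (g * P⁻¹) ↔ o.lt (1) (g * (P⁻¹ * (Q * g⁻¹))) := o.cv hδ (Q * g⁻¹) e2 (by simp only [mul_assoc, mul_inv_rev, inv_inv, mul_inv_cancel_left, inv_mul_cancel_left, mul_inv_cancel, inv_mul_cancel, mul_one, one_mul, inv_one, C]) (by simp only [mul_assoc, mul_inv_rev, inv_inv, mul_inv_cancel_left, inv_mul_cancel_left, mul_inv_cancel, inv_mul_cancel, mul_one, one_mul, inv_one, C])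
  have k48 : o.lt (g * (P⁻¹ * (Q * g⁻¹))) (g * (P⁻¹ * (m * g⁻¹))) ↔ o.lt (g * (P⁻¹ * (Q * g⁻¹))) (g * (P⁻¹ * (m * g⁻¹))) := o.cv hδ (1) e10 (by simp only [mul_assoc, mul_inv_rev, inv_inv, mul_inv_cancel_left, inv_mul_cancel_left, mul_inv_cancel, inv_mul_cancel, mul_one, one_mul, inv_one, C]) (by simp only [mul_assoc, mul_inv_rev, inv_inv, mul_inv_cancel_left, inv_mul_cancel_left, mul_inv_cancel, inv_mul_cancel, mul_one, one_mul, inv_one, C])
  have k49 : o.lt (f * Q⁻¹) (g * P⁻¹) ↔ o.lt (1) (g * (P⁻¹ * (Q * f⁻¹))) := o.cv hδ (Q * f⁻¹) e4 (by simp only [mul_assoc, mul_inv_rev, inv_inv, mul_inv_cancel_left, inv_mul_cancel_left, mul_inv_cancel, inv_mul_cancel, mul_one, one_mul, inv_one, C]) (by simp only [mul_assoc, mul_inv_rev, inv_inv, mul_inv_cancel_left, inv_mul_cancel_left, mul_inv_cancel, inv_mul_cancel, mul_one, one_mul, inv_one, C])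
  have k50 : o.lt (g * (P⁻¹ * (Q * g⁻¹))) (g * (P⁻¹ * (Q * f⁻¹))) ↔ o.lt (g * (P⁻¹ * (Q * g⁻¹))) (g * (P⁻¹ * (Q * f⁻¹))) := o.cv hδ (1) e11 (by simp only [mul_assoc, mul_inv_rev, inv_inv, mul_inv_cancel_left, inv_mul_cancel_left, mul_inv_cancel, inv_mul_cancel, mul_one, one_mul, inv_one, C]) (by simp only [mul_assoc, mul_inv_rev, inv_inv, mul_inv_cancel_left, inv_mul_cancel_left, mul_inv_cancel, inv_mul_cancel, mul_one, one_mul, inv_one, C])
  have k51 : o.lt (g * (P⁻¹ * (m * f⁻¹))) (g * (P⁻¹ * (Q * f⁻¹))) ↔ o.lt (g * (P⁻¹ * (m * f⁻¹))) (g * (P⁻¹ * (Q * f⁻¹))) := o.cv hδ (1) e6 (by simp only [mul_assoc, mul_inv_rev, inv_inv, mul_inv_cancel_left, inv_mul_cancel_left, mul_inv_cancel, inv_mul_cancel, mul_one, one_mul, inv_one, C]) (by simp only [mul_assoc, mul_inv_rev, inv_inv, mul_inv_cancel_left, inv_mul_cancel_left, mul_inv_cancel, inv_mul_cancel, mul_one, one_mul, inv_one, C])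
  have k52 : o.lt (g * (P⁻¹ * (m * g⁻¹))) (g * (P⁻¹ * (Q * g⁻¹))) ↔ o.lt (g * (P⁻¹ * (m * g⁻¹))) (g * (P⁻¹ * (Q * g⁻¹))) := o.cv hδ (1) e8 (by simp only [mul_assoc, mul_inv_rev, inv_inv, mul_inv_cancel_left, inv_mul_cancel_left, mul_inv_cancel, inv_mul_cancel, mul_one, one_mul, inv_one, C]) (by simp only [mul_assoc, mul_inv_rev, inv_inv, mul_inv_cancel_left, inv_mul_cancel_left, mul_inv_cancel, inv_mul_cancel, mul_one, one_mul, inv_one, C])
  have k53 : o.lt (g * (P⁻¹ * (f * P⁻¹))) (g * (P⁻¹ * (f * m⁻¹))) ↔ o.lt (g * (P⁻¹ * (f * P⁻¹))) (g * (P⁻¹ * (f * m⁻¹))) := o.cv hδ (1) e25 (by simp only [mul_assoc, mul_inv_rev, inv_inv, mul_inv_cancel_left, inv_mul_cancel_left, mul_inv_cancel, inv_mul_cancel, mul_one, one_mul, inv_one, C]) (by simp only [mul_assoc, mul_inv_rev, inv_inv, mul_inv_cancel_left, inv_mul_cancel_left, mul_inv_cancel, inv_mul_cancel, mul_one, one_mul, inv_one, C])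
  have k54 : o.lt (g * (P⁻¹ * (f * m⁻¹))) (g * (P⁻¹ * (g * m⁻¹))) ↔ o.lt (g * (P⁻¹ * (f * P⁻¹))) (P * g⁻¹) := o.cv hδ (m * P⁻¹) e24 (by simp only [mul_assoc, mul_inv_rev, inv_inv, mul_inv_cancel_left, inv_mul_cancel_left, mul_inv_cancel, inv_mul_cancel, mul_one, one_mul, inv_one, C]) (by simp only [mul_assoc, mul_inv_rev, inv_inv, mul_inv_cancel_left, inv_mul_cancel_left, mul_inv_cancel, inv_mul_cancel, mul_one, one_mul, inv_one, C])
  have k55 : o.lt (P * g⁻¹) (g * (P⁻¹ * (f * m⁻¹))) ↔ o.lt (P * g⁻¹) (g * (P⁻¹ * (f * m⁻¹))) := o.cv hδ (1) e16 (by simp only [mul_assoc, mul_inv_rev, inv_inv, mul_inv_cancel_left, inv_mul_cancel_left, mul_inv_cancel, inv_mul_cancel, mul_one, one_mul, inv_one, C]) (by simp only [mul_assoc, mul_inv_rev, inv_inv, mul_inv_cancel_left, inv_mul_cancel_left, mul_inv_cancel, inv_mul_cancel, mul_one, one_mul, inv_one, C])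
  have k56 : o.lt (P * (g⁻¹ * (Q * f⁻¹))) (g * P⁻¹) ↔ o.lt (P * g⁻¹) (g * (P⁻¹ * (f * Q⁻¹))) := o.cv hδ (f * Q⁻¹) e17 (by simp only [mul_assoc, mul_inv_rev, inv_inv, mul_inv_cancel_left, inv_mul_cancel_left, mul_inv_cancel, inv_mul_cancel, mul_one, one_mul, inv_one, C]) (by simp only [mul_assoc, mul_inv_rev, inv_inv, mul_inv_cancel_left, inv_mul_cancel_left, mul_inv_cancel, inv_mul_cancel, mul_one, one_mul, inv_one, C])
  have k57 : o.lt (g * (P⁻¹ * (f * Q⁻¹))) (g * (P⁻¹ * (f * m⁻¹))) ↔ o.lt (g * (P⁻¹ * (f * Q⁻¹))) (g * (P⁻¹ * (f * m⁻¹))) := o.cv hδ (1) e27 (by simp only [mul_assoc, mul_inv_rev, inv_inv, mul_inv_cancel_left, inv_mul_cancel_left, mul_inv_cancel, inv_mul_cancel, mul_one, one_mul, inv_one, C]) (by simp only [mul_assoc, mul_inv_rev, inv_inv, mul_inv_cancel_left, inv_mul_cancel_left, mul_inv_cancel, inv_mul_cancel, mul_one, one_mul, inv_one, C])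
  have k58 : o.lt (g * (P⁻¹ * (f * m⁻¹))) (g * (P⁻¹ * (f * Q⁻¹))) ↔ o.lt (g * (P⁻¹ * (f * m⁻¹))) (g * (P⁻¹ * (f * Q⁻¹))) := o.cv hδ (1) e26 (by simp only [mul_assoc, mul_inv_rev, inv_inv, mul_inv_cancel_left, inv_mul_cancel_left, mul_inv_cancel, inv_mul_cancel, mul_one, one_mul, inv_one, C]) (by simp only [mul_assoc, mul_inv_rev, inv_inv, mul_inv_cancel_left, inv_mul_cancel_left, mul_inv_cancel, inv_mul_cancel, mul_one, one_mul, inv_one, C])
  have k59 : o.lt (P * f⁻¹) (P * g⁻¹) ↔ o.lt (P * f⁻¹) (P * g⁻¹) := o.cv hδ (1) e12 (by simp only [mul_assoc, mul_inv_rev, inv_inv, mul_inv_cancel_left, inv_mul_cancel_left, mul_inv_cancel, inv_mul_cancel, mul_one, one_mul, inv_one, C]) (by simp only [mul_assoc, mul_inv_rev, inv_inv, mul_inv_cancel_left, inv_mul_cancel_left, mul_inv_cancel, inv_mul_cancel, mul_one, one_mul, inv_one, C])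
  have k60 : o.lt (g * Q⁻¹) (g * P⁻¹) ↔ o.lt ((Q * g⁻¹)⁻¹) ((P * g⁻¹)⁻¹) := o.cv hδ (1) e2 (by simp only [mul_assoc, mul_inv_rev, inv_inv, mul_inv_cancel_left, inv_mul_cancel_left, mul_inv_cancel, inv_mul_cancel, mul_one, one_mul, inv_one, C]) (by simp only [mul_assoc, mul_inv_rev, inv_inv, mul_inv_cancel_left, inv_mul_cancel_left, mul_inv_cancel, inv_mul_cancel, mul_one, one_mul, inv_one, C])
  have k61 : o.lt (f * P⁻¹) (g * P⁻¹) ↔ o.lt ((P * f⁻¹)⁻¹) ((P * g⁻¹)⁻¹) := o.cv hδ (1) e3 (by simp only [mul_assoc, mul_inv_rev, inv_inv, mul_inv_cancel_left, inv_mul_cancel_left, mul_inv_cancel, inv_mul_cancel, mul_one, one_mul, inv_one, C]) (by simp only [mul_assoc, mul_inv_rev, inv_inv, mul_inv_cancel_left, inv_mul_cancel_left, mul_inv_cancel, inv_mul_cancel, mul_one, one_mul, inv_one, C])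
  exact ser_EEE_2_prop
    (fun b0 b1 b2 => N0.i.r1 1 (fun h => b0 (k0.2 h)) (k1.1 b1) (fun h => b2 (k2.2 h)))
    (fun b0 b1 => b1 (k3.2 ((o.cv hδ (f * g⁻¹) (by simp only [hδ, δinv hδ, δone hδ, D] <;> linear_combination (0) * h3) (by simp only [mul_assoc, mul_inv_rev, inv_inv, mul_inv_cancel_left, inv_mul_cancel_left, mul_inv_cancel, inv_mul_cancel, mul_one, one_mul, inv_one, C]) (by simp only [mul_assoc, mul_inv_rev, inv_inv, mul_inv_cancel_left, inv_mul_cancel_left, mul_inv_cancel, inv_mul_cancel, mul_one, one_mul, inv_one, C]) : o.lt (1 * (m * f⁻¹)) (1 * (P * f⁻¹)) ↔ o.lt (1 * (m * g⁻¹)) (1 * (P * g⁻¹))).1 (k0.1 b0))))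
    (fun b0 b1 b2 => N0.i.r2 1 (fun h => b0 (k4.2 h)) (fun h => b1 (k5.2 h)) (k6.1 b2))
    (fun b0 b1 b2 => N1.i.r0 1 (k7.1 b0) (fun h => b1 (k8.2 h)) (fun h => b2 (k9.2 h)))
    (fun b0 b1 b2 => N1.i.r2 1 (fun h => b0 (k1.2 h)) (fun h => b1 (k10.2 h)) (k11.1 b2))
    (fun b0 b1 b2 => N0.r.r2 (g * P⁻¹) (fun h => b0 (k12.2 h)) (fun h => b1 (k13.2 h)) (k14.1 b2))
    (fun b0 b1 b2 => N1.d.r1 (g * P⁻¹) (fun h => b0 (k15.2 h)) (k16.1 b1) (fun h => b2 (k17.2 h)))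
    (fun b0 b1 b2 => N1.r.r1 (g * P⁻¹) (fun h => b0 (k18.2 h)) (k12.1 b1) (fun h => b2 (k19.2 h)))
    (fun b0 b1 b2 => N1.r.r2 (g * P⁻¹) (fun h => b0 (k16.2 h)) (fun h => b1 (k20.2 h)) (k21.1 b2))
    (fun b0 b1 => o.asym (k22.1 b0) (k23.1 b1))
    (fun b0 b1 b2 => o.tri (k24.1 b0) (fun h => b1 (k22.2 h)) (fun h => b2 (k25.2 h)))
    (fun b0 b1 => o.asym (k26.1 b0) (k27.1 b1))
    (fun b0 b1 b2 => o.tri (k25.1 b0) (fun h => b1 (k27.2 h)) (fun h => b2 (k28.2 h)))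
    (fun b0 b1 => o.asym (k29.1 b0) (k30.1 b1))
    (fun b0 b1 => o.asym (k31.1 b0) (k32.1 b1))
    (fun b0 b1 b2 => o.tri (k32.1 b0) (fun h => b1 (k33.2 h)) (fun h => b2 (k34.2 h)))
    (fun b0 b1 => o.asym (k33.1 b0) (k35.1 b1))
    (fun b0 b1 b2 => o.tri (k36.1 b0) (fun h => b1 (k37.2 h)) (fun h => b2 (k31.2 h)))
    (fun b0 b1 b2 => o.tri (k29.1 b0) (fun h => b1 (k38.2 h)) (fun h => b2 (k39.2 h)))
    (fun b0 b1 b2 => o.tri (k40.1 b0) (fun h => b1 (k30.2 h)) (fun h => b2 (k38.2 h)))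
    (fun b0 b1 b2 => o.tri (k41.1 b0) (fun h => b1 (k42.2 h)) (fun h => b2 (k37.2 h)))
    (fun b0 b1 b2 => o.tri (k43.1 b0) (fun h => b1 (k44.2 h)) (fun h => b2 (k45.2 h)))
    (fun b0 b1 b2 => o.tri (k46.1 b0) (fun h => b1 (k47.2 h)) (fun h => b2 (k48.2 h)))
    (fun b0 b1 b2 => o.tri (k49.1 b0) (fun h => b1 (k47.2 h)) (fun h => b2 (k50.2 h)))
    (fun b0 b1 => o.asym (k51.1 b0) (k45.1 b1))
    (fun b0 b1 => o.asym (k52.1 b0) (k48.1 b1))
    (fun b0 b1 b2 => o.tri (k53.1 b0) (fun h => b1 (k54.2 h)) (fun h => b2 (k55.2 h)))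
    (fun b0 b1 b2 => o.tri (k55.1 b0) (fun h => b1 (k56.2 h)) (fun h => b2 (k57.2 h)))
    (fun b0 b1 => o.asym (k58.1 b0) (k57.1 b1))
    (fun h => g0 (k59.1 h))
    (fun h => g1 (k60.1 h))
    (k61.2 g2)

theorem ser_AAE_0_prop {A1 A2 A3 A4 A5 A6 A7 A8 A9 A10 A11 A12 A13 A14 A15 A16 A17 A18 A19 A20 A21 A22 A23 A24 A25 A26 A27 A28 A29 A30 A31 A32 : Prop}
    (c0 : ¬ A2 → ¬ A10 → A13 → False)
    (c1 : ¬ A7 → A10 → ¬ A17 → False)
    (c2 : ¬ A11 → A6 → ¬ A13 → False)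
    (c3 : ¬ A12 → A1 → ¬ A9 → False)
    (c4 : ¬ A2 → ¬ A1 → A3 → False)
    (c5 : ¬ A11 → A27 → ¬ A8 → False)
    (c6 : ¬ A2 → ¬ A30 → A8 → False)
    (c7 : ¬ A7 → A30 → ¬ A5 → False)
    (c8 : ¬ A23 → A20 → ¬ A24 → False)
    (c9 : ¬ A21 → A18 → ¬ A26 → False)
    (c10 : ¬ A2 → ¬ A20 → A26 → False)
    (c11 : A12 → A16 → False)
    (c12 : A13 → A17 → False)
    (c13 : A14 → ¬ A13 → ¬ A18 → False)
    (c14 : A15 → A19 → False)
    (c15 : A16 → ¬ A3 → ¬ A25 → False)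
    (c16 : A15 → ¬ A16 → ¬ A14 → False)
    (c17 : A18 → A20 → False)
    (c18 : A8 → A5 → False)
    (c19 : A21 → ¬ A4 → ¬ A26 → False)
    (c20 : A22 → ¬ A19 → ¬ A13 → False)
    (c21 : A23 → ¬ A22 → ¬ A18 → False)
    (c22 : A24 → A26 → False)
    (c23 : A9 → ¬ A25 → ¬ A12 → False)
    (c24 : A6 → A10 → False)
    (c25 : A25 → ¬ A26 → ¬ A31 → False)
    (c26 : A7 → A11 → False)
    (c27 : A7 → ¬ A27 → ¬ A4 → False)
    (c28 : A11 → ¬ A8 → ¬ A22 → False)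
    (c29 : A28 → ¬ A29 → ¬ A2 → False)
    (c30 : A29 → ¬ A2 → ¬ A32 → False)
    (c31 : A30 → ¬ A4 → ¬ A11 → False)
    (c32 : A4 → ¬ A28 → ¬ A6 → False)
    (c33 : A31 → ¬ A32 → ¬ A2 → False)
    (u0 : A15)
    (u1 : ¬ A2)
    (u2 : ¬ A32)
    : False := by
  have q1 : ¬ A19 := fun h => c14 u0 h
  have q2 : ¬ A29 := fun h => c30 h u1 u2
  have q3 : ¬ A28 := fun h => c29 h q2 u1
  have q4 : ¬ A31 := fun h => c33 h u2 u1
  rcases Classical.em A13 with q5 | q5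
  · have q6 : A10 := Classical.byContradiction fun h => c0 u1 h q5
    have q7 : ¬ A17 := fun h => c12 q5 h
    have q8 : A7 := Classical.byContradiction fun h => c1 h q6 q7
    have q9 : ¬ A6 := fun h => c24 h q6
    have q10 : ¬ A11 := fun h => c26 q8 h
    have q11 : ¬ A4 := fun h => c32 h q3 q9
    have q12 : A27 := Classical.byContradiction fun h => c27 q8 h q11
    have q13 : A8 := Classical.byContradiction fun h => c5 q10 q12 h
    have q14 : A30 := Classical.byContradiction fun h => c6 u1 h q13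
    exact c31 q14 q11 q10
  · have q15 : ¬ A22 := fun h => c20 h q1 q5
    rcases Classical.em A11 with q16 | q16
    · have q17 : ¬ A7 := fun h => c26 h q16
      have q18 : A8 := Classical.byContradiction fun h => c28 q16 h q15
      have q19 : A30 := Classical.byContradiction fun h => c6 u1 h q18
      have q20 : A5 := Classical.byContradiction fun h => c7 q17 q19 h
      exact c18 q18 q20
    · have q21 : ¬ A6 := fun h => c2 q16 h q5
      have q22 : ¬ A4 := fun h => c32 h q3 q21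
      have q23 : ¬ A30 := fun h => c31 h q22 q16
      have q24 : ¬ A8 := fun h => c6 u1 q23 h
      have q25 : ¬ A27 := fun h => c5 q16 h q24
      have q26 : ¬ A7 := fun h => c27 h q25 q22
      rcases Classical.em A26 with q27 | q27
      · have q28 : A20 := Classical.byContradiction fun h => c10 u1 h q27
        have q29 : ¬ A18 := fun h => c17 h q28
        have q30 : ¬ A14 := fun h => c13 h q5 q29
        have q31 : A16 := Classical.byContradiction fun h => c16 u0 h q30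
        have q32 : ¬ A12 := fun h => c11 h q31
        have q33 : ¬ A23 := fun h => c21 h q15 q29
        have q34 : A24 := Classical.byContradiction fun h => c8 q33 q28 h
        exact c22 q34 q27
      · have q35 : ¬ A21 := fun h => c19 h q22 q27
        have q36 : ¬ A18 := fun h => c9 q35 h q27
        have q37 : ¬ A14 := fun h => c13 h q5 q36
        have q38 : A16 := Classical.byContradiction fun h => c16 u0 h q37
        have q39 : ¬ A12 := fun h => c11 h q38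
        have q40 : ¬ A23 := fun h => c21 h q15 q36
        have q41 : ¬ A25 := fun h => c25 h q27 q4
        have q42 : A3 := Classical.byContradiction fun h => c15 q38 h q41
        have q43 : A1 := Classical.byContradiction fun h => c4 u1 h q42
        have q44 : A9 := Classical.byContradiction fun h => c3 q39 q43 h
        exact c23 q44 q41 q39

theorem ser_AAE_0 {G : Type*} [Group G] {δ : G → ZMod 3} (hδ : ∀ u v, δ (u * v) = δ u + δ v) (o : Pre δ)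
    {P m Q f g : G} {e : ZMod 3} (h3 : 3 * e = 0)
    (D : δ P = e ∧ δ m = -e ∧ δ Q = e ∧ δ f = 0 ∧ δ g = 0)
    (C : Cube P f ∧ Cube P g ∧ Cube m f ∧ Cube m g ∧ Cube Q f ∧ Cube Q g)
    (N0 : RA o P m f g)
    (N1 : RA o Q m g f)
    (g0 : o.lt (P * f⁻¹) (Q * f⁻¹)) (g1 : ¬ o.lt ((P * g⁻¹)⁻¹) ((P * f⁻¹)⁻¹)) (g2 : ¬ o.lt ((Q * f⁻¹)⁻¹) ((P * g⁻¹)⁻¹)) : False := by
  simp only [Cube] at C
  have e0 : δ (g * m⁻¹) = δ (P * f⁻¹) := by simp only [hδ, δinv hδ, δone hδ, D] <;> linear_combination (0) * h3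
  have e1 : δ (g * P⁻¹) = δ (f * P⁻¹) := by simp only [hδ, δinv hδ, δone hδ, D] <;> linear_combination (0) * h3
  have e2 : δ (g * P⁻¹) = δ (m * g⁻¹) := by simp only [hδ, δinv hδ, δone hδ, D] <;> linear_combination (0) * h3
  have e3 : δ (Q * g⁻¹) = δ (m * Q⁻¹) := by simp only [hδ, δinv hδ, δone hδ, D] <;> linear_combination (1) * h3
  have e4 : δ (Q * g⁻¹) = δ (g * m⁻¹) := by simp only [hδ, δinv hδ, δone hδ, D] <;> linear_combination (0) * h3
  have e5 : δ (f * P⁻¹) = δ (m * g⁻¹) := by simp only [hδ, δinv hδ, δone hδ, D] <;> linear_combination (0) * h3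
  have e6 : δ (m * f⁻¹) = δ (m * g⁻¹) := by simp only [hδ, δinv hδ, δone hδ, D] <;> linear_combination (0) * h3
  have e7 : δ (g * m⁻¹) = δ (Q * g⁻¹) := by simp only [hδ, δinv hδ, δone hδ, D] <;> linear_combination (0) * h3
  have e8 : δ (m * g⁻¹) = δ (g * P⁻¹) := by simp only [hδ, δinv hδ, δone hδ, D] <;> linear_combination (0) * h3
  have e9 : δ (m * g⁻¹) = δ (f * P⁻¹) := by simp only [hδ, δinv hδ, δone hδ, D] <;> linear_combination (0) * h3
  have e10 : δ (m * g⁻¹) = δ (m * f⁻¹) := by simp only [hδ, δinv hδ, δone hδ, D] <;> linear_combination (0) * h3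
  have e11 : δ (P * f⁻¹) = δ (P * g⁻¹) := by simp only [hδ, δinv hδ, δone hδ, D] <;> linear_combination (0) * h3
  have e12 : δ (P * f⁻¹) = δ (f * m⁻¹) := by simp only [hδ, δinv hδ, δone hδ, D] <;> linear_combination (0) * h3
  have e13 : δ (P * f⁻¹) = δ (Q * g⁻¹) := by simp only [hδ, δinv hδ, δone hδ, D] <;> linear_combination (0) * h3
  have e14 : δ (P * f⁻¹) = δ (Q * f⁻¹) := by simp only [hδ, δinv hδ, δone hδ, D] <;> linear_combination (0) * h3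
  have e15 : δ (P * g⁻¹) = δ (P * f⁻¹) := by simp only [hδ, δinv hδ, δone hδ, D] <;> linear_combination (0) * h3
  have e16 : δ (f * m⁻¹) = δ (P * f⁻¹) := by simp only [hδ, δinv hδ, δone hδ, D] <;> linear_combination (0) * h3
  have e17 : δ (f * m⁻¹) = δ (Q * g⁻¹) := by simp only [hδ, δinv hδ, δone hδ, D] <;> linear_combination (0) * h3
  have e18 : δ (Q * f⁻¹) = δ (P * f⁻¹) := by simp only [hδ, δinv hδ, δone hδ, D] <;> linear_combination (0) * h3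
  have e19 : δ (Q * g⁻¹) = δ (f * m⁻¹) := by simp only [hδ, δinv hδ, δone hδ, D] <;> linear_combination (0) * h3
  have e20 : δ (Q * g⁻¹) = δ (Q * f⁻¹) := by simp only [hδ, δinv hδ, δone hδ, D] <;> linear_combination (0) * h3
  have e21 : δ (Q * f⁻¹) = δ (f * m⁻¹) := by simp only [hδ, δinv hδ, δone hδ, D] <;> linear_combination (0) * h3
  have e22 : δ (Q * f⁻¹) = δ (Q * g⁻¹) := by simp only [hδ, δinv hδ, δone hδ, D] <;> linear_combination (0) * h3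
  have e23 : δ (f * Q⁻¹) = δ (m * f⁻¹) := by simp only [hδ, δinv hδ, δone hδ, D] <;> linear_combination (0) * h3
  have e24 : δ (m * P⁻¹) = δ (P * f⁻¹) := by simp only [hδ, δinv hδ, δone hδ, D] <;> linear_combination (-1) * h3
  have e25 : δ (m * f⁻¹) = δ (f * Q⁻¹) := by simp only [hδ, δinv hδ, δone hδ, D] <;> linear_combination (0) * h3
  have e26 : δ (m * f⁻¹) = δ (g * Q⁻¹) := by simp only [hδ, δinv hδ, δone hδ, D] <;> linear_combination (0) * h3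
  have e27 : δ (g * Q⁻¹) = δ (f * P⁻¹) := by simp only [hδ, δinv hδ, δone hδ, D] <;> linear_combination (0) * h3
  have e28 : δ (g * Q⁻¹) = δ (g * P⁻¹) := by simp only [hδ, δinv hδ, δone hδ, D] <;> linear_combination (0) * h3
  have e29 : δ (g * Q⁻¹) = δ (m * f⁻¹) := by simp only [hδ, δinv hδ, δone hδ, D] <;> linear_combination (0) * h3
  have e30 : δ (f * Q⁻¹) = δ (f * P⁻¹) := by simp only [hδ, δinv hδ, δone hδ, D] <;> linear_combination (0) * h3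
  have e31 : δ (f * Q⁻¹) = δ (g * P⁻¹) := by simp only [hδ, δinv hδ, δone hδ, D] <;> linear_combination (0) * h3
  have k0 : o.lt (g * P⁻¹) (f * P⁻¹) ↔ o.lt (1 * (g * P⁻¹)) (1 * (f * P⁻¹)) := o.cv hδ (1) e1 (by simp only [mul_assoc, mul_inv_rev, inv_inv, mul_inv_cancel_left, inv_mul_cancel_left, mul_inv_cancel, inv_mul_cancel, mul_one, one_mul, inv_one, C]) (by simp only [mul_assoc, mul_inv_rev, inv_inv, mul_inv_cancel_left, inv_mul_cancel_left, mul_inv_cancel, inv_mul_cancel, mul_one, one_mul, inv_one, C])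
  have k1 : o.lt (m * g⁻¹) (f * P⁻¹) ↔ o.lt (1 * (m * g⁻¹)) (1 * (f * P⁻¹)) := o.cv hδ (1) e9 (by simp only [mul_assoc, mul_inv_rev, inv_inv, mul_inv_cancel_left, inv_mul_cancel_left, mul_inv_cancel, inv_mul_cancel, mul_one, one_mul, inv_one, C]) (by simp only [mul_assoc, mul_inv_rev, inv_inv, mul_inv_cancel_left, inv_mul_cancel_left, mul_inv_cancel, inv_mul_cancel, mul_one, one_mul, inv_one, C])
  have k2 : o.lt (P * f⁻¹) (f * m⁻¹) ↔ o.lt (1 * (f * P⁻¹)⁻¹) (1 * (m * f⁻¹)⁻¹) := o.cv hδ (1) e12 (by simp only [mul_assoc, mul_inv_rev, inv_inv, mul_inv_cancel_left, inv_mul_cancel_left, mul_inv_cancel, inv_mul_cancel, mul_one, one_mul, inv_one, C]) (by simp only [mul_assoc, mul_inv_rev, inv_inv, mul_inv_cancel_left, inv_mul_cancel_left, mul_inv_cancel, inv_mul_cancel, mul_one, one_mul, inv_one, C])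
  have k3 : o.lt (m * f⁻¹) (m * g⁻¹) ↔ o.lt (1 * (m * f⁻¹)) (1 * (m * g⁻¹)) := o.cv hδ (1) e6 (by simp only [mul_assoc, mul_inv_rev, inv_inv, mul_inv_cancel_left, inv_mul_cancel_left, mul_inv_cancel, inv_mul_cancel, mul_one, one_mul, inv_one, C]) (by simp only [mul_assoc, mul_inv_rev, inv_inv, mul_inv_cancel_left, inv_mul_cancel_left, mul_inv_cancel, inv_mul_cancel, mul_one, one_mul, inv_one, C])
  have k4 : o.lt (f * m⁻¹) (P * f⁻¹) ↔ o.lt (1 * (m * f⁻¹)⁻¹) (1 * (f * P⁻¹)⁻¹) := o.cv hδ (1) e16 (by simp only [mul_assoc, mul_inv_rev, inv_inv, mul_inv_cancel_left, inv_mul_cancel_left, mul_inv_cancel, inv_mul_cancel, mul_one, one_mul, inv_one, C]) (by simp only [mul_assoc, mul_inv_rev, inv_inv, mul_inv_cancel_left, inv_mul_cancel_left, mul_inv_cancel, inv_mul_cancel, mul_one, one_mul, inv_one, C])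
  have k5 : o.lt (m * g⁻¹) (m * f⁻¹) ↔ o.lt (1 * (m * g⁻¹)) (1 * (m * f⁻¹)) := o.cv hδ (1) e10 (by simp only [mul_assoc, mul_inv_rev, inv_inv, mul_inv_cancel_left, inv_mul_cancel_left, mul_inv_cancel, inv_mul_cancel, mul_one, one_mul, inv_one, C]) (by simp only [mul_assoc, mul_inv_rev, inv_inv, mul_inv_cancel_left, inv_mul_cancel_left, mul_inv_cancel, inv_mul_cancel, mul_one, one_mul, inv_one, C])
  have k6 : o.lt (f * P⁻¹) (m * g⁻¹) ↔ o.lt (1 * (f * P⁻¹)) (1 * (m * g⁻¹)) := o.cv hδ (1) e5 (by simp only [mul_assoc, mul_inv_rev, inv_inv, mul_inv_cancel_left, inv_mul_cancel_left, mul_inv_cancel, inv_mul_cancel, mul_one, one_mul, inv_one, C]) (by simp only [mul_assoc, mul_inv_rev, inv_inv, mul_inv_cancel_left, inv_mul_cancel_left, mul_inv_cancel, inv_mul_cancel, mul_one, one_mul, inv_one, C])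
  have k7 : o.lt (P * f⁻¹) (P * g⁻¹) ↔ o.lt (1 * (P * f⁻¹)) (1 * (P * g⁻¹)) := o.cv hδ (1) e11 (by simp only [mul_assoc, mul_inv_rev, inv_inv, mul_inv_cancel_left, inv_mul_cancel_left, mul_inv_cancel, inv_mul_cancel, mul_one, one_mul, inv_one, C]) (by simp only [mul_assoc, mul_inv_rev, inv_inv, mul_inv_cancel_left, inv_mul_cancel_left, mul_inv_cancel, inv_mul_cancel, mul_one, one_mul, inv_one, C])
  have k8 : o.lt (g * m⁻¹) (P * f⁻¹) ↔ o.lt (1 * (g * m⁻¹)) (1 * (P * f⁻¹)) := o.cv hδ (1) e0 (by simp only [mul_assoc, mul_inv_rev, inv_inv, mul_inv_cancel_left, inv_mul_cancel_left, mul_inv_cancel, inv_mul_cancel, mul_one, one_mul, inv_one, C]) (by simp only [mul_assoc, mul_inv_rev, inv_inv, mul_inv_cancel_left, inv_mul_cancel_left, mul_inv_cancel, inv_mul_cancel, mul_one, one_mul, inv_one, C])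
  have k9 : o.lt (m * g⁻¹) (g * P⁻¹) ↔ o.lt (1 * (g * m⁻¹)⁻¹) (1 * (P * g⁻¹)⁻¹) := o.cv hδ (1) e8 (by simp only [mul_assoc, mul_inv_rev, inv_inv, mul_inv_cancel_left, inv_mul_cancel_left, mul_inv_cancel, inv_mul_cancel, mul_one, one_mul, inv_one, C]) (by simp only [mul_assoc, mul_inv_rev, inv_inv, mul_inv_cancel_left, inv_mul_cancel_left, mul_inv_cancel, inv_mul_cancel, mul_one, one_mul, inv_one, C])
  have k10 : o.lt (g * P⁻¹) (f * P⁻¹) ↔ o.lt (1 * (g * m⁻¹)) (1 * (f * m⁻¹)) := o.cv hδ (P * m⁻¹) e1 (by simp only [mul_assoc, mul_inv_rev, inv_inv, mul_inv_cancel_left, inv_mul_cancel_left, mul_inv_cancel, inv_mul_cancel, mul_one, one_mul, inv_one, C]) (by simp only [mul_assoc, mul_inv_rev, inv_inv, mul_inv_cancel_left, inv_mul_cancel_left, mul_inv_cancel, inv_mul_cancel, mul_one, one_mul, inv_one, C])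
  have k11 : o.lt (g * P⁻¹) (m * g⁻¹) ↔ o.lt (1 * (P * g⁻¹)⁻¹) (1 * (g * m⁻¹)⁻¹) := o.cv hδ (1) e2 (by simp only [mul_assoc, mul_inv_rev, inv_inv, mul_inv_cancel_left, inv_mul_cancel_left, mul_inv_cancel, inv_mul_cancel, mul_one, one_mul, inv_one, C]) (by simp only [mul_assoc, mul_inv_rev, inv_inv, mul_inv_cancel_left, inv_mul_cancel_left, mul_inv_cancel, inv_mul_cancel, mul_one, one_mul, inv_one, C])
  have k12 : o.lt (m * f⁻¹) (g * Q⁻¹) ↔ o.lt (1 * (m * f⁻¹)) (1 * (g * Q⁻¹)) := o.cv hδ (1) e26 (by simp only [mul_assoc, mul_inv_rev, inv_inv, mul_inv_cancel_left, inv_mul_cancel_left, mul_inv_cancel, inv_mul_cancel, mul_one, one_mul, inv_one, C]) (by simp only [mul_assoc, mul_inv_rev, inv_inv, mul_inv_cancel_left, inv_mul_cancel_left, mul_inv_cancel, inv_mul_cancel, mul_one, one_mul, inv_one, C])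
  have k13 : o.lt (g * m⁻¹) (Q * g⁻¹) ↔ o.lt (1 * (m * g⁻¹)⁻¹) (1 * (g * Q⁻¹)⁻¹) := o.cv hδ (1) e7 (by simp only [mul_assoc, mul_inv_rev, inv_inv, mul_inv_cancel_left, inv_mul_cancel_left, mul_inv_cancel, inv_mul_cancel, mul_one, one_mul, inv_one, C]) (by simp only [mul_assoc, mul_inv_rev, inv_inv, mul_inv_cancel_left, inv_mul_cancel_left, mul_inv_cancel, inv_mul_cancel, mul_one, one_mul, inv_one, C])
  have k14 : o.lt (g * P⁻¹) (f * P⁻¹) ↔ o.lt (1 * (g * Q⁻¹)) (1 * (f * Q⁻¹)) := o.cv hδ (P * Q⁻¹) e1 (by simp only [mul_assoc, mul_inv_rev, inv_inv, mul_inv_cancel_left, inv_mul_cancel_left, mul_inv_cancel, inv_mul_cancel, mul_one, one_mul, inv_one, C]) (by simp only [mul_assoc, mul_inv_rev, inv_inv, mul_inv_cancel_left, inv_mul_cancel_left, mul_inv_cancel, inv_mul_cancel, mul_one, one_mul, inv_one, C])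
  have k15 : o.lt (g * Q⁻¹) (m * f⁻¹) ↔ o.lt (1 * (g * Q⁻¹)) (1 * (m * f⁻¹)) := o.cv hδ (1) e29 (by simp only [mul_assoc, mul_inv_rev, inv_inv, mul_inv_cancel_left, inv_mul_cancel_left, mul_inv_cancel, inv_mul_cancel, mul_one, one_mul, inv_one, C]) (by simp only [mul_assoc, mul_inv_rev, inv_inv, mul_inv_cancel_left, inv_mul_cancel_left, mul_inv_cancel, inv_mul_cancel, mul_one, one_mul, inv_one, C])
  have k16 : o.lt (Q * g⁻¹) (g * m⁻¹) ↔ o.lt (1 * (g * Q⁻¹)⁻¹) (1 * (m * g⁻¹)⁻¹) := o.cv hδ (1) e4 (by simp only [mul_assoc, mul_inv_rev, inv_inv, mul_inv_cancel_left, inv_mul_cancel_left, mul_inv_cancel, inv_mul_cancel, mul_one, one_mul, inv_one, C]) (by simp only [mul_assoc, mul_inv_rev, inv_inv, mul_inv_cancel_left, inv_mul_cancel_left, mul_inv_cancel, inv_mul_cancel, mul_one, one_mul, inv_one, C])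
  have k17 : o.lt (Q * f⁻¹) (Q * g⁻¹) ↔ o.lt (1 * (Q * f⁻¹)) (1 * (Q * g⁻¹)) := o.cv hδ (1) e22 (by simp only [mul_assoc, mul_inv_rev, inv_inv, mul_inv_cancel_left, inv_mul_cancel_left, mul_inv_cancel, inv_mul_cancel, mul_one, one_mul, inv_one, C]) (by simp only [mul_assoc, mul_inv_rev, inv_inv, mul_inv_cancel_left, inv_mul_cancel_left, mul_inv_cancel, inv_mul_cancel, mul_one, one_mul, inv_one, C])
  have k18 : o.lt (Q * g⁻¹) (f * m⁻¹) ↔ o.lt (1 * (Q * g⁻¹)) (1 * (f * m⁻¹)) := o.cv hδ (1) e19 (by simp only [mul_assoc, mul_inv_rev, inv_inv, mul_inv_cancel_left, inv_mul_cancel_left, mul_inv_cancel, inv_mul_cancel, mul_one, one_mul, inv_one, C]) (by simp only [mul_assoc, mul_inv_rev, inv_inv, mul_inv_cancel_left, inv_mul_cancel_left, mul_inv_cancel, inv_mul_cancel, mul_one, one_mul, inv_one, C])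
  have k19 : o.lt (f * Q⁻¹) (m * f⁻¹) ↔ o.lt (1 * (Q * f⁻¹)⁻¹) (1 * (f * m⁻¹)⁻¹) := o.cv hδ (1) e23 (by simp only [mul_assoc, mul_inv_rev, inv_inv, mul_inv_cancel_left, inv_mul_cancel_left, mul_inv_cancel, inv_mul_cancel, mul_one, one_mul, inv_one, C]) (by simp only [mul_assoc, mul_inv_rev, inv_inv, mul_inv_cancel_left, inv_mul_cancel_left, mul_inv_cancel, inv_mul_cancel, mul_one, one_mul, inv_one, C])
  have k20 : o.lt (Q * g⁻¹) (Q * f⁻¹) ↔ o.lt (1 * (Q * g⁻¹)) (1 * (Q * f⁻¹)) := o.cv hδ (1) e20 (by simp only [mul_assoc, mul_inv_rev, inv_inv, mul_inv_cancel_left, inv_mul_cancel_left, mul_inv_cancel, inv_mul_cancel, mul_one, one_mul, inv_one, C]) (by simp only [mul_assoc, mul_inv_rev, inv_inv, mul_inv_cancel_left, inv_mul_cancel_left, mul_inv_cancel, inv_mul_cancel, mul_one, one_mul, inv_one, C])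
  have k21 : o.lt (f * m⁻¹) (Q * g⁻¹) ↔ o.lt (1 * (f * m⁻¹)) (1 * (Q * g⁻¹)) := o.cv hδ (1) e17 (by simp only [mul_assoc, mul_inv_rev, inv_inv, mul_inv_cancel_left, inv_mul_cancel_left, mul_inv_cancel, inv_mul_cancel, mul_one, one_mul, inv_one, C]) (by simp only [mul_assoc, mul_inv_rev, inv_inv, mul_inv_cancel_left, inv_mul_cancel_left, mul_inv_cancel, inv_mul_cancel, mul_one, one_mul, inv_one, C])
  have k22 : o.lt (m * f⁻¹) (f * Q⁻¹) ↔ o.lt (1 * (f * m⁻¹)⁻¹) (1 * (Q * f⁻¹)⁻¹) := o.cv hδ (1) e25 (by simp only [mul_assoc, mul_inv_rev, inv_inv, mul_inv_cancel_left, inv_mul_cancel_left, mul_inv_cancel, inv_mul_cancel, mul_one, one_mul, inv_one, C]) (by simp only [mul_assoc, mul_inv_rev, inv_inv, mul_inv_cancel_left, inv_mul_cancel_left, mul_inv_cancel, inv_mul_cancel, mul_one, one_mul, inv_one, C])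
  have k23 : o.lt (P * f⁻¹) (P * g⁻¹) ↔ o.lt (P * f⁻¹) (P * g⁻¹) := o.cv hδ (1) e11 (by simp only [mul_assoc, mul_inv_rev, inv_inv, mul_inv_cancel_left, inv_mul_cancel_left, mul_inv_cancel, inv_mul_cancel, mul_one, one_mul, inv_one, C]) (by simp only [mul_assoc, mul_inv_rev, inv_inv, mul_inv_cancel_left, inv_mul_cancel_left, mul_inv_cancel, inv_mul_cancel, mul_one, one_mul, inv_one, C])
  have k24 : o.lt (P * g⁻¹) (P * f⁻¹) ↔ o.lt (P * g⁻¹) (P * f⁻¹) := o.cv hδ (1) e15 (by simp only [mul_assoc, mul_inv_rev, inv_inv, mul_inv_cancel_left, inv_mul_cancel_left, mul_inv_cancel, inv_mul_cancel, mul_one, one_mul, inv_one, C]) (by simp only [mul_assoc, mul_inv_rev, inv_inv, mul_inv_cancel_left, inv_mul_cancel_left, mul_inv_cancel, inv_mul_cancel, mul_one, one_mul, inv_one, C])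
  have k25 : o.lt (P * f⁻¹) (f * m⁻¹) ↔ o.lt (P * f⁻¹) (f * m⁻¹) := o.cv hδ (1) e12 (by simp only [mul_assoc, mul_inv_rev, inv_inv, mul_inv_cancel_left, inv_mul_cancel_left, mul_inv_cancel, inv_mul_cancel, mul_one, one_mul, inv_one, C]) (by simp only [mul_assoc, mul_inv_rev, inv_inv, mul_inv_cancel_left, inv_mul_cancel_left, mul_inv_cancel, inv_mul_cancel, mul_one, one_mul, inv_one, C])
  have k26 : o.lt (f * m⁻¹) (P * f⁻¹) ↔ o.lt (f * m⁻¹) (P * f⁻¹) := o.cv hδ (1) e16 (by simp only [mul_assoc, mul_inv_rev, inv_inv, mul_inv_cancel_left, inv_mul_cancel_left, mul_inv_cancel, inv_mul_cancel, mul_one, one_mul, inv_one, C]) (by simp only [mul_assoc, mul_inv_rev, inv_inv, mul_inv_cancel_left, inv_mul_cancel_left, mul_inv_cancel, inv_mul_cancel, mul_one, one_mul, inv_one, C])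
  have k27 : o.lt (P * f⁻¹) (Q * g⁻¹) ↔ o.lt (P * f⁻¹) (Q * g⁻¹) := o.cv hδ (1) e13 (by simp only [mul_assoc, mul_inv_rev, inv_inv, mul_inv_cancel_left, inv_mul_cancel_left, mul_inv_cancel, inv_mul_cancel, mul_one, one_mul, inv_one, C]) (by simp only [mul_assoc, mul_inv_rev, inv_inv, mul_inv_cancel_left, inv_mul_cancel_left, mul_inv_cancel, inv_mul_cancel, mul_one, one_mul, inv_one, C])
  have k28 : o.lt (f * m⁻¹) (Q * g⁻¹) ↔ o.lt (f * m⁻¹) (Q * g⁻¹) := o.cv hδ (1) e17 (by simp only [mul_assoc, mul_inv_rev, inv_inv, mul_inv_cancel_left, inv_mul_cancel_left, mul_inv_cancel, inv_mul_cancel, mul_one, one_mul, inv_one, C]) (by simp only [mul_assoc, mul_inv_rev, inv_inv, mul_inv_cancel_left, inv_mul_cancel_left, mul_inv_cancel, inv_mul_cancel, mul_one, one_mul, inv_one, C])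
  have k29 : o.lt (P * f⁻¹) (Q * f⁻¹) ↔ o.lt (P * f⁻¹) (Q * f⁻¹) := o.cv hδ (1) e14 (by simp only [mul_assoc, mul_inv_rev, inv_inv, mul_inv_cancel_left, inv_mul_cancel_left, mul_inv_cancel, inv_mul_cancel, mul_one, one_mul, inv_one, C]) (by simp only [mul_assoc, mul_inv_rev, inv_inv, mul_inv_cancel_left, inv_mul_cancel_left, mul_inv_cancel, inv_mul_cancel, mul_one, one_mul, inv_one, C])
  have k30 : o.lt (Q * f⁻¹) (P * f⁻¹) ↔ o.lt (Q * f⁻¹) (P * f⁻¹) := o.cv hδ (1) e18 (by simp only [mul_assoc, mul_inv_rev, inv_inv, mul_inv_cancel_left, inv_mul_cancel_left, mul_inv_cancel, inv_mul_cancel, mul_one, one_mul, inv_one, C]) (by simp only [mul_assoc, mul_inv_rev, inv_inv, mul_inv_cancel_left, inv_mul_cancel_left, mul_inv_cancel, inv_mul_cancel, mul_one, one_mul, inv_one, C])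
  have k31 : o.lt (g * P⁻¹) (m * g⁻¹) ↔ o.lt (P * g⁻¹) (m * P⁻¹) := o.cv hδ (P * (g⁻¹ * (P * g⁻¹))) e2 (by simp only [mul_assoc, mul_inv_rev, inv_inv, mul_inv_cancel_left, inv_mul_cancel_left, mul_inv_cancel, inv_mul_cancel, mul_one, one_mul, inv_one, C]) (by simp only [mul_assoc, mul_inv_rev, inv_inv, mul_inv_cancel_left, inv_mul_cancel_left, mul_inv_cancel, inv_mul_cancel, mul_one, one_mul, inv_one, C])
  have k32 : o.lt (m * P⁻¹) (P * f⁻¹) ↔ o.lt (m * P⁻¹) (P * f⁻¹) := o.cv hδ (1) e24 (by simp only [mul_assoc, mul_inv_rev, inv_inv, mul_inv_cancel_left, inv_mul_cancel_left, mul_inv_cancel, inv_mul_cancel, mul_one, one_mul, inv_one, C]) (by simp only [mul_assoc, mul_inv_rev, inv_inv, mul_inv_cancel_left, inv_mul_cancel_left, mul_inv_cancel, inv_mul_cancel, mul_one, one_mul, inv_one, C])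
  have k33 : o.lt (P * f⁻¹) (Q * f⁻¹) ↔ o.lt (P * g⁻¹) (Q * g⁻¹) := o.cv hδ (f * g⁻¹) e14 (by simp only [mul_assoc, mul_inv_rev, inv_inv, mul_inv_cancel_left, inv_mul_cancel_left, mul_inv_cancel, inv_mul_cancel, mul_one, one_mul, inv_one, C]) (by simp only [mul_assoc, mul_inv_rev, inv_inv, mul_inv_cancel_left, inv_mul_cancel_left, mul_inv_cancel, inv_mul_cancel, mul_one, one_mul, inv_one, C])
  have k34 : o.lt (Q * g⁻¹) (f * m⁻¹) ↔ o.lt (Q * g⁻¹) (f * m⁻¹) := o.cv hδ (1) e19 (by simp only [mul_assoc, mul_inv_rev, inv_inv, mul_inv_cancel_left, inv_mul_cancel_left, mul_inv_cancel, inv_mul_cancel, mul_one, one_mul, inv_one, C]) (by simp only [mul_assoc, mul_inv_rev, inv_inv, mul_inv_cancel_left, inv_mul_cancel_left, mul_inv_cancel, inv_mul_cancel, mul_one, one_mul, inv_one, C])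
  have k35 : o.lt (g * m⁻¹) (Q * g⁻¹) ↔ o.lt (g * m⁻¹) (Q * g⁻¹) := o.cv hδ (1) e7 (by simp only [mul_assoc, mul_inv_rev, inv_inv, mul_inv_cancel_left, inv_mul_cancel_left, mul_inv_cancel, inv_mul_cancel, mul_one, one_mul, inv_one, C]) (by simp only [mul_assoc, mul_inv_rev, inv_inv, mul_inv_cancel_left, inv_mul_cancel_left, mul_inv_cancel, inv_mul_cancel, mul_one, one_mul, inv_one, C])
  have k36 : o.lt (Q * g⁻¹) (g * m⁻¹) ↔ o.lt (Q * g⁻¹) (g * m⁻¹) := o.cv hδ (1) e4 (by simp only [mul_assoc, mul_inv_rev, inv_inv, mul_inv_cancel_left, inv_mul_cancel_left, mul_inv_cancel, inv_mul_cancel, mul_one, one_mul, inv_one, C]) (by simp only [mul_assoc, mul_inv_rev, inv_inv, mul_inv_cancel_left, inv_mul_cancel_left, mul_inv_cancel, inv_mul_cancel, mul_one, one_mul, inv_one, C])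
  have k37 : o.lt (Q * g⁻¹) (Q * f⁻¹) ↔ o.lt (Q * g⁻¹) (Q * f⁻¹) := o.cv hδ (1) e20 (by simp only [mul_assoc, mul_inv_rev, inv_inv, mul_inv_cancel_left, inv_mul_cancel_left, mul_inv_cancel, inv_mul_cancel, mul_one, one_mul, inv_one, C]) (by simp only [mul_assoc, mul_inv_rev, inv_inv, mul_inv_cancel_left, inv_mul_cancel_left, mul_inv_cancel, inv_mul_cancel, mul_one, one_mul, inv_one, C])
  have k38 : o.lt (Q * g⁻¹) (m * Q⁻¹) ↔ o.lt (Q * g⁻¹) (m * Q⁻¹) := o.cv hδ (1) e3 (by simp only [mul_assoc, mul_inv_rev, inv_inv, mul_inv_cancel_left, inv_mul_cancel_left, mul_inv_cancel, inv_mul_cancel, mul_one, one_mul, inv_one, C]) (by simp only [mul_assoc, mul_inv_rev, inv_inv, mul_inv_cancel_left, inv_mul_cancel_left, mul_inv_cancel, inv_mul_cancel, mul_one, one_mul, inv_one, C])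
  have k39 : o.lt (m * f⁻¹) (f * Q⁻¹) ↔ o.lt (m * Q⁻¹) (Q * f⁻¹) := o.cv hδ (f * Q⁻¹) e25 (by simp only [mul_assoc, mul_inv_rev, inv_inv, mul_inv_cancel_left, inv_mul_cancel_left, mul_inv_cancel, inv_mul_cancel, mul_one, one_mul, inv_one, C]) (by simp only [mul_assoc, mul_inv_rev, inv_inv, mul_inv_cancel_left, inv_mul_cancel_left, mul_inv_cancel, inv_mul_cancel, mul_one, one_mul, inv_one, C])
  have k40 : o.lt (Q * f⁻¹) (f * m⁻¹) ↔ o.lt (Q * f⁻¹) (f * m⁻¹) := o.cv hδ (1) e21 (by simp only [mul_assoc, mul_inv_rev, inv_inv, mul_inv_cancel_left, inv_mul_cancel_left, mul_inv_cancel, inv_mul_cancel, mul_one, one_mul, inv_one, C]) (by simp only [mul_assoc, mul_inv_rev, inv_inv, mul_inv_cancel_left, inv_mul_cancel_left, mul_inv_cancel, inv_mul_cancel, mul_one, one_mul, inv_one, C])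
  have k41 : o.lt (Q * f⁻¹) (Q * g⁻¹) ↔ o.lt (Q * f⁻¹) (Q * g⁻¹) := o.cv hδ (1) e22 (by simp only [mul_assoc, mul_inv_rev, inv_inv, mul_inv_cancel_left, inv_mul_cancel_left, mul_inv_cancel, inv_mul_cancel, mul_one, one_mul, inv_one, C]) (by simp only [mul_assoc, mul_inv_rev, inv_inv, mul_inv_cancel_left, inv_mul_cancel_left, mul_inv_cancel, inv_mul_cancel, mul_one, one_mul, inv_one, C])
  have k42 : o.lt (f * Q⁻¹) (m * f⁻¹) ↔ o.lt (Q * f⁻¹) (m * Q⁻¹) := o.cv hδ (Q * (f⁻¹ * (Q * f⁻¹))) e23 (by simp only [mul_assoc, mul_inv_rev, inv_inv, mul_inv_cancel_left, inv_mul_cancel_left, mul_inv_cancel, inv_mul_cancel, mul_one, one_mul, inv_one, C]) (by simp only [mul_assoc, mul_inv_rev, inv_inv, mul_inv_cancel_left, inv_mul_cancel_left, mul_inv_cancel, inv_mul_cancel, mul_one, one_mul, inv_one, C])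
  have k43 : o.lt (m * g⁻¹) (g * P⁻¹) ↔ o.lt (m * P⁻¹) (P * g⁻¹) := o.cv hδ (g * P⁻¹) e8 (by simp only [mul_assoc, mul_inv_rev, inv_inv, mul_inv_cancel_left, inv_mul_cancel_left, mul_inv_cancel, inv_mul_cancel, mul_one, one_mul, inv_one, C]) (by simp only [mul_assoc, mul_inv_rev, inv_inv, mul_inv_cancel_left, inv_mul_cancel_left, mul_inv_cancel, inv_mul_cancel, mul_one, one_mul, inv_one, C])
  have k44 : o.lt (f * P⁻¹) (m * g⁻¹) ↔ o.lt (f * P⁻¹) (m * g⁻¹) := o.cv hδ (1) e5 (by simp only [mul_assoc, mul_inv_rev, inv_inv, mul_inv_cancel_left, inv_mul_cancel_left, mul_inv_cancel, inv_mul_cancel, mul_one, one_mul, inv_one, C]) (by simp only [mul_assoc, mul_inv_rev, inv_inv, mul_inv_cancel_left, inv_mul_cancel_left, mul_inv_cancel, inv_mul_cancel, mul_one, one_mul, inv_one, C])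
  have k45 : o.lt (m * g⁻¹) (f * P⁻¹) ↔ o.lt (m * g⁻¹) (f * P⁻¹) := o.cv hδ (1) e9 (by simp only [mul_assoc, mul_inv_rev, inv_inv, mul_inv_cancel_left, inv_mul_cancel_left, mul_inv_cancel, inv_mul_cancel, mul_one, one_mul, inv_one, C]) (by simp only [mul_assoc, mul_inv_rev, inv_inv, mul_inv_cancel_left, inv_mul_cancel_left, mul_inv_cancel, inv_mul_cancel, mul_one, one_mul, inv_one, C])
  have k46 : o.lt (m * P⁻¹) (P * f⁻¹) ↔ o.lt (m * f⁻¹) (f * P⁻¹) := o.cv hδ (P * f⁻¹) e24 (by simp only [mul_assoc, mul_inv_rev, inv_inv, mul_inv_cancel_left, inv_mul_cancel_left, mul_inv_cancel, inv_mul_cancel, mul_one, one_mul, inv_one, C]) (by simp only [mul_assoc, mul_inv_rev, inv_inv, mul_inv_cancel_left, inv_mul_cancel_left, mul_inv_cancel, inv_mul_cancel, mul_one, one_mul, inv_one, C])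
  have k47 : o.lt (m * f⁻¹) (f * Q⁻¹) ↔ o.lt (m * f⁻¹) (f * Q⁻¹) := o.cv hδ (1) e25 (by simp only [mul_assoc, mul_inv_rev, inv_inv, mul_inv_cancel_left, inv_mul_cancel_left, mul_inv_cancel, inv_mul_cancel, mul_one, one_mul, inv_one, C]) (by simp only [mul_assoc, mul_inv_rev, inv_inv, mul_inv_cancel_left, inv_mul_cancel_left, mul_inv_cancel, inv_mul_cancel, mul_one, one_mul, inv_one, C])
  have k48 : o.lt (f * Q⁻¹) (f * P⁻¹) ↔ o.lt (f * Q⁻¹) (f * P⁻¹) := o.cv hδ (1) e30 (by simp only [mul_assoc, mul_inv_rev, inv_inv, mul_inv_cancel_left, inv_mul_cancel_left, mul_inv_cancel, inv_mul_cancel, mul_one, one_mul, inv_one, C]) (by simp only [mul_assoc, mul_inv_rev, inv_inv, mul_inv_cancel_left, inv_mul_cancel_left, mul_inv_cancel, inv_mul_cancel, mul_one, one_mul, inv_one, C])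
  have k49 : o.lt (m * f⁻¹) (m * g⁻¹) ↔ o.lt (m * f⁻¹) (m * g⁻¹) := o.cv hδ (1) e6 (by simp only [mul_assoc, mul_inv_rev, inv_inv, mul_inv_cancel_left, inv_mul_cancel_left, mul_inv_cancel, inv_mul_cancel, mul_one, one_mul, inv_one, C]) (by simp only [mul_assoc, mul_inv_rev, inv_inv, mul_inv_cancel_left, inv_mul_cancel_left, mul_inv_cancel, inv_mul_cancel, mul_one, one_mul, inv_one, C])
  have k50 : o.lt (m * g⁻¹) (m * f⁻¹) ↔ o.lt (m * g⁻¹) (m * f⁻¹) := o.cv hδ (1) e10 (by simp only [mul_assoc, mul_inv_rev, inv_inv, mul_inv_cancel_left, inv_mul_cancel_left, mul_inv_cancel, inv_mul_cancel, mul_one, one_mul, inv_one, C]) (by simp only [mul_assoc, mul_inv_rev, inv_inv, mul_inv_cancel_left, inv_mul_cancel_left, mul_inv_cancel, inv_mul_cancel, mul_one, one_mul, inv_one, C])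
  have k51 : o.lt (m * f⁻¹) (g * Q⁻¹) ↔ o.lt (m * f⁻¹) (g * Q⁻¹) := o.cv hδ (1) e26 (by simp only [mul_assoc, mul_inv_rev, inv_inv, mul_inv_cancel_left, inv_mul_cancel_left, mul_inv_cancel, inv_mul_cancel, mul_one, one_mul, inv_one, C]) (by simp only [mul_assoc, mul_inv_rev, inv_inv, mul_inv_cancel_left, inv_mul_cancel_left, mul_inv_cancel, inv_mul_cancel, mul_one, one_mul, inv_one, C])
  have k52 : o.lt (Q * g⁻¹) (m * Q⁻¹) ↔ o.lt (g * Q⁻¹) (m * g⁻¹) := o.cv hδ (g * (Q⁻¹ * (g * Q⁻¹))) e3 (by simp only [mul_assoc, mul_inv_rev, inv_inv, mul_inv_cancel_left, inv_mul_cancel_left, mul_inv_cancel, inv_mul_cancel, mul_one, one_mul, inv_one, C]) (by simp only [mul_assoc, mul_inv_rev, inv_inv, mul_inv_cancel_left, inv_mul_cancel_left, mul_inv_cancel, inv_mul_cancel, mul_one, one_mul, inv_one, C])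
  have k53 : o.lt (g * m⁻¹) (Q * g⁻¹) ↔ o.lt (m * g⁻¹) (Q * m⁻¹) := o.cv hδ (m * (g⁻¹ * (m * g⁻¹))) e7 (by simp only [mul_assoc, mul_inv_rev, inv_inv, mul_inv_cancel_left, inv_mul_cancel_left, mul_inv_cancel, inv_mul_cancel, mul_one, one_mul, inv_one, C]) (by simp only [mul_assoc, mul_inv_rev, inv_inv, mul_inv_cancel_left, inv_mul_cancel_left, mul_inv_cancel, inv_mul_cancel, mul_one, one_mul, inv_one, C])
  have k54 : o.lt (Q * f⁻¹) (f * m⁻¹) ↔ o.lt (Q * m⁻¹) (m * f⁻¹) := o.cv hδ (f * m⁻¹) e21 (by simp only [mul_assoc, mul_inv_rev, inv_inv, mul_inv_cancel_left, inv_mul_cancel_left, mul_inv_cancel, inv_mul_cancel, mul_one, one_mul, inv_one, C]) (by simp only [mul_assoc, mul_inv_rev, inv_inv, mul_inv_cancel_left, inv_mul_cancel_left, mul_inv_cancel, inv_mul_cancel, mul_one, one_mul, inv_one, C])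
  have k55 : o.lt (g * Q⁻¹) (f * P⁻¹) ↔ o.lt (g * Q⁻¹) (f * P⁻¹) := o.cv hδ (1) e27 (by simp only [mul_assoc, mul_inv_rev, inv_inv, mul_inv_cancel_left, inv_mul_cancel_left, mul_inv_cancel, inv_mul_cancel, mul_one, one_mul, inv_one, C]) (by simp only [mul_assoc, mul_inv_rev, inv_inv, mul_inv_cancel_left, inv_mul_cancel_left, mul_inv_cancel, inv_mul_cancel, mul_one, one_mul, inv_one, C])
  have k56 : o.lt (g * Q⁻¹) (g * P⁻¹) ↔ o.lt (g * Q⁻¹) (g * P⁻¹) := o.cv hδ (1) e28 (by simp only [mul_assoc, mul_inv_rev, inv_inv, mul_inv_cancel_left, inv_mul_cancel_left, mul_inv_cancel, inv_mul_cancel, mul_one, one_mul, inv_one, C]) (by simp only [mul_assoc, mul_inv_rev, inv_inv, mul_inv_cancel_left, inv_mul_cancel_left, mul_inv_cancel, inv_mul_cancel, mul_one, one_mul, inv_one, C])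
  have k57 : o.lt (g * P⁻¹) (f * P⁻¹) ↔ o.lt (g * P⁻¹) (f * P⁻¹) := o.cv hδ (1) e1 (by simp only [mul_assoc, mul_inv_rev, inv_inv, mul_inv_cancel_left, inv_mul_cancel_left, mul_inv_cancel, inv_mul_cancel, mul_one, one_mul, inv_one, C]) (by simp only [mul_assoc, mul_inv_rev, inv_inv, mul_inv_cancel_left, inv_mul_cancel_left, mul_inv_cancel, inv_mul_cancel, mul_one, one_mul, inv_one, C])
  have k58 : o.lt (g * P⁻¹) (f * P⁻¹) ↔ o.lt (g * Q⁻¹) (f * Q⁻¹) := o.cv hδ (P * Q⁻¹) e1 (by simp only [mul_assoc, mul_inv_rev, inv_inv, mul_inv_cancel_left, inv_mul_cancel_left, mul_inv_cancel, inv_mul_cancel, mul_one, one_mul, inv_one, C]) (by simp only [mul_assoc, mul_inv_rev, inv_inv, mul_inv_cancel_left, inv_mul_cancel_left, mul_inv_cancel, inv_mul_cancel, mul_one, one_mul, inv_one, C])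
  have k59 : o.lt (f * Q⁻¹) (g * P⁻¹) ↔ o.lt (f * Q⁻¹) (g * P⁻¹) := o.cv hδ (1) e31 (by simp only [mul_assoc, mul_inv_rev, inv_inv, mul_inv_cancel_left, inv_mul_cancel_left, mul_inv_cancel, inv_mul_cancel, mul_one, one_mul, inv_one, C]) (by simp only [mul_assoc, mul_inv_rev, inv_inv, mul_inv_cancel_left, inv_mul_cancel_left, mul_inv_cancel, inv_mul_cancel, mul_one, one_mul, inv_one, C])
  have k60 : o.lt (g * Q⁻¹) (m * f⁻¹) ↔ o.lt (g * Q⁻¹) (m * f⁻¹) := o.cv hδ (1) e29 (by simp only [mul_assoc, mul_inv_rev, inv_inv, mul_inv_cancel_left, inv_mul_cancel_left, mul_inv_cancel, inv_mul_cancel, mul_one, one_mul, inv_one, C]) (by simp only [mul_assoc, mul_inv_rev, inv_inv, mul_inv_cancel_left, inv_mul_cancel_left, mul_inv_cancel, inv_mul_cancel, mul_one, one_mul, inv_one, C])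
  have k61 : o.lt (g * P⁻¹) (f * P⁻¹) ↔ o.lt ((P * g⁻¹)⁻¹) ((P * f⁻¹)⁻¹) := o.cv hδ (1) e1 (by simp only [mul_assoc, mul_inv_rev, inv_inv, mul_inv_cancel_left, inv_mul_cancel_left, mul_inv_cancel, inv_mul_cancel, mul_one, one_mul, inv_one, C]) (by simp only [mul_assoc, mul_inv_rev, inv_inv, mul_inv_cancel_left, inv_mul_cancel_left, mul_inv_cancel, inv_mul_cancel, mul_one, one_mul, inv_one, C])
  have k62 : o.lt (f * Q⁻¹) (g * P⁻¹) ↔ o.lt ((Q * f⁻¹)⁻¹) ((P * g⁻¹)⁻¹) := o.cv hδ (1) e31 (by simp only [mul_assoc, mul_inv_rev, inv_inv, mul_inv_cancel_left, inv_mul_cancel_left, mul_inv_cancel, inv_mul_cancel, mul_one, one_mul, inv_one, C]) (by simp only [mul_assoc, mul_inv_rev, inv_inv, mul_inv_cancel_left, inv_mul_cancel_left, mul_inv_cancel, inv_mul_cancel, mul_one, one_mul, inv_one, C])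
  exact ser_AAE_0_prop
    (fun b0 b1 b2 => N0.rd.r1 1 (fun h => b0 (k0.2 h)) (fun h => b1 (k1.2 h)) (k2.1 b2))
    (fun b0 b1 b2 => N0.r.r0 1 (fun h => b0 (k3.2 h)) (k1.1 b1) (fun h => b2 (k4.2 h)))
    (fun b0 b1 b2 => N0.rd.r0 1 (fun h => b0 (k5.2 h)) (k6.1 b1) (fun h => b2 (k2.2 h)))
    (fun b0 b1 b2 => N0.d.r0 1 (fun h => b0 (k7.2 h)) (k8.1 b1) (fun h => b2 (k9.2 h)))
    (fun b0 b1 b2 => N0.i.r1 1 (fun h => b0 (k10.2 h)) (fun h => b1 (k8.2 h)) (k11.1 b2))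
    (fun b0 b1 b2 => N1.r.r0 1 (fun h => b0 (k5.2 h)) (k12.1 b1) (fun h => b2 (k13.2 h)))
    (fun b0 b1 b2 => N1.r.r1 1 (fun h => b0 (k14.2 h)) (fun h => b1 (k15.2 h)) (k13.1 b2))
    (fun b0 b1 b2 => N1.rd.r0 1 (fun h => b0 (k3.2 h)) (k15.1 b1) (fun h => b2 (k16.2 h)))
    (fun b0 b1 b2 => N1.i.r0 1 (fun h => b0 (k17.2 h)) (k18.1 b1) (fun h => b2 (k19.2 h)))
    (fun b0 b1 b2 => N1.d.r0 1 (fun h => b0 (k20.2 h)) (k21.1 b1) (fun h => b2 (k22.2 h)))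
    (fun b0 b1 b2 => N1.d.r1 1 (fun h => b0 (k10.2 h)) (fun h => b1 (k18.2 h)) (k22.1 b2))
    (fun b0 b1 => o.asym (k23.1 b0) (k24.1 b1))
    (fun b0 b1 => o.asym (k25.1 b0) (k26.1 b1))
    (fun b0 b1 b2 => o.tri (k27.1 b0) (fun h => b1 (k25.2 h)) (fun h => b2 (k28.2 h)))
    (fun b0 b1 => o.asym (k29.1 b0) (k30.1 b1))
    (fun b0 b1 b2 => o.tri (k24.1 b0) (fun h => b1 (k31.2 h)) (fun h => b2 (k32.2 h)))
    (fun b0 b1 b2 => o.tri (k33.1 b0) (fun h => b1 (k24.2 h)) (fun h => b2 (k27.2 h)))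
    (fun b0 b1 => o.asym (k28.1 b0) (k34.1 b1))
    (fun b0 b1 => o.asym (k35.1 b0) (k36.1 b1))
    (fun b0 b1 b2 => o.tri (k37.1 b0) (fun h => b1 (k38.2 h)) (fun h => b2 (k39.2 h)))
    (fun b0 b1 b2 => o.tri (k40.1 b0) (fun h => b1 (k30.2 h)) (fun h => b2 (k25.2 h)))
    (fun b0 b1 b2 => o.tri (k41.1 b0) (fun h => b1 (k40.2 h)) (fun h => b2 (k28.2 h)))
    (fun b0 b1 => o.asym (k42.1 b0) (k39.1 b1))
    (fun b0 b1 b2 => o.tri (k43.1 b0) (fun h => b1 (k32.2 h)) (fun h => b2 (k23.2 h)))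
    (fun b0 b1 => o.asym (k44.1 b0) (k45.1 b1))
    (fun b0 b1 b2 => o.tri (k46.1 b0) (fun h => b1 (k47.2 h)) (fun h => b2 (k48.2 h)))
    (fun b0 b1 => o.asym (k49.1 b0) (k50.1 b1))
    (fun b0 b1 b2 => o.tri (k49.1 b0) (fun h => b1 (k51.2 h)) (fun h => b2 (k52.2 h)))
    (fun b0 b1 b2 => o.tri (k50.1 b0) (fun h => b1 (k53.2 h)) (fun h => b2 (k54.2 h)))
    (fun b0 b1 b2 => o.tri (k55.1 b0) (fun h => b1 (k56.2 h)) (fun h => b2 (k57.2 h)))
    (fun b0 b1 b2 => o.tri (k56.1 b0) (fun h => b1 (k58.2 h)) (fun h => b2 (k59.2 h)))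
    (fun b0 b1 b2 => o.tri (k60.1 b0) (fun h => b1 (k52.2 h)) (fun h => b2 (k50.2 h)))
    (fun b0 b1 b2 => o.tri (k52.1 b0) (fun h => b1 (k55.2 h)) (fun h => b2 (k44.2 h)))
    (fun b0 b1 b2 => o.tri (k48.1 b0) (fun h => b1 (k59.2 h)) (fun h => b2 (k57.2 h)))
    (k29.2 g0)
    (fun h => g1 (k61.1 h))
    (fun h => g2 (k62.1 h))

theorem ser_AAE_1_prop {A1 A2 A3 A4 A5 A6 A7 A8 A9 A10 A11 A12 A13 A14 A15 A16 A17 A18 A19 A20 A21 : Prop}
    (c0 : ¬ A10 → ¬ A20 → A14 → False)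
    (c1 : ¬ A19 → A20 → ¬ A17 → False)
    (c2 : ¬ A1 → A13 → ¬ A9 → False)
    (c3 : ¬ A10 → ¬ A12 → A9 → False)
    (c4 : ¬ A1 → ¬ A2 → A6 → False)
    (c5 : A14 → A17 → False)
    (c6 : A15 → ¬ A14 → ¬ A13 → False)
    (c7 : A13 → A12 → False)
    (c8 : A7 → ¬ A13 → ¬ A1 → False)
    (c9 : A8 → ¬ A10 → ¬ A7 → False)
    (c10 : A1 → A4 → False)
    (c11 : A4 → ¬ A3 → ¬ A15 → False)
    (c12 : A4 → ¬ A5 → ¬ A13 → False)
    (c13 : A11 → ¬ A3 → ¬ A16 → False)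
    (c14 : A16 → ¬ A18 → ¬ A21 → False)
    (c15 : A18 → A20 → False)
    (c16 : A19 → A21 → False)
    (c17 : A2 → ¬ A3 → ¬ A8 → False)
    (c18 : A5 → ¬ A6 → ¬ A11 → False)
    (u0 : ¬ A3)
    (u1 : A4)
    (u2 : ¬ A10)
    : False := by
  have q1 : ¬ A1 := fun h => c10 h u1
  have q2 : A15 := Classical.byContradiction fun h => c11 u1 u0 h
  rcases Classical.em A13 with q3 | q3
  · have q4 : A9 := Classical.byContradiction fun h => c2 q1 q3 h
    have q5 : A12 := Classical.byContradiction fun h => c3 u2 h q4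
    exact c7 q3 q5
  · have q6 : A14 := Classical.byContradiction fun h => c6 q2 h q3
    have q7 : A20 := Classical.byContradiction fun h => c0 u2 h q6
    have q8 : ¬ A17 := fun h => c5 q6 h
    have q9 : A19 := Classical.byContradiction fun h => c1 h q7 q8
    have q10 : ¬ A7 := fun h => c8 h q3 q1
    have q11 : ¬ A8 := fun h => c9 h u2 q10
    have q12 : A5 := Classical.byContradiction fun h => c12 u1 h q3
    have q13 : ¬ A18 := fun h => c15 h q7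
    have q14 : ¬ A21 := fun h => c16 q9 h
    have q15 : ¬ A16 := fun h => c14 h q13 q14
    have q16 : ¬ A11 := fun h => c13 h u0 q15
    have q17 : ¬ A2 := fun h => c17 h u0 q11
    have q18 : ¬ A6 := fun h => c4 q1 q17 h
    exact c18 q12 q18 q16

theorem ser_AAE_1 {G : Type*} [Group G] {δ : G → ZMod 3} (hδ : ∀ u v, δ (u * v) = δ u + δ v) (o : Pre δ)
    {P m Q f g : G} {e : ZMod 3} (h3 : 3 * e = 0)
    (D : δ P = e ∧ δ m = -e ∧ δ Q = e ∧ δ f = 0 ∧ δ g = 0)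
    (C : Cube P f ∧ Cube P g ∧ Cube m f ∧ Cube m g ∧ Cube Q f ∧ Cube Q g)
    (N0 : RA o P m f g)
    (N1 : RA o Q m g f)
    (g0 : ¬ o.lt (Q * f⁻¹) (P * f⁻¹)) (g1 : o.lt (Q * f⁻¹) (Q * g⁻¹)) (g2 : ¬ o.lt ((P * g⁻¹)⁻¹) ((P * f⁻¹)⁻¹)) : False := by
  simp only [Cube] at C
  have e0 : δ (Q * g⁻¹) = δ (Q * f⁻¹) := by simp only [hδ, δinv hδ, δone hδ, D] <;> linear_combination (0) * h3
  have e1 : δ (Q * P⁻¹) = δ (Q * (f⁻¹ * (m * g⁻¹))) := by simp only [hδ, δinv hδ, δone hδ, D] <;> linear_combination (0) * h3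
  have e2 : δ (Q * f⁻¹) = δ (P * f⁻¹) := by simp only [hδ, δinv hδ, δone hδ, D] <;> linear_combination (0) * h3
  have e3 : δ (Q * f⁻¹) = δ (Q * g⁻¹) := by simp only [hδ, δinv hδ, δone hδ, D] <;> linear_combination (0) * h3
  have e4 : δ (Q * f⁻¹) = δ (f * m⁻¹) := by simp only [hδ, δinv hδ, δone hδ, D] <;> linear_combination (0) * h3
  have e5 : δ (Q * m⁻¹) = δ (Q * (P⁻¹ * (f * P⁻¹))) := by simp only [hδ, δinv hδ, δone hδ, D] <;> linear_combination (1) * h3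
  have e6 : δ (f * m⁻¹) = δ (Q * f⁻¹) := by simp only [hδ, δinv hδ, δone hδ, D] <;> linear_combination (0) * h3
  have e7 : δ (g * m⁻¹) = δ (Q * f⁻¹) := by simp only [hδ, δinv hδ, δone hδ, D] <;> linear_combination (0) * h3
  have e8 : δ (m * f⁻¹) = δ (f * Q⁻¹) := by simp only [hδ, δinv hδ, δone hδ, D] <;> linear_combination (0) * h3
  have e9 : δ (g * P⁻¹) = δ (f * P⁻¹) := by simp only [hδ, δinv hδ, δone hδ, D] <;> linear_combination (0) * h3
  have e10 : δ (Q * f⁻¹) = δ (m * P⁻¹) := by simp only [hδ, δinv hδ, δone hδ, D] <;> linear_combination (1) * h3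
  have e11 : δ (Q * g⁻¹) = δ (f * m⁻¹) := by simp only [hδ, δinv hδ, δone hδ, D] <;> linear_combination (0) * h3
  have e12 : δ (f * m⁻¹) = δ (Q * g⁻¹) := by simp only [hδ, δinv hδ, δone hδ, D] <;> linear_combination (0) * h3
  have e13 : δ (P * f⁻¹) = δ (f * m⁻¹) := by simp only [hδ, δinv hδ, δone hδ, D] <;> linear_combination (0) * h3
  have e14 : δ (P * f⁻¹) = δ (Q * g⁻¹) := by simp only [hδ, δinv hδ, δone hδ, D] <;> linear_combination (0) * h3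
  have e15 : δ (P * f⁻¹) = δ (m * P⁻¹) := by simp only [hδ, δinv hδ, δone hδ, D] <;> linear_combination (1) * h3
  have e16 : δ (f * m⁻¹) = δ (P * f⁻¹) := by simp only [hδ, δinv hδ, δone hδ, D] <;> linear_combination (0) * h3
  have e17 : δ (f * P⁻¹) = δ (m * g⁻¹) := by simp only [hδ, δinv hδ, δone hδ, D] <;> linear_combination (0) * h3
  have e18 : δ (m * f⁻¹) = δ (m * g⁻¹) := by simp only [hδ, δinv hδ, δone hδ, D] <;> linear_combination (0) * h3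
  have e19 : δ (m * g⁻¹) = δ (f * P⁻¹) := by simp only [hδ, δinv hδ, δone hδ, D] <;> linear_combination (0) * h3
  have e20 : δ (m * g⁻¹) = δ (m * f⁻¹) := by simp only [hδ, δinv hδ, δone hδ, D] <;> linear_combination (0) * h3
  have k0 : o.lt (g * P⁻¹) (f * P⁻¹) ↔ o.lt (1 * (g * P⁻¹)) (1 * (f * P⁻¹)) := o.cv hδ (1) e9 (by simp only [mul_assoc, mul_inv_rev, inv_inv, mul_inv_cancel_left, inv_mul_cancel_left, mul_inv_cancel, inv_mul_cancel, mul_one, one_mul, inv_one, C]) (by simp only [mul_assoc, mul_inv_rev, inv_inv, mul_inv_cancel_left, inv_mul_cancel_left, mul_inv_cancel, inv_mul_cancel, mul_one, one_mul, inv_one, C])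
  have k1 : o.lt (m * g⁻¹) (f * P⁻¹) ↔ o.lt (1 * (m * g⁻¹)) (1 * (f * P⁻¹)) := o.cv hδ (1) e19 (by simp only [mul_assoc, mul_inv_rev, inv_inv, mul_inv_cancel_left, inv_mul_cancel_left, mul_inv_cancel, inv_mul_cancel, mul_one, one_mul, inv_one, C]) (by simp only [mul_assoc, mul_inv_rev, inv_inv, mul_inv_cancel_left, inv_mul_cancel_left, mul_inv_cancel, inv_mul_cancel, mul_one, one_mul, inv_one, C])
  have k2 : o.lt (P * f⁻¹) (f * m⁻¹) ↔ o.lt (1 * (f * P⁻¹)⁻¹) (1 * (m * f⁻¹)⁻¹) := o.cv hδ (1) e13 (by simp only [mul_assoc, mul_inv_rev, inv_inv, mul_inv_cancel_left, inv_mul_cancel_left, mul_inv_cancel, inv_mul_cancel, mul_one, one_mul, inv_one, C]) (by simp only [mul_assoc, mul_inv_rev, inv_inv, mul_inv_cancel_left, inv_mul_cancel_left, mul_inv_cancel, inv_mul_cancel, mul_one, one_mul, inv_one, C])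
  have k3 : o.lt (m * f⁻¹) (m * g⁻¹) ↔ o.lt (1 * (m * f⁻¹)) (1 * (m * g⁻¹)) := o.cv hδ (1) e18 (by simp only [mul_assoc, mul_inv_rev, inv_inv, mul_inv_cancel_left, inv_mul_cancel_left, mul_inv_cancel, inv_mul_cancel, mul_one, one_mul, inv_one, C]) (by simp only [mul_assoc, mul_inv_rev, inv_inv, mul_inv_cancel_left, inv_mul_cancel_left, mul_inv_cancel, inv_mul_cancel, mul_one, one_mul, inv_one, C])
  have k4 : o.lt (f * m⁻¹) (P * f⁻¹) ↔ o.lt (1 * (m * f⁻¹)⁻¹) (1 * (f * P⁻¹)⁻¹) := o.cv hδ (1) e16 (by simp only [mul_assoc, mul_inv_rev, inv_inv, mul_inv_cancel_left, inv_mul_cancel_left, mul_inv_cancel, inv_mul_cancel, mul_one, one_mul, inv_one, C]) (by simp only [mul_assoc, mul_inv_rev, inv_inv, mul_inv_cancel_left, inv_mul_cancel_left, mul_inv_cancel, inv_mul_cancel, mul_one, one_mul, inv_one, C])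
  have k5 : o.lt (Q * g⁻¹) (Q * f⁻¹) ↔ o.lt (1 * (Q * g⁻¹)) (1 * (Q * f⁻¹)) := o.cv hδ (1) e0 (by simp only [mul_assoc, mul_inv_rev, inv_inv, mul_inv_cancel_left, inv_mul_cancel_left, mul_inv_cancel, inv_mul_cancel, mul_one, one_mul, inv_one, C]) (by simp only [mul_assoc, mul_inv_rev, inv_inv, mul_inv_cancel_left, inv_mul_cancel_left, mul_inv_cancel, inv_mul_cancel, mul_one, one_mul, inv_one, C])
  have k6 : o.lt (f * m⁻¹) (Q * g⁻¹) ↔ o.lt (1 * (f * m⁻¹)) (1 * (Q * g⁻¹)) := o.cv hδ (1) e12 (by simp only [mul_assoc, mul_inv_rev, inv_inv, mul_inv_cancel_left, inv_mul_cancel_left, mul_inv_cancel, inv_mul_cancel, mul_one, one_mul, inv_one, C]) (by simp only [mul_assoc, mul_inv_rev, inv_inv, mul_inv_cancel_left, inv_mul_cancel_left, mul_inv_cancel, inv_mul_cancel, mul_one, one_mul, inv_one, C])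
  have k7 : o.lt (m * f⁻¹) (f * Q⁻¹) ↔ o.lt (1 * (f * m⁻¹)⁻¹) (1 * (Q * f⁻¹)⁻¹) := o.cv hδ (1) e8 (by simp only [mul_assoc, mul_inv_rev, inv_inv, mul_inv_cancel_left, inv_mul_cancel_left, mul_inv_cancel, inv_mul_cancel, mul_one, one_mul, inv_one, C]) (by simp only [mul_assoc, mul_inv_rev, inv_inv, mul_inv_cancel_left, inv_mul_cancel_left, mul_inv_cancel, inv_mul_cancel, mul_one, one_mul, inv_one, C])
  have k8 : o.lt (g * P⁻¹) (f * P⁻¹) ↔ o.lt (1 * (g * m⁻¹)) (1 * (f * m⁻¹)) := o.cv hδ (P * m⁻¹) e9 (by simp only [mul_assoc, mul_inv_rev, inv_inv, mul_inv_cancel_left, inv_mul_cancel_left, mul_inv_cancel, inv_mul_cancel, mul_one, one_mul, inv_one, C]) (by simp only [mul_assoc, mul_inv_rev, inv_inv, mul_inv_cancel_left, inv_mul_cancel_left, mul_inv_cancel, inv_mul_cancel, mul_one, one_mul, inv_one, C])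
  have k9 : o.lt (Q * g⁻¹) (f * m⁻¹) ↔ o.lt (1 * (Q * g⁻¹)) (1 * (f * m⁻¹)) := o.cv hδ (1) e11 (by simp only [mul_assoc, mul_inv_rev, inv_inv, mul_inv_cancel_left, inv_mul_cancel_left, mul_inv_cancel, inv_mul_cancel, mul_one, one_mul, inv_one, C]) (by simp only [mul_assoc, mul_inv_rev, inv_inv, mul_inv_cancel_left, inv_mul_cancel_left, mul_inv_cancel, inv_mul_cancel, mul_one, one_mul, inv_one, C])
  have k10 : o.lt (Q * g⁻¹) (Q * f⁻¹) ↔ o.lt ((Q * f⁻¹) * (f * P⁻¹)) ((Q * f⁻¹) * (g * P⁻¹)) := o.cv hδ (g * P⁻¹) e0 (by simp only [mul_assoc, mul_inv_rev, inv_inv, mul_inv_cancel_left, inv_mul_cancel_left, mul_inv_cancel, inv_mul_cancel, mul_one, one_mul, inv_one, C]) (by simp only [mul_assoc, mul_inv_rev, inv_inv, mul_inv_cancel_left, inv_mul_cancel_left, mul_inv_cancel, inv_mul_cancel, mul_one, one_mul, inv_one, C])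
  have k11 : o.lt (Q * P⁻¹) (Q * (f⁻¹ * (m * g⁻¹))) ↔ o.lt ((Q * f⁻¹) * (f * P⁻¹)) ((Q * f⁻¹) * (m * g⁻¹)) := o.cv hδ (1) e1 (by simp only [mul_assoc, mul_inv_rev, inv_inv, mul_inv_cancel_left, inv_mul_cancel_left, mul_inv_cancel, inv_mul_cancel, mul_one, one_mul, inv_one, C]) (by simp only [mul_assoc, mul_inv_rev, inv_inv, mul_inv_cancel_left, inv_mul_cancel_left, mul_inv_cancel, inv_mul_cancel, mul_one, one_mul, inv_one, C])
  have k12 : o.lt (Q * m⁻¹) (Q * (P⁻¹ * (f * P⁻¹))) ↔ o.lt ((Q * f⁻¹) * (m * f⁻¹)⁻¹) ((Q * f⁻¹) * (f * P⁻¹)⁻¹) := o.cv hδ (1) e5 (by simp only [mul_assoc, mul_inv_rev, inv_inv, mul_inv_cancel_left, inv_mul_cancel_left, mul_inv_cancel, inv_mul_cancel, mul_one, one_mul, inv_one, C]) (by simp only [mul_assoc, mul_inv_rev, inv_inv, mul_inv_cancel_left, inv_mul_cancel_left, mul_inv_cancel, inv_mul_cancel, mul_one, one_mul, inv_one, C])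
  have k13 : o.lt (P * f⁻¹) (f * m⁻¹) ↔ o.lt (P * f⁻¹) (f * m⁻¹) := o.cv hδ (1) e13 (by simp only [mul_assoc, mul_inv_rev, inv_inv, mul_inv_cancel_left, inv_mul_cancel_left, mul_inv_cancel, inv_mul_cancel, mul_one, one_mul, inv_one, C]) (by simp only [mul_assoc, mul_inv_rev, inv_inv, mul_inv_cancel_left, inv_mul_cancel_left, mul_inv_cancel, inv_mul_cancel, mul_one, one_mul, inv_one, C])
  have k14 : o.lt (f * m⁻¹) (P * f⁻¹) ↔ o.lt (f * m⁻¹) (P * f⁻¹) := o.cv hδ (1) e16 (by simp only [mul_assoc, mul_inv_rev, inv_inv, mul_inv_cancel_left, inv_mul_cancel_left, mul_inv_cancel, inv_mul_cancel, mul_one, one_mul, inv_one, C]) (by simp only [mul_assoc, mul_inv_rev, inv_inv, mul_inv_cancel_left, inv_mul_cancel_left, mul_inv_cancel, inv_mul_cancel, mul_one, one_mul, inv_one, C])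
  have k15 : o.lt (P * f⁻¹) (Q * g⁻¹) ↔ o.lt (P * f⁻¹) (Q * g⁻¹) := o.cv hδ (1) e14 (by simp only [mul_assoc, mul_inv_rev, inv_inv, mul_inv_cancel_left, inv_mul_cancel_left, mul_inv_cancel, inv_mul_cancel, mul_one, one_mul, inv_one, C]) (by simp only [mul_assoc, mul_inv_rev, inv_inv, mul_inv_cancel_left, inv_mul_cancel_left, mul_inv_cancel, inv_mul_cancel, mul_one, one_mul, inv_one, C])
  have k16 : o.lt (f * m⁻¹) (Q * g⁻¹) ↔ o.lt (f * m⁻¹) (Q * g⁻¹) := o.cv hδ (1) e12 (by simp only [mul_assoc, mul_inv_rev, inv_inv, mul_inv_cancel_left, inv_mul_cancel_left, mul_inv_cancel, inv_mul_cancel, mul_one, one_mul, inv_one, C]) (by simp only [mul_assoc, mul_inv_rev, inv_inv, mul_inv_cancel_left, inv_mul_cancel_left, mul_inv_cancel, inv_mul_cancel, mul_one, one_mul, inv_one, C])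
  have k17 : o.lt (Q * g⁻¹) (f * m⁻¹) ↔ o.lt (Q * g⁻¹) (f * m⁻¹) := o.cv hδ (1) e11 (by simp only [mul_assoc, mul_inv_rev, inv_inv, mul_inv_cancel_left, inv_mul_cancel_left, mul_inv_cancel, inv_mul_cancel, mul_one, one_mul, inv_one, C]) (by simp only [mul_assoc, mul_inv_rev, inv_inv, mul_inv_cancel_left, inv_mul_cancel_left, mul_inv_cancel, inv_mul_cancel, mul_one, one_mul, inv_one, C])
  have k18 : o.lt (f * m⁻¹) (Q * f⁻¹) ↔ o.lt (f * m⁻¹) (Q * f⁻¹) := o.cv hδ (1) e6 (by simp only [mul_assoc, mul_inv_rev, inv_inv, mul_inv_cancel_left, inv_mul_cancel_left, mul_inv_cancel, inv_mul_cancel, mul_one, one_mul, inv_one, C]) (by simp only [mul_assoc, mul_inv_rev, inv_inv, mul_inv_cancel_left, inv_mul_cancel_left, mul_inv_cancel, inv_mul_cancel, mul_one, one_mul, inv_one, C])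
  have k19 : o.lt (Q * g⁻¹) (Q * f⁻¹) ↔ o.lt (Q * g⁻¹) (Q * f⁻¹) := o.cv hδ (1) e0 (by simp only [mul_assoc, mul_inv_rev, inv_inv, mul_inv_cancel_left, inv_mul_cancel_left, mul_inv_cancel, inv_mul_cancel, mul_one, one_mul, inv_one, C]) (by simp only [mul_assoc, mul_inv_rev, inv_inv, mul_inv_cancel_left, inv_mul_cancel_left, mul_inv_cancel, inv_mul_cancel, mul_one, one_mul, inv_one, C])
  have k20 : o.lt (g * m⁻¹) (Q * f⁻¹) ↔ o.lt (g * m⁻¹) (Q * f⁻¹) := o.cv hδ (1) e7 (by simp only [mul_assoc, mul_inv_rev, inv_inv, mul_inv_cancel_left, inv_mul_cancel_left, mul_inv_cancel, inv_mul_cancel, mul_one, one_mul, inv_one, C]) (by simp only [mul_assoc, mul_inv_rev, inv_inv, mul_inv_cancel_left, inv_mul_cancel_left, mul_inv_cancel, inv_mul_cancel, mul_one, one_mul, inv_one, C])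
  have k21 : o.lt (g * P⁻¹) (f * P⁻¹) ↔ o.lt (g * m⁻¹) (f * m⁻¹) := o.cv hδ (P * m⁻¹) e9 (by simp only [mul_assoc, mul_inv_rev, inv_inv, mul_inv_cancel_left, inv_mul_cancel_left, mul_inv_cancel, inv_mul_cancel, mul_one, one_mul, inv_one, C]) (by simp only [mul_assoc, mul_inv_rev, inv_inv, mul_inv_cancel_left, inv_mul_cancel_left, mul_inv_cancel, inv_mul_cancel, mul_one, one_mul, inv_one, C])
  have k22 : o.lt (Q * f⁻¹) (Q * g⁻¹) ↔ o.lt (Q * f⁻¹) (Q * g⁻¹) := o.cv hδ (1) e3 (by simp only [mul_assoc, mul_inv_rev, inv_inv, mul_inv_cancel_left, inv_mul_cancel_left, mul_inv_cancel, inv_mul_cancel, mul_one, one_mul, inv_one, C]) (by simp only [mul_assoc, mul_inv_rev, inv_inv, mul_inv_cancel_left, inv_mul_cancel_left, mul_inv_cancel, inv_mul_cancel, mul_one, one_mul, inv_one, C])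
  have k23 : o.lt (Q * f⁻¹) (P * f⁻¹) ↔ o.lt (Q * f⁻¹) (P * f⁻¹) := o.cv hδ (1) e2 (by simp only [mul_assoc, mul_inv_rev, inv_inv, mul_inv_cancel_left, inv_mul_cancel_left, mul_inv_cancel, inv_mul_cancel, mul_one, one_mul, inv_one, C]) (by simp only [mul_assoc, mul_inv_rev, inv_inv, mul_inv_cancel_left, inv_mul_cancel_left, mul_inv_cancel, inv_mul_cancel, mul_one, one_mul, inv_one, C])
  have k24 : o.lt (Q * f⁻¹) (f * m⁻¹) ↔ o.lt (Q * f⁻¹) (f * m⁻¹) := o.cv hδ (1) e4 (by simp only [mul_assoc, mul_inv_rev, inv_inv, mul_inv_cancel_left, inv_mul_cancel_left, mul_inv_cancel, inv_mul_cancel, mul_one, one_mul, inv_one, C]) (by simp only [mul_assoc, mul_inv_rev, inv_inv, mul_inv_cancel_left, inv_mul_cancel_left, mul_inv_cancel, inv_mul_cancel, mul_one, one_mul, inv_one, C])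
  have k25 : o.lt (Q * f⁻¹) (m * P⁻¹) ↔ o.lt (Q * f⁻¹) (m * P⁻¹) := o.cv hδ (1) e10 (by simp only [mul_assoc, mul_inv_rev, inv_inv, mul_inv_cancel_left, inv_mul_cancel_left, mul_inv_cancel, inv_mul_cancel, mul_one, one_mul, inv_one, C]) (by simp only [mul_assoc, mul_inv_rev, inv_inv, mul_inv_cancel_left, inv_mul_cancel_left, mul_inv_cancel, inv_mul_cancel, mul_one, one_mul, inv_one, C])
  have k26 : o.lt (P * f⁻¹) (m * P⁻¹) ↔ o.lt (P * f⁻¹) (m * P⁻¹) := o.cv hδ (1) e15 (by simp only [mul_assoc, mul_inv_rev, inv_inv, mul_inv_cancel_left, inv_mul_cancel_left, mul_inv_cancel, inv_mul_cancel, mul_one, one_mul, inv_one, C]) (by simp only [mul_assoc, mul_inv_rev, inv_inv, mul_inv_cancel_left, inv_mul_cancel_left, mul_inv_cancel, inv_mul_cancel, mul_one, one_mul, inv_one, C])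
  have k27 : o.lt (P * f⁻¹) (m * P⁻¹) ↔ o.lt (f * P⁻¹) (m * f⁻¹) := o.cv hδ (f * (P⁻¹ * (f * P⁻¹))) e15 (by simp only [mul_assoc, mul_inv_rev, inv_inv, mul_inv_cancel_left, inv_mul_cancel_left, mul_inv_cancel, inv_mul_cancel, mul_one, one_mul, inv_one, C]) (by simp only [mul_assoc, mul_inv_rev, inv_inv, mul_inv_cancel_left, inv_mul_cancel_left, mul_inv_cancel, inv_mul_cancel, mul_one, one_mul, inv_one, C])
  have k28 : o.lt (f * P⁻¹) (m * g⁻¹) ↔ o.lt (f * P⁻¹) (m * g⁻¹) := o.cv hδ (1) e17 (by simp only [mul_assoc, mul_inv_rev, inv_inv, mul_inv_cancel_left, inv_mul_cancel_left, mul_inv_cancel, inv_mul_cancel, mul_one, one_mul, inv_one, C]) (by simp only [mul_assoc, mul_inv_rev, inv_inv, mul_inv_cancel_left, inv_mul_cancel_left, mul_inv_cancel, inv_mul_cancel, mul_one, one_mul, inv_one, C])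
  have k29 : o.lt (m * g⁻¹) (m * f⁻¹) ↔ o.lt (m * g⁻¹) (m * f⁻¹) := o.cv hδ (1) e20 (by simp only [mul_assoc, mul_inv_rev, inv_inv, mul_inv_cancel_left, inv_mul_cancel_left, mul_inv_cancel, inv_mul_cancel, mul_one, one_mul, inv_one, C]) (by simp only [mul_assoc, mul_inv_rev, inv_inv, mul_inv_cancel_left, inv_mul_cancel_left, mul_inv_cancel, inv_mul_cancel, mul_one, one_mul, inv_one, C])
  have k30 : o.lt (m * g⁻¹) (f * P⁻¹) ↔ o.lt (m * g⁻¹) (f * P⁻¹) := o.cv hδ (1) e19 (by simp only [mul_assoc, mul_inv_rev, inv_inv, mul_inv_cancel_left, inv_mul_cancel_left, mul_inv_cancel, inv_mul_cancel, mul_one, one_mul, inv_one, C]) (by simp only [mul_assoc, mul_inv_rev, inv_inv, mul_inv_cancel_left, inv_mul_cancel_left, mul_inv_cancel, inv_mul_cancel, mul_one, one_mul, inv_one, C])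
  have k31 : o.lt (m * f⁻¹) (m * g⁻¹) ↔ o.lt (m * f⁻¹) (m * g⁻¹) := o.cv hδ (1) e18 (by simp only [mul_assoc, mul_inv_rev, inv_inv, mul_inv_cancel_left, inv_mul_cancel_left, mul_inv_cancel, inv_mul_cancel, mul_one, one_mul, inv_one, C]) (by simp only [mul_assoc, mul_inv_rev, inv_inv, mul_inv_cancel_left, inv_mul_cancel_left, mul_inv_cancel, inv_mul_cancel, mul_one, one_mul, inv_one, C])
  have k32 : o.lt (Q * P⁻¹) (Q * (f⁻¹ * (m * g⁻¹))) ↔ o.lt (Q * P⁻¹) (Q * (f⁻¹ * (m * g⁻¹))) := o.cv hδ (1) e1 (by simp only [mul_assoc, mul_inv_rev, inv_inv, mul_inv_cancel_left, inv_mul_cancel_left, mul_inv_cancel, inv_mul_cancel, mul_one, one_mul, inv_one, C]) (by simp only [mul_assoc, mul_inv_rev, inv_inv, mul_inv_cancel_left, inv_mul_cancel_left, mul_inv_cancel, inv_mul_cancel, mul_one, one_mul, inv_one, C])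
  have k33 : o.lt (Q * f⁻¹) (P * f⁻¹) ↔ o.lt (Q * P⁻¹) (1) := o.cv hδ (f * P⁻¹) e2 (by simp only [mul_assoc, mul_inv_rev, inv_inv, mul_inv_cancel_left, inv_mul_cancel_left, mul_inv_cancel, inv_mul_cancel, mul_one, one_mul, inv_one, C]) (by simp only [mul_assoc, mul_inv_rev, inv_inv, mul_inv_cancel_left, inv_mul_cancel_left, mul_inv_cancel, inv_mul_cancel, mul_one, one_mul, inv_one, C])
  have k34 : o.lt (g * m⁻¹) (Q * f⁻¹) ↔ o.lt (1) (Q * (f⁻¹ * (m * g⁻¹))) := o.cv hδ (m * g⁻¹) e7 (by simp only [mul_assoc, mul_inv_rev, inv_inv, mul_inv_cancel_left, inv_mul_cancel_left, mul_inv_cancel, inv_mul_cancel, mul_one, one_mul, inv_one, C]) (by simp only [mul_assoc, mul_inv_rev, inv_inv, mul_inv_cancel_left, inv_mul_cancel_left, mul_inv_cancel, inv_mul_cancel, mul_one, one_mul, inv_one, C])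
  have k35 : o.lt (Q * f⁻¹) (f * m⁻¹) ↔ o.lt (Q * (f⁻¹ * (m * f⁻¹))) (1) := o.cv hδ (m * f⁻¹) e4 (by simp only [mul_assoc, mul_inv_rev, inv_inv, mul_inv_cancel_left, inv_mul_cancel_left, mul_inv_cancel, inv_mul_cancel, mul_one, one_mul, inv_one, C]) (by simp only [mul_assoc, mul_inv_rev, inv_inv, mul_inv_cancel_left, inv_mul_cancel_left, mul_inv_cancel, inv_mul_cancel, mul_one, one_mul, inv_one, C])
  have k36 : o.lt (Q * m⁻¹) (Q * (P⁻¹ * (f * P⁻¹))) ↔ o.lt (Q * (f⁻¹ * (m * f⁻¹))) (Q * (f⁻¹ * (P * m⁻¹))) := o.cv hδ (m * (f⁻¹ * (m * f⁻¹))) e5 (by simp only [mul_assoc, mul_inv_rev, inv_inv, mul_inv_cancel_left, inv_mul_cancel_left, mul_inv_cancel, inv_mul_cancel, mul_one, one_mul, inv_one, C]) (by simp only [mul_assoc, mul_inv_rev, inv_inv, mul_inv_cancel_left, inv_mul_cancel_left, mul_inv_cancel, inv_mul_cancel, mul_one, one_mul, inv_one, C])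
  have k37 : o.lt (Q * f⁻¹) (m * P⁻¹) ↔ o.lt (Q * (f⁻¹ * (P * m⁻¹))) (1) := o.cv hδ (P * m⁻¹) e10 (by simp only [mul_assoc, mul_inv_rev, inv_inv, mul_inv_cancel_left, inv_mul_cancel_left, mul_inv_cancel, inv_mul_cancel, mul_one, one_mul, inv_one, C]) (by simp only [mul_assoc, mul_inv_rev, inv_inv, mul_inv_cancel_left, inv_mul_cancel_left, mul_inv_cancel, inv_mul_cancel, mul_one, one_mul, inv_one, C])
  have k38 : o.lt (g * P⁻¹) (f * P⁻¹) ↔ o.lt ((P * g⁻¹)⁻¹) ((P * f⁻¹)⁻¹) := o.cv hδ (1) e9 (by simp only [mul_assoc, mul_inv_rev, inv_inv, mul_inv_cancel_left, inv_mul_cancel_left, mul_inv_cancel, inv_mul_cancel, mul_one, one_mul, inv_one, C]) (by simp only [mul_assoc, mul_inv_rev, inv_inv, mul_inv_cancel_left, inv_mul_cancel_left, mul_inv_cancel, inv_mul_cancel, mul_one, one_mul, inv_one, C])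
  exact ser_AAE_1_prop
    (fun b0 b1 b2 => N0.rd.r1 1 (fun h => b0 (k0.2 h)) (fun h => b1 (k1.2 h)) (k2.1 b2))
    (fun b0 b1 b2 => N0.r.r0 1 (fun h => b0 (k3.2 h)) (k1.1 b1) (fun h => b2 (k4.2 h)))
    (fun b0 b1 b2 => N1.d.r0 1 (fun h => b0 (k5.2 h)) (k6.1 b1) (fun h => b2 (k7.2 h)))
    (fun b0 b1 b2 => N1.d.r1 1 (fun h => b0 (k8.2 h)) (fun h => b1 (k9.2 h)) (k7.1 b2))
    (fun b0 b1 b2 => N0.r.r1 (Q * f⁻¹) (fun h => b0 (k10.2 h)) (fun h => b1 (k11.2 h)) (k12.1 b2))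
    (fun b0 b1 => o.asym (k13.1 b0) (k14.1 b1))
    (fun b0 b1 b2 => o.tri (k15.1 b0) (fun h => b1 (k13.2 h)) (fun h => b2 (k16.2 h)))
    (fun b0 b1 => o.asym (k16.1 b0) (k17.1 b1))
    (fun b0 b1 b2 => o.tri (k18.1 b0) (fun h => b1 (k16.2 h)) (fun h => b2 (k19.2 h)))
    (fun b0 b1 b2 => o.tri (k20.1 b0) (fun h => b1 (k21.2 h)) (fun h => b2 (k18.2 h)))
    (fun b0 b1 => o.asym (k19.1 b0) (k22.1 b1))
    (fun b0 b1 b2 => o.tri (k22.1 b0) (fun h => b1 (k23.2 h)) (fun h => b2 (k15.2 h)))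
    (fun b0 b1 b2 => o.tri (k22.1 b0) (fun h => b1 (k24.2 h)) (fun h => b2 (k16.2 h)))
    (fun b0 b1 b2 => o.tri (k25.1 b0) (fun h => b1 (k23.2 h)) (fun h => b2 (k26.2 h)))
    (fun b0 b1 b2 => o.tri (k27.1 b0) (fun h => b1 (k28.2 h)) (fun h => b2 (k29.2 h)))
    (fun b0 b1 => o.asym (k28.1 b0) (k30.1 b1))
    (fun b0 b1 => o.asym (k31.1 b0) (k29.1 b1))
    (fun b0 b1 b2 => o.tri (k32.1 b0) (fun h => b1 (k33.2 h)) (fun h => b2 (k34.2 h)))
    (fun b0 b1 b2 => o.tri (k35.1 b0) (fun h => b1 (k36.2 h)) (fun h => b2 (k37.2 h)))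
    (fun h => g0 (k23.1 h))
    (k22.2 g1)
    (fun h => g2 (k38.1 h))

theorem ser_AAE_2_prop {A1 A2 A3 A4 A5 A6 A7 A8 A9 A10 A11 A12 A13 A14 A15 A16 A17 A18 A19 A20 A21 A22 A23 A24 A25 A26 A27 A28 A29 A30 A31 A32 A33 A34 A35 A36 A37 A38 A39 A40 : Prop}
    (c0 : ¬ A8 → ¬ A9 → A13 → False)
    (c1 : ¬ A36 → A9 → ¬ A1 → False)
    (c2 : ¬ A12 → A2 → ¬ A35 → False)
    (c3 : ¬ A8 → ¬ A2 → A33 → False)
    (c4 : ¬ A38 → A37 → ¬ A34 → False)
    (c5 : ¬ A8 → ¬ A40 → A34 → False)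
    (c6 : ¬ A12 → ¬ A18 → A6 → False)
    (c7 : ¬ A19 → A2 → ¬ A6 → False)
    (c8 : ¬ A14 → A21 → ¬ A25 → False)
    (c9 : ¬ A26 → A17 → ¬ A15 → False)
    (c10 : ¬ A12 → ¬ A24 → A15 → False)
    (c11 : A13 → A1 → False)
    (c12 : A18 → ¬ A12 → ¬ A31 → False)
    (c13 : A20 → ¬ A12 → ¬ A27 → False)
    (c14 : A27 → A4 → False)
    (c15 : A29 → ¬ A12 → ¬ A33 → False)
    (c16 : A30 → A8 → False)
    (c17 : A10 → ¬ A2 → ¬ A12 → False)
    (c18 : A10 → ¬ A34 → ¬ A4 → False)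
    (c19 : A4 → ¬ A3 → ¬ A12 → False)
    (c20 : A35 → ¬ A5 → ¬ A12 → False)
    (c21 : A30 → ¬ A32 → ¬ A39 → False)
    (c22 : A32 → ¬ A29 → ¬ A37 → False)
    (c23 : A5 → ¬ A37 → ¬ A11 → False)
    (c24 : A36 → A38 → False)
    (c25 : A37 → A40 → False)
    (c26 : A38 → ¬ A10 → ¬ A13 → False)
    (c27 : A11 → ¬ A39 → ¬ A8 → False)
    (c28 : A31 → ¬ A13 → ¬ A36 → False)
    (c29 : A3 → ¬ A11 → ¬ A7 → False)
    (c30 : A23 → ¬ A20 → ¬ A11 → False)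
    (c31 : A7 → ¬ A6 → ¬ A17 → False)
    (c32 : A16 → A28 → False)
    (c33 : A24 → ¬ A23 → ¬ A6 → False)
    (c34 : A26 → ¬ A24 → ¬ A16 → False)
    (c35 : A26 → ¬ A22 → ¬ A15 → False)
    (c36 : A14 → A19 → False)
    (c37 : A22 → ¬ A21 → ¬ A14 → False)
    (c38 : A25 → ¬ A28 → ¬ A14 → False)
    (u0 : ¬ A12)
    (u1 : ¬ A39)
    (u2 : A30)
    : False := by
  have q1 : ¬ A8 := fun h => c16 u2 h
  have q2 : A32 := Classical.byContradiction fun h => c21 u2 h u1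
  have q3 : ¬ A11 := fun h => c27 h u1 q1
  rcases Classical.em A2 with q4 | q4
  · have q5 : A35 := Classical.byContradiction fun h => c2 u0 q4 h
    have q6 : A5 := Classical.byContradiction fun h => c20 q5 h u0
    have q7 : A37 := Classical.byContradiction fun h => c23 q6 h q3
    have q8 : ¬ A40 := fun h => c25 q7 h
    have q9 : ¬ A34 := fun h => c5 q1 q8 h
    have q10 : A38 := Classical.byContradiction fun h => c4 h q7 q9
    have q11 : ¬ A36 := fun h => c24 h q10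
    rcases Classical.em A13 with q12 | q12
    · have q13 : A9 := Classical.byContradiction fun h => c0 q1 h q12
      have q14 : A1 := Classical.byContradiction fun h => c1 q11 q13 h
      exact c11 q12 q14
    · have q15 : A10 := Classical.byContradiction fun h => c26 q10 h q12
      have q16 : A4 := Classical.byContradiction fun h => c18 q15 q9 h
      have q17 : ¬ A27 := fun h => c14 h q16
      have q18 : ¬ A20 := fun h => c13 h u0 q17
      have q19 : A3 := Classical.byContradiction fun h => c19 q16 h u0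
      have q20 : ¬ A31 := fun h => c28 h q12 q11
      have q21 : ¬ A18 := fun h => c12 h u0 q20
      have q22 : ¬ A6 := fun h => c6 u0 q21 h
      have q23 : A19 := Classical.byContradiction fun h => c7 h q4 q22
      have q24 : A7 := Classical.byContradiction fun h => c29 q19 q3 h
      have q25 : ¬ A23 := fun h => c30 h q18 q3
      have q26 : A17 := Classical.byContradiction fun h => c31 q24 q22 h
      have q27 : ¬ A24 := fun h => c33 h q25 q22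
      have q28 : ¬ A15 := fun h => c10 u0 q27 h
      have q29 : A26 := Classical.byContradiction fun h => c9 h q26 q28
      have q30 : A16 := Classical.byContradiction fun h => c34 q29 q27 h
      have q31 : ¬ A28 := fun h => c32 q30 h
      have q32 : A22 := Classical.byContradiction fun h => c35 q29 h q28
      have q33 : ¬ A14 := fun h => c36 h q23
      have q34 : A21 := Classical.byContradiction fun h => c37 q32 h q33
      have q35 : A25 := Classical.byContradiction fun h => c8 q33 q34 h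
      exact c38 q35 q31 q33
  · have q36 : ¬ A33 := fun h => c3 q1 q4 h
    have q37 : ¬ A29 := fun h => c15 h u0 q36
    have q38 : ¬ A10 := fun h => c17 h q4 u0
    have q39 : A37 := Classical.byContradiction fun h => c22 q2 q37 h
    have q40 : ¬ A40 := fun h => c25 q39 h
    have q41 : ¬ A34 := fun h => c5 q1 q40 h
    have q42 : A38 := Classical.byContradiction fun h => c4 h q39 q41
    have q43 : ¬ A36 := fun h => c24 h q42
    have q44 : A13 := Classical.byContradiction fun h => c26 q42 q38 h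
    have q45 : A9 := Classical.byContradiction fun h => c0 q1 h q44
    have q46 : A1 := Classical.byContradiction fun h => c1 q43 q45 h
    exact c11 q44 q46

theorem ser_AAE_2 {G : Type*} [Group G] {δ : G → ZMod 3} (hδ : ∀ u v, δ (u * v) = δ u + δ v) (o : Pre δ)
    {P m Q f g : G} {e : ZMod 3} (h3 : 3 * e = 0)
    (D : δ P = e ∧ δ m = -e ∧ δ Q = e ∧ δ f = 0 ∧ δ g = 0)
    (C : Cube P f ∧ Cube P g ∧ Cube m f ∧ Cube m g ∧ Cube Q f ∧ Cube Q g)
    (N0 : RA o P m f g)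
    (N1 : RA o Q m g f)
    (g0 : ¬ o.lt (P * f⁻¹) (P * g⁻¹)) (g1 : ¬ o.lt ((Q * g⁻¹)⁻¹) ((P * g⁻¹)⁻¹)) (g2 : o.lt ((P * f⁻¹)⁻¹) ((P * g⁻¹)⁻¹)) : False := by
  simp only [Cube] at C
  have e0 : δ (f * m⁻¹) = δ (P * f⁻¹) := by simp only [hδ, δinv hδ, δone hδ, D] <;> linear_combination (0) * h3
  have e1 : δ (g * m⁻¹) = δ (P * f⁻¹) := by simp only [hδ, δinv hδ, δone hδ, D] <;> linear_combination (0) * h3
  have e2 : δ (Q * g⁻¹) = δ (P * f⁻¹) := by simp only [hδ, δinv hδ, δone hδ, D] <;> linear_combination (0) * h3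
  have e3 : δ (Q * f⁻¹) = δ (P * f⁻¹) := by simp only [hδ, δinv hδ, δone hδ, D] <;> linear_combination (0) * h3
  have e4 : δ (m * P⁻¹) = δ (P * f⁻¹) := by simp only [hδ, δinv hδ, δone hδ, D] <;> linear_combination (-1) * h3
  have e5 : δ (f * P⁻¹) = δ (P * m⁻¹) := by simp only [hδ, δinv hδ, δone hδ, D] <;> linear_combination (-1) * h3
  have e6 : δ (f * P⁻¹) = δ (P * (f⁻¹ * (Q * g⁻¹))) := by simp only [hδ, δinv hδ, δone hδ, D] <;> linear_combination (-1) * h3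
  have e7 : δ (g * P⁻¹) = δ (f * P⁻¹) := by simp only [hδ, δinv hδ, δone hδ, D] <;> linear_combination (0) * h3
  have e8 : δ (m * g⁻¹) = δ (f * P⁻¹) := by simp only [hδ, δinv hδ, δone hδ, D] <;> linear_combination (0) * h3
  have e9 : δ (g * m⁻¹) = δ (P * g⁻¹) := by simp only [hδ, δinv hδ, δone hδ, D] <;> linear_combination (0) * h3
  have e10 : δ (g * Q⁻¹) = δ (f * P⁻¹) := by simp only [hδ, δinv hδ, δone hδ, D] <;> linear_combination (0) * h3
  have e11 : δ (P * f⁻¹) = δ (P * g⁻¹) := by simp only [hδ, δinv hδ, δone hδ, D] <;> linear_combination (0) * h3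
  have e12 : δ (P * f⁻¹) = δ (f * m⁻¹) := by simp only [hδ, δinv hδ, δone hδ, D] <;> linear_combination (0) * h3
  have e13 : δ (P * (m⁻¹ * (f * m⁻¹))) = δ (P * (f⁻¹ * (m * g⁻¹))) := by simp only [hδ, δinv hδ, δone hδ, D] <;> linear_combination (1) * h3
  have e14 : δ (P * (m⁻¹ * (f * m⁻¹))) = δ (P * Q⁻¹) := by simp only [hδ, δinv hδ, δone hδ, D] <;> linear_combination (1) * h3
  have e15 : δ (P * m⁻¹) = δ (P * (Q⁻¹ * (f * Q⁻¹))) := by simp only [hδ, δinv hδ, δone hδ, D] <;> linear_combination (1) * h3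
  have e16 : δ (P * m⁻¹) = δ (P * (f⁻¹ * (Q * g⁻¹))) := by simp only [hδ, δinv hδ, δone hδ, D] <;> linear_combination (0) * h3
  have e17 : δ (P * (f⁻¹ * (m * g⁻¹))) = δ (1) := by simp only [hδ, δinv hδ, δone hδ, D] <;> linear_combination (0) * h3
  have e18 : δ (P * (f⁻¹ * (m * g⁻¹))) = δ (P * (m⁻¹ * (f * m⁻¹))) := by simp only [hδ, δinv hδ, δone hδ, D] <;> linear_combination (-1) * h3
  have e19 : δ (P * f⁻¹) = δ (Q * g⁻¹) := by simp only [hδ, δinv hδ, δone hδ, D] <;> linear_combination (0) * h3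
  have e20 : δ (P * (f⁻¹ * (g * Q⁻¹))) = δ (P * (m⁻¹ * (f * m⁻¹))) := by simp only [hδ, δinv hδ, δone hδ, D] <;> linear_combination (-1) * h3
  have e21 : δ (P * (f⁻¹ * (Q * g⁻¹))) = δ (P * (f⁻¹ * (m * Q⁻¹))) := by simp only [hδ, δinv hδ, δone hδ, D] <;> linear_combination (1) * h3
  have e22 : δ (P * (f⁻¹ * (Q * g⁻¹))) = δ (f * P⁻¹) := by simp only [hδ, δinv hδ, δone hδ, D] <;> linear_combination (1) * h3
  have e23 : δ (P * (f⁻¹ * (Q * g⁻¹))) = δ (P * m⁻¹) := by simp only [hδ, δinv hδ, δone hδ, D] <;> linear_combination (0) * h3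
  have e24 : δ (P * (f⁻¹ * (Q * g⁻¹))) = δ (P * (f⁻¹ * (g * m⁻¹))) := by simp only [hδ, δinv hδ, δone hδ, D] <;> linear_combination (0) * h3
  have e25 : δ (P * (f⁻¹ * (Q * g⁻¹))) = δ (P * (Q⁻¹ * (f * Q⁻¹))) := by simp only [hδ, δinv hδ, δone hδ, D] <;> linear_combination (1) * h3
  have e26 : δ (P * g⁻¹) = δ (Q * g⁻¹) := by simp only [hδ, δinv hδ, δone hδ, D] <;> linear_combination (0) * h3
  have e27 : δ (P * (Q⁻¹ * (f * Q⁻¹))) = δ (P * m⁻¹) := by simp only [hδ, δinv hδ, δone hδ, D] <;> linear_combination (-1) * h3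
  have e28 : δ (P * f⁻¹) = δ (m * P⁻¹) := by simp only [hδ, δinv hδ, δone hδ, D] <;> linear_combination (1) * h3
  have e29 : δ (f * m⁻¹) = δ (g * m⁻¹) := by simp only [hδ, δinv hδ, δone hδ, D] <;> linear_combination (0) * h3
  have e30 : δ (P * g⁻¹) = δ (g * m⁻¹) := by simp only [hδ, δinv hδ, δone hδ, D] <;> linear_combination (0) * h3
  have e31 : δ (f * P⁻¹) = δ (g * Q⁻¹) := by simp only [hδ, δinv hδ, δone hδ, D] <;> linear_combination (0) * h3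
  have e32 : δ (g * P⁻¹) = δ (m * g⁻¹) := by simp only [hδ, δinv hδ, δone hδ, D] <;> linear_combination (0) * h3
  have e33 : δ (g * m⁻¹) = δ (Q * g⁻¹) := by simp only [hδ, δinv hδ, δone hδ, D] <;> linear_combination (0) * h3
  have e34 : δ (m * g⁻¹) = δ (g * P⁻¹) := by simp only [hδ, δinv hδ, δone hδ, D] <;> linear_combination (0) * h3
  have e35 : δ (m * f⁻¹) = δ (m * g⁻¹) := by simp only [hδ, δinv hδ, δone hδ, D] <;> linear_combination (0) * h3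
  have e36 : δ (m * f⁻¹) = δ (g * Q⁻¹) := by simp only [hδ, δinv hδ, δone hδ, D] <;> linear_combination (0) * h3
  have e37 : δ (m * g⁻¹) = δ (m * f⁻¹) := by simp only [hδ, δinv hδ, δone hδ, D] <;> linear_combination (0) * h3
  have e38 : δ (g * Q⁻¹) = δ (g * P⁻¹) := by simp only [hδ, δinv hδ, δone hδ, D] <;> linear_combination (0) * h3
  have e39 : δ (g * Q⁻¹) = δ (m * f⁻¹) := by simp only [hδ, δinv hδ, δone hδ, D] <;> linear_combination (0) * h3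
  have k0 : o.lt (g * P⁻¹) (f * P⁻¹) ↔ o.lt (1 * (g * P⁻¹)) (1 * (f * P⁻¹)) := o.cv hδ (1) e7 (by simp only [mul_assoc, mul_inv_rev, inv_inv, mul_inv_cancel_left, inv_mul_cancel_left, mul_inv_cancel, inv_mul_cancel, mul_one, one_mul, inv_one, C]) (by simp only [mul_assoc, mul_inv_rev, inv_inv, mul_inv_cancel_left, inv_mul_cancel_left, mul_inv_cancel, inv_mul_cancel, mul_one, one_mul, inv_one, C])
  have k1 : o.lt (m * g⁻¹) (f * P⁻¹) ↔ o.lt (1 * (m * g⁻¹)) (1 * (f * P⁻¹)) := o.cv hδ (1) e8 (by simp only [mul_assoc, mul_inv_rev, inv_inv, mul_inv_cancel_left, inv_mul_cancel_left, mul_inv_cancel, inv_mul_cancel, mul_one, one_mul, inv_one, C]) (by simp only [mul_assoc, mul_inv_rev, inv_inv, mul_inv_cancel_left, inv_mul_cancel_left, mul_inv_cancel, inv_mul_cancel, mul_one, one_mul, inv_one, C])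
  have k2 : o.lt (P * f⁻¹) (f * m⁻¹) ↔ o.lt (1 * (f * P⁻¹)⁻¹) (1 * (m * f⁻¹)⁻¹) := o.cv hδ (1) e12 (by simp only [mul_assoc, mul_inv_rev, inv_inv, mul_inv_cancel_left, inv_mul_cancel_left, mul_inv_cancel, inv_mul_cancel, mul_one, one_mul, inv_one, C]) (by simp only [mul_assoc, mul_inv_rev, inv_inv, mul_inv_cancel_left, inv_mul_cancel_left, mul_inv_cancel, inv_mul_cancel, mul_one, one_mul, inv_one, C])
  have k3 : o.lt (m * f⁻¹) (m * g⁻¹) ↔ o.lt (1 * (m * f⁻¹)) (1 * (m * g⁻¹)) := o.cv hδ (1) e35 (by simp only [mul_assoc, mul_inv_rev, inv_inv, mul_inv_cancel_left, inv_mul_cancel_left, mul_inv_cancel, inv_mul_cancel, mul_one, one_mul, inv_one, C]) (by simp only [mul_assoc, mul_inv_rev, inv_inv, mul_inv_cancel_left, inv_mul_cancel_left, mul_inv_cancel, inv_mul_cancel, mul_one, one_mul, inv_one, C])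
  have k4 : o.lt (f * m⁻¹) (P * f⁻¹) ↔ o.lt (1 * (m * f⁻¹)⁻¹) (1 * (f * P⁻¹)⁻¹) := o.cv hδ (1) e0 (by simp only [mul_assoc, mul_inv_rev, inv_inv, mul_inv_cancel_left, inv_mul_cancel_left, mul_inv_cancel, inv_mul_cancel, mul_one, one_mul, inv_one, C]) (by simp only [mul_assoc, mul_inv_rev, inv_inv, mul_inv_cancel_left, inv_mul_cancel_left, mul_inv_cancel, inv_mul_cancel, mul_one, one_mul, inv_one, C])
  have k5 : o.lt (P * f⁻¹) (P * g⁻¹) ↔ o.lt (1 * (P * f⁻¹)) (1 * (P * g⁻¹)) := o.cv hδ (1) e11 (by simp only [mul_assoc, mul_inv_rev, inv_inv, mul_inv_cancel_left, inv_mul_cancel_left, mul_inv_cancel, inv_mul_cancel, mul_one, one_mul, inv_one, C]) (by simp only [mul_assoc, mul_inv_rev, inv_inv, mul_inv_cancel_left, inv_mul_cancel_left, mul_inv_cancel, inv_mul_cancel, mul_one, one_mul, inv_one, C])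
  have k6 : o.lt (g * m⁻¹) (P * f⁻¹) ↔ o.lt (1 * (g * m⁻¹)) (1 * (P * f⁻¹)) := o.cv hδ (1) e1 (by simp only [mul_assoc, mul_inv_rev, inv_inv, mul_inv_cancel_left, inv_mul_cancel_left, mul_inv_cancel, inv_mul_cancel, mul_one, one_mul, inv_one, C]) (by simp only [mul_assoc, mul_inv_rev, inv_inv, mul_inv_cancel_left, inv_mul_cancel_left, mul_inv_cancel, inv_mul_cancel, mul_one, one_mul, inv_one, C])
  have k7 : o.lt (m * g⁻¹) (g * P⁻¹) ↔ o.lt (1 * (g * m⁻¹)⁻¹) (1 * (P * g⁻¹)⁻¹) := o.cv hδ (1) e34 (by simp only [mul_assoc, mul_inv_rev, inv_inv, mul_inv_cancel_left, inv_mul_cancel_left, mul_inv_cancel, inv_mul_cancel, mul_one, one_mul, inv_one, C]) (by simp only [mul_assoc, mul_inv_rev, inv_inv, mul_inv_cancel_left, inv_mul_cancel_left, mul_inv_cancel, inv_mul_cancel, mul_one, one_mul, inv_one, C])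
  have k8 : o.lt (g * P⁻¹) (f * P⁻¹) ↔ o.lt (1 * (g * m⁻¹)) (1 * (f * m⁻¹)) := o.cv hδ (P * m⁻¹) e7 (by simp only [mul_assoc, mul_inv_rev, inv_inv, mul_inv_cancel_left, inv_mul_cancel_left, mul_inv_cancel, inv_mul_cancel, mul_one, one_mul, inv_one, C]) (by simp only [mul_assoc, mul_inv_rev, inv_inv, mul_inv_cancel_left, inv_mul_cancel_left, mul_inv_cancel, inv_mul_cancel, mul_one, one_mul, inv_one, C])
  have k9 : o.lt (g * P⁻¹) (m * g⁻¹) ↔ o.lt (1 * (P * g⁻¹)⁻¹) (1 * (g * m⁻¹)⁻¹) := o.cv hδ (1) e32 (by simp only [mul_assoc, mul_inv_rev, inv_inv, mul_inv_cancel_left, inv_mul_cancel_left, mul_inv_cancel, inv_mul_cancel, mul_one, one_mul, inv_one, C]) (by simp only [mul_assoc, mul_inv_rev, inv_inv, mul_inv_cancel_left, inv_mul_cancel_left, mul_inv_cancel, inv_mul_cancel, mul_one, one_mul, inv_one, C])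
  have k10 : o.lt (m * g⁻¹) (m * f⁻¹) ↔ o.lt (1 * (m * g⁻¹)) (1 * (m * f⁻¹)) := o.cv hδ (1) e37 (by simp only [mul_assoc, mul_inv_rev, inv_inv, mul_inv_cancel_left, inv_mul_cancel_left, mul_inv_cancel, inv_mul_cancel, mul_one, one_mul, inv_one, C]) (by simp only [mul_assoc, mul_inv_rev, inv_inv, mul_inv_cancel_left, inv_mul_cancel_left, mul_inv_cancel, inv_mul_cancel, mul_one, one_mul, inv_one, C])
  have k11 : o.lt (m * f⁻¹) (g * Q⁻¹) ↔ o.lt (1 * (m * f⁻¹)) (1 * (g * Q⁻¹)) := o.cv hδ (1) e36 (by simp only [mul_assoc, mul_inv_rev, inv_inv, mul_inv_cancel_left, inv_mul_cancel_left, mul_inv_cancel, inv_mul_cancel, mul_one, one_mul, inv_one, C]) (by simp only [mul_assoc, mul_inv_rev, inv_inv, mul_inv_cancel_left, inv_mul_cancel_left, mul_inv_cancel, inv_mul_cancel, mul_one, one_mul, inv_one, C])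
  have k12 : o.lt (g * m⁻¹) (Q * g⁻¹) ↔ o.lt (1 * (m * g⁻¹)⁻¹) (1 * (g * Q⁻¹)⁻¹) := o.cv hδ (1) e33 (by simp only [mul_assoc, mul_inv_rev, inv_inv, mul_inv_cancel_left, inv_mul_cancel_left, mul_inv_cancel, inv_mul_cancel, mul_one, one_mul, inv_one, C]) (by simp only [mul_assoc, mul_inv_rev, inv_inv, mul_inv_cancel_left, inv_mul_cancel_left, mul_inv_cancel, inv_mul_cancel, mul_one, one_mul, inv_one, C])
  have k13 : o.lt (g * P⁻¹) (f * P⁻¹) ↔ o.lt (1 * (g * Q⁻¹)) (1 * (f * Q⁻¹)) := o.cv hδ (P * Q⁻¹) e7 (by simp only [mul_assoc, mul_inv_rev, inv_inv, mul_inv_cancel_left, inv_mul_cancel_left, mul_inv_cancel, inv_mul_cancel, mul_one, one_mul, inv_one, C]) (by simp only [mul_assoc, mul_inv_rev, inv_inv, mul_inv_cancel_left, inv_mul_cancel_left, mul_inv_cancel, inv_mul_cancel, mul_one, one_mul, inv_one, C])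
  have k14 : o.lt (g * Q⁻¹) (m * f⁻¹) ↔ o.lt (1 * (g * Q⁻¹)) (1 * (m * f⁻¹)) := o.cv hδ (1) e39 (by simp only [mul_assoc, mul_inv_rev, inv_inv, mul_inv_cancel_left, inv_mul_cancel_left, mul_inv_cancel, inv_mul_cancel, mul_one, one_mul, inv_one, C]) (by simp only [mul_assoc, mul_inv_rev, inv_inv, mul_inv_cancel_left, inv_mul_cancel_left, mul_inv_cancel, inv_mul_cancel, mul_one, one_mul, inv_one, C])
  have k15 : o.lt (P * f⁻¹) (P * g⁻¹) ↔ o.lt ((P * f⁻¹) * (g * P⁻¹)) ((P * f⁻¹) * (f * P⁻¹)) := o.cv hδ (g * P⁻¹) e11 (by simp only [mul_assoc, mul_inv_rev, inv_inv, mul_inv_cancel_left, inv_mul_cancel_left, mul_inv_cancel, inv_mul_cancel, mul_one, one_mul, inv_one, C]) (by simp only [mul_assoc, mul_inv_rev, inv_inv, mul_inv_cancel_left, inv_mul_cancel_left, mul_inv_cancel, inv_mul_cancel, mul_one, one_mul, inv_one, C])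
  have k16 : o.lt (P * (f⁻¹ * (m * g⁻¹))) (1) ↔ o.lt ((P * f⁻¹) * (m * g⁻¹)) ((P * f⁻¹) * (f * P⁻¹)) := o.cv hδ (1) e17 (by simp only [mul_assoc, mul_inv_rev, inv_inv, mul_inv_cancel_left, inv_mul_cancel_left, mul_inv_cancel, inv_mul_cancel, mul_one, one_mul, inv_one, C]) (by simp only [mul_assoc, mul_inv_rev, inv_inv, mul_inv_cancel_left, inv_mul_cancel_left, mul_inv_cancel, inv_mul_cancel, mul_one, one_mul, inv_one, C])
  have k17 : o.lt (f * P⁻¹) (P * m⁻¹) ↔ o.lt ((P * f⁻¹) * (f * P⁻¹)⁻¹) ((P * f⁻¹) * (m * f⁻¹)⁻¹) := o.cv hδ (P * (f⁻¹ * (P * (f⁻¹ * (P * f⁻¹))))) e5 (by simp only [mul_assoc, mul_inv_rev, inv_inv, mul_inv_cancel_left, inv_mul_cancel_left, mul_inv_cancel, inv_mul_cancel, mul_one, one_mul, inv_one, C]) (by simp only [mul_assoc, mul_inv_rev, inv_inv, mul_inv_cancel_left, inv_mul_cancel_left, mul_inv_cancel, inv_mul_cancel, mul_one, one_mul, inv_one, C])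
  have k18 : o.lt (P * (f⁻¹ * (m * g⁻¹))) (P * (m⁻¹ * (f * m⁻¹))) ↔ o.lt ((P * f⁻¹) * (m * g⁻¹)) ((P * f⁻¹) * (m * f⁻¹)) := o.cv hδ (1) e18 (by simp only [mul_assoc, mul_inv_rev, inv_inv, mul_inv_cancel_left, inv_mul_cancel_left, mul_inv_cancel, inv_mul_cancel, mul_one, one_mul, inv_one, C]) (by simp only [mul_assoc, mul_inv_rev, inv_inv, mul_inv_cancel_left, inv_mul_cancel_left, mul_inv_cancel, inv_mul_cancel, mul_one, one_mul, inv_one, C])
  have k19 : o.lt (g * m⁻¹) (P * f⁻¹) ↔ o.lt ((P * f⁻¹) * (f * P⁻¹)) ((P * f⁻¹) * (m * g⁻¹)) := o.cv hδ (m * g⁻¹) e1 (by simp only [mul_assoc, mul_inv_rev, inv_inv, mul_inv_cancel_left, inv_mul_cancel_left, mul_inv_cancel, inv_mul_cancel, mul_one, one_mul, inv_one, C]) (by simp only [mul_assoc, mul_inv_rev, inv_inv, mul_inv_cancel_left, inv_mul_cancel_left, mul_inv_cancel, inv_mul_cancel, mul_one, one_mul, inv_one, C])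
  have k20 : o.lt (P * (m⁻¹ * (f * m⁻¹))) (P * (f⁻¹ * (m * g⁻¹))) ↔ o.lt ((P * f⁻¹) * (m * f⁻¹)) ((P * f⁻¹) * (m * g⁻¹)) := o.cv hδ (m * (f⁻¹ * (m * (f⁻¹ * (m * f⁻¹))))) e13 (by simp only [mul_assoc, mul_inv_rev, inv_inv, mul_inv_cancel_left, inv_mul_cancel_left, mul_inv_cancel, inv_mul_cancel, mul_one, one_mul, inv_one, C]) (by simp only [mul_assoc, mul_inv_rev, inv_inv, mul_inv_cancel_left, inv_mul_cancel_left, mul_inv_cancel, inv_mul_cancel, mul_one, one_mul, inv_one, C])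
  have k21 : o.lt (P * (f⁻¹ * (g * Q⁻¹))) (P * (m⁻¹ * (f * m⁻¹))) ↔ o.lt ((P * f⁻¹) * (g * Q⁻¹)) ((P * f⁻¹) * (m * f⁻¹)) := o.cv hδ (1) e20 (by simp only [mul_assoc, mul_inv_rev, inv_inv, mul_inv_cancel_left, inv_mul_cancel_left, mul_inv_cancel, inv_mul_cancel, mul_one, one_mul, inv_one, C]) (by simp only [mul_assoc, mul_inv_rev, inv_inv, mul_inv_cancel_left, inv_mul_cancel_left, mul_inv_cancel, inv_mul_cancel, mul_one, one_mul, inv_one, C])
  have k22 : o.lt (P * (f⁻¹ * (Q * g⁻¹))) (P * (f⁻¹ * (g * m⁻¹))) ↔ o.lt ((P * f⁻¹) * (g * Q⁻¹)⁻¹) ((P * f⁻¹) * (m * g⁻¹)⁻¹) := o.cv hδ (1) e24 (by simp only [mul_assoc, mul_inv_rev, inv_inv, mul_inv_cancel_left, inv_mul_cancel_left, mul_inv_cancel, inv_mul_cancel, mul_one, one_mul, inv_one, C]) (by simp only [mul_assoc, mul_inv_rev, inv_inv, mul_inv_cancel_left, inv_mul_cancel_left, mul_inv_cancel, inv_mul_cancel, mul_one, one_mul, inv_one, C])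
  have k23 : o.lt (P * (f⁻¹ * (Q * g⁻¹))) (P * (Q⁻¹ * (f * Q⁻¹))) ↔ o.lt ((P * f⁻¹) * (Q * g⁻¹)) ((P * f⁻¹) * (Q * f⁻¹)) := o.cv hδ (1) e25 (by simp only [mul_assoc, mul_inv_rev, inv_inv, mul_inv_cancel_left, inv_mul_cancel_left, mul_inv_cancel, inv_mul_cancel, mul_one, one_mul, inv_one, C]) (by simp only [mul_assoc, mul_inv_rev, inv_inv, mul_inv_cancel_left, inv_mul_cancel_left, mul_inv_cancel, inv_mul_cancel, mul_one, one_mul, inv_one, C])
  have k24 : o.lt (P * m⁻¹) (P * (f⁻¹ * (Q * g⁻¹))) ↔ o.lt ((P * f⁻¹) * (f * m⁻¹)) ((P * f⁻¹) * (Q * g⁻¹)) := o.cv hδ (1) e16 (by simp only [mul_assoc, mul_inv_rev, inv_inv, mul_inv_cancel_left, inv_mul_cancel_left, mul_inv_cancel, inv_mul_cancel, mul_one, one_mul, inv_one, C]) (by simp only [mul_assoc, mul_inv_rev, inv_inv, mul_inv_cancel_left, inv_mul_cancel_left, mul_inv_cancel, inv_mul_cancel, mul_one, one_mul, inv_one, C])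
  have k25 : o.lt (P * (m⁻¹ * (f * m⁻¹))) (P * Q⁻¹) ↔ o.lt ((P * f⁻¹) * (f * m⁻¹)⁻¹) ((P * f⁻¹) * (Q * f⁻¹)⁻¹) := o.cv hδ (m * (f⁻¹ * (m * (f⁻¹ * (m * f⁻¹))))) e14 (by simp only [mul_assoc, mul_inv_rev, inv_inv, mul_inv_cancel_left, inv_mul_cancel_left, mul_inv_cancel, inv_mul_cancel, mul_one, one_mul, inv_one, C]) (by simp only [mul_assoc, mul_inv_rev, inv_inv, mul_inv_cancel_left, inv_mul_cancel_left, mul_inv_cancel, inv_mul_cancel, mul_one, one_mul, inv_one, C])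
  have k26 : o.lt (P * f⁻¹) (P * g⁻¹) ↔ o.lt ((P * f⁻¹) * (g * m⁻¹)) ((P * f⁻¹) * (f * m⁻¹)) := o.cv hδ (g * m⁻¹) e11 (by simp only [mul_assoc, mul_inv_rev, inv_inv, mul_inv_cancel_left, inv_mul_cancel_left, mul_inv_cancel, inv_mul_cancel, mul_one, one_mul, inv_one, C]) (by simp only [mul_assoc, mul_inv_rev, inv_inv, mul_inv_cancel_left, inv_mul_cancel_left, mul_inv_cancel, inv_mul_cancel, mul_one, one_mul, inv_one, C])
  have k27 : o.lt (P * (f⁻¹ * (Q * g⁻¹))) (P * m⁻¹) ↔ o.lt ((P * f⁻¹) * (Q * g⁻¹)) ((P * f⁻¹) * (f * m⁻¹)) := o.cv hδ (1) e23 (by simp only [mul_assoc, mul_inv_rev, inv_inv, mul_inv_cancel_left, inv_mul_cancel_left, mul_inv_cancel, inv_mul_cancel, mul_one, one_mul, inv_one, C]) (by simp only [mul_assoc, mul_inv_rev, inv_inv, mul_inv_cancel_left, inv_mul_cancel_left, mul_inv_cancel, inv_mul_cancel, mul_one, one_mul, inv_one, C])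
  have k28 : o.lt (P * f⁻¹) (f * m⁻¹) ↔ o.lt (P * f⁻¹) (f * m⁻¹) := o.cv hδ (1) e12 (by simp only [mul_assoc, mul_inv_rev, inv_inv, mul_inv_cancel_left, inv_mul_cancel_left, mul_inv_cancel, inv_mul_cancel, mul_one, one_mul, inv_one, C]) (by simp only [mul_assoc, mul_inv_rev, inv_inv, mul_inv_cancel_left, inv_mul_cancel_left, mul_inv_cancel, inv_mul_cancel, mul_one, one_mul, inv_one, C])
  have k29 : o.lt (f * m⁻¹) (P * f⁻¹) ↔ o.lt (f * m⁻¹) (P * f⁻¹) := o.cv hδ (1) e0 (by simp only [mul_assoc, mul_inv_rev, inv_inv, mul_inv_cancel_left, inv_mul_cancel_left, mul_inv_cancel, inv_mul_cancel, mul_one, one_mul, inv_one, C]) (by simp only [mul_assoc, mul_inv_rev, inv_inv, mul_inv_cancel_left, inv_mul_cancel_left, mul_inv_cancel, inv_mul_cancel, mul_one, one_mul, inv_one, C])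
  have k30 : o.lt (P * (f⁻¹ * (m * g⁻¹))) (1) ↔ o.lt (P * f⁻¹) (g * m⁻¹) := o.cv hδ (g * m⁻¹) e17 (by simp only [mul_assoc, mul_inv_rev, inv_inv, mul_inv_cancel_left, inv_mul_cancel_left, mul_inv_cancel, inv_mul_cancel, mul_one, one_mul, inv_one, C]) (by simp only [mul_assoc, mul_inv_rev, inv_inv, mul_inv_cancel_left, inv_mul_cancel_left, mul_inv_cancel, inv_mul_cancel, mul_one, one_mul, inv_one, C])
  have k31 : o.lt (P * f⁻¹) (P * g⁻¹) ↔ o.lt (P * f⁻¹) (P * g⁻¹) := o.cv hδ (1) e11 (by simp only [mul_assoc, mul_inv_rev, inv_inv, mul_inv_cancel_left, inv_mul_cancel_left, mul_inv_cancel, inv_mul_cancel, mul_one, one_mul, inv_one, C]) (by simp only [mul_assoc, mul_inv_rev, inv_inv, mul_inv_cancel_left, inv_mul_cancel_left, mul_inv_cancel, inv_mul_cancel, mul_one, one_mul, inv_one, C])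
  have k32 : o.lt (P * g⁻¹) (g * m⁻¹) ↔ o.lt (P * g⁻¹) (g * m⁻¹) := o.cv hδ (1) e30 (by simp only [mul_assoc, mul_inv_rev, inv_inv, mul_inv_cancel_left, inv_mul_cancel_left, mul_inv_cancel, inv_mul_cancel, mul_one, one_mul, inv_one, C]) (by simp only [mul_assoc, mul_inv_rev, inv_inv, mul_inv_cancel_left, inv_mul_cancel_left, mul_inv_cancel, inv_mul_cancel, mul_one, one_mul, inv_one, C])
  have k33 : o.lt (P * f⁻¹) (Q * g⁻¹) ↔ o.lt (P * f⁻¹) (Q * g⁻¹) := o.cv hδ (1) e19 (by simp only [mul_assoc, mul_inv_rev, inv_inv, mul_inv_cancel_left, inv_mul_cancel_left, mul_inv_cancel, inv_mul_cancel, mul_one, one_mul, inv_one, C]) (by simp only [mul_assoc, mul_inv_rev, inv_inv, mul_inv_cancel_left, inv_mul_cancel_left, mul_inv_cancel, inv_mul_cancel, mul_one, one_mul, inv_one, C])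
  have k34 : o.lt (P * g⁻¹) (Q * g⁻¹) ↔ o.lt (P * g⁻¹) (Q * g⁻¹) := o.cv hδ (1) e26 (by simp only [mul_assoc, mul_inv_rev, inv_inv, mul_inv_cancel_left, inv_mul_cancel_left, mul_inv_cancel, inv_mul_cancel, mul_one, one_mul, inv_one, C]) (by simp only [mul_assoc, mul_inv_rev, inv_inv, mul_inv_cancel_left, inv_mul_cancel_left, mul_inv_cancel, inv_mul_cancel, mul_one, one_mul, inv_one, C])
  have k35 : o.lt (P * g⁻¹) (Q * g⁻¹) ↔ o.lt (P * f⁻¹) (Q * f⁻¹) := o.cv hδ (g * f⁻¹) e26 (by simp only [mul_assoc, mul_inv_rev, inv_inv, mul_inv_cancel_left, inv_mul_cancel_left, mul_inv_cancel, inv_mul_cancel, mul_one, one_mul, inv_one, C]) (by simp only [mul_assoc, mul_inv_rev, inv_inv, mul_inv_cancel_left, inv_mul_cancel_left, mul_inv_cancel, inv_mul_cancel, mul_one, one_mul, inv_one, C])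
  have k36 : o.lt (Q * f⁻¹) (P * f⁻¹) ↔ o.lt (Q * f⁻¹) (P * f⁻¹) := o.cv hδ (1) e3 (by simp only [mul_assoc, mul_inv_rev, inv_inv, mul_inv_cancel_left, inv_mul_cancel_left, mul_inv_cancel, inv_mul_cancel, mul_one, one_mul, inv_one, C]) (by simp only [mul_assoc, mul_inv_rev, inv_inv, mul_inv_cancel_left, inv_mul_cancel_left, mul_inv_cancel, inv_mul_cancel, mul_one, one_mul, inv_one, C])
  have k37 : o.lt (P * f⁻¹) (m * P⁻¹) ↔ o.lt (P * f⁻¹) (m * P⁻¹) := o.cv hδ (1) e28 (by simp only [mul_assoc, mul_inv_rev, inv_inv, mul_inv_cancel_left, inv_mul_cancel_left, mul_inv_cancel, inv_mul_cancel, mul_one, one_mul, inv_one, C]) (by simp only [mul_assoc, mul_inv_rev, inv_inv, mul_inv_cancel_left, inv_mul_cancel_left, mul_inv_cancel, inv_mul_cancel, mul_one, one_mul, inv_one, C])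
  have k38 : o.lt (g * P⁻¹) (m * g⁻¹) ↔ o.lt (P * g⁻¹) (m * P⁻¹) := o.cv hδ (P * (g⁻¹ * (P * g⁻¹))) e32 (by simp only [mul_assoc, mul_inv_rev, inv_inv, mul_inv_cancel_left, inv_mul_cancel_left, mul_inv_cancel, inv_mul_cancel, mul_one, one_mul, inv_one, C]) (by simp only [mul_assoc, mul_inv_rev, inv_inv, mul_inv_cancel_left, inv_mul_cancel_left, mul_inv_cancel, inv_mul_cancel, mul_one, one_mul, inv_one, C])
  have k39 : o.lt (f * m⁻¹) (g * m⁻¹) ↔ o.lt (f * m⁻¹) (g * m⁻¹) := o.cv hδ (1) e29 (by simp only [mul_assoc, mul_inv_rev, inv_inv, mul_inv_cancel_left, inv_mul_cancel_left, mul_inv_cancel, inv_mul_cancel, mul_one, one_mul, inv_one, C]) (by simp only [mul_assoc, mul_inv_rev, inv_inv, mul_inv_cancel_left, inv_mul_cancel_left, mul_inv_cancel, inv_mul_cancel, mul_one, one_mul, inv_one, C])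
  have k40 : o.lt (g * P⁻¹) (f * P⁻¹) ↔ o.lt (g * m⁻¹) (f * m⁻¹) := o.cv hδ (P * m⁻¹) e7 (by simp only [mul_assoc, mul_inv_rev, inv_inv, mul_inv_cancel_left, inv_mul_cancel_left, mul_inv_cancel, inv_mul_cancel, mul_one, one_mul, inv_one, C]) (by simp only [mul_assoc, mul_inv_rev, inv_inv, mul_inv_cancel_left, inv_mul_cancel_left, mul_inv_cancel, inv_mul_cancel, mul_one, one_mul, inv_one, C])
  have k41 : o.lt (g * m⁻¹) (P * g⁻¹) ↔ o.lt (g * m⁻¹) (P * g⁻¹) := o.cv hδ (1) e9 (by simp only [mul_assoc, mul_inv_rev, inv_inv, mul_inv_cancel_left, inv_mul_cancel_left, mul_inv_cancel, inv_mul_cancel, mul_one, one_mul, inv_one, C]) (by simp only [mul_assoc, mul_inv_rev, inv_inv, mul_inv_cancel_left, inv_mul_cancel_left, mul_inv_cancel, inv_mul_cancel, mul_one, one_mul, inv_one, C])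
  have k42 : o.lt (g * m⁻¹) (P * f⁻¹) ↔ o.lt (g * m⁻¹) (P * f⁻¹) := o.cv hδ (1) e1 (by simp only [mul_assoc, mul_inv_rev, inv_inv, mul_inv_cancel_left, inv_mul_cancel_left, mul_inv_cancel, inv_mul_cancel, mul_one, one_mul, inv_one, C]) (by simp only [mul_assoc, mul_inv_rev, inv_inv, mul_inv_cancel_left, inv_mul_cancel_left, mul_inv_cancel, inv_mul_cancel, mul_one, one_mul, inv_one, C])
  have k43 : o.lt (g * m⁻¹) (Q * g⁻¹) ↔ o.lt (g * m⁻¹) (Q * g⁻¹) := o.cv hδ (1) e33 (by simp only [mul_assoc, mul_inv_rev, inv_inv, mul_inv_cancel_left, inv_mul_cancel_left, mul_inv_cancel, inv_mul_cancel, mul_one, one_mul, inv_one, C]) (by simp only [mul_assoc, mul_inv_rev, inv_inv, mul_inv_cancel_left, inv_mul_cancel_left, mul_inv_cancel, inv_mul_cancel, mul_one, one_mul, inv_one, C])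
  have k44 : o.lt (Q * f⁻¹) (P * f⁻¹) ↔ o.lt (Q * g⁻¹) (P * g⁻¹) := o.cv hδ (f * g⁻¹) e3 (by simp only [mul_assoc, mul_inv_rev, inv_inv, mul_inv_cancel_left, inv_mul_cancel_left, mul_inv_cancel, inv_mul_cancel, mul_one, one_mul, inv_one, C]) (by simp only [mul_assoc, mul_inv_rev, inv_inv, mul_inv_cancel_left, inv_mul_cancel_left, mul_inv_cancel, inv_mul_cancel, mul_one, one_mul, inv_one, C])
  have k45 : o.lt (Q * g⁻¹) (P * f⁻¹) ↔ o.lt (Q * g⁻¹) (P * f⁻¹) := o.cv hδ (1) e2 (by simp only [mul_assoc, mul_inv_rev, inv_inv, mul_inv_cancel_left, inv_mul_cancel_left, mul_inv_cancel, inv_mul_cancel, mul_one, one_mul, inv_one, C]) (by simp only [mul_assoc, mul_inv_rev, inv_inv, mul_inv_cancel_left, inv_mul_cancel_left, mul_inv_cancel, inv_mul_cancel, mul_one, one_mul, inv_one, C])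
  have k46 : o.lt (m * g⁻¹) (g * P⁻¹) ↔ o.lt (m * P⁻¹) (P * g⁻¹) := o.cv hδ (g * P⁻¹) e34 (by simp only [mul_assoc, mul_inv_rev, inv_inv, mul_inv_cancel_left, inv_mul_cancel_left, mul_inv_cancel, inv_mul_cancel, mul_one, one_mul, inv_one, C]) (by simp only [mul_assoc, mul_inv_rev, inv_inv, mul_inv_cancel_left, inv_mul_cancel_left, mul_inv_cancel, inv_mul_cancel, mul_one, one_mul, inv_one, C])
  have k47 : o.lt (m * P⁻¹) (P * f⁻¹) ↔ o.lt (m * P⁻¹) (P * f⁻¹) := o.cv hδ (1) e4 (by simp only [mul_assoc, mul_inv_rev, inv_inv, mul_inv_cancel_left, inv_mul_cancel_left, mul_inv_cancel, inv_mul_cancel, mul_one, one_mul, inv_one, C]) (by simp only [mul_assoc, mul_inv_rev, inv_inv, mul_inv_cancel_left, inv_mul_cancel_left, mul_inv_cancel, inv_mul_cancel, mul_one, one_mul, inv_one, C])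
  have k48 : o.lt (f * m⁻¹) (g * m⁻¹) ↔ o.lt (f * P⁻¹) (g * P⁻¹) := o.cv hδ (m * P⁻¹) e29 (by simp only [mul_assoc, mul_inv_rev, inv_inv, mul_inv_cancel_left, inv_mul_cancel_left, mul_inv_cancel, inv_mul_cancel, mul_one, one_mul, inv_one, C]) (by simp only [mul_assoc, mul_inv_rev, inv_inv, mul_inv_cancel_left, inv_mul_cancel_left, mul_inv_cancel, inv_mul_cancel, mul_one, one_mul, inv_one, C])
  have k49 : o.lt (f * P⁻¹) (g * Q⁻¹) ↔ o.lt (f * P⁻¹) (g * Q⁻¹) := o.cv hδ (1) e31 (by simp only [mul_assoc, mul_inv_rev, inv_inv, mul_inv_cancel_left, inv_mul_cancel_left, mul_inv_cancel, inv_mul_cancel, mul_one, one_mul, inv_one, C]) (by simp only [mul_assoc, mul_inv_rev, inv_inv, mul_inv_cancel_left, inv_mul_cancel_left, mul_inv_cancel, inv_mul_cancel, mul_one, one_mul, inv_one, C])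
  have k50 : o.lt (g * Q⁻¹) (g * P⁻¹) ↔ o.lt (g * Q⁻¹) (g * P⁻¹) := o.cv hδ (1) e38 (by simp only [mul_assoc, mul_inv_rev, inv_inv, mul_inv_cancel_left, inv_mul_cancel_left, mul_inv_cancel, inv_mul_cancel, mul_one, one_mul, inv_one, C]) (by simp only [mul_assoc, mul_inv_rev, inv_inv, mul_inv_cancel_left, inv_mul_cancel_left, mul_inv_cancel, inv_mul_cancel, mul_one, one_mul, inv_one, C])
  have k51 : o.lt (P * f⁻¹) (m * P⁻¹) ↔ o.lt (f * P⁻¹) (m * f⁻¹) := o.cv hδ (f * (P⁻¹ * (f * P⁻¹))) e28 (by simp only [mul_assoc, mul_inv_rev, inv_inv, mul_inv_cancel_left, inv_mul_cancel_left, mul_inv_cancel, inv_mul_cancel, mul_one, one_mul, inv_one, C]) (by simp only [mul_assoc, mul_inv_rev, inv_inv, mul_inv_cancel_left, inv_mul_cancel_left, mul_inv_cancel, inv_mul_cancel, mul_one, one_mul, inv_one, C])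
  have k52 : o.lt (m * f⁻¹) (g * Q⁻¹) ↔ o.lt (m * f⁻¹) (g * Q⁻¹) := o.cv hδ (1) e36 (by simp only [mul_assoc, mul_inv_rev, inv_inv, mul_inv_cancel_left, inv_mul_cancel_left, mul_inv_cancel, inv_mul_cancel, mul_one, one_mul, inv_one, C]) (by simp only [mul_assoc, mul_inv_rev, inv_inv, mul_inv_cancel_left, inv_mul_cancel_left, mul_inv_cancel, inv_mul_cancel, mul_one, one_mul, inv_one, C])
  have k53 : o.lt (m * P⁻¹) (P * f⁻¹) ↔ o.lt (m * f⁻¹) (f * P⁻¹) := o.cv hδ (P * f⁻¹) e4 (by simp only [mul_assoc, mul_inv_rev, inv_inv, mul_inv_cancel_left, inv_mul_cancel_left, mul_inv_cancel, inv_mul_cancel, mul_one, one_mul, inv_one, C]) (by simp only [mul_assoc, mul_inv_rev, inv_inv, mul_inv_cancel_left, inv_mul_cancel_left, mul_inv_cancel, inv_mul_cancel, mul_one, one_mul, inv_one, C])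
  have k54 : o.lt (g * Q⁻¹) (f * P⁻¹) ↔ o.lt (g * Q⁻¹) (f * P⁻¹) := o.cv hδ (1) e10 (by simp only [mul_assoc, mul_inv_rev, inv_inv, mul_inv_cancel_left, inv_mul_cancel_left, mul_inv_cancel, inv_mul_cancel, mul_one, one_mul, inv_one, C]) (by simp only [mul_assoc, mul_inv_rev, inv_inv, mul_inv_cancel_left, inv_mul_cancel_left, mul_inv_cancel, inv_mul_cancel, mul_one, one_mul, inv_one, C])
  have k55 : o.lt (m * f⁻¹) (m * g⁻¹) ↔ o.lt (m * f⁻¹) (m * g⁻¹) := o.cv hδ (1) e35 (by simp only [mul_assoc, mul_inv_rev, inv_inv, mul_inv_cancel_left, inv_mul_cancel_left, mul_inv_cancel, inv_mul_cancel, mul_one, one_mul, inv_one, C]) (by simp only [mul_assoc, mul_inv_rev, inv_inv, mul_inv_cancel_left, inv_mul_cancel_left, mul_inv_cancel, inv_mul_cancel, mul_one, one_mul, inv_one, C])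
  have k56 : o.lt (m * g⁻¹) (m * f⁻¹) ↔ o.lt (m * g⁻¹) (m * f⁻¹) := o.cv hδ (1) e37 (by simp only [mul_assoc, mul_inv_rev, inv_inv, mul_inv_cancel_left, inv_mul_cancel_left, mul_inv_cancel, inv_mul_cancel, mul_one, one_mul, inv_one, C]) (by simp only [mul_assoc, mul_inv_rev, inv_inv, mul_inv_cancel_left, inv_mul_cancel_left, mul_inv_cancel, inv_mul_cancel, mul_one, one_mul, inv_one, C])
  have k57 : o.lt (g * Q⁻¹) (m * f⁻¹) ↔ o.lt (g * Q⁻¹) (m * f⁻¹) := o.cv hδ (1) e39 (by simp only [mul_assoc, mul_inv_rev, inv_inv, mul_inv_cancel_left, inv_mul_cancel_left, mul_inv_cancel, inv_mul_cancel, mul_one, one_mul, inv_one, C]) (by simp only [mul_assoc, mul_inv_rev, inv_inv, mul_inv_cancel_left, inv_mul_cancel_left, mul_inv_cancel, inv_mul_cancel, mul_one, one_mul, inv_one, C])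
  have k58 : o.lt (g * m⁻¹) (P * g⁻¹) ↔ o.lt (m * g⁻¹) (P * m⁻¹) := o.cv hδ (m * (g⁻¹ * (m * g⁻¹))) e9 (by simp only [mul_assoc, mul_inv_rev, inv_inv, mul_inv_cancel_left, inv_mul_cancel_left, mul_inv_cancel, inv_mul_cancel, mul_one, one_mul, inv_one, C]) (by simp only [mul_assoc, mul_inv_rev, inv_inv, mul_inv_cancel_left, inv_mul_cancel_left, mul_inv_cancel, inv_mul_cancel, mul_one, one_mul, inv_one, C])
  have k59 : o.lt (P * f⁻¹) (f * m⁻¹) ↔ o.lt (P * m⁻¹) (m * f⁻¹) := o.cv hδ (f * m⁻¹) e12 (by simp only [mul_assoc, mul_inv_rev, inv_inv, mul_inv_cancel_left, inv_mul_cancel_left, mul_inv_cancel, inv_mul_cancel, mul_one, one_mul, inv_one, C]) (by simp only [mul_assoc, mul_inv_rev, inv_inv, mul_inv_cancel_left, inv_mul_cancel_left, mul_inv_cancel, inv_mul_cancel, mul_one, one_mul, inv_one, C])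
  have k60 : o.lt (g * P⁻¹) (f * P⁻¹) ↔ o.lt (g * P⁻¹) (f * P⁻¹) := o.cv hδ (1) e7 (by simp only [mul_assoc, mul_inv_rev, inv_inv, mul_inv_cancel_left, inv_mul_cancel_left, mul_inv_cancel, inv_mul_cancel, mul_one, one_mul, inv_one, C]) (by simp only [mul_assoc, mul_inv_rev, inv_inv, mul_inv_cancel_left, inv_mul_cancel_left, mul_inv_cancel, inv_mul_cancel, mul_one, one_mul, inv_one, C])
  have k61 : o.lt (P * g⁻¹) (g * m⁻¹) ↔ o.lt (P * m⁻¹) (m * g⁻¹) := o.cv hδ (g * m⁻¹) e30 (by simp only [mul_assoc, mul_inv_rev, inv_inv, mul_inv_cancel_left, inv_mul_cancel_left, mul_inv_cancel, inv_mul_cancel, mul_one, one_mul, inv_one, C]) (by simp only [mul_assoc, mul_inv_rev, inv_inv, mul_inv_cancel_left, inv_mul_cancel_left, mul_inv_cancel, inv_mul_cancel, mul_one, one_mul, inv_one, C])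
  have k62 : o.lt (Q * g⁻¹) (P * f⁻¹) ↔ o.lt (g * Q⁻¹) (P * (f⁻¹ * (Q * g⁻¹))) := o.cv hδ (g * (Q⁻¹ * (g * Q⁻¹))) e2 (by simp only [mul_assoc, mul_inv_rev, inv_inv, mul_inv_cancel_left, inv_mul_cancel_left, mul_inv_cancel, inv_mul_cancel, mul_one, one_mul, inv_one, C]) (by simp only [mul_assoc, mul_inv_rev, inv_inv, mul_inv_cancel_left, inv_mul_cancel_left, mul_inv_cancel, inv_mul_cancel, mul_one, one_mul, inv_one, C])
  have k63 : o.lt (f * P⁻¹) (P * (f⁻¹ * (Q * g⁻¹))) ↔ o.lt (f * P⁻¹) (P * (f⁻¹ * (Q * g⁻¹))) := o.cv hδ (1) e6 (by simp only [mul_assoc, mul_inv_rev, inv_inv, mul_inv_cancel_left, inv_mul_cancel_left, mul_inv_cancel, inv_mul_cancel, mul_one, one_mul, inv_one, C]) (by simp only [mul_assoc, mul_inv_rev, inv_inv, mul_inv_cancel_left, inv_mul_cancel_left, mul_inv_cancel, inv_mul_cancel, mul_one, one_mul, inv_one, C])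
  have k64 : o.lt (P * (f⁻¹ * (Q * g⁻¹))) (f * P⁻¹) ↔ o.lt (P * (f⁻¹ * (Q * g⁻¹))) (f * P⁻¹) := o.cv hδ (1) e22 (by simp only [mul_assoc, mul_inv_rev, inv_inv, mul_inv_cancel_left, inv_mul_cancel_left, mul_inv_cancel, inv_mul_cancel, mul_one, one_mul, inv_one, C]) (by simp only [mul_assoc, mul_inv_rev, inv_inv, mul_inv_cancel_left, inv_mul_cancel_left, mul_inv_cancel, inv_mul_cancel, mul_one, one_mul, inv_one, C])
  have k65 : o.lt (P * f⁻¹) (Q * g⁻¹) ↔ o.lt (P * (f⁻¹ * (Q * g⁻¹))) (g * Q⁻¹) := o.cv hδ (Q * g⁻¹) e19 (by simp only [mul_assoc, mul_inv_rev, inv_inv, mul_inv_cancel_left, inv_mul_cancel_left, mul_inv_cancel, inv_mul_cancel, mul_one, one_mul, inv_one, C]) (by simp only [mul_assoc, mul_inv_rev, inv_inv, mul_inv_cancel_left, inv_mul_cancel_left, mul_inv_cancel, inv_mul_cancel, mul_one, one_mul, inv_one, C])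
  have k66 : o.lt (f * P⁻¹) (P * m⁻¹) ↔ o.lt (f * P⁻¹) (P * m⁻¹) := o.cv hδ (1) e5 (by simp only [mul_assoc, mul_inv_rev, inv_inv, mul_inv_cancel_left, inv_mul_cancel_left, mul_inv_cancel, inv_mul_cancel, mul_one, one_mul, inv_one, C]) (by simp only [mul_assoc, mul_inv_rev, inv_inv, mul_inv_cancel_left, inv_mul_cancel_left, mul_inv_cancel, inv_mul_cancel, mul_one, one_mul, inv_one, C])
  have k67 : o.lt (P * m⁻¹) (P * (f⁻¹ * (Q * g⁻¹))) ↔ o.lt (P * m⁻¹) (P * (f⁻¹ * (Q * g⁻¹))) := o.cv hδ (1) e16 (by simp only [mul_assoc, mul_inv_rev, inv_inv, mul_inv_cancel_left, inv_mul_cancel_left, mul_inv_cancel, inv_mul_cancel, mul_one, one_mul, inv_one, C]) (by simp only [mul_assoc, mul_inv_rev, inv_inv, mul_inv_cancel_left, inv_mul_cancel_left, mul_inv_cancel, inv_mul_cancel, mul_one, one_mul, inv_one, C])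
  have k68 : o.lt (P * m⁻¹) (P * (Q⁻¹ * (f * Q⁻¹))) ↔ o.lt (P * m⁻¹) (P * (f⁻¹ * (Q * f⁻¹))) := o.cv hδ (1) e15 (by simp only [mul_assoc, mul_inv_rev, inv_inv, mul_inv_cancel_left, inv_mul_cancel_left, mul_inv_cancel, inv_mul_cancel, mul_one, one_mul, inv_one, C]) (by simp only [mul_assoc, mul_inv_rev, inv_inv, mul_inv_cancel_left, inv_mul_cancel_left, mul_inv_cancel, inv_mul_cancel, mul_one, one_mul, inv_one, C])
  have k69 : o.lt (P * (Q⁻¹ * (f * Q⁻¹))) (P * m⁻¹) ↔ o.lt (P * (f⁻¹ * (Q * f⁻¹))) (P * m⁻¹) := o.cv hδ (Q * (f⁻¹ * (Q * (f⁻¹ * (Q * f⁻¹))))) e27 (by simp only [mul_assoc, mul_inv_rev, inv_inv, mul_inv_cancel_left, inv_mul_cancel_left, mul_inv_cancel, inv_mul_cancel, mul_one, one_mul, inv_one, C]) (by simp only [mul_assoc, mul_inv_rev, inv_inv, mul_inv_cancel_left, inv_mul_cancel_left, mul_inv_cancel, inv_mul_cancel, mul_one, one_mul, inv_one, C])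
  have k70 : o.lt (P * (f⁻¹ * (Q * g⁻¹))) (P * m⁻¹) ↔ o.lt (P * (f⁻¹ * (Q * g⁻¹))) (P * m⁻¹) := o.cv hδ (1) e23 (by simp only [mul_assoc, mul_inv_rev, inv_inv, mul_inv_cancel_left, inv_mul_cancel_left, mul_inv_cancel, inv_mul_cancel, mul_one, one_mul, inv_one, C]) (by simp only [mul_assoc, mul_inv_rev, inv_inv, mul_inv_cancel_left, inv_mul_cancel_left, mul_inv_cancel, inv_mul_cancel, mul_one, one_mul, inv_one, C])
  have k71 : o.lt (P * (f⁻¹ * (Q * g⁻¹))) (P * (Q⁻¹ * (f * Q⁻¹))) ↔ o.lt (P * (f⁻¹ * (Q * g⁻¹))) (P * (f⁻¹ * (Q * f⁻¹))) := o.cv hδ (1) e25 (by simp only [mul_assoc, mul_inv_rev, inv_inv, mul_inv_cancel_left, inv_mul_cancel_left, mul_inv_cancel, inv_mul_cancel, mul_one, one_mul, inv_one, C]) (by simp only [mul_assoc, mul_inv_rev, inv_inv, mul_inv_cancel_left, inv_mul_cancel_left, mul_inv_cancel, inv_mul_cancel, mul_one, one_mul, inv_one, C])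
  have k72 : o.lt (P * (f⁻¹ * (Q * g⁻¹))) (P * (f⁻¹ * (m * Q⁻¹))) ↔ o.lt (P * (f⁻¹ * (Q * g⁻¹))) (P * (f⁻¹ * (m * Q⁻¹))) := o.cv hδ (1) e21 (by simp only [mul_assoc, mul_inv_rev, inv_inv, mul_inv_cancel_left, inv_mul_cancel_left, mul_inv_cancel, inv_mul_cancel, mul_one, one_mul, inv_one, C]) (by simp only [mul_assoc, mul_inv_rev, inv_inv, mul_inv_cancel_left, inv_mul_cancel_left, mul_inv_cancel, inv_mul_cancel, mul_one, one_mul, inv_one, C])
  have k73 : o.lt (P * (m⁻¹ * (f * m⁻¹))) (P * Q⁻¹) ↔ o.lt (P * (f⁻¹ * (m * Q⁻¹))) (P * (f⁻¹ * (Q * f⁻¹))) := o.cv hδ (m * (f⁻¹ * (m * (f⁻¹ * (m * Q⁻¹))))) e14 (by simp only [mul_assoc, mul_inv_rev, inv_inv, mul_inv_cancel_left, inv_mul_cancel_left, mul_inv_cancel, inv_mul_cancel, mul_one, one_mul, inv_one, C]) (by simp only [mul_assoc, mul_inv_rev, inv_inv, mul_inv_cancel_left, inv_mul_cancel_left, mul_inv_cancel, inv_mul_cancel, mul_one, one_mul, inv_one,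 C])
  have k74 : o.lt (P * (m⁻¹ * (f * m⁻¹))) (P * (f⁻¹ * (m * g⁻¹))) ↔ o.lt (P * (f⁻¹ * (m * f⁻¹))) (P * (f⁻¹ * (m * g⁻¹))) := o.cv hδ (m * (f⁻¹ * (m * (f⁻¹ * (m * f⁻¹))))) e13 (by simp only [mul_assoc, mul_inv_rev, inv_inv, mul_inv_cancel_left, inv_mul_cancel_left, mul_inv_cancel, inv_mul_cancel, mul_one, one_mul, inv_one, C]) (by simp only [mul_assoc, mul_inv_rev, inv_inv, mul_inv_cancel_left, inv_mul_cancel_left, mul_inv_cancel, inv_mul_cancel, mul_one, one_mul, inv_one, C])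
  have k75 : o.lt (P * (f⁻¹ * (m * g⁻¹))) (P * (m⁻¹ * (f * m⁻¹))) ↔ o.lt (P * (f⁻¹ * (m * g⁻¹))) (P * (f⁻¹ * (m * f⁻¹))) := o.cv hδ (1) e18 (by simp only [mul_assoc, mul_inv_rev, inv_inv, mul_inv_cancel_left, inv_mul_cancel_left, mul_inv_cancel, inv_mul_cancel, mul_one, one_mul, inv_one, C]) (by simp only [mul_assoc, mul_inv_rev, inv_inv, mul_inv_cancel_left, inv_mul_cancel_left, mul_inv_cancel, inv_mul_cancel, mul_one, one_mul, inv_one, C])
  have k76 : o.lt (P * (f⁻¹ * (Q * g⁻¹))) (P * (f⁻¹ * (m * Q⁻¹))) ↔ o.lt (P * (f⁻¹ * (g * Q⁻¹))) (P * (f⁻¹ * (m * g⁻¹))) := o.cv hδ (g * (Q⁻¹ * (g * Q⁻¹))) e21 (by simp only [mul_assoc, mul_inv_rev, inv_inv, mul_inv_cancel_left, inv_mul_cancel_left, mul_inv_cancel, inv_mul_cancel, mul_one, one_mul, inv_one, C]) (by simp only [mul_assoc, mul_inv_rev, inv_inv, mul_inv_cancel_left, inv_mul_cancel_left, mul_inv_cancel, inv_mul_cancel, mul_one, one_mul, inv_one,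 C])
  have k77 : o.lt (P * (f⁻¹ * (g * Q⁻¹))) (P * (m⁻¹ * (f * m⁻¹))) ↔ o.lt (P * (f⁻¹ * (g * Q⁻¹))) (P * (f⁻¹ * (m * f⁻¹))) := o.cv hδ (1) e20 (by simp only [mul_assoc, mul_inv_rev, inv_inv, mul_inv_cancel_left, inv_mul_cancel_left, mul_inv_cancel, inv_mul_cancel, mul_one, one_mul, inv_one, C]) (by simp only [mul_assoc, mul_inv_rev, inv_inv, mul_inv_cancel_left, inv_mul_cancel_left, mul_inv_cancel, inv_mul_cancel, mul_one, one_mul, inv_one, C])
  have k78 : o.lt (P * (f⁻¹ * (Q * g⁻¹))) (P * (f⁻¹ * (g * m⁻¹))) ↔ o.lt (P * (f⁻¹ * (Q * m⁻¹))) (P * (f⁻¹ * (m * g⁻¹))) := o.cv hδ (g * m⁻¹) e24 (by simp only [mul_assoc, mul_inv_rev, inv_inv, mul_inv_cancel_left, inv_mul_cancel_left, mul_inv_cancel, inv_mul_cancel, mul_one, one_mul, inv_one, C]) (by simp only [mul_assoc, mul_inv_rev, inv_inv, mul_inv_cancel_left, inv_mul_cancel_left, mul_inv_cancel, inv_mul_cancel, mul_one, one_mul, inv_one, C])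
  have k79 : o.lt (P * (Q⁻¹ * (f * Q⁻¹))) (P * m⁻¹) ↔ o.lt (P * (f⁻¹ * (Q * m⁻¹))) (P * (f⁻¹ * (m * f⁻¹))) := o.cv hδ (Q * (f⁻¹ * (Q * (f⁻¹ * (Q * m⁻¹))))) e27 (by simp only [mul_assoc, mul_inv_rev, inv_inv, mul_inv_cancel_left, inv_mul_cancel_left, mul_inv_cancel, inv_mul_cancel, mul_one, one_mul, inv_one, C]) (by simp only [mul_assoc, mul_inv_rev, inv_inv, mul_inv_cancel_left, inv_mul_cancel_left, mul_inv_cancel, inv_mul_cancel, mul_one, one_mul, inv_one, C])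
  have k80 : o.lt (g * Q⁻¹) (g * P⁻¹) ↔ o.lt ((Q * g⁻¹)⁻¹) ((P * g⁻¹)⁻¹) := o.cv hδ (1) e38 (by simp only [mul_assoc, mul_inv_rev, inv_inv, mul_inv_cancel_left, inv_mul_cancel_left, mul_inv_cancel, inv_mul_cancel, mul_one, one_mul, inv_one, C]) (by simp only [mul_assoc, mul_inv_rev, inv_inv, mul_inv_cancel_left, inv_mul_cancel_left, mul_inv_cancel, inv_mul_cancel, mul_one, one_mul, inv_one, C])
  have k81 : o.lt (f * m⁻¹) (g * m⁻¹) ↔ o.lt ((P * f⁻¹)⁻¹) ((P * g⁻¹)⁻¹) := o.cv hδ (m * P⁻¹) e29 (by simp only [mul_assoc, mul_inv_rev, inv_inv, mul_inv_cancel_left, inv_mul_cancel_left, mul_inv_cancel, inv_mul_cancel, mul_one, one_mul, inv_one, C]) (by simp only [mul_assoc, mul_inv_rev, inv_inv, mul_inv_cancel_left, inv_mul_cancel_left, mul_inv_cancel, inv_mul_cancel, mul_one, one_mul, inv_one, C])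
  exact ser_AAE_2_prop
    (fun b0 b1 b2 => N0.rd.r1 1 (fun h => b0 (k0.2 h)) (fun h => b1 (k1.2 h)) (k2.1 b2))
    (fun b0 b1 b2 => N0.r.r0 1 (fun h => b0 (k3.2 h)) (k1.1 b1) (fun h => b2 (k4.2 h)))
    (fun b0 b1 b2 => N0.d.r0 1 (fun h => b0 (k5.2 h)) (k6.1 b1) (fun h => b2 (k7.2 h)))
    (fun b0 b1 b2 => N0.i.r1 1 (fun h => b0 (k8.2 h)) (fun h => b1 (k6.2 h)) (k9.1 b2))
    (fun b0 b1 b2 => N1.r.r0 1 (fun h => b0 (k10.2 h)) (k11.1 b1) (fun h => b2 (k12.2 h)))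
    (fun b0 b1 b2 => N1.r.r1 1 (fun h => b0 (k13.2 h)) (fun h => b1 (k14.2 h)) (k12.1 b2))
    (fun b0 b1 b2 => N0.rd.r1 (P * f⁻¹) (fun h => b0 (k15.2 h)) (fun h => b1 (k16.2 h)) (k17.1 b2))
    (fun b0 b1 b2 => N0.rd.r0 (P * f⁻¹) (fun h => b0 (k18.2 h)) (k19.1 b1) (fun h => b2 (k17.2 h)))
    (fun b0 b1 b2 => N1.rd.r0 (P * f⁻¹) (fun h => b0 (k20.2 h)) (k21.1 b1) (fun h => b2 (k22.2 h)))
    (fun b0 b1 b2 => N1.d.r0 (P * f⁻¹) (fun h => b0 (k23.2 h)) (k24.1 b1) (fun h => b2 (k25.2 h)))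
    (fun b0 b1 b2 => N1.d.r1 (P * f⁻¹) (fun h => b0 (k26.2 h)) (fun h => b1 (k27.2 h)) (k25.1 b2))
    (fun b0 b1 => o.asym (k28.1 b0) (k29.1 b1))
    (fun b0 b1 b2 => o.tri (k30.1 b0) (fun h => b1 (k31.2 h)) (fun h => b2 (k32.2 h)))
    (fun b0 b1 b2 => o.tri (k33.1 b0) (fun h => b1 (k31.2 h)) (fun h => b2 (k34.2 h)))
    (fun b0 b1 => o.asym (k35.1 b0) (k36.1 b1))
    (fun b0 b1 b2 => o.tri (k37.1 b0) (fun h => b1 (k31.2 h)) (fun h => b2 (k38.2 h)))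
    (fun b0 b1 => o.asym (k39.1 b0) (k40.1 b1))
    (fun b0 b1 b2 => o.tri (k41.1 b0) (fun h => b1 (k42.2 h)) (fun h => b2 (k31.2 h)))
    (fun b0 b1 b2 => o.tri (k41.1 b0) (fun h => b1 (k43.2 h)) (fun h => b2 (k44.2 h)))
    (fun b0 b1 b2 => o.tri (k44.1 b0) (fun h => b1 (k45.2 h)) (fun h => b2 (k31.2 h)))
    (fun b0 b1 b2 => o.tri (k46.1 b0) (fun h => b1 (k47.2 h)) (fun h => b2 (k31.2 h)))
    (fun b0 b1 b2 => o.tri (k48.1 b0) (fun h => b1 (k49.2 h)) (fun h => b2 (k50.2 h)))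
    (fun b0 b1 b2 => o.tri (k49.1 b0) (fun h => b1 (k51.2 h)) (fun h => b2 (k52.2 h)))
    (fun b0 b1 b2 => o.tri (k53.1 b0) (fun h => b1 (k52.2 h)) (fun h => b2 (k54.2 h)))
    (fun b0 b1 => o.asym (k55.1 b0) (k56.1 b1))
    (fun b0 b1 => o.asym (k52.1 b0) (k57.1 b1))
    (fun b0 b1 b2 => o.tri (k56.1 b0) (fun h => b1 (k58.2 h)) (fun h => b2 (k59.2 h)))
    (fun b0 b1 b2 => o.tri (k54.1 b0) (fun h => b1 (k50.2 h)) (fun h => b2 (k60.2 h)))
    (fun b0 b1 b2 => o.tri (k61.1 b0) (fun h => b1 (k59.2 h)) (fun h => b2 (k55.2 h)))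
    (fun b0 b1 b2 => o.tri (k62.1 b0) (fun h => b1 (k54.2 h)) (fun h => b2 (k63.2 h)))
    (fun b0 b1 b2 => o.tri (k64.1 b0) (fun h => b1 (k65.2 h)) (fun h => b2 (k54.2 h)))
    (fun b0 b1 b2 => o.tri (k63.1 b0) (fun h => b1 (k66.2 h)) (fun h => b2 (k67.2 h)))
    (fun b0 b1 => o.asym (k68.1 b0) (k69.1 b1))
    (fun b0 b1 b2 => o.tri (k70.1 b0) (fun h => b1 (k64.2 h)) (fun h => b2 (k66.2 h)))
    (fun b0 b1 b2 => o.tri (k71.1 b0) (fun h => b1 (k70.2 h)) (fun h => b2 (k68.2 h)))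
    (fun b0 b1 b2 => o.tri (k71.1 b0) (fun h => b1 (k72.2 h)) (fun h => b2 (k73.2 h)))
    (fun b0 b1 => o.asym (k74.1 b0) (k75.1 b1))
    (fun b0 b1 b2 => o.tri (k76.1 b0) (fun h => b1 (k77.2 h)) (fun h => b2 (k74.2 h)))
    (fun b0 b1 b2 => o.tri (k78.1 b0) (fun h => b1 (k79.2 h)) (fun h => b2 (k74.2 h)))
    (fun h => g0 (k31.1 h))
    (fun h => g1 (k80.1 h))
    (k81.2 g2)

theorem ser_ABE_0_prop {A1 A2 A3 A4 A5 A6 A7 A8 A9 A10 A11 A12 A13 A14 A15 A16 A17 A18 A19 A20 A21 A22 A23 A24 A25 A26 A27 A28 A29 A30 A31 A32 A33 A34 A35 A36 A37 A38 : Prop}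
    (c0 : ¬ A9 → ¬ A33 → A13 → False)
    (c1 : ¬ A35 → A33 → ¬ A19 → False)
    (c2 : ¬ A36 → A34 → ¬ A13 → False)
    (c3 : ¬ A16 → A14 → ¬ A18 → False)
    (c4 : ¬ A27 → ¬ A29 → A31 → ¬ A9 → False)
    (c5 : ¬ A31 → A20 → ¬ A7 → ¬ A9 → False)
    (c6 : ¬ A5 → ¬ A28 → A35 → ¬ A9 → False)
    (c7 : ¬ A4 → ¬ A1 → A10 → False)
    (c8 : A12 → A16 → False)
    (c9 : A14 → A22 → False)
    (c10 : A15 → A26 → False)
    (c11 : A15 → ¬ A14 → ¬ A25 → False)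
    (c12 : A16 → ¬ A18 → ¬ A32 → False)
    (c13 : A23 → ¬ A22 → ¬ A12 → False)
    (c14 : A24 → A27 → False)
    (c15 : A24 → ¬ A9 → ¬ A20 → False)
    (c16 : A25 → ¬ A9 → ¬ A21 → False)
    (c17 : A29 → ¬ A26 → ¬ A13 → False)
    (c18 : A29 → ¬ A30 → ¬ A9 → False)
    (c19 : A30 → ¬ A26 → ¬ A14 → False)
    (c20 : A31 → ¬ A30 → ¬ A24 → False)
    (c21 : A5 → A8 → False)
    (c22 : A5 → ¬ A31 → ¬ A28 → False)
    (c23 : A34 → A33 → False)
    (c24 : A18 → ¬ A9 → ¬ A34 → False)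
    (c25 : A32 → ¬ A35 → ¬ A33 → False)
    (c26 : A32 → ¬ A8 → ¬ A2 → False)
    (c27 : A35 → A36 → False)
    (c28 : A19 → ¬ A35 → ¬ A23 → False)
    (c29 : A21 → ¬ A35 → ¬ A24 → False)
    (c30 : A36 → ¬ A24 → ¬ A29 → False)
    (c31 : A37 → ¬ A38 → ¬ A9 → False)
    (c32 : A38 → ¬ A9 → ¬ A3 → False)
    (c33 : A28 → ¬ A37 → ¬ A34 → False)
    (c34 : A2 → ¬ A3 → ¬ A9 → False)
    (c35 : A7 → ¬ A2 → ¬ A34 → False)
    (c36 : A7 → ¬ A11 → ¬ A17 → False)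
    (c37 : A17 → ¬ A13 → ¬ A35 → False)
    (c38 : A4 → ¬ A31 → ¬ A9 → False)
    (c39 : A1 → A6 → False)
    (c40 : A7 → ¬ A6 → ¬ A2 → False)
    (c41 : A11 → ¬ A10 → ¬ A3 → False)
    (u0 : A15)
    (u1 : ¬ A9)
    (u2 : ¬ A3)
    : False := by
  have q1 : ¬ A26 := fun h => c10 u0 h
  have q2 : ¬ A38 := fun h => c32 h u1 u2
  have q3 : ¬ A37 := fun h => c31 h q2 u1
  have q4 : ¬ A2 := fun h => c34 h u2 u1
  rcases Classical.em A34 with q5 | q5
  · have q6 : ¬ A33 := fun h => c23 q5 h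
    have q7 : ¬ A13 := fun h => c0 u1 q6 h
    have q8 : A36 := Classical.byContradiction fun h => c2 h q5 q7
    have q9 : ¬ A29 := fun h => c17 h q1 q7
    have q10 : ¬ A35 := fun h => c27 h q8
    have q11 : ¬ A32 := fun h => c25 h q10 q6
    have q12 : A24 := Classical.byContradiction fun h => c30 q8 h q9
    have q13 : ¬ A27 := fun h => c14 q12 h
    have q14 : ¬ A31 := fun h => c4 q13 q9 h u1
    have q15 : A20 := Classical.byContradiction fun h => c15 q12 u1 h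
    have q16 : A7 := Classical.byContradiction fun h => c5 q14 q15 h u1
    have q17 : ¬ A17 := fun h => c37 h q7 q10
    have q18 : A11 := Classical.byContradiction fun h => c36 q16 h q17
    have q19 : ¬ A4 := fun h => c38 h q14 u1
    have q20 : A6 := Classical.byContradiction fun h => c40 q16 h q4
    have q21 : ¬ A1 := fun h => c39 h q20
    have q22 : ¬ A10 := fun h => c7 q19 q21 h
    exact c41 q18 q22 u2
  · have q23 : ¬ A18 := fun h => c24 h u1 q5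
    have q24 : ¬ A28 := fun h => c33 h q3 q5
    have q25 : ¬ A7 := fun h => c35 h q4 q5
    rcases Classical.em A14 with q26 | q26
    · have q27 : A16 := Classical.byContradiction fun h => c3 h q26 q23
      have q28 : ¬ A12 := fun h => c8 h q27
      have q29 : ¬ A22 := fun h => c9 q26 h
      have q30 : A32 := Classical.byContradiction fun h => c12 q27 q23 h
      have q31 : ¬ A23 := fun h => c13 h q29 q28
      have q32 : A8 := Classical.byContradiction fun h => c26 q30 h q4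
      have q33 : ¬ A5 := fun h => c21 h q32
      have q34 : ¬ A35 := fun h => c6 q33 q24 h u1
      have q35 : A33 := Classical.byContradiction fun h => c25 q30 q34 h
      have q36 : A19 := Classical.byContradiction fun h => c1 q34 q35 h
      exact c28 q36 q34 q31
    · have q37 : A25 := Classical.byContradiction fun h => c11 u0 q26 h
      have q38 : A21 := Classical.byContradiction fun h => c16 q37 u1 h
      have q39 : ¬ A30 := fun h => c19 h q1 q26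
      have q40 : ¬ A29 := fun h => c18 h q39 u1
      rcases Classical.em A24 with q41 | q41
      · have q42 : ¬ A27 := fun h => c14 q41 h
        have q43 : ¬ A31 := fun h => c4 q42 q40 h u1
        have q44 : ¬ A20 := fun h => c5 q43 h q25 u1
        exact c15 q41 u1 q44
      · have q45 : ¬ A31 := fun h => c20 h q39 q41
        have q46 : ¬ A20 := fun h => c5 q45 h q25 u1
        have q47 : ¬ A5 := fun h => c22 h q45 q24
        have q48 : ¬ A35 := fun h => c6 q47 q24 h u1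
        exact c29 q38 q48 q41

theorem ser_ABE_0 {G : Type*} [Group G] {δ : G → ZMod 3} (hδ : ∀ u v, δ (u * v) = δ u + δ v) (o : Pre δ)
    {P m Q f g : G} {e : ZMod 3} (h3 : 3 * e = 0)
    (D : δ P = e ∧ δ m = -e ∧ δ Q = e ∧ δ f = 0 ∧ δ g = 0)
    (C : Cube P f ∧ Cube P g ∧ Cube m f ∧ Cube m g ∧ Cube Q f ∧ Cube Q g)
    (N0 : RA o P m f g)
    (N1 : RB o Q m g f)
    (g0 : o.lt (P * f⁻¹) (Q * f⁻¹)) (g1 : ¬ o.lt ((P * g⁻¹)⁻¹) ((P * f⁻¹)⁻¹)) (g2 : ¬ o.lt ((Q * f⁻¹)⁻¹) ((P * g⁻¹)⁻¹)) : False := by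
  simp only [Cube] at C
  have e0 : δ (f * (Q⁻¹ * (P * f⁻¹))) = δ (f * (Q⁻¹ * (g * m⁻¹))) := by simp only [hδ, δinv hδ, δone hδ, D] <;> linear_combination (0) * h3
  have e1 : δ (f * Q⁻¹) = δ (f * P⁻¹) := by simp only [hδ, δinv hδ, δone hδ, D] <;> linear_combination (0) * h3
  have e2 : δ (f * Q⁻¹) = δ (g * P⁻¹) := by simp only [hδ, δinv hδ, δone hδ, D] <;> linear_combination (0) * h3
  have e3 : δ (f * (Q⁻¹ * (f * m⁻¹))) = δ (f * (Q⁻¹ * (g * m⁻¹))) := by simp only [hδ, δinv hδ, δone hδ, D] <;> linear_combination (0) * h3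
  have e4 : δ (f * Q⁻¹) = δ (m * f⁻¹) := by simp only [hδ, δinv hδ, δone hδ, D] <;> linear_combination (0) * h3
  have e5 : δ (f * (Q⁻¹ * (g * m⁻¹))) = δ (f * (Q⁻¹ * (P * f⁻¹))) := by simp only [hδ, δinv hδ, δone hδ, D] <;> linear_combination (0) * h3
  have e6 : δ (f * Q⁻¹) = δ (m * g⁻¹) := by simp only [hδ, δinv hδ, δone hδ, D] <;> linear_combination (0) * h3
  have e7 : δ (m * Q⁻¹) = δ (Q * f⁻¹) := by simp only [hδ, δinv hδ, δone hδ, D] <;> linear_combination (-1) * h3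
  have e8 : δ (g * P⁻¹) = δ (f * P⁻¹) := by simp only [hδ, δinv hδ, δone hδ, D] <;> linear_combination (0) * h3
  have e9 : δ (f * (Q⁻¹ * (m * g⁻¹))) = δ (f * (Q⁻¹ * (g * P⁻¹))) := by simp only [hδ, δinv hδ, δone hδ, D] <;> linear_combination (0) * h3
  have e10 : δ (f * Q⁻¹) = δ (P * m⁻¹) := by simp only [hδ, δinv hδ, δone hδ, D] <;> linear_combination (-1) * h3
  have e11 : δ (P * f⁻¹) = δ (P * g⁻¹) := by simp only [hδ, δinv hδ, δone hδ, D] <;> linear_combination (0) * h3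
  have e12 : δ (P * f⁻¹) = δ (f * m⁻¹) := by simp only [hδ, δinv hδ, δone hδ, D] <;> linear_combination (0) * h3
  have e13 : δ (P * f⁻¹) = δ (g * m⁻¹) := by simp only [hδ, δinv hδ, δone hδ, D] <;> linear_combination (0) * h3
  have e14 : δ (P * f⁻¹) = δ (Q * f⁻¹) := by simp only [hδ, δinv hδ, δone hδ, D] <;> linear_combination (0) * h3
  have e15 : δ (P * g⁻¹) = δ (P * f⁻¹) := by simp only [hδ, δinv hδ, δone hδ, D] <;> linear_combination (0) * h3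
  have e16 : δ (P * m⁻¹) = δ (m * g⁻¹) := by simp only [hδ, δinv hδ, δone hδ, D] <;> linear_combination (1) * h3
  have e17 : δ (g * P⁻¹) = δ (m * g⁻¹) := by simp only [hδ, δinv hδ, δone hδ, D] <;> linear_combination (0) * h3
  have e18 : δ (f * m⁻¹) = δ (P * f⁻¹) := by simp only [hδ, δinv hδ, δone hδ, D] <;> linear_combination (0) * h3
  have e19 : δ (f * m⁻¹) = δ (Q * g⁻¹) := by simp only [hδ, δinv hδ, δone hδ, D] <;> linear_combination (0) * h3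
  have e20 : δ (f * m⁻¹) = δ (Q * f⁻¹) := by simp only [hδ, δinv hδ, δone hδ, D] <;> linear_combination (0) * h3
  have e21 : δ (g * m⁻¹) = δ (P * f⁻¹) := by simp only [hδ, δinv hδ, δone hδ, D] <;> linear_combination (0) * h3
  have e22 : δ (g * m⁻¹) = δ (P * g⁻¹) := by simp only [hδ, δinv hδ, δone hδ, D] <;> linear_combination (0) * h3
  have e23 : δ (g * m⁻¹) = δ (Q * g⁻¹) := by simp only [hδ, δinv hδ, δone hδ, D] <;> linear_combination (0) * h3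
  have e24 : δ (g * m⁻¹) = δ (Q * f⁻¹) := by simp only [hδ, δinv hδ, δone hδ, D] <;> linear_combination (0) * h3
  have e25 : δ (Q * f⁻¹) = δ (P * f⁻¹) := by simp only [hδ, δinv hδ, δone hδ, D] <;> linear_combination (0) * h3
  have e26 : δ (Q * g⁻¹) = δ (g * m⁻¹) := by simp only [hδ, δinv hδ, δone hδ, D] <;> linear_combination (0) * h3
  have e27 : δ (g * Q⁻¹) = δ (m * g⁻¹) := by simp only [hδ, δinv hδ, δone hδ, D] <;> linear_combination (0) * h3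
  have e28 : δ (Q * f⁻¹) = δ (f * m⁻¹) := by simp only [hδ, δinv hδ, δone hδ, D] <;> linear_combination (0) * h3
  have e29 : δ (Q * f⁻¹) = δ (g * m⁻¹) := by simp only [hδ, δinv hδ, δone hδ, D] <;> linear_combination (0) * h3
  have e30 : δ (Q * f⁻¹) = δ (Q * g⁻¹) := by simp only [hδ, δinv hδ, δone hδ, D] <;> linear_combination (0) * h3
  have e31 : δ (m * P⁻¹) = δ (P * f⁻¹) := by simp only [hδ, δinv hδ, δone hδ, D] <;> linear_combination (-1) * h3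
  have e32 : δ (m * g⁻¹) = δ (f * P⁻¹) := by simp only [hδ, δinv hδ, δone hδ, D] <;> linear_combination (0) * h3
  have e33 : δ (f * P⁻¹) = δ (m * g⁻¹) := by simp only [hδ, δinv hδ, δone hδ, D] <;> linear_combination (0) * h3
  have e34 : δ (m * f⁻¹) = δ (m * g⁻¹) := by simp only [hδ, δinv hδ, δone hδ, D] <;> linear_combination (0) * h3
  have e35 : δ (m * g⁻¹) = δ (m * f⁻¹) := by simp only [hδ, δinv hδ, δone hδ, D] <;> linear_combination (0) * h3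
  have e36 : δ (g * Q⁻¹) = δ (f * P⁻¹) := by simp only [hδ, δinv hδ, δone hδ, D] <;> linear_combination (0) * h3
  have e37 : δ (g * Q⁻¹) = δ (g * P⁻¹) := by simp only [hδ, δinv hδ, δone hδ, D] <;> linear_combination (0) * h3
  have k0 : o.lt (g * P⁻¹) (f * P⁻¹) ↔ o.lt (1 * (g * P⁻¹)) (1 * (f * P⁻¹)) := o.cv hδ (1) e8 (by simp only [mul_assoc, mul_inv_rev, inv_inv, mul_inv_cancel_left, inv_mul_cancel_left, mul_inv_cancel, inv_mul_cancel, mul_one, one_mul, inv_one, C]) (by simp only [mul_assoc, mul_inv_rev, inv_inv, mul_inv_cancel_left, inv_mul_cancel_left, mul_inv_cancel, inv_mul_cancel, mul_one, one_mul, inv_one, C])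
  have k1 : o.lt (m * g⁻¹) (f * P⁻¹) ↔ o.lt (1 * (m * g⁻¹)) (1 * (f * P⁻¹)) := o.cv hδ (1) e32 (by simp only [mul_assoc, mul_inv_rev, inv_inv, mul_inv_cancel_left, inv_mul_cancel_left, mul_inv_cancel, inv_mul_cancel, mul_one, one_mul, inv_one, C]) (by simp only [mul_assoc, mul_inv_rev, inv_inv, mul_inv_cancel_left, inv_mul_cancel_left, mul_inv_cancel, inv_mul_cancel, mul_one, one_mul, inv_one, C])
  have k2 : o.lt (P * f⁻¹) (f * m⁻¹) ↔ o.lt (1 * (f * P⁻¹)⁻¹) (1 * (m * f⁻¹)⁻¹) := o.cv hδ (1) e12 (by simp only [mul_assoc, mul_inv_rev, inv_inv, mul_inv_cancel_left, inv_mul_cancel_left, mul_inv_cancel, inv_mul_cancel, mul_one, one_mul, inv_one, C]) (by simp only [mul_assoc, mul_inv_rev, inv_inv, mul_inv_cancel_left, inv_mul_cancel_left, mul_inv_cancel, inv_mul_cancel, mul_one, one_mul, inv_one, C])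
  have k3 : o.lt (m * f⁻¹) (m * g⁻¹) ↔ o.lt (1 * (m * f⁻¹)) (1 * (m * g⁻¹)) := o.cv hδ (1) e34 (by simp only [mul_assoc, mul_inv_rev, inv_inv, mul_inv_cancel_left, inv_mul_cancel_left, mul_inv_cancel, inv_mul_cancel, mul_one, one_mul, inv_one, C]) (by simp only [mul_assoc, mul_inv_rev, inv_inv, mul_inv_cancel_left, inv_mul_cancel_left, mul_inv_cancel, inv_mul_cancel, mul_one, one_mul, inv_one, C])
  have k4 : o.lt (f * m⁻¹) (P * f⁻¹) ↔ o.lt (1 * (m * f⁻¹)⁻¹) (1 * (f * P⁻¹)⁻¹) := o.cv hδ (1) e18 (by simp only [mul_assoc, mul_inv_rev, inv_inv, mul_inv_cancel_left, inv_mul_cancel_left, mul_inv_cancel, inv_mul_cancel, mul_one, one_mul, inv_one, C]) (by simp only [mul_assoc, mul_inv_rev, inv_inv, mul_inv_cancel_left, inv_mul_cancel_left, mul_inv_cancel, inv_mul_cancel, mul_one, one_mul, inv_one, C])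
  have k5 : o.lt (m * g⁻¹) (m * f⁻¹) ↔ o.lt (1 * (m * g⁻¹)) (1 * (m * f⁻¹)) := o.cv hδ (1) e35 (by simp only [mul_assoc, mul_inv_rev, inv_inv, mul_inv_cancel_left, inv_mul_cancel_left, mul_inv_cancel, inv_mul_cancel, mul_one, one_mul, inv_one, C]) (by simp only [mul_assoc, mul_inv_rev, inv_inv, mul_inv_cancel_left, inv_mul_cancel_left, mul_inv_cancel, inv_mul_cancel, mul_one, one_mul, inv_one, C])
  have k6 : o.lt (f * P⁻¹) (m * g⁻¹) ↔ o.lt (1 * (f * P⁻¹)) (1 * (m * g⁻¹)) := o.cv hδ (1) e33 (by simp only [mul_assoc, mul_inv_rev, inv_inv, mul_inv_cancel_left, inv_mul_cancel_left, mul_inv_cancel, inv_mul_cancel, mul_one, one_mul, inv_one, C]) (by simp only [mul_assoc, mul_inv_rev, inv_inv, mul_inv_cancel_left, inv_mul_cancel_left, mul_inv_cancel, inv_mul_cancel, mul_one, one_mul, inv_one, C])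
  have k7 : o.lt (P * g⁻¹) (P * f⁻¹) ↔ o.lt (1 * (P * g⁻¹)) (1 * (P * f⁻¹)) := o.cv hδ (1) e15 (by simp only [mul_assoc, mul_inv_rev, inv_inv, mul_inv_cancel_left, inv_mul_cancel_left, mul_inv_cancel, inv_mul_cancel, mul_one, one_mul, inv_one, C]) (by simp only [mul_assoc, mul_inv_rev, inv_inv, mul_inv_cancel_left, inv_mul_cancel_left, mul_inv_cancel, inv_mul_cancel, mul_one, one_mul, inv_one, C])
  have k8 : o.lt (P * f⁻¹) (g * m⁻¹) ↔ o.lt (1 * (P * f⁻¹)) (1 * (g * m⁻¹)) := o.cv hδ (1) e13 (by simp only [mul_assoc, mul_inv_rev, inv_inv, mul_inv_cancel_left, inv_mul_cancel_left, mul_inv_cancel, inv_mul_cancel, mul_one, one_mul, inv_one, C]) (by simp only [mul_assoc, mul_inv_rev, inv_inv, mul_inv_cancel_left, inv_mul_cancel_left, mul_inv_cancel, inv_mul_cancel, mul_one, one_mul, inv_one, C])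
  have k9 : o.lt (g * P⁻¹) (m * g⁻¹) ↔ o.lt (1 * (P * g⁻¹)⁻¹) (1 * (g * m⁻¹)⁻¹) := o.cv hδ (1) e17 (by simp only [mul_assoc, mul_inv_rev, inv_inv, mul_inv_cancel_left, inv_mul_cancel_left, mul_inv_cancel, inv_mul_cancel, mul_one, one_mul, inv_one, C]) (by simp only [mul_assoc, mul_inv_rev, inv_inv, mul_inv_cancel_left, inv_mul_cancel_left, mul_inv_cancel, inv_mul_cancel, mul_one, one_mul, inv_one, C])
  have k10 : o.lt (Q * g⁻¹) (g * m⁻¹) ↔ o.lt (1 * (Q * g⁻¹)) (1 * (g * m⁻¹)) := o.cv hδ (1) e26 (by simp only [mul_assoc, mul_inv_rev, inv_inv, mul_inv_cancel_left, inv_mul_cancel_left, mul_inv_cancel, inv_mul_cancel, mul_one, one_mul, inv_one, C]) (by simp only [mul_assoc, mul_inv_rev, inv_inv, mul_inv_cancel_left, inv_mul_cancel_left, mul_inv_cancel, inv_mul_cancel, mul_one, one_mul, inv_one, C])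
  have k11 : o.lt (Q * f⁻¹) (f * m⁻¹) ↔ o.lt (1 * (Q * f⁻¹)) (1 * (f * m⁻¹)) := o.cv hδ (1) e28 (by simp only [mul_assoc, mul_inv_rev, inv_inv, mul_inv_cancel_left, inv_mul_cancel_left, mul_inv_cancel, inv_mul_cancel, mul_one, one_mul, inv_one, C]) (by simp only [mul_assoc, mul_inv_rev, inv_inv, mul_inv_cancel_left, inv_mul_cancel_left, mul_inv_cancel, inv_mul_cancel, mul_one, one_mul, inv_one, C])
  have k12 : o.lt (Q * f⁻¹) (Q * g⁻¹) ↔ o.lt (1 * (Q * f⁻¹)) (1 * (Q * g⁻¹)) := o.cv hδ (1) e30 (by simp only [mul_assoc, mul_inv_rev, inv_inv, mul_inv_cancel_left, inv_mul_cancel_left, mul_inv_cancel, inv_mul_cancel, mul_one, one_mul, inv_one, C]) (by simp only [mul_assoc, mul_inv_rev, inv_inv, mul_inv_cancel_left, inv_mul_cancel_left, mul_inv_cancel, inv_mul_cancel, mul_one, one_mul, inv_one, C])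
  have k13 : o.lt (g * P⁻¹) (f * P⁻¹) ↔ o.lt (1 * g) (1 * f) := o.cv hδ (P) e8 (by simp only [mul_assoc, mul_inv_rev, inv_inv, mul_inv_cancel_left, inv_mul_cancel_left, mul_inv_cancel, inv_mul_cancel, mul_one, one_mul, inv_one, C]) (by simp only [mul_assoc, mul_inv_rev, inv_inv, mul_inv_cancel_left, inv_mul_cancel_left, mul_inv_cancel, inv_mul_cancel, mul_one, one_mul, inv_one, C])
  have k14 : o.lt (f * m⁻¹) (Q * g⁻¹) ↔ o.lt (1 * (f * m⁻¹)) (1 * (Q * g⁻¹)) := o.cv hδ (1) e19 (by simp only [mul_assoc, mul_inv_rev, inv_inv, mul_inv_cancel_left, inv_mul_cancel_left, mul_inv_cancel, inv_mul_cancel, mul_one, one_mul, inv_one, C]) (by simp only [mul_assoc, mul_inv_rev, inv_inv, mul_inv_cancel_left, inv_mul_cancel_left, mul_inv_cancel, inv_mul_cancel, mul_one, one_mul, inv_one, C])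
  have k15 : o.lt (f * Q⁻¹) (m * g⁻¹) ↔ o.lt (1 * (Q * f⁻¹)⁻¹) (1 * (g * m⁻¹)⁻¹) := o.cv hδ (1) e6 (by simp only [mul_assoc, mul_inv_rev, inv_inv, mul_inv_cancel_left, inv_mul_cancel_left, mul_inv_cancel, inv_mul_cancel, mul_one, one_mul, inv_one, C]) (by simp only [mul_assoc, mul_inv_rev, inv_inv, mul_inv_cancel_left, inv_mul_cancel_left, mul_inv_cancel, inv_mul_cancel, mul_one, one_mul, inv_one, C])
  have k16 : o.lt (f * Q⁻¹) (m * f⁻¹) ↔ o.lt (1 * (f * Q⁻¹)) (1 * (m * f⁻¹)) := o.cv hδ (1) e4 (by simp only [mul_assoc, mul_inv_rev, inv_inv, mul_inv_cancel_left, inv_mul_cancel_left, mul_inv_cancel, inv_mul_cancel, mul_one, one_mul, inv_one, C]) (by simp only [mul_assoc, mul_inv_rev, inv_inv, mul_inv_cancel_left, inv_mul_cancel_left, mul_inv_cancel, inv_mul_cancel, mul_one, one_mul, inv_one, C])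
  have k17 : o.lt (g * Q⁻¹) (m * g⁻¹) ↔ o.lt (1 * (g * Q⁻¹)) (1 * (m * g⁻¹)) := o.cv hδ (1) e27 (by simp only [mul_assoc, mul_inv_rev, inv_inv, mul_inv_cancel_left, inv_mul_cancel_left, mul_inv_cancel, inv_mul_cancel, mul_one, one_mul, inv_one, C]) (by simp only [mul_assoc, mul_inv_rev, inv_inv, mul_inv_cancel_left, inv_mul_cancel_left, mul_inv_cancel, inv_mul_cancel, mul_one, one_mul, inv_one, C])
  have k18 : o.lt (f * (Q⁻¹ * (f * m⁻¹))) (f * (Q⁻¹ * (g * m⁻¹))) ↔ o.lt ((f * Q⁻¹) * (f * m⁻¹)) ((f * Q⁻¹) * (g * m⁻¹)) := o.cv hδ (1) e3 (by simp only [mul_assoc, mul_inv_rev, inv_inv, mul_inv_cancel_left, inv_mul_cancel_left, mul_inv_cancel, inv_mul_cancel, mul_one, one_mul, inv_one, C]) (by simp only [mul_assoc, mul_inv_rev, inv_inv, mul_inv_cancel_left, inv_mul_cancel_left, mul_inv_cancel, inv_mul_cancel, mul_one, one_mul, inv_one, C])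
  have k19 : o.lt (f * (Q⁻¹ * (P * f⁻¹))) (f * (Q⁻¹ * (g * m⁻¹))) ↔ o.lt ((f * Q⁻¹) * (P * f⁻¹)) ((f * Q⁻¹) * (g * m⁻¹)) := o.cv hδ (1) e0 (by simp only [mul_assoc, mul_inv_rev, inv_inv, mul_inv_cancel_left, inv_mul_cancel_left, mul_inv_cancel, inv_mul_cancel, mul_one, one_mul, inv_one, C]) (by simp only [mul_assoc, mul_inv_rev, inv_inv, mul_inv_cancel_left, inv_mul_cancel_left, mul_inv_cancel, inv_mul_cancel, mul_one, one_mul, inv_one, C])
  have k20 : o.lt (f * (Q⁻¹ * (m * g⁻¹))) (f * (Q⁻¹ * (g * P⁻¹))) ↔ o.lt ((f * Q⁻¹) * (g * m⁻¹)⁻¹) ((f * Q⁻¹) * (P * g⁻¹)⁻¹) := o.cv hδ (1) e9 (by simp only [mul_assoc, mul_inv_rev, inv_inv, mul_inv_cancel_left, inv_mul_cancel_left, mul_inv_cancel, inv_mul_cancel, mul_one, one_mul, inv_one, C]) (by simp only [mul_assoc, mul_inv_rev, inv_inv, mul_inv_cancel_left, inv_mul_cancel_left, mul_inv_cancel, inv_mul_cancel, mul_one, one_mul, inv_one, C])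
  have k21 : o.lt (P * f⁻¹) (P * g⁻¹) ↔ o.lt (P * f⁻¹) (P * g⁻¹) := o.cv hδ (1) e11 (by simp only [mul_assoc, mul_inv_rev, inv_inv, mul_inv_cancel_left, inv_mul_cancel_left, mul_inv_cancel, inv_mul_cancel, mul_one, one_mul, inv_one, C]) (by simp only [mul_assoc, mul_inv_rev, inv_inv, mul_inv_cancel_left, inv_mul_cancel_left, mul_inv_cancel, inv_mul_cancel, mul_one, one_mul, inv_one, C])
  have k22 : o.lt (P * g⁻¹) (P * f⁻¹) ↔ o.lt (P * g⁻¹) (P * f⁻¹) := o.cv hδ (1) e15 (by simp only [mul_assoc, mul_inv_rev, inv_inv, mul_inv_cancel_left, inv_mul_cancel_left, mul_inv_cancel, inv_mul_cancel, mul_one, one_mul, inv_one, C]) (by simp only [mul_assoc, mul_inv_rev, inv_inv, mul_inv_cancel_left, inv_mul_cancel_left, mul_inv_cancel, inv_mul_cancel, mul_one, one_mul, inv_one, C])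
  have k23 : o.lt (P * f⁻¹) (g * m⁻¹) ↔ o.lt (P * f⁻¹) (g * m⁻¹) := o.cv hδ (1) e13 (by simp only [mul_assoc, mul_inv_rev, inv_inv, mul_inv_cancel_left, inv_mul_cancel_left, mul_inv_cancel, inv_mul_cancel, mul_one, one_mul, inv_one, C]) (by simp only [mul_assoc, mul_inv_rev, inv_inv, mul_inv_cancel_left, inv_mul_cancel_left, mul_inv_cancel, inv_mul_cancel, mul_one, one_mul, inv_one, C])
  have k24 : o.lt (g * m⁻¹) (P * f⁻¹) ↔ o.lt (g * m⁻¹) (P * f⁻¹) := o.cv hδ (1) e21 (by simp only [mul_assoc, mul_inv_rev, inv_inv, mul_inv_cancel_left, inv_mul_cancel_left, mul_inv_cancel, inv_mul_cancel, mul_one, one_mul, inv_one, C]) (by simp only [mul_assoc, mul_inv_rev, inv_inv, mul_inv_cancel_left, inv_mul_cancel_left, mul_inv_cancel, inv_mul_cancel, mul_one, one_mul, inv_one, C])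
  have k25 : o.lt (P * f⁻¹) (Q * f⁻¹) ↔ o.lt (P * f⁻¹) (Q * f⁻¹) := o.cv hδ (1) e14 (by simp only [mul_assoc, mul_inv_rev, inv_inv, mul_inv_cancel_left, inv_mul_cancel_left, mul_inv_cancel, inv_mul_cancel, mul_one, one_mul, inv_one, C]) (by simp only [mul_assoc, mul_inv_rev, inv_inv, mul_inv_cancel_left, inv_mul_cancel_left, mul_inv_cancel, inv_mul_cancel, mul_one, one_mul, inv_one, C])
  have k26 : o.lt (Q * f⁻¹) (P * f⁻¹) ↔ o.lt (Q * f⁻¹) (P * f⁻¹) := o.cv hδ (1) e25 (by simp only [mul_assoc, mul_inv_rev, inv_inv, mul_inv_cancel_left, inv_mul_cancel_left, mul_inv_cancel, inv_mul_cancel, mul_one, one_mul, inv_one, C]) (by simp only [mul_assoc, mul_inv_rev, inv_inv, mul_inv_cancel_left, inv_mul_cancel_left, mul_inv_cancel, inv_mul_cancel, mul_one, one_mul, inv_one, C])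
  have k27 : o.lt (g * m⁻¹) (Q * f⁻¹) ↔ o.lt (g * m⁻¹) (Q * f⁻¹) := o.cv hδ (1) e24 (by simp only [mul_assoc, mul_inv_rev, inv_inv, mul_inv_cancel_left, inv_mul_cancel_left, mul_inv_cancel, inv_mul_cancel, mul_one, one_mul, inv_one, C]) (by simp only [mul_assoc, mul_inv_rev, inv_inv, mul_inv_cancel_left, inv_mul_cancel_left, mul_inv_cancel, inv_mul_cancel, mul_one, one_mul, inv_one, C])
  have k28 : o.lt (g * P⁻¹) (m * g⁻¹) ↔ o.lt (P * g⁻¹) (m * P⁻¹) := o.cv hδ (P * (g⁻¹ * (P * g⁻¹))) e17 (by simp only [mul_assoc, mul_inv_rev, inv_inv, mul_inv_cancel_left, inv_mul_cancel_left, mul_inv_cancel, inv_mul_cancel, mul_one, one_mul, inv_one, C]) (by simp only [mul_assoc, mul_inv_rev, inv_inv, mul_inv_cancel_left, inv_mul_cancel_left, mul_inv_cancel, inv_mul_cancel, mul_one, one_mul, inv_one, C])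
  have k29 : o.lt (m * P⁻¹) (P * f⁻¹) ↔ o.lt (m * P⁻¹) (P * f⁻¹) := o.cv hδ (1) e31 (by simp only [mul_assoc, mul_inv_rev, inv_inv, mul_inv_cancel_left, inv_mul_cancel_left, mul_inv_cancel, inv_mul_cancel, mul_one, one_mul, inv_one, C]) (by simp only [mul_assoc, mul_inv_rev, inv_inv, mul_inv_cancel_left, inv_mul_cancel_left, mul_inv_cancel, inv_mul_cancel, mul_one, one_mul, inv_one, C])
  have k30 : o.lt (g * m⁻¹) (P * g⁻¹) ↔ o.lt (g * m⁻¹) (P * g⁻¹) := o.cv hδ (1) e22 (by simp only [mul_assoc, mul_inv_rev, inv_inv, mul_inv_cancel_left, inv_mul_cancel_left, mul_inv_cancel, inv_mul_cancel, mul_one, one_mul, inv_one, C]) (by simp only [mul_assoc, mul_inv_rev, inv_inv, mul_inv_cancel_left, inv_mul_cancel_left, mul_inv_cancel, inv_mul_cancel, mul_one, one_mul, inv_one, C])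
  have k31 : o.lt (g * m⁻¹) (Q * g⁻¹) ↔ o.lt (g * m⁻¹) (Q * g⁻¹) := o.cv hδ (1) e23 (by simp only [mul_assoc, mul_inv_rev, inv_inv, mul_inv_cancel_left, inv_mul_cancel_left, mul_inv_cancel, inv_mul_cancel, mul_one, one_mul, inv_one, C]) (by simp only [mul_assoc, mul_inv_rev, inv_inv, mul_inv_cancel_left, inv_mul_cancel_left, mul_inv_cancel, inv_mul_cancel, mul_one, one_mul, inv_one, C])
  have k32 : o.lt (Q * g⁻¹) (g * m⁻¹) ↔ o.lt (Q * g⁻¹) (g * m⁻¹) := o.cv hδ (1) e26 (by simp only [mul_assoc, mul_inv_rev, inv_inv, mul_inv_cancel_left, inv_mul_cancel_left, mul_inv_cancel, inv_mul_cancel, mul_one, one_mul, inv_one, C]) (by simp only [mul_assoc, mul_inv_rev, inv_inv, mul_inv_cancel_left, inv_mul_cancel_left, mul_inv_cancel, inv_mul_cancel, mul_one, one_mul, inv_one, C])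
  have k33 : o.lt (g * P⁻¹) (f * P⁻¹) ↔ o.lt (g * m⁻¹) (f * m⁻¹) := o.cv hδ (P * m⁻¹) e8 (by simp only [mul_assoc, mul_inv_rev, inv_inv, mul_inv_cancel_left, inv_mul_cancel_left, mul_inv_cancel, inv_mul_cancel, mul_one, one_mul, inv_one, C]) (by simp only [mul_assoc, mul_inv_rev, inv_inv, mul_inv_cancel_left, inv_mul_cancel_left, mul_inv_cancel, inv_mul_cancel, mul_one, one_mul, inv_one, C])
  have k34 : o.lt (f * m⁻¹) (Q * g⁻¹) ↔ o.lt (f * m⁻¹) (Q * g⁻¹) := o.cv hδ (1) e19 (by simp only [mul_assoc, mul_inv_rev, inv_inv, mul_inv_cancel_left, inv_mul_cancel_left, mul_inv_cancel, inv_mul_cancel, mul_one, one_mul, inv_one, C]) (by simp only [mul_assoc, mul_inv_rev, inv_inv, mul_inv_cancel_left, inv_mul_cancel_left, mul_inv_cancel, inv_mul_cancel, mul_one, one_mul, inv_one, C])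
  have k35 : o.lt (f * m⁻¹) (Q * f⁻¹) ↔ o.lt (f * m⁻¹) (Q * f⁻¹) := o.cv hδ (1) e20 (by simp only [mul_assoc, mul_inv_rev, inv_inv, mul_inv_cancel_left, inv_mul_cancel_left, mul_inv_cancel, inv_mul_cancel, mul_one, one_mul, inv_one, C]) (by simp only [mul_assoc, mul_inv_rev, inv_inv, mul_inv_cancel_left, inv_mul_cancel_left, mul_inv_cancel, inv_mul_cancel, mul_one, one_mul, inv_one, C])
  have k36 : o.lt (Q * f⁻¹) (f * m⁻¹) ↔ o.lt (Q * f⁻¹) (f * m⁻¹) := o.cv hδ (1) e28 (by simp only [mul_assoc, mul_inv_rev, inv_inv, mul_inv_cancel_left, inv_mul_cancel_left, mul_inv_cancel, inv_mul_cancel, mul_one, one_mul, inv_one, C]) (by simp only [mul_assoc, mul_inv_rev, inv_inv, mul_inv_cancel_left, inv_mul_cancel_left, mul_inv_cancel, inv_mul_cancel, mul_one, one_mul, inv_one, C])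
  have k37 : o.lt (P * f⁻¹) (f * m⁻¹) ↔ o.lt (P * f⁻¹) (f * m⁻¹) := o.cv hδ (1) e12 (by simp only [mul_assoc, mul_inv_rev, inv_inv, mul_inv_cancel_left, inv_mul_cancel_left, mul_inv_cancel, inv_mul_cancel, mul_one, one_mul, inv_one, C]) (by simp only [mul_assoc, mul_inv_rev, inv_inv, mul_inv_cancel_left, inv_mul_cancel_left, mul_inv_cancel, inv_mul_cancel, mul_one, one_mul, inv_one, C])
  have k38 : o.lt (Q * f⁻¹) (g * m⁻¹) ↔ o.lt (Q * f⁻¹) (g * m⁻¹) := o.cv hδ (1) e29 (by simp only [mul_assoc, mul_inv_rev, inv_inv, mul_inv_cancel_left, inv_mul_cancel_left, mul_inv_cancel, inv_mul_cancel, mul_one, one_mul, inv_one, C]) (by simp only [mul_assoc, mul_inv_rev, inv_inv, mul_inv_cancel_left, inv_mul_cancel_left, mul_inv_cancel, inv_mul_cancel, mul_one, one_mul, inv_one, C])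
  have k39 : o.lt (Q * f⁻¹) (Q * g⁻¹) ↔ o.lt (Q * f⁻¹) (Q * g⁻¹) := o.cv hδ (1) e30 (by simp only [mul_assoc, mul_inv_rev, inv_inv, mul_inv_cancel_left, inv_mul_cancel_left, mul_inv_cancel, inv_mul_cancel, mul_one, one_mul, inv_one, C]) (by simp only [mul_assoc, mul_inv_rev, inv_inv, mul_inv_cancel_left, inv_mul_cancel_left, mul_inv_cancel, inv_mul_cancel, mul_one, one_mul, inv_one, C])
  have k40 : o.lt (f * Q⁻¹) (m * f⁻¹) ↔ o.lt (Q * f⁻¹) (m * Q⁻¹) := o.cv hδ (Q * (f⁻¹ * (Q * f⁻¹))) e4 (by simp only [mul_assoc, mul_inv_rev, inv_inv, mul_inv_cancel_left, inv_mul_cancel_left, mul_inv_cancel, inv_mul_cancel, mul_one, one_mul, inv_one, C]) (by simp only [mul_assoc, mul_inv_rev, inv_inv, mul_inv_cancel_left, inv_mul_cancel_left, mul_inv_cancel, inv_mul_cancel, mul_one, one_mul, inv_one, C])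
  have k41 : o.lt (m * Q⁻¹) (Q * f⁻¹) ↔ o.lt (m * Q⁻¹) (Q * f⁻¹) := o.cv hδ (1) e7 (by simp only [mul_assoc, mul_inv_rev, inv_inv, mul_inv_cancel_left, inv_mul_cancel_left, mul_inv_cancel, inv_mul_cancel, mul_one, one_mul, inv_one, C]) (by simp only [mul_assoc, mul_inv_rev, inv_inv, mul_inv_cancel_left, inv_mul_cancel_left, mul_inv_cancel, inv_mul_cancel, mul_one, one_mul, inv_one, C])
  have k42 : o.lt (g * Q⁻¹) (m * g⁻¹) ↔ o.lt (Q * g⁻¹) (m * Q⁻¹) := o.cv hδ (Q * (g⁻¹ * (Q * g⁻¹))) e27 (by simp only [mul_assoc, mul_inv_rev, inv_inv, mul_inv_cancel_left, inv_mul_cancel_left, mul_inv_cancel, inv_mul_cancel, mul_one, one_mul, inv_one, C]) (by simp only [mul_assoc, mul_inv_rev, inv_inv, mul_inv_cancel_left, inv_mul_cancel_left, mul_inv_cancel, inv_mul_cancel, mul_one, one_mul, inv_one, C])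
  have k43 : o.lt (f * P⁻¹) (m * g⁻¹) ↔ o.lt (f * P⁻¹) (m * g⁻¹) := o.cv hδ (1) e33 (by simp only [mul_assoc, mul_inv_rev, inv_inv, mul_inv_cancel_left, inv_mul_cancel_left, mul_inv_cancel, inv_mul_cancel, mul_one, one_mul, inv_one, C]) (by simp only [mul_assoc, mul_inv_rev, inv_inv, mul_inv_cancel_left, inv_mul_cancel_left, mul_inv_cancel, inv_mul_cancel, mul_one, one_mul, inv_one, C])
  have k44 : o.lt (m * g⁻¹) (f * P⁻¹) ↔ o.lt (m * g⁻¹) (f * P⁻¹) := o.cv hδ (1) e32 (by simp only [mul_assoc, mul_inv_rev, inv_inv, mul_inv_cancel_left, inv_mul_cancel_left, mul_inv_cancel, inv_mul_cancel, mul_one, one_mul, inv_one, C]) (by simp only [mul_assoc, mul_inv_rev, inv_inv, mul_inv_cancel_left, inv_mul_cancel_left, mul_inv_cancel, inv_mul_cancel, mul_one, one_mul, inv_one, C])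
  have k45 : o.lt (g * P⁻¹) (m * g⁻¹) ↔ o.lt (g * P⁻¹) (m * g⁻¹) := o.cv hδ (1) e17 (by simp only [mul_assoc, mul_inv_rev, inv_inv, mul_inv_cancel_left, inv_mul_cancel_left, mul_inv_cancel, inv_mul_cancel, mul_one, one_mul, inv_one, C]) (by simp only [mul_assoc, mul_inv_rev, inv_inv, mul_inv_cancel_left, inv_mul_cancel_left, mul_inv_cancel, inv_mul_cancel, mul_one, one_mul, inv_one, C])
  have k46 : o.lt (g * P⁻¹) (f * P⁻¹) ↔ o.lt (g * P⁻¹) (f * P⁻¹) := o.cv hδ (1) e8 (by simp only [mul_assoc, mul_inv_rev, inv_inv, mul_inv_cancel_left, inv_mul_cancel_left, mul_inv_cancel, inv_mul_cancel, mul_one, one_mul, inv_one, C]) (by simp only [mul_assoc, mul_inv_rev, inv_inv, mul_inv_cancel_left, inv_mul_cancel_left, mul_inv_cancel, inv_mul_cancel, mul_one, one_mul, inv_one, C])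
  have k47 : o.lt (m * P⁻¹) (P * f⁻¹) ↔ o.lt (m * f⁻¹) (f * P⁻¹) := o.cv hδ (P * f⁻¹) e31 (by simp only [mul_assoc, mul_inv_rev, inv_inv, mul_inv_cancel_left, inv_mul_cancel_left, mul_inv_cancel, inv_mul_cancel, mul_one, one_mul, inv_one, C]) (by simp only [mul_assoc, mul_inv_rev, inv_inv, mul_inv_cancel_left, inv_mul_cancel_left, mul_inv_cancel, inv_mul_cancel, mul_one, one_mul, inv_one, C])
  have k48 : o.lt (m * f⁻¹) (m * g⁻¹) ↔ o.lt (m * f⁻¹) (m * g⁻¹) := o.cv hδ (1) e34 (by simp only [mul_assoc, mul_inv_rev, inv_inv, mul_inv_cancel_left, inv_mul_cancel_left, mul_inv_cancel, inv_mul_cancel, mul_one, one_mul, inv_one, C]) (by simp only [mul_assoc, mul_inv_rev, inv_inv, mul_inv_cancel_left, inv_mul_cancel_left, mul_inv_cancel, inv_mul_cancel, mul_one, one_mul, inv_one, C])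
  have k49 : o.lt (m * Q⁻¹) (Q * f⁻¹) ↔ o.lt (m * f⁻¹) (f * Q⁻¹) := o.cv hδ (Q * f⁻¹) e7 (by simp only [mul_assoc, mul_inv_rev, inv_inv, mul_inv_cancel_left, inv_mul_cancel_left, mul_inv_cancel, inv_mul_cancel, mul_one, one_mul, inv_one, C]) (by simp only [mul_assoc, mul_inv_rev, inv_inv, mul_inv_cancel_left, inv_mul_cancel_left, mul_inv_cancel, inv_mul_cancel, mul_one, one_mul, inv_one, C])
  have k50 : o.lt (f * Q⁻¹) (f * P⁻¹) ↔ o.lt (f * Q⁻¹) (f * P⁻¹) := o.cv hδ (1) e1 (by simp only [mul_assoc, mul_inv_rev, inv_inv, mul_inv_cancel_left, inv_mul_cancel_left, mul_inv_cancel, inv_mul_cancel, mul_one, one_mul, inv_one, C]) (by simp only [mul_assoc, mul_inv_rev, inv_inv, mul_inv_cancel_left, inv_mul_cancel_left, mul_inv_cancel, inv_mul_cancel, mul_one, one_mul, inv_one, C])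
  have k51 : o.lt (m * g⁻¹) (m * f⁻¹) ↔ o.lt (m * g⁻¹) (m * f⁻¹) := o.cv hδ (1) e35 (by simp only [mul_assoc, mul_inv_rev, inv_inv, mul_inv_cancel_left, inv_mul_cancel_left, mul_inv_cancel, inv_mul_cancel, mul_one, one_mul, inv_one, C]) (by simp only [mul_assoc, mul_inv_rev, inv_inv, mul_inv_cancel_left, inv_mul_cancel_left, mul_inv_cancel, inv_mul_cancel, mul_one, one_mul, inv_one, C])
  have k52 : o.lt (f * m⁻¹) (P * f⁻¹) ↔ o.lt (m * f⁻¹) (P * m⁻¹) := o.cv hδ (m * (f⁻¹ * (m * f⁻¹))) e18 (by simp only [mul_assoc, mul_inv_rev, inv_inv, mul_inv_cancel_left, inv_mul_cancel_left, mul_inv_cancel, inv_mul_cancel, mul_one, one_mul, inv_one, C]) (by simp only [mul_assoc, mul_inv_rev, inv_inv, mul_inv_cancel_left, inv_mul_cancel_left, mul_inv_cancel, inv_mul_cancel, mul_one, one_mul, inv_one, C])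
  have k53 : o.lt (g * m⁻¹) (P * g⁻¹) ↔ o.lt (m * g⁻¹) (P * m⁻¹) := o.cv hδ (m * (g⁻¹ * (m * g⁻¹))) e22 (by simp only [mul_assoc, mul_inv_rev, inv_inv, mul_inv_cancel_left, inv_mul_cancel_left, mul_inv_cancel, inv_mul_cancel, mul_one, one_mul, inv_one, C]) (by simp only [mul_assoc, mul_inv_rev, inv_inv, mul_inv_cancel_left, inv_mul_cancel_left, mul_inv_cancel, inv_mul_cancel, mul_one, one_mul, inv_one, C])
  have k54 : o.lt (f * m⁻¹) (Q * f⁻¹) ↔ o.lt (m * f⁻¹) (Q * m⁻¹) := o.cv hδ (m * (f⁻¹ * (m * f⁻¹))) e20 (by simp only [mul_assoc, mul_inv_rev, inv_inv, mul_inv_cancel_left, inv_mul_cancel_left, mul_inv_cancel, inv_mul_cancel, mul_one, one_mul, inv_one, C]) (by simp only [mul_assoc, mul_inv_rev, inv_inv, mul_inv_cancel_left, inv_mul_cancel_left, mul_inv_cancel, inv_mul_cancel, mul_one, one_mul, inv_one, C])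
  have k55 : o.lt (g * m⁻¹) (Q * g⁻¹) ↔ o.lt (m * g⁻¹) (Q * m⁻¹) := o.cv hδ (m * (g⁻¹ * (m * g⁻¹))) e23 (by simp only [mul_assoc, mul_inv_rev, inv_inv, mul_inv_cancel_left, inv_mul_cancel_left, mul_inv_cancel, inv_mul_cancel, mul_one, one_mul, inv_one, C]) (by simp only [mul_assoc, mul_inv_rev, inv_inv, mul_inv_cancel_left, inv_mul_cancel_left, mul_inv_cancel, inv_mul_cancel, mul_one, one_mul, inv_one, C])
  have k56 : o.lt (Q * f⁻¹) (f * m⁻¹) ↔ o.lt (Q * m⁻¹) (m * f⁻¹) := o.cv hδ (f * m⁻¹) e28 (by simp only [mul_assoc, mul_inv_rev, inv_inv, mul_inv_cancel_left, inv_mul_cancel_left, mul_inv_cancel, inv_mul_cancel, mul_one, one_mul, inv_one, C]) (by simp only [mul_assoc, mul_inv_rev, inv_inv, mul_inv_cancel_left, inv_mul_cancel_left, mul_inv_cancel, inv_mul_cancel, mul_one, one_mul, inv_one, C])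
  have k57 : o.lt (g * Q⁻¹) (f * P⁻¹) ↔ o.lt (g * Q⁻¹) (f * P⁻¹) := o.cv hδ (1) e36 (by simp only [mul_assoc, mul_inv_rev, inv_inv, mul_inv_cancel_left, inv_mul_cancel_left, mul_inv_cancel, inv_mul_cancel, mul_one, one_mul, inv_one, C]) (by simp only [mul_assoc, mul_inv_rev, inv_inv, mul_inv_cancel_left, inv_mul_cancel_left, mul_inv_cancel, inv_mul_cancel, mul_one, one_mul, inv_one, C])
  have k58 : o.lt (g * Q⁻¹) (g * P⁻¹) ↔ o.lt (g * Q⁻¹) (g * P⁻¹) := o.cv hδ (1) e37 (by simp only [mul_assoc, mul_inv_rev, inv_inv, mul_inv_cancel_left, inv_mul_cancel_left, mul_inv_cancel, inv_mul_cancel, mul_one, one_mul, inv_one, C]) (by simp only [mul_assoc, mul_inv_rev, inv_inv, mul_inv_cancel_left, inv_mul_cancel_left, mul_inv_cancel, inv_mul_cancel, mul_one, one_mul, inv_one, C])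
  have k59 : o.lt (g * P⁻¹) (f * P⁻¹) ↔ o.lt (g * Q⁻¹) (f * Q⁻¹) := o.cv hδ (P * Q⁻¹) e8 (by simp only [mul_assoc, mul_inv_rev, inv_inv, mul_inv_cancel_left, inv_mul_cancel_left, mul_inv_cancel, inv_mul_cancel, mul_one, one_mul, inv_one, C]) (by simp only [mul_assoc, mul_inv_rev, inv_inv, mul_inv_cancel_left, inv_mul_cancel_left, mul_inv_cancel, inv_mul_cancel, mul_one, one_mul, inv_one, C])
  have k60 : o.lt (f * Q⁻¹) (g * P⁻¹) ↔ o.lt (f * Q⁻¹) (g * P⁻¹) := o.cv hδ (1) e2 (by simp only [mul_assoc, mul_inv_rev, inv_inv, mul_inv_cancel_left, inv_mul_cancel_left, mul_inv_cancel, inv_mul_cancel, mul_one, one_mul, inv_one, C]) (by simp only [mul_assoc, mul_inv_rev, inv_inv, mul_inv_cancel_left, inv_mul_cancel_left, mul_inv_cancel, inv_mul_cancel, mul_one, one_mul, inv_one, C])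
  have k61 : o.lt (g * Q⁻¹) (m * g⁻¹) ↔ o.lt (g * Q⁻¹) (m * g⁻¹) := o.cv hδ (1) e27 (by simp only [mul_assoc, mul_inv_rev, inv_inv, mul_inv_cancel_left, inv_mul_cancel_left, mul_inv_cancel, inv_mul_cancel, mul_one, one_mul, inv_one, C]) (by simp only [mul_assoc, mul_inv_rev, inv_inv, mul_inv_cancel_left, inv_mul_cancel_left, mul_inv_cancel, inv_mul_cancel, mul_one, one_mul, inv_one, C])
  have k62 : o.lt (f * Q⁻¹) (m * g⁻¹) ↔ o.lt (f * Q⁻¹) (m * g⁻¹) := o.cv hδ (1) e6 (by simp only [mul_assoc, mul_inv_rev, inv_inv, mul_inv_cancel_left, inv_mul_cancel_left, mul_inv_cancel, inv_mul_cancel, mul_one, one_mul, inv_one, C]) (by simp only [mul_assoc, mul_inv_rev, inv_inv, mul_inv_cancel_left, inv_mul_cancel_left, mul_inv_cancel, inv_mul_cancel, mul_one, one_mul, inv_one, C])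
  have k63 : o.lt (f * Q⁻¹) (P * m⁻¹) ↔ o.lt (f * Q⁻¹) (P * m⁻¹) := o.cv hδ (1) e10 (by simp only [mul_assoc, mul_inv_rev, inv_inv, mul_inv_cancel_left, inv_mul_cancel_left, mul_inv_cancel, inv_mul_cancel, mul_one, one_mul, inv_one, C]) (by simp only [mul_assoc, mul_inv_rev, inv_inv, mul_inv_cancel_left, inv_mul_cancel_left, mul_inv_cancel, inv_mul_cancel, mul_one, one_mul, inv_one, C])
  have k64 : o.lt (P * m⁻¹) (m * g⁻¹) ↔ o.lt (P * m⁻¹) (m * g⁻¹) := o.cv hδ (1) e16 (by simp only [mul_assoc, mul_inv_rev, inv_inv, mul_inv_cancel_left, inv_mul_cancel_left, mul_inv_cancel, inv_mul_cancel, mul_one, one_mul, inv_one, C]) (by simp only [mul_assoc, mul_inv_rev, inv_inv, mul_inv_cancel_left, inv_mul_cancel_left, mul_inv_cancel, inv_mul_cancel, mul_one, one_mul, inv_one, C])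
  have k65 : o.lt (P * f⁻¹) (f * m⁻¹) ↔ o.lt (P * m⁻¹) (m * f⁻¹) := o.cv hδ (f * m⁻¹) e12 (by simp only [mul_assoc, mul_inv_rev, inv_inv, mul_inv_cancel_left, inv_mul_cancel_left, mul_inv_cancel, inv_mul_cancel, mul_one, one_mul, inv_one, C]) (by simp only [mul_assoc, mul_inv_rev, inv_inv, mul_inv_cancel_left, inv_mul_cancel_left, mul_inv_cancel, inv_mul_cancel, mul_one, one_mul, inv_one, C])
  have k66 : o.lt (f * (Q⁻¹ * (f * m⁻¹))) (f * (Q⁻¹ * (g * m⁻¹))) ↔ o.lt (Q * (f⁻¹ * (Q * g⁻¹))) (f * Q⁻¹) := o.cv hδ (m * (f⁻¹ * (Q * (f⁻¹ * (Q * (f⁻¹ * (Q * g⁻¹))))))) e3 (by simp only [mul_assoc, mul_inv_rev, inv_inv, mul_inv_cancel_left, inv_mul_cancel_left, mul_inv_cancel, inv_mul_cancel, mul_one, one_mul, inv_one, C]) (by simp only [mul_assoc, mul_inv_rev, inv_inv, mul_inv_cancel_left, inv_mul_cancel_left, mul_inv_cancel, inv_mul_cancel, mul_one, one_mul, inv_one, C])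
  have k67 : o.lt (Q * f⁻¹) (Q * g⁻¹) ↔ o.lt (Q * (f⁻¹ * (Q * g⁻¹))) (g * Q⁻¹) := o.cv hδ (Q * g⁻¹) e30 (by simp only [mul_assoc, mul_inv_rev, inv_inv, mul_inv_cancel_left, inv_mul_cancel_left, mul_inv_cancel, inv_mul_cancel, mul_one, one_mul, inv_one, C]) (by simp only [mul_assoc, mul_inv_rev, inv_inv, mul_inv_cancel_left, inv_mul_cancel_left, mul_inv_cancel, inv_mul_cancel, mul_one, one_mul, inv_one, C])
  have k68 : o.lt (f * (Q⁻¹ * (P * f⁻¹))) (f * (Q⁻¹ * (g * m⁻¹))) ↔ o.lt (f * (Q⁻¹ * (P * f⁻¹))) (f * (Q⁻¹ * (g * m⁻¹))) := o.cv hδ (1) e0 (by simp only [mul_assoc, mul_inv_rev, inv_inv, mul_inv_cancel_left, inv_mul_cancel_left, mul_inv_cancel, inv_mul_cancel, mul_one, one_mul, inv_one, C]) (by simp only [mul_assoc, mul_inv_rev, inv_inv, mul_inv_cancel_left, inv_mul_cancel_left, mul_inv_cancel, inv_mul_cancel, mul_one, one_mul, inv_one, C])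
  have k69 : o.lt (f * (Q⁻¹ * (g * m⁻¹))) (f * (Q⁻¹ * (P * f⁻¹))) ↔ o.lt (f * (Q⁻¹ * (g * m⁻¹))) (f * (Q⁻¹ * (P * f⁻¹))) := o.cv hδ (1) e5 (by simp only [mul_assoc, mul_inv_rev, inv_inv, mul_inv_cancel_left, inv_mul_cancel_left, mul_inv_cancel, inv_mul_cancel, mul_one, one_mul, inv_one, C]) (by simp only [mul_assoc, mul_inv_rev, inv_inv, mul_inv_cancel_left, inv_mul_cancel_left, mul_inv_cancel, inv_mul_cancel, mul_one, one_mul, inv_one, C])
  have k70 : o.lt (f * Q⁻¹) (m * g⁻¹) ↔ o.lt (f * (Q⁻¹ * (g * m⁻¹))) (1) := o.cv hδ (g * m⁻¹) e6 (by simp only [mul_assoc, mul_inv_rev, inv_inv, mul_inv_cancel_left, inv_mul_cancel_left, mul_inv_cancel, inv_mul_cancel, mul_one, one_mul, inv_one, C]) (by simp only [mul_assoc, mul_inv_rev, inv_inv, mul_inv_cancel_left, inv_mul_cancel_left, mul_inv_cancel, inv_mul_cancel, mul_one, one_mul, inv_one, C])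
  have k71 : o.lt (f * Q⁻¹) (f * P⁻¹) ↔ o.lt (f * (Q⁻¹ * (P * f⁻¹))) (1) := o.cv hδ (P * f⁻¹) e1 (by simp only [mul_assoc, mul_inv_rev, inv_inv, mul_inv_cancel_left, inv_mul_cancel_left, mul_inv_cancel, inv_mul_cancel, mul_one, one_mul, inv_one, C]) (by simp only [mul_assoc, mul_inv_rev, inv_inv, mul_inv_cancel_left, inv_mul_cancel_left, mul_inv_cancel, inv_mul_cancel, mul_one, one_mul, inv_one, C])
  have k72 : o.lt (f * Q⁻¹) (P * m⁻¹) ↔ o.lt (f * (Q⁻¹ * (m * P⁻¹))) (1) := o.cv hδ (m * P⁻¹) e10 (by simp only [mul_assoc, mul_inv_rev, inv_inv, mul_inv_cancel_left, inv_mul_cancel_left, mul_inv_cancel, inv_mul_cancel, mul_one, one_mul, inv_one, C]) (by simp only [mul_assoc, mul_inv_rev, inv_inv, mul_inv_cancel_left, inv_mul_cancel_left, mul_inv_cancel, inv_mul_cancel, mul_one, one_mul, inv_one, C])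
  have k73 : o.lt (f * (Q⁻¹ * (m * g⁻¹))) (f * (Q⁻¹ * (g * P⁻¹))) ↔ o.lt (f * (Q⁻¹ * (m * P⁻¹))) (f * (Q⁻¹ * (P * g⁻¹))) := o.cv hδ (g * P⁻¹) e9 (by simp only [mul_assoc, mul_inv_rev, inv_inv, mul_inv_cancel_left, inv_mul_cancel_left, mul_inv_cancel, inv_mul_cancel, mul_one, one_mul, inv_one, C]) (by simp only [mul_assoc, mul_inv_rev, inv_inv, mul_inv_cancel_left, inv_mul_cancel_left, mul_inv_cancel, inv_mul_cancel, mul_one, one_mul, inv_one, C])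
  have k74 : o.lt (f * Q⁻¹) (g * P⁻¹) ↔ o.lt (f * (Q⁻¹ * (P * g⁻¹))) (1) := o.cv hδ (P * g⁻¹) e2 (by simp only [mul_assoc, mul_inv_rev, inv_inv, mul_inv_cancel_left, inv_mul_cancel_left, mul_inv_cancel, inv_mul_cancel, mul_one, one_mul, inv_one, C]) (by simp only [mul_assoc, mul_inv_rev, inv_inv, mul_inv_cancel_left, inv_mul_cancel_left, mul_inv_cancel, inv_mul_cancel, mul_one, one_mul, inv_one, C])
  have k75 : o.lt (g * P⁻¹) (f * P⁻¹) ↔ o.lt ((P * g⁻¹)⁻¹) ((P * f⁻¹)⁻¹) := o.cv hδ (1) e8 (by simp only [mul_assoc, mul_inv_rev, inv_inv, mul_inv_cancel_left, inv_mul_cancel_left, mul_inv_cancel, inv_mul_cancel, mul_one, one_mul, inv_one, C]) (by simp only [mul_assoc, mul_inv_rev, inv_inv, mul_inv_cancel_left, inv_mul_cancel_left, mul_inv_cancel, inv_mul_cancel, mul_one, one_mul, inv_one, C])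
  have k76 : o.lt (f * Q⁻¹) (g * P⁻¹) ↔ o.lt ((Q * f⁻¹)⁻¹) ((P * g⁻¹)⁻¹) := o.cv hδ (1) e2 (by simp only [mul_assoc, mul_inv_rev, inv_inv, mul_inv_cancel_left, inv_mul_cancel_left, mul_inv_cancel, inv_mul_cancel, mul_one, one_mul, inv_one, C]) (by simp only [mul_assoc, mul_inv_rev, inv_inv, mul_inv_cancel_left, inv_mul_cancel_left, mul_inv_cancel, inv_mul_cancel, mul_one, one_mul, inv_one, C])
  exact ser_ABE_0_prop
    (fun b0 b1 b2 => N0.rd.r1 1 (fun h => b0 (k0.2 h)) (fun h => b1 (k1.2 h)) (k2.1 b2))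
    (fun b0 b1 b2 => N0.r.r0 1 (fun h => b0 (k3.2 h)) (k1.1 b1) (fun h => b2 (k4.2 h)))
    (fun b0 b1 b2 => N0.rd.r0 1 (fun h => b0 (k5.2 h)) (k6.1 b1) (fun h => b2 (k2.2 h)))
    (fun b0 b1 b2 => N0.i.r0 1 (fun h => b0 (k7.2 h)) (k8.1 b1) (fun h => b2 (k9.2 h)))
    (fun b0 b1 b2 b3 => N1.d.r0 1 (fun h => b0 (k10.2 h)) (fun h => b1 (k11.2 h)) (k12.1 b2) (fun h => b3 (k13.2 h)))
    (fun b0 b1 b2 b3 => N1.d.r1 1 (fun h => b0 (k12.2 h)) (k14.1 b1) (fun h => b2 (k15.2 h)) (fun h => b3 (k13.2 h)))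
    (fun b0 b1 b2 b3 => N1.r.r0 1 (fun h => b0 (k16.2 h)) (fun h => b1 (k17.2 h)) (k3.1 b2) (fun h => b3 (k13.2 h)))
    (fun b0 b1 b2 => N0.d.r1 (f * Q⁻¹) (fun h => b0 (k18.2 h)) (fun h => b1 (k19.2 h)) (k20.1 b2))
    (fun b0 b1 => o.asym (k21.1 b0) (k22.1 b1))
    (fun b0 b1 => o.asym (k23.1 b0) (k24.1 b1))
    (fun b0 b1 => o.asym (k25.1 b0) (k26.1 b1))
    (fun b0 b1 b2 => o.tri (k25.1 b0) (fun h => b1 (k23.2 h)) (fun h => b2 (k27.2 h)))
    (fun b0 b1 b2 => o.tri (k22.1 b0) (fun h => b1 (k28.2 h)) (fun h => b2 (k29.2 h)))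
    (fun b0 b1 b2 => o.tri (k30.1 b0) (fun h => b1 (k24.2 h)) (fun h => b2 (k21.2 h)))
    (fun b0 b1 => o.asym (k31.1 b0) (k32.1 b1))
    (fun b0 b1 b2 => o.tri (k31.1 b0) (fun h => b1 (k33.2 h)) (fun h => b2 (k34.2 h)))
    (fun b0 b1 b2 => o.tri (k27.1 b0) (fun h => b1 (k33.2 h)) (fun h => b2 (k35.2 h)))
    (fun b0 b1 b2 => o.tri (k36.1 b0) (fun h => b1 (k26.2 h)) (fun h => b2 (k37.2 h)))
    (fun b0 b1 b2 => o.tri (k36.1 b0) (fun h => b1 (k38.2 h)) (fun h => b2 (k33.2 h)))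
    (fun b0 b1 b2 => o.tri (k38.1 b0) (fun h => b1 (k26.2 h)) (fun h => b2 (k23.2 h)))
    (fun b0 b1 b2 => o.tri (k39.1 b0) (fun h => b1 (k38.2 h)) (fun h => b2 (k31.2 h)))
    (fun b0 b1 => o.asym (k40.1 b0) (k41.1 b1))
    (fun b0 b1 b2 => o.tri (k40.1 b0) (fun h => b1 (k39.2 h)) (fun h => b2 (k42.2 h)))
    (fun b0 b1 => o.asym (k43.1 b0) (k44.1 b1))
    (fun b0 b1 b2 => o.tri (k45.1 b0) (fun h => b1 (k46.2 h)) (fun h => b2 (k43.2 h)))
    (fun b0 b1 b2 => o.tri (k47.1 b0) (fun h => b1 (k48.2 h)) (fun h => b2 (k44.2 h)))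
    (fun b0 b1 b2 => o.tri (k47.1 b0) (fun h => b1 (k49.2 h)) (fun h => b2 (k50.2 h)))
    (fun b0 b1 => o.asym (k48.1 b0) (k51.1 b1))
    (fun b0 b1 b2 => o.tri (k52.1 b0) (fun h => b1 (k48.2 h)) (fun h => b2 (k53.2 h)))
    (fun b0 b1 b2 => o.tri (k54.1 b0) (fun h => b1 (k48.2 h)) (fun h => b2 (k55.2 h)))
    (fun b0 b1 b2 => o.tri (k51.1 b0) (fun h => b1 (k55.2 h)) (fun h => b2 (k56.2 h)))
    (fun b0 b1 b2 => o.tri (k57.1 b0) (fun h => b1 (k58.2 h)) (fun h => b2 (k46.2 h)))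
    (fun b0 b1 b2 => o.tri (k58.1 b0) (fun h => b1 (k59.2 h)) (fun h => b2 (k60.2 h)))
    (fun b0 b1 b2 => o.tri (k61.1 b0) (fun h => b1 (k57.2 h)) (fun h => b2 (k43.2 h)))
    (fun b0 b1 b2 => o.tri (k50.1 b0) (fun h => b1 (k60.2 h)) (fun h => b2 (k46.2 h)))
    (fun b0 b1 b2 => o.tri (k62.1 b0) (fun h => b1 (k50.2 h)) (fun h => b2 (k43.2 h)))
    (fun b0 b1 b2 => o.tri (k62.1 b0) (fun h => b1 (k63.2 h)) (fun h => b2 (k64.2 h)))
    (fun b0 b1 b2 => o.tri (k64.1 b0) (fun h => b1 (k65.2 h)) (fun h => b2 (k48.2 h)))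
    (fun b0 b1 b2 => o.tri (k66.1 b0) (fun h => b1 (k67.2 h)) (fun h => b2 (k59.2 h)))
    (fun b0 b1 => o.asym (k68.1 b0) (k69.1 b1))
    (fun b0 b1 b2 => o.tri (k70.1 b0) (fun h => b1 (k69.2 h)) (fun h => b2 (k71.2 h)))
    (fun b0 b1 b2 => o.tri (k72.1 b0) (fun h => b1 (k73.2 h)) (fun h => b2 (k74.2 h)))
    (k25.2 g0)
    (fun h => g1 (k75.1 h))
    (fun h => g2 (k76.1 h))

theorem ser_ABE_1_prop {A1 A2 A3 A4 A5 A6 A7 A8 A9 A10 A11 A12 A13 A14 A15 A16 A17 A18 A19 A20 A21 A22 A23 A24 A25 A26 A27 : Prop}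
    (c0 : ¬ A15 → ¬ A26 → A17 → False)
    (c1 : ¬ A25 → A26 → ¬ A21 → False)
    (c2 : ¬ A19 → A18 → ¬ A20 → False)
    (c3 : ¬ A15 → ¬ A22 → A20 → False)
    (c4 : ¬ A16 → ¬ A6 → A4 → ¬ A15 → False)
    (c5 : ¬ A5 → A8 → ¬ A7 → False)
    (c6 : ¬ A1 → ¬ A2 → A7 → False)
    (c7 : A17 → A21 → False)
    (c8 : A18 → A22 → False)
    (c9 : A19 → ¬ A20 → ¬ A24 → False)
    (c10 : A14 → A16 → False)
    (c11 : A12 → ¬ A14 → ¬ A1 → False)
    (c12 : A23 → ¬ A1 → ¬ A3 → False)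
    (c13 : A16 → ¬ A23 → ¬ A18 → False)
    (c14 : A16 → ¬ A1 → ¬ A10 → False)
    (c15 : A1 → A4 → False)
    (c16 : A6 → ¬ A3 → ¬ A17 → False)
    (c17 : A24 → ¬ A13 → ¬ A3 → False)
    (c18 : A25 → A27 → False)
    (c19 : A6 → ¬ A16 → ¬ A27 → False)
    (c20 : A2 → ¬ A3 → ¬ A12 → False)
    (c21 : A5 → A9 → False)
    (c22 : A10 → ¬ A8 → ¬ A3 → False)
    (c23 : A11 → ¬ A12 → ¬ A9 → False)
    (c24 : A13 → ¬ A11 → ¬ A7 → False)
    (u0 : ¬ A3)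
    (u1 : A4)
    (u2 : ¬ A15)
    : False := by
  have q1 : ¬ A1 := fun h => c15 h u1
  have q2 : ¬ A23 := fun h => c12 h q1 u0
  rcases Classical.em A16 with q3 | q3
  · have q4 : ¬ A14 := fun h => c10 h q3
    have q5 : ¬ A12 := fun h => c11 h q4 q1
    have q6 : A18 := Classical.byContradiction fun h => c13 q3 q2 h
    have q7 : ¬ A22 := fun h => c8 q6 h
    have q8 : ¬ A20 := fun h => c3 u2 q7 h
    have q9 : A19 := Classical.byContradiction fun h => c2 h q6 q8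
    have q10 : A24 := Classical.byContradiction fun h => c9 q9 q8 h
    have q11 : A10 := Classical.byContradiction fun h => c14 q3 q1 h
    have q12 : A13 := Classical.byContradiction fun h => c17 q10 h u0
    have q13 : ¬ A2 := fun h => c20 h u0 q5
    have q14 : ¬ A7 := fun h => c6 q1 q13 h
    have q15 : A8 := Classical.byContradiction fun h => c22 q11 h u0
    have q16 : A5 := Classical.byContradiction fun h => c5 h q15 q14
    have q17 : ¬ A9 := fun h => c21 q16 h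
    have q18 : ¬ A11 := fun h => c23 h q5 q17
    exact c24 q12 q18 q14
  · have q19 : A6 := Classical.byContradiction fun h => c4 q3 h u1 u2
    have q20 : A17 := Classical.byContradiction fun h => c16 q19 u0 h
    have q21 : A26 := Classical.byContradiction fun h => c0 u2 h q20
    have q22 : ¬ A21 := fun h => c7 q20 h
    have q23 : A25 := Classical.byContradiction fun h => c1 h q21 q22
    have q24 : ¬ A27 := fun h => c18 q23 h
    exact c19 q19 q3 q24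

theorem ser_ABE_1 {G : Type*} [Group G] {δ : G → ZMod 3} (hδ : ∀ u v, δ (u * v) = δ u + δ v) (o : Pre δ)
    {P m Q f g : G} {e : ZMod 3} (h3 : 3 * e = 0)
    (D : δ P = e ∧ δ m = -e ∧ δ Q = e ∧ δ f = 0 ∧ δ g = 0)
    (C : Cube P f ∧ Cube P g ∧ Cube m f ∧ Cube m g ∧ Cube Q f ∧ Cube Q g)
    (N0 : RA o P m f g)
    (N1 : RB o Q m g f)
    (g0 : ¬ o.lt (Q * f⁻¹) (P * f⁻¹)) (g1 : o.lt (Q * f⁻¹) (Q * g⁻¹)) (g2 : ¬ o.lt ((P * g⁻¹)⁻¹) ((P * f⁻¹)⁻¹)) : False := by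
  simp only [Cube] at C
  have e0 : δ (Q * P⁻¹) = δ (Q * (f⁻¹ * (g * P⁻¹))) := by simp only [hδ, δinv hδ, δone hδ, D] <;> linear_combination (0) * h3
  have e1 : δ (Q * P⁻¹) = δ (Q * (f⁻¹ * (m * g⁻¹))) := by simp only [hδ, δinv hδ, δone hδ, D] <;> linear_combination (0) * h3
  have e2 : δ (Q * f⁻¹) = δ (P * f⁻¹) := by simp only [hδ, δinv hδ, δone hδ, D] <;> linear_combination (0) * h3
  have e3 : δ (Q * f⁻¹) = δ (Q * g⁻¹) := by simp only [hδ, δinv hδ, δone hδ, D] <;> linear_combination (0) * h3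
  have e4 : δ (Q * (m⁻¹ * (f * m⁻¹))) = δ (Q * (f⁻¹ * (m * g⁻¹))) := by simp only [hδ, δinv hδ, δone hδ, D] <;> linear_combination (1) * h3
  have e5 : δ (Q * f⁻¹) = δ (f * m⁻¹) := by simp only [hδ, δinv hδ, δone hδ, D] <;> linear_combination (0) * h3
  have e6 : δ (Q * m⁻¹) = δ (Q * (P⁻¹ * (f * P⁻¹))) := by simp only [hδ, δinv hδ, δone hδ, D] <;> linear_combination (1) * h3
  have e7 : δ (Q * (f⁻¹ * (m * g⁻¹))) = δ (Q * P⁻¹) := by simp only [hδ, δinv hδ, δone hδ, D] <;> linear_combination (0) * h3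
  have e8 : δ (Q * (f⁻¹ * (m * g⁻¹))) = δ (Q * (m⁻¹ * (f * m⁻¹))) := by simp only [hδ, δinv hδ, δone hδ, D] <;> linear_combination (-1) * h3
  have e9 : δ (Q * f⁻¹) = δ (g * m⁻¹) := by simp only [hδ, δinv hδ, δone hδ, D] <;> linear_combination (0) * h3
  have e10 : δ (1) = δ (Q * (m⁻¹ * (f * m⁻¹))) := by simp only [hδ, δinv hδ, δone hδ, D] <;> linear_combination (-1) * h3
  have e11 : δ (g * m⁻¹) = δ (Q * f⁻¹) := by simp only [hδ, δinv hδ, δone hδ, D] <;> linear_combination (0) * h3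
  have e12 : δ (m * P⁻¹) = δ (Q * f⁻¹) := by simp only [hδ, δinv hδ, δone hδ, D] <;> linear_combination (-1) * h3
  have e13 : δ (g * m⁻¹) = δ (Q * g⁻¹) := by simp only [hδ, δinv hδ, δone hδ, D] <;> linear_combination (0) * h3
  have e14 : δ (g * P⁻¹) = δ (f * P⁻¹) := by simp only [hδ, δinv hδ, δone hδ, D] <;> linear_combination (0) * h3
  have e15 : δ (Q * g⁻¹) = δ (g * m⁻¹) := by simp only [hδ, δinv hδ, δone hδ, D] <;> linear_combination (0) * h3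
  have e16 : δ (P * f⁻¹) = δ (f * m⁻¹) := by simp only [hδ, δinv hδ, δone hδ, D] <;> linear_combination (0) * h3
  have e17 : δ (P * f⁻¹) = δ (g * m⁻¹) := by simp only [hδ, δinv hδ, δone hδ, D] <;> linear_combination (0) * h3
  have e18 : δ (P * g⁻¹) = δ (P * f⁻¹) := by simp only [hδ, δinv hδ, δone hδ, D] <;> linear_combination (0) * h3
  have e19 : δ (g * P⁻¹) = δ (m * g⁻¹) := by simp only [hδ, δinv hδ, δone hδ, D] <;> linear_combination (0) * h3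
  have e20 : δ (f * m⁻¹) = δ (P * f⁻¹) := by simp only [hδ, δinv hδ, δone hδ, D] <;> linear_combination (0) * h3
  have e21 : δ (g * m⁻¹) = δ (P * f⁻¹) := by simp only [hδ, δinv hδ, δone hδ, D] <;> linear_combination (0) * h3
  have e22 : δ (Q * g⁻¹) = δ (P * f⁻¹) := by simp only [hδ, δinv hδ, δone hδ, D] <;> linear_combination (0) * h3
  have e23 : δ (m * P⁻¹) = δ (P * f⁻¹) := by simp only [hδ, δinv hδ, δone hδ, D] <;> linear_combination (-1) * h3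
  have e24 : δ (m * f⁻¹) = δ (m * g⁻¹) := by simp only [hδ, δinv hδ, δone hδ, D] <;> linear_combination (0) * h3
  have e25 : δ (m * g⁻¹) = δ (f * P⁻¹) := by simp only [hδ, δinv hδ, δone hδ, D] <;> linear_combination (0) * h3
  have e26 : δ (m * g⁻¹) = δ (m * f⁻¹) := by simp only [hδ, δinv hδ, δone hδ, D] <;> linear_combination (0) * h3
  have k0 : o.lt (g * P⁻¹) (f * P⁻¹) ↔ o.lt (1 * (g * P⁻¹)) (1 * (f * P⁻¹)) := o.cv hδ (1) e14 (by simp only [mul_assoc, mul_inv_rev, inv_inv, mul_inv_cancel_left, inv_mul_cancel_left, mul_inv_cancel, inv_mul_cancel, mul_one, one_mul, inv_one, C]) (by simp only [mul_assoc, mul_inv_rev, inv_inv, mul_inv_cancel_left, inv_mul_cancel_left, mul_inv_cancel, inv_mul_cancel, mul_one, one_mul, inv_one, C])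
  have k1 : o.lt (m * g⁻¹) (f * P⁻¹) ↔ o.lt (1 * (m * g⁻¹)) (1 * (f * P⁻¹)) := o.cv hδ (1) e25 (by simp only [mul_assoc, mul_inv_rev, inv_inv, mul_inv_cancel_left, inv_mul_cancel_left, mul_inv_cancel, inv_mul_cancel, mul_one, one_mul, inv_one, C]) (by simp only [mul_assoc, mul_inv_rev, inv_inv, mul_inv_cancel_left, inv_mul_cancel_left, mul_inv_cancel, inv_mul_cancel, mul_one, one_mul, inv_one, C])
  have k2 : o.lt (P * f⁻¹) (f * m⁻¹) ↔ o.lt (1 * (f * P⁻¹)⁻¹) (1 * (m * f⁻¹)⁻¹) := o.cv hδ (1) e16 (by simp only [mul_assoc, mul_inv_rev, inv_inv, mul_inv_cancel_left, inv_mul_cancel_left, mul_inv_cancel, inv_mul_cancel, mul_one, one_mul, inv_one, C]) (by simp only [mul_assoc, mul_inv_rev, inv_inv, mul_inv_cancel_left, inv_mul_cancel_left, mul_inv_cancel, inv_mul_cancel, mul_one, one_mul, inv_one, C])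
  have k3 : o.lt (m * f⁻¹) (m * g⁻¹) ↔ o.lt (1 * (m * f⁻¹)) (1 * (m * g⁻¹)) := o.cv hδ (1) e24 (by simp only [mul_assoc, mul_inv_rev, inv_inv, mul_inv_cancel_left, inv_mul_cancel_left, mul_inv_cancel, inv_mul_cancel, mul_one, one_mul, inv_one, C]) (by simp only [mul_assoc, mul_inv_rev, inv_inv, mul_inv_cancel_left, inv_mul_cancel_left, mul_inv_cancel, inv_mul_cancel, mul_one, one_mul, inv_one, C])
  have k4 : o.lt (f * m⁻¹) (P * f⁻¹) ↔ o.lt (1 * (m * f⁻¹)⁻¹) (1 * (f * P⁻¹)⁻¹) := o.cv hδ (1) e20 (by simp only [mul_assoc, mul_inv_rev, inv_inv, mul_inv_cancel_left, inv_mul_cancel_left, mul_inv_cancel, inv_mul_cancel, mul_one, one_mul, inv_one, C]) (by simp only [mul_assoc, mul_inv_rev, inv_inv, mul_inv_cancel_left, inv_mul_cancel_left, mul_inv_cancel, inv_mul_cancel, mul_one, one_mul, inv_one, C])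
  have k5 : o.lt (P * g⁻¹) (P * f⁻¹) ↔ o.lt (1 * (P * g⁻¹)) (1 * (P * f⁻¹)) := o.cv hδ (1) e18 (by simp only [mul_assoc, mul_inv_rev, inv_inv, mul_inv_cancel_left, inv_mul_cancel_left, mul_inv_cancel, inv_mul_cancel, mul_one, one_mul, inv_one, C]) (by simp only [mul_assoc, mul_inv_rev, inv_inv, mul_inv_cancel_left, inv_mul_cancel_left, mul_inv_cancel, inv_mul_cancel, mul_one, one_mul, inv_one, C])
  have k6 : o.lt (P * f⁻¹) (g * m⁻¹) ↔ o.lt (1 * (P * f⁻¹)) (1 * (g * m⁻¹)) := o.cv hδ (1) e17 (by simp only [mul_assoc, mul_inv_rev, inv_inv, mul_inv_cancel_left, inv_mul_cancel_left, mul_inv_cancel, inv_mul_cancel, mul_one, one_mul, inv_one, C]) (by simp only [mul_assoc, mul_inv_rev, inv_inv, mul_inv_cancel_left, inv_mul_cancel_left, mul_inv_cancel, inv_mul_cancel, mul_one, one_mul, inv_one, C])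
  have k7 : o.lt (g * P⁻¹) (m * g⁻¹) ↔ o.lt (1 * (P * g⁻¹)⁻¹) (1 * (g * m⁻¹)⁻¹) := o.cv hδ (1) e19 (by simp only [mul_assoc, mul_inv_rev, inv_inv, mul_inv_cancel_left, inv_mul_cancel_left, mul_inv_cancel, inv_mul_cancel, mul_one, one_mul, inv_one, C]) (by simp only [mul_assoc, mul_inv_rev, inv_inv, mul_inv_cancel_left, inv_mul_cancel_left, mul_inv_cancel, inv_mul_cancel, mul_one, one_mul, inv_one, C])
  have k8 : o.lt (g * P⁻¹) (f * P⁻¹) ↔ o.lt (1 * (g * m⁻¹)) (1 * (f * m⁻¹)) := o.cv hδ (P * m⁻¹) e14 (by simp only [mul_assoc, mul_inv_rev, inv_inv, mul_inv_cancel_left, inv_mul_cancel_left, mul_inv_cancel, inv_mul_cancel, mul_one, one_mul, inv_one, C]) (by simp only [mul_assoc, mul_inv_rev, inv_inv, mul_inv_cancel_left, inv_mul_cancel_left, mul_inv_cancel, inv_mul_cancel, mul_one, one_mul, inv_one, C])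
  have k9 : o.lt (g * m⁻¹) (P * f⁻¹) ↔ o.lt (1 * (g * m⁻¹)) (1 * (P * f⁻¹)) := o.cv hδ (1) e21 (by simp only [mul_assoc, mul_inv_rev, inv_inv, mul_inv_cancel_left, inv_mul_cancel_left, mul_inv_cancel, inv_mul_cancel, mul_one, one_mul, inv_one, C]) (by simp only [mul_assoc, mul_inv_rev, inv_inv, mul_inv_cancel_left, inv_mul_cancel_left, mul_inv_cancel, inv_mul_cancel, mul_one, one_mul, inv_one, C])
  have k10 : o.lt (Q * g⁻¹) (g * m⁻¹) ↔ o.lt (1 * (Q * g⁻¹)) (1 * (g * m⁻¹)) := o.cv hδ (1) e15 (by simp only [mul_assoc, mul_inv_rev, inv_inv, mul_inv_cancel_left, inv_mul_cancel_left, mul_inv_cancel, inv_mul_cancel, mul_one, one_mul, inv_one, C]) (by simp only [mul_assoc, mul_inv_rev, inv_inv, mul_inv_cancel_left, inv_mul_cancel_left, mul_inv_cancel, inv_mul_cancel, mul_one, one_mul, inv_one, C])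
  have k11 : o.lt (Q * f⁻¹) (f * m⁻¹) ↔ o.lt (1 * (Q * f⁻¹)) (1 * (f * m⁻¹)) := o.cv hδ (1) e5 (by simp only [mul_assoc, mul_inv_rev, inv_inv, mul_inv_cancel_left, inv_mul_cancel_left, mul_inv_cancel, inv_mul_cancel, mul_one, one_mul, inv_one, C]) (by simp only [mul_assoc, mul_inv_rev, inv_inv, mul_inv_cancel_left, inv_mul_cancel_left, mul_inv_cancel, inv_mul_cancel, mul_one, one_mul, inv_one, C])
  have k12 : o.lt (Q * f⁻¹) (Q * g⁻¹) ↔ o.lt (1 * (Q * f⁻¹)) (1 * (Q * g⁻¹)) := o.cv hδ (1) e3 (by simp only [mul_assoc, mul_inv_rev, inv_inv, mul_inv_cancel_left, inv_mul_cancel_left, mul_inv_cancel, inv_mul_cancel, mul_one, one_mul, inv_one, C]) (by simp only [mul_assoc, mul_inv_rev, inv_inv, mul_inv_cancel_left, inv_mul_cancel_left, mul_inv_cancel, inv_mul_cancel, mul_one, one_mul, inv_one, C])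
  have k13 : o.lt (g * P⁻¹) (f * P⁻¹) ↔ o.lt (1 * g) (1 * f) := o.cv hδ (P) e14 (by simp only [mul_assoc, mul_inv_rev, inv_inv, mul_inv_cancel_left, inv_mul_cancel_left, mul_inv_cancel, inv_mul_cancel, mul_one, one_mul, inv_one, C]) (by simp only [mul_assoc, mul_inv_rev, inv_inv, mul_inv_cancel_left, inv_mul_cancel_left, mul_inv_cancel, inv_mul_cancel, mul_one, one_mul, inv_one, C])
  have k14 : o.lt (Q * (m⁻¹ * (f * m⁻¹))) (Q * (f⁻¹ * (m * g⁻¹))) ↔ o.lt ((Q * f⁻¹) * (m * f⁻¹)) ((Q * f⁻¹) * (m * g⁻¹)) := o.cv hδ (m * (f⁻¹ * (m * (f⁻¹ * (m * f⁻¹))))) e4 (by simp only [mul_assoc, mul_inv_rev, inv_inv, mul_inv_cancel_left, inv_mul_cancel_left, mul_inv_cancel, inv_mul_cancel, mul_one, one_mul, inv_one, C]) (by simp only [mul_assoc, mul_inv_rev, inv_inv, mul_inv_cancel_left, inv_mul_cancel_left, mul_inv_cancel, inv_mul_cancel, mul_one, one_mul, inv_one, C])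
  have k15 : o.lt (Q * (f⁻¹ * (m * g⁻¹))) (Q * P⁻¹) ↔ o.lt ((Q * f⁻¹) * (m * g⁻¹)) ((Q * f⁻¹) * (f * P⁻¹)) := o.cv hδ (1) e7 (by simp only [mul_assoc, mul_inv_rev, inv_inv, mul_inv_cancel_left, inv_mul_cancel_left, mul_inv_cancel, inv_mul_cancel, mul_one, one_mul, inv_one, C]) (by simp only [mul_assoc, mul_inv_rev, inv_inv, mul_inv_cancel_left, inv_mul_cancel_left, mul_inv_cancel, inv_mul_cancel, mul_one, one_mul, inv_one, C])
  have k16 : o.lt (Q * m⁻¹) (Q * (P⁻¹ * (f * P⁻¹))) ↔ o.lt ((Q * f⁻¹) * (m * f⁻¹)⁻¹) ((Q * f⁻¹) * (f * P⁻¹)⁻¹) := o.cv hδ (1) e6 (by simp only [mul_assoc, mul_inv_rev, inv_inv, mul_inv_cancel_left, inv_mul_cancel_left, mul_inv_cancel, inv_mul_cancel, mul_one, one_mul, inv_one, C]) (by simp only [mul_assoc, mul_inv_rev, inv_inv, mul_inv_cancel_left, inv_mul_cancel_left, mul_inv_cancel, inv_mul_cancel, mul_one, one_mul, inv_one, C])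
  have k17 : o.lt (Q * P⁻¹) (Q * (f⁻¹ * (g * P⁻¹))) ↔ o.lt ((Q * f⁻¹) * (f * P⁻¹)) ((Q * f⁻¹) * (g * P⁻¹)) := o.cv hδ (1) e0 (by simp only [mul_assoc, mul_inv_rev, inv_inv, mul_inv_cancel_left, inv_mul_cancel_left, mul_inv_cancel, inv_mul_cancel, mul_one, one_mul, inv_one, C]) (by simp only [mul_assoc, mul_inv_rev, inv_inv, mul_inv_cancel_left, inv_mul_cancel_left, mul_inv_cancel, inv_mul_cancel, mul_one, one_mul, inv_one, C])
  have k18 : o.lt (Q * P⁻¹) (Q * (f⁻¹ * (m * g⁻¹))) ↔ o.lt ((Q * f⁻¹) * (f * P⁻¹)) ((Q * f⁻¹) * (m * g⁻¹)) := o.cv hδ (1) e1 (by simp only [mul_assoc, mul_inv_rev, inv_inv, mul_inv_cancel_left, inv_mul_cancel_left, mul_inv_cancel, inv_mul_cancel, mul_one, one_mul, inv_one, C]) (by simp only [mul_assoc, mul_inv_rev, inv_inv, mul_inv_cancel_left, inv_mul_cancel_left, mul_inv_cancel, inv_mul_cancel, mul_one, one_mul, inv_one, C])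
  have k19 : o.lt (P * f⁻¹) (f * m⁻¹) ↔ o.lt (P * f⁻¹) (f * m⁻¹) := o.cv hδ (1) e16 (by simp only [mul_assoc, mul_inv_rev, inv_inv, mul_inv_cancel_left, inv_mul_cancel_left, mul_inv_cancel, inv_mul_cancel, mul_one, one_mul, inv_one, C]) (by simp only [mul_assoc, mul_inv_rev, inv_inv, mul_inv_cancel_left, inv_mul_cancel_left, mul_inv_cancel, inv_mul_cancel, mul_one, one_mul, inv_one, C])
  have k20 : o.lt (f * m⁻¹) (P * f⁻¹) ↔ o.lt (f * m⁻¹) (P * f⁻¹) := o.cv hδ (1) e20 (by simp only [mul_assoc, mul_inv_rev, inv_inv, mul_inv_cancel_left, inv_mul_cancel_left, mul_inv_cancel, inv_mul_cancel, mul_one, one_mul, inv_one, C]) (by simp only [mul_assoc, mul_inv_rev, inv_inv, mul_inv_cancel_left, inv_mul_cancel_left, mul_inv_cancel, inv_mul_cancel, mul_one, one_mul, inv_one, C])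
  have k21 : o.lt (P * f⁻¹) (g * m⁻¹) ↔ o.lt (P * f⁻¹) (g * m⁻¹) := o.cv hδ (1) e17 (by simp only [mul_assoc, mul_inv_rev, inv_inv, mul_inv_cancel_left, inv_mul_cancel_left, mul_inv_cancel, inv_mul_cancel, mul_one, one_mul, inv_one, C]) (by simp only [mul_assoc, mul_inv_rev, inv_inv, mul_inv_cancel_left, inv_mul_cancel_left, mul_inv_cancel, inv_mul_cancel, mul_one, one_mul, inv_one, C])
  have k22 : o.lt (g * m⁻¹) (P * f⁻¹) ↔ o.lt (g * m⁻¹) (P * f⁻¹) := o.cv hδ (1) e21 (by simp only [mul_assoc, mul_inv_rev, inv_inv, mul_inv_cancel_left, inv_mul_cancel_left, mul_inv_cancel, inv_mul_cancel, mul_one, one_mul, inv_one, C]) (by simp only [mul_assoc, mul_inv_rev, inv_inv, mul_inv_cancel_left, inv_mul_cancel_left, mul_inv_cancel, inv_mul_cancel, mul_one, one_mul, inv_one, C])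
  have k23 : o.lt (P * g⁻¹) (P * f⁻¹) ↔ o.lt (P * g⁻¹) (P * f⁻¹) := o.cv hδ (1) e18 (by simp only [mul_assoc, mul_inv_rev, inv_inv, mul_inv_cancel_left, inv_mul_cancel_left, mul_inv_cancel, inv_mul_cancel, mul_one, one_mul, inv_one, C]) (by simp only [mul_assoc, mul_inv_rev, inv_inv, mul_inv_cancel_left, inv_mul_cancel_left, mul_inv_cancel, inv_mul_cancel, mul_one, one_mul, inv_one, C])
  have k24 : o.lt (g * P⁻¹) (m * g⁻¹) ↔ o.lt (P * g⁻¹) (m * P⁻¹) := o.cv hδ (P * (g⁻¹ * (P * g⁻¹))) e19 (by simp only [mul_assoc, mul_inv_rev, inv_inv, mul_inv_cancel_left, inv_mul_cancel_left, mul_inv_cancel, inv_mul_cancel, mul_one, one_mul, inv_one, C]) (by simp only [mul_assoc, mul_inv_rev, inv_inv, mul_inv_cancel_left, inv_mul_cancel_left, mul_inv_cancel, inv_mul_cancel, mul_one, one_mul, inv_one, C])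
  have k25 : o.lt (m * P⁻¹) (P * f⁻¹) ↔ o.lt (m * P⁻¹) (P * f⁻¹) := o.cv hδ (1) e23 (by simp only [mul_assoc, mul_inv_rev, inv_inv, mul_inv_cancel_left, inv_mul_cancel_left, mul_inv_cancel, inv_mul_cancel, mul_one, one_mul, inv_one, C]) (by simp only [mul_assoc, mul_inv_rev, inv_inv, mul_inv_cancel_left, inv_mul_cancel_left, mul_inv_cancel, inv_mul_cancel, mul_one, one_mul, inv_one, C])
  have k26 : o.lt (g * m⁻¹) (Q * g⁻¹) ↔ o.lt (g * m⁻¹) (Q * g⁻¹) := o.cv hδ (1) e13 (by simp only [mul_assoc, mul_inv_rev, inv_inv, mul_inv_cancel_left, inv_mul_cancel_left, mul_inv_cancel, inv_mul_cancel, mul_one, one_mul, inv_one, C]) (by simp only [mul_assoc, mul_inv_rev, inv_inv, mul_inv_cancel_left, inv_mul_cancel_left, mul_inv_cancel, inv_mul_cancel, mul_one, one_mul, inv_one, C])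
  have k27 : o.lt (Q * g⁻¹) (g * m⁻¹) ↔ o.lt (Q * g⁻¹) (g * m⁻¹) := o.cv hδ (1) e15 (by simp only [mul_assoc, mul_inv_rev, inv_inv, mul_inv_cancel_left, inv_mul_cancel_left, mul_inv_cancel, inv_mul_cancel, mul_one, one_mul, inv_one, C]) (by simp only [mul_assoc, mul_inv_rev, inv_inv, mul_inv_cancel_left, inv_mul_cancel_left, mul_inv_cancel, inv_mul_cancel, mul_one, one_mul, inv_one, C])
  have k28 : o.lt (g * m⁻¹) (Q * f⁻¹) ↔ o.lt (g * m⁻¹) (Q * f⁻¹) := o.cv hδ (1) e11 (by simp only [mul_assoc, mul_inv_rev, inv_inv, mul_inv_cancel_left, inv_mul_cancel_left, mul_inv_cancel, inv_mul_cancel, mul_one, one_mul, inv_one, C]) (by simp only [mul_assoc, mul_inv_rev, inv_inv, mul_inv_cancel_left, inv_mul_cancel_left, mul_inv_cancel, inv_mul_cancel, mul_one, one_mul, inv_one, C])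
  have k29 : o.lt (Q * P⁻¹) (Q * (f⁻¹ * (g * P⁻¹))) ↔ o.lt (Q * g⁻¹) (Q * f⁻¹) := o.cv hδ (P * g⁻¹) e0 (by simp only [mul_assoc, mul_inv_rev, inv_inv, mul_inv_cancel_left, inv_mul_cancel_left, mul_inv_cancel, inv_mul_cancel, mul_one, one_mul, inv_one, C]) (by simp only [mul_assoc, mul_inv_rev, inv_inv, mul_inv_cancel_left, inv_mul_cancel_left, mul_inv_cancel, inv_mul_cancel, mul_one, one_mul, inv_one, C])
  have k30 : o.lt (Q * g⁻¹) (P * f⁻¹) ↔ o.lt (Q * g⁻¹) (P * f⁻¹) := o.cv hδ (1) e22 (by simp only [mul_assoc, mul_inv_rev, inv_inv, mul_inv_cancel_left, inv_mul_cancel_left, mul_inv_cancel, inv_mul_cancel, mul_one, one_mul, inv_one, C]) (by simp only [mul_assoc, mul_inv_rev, inv_inv, mul_inv_cancel_left, inv_mul_cancel_left, mul_inv_cancel, inv_mul_cancel, mul_one, one_mul, inv_one, C])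
  have k31 : o.lt (Q * f⁻¹) (P * f⁻¹) ↔ o.lt (Q * f⁻¹) (P * f⁻¹) := o.cv hδ (1) e2 (by simp only [mul_assoc, mul_inv_rev, inv_inv, mul_inv_cancel_left, inv_mul_cancel_left, mul_inv_cancel, inv_mul_cancel, mul_one, one_mul, inv_one, C]) (by simp only [mul_assoc, mul_inv_rev, inv_inv, mul_inv_cancel_left, inv_mul_cancel_left, mul_inv_cancel, inv_mul_cancel, mul_one, one_mul, inv_one, C])
  have k32 : o.lt (Q * f⁻¹) (g * m⁻¹) ↔ o.lt (Q * f⁻¹) (g * m⁻¹) := o.cv hδ (1) e9 (by simp only [mul_assoc, mul_inv_rev, inv_inv, mul_inv_cancel_left, inv_mul_cancel_left, mul_inv_cancel, inv_mul_cancel, mul_one, one_mul, inv_one, C]) (by simp only [mul_assoc, mul_inv_rev, inv_inv, mul_inv_cancel_left, inv_mul_cancel_left, mul_inv_cancel, inv_mul_cancel, mul_one, one_mul, inv_one, C])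
  have k33 : o.lt (Q * f⁻¹) (Q * g⁻¹) ↔ o.lt (Q * f⁻¹) (Q * g⁻¹) := o.cv hδ (1) e3 (by simp only [mul_assoc, mul_inv_rev, inv_inv, mul_inv_cancel_left, inv_mul_cancel_left, mul_inv_cancel, inv_mul_cancel, mul_one, one_mul, inv_one, C]) (by simp only [mul_assoc, mul_inv_rev, inv_inv, mul_inv_cancel_left, inv_mul_cancel_left, mul_inv_cancel, inv_mul_cancel, mul_one, one_mul, inv_one, C])
  have k34 : o.lt (Q * f⁻¹) (f * m⁻¹) ↔ o.lt (Q * f⁻¹) (f * m⁻¹) := o.cv hδ (1) e5 (by simp only [mul_assoc, mul_inv_rev, inv_inv, mul_inv_cancel_left, inv_mul_cancel_left, mul_inv_cancel, inv_mul_cancel, mul_one, one_mul, inv_one, C]) (by simp only [mul_assoc, mul_inv_rev, inv_inv, mul_inv_cancel_left, inv_mul_cancel_left, mul_inv_cancel, inv_mul_cancel, mul_one, one_mul, inv_one, C])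
  have k35 : o.lt (m * P⁻¹) (Q * f⁻¹) ↔ o.lt (m * P⁻¹) (Q * f⁻¹) := o.cv hδ (1) e12 (by simp only [mul_assoc, mul_inv_rev, inv_inv, mul_inv_cancel_left, inv_mul_cancel_left, mul_inv_cancel, inv_mul_cancel, mul_one, one_mul, inv_one, C]) (by simp only [mul_assoc, mul_inv_rev, inv_inv, mul_inv_cancel_left, inv_mul_cancel_left, mul_inv_cancel, inv_mul_cancel, mul_one, one_mul, inv_one, C])
  have k36 : o.lt (m * f⁻¹) (m * g⁻¹) ↔ o.lt (m * f⁻¹) (m * g⁻¹) := o.cv hδ (1) e24 (by simp only [mul_assoc, mul_inv_rev, inv_inv, mul_inv_cancel_left, inv_mul_cancel_left, mul_inv_cancel, inv_mul_cancel, mul_one, one_mul, inv_one, C]) (by simp only [mul_assoc, mul_inv_rev, inv_inv, mul_inv_cancel_left, inv_mul_cancel_left, mul_inv_cancel, inv_mul_cancel, mul_one, one_mul, inv_one, C])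
  have k37 : o.lt (m * g⁻¹) (m * f⁻¹) ↔ o.lt (m * g⁻¹) (m * f⁻¹) := o.cv hδ (1) e26 (by simp only [mul_assoc, mul_inv_rev, inv_inv, mul_inv_cancel_left, inv_mul_cancel_left, mul_inv_cancel, inv_mul_cancel, mul_one, one_mul, inv_one, C]) (by simp only [mul_assoc, mul_inv_rev, inv_inv, mul_inv_cancel_left, inv_mul_cancel_left, mul_inv_cancel, inv_mul_cancel, mul_one, one_mul, inv_one, C])
  have k38 : o.lt (Q * f⁻¹) (f * m⁻¹) ↔ o.lt (Q * m⁻¹) (m * f⁻¹) := o.cv hδ (f * m⁻¹) e5 (by simp only [mul_assoc, mul_inv_rev, inv_inv, mul_inv_cancel_left, inv_mul_cancel_left, mul_inv_cancel, inv_mul_cancel, mul_one, one_mul, inv_one, C]) (by simp only [mul_assoc, mul_inv_rev, inv_inv, mul_inv_cancel_left, inv_mul_cancel_left, mul_inv_cancel, inv_mul_cancel, mul_one, one_mul, inv_one, C])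
  have k39 : o.lt (Q * g⁻¹) (g * m⁻¹) ↔ o.lt (Q * m⁻¹) (m * g⁻¹) := o.cv hδ (g * m⁻¹) e15 (by simp only [mul_assoc, mul_inv_rev, inv_inv, mul_inv_cancel_left, inv_mul_cancel_left, mul_inv_cancel, inv_mul_cancel, mul_one, one_mul, inv_one, C]) (by simp only [mul_assoc, mul_inv_rev, inv_inv, mul_inv_cancel_left, inv_mul_cancel_left, mul_inv_cancel, inv_mul_cancel, mul_one, one_mul, inv_one, C])
  have k40 : o.lt (Q * P⁻¹) (Q * (f⁻¹ * (m * g⁻¹))) ↔ o.lt (Q * P⁻¹) (Q * (f⁻¹ * (m * g⁻¹))) := o.cv hδ (1) e1 (by simp only [mul_assoc, mul_inv_rev, inv_inv, mul_inv_cancel_left, inv_mul_cancel_left, mul_inv_cancel, inv_mul_cancel, mul_one, one_mul, inv_one, C]) (by simp only [mul_assoc, mul_inv_rev, inv_inv, mul_inv_cancel_left, inv_mul_cancel_left, mul_inv_cancel, inv_mul_cancel, mul_one, one_mul, inv_one, C])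
  have k41 : o.lt (Q * f⁻¹) (P * f⁻¹) ↔ o.lt (Q * P⁻¹) (1) := o.cv hδ (f * P⁻¹) e2 (by simp only [mul_assoc, mul_inv_rev, inv_inv, mul_inv_cancel_left, inv_mul_cancel_left, mul_inv_cancel, inv_mul_cancel, mul_one, one_mul, inv_one, C]) (by simp only [mul_assoc, mul_inv_rev, inv_inv, mul_inv_cancel_left, inv_mul_cancel_left, mul_inv_cancel, inv_mul_cancel, mul_one, one_mul, inv_one, C])
  have k42 : o.lt (g * m⁻¹) (Q * f⁻¹) ↔ o.lt (1) (Q * (f⁻¹ * (m * g⁻¹))) := o.cv hδ (m * g⁻¹) e11 (by simp only [mul_assoc, mul_inv_rev, inv_inv, mul_inv_cancel_left, inv_mul_cancel_left, mul_inv_cancel, inv_mul_cancel, mul_one, one_mul, inv_one, C]) (by simp only [mul_assoc, mul_inv_rev, inv_inv, mul_inv_cancel_left, inv_mul_cancel_left, mul_inv_cancel, inv_mul_cancel, mul_one, one_mul, inv_one, C])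
  have k43 : o.lt (Q * (m⁻¹ * (f * m⁻¹))) (Q * (f⁻¹ * (m * g⁻¹))) ↔ o.lt (Q * (f⁻¹ * (m * f⁻¹))) (Q * (f⁻¹ * (m * g⁻¹))) := o.cv hδ (m * (f⁻¹ * (m * (f⁻¹ * (m * f⁻¹))))) e4 (by simp only [mul_assoc, mul_inv_rev, inv_inv, mul_inv_cancel_left, inv_mul_cancel_left, mul_inv_cancel, inv_mul_cancel, mul_one, one_mul, inv_one, C]) (by simp only [mul_assoc, mul_inv_rev, inv_inv, mul_inv_cancel_left, inv_mul_cancel_left, mul_inv_cancel, inv_mul_cancel, mul_one, one_mul, inv_one, C])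
  have k44 : o.lt (Q * (f⁻¹ * (m * g⁻¹))) (Q * (m⁻¹ * (f * m⁻¹))) ↔ o.lt (Q * (f⁻¹ * (m * g⁻¹))) (Q * (f⁻¹ * (m * f⁻¹))) := o.cv hδ (1) e8 (by simp only [mul_assoc, mul_inv_rev, inv_inv, mul_inv_cancel_left, inv_mul_cancel_left, mul_inv_cancel, inv_mul_cancel, mul_one, one_mul, inv_one, C]) (by simp only [mul_assoc, mul_inv_rev, inv_inv, mul_inv_cancel_left, inv_mul_cancel_left, mul_inv_cancel, inv_mul_cancel, mul_one, one_mul, inv_one, C])
  have k45 : o.lt (Q * f⁻¹) (g * m⁻¹) ↔ o.lt (Q * (f⁻¹ * (m * g⁻¹))) (1) := o.cv hδ (m * g⁻¹) e9 (by simp only [mul_assoc, mul_inv_rev, inv_inv, mul_inv_cancel_left, inv_mul_cancel_left, mul_inv_cancel, inv_mul_cancel, mul_one, one_mul, inv_one, C]) (by simp only [mul_assoc, mul_inv_rev, inv_inv, mul_inv_cancel_left, inv_mul_cancel_left, mul_inv_cancel, inv_mul_cancel, mul_one, one_mul, inv_one, C])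
  have k46 : o.lt (Q * (f⁻¹ * (m * g⁻¹))) (Q * P⁻¹) ↔ o.lt (Q * (f⁻¹ * (m * g⁻¹))) (Q * P⁻¹) := o.cv hδ (1) e7 (by simp only [mul_assoc, mul_inv_rev, inv_inv, mul_inv_cancel_left, inv_mul_cancel_left, mul_inv_cancel, inv_mul_cancel, mul_one, one_mul, inv_one, C]) (by simp only [mul_assoc, mul_inv_rev, inv_inv, mul_inv_cancel_left, inv_mul_cancel_left, mul_inv_cancel, inv_mul_cancel, mul_one, one_mul, inv_one, C])
  have k47 : o.lt (1) (Q * (m⁻¹ * (f * m⁻¹))) ↔ o.lt (1) (Q * (f⁻¹ * (m * f⁻¹))) := o.cv hδ (1) e10 (by simp only [mul_assoc, mul_inv_rev, inv_inv, mul_inv_cancel_left, inv_mul_cancel_left, mul_inv_cancel, inv_mul_cancel, mul_one, one_mul, inv_one, C]) (by simp only [mul_assoc, mul_inv_rev, inv_inv, mul_inv_cancel_left, inv_mul_cancel_left, mul_inv_cancel, inv_mul_cancel, mul_one, one_mul, inv_one, C])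
  have k48 : o.lt (m * P⁻¹) (Q * f⁻¹) ↔ o.lt (1) (Q * (f⁻¹ * (P * m⁻¹))) := o.cv hδ (P * m⁻¹) e12 (by simp only [mul_assoc, mul_inv_rev, inv_inv, mul_inv_cancel_left, inv_mul_cancel_left, mul_inv_cancel, inv_mul_cancel, mul_one, one_mul, inv_one, C]) (by simp only [mul_assoc, mul_inv_rev, inv_inv, mul_inv_cancel_left, inv_mul_cancel_left, mul_inv_cancel, inv_mul_cancel, mul_one, one_mul, inv_one, C])
  have k49 : o.lt (Q * m⁻¹) (Q * (P⁻¹ * (f * P⁻¹))) ↔ o.lt (Q * (f⁻¹ * (m * f⁻¹))) (Q * (f⁻¹ * (P * m⁻¹))) := o.cv hδ (m * (f⁻¹ * (m * f⁻¹))) e6 (by simp only [mul_assoc, mul_inv_rev, inv_inv, mul_inv_cancel_left, inv_mul_cancel_left, mul_inv_cancel, inv_mul_cancel, mul_one, one_mul, inv_one, C]) (by simp only [mul_assoc, mul_inv_rev, inv_inv, mul_inv_cancel_left, inv_mul_cancel_left, mul_inv_cancel, inv_mul_cancel, mul_one, one_mul, inv_one, C])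
  have k50 : o.lt (g * P⁻¹) (f * P⁻¹) ↔ o.lt ((P * g⁻¹)⁻¹) ((P * f⁻¹)⁻¹) := o.cv hδ (1) e14 (by simp only [mul_assoc, mul_inv_rev, inv_inv, mul_inv_cancel_left, inv_mul_cancel_left, mul_inv_cancel, inv_mul_cancel, mul_one, one_mul, inv_one, C]) (by simp only [mul_assoc, mul_inv_rev, inv_inv, mul_inv_cancel_left, inv_mul_cancel_left, mul_inv_cancel, inv_mul_cancel, mul_one, one_mul, inv_one, C])
  exact ser_ABE_1_prop
    (fun b0 b1 b2 => N0.rd.r1 1 (fun h => b0 (k0.2 h)) (fun h => b1 (k1.2 h)) (k2.1 b2))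
    (fun b0 b1 b2 => N0.r.r0 1 (fun h => b0 (k3.2 h)) (k1.1 b1) (fun h => b2 (k4.2 h)))
    (fun b0 b1 b2 => N0.i.r0 1 (fun h => b0 (k5.2 h)) (k6.1 b1) (fun h => b2 (k7.2 h)))
    (fun b0 b1 b2 => N0.i.r1 1 (fun h => b0 (k8.2 h)) (fun h => b1 (k9.2 h)) (k7.1 b2))
    (fun b0 b1 b2 b3 => N1.d.r0 1 (fun h => b0 (k10.2 h)) (fun h => b1 (k11.2 h)) (k12.1 b2) (fun h => b3 (k13.2 h)))
    (fun b0 b1 b2 => N0.r.r0 (Q * f⁻¹) (fun h => b0 (k14.2 h)) (k15.1 b1) (fun h => b2 (k16.2 h)))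
    (fun b0 b1 b2 => N0.r.r1 (Q * f⁻¹) (fun h => b0 (k17.2 h)) (fun h => b1 (k18.2 h)) (k16.1 b2))
    (fun b0 b1 => o.asym (k19.1 b0) (k20.1 b1))
    (fun b0 b1 => o.asym (k21.1 b0) (k22.1 b1))
    (fun b0 b1 b2 => o.tri (k23.1 b0) (fun h => b1 (k24.2 h)) (fun h => b2 (k25.2 h)))
    (fun b0 b1 => o.asym (k26.1 b0) (k27.1 b1))
    (fun b0 b1 b2 => o.tri (k28.1 b0) (fun h => b1 (k26.2 h)) (fun h => b2 (k29.2 h)))
    (fun b0 b1 b2 => o.tri (k30.1 b0) (fun h => b1 (k29.2 h)) (fun h => b2 (k31.2 h)))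
    (fun b0 b1 b2 => o.tri (k27.1 b0) (fun h => b1 (k30.2 h)) (fun h => b2 (k21.2 h)))
    (fun b0 b1 b2 => o.tri (k27.1 b0) (fun h => b1 (k29.2 h)) (fun h => b2 (k32.2 h)))
    (fun b0 b1 => o.asym (k29.1 b0) (k33.1 b1))
    (fun b0 b1 b2 => o.tri (k34.1 b0) (fun h => b1 (k31.2 h)) (fun h => b2 (k19.2 h)))
    (fun b0 b1 b2 => o.tri (k25.1 b0) (fun h => b1 (k35.2 h)) (fun h => b2 (k31.2 h)))
    (fun b0 b1 => o.asym (k36.1 b0) (k37.1 b1))
    (fun b0 b1 b2 => o.tri (k38.1 b0) (fun h => b1 (k39.2 h)) (fun h => b2 (k37.2 h)))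
    (fun b0 b1 b2 => o.tri (k40.1 b0) (fun h => b1 (k41.2 h)) (fun h => b2 (k42.2 h)))
    (fun b0 b1 => o.asym (k43.1 b0) (k44.1 b1))
    (fun b0 b1 b2 => o.tri (k45.1 b0) (fun h => b1 (k46.2 h)) (fun h => b2 (k41.2 h)))
    (fun b0 b1 b2 => o.tri (k47.1 b0) (fun h => b1 (k42.2 h)) (fun h => b2 (k44.2 h)))
    (fun b0 b1 b2 => o.tri (k48.1 b0) (fun h => b1 (k47.2 h)) (fun h => b2 (k49.2 h)))
    (fun h => g0 (k31.1 h))
    (k33.2 g1)
    (fun h => g2 (k50.1 h))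

theorem ser_ABE_2_prop {A1 A2 A3 A4 A5 A6 A7 A8 A9 A10 A11 A12 A13 A14 A15 A16 A17 A18 A19 A20 A21 A22 A23 A24 A25 A26 A27 A28 A29 A30 A31 A32 A33 A34 A35 A36 A37 A38 A39 A40 A41 A42 A43 A44 A45 A46 A47 A48 : Prop}
    (c0 : ¬ A47 → A48 → ¬ A25 → False)
    (c1 : ¬ A23 → A26 → ¬ A6 → False)
    (c2 : ¬ A1 → ¬ A26 → A13 → False)
    (c3 : ¬ A30 → ¬ A33 → A35 → ¬ A1 → False)
    (c4 : ¬ A47 → A38 → ¬ A34 → ¬ A1 → False)
    (c5 : ¬ A36 → ¬ A31 → A47 → ¬ A1 → False)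
    (c6 : ¬ A40 → A41 → ¬ A9 → False)
    (c7 : ¬ A11 → ¬ A39 → A9 → False)
    (c8 : ¬ A42 → A39 → ¬ A2 → False)
    (c9 : ¬ A15 → ¬ A12 → A17 → ¬ A11 → False)
    (c10 : ¬ A17 → A16 → ¬ A43 → ¬ A11 → False)
    (c11 : A24 → ¬ A23 → ¬ A13 → False)
    (c12 : A13 → A6 → False)
    (c13 : A4 → A1 → False)
    (c14 : A27 → ¬ A29 → ¬ A32 → False)
    (c15 : A28 → ¬ A29 → ¬ A35 → False)
    (c16 : A29 → A34 → False)
    (c17 : A6 → ¬ A37 → ¬ A23 → False)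
    (c18 : A4 → ¬ A46 → ¬ A3 → False)
    (c19 : A46 → ¬ A24 → ¬ A38 → False)
    (c20 : A21 → ¬ A13 → ¬ A28 → False)
    (c21 : A37 → ¬ A47 → ¬ A48 → False)
    (c22 : A5 → ¬ A47 → ¬ A6 → False)
    (c23 : A25 → ¬ A47 → ¬ A27 → False)
    (c24 : A31 → ¬ A3 → ¬ A13 → False)
    (c25 : A36 → ¬ A7 → ¬ A10 → False)
    (c26 : A33 → ¬ A8 → ¬ A10 → False)
    (c27 : A30 → ¬ A8 → ¬ A13 → False)
    (c28 : A4 → ¬ A23 → ¬ A14 → False)
    (c29 : A11 → A14 → False)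
    (c30 : A32 → ¬ A7 → ¬ A44 → False)
    (c31 : A2 → ¬ A3 → ¬ A18 → False)
    (c32 : A7 → ¬ A3 → ¬ A17 → False)
    (c33 : A8 → ¬ A7 → ¬ A19 → False)
    (c34 : A10 → ¬ A11 → ¬ A13 → False)
    (c35 : A12 → A18 → False)
    (c36 : A12 → ¬ A9 → ¬ A3 → False)
    (c37 : A14 → ¬ A13 → ¬ A5 → False)
    (c38 : A14 → ¬ A15 → ¬ A16 → False)
    (c39 : A15 → ¬ A13 → ¬ A3 → False)
    (c40 : A22 → ¬ A21 → ¬ A7 → False)
    (c41 : A39 → A41 → False)
    (c42 : A40 → A42 → False)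
    (c43 : A40 → ¬ A22 → ¬ A45 → False)
    (c44 : A20 → ¬ A41 → ¬ A11 → False)
    (c45 : A42 → ¬ A15 → ¬ A18 → False)
    (c46 : A43 → A45 → False)
    (c47 : A44 → ¬ A45 → ¬ A20 → False)
    (c48 : A19 → ¬ A45 → ¬ A42 → False)
    (u0 : ¬ A23)
    (u1 : ¬ A3)
    (u2 : A4)
    : False := by
  have q1 : ¬ A1 := fun h => c13 u2 h
  have q2 : A46 := Classical.byContradiction fun h => c18 u2 h u1
  have q3 : A14 := Classical.byContradiction fun h => c28 u2 u0 h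
  have q4 : ¬ A11 := fun h => c29 h q3
  rcases Classical.em A13 with q5 | q5
  · have q6 : A26 := Classical.byContradiction fun h => c2 q1 h q5
    have q7 : A6 := Classical.byContradiction fun h => c1 u0 q6 h
    exact c12 q5 q7
  · have q8 : ¬ A24 := fun h => c11 h u0 q5
    have q9 : A38 := Classical.byContradiction fun h => c19 q2 q8 h
    have q10 : ¬ A31 := fun h => c24 h u1 q5
    have q11 : ¬ A10 := fun h => c34 h q4 q5
    have q12 : A5 := Classical.byContradiction fun h => c37 q3 q5 h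
    have q13 : ¬ A15 := fun h => c39 h q5 u1
    have q14 : A16 := Classical.byContradiction fun h => c38 q3 q13 h
    rcases Classical.em A47 with q15 | q15
    · have q16 : A36 := Classical.byContradiction fun h => c5 h q10 q15 q1
      have q17 : A7 := Classical.byContradiction fun h => c25 q16 h q11
      have q18 : A17 := Classical.byContradiction fun h => c32 q17 u1 h
      have q19 : A12 := Classical.byContradiction fun h => c9 q13 h q18 q4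
      have q20 : ¬ A18 := fun h => c35 q19 h
      have q21 : ¬ A2 := fun h => c31 h u1 q20
      have q22 : A9 := Classical.byContradiction fun h => c36 q19 h u1
      have q23 : A39 := Classical.byContradiction fun h => c7 q4 h q22
      have q24 : A42 := Classical.byContradiction fun h => c8 h q23 q21
      exact c45 q24 q13 q20
    · have q25 : A34 := Classical.byContradiction fun h => c4 q15 q9 h q1
      have q26 : ¬ A29 := fun h => c16 h q25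
      have q27 : A6 := Classical.byContradiction fun h => c22 q12 q15 h
      have q28 : A37 := Classical.byContradiction fun h => c17 q27 h u0
      have q29 : A48 := Classical.byContradiction fun h => c21 q28 q15 h
      have q30 : A25 := Classical.byContradiction fun h => c0 q15 q29 h
      have q31 : A27 := Classical.byContradiction fun h => c23 q30 q15 h
      have q32 : A32 := Classical.byContradiction fun h => c14 q31 q26 h
      rcases Classical.em A7 with q33 | q33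
      · have q34 : A17 := Classical.byContradiction fun h => c32 q33 u1 h
        have q35 : A12 := Classical.byContradiction fun h => c9 q13 h q34 q4
        have q36 : ¬ A18 := fun h => c35 q35 h
        have q37 : ¬ A2 := fun h => c31 h u1 q36
        have q38 : A9 := Classical.byContradiction fun h => c36 q35 h u1
        have q39 : A39 := Classical.byContradiction fun h => c7 q4 h q38
        have q40 : A42 := Classical.byContradiction fun h => c8 h q39 q37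
        exact c45 q40 q13 q36
      · have q41 : ¬ A36 := fun h => c25 h q33 q11
        have q42 : A44 := Classical.byContradiction fun h => c30 q32 q33 h
        rcases Classical.em A8 with q43 | q43
        · have q44 : A19 := Classical.byContradiction fun h => c33 q43 q33 h
          rcases Classical.em A42 with q45 | q45
          · have q46 : ¬ A40 := fun h => c42 h q45
            have q47 : A18 := Classical.byContradiction fun h => c45 q45 q13 h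
            have q48 : ¬ A12 := fun h => c35 h q47
            have q49 : ¬ A17 := fun h => c9 q13 q48 h q4
            have q50 : A43 := Classical.byContradiction fun h => c10 q49 q14 h q4
            have q51 : ¬ A45 := fun h => c46 q50 h
            have q52 : A20 := Classical.byContradiction fun h => c47 q42 q51 h
            have q53 : A41 := Classical.byContradiction fun h => c44 q52 h q4
            have q54 : A9 := Classical.byContradiction fun h => c6 q46 q53 h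
            have q55 : A39 := Classical.byContradiction fun h => c7 q4 h q54
            exact c41 q55 q53
          · have q56 : A45 := Classical.byContradiction fun h => c48 q44 h q45
            have q57 : ¬ A43 := fun h => c46 h q56
            have q58 : A17 := Classical.byContradiction fun h => c10 h q14 q57 q4
            have q59 : A12 := Classical.byContradiction fun h => c9 q13 h q58 q4
            have q60 : ¬ A18 := fun h => c35 q59 h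
            have q61 : ¬ A2 := fun h => c31 h u1 q60
            have q62 : ¬ A39 := fun h => c8 q45 h q61
            have q63 : ¬ A9 := fun h => c7 q4 q62 h
            exact c36 q59 q63 u1
        · have q64 : ¬ A33 := fun h => c26 h q43 q11
          have q65 : ¬ A30 := fun h => c27 h q43 q5
          have q66 : ¬ A35 := fun h => c3 q65 q64 h q1
          have q67 : ¬ A28 := fun h => c15 h q26 q66
          have q68 : ¬ A21 := fun h => c20 h q5 q67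
          have q69 : ¬ A22 := fun h => c40 h q68 q33
          rcases Classical.em A45 with q70 | q70
          · have q71 : ¬ A43 := fun h => c46 h q70
            have q72 : A17 := Classical.byContradiction fun h => c10 h q14 q71 q4
            have q73 : A12 := Classical.byContradiction fun h => c9 q13 h q72 q4
            have q74 : ¬ A18 := fun h => c35 q73 h
            have q75 : ¬ A2 := fun h => c31 h u1 q74
            have q76 : A9 := Classical.byContradiction fun h => c36 q73 h u1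
            have q77 : A39 := Classical.byContradiction fun h => c7 q4 h q76
            have q78 : A42 := Classical.byContradiction fun h => c8 h q77 q75
            exact c45 q78 q13 q74
          · have q79 : ¬ A40 := fun h => c43 h q69 q70
            have q80 : A20 := Classical.byContradiction fun h => c47 q42 q70 h
            have q81 : A41 := Classical.byContradiction fun h => c44 q80 h q4
            have q82 : A9 := Classical.byContradiction fun h => c6 q79 q81 h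
            have q83 : A39 := Classical.byContradiction fun h => c7 q4 h q82
            exact c41 q83 q81

theorem ser_ABE_2 {G : Type*} [Group G] {δ : G → ZMod 3} (hδ : ∀ u v, δ (u * v) = δ u + δ v) (o : Pre δ)
    {P m Q f g : G} {e : ZMod 3} (h3 : 3 * e = 0)
    (D : δ P = e ∧ δ m = -e ∧ δ Q = e ∧ δ f = 0 ∧ δ g = 0)
    (C : Cube P f ∧ Cube P g ∧ Cube m f ∧ Cube m g ∧ Cube Q f ∧ Cube Q g)
    (N0 : RA o P m f g)
    (N1 : RB o Q m g f)
    (g0 : ¬ o.lt (P * f⁻¹) (P * g⁻¹)) (g1 : ¬ o.lt ((Q * g⁻¹)⁻¹) ((P * g⁻¹)⁻¹)) (g2 : o.lt ((P * f⁻¹)⁻¹) ((P * g⁻¹)⁻¹)) : False := by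
  simp only [Cube] at C
  have e0 : δ (g * m⁻¹) = δ (f * m⁻¹) := by simp only [hδ, δinv hδ, δone hδ, D] <;> linear_combination (0) * h3
  have e1 : δ (g * f⁻¹) = δ (g * (P⁻¹ * (f * m⁻¹))) := by simp only [hδ, δinv hδ, δone hδ, D] <;> linear_combination (0) * h3
  have e2 : δ (g * Q⁻¹) = δ (g * P⁻¹) := by simp only [hδ, δinv hδ, δone hδ, D] <;> linear_combination (0) * h3
  have e3 : δ (f * m⁻¹) = δ (g * m⁻¹) := by simp only [hδ, δinv hδ, δone hδ, D] <;> linear_combination (0) * h3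
  have e4 : δ (m * f⁻¹) = δ (g * P⁻¹) := by simp only [hδ, δinv hδ, δone hδ, D] <;> linear_combination (0) * h3
  have e5 : δ (m * g⁻¹) = δ (g * P⁻¹) := by simp only [hδ, δinv hδ, δone hδ, D] <;> linear_combination (0) * h3
  have e6 : δ (f * Q⁻¹) = δ (g * P⁻¹) := by simp only [hδ, δinv hδ, δone hδ, D] <;> linear_combination (0) * h3
  have e7 : δ (Q * m⁻¹) = δ (g * P⁻¹) := by simp only [hδ, δinv hδ, δone hδ, D] <;> linear_combination (1) * h3
  have e8 : δ (g * (P⁻¹ * (f * m⁻¹))) = δ (g * f⁻¹) := by simp only [hδ, δinv hδ, δone hδ, D] <;> linear_combination (0) * h3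
  have e9 : δ (g * P⁻¹) = δ (m * f⁻¹) := by simp only [hδ, δinv hδ, δone hδ, D] <;> linear_combination (0) * h3
  have e10 : δ (g * (P⁻¹ * (f * P⁻¹))) = δ (P * g⁻¹) := by simp only [hδ, δinv hδ, δone hδ, D] <;> linear_combination (-1) * h3
  have e11 : δ (g * (P⁻¹ * (f * m⁻¹))) = δ (g * (P⁻¹ * (Q * f⁻¹))) := by simp only [hδ, δinv hδ, δone hδ, D] <;> linear_combination (0) * h3
  have e12 : δ (g * P⁻¹) = δ (m * g⁻¹) := by simp only [hδ, δinv hδ, δone hδ, D] <;> linear_combination (0) * h3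
  have e13 : δ (g * (P⁻¹ * (g * f⁻¹))) = δ (g * P⁻¹) := by simp only [hδ, δinv hδ, δone hδ, D] <;> linear_combination (0) * h3
  have e14 : δ (g * (P⁻¹ * (g * m⁻¹))) = δ (g * (P⁻¹ * (Q * g⁻¹))) := by simp only [hδ, δinv hδ, δone hδ, D] <;> linear_combination (0) * h3
  have e15 : δ (g * (P⁻¹ * (Q * g⁻¹))) = δ (g * (P⁻¹ * (f * m⁻¹))) := by simp only [hδ, δinv hδ, δone hδ, D] <;> linear_combination (0) * h3
  have e16 : δ (g * (P⁻¹ * (Q * g⁻¹))) = δ (g * (P⁻¹ * (Q * f⁻¹))) := by simp only [hδ, δinv hδ, δone hδ, D] <;> linear_combination (0) * h3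
  have e17 : δ (g * (P⁻¹ * (Q * f⁻¹))) = δ (g * (P⁻¹ * (f * m⁻¹))) := by simp only [hδ, δinv hδ, δone hδ, D] <;> linear_combination (0) * h3
  have e18 : δ (g * (P⁻¹ * (Q * f⁻¹))) = δ (g * (P⁻¹ * (m * Q⁻¹))) := by simp only [hδ, δinv hδ, δone hδ, D] <;> linear_combination (1) * h3
  have e19 : δ (g * (P⁻¹ * (m * g⁻¹))) = δ (P * g⁻¹) := by simp only [hδ, δinv hδ, δone hδ, D] <;> linear_combination (-1) * h3
  have e20 : δ (g * P⁻¹) = δ (Q * m⁻¹) := by simp only [hδ, δinv hδ, δone hδ, D] <;> linear_combination (-1) * h3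
  have e21 : δ (g * (P⁻¹ * (m * Q⁻¹))) = δ (g * (P⁻¹ * (Q * f⁻¹))) := by simp only [hδ, δinv hδ, δone hδ, D] <;> linear_combination (-1) * h3
  have e22 : δ (P * f⁻¹) = δ (P * g⁻¹) := by simp only [hδ, δinv hδ, δone hδ, D] <;> linear_combination (0) * h3
  have e23 : δ (P * f⁻¹) = δ (m * P⁻¹) := by simp only [hδ, δinv hδ, δone hδ, D] <;> linear_combination (1) * h3
  have e24 : δ (f * m⁻¹) = δ (P * f⁻¹) := by simp only [hδ, δinv hδ, δone hδ, D] <;> linear_combination (0) * h3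
  have e25 : δ (g * m⁻¹) = δ (P * f⁻¹) := by simp only [hδ, δinv hδ, δone hδ, D] <;> linear_combination (0) * h3
  have e26 : δ (g * m⁻¹) = δ (P * g⁻¹) := by simp only [hδ, δinv hδ, δone hδ, D] <;> linear_combination (0) * h3
  have e27 : δ (g * m⁻¹) = δ (Q * g⁻¹) := by simp only [hδ, δinv hδ, δone hδ, D] <;> linear_combination (0) * h3
  have e28 : δ (g * m⁻¹) = δ (Q * f⁻¹) := by simp only [hδ, δinv hδ, δone hδ, D] <;> linear_combination (0) * h3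
  have e29 : δ (Q * g⁻¹) = δ (g * m⁻¹) := by simp only [hδ, δinv hδ, δone hδ, D] <;> linear_combination (0) * h3
  have e30 : δ (g * Q⁻¹) = δ (m * g⁻¹) := by simp only [hδ, δinv hδ, δone hδ, D] <;> linear_combination (0) * h3
  have e31 : δ (Q * f⁻¹) = δ (P * g⁻¹) := by simp only [hδ, δinv hδ, δone hδ, D] <;> linear_combination (0) * h3
  have e32 : δ (Q * f⁻¹) = δ (f * m⁻¹) := by simp only [hδ, δinv hδ, δone hδ, D] <;> linear_combination (0) * h3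
  have e33 : δ (Q * f⁻¹) = δ (g * m⁻¹) := by simp only [hδ, δinv hδ, δone hδ, D] <;> linear_combination (0) * h3
  have e34 : δ (Q * f⁻¹) = δ (Q * g⁻¹) := by simp only [hδ, δinv hδ, δone hδ, D] <;> linear_combination (0) * h3
  have e35 : δ (f * Q⁻¹) = δ (m * f⁻¹) := by simp only [hδ, δinv hδ, δone hδ, D] <;> linear_combination (0) * h3
  have e36 : δ (m * P⁻¹) = δ (P * f⁻¹) := by simp only [hδ, δinv hδ, δone hδ, D] <;> linear_combination (-1) * h3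
  have e37 : δ (m * f⁻¹) = δ (g * Q⁻¹) := by simp only [hδ, δinv hδ, δone hδ, D] <;> linear_combination (0) * h3
  have e38 : δ (g * (P⁻¹ * (f * P⁻¹))) = δ (g * (P⁻¹ * (m * g⁻¹))) := by simp only [hδ, δinv hδ, δone hδ, D] <;> linear_combination (0) * h3
  have e39 : δ (g * (P⁻¹ * (m * f⁻¹))) = δ (g * (P⁻¹ * (m * g⁻¹))) := by simp only [hδ, δinv hδ, δone hδ, D] <;> linear_combination (0) * h3
  have e40 : δ (g * (P⁻¹ * (m * g⁻¹))) = δ (g * (P⁻¹ * (f * P⁻¹))) := by simp only [hδ, δinv hδ, δone hδ, D] <;> linear_combination (0) * h3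
  have e41 : δ (g * (P⁻¹ * (m * g⁻¹))) = δ (g * (P⁻¹ * (m * f⁻¹))) := by simp only [hδ, δinv hδ, δone hδ, D] <;> linear_combination (0) * h3
  have e42 : δ (g * (P⁻¹ * (m * g⁻¹))) = δ (g * (P⁻¹ * (f * Q⁻¹))) := by simp only [hδ, δinv hδ, δone hδ, D] <;> linear_combination (0) * h3
  have e43 : δ (g * P⁻¹) = δ (P * (g⁻¹ * (Q * f⁻¹))) := by simp only [hδ, δinv hδ, δone hδ, D] <;> linear_combination (-1) * h3
  have e44 : δ (g * (P⁻¹ * (f * Q⁻¹))) = δ (g * (P⁻¹ * (m * g⁻¹))) := by simp only [hδ, δinv hδ, δone hδ, D] <;> linear_combination (0) * h3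
  have e45 : δ (f * P⁻¹) = δ (g * Q⁻¹) := by simp only [hδ, δinv hδ, δone hδ, D] <;> linear_combination (0) * h3
  have e46 : δ (m * f⁻¹) = δ (m * g⁻¹) := by simp only [hδ, δinv hδ, δone hδ, D] <;> linear_combination (0) * h3
  have e47 : δ (m * g⁻¹) = δ (f * P⁻¹) := by simp only [hδ, δinv hδ, δone hδ, D] <;> linear_combination (0) * h3
  have k0 : o.lt (m * f⁻¹) (m * g⁻¹) ↔ o.lt (1 * (m * f⁻¹)) (1 * (m * g⁻¹)) := o.cv hδ (1) e46 (by simp only [mul_assoc, mul_inv_rev, inv_inv, mul_inv_cancel_left, inv_mul_cancel_left, mul_inv_cancel, inv_mul_cancel, mul_one, one_mul, inv_one, C]) (by simp only [mul_assoc, mul_inv_rev, inv_inv, mul_inv_cancel_left, inv_mul_cancel_left, mul_inv_cancel, inv_mul_cancel, mul_one, one_mul, inv_one, C])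
  have k1 : o.lt (m * g⁻¹) (f * P⁻¹) ↔ o.lt (1 * (m * g⁻¹)) (1 * (f * P⁻¹)) := o.cv hδ (1) e47 (by simp only [mul_assoc, mul_inv_rev, inv_inv, mul_inv_cancel_left, inv_mul_cancel_left, mul_inv_cancel, inv_mul_cancel, mul_one, one_mul, inv_one, C]) (by simp only [mul_assoc, mul_inv_rev, inv_inv, mul_inv_cancel_left, inv_mul_cancel_left, mul_inv_cancel, inv_mul_cancel, mul_one, one_mul, inv_one, C])
  have k2 : o.lt (f * m⁻¹) (P * f⁻¹) ↔ o.lt (1 * (m * f⁻¹)⁻¹) (1 * (f * P⁻¹)⁻¹) := o.cv hδ (1) e24 (by simp only [mul_assoc, mul_inv_rev, inv_inv, mul_inv_cancel_left, inv_mul_cancel_left, mul_inv_cancel, inv_mul_cancel, mul_one, one_mul, inv_one, C]) (by simp only [mul_assoc, mul_inv_rev, inv_inv, mul_inv_cancel_left, inv_mul_cancel_left, mul_inv_cancel, inv_mul_cancel, mul_one, one_mul, inv_one, C])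
  have k3 : o.lt (P * f⁻¹) (P * g⁻¹) ↔ o.lt (1 * (P * f⁻¹)) (1 * (P * g⁻¹)) := o.cv hδ (1) e22 (by simp only [mul_assoc, mul_inv_rev, inv_inv, mul_inv_cancel_left, inv_mul_cancel_left, mul_inv_cancel, inv_mul_cancel, mul_one, one_mul, inv_one, C]) (by simp only [mul_assoc, mul_inv_rev, inv_inv, mul_inv_cancel_left, inv_mul_cancel_left, mul_inv_cancel, inv_mul_cancel, mul_one, one_mul, inv_one, C])
  have k4 : o.lt (g * m⁻¹) (P * f⁻¹) ↔ o.lt (1 * (g * m⁻¹)) (1 * (P * f⁻¹)) := o.cv hδ (1) e25 (by simp only [mul_assoc, mul_inv_rev, inv_inv, mul_inv_cancel_left, inv_mul_cancel_left, mul_inv_cancel, inv_mul_cancel, mul_one, one_mul, inv_one, C]) (by simp only [mul_assoc, mul_inv_rev, inv_inv, mul_inv_cancel_left, inv_mul_cancel_left, mul_inv_cancel, inv_mul_cancel, mul_one, one_mul, inv_one, C])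
  have k5 : o.lt (m * g⁻¹) (g * P⁻¹) ↔ o.lt (1 * (g * m⁻¹)⁻¹) (1 * (P * g⁻¹)⁻¹) := o.cv hδ (1) e5 (by simp only [mul_assoc, mul_inv_rev, inv_inv, mul_inv_cancel_left, inv_mul_cancel_left, mul_inv_cancel, inv_mul_cancel, mul_one, one_mul, inv_one, C]) (by simp only [mul_assoc, mul_inv_rev, inv_inv, mul_inv_cancel_left, inv_mul_cancel_left, mul_inv_cancel, inv_mul_cancel, mul_one, one_mul, inv_one, C])
  have k6 : o.lt (g * m⁻¹) (f * m⁻¹) ↔ o.lt (1 * (g * m⁻¹)) (1 * (f * m⁻¹)) := o.cv hδ (1) e0 (by simp only [mul_assoc, mul_inv_rev, inv_inv, mul_inv_cancel_left, inv_mul_cancel_left, mul_inv_cancel, inv_mul_cancel, mul_one, one_mul, inv_one, C]) (by simp only [mul_assoc, mul_inv_rev, inv_inv, mul_inv_cancel_left, inv_mul_cancel_left, mul_inv_cancel, inv_mul_cancel, mul_one, one_mul, inv_one, C])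
  have k7 : o.lt (g * P⁻¹) (m * g⁻¹) ↔ o.lt (1 * (P * g⁻¹)⁻¹) (1 * (g * m⁻¹)⁻¹) := o.cv hδ (1) e12 (by simp only [mul_assoc, mul_inv_rev, inv_inv, mul_inv_cancel_left, inv_mul_cancel_left, mul_inv_cancel, inv_mul_cancel, mul_one, one_mul, inv_one, C]) (by simp only [mul_assoc, mul_inv_rev, inv_inv, mul_inv_cancel_left, inv_mul_cancel_left, mul_inv_cancel, inv_mul_cancel, mul_one, one_mul, inv_one, C])
  have k8 : o.lt (Q * g⁻¹) (g * m⁻¹) ↔ o.lt (1 * (Q * g⁻¹)) (1 * (g * m⁻¹)) := o.cv hδ (1) e29 (by simp only [mul_assoc, mul_inv_rev, inv_inv, mul_inv_cancel_left, inv_mul_cancel_left, mul_inv_cancel, inv_mul_cancel, mul_one, one_mul, inv_one, C]) (by simp only [mul_assoc, mul_inv_rev, inv_inv, mul_inv_cancel_left, inv_mul_cancel_left, mul_inv_cancel, inv_mul_cancel, mul_one, one_mul, inv_one, C])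
  have k9 : o.lt (Q * f⁻¹) (f * m⁻¹) ↔ o.lt (1 * (Q * f⁻¹)) (1 * (f * m⁻¹)) := o.cv hδ (1) e32 (by simp only [mul_assoc, mul_inv_rev, inv_inv, mul_inv_cancel_left, inv_mul_cancel_left, mul_inv_cancel, inv_mul_cancel, mul_one, one_mul, inv_one, C]) (by simp only [mul_assoc, mul_inv_rev, inv_inv, mul_inv_cancel_left, inv_mul_cancel_left, mul_inv_cancel, inv_mul_cancel, mul_one, one_mul, inv_one, C])
  have k10 : o.lt (Q * f⁻¹) (Q * g⁻¹) ↔ o.lt (1 * (Q * f⁻¹)) (1 * (Q * g⁻¹)) := o.cv hδ (1) e34 (by simp only [mul_assoc, mul_inv_rev, inv_inv, mul_inv_cancel_left, inv_mul_cancel_left, mul_inv_cancel, inv_mul_cancel, mul_one, one_mul, inv_one, C]) (by simp only [mul_assoc, mul_inv_rev, inv_inv, mul_inv_cancel_left, inv_mul_cancel_left, mul_inv_cancel, inv_mul_cancel, mul_one, one_mul, inv_one, C])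
  have k11 : o.lt (g * m⁻¹) (f * m⁻¹) ↔ o.lt (1 * g) (1 * f) := o.cv hδ (m) e0 (by simp only [mul_assoc, mul_inv_rev, inv_inv, mul_inv_cancel_left, inv_mul_cancel_left, mul_inv_cancel, inv_mul_cancel, mul_one, one_mul, inv_one, C]) (by simp only [mul_assoc, mul_inv_rev, inv_inv, mul_inv_cancel_left, inv_mul_cancel_left, mul_inv_cancel, inv_mul_cancel, mul_one, one_mul, inv_one, C])
  have k12 : o.lt (m * f⁻¹) (g * Q⁻¹) ↔ o.lt (1 * (m * f⁻¹)) (1 * (g * Q⁻¹)) := o.cv hδ (1) e37 (by simp only [mul_assoc, mul_inv_rev, inv_inv, mul_inv_cancel_left, inv_mul_cancel_left, mul_inv_cancel, inv_mul_cancel, mul_one, one_mul, inv_one, C]) (by simp only [mul_assoc, mul_inv_rev, inv_inv, mul_inv_cancel_left, inv_mul_cancel_left, mul_inv_cancel, inv_mul_cancel, mul_one, one_mul, inv_one, C])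
  have k13 : o.lt (Q * f⁻¹) (g * m⁻¹) ↔ o.lt (1 * (f * Q⁻¹)⁻¹) (1 * (m * g⁻¹)⁻¹) := o.cv hδ (1) e33 (by simp only [mul_assoc, mul_inv_rev, inv_inv, mul_inv_cancel_left, inv_mul_cancel_left, mul_inv_cancel, inv_mul_cancel, mul_one, one_mul, inv_one, C]) (by simp only [mul_assoc, mul_inv_rev, inv_inv, mul_inv_cancel_left, inv_mul_cancel_left, mul_inv_cancel, inv_mul_cancel, mul_one, one_mul, inv_one, C])
  have k14 : o.lt (f * Q⁻¹) (m * f⁻¹) ↔ o.lt (1 * (f * Q⁻¹)) (1 * (m * f⁻¹)) := o.cv hδ (1) e35 (by simp only [mul_assoc, mul_inv_rev, inv_inv, mul_inv_cancel_left, inv_mul_cancel_left, mul_inv_cancel, inv_mul_cancel, mul_one, one_mul, inv_one, C]) (by simp only [mul_assoc, mul_inv_rev, inv_inv, mul_inv_cancel_left, inv_mul_cancel_left, mul_inv_cancel, inv_mul_cancel, mul_one, one_mul, inv_one, C])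
  have k15 : o.lt (g * Q⁻¹) (m * g⁻¹) ↔ o.lt (1 * (g * Q⁻¹)) (1 * (m * g⁻¹)) := o.cv hδ (1) e30 (by simp only [mul_assoc, mul_inv_rev, inv_inv, mul_inv_cancel_left, inv_mul_cancel_left, mul_inv_cancel, inv_mul_cancel, mul_one, one_mul, inv_one, C]) (by simp only [mul_assoc, mul_inv_rev, inv_inv, mul_inv_cancel_left, inv_mul_cancel_left, mul_inv_cancel, inv_mul_cancel, mul_one, one_mul, inv_one, C])
  have k16 : o.lt (g * (P⁻¹ * (m * f⁻¹))) (g * (P⁻¹ * (m * g⁻¹))) ↔ o.lt ((g * P⁻¹) * (m * f⁻¹)) ((g * P⁻¹) * (m * g⁻¹)) := o.cv hδ (1) e39 (by simp only [mul_assoc, mul_inv_rev, inv_inv, mul_inv_cancel_left, inv_mul_cancel_left, mul_inv_cancel, inv_mul_cancel, mul_one, one_mul, inv_one, C]) (by simp only [mul_assoc, mul_inv_rev, inv_inv, mul_inv_cancel_left, inv_mul_cancel_left, mul_inv_cancel, inv_mul_cancel, mul_one, one_mul, inv_one, C])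
  have k17 : o.lt (g * (P⁻¹ * (m * g⁻¹))) (g * (P⁻¹ * (f * P⁻¹))) ↔ o.lt ((g * P⁻¹) * (m * g⁻¹)) ((g * P⁻¹) * (f * P⁻¹)) := o.cv hδ (1) e40 (by simp only [mul_assoc, mul_inv_rev, inv_inv, mul_inv_cancel_left, inv_mul_cancel_left, mul_inv_cancel, inv_mul_cancel, mul_one, one_mul, inv_one, C]) (by simp only [mul_assoc, mul_inv_rev, inv_inv, mul_inv_cancel_left, inv_mul_cancel_left, mul_inv_cancel, inv_mul_cancel, mul_one, one_mul, inv_one, C])
  have k18 : o.lt (g * (P⁻¹ * (f * m⁻¹))) (g * f⁻¹) ↔ o.lt ((g * P⁻¹) * (m * f⁻¹)⁻¹) ((g * P⁻¹) * (f * P⁻¹)⁻¹) := o.cv hδ (1) e8 (by simp only [mul_assoc, mul_inv_rev, inv_inv, mul_inv_cancel_left, inv_mul_cancel_left, mul_inv_cancel, inv_mul_cancel, mul_one, one_mul, inv_one, C]) (by simp only [mul_assoc, mul_inv_rev, inv_inv, mul_inv_cancel_left, inv_mul_cancel_left, mul_inv_cancel, inv_mul_cancel, mul_one, one_mul, inv_one, C])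
  have k19 : o.lt (g * (P⁻¹ * (f * P⁻¹))) (P * g⁻¹) ↔ o.lt ((g * P⁻¹) * (f * P⁻¹)) ((g * P⁻¹) * (g * P⁻¹)) := o.cv hδ (1) e10 (by simp only [mul_assoc, mul_inv_rev, inv_inv, mul_inv_cancel_left, inv_mul_cancel_left, mul_inv_cancel, inv_mul_cancel, mul_one, one_mul, inv_one, C]) (by simp only [mul_assoc, mul_inv_rev, inv_inv, mul_inv_cancel_left, inv_mul_cancel_left, mul_inv_cancel, inv_mul_cancel, mul_one, one_mul, inv_one, C])
  have k20 : o.lt (g * (P⁻¹ * (f * P⁻¹))) (g * (P⁻¹ * (m * g⁻¹))) ↔ o.lt ((g * P⁻¹) * (f * P⁻¹)) ((g * P⁻¹) * (m * g⁻¹)) := o.cv hδ (1) e38 (by simp only [mul_assoc, mul_inv_rev, inv_inv, mul_inv_cancel_left, inv_mul_cancel_left, mul_inv_cancel, inv_mul_cancel, mul_one, one_mul, inv_one, C]) (by simp only [mul_assoc, mul_inv_rev, inv_inv, mul_inv_cancel_left, inv_mul_cancel_left, mul_inv_cancel, inv_mul_cancel, mul_one, one_mul, inv_one, C])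
  have k21 : o.lt (g * (P⁻¹ * (m * g⁻¹))) (g * (P⁻¹ * (m * f⁻¹))) ↔ o.lt ((g * P⁻¹) * (m * g⁻¹)) ((g * P⁻¹) * (m * f⁻¹)) := o.cv hδ (1) e41 (by simp only [mul_assoc, mul_inv_rev, inv_inv, mul_inv_cancel_left, inv_mul_cancel_left, mul_inv_cancel, inv_mul_cancel, mul_one, one_mul, inv_one, C]) (by simp only [mul_assoc, mul_inv_rev, inv_inv, mul_inv_cancel_left, inv_mul_cancel_left, mul_inv_cancel, inv_mul_cancel, mul_one, one_mul, inv_one, C])
  have k22 : o.lt (g * f⁻¹) (g * (P⁻¹ * (f * m⁻¹))) ↔ o.lt ((g * P⁻¹) * (f * P⁻¹)⁻¹) ((g * P⁻¹) * (m * f⁻¹)⁻¹) := o.cv hδ (1) e1 (by simp only [mul_assoc, mul_inv_rev, inv_inv, mul_inv_cancel_left, inv_mul_cancel_left, mul_inv_cancel, inv_mul_cancel, mul_one, one_mul, inv_one, C]) (by simp only [mul_assoc, mul_inv_rev, inv_inv, mul_inv_cancel_left, inv_mul_cancel_left, mul_inv_cancel, inv_mul_cancel, mul_one, one_mul, inv_one, C])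
  have k23 : o.lt (g * (P⁻¹ * (g * m⁻¹))) (g * (P⁻¹ * (Q * g⁻¹))) ↔ o.lt ((g * P⁻¹) * (g * m⁻¹)) ((g * P⁻¹) * (Q * g⁻¹)) := o.cv hδ (1) e14 (by simp only [mul_assoc, mul_inv_rev, inv_inv, mul_inv_cancel_left, inv_mul_cancel_left, mul_inv_cancel, inv_mul_cancel, mul_one, one_mul, inv_one, C]) (by simp only [mul_assoc, mul_inv_rev, inv_inv, mul_inv_cancel_left, inv_mul_cancel_left, mul_inv_cancel, inv_mul_cancel, mul_one, one_mul, inv_one, C])
  have k24 : o.lt (g * (P⁻¹ * (f * m⁻¹))) (g * (P⁻¹ * (Q * f⁻¹))) ↔ o.lt ((g * P⁻¹) * (f * m⁻¹)) ((g * P⁻¹) * (Q * f⁻¹)) := o.cv hδ (1) e11 (by simp only [mul_assoc, mul_inv_rev, inv_inv, mul_inv_cancel_left, inv_mul_cancel_left, mul_inv_cancel, inv_mul_cancel, mul_one, one_mul, inv_one, C]) (by simp only [mul_assoc, mul_inv_rev, inv_inv, mul_inv_cancel_left, inv_mul_cancel_left, mul_inv_cancel, inv_mul_cancel, mul_one, one_mul, inv_one, C])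
  have k25 : o.lt (g * (P⁻¹ * (Q * g⁻¹))) (g * (P⁻¹ * (Q * f⁻¹))) ↔ o.lt ((g * P⁻¹) * (Q * g⁻¹)) ((g * P⁻¹) * (Q * f⁻¹)) := o.cv hδ (1) e16 (by simp only [mul_assoc, mul_inv_rev, inv_inv, mul_inv_cancel_left, inv_mul_cancel_left, mul_inv_cancel, inv_mul_cancel, mul_one, one_mul, inv_one, C]) (by simp only [mul_assoc, mul_inv_rev, inv_inv, mul_inv_cancel_left, inv_mul_cancel_left, mul_inv_cancel, inv_mul_cancel, mul_one, one_mul, inv_one, C])
  have k26 : o.lt (g * (P⁻¹ * (f * P⁻¹))) (P * g⁻¹) ↔ o.lt ((g * P⁻¹) * f) ((g * P⁻¹) * g) := o.cv hδ (P) e10 (by simp only [mul_assoc, mul_inv_rev, inv_inv, mul_inv_cancel_left, inv_mul_cancel_left, mul_inv_cancel, inv_mul_cancel, mul_one, one_mul, inv_one, C]) (by simp only [mul_assoc, mul_inv_rev, inv_inv, mul_inv_cancel_left, inv_mul_cancel_left, mul_inv_cancel, inv_mul_cancel, mul_one, one_mul, inv_one, C])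
  have k27 : o.lt (g * (P⁻¹ * (Q * g⁻¹))) (g * (P⁻¹ * (f * m⁻¹))) ↔ o.lt ((g * P⁻¹) * (Q * g⁻¹)) ((g * P⁻¹) * (f * m⁻¹)) := o.cv hδ (1) e15 (by simp only [mul_assoc, mul_inv_rev, inv_inv, mul_inv_cancel_left, inv_mul_cancel_left, mul_inv_cancel, inv_mul_cancel, mul_one, one_mul, inv_one, C]) (by simp only [mul_assoc, mul_inv_rev, inv_inv, mul_inv_cancel_left, inv_mul_cancel_left, mul_inv_cancel, inv_mul_cancel, mul_one, one_mul, inv_one, C])
  have k28 : o.lt (g * (P⁻¹ * (m * g⁻¹))) (g * (P⁻¹ * (f * Q⁻¹))) ↔ o.lt ((g * P⁻¹) * (g * m⁻¹)⁻¹) ((g * P⁻¹) * (Q * f⁻¹)⁻¹) := o.cv hδ (1) e42 (by simp only [mul_assoc, mul_inv_rev, inv_inv, mul_inv_cancel_left, inv_mul_cancel_left, mul_inv_cancel, inv_mul_cancel, mul_one, one_mul, inv_one, C]) (by simp only [mul_assoc, mul_inv_rev, inv_inv, mul_inv_cancel_left, inv_mul_cancel_left, mul_inv_cancel, inv_mul_cancel, mul_one, one_mul, inv_one, C])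
  have k29 : o.lt (P * f⁻¹) (m * P⁻¹) ↔ o.lt (P * f⁻¹) (m * P⁻¹) := o.cv hδ (1) e23 (by simp only [mul_assoc, mul_inv_rev, inv_inv, mul_inv_cancel_left, inv_mul_cancel_left, mul_inv_cancel, inv_mul_cancel, mul_one, one_mul, inv_one, C]) (by simp only [mul_assoc, mul_inv_rev, inv_inv, mul_inv_cancel_left, inv_mul_cancel_left, mul_inv_cancel, inv_mul_cancel, mul_one, one_mul, inv_one, C])
  have k30 : o.lt (P * f⁻¹) (P * g⁻¹) ↔ o.lt (P * f⁻¹) (P * g⁻¹) := o.cv hδ (1) e22 (by simp only [mul_assoc, mul_inv_rev, inv_inv, mul_inv_cancel_left, inv_mul_cancel_left, mul_inv_cancel, inv_mul_cancel, mul_one, one_mul, inv_one, C]) (by simp only [mul_assoc, mul_inv_rev, inv_inv, mul_inv_cancel_left, inv_mul_cancel_left, mul_inv_cancel, inv_mul_cancel, mul_one, one_mul, inv_one, C])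
  have k31 : o.lt (g * P⁻¹) (m * g⁻¹) ↔ o.lt (P * g⁻¹) (m * P⁻¹) := o.cv hδ (P * (g⁻¹ * (P * g⁻¹))) e12 (by simp only [mul_assoc, mul_inv_rev, inv_inv, mul_inv_cancel_left, inv_mul_cancel_left, mul_inv_cancel, inv_mul_cancel, mul_one, one_mul, inv_one, C]) (by simp only [mul_assoc, mul_inv_rev, inv_inv, mul_inv_cancel_left, inv_mul_cancel_left, mul_inv_cancel, inv_mul_cancel, mul_one, one_mul, inv_one, C])
  have k32 : o.lt (m * g⁻¹) (g * P⁻¹) ↔ o.lt (m * P⁻¹) (P * g⁻¹) := o.cv hδ (g * P⁻¹) e5 (by simp only [mul_assoc, mul_inv_rev, inv_inv, mul_inv_cancel_left, inv_mul_cancel_left, mul_inv_cancel, inv_mul_cancel, mul_one, one_mul, inv_one, C]) (by simp only [mul_assoc, mul_inv_rev, inv_inv, mul_inv_cancel_left, inv_mul_cancel_left, mul_inv_cancel, inv_mul_cancel, mul_one, one_mul, inv_one, C])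
  have k33 : o.lt (f * m⁻¹) (g * m⁻¹) ↔ o.lt (f * m⁻¹) (g * m⁻¹) := o.cv hδ (1) e3 (by simp only [mul_assoc, mul_inv_rev, inv_inv, mul_inv_cancel_left, inv_mul_cancel_left, mul_inv_cancel, inv_mul_cancel, mul_one, one_mul, inv_one, C]) (by simp only [mul_assoc, mul_inv_rev, inv_inv, mul_inv_cancel_left, inv_mul_cancel_left, mul_inv_cancel, inv_mul_cancel, mul_one, one_mul, inv_one, C])
  have k34 : o.lt (g * m⁻¹) (f * m⁻¹) ↔ o.lt (g * m⁻¹) (f * m⁻¹) := o.cv hδ (1) e0 (by simp only [mul_assoc, mul_inv_rev, inv_inv, mul_inv_cancel_left, inv_mul_cancel_left, mul_inv_cancel, inv_mul_cancel, mul_one, one_mul, inv_one, C]) (by simp only [mul_assoc, mul_inv_rev, inv_inv, mul_inv_cancel_left, inv_mul_cancel_left, mul_inv_cancel, inv_mul_cancel, mul_one, one_mul, inv_one, C])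
  have k35 : o.lt (g * m⁻¹) (P * g⁻¹) ↔ o.lt (g * m⁻¹) (P * g⁻¹) := o.cv hδ (1) e26 (by simp only [mul_assoc, mul_inv_rev, inv_inv, mul_inv_cancel_left, inv_mul_cancel_left, mul_inv_cancel, inv_mul_cancel, mul_one, one_mul, inv_one, C]) (by simp only [mul_assoc, mul_inv_rev, inv_inv, mul_inv_cancel_left, inv_mul_cancel_left, mul_inv_cancel, inv_mul_cancel, mul_one, one_mul, inv_one, C])
  have k36 : o.lt (g * m⁻¹) (Q * f⁻¹) ↔ o.lt (g * m⁻¹) (Q * f⁻¹) := o.cv hδ (1) e28 (by simp only [mul_assoc, mul_inv_rev, inv_inv, mul_inv_cancel_left, inv_mul_cancel_left, mul_inv_cancel, inv_mul_cancel, mul_one, one_mul, inv_one, C]) (by simp only [mul_assoc, mul_inv_rev, inv_inv, mul_inv_cancel_left, inv_mul_cancel_left, mul_inv_cancel, inv_mul_cancel, mul_one, one_mul, inv_one, C])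
  have k37 : o.lt (Q * f⁻¹) (P * g⁻¹) ↔ o.lt (Q * f⁻¹) (P * g⁻¹) := o.cv hδ (1) e31 (by simp only [mul_assoc, mul_inv_rev, inv_inv, mul_inv_cancel_left, inv_mul_cancel_left, mul_inv_cancel, inv_mul_cancel, mul_one, one_mul, inv_one, C]) (by simp only [mul_assoc, mul_inv_rev, inv_inv, mul_inv_cancel_left, inv_mul_cancel_left, mul_inv_cancel, inv_mul_cancel, mul_one, one_mul, inv_one, C])
  have k38 : o.lt (g * m⁻¹) (Q * g⁻¹) ↔ o.lt (g * m⁻¹) (Q * g⁻¹) := o.cv hδ (1) e27 (by simp only [mul_assoc, mul_inv_rev, inv_inv, mul_inv_cancel_left, inv_mul_cancel_left, mul_inv_cancel, inv_mul_cancel, mul_one, one_mul, inv_one, C]) (by simp only [mul_assoc, mul_inv_rev, inv_inv, mul_inv_cancel_left, inv_mul_cancel_left, mul_inv_cancel, inv_mul_cancel, mul_one, one_mul, inv_one, C])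
  have k39 : o.lt (Q * f⁻¹) (Q * g⁻¹) ↔ o.lt (Q * f⁻¹) (Q * g⁻¹) := o.cv hδ (1) e34 (by simp only [mul_assoc, mul_inv_rev, inv_inv, mul_inv_cancel_left, inv_mul_cancel_left, mul_inv_cancel, inv_mul_cancel, mul_one, one_mul, inv_one, C]) (by simp only [mul_assoc, mul_inv_rev, inv_inv, mul_inv_cancel_left, inv_mul_cancel_left, mul_inv_cancel, inv_mul_cancel, mul_one, one_mul, inv_one, C])
  have k40 : o.lt (Q * f⁻¹) (g * m⁻¹) ↔ o.lt (Q * f⁻¹) (g * m⁻¹) := o.cv hδ (1) e33 (by simp only [mul_assoc, mul_inv_rev, inv_inv, mul_inv_cancel_left, inv_mul_cancel_left, mul_inv_cancel, inv_mul_cancel, mul_one, one_mul, inv_one, C]) (by simp only [mul_assoc, mul_inv_rev, inv_inv, mul_inv_cancel_left, inv_mul_cancel_left, mul_inv_cancel, inv_mul_cancel, mul_one, one_mul, inv_one, C])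
  have k41 : o.lt (m * P⁻¹) (P * f⁻¹) ↔ o.lt (m * P⁻¹) (P * f⁻¹) := o.cv hδ (1) e36 (by simp only [mul_assoc, mul_inv_rev, inv_inv, mul_inv_cancel_left, inv_mul_cancel_left, mul_inv_cancel, inv_mul_cancel, mul_one, one_mul, inv_one, C]) (by simp only [mul_assoc, mul_inv_rev, inv_inv, mul_inv_cancel_left, inv_mul_cancel_left, mul_inv_cancel, inv_mul_cancel, mul_one, one_mul, inv_one, C])
  have k42 : o.lt (f * m⁻¹) (g * m⁻¹) ↔ o.lt (f * P⁻¹) (g * P⁻¹) := o.cv hδ (m * P⁻¹) e3 (by simp only [mul_assoc, mul_inv_rev, inv_inv, mul_inv_cancel_left, inv_mul_cancel_left, mul_inv_cancel, inv_mul_cancel, mul_one, one_mul, inv_one, C]) (by simp only [mul_assoc, mul_inv_rev, inv_inv, mul_inv_cancel_left, inv_mul_cancel_left, mul_inv_cancel, inv_mul_cancel, mul_one, one_mul, inv_one, C])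
  have k43 : o.lt (f * P⁻¹) (g * Q⁻¹) ↔ o.lt (f * P⁻¹) (g * Q⁻¹) := o.cv hδ (1) e45 (by simp only [mul_assoc, mul_inv_rev, inv_inv, mul_inv_cancel_left, inv_mul_cancel_left, mul_inv_cancel, inv_mul_cancel, mul_one, one_mul, inv_one, C]) (by simp only [mul_assoc, mul_inv_rev, inv_inv, mul_inv_cancel_left, inv_mul_cancel_left, mul_inv_cancel, inv_mul_cancel, mul_one, one_mul, inv_one, C])
  have k44 : o.lt (g * Q⁻¹) (g * P⁻¹) ↔ o.lt (g * Q⁻¹) (g * P⁻¹) := o.cv hδ (1) e2 (by simp only [mul_assoc, mul_inv_rev, inv_inv, mul_inv_cancel_left, inv_mul_cancel_left, mul_inv_cancel, inv_mul_cancel, mul_one, one_mul, inv_one, C]) (by simp only [mul_assoc, mul_inv_rev, inv_inv, mul_inv_cancel_left, inv_mul_cancel_left, mul_inv_cancel, inv_mul_cancel, mul_one, one_mul, inv_one, C])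
  have k45 : o.lt (P * f⁻¹) (m * P⁻¹) ↔ o.lt (f * P⁻¹) (m * f⁻¹) := o.cv hδ (f * (P⁻¹ * (f * P⁻¹))) e23 (by simp only [mul_assoc, mul_inv_rev, inv_inv, mul_inv_cancel_left, inv_mul_cancel_left, mul_inv_cancel, inv_mul_cancel, mul_one, one_mul, inv_one, C]) (by simp only [mul_assoc, mul_inv_rev, inv_inv, mul_inv_cancel_left, inv_mul_cancel_left, mul_inv_cancel, inv_mul_cancel, mul_one, one_mul, inv_one, C])
  have k46 : o.lt (m * f⁻¹) (g * Q⁻¹) ↔ o.lt (m * f⁻¹) (g * Q⁻¹) := o.cv hδ (1) e37 (by simp only [mul_assoc, mul_inv_rev, inv_inv, mul_inv_cancel_left, inv_mul_cancel_left, mul_inv_cancel, inv_mul_cancel, mul_one, one_mul, inv_one, C]) (by simp only [mul_assoc, mul_inv_rev, inv_inv, mul_inv_cancel_left, inv_mul_cancel_left, mul_inv_cancel, inv_mul_cancel, mul_one, one_mul, inv_one, C])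
  have k47 : o.lt (g * P⁻¹) (Q * m⁻¹) ↔ o.lt (g * P⁻¹) (Q * m⁻¹) := o.cv hδ (1) e20 (by simp only [mul_assoc, mul_inv_rev, inv_inv, mul_inv_cancel_left, inv_mul_cancel_left, mul_inv_cancel, inv_mul_cancel, mul_one, one_mul, inv_one, C]) (by simp only [mul_assoc, mul_inv_rev, inv_inv, mul_inv_cancel_left, inv_mul_cancel_left, mul_inv_cancel, inv_mul_cancel, mul_one, one_mul, inv_one, C])
  have k48 : o.lt (g * P⁻¹) (m * g⁻¹) ↔ o.lt (g * P⁻¹) (m * g⁻¹) := o.cv hδ (1) e12 (by simp only [mul_assoc, mul_inv_rev, inv_inv, mul_inv_cancel_left, inv_mul_cancel_left, mul_inv_cancel, inv_mul_cancel, mul_one, one_mul, inv_one, C]) (by simp only [mul_assoc, mul_inv_rev, inv_inv, mul_inv_cancel_left, inv_mul_cancel_left, mul_inv_cancel, inv_mul_cancel, mul_one, one_mul, inv_one, C])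
  have k49 : o.lt (g * m⁻¹) (Q * g⁻¹) ↔ o.lt (m * g⁻¹) (Q * m⁻¹) := o.cv hδ (m * (g⁻¹ * (m * g⁻¹))) e27 (by simp only [mul_assoc, mul_inv_rev, inv_inv, mul_inv_cancel_left, inv_mul_cancel_left, mul_inv_cancel, inv_mul_cancel, mul_one, one_mul, inv_one, C]) (by simp only [mul_assoc, mul_inv_rev, inv_inv, mul_inv_cancel_left, inv_mul_cancel_left, mul_inv_cancel, inv_mul_cancel, mul_one, one_mul, inv_one, C])
  have k50 : o.lt (m * P⁻¹) (P * f⁻¹) ↔ o.lt (m * f⁻¹) (f * P⁻¹) := o.cv hδ (P * f⁻¹) e36 (by simp only [mul_assoc, mul_inv_rev, inv_inv, mul_inv_cancel_left, inv_mul_cancel_left, mul_inv_cancel, inv_mul_cancel, mul_one, one_mul, inv_one, C]) (by simp only [mul_assoc, mul_inv_rev, inv_inv, mul_inv_cancel_left, inv_mul_cancel_left, mul_inv_cancel, inv_mul_cancel, mul_one, one_mul, inv_one, C])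
  have k51 : o.lt (m * f⁻¹) (m * g⁻¹) ↔ o.lt (m * f⁻¹) (m * g⁻¹) := o.cv hδ (1) e46 (by simp only [mul_assoc, mul_inv_rev, inv_inv, mul_inv_cancel_left, inv_mul_cancel_left, mul_inv_cancel, inv_mul_cancel, mul_one, one_mul, inv_one, C]) (by simp only [mul_assoc, mul_inv_rev, inv_inv, mul_inv_cancel_left, inv_mul_cancel_left, mul_inv_cancel, inv_mul_cancel, mul_one, one_mul, inv_one, C])
  have k52 : o.lt (m * g⁻¹) (f * P⁻¹) ↔ o.lt (m * g⁻¹) (f * P⁻¹) := o.cv hδ (1) e47 (by simp only [mul_assoc, mul_inv_rev, inv_inv, mul_inv_cancel_left, inv_mul_cancel_left, mul_inv_cancel, inv_mul_cancel, mul_one, one_mul, inv_one, C]) (by simp only [mul_assoc, mul_inv_rev, inv_inv, mul_inv_cancel_left, inv_mul_cancel_left, mul_inv_cancel, inv_mul_cancel, mul_one, one_mul, inv_one, C])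
  have k53 : o.lt (m * f⁻¹) (g * P⁻¹) ↔ o.lt (m * f⁻¹) (g * P⁻¹) := o.cv hδ (1) e4 (by simp only [mul_assoc, mul_inv_rev, inv_inv, mul_inv_cancel_left, inv_mul_cancel_left, mul_inv_cancel, inv_mul_cancel, mul_one, one_mul, inv_one, C]) (by simp only [mul_assoc, mul_inv_rev, inv_inv, mul_inv_cancel_left, inv_mul_cancel_left, mul_inv_cancel, inv_mul_cancel, mul_one, one_mul, inv_one, C])
  have k54 : o.lt (m * g⁻¹) (g * P⁻¹) ↔ o.lt (m * g⁻¹) (g * P⁻¹) := o.cv hδ (1) e5 (by simp only [mul_assoc, mul_inv_rev, inv_inv, mul_inv_cancel_left, inv_mul_cancel_left, mul_inv_cancel, inv_mul_cancel, mul_one, one_mul, inv_one, C]) (by simp only [mul_assoc, mul_inv_rev, inv_inv, mul_inv_cancel_left, inv_mul_cancel_left, mul_inv_cancel, inv_mul_cancel, mul_one, one_mul, inv_one, C])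
  have k55 : o.lt (f * m⁻¹) (P * f⁻¹) ↔ o.lt (m * f⁻¹) (P * m⁻¹) := o.cv hδ (m * (f⁻¹ * (m * f⁻¹))) e24 (by simp only [mul_assoc, mul_inv_rev, inv_inv, mul_inv_cancel_left, inv_mul_cancel_left, mul_inv_cancel, inv_mul_cancel, mul_one, one_mul, inv_one, C]) (by simp only [mul_assoc, mul_inv_rev, inv_inv, mul_inv_cancel_left, inv_mul_cancel_left, mul_inv_cancel, inv_mul_cancel, mul_one, one_mul, inv_one, C])
  have k56 : o.lt (g * m⁻¹) (P * g⁻¹) ↔ o.lt (m * g⁻¹) (P * m⁻¹) := o.cv hδ (m * (g⁻¹ * (m * g⁻¹))) e26 (by simp only [mul_assoc, mul_inv_rev, inv_inv, mul_inv_cancel_left, inv_mul_cancel_left, mul_inv_cancel, inv_mul_cancel, mul_one, one_mul, inv_one, C]) (by simp only [mul_assoc, mul_inv_rev, inv_inv, mul_inv_cancel_left, inv_mul_cancel_left, mul_inv_cancel, inv_mul_cancel, mul_one, one_mul, inv_one, C])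
  have k57 : o.lt (g * Q⁻¹) (m * g⁻¹) ↔ o.lt (g * Q⁻¹) (m * g⁻¹) := o.cv hδ (1) e30 (by simp only [mul_assoc, mul_inv_rev, inv_inv, mul_inv_cancel_left, inv_mul_cancel_left, mul_inv_cancel, inv_mul_cancel, mul_one, one_mul, inv_one, C]) (by simp only [mul_assoc, mul_inv_rev, inv_inv, mul_inv_cancel_left, inv_mul_cancel_left, mul_inv_cancel, inv_mul_cancel, mul_one, one_mul, inv_one, C])
  have k58 : o.lt (f * Q⁻¹) (m * f⁻¹) ↔ o.lt (f * Q⁻¹) (m * f⁻¹) := o.cv hδ (1) e35 (by simp only [mul_assoc, mul_inv_rev, inv_inv, mul_inv_cancel_left, inv_mul_cancel_left, mul_inv_cancel, inv_mul_cancel, mul_one, one_mul, inv_one, C]) (by simp only [mul_assoc, mul_inv_rev, inv_inv, mul_inv_cancel_left, inv_mul_cancel_left, mul_inv_cancel, inv_mul_cancel, mul_one, one_mul, inv_one, C])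
  have k59 : o.lt (f * Q⁻¹) (g * P⁻¹) ↔ o.lt (f * Q⁻¹) (g * P⁻¹) := o.cv hδ (1) e6 (by simp only [mul_assoc, mul_inv_rev, inv_inv, mul_inv_cancel_left, inv_mul_cancel_left, mul_inv_cancel, inv_mul_cancel, mul_one, one_mul, inv_one, C]) (by simp only [mul_assoc, mul_inv_rev, inv_inv, mul_inv_cancel_left, inv_mul_cancel_left, mul_inv_cancel, inv_mul_cancel, mul_one, one_mul, inv_one, C])
  have k60 : o.lt (g * P⁻¹) (m * f⁻¹) ↔ o.lt (g * P⁻¹) (m * f⁻¹) := o.cv hδ (1) e9 (by simp only [mul_assoc, mul_inv_rev, inv_inv, mul_inv_cancel_left, inv_mul_cancel_left, mul_inv_cancel, inv_mul_cancel, mul_one, one_mul, inv_one, C]) (by simp only [mul_assoc, mul_inv_rev, inv_inv, mul_inv_cancel_left, inv_mul_cancel_left, mul_inv_cancel, inv_mul_cancel, mul_one, one_mul, inv_one, C])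
  have k61 : o.lt (Q * f⁻¹) (f * m⁻¹) ↔ o.lt (Q * m⁻¹) (m * f⁻¹) := o.cv hδ (f * m⁻¹) e32 (by simp only [mul_assoc, mul_inv_rev, inv_inv, mul_inv_cancel_left, inv_mul_cancel_left, mul_inv_cancel, inv_mul_cancel, mul_one, one_mul, inv_one, C]) (by simp only [mul_assoc, mul_inv_rev, inv_inv, mul_inv_cancel_left, inv_mul_cancel_left, mul_inv_cancel, inv_mul_cancel, mul_one, one_mul, inv_one, C])
  have k62 : o.lt (Q * m⁻¹) (g * P⁻¹) ↔ o.lt (Q * m⁻¹) (g * P⁻¹) := o.cv hδ (1) e7 (by simp only [mul_assoc, mul_inv_rev, inv_inv, mul_inv_cancel_left, inv_mul_cancel_left, mul_inv_cancel, inv_mul_cancel, mul_one, one_mul, inv_one, C]) (by simp only [mul_assoc, mul_inv_rev, inv_inv, mul_inv_cancel_left, inv_mul_cancel_left, mul_inv_cancel, inv_mul_cancel, mul_one, one_mul, inv_one, C])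
  have k63 : o.lt (Q * g⁻¹) (g * m⁻¹) ↔ o.lt (Q * m⁻¹) (m * g⁻¹) := o.cv hδ (g * m⁻¹) e29 (by simp only [mul_assoc, mul_inv_rev, inv_inv, mul_inv_cancel_left, inv_mul_cancel_left, mul_inv_cancel, inv_mul_cancel, mul_one, one_mul, inv_one, C]) (by simp only [mul_assoc, mul_inv_rev, inv_inv, mul_inv_cancel_left, inv_mul_cancel_left, mul_inv_cancel, inv_mul_cancel, mul_one, one_mul, inv_one, C])
  have k64 : o.lt (P * f⁻¹) (P * g⁻¹) ↔ o.lt (f * P⁻¹) (P * (g⁻¹ * (P * f⁻¹))) := o.cv hδ (f * (P⁻¹ * (f * P⁻¹))) e22 (by simp only [mul_assoc, mul_inv_rev, inv_inv, mul_inv_cancel_left, inv_mul_cancel_left, mul_inv_cancel, inv_mul_cancel, mul_one, one_mul, inv_one, C]) (by simp only [mul_assoc, mul_inv_rev, inv_inv, mul_inv_cancel_left, inv_mul_cancel_left, mul_inv_cancel, inv_mul_cancel, mul_one, one_mul, inv_one, C])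
  have k65 : o.lt (g * (P⁻¹ * (g * f⁻¹))) (g * P⁻¹) ↔ o.lt (P * (g⁻¹ * (P * f⁻¹))) (g * P⁻¹) := o.cv hδ (f * (g⁻¹ * (P * (g⁻¹ * (P * (g⁻¹ * (P * f⁻¹))))))) e13 (by simp only [mul_assoc, mul_inv_rev, inv_inv, mul_inv_cancel_left, inv_mul_cancel_left, mul_inv_cancel, inv_mul_cancel, mul_one, one_mul, inv_one, C]) (by simp only [mul_assoc, mul_inv_rev, inv_inv, mul_inv_cancel_left, inv_mul_cancel_left, mul_inv_cancel, inv_mul_cancel, mul_one, one_mul, inv_one, C])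
  have k66 : o.lt (g * (P⁻¹ * (f * P⁻¹))) (P * g⁻¹) ↔ o.lt (g * P⁻¹) (P * (g⁻¹ * (P * f⁻¹))) := o.cv hδ (P * f⁻¹) e10 (by simp only [mul_assoc, mul_inv_rev, inv_inv, mul_inv_cancel_left, inv_mul_cancel_left, mul_inv_cancel, inv_mul_cancel, mul_one, one_mul, inv_one, C]) (by simp only [mul_assoc, mul_inv_rev, inv_inv, mul_inv_cancel_left, inv_mul_cancel_left, mul_inv_cancel, inv_mul_cancel, mul_one, one_mul, inv_one, C])
  have k67 : o.lt (Q * f⁻¹) (P * g⁻¹) ↔ o.lt (f * Q⁻¹) (P * (g⁻¹ * (Q * f⁻¹))) := o.cv hδ (f * (Q⁻¹ * (f * Q⁻¹))) e31 (by simp only [mul_assoc, mul_inv_rev, inv_inv, mul_inv_cancel_left, inv_mul_cancel_left, mul_inv_cancel, inv_mul_cancel, mul_one, one_mul, inv_one, C]) (by simp only [mul_assoc, mul_inv_rev, inv_inv, mul_inv_cancel_left, inv_mul_cancel_left, mul_inv_cancel, inv_mul_cancel, mul_one, one_mul, inv_one, C])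
  have k68 : o.lt (g * P⁻¹) (P * (g⁻¹ * (Q * f⁻¹))) ↔ o.lt (g * P⁻¹) (P * (g⁻¹ * (Q * f⁻¹))) := o.cv hδ (1) e43 (by simp only [mul_assoc, mul_inv_rev, inv_inv, mul_inv_cancel_left, inv_mul_cancel_left, mul_inv_cancel, inv_mul_cancel, mul_one, one_mul, inv_one, C]) (by simp only [mul_assoc, mul_inv_rev, inv_inv, mul_inv_cancel_left, inv_mul_cancel_left, mul_inv_cancel, inv_mul_cancel, mul_one, one_mul, inv_one, C])
  have k69 : o.lt (g * f⁻¹) (g * (P⁻¹ * (f * m⁻¹))) ↔ o.lt (g * f⁻¹) (g * (P⁻¹ * (f * m⁻¹))) := o.cv hδ (1) e1 (by simp only [mul_assoc, mul_inv_rev, inv_inv, mul_inv_cancel_left, inv_mul_cancel_left, mul_inv_cancel, inv_mul_cancel, mul_one, one_mul, inv_one, C]) (by simp only [mul_assoc, mul_inv_rev, inv_inv, mul_inv_cancel_left, inv_mul_cancel_left, mul_inv_cancel, inv_mul_cancel, mul_one, one_mul, inv_one, C])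
  have k70 : o.lt (g * Q⁻¹) (g * P⁻¹) ↔ o.lt (g * f⁻¹) (g * (P⁻¹ * (Q * f⁻¹))) := o.cv hδ (Q * f⁻¹) e2 (by simp only [mul_assoc, mul_inv_rev, inv_inv, mul_inv_cancel_left, inv_mul_cancel_left, mul_inv_cancel, inv_mul_cancel, mul_one, one_mul, inv_one, C]) (by simp only [mul_assoc, mul_inv_rev, inv_inv, mul_inv_cancel_left, inv_mul_cancel_left, mul_inv_cancel, inv_mul_cancel, mul_one, one_mul, inv_one, C])
  have k71 : o.lt (g * (P⁻¹ * (Q * f⁻¹))) (g * (P⁻¹ * (f * m⁻¹))) ↔ o.lt (g * (P⁻¹ * (Q * f⁻¹))) (g * (P⁻¹ * (f * m⁻¹))) := o.cv hδ (1) e17 (by simp only [mul_assoc, mul_inv_rev, inv_inv, mul_inv_cancel_left, inv_mul_cancel_left, mul_inv_cancel, inv_mul_cancel, mul_one, one_mul, inv_one, C]) (by simp only [mul_assoc, mul_inv_rev, inv_inv, mul_inv_cancel_left, inv_mul_cancel_left, mul_inv_cancel, inv_mul_cancel, mul_one, one_mul, inv_one, C])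
  have k72 : o.lt (f * Q⁻¹) (g * P⁻¹) ↔ o.lt (1) (g * (P⁻¹ * (Q * f⁻¹))) := o.cv hδ (Q * f⁻¹) e6 (by simp only [mul_assoc, mul_inv_rev, inv_inv, mul_inv_cancel_left, inv_mul_cancel_left, mul_inv_cancel, inv_mul_cancel, mul_one, one_mul, inv_one, C]) (by simp only [mul_assoc, mul_inv_rev, inv_inv, mul_inv_cancel_left, inv_mul_cancel_left, mul_inv_cancel, inv_mul_cancel, mul_one, one_mul, inv_one, C])
  have k73 : o.lt (g * Q⁻¹) (g * P⁻¹) ↔ o.lt (1) (g * (P⁻¹ * (Q * g⁻¹))) := o.cv hδ (Q * g⁻¹) e2 (by simp only [mul_assoc, mul_inv_rev, inv_inv, mul_inv_cancel_left, inv_mul_cancel_left, mul_inv_cancel, inv_mul_cancel, mul_one, one_mul, inv_one, C]) (by simp only [mul_assoc, mul_inv_rev, inv_inv, mul_inv_cancel_left, inv_mul_cancel_left, mul_inv_cancel, inv_mul_cancel, mul_one, one_mul, inv_one, C])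
  have k74 : o.lt (g * (P⁻¹ * (Q * g⁻¹))) (g * (P⁻¹ * (Q * f⁻¹))) ↔ o.lt (g * (P⁻¹ * (Q * g⁻¹))) (g * (P⁻¹ * (Q * f⁻¹))) := o.cv hδ (1) e16 (by simp only [mul_assoc, mul_inv_rev, inv_inv, mul_inv_cancel_left, inv_mul_cancel_left, mul_inv_cancel, inv_mul_cancel, mul_one, one_mul, inv_one, C]) (by simp only [mul_assoc, mul_inv_rev, inv_inv, mul_inv_cancel_left, inv_mul_cancel_left, mul_inv_cancel, inv_mul_cancel, mul_one, one_mul, inv_one, C])
  have k75 : o.lt (Q * m⁻¹) (g * P⁻¹) ↔ o.lt (1) (g * (P⁻¹ * (m * Q⁻¹))) := o.cv hδ (m * Q⁻¹) e7 (by simp only [mul_assoc, mul_inv_rev, inv_inv, mul_inv_cancel_left, inv_mul_cancel_left, mul_inv_cancel, inv_mul_cancel, mul_one, one_mul, inv_one, C]) (by simp only [mul_assoc, mul_inv_rev, inv_inv, mul_inv_cancel_left, inv_mul_cancel_left, mul_inv_cancel, inv_mul_cancel, mul_one, one_mul, inv_one, C])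
  have k76 : o.lt (g * (P⁻¹ * (Q * f⁻¹))) (g * (P⁻¹ * (m * Q⁻¹))) ↔ o.lt (g * (P⁻¹ * (Q * f⁻¹))) (g * (P⁻¹ * (m * Q⁻¹))) := o.cv hδ (1) e18 (by simp only [mul_assoc, mul_inv_rev, inv_inv, mul_inv_cancel_left, inv_mul_cancel_left, mul_inv_cancel, inv_mul_cancel, mul_one, one_mul, inv_one, C]) (by simp only [mul_assoc, mul_inv_rev, inv_inv, mul_inv_cancel_left, inv_mul_cancel_left, mul_inv_cancel, inv_mul_cancel, mul_one, one_mul, inv_one, C])
  have k77 : o.lt (g * P⁻¹) (m * f⁻¹) ↔ o.lt (g * (P⁻¹ * (f * m⁻¹))) (1) := o.cv hδ (f * m⁻¹) e9 (by simp only [mul_assoc, mul_inv_rev, inv_inv, mul_inv_cancel_left, inv_mul_cancel_left, mul_inv_cancel, inv_mul_cancel, mul_one, one_mul, inv_one, C]) (by simp only [mul_assoc, mul_inv_rev, inv_inv, mul_inv_cancel_left, inv_mul_cancel_left, mul_inv_cancel, inv_mul_cancel, mul_one, one_mul, inv_one, C])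
  have k78 : o.lt (g * (P⁻¹ * (f * P⁻¹))) (P * g⁻¹) ↔ o.lt (g * (P⁻¹ * (f * m⁻¹))) (g * (P⁻¹ * (g * m⁻¹))) := o.cv hδ (P * m⁻¹) e10 (by simp only [mul_assoc, mul_inv_rev, inv_inv, mul_inv_cancel_left, inv_mul_cancel_left, mul_inv_cancel, inv_mul_cancel, mul_one, one_mul, inv_one, C]) (by simp only [mul_assoc, mul_inv_rev, inv_inv, mul_inv_cancel_left, inv_mul_cancel_left, mul_inv_cancel, inv_mul_cancel, mul_one, one_mul, inv_one, C])
  have k79 : o.lt (g * P⁻¹) (m * g⁻¹) ↔ o.lt (g * (P⁻¹ * (g * m⁻¹))) (1) := o.cv hδ (g * m⁻¹) e12 (by simp only [mul_assoc, mul_inv_rev, inv_inv, mul_inv_cancel_left, inv_mul_cancel_left, mul_inv_cancel, inv_mul_cancel, mul_one, one_mul, inv_one, C]) (by simp only [mul_assoc, mul_inv_rev, inv_inv, mul_inv_cancel_left, inv_mul_cancel_left, mul_inv_cancel, inv_mul_cancel, mul_one, one_mul, inv_one, C])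
  have k80 : o.lt (g * (P⁻¹ * (f * m⁻¹))) (g * (P⁻¹ * (Q * f⁻¹))) ↔ o.lt (g * (P⁻¹ * (f * m⁻¹))) (g * (P⁻¹ * (Q * f⁻¹))) := o.cv hδ (1) e11 (by simp only [mul_assoc, mul_inv_rev, inv_inv, mul_inv_cancel_left, inv_mul_cancel_left, mul_inv_cancel, inv_mul_cancel, mul_one, one_mul, inv_one, C]) (by simp only [mul_assoc, mul_inv_rev, inv_inv, mul_inv_cancel_left, inv_mul_cancel_left, mul_inv_cancel, inv_mul_cancel, mul_one, one_mul, inv_one, C])
  have k81 : o.lt (g * (P⁻¹ * (f * m⁻¹))) (g * f⁻¹) ↔ o.lt (g * (P⁻¹ * (f * m⁻¹))) (g * f⁻¹) := o.cv hδ (1) e8 (by simp only [mul_assoc, mul_inv_rev, inv_inv, mul_inv_cancel_left, inv_mul_cancel_left, mul_inv_cancel, inv_mul_cancel, mul_one, one_mul, inv_one, C]) (by simp only [mul_assoc, mul_inv_rev, inv_inv, mul_inv_cancel_left, inv_mul_cancel_left, mul_inv_cancel, inv_mul_cancel, mul_one, one_mul, inv_one, C])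
  have k82 : o.lt (g * (P⁻¹ * (g * f⁻¹))) (g * P⁻¹) ↔ o.lt (g * (P⁻¹ * (g * m⁻¹))) (g * (P⁻¹ * (f * m⁻¹))) := o.cv hδ (f * m⁻¹) e13 (by simp only [mul_assoc, mul_inv_rev, inv_inv, mul_inv_cancel_left, inv_mul_cancel_left, mul_inv_cancel, inv_mul_cancel, mul_one, one_mul, inv_one, C]) (by simp only [mul_assoc, mul_inv_rev, inv_inv, mul_inv_cancel_left, inv_mul_cancel_left, mul_inv_cancel, inv_mul_cancel, mul_one, one_mul, inv_one, C])
  have k83 : o.lt (m * f⁻¹) (g * P⁻¹) ↔ o.lt (1) (g * (P⁻¹ * (f * m⁻¹))) := o.cv hδ (f * m⁻¹) e4 (by simp only [mul_assoc, mul_inv_rev, inv_inv, mul_inv_cancel_left, inv_mul_cancel_left, mul_inv_cancel, inv_mul_cancel, mul_one, one_mul, inv_one, C]) (by simp only [mul_assoc, mul_inv_rev, inv_inv, mul_inv_cancel_left, inv_mul_cancel_left, mul_inv_cancel, inv_mul_cancel, mul_one, one_mul, inv_one, C])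
  have k84 : o.lt (g * (P⁻¹ * (g * m⁻¹))) (g * (P⁻¹ * (Q * g⁻¹))) ↔ o.lt (g * (P⁻¹ * (g * m⁻¹))) (g * (P⁻¹ * (Q * g⁻¹))) := o.cv hδ (1) e14 (by simp only [mul_assoc, mul_inv_rev, inv_inv, mul_inv_cancel_left, inv_mul_cancel_left, mul_inv_cancel, inv_mul_cancel, mul_one, one_mul, inv_one, C]) (by simp only [mul_assoc, mul_inv_rev, inv_inv, mul_inv_cancel_left, inv_mul_cancel_left, mul_inv_cancel, inv_mul_cancel, mul_one, one_mul, inv_one, C])
  have k85 : o.lt (g * (P⁻¹ * (Q * g⁻¹))) (g * (P⁻¹ * (f * m⁻¹))) ↔ o.lt (g * (P⁻¹ * (Q * g⁻¹))) (g * (P⁻¹ * (f * m⁻¹))) := o.cv hδ (1) e15 (by simp only [mul_assoc, mul_inv_rev, inv_inv, mul_inv_cancel_left, inv_mul_cancel_left, mul_inv_cancel, inv_mul_cancel, mul_one, one_mul, inv_one, C]) (by simp only [mul_assoc, mul_inv_rev, inv_inv, mul_inv_cancel_left, inv_mul_cancel_left, mul_inv_cancel, inv_mul_cancel, mul_one, one_mul, inv_one, C])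
  have k86 : o.lt (g * (P⁻¹ * (m * Q⁻¹))) (g * (P⁻¹ * (Q * f⁻¹))) ↔ o.lt (g * (P⁻¹ * (m * Q⁻¹))) (g * (P⁻¹ * (Q * f⁻¹))) := o.cv hδ (1) e21 (by simp only [mul_assoc, mul_inv_rev, inv_inv, mul_inv_cancel_left, inv_mul_cancel_left, mul_inv_cancel, inv_mul_cancel, mul_one, one_mul, inv_one, C]) (by simp only [mul_assoc, mul_inv_rev, inv_inv, mul_inv_cancel_left, inv_mul_cancel_left, mul_inv_cancel, inv_mul_cancel, mul_one, one_mul, inv_one, C])
  have k87 : o.lt (g * P⁻¹) (Q * m⁻¹) ↔ o.lt (g * (P⁻¹ * (m * Q⁻¹))) (1) := o.cv hδ (m * Q⁻¹) e20 (by simp only [mul_assoc, mul_inv_rev, inv_inv, mul_inv_cancel_left, inv_mul_cancel_left, mul_inv_cancel, inv_mul_cancel, mul_one, one_mul, inv_one, C]) (by simp only [mul_assoc, mul_inv_rev, inv_inv, mul_inv_cancel_left, inv_mul_cancel_left, mul_inv_cancel, inv_mul_cancel, mul_one, one_mul, inv_one, C])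
  have k88 : o.lt (g * (P⁻¹ * (f * P⁻¹))) (g * (P⁻¹ * (m * g⁻¹))) ↔ o.lt (g * (P⁻¹ * (f * P⁻¹))) (g * (P⁻¹ * (m * g⁻¹))) := o.cv hδ (1) e38 (by simp only [mul_assoc, mul_inv_rev, inv_inv, mul_inv_cancel_left, inv_mul_cancel_left, mul_inv_cancel, inv_mul_cancel, mul_one, one_mul, inv_one, C]) (by simp only [mul_assoc, mul_inv_rev, inv_inv, mul_inv_cancel_left, inv_mul_cancel_left, mul_inv_cancel, inv_mul_cancel, mul_one, one_mul, inv_one, C])
  have k89 : o.lt (g * (P⁻¹ * (m * g⁻¹))) (g * (P⁻¹ * (f * P⁻¹))) ↔ o.lt (g * (P⁻¹ * (m * g⁻¹))) (g * (P⁻¹ * (f * P⁻¹))) := o.cv hδ (1) e40 (by simp only [mul_assoc, mul_inv_rev, inv_inv, mul_inv_cancel_left, inv_mul_cancel_left, mul_inv_cancel, inv_mul_cancel, mul_one, one_mul, inv_one, C]) (by simp only [mul_assoc, mul_inv_rev, inv_inv, mul_inv_cancel_left, inv_mul_cancel_left, mul_inv_cancel, inv_mul_cancel, mul_one, one_mul, inv_one, C])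
  have k90 : o.lt (g * (P⁻¹ * (m * f⁻¹))) (g * (P⁻¹ * (m * g⁻¹))) ↔ o.lt (g * (P⁻¹ * (m * f⁻¹))) (g * (P⁻¹ * (m * g⁻¹))) := o.cv hδ (1) e39 (by simp only [mul_assoc, mul_inv_rev, inv_inv, mul_inv_cancel_left, inv_mul_cancel_left, mul_inv_cancel, inv_mul_cancel, mul_one, one_mul, inv_one, C]) (by simp only [mul_assoc, mul_inv_rev, inv_inv, mul_inv_cancel_left, inv_mul_cancel_left, mul_inv_cancel, inv_mul_cancel, mul_one, one_mul, inv_one, C])
  have k91 : o.lt (g * (P⁻¹ * (m * g⁻¹))) (g * (P⁻¹ * (m * f⁻¹))) ↔ o.lt (g * (P⁻¹ * (m * g⁻¹))) (g * (P⁻¹ * (m * f⁻¹))) := o.cv hδ (1) e41 (by simp only [mul_assoc, mul_inv_rev, inv_inv, mul_inv_cancel_left, inv_mul_cancel_left, mul_inv_cancel, inv_mul_cancel, mul_one, one_mul, inv_one, C]) (by simp only [mul_assoc, mul_inv_rev, inv_inv, mul_inv_cancel_left, inv_mul_cancel_left, mul_inv_cancel, inv_mul_cancel, mul_one, one_mul, inv_one, C])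
  have k92 : o.lt (g * (P⁻¹ * (m * Q⁻¹))) (g * (P⁻¹ * (Q * f⁻¹))) ↔ o.lt (g * (P⁻¹ * (m * f⁻¹))) (g * (P⁻¹ * (f * Q⁻¹))) := o.cv hδ (Q * f⁻¹) e21 (by simp only [mul_assoc, mul_inv_rev, inv_inv, mul_inv_cancel_left, inv_mul_cancel_left, mul_inv_cancel, inv_mul_cancel, mul_one, one_mul, inv_one, C]) (by simp only [mul_assoc, mul_inv_rev, inv_inv, mul_inv_cancel_left, inv_mul_cancel_left, mul_inv_cancel, inv_mul_cancel, mul_one, one_mul, inv_one, C])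
  have k93 : o.lt (g * (P⁻¹ * (f * Q⁻¹))) (g * (P⁻¹ * (m * g⁻¹))) ↔ o.lt (g * (P⁻¹ * (f * Q⁻¹))) (g * (P⁻¹ * (m * g⁻¹))) := o.cv hδ (1) e44 (by simp only [mul_assoc, mul_inv_rev, inv_inv, mul_inv_cancel_left, inv_mul_cancel_left, mul_inv_cancel, inv_mul_cancel, mul_one, one_mul, inv_one, C]) (by simp only [mul_assoc, mul_inv_rev, inv_inv, mul_inv_cancel_left, inv_mul_cancel_left, mul_inv_cancel, inv_mul_cancel, mul_one, one_mul, inv_one, C])
  have k94 : o.lt (g * (P⁻¹ * (m * g⁻¹))) (P * g⁻¹) ↔ o.lt (g * (P⁻¹ * (m * g⁻¹))) (P * g⁻¹) := o.cv hδ (1) e19 (by simp only [mul_assoc, mul_inv_rev, inv_inv, mul_inv_cancel_left, inv_mul_cancel_left, mul_inv_cancel, inv_mul_cancel, mul_one, one_mul, inv_one, C]) (by simp only [mul_assoc, mul_inv_rev, inv_inv, mul_inv_cancel_left, inv_mul_cancel_left, mul_inv_cancel, inv_mul_cancel, mul_one, one_mul, inv_one, C])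
  have k95 : o.lt (g * (P⁻¹ * (f * P⁻¹))) (P * g⁻¹) ↔ o.lt (g * (P⁻¹ * (f * P⁻¹))) (P * g⁻¹) := o.cv hδ (1) e10 (by simp only [mul_assoc, mul_inv_rev, inv_inv, mul_inv_cancel_left, inv_mul_cancel_left, mul_inv_cancel, inv_mul_cancel, mul_one, one_mul, inv_one, C]) (by simp only [mul_assoc, mul_inv_rev, inv_inv, mul_inv_cancel_left, inv_mul_cancel_left, mul_inv_cancel, inv_mul_cancel, mul_one, one_mul, inv_one, C])
  have k96 : o.lt (g * (P⁻¹ * (g * m⁻¹))) (g * (P⁻¹ * (Q * g⁻¹))) ↔ o.lt (g * (P⁻¹ * (m * g⁻¹))) (g * (P⁻¹ * (Q * m⁻¹))) := o.cv hδ (m * (g⁻¹ * (m * g⁻¹))) e14 (by simp only [mul_assoc, mul_inv_rev, inv_inv, mul_inv_cancel_left, inv_mul_cancel_left, mul_inv_cancel, inv_mul_cancel, mul_one, one_mul, inv_one, C]) (by simp only [mul_assoc, mul_inv_rev, inv_inv, mul_inv_cancel_left, inv_mul_cancel_left, mul_inv_cancel, inv_mul_cancel, mul_one, one_mul, inv_one, C])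
  have k97 : o.lt (g * (P⁻¹ * (Q * f⁻¹))) (g * (P⁻¹ * (f * m⁻¹))) ↔ o.lt (g * (P⁻¹ * (Q * m⁻¹))) (g * (P⁻¹ * (m * f⁻¹))) := o.cv hδ (f * m⁻¹) e17 (by simp only [mul_assoc, mul_inv_rev, inv_inv, mul_inv_cancel_left, inv_mul_cancel_left, mul_inv_cancel, inv_mul_cancel, mul_one, one_mul, inv_one, C]) (by simp only [mul_assoc, mul_inv_rev, inv_inv, mul_inv_cancel_left, inv_mul_cancel_left, mul_inv_cancel, inv_mul_cancel, mul_one, one_mul, inv_one, C])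
  have k98 : o.lt (g * (P⁻¹ * (m * g⁻¹))) (g * (P⁻¹ * (f * Q⁻¹))) ↔ o.lt (g * (P⁻¹ * (m * g⁻¹))) (g * (P⁻¹ * (f * Q⁻¹))) := o.cv hδ (1) e42 (by simp only [mul_assoc, mul_inv_rev, inv_inv, mul_inv_cancel_left, inv_mul_cancel_left, mul_inv_cancel, inv_mul_cancel, mul_one, one_mul, inv_one, C]) (by simp only [mul_assoc, mul_inv_rev, inv_inv, mul_inv_cancel_left, inv_mul_cancel_left, mul_inv_cancel, inv_mul_cancel, mul_one, one_mul, inv_one, C])
  have k99 : o.lt (g * P⁻¹) (P * (g⁻¹ * (Q * f⁻¹))) ↔ o.lt (g * (P⁻¹ * (f * Q⁻¹))) (P * g⁻¹) := o.cv hδ (f * Q⁻¹) e43 (by simp only [mul_assoc, mul_inv_rev, inv_inv, mul_inv_cancel_left, inv_mul_cancel_left, mul_inv_cancel, inv_mul_cancel, mul_one, one_mul, inv_one, C]) (by simp only [mul_assoc, mul_inv_rev, inv_inv, mul_inv_cancel_left, inv_mul_cancel_left, mul_inv_cancel, inv_mul_cancel, mul_one, one_mul, inv_one, C])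
  have k100 : o.lt (g * (P⁻¹ * (Q * f⁻¹))) (g * (P⁻¹ * (m * Q⁻¹))) ↔ o.lt (g * (P⁻¹ * (f * Q⁻¹))) (g * (P⁻¹ * (m * f⁻¹))) := o.cv hδ (f * (Q⁻¹ * (f * Q⁻¹))) e18 (by simp only [mul_assoc, mul_inv_rev, inv_inv, mul_inv_cancel_left, inv_mul_cancel_left, mul_inv_cancel, inv_mul_cancel, mul_one, one_mul, inv_one, C]) (by simp only [mul_assoc, mul_inv_rev, inv_inv, mul_inv_cancel_left, inv_mul_cancel_left, mul_inv_cancel, inv_mul_cancel, mul_one, one_mul, inv_one, C])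
  have k101 : o.lt (g * Q⁻¹) (g * P⁻¹) ↔ o.lt ((Q * g⁻¹)⁻¹) ((P * g⁻¹)⁻¹) := o.cv hδ (1) e2 (by simp only [mul_assoc, mul_inv_rev, inv_inv, mul_inv_cancel_left, inv_mul_cancel_left, mul_inv_cancel, inv_mul_cancel, mul_one, one_mul, inv_one, C]) (by simp only [mul_assoc, mul_inv_rev, inv_inv, mul_inv_cancel_left, inv_mul_cancel_left, mul_inv_cancel, inv_mul_cancel, mul_one, one_mul, inv_one, C])
  have k102 : o.lt (f * m⁻¹) (g * m⁻¹) ↔ o.lt ((P * f⁻¹)⁻¹) ((P * g⁻¹)⁻¹) := o.cv hδ (m * P⁻¹) e3 (by simp only [mul_assoc, mul_inv_rev, inv_inv, mul_inv_cancel_left, inv_mul_cancel_left, mul_inv_cancel, inv_mul_cancel, mul_one, one_mul, inv_one, C]) (by simp only [mul_assoc, mul_inv_rev, inv_inv, mul_inv_cancel_left, inv_mul_cancel_left, mul_inv_cancel, inv_mul_cancel, mul_one, one_mul, inv_one, C])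
  exact ser_ABE_2_prop
    (fun b0 b1 b2 => N0.r.r0 1 (fun h => b0 (k0.2 h)) (k1.1 b1) (fun h => b2 (k2.2 h)))
    (fun b0 b1 b2 => N0.d.r0 1 (fun h => b0 (k3.2 h)) (k4.1 b1) (fun h => b2 (k5.2 h)))
    (fun b0 b1 b2 => N0.i.r1 1 (fun h => b0 (k6.2 h)) (fun h => b1 (k4.2 h)) (k7.1 b2))
    (fun b0 b1 b2 b3 => N1.d.r0 1 (fun h => b0 (k8.2 h)) (fun h => b1 (k9.2 h)) (k10.1 b2) (fun h => b3 (k11.2 h)))
    (fun b0 b1 b2 b3 => N1.r.r1 1 (fun h => b0 (k0.2 h)) (k12.1 b1) (fun h => b2 (k13.2 h)) (fun h => b3 (k11.2 h)))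
    (fun b0 b1 b2 b3 => N1.r.r0 1 (fun h => b0 (k14.2 h)) (fun h => b1 (k15.2 h)) (k0.1 b2) (fun h => b3 (k11.2 h)))
    (fun b0 b1 b2 => N0.r.r0 (g * P⁻¹) (fun h => b0 (k16.2 h)) (k17.1 b1) (fun h => b2 (k18.2 h)))
    (fun b0 b1 b2 => N0.r.r1 (g * P⁻¹) (fun h => b0 (k19.2 h)) (fun h => b1 (k20.2 h)) (k18.1 b2))
    (fun b0 b1 b2 => N0.rd.r0 (g * P⁻¹) (fun h => b0 (k21.2 h)) (k20.1 b1) (fun h => b2 (k22.2 h)))
    (fun b0 b1 b2 b3 => N1.i.r0 (g * P⁻¹) (fun h => b0 (k23.2 h)) (fun h => b1 (k24.2 h)) (k25.1 b2) (fun h => b3 (k26.2 h)))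
    (fun b0 b1 b2 b3 => N1.i.r1 (g * P⁻¹) (fun h => b0 (k25.2 h)) (k27.1 b1) (fun h => b2 (k28.2 h)) (fun h => b3 (k26.2 h)))
    (fun b0 b1 b2 => o.tri (k29.1 b0) (fun h => b1 (k30.2 h)) (fun h => b2 (k31.2 h)))
    (fun b0 b1 => o.asym (k31.1 b0) (k32.1 b1))
    (fun b0 b1 => o.asym (k33.1 b0) (k34.1 b1))
    (fun b0 b1 b2 => o.tri (k35.1 b0) (fun h => b1 (k36.2 h)) (fun h => b2 (k37.2 h)))
    (fun b0 b1 b2 => o.tri (k38.1 b0) (fun h => b1 (k36.2 h)) (fun h => b2 (k39.2 h)))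
    (fun b0 b1 => o.asym (k36.1 b0) (k40.1 b1))
    (fun b0 b1 b2 => o.tri (k32.1 b0) (fun h => b1 (k41.2 h)) (fun h => b2 (k30.2 h)))
    (fun b0 b1 b2 => o.tri (k42.1 b0) (fun h => b1 (k43.2 h)) (fun h => b2 (k44.2 h)))
    (fun b0 b1 b2 => o.tri (k43.1 b0) (fun h => b1 (k45.2 h)) (fun h => b2 (k46.2 h)))
    (fun b0 b1 b2 => o.tri (k47.1 b0) (fun h => b1 (k48.2 h)) (fun h => b2 (k49.2 h)))
    (fun b0 b1 b2 => o.tri (k50.1 b0) (fun h => b1 (k51.2 h)) (fun h => b2 (k52.2 h)))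
    (fun b0 b1 b2 => o.tri (k53.1 b0) (fun h => b1 (k51.2 h)) (fun h => b2 (k54.2 h)))
    (fun b0 b1 b2 => o.tri (k55.1 b0) (fun h => b1 (k51.2 h)) (fun h => b2 (k56.2 h)))
    (fun b0 b1 b2 => o.tri (k57.1 b0) (fun h => b1 (k44.2 h)) (fun h => b2 (k48.2 h)))
    (fun b0 b1 b2 => o.tri (k58.1 b0) (fun h => b1 (k59.2 h)) (fun h => b2 (k60.2 h)))
    (fun b0 b1 b2 => o.tri (k61.1 b0) (fun h => b1 (k62.2 h)) (fun h => b2 (k60.2 h)))
    (fun b0 b1 b2 => o.tri (k63.1 b0) (fun h => b1 (k62.2 h)) (fun h => b2 (k48.2 h)))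
    (fun b0 b1 b2 => o.tri (k42.1 b0) (fun h => b1 (k64.2 h)) (fun h => b2 (k65.2 h)))
    (fun b0 b1 => o.asym (k66.1 b0) (k65.1 b1))
    (fun b0 b1 b2 => o.tri (k67.1 b0) (fun h => b1 (k59.2 h)) (fun h => b2 (k68.2 h)))
    (fun b0 b1 b2 => o.tri (k69.1 b0) (fun h => b1 (k70.2 h)) (fun h => b2 (k71.2 h)))
    (fun b0 b1 b2 => o.tri (k72.1 b0) (fun h => b1 (k73.2 h)) (fun h => b2 (k74.2 h)))
    (fun b0 b1 b2 => o.tri (k75.1 b0) (fun h => b1 (k72.2 h)) (fun h => b2 (k76.2 h)))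
    (fun b0 b1 b2 => o.tri (k77.1 b0) (fun h => b1 (k78.2 h)) (fun h => b2 (k79.2 h)))
    (fun b0 b1 => o.asym (k80.1 b0) (k71.1 b1))
    (fun b0 b1 b2 => o.tri (k80.1 b0) (fun h => b1 (k81.2 h)) (fun h => b2 (k70.2 h)))
    (fun b0 b1 b2 => o.tri (k82.1 b0) (fun h => b1 (k79.2 h)) (fun h => b2 (k83.2 h)))
    (fun b0 b1 b2 => o.tri (k82.1 b0) (fun h => b1 (k84.2 h)) (fun h => b2 (k85.2 h)))
    (fun b0 b1 b2 => o.tri (k84.1 b0) (fun h => b1 (k79.2 h)) (fun h => b2 (k73.2 h)))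
    (fun b0 b1 b2 => o.tri (k86.1 b0) (fun h => b1 (k87.2 h)) (fun h => b2 (k72.2 h)))
    (fun b0 b1 => o.asym (k88.1 b0) (k89.1 b1))
    (fun b0 b1 => o.asym (k90.1 b0) (k91.1 b1))
    (fun b0 b1 b2 => o.tri (k90.1 b0) (fun h => b1 (k92.2 h)) (fun h => b2 (k93.2 h)))
    (fun b0 b1 b2 => o.tri (k94.1 b0) (fun h => b1 (k89.2 h)) (fun h => b2 (k95.2 h)))
    (fun b0 b1 b2 => o.tri (k91.1 b0) (fun h => b1 (k96.2 h)) (fun h => b2 (k97.2 h)))
    (fun b0 b1 => o.asym (k98.1 b0) (k93.1 b1))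
    (fun b0 b1 b2 => o.tri (k99.1 b0) (fun h => b1 (k93.2 h)) (fun h => b2 (k94.2 h)))
    (fun b0 b1 b2 => o.tri (k100.1 b0) (fun h => b1 (k93.2 h)) (fun h => b2 (k91.2 h)))
    (fun h => g0 (k30.1 h))
    (fun h => g1 (k101.1 h))
    (k102.2 g2)

end Pool.Agent.K7.H31.SA
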