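import Pool.Agent.K7.H31.SA.Base

set_option autoImplicit false

/-!
# The rules
-/

namespace Pool.Agent.K7.H31.SA

variable {G : Type*} [Group G]

structure BE {δ : G → ZMod 3} (o : Pre δ) (P Q f g : G) : Prop where
  r0 : ∀ z, o.lt (z * (P * f⁻¹)) (z * (Q * f⁻¹)) → ¬ o.lt (z * (P * g⁻¹)⁻¹) (z * (P * f⁻¹)⁻¹) → ¬ o.lt (z * (Q * f⁻¹)⁻¹) (z * (P * g⁻¹)⁻¹) → False
  r1 : ∀ z, ¬ o.lt (z * (Q * f⁻¹)) (z * (P * f⁻¹)) → o.lt (z * (Q * f⁻¹)) (z * (Q * g⁻¹)) → ¬ o.lt (z * (P * g⁻¹)⁻¹) (z * (P * f⁻¹)⁻¹) → False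
  r2 : ∀ z, ¬ o.lt (z * (P * f⁻¹)) (z * (P * g⁻¹)) → ¬ o.lt (z * (Q * g⁻¹)⁻¹) (z * (P * g⁻¹)⁻¹) → o.lt (z * (P * f⁻¹)⁻¹) (z * (P * g⁻¹)⁻¹) → False

structure RE {δ : G → ZMod 3} (o : Pre δ) (P Q f g : G) : Prop where
  i : BE o P Q f g
  d : BE o.dual P Q f g
  r : BE o Q P g f
  rd : BE o.dual Q P g f

structure BA {δ : G → ZMod 3} (o : Pre δ) (P Q f g : G) : Prop where
  r0 : ∀ z, ¬ o.lt (z * (P * g⁻¹)) (z * (P * f⁻¹)) → o.lt (z * (P * f⁻¹)) (z * (g * Q⁻¹)) → ¬ o.lt (z * (P * g⁻¹)⁻¹) (z * (g * Q⁻¹)⁻¹) → False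
  r1 : ∀ z, ¬ o.lt (z * (g * Q⁻¹)) (z * (f * Q⁻¹)) → ¬ o.lt (z * (g * Q⁻¹)) (z * (P * f⁻¹)) → o.lt (z * (P * g⁻¹)⁻¹) (z * (g * Q⁻¹)⁻¹) → False

structure RA {δ : G → ZMod 3} (o : Pre δ) (P Q f g : G) : Prop where
  i : BA o P Q f g
  d : BA o.dual P Q f g
  r : BA o Q P g f
  rd : BA o.dual Q P g f

structure BB {δ : G → ZMod 3} (o : Pre δ) (P Q f g : G) : Prop where
  r0 : ∀ z, ¬ o.lt (z * (f * Q⁻¹)) (z * (P * f⁻¹)) → ¬ o.lt (z * (g * Q⁻¹)) (z * (P * g⁻¹)) → o.lt (z * (P * f⁻¹)) (z * (P * g⁻¹)) → ¬ o.lt (z * g) (z * f) → False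
  r1 : ∀ z, ¬ o.lt (z * (P * f⁻¹)) (z * (P * g⁻¹)) → o.lt (z * (P * f⁻¹)) (z * (g * Q⁻¹)) → ¬ o.lt (z * (f * Q⁻¹)⁻¹) (z * (P * g⁻¹)⁻¹) → ¬ o.lt (z * g) (z * f) → False

structure RB {δ : G → ZMod 3} (o : Pre δ) (P Q f g : G) : Prop where
  i : BB o P Q f g
  d : BB o.dual P Q f g
  r : BB o Q P g f
  rd : BB o.dual Q P g f

structure BC {δ : G → ZMod 3} (o : Pre δ) (P Q f g : G) : Prop where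
  r0 : ∀ z, o.lt (z * (f * Q⁻¹)) (z * (g * Q⁻¹)) → ¬ o.lt (z * (f * Q⁻¹)) (z * (P * g⁻¹)) → ¬ o.lt (z * (f * Q⁻¹)⁻¹) (z * (g * Q⁻¹)⁻¹) → False
  r1 : ∀ z, o.lt (z * (P * g⁻¹)) (z * (g * Q⁻¹)) → ¬ o.lt (z * (f * Q⁻¹)) (z * (g * Q⁻¹)) → ¬ o.lt (z * (f * Q⁻¹)⁻¹) (z * (P * g⁻¹)⁻¹) → ¬ o.lt (z * g) (z * f) → False
  r2 : ∀ z, ¬ o.lt (z * (P * g⁻¹)) (z * (P * f⁻¹)) → o.lt (z * (P * f⁻¹)) (z * (g * Q⁻¹)) → ¬ o.lt (z * (f * Q⁻¹)) (z * (P * g⁻¹)) → ¬ o.lt (z * g) (z * f) → False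

structure RC {δ : G → ZMod 3} (o : Pre δ) (P Q f g : G) : Prop where
  i : BC o P Q f g
  d : BC o.dual P Q f g
  r : BC o Q P g f
  rd : BC o.dual Q P g f

end Pool.Agent.K7.H31.SA
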